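import Pool.Agent.Lib.QNL.Lev32

/-!
QNL, group C: the abstract `L²` contraction of an expanding family of nests.
-/

set_option autoImplicit false

namespace Pool.Agent.Lib.QNL.Contr32

open MeasureTheory Filter Topology Set
open scoped ENNReal
open Pool.Agent.Lib.QNL.Lev32

variable {α : Type*} [MeasurableSpace α]

/-- Expanding families of nests `A l`, `l ≥ 0`: volume `e^l`, and the overlaps grow at least like
`e^h`. -/
structure Expand (μ : Measure α) (A : ℝ → ℝ → Set α) : Prop where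
  nest : ∀ l, 0 ≤ l → Nest (A l)
  vol : ∀ l, 0 ≤ l → ∀ s, 0 < s → μ (A l s) = ENNReal.ofReal (Real.exp l) * μ (A 0 s)
  overlap : ∀ l l' h, 0 ≤ l → 0 ≤ l' → 0 ≤ h → ∀ s t, 0 < s → 0 < t →
    ENNReal.ofReal (Real.exp h) * μ (A l s ∩ A l' t) ≤ μ (A (l + h) s ∩ A (l' + h) t)

/-- Abstract expansion semigroup on a class of sets. -/
structure Semi (μ : Measure α) (𝒟 : Set (Set α)) (U : ℝ → Set α → Set α) : Prop where
  meas : ∀ D ∈ 𝒟, MeasurableSet D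
  inter : ∀ D ∈ 𝒟, ∀ D' ∈ 𝒟, D ∩ D' ∈ 𝒟
  mem : ∀ D ∈ 𝒟, ∀ l, 0 ≤ l → U l D ∈ 𝒟
  mono : ∀ D ∈ 𝒟, ∀ D' ∈ 𝒟, D ⊆ D' → ∀ l, 0 ≤ l → U l D ⊆ U l D'
  semi : ∀ D ∈ 𝒟, ∀ l h, 0 ≤ l → 0 ≤ h → U h (U l D) = U (l + h) D
  zero : ∀ D ∈ 𝒟, U 0 D = D
  vol : ∀ D ∈ 𝒟, ∀ l, 0 ≤ l → μ (U l D) = ENNReal.ofReal (Real.exp l) * μ D
  empty : ∀ l, 0 ≤ l → U l ∅ = ∅

/-- The overlap inequality of a semigroup. -/
theorem Semi.overlap {μ : Measure α} {𝒟 : Set (Set α)} {U : ℝ → Set α → Set α} (h : Semi μ 𝒟 U)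
    {A B : Set α} (hA : A ∈ 𝒟) (hB : B ∈ 𝒟) {l : ℝ} (hl : 0 ≤ l) :
    ENNReal.ofReal (Real.exp l) * μ (A ∩ B) ≤ μ (U l A ∩ U l B) := by
  have h1 := h.inter A hA B hB
  rw [← h.vol _ h1 l hl]
  exact measure_mono (subset_inter (h.mono _ h1 A hA inter_subset_left l hl)
    (h.mono _ h1 B hB inter_subset_right l hl))

/-- A nest in the class gives an expanding family. -/
theorem Semi.expand {μ : Measure α} {𝒟 : Set (Set α)} {U : ℝ → Set α → Set α} (h : Semi μ 𝒟 U)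
    {G : ℝ → Set α} (hG : Nest G) (hG' : ∀ s, 0 < s → G s ∈ 𝒟) :
    Expand μ (fun l s => U l (G s)) := by
  refine ⟨fun l hl => ⟨fun s hs => h.meas _ (h.mem _ (hG' s hs) l hl), fun s s' hs hss =>
    h.mono _ (hG' s' (hs.trans_le hss)) _ (hG' s hs) (hG.anti s s' hs hss) l hl, ?_⟩, ?_, ?_⟩
  · obtain ⟨M, hM0, hM⟩ := hG.top
    refine ⟨M, hM0, fun s hs => ?_⟩
    rw [hM s hs, h.empty l hl]
  · intro l hl s hs
    rw [h.zero _ (hG' s hs), h.vol _ (hG' s hs) l hl]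
  · intro l l' k hl hl' hk s t hs ht
    rw [← h.semi _ (hG' s hs) l k hl hk, ← h.semi _ (hG' t ht) l' k hl' hk]
    exact h.overlap (h.mem _ (hG' s hs) l hl) (h.mem _ (hG' t ht) l' hl') hk

/-- `m_l = e^(-l/2) τ_l^(p/2)` -/
noncomputable def mm (p : ℝ) (A : ℝ → ℝ → Set α) (l : ℝ) (z : α) : ℝ :=
  Real.exp (-l / 2) * lv (A l) z ^ (p / 2)

section contr
variable {μ : Measure α} [SFinite μ] {A : ℝ → ℝ → Set α} {p : ℝ}

omit [MeasurableSpace α] in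
theorem mm_nonneg (p : ℝ) (A : ℝ → ℝ → Set α) (l : ℝ) (z : α) : 0 ≤ mm p A l z :=
  mul_nonneg (Real.exp_pos _).le (Real.rpow_nonneg (lv_nonneg _ _) _)

omit [MeasurableSpace α] in
theorem mm_sq (p : ℝ) (A : ℝ → ℝ → Set α) (l : ℝ) (z : α) :
    mm p A l z ^ 2 = Real.exp (-l) * lv (A l) z ^ p := by
  unfold mm
  rw [mul_pow, ← Real.exp_nat_mul, ← Real.rpow_natCast (lv (A l) z ^ (p / 2)),
    ← Real.rpow_mul (lv_nonneg _ _)]
  congr 2
  · push_cast; ring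
  · push_cast; ring

theorem Expand.measurable_mm (h : Expand μ A) {l : ℝ} (hl : 0 ≤ l) : Measurable (mm p A l) := by
  unfold mm
  exact ((h.nest l hl).measurable.pow_const _).const_mul _

theorem Expand.lint_pow (h : Expand μ A) (hp : 0 < p) {l : ℝ} (hl : 0 ≤ l) :
    ∫⁻ z, ENNReal.ofReal (lv (A l) z ^ p) ∂μ =
      ENNReal.ofReal (Real.exp l) * ∫⁻ z, ENNReal.ofReal (lv (A 0) z ^ p) ∂μ :=
  pow_scale hp (h.nest 0 le_rfl) (h.nest l hl) ENNReal.ofReal_ne_top (h.vol l hl)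

theorem Expand.lint_mm_sq (h : Expand μ A) (hp : 0 < p) {l : ℝ} (hl : 0 ≤ l) :
    ∫⁻ z, ENNReal.ofReal (mm p A l z ^ 2) ∂μ = ∫⁻ z, ENNReal.ofReal (lv (A 0) z ^ p) ∂μ := by
  have h1 : ∀ z, ENNReal.ofReal (mm p A l z ^ 2) =
      ENNReal.ofReal (Real.exp (-l)) * ENNReal.ofReal (lv (A l) z ^ p) := by
    intro z
    rw [mm_sq, ENNReal.ofReal_mul (Real.exp_pos _).le]
  simp only [h1]
  rw [lintegral_const_mul' _ _ ENNReal.ofReal_ne_top, h.lint_pow hp hl, ← mul_assoc,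
    ← ENNReal.ofReal_mul (Real.exp_pos _).le, ← Real.exp_add, neg_add_cancel, Real.exp_zero,
    ENNReal.ofReal_one, one_mul]

theorem Expand.integrable_mm_sq (h : Expand μ A) (hp : 0 < p)
    (hfin : ∫⁻ z, ENNReal.ofReal (lv (A 0) z ^ p) ∂μ ≠ ⊤) {l : ℝ} (hl : 0 ≤ l) :
    Integrable (fun z => mm p A l z ^ 2) μ := by
  refine ⟨((h.measurable_mm hl).pow_const 2).aestronglyMeasurable, ?_⟩
  rw [hasFiniteIntegral_iff_ofReal (Eventually.of_forall fun z => sq_nonneg _), h.lint_mm_sq hp hl]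
  exact hfin.lt_top

theorem Expand.memLp (h : Expand μ A) (hp : 0 < p)
    (hfin : ∫⁻ z, ENNReal.ofReal (lv (A 0) z ^ p) ∂μ ≠ ⊤) {l : ℝ} (hl : 0 ≤ l) :
    MemLp (mm p A l) 2 μ :=
  (memLp_two_iff_integrable_sq (h.measurable_mm hl).aestronglyMeasurable).2
    (h.integrable_mm_sq hp hfin hl)

theorem Expand.integral_mm_sq (h : Expand μ A) (hp : 0 < p) {l : ℝ} (hl : 0 ≤ l) :
    ∫ z, mm p A l z ^ 2 ∂μ = ∫ z, lv (A 0) z ^ p ∂μ := by
  rw [integral_eq_lintegral_of_nonneg_ae (Eventually.of_forall fun z => sq_nonneg _)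
    ((h.measurable_mm hl).pow_const 2).aestronglyMeasurable,
    integral_eq_lintegral_of_nonneg_ae (Eventually.of_forall fun z =>
      Real.rpow_nonneg (lv_nonneg _ _) _)
    ((h.nest 0 le_rfl).measurable.pow_const p).aestronglyMeasurable, h.lint_mm_sq hp hl]

theorem Expand.integrable_mul (h : Expand μ A) (hp : 0 < p)
    (hfin : ∫⁻ z, ENNReal.ofReal (lv (A 0) z ^ p) ∂μ ≠ ⊤) {l l' : ℝ} (hl : 0 ≤ l) (hl' : 0 ≤ l') :
    Integrable (fun z => mm p A l z * mm p A l' z) μ :=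
  (h.memLp hp hfin hl).integrable_mul (h.memLp hp hfin hl')

/-- The inner products increase along the expansion. -/
theorem Expand.inner_le (h : Expand μ A) (hp : 0 < p)
    (hfin : ∫⁻ z, ENNReal.ofReal (lv (A 0) z ^ p) ∂μ ≠ ⊤) {l l' k : ℝ} (hl : 0 ≤ l)
    (hl' : 0 ≤ l') (hk : 0 ≤ k) :
    ∫ z, mm p A l z * mm p A l' z ∂μ ≤ ∫ z, mm p A (l + k) z * mm p A (l' + k) z ∂μ := by
  have hlk : 0 ≤ l + k := by linarith
  have hlk' : 0 ≤ l' + k := by linarith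
  rw [integral_eq_lintegral_of_nonneg_ae (Eventually.of_forall fun z =>
      mul_nonneg (mm_nonneg _ _ _ _) (mm_nonneg _ _ _ _))
      ((h.measurable_mm hl).mul (h.measurable_mm hl')).aestronglyMeasurable,
    integral_eq_lintegral_of_nonneg_ae (Eventually.of_forall fun z =>
      mul_nonneg (mm_nonneg _ _ _ _) (mm_nonneg _ _ _ _))
      ((h.measurable_mm hlk).mul (h.measurable_mm hlk')).aestronglyMeasurable]
  refine ENNReal.toReal_mono ?_ ?_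
  · have h1 := (h.integrable_mul hp hfin hlk hlk').2
    rw [hasFiniteIntegral_iff_ofReal (Eventually.of_forall fun z =>
      mul_nonneg (mm_nonneg _ _ _ _) (mm_nonneg _ _ _ _))] at h1
    exact h1.ne
  · have e : ∀ l l' z, ENNReal.ofReal (mm p A l z * mm p A l' z) =
        ENNReal.ofReal (Real.exp (-(l + l') / 2)) *
          ENNReal.ofReal (lv (A l) z ^ (p / 2) * lv (A l') z ^ (p / 2)) := by
      intro l l' z
      rw [← ENNReal.ofReal_mul (Real.exp_pos _).le]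
      congr 1
      unfold mm
      have : Real.exp (-(l + l') / 2) = Real.exp (-l / 2) * Real.exp (-l' / 2) := by
        rw [← Real.exp_add]
        congr 1
        ring
      rw [this]
      ring
    simp only [e]
    rw [lintegral_const_mul' _ _ ENNReal.ofReal_ne_top,
      lintegral_const_mul' _ _ ENNReal.ofReal_ne_top]
    have h2 := pow2_le (μ := μ) (q := p / 2) (by linarith) (h.nest l hl) (h.nest l' hl')
      (h.nest (l + k) hlk) (h.nest (l' + k) hlk') (c := ENNReal.ofReal (Real.exp k))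
      ENNReal.ofReal_ne_top (h.overlap l l' k hl hl' hk)
    have h3 : ENNReal.ofReal (Real.exp (-(l + l') / 2)) =
        ENNReal.ofReal (Real.exp (-((l + k) + (l' + k)) / 2)) * ENNReal.ofReal (Real.exp k) := by
      rw [← ENNReal.ofReal_mul (Real.exp_pos _).le, ← Real.exp_add]
      congr 2
      ring
    rw [h3, mul_assoc]
    exact mul_le_mul_right h2 _

theorem Expand.integrable_diff (h : Expand μ A) (hp : 0 < p)
    (hfin : ∫⁻ z, ENNReal.ofReal (lv (A 0) z ^ p) ∂μ ≠ ⊤) {l l' : ℝ} (hl : 0 ≤ l) (hl' : 0 ≤ l') :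
    Integrable (fun z => (mm p A l z - mm p A l' z) ^ 2) μ :=
  ((h.memLp hp hfin hl).sub (h.memLp hp hfin hl')).integrable_sq

theorem Expand.diff_eq (h : Expand μ A) (hp : 0 < p)
    (hfin : ∫⁻ z, ENNReal.ofReal (lv (A 0) z ^ p) ∂μ ≠ ⊤) {l l' : ℝ} (hl : 0 ≤ l) (hl' : 0 ≤ l') :
    ∫ z, (mm p A l z - mm p A l' z) ^ 2 ∂μ =
      2 * ∫ z, lv (A 0) z ^ p ∂μ - 2 * ∫ z, mm p A l z * mm p A l' z ∂μ := by
  have e : ∀ z, (mm p A l z - mm p A l' z) ^ 2 =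
      (mm p A l z ^ 2 + mm p A l' z ^ 2) - 2 * (mm p A l z * mm p A l' z) := fun z => by ring
  simp only [e]
  have i1 := h.integrable_mm_sq hp hfin hl
  have i2 := h.integrable_mm_sq hp hfin hl'
  have i3 := (h.integrable_mul hp hfin hl hl').const_mul 2
  have e1 : ∫ z, ((mm p A l z ^ 2 + mm p A l' z ^ 2) - 2 * (mm p A l z * mm p A l' z)) ∂μ =
      (∫ z, (mm p A l z ^ 2 + mm p A l' z ^ 2) ∂μ) - ∫ z, 2 * (mm p A l z * mm p A l' z) ∂μ :=
    integral_sub (i1.add i2) i3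
  rw [e1, integral_add i1 i2,
    integral_const_mul, h.integral_mm_sq hp hl, h.integral_mm_sq hp hl']
  ring

/-- **Contraction.** -/
theorem Expand.contraction (h : Expand μ A) (hp : 0 < p)
    (hfin : ∫⁻ z, ENNReal.ofReal (lv (A 0) z ^ p) ∂μ ≠ ⊤) {l l' k : ℝ} (hl : 0 ≤ l)
    (hl' : 0 ≤ l') (hk : 0 ≤ k) :
    ∫ z, (mm p A (l + k) z - mm p A (l' + k) z) ^ 2 ∂μ ≤
      ∫ z, (mm p A l z - mm p A l' z) ^ 2 ∂μ := by
  rw [h.diff_eq hp hfin hl hl', h.diff_eq hp hfin (by linarith) (by linarith)]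
  have := h.inner_le hp hfin hl hl' hk
  linarith

/-- the class of `m_l` in `L²` -/
noncomputable def Expand.F (h : Expand μ A) (hp : 0 < p)
    (hfin : ∫⁻ z, ENNReal.ofReal (lv (A 0) z ^ p) ∂μ ≠ ⊤) (l : ℝ) (hl : 0 ≤ l) : Lp ℝ 2 μ :=
  (h.memLp hp hfin hl).toLp _

theorem Expand.norm_sub_F (h : Expand μ A) (hp : 0 < p)
    (hfin : ∫⁻ z, ENNReal.ofReal (lv (A 0) z ^ p) ∂μ ≠ ⊤) {l l' : ℝ} (hl : 0 ≤ l) (hl' : 0 ≤ l') :
    ‖h.F hp hfin l hl - h.F hp hfin l' hl'‖ ^ 2 = ∫ z, (mm p A l z - mm p A l' z) ^ 2 ∂μ := by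
  rw [← real_inner_self_eq_norm_sq, L2.inner_def]
  refine integral_congr_ae ?_
  filter_upwards [Lp.coeFn_sub (h.F hp hfin l hl) (h.F hp hfin l' hl'),
    (h.memLp hp hfin hl).coeFn_toLp, (h.memLp hp hfin hl').coeFn_toLp] with z h1 h2 h3
  rw [real_inner_self_eq_norm_sq, h1, Pi.sub_apply, Expand.F, Expand.F, h2, h3, Real.norm_eq_abs,
    sq_abs]

/-- `k` steps -/
theorem Expand.steps (h : Expand μ A) (hp : 0 < p)
    (hfin : ∫⁻ z, ENNReal.ofReal (lv (A 0) z ^ p) ∂μ ≠ ⊤) {t : ℝ} (ht : 0 ≤ t) (k : ℕ) :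
    ∫ z, (mm p A (k * t) z - mm p A 0 z) ^ 2 ∂μ ≤
      (k : ℝ) ^ 2 * ∫ z, (mm p A t z - mm p A 0 z) ^ 2 ∂μ := by
  have hk : ∀ k : ℕ, 0 ≤ (k : ℝ) * t := fun k => by positivity
  have h1 : ∀ k : ℕ, ‖h.F hp hfin (k * t) (hk k) - h.F hp hfin 0 le_rfl‖ ≤
      k * ‖h.F hp hfin t ht - h.F hp hfin 0 le_rfl‖ := by
    intro k
    induction k with
    | zero =>
      have : h.F hp hfin (((0 : ℕ) : ℝ) * t) (hk 0) = h.F hp hfin 0 le_rfl := by
        have e : ((0 : ℕ) : ℝ) * t = 0 := by simp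
        simp only [e]
      rw [this, sub_self, norm_zero]
      simp
    | succ k ih =>
      have h2 : ‖h.F hp hfin ((k + 1 : ℕ) * t) (hk (k + 1)) - h.F hp hfin (k * t) (hk k)‖ ≤
          ‖h.F hp hfin t ht - h.F hp hfin 0 le_rfl‖ := by
        have h3 : ‖h.F hp hfin ((k + 1 : ℕ) * t) (hk (k + 1)) - h.F hp hfin (k * t) (hk k)‖ ^ 2 ≤
            ‖h.F hp hfin t ht - h.F hp hfin 0 le_rfl‖ ^ 2 := by
          rw [h.norm_sub_F, h.norm_sub_F]
          have h4 := h.contraction hp hfin ht (le_refl 0) (hk k)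
          have e1 : t + (k : ℝ) * t = ((k + 1 : ℕ) : ℝ) * t := by push_cast; ring
          have e2 : 0 + (k : ℝ) * t = (k : ℝ) * t := zero_add _
          rwa [e1, e2] at h4
        exact le_of_sq_le_sq h3 (norm_nonneg _)
      calc ‖h.F hp hfin ((k + 1 : ℕ) * t) (hk (k + 1)) - h.F hp hfin 0 le_rfl‖
          ≤ ‖h.F hp hfin ((k + 1 : ℕ) * t) (hk (k + 1)) - h.F hp hfin (k * t) (hk k)‖ +
            ‖h.F hp hfin (k * t) (hk k) - h.F hp hfin 0 le_rfl‖ := norm_sub_le_norm_sub_add_norm_sub _ _ _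
        _ ≤ ‖h.F hp hfin t ht - h.F hp hfin 0 le_rfl‖ +
            k * ‖h.F hp hfin t ht - h.F hp hfin 0 le_rfl‖ := add_le_add h2 ih
        _ = _ := by push_cast; ring
  have h2 := h1 k
  have h3 : ‖h.F hp hfin (k * t) (hk k) - h.F hp hfin 0 le_rfl‖ ^ 2 ≤
      (k * ‖h.F hp hfin t ht - h.F hp hfin 0 le_rfl‖) ^ 2 := pow_le_pow_left₀ (norm_nonneg _) h2 2
  rwa [mul_pow, h.norm_sub_F, h.norm_sub_F] at h3

/-- **The bound for all times from the speed at time `0`.** -/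
theorem Expand.speed (h : Expand μ A) (hp : 0 < p)
    (hfin : ∫⁻ z, ENNReal.ofReal (lv (A 0) z ^ p) ∂μ ≠ ⊤) {V : ℝ}
    (hV : ∀ ε > 0, ∃ δ > 0, ∀ t, 0 < t → t < δ →
      ∫ z, (mm p A t z - mm p A 0 z) ^ 2 ∂μ ≤ (V + ε) * t ^ 2) {l : ℝ} (hl : 0 ≤ l) :
    ∫ z, (mm p A l z - mm p A 0 z) ^ 2 ∂μ ≤ V * l ^ 2 := by
  rcases hl.eq_or_lt with rfl | hl
  · simp
  refine le_of_forall_pos_le_add fun ε hε => ?_
  obtain ⟨δ, hδ, h1⟩ := hV (ε / l ^ 2) (by positivity)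
  obtain ⟨k, hk⟩ := exists_nat_gt (l / δ)
  have hk0 : (0 : ℝ) < k := lt_of_le_of_lt (by positivity) hk
  have h2 : l / k < δ := by
    rw [div_lt_iff₀ hk0]
    rw [div_lt_iff₀ hδ] at hk
    linarith
  have h3 := h.steps hp hfin (t := l / k) (by positivity) k
  have e1 : (k : ℝ) * (l / k) = l := by field_simp
  rw [e1] at h3
  have h4 := h1 (l / k) (by positivity) h2
  have h5 : (k : ℝ) ^ 2 * ∫ z, (mm p A (l / k) z - mm p A 0 z) ^ 2 ∂μ ≤
      (k : ℝ) ^ 2 * ((V + ε / l ^ 2) * (l / k) ^ 2) := mul_le_mul_of_nonneg_left h4 (by positivity)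
  have e2 : (k : ℝ) ^ 2 * ((V + ε / l ^ 2) * (l / k) ^ 2) = V * l ^ 2 + ε := by
    field_simp
  linarith

end contr

end Pool.Agent.Lib.QNL.Contr32
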