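import Pool.Agent.Lib.QNL.OStmts

/-!
QNL, group O: convexity in the level (`StmtConv`, `StmtLip`, `StmtUs`, `StmtRight`), from the
two-point comparison with `a = 0`.
-/

set_option autoImplicit false

namespace Pool.Agent.Lib.QNL.O

open MeasureTheory Filter Topology Set
open Pool.Agent.Lib.QNL

namespace Conv91_

/-- equal steps of a midpoint convex function -/
theorem steps {f : ℝ → ℝ} (hm : ∀ a b, 0 < a → 0 < b → 2 * f ((a + b) / 2) ≤ f a + f b)
    {x h : ℝ} (hh : 0 ≤ h) (N : ℕ) : 0 < x - N * h →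
    f x - f (x + h) ≤ f (x - N * h) - f (x - N * h + h) ∧
      N * (f x - f (x + h)) ≤ f (x - N * h) - f x := by
  induction N with
  | zero => intro _; simp
  | succ N ih =>
    intro hx
    push_cast at hx ⊢
    have hx' : 0 < x - N * h := by nlinarith
    obtain ⟨h1, h2⟩ := ih hx'
    have h3 := hm (x - (N + 1) * h) (x - N * h + h) hx (by linarith)
    have e : (x - (N + 1) * h + (x - N * h + h)) / 2 = x - N * h := by ring
    rw [e] at h3
    have e2 : x - (N + 1) * h + h = x - N * h := by ring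
    rw [e2]
    constructor
    · linarith
    · linarith

/-- a nonnegative antitone midpoint convex function is Lipschitz away from `0` -/
theorem lip {f : ℝ → ℝ} (hm : ∀ a b, 0 < a → 0 < b → 2 * f ((a + b) / 2) ≤ f a + f b)
    (h0 : ∀ a, 0 < a → 0 ≤ f a) (ha : ∀ a b, 0 < a → a ≤ b → f b ≤ f a)
    {L₀ M : ℝ} (hL : 0 < L₀) (hM : f (L₀ / 2) ≤ M) {x y : ℝ} (hx : L₀ ≤ x) (hxy : x ≤ y) :
    f x - f y ≤ 4 * M / L₀ * (y - x) := by
  obtain ⟨h, rfl⟩ : ∃ h, y = x + h := ⟨y - x, by ring⟩
  have hh : 0 ≤ h := by linarith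
  have hM0 : 0 ≤ M := (h0 _ (by linarith)).trans hM
  have hfx : f x ≤ M := (ha (L₀ / 2) x (by linarith) (by linarith)).trans hM
  have hfy : 0 ≤ f (x + h) := h0 _ (by linarith)
  rw [add_sub_cancel_left]
  rcases hh.eq_or_lt with rfl | hpos
  · simp
  rcases le_or_gt (L₀ / 2) h with hb | hb
  · have : f x - f (x + h) ≤ M := by linarith
    refine this.trans ?_
    rw [div_mul_eq_mul_div, le_div_iff₀ hL]
    nlinarith
  · set N := ⌊(L₀ / 2) / h⌋₊ with hN
    have hN1 : (N : ℝ) ≤ (L₀ / 2) / h := Nat.floor_le (by positivity)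
    have hN2 : (L₀ / 2) / h < N + 1 := Nat.lt_floor_add_one _
    have hN3 : (1 : ℝ) ≤ N := by
      have : 1 ≤ N := by
        rw [hN, Nat.le_floor_iff' (by norm_num)]
        rw [Nat.cast_one, le_div_iff₀ hpos]
        linarith
      exact_mod_cast this
    have hN4 : N * h ≤ L₀ / 2 := by rwa [le_div_iff₀ hpos] at hN1
    have hN5 : L₀ / 2 < (N + 1) * h := by rwa [div_lt_iff₀ hpos] at hN2
    have hxN : L₀ / 2 ≤ x - N * h := by linarith
    have h2 := (steps hm hh N (by linarith : 0 < x - N * h)).2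
    have h3 : f (x - N * h) ≤ M := (ha (L₀ / 2) _ (by linarith) hxN).trans hM
    have h4 : 0 ≤ f x := h0 _ (by linarith)
    have h5 : N * (f x - f (x + h)) ≤ M := by linarith
    have h6 : 0 ≤ f x - f (x + h) := by
      have := ha x (x + h) (by linarith) (by linarith)
      linarith
    rw [div_mul_eq_mul_div, le_div_iff₀ hL]
    have h7 : L₀ ≤ 4 * (N * h) := by nlinarith
    calc (f x - f (x + h)) * L₀ ≤ (f x - f (x + h)) * (4 * (N * h)) :=
          mul_le_mul_of_nonneg_left h7 h6
      _ = 4 * h * (N * (f x - f (x + h))) := by ring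
      _ ≤ 4 * h * M := mul_le_mul_of_nonneg_left h5 (by positivity)
      _ = 4 * M * h := by ring

/-- a continuous midpoint convex function is convex -/
theorem conv {f : ℝ → ℝ} (hm : ∀ a b, 0 < a → 0 < b → 2 * f ((a + b) / 2) ≤ f a + f b)
    (hc : ContinuousOn f (Ioi 0)) : ConvexOn ℝ (Ioi 0) f := by
  refine LinearOrder.convexOn_of_lt (convex_Ioi 0) ?_
  intro x hx y hy hxy a b ha hb hab
  by_contra hcon
  rw [not_le] at hcon
  simp only [mem_Ioi] at hx hy
  have hyx : 0 < y - x := by linarith
  set g : ℝ → ℝ := fun t => f t - (f x + (f y - f x) * ((t - x) / (y - x))) with hg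
  have hgc : ContinuousOn g (Icc x y) := by
    refine ContinuousOn.sub (hc.mono fun t ht => lt_of_lt_of_le hx ht.1) ?_
    fun_prop
  have hgx : g x = 0 := by simp [hg]
  have hgy : g y = 0 := by
    simp only [hg]
    rw [div_self hyx.ne']
    ring
  obtain ⟨m, hm1, hm2⟩ := isCompact_Icc.exists_isMaxOn (nonempty_Icc.2 hxy.le) hgc
  have hpos : 0 < g m := by
    have ht : a • x + b • y ∈ Icc x y := by
      simp only [smul_eq_mul]
      constructor <;> nlinarith
    have h1 : g (a • x + b • y) ≤ g m := hm2 ht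
    refine lt_of_lt_of_le ?_ h1
    have e : (a • x + b • y - x) / (y - x) = b := by
      rw [div_eq_iff hyx.ne']
      simp only [smul_eq_mul]
      have : a = 1 - b := by linarith
      rw [this]
      ring
    simp only [hg]
    rw [e]
    simp only [smul_eq_mul] at hcon ⊢
    have : a = 1 - b := by linarith
    rw [this] at hcon ⊢
    linarith
  set S : Set ℝ := Icc x y ∩ g ⁻¹' {g m} with hS
  have hScl : IsClosed S := hgc.preimage_isClosed_of_isClosed isClosed_Icc isClosed_singleton
  have hSc : IsCompact S := isCompact_Icc.of_isClosed_subset hScl inter_subset_left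
  obtain ⟨c, hcS, hcl⟩ := hSc.exists_isLeast ⟨m, hm1, rfl⟩
  have hgc' : g c = g m := hcS.2
  have hcx : x < c := by
    rcases hcS.1.1.eq_or_lt with h | h
    · rw [← h, hgx] at hgc'
      linarith
    · exact h
  have hcy : c < y := by
    rcases hcS.1.2.eq_or_lt with h | h
    · rw [h, hgy] at hgc'
      linarith
    · exact h
  set δ := min (c - x) (y - c) with hδ
  have hδ0 : 0 < δ := lt_min (by linarith) (by linarith)
  have hδ1 : δ ≤ c - x := min_le_left _ _
  have hδ2 : δ ≤ y - c := min_le_right _ _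
  have h1 : g (c - δ) < g m := by
    refine lt_of_le_of_ne (hm2 ⟨by linarith, by linarith⟩) fun he => ?_
    have := hcl (⟨⟨by linarith, by linarith⟩, he⟩ : c - δ ∈ S)
    linarith
  have h2 : g (c + δ) ≤ g m := hm2 ⟨by linarith, by linarith⟩
  have h3 := hm (c - δ) (c + δ) (by linarith) (by linarith)
  have e : (c - δ + (c + δ)) / 2 = c := by ring
  rw [e] at h3
  have h4 : 2 * g c ≤ g (c - δ) + g (c + δ) := by
    simp only [hg]
    have e2 : (f y - f x) * ((c - δ - x) / (y - x)) + (f y - f x) * ((c + δ - x) / (y - x)) =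
        2 * ((f y - f x) * ((c - x) / (y - x))) := by ring
    linarith
  linarith

variable {μ : ℂ → ℝ} {C : ℝ} {u : ℝ → ℂ → ℝ}

theorem mid (hu : Fam μ C u) (x : ℂ) (a b : ℝ) (ha : 0 < a) (hb : 0 < b) :
    2 * u ((a + b) / 2) x ≤ u a x + u b x := by
  have := hu.cmp a b ha hb x 0
  simpa using this

theorem bdd (hu : Fam μ C u) {L : ℝ} (hL : 0 < L) : ∃ M, ∀ x, u L x ≤ M := by
  obtain ⟨M, hM⟩ := (hu.cont L hL).bounded_above_of_compact_support (hu.cpt L hL)
  exact ⟨M, fun x => (le_abs_self _).trans (hM x)⟩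

end Conv91_

open Conv91_

/-- (O-D2) -/
theorem stmtLip : StmtLip := by
  intro μ C u hu L₀ hL₀
  obtain ⟨M, hM⟩ := bdd hu (half_pos hL₀)
  refine ⟨4 * M / L₀, fun L L' hL hLL' x => ?_⟩
  exact lip (mid hu x) (fun a ha => hu.nonneg a ha x) (fun a b ha hab => hu.anti a b ha hab x)
    hL₀ (hM x) hL hLL'

theorem Conv91_.contOn {μ : ℂ → ℝ} {C : ℝ} {u : ℝ → ℂ → ℝ} (hu : Fam μ C u) (x : ℂ) :
    ContinuousOn (fun l => u l x) (Ioi 0) := by
  intro L hL
  simp only [mem_Ioi] at hL
  refine ContinuousAt.continuousWithinAt ?_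
  obtain ⟨K, hK⟩ := stmtLip μ C u hu (L / 2) (half_pos hL)
  have hK' : ∀ a b, L / 2 ≤ a → L / 2 ≤ b → |u a x - u b x| ≤ |K| * |a - b| := by
    intro a b ha hb
    rcases le_total a b with hab | hab
    · have h1 := hK a b ha hab x
      have h2 := hu.anti a b (by linarith) hab x
      rw [abs_of_nonneg (by linarith), abs_of_nonpos (by linarith : a - b ≤ 0)]
      refine h1.trans ?_
      rw [neg_sub]
      exact mul_le_mul_of_nonneg_right (le_abs_self K) (by linarith)
    · have h1 := hK b a hb hab x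
      have h2 := hu.anti b a (by linarith) hab x
      rw [abs_of_nonpos (by linarith), abs_of_nonneg (by linarith : 0 ≤ a - b), neg_sub]
      exact h1.trans (mul_le_mul_of_nonneg_right (le_abs_self K) (by linarith))
  rw [ContinuousAt, tendsto_iff_norm_sub_tendsto_zero]
  have h1 : Tendsto (fun l : ℝ => |K| * |l - L|) (𝓝 L) (𝓝 0) := by
    have : Tendsto (fun l : ℝ => |K| * |l - L|) (𝓝 L) (𝓝 (|K| * |L - L|)) := by
      apply Continuous.tendsto
      fun_prop
    simpa using this
  refine squeeze_zero' (Eventually.of_forall fun l => norm_nonneg _) ?_ h1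
  filter_upwards [eventually_gt_nhds (by linarith : L / 2 < L)] with l hl
  exact hK' l L hl.le (by linarith)

/-- (O-D1) -/
theorem stmtConv : StmtConv := by
  intro μ C u hu x
  have hcont := contOn hu x
  have hconv : ConvexOn ℝ (Ioi 0) (fun l => u l x) := conv (mid hu x) hcont
  have hint : ∀ L : ℝ, 0 < L → L ∈ interior (Ioi (0 : ℝ)) := by
    intro L hL
    rw [interior_Ioi]
    exact hL
  have hD : ∀ L, 0 < L → HasDerivWithinAt (fun l => u l x) (- psi u L x) (Ioi L) L := by
    intro L hL
    have := hconv.hasDerivWithinAt_rightDeriv_of_mem_interior (hint L hL)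
    unfold psi
    rwa [neg_neg]
  have h3 : ∀ L, 0 < L →
      Tendsto (fun h => (u L x - u (L + h) x) / h) (𝓝[>] 0) (𝓝 (psi u L x)) := by
    intro L hL
    have h1 := (hasDerivWithinAt_iff_tendsto_slope' (by simp)).1 (hD L hL)
    have h2 : Tendsto (fun h : ℝ => L + h) (𝓝[>] 0) (𝓝[>] L) := by
      have : Tendsto (fun h : ℝ => L + h) (𝓝 0) (𝓝 L) := by
        have hc : Continuous fun h : ℝ => L + h := by fun_prop
        have := hc.tendsto 0
        rwa [add_zero] at this
      refine tendsto_nhdsWithin_iff.2 ⟨this.mono_left nhdsWithin_le_nhds, ?_⟩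
      filter_upwards [self_mem_nhdsWithin] with h hh
      simp only [mem_Ioi] at hh ⊢
      linarith
    have h3 := (h1.comp h2).neg
    rw [neg_neg] at h3
    refine h3.congr' ?_
    filter_upwards [self_mem_nhdsWithin] with h hh
    simp only [Function.comp, slope_def_field, add_sub_cancel_left]
    rw [← neg_div, neg_sub]
  have h4 : ∀ L L', 0 < L → L < L' → (u L x - u L' x) / (L' - L) ≤ psi u L x := by
    intro L L' hL hLL'
    have := hconv.le_slope_of_hasDerivWithinAt_Ioi (mem_Ioi.2 hL) (mem_Ioi.2 (hL.trans hLL'))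
      hLL' (hD L hL)
    rw [slope_def_field] at this
    have e : (u L x - u L' x) / (L' - L) = - ((u L' x - u L x) / (L' - L)) := by
      rw [← neg_div, neg_sub]
    rw [e]
    linarith
  have h5 : ∀ L L', 0 < L → L < L' → psi u L' x ≤ (u L x - u L' x) / (L' - L) := by
    intro L L' hL hLL'
    have h1 := hconv.slope_le_leftDeriv_of_mem_interior (mem_Ioi.2 hL)
      (hint L' (hL.trans hLL')) hLL'
    have h2 := hconv.leftDeriv_le_rightDeriv_of_mem_interior (hint L' (hL.trans hLL'))
    rw [slope_def_field] at h1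
    have e : (u L x - u L' x) / (L' - L) = - ((u L' x - u L x) / (L' - L)) := by
      rw [← neg_div, neg_sub]
    rw [e]
    unfold psi
    linarith
  have h7 : ∀ L, 0 < L → 0 ≤ psi u L x := by
    intro L hL
    have h1 := h4 L (L + 1) hL (by linarith)
    have h2 := hu.anti L (L + 1) hL (by linarith) x
    refine le_trans ?_ h1
    apply div_nonneg <;> linarith
  refine ⟨hconv, hcont, h3, h4, h5, ?_, h7⟩
  intro L hL
  constructor
  · intro hp
    by_contra hcon
    have hz : ∀ L', L < L' → u L' x = 0 := by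
      intro L' hL'
      by_contra hne
      exact hcon ⟨L', hL', lt_of_le_of_ne (hu.nonneg L' (hL.trans hL') x) (Ne.symm hne)⟩
    have hz0 : u L x = 0 := by
      have h1 : Tendsto (fun l => u l x) (𝓝[>] L) (𝓝 (u L x)) :=
        ((hcont.continuousAt (Ioi_mem_nhds hL)).tendsto).mono_left nhdsWithin_le_nhds
      have h2 : Tendsto (fun l => u l x) (𝓝[>] L) (𝓝 0) := by
        refine tendsto_const_nhds.congr' ?_
        filter_upwards [self_mem_nhdsWithin] with l hl
        exact (hz l hl).symm
      exact tendsto_nhds_unique h1 h2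
    have h1 : Tendsto (fun h => (u L x - u (L + h) x) / h) (𝓝[>] 0) (𝓝 0) := by
      refine tendsto_const_nhds.congr' ?_
      filter_upwards [self_mem_nhdsWithin] with h hh
      simp only [mem_Ioi] at hh
      rw [hz0, hz (L + h) (by linarith)]
      simp
    have := tendsto_nhds_unique (h3 L hL) h1
    linarith
  · rintro ⟨L', hL', hpos⟩
    obtain ⟨B, hB⟩ := hu.src.cont.bounded_above_of_compact_support hu.src.cpt
    set L'' := max (L + 1) (B + 1) with hL''
    have h1 : L < L'' := lt_of_lt_of_le (by linarith) (le_max_left _ _)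
    have h2 : u L'' x = 0 := by
      refine hu.top L'' (hL.trans h1) (fun y => ?_) x
      have := (le_abs_self _).trans (hB y)
      exact this.trans ((by linarith : B ≤ B + 1).trans (le_max_right _ _))
    have h3' := h4 L L'' hL h1
    rw [h2, sub_zero] at h3'
    have h4' : 0 < u L x := lt_of_lt_of_le hpos (hu.anti L L' hL hL'.le x)
    exact lt_of_lt_of_le (div_pos h4' (by linarith)) h3'

/-- (O-D2') -/
theorem stmtRight : StmtRight := by
  intro μ C u hu x
  obtain ⟨-, hcont, hlim, hge, hle, -, -⟩ := stmtConv μ C u hu x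
  have hanti : ∀ L L', 0 < L → L ≤ L' → psi u L' x ≤ psi u L x := by
    intro L L' hL hLL'
    rcases hLL'.eq_or_lt with rfl | h
    · exact le_rfl
    · exact (hle L L' hL h).trans (hge L L' hL h)
  refine ⟨fun L hL => ?_, hanti⟩
  rw [ContinuousWithinAt, tendsto_order]
  constructor
  · intro a ha
    have h1 : ∀ᶠ h in 𝓝[>] (0 : ℝ), a < (u L x - u (L + h) x) / h :=
      (hlim L hL).eventually (lt_mem_nhds ha)
    obtain ⟨h, h2, hh⟩ := (h1.and self_mem_nhdsWithin).exists
    have hh : 0 < h := hh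
    have h3 : Tendsto (fun l => (u l x - u (l + h) x) / h) (𝓝 L)
        (𝓝 ((u L x - u (L + h) x) / h)) := by
      have c1 : ContinuousAt (fun l => u l x) L := hcont.continuousAt (Ioi_mem_nhds hL)
      have c2 : ContinuousAt (fun l => u l x) (L + h) :=
        hcont.continuousAt (Ioi_mem_nhds (by linarith))
      have c3 : ContinuousAt (fun l : ℝ => u (l + h) x) L :=
        ContinuousAt.comp (f := fun l : ℝ => l + h) (g := fun l => u l x) c2 (by fun_prop)
      exact ((c1.sub c3).div_const h).tendsto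
    have h4 : ∀ᶠ l in 𝓝[Ici L] L, a < (u l x - u (l + h) x) / h :=
      (h3.eventually (lt_mem_nhds h2)).filter_mono nhdsWithin_le_nhds
    filter_upwards [h4, self_mem_nhdsWithin] with l hl hl'
    simp only [mem_Ici] at hl'
    refine lt_of_lt_of_le hl ?_
    have h5 := hge l (l + h) (lt_of_lt_of_le hL hl') (by linarith)
    rwa [add_sub_cancel_left] at h5
  · intro a ha
    filter_upwards [self_mem_nhdsWithin] with l hl
    exact lt_of_le_of_lt (hanti L l hL hl) ha

/-- (O-D3) -/
theorem stmtUs : StmtUs := by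
  intro μ C u hu L hL
  have hsub : Us u L ⊆ {x | 0 < u L x} := by
    rintro x ⟨L', hL', hx⟩
    exact lt_of_lt_of_le hx (hu.anti L L' hL hL'.le x)
  refine ⟨?_, ?_, ?_, hsub⟩
  · have : Us u L = ⋃ L' : Ioi L, {x | 0 < u L' x} := by
      ext x
      simp only [Us, mem_ofPred_eq, mem_iUnion, Subtype.exists, mem_Ioi, exists_prop]
    rw [this]
    refine isOpen_iUnion fun L' => ?_
    exact isOpen_lt continuous_const (hu.cont L' (hL.trans L'.2))
  · obtain ⟨R, hR⟩ := (hu.cpt L hL).isCompact.isBounded.subset_ball 0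
    refine ⟨R, fun x hx => hR ?_⟩
    exact subset_tsupport _ (hsub hx).ne'
  · intro x
    constructor
    · rintro ⟨L', hL', hx⟩
      exact ⟨(L + L') / 2, by linarith, L', by linarith, hx⟩
    · rintro ⟨L', hL', L'', hL'', hx⟩
      exact ⟨L'', by linarith, hx⟩

end Pool.Agent.Lib.QNL.O
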