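import Pool.Agent.Lib.QNL.OStmts

/-!
QNL, group O: integrals over discs from circle means; quadratic growth at the zeros.
-/

set_option autoImplicit false

namespace Pool.Agent.Lib.QNL.O

open MeasureTheory Filter Topology Set Metric
open scoped ContDiff Real
open Pool.Agent.Lib.QNL

/-- the integral over a disc from the circle means -/
theorem disc_polar {f : ℂ → ℝ} (hf : Continuous f) (x : ℂ) {R : ℝ} (hR : 0 ≤ R) :
    ∫ z in ball x R, f z = ∫ s in (0 : ℝ)..R, 2 * π * s * Real.circleAverage f x s := by
  have e0 : ∫ z in ball x R, f z = ∫ z, (ball x R).indicator f (x + z) := by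
    rw [← integral_indicator measurableSet_ball]
    exact (integral_add_left_eq_self _ x).symm
  have e1 : ∀ s θ : ℝ, x + Complex.polarCoord.symm (s, θ) = circleMap x s θ := by
    intro s θ
    rw [Complex.polarCoord_symm_apply, circleMap, Complex.exp_mul_I]
    push_cast
    ring
  have hcm : ∀ s θ : ℝ, 0 < s → (circleMap x s θ ∈ ball x R ↔ s < R) := by
    intro s θ hs
    rw [mem_ball, dist_eq_norm, circleMap_sub_center, norm_circleMap_zero, abs_of_pos hs]
  rw [e0, ← Complex.integral_comp_polarCoord_symm, polarCoord_target]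
  have e2 : ∫ p in Ioi (0 : ℝ) ×ˢ Ioo (-π) π,
      p.1 • (ball x R).indicator f (x + Complex.polarCoord.symm p) =
      ∫ p in Ioo (0 : ℝ) R ×ˢ Ioo (-π) π, p.1 * f (circleMap x p.1 p.2) := by
    rw [setIntegral_eq_of_subset_of_forall_sdiff_eq_zero (s := Ioo (0 : ℝ) R ×ˢ Ioo (-π) π)
      (measurableSet_Ioi.prod measurableSet_Ioo) (prod_mono Ioo_subset_Ioi_self le_rfl)]
    · refine setIntegral_congr_fun (measurableSet_Ioo.prod measurableSet_Ioo) fun p hp => ?_
      obtain ⟨s, θ⟩ := p
      have h1 : circleMap x s θ ∈ ball x R := (hcm s θ hp.1.1).2 hp.1.2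
      simp only [e1, indicator_of_mem h1, smul_eq_mul]
    · rintro ⟨s, θ⟩ ⟨h1, h2⟩
      have h3 : circleMap x s θ ∉ ball x R := by
        rw [hcm s θ h1.1]
        intro h4
        exact h2 ⟨⟨h1.1, h4⟩, h1.2⟩
      simp only [e1, indicator_of_notMem h3, smul_zero]
  have hc : Continuous fun p : ℝ × ℝ => p.1 * f (circleMap x p.1 p.2) := by
    unfold circleMap
    fun_prop
  have hi : IntegrableOn (fun p : ℝ × ℝ => p.1 * f (circleMap x p.1 p.2))
      (Ioo (0 : ℝ) R ×ˢ Ioo (-π) π) (volume.prod volume) := by
    refine IntegrableOn.mono_set (t := Icc (0 : ℝ) R ×ˢ Icc (-π) π) ?_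
      (prod_mono Ioo_subset_Icc_self Ioo_subset_Icc_self)
    exact hc.continuousOn.integrableOn_compact (isCompact_Icc.prod isCompact_Icc)
  rw [e2, Measure.volume_eq_prod, setIntegral_prod _ hi, intervalIntegral.integral_of_le hR,
    integral_Ioc_eq_integral_Ioo]
  refine setIntegral_congr_fun measurableSet_Ioo fun s hs => ?_
  simp only
  rw [integral_const_mul, ← integral_Ioc_eq_integral_Ioo, ← intervalIntegral.integral_of_le
    (by linarith [Real.pi_pos])]
  have hper : Function.Periodic (fun θ => f (circleMap x s θ)) (2 * π) := by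
    intro θ
    simp only
    rw [periodic_circleMap]
  have h3 := hper.intervalIntegral_add_eq (-π) 0
  rw [show -π + 2 * π = π by ring, zero_add] at h3
  rw [h3, Real.circleAverage_def, smul_eq_mul]
  have hpi := Real.pi_pos
  field_simp

theorem J_nonneg {μ : ℂ → ℝ} (h : ∀ x, 0 ≤ μ x) (r : ℝ) (x : ℂ) : 0 ≤ J r μ x := by
  unfold J
  have : 0 ≤ ∫ y, Real.posLog (r / ‖y‖) * μ (x - y) :=
    integral_nonneg fun y => mul_nonneg Real.posLog_nonneg (h _)
  positivity

theorem quad_int (c R : ℝ) : ∫ s in (0 : ℝ)..R, 2 * π * s * (c * s ^ 2 / 4) = π * c * R ^ 4 / 8 := by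
  have e : (fun s : ℝ => 2 * π * s * (c * s ^ 2 / 4)) = fun s : ℝ => (π * c / 2) * s ^ 3 := by
    funext s
    ring
  rw [e, intervalIntegral.integral_const_mul, integral_pow]
  norm_num
  ring

/-- (O-C3) -/
theorem stmtQuad (hJ : StmtJ) : StmtQuad := by
  intro μ C u hu M hM L hL z x hz
  have hpi := Real.pi_pos
  set ρ := ‖x - z‖ with hρ
  rcases eq_or_lt_of_le (norm_nonneg (x - z)) with h0 | h0
  · have : x = z := by
      rw [eq_comm, norm_eq_zero, sub_eq_zero] at h0
      exact h0
    subst this
    rw [hz, ← hρ] at *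
    rw [← h0]
    simp
  have hρ0 : 0 < ρ := h0
  have hc := hu.cont L hL
  have hca : ∀ y : ℂ, Continuous fun s : ℝ => Real.circleAverage (u L) y s :=
    fun y => Real.Continuous.circleAverage hc
  -- the disc around `x`
  have hx : π * ρ ^ 2 * u L x ≤ (∫ w in ball x ρ, u L w) + π * M * ρ ^ 4 / 8 := by
    rw [disc_polar hc x hρ0.le, ← quad_int M ρ, ← intervalIntegral.integral_add]
    · have e : π * ρ ^ 2 * u L x = ∫ s in (0 : ℝ)..ρ, 2 * π * s * u L x := by
        rw [intervalIntegral.integral_mul_const, intervalIntegral.integral_const_mul, integral_id]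
        ring
      rw [e]
      refine intervalIntegral.integral_mono_on hρ0.le ?_ ?_ fun s hs => ?_
      · exact Continuous.intervalIntegrable (by fun_prop) _ _
      · refine Continuous.intervalIntegrable ?_ _ _
        have := hca x
        fun_prop
      · rcases eq_or_lt_of_le hs.1 with h | h
        · rw [← h]
          simp
        · have h1 := hu.sub L hL x s h
          have h2 : J s μ x ≤ M * s ^ 2 / 4 := (hJ μ hu.src.cont hu.src.cpt x s M h).1 fun y _ => hM y
          have h3 : u L x ≤ Real.circleAverage (u L) x s + M * s ^ 2 / 4 := by linarith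
          have h4 : 0 ≤ 2 * π * s := by positivity
          nlinarith [mul_le_mul_of_nonneg_left h3 h4]
    · refine Continuous.intervalIntegrable ?_ _ _
      have := hca x
      fun_prop
    · exact Continuous.intervalIntegrable (by fun_prop) _ _
  -- the disc around `z`
  have hzz : ∫ w in ball z (2 * ρ), u L w ≤ π * L * (2 * ρ) ^ 4 / 8 := by
    rw [disc_polar hc z (by positivity), ← quad_int L (2 * ρ)]
    refine intervalIntegral.integral_mono_on (by positivity) ?_ ?_ fun s hs => ?_
    · refine Continuous.intervalIntegrable ?_ _ _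
      have := hca z
      fun_prop
    · exact Continuous.intervalIntegrable (by fun_prop) _ _
    · rcases eq_or_lt_of_le hs.1 with h | h
      · rw [← h]
        simp
      · have h1 := hu.sup L hL z s h
        have h2 := J_nonneg hu.src.nonneg s z
        have h3 : Real.circleAverage (u L) z s ≤ L * s ^ 2 / 4 := by
          rw [hz] at h1
          linarith
        exact mul_le_mul_of_nonneg_left h3 (by positivity)
  have hsub : ∫ w in ball x ρ, u L w ≤ ∫ w in ball z (2 * ρ), u L w := by
    refine setIntegral_mono_set ?_ (Eventually.of_forall fun w => hu.nonneg L hL w) ?_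
    · exact (hc.integrable_of_hasCompactSupport (hu.cpt L hL)).integrableOn
    · refine (ball_subset_ball' ?_).eventuallyLE
      rw [dist_eq_norm]
      linarith
  have hM0 : 0 ≤ M := (hu.src.nonneg 0).trans (hM 0)
  have key : π * ρ ^ 2 * u L x ≤ π * ρ ^ 2 * ((2 * L + M) * ρ ^ 2) := by
    have h1 : 0 ≤ π * M * ρ ^ 4 := by positivity
    nlinarith [hx, hsub, hzz]
  exact le_of_mul_le_mul_left key (by positivity)

end Pool.Agent.Lib.QNL.O
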