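import Pool.Agent.Lib.QNL.PerC3

/-!
The Perron approach to the obstacle problem, part 4: the least supersolution exists and has all
the properties of `O.Fam`.
-/

set_option autoImplicit false

namespace Pool.Agent.Lib.QNL.Per

open MeasureTheory Filter Topology Set Metric Complex InnerProductSpace
open scoped Real

/-- the continuous nonnegative supersolutions of `Δ w ≤ L - μ` -/
def SSol (μ : ℂ → ℝ) (L : ℝ) : Set (ℂ → ℝ) :=
  {w | Continuous w ∧ (∀ x, 0 ≤ w x) ∧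
    ∀ x r, 0 < r → Real.circleAverage w x r ≤ w x + L * r ^ 2 / 4 - J r μ x}

/-- the least supersolution -/
noncomputable def per (μ : ℂ → ℝ) (L : ℝ) (x : ℂ) : ℝ := sInf ((fun w => w x) '' SSol μ L)

theorem bdd_ssol (μ : ℂ → ℝ) (L : ℝ) (x : ℂ) : BddBelow ((fun w => w x) '' SSol μ L) :=
  ⟨0, by rintro _ ⟨w, hw, rfl⟩; exact hw.2.1 x⟩

theorem per_le {μ : ℂ → ℝ} {L : ℝ} {w : ℂ → ℝ} (hw : w ∈ SSol μ L) (x : ℂ) : per μ L x ≤ w x :=
  csInf_le (bdd_ssol μ L x) ⟨w, hw, rfl⟩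

section

variable {μ : ℂ → ℝ} (hμ : Continuous μ) (hs : HasCompactSupport μ) (hμ0 : ∀ x, 0 ≤ μ x)

include hμ hs hμ0

theorem ssol_growth {L : ℝ} (hL : 0 < L) :
    ∃ (w : ℂ → ℝ) (K : ℝ), w ∈ SSol μ L ∧ ∀ x, w x ≤ L / 4 * ‖x‖ ^ 2 + K := by
  obtain ⟨w, K, h1, h2, h3, h4⟩ := ss_exists hμ hs hμ0 hL
  exact ⟨w, K, ⟨h1, h2, fun x r hr => (h3 x r hr).le⟩, h4⟩

theorem ssol_nonempty {L : ℝ} (hL : 0 < L) (x : ℂ) :
    ((fun w : ℂ → ℝ => w x) '' SSol μ L).Nonempty := by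
  obtain ⟨w, K, h, -⟩ := ssol_growth hμ hs hμ0 hL
  exact ⟨w x, w, h, rfl⟩

theorem exists_near {L : ℝ} (hL : 0 < L) (x : ℂ) {ε : ℝ} (hε : 0 < ε) :
    ∃ w ∈ SSol μ L, w x < per μ L x + ε := by
  obtain ⟨_, ⟨w, hw, rfl⟩, h⟩ := exists_lt_of_csInf_lt (ssol_nonempty hμ hs hμ0 hL x)
    (show sInf ((fun w : ℂ → ℝ => w x) '' SSol μ L) < per μ L x + ε from by
      rw [per]; linarith)
  exact ⟨w, hw, h⟩

theorem per_nonneg {L : ℝ} (hL : 0 < L) (x : ℂ) : 0 ≤ per μ L x := by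
  refine le_csInf (ssol_nonempty hμ hs hμ0 hL x) ?_
  rintro _ ⟨w, hw, rfl⟩
  exact hw.2.1 x

/-- the general comparison -/
theorem per_master {L₁ L₂ L s₁ s₂ : ℝ} (h₁ : 0 < L₁) (h₂ : 0 < L₂)
    (hs₁ : 0 ≤ s₁) (hs₂ : 0 ≤ s₂) (hss : s₁ + s₂ = 1) {a₁ a₂ : ℂ}
    (hJ : ∀ x r, 0 < r → J r μ x - L * r ^ 2 / 4 ≤
      s₁ * (J r μ (x + a₁) - L₁ * r ^ 2 / 4) + s₂ * (J r μ (x + a₂) - L₂ * r ^ 2 / 4)) (x : ℂ) :
    per μ L x ≤ s₁ * per μ L₁ (x + a₁) + s₂ * per μ L₂ (x + a₂) := by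
  refine le_of_forall_pos_le_add fun ε hε => ?_
  obtain ⟨w₁, hw₁, hx₁⟩ := exists_near hμ hs hμ0 h₁ (x + a₁) hε
  obtain ⟨w₂, hw₂, hx₂⟩ := exists_near hμ hs hμ0 h₂ (x + a₂) hε
  have c₁ : Continuous fun z => w₁ (z + a₁) := hw₁.1.comp (by fun_prop)
  have c₂ : Continuous fun z => w₂ (z + a₂) := hw₂.1.comp (by fun_prop)
  have hshift : ∀ (f : ℂ → ℝ) (a y : ℂ) (r : ℝ),
      Real.circleAverage (fun z => f (z + a)) y r = Real.circleAverage f (y + a) r := by
    intro f a y r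
    rw [← Real.circleAverage_map_add_const (f := fun z => f (z + a)),
      ← Real.circleAverage_map_add_const (f := f) (c := y + a)]
    simp only [add_assoc]
  have hw : (fun z => s₁ * w₁ (z + a₁) + s₂ * w₂ (z + a₂)) ∈ SSol μ L := by
    refine ⟨(continuous_const.mul c₁).add (continuous_const.mul c₂),
      fun z => add_nonneg (mul_nonneg hs₁ (hw₁.2.1 _)) (mul_nonneg hs₂ (hw₂.2.1 _)),
      fun y r hr => ?_⟩
    have d₁ : Continuous fun z => s₁ * w₁ (z + a₁) := continuous_const.mul c₁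
    have d₂ : Continuous fun z => s₂ * w₂ (z + a₂) := continuous_const.mul c₂
    rw [cav_add d₁ d₂, cav_smul, cav_smul, hshift, hshift]
    have e₁ := mul_le_mul_of_nonneg_left (hw₁.2.2 (y + a₁) r hr) hs₁
    have e₂ := mul_le_mul_of_nonneg_left (hw₂.2.2 (y + a₂) r hr) hs₂
    have e₃ := hJ y r hr
    linarith
  have h3 := per_le hw x
  have e₁ := mul_le_mul_of_nonneg_left hx₁.le hs₁
  have e₂ := mul_le_mul_of_nonneg_left hx₂.le hs₂
  have e₃ : s₁ * ε + s₂ * ε = ε := by rw [← add_mul, hss, one_mul]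
  linarith

theorem per_anti {L L' : ℝ} (hL : 0 < L) (h : L ≤ L') (x : ℂ) : per μ L' x ≤ per μ L x := by
  have := per_master hμ hs hμ0 (L := L') hL hL (s₁ := 1) (s₂ := 0) (a₁ := 0) (a₂ := 0)
    zero_le_one le_rfl (add_zero 1) (fun y r hr => by
      have : L * r ^ 2 / 4 ≤ L' * r ^ 2 / 4 := by gcongr
      rw [add_zero]
      linarith) x
  simpa using this

/-- translation -/
theorem per_translate {L ω : ℝ} (hL : 0 < L) {a : ℂ} (hω : ∀ z, μ z ≤ μ (z + a) + ω)
    (x : ℂ) : per μ (L + ω) x ≤ per μ L (x + a) := by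
  obtain ⟨M, hM⟩ := exists_bound hμ hs
  have := per_master hμ hs hμ0 (L := L + ω) hL hL (s₁ := 1) (s₂ := 0) (a₁ := a) (a₂ := 0)
    zero_le_one le_rfl (add_zero 1) (fun y r hr => by
      have : J r μ y ≤ J r μ (y + a) + ω * (r ^ 2 / 4) :=
        J_le_J hr hμ hμ hM hM fun z _ => by
          have := hω (y - z)
          rwa [show y - z + a = y + a - z by ring] at this
      linarith) x
  simpa using this

/-- convexity in the level -/
theorem per_convex {L ω : ℝ} (hL : 0 < L) (hω : 0 ≤ ω) (x : ℂ) :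
    per μ L x ≤ per μ (L + ω) x + 2 * ω / L * per μ (L / 2) x := by
  have hd : 0 < ω + L / 2 := by linarith
  set s : ℝ := ω / (ω + L / 2) with hs'
  have hs0 : 0 ≤ s := by positivity
  have hs1 : s ≤ 1 := (div_le_one hd).2 (by linarith)
  have hsd : s * (ω + L / 2) = ω := div_mul_cancel₀ _ hd.ne'
  have hsL : s ≤ 2 * ω / L := by
    rw [hs', div_le_div_iff₀ hd hL]
    nlinarith
  have := per_master hμ hs hμ0 (L := L) (L₁ := L + ω) (L₂ := L / 2) (by linarith) (by linarith)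
    (s₁ := 1 - s) (s₂ := s) (a₁ := 0) (a₂ := 0) (by linarith) hs0 (by ring) (fun y r hr => by
      rw [add_zero]
      have e : (1 - s) * (J r μ y - (L + ω) * r ^ 2 / 4) + s * (J r μ y - L / 2 * r ^ 2 / 4) =
        J r μ y - (L + ω - s * (ω + L / 2)) * r ^ 2 / 4 := by ring
      rw [e, hsd]
      linarith) x
  rw [add_zero] at this
  have h1 := per_nonneg hμ hs hμ0 (L := L + ω) (by linarith) x
  have h2 := per_nonneg hμ hs hμ0 (L := L / 2) (by linarith) x
  have h3 : s * per μ (L / 2) x ≤ 2 * ω / L * per μ (L / 2) x :=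
    mul_le_mul_of_nonneg_right hsL h2
  nlinarith

theorem per_continuous {L : ℝ} (hL : 0 < L) : Continuous (per μ L) := by
  rw [Metric.continuous_iff]
  intro x ε hε
  obtain ⟨w, K, hw, hK⟩ := ssol_growth hμ hs hμ0 (L := L / 2) (by linarith)
  -- a bound near `x`
  set B : ℝ := L / 2 / 4 * (‖x‖ + 1) ^ 2 + |K| with hB
  have hB0 : 0 ≤ B := by positivity
  have hBb : ∀ y, dist y x < 1 → per μ (L / 2) y ≤ B := by
    intro y hy
    have h1 : ‖y‖ ≤ ‖x‖ + 1 := by
      rw [dist_eq_norm] at hy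
      have := norm_add_le x (y - x)
      rw [add_sub_cancel] at this
      linarith
    have h2 : ‖y‖ ^ 2 ≤ (‖x‖ + 1) ^ 2 := by gcongr
    have h3 : L / 2 / 4 * ‖y‖ ^ 2 ≤ L / 2 / 4 * (‖x‖ + 1) ^ 2 := by gcongr
    linarith [per_le hw y, hK y, le_abs_self K]
  set ω : ℝ := ε * L / (4 * (B + 1)) with hω
  have hω0 : 0 < ω := by positivity
  have hωB : 2 * ω / L * B < ε := by
    have e : 2 * ω / L * B = ε / 2 * (B / (B + 1)) := by
      rw [hω]
      field_simp
      ring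
    have h1 : B / (B + 1) ≤ 1 := (div_le_one (by linarith)).2 (by linarith)
    rw [e]
    nlinarith
  obtain ⟨δ, hδ, hδω⟩ := Metric.uniformContinuous_iff.1
    (hs.uniformContinuous_of_continuous hμ) ω hω0
  refine ⟨min δ 1, lt_min hδ one_pos, fun y hy => ?_⟩
  have hy1 : dist y x < δ := hy.trans_le (min_le_left _ _)
  have hy2 : dist y x < 1 := hy.trans_le (min_le_right _ _)
  have key : ∀ p q : ℂ, dist p q < δ → dist p x < 1 → per μ L p ≤ per μ L q + 2 * ω / L * B := by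
    intro p q hpq hp
    have h1 := per_convex hμ hs hμ0 hL hω0.le p
    have h2 := per_translate hμ hs hμ0 hL (a := q - p) (ω := ω) (fun z => by
      have := hδω (a := z) (b := z + (q - p)) (by
        rw [dist_eq_norm, show z - (z + (q - p)) = p - q by ring, ← dist_eq_norm]
        exact hpq)
      rw [Real.dist_eq] at this
      linarith [(abs_lt.1 this).2]) p
    rw [add_sub_cancel] at h2
    have h3 : 2 * ω / L * per μ (L / 2) p ≤ 2 * ω / L * B :=
      mul_le_mul_of_nonneg_left (hBb p hp) (by positivity)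
    linarith
  have k1 := key y x hy1 hy2
  have k2 := key x y (by rwa [dist_comm]) (by simp)
  rw [Real.dist_eq, abs_lt]
  constructor <;> linarith

theorem per_mem {L : ℝ} (hL : 0 < L) : per μ L ∈ SSol μ L := by
  refine ⟨per_continuous hμ hs hμ0 hL, per_nonneg hμ hs hμ0 hL, fun x r hr => ?_⟩
  refine le_of_forall_pos_le_add fun ε hε => ?_
  obtain ⟨w, hw, hx⟩ := exists_near hμ hs hμ0 hL x hε
  have h1 := cav_mono (per_continuous hμ hs hμ0 hL) hw.1 (per_le hw) x r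
  have h2 := hw.2.2 x r hr
  linarith

theorem per_top {L : ℝ} (hL : 0 < L) (h : ∀ x, μ x ≤ L) (x : ℂ) : per μ L x = 0 := by
  obtain ⟨M, hM⟩ := exists_bound hμ hs
  refine le_antisymm ?_ (per_nonneg hμ hs hμ0 hL x)
  refine per_le (w := fun _ => 0) ⟨continuous_const, fun _ => le_rfl, fun y r hr => ?_⟩ x
  rw [Real.circleAverage_const]
  have := J_le hr hμ hM (x := y) (c := L) fun z _ => h z
  linarith

theorem per_har {L : ℝ} (hL : 0 < L) (x : ℂ) (r : ℝ) (hr : 0 < r)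
    (h : closedBall x r ⊆ {y | 0 < per μ L y}) :
    Real.circleAverage (per μ L) x r = per μ L x + L * r ^ 2 / 4 - J r μ x :=
  har_of hμ hs (per_continuous hμ hs hμ0 hL) (per_nonneg hμ hs hμ0 hL)
    (per_mem hμ hs hμ0 hL).2.2 (fun _ h1 h2 h3 y => per_le ⟨h1, h2, h3⟩ y) hr h

theorem per_cpt {L : ℝ} (hL : 0 < L) : HasCompactSupport (per μ L) := by
  obtain ⟨w, K, hw, hK⟩ := ssol_growth hμ hs hμ0 (L := L / 8) (by linarith)
  refine cpt_of hμ hs hL (K := K) (per_continuous hμ hs hμ0 hL) (per_nonneg hμ hs hμ0 hL)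
    (per_har hμ hs hμ0 hL) fun x => ?_
  have h1 := per_anti hμ hs hμ0 (L := L / 8) (L' := L) (by linarith) (by linarith) x
  have h2 := per_le hw x
  have h3 := hK x
  linarith

end

/-- (O-A, O-B) existence of the obstacle family -/
theorem stmtExist : O.StmtExist := by
  intro μ C hsrc
  have hμ := hsrc.cont
  have hs := hsrc.cpt
  have h0 := hsrc.nonneg
  obtain ⟨M, hM⟩ := exists_bound hμ hs
  refine ⟨per μ, hsrc, fun L hL => per_continuous hμ hs h0 hL, fun L hL => per_cpt hμ hs h0 hL,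
    fun L hL => per_nonneg hμ hs h0 hL, fun L hL => (per_mem hμ hs h0 hL).2.2,
    fun L hL => per_har hμ hs h0 hL, fun L hL x r hr => ?_,
    fun L hL w h1 h2 h3 x => per_le ⟨h1, h2, h3⟩ x, fun L L' hL h x => per_anti hμ hs h0 hL h x,
    fun L L' hL hL' x a => ?_, fun L hL h x => per_top hμ hs h0 hL h x⟩
  · exact sub_of hμ hs h0 hL.le (per_continuous hμ hs h0 hL) (per_nonneg hμ hs h0 hL)
      (per_har hμ hs h0 hL) x hr
  · have := per_master hμ hs h0 (L := (L + L') / 2 + C * ‖a‖ ^ 2) hL hL' (s₁ := 1 / 2)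
      (s₂ := 1 / 2) (a₁ := a) (a₂ := -a) (by norm_num) (by norm_num) (by norm_num)
      (fun y r hr => by
        have := J_semi hr hμ hM (fun z => hsrc.semi z a) y
        rw [← sub_eq_add_neg]
        linarith) x
    rw [← sub_eq_add_neg] at this
    linarith

end Pool.Agent.Lib.QNL.Per
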