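import Pool.Agent.Lib.QNL.DV

/-!
# Planar calculus for functions with values in a normed space or algebra, Wirtinger derivatives

`dv v f` is the derivative of `f : ℂ → F` in the direction `v` (`dv 1 f` is `∂f/∂x` and `dv I f` is
`∂f/∂y`),
`lap` is the Laplacian, `dz` and `dzb` are the Wirtinger derivatives `∂` and `∂̄` of `f : ℂ → ℂ`.
`Sm D f` says that `f` is smooth on `D` (always used for open `D`).
-/

set_option autoImplicit false

namespace Pool.Agent.Lib.QNL.Calc

open MeasureTheory Set Filter Topology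
open scoped ContDiff ComplexConjugate
open Complex (I)

section General

variable {F : Type*} [NormedAddCommGroup F] [NormedSpace ℝ F]
variable {G : Type*} [NormedAddCommGroup G] [NormedSpace ℝ G]

/-- `f` is smooth on `D`. -/
def Sm (D : Set ℂ) (f : ℂ → F) : Prop := ContDiffOn ℝ ∞ f D

theorem fderiv_eq (f : ℂ → F) (z v : ℂ) : fderiv ℝ f z v = v.re • dv 1 f z + v.im • dv I f z := by
  have h : v = v.re • (1 : ℂ) + v.im • I := by
    simp [Complex.re_add_im]
  conv_lhs => rw [h]
  rw [map_add, map_smul, map_smul]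
  rfl

variable {D : Set ℂ} {f g : ℂ → F} {z v w : ℂ}

/-! ### Smoothness -/

theorem Sm.mono {D' : Set ℂ} (h : Sm D f) (hD : D' ⊆ D) : Sm D' f := ContDiffOn.mono h hD

theorem ContDiff.sm (h : ContDiff ℝ ∞ f) (D : Set ℂ) : Sm D f := h.contDiffOn

theorem sm_univ : Sm univ f ↔ ContDiff ℝ ∞ f := contDiffOn_univ

theorem Sm.contDiffAt (h : Sm D f) (hD : IsOpen D) (hz : z ∈ D) : ContDiffAt ℝ ∞ f z :=
  ContDiffWithinAt.contDiffAt (h z hz) (hD.mem_nhds hz)

theorem Sm.differentiableAt (h : Sm D f) (hD : IsOpen D) (hz : z ∈ D) :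
    DifferentiableAt ℝ f z := (h.contDiffAt hD hz).differentiableAt (by simp)

theorem Sm.continuousOn (h : Sm D f) : ContinuousOn f D := ContDiffOn.continuousOn h

theorem Sm.congr (h : Sm D f) (hfg : EqOn g f D) : Sm D g := ContDiffOn.congr h hfg

theorem Sm.dv (h : Sm D f) (hD : IsOpen D) (v : ℂ) : Sm D (dv v f) := by
  have h1 : ContDiffOn ℝ ∞ (fderiv ℝ f) D := ContDiffOn.fderiv_of_isOpen h hD (by simp)
  exact h1.clm_apply contDiffOn_const

theorem Sm.add (hf : Sm D f) (hg : Sm D g) : Sm D (fun z => f z + g z) := ContDiffOn.add hf hg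

theorem Sm.sub (hf : Sm D f) (hg : Sm D g) : Sm D (fun z => f z - g z) := ContDiffOn.sub hf hg

theorem Sm.neg (hf : Sm D f) : Sm D (fun z => - f z) := ContDiffOn.neg hf

theorem sm_const (c : F) : Sm D (fun _ => c) := contDiffOn_const

theorem Sm.clm (hf : Sm D f) (L : F →L[ℝ] G) : Sm D (fun z => L (f z)) :=
  L.contDiff.comp_contDiffOn hf

theorem Sm.smul {u : ℂ → ℝ} (hu : Sm D u) (hf : Sm D f) : Sm D (fun z => u z • f z) :=
  ContDiffOn.smul hu hf

theorem Sm.sum {ι : Type*} (s : Finset ι) {f : ι → ℂ → F} (h : ∀ i ∈ s, Sm D (f i)) :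
    Sm D (fun z => ∑ i ∈ s, f i z) := ContDiffOn.sum h

theorem Sm.lap (h : Sm D f) (hD : IsOpen D) : Sm D (lap f) :=
  ((h.dv hD 1).dv hD 1).add ((h.dv hD I).dv hD I)

/-! ### Rules at one point -/

theorem dd_add (hf : DifferentiableAt ℝ f z) (hg : DifferentiableAt ℝ g z) (v : ℂ) :
    dv v (fun z => f z + g z) z = dv v f z + dv v g z := by
  unfold dv
  rw [fderiv_fun_add hf hg]
  rfl

theorem dd_sub (hf : DifferentiableAt ℝ f z) (hg : DifferentiableAt ℝ g z) (v : ℂ) :
    dv v (fun z => f z - g z) z = dv v f z - dv v g z := by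
  unfold dv
  rw [fderiv_fun_sub hf hg]
  rfl

theorem dd_neg (f : ℂ → F) (v z : ℂ) : dv v (fun z => - f z) z = - dv v f z := by
  unfold dv
  rw [fderiv_fun_neg]
  rfl

theorem dd_const (c : F) (v z : ℂ) : dv v (fun _ => c) z = 0 := by
  unfold dv
  simp

theorem dd_sum {ι : Type*} (s : Finset ι) {f : ι → ℂ → F}
    (h : ∀ i ∈ s, DifferentiableAt ℝ (f i) z) (v : ℂ) :
    dv v (fun z => ∑ i ∈ s, f i z) z = ∑ i ∈ s, dv v (f i) z := by
  unfold dv
  rw [fderiv_fun_sum h]
  simp

theorem dd_clm (hf : DifferentiableAt ℝ f z) (L : F →L[ℝ] G) (v : ℂ) :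
    dv v (fun z => L (f z)) z = L (dv v f z) := by
  unfold dv
  have := (L.hasFDerivAt (x := f z)).comp z hf.hasFDerivAt
  rw [show (fun z => L (f z)) = L ∘ f from rfl, this.fderiv]
  rfl

theorem dd_smul {u : ℂ → ℝ} (hu : DifferentiableAt ℝ u z) (hf : DifferentiableAt ℝ f z) (v : ℂ) :
    dv v (fun z => u z • f z) z = dv v u z • f z + u z • dv v f z := by
  unfold dv
  rw [fderiv_fun_smul hu hf]
  simp [add_comm]

theorem dd_add_dir (f : ℂ → F) (v w z : ℂ) : dv (v + w) f z = dv v f z + dv w f z := by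
  unfold dv
  rw [map_add]

theorem dd_neg_dir (f : ℂ → F) (v z : ℂ) : dv (-v) f z = - dv v f z := by
  unfold dv
  rw [map_neg]

theorem dd_real_dir (f : ℂ → F) (c : ℝ) (v z : ℂ) : dv ((c : ℂ) * v) f z = c • dv v f z := by
  unfold dv
  rw [← map_smul, Complex.real_smul]

theorem dd_eq (f : ℂ → F) (v z : ℂ) : dv v f z = v.re • dv 1 f z + v.im • dv I f z :=
  fderiv_eq f z v

/-- Congruence near a point. -/
theorem dd_congr_nhds (h : f =ᶠ[𝓝 z] g) (v : ℂ) : dv v f z = dv v g z := by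
  unfold dv
  rw [h.fderiv_eq]

/-- Congruence on an open set. -/
theorem dd_congr (hD : IsOpen D) (h : EqOn f g D) (v : ℂ) : EqOn (dv v f) (dv v g) D :=
  fun _ hz => dd_congr_nhds (eventually_of_mem (hD.mem_nhds hz) h) v

theorem lap_congr (hD : IsOpen D) (h : EqOn f g D) : EqOn (lap f) (lap g) D := fun z hz => by
  simp only [lap, dx_eq, dy_eq]
  rw [dd_congr hD (dd_congr hD h 1) 1 hz, dd_congr hD (dd_congr hD h I) I hz]

/-- The derivatives commute. -/
theorem dd_comm (h : Sm D f) (hD : IsOpen D) (hz : z ∈ D) (v w : ℂ) :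
    dv v (dv w f) z = dv w (dv v f) z := by
  have h0 : ContDiffAt ℝ ∞ f z := h.contDiffAt hD hz
  have h1 : DifferentiableAt ℝ (fderiv ℝ f) z := by
    have h2 : ContDiffOn ℝ ∞ (fderiv ℝ f) D := ContDiffOn.fderiv_of_isOpen h hD (by simp)
    exact ((h2 z hz).contDiffAt (hD.mem_nhds hz)).differentiableAt (by simp)
  have key : ∀ a b : ℂ, dv a (dv b f) z = fderiv ℝ (fderiv ℝ f) z a b := by
    intro a b
    unfold dv
    have := h1.hasFDerivAt.clm_apply (hasFDerivAt_const b z)
    rw [this.fderiv]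
    simp
  rw [key, key]
  refine (h0.isSymmSndFDerivAt ?_).eq v w
  rw [minSmoothness_of_isRCLikeNormedField]
  exact ENat.LEInfty.out

theorem dx_dy (h : Sm D f) (hD : IsOpen D) (hz : z ∈ D) : dv 1 (dv I f) z = dv I (dv 1 f) z :=
  dd_comm h hD hz _ _

/-! ### The support -/

theorem support_dd_subset (f : ℂ → F) (v : ℂ) : tsupport (dv v f) ⊆ tsupport f :=
  tsupport_fderiv_apply_subset ℝ v

theorem HasCompactSupport.dv (h : HasCompactSupport f) (v : ℂ) : HasCompactSupport (dv v f) :=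
  HasCompactSupport.fderiv_apply ℝ h v

theorem dd_of_notMem (h : z ∉ tsupport f) (v : ℂ) : dv v f z = 0 :=
  image_eq_zero_of_notMem_tsupport fun hz => h (support_dd_subset f v hz)

theorem support_lap_subset (f : ℂ → F) : tsupport (lap f) ⊆ tsupport f := by
  refine closure_minimal (fun z hz => ?_) isClosed_closure
  by_contra h
  apply hz
  simp only [lap, dx_eq, dy_eq]
  have h1 : z ∉ tsupport (dv 1 f) := fun h' => h (support_dd_subset f _ h')
  have h2 : z ∉ tsupport (dv I f) := fun h' => h (support_dd_subset f _ h')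
  rw [dd_of_notMem h1, dd_of_notMem h2, add_zero]

theorem HasCompactSupport.lap (h : HasCompactSupport f) : HasCompactSupport (lap f) :=
  HasCompactSupport.of_support_subset_isCompact h
    ((subset_tsupport _).trans (support_lap_subset f))

end General

/-! ### Products in a normed algebra -/

section Algebra

variable {𝔸 : Type*} [NormedCommRing 𝔸] [NormedAlgebra ℝ 𝔸]
variable {D : Set ℂ} {f g : ℂ → 𝔸} {z : ℂ}

theorem Sm.mul (hf : Sm D f) (hg : Sm D g) : Sm D (fun z => f z * g z) := ContDiffOn.mul hf hg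

theorem Sm.pow (hf : Sm D f) (n : ℕ) : Sm D (fun z => f z ^ n) := ContDiffOn.pow hf n

theorem Sm.const_mul (hf : Sm D f) (c : 𝔸) : Sm D (fun z => c * f z) :=
  (sm_const c).mul hf

theorem dd_mul (hf : DifferentiableAt ℝ f z) (hg : DifferentiableAt ℝ g z) (v : ℂ) :
    dv v (fun z => f z * g z) z = dv v f z * g z + f z * dv v g z := by
  unfold dv
  rw [fderiv_fun_mul hf hg]
  change f z * fderiv ℝ g z v + g z * fderiv ℝ f z v = _
  ring

theorem dd_const_mul (hf : DifferentiableAt ℝ f z) (c : 𝔸) (v : ℂ) :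
    dv v (fun z => c * f z) z = c * dv v f z := by
  rw [dd_mul (differentiableAt_const c) hf, dd_const, zero_mul, zero_add]

theorem lap_mul (hf : Sm D f) (hg : Sm D g) (hD : IsOpen D) (hz : z ∈ D) :
    lap (fun z => f z * g z) z =
      lap f z * g z + 2 * (dv 1 f z * dv 1 g z + dv I f z * dv I g z) + f z * lap g z := by
  have key : ∀ v : ℂ, dv v (dv v (fun z => f z * g z)) z =
      dv v (dv v f) z * g z + 2 * (dv v f z * dv v g z) + f z * dv v (dv v g) z := by
    intro v
    have e : EqOn (dv v (fun z => f z * g z)) (fun z => dv v f z * g z + f z * dv v g z) D :=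
      fun y hy => dd_mul (hf.differentiableAt hD hy) (hg.differentiableAt hD hy) v
    have d1 := hf.differentiableAt hD hz
    have d2 := hg.differentiableAt hD hz
    have d3 := (hf.dv hD v).differentiableAt hD hz
    have d4 := (hg.dv hD v).differentiableAt hD hz
    rw [dd_congr hD e v hz, dd_add (f := fun z => dv v f z * g z)
      (g := fun z => f z * dv v g z) (d3.mul d2) (d1.mul d4),
      dd_mul d3 d2, dd_mul d1 d4]
    ring
  simp only [lap, dx_eq, dy_eq]
  rw [key, key]
  ring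

end Algebra

/-! ### The chain rule -/

section Chain

variable {D : Set ℂ} {g : ℂ → ℝ} {φ : ℝ → ℝ} {z : ℂ}

theorem dd_comp (hφ : DifferentiableAt ℝ φ (g z)) (hg : DifferentiableAt ℝ g z) (v : ℂ) :
    dv v (fun z => φ (g z)) z = deriv φ (g z) * dv v g z := by
  unfold dv
  have h := hφ.hasDerivAt.comp_hasFDerivAt z hg.hasFDerivAt
  rw [show (fun z => φ (g z)) = φ ∘ g from rfl, h.fderiv]
  simp

theorem Sm.comp (hφ : ContDiff ℝ ∞ φ) (hg : Sm D g) : Sm D (fun z => φ (g z)) :=
  hφ.comp_contDiffOn hg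

theorem lap_comp (hφ : ContDiff ℝ ∞ φ) (hg : Sm D g) (hD : IsOpen D) (hz : z ∈ D) :
    lap (fun z => φ (g z)) z =
      deriv (deriv φ) (g z) * (dv 1 g z ^ 2 + dv I g z ^ 2) + deriv φ (g z) * lap g z := by
  have hφ1 : Differentiable ℝ φ := hφ.differentiable (by simp)
  have hφ2 : ContDiff ℝ ∞ (deriv φ) := (contDiff_infty_iff_deriv.1 hφ).2
  have hφ3 : Differentiable ℝ (deriv φ) := hφ2.differentiable (by simp)
  have key : ∀ v : ℂ, dv v (dv v (fun z => φ (g z))) z =
      deriv (deriv φ) (g z) * dv v g z ^ 2 + deriv φ (g z) * dv v (dv v g) z := by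
    intro v
    have e : EqOn (dv v (fun z => φ (g z))) (fun z => deriv φ (g z) * dv v g z) D :=
      fun y hy => dd_comp (hφ1 _) (hg.differentiableAt hD hy) v
    have d1 := hg.differentiableAt hD hz
    have d2 := (hg.dv hD v).differentiableAt hD hz
    have d3 : DifferentiableAt ℝ (fun z => deriv φ (g z)) z := (hφ3 _).comp z d1
    rw [dd_congr hD e v hz, dd_mul d3 d2, dd_comp (hφ3 _) d1]
    ring
  simp only [lap, dx_eq, dy_eq]
  rw [key, key]
  ring

end Chain

/-! ### The Wirtinger derivatives -/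

section Wirtinger

variable {D : Set ℂ} {f g : ℂ → ℂ} {z : ℂ}

theorem dx_eq_add (f : ℂ → ℂ) (z : ℂ) : dv 1 f z = dz f z + dzb f z := by
  simp only [dz, dzb, dx_eq, dy_eq]
  ring

theorem dy_eq_sub (f : ℂ → ℂ) (z : ℂ) : dv I f z = I * (dz f z - dzb f z) := by
  simp only [dz, dzb, dx_eq, dy_eq]
  linear_combination (dv I f z) * Complex.I_sq

theorem Sm.dz (h : Sm D f) (hD : IsOpen D) : Sm D (dz f) := by
  have := ((h.dv hD 1).sub ((h.dv hD I).const_mul I)).const_mul (1 / 2)
  refine this.congr fun z _ => ?_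
  simp only [QNL.dz, dx_eq, dy_eq]
  ring

theorem Sm.dzb (h : Sm D f) (hD : IsOpen D) : Sm D (dzb f) := by
  have := ((h.dv hD 1).add ((h.dv hD I).const_mul I)).const_mul (1 / 2)
  refine this.congr fun z _ => ?_
  simp only [QNL.dzb, dx_eq, dy_eq]
  ring

theorem dz_congr (hD : IsOpen D) (h : EqOn f g D) : EqOn (dz f) (dz g) D := fun z hz => by
  simp only [dz, dx_eq, dy_eq]
  rw [dd_congr hD h 1 hz, dd_congr hD h I hz]

theorem dzb_congr (hD : IsOpen D) (h : EqOn f g D) : EqOn (dzb f) (dzb g) D := fun z hz => by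
  simp only [dzb, dx_eq, dy_eq]
  rw [dd_congr hD h 1 hz, dd_congr hD h I hz]

theorem dz_add (hf : DifferentiableAt ℝ f z) (hg : DifferentiableAt ℝ g z) :
    dz (fun z => f z + g z) z = dz f z + dz g z := by
  simp only [dz, dx_eq, dy_eq]
  rw [dd_add hf hg, dd_add hf hg]
  ring

theorem dzb_add (hf : DifferentiableAt ℝ f z) (hg : DifferentiableAt ℝ g z) :
    dzb (fun z => f z + g z) z = dzb f z + dzb g z := by
  simp only [dzb, dx_eq, dy_eq]
  rw [dd_add hf hg, dd_add hf hg]
  ring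

theorem dz_mul (hf : DifferentiableAt ℝ f z) (hg : DifferentiableAt ℝ g z) :
    dz (fun z => f z * g z) z = dz f z * g z + f z * dz g z := by
  simp only [dz, dx_eq, dy_eq]
  rw [dd_mul hf hg, dd_mul hf hg]
  ring

theorem dzb_mul (hf : DifferentiableAt ℝ f z) (hg : DifferentiableAt ℝ g z) :
    dzb (fun z => f z * g z) z = dzb f z * g z + f z * dzb g z := by
  simp only [dzb, dx_eq, dy_eq]
  rw [dd_mul hf hg, dd_mul hf hg]
  ring

theorem dd_conj (hf : DifferentiableAt ℝ f z) (v : ℂ) :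
    dv v (fun z => conj (f z)) z = conj (dv v f z) :=
  dd_clm hf Complex.conjCLE.toContinuousLinearMap v

theorem Sm.conj (hf : Sm D f) : Sm D (fun z => conj (f z)) :=
  hf.clm Complex.conjCLE.toContinuousLinearMap

theorem dz_conj (hf : DifferentiableAt ℝ f z) : dz (fun z => conj (f z)) z = conj (dzb f z) := by
  simp only [dz, dzb, dx_eq, dy_eq]
  rw [dd_conj hf, dd_conj hf]
  simp only [map_div₀, map_add, map_mul, Complex.conj_I, map_ofNat]
  ring

theorem dzb_conj (hf : DifferentiableAt ℝ f z) : dzb (fun z => conj (f z)) z = conj (dz f z) := by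
  simp only [dz, dzb, dx_eq, dy_eq]
  rw [dd_conj hf, dd_conj hf]
  simp only [map_div₀, map_sub, map_mul, Complex.conj_I, map_ofNat]
  ring

theorem dz_const_mul (hf : DifferentiableAt ℝ f z) (c : ℂ) :
    dz (fun z => c * f z) z = c * dz f z := by
  simp only [dz, dx_eq, dy_eq]
  rw [dd_const_mul hf, dd_const_mul hf]
  ring

theorem dzb_const_mul (hf : DifferentiableAt ℝ f z) (c : ℂ) :
    dzb (fun z => c * f z) z = c * dzb f z := by
  simp only [dzb, dx_eq, dy_eq]
  rw [dd_const_mul hf, dd_const_mul hf]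
  ring

theorem dd_dz (h : Sm D f) (hD : IsOpen D) (hz : z ∈ D) (v : ℂ) :
    dv v (dz f) z = (dv v (dv 1 f) z - I * dv v (dv I f) z) / 2 := by
  have hx := (h.dv hD 1).differentiableAt hD hz
  have hy := (h.dv hD I).differentiableAt hD hz
  have e : dz f = fun z => (1 / 2 : ℂ) * (dv 1 f z - I * dv I f z) := by
    funext z
    simp only [dz, dx_eq, dy_eq]
    ring
  have hy' : DifferentiableAt ℝ (fun z => I * dv I f z) z := hy.const_mul _
  have hs : DifferentiableAt ℝ (fun z => dv 1 f z - I * dv I f z) z := hx.sub hy'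
  rw [e, dd_const_mul hs, dd_sub hx hy', dd_const_mul hy]
  ring

theorem dd_dzb (h : Sm D f) (hD : IsOpen D) (hz : z ∈ D) (v : ℂ) :
    dv v (dzb f) z = (dv v (dv 1 f) z + I * dv v (dv I f) z) / 2 := by
  have hx := (h.dv hD 1).differentiableAt hD hz
  have hy := (h.dv hD I).differentiableAt hD hz
  have e : dzb f = fun z => (1 / 2 : ℂ) * (dv 1 f z + I * dv I f z) := by
    funext z
    simp only [dzb, dx_eq, dy_eq]
    ring
  have hy' : DifferentiableAt ℝ (fun z => I * dv I f z) z := hy.const_mul _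
  have hs : DifferentiableAt ℝ (fun z => dv 1 f z + I * dv I f z) z := hx.add hy'
  rw [e, dd_const_mul hs, dd_add hx hy', dd_const_mul hy]
  ring

theorem dz_def (f : ℂ → ℂ) (z : ℂ) : dz f z = (dv 1 f z - I * dv I f z) / 2 := rfl

theorem dzb_def (f : ℂ → ℂ) (z : ℂ) : dzb f z = (dv 1 f z + I * dv I f z) / 2 := rfl

theorem lap_def {F : Type*} [NormedAddCommGroup F] [NormedSpace ℝ F] (f : ℂ → F) (z : ℂ) :
    lap f z = dv 1 (dv 1 f) z + dv I (dv I f) z := rfl

theorem dz_dzb (h : Sm D f) (hD : IsOpen D) (hz : z ∈ D) : dz (dzb f) z = dzb (dz f) z := by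
  have e := dx_dy h hD hz
  rw [dz_def, dzb_def, dd_dzb h hD hz, dd_dzb h hD hz, dd_dz h hD hz, dd_dz h hD hz]
  rw [e]
  ring

theorem lap_eq (h : Sm D f) (hD : IsOpen D) (hz : z ∈ D) : lap f z = 4 * dz (dzb f) z := by
  have e := dx_dy h hD hz
  rw [dz_def, dd_dzb h hD hz, dd_dzb h hD hz, lap_def]
  rw [e]
  linear_combination (dv I (dv I f) z) * Complex.I_sq

theorem fderiv_apply_eq (f : ℂ → ℂ) (z v : ℂ) :
    fderiv ℝ f z v = dz f z * v + dzb f z * conj v := by
  rw [fderiv_eq f z v, dz_def, dzb_def, Complex.real_smul, Complex.real_smul]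
  have h1 : v = (v.re : ℂ) + v.im * I := (Complex.re_add_im v).symm
  have h2 : conj v = (v.re : ℂ) - v.im * I := by
    apply Complex.ext <;> simp
  rw [h2]
  nth_rewrite 3 [h1]
  linear_combination ((v.im : ℂ) * dv I f z) * Complex.I_sq

/-- The real linear map `v ↦ a v + b v̄`. -/
noncomputable def wl (a b : ℂ) : ℂ →L[ℝ] ℂ :=
  a • (1 : ℂ →L[ℝ] ℂ) + b • Complex.conjCLE.toContinuousLinearMap

@[simp] theorem wl_apply (a b v : ℂ) : wl a b v = a * v + b * conj v := by
  simp [wl]

theorem fderiv_eq_wl (f : ℂ → ℂ) (z : ℂ) : fderiv ℝ f z = wl (dz f z) (dzb f z) := by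
  ext v
  rw [fderiv_apply_eq, wl_apply]

theorem hasFDerivAt_wl (h : DifferentiableAt ℝ f z) :
    HasFDerivAt f (wl (dz f z) (dzb f z)) z := by
  rw [← fderiv_eq_wl]
  exact h.hasFDerivAt

theorem wl_inj {a b c d : ℂ} (h : wl a b = wl c d) : a = c ∧ b = d := by
  have h1 := congrArg (fun L : ℂ →L[ℝ] ℂ => L 1) h
  have h2 := congrArg (fun L : ℂ →L[ℝ] ℂ => L I) h
  simp only [wl_apply, map_one, mul_one, Complex.conj_I] at h1 h2
  have h3 : a - b = c - d := by
    have h4 : (a - b) * I = (c - d) * I := by linear_combination h2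
    exact mul_right_cancel₀ Complex.I_ne_zero h4
  constructor
  · linear_combination (h1 + h3) / 2
  · linear_combination (h1 - h3) / 2

theorem dz_of_hasFDerivAt {a b : ℂ} (h : HasFDerivAt f (wl a b) z) : dz f z = a :=
  (wl_inj ((fderiv_eq_wl f z).symm.trans h.fderiv)).1

theorem dzb_of_hasFDerivAt {a b : ℂ} (h : HasFDerivAt f (wl a b) z) : dzb f z = b :=
  (wl_inj ((fderiv_eq_wl f z).symm.trans h.fderiv)).2

/-! ### Real functions as complex functions -/

theorem Sm.ofReal {u : ℂ → ℝ} (hu : Sm D u) : Sm D (fun z => (u z : ℂ)) :=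
  hu.clm Complex.ofRealCLM

theorem Sm.re (h : Sm D f) : Sm D (fun z => (f z).re) := h.clm Complex.reCLM

theorem Sm.im (h : Sm D f) : Sm D (fun z => (f z).im) := h.clm Complex.imCLM

theorem dd_ofReal {u : ℂ → ℝ} (hu : DifferentiableAt ℝ u z) (v : ℂ) :
    dv v (fun z => (u z : ℂ)) z = ((dv v u z : ℝ) : ℂ) := dd_clm hu Complex.ofRealCLM v

theorem dd_re (hf : DifferentiableAt ℝ f z) (v : ℂ) :
    dv v (fun z => (f z).re) z = (dv v f z).re := dd_clm hf Complex.reCLM v

theorem dd_im (hf : DifferentiableAt ℝ f z) (v : ℂ) :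
    dv v (fun z => (f z).im) z = (dv v f z).im := dd_clm hf Complex.imCLM v

theorem dz_ofReal {u : ℂ → ℝ} (hu : DifferentiableAt ℝ u z) :
    dz (fun z => (u z : ℂ)) z = (((dx u z : ℝ) : ℂ) - I * ((dy u z : ℝ) : ℂ)) / 2 := by
  rw [dz_def, dd_ofReal hu, dd_ofReal hu]
  rfl

theorem dzb_ofReal {u : ℂ → ℝ} (hu : DifferentiableAt ℝ u z) :
    dzb (fun z => (u z : ℂ)) z = (((dx u z : ℝ) : ℂ) + I * ((dy u z : ℝ) : ℂ)) / 2 := by
  rw [dzb_def, dd_ofReal hu, dd_ofReal hu]
  rfl

theorem norm_dz_ofReal_sq {u : ℂ → ℝ} (hu : DifferentiableAt ℝ u z) :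
    ‖dz (fun z => (u z : ℂ)) z‖ ^ 2 = gr u z / 4 := by
  rw [dz_ofReal hu, ← Complex.normSq_eq_norm_sq, Complex.normSq_apply]
  simp [gr]
  ring

theorem norm_dzb_ofReal_sq {u : ℂ → ℝ} (hu : DifferentiableAt ℝ u z) :
    ‖dzb (fun z => (u z : ℂ)) z‖ ^ 2 = gr u z / 4 := by
  rw [dzb_ofReal hu, ← Complex.normSq_eq_norm_sq, Complex.normSq_apply]
  simp [gr]
  ring

theorem lap_ofReal {u : ℂ → ℝ} (hu : Sm D u) (hD : IsOpen D) (hz : z ∈ D) :
    lap (fun z => (u z : ℂ)) z = ((lap u z : ℝ) : ℂ) := by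
  have e : ∀ v : ℂ, EqOn (dv v (fun z => (u z : ℂ))) (fun z => ((dv v u z : ℝ) : ℂ)) D :=
    fun v y hy => dd_ofReal (hu.differentiableAt hD hy) v
  rw [lap_def, dd_congr hD (e 1) 1 hz, dd_congr hD (e I) I hz,
    dd_ofReal ((hu.dv hD 1).differentiableAt hD hz),
    dd_ofReal ((hu.dv hD I).differentiableAt hD hz), lap_def]
  push_cast
  ring

theorem lap_re (hf : Sm D f) (hD : IsOpen D) (hz : z ∈ D) :
    lap (fun z => (f z).re) z = (lap f z).re := by
  have e : ∀ v : ℂ, EqOn (dv v (fun z => (f z).re)) (fun z => (dv v f z).re) D :=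
    fun v y hy => dd_re (hf.differentiableAt hD hy) v
  rw [lap_def, dd_congr hD (e 1) 1 hz, dd_congr hD (e I) I hz,
    dd_re ((hf.dv hD 1).differentiableAt hD hz),
    dd_re ((hf.dv hD I).differentiableAt hD hz), lap_def]
  simp

/-- The Wirtinger derivatives of a conjugate: `∂̄ u` is the conjugate of `∂ u` for real `u`. -/
theorem dzb_ofReal_eq {u : ℂ → ℝ} (hu : DifferentiableAt ℝ u z) :
    dzb (fun z => (u z : ℂ)) z = conj (dz (fun z => (u z : ℂ)) z) := by
  rw [dz_ofReal hu, dzb_ofReal hu]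
  simp [map_ofNat]

/-! ### Iterated Wirtinger derivatives -/

theorem Sm.dzb_iter (h : Sm D f) (hD : IsOpen D) (b : ℕ) : Sm D (QNL.dzb^[b] f) := by
  induction b with
  | zero => exact h
  | succ b ih =>
    rw [Function.iterate_succ_apply']
    exact ih.dzb hD

theorem Sm.dz_iter (h : Sm D f) (hD : IsOpen D) (a : ℕ) : Sm D (QNL.dz^[a] f) := by
  induction a with
  | zero => exact h
  | succ a ih =>
    rw [Function.iterate_succ_apply']
    exact ih.dz hD

theorem Sm.dab (h : Sm D f) (hD : IsOpen D) (a b : ℕ) : Sm D (Dab a b f) :=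
  (h.dzb_iter hD b).dz_iter hD a

theorem dab_zero (f : ℂ → ℂ) : Dab 0 0 f = f := rfl

theorem dz_dab (a b : ℕ) (f : ℂ → ℂ) : dz (Dab a b f) = Dab (a + 1) b f := by
  unfold Dab
  rw [Function.iterate_succ_apply']

theorem dzb_dz_iter (h : Sm D f) (hD : IsOpen D) (a : ℕ) :
    EqOn (dzb (dz^[a] f)) (dz^[a] (dzb f)) D := by
  induction a with
  | zero => exact fun z _ => rfl
  | succ a ih =>
    intro z hz
    rw [Function.iterate_succ_apply', Function.iterate_succ_apply',
      ← dz_dzb (h.dz_iter hD a) hD hz]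
    exact dz_congr hD ih hz

theorem dzb_dab (h : Sm D f) (hD : IsOpen D) (a b : ℕ) :
    EqOn (dzb (Dab a b f)) (Dab a (b + 1) f) D := by
  unfold Dab
  rw [Function.iterate_succ_apply']
  exact dzb_dz_iter (h.dzb_iter hD b) hD a

/-- The derivatives of a smooth function form a jet. -/
theorem hasFDerivAt_dab (h : Sm D f) (hD : IsOpen D) (hz : z ∈ D) (a b : ℕ) :
    HasFDerivAt (Dab a b f) (wl (Dab (a + 1) b f z) (Dab a (b + 1) f z)) z := by
  have h1 := hasFDerivAt_wl ((h.dab hD a b).differentiableAt hD hz)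
  rwa [dz_dab, dzb_dab h hD a b hz] at h1

theorem lap_dab (h : Sm D f) (hD : IsOpen D) (a b : ℕ) :
    EqOn (lap (Dab a b f)) (fun z => 4 * Dab (a + 1) (b + 1) f z) D := by
  intro z hz
  rw [lap_eq (h.dab hD a b) hD hz, dz_congr hD (dzb_dab h hD a b) hz, dz_dab]

theorem lap_iter (h : Sm D f) (hD : IsOpen D) (m : ℕ) :
    EqOn (lap^[m] f) (fun z => 4 ^ m * Dab m m f z) D := by
  induction m with
  | zero => exact fun z _ => by simp [dab_zero]
  | succ m ih =>
    intro z hz
    rw [Function.iterate_succ_apply', lap_congr hD ih hz,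
      lap_eq ((h.dab hD m m).const_mul (4 ^ m)) hD hz]
    have e : EqOn (dzb fun z => 4 ^ m * Dab m m f z) (fun z => 4 ^ m * Dab m (m + 1) f z) D :=
      fun y hy => by
        rw [dzb_const_mul ((h.dab hD m m).differentiableAt hD hy), dzb_dab h hD m m hy]
    rw [dz_congr hD e hz, dz_const_mul ((h.dab hD m (m + 1)).differentiableAt hD hz), dz_dab]
    ring

end Wirtinger

/-! ### Integration by parts -/

section Parts

variable {𝔸 : Type*} [NormedCommRing 𝔸] [NormedAlgebra ℝ 𝔸]
variable {D : Set ℂ}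

omit [NormedAlgebra ℝ 𝔸] in
theorem continuous_mul_of {f g : ℂ → 𝔸} (hD : IsOpen D) (hf : ContinuousOn f D)
    (hg : Continuous g) (hs : tsupport g ⊆ D) : Continuous (fun z => f z * g z) := by
  refine ContinuousOn.continuous_of_tsupport_subset (s := D) (hf.mul hg.continuousOn) hD ?_
  exact (tsupport_mul_subset_right (f := f) (g := g)).trans hs

omit [NormedAlgebra ℝ 𝔸] in
theorem integrable_mul_of {f g : ℂ → 𝔸} (hD : IsOpen D) (hf : ContinuousOn f D)
    (hg : Continuous g) (hc : HasCompactSupport g) (hs : tsupport g ⊆ D) :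
    Integrable (fun z => f z * g z) volume :=
  (continuous_mul_of hD hf hg hs).integrable_of_hasCompactSupport hc.mul_left

/-- Integration by parts: `f` is `C¹` on the open set `D`, `g` is `C¹` with compact support
in `D`. -/
theorem parts {f g : ℂ → 𝔸} (hD : IsOpen D) (hf : ContDiffOn ℝ 1 f D) (hg : ContDiff ℝ 1 g)
    (hc : HasCompactSupport g) (hs : tsupport g ⊆ D) (v : ℂ) :
    ∫ z, f z * dv v g z = - ∫ z, dv v f z * g z := by
  have hf1 : ContinuousOn (dv v f) D := by
    have h0 : ContDiffOn ℝ 0 (fderiv ℝ f) D := ContDiffOn.fderiv_of_isOpen hf hD (by simp)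
    exact h0.continuousOn.clm_apply continuousOn_const
  have hg1 : Continuous (dv v g) := (hg.continuous_fderiv (by simp)).clm_apply continuous_const
  refine integral_bilinear_fderiv_right_eq_neg_left_of_integrable
    (B := ContinuousLinearMap.mul ℝ 𝔸) ?_ ?_ ?_ ?_ ?_
  · exact integrable_mul_of hD hf1 hg.continuous hc hs
  · exact integrable_mul_of hD hf.continuousOn hg1 (HasCompactSupport.dv hc v)
      ((support_dd_subset g v).trans hs)
  · exact integrable_mul_of hD hf.continuousOn hg.continuous hc hs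
  · exact fun x hx => ((hf x (hs hx)).contDiffAt (hD.mem_nhds (hs hx))).differentiableAt (by simp)
  · exact fun x _ => hg.differentiable (by simp) x

/-- Green's formula. -/
theorem green {f g : ℂ → 𝔸} (hD : IsOpen D) (hf : Sm D f) (hg : ContDiff ℝ ∞ g)
    (hc : HasCompactSupport g) (hs : tsupport g ⊆ D) :
    ∫ z, f z * lap g z = ∫ z, lap f z * g z := by
  have hgs : Sm univ g := sm_univ.2 hg
  have key : ∀ v : ℂ, ∫ z, f z * dv v (dv v g) z = ∫ z, dv v (dv v f) z * g z := by
    intro v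
    have hg1 : ContDiff ℝ ∞ (dv v g) := sm_univ.1 (hgs.dv isOpen_univ v)
    rw [parts hD (ContDiffOn.of_le hf (by simp)) (hg1.of_le (by simp)) (HasCompactSupport.dv hc v)
      ((support_dd_subset g v).trans hs) v,
      parts hD (ContDiffOn.of_le (hf.dv hD v) (by simp)) (hg.of_le (by simp)) hc hs v, neg_neg]
  have i1 : ∀ v : ℂ, Integrable (fun z => f z * dv v (dv v g) z) volume := fun v =>
    integrable_mul_of hD hf.continuousOn
      (sm_univ.1 ((hgs.dv isOpen_univ v).dv isOpen_univ v)).continuous (HasCompactSupport.dv (HasCompactSupport.dv hc v) v)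
      ((support_dd_subset _ v).trans ((support_dd_subset g v).trans hs))
  have i2 : ∀ v : ℂ, Integrable (fun z => dv v (dv v f) z * g z) volume := fun v =>
    integrable_mul_of hD ((hf.dv hD v).dv hD v).continuousOn hg.continuous hc hs
  have e1 : ∀ z, f z * lap g z =
      f z * dv 1 (dv 1 g) z + f z * dv I (dv I g) z := fun z => by
    simp only [lap, dx_eq, dy_eq]
    ring
  have e2 : ∀ z, lap f z * g z =
      dv 1 (dv 1 f) z * g z + dv I (dv I f) z * g z := fun z => by
    simp only [lap, dx_eq, dy_eq]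
    ring
  simp only [e1, e2]
  rw [integral_add (i1 1) (i1 _), integral_add (i2 1) (i2 _), key, key]

/-- The integral of a derivative. -/
theorem integral_dd {f : ℂ → ℝ} (hf : ContDiff ℝ 1 f) (hc : HasCompactSupport f) (v : ℂ) :
    ∫ z, dv v f z = 0 := by
  have h := parts (D := univ) (f := fun _ => (1 : ℝ)) isOpen_univ contDiffOn_const hf hc
    (subset_univ _) v
  simpa [dd_const] using h

end Parts

end Pool.Agent.Lib.QNL.Calc
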