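import Pool.Agent.Lib.QNL.OStmts
import Pool.Agent.Lib.QNL.Calc

/-!
QNL, group O: mean value inequalities on circles.

`mean_smooth`: a `C²` function with `Δ g ≤ b` in a closed disc; `mean_weak`: the weak form for
continuous functions; `cv`: mollification.
-/

set_option autoImplicit false

namespace Pool.Agent.Lib.QNL.O.Mean

open MeasureTheory Filter Topology Set
open scoped ContDiff Real
open Pool.Agent.Lib.QNL

/-- differentiation under the integral sign, continuous version -/
theorem hasDerivAt_int {F F' : ℝ → ℝ → ℝ} (hF : Continuous (Function.uncurry F))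
    (hF' : Continuous (Function.uncurry F'))
    (hd : ∀ s t, HasDerivAt (fun s => F s t) (F' s t) s) (a b s : ℝ) :
    HasDerivAt (fun s => ∫ t in a..b, F s t) (∫ t in a..b, F' s t) s := by
  have hc : ∀ s, Continuous (F s) := fun s => hF.comp (Continuous.prodMk_right s)
  have hc' : ∀ s, Continuous (F' s) := fun s => hF'.comp (Continuous.prodMk_right s)
  obtain ⟨C, hC⟩ := ((isCompact_closedBall s 1).prod (isCompact_uIcc (a := a) (b := b))).exists_bound_of_continuousOn
    hF'.continuousOn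
  refine (intervalIntegral.hasDerivAt_integral_of_dominated_loc_of_deriv_le
    (F := F) (F' := F') (bound := fun _ => C) (Metric.ball_mem_nhds s one_pos)
    (Eventually.of_forall fun x => (hc x).aestronglyMeasurable) ((hc s).intervalIntegrable a b)
    (hc' s).aestronglyMeasurable ?_ intervalIntegrable_const ?_).2
  · refine Eventually.of_forall fun t ht x hx => ?_
    exact hC (x, t) ⟨Metric.ball_subset_closedBall hx, uIoc_subset_uIcc ht⟩
  · exact Eventually.of_forall fun t _ x _ => hd x t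

section smooth

variable {g : ℂ → ℝ}

theorem contDiff_dv {n m : WithTop ℕ∞} (hg : ContDiff ℝ n g) (h : m + 1 ≤ n) (v : ℂ) :
    ContDiff ℝ m (dv v g) := (hg.fderiv_right h).clm_apply contDiff_const

/-- `D² g (v, w)` -/
theorem dv_dv_eq (hg : ContDiff ℝ 2 g) (v w z : ℂ) :
    dv v (dv w g) z = fderiv ℝ (fderiv ℝ g) z v w := by
  have hd : DifferentiableAt ℝ (fderiv ℝ g) z :=
    ((hg.fderiv_right (m := 1) (by norm_num)).differentiable (by norm_num)) z
  unfold dv
  rw [fderiv_clm_apply hd (differentiableAt_const w)]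
  simp

/-- the Laplacian in the frame `(e, i e)`, `|e| = 1` -/
theorem lap_frame (hg : ContDiff ℝ 2 g) (z e : ℂ) (he : ‖e‖ = 1) :
    lap g z = fderiv ℝ (fderiv ℝ g) z e e
      + fderiv ℝ (fderiv ℝ g) z (Complex.I * e) (Complex.I * e) := by
  have h1 : lap g z = fderiv ℝ (fderiv ℝ g) z 1 1 + fderiv ℝ (fderiv ℝ g) z Complex.I Complex.I := by
    rw [← dv_dv_eq hg, ← dv_dv_eq hg]
    rfl
  have hs : fderiv ℝ (fderiv ℝ g) z 1 Complex.I = fderiv ℝ (fderiv ℝ g) z Complex.I 1 := by
    rw [← dv_dv_eq hg, ← dv_dv_eq hg]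
    exact dv_comm isOpen_univ hg.contDiffOn (mem_univ z) _ _
  have he2 : e.re ^ 2 + e.im ^ 2 = 1 := by
    have := Complex.sq_norm e
    rw [he, Complex.normSq_apply] at this
    nlinarith
  have e1 : e = (e.re : ℝ) • (1 : ℂ) + (e.im : ℝ) • Complex.I := by
    apply Complex.ext <;> simp
  have e2 : Complex.I * e = (-e.im : ℝ) • (1 : ℂ) + (e.re : ℝ) • Complex.I := by
    apply Complex.ext <;> simp
  rw [h1, e2, e1]
  generalize e.re = p at *
  generalize e.im = q at *
  simp only [map_add, map_smul, add_apply, smul_apply, smul_eq_mul, Complex.add_re, Complex.smul_re,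
    Complex.one_re, Complex.I_re, Complex.add_im, Complex.smul_im, Complex.one_im, Complex.I_im,
    mul_zero, mul_one, add_zero, zero_add, hs]
  generalize fderiv ℝ (fderiv ℝ g) z 1 1 = A
  generalize fderiv ℝ (fderiv ℝ g) z Complex.I 1 = B
  generalize fderiv ℝ (fderiv ℝ g) z Complex.I Complex.I = D
  linear_combination (- (A + D)) * he2

/-- the unit vector -/
noncomputable def ee (θ : ℝ) : ℂ := Complex.exp (θ * Complex.I)

theorem norm_ee (θ : ℝ) : ‖ee θ‖ = 1 := Complex.norm_exp_ofReal_mul_I θ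

theorem continuous_ee : Continuous ee := by unfold ee; fun_prop

theorem hasDerivAt_ee (θ : ℝ) : HasDerivAt ee (Complex.I * ee θ) θ := by
  have h0 : HasDerivAt (fun θ : ℝ => (θ : ℂ) * Complex.I) (1 * Complex.I) θ :=
    (hasDerivAt_id θ).ofReal_comp.mul_const Complex.I
  have h : HasDerivAt (fun θ : ℝ => Complex.exp (θ * Complex.I))
      (Complex.exp (θ * Complex.I) * (1 * Complex.I)) θ := h0.cexp
  rw [one_mul, mul_comm] at h
  exact h

theorem ee_two_pi : ee (2 * π) = ee 0 := by
  unfold ee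
  have := Complex.exp_two_pi_mul_I
  push_cast
  rw [this]
  simp

theorem hasDerivAt_s (x : ℂ) (s θ : ℝ) :
    HasDerivAt (fun s : ℝ => x + (s : ℂ) * ee θ) (ee θ) s := by
  have h := ((hasDerivAt_id s).ofReal_comp.mul_const (ee θ)).const_add x
  simpa using h

theorem hasDerivAt_t (x : ℂ) (s θ : ℝ) :
    HasDerivAt (fun θ : ℝ => x + (s : ℂ) * ee θ) ((s : ℂ) * (Complex.I * ee θ)) θ := by
  simpa using ((hasDerivAt_ee θ).const_mul (s : ℂ)).const_add x

variable (g) in
/-- the radial derivative -/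
noncomputable def pp (x : ℂ) (s θ : ℝ) : ℝ := fderiv ℝ g (x + s * ee θ) (ee θ)

variable (g) in
/-- the second derivative on the circle -/
noncomputable def qq (x v : ℂ) (s θ : ℝ) : ℝ :=
  fderiv ℝ (fderiv ℝ g) (x + s * ee θ) (v * ee θ) (v * ee θ)

theorem cont_pp (hg : ContDiff ℝ 2 g) (x : ℂ) : Continuous (Function.uncurry (pp g x)) := by
  have h1 : Continuous (fderiv ℝ g) := hg.continuous_fderiv (by norm_num)
  unfold pp Function.uncurry
  have h2 : Continuous fun p : ℝ × ℝ => x + (p.1 : ℂ) * ee p.2 := by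
    have := continuous_ee
    fun_prop
  exact (h1.comp h2).clm_apply (continuous_ee.comp continuous_snd)

theorem cont_qq (hg : ContDiff ℝ 2 g) (x v : ℂ) : Continuous (Function.uncurry (qq g x v)) := by
  have h1 : Continuous (fderiv ℝ (fderiv ℝ g)) :=
    (hg.fderiv_right (m := 1) (by norm_num)).continuous_fderiv (by norm_num)
  unfold qq Function.uncurry
  have h2 : Continuous fun p : ℝ × ℝ => x + (p.1 : ℂ) * ee p.2 := by
    have := continuous_ee
    fun_prop
  have h3 : Continuous fun p : ℝ × ℝ => v * ee p.2 := by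
    have := continuous_ee
    fun_prop
  exact ((h1.comp h2).clm_apply h3).clm_apply h3

theorem hasDerivAt_A (hg : ContDiff ℝ 2 g) (x : ℂ) (s θ : ℝ) :
    HasDerivAt (fun s : ℝ => g (x + s * ee θ)) (pp g x s θ) s := by
  have h1 : HasFDerivAt g (fderiv ℝ g (x + s * ee θ)) (x + s * ee θ) :=
    ((hg.differentiable (by norm_num)) _).hasFDerivAt
  exact h1.comp_hasDerivAt s (hasDerivAt_s x s θ)

theorem hasDerivAt_p (hg : ContDiff ℝ 2 g) (x : ℂ) (s θ : ℝ) :
    HasDerivAt (fun s : ℝ => pp g x s θ) (qq g x 1 s θ) s := by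
  have hd : HasFDerivAt (fderiv ℝ g) (fderiv ℝ (fderiv ℝ g) (x + s * ee θ)) (x + s * ee θ) :=
    (((hg.fderiv_right (m := 1) (by norm_num)).differentiable (by norm_num)) _).hasFDerivAt
  have h0 : HasDerivAt (fun s : ℝ => fderiv ℝ g (x + (s : ℂ) * ee θ))
      (fderiv ℝ (fderiv ℝ g) (x + s * ee θ) (ee θ)) s :=
    hd.comp_hasDerivAt s (hasDerivAt_s x s θ)
  have h1 : HasDerivAt (fun s : ℝ => fderiv ℝ g (x + (s : ℂ) * ee θ) (ee θ))
      (fderiv ℝ (fderiv ℝ g) (x + s * ee θ) (ee θ) (ee θ) + fderiv ℝ g (x + s * ee θ) 0) s :=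
    h0.clm_apply (hasDerivAt_const s (ee θ))
  rw [map_zero, add_zero] at h1
  have e : qq g x 1 s θ = fderiv ℝ (fderiv ℝ g) (x + s * ee θ) (ee θ) (ee θ) := by
    unfold qq
    rw [one_mul]
  rw [e]
  exact h1

theorem hasDerivAt_q (hg : ContDiff ℝ 2 g) (x : ℂ) (s θ : ℝ) :
    HasDerivAt (fun θ : ℝ => fderiv ℝ g (x + s * ee θ) (Complex.I * ee θ))
      (s * qq g x Complex.I s θ - pp g x s θ) θ := by
  have hd : HasFDerivAt (fderiv ℝ g) (fderiv ℝ (fderiv ℝ g) (x + s * ee θ)) (x + s * ee θ) :=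
    (((hg.fderiv_right (m := 1) (by norm_num)).differentiable (by norm_num)) _).hasFDerivAt
  have e1 : (s : ℂ) * (Complex.I * ee θ) = s • (Complex.I * ee θ) := by simp
  have e2 : Complex.I * (Complex.I * ee θ) = - ee θ := by
    rw [← mul_assoc, Complex.I_mul_I]; ring
  have h0 : HasDerivAt (fun θ : ℝ => fderiv ℝ g (x + (s : ℂ) * ee θ))
      (fderiv ℝ (fderiv ℝ g) (x + s * ee θ) ((s : ℂ) * (Complex.I * ee θ))) θ :=
    hd.comp_hasDerivAt θ (hasDerivAt_t x s θ)
  have h1 : HasDerivAt (fun θ : ℝ => fderiv ℝ g (x + (s : ℂ) * ee θ) (Complex.I * ee θ))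
      (fderiv ℝ (fderiv ℝ g) (x + s * ee θ) ((s : ℂ) * (Complex.I * ee θ)) (Complex.I * ee θ)
        + fderiv ℝ g (x + s * ee θ) (Complex.I * (Complex.I * ee θ))) θ :=
    h0.clm_apply ((hasDerivAt_ee θ).const_mul Complex.I)
  rw [e1, e2, map_smul, map_neg] at h1
  have e : s * qq g x Complex.I s θ - pp g x s θ =
      (s • fderiv ℝ (fderiv ℝ g) (x + s * ee θ) (Complex.I * ee θ)) (Complex.I * ee θ)
        + -fderiv ℝ g (x + s * ee θ) (ee θ) := by
    unfold qq pp
    rfl
  rw [e]
  exact h1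

theorem int_p (hg : ContDiff ℝ 2 g) (x : ℂ) (s : ℝ) :
    ∫ θ in (0 : ℝ)..2 * π, pp g x s θ = s * ∫ θ in (0 : ℝ)..2 * π, qq g x Complex.I s θ := by
  have c1 : Continuous (fun θ => qq g x Complex.I s θ) :=
    (cont_qq hg x Complex.I).comp (Continuous.prodMk_right s)
  have c2 : Continuous (fun θ => pp g x s θ) := (cont_pp hg x).comp (Continuous.prodMk_right s)
  have h := intervalIntegral.integral_eq_sub_of_hasDerivAt (a := 0) (b := 2 * π)
    (fun θ _ => hasDerivAt_q hg x s θ)
    (((continuous_const.mul c1).sub c2).intervalIntegrable _ _)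
  have i1 : IntervalIntegrable (fun θ => s * qq g x Complex.I s θ) volume 0 (2 * π) :=
    (continuous_const.mul c1).intervalIntegrable _ _
  rw [ee_two_pi, sub_self, intervalIntegral.integral_sub i1 (c2.intervalIntegrable _ _),
    intervalIntegral.integral_const_mul] at h
  linarith

theorem hasDerivAt_J (hg : ContDiff ℝ 2 g) (x : ℂ) (s : ℝ) :
    HasDerivAt (fun s : ℝ => ∫ θ in (0 : ℝ)..2 * π, s * pp g x s θ)
      (s * ∫ θ in (0 : ℝ)..2 * π, lap g (x + s * ee θ)) s := by
  have c1 : Continuous (Function.uncurry fun s θ : ℝ => s * pp g x s θ) :=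
    continuous_fst.mul (cont_pp hg x)
  have c2 : Continuous (Function.uncurry fun s θ : ℝ => pp g x s θ + s * qq g x 1 s θ) :=
    (cont_pp hg x).add (continuous_fst.mul (cont_qq hg x 1))
  have h := hasDerivAt_int c1 c2 (fun s θ => by
    have h1 : HasDerivAt (fun s : ℝ => s * pp g x s θ) (1 * pp g x s θ + s * qq g x 1 s θ) s :=
      (hasDerivAt_id s).mul (hasDerivAt_p hg x s θ)
    rwa [one_mul] at h1) 0 (2 * π) s
  convert h using 1
  have d1 : Continuous (fun θ => qq g x Complex.I s θ) :=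
    (cont_qq hg x Complex.I).comp (Continuous.prodMk_right s)
  have d3 : Continuous (fun θ => qq g x 1 s θ) :=
    (cont_qq hg x 1).comp (Continuous.prodMk_right s)
  have d2 : Continuous (fun θ => pp g x s θ) := (cont_pp hg x).comp (Continuous.prodMk_right s)
  have i1 : IntervalIntegrable (fun θ => s * qq g x 1 s θ) volume 0 (2 * π) :=
    (continuous_const.mul d3).intervalIntegrable _ _
  rw [intervalIntegral.integral_add (d2.intervalIntegrable _ _) i1, int_p hg x s,
    intervalIntegral.integral_const_mul, ← mul_add, ← intervalIntegral.integral_add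
    (d1.intervalIntegrable _ _) (d3.intervalIntegrable _ _)]
  congr 1
  refine intervalIntegral.integral_congr fun θ _ => ?_
  simp only [lap_frame hg (x + s * ee θ) (ee θ) (norm_ee θ), qq, one_mul]
  ring

theorem hasDerivAt_I (hg : ContDiff ℝ 2 g) (x : ℂ) (s : ℝ) :
    HasDerivAt (fun s : ℝ => ∫ θ in (0 : ℝ)..2 * π, g (x + s * ee θ))
      (∫ θ in (0 : ℝ)..2 * π, pp g x s θ) s := by
  have c1 : Continuous (Function.uncurry fun s θ : ℝ => g (x + s * ee θ)) := by
    have h2 : Continuous fun p : ℝ × ℝ => x + (p.1 : ℂ) * ee p.2 := by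
      have := continuous_ee
      fun_prop
    exact hg.continuous.comp h2
  exact hasDerivAt_int c1 (cont_pp hg x) (fun s θ => hasDerivAt_A hg x s θ) 0 (2 * π) s

/-- mean value inequality for `C²` functions with `Δ g ≤ b` in the closed disc -/
theorem mean_smooth (hg : ContDiff ℝ 2 g) {x : ℂ} {r b : ℝ} (hr : 0 ≤ r)
    (hb : ∀ z ∈ Metric.closedBall x r, lap g z ≤ b) :
    Real.circleAverage g x r ≤ g x + b * r ^ 2 / 4 := by
  have hpi := Real.pi_pos
  have mem : ∀ s θ : ℝ, 0 ≤ s → s ≤ r → x + s * ee θ ∈ Metric.closedBall x r := by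
    intro s θ h0 h1
    rw [Metric.mem_closedBall, dist_eq_norm]
    simp [norm_ee, abs_of_nonneg h0, h1]
  have clap : Continuous (lap g) := by
    have h1 : Continuous (fderiv ℝ (fderiv ℝ g)) :=
      (hg.fderiv_right (m := 1) (by norm_num)).continuous_fderiv (by norm_num)
    have : lap g = fun z => fderiv ℝ (fderiv ℝ g) z 1 1
        + fderiv ℝ (fderiv ℝ g) z Complex.I Complex.I := by
      funext z
      rw [← dv_dv_eq hg, ← dv_dv_eq hg]
      rfl
    rw [this]
    exact ((h1.clm_apply continuous_const).clm_apply continuous_const).add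
      ((h1.clm_apply continuous_const).clm_apply continuous_const)
  have ccirc : ∀ s : ℝ, Continuous fun θ : ℝ => x + (s : ℂ) * ee θ := by
    intro s
    have := continuous_ee
    fun_prop
  -- `J s ≤ π b s²`
  have hJ : ∀ s ∈ Icc 0 r, ∫ θ in (0 : ℝ)..2 * π, s * pp g x s θ ≤ π * b * s ^ 2 := by
    intro s hs
    have hanti : AntitoneOn (fun s : ℝ => (∫ θ in (0 : ℝ)..2 * π, s * pp g x s θ) - π * b * s ^ 2)
        (Icc 0 r) := by
      have hd : ∀ s : ℝ, HasDerivAt (fun s : ℝ => (∫ θ in (0 : ℝ)..2 * π, s * pp g x s θ)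
          - π * b * s ^ 2) (s * (∫ θ in (0 : ℝ)..2 * π, lap g (x + s * ee θ)) - π * b * (2 * s)) s := by
        intro s
        have h2 := ((hasDerivAt_id s).pow 2).const_mul (π * b)
        exact (hasDerivAt_J hg x s).sub (by simpa using h2)
      refine antitoneOn_of_deriv_nonpos (convex_Icc 0 r)
        (fun s _ => (hd s).continuousAt.continuousWithinAt)
        (fun s _ => (hd s).differentiableAt.differentiableWithinAt) fun s hs => ?_
      rw [interior_Icc] at hs
      rw [(hd s).deriv]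
      have : ∫ θ in (0 : ℝ)..2 * π, lap g (x + s * ee θ) ≤ ∫ θ in (0 : ℝ)..2 * π, b :=
        intervalIntegral.integral_mono_on (by positivity)
          ((clap.comp (ccirc s)).intervalIntegrable _ _)
          intervalIntegrable_const fun θ _ => hb _ (mem s θ hs.1.le hs.2.le)
      rw [intervalIntegral.integral_const, smul_eq_mul, sub_zero] at this
      nlinarith [mul_le_mul_of_nonneg_left this hs.1.le]
    have h := hanti (left_mem_Icc.2 hr) hs hs.1
    simp only [zero_mul, intervalIntegral.integral_zero] at h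
    nlinarith
  have hI : ∫ θ in (0 : ℝ)..2 * π, g (x + r * ee θ) ≤ 2 * π * g x + π * b * r ^ 2 / 2 := by
    have hanti : AntitoneOn (fun s : ℝ => (∫ θ in (0 : ℝ)..2 * π, g (x + s * ee θ))
        - π * b * s ^ 2 / 2) (Icc 0 r) := by
      have hd : ∀ s : ℝ, HasDerivAt (fun s : ℝ => (∫ θ in (0 : ℝ)..2 * π, g (x + s * ee θ))
          - π * b * s ^ 2 / 2) ((∫ θ in (0 : ℝ)..2 * π, pp g x s θ) - π * b * s) s := by
        intro s
        have h3 : HasDerivAt (fun s : ℝ => π * b * s ^ 2 / 2) (π * b * s) s := by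
          have h2 : HasDerivAt (fun s : ℝ => π * b * s ^ 2 / 2)
              (π * b * (((2 : ℕ) : ℝ) * s ^ (2 - 1)) / 2) s :=
            ((hasDerivAt_pow 2 s).const_mul (π * b)).div_const 2
          have e : π * b * (((2 : ℕ) : ℝ) * s ^ (2 - 1)) / 2 = π * b * s := by
            rw [show (2 : ℕ) - 1 = 1 from rfl, pow_one, Nat.cast_ofNat]
            ring
          rwa [e] at h2
        exact (hasDerivAt_I hg x s).sub h3
      refine antitoneOn_of_deriv_nonpos (convex_Icc 0 r)
        (fun s _ => (hd s).continuousAt.continuousWithinAt)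
        (fun s _ => (hd s).differentiableAt.differentiableWithinAt) fun s hs => ?_
      rw [interior_Icc] at hs
      rw [(hd s).deriv]
      have h1 := hJ s ⟨hs.1.le, hs.2.le⟩
      rw [intervalIntegral.integral_const_mul] at h1
      have h2 : s * ((∫ θ in (0 : ℝ)..2 * π, pp g x s θ) - π * b * s) ≤ 0 := by nlinarith
      by_contra hcon
      push Not at hcon
      nlinarith [mul_pos hs.1 hcon]
    have h := hanti (left_mem_Icc.2 hr) (right_mem_Icc.2 hr) hr
    simp only [Complex.ofReal_zero, zero_mul, add_zero, intervalIntegral.integral_const, sub_zero,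
      smul_eq_mul] at h
    nlinarith
  have hav : Real.circleAverage g x r = (2 * π)⁻¹ * ∫ θ in (0 : ℝ)..2 * π, g (x + r * ee θ) := by
    rw [Real.circleAverage_def]
    rfl
  rw [hav]
  have h2 : (0 : ℝ) < (2 * π)⁻¹ := by positivity
  calc (2 * π)⁻¹ * ∫ θ in (0 : ℝ)..2 * π, g (x + r * ee θ)
      ≤ (2 * π)⁻¹ * (2 * π * g x + π * b * r ^ 2 / 2) := mul_le_mul_of_nonneg_left hI h2.le
    _ = g x + b * r ^ 2 / 4 := by field_simp; ring

end smooth

section moll

variable {f ρ : ℂ → ℝ}

/-- the convolution `∫ f t * ρ (z - t) dt` -/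
noncomputable def cv (f ρ : ℂ → ℝ) (z : ℂ) : ℝ := ∫ t, f t * ρ (z - t)

theorem cv_eq (f ρ : ℂ → ℝ) :
    cv f ρ = convolution f ρ (ContinuousLinearMap.mul ℝ ℝ) volume := rfl

theorem contDiff_cv (hf : LocallyIntegrable f) (hρ : ContDiff ℝ ∞ ρ) (hc : HasCompactSupport ρ) :
    ContDiff ℝ ∞ (cv f ρ) := by
  rw [cv_eq]
  exact hc.contDiff_convolution_right _ hf hρ

theorem dv_cv (hf : LocallyIntegrable f) (hρ : ContDiff ℝ ∞ ρ) (hc : HasCompactSupport ρ) (v z : ℂ) :
    dv v (cv f ρ) z = cv f (dv v ρ) z := by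
  rw [cv_eq, cv_eq]
  unfold dv
  rw [(hc.hasFDerivAt_convolution_right (ContinuousLinearMap.mul ℝ ℝ) hf (hρ.of_le (by simp)) z).fderiv,
    convolution_precompR_apply (ContinuousLinearMap.mul ℝ ℝ) hf (hc.fderiv ℝ)
      (hρ.continuous_fderiv (by simp))]

theorem contDiff_dv_top (hρ : ContDiff ℝ ∞ ρ) (v : ℂ) : ContDiff ℝ ∞ (dv v ρ) :=
  (hρ.fderiv_right (m := ∞) (by simp)).clm_apply contDiff_const

theorem lap_cv (hf : LocallyIntegrable f) (hρ : ContDiff ℝ ∞ ρ) (hc : HasCompactSupport ρ) (z : ℂ) :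
    lap (cv f ρ) z = ∫ t, f t * lap ρ (z - t) := by
  have h1 : ∀ v : ℂ, dv v (dv v (cv f ρ)) z = cv f (dv v (dv v ρ)) z := by
    intro v
    rw [show dv v (cv f ρ) = cv f (dv v ρ) from funext fun z => dv_cv hf hρ hc v z]
    exact dv_cv hf (contDiff_dv_top hρ v) (Calc.HasCompactSupport.dv hc v) v z
  have hi : ∀ v : ℂ, Integrable (fun t => f t * dv v (dv v ρ) (z - t)) := by
    intro v
    have h2 : HasCompactSupport (dv v (dv v ρ)) :=
      Calc.HasCompactSupport.dv (Calc.HasCompactSupport.dv hc v) v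
    have h3 : Continuous (dv v (dv v ρ)) := (contDiff_dv_top (contDiff_dv_top hρ v) v).continuous
    exact (h2.convolutionExists_right (ContinuousLinearMap.mul ℝ ℝ) hf h3 z)
  calc lap (cv f ρ) z = dv 1 (dv 1 (cv f ρ)) z + dv Complex.I (dv Complex.I (cv f ρ)) z := rfl
    _ = (∫ t, f t * dv 1 (dv 1 ρ) (z - t)) + ∫ t, f t * dv Complex.I (dv Complex.I ρ) (z - t) := by
        rw [h1, h1]; rfl
    _ = ∫ t, f t * lap ρ (z - t) := by
        rw [← integral_add (hi 1) (hi Complex.I)]
        refine integral_congr_ae (Eventually.of_forall fun t => ?_)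
        simp only [lap, dx_eq, dy_eq]
        ring

theorem dv_refl {ρ : ℂ → ℝ} (hρ : Differentiable ℝ ρ) (z v t : ℂ) :
    dv v (fun t => ρ (z - t)) t = - dv v ρ (z - t) := by
  have h1 : HasFDerivAt (fun t : ℂ => z - t) (-(ContinuousLinearMap.id ℝ ℂ)) t := by
    simpa using (hasFDerivAt_id (𝕜 := ℝ) t).const_sub z
  have h2 : HasFDerivAt (fun t => ρ (z - t))
      ((fderiv ℝ ρ (z - t)).comp (-(ContinuousLinearMap.id ℝ ℂ))) t :=
    (hρ (z - t)).hasFDerivAt.comp t h1
  unfold dv
  rw [h2.fderiv]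
  simp

theorem lap_refl {ρ : ℂ → ℝ} (hρ : ContDiff ℝ ∞ ρ) (z t : ℂ) :
    lap (fun t => ρ (z - t)) t = lap ρ (z - t) := by
  have h1 : ∀ v : ℂ, dv v (dv v fun t => ρ (z - t)) t = dv v (dv v ρ) (z - t) := by
    intro v
    have e : (dv v fun t => ρ (z - t)) = fun t => - dv v ρ (z - t) :=
      funext fun t => dv_refl (hρ.differentiable (by simp)) z v t
    rw [e, dv_neg, dv_refl ((contDiff_dv_top hρ v).differentiable (by simp)), neg_neg]
  simp only [lap, dx_eq, dy_eq, h1]

theorem tst_refl {ρ : ℂ → ℝ} (hρ : Tst ρ) (z : ℂ) : Tst (fun t => ρ (z - t)) := by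
  refine ⟨hρ.1.comp (contDiff_const.sub contDiff_id), ?_⟩
  exact hρ.2.comp_homeomorph (Homeomorph.subLeft z)

theorem tsupport_refl {ρ : ℂ → ℝ} {δ : ℝ} (hs : tsupport ρ ⊆ Metric.closedBall 0 δ) (z : ℂ) :
    tsupport (fun t => ρ (z - t)) ⊆ Metric.closedBall z δ := by
  refine closure_minimal ?_ Metric.isClosed_closedBall
  intro t ht
  have h1 : z - t ∈ tsupport ρ := subset_tsupport _ ht
  have h2 := hs h1
  rw [mem_closedBall_zero_iff] at h2
  rw [Metric.mem_closedBall, dist_comm, dist_eq_norm]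
  exact h2

/-- a mollifier with support in the ball of radius `δ` -/
theorem exists_moll {δ : ℝ} (hδ : 0 < δ) : ∃ ρ : ℂ → ℝ, Tst ρ ∧ (∀ x, 0 ≤ ρ x) ∧
    tsupport ρ ⊆ Metric.closedBall 0 δ ∧ ∫ x, ρ x = 1 ∧ ∀ x, ρ (-x) = ρ x := by
  let φ : ContDiffBump (0 : ℂ) := ⟨δ / 2, δ, half_pos hδ, half_lt_self hδ⟩
  refine ⟨φ.normed volume, ⟨φ.contDiff_normed (n := ⊤), φ.hasCompactSupport_normed⟩,
    φ.nonneg_normed, ?_, φ.integral_normed, φ.normed_neg⟩
  rw [φ.tsupport_normed_eq]

theorem integral_refl (ρ : ℂ → ℝ) (z : ℂ) : ∫ t, ρ (z - t) = ∫ t, ρ t :=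
  integral_sub_left_eq_self ρ volume z

/-- closeness of the mollification -/
theorem cv_close (hf : Continuous f) (hρ : Tst ρ) (h0 : ∀ x, 0 ≤ ρ x) {δ ε : ℝ}
    (hs : tsupport ρ ⊆ Metric.closedBall 0 δ) (h1 : ∫ x, ρ x = 1) {z : ℂ}
    (hz : ∀ t ∈ Metric.closedBall z δ, |f t - f z| ≤ ε) : |cv f ρ z - f z| ≤ ε := by
  have hi : Integrable fun t => f t * ρ (z - t) := by
    have hc : HasCompactSupport fun t => f t * ρ (z - t) :=
      (tst_refl hρ z).2.mul_left
    exact (hf.mul (tst_refl hρ z).1.continuous).integrable_of_hasCompactSupport hc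
  have hi2 : Integrable fun t => ρ (z - t) :=
    (tst_refl hρ z).1.continuous.integrable_of_hasCompactSupport (tst_refl hρ z).2
  have e1 : cv f ρ z - f z = ∫ t, (f t - f z) * ρ (z - t) := by
    have : f z = ∫ t, f z * ρ (z - t) := by
      rw [integral_const_mul, integral_refl, h1, mul_one]
    unfold cv
    rw [this, ← integral_sub hi (hi2.const_mul _), ← this]
    refine integral_congr_ae (Eventually.of_forall fun t => ?_)
    ring
  rw [e1]
  have e2 : ‖∫ t, (f t - f z) * ρ (z - t)‖ ≤ ∫ t, ε * ρ (z - t) := by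
    refine norm_integral_le_of_norm_le (hi2.const_mul _) (Eventually.of_forall fun t => ?_)
    by_cases ht : t ∈ Metric.closedBall z δ
    · rw [norm_mul, Real.norm_eq_abs, Real.norm_eq_abs, abs_of_nonneg (h0 _)]
      exact mul_le_mul_of_nonneg_right (hz t ht) (h0 _)
    · have : (fun t => ρ (z - t)) t = 0 :=
        image_eq_zero_of_notMem_tsupport (f := fun t => ρ (z - t)) (x := t)
          fun h => ht (tsupport_refl hs z h)
      simp only at this
      rw [this]
      simp
  rw [integral_const_mul, integral_refl, h1, mul_one, Real.norm_eq_abs] at e2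
  exact e2

/-- **the mean value inequality** for continuous functions with `Δ f ≤ b` weakly in `O` -/
theorem mean_weak {O : Set ℂ} {f : ℂ → ℝ} {b : ℝ} (hO : IsOpen O) (hf : Continuous f)
    (hw : ∀ φ, Tst φ → tsupport φ ⊆ O → (∀ x, 0 ≤ φ x) → ∫ x, f x * lap φ x ≤ b * ∫ x, φ x)
    {x : ℂ} {r : ℝ} (hr : 0 < r) (hsub : Metric.closedBall x r ⊆ O) :
    Real.circleAverage f x r ≤ f x + b * r ^ 2 / 4 := by
  refine le_of_forall_pos_le_add fun ε hε => ?_
  obtain ⟨δ₁, hδ₁, hδO⟩ := (isCompact_closedBall x r).exists_cthickening_subset_open hO hsub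
  -- uniform continuity
  have hu : UniformContinuousOn f (Metric.closedBall x (r + 1)) :=
    (isCompact_closedBall x (r + 1)).uniformContinuousOn_of_continuous hf.continuousOn
  obtain ⟨δ₂, hδ₂, hδf⟩ := Metric.uniformContinuousOn_iff.1 hu (ε / 2) (half_pos hε)
  set δ : ℝ := min (min δ₁ (δ₂ / 2)) 1 with hδdef
  have hδ : 0 < δ := by positivity
  have hδ1 : δ ≤ δ₁ := (min_le_left _ _).trans (min_le_left _ _)
  have hδ2 : δ < δ₂ := by
    have : δ ≤ δ₂ / 2 := (min_le_left _ _).trans (min_le_right _ _)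
    linarith
  have hδ3 : δ ≤ 1 := min_le_right _ _
  obtain ⟨ρ, hρ, h0, hs, h1, -⟩ := exists_moll hδ
  have hclose : ∀ z ∈ Metric.closedBall x r, |cv f ρ z - f z| ≤ ε / 2 := by
    intro z hz
    refine cv_close hf hρ h0 hs h1 fun t ht => ?_
    rw [Metric.mem_closedBall] at hz ht
    have h := hδf t (by
      rw [Metric.mem_closedBall]
      linarith [dist_triangle t z x]) z (by
      rw [Metric.mem_closedBall]
      linarith) (by linarith)
    rw [Real.dist_eq] at h
    exact h.le
  have hlap : ∀ z ∈ Metric.closedBall x r, lap (cv f ρ) z ≤ b := by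
    intro z hz
    rw [lap_cv hf.locallyIntegrable hρ.1 hρ.2]
    have h := hw (fun t => ρ (z - t)) (tst_refl hρ z) (by
      refine (tsupport_refl hs z).trans (Subset.trans ?_ hδO)
      refine Subset.trans ?_ (Metric.closedBall_subset_cthickening hz _)
      exact Metric.closedBall_subset_closedBall hδ1) (fun t => h0 _)
    simp only [lap_refl hρ.1, integral_refl, h1, mul_one] at h
    exact h
  have hm := mean_smooth ((contDiff_cv hf.locallyIntegrable hρ.1 hρ.2).of_le
    (by norm_cast)) hr.le hlap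
  have hcf : Real.circleAverage f x r ≤ Real.circleAverage (fun z => cv f ρ z + ε / 2) x r := by
    refine Real.circleAverage_mono hf.continuousOn.circleIntegrable' ?_ ?_
    · exact ((contDiff_cv hf.locallyIntegrable hρ.1 hρ.2).continuous.add
        continuous_const).continuousOn.circleIntegrable'
    · intro z hz
      rw [abs_of_pos hr] at hz
      have := abs_le.1 (hclose z (Metric.sphere_subset_closedBall hz))
      linarith [this.1]
  have hadd : Real.circleAverage (fun z => cv f ρ z + ε / 2) x r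
      = Real.circleAverage (cv f ρ) x r + ε / 2 := by
    rw [Real.circleAverage_fun_add]
    · rw [Real.circleAverage_const]
    · exact (contDiff_cv hf.locallyIntegrable hρ.1 hρ.2).continuous.continuousOn.circleIntegrable'
    · exact continuousOn_const.circleIntegrable'
  have hx := abs_le.1 (hclose x (Metric.mem_closedBall_self hr.le))
  linarith [hx.2]

end moll

end Pool.Agent.Lib.QNL.O.Mean
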