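import Pool.Agent.Lib.QNL.OStmts

/-!
QNL, module O-G0: if `|t z - t w| ≤ K |z - w|²` on a set `W` of the plane, then `t(W)` is a null
set of the line.
-/

set_option autoImplicit false

namespace Pool.Agent.Lib.QNL.O

open MeasureTheory Filter Topology Set Metric
open scoped ContDiff ENNReal NNReal

namespace Sard2_

/-- the two-dimensional Hausdorff measure of the plane -/
lemma hausdorff_le (A : Set ℂ) : Measure.hausdorffMeasure (2 : ℝ) A ≤ 4 * volume A := by
  set e := Complex.measurableEquivPi with he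
  have hL : LipschitzWith 2 (e.symm : (Fin 2 → ℝ) → ℂ) := by
    refine LipschitzWith.of_dist_le_mul fun p q => ?_
    rw [dist_eq_norm, dist_eq_norm]
    have h1 : e.symm p - e.symm q = (((p - q) 0 : ℝ) : ℂ) + (((p - q) 1 : ℝ) : ℂ) * Complex.I := by
      rw [he, Complex.measurableEquivPi_symm_apply, Complex.measurableEquivPi_symm_apply]
      simp only [Pi.sub_apply]
      push_cast
      ring
    rw [h1]
    refine (norm_add_le _ _).trans ?_
    rw [norm_mul, Complex.norm_I, mul_one, Complex.norm_real, Complex.norm_real]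
    have h2 := norm_le_pi_norm (p - q) 0
    have h3 := norm_le_pi_norm (p - q) 1
    simp only [NNReal.coe_ofNat]
    linarith
  have h1 : (e.symm : (Fin 2 → ℝ) → ℂ) '' (e '' A) = A := by
    rw [← image_comp]
    have : ((e.symm : (Fin 2 → ℝ) → ℂ) ∘ e) = id := by
      funext x
      simp
    rw [this, image_id]
  have h2 := hL.hausdorffMeasure_image_le (d := 2) (by norm_num) (e '' A)
  rw [h1] at h2
  refine h2.trans ?_
  have h3 : (Measure.hausdorffMeasure (2 : ℝ) : Measure (Fin 2 → ℝ)) = volume := by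
    have := hausdorffMeasure_pi_real (ι := Fin 2)
    simpa using this
  rw [h3]
  have h4 : volume (e '' A) = volume A := by
    have h5 := Complex.volume_preserving_equiv_pi.symm
    have h6 : (e '' A) = (e.symm) ⁻¹' A := by
      rw [MeasurableEquiv.image_eq_preimage_symm]
    rw [h6]
    exact h5.measure_preimage_equiv A
  rw [h4]
  have h7 : ((2 : ℝ≥0) : ℝ≥0∞) ^ (2 : ℝ) = 4 := by
    rw [ENNReal.rpow_two]
    norm_num
  rw [h7]

/-- the image of a set under a map which is Hölder of order two -/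
lemma holder_image {A : Set ℂ} {t : ℂ → ℝ} {c : ℝ} (hc : 0 ≤ c)
    (h : ∀ z ∈ A, ∀ w ∈ A, |t z - t w| ≤ c * ‖z - w‖ ^ 2) :
    volume (t '' A) ≤ ENNReal.ofReal (4 * c) * volume A := by
  have hH : HolderOnWith (Real.toNNReal c) 2 t A := by
    intro z hz w hw
    have h1 := h z hz w hw
    rw [edist_dist, edist_dist, Real.dist_eq, dist_eq_norm]
    have h2 : (ENNReal.ofReal ‖z - w‖) ^ ((2 : ℝ≥0) : ℝ) = ENNReal.ofReal (‖z - w‖ ^ 2) := by
      rw [NNReal.coe_ofNat, ENNReal.rpow_two, ENNReal.ofReal_pow (norm_nonneg _)]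
    rw [h2]
    have h3 : ((Real.toNNReal c : ℝ≥0) : ℝ≥0∞) = ENNReal.ofReal c := rfl
    rw [h3, ← ENNReal.ofReal_mul hc]
    exact ENNReal.ofReal_le_ofReal h1
  have h1 := hH.hausdorffMeasure_image_le (by norm_num) (d := 1) (by norm_num)
  rw [hausdorffMeasure_real, ENNReal.rpow_one, NNReal.coe_ofNat, mul_one] at h1
  refine h1.trans ?_
  have h3 : ((Real.toNNReal c : ℝ≥0) : ℝ≥0∞) = ENNReal.ofReal c := rfl
  rw [h3]
  refine (mul_le_mul_right (hausdorff_le A) _).trans ?_
  rw [ENNReal.ofReal_mul (by norm_num), ← mul_assoc]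
  refine mul_le_mul_left (le_of_eq ?_) _
  rw [mul_comm]
  congr 1
  rw [ENNReal.ofReal_ofNat]

/-- local version: only near points, with a bound for the measure of the part of the ball -/
lemma local_image {A : Set ℂ} {t : ℂ → ℝ} {c δ : ℝ} {B : Set ℂ} (hc : 0 ≤ c) (hδ : 0 < δ)
    (hB : MeasurableSet B) (hAB : A ⊆ B)
    (h : ∀ z ∈ A, ∀ w ∈ A, ‖z - w‖ < δ → |t z - t w| ≤ c * ‖z - w‖ ^ 2) :
    volume (t '' A) ≤ ENNReal.ofReal (4 * c) * volume B := by
  let x : ℕ → ℂ := TopologicalSpace.denseSeq ℂ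
  let P : ℕ → Set ℂ := disjointed fun i => ball (x i) (δ / 2)
  have hPm : ∀ i, MeasurableSet (P i) := fun i =>
    MeasurableSet.disjointed (fun j => isOpen_ball.measurableSet) i
  have hPd : Pairwise (Function.onFun Disjoint P) := disjoint_disjointed _
  have hPU : ⋃ i, P i = univ := by
    rw [show (⋃ i, P i) = ⋃ i, ball (x i) (δ / 2) from iUnion_disjointed]
    rw [eq_univ_iff_forall]
    intro z
    obtain ⟨i, hi⟩ := (TopologicalSpace.denseRange_denseSeq ℂ).exists_dist_lt z
      (half_pos hδ)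
    exact mem_iUnion.2 ⟨i, hi⟩
  have h1 : t '' A = ⋃ i, t '' (A ∩ P i) := by
    rw [← image_iUnion, ← inter_iUnion, hPU, inter_univ]
  rw [h1]
  refine (measure_iUnion_le _).trans ?_
  have h2 : ∀ i, volume (t '' (A ∩ P i)) ≤ ENNReal.ofReal (4 * c) * volume (B ∩ P i) := by
    intro i
    refine (holder_image hc ?_).trans (mul_le_mul_right (measure_mono
      (inter_subset_inter_left _ hAB)) _)
    intro z hz w hw
    refine h z hz.1 w hw.1 ?_
    have hz' : z ∈ ball (x i) (δ / 2) := disjointed_subset _ i hz.2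
    have hw' : w ∈ ball (x i) (δ / 2) := disjointed_subset _ i hw.2
    rw [mem_ball] at hz' hw'
    have := dist_triangle_right z w (x i)
    rw [← dist_eq_norm]
    linarith
  refine (ENNReal.tsum_le_tsum h2).trans ?_
  rw [ENNReal.tsum_mul_left]
  refine mul_le_mul_right ?_ _
  rw [← measure_iUnion (fun i j hij => (hPd hij).mono inter_subset_right inter_subset_right)
    (fun i => hB.inter (hPm i)), ← inter_iUnion, hPU, inter_univ]

/-- at a density point every small ball meets the set -/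
lemma meets {W : Set ℂ} {z : ℂ}
    (hz : Tendsto (fun r => volume (W ∩ closedBall z r) / volume (closedBall z r)) (𝓝[>] 0) (𝓝 1))
    {m : ℝ} (hm : 0 < m) (hm1 : m ≤ 1) : ∃ δ > 0, ∀ r, 0 < r → r < δ → ∀ y, ‖y - z‖ ≤ r →
      ∃ x ∈ W, ‖x - y‖ < m * r := by
  have h1 : ∀ᶠ r in 𝓝[>] (0 : ℝ), ENNReal.ofReal (1 - m ^ 2 / 4) <
      volume (W ∩ closedBall z r) / volume (closedBall z r) := by
    refine hz.eventually_const_lt ?_
    rw [ENNReal.ofReal_lt_one]
    have : 0 < m ^ 2 / 4 := by positivity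
    linarith
  obtain ⟨δ, hδ, hδ'⟩ := mem_nhdsGT_iff_exists_Ioo_subset.1 h1
  refine ⟨δ / 2, half_pos hδ, fun r hr hrδ y hy => ?_⟩
  by_contra hcon
  push Not at hcon
  have h2 : ENNReal.ofReal (1 - m ^ 2 / 4) <
      volume (W ∩ closedBall z (2 * r)) / volume (closedBall z (2 * r)) :=
    hδ' ⟨by positivity, by linarith⟩
  have hsub : W ∩ closedBall z (2 * r) ⊆ closedBall z (2 * r) \ ball y (m * r) := by
    intro x hx
    refine ⟨hx.2, fun hxy => ?_⟩
    rw [mem_ball, dist_eq_norm] at hxy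
    exact absurd hxy (not_lt.2 (hcon x hx.1))
  have hball : ball y (m * r) ⊆ closedBall z (2 * r) := by
    intro x hx
    rw [mem_ball, dist_eq_norm] at hx
    rw [mem_closedBall, dist_eq_norm]
    calc ‖x - z‖ = ‖(x - y) + (y - z)‖ := by ring_nf
      _ ≤ ‖x - y‖ + ‖y - z‖ := norm_add_le _ _
      _ ≤ m * r + r := by linarith
      _ ≤ 2 * r := by nlinarith
  have hvb : volume (ball y (m * r)) = ENNReal.ofReal (m ^ 2 * r ^ 2) * NNReal.pi := by
    rw [Complex.volume_ball, ← ENNReal.ofReal_pow (by positivity)]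
    congr 2
    ring
  have hvc : volume (closedBall z (2 * r)) = ENNReal.ofReal (4 * r ^ 2) * NNReal.pi := by
    rw [Complex.volume_closedBall, ← ENNReal.ofReal_pow (by positivity)]
    congr 2
    ring
  have hpi : (NNReal.pi : ℝ≥0∞) ≠ ⊤ := ENNReal.coe_ne_top
  have hpi0 : (NNReal.pi : ℝ≥0∞) ≠ 0 := by
    exact_mod_cast NNReal.pi_ne_zero
  have h3 : volume (W ∩ closedBall z (2 * r)) ≤ ENNReal.ofReal ((4 - m ^ 2) * r ^ 2) * NNReal.pi := by
    refine (measure_mono hsub).trans ?_
    rw [measure_sdiff hball isOpen_ball.nullMeasurableSet (by rw [hvb]; finiteness), hvb, hvc,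
      ← ENNReal.sub_mul (fun _ _ => hpi), ← ENNReal.ofReal_sub _ (by positivity)]
    refine mul_le_mul_left (ENNReal.ofReal_le_ofReal (le_of_eq (by ring))) _
  have h4 : volume (W ∩ closedBall z (2 * r)) / volume (closedBall z (2 * r)) ≤
      ENNReal.ofReal (1 - m ^ 2 / 4) := by
    rw [hvc]
    refine ENNReal.div_le_of_le_mul (h3.trans (le_of_eq ?_))
    rw [← mul_assoc, ← ENNReal.ofReal_mul (by nlinarith)]
    congr 2
    ring
  exact absurd h2 (not_lt.2 h4)

/-- at a density point `t` is of order `o(r²)` -/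
lemma density {W : Set ℂ} {t : ℂ → ℝ} {K : ℝ} (hK : 0 < K)
    (h : ∀ z ∈ W, ∀ w ∈ W, |t z - t w| ≤ K * ‖z - w‖ ^ 2) {z : ℂ} (hzW : z ∈ W)
    (hz : Tendsto (fun r => volume (W ∩ closedBall z r) / volume (closedBall z r)) (𝓝[>] 0) (𝓝 1))
    {c : ℝ} (hc : 0 < c) : ∃ δ > 0, ∀ w ∈ W, ‖z - w‖ < δ → |t z - t w| ≤ c * ‖z - w‖ ^ 2 := by
  obtain ⟨N, hN⟩ := exists_nat_gt (4 * K / c)
  have hNc : 0 < 4 * K / c := by positivity
  have hN0 : (0 : ℝ) < N := hNc.trans hN
  have hN0' : N ≠ 0 := by rintro rfl; simp at hN0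
  have hN1 : (1 : ℝ) ≤ N := by exact_mod_cast Nat.one_le_iff_ne_zero.2 hN0'
  obtain ⟨δ, hδ, hδ'⟩ := meets hz (m := 1 / (4 * N)) (by positivity) (by
    rw [div_le_one (by positivity)]; linarith)
  refine ⟨δ, hδ, fun w hw hzw => ?_⟩
  rcases eq_or_ne z w with rfl | hne
  · simp
  set r := ‖z - w‖ with hr
  have hr0 : 0 < r := norm_pos_iff.2 (sub_ne_zero.2 hne)
  -- the nodes
  have hnode : ∀ i : ℕ, i ≤ N → ∃ x ∈ W, ‖x - (z + ((i / N : ℝ) : ℂ) * (w - z))‖ ≤ r / (4 * N) ∧
      (i = 0 → x = z) ∧ (i = N → x = w) := by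
    intro i hi
    rcases eq_or_ne i 0 with rfl | h0
    · exact ⟨z, hzW, by simp; positivity, fun _ => rfl, fun hN' => absurd hN'.symm hN0'⟩
    rcases eq_or_ne i N with rfl | hiN
    · refine ⟨w, hw, ?_, fun h' => absurd h' h0, fun _ => rfl⟩
      rw [div_self hN0.ne']
      simp
      positivity
    · obtain ⟨x, hx, hx'⟩ := hδ' r hr0 hzw (z + ((i / N : ℝ) : ℂ) * (w - z)) (by
        rw [add_sub_cancel_left, norm_mul, Complex.norm_real, norm_sub_rev w z, ← hr,
          Real.norm_of_nonneg (by positivity)]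
        have : (i : ℝ) / N ≤ 1 := by
          rw [div_le_one hN0]; exact_mod_cast hi
        nlinarith)
      refine ⟨x, hx, hx'.le.trans (le_of_eq (by ring)), fun h' => absurd h' h0,
        fun h' => absurd h' hiN⟩
  choose! x hxW hxn hx0 hxN using hnode
  have hstep : ∀ i ∈ Finset.range N, |t (x (i + 1)) - t (x i)| ≤ K * (2 * r / N) ^ 2 := by
    intro i hi
    rw [Finset.mem_range] at hi
    refine (h _ (hxW _ hi) _ (hxW _ hi.le)).trans ?_
    refine mul_le_mul_of_nonneg_left ?_ hK.le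
    refine pow_le_pow_left₀ (norm_nonneg _) ?_ 2
    have e1 : x (i + 1) - x i = (x (i + 1) - (z + (((i + 1 : ℕ) / N : ℝ) : ℂ) * (w - z))) -
        (x i - (z + ((i / N : ℝ) : ℂ) * (w - z))) + (((1 / N : ℝ)) : ℂ) * (w - z) := by
      push_cast
      field_simp
      ring
    rw [e1]
    refine (norm_add_le _ _).trans ?_
    have e2 := norm_sub_le (x (i + 1) - (z + (((i + 1 : ℕ) / N : ℝ) : ℂ) * (w - z)))
      (x i - (z + ((i / N : ℝ) : ℂ) * (w - z)))
    have e3 := hxn (i + 1) hi
    have e4 := hxn i hi.le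
    have e5 : ‖(((1 / N : ℝ)) : ℂ) * (w - z)‖ = r / N := by
      rw [norm_mul, Complex.norm_real, Real.norm_of_nonneg (by positivity), norm_sub_rev w z, ← hr]
      ring
    rw [e5]
    have e6 : 2 * r / N = r / (4 * N) + r / (4 * N) + r / N + r / (2 * N) := by
      field_simp
      ring
    have e7 : 0 < r / (2 * N) := by positivity
    rw [e6]
    linarith
  have hsum : t (x N) - t (x 0) = ∑ i ∈ Finset.range N, (t (x (i + 1)) - t (x i)) :=
    (Finset.sum_range_sub (fun i => t (x i)) N).symm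
  rw [hxN N le_rfl rfl, hx0 0 (Nat.zero_le _) rfl] at hsum
  rw [abs_sub_comm, hsum]
  refine (Finset.abs_sum_le_sum_abs _ _).trans ((Finset.sum_le_sum hstep).trans ?_)
  rw [Finset.sum_const, Finset.card_range, nsmul_eq_mul]
  have e8 : (N : ℝ) * (K * (2 * r / N) ^ 2) = 4 * K / N * r ^ 2 := by
    field_simp
    ring
  rw [e8]
  refine mul_le_mul_of_nonneg_right ?_ (by positivity)
  rw [div_le_iff₀ hN0]
  rw [div_lt_iff₀ hc] at hN
  linarith

end Sard2_

open Sard2_ in
/-- (O-G0) -/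
theorem stmtSard2 : StmtSard2 := by
  intro W t K₀ h₀
  -- a positive constant
  set K := max K₀ 1 with hKdef
  have hK : 0 < K := lt_max_of_lt_right one_pos
  have h : ∀ z ∈ W, ∀ w ∈ W, |t z - t w| ≤ K * ‖z - w‖ ^ 2 := fun z hz w hw =>
    (h₀ z hz w hw).trans (mul_le_mul_of_nonneg_right (le_max_left _ _) (by positivity))
  -- bounded parts
  suffices H : ∀ R : ℕ, volume (t '' (W ∩ ball 0 R)) = 0 by
    have : t '' W = ⋃ R : ℕ, t '' (W ∩ ball 0 R) := by
      rw [← image_iUnion, ← inter_iUnion, iUnion_ball_nat, inter_univ]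
    rw [this]
    exact measure_iUnion_null H
  intro R
  set WR := W ∩ ball (0 : ℂ) R with hWR
  have hdens := Besicovitch.ae_tendsto_measure_inter_div (volume : Measure ℂ) W
  -- for every `c` the measure is small
  have key : ∀ c : ℝ, 0 < c →
      volume (t '' WR) ≤ ENNReal.ofReal (4 * c) * volume (ball (0 : ℂ) R) := by
    intro c hc
    let V : ℕ → Set ℂ := fun k => {z ∈ WR | ∀ w ∈ W, ‖z - w‖ < 1 / ((k : ℝ) + 1) →
      |t z - t w| ≤ c * ‖z - w‖ ^ 2}
    have hVmono : Monotone V := by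
      intro k l hkl z hz
      refine ⟨hz.1, fun w hw hzw => hz.2 w hw (hzw.trans_le ?_)⟩
      exact one_div_le_one_div_of_le (by positivity) (by exact_mod_cast Nat.add_le_add_right hkl 1)
    have hnull : volume (WR \ ⋃ k, V k) = 0 := by
      have h1 := Measure.le_restrict_apply (μ := (volume : Measure ℂ)) W
        {x | ¬ Tendsto (fun r => volume (W ∩ closedBall x r) / volume (closedBall x r))
          (𝓝[>] 0) (𝓝 1)}
      rw [ae_iff.1 hdens] at h1
      refine le_antisymm ((measure_mono ?_).trans h1) (by simp)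
      intro z hz
      refine ⟨fun hz' => hz.2 ?_, hz.1.1⟩
      obtain ⟨δ, hδ, hδ'⟩ := density hK h hz.1.1 hz' hc
      obtain ⟨k, hk⟩ := exists_nat_one_div_lt hδ
      exact mem_iUnion.2 ⟨k, hz.1, fun w hw hzw => hδ' w hw (hzw.trans hk)⟩
    have hsplit : t '' WR ⊆ t '' (WR \ ⋃ k, V k) ∪ ⋃ k, t '' V k := by
      rw [← image_iUnion, ← image_union]
      refine image_mono ?_
      intro z hz
      by_cases hz' : z ∈ ⋃ k, V k
      · exact Or.inr hz'
      · exact Or.inl ⟨hz, hz'⟩
    refine (measure_mono hsplit).trans ((measure_union_le _ _).trans ?_)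
    have e1 : volume (t '' (WR \ ⋃ k, V k)) = 0 := by
      have := holder_image hK.le (A := WR \ ⋃ k, V k) (t := t)
        (fun z hz w hw => h z hz.1.1 w hw.1.1)
      rw [hnull, mul_zero] at this
      exact le_antisymm this (by simp)
    have hVm : Monotone (fun k => t '' V k) := fun k l hkl => image_mono (hVmono hkl)
    rw [e1, zero_add, hVm.measure_iUnion]
    refine iSup_le fun k => ?_
    refine local_image hc.le (δ := 1 / ((k : ℝ) + 1)) (by positivity) isOpen_ball.measurableSet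
      (fun z hz => hz.1.2) ?_
    intro z hz w hw hzw
    exact hz.2 w hw.1.1 hzw
  -- conclusion
  have hfin : volume (ball (0 : ℂ) R) ≠ ⊤ := measure_ball_lt_top.ne
  have hlim : Tendsto (fun c : ℝ => ENNReal.ofReal (4 * c) * volume (ball (0 : ℂ) R))
      (𝓝[>] 0) (𝓝 0) := by
    have h1 : Tendsto (fun c : ℝ => ENNReal.ofReal (4 * c)) (𝓝[>] 0) (𝓝 0) := by
      have h2 : Tendsto (fun c : ℝ => 4 * c) (𝓝[>] 0) (𝓝 0) := by
        have h3 : Tendsto (fun c : ℝ => 4 * c) (𝓝 0) (𝓝 (4 * 0)) :=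
          (continuous_const.mul continuous_id).tendsto 0
        rw [mul_zero] at h3
        exact h3.mono_left nhdsWithin_le_nhds
      have h4 := (ENNReal.continuous_ofReal.tendsto 0).comp h2
      rw [ENNReal.ofReal_zero] at h4
      exact h4
    have h5 := ENNReal.Tendsto.mul_const h1 (Or.inr hfin)
    simpa using h5
  refine le_antisymm (ge_of_tendsto hlim ?_) (by simp)
  filter_upwards [self_mem_nhdsWithin] with c hc using key c hc

end Pool.Agent.Lib.QNL.O
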