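import Pool.Agent.Lib.QNL.OStmts
import Pool.Agent.Lib.QNL.Mean53
import Pool.Agent.Lib.QNL.O_Sard2

/-!
The weak equation and the mass equality from circle means.
-/

set_option autoImplicit false

namespace Pool.Agent.Lib.QNL.Weak

open MeasureTheory Filter Topology Set Metric
open scoped ContDiff
open Pool.Agent.Lib.QNL

/-- the circle mean is symmetric -/
theorem swap {u φ : ℂ → ℝ} (hu : Continuous u) {M : ℝ} (hM : ∀ x, |u x| ≤ M)
    (hφ : Continuous φ) (hc : HasCompactSupport φ) (r : ℝ) :
    ∫ x, Real.circleAverage u x r * φ x = ∫ x, u x * Real.circleAverage φ x r := by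
  have hpi := Real.pi_pos
  set ν : Measure ℝ := volume.restrict (Ioc 0 (2 * Real.pi)) with hν
  have e1 : ∀ (g : ℂ → ℝ) (x : ℂ), Real.circleAverage g x r =
      (2 * Real.pi)⁻¹ * ∫ θ, g (circleMap x r θ) ∂ν := by
    intro g x
    rw [Real.circleAverage_def, smul_eq_mul, intervalIntegral.integral_of_le
      Real.two_pi_pos.le]
  have iφ : Integrable φ := hφ.integrable_of_hasCompactSupport hc
  have cmap : Continuous fun p : ℂ × ℝ => circleMap p.1 r p.2 := by
    unfold circleMap
    fun_prop
  have cmap2 : Continuous fun p : ℂ × ℝ => circleMap p.1 (-r) p.2 := by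
    unfold circleMap
    fun_prop
  have i1 : Integrable (fun p : ℂ × ℝ => u (circleMap p.1 r p.2) * φ p.1)
      ((volume : Measure ℂ).prod ν) := by
    refine Integrable.mono' (g := fun p : ℂ × ℝ => M * ‖φ p.1‖)
      ((iφ.norm.comp_fst ν).const_mul M) ?_ ?_
    · exact ((hu.comp cmap).mul (hφ.comp continuous_fst)).aestronglyMeasurable
    · refine Eventually.of_forall fun p => ?_
      rw [norm_mul]
      exact mul_le_mul_of_nonneg_right (hM _) (norm_nonneg _)
  have L : ∫ x, Real.circleAverage u x r * φ x =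
      (2 * Real.pi)⁻¹ * ∫ θ, (∫ x, u (circleMap x r θ) * φ x) ∂ν := by
    rw [← integral_integral_swap i1, ← integral_const_mul]
    refine integral_congr_ae (Eventually.of_forall fun x => ?_)
    simp only [e1, integral_mul_const]
    ring
  have step : ∀ θ : ℝ, ∫ x, u (circleMap x r θ) * φ x =
      ∫ x, u x * φ (circleMap x (-r) θ) := by
    intro θ
    have e2 : ∀ x : ℂ, circleMap x r θ = x + circleMap 0 r θ := by
      intro x
      simp [circleMap]
    have e3 : ∀ x : ℂ, circleMap (x + circleMap 0 r θ) (-r) θ = x := by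
      intro x
      simp [circleMap]
    rw [← integral_add_right_eq_self (fun x => u x * φ (circleMap x (-r) θ)) (circleMap 0 r θ)]
    refine integral_congr_ae (Eventually.of_forall fun x => ?_)
    simp only [e3, e2 x]
  have i2 : Integrable (fun p : ℂ × ℝ => u p.1 * φ (circleMap p.1 (-r) p.2))
      ((volume : Measure ℂ).prod ν) := by
    have h1 : MeasurePreserving (fun p : ℂ × ℝ => (circleMap p.1 (-r) p.2, p.2))
        ((volume : Measure ℂ).prod ν) ((volume : Measure ℂ).prod ν) := by
      have := MeasurePreserving.skew_product (μa := ν) (μb := ν) (μc := (volume : Measure ℂ))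
        (μd := (volume : Measure ℂ)) (f := id) (MeasurePreserving.id ν)
        (g := fun θ x => circleMap x (-r) θ) (by
          have : Continuous fun p : ℝ × ℂ => circleMap p.2 (-r) p.1 :=
            cmap2.comp continuous_swap
          exact this.measurable)
        (Eventually.of_forall fun θ => by
          have : (fun x : ℂ => circleMap x (-r) θ) = fun x => x + circleMap 0 (-r) θ := by
            funext x
            simp [circleMap]
          rw [this]
          exact (measurePreserving_add_right volume _).map_eq)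
      have h2 := (Measure.measurePreserving_swap (μ := ν) (ν := (volume : Measure ℂ))).comp
        (this.comp (Measure.measurePreserving_swap (μ := (volume : Measure ℂ)) (ν := ν)))
      exact h2
    have h3 : (fun p : ℂ × ℝ => u p.1 * φ (circleMap p.1 (-r) p.2)) =
        (fun p : ℂ × ℝ => u (circleMap p.1 r p.2) * φ p.1) ∘
          (fun p : ℂ × ℝ => (circleMap p.1 (-r) p.2, p.2)) := by
      funext p
      simp only [Function.comp_apply]
      congr 2
      simp [circleMap]
    rw [h3]
    exact h1.integrable_comp_of_integrable i1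
  rw [L]
  simp_rw [step]
  rw [← integral_integral_swap i2, ← integral_const_mul]
  refine integral_congr_ae (Eventually.of_forall fun x => ?_)
  simp only [integral_const_mul]
  rw [← Real.circleAverage_neg_radius, Real.circleAverage_def, smul_eq_mul,
    intervalIntegral.integral_of_le Real.two_pi_pos.le]
  ring

theorem continuous_lap {φ : ℂ → ℝ} (hφ : ContDiff ℝ 2 φ) : Continuous (lap φ) := by
  have h1 : Continuous (fderiv ℝ (fderiv ℝ φ)) :=
    (hφ.fderiv_right (m := 1) (by norm_num)).continuous_fderiv (by norm_num)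
  have : lap φ = fun z => fderiv ℝ (fderiv ℝ φ) z 1 1
      + fderiv ℝ (fderiv ℝ φ) z Complex.I Complex.I := by
    funext z
    rw [← O.Mean.dv_dv_eq hφ, ← O.Mean.dv_dv_eq hφ]
    rfl
  rw [this]
  exact ((h1.clm_apply continuous_const).clm_apply continuous_const).add
    ((h1.clm_apply continuous_const).clm_apply continuous_const)

theorem lap_neg {φ : ℂ → ℝ} (z : ℂ) : lap (fun w => -φ w) z = -lap φ z := by
  have h1 : ∀ v : ℂ, dv v (fun w => -φ w) = fun w => -dv v φ w := by
    intro v
    funext w
    exact dv_neg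
  show dv 1 (dv 1 (fun w => -φ w)) z + dv Complex.I (dv Complex.I (fun w => -φ w)) z = _
  rw [h1, h1, dv_neg, dv_neg]
  show _ = -(dv 1 (dv 1 φ) z + dv Complex.I (dv Complex.I φ) z)
  ring

/-- two-sided mean value estimate for smooth functions -/
theorem mean_two {φ : ℂ → ℝ} (hφ : ContDiff ℝ 2 φ) {x : ℂ} {r a b : ℝ} (hr : 0 ≤ r)
    (hb : ∀ z ∈ closedBall x r, lap φ z ≤ b) (ha : ∀ z ∈ closedBall x r, a ≤ lap φ z) :
    a * r ^ 2 / 4 ≤ Real.circleAverage φ x r - φ x ∧
      Real.circleAverage φ x r - φ x ≤ b * r ^ 2 / 4 := by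
  constructor
  · have h1 := O.Mean.mean_smooth (g := fun w => -φ w) hφ.neg (x := x) (r := r) (b := -a) hr
      (fun z hz => by
        rw [lap_neg]
        exact neg_le_neg (ha z hz))
    have h2 : Real.circleAverage (fun w => -φ w) x r = -Real.circleAverage φ x r := by
      rw [Real.circleAverage_def, Real.circleAverage_def]
      simp
    rw [h2] at h1
    linarith
  · have := O.Mean.mean_smooth hφ hr hb
    linarith

/-- the rate of the circle means of a smooth function -/
theorem rate_smooth {φ : ℂ → ℝ} (hφ : ContDiff ℝ 2 φ) (x : ℂ) :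
    Tendsto (fun r : ℝ => 4 * (Real.circleAverage φ x r - φ x) / r ^ 2) (𝓝[>] 0)
      (𝓝 (lap φ x)) := by
  rw [Metric.tendsto_nhds]
  intro ε hε
  have hc0 : ContinuousAt (lap φ) x := (continuous_lap hφ).continuousAt
  have hc := Metric.continuousAt_iff'.1 hc0 (ε / 2) (half_pos hε)
  obtain ⟨δ, hδ, h⟩ := Metric.eventually_nhds_iff.1 hc
  filter_upwards [Ioo_mem_nhdsGT hδ] with r hr
  have h1 : ∀ z ∈ closedBall x r, lap φ z ≤ lap φ x + ε / 2 := fun z hz => by
    have := h (y := z) (lt_of_le_of_lt (mem_closedBall.1 hz) hr.2)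
    rw [Real.dist_eq, abs_lt] at this
    linarith [this.2]
  have h2 : ∀ z ∈ closedBall x r, lap φ x - ε / 2 ≤ lap φ z := fun z hz => by
    have := h (y := z) (lt_of_le_of_lt (mem_closedBall.1 hz) hr.2)
    rw [Real.dist_eq, abs_lt] at this
    linarith [this.1]
  obtain ⟨h3, h4⟩ := mean_two hφ hr.1.le h1 h2
  have hr2 : 0 < r ^ 2 := pow_pos hr.1 2
  rw [Real.dist_eq, abs_lt]
  constructor
  · have : lap φ x - ε / 2 ≤ 4 * (Real.circleAverage φ x r - φ x) / r ^ 2 := by
      rw [le_div_iff₀ hr2]
      linarith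
    linarith
  · have : 4 * (Real.circleAverage φ x r - φ x) / r ^ 2 ≤ lap φ x + ε / 2 := by
      rw [div_le_iff₀ hr2]
      linarith
    linarith

theorem rate_bound {φ : ℂ → ℝ} (hφ : ContDiff ℝ 2 φ) {B : ℝ} (hB : ∀ x, |lap φ x| ≤ B) (x : ℂ)
    {r : ℝ} (hr : 0 < r) : |4 * (Real.circleAverage φ x r - φ x) / r ^ 2| ≤ B := by
  obtain ⟨h3, h4⟩ := mean_two hφ hr.le (x := x) (a := -B) (b := B)
    (fun z _ => (abs_le.1 (hB z)).2) (fun z _ => (abs_le.1 (hB z)).1)
  have hr2 : 0 < r ^ 2 := pow_pos hr 2
  rw [abs_le, le_div_iff₀ hr2, div_le_iff₀ hr2]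
  constructor <;> linarith

/-- the circle mean is continuous in the centre -/
theorem continuous_mean {u : ℂ → ℝ} (hu : Continuous u) (r : ℝ) :
    Continuous fun x => Real.circleAverage u x r := by
  have h : Continuous (Function.uncurry fun (x : ℂ) (θ : ℝ) => u (circleMap x r θ)) := by
    have : Continuous fun p : ℂ × ℝ => circleMap p.1 r p.2 := by
      unfold circleMap
      fun_prop
    exact hu.comp this
  simp only [Real.circleAverage_def, smul_eq_mul]
  exact continuous_const.mul
    (intervalIntegral.continuous_parametric_intervalIntegral_of_continuous' (μ := volume)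
      h 0 (2 * Real.pi))

/-- the circle means of a function with support in a ball -/
theorem mean_zero {u : ℂ → ℝ} {R : ℝ} (hR : ∀ x, R < ‖x‖ → u x = 0) {x : ℂ} {r : ℝ} (hr : 0 ≤ r)
    (hx : R + r < ‖x‖) : Real.circleAverage u x r = 0 := by
  refine Real.circleAverage_const_on_circle fun y hy => hR y ?_
  rw [mem_sphere_iff_norm, abs_of_nonneg hr] at hy
  have : ‖x‖ ≤ ‖y - x‖ + ‖y‖ := by
    have := norm_sub_le y (y - x)
    have e : y - (y - x) = x := by ring
    rw [e] at this
    linarith
  linarith

/-- a set-up: the Laplacian of `u` is a bounded function `f` in the sense of circle means -/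
structure Rate (u f : ℂ → ℝ) : Prop where
  cont : Continuous u
  cpt : HasCompactSupport u
  bound : ∃ A : ℝ, ∀ x r, 0 < r → r ≤ 1 → |4 * (Real.circleAverage u x r - u x) / r ^ 2| ≤ A
  lim : ∀ᵐ x, Tendsto (fun r : ℝ => 4 * (Real.circleAverage u x r - u x) / r ^ 2) (𝓝[>] 0)
    (𝓝 (f x))

theorem Rate.weak {u f : ℂ → ℝ} (h : Rate u f) {φ : ℂ → ℝ} (hφ : ContDiff ℝ 2 φ)
    (hc : HasCompactSupport φ) : ∫ x, u x * lap φ x = ∫ x, f x * φ x := by
  obtain ⟨A, hA⟩ := h.bound
  obtain ⟨M, hM⟩ := h.cpt.exists_bound_of_continuous h.cont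
  have hM' : ∀ x, |u x| ≤ M := hM
  have iφ : Integrable φ := hφ.continuous.integrable_of_hasCompactSupport hc
  have iu : Integrable u := h.cont.integrable_of_hasCompactSupport h.cpt
  have cl := continuous_lap hφ
  have hcl : HasCompactSupport (lap φ) := by
    refine HasCompactSupport.intro hc fun x hx => ?_
    have h0 : ∀ v : ℂ, ∀ g : ℂ → ℝ, x ∉ tsupport g → x ∉ tsupport (dv v g) := by
      intro v g hx h1
      exact hx (closure_minimal (fun y hy => by
        by_contra h2
        exact hy (by
          have : fderiv ℝ g y = 0 := by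
            have h3 := (notMem_tsupport_iff_eventuallyEq.1 h2)
            have h4 := h3.fderiv_eq (𝕜 := ℝ)
            rw [h4]
            simp
          show fderiv ℝ g y v = 0
          rw [this]
          rfl)) (isClosed_tsupport g) h1)
    have h1 : ∀ v : ℂ, dv v (dv v φ) x = 0 := fun v =>
      image_eq_zero_of_notMem_tsupport (h0 v _ (h0 v _ hx))
    show dv 1 (dv 1 φ) x + dv Complex.I (dv Complex.I φ) x = 0
    rw [h1, h1, add_zero]
  obtain ⟨B, hB⟩ := hcl.exists_bound_of_continuous cl
  have T1 : Tendsto (fun r : ℝ => ∫ x, 4 * (Real.circleAverage u x r - u x) / r ^ 2 * φ x)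
      (𝓝[>] 0) (𝓝 (∫ x, f x * φ x)) := by
    refine tendsto_integral_filter_of_dominated_convergence (fun x => A * ‖φ x‖) ?_ ?_
      (iφ.norm.const_mul A) ?_
    · refine Eventually.of_forall fun r => ?_
      have h1 := continuous_mean h.cont r
      have h2 := h.cont
      have h3 := hφ.continuous
      have : Continuous fun x => 4 * (Real.circleAverage u x r - u x) / r ^ 2 * φ x := by
        fun_prop
      exact this.aestronglyMeasurable
    · filter_upwards [Ioo_mem_nhdsGT one_pos] with r hr
      refine Eventually.of_forall fun x => ?_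
      rw [norm_mul]
      exact mul_le_mul_of_nonneg_right (hA x r hr.1 hr.2.le) (norm_nonneg _)
    · filter_upwards [h.lim] with x hx
      exact hx.mul_const _
  have T2 : Tendsto (fun r : ℝ => ∫ x, u x * (4 * (Real.circleAverage φ x r - φ x) / r ^ 2))
      (𝓝[>] 0) (𝓝 (∫ x, u x * lap φ x)) := by
    refine tendsto_integral_filter_of_dominated_convergence (fun x => ‖u x‖ * B) ?_ ?_
      (iu.norm.mul_const B) ?_
    · refine Eventually.of_forall fun r => ?_
      have h1 := continuous_mean hφ.continuous r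
      have h2 := h.cont
      have h3 := hφ.continuous
      have : Continuous fun x => u x * (4 * (Real.circleAverage φ x r - φ x) / r ^ 2) := by
        fun_prop
      exact this.aestronglyMeasurable
    · filter_upwards [Ioo_mem_nhdsGT one_pos] with r hr
      refine Eventually.of_forall fun x => ?_
      rw [norm_mul]
      exact mul_le_mul_of_nonneg_left (rate_bound hφ (fun x => hB x) x hr.1) (norm_nonneg _)
    · exact Eventually.of_forall fun x => (rate_smooth hφ x).const_mul _
  have E : ∀ r : ℝ, ∫ x, 4 * (Real.circleAverage u x r - u x) / r ^ 2 * φ x =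
      ∫ x, u x * (4 * (Real.circleAverage φ x r - φ x) / r ^ 2) := by
    intro r
    have h1 := swap h.cont hM' hφ.continuous hc r
    have i1 : Integrable fun x => Real.circleAverage u x r * φ x := by
      have c1 := continuous_mean h.cont r
      have : Continuous fun x => Real.circleAverage u x r * φ x := c1.mul hφ.continuous
      exact this.integrable_of_hasCompactSupport hc.mul_left
    have i2 : Integrable fun x => u x * φ x :=
      (h.cont.mul hφ.continuous).integrable_of_hasCompactSupport hc.mul_left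
    have i3 : Integrable fun x => u x * Real.circleAverage φ x r := by
      have c1 := continuous_mean hφ.continuous r
      have : Continuous fun x => u x * Real.circleAverage φ x r := h.cont.mul c1
      exact this.integrable_of_hasCompactSupport h.cpt.mul_right
    have e1 : (fun x => 4 * (Real.circleAverage u x r - u x) / r ^ 2 * φ x) =
        fun x => 4 / r ^ 2 * (Real.circleAverage u x r * φ x - u x * φ x) := by
      funext x
      ring
    have e2 : (fun x => u x * (4 * (Real.circleAverage φ x r - φ x) / r ^ 2)) =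
        fun x => 4 / r ^ 2 * (u x * Real.circleAverage φ x r - u x * φ x) := by
      funext x
      ring
    rw [e1, e2, integral_const_mul, integral_const_mul, integral_sub i1 i2,
      integral_sub i3 i2, h1]
  simp_rw [E] at T1
  exact tendsto_nhds_unique T2 T1

/-- a continuous cutoff -/
noncomputable def cut (R : ℝ) (x : ℂ) : ℝ := max 0 (min 1 (R + 1 - ‖x‖))

theorem cut_cont (R : ℝ) : Continuous (cut R) := by
  unfold cut
  fun_prop

theorem cut_one {R : ℝ} {x : ℂ} (h : ‖x‖ ≤ R) : cut R x = 1 := by
  unfold cut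
  rw [min_eq_left (by linarith), max_eq_right zero_le_one]

theorem cut_zero {R : ℝ} {x : ℂ} (h : R + 1 ≤ ‖x‖) : cut R x = 0 := by
  unfold cut
  rw [max_eq_left]
  exact (min_le_right _ _).trans (by linarith)

theorem cut_cpt (R : ℝ) : HasCompactSupport (cut R) :=
  HasCompactSupport.intro (isCompact_closedBall (0 : ℂ) (R + 1)) fun x hx => by
    refine cut_zero ?_
    rw [mem_closedBall, dist_zero_right, not_le] at hx
    exact hx.le

theorem exists_radius {u : ℂ → ℝ} (h : HasCompactSupport u) :
    ∃ R : ℝ, 0 < R ∧ ∀ x, R < ‖x‖ → u x = 0 := by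
  obtain ⟨R, hR⟩ := h.isCompact.isBounded.subset_closedBall 0
  refine ⟨max R 1, lt_max_of_lt_right one_pos, fun x hx => ?_⟩
  refine image_eq_zero_of_notMem_tsupport fun h1 => ?_
  have := hR h1
  rw [mem_closedBall, dist_zero_right] at this
  exact absurd hx (not_lt.2 (this.trans (le_max_left _ _)))

/-- the total mass of the Laplacian vanishes -/
theorem Rate.mass {u f : ℂ → ℝ} (h : Rate u f) : Integrable f ∧ ∫ x, f x = 0 := by
  obtain ⟨A, hA⟩ := h.bound
  obtain ⟨M, hM⟩ := h.cpt.exists_bound_of_continuous h.cont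
  have hM' : ∀ x, |u x| ≤ M := hM
  obtain ⟨R, hR0, hR⟩ := exists_radius h.cpt
  -- outside the ball of radius `R + 1` everything vanishes
  have out : ∀ x : ℂ, R + 1 < ‖x‖ → ∀ r : ℝ, 0 < r → r ≤ 1 →
      Real.circleAverage u x r - u x = 0 := by
    intro x hx r h0 h1
    rw [mean_zero hR h0.le (by linarith), hR x (by linarith), sub_zero]
  have iB : Integrable (fun x : ℂ => (closedBall (0 : ℂ) (R + 1)).indicator (fun _ => A) x) := by
    refine (integrable_indicator_iff measurableSet_closedBall).2 ?_
    exact integrableOn_const (measure_closedBall_lt_top).ne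
  have bd : ∀ r : ℝ, 0 < r → r ≤ 1 → ∀ x : ℂ,
      ‖4 * (Real.circleAverage u x r - u x) / r ^ 2‖ ≤
        (closedBall (0 : ℂ) (R + 1)).indicator (fun _ => A) x := by
    intro r h0 h1 x
    by_cases hx : x ∈ closedBall (0 : ℂ) (R + 1)
    · rw [indicator_of_mem hx]
      exact hA x r h0 h1
    · rw [indicator_of_notMem hx]
      rw [mem_closedBall, dist_zero_right, not_le] at hx
      rw [out x hx r h0 h1]
      simp
  have T1 : Tendsto (fun r : ℝ => ∫ x, 4 * (Real.circleAverage u x r - u x) / r ^ 2)
      (𝓝[>] 0) (𝓝 (∫ x, f x)) := by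
    refine tendsto_integral_filter_of_dominated_convergence
      (fun x => (closedBall (0 : ℂ) (R + 1)).indicator (fun _ => A) x) ?_ ?_ iB ?_
    · refine Eventually.of_forall fun r => ?_
      have h1 := continuous_mean h.cont r
      have h2 := h.cont
      have : Continuous fun x => 4 * (Real.circleAverage u x r - u x) / r ^ 2 := by
        fun_prop
      exact this.aestronglyMeasurable
    · filter_upwards [Ioo_mem_nhdsGT one_pos] with r hr
      exact Eventually.of_forall (bd r hr.1 hr.2.le)
    · exact h.lim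
  have E : ∀ r : ℝ, 0 < r → r ≤ 1 →
      ∫ x, 4 * (Real.circleAverage u x r - u x) / r ^ 2 = 0 := by
    intro r h0 h1
    have hs := swap h.cont hM' (cut_cont (R + 1)) (cut_cpt (R + 1)) r
    have e0 : (fun x => Real.circleAverage u x r * cut (R + 1) x) =
        fun x => Real.circleAverage u x r := by
      funext x
      by_cases hx : ‖x‖ ≤ R + 1
      · rw [cut_one hx, mul_one]
      · rw [mean_zero hR h0.le (by linarith [not_le.1 hx]), zero_mul]
    have e1 : (fun x => u x * Real.circleAverage (cut (R + 1)) x r) = u := by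
      funext x
      by_cases hx : ‖x‖ ≤ R
      · rw [Real.circleAverage_const_on_circle (a := 1), mul_one]
        intro y hy
        rw [mem_sphere_iff_norm, abs_of_pos h0] at hy
        refine cut_one ?_
        have : ‖y‖ ≤ ‖y - x‖ + ‖x‖ := by simpa using norm_add_le (y - x) x
        linarith
      · rw [hR x (not_le.1 hx), zero_mul]
    rw [e0, e1] at hs
    have c1 := continuous_mean h.cont r
    have i1 : Integrable fun x => Real.circleAverage u x r := by
      refine c1.integrable_of_hasCompactSupport ?_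
      refine HasCompactSupport.intro (isCompact_closedBall (0 : ℂ) (R + 1)) fun x hx => ?_
      rw [mem_closedBall, dist_zero_right, not_le] at hx
      exact mean_zero hR h0.le (by linarith)
    have i2 : Integrable u := h.cont.integrable_of_hasCompactSupport h.cpt
    have e2 : (fun x => 4 * (Real.circleAverage u x r - u x) / r ^ 2) =
        fun x => 4 / r ^ 2 * (Real.circleAverage u x r - u x) := by
      funext x
      ring
    rw [e2, integral_const_mul, integral_sub i1 i2, hs, sub_self, mul_zero]
  constructor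
  · -- integrability of the limit
    have T2 : ∀ᵐ x, ‖f x‖ ≤ (closedBall (0 : ℂ) (R + 1)).indicator (fun _ => A) x := by
      filter_upwards [h.lim] with x hx
      refine le_of_tendsto hx.norm ?_
      filter_upwards [Ioo_mem_nhdsGT one_pos] with r hr
      exact bd r hr.1 hr.2.le x
    have meas : AEStronglyMeasurable f volume := by
      have hx : ∀ᵐ x, Tendsto (fun k : ℕ => 4 * (Real.circleAverage u x (1 / ((k : ℝ) + 1)) - u x) /
          (1 / ((k : ℝ) + 1)) ^ 2) atTop (𝓝 (f x)) := by
        have hk : Tendsto (fun k : ℕ => 1 / ((k : ℝ) + 1)) atTop (𝓝[>] 0) :=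
          tendsto_nhdsWithin_of_tendsto_nhds_of_eventually_within _
            tendsto_one_div_add_atTop_nhds_zero_nat
            (Eventually.of_forall fun k => by
              show (0 : ℝ) < 1 / ((k : ℝ) + 1)
              positivity)
        filter_upwards [h.lim] with x hx
        exact hx.comp hk
      refine aestronglyMeasurable_of_tendsto_ae atTop (fun k => ?_) hx
      have h1 := continuous_mean h.cont (1 / ((k : ℝ) + 1))
      have h2 := h.cont
      have : Continuous fun x => 4 * (Real.circleAverage u x (1 / ((k : ℝ) + 1)) - u x) /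
          (1 / ((k : ℝ) + 1)) ^ 2 := by
        fun_prop
      exact this.aestronglyMeasurable
    exact iB.mono' meas T2
  · have T3 : Tendsto (fun r : ℝ => ∫ x, 4 * (Real.circleAverage u x r - u x) / r ^ 2)
        (𝓝[>] 0) (𝓝 0) := by
      refine tendsto_const_nhds.congr' ?_
      filter_upwards [Ioo_mem_nhdsGT one_pos] with r hr
      exact (E r hr.1 hr.2.le).symm
    exact tendsto_nhds_unique T1 T3

/-- at almost every zero the rate vanishes -/
theorem rate_zero {u : ℂ → ℝ} (hu : Continuous u) (h0 : ∀ x, 0 ≤ u x) {K : ℝ}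
    (hK : ∀ z x, u z = 0 → u x ≤ K * ‖x - z‖ ^ 2) :
    ∀ᵐ x, u x = 0 → Tendsto (fun r : ℝ => 4 * (Real.circleAverage u x r - u x) / r ^ 2)
      (𝓝[>] 0) (𝓝 0) := by
  set K' : ℝ := max K 1 with hK'
  have hK1 : 0 < K' := lt_max_of_lt_right one_pos
  have hKK : ∀ z x, u z = 0 → u x ≤ K' * ‖x - z‖ ^ 2 := fun z x hz =>
    (hK z x hz).trans (mul_le_mul_of_nonneg_right (le_max_left _ _) (by positivity))
  have hm : MeasurableSet {x | u x = 0} := (isClosed_eq hu continuous_const).measurableSet
  have hd := Besicovitch.ae_tendsto_measure_inter_div_of_measurableSet (volume : Measure ℂ) hm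
  filter_upwards [hd] with x hx hx0
  rw [indicator_of_mem (show x ∈ {x | u x = 0} from hx0)] at hx
  rw [Metric.tendsto_nhds]
  intro ε hε
  set m : ℝ := min 1 (ε / (8 * K')) with hmd
  have hm0 : 0 < m := lt_min one_pos (by positivity)
  have hm1 : m ≤ 1 := min_le_left _ _
  obtain ⟨δ, hδ, hme⟩ := O.Sard2_.meets hx hm0 hm1
  filter_upwards [Ioo_mem_nhdsGT hδ] with r hr
  have hr2 : 0 < r ^ 2 := pow_pos hr.1 2
  have up : ∀ y ∈ sphere x |r|, u y ≤ K' * m * r ^ 2 := by
    intro y hy
    rw [mem_sphere_iff_norm, abs_of_pos hr.1] at hy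
    obtain ⟨z, hz, hzy⟩ := hme r hr.1 hr.2 y hy.le
    have h1 := hKK z y hz
    have h2 : ‖y - z‖ ≤ m * r := by
      rw [norm_sub_rev]
      exact hzy.le
    have h3 : ‖y - z‖ ^ 2 ≤ (m * r) ^ 2 := pow_le_pow_left₀ (norm_nonneg _) h2 2
    calc u y ≤ K' * ‖y - z‖ ^ 2 := h1
      _ ≤ K' * (m * r) ^ 2 := mul_le_mul_of_nonneg_left h3 hK1.le
      _ = K' * r ^ 2 * (m * m) := by ring
      _ ≤ K' * r ^ 2 * (m * 1) :=
          mul_le_mul_of_nonneg_left (mul_le_mul_of_nonneg_left hm1 hm0.le) (by positivity)
      _ = K' * m * r ^ 2 := by ring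
  have h4 : Real.circleAverage u x r ≤ K' * m * r ^ 2 :=
    Real.circleAverage_mono_on_of_le_circle hu.continuousOn.circleIntegrable' up
  have h5 : 0 ≤ Real.circleAverage u x r :=
    Real.circleAverage_nonneg_of_nonneg fun y _ => h0 y
  rw [Real.dist_eq, sub_zero, hx0, sub_zero, abs_of_nonneg (by positivity), div_lt_iff₀ hr2]
  have h6 : m ≤ ε / (8 * K') := min_le_right _ _
  have h7 : K' * m ≤ ε / 8 := by
    have := mul_le_mul_of_nonneg_left h6 hK1.le
    have e : K' * (ε / (8 * K')) = ε / 8 := by field_simp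
    linarith
  nlinarith [mul_le_mul_of_nonneg_right h7 hr2.le]

/-- the family of group O: the Laplacian of `u_L` is `(L - μ) 1_{u_L > 0}` -/
theorem fam_rate (hJ : O.StmtJ) (hQuad : O.StmtQuad) {μ : ℂ → ℝ} {C : ℝ} {u : ℝ → ℂ → ℝ}
    (hF : O.Fam μ C u) {L : ℝ} (hL : 0 < L) :
    Rate (u L) ({x | 0 < u L x}.indicator fun x => L - μ x) := by
  obtain ⟨M, hM⟩ := hF.src.cpt.exists_bound_of_continuous hF.src.cont
  have hM1 : ∀ x, μ x ≤ M := fun x => (le_abs_self _).trans (hM x)
  have hM0 : 0 ≤ M := (norm_nonneg _).trans (hM 0)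
  have J1 : ∀ x r, 0 < r → O.J r μ x ≤ M * r ^ 2 / 4 := fun x r hr =>
    (hJ μ hF.src.cont hF.src.cpt x r M hr).1 fun y _ => hM1 y
  have J0 : ∀ x r, 0 < r → 0 ≤ O.J r μ x := fun x r hr => by
    have := (hJ μ hF.src.cont hF.src.cpt x r 0 hr).2 fun y _ => hF.src.nonneg y
    simpa using this
  refine ⟨hF.cont L hL, hF.cpt L hL, ⟨L + M, fun x r hr _ => ?_⟩, ?_⟩
  · have hr2 : 0 < r ^ 2 := pow_pos hr 2
    have h1 := hF.sup L hL x r hr
    have h2 := hF.sub L hL x r hr
    have h3 := J1 x r hr
    have h4 := J0 x r hr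
    rw [abs_le, le_div_iff₀ hr2, div_le_iff₀ hr2]
    constructor <;> nlinarith
  · have hz := rate_zero (hF.cont L hL) (hF.nonneg L hL) (K := 2 * L + M)
      (fun z x hz => hQuad μ C u hF M hM1 L hL z x hz)
    filter_upwards [hz] with x hx
    by_cases hp : 0 < u L x
    · rw [indicator_of_mem (show x ∈ {x | 0 < u L x} from hp)]
      have ho : {x | 0 < u L x} ∈ 𝓝 x :=
        (isOpen_lt continuous_const (hF.cont L hL)).mem_nhds hp
      obtain ⟨ρ, hρ, hb⟩ := Metric.mem_nhds_iff.1 ho
      rw [Metric.tendsto_nhds]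
      intro ε hε
      have hc := Metric.continuousAt_iff'.1 (hF.src.cont.continuousAt (x := x)) (ε / 2)
        (half_pos hε)
      obtain ⟨δ, hδ, h⟩ := Metric.eventually_nhds_iff.1 hc
      filter_upwards [Ioo_mem_nhdsGT (lt_min hδ hρ)] with r hr
      have hrδ : r < δ := hr.2.trans_le (min_le_left _ _)
      have hrρ : r < ρ := hr.2.trans_le (min_le_right _ _)
      have hr2 : 0 < r ^ 2 := pow_pos hr.1 2
      have e1 := hF.har L hL x r hr.1 ((closedBall_subset_ball hrρ).trans hb)
      have b1 := (hJ μ hF.src.cont hF.src.cpt x r (μ x + ε / 2) hr.1).1 fun y hy => by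
        have := h (y := y) (lt_of_le_of_lt (mem_closedBall.1 hy) hrδ)
        rw [Real.dist_eq, abs_lt] at this
        linarith [this.2]
      have b2 := (hJ μ hF.src.cont hF.src.cpt x r (μ x - ε / 2) hr.1).2 fun y hy => by
        have := h (y := y) (lt_of_le_of_lt (mem_closedBall.1 hy) hrδ)
        rw [Real.dist_eq, abs_lt] at this
        linarith [this.1]
      have e2 : 4 * (Real.circleAverage (u L) x r - u L x) / r ^ 2 - (L - μ x) =
          μ x - 4 * O.J r μ x / r ^ 2 := by
        have hr0 : r ≠ 0 := hr.1.ne'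
        rw [e1]
        field_simp
        ring
      rw [Real.dist_eq, e2, abs_lt]
      have c1 : 4 * O.J r μ x / r ^ 2 ≤ μ x + ε / 2 := by
        rw [div_le_iff₀ hr2]
        linarith
      have c2 : μ x - ε / 2 ≤ 4 * O.J r μ x / r ^ 2 := by
        rw [le_div_iff₀ hr2]
        linarith
      constructor <;> linarith
    · rw [indicator_of_notMem (show x ∉ {x | 0 < u L x} from hp)]
      exact hx (le_antisymm (not_lt.1 hp) (hF.nonneg L hL x))

theorem pos_eq (hConv : O.StmtConv) (hUs : O.StmtUs) {μ : ℂ → ℝ} {C : ℝ} {u : ℝ → ℂ → ℝ}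
    (h : O.Fam μ C u) {L : ℝ} (hL : 0 < L) : {x | 0 < u L x} = O.Us u L := by
  refine Subset.antisymm (fun x hx => ?_) (hUs μ C u h L hL).2.2.2
  have h1 : ContinuousAt (fun l => u l x) L :=
    (hConv μ C u h x).2.1.continuousAt (Ioi_mem_nhds hL)
  have h2 : ∀ᶠ l in 𝓝 L, 0 < u l x := h1.eventually (lt_mem_nhds hx)
  obtain ⟨l, hl, hl2⟩ := ((h2.filter_mono nhdsWithin_le_nhds).and
    (self_mem_nhdsWithin (a := L) (s := Ioi L))).exists
  exact ⟨l, hl2, hl⟩

/-- the weak equation -/
def StmtWk : Prop := ∀ μ C u, O.Fam μ C u → ∀ L, 0 < L → ∀ φ, O.Tst φ →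
  ∫ x, u L x * lap φ x = ∫ x in O.Us u L, (L - μ x) * φ x

/-- the mass equality -/
def StmtMassEq : Prop := ∀ μ C u, O.Fam μ C u → ∀ L, 0 < L → ∫ x in O.Us u L, (L - μ x) = 0

theorem stmtWk (hJ : O.StmtJ) (hQuad : O.StmtQuad) (hConv : O.StmtConv) (hUs : O.StmtUs) :
    StmtWk := by
  intro μ C u hF L hL φ hφ
  have hm : MeasurableSet {x | 0 < u L x} :=
    (isOpen_lt continuous_const (hF.cont L hL)).measurableSet
  rw [(fam_rate hJ hQuad hF hL).weak (by exact_mod_cast contDiff_infty.1 hφ.1 2) hφ.2,
    ← pos_eq hConv hUs hF hL, ← integral_indicator hm]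
  refine integral_congr_ae (Eventually.of_forall fun x => ?_)
  by_cases hx : x ∈ {x | 0 < u L x}
  · simp only [indicator_of_mem hx]
  · simp only [indicator_of_notMem hx, zero_mul]

theorem stmtMassEq (hJ : O.StmtJ) (hQuad : O.StmtQuad) (hConv : O.StmtConv) (hUs : O.StmtUs) :
    StmtMassEq := by
  intro μ C u hF L hL
  have hm : MeasurableSet {x | 0 < u L x} :=
    (isOpen_lt continuous_const (hF.cont L hL)).measurableSet
  rw [← pos_eq hConv hUs hF hL, ← integral_indicator hm]
  exact (fam_rate hJ hQuad hF hL).mass.2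

/-- `StmtMass` of group O -/
theorem stmtMass (hJ : O.StmtJ) (hQuad : O.StmtQuad) (hConv : O.StmtConv) (hUs : O.StmtUs) :
    O.StmtMass := fun μ C u hF L hL => (stmtMassEq hJ hQuad hConv hUs μ C u hF L hL).le

end Pool.Agent.Lib.QNL.Weak
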