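import Pool.Agent.Lib.QNL.C1_36
import Pool.Agent.Lib.QNL.Weak89
import Pool.Agent.Lib.QNL.O_Quad53
import Pool.Agent.Lib.QNL.PerD3
import Pool.Agent.Lib.QNL.O_Conv91
import Pool.Agent.Lib.QNL.Contr32

/-!
QNL, group C (contraction), part 2: the volume `|U l D| = e^l |D|`, the expanding family
(`Contr32.Expand`) and the odometer of `U l D`.
-/

set_option autoImplicit false

namespace Pool.Agent.Lib.QNL.Ctr

open MeasureTheory Filter Topology Set Metric
open scoped ENNReal

theorem exist : O.StmtExist := Per.stmtExist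

theorem rate {μ : ℂ → ℝ} {C : ℝ} {u : ℝ → ℂ → ℝ} (hF : O.Fam μ C u) {L : ℝ} (hL : 0 < L) :
    Weak.Rate (u L) ({x | 0 < u L x}.indicator fun x => L - μ x) :=
  Weak.fam_rate Per.stmtJ (O.stmtQuad Per.stmtJ) hF hL

theorem isBounded_pos {μ : ℂ → ℝ} {C : ℝ} {u : ℝ → ℂ → ℝ} (hF : O.Fam μ C u) {L : ℝ}
    (hL : 0 < L) : Bornology.IsBounded {x | 0 < u L x} :=
  (hF.cpt L hL).isCompact.isBounded.subset fun _ hz => subset_tsupport _ (ne_of_gt hz)

theorem isOpen_pos {μ : ℂ → ℝ} {C : ℝ} {u : ℝ → ℂ → ℝ} (hF : O.Fam μ C u) {L : ℝ}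
    (hL : 0 < L) : IsOpen {x | 0 < u L x} := isOpen_lt continuous_const (hF.cont L hL)

/-- the mass of the positivity set -/
theorem mass_pos {μ : ℂ → ℝ} {C : ℝ} {u : ℝ → ℂ → ℝ} (hF : O.Fam μ C u) {L : ℝ} (hL : 0 < L) :
    L * (volume {x | 0 < u L x}).toReal = ∫ x in {x | 0 < u L x}, μ x := by
  have hm := (isOpen_pos hF hL).measurableSet
  have hfin : volume {x | 0 < u L x} ≠ ∞ := (isBounded_pos hF hL).measure_lt_top.ne
  have h1 := (rate hF hL).mass.2
  have i1 : Integrable (fun _ : ℂ => L) (volume.restrict {x | 0 < u L x}) := integrableOn_const hfin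
  have i2 : Integrable μ (volume.restrict {x | 0 < u L x}) :=
    (hF.src.cont.integrable_of_hasCompactSupport hF.src.cpt).integrableOn
  rw [integral_indicator hm, integral_sub i1 i2, setIntegral_const, Measure.real,
    smul_eq_mul] at h1
  linarith

theorem measurableSet_Vs {l : ℝ} {D : Set ℂ} {ν : ℂ → ℝ} (hν : Sub D ν) :
    MeasurableSet (Vs l ν) := by
  obtain ⟨C, hC⟩ := hν.src
  exact (isOpen_Vs exist hC).measurableSet

/-- upper bound of the volume -/
theorem vol_Vs_le {l : ℝ} {D : Set ℂ} (hD : MeasurableSet D) {ν : ℂ → ℝ} (hν : Sub D ν) :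
    volume (Vs l ν) ≤ ENNReal.ofReal (Real.exp l) * volume D := by
  rcases eq_or_ne (volume D) ∞ with h | h
  · rw [h, ENNReal.mul_top (by simpa using Real.exp_pos l)]
    exact le_top
  obtain ⟨C, hC⟩ := hν.src
  obtain ⟨u, hu⟩ := exist ν C hC
  have hpos := Real.exp_pos (-l)
  have h1 := mass_pos hu hpos
  have hfin : volume {x | 0 < u (Real.exp (-l)) x} ≠ ∞ := (isBounded_pos hu hpos).measure_lt_top.ne
  have hi : Integrable ν := hC.cont.integrable_of_hasCompactSupport hC.cpt
  have h2 : ∫ x in {x | 0 < u (Real.exp (-l)) x}, ν x ≤ (volume D).toReal := by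
    calc ∫ x in {x | 0 < u (Real.exp (-l)) x}, ν x ≤ ∫ x, ν x :=
          setIntegral_le_integral hi (Eventually.of_forall hC.nonneg)
      _ ≤ ∫ x, D.indicator (fun _ => (1 : ℝ)) x := by
          refine integral_mono hi ((integrable_indicator_iff hD).2 (integrableOn_const h)) fun x => ?_
          by_cases hx : x ∈ D
          · rw [indicator_of_mem hx]
            exact hν.le x
          · rw [indicator_of_notMem hx, image_eq_zero_of_notMem_tsupport (fun h' => hx (hν.supp h'))]
      _ = (volume D).toReal := by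
          rw [integral_indicator hD, setIntegral_const, Measure.real, smul_eq_mul, mul_one]
  rw [Vs_eq hu]
  have h3 : (volume {x | 0 < u (Real.exp (-l)) x}).toReal ≤ Real.exp l * (volume D).toReal := by
    have e : Real.exp l * Real.exp (-l) = 1 := by rw [← Real.exp_add, add_neg_cancel, Real.exp_zero]
    calc (volume {x | 0 < u (Real.exp (-l)) x}).toReal
        = Real.exp l * (Real.exp (-l) * (volume {x | 0 < u (Real.exp (-l)) x}).toReal) := by
          rw [← mul_assoc, e, one_mul]
      _ ≤ Real.exp l * (volume D).toReal := by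
          rw [h1]
          exact mul_le_mul_of_nonneg_left h2 (Real.exp_pos l).le
  rw [← ENNReal.ofReal_toReal hfin, ← ENNReal.ofReal_toReal h,
    ← ENNReal.ofReal_mul (Real.exp_pos l).le]
  exact ENNReal.ofReal_le_ofReal h3

/-- lower bound of the volume -/
theorem le_vol_Vs {l : ℝ} (hl : 0 < l) {D K : Set ℂ} (hK : IsCompact K) {ν : ℂ → ℝ}
    (hν : Sub D ν) (h1 : ∀ x ∈ K, ν x = 1) :
    ENNReal.ofReal (Real.exp l) * volume K ≤ volume (Vs l ν) := by
  obtain ⟨C, hC⟩ := hν.src
  obtain ⟨u, hu⟩ := exist ν C hC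
  have hpos := Real.exp_pos (-l)
  have hm := mass_pos hu hpos
  have hfin : volume {x | 0 < u (Real.exp (-l)) x} ≠ ∞ := (isBounded_pos hu hpos).measure_lt_top.ne
  have hi : Integrable ν := hC.cont.integrable_of_hasCompactSupport hC.cpt
  have hsub : K ⊆ {x | 0 < u (Real.exp (-l)) x} := by
    intro z hz
    refine (sup_fam hu hpos).pos hC.cont hC.cpt ?_
    rw [h1 z hz]
    exact Real.exp_lt_one_iff.2 (by linarith)
  have h2 : (volume K).toReal ≤ ∫ x in {x | 0 < u (Real.exp (-l)) x}, ν x := by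
    calc (volume K).toReal = ∫ x in K, ν x := by
          rw [setIntegral_congr_fun hK.measurableSet (g := fun _ => (1 : ℝ)) (fun x hx => h1 x hx),
            setIntegral_const, Measure.real, smul_eq_mul, mul_one]
      _ ≤ ∫ x in {x | 0 < u (Real.exp (-l)) x}, ν x :=
          setIntegral_mono_set hi.integrableOn (Eventually.of_forall hC.nonneg)
            (LE.le.eventuallyLE hsub)
  rw [Vs_eq hu]
  have h3 : Real.exp l * (volume K).toReal ≤ (volume {x | 0 < u (Real.exp (-l)) x}).toReal := by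
    have e : Real.exp l * Real.exp (-l) = 1 := by rw [← Real.exp_add, add_neg_cancel, Real.exp_zero]
    calc Real.exp l * (volume K).toReal
        ≤ Real.exp l * (Real.exp (-l) * (volume {x | 0 < u (Real.exp (-l)) x}).toReal) := by
          rw [hm]
          exact mul_le_mul_of_nonneg_left h2 (Real.exp_pos l).le
      _ = (volume {x | 0 < u (Real.exp (-l)) x}).toReal := by
          rw [← mul_assoc, e, one_mul]
  rw [← ENNReal.ofReal_toReal hfin, ← ENNReal.ofReal_toReal hK.measure_lt_top.ne,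
    ← ENNReal.ofReal_mul (Real.exp_pos l).le]
  exact ENNReal.ofReal_le_ofReal h3

/-- **the volume of the expansion** -/
theorem vol_U {l : ℝ} (hl : 0 ≤ l) {D : Set ℂ} (hD : IsOpen D) :
    volume (U l D) = ENNReal.ofReal (Real.exp l) * volume D := by
  rcases hl.eq_or_lt with rfl | hl
  · rw [U_zero, Real.exp_zero, ENNReal.ofReal_one, one_mul]
  refine le_antisymm ?_ ?_
  · rw [(isOpen_U exist l hD).measure_eq_iSup_isCompact]
    refine iSup_le fun K => iSup_le fun hKU => iSup_le fun hK => ?_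
    obtain ⟨ν, hν, h⟩ := compact_U exist hl hD hK hKU
    exact (measure_mono h).trans (vol_Vs_le hD.measurableSet hν)
  · rw [hD.measure_eq_iSup_isCompact]
    simp only [ENNReal.mul_iSup]
    refine iSup_le fun K => iSup_le fun hKD => iSup_le fun hK => ?_
    obtain ⟨ν, hν, h⟩ := exists_sub hD hK hKD
    refine (le_vol_Vs hl hK hν h).trans (measure_mono fun z hz => ?_)
    exact Or.inr ⟨ν, hν, hz⟩

theorem U_empty (l : ℝ) (hl : 0 ≤ l) : U l ∅ = ∅ := by
  have h := vol_U hl isOpen_empty
  rw [measure_empty, mul_zero] at h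
  exact (isOpen_U exist l isOpen_empty).eq_empty_of_measure_zero h

/-- **overlap** -/
theorem overlap {l : ℝ} (hl : 0 ≤ l) {A B : Set ℂ} (hA : IsOpen A) (hB : IsOpen B) :
    ENNReal.ofReal (Real.exp l) * volume (A ∩ B) ≤ volume (U l A ∩ U l B) := by
  rw [← vol_U hl (hA.inter hB)]
  exact measure_mono (subset_inter (U_mono inter_subset_left) (U_mono inter_subset_right))

/-- the expanding family of a nest of open sets -/
theorem expand {G : ℝ → Set ℂ} (hG : Lev32.Nest G) (hop : ∀ s, 0 < s → IsOpen (G s)) :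
    Contr32.Expand volume (fun l s => U l (G s)) := by
  refine ⟨fun l hl => ⟨fun s hs => (isOpen_U exist l (hop s hs)).measurableSet, fun s s' hs hss =>
    U_mono (hG.anti s s' hs hss), ?_⟩, ?_, ?_⟩
  · obtain ⟨M, hM0, hM⟩ := hG.top
    refine ⟨M, hM0, fun s hs => ?_⟩
    rw [hM s hs, U_empty l hl]
  · intro l hl s hs
    rw [U_zero, vol_U hl (hop s hs)]
  · intro l l' k hl hl' hk s t hs ht
    refine (overlap hk (isOpen_U exist l (hop s hs)) (isOpen_U exist l' (hop t ht))).trans
      (measure_mono (inter_subset_inter ?_ ?_))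
    · rw [add_comm]
      exact U_U_subset exist hk hl (hop s hs)
    · rw [add_comm]
      exact U_U_subset exist hk hl' (hop t ht)

end Pool.Agent.Lib.QNL.Ctr
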