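import Pool.Agent.Lib.QNL.Stmts

/-!
Group T: smooth sources.

`src_of_smooth` : a smooth nonnegative function with compact support is a source.
`exists_source` : inner approximation of the indicator of a bounded open set by sources.
-/

set_option autoImplicit false

namespace Pool.Agent.Lib.QNL
namespace Bump77

open MeasureTheory Filter Topology Set
open scoped ENNReal ContDiff NNReal Manifold

/-- Taylor's inequality with a global constant -/
theorem taylor {μ : ℂ → ℝ} (h : ContDiff ℝ ∞ μ) (hc : HasCompactSupport μ) :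
    ∃ C : ℝ, 0 ≤ C ∧ ∀ z w : ℂ, |μ w - μ z - fderiv ℝ μ z (w - z)| ≤ C * ‖w - z‖ ^ 2 := by
  have h1 : ContDiff ℝ 1 (fderiv ℝ μ) := h.fderiv_right (by norm_cast)
  obtain ⟨K, hK⟩ := ContDiff.lipschitzWith_of_hasCompactSupport (𝕂 := ℝ) (hc.fderiv ℝ) h1 (by simp)
  refine ⟨K, K.2, fun z w => ?_⟩
  have hd : Differentiable ℝ μ := h.differentiable (by simp)
  have hconv : Convex ℝ (Metric.closedBall z ‖w - z‖) := convex_closedBall _ _
  have hb := hconv.norm_image_sub_le_of_norm_fderiv_le' (𝕜 := ℝ) (f := μ) (φ := fderiv ℝ μ z)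
    (C := K * ‖w - z‖) (x := z) (y := w) (fun x _ => hd x) (fun x hx => ?_)
    (Metric.mem_closedBall_self (norm_nonneg _)) (by
      rw [Metric.mem_closedBall, dist_eq_norm])
  · rw [Real.norm_eq_abs] at hb
    calc _ ≤ (K * ‖w - z‖) * ‖w - z‖ := hb
      _ = K * ‖w - z‖ ^ 2 := by ring
  · have h2 := hK.dist_le_mul x z
    rw [dist_eq_norm, dist_eq_norm] at h2
    have h3 : ‖x - z‖ ≤ ‖w - z‖ := by
      rwa [Metric.mem_closedBall, dist_eq_norm] at hx
    exact h2.trans (mul_le_mul_of_nonneg_left h3 K.2)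

/-- the mean of an affine function -/
theorem circleAverage_affine (l : ℂ →L[ℝ] ℝ) (b : ℝ) (c : ℂ) (R : ℝ) :
    Real.circleAverage (fun w => b + l (w - c)) c R = b := by
  have h1 : Real.circleAverage (fun w : ℂ => w) c R = c := by
    have : DiffContOnCl ℂ (fun w : ℂ => w) (Metric.ball c |R|) := differentiable_id.diffContOnCl
    exact this.circleAverage
  have h2 : Real.circleAverage (l ∘ fun w : ℂ => w) c R = l c := by
    rw [l.circleAverage_comp_comm (circleIntegrable_id c R), h1]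
  have h3 : (fun w => b + l (w - c)) = (fun _ : ℂ => (b - l c)) + (l ∘ fun w : ℂ => w) := by
    funext w
    simp only [Pi.add_apply, Function.comp, map_sub]
    ring
  have h4 : CircleIntegrable (l ∘ fun w : ℂ => w) c R :=
    (l.continuous.comp continuous_id).continuousOn.circleIntegrable'
  rw [h3, Real.circleAverage_add (circleIntegrable_const _ _ _) h4, h2,
    Real.circleAverage_const]
  ring

/-- **smooth sources** -/
theorem src_of_smooth {μ : ℂ → ℝ} (h : ContDiff ℝ ∞ μ) (hc : HasCompactSupport μ)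
    (h0 : ∀ z, 0 ≤ μ z) : ∃ C, Src μ C := by
  obtain ⟨C, hC0, hC⟩ := taylor h hc
  refine ⟨C, h.continuous, h0, hc, hC0, fun z r hr _ => ?_⟩
  have h1 : Real.circleAverage (fun w => (μ z - C * r ^ 2) + fderiv ℝ μ z (w - z)) z r =
      μ z - C * r ^ 2 := circleAverage_affine _ _ _ _
  rw [← h1]
  refine Real.circleAverage_mono ?_ h.continuous.continuousOn.circleIntegrable' ?_
  · exact (continuous_const.add ((fderiv ℝ μ z).continuous.comp
      (continuous_id.sub continuous_const))).continuousOn.circleIntegrable'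
  · intro w hw
    have h2 := hC z w
    have h3 : ‖w - z‖ = r := by
      rw [Metric.mem_sphere, dist_eq_norm, abs_of_pos hr] at hw
      exact hw
    rw [h3, abs_le] at h2
    show μ z - C * r ^ 2 + fderiv ℝ μ z (w - z) ≤ μ w
    linarith [h2.1]

/-- the same in the two-point form -/
theorem two_point {μ : ℂ → ℝ} (h : ContDiff ℝ ∞ μ) (hc : HasCompactSupport μ) :
    ∃ C : ℝ, 0 ≤ C ∧ ∀ z a : ℂ, 2 * μ z - 2 * C * ‖a‖ ^ 2 ≤ μ (z + a) + μ (z - a) := by
  obtain ⟨C, hC0, hC⟩ := taylor h hc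
  refine ⟨C, hC0, fun z a => ?_⟩
  have h1 := hC z (z + a)
  have h2 := hC z (z - a)
  rw [add_sub_cancel_left] at h1
  rw [show z - a - z = -a by ring, map_neg, norm_neg] at h2
  rw [abs_le] at h1 h2
  linarith [h1.1, h2.1]

/-- the inner sets `{dist (·, Dᶜ) > 1/(k+1)}` -/
def Inn (D : Set ℂ) (k : ℕ) : Set ℂ := {z | 1 / ((k : ℝ) + 1) < Metric.infDist z Dᶜ}

theorem inn_open (D : Set ℂ) (k : ℕ) : IsOpen (Inn D k) :=
  isOpen_lt continuous_const (Metric.continuous_infDist_pt _)

theorem inn_mono (D : Set ℂ) : Monotone (Inn D) := by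
  intro i j hij z hz
  have h1 : 1 / ((j : ℝ) + 1) ≤ 1 / ((i : ℝ) + 1) := by
    have : (i : ℝ) ≤ j := by exact_mod_cast hij
    exact one_div_le_one_div_of_le (by positivity) (by linarith)
  exact lt_of_le_of_lt h1 hz

theorem inn_sub (D : Set ℂ) (k : ℕ) : Inn D k ⊆ D := by
  intro z hz
  by_contra hcon
  have h1 : Metric.infDist z Dᶜ = 0 := Metric.infDist_zero_of_mem hcon
  have h2 : 1 / ((k : ℝ) + 1) < Metric.infDist z Dᶜ := hz
  rw [h1] at h2
  have : (0 : ℝ) < 1 / ((k : ℝ) + 1) := by positivity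
  linarith

theorem compl_nonempty {D : Set ℂ} (hb : Bornology.IsBounded D) : (Dᶜ).Nonempty := by
  rw [nonempty_compl]
  intro h
  rw [h] at hb
  obtain ⟨R, hR⟩ := (isBounded_iff_forall_norm_le).1 hb
  have := hR ((|R| + 1 : ℝ) : ℂ) (mem_univ _)
  rw [Complex.norm_real, Real.norm_eq_abs, abs_of_nonneg (by positivity)] at this
  have h2 := le_abs_self R
  linarith

theorem inn_union {D : Set ℂ} (hD : IsOpen D) (hb : Bornology.IsBounded D) :
    ⋃ k, Inn D k = D := by
  apply Subset.antisymm (iUnion_subset fun k => inn_sub D k)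
  intro z hz
  have h1 : z ∉ closure Dᶜ := by
    rw [hD.isClosed_compl.closure_eq]; exact fun h => h hz
  have h2 : 0 < Metric.infDist z Dᶜ :=
    lt_of_le_of_ne Metric.infDist_nonneg
      (fun h => h1 ((Metric.mem_closure_iff_infDist_zero (compl_nonempty hb)).2 h.symm))
  obtain ⟨k, hk⟩ := exists_nat_one_div_lt h2
  exact mem_iUnion.2 ⟨k, hk⟩

/-- **inner approximation by sources** -/
theorem exists_source {D : Set ℂ} (hb : Bornology.IsBounded D) (k : ℕ) :
    ∃ μ : ℂ → ℝ, ContDiff ℝ ∞ μ ∧ HasCompactSupport μ ∧ tsupport μ ⊆ D ∧ (∀ z, 0 ≤ μ z) ∧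
      (∀ z, μ z ≤ 1) ∧ ∀ z ∈ Inn D k, μ z = 1 := by
  set δ : ℝ := 1 / ((k : ℝ) + 1) with hδ
  have hδ0 : 0 < δ := by positivity
  set s : Set ℂ := {z | Metric.infDist z Dᶜ ≤ δ / 2} with hs
  set t : Set ℂ := {z | δ ≤ Metric.infDist z Dᶜ} with ht
  have hsc : IsClosed s := isClosed_le (Metric.continuous_infDist_pt _) continuous_const
  have htc : IsClosed t := isClosed_le continuous_const (Metric.continuous_infDist_pt _)
  have hd : Disjoint s t := by
    rw [Set.disjoint_left]
    intro z hz hz'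
    have h1 : Metric.infDist z Dᶜ ≤ δ / 2 := hz
    have h2 : δ ≤ Metric.infDist z Dᶜ := hz'
    linarith
  obtain ⟨f, hf0, hf1, hf⟩ := exists_contMDiffMap_zero_one_of_isClosed (n := ⊤)
    (modelWithCornersSelf ℝ ℂ) hsc htc hd
  have hsup : tsupport (f : ℂ → ℝ) ⊆ {z | δ / 2 ≤ Metric.infDist z Dᶜ} := by
    apply closure_minimal _ (isClosed_le continuous_const (Metric.continuous_infDist_pt _))
    intro z hz
    by_contra hcon
    have : z ∈ s := by
      have h1 : ¬ (δ / 2 ≤ Metric.infDist z Dᶜ) := hcon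
      exact (not_le.1 h1).le
    exact hz (hf0 this)
  have hsupD : tsupport (f : ℂ → ℝ) ⊆ D := by
    intro z hz
    by_contra hcon
    have h1 : Metric.infDist z Dᶜ = 0 := Metric.infDist_zero_of_mem hcon
    have h2 : δ / 2 ≤ Metric.infDist z Dᶜ := hsup hz
    rw [h1] at h2
    linarith
  refine ⟨f, ?_, ?_, hsupD, fun z => (hf z).1, fun z => (hf z).2, fun z hz => ?_⟩
  · exact f.contMDiff.contDiff
  · exact Metric.isCompact_of_isClosed_isBounded (isClosed_tsupport _) (hb.subset hsupD)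
  · exact hf1 (show δ ≤ Metric.infDist z Dᶜ from (show δ < Metric.infDist z Dᶜ from hz).le)

end Bump77
end Pool.Agent.Lib.QNL
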