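import Mathlib

/-!
Tools for the layer inequality: partial derivatives of real functions on `ℂ`, product rules,
and the divergence identity `∫ (∂₁ V + ∂₂ W) = 0` for `C¹` fields with compact support.
-/

set_option autoImplicit false

namespace Pool.Agent.Lib.QNL

open MeasureTheory Filter Topology Set
open scoped ContDiff

section defs
variable {F : Type*} [NormedAddCommGroup F] [NormedSpace ℝ F]

/-- The derivative of a function on `ℂ` in the direction `v`. -/
noncomputable def dv (v : ℂ) (f : ℂ → F) (z : ℂ) : F := fderiv ℝ f z v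

/-- The partial derivative `∂₁` of a function on `ℂ`. -/
noncomputable def dx (f : ℂ → F) (z : ℂ) : F := fderiv ℝ f z 1

/-- The partial derivative `∂₂` of a function on `ℂ`. -/
noncomputable def dy (f : ℂ → F) (z : ℂ) : F := fderiv ℝ f z Complex.I

/-- The Laplacian `∂₁² + ∂₂²`. -/
noncomputable def lap (f : ℂ → F) (z : ℂ) : F := dx (dx f) z + dy (dy f) z

theorem dx_eq (f : ℂ → F) : dx f = dv 1 f := rfl
theorem dy_eq (f : ℂ → F) : dy f = dv Complex.I f := rfl

/-- `∂ = (∂₁ - i ∂₂)/2` -/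
noncomputable def dz (f : ℂ → ℂ) (z : ℂ) : ℂ := (dx f z - Complex.I * dy f z) / 2

/-- `∂̄ = (∂₁ + i ∂₂)/2` -/
noncomputable def dzb (f : ℂ → ℂ) (z : ℂ) : ℂ := (dx f z + Complex.I * dy f z) / 2

/-- `∂^a ∂̄^b Y` -/
noncomputable def Dab (a b : ℕ) (Y : ℂ → ℂ) : ℂ → ℂ := dz^[a] (dzb^[b] Y)

/-- `|D^k Y|² := ∑_{a + b = k} |∂^a ∂̄^b Y|²` -/
noncomputable def nn (k : ℕ) (Y : ℂ → ℂ) (z : ℂ) : ℝ :=
  ∑ a ∈ Finset.range (k + 1), ‖Dab a (k - a) Y z‖ ^ 2

/-- `|∇ g|²` for a real function -/
noncomputable def gr (g : ℂ → ℝ) (z : ℂ) : ℝ := dx g z ^ 2 + dy g z ^ 2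

end defs

section rules
variable {f g : ℂ → ℝ} {z v : ℂ}

theorem dv_add (hf : DifferentiableAt ℝ f z) (hg : DifferentiableAt ℝ g z) :
    dv v (fun w => f w + g w) z = dv v f z + dv v g z := by
  unfold dv
  rw [show (fun w => f w + g w) = f + g from rfl, fderiv_add hf hg]
  rfl

theorem dv_sub (hf : DifferentiableAt ℝ f z) (hg : DifferentiableAt ℝ g z) :
    dv v (fun w => f w - g w) z = dv v f z - dv v g z := by
  unfold dv
  rw [show (fun w => f w - g w) = f - g from rfl, fderiv_sub hf hg]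
  rfl

theorem dv_neg : dv v (fun w => - f w) z = - dv v f z := by
  unfold dv
  rw [show (fun w => - f w) = - f from rfl, fderiv_neg]
  rfl

theorem dv_const (c : ℝ) : dv v (fun _ => c) z = 0 := by
  unfold dv
  simp

theorem dv_mul (hf : DifferentiableAt ℝ f z) (hg : DifferentiableAt ℝ g z) :
    dv v (fun w => f w * g w) z = dv v f z * g z + f z * dv v g z := by
  unfold dv
  rw [show (fun w => f w * g w) = f * g from rfl, fderiv_mul hf hg]
  simp only [add_apply, smul_apply, smul_eq_mul]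
  ring

theorem dv_cmul (c : ℝ) (hf : DifferentiableAt ℝ f z) :
    dv v (fun w => c * f w) z = c * dv v f z := by
  unfold dv
  rw [fderiv_const_mul hf c]
  rfl

/-- chain rule -/
theorem dv_comp {χ : ℝ → ℝ} (hχ : DifferentiableAt ℝ χ (g z)) (hg : DifferentiableAt ℝ g z) :
    dv v (fun w => χ (g w)) z = deriv χ (g z) * dv v g z := by
  unfold dv
  have h := (hχ.hasDerivAt.comp_hasFDerivAt z hg.hasFDerivAt).fderiv
  rw [show (fun w => χ (g w)) = χ ∘ g from rfl, h]
  rfl

theorem dv_congr {f g : ℂ → ℝ} (h : f =ᶠ[𝓝 z] g) : dv v f z = dv v g z := by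
  unfold dv
  rw [h.fderiv_eq]

/-- second derivatives commute -/
theorem dv_comm {O : Set ℂ} (hO : IsOpen O) (hf : ContDiffOn ℝ 2 f O) (hz : z ∈ O) (v w : ℂ) :
    dv v (dv w f) z = dv w (dv v f) z := by
  have h2 : ContDiffAt ℝ 2 f z := hf.contDiffAt (hO.mem_nhds hz)
  have hd : DifferentiableAt ℝ (fderiv ℝ f) z :=
    (h2.fderiv_right (m := 1) (by norm_num)).differentiableAt (by norm_num)
  have h1 : ∀ v w : ℂ, dv v (dv w f) z = fderiv ℝ (fderiv ℝ f) z v w := by
    intro v w
    unfold dv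
    have := fderiv_clm_apply hd (differentiableAt_const w)
    rw [this]
    simp
  rw [h1, h1]
  exact second_derivative_symmetric_of_eventually (f := f) (f' := fderiv ℝ f)
    (by
      have hev : ∀ᶠ y in 𝓝 z, DifferentiableAt ℝ f y := by
        filter_upwards [hO.mem_nhds hz] with y hy
        exact (hf.contDiffAt (hO.mem_nhds hy)).differentiableAt (by norm_num)
      filter_upwards [hev] with y hy using hy.hasFDerivAt) hd.hasFDerivAt v w

end rules

/-- the derivative `dv v f` of a function which is `C^(n+1)` in an open set is `C^n` there -/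
theorem contDiffOn_dv {f : ℂ → ℝ} {O : Set ℂ} (hO : IsOpen O) {m n : WithTop ℕ∞}
    (hf : ContDiffOn ℝ n f O) (hmn : m + 1 ≤ n) (v : ℂ) : ContDiffOn ℝ m (dv v f) O := by
  have h1 : ContDiffOn ℝ m (fderiv ℝ f) O := hf.fderiv_of_isOpen hO hmn
  exact h1.clm_apply contDiffOn_const

section cpt
variable {E : Type*} [NormedAddCommGroup E] [NormedSpace ℝ E]

theorem dvE_congr {v z : ℂ} {f g : ℂ → E} (h : f =ᶠ[𝓝 z] g) : dv v f z = dv v g z := by
  unfold dv
  rw [h.fderiv_eq]

/-- a function which is `C^n` in an open set and vanishes off a compact subset of it is `C^n` -/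
theorem contDiff_of_cpt {F : ℂ → E} {U K : Set ℂ} {n : WithTop ℕ∞} (hU : IsOpen U)
    (hK : IsCompact K) (hKU : K ⊆ U) (hF : ContDiffOn ℝ n F U) (h0 : ∀ z, z ∉ K → F z = 0) :
    ContDiff ℝ n F := by
  rw [contDiff_iff_contDiffAt]
  intro z
  by_cases hz : z ∈ K
  · exact hF.contDiffAt (hU.mem_nhds (hKU hz))
  · have : F =ᶠ[𝓝 z] fun _ => (0 : E) := by
      filter_upwards [hK.isClosed.isOpen_compl.mem_nhds hz] with w hw using h0 w hw
    exact contDiffAt_const.congr_of_eventuallyEq this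

omit [NormedSpace ℝ E] in
/-- continuity version -/
theorem continuous_of_cpt {F : ℂ → E} {U K : Set ℂ} (hU : IsOpen U)
    (hK : IsCompact K) (hKU : K ⊆ U) (hF : ContinuousOn F U) (h0 : ∀ z, z ∉ K → F z = 0) :
    Continuous F := by
  rw [continuous_iff_continuousAt]
  intro z
  by_cases hz : z ∈ K
  · exact hF.continuousAt (hU.mem_nhds (hKU hz))
  · have : F =ᶠ[𝓝 z] fun _ => (0 : E) := by
      filter_upwards [hK.isClosed.isOpen_compl.mem_nhds hz] with w hw using h0 w hw
    exact continuousAt_const.congr this.symm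

theorem integrable_of_cpt {F : ℂ → E} {U K : Set ℂ} (hU : IsOpen U)
    (hK : IsCompact K) (hKU : K ⊆ U) (hF : ContinuousOn F U) (h0 : ∀ z, z ∉ K → F z = 0) :
    Integrable F :=
  (continuous_of_cpt hU hK hKU hF h0).integrable_of_hasCompactSupport
    (HasCompactSupport.intro hK h0)

/-- the integral of a derivative of a `C¹` function with compact support vanishes -/
theorem integral_dv_zero {F : ℂ → E} {U K : Set ℂ} (hU : IsOpen U)
    (hK : IsCompact K) (hKU : K ⊆ U) (hF : ContDiffOn ℝ 1 F U) (h0 : ∀ z, z ∉ K → F z = 0)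
    (v : ℂ) : Integrable (dv v F) ∧ ∫ z, dv v F z = 0 := by
  have hc : ContDiff ℝ 1 F := contDiff_of_cpt hU hK hKU hF h0
  have hcs : HasCompactSupport F := HasCompactSupport.intro hK h0
  have hcd : Continuous (fderiv ℝ F) := hc.continuous_fderiv (by norm_num)
  have hcv : Continuous (dv v F) := hcd.clm_apply continuous_const
  have hcsv : HasCompactSupport (dv v F) := by
    have := hcs.fderiv (𝕜 := ℝ)
    exact this.comp_left (g := fun L : ℂ →L[ℝ] E => L v) (by simp)
  have hint : Integrable (dv v F) := hcv.integrable_of_hasCompactSupport hcsv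
  refine ⟨hint, ?_⟩
  have h := integral_smul_fderiv_eq_neg_fderiv_smul_of_integrable (μ := (volume : Measure ℂ))
    (𝕜 := ℝ) (f := fun _ : ℂ => (1 : ℝ)) (g := F) (v := v) (by simp) (by
      have h' : Integrable (fun x => (fderiv ℝ F x) v) := hint
      simpa using h')
    (by simpa using hc.continuous.integrable_of_hasCompactSupport hcs)
    (fun x _ => differentiableAt_const _) (fun x _ => hc.differentiable (by norm_num) x)
  simpa [dv] using h

/-- off the compact set the derivatives vanish too -/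
theorem dv_zero_of_cpt {F : ℂ → E} {K : Set ℂ} (hK : IsCompact K)
    (h0 : ∀ z, z ∉ K → F z = 0) {z : ℂ} (hz : z ∉ K) (v : ℂ) : dv v F z = 0 := by
  have : F =ᶠ[𝓝 z] fun _ => (0 : E) := by
    filter_upwards [hK.isClosed.isOpen_compl.mem_nhds hz] with w hw using h0 w hw
  rw [dvE_congr this]
  unfold dv
  simp

end cpt

/-- **divergence identity** -/
theorem integral_div_zero {V W : ℂ → ℝ} {U K : Set ℂ} (hU : IsOpen U)
    (hK : IsCompact K) (hKU : K ⊆ U) (hV : ContDiffOn ℝ 1 V U) (hW : ContDiffOn ℝ 1 W U)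
    (hV0 : ∀ z, z ∉ K → V z = 0) (hW0 : ∀ z, z ∉ K → W z = 0) :
    Integrable (fun z => dx V z + dy W z) ∧ ∫ z, (dx V z + dy W z) = 0 := by
  obtain ⟨h1, h2⟩ := integral_dv_zero hU hK hKU hV hV0 1
  obtain ⟨h3, h4⟩ := integral_dv_zero hU hK hKU hW hW0 Complex.I
  refine ⟨h1.add h3, ?_⟩
  rw [show (fun z => dx V z + dy W z) = fun z => dv 1 V z + dv Complex.I W z from rfl]
  rw [integral_add h1 h3, h2, h4, add_zero]

end Pool.Agent.Lib.QNL
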