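import Pool.Agent.Lib.IWC.Stmts
import Pool.Agent.Lib.QNL.DV

/-!
Room QNL (frozen statement S06391, all `n`, all `p`): common definitions and the interface
statements between the groups, as `Prop`s (nothing is proved here).
-/

set_option autoImplicit false

namespace Pool.Agent.Lib.QNL

open MeasureTheory Filter Topology Set
open scoped ENNReal ContDiff ComplexInnerProductSpace

/-- The Hilbert space `L²(ℂ)`. -/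
abbrev H : Type := Pool.Agent.Lib.IWC.H

/-! ### Hilbert space part -/

/-- test functions in `D` -/
def Test (D : Set ℂ) (φ : ℂ → ℂ) : Prop :=
  ContDiff ℝ ∞ φ ∧ HasCompactSupport φ ∧ tsupport φ ⊆ D

/-- the closure of `{∂^j ∂̄^j φ : φ a test function in D}` in `L²(ℂ)` -/
noncomputable def K (j : ℕ) (D : Set ℂ) : Submodule ℂ H :=
  (Submodule.span ℂ {f : H | ∃ φ : ℂ → ℂ, Test D φ ∧
    (f : ℂ → ℂ) =ᵐ[volume] Dab j j φ}).topologicalClosure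

noncomputable instance (j : ℕ) (D : Set ℂ) : CompleteSpace (K j D) :=
  (Submodule.isClosed_topologicalClosure _).completeSpace_coe

/-- the projection on `K j D` -/
noncomputable def P (j : ℕ) (D : Set ℂ) (X : H) : H := (K j D).starProjection X

/-- `E_j(D) = |X - P_j X|²`, increasing in `j`, decreasing in `D` -/
noncomputable def E (j : ℕ) (D : Set ℂ) (X : H) : ℝ := ‖X - P j D X‖ ^ 2

/-- `b_j = P_j X - P_(j+1) X` -/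
noncomputable def bb (j : ℕ) (D : Set ℂ) (X : H) : H := P j D X - P (j + 1) D X

/-- the powers of the Beurling transform, symbol `(conj ξ / ξ) ^ k`, `k ∈ ℤ` -/
noncomputable def TT (k : ℤ) (f : H) : H :=
  Pool.Agent.Lib.IWC.Mu (fun ξ : ℂ => (starRingEnd ℂ ξ / ξ) ^ k) f

/-- Jets of order `2j` on `D`: all derivatives of a smooth function `Y` on `D` with
`(∂∂̄)^(2j+1) Y = 0`, which is a limit of test functions with all derivatives of order `≤ 2j`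
in `L²(D)`. -/
structure Jet (D : Set ℂ) (j : ℕ) (Y : ℕ → ℕ → ℂ → ℂ) : Prop where
  smooth : ∀ a b, ContDiffOn ℝ ∞ (Y a b) D
  hdz : ∀ a b, ∀ z ∈ D, dz (Y a b) z = Y (a + 1) b z
  hdzb : ∀ a b, ∀ z ∈ D, dzb (Y a b) z = Y a (b + 1) z
  pol : ∀ z ∈ D, Y (2 * j + 1) (2 * j + 1) z = 0
  lim : ∃ φ : ℕ → ℂ → ℂ, (∀ k, Test D (φ k)) ∧ ∀ a b, a + b ≤ 2 * j →
    Tendsto (fun k => eLpNorm (fun z => Dab a b (φ k) z - Y a b z) 2 (volume.restrict D))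
      atTop (𝓝 0)

/-- (H1) monotonicity -/
def StmtHmon : Prop := ∀ (j : ℕ) (D D' : Set ℂ), D ⊆ D' → K j D ≤ K j D' ∧ K (j + 1) D ≤ K j D

/-- (H2) `T^k f = 0` off `D` for `f ∈ K j D`, `|k| ≤ j`, and `T^k` is unitary -/
def StmtHsup : Prop := (∀ (k : ℤ) (f : H), ‖TT k f‖ = ‖f‖) ∧
  (∀ (k l : ℤ) (f : H), TT (k + l) f = TT k (TT l f)) ∧
  (∀ (k : ℤ) (f g : H), TT k (f - g) = TT k f - TT k g) ∧
  ∀ (j : ℕ) (D : Set ℂ) (k : ℤ), IsOpen D → |k| ≤ (j : ℤ) → ∀ f ∈ K j D,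
    ∀ᵐ z, z ∉ D → (TT k f : ℂ → ℂ) z = 0

/-- (H3) increments: `E_j(D) - E_j(D') ≥ ∫_{D' - D} |T^k (P_j' X)|²` -/
def StmtHinc : Prop := ∀ (j : ℕ) (D D' : Set ℂ) (k : ℤ) (X : H), IsOpen D → IsOpen D' →
  D ⊆ D' → |k| ≤ (j : ℤ) →
    ∫ z in D' \ D, ‖(TT k (P j D' X) : ℂ → ℂ) z‖ ^ 2 ≤ E j D X - E j D' X

/-- (H4) increments of `b_j` -/
def StmtHincb : Prop := ∀ (j : ℕ) (D D' : Set ℂ) (k : ℤ) (X : H), IsOpen D → IsOpen D' →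
  D ⊆ D' → |k| ≤ (j : ℤ) →
    ∫ z in D' \ D, ‖(TT k (bb j D' X) : ℂ → ℂ) z‖ ^ 2 ≤
      2 * (E j D X - E j D' X) + 2 * (E (j + 1) D X - E (j + 1) D' X)

/-- (H5) `|b_j|² = E_(j+1) - E_j` -/
def StmtHq : Prop := ∀ (j : ℕ) (D : Set ℂ) (X : H), ‖bb j D X‖ ^ 2 = E (j + 1) D X - E j D X

/-- (H6) `∫_{D^c} |T^n X|² ≤ E_n(D)` -/
def StmtHoff : Prop := ∀ (n : ℕ) (D : Set ℂ) (X : H), IsOpen D →
  ∫ z in Dᶜ, ‖(TT n X : ℂ → ℂ) z‖ ^ 2 ≤ E n D X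

/-- (H7) the function `Y` of `b_j` -/
def StmtHjet : Prop := ∀ (j : ℕ) (D : Set ℂ) (X : H), IsOpen D → Bornology.IsBounded D →
  (∀ᵐ z, z ∉ D → (bb j D X : ℂ → ℂ) z = 0) ∧
  ∃ Y : ℕ → ℕ → ℂ → ℂ, Jet D j Y ∧
    (∀ᵐ z, z ∈ D → (bb j D X : ℂ → ℂ) z = 4 ^ j * Y j j z) ∧
    ∀ a b : ℕ, a + b = 2 * j →
      ∀ᵐ z, z ∈ D → (TT ((a : ℤ) - j) (bb j D X) : ℂ → ℂ) z = 4 ^ j * Y a b z

/-- (H8) continuity from below -/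
def StmtHcont : Prop := ∀ (j : ℕ) (D : ℕ → Set ℂ) (X : H), (∀ k, IsOpen (D k)) → Monotone D →
  Tendsto (fun k => E j (D k) X) atTop (𝓝 (E j (⋃ k, D k) X))

/-! ### Weyl's lemma -/

/-- (W) an `L²` function on `D` with `(∂∂̄)^m f = 0` weakly is smooth -/
def StmtWeyl : Prop := ∀ (m : ℕ) (D : Set ℂ) (f : ℂ → ℂ), IsOpen D →
  MemLp f 2 (volume.restrict D) →
  (∀ φ : ℂ → ℂ, Test D φ → ∫ z in D, f z * Dab m m φ z = 0) →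
    ∃ F : ℂ → ℂ, ContDiffOn ℝ ∞ F D ∧ (∀ᵐ z, z ∈ D → f z = F z) ∧ ∀ z ∈ D, Dab m m F z = 0

/-! ### The layer inequality (group E) -/

/-- (BI_j) -/
def StmtBI : Prop := ∀ (j : ℕ) (O : Set ℂ) (g θ : ℂ → ℝ) (Y : ℕ → ℕ → ℂ → ℂ),
  IsOpen O → ContDiffOn ℝ ∞ g O → (∀ z ∈ O, lap g z = -1) →
  IsCompact {z | z ∈ O ∧ 0 ≤ g z} → (∀ z ∈ O, g z = 0 → gr g z ≠ 0) →
  ContDiffOn ℝ ∞ θ O → (∀ z ∈ O, 0 < θ z ∧ lap θ z = 0) →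
  Jet {z | z ∈ O ∧ 0 < g z} j Y →
  (∃ C t₀ : ℝ, 0 < t₀ ∧ ∀ t, 0 < t → t < t₀ → ∀ a b, a + b = 2 * j →
    ∫ z in {z | z ∈ O ∧ 0 < g z ∧ g z < t}, ‖Y a b z‖ ^ 2 ≤ C * t) →
  ∀ δ : ℝ, 0 < δ → ∃ h₀ : ℝ, 0 < h₀ ∧ ∀ h, 0 < h → h < h₀ →
    (2 * j + 1) * ∫ z in {z | z ∈ O ∧ 0 < g z}, ‖Y j j z‖ ^ 2 ≤
      (1 / h) * (∫ z in {z | z ∈ O ∧ 0 < g z ∧ g z < h * θ z},
        gr g z / θ z * ‖Y j j z‖ ^ 2) + δ

/-! ### Sources and the obstacle problem (group O) -/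

/-- sources: continuous, nonnegative, compactly supported, circle means `≥ μ - C h²` -/
structure Src (μ : ℂ → ℝ) (C : ℝ) : Prop where
  cont : Continuous μ
  nonneg : ∀ z, 0 ≤ μ z
  cpt : HasCompactSupport μ
  Cnn : 0 ≤ C
  semi : ∀ z h, 0 < h → h ≤ 1 → μ z - C * h ^ 2 ≤ Real.circleAverage μ z h

/-- `u` solves the obstacle problem of level `L`: `u ≥ 0`, `Δ u = (L - μ) 1_{u > 0}`,
`μ ≤ L` on `{u = 0}` -/
structure Obs (μ : ℂ → ℝ) (L : ℝ) (u : ℂ → ℝ) : Prop where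
  cont : Continuous u
  nonneg : ∀ z, 0 ≤ u z
  cpt : HasCompactSupport u
  eqn : ∀ φ : ℂ → ℝ, ContDiff ℝ ∞ φ → HasCompactSupport φ →
    ∫ z, u z * lap φ z = ∫ z in {z | 0 < u z}, (L - μ z) * φ z
  out : ∀ᵐ z, u z = 0 → μ z ≤ L

/-- (O1) existence -/
def StmtOex : Prop := ∀ (μ : ℂ → ℝ) (C : ℝ), Src μ C → ∀ L : ℝ, 0 < L → ∃ u, Obs μ L u

/-- (O2) comparison with averages: finitely many shifts `a k` and levels `l k`, weights `w k`,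
`Σ w = 1`; `μ'(x) ≤ Σ w_k μ(x + a_k)`, `Σ w_k l_k ≤ L` ⇒ `u^{μ'}_L ≤ Σ w_k u_{l_k}(· + a_k)` -/
def StmtOcmp : Prop := ∀ (μ μ' : ℂ → ℝ) (u' : ℂ → ℝ) (L : ℝ) (m : ℕ) (w l : Fin m → ℝ)
  (a : Fin m → ℂ) (u : Fin m → ℂ → ℝ), Continuous μ → Continuous μ' → 0 < L →
  (∀ k, 0 ≤ w k) → (∀ k, Obs μ (l k) (u k)) → Obs μ' L u' →
  (∀ z, μ' z - L ≤ ∑ k, w k * (μ (z + a k) - l k)) →
  ∀ z, u' z ≤ ∑ k, w k * u k (z + a k)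

/-- The family: `ψ L = - ∂u/∂L` (right derivative).  `D ε L = {ε < ψ L}`.
Everything that groups F, T, N need. -/
structure Fam (μ : ℂ → ℝ) (ψ : ℝ → ℂ → ℝ) : Prop where
  /-- lower semicontinuous, nonnegative -/
  lsc : ∀ L, 0 < L → LowerSemicontinuous (ψ L)
  nonneg : ∀ L z, 0 < L → 0 ≤ ψ L z
  /-- antitone and right continuous in `L` -/
  anti : ∀ z L L', 0 < L → L ≤ L' → ψ L' z ≤ ψ L z
  right : ∀ z L, 0 < L → ContinuousWithinAt (fun L => ψ L z) (Ici L) L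
  /-- bounded domains, empty for large levels, large for small levels -/
  bdd : ∀ L, 0 < L → Bornology.IsBounded {z | 0 < ψ L z}
  top : ∀ L z, (∀ w, μ w ≤ L) → 0 < L → ψ L z = 0
  small : (∃ z, 0 < μ z) → ∀ R A : ℝ, ∃ L₀ : ℝ, 0 < L₀ ∧ ∀ L, 0 < L → L < L₀ → ∀ z : ℂ,
    ‖z‖ ≤ R → A < ψ L z
  /-- mass (only this direction is needed) -/
  mass : ∀ L, 0 < L → ∫ z in {z | 0 < ψ L z}, (L - μ z) ≤ 0
  /-- off the domain `μ ≤ L` (every point) -/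
  out : ∀ L, 0 < L → ∀ z, ψ L z = 0 → μ z ≤ L

/-- (LAYER) the layer inequality for the family `D ε L = {ε < ψ L}`, a.e. `ε`, a.e. `L` -/
def Layer (μ : ℂ → ℝ) (C : ℝ) (ψ : ℝ → ℂ → ℝ) (X : H) : Prop :=
  ∀ᵐ ε : ℝ, 0 < ε → ∀ᵐ L : ℝ, 0 < L → ∀ j : ℕ, ∀ δ : ℝ, 0 < δ → ∃ h₀ : ℝ, 0 < h₀ ∧
    ∀ h, 0 < h → h < h₀ →
      (2 * j + 1) * ‖bb j {z | ε < ψ L z} X‖ ^ 2 ≤
        (1 / h) * (∫ z in {z | ε < ψ L z} \ {z | ε < ψ (L + h) z},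
          (L - μ z + C * ε) * ‖(bb j {z | ε < ψ L z} X : ℂ → ℂ) z‖ ^ 2) + δ

/-- (MAIN 1) the family exists (groups O, E, H, L) -/
def StmtFam : Prop := ∀ (μ : ℂ → ℝ) (C : ℝ), Src μ C → ∃ ψ : ℝ → ℂ → ℝ, Fam μ ψ ∧
  ∃ C' : ℝ, 0 ≤ C' ∧ ∀ X : H, Layer μ C' ψ X

end Pool.Agent.Lib.QNL
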