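import Pool.Agent.Lib.QNL.Hil
import Pool.Agent.Lib.QNL.Stmts

/-!
QNL, group H (Hilbert layer), part C: the interface statements `StmtHmon`, `StmtHsup`, `StmtHinc`,
`StmtHincb`, `StmtHq`, `StmtHoff`, `StmtHcont` of `Stmts.lean`.
-/

set_option autoImplicit false

namespace Pool.Agent.Lib.QNL.Hil

open MeasureTheory Filter Topology Set FourierTransform SchwartzMap LineDeriv
open scoped SchwartzMap ENNReal ContDiff ComplexInnerProductSpace
open Pool.Agent.Lib.IWC (Mu Bd stmtMu)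

/-! ### The bridge to `Stmts.lean` -/

theorem coe_dz (φ : 𝓢(ℂ, ℂ)) :
    ((Pool.Agent.Lib.MP_dd244f_an.dz φ : 𝓢(ℂ, ℂ)) : ℂ → ℂ) = QNL.dz (φ : ℂ → ℂ) := by
  funext z
  rw [dz_eq, smul_apply, add_apply, smul_apply, lineDerivOp_apply_eq_fderiv,
    lineDerivOp_apply_eq_fderiv]
  simp only [smul_eq_mul, QNL.dz, QNL.dx, QNL.dy]
  ring

theorem coe_dbar (φ : 𝓢(ℂ, ℂ)) :
    ((Pool.Agent.Lib.MP_dd244f_an.dbar φ : 𝓢(ℂ, ℂ)) : ℂ → ℂ) = QNL.dzb (φ : ℂ → ℂ) := by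
  funext z
  rw [dbar_eq, smul_apply, add_apply, smul_apply, lineDerivOp_apply_eq_fderiv,
    lineDerivOp_apply_eq_fderiv]
  simp only [smul_eq_mul, QNL.dzb, QNL.dx, QNL.dy]
  ring

/-- `DD a b` is `2^(a+b) ∂^a ∂̄^b`. -/
theorem coe_DD (a b : ℕ) (φ : 𝓢(ℂ, ℂ)) (z : ℂ) :
    DD a b φ z = 2 ^ (a + b) * Dab a b (φ : ℂ → ℂ) z := by
  have h1 : ∀ (n : ℕ) (ψ : 𝓢(ℂ, ℂ)),
      ((Pool.Agent.Lib.MP_dd244f_an.dbar^[n] ψ : 𝓢(ℂ, ℂ)) : ℂ → ℂ) = QNL.dzb^[n] (ψ : ℂ → ℂ) := by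
    intro n
    induction n with
    | zero => intro ψ; rfl
    | succ n ih => intro ψ; rw [Function.iterate_succ_apply, Function.iterate_succ_apply, ih, coe_dbar]
  have h2 : ∀ (n : ℕ) (ψ : 𝓢(ℂ, ℂ)),
      ((Pool.Agent.Lib.MP_dd244f_an.dz^[n] ψ : 𝓢(ℂ, ℂ)) : ℂ → ℂ) = QNL.dz^[n] (ψ : ℂ → ℂ) := by
    intro n
    induction n with
    | zero => intro ψ; rfl
    | succ n ih => intro ψ; rw [Function.iterate_succ_apply, Function.iterate_succ_apply, ih, coe_dz]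
  rw [DD_apply, smul_apply, h2, h1, smul_eq_mul, Dab]

theorem test_of_mem {D : Set ℂ} {φ : 𝓢(ℂ, ℂ)} (hφ : φ ∈ CcS D) : Test D (φ : ℂ → ℂ) :=
  ⟨φ.smooth', hφ.1, hφ.2⟩

/-- A test function as a Schwartz function. -/
noncomputable def toS {D : Set ℂ} {φ : ℂ → ℂ} (h : Test D φ) : 𝓢(ℂ, ℂ) :=
  HasCompactSupport.toSchwartzMap h.2.1 h.1

@[simp] theorem toS_coe {D : Set ℂ} {φ : ℂ → ℂ} (h : Test D φ) : (toS h : ℂ → ℂ) = φ := rfl

theorem toS_mem {D : Set ℂ} {φ : ℂ → ℂ} (h : Test D φ) : toS h ∈ CcS D := ⟨h.2.1, h.2.2⟩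

theorem four_pow (j : ℕ) : (2 : ℂ) ^ (j + j) = 4 ^ j := by
  rw [← two_mul, pow_mul]
  norm_num

theorem K_eq (j : ℕ) (D : Set ℂ) : QNL.K j D = K j D := by
  apply le_antisymm
  · refine Submodule.topologicalClosure_minimal _ ?_ (K_closed j D)
    rw [Submodule.span_le]
    rintro f ⟨φ, hφ, hf⟩
    have h : f = ((4 : ℂ) ^ j)⁻¹ • ((DD j j (toS hφ)).toLp 2 : H) := by
      apply Lp.ext
      filter_upwards [hf, Lp.coeFn_smul ((4 : ℂ) ^ j)⁻¹ ((DD j j (toS hφ)).toLp 2 : H),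
        SchwartzMap.coeFn_toLp (DD j j (toS hφ)) 2 volume] with z h1 h2 h3
      rw [h1, h2, Pi.smul_apply, h3, coe_DD, toS_coe, four_pow, smul_eq_mul, ← mul_assoc,
        inv_mul_cancel₀ (pow_ne_zero _ (by norm_num)), one_mul]
    rw [h]
    exact (K j D).smul_mem _ (Lap_mem_K (toS_mem hφ) j)
  · refine K_le (Submodule.isClosed_topologicalClosure _) fun φ hφ => ?_
    have h : ((DD j j φ).toLp 2 : H) = ((4 : ℂ) ^ j) • (((4 : ℂ) ^ j)⁻¹ • ((DD j j φ).toLp 2 : H)) := by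
      rw [smul_smul, mul_inv_cancel₀ (pow_ne_zero _ (by norm_num)), one_smul]
    rw [h]
    refine (QNL.K j D).smul_mem _ (Submodule.le_topologicalClosure _ (Submodule.subset_span ?_))
    refine ⟨φ, test_of_mem hφ, ?_⟩
    filter_upwards [Lp.coeFn_smul ((4 : ℂ) ^ j)⁻¹ ((DD j j φ).toLp 2 : H),
      SchwartzMap.coeFn_toLp (DD j j φ) 2 volume] with z h2 h3
    rw [h2, Pi.smul_apply, h3, coe_DD, four_pow, smul_eq_mul, ← mul_assoc,
        inv_mul_cancel₀ (pow_ne_zero _ (by norm_num)), one_mul]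

theorem TT_eq (k : ℤ) (f : H) : TT k f = TH k f := rfl

/-! ### Projections on nested subspaces -/

section proj
variable {E : Type*} [NormedAddCommGroup E] [InnerProductSpace ℂ E]

/-- Pythagoras -/
theorem norm_sub_sq_of_mem (U : Submodule ℂ E) [U.HasOrthogonalProjection] (x : E) {f : E}
    (hf : f ∈ U) : ‖x - f‖ ^ 2 = ‖x - U.starProjection x‖ ^ 2 + ‖U.starProjection x - f‖ ^ 2 := by
  have h1 : x - f = (x - U.starProjection x) + (U.starProjection x - f) := by abel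
  have h2 : ⟪x - U.starProjection x, U.starProjection x - f⟫ = 0 :=
    (Submodule.mem_orthogonal' _ _).1 (U.sub_starProjection_mem_orthogonal x) _
      (U.sub_mem (U.starProjection_apply_mem x) hf)
  have h3 := norm_add_sq_eq_norm_sq_add_norm_sq_of_inner_eq_zero _ _ h2
  rw [h1, pow_two, pow_two, pow_two, h3]

theorem starProj_nested {U V : Submodule ℂ E} [U.HasOrthogonalProjection]
    [V.HasOrthogonalProjection] (h : U ≤ V) (x : E) :
    ‖x - U.starProjection x‖ ^ 2 - ‖x - V.starProjection x‖ ^ 2 =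
      ‖V.starProjection x - U.starProjection x‖ ^ 2 := by
  rw [norm_sub_sq_of_mem V x (h (U.starProjection_apply_mem x))]
  ring

end proj

theorem QK_mono (j : ℕ) {D D' : Set ℂ} (h : D ⊆ D') : QNL.K j D ≤ QNL.K j D' := by
  rw [K_eq, K_eq]
  exact K_mono j h

theorem QK_succ (j : ℕ) (D : Set ℂ) : QNL.K (j + 1) D ≤ QNL.K j D := by
  rw [K_eq, K_eq]
  exact K_succ_le j D

theorem P_mem (j : ℕ) (D : Set ℂ) (X : H) : P j D X ∈ QNL.K j D :=
  (QNL.K j D).starProjection_apply_mem X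

theorem bb_mem (j : ℕ) (D : Set ℂ) (X : H) : bb j D X ∈ QNL.K j D :=
  (QNL.K j D).sub_mem (P_mem j D X) (QK_succ j D (P_mem (j + 1) D X))

theorem E_sub (j : ℕ) {D D' : Set ℂ} (h : D ⊆ D') (X : H) :
    E j D X - E j D' X = ‖P j D' X - P j D X‖ ^ 2 :=
  starProj_nested (QK_mono j h) X

theorem E_anti (j : ℕ) {D D' : Set ℂ} (h : D ⊆ D') (X : H) : E j D' X ≤ E j D X := by
  have h1 := E_sub j h X
  have h2 : 0 ≤ ‖P j D' X - P j D X‖ ^ 2 := by positivity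
  linarith

theorem E_nonneg (j : ℕ) (D : Set ℂ) (X : H) : 0 ≤ E j D X := by
  unfold E
  positivity

theorem E_succ (j : ℕ) (D : Set ℂ) (X : H) : E j D X ≤ E (j + 1) D X := by
  have h1 : E (j + 1) D X - E j D X = ‖P j D X - P (j + 1) D X‖ ^ 2 :=
    starProj_nested (QK_succ j D) X
  have h2 : 0 ≤ ‖P j D X - P (j + 1) D X‖ ^ 2 := by positivity
  linarith

theorem E_le_of_mem {j : ℕ} {D : Set ℂ} (X : H) {f : H} (hf : f ∈ QNL.K j D) :
    E j D X ≤ ‖X - f‖ ^ 2 := by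
  have h := norm_sub_sq_of_mem (QNL.K j D) X hf
  have h2 : 0 ≤ ‖(QNL.K j D).starProjection X - f‖ ^ 2 := by positivity
  change ‖X - (QNL.K j D).starProjection X‖ ^ 2 ≤ _
  linarith

theorem E_le_norm (j : ℕ) (D : Set ℂ) (X : H) : E j D X ≤ ‖X‖ ^ 2 := by
  have h := E_le_of_mem (j := j) (D := D) X (QNL.K j D).zero_mem
  rwa [sub_zero] at h

theorem E_eq (j : ℕ) (D : Set ℂ) (X : H) : E j D X = ‖X‖ ^ 2 - ‖P j D X‖ ^ 2 := by
  have h := norm_sub_sq_of_mem (QNL.K j D) X (QNL.K j D).zero_mem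
  rw [sub_zero, sub_zero] at h
  change ‖X - (QNL.K j D).starProjection X‖ ^ 2 = _
  rw [h]
  change _ = _ + ‖(QNL.K j D).starProjection X‖ ^ 2 - ‖(QNL.K j D).starProjection X‖ ^ 2
  ring

/-! ### Integrals over subsets -/

theorem H_norm_sq' (f : H) : ‖f‖ ^ 2 = ∫ x, ‖(f : ℂ → ℂ) x‖ ^ 2 := Pool.Agent.Lib.IWC.H_norm_sq f

theorem H_sq_int (f : H) : Integrable (fun x => ‖(f : ℂ → ℂ) x‖ ^ 2) volume :=
  Pool.Agent.Lib.IWC.H_sq_integrable f

theorem setIntegral_sq_le (f : H) (S : Set ℂ) : ∫ x in S, ‖(f : ℂ → ℂ) x‖ ^ 2 ≤ ‖f‖ ^ 2 := by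
  rw [H_norm_sq']
  exact setIntegral_le_integral (H_sq_int f) (Eventually.of_forall fun x => by positivity)

/-- The key inequality: if `g' - g` has a small norm and `T^k g` vanishes off `D`, then `T^k g'` is
small off `D`. -/
theorem setIntegral_TT_le {D S : Set ℂ} (hS : MeasurableSet S) (hSD : ∀ x ∈ S, x ∉ D) (k : ℤ)
    {g g' : H} (hg : ∀ᵐ x, x ∉ D → (TT k g : ℂ → ℂ) x = 0) :
    ∫ x in S, ‖(TT k g' : ℂ → ℂ) x‖ ^ 2 ≤ ‖g' - g‖ ^ 2 := by
  have h1 : ∫ x in S, ‖(TT k g' : ℂ → ℂ) x‖ ^ 2 = ∫ x in S, ‖(TT k (g' - g) : ℂ → ℂ) x‖ ^ 2 := by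
    refine setIntegral_congr_ae hS ?_
    have h2 : TT k (g' - g) = TT k g' - TT k g := TH_sub k g' g
    filter_upwards [hg, Lp.coeFn_sub (TT k g') (TT k g)] with x h3 h4 h5
    rw [h2, h4, Pi.sub_apply, h3 (hSD x h5), sub_zero]
  rw [h1]
  refine (setIntegral_sq_le _ S).trans (le_of_eq ?_)
  have h2 : ‖TT k (g' - g)‖ = ‖g' - g‖ := TH_norm k _
  rw [h2]

/-! ### The statements -/

theorem stmtHmon : StmtHmon := fun j _ _ h => ⟨QK_mono j h, QK_succ j _⟩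

theorem off_zero {j : ℕ} {D : Set ℂ} {k : ℤ} (hD : IsOpen D) (hk : |k| ≤ (j : ℤ)) {f : H}
    (hf : f ∈ QNL.K j D) : ∀ᵐ z, z ∉ D → (TT k f : ℂ → ℂ) z = 0 := by
  rw [K_eq] at hf
  exact TH_eq_zero_off hD.measurableSet hk hf

theorem stmtHsup : StmtHsup :=
  ⟨fun k f => TH_norm k f, fun k l f => (TH_TH k l f).symm, fun k f g => TH_sub k f g,
    fun _ _ _ hD hk _ hf => off_zero hD hk hf⟩

theorem stmtHinc : StmtHinc := by
  intro j D D' k X hD hD' hDD hk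
  rw [E_sub j hDD X]
  exact setIntegral_TT_le (hD'.measurableSet.diff hD.measurableSet) (fun x hx => hx.2) k
    (off_zero hD hk (P_mem j D X))

theorem stmtHincb : StmtHincb := by
  intro j D D' k X hD hD' hDD hk
  refine (setIntegral_TT_le (hD'.measurableSet.diff hD.measurableSet) (fun x hx => hx.2) k
    (off_zero hD hk (bb_mem j D X))).trans ?_
  rw [E_sub j hDD X, E_sub (j + 1) hDD X]
  have h1 : bb j D' X - bb j D X = (P j D' X - P j D X) - (P (j + 1) D' X - P (j + 1) D X) := by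
    unfold bb
    abel
  rw [h1]
  have h2 := norm_sub_le (P j D' X - P j D X) (P (j + 1) D' X - P (j + 1) D X)
  have h3 := norm_nonneg (P j D' X - P j D X)
  have h4 := norm_nonneg (P (j + 1) D' X - P (j + 1) D X)
  have h5 : ‖(P j D' X - P j D X) - (P (j + 1) D' X - P (j + 1) D X)‖ ^ 2 ≤
      (‖P j D' X - P j D X‖ + ‖P (j + 1) D' X - P (j + 1) D X‖) ^ 2 :=
    pow_le_pow_left₀ (norm_nonneg _) h2 2
  nlinarith [sq_nonneg (‖P j D' X - P j D X‖ - ‖P (j + 1) D' X - P (j + 1) D X‖)]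

theorem stmtHq : StmtHq := fun j D X => (starProj_nested (QK_succ j D) X).symm

theorem stmtHoff : StmtHoff := by
  intro n D X hD
  have h := setIntegral_TT_le (D := D) (S := Dᶜ) hD.measurableSet.compl (fun x hx => hx) (n : ℤ)
    (g' := X) (off_zero hD (by simp) (P_mem n D X))
  exact h

theorem stmtHcont : StmtHcont := by
  intro j D X hD hmono
  rw [Metric.tendsto_atTop]
  intro ε hε
  -- an element of the image of the test functions which is close to the projection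
  have h1 : ∃ φ ∈ CcS (⋃ k, D k), ‖X - ((DD j j φ).toLp 2 : H)‖ ^ 2 < E j (⋃ k, D k) X + ε := by
    have hP : P j (⋃ k, D k) X ∈ K j (⋃ k, D k) := by
      have := P_mem j (⋃ k, D k) X
      rwa [K_eq] at this
    have hcl : P j (⋃ k, D k) X ∈ closure (((CcS (⋃ k, D k)).map (Lj j) : Submodule ℂ H) : Set H) :=
      hP
    have hcont : Continuous fun f : H => ‖X - f‖ ^ 2 := by fun_prop
    have hopen : IsOpen {f : H | ‖X - f‖ ^ 2 < E j (⋃ k, D k) X + ε} :=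
      isOpen_lt hcont continuous_const
    have hin : P j (⋃ k, D k) X ∈ {f : H | ‖X - f‖ ^ 2 < E j (⋃ k, D k) X + ε} := by
      change ‖X - P j (⋃ k, D k) X‖ ^ 2 < ‖X - P j (⋃ k, D k) X‖ ^ 2 + ε
      linarith
    obtain ⟨f, hf1, ⟨φ, hφ, rfl⟩⟩ := mem_closure_iff.1 hcl _ hopen hin
    exact ⟨φ, hφ, hf1⟩
  obtain ⟨φ, hφ, hφ2⟩ := h1
  obtain ⟨m, hm⟩ : ∃ m, tsupport (φ : ℂ → ℂ) ⊆ D m := by
    have := IsCompact.elim_directed_cover hφ.1 D hD hφ.2 hmono.directed_le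
    exact this
  refine ⟨m, fun k hk => ?_⟩
  have h2 : E j (D k) X ≤ ‖X - ((DD j j φ).toLp 2 : H)‖ ^ 2 := by
    refine E_le_of_mem X ?_
    rw [K_eq]
    exact Lap_mem_K ⟨hφ.1, hm.trans (hmono hk)⟩ j
  have h3 : E j (⋃ k, D k) X ≤ E j (D k) X := E_anti j (subset_iUnion D k) X
  rw [Real.dist_eq, abs_of_nonneg (by linarith)]
  linarith

end Pool.Agent.Lib.QNL.Hil
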