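import Pool.Agent.Lib.QNL.Flow
import Pool.Agent.Lib.QNL.Bump77
import Pool.Agent.Lib.QNL.HilS

/-!
Group T: existence of the torsion flow started (up to a loss `ρ`) at a bounded open set `D`.

`exists_flow` : from the obstacle families of smooth sources (hypothesis `StmtFamS Q`, any
additional property `Q` of the family is carried along).
-/

set_option autoImplicit false

namespace Pool.Agent.Lib.QNL

open MeasureTheory Filter Topology Set
open scoped ENNReal ContDiff Interval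

/-- A torsion flow `G` started at `V ⊆ D`, with loss `ρ`. -/
structure TFlow (D V : Set ℂ) (X : H) (N : ℕ) (ℓ ρ : ℝ) (G : ℝ → Set ℂ) : Prop where
  opn : ∀ x, IsOpen (G x)
  mono : Monotone G
  bdd : ∀ x, Bornology.IsBounded (G x)
  vol : ∀ x ∈ Icc 0 ℓ, (volume (G x)).toReal ≤ Real.exp x * ((volume D).toReal + ρ)
  ineq : ∀ (j : ℕ) (p r : ℝ), 0 < p → 0 < r → p + r = 2 * j + 1 → ∀ᵐ x : ℝ, x ∈ Ioo 0 ℓ →
    E (j + 1) (G x) X - E j (G x) X ≤
      -deriv (fun x => E j (G x) X) x / p - deriv (fun x => E (j + 1) (G x) X) x / r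
  Vopn : IsOpen V
  VD : V ⊆ D
  VG : V ⊆ G 0
  Vvol : volume (D \ V) ≤ ENNReal.ofReal ρ
  init : ∀ j ≤ N, E j V X ≤ E j D X + ρ

/-- (MAIN 1) for smooth sources only, with an additional property `Q` of the family -/
def StmtFamS (Q : (ℂ → ℝ) → (ℝ → ℂ → ℝ) → Prop) : Prop := ∀ μ : ℂ → ℝ, ContDiff ℝ ∞ μ →
  HasCompactSupport μ → (∀ z, 0 ≤ μ z) → ∃ ψ : ℝ → ℂ → ℝ, Fam μ ψ ∧ Q μ ψ ∧
    ∃ C' : ℝ, 0 ≤ C' ∧ ∀ X : H, Layer μ C' ψ X

theorem StmtFam.smooth (h : StmtFam) : StmtFamS fun _ _ => True := by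
  intro μ h1 h2 h3
  obtain ⟨C, hC⟩ := Bump77.src_of_smooth h1 h2 h3
  obtain ⟨ψ, h4, h5⟩ := h μ C hC
  exact ⟨ψ, h4, trivial, h5⟩

namespace Flow_

theorem exists_ae_lt {P : ℝ → Prop} (h : ∀ᵐ ε : ℝ, P ε) {c : ℝ} (hc : 0 < c) :
    ∃ ε, 0 < ε ∧ ε < c ∧ P ε := by
  by_contra hcon
  push Not at hcon
  have h1 : Ioo (0 : ℝ) c ⊆ {ε | ¬ P ε} := fun ε hε => hcon ε hε.1 hε.2
  have h2 : volume (Ioo (0 : ℝ) c) = 0 := measure_mono_null h1 (ae_iff.1 h)
  rw [Real.volume_Ioo, sub_zero, ENNReal.ofReal_eq_zero] at h2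
  linarith

theorem vol_diff {S : Set ℂ} {T : ℕ → Set ℂ} (hT : ∀ k, IsOpen (T k)) (hm : Monotone T)
    (hS : IsOpen S) (hU : ⋃ k, T k = S) (hf : volume S ≠ ⊤) {δ : ℝ} (hδ : 0 < δ) :
    ∀ᶠ k in atTop, volume (S \ T k) ≤ ENNReal.ofReal δ := by
  have h1 : Tendsto (fun k => volume (S \ T k)) atTop (𝓝 (volume (⋂ k, S \ T k))) := by
    refine tendsto_measure_iInter_atTop (fun k => (hS.measurableSet.diff
      (hT k).measurableSet).nullMeasurableSet) (fun i j hij => diff_subset_diff_right (hm hij))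
      ⟨0, measure_ne_top_of_subset diff_subset hf⟩
  have h2 : ⋂ k, S \ T k = ∅ := by
    rw [← diff_iUnion, hU, diff_self]
  rw [h2, measure_empty] at h1
  have h3 : (0 : ℝ≥0∞) < ENNReal.ofReal δ := ENNReal.ofReal_pos.2 hδ
  filter_upwards [h1.eventually (gt_mem_nhds h3)] with k hk using hk.le

theorem ae_diff {e : ℝ → ℝ} (he : Antitone e) : ∀ᵐ x : ℝ, DifferentiableAt ℝ e x := by
  have h1 : Monotone (fun x => -e x) := fun x y hxy => neg_le_neg (he hxy)
  filter_upwards [h1.ae_differentiableAt] with x hx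
  simpa using hx.neg

/-- **existence of the flow** -/
theorem exists_flow (Q : (ℂ → ℝ) → (ℝ → ℂ → ℝ) → Prop)
    (hfam : StmtFamS Q)
    {D : Set ℂ} (hD : IsOpen D) (hb : Bornology.IsBounded D) (X : H) (N : ℕ) {ℓ ρ : ℝ}
    (hℓ : 0 ≤ ℓ) (hρ : 0 < ρ) :
    ∃ (μ : ℂ → ℝ) (ψ : ℝ → ℂ → ℝ) (ε l₀ η : ℝ) (V : Set ℂ),
      ContDiff ℝ ∞ μ ∧ HasCompactSupport μ ∧ tsupport μ ⊆ D ∧ (∀ z, 0 ≤ μ z) ∧
      (∀ z, μ z ≤ 1) ∧ (∀ z ∈ V, μ z = 1) ∧ Fam μ ψ ∧ Q μ ψ ∧
      0 < ε ∧ 0 < l₀ ∧ 0 < η ∧ l₀ + η * ℓ ≤ ρ ∧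
      TFlow D V X N ℓ ρ (fun x => Dom ψ ε (lam l₀ η x)) := by
  have hVD : volume D ≠ ⊤ := hb.measure_lt_top.ne
  set v : ℝ := (volume D).toReal with hv
  have hv0 : 0 ≤ v := ENNReal.toReal_nonneg
  -- step 1: inner set
  have hE1 : ∀ j ∈ Finset.range (N + 1), ∀ᶠ k in atTop, E j (Bump77.Inn D k) X <
      E j D X + ρ / 2 := by
    intro j _
    have h1 := Hil.stmtHcont j (Bump77.Inn D) X (Bump77.inn_open D) (Bump77.inn_mono D)
    rw [Bump77.inn_union hD hb] at h1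
    exact h1.eventually (gt_mem_nhds (by linarith))
  have hE1' := (Filter.eventually_all_finset (Finset.range (N + 1))).2 hE1
  obtain ⟨k, hk1, hk2⟩ := (hE1'.and (vol_diff (Bump77.inn_open D) (Bump77.inn_mono D) hD
    (Bump77.inn_union hD hb) hVD (half_pos hρ))).exists
  set D1 : Set ℂ := Bump77.Inn D k with hD1
  have hD1o : IsOpen D1 := Bump77.inn_open D k
  have hD1D : D1 ⊆ D := Bump77.inn_sub D k
  -- step 2: the source
  obtain ⟨μ, hμs, hμc, hμD, hμ0, hμ1, hμD1⟩ := Bump77.exists_source hb k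
  obtain ⟨C, hsrc⟩ := Bump77.src_of_smooth hμs hμc hμ0
  obtain ⟨ψ, fam, hQ, C', hC', hlay⟩ := hfam μ hμs hμc hμ0
  have hlayX := hlay X
  -- step 3: the parameters
  set ρ' : ℝ := min ρ (Real.log (1 + ρ / (v + 1))) with hρ'
  have hρ'0 : 0 < ρ' := by
    apply lt_min hρ
    apply Real.log_pos
    have : 0 < ρ / (v + 1) := by positivity
    linarith
  have hρ'v : Real.exp ρ' * v ≤ v + ρ := by
    have h1 : Real.exp ρ' ≤ 1 + ρ / (v + 1) := by
      have h2 : Real.exp ρ' ≤ Real.exp (Real.log (1 + ρ / (v + 1))) :=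
        Real.exp_le_exp.2 (min_le_right _ _)
      rwa [Real.exp_log (by positivity)] at h2
    have h3 : ρ / (v + 1) * v ≤ ρ := by
      rw [div_mul_eq_mul_div, div_le_iff₀ (by positivity)]
      nlinarith
    nlinarith
  set l₀ : ℝ := ρ' / 2 with hl₀
  set η : ℝ := ρ' / (2 * (ℓ + 1)) with hη
  have hl₀0 : 0 < l₀ := by positivity
  have hη0 : 0 < η := by positivity
  have hlη : l₀ + η * ℓ ≤ ρ' := by
    have : η * ℓ ≤ ρ' / 2 := by
      rw [hη, div_mul_eq_mul_div, div_le_div_iff₀ (by positivity) (by norm_num)]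
      nlinarith
    linarith
  have hlam0 : lam l₀ η 0 < 1 := by
    unfold lam
    rw [mul_zero, add_zero]
    rw [← Real.exp_zero]; exact Real.exp_lt_exp.2 (by linarith)
  have hpos : ∀ z ∈ D1, 0 < ψ (lam l₀ η 0) z := by
    intro z hz
    refine lt_of_le_of_ne (fam.nonneg _ _ (lam_pos _ _ _)) (fun h => ?_)
    have h1 := fam.out _ (lam_pos l₀ η 0) z h.symm
    rw [hμD1 z hz] at h1
    linarith
  -- step 4: the sets `{1/(m+1) < ψ}`
  set W : ℕ → Set ℂ := fun m => D1 ∩ Dom ψ (1 / ((m : ℝ) + 1)) (lam l₀ η 0) with hW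
  have hWo : ∀ m, IsOpen (W m) := fun m => hD1o.inter (dom_open fam (lam_pos _ _ _))
  have hWm : Monotone W := by
    intro i j hij z hz
    refine ⟨hz.1, ?_⟩
    have h1 : 1 / ((j : ℝ) + 1) ≤ 1 / ((i : ℝ) + 1) := by
      have : (i : ℝ) ≤ j := by exact_mod_cast hij
      exact one_div_le_one_div_of_le (by positivity) (by linarith)
    exact lt_of_le_of_lt h1 hz.2
  have hWu : ⋃ m, W m = D1 := by
    apply Subset.antisymm (iUnion_subset fun m => inter_subset_left)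
    intro z hz
    obtain ⟨m, hm⟩ := exists_nat_one_div_lt (hpos z hz)
    exact mem_iUnion.2 ⟨m, hz, hm⟩
  have hE2 : ∀ j ∈ Finset.range (N + 1), ∀ᶠ m in atTop, E j (W m) X < E j D1 X + ρ / 2 := by
    intro j _
    have h1 := Hil.stmtHcont j W X hWo hWm
    rw [hWu] at h1
    exact h1.eventually (gt_mem_nhds (by linarith))
  have hE2' := (Filter.eventually_all_finset (Finset.range (N + 1))).2 hE2
  obtain ⟨m, hm1, hm2⟩ := (hE2'.and (vol_diff hWo hWm hD1o hWu
    (measure_ne_top_of_subset hD1D hVD) (half_pos hρ))).exists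
  -- step 5: `ε`
  have hc : 0 < min (1 / ((m : ℝ) + 1)) (η * lam l₀ η ℓ / (C' + 1)) := by
    apply lt_min (by positivity)
    have := lam_pos l₀ η ℓ
    positivity
  obtain ⟨ε, hε0, hεc, hεlay⟩ := exists_ae_lt hlayX hc
  have hε1 : ε < 1 / ((m : ℝ) + 1) := lt_of_lt_of_le hεc (min_le_left _ _)
  have hε2 : C' * ε ≤ η * lam l₀ η ℓ := by
    have h1 : ε < η * lam l₀ η ℓ / (C' + 1) := lt_of_lt_of_le hεc (min_le_right _ _)
    rw [lt_div_iff₀ (by positivity)] at h1
    nlinarith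
  have hopn : ∀ x, IsOpen (Dom ψ ε (lam l₀ η x)) := fun x => dom_open fam (lam_pos _ _ _)
  have hmono : Monotone (fun x => Dom ψ ε (lam l₀ η x)) := fun x y hxy =>
    dom_anti fam (lam_pos _ _ _) (lam_anti hη0 hxy)
  have hsub0 : ∀ x, Dom ψ ε (lam l₀ η x) ⊆ {z | 0 < ψ (lam l₀ η x) z} := fun x z hz =>
    lt_trans hε0 hz
  refine ⟨μ, ψ, ε, l₀, η, W m, hμs, hμc, hμD, hμ0, hμ1, fun z hz => hμD1 z hz.1, fam, hQ,
    hε0, hl₀0, hη0, hlη.trans (min_le_left _ _), ?_⟩
  refine ⟨hopn, hmono, fun x => (fam.bdd _ (lam_pos _ _ _)).subset (hsub0 x), ?_, ?_, hWo m,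
    fun z hz => hD1D hz.1, fun z hz => lt_trans hε1 hz.2, ?_, ?_⟩
  · -- volume
    intro x hx
    have hL : 0 < lam l₀ η x := lam_pos _ _ _
    set L : ℝ := lam l₀ η x with hLd
    set U : Set ℂ := {z | 0 < ψ L z} with hU
    have hUo : IsOpen U := (fam.lsc L hL).isOpen_preimage 0
    have hUf : volume U ≠ ⊤ := (fam.bdd L hL).measure_lt_top.ne
    have hμi : Integrable μ := hμs.continuous.integrable_of_hasCompactSupport hμc
    have h1 := fam.mass L hL
    have h2 : ∫ z in U, (L - μ z) = L * (volume U).toReal - ∫ z in U, μ z := by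
      rw [integral_sub (integrableOn_const (C := L) hUf (by simp)) hμi.integrableOn,
        setIntegral_const, smul_eq_mul, mul_comm]
      rfl
    rw [h2] at h1
    have h3 : ∫ z in U, μ z ≤ ∫ z, μ z := setIntegral_le_integral hμi (Eventually.of_forall hμ0)
    have h4 : ∫ z, μ z ≤ v := by
      have h5 : ∫ z in D, μ z = ∫ z, μ z := by
        refine setIntegral_eq_integral_of_forall_compl_eq_zero fun z hz => ?_
        by_contra hcon
        exact hz (hμD (subset_tsupport _ hcon))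
      rw [← h5]
      calc ∫ z in D, μ z ≤ ∫ z in D, (1 : ℝ) :=
            setIntegral_mono hμi.integrableOn (integrableOn_const (C := (1 : ℝ)) hVD (by simp))
              (fun z => hμ1 z)
        _ = v := by rw [setIntegral_const, smul_eq_mul, mul_one]; rfl
    have h6 : (volume (Dom ψ ε L)).toReal ≤ (volume U).toReal :=
      ENNReal.toReal_mono hUf (measure_mono (hsub0 x))
    have h7 : L * (volume (Dom ψ ε L)).toReal ≤ v := by
      have := mul_le_mul_of_nonneg_left h6 hL.le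
      linarith
    have h8 : L * Real.exp (l₀ + (1 + η) * x) = 1 := by
      rw [hLd]; unfold lam
      rw [← Real.exp_add]
      simp
    have h9 : (volume (Dom ψ ε L)).toReal ≤ Real.exp (l₀ + (1 + η) * x) * v := by
      have := mul_le_mul_of_nonneg_left h7 (Real.exp_pos (l₀ + (1 + η) * x)).le
      have h10 : Real.exp (l₀ + (1 + η) * x) * (L * (volume (Dom ψ ε L)).toReal) =
          (volume (Dom ψ ε L)).toReal := by
        rw [← mul_assoc, mul_comm (Real.exp _) L, h8, one_mul]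
      linarith
    have h11 : Real.exp (l₀ + (1 + η) * x) ≤ Real.exp x * Real.exp ρ' := by
      rw [← Real.exp_add]
      apply Real.exp_le_exp.2
      have : η * x ≤ η * ℓ := mul_le_mul_of_nonneg_left hx.2 hη0.le
      linarith
    calc (volume (Dom ψ ε L)).toReal ≤ Real.exp (l₀ + (1 + η) * x) * v := h9
      _ ≤ Real.exp x * Real.exp ρ' * v := mul_le_mul_of_nonneg_right h11 hv0
      _ = Real.exp x * (Real.exp ρ' * v) := by ring
      _ ≤ Real.exp x * (v + ρ) := mul_le_mul_of_nonneg_left hρ'v (Real.exp_pos _).le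
  · -- the inequality
    intro j p r hp hr hpr
    have hae := ae_lam (l₀ := l₀) hη0 (hεlay hε0)
    have hanti : ∀ i, Antitone (fun x => E i (Dom ψ ε (lam l₀ η x)) X) := fun i x y hxy =>
      Hil.E_anti i (hmono hxy) X
    filter_upwards [hae, ae_diff (hanti j), ae_diff (hanti (j + 1))] with x hx hd1 hd2 hxI
    have hCε : C' * ε ≤ η * lam l₀ η x :=
      hε2.trans (mul_le_mul_of_nonneg_left (lam_anti hη0 hxI.2.le) hη0.le)
    exact step X hsrc.cont hsrc.cpt hsrc.nonneg fam Hil.stmtHsup Hil.stmtHinc Hil.stmtHq hη0 hε0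
      hC' hCε hp hr hpr (hx j) hd1 hd2
  · -- volume of the difference
    have h1 : D \ W m ⊆ (D \ D1) ∪ (D1 \ W m) := by
      intro z hz
      by_cases h : z ∈ D1
      · exact Or.inr ⟨h, hz.2⟩
      · exact Or.inl ⟨hz.1, h⟩
    calc volume (D \ W m) ≤ volume (D \ D1) + volume (D1 \ W m) :=
          (measure_mono h1).trans (measure_union_le _ _)
      _ ≤ ENNReal.ofReal (ρ / 2) + ENNReal.ofReal (ρ / 2) := add_le_add hk2 hm2
      _ = ENNReal.ofReal ρ := by
          rw [← ENNReal.ofReal_add (by positivity) (by positivity)]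
          congr 1; ring
  · intro j hj
    have h1 := hk1 j (Finset.mem_range.2 (by omega))
    have h2 := hm1 j (Finset.mem_range.2 (by omega))
    linarith

end Flow_
end Pool.Agent.Lib.QNL
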