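import Pool.Agent.Lib.QNL.OStmts

/-!
QNL, group O: assembly of the interface `Obst` from the statements of the group.
-/

set_option autoImplicit false

namespace Pool.Agent.Lib.QNL.O

open MeasureTheory Filter Topology Set
open scoped ContDiff
open Pool.Agent.Lib.QNL

/-- The assembly, for every family of solutions. -/
theorem obst_of_fam (hConv : StmtConv) (hRight : StmtRight) (hUs : StmtUs) (hPsi : StmtPsi)
    (hChi : StmtChi) (hV : StmtV) (hChiPos : StmtChiPos) (hCpt : StmtCpt) (hReg : StmtReg)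
    (hMass : StmtMass) (hOut : StmtOut) (hTors : StmtTors) (hSmall : StmtSmall)
    {μ : ℂ → ℝ} {C : ℝ} {u : ℝ → ℂ → ℝ} (hu : Fam μ C u) : Obst μ C (Us u) (psi u) where
  isOpen L hL := (hUs μ C u hu L hL).1
  bdd L hL := (hUs μ C u hu L hL).2.1
  union L hL := (hUs μ C u hu L hL).2.2.1
  pos L hL x hx := ((hConv μ C u hu x).2.2.2.2.2.1 L hL).2 hx
  zero L hL x hx := by
    have h1 := (hConv μ C u hu x).2.2.2.2.2.1 L hL
    have h2 := (hConv μ C u hu x).2.2.2.2.2.2 L hL
    exact le_antisymm (not_lt.1 fun h => hx (h1.1 h)) h2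
  anti L L' hL hLL x := (hRight μ C u hu x).2 L L' hL hLL
  right x L hL := (hRight μ C u hu x).1 L hL
  smooth L hL := (hPsi μ C u hu L hL).1
  lap L hL := (hPsi μ C u hu L hL).2
  tors := hTors μ C u hu
  small := hSmall μ C u hu
  top L hL hμ := by
    refine eq_empty_iff_forall_notMem.2 fun x hx => ?_
    obtain ⟨L', h1, h2⟩ := hx
    exact absurd (hu.top L' (hL.trans h1) (fun y => (hμ y).trans h1.le) x) h2.ne'
  out := hOut μ C u hu
  mass := hMass μ C u hu
  gen := by
    filter_upwards [hChi μ C u hu, hCpt μ C u hu] with L h1 h2 hL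
    obtain ⟨χ, hχ⟩ := h1 hL
    refine ⟨⟨χ, hχ.1, hχ.2.1, hChiPos μ C u hu L hL χ hχ, ?_, hV μ C u hu L hL χ hχ⟩, h2 hL⟩
    intro s hs x hx
    obtain ⟨t, ht, h3⟩ := hχ.2.2.2 s hs x hx
    exact ⟨t, ht, h3.filter_mono (nhdsWithin_mono _ fun h (hh : 0 < h) => hh.ne')⟩
  reg := hReg μ C u hu

/-- The assembly of group O. -/
theorem stmtObst (hExist : StmtExist) (hConv : StmtConv) (hRight : StmtRight) (hUs : StmtUs)
    (hPsi : StmtPsi) (hChi : StmtChi) (hV : StmtV) (hChiPos : StmtChiPos) (hCpt : StmtCpt)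
    (hReg : StmtReg) (hMass : StmtMass) (hOut : StmtOut) (hTors : StmtTors)
    (hSmall : StmtSmall) : StmtObst := by
  intro μ C hμ
  obtain ⟨u, hu⟩ := hExist μ C hμ
  exact ⟨Us u, psi u, obst_of_fam hConv hRight hUs hPsi hChi hV hChiPos hCpt hReg hMass hOut
    hTors hSmall hu⟩

end Pool.Agent.Lib.QNL.O
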