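import Pool.Agent.Lib.QNL.Fam19
import Pool.Agent.Lib.QNL.O_Obst
import Pool.Agent.Lib.QNL.FlowB

/-!
The obstacle family with its link to the interface structures: `O.Fam μ C u`,
`Fam μ (O.psi u)`, `{0 < ψ_L} = {0 < u_L}` and the layer inequality, in one statement.
-/

set_option autoImplicit false

namespace Pool.Agent.Lib.QNL

open MeasureTheory Filter Topology Set
open scoped ContDiff

/-- group O, for every family -/
def StmtOb : Prop := ∀ (μ : ℂ → ℝ) (C : ℝ) (u : ℝ → ℂ → ℝ), O.Fam μ C u →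
  O.Obst μ C (O.Us u) (O.psi u)

/-- everything about the family `u` -/
structure FamU (μ : ℂ → ℝ) (C : ℝ) (u : ℝ → ℂ → ℝ) : Prop where
  ofam : O.Fam μ C u
  obst : O.Obst μ C (O.Us u) (O.psi u)
  fam : Fam μ (O.psi u)
  us : ∀ L, 0 < L → O.Us u L = {x | 0 < u L x}
  pos : ∀ L, 0 < L → {x | 0 < O.psi u L x} = {x | 0 < u L x}
  layer : ∀ X : H, Layer μ (4 * C) (O.psi u) X

/-- (MAIN 1), strongest form -/
def StmtFamU : Prop := ∀ (μ : ℂ → ℝ) (C : ℝ), O.Src μ C → ∃ u : ℝ → ℂ → ℝ, FamU μ C u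

/-- the property which links `ψ` with the functions `u` -/
def Link (μ : ℂ → ℝ) (ψ : ℝ → ℂ → ℝ) : Prop := ∃ (C : ℝ) (u : ℝ → ℂ → ℝ), ψ = O.psi u ∧
  FamU μ C u

namespace FamU77

theorem us_eq (hConv : O.StmtConv) {μ : ℂ → ℝ} {C : ℝ} {u : ℝ → ℂ → ℝ}
    (h : O.Fam μ C u) {L : ℝ} (hL : 0 < L) : O.Us u L = {x | 0 < u L x} := by
  refine Subset.antisymm (fun x hx => ?_) (fun x hx => ?_)
  · obtain ⟨L', h1, h2⟩ := hx
    exact lt_of_lt_of_le h2 (h.anti L L' hL h1.le x)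
  · have h1 : ContinuousAt (fun l => u l x) L :=
      (hConv μ C u h x).2.1.continuousAt (Ioi_mem_nhds hL)
    have h2 : ∀ᶠ l in 𝓝 L, 0 < u l x := h1.eventually (lt_mem_nhds hx)
    obtain ⟨l, hl, hl2⟩ := ((h2.filter_mono nhdsWithin_le_nhds).and
      (self_mem_nhdsWithin : Ioi L ∈ 𝓝[>] L)).exists
    exact ⟨l, hl2, hl⟩

/-- the family of a given `u` -/
theorem famU_of (hConv : O.StmtConv) (hOb : StmtOb) (hBI : StmtBI) (hjet : StmtHjet)
    {μ : ℂ → ℝ} {C : ℝ} {u : ℝ → ℂ → ℝ} (hu : O.Fam μ C u) : FamU μ C u := by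
  have hob := hOb μ C u hu
  have hus : ∀ L, 0 < L → O.Us u L = {x | 0 < u L x} := fun L hL => us_eq hConv hu hL
  refine ⟨hu, hob, FamA.fam_of_obst hob, hus, fun L hL => ?_, fun X => ?_⟩
  · rw [← hus L hL]; exact FamA.setOf_pos hob hL
  · exact Fam19.layer_of hBI hjet hob hu.src X

theorem famU (hE : O.StmtExist) (hConv : O.StmtConv) (hOb : StmtOb) (hBI : StmtBI)
    (hjet : StmtHjet) : StmtFamU := by
  intro μ C hμ
  obtain ⟨u, hu⟩ := hE μ C hμ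
  exact ⟨u, famU_of hConv hOb hBI hjet hu⟩

theorem osrc_of_smooth {μ : ℂ → ℝ} (h : ContDiff ℝ ∞ μ) (hc : HasCompactSupport μ)
    (h0 : ∀ z, 0 ≤ μ z) : ∃ C, O.Src μ C := by
  obtain ⟨C, hC0, hC⟩ := Bump77.two_point h hc
  exact ⟨C, h.continuous, hc, h0, hC0, hC⟩

/-- the form used by the transport -/
theorem famS (h : StmtFamU) : StmtFamS Link := by
  intro μ h1 h2 h3
  obtain ⟨C, hC⟩ := osrc_of_smooth h1 h2 h3
  obtain ⟨u, hu⟩ := h μ C hC
  exact ⟨O.psi u, hu.fam, ⟨C, u, rfl, hu⟩, 4 * C, by have := hC.pos; positivity, hu.layer⟩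

theorem famO (h : StmtFamU) : Fam19.StmtFamO := by
  intro μ C hC
  obtain ⟨u, hu⟩ := h μ C hC
  exact ⟨O.psi u, hu.fam, 4 * C, by have := hC.pos; positivity, hu.layer⟩

end FamU77
end Pool.Agent.Lib.QNL
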