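import Pool.Agent.Lib.QNL.G7

/-!
Group T: the transport inequality on `[0, ∞)` in `[0, ∞]`-valued form, with an additional atom
`c₀` of the exit measure at `l = 0`; this is the hypothesis (hT) of the final deduction.
-/

set_option autoImplicit false

namespace Pool.Agent.Lib.QNL
namespace HT_

open MeasureTheory Filter Topology Set
open scoped ENNReal ContDiff Interval

/-- lower integrals over `(0, ∞)` from the bounded intervals -/
theorem lint_Ioi_le {f g : ℝ → ℝ≥0∞} (hf : Measurable f) (hg : Measurable g) {R : ℝ≥0∞}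
    (h : ∀ ℓ : ℝ, 0 ≤ ℓ → (∫⁻ x in Ioc 0 ℓ, f x) + (∫⁻ x in Ioc 0 ℓ, g x) ≤ R) :
    (∫⁻ x in Ioi (0 : ℝ), f x) + (∫⁻ x in Ioi (0 : ℝ), g x) ≤ R := by
  have hU : Ioi (0 : ℝ) = ⋃ k : ℕ, Ioc 0 (k : ℝ) := by
    ext x
    simp only [mem_Ioi, mem_iUnion, mem_Ioc]
    constructor
    · intro hx
      obtain ⟨k, hk⟩ := exists_nat_ge x
      exact ⟨k, hx, hk⟩
    · rintro ⟨k, hk, -⟩; exact hk
  have hdir : Directed (· ⊆ ·) (fun k : ℕ => Ioc (0 : ℝ) (k : ℝ)) := by
    apply Monotone.directed_le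
    intro i j hij
    exact Ioc_subset_Ioc_right (by exact_mod_cast hij)
  rw [← lintegral_add_left hf, hU, setLIntegral_iUnion_of_directed _ hdir]
  refine iSup_le fun k => ?_
  rw [lintegral_add_left hf]
  exact h k (Nat.cast_nonneg k)

theorem lint_Ioc {f : ℝ → ℝ} {ℓ : ℝ} (hℓ : 0 ≤ ℓ) (hi : IntervalIntegrable f volume 0 ℓ)
    (h0 : ∀ x ∈ Icc 0 ℓ, 0 ≤ f x) :
    ∫⁻ x in Ioc 0 ℓ, ENNReal.ofReal (f x) = ENNReal.ofReal (∫ x in (0 : ℝ)..ℓ, f x) := by
  rw [intervalIntegral.integral_of_le hℓ, ofReal_integral_eq_lintegral_ofReal]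
  · exact (intervalIntegrable_iff_integrableOn_Ioc_of_le hℓ).1 hi
  · exact (ae_restrict_iff' measurableSet_Ioc).2
      (Eventually.of_forall fun x hx => h0 x ⟨hx.1.le, hx.2⟩)

/-- **(hT)** -/
theorem hT {Q : (ℂ → ℝ) → (ℝ → ℂ → ℝ) → Prop} (hfam : StmtFamS Q)
    {n : ℕ} {p r : ℕ → ℝ} {w w' : ℕ → ℝ → ℝ} (hc : ∀ ℓ : ℝ, 0 ≤ ℓ → Chain n ℓ p r w w') (X : H)
    {D : Set ℂ} (hD : IsOpen D) (hb : Bornology.IsBounded D) {B : ℝ → Set ℂ} (hB : Monotone B)
    (hQB : ∀ (μ : ℂ → ℝ) (ψ : ℝ → ℂ → ℝ), ContDiff ℝ ∞ μ → HasCompactSupport μ →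
      tsupport μ ⊆ D → (∀ z, 0 ≤ μ z) → (∀ z, μ z ≤ 1) → Fam μ ψ → Q μ ψ →
      ∀ s, 0 < s → {z | 0 < ψ (Real.exp (-s)) z} ⊆ B s)
    (hBo : ∀ s, 0 < s → IsOpen (B s)) (hBb : ∀ s, 0 < s → Bornology.IsBounded (B s))
    (hBv : ∀ s, 0 < s → (volume (B s)).toReal ≤ Real.exp s * (volume D).toReal)
    (a C t c₀ : ℝ) (hc₀ : 0 ≤ c₀) :
    ENNReal.ofReal (c₀ * Mk n X (C * t)) +
      ((∫⁻ x in Ioi (0 : ℝ), ENNReal.ofReal (exitD w w' r n x *
        Mk n X (C * Real.exp (-(a * x)) * t))) +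
      (∫⁻ x in Ioi (0 : ℝ), ENNReal.ofReal (extrD w w' p x * E 0 (B x) X))) ≤
    ENNReal.ofReal ((∑ j ∈ Finset.range n, w j 0 * (E j D X / p j + E (j + 1) D X / r j)) +
        c₀ * E n D X) +
      ENNReal.ofReal (C ^ 2 * t ^ 2 * (volume D).toReal) *
        (ENNReal.ofReal c₀ + ∫⁻ x in Ioi (0 : ℝ),
          ENNReal.ofReal (exitD w w' r n x * Real.exp ((1 - 2 * a) * x))) := by
  have hc0 := hc 0 le_rfl
  have hn1 : n - 1 < n := by have := hc0.pos; omega
  have hn0 : 0 < n := hc0.pos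
  have hwc : ∀ j, j < n → Continuous (w j) := fun j hj =>
    continuous_iff_continuousAt.2 fun x => (hc0.deriv j hj x).continuousAt
  have hexc : Continuous (exitD w w' r n) :=
    (hwc _ hn1).sub ((hc0.cont _ hn1).div_const _)
  have hxtc : Continuous (extrD w w' p) :=
    ((hwc _ hn0).add ((hc0.cont _ hn0).div_const _)).neg
  set v : ℝ := (volume D).toReal with hv
  have hv0 : 0 ≤ v := ENNReal.toReal_nonneg
  set S : ℝ := ∑ j ∈ Finset.range n, w j 0 * (E j D X / p j + E (j + 1) D X / r j) with hS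
  have hS0 : 0 ≤ S := by
    refine Finset.sum_nonneg fun j hj => ?_
    have hj' := Finset.mem_range.1 hj
    have h1 := hc0.nonneg j hj' 0 ⟨le_rfl, le_rfl⟩
    have h2 := hc0.hp j hj'
    have h3 := hc0.hr j hj'
    have h4 := Hil.E_nonneg j D X
    have h5 := Hil.E_nonneg (j + 1) D X
    positivity
  have hMc : Continuous (fun x : ℝ => Mk n X (C * Real.exp (-(a * x)) * t)) :=
    (ST_.Mk_cont n X).comp (by fun_prop)
  have hanti : ∀ j, Antitone (fun x => E j (B x) X) := fun j x y hxy => Hil.E_anti j (hB hxy) X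
  have hEI : ∀ j ℓ, IntervalIntegrable (fun x => E j (B x) X) volume 0 ℓ := fun j ℓ =>
    (hanti j).intervalIntegrable
  have hMk0 : ∀ s, 0 ≤ Mk n X s := fun s => integral_nonneg fun z => by positivity
  -- the atom
  have hat : ENNReal.ofReal (c₀ * Mk n X (C * t)) ≤
      ENNReal.ofReal (c₀ * E n D X) + ENNReal.ofReal (C ^ 2 * t ^ 2 * v) * ENNReal.ofReal c₀ := by
    have h1 := ST_.Mk_le n X hD hb (C * t)
    have h2 := mul_le_mul_of_nonneg_left h1 hc₀
    have h3 := Hil.E_nonneg n D X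
    rw [← ENNReal.ofReal_mul (by positivity), ← ENNReal.ofReal_add (by positivity) (by positivity)]
    apply ENNReal.ofReal_le_ofReal
    refine h2.trans (le_of_eq ?_)
    ring
  -- the flow
  have hflow : (∫⁻ x in Ioi (0 : ℝ), ENNReal.ofReal (exitD w w' r n x *
        Mk n X (C * Real.exp (-(a * x)) * t))) +
      (∫⁻ x in Ioi (0 : ℝ), ENNReal.ofReal (extrD w w' p x * E 0 (B x) X)) ≤
      ENNReal.ofReal S + ENNReal.ofReal (C ^ 2 * t ^ 2 * v) * ∫⁻ x in Ioi (0 : ℝ),
          ENNReal.ofReal (exitD w w' r n x * Real.exp ((1 - 2 * a) * x)) := by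
    refine lint_Ioi_le ?_ ?_ fun ℓ hℓ => ?_
    · exact (hexc.mul hMc).measurable.ennreal_ofReal
    · exact (hxtc.measurable.mul (hanti 0).measurable).ennreal_ofReal
    · have hcl := hc ℓ hℓ
      have htr := G7_.transport_exp Q hfam hcl X hD hb hB hQB
      have hgx : Continuous (fun x => exitD w w' r n x * Real.exp ((1 - 2 * a) * x)) := by
        fun_prop
      have hI1 : IntervalIntegrable (fun x => exitD w w' r n x * E n (B x) X) volume 0 ℓ :=
        (hEI n ℓ).continuousOn_mul hexc.continuousOn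
      have h1 : ∫ x in (0 : ℝ)..ℓ, exitD w w' r n x * Mk n X (C * Real.exp (-(a * x)) * t) ≤
          (∫ x in (0 : ℝ)..ℓ, exitD w w' r n x * E n (B x) X) +
            (C ^ 2 * t ^ 2 * v) * ∫ x in (0 : ℝ)..ℓ,
              exitD w w' r n x * Real.exp ((1 - 2 * a) * x) := by
        rw [← intervalIntegral.integral_const_mul, ← intervalIntegral.integral_add hI1
          ((hgx.const_mul (C ^ 2 * t ^ 2 * v)).intervalIntegrable _ _)]
        refine intervalIntegral.integral_mono_on_of_le_Ioo hℓ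
          ((hexc.mul hMc).intervalIntegrable _ _)
          (hI1.add ((continuous_const.mul hgx).intervalIntegrable _ _)) ?_
        intro x hx
        have h2 := ST_.Mk_le n X (hBo x hx.1) (hBb x hx.1) (C * Real.exp (-(a * x)) * t)
        have h3 : Mk n X (C * Real.exp (-(a * x)) * t) ≤ E n (B x) X +
            (C * Real.exp (-(a * x)) * t) ^ 2 * (Real.exp x * v) :=
          h2.trans (add_le_add le_rfl (mul_le_mul_of_nonneg_left (hBv x hx.1) (by positivity)))
        have h4 := mul_le_mul_of_nonneg_left h3 (hcl.exit x ⟨hx.1.le, hx.2.le⟩)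
        refine h4.trans (le_of_eq ?_)
        have h5 : Real.exp (-(a * x)) ^ 2 * Real.exp x = Real.exp ((1 - 2 * a) * x) := by
          rw [← Real.exp_nat_mul, ← Real.exp_add]
          congr 1
          push_cast
          ring
        rw [← h5]
        ring
      have hI2 : IntervalIntegrable (fun x => extrD w w' p x * E 0 (B x) X) volume 0 ℓ :=
        (hEI 0 ℓ).continuousOn_mul hxtc.continuousOn
      have hI3 : IntervalIntegrable (fun x => exitD w w' r n x *
          Mk n X (C * Real.exp (-(a * x)) * t)) volume 0 ℓ :=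
        (hexc.mul hMc).intervalIntegrable _ _
      rw [lint_Ioc hℓ hI3 (fun x hx => mul_nonneg (hcl.exit x hx) (hMk0 _)),
        lint_Ioc hℓ hI2 (fun x hx => mul_nonneg (hcl.extr x hx) (Hil.E_nonneg _ _ _)),
        ← ENNReal.ofReal_add
          (intervalIntegral.integral_nonneg hℓ fun x hx => mul_nonneg (hcl.exit x hx) (hMk0 _))
          (intervalIntegral.integral_nonneg hℓ fun x hx =>
            mul_nonneg (hcl.extr x hx) (Hil.E_nonneg _ _ _))]
      have h6 : (∫ x in (0 : ℝ)..ℓ, exitD w w' r n x * Mk n X (C * Real.exp (-(a * x)) * t)) +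
          (∫ x in (0 : ℝ)..ℓ, extrD w w' p x * E 0 (B x) X) ≤
          S + (C ^ 2 * t ^ 2 * v) * ∫ x in (0 : ℝ)..ℓ,
            exitD w w' r n x * Real.exp ((1 - 2 * a) * x) := by linarith
      have h7 : 0 ≤ ∫ x in (0 : ℝ)..ℓ, exitD w w' r n x * Real.exp ((1 - 2 * a) * x) :=
        intervalIntegral.integral_nonneg hℓ fun x hx =>
          mul_nonneg (hcl.exit x hx) (Real.exp_pos _).le
      refine (ENNReal.ofReal_le_ofReal h6).trans ?_
      rw [ENNReal.ofReal_add hS0 (mul_nonneg (by positivity) h7),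
        ENNReal.ofReal_mul (by positivity),
        ← lint_Ioc hℓ (hgx.intervalIntegrable _ _)
          (fun x hx => mul_nonneg (hcl.exit x hx) (Real.exp_pos _).le)]
      gcongr
      exact Ioc_subset_Ioi_self
  have hE0 : 0 ≤ c₀ * E n D X := mul_nonneg hc₀ (Hil.E_nonneg n D X)
  rw [ENNReal.ofReal_add hS0 hE0, mul_add]
  calc _ ≤ (ENNReal.ofReal (c₀ * E n D X) + ENNReal.ofReal (C ^ 2 * t ^ 2 * v) *
        ENNReal.ofReal c₀) + (ENNReal.ofReal S + ENNReal.ofReal (C ^ 2 * t ^ 2 * v) *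
        ∫⁻ x in Ioi (0 : ℝ),
          ENNReal.ofReal (exitD w w' r n x * Real.exp ((1 - 2 * a) * x))) :=
        add_le_add hat hflow
    _ = _ := by ring

end HT_
end Pool.Agent.Lib.QNL
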