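import Pool.Agent.Lib.QNL.DV

/-!
QNL, group O: the obstacle family of a source `μ` (definitions and statements, nothing is proved).

`u_L ≥ 0` is the smallest function with `Δ u_L ≤ L - μ`; `Δ u_L = (L - μ) 1_{u_L > 0}`.
`U_L = ⋃_{L' > L} {u_{L'} > 0}` and `ψ_L = - ∂_L u_L` (right derivative): the torsion function.
-/

set_option autoImplicit false

namespace Pool.Agent.Lib.QNL.O

open MeasureTheory Filter Topology Set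
open scoped ContDiff
open Pool.Agent.Lib.QNL

/-! ### Definitions -/

/-- A source: continuous, with compact support, nonnegative, semiconvex with the constant `C`. -/
structure Src (μ : ℂ → ℝ) (C : ℝ) : Prop where
  cont : Continuous μ
  cpt : HasCompactSupport μ
  nonneg : ∀ x, 0 ≤ μ x
  pos : 0 ≤ C
  semi : ∀ x a : ℂ, 2 * μ x - 2 * C * ‖a‖ ^ 2 ≤ μ (x + a) + μ (x - a)

/-- Real test functions. -/
def Tst (φ : ℂ → ℝ) : Prop := ContDiff ℝ ∞ φ ∧ HasCompactSupport φ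

/-- `J_r μ(x) = (2π)⁻¹ ∫ log⁺(r/|y|) μ(x - y) dy`; the circle mean of radius `r` of a function `f`
is `f + J_r (Δ f)`; `J_r 1 = r²/4`. -/
noncomputable def J (r : ℝ) (μ : ℂ → ℝ) (x : ℂ) : ℝ :=
  (2 * Real.pi)⁻¹ * ∫ y, Real.posLog (r / ‖y‖) * μ (x - y)

/-- The obstacle family of the source `μ`. -/
structure Fam (μ : ℂ → ℝ) (C : ℝ) (u : ℝ → ℂ → ℝ) : Prop where
  src : Src μ C
  cont : ∀ L, 0 < L → Continuous (u L)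
  cpt : ∀ L, 0 < L → HasCompactSupport (u L)
  nonneg : ∀ L, 0 < L → ∀ x, 0 ≤ u L x
  /-- `Δ u ≤ L - μ` -/
  sup : ∀ L, 0 < L → ∀ x r, 0 < r →
    Real.circleAverage (u L) x r ≤ u L x + L * r ^ 2 / 4 - J r μ x
  /-- `Δ u = L - μ` on `{u > 0}` -/
  har : ∀ L, 0 < L → ∀ x r, 0 < r → Metric.closedBall x r ⊆ {y | 0 < u L y} →
    Real.circleAverage (u L) x r = u L x + L * r ^ 2 / 4 - J r μ x
  /-- `- μ ≤ Δ u` -/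
  sub : ∀ L, 0 < L → ∀ x r, 0 < r → u L x - J r μ x ≤ Real.circleAverage (u L) x r
  /-- `u_L` is the least supersolution -/
  least : ∀ L, 0 < L → ∀ w : ℂ → ℝ, Continuous w → (∀ x, 0 ≤ w x) →
    (∀ x r, 0 < r → Real.circleAverage w x r ≤ w x + L * r ^ 2 / 4 - J r μ x) → ∀ x, u L x ≤ w x
  anti : ∀ L L', 0 < L → L ≤ L' → ∀ x, u L' x ≤ u L x
  cmp : ∀ L L', 0 < L → 0 < L' → ∀ x a,
    2 * u ((L + L') / 2 + C * ‖a‖ ^ 2) x ≤ u L (x + a) + u L' (x - a)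
  top : ∀ L, 0 < L → (∀ x, μ x ≤ L) → ∀ x, u L x = 0

/-- `U_L = ⋃_{L' > L} {u_{L'} > 0}` -/
def Us (u : ℝ → ℂ → ℝ) (L : ℝ) : Set ℂ := {x | ∃ L', L < L' ∧ 0 < u L' x}

/-- The torsion function `ψ_L = - ∂_L^+ u_L`. -/
noncomputable def psi (u : ℝ → ℂ → ℝ) (L : ℝ) (x : ℂ) : ℝ :=
  - derivWithin (fun l => u l x) (Ioi L) L

/-- What holds at almost every level. -/
structure Gen (μ : ℂ → ℝ) (C : ℝ) (U : ℝ → Set ℂ) (ψ : ℝ → ℂ → ℝ) (L : ℝ) : Prop where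
  chi : ∃ χ : ℂ → ℝ, ContDiffOn ℝ ∞ χ (U L) ∧ (∀ x ∈ U L, lap χ x = 0) ∧
    (∀ x ∈ U L, 0 < χ x) ∧
    TendstoLocallyUniformlyOn (fun h x => (ψ L x - ψ (L + h) x) / h) χ (𝓝[>] (0 : ℝ)) (U L) ∧
    ∀ x ∈ U L, gr (ψ L) x ≤ (L - μ x + 4 * C * ψ L x) * χ x
  cpt : ∀ ε, 0 < ε → IsCompact {x | ε ≤ ψ L x}

/-- The result of group O. -/
structure Obst (μ : ℂ → ℝ) (C : ℝ) (U : ℝ → Set ℂ) (ψ : ℝ → ℂ → ℝ) : Prop where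
  isOpen : ∀ L, 0 < L → IsOpen (U L)
  bdd : ∀ L, 0 < L → ∃ R, U L ⊆ Metric.ball 0 R
  union : ∀ L, 0 < L → ∀ x, x ∈ U L ↔ ∃ L', L < L' ∧ x ∈ U L'
  pos : ∀ L, 0 < L → ∀ x ∈ U L, 0 < ψ L x
  zero : ∀ L, 0 < L → ∀ x, x ∉ U L → ψ L x = 0
  anti : ∀ L L', 0 < L → L ≤ L' → ∀ x, ψ L' x ≤ ψ L x
  right : ∀ x L, 0 < L → ContinuousWithinAt (fun l => ψ l x) (Ici L) L
  smooth : ∀ L, 0 < L → ContDiffOn ℝ ∞ (ψ L) (U L)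
  lap : ∀ L, 0 < L → ∀ x ∈ U L, lap (ψ L) x = -1
  tors : ∀ L, 0 < L → ∀ c r, Metric.ball c r ⊆ U L →
    ∀ x ∈ Metric.ball c r, (r ^ 2 - ‖x - c‖ ^ 2) / 4 ≤ ψ L x
  small : (∃ x, 0 < μ x) → ∃ c > 0, ∃ L₀ > 0, ∀ L, 0 < L → L < L₀ →
    Metric.ball 0 (c / Real.sqrt L) ⊆ U L
  top : ∀ L, 0 < L → (∀ x, μ x ≤ L) → U L = ∅
  out : ∀ L, 0 < L → ∀ x, x ∉ U L → μ x ≤ L
  mass : ∀ L, 0 < L → ∫ x in U L, (L - μ x) ≤ 0
  gen : ∀ᵐ L : ℝ, 0 < L → Gen μ C U ψ L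
  reg : ∀ᵐ ε : ℝ, 0 < ε → ∀ᵐ L : ℝ, 0 < L → ∀ x ∈ U L, ψ L x = ε → 0 < gr (ψ L) x

/-! ### O-A, O-B: existence -/

/-- (O-A0) the mean `J` -/
def StmtJ : Prop := ∀ μ : ℂ → ℝ, Continuous μ → HasCompactSupport μ → ∀ x r b, 0 < r →
  ((∀ y ∈ Metric.closedBall x r, μ y ≤ b) → J r μ x ≤ b * r ^ 2 / 4) ∧
    ((∀ y ∈ Metric.closedBall x r, b ≤ μ y) → b * r ^ 2 / 4 ≤ J r μ x)

/-- (O-A, O-B) -/
def StmtExist : Prop := ∀ (μ : ℂ → ℝ) (C : ℝ), Src μ C → ∃ u, Fam μ C u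

/-! ### O-C: growth, differences -/

/-- (O-C3) quadratic growth at the zeros -/
def StmtQuad : Prop := ∀ μ C u, Fam μ C u → ∀ M, (∀ x, μ x ≤ M) → ∀ L, 0 < L → ∀ z x,
  u L z = 0 → u L x ≤ (2 * L + M) * ‖x - z‖ ^ 2

/-- (O-C4) the differences on `{u_{L'} > 0}` -/
def StmtDiff : Prop := ∀ μ C u, Fam μ C u → ∀ L L', 0 < L → L < L' →
  ContDiffOn ℝ ∞ (fun x => u L x - u L' x) {x | 0 < u L' x} ∧
    ∀ x, 0 < u L' x → lap (fun x => u L x - u L' x) x = -(L' - L)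

/-! ### O-D: convexity in the level, the torsion function -/

/-- (O-D1) -/
def StmtConv : Prop := ∀ μ C u, Fam μ C u → ∀ x,
  ConvexOn ℝ (Ioi 0) (fun l => u l x) ∧ ContinuousOn (fun l => u l x) (Ioi 0) ∧
  (∀ L, 0 < L → Tendsto (fun h => (u L x - u (L + h) x) / h) (𝓝[>] 0) (𝓝 (psi u L x))) ∧
  (∀ L L', 0 < L → L < L' → (u L x - u L' x) / (L' - L) ≤ psi u L x) ∧
  (∀ L L', 0 < L → L < L' → psi u L' x ≤ (u L x - u L' x) / (L' - L)) ∧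
  (∀ L, 0 < L → (0 < psi u L x ↔ x ∈ Us u L)) ∧ (∀ L, 0 < L → 0 ≤ psi u L x)

/-- (O-D2) Lipschitz in the level, uniformly in the point -/
def StmtLip : Prop := ∀ μ C u, Fam μ C u → ∀ L₀, 0 < L₀ → ∃ K, ∀ L L', L₀ ≤ L → L ≤ L' →
  ∀ x, u L x - u L' x ≤ K * (L' - L)

/-- (O-D2') right continuity of the torsion function in the level, antitone -/
def StmtRight : Prop := ∀ μ C u, Fam μ C u → ∀ x,
  (∀ L, 0 < L → ContinuousWithinAt (fun l => psi u l x) (Ici L) L) ∧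
    ∀ L L', 0 < L → L ≤ L' → psi u L' x ≤ psi u L x

/-- (O-D3) open, bounded -/
def StmtUs : Prop := ∀ μ C u, Fam μ C u → ∀ L, 0 < L →
  IsOpen (Us u L) ∧ (∃ R, Us u L ⊆ Metric.ball 0 R) ∧
    (∀ x, x ∈ Us u L ↔ ∃ L', L < L' ∧ x ∈ Us u L') ∧ Us u L ⊆ {x | 0 < u L x}

/-- (O-E1) the torsion function is smooth -/
def StmtPsi : Prop := ∀ μ C u, Fam μ C u → ∀ L, 0 < L →
  ContDiffOn ℝ ∞ (psi u L) (Us u L) ∧ ∀ x ∈ Us u L, lap (psi u L) x = -1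

/-- The derivative of `ψ_L` in the level, at a generic level. -/
def IsChi (u : ℝ → ℂ → ℝ) (L : ℝ) (χ : ℂ → ℝ) : Prop :=
  ContDiffOn ℝ ∞ χ (Us u L) ∧ (∀ x ∈ Us u L, lap χ x = 0) ∧ (∀ x ∈ Us u L, 0 ≤ χ x) ∧
    TendstoLocallyUniformlyOn (fun h x => (psi u L x - psi u (L + h) x) / h) χ (𝓝[≠] (0 : ℝ))
      (Us u L)

/-- (O-E2) generic levels -/
def StmtChi : Prop := ∀ μ C u, Fam μ C u → ∀ᵐ L : ℝ, 0 < L → ∃ χ, IsChi u L χ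

/-! ### O-F: the velocity inequality -/

/-- (O-F1) -/
def StmtV : Prop := ∀ μ C u, Fam μ C u → ∀ L, 0 < L → ∀ χ, IsChi u L χ → ∀ x ∈ Us u L,
  gr (psi u L) x ≤ (L - μ x + 4 * C * psi u L x) * χ x

/-- (O-F2) -/
def StmtChiPos : Prop := ∀ μ C u, Fam μ C u → ∀ L, 0 < L → ∀ χ, IsChi u L χ → ∀ x ∈ Us u L,
  0 < χ x

/-! ### O-G: compactness and regular values -/

/-- (O-G0) a map which is Hölder of order two on a set of the plane: the image is a null set -/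
def StmtSard2 : Prop := ∀ (W : Set ℂ) (t : ℂ → ℝ) (K : ℝ),
  (∀ z ∈ W, ∀ w ∈ W, |t z - t w| ≤ K * ‖z - w‖ ^ 2) → volume (t '' W) = 0

/-- (O-G1) -/
def StmtCpt : Prop := ∀ μ C u, Fam μ C u → ∀ᵐ L : ℝ, 0 < L → ∀ ε, 0 < ε →
  IsCompact {x | ε ≤ psi u L x}

/-- (O-G2) -/
def StmtReg : Prop := ∀ μ C u, Fam μ C u →
  ∀ᵐ ε : ℝ, 0 < ε → ∀ᵐ L : ℝ, 0 < L → ∀ x ∈ Us u L, psi u L x = ε → 0 < gr (psi u L) x

/-! ### O-H, O-I: mass, small levels, discs -/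

/-- (O-H1) mass -/
def StmtMass : Prop := ∀ μ C u, Fam μ C u → ∀ L, 0 < L → ∫ x in Us u L, (L - μ x) ≤ 0

/-- (O-H2) off the domain -/
def StmtOut : Prop := ∀ μ C u, Fam μ C u → ∀ L, 0 < L → ∀ x, x ∉ Us u L → μ x ≤ L

/-- (O-I1) -/
def StmtTors : Prop := ∀ μ C u, Fam μ C u → ∀ L, 0 < L → ∀ c r, Metric.ball c r ⊆ Us u L →
  ∀ x ∈ Metric.ball c r, (r ^ 2 - ‖x - c‖ ^ 2) / 4 ≤ psi u L x

/-- (O-I2) -/
def StmtSmall : Prop := ∀ μ C u, Fam μ C u → (∃ x, 0 < μ x) → ∃ c > 0, ∃ L₀ > 0, ∀ L, 0 < L →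
  L < L₀ → Metric.ball 0 (c / Real.sqrt L) ⊆ Us u L

/-! ### The end -/

/-- (O) -/
def StmtObst : Prop := ∀ (μ : ℂ → ℝ) (C : ℝ), Src μ C → ∃ U ψ, Obst μ C U ψ

end Pool.Agent.Lib.QNL.O
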