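import Pool.Agent.Lib.QNL.Stmts
import Pool.Agent.Lib.QNL.OStmts

/-!
Room QNL: sources.  Smooth nonnegative functions with compact support and `|X|^r` (`r ≥ 1`,
`X` smooth with compact support) are sources; the two-point form of the semiconvexity gives the
circle mean form.
-/

set_option autoImplicit false

namespace Pool.Agent.Lib.QNL.Src19

open MeasureTheory Filter Topology Set
open scoped ContDiff
open Pool.Agent.Lib.QNL

/-- the two-point form gives the circle mean form -/
theorem semi_circle {μ : ℂ → ℝ} {C : ℝ} (hc : Continuous μ)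
    (h : ∀ x a : ℂ, 2 * μ x - 2 * C * ‖a‖ ^ 2 ≤ μ (x + a) + μ (x - a)) (z : ℂ) (r : ℝ) :
    μ z - C * r ^ 2 ≤ Real.circleAverage μ z r := by
  have h1 : Real.circleAverage (fun w => μ w + μ (2 * z - w)) z r
      = Real.circleAverage μ z r + Real.circleAverage μ z r := by
    have e1 : Real.circleAverage (fun w => μ (2 * z - w)) z r = Real.circleAverage μ z r := by
      rw [← Real.circleAverage_neg_radius (f := μ)]
      unfold Real.circleAverage
      congr 1
      refine intervalIntegral.integral_congr ?_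
      intro t _
      simp only [circleMap]
      congr 1
      push_cast
      ring
    have hi1 : CircleIntegrable μ z r := hc.continuousOn.circleIntegrable'
    have hi2 : CircleIntegrable (fun w => μ (2 * z - w)) z r :=
      (hc.comp (continuous_const.sub continuous_id)).continuousOn.circleIntegrable'
    rw [Real.circleAverage_fun_add hi1 hi2, e1]
  have h2 : 2 * μ z - 2 * C * r ^ 2 ≤ Real.circleAverage (fun w => μ w + μ (2 * z - w)) z r := by
    have hcc : Real.circleAverage (fun _ : ℂ => 2 * μ z - 2 * C * r ^ 2) z r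
        = 2 * μ z - 2 * C * r ^ 2 := Real.circleAverage_const _ _ _
    rw [← hcc]
    refine Real.circleAverage_mono ?_ ?_ ?_
    · exact continuous_const.continuousOn.circleIntegrable'
    · exact (hc.add (hc.comp (continuous_const.sub continuous_id))).continuousOn.circleIntegrable'
    · intro w hw
      have hw' : ‖w - z‖ = |r| := by simpa [mem_sphere_iff_norm] using hw
      have := h z (w - z)
      rw [hw', sq_abs] at this
      have e1 : z + (w - z) = w := by ring
      have e2 : z - (w - z) = 2 * z - w := by ring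
      rw [e1, e2] at this
      exact this
  linarith

/-- a source in the two-point sense is a source in the circle mean sense -/
theorem src_of_src {μ : ℂ → ℝ} {C : ℝ} (h : O.Src μ C) : Src μ C where
  cont := h.cont
  nonneg := h.nonneg
  cpt := h.cpt
  Cnn := h.pos
  semi := fun z r _ _ => semi_circle h.cont h.semi z r

section second
variable {E : Type*} [NormedAddCommGroup E] [NormedSpace ℝ E]

/-- second differences of a `C²` function with compact support -/
theorem second_diff {X : ℂ → E} (hX : ContDiff ℝ 2 X) (hs : HasCompactSupport X) :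
    ∃ K : ℝ, 0 ≤ K ∧ ∀ x a : ℂ, ‖X (x + a) + X (x - a) - (2 : ℝ) • X x‖ ≤ K * ‖a‖ ^ 2 := by
  have hd : ContDiff ℝ 1 (fderiv ℝ X) := hX.fderiv_right (by norm_num)
  obtain ⟨K, hK⟩ := hd.lipschitzWith_of_hasCompactSupport (hs.fderiv (𝕜 := ℝ)) (by norm_num)
  refine ⟨2 * K, by positivity, fun x a => ?_⟩
  have hdX : ∀ y, HasFDerivAt X (fderiv ℝ X y) y := fun y =>
    (hX.differentiable (by norm_num) y).hasFDerivAt
  let f : ℝ → E := fun t => X (x + t • a) + X (x - t • a)
  have hf : ∀ t : ℝ, HasDerivAt f (fderiv ℝ X (x + t • a) a - fderiv ℝ X (x - t • a) a) t := by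
    intro t
    have l1 : HasDerivAt (fun t : ℝ => x + t • a) a t := by
      have := ((hasDerivAt_id t).smul_const a).const_add x
      simpa using this
    have l2 : HasDerivAt (fun t : ℝ => x - t • a) (-a) t := by
      have := ((hasDerivAt_id t).smul_const a).const_sub x
      simpa using this
    have m1 := (hdX (x + t • a)).comp_hasDerivAt t l1
    have m2 := (hdX (x - t • a)).comp_hasDerivAt t l2
    have m3 := m1.add m2
    refine m3.congr_deriv ?_
    simp [sub_eq_add_neg]
  have hb : ∀ t ∈ Icc (0 : ℝ) 1,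
      ‖fderiv ℝ X (x + t • a) a - fderiv ℝ X (x - t • a) a‖ ≤ 2 * K * ‖a‖ ^ 2 := by
    intro t ht
    have e1 := hK.dist_le_mul (x + t • a) (x - t • a)
    rw [dist_eq_norm, dist_eq_norm] at e1
    have e2 : x + t • a - (x - t • a) = (2 * t) • a := by
      rw [mul_smul, two_smul]; abel
    rw [e2, norm_smul, Real.norm_eq_abs, abs_of_nonneg (by linarith [ht.1])] at e1
    calc ‖fderiv ℝ X (x + t • a) a - fderiv ℝ X (x - t • a) a‖
        = ‖(fderiv ℝ X (x + t • a) - fderiv ℝ X (x - t • a)) a‖ := by simp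
      _ ≤ ‖fderiv ℝ X (x + t • a) - fderiv ℝ X (x - t • a)‖ * ‖a‖ :=
          ContinuousLinearMap.le_opNorm _ _
      _ ≤ (K * (2 * t * ‖a‖)) * ‖a‖ := by gcongr
      _ ≤ (K * (2 * 1 * ‖a‖)) * ‖a‖ := by
          have := ht.2
          gcongr
      _ = 2 * K * ‖a‖ ^ 2 := by ring
  have h3 := (convex_Icc (0 : ℝ) 1).norm_image_sub_le_of_norm_hasDerivWithin_le
    (f := f) (fun t ht => (hf t).hasDerivWithinAt) hb
    (left_mem_Icc.2 zero_le_one) (right_mem_Icc.2 zero_le_one)
  have e3 : f 1 - f 0 = X (x + a) + X (x - a) - (2 : ℝ) • X x := by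
    simp only [f, one_smul, zero_smul, add_zero, sub_zero, two_smul]
  rw [e3] at h3
  simpa using h3

end second

/-- smooth nonnegative functions with compact support are sources -/
theorem src_smooth {μ : ℂ → ℝ} (hμ : ContDiff ℝ 2 μ) (hs : HasCompactSupport μ)
    (h0 : ∀ z, 0 ≤ μ z) : ∃ C : ℝ, O.Src μ C := by
  obtain ⟨K, hK0, hK⟩ := second_diff hμ hs
  refine ⟨K, hμ.continuous, hs, h0, hK0, fun x a => ?_⟩
  have h1 := hK x a
  rw [Real.norm_eq_abs] at h1
  have h2 := (abs_le.1 h1).1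
  have h3 : 0 ≤ K * ‖a‖ ^ 2 := by positivity
  simp only [smul_eq_mul] at h2
  linarith

/-- tangent line of `t^r` from below -/
theorem rpow_ge {A B M r : ℝ} (hr : 1 ≤ r) (hA : 0 ≤ A) (hAM : A ≤ M) (hB : 0 ≤ B) {T : ℝ}
    (hT : 0 ≤ T) (hTA : A - B ≤ T) : A ^ r - r * M ^ (r - 1) * B ≤ T ^ r := by
  rcases hA.eq_or_lt with rfl | hA'
  · have : (0 : ℝ) ^ r = 0 := Real.zero_rpow (by linarith)
    rw [this]
    have h1 : 0 ≤ M ^ (r - 1) := Real.rpow_nonneg hAM _
    have h2 : 0 ≤ T ^ r := Real.rpow_nonneg hT _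
    have h3 : 0 ≤ r * M ^ (r - 1) * B := by positivity
    linarith
  · have h1 : 1 + r * (T / A - 1) ≤ (1 + (T / A - 1)) ^ r :=
      one_add_mul_self_le_rpow_one_add (by
        have : 0 ≤ T / A := by positivity
        linarith) hr
    have h2 : (1 + (T / A - 1)) ^ r = T ^ r / A ^ r := by
      rw [show 1 + (T / A - 1) = T / A by ring, Real.div_rpow hT hA'.le]
    rw [h2, le_div_iff₀ (Real.rpow_pos_of_pos hA' r)] at h1
    have h3 : A ^ r = A ^ (r - 1) * A := by
      rw [← Real.rpow_add_one hA'.ne']; congr 1; ring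
    have h4 : (1 + r * (T / A - 1)) * A ^ r = A ^ r + r * A ^ (r - 1) * (T - A) := by
      rw [h3]; field_simp
    rw [h4] at h1
    have h5 : A ^ (r - 1) ≤ M ^ (r - 1) := Real.rpow_le_rpow hA'.le hAM (by linarith)
    have h6 : 0 ≤ A ^ (r - 1) := Real.rpow_nonneg hA'.le _
    have h7 : -(r * M ^ (r - 1) * B) ≤ r * A ^ (r - 1) * (T - A) := by
      have h8 : r * A ^ (r - 1) * B ≤ r * M ^ (r - 1) * B := by gcongr
      have h9 : r * A ^ (r - 1) * (-B) ≤ r * A ^ (r - 1) * (T - A) := by
        apply mul_le_mul_of_nonneg_left (by linarith) (by positivity)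
      linarith
    linarith

/-- **`|X|^r` is a source** for `r ≥ 1` and `X` of class `C²` with compact support -/
theorem src_pow {X : ℂ → ℂ} (hX : ContDiff ℝ 2 X) (hs : HasCompactSupport X) {r : ℝ}
    (hr : 1 ≤ r) : ∃ C : ℝ, O.Src (fun z => ‖X z‖ ^ r) C := by
  obtain ⟨K, hK0, hK⟩ := second_diff hX hs
  obtain ⟨M, hM⟩ := hs.exists_bound_of_continuous hX.continuous
  have hM0 : 0 ≤ M := (norm_nonneg _).trans (hM 0)
  refine ⟨r * M ^ (r - 1) * K, ?_, ?_, ?_, ?_, ?_⟩
  · exact (hX.continuous.norm).rpow_const (fun _ => Or.inr (by linarith))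
  · exact hs.norm.comp_left (g := fun t : ℝ => t ^ r) (Real.zero_rpow (by linarith))
  · intro z; positivity
  · have := Real.rpow_nonneg hM0 (r - 1)
    positivity
  · intro x a
    have h1 : ‖(X (x + a) + X (x - a)) - (2 : ℝ) • X x‖ ≤ K * ‖a‖ ^ 2 := hK x a
    have h2 : ‖(2 : ℝ) • X x‖ = 2 * ‖X x‖ := by simp
    have h3 : 2 * ‖X x‖ - K * ‖a‖ ^ 2 ≤ ‖X (x + a)‖ + ‖X (x - a)‖ := by
      have e1 := norm_add_le (X (x + a)) (X (x - a))
      have e2 : ‖(2 : ℝ) • X x‖ ≤ ‖X (x + a) + X (x - a)‖ +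
          ‖(X (x + a) + X (x - a)) - (2 : ℝ) • X x‖ := by
        have := norm_sub_le (X (x + a) + X (x - a))
          ((X (x + a) + X (x - a)) - (2 : ℝ) • X x)
        simpa using this
      rw [h2] at e2
      linarith
    set s := ‖X (x + a)‖ with hs'
    set t := ‖X (x - a)‖ with ht'
    have hs0 : 0 ≤ s := norm_nonneg _
    have ht0 : 0 ≤ t := norm_nonneg _
    have h4 : ((s + t) / 2) ^ r ≤ (s ^ r + t ^ r) / 2 := by
      have hcv := (convexOn_rpow hr).2 (mem_Ici.2 hs0) (mem_Ici.2 ht0)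
        (by norm_num : (0 : ℝ) ≤ 1 / 2) (by norm_num : (0 : ℝ) ≤ 1 / 2) (by norm_num)
      simp only [smul_eq_mul] at hcv
      have e1 : (1 : ℝ) / 2 * s + 1 / 2 * t = (s + t) / 2 := by ring
      rw [e1] at hcv
      linarith
    have h5 := rpow_ge (A := ‖X x‖) (B := K * ‖a‖ ^ 2 / 2) (M := M) (r := r) hr
      (norm_nonneg _) (hM x) (by positivity) (T := (s + t) / 2) (by positivity) (by linarith)
    have h6 : r * M ^ (r - 1) * (K * ‖a‖ ^ 2 / 2) ≤ r * M ^ (r - 1) * K * ‖a‖ ^ 2 := by
      have h7 : 0 ≤ r * M ^ (r - 1) * K * ‖a‖ ^ 2 := by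
        have := Real.rpow_nonneg hM0 (r - 1)
        positivity
      have h8 : r * M ^ (r - 1) * (K * ‖a‖ ^ 2 / 2) = r * M ^ (r - 1) * K * ‖a‖ ^ 2 / 2 := by ring
      rw [h8]; linarith
    have h9 : 2 * ‖X x‖ ^ r - 2 * (r * M ^ (r - 1) * K) * ‖a‖ ^ 2 ≤ s ^ r + t ^ r := by
      linarith
    exact h9

end Pool.Agent.Lib.QNL.Src19
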