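import Pool.Agent.Lib.QNL.Top46
import Pool.Agent.Lib.QNL.HT77
import Pool.Agent.Lib.QNL.C2_36
import Pool.Agent.Lib.QNL.FamU77
import Pool.Agent.Lib.QNL.Src19

/-!
Room QNL, final assembly: from the numeric data (`Cert`) and the refund inequality (`Refund`)
to `StmtLowH n`.
-/

set_option autoImplicit false

namespace Pool.Agent.Lib.QNL.Asm

open MeasureTheory Filter Topology Set
open scoped ENNReal ContDiff
open Pool.Agent.Lib.QNL.FinN
open Pool.Agent.Lib.MP_dd244f_an Pool.Agent.Lib.MP_dd244f_an.Joint Pool.Agent.Lib.IWC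

/-- The refund inequality for the extraction density `kap` and the refund function `Rf`
(group C): the canonical expansions of the domains `{0 < ψ_L}` of the source `|X|^r`. -/
def Refund (p r : ℝ) (kap Rf : ℝ → ℝ) : Prop :=
  ∀ (x : ℂ → ℂ) (X : H), Continuous x → HasCompactSupport x → (X : ℂ → ℂ) =ᵐ[volume] x →
  ∀ (C : ℝ) (u : ℝ → ℂ → ℝ), FamU (fun z => ‖x z‖ ^ r) C u →
    Integrable (fun z => tt p r (O.psi u) z ^ p * Rf (‖x z‖ / tt p r (O.psi u) z)) ∧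
    ENNReal.ofReal (∫ z, tt p r (O.psi u) z ^ p * Rf (‖x z‖ / tt p r (O.psi u) z)) ≤
      ∫⁻ t in Ioi (0 : ℝ), ENNReal.ofReal ((2 - p) * t ^ (p - 3)) *
        ∫⁻ l in Ioi (0 : ℝ), ENNReal.ofReal
          (kap l * E 0 (Ctr.U l {z | 0 < O.psi u (t ^ r / (1 - r / p)) z}) X)

/-- The numeric data for the power `n` and the exponent `p`. -/
structure Cert (n : ℕ) (p : ℝ) where
  r : ℝ
  smax : ℝ
  c₀ : ℝ
  Zn : ℝ
  Lam : ℝ
  th : ℕ → ℝ
  B : ℕ → ℝ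
  V : ℝ → ℝ
  pj : ℕ → ℝ
  rj : ℕ → ℝ
  w : ℕ → ℝ → ℝ
  w' : ℕ → ℝ → ℝ
  Rf : ℝ → ℝ
  hr : 1 ≤ r
  hrp : r < p
  hsm : 1 / r < smax
  hQ : QForm n p smax th B V
  hchain : ∀ ℓ : ℝ, 0 ≤ ℓ → Chain n ℓ pj rj w w'
  hc₀ : 0 ≤ c₀
  hshare : ∀ e : ℕ → ℝ, (∀ j, 0 ≤ e j) →
    (∑ j ∈ Finset.range n, w j 0 * (e j / pj j + e (j + 1) / rj j)) + c₀ * e n ≤
      ∑ j ∈ Finset.range (n + 1), B j * e j
  hZn : 0 < Zn
  hLam : 0 ≤ Lam
  hZ : ENNReal.ofReal c₀ + ∫⁻ l in Ioi (0 : ℝ),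
    ENNReal.ofReal (exitD w w' rj n l * Real.exp (-((2 / p - 1) * l))) = ENNReal.ofReal Zn
  hRef : Refund p r (extrD w w' pj) Rf
  hTOP : ∀ y : ℝ, 0 ≤ y → (1 - r / p) * y ^ r ≤ 1 →
      V ((1 - (1 - r / p) * y ^ r) / r) * y ^ 2 - Rf y +
        Zn * Cn n p ^ 2 * ((2 / p - 1) - 2 / p * y ^ p) ≤
        Lam * ((1 - (1 - r / p) * y ^ r) / r - 1 / p)

theorem trunc_eq (n : ℕ) (X : H) {s : ℝ} (hs : 0 ≤ s) :
    trunc (TT n X : ℂ → ℂ) s = Mk n X s := by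
  unfold trunc Mk
  rw [max_eq_left hs]

/-- the flows of smooth sources are below the canonical expansion -/
theorem link_sub {D : Set ℂ} (μ : ℂ → ℝ) (ψ : ℝ → ℂ → ℝ) (_h1 : ContDiff ℝ ∞ μ)
    (_h2 : HasCompactSupport μ) (h3 : tsupport μ ⊆ D) (_h4 : ∀ z, 0 ≤ μ z) (h5 : ∀ z, μ z ≤ 1)
    (_h6 : Fam μ ψ) (h7 : Link μ ψ) (s : ℝ) (_hs : 0 < s) :
    {z | 0 < ψ (Real.exp (-s)) z} ⊆ Ctr.U s D := by
  obtain ⟨C, u, rfl, hu⟩ := h7
  rw [hu.pos _ (Real.exp_pos _), ← Ctr.Vs_eq hu.ofam]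
  exact fun z hz => Or.inr ⟨μ, ⟨⟨C, hu.ofam.src⟩, h3, h5⟩, hz⟩

theorem mono_U (D : Set ℂ) : Monotone fun s => Ctr.U s D := fun _ _ h => Ctr.U_mono_left h D

theorem vol_U_le {s : ℝ} (hs : 0 < s) {D : Set ℂ} (hD : IsOpen D) :
    (volume (Ctr.U s D)).toReal ≤ Real.exp s * (volume D).toReal := by
  rw [Ctr.vol_U hs.le hD, ENNReal.toReal_mul, ENNReal.toReal_ofReal (Real.exp_pos _).le]

/-- **the geometry**: numeric data and the refund inequality give the theorem for `T^n` -/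
theorem lowH_of_cert {n : ℕ} (hFam : StmtFamU) (hF : StmtF)
    (hcert : ∀ p : ℝ, 1 < p → p < 2 → Nonempty (Cert n p)) : StmtLowH n := by
  intro p hp1 hp2 f hfc
  obtain ⟨c⟩ := hcert p hp1 hp2
  have hr0 : 0 < c.r := by have := c.hr; linarith
  have hp0 : 0 < p := by linarith
  have hC := Cn_pos n hp1
  have hw : 0 < 1 - c.r / p := w_pos c.hr c.hrp
  obtain ⟨C, hsrc⟩ := Src19.src_pow (X := f) (f.smooth 2) hfc c.hr
  obtain ⟨u, hu⟩ := hFam _ C hsrc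
  have hfcont : Continuous f := f.continuous
  set X : H := f.toLp 2 with hX
  have hXf : (X : ℂ → ℂ) =ᵐ[volume] f := f.coeFn_toLp 2 volume
  have hfe := hF p c.r c.hr c.hrp hp2 f X hfcont hfc hXf (O.psi u) (4 * C) hu.fam
    (by have := hsrc.pos; positivity) (hu.layer X) n c.smax c.th c.B c.V c.hsm c.hQ
  obtain ⟨hRi, hR⟩ := c.hRef f X hfcont hfc hXf C u hu
  have hV0 : ∀ s ∈ Icc (0 : ℝ) (1 / c.r), 0 ≤ c.V s := fun s hs =>
    QForm.nonneg hp2 c.hQ ⟨hs.1, hs.2.trans c.hsm.le⟩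
  have hc0 := c.hchain 0 le_rfl
  have hexc : Continuous (exitD c.w c.w' c.rj n) := by
    have hn1 : n - 1 < n := by have := hc0.pos; omega
    have hwc : Continuous (c.w (n - 1)) :=
      continuous_iff_continuousAt.2 fun x => (hc0.deriv _ hn1 x).continuousAt
    exact hwc.sub ((hc0.cont _ hn1).div_const _)
  have hT : ∀ t, 0 < t → ENNReal.ofReal (c.c₀ * trunc (TT n X : ℂ → ℂ) (Cn n p * t)) +
        (∫⁻ l in Ioi (0 : ℝ), ENNReal.ofReal (exitD c.w c.w' c.rj n l *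
          trunc (TT n X : ℂ → ℂ) (Cn n p * Real.exp (-(1 / p * l)) * t))) +
        (∫⁻ l in Ioi (0 : ℝ), ENNReal.ofReal (extrD c.w c.w' c.pj l *
          E 0 (Ctr.U l {z | 0 < O.psi u (t ^ c.r / (1 - c.r / p)) z}) X)) ≤
        ENNReal.ofReal (∑ j ∈ Finset.range (n + 1), c.B j *
          E j {z | 0 < O.psi u (t ^ c.r / (1 - c.r / p)) z} X) +
        ENNReal.ofReal (Cn n p ^ 2 * c.Zn * t ^ 2) *
          volume {z | 0 < O.psi u (t ^ c.r / (1 - c.r / p)) z} := by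
    intro t ht
    have hL : 0 < t ^ c.r / (1 - c.r / p) := div_pos (Real.rpow_pos_of_pos ht _) hw
    set D : Set ℂ := {z | 0 < O.psi u (t ^ c.r / (1 - c.r / p)) z} with hD
    have hDo : IsOpen D := isOpen_U hu.fam hL
    have hDb : Bornology.IsBounded D := hu.fam.bdd _ hL
    have h := HT_.hT (FamU77.famS hFam) c.hchain X hDo hDb (mono_U D)
      link_sub (fun s _ => Ctr.isOpen_U Ctr.exist s hDo)
      (fun s _ => Ctr.isBounded_U Ctr.exist hDb) (fun s hs => vol_U_le hs hDo)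
      (1 / p) (Cn n p) t c.c₀ c.hc₀
    have e1 : ENNReal.ofReal (c.c₀ * trunc (TT n X : ℂ → ℂ) (Cn n p * t)) =
        ENNReal.ofReal (c.c₀ * Mk n X (Cn n p * t)) := by
      rw [trunc_eq n X (by positivity)]
    have e2 : ∀ l : ℝ, ENNReal.ofReal (exitD c.w c.w' c.rj n l *
          trunc (TT n X : ℂ → ℂ) (Cn n p * Real.exp (-(1 / p * l)) * t)) =
        ENNReal.ofReal (exitD c.w c.w' c.rj n l * Mk n X (Cn n p * Real.exp (-(1 / p * l)) * t)) :=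
      fun l => by rw [trunc_eq n X (by positivity)]
    have e3 : ∀ l : ℝ, Real.exp ((1 - 2 * (1 / p)) * l) = Real.exp (-((2 / p - 1) * l)) := by
      intro l
      congr 1
      ring
    simp only [e3] at h
    rw [c.hZ] at h
    rw [e1]
    simp only [e2]
    rw [add_assoc]
    refine h.trans (add_le_add ?_ (le_of_eq ?_))
    · exact ENNReal.ofReal_le_ofReal (c.hshare _ fun j => Hil.E_nonneg j D X)
    · have hv : volume D ≠ ⊤ := hDb.measure_lt_top.ne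
      rw [show Cn n p ^ 2 * t ^ 2 * (volume D).toReal = Cn n p ^ 2 * t ^ 2 *
        (volume D).toReal from rfl, ENNReal.ofReal_mul (by positivity), ENNReal.ofReal_toReal hv,
        show Cn n p ^ 2 * c.Zn * t ^ 2 = Cn n p ^ 2 * t ^ 2 * c.Zn by ring,
        ENNReal.ofReal_mul (by positivity : (0 : ℝ) ≤ Cn n p ^ 2 * t ^ 2)]
      ring
  have key := Top46.top_atom c.hr c.hrp hp2 hfcont hfc hu.fam (f := (TT n X : ℂ → ℂ))
    (Lp.memLp (TT n X)) (V := c.V) (Rf := c.Rf) (Zn := c.Zn) (Lam := c.Lam) (C := Cn n p)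
    (c.hQ.cont.mono (Icc_subset_Icc_right c.hsm.le)) hV0 hC c.hZn c.hLam
    (E := fun L => ∑ j ∈ Finset.range (n + 1), c.B j * E j {z | 0 < O.psi u L z} X)
    (Kt := fun t => ∫⁻ l in Ioi (0 : ℝ), ENNReal.ofReal (extrD c.w c.w' c.pj l *
          E 0 (Ctr.U l {z | 0 < O.psi u (t ^ c.r / (1 - c.r / p)) z}) X))
    hfe (nu := exitD c.w c.w' c.rj n) (nu0 := c.c₀) hexc.measurable
    (fun l hl => (c.hchain l hl.le).exit l ⟨hl.le, le_rfl⟩) c.hc₀ c.hZ hT hRi hR c.hTOP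
  have e1 : ∀ z, ‖(TH n X : ℂ → ℂ) z‖ₑ ^ p = ENNReal.ofReal (‖(TT n X : ℂ → ℂ) z‖ ^ p) := by
    intro z
    rw [← ENNReal.ofReal_rpow_of_nonneg (norm_nonneg _) hp0.le, ofReal_norm]
    rfl
  have i4 : Integrable (fun z => ‖f z‖ ^ p) := by
    have hc : Continuous fun z => ‖f z‖ ^ p := hfcont.norm.rpow_const fun z => Or.inr hp0.le
    apply hc.integrable_of_hasCompactSupport
    exact hfc.comp_left (g := fun y : ℂ => ‖y‖ ^ p) (by simp [Real.zero_rpow hp0.ne'])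
  have e2 : ENNReal.ofReal (Cn n p ^ p) * ∫⁻ w, ‖f w‖ₑ ^ p =
      ENNReal.ofReal (Cn n p ^ p * ∫ z, ‖f z‖ ^ p) := by
    rw [ENNReal.ofReal_mul (by positivity), ofReal_integral_eq_lintegral_ofReal i4
      (Eventually.of_forall fun z => by positivity)]
    congr 1
    refine lintegral_congr fun z => ?_
    rw [← ENNReal.ofReal_rpow_of_nonneg (norm_nonneg _) hp0.le, ofReal_norm]
  rw [e2]
  simp only [e1]
  exact key

end Pool.Agent.Lib.QNL.Asm
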