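import Pool.Agent.Lib.QNL.EStmts

/-!
# Assembly of the layer inequality `StmtBI` (group E)
-/

set_option autoImplicit false

namespace Pool.Agent.Lib.QNL.BI

open MeasureTheory Filter Topology Set
open scoped ENNReal ContDiff
open Pool.Agent.Lib.QNL.Calc Pool.Agent.Lib.QNL.FId Pool.Agent.Lib.QNL.ES
open Pool.Agent.Lib.QNL.WProf Pool.Agent.Lib.QNL.Wt

section geo
variable {O : Set ℂ} {g θ : ℂ → ℝ}

theorem Dat_open (h : Dat O g θ) : IsOpen (DD O g) := isOpen_D h

theorem contOn_dv {f : ℂ → ℝ} {O : Set ℂ} (hO : IsOpen O) (hf : ContDiffOn ℝ ∞ f O) (v : ℂ) :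
    ContinuousOn (dv v f) O :=
  (contDiffOn_dv (m := 0) hO hf (by simp) v).continuousOn

/-- bounds on the domain -/
theorem Dat_bounds (h : Dat O g θ) : ∃ C : ℝ, 0 < C ∧ ∀ z ∈ DD O g,
    θ z ≤ C ∧ gr g z / θ z ≤ C ∧ RR g θ z ≤ gr g z / θ z + C * g z ∧ 0 ≤ RR g θ z := by
  have cθ : ContinuousOn θ O := h.θ_sm.continuousOn
  have cg : ContinuousOn g O := h.g_sm.continuousOn
  have hne : ∀ z ∈ O, θ z ≠ 0 := fun z hz => (h.θ_pos z hz).ne'
  have c1 := contOn_dv h.open_ h.g_sm 1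
  have c2 := contOn_dv h.open_ h.g_sm Complex.I
  have c3 := contOn_dv h.open_ h.θ_sm 1
  have c4 := contOn_dv h.open_ h.θ_sm Complex.I
  have e1 : ContinuousOn (fun z => gr g z / θ z) O :=
    ((c1.pow 2).add (c2.pow 2)).div cθ hne
  have e2 : ContinuousOn (fun z => (g z / θ z ^ 2 * (dx θ z ^ 2 + dy θ z ^ 2) -
      2 / θ z * (dx g z * dx θ z + dy g z * dy θ z)) / θ z) O := by
    refine ContinuousOn.div (ContinuousOn.sub ?_ ?_) cθ hne
    · exact (cg.div (cθ.pow 2) fun z hz => pow_ne_zero 2 (hne z hz)).mul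
        ((c3.pow 2).add (c4.pow 2))
    · exact (continuousOn_const.div cθ hne).mul ((c1.mul c3).add (c2.mul c4))
  have hKO : {z | z ∈ O ∧ 0 ≤ g z} ⊆ O := fun z hz => hz.1
  obtain ⟨A, hA⟩ := h.cpt.exists_bound_of_continuousOn (cθ.mono hKO)
  obtain ⟨B, hB⟩ := h.cpt.exists_bound_of_continuousOn (e1.mono hKO)
  obtain ⟨D, hD⟩ := h.cpt.exists_bound_of_continuousOn (e2.mono hKO)
  refine ⟨max (max A B) (max D 1), lt_of_lt_of_le one_pos ((le_max_right _ _).trans
    (le_max_right _ _)), fun z hz => ?_⟩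
  have hzK : z ∈ {z | z ∈ O ∧ 0 ≤ g z} := ⟨hz.1, hz.2.le⟩
  have hθz := (h.θ_pos z hz.1)
  have a1 := (le_abs_self _).trans (hA z hzK)
  have b1 := (le_abs_self _).trans (hB z hzK)
  have d1 := (le_abs_self _).trans (hD z hzK)
  refine ⟨a1.trans ((le_max_left _ _).trans (le_max_left _ _)),
    b1.trans ((le_max_right _ _).trans (le_max_left _ _)), ?_, ?_⟩
  · have e3 : RR g θ z = gr g z / θ z + (g z / θ z ^ 2 * (dx θ z ^ 2 + dy θ z ^ 2) -
      2 / θ z * (dx g z * dx θ z + dy g z * dy θ z)) / θ z * g z := by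
      unfold RR gr
      field_simp
      ring
    rw [e3]
    have := mul_le_mul_of_nonneg_right (d1.trans ((le_max_left D 1).trans
      (le_max_right (max A B) _))) hz.2.le
    linarith
  · unfold RR
    positivity

end geo

section jet
variable {D : Set ℂ} {j : ℕ} {Y : ℕ → ℕ → ℂ → ℂ}

theorem cs_dz {f : ℂ → ℂ} (h : HasCompactSupport f) : HasCompactSupport (dz f) := by
  refine HasCompactSupport.of_support_subset_isCompact h fun z hz => ?_
  by_contra h1
  refine hz ?_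
  unfold dz
  rw [dx_eq, dy_eq, dd_of_notMem h1, dd_of_notMem h1]
  simp

theorem cs_dzb {f : ℂ → ℂ} (h : HasCompactSupport f) : HasCompactSupport (dzb f) := by
  refine HasCompactSupport.of_support_subset_isCompact h fun z hz => ?_
  by_contra h1
  refine hz ?_
  unfold dzb
  rw [dx_eq, dy_eq, dd_of_notMem h1, dd_of_notMem h1]
  simp

theorem cs_dab {f : ℂ → ℂ} (h : HasCompactSupport f) (a b : ℕ) :
    HasCompactSupport (Dab a b f) := by
  unfold Dab
  have h1 : ∀ (b : ℕ), HasCompactSupport (dzb^[b] f) := by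
    intro b
    induction b with
    | zero => exact h
    | succ b ih =>
      rw [Function.iterate_succ_apply']
      exact cs_dzb ih
  induction a with
  | zero => exact h1 b
  | succ a ih =>
    rw [Function.iterate_succ_apply']
    exact cs_dz ih

theorem isJet (hD : IsOpen D) (hY : Jet D j Y) : IsJet D Y := by
  intro a b z hz
  have h1 : HasFDerivAt (Y a b) (fderiv ℝ (Y a b) z) z :=
    (((hY.smooth a b).contDiffAt (hD.mem_nhds hz)).differentiableAt (by simp)).hasFDerivAt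
  have h2 : fderiv ℝ (Y a b) z = wl (Y (a + 1) b z) (Y a (b + 1) z) := by
    rw [← hY.hdz a b z hz, ← hY.hdzb a b z hz]
    exact fderiv_eq_wl _ _
  rwa [h2] at h1

theorem memLp (hD : IsOpen D) (hY : Jet D j Y) {a b : ℕ} (hab : a + b ≤ 2 * j) :
    MemLp (Y a b) 2 (volume.restrict D) := by
  obtain ⟨φ, hφ, hl⟩ := hY.lim
  have h1 := hl a b hab
  have h2 : ∀ᶠ k in atTop, eLpNorm (fun z => Dab a b (φ k) z - Y a b z) 2
      (volume.restrict D) < 1 := h1.eventually_lt_const (by norm_num)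
  obtain ⟨k, hk⟩ := h2.exists
  have hm : AEStronglyMeasurable (Y a b) (volume.restrict D) :=
    (hY.smooth a b).continuousOn.aestronglyMeasurable hD.measurableSet
  have hsm : Sm univ (φ k) := sm_univ.2 (hφ k).1
  have h3 : MemLp (Dab a b (φ k)) 2 (volume.restrict D) := by
    have hc : Continuous (Dab a b (φ k)) := continuousOn_univ.1 (hsm.dab isOpen_univ a b).continuousOn
    exact (hc.memLp_of_hasCompactSupport (cs_dab (hφ k).2.1 a b)).restrict D
  have h4 : MemLp (fun z => Dab a b (φ k) z - Y a b z) 2 (volume.restrict D) :=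
    ⟨h3.1.sub hm, hk.trans (by norm_num)⟩
  have h5 := h3.sub h4
  refine (memLp_congr_ae (ae_of_all _ fun z => ?_)).1 h5
  simp

theorem sq_int (hD : IsOpen D) (hY : Jet D j Y) {a b : ℕ} (hab : a + b ≤ 2 * j) :
    IntegrableOn (fun z => ‖Y a b z‖ ^ 2) D :=
  (memLp hD hY hab).integrable_norm_pow (by norm_num)

end jet

section main
variable {O : Set ℂ} {g θ : ℂ → ℝ} {τ δ₀ : ℝ} {Φ : ℝ → ℝ}

theorem Dat_q_cont (hG : Dat O g θ) {h : ℝ} (hh : 0 < h) :
    ContinuousOn (fun z => g z / (h * θ z)) (DD O g) := by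
  have hs : DD O g ⊆ O := fun z hz => hz.1
  refine (hG.g_sm.continuousOn.mono hs).div (continuousOn_const.mul (hG.θ_sm.continuousOn.mono hs))
    fun z hz => ?_
  exact (mul_pos hh (hG.θ_pos z hz.1)).ne'

/-- functions supported in `{q ≥ s₀}` are integrable -/
theorem Dat_int_layer (hG : Dat O g θ) {h s₀ : ℝ} (hh : 0 < h) (hs : 0 < s₀) {ψ : ℝ → ℝ}
    (hψ : Continuous ψ) (hψ0 : ∀ s, s < s₀ → ψ s = 0) {f : ℂ → ℝ}
    (hf : ContinuousOn f (DD O g)) :
    IntegrableOn (fun z => ψ (g z / (h * θ z)) * f z) (DD O g) := by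
  classical
  have hDo := Dat_open hG
  rw [← integrable_indicator_iff hDo.measurableSet]
  have hKO : {z | z ∈ O ∧ 0 ≤ g z} ⊆ O := fun z hz => hz.1
  have hK : IsCompact {z | (z ∈ O ∧ 0 ≤ g z) ∧ 0 ≤ g z - s₀ * (h * θ z)} := by
    have hc : ContinuousOn (fun z => g z - s₀ * (h * θ z)) {z | z ∈ O ∧ 0 ≤ g z} :=
      (hG.g_sm.continuousOn.mono hKO).sub
        (continuousOn_const.mul (continuousOn_const.mul (hG.θ_sm.continuousOn.mono hKO)))
    have := hc.preimage_isClosed_of_isClosed hG.cpt.isClosed isClosed_Ici (t := Ici 0)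
    exact hG.cpt.of_isClosed_subset this fun z hz => hz.1
  refine integrable_of_cpt hDo hK (fun z hz => ?_) ?_ (fun z hz => ?_)
  · have h1 := (hG.θ_pos z hz.1.1)
    have h2 : 0 < s₀ * (h * θ z) := by positivity
    exact ⟨hz.1.1, by have := hz.2; linarith⟩
  · refine ContinuousOn.congr (f := fun z => ψ (g z / (h * θ z)) * f z) ?_ fun z hz =>
      indicator_of_mem hz _
    exact (hψ.comp_continuousOn (Dat_q_cont hG hh)).mul hf
  · by_cases hzD : z ∈ DD O g
    · rw [indicator_of_mem hzD]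
      have h1 := (hG.θ_pos z hzD.1)
      have h2 : ¬ 0 ≤ g z - s₀ * (h * θ z) := fun h3 => hz ⟨⟨hzD.1, hzD.2.le⟩, h3⟩
      have h4 : g z / (h * θ z) < s₀ := by
        rw [div_lt_iff₀ (mul_pos hh h1)]
        linarith
      rw [hψ0 _ h4, zero_mul]
    · exact indicator_of_notMem hzD _

theorem Prof_deriv_zero (hΦ : Prof τ δ₀ Φ) : ∃ s₀ : ℝ, 0 < s₀ ∧ ∀ s, s < s₀ →
    deriv Φ s = 0 ∧ deriv (deriv Φ) s = 0 :=
  ⟨δ₀, hΦ.δpos, fun _ hs => ⟨hΦ.d1zero hs.le, hΦ.d2zero hs.le⟩⟩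

theorem Prof_cont1 (hΦ : Prof τ δ₀ Φ) : Continuous (deriv Φ) :=
  hΦ.smooth.continuous_deriv (by simp)

theorem Prof_cont2 (hΦ : Prof τ δ₀ Φ) : Continuous (deriv (deriv Φ)) := by
  have h1 : ContDiff ℝ ∞ (deriv Φ) := (contDiff_infty_iff_deriv.1 hΦ.smooth).2
  exact h1.continuous_deriv (by simp)

theorem Dat_RR_cont (hG : Dat O g θ) : ContinuousOn (RR g θ) (DD O g) := by
  have hs : DD O g ⊆ O := fun z hz => hz.1
  have hne : ∀ z ∈ DD O g, θ z ≠ 0 := fun z hz => (hG.θ_pos z hz.1).ne'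
  have cθ := hG.θ_sm.continuousOn.mono hs
  have cg := hG.g_sm.continuousOn.mono hs
  have c1 := (contOn_dv hG.open_ hG.g_sm 1).mono hs
  have c2 := (contOn_dv hG.open_ hG.g_sm Complex.I).mono hs
  have c3 := (contOn_dv hG.open_ hG.θ_sm 1).mono hs
  have c4 := (contOn_dv hG.open_ hG.θ_sm Complex.I).mono hs
  exact (((c1.sub ((cg.div cθ hne).mul c3)).pow 2).add
    ((c2.sub ((cg.div cθ hne).mul c4)).pow 2)).div cθ hne

/-- the main inequality -/
theorem main_ineq (hG : Dat O g θ) {j : ℕ} {Y : ℕ → ℕ → ℂ → ℂ}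
    (hY : Jet (DD O g) j Y) (hΦ : Prof τ δ₀ Φ) {h : ℝ} (hh : 0 < h) :
    ∫ z in DD O g, deriv Φ (g z / (h * θ z)) * FR (2 * j) Y z ≤
      1 / h * ∫ z in DD O g, deriv (deriv Φ) (g z / (h * θ z)) * RR g θ z * FR (2 * j) Y z := by
  have hD := Dat_open hG
  have s3 : tsupport (wt Φ O g θ h) ⊆ DD O g := wt_tsupport hΦ hG hh
  have s4 : ∀ z ∈ DD O g, lap (wt Φ O g θ h) z =
      1 / h * (deriv (deriv Φ) (g z / (h * θ z)) * RR g θ z) - deriv Φ (g z / (h * θ z)) := by
    intro z hz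
    have h1 := (hG.θ_pos z hz.1).ne'
    have h2 := hh.ne'
    rw [lap_wt hΦ hG hh hz.1]
    unfold RR
    congr 1
    field_simp
  have hJ := isJet hD hY
  have hF := sm_FR hJ hD (2 * j)
  have hgr := green hD hF (wt_smooth hΦ hG hh) (wt_cpt hΦ hG hh) s3
  have h1 : 0 ≤ ∫ z, lap (FR (2 * j) Y) z * wt Φ O g θ h z := by
    refine integral_nonneg fun z => ?_
    by_cases hz : z ∈ DD O g
    · refine mul_nonneg ?_ (wt_nonneg hΦ hG hh z)
      rw [lap_FR' hJ hD (even_two_mul j) hY.pol hz]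
      positivity
    · have : wt Φ O g θ h z = 0 := by
        by_contra h4
        exact hz (s3 (subset_tsupport _ h4))
      simp [this]
  have h2 : ∫ z, FR (2 * j) Y z * lap (wt Φ O g θ h) z =
      ∫ z in DD O g, FR (2 * j) Y z * lap (wt Φ O g θ h) z := by
    refine (setIntegral_eq_integral_of_forall_compl_eq_zero fun z hz => ?_).symm
    have h3 : lap (wt Φ O g θ h) z = 0 := by
      by_contra h4
      exact hz (s3 (support_lap_subset _ (subset_tsupport _ h4)))
    rw [h3, mul_zero]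
  obtain ⟨s₀, hs₀, hs⟩ := Prof_deriv_zero hΦ
  have i1 : IntegrableOn (fun z => deriv Φ (g z / (h * θ z)) * FR (2 * j) Y z) (DD O g) :=
    Dat_int_layer hG hh hs₀ (Prof_cont1 hΦ) (fun s h => (hs s h).1) hF.continuousOn
  have i2 : IntegrableOn (fun z => deriv (deriv Φ) (g z / (h * θ z)) *
      (RR g θ z * FR (2 * j) Y z)) (DD O g) :=
    Dat_int_layer hG hh hs₀ (Prof_cont2 hΦ) (fun s h => (hs s h).2) ((Dat_RR_cont hG).mul hF.continuousOn)
  have h5 : ∫ z in DD O g, FR (2 * j) Y z * lap (wt Φ O g θ h) z =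
      1 / h * (∫ z in DD O g, deriv (deriv Φ) (g z / (h * θ z)) * (RR g θ z *
        FR (2 * j) Y z)) - ∫ z in DD O g, deriv Φ (g z / (h * θ z)) * FR (2 * j) Y z := by
    rw [← integral_const_mul, ← integral_sub (i2.const_mul _) i1]
    refine setIntegral_congr_fun hD.measurableSet fun z hz => ?_
    rw [s4 z hz]
    ring
  rw [← hgr, h2, h5] at h1
  simp only [mul_assoc] at h1 ⊢
  linarith

end main

/-- **Assembly of (BI_j).** -/
theorem stmtBI (hL : StmtLimF) (hX : StmtLead) : StmtBI := by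
  intro j O g θ Y hO hg hlap hK hreg hθ hθ1 hY hyp δ hδ
  have hG : Dat O g θ := ⟨hO, hg, hlap, hK, hreg, hθ, fun z hz => (hθ1 z hz).1, fun z hz => (hθ1 z hz).2⟩
  have hY' : Jet (DD O g) j Y := hY
  have hH : Hy O g θ j Y := ⟨hG, hY, hyp⟩
  have hD := Dat_open hG
  obtain ⟨C, hC, hb⟩ := Dat_bounds hG
  obtain ⟨A, t₀, ht₀, hA⟩ := hyp
  -- constants
  set A' : ℝ := max A 0 with hA'
  have hA0 : 0 ≤ A' := le_max_right _ _
  set J : ℝ := 2 * (j : ℝ) + 1 with hJ
  have hJ1 : 1 ≤ J := by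
    have : (0 : ℝ) ≤ j := Nat.cast_nonneg j
    rw [hJ]
    linarith
  have hJ0 : 0 < J := by linarith
  set τ : ℝ := δ / (4 * (A' * C * C + 1)) with hτ
  have hτ0 : 0 < τ := by positivity
  obtain ⟨δ₀, Φ, hΦ⟩ := exists_prof hτ0
  obtain ⟨s₀, hs₀, hs⟩ := Prof_deriv_zero hΦ
  have l1 := hL O g θ j Y τ δ₀ Φ hH hΦ
  have l2 := hX O g θ j Y τ δ₀ Φ hH hΦ
  set N : ℂ → ℝ := fun z => ‖Y j j z‖ ^ 2 with hN
  have hNi : IntegrableOn N (DD O g) := sq_int hD hY' (by omega)
  have hN0 : ∀ z, 0 ≤ N z := fun z => by positivity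
  have hNc : ContinuousOn N (DD O g) := ((hY.smooth j j).continuousOn.norm).pow 2
  -- small `h`
  have e1 : ∀ᶠ h in 𝓝[>] (0 : ℝ), J ^ 2 * (∫ z in DD O g, N z) - δ / 4 <
      ∫ z in DD O g, deriv Φ (g z / (h * θ z)) * FR (2 * j) Y z :=
    l1.eventually_const_lt (by linarith)
  have e2 : ∀ᶠ h in 𝓝[>] (0 : ℝ), 1 / h * (∫ z in DD O g,
      deriv (deriv Φ) (g z / (h * θ z)) * RR g θ z *
        (FR (2 * j) Y z - J * ‖Y j j z‖ ^ 2)) < δ / 4 := l2.eventually_lt_const (by positivity)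
  have e3 : ∀ᶠ h in 𝓝[>] (0 : ℝ), h < min (t₀ / C) (δ / (4 * ((1 + τ) * C * C * (A' * C) + 1))) :=
    mem_nhdsWithin_of_mem_nhds (Iio_mem_nhds (by positivity))
  have e4 : ∀ᶠ h in 𝓝[>] (0 : ℝ), 0 < h := self_mem_nhdsWithin
  obtain ⟨h₀, hh₀, hall⟩ := (mem_nhdsGT_iff_exists_Ioo_subset).1 (e1.and (e2.and (e3.and e4)))
  refine ⟨h₀, hh₀, fun h hpos hlt => ?_⟩
  obtain ⟨f1, f2, f3, -⟩ := hall ⟨hpos, hlt⟩
  have f3a : h < t₀ / C := f3.trans_le (min_le_left _ _)
  have f3b : h < δ / (4 * ((1 + τ) * C * C * (A' * C) + 1)) := f3.trans_le (min_le_right _ _)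
  have hm := main_ineq hG hY' hΦ hpos
  -- the layer
  set Ly : Set ℂ := {z | z ∈ O ∧ 0 < g z ∧ g z < h * θ z} with hLy
  have hLD : Ly ⊆ DD O g := fun z hz => ⟨hz.1, hz.2.1⟩
  have hLm : MeasurableSet Ly := by
    have h1 : Ly = DD O g ∩ (fun z => h * θ z - g z) ⁻¹' (Ioi 0) := by
      ext z
      simp only [hLy, DD, mem_ofPred_eq, mem_inter_iff, mem_preimage, mem_Ioi, sub_pos]
      tauto
    rw [h1]
    have hsub : DD O g ⊆ O := fun z hz => hz.1
    exact (((continuousOn_const.mul (hθ.continuousOn.mono hsub)).sub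
      (hg.continuousOn.mono hsub)).isOpen_inter_preimage hD isOpen_Ioi).measurableSet
  have hNL : ∫ z in Ly, N z ≤ A' * (h * C) := by
    have ht : h * C < t₀ := by rwa [lt_div_iff₀ hC] at f3a
    have h1 := hA (h * C) (by positivity) ht j j (by ring)
    have h2 : ∫ z in Ly, N z ≤ ∫ z in {z | z ∈ O ∧ 0 < g z ∧ g z < h * C}, N z := by
      refine setIntegral_mono_set (hNi.mono_set fun z hz => ⟨hz.1, hz.2.1⟩)
        (ae_of_all _ hN0) (Eventually.of_forall fun z hz => ?_)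
      exact ⟨hz.1, hz.2.1, hz.2.2.trans_le (mul_le_mul_of_nonneg_left (hb z (hLD hz)).1 hpos.le)⟩
    have h3 : A * (h * C) ≤ A' * (h * C) :=
      mul_le_mul_of_nonneg_right (le_max_left _ _) (by positivity)
    exact h2.trans (h1.trans h3)
  have hNL0 : 0 ≤ ∫ z in Ly, N z := setIntegral_nonneg hLm fun z _ => hN0 z
  have hsub : DD O g ⊆ O := fun z hz => hz.1
  have hgrc : ContinuousOn (fun z => gr g z / θ z) (DD O g) :=
    ((((contOn_dv hO hg 1).pow 2).add ((contOn_dv hO hg Complex.I).pow 2)).div hθ.continuousOn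
      fun z hz => (hθ1 z hz).1.ne').mono hsub
  have hgr0 : ∀ z ∈ DD O g, 0 ≤ gr g z / θ z := fun z hz =>
    div_nonneg (by unfold gr; positivity) (hθ1 z hz.1).1.le
  have iGN : IntegrableOn (fun z => gr g z / θ z * N z) (DD O g) := by
    refine Integrable.mono' (hNi.const_mul C)
      ((hgrc.mul hNc).aestronglyMeasurable hD.measurableSet) ?_
    refine (ae_restrict_iff' hD.measurableSet).2 (ae_of_all _ fun z hz => ?_)
    rw [Real.norm_eq_abs, abs_of_nonneg (mul_nonneg (hgr0 z hz) (hN0 z))]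
    exact mul_le_mul_of_nonneg_right (hb z hz).2.1 (hN0 z)
  have hGL : ∫ z in Ly, gr g z / θ z * N z ≤ C * (A' * (h * C)) := by
    calc ∫ z in Ly, gr g z / θ z * N z ≤ ∫ z in Ly, C * N z :=
          setIntegral_mono_on (iGN.mono_set hLD) ((hNi.mono_set hLD).const_mul C) hLm
            fun z hz => mul_le_mul_of_nonneg_right (hb z (hLD hz)).2.1 (hN0 z)
      _ = C * ∫ z in Ly, N z := integral_const_mul _ _
      _ ≤ _ := mul_le_mul_of_nonneg_left hNL hC.le
  -- the leading term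
  have i2 : IntegrableOn (fun z => deriv (deriv Φ) (g z / (h * θ z)) *
      (RR g θ z * N z)) (DD O g) :=
    Dat_int_layer hG hpos hs₀ (Prof_cont2 hΦ) (fun s h => (hs s h).2) ((Dat_RR_cont hG).mul hNc)
  have k1 : ∫ z in DD O g, deriv (deriv Φ) (g z / (h * θ z)) * (RR g θ z * N z) ≤
      (1 + τ) * ((∫ z in Ly, gr g z / θ z * N z) + C * (h * C) * ∫ z in Ly, N z) := by
    have h1 : ∫ z in DD O g, deriv (deriv Φ) (g z / (h * θ z)) * (RR g θ z * N z) =
        ∫ z in Ly, deriv (deriv Φ) (g z / (h * θ z)) * (RR g θ z * N z) := by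
      refine setIntegral_eq_of_subset_of_forall_sdiff_eq_zero hD.measurableSet hLD fun z hz => ?_
      have h2 : 1 ≤ g z / (h * θ z) := by
        rw [le_div_iff₀ (mul_pos hpos (hθ1 z hz.1.1).1), one_mul]
        by_contra h3
        exact hz.2 ⟨hz.1.1, hz.1.2, not_le.1 h3⟩
      rw [hΦ.d2zero' h2, zero_mul]
    rw [h1]
    have h4 : ∫ z in Ly, (1 + τ) * (gr g z / θ z * N z + C * (h * C) * N z) =
        (1 + τ) * ((∫ z in Ly, gr g z / θ z * N z) + C * (h * C) * ∫ z in Ly, N z) := by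
      rw [integral_const_mul, integral_add (iGN.mono_set hLD)
        ((hNi.mono_set hLD).const_mul _), integral_const_mul]
    rw [← h4]
    refine setIntegral_mono_on (i2.mono_set hLD) ?_ hLm fun z hz => ?_
    · exact ((iGN.mono_set hLD).add ((hNi.mono_set hLD).const_mul _)).const_mul _
    · obtain ⟨b1, b2, b3, b4⟩ := hb z (hLD hz)
      have b5 : g z ≤ h * C := hz.2.2.le.trans (mul_le_mul_of_nonneg_left b1 hpos.le)
      have b6 : RR g θ z * N z ≤ gr g z / θ z * N z + C * (h * C) * N z := by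
        have b7 : RR g θ z ≤ gr g z / θ z + C * (h * C) :=
          b3.trans (add_le_add le_rfl (mul_le_mul_of_nonneg_left b5 hC.le))
        calc RR g θ z * N z ≤ (gr g z / θ z + C * (h * C)) * N z :=
              mul_le_mul_of_nonneg_right b7 (hN0 z)
          _ = _ := by ring
      exact mul_le_mul (hΦ.d2le _) b6 (mul_nonneg b4 (hN0 z)) (by positivity)
  -- splitting `F = (F - J N) + J N`
  have hFc : ContinuousOn (FR (2 * j) Y) (DD O g) := (sm_FR (isJet hD hY') hD _).continuousOn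
  have i3 : IntegrableOn (fun z => deriv (deriv Φ) (g z / (h * θ z)) *
      (RR g θ z * (FR (2 * j) Y z - J * N z))) (DD O g) :=
    Dat_int_layer hG hpos hs₀ (Prof_cont2 hΦ) (fun s h => (hs s h).2)
      ((Dat_RR_cont hG).mul (hFc.sub (continuousOn_const.mul hNc)))
  have k2 : ∫ z in DD O g, deriv (deriv Φ) (g z / (h * θ z)) * RR g θ z * FR (2 * j) Y z =
      (∫ z in DD O g, deriv (deriv Φ) (g z / (h * θ z)) * RR g θ z *
        (FR (2 * j) Y z - J * ‖Y j j z‖ ^ 2)) +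
      J * ∫ z in DD O g, deriv (deriv Φ) (g z / (h * θ z)) * (RR g θ z * N z) := by
    rw [← integral_const_mul, ← integral_add ?_ (i2.const_mul J)]
    · refine integral_congr_ae (ae_of_all _ fun z => ?_)
      simp only [hN]
      ring
    · refine i3.congr (ae_of_all _ fun z => ?_)
      simp only [hN]
      ring
  -- conclusion
  set I0 : ℝ := ∫ z in DD O g, N z with hI0
  set IG : ℝ := ∫ z in Ly, gr g z / θ z * N z with hIG
  set IN : ℝ := ∫ z in Ly, N z with hIN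
  set IX : ℝ := ∫ z in DD O g, deriv (deriv Φ) (g z / (h * θ z)) * RR g θ z *
        (FR (2 * j) Y z - J * ‖Y j j z‖ ^ 2) with hIX
  set IL : ℝ := ∫ z in DD O g, deriv (deriv Φ) (g z / (h * θ z)) * (RR g θ z * N z) with hIL
  rw [k2] at hm
  have m1 : J ^ 2 * I0 - δ / 4 < 1 / h * (IX + J * IL) := f1.trans_le hm
  have hinv : 0 < 1 / h := by positivity
  have m2 : 1 / h * IL ≤ 1 / h * IG + δ / 4 + δ / 4 := by
    have n1 : 1 / h * IL ≤ 1 / h * ((1 + τ) * (IG + C * (h * C) * IN)) :=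
      mul_le_mul_of_nonneg_left k1 hinv.le
    have n2 : 1 / h * ((1 + τ) * (IG + C * (h * C) * IN)) =
        1 / h * IG + τ * (1 / h * IG) + (1 + τ) * C * C * IN := by
      field_simp
    have n3 : 1 / h * IG ≤ A' * C * C := by
      calc 1 / h * IG ≤ 1 / h * (C * (A' * (h * C))) := mul_le_mul_of_nonneg_left hGL hinv.le
        _ = A' * C * C := by
          field_simp
    have n4 : τ * (1 / h * IG) ≤ δ / 4 := by
      calc τ * (1 / h * IG) ≤ τ * (A' * C * C + 1) :=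
            mul_le_mul_of_nonneg_left (by linarith) hτ0.le
        _ = δ / 4 := by
          rw [hτ]
          field_simp
    have n5 : (1 + τ) * C * C * IN ≤ δ / 4 := by
      have q1 : (1 + τ) * C * C * IN ≤ (1 + τ) * C * C * (A' * (h * C)) :=
        mul_le_mul_of_nonneg_left hNL (by positivity)
      have q2 : h * (4 * ((1 + τ) * C * C * (A' * C) + 1)) < δ := by
        rwa [lt_div_iff₀ (by positivity)] at f3b
      have q3 : (1 + τ) * C * C * (A' * (h * C)) = h * ((1 + τ) * C * C * (A' * C)) := by ring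
      have q4 : 0 < h := hpos
      nlinarith
    linarith
  have m3 : 1 / h * (IX + J * IL) = 1 / h * IX + J * (1 / h * IL) := by ring
  have m4 : J * (1 / h * IL) ≤ J * (1 / h * IG + δ / 4 + δ / 4) :=
    mul_le_mul_of_nonneg_left m2 hJ0.le
  have m5 : J ^ 2 * I0 ≤ J * (1 / h * IG + δ) := by nlinarith
  have m6 : J * I0 ≤ 1 / h * IG + δ := by
    have : J * (J * I0) ≤ J * (1 / h * IG + δ) := by nlinarith
    exact le_of_mul_le_mul_left this hJ0
  exact m6

end Pool.Agent.Lib.QNL.BI
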