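import Pool.Agent.Lib.QNL.HT77
import Pool.Agent.Lib.QNL.C2_36
import Pool.Agent.Lib.QNL.FamU77

/-!
Group T: the hypothesis (hT) of `Top46.top_atom` for the canonical expansions `Ctr.U l D`.
-/

set_option autoImplicit false

namespace Pool.Agent.Lib.QNL
namespace HU_

open MeasureTheory Filter Topology Set
open scoped ENNReal ContDiff Interval

/-- the canonical expansion contains the flows of the sources below `1_D` -/
theorem flow_sub {D : Set ℂ} (μ : ℂ → ℝ) (ψ : ℝ → ℂ → ℝ) (hμD : tsupport μ ⊆ D)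
    (hμ1 : ∀ z, μ z ≤ 1) (hQ : Link μ ψ) (s : ℝ) :
    {z | 0 < ψ (Real.exp (-s)) z} ⊆ Ctr.U s D := by
  obtain ⟨C, u, rfl, hu⟩ := hQ
  rw [hu.pos _ (Real.exp_pos _), ← Ctr.Vs_eq hu.ofam]
  intro z hz
  exact Or.inr ⟨μ, ⟨⟨C, hu.ofam.src⟩, hμD, hμ1⟩, hz⟩

/-- the shares of a chain of weights with an atom `c₀` of the exit -/
noncomputable def shr (n : ℕ) (p r : ℕ → ℝ) (w : ℕ → ℝ → ℝ) (c₀ : ℝ) (j : ℕ) : ℝ :=
  (if j < n then w j 0 / p j else 0) +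
    (if 0 < j ∧ j ≤ n then w (j - 1) 0 / r (j - 1) else 0) + if j = n then c₀ else 0

theorem shr_sum (n : ℕ) (p r : ℕ → ℝ) (w : ℕ → ℝ → ℝ) (c₀ : ℝ) (e : ℕ → ℝ) :
    (∑ j ∈ Finset.range n, w j 0 * (e j / p j + e (j + 1) / r j)) + c₀ * e n =
      ∑ j ∈ Finset.range (n + 1), shr n p r w c₀ j * e j := by
  have h1 : ∑ j ∈ Finset.range (n + 1), (if j < n then w j 0 / p j else 0) * e j =
      ∑ j ∈ Finset.range n, w j 0 * (e j / p j) := by
    rw [Finset.sum_range_succ, if_neg (lt_irrefl n), zero_mul, add_zero]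
    refine Finset.sum_congr rfl fun j hj => ?_
    rw [if_pos (Finset.mem_range.1 hj)]; ring
  have h2 : ∑ j ∈ Finset.range (n + 1),
      (if 0 < j ∧ j ≤ n then w (j - 1) 0 / r (j - 1) else 0) * e j =
      ∑ j ∈ Finset.range n, w j 0 * (e (j + 1) / r j) := by
    rw [Finset.sum_range_succ', if_neg (by simp), zero_mul, add_zero]
    refine Finset.sum_congr rfl fun j hj => ?_
    have := Finset.mem_range.1 hj
    rw [if_pos ⟨Nat.succ_pos j, this⟩, Nat.add_sub_cancel]; ring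
  have h3 : ∑ j ∈ Finset.range (n + 1), (if j = n then c₀ else 0) * e j = c₀ * e n := by
    rw [Finset.sum_eq_single n]
    · rw [if_pos rfl]
    · intro j _ hj; rw [if_neg hj, zero_mul]
    · intro h; exact absurd (Finset.mem_range.2 (Nat.lt_succ_self n)) h
  unfold shr
  simp only [add_mul]
  rw [Finset.sum_add_distrib, Finset.sum_add_distrib, h1, h2, h3, ← Finset.sum_add_distrib]
  congr 1
  refine Finset.sum_congr rfl fun j _ => ?_
  ring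

theorem shr_nonneg {n : ℕ} {p r : ℕ → ℝ} {w w' : ℕ → ℝ → ℝ} (hc : Chain n 0 p r w w')
    {c₀ : ℝ} (h0 : 0 ≤ c₀) (j : ℕ) : 0 ≤ shr n p r w c₀ j := by
  unfold shr
  have h1 : 0 ≤ (if j < n then w j 0 / p j else 0) := by
    split_ifs with h
    · exact div_nonneg (hc.nonneg j h 0 ⟨le_rfl, le_rfl⟩) (hc.hp j h).le
    · exact le_rfl
  have h2 : 0 ≤ (if 0 < j ∧ j ≤ n then w (j - 1) 0 / r (j - 1) else 0) := by
    split_ifs with h
    · have h3 : j - 1 < n := by omega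
      exact div_nonneg (hc.nonneg _ h3 0 ⟨le_rfl, le_rfl⟩) (hc.hr _ h3).le
    · exact le_rfl
  have h3 : 0 ≤ if j = n then c₀ else 0 := by
    split_ifs
    · exact h0
    · exact le_rfl
  positivity

theorem trunc_eq (k : ℕ) (X : H) {s : ℝ} (hs : 0 ≤ s) : trunc (TT k X : ℂ → ℂ) s = Mk k X s := by
  unfold trunc Mk
  rw [max_eq_left hs]

/-- **(hT)** for one open set `D` -/
theorem hT {Zn : ℝ} (hfam : StmtFamS Link) {n : ℕ} {p : ℝ} {P R : ℕ → ℝ}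
    {w w' : ℕ → ℝ → ℝ} (hc : ∀ ℓ : ℝ, 0 ≤ ℓ → Chain n ℓ P R w w') (X : H)
    {D : Set ℂ} (hD : IsOpen D) (hb : Bornology.IsBounded D) {C t c₀ : ℝ} (hC : 0 ≤ C)
    (ht : 0 < t) (hc₀ : 0 ≤ c₀)
    (hZ : ENNReal.ofReal c₀ + ∫⁻ l in Ioi (0 : ℝ), ENNReal.ofReal (exitD w w' R n l *
      Real.exp (-((2 / p - 1) * l))) = ENNReal.ofReal Zn) :
    ENNReal.ofReal (c₀ * trunc (TT n X : ℂ → ℂ) (C * t)) +
      (∫⁻ l in Ioi (0 : ℝ), ENNReal.ofReal (exitD w w' R n l *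
        trunc (TT n X : ℂ → ℂ) (C * Real.exp (-(1 / p * l)) * t))) +
      (∫⁻ l in Ioi (0 : ℝ), ENNReal.ofReal (extrD w w' P l * E 0 (Ctr.U l D) X)) ≤
    ENNReal.ofReal (∑ j ∈ Finset.range (n + 1), shr n P R w c₀ j * E j D X) +
      ENNReal.ofReal (C ^ 2 * Zn * t ^ 2) * volume D := by
  have hBv : ∀ s, 0 < s → (volume (Ctr.U s D)).toReal ≤ Real.exp s * (volume D).toReal := by
    intro s hs
    rw [Ctr.vol_U hs.le hD, ENNReal.toReal_mul, ENNReal.toReal_ofReal (Real.exp_pos s).le]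
  have h := HT_.hT hfam hc X hD hb (B := fun l => Ctr.U l D)
    (fun l l' hl => Ctr.U_mono_left hl D)
    (fun μ ψ _ _ hμD _ hμ1 _ hQ s _ => flow_sub μ ψ hμD hμ1 hQ s)
    (fun s _ => Ctr.isOpen_U Ctr.exist s hD) (fun s _ => Ctr.isBounded_U Ctr.exist hb)
    hBv (1 / p) C t c₀ hc₀
  have e1 : ∀ l : ℝ, (1 - 2 * (1 / p)) * l = -((2 / p - 1) * l) := fun l => by ring
  simp only [e1] at h
  rw [hZ] at h
  have e2 : Mk n X (C * t) = trunc (TT n X : ℂ → ℂ) (C * t) :=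
    (trunc_eq n X (by positivity)).symm
  have e3 : ∀ l : ℝ, Mk n X (C * Real.exp (-(1 / p * l)) * t) =
      trunc (TT n X : ℂ → ℂ) (C * Real.exp (-(1 / p * l)) * t) := fun l =>
    (trunc_eq n X (by positivity)).symm
  simp only [e2, e3] at h
  rw [shr_sum n P R w c₀ (fun j => E j D X)] at h
  rw [add_assoc]
  refine h.trans (le_of_eq ?_)
  congr 1
  have hvol : volume D = ENNReal.ofReal (volume D).toReal :=
    (ENNReal.ofReal_toReal hb.measure_lt_top.ne).symm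
  rw [ENNReal.ofReal_mul (by positivity : 0 ≤ C ^ 2 * t ^ 2), ← hvol, mul_right_comm,
    ← ENNReal.ofReal_mul (by positivity)]
  congr 2
  ring

/-- **(hT)** in the shape of `Top46.top_atom`, for the sets `G_t = {0 < ψ (t^r / w)}` of any
interface family -/
theorem hT_top {Zn : ℝ} (hfam : StmtFamS Link) {n : ℕ} {p r : ℝ} {P R : ℕ → ℝ}
    {w w' : ℕ → ℝ → ℝ} (hc : ∀ ℓ : ℝ, 0 ≤ ℓ → Chain n ℓ P R w w') (X : H)
    {μ : ℂ → ℝ} {ψ : ℝ → ℂ → ℝ} (hF : Fam μ ψ) (hr : 1 ≤ r) (hrp : r < p)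
    {C c₀ : ℝ} (hC : 0 ≤ C) (hc₀ : 0 ≤ c₀)
    (hZ : ENNReal.ofReal c₀ + ∫⁻ l in Ioi (0 : ℝ), ENNReal.ofReal (exitD w w' R n l *
      Real.exp (-((2 / p - 1) * l))) = ENNReal.ofReal Zn) :
    ∀ t : ℝ, 0 < t → ENNReal.ofReal (c₀ * trunc (TT n X : ℂ → ℂ) (C * t)) +
      (∫⁻ l in Ioi (0 : ℝ), ENNReal.ofReal (exitD w w' R n l *
        trunc (TT n X : ℂ → ℂ) (C * Real.exp (-(1 / p * l)) * t))) +
      (∫⁻ l in Ioi (0 : ℝ), ENNReal.ofReal (extrD w w' P l *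
        E 0 (Ctr.U l {z | 0 < ψ (t ^ r / (1 - r / p)) z}) X)) ≤
    ENNReal.ofReal (∑ j ∈ Finset.range (n + 1), shr n P R w c₀ j *
        E j {z | 0 < ψ (t ^ r / (1 - r / p)) z} X) +
      ENNReal.ofReal (C ^ 2 * Zn * t ^ 2) * volume {z | 0 < ψ (t ^ r / (1 - r / p)) z} := by
  intro t ht
  have hw : 0 < 1 - r / p := by
    have : 0 < p := by linarith
    rw [sub_pos, div_lt_one this]; exact hrp
  have hL : 0 < t ^ r / (1 - r / p) := by positivity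
  exact hT hfam hc X ((hF.lsc _ hL).isOpen_preimage 0) (hF.bdd _ hL) hC ht hc₀ hZ

end HU_
end Pool.Agent.Lib.QNL
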