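import Pool.Agent.Lib.IWC.MulS
import Pool.Agent.Lib.MP_dd244f_an.Joint.Dual

/-!
The end of the proof: from `1 < q < 2` and compactly supported Schwartz functions to the frozen
inequality (`p ≥ 2`, Schwartz functions), for every power `n`; and the link between the `L²`
operator `T ^ k` (a multiplier of `IWC`) and `Tn`.
-/

set_option autoImplicit false

namespace Pool.Agent.Lib.QNL

open MeasureTheory Filter Topology Set FourierTransform SchwartzMap
open scoped SchwartzMap ENNReal ContDiff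
open Pool.Agent.Lib.MP_dd244f_an Pool.Agent.Lib.MP_dd244f_an.Joint Pool.Agent.Lib.IWC

/-- The constant `(1/q)_n / (1 - 1/q)_n` for the exponent `1 < q < 2`. -/
noncomputable def Cn (n : ℕ) (q : ℝ) : ℝ :=
  (ascPochhammer ℝ n).eval (1 / q) / (ascPochhammer ℝ n).eval (1 - 1 / q)

theorem Cn_pos (n : ℕ) {q : ℝ} (hq : 1 < q) : 0 < Cn n q := by
  have h1 : 0 < 1 / q := by positivity
  have h2 : 0 < 1 - 1 / q := by
    rw [sub_pos, div_lt_one (by linarith)]
    exact hq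
  exact div_pos (ascPochhammer_pos n _ h1) (ascPochhammer_pos n _ h2)

/-- `(A_n)`: the inequality for `1 < q < 2` on compactly supported Schwartz functions. -/
def StmtLowN (n : ℕ) : Prop := ∀ q : ℝ, 1 < q → q < 2 → ∀ f : 𝓢(ℂ, ℂ), HasCompactSupport f →
  ∫⁻ w, ‖Tn n f w‖ₑ ^ q ≤ ENNReal.ofReal (Cn n q ^ q) * ∫⁻ w, ‖f w‖ₑ ^ q

/-- `(A_n)` with real integrals. -/
def StmtLowR (n : ℕ) : Prop := ∀ q : ℝ, 1 < q → q < 2 → ∀ f : 𝓢(ℂ, ℂ), HasCompactSupport f →
  Integrable (fun w => ‖Tn n f w‖ ^ q) ∧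
    ∫ w, ‖Tn n f w‖ ^ q ≤ Cn n q ^ q * ∫ w, ‖f w‖ ^ q

/-- The symbol of the power `T ^ k`, `k ∈ ℤ`. -/
noncomputable def tS (k : ℤ) (ξ : ℂ) : ℂ := (starRingEnd ℂ ξ / ξ) ^ k

/-- The power `T ^ k` on `L²`. -/
noncomputable def TH (k : ℤ) (h : H) : H := Mu (tS k) h

/-- `(A_n)` with the `L²` operator. -/
def StmtLowH (n : ℕ) : Prop := ∀ q : ℝ, 1 < q → q < 2 → ∀ f : 𝓢(ℂ, ℂ), HasCompactSupport f →
  ∫⁻ w, ‖(TH n (f.toLp 2) : ℂ → ℂ) w‖ₑ ^ q ≤ ENNReal.ofReal (Cn n q ^ q) * ∫⁻ w, ‖f w‖ₑ ^ q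

theorem bd_tS (k : ℤ) : Bd (tS k) 1 := by
  refine ⟨?_, fun ξ => ?_⟩
  · unfold tS
    have h : Measurable fun ξ : ℂ => starRingEnd ℂ ξ / ξ :=
      (Complex.continuous_conj.measurable).div measurable_id
    exact h.pow_const k
  · unfold tS
    rcases eq_or_ne ξ 0 with rfl | hξ
    · rcases eq_or_ne k 0 with rfl | hk
      · simp
      · simp [zero_zpow k hk]
    · rw [norm_zpow, norm_div, RCLike.norm_conj, div_self (norm_ne_zero_iff.mpr hξ), one_zpow]

/-- The inverse Fourier transform in `L²` and the integral. -/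
theorem fourierInv_toLp_ae {g : ℂ → ℂ} (h1 : Integrable g) (h2 : MemLp g 2) :
    ∀ᵐ x, ((𝓕⁻ (h2.toLp g) : H) : ℂ → ℂ) x = 𝓕⁻ g x := by
  set G : H := h2.toLp g with hG
  set F : H := 𝓕⁻ G with hF
  have hcont : Continuous (𝓕⁻ g) := by
    have : 𝓕⁻ g = fun w => 𝓕 g (-w) := by
      ext w; rw [Real.fourierInv_eq_fourier_neg]
    rw [this]
    have hc : Continuous (𝓕 g) :=
      VectorFourier.fourierIntegral_continuous Real.continuous_fourierChar
        (by exact continuous_inner) h1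
    exact hc.comp continuous_neg
  apply ae_eq_of_integral_contDiff_smul_eq
  · exact (Lp.memLp F).locallyIntegrable (by norm_num)
  · exact hcont.locallyIntegrable
  · intro φ hφ hφc
    have hΦs : ContDiff ℝ ∞ (fun x => ((φ x : ℝ) : ℂ)) := Complex.ofRealCLM.contDiff.comp hφ
    have hΦc : HasCompactSupport (fun x => ((φ x : ℝ) : ℂ)) :=
      hφc.comp_left (g := fun r : ℝ => (r : ℂ)) (by simp)
    set Φ : 𝓢(ℂ, ℂ) := hΦc.toSchwartzMap hΦs with hΦ
    have hΦapp : ∀ x, Φ x = (φ x : ℂ) := fun x => rfl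
    have key : (F : 𝓢'(ℂ, ℂ)) Φ = (G : 𝓢'(ℂ, ℂ)) (𝓕⁻ Φ) := by
      rw [hF, ← Lp.fourierInv_toTemperedDistribution_eq, TemperedDistribution.fourierInv_apply]
    rw [Lp.toTemperedDistribution_apply, Lp.toTemperedDistribution_apply] at key
    have e1 : ∫ x, φ x • (F : ℂ → ℂ) x = ∫ x, Φ x • (F : ℂ → ℂ) x := by
      apply integral_congr_ae
      filter_upwards with x
      rw [hΦapp, smul_eq_mul, Complex.real_smul]
    have e2 : ∫ x, (𝓕⁻ Φ) x • (G : ℂ → ℂ) x = ∫ x, 𝓕⁻ (Φ : ℂ → ℂ) x * g x := by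
      apply integral_congr_ae
      filter_upwards [h2.coeFn_toLp] with x hx
      rw [hG, hx, SchwartzMap.fourierInv_coe, smul_eq_mul]
    have e3 : ∫ x, φ x • 𝓕⁻ g x = ∫ x, Φ x * 𝓕⁻ g x := by
      apply integral_congr_ae
      filter_upwards with x
      rw [hΦapp, Complex.real_smul]
    rw [e1, key, e2, e3, integral_fourierInv_mul Φ.integrable h1]

/-- The `L²` operator on Schwartz functions. -/
theorem TH_toLp (n : ℕ) (f : 𝓢(ℂ, ℂ)) : ∀ᵐ x, (TH n (f.toLp 2) : ℂ → ℂ) x = Tn n f x := by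
  have h1 := mult_integrable n f
  have h2 := mult_memLp n f
  have e : mulH (tS n) (𝓕 (f.toLp 2)) = h2.toLp _ := by
    rw [SchwartzMap.toLp_fourier_eq]
    apply Lp.ext
    filter_upwards [mulH_coe (bd_tS n) ((𝓕 f).toLp 2), SchwartzMap.coeFn_toLp (𝓕 f) 2 volume,
      h2.coeFn_toLp] with ξ h3 h4 h5
    rw [h3, h4, h5, tS, zpow_natCast, SchwartzMap.fourier_coe]
  rw [TH, Mu, e]
  filter_upwards [fourierInv_toLp_ae h1 h2] with x hx
  rw [hx, Tn_eq]

theorem lowN_of_lowH {n : ℕ} (h : StmtLowH n) : StmtLowN n := by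
  intro q h1 h2 f hf
  refine le_trans (le_of_eq ?_) (h q h1 h2 f hf)
  refine lintegral_congr_ae ?_
  filter_upwards [TH_toLp n f] with x hx
  rw [hx]

theorem lowN_of_lowR {n : ℕ} (h : StmtLowR n) : StmtLowN n := by
  intro q h1 h2 f hf
  obtain ⟨h3, h4⟩ := h q h1 h2 f hf
  have hq : 0 ≤ q := by linarith
  have e : ∀ g : ℂ → ℂ, ∫⁻ w, ‖g w‖ₑ ^ q = ∫⁻ w, ENNReal.ofReal (‖g w‖ ^ q) := by
    intro g
    refine lintegral_congr fun w => ?_
    rw [← ENNReal.ofReal_rpow_of_nonneg (norm_nonneg _) hq, ofReal_norm_eq_enorm]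
  have hf' : Integrable (fun w => ‖f w‖ ^ q) := by
    have : Fact (1 ≤ ENNReal.ofReal q) := ⟨by
      rw [← ENNReal.ofReal_one]
      exact ENNReal.ofReal_le_ofReal h1.le⟩
    have h5 := (f.memLp (ENNReal.ofReal q) volume).integrable_norm_rpow
      (by simpa using (by linarith : 0 < q)) ENNReal.ofReal_ne_top
    rwa [ENNReal.toReal_ofReal hq] at h5
  rw [e, e, ← ofReal_integral_eq_lintegral_ofReal h3 (ae_of_all _ fun w => by positivity),
    ← ofReal_integral_eq_lintegral_ofReal hf' (ae_of_all _ fun w => by positivity),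
    ← ENNReal.ofReal_mul (by have := Cn_pos n h1; positivity)]
  exact ENNReal.ofReal_le_ofReal h4

/-- The frozen inequality for the power `n`. -/
theorem frozen_of_lowN {n : ℕ} (h : StmtLowN n) : ∀ p : ℝ, 2 ≤ p → ∀ f : SchwartzMap ℂ ℂ,
      MeasureTheory.eLpNorm
        (fun z : ℂ => ∫ ξ : ℂ,
          Complex.exp (2 * (Real.pi : ℂ) * Complex.I * (((z.re * ξ.re + z.im * ξ.im : ℝ)) : ℂ)) *
            ((starRingEnd ℂ ξ / ξ) ^ n *
              ∫ x : ℂ, Complex.exp (-(2 * (Real.pi : ℂ) * Complex.I *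
                (((x.re * ξ.re + x.im * ξ.im : ℝ)) : ℂ))) * f x))
        (ENNReal.ofReal p) MeasureTheory.volume
      ≤ ENNReal.ofReal ((ascPochhammer ℝ n).eval (1 - 1 / p) / (ascPochhammer ℝ n).eval (1 / p))
        * MeasureTheory.eLpNorm (⇑f) (ENNReal.ofReal p) MeasureTheory.volume := by
  intro p hp f
  change eLpNorm (Tn n f) (ENNReal.ofReal p) volume ≤ _
  rcases hp.eq_or_lt with h2 | h2
  · subst h2
    have hpos : (ascPochhammer ℝ n).eval (1 / 2 : ℝ) ≠ 0 :=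
      (ascPochhammer_pos n (1 / 2 : ℝ) (by norm_num)).ne'
    rw [show (1 : ℝ) - 1 / 2 = 1 / 2 by norm_num, div_self hpos,
      show ENNReal.ofReal (2 : ℝ) = 2 by norm_num, ENNReal.ofReal_one, one_mul]
    exact Tn_L2 n f
  · have hp0 : 0 < p := by linarith
    have hp1 : 0 < p - 1 := by linarith
    have hq1 : 1 < p / (p - 1) := by rw [one_lt_div hp1]; linarith
    have hq2 : p / (p - 1) < 2 := by rw [div_lt_iff₀ hp1]; linarith
    have hc : Cn n (p / (p - 1)) =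
        (ascPochhammer ℝ n).eval (1 - 1 / p) / (ascPochhammer ℝ n).eval (1 / p) := by
      have e1 : 1 / (p / (p - 1)) = 1 - 1 / p := by field_simp
      rw [Cn, e1]
      congr 2
      ring
    rw [← hc]
    exact dual n p (p / (p - 1)) (Cn n (p / (p - 1))) h2 (by field_simp; ring)
      (Cn_pos n hq1).le (fun g hg => h _ hq1 hq2 g hg) f

end Pool.Agent.Lib.QNL
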