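import Pool.Agent.Lib.QNL.Stmts

/-!
Group T: the static transport inequality (statement only).

`M k X s = ∫ min (|T^k X|²) s²`.  For every bounded open set `D` and every `t > 0` the transport
along the torsion flow started at `D` gives an inequality between integrals of `M n X` and
`M 0 X` and the numbers `E j D X`; the flow itself does not appear in the statement.
-/

set_option autoImplicit false

namespace Pool.Agent.Lib.QNL

open MeasureTheory Filter Topology Set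
open scoped ENNReal ContDiff Interval

/-- `M_k(s) = ∫ min (|T^k X|²) s²` -/
noncomputable def Mk (k : ℕ) (X : H) (s : ℝ) : ℝ :=
  ∫ z, min (‖(TT k X : ℂ → ℂ) z‖ ^ 2) (s ^ 2)

/-- the exit density `ν` and the extraction `κ` of a chain of weights -/
noncomputable def exitD (w w' : ℕ → ℝ → ℝ) (r : ℕ → ℝ) (n : ℕ) (x : ℝ) : ℝ :=
  w (n - 1) x - w' (n - 1) x / r (n - 1)

noncomputable def extrD (w w' : ℕ → ℝ → ℝ) (p : ℕ → ℝ) (x : ℝ) : ℝ :=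
  -(w 0 x + w' 0 x / p 0)

/-- admissible chains of weights on `[0, ℓ]` -/
structure Chain (n : ℕ) (ℓ : ℝ) (p r : ℕ → ℝ) (w w' : ℕ → ℝ → ℝ) : Prop where
  pos : 1 ≤ n
  ell : 0 ≤ ℓ
  hp : ∀ j, j < n → 0 < p j
  hr : ∀ j, j < n → 0 < r j
  hpr : ∀ j, j < n → p j + r j = 2 * j + 1
  deriv : ∀ j, j < n → ∀ x, HasDerivAt (w j) (w' j x) x
  cont : ∀ j, j < n → Continuous (w' j)
  nonneg : ∀ j, j < n → ∀ x ∈ Icc 0 ℓ, 0 ≤ w j x
  chain : ∀ j, j + 1 < n → ∀ x ∈ Icc 0 ℓ,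
    w (j + 1) x + w' (j + 1) x / p (j + 1) ≤ w j x - w' j x / r j
  exit : ∀ x ∈ Icc 0 ℓ, 0 ≤ exitD w w' r n x
  extr : ∀ x ∈ Icc 0 ℓ, 0 ≤ extrD w w' p x

/-- **(ST)** the static transport inequality -/
def StmtST : Prop := ∀ (n : ℕ) (ℓ : ℝ) (p r : ℕ → ℝ) (w w' : ℕ → ℝ → ℝ),
  Chain n ℓ p r w w' → ∀ (a C t : ℝ), 0 ≤ C → 0 < t → ∀ (X : H) (D : Set ℂ), IsOpen D →
  Bornology.IsBounded D →
    (∫ x in (0 : ℝ)..ℓ, exitD w w' r n x * Mk n X (C * Real.exp (-(a * x)) * t)) +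
      (∫ x in (0 : ℝ)..ℓ, extrD w w' p x * Mk 0 X (Real.exp (-(a * x)) * t)) ≤
    (∑ j ∈ Finset.range n, w j 0 * (E j D X / p j + E (j + 1) D X / r j)) +
      t ^ 2 * (volume D).toReal *
        ∫ x in (0 : ℝ)..ℓ, (C ^ 2 * exitD w w' r n x + extrD w w' p x) *
          Real.exp ((1 - 2 * a) * x)

/-- pointwise form of `Fam.out`: the domain contains the open set `{μ > L}` -/
def FamOut (μ : ℂ → ℝ) (ψ : ℝ → ℂ → ℝ) : Prop :=
  ∀ L, 0 < L → ∀ z, ψ L z = 0 → μ z ≤ L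

/-- (MAIN 1) with the pointwise form of `out` -/
def StmtFamP : Prop := ∀ (μ : ℂ → ℝ) (C : ℝ), Src μ C → ∃ ψ : ℝ → ℂ → ℝ, Fam μ ψ ∧
  FamOut μ ψ ∧ ∃ C' : ℝ, 0 ≤ C' ∧ ∀ X : H, Layer μ C' ψ X

end Pool.Agent.Lib.QNL
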