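import Pool.Agent.Lib.QNL.Wts73
import Pool.Agent.Lib.QNL.STStmt
import Pool.Agent.Lib.QNL.End

/-!
The explicit weights of `Wts73` form a `Chain` (group T), and `CC` is the constant of `T^n`.
-/

set_option autoImplicit false

namespace Pool.Agent.Lib.QNL.Wts73

open MeasureTheory Set Filter Topology
open scoped Nat

/-- `p_j = j + 1 - a` -/
noncomputable def pj (a : ℝ) (j : ℕ) : ℝ := j + 1 - a

/-- `r_j = j + a` -/
noncomputable def rj (a : ℝ) (j : ℕ) : ℝ := j + a

/-- **the explicit chain** -/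
theorem chain {a c ℓ : ℝ} (ha0 : 0 < a) (ha1 : a < 1) (hc : 1 ≤ c) (hℓ : 0 ≤ ℓ) {n : ℕ}
    (hn : 1 ≤ n) : Chain n ℓ (pj a) (rj a) (gw a c) (gw' a c) where
  pos := hn
  ell := hℓ
  hp := fun j _ => by
    have : (0 : ℝ) ≤ j := Nat.cast_nonneg j
    unfold pj
    linarith
  hr := fun j _ => by
    unfold rj
    positivity
  hpr := fun j _ => by
    unfold pj rj
    ring
  deriv := fun j _ x => hasDerivAt_gw a c j x
  cont := fun j _ => cont_gw' a c j
  nonneg := fun j _ x _ => (gw_pos ha0 ha1 (by linarith) j x).le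
  chain := fun j _ x _ => by
    have h := chain_gw ha0 ha1 c j x
    unfold pj rj
    push_cast
    rw [show (j : ℝ) + 1 + 1 - a = j + 2 - a by ring]
    exact h.le
  exit := fun x _ => by
    unfold exitD rj
    exact (exit_gw_pos ha0 ha1 (by linarith) (n - 1) x).le
  extr := fun x hx => by
    unfold extrD pj
    have h := extr_gw_nonneg (c := c) ha1 hc hx.1
    rwa [Nat.cast_zero, zero_add]

/-- the exit density -/
theorem exitD_eq {a : ℝ} (ha0 : 0 < a) (c : ℝ) (n : ℕ) (x : ℝ) :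
    exitD (gw a c) (gw' a c) (rj a) (n + 1) x =
      Gam a n / (n + a) * Real.exp (-((1 - a) * x)) * XX n (c * Real.exp x) :=
  exit_gw ha0 c n x

/-- the extraction density -/
theorem extrD_eq {a : ℝ} (ha1 : a < 1) (c : ℝ) (x : ℝ) :
    extrD (gw a c) (gw' a c) (pj a) x =
      Real.exp (-((1 - a) * x)) / (1 - a) *
        (c * Real.exp x * (c * Real.exp x - 1) * Real.exp (-(c * Real.exp x))) := by
  have h := extr_gw ha1 c x
  unfold extrD pj
  rwa [Nat.cast_zero, zero_add]

theorem gw_zero (a c : ℝ) (j : ℕ) : gw a c j 0 = Gam a j * psi j c := by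
  simp [gw]

theorem CC_eq_Cn {q : ℝ} (hq : 1 < q) (n : ℕ) : CC (1 / q) n = Cn n q := by
  have h1 : 1 / q < 1 := (div_lt_one (by linarith)).2 hq
  induction n with
  | zero => simp [CC, Cn]
  | succ n ih =>
    have h2 : (0 : ℝ) < n + 1 - 1 / q := by
      have : (0 : ℝ) ≤ n := Nat.cast_nonneg n
      linarith
    have e1 : (ascPochhammer ℝ (n + 1)).eval (1 / q) =
        (ascPochhammer ℝ n).eval (1 / q) * (1 / q + n) := by
      rw [ascPochhammer_succ_eval]
    have e2 : (ascPochhammer ℝ (n + 1)).eval (1 - 1 / q) =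
        (ascPochhammer ℝ n).eval (1 - 1 / q) * (1 - 1 / q + n) := by
      rw [ascPochhammer_succ_eval]
    have e3 : CC (1 / q) (n + 1) = CC (1 / q) n * ((n + 1 / q) / (n + 1 - 1 / q)) := rfl
    rw [e3, ih]
    unfold Cn
    rw [e1, e2, show (n : ℝ) + 1 - 1 / q = 1 - 1 / q + n by ring, add_comm (n : ℝ) (1 / q),
      div_mul_div_comm]

end Pool.Agent.Lib.QNL.Wts73
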