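import Pool.Agent.Lib.QNL.CertG95
import Pool.Agent.Lib.QNL.WtsCh73
import Pool.Agent.Lib.QNL.HU77

/-!
Group T / N: mass balance of the explicit weights with the truncated last share (atom of the exit
at `l = 0`).
-/

set_option autoImplicit false

namespace Pool.Agent.Lib.QNL.Bal77

open MeasureTheory Set Filter Topology
open scoped ENNReal Nat
open Pool.Agent.Lib.QNL Pool.Agent.Lib.QNL.Wts73 Pool.Agent.Lib.QNL.CG
open Pool.Agent.Lib.QNL.Ric (Bj thj Cj)

/-! ### Multiples of a chain -/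

theorem exitD_smul (κ : ℝ) (w w' : ℕ → ℝ → ℝ) (r : ℕ → ℝ) (n : ℕ) (x : ℝ) :
    exitD (fun j x => κ * w j x) (fun j x => κ * w' j x) r n x = κ * exitD w w' r n x := by
  unfold exitD; ring

theorem extrD_smul (κ : ℝ) (w w' : ℕ → ℝ → ℝ) (p : ℕ → ℝ) (x : ℝ) :
    extrD (fun j x => κ * w j x) (fun j x => κ * w' j x) p x = κ * extrD w w' p x := by
  unfold extrD; ring

theorem chain_smul {n : ℕ} {ℓ : ℝ} {p r : ℕ → ℝ} {w w' : ℕ → ℝ → ℝ}
    (h : Chain n ℓ p r w w') {κ : ℝ} (hκ : 0 ≤ κ) :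
    Chain n ℓ p r (fun j x => κ * w j x) (fun j x => κ * w' j x) where
  pos := h.pos
  ell := h.ell
  hp := h.hp
  hr := h.hr
  hpr := h.hpr
  deriv := fun j hj x => (h.deriv j hj x).const_mul κ
  cont := fun j hj => (h.cont j hj).const_mul κ
  nonneg := fun j hj x hx => mul_nonneg hκ (h.nonneg j hj x hx)
  chain := fun j hj x hx => by
    have h1 := mul_le_mul_of_nonneg_left (h.chain j hj x hx) hκ
    calc κ * w (j + 1) x + κ * w' (j + 1) x / p (j + 1)
        = κ * (w (j + 1) x + w' (j + 1) x / p (j + 1)) := by ring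
      _ ≤ κ * (w j x - w' j x / r j) := h1
      _ = _ := by ring
  exit := fun x hx => by
    rw [exitD_smul]; exact mul_nonneg hκ (h.exit x hx)
  extr := fun x hx => by
    rw [extrD_smul]; exact mul_nonneg hκ (h.extr x hx)

/-! ### The weights -/

/-- the weights `(1-a) g_j` -/
noncomputable def wt (a c : ℝ) (j : ℕ) (l : ℝ) : ℝ := (1 - a) * gw a c j l

noncomputable def wt' (a c : ℝ) (j : ℕ) (l : ℝ) : ℝ := (1 - a) * gw' a c j l

/-- the atom of the exit -/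
noncomputable def c0 (n : ℕ) (a c : ℝ) : ℝ :=
  (Tl a c (n - 1) - CC a n * psi (n - 1) c) / CC a n ^ 2

variable {a c : ℝ}

theorem c0_pos (ha0 : 0 < a) (ha1 : a < 1) (hc : 0 < c) {n : ℕ} (hn : 1 ≤ n) : 0 < c0 n a c := by
  obtain ⟨m, rfl⟩ : ∃ m, n = m + 1 := ⟨n - 1, by omega⟩
  have h1 := lt_Tl ha0 ha1 hc m
  have h2 := CC_pos ha0 ha1 (m + 1)
  unfold c0
  rw [Nat.add_sub_cancel]
  exact div_pos (sub_pos.2 h1) (by positivity)

theorem chain_wt (ha0 : 0 < a) (ha1 : a < 1) (hc : 1 ≤ c) {n : ℕ} (hn : 1 ≤ n) (ℓ : ℝ)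
    (hℓ : 0 ≤ ℓ) : Chain n ℓ (pj a) (rj a) (wt a c) (wt' a c) :=
  chain_smul (chain ha0 ha1 hc hℓ hn) (sub_nonneg.2 ha1.le)

theorem extrD_wt (ha1 : a < 1) (l : ℝ) : extrD (wt a c) (wt' a c) (pj a) l = kap a c l := by
  have h := extrD_smul (1 - a) (gw a c) (gw' a c) (pj a) l
  have h1 : (0 : ℝ) < 1 - a := sub_pos.2 ha1
  have h2 := extrD_eq ha1 c l
  change extrD (fun j x => (1 - a) * gw a c j x) (fun j x => (1 - a) * gw' a c j x) (pj a) l = _
  rw [h, h2]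
  unfold kap
  field_simp

/-- `(1-a) Γ_j / (j+1-a) = 1 / C_j` -/
theorem gam_p (ha0 : 0 < a) (ha1 : a < 1) (j : ℕ) :
    (1 - a) * Gam a j / (j + 1 - a) = 1 / CC a j := by
  have h0 : (0 : ℝ) < 1 - a := sub_pos.2 ha1
  have h1 : (0 : ℝ) < j + 1 - a := by
    have : (0 : ℝ) ≤ j := Nat.cast_nonneg j
    linarith
  have h2 := CC_pos ha0 ha1 j
  have h3 := Gam_CC ha0 ha1 j
  rw [eq_div_iff h2.ne', div_mul_eq_mul_div, mul_assoc, h3]
  field_simp

/-- `(1-a) Γ_j / (j+a) = 1 / C_(j+1)` -/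
theorem gam_r (ha0 : 0 < a) (ha1 : a < 1) (j : ℕ) :
    (1 - a) * Gam a j / (j + a) = 1 / CC a (j + 1) := by
  have h0 : (0 : ℝ) < 1 - a := sub_pos.2 ha1
  have h1 : (0 : ℝ) < j + 1 - a := by
    have : (0 : ℝ) ≤ j := Nat.cast_nonneg j
    linarith
  have h4 : (0 : ℝ) < j + a := by positivity
  have h2 := CC_pos ha0 ha1 j
  have h3 := gam_p ha0 ha1 j
  have h5 : CC a (j + 1) = CC a j * ((j + a) / (j + 1 - a)) := rfl
  rw [div_eq_iff h1.ne'] at h3
  rw [h5, h3]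
  field_simp

/-- the shares of the transport are the shares of the certificate -/
theorem shr_eq (ha0 : 0 < a) (ha1 : a < 1) {n : ℕ} (hn : 1 ≤ n) {j : ℕ} (hj : j ≤ n) :
    HU_.shr n (pj a) (rj a) (wt a c) (c0 n a c) j = Bj n a (bs n a c) j := by
  have e1 : ∀ i : ℕ, wt a c i 0 / pj a i = psi i c / CC a i := fun i => by
    have h := gam_p ha0 ha1 i
    unfold wt pj
    rw [gw_zero, ← mul_assoc, mul_div_right_comm, h]
    ring
  have e2 : ∀ i : ℕ, wt a c i 0 / rj a i = psi i c / CC a (i + 1) := fun i => by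
    have h := gam_r ha0 ha1 i
    unfold wt rj
    rw [gw_zero, ← mul_assoc, mul_div_right_comm, h]
    ring
  unfold HU_.shr Bj bs
  rw [if_pos hj, Cj_eq_CC, e1, e2]
  have hC := CC_pos ha0 ha1 j
  rcases Nat.eq_zero_or_pos j with rfl | hj0
  · rw [if_pos (by omega), if_neg (by omega), if_neg (by omega), if_pos (by omega)]
    simp [CC, Bs]
  · obtain ⟨i, rfl⟩ : ∃ i, j = i + 1 := ⟨j - 1, by omega⟩
    rw [if_pos (show 0 < i + 1 ∧ i + 1 ≤ n from ⟨hj0, hj⟩), Nat.add_sub_cancel]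
    rcases hj.lt_or_eq with h | h
    · rw [if_pos h, if_neg (by omega), if_pos h, Bs]
      field_simp
      ring
    · subst h
      rw [if_neg (by omega), if_pos rfl, if_neg (by omega), if_pos rfl]
      unfold c0
      rw [Nat.add_sub_cancel]
      field_simp
      ring

/-! ### Limits at infinity -/

theorem JJ_zero_le (β : ℕ) {w : ℝ} (hw : 0 < w) : JJ 0 β w ≤ 1 := by
  have h : JJ 0 β w ≤ ∫ _ in (0 : ℝ)..1, (1 : ℝ) := by
    unfold JJ
    refine intervalIntegral.integral_mono_on zero_le_one ((cont_JJ 0 β w).intervalIntegrable _ _)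
      (by simp) fun v hv => ?_
    have h1 : (1 - v) ^ β ≤ 1 := pow_le_one₀ (by linarith [hv.2]) (by linarith [hv.1])
    have h2 : Real.exp (-(w * v)) ≤ 1 := Real.exp_le_one_iff.2 (by nlinarith [hv.1])
    rw [pow_zero, one_mul]
    exact mul_le_one₀ h1 (Real.exp_pos _).le h2
  simpa using h

theorem pow_JJ_le (α β : ℕ) {w : ℝ} (hw : 0 < w) : w ^ α * JJ α β w ≤ α ! := by
  induction α with
  | zero => simpa using JJ_zero_le β hw
  | succ α ih =>
    have hα : (0 : ℝ) ≤ (α : ℝ) + 1 := by positivity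
    have hwa : 0 ≤ w ^ α := by positivity
    have h1 : w * JJ (α + 1) β w ≤ (α + 1) * JJ α β w := by
      cases β with
      | zero =>
        rw [JJ_parts_zero]
        linarith [Real.exp_pos (-w)]
      | succ β =>
        rw [JJ_parts]
        have := JJ_pos (α + 1) β w
        have h3 : (0 : ℝ) ≤ (β + 1) * JJ (α + 1) β w := by positivity
        linarith
    calc w ^ (α + 1) * JJ (α + 1) β w = w ^ α * (w * JJ (α + 1) β w) := by ring
      _ ≤ w ^ α * ((α + 1) * JJ α β w) := mul_le_mul_of_nonneg_left h1 hwa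
      _ = (α + 1) * (w ^ α * JJ α β w) := by ring
      _ ≤ (α + 1) * α ! := mul_le_mul_of_nonneg_left ih hα
      _ = ((α + 1)! : ℝ) := by rw [Nat.factorial_succ]; push_cast; ring

theorem psi_bdd (j : ℕ) : ∃ B : ℝ, ∀ w, 0 < w → psi j w ≤ B := by
  cases j with
  | zero =>
    refine ⟨1, fun w hw => ?_⟩
    have h1 := Real.add_one_le_exp w
    simp only [psi]
    rw [Real.exp_neg, ← div_eq_mul_inv, div_le_one (Real.exp_pos _)]
    linarith
  | succ j =>
    refine ⟨(j + 2)! / j !, fun w hw => ?_⟩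
    have h1 := pow_JJ_le (j + 2) j hw
    have hf : (0 : ℝ) < j ! := by positivity
    simp only [psi]
    rw [div_mul_eq_mul_div, div_le_div_iff_of_pos_right hf]
    exact h1

theorem tendsto_psi_atTop (ha0 : 0 < a) (j : ℕ) :
    Tendsto (fun w : ℝ => w ^ (-a) * psi j w) atTop (𝓝 0) := by
  obtain ⟨B, hB⟩ := psi_bdd j
  have h1 : Tendsto (fun w : ℝ => w ^ (-a) * B) atTop (𝓝 (0 * B)) :=
    (tendsto_rpow_neg_atTop ha0).mul_const B
  rw [zero_mul] at h1
  refine squeeze_zero' ?_ ?_ h1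
  · filter_upwards [eventually_gt_atTop 0] with w hw
    have := psi_pos j hw
    positivity
  · filter_upwards [eventually_gt_atTop 0] with w hw
    exact mul_le_mul_of_nonneg_left (hB w hw) (Real.rpow_nonneg hw.le _)

/-- `γ(∞)` -/
noncomputable def gi (a : ℝ) : ℝ := ∫ s in Ioi (0 : ℝ), s ^ (-a) * ((1 - s) * Real.exp (-s))

theorem gi_int (ha1 : a < 1) :
    IntegrableOn (fun s : ℝ => s ^ (-a) * ((1 - s) * Real.exp (-s))) (Ioi 0) := by
  have h1 := Real.GammaIntegral_convergent (s := 1 - a) (by linarith)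
  have h2 := Real.GammaIntegral_convergent (s := 2 - a) (by linarith)
  refine (h1.sub h2).congr_fun (fun s hs => ?_) measurableSet_Ioi
  have hs' : (0 : ℝ) < s := hs
  have e1 : (1 - a - 1 : ℝ) = -a := by ring
  have e2 : (2 - a - 1 : ℝ) = -a + 1 := by ring
  simp only [Pi.sub_apply]
  rw [e1, e2, Real.rpow_add hs', Real.rpow_one]
  ring

theorem tendsto_gam (ha1 : a < 1) : Tendsto (gam a) atTop (𝓝 (gi a)) :=
  intervalIntegral_tendsto_integral_Ioi 0 (gi_int ha1) tendsto_id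

theorem tendsto_RR_atTop (ha0 : 0 < a) (ha1 : a < 1) (n : ℕ) :
    Tendsto (RR a n) atTop (𝓝 (gi a)) := by
  have h2 : Tendsto (fun w : ℝ => w ^ (-a) * sn a n w) atTop (𝓝 0) := by
    have h3 : Tendsto (fun w : ℝ => ∑ j ∈ Finset.range n, (CC a j + CC a (j + 1)) *
        (w ^ (-a) * psi j w)) atTop (𝓝 (∑ j ∈ Finset.range n, (CC a j + CC a (j + 1)) * 0)) :=
      tendsto_finsetSum _ fun j _ => (tendsto_psi_atTop ha0 j).const_mul _
    simp only [mul_zero, Finset.sum_const_zero] at h3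
    refine h3.congr fun w => ?_
    unfold sn
    rw [Finset.mul_sum]
    refine Finset.sum_congr rfl fun j _ => ?_
    ring
  have h := (tendsto_gam ha1).sub h2
  rw [sub_zero] at h
  exact h

/-! ### The two masses -/

theorem rpow_w (hc : 0 < c) (l : ℝ) :
    c ^ a * (c * Real.exp l) ^ (-a) = Real.exp (-(a * l)) := by
  rw [Real.mul_rpow hc.le (Real.exp_pos l).le, ← mul_assoc, ← Real.rpow_add hc, add_neg_cancel,
    Real.rpow_zero, one_mul, ← Real.exp_mul]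
  congr 1; ring

theorem tendsto_w (hc : 0 < c) : Tendsto (fun l : ℝ => c * Real.exp l) atTop atTop :=
  Real.tendsto_exp_atTop.const_mul_atTop hc

theorem hasDerivAt_w (c l : ℝ) : HasDerivAt (fun l : ℝ => c * Real.exp l) (c * Real.exp l) l :=
  (Real.hasDerivAt_exp l).const_mul c

/-- the extraction density with the factor of the scaling -/
theorem kh_eq (a c l : ℝ) : kh a c l = Real.exp (-(a * l)) *
    (c * Real.exp l * (c * Real.exp l - 1) * Real.exp (-(c * Real.exp l))) := by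
  unfold kh kap
  rw [← mul_assoc, ← Real.exp_add]
  congr 2
  ring

theorem kh_nonneg (hc : 1 ≤ c) {l : ℝ} (hl : 0 ≤ l) : 0 ≤ kh a c l := by
  have h1 : 1 ≤ Real.exp l := Real.one_le_exp hl
  have h2 : (1 : ℝ) ≤ c * Real.exp l := by nlinarith
  have h4 : (0 : ℝ) ≤ c * Real.exp l - 1 := by linarith
  rw [kh_eq]
  positivity

theorem hasDerivAt_kh (ha1 : a < 1) (hc : 0 < c) (l : ℝ) :
    HasDerivAt (fun l : ℝ => -(c ^ a * gam a (c * Real.exp l))) (kh a c l) l := by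
  have hw : 0 < c * Real.exp l := by positivity
  have h1 : HasDerivAt (fun l : ℝ => gam a (c * Real.exp l)) _ l :=
    HasDerivAt.comp (h₂ := gam a) l (hasDerivAt_gam ha1 hw) (hasDerivAt_w c l)
  refine ((h1.const_mul (c ^ a)).neg).congr_deriv ?_
  rw [kh_eq, ← rpow_w hc l]
  ring

theorem tendsto_kh (ha1 : a < 1) (hc : 0 < c) :
    Tendsto (fun l : ℝ => -(c ^ a * gam a (c * Real.exp l))) atTop (𝓝 (-(c ^ a * gi a))) :=
  (((tendsto_gam ha1).comp (tendsto_w hc)).const_mul _).neg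

theorem integrableOn_kh (ha1 : a < 1) (hc : 1 ≤ c) : IntegrableOn (kh a c) (Ioi 0) :=
  integrableOn_Ioi_deriv_of_nonneg' (fun l _ => hasDerivAt_kh ha1 (by linarith) l)
    (fun l hl => kh_nonneg hc (le_of_lt hl)) (tendsto_kh ha1 (by linarith))

theorem integral_kh (ha1 : a < 1) (hc : 1 ≤ c) :
    ∫ l in Ioi (0 : ℝ), kh a c l = zz a c - c ^ a * gi a := by
  rw [integral_Ioi_of_hasDerivAt_of_nonneg' (fun l _ => hasDerivAt_kh ha1 (by linarith) l)
    (fun l hl => kh_nonneg hc (le_of_lt hl)) (tendsto_kh ha1 (by linarith))]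
  unfold zz
  rw [Real.exp_zero, mul_one]
  ring

/-- the exit density with the factor of the scaling -/
theorem exit_eq (ha0 : 0 < a) (ha1 : a < 1) (n : ℕ) (l : ℝ) :
    exitD (wt a c) (wt' a c) (rj a) (n + 1) l * Real.exp (-((2 * a - 1) * l)) =
      1 / CC a (n + 1) * (Real.exp (-(a * l)) * XX n (c * Real.exp l)) := by
  change exitD (fun j x => (1 - a) * gw a c j x) (fun j x => (1 - a) * gw' a c j x) (rj a)
    (n + 1) l * _ = _
  rw [exitD_smul, exitD_eq ha0, ← gam_r ha0 ha1 n]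
  have e : Real.exp (-(a * l)) = Real.exp (-((1 - a) * l)) * Real.exp (-((2 * a - 1) * l)) := by
    rw [← Real.exp_add]; congr 1; ring
  rw [e]
  ring

theorem hasDerivAt_exit (ha0 : 0 < a) (ha1 : a < 1) (hc : 0 < c) (n : ℕ) (l : ℝ) :
    HasDerivAt (fun l : ℝ => c ^ a / CC a (n + 1) ^ 2 * RR a (n + 1) (c * Real.exp l))
      (exitD (wt a c) (wt' a c) (rj a) (n + 1) l * Real.exp (-((2 * a - 1) * l))) l := by
  have hw : 0 < c * Real.exp l := by positivity
  have h1 : HasDerivAt (fun l : ℝ => RR a (n + 1) (c * Real.exp l)) _ l :=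
    HasDerivAt.comp (h₂ := RR a (n + 1)) l (hasDerivAt_RR ha1 hw n) (hasDerivAt_w c l)
  refine (h1.const_mul (c ^ a / CC a (n + 1) ^ 2)).congr_deriv ?_
  rw [exit_eq ha0 ha1, ← rpow_w hc l]
  have hC := CC_pos ha0 ha1 (n + 1)
  have e : (c * Real.exp l) ^ (-a) = (c * Real.exp l) ^ (-a - 1) * (c * Real.exp l) := by
    rw [← Real.rpow_add_one hw.ne']
    congr 1; ring
  rw [e]
  field_simp

theorem exit_nonneg (ha0 : 0 < a) (ha1 : a < 1) (hc : 1 ≤ c) {n : ℕ} (hn : 1 ≤ n) {l : ℝ}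
    (hl : 0 ≤ l) : 0 ≤ exitD (wt a c) (wt' a c) (rj a) n l :=
  (chain_wt ha0 ha1 hc hn l hl).exit l ⟨hl, le_rfl⟩

theorem integral_exit (ha0 : 0 < a) (ha1 : a < 1) (hc : 1 ≤ c) {n : ℕ} (hn : 1 ≤ n) :
    IntegrableOn (fun l => exitD (wt a c) (wt' a c) (rj a) n l *
      Real.exp (-((2 * a - 1) * l))) (Ioi 0) ∧
    ∫ l in Ioi (0 : ℝ), exitD (wt a c) (wt' a c) (rj a) n l * Real.exp (-((2 * a - 1) * l)) =
      c ^ a / CC a n ^ 2 * (gi a - RR a n c) := by
  obtain ⟨m, rfl⟩ : ∃ m, n = m + 1 := ⟨n - 1, by omega⟩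
  have hc0 : 0 < c := by linarith
  have h1 := fun l (_ : l ∈ Ici (0 : ℝ)) => hasDerivAt_exit ha0 ha1 hc0 m l
  have h2 : ∀ l ∈ Ioi (0 : ℝ), 0 ≤ exitD (wt a c) (wt' a c) (rj a) (m + 1) l *
      Real.exp (-((2 * a - 1) * l)) := fun l hl =>
    mul_nonneg (exit_nonneg ha0 ha1 hc hn (le_of_lt hl)) (Real.exp_pos _).le
  have h3 : Tendsto (fun l : ℝ => c ^ a / CC a (m + 1) ^ 2 * RR a (m + 1) (c * Real.exp l)) atTop
      (𝓝 (c ^ a / CC a (m + 1) ^ 2 * gi a)) :=
    ((tendsto_RR_atTop ha0 ha1 (m + 1)).comp (tendsto_w hc0)).const_mul _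
  refine ⟨integrableOn_Ioi_deriv_of_nonneg' h1 h2 h3, ?_⟩
  rw [integral_Ioi_of_hasDerivAt_of_nonneg' h1 h2 h3, Real.exp_zero, mul_one]
  ring

/-- the mass of the exit -/
noncomputable def Zn (n : ℕ) (a c : ℝ) : ℝ := c0 n a c + c ^ a / CC a n ^ 2 * (gi a - RR a n c)

theorem exit_mass (ha0 : 0 < a) (ha1 : a < 1) (hc : 1 ≤ c) {n : ℕ} (hn : 1 ≤ n) :
    ENNReal.ofReal (c0 n a c) + ∫⁻ l in Ioi (0 : ℝ),
      ENNReal.ofReal (exitD (wt a c) (wt' a c) (rj a) n l * Real.exp (-((2 * a - 1) * l))) =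
    ENNReal.ofReal (Zn n a c) := by
  obtain ⟨h1, h2⟩ := integral_exit ha0 ha1 hc hn
  have h3 : 0 ≤ᵐ[volume.restrict (Ioi (0 : ℝ))] fun l =>
      exitD (wt a c) (wt' a c) (rj a) n l * Real.exp (-((2 * a - 1) * l)) :=
    (ae_restrict_iff' measurableSet_Ioi).2 (Eventually.of_forall fun l hl =>
      mul_nonneg (exit_nonneg ha0 ha1 hc hn (le_of_lt hl)) (Real.exp_pos _).le)
  have h4 : 0 ≤ ∫ l in Ioi (0 : ℝ), exitD (wt a c) (wt' a c) (rj a) n l *
      Real.exp (-((2 * a - 1) * l)) := integral_nonneg_of_ae h3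
  rw [← ofReal_integral_eq_lintegral_ofReal h1 h3,
    ← ENNReal.ofReal_add (c0_pos ha0 ha1 (by linarith) hn).le h4, h2]
  rfl

theorem Zn_pos (ha0 : 0 < a) (ha1 : a < 1) (hc : 1 ≤ c) {n : ℕ} (hn : 1 ≤ n) :
    0 < Zn n a c := by
  have h1 := exit_mass ha0 ha1 hc hn
  have h2 := c0_pos ha0 ha1 (by linarith : 0 < c) hn
  have h3 : 0 < ENNReal.ofReal (Zn n a c) := by
    rw [← h1]
    exact lt_of_lt_of_le (ENNReal.ofReal_pos.2 h2) le_self_add
  exact ENNReal.ofReal_pos.1 h3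

/-- **mass balance**: `C_n² Z_n = T - H` -/
theorem balance (ha0 : 0 < a) (ha1 : a < 1) (hc : 1 ≤ c) {n : ℕ} (hn : 1 ≤ n) :
    Zn n a c * CC a n ^ 2 = zz a c - ∫ l in Ioi (0 : ℝ), kh a c l := by
  have hc0 : 0 < c := by linarith
  rw [integral_kh ha1 hc]
  obtain ⟨m, rfl⟩ : ∃ m, n = m + 1 := ⟨n - 1, by omega⟩
  have hC := CC_pos ha0 ha1 (m + 1)
  unfold Zn c0
  rw [Nat.add_sub_cancel, Tl_eq]
  unfold RR
  have h1 : c ^ a * (c ^ (-a) * sn a (m + 1) c) = sn a (m + 1) c := by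
    rw [← mul_assoc, ← Real.rpow_add hc0, add_neg_cancel, Real.rpow_zero, one_mul]
  have h2 : zz a c = c ^ a * gam a c := rfl
  field_simp
  rw [h2] at *
  linear_combination h1

end Pool.Agent.Lib.QNL.Bal77
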