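import Pool.Agent.Lib.QNL.CertOf95

/-!
Group N, glue: one exact step at level `0` on top of one pole `W_1 ≤ a Y Lam_1/(1 - be Y)`, in
the variables `F0 = T_0/z`, `mu = lam_1/F0` of the region certificates.
-/

set_option autoImplicit false

namespace Pool.Agent.Lib.QNL.CG

open MeasureTheory Set Filter Topology Finset
open Pool.Agent.Lib.QNL
open Pool.Agent.Lib.QNL.Wts73
open Pool.Agent.Lib.QNL.Ric (Ft wj thj Bj cj Cj cj_pos one_le_cj)
open Pool.Agent.Lib.QNL.Tail35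

/-- `F_0` -/
noncomputable def F0 (a c : ℝ) : ℝ := Tl a c 0 / zz a c

/-- `mu = lam_1 / F_0` -/
noncomputable def muN (n : ℕ) (a c : ℝ) : ℝ :=
  (∑ j ∈ Finset.Ico 1 n, Tl a c j * ((2 * (j : ℝ) + 1) / (((j : ℝ) + a) * ((j : ℝ) + 1 - a)))) /
    Tl a c 0

/-- the numerator `N` -/
noncomputable def NN (a be mu Y : ℝ) : ℝ := 1 - be * Y + mu * (1 - a) * (a - (1 - a) * Y)

/-- the denominator `Q` -/
noncomputable def QQ (a be mu Y : ℝ) : ℝ := (1 - a - a * Y) * (1 - be * Y) - mu * (1 - a) * Y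

/-- `U` -/
noncomputable def UU (f a be mu Y : ℝ) : ℝ := f / a * Y * NN a be mu Y / QQ a be mu Y

/-- `lam = F_0 (1 + mu a (1-a)) / (a (1-a))` -/
noncomputable def lamN (f a mu : ℝ) : ℝ := f * (1 + mu * a * (1 - a)) / (a * (1 - a))

theorem F0_pos {a c : ℝ} (h0 : 0 < a) (h1 : a < 1) (hc : 0 < c) : 0 < F0 a c :=
  div_pos (Tl_pos h0 h1 hc 0) (zz_pos h0 h1 hc)

theorem F0_lt_one {a c : ℝ} (h0 : 0 < a) (h1 : a < 1) (hc : 0 < c) : F0 a c < 1 := by
  unfold F0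
  rw [div_lt_one (zz_pos h0 h1 hc), Tl_zero]
  have : 0 < c * Real.exp (-c) := by positivity
  linarith

theorem muN_nonneg {n : ℕ} {a c : ℝ} (h0 : 0 < a) (h1 : a < 1) (hc : 0 < c) :
    0 ≤ muN n a c := by
  unfold muN
  apply div_nonneg _ (Tl_pos h0 h1 hc 0).le
  refine Finset.sum_nonneg fun j _ => ?_
  have h2 := Tl_pos h0 h1 hc j
  have h3 : (0 : ℝ) ≤ j := Nat.cast_nonneg j
  have h4 : 0 < (j : ℝ) + 1 - a := by linarith
  positivity

theorem Lam_one {n : ℕ} {a c p : ℝ} (h0 : 0 < a) (h1 : a < 1) (hc : 0 < c) :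
    Lam n p a (bs n a c) 1 = (2 - p) * Tl a c 0 * muN n a c := by
  have hT := (Tl_pos h0 h1 hc 0).ne'
  have e : (2 - p) * Tl a c 0 * muN n a c = (2 - p) * ∑ j ∈ Finset.Ico 1 n,
      Tl a c j * ((2 * (j : ℝ) + 1) / (((j : ℝ) + a) * ((j : ℝ) + 1 - a))) := by
    unfold muN
    field_simp
  rw [e, Finset.mul_sum]
  unfold Lam
  refine Finset.sum_congr rfl fun j hj => ?_
  have hjn := (Finset.mem_Ico.1 hj).2
  unfold lam
  rw [wj_bs a c p hjn]
  unfold cj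
  have h3 : (0 : ℝ) ≤ j := Nat.cast_nonneg j
  have h4 : (j : ℝ) + 1 - a ≠ 0 := by
    have : 0 < (j : ℝ) + 1 - a := by linarith
    exact this.ne'
  have h5 : (j : ℝ) + a ≠ 0 := by
    have : 0 < (j : ℝ) + a := by linarith
    exact this.ne'
  have h6 : (2 * (j : ℝ) + 1) ≠ 0 := by positivity
  field_simp
  ring

theorem cj_zero (a : ℝ) : cj a 0 = a / (1 - a) := by
  unfold cj
  simp

theorem wj_zero {n : ℕ} (hn : 1 ≤ n) (a c p : ℝ) :
    wj n p (bs n a c) 0 = (2 - p) * Tl a c 0 := by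
  rw [wj_bs a c p (by omega)]
  simp

/-- the denominator of the exact step -/
theorem den_pole {a be mu W Y : ℝ} (h1 : a < 1) (hW : W ≠ 0) (hY : 1 - be * Y ≠ 0) :
    1 - a / (1 - a) * Y - Y * (W * mu / (1 - be * Y)) / W =
      QQ a be mu Y / ((1 - a) * (1 - be * Y)) := by
  have h2 : (1 - a) ≠ 0 := by
    have : 0 < 1 - a := by linarith
    exact this.ne'
  unfold QQ
  obtain ⟨P, hP⟩ : ∃ P, P = 1 - be * Y := ⟨_, rfl⟩
  rw [← hP] at hY ⊢
  field_simp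

/-- the exact step on top of one pole -/
theorem kst_pole {a be mu W Y : ℝ} (h0 : 0 < a) (h1 : a < 1) (hW : W ≠ 0) (hY : 1 - be * Y ≠ 0)
    (hQ : QQ a be mu Y ≠ 0) :
    kst W (a / (1 - a)) Y (W * mu / (1 - be * Y)) = W * NN a be mu Y / (a * QQ a be mu Y) := by
  have h2 : (1 - a) ≠ 0 := by
    have : 0 < 1 - a := by linarith
    exact this.ne'
  unfold kst
  rw [den_pole h1 hW hY]
  unfold NN
  obtain ⟨P, hP⟩ : ∃ P, P = 1 - be * Y := ⟨_, rfl⟩
  obtain ⟨R, hR⟩ : ∃ R, R = QQ a be mu Y := ⟨_, rfl⟩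
  rw [← hP] at hY ⊢
  rw [← hR] at hQ ⊢
  field_simp
  ring

/-- the value of the step, normalised -/
theorem val_pole {n : ℕ} {p a c be Y : ℝ} (hn : 1 ≤ n) (hp : p = 1 / a) (h0 : 1 / 2 < a)
    (h1 : a < 1) (hc : 0 < c) (hY : 1 - be * Y ≠ 0) (hQ : QQ a be (muN n a c) Y ≠ 0) :
    a * Y * kst (wj n p (bs n a c) 0) (cj a 0) Y (Lam n p a (bs n a c) 1 / (1 - be * Y)) /
      zz a c = (2 * a - 1) * UU (F0 a c) a be (muN n a c) Y := by
  have ha : 0 < a := by linarith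
  have hT := zz_pos ha h1 hc
  have hT0 := Tl_pos ha h1 hc 0
  have hp2 : (2 - p) = (2 * a - 1) / a := by rw [hp]; field_simp
  have hW : (2 - p) * Tl a c 0 ≠ 0 := by
    rw [hp2]
    have : 0 < 2 * a - 1 := by linarith
    positivity
  rw [Lam_one ha h1 hc, wj_zero hn, cj_zero, kst_pole ha h1 hW hY hQ]
  unfold UU F0
  rw [hp2]
  field_simp

/-- **`CertG` from one pole**, in the variables of the region certificates. -/
theorem certG_pole {n : ℕ} {p a c w Ym K e be : ℝ} {k1 : ℝ → ℝ} (hn : 1 ≤ n) (hp : p = 1 / a)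
    (h0 : 1 / 2 < a) (h1 : a < 1) (hc : 1 ≤ c) (hw0 : 0 < w) (hr : a ≤ 1 - w)
    (hYm : w / (1 - w) < Ym)
    (ht : Tail1 n p a (bs n a c) Ym (fun Y => Lam n p a (bs n a c) 1 / (1 - be * Y)))
    (hbe : ∀ Y ∈ Icc (-1 : ℝ) Ym, 0 < 1 - be * Y)
    (hQ : ∀ Y ∈ Icc (-1 : ℝ) Ym, 0 < QQ a be (muN n a c) Y)
    (hk0 : ∀ l, 0 < l → 0 ≤ k1 l) (hk1 : ∀ l, 0 < l → k1 l ≤ kh a c l)
    (hk2 : AntitoneOn k1 (Ioi 0)) (hK : ∫ l in Ioi (0 : ℝ), k1 l = K * zz a c)
    (he : 2 * ∫ l in Ioi (0 : ℝ), k1 l * (Real.exp (w / (1 - w) * l / 2) - 1) = e * zz a c)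
    (hTOP : ∀ x Y : ℝ, 0 ≤ x → w * x ^ ((1 - w) / a) ≤ 1 →
      Y = w / (1 - w) * (1 - x ^ ((1 - w) / a)) →
      x ^ 2 * (1 - K + (2 * a - 1) * e + (2 * a - 1) * UU (F0 a c) a be (muN n a c) Y) +
        (1 - K) * ((2 * a - 1) - 2 * a * x ^ p) - (2 * a - 1) * e -
        ((2 * a - 1) / a * lamN (F0 a c) a (muN n a c) - 2 * ((2 * a - 1) * e) / w) * (a * Y) ≤
        0) :
    ∃ Lam V, CertG n p c ((1 - w) / a) (a * (1 + Ym)) Lam V k1 := by
  have ha : 0 < a := by linarith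
  have hw1 : 0 < 1 - w := by linarith
  have hc0 : 0 < c := by linarith
  have hp2 : (2 - p) = (2 * a - 1) / a := by rw [hp]; field_simp
  have hW : (2 - p) * Tl a c 0 ≠ 0 := by
    rw [hp2]
    have : 0 < 2 * a - 1 := by linarith
    have := Tl_pos ha h1 hc0 0
    positivity
  have hkk : 0 < w / (1 - w) := by positivity
  have hmu := muN_nonneg (n := n) ha h1 hc0
  refine ⟨_, _, certG_of (K := K) (e := e)
    (L := (2 * a - 1) / a * lamN (F0 a c) a (muN n a c)) hn hp h0 h1 hc hw0 hr hYm ht ?_ ?_ hk0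
    hk1 hk2 hK he ?_ ?_⟩
  · intro Y hY
    have h2 := hbe Y hY
    have h3 := hQ Y hY
    have h4 : 0 < 1 - a := by linarith
    rw [Lam_one ha h1 hc0, wj_zero hn, cj_zero, den_pole h1 hW h2.ne']
    positivity
  · refine continuousOn_const.div ?_ fun Y hY => (hbe Y hY).ne'
    fun_prop
  · have h2 := F0_pos ha h1 hc0
    have h4 : 0 < 1 - a := by linarith
    have h5 : 0 < 2 * a - 1 := by linarith
    unfold lamN
    positivity
  · intro x Y hx hwx hY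
    have hmem : Y ∈ Icc (-1 : ℝ) Ym := by
      have h3 : 0 ≤ x ^ ((1 - w) / a) := Real.rpow_nonneg hx _
      constructor
      · have h4 : w / (1 - w) * (1 - x ^ ((1 - w) / a)) + 1 =
            (1 - w * x ^ ((1 - w) / a)) / (1 - w) := by field_simp; ring
        have h5 : 0 ≤ (1 - w * x ^ ((1 - w) / a)) / (1 - w) :=
          div_nonneg (by linarith) hw1.le
        rw [hY]
        linarith
      · rw [hY]
        nlinarith
    have h2 := hbe Y hmem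
    have h3 := hQ Y hmem
    rw [val_pole hn hp h0 h1 hc0 h2.ne' h3.ne']
    exact hTOP x Y hx hwx hY

end Pool.Agent.Lib.QNL.CG
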