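import Mathlib

/-!
# Kernel-checked positivity of polynomials in at most three real variables on boxes

`Ex` : polynomial expressions with rational constants in three variables `X, Y, Z`.
`check e bx by bz n t = true` (by `decide +kernel`) implies `0 ≤ e.ev x y z` on the box.
Method: normal form over `ℤ` with a common denominator, split into two polynomials with
coefficients in `ℕ`, projective charts `[0, ∞)`, Taylor shifts and reversals
(Vincent / Bernstein), guided by a certificate tree `T`.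
-/

namespace Pool.Agent.Lib.QNL.PolyPos

section ops

variable {α β : Type}

/-- addition of lists -/
def addL (add : α → α → α) (l : List α) : List α → List α :=
  @List.rec α (fun _ => List α → List α) (fun m => m)
    (fun a l' ih m => @List.rec α (fun _ => List α) (a :: l')
      (fun b m' _ => add a b :: ih m') m) l

theorem addL_nil (add : α → α → α) (m : List α) : addL add [] m = m := rfl
theorem addL_cons_nil (add : α → α → α) (a : α) (l : List α) :
    addL add (a :: l) [] = a :: l := rfl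
theorem addL_cons_cons (add : α → α → α) (a b : α) (l m : List α) :
    addL add (a :: l) (b :: m) = add a b :: addL add l m := rfl

/-- `[c, q0, q1, ...] + [q0, q1, ...]` -/
def addSh (add : α → α → α) (c : α) (q : List α) : List α :=
  @List.rec α (fun _ => α → List α) (fun c => [c]) (fun q _ ih c => add c q :: ih q) q c

theorem addSh_nil (add : α → α → α) (c : α) : addSh add c [] = [c] := rfl
theorem addSh_cons (add : α → α → α) (c q : α) (l : List α) :
    addSh add c (q :: l) = add c q :: addSh add q l := rfl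

/-- Taylor shift by one -/
def shift (add : α → α → α) (l : List α) : List α :=
  @List.rec α (fun _ => List α) [] (fun c _ ih => addSh add c ih) l

theorem shift_nil (add : α → α → α) : shift add [] = [] := rfl
theorem shift_cons (add : α → α → α) (c : α) (l : List α) :
    shift add (c :: l) = addSh add c (shift add l) := rfl

/-- reverse the first `n + 1` coefficients of `l` (padded by `zero`) onto `acc` -/
def revG (zero : α) (n : ℕ) (l acc : List α) : List α :=
  @Nat.rec (fun _ => List α → List α → List α)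
    (fun l acc => @List.rec α (fun _ => List α) (zero :: acc) (fun a _ _ => a :: acc) l)
    (fun _ ih l acc => @List.rec α (fun _ => List α) (ih [] (zero :: acc))
      (fun a l' _ => ih l' (a :: acc)) l) n l acc

theorem revG_zero_nil (z : α) (acc : List α) : revG z 0 [] acc = z :: acc := rfl
theorem revG_zero_cons (z a : α) (l acc : List α) : revG z 0 (a :: l) acc = a :: acc := rfl
theorem revG_succ_nil (z : α) (n : ℕ) (acc : List α) :
    revG z (n + 1) [] acc = revG z n [] (z :: acc) := rfl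
theorem revG_succ_cons (z a : α) (n : ℕ) (l acc : List α) :
    revG z (n + 1) (a :: l) acc = revG z n l (a :: acc) := rfl

/-- reversal -/
def revN (zero : α) (n : ℕ) (l : List α) : List α := revG zero n l []

/-- map -/
def mapR (f : α → β) (l : List α) : List β :=
  @List.rec α (fun _ => List β) [] (fun a _ ih => f a :: ih) l

theorem mapR_nil (f : α → β) : mapR f [] = [] := rfl
theorem mapR_cons (f : α → β) (a : α) (l : List α) : mapR f (a :: l) = f a :: mapR f l := rfl

/-- multiplication of lists -/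
def mulL (add mul : α → α → α) (zero : α) (l m : List α) : List α :=
  @List.rec α (fun _ => List α) [] (fun a _ ih => addL add (mapR (mul a) m) (zero :: ih)) l

theorem mulL_nil (add mul : α → α → α) (zero : α) (m : List α) :
    mulL add mul zero [] m = [] := rfl
theorem mulL_cons (add mul : α → α → α) (zero a : α) (l m : List α) :
    mulL add mul zero (a :: l) m = addL add (mapR (mul a) m) (zero :: mulL add mul zero l m) :=
  rfl

/-- boolean conjunction, lazy in the second argument -/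
def andR (a b : Bool) : Bool := @Bool.rec (fun _ => Bool) false b a

theorem andR_eq {a b : Bool} (h : andR a b = true) : a = true ∧ b = true := by
  cases a
  · exact absurd h (by simp [andR])
  · exact ⟨rfl, h⟩

/-- all entries satisfy a test -/
def allR (f : α → Bool) (l : List α) : Bool :=
  @List.rec α (fun _ => Bool) true (fun a _ ih => andR (f a) ih) l

theorem allR_nil (f : α → Bool) : allR f [] = true := rfl
theorem allR_cons (f : α → Bool) (a : α) (l : List α) :
    allR f (a :: l) = andR (f a) (allR f l) := rfl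

/-- coefficientwise comparison -/
def leL (le : α → α → Bool) (isz : α → Bool) (l m : List α) : Bool :=
  @List.rec α (fun _ => List α → Bool) (fun _ => true)
    (fun a _ ih m => @List.rec α (fun _ => Bool) (andR (isz a) (ih []))
      (fun b m' _ => andR (le a b) (ih m')) m) l m

theorem leL_nil (le : α → α → Bool) (isz : α → Bool) (m : List α) : leL le isz [] m = true := rfl
theorem leL_cons_nil (le : α → α → Bool) (isz : α → Bool) (a : α) (l : List α) :
    leL le isz (a :: l) [] = andR (isz a) (leL le isz l []) := rfl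
theorem leL_cons_cons (le : α → α → Bool) (isz : α → Bool) (a b : α) (l m : List α) :
    leL le isz (a :: l) (b :: m) = andR (le a b) (leL le isz l m) := rfl

/-- length at most `n + 1` -/
def lenR (n : ℕ) (l : List α) : Bool := Nat.ble l.length (n + 1)

end ops

section evaluation

variable {α β : Type}

/-- plain evaluation -/
noncomputable def evL (ev : α → ℝ) (x : ℝ) : List α → ℝ
  | [] => 0
  | a :: l => ev a + x * evL ev x l

/-- homogeneous evaluation -/
noncomputable def hev (ev : α → ℝ) (u v : ℝ) : ℕ → List α → ℝ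
  | _, [] => 0
  | n, a :: l => ev a * u ^ n + v * hev ev u v (n - 1) l

variable {ev : α → ℝ} {ev' : β → ℝ} {add mul : α → α → α} {zero : α} {x u v : ℝ}

theorem evL_addL (h : ∀ a b, ev (add a b) = ev a + ev b) (l m : List α) :
    evL ev x (addL add l m) = evL ev x l + evL ev x m := by
  induction l generalizing m with
  | nil => simp [addL_nil, evL]
  | cons a l ih =>
    cases m with
    | nil => simp [addL_cons_nil, evL]
    | cons b m => rw [addL_cons_cons, evL, evL, evL, h, ih]; ring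

theorem evL_mapR (f : α → β) (c : ℝ) (h : ∀ a, ev' (f a) = c * ev a) (l : List α) :
    evL ev' x (mapR f l) = c * evL ev x l := by
  induction l with
  | nil => simp [mapR_nil, evL]
  | cons a l ih => rw [mapR_cons, evL, evL, h, ih]; ring

theorem evL_mulL (h : ∀ a b, ev (add a b) = ev a + ev b)
    (hm : ∀ a b, ev (mul a b) = ev a * ev b) (hz : ev zero = 0) (l m : List α) :
    evL ev x (mulL add mul zero l m) = evL ev x l * evL ev x m := by
  induction l with
  | nil => simp [mulL_nil, evL]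
  | cons a l ih =>
    rw [mulL_cons, evL_addL h, evL, evL, hz, ih, evL_mapR (mul a) (ev a) (fun b => hm a b)]
    ring

theorem hev_one (n : ℕ) (l : List α) : hev ev 1 v n l = evL ev v l := by
  induction l generalizing n with
  | nil => simp [hev, evL]
  | cons a l ih => rw [hev, evL, ih]; simp

theorem hev_addL (h : ∀ a b, ev (add a b) = ev a + ev b) (n : ℕ) (l m : List α) :
    hev ev u v n (addL add l m) = hev ev u v n l + hev ev u v n m := by
  induction l generalizing m n with
  | nil => simp [addL_nil, hev]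
  | cons a l ih =>
    cases m with
    | nil => simp [addL_cons_nil, hev]
    | cons b m => rw [addL_cons_cons, hev, hev, hev, h, ih]; ring

theorem hev_addSh (h : ∀ a b, ev (add a b) = ev a + ev b) (n : ℕ) (c : α) (q : List α)
    (hq : q.length ≤ n) :
    hev ev u v n (addSh add c q) = ev c * u ^ n + (u + v) * hev ev u v (n - 1) q := by
  induction q generalizing c n with
  | nil => simp [addSh_nil, hev]
  | cons a l ih =>
    obtain ⟨k, rfl⟩ : ∃ k, n = k + 1 := ⟨n - 1, by simp at hq; omega⟩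
    rw [addSh_cons, hev, hev, h, Nat.add_sub_cancel, ih _ _ (by simpa using hq)]
    ring

theorem length_addSh (c : α) (q : List α) : (addSh add c q).length = q.length + 1 := by
  induction q generalizing c with
  | nil => rfl
  | cons a l ih => rw [addSh_cons, List.length_cons, ih, List.length_cons]

theorem length_shift (l : List α) : (shift add l).length = l.length := by
  induction l with
  | nil => rfl
  | cons a l ih => rw [shift_cons, length_addSh, ih, List.length_cons]

theorem hev_shift (h : ∀ a b, ev (add a b) = ev a + ev b) (n : ℕ) (l : List α)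
    (hl : l.length ≤ n + 1) : hev ev u v n (shift add l) = hev ev u (u + v) n l := by
  induction l generalizing n with
  | nil => simp [shift_nil, hev]
  | cons a l ih =>
    have hl' : l.length ≤ n := by simpa using hl
    rw [shift_cons, hev_addSh h _ _ _ (by rw [length_shift]; exact hl'), hev]
    rcases Nat.eq_zero_or_pos n with h0 | h0
    · subst h0
      have : l = [] := List.length_eq_zero_iff.mp (by omega)
      subst this
      simp [shift_nil, hev]
    · rw [ih (n - 1) (by omega)]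

theorem revG_eq (z : α) (n : ℕ) (l acc : List α) : revG z n l acc = revG z n l [] ++ acc := by
  induction n generalizing l acc with
  | zero => cases l <;> rfl
  | succ n ih =>
    cases l with
    | nil => rw [revG_succ_nil, ih, revG_succ_nil, ih [] [z]]; simp
    | cons a l => rw [revG_succ_cons, ih, revG_succ_cons, ih l [a]]; simp

theorem length_revG (z : α) (n : ℕ) (l acc : List α) :
    (revG z n l acc).length = n + 1 + acc.length := by
  induction n generalizing l acc with
  | zero => cases l <;> simp [revG_zero_nil, revG_zero_cons, add_comm]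
  | succ n ih =>
    cases l with
    | nil => rw [revG_succ_nil, ih, List.length_cons]; ring
    | cons a l => rw [revG_succ_cons, ih, List.length_cons]; ring

theorem length_revN (z : α) (n : ℕ) (l : List α) : (revN z n l).length = n + 1 := by
  unfold revN; rw [length_revG]; simp

theorem hev_append (n : ℕ) (l : List α) (a : α) (hl : l.length = n + 1) :
    hev ev u v (n + 1) (l ++ [a]) = u * hev ev u v n l + ev a * v ^ (n + 1) := by
  induction n generalizing l with
  | zero =>
    obtain ⟨b, rfl⟩ := List.length_eq_one_iff.mp hl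
    simp [hev]; ring
  | succ n ih =>
    cases l with
    | nil => simp at hl
    | cons b l =>
      rw [List.cons_append, hev, hev, Nat.add_sub_cancel, Nat.add_sub_cancel,
        ih l (by simpa using hl)]
      ring

theorem hev_revN (hz : ev zero = 0) (n : ℕ) (l : List α) (hl : l.length ≤ n + 1) :
    hev ev u v n (revN zero n l) = hev ev v u n l := by
  unfold revN
  induction n generalizing l with
  | zero =>
    cases l with
    | nil => simp [revG_zero_nil, hev, hz]
    | cons a l =>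
      have : l = [] := by simpa using hl
      subst this
      simp [revG_zero_cons, hev]
  | succ n ih =>
    cases l with
    | nil =>
      rw [revG_succ_nil, revG_eq, hev_append _ _ _ (by rw [length_revG]; simp), ih [] (by simp), hz]
      simp [hev]
    | cons a l =>
      rw [revG_succ_cons, revG_eq, hev_append _ _ _ (by rw [length_revG]; simp),
        ih l (by simpa using hl), hev, Nat.add_sub_cancel]
      ring

theorem hev_mapR (f : α → β) (n : ℕ) (l : List α) (h : ∀ a ∈ l, ev' (f a) = ev a) :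
    hev ev' u v n (mapR f l) = hev ev u v n l := by
  induction l generalizing n with
  | nil => simp [mapR_nil, hev]
  | cons a l ih =>
    rw [mapR_cons, hev, hev, h a (by simp), ih _ (fun b hb => h b (by simp [hb]))]

theorem length_mapR (f : α → β) (l : List α) : (mapR f l).length = l.length := by
  induction l with
  | nil => rfl
  | cons a l ih => rw [mapR_cons, List.length_cons, ih, List.length_cons]

theorem hev_nonneg (h0 : ∀ a, 0 ≤ ev a) (hu : 0 ≤ u) (hv : 0 ≤ v) (n : ℕ) (l : List α) :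
    0 ≤ hev ev u v n l := by
  induction l generalizing n with
  | nil => simp [hev]
  | cons a l ih =>
    rw [hev]
    have := ih (n - 1)
    have := h0 a
    positivity

theorem hev_le {le : α → α → Bool} {isz : α → Bool} (h0 : ∀ a, 0 ≤ ev a)
    (hle : ∀ a b, le a b = true → ev a ≤ ev b) (hz : ∀ a, isz a = true → ev a = 0)
    (hu : 0 ≤ u) (hv : 0 ≤ v) (n : ℕ) (l m : List α) (h : leL le isz l m = true) :
    hev ev u v n l ≤ hev ev u v n m := by
  induction l generalizing n m with
  | nil => simpa [hev] using hev_nonneg h0 hu hv n m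
  | cons a l ih =>
    cases m with
    | nil =>
      rw [leL_cons_nil] at h
      obtain ⟨h1, h2⟩ := andR_eq h
      have h3 := ih (n - 1) [] h2
      simp only [hev] at h3 ⊢
      rw [hz a h1]
      nlinarith
    | cons b m =>
      rw [leL_cons_cons] at h
      obtain ⟨h1, h2⟩ := andR_eq h
      have h3 := ih (n - 1) m h2
      rw [hev, hev]
      have h4 := hle a b h1
      have h5 : 0 ≤ u ^ n := by positivity
      nlinarith [mul_le_mul_of_nonneg_right h4 h5, mul_le_mul_of_nonneg_left h3 hv]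

/-- invariants -/
theorem mem_addSh {ok : α → Prop} (ha : ∀ a b, ok a → ok b → ok (add a b)) (c : α) (q : List α)
    (hc : ok c) (hq : ∀ a ∈ q, ok a) : ∀ a ∈ addSh add c q, ok a := by
  induction q generalizing c with
  | nil => intro a h; rw [addSh_nil] at h; simp at h; subst h; exact hc
  | cons b l ih =>
    intro a h
    rw [addSh_cons] at h
    rcases List.mem_cons.mp h with h | h
    · rw [h]; exact ha _ _ hc (hq b (by simp))
    · exact ih b (hq b (by simp)) (fun a ha' => hq a (by simp [ha'])) a h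

theorem mem_shift {ok : α → Prop} (ha : ∀ a b, ok a → ok b → ok (add a b)) (l : List α)
    (hl : ∀ a ∈ l, ok a) : ∀ a ∈ shift add l, ok a := by
  induction l with
  | nil => intro a h; rw [shift_nil] at h; simp at h
  | cons b l ih =>
    rw [shift_cons]
    exact mem_addSh ha _ _ (hl b (by simp)) (ih (fun a ha' => hl a (by simp [ha'])))

theorem mem_revG {ok : α → Prop} {z : α} (hz : ok z) (n : ℕ) (l acc : List α)
    (hl : ∀ a ∈ l, ok a) (hacc : ∀ a ∈ acc, ok a) : ∀ a ∈ revG z n l acc, ok a := by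
  induction n generalizing l acc with
  | zero =>
    cases l with
    | nil =>
      intro a h; rw [revG_zero_nil] at h
      rcases List.mem_cons.mp h with h | h
      · rw [h]; exact hz
      · exact hacc a h
    | cons b l =>
      intro a h; rw [revG_zero_cons] at h
      rcases List.mem_cons.mp h with h | h
      · rw [h]; exact hl b (by simp)
      · exact hacc a h
  | succ n ih =>
    cases l with
    | nil =>
      rw [revG_succ_nil]
      refine ih [] (z :: acc) (by simp) ?_
      intro a h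
      rcases List.mem_cons.mp h with h | h
      · rw [h]; exact hz
      · exact hacc a h
    | cons b l =>
      rw [revG_succ_cons]
      refine ih l (b :: acc) (fun a ha => hl a (by simp [ha])) ?_
      intro a h
      rcases List.mem_cons.mp h with h | h
      · rw [h]; exact hl b (by simp)
      · exact hacc a h

theorem mem_revN {ok : α → Prop} {z : α} (hz : ok z) (n : ℕ) (l : List α)
    (hl : ∀ a ∈ l, ok a) : ∀ a ∈ revN z n l, ok a :=
  mem_revG hz n l [] hl (by simp)

theorem mem_mapR {ok : β → Prop} (f : α → β) (l : List α) (h : ∀ a ∈ l, ok (f a)) :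
    ∀ a ∈ mapR f l, ok a := by
  induction l with
  | nil => intro a h; rw [mapR_nil] at h; simp at h
  | cons b l ih =>
    intro a ha
    rw [mapR_cons] at ha
    rcases List.mem_cons.mp ha with ha | ha
    · rw [ha]; exact h b (by simp)
    · exact ih (fun a ha' => h a (by simp [ha'])) a ha

theorem allR_mem {f : α → Bool} {l : List α} (h : allR f l = true) : ∀ a ∈ l, f a = true := by
  induction l with
  | nil => simp
  | cons b l ih =>
    rw [allR_cons] at h
    obtain ⟨h1, h2⟩ := andR_eq h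
    intro a ha
    rcases List.mem_cons.mp ha with ha | ha
    · rw [ha]; exact h1
    · exact ih h2 a ha

theorem length_addL (l m : List α) : (addL add l m).length = max l.length m.length := by
  induction l generalizing m with
  | nil => simp [addL_nil]
  | cons a l ih =>
    cases m with
    | nil => simp [addL_cons_nil]
    | cons b m => rw [addL_cons_cons, List.length_cons, ih]; simp

theorem mem_addL {ok : α → Prop} (ha : ∀ a b, ok a → ok b → ok (add a b)) (l m : List α)
    (hl : ∀ a ∈ l, ok a) (hm : ∀ a ∈ m, ok a) : ∀ a ∈ addL add l m, ok a := by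
  induction l generalizing m with
  | nil => simpa [addL_nil] using hm
  | cons b l ih =>
    cases m with
    | nil => simpa [addL_cons_nil] using hl
    | cons c m =>
      intro a h
      rw [addL_cons_cons] at h
      rcases List.mem_cons.mp h with h | h
      · rw [h]; exact ha _ _ (hl b (by simp)) (hm c (by simp))
      · exact ih m (fun a ha' => hl a (by simp [ha'])) (fun a ha' => hm a (by simp [ha'])) a h

end evaluation

/-! ### polynomials in three variables, coefficients in `ℤ` -/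

section int3

/-- integer polynomials in `z` -/
abbrev I1 := List ℤ
/-- integer polynomials in `y, z` -/
abbrev I2 := List (List ℤ)
/-- integer polynomials in `x, y, z` -/
abbrev I3 := List (List (List ℤ))

/-- addition -/
def add1 : I1 → I1 → I1 := addL Int.add
/-- addition -/
def add2 : I2 → I2 → I2 := addL add1
/-- addition -/
def add3 : I3 → I3 → I3 := addL add2
/-- multiplication -/
def mul1 : I1 → I1 → I1 := mulL Int.add Int.mul 0
/-- multiplication -/
def mul2 : I2 → I2 → I2 := mulL add1 mul1 []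
/-- multiplication -/
def mul3 : I3 → I3 → I3 := mulL add2 mul2 []
/-- scalar multiplication -/
def smul3 (c : ℤ) : I3 → I3 := mapR (mapR (mapR (Int.mul c)))

/-- evaluation of integer polynomials -/
noncomputable def evI (x y z : ℝ) : I3 → ℝ :=
  evL (evL (evL (fun n : ℤ => (n : ℝ)) z) y) x

variable {x y z : ℝ}

theorem evI_add (p q : I3) : evI x y z (add3 p q) = evI x y z p + evI x y z q :=
  evL_addL (evL_addL (evL_addL (fun a b => Int.cast_add a b))) p q

theorem evI_mul (p q : I3) : evI x y z (mul3 p q) = evI x y z p * evI x y z q := by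
  have h1 : ∀ a b : I1, evL (fun n : ℤ => (n : ℝ)) z (add1 a b)
      = evL (fun n : ℤ => (n : ℝ)) z a + evL (fun n : ℤ => (n : ℝ)) z b :=
    evL_addL (fun a b => Int.cast_add a b)
  have m1 : ∀ a b : I1, evL (fun n : ℤ => (n : ℝ)) z (mul1 a b)
      = evL (fun n : ℤ => (n : ℝ)) z a * evL (fun n : ℤ => (n : ℝ)) z b :=
    evL_mulL (fun a b => Int.cast_add a b) (fun a b => Int.cast_mul a b) Int.cast_zero
  exact evL_mulL (evL_addL h1) (evL_mulL h1 m1 rfl) rfl p q

theorem evI_smul (c : ℤ) (p : I3) : evI x y z (smul3 c p) = c * evI x y z p :=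
  evL_mapR _ _ (evL_mapR _ _ (evL_mapR _ _ (fun a => Int.cast_mul c a))) p

end int3

/-! ### expressions -/

/-- polynomial expressions with rational constants -/
inductive Ex
  /-- the constant `n / d` -/
  | q (n : ℤ) (d : ℕ)
  /-- first variable -/
  | x
  /-- second variable -/
  | y
  /-- third variable -/
  | z
  /-- sum -/
  | add (a b : Ex)
  /-- difference -/
  | sub (a b : Ex)
  /-- product -/
  | mul (a b : Ex)
  /-- power -/
  | pow (a : Ex) (n : ℕ)

namespace Ex

instance : Add Ex := ⟨Ex.add⟩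
instance : Sub Ex := ⟨Ex.sub⟩
instance : Mul Ex := ⟨Ex.mul⟩
instance : Neg Ex := ⟨fun a => Ex.sub (Ex.q 0 1) a⟩
instance : Pow Ex ℕ := ⟨Ex.pow⟩
instance (n : ℕ) : OfNat Ex n := ⟨Ex.q n 1⟩

/-- value of an expression -/
noncomputable def ev (X Y Z : ℝ) : Ex → ℝ
  | q n d => (n : ℝ) / (d : ℝ)
  | x => X
  | y => Y
  | z => Z
  | add a b => ev X Y Z a + ev X Y Z b
  | sub a b => ev X Y Z a - ev X Y Z b
  | mul a b => ev X Y Z a * ev X Y Z b
  | pow a n => ev X Y Z a ^ n

variable (X Y Z : ℝ)

@[simp] theorem ev_q (n : ℤ) (d : ℕ) : ev X Y Z (q n d) = (n : ℝ) / (d : ℝ) := rfl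
@[simp] theorem ev_x : ev X Y Z x = X := rfl
@[simp] theorem ev_y : ev X Y Z y = Y := rfl
@[simp] theorem ev_z : ev X Y Z z = Z := rfl
@[simp] theorem ev_add (a b : Ex) : ev X Y Z (a + b) = ev X Y Z a + ev X Y Z b := rfl
@[simp] theorem ev_sub (a b : Ex) : ev X Y Z (a - b) = ev X Y Z a - ev X Y Z b := rfl
@[simp] theorem ev_mul (a b : Ex) : ev X Y Z (a * b) = ev X Y Z a * ev X Y Z b := rfl
@[simp] theorem ev_pow (a : Ex) (n : ℕ) : ev X Y Z (a ^ n) = ev X Y Z a ^ n := rfl
@[simp] theorem ev_neg (a : Ex) : ev X Y Z (-a) = - ev X Y Z a := by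
  show (((0 : ℤ) : ℝ) / ((1 : ℕ) : ℝ)) - ev X Y Z a = _
  simp
@[simp] theorem ev_zero : ev X Y Z (0 : Ex) = 0 := by
  show (((0 : ℤ) : ℝ) / ((1 : ℕ) : ℝ)) = _
  simp
@[simp] theorem ev_one : ev X Y Z (1 : Ex) = 1 := by
  show (((1 : ℤ) : ℝ) / ((1 : ℕ) : ℝ)) = _
  simp
@[simp] theorem ev_ofNat (n : ℕ) [n.AtLeastTwo] :
    ev X Y Z (OfNat.ofNat n : Ex) = (OfNat.ofNat n : ℝ) := by
  show (((n : ℤ) : ℝ) / ((1 : ℕ) : ℝ)) = _
  simp only [Int.cast_natCast, Nat.cast_one, div_one]
  rfl

end Ex

/-- a side of the box: `x = (L + W t)/D`, `t ∈ [0, 1]` if `bdd`, `t ∈ [0, ∞)` otherwise -/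
structure Side where
  /-- `L / D` is the left end -/
  L : ℤ
  /-- `W / D` is the width (or the unit, if unbounded) -/
  W : ℕ
  /-- common denominator -/
  D : ℕ
  /-- bounded side? -/
  bdd : Bool

/-- membership -/
def Side.mem (s : Side) (x : ℝ) : Prop :=
  (s.L : ℝ) ≤ s.D * x ∧ (s.bdd = true → (s.D : ℝ) * x ≤ s.L + s.W)

/-- polynomial with common denominator -/
abbrev Q3 := ℕ × I3

/-- value -/
noncomputable def evQ (x y z : ℝ) (p : Q3) : ℝ := evI x y z p.2 / p.1

/-- addition -/
def addQ (p q : Q3) : Q3 :=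
  bif Nat.beq p.1 q.1 then (p.1, add3 p.2 q.2)
  else (Nat.mul (Nat.div p.1 (Nat.gcd p.1 q.1)) q.1,
    add3 (smul3 (Nat.div q.1 (Nat.gcd p.1 q.1)) p.2) (smul3 (Nat.div p.1 (Nat.gcd p.1 q.1)) q.2))

/-- negation -/
def negQ (p : Q3) : Q3 := (p.1, smul3 (-1) p.2)

/-- multiplication -/
def mulQ (p q : Q3) : Q3 := (Nat.mul p.1 q.1, mul3 p.2 q.2)

/-- power -/
def powQ (p : Q3) (n : ℕ) : Q3 :=
  @Nat.rec (fun _ => Q3) (1, [[[1]]]) (fun _ ih => mulQ p ih) n

/-- normal form of an expression after the substitution `x = (L + W t)/D` etc. -/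
def toQ (a b c : Side) : Ex → Q3
  | .q _ 0 => (1, [])
  | .q n (d + 1) => (d + 1, [[[n]]])
  | .x => (a.D, [[[a.L]], [[a.W]]])
  | .y => (b.D, [[[b.L], [b.W]]])
  | .z => (c.D, [[[c.L, c.W]]])
  | .add e f => addQ (toQ a b c e) (toQ a b c f)
  | .sub e f => addQ (toQ a b c e) (negQ (toQ a b c f))
  | .mul e f => mulQ (toQ a b c e) (toQ a b c f)
  | .pow e n => powQ (toQ a b c e) n

section soundQ

variable {x y z : ℝ}

theorem addQ_spec (p q : Q3) (hp : 0 < p.1) (hq : 0 < q.1) :
    0 < (addQ p q).1 ∧ evQ x y z (addQ p q) = evQ x y z p + evQ x y z q := by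
  obtain ⟨D, p⟩ := p
  obtain ⟨E, q⟩ := q
  simp only at hp hq
  unfold addQ
  by_cases h : D = E
  · subst h
    have : Nat.beq D D = true := Nat.beq_refl D
    simp only [this, cond_true]
    refine ⟨hp, ?_⟩
    simp only [evQ, evI_add, add_div]
  · have : Nat.beq D E = false := by
      cases hb : Nat.beq D E
      · rfl
      · exact absurd (Nat.eq_of_beq_eq_true hb) h
    simp only [this, cond_false]
    set g := Nat.gcd D E with hg
    have hg0 : 0 < g := Nat.gcd_pos_of_pos_left _ hp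
    obtain ⟨d, hd⟩ : g ∣ D := Nat.gcd_dvd_left _ _
    obtain ⟨e, he⟩ : g ∣ E := Nat.gcd_dvd_right _ _
    have hDg : Nat.div D g = d := by
      show D / g = d
      rw [hd]; exact Nat.mul_div_cancel_left _ hg0
    have hEg : Nat.div E g = e := by
      show E / g = e
      rw [he]; exact Nat.mul_div_cancel_left _ hg0
    rw [hDg, hEg]
    have hd0 : 0 < d := by
      rcases Nat.eq_zero_or_pos d with h0 | h0
      · rw [h0, Nat.mul_zero] at hd; omega
      · exact h0
    have he0 : 0 < e := by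
      rcases Nat.eq_zero_or_pos e with h0 | h0
      · rw [h0, Nat.mul_zero] at he; omega
      · exact h0
    refine ⟨Nat.mul_pos hd0 hq, ?_⟩
    simp only [evQ, evI_add, evI_smul]
    have h1 : ((Nat.mul d E : ℕ) : ℝ) = d * (g * e) := by
      show ((d * E : ℕ) : ℝ) = _
      rw [he]; push_cast; ring
    have h2 : (D : ℝ) = g * d := by rw [hd]; push_cast; ring
    have h3 : (E : ℝ) = g * e := by rw [he]; push_cast; ring
    have hg1 : (g : ℝ) ≠ 0 := by positivity
    have hd1 : (d : ℝ) ≠ 0 := by positivity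
    have he1 : (e : ℝ) ≠ 0 := by positivity
    rw [h1, h2, h3]
    push_cast
    field_simp

theorem negQ_spec (p : Q3) (hp : 0 < p.1) :
    0 < (negQ p).1 ∧ evQ x y z (negQ p) = - evQ x y z p := by
  refine ⟨hp, ?_⟩
  simp only [evQ, negQ, evI_smul]
  push_cast
  ring

theorem mulQ_spec (p q : Q3) (hp : 0 < p.1) (hq : 0 < q.1) :
    0 < (mulQ p q).1 ∧ evQ x y z (mulQ p q) = evQ x y z p * evQ x y z q := by
  refine ⟨Nat.mul_pos hp hq, ?_⟩
  simp only [evQ, mulQ, evI_mul]
  have : ((Nat.mul p.1 q.1 : ℕ) : ℝ) = p.1 * q.1 := by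
    show ((p.1 * q.1 : ℕ) : ℝ) = _
    push_cast; ring
  rw [this]
  have hp1 : (p.1 : ℝ) ≠ 0 := by positivity
  have hq1 : (q.1 : ℝ) ≠ 0 := by positivity
  field_simp

theorem powQ_spec (p : Q3) (n : ℕ) (hp : 0 < p.1) :
    0 < (powQ p n).1 ∧ evQ x y z (powQ p n) = evQ x y z p ^ n := by
  induction n with
  | zero =>
    refine ⟨Nat.one_pos, ?_⟩
    simp [powQ, evQ, evI, evL]
  | succ n ih =>
    have h := mulQ_spec (x := x) (y := y) (z := z) p (powQ p n) hp ih.1
    refine ⟨h.1, ?_⟩
    have : powQ p (n + 1) = mulQ p (powQ p n) := rfl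
    rw [this, h.2, ih.2, pow_succ]; ring

theorem toQ_spec {a b c : Side} (ha : 0 < a.D) (hb : 0 < b.D) (hc : 0 < c.D) (e : Ex) :
    0 < (toQ a b c e).1 ∧ evQ x y z (toQ a b c e)
      = e.ev ((a.L + a.W * x) / a.D) ((b.L + b.W * y) / b.D) ((c.L + c.W * z) / c.D) := by
  induction e with
  | q n d =>
    cases d with
    | zero => refine ⟨Nat.one_pos, ?_⟩; simp [toQ, evQ, evI, evL, Ex.ev]
    | succ d => refine ⟨Nat.succ_pos d, ?_⟩; simp [toQ, evQ, evI, evL, Ex.ev]
  | x => refine ⟨ha, ?_⟩; simp [toQ, evQ, evI, evL, Ex.ev]; ring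
  | y => refine ⟨hb, ?_⟩; simp [toQ, evQ, evI, evL, Ex.ev]; ring
  | z => refine ⟨hc, ?_⟩; simp [toQ, evQ, evI, evL, Ex.ev]; ring
  | add e f ihe ihf =>
    have h := addQ_spec (x := x) (y := y) (z := z) _ _ ihe.1 ihf.1
    exact ⟨h.1, by rw [toQ, h.2, ihe.2, ihf.2]; rfl⟩
  | sub e f ihe ihf =>
    have h0 := negQ_spec (x := x) (y := y) (z := z) _ ihf.1
    have h := addQ_spec (x := x) (y := y) (z := z) _ _ ihe.1 h0.1
    exact ⟨h.1, by rw [toQ, h.2, h0.2, ihe.2, ihf.2]; rfl⟩
  | mul e f ihe ihf =>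
    have h := mulQ_spec (x := x) (y := y) (z := z) _ _ ihe.1 ihf.1
    exact ⟨h.1, by rw [toQ, h.2, ihe.2, ihf.2]; rfl⟩
  | pow e n ih =>
    have h := powQ_spec (x := x) (y := y) (z := z) _ n ih.1
    exact ⟨h.1, by rw [toQ, h.2, ih.2]; rfl⟩

end soundQ

/-! ### coefficients in `ℕ`, certificate trees -/

section nat3

/-- natural polynomials in `z` -/
abbrev N1 := List ℕ
/-- natural polynomials in `y, z` -/
abbrev N2 := List (List ℕ)
/-- natural polynomials in `x, y, z` -/
abbrev N3 := List (List (List ℕ))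

/-- is zero -/
def isz0 (n : ℕ) : Bool := Nat.beq 0 n
/-- is zero -/
def isz1 : N1 → Bool := allR isz0
/-- is zero -/
def isz2 : N2 → Bool := allR isz1
/-- comparison -/
def le1 : N1 → N1 → Bool := leL Nat.ble isz0
/-- comparison -/
def le2 : N2 → N2 → Bool := leL le1 isz1
/-- comparison -/
def le3 : N3 → N3 → Bool := leL le2 isz2

/-- shift in `x` -/
def shx : N3 → N3 := shift (addL (addL Nat.add))
/-- shift in `y` -/
def shy : N3 → N3 := mapR (shift (addL Nat.add))
/-- shift in `z` -/
def shz : N3 → N3 := mapR (mapR (shift Nat.add))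
/-- reversal in `x` -/
def rvx (n : ℕ) : N3 → N3 := revN [] n
/-- reversal in `y` -/
def rvy (n : ℕ) : N3 → N3 := mapR (revN [] n)
/-- reversal in `z` -/
def rvz (n : ℕ) : N3 → N3 := mapR (mapR (revN 0 n))

/-- degree bounds -/
structure Dg where
  /-- in `x` -/
  a : ℕ
  /-- in `y` -/
  b : ℕ
  /-- in `z` -/
  c : ℕ

/-- invariant for `N1` -/
def ok1 (d : Dg) (l : N1) : Prop := l.length ≤ d.c + 1
/-- invariant for `N2` -/
def ok2 (d : Dg) (l : N2) : Prop := l.length ≤ d.b + 1 ∧ ∀ a ∈ l, ok1 d a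
/-- invariant for `N3` -/
def ok3 (d : Dg) (l : N3) : Prop := l.length ≤ d.a + 1 ∧ ∀ a ∈ l, ok2 d a

theorem ok1_nil (d : Dg) : ok1 d [] := by simp [ok1]
theorem ok2_nil (d : Dg) : ok2 d [] := by simp [ok2]

theorem ok1_add {d : Dg} (p q : N1) (hp : ok1 d p) (hq : ok1 d q) :
    ok1 d (addL Nat.add p q) := by
  unfold ok1 at *; rw [length_addL]; omega

theorem ok2_add {d : Dg} (p q : N2) (hp : ok2 d p) (hq : ok2 d q) :
    ok2 d (addL (addL Nat.add) p q) := by
  refine ⟨?_, mem_addL ok1_add p q hp.2 hq.2⟩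
  rw [length_addL]; have := hp.1; have := hq.1; omega

theorem ok3_shx {d : Dg} {p : N3} (h : ok3 d p) : ok3 d (shx p) :=
  ⟨by unfold shx; rw [length_shift]; exact h.1, mem_shift ok2_add p h.2⟩

theorem ok2_sh {d : Dg} {p : N2} (h : ok2 d p) : ok2 d (shift (addL Nat.add) p) :=
  ⟨by rw [length_shift]; exact h.1, mem_shift ok1_add p h.2⟩

theorem ok3_shy {d : Dg} {p : N3} (h : ok3 d p) : ok3 d (shy p) :=
  ⟨by unfold shy; rw [length_mapR]; exact h.1, mem_mapR _ _ (fun a ha => ok2_sh (h.2 a ha))⟩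

theorem ok1_sh {d : Dg} {p : N1} (h : ok1 d p) : ok1 d (shift Nat.add p) := by
  unfold ok1 at *; rw [length_shift]; exact h

theorem ok3_shz {d : Dg} {p : N3} (h : ok3 d p) : ok3 d (shz p) :=
  ⟨by unfold shz; rw [length_mapR]; exact h.1, mem_mapR _ _ (fun a ha =>
    ⟨by rw [length_mapR]; exact (h.2 a ha).1,
      mem_mapR _ _ (fun b hb => ok1_sh ((h.2 a ha).2 b hb))⟩)⟩

theorem ok3_rvx {d : Dg} {p : N3} (h : ok3 d p) : ok3 d (rvx d.a p) :=
  ⟨by unfold rvx; rw [length_revN], mem_revN (ok2_nil d) _ _ h.2⟩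

theorem ok3_rvy {d : Dg} {p : N3} (h : ok3 d p) : ok3 d (rvy d.b p) :=
  ⟨by unfold rvy; rw [length_mapR]; exact h.1, mem_mapR _ _ (fun a ha =>
    ⟨by rw [length_revN], mem_revN (ok1_nil d) _ _ (h.2 a ha).2⟩)⟩

theorem ok3_rvz {d : Dg} {p : N3} (h : ok3 d p) : ok3 d (rvz d.c p) :=
  ⟨by unfold rvz; rw [length_mapR]; exact h.1, mem_mapR _ _ (fun a ha =>
    ⟨by rw [length_mapR]; exact (h.2 a ha).1,
      mem_mapR _ _ (fun b hb => by unfold ok1; rw [length_revN])⟩)⟩

/-- projective coordinates -/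
structure Pr where
  /-- coordinates `(u, v)` of `x` -/
  (a a' b b' c c' : ℝ)

/-- nonnegative coordinates -/
def Pr.nn (r : Pr) : Prop :=
  0 ≤ r.a ∧ 0 ≤ r.a' ∧ 0 ≤ r.b ∧ 0 ≤ r.b' ∧ 0 ≤ r.c ∧ 0 ≤ r.c'

/-- evaluation of `N1` -/
noncomputable def e1 (d : Dg) (r : Pr) : N1 → ℝ := hev (fun n : ℕ => (n : ℝ)) r.c r.c' d.c
/-- evaluation of `N2` -/
noncomputable def e2 (d : Dg) (r : Pr) : N2 → ℝ := hev (e1 d r) r.b r.b' d.b
/-- evaluation of `N3` -/
noncomputable def e3 (d : Dg) (r : Pr) : N3 → ℝ := hev (e2 d r) r.a r.a' d.a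

variable {d : Dg} {r : Pr}

theorem e1_add (p q : N1) : e1 d r (addL Nat.add p q) = e1 d r p + e1 d r q :=
  hev_addL (fun a b => Nat.cast_add a b) _ p q

theorem e2_add (p q : N2) : e2 d r (addL (addL Nat.add) p q) = e2 d r p + e2 d r q :=
  hev_addL e1_add _ p q

theorem e3_shx (p : N3) (h : ok3 d p) (s : ℝ) (hs : s = r.a + r.a') :
    e3 d r (shx p) = e3 d ⟨r.a, s, r.b, r.b', r.c, r.c'⟩ p := by
  subst hs
  exact hev_shift e2_add _ p h.1

theorem e3_rvx (p : N3) (h : ok3 d p) :
    e3 d r (rvx d.a p) = e3 d ⟨r.a', r.a, r.b, r.b', r.c, r.c'⟩ p :=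
  hev_revN (ev := e2 d r) (zero := []) rfl _ p h.1

theorem e3_shy (p : N3) (h : ok3 d p) (s : ℝ) (hs : s = r.b + r.b') :
    e3 d r (shy p) = e3 d ⟨r.a, r.a', r.b, s, r.c, r.c'⟩ p := by
  subst hs
  exact hev_mapR _ _ _ (fun a ha => hev_shift e1_add _ a (h.2 a ha).1)

theorem e3_rvy (p : N3) (h : ok3 d p) :
    e3 d r (rvy d.b p) = e3 d ⟨r.a, r.a', r.b', r.b, r.c, r.c'⟩ p :=
  hev_mapR _ _ _ (fun a ha => hev_revN (ev := e1 d r) (zero := []) rfl _ a (h.2 a ha).1)

theorem e3_shz (p : N3) (h : ok3 d p) (s : ℝ) (hs : s = r.c + r.c') :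
    e3 d r (shz p) = e3 d ⟨r.a, r.a', r.b, r.b', r.c, s⟩ p := by
  subst hs
  exact hev_mapR _ _ _ (fun a ha => hev_mapR _ _ _ (fun b hb =>
    hev_shift (fun m n => Nat.cast_add m n) _ b ((h.2 a ha).2 b hb)))

theorem e3_rvz (p : N3) (h : ok3 d p) :
    e3 d r (rvz d.c p) = e3 d ⟨r.a, r.a', r.b, r.b', r.c', r.c⟩ p :=
  hev_mapR _ _ _ (fun a ha => hev_mapR _ _ _ (fun b hb =>
    hev_revN Nat.cast_zero _ b ((h.2 a ha).2 b hb)))

theorem e1_nonneg (hr : r.nn) (p : N1) : 0 ≤ e1 d r p :=
  hev_nonneg (fun n => Nat.cast_nonneg n) hr.2.2.2.2.1 hr.2.2.2.2.2 _ p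

theorem e2_nonneg (hr : r.nn) (p : N2) : 0 ≤ e2 d r p :=
  hev_nonneg (e1_nonneg hr) hr.2.2.1 hr.2.2.2.1 _ p

theorem isz0_spec {n : ℕ} (h : isz0 n = true) : (n : ℝ) = 0 := by
  have : 0 = n := Nat.eq_of_beq_eq_true h
  rw [← this]; simp

theorem hev_isz {α : Type} {ev : α → ℝ} {isz : α → Bool} {u v : ℝ}
    (h0 : ∀ a, isz a = true → ev a = 0) (n : ℕ) (l : List α) (h : allR isz l = true) :
    hev ev u v n l = 0 := by
  induction l generalizing n with
  | nil => rfl
  | cons a l ih =>
    rw [allR_cons] at h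
    obtain ⟨h1, h2⟩ := andR_eq h
    rw [hev, h0 a h1, ih _ h2]; ring

theorem isz1_spec (p : N1) (h : isz1 p = true) : e1 d r p = 0 :=
  hev_isz (fun _ => isz0_spec) _ p h

theorem isz2_spec (p : N2) (h : isz2 p = true) : e2 d r p = 0 :=
  hev_isz (fun _ => isz1_spec _) _ p h

theorem le1_spec (hr : r.nn) (p q : N1) (h : le1 p q = true) : e1 d r p ≤ e1 d r q :=
  hev_le (fun n => Nat.cast_nonneg n)
    (fun a b hab => by exact_mod_cast Nat.le_of_ble_eq_true hab)
    (fun _ => isz0_spec) hr.2.2.2.2.1 hr.2.2.2.2.2 _ p q h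

theorem le2_spec (hr : r.nn) (p q : N2) (h : le2 p q = true) : e2 d r p ≤ e2 d r q :=
  hev_le (e1_nonneg hr) (le1_spec hr) isz1_spec hr.2.2.1 hr.2.2.2.1 _ p q h

theorem le3_spec (hr : r.nn) (p q : N3) (h : le3 p q = true) : e3 d r p ≤ e3 d r q :=
  hev_le (e2_nonneg hr) (le2_spec hr) isz2_spec hr.1 hr.2.1 _ p q h

/-- certificate trees -/
inductive T
  /-- leaf -/
  | o
  /-- split in `x` -/
  | a (l r : T)
  /-- split in `y` -/
  | b (l r : T)
  /-- split in `z` -/
  | c (l r : T)

/-- the check -/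
def chk (d : Dg) : T → N3 → N3 → Bool
  | .o, p, q => le3 p q
  | .a l r, p, q => andR (chk d r (shx p) (shx q)) (chk d l (shx (rvx d.a p)) (shx (rvx d.a q)))
  | .b l r, p, q => andR (chk d r (shy p) (shy q)) (chk d l (shy (rvy d.b p)) (shy (rvy d.b q)))
  | .c l r, p, q => andR (chk d r (shz p) (shz q)) (chk d l (shz (rvz d.c p)) (shz (rvz d.c q)))

theorem chk_spec (t : T) (p q : N3) (hp : ok3 d p) (hq : ok3 d q) (h : chk d t p q = true)
    (r : Pr) (hr : r.nn) : e3 d r p ≤ e3 d r q := by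
  induction t generalizing p q r with
  | o => exact le3_spec hr p q h
  | a t s iht ihs =>
    rw [chk] at h
    obtain ⟨h2, h1⟩ := andR_eq h
    obtain ⟨r1, r2, r3, r4, r5, r6⟩ := hr
    rcases le_total r.a r.a' with hl | hl
    · have := ihs _ _ (ok3_shx hp) (ok3_shx hq) h2 ⟨r.a, r.a' - r.a, r.b, r.b', r.c, r.c'⟩
        ⟨r1, sub_nonneg.mpr hl, r3, r4, r5, r6⟩
      rwa [e3_shx p hp r.a' (by simp), e3_shx q hq r.a' (by simp)] at this
    · have := iht _ _ (ok3_shx (ok3_rvx hp)) (ok3_shx (ok3_rvx hq)) h1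
        ⟨r.a', r.a - r.a', r.b, r.b', r.c, r.c'⟩ ⟨r2, sub_nonneg.mpr hl, r3, r4, r5, r6⟩
      rwa [e3_shx _ (ok3_rvx hp) r.a (by simp), e3_shx _ (ok3_rvx hq) r.a (by simp),
        e3_rvx p hp, e3_rvx q hq] at this
  | b t s iht ihs =>
    rw [chk] at h
    obtain ⟨h2, h1⟩ := andR_eq h
    obtain ⟨r1, r2, r3, r4, r5, r6⟩ := hr
    rcases le_total r.b r.b' with hl | hl
    · have := ihs _ _ (ok3_shy hp) (ok3_shy hq) h2 ⟨r.a, r.a', r.b, r.b' - r.b, r.c, r.c'⟩
        ⟨r1, r2, r3, sub_nonneg.mpr hl, r5, r6⟩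
      rwa [e3_shy p hp r.b' (by simp), e3_shy q hq r.b' (by simp)] at this
    · have := iht _ _ (ok3_shy (ok3_rvy hp)) (ok3_shy (ok3_rvy hq)) h1
        ⟨r.a, r.a', r.b', r.b - r.b', r.c, r.c'⟩ ⟨r1, r2, r4, sub_nonneg.mpr hl, r5, r6⟩
      rwa [e3_shy _ (ok3_rvy hp) r.b (by simp), e3_shy _ (ok3_rvy hq) r.b (by simp),
        e3_rvy p hp, e3_rvy q hq] at this
  | c t s iht ihs =>
    rw [chk] at h
    obtain ⟨h2, h1⟩ := andR_eq h
    obtain ⟨r1, r2, r3, r4, r5, r6⟩ := hr
    rcases le_total r.c r.c' with hl | hl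
    · have := ihs _ _ (ok3_shz hp) (ok3_shz hq) h2 ⟨r.a, r.a', r.b, r.b', r.c, r.c' - r.c⟩
        ⟨r1, r2, r3, r4, r5, sub_nonneg.mpr hl⟩
      rwa [e3_shz p hp r.c' (by simp), e3_shz q hq r.c' (by simp)] at this
    · have := iht _ _ (ok3_shz (ok3_rvz hp)) (ok3_shz (ok3_rvz hq)) h1
        ⟨r.a, r.a', r.b, r.b', r.c', r.c - r.c'⟩ ⟨r1, r2, r3, r4, r6, sub_nonneg.mpr hl⟩
      rwa [e3_shz _ (ok3_rvz hp) r.c (by simp), e3_shz _ (ok3_rvz hq) r.c (by simp),
        e3_rvz p hp, e3_rvz q hq] at this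

/-- negative part -/
def ngp : I3 → N3 := mapR (mapR (mapR (fun n => Int.toNat (Int.neg n))))
/-- positive part -/
def psp : I3 → N3 := mapR (mapR (mapR Int.toNat))

theorem evL_sub {α β γ : Type} {ev : α → ℝ} {ev' : β → ℝ} {ev'' : γ → ℝ} (f : α → β)
    (g : α → γ) (x : ℝ) (h : ∀ a, ev' (f a) - ev'' (g a) = ev a) (l : List α) :
    evL ev' x (mapR f l) - evL ev'' x (mapR g l) = evL ev x l := by
  induction l with
  | nil => simp [mapR_nil, evL]
  | cons a l ih => rw [mapR_cons, mapR_cons, evL, evL, evL, ← ih, ← h a]; ring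

theorem toNat_sub (n : ℤ) : ((Int.toNat n : ℕ) : ℝ) - ((Int.toNat (Int.neg n) : ℕ) : ℝ) = n := by
  have h : ((Int.toNat n : ℕ) : ℤ) - ((Int.toNat (Int.neg n) : ℕ) : ℤ) = n := by
    have : Int.neg n = -n := rfl
    rw [this]
    omega
  exact_mod_cast h

theorem psp_sub_ngp (d : Dg) (x y z : ℝ) (p : I3) :
    e3 d ⟨1, x, 1, y, 1, z⟩ (psp p) - e3 d ⟨1, x, 1, y, 1, z⟩ (ngp p) = evI x y z p := by
  unfold e3
  rw [hev_one, hev_one]
  refine evL_sub _ _ x (fun a => ?_) p
  unfold e2
  rw [hev_one, hev_one]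
  refine evL_sub _ _ y (fun b => ?_) a
  unfold e1
  rw [hev_one, hev_one]
  exact evL_sub _ _ z (fun c => toNat_sub c) b

/-- restriction to the bounded side in `x` -/
def inx (d : Dg) (b : Bool) (p : N3) : N3 := bif b then shx (rvx d.a p) else p
/-- restriction to the bounded side in `y` -/
def iny (d : Dg) (b : Bool) (p : N3) : N3 := bif b then shy (rvy d.b p) else p
/-- restriction to the bounded side in `z` -/
def inz (d : Dg) (b : Bool) (p : N3) : N3 := bif b then shz (rvz d.c p) else p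

/-- boolean form of the invariant -/
def okB (d : Dg) (p : N3) : Bool :=
  andR (Nat.ble p.length (d.a + 1)) (allR (fun q => andR (Nat.ble q.length (d.b + 1))
    (allR (fun l => Nat.ble l.length (d.c + 1)) q)) p)

theorem okB_spec (d : Dg) (p : N3) (h : okB d p = true) : ok3 d p := by
  obtain ⟨h1, h2⟩ := andR_eq h
  refine ⟨Nat.le_of_ble_eq_true h1, fun a ha => ?_⟩
  obtain ⟨h3, h4⟩ := andR_eq (allR_mem h2 a ha)
  exact ⟨Nat.le_of_ble_eq_true h3, fun b hb => Nat.le_of_ble_eq_true (allR_mem h4 b hb)⟩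

/-- first coordinate on a side -/
noncomputable def cu (b : Bool) (t : ℝ) : ℝ := bif b then t else 1
/-- second coordinate on a side -/
noncomputable def cv (b : Bool) (t : ℝ) : ℝ := bif b then 1 - t else t

theorem cu_nonneg {b : Bool} {t : ℝ} (ht : 0 ≤ t) : 0 ≤ cu b t := by
  cases b
  · exact zero_le_one
  · exact ht

theorem cv_nonneg {b : Bool} {t : ℝ} (ht : 0 ≤ t) (ht1 : b = true → t ≤ 1) : 0 ≤ cv b t := by
  cases b
  · exact ht
  · exact sub_nonneg.mpr (ht1 rfl)

theorem inx_spec (b : Bool) (p : N3) (h : ok3 d p) (t : ℝ) :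
    ok3 d (inx d b p) ∧ ∀ y y' z z' : ℝ,
      e3 d ⟨cu b t, cv b t, y, y', z, z'⟩ (inx d b p) = e3 d ⟨1, t, y, y', z, z'⟩ p := by
  cases b
  · exact ⟨h, fun _ _ _ _ => rfl⟩
  · refine ⟨ok3_shx (ok3_rvx h), fun y y' z z' => ?_⟩
    simp only [inx, cond_true, cu, cv]
    rw [e3_shx _ (ok3_rvx h) 1 (by simp), e3_rvx p h]

theorem iny_spec (b : Bool) (p : N3) (h : ok3 d p) (t : ℝ) :
    ok3 d (iny d b p) ∧ ∀ x x' z z' : ℝ,
      e3 d ⟨x, x', cu b t, cv b t, z, z'⟩ (iny d b p) = e3 d ⟨x, x', 1, t, z, z'⟩ p := by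
  cases b
  · exact ⟨h, fun _ _ _ _ => rfl⟩
  · refine ⟨ok3_shy (ok3_rvy h), fun y y' z z' => ?_⟩
    simp only [iny, cond_true, cu, cv]
    rw [e3_shy _ (ok3_rvy h) 1 (by simp), e3_rvy p h]

theorem inz_spec (b : Bool) (p : N3) (h : ok3 d p) (t : ℝ) :
    ok3 d (inz d b p) ∧ ∀ x x' y y' : ℝ,
      e3 d ⟨x, x', y, y', cu b t, cv b t⟩ (inz d b p) = e3 d ⟨x, x', y, y', 1, t⟩ p := by
  cases b
  · exact ⟨h, fun _ _ _ _ => rfl⟩
  · refine ⟨ok3_shz (ok3_rvz h), fun y y' z z' => ?_⟩
    simp only [inz, cond_true, cu, cv]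
    rw [e3_shz _ (ok3_rvz h) 1 (by simp), e3_rvz p h]

end nat3

/-- a side is admissible -/
def Side.okB (s : Side) : Bool := andR (Nat.blt 0 s.W) (Nat.blt 0 s.D)

/-- the check for the integer polynomial -/
def checkI (p : I3) (a b c : Bool) (d : Dg) (t : T) : Bool :=
  andR (okB d (ngp p)) (andR (okB d (psp p))
    (chk d t (inz d c (iny d b (inx d a (ngp p)))) (inz d c (iny d b (inx d a (psp p))))))

/-- **the check**: `check e a b c d t = true` implies `0 ≤ e` on the box -/
def check (e : Ex) (a b c : Side) (d : Dg) (t : T) : Bool :=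
  andR a.okB (andR b.okB (andR c.okB (checkI (toQ a b c e).2 a.bdd b.bdd c.bdd d t)))

theorem checkI_spec (p : I3) (a b c : Bool) (d : Dg) (t : T) (h : checkI p a b c d t = true)
    (x y z : ℝ) (hx : 0 ≤ x) (hx1 : a = true → x ≤ 1) (hy : 0 ≤ y) (hy1 : b = true → y ≤ 1)
    (hz : 0 ≤ z) (hz1 : c = true → z ≤ 1) : 0 ≤ evI x y z p := by
  obtain ⟨h1, h23⟩ := andR_eq h
  obtain ⟨h2, h3⟩ := andR_eq h23
  have k1 := okB_spec d _ h1
  have k2 := okB_spec d _ h2
  have hr : Pr.nn ⟨cu a x, cv a x, cu b y, cv b y, cu c z, cv c z⟩ :=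
    ⟨cu_nonneg hx, cv_nonneg hx hx1, cu_nonneg hy, cv_nonneg hy hy1, cu_nonneg hz,
      cv_nonneg hz hz1⟩
  have a1 := inx_spec a _ k1 x
  have a2 := iny_spec b _ a1.1 y
  have a3 := inz_spec c _ a2.1 z
  have b1 := inx_spec a _ k2 x
  have b2 := iny_spec b _ b1.1 y
  have b3 := inz_spec c _ b2.1 z
  have key := chk_spec t _ _ a3.1 b3.1 h3 _ hr
  rw [a3.2, a2.2, a1.2, b3.2, b2.2, b1.2] at key
  rw [← psp_sub_ngp d x y z p]
  linarith

theorem Side.pos {s : Side} (h : s.okB = true) : 0 < s.W ∧ 0 < s.D := by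
  obtain ⟨h1, h2⟩ := andR_eq h
  exact ⟨by simpa [Nat.blt_eq] using h1, by simpa [Nat.blt_eq] using h2⟩

theorem Side.param {s : Side} (h : s.okB = true) {x : ℝ} (hx : s.mem x) :
    ∃ t : ℝ, 0 ≤ t ∧ (s.bdd = true → t ≤ 1) ∧ (s.L + s.W * t) / s.D = x := by
  obtain ⟨hW, hD⟩ := Side.pos h
  have hW' : (0 : ℝ) < s.W := by exact_mod_cast hW
  have hD' : (0 : ℝ) < s.D := by exact_mod_cast hD
  refine ⟨(s.D * x - s.L) / s.W, div_nonneg (by linarith [hx.1]) hW'.le, fun hb => ?_, ?_⟩
  · rw [div_le_one hW']; linarith [hx.2 hb]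
  · field_simp; ring

/-- **Soundness of the check.** -/
theorem check_spec {e : Ex} {a b c : Side} (d : Dg) (t : T) (h : check e a b c d t = true)
    {x y z : ℝ} (hx : a.mem x) (hy : b.mem y) (hz : c.mem z) : 0 ≤ e.ev x y z := by
  obtain ⟨ha, h⟩ := andR_eq h
  obtain ⟨hb, h⟩ := andR_eq h
  obtain ⟨hc, h⟩ := andR_eq h
  obtain ⟨x', hx0, hx1, rfl⟩ := Side.param ha hx
  obtain ⟨y', hy0, hy1, rfl⟩ := Side.param hb hy
  obtain ⟨z', hz0, hz1, rfl⟩ := Side.param hc hz
  have k := toQ_spec (x := x') (y := y') (z := z') (Side.pos ha).2 (Side.pos hb).2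
    (Side.pos hc).2 e
  rw [← k.2]
  exact div_nonneg (checkI_spec _ _ _ _ d t h x' y' z' hx0 hx1 hy0 hy1 hz0 hz1)
    (Nat.cast_nonneg _)

/-- the interval `[l/D, (l+w)/D]` -/
def seg (l : ℤ) (w D : ℕ) : Side := ⟨l, w, D, true⟩
/-- the half line `[l/D, ∞)` -/
def ray (l : ℤ) (D : ℕ) : Side := ⟨l, 1, D, false⟩
/-- unused variable -/
def one : Side := ⟨0, 1, 1, true⟩

theorem one_mem : one.mem 0 := by constructor <;> simp [one]

end Pool.Agent.Lib.QNL.PolyPos
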