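import Pool.Agent.Lib.QNL.Lam20
import Pool.Agent.Lib.QNL.PolyPos
import Pool.Agent.Lib.QNL.Pole95

/-!
# QNL, group N: the boxes `(F)` and `(mu)` of the regions I - IV of the certificate

`F0 = T_0/z`, `mu = lam_1/F0` (`Pole95`), for all `n` (exponential family, truncation at `n`).
-/

set_option autoImplicit false

open Finset
open scoped Nat

namespace Pool.Agent.Lib.QNL.Box20

open Pool.Agent.Lib.QNL.Wts73
open Pool.Agent.Lib.QNL.Lam20
open Pool.Agent.Lib.QNL.PolyPos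
open Pool.Agent.Lib.QNL.CG (F0 muN)

/-! ### The partial sums as fractions -/

/-- `∏_(k<m) (k + b)` -/
noncomputable def Dr : ℕ → ℝ → ℝ
  | 0, _ => 1
  | k + 1, b => Dr k b * (k + b)

/-- numerator of `∑_(k<m) (-c)^k (k+1)/(k! (k+b))` -/
noncomputable def N1r (nc : ℝ) : ℕ → ℝ → ℝ
  | 0, _ => 0
  | k + 1, b => N1r nc k b * (k + b) + nc ^ k * ((k + 1) / k !) * Dr k b

/-- numerator of `∑_(k<m) (-c)^k (k+1)/(k! (k+b)^2)` -/
noncomputable def N2r (nc : ℝ) : ℕ → ℝ → ℝ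
  | 0, _ => 0
  | k + 1, b => N2r nc k b * (k + b) ^ 2 + nc ^ k * ((k + 1) / k !) * Dr k b ^ 2

theorem Dr_pos {b : ℝ} (hb : 0 < b) (m : ℕ) : 0 < Dr m b := by
  induction m with
  | zero => exact one_pos
  | succ k ih =>
    have : (0 : ℝ) ≤ k := Nat.cast_nonneg k
    simp only [Dr]
    positivity

theorem Zs_eq {a : ℝ} (ha : a < 1) (c : ℝ) (m : ℕ) :
    Zs m a c = c * (N1r (-c) m (1 - a) / Dr m (1 - a)) := by
  unfold Zs
  congr 1
  induction m with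
  | zero => simp [N1r]
  | succ k ih =>
    have hb : 0 < 1 - a := by linarith
    have h1 := (Dr_pos hb k).ne'
    have hk : (0 : ℝ) ≤ k := Nat.cast_nonneg k
    have h2 : (k : ℝ) + (1 - a) ≠ 0 := by positivity
    have h3 : ((k ! : ℕ) : ℝ) ≠ 0 := by positivity
    rw [sum_range_succ, ih]
    simp only [N1r, Dr]
    rw [show (k : ℝ) + 1 - a = k + (1 - a) by ring]
    field_simp

theorem Zd_eq {a : ℝ} (ha : a < 1) (c : ℝ) (m : ℕ) :
    Zd m a c = c * (N2r (-c) m (1 - a) / Dr m (1 - a) ^ 2) := by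
  unfold Zd
  congr 1
  induction m with
  | zero => simp [N2r]
  | succ k ih =>
    have hb : 0 < 1 - a := by linarith
    have h1 := (Dr_pos hb k).ne'
    have hk : (0 : ℝ) ≤ k := Nat.cast_nonneg k
    have h2 : (k : ℝ) + (1 - a) ≠ 0 := by positivity
    have h3 : ((k ! : ℕ) : ℝ) ≠ 0 := by positivity
    rw [sum_range_succ, ih]
    simp only [N2r, Dr]
    rw [show (k : ℝ) + 1 - a = k + (1 - a) by ring]
    field_simp

/-! ### The same as expressions -/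

/-- `∏ (k + z)` -/
def DE : ℕ → Ex
  | 0 => Ex.q 1 1
  | k + 1 => Ex.mul (DE k) (Ex.add (Ex.q k 1) Ex.z)

/-- `N1` -/
def N1E (nc : Ex) : ℕ → Ex
  | 0 => Ex.q 0 1
  | k + 1 => Ex.add (Ex.mul (N1E nc k) (Ex.add (Ex.q k 1) Ex.z))
      (Ex.mul (Ex.mul (Ex.pow nc k) (Ex.q (k + 1) (k !))) (DE k))

/-- `N2` -/
def N2E (nc : Ex) : ℕ → Ex
  | 0 => Ex.q 0 1
  | k + 1 => Ex.add (Ex.mul (N2E nc k) (Ex.pow (Ex.add (Ex.q k 1) Ex.z) 2))
      (Ex.mul (Ex.mul (Ex.pow nc k) (Ex.q (k + 1) (k !))) (Ex.pow (DE k) 2))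

theorem ev_DE (X Y Z : ℝ) (m : ℕ) : (DE m).ev X Y Z = Dr m Z := by
  induction m with
  | zero => simp [DE, Dr, Ex.ev]
  | succ k ih => simp [DE, Dr, Ex.ev, ih]

theorem ev_N1E (nc : Ex) (X Y Z : ℝ) (m : ℕ) :
    (N1E nc m).ev X Y Z = N1r (nc.ev X Y Z) m Z := by
  induction m with
  | zero => simp [N1E, N1r, Ex.ev]
  | succ k ih => simp [N1E, N1r, Ex.ev, ih, ev_DE]

theorem ev_N2E (nc : Ex) (X Y Z : ℝ) (m : ℕ) :
    (N2E nc m).ev X Y Z = N2r (nc.ev X Y Z) m Z := by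
  induction m with
  | zero => simp [N2E, N2r, Ex.ev]
  | succ k ih => simp [N2E, N2r, Ex.ev, ih, ev_DE]

/-! ### `ψ_1`, `ψ_2` -/

theorem JJ_zero_mul (w : ℝ) : w * JJ 0 0 w = 1 - Real.exp (-w) := by
  have h1 : ∀ v ∈ Set.uIcc (0 : ℝ) 1, HasDerivAt (fun v : ℝ => -Real.exp (-(w * v)))
      (w * Real.exp (-(w * v))) v := by
    intro v _
    have h2 : HasDerivAt (fun v : ℝ => -(w * v)) (-w) v := by
      simpa using ((hasDerivAt_id v).const_mul w).fun_neg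
    exact h2.exp.fun_neg.congr_deriv (by ring)
  have h2 := intervalIntegral.integral_eq_sub_of_hasDerivAt h1 (by
    apply Continuous.intervalIntegrable
    fun_prop)
  have e : w * JJ 0 0 w = ∫ v in (0 : ℝ)..1, w * Real.exp (-(w * v)) := by
    unfold JJ
    rw [← intervalIntegral.integral_const_mul]
    refine intervalIntegral.integral_congr fun v _ => ?_
    simp
  rw [e, h2]
  simp
  ring

/-- `c ψ_1 = 2 - (c^2+2c+2) e^(-c)` -/
theorem psi_one (c : ℝ) : c * psi 1 c = 2 - (c ^ 2 + 2 * c + 2) * Real.exp (-c) := by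
  have h0 := JJ_zero_mul c
  have h1 := JJ_parts_zero 0 c
  have h2 := JJ_parts_zero 1 c
  simp only [psi, Nat.factorial_zero, Nat.cast_one, div_one, zero_add]
  push_cast at h1 h2
  linear_combination c ^ 2 * h2 + 2 * c * h1 + 2 * h0

/-- `c^2 ψ_2 = 6c - 24 + (c^3+6c^2+18c+24) e^(-c)` -/
theorem psi_two (c : ℝ) :
    c ^ 2 * psi 2 c = 6 * c - 24 + (c ^ 3 + 6 * c ^ 2 + 18 * c + 24) * Real.exp (-c) := by
  have h0 := JJ_zero_mul c
  have h1 := JJ_parts_zero 0 c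
  have h2 := JJ_parts_zero 1 c
  have h3 := JJ_parts_zero 2 c
  have h4 := JJ_parts_zero 3 c
  have h5 := JJ_add 3 0 c
  simp only [psi, Nat.factorial_one, Nat.cast_one, div_one]
  push_cast at h1 h2 h3 h4 h5
  have e : JJ (1 + 2) 1 c = JJ 3 0 c - JJ 4 0 c := by
    show JJ 3 1 c = _
    linarith
  rw [e]
  linear_combination (c ^ 4 - 4 * c ^ 3) * h3 - c ^ 4 * h4 + (3 * c ^ 3 - 12 * c ^ 2) * h2 +
    (6 * c ^ 2 - 24 * c) * h1 + (6 * c - 24) * h0

/-! ### The criteria -/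

theorem muN_eq (n : ℕ) (a c : ℝ) (hz : zz a c ≠ 0) :
    muN n a c = lam1 n a c / (Tl a c 0 / zz a c) := by
  unfold muN lam1
  rw [div_div_eq_mul_div, sum_mul]
  congr 1
  refine sum_congr rfl fun j _ => ?_
  unfold Mk
  field_simp

/-- (F) -/
theorem F0_ge {a c f E : ℝ} (ha0 : 0 < a) (ha1 : a < 1) (hc : 0 < c) {m : ℕ}
    (heven : Even m) (hm : c ≤ m + 1) (hE : Real.exp (-c) ≤ E) (hf : f ≤ 1)
    (h : 0 ≤ (1 - f) * N1r (-c) m (1 - a) - E * Dr m (1 - a)) : f ≤ F0 a c := by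
  have hz := zz_pos ha0 ha1 hc
  have hD := Dr_pos (show 0 < 1 - a by linarith) m
  have h3 := zz_sign ha1 hc m hm
  rw [heven.neg_one_pow, one_mul] at h3
  have h4 : c * E ≤ (1 - f) * Zs m a c := by
    rw [Zs_eq ha1]
    have : E ≤ (1 - f) * (N1r (-c) m (1 - a) / Dr m (1 - a)) := by
      rw [← mul_div_assoc, le_div_iff₀ hD]
      linarith
    calc c * E ≤ c * ((1 - f) * (N1r (-c) m (1 - a) / Dr m (1 - a))) :=
          mul_le_mul_of_nonneg_left this hc.le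
      _ = _ := by ring
  have h5 : (1 - f) * Zs m a c ≤ (1 - f) * zz a c :=
    mul_le_mul_of_nonneg_left (by linarith) (by linarith)
  have h6 : c * Real.exp (-c) ≤ c * E := mul_le_mul_of_nonneg_left hE hc.le
  unfold F0
  rw [Tl_zero, le_div_iff₀ hz]
  linarith

/-- (mu), upper bound, every `n` -/
theorem muN_le {a c U E : ℝ} (ha0 : 0 < a) (ha1 : a < 1) (hc : 0 < c) {m : ℕ}
    (heven : Even m) (hm : c ≤ m + 1) (hE : Real.exp (-c) ≤ E) (hU : 0 ≤ U)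
    (h : 0 ≤ (U * (1 - a) * (1 - (1 - a)) + 1) * (N1r (-c) m (1 - a) - E * Dr m (1 - a)) *
      Dr m (1 - a) * (m + (1 - a)) ^ 2 - (1 - a) * (1 - (1 - a)) * N2r (-c) (m + 1) (1 - a))
    (n : ℕ) : muN n a c ≤ U := by
  have hz := zz_pos ha0 ha1 hc
  have hb : 0 < 1 - a := by linarith
  have hD := Dr_pos hb m
  have hT := Tl_pos ha0 ha1 hc 0
  have h3 := zz_sign ha1 hc m hm
  rw [heven.neg_one_pow, one_mul] at h3
  -- `Zd ≤ (U + M_0)(Zs - c E)`
  have hmb : 0 < (m : ℝ) + (1 - a) := by positivity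
  have h4 : Zd (m + 1) a c ≤ (U + 1 / (a * (1 - a))) * (Zs m a c - c * E) := by
    rw [Zs_eq ha1, Zd_eq ha1]
    have e1 : Dr (m + 1) (1 - a) = Dr m (1 - a) * (m + (1 - a)) := rfl
    have e2 : (U + 1 / (a * (1 - a))) * (c * (N1r (-c) m (1 - a) / Dr m (1 - a)) - c * E) -
        c * (N2r (-c) (m + 1) (1 - a) / Dr (m + 1) (1 - a) ^ 2) =
        c / (a * (1 - a) * (Dr m (1 - a) * (m + (1 - a))) ^ 2) *
        ((U * (1 - a) * (1 - (1 - a)) + 1) * (N1r (-c) m (1 - a) - E * Dr m (1 - a)) *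
      Dr m (1 - a) * (m + (1 - a)) ^ 2 - (1 - a) * (1 - (1 - a)) * N2r (-c) (m + 1) (1 - a)) := by
      rw [e1]
      generalize Dr m (1 - a) = D at *
      generalize N1r (-c) m (1 - a) = N1
      generalize N2r (-c) (m + 1) (1 - a) = N2
      have hmb' := hmb.ne'
      generalize (m : ℝ) + (1 - a) = q at *
      have hb' := hb.ne'
      field_simp
      ring
    have h5 : 0 ≤ c / (a * (1 - a) * (Dr m (1 - a) * (m + (1 - a))) ^ 2) := by positivity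
    have h6 := mul_nonneg h5 h
    rw [← e2] at h6
    linarith
  have h5 : (U + 1 / (a * (1 - a))) * (Zs m a c - c * E) ≤ (U + 1 / (a * (1 - a))) * Tl a c 0 := by
    have h6 : c * Real.exp (-c) ≤ c * E := mul_le_mul_of_nonneg_left hE hc.le
    have h7 : 0 ≤ U + 1 / (a * (1 - a)) := by positivity
    refine mul_le_mul_of_nonneg_left ?_ h7
    rw [Tl_zero]
    linarith
  have h7 := sum_le_Zd ha0 ha1 n hc (m := m + 1) heven.add_one (by push_cast; linarith)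
  rw [range_eq_Ico, Finset.sum_eq_sum_Ico_succ_bot (by omega)] at h7
  have e0 : Mk a 0 = 1 / (a * (1 - a)) := by
    unfold Mk
    simp
  rw [e0] at h7
  have h8 : ∑ j ∈ Finset.Ico 1 n, Tl a c j * ((2 * (j : ℝ) + 1) / (((j : ℝ) + a) *
      ((j : ℝ) + 1 - a))) ≤ ∑ k ∈ Finset.Ico (0 + 1) (n + 1), Mk a k * Tl a c k := by
    rw [zero_add]
    have e : ∑ j ∈ Finset.Ico 1 n, Tl a c j * ((2 * (j : ℝ) + 1) / (((j : ℝ) + a) *
      ((j : ℝ) + 1 - a))) = ∑ k ∈ Finset.Ico 1 n, Mk a k * Tl a c k :=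
      sum_congr rfl fun j _ => by unfold Mk; ring
    rw [e]
    refine sum_le_sum_of_subset_of_nonneg (Finset.Ico_subset_Ico_right (by omega)) fun j _ _ => ?_
    exact mul_nonneg (Mk_pos ha0 ha1 j).le (Tl_pos ha0 ha1 hc j).le
  unfold muN
  rw [div_le_iff₀ hT]
  have h9 : (U + 1 / (a * (1 - a))) * Tl a c 0 = U * Tl a c 0 + 1 / (a * (1 - a)) * Tl a c 0 := by
    ring
  linarith

theorem muN_mono {a c : ℝ} (ha0 : 0 < a) (ha1 : a < 1) (hc : 0 < c) {n n' : ℕ} (h : n ≤ n') :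
    muN n a c ≤ muN n' a c := by
  unfold muN
  refine div_le_div_of_nonneg_right ?_ (Tl_pos ha0 ha1 hc 0).le
  refine sum_le_sum_of_subset_of_nonneg (Finset.Ico_subset_Ico_right h) fun j _ _ => ?_
  have h1 := (Mk_pos ha0 ha1 j).le
  unfold Mk at h1
  exact mul_nonneg (Tl_pos ha0 ha1 hc j).le h1

/-- the value at `n = 2` -/
theorem muN_two {a c : ℝ} (ha0 : 0 < a) (ha1 : a < 1) :
    (∑ j ∈ Finset.Ico 1 2, Tl a c j * ((2 * (j : ℝ) + 1) / (((j : ℝ) + a) * ((j : ℝ) + 1 - a)))) =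
      3 / ((1 + a) * (2 - a)) * (Tl a c 0 - a / (1 - a) * (psi 1 c + psi 0 c)) := by
  have e : Finset.Ico 1 2 = {1} := rfl
  rw [e, sum_singleton, Tl_succ a c 0]
  have h1 : 0 < 1 - a := by linarith
  simp only [Bs, CC, Nat.cast_zero, Nat.cast_one, one_mul, zero_add]
  rw [show (1 : ℝ) + 1 - a = 2 - a by ring]
  ring

theorem muN_three {a c : ℝ} (ha0 : 0 < a) (ha1 : a < 1) :
    (∑ j ∈ Finset.Ico 1 3, Tl a c j * ((2 * (j : ℝ) + 1) / (((j : ℝ) + a) * ((j : ℝ) + 1 - a)))) =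
      3 / ((1 + a) * (2 - a)) * (Tl a c 0 - a / (1 - a) * (psi 1 c + psi 0 c)) +
      5 / ((2 + a) * (3 - a)) * (Tl a c 0 - a / (1 - a) * (psi 1 c + psi 0 c) -
        a / (1 - a) * ((1 + a) / (2 - a)) * (psi 2 c + psi 1 c)) := by
  rw [show Finset.Ico 1 3 = Finset.Ico 1 (2 + 1) from rfl, Finset.sum_Ico_succ_top (by norm_num),
    muN_two ha0 ha1, Tl_succ a c 1, Tl_succ a c 0]
  have h1 : 0 < 1 - a := by linarith
  simp only [Bs, CC, Nat.cast_zero, Nat.cast_one, one_mul, zero_add, Nat.cast_ofNat]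
  rw [show (2 : ℝ) + 1 - a = 3 - a by ring, show (1 : ℝ) + 1 - a = 2 - a by ring]
  ring

/-- (mu), lower bound from `n = 2` -/
theorem muN_ge_two {a c L R E : ℝ} (ha0 : 0 < a) (ha1 : a < 1) (hc : 0 < c) {m : ℕ}
    (heven : Even m) (hm : c ≤ m + 1) (hE : Real.exp (-c) ≤ E)
    (hR : psi 1 c + psi 0 c ≤ R) (hL : 0 ≤ 3 - L * (2 - (1 - a)) * (1 + (1 - a)))
    (h : 0 ≤ (3 - L * (2 - (1 - a)) * (1 + (1 - a))) * (N1r (-c) m (1 - a) - E * Dr m (1 - a)) *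
      (1 - a) * c - 3 * (1 - (1 - a)) * R * Dr m (1 - a))
    {n : ℕ} (hn : 2 ≤ n) : L ≤ muN n a c := by
  refine le_trans ?_ (muN_mono ha0 ha1 hc hn)
  have hb : 0 < 1 - a := by linarith
  have hD := Dr_pos hb m
  have hT := Tl_pos ha0 ha1 hc 0
  have h3 := zz_sign ha1 hc m hm
  rw [heven.neg_one_pow, one_mul, Zs_eq ha1] at h3
  have h6 : c * Real.exp (-c) ≤ c * E := mul_le_mul_of_nonneg_left hE hc.le
  have h7 : c * (N1r (-c) m (1 - a) / Dr m (1 - a)) - c * E ≤ Tl a c 0 := by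
    rw [Tl_zero]; linarith
  unfold muN
  rw [muN_two ha0 ha1, le_div_iff₀ hT]
  have h8 := mul_le_mul_of_nonneg_left h7 hL
  have h9 : 0 ≤ ((3 - L * (2 - (1 - a)) * (1 + (1 - a))) * (N1r (-c) m (1 - a) -
      E * Dr m (1 - a)) * (1 - a) * c - 3 * (1 - (1 - a)) * R * Dr m (1 - a)) /
        ((1 - a) * Dr m (1 - a)) := div_nonneg h (by positivity)
  have e1 : ((3 - L * (2 - (1 - a)) * (1 + (1 - a))) * (N1r (-c) m (1 - a) -
      E * Dr m (1 - a)) * (1 - a) * c - 3 * (1 - (1 - a)) * R * Dr m (1 - a)) /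
        ((1 - a) * Dr m (1 - a)) =
      (3 - L * (2 - (1 - a)) * (1 + (1 - a))) * (c * (N1r (-c) m (1 - a) / Dr m (1 - a)) - c * E) -
        3 * (a / (1 - a)) * R := by
    generalize Dr m (1 - a) = D at *
    generalize N1r (-c) m (1 - a) = N1
    have hb' := hb.ne'
    field_simp
    ring
  rw [e1] at h9
  have h10 : 3 * (a / (1 - a)) * (psi 1 c + psi 0 c) ≤ 3 * (a / (1 - a)) * R :=
    mul_le_mul_of_nonneg_left hR (by positivity)
  have hq : 0 < (1 + a) * (2 - a) := by nlinarith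
  rw [div_mul_eq_mul_div, le_div_iff₀ hq]
  nlinarith [h8, h9, h10]

/-- (mu), lower bound from `n = 3` -/
theorem muN_ge_three {a c L R R' E : ℝ} (ha0 : 0 < a) (ha1 : a < 1) (hc : 0 < c) {m : ℕ}
    (heven : Even m) (hm : c ≤ m + 1) (hE : Real.exp (-c) ≤ E)
    (hR : psi 1 c + psi 0 c ≤ R) (hR' : psi 2 c + psi 1 c ≤ R')
    (hL : 0 ≤ (3 * ((3 - (1 - a)) * (2 + (1 - a))) + 5 * ((2 - (1 - a)) * (1 + (1 - a))) -
      L * ((2 - (1 - a)) * (1 + (1 - a))) * ((3 - (1 - a)) * (2 + (1 - a)))))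
    (h : 0 ≤ (3 * ((3 - (1 - a)) * (2 + (1 - a))) + 5 * ((2 - (1 - a)) * (1 + (1 - a))) -
      L * ((2 - (1 - a)) * (1 + (1 - a))) * ((3 - (1 - a)) * (2 + (1 - a)))) *
      (N1r (-c) m (1 - a) - E * Dr m (1 - a)) * c * (1 - a) -
      (3 * ((3 - (1 - a)) * (2 + (1 - a))) + 5 * ((2 - (1 - a)) * (1 + (1 - a)))) *
      (1 - (1 - a)) * R * Dr m (1 - a) -
      5 * (2 - (1 - a)) ^ 2 * (1 - (1 - a)) * R' * Dr m (1 - a))
    {n : ℕ} (hn : 3 ≤ n) : L ≤ muN n a c := by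
  refine le_trans ?_ (muN_mono ha0 ha1 hc hn)
  have hb : 0 < 1 - a := by linarith
  have hD := Dr_pos hb m
  have hT := Tl_pos ha0 ha1 hc 0
  have h3 := zz_sign ha1 hc m hm
  rw [heven.neg_one_pow, one_mul, Zs_eq ha1] at h3
  have h6 : c * Real.exp (-c) ≤ c * E := mul_le_mul_of_nonneg_left hE hc.le
  have h7 : c * (N1r (-c) m (1 - a) / Dr m (1 - a)) - c * E ≤ Tl a c 0 := by
    rw [Tl_zero]; linarith
  unfold muN
  rw [muN_three ha0 ha1, le_div_iff₀ hT]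
  have hq1 : 0 < (1 + a) * (2 - a) := by nlinarith
  have hq2 : 0 < (2 + a) * (3 - a) := by nlinarith
  have h2a : 0 < 2 - a := by linarith
  have h3a : 0 < 3 - a := by linarith
  have h8 := mul_le_mul_of_nonneg_left h7 hL
  have h9 := div_nonneg h (show 0 ≤ (1 - a) * Dr m (1 - a) by positivity)
  have e1 : ((3 * ((3 - (1 - a)) * (2 + (1 - a))) + 5 * ((2 - (1 - a)) * (1 + (1 - a))) -
      L * ((2 - (1 - a)) * (1 + (1 - a))) * ((3 - (1 - a)) * (2 + (1 - a)))) *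
      (N1r (-c) m (1 - a) - E * Dr m (1 - a)) * c * (1 - a) -
      (3 * ((3 - (1 - a)) * (2 + (1 - a))) + 5 * ((2 - (1 - a)) * (1 + (1 - a)))) *
      (1 - (1 - a)) * R * Dr m (1 - a) -
      5 * (2 - (1 - a)) ^ 2 * (1 - (1 - a)) * R' * Dr m (1 - a)) / ((1 - a) * Dr m (1 - a)) =
      (3 * ((3 - (1 - a)) * (2 + (1 - a))) + 5 * ((2 - (1 - a)) * (1 + (1 - a))) -
      L * ((2 - (1 - a)) * (1 + (1 - a))) * ((3 - (1 - a)) * (2 + (1 - a)))) *
        (c * (N1r (-c) m (1 - a) / Dr m (1 - a)) - c * E) -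
      (3 * ((2 + a) * (3 - a)) + 5 * ((1 + a) * (2 - a))) * (a / (1 - a) * R) -
        5 * (1 + a) ^ 2 * (a / (1 - a) * R') := by
    generalize Dr m (1 - a) = D at *
    generalize N1r (-c) m (1 - a) = N1
    have hb' := hb.ne'
    field_simp
    ring
  rw [e1] at h9
  have h10 : a / (1 - a) * (psi 1 c + psi 0 c) ≤ a / (1 - a) * R :=
    mul_le_mul_of_nonneg_left hR (by positivity)
  have h11 : a / (1 - a) * (psi 2 c + psi 1 c) ≤ a / (1 - a) * R' :=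
    mul_le_mul_of_nonneg_left hR' (by positivity)
  have e2 : 3 / ((1 + a) * (2 - a)) * (Tl a c 0 - a / (1 - a) * (psi 1 c + psi 0 c)) +
      5 / ((2 + a) * (3 - a)) * (Tl a c 0 - a / (1 - a) * (psi 1 c + psi 0 c) -
        a / (1 - a) * ((1 + a) / (2 - a)) * (psi 2 c + psi 1 c)) =
      ((3 * ((2 + a) * (3 - a)) + 5 * ((1 + a) * (2 - a))) *
        (Tl a c 0 - a / (1 - a) * (psi 1 c + psi 0 c)) -
        5 * (1 + a) ^ 2 * (a / (1 - a) * (psi 2 c + psi 1 c))) /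
        (((1 + a) * (2 - a)) * ((2 + a) * (3 - a))) := by
    generalize psi 1 c + psi 0 c = A
    generalize psi 2 c + psi 1 c = B
    generalize Tl a c 0 = T
    have hb' := hb.ne'
    have h1a : (1 + a) ≠ 0 := by positivity
    have h2a' : (2 + a) ≠ 0 := by positivity
    field_simp
    ring
  rw [e2, le_div_iff₀ (by positivity)]
  have h12 : 0 ≤ 3 * ((2 + a) * (3 - a)) + 5 * ((1 + a) * (2 - a)) := by positivity
  have h13 := mul_le_mul_of_nonneg_left h10 h12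
  have h14 := mul_le_mul_of_nonneg_left h11 (show 0 ≤ 5 * (1 + a) ^ 2 by positivity)
  have e3 : (2 - (1 - a)) = 1 + a := by ring
  have e4 : (1 + (1 - a)) = 2 - a := by ring
  have e5 : (3 - (1 - a)) = 2 + a := by ring
  have e6 : (2 + (1 - a)) = 3 - a := by ring
  rw [e3, e4, e5, e6] at h8 h9
  have e7 : (3 * ((2 + a) * (3 - a)) + 5 * ((1 + a) * (2 - a)) -
      L * ((1 + a) * (2 - a)) * ((2 + a) * (3 - a))) * Tl a c 0 =
      (3 * ((2 + a) * (3 - a)) + 5 * ((1 + a) * (2 - a))) * Tl a c 0 -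
      L * Tl a c 0 * (((1 + a) * (2 - a)) * ((2 + a) * (3 - a))) := by ring
  rw [e7] at h8
  have e8 : (3 * ((2 + a) * (3 - a)) + 5 * ((1 + a) * (2 - a))) *
        (Tl a c 0 - a / (1 - a) * (psi 1 c + psi 0 c)) =
      (3 * ((2 + a) * (3 - a)) + 5 * ((1 + a) * (2 - a))) * Tl a c 0 -
      (3 * ((2 + a) * (3 - a)) + 5 * ((1 + a) * (2 - a))) *
        (a / (1 - a) * (psi 1 c + psi 0 c)) := by ring
  rw [e8]
  linarith

theorem F0_le_one {a c : ℝ} (ha0 : 0 < a) (ha1 : a < 1) (hc : 0 < c) : F0 a c ≤ 1 := by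
  have hz := zz_pos ha0 ha1 hc
  unfold F0
  rw [div_le_one hz, Tl_zero]
  have : 0 < c * Real.exp (-c) := by positivity
  linarith

/-! ### Region I: `c = (7 / 4)`, `(1 / 2) ≤ a ≤ (77 / 100)` -/

theorem exp_le_I : Real.exp (-(7 / 4)) ≤ (3475479 / 20000000) := by
  have h := tayE 21 (7 / 4) (by norm_num)
  rw [show (-1 : ℝ) ^ 21 = -1 by norm_num] at h
  refine le_trans (by linarith : Real.exp (-(7 / 4)) ≤ ∑ k ∈ range 21, (-(7 / 4) : ℝ) ^ k / k !) ?_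
  norm_num [Finset.sum_range_succ, Nat.factorial]

theorem le_exp_I : (8688697 / 50000000) ≤ Real.exp (-(7 / 4)) := by
  have h := tayE 20 (7 / 4) (by norm_num)
  rw [show (-1 : ℝ) ^ 20 = 1 by norm_num] at h
  refine le_trans ?_ (by linarith : ∑ k ∈ range 20, (-(7 / 4) : ℝ) ^ k / k ! ≤ Real.exp (-(7 / 4)))
  norm_num [Finset.sum_range_succ, Nat.factorial]

theorem psi01_I : psi 1 (7 / 4) + psi 0 (7 / 4) ≤ (1193421 / 2000000) := by
  have h1 := psi_one (7 / 4)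
  have h2 := le_exp_I
  have e : psi 0 (7 / 4) = (7 / 4) * Real.exp (-(7 / 4)) := rfl
  rw [e]
  norm_num at h1 h2 ⊢
  linarith

theorem certF_I : check ((1 - (Ex.q 7833 10000 + Ex.q 7755 10000 * (Ex.q 1 2 - Ex.z) - Ex.q 7635 10000 * (Ex.q 1 2 - Ex.z) ^ 2)) * N1E (Ex.q (-7) 4) 12 - (Ex.q (3475479) 20000000) * DE 12)
    one one (seg (23) 27 100) ⟨0, 0, 14⟩ T.o = true := by
  decide +kernel

theorem certU_I : check (((Ex.q 7156 10000 + Ex.q 661 1000 * (Ex.q 1 2 - Ex.z) + Ex.q 573 1000 * (Ex.q 1 2 - Ex.z) ^ 2) * Ex.z * (1 - Ex.z) + 1) * (N1E (Ex.q (-7) 4) 12 - (Ex.q (3475479) 20000000) * DE 12) *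
      DE 12 * (Ex.q 12 1 + Ex.z) ^ 2 - Ex.z * (1 - Ex.z) * N2E (Ex.q (-7) 4) 13)
    one one (seg (23) 27 100) ⟨0, 0, 30⟩ T.o = true := by
  decide +kernel

theorem certL_I : check ((Ex.q 3 1 - (Ex.q 6095 10000 + Ex.q 503 1000 * (Ex.q 1 2 - Ex.z) + Ex.q 435 1000 * (Ex.q 1 2 - Ex.z) ^ 2) * (Ex.q 2 1 - Ex.z) * (1 + Ex.z)) * (N1E (Ex.q (-7) 4) 12 - (Ex.q (3475479) 20000000) * DE 12) *
      Ex.z * (Ex.q (7) 4) - Ex.q 3 1 * (1 - Ex.z) * (Ex.q (1193421) 2000000) * DE 12)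
    one one (seg (23) 27 100) ⟨0, 0, 17⟩ T.o = true := by
  decide +kernel

/-- (F), region I -/
theorem F0_I {a : ℝ} (h1 : (1 / 2) ≤ a) (h2 : a ≤ (77 / 100)) :
    7833 / 10000 + 7755 / 10000 * (a - 1 / 2) - 7635 / 10000 * (a - 1 / 2) ^ 2 ≤ F0 a (7 / 4) := by
  have hz : Side.mem (seg (23) 27 100) (1 - a) := by
    constructor
    · norm_num [seg]; linarith
    · intro _; norm_num [seg]; linarith
  have h := check_spec _ _ certF_I one_mem one_mem hz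
  simp only [Ex.ev_add, Ex.ev_sub, Ex.ev_mul, Ex.ev_pow, Ex.ev_q, Ex.ev_z, Ex.ev_one,
    Ex.ev_ofNat, ev_N1E, ev_N2E, ev_DE] at h
  refine F0_ge (m := 12) (E := (3475479 / 20000000)) (by linarith) (by linarith) (by norm_num) (by decide)
    (by norm_num) exp_le_I ?_ ?_
  · nlinarith
  · refine le_of_le_of_eq h ?_
    push_cast
    ring_nf

/-- (mu), upper bound, region I, every `n` -/
theorem muN_le_I {a : ℝ} (h1 : (1 / 2) ≤ a) (h2 : a ≤ (77 / 100)) (n : ℕ) :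
    muN n a (7 / 4) ≤ 7156 / 10000 + 661 / 1000 * (a - 1 / 2) + 573 / 1000 * (a - 1 / 2) ^ 2 := by
  have hz : Side.mem (seg (23) 27 100) (1 - a) := by
    constructor
    · norm_num [seg]; linarith
    · intro _; norm_num [seg]; linarith
  have h := check_spec _ _ certU_I one_mem one_mem hz
  simp only [Ex.ev_add, Ex.ev_sub, Ex.ev_mul, Ex.ev_pow, Ex.ev_q, Ex.ev_z, Ex.ev_one,
    Ex.ev_ofNat, ev_N1E, ev_N2E, ev_DE] at h
  refine muN_le (m := 12) (E := (3475479 / 20000000)) (by linarith) (by linarith) (by norm_num) (by decide)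
    (by norm_num) exp_le_I ?_ ?_ n
  · nlinarith
  · refine le_of_le_of_eq h ?_
    push_cast
    ring_nf

/-- (mu), lower bound, region I, `n ≥ 2` -/
theorem le_muN_I {a : ℝ} (h1 : (1 / 2) ≤ a) (h2 : a ≤ (77 / 100)) {n : ℕ} (hn : 2 ≤ n) :
    6095 / 10000 + 503 / 1000 * (a - 1 / 2) + 435 / 1000 * (a - 1 / 2) ^ 2 ≤ muN n a (7 / 4) := by
  have hz : Side.mem (seg (23) 27 100) (1 - a) := by
    constructor
    · norm_num [seg]; linarith
    · intro _; norm_num [seg]; linarith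
  have h := check_spec _ _ certL_I one_mem one_mem hz
  simp only [Ex.ev_add, Ex.ev_sub, Ex.ev_mul, Ex.ev_pow, Ex.ev_q, Ex.ev_z, Ex.ev_one,
    Ex.ev_ofNat, ev_N1E, ev_N2E, ev_DE] at h
  refine muN_ge_two (m := 12) (E := (3475479 / 20000000)) (R := (1193421 / 2000000)) (by linarith) (by linarith) (by norm_num)
    (by decide) (by norm_num) exp_le_I psi01_I ?_ ?_ hn
  · nlinarith [mul_nonneg (sub_nonneg.2 h1) (sub_nonneg.2 h2)]
  · refine le_of_le_of_eq h ?_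
    push_cast
    ring_nf

/-! ### Region II: `c = 2`, `(19 / 25) ≤ a ≤ (43 / 50)` -/

theorem exp_le_II : Real.exp (-2) ≤ (13533529 / 100000000) := by
  have h := tayE 21 2 (by norm_num)
  rw [show (-1 : ℝ) ^ 21 = -1 by norm_num] at h
  refine le_trans (by linarith : Real.exp (-2) ≤ ∑ k ∈ range 21, (-2 : ℝ) ^ k / k !) ?_
  norm_num [Finset.sum_range_succ, Nat.factorial]

theorem le_exp_II : (1691691 / 12500000) ≤ Real.exp (-2) := by
  have h := tayE 20 2 (by norm_num)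
  rw [show (-1 : ℝ) ^ 20 = 1 by norm_num] at h
  refine le_trans ?_ (by linarith : ∑ k ∈ range 20, (-2 : ℝ) ^ k / k ! ≤ Real.exp (-2))
  norm_num [Finset.sum_range_succ, Nat.factorial]

theorem psi01_II : psi 1 2 + psi 0 2 ≤ (2969971 / 5000000) := by
  have h1 := psi_one 2
  have h2 := le_exp_II
  have e : psi 0 2 = 2 * Real.exp (-2) := rfl
  rw [e]
  norm_num at h1 h2 ⊢
  linarith

theorem certF_II : check ((1 - (1 - Ex.z * (Ex.q 449 2000 - Ex.q 41 100 * (Ex.q 6 25 - Ex.z)))) * N1E (Ex.q (-2) 1) 12 - (Ex.q (13533529) 100000000) * DE 12)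
    one one (seg (14) 10 100) ⟨0, 0, 14⟩ T.o = true := by
  decide +kernel

theorem certU_II : check (((Ex.q 207 200 + Ex.q 11 10 * (Ex.q 6 25 - Ex.z)) * Ex.z * (1 - Ex.z) + 1) * (N1E (Ex.q (-2) 1) 12 - (Ex.q (13533529) 100000000) * DE 12) *
      DE 12 * (Ex.q 12 1 + Ex.z) ^ 2 - Ex.z * (1 - Ex.z) * N2E (Ex.q (-2) 1) 13)
    one one (seg (14) 10 100) ⟨0, 0, 29⟩ T.o = true := by
  decide +kernel

theorem certL_II : check ((Ex.q 3 1 - (Ex.q 41 50 + Ex.q 4 5 * (Ex.q 6 25 - Ex.z)) * (Ex.q 2 1 - Ex.z) * (1 + Ex.z)) * (N1E (Ex.q (-2) 1) 12 - (Ex.q (13533529) 100000000) * DE 12) *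
      Ex.z * (Ex.q (2) 1) - Ex.q 3 1 * (1 - Ex.z) * (Ex.q (2969971) 5000000) * DE 12)
    one one (seg (14) 10 100) ⟨0, 0, 16⟩ T.o = true := by
  decide +kernel

/-- (F), region II -/
theorem F0_II {a : ℝ} (h1 : (19 / 25) ≤ a) (h2 : a ≤ (43 / 50)) :
    1 - (1 - a) * (449 / 2000 - 41 / 100 * (a - 19 / 25)) ≤ F0 a 2 := by
  have hz : Side.mem (seg (14) 10 100) (1 - a) := by
    constructor
    · norm_num [seg]; linarith
    · intro _; norm_num [seg]; linarith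
  have h := check_spec _ _ certF_II one_mem one_mem hz
  simp only [Ex.ev_add, Ex.ev_sub, Ex.ev_mul, Ex.ev_pow, Ex.ev_q, Ex.ev_z, Ex.ev_one,
    Ex.ev_ofNat, ev_N1E, ev_N2E, ev_DE] at h
  refine F0_ge (m := 12) (E := (13533529 / 100000000)) (by linarith) (by linarith) (by norm_num) (by decide)
    (by norm_num) exp_le_II ?_ ?_
  · nlinarith
  · refine le_of_le_of_eq h ?_
    push_cast
    ring_nf

/-- (mu), upper bound, region II, every `n` -/
theorem muN_le_II {a : ℝ} (h1 : (19 / 25) ≤ a) (h2 : a ≤ (43 / 50)) (n : ℕ) :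
    muN n a 2 ≤ 207 / 200 + 11 / 10 * (a - 19 / 25) := by
  have hz : Side.mem (seg (14) 10 100) (1 - a) := by
    constructor
    · norm_num [seg]; linarith
    · intro _; norm_num [seg]; linarith
  have h := check_spec _ _ certU_II one_mem one_mem hz
  simp only [Ex.ev_add, Ex.ev_sub, Ex.ev_mul, Ex.ev_pow, Ex.ev_q, Ex.ev_z, Ex.ev_one,
    Ex.ev_ofNat, ev_N1E, ev_N2E, ev_DE] at h
  refine muN_le (m := 12) (E := (13533529 / 100000000)) (by linarith) (by linarith) (by norm_num) (by decide)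
    (by norm_num) exp_le_II ?_ ?_ n
  · nlinarith
  · refine le_of_le_of_eq h ?_
    push_cast
    ring_nf

/-- (mu), lower bound, region II, `n ≥ 2` -/
theorem le_muN_II {a : ℝ} (h1 : (19 / 25) ≤ a) (h2 : a ≤ (43 / 50)) {n : ℕ} (hn : 2 ≤ n) :
    41 / 50 + 4 / 5 * (a - 19 / 25) ≤ muN n a 2 := by
  have hz : Side.mem (seg (14) 10 100) (1 - a) := by
    constructor
    · norm_num [seg]; linarith
    · intro _; norm_num [seg]; linarith
  have h := check_spec _ _ certL_II one_mem one_mem hz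
  simp only [Ex.ev_add, Ex.ev_sub, Ex.ev_mul, Ex.ev_pow, Ex.ev_q, Ex.ev_z, Ex.ev_one,
    Ex.ev_ofNat, ev_N1E, ev_N2E, ev_DE] at h
  refine muN_ge_two (m := 12) (E := (13533529 / 100000000)) (R := (2969971 / 5000000)) (by linarith) (by linarith) (by norm_num)
    (by decide) (by norm_num) exp_le_II psi01_II ?_ ?_ hn
  · nlinarith [mul_nonneg (sub_nonneg.2 h1) (sub_nonneg.2 h2)]
  · refine le_of_le_of_eq h ?_
    push_cast
    ring_nf

/-! ### Region III: `c = (5 / 2)`, `(43 / 50) ≤ a ≤ (23 / 25)` -/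

theorem exp_le_III : Real.exp (-(5 / 2)) ≤ (16417 / 200000) := by
  have h := tayE 21 (5 / 2) (by norm_num)
  rw [show (-1 : ℝ) ^ 21 = -1 by norm_num] at h
  refine le_trans (by linarith : Real.exp (-(5 / 2)) ≤ ∑ k ∈ range 21, (-(5 / 2) : ℝ) ^ k / k !) ?_
  norm_num [Finset.sum_range_succ, Nat.factorial]

theorem le_exp_III : (8208499 / 100000000) ≤ Real.exp (-(5 / 2)) := by
  have h := tayE 20 (5 / 2) (by norm_num)
  rw [show (-1 : ℝ) ^ 20 = 1 by norm_num] at h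
  refine le_trans ?_ (by linarith : ∑ k ∈ range 20, (-(5 / 2) : ℝ) ^ k / k ! ≤ Real.exp (-(5 / 2)))
  norm_num [Finset.sum_range_succ, Nat.factorial]

theorem psi01_III : psi 1 (5 / 2) + psi 0 (5 / 2) ≤ (5701621 / 10000000) := by
  have h1 := psi_one (5 / 2)
  have h2 := le_exp_III
  have e : psi 0 (5 / 2) = (5 / 2) * Real.exp (-(5 / 2)) := rfl
  rw [e]
  norm_num at h1 h2 ⊢
  linarith

theorem certF_III : check ((1 - (Ex.q 9836 10000 + Ex.q 1345 10000 * (Ex.q 7 50 - Ex.z))) * N1E (Ex.q (-5) 2) 12 - (Ex.q (16417) 200000) * DE 12)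
    one one (seg (8) 6 100) ⟨0, 0, 13⟩ T.o = true := by
  decide +kernel

theorem certU_III : check (((Ex.q 1327 1000 + Ex.q 1316 1000 * (Ex.q 7 50 - Ex.z)) * Ex.z * (1 - Ex.z) + 1) * (N1E (Ex.q (-5) 2) 12 - (Ex.q (16417) 200000) * DE 12) *
      DE 12 * (Ex.q 12 1 + Ex.z) ^ 2 - Ex.z * (1 - Ex.z) * N2E (Ex.q (-5) 2) 13)
    one one (seg (8) 6 100) ⟨0, 0, 29⟩ T.o = true := by
  decide +kernel

theorem certL_III : check ((Ex.q 3 1 - (Ex.q 1018 1000 + Ex.q 87 100 * (Ex.q 7 50 - Ex.z)) * (Ex.q 2 1 - Ex.z) * (1 + Ex.z)) * (N1E (Ex.q (-5) 2) 12 - (Ex.q (16417) 200000) * DE 12) *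
      Ex.z * (Ex.q (5) 2) - Ex.q 3 1 * (1 - Ex.z) * (Ex.q (5701621) 10000000) * DE 12)
    one one (seg (8) 6 100) ⟨0, 0, 16⟩ T.o = true := by
  decide +kernel

/-- (F), region III -/
theorem F0_III {a : ℝ} (h1 : (43 / 50) ≤ a) (h2 : a ≤ (23 / 25)) :
    9836 / 10000 + 1345 / 10000 * (a - 43 / 50) ≤ F0 a (5 / 2) := by
  have hz : Side.mem (seg (8) 6 100) (1 - a) := by
    constructor
    · norm_num [seg]; linarith
    · intro _; norm_num [seg]; linarith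
  have h := check_spec _ _ certF_III one_mem one_mem hz
  simp only [Ex.ev_add, Ex.ev_sub, Ex.ev_mul, Ex.ev_pow, Ex.ev_q, Ex.ev_z, Ex.ev_one,
    Ex.ev_ofNat, ev_N1E, ev_N2E, ev_DE] at h
  refine F0_ge (m := 12) (E := (16417 / 200000)) (by linarith) (by linarith) (by norm_num) (by decide)
    (by norm_num) exp_le_III ?_ ?_
  · nlinarith
  · refine le_of_le_of_eq h ?_
    push_cast
    ring_nf

/-- (mu), upper bound, region III, every `n` -/
theorem muN_le_III {a : ℝ} (h1 : (43 / 50) ≤ a) (h2 : a ≤ (23 / 25)) (n : ℕ) :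
    muN n a (5 / 2) ≤ 1327 / 1000 + 1316 / 1000 * (a - 43 / 50) := by
  have hz : Side.mem (seg (8) 6 100) (1 - a) := by
    constructor
    · norm_num [seg]; linarith
    · intro _; norm_num [seg]; linarith
  have h := check_spec _ _ certU_III one_mem one_mem hz
  simp only [Ex.ev_add, Ex.ev_sub, Ex.ev_mul, Ex.ev_pow, Ex.ev_q, Ex.ev_z, Ex.ev_one,
    Ex.ev_ofNat, ev_N1E, ev_N2E, ev_DE] at h
  refine muN_le (m := 12) (E := (16417 / 200000)) (by linarith) (by linarith) (by norm_num) (by decide)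
    (by norm_num) exp_le_III ?_ ?_ n
  · nlinarith
  · refine le_of_le_of_eq h ?_
    push_cast
    ring_nf

/-- (mu), lower bound, region III, `n ≥ 2` -/
theorem le_muN_III {a : ℝ} (h1 : (43 / 50) ≤ a) (h2 : a ≤ (23 / 25)) {n : ℕ} (hn : 2 ≤ n) :
    1018 / 1000 + 87 / 100 * (a - 43 / 50) ≤ muN n a (5 / 2) := by
  have hz : Side.mem (seg (8) 6 100) (1 - a) := by
    constructor
    · norm_num [seg]; linarith
    · intro _; norm_num [seg]; linarith
  have h := check_spec _ _ certL_III one_mem one_mem hz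
  simp only [Ex.ev_add, Ex.ev_sub, Ex.ev_mul, Ex.ev_pow, Ex.ev_q, Ex.ev_z, Ex.ev_one,
    Ex.ev_ofNat, ev_N1E, ev_N2E, ev_DE] at h
  refine muN_ge_two (m := 12) (E := (16417 / 200000)) (R := (5701621 / 10000000)) (by linarith) (by linarith) (by norm_num)
    (by decide) (by norm_num) exp_le_III psi01_III ?_ ?_ hn
  · nlinarith [mul_nonneg (sub_nonneg.2 h1) (sub_nonneg.2 h2)]
  · refine le_of_le_of_eq h ?_
    push_cast
    ring_nf

/-! ### Region IV: `c = 3`, `(23 / 25) ≤ a ≤ (24 / 25)` -/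

theorem exp_le_IV : Real.exp (-3) ≤ (4978707 / 100000000) := by
  have h := tayE 21 3 (by norm_num)
  rw [show (-1 : ℝ) ^ 21 = -1 by norm_num] at h
  refine le_trans (by linarith : Real.exp (-3) ≤ ∑ k ∈ range 21, (-3 : ℝ) ^ k / k !) ?_
  norm_num [Finset.sum_range_succ, Nat.factorial]

theorem le_exp_IV : (2489353 / 50000000) ≤ Real.exp (-3) := by
  have h := tayE 20 3 (by norm_num)
  rw [show (-1 : ℝ) ^ 20 = 1 by norm_num] at h
  refine le_trans ?_ (by linarith : ∑ k ∈ range 20, (-3 : ℝ) ^ k / k ! ≤ Real.exp (-3))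
  norm_num [Finset.sum_range_succ, Nat.factorial]

theorem psi01_IV : psi 1 3 + psi 0 3 ≤ (1334753 / 2500000) := by
  have h1 := psi_one 3
  have h2 := le_exp_IV
  have e : psi 0 3 = 3 * Real.exp (-3) := rfl
  rw [e]
  norm_num at h1 h2 ⊢
  linarith

theorem psi12_IV : psi 2 3 + psi 1 3 ≤ (5974449 / 10000000) := by
  have h1 := psi_one 3
  have h3 := psi_two 3
  have h2 := exp_le_IV
  norm_num at h1 h2 h3 ⊢
  linarith

theorem certF_IV : check ((1 - (Ex.q 995 1000 + Ex.q 675 10000 * (Ex.q 2 25 - Ex.z))) * N1E (Ex.q (-3) 1) 12 - (Ex.q (4978707) 100000000) * DE 12)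
    one one (seg (4) 4 100) ⟨0, 0, 13⟩ T.o = true := by
  decide +kernel

theorem certU_IV : check (((Ex.q 1575 1000 + Ex.q 3 2 * (Ex.q 2 25 - Ex.z)) * Ex.z * (1 - Ex.z) + 1) * (N1E (Ex.q (-3) 1) 12 - (Ex.q (4978707) 100000000) * DE 12) *
      DE 12 * (Ex.q 12 1 + Ex.z) ^ 2 - Ex.z * (1 - Ex.z) * N2E (Ex.q (-3) 1) 13)
    one one (seg (4) 4 100) ⟨0, 0, 29⟩ T.o = true := by
  decide +kernel

theorem certL_IV : check ((Ex.q 3 1 * ((Ex.q 3 1 - Ex.z) * (Ex.q 2 1 + Ex.z)) + Ex.q 5 1 * ((Ex.q 2 1 - Ex.z) * (1 + Ex.z)) -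
      (Ex.q 147 100 + Ex.q 13 10 * (Ex.q 2 25 - Ex.z)) * ((Ex.q 2 1 - Ex.z) * (1 + Ex.z)) * ((Ex.q 3 1 - Ex.z) * (Ex.q 2 1 + Ex.z))) *
      (N1E (Ex.q (-3) 1) 12 - (Ex.q (4978707) 100000000) * DE 12) * (Ex.q (3) 1) * Ex.z - (Ex.q 3 1 * ((Ex.q 3 1 - Ex.z) * (Ex.q 2 1 + Ex.z)) + Ex.q 5 1 * ((Ex.q 2 1 - Ex.z) * (1 + Ex.z))) *
      (1 - Ex.z) * (Ex.q (1334753) 2500000) * DE 12 - Ex.q 5 1 * (Ex.q 2 1 - Ex.z) ^ 2 * (1 - Ex.z) * (Ex.q (5974449) 10000000) * DE 12)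
    one one (seg (4) 4 100) ⟨0, 0, 18⟩ T.o = true := by
  decide +kernel

theorem certH_IV : check (Ex.q 3 1 * ((Ex.q 3 1 - Ex.z) * (Ex.q 2 1 + Ex.z)) + Ex.q 5 1 * ((Ex.q 2 1 - Ex.z) * (1 + Ex.z)) -
      (Ex.q 147 100 + Ex.q 13 10 * (Ex.q 2 25 - Ex.z)) * ((Ex.q 2 1 - Ex.z) * (1 + Ex.z)) * ((Ex.q 3 1 - Ex.z) * (Ex.q 2 1 + Ex.z)))
    one one (seg (4) 4 100) ⟨0, 0, 5⟩ T.o = true := by
  decide +kernel

/-- (F), region IV -/
theorem F0_IV {a : ℝ} (h1 : (23 / 25) ≤ a) (h2 : a ≤ (24 / 25)) :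
    995 / 1000 + 675 / 10000 * (a - 23 / 25) ≤ F0 a 3 := by
  have hz : Side.mem (seg (4) 4 100) (1 - a) := by
    constructor
    · norm_num [seg]; linarith
    · intro _; norm_num [seg]; linarith
  have h := check_spec _ _ certF_IV one_mem one_mem hz
  simp only [Ex.ev_add, Ex.ev_sub, Ex.ev_mul, Ex.ev_pow, Ex.ev_q, Ex.ev_z, Ex.ev_one,
    Ex.ev_ofNat, ev_N1E, ev_N2E, ev_DE] at h
  refine F0_ge (m := 12) (E := (4978707 / 100000000)) (by linarith) (by linarith) (by norm_num) (by decide)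
    (by norm_num) exp_le_IV ?_ ?_
  · nlinarith
  · refine le_of_le_of_eq h ?_
    push_cast
    ring_nf

/-- (mu), upper bound, region IV, every `n` -/
theorem muN_le_IV {a : ℝ} (h1 : (23 / 25) ≤ a) (h2 : a ≤ (24 / 25)) (n : ℕ) :
    muN n a 3 ≤ 1575 / 1000 + 3 / 2 * (a - 23 / 25) := by
  have hz : Side.mem (seg (4) 4 100) (1 - a) := by
    constructor
    · norm_num [seg]; linarith
    · intro _; norm_num [seg]; linarith
  have h := check_spec _ _ certU_IV one_mem one_mem hz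
  simp only [Ex.ev_add, Ex.ev_sub, Ex.ev_mul, Ex.ev_pow, Ex.ev_q, Ex.ev_z, Ex.ev_one,
    Ex.ev_ofNat, ev_N1E, ev_N2E, ev_DE] at h
  refine muN_le (m := 12) (E := (4978707 / 100000000)) (by linarith) (by linarith) (by norm_num) (by decide)
    (by norm_num) exp_le_IV ?_ ?_ n
  · nlinarith
  · refine le_of_le_of_eq h ?_
    push_cast
    ring_nf

/-- (mu), lower bound, region IV, `n ≥ 3` -/
theorem le_muN_IV {a : ℝ} (h1 : (23 / 25) ≤ a) (h2 : a ≤ (24 / 25)) {n : ℕ} (hn : 3 ≤ n) :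
    147 / 100 + 13 / 10 * (a - 23 / 25) ≤ muN n a 3 := by
  have hz : Side.mem (seg (4) 4 100) (1 - a) := by
    constructor
    · norm_num [seg]; linarith
    · intro _; norm_num [seg]; linarith
  have h := check_spec _ _ certL_IV one_mem one_mem hz
  simp only [Ex.ev_add, Ex.ev_sub, Ex.ev_mul, Ex.ev_pow, Ex.ev_q, Ex.ev_z, Ex.ev_one,
    Ex.ev_ofNat, ev_N1E, ev_N2E, ev_DE] at h
  refine muN_ge_three (m := 12) (E := (4978707 / 100000000)) (R := (1334753 / 2500000)) (R' := (5974449 / 10000000)) (by linarith) (by linarith)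
    (by norm_num) (by decide) (by norm_num) exp_le_IV psi01_IV psi12_IV ?_ ?_ hn
  · have h' := check_spec _ _ certH_IV one_mem one_mem hz
    simp only [Ex.ev_add, Ex.ev_sub, Ex.ev_mul, Ex.ev_q, Ex.ev_z, Ex.ev_one] at h'
    refine le_of_le_of_eq h' ?_
    push_cast
    ring_nf
  · refine le_of_le_of_eq h ?_
    push_cast
    ring_nf

end Pool.Agent.Lib.QNL.Box20
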