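import Pool.Agent.Lib.QNL.Box20

/-!
# QNL, group N: the boxes `(F)` and `(mu)` of the frozen table (v3), regions I - IV, all `n ≥ 2`
-/

set_option autoImplicit false

open Finset
open scoped Nat

namespace Pool.Agent.Lib.QNL.Box20v3

open Pool.Agent.Lib.QNL.Wts73
open Pool.Agent.Lib.QNL.Lam20
open Pool.Agent.Lib.QNL.PolyPos
open Pool.Agent.Lib.QNL.Box20
open Pool.Agent.Lib.QNL.CG (F0 muN)

theorem certF_I : check ((1 - (Ex.q 7832 10000 + Ex.q 7770 10000 * (Ex.q 1 2 - Ex.z) - Ex.q 7711 10000 * (Ex.q 1 2 - Ex.z) ^ 2)) * N1E (Ex.q (-7) 4) 12 - (Ex.q (3475479) 20000000) * DE 12)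
    one one (seg 24 26 100) ⟨0, 0, 14⟩ T.o = true := by
  decide +kernel

theorem certU_I : check (((Ex.q 7150 10000 + Ex.q 6620 10000 * (Ex.q 1 2 - Ex.z) + Ex.q 5670 10000 * (Ex.q 1 2 - Ex.z) ^ 2) * Ex.z * (1 - Ex.z) + 1) * (N1E (Ex.q (-7) 4) 12 - (Ex.q (3475479) 20000000) * DE 12) *
      DE 12 * (Ex.q 12 1 + Ex.z) ^ 2 - Ex.z * (1 - Ex.z) * N2E (Ex.q (-7) 4) 13)
    one one (seg 24 26 100) ⟨0, 0, 30⟩ T.o = true := by
  decide +kernel

theorem certL_I : check ((Ex.q 3 1 - (Ex.q 6090 10000 + Ex.q 5040 10000 * (Ex.q 1 2 - Ex.z) + Ex.q 4310 10000 * (Ex.q 1 2 - Ex.z) ^ 2) * (Ex.q 2 1 - Ex.z) * (1 + Ex.z)) *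
      (N1E (Ex.q (-7) 4) 12 - (Ex.q (3475479) 20000000) * DE 12) * Ex.z * (Ex.q (7) 4) - Ex.q 3 1 * (1 - Ex.z) * (Ex.q (1193421) 2000000) * DE 12)
    one one (seg 24 26 100) ⟨0, 0, 17⟩ T.o = true := by
  decide +kernel

/-- (F), region I: `c = (7 / 4)` -/
theorem F0_I {a : ℝ} (h1 : 1 / 2 ≤ a) (h2 : a ≤ 19 / 25) :
    7832 / 10000 + 7770 / 10000 * (a - 1 / 2) - 7711 / 10000 * (a - 1 / 2) ^ 2 ≤ F0 a (7 / 4) := by
  have hz : Side.mem (seg 24 26 100) (1 - a) := by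
    constructor
    · norm_num [seg]; linarith
    · intro _; norm_num [seg]; linarith
  have h := check_spec _ _ certF_I one_mem one_mem hz
  simp only [Ex.ev_add, Ex.ev_sub, Ex.ev_mul, Ex.ev_pow, Ex.ev_q, Ex.ev_z, Ex.ev_one, ev_N1E,
    ev_DE] at h
  refine F0_ge (m := 12) (E := (3475479 / 20000000)) (by linarith) (by linarith) (by norm_num) (by decide)
    (by norm_num) exp_le_I ?_ ?_
  · nlinarith
  · refine le_of_le_of_eq h ?_
    push_cast
    ring_nf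

/-- (mu), upper bound, region I, every `n` -/
theorem muN_le_I {a : ℝ} (h1 : 1 / 2 ≤ a) (h2 : a ≤ 19 / 25) (n : ℕ) :
    muN n a (7 / 4) ≤ 7150 / 10000 + 6620 / 10000 * (a - 1 / 2) + 5670 / 10000 * (a - 1 / 2) ^ 2 := by
  have hz : Side.mem (seg 24 26 100) (1 - a) := by
    constructor
    · norm_num [seg]; linarith
    · intro _; norm_num [seg]; linarith
  have h := check_spec _ _ certU_I one_mem one_mem hz
  simp only [Ex.ev_add, Ex.ev_sub, Ex.ev_mul, Ex.ev_pow, Ex.ev_q, Ex.ev_z, Ex.ev_one, ev_N1E,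
    ev_N2E, ev_DE] at h
  refine muN_le (m := 12) (E := (3475479 / 20000000)) (by linarith) (by linarith) (by norm_num) (by decide)
    (by norm_num) exp_le_I ?_ ?_ n
  · nlinarith
  · refine le_of_le_of_eq h ?_
    push_cast
    ring_nf

/-- (mu), lower bound, region I, `n ≥ 2` -/
theorem le_muN_I {a : ℝ} (h1 : 1 / 2 ≤ a) (h2 : a ≤ 19 / 25) {n : ℕ} (hn : 2 ≤ n) :
    6090 / 10000 + 5040 / 10000 * (a - 1 / 2) + 4310 / 10000 * (a - 1 / 2) ^ 2 ≤ muN n a (7 / 4) := by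
  have hz : Side.mem (seg 24 26 100) (1 - a) := by
    constructor
    · norm_num [seg]; linarith
    · intro _; norm_num [seg]; linarith
  have h := check_spec _ _ certL_I one_mem one_mem hz
  simp only [Ex.ev_add, Ex.ev_sub, Ex.ev_mul, Ex.ev_pow, Ex.ev_q, Ex.ev_z, Ex.ev_one, ev_N1E,
    ev_DE] at h
  refine muN_ge_two (m := 12) (E := (3475479 / 20000000)) (R := (1193421 / 2000000)) (by linarith) (by linarith) (by norm_num)
    (by decide) (by norm_num) exp_le_I psi01_I ?_ ?_ hn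
  · nlinarith [mul_nonneg (sub_nonneg.2 h1) (sub_nonneg.2 h2)]
  · refine le_of_le_of_eq h ?_
    push_cast
    ring_nf

theorem certF_II : check ((1 - (Ex.q 9463 10000 + Ex.q 3269 10000 * (Ex.q 6 25 - Ex.z) - Ex.q 4734 10000 * (Ex.q 6 25 - Ex.z) ^ 2)) * N1E (Ex.q (-2) 1) 12 - (Ex.q (13533529) 100000000) * DE 12)
    one one (seg 14 10 100) ⟨0, 0, 14⟩ T.o = true := by
  decide +kernel

theorem certU_II : check (((Ex.q 10290 10000 + Ex.q 10210 10000 * (Ex.q 6 25 - Ex.z) + Ex.q 8170 10000 * (Ex.q 6 25 - Ex.z) ^ 2) * Ex.z * (1 - Ex.z) + 1) * (N1E (Ex.q (-2) 1) 12 - (Ex.q (13533529) 100000000) * DE 12) *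
      DE 12 * (Ex.q 12 1 + Ex.z) ^ 2 - Ex.z * (1 - Ex.z) * N2E (Ex.q (-2) 1) 13)
    one one (seg 14 10 100) ⟨0, 0, 30⟩ T.o = true := by
  decide +kernel

theorem certL_II : check ((Ex.q 3 1 - (Ex.q 8330 10000 + Ex.q 7480 10000 * (Ex.q 6 25 - Ex.z) + Ex.q 6250 10000 * (Ex.q 6 25 - Ex.z) ^ 2) * (Ex.q 2 1 - Ex.z) * (1 + Ex.z)) *
      (N1E (Ex.q (-2) 1) 12 - (Ex.q (13533529) 100000000) * DE 12) * Ex.z * (Ex.q (2) 1) - Ex.q 3 1 * (1 - Ex.z) * (Ex.q (2969971) 5000000) * DE 12)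
    one one (seg 14 10 100) ⟨0, 0, 17⟩ T.o = true := by
  decide +kernel

/-- (F), region II: `c = 2` -/
theorem F0_II {a : ℝ} (h1 : 19 / 25 ≤ a) (h2 : a ≤ 43 / 50) :
    9463 / 10000 + 3269 / 10000 * (a - 19 / 25) - 4734 / 10000 * (a - 19 / 25) ^ 2 ≤ F0 a 2 := by
  have hz : Side.mem (seg 14 10 100) (1 - a) := by
    constructor
    · norm_num [seg]; linarith
    · intro _; norm_num [seg]; linarith
  have h := check_spec _ _ certF_II one_mem one_mem hz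
  simp only [Ex.ev_add, Ex.ev_sub, Ex.ev_mul, Ex.ev_pow, Ex.ev_q, Ex.ev_z, Ex.ev_one, ev_N1E,
    ev_DE] at h
  refine F0_ge (m := 12) (E := (13533529 / 100000000)) (by linarith) (by linarith) (by norm_num) (by decide)
    (by norm_num) exp_le_II ?_ ?_
  · nlinarith
  · refine le_of_le_of_eq h ?_
    push_cast
    ring_nf

/-- (mu), upper bound, region II, every `n` -/
theorem muN_le_II {a : ℝ} (h1 : 19 / 25 ≤ a) (h2 : a ≤ 43 / 50) (n : ℕ) :
    muN n a 2 ≤ 10290 / 10000 + 10210 / 10000 * (a - 19 / 25) + 8170 / 10000 * (a - 19 / 25) ^ 2 := by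
  have hz : Side.mem (seg 14 10 100) (1 - a) := by
    constructor
    · norm_num [seg]; linarith
    · intro _; norm_num [seg]; linarith
  have h := check_spec _ _ certU_II one_mem one_mem hz
  simp only [Ex.ev_add, Ex.ev_sub, Ex.ev_mul, Ex.ev_pow, Ex.ev_q, Ex.ev_z, Ex.ev_one, ev_N1E,
    ev_N2E, ev_DE] at h
  refine muN_le (m := 12) (E := (13533529 / 100000000)) (by linarith) (by linarith) (by norm_num) (by decide)
    (by norm_num) exp_le_II ?_ ?_ n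
  · nlinarith
  · refine le_of_le_of_eq h ?_
    push_cast
    ring_nf

/-- (mu), lower bound, region II, `n ≥ 2` -/
theorem le_muN_II {a : ℝ} (h1 : 19 / 25 ≤ a) (h2 : a ≤ 43 / 50) {n : ℕ} (hn : 2 ≤ n) :
    8330 / 10000 + 7480 / 10000 * (a - 19 / 25) + 6250 / 10000 * (a - 19 / 25) ^ 2 ≤ muN n a 2 := by
  have hz : Side.mem (seg 14 10 100) (1 - a) := by
    constructor
    · norm_num [seg]; linarith
    · intro _; norm_num [seg]; linarith
  have h := check_spec _ _ certL_II one_mem one_mem hz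
  simp only [Ex.ev_add, Ex.ev_sub, Ex.ev_mul, Ex.ev_pow, Ex.ev_q, Ex.ev_z, Ex.ev_one, ev_N1E,
    ev_DE] at h
  refine muN_ge_two (m := 12) (E := (13533529 / 100000000)) (R := (2969971 / 5000000)) (by linarith) (by linarith) (by norm_num)
    (by decide) (by norm_num) exp_le_II psi01_II ?_ ?_ hn
  · nlinarith [mul_nonneg (sub_nonneg.2 h1) (sub_nonneg.2 h2)]
  · refine le_of_le_of_eq h ?_
    push_cast
    ring_nf

theorem certF_III : check ((1 - (Ex.q 9838 10000 + Ex.q 1511 10000 * (Ex.q 7 50 - Ex.z) - Ex.q 2754 10000 * (Ex.q 7 50 - Ex.z) ^ 2)) * N1E (Ex.q (-5) 2) 12 - (Ex.q (16417) 200000) * DE 12)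
    one one (seg 7 7 100) ⟨0, 0, 14⟩ T.o = true := by
  decide +kernel

theorem certU_III : check (((Ex.q 13320 10000 + Ex.q 12570 10000 * (Ex.q 7 50 - Ex.z) + Ex.q 9750 10000 * (Ex.q 7 50 - Ex.z) ^ 2) * Ex.z * (1 - Ex.z) + 1) * (N1E (Ex.q (-5) 2) 12 - (Ex.q (16417) 200000) * DE 12) *
      DE 12 * (Ex.q 12 1 + Ex.z) ^ 2 - Ex.z * (1 - Ex.z) * N2E (Ex.q (-5) 2) 13)
    one one (seg 7 7 100) ⟨0, 0, 30⟩ T.o = true := by
  decide +kernel

theorem certL_III : check ((Ex.q 3 1 - (Ex.q 10170 10000 + Ex.q 8650 10000 * (Ex.q 7 50 - Ex.z) + Ex.q 7450 10000 * (Ex.q 7 50 - Ex.z) ^ 2) * (Ex.q 2 1 - Ex.z) * (1 + Ex.z)) *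
      (N1E (Ex.q (-5) 2) 12 - (Ex.q (16417) 200000) * DE 12) * Ex.z * (Ex.q (5) 2) - Ex.q 3 1 * (1 - Ex.z) * (Ex.q (5701621) 10000000) * DE 12)
    one one (seg 7 7 100) ⟨0, 0, 17⟩ T.o = true := by
  decide +kernel

/-- (F), region III: `c = (5 / 2)` -/
theorem F0_III {a : ℝ} (h1 : 43 / 50 ≤ a) (h2 : a ≤ 93 / 100) :
    9838 / 10000 + 1511 / 10000 * (a - 43 / 50) - 2754 / 10000 * (a - 43 / 50) ^ 2 ≤ F0 a (5 / 2) := by
  have hz : Side.mem (seg 7 7 100) (1 - a) := by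
    constructor
    · norm_num [seg]; linarith
    · intro _; norm_num [seg]; linarith
  have h := check_spec _ _ certF_III one_mem one_mem hz
  simp only [Ex.ev_add, Ex.ev_sub, Ex.ev_mul, Ex.ev_pow, Ex.ev_q, Ex.ev_z, Ex.ev_one, ev_N1E,
    ev_DE] at h
  refine F0_ge (m := 12) (E := (16417 / 200000)) (by linarith) (by linarith) (by norm_num) (by decide)
    (by norm_num) exp_le_III ?_ ?_
  · nlinarith
  · refine le_of_le_of_eq h ?_
    push_cast
    ring_nf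

/-- (mu), upper bound, region III, every `n` -/
theorem muN_le_III {a : ℝ} (h1 : 43 / 50 ≤ a) (h2 : a ≤ 93 / 100) (n : ℕ) :
    muN n a (5 / 2) ≤ 13320 / 10000 + 12570 / 10000 * (a - 43 / 50) + 9750 / 10000 * (a - 43 / 50) ^ 2 := by
  have hz : Side.mem (seg 7 7 100) (1 - a) := by
    constructor
    · norm_num [seg]; linarith
    · intro _; norm_num [seg]; linarith
  have h := check_spec _ _ certU_III one_mem one_mem hz
  simp only [Ex.ev_add, Ex.ev_sub, Ex.ev_mul, Ex.ev_pow, Ex.ev_q, Ex.ev_z, Ex.ev_one, ev_N1E,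
    ev_N2E, ev_DE] at h
  refine muN_le (m := 12) (E := (16417 / 200000)) (by linarith) (by linarith) (by norm_num) (by decide)
    (by norm_num) exp_le_III ?_ ?_ n
  · nlinarith
  · refine le_of_le_of_eq h ?_
    push_cast
    ring_nf

/-- (mu), lower bound, region III, `n ≥ 2` -/
theorem le_muN_III {a : ℝ} (h1 : 43 / 50 ≤ a) (h2 : a ≤ 93 / 100) {n : ℕ} (hn : 2 ≤ n) :
    10170 / 10000 + 8650 / 10000 * (a - 43 / 50) + 7450 / 10000 * (a - 43 / 50) ^ 2 ≤ muN n a (5 / 2) := by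
  have hz : Side.mem (seg 7 7 100) (1 - a) := by
    constructor
    · norm_num [seg]; linarith
    · intro _; norm_num [seg]; linarith
  have h := check_spec _ _ certL_III one_mem one_mem hz
  simp only [Ex.ev_add, Ex.ev_sub, Ex.ev_mul, Ex.ev_pow, Ex.ev_q, Ex.ev_z, Ex.ev_one, ev_N1E,
    ev_DE] at h
  refine muN_ge_two (m := 12) (E := (16417 / 200000)) (R := (5701621 / 10000000)) (by linarith) (by linarith) (by norm_num)
    (by decide) (by norm_num) exp_le_III psi01_III ?_ ?_ hn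
  · nlinarith [mul_nonneg (sub_nonneg.2 h1) (sub_nonneg.2 h2)]
  · refine le_of_le_of_eq h ?_
    push_cast
    ring_nf

theorem certF_IV : check ((1 - (Ex.q 9957 10000 + Ex.q 705 10000 * (Ex.q 7 100 - Ex.z) - Ex.q 1589 10000 * (Ex.q 7 100 - Ex.z) ^ 2)) * N1E (Ex.q (-3) 1) 12 - (Ex.q (4978707) 100000000) * DE 12)
    one one (seg 4 3 100) ⟨0, 0, 14⟩ T.o = true := by
  decide +kernel

theorem certU_IV : check (((Ex.q 15950 10000 + Ex.q 14360 10000 * (Ex.q 7 100 - Ex.z) + Ex.q 10810 10000 * (Ex.q 7 100 - Ex.z) ^ 2) * Ex.z * (1 - Ex.z) + 1) * (N1E (Ex.q (-3) 1) 12 - (Ex.q (4978707) 100000000) * DE 12) *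
      DE 12 * (Ex.q 12 1 + Ex.z) ^ 2 - Ex.z * (1 - Ex.z) * N2E (Ex.q (-3) 1) 13)
    one one (seg 4 3 100) ⟨0, 0, 30⟩ T.o = true := by
  decide +kernel

theorem certL_IV : check ((Ex.q 3 1 - (Ex.q 11590 10000 + Ex.q 9430 10000 * (Ex.q 7 100 - Ex.z) + Ex.q 8360 10000 * (Ex.q 7 100 - Ex.z) ^ 2) * (Ex.q 2 1 - Ex.z) * (1 + Ex.z)) *
      (N1E (Ex.q (-3) 1) 12 - (Ex.q (4978707) 100000000) * DE 12) * Ex.z * (Ex.q (3) 1) - Ex.q 3 1 * (1 - Ex.z) * (Ex.q (1334753) 2500000) * DE 12)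
    one one (seg 4 3 100) ⟨0, 0, 17⟩ T.o = true := by
  decide +kernel

/-- (F), region IV: `c = 3` -/
theorem F0_IV {a : ℝ} (h1 : 93 / 100 ≤ a) (h2 : a ≤ 24 / 25) :
    9957 / 10000 + 705 / 10000 * (a - 93 / 100) - 1589 / 10000 * (a - 93 / 100) ^ 2 ≤ F0 a 3 := by
  have hz : Side.mem (seg 4 3 100) (1 - a) := by
    constructor
    · norm_num [seg]; linarith
    · intro _; norm_num [seg]; linarith
  have h := check_spec _ _ certF_IV one_mem one_mem hz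
  simp only [Ex.ev_add, Ex.ev_sub, Ex.ev_mul, Ex.ev_pow, Ex.ev_q, Ex.ev_z, Ex.ev_one, ev_N1E,
    ev_DE] at h
  refine F0_ge (m := 12) (E := (4978707 / 100000000)) (by linarith) (by linarith) (by norm_num) (by decide)
    (by norm_num) exp_le_IV ?_ ?_
  · nlinarith
  · refine le_of_le_of_eq h ?_
    push_cast
    ring_nf

/-- (mu), upper bound, region IV, every `n` -/
theorem muN_le_IV {a : ℝ} (h1 : 93 / 100 ≤ a) (h2 : a ≤ 24 / 25) (n : ℕ) :
    muN n a 3 ≤ 15950 / 10000 + 14360 / 10000 * (a - 93 / 100) + 10810 / 10000 * (a - 93 / 100) ^ 2 := by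
  have hz : Side.mem (seg 4 3 100) (1 - a) := by
    constructor
    · norm_num [seg]; linarith
    · intro _; norm_num [seg]; linarith
  have h := check_spec _ _ certU_IV one_mem one_mem hz
  simp only [Ex.ev_add, Ex.ev_sub, Ex.ev_mul, Ex.ev_pow, Ex.ev_q, Ex.ev_z, Ex.ev_one, ev_N1E,
    ev_N2E, ev_DE] at h
  refine muN_le (m := 12) (E := (4978707 / 100000000)) (by linarith) (by linarith) (by norm_num) (by decide)
    (by norm_num) exp_le_IV ?_ ?_ n
  · nlinarith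
  · refine le_of_le_of_eq h ?_
    push_cast
    ring_nf

/-- (mu), lower bound, region IV, `n ≥ 2` -/
theorem le_muN_IV {a : ℝ} (h1 : 93 / 100 ≤ a) (h2 : a ≤ 24 / 25) {n : ℕ} (hn : 2 ≤ n) :
    11590 / 10000 + 9430 / 10000 * (a - 93 / 100) + 8360 / 10000 * (a - 93 / 100) ^ 2 ≤ muN n a 3 := by
  have hz : Side.mem (seg 4 3 100) (1 - a) := by
    constructor
    · norm_num [seg]; linarith
    · intro _; norm_num [seg]; linarith
  have h := check_spec _ _ certL_IV one_mem one_mem hz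
  simp only [Ex.ev_add, Ex.ev_sub, Ex.ev_mul, Ex.ev_pow, Ex.ev_q, Ex.ev_z, Ex.ev_one, ev_N1E,
    ev_DE] at h
  refine muN_ge_two (m := 12) (E := (4978707 / 100000000)) (R := (1334753 / 2500000)) (by linarith) (by linarith) (by norm_num)
    (by decide) (by norm_num) exp_le_IV psi01_IV ?_ ?_ hn
  · nlinarith [mul_nonneg (sub_nonneg.2 h1) (sub_nonneg.2 h2)]
  · refine le_of_le_of_eq h ?_
    push_cast
    ring_nf

end Pool.Agent.Lib.QNL.Box20v3
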