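import Pool.Agent.Lib.QNL.Wts73

/-!
# QNL, group N: an upper bound of `λ_n = ∑_(k<n) M_k F_k`, uniform in `n`

For the shares of `Wts73` (exponential family, truncation at `n`):
`∑_(k<n) M_k(a) T_k(a) ≤ ∂_a z(a)`, `M_k = (2k+1)/((k+a)(k+1-a))`.
-/

set_option autoImplicit false

open MeasureTheory Set Filter Topology Finset
open scoped Nat

namespace Pool.Agent.Lib.QNL.Lam20

open Pool.Agent.Lib.QNL.Wts73

/-- `M_k = 1/(k+a) + 1/(k+1-a)` -/
noncomputable def Mk (a : ℝ) (k : ℕ) : ℝ := (2 * k + 1) / ((k + a) * (k + 1 - a))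

/-- `S_n = ∑_(k<n) M_k` -/
noncomputable def Sk (a : ℝ) (n : ℕ) : ℝ := ∑ k ∈ range n, Mk a k

theorem Mk_pos {a : ℝ} (ha0 : 0 < a) (ha1 : a < 1) (k : ℕ) : 0 < Mk a k := by
  have h : (0 : ℝ) ≤ k := Nat.cast_nonneg k
  have h1 : 0 < (k : ℝ) + 1 - a := by linarith
  unfold Mk
  positivity

theorem Sk_nonneg {a : ℝ} (ha0 : 0 < a) (ha1 : a < 1) (n : ℕ) : 0 ≤ Sk a n :=
  sum_nonneg fun k _ => (Mk_pos ha0 ha1 k).le

theorem Sk_succ (a : ℝ) (n : ℕ) : Sk a (n + 1) = Sk a n + Mk a n := sum_range_succ _ _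

/-- `C_n(a') ≥ C_n(a) (1 + (a'-a) S_n(a))` -/
theorem CC_ratio {a a' : ℝ} (ha0 : 0 < a) (haa : a ≤ a') (ha1 : a' < 1) (n : ℕ) :
    CC a n * (1 + (a' - a) * Sk a n) ≤ CC a' n := by
  induction n with
  | zero => simp [CC, Sk]
  | succ n ih =>
    have ha1' : a < 1 := haa.trans_lt ha1
    have hn : (0 : ℝ) ≤ n := Nat.cast_nonneg n
    have h1 : 0 < (n : ℝ) + 1 - a := by linarith
    have h2 : 0 < (n : ℝ) + 1 - a' := by linarith
    have hC := CC_pos ha0 ha1' n
    have hC' := CC_pos (ha0.trans_le haa) ha1 n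
    have hS := Sk_nonneg ha0 ha1' n
    have hM := Mk_pos ha0 ha1' n
    have hδ : 0 ≤ a' - a := sub_nonneg.2 haa
    have hf : ((n : ℝ) + a) / (n + 1 - a) * (1 + (a' - a) * Mk a n) ≤ (n + a') / (n + 1 - a') := by
      have e : ((n : ℝ) + a) / (n + 1 - a) * (1 + (a' - a) * Mk a n) =
          (n + a) / (n + 1 - a) + (a' - a) * (2 * n + 1) / (n + 1 - a) ^ 2 := by
        unfold Mk
        have : (n : ℝ) + a ≠ 0 := by positivity
        field_simp
      have e2 : ((n : ℝ) + a') / (n + 1 - a') =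
          (n + a) / (n + 1 - a) + (a' - a) * (2 * n + 1) / ((n + 1 - a) * (n + 1 - a')) := by
        field_simp
        ring
      rw [e, e2]
      have h3 : (n + 1 - a) * (n + 1 - a') ≤ ((n : ℝ) + 1 - a) ^ 2 := by
        rw [sq]
        exact mul_le_mul_of_nonneg_left (by linarith) h1.le
      have h4 : (a' - a) * (2 * (n : ℝ) + 1) / (n + 1 - a) ^ 2 ≤
          (a' - a) * (2 * n + 1) / ((n + 1 - a) * (n + 1 - a')) := by
        gcongr
      linarith
    have hf0 : 0 ≤ ((n : ℝ) + a) / (n + 1 - a) := by positivity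
    calc CC a (n + 1) * (1 + (a' - a) * Sk a (n + 1))
        ≤ (CC a n * (1 + (a' - a) * Sk a n)) *
          (((n : ℝ) + a) / (n + 1 - a) * (1 + (a' - a) * Mk a n)) := by
          rw [Sk_succ]
          simp only [CC]
          have h5 : 0 ≤ CC a n * (((n : ℝ) + a) / (n + 1 - a)) *
              ((a' - a) * Sk a n * ((a' - a) * Mk a n)) := by positivity
          nlinarith [h5]
      _ ≤ CC a' n * ((n + a') / (n + 1 - a')) := by
          apply mul_le_mul ih hf _ hC'.le
          positivity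
      _ = CC a' (n + 1) := rfl

/-! ### The remainder for two parameters -/

theorem JJ_le_one (α β : ℕ) {w : ℝ} (hw : 0 ≤ w) : JJ α β w ≤ 1 := by
  unfold JJ
  have h : ∫ v in (0 : ℝ)..1, (1 : ℝ) = 1 := by simp
  refine le_trans (intervalIntegral.integral_mono_on (g := fun _ => (1 : ℝ)) zero_le_one ?_ ?_
    fun v hv => ?_) h.le
  · exact (cont_JJ α β w).intervalIntegrable _ _
  · exact intervalIntegrable_const
  · have h1 : v ^ α ≤ 1 := pow_le_one₀ hv.1 hv.2
    have h2 : (1 - v) ^ β ≤ 1 := pow_le_one₀ (by linarith [hv.2]) (by linarith [hv.1])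
    have h3 : Real.exp (-(w * v)) ≤ 1 := by
      rw [Real.exp_le_one_iff]
      nlinarith [hv.1, mul_nonneg hw hv.1]
    have h4 : 0 ≤ v ^ α := pow_nonneg hv.1 _
    have h5 : 0 ≤ (1 - v) ^ β := pow_nonneg (by linarith [hv.2]) _
    have h6 : v ^ α * (1 - v) ^ β ≤ 1 := mul_le_one₀ h1 h5 h2
    exact mul_le_one₀ h6 (Real.exp_pos _).le h3

theorem XX_le (n : ℕ) {w : ℝ} (hw : 0 < w) (hw1 : w ≤ 1) : XX n w ≤ w ^ 2 := by
  cases n with
  | zero =>
    rw [XX_zero]
    have : Real.exp (-w) ≤ 1 := by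
      rw [Real.exp_le_one_iff]; linarith
    exact mul_le_of_le_one_right (sq_nonneg w) this
  | succ j =>
    rw [XX_succ]
    have h1 := JJ_le_one (j + 3) j hw.le
    have h0 := (JJ_pos (j + 3) j w).le
    have h2 : (1 : ℝ) ≤ j ! := by exact_mod_cast Nat.one_le_iff_ne_zero.2 (Nat.factorial_ne_zero j)
    have h3 : w ^ (j + 3) / (j ! : ℝ) ≤ w ^ 2 := by
      calc w ^ (j + 3) / (j ! : ℝ) ≤ w ^ (j + 3) := div_le_self (by positivity) h2
        _ = w ^ 2 * w ^ (j + 1) := by ring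
        _ ≤ w ^ 2 * 1 := by
          apply mul_le_mul_of_nonneg_left (pow_le_one₀ hw.le hw1) (by positivity)
        _ = w ^ 2 := mul_one _
    calc w ^ (j + 3) / (j ! : ℝ) * JJ (j + 3) j w ≤ w ^ 2 * 1 := by
          apply mul_le_mul h3 h1 h0 (by positivity)
      _ = w ^ 2 := mul_one _

/-- `R_n(w) ≤ K w^(2-a)` near `0` -/
theorem RR_le {a : ℝ} (ha0 : 0 < a) (ha1 : a < 1) (n : ℕ) {w : ℝ} (hw : 0 < w) (hw1 : w ≤ 1) :
    RR a (n + 1) w ≤ CC a (n + 1) * w ^ (2 - a) := by
  have hC := CC_pos ha0 ha1 (n + 1)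
  set g : ℝ → ℝ := fun w => CC a (n + 1) * w ^ (2 - a) - RR a (n + 1) w with hg
  have hd : ∀ x, 0 < x → HasDerivAt g (CC a (n + 1) * ((2 - a) * x ^ (2 - a - 1)) -
      x ^ (-a - 1) * (CC a (n + 1) * XX n x)) x := fun x hx =>
    ((Real.hasDerivAt_rpow_const (Or.inl hx.ne')).const_mul _).sub (hasDerivAt_RR ha1 hx n)
  have hmono : MonotoneOn g (Set.Ioc 0 1) := by
    refine monotoneOn_of_deriv_nonneg (convex_Ioc 0 1) ?_ ?_ ?_
    · exact fun x hx => (hd x hx.1).continuousAt.continuousWithinAt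
    · exact fun x hx => (hd x (interior_subset hx).1).differentiableAt.differentiableWithinAt
    · intro x hx
      have hx' := interior_subset hx
      rw [(hd x hx'.1).deriv]
      have h1 := XX_le n hx'.1 hx'.2
      have h2 : x ^ (-a - 1) * x ^ 2 = x ^ (2 - a - 1) := by
        rw [← Real.rpow_natCast x 2, ← Real.rpow_add hx'.1]
        congr 1
        push_cast
        ring
      have h3 : 0 < x ^ (-a - 1) := Real.rpow_pos_of_pos hx'.1 _
      have h4 : x ^ (-a - 1) * (CC a (n + 1) * XX n x) ≤ CC a (n + 1) * x ^ (2 - a - 1) := by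
        rw [← h2]
        calc x ^ (-a - 1) * (CC a (n + 1) * XX n x)
            ≤ x ^ (-a - 1) * (CC a (n + 1) * x ^ 2) := by gcongr
          _ = _ := by ring
      have h5 : 0 < x ^ (2 - a - 1) := Real.rpow_pos_of_pos hx'.1 _
      have h6 : CC a (n + 1) * x ^ (2 - a - 1) ≤ CC a (n + 1) * ((2 - a) * x ^ (2 - a - 1)) := by
        apply mul_le_mul_of_nonneg_left _ hC.le
        nlinarith
      linarith
  have hlim : Tendsto g (𝓝[>] 0) (𝓝 0) := by
    have h1 : Tendsto (fun w : ℝ => CC a (n + 1) * w ^ (2 - a)) (𝓝[>] 0) (𝓝 0) := by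
      have h2 : ContinuousAt (fun w : ℝ => w ^ (2 - a)) 0 :=
        Real.continuousAt_rpow_const 0 _ (Or.inr (by linarith))
      have h3 := (h2.tendsto.mono_left (nhdsWithin_le_nhds (s := Ioi (0 : ℝ)))).const_mul
        (CC a (n + 1))
      rwa [Real.zero_rpow (by linarith : 2 - a ≠ 0), mul_zero] at h3
    have := h1.sub (tendsto_RR ha1 (n + 1))
    rwa [sub_zero] at this
  have h0 : 0 ≤ g w := by
    refine le_of_tendsto hlim ?_
    filter_upwards [Ioo_mem_nhdsGT hw] with x hx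
    exact hmono ⟨hx.1, hx.2.le.trans hw1⟩ ⟨hw, hw1⟩ hx.2.le
  exact sub_nonneg.1 h0

/-- the comparison of the remainders: `D_n(a')/C_n(a') ≥ D_n(a)/C_n(a)`, `D_n = z - s_n` -/
theorem rem_mono {a a' : ℝ} (ha0 : 0 < a) (haa : a ≤ a') (ha1 : a' < 1) (n : ℕ) {w : ℝ}
    (hw : 0 < w) :
    (zz a w - sn a (n + 1) w) / CC a (n + 1) ≤ (zz a' w - sn a' (n + 1) w) / CC a' (n + 1) := by
  have ha1' : a < 1 := haa.trans_lt ha1
  have hC := CC_pos ha0 ha1' (n + 1)
  have hC' := CC_pos (ha0.trans_le haa) ha1 (n + 1)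
  set g : ℝ → ℝ := fun w => RR a' (n + 1) w / CC a' (n + 1) -
    w ^ (a - a') * RR a (n + 1) w / CC a (n + 1) with hg
  have hd : ∀ x, 0 < x → HasDerivAt g ((x ^ (-a' - 1) * (CC a' (n + 1) * XX n x)) / CC a' (n + 1) -
      ((a - a') * x ^ (a - a' - 1) * RR a (n + 1) x +
        x ^ (a - a') * (x ^ (-a - 1) * (CC a (n + 1) * XX n x))) / CC a (n + 1)) x := fun x hx =>
    ((hasDerivAt_RR ha1 hx n).div_const _).sub
      (((Real.hasDerivAt_rpow_const (Or.inl hx.ne')).mul (hasDerivAt_RR ha1' hx n)).div_const _)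
  have hmono : MonotoneOn g (Set.Ioi 0) := by
    refine monotoneOn_of_deriv_nonneg (convex_Ioi 0) ?_ ?_ ?_
    · exact fun x hx => (hd x hx).continuousAt.continuousWithinAt
    · exact fun x hx => (hd x (interior_subset hx)).differentiableAt.differentiableWithinAt
    · intro x hx
      have hx' : 0 < x := interior_subset hx
      rw [(hd x hx').deriv]
      have h2 : x ^ (a - a') * x ^ (-a - 1) = x ^ (-a' - 1) := by
        rw [← Real.rpow_add hx']
        congr 1
        ring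
      have h3 : 0 < x ^ (a - a' - 1) := Real.rpow_pos_of_pos hx' _
      have h4 := RR_pos ha0 ha1' hx' n
      have e : (x ^ (-a' - 1) * (CC a' (n + 1) * XX n x)) / CC a' (n + 1) -
          ((a - a') * x ^ (a - a' - 1) * RR a (n + 1) x +
          x ^ (a - a') * (x ^ (-a - 1) * (CC a (n + 1) * XX n x))) / CC a (n + 1) =
          (a' - a) * x ^ (a - a' - 1) * RR a (n + 1) x / CC a (n + 1) := by
        rw [← h2]
        field_simp
        ring
      rw [e]
      have : 0 ≤ a' - a := sub_nonneg.2 haa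
      positivity
  have hlim : Tendsto g (𝓝[>] 0) (𝓝 0) := by
    have h1 : Tendsto (fun w : ℝ => w ^ (a - a') * RR a (n + 1) w) (𝓝[>] 0) (𝓝 0) := by
      have h2 : Tendsto (fun w : ℝ => CC a (n + 1) * w ^ (2 - a')) (𝓝[>] 0) (𝓝 0) := by
        have h2 : ContinuousAt (fun w : ℝ => w ^ (2 - a')) 0 :=
          Real.continuousAt_rpow_const 0 _ (Or.inr (by linarith))
        have h3 := (h2.tendsto.mono_left (nhdsWithin_le_nhds (s := Ioi (0 : ℝ)))).const_mul
          (CC a (n + 1))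
        rwa [Real.zero_rpow (by linarith : 2 - a' ≠ 0), mul_zero] at h3
      refine tendsto_of_tendsto_of_tendsto_of_le_of_le' tendsto_const_nhds h2 ?_ ?_
      · filter_upwards [self_mem_nhdsWithin] with x hx
        have hx' : 0 < x := hx
        have h4 := RR_pos ha0 ha1' hx' n
        positivity
      · filter_upwards [Ioo_mem_nhdsGT (zero_lt_one (α := ℝ))] with x hx
        have h4 := RR_le ha0 ha1' n hx.1 hx.2.le
        have h5 : x ^ (a - a') * x ^ (2 - a) = x ^ (2 - a') := by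
          rw [← Real.rpow_add hx.1]
          congr 1
          ring
        have h6 : 0 < x ^ (a - a') := Real.rpow_pos_of_pos hx.1 _
        calc x ^ (a - a') * RR a (n + 1) x
            ≤ x ^ (a - a') * (CC a (n + 1) * x ^ (2 - a)) := by gcongr
          _ = CC a (n + 1) * x ^ (2 - a') := by rw [← h5]; ring
    have := ((tendsto_RR ha1 (n + 1)).div_const (CC a' (n + 1))).sub
      (h1.div_const (CC a (n + 1)))
    simpa using this
  have h0 : 0 ≤ g w := by
    refine le_of_tendsto hlim ?_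
    filter_upwards [Ioo_mem_nhdsGT hw] with x hx
    exact hmono hx.1 hw hx.2.le
  have e1 : ∀ b, zz b w - sn b (n + 1) w = w ^ b * RR b (n + 1) w := by
    intro b
    unfold zz RR
    rw [mul_sub, ← mul_assoc, ← Real.rpow_add hw, add_neg_cancel, Real.rpow_zero, one_mul]
  have h1 : 0 < w ^ a' := Real.rpow_pos_of_pos hw _
  have h2 := mul_nonneg h1.le h0
  have h3 : w ^ a' * w ^ (a - a') = w ^ a := by
    rw [← Real.rpow_add hw]
    congr 1
    ring
  rw [e1, e1]
  have e2 : w ^ a' * g w = w ^ a' * RR a' (n + 1) w / CC a' (n + 1) -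
      w ^ a * RR a (n + 1) w / CC a (n + 1) := by
    rw [hg, ← h3]
    ring
  rw [e2] at h2
  exact sub_nonneg.1 h2

/-! ### The sum `∑_(k<n) M_k T_k` -/

theorem sum_Mk_Tl (a w : ℝ) (n : ℕ) :
    ∑ k ∈ range n, Mk a k * Tl a w k =
      ∑ i ∈ range n, (CC a i * Sk a i + CC a (i + 1) * Sk a (i + 1)) * psi i w +
        Sk a n * (zz a w - sn a n w) := by
  induction n with
  | zero => simp [Sk]
  | succ n ih =>
    have e : sn a (n + 1) w = sn a n w + (CC a n + CC a (n + 1)) * psi n w := by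
      unfold sn
      rw [sum_range_succ]
    rw [sum_range_succ, ih, sum_range_succ, Tl_eq, Sk_succ, e]
    ring

/-- **`(a'-a) ∑_(k<n) M_k(a) T_k(a) ≤ z(a') - z(a)`** for every `n` -/
theorem sum_le_zz_sub {a a' : ℝ} (ha0 : 0 < a) (haa : a ≤ a') (ha1 : a' < 1) (n : ℕ) {w : ℝ}
    (hw : 0 < w) :
    (a' - a) * ∑ k ∈ range (n + 1), Mk a k * Tl a w k ≤ zz a' w - zz a w := by
  have ha1' : a < 1 := haa.trans_lt ha1
  have hδ : 0 ≤ a' - a := sub_nonneg.2 haa
  have h1 : ∀ i, (a' - a) * (CC a i * Sk a i) ≤ CC a' i - CC a i := fun i => by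
    have := CC_ratio ha0 haa ha1 i
    linarith
  have h2 : (a' - a) * ∑ i ∈ range (n + 1), (CC a i * Sk a i + CC a (i + 1) * Sk a (i + 1)) *
      psi i w ≤ sn a' (n + 1) w - sn a (n + 1) w := by
    unfold sn
    rw [← sum_sub_distrib, mul_sum]
    refine sum_le_sum fun i _ => ?_
    have hp := (psi_pos i hw).le
    have h3 := h1 i
    have h4 := h1 (i + 1)
    calc (a' - a) * ((CC a i * Sk a i + CC a (i + 1) * Sk a (i + 1)) * psi i w)
        = ((a' - a) * (CC a i * Sk a i) + (a' - a) * (CC a (i + 1) * Sk a (i + 1))) *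
          psi i w := by ring
      _ ≤ ((CC a' i - CC a i) + (CC a' (i + 1) - CC a (i + 1))) * psi i w := by gcongr
      _ = _ := by ring
  have h3 : (a' - a) * (Sk a (n + 1) * (zz a w - sn a (n + 1) w)) ≤
      (zz a' w - sn a' (n + 1) w) - (zz a w - sn a (n + 1) w) := by
    have hC := CC_pos ha0 ha1' (n + 1)
    have hC' := CC_pos (ha0.trans_le haa) ha1 (n + 1)
    have hD := sub_pos.2 (sn_lt_zz ha0 ha1' hw n)
    have h4 := rem_mono ha0 haa ha1 n hw
    rw [div_le_div_iff₀ hC hC'] at h4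
    have h5 := CC_ratio ha0 haa ha1 (n + 1)
    set D := zz a w - sn a (n + 1) w with hDd
    set D' := zz a' w - sn a' (n + 1) w with hDd'
    have h6 : D * (CC a (n + 1) * (1 + (a' - a) * Sk a (n + 1))) ≤ D' * CC a (n + 1) :=
      (mul_le_mul_of_nonneg_left h5 hD.le).trans h4
    have h7 : (D * (1 + (a' - a) * Sk a (n + 1))) * CC a (n + 1) ≤ D' * CC a (n + 1) := by
      calc (D * (1 + (a' - a) * Sk a (n + 1))) * CC a (n + 1) =
          D * (CC a (n + 1) * (1 + (a' - a) * Sk a (n + 1))) := by ring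
        _ ≤ _ := h6
    have h8 := le_of_mul_le_mul_right h7 hC
    linarith
  rw [sum_Mk_Tl, mul_add]
  linarith

/-! ### Taylor bounds -/

/-- `∑_(k<m) (-1)^k (c+k) v^k/k!` -/
noncomputable def TT (m : ℕ) (c v : ℝ) : ℝ := ∑ k ∈ range m, (c + k) * (-v) ^ k / k !

theorem hasDerivAt_TT (m : ℕ) (c x : ℝ) : HasDerivAt (TT (m + 1) c) (-TT m (c + 1) x) x := by
  unfold TT
  have h : ∀ k ∈ range (m + 1), HasDerivAt (fun v : ℝ => (c + k) * (-v) ^ k / k !)
      ((c + k) * (k * (-x) ^ (k - 1) * (-1)) / k !) x := by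
    intro k _
    have h1 : HasDerivAt (fun v : ℝ => (-v) ^ k) (k * (-x) ^ (k - 1) * (-1)) x := by
      have := ((hasDerivAt_id' x).fun_neg).fun_pow k
      exact this
    exact (h1.const_mul (c + k)).div_const _
  refine (HasDerivAt.fun_sum h).congr_deriv ?_
  rw [sum_range_succ', ← sum_neg_distrib]
  simp only [Nat.cast_zero, zero_mul, mul_zero, zero_div, add_zero]
  refine sum_congr rfl fun k _ => ?_
  rw [Nat.factorial_succ, Nat.add_sub_cancel]
  have : ((k ! : ℕ) : ℝ) ≠ 0 := by positivity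
  push_cast
  field_simp
  ring

/-- the remainder of `(c - v) e^(-v)` has the sign `(-1)^m` for `v ≤ m + c` -/
theorem tay (m : ℕ) : ∀ c v : ℝ, 0 ≤ v → v ≤ m + c →
    0 ≤ (-1) ^ m * ((c - v) * Real.exp (-v) - TT m c v) := by
  induction m with
  | zero =>
    intro c v _ hv
    simp only [TT, range_zero, sum_empty, sub_zero, pow_zero, one_mul]
    have h1 : 0 ≤ c - v := by
      have : v ≤ 0 + c := by exact_mod_cast hv
      linarith
    positivity
  | succ m ih =>
    intro c v hv0 hv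
    set g : ℝ → ℝ := fun x => (-1) ^ (m + 1) * ((c - x) * Real.exp (-x) - TT (m + 1) c x) with hg
    have hd : ∀ x, HasDerivAt g ((-1) ^ m * ((c + 1 - x) * Real.exp (-x) - TT m (c + 1) x)) x := by
      intro x
      have h1 : HasDerivAt (fun x : ℝ => Real.exp (-x)) (Real.exp (-x) * (-1)) x :=
        (hasDerivAt_id' x).fun_neg.exp
      have h2 : HasDerivAt (fun x : ℝ => c - x) (-1) x := (hasDerivAt_id' x).const_sub c
      have h3 := ((h2.fun_mul h1).sub (hasDerivAt_TT m c x)).const_mul ((-1 : ℝ) ^ (m + 1))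
      refine h3.congr_deriv ?_
      rw [pow_succ]
      ring
    have hmono : MonotoneOn g (Set.Icc 0 v) := by
      refine monotoneOn_of_deriv_nonneg (convex_Icc 0 v) ?_ ?_ ?_
      · exact fun x _ => (hd x).continuousAt.continuousWithinAt
      · exact fun x _ => (hd x).differentiableAt.differentiableWithinAt
      · intro x hx
        have hx' := interior_subset hx
        rw [(hd x).deriv]
        refine ih (c + 1) x hx'.1 (hx'.2.trans ?_)
        push_cast at hv
        linarith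
    have h0 : g 0 = 0 := by
      simp only [hg, TT, neg_zero, Real.exp_zero, sub_zero, mul_one]
      rw [sum_range_succ']
      simp
    have := hmono (Set.left_mem_Icc.2 hv0) (Set.right_mem_Icc.2 hv0) hv0
    rw [h0] at this
    exact this

/-- the remainder of `e^(-v)` has the sign `(-1)^m` -/
theorem tayE (m : ℕ) : ∀ v : ℝ, 0 ≤ v →
    0 ≤ (-1) ^ m * (Real.exp (-v) - ∑ k ∈ range m, (-v) ^ k / k !) := by
  induction m with
  | zero =>
    intro v _
    simp only [range_zero, sum_empty, sub_zero, pow_zero, one_mul]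
    positivity
  | succ m ih =>
    intro v hv0
    set g : ℝ → ℝ := fun x => (-1) ^ (m + 1) * (Real.exp (-x) -
      ∑ k ∈ range (m + 1), (-x) ^ k / k !) with hg
    have hd : ∀ x, HasDerivAt g ((-1) ^ m * (Real.exp (-x) - ∑ k ∈ range m, (-x) ^ k / k !)) x := by
      intro x
      have h1 : HasDerivAt (fun x : ℝ => Real.exp (-x)) (Real.exp (-x) * (-1)) x :=
        (hasDerivAt_id' x).fun_neg.exp
      have h : ∀ k ∈ range (m + 1), HasDerivAt (fun v : ℝ => (-v) ^ k / k !)
          ((k * (-x) ^ (k - 1) * (-1)) / k !) x := by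
        intro k _
        exact (((hasDerivAt_id' x).fun_neg).fun_pow k).div_const _
      have h2 := HasDerivAt.fun_sum h
      have h3 := (h1.sub h2).const_mul ((-1 : ℝ) ^ (m + 1))
      refine h3.congr_deriv ?_
      have e : ∑ k ∈ range (m + 1), ((k : ℝ) * (-x) ^ (k - 1) * (-1)) / k ! =
          - ∑ k ∈ range m, (-x) ^ k / k ! := by
        rw [sum_range_succ', ← sum_neg_distrib]
        simp only [Nat.cast_zero, zero_mul, zero_div, add_zero]
        refine sum_congr rfl fun k _ => ?_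
        rw [Nat.factorial_succ, Nat.add_sub_cancel]
        have : ((k ! : ℕ) : ℝ) ≠ 0 := by positivity
        push_cast
        field_simp
      rw [e, pow_succ]
      ring
    have hmono : MonotoneOn g (Set.Icc 0 v) := by
      refine monotoneOn_of_deriv_nonneg (convex_Icc 0 v) ?_ ?_ ?_
      · exact fun x _ => (hd x).continuousAt.continuousWithinAt
      · exact fun x _ => (hd x).differentiableAt.differentiableWithinAt
      · intro x hx
        rw [(hd x).deriv]
        exact ih x (interior_subset hx).1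
    have h0 : g 0 = 0 := by
      simp only [hg, neg_zero, Real.exp_zero]
      rw [sum_range_succ']
      simp
    have := hmono (Set.left_mem_Icc.2 hv0) (Set.right_mem_Icc.2 hv0) hv0
    rw [h0] at this
    exact this

/-! ### The series of `z` -/

/-- `w ∑_(k<m) (-w)^k (k+1)/(k! (k+1-a))` -/
noncomputable def Zs (m : ℕ) (a w : ℝ) : ℝ :=
  w * ∑ k ∈ range m, (-w) ^ k * (k + 1) / k ! / (k + 1 - a)

/-- `w ∑_(k<m) (-w)^k (k+1)/(k! (k+1-a)^2)` -/
noncomputable def Zd (m : ℕ) (a w : ℝ) : ℝ :=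
  w * ∑ k ∈ range m, (-w) ^ k * (k + 1) / k ! / (k + 1 - a) ^ 2

theorem rpow_int {a : ℝ} (ha1 : a < 1) (k : ℕ) :
    ∫ u in (0 : ℝ)..1, u ^ (-a) * u ^ k = 1 / (k + 1 - a) := by
  have hk : (0 : ℝ) ≤ k := Nat.cast_nonneg k
  have e : ∫ u in (0 : ℝ)..1, u ^ (-a) * u ^ k = ∫ u in (0 : ℝ)..1, u ^ ((k : ℝ) - a) := by
    refine intervalIntegral.integral_congr_ae ?_
    refine Eventually.of_forall fun u hu => ?_
    rw [Set.uIoc_of_le zero_le_one] at hu
    show u ^ (-a) * u ^ k = u ^ ((k : ℝ) - a)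
    rw [← Real.rpow_natCast u k, ← Real.rpow_add hu.1]
    congr 1
    ring
  rw [e, integral_rpow (Or.inl (by linarith)), Real.one_rpow, Real.zero_rpow (by linarith)]
  congr 1 <;> ring

theorem rpow_II {a : ℝ} (ha1 : a < 1) {f : ℝ → ℝ} (hf : Continuous f) :
    IntervalIntegrable (fun u : ℝ => u ^ (-a) * f u) volume 0 1 :=
  (intervalIntegral.intervalIntegrable_rpow' (by linarith)).mul_continuousOn hf.continuousOn

/-- `z - Zs = w ∫ u^(-a) (remainder)` -/
theorem zz_sub_Zs {a : ℝ} (ha1 : a < 1) {w : ℝ} (hw : 0 < w) (m : ℕ) :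
    zz a w - Zs m a w = w * ∫ u in (0 : ℝ)..1, u ^ (-a) *
      ((1 - w * u) * Real.exp (-(w * u)) - TT m 1 (w * u)) := by
  have h1 : Zs m a w = w * ∫ u in (0 : ℝ)..1, u ^ (-a) * TT m 1 (w * u) := by
    unfold Zs
    congr 1
    have e : ∀ u : ℝ, u ^ (-a) * TT m 1 (w * u) =
        ∑ k ∈ range m, ((-w) ^ k * (k + 1) / k !) * (u ^ (-a) * u ^ k) := by
      intro u
      unfold TT
      rw [mul_sum]
      refine sum_congr rfl fun k _ => ?_
      rw [← neg_mul, mul_pow]
      ring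
    simp only [e]
    rw [intervalIntegral.integral_finsetSum]
    · refine sum_congr rfl fun k _ => ?_
      rw [intervalIntegral.integral_const_mul, rpow_int ha1]
      ring
    · intro k _
      exact (rpow_II ha1 (continuous_pow k)).const_mul _
  rw [h1, zz_eq a hw, ← mul_sub, ← intervalIntegral.integral_sub]
  · congr 1
    refine intervalIntegral.integral_congr fun u _ => ?_
    show _ - _ = _
    ring
  · exact rpow_II ha1 (by fun_prop)
  · refine rpow_II ha1 ?_
    unfold TT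
    fun_prop

theorem sgn_eq {a : ℝ} (ha1 : a < 1) {w : ℝ} (hw : 0 < w) (m : ℕ) :
    (-1) ^ m * (zz a w - Zs m a w) = w * ∫ u in (0 : ℝ)..1, u ^ (-a) *
      ((-1) ^ m * ((1 - w * u) * Real.exp (-(w * u)) - TT m 1 (w * u))) := by
  rw [zz_sub_Zs ha1 hw, mul_left_comm, ← intervalIntegral.integral_const_mul]
  congr 1
  refine intervalIntegral.integral_congr fun u _ => ?_
  show _ * _ = _ * _
  ring

/-- the remainder of `z` has the sign `(-1)^m` -/
theorem zz_sign {a : ℝ} (ha1 : a < 1) {w : ℝ} (hw : 0 < w) (m : ℕ) (hm : w ≤ m + 1) :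
    0 ≤ (-1) ^ m * (zz a w - Zs m a w) := by
  rw [sgn_eq ha1 hw]
  refine mul_nonneg hw.le (intervalIntegral.integral_nonneg zero_le_one fun u hu => ?_)
  have h1 := tay m 1 (w * u) (mul_nonneg hw.le hu.1)
    ((mul_le_of_le_one_right hw.le hu.2).trans hm)
  have h2 : 0 ≤ u ^ (-a) := Real.rpow_nonneg hu.1 _
  exact mul_nonneg h2 h1

/-- ... and is monotone in `a` -/
theorem zz_sign_mono {a a' : ℝ} (haa : a ≤ a') (ha1 : a' < 1) {w : ℝ} (hw : 0 < w) (m : ℕ)
    (hm : w ≤ m + 1) :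
    (-1) ^ m * (zz a w - Zs m a w) ≤ (-1) ^ m * (zz a' w - Zs m a' w) := by
  have ha1' : a < 1 := haa.trans_lt ha1
  have hc : Continuous fun u : ℝ => (-1) ^ m * ((1 - w * u) * Real.exp (-(w * u)) -
      TT m 1 (w * u)) := by
    unfold TT
    fun_prop
  rw [sgn_eq ha1 hw, sgn_eq ha1' hw]
  refine mul_le_mul_of_nonneg_left ?_ hw.le
  refine intervalIntegral.integral_mono_on_of_le_Ioo zero_le_one
    (rpow_II ha1' hc) (rpow_II ha1 hc) fun u hu => ?_
  have h1 := tay m 1 (w * u) (mul_nonneg hw.le hu.1.le)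
    ((mul_le_of_le_one_right hw.le hu.2.le).trans hm)
  have h2 : u ^ (-a) ≤ u ^ (-a') :=
    Real.rpow_le_rpow_of_exponent_ge hu.1 hu.2.le (by linarith)
  exact mul_le_mul_of_nonneg_right h2 h1

/-- **the sum of all levels**, every `n`; `m` odd -/
theorem sum_le_Zd {a : ℝ} (ha0 : 0 < a) (ha1 : a < 1) (n : ℕ) {w : ℝ} (hw : 0 < w) {m : ℕ}
    (hodd : Odd m) (hm : w ≤ m + 1) :
    ∑ k ∈ range (n + 1), Mk a k * Tl a w k ≤ Zd m a w := by
  set Q : ℝ → ℝ := fun a' => w * ∑ k ∈ range m, (-w) ^ k * (k + 1) / k ! /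
    ((k + 1 - a) * (k + 1 - a')) with hQ
  have h1 : ∀ a', a < a' → a' < 1 → ∑ k ∈ range (n + 1), Mk a k * Tl a w k ≤ Q a' := by
    intro a' h h'
    have h2 := sum_le_zz_sub ha0 h.le h' n hw
    have h3 := zz_sign_mono h.le h' hw m hm
    rw [hodd.neg_one_pow] at h3
    have h4 : zz a' w - zz a w ≤ Zs m a' w - Zs m a w := by linarith
    have hδ : 0 < a' - a := sub_pos.2 h
    have h5 : Zs m a' w - Zs m a w = (a' - a) * Q a' := by
      have h6 : ∑ k ∈ range m, (-w) ^ k * (k + 1) / k ! / (k + 1 - a') -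
          ∑ k ∈ range m, (-w) ^ k * (k + 1) / k ! / (k + 1 - a) =
          (a' - a) * ∑ k ∈ range m, (-w) ^ k * (k + 1) / k ! / ((k + 1 - a) * (k + 1 - a')) := by
        rw [← sum_sub_distrib, mul_sum]
        refine sum_congr rfl fun k _ => ?_
        have hk : (0 : ℝ) ≤ k := Nat.cast_nonneg k
        have e1 : (k : ℝ) + 1 - a ≠ 0 := by linarith
        have e2 : (k : ℝ) + 1 - a' ≠ 0 := by linarith
        have e3 : ((k ! : ℕ) : ℝ) ≠ 0 := by positivity
        field_simp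
        ring
      rw [hQ]
      unfold Zs
      rw [← mul_sub, h6]
      ring
    rw [h5] at h4
    exact le_of_mul_le_mul_left (h2.trans h4) hδ
  have hlim : Tendsto Q (𝓝[>] a) (𝓝 (Zd m a w)) := by
    have e : Zd m a w = Q a := by
      rw [hQ]
      unfold Zd
      simp only [sq]
    rw [e]
    have hc : ContinuousAt Q a := by
      rw [hQ]
      refine ContinuousAt.mul continuousAt_const ?_
      have hk : ∀ k ∈ range m, Tendsto (fun a' : ℝ => (-w) ^ k * (k + 1) / k ! /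
          ((k + 1 - a) * (k + 1 - a'))) (𝓝 a) (𝓝 ((-w) ^ k * (k + 1) / k ! /
          ((k + 1 - a) * (k + 1 - a)))) := by
        intro k _
        have hk : (0 : ℝ) ≤ k := Nat.cast_nonneg k
        have e1 : ((k : ℝ) + 1 - a) * (k + 1 - a) ≠ 0 :=
          mul_ne_zero (by linarith) (by linarith)
        refine Tendsto.div tendsto_const_nhds ?_ e1
        exact ((continuous_const.sub continuous_id).const_mul ((k : ℝ) + 1 - a)).tendsto a
      exact tendsto_finsetSum _ hk
    exact hc.tendsto.mono_left nhdsWithin_le_nhds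
  refine ge_of_tendsto hlim ?_
  filter_upwards [Ioo_mem_nhdsGT ha1] with x hx
  exact h1 x hx.1 hx.2

/-- `λ_1^(n) = ∑_(1≤j<n) F_j (1/(j+a) + 1/(j+1-a))` -/
noncomputable def lam1 (n : ℕ) (a c : ℝ) : ℝ :=
  ∑ j ∈ Finset.Ico 1 n, Tl a c j / zz a c * Mk a j

theorem lam1_nonneg {a c : ℝ} (ha0 : 0 < a) (ha1 : a < 1) (hc : 0 < c) (n : ℕ) :
    0 ≤ lam1 n a c :=
  sum_nonneg fun j _ => mul_nonneg (div_nonneg (Tl_pos ha0 ha1 hc j).le (zz_pos ha0 ha1 hc).le)
    (Mk_pos ha0 ha1 j).le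

theorem lam1_mono {a c : ℝ} (ha0 : 0 < a) (ha1 : a < 1) (hc : 0 < c) : Monotone fun n =>
    lam1 n a c := by
  intro n n' h
  refine sum_le_sum_of_subset_of_nonneg (Finset.Ico_subset_Ico_right h) fun j _ _ => ?_
  exact mul_nonneg (div_nonneg (Tl_pos ha0 ha1 hc j).le (zz_pos ha0 ha1 hc).le)
    (Mk_pos ha0 ha1 j).le

/-- **the criterion**: `λ_1^(n) ≤ U` for all `n` from `Zd + ψ_0 M_0 ≤ (U + M_0) Zs` -/
theorem lam1_le {a c U E : ℝ} (ha0 : 0 < a) (ha1 : a < 1) (hc : 0 < c) {m m' : ℕ}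
    (hodd : Odd m) (hm : c ≤ m + 1) (heven : Even m') (hm' : c ≤ m' + 1)
    (hE : Real.exp (-c) ≤ E) (hU : 0 ≤ U)
    (h : Zd m a c + c * E * (1 / (a * (1 - a))) ≤ (U + 1 / (a * (1 - a))) * Zs m' a c) (n : ℕ) :
    lam1 n a c ≤ U := by
  have hz := zz_pos ha0 ha1 hc
  have h1a : 0 < 1 - a := by linarith
  have h1 := lam1_mono ha0 ha1 hc (show n ≤ n + 1 by omega)
  refine h1.trans ?_
  have h2 := sum_le_Zd ha0 ha1 n hc hodd hm
  rw [range_eq_Ico, Finset.sum_eq_sum_Ico_succ_bot (by omega), Tl_zero] at h2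
  have e0 : Mk a 0 = 1 / (a * (1 - a)) := by
    unfold Mk
    simp
  rw [e0] at h2
  have h3 := zz_sign ha1 hc m' hm'
  rw [heven.neg_one_pow, one_mul] at h3
  have h4 : 0 < 1 / (a * (1 - a)) := by positivity
  have e : lam1 (n + 1) a c = (∑ k ∈ Finset.Ico (0 + 1) (n + 1), Mk a k * Tl a c k) / zz a c := by
    unfold lam1
    rw [zero_add, sum_div]
    refine sum_congr rfl fun j _ => ?_
    ring
  show lam1 (n + 1) a c ≤ U
  rw [e, div_le_iff₀ hz]
  have h5 : (U + 1 / (a * (1 - a))) * Zs m' a c ≤ (U + 1 / (a * (1 - a))) * zz a c :=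
    mul_le_mul_of_nonneg_left (by linarith) (by linarith)
  have h6 : c * Real.exp (-c) * (1 / (a * (1 - a))) ≤ c * E * (1 / (a * (1 - a))) := by
    gcongr
  have h7 : 1 / (a * (1 - a)) * (zz a c - c * Real.exp (-c)) =
      1 / (a * (1 - a)) * zz a c - c * Real.exp (-c) * (1 / (a * (1 - a))) := by ring
  rw [h7] at h2
  have h8 : (U + 1 / (a * (1 - a))) * zz a c = U * zz a c + 1 / (a * (1 - a)) * zz a c := by ring
  linarith

end Pool.Agent.Lib.QNL.Lam20
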