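import Pool.Agent.Lib.QNL.Enc73b
import Pool.Agent.Lib.QNL.Lam20
import Pool.Agent.Lib.QNL.Pole95

/-!
# Boxes of `F_0` and `mu` for `c = 5`, `a ∈ [24/25, 99/100]`
-/

set_option autoImplicit false

namespace Pool.Agent.Lib.QNL.Enc

open MeasureTheory Set Filter Topology Finset
open scoped Nat
open Pool.Agent.Lib.QNL.Wts73
open Pool.Agent.Lib.QNL.Lam20

/-! ## the upper bound of `mu` -/

theorem inv_approx {k u : ℝ} (hk : 0 < k) (hu : 0 ≤ u) :
    |1 / (k + u) - (1 / k - u / k ^ 2 + u ^ 2 / k ^ 3)| ≤ u ^ 3 / k ^ 4 := by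
  have h1 : 0 < k + u := by linarith
  have e : 1 / (k + u) - (1 / k - u / k ^ 2 + u ^ 2 / k ^ 3) = -(u ^ 3 / (k ^ 3 * (k + u))) := by
    field_simp
    ring
  rw [e, abs_neg, abs_of_nonneg (by positivity)]
  refine div_le_div_of_nonneg_left (by positivity) (by positivity) ?_
  calc k ^ 4 = k ^ 3 * k := by ring
    _ ≤ k ^ 3 * (k + u) := mul_le_mul_of_nonneg_left (by linarith) (by positivity)

theorem inv_sq_approx {k u : ℝ} (hk : 0 < k) (hu : 0 ≤ u) :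
    |1 / (k + u) ^ 2 - (1 / k ^ 2 - 2 * u / k ^ 3)| ≤ 3 * u ^ 2 / k ^ 4 := by
  have h1 : 0 < k + u := by linarith
  have e : 1 / (k + u) ^ 2 - (1 / k ^ 2 - 2 * u / k ^ 3) =
      (3 * k * u ^ 2 + 2 * u ^ 3) / (k ^ 3 * (k + u) ^ 2) := by
    field_simp
    ring
  rw [e, abs_of_nonneg (by positivity), div_le_div_iff₀ (by positivity) (by positivity)]
  have : 0 ≤ u ^ 2 * k ^ 3 * (4 * k * u + 3 * u ^ 2) := by positivity
  nlinarith [this]

/-- `∑_(1 ≤ k < m) (-c)^k (k+1)/k!/k^i` -/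
noncomputable def cA (m : ℕ) (c : ℝ) (i : ℕ) : ℝ :=
  ∑ k ∈ Finset.Ico 1 m, (-c) ^ k * (k + 1) / k ! / (k : ℝ) ^ i

/-- `∑_(1 ≤ k < m) c^k (k+1)/k!/k^4` -/
noncomputable def cB (m : ℕ) (c : ℝ) : ℝ :=
  ∑ k ∈ Finset.Ico 1 m, c ^ k * (k + 1) / k ! / (k : ℝ) ^ 4

theorem s1_ge {c u : ℝ} (hc : 0 < c) (hu : 0 ≤ u) (m : ℕ) :
    cA m c 1 - cA m c 2 * u + cA m c 3 * u ^ 2 - cB m c * u ^ 3 ≤
      ∑ k ∈ Finset.Ico 1 m, (-c) ^ k * (k + 1) / k ! / (k + u) := by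
  unfold cA cB
  rw [Finset.sum_mul, Finset.sum_mul, Finset.sum_mul, ← Finset.sum_sub_distrib,
    ← Finset.sum_add_distrib, ← Finset.sum_sub_distrib]
  refine Finset.sum_le_sum fun k hk => ?_
  have hk1 : (0 : ℝ) < k := by exact_mod_cast (Finset.mem_Ico.1 hk).1
  have h1 := inv_approx hk1 hu
  set t : ℝ := (-c) ^ k * (k + 1) / k ! with ht
  have h2 : |t| = c ^ k * (k + 1) / k ! := by
    rw [ht, abs_div, abs_mul, abs_pow, abs_neg, abs_of_pos hc, Nat.abs_cast,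
      abs_of_pos (by positivity)]
  have h3 : |t * (1 / (k + u) - (1 / k - u / k ^ 2 + u ^ 2 / k ^ 3))| ≤
      c ^ k * (k + 1) / k ! * (u ^ 3 / k ^ 4) := by
    rw [abs_mul, h2]
    exact mul_le_mul_of_nonneg_left h1 (by positivity)
  have h4 := (abs_le.1 h3).1
  have e1 : t * (1 / (k + u) - (1 / k - u / k ^ 2 + u ^ 2 / k ^ 3)) =
      t / (k + u) - (t / k ^ 1 - t / k ^ 2 * u + t / k ^ 3 * u ^ 2) := by ring
  rw [e1] at h4
  have e2 : c ^ k * (k + 1) / k ! * (u ^ 3 / k ^ 4) = c ^ k * (k + 1) / k ! / k ^ 4 * u ^ 3 := by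
    ring
  rw [e2] at h4
  linarith

theorem s2_le {c u : ℝ} (hc : 0 < c) (hu : 0 ≤ u) (m : ℕ) :
    ∑ k ∈ Finset.Ico 1 m, (-c) ^ k * (k + 1) / k ! / (k + u) ^ 2 ≤
      cA m c 2 - cA m c 3 * (2 * u) + cB m c * (3 * u ^ 2) := by
  unfold cA cB
  rw [Finset.sum_mul, Finset.sum_mul, ← Finset.sum_sub_distrib, ← Finset.sum_add_distrib]
  refine Finset.sum_le_sum fun k hk => ?_
  have hk1 : (0 : ℝ) < k := by exact_mod_cast (Finset.mem_Ico.1 hk).1
  have h1 := inv_sq_approx hk1 hu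
  set t : ℝ := (-c) ^ k * (k + 1) / k ! with ht
  have h2 : |t| = c ^ k * (k + 1) / k ! := by
    rw [ht, abs_div, abs_mul, abs_pow, abs_neg, abs_of_pos hc, Nat.abs_cast,
      abs_of_pos (by positivity)]
  have h3 : |t * (1 / (k + u) ^ 2 - (1 / k ^ 2 - 2 * u / k ^ 3))| ≤
      c ^ k * (k + 1) / k ! * (3 * u ^ 2 / k ^ 4) := by
    rw [abs_mul, h2]
    exact mul_le_mul_of_nonneg_left h1 (by positivity)
  have h4 := (abs_le.1 h3).2
  have e1 : t * (1 / (k + u) ^ 2 - (1 / k ^ 2 - 2 * u / k ^ 3)) =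
      t / (k + u) ^ 2 - (t / k ^ 2 - t / k ^ 3 * (2 * u)) := by ring
  rw [e1] at h4
  have e2 : c ^ k * (k + 1) / k ! * (3 * u ^ 2 / k ^ 4) =
      c ^ k * (k + 1) / k ! / k ^ 4 * (3 * u ^ 2) := by
    ring
  rw [e2] at h4
  linarith

theorem Zs_split (m : ℕ) (a c : ℝ) (hm : 1 ≤ m) :
    Zs m a c = c * (1 / (1 - a) +
      ∑ k ∈ Finset.Ico 1 m, (-c) ^ k * (k + 1) / k ! / (k + (1 - a))) := by
  unfold Zs
  rw [Finset.range_eq_Ico, Finset.sum_eq_sum_Ico_succ_bot hm]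
  simp only [pow_zero, Nat.cast_zero, zero_add, Nat.factorial_zero, Nat.cast_one, div_one, one_mul]
  congr 2
  exact Finset.sum_congr rfl fun k _ => by rw [add_sub_assoc]

theorem Zd_split (m : ℕ) (a c : ℝ) (hm : 1 ≤ m) :
    Zd m a c = c * (1 / (1 - a) ^ 2 +
      ∑ k ∈ Finset.Ico 1 m, (-c) ^ k * (k + 1) / k ! / (k + (1 - a)) ^ 2) := by
  unfold Zd
  rw [Finset.range_eq_Ico, Finset.sum_eq_sum_Ico_succ_bot hm]
  simp only [pow_zero, Nat.cast_zero, zero_add, Nat.factorial_zero, Nat.cast_one, div_one, one_mul]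
  congr 2
  exact Finset.sum_congr rfl fun k _ => by rw [add_sub_assoc]

/-- the sum of the levels `1 ≤ j < n` -/
theorem sum_Ico_le {a : ℝ} (ha0 : 0 < a) (ha1 : a < 1) (n : ℕ) {w : ℝ} (hw : 0 < w) {m : ℕ}
    (hodd : Odd m) (hm : w ≤ m + 1) :
    ∑ j ∈ Finset.Ico 1 n, Tl a w j * ((2 * (j : ℝ) + 1) / (((j : ℝ) + a) * ((j : ℝ) + 1 - a))) ≤
      Zd m a w - Tl a w 0 / (a * (1 - a)) := by
  have h1 := sum_le_Zd ha0 ha1 n hw hodd hm
  rw [Finset.range_eq_Ico, Finset.sum_eq_sum_Ico_succ_bot (Nat.succ_pos n)] at h1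
  have h2 : Mk a 0 * Tl a w 0 = Tl a w 0 / (a * (1 - a)) := by
    have h3 := (sub_pos.2 ha1).ne'
    have h4 := ha0.ne'
    unfold Mk
    simp only [Nat.cast_zero, mul_zero, zero_add]
    field_simp
  rw [h2] at h1
  have h3 : ∑ j ∈ Finset.Ico 1 n,
      Tl a w j * ((2 * (j : ℝ) + 1) / (((j : ℝ) + a) * ((j : ℝ) + 1 - a))) ≤
      ∑ k ∈ Finset.Ico (0 + 1) (n + 1), Mk a k * Tl a w k := by
    rw [zero_add]
    have h4 : Finset.Ico 1 n ⊆ Finset.Ico 1 (n + 1) :=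
      Finset.Ico_subset_Ico_right (Nat.le_succ n)
    refine (Finset.sum_le_sum_of_subset_of_nonneg h4 fun j _ _ => ?_).trans (le_of_eq ?_)
    · have h2 := Tl_pos ha0 ha1 hw j
      have h3 : (0 : ℝ) ≤ j := Nat.cast_nonneg j
      have h4 : 0 < (j : ℝ) + 1 - a := by linarith
      positivity
    · exact Finset.sum_congr rfl fun k _ => by rw [Mk, mul_comm]
  linarith

/-- upper bound of `mu` from one inequality -/
theorem muN_le {a c B : ℝ} (ha0 : 0 < a) (ha1 : a < 1) (hc : 0 < c) (n : ℕ) {m : ℕ}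
    (hodd : Odd m) (hm : c ≤ m) (hB : 0 ≤ B)
    (h : Zd m a c ≤ (B + 1 / (a * (1 - a))) * (Zs (m - 1) a c - psi 0 c)) :
    CG.muN n a c ≤ B := by
  have hT := Tl_pos ha0 ha1 hc 0
  obtain ⟨k, hk⟩ := hodd
  have h1 : Zs (m - 1) a c ≤ zz a c := by
    have h2 := zz_sign ha1 hc (m - 1) (by
      have : ((m - 1 : ℕ) : ℝ) + 1 = m := by
        rw [hk]
        push_cast
        simp
      rw [this]
      exact hm)
    have h3 : Even (m - 1) := ⟨k, by omega⟩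
    rw [h3.neg_one_pow, one_mul] at h2
    linarith
  have h2 : Tl a c 0 = zz a c - psi 0 c := by
    rw [Tl_zero]
    rfl
  have h3 := sum_Ico_le ha0 ha1 n hc ⟨k, hk⟩ (hm.trans (by linarith : (m : ℝ) ≤ m + 1))
  unfold CG.muN
  rw [div_le_iff₀ hT]
  have h0 : 0 < a * (1 - a) := mul_pos ha0 (sub_pos.2 ha1)
  have h4 : (B + 1 / (a * (1 - a))) * (Zs (m - 1) a c - psi 0 c) ≤
      (B + 1 / (a * (1 - a))) * Tl a c 0 := by
    refine mul_le_mul_of_nonneg_left ?_ (by positivity)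
    rw [h2]
    linarith
  have h5 : (B + 1 / (a * (1 - a))) * Tl a c 0 = B * Tl a c 0 + Tl a c 0 / (a * (1 - a)) := by
    ring
  linarith

/-- the inequality in terms of `u = 1 - a` -/
theorem muN_le' {a c B : ℝ} (ha0 : 0 < a) (ha1 : a < 1) (hc : 0 < c) (n : ℕ) {m : ℕ}
    (hodd : Odd m) (hm1 : 3 ≤ m) (hm : c ≤ m) (hB : 0 ≤ B) {P1 P2 E : ℝ}
    (hE : Real.exp (-c) ≤ E)
    (h1 : P1 ≤ ∑ k ∈ Finset.Ico 1 (m - 1), (-c) ^ k * (k + 1) / k ! / (k + (1 - a)))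
    (h2 : ∑ k ∈ Finset.Ico 1 m, (-c) ^ k * (k + 1) / k ! / (k + (1 - a)) ^ 2 ≤ P2)
    (h : 0 ≤ 1 + B * a + (1 + B * a * (1 - a)) * (P1 - E) - a * (1 - a) * P2) :
    CG.muN n a c ≤ B := by
  have hu : 0 < 1 - a := sub_pos.2 ha1
  refine muN_le ha0 ha1 hc n hodd hm hB ?_
  rw [Zd_split m a c (by omega), Zs_split (m - 1) a c (by omega)]
  set s1 := ∑ k ∈ Finset.Ico 1 (m - 1), (-c) ^ k * (k + 1) / k ! / (k + (1 - a)) with hs1
  set s2 := ∑ k ∈ Finset.Ico 1 m, (-c) ^ k * (k + 1) / k ! / (k + (1 - a)) ^ 2 with hs2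
  have hp : psi 0 c = c * Real.exp (-c) := rfl
  have h3 : (1 + B * a * (1 - a)) * (P1 - E) ≤ (1 + B * a * (1 - a)) * (s1 - Real.exp (-c)) :=
    mul_le_mul_of_nonneg_left (by linarith) (by positivity)
  have h4 : a * (1 - a) * s2 ≤ a * (1 - a) * P2 :=
    mul_le_mul_of_nonneg_left h2 (by positivity)
  have h5 : 0 ≤ 1 + B * a + (1 + B * a * (1 - a)) * (s1 - Real.exp (-c)) - a * (1 - a) * s2 := by
    linarith
  have e : (B + 1 / (a * (1 - a))) * (c * (1 / (1 - a) + s1) - psi 0 c) -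
      c * (1 / (1 - a) ^ 2 + s2) = c / (a * (1 - a)) *
        (1 + B * a + (1 + B * a * (1 - a)) * (s1 - Real.exp (-c)) - a * (1 - a) * s2) := by
    rw [hp]
    have := hu.ne'
    field_simp
    ring
  have h6 : 0 ≤ c / (a * (1 - a)) *
      (1 + B * a + (1 + B * a * (1 - a)) * (s1 - Real.exp (-c)) - a * (1 - a) * s2) :=
    mul_nonneg (by positivity) h5
  linarith

/-! ## `c = 5`, `a ∈ [24/25, 99/100]` -/

theorem exp_five_lt : Real.exp 5 < 1484132 / 10000 := by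
  have h := Real.exp_one_lt_d9
  have h0 := Real.exp_pos 1
  have e : Real.exp 5 = Real.exp 1 ^ 5 := by
    rw [← Real.exp_nat_mul]
    norm_num
  rw [e]
  calc Real.exp 1 ^ 5 < (2.7182818286 : ℝ) ^ 5 := pow_lt_pow_left₀ h h0.le (by norm_num)
    _ < _ := by norm_num

theorem lt_exp_five : (1484131 : ℝ) / 10000 < Real.exp 5 := by
  have h := Real.exp_one_gt_d9
  have e : Real.exp 5 = Real.exp 1 ^ 5 := by
    rw [← Real.exp_nat_mul]
    norm_num
  rw [e]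
  calc (1484131 : ℝ) / 10000 < (2.7182818283 : ℝ) ^ 5 := by norm_num
    _ < _ := pow_lt_pow_left₀ h (by norm_num) (by norm_num)

theorem exp_neg_five_le : Real.exp (-5) ≤ 6738 / 1000000 := by
  rw [Real.exp_neg, inv_eq_one_div, div_le_iff₀ (Real.exp_pos 5)]
  have := lt_exp_five
  linarith

theorem cA_five_one : (-31812 : ℝ) / 10000 ≤ cA 20 5 1 := by
  unfold cA
  norm_num [Finset.sum_Ico_succ_top, Nat.factorial]

theorem cA_five_two : cA 20 5 2 ≤ (-54 : ℝ) / 10 := by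
  unfold cA
  norm_num [Finset.sum_Ico_succ_top, Nat.factorial]

theorem cA_five_three : (-7155 : ℝ) / 1000 ≤ cA 20 5 3 := by
  unfold cA
  norm_num [Finset.sum_Ico_succ_top, Nat.factorial]

theorem cB_five : cB 20 5 ≤ (1434 : ℝ) / 100 := by
  unfold cB
  norm_num [Finset.sum_Ico_succ_top, Nat.factorial]

theorem cA_five_two' : cA 21 5 2 ≤ (-54 : ℝ) / 10 := by
  unfold cA
  norm_num [Finset.sum_Ico_succ_top, Nat.factorial]

theorem cA_five_three' : (-7155 : ℝ) / 1000 ≤ cA 21 5 3 := by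
  unfold cA
  norm_num [Finset.sum_Ico_succ_top, Nat.factorial]

theorem cB_five' : cB 21 5 ≤ (1434 : ℝ) / 100 := by
  unfold cB
  norm_num [Finset.sum_Ico_succ_top, Nat.factorial]

/-- **(ii), upper bound** -/
theorem muN_five_le {a : ℝ} (h0 : 24 / 25 ≤ a) (h1 : a ≤ 99 / 100) (n : ℕ) :
    CG.muN n a 5 ≤ 9 / 4 := by
  have ha0 : 0 < a := by linarith
  have ha1 : a < 1 := by linarith
  have hu : 0 ≤ 1 - a := by linarith
  set u : ℝ := 1 - a with hu'
  have q1 := s1_ge (c := 5) (by norm_num) hu 20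
  have q2 := s2_le (c := 5) (by norm_num) hu 21
  have b1 := cA_five_one
  have b2 := mul_le_mul_of_nonneg_right cA_five_two hu
  have b3 := mul_le_mul_of_nonneg_right cA_five_three (show 0 ≤ u ^ 2 by positivity)
  have b4 := mul_le_mul_of_nonneg_right cB_five (show 0 ≤ u ^ 3 by positivity)
  have b5 := cA_five_two'
  have b6 := mul_le_mul_of_nonneg_right cA_five_three' (show 0 ≤ 2 * u by positivity)
  have b7 := mul_le_mul_of_nonneg_right cB_five' (show 0 ≤ 3 * u ^ 2 by positivity)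
  refine muN_le' (m := 21) (P1 := -31812 / 10000 + 54 / 10 * u - 7155 / 1000 * u ^ 2 -
    1434 / 100 * u ^ 3) (P2 := -54 / 10 + 7155 / 1000 * (2 * u) + 1434 / 100 * (3 * u ^ 2))
    ha0 ha1 (by norm_num) n ⟨10, by norm_num⟩ (by norm_num) (by norm_num) (by norm_num)
    exp_neg_five_le ?_ ?_ ?_
  · refine le_trans ?_ q1
    linarith
  · refine q2.trans ?_
    linarith
  · rw [← hu', show a = 1 - u by rw [hu']; ring]
    have hu1 : 1 / 100 ≤ u := by rw [hu']; linarith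
    have hu2 : u ≤ 1 / 25 := by rw [hu']; linarith
    nlinarith [mul_nonneg (sub_nonneg.2 hu1) (sub_nonneg.2 hu2), pow_nonneg hu 3,
      mul_nonneg hu (mul_nonneg (sub_nonneg.2 hu1) (sub_nonneg.2 hu2)),
      mul_nonneg (pow_nonneg hu 2) (mul_nonneg (sub_nonneg.2 hu1) (sub_nonneg.2 hu2))]

/-! ## lower bound of the Kummer sum -/

theorem po_anti {a b : ℝ} (hab : a ≤ b) (hb : b < 1) (k : ℕ) : po b k ≤ po a k := by
  induction k with
  | zero => exact le_rfl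
  | succ k ih =>
    have hk : (0 : ℝ) ≤ k := Nat.cast_nonneg k
    exact mul_le_mul ih (by linarith) (by linarith) (po_pos (hab.trans_lt hb) k).le

theorem KS_mono {a b w : ℝ} (hab : a ≤ b) (hb : b < 1) (hw : 0 ≤ w) (m : ℕ) :
    KS a w m ≤ KS b w m := by
  refine Finset.sum_le_sum fun k _ => ?_
  exact div_le_div_of_nonneg_left (by positivity) (po_pos hb k) (po_anti hab hb k)

theorem KS_five : 131 ≤ KS (24 / 25) 5 12 := by
  unfold KS
  norm_num [Finset.sum_range_succ, po]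

theorem Sa_five {a : ℝ} (h0 : 24 / 25 ≤ a) (h1 : a < 1) : 131 ≤ Sa a 5 :=
  KS_five.trans ((KS_mono h0 h1 (by norm_num) 12).trans
    (KS_le (by linarith) h1 (by norm_num) 12))

/-- **(i)** -/
theorem F0_five {a : ℝ} (h0 : 24 / 25 ≤ a) (h1 : a < 1) : 1 - (1 - a) / 125 ≤ CG.F0 a 5 := by
  have ha0 : 0 < a := by linarith
  have hS := Sa_five h0 h1
  have hD := DD_pos ha0 h1 (show (0 : ℝ) < 5 by norm_num)
  have h3 : CG.F0 a 5 = a * Sa a 5 / DD a 5 := FF_zero ha0 h1 (by norm_num)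
  rw [h3, le_div_iff₀ hD]
  have h4 : 125 ≤ DD a 5 := by
    unfold DD
    nlinarith
  have h5 : a * Sa a 5 = DD a 5 - (1 - a) := by
    unfold DD
    ring
  rw [h5]
  have h6 : 0 ≤ (1 - a) * (DD a 5 - 125) := mul_nonneg (by linarith) (by linarith)
  linarith

/-- lower bound of `mu` by the levels 1 and 2 -/
theorem le_muN {a c : ℝ} (ha0 : 0 < a) (ha1 : a < 1) (hc : 0 < c) {n : ℕ} (hn : 3 ≤ n) :
    (3 / ((1 + a) * (2 - a)) * (Sa a c - 1 - rh 1 c) + 5 / ((2 + a) * (3 - a)) *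
      (Sa a c - 1 - rh 1 c - (1 + a) / (2 - a) * (rh 1 c + rh 2 c))) / Sa a c ≤
      CG.muN n a c := by
  have hT := Tl_pos ha0 ha1 hc 0
  have hz := zz_pos ha0 ha1 hc
  have hD := DD_pos ha0 ha1 hc
  have hS := Sa_pos ha0 ha1 hc
  have hS0 : 0 < Sa a c := by linarith
  have h2 : 0 < 2 - a := by linarith
  have h3 : 0 < 3 - a := by linarith
  unfold CG.muN
  have h4 : Finset.Ico 1 3 ⊆ Finset.Ico 1 n := Finset.Ico_subset_Ico_right hn
  have h5 : ∑ j ∈ Finset.Ico 1 3,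
      Tl a c j * ((2 * (j : ℝ) + 1) / (((j : ℝ) + a) * ((j : ℝ) + 1 - a))) ≤
      ∑ j ∈ Finset.Ico 1 n,
      Tl a c j * ((2 * (j : ℝ) + 1) / (((j : ℝ) + a) * ((j : ℝ) + 1 - a))) := by
    refine Finset.sum_le_sum_of_subset_of_nonneg h4 fun j _ _ => ?_
    have h2 := Tl_pos ha0 ha1 hc j
    have h3 : (0 : ℝ) ≤ j := Nat.cast_nonneg j
    have h4 : 0 < (j : ℝ) + 1 - a := by linarith
    positivity
  refine le_trans (le_of_eq ?_) (div_le_div_of_nonneg_right h5 hT.le)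
  have e0 : Tl a c 0 = FF a c 0 * zz a c := by
    unfold FF
    field_simp
  have e1 : Tl a c 1 = FF a c 1 * zz a c := by
    unfold FF
    field_simp
  have e2 : Tl a c 2 = FF a c 2 * zz a c := by
    unfold FF
    field_simp
  rw [Finset.sum_Ico_succ_top (by norm_num), Finset.sum_Ico_succ_top (by norm_num),
    Finset.Ico_self, Finset.sum_empty, e0, e1, e2, FF_zero ha0 ha1 hc, FF_one ha0 ha1 hc,
    FF_two ha0 ha1 hc]
  have k1 : (((1 : ℕ) : ℝ) + 1 - a) = 2 - a := by push_cast; ring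
  have k2 : (((2 : ℕ) : ℝ) + 1 - a) = 3 - a := by push_cast; ring
  rw [k1, k2]
  push_cast
  field_simp
  ring

theorem rh_five_one : rh 1 5 ≤ 10394 / 1000 := by
  rw [rh_one (by norm_num), div_le_iff₀ (by norm_num)]
  have := exp_five_lt
  linarith

theorem rh_five_two : rh 2 5 ≤ 10237 / 1000 := by
  rw [rh_two (by norm_num), div_le_iff₀ (by norm_num)]
  have := exp_five_lt
  linarith

/-- **(ii), lower bound** -/
theorem le_muN_five {a : ℝ} (h0 : 24 / 25 ≤ a) (h1 : a ≤ 99 / 100) {n : ℕ} (hn : 3 ≤ n) :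
    46 / 25 ≤ CG.muN n a 5 := by
  have ha0 : 0 < a := by linarith
  have ha1 : a < 1 := by linarith
  have hS := Sa_five h0 ha1
  have r1 := rh_five_one
  have r2 := rh_five_two
  have r1' := rh_pos 1 (show (0 : ℝ) < 5 by norm_num)
  have r2' := rh_pos 2 (show (0 : ℝ) < 5 by norm_num)
  refine le_trans ?_ (le_muN ha0 ha1 (by norm_num) hn)
  rw [le_div_iff₀ (by linarith)]
  set S : ℝ := Sa a 5
  have h2 : 0 < 2 - a := by linarith
  have h3 : 0 < 3 - a := by linarith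
  -- the coefficients
  have m1 : 147 / 100 ≤ 3 / ((1 + a) * (2 - a)) := by
    rw [div_le_div_iff₀ (by norm_num) (by positivity)]
    nlinarith
  have m1' : 3 / ((1 + a) * (2 - a)) ≤ 3 / 2 := by
    rw [div_le_div_iff₀ (by positivity) (by norm_num)]
    nlinarith
  have m2 : 828 / 1000 ≤ 5 / ((2 + a) * (3 - a)) := by
    rw [div_le_div_iff₀ (by norm_num) (by positivity)]
    nlinarith
  have m2' : 5 / ((2 + a) * (3 - a)) ≤ 5 / 6 := by
    rw [div_le_div_iff₀ (by positivity) (by norm_num)]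
    nlinarith
  have m3 : (1 + a) / (2 - a) ≤ 199 / 101 := by
    rw [div_le_div_iff₀ h2 (by norm_num)]
    linarith
  have m3' : 0 < (1 + a) / (2 - a) := by positivity
  set M1 : ℝ := 3 / ((1 + a) * (2 - a))
  set M2 : ℝ := 5 / ((2 + a) * (3 - a))
  set q : ℝ := (1 + a) / (2 - a)
  have k1 : q * (rh 1 5 + rh 2 5) ≤ 199 / 101 * (20631 / 1000) :=
    mul_le_mul m3 (by linarith) (by positivity) (by norm_num)
  have k2 : 0 ≤ (M1 - 147 / 100) * (S - 11394 / 1000) :=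
    mul_nonneg (by linarith) (by linarith)
  have k3 : 0 ≤ (M2 - 828 / 1000) * (S - 11394 / 1000 - 199 / 101 * (20631 / 1000)) :=
    mul_nonneg (by linarith) (by linarith)
  have k4 : M1 * (S - 11394 / 1000) ≤ M1 * (S - 1 - rh 1 5) :=
    mul_le_mul_of_nonneg_left (by linarith) (by linarith)
  have k5 : M2 * (S - 11394 / 1000 - 199 / 101 * (20631 / 1000)) ≤
      M2 * (S - 1 - rh 1 5 - q * (rh 1 5 + rh 2 5)) :=
    mul_le_mul_of_nonneg_left (by linarith) (by linarith)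
  nlinarith

end Pool.Agent.Lib.QNL.Enc
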