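import Mathlib

/-!
Room QNL, group N: rational brackets of real powers, `0 ≤ q ≤ 1`, `s ≥ 0`.

Bernoulli: `s² ≤ s^(1+q) (q + (1-q) s)` and `s^(1+q) ≤ s (1 + q (s-1))`.
Pade: for `s ≤ 1`
`s² ((2-q) + q s) ≤ s^(1+q) (q + (2-q) s)` and `s^(1+q) ((1+q) + (1-q) s) ≤ s ((1-q) + (1+q) s)`,
and both are reversed for `s ≥ 1`. The same statements are given for `x²`, where `s = x^r` and
`r (1+q) = 2`.
-/

set_option autoImplicit false

namespace Pool.Agent.Lib.QNL.Brk38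

open Real Set

/-- concavity of `s^q`: `s^q ≤ 1 + q (s-1)` -/
theorem rpow_le_affine {q s : ℝ} (h0 : 0 ≤ q) (h1 : q ≤ 1) (hs : 0 ≤ s) :
    s ^ q ≤ 1 + q * (s - 1) := by
  have h := _root_.rpow_one_add_le_one_add_mul_self (s := s - 1) (by linarith) h0 h1
  rwa [add_sub_cancel] at h

/-- Bernoulli, upper -/
theorem rpow_upper {q s : ℝ} (h0 : 0 ≤ q) (h1 : q ≤ 1) (hs : 0 ≤ s) :
    s ^ (1 + q) ≤ s * (1 + q * (s - 1)) := by
  rcases hs.eq_or_lt with h | h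
  · rw [← h, Real.zero_rpow (by linarith)]
    simp
  · rw [Real.rpow_add h, Real.rpow_one]
    exact mul_le_mul_of_nonneg_left (rpow_le_affine h0 h1 hs) hs

/-- Bernoulli, lower -/
theorem rpow_lower {q s : ℝ} (h0 : 0 ≤ q) (h1 : q ≤ 1) (hs : 0 ≤ s) :
    s ^ 2 ≤ s ^ (1 + q) * (q + (1 - q) * s) := by
  rcases hs.eq_or_lt with h | h
  · rw [← h, Real.zero_rpow (by linarith)]
    simp
  · have h2 : s ^ (1 - q) ≤ q + (1 - q) * s := by
      have := rpow_le_affine (q := 1 - q) (by linarith) (by linarith) hs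
      linarith
    have h3 : s ^ (1 + q) * s ^ (1 - q) = s ^ 2 := by
      rw [← Real.rpow_add h, ← Real.rpow_natCast]
      norm_num
    rw [← h3]
    exact mul_le_mul_of_nonneg_left h2 (Real.rpow_nonneg hs _)

/-- `log ((1-q) + (1+q) s) - log ((1+q) + (1-q) s) - q log s` -/
noncomputable def F (q s : ℝ) : ℝ :=
  Real.log ((1 - q) + (1 + q) * s) - Real.log ((1 + q) + (1 - q) * s) - q * Real.log s

theorem F_anti {q : ℝ} (h0 : 0 ≤ q) (h1 : q ≤ 1) : AntitoneOn (F q) (Ioi 0) := by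
  have hA : ∀ x : ℝ, 0 < x → 0 < (1 - q) + (1 + q) * x := fun x hx => by
    have : 0 < (1 + q) * x := mul_pos (by linarith) hx
    linarith
  have hB : ∀ x : ℝ, 0 < x → 0 < (1 + q) + (1 - q) * x := fun x hx => by
    have : 0 ≤ (1 - q) * x := mul_nonneg (by linarith) hx.le
    linarith
  have hderiv : ∀ x : ℝ, 0 < x → HasDerivAt (F q) ((1 + q) / ((1 - q) + (1 + q) * x)
      - (1 - q) / ((1 + q) + (1 - q) * x) - q * x⁻¹) x := by
    intro x hx
    have e1 : HasDerivAt (fun s : ℝ => q * Real.log s) (q * x⁻¹) x :=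
      (Real.hasDerivAt_log hx.ne').const_mul _
    have e2 : HasDerivAt (fun s : ℝ => (1 - q) + (1 + q) * s) (1 + q) x := by
      have := ((hasDerivAt_id x).const_mul (1 + q)).const_add (1 - q)
      simpa using this
    have e3 : HasDerivAt (fun s : ℝ => (1 + q) + (1 - q) * s) (1 - q) x := by
      have := ((hasDerivAt_id x).const_mul (1 - q)).const_add (1 + q)
      simpa using this
    exact ((e2.log (hA x hx).ne').sub (e3.log (hB x hx).ne')).sub e1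
  apply antitoneOn_of_deriv_nonpos (convex_Ioi 0)
  · intro x hx
    exact (hderiv x hx).continuousAt.continuousWithinAt
  · intro x hx
    rw [interior_Ioi] at hx
    exact (hderiv x hx).differentiableAt.differentiableWithinAt
  · intro x hx
    rw [interior_Ioi] at hx
    have hxp : 0 < x := hx
    rw [(hderiv x hxp).deriv]
    have a1 := hA x hxp
    have b1 := hB x hxp
    have key : (1 + q) / ((1 - q) + (1 + q) * x) - (1 - q) / ((1 + q) + (1 - q) * x) - q * x⁻¹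
        = -(q * (1 - q ^ 2) * (1 - x) ^ 2) /
          (((1 - q) + (1 + q) * x) * ((1 + q) + (1 - q) * x) * x) := by
      rw [← div_eq_mul_inv, div_sub_div _ _ a1.ne' b1.ne',
        div_sub_div _ _ (mul_ne_zero a1.ne' b1.ne') hxp.ne']
      congr 1
      ring
    rw [key]
    apply div_nonpos_of_nonpos_of_nonneg
    · have : 0 ≤ q * (1 - q ^ 2) * (1 - x) ^ 2 := by
        apply mul_nonneg _ (sq_nonneg _)
        apply mul_nonneg h0
        nlinarith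
      linarith
    · positivity

theorem F_one (q : ℝ) : F q 1 = 0 := by
  unfold F
  have : (1 - q) + (1 + q) * 1 = (1 + q) + (1 - q) * 1 := by ring
  rw [this]
  simp

/-- Pade for `s^q`, `s ≤ 1` -/
theorem pade_le_one {q s : ℝ} (h0 : 0 ≤ q) (h1 : q ≤ 1) (hs : 0 < s) (hs1 : s ≤ 1) :
    s ^ q * ((1 + q) + (1 - q) * s) ≤ (1 - q) + (1 + q) * s := by
  have hA : 0 < (1 - q) + (1 + q) * s := by
    have : 0 < (1 + q) * s := mul_pos (by linarith) hs
    linarith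
  have hB : 0 < (1 + q) + (1 - q) * s := by
    have : 0 ≤ (1 - q) * s := mul_nonneg (by linarith) hs.le
    linarith
  have h := F_anti h0 h1 (mem_Ioi.2 hs) (mem_Ioi.2 one_pos) hs1
  rw [F_one] at h
  unfold F at h
  have e1 : Real.log (s ^ q * ((1 + q) + (1 - q) * s)) ≤ Real.log ((1 - q) + (1 + q) * s) := by
    rw [Real.log_mul (Real.rpow_pos_of_pos hs q).ne' hB.ne', Real.log_rpow hs]
    linarith
  exact (Real.log_le_log_iff (mul_pos (Real.rpow_pos_of_pos hs q) hB) hA).1 e1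

/-- Pade for `s^q`, `1 ≤ s` -/
theorem pade_ge_one {q s : ℝ} (h0 : 0 ≤ q) (h1 : q ≤ 1) (hs1 : 1 ≤ s) :
    (1 - q) + (1 + q) * s ≤ s ^ q * ((1 + q) + (1 - q) * s) := by
  have hs : 0 < s := by linarith
  have hA : 0 < (1 - q) + (1 + q) * s := by
    have : 0 < (1 + q) * s := mul_pos (by linarith) hs
    linarith
  have hB : 0 < (1 + q) + (1 - q) * s := by
    have : 0 ≤ (1 - q) * s := mul_nonneg (by linarith) hs.le
    linarith
  have h := F_anti h0 h1 (mem_Ioi.2 one_pos) (mem_Ioi.2 hs) hs1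
  rw [F_one] at h
  unfold F at h
  have e1 : Real.log ((1 - q) + (1 + q) * s) ≤ Real.log (s ^ q * ((1 + q) + (1 - q) * s)) := by
    rw [Real.log_mul (Real.rpow_pos_of_pos hs q).ne' hB.ne', Real.log_rpow hs]
    linarith
  exact (Real.log_le_log_iff hA (mul_pos (Real.rpow_pos_of_pos hs q) hB)).1 e1

theorem mul_rpow_one_sub {q s : ℝ} (hs : 0 < s) : s ^ (1 + q) * s ^ (1 - q) = s ^ 2 := by
  rw [← Real.rpow_add hs, ← Real.rpow_natCast]
  norm_num

/-- Pade, upper, `s ≤ 1` -/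
theorem pade_upper_le {q s : ℝ} (h0 : 0 ≤ q) (h1 : q ≤ 1) (hs : 0 ≤ s) (hs1 : s ≤ 1) :
    s ^ (1 + q) * ((1 + q) + (1 - q) * s) ≤ s * ((1 - q) + (1 + q) * s) := by
  rcases hs.eq_or_lt with h | h
  · rw [← h, Real.zero_rpow (by linarith)]
    simp
  · rw [Real.rpow_add h, Real.rpow_one, mul_assoc]
    exact mul_le_mul_of_nonneg_left (pade_le_one h0 h1 h hs1) hs

/-- Pade, lower, `1 ≤ s` -/
theorem pade_lower_ge {q s : ℝ} (h0 : 0 ≤ q) (h1 : q ≤ 1) (hs1 : 1 ≤ s) :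
    s * ((1 - q) + (1 + q) * s) ≤ s ^ (1 + q) * ((1 + q) + (1 - q) * s) := by
  have h : 0 < s := by linarith
  rw [Real.rpow_add h, Real.rpow_one, mul_assoc]
  exact mul_le_mul_of_nonneg_left (pade_ge_one h0 h1 hs1) h.le

/-- Pade, lower, `s ≤ 1` -/
theorem pade_lower_le {q s : ℝ} (h0 : 0 ≤ q) (h1 : q ≤ 1) (hs : 0 ≤ s) (hs1 : s ≤ 1) :
    s ^ 2 * ((2 - q) + q * s) ≤ s ^ (1 + q) * (q + (2 - q) * s) := by
  rcases hs.eq_or_lt with h | h
  · rw [← h, Real.zero_rpow (by linarith)]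
    simp
  · have h2 := pade_le_one (q := 1 - q) (by linarith) (by linarith) h hs1
    have h3 := mul_le_mul_of_nonneg_left h2 (Real.rpow_nonneg hs (1 + q))
    rw [← mul_assoc, mul_rpow_one_sub h] at h3
    have e1 : (1 + (1 - q)) + (1 - (1 - q)) * s = (2 - q) + q * s := by ring
    have e2 : (1 - (1 - q)) + (1 + (1 - q)) * s = q + (2 - q) * s := by ring
    rwa [e1, e2] at h3

/-- Pade, upper, `1 ≤ s` -/
theorem pade_upper_ge {q s : ℝ} (h0 : 0 ≤ q) (h1 : q ≤ 1) (hs1 : 1 ≤ s) :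
    s ^ (1 + q) * (q + (2 - q) * s) ≤ s ^ 2 * ((2 - q) + q * s) := by
  have h : 0 < s := by linarith
  have h2 := pade_ge_one (q := 1 - q) (by linarith) (by linarith) hs1
  have h3 := mul_le_mul_of_nonneg_left h2 (Real.rpow_nonneg h.le (1 + q))
  rw [← mul_assoc, mul_rpow_one_sub h] at h3
  have e1 : (1 + (1 - q)) + (1 - (1 - q)) * s = (2 - q) + q * s := by ring
  have e2 : (1 - (1 - q)) + (1 + (1 - q)) * s = q + (2 - q) * s := by ring
  rwa [e1, e2] at h3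

/-! ### the same for `x²`, `s = x^r` -/

/-- `x² = (x^r)^(1+q)` if `r (1+q) = 2` -/
theorem sq_eq {x r q : ℝ} (hx : 0 ≤ x) (hr : r * (1 + q) = 2) : x ^ 2 = (x ^ r) ^ (1 + q) := by
  rw [← Real.rpow_mul hx, hr, Real.rpow_two]

variable {x r q : ℝ}

theorem sq_upper (hx : 0 ≤ x) (hr : r * (1 + q) = 2) (h0 : 0 ≤ q) (h1 : q ≤ 1) :
    x ^ 2 ≤ x ^ r * (1 + q * (x ^ r - 1)) := by
  rw [sq_eq hx hr]
  exact rpow_upper h0 h1 (Real.rpow_nonneg hx r)

theorem sq_lower (hx : 0 ≤ x) (hr : r * (1 + q) = 2) (h0 : 0 ≤ q) (h1 : q ≤ 1) :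
    (x ^ r) ^ 2 ≤ x ^ 2 * (q + (1 - q) * x ^ r) := by
  rw [sq_eq hx hr]
  exact rpow_lower h0 h1 (Real.rpow_nonneg hx r)

theorem sq_pade_upper_le (hx : 0 ≤ x) (hr : r * (1 + q) = 2) (h0 : 0 ≤ q) (h1 : q ≤ 1)
    (hs : x ^ r ≤ 1) :
    x ^ 2 * ((1 + q) + (1 - q) * x ^ r) ≤ x ^ r * ((1 - q) + (1 + q) * x ^ r) := by
  rw [sq_eq hx hr]
  exact pade_upper_le h0 h1 (Real.rpow_nonneg hx r) hs

theorem sq_pade_lower_le (hx : 0 ≤ x) (hr : r * (1 + q) = 2) (h0 : 0 ≤ q) (h1 : q ≤ 1)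
    (hs : x ^ r ≤ 1) :
    (x ^ r) ^ 2 * ((2 - q) + q * x ^ r) ≤ x ^ 2 * (q + (2 - q) * x ^ r) := by
  rw [sq_eq hx hr]
  exact pade_lower_le h0 h1 (Real.rpow_nonneg hx r) hs

theorem sq_pade_lower_ge (hx : 0 ≤ x) (hr : r * (1 + q) = 2) (h0 : 0 ≤ q) (h1 : q ≤ 1)
    (hs : 1 ≤ x ^ r) :
    x ^ r * ((1 - q) + (1 + q) * x ^ r) ≤ x ^ 2 * ((1 + q) + (1 - q) * x ^ r) := by
  rw [sq_eq hx hr]
  exact pade_lower_ge h0 h1 hs

theorem sq_pade_upper_ge (hx : 0 ≤ x) (hr : r * (1 + q) = 2) (h0 : 0 ≤ q) (h1 : q ≤ 1)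
    (hs : 1 ≤ x ^ r) :
    x ^ 2 * (q + (2 - q) * x ^ r) ≤ (x ^ r) ^ 2 * ((2 - q) + q * x ^ r) := by
  rw [sq_eq hx hr]
  exact pade_upper_ge h0 h1 hs

end Pool.Agent.Lib.QNL.Brk38
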