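import Pool.Agent.Lib.QNL.PerA

/-!
The logarithmic potential `N μ` and the mean value kernel `J r μ`:
`circleAverage (N μ) x r = N μ x + J r μ x`.
-/

set_option autoImplicit false

namespace Pool.Agent.Lib.QNL.Per

open MeasureTheory Filter Topology Set Metric Complex InnerProductSpace
open scoped Real

/-- `J r μ x = (1/2π) ∫ log⁺ (r/|y|) μ(x - y) dy` -/
noncomputable def J (r : ℝ) (μ : ℂ → ℝ) (x : ℂ) : ℝ :=
  (2 * π)⁻¹ * ∫ y : ℂ, Real.posLog (r / ‖y‖) * μ (x - y)

/-- the logarithmic potential -/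
noncomputable def N (μ : ℂ → ℝ) (x : ℂ) : ℝ :=
  (2 * π)⁻¹ * ∫ y : ℂ, Real.log ‖y‖ * μ (x - y)

/-! ### The kernels -/

theorem posLog_div_eq {r t : ℝ} (hr : 0 < r) (ht : 0 < t) (h : t < r) :
    Real.posLog (r / t) = Real.log r - Real.log t := by
  rw [Real.posLog_eq_log, Real.log_div hr.ne' ht.ne']
  rw [abs_of_pos (div_pos hr ht), one_le_div ht]
  exact h.le

theorem posLog_div_eq_zero {r t : ℝ} (hr : 0 < r) (h : r ≤ t) : Real.posLog (r / t) = 0 := by
  have ht : 0 < t := hr.trans_le h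
  rw [Real.posLog_eq_zero_iff, abs_of_pos (div_pos hr ht), div_le_one ht]
  exact h

/-- the kernel in polar coordinates -/
theorem polar_kernel {r : ℝ} (hr : 0 < r) :
    IntegrableOn (fun t : ℝ => t ^ (1 : ℕ) • Real.posLog (r / t)) (Ioi 0) ∧
      ∫ t in Ioi (0 : ℝ), t ^ (1 : ℕ) • Real.posLog (r / t) = r ^ 2 / 4 := by
  -- a primitive
  have hprim : ∀ t ∈ Ioo 0 r, HasDerivAt (fun t : ℝ => t ^ 2 / 2 * (Real.log r - Real.log t) +
      t ^ 2 / 4) (t * (Real.log r - Real.log t)) t := by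
    intro t ht
    have h1 : HasDerivAt (fun t : ℝ => Real.log r - Real.log t) (-(t⁻¹)) t := by
      simpa using (Real.hasDerivAt_log ht.1.ne').const_sub (Real.log r)
    have h2 : HasDerivAt (fun t : ℝ => t ^ 2 / 2) t t := by
      have := (hasDerivAt_pow 2 t).div_const 2
      simpa using this
    have h3 : HasDerivAt (fun t : ℝ => t ^ 2 / 4) (t / 2) t := by
      have := (hasDerivAt_pow 2 t).div_const 4
      refine this.congr_deriv ?_
      push_cast
      ring
    refine ((h2.mul h1).add h3).congr_deriv ?_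
    have h4 : t * t⁻¹ = 1 := mul_inv_cancel₀ ht.1.ne'
    have h5 : t ^ 2 / 2 * -t⁻¹ = - t / 2 * (t * t⁻¹) := by ring
    rw [h5, h4]
    ring
  have hcont : ContinuousOn (fun t : ℝ => t ^ 2 / 2 * (Real.log r - Real.log t) + t ^ 2 / 4)
      (Icc 0 r) := by
    have h1 : Continuous fun t : ℝ => t * (t * Real.log t) := continuous_id.mul Real.continuous_mul_log
    have h2 : Continuous fun t : ℝ => t ^ 2 / 2 * Real.log r - (t * (t * Real.log t)) / 2 +
        t ^ 2 / 4 := by fun_prop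
    refine h2.continuousOn.congr fun t _ => ?_
    ring
  have hnn : ∀ t ∈ Ioo 0 r, 0 ≤ t * (Real.log r - Real.log t) := fun t ht =>
    mul_nonneg ht.1.le (sub_nonneg.2 (Real.log_le_log ht.1 ht.2.le))
  have hI : IntervalIntegrable (fun t : ℝ => t * (Real.log r - Real.log t)) volume 0 r :=
    (intervalIntegrable_iff_integrableOn_Ioc_of_le hr.le).2
      (intervalIntegral.integrableOn_deriv_of_nonneg hcont hprim hnn)
  have hval : ∫ t in (0 : ℝ)..r, t * (Real.log r - Real.log t) = r ^ 2 / 4 := by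
    rw [intervalIntegral.integral_eq_sub_of_hasDerivAt_of_le hr.le hcont hprim hI]
    simp
  have hsupp : ∀ t ∈ Ioi (0 : ℝ), t ^ (1 : ℕ) • Real.posLog (r / t) =
      (Ioc 0 r).indicator (fun t => t * (Real.log r - Real.log t)) t := by
    intro t ht
    have ht0 : 0 < t := ht
    rcases lt_or_ge t r with h | h
    · rw [indicator_of_mem (show t ∈ Ioc 0 r from ⟨ht0, h.le⟩), posLog_div_eq hr ht0 h, pow_one,
        smul_eq_mul]
    · rw [posLog_div_eq_zero hr h, smul_zero]
      rcases h.eq_or_lt with h' | h'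
      · rw [indicator_of_mem (show t ∈ Ioc 0 r from ⟨ht0, h'.ge⟩), h', sub_self, mul_zero]
      · rw [indicator_of_notMem (fun h'' => absurd h''.2 (not_le.2 h'))]
  have hIoc : IntegrableOn (fun t : ℝ => t * (Real.log r - Real.log t)) (Ioc 0 r) :=
    (intervalIntegrable_iff_integrableOn_Ioc_of_le hr.le).1 hI
  have hind : IntegrableOn ((Ioc 0 r).indicator fun t => t * (Real.log r - Real.log t))
      (Ioi (0 : ℝ)) :=
    (hIoc.integrable_indicator measurableSet_Ioc).integrableOn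
  refine ⟨hind.congr_fun (fun t ht => (hsupp t ht).symm) measurableSet_Ioi, ?_⟩
  rw [setIntegral_congr_fun measurableSet_Ioi hsupp, ← hval,
    intervalIntegral.integral_of_le hr.le, setIntegral_indicator measurableSet_Ioc]
  congr 2
  ext t
  simp only [mem_inter_iff, mem_Ioi, mem_Ioc]
  tauto

theorem integrable_posLog {r : ℝ} (hr : 0 < r) :
    Integrable (fun y : ℂ => Real.posLog (r / ‖y‖)) volume := by
  rw [integrable_fun_norm_addHaar (volume : Measure ℂ) (f := fun t => Real.posLog (r / t))]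
  rw [Complex.finrank_real_complex]
  exact (polar_kernel hr).1

theorem integral_posLog {r : ℝ} (hr : 0 < r) :
    ∫ y : ℂ, Real.posLog (r / ‖y‖) = 2 * π * (r ^ 2 / 4) := by
  rw [integral_fun_norm_addHaar (volume : Measure ℂ) (fun t => Real.posLog (r / t)),
    Complex.finrank_real_complex, (polar_kernel hr).2]
  have : (volume : Measure ℂ).real (ball (0 : ℂ) 1) = π := by
    rw [Measure.real, Complex.volume_ball]
    simp
  rw [this]
  simp only [smul_eq_mul, nsmul_eq_mul]
  push_cast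
  ring

/-! ### The functional `K r f = (1/2π) ∫ log⁺ (r/|y|) f(y) dy` -/

theorem exists_bound {μ : ℂ → ℝ} (hc : Continuous μ) (hs : HasCompactSupport μ) :
    ∃ M, ∀ x, |μ x| ≤ M := by
  obtain ⟨C, hC⟩ := hs.exists_bound_of_continuous hc
  exact ⟨C, fun x => by simpa using hC x⟩

theorem integrable_kernel_mul {r : ℝ} (hr : 0 < r) {f : ℂ → ℝ} (hf : Continuous f)
    {M : ℝ} (hM : ∀ x, |f x| ≤ M) : Integrable (fun y : ℂ => Real.posLog (r / ‖y‖) * f y) :=
  (integrable_posLog hr).mul_bdd hf.aestronglyMeasurable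
    (Eventually.of_forall fun x => by simpa using hM x)

theorem J_le_J {r : ℝ} (hr : 0 < r) {μ ν : ℂ → ℝ} (hμ : Continuous μ) (hν : Continuous ν)
    {M M' : ℝ} (hM : ∀ x, |μ x| ≤ M) (hM' : ∀ x, |ν x| ≤ M') {x x' : ℂ} {c : ℝ}
    (h : ∀ y, ‖y‖ < r → μ (x - y) ≤ ν (x' - y) + c) :
    J r μ x ≤ J r ν x' + c * (r ^ 2 / 4) := by
  have h1 := integrable_kernel_mul hr (f := fun y => μ (x - y)) (by fun_prop) (fun y => hM _)
  have h2 := integrable_kernel_mul hr (f := fun y => ν (x' - y)) (by fun_prop) (fun y => hM' _)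
  have h3 := (integrable_posLog hr).mul_const c
  have e : J r ν x' + c * (r ^ 2 / 4) =
      (2 * π)⁻¹ * ∫ y : ℂ, (Real.posLog (r / ‖y‖) * ν (x' - y) + Real.posLog (r / ‖y‖) * c) := by
    rw [integral_add h2 h3, integral_mul_const, integral_posLog hr, J]
    have := Real.pi_pos
    field_simp
  rw [e, J]
  refine mul_le_mul_of_nonneg_left ?_ (inv_nonneg.2 Real.two_pi_pos.le)
  refine integral_mono h1 (h2.add h3) fun y => ?_
  simp only
  rcases lt_or_ge ‖y‖ r with hy | hy
  · rw [← mul_add]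
    exact mul_le_mul_of_nonneg_left (h y hy) Real.posLog_nonneg
  · rw [posLog_div_eq_zero hr hy]
    simp

theorem J_zero (r : ℝ) (x : ℂ) : J r (fun _ => 0) x = 0 := by simp [J]

theorem J_const {r : ℝ} (hr : 0 < r) (c : ℝ) (x : ℂ) : J r (fun _ => c) x = c * (r ^ 2 / 4) := by
  rw [J, integral_mul_const, integral_posLog hr]
  have := Real.pi_pos
  field_simp

theorem J_le {r : ℝ} (hr : 0 < r) {μ : ℂ → ℝ} (hμ : Continuous μ) {M : ℝ} (hM : ∀ x, |μ x| ≤ M)
    {x : ℂ} {c : ℝ} (h : ∀ z ∈ ball x r, μ z ≤ c) : J r μ x ≤ c * (r ^ 2 / 4) := by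
  have := J_le_J hr hμ continuous_const hM (ν := fun _ => 0) (M' := 0) (by simp) (x := x) (x' := x)
    (c := c) (fun y hy => by
      rw [zero_add]
      refine h _ ?_
      rw [mem_ball_iff_norm]
      simpa using hy)
  rwa [J_zero, zero_add] at this

theorem le_J {r : ℝ} (hr : 0 < r) {μ : ℂ → ℝ} (hμ : Continuous μ) {M : ℝ} (hM : ∀ x, |μ x| ≤ M)
    {x : ℂ} {c : ℝ} (h : ∀ z ∈ ball x r, c ≤ μ z) : c * (r ^ 2 / 4) ≤ J r μ x := by
  have := J_le_J hr (μ := fun _ => 0) continuous_const hμ (M := 0) (by simp) hM (x := x) (x' := x)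
    (c := -c) (fun y hy => by
      have : c ≤ μ (x - y) := by
        refine h _ ?_
        rw [mem_ball_iff_norm]
        simpa using hy
      linarith)
  rw [J_zero] at this
  linarith

theorem J_nonneg {r : ℝ} {μ : ℂ → ℝ} (h : ∀ x, 0 ≤ μ x) (x : ℂ) : 0 ≤ J r μ x :=
  mul_nonneg (inv_nonneg.2 Real.two_pi_pos.le)
    (integral_nonneg fun y => mul_nonneg Real.posLog_nonneg (h _))

theorem J_comp_add (r : ℝ) (μ : ℂ → ℝ) (a x : ℂ) :
    J r (fun z => μ (z + a)) x = J r μ (x + a) := by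
  rw [J, J]
  congr 2
  ext y
  rw [show x - y + a = x + a - y by ring]

theorem J_add {r : ℝ} (hr : 0 < r) {μ ν : ℂ → ℝ} (hμ : Continuous μ) (hν : Continuous ν)
    {M M' : ℝ} (hM : ∀ x, |μ x| ≤ M) (hM' : ∀ x, |ν x| ≤ M') (x x' : ℂ) :
    J r (fun y => μ (y + x) + ν (y + x')) 0 = J r μ x + J r ν x' := by
  have h1 := integrable_kernel_mul hr (f := fun y => μ (x - y)) (by fun_prop) (fun y => hM _)
  have h2 := integrable_kernel_mul hr (f := fun y => ν (x' - y)) (by fun_prop) (fun y => hM' _)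
  rw [J, J, J, ← mul_add, ← integral_add h1 h2]
  congr 2
  ext y
  rw [← mul_add, show 0 - y + x = x - y by ring, show 0 - y + x' = x' - y by ring]

theorem J_smul (r c : ℝ) (μ : ℂ → ℝ) (x : ℂ) : J r (fun y => c * μ y) x = c * J r μ x := by
  have e : ∀ y : ℂ, Real.posLog (r / ‖y‖) * (c * μ (x - y)) =
      c * (Real.posLog (r / ‖y‖) * μ (x - y)) := fun y => by ring
  rw [J, J]
  simp_rw [e]
  rw [integral_const_mul]
  ring

/-- semiconvexity of `J` in the point (two-point form) -/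
theorem J_semi {r : ℝ} (hr : 0 < r) {μ : ℂ → ℝ} (hμ : Continuous μ) {M : ℝ}
    (hM : ∀ x, |μ x| ≤ M) {C : ℝ} {a : ℂ}
    (h : ∀ x, 2 * μ x - 2 * C * ‖a‖ ^ 2 ≤ μ (x + a) + μ (x - a)) (x : ℂ) :
    2 * J r μ x - 2 * C * ‖a‖ ^ 2 * (r ^ 2 / 4) ≤ J r μ (x + a) + J r μ (x - a) := by
  have e := J_add hr hμ hμ hM hM (x + a) (x - a)
  rw [← e, sub_le_iff_le_add]
  have e2 : 2 * J r μ x = J r (fun y => 2 * μ y) x := (J_smul r 2 μ x).symm
  rw [e2]
  refine J_le_J hr (M := 2 * M) (M' := M + M) (by fun_prop) (by fun_prop) (fun y => ?_)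
    (fun y => ?_) fun y _ => ?_
  · rw [abs_mul, abs_two]
    linarith [hM y]
  · exact (abs_add_le _ _).trans (add_le_add (hM _) (hM _))
  · have := h (x - y)
    rw [show 0 - y + (x + a) = x - y + a by ring, show 0 - y + (x - a) = x - y - a by ring]
    linarith

theorem continuous_J {r : ℝ} (hr : 0 < r) {μ : ℂ → ℝ} (hμ : Continuous μ) {M : ℝ}
    (hM : ∀ x, |μ x| ≤ M) : Continuous (J r μ) := by
  unfold J
  refine continuous_const.mul ?_
  refine continuous_of_dominated (bound := fun y : ℂ => Real.posLog (r / ‖y‖) * M) (fun x => ?_)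
    (fun x => Eventually.of_forall fun y => ?_) ((integrable_posLog hr).mul_const M)
    (Eventually.of_forall fun y => ?_)
  · exact (integrable_kernel_mul hr (f := fun y => μ (x - y)) (by fun_prop)
      (fun _ => hM _)).aestronglyMeasurable
  · rw [norm_mul, Real.norm_eq_abs, Real.norm_eq_abs, abs_of_nonneg Real.posLog_nonneg]
    exact mul_le_mul_of_nonneg_left (hM _) Real.posLog_nonneg
  · fun_prop

/-! ### The logarithmic potential -/

theorem locallyIntegrable_log : LocallyIntegrable (fun y : ℂ => Real.log ‖y‖) volume := by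
  have e : (fun y : ℂ => Real.log ‖y‖) =
      (fun y : ℂ => Real.posLog ‖y‖) - fun y : ℂ => Real.posLog (1 / ‖y‖) := by
    ext y
    rw [Pi.sub_apply, one_div, Real.posLog_sub_posLog_inv]
  rw [e]
  refine LocallyIntegrable.sub ?_ (integrable_posLog one_pos).locallyIntegrable
  exact (Real.continuous_posLog.comp continuous_norm).locallyIntegrable

theorem potential {k : ℂ → ℝ} (hk : LocallyIntegrable k volume) {μ : ℂ → ℝ} (hμ : Continuous μ)
    (hs : HasCompactSupport μ) :
    (∀ x, Integrable fun y : ℂ => k y * μ (x - y)) ∧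
      Continuous fun x => ∫ y : ℂ, k y * μ (x - y) := by
  refine ⟨fun x => ?_, ?_⟩
  · exact hs.convolutionExists_right (ContinuousLinearMap.mul ℝ ℝ) hk hμ x
  · exact hs.continuous_convolution_right (ContinuousLinearMap.mul ℝ ℝ) hk hμ

theorem slice {k : ℂ → ℝ} (hk : LocallyIntegrable k volume) {μ : ℂ → ℝ} (hμ : Continuous μ)
    (hs : HasCompactSupport μ) (w : ℂ) : Integrable fun z : ℂ => k (w - z) * μ z := by
  have := ((potential hk hμ hs).1 w).comp_sub_left w
  simp only [sub_sub_cancel] at this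
  exact this

theorem continuous_N {μ : ℂ → ℝ} (hμ : Continuous μ) (hs : HasCompactSupport μ) :
    Continuous (N μ) :=
  continuous_const.mul (potential locallyIntegrable_log hμ hs).2

theorem N_eq (μ : ℂ → ℝ) (x : ℂ) :
    N μ x = (2 * π)⁻¹ * ∫ z : ℂ, Real.log ‖x - z‖ * μ z := by
  rw [N]
  congr 1
  have := integral_sub_left_eq_self (fun y : ℂ => Real.log ‖x - y‖ * μ y) volume x
  rw [← this]
  congr 1
  ext y
  simp

theorem J_eq (r : ℝ) (μ : ℂ → ℝ) (x : ℂ) :
    J r μ x = (2 * π)⁻¹ * ∫ z : ℂ, Real.posLog (r / ‖x - z‖) * μ z := by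
  rw [J]
  congr 1
  have := integral_sub_left_eq_self (fun y : ℂ => Real.posLog (r / ‖x - y‖) * μ y) volume x
  rw [← this]
  congr 1
  ext y
  simp

theorem locallyIntegrable_abs_log : LocallyIntegrable (fun y : ℂ => |Real.log ‖y‖|) volume := by
  intro w
  obtain ⟨s, h1, h2⟩ := locallyIntegrable_log w
  exact ⟨s, h1, h2.norm⟩

theorem continuous_abs_pot {μ : ℂ → ℝ} (hμ : Continuous μ) (hs : HasCompactSupport μ) :
    Continuous fun w : ℂ => ∫ z : ℂ, ‖Real.log ‖w - z‖ * μ z‖ := by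
  have hμa : Continuous fun z => |μ z| := hμ.abs
  have hsa : HasCompactSupport fun z => |μ z| := hs.abs
  have hpot := (potential locallyIntegrable_abs_log hμa hsa).2
  have h3 : ∀ w : ℂ, ∫ z : ℂ, ‖Real.log ‖w - z‖ * μ z‖ =
      ∫ y : ℂ, |Real.log ‖y‖| * |μ (w - y)| := by
    intro w
    have := integral_sub_left_eq_self (fun y : ℂ => |Real.log ‖w - y‖| * |μ y|) volume w
    simp only [sub_sub_cancel] at this
    rw [this]
    simp only [Real.norm_eq_abs, abs_mul]
  simp_rw [h3]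
  exact hpot

theorem measurable_kernel {μ : ℂ → ℝ} (hμ : Continuous μ) (x : ℂ) (r : ℝ) :
    Measurable fun p : ℝ × ℂ => Real.log ‖circleMap x r p.1 - p.2‖ * μ p.2 := by
  have h1 : Measurable fun p : ℝ × ℂ => circleMap x r p.1 - p.2 :=
    ((continuous_circleMap x r).comp continuous_fst |>.sub continuous_snd).measurable
  have h2 : Measurable fun p : ℝ × ℂ => Real.log ‖circleMap x r p.1 - p.2‖ :=
    Real.measurable_log.comp h1.norm
  have h3 : Measurable fun p : ℝ × ℂ => μ p.2 := hμ.measurable.comp measurable_snd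
  exact h2.mul h3

/-- Fubini for the potential on a circle -/
theorem integrable_prod_log {μ : ℂ → ℝ} (hμ : Continuous μ) (hs : HasCompactSupport μ) (x : ℂ)
    (r : ℝ) : Integrable (fun p : ℝ × ℂ => Real.log ‖circleMap x r p.1 - p.2‖ * μ p.2)
      ((volume.restrict (Ioc 0 (2 * π))).prod volume) := by
  refine (integrable_prod_iff (measurable_kernel hμ x r).aestronglyMeasurable).2 ⟨?_, ?_⟩
  · refine Eventually.of_forall fun θ => ?_
    have h6 : Integrable fun z : ℂ => Real.log ‖circleMap x r θ - z‖ * μ z :=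
      slice locallyIntegrable_log hμ hs (circleMap x r θ)
    exact h6
  · have h5 : Continuous (fun θ => ∫ z : ℂ, ‖Real.log ‖circleMap x r θ - z‖ * μ z‖) :=
      (continuous_abs_pot hμ hs).comp (continuous_circleMap x r)
    exact h5.integrableOn_Icc.mono_set Ioc_subset_Icc_self

theorem inner_mean (μ : ℂ → ℝ) (x z : ℂ) {r : ℝ} (hr : 0 < r) :
    ∫ θ in Ioc 0 (2 * π), Real.log ‖circleMap x r θ - z‖ * μ z =
      2 * π * ((Real.log r + Real.posLog (r⁻¹ * ‖x - z‖)) * μ z) := by
  have h1 := circleAverage_log_norm_sub_const_eq_log_radius_add_posLog (a := z) (c := x)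
    (R := r) hr.ne'
  rw [Real.circleAverage_def, smul_eq_mul, inv_mul_eq_iff_eq_mul₀ Real.two_pi_pos.ne',
    intervalIntegral.integral_of_le Real.two_pi_pos.le] at h1
  rw [integral_mul_const, h1]
  ring

theorem log_identity {r t : ℝ} (hr : 0 < r) (ht : 0 < t) :
    Real.log r + Real.posLog (r⁻¹ * t) = Real.log t + Real.posLog (r / t) := by
  have h3 := Real.posLog_sub_posLog_inv (x := r⁻¹ * t)
  rw [Real.log_mul (inv_ne_zero hr.ne') ht.ne', Real.log_inv, mul_inv, inv_inv,
    ← div_eq_mul_inv] at h3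
  linarith

/-- the circle means of the potential -/
theorem circleAverage_N {μ : ℂ → ℝ} (hμ : Continuous μ) (hs : HasCompactSupport μ) (x : ℂ)
    {r : ℝ} (hr : 0 < r) : Real.circleAverage (N μ) x r = N μ x + J r μ x := by
  have hne : ∀ᵐ z : ℂ, z ≠ x := by
    refine (ae_iff.2 ?_)
    simp
  have h1 : ∫ z : ℂ, (Real.log r + Real.posLog (r⁻¹ * ‖x - z‖)) * μ z =
      ∫ z : ℂ, (Real.log ‖x - z‖ * μ z + Real.posLog (r / ‖x - z‖) * μ z) := by
    refine integral_congr_ae ?_
    filter_upwards [hne] with z hz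
    rw [← add_mul, log_identity hr (norm_pos_iff.2 (sub_ne_zero.2 (Ne.symm hz)))]
  rw [Real.circleAverage_def, smul_eq_mul, intervalIntegral.integral_of_le Real.two_pi_pos.le]
  simp_rw [N_eq]
  rw [integral_const_mul, integral_integral_swap (integrable_prod_log hμ hs x r)]
  simp_rw [inner_mean μ x _ hr]
  rw [integral_const_mul, h1, integral_add (slice locallyIntegrable_log hμ hs x)
    (slice (integrable_posLog hr).locallyIntegrable hμ hs x), J_eq]
  have := Real.pi_pos
  field_simp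

/-- lower bound of the potential -/
theorem le_N {μ : ℂ → ℝ} (hμ : Continuous μ) (hs : HasCompactSupport μ) (h0 : ∀ x, 0 ≤ μ x)
    {M : ℝ} (hM : ∀ x, μ x ≤ M) (x : ℂ) : -(M / 4) ≤ N μ x := by
  have hb : ∀ x, |μ x| ≤ M := fun x => by rw [abs_of_nonneg (h0 x)]; exact hM x
  have h1 := J_le one_pos hμ hb (x := x) (c := M) (fun z _ => hM z)
  have h2 : - J 1 μ x ≤ N μ x := by
    rw [J, N, ← mul_neg, ← integral_neg]
    refine mul_le_mul_of_nonneg_left ?_ (inv_nonneg.2 Real.two_pi_pos.le)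
    refine integral_mono (integrable_kernel_mul one_pos (f := fun y => μ (x - y)) (by fun_prop)
      (fun y => hb _)).neg ((potential locallyIntegrable_log hμ hs).1 x) fun y => ?_
    simp only
    rw [← neg_mul]
    refine mul_le_mul_of_nonneg_right ?_ (h0 _)
    have h3 := Real.posLog_sub_posLog_inv (x := ‖y‖)
    have h4 : 0 ≤ Real.posLog ‖y‖ := Real.posLog_nonneg
    rw [one_div]
    linarith
  linarith

/-- upper bound of the potential -/
theorem N_le {μ : ℂ → ℝ} (hμ : Continuous μ) (hs : HasCompactSupport μ) (h0 : ∀ x, 0 ≤ μ x)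
    {R : ℝ} (hR : ∀ x, R < ‖x‖ → μ x = 0) (x : ℂ) :
    N μ x ≤ (2 * π)⁻¹ * ((‖x‖ + R) * ∫ y, μ y) := by
  rw [N_eq]
  refine mul_le_mul_of_nonneg_left ?_ (inv_nonneg.2 Real.two_pi_pos.le)
  rw [← integral_const_mul]
  refine integral_mono ?_ ((hμ.integrable_of_hasCompactSupport hs).const_mul _) fun z => ?_
  · exact slice locallyIntegrable_log hμ hs x
  · simp only
    by_cases hz : R < ‖z‖
    · rw [hR z hz]
      simp
    · refine mul_le_mul_of_nonneg_right ?_ (h0 z)
      have h1 : Real.log ‖x - z‖ ≤ ‖x - z‖ := Real.log_le_self (norm_nonneg _)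
      have h2 := norm_sub_le x z
      linarith [not_lt.1 hz]

end Pool.Agent.Lib.QNL.Per
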