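import Pool.Agent.Lib.QNL.OStmts
import Pool.Agent.Lib.QNL.PerN
import Pool.Agent.Lib.QNL.Src19

/-!
QNL, group C (contraction), part 1: the canonical expansion `U l D` of an open set `D`
(sweeping domain of `e^l 1_D` to density one), as the union of the positivity sets of the obstacle
problems with sources `ν ≤ 1_D` at the level `e^{-l}`; supersolutions, comparison, sandwich.
-/

set_option autoImplicit false

namespace Pool.Agent.Lib.QNL.Ctr

open MeasureTheory Filter Topology Set Metric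
open scoped ContDiff

/-! ### Definitions -/

/-- supersolutions of the obstacle problem with source `ν` and level `L` -/
structure Sup (ν : ℂ → ℝ) (L : ℝ) (w : ℂ → ℝ) : Prop where
  cont : Continuous w
  nonneg : ∀ x, 0 ≤ w x
  sup : ∀ x r, 0 < r → Real.circleAverage w x r ≤ w x + L * r ^ 2 / 4 - O.J r ν x

/-- sources below `1_D` -/
structure Sub (D : Set ℂ) (ν : ℂ → ℝ) : Prop where
  src : ∃ C, O.Src ν C
  supp : tsupport ν ⊆ D
  le : ∀ x, ν x ≤ 1

/-- the canonical expansion: sweeping domain of `e^l 1_D` to density one -/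
def U (l : ℝ) (D : Set ℂ) : Set ℂ :=
  D ∪ {z | ∃ ν, Sub D ν ∧ ∀ w, Sup ν (Real.exp (-l)) w → 0 < w z}

/-! ### Facts on `J` -/

theorem J_eq_J (r : ℝ) (μ : ℂ → ℝ) (x : ℂ) : O.J r μ x = Per.J r μ x := rfl

theorem J_mono {r : ℝ} (hr : 0 < r) {μ ν : ℂ → ℝ} (hμ : Continuous μ) (hμs : HasCompactSupport μ)
    (hν : Continuous ν) (hνs : HasCompactSupport ν) (h : ∀ x, μ x ≤ ν x) (x : ℂ) :
    O.J r μ x ≤ O.J r ν x := by
  obtain ⟨M, hM⟩ := Per.exists_bound hμ hμs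
  obtain ⟨M', hM'⟩ := Per.exists_bound hν hνs
  have := Per.J_le_J hr hμ hν hM hM' (x := x) (x' := x) (c := 0) (fun y _ => by
    rw [add_zero]; exact h _)
  rw [zero_mul, add_zero] at this
  exact this

theorem J_le {r : ℝ} (hr : 0 < r) {μ : ℂ → ℝ} (hμ : Continuous μ) (hμs : HasCompactSupport μ)
    {x : ℂ} {c : ℝ} (h : ∀ z ∈ ball x r, μ z ≤ c) : O.J r μ x ≤ c * r ^ 2 / 4 := by
  obtain ⟨M, hM⟩ := Per.exists_bound hμ hμs
  have := Per.J_le hr hμ hM h
  rw [J_eq_J]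
  linarith

theorem le_J {r : ℝ} (hr : 0 < r) {μ : ℂ → ℝ} (hμ : Continuous μ) (hμs : HasCompactSupport μ)
    {x : ℂ} {c : ℝ} (h : ∀ z ∈ ball x r, c ≤ μ z) : c * r ^ 2 / 4 ≤ O.J r μ x := by
  obtain ⟨M, hM⟩ := Per.exists_bound hμ hμs
  have := Per.le_J hr hμ hM h
  rw [J_eq_J]
  linarith

/-! ### Local sub-mean property is global -/

theorem pois_center {c : ℂ} {R : ℝ} (hR : 0 < R) (g : ℂ → ℝ) :
    Per.pois c R g c = Real.circleAverage g c R := by
  rw [Per.pois, if_pos (mem_ball_self hR)]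
  refine Real.circleAverage_congr_sphere fun z hz => ?_
  rw [abs_of_pos hR] at hz
  have h1 : ‖z - c‖ = R := mem_sphere_iff_norm.1 hz
  have h2 : R ^ 2 ≠ 0 := (pow_pos hR 2).ne'
  rw [poissonKernel_def, sub_self, norm_zero, h1]
  simp [h1, h2]

theorem sub_global {f : ℂ → ℝ} (hf : Continuous f) (hs : ∀ x, Per.SubAt f x) (x : ℂ) {r : ℝ}
    (hr : 0 < r) : f x ≤ Real.circleAverage f x r := by
  rw [← pois_center hr f]
  have hh := Per.harmonicOnNhd_pois x r hf.continuousOn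
  have hc := Per.continuous_pois (c := x) (R := r) hf
  refine Per.comparison isOpen_ball isBounded_ball hf.continuousOn hc.continuousOn
    (fun z hz => ?_) (fun z hz => ?_) x (mem_ball_self hr)
  · have h1 := Per.meanAt_of_harmonic isOpen_ball hh hz
    filter_upwards [hs z, h1, self_mem_nhdsWithin] with ρ h2 h3 h4
    have e : (fun z => f z - Per.pois x r f z) = f - Per.pois x r f := rfl
    rw [e, Real.circleAverage_sub (hf.continuousOn.circleIntegrable h4.le)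
      (hc.continuousOn.circleIntegrable h4.le), h3]
    exact sub_le_sub_right h2 _
  · rw [frontier_ball x hr.ne'] at hz
    rw [Per.pois, if_neg]
    intro hz'
    rw [mem_ball, mem_sphere.1 hz] at hz'
    exact lt_irrefl _ hz'

/-! ### The lower bound of the Laplacian: `Δ u_L ≥ - μ + L 1_{u_L > 0}` -/

theorem lower {μ : ℂ → ℝ} {C : ℝ} {u : ℝ → ℂ → ℝ} (hu : O.Fam μ C u) {L : ℝ} (hL : 0 < L)
    {ν : ℂ → ℝ} (hν : Continuous ν) (hνs : HasCompactSupport ν)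
    (hsupp : tsupport ν ⊆ {x | 0 < u L x}) (h1 : ∀ x, ν x ≤ 1) (x : ℂ) {r : ℝ} (hr : 0 < r) :
    L * O.J r ν x + u L x - O.J r μ x ≤ Real.circleAverage (u L) x r := by
  have hμ := hu.src.cont
  have hμs := hu.src.cpt
  have hNμ := Per.continuous_N hμ hμs
  have hNν := Per.continuous_N hν hνs
  have huc := hu.cont L hL
  have havg : ∀ z ρ, 0 < ρ → Real.circleAverage (u L + Per.N μ - L • Per.N ν) z ρ =
      Real.circleAverage (u L) z ρ + (Per.N μ z + O.J ρ μ z) - L * (Per.N ν z + O.J ρ ν z) := by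
    intro z ρ hρ
    have i1 : CircleIntegrable (u L) z ρ := huc.continuousOn.circleIntegrable hρ.le
    have i2 : CircleIntegrable (Per.N μ) z ρ := hNμ.continuousOn.circleIntegrable hρ.le
    have i3 : CircleIntegrable (Per.N ν) z ρ := hNν.continuousOn.circleIntegrable hρ.le
    have i4 : CircleIntegrable (L • Per.N ν) z ρ :=
      (hNν.const_smul L).continuousOn.circleIntegrable hρ.le
    rw [Real.circleAverage_sub (i1.add i2) i4, Real.circleAverage_add i1 i2,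
      Real.circleAverage_smul, Per.circleAverage_N hμ hμs z hρ, Per.circleAverage_N hν hνs z hρ]
    rfl
  have hf : Continuous (u L + Per.N μ - L • Per.N ν) := (huc.add hNμ).sub (hNν.const_smul L)
  have hs : ∀ z, Per.SubAt (u L + Per.N μ - L • Per.N ν) z := by
    intro z
    by_cases hz : 0 < u L z
    · have hop : IsOpen {y | 0 < u L y} := isOpen_lt continuous_const huc
      obtain ⟨ε, hε, hb⟩ := Metric.isOpen_iff.1 hop z hz
      filter_upwards [self_mem_nhdsWithin, mem_nhdsWithin_of_mem_nhds (Iio_mem_nhds hε)]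
        with ρ h2 h3
      have h2' : 0 < ρ := h2
      rw [havg z ρ h2', hu.har L hL z ρ h2' ((closedBall_subset_ball h3).trans hb)]
      have h4 : O.J ρ ν z ≤ 1 * ρ ^ 2 / 4 := J_le h2' hν hνs (fun y _ => h1 y)
      have h5 := mul_le_mul_of_nonneg_left h4 hL.le
      simp only [Pi.sub_apply, Pi.add_apply, Pi.smul_apply, smul_eq_mul]
      linarith
    · have hz' : z ∈ (tsupport ν)ᶜ := fun h => hz (hsupp h)
      obtain ⟨ε, hε, hb⟩ := Metric.isOpen_iff.1 (isClosed_tsupport ν).isOpen_compl z hz'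
      filter_upwards [self_mem_nhdsWithin, mem_nhdsWithin_of_mem_nhds (Iio_mem_nhds hε)]
        with ρ h2 h3
      have h2' : 0 < ρ := h2
      rw [havg z ρ h2']
      have h4 : O.J ρ ν z ≤ 0 * ρ ^ 2 / 4 := J_le h2' hν hνs (fun y hy => by
        have h3' : ρ < ε := h3
        have : y ∉ tsupport ν := hb (ball_subset_ball h3'.le hy)
        rw [image_eq_zero_of_notMem_tsupport this])
      have h5 := mul_le_mul_of_nonneg_left h4 hL.le
      have h6 := hu.sub L hL z ρ h2'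
      simp only [Pi.sub_apply, Pi.add_apply, Pi.smul_apply, smul_eq_mul]
      linarith
  have h := sub_global hf hs x hr
  rw [havg x r hr] at h
  simp only [Pi.sub_apply, Pi.add_apply, Pi.smul_apply, smul_eq_mul] at h
  linarith

/-- the least solution is a supersolution -/
theorem sup_fam {μ : ℂ → ℝ} {C : ℝ} {u : ℝ → ℂ → ℝ} (hu : O.Fam μ C u) {L : ℝ} (hL : 0 < L) :
    Sup μ L (u L) := ⟨hu.cont L hL, hu.nonneg L hL, fun x r hr => hu.sup L hL x r hr⟩

theorem Sup.mono {ν : ℂ → ℝ} {L L' : ℝ} {w : ℂ → ℝ} (h : Sup ν L w) (hL : L ≤ L') :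
    Sup ν L' w := by
  refine ⟨h.cont, h.nonneg, fun x r hr => (h.sup x r hr).trans ?_⟩
  have : 0 ≤ r ^ 2 := sq_nonneg r
  nlinarith

theorem Sup.anti {ν ν' : ℂ → ℝ} {L : ℝ} {w : ℂ → ℝ} (h : Sup ν L w) (hν : Continuous ν)
    (hνs : HasCompactSupport ν) (hν' : Continuous ν') (hνs' : HasCompactSupport ν')
    (hle : ∀ x, ν' x ≤ ν x) : Sup ν' L w := by
  refine ⟨h.cont, h.nonneg, fun x r hr => (h.sup x r hr).trans ?_⟩
  have := J_mono hr hν' hνs' hν hνs hle x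
  linarith

/-- differences of supersolutions and the solution -/
theorem Sup.diff {μ : ℂ → ℝ} {C : ℝ} {u : ℝ → ℂ → ℝ} (hu : O.Fam μ C u) {L L' : ℝ} (hL : 0 < L)
    (hLL : L' ≤ L) {w : ℂ → ℝ} (hw : Sup μ L' w)
    {ν : ℂ → ℝ} (hν : Continuous ν) (hνs : HasCompactSupport ν)
    (hsupp : tsupport ν ⊆ {x | 0 < u L x}) (h1 : ∀ x, ν x ≤ 1) :
    Sup ν (L' / L) (fun x => L⁻¹ * (w x - u L x)) := by
  have hwL := hw.mono hLL
  have hle : ∀ x, u L x ≤ w x := hu.least L hL w hwL.cont hwL.nonneg hwL.sup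
  refine ⟨continuous_const.mul (hw.cont.sub (hu.cont L hL)), fun x =>
    mul_nonneg (inv_nonneg.2 hL.le) (sub_nonneg.2 (hle x)), fun x r hr => ?_⟩
  have i1 : CircleIntegrable w x r := hw.cont.continuousOn.circleIntegrable hr.le
  have i2 : CircleIntegrable (u L) x r := (hu.cont L hL).continuousOn.circleIntegrable hr.le
  have e : (fun x => L⁻¹ * (w x - u L x)) = L⁻¹ • (w - u L) := by
    ext y
    simp
  have h2 := hw.sup x r hr
  have h3 := lower hu hL hν hνs hsupp h1 x hr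
  rw [e, Real.circleAverage_smul, Real.circleAverage_sub i1 i2, smul_eq_mul]
  have h4 : Real.circleAverage w x r - Real.circleAverage (u L) x r ≤
      w x - u L x + L' * r ^ 2 / 4 - L * O.J r ν x := by linarith
  have h5 := mul_le_mul_of_nonneg_left h4 (inv_nonneg.2 hL.le)
  refine h5.trans (le_of_eq ?_)
  field_simp

/-! ### Sources below an open set -/

theorem exists_sub {D K : Set ℂ} (hD : IsOpen D) (hK : IsCompact K) (hKD : K ⊆ D) :
    ∃ ν, Sub D ν ∧ ∀ x ∈ K, ν x = 1 := by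
  obtain ⟨δ, hδ, hδD⟩ := hK.exists_cthickening_subset_open hD hKD
  obtain ⟨f, hf, hr, hsp, hone⟩ := exists_contMDiff_support_eq_eq_one_iff (modelWithCornersSelf ℝ ℂ)
    (n := (⊤ : ℕ∞)) (isOpen_thickening (δ := δ) (E := K)) hK.isClosed
    (self_subset_thickening hδ K)
  have hf' : ContDiff ℝ ∞ f := hf.contDiff
  have hts : tsupport f ⊆ cthickening δ K := by
    rw [tsupport, hsp]
    exact closure_thickening_subset_cthickening δ K
  have hcs : HasCompactSupport f := hK.cthickening.of_isClosed_subset (isClosed_tsupport f) hts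
  have h01 : ∀ x, f x ∈ Icc (0 : ℝ) 1 := fun x => hr (mem_range_self x)
  exact ⟨f, ⟨Src19.src_smooth (hf'.of_le (by norm_cast)) hcs (fun x => (h01 x).1), hts.trans hδD,
    fun x => (h01 x).2⟩, fun x hx => (hone x).1 hx⟩

/-- the positivity set of the least solution with source `ν` at the level `e^{-l}` -/
def Vs (l : ℝ) (ν : ℂ → ℝ) : Set ℂ := {z | ∀ w, Sup ν (Real.exp (-l)) w → 0 < w z}

theorem mem_U {l : ℝ} {D : Set ℂ} {z : ℂ} :
    z ∈ U l D ↔ z ∈ D ∨ ∃ ν, Sub D ν ∧ z ∈ Vs l ν := Iff.rfl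

theorem Vs_eq {l : ℝ} {ν : ℂ → ℝ} {C : ℝ} {u : ℝ → ℂ → ℝ} (hu : O.Fam ν C u) :
    Vs l ν = {z | 0 < u (Real.exp (-l)) z} := by
  ext z
  refine ⟨fun h => h _ (sup_fam hu (Real.exp_pos _)), fun h w hw => ?_⟩
  exact lt_of_lt_of_le h (hu.least _ (Real.exp_pos _) w hw.cont hw.nonneg hw.sup z)

theorem isOpen_Vs (hE : O.StmtExist) {l : ℝ} {ν : ℂ → ℝ} {C : ℝ} (hν : O.Src ν C) :
    IsOpen (Vs l ν) := by
  obtain ⟨u, hu⟩ := hE ν C hν
  rw [Vs_eq hu]
  exact isOpen_lt continuous_const (hu.cont _ (Real.exp_pos _))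

theorem Vs_anti {l : ℝ} {ν ν' : ℂ → ℝ} {C C' : ℝ} (hν : O.Src ν C) (hν' : O.Src ν' C')
    (h : ∀ x, ν x ≤ ν' x) : Vs l ν ⊆ Vs l ν' := fun _ hz w hw =>
  hz w (hw.anti hν'.cont hν'.cpt hν.cont hν.cpt h)

theorem Vs_mono {l l' : ℝ} (h : l ≤ l') (ν : ℂ → ℝ) : Vs l ν ⊆ Vs l' ν := fun _ hz w hw =>
  hz w (hw.mono (Real.exp_le_exp.2 (neg_le_neg h)))

/-- supersolutions are positive where the source is above the level -/
theorem Sup.pos {ν : ℂ → ℝ} {L : ℝ} {w : ℂ → ℝ} (hw : Sup ν L w) (hν : Continuous ν)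
    (hνs : HasCompactSupport ν) {z : ℂ} (hz : L < ν z) : 0 < w z := by
  by_contra hcon
  have h0 : w z = 0 := le_antisymm (not_lt.1 hcon) (hw.nonneg z)
  obtain ⟨c, hc1, hc2⟩ := exists_between hz
  have h1 : ∀ᶠ y in 𝓝 z, c < ν y := hν.continuousAt.eventually (lt_mem_nhds hc2)
  obtain ⟨ε, hε, hb⟩ := Metric.eventually_nhds_iff_ball.1 h1
  have h2 := hw.sup z ε hε
  have h3 : c * ε ^ 2 / 4 ≤ O.J ε ν z := le_J hε hν hνs (fun y hy => (hb y hy).le)
  have h4 : 0 ≤ Real.circleAverage w z ε := by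
    rw [Real.circleAverage_def, smul_eq_mul]
    refine mul_nonneg (inv_nonneg.2 Real.two_pi_pos.le) ?_
    exact intervalIntegral.integral_nonneg Real.two_pi_pos.le fun _ _ => hw.nonneg _
  have h5 : 0 < ε ^ 2 := pow_pos hε 2
  rw [h0] at h2
  nlinarith

theorem subset_Vs {l : ℝ} (hl : 0 < l) {D : Set ℂ} (hD : IsOpen D) {K : Set ℂ} (hK : IsCompact K)
    (hKD : K ⊆ D) : ∃ ν, Sub D ν ∧ K ⊆ Vs l ν := by
  obtain ⟨ν, hν, h1⟩ := exists_sub hD hK hKD
  obtain ⟨C, hC⟩ := hν.src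
  refine ⟨ν, hν, fun z hz w hw => hw.pos hC.cont hC.cpt ?_⟩
  rw [h1 z hz]
  exact Real.exp_lt_one_iff.2 (by linarith)

theorem Sub.mono {D D' : Set ℂ} (h : D ⊆ D') {ν : ℂ → ℝ} (hν : Sub D ν) : Sub D' ν :=
  ⟨hν.src, hν.supp.trans h, hν.le⟩

theorem Sub.tsupport_compact {D : Set ℂ} {ν : ℂ → ℝ} (hν : Sub D ν) : IsCompact (tsupport ν) := by
  obtain ⟨C, hC⟩ := hν.src
  exact hC.cpt

theorem le_of_one_on {D : Set ℂ} {ν ν' : ℂ → ℝ} (hν : Sub D ν) (hν' : Sub D ν')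
    (h : ∀ x ∈ tsupport ν, ν' x = 1) (x : ℂ) : ν x ≤ ν' x := by
  by_cases hx : x ∈ tsupport ν
  · rw [h x hx]
    exact hν.le x
  · rw [image_eq_zero_of_notMem_tsupport hx]
    obtain ⟨C, hC⟩ := hν'.src
    exact hC.nonneg x

theorem U_mono {l : ℝ} {D D' : Set ℂ} (h : D ⊆ D') : U l D ⊆ U l D' := by
  rintro z (hz | ⟨ν, hν, hz⟩)
  · exact Or.inl (h hz)
  · exact Or.inr ⟨ν, hν.mono h, hz⟩

theorem U_mono_left {l l' : ℝ} (h : l ≤ l') (D : Set ℂ) : U l D ⊆ U l' D := by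
  rintro z (hz | ⟨ν, hν, hz⟩)
  · exact Or.inl hz
  · exact Or.inr ⟨ν, hν, Vs_mono h ν hz⟩

theorem subset_U (l : ℝ) (D : Set ℂ) : D ⊆ U l D := subset_union_left

theorem U_zero (D : Set ℂ) : U 0 D = D := by
  refine Subset.antisymm ?_ (subset_U 0 D)
  rintro z (hz | ⟨ν, hν, hz⟩)
  · exact hz
  · exfalso
    obtain ⟨C, hC⟩ := hν.src
    refine lt_irrefl (0 : ℝ) (hz (fun _ => 0) ⟨continuous_const, fun _ => le_rfl, fun x r hr => ?_⟩)
    have h1 : O.J r ν x ≤ 1 * r ^ 2 / 4 := J_le hr hC.cont hC.cpt (fun y _ => hν.le y)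
    rw [Real.circleAverage_const, neg_zero, Real.exp_zero]
    linarith

theorem mem_U_iff {l : ℝ} (hl : 0 < l) {D : Set ℂ} (hD : IsOpen D) {z : ℂ} :
    z ∈ U l D ↔ ∃ ν, Sub D ν ∧ z ∈ Vs l ν := by
  refine ⟨fun h => ?_, fun h => Or.inr h⟩
  rcases h with h | h
  · obtain ⟨ν, hν, h1⟩ := subset_Vs hl hD isCompact_singleton (singleton_subset_iff.2 h)
    exact ⟨ν, hν, h1 rfl⟩
  · exact h

theorem isOpen_U (hE : O.StmtExist) (l : ℝ) {D : Set ℂ} (hD : IsOpen D) : IsOpen (U l D) := by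
  refine hD.union ?_
  have e : {z | ∃ ν, Sub D ν ∧ ∀ w, Sup ν (Real.exp (-l)) w → 0 < w z} =
      ⋃ ν : {ν : ℂ → ℝ // Sub D ν}, Vs l ν.1 := by
    ext z
    simp only [mem_iUnion, Subtype.exists, exists_prop]
    rfl
  rw [e]
  refine isOpen_iUnion fun ν => ?_
  obtain ⟨C, hC⟩ := ν.2.src
  exact isOpen_Vs hE hC

/-- compact subsets of `U l D` are covered by one source -/
theorem compact_U (hE : O.StmtExist) {l : ℝ} (hl : 0 < l) {D : Set ℂ} (hD : IsOpen D) {K : Set ℂ}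
    (hK : IsCompact K) (hKU : K ⊆ U l D) : ∃ ν, Sub D ν ∧ K ⊆ Vs l ν := by
  have : Nonempty {ν : ℂ → ℝ // Sub D ν} := by
    obtain ⟨ν, hν, _⟩ := exists_sub hD isCompact_empty (empty_subset D)
    exact ⟨⟨ν, hν⟩⟩
  obtain ⟨ν, hν⟩ := hK.elim_directed_cover (fun ν : {ν : ℂ → ℝ // Sub D ν} => Vs l ν.1)
    (fun ν => by
      obtain ⟨C, hC⟩ := ν.2.src
      exact isOpen_Vs hE hC)
    (fun z hz => by
      obtain ⟨ν, hν, h⟩ := (mem_U_iff hl hD).1 (hKU hz)
      exact mem_iUnion.2 ⟨⟨ν, hν⟩, h⟩)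
    (fun ν₁ ν₂ => by
      obtain ⟨ν, hν, h1⟩ := exists_sub hD
        (ν₁.2.tsupport_compact.union ν₂.2.tsupport_compact) (union_subset ν₁.2.supp ν₂.2.supp)
      obtain ⟨C, hC⟩ := hν.src
      obtain ⟨C₁, hC₁⟩ := ν₁.2.src
      obtain ⟨C₂, hC₂⟩ := ν₂.2.src
      exact ⟨⟨ν, hν⟩, Vs_anti hC₁ hC (le_of_one_on ν₁.2 hν fun x hx => h1 x (Or.inl hx)),
        Vs_anti hC₂ hC (le_of_one_on ν₂.2 hν fun x hx => h1 x (Or.inr hx))⟩)
  exact ⟨ν.1, ν.2, hν⟩

/-- the semigroup inclusion -/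
theorem U_U_subset (hE : O.StmtExist) {l h : ℝ} (hl : 0 ≤ l) (hh : 0 ≤ h) {D : Set ℂ}
    (hD : IsOpen D) : U l (U h D) ⊆ U (l + h) D := by
  rcases hh.eq_or_lt with rfl | hh'
  · rw [U_zero, add_zero]
  rintro z (hz | ⟨ν', hν', hz⟩)
  · exact U_mono_left (by linarith) D hz
  · obtain ⟨ν, hν, hsub⟩ := compact_U hE hh' hD hν'.tsupport_compact hν'.supp
    refine Or.inr ⟨ν, hν, fun w hw => ?_⟩
    obtain ⟨C, hC⟩ := hν.src
    obtain ⟨C', hC'⟩ := hν'.src
    obtain ⟨u, hu⟩ := hE ν C hC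
    have hpos : 0 < Real.exp (-h) := Real.exp_pos _
    have hle : Real.exp (-(l + h)) ≤ Real.exp (-h) := Real.exp_le_exp.2 (by linarith)
    rw [Vs_eq hu] at hsub
    have h1 := Sup.diff hu hpos hle hw hC'.cont hC'.cpt hsub hν'.le
    have e : Real.exp (-(l + h)) / Real.exp (-h) = Real.exp (-l) := by
      rw [← Real.exp_sub]
      congr 1
      ring
    rw [e] at h1
    have h2 := hz _ h1
    have h3 := hu.nonneg _ hpos z
    have h4 : 0 < w z - u (Real.exp (-h)) z := by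
      by_contra hcon
      exact absurd h2 (not_lt.2 (mul_nonpos_of_nonneg_of_nonpos (inv_nonneg.2 hpos.le)
        (not_lt.1 hcon)))
    linarith

/-- the sandwich for the obstacle family -/
theorem U_fam_subset {μ : ℂ → ℝ} {C : ℝ} {u : ℝ → ℂ → ℝ} (hu : O.Fam μ C u)
    {L l : ℝ} (hL : 0 < L) (hl : 0 ≤ l) :
    U l {z | 0 < u L z} ⊆ {z | 0 < u (L * Real.exp (-l)) z} := by
  have hpos : 0 < L * Real.exp (-l) := mul_pos hL (Real.exp_pos _)
  have hle : L * Real.exp (-l) ≤ L := by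
    have := Real.exp_le_one_iff.2 (neg_nonpos.2 hl)
    nlinarith
  rintro z (hz | ⟨ν, hν, hz⟩)
  · exact lt_of_lt_of_le hz (hu.anti _ _ hpos hle z)
  · obtain ⟨C', hC'⟩ := hν.src
    have h1 := Sup.diff hu hL hle (sup_fam hu hpos) hC'.cont hC'.cpt hν.supp hν.le
    rw [mul_div_cancel_left₀ _ hL.ne'] at h1
    have h2 := hz _ h1
    have h3 := hu.nonneg _ hL z
    have h4 : 0 < u (L * Real.exp (-l)) z - u L z := by
      by_contra hcon
      exact absurd h2 (not_lt.2 (mul_nonpos_of_nonneg_of_nonpos (inv_nonneg.2 hL.le)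
        (not_lt.1 hcon)))
    show 0 < u (L * Real.exp (-l)) z
    linarith

/-- `U l D` is bounded -/
theorem isBounded_U (hE : O.StmtExist) {l : ℝ} {D : Set ℂ} (hb : Bornology.IsBounded D) :
    Bornology.IsBounded (U l D) := by
  obtain ⟨R, hR⟩ := hb.subset_closedBall 0
  obtain ⟨ν₀, hν₀, h1⟩ := exists_sub isOpen_univ (isCompact_closedBall (0 : ℂ) R) (subset_univ _)
  obtain ⟨C₀, hC₀⟩ := hν₀.src
  obtain ⟨u, hu⟩ := hE ν₀ C₀ hC₀
  have h2 : Bornology.IsBounded (Vs l ν₀) := by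
    rw [Vs_eq hu]
    refine (hu.cpt (Real.exp (-l)) (Real.exp_pos _)).isCompact.isBounded.subset fun z hz => ?_
    exact subset_tsupport _ (ne_of_gt hz)
  refine (hb.union h2).subset (union_subset_union_right _ ?_)
  rintro z ⟨ν, hν, hz⟩
  obtain ⟨C, hC⟩ := hν.src
  exact Vs_anti hC hC₀ (le_of_one_on (hν.mono (subset_univ D)) hν₀ fun x hx =>
    h1 x (hR (hν.supp hx))) hz

/-- continuity along increasing unions -/
theorem U_iUnion {l : ℝ} (hl : 0 < l) {ι : Type*} [Nonempty ι] {D : ι → Set ℂ}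
    (hD : ∀ i, IsOpen (D i)) (hdir : Directed (· ⊆ ·) D) : U l (⋃ i, D i) = ⋃ i, U l (D i) := by
  refine Subset.antisymm (fun z hz => ?_) (iUnion_subset fun i => U_mono (subset_iUnion D i))
  obtain ⟨ν, hν, h1⟩ := (mem_U_iff hl (isOpen_iUnion hD)).1 hz
  obtain ⟨i, hi⟩ := hν.tsupport_compact.elim_directed_cover D hD hν.supp hdir
  exact mem_iUnion.2 ⟨i, Or.inr ⟨ν, ⟨hν.src, hi, hν.le⟩, h1⟩⟩

end Pool.Agent.Lib.QNL.Ctr
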