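import Pool.Agent.Lib.QNL.C2_36
import Pool.Agent.Lib.QNL.Calc

/-!
QNL, group C (contraction), part 3: the odometer of the expansion `U h D`, its weak equation
`Δ V = 1_{U h D} - e^h 1_D`, and the two-sided bounds for the obstacle family.
-/

set_option autoImplicit false

namespace Pool.Agent.Lib.QNL.Ctr

open MeasureTheory Filter Topology Set Metric
open scoped ENNReal

/-! ### The odometer of one source -/

/-- the odometer (normalised: density one outside) of the source `ν` -/
noncomputable def vo (h : ℝ) (ν : ℂ → ℝ) (z : ℂ) : ℝ := Real.exp h * Per.per ν (Real.exp (-h)) z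

theorem per_eq {μ : ℂ → ℝ} {C : ℝ} {u : ℝ → ℂ → ℝ} (hF : O.Fam μ C u) {L : ℝ} (hL : 0 < L) :
    Per.per μ L = u L := by
  ext z
  refine le_antisymm (Per.per_le ⟨hF.cont L hL, hF.nonneg L hL, fun x r hr => hF.sup L hL x r hr⟩ z)
    (le_csInf ⟨u L z, u L, ⟨hF.cont L hL, hF.nonneg L hL, fun x r hr => hF.sup L hL x r hr⟩, rfl⟩ ?_)
  rintro _ ⟨w, hw, rfl⟩
  exact hF.least L hL w hw.1 hw.2.1 hw.2.2 z

theorem vo_le {h : ℝ} {ν : ℂ → ℝ} {w : ℂ → ℝ} (hw : Sup ν (Real.exp (-h)) w) (z : ℂ) :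
    vo h ν z ≤ Real.exp h * w z :=
  mul_le_mul_of_nonneg_left (Per.per_le ⟨hw.cont, hw.nonneg, hw.sup⟩ z) (Real.exp_pos h).le

theorem vo_eq {h : ℝ} {ν : ℂ → ℝ} {C : ℝ} {u : ℝ → ℂ → ℝ} (hu : O.Fam ν C u) (z : ℂ) :
    vo h ν z = Real.exp h * u (Real.exp (-h)) z := by
  rw [vo, per_eq hu (Real.exp_pos _)]

theorem vo_continuous {h : ℝ} {D : Set ℂ} {ν : ℂ → ℝ} (hν : Sub D ν) : Continuous (vo h ν) := by
  obtain ⟨C, hC⟩ := hν.src
  obtain ⟨u, hu⟩ := exist ν C hC
  have e : vo h ν = fun z => Real.exp h * u (Real.exp (-h)) z := funext (vo_eq hu)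
  rw [e]
  exact continuous_const.mul (hu.cont _ (Real.exp_pos _))

theorem vo_nonneg {h : ℝ} {D : Set ℂ} {ν : ℂ → ℝ} (hν : Sub D ν) (z : ℂ) : 0 ≤ vo h ν z := by
  obtain ⟨C, hC⟩ := hν.src
  obtain ⟨u, hu⟩ := exist ν C hC
  rw [vo_eq hu]
  exact mul_nonneg (Real.exp_pos h).le (hu.nonneg _ (Real.exp_pos _) z)

theorem vo_mono {h : ℝ} {D D' : Set ℂ} {ν ν' : ℂ → ℝ} (hν : Sub D ν) (hν' : Sub D' ν')
    (hle : ∀ x, ν x ≤ ν' x) (z : ℂ) : vo h ν z ≤ vo h ν' z := by
  obtain ⟨C, hC⟩ := hν.src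
  obtain ⟨C', hC'⟩ := hν'.src
  obtain ⟨u', hu'⟩ := exist ν' C' hC'
  rw [vo_eq hu']
  exact vo_le ((sup_fam hu' (Real.exp_pos _)).anti hC'.cont hC'.cpt hC.cont hC.cpt hle) z

theorem vo_pos_iff {h : ℝ} {D : Set ℂ} {ν : ℂ → ℝ} (hν : Sub D ν) (z : ℂ) :
    0 < vo h ν z ↔ z ∈ Vs h ν := by
  obtain ⟨C, hC⟩ := hν.src
  obtain ⟨u, hu⟩ := exist ν C hC
  rw [vo_eq hu, Vs_eq hu]
  exact ⟨fun h1 => by
    by_contra h2
    exact absurd h1 (not_lt.2 (mul_nonpos_of_nonneg_of_nonpos (Real.exp_pos h).le (not_lt.1 h2))),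
    fun h1 => mul_pos (Real.exp_pos h) h1⟩

/-- the weak equation of one odometer -/
theorem vo_weak {h : ℝ} {D : Set ℂ} {ν : ℂ → ℝ} (hν : Sub D ν) {φ : ℂ → ℝ} (hφ : ContDiff ℝ 2 φ)
    (hc : HasCompactSupport φ) :
    ∫ z, vo h ν z * lap φ z = ∫ z, (Vs h ν).indicator (fun z => 1 - Real.exp h * ν z) z * φ z := by
  obtain ⟨C, hC⟩ := hν.src
  obtain ⟨u, hu⟩ := exist ν C hC
  have h1 := (rate hu (Real.exp_pos (-h))).weak hφ hc
  have h2 := congrArg (fun t => Real.exp h * t) h1
  rw [← integral_const_mul, ← integral_const_mul] at h2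
  have e : Real.exp h * Real.exp (-h) = 1 := by rw [← Real.exp_add, add_neg_cancel, Real.exp_zero]
  refine Eq.trans (integral_congr_ae (Eventually.of_forall fun z => ?_)) (h2.trans
    (integral_congr_ae (Eventually.of_forall fun z => ?_)))
  · simp only
    rw [vo_eq hu]
    ring
  · simp only
    rw [Vs_eq hu]
    by_cases hz : z ∈ {x | 0 < u (Real.exp (-h)) x}
    · rw [indicator_of_mem hz, indicator_of_mem hz, ← mul_assoc, mul_sub, e]
    · rw [indicator_of_notMem hz, indicator_of_notMem hz, zero_mul, mul_zero]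

/-! ### Cofinal sequences of sources -/

/-- a cofinal sequence of sources below `1_D` -/
theorem exists_seq {D : Set ℂ} (hD : IsOpen D) (hDne : Dᶜ.Nonempty) :
    ∃ ν : ℕ → ℂ → ℝ, (∀ k, Sub D (ν k)) ∧
      (∀ K : Set ℂ, IsCompact K → K ⊆ D → ∀ᶠ k in atTop, ∀ x ∈ K, ν k x = 1) := by
  have hcl : IsClosed Dᶜ := hD.isClosed_compl
  set Kk : ℕ → Set ℂ := fun k => closedBall 0 k ∩ {x | 1 / ((k : ℝ) + 1) ≤ infDist x Dᶜ} with hKk
  have hcomp : ∀ k, IsCompact (Kk k) := fun k =>
    (isCompact_closedBall 0 _).inter_right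
      (isClosed_le continuous_const (continuous_infDist_pt _))
  have hsub : ∀ k, Kk k ⊆ D := by
    intro k x hx
    by_contra hxD
    have h1 : infDist x Dᶜ = 0 := infDist_zero_of_mem hxD
    have h2 := hx.2
    simp only [mem_ofPred_eq, h1] at h2
    have : 0 < 1 / ((k : ℝ) + 1) := by positivity
    linarith
  choose ν hν hone using fun k => exists_sub hD (hcomp k) (hsub k)
  refine ⟨ν, hν, fun K hK hKD => ?_⟩
  have hKk' : ∀ᶠ k : ℕ in atTop, K ⊆ Kk k := by
    rcases K.eq_empty_or_nonempty with rfl | hne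
    · exact Eventually.of_forall fun k => empty_subset _
    obtain ⟨R, hR⟩ := hK.isBounded.subset_closedBall 0
    obtain ⟨x₀, hx₀, hmin⟩ := hK.exists_isMinOn hne (continuous_infDist_pt Dᶜ).continuousOn
    have hpos : 0 < infDist x₀ Dᶜ := by
      refine (hcl.notMem_iff_infDist_pos hDne).1 fun h => h (hKD hx₀)
    have h1 : ∀ᶠ k : ℕ in atTop, 1 / ((k : ℝ) + 1) < infDist x₀ Dᶜ :=
      tendsto_one_div_add_atTop_nhds_zero_nat.eventually (gt_mem_nhds hpos)
    have h2 : ∀ᶠ k : ℕ in atTop, R ≤ (k : ℝ) := tendsto_natCast_atTop_atTop.eventually_ge_atTop R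
    filter_upwards [h1, h2] with k hk1 hk2 x hx
    exact ⟨closedBall_subset_closedBall hk2 (hR hx), hk1.le.trans (hmin hx)⟩
  filter_upwards [hKk'] with k hk x hx
  exact hone k x (hk hx)

/-! ### The odometer of `U h D` -/

/-- **the odometer of the expansion** -/
theorem exists_odo {h : ℝ} (hh : 0 < h) {D : Set ℂ} (hD : IsOpen D)
    (hb : Bornology.IsBounded D) : ∃ V : ℂ → ℝ, Measurable V ∧ (∀ z, 0 ≤ V z) ∧
      (∃ M, ∀ z, V z ≤ M) ∧ (∀ z, z ∉ U h D → V z = 0) ∧
      (∀ ν, Sub D ν → ∀ z, vo h ν z ≤ V z) ∧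
      (∀ w : ℂ → ℝ, (∀ ν, Sub D ν → Sup ν (Real.exp (-h)) w) → ∀ z, V z ≤ Real.exp h * w z) ∧
      ∀ φ : ℂ → ℝ, ContDiff ℝ 2 φ → HasCompactSupport φ →
        ∫ z, V z * lap φ z = (∫ z in U h D, φ z) - Real.exp h * ∫ z in D, φ z := by
  have hDne : Dᶜ.Nonempty := by
    rw [nonempty_compl]
    rintro rfl
    exact NoncompactSpace.noncompact_univ (X := ℂ)
      (hb.isCompact_closure.of_isClosed_subset isClosed_univ subset_closure)
  obtain ⟨νs, hνs, hcof⟩ := exists_seq hD hDne
  have hne : Nonempty {ν : ℂ → ℝ // Sub D ν} := ⟨⟨νs 0, hνs 0⟩⟩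
  -- a uniform bound
  obtain ⟨R, hR⟩ := hb.subset_closedBall 0
  obtain ⟨ν₀, hν₀, h1⟩ := exists_sub isOpen_univ (isCompact_closedBall (0 : ℂ) R) (subset_univ _)
  have hle₀ : ∀ ν, Sub D ν → ∀ z, vo h ν z ≤ vo h ν₀ z := fun ν hν z =>
    vo_mono hν hν₀ (le_of_one_on (hν.mono (subset_univ D)) hν₀ fun x hx => h1 x (hR (hν.supp hx))) z
  obtain ⟨M, hM⟩ : ∃ M, ∀ z, vo h ν₀ z ≤ M := by
    obtain ⟨C, hC⟩ := hν₀.src
    obtain ⟨u, hu⟩ := exist ν₀ C hC
    obtain ⟨M, hM⟩ := (hu.cpt _ (Real.exp_pos (-h))).exists_bound_of_continuous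
      (hu.cont _ (Real.exp_pos (-h)))
    refine ⟨Real.exp h * M, fun z => ?_⟩
    rw [vo_eq hu]
    exact mul_le_mul_of_nonneg_left ((le_abs_self _).trans (hM z)) (Real.exp_pos h).le
  set V : ℂ → ℝ := fun z => ⨆ ν : {ν : ℂ → ℝ // Sub D ν}, vo h ν.1 z with hV
  have hbdd : ∀ z, BddAbove (range fun ν : {ν : ℂ → ℝ // Sub D ν} => vo h ν.1 z) := fun z =>
    ⟨M, by rintro _ ⟨ν, rfl⟩; exact (hle₀ ν.1 ν.2 z).trans (hM z)⟩
  have hleV : ∀ ν, Sub D ν → ∀ z, vo h ν z ≤ V z := fun ν hν z =>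
    le_ciSup (hbdd z) ⟨ν, hν⟩
  have hlim : ∀ z, Tendsto (fun k => vo h (νs k) z) atTop (𝓝 (V z)) := by
    intro z
    rw [tendsto_order]
    refine ⟨fun y hy => ?_, fun y hy => Eventually.of_forall fun k =>
      (hleV _ (hνs k) z).trans_lt hy⟩
    obtain ⟨ν, hν⟩ := exists_lt_of_lt_ciSup hy
    filter_upwards [hcof _ ν.2.tsupport_compact ν.2.supp] with k hk
    exact hν.trans_le (vo_mono ν.2 (hνs k) (le_of_one_on ν.2 (hνs k) hk) z)
  have hVnn : ∀ z, 0 ≤ V z := fun z => (vo_nonneg (hνs 0) z).trans (hleV _ (hνs 0) z)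
  have hVM : ∀ z, V z ≤ M := fun z => ciSup_le fun ν => (hle₀ ν.1 ν.2 z).trans (hM z)
  refine ⟨V, measurable_of_tendsto_metrizable (fun k => (vo_continuous (hνs k)).measurable)
    (tendsto_pi_nhds.2 hlim), hVnn, ⟨M, hVM⟩, fun z hz => ?_, hleV, fun w hw z =>
    ciSup_le fun ν => vo_le (hw ν.1 ν.2) z, fun φ hφ hc => ?_⟩
  · refine le_antisymm (ciSup_le fun ν => ?_) (hVnn z)
    by_contra hcon
    exact hz (Or.inr ⟨ν.1, ν.2, (vo_pos_iff ν.2 z).1 (not_le.1 hcon)⟩)
  · have hcl := Weak.continuous_lap hφ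
    have hcs : HasCompactSupport (lap φ) := Calc.HasCompactSupport.lap hc
    have iφ : Integrable φ := hφ.continuous.integrable_of_hasCompactSupport hc
    have hUm : MeasurableSet (U h D) := (isOpen_U exist h hD).measurableSet
    have l1 : Tendsto (fun k => ∫ z, vo h (νs k) z * lap φ z) atTop (𝓝 (∫ z, V z * lap φ z)) := by
      refine tendsto_integral_of_dominated_convergence (fun z => M * |lap φ z|) (fun k => ?_)
        ((hcl.abs.integrable_of_hasCompactSupport hcs.abs).const_mul M) (fun k => ?_) ?_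
      · exact ((vo_continuous (hνs k)).mul hcl).aestronglyMeasurable
      · refine Eventually.of_forall fun z => ?_
        rw [Real.norm_eq_abs, abs_mul, abs_of_nonneg (vo_nonneg (hνs k) z)]
        exact mul_le_mul_of_nonneg_right ((hle₀ _ (hνs k) z).trans (hM z)) (abs_nonneg _)
      · exact Eventually.of_forall fun z => (hlim z).mul_const _
    have l2 : Tendsto (fun k => ∫ z, (Vs h (νs k)).indicator (fun z => 1 - Real.exp h * νs k z) z *
        φ z) atTop (𝓝 (∫ z, ((U h D).indicator (fun _ => (1 : ℝ)) z -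
          Real.exp h * D.indicator (fun _ => (1 : ℝ)) z) * φ z)) := by
      refine tendsto_integral_of_dominated_convergence (fun z => (1 + Real.exp h) * |φ z|)
        (fun k => ?_) (iφ.abs.const_mul _) (fun k => ?_) ?_
      · obtain ⟨C, hC⟩ := (hνs k).src
        exact ((((continuous_const.sub (continuous_const.mul hC.cont)).measurable).indicator
          (measurableSet_Vs (hνs k))).mul hφ.continuous.measurable).aestronglyMeasurable
      · refine Eventually.of_forall fun z => ?_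
        obtain ⟨C, hC⟩ := (hνs k).src
        rw [Real.norm_eq_abs, abs_mul]
        refine mul_le_mul_of_nonneg_right ?_ (abs_nonneg _)
        have he := Real.exp_pos h
        by_cases hz : z ∈ Vs h (νs k)
        · rw [indicator_of_mem hz, abs_le]
          have h2 := hC.nonneg z
          have h3 := (hνs k).le z
          constructor <;> nlinarith
        · rw [indicator_of_notMem hz, abs_zero]
          positivity
      · refine Eventually.of_forall fun z => Tendsto.mul_const _ ?_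
        by_cases hzU : z ∈ U h D
        · have hVs : ∀ᶠ k in atTop, z ∈ Vs h (νs k) := by
            obtain ⟨ν, hν, hz⟩ := (mem_U_iff hh hD).1 hzU
            filter_upwards [hcof _ hν.tsupport_compact hν.supp] with k hk
            obtain ⟨C, hC⟩ := hν.src
            obtain ⟨C', hC'⟩ := (hνs k).src
            exact Vs_anti hC hC' (le_of_one_on hν (hνs k) hk) hz
          rw [indicator_of_mem hzU]
          by_cases hzD : z ∈ D
          · rw [indicator_of_mem hzD]
            refine tendsto_const_nhds.congr' ?_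
            filter_upwards [hVs, hcof _ isCompact_singleton (singleton_subset_iff.2 hzD)]
              with k hk1 hk2
            rw [indicator_of_mem hk1, hk2 z rfl]
          · rw [indicator_of_notMem hzD]
            refine tendsto_const_nhds.congr' ?_
            filter_upwards [hVs] with k hk1
            rw [indicator_of_mem hk1,
              image_eq_zero_of_notMem_tsupport (fun h' => hzD ((hνs k).supp h'))]
        · rw [indicator_of_notMem hzU, indicator_of_notMem fun h' => hzU (subset_U h D h')]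
          refine tendsto_const_nhds.congr' (Eventually.of_forall fun k => ?_)
          have hzk : z ∉ Vs h (νs k) := fun h' => hzU (Or.inr ⟨νs k, hνs k, h'⟩)
          show 0 - Real.exp h * 0 = (Vs h (νs k)).indicator (fun z => 1 - Real.exp h * νs k z) z
          rw [indicator_of_notMem hzk, mul_zero, sub_zero]
    have l3 : ∀ k, ∫ z, vo h (νs k) z * lap φ z =
        ∫ z, (Vs h (νs k)).indicator (fun z => 1 - Real.exp h * νs k z) z * φ z := fun k =>
      vo_weak (hνs k) hφ hc
    simp only [l3] at l1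
    rw [tendsto_nhds_unique l1 l2]
    have e : ∀ z, ((U h D).indicator (fun _ => (1 : ℝ)) z -
        Real.exp h * D.indicator (fun _ => (1 : ℝ)) z) * φ z =
        (U h D).indicator φ z - Real.exp h * D.indicator φ z := by
      intro z
      by_cases hz1 : z ∈ U h D <;> by_cases hz2 : z ∈ D <;> simp [hz1, hz2] <;> ring
    simp_rw [e]
    rw [integral_sub (iφ.indicator hUm) ((iφ.indicator hD.measurableSet).const_mul _),
      integral_const_mul, integral_indicator hUm, integral_indicator hD.measurableSet]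

/-! ### The bounds for the obstacle family -/

/-- the lower bound `(e^h - 1) (u_L - u_(L+d))/d ≤ V` -/
theorem odo_lower {μ : ℂ → ℝ} {C : ℝ} {u : ℝ → ℂ → ℝ} (hF : O.Fam μ C u) {L h d ε : ℝ}
    (hL : 0 < L) (hh : 0 < h) (hd : 0 < d) (hε : 0 < ε) : ∃ ν, Sub {x | 0 < u L x} ν ∧
      ∀ z, (Real.exp h - 1) / d * (u L z - u (L + d) z) - ε ≤ vo h ν z := by
  have hLd : 0 < L + d := by linarith
  have hc0 : 0 < (Real.exp h - 1) / d := div_pos (by linarith [Real.add_one_lt_exp hh.ne']) hd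
  set c := (Real.exp h - 1) / d with hc
  set f : ℂ → ℝ := fun z => c * (u L z - u (L + d) z) with hf
  have hfc : Continuous f := continuous_const.mul ((hF.cont L hL).sub (hF.cont _ hLd))
  have hsubD : ∀ z, 0 < f z → 0 < u L z := by
    intro z hz
    have h1 : 0 < u L z - u (L + d) z := by
      by_contra hcon
      exact absurd hz (not_lt.2 (mul_nonpos_of_nonneg_of_nonpos hc0.le (not_lt.1 hcon)))
    linarith [hF.nonneg _ hLd z]
  have hbd : Bornology.IsBounded {z | 0 < f z} := (isBounded_pos hF hL).subset hsubD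
  have hK : IsCompact {z | ε ≤ f z} :=
    Metric.isCompact_of_isClosed_isBounded (isClosed_le continuous_const hfc)
      (hbd.subset fun z hz => hε.trans_le hz)
  obtain ⟨ν, hν, hone⟩ := exists_sub (isOpen_pos hF hL) hK fun z hz => hsubD z (hε.trans_le hz)
  obtain ⟨C', hC'⟩ := hν.src
  obtain ⟨v, hv⟩ := exist ν C' hC'
  refine ⟨ν, hν, fun z => ?_⟩
  have hΩ : IsOpen {z | ε < f z} := isOpen_lt continuous_const hfc
  have hvoc := vo_continuous (h := h) hν
  rcases le_or_gt (f z) ε with hz | hz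
  · exact (sub_nonpos.2 hz).trans (vo_nonneg hν z)
  refine Per.comparison (f := fun z => f z - ε) (g := vo h ν) hΩ
    (hbd.subset fun z hz => hε.trans hz) (hfc.sub continuous_const).continuousOn
    hvoc.continuousOn (fun x hx => ?_) (fun x hx => ?_) z hz
  · obtain ⟨ρ, hρ, hball⟩ := Metric.isOpen_iff.1 hΩ x hx
    filter_upwards [self_mem_nhdsWithin, mem_nhdsWithin_of_mem_nhds (Iio_mem_nhds hρ)]
      with r hr1 hr2
    have hr : 0 < r := hr1
    have hcb : closedBall x r ⊆ {z | ε < f z} := (closedBall_subset_ball hr2).trans hball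
    have e1 := hF.har L hL x r hr fun y hy => hsubD y (hε.trans (hcb hy))
    have e2 := hF.sup (L + d) hLd x r hr
    have e3 := hv.sup _ (Real.exp_pos (-h)) x r hr
    have e4 : 1 * r ^ 2 / 4 ≤ O.J r ν x := le_J hr hC'.cont hC'.cpt fun y hy => by
      have hy' : ε < f y := hcb (ball_subset_closedBall hy)
      rw [hone y hy'.le]
    have i1 : Real.circleAverage (fun z => f z - ε - vo h ν z) x r =
        c * (Real.circleAverage (u L) x r - Real.circleAverage (u (L + d)) x r) - ε -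
          Real.exp h * Real.circleAverage (v (Real.exp (-h))) x r := by
      have ev : (fun z => f z - ε - vo h ν z) =
          fun z => (f z - ε) - Real.exp h * v (Real.exp (-h)) z := by
        ext z
        rw [vo_eq hv]
      have a1 := Per.cav_sub (f := fun z => f z - ε) (g := fun z => Real.exp h * v (Real.exp (-h)) z)
        (hfc.sub continuous_const) (continuous_const.mul (hv.cont _ (Real.exp_pos _))) x r
      have a2 := Per.cav_sub (f := f) (g := fun _ => ε) hfc continuous_const x r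
      have a3 := Per.cav_smul c (fun z => u L z - u (L + d) z) x r
      have a4 := Per.cav_sub (hF.cont L hL) (hF.cont _ hLd) x r
      have a5 := Per.cav_smul (Real.exp h) (v (Real.exp (-h))) x r
      rw [Real.circleAverage_const] at a2
      rw [ev, a1, a2, a5, hf, a3, a4]
    rw [i1, vo_eq hv]
    simp only [hf]
    have ee : Real.exp h * Real.exp (-h) = 1 := by
      rw [← Real.exp_add, add_neg_cancel, Real.exp_zero]
    have hcd : c * d = Real.exp h - 1 := by rw [hc]; field_simp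
    have k1 : c * (Real.circleAverage (u L) x r - Real.circleAverage (u (L + d)) x r) ≥
        c * (u L x - u (L + d) x) - (Real.exp h - 1) * r ^ 2 / 4 := by
      have := mul_le_mul_of_nonneg_left e2 hc0.le
      rw [e1, ← hcd]
      nlinarith
    have k2 : Real.exp h * Real.circleAverage (v (Real.exp (-h))) x r ≤
        Real.exp h * v (Real.exp (-h)) x + r ^ 2 / 4 - Real.exp h * (r ^ 2 / 4) := by
      have := mul_le_mul_of_nonneg_left e3 (Real.exp_pos h).le
      have k3 := mul_le_mul_of_nonneg_left e4 (Real.exp_pos h).le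
      have k4 : Real.exp h * (v (Real.exp (-h)) x + Real.exp (-h) * r ^ 2 / 4 - O.J r ν x) =
        Real.exp h * v (Real.exp (-h)) x + (Real.exp h * Real.exp (-h)) * r ^ 2 / 4
          - Real.exp h * O.J r ν x := by ring
      rw [k4, ee] at this
      linarith
    linarith
  · have : f x ≤ ε := by
      have hx' : x ∉ {z | ε < f z} := by
        rw [hΩ.frontier_eq] at hx
        exact hx.2
      exact not_lt.1 hx'
    exact (sub_nonpos.2 this).trans (vo_nonneg hν x)

/-- **the odometer of the expansion of a member of the obstacle family** -/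
theorem fam_odo {μ : ℂ → ℝ} {C : ℝ} {u : ℝ → ℂ → ℝ} (hF : O.Fam μ C u) {L h : ℝ}
    (hL : 0 < L) (hh : 0 < h) : ∃ V : ℂ → ℝ, Measurable V ∧ (∀ z, 0 ≤ V z) ∧
      (∀ z, z ∉ U h {x | 0 < u L x} → V z = 0) ∧
      (∀ d, 0 < d → ∀ z, (Real.exp h - 1) / d * (u L z - u (L + d) z) ≤ V z) ∧
      (∀ z, V z ≤ Real.exp h / L * (u (L * Real.exp (-h)) z - u L z)) ∧
      ∀ φ : ℂ → ℝ, ContDiff ℝ 2 φ → HasCompactSupport φ →
        ∫ z, V z * lap φ z = (∫ z in U h {x | 0 < u L x}, φ z) -
          Real.exp h * ∫ z in {x | 0 < u L x}, φ z := by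
  obtain ⟨V, h1, h2, -, h3, h4, h5, h6⟩ := exists_odo hh (isOpen_pos hF hL) (isBounded_pos hF hL)
  refine ⟨V, h1, h2, h3, fun d hd z => ?_, fun z => ?_, h6⟩
  · refine le_of_forall_pos_sub_le fun ε hε => ?_
    obtain ⟨ν, hν, hle⟩ := odo_lower hF hL hh hd hε
    exact (hle z).trans (h4 ν hν z)
  · have hpos : 0 < L * Real.exp (-h) := mul_pos hL (Real.exp_pos _)
    have hle : L * Real.exp (-h) ≤ L := by
      have := Real.exp_le_one_iff.2 (neg_nonpos.2 hh.le)
      nlinarith
    have := h5 (fun z => L⁻¹ * (u (L * Real.exp (-h)) z - u L z)) (fun ν hν => by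
      obtain ⟨C', hC'⟩ := hν.src
      have := Sup.diff hF hL hle (sup_fam hF hpos) hC'.cont hC'.cpt hν.supp hν.le
      rwa [mul_div_cancel_left₀ _ hL.ne'] at this) z
    refine this.trans (le_of_eq ?_)
    rw [div_eq_mul_inv]
    ring

end Pool.Agent.Lib.QNL.Ctr
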