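import Mathlib

/-!
# Explicit transport weights

`ψ_0(w) = w e^(-w)`, `ψ_(j+1)(w) = w^(j+2)/j! ∫_0^1 v^(j+2) (1-v)^j e^(-wv) dv`; these are the
functions `∫_0^w P_j(1 - 2s/w) (1 - s) e^(-s) ds`. They are positive and satisfy
`(j+1) ψ_(j+1) + w ψ_(j+1)' = (j+1) ψ_j - w ψ_j'`.
-/

set_option autoImplicit false

namespace Pool.Agent.Lib.QNL.Wts73

open MeasureTheory Set Filter Topology Finset
open scoped Nat

/-- `∫_0^1 v^α (1-v)^β e^(-wv) dv` -/
noncomputable def JJ (α β : ℕ) (w : ℝ) : ℝ :=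
  ∫ v in (0 : ℝ)..1, v ^ α * (1 - v) ^ β * Real.exp (-(w * v))

theorem cont_JJ (α β : ℕ) (w : ℝ) :
    Continuous fun v : ℝ => v ^ α * (1 - v) ^ β * Real.exp (-(w * v)) := by
  fun_prop

theorem JJ_pos (α β : ℕ) (w : ℝ) : 0 < JJ α β w := by
  refine intervalIntegral.intervalIntegral_pos_of_pos_on ((cont_JJ α β w).intervalIntegrable _ _) ?_ one_pos
  intro v hv
  have h1 : 0 < v := hv.1
  have h2 : 0 < 1 - v := sub_pos.2 hv.2
  positivity

/-- `v^α (1-v)^β = v^(α+1) (1-v)^β + v^α (1-v)^(β+1)` -/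
theorem JJ_add (α β : ℕ) (w : ℝ) : JJ α β w = JJ (α + 1) β w + JJ α (β + 1) w := by
  unfold JJ
  rw [← intervalIntegral.integral_add ((cont_JJ _ _ w).intervalIntegrable _ _)
    ((cont_JJ _ _ w).intervalIntegrable _ _)]
  refine intervalIntegral.integral_congr fun v _ => ?_
  ring

theorem hasDerivAt_JJ (α β : ℕ) (w : ℝ) : HasDerivAt (JJ α β) (- JJ (α + 1) β w) w := by
  have h := intervalIntegral.hasDerivAt_integral_of_dominated_loc_of_deriv_le (μ := volume) (a := 0) (b := 1)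
    (F := fun w v : ℝ => v ^ α * (1 - v) ^ β * Real.exp (-(w * v)))
    (F' := fun w v : ℝ => v ^ α * (1 - v) ^ β * (Real.exp (-(w * v)) * (-v))) (x₀ := w)
    (s := Metric.ball w 1) (bound := fun _ => Real.exp (|w| + 1))
    (Metric.ball_mem_nhds w one_pos)
    (Eventually.of_forall fun x => (cont_JJ α β x).aestronglyMeasurable)
    ((cont_JJ α β w).intervalIntegrable _ _)
    (by
      have : Continuous fun v : ℝ => v ^ α * (1 - v) ^ β * (Real.exp (-(w * v)) * (-v)) := by
        fun_prop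
      exact this.aestronglyMeasurable)
    (by
      refine Eventually.of_forall fun v hv x hx => ?_
      rw [uIoc_of_le zero_le_one] at hv
      have h1 : 0 ≤ v := hv.1.le
      have h2 : 0 ≤ 1 - v := sub_nonneg.2 hv.2
      have h3 : |x| ≤ |w| + 1 := by
        have := abs_sub_abs_le_abs_sub x w
        rw [Metric.mem_ball, Real.dist_eq] at hx
        linarith
      rw [norm_mul, norm_mul, norm_mul, norm_neg, norm_pow, norm_pow, Real.norm_of_nonneg h1,
        Real.norm_of_nonneg h2, Real.norm_of_nonneg (Real.exp_pos _).le]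
      have h4 : v ^ α ≤ 1 := pow_le_one₀ h1 hv.2
      have h5 : (1 - v) ^ β ≤ 1 := pow_le_one₀ h2 (by linarith)
      have h6 : Real.exp (-(x * v)) ≤ Real.exp (|w| + 1) := by
        apply Real.exp_le_exp.2
        have := neg_abs_le x
        nlinarith [abs_nonneg x, hv.2]
      have h7 : v ^ α * (1 - v) ^ β ≤ 1 := mul_le_one₀ h4 (by positivity) h5
      have h8 : Real.exp (-(x * v)) * v ≤ Real.exp (|w| + 1) * 1 :=
        mul_le_mul h6 hv.2 h1 (Real.exp_pos _).le
      calc v ^ α * (1 - v) ^ β * (Real.exp (-(x * v)) * v)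
          ≤ 1 * (Real.exp (|w| + 1) * 1) :=
            mul_le_mul h7 h8 (by positivity) zero_le_one
        _ = Real.exp (|w| + 1) := by ring)
    (by simp)
    (by
      refine Eventually.of_forall fun v _ x _ => ?_
      have h1 : HasDerivAt (fun x : ℝ => -(x * v)) (-v) x := by
        simpa using ((hasDerivAt_id x).mul_const v).fun_neg
      exact (h1.exp).const_mul _)
  refine h.2.congr_deriv ?_
  unfold JJ
  rw [← intervalIntegral.integral_neg]
  refine intervalIntegral.integral_congr fun v _ => ?_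
  ring

/-- integration by parts -/
theorem JJ_parts (α β : ℕ) (w : ℝ) :
    w * JJ (α + 1) (β + 1) w = (α + 1) * JJ α (β + 1) w - (β + 1) * JJ (α + 1) β w := by
  have h1 : ∀ v ∈ uIcc (0 : ℝ) 1, HasDerivAt
      (fun v : ℝ => v ^ (α + 1) * (1 - v) ^ (β + 1) * Real.exp (-(w * v)))
      (((α + 1) * v ^ α * (1 - v) ^ (β + 1) + v ^ (α + 1) * ((β + 1) * (1 - v) ^ β * (-1))) *
        Real.exp (-(w * v)) +
        v ^ (α + 1) * (1 - v) ^ (β + 1) * (Real.exp (-(w * v)) * (-w))) v := by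
    intro v _
    have e1 : HasDerivAt (fun v : ℝ => v ^ (α + 1)) ((α + 1) * v ^ α) v := by
      simpa using hasDerivAt_pow (α + 1) v
    have e2 : HasDerivAt (fun v : ℝ => (1 - v) ^ (β + 1)) ((β + 1) * (1 - v) ^ β * (-1)) v := by
      have := (((hasDerivAt_id v).const_sub 1)).fun_pow (β + 1)
      simpa using this
    have e3 : HasDerivAt (fun v : ℝ => Real.exp (-(w * v))) (Real.exp (-(w * v)) * (-w)) v := by
      have : HasDerivAt (fun v : ℝ => -(w * v)) (-w) v := by
        simpa using ((hasDerivAt_id v).const_mul w).fun_neg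
      exact this.exp
    exact (e1.mul e2).mul e3
  have h2 := intervalIntegral.integral_eq_sub_of_hasDerivAt h1 (by
    apply Continuous.intervalIntegrable
    fun_prop)
  simp only [ne_eq, Nat.add_eq_zero_iff, one_ne_zero, and_false, not_false_eq_true, zero_pow,
    sub_self, mul_zero, zero_mul] at h2
  have h3 : (α + 1 : ℝ) * JJ α (β + 1) w - (β + 1) * JJ (α + 1) β w - w * JJ (α + 1) (β + 1) w
      = 0 := by
    rw [← h2]
    unfold JJ
    rw [← intervalIntegral.integral_const_mul, ← intervalIntegral.integral_const_mul, ← intervalIntegral.integral_const_mul, ← intervalIntegral.integral_sub,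
      ← intervalIntegral.integral_sub]
    · refine intervalIntegral.integral_congr fun v _ => ?_
      ring
    · exact (((cont_JJ _ _ w).const_mul _).sub
        ((cont_JJ _ _ w).const_mul _)).intervalIntegrable _ _
    · exact ((cont_JJ _ _ w).const_mul _).intervalIntegrable _ _
    · exact ((cont_JJ _ _ w).const_mul _).intervalIntegrable _ _
    · exact ((cont_JJ _ _ w).const_mul _).intervalIntegrable _ _
  linarith

/-- integration by parts for `β = 0` -/
theorem JJ_parts_zero (α : ℕ) (w : ℝ) :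
    w * JJ (α + 1) 0 w = (α + 1) * JJ α 0 w - Real.exp (-w) := by
  have h1 : ∀ v ∈ uIcc (0 : ℝ) 1, HasDerivAt
      (fun v : ℝ => v ^ (α + 1) * Real.exp (-(w * v)))
      ((α + 1) * v ^ α * Real.exp (-(w * v)) + v ^ (α + 1) * (Real.exp (-(w * v)) * (-w))) v := by
    intro v _
    have e1 : HasDerivAt (fun v : ℝ => v ^ (α + 1)) ((α + 1) * v ^ α) v := by
      simpa using hasDerivAt_pow (α + 1) v
    have e3 : HasDerivAt (fun v : ℝ => Real.exp (-(w * v))) (Real.exp (-(w * v)) * (-w)) v := by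
      have : HasDerivAt (fun v : ℝ => -(w * v)) (-w) v := by
        simpa using ((hasDerivAt_id v).const_mul w).fun_neg
      exact this.exp
    exact e1.mul e3
  have h2 := intervalIntegral.integral_eq_sub_of_hasDerivAt h1 (by
    apply Continuous.intervalIntegrable
    fun_prop)
  simp only [one_pow, one_mul, mul_one, ne_eq, Nat.add_eq_zero_iff, one_ne_zero, and_false,
    not_false_eq_true, zero_pow, zero_mul, sub_zero] at h2
  have h3 : (α + 1 : ℝ) * JJ α 0 w - w * JJ (α + 1) 0 w = Real.exp (-w) := by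
    rw [← h2]
    unfold JJ
    rw [← intervalIntegral.integral_const_mul, ← intervalIntegral.integral_const_mul, ← intervalIntegral.integral_sub]
    · refine intervalIntegral.integral_congr fun v _ => ?_
      simp only [pow_zero, mul_one]
      ring
    · exact ((cont_JJ _ _ w).const_mul _).intervalIntegrable _ _
    · exact ((cont_JJ _ _ w).const_mul _).intervalIntegrable _ _
  linarith

/-! ### The functions `ψ_j` -/

/-- `ψ_j` -/
noncomputable def psi : ℕ → ℝ → ℝ
  | 0, w => w * Real.exp (-w)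
  | j + 1, w => w ^ (j + 2) / j ! * JJ (j + 2) j w

/-- `ψ_j'` -/
noncomputable def psi' : ℕ → ℝ → ℝ
  | 0, w => (1 - w) * Real.exp (-w)
  | j + 1, w => ((j + 2) * w ^ (j + 1) * JJ (j + 2) j w - w ^ (j + 2) * JJ (j + 3) j w) / j !

theorem hasDerivAt_psi (j : ℕ) (w : ℝ) : HasDerivAt (psi j) (psi' j w) w := by
  cases j with
  | zero =>
    have h1 : HasDerivAt (fun w : ℝ => Real.exp (-w)) (Real.exp (-w) * (-1)) w :=
      ((hasDerivAt_id w).neg).exp
    have h2 := (hasDerivAt_id w).mul h1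
    refine (h2.congr_deriv ?_)
    simp only [psi', id]
    ring
  | succ j =>
    have h1 : HasDerivAt (fun w : ℝ => w ^ (j + 2) / j !) ((j + 2) * w ^ (j + 1) / j !) w := by
      have := (hasDerivAt_pow (j + 2) w).div_const (j ! : ℝ)
      simpa using this
    have h2 := h1.mul (hasDerivAt_JJ (j + 2) j w)
    refine (h2.congr_deriv ?_)
    simp only [psi']
    ring

theorem psi_pos (j : ℕ) {w : ℝ} (hw : 0 < w) : 0 < psi j w := by
  cases j with
  | zero => exact mul_pos hw (Real.exp_pos _)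
  | succ j =>
    have := JJ_pos (j + 2) j w
    simp only [psi]
    positivity

/-- `X_j = (j+1) ψ_j - w ψ_j'` -/
noncomputable def XX (j : ℕ) (w : ℝ) : ℝ := (j + 1) * psi j w - w * psi' j w

theorem XX_zero (w : ℝ) : XX 0 w = w ^ 2 * Real.exp (-w) := by
  simp only [XX, psi, psi', Nat.cast_zero]
  ring

theorem XX_succ (j : ℕ) (w : ℝ) : XX (j + 1) w = w ^ (j + 3) / j ! * JJ (j + 3) j w := by
  simp only [XX, psi, psi']
  push_cast
  ring

theorem XX_pos (j : ℕ) {w : ℝ} (hw : 0 < w) : 0 < XX j w := by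
  cases j with
  | zero =>
    rw [XX_zero]
    positivity
  | succ j =>
    rw [XX_succ]
    have := JJ_pos (j + 3) j w
    positivity

/-- **the chain** -/
theorem chain_psi (j : ℕ) (w : ℝ) :
    (j + 1) * psi (j + 1) w + w * psi' (j + 1) w = XX j w := by
  cases j with
  | zero =>
    rw [XX_zero]
    have h1 := JJ_parts_zero 2 w
    simp only [psi, psi', Nat.factorial_zero, Nat.cast_one, Nat.cast_zero]
    norm_num at h1 ⊢
    linear_combination (- w ^ 2) * h1
  | succ j =>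
    rw [XX_succ]
    have h1 := JJ_parts (j + 3) j w
    have h2 := JJ_add (j + 3) j w
    have hf : ((j + 1) ! : ℝ) = (j + 1) * j ! := by
      rw [Nat.factorial_succ]
      push_cast
      ring
    have hj : (0 : ℝ) < j + 1 := by positivity
    have hj' : (0 : ℝ) < j ! := by positivity
    have e1 : psi (j + 2) w = w ^ (j + 3) / (j + 1)! * JJ (j + 3) (j + 1) w := rfl
    have e2 : psi' (j + 2) w = (((j + 1 : ℕ) + 2 : ℝ) * w ^ (j + 2) * JJ (j + 3) (j + 1) w -
      w ^ (j + 3) * JJ (j + 4) (j + 1) w) / (j + 1)! := rfl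
    rw [e1, e2, hf]
    have h1' : w * JJ (j + 4) (j + 1) w =
      (j + 4 : ℝ) * JJ (j + 3) (j + 1) w - (j + 1) * JJ (j + 4) j w := by
      have := h1
      push_cast at this
      linear_combination this
    have h2' : JJ (j + 3) j w = JJ (j + 4) j w + JJ (j + 3) (j + 1) w := h2
    push_cast
    field_simp
    linear_combination (-w ^ (j + 3)) * h1' - ((j + 1) * w ^ (j + 3)) * h2'

theorem cont_psi (j : ℕ) : Continuous (psi j) :=
  continuous_iff_continuousAt.2 fun w => (hasDerivAt_psi j w).continuousAt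

theorem cont_JJ' (α β : ℕ) : Continuous (JJ α β) :=
  continuous_iff_continuousAt.2 fun w => (hasDerivAt_JJ α β w).continuousAt

theorem cont_psi' (j : ℕ) : Continuous (psi' j) := by
  cases j with
  | zero =>
    have : psi' 0 = fun w : ℝ => (1 - w) * Real.exp (-w) := rfl
    rw [this]
    fun_prop
  | succ j =>
    have h1 := cont_JJ' (j + 2) j
    have h2 := cont_JJ' (j + 3) j
    have : psi' (j + 1) = fun w : ℝ =>
      ((j + 2) * w ^ (j + 1) * JJ (j + 2) j w - w ^ (j + 2) * JJ (j + 3) j w) / j ! := rfl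
    rw [this]
    fun_prop

theorem cont_XX (j : ℕ) : Continuous (XX j) := by
  have h1 := cont_psi j
  have h2 := cont_psi' j
  have : XX j = fun w : ℝ => ((j : ℝ) + 1) * psi j w - w * psi' j w := rfl
  rw [this]
  fun_prop

/-! ### The weights -/

/-- `Γ_j = ∏_(1 ≤ i ≤ j) (i+1-a)/(i-1+a)` -/
noncomputable def Gam (a : ℝ) : ℕ → ℝ
  | 0 => 1
  | j + 1 => Gam a j * ((j + 2 - a) / (j + a))

theorem Gam_pos {a : ℝ} (ha0 : 0 < a) (ha1 : a < 1) (j : ℕ) : 0 < Gam a j := by
  induction j with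
  | zero => exact one_pos
  | succ j ih =>
    have h1 : (0 : ℝ) < j + 2 - a := by
      have : (0 : ℝ) ≤ j := Nat.cast_nonneg j
      linarith
    have h2 : (0 : ℝ) < j + a := by positivity
    simp only [Gam]
    positivity

/-- the weight `g_j(l) = Γ_j e^(-(1-a)l) ψ_j(c e^l)` -/
noncomputable def gw (a c : ℝ) (j : ℕ) (l : ℝ) : ℝ :=
  Gam a j * Real.exp (-((1 - a) * l)) * psi j (c * Real.exp l)

/-- its derivative -/
noncomputable def gw' (a c : ℝ) (j : ℕ) (l : ℝ) : ℝ :=
  Gam a j * Real.exp (-((1 - a) * l)) *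
    (c * Real.exp l * psi' j (c * Real.exp l) - (1 - a) * psi j (c * Real.exp l))

theorem hasDerivAt_gw (a c : ℝ) (j : ℕ) (l : ℝ) : HasDerivAt (gw a c j) (gw' a c j l) l := by
  have h1 : HasDerivAt (fun l : ℝ => Real.exp (-((1 - a) * l)))
      (Real.exp (-((1 - a) * l)) * (-(1 - a))) l := by
    have : HasDerivAt (fun l : ℝ => -((1 - a) * l)) (-(1 - a)) l := by
      simpa using ((hasDerivAt_id l).const_mul (1 - a)).fun_neg
    exact this.exp
  have h2 : HasDerivAt (fun l : ℝ => c * Real.exp l) (c * Real.exp l) l :=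
    (Real.hasDerivAt_exp l).const_mul c
  have h3 : HasDerivAt (fun l : ℝ => psi j (c * Real.exp l))
      (psi' j (c * Real.exp l) * (c * Real.exp l)) l :=
    HasDerivAt.comp (h₂ := psi j) l (hasDerivAt_psi j (c * Real.exp l)) h2
  refine ((h1.const_mul (Gam a j)).mul h3).congr_deriv ?_
  unfold gw'
  ring

theorem cont_gw' (a c : ℝ) (j : ℕ) : Continuous (gw' a c j) := by
  have h1 := cont_psi j
  have h2 := cont_psi' j
  unfold gw'
  fun_prop

theorem cont_gw (a c : ℝ) (j : ℕ) : Continuous (gw a c j) := by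
  have h1 := cont_psi j
  unfold gw
  fun_prop

theorem gw_pos {a c : ℝ} (ha0 : 0 < a) (ha1 : a < 1) (hc : 0 < c) (j : ℕ) (l : ℝ) :
    0 < gw a c j l := by
  have h1 := Gam_pos ha0 ha1 j
  have h2 := psi_pos j (show 0 < c * Real.exp l by positivity)
  unfold gw
  positivity

/-- the chain of the weights (an equality) -/
theorem chain_gw {a : ℝ} (ha0 : 0 < a) (ha1 : a < 1) (c : ℝ) (j : ℕ) (l : ℝ) :
    gw a c (j + 1) l + gw' a c (j + 1) l / (j + 2 - a) = gw a c j l - gw' a c j l / (j + a) := by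
  have h1 : (0 : ℝ) < j + 2 - a := by
    have : (0 : ℝ) ≤ j := Nat.cast_nonneg j
    linarith
  have h2 : (0 : ℝ) < j + a := by positivity
  have h3 := chain_psi j (c * Real.exp l)
  unfold XX at h3
  simp only [gw, gw', Gam]
  field_simp
  linear_combination (Gam a j) * h3

/-- the exit density -/
theorem exit_gw {a : ℝ} (ha0 : 0 < a) (c : ℝ) (j : ℕ) (l : ℝ) :
    gw a c j l - gw' a c j l / (j + a) =
      Gam a j / (j + a) * Real.exp (-((1 - a) * l)) * XX j (c * Real.exp l) := by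
  have h2 : (0 : ℝ) < j + a := by positivity
  simp only [gw, gw', XX]
  field_simp
  ring

theorem exit_gw_pos {a c : ℝ} (ha0 : 0 < a) (ha1 : a < 1) (hc : 0 < c) (j : ℕ) (l : ℝ) :
    0 < gw a c j l - gw' a c j l / (j + a) := by
  have h1 := Gam_pos ha0 ha1 j
  have h2 := XX_pos j (show 0 < c * Real.exp l by positivity)
  have h3 : (0 : ℝ) < j + a := by positivity
  rw [exit_gw ha0]
  positivity

/-- the extraction density -/
theorem extr_gw {a : ℝ} (ha1 : a < 1) (c : ℝ) (l : ℝ) :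
    -(gw a c 0 l + gw' a c 0 l / (1 - a)) =
      Real.exp (-((1 - a) * l)) / (1 - a) *
        (c * Real.exp l * (c * Real.exp l - 1) * Real.exp (-(c * Real.exp l))) := by
  have h2 : (0 : ℝ) < 1 - a := sub_pos.2 ha1
  simp only [gw, gw', Gam, psi, psi']
  field_simp
  ring

theorem extr_gw_nonneg {a c : ℝ} (ha1 : a < 1) (hc : 1 ≤ c) {l : ℝ} (hl : 0 ≤ l) :
    0 ≤ -(gw a c 0 l + gw' a c 0 l / (1 - a)) := by
  have h1 : 1 ≤ Real.exp l := Real.one_le_exp hl
  have h2 : (1 : ℝ) ≤ c * Real.exp l := by nlinarith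
  have h3 : (0 : ℝ) < 1 - a := sub_pos.2 ha1
  have h4 : (0 : ℝ) ≤ c * Real.exp l - 1 := by linarith
  rw [extr_gw ha1]
  positivity

/-! ### Mass balance -/

/-- `C_j = ∏_(i < j) (i+a)/(i+1-a)` -/
noncomputable def CC (a : ℝ) : ℕ → ℝ
  | 0 => 1
  | j + 1 => CC a j * ((j + a) / (j + 1 - a))

theorem CC_pos {a : ℝ} (ha0 : 0 < a) (ha1 : a < 1) (j : ℕ) : 0 < CC a j := by
  induction j with
  | zero => exact one_pos
  | succ j ih =>
    have h1 : (0 : ℝ) < j + 1 - a := by
      have : (0 : ℝ) ≤ j := Nat.cast_nonneg j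
      linarith
    have h2 : (0 : ℝ) < j + a := by positivity
    simp only [CC]
    positivity

/-- `Γ_j C_j = (j+1-a)/(1-a)` -/
theorem Gam_CC {a : ℝ} (ha0 : 0 < a) (ha1 : a < 1) (j : ℕ) :
    Gam a j * CC a j = (j + 1 - a) / (1 - a) := by
  have h0 : (0 : ℝ) < 1 - a := sub_pos.2 ha1
  induction j with
  | zero =>
    simp only [Gam, CC, Nat.cast_zero, zero_add, mul_one]
    field_simp
  | succ j ih =>
    have h1 : (0 : ℝ) < j + 1 - a := by
      have : (0 : ℝ) ≤ j := Nat.cast_nonneg j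
      linarith
    have h2 : (0 : ℝ) < j + a := by positivity
    have h3 : Gam a (j + 1) * CC a (j + 1) =
        Gam a j * CC a j * ((j + 2 - a) / (j + 1 - a)) := by
      simp only [Gam, CC]
      field_simp
    rw [h3, ih]
    push_cast
    field_simp
    ring

/-- `s_n(w) = ∑_(j<n) C_j (2j+1)/(j+1-a) ψ_j(w) = ∑_(j<n) (C_j + C_(j+1)) ψ_j(w)` -/
noncomputable def sn (a : ℝ) (n : ℕ) (w : ℝ) : ℝ :=
  ∑ j ∈ range n, (CC a j + CC a (j + 1)) * psi j w

/-- the derivative of `s_n` -/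
noncomputable def sn' (a : ℝ) (n : ℕ) (w : ℝ) : ℝ :=
  ∑ j ∈ range n, (CC a j + CC a (j + 1)) * psi' j w

theorem hasDerivAt_sn (a : ℝ) (n : ℕ) (w : ℝ) : HasDerivAt (sn a n) (sn' a n w) w := by
  unfold sn sn'
  exact HasDerivAt.fun_sum fun j _ => (hasDerivAt_psi j w).const_mul _

theorem CC_add {a : ℝ} (ha1 : a < 1) (j : ℕ) :
    CC a j + CC a (j + 1) = CC a j * ((2 * j + 1) / (j + 1 - a)) := by
  have h1 : (0 : ℝ) < j + 1 - a := by
    have : (0 : ℝ) ≤ j := Nat.cast_nonneg j
    linarith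
  simp only [CC]
  field_simp
  ring

/-- **mass balance**: `w s_n' = a s_n + w (1-w) e^(-w) - C_n X_(n-1)` -/
theorem sn_balance {a : ℝ} (ha1 : a < 1) (n : ℕ) (w : ℝ) :
    w * sn' a (n + 1) w =
      a * sn a (n + 1) w + w * (1 - w) * Real.exp (-w) - CC a (n + 1) * XX n w := by
  induction n with
  | zero =>
    have h0 : (0 : ℝ) < 1 - a := sub_pos.2 ha1
    simp only [sn, sn', zero_add, sum_range_one, CC, XX, psi, psi', Nat.cast_zero, one_mul]
    field_simp
    ring
  | succ n ih =>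
    have h1 : (0 : ℝ) < (n + 1 : ℕ) + 1 - a := by
      have : (0 : ℝ) ≤ n := Nat.cast_nonneg n
      push_cast
      linarith
    have e1 : sn' a (n + 2) w = sn' a (n + 1) w +
        (CC a (n + 1) + CC a (n + 2)) * psi' (n + 1) w := by
      unfold sn'
      rw [sum_range_succ]
    have e2 : sn a (n + 2) w = sn a (n + 1) w +
        (CC a (n + 1) + CC a (n + 2)) * psi (n + 1) w := by
      unfold sn
      rw [sum_range_succ]
    have h3 := chain_psi n w
    have h4 : CC a (n + 2) = CC a (n + 1) * (((n + 1 : ℕ) + a) / ((n + 1 : ℕ) + 1 - a)) := rfl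
    have h5 : XX (n + 1) w = ((n + 1 : ℕ) + 1) * psi (n + 1) w - w * psi' (n + 1) w := rfl
    rw [show n + 1 + 1 = n + 2 from rfl, e1, e2, h5, mul_add, ih, ← h3, h4]
    push_cast at h1 ⊢
    field_simp
    ring

/-! ### The total mass and the truncation -/

/-- `γ(w) = ∫_0^w s^(-a) (1-s) e^(-s) ds` -/
noncomputable def gam (a w : ℝ) : ℝ :=
  ∫ s in (0 : ℝ)..w, s ^ (-a) * ((1 - s) * Real.exp (-s))

/-- the total mass `z(w) = w^a γ(w)` -/
noncomputable def zz (a w : ℝ) : ℝ := w ^ a * gam a w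

theorem gam_int {a : ℝ} (ha1 : a < 1) (x y : ℝ) :
    IntervalIntegrable (fun s : ℝ => s ^ (-a) * ((1 - s) * Real.exp (-s))) volume x y := by
  have h1 : IntervalIntegrable (fun s : ℝ => s ^ (-a)) volume x y :=
    intervalIntegral.intervalIntegrable_rpow' (by linarith)
  exact h1.mul_continuousOn (by fun_prop)

theorem gam_zero (a : ℝ) : gam a 0 = 0 := by
  unfold gam
  exact intervalIntegral.integral_same

theorem cont_gam {a : ℝ} (ha1 : a < 1) : Continuous (gam a) :=
  intervalIntegral.continuous_primitive (gam_int ha1) 0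

theorem hasDerivAt_gam {a w : ℝ} (ha1 : a < 1) (hw : 0 < w) :
    HasDerivAt (gam a) (w ^ (-a) * ((1 - w) * Real.exp (-w))) w := by
  have h1 : ContinuousAt (fun s : ℝ => s ^ (-a) * ((1 - s) * Real.exp (-s))) w := by
    have : ContinuousAt (fun s : ℝ => s ^ (-a)) w :=
      Real.continuousAt_rpow_const w _ (Or.inl hw.ne')
    exact this.mul (by fun_prop)
  refine intervalIntegral.integral_hasDerivAt_right (gam_int ha1 0 w) ?_ h1
  have h2 : ContinuousOn (fun s : ℝ => s ^ (-a) * ((1 - s) * Real.exp (-s))) (Set.Ioi 0) := by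
    intro s hs
    have : ContinuousAt (fun s : ℝ => s ^ (-a)) s :=
      Real.continuousAt_rpow_const s _ (Or.inl (ne_of_gt hs))
    exact (this.mul (by fun_prop)).continuousWithinAt
  exact h2.stronglyMeasurableAtFilter isOpen_Ioi w hw

/-- `w^(-a) ψ_j(w) → 0` for `w → 0+` -/
theorem tendsto_psi {a : ℝ} (ha1 : a < 1) (j : ℕ) :
    Tendsto (fun w : ℝ => w ^ (-a) * psi j w) (𝓝[>] 0) (𝓝 0) := by
  have key : ∀ χ : ℝ → ℝ, Continuous χ →
      Tendsto (fun w : ℝ => w ^ (1 - a) * χ w) (𝓝[>] 0) (𝓝 0) := by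
    intro χ hχ
    have h1 : ContinuousAt (fun w : ℝ => w ^ (1 - a) * χ w) 0 := by
      have : ContinuousAt (fun w : ℝ => w ^ (1 - a)) 0 :=
        Real.continuousAt_rpow_const 0 _ (Or.inr (by linarith))
      exact this.mul hχ.continuousAt
    have h2 := h1.tendsto
    rw [Real.zero_rpow (by linarith : 1 - a ≠ 0), zero_mul] at h2
    exact h2.mono_left nhdsWithin_le_nhds
  have e : ∀ w : ℝ, 0 < w → w ^ (-a) * w = w ^ (1 - a) := fun w hw => by
    rw [show (1 - a : ℝ) = -a + 1 by ring, Real.rpow_add hw, Real.rpow_one]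
  cases j with
  | zero =>
    refine (key (fun w => Real.exp (-w)) (by fun_prop)).congr' ?_
    filter_upwards [self_mem_nhdsWithin] with w hw
    rw [← e w hw]
    simp only [psi]
    ring
  | succ j =>
    have h := cont_JJ' (j + 2) j
    refine (key (fun w => w ^ (j + 1) / j ! * JJ (j + 2) j w) (by fun_prop)).congr' ?_
    filter_upwards [self_mem_nhdsWithin] with w hw
    rw [← e w hw]
    simp only [psi]
    ring

/-- `R_n(w) = γ(w) - w^(-a) s_n(w)` -/
noncomputable def RR (a : ℝ) (n : ℕ) (w : ℝ) : ℝ := gam a w - w ^ (-a) * sn a n w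

theorem tendsto_RR {a : ℝ} (ha1 : a < 1) (n : ℕ) : Tendsto (RR a n) (𝓝[>] 0) (𝓝 0) := by
  have h1 : Tendsto (gam a) (𝓝[>] 0) (𝓝 0) := by
    have := (cont_gam ha1).tendsto 0
    rw [gam_zero] at this
    exact this.mono_left nhdsWithin_le_nhds
  have h2 : Tendsto (fun w : ℝ => w ^ (-a) * sn a n w) (𝓝[>] 0) (𝓝 0) := by
    have h3 : Tendsto (fun w : ℝ => ∑ j ∈ range n, (CC a j + CC a (j + 1)) *
        (w ^ (-a) * psi j w)) (𝓝[>] 0) (𝓝 (∑ j ∈ range n, (CC a j + CC a (j + 1)) * 0)) :=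
      tendsto_finsetSum _ fun j _ => (tendsto_psi ha1 j).const_mul _
    simp only [mul_zero, sum_const_zero] at h3
    refine h3.congr fun w => ?_
    unfold sn
    rw [mul_sum]
    refine sum_congr rfl fun j _ => ?_
    ring
  have h := h1.sub h2
  rw [sub_zero] at h
  exact h

theorem hasDerivAt_RR {a w : ℝ} (ha1 : a < 1) (hw : 0 < w) (n : ℕ) :
    HasDerivAt (RR a (n + 1)) (w ^ (-a - 1) * (CC a (n + 1) * XX n w)) w := by
  have h1 := hasDerivAt_gam ha1 hw
  have h2 : HasDerivAt (fun w : ℝ => w ^ (-a)) (-a * w ^ (-a - 1)) w :=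
    Real.hasDerivAt_rpow_const (Or.inl hw.ne')
  have h3 := h1.sub (h2.mul (hasDerivAt_sn a (n + 1) w))
  refine h3.congr_deriv ?_
  have h4 := sn_balance ha1 n w
  have e : w ^ (-a) = w ^ (-a - 1) * w := by
    rw [show (-a : ℝ) = (-a - 1) + 1 by ring, Real.rpow_add hw, Real.rpow_one]
    ring_nf
  rw [e]
  linear_combination (-(w ^ (-a - 1))) * h4

theorem RR_strictMono {a : ℝ} (ha0 : 0 < a) (ha1 : a < 1) (n : ℕ) :
    StrictMonoOn (RR a (n + 1)) (Set.Ioi 0) := by
  refine strictMonoOn_of_deriv_pos (convex_Ioi 0) ?_ ?_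
  · exact fun w hw => (hasDerivAt_RR ha1 hw n).continuousAt.continuousWithinAt
  · intro w hw
    rw [interior_Ioi] at hw
    have hw' : 0 < w := hw
    rw [(hasDerivAt_RR ha1 hw' n).deriv]
    have h1 := CC_pos ha0 ha1 (n + 1)
    have h2 := XX_pos n hw'
    positivity

/-- **positivity of the remainder** -/
theorem RR_pos {a w : ℝ} (ha0 : 0 < a) (ha1 : a < 1) (hw : 0 < w) (n : ℕ) :
    0 < RR a (n + 1) w := by
  have h1 : 0 ≤ RR a (n + 1) (w / 2) := by
    refine le_of_tendsto (tendsto_RR ha1 (n + 1)) ?_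
    filter_upwards [Ioo_mem_nhdsGT (half_pos hw)] with x hx
    exact (RR_strictMono ha0 ha1 n).monotoneOn hx.1 (half_pos hw) hx.2.le
  exact h1.trans_lt (RR_strictMono ha0 ha1 n (half_pos hw) hw (half_lt_self hw))

/-- `z - s_(n+1) = w^a R_(n+1) > 0` -/
theorem sn_lt_zz {a w : ℝ} (ha0 : 0 < a) (ha1 : a < 1) (hw : 0 < w) (n : ℕ) :
    sn a (n + 1) w < zz a w := by
  have h1 := RR_pos ha0 ha1 hw n
  unfold RR at h1
  have h2 : w ^ a * (w ^ (-a) * sn a (n + 1) w) = sn a (n + 1) w := by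
    rw [← mul_assoc, ← Real.rpow_add hw, add_neg_cancel, Real.rpow_zero, one_mul]
  have h3 : 0 < w ^ a := Real.rpow_pos_of_pos hw a
  have h4 : 0 < w ^ a * (gam a w - w ^ (-a) * sn a (n + 1) w) := mul_pos h3 h1
  rw [mul_sub, h2] at h4
  exact sub_pos.1 h4

theorem zz_pos {a w : ℝ} (ha0 : 0 < a) (ha1 : a < 1) (hw : 0 < w) : 0 < zz a w := by
  refine lt_of_le_of_lt ?_ (sn_lt_zz ha0 ha1 hw 0)
  simp only [sn, zero_add, sum_range_one]
  have h1 := CC_pos ha0 ha1 0
  have h2 := CC_pos ha0 ha1 1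
  have h3 := psi_pos 0 hw
  positivity

/-! ### Shares and tails

`B_0 = ψ_0`, `B_j = C_j (ψ_j + ψ_(j-1))`, tails `T_j = z - ∑_(i ≤ j) B_i`; for the target `n` the
share of `E_n` is `T_(n-1)`. -/

/-- the shares (not normalised, `w = c`) -/
noncomputable def Bs (a w : ℝ) : ℕ → ℝ
  | 0 => psi 0 w
  | j + 1 => CC a (j + 1) * (psi (j + 1) w + psi j w)

/-- the tails `T_j = z - ∑_(i ≤ j) B_i` -/
noncomputable def Tl (a w : ℝ) (j : ℕ) : ℝ := zz a w - ∑ i ∈ range (j + 1), Bs a w i

theorem sum_Bs (a w : ℝ) (j : ℕ) :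
    ∑ i ∈ range (j + 1), Bs a w i = sn a (j + 1) w - CC a (j + 1) * psi j w := by
  induction j with
  | zero =>
    simp only [zero_add, sum_range_one, Bs, sn, CC, one_mul]
    ring
  | succ j ih =>
    rw [sum_range_succ, ih]
    have : sn a (j + 1 + 1) w = sn a (j + 1) w + (CC a (j + 1) + CC a (j + 2)) * psi (j + 1) w := by
      unfold sn
      rw [sum_range_succ]
    rw [this]
    simp only [Bs]
    ring

theorem Tl_eq (a w : ℝ) (j : ℕ) :
    Tl a w j = (zz a w - sn a (j + 1) w) + CC a (j + 1) * psi j w := by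
  unfold Tl
  rw [sum_Bs]
  ring

/-- the truncated share of `E_(j+1)` is at least the share of the transport -/
theorem lt_Tl {a w : ℝ} (ha0 : 0 < a) (ha1 : a < 1) (hw : 0 < w) (j : ℕ) :
    CC a (j + 1) * psi j w < Tl a w j := by
  rw [Tl_eq]
  linarith [sn_lt_zz ha0 ha1 hw j]

theorem Tl_pos {a w : ℝ} (ha0 : 0 < a) (ha1 : a < 1) (hw : 0 < w) (j : ℕ) : 0 < Tl a w j :=
  lt_trans (mul_pos (CC_pos ha0 ha1 _) (psi_pos j hw)) (lt_Tl ha0 ha1 hw j)

theorem Tl_succ (a w : ℝ) (j : ℕ) : Tl a w (j + 1) = Tl a w j - Bs a w (j + 1) := by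
  unfold Tl
  rw [sum_range_succ _ (j + 1)]
  ring

theorem Tl_zero (a w : ℝ) : Tl a w 0 = zz a w - w * Real.exp (-w) := by
  simp [Tl, Bs, psi]

/-- `z` as a series: `z(w) = w ∑_k (-w)^k (k+1)/(k! (k+1-a))`, in integrated form -/
theorem zz_eq (a : ℝ) {w : ℝ} (hw : 0 < w) :
    zz a w = w * ∫ u in (0 : ℝ)..1, u ^ (-a) * ((1 - w * u) * Real.exp (-(w * u))) := by
  have h1 : gam a w = w * ∫ u in (0 : ℝ)..1, (w * u) ^ (-a) *
      ((1 - w * u) * Real.exp (-(w * u))) := by
    have := intervalIntegral.mul_integral_comp_mul_left (a := 0) (b := 1)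
      (f := fun s : ℝ => s ^ (-a) * ((1 - s) * Real.exp (-s))) w
    rw [mul_zero, mul_one] at this
    exact this.symm
  have h2 : ∫ u in (0 : ℝ)..1, (w * u) ^ (-a) * ((1 - w * u) * Real.exp (-(w * u))) =
      w ^ (-a) * ∫ u in (0 : ℝ)..1, u ^ (-a) * ((1 - w * u) * Real.exp (-(w * u))) := by
    rw [← intervalIntegral.integral_const_mul]
    refine intervalIntegral.integral_congr fun u hu => ?_
    rw [Set.uIcc_of_le zero_le_one] at hu
    rw [Real.mul_rpow hw.le hu.1]
    ring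
  unfold zz
  rw [h1, h2, show w ^ a * (w * (w ^ (-a) * ∫ u in (0 : ℝ)..1, u ^ (-a) *
      ((1 - w * u) * Real.exp (-(w * u))))) = (w ^ a * w ^ (-a)) * (w * ∫ u in (0 : ℝ)..1,
      u ^ (-a) * ((1 - w * u) * Real.exp (-(w * u)))) by ring, ← Real.rpow_add hw,
    add_neg_cancel, Real.rpow_zero, one_mul]

end Pool.Agent.Lib.QNL.Wts73
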