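import Pool.Agent.Lib.QNL.Ric
import Pool.Agent.Lib.QNL.Wts73

/-!
Group N, glue: the shares with the truncated last one, and the Prop `CertG n p` which contains
everything numerical that the top-level deduction needs for one `(n, p)`.

Normalisation of `Wts73` (the factor `1/(1-a)` of the weights `gw` is dropped):
shares `b_j = Bs a c j` (`j < n`), `b_n = Tl a c (n-1)`, total mass `zz a c`,
extraction `κ(l) = e^(-(1-a)l) w (w-1) e^(-w)`, `w = c e^l`, `kh(l) = e^(-(2a-1)l) κ(l)`.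
-/

set_option autoImplicit false

namespace Pool.Agent.Lib.QNL.CG

open MeasureTheory Set Filter Topology Finset
open Pool.Agent.Lib.QNL
open Pool.Agent.Lib.QNL.Wts73
open Pool.Agent.Lib.QNL.Ric (Ft Ft_succ Ft_self wj thj Bj cj Cj)

/-- the shares for the target `n` -/
noncomputable def bs (n : ℕ) (a c : ℝ) (j : ℕ) : ℝ :=
  if j < n then Bs a c j else if j = n then Tl a c (n - 1) else 0

theorem Bs_pos {a c : ℝ} (ha0 : 0 < a) (ha1 : a < 1) (hc : 0 < c) (j : ℕ) : 0 < Bs a c j := by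
  cases j with
  | zero => exact psi_pos 0 hc
  | succ j =>
    simp only [Bs]
    have h1 := CC_pos ha0 ha1 (j + 1)
    have h2 := psi_pos j hc
    have h3 := psi_pos (j + 1) hc
    positivity

theorem bs_nonneg {a c : ℝ} (ha0 : 0 < a) (ha1 : a < 1) (hc : 0 < c) (n j : ℕ) :
    0 ≤ bs n a c j := by
  unfold bs
  split_ifs
  · exact (Bs_pos ha0 ha1 hc j).le
  · exact (Tl_pos ha0 ha1 hc _).le
  · exact le_rfl

/-- the tails of the shares are the tails `Tl` -/
theorem Ft_bs {n : ℕ} (a c : ℝ) {j : ℕ} (hj : j < n) : Ft n (bs n a c) j = Tl a c j := by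
  obtain ⟨k, rfl⟩ : ∃ k, n = j + 1 + k := ⟨n - (j + 1), by omega⟩
  induction k generalizing j with
  | zero =>
    have e : j + 1 + 0 - 1 = j := by omega
    rw [Ft_succ hj, Nat.add_zero, Ft_self, add_zero]
    unfold bs
    rw [if_neg (by omega), if_pos rfl]
    congr 1
  | succ k ih =>
    rw [Ft_succ hj]
    have h1 : j + 1 + (k + 1) = (j + 1) + 1 + k := by omega
    have h2 := ih (j := j + 1) (by omega)
    rw [← h1] at h2
    rw [h2, Tl_succ]
    unfold bs
    rw [if_pos (by omega)]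
    ring

/-- the sum of the shares is the total mass -/
theorem sum_bs {n : ℕ} (hn : 1 ≤ n) (a c : ℝ) :
    ∑ j ∈ range (n + 1), bs n a c j = zz a c := by
  have h1 : Finset.range (n + 1) = insert 0 (Finset.Ioc 0 n) := by
    ext i
    simp only [Finset.mem_Ioc, Finset.mem_insert, Finset.mem_range]
    omega
  rw [h1, Finset.sum_insert (by simp)]
  have h2 : ∑ i ∈ Finset.Ioc 0 n, bs n a c i = Tl a c 0 := Ft_bs a c (by omega : 0 < n)
  rw [h2, Tl_zero]
  unfold bs
  rw [if_pos (by omega)]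
  simp [Bs, psi]

theorem wj_bs {n : ℕ} (a c p : ℝ) {j : ℕ} (hj : j < n) :
    wj n p (bs n a c) j = (2 - p) * Tl a c j / (2 * j + 1) := by
  unfold wj
  rw [Ft_bs a c hj]

theorem Cj_eq_CC (a : ℝ) (j : ℕ) : Cj a j = CC a j := by
  induction j with
  | zero => simp [CC]
  | succ j ih =>
    rw [Ric.Cj_succ, ih]
    rfl

/-- the extraction density -/
noncomputable def kap (a c l : ℝ) : ℝ :=
  Real.exp (-((1 - a) * l)) * (c * Real.exp l * (c * Real.exp l - 1) *
    Real.exp (-(c * Real.exp l)))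

/-- the extraction density with the factor of the scaling -/
noncomputable def kh (a c l : ℝ) : ℝ := Real.exp (-((2 * a - 1) * l)) * kap a c l

/-- **everything numerical for one `(n, p)`**: `c` = parameter of the weights, `r` = exponent of
the base, `k1` = retained kernel, `Lam` = multiplier of the mass inequality. -/
structure CertG (n : ℕ) (p c r smax Lam : ℝ) (V k1 : ℝ → ℝ) : Prop where
  one_le_c : 1 ≤ c
  one_le_r : 1 ≤ r
  r_lt : r < p
  lt_smax : 1 / r < smax
  Lam_nonneg : 0 ≤ Lam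
  form : QForm n p smax (thj n (1 / p) (bs n (1 / p) c)) (Bj n (1 / p) (bs n (1 / p) c)) V
  V_nonneg : ∀ s ∈ Icc (0 : ℝ) (1 / r), 0 ≤ V s
  k1_nonneg : ∀ l, 0 < l → 0 ≤ k1 l
  k1_le : ∀ l, 0 < l → k1 l ≤ kh (1 / p) c l
  k1_anti : AntitoneOn k1 (Ioi 0)
  top : ∀ y : ℝ, 0 ≤ y → (1 - r / p) * y ^ r ≤ 1 →
    (V ((1 - (1 - r / p) * y ^ r) / r) - ∫ l in Ioi (0 : ℝ), k1 l) * y ^ 2 +
      2 * (2 / p - 1) * (∫ l in Ioi (0 : ℝ), k1 l * (Real.exp ((p / r - 1) * l / 2) - 1)) *
        (y ^ 2 - 1 - 2 / r * (y ^ r - 1)) +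
      (zz (1 / p) c - ∫ l in Ioi (0 : ℝ), k1 l) * ((2 / p - 1) - 2 / p * y ^ p) ≤
      Lam * ((1 - (1 - r / p) * y ^ r) / r - 1 / p)

end Pool.Agent.Lib.QNL.CG
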