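import Mathlib

/-!
# The one-variable inequality for `n = 2` and the pointwise inequality (room QNL)

`a = 1/p` in `(1/2, 1)`, `c = a (1 - a)`, `w = c (2 + c) / (2 (1 + 2 c))`, `r = (1 - w)/a`,
`y = (1 - w x^r)/(1 - w)` (so that `a y` is the layer density of the swept `|X|^r`).
-/

namespace Pool.Agent.Lib.QNL.OneVar

noncomputable section

/-- `c = a (1 - a)` -/
def cc (a : ℝ) : ℝ := a * (1 - a)

/-- `w = 1 - a r` -/
def ww (a : ℝ) : ℝ := cc a * (2 + cc a) / (2 * (1 + 2 * cc a))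

/-- the exponent `r` of the sweeping -/
def rr (a : ℝ) : ℝ := (1 - ww a) / a

/-- the quadratic `Q` -/
def QQ (a y : ℝ) : ℝ := 6 - (4 + 2 * a + 4 * a ^ 2) * y + a * (1 + a) ^ 2 * y ^ 2

/-- the value function -/
def vv (a y : ℝ) : ℝ := (1 - a) / a * (1 + (2 * a - 1) * y * (6 - (4 - cc a) * y) / QQ a y)

/-- `(1 + 2 c) S` -/
def SS (a y : ℝ) : ℝ :=
  18 * cc a * (3 - (1 - cc a) * y) - (1 + 2 * cc a) * (2 + cc a) ^ 2 * y ^ 2

variable {a : ℝ}

theorem cc_pos (h1 : 1 / 2 < a) (h2 : a < 1) : 0 < cc a := by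
  unfold cc; apply mul_pos <;> linarith

theorem cc_le (a : ℝ) : cc a ≤ 1 / 4 := by
  unfold cc; nlinarith [sq_nonneg (a - 1 / 2)]

theorem ww_pos (h1 : 1 / 2 < a) (h2 : a < 1) : 0 < ww a := by
  have := cc_pos h1 h2
  unfold ww; positivity

theorem ww_lt (h1 : 1 / 2 < a) (h2 : a < 1) : ww a < 1 / 2 := by
  have h := cc_pos h1 h2
  have h' := cc_le a
  unfold ww
  rw [div_lt_iff₀ (by positivity)]
  nlinarith

theorem ww_mul (h1 : 1 / 2 < a) (h2 : a < 1) :
    ww a * (2 * (1 + 2 * cc a)) = cc a * (2 + cc a) := by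
  have := cc_pos h1 h2
  unfold ww; field_simp

theorem one_le_rr (h1 : 1 / 2 < a) (h2 : a < 1) : 1 ≤ rr a := by
  have hc := cc_pos h1 h2
  have hw := ww_mul h1 h2
  unfold rr
  rw [le_div_iff₀ (by linarith)]
  have hd : 0 < 2 * (1 + 2 * cc a) := by positivity
  have h3 : ww a ≤ 1 - a := by
    rw [← mul_le_mul_iff_left₀ hd, hw]
    unfold cc
    nlinarith [mul_nonneg (sub_nonneg.2 h2.le) (mul_nonneg (sub_nonneg.2 h2.le)
      (by nlinarith : (0:ℝ) ≤ 2 + 4 * a - a ^ 2))]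
  linarith

theorem rr_le_two (h1 : 1 / 2 < a) (h2 : a < 1) : rr a ≤ 2 := by
  have hw := ww_pos h1 h2
  unfold rr
  rw [div_le_iff₀ (by linarith)]
  linarith

theorem rr_pos (h1 : 1 / 2 < a) (h2 : a < 1) : 0 < rr a := by
  linarith [one_le_rr h1 h2]

/-- fact (i): `2 Z < a (2 + c) Q` with `Z = 2 (1 + 2c) (1 - (1 - w) y)`. -/
theorem fact1 (h1 : 1 / 2 < a) (h2 : a < 1) (y : ℝ) :
    4 * (1 + 2 * cc a) * (1 - (1 - ww a) * y) < a * (2 + cc a) * QQ a y := by
  have hw := ww_mul h1 h2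
  have e1 : 4 * (1 + 2 * cc a) * (1 - (1 - ww a) * y)
      = 4 * (1 + 2 * cc a) * (1 - y) + 2 * (cc a * (2 + cc a)) * y := by
    rw [← hw]; ring
  rw [e1]
  have hc := cc_pos h1 h2
  set A : ℝ := a * (2 + cc a) * (a * (1 + a) ^ 2) with hA
  set B : ℝ := 2 + 2 * cc a - cc a ^ 2 - a * (2 + cc a) * (2 - a ^ 3) with hB
  set C : ℝ := cc a ^ 2 * (2 + cc a) with hC
  have key : a * (2 + cc a) * QQ a y - (4 * (1 + 2 * cc a) * (1 - y)
      + 2 * (cc a * (2 + cc a)) * y) = C + 2 * B * (y - 1) + A * (y - 1) ^ 2 := by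
    rw [hA, hB, hC]; unfold QQ cc; ring
  have hApos : 0 < A := by rw [hA]; positivity
  have hdisc : B ^ 2 < A * C := by
    have hu : B < cc a * (2 + cc a) * (a * (1 + a)) := by
      rw [hB]; unfold cc
      have hs : 0 < 1 - a := by linarith
      have ht : 0 < a - 1 / 2 := by linarith
      have h : 0 < (1 - a) * (6 * (1 - a) ^ 5 + 180 * (1 - a) ^ 4 * (a - 1 / 2)
          + 744 * (1 - a) ^ 3 * (a - 1 / 2) ^ 2 + 1208 * (1 - a) ^ 2 * (a - 1 / 2) ^ 3
          + 864 * (1 - a) * (a - 1 / 2) ^ 4 + 224 * (a - 1 / 2) ^ 5) := by positivity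
      nlinarith [h]
    have hl : -(cc a * (2 + cc a) * (a * (1 + a))) < B := by
      rw [hB]; unfold cc
      have hs : 0 < 1 - a := by linarith
      have ht : 0 < a - 1 / 2 := by linarith
      have h : 0 < (1 - a) * (12 * (1 - a) ^ 3 + 30 * (1 - a) ^ 2 * (a - 1 / 2)
          + 24 * (1 - a) * (a - 1 / 2) ^ 2 + 8 * (a - 1 / 2) ^ 3) := by positivity
      nlinarith [h]
    have : A * C = (cc a * (2 + cc a) * (a * (1 + a))) ^ 2 := by
      rw [hA, hC]; ring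
    rw [this]
    exact sq_lt_sq' hl hu
  have : 0 < C + 2 * B * (y - 1) + A * (y - 1) ^ 2 := by
    have h3 : 0 < A * (C + 2 * B * (y - 1) + A * (y - 1) ^ 2) := by
      nlinarith [sq_nonneg (A * (y - 1) + B)]
    exact (mul_pos_iff_of_pos_left hApos).1 h3
  linarith

/-- fact (ii) -/
theorem fact2 (h1 : 1 / 2 < a) (h2 : a < 1) {y : ℝ} (hy : 0 ≤ y) :
    y * SS a y ≤ 4 * (1 + 2 * cc a) := by
  have hc := cc_pos h1 h2
  have hc' := cc_le a
  unfold SS
  set c := cc a with hcdef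
  have hlin : 0 ≤ -54 * c + 18 * c * (1 - c) * (2 * (13 / 20))
      + (1 + 2 * c) * (2 + c) ^ 2 * (3 * (13 / 20) ^ 2) := by
    nlinarith [mul_nonneg hc.le (sub_nonneg.2 hc'), mul_nonneg hc.le hc.le,
      mul_nonneg (mul_nonneg hc.le hc.le) hc.le]
  have hconst : 0 ≤ 4 * (1 + 2 * c) - 18 * c * (1 - c) * (13 / 20) ^ 2
      - (1 + 2 * c) * (2 + c) ^ 2 * (2 * (13 / 20) ^ 3) := by
    nlinarith [mul_nonneg hc.le (sub_nonneg.2 hc'), mul_nonneg hc.le hc.le,
      mul_nonneg (mul_nonneg hc.le hc.le) (sub_nonneg.2 hc')]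
  have h3 : 0 ≤ 18 * c * (1 - c) * (y - 13 / 20) ^ 2 := by
    have : 0 ≤ 1 - c := by linarith
    positivity
  have h4 : 0 ≤ (1 + 2 * c) * (2 + c) ^ 2 * ((y - 13 / 20) ^ 2 * (y + 2 * (13 / 20))) := by
    positivity
  nlinarith [mul_nonneg hy hlin]

/-- fact (iii) -/
theorem fact3 (h1 : 1 / 2 < a) (h2 : a < 1) {y : ℝ} (hy : 1 ≤ y) (hS : 0 < SS a y) :
    (1 - a) * y * SS a y ≤ 2 * (1 + 2 * cc a) * QQ a y := by
  have hc := cc_pos h1 h2
  have hc' := cc_le a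
  have hc2 : 2 / 13 < cc a := by
    have h5 : SS a y ≤ 18 * cc a * (2 + cc a) - (1 + 2 * cc a) * (2 + cc a) ^ 2 := by
      unfold SS
      have e1 : 18 * cc a * (3 - (1 - cc a) * y) ≤ 18 * cc a * (2 + cc a) := by
        apply mul_le_mul_of_nonneg_left _ (by positivity)
        nlinarith
      have e2 : (1 + 2 * cc a) * (2 + cc a) ^ 2 ≤ (1 + 2 * cc a) * (2 + cc a) ^ 2 * y ^ 2 := by
        have : 1 ≤ y ^ 2 := by nlinarith
        nlinarith [mul_nonneg (by positivity : 0 ≤ (1 + 2 * cc a) * (2 + cc a) ^ 2)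
          (sub_nonneg.2 this)]
      linarith
    have h6 : 0 < (2 + cc a) * (13 * cc a - 2 - 2 * cc a ^ 2) := by
      have : (2 + cc a) * (13 * cc a - 2 - 2 * cc a ^ 2)
        = 18 * cc a * (2 + cc a) - (1 + 2 * cc a) * (2 + cc a) ^ 2 := by ring
      rw [this]; linarith
    have h7 : 0 < 13 * cc a - 2 - 2 * cc a ^ 2 :=
      (mul_pos_iff_of_pos_left (by positivity)).1 h6
    nlinarith [sq_nonneg (cc a)]
  have ha : a < 41 / 50 := by
    unfold cc at hc2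
    nlinarith
  have hs : 0 < 41 / 50 - a := by linarith
  have ht : 0 < a - 1 / 2 := by linarith
  have ha0 : 0 < a := by linarith
  have hy' : 0 ≤ y - 1 := by linarith
  have hL : 0 ≤ 10 + 12 * a - 149 / 2 * a ^ 2 + 149 / 2 * a ^ 3 - 87 / 2 * a ^ 4 + 97 / 2 * a ^ 5
      - 36 * a ^ 6 + 9 * a ^ 7 := by
    have h : 0 ≤ (3900146484375/268435456) * (41 / 50 - a) ^ 7
      + (22554931640625/268435456) * (41 / 50 - a) ^ 6 * (a - 1 / 2)
      + (53809013671875/268435456) * (41 / 50 - a) ^ 5 * (a - 1 / 2) ^ 2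
      + (68210220703125/268435456) * (41 / 50 - a) ^ 4 * (a - 1 / 2) ^ 3
      + (49197819953125/268435456) * (41 / 50 - a) ^ 3 * (a - 1 / 2) ^ 4
      + (19969261281875/268435456) * (41 / 50 - a) ^ 2 * (a - 1 / 2) ^ 5
      + (4165666737025/268435456) * (41 / 50 - a) * (a - 1 / 2) ^ 6
      + (340649139879/268435456) * (a - 1 / 2) ^ 7 := by positivity
    have e : (3900146484375/268435456) * (41 / 50 - a) ^ 7
      + (22554931640625/268435456) * (41 / 50 - a) ^ 6 * (a - 1 / 2)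
      + (53809013671875/268435456) * (41 / 50 - a) ^ 5 * (a - 1 / 2) ^ 2
      + (68210220703125/268435456) * (41 / 50 - a) ^ 4 * (a - 1 / 2) ^ 3
      + (49197819953125/268435456) * (41 / 50 - a) ^ 3 * (a - 1 / 2) ^ 4
      + (19969261281875/268435456) * (41 / 50 - a) ^ 2 * (a - 1 / 2) ^ 5
      + (4165666737025/268435456) * (41 / 50 - a) * (a - 1 / 2) ^ 6
      + (340649139879/268435456) * (a - 1 / 2) ^ 7
      = 10 + 12 * a - 149 / 2 * a ^ 2 + 149 / 2 * a ^ 3 - 87 / 2 * a ^ 4 + 97 / 2 * a ^ 5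
      - 36 * a ^ 6 + 9 * a ^ 7 := by ring
    linarith
  have hK : 0 ≤ 29 / 4 - 99 / 4 * a + 459 / 16 * a ^ 2 + 9 / 16 * a ^ 3 - 367 / 16 * a ^ 4
      + 249 / 16 * a ^ 5 - 13 / 2 * a ^ 6 + 13 / 8 * a ^ 7 := by
    have h : 0 ≤ (6756591796875/2147483648) * (41 / 50 - a) ^ 7
      + (40721923828125/2147483648) * (41 / 50 - a) ^ 6 * (a - 1 / 2)
      + (108555615234375/2147483648) * (41 / 50 - a) ^ 5 * (a - 1 / 2) ^ 2
      + (164517931640625/2147483648) * (41 / 50 - a) ^ 4 * (a - 1 / 2) ^ 3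
      + (150388345890625/2147483648) * (41 / 50 - a) ^ 3 * (a - 1 / 2) ^ 4
      + (80769508404375/2147483648) * (41 / 50 - a) ^ 2 * (a - 1 / 2) ^ 5
      + (22697577322925/2147483648) * (41 / 50 - a) * (a - 1 / 2) ^ 6
      + (2392256032603/2147483648) * (a - 1 / 2) ^ 7 := by positivity
    have e : (6756591796875/2147483648) * (41 / 50 - a) ^ 7
      + (40721923828125/2147483648) * (41 / 50 - a) ^ 6 * (a - 1 / 2)
      + (108555615234375/2147483648) * (41 / 50 - a) ^ 5 * (a - 1 / 2) ^ 2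
      + (164517931640625/2147483648) * (41 / 50 - a) ^ 4 * (a - 1 / 2) ^ 3
      + (150388345890625/2147483648) * (41 / 50 - a) ^ 3 * (a - 1 / 2) ^ 4
      + (80769508404375/2147483648) * (41 / 50 - a) ^ 2 * (a - 1 / 2) ^ 5
      + (22697577322925/2147483648) * (41 / 50 - a) * (a - 1 / 2) ^ 6
      + (2392256032603/2147483648) * (a - 1 / 2) ^ 7
      = 29 / 4 - 99 / 4 * a + 459 / 16 * a ^ 2 + 9 / 16 * a ^ 3 - 367 / 16 * a ^ 4
      + 249 / 16 * a ^ 5 - 13 / 2 * a ^ 6 + 13 / 8 * a ^ 7 := by ring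
    linarith
  set k3 : ℝ := (1 - a) * ((1 + 2 * cc a) * (2 + cc a) ^ 2) with hk3
  set k2 : ℝ := 2 * (1 + 2 * cc a) * (a * (1 + a) ^ 2)
      + (1 - a) * (18 * cc a * (1 - cc a) + 3 * ((1 + 2 * cc a) * (2 + cc a) ^ 2)) with hk2
  have hk3' : 0 ≤ k3 := by
    have : 0 < 1 - a := by linarith
    rw [hk3]; positivity
  have hk2' : 0 ≤ k2 := by
    have : 0 < 1 - a := by linarith
    have h' : 0 < 1 - cc a := by linarith
    rw [hk2]; positivity
  have key : 2 * (1 + 2 * cc a) * QQ a y - (1 - a) * y * SS a y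
      = (29 / 4 - 99 / 4 * a + 459 / 16 * a ^ 2 + 9 / 16 * a ^ 3 - 367 / 16 * a ^ 4
      + 249 / 16 * a ^ 5 - 13 / 2 * a ^ 6 + 13 / 8 * a ^ 7)
      + (10 + 12 * a - 149 / 2 * a ^ 2 + 149 / 2 * a ^ 3 - 87 / 2 * a ^ 4 + 97 / 2 * a ^ 5
      - 36 * a ^ 6 + 9 * a ^ 7) * (y - 1) + k2 * (y - 1 - 1 / 4) ^ 2 + k3 * (y - 1) ^ 3 := by
    rw [hk2, hk3]; unfold QQ SS cc; ring
  have h8 := mul_nonneg hL hy'
  have h9 := mul_nonneg hk2' (sq_nonneg (y - 1 - 1 / 4))
  have h10 := mul_nonneg hk3' (pow_nonneg hy' 3)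
  linarith

/-- `y = (1 - w u)/(1 - w)` with `u = x^r` -/
def yy (a u : ℝ) : ℝ := (1 - ww a * u) / (1 - ww a)

theorem yy_mul (h1 : 1 / 2 < a) (h2 : a < 1) (u : ℝ) :
    (1 - ww a) * yy a u = 1 - ww a * u := by
  have := ww_lt h1 h2
  unfold yy
  have h : 1 - ww a ≠ 0 := by linarith
  field_simp

/-- `(1 - a) u < Q / 2` -/
theorem u_lt (h1 : 1 / 2 < a) (h2 : a < 1) (u : ℝ) :
    2 * ((1 - a) * u) < QQ a (yy a u) := by
  have hf := fact1 h1 h2 (yy a u)
  rw [yy_mul h1 h2] at hf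
  have hw := ww_mul h1 h2
  have hc := cc_pos h1 h2
  have e : 4 * (1 + 2 * cc a) * (1 - (1 - ww a * u)) = a * (2 + cc a) * (2 * ((1 - a) * u)) := by
    have : 4 * (1 + 2 * cc a) * (1 - (1 - ww a * u)) = 2 * (ww a * (2 * (1 + 2 * cc a))) * u := by
      ring
    rw [this, hw]
    unfold cc; ring
  rw [e] at hf
  have hp : 0 < a * (2 + cc a) := by positivity
  exact (mul_lt_mul_iff_right₀ hp).1 hf

theorem QQ_pos (h1 : 1 / 2 < a) (h2 : a < 1) {u : ℝ} (hu : 0 ≤ u) : 0 < QQ a (yy a u) := by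
  have := u_lt h1 h2 u
  have h3 : 0 ≤ (1 - a) * u := mul_nonneg (by linarith) hu
  linarith

/-- the core inequality -/
theorem core (h1 : 1 / 2 < a) (h2 : a < 1) {x u : ℝ} (hx : 0 ≤ x) (hu0 : 0 ≤ u)
    (hwu : ww a * u ≤ 1) (hA : 1 ≤ x → x ^ 2 ≤ u ^ 2 ∧ 1 ≤ u) (hB : x ≤ 1 → x ^ 2 ≤ u ∧ u ≤ 1) :
    (1 - a) ^ 2 * (yy a u * SS a (yy a u)) * x ^ 2 ≤ (1 + 2 * cc a) * QQ a (yy a u) ^ 2 := by
  have hc := cc_pos h1 h2
  have hw := ww_pos h1 h2
  have hw' := ww_lt h1 h2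
  have hQ := QQ_pos h1 h2 hu0
  have hlt := u_lt h1 h2 u
  have h1a : 0 < 1 - a := by linarith
  have hym := yy_mul h1 h2 u
  have hy0 : 0 ≤ yy a u := by
    unfold yy
    apply div_nonneg <;> linarith
  rcases le_total 1 x with h | h
  · obtain ⟨hxu, hu1⟩ := hA h
    have hf := fact2 h1 h2 hy0
    have e1 : (1 - a) ^ 2 * (yy a u * SS a (yy a u)) * x ^ 2
        ≤ (1 - a) ^ 2 * (4 * (1 + 2 * cc a)) * x ^ 2 := by
      apply mul_le_mul_of_nonneg_right _ (sq_nonneg x)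
      exact mul_le_mul_of_nonneg_left hf (sq_nonneg _)
    have e2 : (1 - a) ^ 2 * (4 * (1 + 2 * cc a)) * x ^ 2
        ≤ (1 - a) ^ 2 * (4 * (1 + 2 * cc a)) * u ^ 2 := by
      apply mul_le_mul_of_nonneg_left hxu (by positivity)
    have e3 : (1 - a) ^ 2 * (4 * (1 + 2 * cc a)) * u ^ 2
        = (1 + 2 * cc a) * (2 * ((1 - a) * u)) ^ 2 := by ring
    have e4 : (2 * ((1 - a) * u)) ^ 2 ≤ QQ a (yy a u) ^ 2 := by
      apply pow_le_pow_left₀ (by positivity) hlt.le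
    have e5 : (1 + 2 * cc a) * (2 * ((1 - a) * u)) ^ 2
        ≤ (1 + 2 * cc a) * QQ a (yy a u) ^ 2 := by
      apply mul_le_mul_of_nonneg_left e4 (by positivity)
    linarith
  · obtain ⟨hxu, hu1⟩ := hB h
    have hy1 : 1 ≤ yy a u := by
      unfold yy
      rw [le_div_iff₀ (by linarith)]
      nlinarith
    rcases le_or_gt (SS a (yy a u)) 0 with hS | hS
    · have : (1 - a) ^ 2 * (yy a u * SS a (yy a u)) * x ^ 2 ≤ 0 := by
        have := mul_nonpos_of_nonneg_of_nonpos hy0 hS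
        have h3 : (1 - a) ^ 2 * (yy a u * SS a (yy a u)) ≤ 0 :=
          mul_nonpos_of_nonneg_of_nonpos (sq_nonneg _) this
        exact mul_nonpos_of_nonpos_of_nonneg h3 (sq_nonneg _)
      have h4 : 0 ≤ (1 + 2 * cc a) * QQ a (yy a u) ^ 2 := by positivity
      linarith
    · have hf := fact3 h1 h2 hy1 hS
      have hy0' : 0 < yy a u := by linarith
      have e1 : (1 - a) ^ 2 * (yy a u * SS a (yy a u)) * x ^ 2
          = ((1 - a) * yy a u * SS a (yy a u)) * ((1 - a) * x ^ 2) := by ring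
      have e2 : ((1 - a) * yy a u * SS a (yy a u)) * ((1 - a) * x ^ 2)
          ≤ (2 * (1 + 2 * cc a) * QQ a (yy a u)) * ((1 - a) * x ^ 2) := by
        apply mul_le_mul_of_nonneg_right hf (by positivity)
      have e3 : (2 * (1 + 2 * cc a) * QQ a (yy a u)) * ((1 - a) * x ^ 2)
          ≤ (2 * (1 + 2 * cc a) * QQ a (yy a u)) * ((1 - a) * u) := by
        apply mul_le_mul_of_nonneg_left _ (by positivity)
        exact mul_le_mul_of_nonneg_left hxu h1a.le
      have e4 : (2 * (1 + 2 * cc a) * QQ a (yy a u)) * ((1 - a) * u)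
          = (1 + 2 * cc a) * QQ a (yy a u) * (2 * ((1 - a) * u)) := by ring
      have e5 : (1 + 2 * cc a) * QQ a (yy a u) * (2 * ((1 - a) * u))
          ≤ (1 + 2 * cc a) * QQ a (yy a u) * QQ a (yy a u) := by
        apply mul_le_mul_of_nonneg_left hlt.le (by positivity)
      have e6 : (1 + 2 * cc a) * QQ a (yy a u) * QQ a (yy a u)
          = (1 + 2 * cc a) * QQ a (yy a u) ^ 2 := by ring
      linarith

/-- derivative of the value function -/
def vd (a y : ℝ) : ℝ :=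
  (1 - a) / a * (2 * a - 1) * ((6 - 2 * (4 - cc a) * y) * QQ a y
    - y * (6 - (4 - cc a) * y) * (-(4 + 2 * a + 4 * a ^ 2) + 2 * (a * (1 + a) ^ 2) * y))
    / QQ a y ^ 2

theorem hasDerivAt_QQ (a y : ℝ) :
    HasDerivAt (QQ a) (-(4 + 2 * a + 4 * a ^ 2) + 2 * (a * (1 + a) ^ 2) * y) y := by
  unfold QQ
  have h1 : HasDerivAt (fun y : ℝ => (4 + 2 * a + 4 * a ^ 2) * y) (4 + 2 * a + 4 * a ^ 2) y := by
    simpa using (hasDerivAt_id y).const_mul (4 + 2 * a + 4 * a ^ 2)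
  have h2 : HasDerivAt (fun y : ℝ => a * (1 + a) ^ 2 * y ^ 2) (a * (1 + a) ^ 2 * (2 * y)) y := by
    simpa using (hasDerivAt_pow 2 y).const_mul (a * (1 + a) ^ 2)
  have h3 := ((hasDerivAt_const y (6:ℝ)).sub h1).add h2
  exact h3.congr_deriv (by ring)

theorem hasDerivAt_vv {a y : ℝ} (hQ : QQ a y ≠ 0) : HasDerivAt (vv a) (vd a y) y := by
  unfold vv vd
  have h1 : HasDerivAt (fun y : ℝ => (2 * a - 1) * y * (6 - (4 - cc a) * y))
      ((2 * a - 1) * (6 - 2 * (4 - cc a) * y)) y := by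
    have ha : HasDerivAt (fun y : ℝ => (2 * a - 1) * y) (2 * a - 1) y := by
      simpa using (hasDerivAt_id y).const_mul (2 * a - 1)
    have hb : HasDerivAt (fun y : ℝ => 6 - (4 - cc a) * y) (-(4 - cc a)) y := by
      have := ((hasDerivAt_id y).const_mul (4 - cc a)).const_sub 6
      simpa using this
    exact (ha.mul hb).congr_deriv (by ring)
  have h2 := ((h1.div (hasDerivAt_QQ a y) hQ).const_add 1).const_mul ((1 - a) / a)
  exact h2.congr_deriv (by ring)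

/-- the exact identity for the derivative -/
theorem vd_id (h1 : 1 / 2 < a) (h2 : a < 1) {y : ℝ} (hQ : QQ a y ≠ 0) :
    (1 - (1 - ww a) * y) * vd a y - (2 * a - 1) * vv a y
      = (2 * a - 1) * (y - 1) * ((1 - a) ^ 2 * (y * SS a y) / ((1 + 2 * cc a) * QQ a y ^ 2)) := by
  have hc := cc_pos h1 h2
  have ha : a ≠ 0 := by linarith
  have hc1 : (1 + 2 * cc a) ≠ 0 := by positivity
  unfold vd vv ww SS
  rw [← sub_eq_zero]
  field_simp
  unfold cc QQ
  ring

/-- the function `H`, as a function of `x` (`u = x^r`) -/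
def HH (a x : ℝ) : ℝ :=
  vv a (yy a (x ^ rr a)) * x ^ 2 + (2 * a - 1) * (1 - (1 - x ^ rr a) / (1 - ww a))
    - 2 * a * x ^ (1 / a)

/-- `x^(-1/a) H` -/
def PP (a x : ℝ) : ℝ := x ^ (-(1 / a)) * HH a x

theorem hasDerivAt_PP (h1 : 1 / 2 < a) (h2 : a < 1) {x : ℝ} (hx : 0 < x) :
    HasDerivAt (PP a) (x ^ (-(1 / a)) / x * ((2 * a - 1) / a * (yy a (x ^ rr a) - 1)
      * (1 - (1 - a) ^ 2 * (yy a (x ^ rr a) * SS a (yy a (x ^ rr a))) * x ^ 2
        / ((1 + 2 * cc a) * QQ a (yy a (x ^ rr a)) ^ 2)))) x := by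
  have ha : 0 < a := by linarith
  have hw := ww_lt h1 h2
  have hw1 : (1 - ww a) ≠ 0 := by linarith
  have hc := cc_pos h1 h2
  set u := x ^ rr a with hu
  have hu0 : 0 < u := Real.rpow_pos_of_pos hx _
  set y := yy a u with hy
  have hQ : QQ a y ≠ 0 := (QQ_pos h1 h2 hu0.le).ne'
  have d1 : HasDerivAt (fun x : ℝ => x ^ rr a) (rr a * (u / x)) x := by
    have := Real.hasDerivAt_rpow_const (x := x) (p := rr a) (Or.inl hx.ne')
    refine this.congr_deriv ?_
    rw [Real.rpow_sub_one hx.ne', hu]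
  have d2 : HasDerivAt (fun x : ℝ => yy a (x ^ rr a)) (-(ww a * (rr a * (u / x))) / (1 - ww a)) x := by
    unfold yy
    exact ((d1.const_mul (ww a)).const_sub 1).div_const (1 - ww a)
  have d3 : HasDerivAt (fun x : ℝ => vv a (yy a (x ^ rr a)))
      (vd a y * (-(ww a * (rr a * (u / x))) / (1 - ww a))) x := by
    exact HasDerivAt.comp (h₂ := vv a) (h := fun x : ℝ => yy a (x ^ rr a)) x
      (hasDerivAt_vv (a := a) (y := yy a (x ^ rr a)) hQ) d2
  have d4 : HasDerivAt (fun x : ℝ => x ^ 2) (2 * x) x := by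
    simpa using hasDerivAt_pow 2 x
  have d5 : HasDerivAt (fun x : ℝ => x ^ (1 / a)) (1 / a * (x ^ (1 / a) / x)) x := by
    have := Real.hasDerivAt_rpow_const (x := x) (p := 1 / a) (Or.inl hx.ne')
    refine this.congr_deriv ?_
    rw [Real.rpow_sub_one hx.ne']
  have d6 : HasDerivAt (fun x : ℝ => x ^ (-(1 / a))) (-(1 / a) * (x ^ (-(1 / a)) / x)) x := by
    have := Real.hasDerivAt_rpow_const (x := x) (p := -(1 / a)) (Or.inl hx.ne')
    refine this.congr_deriv ?_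
    rw [Real.rpow_sub_one hx.ne']
  have dH : HasDerivAt (HH a)
      ((vd a y * (-(ww a * (rr a * (u / x))) / (1 - ww a))) * x ^ 2 + vv a y * (2 * x)
        + (2 * a - 1) * (rr a * (u / x) / (1 - ww a))
        - 2 * a * (1 / a * (x ^ (1 / a) / x))) x := by
    have e1 := d3.mul d4
    have e2 := (((d1.const_sub 1).div_const (1 - ww a)).const_sub 1).const_mul (2 * a - 1)
    have e3 := d5.const_mul (2 * a)
    refine ((e1.add e2).sub e3).congr_deriv ?_
    ring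
  have dP := d6.mul dH
  refine dP.congr_deriv ?_
  have hid := vd_id h1 h2 hQ
  have hym : (1 - ww a) * y = 1 - ww a * u := yy_mul h1 h2 u
  have hr : rr a / (1 - ww a) = 1 / a := by
    unfold rr; field_simp
  have hE : x ^ (1 / a) * x ^ (-(1 / a)) = 1 := by
    rw [← Real.rpow_add hx]; simp
  set E := x ^ (-(1 / a)) with hEdef
  set X := x ^ (1 / a) with hXdef
  have hHH : HH a x = vv a y * x ^ 2 + (2 * a - 1) * (1 - (1 - u) / (1 - ww a)) - 2 * a * X := rfl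
  rw [hHH]
  -- abbreviations
  set V := vv a y with hV
  set D := vd a y with hD
  set T := (1 - a) ^ 2 * (y * SS a y) / ((1 + 2 * cc a) * QQ a y ^ 2) with hT
  have hT2 : (1 - a) ^ 2 * (y * SS a y) * x ^ 2 / ((1 + 2 * cc a) * QQ a y ^ 2) = T * x ^ 2 := by
    rw [hT]; ring
  rw [hT2]
  have hid2 : ww a * u * D = (2 * a - 1) * V + (2 * a - 1) * (y - 1) * T := by
    have : 1 - (1 - ww a) * y = ww a * u := by rw [hym]; ring
    rw [this] at hid
    linarith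
  have hk1 : D * (-(ww a * (rr a * (u / x))) / (1 - ww a)) = -(ww a * u * D) * (1 / a) / x := by
    rw [← hr]; field_simp
  have hk2 : rr a * (u / x) / (1 - ww a) = u * (1 / a) / x := by
    rw [← hr]; field_simp
  rw [hk1, hk2, hid2]
  have hy2 : y - 1 = ww a * (1 - u) / (1 - ww a) := by
    field_simp
    linarith
  have hEx : 2 * a * (1 / a * (X / x)) = 2 * X / x := by field_simp
  rw [hEx]
  have key : (-(1 / a) * (E / x)) * (V * x ^ 2 + (2 * a - 1) * (1 - (1 - u) / (1 - ww a)) - 2 * a * X)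
      + E * (-((2 * a - 1) * V + (2 * a - 1) * (y - 1) * T) * (1 / a) / x * x ^ 2 + V * (2 * x)
        + (2 * a - 1) * (u * (1 / a) / x) - 2 * X / x)
      - E / x * ((2 * a - 1) / a * (y - 1) * (1 - T * x ^ 2))
      = E / x * (2 * a - 1) / a * (u - 1 + (1 - u) / (1 - ww a) - (y - 1)) := by
    field_simp
    ring
  have hz : u - 1 + (1 - u) / (1 - ww a) - (y - 1) = 0 := by
    rw [hy2]; field_simp; ring
  rw [hz, mul_zero, sub_eq_zero] at key
  exact key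

theorem PP_one (h1 : 1 / 2 < a) (h2 : a < 1) : PP a 1 = 0 := by
  have hw := ww_lt h1 h2
  have hw1 : (1 - ww a) ≠ 0 := by linarith
  have hy : yy a 1 = 1 := by unfold yy; rw [mul_one, div_self hw1]
  have ha : a ≠ 0 := by linarith
  have hv : vv a 1 = 1 := by
    have hQ : QQ a 1 = (1 - a) * ((1 + a) * (2 - a)) := by unfold QQ; ring
    unfold vv
    rw [hQ]
    have e1 : (1 - a) ≠ 0 := by linarith
    have e2 : (1 + a) ≠ 0 := by linarith
    have e3 : (2 - a) ≠ 0 := by linarith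
    unfold cc
    field_simp
    ring
  unfold PP HH
  rw [Real.one_rpow, Real.one_rpow, Real.one_rpow, hy, hv]
  ring

theorem bracket_nonneg (h1 : 1 / 2 < a) (h2 : a < 1) {x : ℝ} (hx : 0 < x)
    (hwx : ww a * x ^ rr a ≤ 1) :
    0 ≤ 1 - (1 - a) ^ 2 * (yy a (x ^ rr a) * SS a (yy a (x ^ rr a))) * x ^ 2
        / ((1 + 2 * cc a) * QQ a (yy a (x ^ rr a)) ^ 2) := by
  have hu0 : 0 < x ^ rr a := Real.rpow_pos_of_pos hx _
  have hc := cc_pos h1 h2
  have hQ := QQ_pos h1 h2 hu0.le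
  have hcore := core h1 h2 hx.le hu0.le hwx
    (fun h => by
      have hr := one_le_rr h1 h2
      have e1 : x ≤ x ^ rr a := by
        calc x = x ^ (1:ℝ) := (Real.rpow_one x).symm
          _ ≤ x ^ rr a := Real.rpow_le_rpow_of_exponent_le h hr
      exact ⟨pow_le_pow_left₀ hx.le e1 2, h.trans e1⟩)
    (fun h => by
      have hr := rr_le_two h1 h2
      have e1 : x ^ 2 ≤ x ^ rr a := by
        calc x ^ 2 = x ^ (2:ℝ) := (Real.rpow_two x).symm
          _ ≤ x ^ rr a := Real.rpow_le_rpow_of_exponent_ge hx h hr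
      exact ⟨e1, Real.rpow_le_one hx.le h (rr_pos h1 h2).le⟩)
  rw [sub_nonneg, div_le_one (by positivity)]
  exact hcore

theorem HH_nonpos (h1 : 1 / 2 < a) (h2 : a < 1) {x : ℝ} (hx : 0 ≤ x)
    (hwx : ww a * x ^ rr a ≤ 1) : HH a x ≤ 0 := by
  have ha : 0 < a := by linarith
  have hw := ww_pos h1 h2
  have hw' := ww_lt h1 h2
  have hr := rr_pos h1 h2
  rcases hx.eq_or_lt with h0 | h0
  · rw [← h0]
    unfold HH
    rw [Real.zero_rpow hr.ne', Real.zero_rpow (by positivity : (1 / a) ≠ 0)]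
    have : 1 - (1 - 0) / (1 - ww a) ≤ 0 := by
      rw [sub_nonpos, le_div_iff₀ (by linarith)]
      linarith
    nlinarith
  · have hPP : PP a x ≤ PP a 1 := by
      have hderiv : ∀ z : ℝ, 0 < z → deriv (PP a) z = z ^ (-(1 / a)) / z * ((2 * a - 1) / a
          * (yy a (z ^ rr a) - 1)
          * (1 - (1 - a) ^ 2 * (yy a (z ^ rr a) * SS a (yy a (z ^ rr a))) * z ^ 2
        / ((1 + 2 * cc a) * QQ a (yy a (z ^ rr a)) ^ 2))) := fun z hz =>
        (hasDerivAt_PP h1 h2 hz).deriv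
      have hdiff : ∀ z : ℝ, 0 < z → DifferentiableAt ℝ (PP a) z := fun z hz =>
        (hasDerivAt_PP h1 h2 hz).differentiableAt
      rcases le_total x 1 with h | h
      · have hmono : MonotoneOn (PP a) (Set.Icc x 1) := by
          apply monotoneOn_of_deriv_nonneg (convex_Icc x 1)
          · exact fun z hz => (hdiff z (lt_of_lt_of_le h0 hz.1)).continuousAt.continuousWithinAt
          · exact fun z hz => (hdiff z (by
              rw [interior_Icc] at hz; exact h0.trans hz.1)).differentiableWithinAt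
          · intro z hz
            rw [interior_Icc] at hz
            have hz0 : 0 < z := h0.trans hz.1
            have hz1 : z ^ rr a ≤ 1 := Real.rpow_le_one hz0.le hz.2.le hr.le
            rw [hderiv z hz0]
            have hb := bracket_nonneg h1 h2 hz0 (by nlinarith [Real.rpow_nonneg hz0.le (rr a)])
            have hy : 0 ≤ yy a (z ^ rr a) - 1 := by
              unfold yy
              rw [sub_nonneg, le_div_iff₀ (by linarith)]
              nlinarith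
            have h2a : 0 ≤ (2 * a - 1) / a := div_nonneg (by linarith) ha.le
            have hE : 0 ≤ z ^ (-(1 / a)) / z := by positivity
            exact mul_nonneg hE (mul_nonneg (mul_nonneg h2a hy) hb)
        exact hmono (Set.left_mem_Icc.2 h) (Set.right_mem_Icc.2 h) h
      · have hanti : AntitoneOn (PP a) (Set.Icc 1 x) := by
          apply antitoneOn_of_deriv_nonpos (convex_Icc 1 x)
          · exact fun z hz => (hdiff z (by linarith [hz.1])).continuousAt.continuousWithinAt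
          · exact fun z hz => (hdiff z (by
              rw [interior_Icc] at hz; linarith [hz.1])).differentiableWithinAt
          · intro z hz
            rw [interior_Icc] at hz
            have hz0 : 0 < z := by linarith [hz.1]
            have hz1 : 1 ≤ z ^ rr a := Real.one_le_rpow hz.1.le hr.le
            rw [hderiv z hz0]
            have hzx : z ^ rr a ≤ x ^ rr a := Real.rpow_le_rpow hz0.le hz.2.le hr.le
            have hb := bracket_nonneg h1 h2 hz0 (by nlinarith)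
            have hy : yy a (z ^ rr a) - 1 ≤ 0 := by
              unfold yy
              rw [sub_nonpos, div_le_iff₀ (by linarith)]
              nlinarith
            have h2a : 0 ≤ (2 * a - 1) / a := div_nonneg (by linarith) ha.le
            have hE : 0 ≤ z ^ (-(1 / a)) / z := by positivity
            exact mul_nonpos_of_nonneg_of_nonpos hE
              (mul_nonpos_of_nonpos_of_nonneg (mul_nonpos_of_nonneg_of_nonpos h2a hy) hb)
        exact hanti (Set.left_mem_Icc.2 h) (Set.right_mem_Icc.2 h) h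
    rw [PP_one h1 h2] at hPP
    unfold PP at hPP
    have hE : 0 < x ^ (-(1 / a)) := Real.rpow_pos_of_pos h0 _
    by_contra hcon
    have hcon' : 0 < HH a x := not_le.1 hcon
    linarith [mul_pos hE hcon']

/-- the quadratic form step, real version -/
theorem quad (h1 : 1 / 2 < a) (h2 : a < 1) {y : ℝ} (hy3 : 0 < 3 - (1 + a) * y)
    (hQ : 0 < QQ a y) (X Y Z : ℝ) :
    Z ^ 2 / (a * (1 + a) / ((1 - a) * (2 - a))) ^ 2
      + (1 - a) / a * (X ^ 2 - Y ^ 2 + (2 * a - 1) * y * (X - Y) ^ 2)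
      + (1 - a) ^ 2 * (2 - a) / (a ^ 2 * (1 + a))
        * (Y ^ 2 - Z ^ 2 + (2 * a - 1) * y / 3 * (Y - Z) ^ 2) ≤ vv a y * X ^ 2 := by
  have ha : 0 < a := by linarith
  have e1 : 0 < 1 - a := by linarith
  have e2 : 0 < 2 - a := by linarith
  have e3 : 0 < 2 * a - 1 := by linarith
  set P1 := (1 - a) ^ 2 * (2 - a) / (a ^ 2 * (1 + a)) with hP1
  set al1 := P1 * (2 * a - 1) * (3 - (1 + a) * y) / (3 * (1 + a)) with hal1
  set be1 := (1 + a) * y / (3 - (1 + a) * y) with hbe1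
  set al2 := (1 - a) * (2 * a - 1) * QQ a y / (a ^ 2 * (1 + a) * (3 - (1 + a) * y)) with hal2
  set be2 := a * (1 + a) * y * (3 - (1 + a) * y) / QQ a y with hbe2
  have hal1' : 0 ≤ al1 := by rw [hal1, hP1]; positivity
  have hal2' : 0 ≤ al2 := by rw [hal2]; positivity
  have hQ' : QQ a y ≠ 0 := hQ.ne'
  set t := 3 - (1 + a) * y with ht
  have ht' : t ≠ 0 := hy3.ne'
  set q := QQ a y with hq
  have c1 : Z ^ 2 / (a * (1 + a) / ((1 - a) * (2 - a))) ^ 2 = P1 * ((2 - a) / (1 + a)) * Z ^ 2 := by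
    rw [hP1]; field_simp
  have c2 : P1 * ((2 - a) / (1 + a)) - P1 + P1 * ((2 * a - 1) * y / 3) = -al1 := by
    rw [hal1, ht]; field_simp; ring
  have c3 : al1 * be1 = P1 * ((2 * a - 1) * y / 3) := by
    rw [hal1, hbe1]; field_simp
  have c4 : al1 * be1 ^ 2 = P1 * (2 * a - 1) * (1 + a) * y ^ 2 / (3 * t) := by
    rw [hal1, hbe1]; field_simp
  have hqt : (2 * a - 1) * q = a * (1 + a) * t * (1 - (2 * a - 1) * y)
      - (1 - a) * (2 - a) * (3 - (2 - a) * y) := by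
    rw [hq, ht]; unfold QQ; ring
  have c5 : -((1 - a) / a * (1 - (2 * a - 1) * y)) + P1 + P1 * ((2 * a - 1) * y / 3)
      + al1 * be1 ^ 2 = -al2 := by
    have e4 : al2 = (1 - a) * ((2 * a - 1) * q) / (a ^ 2 * (1 + a) * t) := by rw [hal2]; ring
    rw [c4, e4, hqt, hP1]
    have h5 : t = 3 - (1 + a) * y := ht
    field_simp
    rw [h5]
    ring
  have c6 : al2 * be2 = (1 - a) / a * ((2 * a - 1) * y) := by
    rw [hal2, hbe2]; field_simp
  have c7 : al2 * be2 ^ 2 = (1 - a) * (2 * a - 1) * (1 + a) * y ^ 2 * t / q := by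
    rw [hal2, hbe2]; field_simp
  have hqv : (6 - (4 - cc a) * y) - q = a * (1 + a) * y * t := by
    rw [hq, ht]; unfold QQ cc; ring
  have c8 : vv a y = (1 - a) / a + (1 - a) / a * ((2 * a - 1) * y) + al2 * be2 ^ 2 := by
    rw [c7]
    have e5 : vv a y = (1 - a) / a + (1 - a) / a * ((2 * a - 1) * y)
        + (1 - a) / a * (2 * a - 1) * y * (((6 - (4 - cc a) * y) - q) / q) := by
      unfold vv
      rw [← hq]
      field_simp
      ring
    rw [e5, hqv]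
    field_simp
  have key : vv a y * X ^ 2 - (Z ^ 2 / (a * (1 + a) / ((1 - a) * (2 - a))) ^ 2
      + (1 - a) / a * (X ^ 2 - Y ^ 2 + (2 * a - 1) * y * (X - Y) ^ 2)
      + P1 * (Y ^ 2 - Z ^ 2 + (2 * a - 1) * y / 3 * (Y - Z) ^ 2))
      = al1 * (Z + be1 * Y) ^ 2 + al2 * (Y + be2 * X) ^ 2 := by
    rw [c1, c8]
    linear_combination (-Z ^ 2) * c2 + (-2 * Y * Z) * c3 + (-Y ^ 2) * c5 + (-2 * X * Y) * c6
  have h3 := mul_nonneg hal1' (sq_nonneg (Z + be1 * Y))
  have h4 := mul_nonneg hal2' (sq_nonneg (Y + be2 * X))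
  linarith

theorem ww_lt_third (h1 : 1 / 2 < a) (h2 : a < 1) : ww a < 1 / 3 := by
  have h := cc_pos h1 h2
  have h' := cc_le a
  unfold ww
  rw [div_lt_iff₀ (by positivity)]
  nlinarith

theorem yy_nonneg (h1 : 1 / 2 < a) (h2 : a < 1) {u : ℝ} (hwu : ww a * u ≤ 1) : 0 ≤ yy a u := by
  have hw := ww_lt h1 h2
  unfold yy
  apply div_nonneg <;> linarith

theorem three_sub_pos (h1 : 1 / 2 < a) (h2 : a < 1) {u : ℝ} (hu : 0 ≤ u) :
    0 < 3 - (1 + a) * yy a u := by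
  have hw := ww_pos h1 h2
  have hw' := ww_lt_third h1 h2
  have h3 : (1 - ww a) * yy a u ≤ 1 := by
    rw [yy_mul h1 h2]
    nlinarith [mul_nonneg hw.le hu]
  have h4 : yy a u ≤ 3 / 2 := by
    by_contra hcon
    have h5 : 3 / 2 < yy a u := not_le.1 hcon
    nlinarith
  nlinarith

/-- The constant of `T^2` (as a function of `a = 1/p`). -/
def CC (a : ℝ) : ℝ := a * (1 + a) / ((1 - a) * (2 - a))

/-- The quadratic part of the pointwise inequality. -/
def FF (a y : ℝ) (e0 e1 e2 : ℂ) : ℝ :=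
  ‖e2‖ ^ 2 / CC a ^ 2
    + (1 - a) / a * (‖e0‖ ^ 2 - ‖e1‖ ^ 2 + (2 * a - 1) * y * ‖e0 - e1‖ ^ 2)
    + (1 - a) ^ 2 * (2 - a) / (a ^ 2 * (1 + a))
      * (‖e1‖ ^ 2 - ‖e2‖ ^ 2 + (2 * a - 1) * y / 3 * ‖e1 - e2‖ ^ 2)

theorem FF_le (h1 : 1 / 2 < a) (h2 : a < 1) {u : ℝ} (hu : 0 ≤ u) (e0 e1 e2 : ℂ) :
    FF a (yy a u) e0 e1 e2 ≤ vv a (yy a u) * ‖e0‖ ^ 2 := by
  have h3 := three_sub_pos h1 h2 hu
  have h4 := QQ_pos h1 h2 hu
  have hre := quad h1 h2 h3 h4 e0.re e1.re e2.re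
  have him := quad h1 h2 h3 h4 e0.im e1.im e2.im
  unfold FF CC
  have n (z : ℂ) : ‖z‖ ^ 2 = z.re ^ 2 + z.im ^ 2 := by
    rw [Complex.sq_norm, Complex.normSq_apply]; ring
  rw [n, n, n, n, n, Complex.sub_re, Complex.sub_im, Complex.sub_re, Complex.sub_im, add_div]
  nlinarith [hre, him]

/-- **The pointwise inequality for `n = 2`.** -/
theorem pointwise (h1 : 1 / 2 < a) (h2 : a < 1) (e0 e1 e2 : ℂ)
    (hwx : ww a * ‖e0‖ ^ rr a ≤ 1) :
    FF a (yy a (‖e0‖ ^ rr a)) e0 e1 e2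
      + (2 * a - 1) * (1 - (1 - ‖e0‖ ^ rr a) / (1 - ww a)) ≤ 2 * a * ‖e0‖ ^ (1 / a) := by
  have hH := HH_nonpos h1 h2 (norm_nonneg e0) hwx
  have hF := FF_le h1 h2 (Real.rpow_nonneg (norm_nonneg e0) (rr a)) e0 e1 e2
  unfold HH at hH
  linarith

/-- **The scaled pointwise inequality**: `t > 0` is the level, `w |e0|^r ≤ t^r`. -/
theorem pointwise_scaled (h1 : 1 / 2 < a) (h2 : a < 1) (e0 e1 e2 : ℂ) {t : ℝ} (ht : 0 < t)
    (hwx : ww a * ‖e0‖ ^ rr a ≤ t ^ rr a) :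
    t ^ (1 / a - 2) * FF a (yy a (‖e0‖ ^ rr a / t ^ rr a)) e0 e1 e2
      + (2 * a - 1) * t ^ (1 / a) * (1 - (1 - ‖e0‖ ^ rr a / t ^ rr a) / (1 - ww a))
      ≤ 2 * a * ‖e0‖ ^ (1 / a) := by
  have ht' : (t : ℂ) ≠ 0 := by exact_mod_cast ht.ne'
  have hn (z : ℂ) : ‖z / (t : ℂ)‖ = ‖z‖ / t := by
    rw [norm_div, Complex.norm_real, Real.norm_of_nonneg ht.le]
  have hr : (‖e0‖ / t) ^ rr a = ‖e0‖ ^ rr a / t ^ rr a :=
    Real.div_rpow (norm_nonneg _) ht.le _
  have hp : (‖e0‖ / t) ^ (1 / a) = ‖e0‖ ^ (1 / a) / t ^ (1 / a) :=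
    Real.div_rpow (norm_nonneg _) ht.le _
  have htr : 0 < t ^ rr a := Real.rpow_pos_of_pos ht _
  have htp : 0 < t ^ (1 / a) := Real.rpow_pos_of_pos ht _
  have h := pointwise h1 h2 (e0 / (t : ℂ)) (e1 / (t : ℂ)) (e2 / (t : ℂ)) (by
    rw [hn, hr, mul_div_assoc', div_le_one htr]; exact hwx)
  rw [hn, hr, hp] at h
  have hFF (y : ℝ) : FF a y (e0 / (t : ℂ)) (e1 / (t : ℂ)) (e2 / (t : ℂ))
      = FF a y e0 e1 e2 / t ^ 2 := by
    unfold FF
    rw [← sub_div, ← sub_div, hn, hn, hn, hn, hn]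
    field_simp
  rw [hFF] at h
  have h2' : t ^ (1 / a - 2) = t ^ (1 / a) / t ^ 2 := by
    rw [Real.rpow_sub ht, Real.rpow_two]
  rw [h2']
  have h3 := mul_le_mul_of_nonneg_left h htp.le
  have e4 : t ^ (1 / a) * (2 * a * (‖e0‖ ^ (1 / a) / t ^ (1 / a))) = 2 * a * ‖e0‖ ^ (1 / a) := by
    field_simp
  rw [e4] at h3
  calc _ = t ^ (1 / a) * (FF a (yy a (‖e0‖ ^ rr a / t ^ rr a)) e0 e1 e2 / t ^ 2
      + (2 * a - 1) * (1 - (1 - ‖e0‖ ^ rr a / t ^ rr a) / (1 - ww a))) := by ring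
    _ ≤ _ := h3

end

end Pool.Agent.Lib.QNL.OneVar
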