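import Mathlib

/-! Group T, part 2: the static form of Young's inequality with free level sets.

For `1 < p < 2`, `s > 0` and `y ≥ 0`,
`y ^ p = (p (2 - p) / 2) ∫_{t > 0} t ^ (p - 3) s ^ (p - 2) min (y ^ 2) (s ^ 2 t ^ 2) dt`.
Hence for ANY sets `G t` with `∫_{(G t)ᶜ} |Y|² ≤ E t`,
`∫ |Y| ^ p ≤ (p (2 - p) / 2) ∫_{t > 0} t ^ (p - 3) (s ^ (p - 2) E t + s ^ p t ^ 2 |G t|) dt`. -/

open MeasureTheory Set Filter
open scoped Topology Interval ENNReal

namespace QNL
namespace Young_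

/-- the constant `p (2 - p) / 2` -/
noncomputable def cp (p : ℝ) : ℝ := p * (2 - p) / 2

theorem cp_pos {p : ℝ} (h1 : 1 < p) (h2 : p < 2) : 0 < cp p := by
  unfold cp
  have : 0 < p * (2 - p) := mul_pos (by linarith) (by linarith)
  linarith

/-- the one variable integral -/
theorem lint_min {p y : ℝ} (h1 : 1 < p) (h2 : p < 2) (hy : 0 ≤ y) :
    ∫⁻ t in Ioi (0 : ℝ), ENNReal.ofReal (t ^ (p - 3) * min (y ^ 2) (t ^ 2)) =
      ENNReal.ofReal (y ^ p / cp p) := by
  have hc := cp_pos h1 h2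
  rcases hy.eq_or_lt with rfl | hy
  · have : ∀ t ∈ Ioi (0 : ℝ), ENNReal.ofReal (t ^ (p - 3) * min ((0 : ℝ) ^ 2) (t ^ 2)) = 0 := by
      intro t _
      have h0 : min ((0 : ℝ) ^ 2) (t ^ 2) = 0 := by
        rw [min_eq_left]; · norm_num
        · have := sq_nonneg t; simpa using this
      rw [h0, mul_zero, ENNReal.ofReal_zero]
    rw [setLIntegral_congr_fun measurableSet_Ioi this]
    simp [Real.zero_rpow (by linarith : p ≠ 0)]
  · have hsplit : Ioi (0 : ℝ) = Ioc 0 y ∪ Ioi y := (Ioc_union_Ioi_eq_Ioi hy.le).symm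
    rw [hsplit, lintegral_union measurableSet_Ioi
      (Set.disjoint_left.2 fun t ht ht' => not_lt.2 ht.2 ht')]
    have e1 : ∫⁻ t in Ioc 0 y, ENNReal.ofReal (t ^ (p - 3) * min (y ^ 2) (t ^ 2)) =
        ENNReal.ofReal (y ^ p / p) := by
      have hcongr : ∀ t ∈ Ioc 0 y, ENNReal.ofReal (t ^ (p - 3) * min (y ^ 2) (t ^ 2)) =
          ENNReal.ofReal (t ^ (p - 1)) := by
        intro t ht
        have hmin : min (y ^ 2) (t ^ 2) = t ^ 2 :=
          min_eq_right (pow_le_pow_left₀ ht.1.le ht.2 2)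
        rw [hmin, ← Real.rpow_natCast t 2, ← Real.rpow_add ht.1]
        congr 2; push_cast; ring
      rw [setLIntegral_congr_fun measurableSet_Ioc hcongr,
        ← ofReal_integral_eq_lintegral_ofReal]
      · rw [← intervalIntegral.integral_of_le hy.le, integral_rpow (Or.inl (by linarith))]
        congr 1
        rw [Real.zero_rpow (by linarith)]
        simp
      · exact (intervalIntegral.intervalIntegrable_rpow' (by linarith)).1
      · exact (ae_restrict_iff' measurableSet_Ioc).2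
          (Eventually.of_forall fun t ht => Real.rpow_nonneg ht.1.le _)
    have e2 : ∫⁻ t in Ioi y, ENNReal.ofReal (t ^ (p - 3) * min (y ^ 2) (t ^ 2)) =
        ENNReal.ofReal (y ^ p / (2 - p)) := by
      have hcongr : ∀ t ∈ Ioi y, ENNReal.ofReal (t ^ (p - 3) * min (y ^ 2) (t ^ 2)) =
          ENNReal.ofReal (y ^ 2 * t ^ (p - 3)) := by
        intro t ht
        have hmin : min (y ^ 2) (t ^ 2) = y ^ 2 :=
          min_eq_left (pow_le_pow_left₀ hy.le (le_of_lt ht) 2)
        rw [hmin, mul_comm]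
      rw [setLIntegral_congr_fun measurableSet_Ioi hcongr,
        ← ofReal_integral_eq_lintegral_ofReal]
      · rw [integral_const_mul, integral_Ioi_rpow_of_lt (by linarith) hy]
        congr 1
        have : y ^ p = y ^ 2 * y ^ (p - 3 + 1) := by
          rw [← Real.rpow_natCast y 2, ← Real.rpow_add hy]
          congr 1; push_cast; ring
        rw [this]
        have h3 : p - 3 + 1 = -(2 - p) := by ring
        rw [h3]
        field_simp
      · exact (integrableOn_Ioi_rpow_of_lt (by linarith) hy).const_mul _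
      · exact (ae_restrict_iff' measurableSet_Ioi).2
          (Eventually.of_forall fun t ht =>
            mul_nonneg (sq_nonneg y) (Real.rpow_nonneg (hy.le.trans (le_of_lt ht)) _))
    rw [e1, e2, ← ENNReal.ofReal_add (by positivity)
      (div_nonneg (by positivity) (by linarith))]
    congr 1
    unfold cp
    have : (2 - p) ≠ 0 := by linarith
    have : p ≠ 0 := by linarith
    field_simp
    ring

/-- the scaled one variable integral -/
theorem lint_min_scaled {p y s : ℝ} (h1 : 1 < p) (h2 : p < 2) (hy : 0 ≤ y) (hs : 0 < s) :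
    ENNReal.ofReal (y ^ p) = ENNReal.ofReal (cp p) *
      ∫⁻ t in Ioi (0 : ℝ), ENNReal.ofReal (t ^ (p - 3)) *
        (ENNReal.ofReal (s ^ (p - 2)) * ENNReal.ofReal (min (y ^ 2) (s ^ 2 * t ^ 2))) := by
  have hc := cp_pos h1 h2
  have hcongr : ∀ t ∈ Ioi (0 : ℝ), ENNReal.ofReal (t ^ (p - 3)) *
        (ENNReal.ofReal (s ^ (p - 2)) * ENNReal.ofReal (min (y ^ 2) (s ^ 2 * t ^ 2))) =
      ENNReal.ofReal (s ^ p) *
        ENNReal.ofReal (t ^ (p - 3) * min ((y / s) ^ 2) (t ^ 2)) := by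
    intro t ht
    have ht' : (0 : ℝ) < t := ht
    have e : min (y ^ 2) (s ^ 2 * t ^ 2) = s ^ 2 * min ((y / s) ^ 2) (t ^ 2) := by
      rw [mul_min_of_nonneg _ _ (sq_nonneg s)]
      congr 1
      field_simp
    have hmn : 0 ≤ min ((y / s) ^ 2) (t ^ 2) := le_min (sq_nonneg _) (sq_nonneg _)
    rw [e, ← ENNReal.ofReal_mul (by positivity), ← ENNReal.ofReal_mul (by positivity),
      ← ENNReal.ofReal_mul (by positivity)]
    congr 1
    have : s ^ p = s ^ (p - 2) * s ^ 2 := by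
      rw [← Real.rpow_natCast s 2, ← Real.rpow_add hs]
      congr 1; push_cast; ring
    rw [this]; ring
  rw [setLIntegral_congr_fun measurableSet_Ioi hcongr, lintegral_const_mul' _ _ (by simp),
    lint_min h1 h2 (div_nonneg hy hs.le), ← ENNReal.ofReal_mul (by positivity),
    ← ENNReal.ofReal_mul hc.le]
  congr 1
  rw [Real.div_rpow hy hs.le]
  have : s ^ p ≠ 0 := (Real.rpow_pos_of_pos hs p).ne'
  field_simp

/-- the **static form** of Young's inequality. -/
theorem static {α : Type*} [MeasurableSpace α] {μ : Measure α} [SFinite μ] {p s : ℝ}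
    (h1 : 1 < p) (h2 : p < 2) (hs : 0 < s) {Y : α → ℝ} (hY : Measurable Y) (hY0 : ∀ x, 0 ≤ Y x)
    {G : ℝ → Set α} (hG : ∀ t, 0 < t → MeasurableSet (G t)) {E : ℝ → ℝ≥0∞}
    (hE : ∀ t, 0 < t → ∫⁻ x in (G t)ᶜ, ENNReal.ofReal (Y x ^ 2) ∂μ ≤ E t) :
    ∫⁻ x, ENNReal.ofReal (Y x ^ p) ∂μ ≤ ENNReal.ofReal (cp p) *
      ∫⁻ t in Ioi (0 : ℝ), ENNReal.ofReal (t ^ (p - 3)) *
        (ENNReal.ofReal (s ^ (p - 2)) * E t + ENNReal.ofReal (s ^ p) *
          (ENNReal.ofReal (t ^ 2) * μ (G t))) := by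
  have hmeas : Measurable (fun z : α × ℝ => ENNReal.ofReal (z.2 ^ (p - 3)) *
        (ENNReal.ofReal (s ^ (p - 2)) * ENNReal.ofReal (min (Y z.1 ^ 2) (s ^ 2 * z.2 ^ 2)))) := by
    have hm1 : Measurable (fun z : α × ℝ => z.2 ^ (p - 3)) := measurable_snd.pow_const _
    have hm2 : Measurable (fun z : α × ℝ => min (Y z.1 ^ 2) (s ^ 2 * z.2 ^ 2)) :=
      ((hY.comp measurable_fst).pow_const 2).min ((measurable_snd.pow_const 2).const_mul _)
    exact hm1.ennreal_ofReal.mul (hm2.ennreal_ofReal.const_mul _)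
  calc ∫⁻ x, ENNReal.ofReal (Y x ^ p) ∂μ
      = ∫⁻ x, (ENNReal.ofReal (cp p) * ∫⁻ t in Ioi (0 : ℝ), ENNReal.ofReal (t ^ (p - 3)) *
        (ENNReal.ofReal (s ^ (p - 2)) * ENNReal.ofReal (min (Y x ^ 2) (s ^ 2 * t ^ 2)))) ∂μ :=
        lintegral_congr fun x => lint_min_scaled h1 h2 (hY0 x) hs
    _ = ENNReal.ofReal (cp p) * ∫⁻ x, (∫⁻ t in Ioi (0 : ℝ), ENNReal.ofReal (t ^ (p - 3)) *
        (ENNReal.ofReal (s ^ (p - 2)) * ENNReal.ofReal (min (Y x ^ 2) (s ^ 2 * t ^ 2)))) ∂μ :=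
        lintegral_const_mul' _ _ (by simp)
    _ = ENNReal.ofReal (cp p) * ∫⁻ t in Ioi (0 : ℝ), (∫⁻ x, (ENNReal.ofReal (t ^ (p - 3)) *
        (ENNReal.ofReal (s ^ (p - 2)) * ENNReal.ofReal (min (Y x ^ 2) (s ^ 2 * t ^ 2)))) ∂μ) := by
        rw [lintegral_lintegral_swap hmeas.aemeasurable]
    _ ≤ _ := by
        refine mul_le_mul_right (setLIntegral_mono' measurableSet_Ioi fun t ht => ?_) _
        rw [lintegral_const_mul' _ _ (by simp)]
        refine mul_le_mul_right ?_ _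
        rw [lintegral_const_mul' _ _ (by simp)]
        have ht' : (0 : ℝ) < t := ht
        have hsplit : ∫⁻ x, ENNReal.ofReal (min (Y x ^ 2) (s ^ 2 * t ^ 2)) ∂μ ≤
            E t + ENNReal.ofReal (s ^ 2) * (ENNReal.ofReal (t ^ 2) * μ (G t)) := by
          rw [← lintegral_add_compl _ (hG t ht'), add_comm]
          refine add_le_add ?_ ?_
          · refine le_trans (lintegral_mono fun x => ?_) (hE t ht')
            exact ENNReal.ofReal_le_ofReal (min_le_left _ _)
          · calc ∫⁻ x in G t, ENNReal.ofReal (min (Y x ^ 2) (s ^ 2 * t ^ 2)) ∂μ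
                ≤ ∫⁻ x in G t, ENNReal.ofReal (s ^ 2 * t ^ 2) ∂μ :=
                  lintegral_mono fun x => ENNReal.ofReal_le_ofReal (min_le_right _ _)
              _ = ENNReal.ofReal (s ^ 2) * (ENNReal.ofReal (t ^ 2) * μ (G t)) := by
                  rw [setLIntegral_const, ENNReal.ofReal_mul (sq_nonneg s), mul_assoc]
        refine le_trans (mul_le_mul_right hsplit _) ?_
        rw [mul_add, ← mul_assoc (ENNReal.ofReal (s ^ (p - 2))),
          ← ENNReal.ofReal_mul (by positivity)]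
        have : s ^ (p - 2) * s ^ 2 = s ^ p := by
          rw [← Real.rpow_natCast s 2, ← Real.rpow_add hs]
          congr 1; push_cast; ring
        rw [this]

end Young_
end QNL
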