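import Pool.Agent.Lib.QNL.FStmt
import Pool.Agent.Lib.QNL.Young
import Pool.Agent.Lib.QNL.OneVar
import Pool.Agent.Lib.QNL.End

/-!
Room QNL, group N: from the output `StmtF` of group F to `StmtLowH n` (no transport), mass
inequality and layer cake for the level function.
-/

set_option autoImplicit false

namespace Pool.Agent.Lib.QNL.FinN

open MeasureTheory Filter Topology Set
open scoped ENNReal SchwartzMap

variable {μ : ℂ → ℝ} {ψ : ℝ → ℂ → ℝ}

theorem isOpen_U (hF : Fam μ ψ) {L : ℝ} (hL : 0 < L) : IsOpen {z | 0 < ψ L z} :=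
  (hF.lsc L hL).isOpen_preimage 0

theorem lt_of_mem (hF : Fam μ ψ) {M : ℝ} (hM : ∀ z, μ z ≤ M) {L : ℝ} (hL : 0 < L) {z : ℂ}
    (hz : 0 < ψ L z) : L < M := by
  by_contra hcon
  have h := hF.top L z (fun w => (hM w).trans (not_lt.1 hcon)) hL
  rw [h] at hz
  exact lt_irrefl _ hz

theorem bddAbove_lev (hF : Fam μ ψ) {M : ℝ} (hM : ∀ z, μ z ≤ M) (z : ℂ) :
    BddAbove {L : ℝ | 0 < L ∧ 0 < ψ L z} :=
  ⟨M, fun _ hL => (lt_of_mem hF hM hL.1 hL.2).le⟩

theorem lev_nonneg (ψ : ℝ → ℂ → ℝ) (ε : ℝ) (z : ℂ) : 0 ≤ lev ψ ε z :=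
  Real.sSup_nonneg fun _ hL => hL.1.le

theorem lev_le (hF : Fam μ ψ) {M : ℝ} (hM : ∀ z, μ z ≤ M) (hM0 : 0 ≤ M) (z : ℂ) :
    lev ψ 0 z ≤ M :=
  Real.sSup_le (fun _ hL => (lt_of_mem hF hM hL.1 hL.2).le) hM0

/-- `U_L = {L < l}` -/
theorem mem_iff (hF : Fam μ ψ) {M : ℝ} (hM : ∀ z, μ z ≤ M) {L : ℝ} (hL : 0 < L) (z : ℂ) :
    0 < ψ L z ↔ L < lev ψ 0 z := by
  constructor
  · intro h
    have hev : ∀ᶠ L' in 𝓝[≥] L, 0 < ψ L' z :=
      (hF.right z L hL).eventually (lt_mem_nhds h)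
    have hev2 : ∀ᶠ L' in 𝓝[>] L, 0 < ψ L' z := hev.filter_mono (nhdsWithin_mono _ Ioi_subset_Ici_self)
    obtain ⟨L', h1, h2⟩ := (hev2.and self_mem_nhdsWithin).exists
    have h2' : L < L' := h2
    exact lt_of_lt_of_le h2' (le_csSup (bddAbove_lev hF hM z) ⟨hL.trans h2', h1⟩)
  · intro h
    have hne : {L : ℝ | 0 < L ∧ 0 < ψ L z}.Nonempty := by
      by_contra hcon
      rw [Set.not_nonempty_iff_eq_empty] at hcon
      unfold lev at h
      rw [hcon, Real.sSup_empty] at h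
      exact lt_asymm h hL
    obtain ⟨L', hL', h1⟩ := exists_lt_of_lt_csSup hne h
    exact lt_of_lt_of_le hL'.2 (hF.anti z L L' hL h1.le)

theorem U_eq (hF : Fam μ ψ) {M : ℝ} (hM : ∀ z, μ z ≤ M) {L : ℝ} (hL : 0 < L) :
    {z | 0 < ψ L z} = {z | L < lev ψ 0 z} := by
  ext z; exact mem_iff hF hM hL z

theorem measurable_lev (hF : Fam μ ψ) {M : ℝ} (hM : ∀ z, μ z ≤ M) : Measurable (lev ψ 0) := by
  apply measurable_of_Ioi
  intro c
  rcases lt_trichotomy c 0 with hc | rfl | hc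
  · have : lev ψ 0 ⁻¹' Ioi c = univ := by
      ext z
      simp only [mem_preimage, mem_Ioi, mem_univ, iff_true]
      exact lt_of_lt_of_le hc (lev_nonneg ψ 0 z)
    rw [this]; exact MeasurableSet.univ
  · have : lev ψ 0 ⁻¹' Ioi 0 = ⋃ k : ℕ, {z | 0 < ψ (1 / ((k : ℝ) + 1)) z} := by
      ext z
      simp only [mem_preimage, mem_Ioi, mem_iUnion, mem_ofPred_eq]
      constructor
      · intro h
        obtain ⟨k, hk⟩ := exists_nat_one_div_lt h
        exact ⟨k, (mem_iff hF hM (by positivity) z).2 hk⟩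
      · rintro ⟨k, hk⟩
        exact lt_trans (by positivity) ((mem_iff hF hM (by positivity) z).1 hk)
    rw [this]
    exact MeasurableSet.iUnion fun k => (isOpen_U hF (by positivity)).measurableSet
  · have : lev ψ 0 ⁻¹' Ioi c = {z | 0 < ψ c z} := by
      ext z
      exact (mem_iff hF hM hc z).symm
    rw [this]
    exact (isOpen_U hF hc).measurableSet

/-- the mass inequality in `[0, ∞]` -/
theorem mass_le (hF : Fam μ ψ) (hμc : Continuous μ) (hμ0 : ∀ z, 0 ≤ μ z) {L : ℝ} (hL : 0 < L) :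
    ENNReal.ofReal L * volume {z | 0 < ψ L z} ≤
      ∫⁻ z in {z | 0 < ψ L z}, ENNReal.ofReal (μ z) := by
  have hb := hF.bdd L hL
  have hfin : volume {z | 0 < ψ L z} < ∞ := hb.measure_lt_top
  have hmeas := (isOpen_U hF hL).measurableSet
  have hi1 : IntegrableOn (fun _ : ℂ => L) {z | 0 < ψ L z} :=
    integrableOn_const hfin.ne
  have hi2 : IntegrableOn μ {z | 0 < ψ L z} := by
    have hcl : IsCompact (closure {z | 0 < ψ L z}) := hb.isCompact_closure
    exact (hμc.continuousOn.integrableOn_compact hcl).mono_set subset_closure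
  have hm := hF.mass L hL
  rw [integral_sub hi1 hi2, setIntegral_const, smul_eq_mul] at hm
  rw [← ofReal_integral_eq_lintegral_ofReal hi2 (Eventually.of_forall hμ0)]
  rw [← ENNReal.ofReal_toReal hfin.ne, ← ENNReal.ofReal_mul hL.le]
  apply ENNReal.ofReal_le_ofReal
  have : volume.real {z | 0 < ψ L z} = (volume {z | 0 < ψ L z}).toReal := rfl
  rw [this] at hm
  linarith [mul_comm L (volume {z | 0 < ψ L z}).toReal]

/-- the level in the variable `t`: `t^r = w L`, `w = 1 - r/p` -/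
noncomputable def tt (p r : ℝ) (ψ : ℝ → ℂ → ℝ) (z : ℂ) : ℝ := ((1 - r / p) * lev ψ 0 z) ^ (1 / r)

variable {p r : ℝ}

theorem w_pos (hr : 1 ≤ r) (hrp : r < p) : 0 < 1 - r / p := by
  have : 0 < p := by linarith
  rw [sub_pos, div_lt_one this]; exact hrp

theorem tt_nonneg (hr : 1 ≤ r) (hrp : r < p) (z : ℂ) : 0 ≤ tt p r ψ z :=
  Real.rpow_nonneg (mul_nonneg (w_pos hr hrp).le (lev_nonneg ψ 0 z)) _

theorem tt_rpow (hr : 1 ≤ r) (hrp : r < p) (z : ℂ) :
    tt p r ψ z ^ r = (1 - r / p) * lev ψ 0 z := by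
  unfold tt
  rw [← Real.rpow_mul (mul_nonneg (w_pos hr hrp).le (lev_nonneg ψ 0 z)),
    one_div_mul_cancel (by linarith : r ≠ 0), Real.rpow_one]

theorem lt_tt (hF : Fam μ ψ) {M : ℝ} (hM : ∀ z, μ z ≤ M) (hr : 1 ≤ r) (hrp : r < p) {t : ℝ}
    (ht : 0 < t) (z : ℂ) : t < tt p r ψ z ↔ 0 < ψ (t ^ r / (1 - r / p)) z := by
  have hw := w_pos hr hrp
  have hr0 : 0 < r := by linarith
  rw [mem_iff hF hM (by positivity), div_lt_iff₀ hw, mul_comm (lev ψ 0 z), ← tt_rpow hr hrp]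
  exact (Real.rpow_lt_rpow_iff ht.le (tt_nonneg hr hrp z) hr0).symm

theorem U_eq_tt (hF : Fam μ ψ) {M : ℝ} (hM : ∀ z, μ z ≤ M) (hr : 1 ≤ r) (hrp : r < p) {t : ℝ}
    (ht : 0 < t) : {z | 0 < ψ (t ^ r / (1 - r / p)) z} = {z | t < tt p r ψ z} := by
  ext z; exact (lt_tt hF hM hr hrp ht z).symm

theorem measurable_tt (hF : Fam μ ψ) {M : ℝ} (hM : ∀ z, μ z ≤ M) : Measurable (tt p r ψ) :=
  ((measurable_lev hF hM).const_mul _).pow_const _

/-- **mass inequality** for the level function `t`: `∫ t^p ≤ ∫ μ t^(p-r)` -/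
theorem mass_tt (hF : Fam μ ψ) (hμc : Continuous μ) (hμ0 : ∀ z, 0 ≤ μ z) {M : ℝ}
    (hM : ∀ z, μ z ≤ M) (hr : 1 ≤ r) (hrp : r < p) :
    ∫⁻ z, ENNReal.ofReal (tt p r ψ z ^ p) ≤
      ∫⁻ z, ENNReal.ofReal (μ z) * ENNReal.ofReal (tt p r ψ z ^ (p - r)) := by
  have hw := w_pos hr hrp
  have hr0 : 0 < r := by linarith
  have hp0 : 0 < p := by linarith
  have hmt := measurable_tt (p := p) (r := r) hF hM
  have hmμ : Measurable fun z => ENNReal.ofReal (μ z) := hμc.measurable.ennreal_ofReal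
  set ν : Measure ℂ := volume.withDensity fun z => ENNReal.ofReal (μ z) with hν
  have e1 := lintegral_rpow_eq_lintegral_meas_lt_mul (volume : Measure ℂ)
    (Eventually.of_forall (tt_nonneg (ψ := ψ) hr hrp)) hmt.aemeasurable hp0
  have e2 := lintegral_rpow_eq_lintegral_meas_lt_mul ν
    (Eventually.of_forall (tt_nonneg (ψ := ψ) hr hrp)) hmt.aemeasurable (sub_pos.2 hrp)
  have e3 : ∫⁻ z, ENNReal.ofReal (tt p r ψ z ^ (p - r)) ∂ν =
      ∫⁻ z, ENNReal.ofReal (μ z) * ENNReal.ofReal (tt p r ψ z ^ (p - r)) := by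
    rw [hν, lintegral_withDensity_eq_lintegral_mul _ hmμ (hmt.pow_const _).ennreal_ofReal]
    rfl
  rw [← e3, e1, e2]
  have key : ∀ t ∈ Ioi (0 : ℝ), volume {z | t < tt p r ψ z} * ENNReal.ofReal (t ^ (p - 1)) ≤
      ENNReal.ofReal (1 - r / p) * (ν {z | t < tt p r ψ z} * ENNReal.ofReal (t ^ (p - r - 1))) := by
    intro t ht
    have ht' : (0 : ℝ) < t := ht
    have hL : 0 < t ^ r / (1 - r / p) := by positivity
    have hm := mass_le hF hμc hμ0 hL
    have hU := U_eq_tt (p := p) (r := r) hF hM hr hrp ht'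
    rw [hU] at hm
    have hmeas : MeasurableSet {z | t < tt p r ψ z} := measurableSet_lt measurable_const hmt
    have e4 : ν {z | t < tt p r ψ z} = ∫⁻ z in {z | t < tt p r ψ z}, ENNReal.ofReal (μ z) := by
      rw [hν, withDensity_apply _ hmeas]
    rw [← e4] at hm
    have e5 : ENNReal.ofReal (t ^ (p - 1)) = ENNReal.ofReal (1 - r / p) *
        (ENNReal.ofReal (t ^ r / (1 - r / p)) * ENNReal.ofReal (t ^ (p - r - 1))) := by
      rw [← ENNReal.ofReal_mul hL.le, ← ENNReal.ofReal_mul hw.le]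
      congr 1
      have e6 : t ^ (p - 1) = t ^ r * t ^ (p - r - 1) := by
        rw [← Real.rpow_add ht']; congr 1; ring
      rw [e6, ← mul_assoc, mul_div_cancel₀ _ hw.ne']
    calc volume {z | t < tt p r ψ z} * ENNReal.ofReal (t ^ (p - 1))
        = ENNReal.ofReal (1 - r / p) * ((ENNReal.ofReal (t ^ r / (1 - r / p)) *
            volume {z | t < tt p r ψ z}) * ENNReal.ofReal (t ^ (p - r - 1))) := by
          rw [e5]; ring
      _ ≤ _ := by gcongr
  calc ENNReal.ofReal p * ∫⁻ t in Ioi (0 : ℝ), volume {z | t < tt p r ψ z} *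
        ENNReal.ofReal (t ^ (p - 1))
      ≤ ENNReal.ofReal p * ∫⁻ t in Ioi (0 : ℝ), ENNReal.ofReal (1 - r / p) *
        (ν {z | t < tt p r ψ z} * ENNReal.ofReal (t ^ (p - r - 1))) := by
        gcongr ENNReal.ofReal p * ?_
        exact setLIntegral_mono' measurableSet_Ioi key
    _ = ENNReal.ofReal p * (ENNReal.ofReal (1 - r / p) * ∫⁻ t in Ioi (0 : ℝ),
        (ν {z | t < tt p r ψ z} * ENNReal.ofReal (t ^ (p - r - 1)))) := by
        rw [lintegral_const_mul' _ _ (by simp)]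
    _ = ENNReal.ofReal (p - r) * ∫⁻ t in Ioi (0 : ℝ),
        (ν {z | t < tt p r ψ z} * ENNReal.ofReal (t ^ (p - r - 1))) := by
        rw [← mul_assoc, ← ENNReal.ofReal_mul hp0.le]
        congr 2
        field_simp

/-! ### The change of variables `L = t^r / w` -/

theorem lint_change (hr : 1 ≤ r) (hrp : r < p) (hp2 : p < 2) (E : ℝ → ℝ) :
    ∫⁻ L in Ioi (0 : ℝ), ENNReal.ofReal ((2 - p) / r * L ^ ((p - 2) / r - 1) * E L) =
      ENNReal.ofReal ((2 - p) * (1 - r / p) ^ ((2 - p) / r)) *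
        ∫⁻ t in Ioi (0 : ℝ), ENNReal.ofReal (t ^ (p - 3)) *
          ENNReal.ofReal (E (t ^ r / (1 - r / p))) := by
  have hw := w_pos hr hrp
  have hr0 : 0 < r := by linarith
  have himg : (fun t : ℝ => t ^ r / (1 - r / p)) '' Ioi 0 = Ioi 0 := by
    ext L
    simp only [mem_image, mem_Ioi]
    constructor
    · rintro ⟨t, ht, rfl⟩; positivity
    · intro hL
      refine ⟨(L * (1 - r / p)) ^ (1 / r), by positivity, ?_⟩
      rw [← Real.rpow_mul (by positivity), one_div_mul_cancel hr0.ne', Real.rpow_one,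
        mul_div_assoc, div_self hw.ne', mul_one]
  have hinj : InjOn (fun t : ℝ => t ^ r / (1 - r / p)) (Ioi 0) := by
    intro t ht t' ht' h
    have ht0 : (0 : ℝ) < t := ht
    have ht0' : (0 : ℝ) < t' := ht'
    have h1 : t ^ r = t' ^ r := by
      have := congrArg (fun y => y * (1 - r / p)) h
      simpa [hw.ne'] using this
    exact (Real.rpow_left_inj ht0.le ht0'.le hr0.ne').1 h1
  have hder : ∀ t ∈ Ioi (0 : ℝ), HasDerivWithinAt (fun t : ℝ => t ^ r / (1 - r / p))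
      (r * t ^ (r - 1) / (1 - r / p)) (Ioi 0) t := by
    intro t ht
    exact ((Real.hasDerivAt_rpow_const (Or.inl (ne_of_gt ht))).div_const _).hasDerivWithinAt
  have h := lintegral_image_eq_lintegral_abs_deriv_mul measurableSet_Ioi hder hinj
    (fun L => ENNReal.ofReal ((2 - p) / r * L ^ ((p - 2) / r - 1) * E L))
  rw [himg] at h
  rw [h, ← lintegral_const_mul' _ _ (by simp)]
  refine setLIntegral_congr_fun measurableSet_Ioi fun t ht => ?_
  have ht0 : (0 : ℝ) < t := ht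
  have h2p : 0 ≤ 2 - p := by linarith
  rw [← ENNReal.ofReal_mul (abs_nonneg _), ← mul_assoc, ← ENNReal.ofReal_mul (by positivity),
    ← ENNReal.ofReal_mul (by positivity), abs_of_nonneg (by positivity)]
  congr 1
  have e1 : (t ^ r / (1 - r / p)) ^ ((p - 2) / r - 1) =
      t ^ (p - 2 - r) * ((1 - r / p) ^ ((2 - p) / r) * (1 - r / p)) := by
    rw [Real.div_rpow (by positivity) hw.le, ← Real.rpow_mul ht0.le, div_eq_mul_inv,
      ← Real.rpow_neg hw.le]
    congr 1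
    · congr 1; field_simp
    · have : -((p - 2) / r - 1) = (2 - p) / r + 1 := by ring
      rw [this, Real.rpow_add hw, Real.rpow_one]
  have e2 : t ^ (p - 3) = t ^ (r - 1) * t ^ (p - 2 - r) := by
    rw [← Real.rpow_add ht0]; congr 1; ring
  rw [e1, e2]
  have hw' := hw.ne'
  generalize 1 - r / p = w at hw'
  generalize E (t ^ r / w) = e
  generalize w ^ ((2 - p) / r) = k
  field_simp

/-- layer cake for `t^p` -/
theorem lint_tt (hF : Fam μ ψ) {M : ℝ} (hM : ∀ z, μ z ≤ M) (hr : 1 ≤ r) (hrp : r < p) :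
    ∫⁻ t in Ioi (0 : ℝ), ENNReal.ofReal (t ^ (p - 3)) *
        (ENNReal.ofReal (t ^ 2) * volume {z | 0 < ψ (t ^ r / (1 - r / p)) z}) =
      ENNReal.ofReal (1 / p) * ∫⁻ z, ENNReal.ofReal (tt p r ψ z ^ p) := by
  have hp0 : 0 < p := by linarith
  have e1 := lintegral_rpow_eq_lintegral_meas_lt_mul (volume : Measure ℂ)
    (Eventually.of_forall (tt_nonneg (ψ := ψ) hr hrp))
    (measurable_tt (p := p) (r := r) hF hM).aemeasurable hp0
  rw [e1, ← mul_assoc, ← ENNReal.ofReal_mul (by positivity), one_div_mul_cancel hp0.ne',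
    ENNReal.ofReal_one, one_mul]
  refine setLIntegral_congr_fun measurableSet_Ioi fun t ht => ?_
  have ht0 : (0 : ℝ) < t := ht
  rw [U_eq_tt hF hM hr hrp ht0, ← mul_assoc, ← ENNReal.ofReal_mul (by positivity), mul_comm]
  congr 2
  rw [← Real.rpow_natCast t 2, ← Real.rpow_add ht0]
  congr 1
  push_cast
  ring

/-! ### The source `|x|^r` -/

theorem mu_le_lev (hF : Fam μ ψ) {M : ℝ} (hM : ∀ z, μ z ≤ M) (z : ℂ) : μ z ≤ lev ψ 0 z := by
  by_contra hcon
  push Not at hcon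
  obtain ⟨L, h1, h2⟩ := exists_between hcon
  have hL : 0 < L := lt_of_le_of_lt (lev_nonneg ψ 0 z) h1
  have h3 : ψ L z = 0 := by
    by_contra h
    have h4 : 0 < ψ L z := lt_of_le_of_ne (hF.nonneg L z hL) (Ne.symm h)
    exact lt_asymm h1 ((mem_iff hF hM hL z).1 h4)
  exact absurd (hF.out L hL z h3) (not_le.2 h2)

/-- `s(z) = (1 - μ/l)/r ∈ [0, 1/r]` -/
theorem s_mem (hF : Fam μ ψ) {M : ℝ} (hM : ∀ z, μ z ≤ M) (hμ0 : ∀ z, 0 ≤ μ z) (hr : 1 ≤ r)
    (z : ℂ) : (1 - μ z / lev ψ 0 z) / r ∈ Icc (0 : ℝ) (1 / r) := by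
  have hr0 : 0 < r := by linarith
  have h1 : 0 ≤ μ z / lev ψ 0 z := div_nonneg (hμ0 z) (lev_nonneg ψ 0 z)
  have h2 : μ z / lev ψ 0 z ≤ 1 := div_le_one_of_le₀ (mu_le_lev hF hM z) (lev_nonneg ψ 0 z)
  constructor
  · apply div_nonneg _ hr0.le; linarith
  · apply div_le_div_of_nonneg_right _ hr0.le; linarith

/-- the level function is bounded below on bounded sets -/
theorem exists_le_lev (hF : Fam μ ψ) {M : ℝ} (hM : ∀ z, μ z ≤ M) (hpos : ∃ z, 0 < μ z) (R : ℝ) :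
    ∃ l₀ : ℝ, 0 < l₀ ∧ ∀ z : ℂ, ‖z‖ ≤ R → l₀ ≤ lev ψ 0 z := by
  obtain ⟨L₀, hL₀, h⟩ := hF.small hpos R 0
  refine ⟨L₀ / 2, by positivity, fun z hz => ?_⟩
  exact le_csSup (bddAbove_lev hF hM z) ⟨by positivity, h (L₀ / 2) (by positivity) (by linarith) z hz⟩

variable {x : ℂ → ℂ}

theorem exists_bound (hx : Continuous x) (hxc : HasCompactSupport x) (hr0 : 0 < r) :
    ∃ M : ℝ, 0 ≤ M ∧ ∀ z, ‖x z‖ ^ r ≤ M := by
  obtain ⟨C, hC⟩ := hxc.exists_bound_of_continuous hx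
  refine ⟨(max C 0) ^ r, by positivity, fun z => ?_⟩
  exact Real.rpow_le_rpow (norm_nonneg _) ((hC z).trans (le_max_left _ _)) hr0.le

theorem integrable_V (hr : 1 ≤ r) (hx : Continuous x) (hxc : HasCompactSupport x)
    (hF : Fam (fun z => ‖x z‖ ^ r) ψ) {V : ℝ → ℝ} (hV : ContinuousOn V (Icc 0 (1 / r))) (q : ℝ) :
    Integrable (fun z => V ((1 - ‖x z‖ ^ r / lev ψ 0 z) / r) * lev ψ 0 z ^ q * ‖x z‖ ^ 2) := by
  have hr0 : 0 < r := by linarith
  obtain ⟨M, hM0, hM⟩ := exists_bound hx hxc hr0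
  by_cases hpos : ∃ z, 0 < ‖x z‖ ^ r
  swap
  · have h0 : ∀ z, x z = 0 := by
      intro z
      by_contra h
      exact hpos ⟨z, Real.rpow_pos_of_pos (norm_pos_iff.2 h) _⟩
    have : (fun z => V ((1 - ‖x z‖ ^ r / lev ψ 0 z) / r) * lev ψ 0 z ^ q * ‖x z‖ ^ 2) =
        fun _ => 0 := by
      ext z; rw [h0 z]; simp
    rw [this]; exact integrable_zero _ _ _
  have hx0 : 0 ≤ 1 / r := by positivity
  -- continuous extension of `V`
  obtain ⟨K, hK⟩ := isCompact_Icc.exists_bound_of_continuousOn hV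
  have hV' : Continuous (fun s : ℝ => V (projIcc 0 (1 / r) hx0 s)) :=
    (continuousOn_iff_continuous_domRestrict.1 hV).comp continuous_projIcc
  have hs := fun z => s_mem (r := r) hF hM (fun z => by positivity) hr z
  have hVs : ∀ z, V ((1 - ‖x z‖ ^ r / lev ψ 0 z) / r) =
      V (projIcc 0 (1 / r) hx0 ((1 - ‖x z‖ ^ r / lev ψ 0 z) / r)) := by
    intro z
    rw [projIcc_of_mem hx0 (hs z)]
  -- lower bound of the level function on the support
  obtain ⟨R, hR⟩ := hxc.isCompact.isBounded.exists_norm_le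
  obtain ⟨l₀, hl₀, hl⟩ := exists_le_lev hF hM hpos R
  have hml := measurable_lev hF hM
  have hmn : Measurable fun z => ‖x z‖ := hx.norm.measurable
  -- bound of the power of the level
  have hq : ∀ z, ‖z‖ ≤ R → lev ψ 0 z ^ q ≤ l₀ ^ q + M ^ q := by
    intro z hz
    have h1 := hl z hz
    have h2 := lev_le hF hM hM0 z
    have hl0 : 0 < lev ψ 0 z := hl₀.trans_le h1
    rcases le_total 0 q with hq | hq
    · have := Real.rpow_le_rpow hl0.le h2 hq
      have h3 : 0 ≤ l₀ ^ q := by positivity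
      linarith
    · have := Real.rpow_le_rpow_of_nonpos hl₀ h1 hq
      have h3 : 0 ≤ M ^ q := by positivity
      linarith
  have hbound : Integrable (fun z => K * (l₀ ^ q + M ^ q) * ‖x z‖ ^ 2) := by
    have hc : Continuous fun z => K * (l₀ ^ q + M ^ q) * ‖x z‖ ^ 2 := by fun_prop
    apply hc.integrable_of_hasCompactSupport
    apply HasCompactSupport.mul_left
    exact hxc.comp_left (g := fun y : ℂ => ‖y‖ ^ 2) (by simp)
  refine hbound.mono' ?_ (Eventually.of_forall fun z => ?_)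
  · have e : (fun z => V ((1 - ‖x z‖ ^ r / lev ψ 0 z) / r) * lev ψ 0 z ^ q * ‖x z‖ ^ 2) =
        fun z => V (projIcc 0 (1 / r) hx0 ((1 - ‖x z‖ ^ r / lev ψ 0 z) / r)) *
          lev ψ 0 z ^ q * ‖x z‖ ^ 2 := by
      ext z; rw [← hVs z]
    rw [e]
    apply Measurable.aestronglyMeasurable
    have m1 : Measurable fun z => (1 - ‖x z‖ ^ r / lev ψ 0 z) / r :=
      ((measurable_const.sub ((hmn.pow_const r).div hml)).div_const r)
    exact ((hV'.measurable.comp m1).mul (hml.pow_const q)).mul (hmn.pow_const 2)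
  · by_cases hz : z ∈ tsupport x
    · have h1 := hK _ (hs z)
      have h2 := hq z (hR z hz)
      have h3 : 0 ≤ lev ψ 0 z ^ q := Real.rpow_nonneg (lev_nonneg ψ 0 z) _
      rw [norm_mul, norm_mul, Real.norm_of_nonneg h3, Real.norm_of_nonneg (sq_nonneg ‖x z‖)]
      have hK0 : 0 ≤ K := (norm_nonneg _).trans h1
      gcongr
    · have h0 : x z = 0 := image_eq_zero_of_notMem_tsupport hz
      rw [h0]; simp

theorem tt_le (hF : Fam μ ψ) {M : ℝ} (hM : ∀ z, μ z ≤ M) (hM0 : 0 ≤ M) (hr : 1 ≤ r)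
    (hrp : r < p) (z : ℂ) : tt p r ψ z ≤ ((1 - r / p) * M) ^ (1 / r) := by
  have hw := w_pos hr hrp
  have hr0 : 0 < r := by linarith
  unfold tt
  apply Real.rpow_le_rpow (mul_nonneg hw.le (lev_nonneg ψ 0 z)) _ (by positivity)
  exact mul_le_mul_of_nonneg_left (lev_le hF hM hM0 z) hw.le

theorem integrable_mu_tt (hr : 1 ≤ r) (hrp : r < p) (hx : Continuous x)
    (hxc : HasCompactSupport x) (hF : Fam (fun z => ‖x z‖ ^ r) ψ) :
    Integrable (fun z => ‖x z‖ ^ r * tt p r ψ z ^ (p - r)) := by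
  have hr0 : 0 < r := by linarith
  obtain ⟨M, hM0, hM⟩ := exists_bound hx hxc hr0
  have hw := w_pos hr hrp
  set B := (((1 - r / p) * M) ^ (1 / r)) ^ (p - r) with hB
  have hbound : Integrable (fun z => ‖x z‖ ^ r * B) := by
    have hc : Continuous fun z => ‖x z‖ ^ r * B :=
      (hx.norm.rpow_const fun z => Or.inr hr0.le).mul continuous_const
    apply hc.integrable_of_hasCompactSupport
    apply HasCompactSupport.mul_right
    exact hxc.comp_left (g := fun y : ℂ => ‖y‖ ^ r) (by simp [Real.zero_rpow hr0.ne'])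
  refine hbound.mono' ?_ (Eventually.of_forall fun z => ?_)
  · exact ((hx.norm.measurable.pow_const r).mul
      ((measurable_tt hF hM).pow_const _)).aestronglyMeasurable
  · have h1 : 0 ≤ tt p r ψ z ^ (p - r) := Real.rpow_nonneg (tt_nonneg hr hrp z) _
    have h2 : 0 ≤ ‖x z‖ ^ r := by positivity
    rw [Real.norm_of_nonneg (mul_nonneg h2 h1)]
    apply mul_le_mul_of_nonneg_left _ h2
    exact Real.rpow_le_rpow (tt_nonneg hr hrp z) (tt_le hF hM hM0 hr hrp z) (by linarith)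

/-- the mass inequality and integrability, real form -/
theorem mass_real (hr : 1 ≤ r) (hrp : r < p) (hx : Continuous x)
    (hxc : HasCompactSupport x) (hF : Fam (fun z => ‖x z‖ ^ r) ψ) :
    Integrable (fun z => tt p r ψ z ^ p) ∧
      ∫ z, tt p r ψ z ^ p ≤ ∫ z, ‖x z‖ ^ r * tt p r ψ z ^ (p - r) := by
  have hr0 : 0 < r := by linarith
  obtain ⟨M, hM0, hM⟩ := exists_bound hx hxc hr0
  have hi := integrable_mu_tt (p := p) hr hrp hx hxc hF
  have hc : Continuous fun z => ‖x z‖ ^ r := hx.norm.rpow_const fun z => Or.inr hr0.le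
  have hm := mass_tt (p := p) (r := r) hF hc (fun z => by positivity) hM hr hrp
  have h0 : ∀ z, 0 ≤ tt p r ψ z ^ p := fun z => Real.rpow_nonneg (tt_nonneg hr hrp z) _
  have h1 : ∀ z, 0 ≤ ‖x z‖ ^ r * tt p r ψ z ^ (p - r) := fun z =>
    mul_nonneg (by positivity) (Real.rpow_nonneg (tt_nonneg hr hrp z) _)
  have e : ∫⁻ z, ENNReal.ofReal (‖x z‖ ^ r) * ENNReal.ofReal (tt p r ψ z ^ (p - r)) =
      ENNReal.ofReal (∫ z, ‖x z‖ ^ r * tt p r ψ z ^ (p - r)) := by
    rw [ofReal_integral_eq_lintegral_ofReal hi (Eventually.of_forall h1)]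
    refine lintegral_congr fun z => ?_
    rw [ENNReal.ofReal_mul (by positivity)]
  rw [e] at hm
  have hmeas : AEStronglyMeasurable (fun z => tt p r ψ z ^ p) volume :=
    ((measurable_tt hF hM).pow_const p).aestronglyMeasurable
  have hint : Integrable (fun z => tt p r ψ z ^ p) := by
    refine ⟨hmeas, ?_⟩
    rw [hasFiniteIntegral_iff_ofReal (Eventually.of_forall h0)]
    exact lt_of_le_of_lt hm ENNReal.ofReal_lt_top
  refine ⟨hint, ?_⟩
  rw [← ofReal_integral_eq_lintegral_ofReal hint (Eventually.of_forall h0)] at hm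
  exact (ENNReal.ofReal_le_ofReal_iff (integral_nonneg h1)).1 hm

/-- the one-variable inequality at the point `z` -/
theorem pointwise_tt (hr : 1 ≤ r) (hrp : r < p) (hp2 : p < 2) (hx : Continuous x)
    (hxc : HasCompactSupport x) (hF : Fam (fun z => ‖x z‖ ^ r) ψ) {V : ℝ → ℝ} {C : ℝ}
    (hV : ∀ y : ℝ, 0 ≤ y → (1 - r / p) * y ^ r ≤ 1 →
      V ((1 - (1 - r / p) * y ^ r) / r) * y ^ 2 +
        (2 / p - 1) * C ^ 2 * ((y ^ r - (1 - r / p)) / (r / p)) ≤ 2 / p * C ^ 2 * y ^ p) (z : ℂ) :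
    (1 - r / p) ^ ((p - 2) / r) * (V ((1 - ‖x z‖ ^ r / lev ψ 0 z) / r) *
        lev ψ 0 z ^ ((p - 2) / r) * ‖x z‖ ^ 2) +
      (2 / p - 1) * C ^ 2 * ((‖x z‖ ^ r * tt p r ψ z ^ (p - r) -
        (1 - r / p) * tt p r ψ z ^ p) / (r / p)) ≤ 2 / p * C ^ 2 * ‖x z‖ ^ p := by
  have hr0 : 0 < r := by linarith
  have hp0 : 0 < p := by linarith
  obtain ⟨M, hM0, hM⟩ := exists_bound hx hxc hr0
  have hw := w_pos hr hrp
  have hl0 := lev_nonneg ψ 0 z
  rcases hl0.eq_or_lt with h0 | h0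
  · have h1 := mu_le_lev hF hM z
    rw [← h0] at h1
    have hx0 : x z = 0 := by
      by_contra h
      exact absurd h1 (not_le.2 (Real.rpow_pos_of_pos (norm_pos_iff.2 h) _))
    have ht : tt p r ψ z = 0 := by
      unfold tt
      rw [← h0, mul_zero, Real.zero_rpow (by positivity)]
    rw [hx0, ht, norm_zero, Real.zero_rpow hr0.ne', Real.zero_rpow hp0.ne']
    simp
  · set T := tt p r ψ z with hT
    have hT0 : 0 < T := by
      rw [hT]; unfold tt; positivity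
    have hTr : T ^ r = (1 - r / p) * lev ψ 0 z := tt_rpow hr hrp z
    have hmul := mu_le_lev hF hM z
    set y := ‖x z‖ / T with hy
    have hy0 : 0 ≤ y := by positivity
    have hyr : y ^ r = ‖x z‖ ^ r / T ^ r := Real.div_rpow (norm_nonneg _) hT0.le _
    have hwy : (1 - r / p) * y ^ r = ‖x z‖ ^ r / lev ψ 0 z := by
      rw [hyr, hTr, ← mul_div_assoc, mul_div_mul_left _ _ hw.ne']
    have hle : (1 - r / p) * y ^ r ≤ 1 := by
      rw [hwy]; exact div_le_one_of_le₀ hmul hl0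
    have h := hV y hy0 hle
    rw [hwy] at h
    have hTp : 0 < T ^ p := by positivity
    have h2 := mul_le_mul_of_nonneg_left h hTp.le
    have e1 : T ^ p * y ^ p = ‖x z‖ ^ p := by
      rw [hy, Real.div_rpow (norm_nonneg _) hT0.le]; field_simp
    have e2 : T ^ p * y ^ r = ‖x z‖ ^ r * T ^ (p - r) := by
      rw [hyr, Real.rpow_sub hT0]; ring
    have e3 : T ^ p * y ^ 2 = ((1 - r / p) ^ ((p - 2) / r) * lev ψ 0 z ^ ((p - 2) / r)) *
        ‖x z‖ ^ 2 := by
      rw [← Real.mul_rpow hw.le hl0, ← hTr, ← Real.rpow_mul hT0.le,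
        mul_div_cancel₀ _ hr0.ne', Real.rpow_sub hT0, Real.rpow_two, hy]
      field_simp
    calc (1 - r / p) ^ ((p - 2) / r) * (V ((1 - ‖x z‖ ^ r / lev ψ 0 z) / r) *
        lev ψ 0 z ^ ((p - 2) / r) * ‖x z‖ ^ 2) +
      (2 / p - 1) * C ^ 2 * ((‖x z‖ ^ r * T ^ (p - r) -
        (1 - r / p) * T ^ p) / (r / p))
        = V ((1 - ‖x z‖ ^ r / lev ψ 0 z) / r) * (((1 - r / p) ^ ((p - 2) / r) *
          lev ψ 0 z ^ ((p - 2) / r)) * ‖x z‖ ^ 2) +
          (2 / p - 1) * C ^ 2 * ((‖x z‖ ^ r * T ^ (p - r) - (1 - r / p) * T ^ p) / (r / p)) := by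
          ring
      _ = T ^ p * (V ((1 - ‖x z‖ ^ r / lev ψ 0 z) / r) * y ^ 2 +
        (2 / p - 1) * C ^ 2 * ((y ^ r - (1 - r / p)) / (r / p))) := by
          rw [← e3, ← e2]; ring
      _ ≤ T ^ p * (2 / p * C ^ 2 * y ^ p) := h2
      _ = 2 / p * C ^ 2 * ‖x z‖ ^ p := by rw [← e1]; ring

/-- the real inequality between the integrals -/
theorem real_ineq (hr : 1 ≤ r) (hrp : r < p) (hp2 : p < 2) (hx : Continuous x)
    (hxc : HasCompactSupport x) (hF : Fam (fun z => ‖x z‖ ^ r) ψ) {V : ℝ → ℝ}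
    (hVc : ContinuousOn V (Icc 0 (1 / r))) {C : ℝ}
    (hV : ∀ y : ℝ, 0 ≤ y → (1 - r / p) * y ^ r ≤ 1 →
      V ((1 - (1 - r / p) * y ^ r) / r) * y ^ 2 +
        (2 / p - 1) * C ^ 2 * ((y ^ r - (1 - r / p)) / (r / p)) ≤ 2 / p * C ^ 2 * y ^ p) :
    (1 - r / p) ^ ((p - 2) / r) * (∫ z, V ((1 - ‖x z‖ ^ r / lev ψ 0 z) / r) *
        lev ψ 0 z ^ ((p - 2) / r) * ‖x z‖ ^ 2) +
      (2 / p - 1) * C ^ 2 * (∫ z, tt p r ψ z ^ p) ≤ 2 / p * C ^ 2 * ∫ z, ‖x z‖ ^ p := by
  have hr0 : 0 < r := by linarith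
  have hp0 : 0 < p := by linarith
  have hw := w_pos hr hrp
  have i1 := integrable_V hr hx hxc hF hVc ((p - 2) / r)
  have i2 := integrable_mu_tt (p := p) hr hrp hx hxc hF
  obtain ⟨i3, hmass⟩ := mass_real (p := p) hr hrp hx hxc hF
  have i4 : Integrable (fun z => ‖x z‖ ^ p) := by
    have hc : Continuous fun z => ‖x z‖ ^ p := hx.norm.rpow_const fun z => Or.inr hp0.le
    apply hc.integrable_of_hasCompactSupport
    exact hxc.comp_left (g := fun y : ℂ => ‖y‖ ^ p) (by simp [Real.zero_rpow hp0.ne'])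
  have i5 : Integrable (fun z => (‖x z‖ ^ r * tt p r ψ z ^ (p - r) -
        (1 - r / p) * tt p r ψ z ^ p) / (r / p)) := (i2.sub (i3.const_mul _)).div_const _
  have h := integral_mono ((i1.const_mul ((1 - r / p) ^ ((p - 2) / r))).add
    (i5.const_mul ((2 / p - 1) * C ^ 2))) (i4.const_mul (2 / p * C ^ 2))
    (fun z => pointwise_tt hr hrp hp2 hx hxc hF hV z)
  simp only [Pi.add_apply] at h
  rw [integral_add (i1.const_mul _) (i5.const_mul _), integral_const_mul, integral_const_mul,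
    integral_const_mul, integral_div, integral_sub i2 (i3.const_mul _), integral_const_mul] at h
  have h2p : 0 ≤ 2 / p - 1 := by
    rw [sub_nonneg, le_div_iff₀ hp0]; linarith
  have hrp0 : 0 < r / p := by positivity
  have h3 : (∫ z, tt p r ψ z ^ p) ≤ ((∫ z, ‖x z‖ ^ r * tt p r ψ z ^ (p - r)) -
      (1 - r / p) * ∫ z, tt p r ψ z ^ p) / (r / p) := by
    rw [le_div_iff₀ hrp0]
    linarith
  have h4 := mul_le_mul_of_nonneg_left h3 (mul_nonneg h2p (sq_nonneg C))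
  linarith

/-- **Young, layer cake, one-variable inequality**: the final step without transport. -/
theorem core (hr : 1 ≤ r) (hrp : r < p) (hp2 : p < 2) (hx : Continuous x)
    (hxc : HasCompactSupport x) (hF : Fam (fun z => ‖x z‖ ^ r) ψ)
    {Y : ℂ → ℂ} (hY : Measurable Y) {E : ℝ → ℝ}
    (hE : ∀ L, 0 < L → ∫⁻ z in {z | 0 < ψ L z}ᶜ, ENNReal.ofReal (‖Y z‖ ^ 2) ≤
      ENNReal.ofReal (E L)) {V : ℝ → ℝ} (hVc : ContinuousOn V (Icc 0 (1 / r))) {C : ℝ}
    (hC : 0 < C) (hV0 : ∀ s ∈ Icc (0 : ℝ) (1 / r), 0 ≤ V s)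
    (hFE : ∫⁻ L in Ioi (0 : ℝ), ENNReal.ofReal ((2 - p) / r * L ^ ((p - 2) / r - 1) * E L) ≤
      ENNReal.ofReal (∫ z, V ((1 - ‖x z‖ ^ r / lev ψ 0 z) / r) *
        lev ψ 0 z ^ ((p - 2) / r) * ‖x z‖ ^ 2))
    (hV : ∀ y : ℝ, 0 ≤ y → (1 - r / p) * y ^ r ≤ 1 →
      V ((1 - (1 - r / p) * y ^ r) / r) * y ^ 2 +
        (2 / p - 1) * C ^ 2 * ((y ^ r - (1 - r / p)) / (r / p)) ≤ 2 / p * C ^ 2 * y ^ p) :
    ∫⁻ z, ENNReal.ofReal (‖Y z‖ ^ p) ≤ ENNReal.ofReal (C ^ p * ∫ z, ‖x z‖ ^ p) := by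
  have hr0 : 0 < r := by linarith
  have hp0 : 0 < p := by linarith
  have hp1 : 1 < p := by linarith
  have hw := w_pos hr hrp
  obtain ⟨M, hM0, hM⟩ := exists_bound hx hxc hr0
  have hri := real_ineq hr hrp hp2 hx hxc hF hVc hV
  set J := ∫ z, V ((1 - ‖x z‖ ^ r / lev ψ 0 z) / r) *
        lev ψ 0 z ^ ((p - 2) / r) * ‖x z‖ ^ 2 with hJ
  set N := ∫ z, ‖x z‖ ^ p with hN
  obtain ⟨i3, -⟩ := mass_real (p := p) hr hrp hx hxc hF
  set T := ∫ z, tt p r ψ z ^ p with hT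
  have hT0 : 0 ≤ T := integral_nonneg fun z => Real.rpow_nonneg (tt_nonneg hr hrp z) _
  have hJ0 : 0 ≤ J := integral_nonneg fun z => by
    have h1 := hV0 _ (s_mem (r := r) hF hM (fun z => by positivity) hr z)
    have h2 : 0 ≤ lev ψ 0 z ^ ((p - 2) / r) := Real.rpow_nonneg (lev_nonneg ψ 0 z) _
    exact mul_nonneg (mul_nonneg h1 h2) (sq_nonneg _)
  have h2p : 0 < 2 - p := by linarith
  have hcp := _root_.QNL.Young_.cp_pos hp1 hp2
  have hY' : Measurable fun z => ‖Y z‖ := hY.norm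
  have hst := _root_.QNL.Young_.static (μ := (volume : Measure ℂ)) hp1 hp2 hC hY'
    (fun z => norm_nonneg _) (G := fun t => {z | 0 < ψ (t ^ r / (1 - r / p)) z})
    (fun t ht => (isOpen_U hF (by positivity)).measurableSet)
    (E := fun t => ENNReal.ofReal (E (t ^ r / (1 - r / p))))
    (fun t ht => hE _ (by positivity))
  -- the two integrals
  rw [lint_change hr hrp hp2] at hFE
  have hk : 0 < (2 - p) * (1 - r / p) ^ ((2 - p) / r) := by positivity
  set I1 := ∫⁻ t in Ioi (0 : ℝ), ENNReal.ofReal (t ^ (p - 3)) *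
          ENNReal.ofReal (E (t ^ r / (1 - r / p))) with hI1
  have hI1le : I1 ≤ ENNReal.ofReal (J / ((2 - p) * (1 - r / p) ^ ((2 - p) / r))) := by
    rw [ENNReal.ofReal_div_of_pos hk, ENNReal.le_div_iff_mul_le
      (Or.inl (by simpa using hk)) (Or.inl ENNReal.ofReal_ne_top), mul_comm]
    exact hFE
  have hI2 := lint_tt (p := p) (r := r) hF hM hr hrp
  rw [← ofReal_integral_eq_lintegral_ofReal i3 (Eventually.of_forall fun z =>
    Real.rpow_nonneg (tt_nonneg hr hrp z) _), ← ENNReal.ofReal_mul (by positivity)] at hI2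
  -- split
  have hsplit : ∫⁻ t in Ioi (0 : ℝ), ENNReal.ofReal (t ^ (p - 3)) *
        (ENNReal.ofReal (C ^ (p - 2)) * ENNReal.ofReal (E (t ^ r / (1 - r / p))) +
          ENNReal.ofReal (C ^ p) *
          (ENNReal.ofReal (t ^ 2) * volume {z | 0 < ψ (t ^ r / (1 - r / p)) z})) =
      ENNReal.ofReal (C ^ (p - 2)) * I1 + ENNReal.ofReal (C ^ p) *
        ENNReal.ofReal (1 / p * T) := by
    rw [← hI2, hI1, ← lintegral_const_mul' _ _ (by simp), ← lintegral_const_mul' _ _ (by simp),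
      ← lintegral_add_right']
    · refine lintegral_congr fun t => ?_
      ring
    · have hm : AEMeasurable (fun t : ℝ => ENNReal.ofReal (C ^ p) * (ENNReal.ofReal (t ^ (p - 3)) *
          (ENNReal.ofReal (t ^ 2) * volume {z | t < tt p r ψ z}))) (volume.restrict (Ioi 0)) := by
        have ha : Antitone fun t : ℝ => (volume : Measure ℂ) {z | t < tt p r ψ z} := by
          intro t t' htt'
          exact measure_mono fun z hz => lt_of_le_of_lt htt' hz
        apply Measurable.aemeasurable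
        exact ((measurable_id.pow_const _).ennreal_ofReal.mul
          ((measurable_id.pow_const 2).ennreal_ofReal.mul ha.measurable)).const_mul _
      refine hm.congr ?_
      filter_upwards [ae_restrict_mem measurableSet_Ioi] with t ht
      rw [U_eq_tt hF hM hr hrp ht]
  rw [hsplit] at hst
  refine hst.trans ?_
  calc ENNReal.ofReal (_root_.QNL.Young_.cp p) * (ENNReal.ofReal (C ^ (p - 2)) * I1 +
        ENNReal.ofReal (C ^ p) * ENNReal.ofReal (1 / p * T))
      ≤ ENNReal.ofReal (_root_.QNL.Young_.cp p) * (ENNReal.ofReal (C ^ (p - 2)) *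
        ENNReal.ofReal (J / ((2 - p) * (1 - r / p) ^ ((2 - p) / r))) +
        ENNReal.ofReal (C ^ p) * ENNReal.ofReal (1 / p * T)) := by gcongr
    _ ≤ ENNReal.ofReal (C ^ p * N) := by
        have hk0 : 0 ≤ J / ((2 - p) * (1 - r / p) ^ ((2 - p) / r)) := div_nonneg hJ0 hk.le
        have hT1 : 0 ≤ 1 / p * T := by positivity
        rw [← ENNReal.ofReal_mul (by positivity), ← ENNReal.ofReal_mul (by positivity),
          ← ENNReal.ofReal_add (by positivity) (by positivity), ← ENNReal.ofReal_mul hcp.le]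
        apply ENNReal.ofReal_le_ofReal
        have hwβ : (1 - r / p) ^ ((p - 2) / r) * (1 - r / p) ^ ((2 - p) / r) = 1 := by
          rw [← Real.rpow_add hw]
          have : (p - 2) / r + (2 - p) / r = 0 := by ring
          rw [this, Real.rpow_zero]
        have hCp : C ^ p = C ^ (p - 2) * C ^ 2 := by
          rw [← Real.rpow_natCast C 2, ← Real.rpow_add hC]
          congr 1; push_cast; ring
        have hm := mul_le_mul_of_nonneg_left hri
          (show (0 : ℝ) ≤ p / 2 * C ^ (p - 2) by positivity)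
        have e1 : J / ((2 - p) * (1 - r / p) ^ ((2 - p) / r)) =
            (1 - r / p) ^ ((p - 2) / r) * J / (2 - p) := by
          rw [div_eq_div_iff hk.ne' h2p.ne']
          calc J * (2 - p) = (1 - r / p) ^ ((p - 2) / r) * (1 - r / p) ^ ((2 - p) / r) *
              (J * (2 - p)) := by rw [hwβ, one_mul]
            _ = _ := by ring
        rw [e1, hCp]
        unfold _root_.QNL.Young_.cp
        have e2 : p * (2 - p) / 2 * (C ^ (p - 2) * ((1 - r / p) ^ ((p - 2) / r) * J / (2 - p)) +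
            C ^ (p - 2) * C ^ 2 * (1 / p * T)) =
            p / 2 * C ^ (p - 2) * ((1 - r / p) ^ ((p - 2) / r) * J +
              (2 / p - 1) * C ^ 2 * T) := by
          field_simp
        have e3 : p / 2 * C ^ (p - 2) * (2 / p * C ^ 2 * N) = C ^ (p - 2) * C ^ 2 * N := by
          field_simp
        rw [e2, ← e3]
        exact hm

/-! ### The theorem for `T^n` without transport -/

/-- the sources `|f|^r` -/
def StmtSrc : Prop := ∀ (r : ℝ), 1 ≤ r → ∀ f : 𝓢(ℂ, ℂ), HasCompactSupport f →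
  ∃ C : ℝ, Src (fun z => ‖f z‖ ^ r) C

/-- one-variable data for `T^n`: multipliers, value function, one-variable inequality -/
def One (n : ℕ) : Prop := ∀ p : ℝ, 1 < p → p < 2 → ∃ (r smax : ℝ) (th V : ℕ → ℝ) (W : ℝ → ℝ),
  1 ≤ r ∧ r < p ∧ 1 / r < smax ∧ (∀ j, V j = if j = n then 1 else 0) ∧
  QForm n p smax th V W ∧
  ∀ y : ℝ, 0 ≤ y → (1 - r / p) * y ^ r ≤ 1 →
    W ((1 - (1 - r / p) * y ^ r) / r) * y ^ 2 +
      (2 / p - 1) * Cn n p ^ 2 * ((y ^ r - (1 - r / p)) / (r / p)) ≤ 2 / p * Cn n p ^ 2 * y ^ p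

theorem QForm.nonneg {n : ℕ} {p smax : ℝ} (hp2 : p < 2) {th B : ℕ → ℝ} {V : ℝ → ℝ}
    (h : QForm n p smax th B V) {s : ℝ} (hs : s ∈ Icc (0 : ℝ) smax) : 0 ≤ V s := by
  have h1 := h.form s hs (fun j => if j = 0 then 1 else 0)
  have e2 : ∀ j ∈ Finset.range n, (B (j + 1) + th (j + 1) - th j) *
      ‖(if j + 1 = 0 then (1 : ℂ) else 0)‖ ^ 2 = 0 := by
    intro j _; simp
  rw [Finset.sum_eq_zero e2] at h1
  have e1 : 0 ≤ ∑ j ∈ Finset.range n, th j / (2 * (j : ℝ) + 1) * ((2 - p) * s) *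
      ‖(if j = 0 then (1 : ℂ) else 0) - (if j + 1 = 0 then (1 : ℂ) else 0)‖ ^ 2 := by
    apply Finset.sum_nonneg
    intro j _
    have := h.th_nonneg j
    have h2 : 0 ≤ (2 - p) * s := mul_nonneg (by linarith) hs.1
    positivity
  have h3 := h.B_nonneg 0
  have h4 := h.th_nonneg 0
  simp only [if_true, norm_one, one_pow, mul_one, add_zero] at h1
  linarith

/-- **(N)** `StmtFam`, `StmtF` and the one-variable data give `StmtLowH n`. -/
theorem lowH_of {n : ℕ} (hFam : StmtFam) (hF : StmtF) (hoff : StmtHoff) (hSrc : StmtSrc)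
    (hone : One n) : StmtLowH n := by
  intro p hp1 hp2 f hfc
  obtain ⟨r, smax, th, B, W, hr, hrp, hsm, hB, hQ, hineq⟩ := hone p hp1 hp2
  have hr0 : 0 < r := by linarith
  have hp0 : 0 < p := by linarith
  have hC := Cn_pos n hp1
  obtain ⟨C, hsrc⟩ := hSrc r hr f hfc
  obtain ⟨ψ, hψ, C', hC', hlay⟩ := hFam _ C hsrc
  have hfcont : Continuous f := f.continuous
  set X : H := f.toLp 2 with hX
  have hXf : (X : ℂ → ℂ) =ᵐ[volume] f := f.coeFn_toLp 2 volume
  have hfe := hF p r hr hrp hp2 f X hfcont hfc hXf ψ C' hψ hC' (hlay X) n smax th B W hsm hQ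
  have hsum : ∀ L : ℝ, ∑ j ∈ Finset.range (n + 1), B j * E j {z | 0 < ψ L z} X =
      E n {z | 0 < ψ L z} X := by
    intro L
    rw [Finset.sum_eq_single n]
    · rw [hB n, if_pos rfl, one_mul]
    · intro j _ hj; rw [hB j, if_neg hj, zero_mul]
    · intro h; exact absurd (Finset.mem_range.2 (Nat.lt_succ_self n)) h
  simp only [hsum] at hfe
  have hY : Measurable (TT n X : ℂ → ℂ) := (Lp.stronglyMeasurable (TT n X)).measurable
  have hYi : Integrable (fun z => ‖(TT n X : ℂ → ℂ) z‖ ^ 2) :=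
    (memLp_two_iff_integrable_sq_norm (Lp.aestronglyMeasurable (TT n X))).1 (Lp.memLp (TT n X))
  have hE : ∀ L, 0 < L → ∫⁻ z in {z | 0 < ψ L z}ᶜ, ENNReal.ofReal (‖(TT n X : ℂ → ℂ) z‖ ^ 2) ≤
      ENNReal.ofReal (E n {z | 0 < ψ L z} X) := by
    intro L hL
    rw [← ofReal_integral_eq_lintegral_ofReal hYi.restrict
      (Eventually.of_forall fun z => sq_nonneg _)]
    exact ENNReal.ofReal_le_ofReal (hoff n _ X (isOpen_U hψ hL))
  have hcore := core hr hrp hp2 hfcont hfc hψ hY hE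
    (hQ.cont.mono (Icc_subset_Icc_right hsm.le)) hC
    (fun s hs => QForm.nonneg hp2 hQ ⟨hs.1, hs.2.trans hsm.le⟩) hfe hineq
  have e1 : ∀ z, ‖(TH n X : ℂ → ℂ) z‖ₑ ^ p = ENNReal.ofReal (‖(TT n X : ℂ → ℂ) z‖ ^ p) := by
    intro z
    rw [← ENNReal.ofReal_rpow_of_nonneg (norm_nonneg _) hp0.le, ofReal_norm]
    rfl
  have i4 : Integrable (fun z => ‖f z‖ ^ p) := by
    have hc : Continuous fun z => ‖f z‖ ^ p := hfcont.norm.rpow_const fun z => Or.inr hp0.le
    apply hc.integrable_of_hasCompactSupport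
    exact hfc.comp_left (g := fun y : ℂ => ‖y‖ ^ p) (by simp [Real.zero_rpow hp0.ne'])
  have e2 : ENNReal.ofReal (Cn n p ^ p) * ∫⁻ w, ‖f w‖ₑ ^ p =
      ENNReal.ofReal (Cn n p ^ p * ∫ z, ‖f z‖ ^ p) := by
    rw [ENNReal.ofReal_mul (by positivity), ofReal_integral_eq_lintegral_ofReal i4
      (Eventually.of_forall fun z => by positivity)]
    congr 1
    refine lintegral_congr fun z => ?_
    rw [← ENNReal.ofReal_rpow_of_nonneg (norm_nonneg _) hp0.le, ofReal_norm]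
  rw [e2]
  simp only [e1]
  exact hcore

end Pool.Agent.Lib.QNL.FinN
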