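import Pool.Agent.Lib.QNL.Ric

/-!
Group N, the tail of the Riccati chain, uniformly in `n`.

Variables: `s = a (1 + Y)`, `W_j(s) = a Y κ_j(Y)`, `c = c_j ≥ 1`, `M = (1 + c)²/c`,
`lam_j = w_j M_j`, `Lam_j = ∑_{j ≤ i < n} lam_i`.  One exact Riccati step is
`κ = kst w c Y κ' = (w M + (1 - Y/c) κ') / (1 - c Y - Y κ'/w)`, and
`κ_j(Y) = Lam_j / (1 - h Y)`, `j ≥ k`, is a supersolution on `-1 ≤ Y ≤ Ym` as soon as
`Lam_{j+1} ≤ q lam_j` for `j ≥ k` and
`M q (1 + q) ≤ (1 - h Ym) (h - c (1 + q) + q / c)`, `c = c_k`.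
-/

set_option autoImplicit false

namespace Pool.Agent.Lib.QNL.Tail35

open Finset Set
open Pool.Agent.Lib.QNL Pool.Agent.Lib.QNL.Ric

/-- one exact Riccati step in the variable `κ` (`W = a Y κ`) -/
noncomputable def kst (w c Y k' : ℝ) : ℝ :=
  (w * ((1 + c) ^ 2 / c) + (1 - Y / c) * k') / (1 - c * Y - Y * k' / w)

theorem ric_eq {a w c Y k' : ℝ} (ha : a ≠ 0) (hw : w ≠ 0) (hc : c ≠ 0)
    (hD : 1 - c * Y - Y * k' / w ≠ 0) :
    w * (a * Y / c - a) + (w * (a * Y + a)) ^ 2 / (w * (a - a * Y * c) - a * Y * k') =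
      a * Y * kst w c Y k' := by
  have h1 : w * (a - a * Y * c) - a * Y * k' = a * w * (1 - c * Y - Y * k' / w) := by
    field_simp
  rw [h1]
  unfold kst
  obtain ⟨E, hE⟩ : ∃ E, E = w - c * Y * w - Y * k' := ⟨_, rfl⟩
  have h2 : 1 - c * Y - Y * k' / w = E / w := by
    rw [hE]; field_simp
  rw [h2] at hD ⊢
  have hD' : E ≠ 0 := by
    intro h
    apply hD
    rw [h, zero_div]
  have h3 : k' * Y = w - c * Y * w - E := by linarith
  field_simp
  linear_combination (-(c - Y)) * h3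

theorem ric_pos {a w c Y k' : ℝ} (ha : 0 < a) (hw : 0 < w)
    (hD : 0 < 1 - c * Y - Y * k' / w) : a * Y * k' < w * (a - a * Y * c) := by
  have h1 : w * (a - a * Y * c) - a * Y * k' = a * w * (1 - c * Y - Y * k' / w) := by
    field_simp
  have h2 : 0 < a * w * (1 - c * Y - Y * k' / w) := by positivity
  linarith

/-- **(T1)** the tail step -/
theorem tail_step {w c q h h' Y Ym : ℝ} (hw : 0 < w) (hc : 1 ≤ c) (hq : 0 ≤ q)
    (hch : c + (1 + c) ^ 2 / c * q ≤ h) (hh' : 0 ≤ h') (_hYm0 : 0 ≤ Ym) (h1 : h * Ym < 1)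
    (h1' : h' * Ym < 1)
    (hstar : (1 + c) ^ 2 / c * q * (1 + q) + q * (h' - 1 / c) * (1 - h * Ym) ≤
      (h - c) * (1 - h' * Ym) * (1 + q))
    (hY : -1 ≤ Y) (hYm : Y ≤ Ym) :
    0 < 1 - c * Y - Y * (q * (w * ((1 + c) ^ 2 / c)) / (1 - h' * Y)) / w ∧
      Y * kst w c Y (q * (w * ((1 + c) ^ 2 / c)) / (1 - h' * Y)) ≤
        Y * ((1 + q) * (w * ((1 + c) ^ 2 / c)) / (1 - h * Y)) := by
  have hc0 : 0 < c := by linarith
  set M : ℝ := (1 + c) ^ 2 / c with hM
  have hMpos : 0 < M := by positivity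
  have hMc : c ≤ M := by
    rw [hM, le_div_iff₀ hc0]
    nlinarith
  have hMid : M = c + 2 + 1 / c := by
    rw [hM]; field_simp; ring
  have hh : 0 < h := lt_of_lt_of_le hc0 (le_trans (le_add_of_nonneg_right (by positivity)) hch)
  have hhc : c ≤ h := le_trans (le_add_of_nonneg_right (by positivity)) hch
  have hA : 0 < 1 - h * Y := by
    have : h * Y ≤ h * Ym := mul_le_mul_of_nonneg_left hYm hh.le
    linarith
  have hA' : 0 < 1 - h' * Y := by
    have : h' * Y ≤ h' * Ym := mul_le_mul_of_nonneg_left hYm hh'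
    linarith
  have hcY : 0 < 1 - c * Y := by
    rcases le_or_gt Y 0 with h0 | h0
    · nlinarith
    · have : c * Y ≤ h * Y := mul_le_mul_of_nonneg_right hhc h0.le
      linarith
  have hYc : 0 ≤ 1 - Y / c := by
    have h2 : Y / c ≤ Y ∨ Y / c ≤ 0 := by
      rcases le_or_gt Y 0 with h0 | h0
      · exact Or.inr (div_nonpos_of_nonpos_of_nonneg h0 hc0.le)
      · exact Or.inl (div_le_self h0.le hc)
    rcases h2 with h2 | h2
    · have : Y * 1 ≤ 1 := by
        by_contra hcon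
        push Not at hcon
        nlinarith
      linarith
    · linarith
  -- the affine function of `Y`
  set S : ℝ := (h - c) * (1 - h' * Y) * (1 + q) - q * (h' - 1 / c) * (1 - h * Y)
    - M * q * (1 + q) with hS
  have hS0 : 0 ≤ S := by
    have hslope : 0 ≤ (h - c) * h' * (1 + q) - q * (h' - 1 / c) * h := by
      have e1 : (h - c) * h' * (1 + q) - q * (h' - 1 / c) * h =
          h' * (h - c - c * q) + q * h / c := by
        field_simp; ring
      rw [e1]
      have h3 : 0 ≤ h - c - c * q := by nlinarith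
      positivity
    have e2 : S = ((h - c) * (1 - h' * Ym) * (1 + q) - q * (h' - 1 / c) * (1 - h * Ym)
        - M * q * (1 + q)) + (Ym - Y) * ((h - c) * h' * (1 + q) - q * (h' - 1 / c) * h) := by
      rw [hS]; ring
    have h4 : 0 ≤ (Ym - Y) * ((h - c) * h' * (1 + q) - q * (h' - 1 / c) * h) :=
      mul_nonneg (by linarith) hslope
    have h5 : q * (h' - 1 / c) * (1 - h * Ym) + M * q * (1 + q) ≤
        (h - c) * (1 - h' * Ym) * (1 + q) := by linarith
    rw [e2]; linarith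
  set D : ℝ := (1 - c * Y) * (1 - h' * Y) - M * q * Y with hD
  set N : ℝ := (1 - h' * Y) + q * (1 - Y / c) with hN
  have hN0 : 0 < N := by
    have : 0 ≤ q * (1 - Y / c) := mul_nonneg hq hYc
    rw [hN]; linarith
  have key : (1 + q) * D - N * (1 - h * Y) = Y * S := by
    rw [hD, hN, hS, hMid]
    field_simp
    ring
  have hDpos : 0 < D := by
    rcases le_or_gt Y 0 with h0 | h0
    · have h2 : 0 < (1 - c * Y) * (1 - h' * Y) := mul_pos hcY hA'
      have h3 : 0 ≤ M * q * (-Y) := by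
        have : 0 ≤ -Y := by linarith
        positivity
      rw [hD]; linarith
    · have h2 : 0 < (1 + q) * D := by
        have h3 : (1 + q) * D = N * (1 - h * Y) + Y * S := by linarith
        rw [h3]
        have : 0 < N * (1 - h * Y) := mul_pos hN0 hA
        have : 0 ≤ Y * S := mul_nonneg h0.le hS0
        linarith
      by_contra hcon
      push Not at hcon
      nlinarith
  have hden : 1 - c * Y - Y * (q * (w * M) / (1 - h' * Y)) / w = D / (1 - h' * Y) := by
    rw [hD, eq_div_iff hA'.ne', sub_mul, sub_mul]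
    have e0 : Y * (q * (w * M) / (1 - h' * Y)) / w * (1 - h' * Y) = Y * q * M := by
      rw [div_mul_eq_mul_div, div_eq_iff hw.ne', mul_assoc, div_mul_cancel₀ _ hA'.ne']
      ring
    rw [e0]
    ring
  constructor
  · rw [hden]
    exact div_pos hDpos hA'
  · have hnum : kst w c Y (q * (w * M) / (1 - h' * Y)) = w * M * N / D := by
      unfold kst
      rw [← hM, hden]
      have e3 : w * M + (1 - Y / c) * (q * (w * M) / (1 - h' * Y)) =
          w * M * N / (1 - h' * Y) := by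
        rw [hN, eq_div_iff hA'.ne', add_mul, mul_assoc (1 - Y / c), div_mul_cancel₀ _ hA'.ne']
        ring
      rw [e3, div_div_div_cancel_right₀ hA'.ne']
    rw [hnum]
    have e4 : Y * ((1 + q) * (w * M) / (1 - h * Y)) - Y * (w * M * N / D) =
        w * M * (Y ^ 2 * S) / ((1 - h * Y) * D) := by
      have e5 : Y ^ 2 * S = Y * ((1 + q) * D - N * (1 - h * Y)) := by rw [key]; ring
      rw [e5]
      have hA1 := hA.ne'
      have hD1 := hDpos.ne'
      clear_value D N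
      generalize 1 - h * Y = A at hA1 ⊢
      field_simp
    have h6 : 0 ≤ w * M * (Y ^ 2 * S) / ((1 - h * Y) * D) := by positivity
    linarith

/-- the uniform criterion -/
def Star (h q c Ym : ℝ) : Prop :=
  (1 + c) ^ 2 / c * q * (1 + q) ≤ (1 - h * Ym) * (h - c * (1 + q) + q / c)

/-- the criterion is monotone in `q` and `c` -/
theorem Star.mono {h q c Ym q' c' : ℝ} (hs : Star h q c Ym) (hc' : 1 ≤ c') (hcc : c' ≤ c)
    (hq' : 0 ≤ q') (hqq : q' ≤ q) (h1 : h * Ym < 1) : Star h q' c' Ym := by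
  unfold Star at *
  have hc0 : 0 < c := by linarith
  have hc0' : 0 < c' := by linarith
  have hM : ∀ x : ℝ, 0 < x → (1 + x) ^ 2 / x = x + 2 + 1 / x := by
    intro x hx; field_simp; ring
  have hinv : 1 / c ≤ 1 / c' := one_div_le_one_div_of_le hc0' hcc
  have hinv1 : 1 / c' ≤ 1 := by
    rw [div_le_one hc0']; exact hc'
  have hMM : (1 + c') ^ 2 / c' ≤ (1 + c) ^ 2 / c := by
    rw [div_le_div_iff₀ hc0' hc0]
    nlinarith [mul_nonneg (sub_nonneg.2 hcc) (sub_nonneg.2 (by nlinarith : 1 ≤ c * c'))]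
  have h2 : (1 + c') ^ 2 / c' * q' * (1 + q') ≤ (1 + c) ^ 2 / c * q * (1 + q) := by
    have hp1 : 0 ≤ (1 + c') ^ 2 / c' := by positivity
    have hp2 : 0 ≤ (1 + c) ^ 2 / c := by positivity
    apply mul_le_mul (mul_le_mul hMM hqq hq' hp2) (by linarith) (by linarith)
    exact mul_nonneg hp2 (by linarith)
  have h3 : h - c * (1 + q) + q / c ≤ h - c' * (1 + q') + q' / c' := by
    have e1 : c * (1 + q) - q / c = c + q * (c - 1 / c) := by field_simp; ring
    have e2 : c' * (1 + q') - q' / c' = c' + q' * (c' - 1 / c') := by field_simp; ring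
    have h4 : c' - 1 / c' ≤ c - 1 / c := by linarith
    have h5 : 0 ≤ c' - 1 / c' := by linarith
    have h6 : q' * (c' - 1 / c') ≤ q * (c - 1 / c) := mul_le_mul hqq h4 h5 (by linarith)
    linarith
  calc _ ≤ (1 + c) ^ 2 / c * q * (1 + q) := h2
    _ ≤ (1 - h * Ym) * (h - c * (1 + q) + q / c) := hs
    _ ≤ _ := mul_le_mul_of_nonneg_left h3 (by linarith)

theorem Star.ge {h q c Ym : ℝ} (hs : Star h q c Ym) (hc : 1 ≤ c) (hq : 0 ≤ q)
    (h1 : h * Ym < 1) (h0 : 0 ≤ h * Ym) : c + (1 + c) ^ 2 / c * q ≤ h := by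
  unfold Star at hs
  have hc0 : 0 < c := by linarith
  have hinv1 : 1 / c ≤ 1 := by
    rw [div_le_one hc0]; exact hc
  have hM : 0 ≤ (1 + c) ^ 2 / c := by positivity
  have hL : 0 ≤ (1 + c) ^ 2 / c * q * (1 + q) := by positivity
  have h2 : 0 ≤ h - c * (1 + q) + q / c := by
    by_contra hcon
    push Not at hcon
    nlinarith
  have h3 : (1 - h * Ym) * (h - c * (1 + q) + q / c) ≤ h - c * (1 + q) + q / c := by nlinarith
  have e1 : c * (1 + q) - q / c = c + q * (c - 1 / c) := by field_simp; ring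
  have h5 : 0 ≤ q * (c - 1 / c) := mul_nonneg hq (by linarith)
  have h6 : (1 + c) ^ 2 / c * q ≤ (1 + c) ^ 2 / c * q * (1 + q) :=
    le_mul_of_one_le_right (by positivity) (by linarith)
  linarith

/-- `lam_j = w_j (1 + c_j)² / c_j` -/
noncomputable def lam (n : ℕ) (p a : ℝ) (b : ℕ → ℝ) (j : ℕ) : ℝ :=
  wj n p b j * ((1 + cj a j) ^ 2 / cj a j)

/-- `Lam_j = ∑_{j ≤ i < n} lam_i` -/
noncomputable def Lam (n : ℕ) (p a : ℝ) (b : ℕ → ℝ) (j : ℕ) : ℝ :=
  ∑ i ∈ Finset.Ico j n, lam n p a b i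

variable {n k : ℕ} {a p : ℝ} {b : ℕ → ℝ}

theorem Lam_step {j : ℕ} (hj : j < n) : Lam n p a b j = lam n p a b j + Lam n p a b (j + 1) := by
  unfold Lam
  rw [Finset.sum_eq_sum_Ico_succ_bot hj]

theorem Lam_end {j : ℕ} (hj : n ≤ j) : Lam n p a b j = 0 := by
  unfold Lam
  rw [Finset.Ico_eq_empty_of_le hj, Finset.sum_empty]

theorem wj_pos (hp : p = 1 / a) (h0 : 1 / 2 < a) (hb : ∀ j, 0 ≤ b j) (hbn : 0 < b n) {j : ℕ}
    (hj : j < n) : 0 < wj n p b j := by
  have hp2 : 0 < 2 - p := by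
    rw [hp, sub_pos, div_lt_iff₀ (by linarith)]; linarith
  have hF : 0 < Ft n b j := by
    unfold Ft
    exact Finset.sum_pos' (fun _ _ => hb _) ⟨n, Finset.mem_Ioc.2 ⟨hj, le_rfl⟩, hbn⟩
  unfold wj
  positivity

theorem lam_pos (hp : p = 1 / a) (h0 : 1 / 2 < a) (h1 : a < 1) (hb : ∀ j, 0 ≤ b j)
    (hbn : 0 < b n) {j : ℕ} (hj : j < n) : 0 < lam n p a b j := by
  have h2 := wj_pos hp h0 hb hbn hj
  have h3 := cj_pos (by linarith : 0 < a) h1 j
  unfold lam
  positivity

theorem Lam_nonneg (hp : p = 1 / a) (h0 : 1 / 2 < a) (h1 : a < 1) (hb : ∀ j, 0 ≤ b j)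
    (hbn : 0 < b n) (j : ℕ) : 0 ≤ Lam n p a b j :=
  Finset.sum_nonneg fun _ hi => (lam_pos hp h0 h1 hb hbn (Finset.mem_Ico.1 hi).2).le

theorem cj_anti (h0 : 1 / 2 < a) (h1 : a < 1) {j k : ℕ} (hkj : k ≤ j) : cj a j ≤ cj a k := by
  unfold cj
  have hj : (0 : ℝ) ≤ j := Nat.cast_nonneg j
  have hk : (0 : ℝ) ≤ k := Nat.cast_nonneg k
  have hkj' : (k : ℝ) ≤ j := by exact_mod_cast hkj
  rw [div_le_div_iff₀ (by linarith) (by linarith)]
  nlinarith

/-- **(T3)** `QForm` from functions `κ_j` (exact or majorants) for `j < k` and the uniform tail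
`κ_j(Y) = Lam_j / (1 - h Y)` for `j ≥ k`. -/
theorem qform_kap {smax Ym h q : ℝ} (hp : p = 1 / a) (h0 : 1 / 2 < a) (h1 : a < 1)
    (hb : ∀ j, 0 ≤ b j) (hbn : 0 < b n) (hkn : k ≤ n) (hYm0 : 0 ≤ Ym) (hs : smax ≤ a * (1 + Ym))
    (hhY : h * Ym < 1)
    (hq : ∀ j, k ≤ j → j < n → Lam n p a b (j + 1) ≤ q * lam n p a b j)
    (star : k < n → Star h q (cj a k) Ym)
    (κ : ℕ → ℝ → ℝ) (hκ : ∀ j, k ≤ j → ∀ Y, κ j Y = Lam n p a b j / (1 - h * Y))
    (hpos : ∀ j, j < k → ∀ Y ∈ Icc (-1 : ℝ) Ym,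
      0 < 1 - cj a j * Y - Y * κ (j + 1) Y / wj n p b j)
    (hstep : ∀ j, j < k → ∀ Y ∈ Icc (-1 : ℝ) Ym,
      Y * kst (wj n p b j) (cj a j) Y (κ (j + 1) Y) ≤ Y * κ j Y)
    (hcont : ContinuousOn (κ 0) (Icc (-1 : ℝ) Ym)) :
    QForm n p smax (thj n a b) (Bj n a b)
      (fun s => ∑ j ∈ Finset.range (n + 1), b j + (s - a) * κ 0 ((s - a) / a)) := by
  have ha : 0 < a := by linarith
  have hmem : ∀ s ∈ Icc (0 : ℝ) smax, (s - a) / a ∈ Icc (-1 : ℝ) Ym := by
    intro s hs'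
    constructor
    · rw [le_div_iff₀ ha]; linarith [hs'.1]
    · rw [div_le_iff₀ ha]
      have := hs'.2
      linarith
  have hsY : ∀ s : ℝ, s - a = a * ((s - a) / a) := by
    intro s; field_simp
  -- the tail steps
  have htail : ∀ j, k ≤ j → j < n → ∀ Y ∈ Icc (-1 : ℝ) Ym,
      0 < 1 - cj a j * Y - Y * κ (j + 1) Y / wj n p b j ∧
      Y * kst (wj n p b j) (cj a j) Y (κ (j + 1) Y) ≤ Y * κ j Y := by
    intro j hkj hj Y hY
    have hst := star (lt_of_le_of_lt hkj hj)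
    have hc1 := one_le_cj h0.le h1 j
    have hcc := cj_anti h0 h1 hkj
    have hl := lam_pos hp h0 h1 hb hbn hj
    have hL := Lam_nonneg hp h0 h1 hb hbn (j + 1)
    set qj : ℝ := Lam n p a b (j + 1) / lam n p a b j with hqj
    have hqj0 : 0 ≤ qj := div_nonneg hL hl.le
    have hqjq : qj ≤ q := by rw [hqj, div_le_iff₀ hl]; exact hq j hkj hj
    have hLq : Lam n p a b (j + 1) = qj * (wj n p b j * ((1 + cj a j) ^ 2 / cj a j)) := by
      rw [hqj]
      unfold lam at hl ⊢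
      rw [div_mul_cancel₀ _ hl.ne']
    have hst' : Star h qj (cj a j) Ym := hst.mono hc1 hcc hqj0 hqjq hhY
    have hh0 : 0 ≤ h := by
      by_contra hcon
      push Not at hcon
      unfold Star at hst'
      have hcpos : 0 < cj a j := by linarith
      have e1 : cj a j * (1 + qj) - qj / cj a j = cj a j + qj * (cj a j - 1 / cj a j) := by
        field_simp; ring
      have hinv1 : 1 / cj a j ≤ 1 := by
        rw [div_le_one hcpos]; exact hc1
      have h5 : 0 ≤ qj * (cj a j - 1 / cj a j) := mul_nonneg hqj0 (by linarith)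
      have h6 : h - cj a j * (1 + qj) + qj / cj a j < 0 := by linarith
      have h7 : 0 ≤ (1 + cj a j) ^ 2 / cj a j * qj * (1 + qj) := by positivity
      have h8 : 0 < 1 - h * Ym := by nlinarith
      nlinarith
    have hge := hst'.ge hc1 hqj0 hhY (mul_nonneg hh0 hYm0)
    have hstar' : (1 + cj a j) ^ 2 / cj a j * qj * (1 + qj) +
        qj * (h - 1 / cj a j) * (1 - h * Ym) ≤ (h - cj a j) * (1 - h * Ym) * (1 + qj) := by
      unfold Star at hst'
      have e2 : (h - cj a j) * (1 - h * Ym) * (1 + qj) - qj * (h - 1 / cj a j) * (1 - h * Ym) =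
          (1 - h * Ym) * (h - cj a j * (1 + qj) + qj / cj a j) := by ring
      linarith
    have hw := wj_pos hp h0 hb hbn hj
    have key := tail_step hw hc1 hqj0 hge hh0 hYm0 hhY hhY hstar' hY.1 hY.2
    have e3 : κ (j + 1) Y =
        qj * (wj n p b j * ((1 + cj a j) ^ 2 / cj a j)) / (1 - h * Y) := by
      rw [hκ (j + 1) (by omega) Y, hLq]
    have e4 : κ j Y = (1 + qj) * (wj n p b j * ((1 + cj a j) ^ 2 / cj a j)) / (1 - h * Y) := by
      rw [hκ j hkj Y, Lam_step hj, hLq]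
      unfold lam
      ring
    rw [e3, e4]
    exact key
  have hall : ∀ j, j < n → ∀ Y ∈ Icc (-1 : ℝ) Ym,
      0 < 1 - cj a j * Y - Y * κ (j + 1) Y / wj n p b j ∧
      Y * kst (wj n p b j) (cj a j) Y (κ (j + 1) Y) ≤ Y * κ j Y := by
    intro j hj Y hY
    rcases lt_or_ge j k with hjk | hjk
    · exact ⟨hpos j hjk Y hY, hstep j hjk Y hY⟩
    · exact htail j hjk hj Y hY
  refine Ric.qform hp h0 h1 hb (fun j s => (s - a) * κ j ((s - a) / a)) ?_ ?_ ?_ ?_
  · refine ContinuousOn.mul (by fun_prop) ?_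
    exact hcont.comp (by fun_prop) hmem
  · intro s _
    rw [hκ n hkn, Lam_end le_rfl]
    simp
  · intro s hs' j hj
    have hw := wj_pos hp h0 hb hbn hj
    have h2 := ric_pos ha hw (hall j hj _ (hmem s hs')).1
    have h3 := hsY s
    rw [← h3] at h2
    linarith [mul_comm (s - a) (cj a j)]
  · intro s hs' j hj
    have hw := wj_pos hp h0 hb hbn hj
    have hY := hmem s hs'
    have hc := cj_pos ha h1 j
    have h2 := hall j hj _ hY
    have h3 := hsY s
    have h4 := ric_eq (a := a) ha.ne' hw.ne' hc.ne' h2.1.ne'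
    rw [← h3] at h4
    rw [h4]
    calc (s - a) * kst (wj n p b j) (cj a j) ((s - a) / a) (κ (j + 1) ((s - a) / a))
        = a * ((s - a) / a * kst (wj n p b j) (cj a j) ((s - a) / a)
            (κ (j + 1) ((s - a) / a))) := by rw [← mul_assoc, ← h3]
      _ ≤ a * ((s - a) / a * κ j ((s - a) / a)) := mul_le_mul_of_nonneg_left h2.2 ha.le
      _ = (s - a) * κ j ((s - a) / a) := by rw [← mul_assoc, ← h3]

/-- exact Riccati recursion on top of the tail, `i` steps below level `k` -/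
noncomputable def kx (n k : ℕ) (p a : ℝ) (b : ℕ → ℝ) (h : ℝ) : ℕ → ℝ → ℝ
  | 0 => fun Y => Lam n p a b k / (1 - h * Y)
  | i + 1 => fun Y => kst (wj n p b (k - (i + 1))) (cj a (k - (i + 1))) Y (kx n k p a b h i Y)

/-- `κ_j`: exact for `j < k`, tail for `j ≥ k` -/
noncomputable def kk (n k : ℕ) (p a : ℝ) (b : ℕ → ℝ) (h : ℝ) (j : ℕ) (Y : ℝ) : ℝ :=
  if k ≤ j then Lam n p a b j / (1 - h * Y) else kx n k p a b h (k - j) Y

theorem kk_tail {h : ℝ} {j : ℕ} (hj : k ≤ j) (Y : ℝ) :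
    kk n k p a b h j Y = Lam n p a b j / (1 - h * Y) := by
  unfold kk; rw [if_pos hj]

theorem kk_step {h : ℝ} {j : ℕ} (hj : j < k) (Y : ℝ) :
    kk n k p a b h j Y = kst (wj n p b j) (cj a j) Y (kk n k p a b h (j + 1) Y) := by
  unfold kk
  rw [if_neg (by omega)]
  obtain ⟨i, hi⟩ : ∃ i, k - j = i + 1 := ⟨k - j - 1, by omega⟩
  rw [hi]
  simp only [kx]
  have h1 : k - (i + 1) = j := by omega
  rw [h1]
  by_cases h2 : k ≤ j + 1
  · rw [if_pos h2]
    have h3 : i = 0 := by omega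
    have h4 : k = j + 1 := by omega
    subst h3
    simp only [kx]
    rw [h4]
  · rw [if_neg h2]
    have h3 : k - (j + 1) = i := by omega
    rw [h3]

/-- **(T3)**, exact form: `κ_j = kk n k p a b h j` -/
theorem qform_exact {smax Ym h q : ℝ} (hp : p = 1 / a) (h0 : 1 / 2 < a) (h1 : a < 1)
    (hb : ∀ j, 0 ≤ b j) (hbn : 0 < b n) (hkn : k ≤ n) (hYm0 : 0 ≤ Ym) (hs : smax ≤ a * (1 + Ym))
    (hh0 : 0 ≤ h) (hhY : h * Ym < 1)
    (hq : ∀ j, k ≤ j → j < n → Lam n p a b (j + 1) ≤ q * lam n p a b j)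
    (star : k < n → Star h q (cj a k) Ym)
    (hpos : ∀ j, j < k → ∀ Y ∈ Icc (-1 : ℝ) Ym,
      0 < 1 - cj a j * Y - Y * kk n k p a b h (j + 1) Y / wj n p b j) :
    QForm n p smax (thj n a b) (Bj n a b)
      (fun s => ∑ j ∈ Finset.range (n + 1), b j +
        (s - a) * kk n k p a b h 0 ((s - a) / a)) := by
  have htc : ∀ j, ContinuousOn (fun Y => Lam n p a b j / (1 - h * Y)) (Icc (-1 : ℝ) Ym) := by
    intro j
    refine ContinuousOn.div (by fun_prop) (by fun_prop) fun Y hY => ?_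
    have : h * Y ≤ h * Ym := mul_le_mul_of_nonneg_left hY.2 hh0
    intro h2
    linarith
  have hcont : ∀ i, i ≤ k → ContinuousOn (kk n k p a b h (k - i)) (Icc (-1 : ℝ) Ym) := by
    intro i
    induction i with
    | zero =>
      intro _
      exact (htc k).congr fun Y _ => kk_tail le_rfl Y
    | succ m ih =>
      intro hm
      have h2 := ih (by omega)
      have h3 : k - m = k - (m + 1) + 1 := by omega
      rw [h3] at h2
      have hj : k - (m + 1) < k := by omega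
      refine ContinuousOn.congr ?_ fun Y _ => kk_step hj Y
      unfold kst
      refine ContinuousOn.div ?_ ?_ fun Y hY => (hpos _ hj Y hY).ne'
      · exact continuousOn_const.add (ContinuousOn.mul (by fun_prop) h2)
      · exact ContinuousOn.sub (by fun_prop) ((continuousOn_id.mul h2).div_const _)
  have hc0 := hcont k le_rfl
  rw [Nat.sub_self] at hc0
  exact qform_kap hp h0 h1 hb hbn hkn hYm0 hs hhY hq star (kk n k p a b h)
    (fun j hj Y => kk_tail hj Y) hpos (fun j hj Y _ => by rw [kk_step hj Y]) hc0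

end Pool.Agent.Lib.QNL.Tail35
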