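import Pool.Agent.Lib.QNL.CertG95
import Pool.Agent.Lib.QNL.Tail35
import Pool.Agent.Lib.QNL.FinN

/-!
Group N, glue: from a tail supersolution (levels `j ≥ 1`), one exact Riccati step at level `0`,
a retained kernel and the normalised one-variable inequality to `CertG`.
-/

set_option autoImplicit false

namespace Pool.Agent.Lib.QNL.CG

open MeasureTheory Set Filter Topology Finset
open Pool.Agent.Lib.QNL
open Pool.Agent.Lib.QNL.Wts73
open Pool.Agent.Lib.QNL.Ric (Ft wj thj Bj cj Cj cj_pos one_le_cj)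
open Pool.Agent.Lib.QNL.Tail35

/-- the levels `j ≥ 1` are dominated: `W_1(s) ≤ a Y κ1(Y)`, `s = a(1+Y)`, `Y ∈ [-1, Ym]` -/
def Tail1 (n : ℕ) (p a : ℝ) (b : ℕ → ℝ) (Ym : ℝ) (κ1 : ℝ → ℝ) : Prop :=
  ∃ (k : ℕ) (h q : ℝ) (κ : ℕ → ℝ → ℝ), 1 ≤ k ∧ k ≤ n ∧ h * Ym < 1 ∧
    (∀ j, k ≤ j → j < n → Lam n p a b (j + 1) ≤ q * lam n p a b j) ∧
    (k < n → Star h q (cj a k) Ym) ∧
    (∀ j, k ≤ j → ∀ Y, κ j Y = Lam n p a b j / (1 - h * Y)) ∧
    (∀ Y, κ 1 Y = κ1 Y) ∧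
    (∀ j, 1 ≤ j → j < k → ∀ Y ∈ Icc (-1 : ℝ) Ym,
      0 < 1 - cj a j * Y - Y * κ (j + 1) Y / wj n p b j) ∧
    (∀ j, 1 ≤ j → j < k → ∀ Y ∈ Icc (-1 : ℝ) Ym,
      Y * kst (wj n p b j) (cj a j) Y (κ (j + 1) Y) ≤ Y * κ j Y)

/-- one pole already at level `1` -/
theorem tail1_of_star {n : ℕ} {p a Ym h q : ℝ} {b : ℕ → ℝ} (hn : 1 ≤ n) (hh : h * Ym < 1)
    (hq : ∀ j, 1 ≤ j → j < n → Lam n p a b (j + 1) ≤ q * lam n p a b j)
    (hs : Star h q (cj a 1) Ym) :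
    Tail1 n p a b Ym (fun Y => Lam n p a b 1 / (1 - h * Y)) :=
  ⟨1, h, q, fun j Y => Lam n p a b j / (1 - h * Y), le_rfl, hn, hh, hq, fun _ => hs,
    fun _ _ _ => rfl, fun _ => rfl, fun j h1 h2 => by omega, fun j h1 h2 => by omega⟩

/-- `QForm` with one exact step at level `0` on top of `Tail1` -/
theorem qform_tail1 {n : ℕ} {p a Ym smax : ℝ} {b : ℕ → ℝ} (hp : p = 1 / a) (h0 : 1 / 2 < a)
    (h1 : a < 1) (hb : ∀ j, 0 ≤ b j) (hbn : 0 < b n) (hYm0 : 0 ≤ Ym) (hs : smax ≤ a * (1 + Ym))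
    {κ1 : ℝ → ℝ} (ht : Tail1 n p a b Ym κ1)
    (hpos : ∀ Y ∈ Icc (-1 : ℝ) Ym, 0 < 1 - cj a 0 * Y - Y * κ1 Y / wj n p b 0)
    (hc : ContinuousOn κ1 (Icc (-1 : ℝ) Ym)) :
    QForm n p smax (thj n a b) (Bj n a b)
      (fun s => ∑ j ∈ Finset.range (n + 1), b j +
        (s - a) * kst (wj n p b 0) (cj a 0) ((s - a) / a) (κ1 ((s - a) / a))) := by
  obtain ⟨k, h, q, κ, hk1, hkn, hh, hq, hst, hκ, hκ1, hp1, hs1⟩ := ht
  set κ' : ℕ → ℝ → ℝ := fun j => if j = 0 then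
    (fun Y => kst (wj n p b 0) (cj a 0) Y (κ1 Y)) else κ j with hκ'
  have e0 : κ' 0 = fun Y => kst (wj n p b 0) (cj a 0) Y (κ1 Y) := by simp [hκ']
  have ej : ∀ j, κ' (j + 1) = κ (j + 1) := by intro j; simp [hκ']
  have hw0 : 0 < wj n p b 0 := wj_pos hp h0 hb hbn (by omega)
  have key := qform_kap (k := k) hp h0 h1 hb hbn hkn hYm0 hs hh hq hst κ' ?_ ?_ ?_ ?_
  · rw [e0] at key
    exact key
  · intro j hj Y
    obtain ⟨i, rfl⟩ : ∃ i, j = i + 1 := ⟨j - 1, by omega⟩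
    rw [ej]
    exact hκ _ hj Y
  · intro j hj Y hY
    rcases Nat.eq_zero_or_pos j with rfl | hj0
    · rw [ej, hκ1]
      exact hpos Y hY
    · rw [ej]
      exact hp1 j hj0 hj Y hY
  · intro j hj Y hY
    rcases Nat.eq_zero_or_pos j with rfl | hj0
    · rw [ej, hκ1, e0]
    · obtain ⟨i, rfl⟩ : ∃ i, j = i + 1 := ⟨j - 1, by omega⟩
      rw [ej, ej]
      exact hs1 _ hj0 hj Y hY
  · rw [e0]
    unfold kst
    apply ContinuousOn.div
    · exact continuousOn_const.add (((continuousOn_const.sub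
        (continuousOn_id.div_const _))).mul hc)
    · exact (continuousOn_const.sub (continuousOn_const.mul continuousOn_id)).sub
        ((continuousOn_id.mul hc).div_const _)
    · intro Y hY
      exact (hpos Y hY).ne'

/-- **from the normalised inequality to `CertG`**. `T = zz a c` is the total mass, `K T` the
retained mass, `e T / 2` the loss of the retention, `κ1` the bound of the levels `≥ 1`. -/
theorem certG_of {n : ℕ} {p a c w Ym K e L : ℝ} {κ1 k1 : ℝ → ℝ} (hn : 1 ≤ n) (hp : p = 1 / a)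
    (h0 : 1 / 2 < a) (h1 : a < 1) (hc : 1 ≤ c) (hw0 : 0 < w) (hr : a ≤ 1 - w)
    (hYm : w / (1 - w) < Ym)
    (ht : Tail1 n p a (bs n a c) Ym κ1)
    (hpos : ∀ Y ∈ Icc (-1 : ℝ) Ym, 0 < 1 - cj a 0 * Y - Y * κ1 Y / wj n p (bs n a c) 0)
    (hcont : ContinuousOn κ1 (Icc (-1 : ℝ) Ym))
    (hk0 : ∀ l, 0 < l → 0 ≤ k1 l) (hk1 : ∀ l, 0 < l → k1 l ≤ kh a c l)
    (hk2 : AntitoneOn k1 (Ioi 0)) (hK : ∫ l in Ioi (0 : ℝ), k1 l = K * zz a c)
    (he : 2 * ∫ l in Ioi (0 : ℝ), k1 l * (Real.exp (w / (1 - w) * l / 2) - 1) = e * zz a c)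
    (hL : 0 ≤ L)
    (hTOP : ∀ x Y : ℝ, 0 ≤ x → w * x ^ ((1 - w) / a) ≤ 1 →
      Y = w / (1 - w) * (1 - x ^ ((1 - w) / a)) →
      x ^ 2 * (1 - K + (2 * a - 1) * e +
          a * Y * kst (wj n p (bs n a c) 0) (cj a 0) Y (κ1 Y) / zz a c) +
        (1 - K) * ((2 * a - 1) - 2 * a * x ^ p) - (2 * a - 1) * e -
        (L - 2 * ((2 * a - 1) * e) / w) * (a * Y) ≤ 0) :
    CertG n p c ((1 - w) / a) (a * (1 + Ym)) (L * zz a c)
      (fun s => ∑ j ∈ Finset.range (n + 1), bs n a c j +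
        (s - a) * kst (wj n p (bs n a c) 0) (cj a 0) ((s - a) / a) (κ1 ((s - a) / a))) k1 := by
  have ha : 0 < a := by linarith
  have hw1 : 0 < 1 - w := by linarith
  have hpa : 1 / p = a := by rw [hp]; field_simp
  have hp2 : p < 2 := by
    rw [hp, div_lt_iff₀ ha]; linarith
  have hp0 : 0 < p := by rw [hp]; positivity
  have hc0 : 0 < c := by linarith
  have hb : ∀ j, 0 ≤ bs n a c j := fun j => bs_nonneg ha h1 hc0 n j
  have hbn : 0 < bs n a c n := by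
    unfold bs
    rw [if_neg (lt_irrefl n), if_pos rfl]
    exact Tl_pos ha h1 hc0 _
  have hkk : 0 < w / (1 - w) := by positivity
  have hYm0 : 0 ≤ Ym := by linarith
  have hT : 0 < zz a c := zz_pos ha h1 hc0
  have hr0 : 0 < (1 - w) / a := by positivity
  have hrp : (1 - w) / a / p = 1 - w := by
    rw [hp]; field_simp
  have hw' : 1 - (1 - w) / a / p = w := by rw [hrp]; ring
  have h1r : 1 / ((1 - w) / a) = a * (1 + w / (1 - w)) := by field_simp; ring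
  have hsm : 1 / ((1 - w) / a) < a * (1 + Ym) := by
    rw [h1r]
    exact mul_lt_mul_of_pos_left (by linarith) ha
  have hQ := qform_tail1 (smax := a * (1 + Ym)) hp h0 h1 hb hbn hYm0 le_rfl ht hpos hcont
  refine ⟨hc, ?_, ?_, hsm, mul_nonneg hL hT.le, ?_, ?_, hk0, ?_, hk2, ?_⟩
  · rw [le_div_iff₀ ha]; linarith
  · rw [hp, div_lt_div_iff_of_pos_right ha]; linarith
  · rw [hpa]; exact hQ
  · intro s hs
    exact FinN.QForm.nonneg hp2 hQ ⟨hs.1, hs.2.trans hsm.le⟩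
  · rw [hpa]; exact hk1
  · intro y hy hwy
    rw [hw'] at hwy ⊢
    have hpr : p / ((1 - w) / a) - 1 = w / (1 - w) := by
      rw [hp]; field_simp; ring
    have h2p : 2 / p = 2 * a := by rw [hp]; field_simp
    rw [hpr, hpa, h2p]
    set r := (1 - w) / a with hrdef
    set Y := w / (1 - w) * (1 - y ^ r) with hY
    have hs : (1 - w * y ^ r) / r - a = a * Y := by
      rw [hY, hrdef]; field_simp; ring
    have hsY : a * Y / a = Y := by field_simp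
    have hsum : ∑ j ∈ Finset.range (n + 1), bs n a c j = zz a c := sum_bs hn a c
    simp only [hsum, hs, hsY, hK]
    have h := hTOP y Y hy hwy hY
    have hYr : 2 / r * (y ^ r - 1) = - (2 / w) * (a * Y) := by
      rw [hY, hrdef]; field_simp; ring
    rw [hYr]
    set S := kst (wj n p (bs n a c) 0) (cj a 0) Y (κ1 Y) with hS
    have h2 := mul_le_mul_of_nonneg_left h hT.le
    rw [mul_zero] at h2
    obtain ⟨D, hD⟩ : ∃ D, D = a * Y * S / zz a c := ⟨_, rfl⟩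
    have e1 : zz a c * D = a * Y * S := by rw [hD]; field_simp
    rw [← hD] at h2
    have e3 : zz a c * (y ^ 2 * (1 - K + (2 * a - 1) * e + D) +
        (1 - K) * ((2 * a - 1) - 2 * a * y ^ p) - (2 * a - 1) * e -
        (L - 2 * ((2 * a - 1) * e) / w) * (a * Y)) =
        (zz a c + a * Y * S - K * zz a c) * y ^ 2 +
        (2 * a - 1) * (e * zz a c) * (y ^ 2 - 1 - -(2 / w) * (a * Y)) +
        (zz a c - K * zz a c) * ((2 * a - 1) - 2 * a * y ^ p) - L * zz a c * (a * Y) := by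
      rw [← e1]; ring
    rw [e3, ← he] at h2
    have e4 : ∀ I : ℝ, 2 * (2 * a - 1) * I = (2 * a - 1) * (2 * I) := fun I => by ring
    rw [e4]
    linarith

end Pool.Agent.Lib.QNL.CG
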