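import Mathlib

/-!
# QNL, group O: the bad levels are null, and Sard's theorem

`u L z`: the obstacle family (level `L > 0`), convex and decreasing in `L`.
`KK u L ε` is the set where the left difference quotients in `L` are at least `ε`; it contains the
set where the (right) derivative `ψ` is at least `ε`.

* `ae_compact`: for a.e. level `L`, all the sets `KK u L ε` are compact subsets of `{u L > 0}`
* `sard_crit`: the set of critical values of a `C²` function on an open subset of the plane is null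
* `ae_regular`: for a.e. `ε`, for a.e. `L`, the level `ε` is regular for `ψ L`
-/

set_option autoImplicit false

namespace Pool.Agent.Lib.QNL.Cpt20

open MeasureTheory Set Filter Topology

/-- the 2-Hölder lemma (Sard58) -/
def StmtSard2 : Prop := ∀ (W : Set ℂ) (t : ℂ → ℝ) (K : ℝ),
  (∀ z ∈ W, ∀ w ∈ W, |t z - t w| ≤ K * ‖z - w‖ ^ 2) → volume (t '' W) = 0

/-- the properties of the obstacle family which are used here -/
structure Fam (u : ℝ → ℂ → ℝ) : Prop where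
  nonneg : ∀ L z, 0 < L → 0 ≤ u L z
  cont : ∀ L, 0 < L → Continuous (u L)
  conv : ∀ z, ConvexOn ℝ (Ioi 0) (fun L => u L z)
  anti : ∀ z, AntitoneOn (fun L => u L z) (Ioi 0)
  bdd : ∀ L, 0 < L → Bornology.IsBounded {z | 0 < u L z}
  grow : ∀ L0, 0 < L0 → ∃ C, ∀ L z w, L0 ≤ L → u L w = 0 → u L z ≤ C * ‖z - w‖ ^ 2

/-- the set where the left difference quotients in the level are at least `ε` -/
def KK (u : ℝ → ℂ → ℝ) (L ε : ℝ) : Set ℂ := {z | ∀ h ∈ Ioo 0 L, ε * h ≤ u (L - h) z - u L z}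

variable {u : ℝ → ℂ → ℝ}

theorem isClosed_KK (hu : Fam u) {L : ℝ} (hL : 0 < L) (ε : ℝ) : IsClosed (KK u L ε) := by
  have : KK u L ε = ⋂ h ∈ Ioo 0 L, {z | ε * h ≤ u (L - h) z - u L z} := by
    ext z
    simp only [KK, mem_ofPred_eq, mem_iInter]
  rw [this]
  refine isClosed_biInter fun h hh => ?_
  exact isClosed_le continuous_const
    ((hu.cont (L - h) (by linarith [hh.2])).sub (hu.cont L hL))

theorem isCompact_KK (hu : Fam u) {L ε : ℝ} (hL : 0 < L) (hε : 0 < ε) : IsCompact (KK u L ε) := by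
  refine Metric.isCompact_of_isClosed_isBounded (isClosed_KK hu hL ε) ?_
  refine (hu.bdd (L / 2) (by linarith)).subset fun z hz => ?_
  have h1 := hz (L / 2) ⟨by linarith, by linarith⟩
  have h2 := hu.nonneg L z hL
  have h3 : L - L / 2 = L / 2 := by ring
  rw [h3] at h1
  have h4 : 0 < ε * (L / 2) := by positivity
  simp only [mem_ofPred_eq]
  linarith

/-- a convex function: right quotients are smaller than left quotients -/
theorem quot_le (hu : Fam u) (z : ℂ) {L h k : ℝ} (hh : h ∈ Ioo 0 L) (hk : 0 < k) :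
    (u L z - u (L + k) z) / k ≤ (u (L - h) z - u L z) / h := by
  have h1 : (L - h) ∈ Ioi (0 : ℝ) := by simp only [mem_Ioi]; linarith [hh.2]
  have h2 : (L + k) ∈ Ioi (0 : ℝ) := by simp only [mem_Ioi]; linarith [hh.1, hh.2]
  have h3 := (hu.conv z).slope_mono_adjacent h1 h2 (by linarith [hh.1] : L - h < L)
    (by linarith : L < L + k)
  have e1 : L - (L - h) = h := by ring
  have e2 : L + k - L = k := by ring
  rw [e1, e2] at h3
  have e3 : (u L z - u (L + k) z) / k = -((u (L + k) z - u L z) / k) := by ring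
  have e4 : (u (L - h) z - u L z) / h = -((u L z - u (L - h) z) / h) := by ring
  rw [e3, e4]
  exact neg_le_neg h3

/-- the superlevel sets of the right derivative are contained in `KK` -/
theorem mem_KK (hu : Fam u) {z : ℂ} {L ε p : ℝ}
    (hp : IsLUB (range fun k : Ioi (0 : ℝ) => (u L z - u (L + k) z) / k) p) (hε : ε ≤ p) :
    z ∈ KK u L ε := by
  intro h hh
  have h1 : p ≤ (u (L - h) z - u L z) / h := by
    refine hp.2 ?_
    rintro _ ⟨k, rfl⟩
    exact quot_le hu z hh k.2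
  have h2 : 0 < h := hh.1
  have h3 := (hε.trans h1)
  rwa [le_div_iff₀ h2] at h3

/-- the arrival level -/
noncomputable def T (u : ℝ → ℂ → ℝ) (z : ℂ) : ℝ := sInf {s | 0 < s ∧ u s z = 0}

theorem T_eq {L ε : ℝ} (hL : 0 < L) (hε : 0 < ε) {z : ℂ} (h0 : u L z = 0)
    (hz : z ∈ KK u L ε) : T u z = L := by
  have : IsLeast {s | 0 < s ∧ u s z = 0} L := by
    refine ⟨⟨hL, h0⟩, ?_⟩
    rintro s ⟨hs, hs0⟩
    by_contra hlt
    push Not at hlt
    have h1 := hz (L - s) ⟨by linarith, by linarith⟩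
    have e : L - (L - s) = s := by ring
    rw [e, hs0, h0] at h1
    have : 0 < ε * (L - s) := mul_pos hε (by linarith)
    linarith
  exact this.csInf_eq

/-- the points which produce the bad levels -/
def Z (u : ℝ → ℂ → ℝ) (c : ℝ) : Set ℂ := {z | ∃ L, c ≤ L ∧ u L z = 0 ∧ z ∈ KK u L c}

theorem holder (hu : Fam u) {c : ℝ} (hc : 0 < c) :
    ∃ K : ℝ, ∀ z ∈ Z u c, ∀ w ∈ Z u c, |T u z - T u w| ≤ K * ‖z - w‖ ^ 2 := by
  obtain ⟨C, hC⟩ := hu.grow c hc
  refine ⟨|C| / c, ?_⟩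
  have key : ∀ z ∈ Z u c, ∀ w ∈ Z u c, T u z - T u w ≤ |C| / c * ‖z - w‖ ^ 2 := by
    rintro z ⟨Lz, hz1, hz2, hz3⟩ w ⟨Lw, hw1, hw2, hw3⟩
    have pz : 0 < Lz := hc.trans_le hz1
    have pw : 0 < Lw := hc.trans_le hw1
    rw [T_eq pz hc hz2 hz3, T_eq pw hc hw2 hw3]
    have hn : 0 ≤ |C| / c * ‖z - w‖ ^ 2 := by positivity
    rcases le_or_gt Lz Lw with h | h
    · linarith
    · have h1 := hC Lw z w hw1 hw2
      have h2 := hz3 (Lz - Lw) ⟨by linarith, by linarith⟩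
      have e : Lz - (Lz - Lw) = Lw := by ring
      rw [e, hz2, sub_zero] at h2
      have h3 : C * ‖z - w‖ ^ 2 ≤ |C| * ‖z - w‖ ^ 2 :=
        mul_le_mul_of_nonneg_right (le_abs_self C) (by positivity)
      have h4 : c * (Lz - Lw) ≤ |C| * ‖z - w‖ ^ 2 := h2.trans (h1.trans h3)
      rw [div_mul_eq_mul_div, le_div_iff₀ hc]
      linarith
  intro z hz w hw
  rw [abs_le]
  constructor
  · have := key w hw z hz
    rw [norm_sub_rev] at this
    linarith
  · exact key z hz w hw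

/-- the bad levels -/
def Bad (u : ℝ → ℂ → ℝ) : Set ℝ := {L | 0 < L ∧ ∃ ε > 0, ∃ z ∈ KK u L ε, u L z = 0}

theorem KK_anti {L ε δ : ℝ} (h : δ ≤ ε) : KK u L ε ⊆ KK u L δ := by
  intro z hz k hk
  have := hz k hk
  have h1 : δ * k ≤ ε * k := mul_le_mul_of_nonneg_right h hk.1.le
  linarith

theorem bad_null (hS : StmtSard2) (hu : Fam u) : volume (Bad u) = 0 := by
  have h1 : Bad u ⊆ ⋃ n : ℕ, T u '' Z u (1 / ((n : ℝ) + 1)) := by
    rintro L ⟨hL, ε, hε, z, hz, h0⟩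
    obtain ⟨n, hn⟩ := exists_nat_one_div_lt (lt_min hL hε)
    refine mem_iUnion.2 ⟨n, z, ⟨L, ?_, h0, ?_⟩, T_eq hL hε h0 hz⟩
    · exact hn.le.trans (min_le_left _ _)
    · exact KK_anti (hn.le.trans (min_le_right _ _)) hz
  refine measure_mono_null h1 (measure_iUnion_null fun n => ?_)
  have hc : (0 : ℝ) < 1 / ((n : ℝ) + 1) := by positivity
  obtain ⟨K, hK⟩ := holder hu hc
  exact hS _ _ K hK

/-- For a.e. level all the sets `KK u L ε` are compact subsets of `{u L > 0}`. -/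
theorem ae_compact (hS : StmtSard2) (hu : Fam u) :
    ∀ᵐ L ∂(volume.restrict (Ioi (0 : ℝ))), ∀ ε > 0, IsCompact (KK u L ε) ∧
      KK u L ε ⊆ {z | 0 < u L z} := by
  have h1 : ∀ᵐ L ∂(volume : Measure ℝ), L ∉ Bad u := by
    rw [ae_iff]
    simpa using bad_null hS hu
  rw [ae_restrict_iff' measurableSet_Ioi]
  filter_upwards [h1] with L hL hpos ε hε
  refine ⟨isCompact_KK hu hpos hε, fun z hz => ?_⟩
  simp only [mem_ofPred_eq]
  rcases (hu.nonneg L z hpos).eq_or_lt with h | h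
  · exact absurd ⟨hpos, ε, hε, z, hz, h.symm⟩ hL
  · exact h

/-- local form -/
theorem sard_loc {g : ℂ → ℝ} {z : ℂ} (hg : ContDiffAt ℝ 2 g z) :
    ∃ s ∈ 𝓝 z, ∃ K : ℝ, ∀ x ∈ s, ∀ y ∈ s, fderiv ℝ g x = 0 → fderiv ℝ g y = 0 →
      |g x - g y| ≤ K * ‖x - y‖ ^ 2 := by
  have h1 : ContDiffAt ℝ 1 (fderiv ℝ g) z := hg.fderiv_right (by norm_num)
  obtain ⟨K, t, ht, hK⟩ := h1.exists_lipschitzOnWith
  have h2 : ∀ᶠ x in 𝓝 z, DifferentiableAt ℝ g x := by
    have := hg.eventually (by simp)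
    filter_upwards [this] with x hx
    exact hx.differentiableAt (by norm_num)
  obtain ⟨r, hr, hb⟩ := Metric.mem_nhds_iff.1 (Filter.inter_mem ht h2)
  refine ⟨Metric.ball z r, Metric.ball_mem_nhds z hr, K, fun x hx y hy _ h0 => ?_⟩
  have hconv : Convex ℝ (segment ℝ x y) := convex_segment x y
  have hsub : segment ℝ x y ⊆ Metric.ball z r := (convex_ball z r).segment_subset hx hy
  have h3 : ∀ w ∈ segment ℝ x y, ‖fderiv ℝ g w‖ ≤ K * ‖x - y‖ := by
    intro w hw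
    have h4 := hK.dist_le_mul w (hb (hsub hw)).1 y (hb hy).1
    rw [h0, dist_zero_right, dist_eq_norm] at h4
    refine h4.trans (mul_le_mul_of_nonneg_left ?_ K.2)
    obtain ⟨a, b, ha, hb', hab, rfl⟩ := hw
    have e : a • x + b • y - y = a • (x - y) := by
      have : b = 1 - a := by linarith
      subst this
      simp only [Complex.real_smul, Complex.ofReal_sub, Complex.ofReal_one]
      ring
    rw [e, norm_smul, Real.norm_of_nonneg ha]
    calc a * ‖x - y‖ ≤ 1 * ‖x - y‖ :=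
          mul_le_mul_of_nonneg_right (by linarith) (norm_nonneg _)
      _ = ‖x - y‖ := one_mul _
  have h5 := hconv.norm_image_sub_le_of_norm_fderiv_le (𝕜 := ℝ) (f := g)
    (fun w hw => (hb (hsub hw)).2) h3 (right_mem_segment ℝ x y) (left_mem_segment ℝ x y)
  rw [Real.norm_eq_abs] at h5
  calc |g x - g y| ≤ K * ‖x - y‖ * ‖x - y‖ := h5
    _ = K * ‖x - y‖ ^ 2 := by ring

/-- Sard's theorem for `C²` functions in the plane. -/
theorem sard_crit (hS : StmtSard2) {O : Set ℂ} (hO : IsOpen O) {g : ℂ → ℝ}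
    (hg : ContDiffOn ℝ 2 g O) : volume (g '' {z | z ∈ O ∧ fderiv ℝ g z = 0}) = 0 := by
  have h1 : ∀ z ∈ O, ∃ s ∈ 𝓝 z, ∃ K : ℝ, ∀ x ∈ s, ∀ y ∈ s, fderiv ℝ g x = 0 →
      fderiv ℝ g y = 0 → |g x - g y| ≤ K * ‖x - y‖ ^ 2 :=
    fun z hz => sard_loc (hg.contDiffAt (hO.mem_nhds hz))
  choose! s hs K hK using h1
  obtain ⟨c, hc, hcount, hcov⟩ := TopologicalSpace.countable_cover_nhdsWithin
    (f := s) (s := O) (fun z hz => mem_nhdsWithin_of_mem_nhds (hs z hz))
  have h2 : g '' {z | z ∈ O ∧ fderiv ℝ g z = 0} ⊆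
      ⋃ x ∈ c, g '' {z | z ∈ s x ∧ fderiv ℝ g z = 0} := by
    rintro _ ⟨z, ⟨hz, hz0⟩, rfl⟩
    obtain ⟨x, hx, hzx⟩ := mem_iUnion₂.1 (hcov hz)
    exact mem_iUnion₂.2 ⟨x, hx, z, ⟨hzx, hz0⟩, rfl⟩
  refine measure_mono_null h2 ((measure_biUnion_null_iff hcount).2 fun x hx => ?_)
  refine hS _ _ (K x) ?_
  rintro z ⟨hz, hz0⟩ w ⟨hw, hw0⟩
  exact hK x (hc hx) z hz w hw hz0 hw0

theorem meas_of_anti {f : ℝ → ℝ} (hf : AntitoneOn f (Ioi 0)) :
    Measurable ((Ioi (0 : ℝ)).indicator f) := by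
  refine measurable_of_restrict_of_restrict_compl (measurableSet_Ioi (a := (0 : ℝ))) ?_ ?_
  · have e : (Ioi (0 : ℝ)).domRestrict ((Ioi (0 : ℝ)).indicator f) =
        fun x : Ioi (0 : ℝ) => f x := by
      funext x
      exact indicator_of_mem x.2 f
    rw [e]
    exact Antitone.measurable fun x y hxy => hf x.2 y.2 hxy
  · have e : (Ioi (0 : ℝ))ᶜ.domRestrict ((Ioi (0 : ℝ)).indicator f) = fun _ => (0 : ℝ) := by
      funext x
      exact indicator_of_notMem x.2 f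
    rw [e]
    exact measurable_const

variable {u ψ : ℝ → ℂ → ℝ}

/-- the right difference quotients increase for decreasing step -/
theorem quot_mono (hu : Fam u) (z : ℂ) {L j k : ℝ} (hL : 0 < L) (hj : 0 < j) (hjk : j ≤ k) :
    (u L z - u (L + k) z) / k ≤ (u L z - u (L + j) z) / j := by
  have hk : 0 < k := hj.trans_le hjk
  have h3 := (hu.conv z).secant_mono (a := L) (x := L + j) (y := L + k) (mem_Ioi.2 hL)
    (mem_Ioi.2 (by linarith)) (mem_Ioi.2 (by linarith)) (by intro h; linarith)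
    (by intro h; linarith) (by linarith)
  have e1 : L + j - L = j := by ring
  have e2 : L + k - L = k := by ring
  rw [e1, e2] at h3
  have e3 : (u L z - u (L + k) z) / k = -((u (L + k) z - u L z) / k) := by ring
  have e4 : (u L z - u (L + j) z) / j = -((u (L + j) z - u L z) / j) := by ring
  rw [e3, e4]
  exact neg_le_neg h3

/-- `ψ` is measurable in the level -/
theorem meas_psi (hu : Fam u)
    (hψ : ∀ L, 0 < L → ∀ z, IsLUB (range fun k : Ioi (0 : ℝ) => (u L z - u (L + k) z) / k) (ψ L z))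
    (z : ℂ) : Measurable ((Ioi (0 : ℝ)).indicator (fun L => ψ L z)) := by
  have hv := meas_of_anti (hu.anti z)
  set v : ℝ → ℝ := (Ioi (0 : ℝ)).indicator (fun L => u L z) with hvd
  refine Measurable.isLUB (ι := ℕ) (f := fun n => (Ioi (0 : ℝ)).indicator
    (fun L => (v L - v (L + 1 / ((n : ℝ) + 1))) / (1 / ((n : ℝ) + 1)))) (fun n => ?_) (fun L => ?_)
  · refine Measurable.indicator ?_ measurableSet_Ioi
    exact (hv.sub (hv.comp (measurable_id.add_const _))).div_const _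
  · rcases le_or_gt L 0 with hL | hL
    · have hn : L ∉ Ioi (0 : ℝ) := fun h => absurd h (not_lt.2 hL)
      have e : {a | ∃ i : ℕ, (Ioi (0 : ℝ)).indicator
          (fun L => (v L - v (L + 1 / ((i : ℝ) + 1))) / (1 / ((i : ℝ) + 1))) L = a} = {0} := by
        ext a
        simp only [mem_ofPred_eq, indicator_of_notMem hn, exists_const, mem_singleton_iff, eq_comm]
      rw [e, indicator_of_notMem hn]
      exact isLUB_singleton
    · have hm : L ∈ Ioi (0 : ℝ) := hL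
      rw [indicator_of_mem hm]
      have ev : ∀ s, 0 < s → v s = u s z := fun s hs => indicator_of_mem (mem_Ioi.2 hs) _
      have hlub := hψ L hL z
      constructor
      · rintro a ⟨i, rfl⟩
        have hi : (0 : ℝ) < 1 / ((i : ℝ) + 1) := by positivity
        rw [indicator_of_mem hm, ev L hL, ev _ (by linarith)]
        exact hlub.1 ⟨⟨_, hi⟩, rfl⟩
      · intro b hb
        refine hlub.2 ?_
        rintro _ ⟨⟨k, hk⟩, rfl⟩
        obtain ⟨n, hn⟩ := exists_nat_one_div_lt (mem_Ioi.1 hk)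
        have hi : (0 : ℝ) < 1 / ((n : ℝ) + 1) := by positivity
        refine (quot_mono hu z hL hi hn.le).trans ?_
        refine hb ⟨n, ?_⟩
        rw [indicator_of_mem hm, ev L hL, ev _ (by linarith)]


/-- the approximate critical set -/
def AA (u ψ : ℝ → ℂ → ℝ) (m : ℕ) : Set (ℝ × ℝ) := {x | ∃ i : ℕ,
  0 < (Ioi (0 : ℝ)).indicator (fun L => u L (TopologicalSpace.denseSeq ℂ i)) x.1 ∧
  |(Ioi (0 : ℝ)).indicator (fun L => ψ L (TopologicalSpace.denseSeq ℂ i)) x.1 - x.2| <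
    1 / ((m : ℝ) + 1) ∧
  (∃ N : ℕ, ∀ n ≥ N, |((n : ℝ) + 1) * ((Ioi (0 : ℝ)).indicator
    (fun L => ψ L (TopologicalSpace.denseSeq ℂ i + (((n : ℝ) + 1)⁻¹ : ℝ) • (1 : ℂ))) x.1 -
      (Ioi (0 : ℝ)).indicator (fun L => ψ L (TopologicalSpace.denseSeq ℂ i)) x.1)| ≤
        1 / ((m : ℝ) + 1)) ∧
  (∃ N : ℕ, ∀ n ≥ N, |((n : ℝ) + 1) * ((Ioi (0 : ℝ)).indicator
    (fun L => ψ L (TopologicalSpace.denseSeq ℂ i + (((n : ℝ) + 1)⁻¹ : ℝ) • Complex.I)) x.1 -
      (Ioi (0 : ℝ)).indicator (fun L => ψ L (TopologicalSpace.denseSeq ℂ i)) x.1)| ≤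
        1 / ((m : ℝ) + 1))}

theorem meas_AA (hu : Fam u)
    (hψ : ∀ L, 0 < L → ∀ z, IsLUB (range fun k : Ioi (0 : ℝ) => (u L z - u (L + k) z) / k) (ψ L z))
    (m : ℕ) : MeasurableSet (AA u ψ m) := by
  have hu' : ∀ z, Measurable fun x : ℝ × ℝ => (Ioi (0 : ℝ)).indicator (fun L => u L z) x.1 :=
    fun z => (meas_of_anti (hu.anti z)).comp measurable_fst
  have hp' : ∀ z, Measurable fun x : ℝ × ℝ => (Ioi (0 : ℝ)).indicator (fun L => ψ L z) x.1 :=
    fun z => (meas_psi hu hψ z).comp measurable_fst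
  have key : ∀ (i : ℕ) (e : ℂ), MeasurableSet {x : ℝ × ℝ | ∃ N : ℕ, ∀ n ≥ N,
      |((n : ℝ) + 1) * ((Ioi (0 : ℝ)).indicator
      (fun L => ψ L (TopologicalSpace.denseSeq ℂ i + (((n : ℝ) + 1)⁻¹ : ℝ) • e)) x.1 -
      (Ioi (0 : ℝ)).indicator (fun L => ψ L (TopologicalSpace.denseSeq ℂ i)) x.1)| ≤
        1 / ((m : ℝ) + 1)} := by
    intro i e
    have : {x : ℝ × ℝ | ∃ N : ℕ, ∀ n ≥ N, |((n : ℝ) + 1) * ((Ioi (0 : ℝ)).indicator
      (fun L => ψ L (TopologicalSpace.denseSeq ℂ i + (((n : ℝ) + 1)⁻¹ : ℝ) • e)) x.1 -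
      (Ioi (0 : ℝ)).indicator (fun L => ψ L (TopologicalSpace.denseSeq ℂ i)) x.1)| ≤
        1 / ((m : ℝ) + 1)} = ⋃ N : ℕ, ⋂ n : ℕ, ⋂ _ : n ≥ N,
        {x : ℝ × ℝ | |((n : ℝ) + 1) * ((Ioi (0 : ℝ)).indicator
      (fun L => ψ L (TopologicalSpace.denseSeq ℂ i + (((n : ℝ) + 1)⁻¹ : ℝ) • e)) x.1 -
      (Ioi (0 : ℝ)).indicator (fun L => ψ L (TopologicalSpace.denseSeq ℂ i)) x.1)| ≤
        1 / ((m : ℝ) + 1)} := by
      ext x
      simp only [mem_ofPred_eq, mem_iUnion, mem_iInter]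
    rw [this]
    refine MeasurableSet.iUnion fun N => MeasurableSet.iInter fun n => MeasurableSet.iInter
      fun _ => ?_
    exact measurableSet_le (((hp' _).sub (hp' _)).const_mul _).abs measurable_const
  have : AA u ψ m = ⋃ i : ℕ,
      ({x : ℝ × ℝ | 0 < (Ioi (0 : ℝ)).indicator
          (fun L => u L (TopologicalSpace.denseSeq ℂ i)) x.1} ∩
      ({x : ℝ × ℝ | |(Ioi (0 : ℝ)).indicator
          (fun L => ψ L (TopologicalSpace.denseSeq ℂ i)) x.1 - x.2| < 1 / ((m : ℝ) + 1)} ∩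
      ({x : ℝ × ℝ | ∃ N : ℕ, ∀ n ≥ N, |((n : ℝ) + 1) * ((Ioi (0 : ℝ)).indicator
      (fun L => ψ L (TopologicalSpace.denseSeq ℂ i + (((n : ℝ) + 1)⁻¹ : ℝ) • (1 : ℂ))) x.1 -
      (Ioi (0 : ℝ)).indicator (fun L => ψ L (TopologicalSpace.denseSeq ℂ i)) x.1)| ≤
        1 / ((m : ℝ) + 1)} ∩
      {x : ℝ × ℝ | ∃ N : ℕ, ∀ n ≥ N, |((n : ℝ) + 1) * ((Ioi (0 : ℝ)).indicator
      (fun L => ψ L (TopologicalSpace.denseSeq ℂ i + (((n : ℝ) + 1)⁻¹ : ℝ) • Complex.I)) x.1 -
      (Ioi (0 : ℝ)).indicator (fun L => ψ L (TopologicalSpace.denseSeq ℂ i)) x.1)| ≤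
        1 / ((m : ℝ) + 1)}))) := by
    ext x
    simp only [AA, mem_ofPred_eq, mem_iUnion, mem_inter_iff]
  rw [this]
  refine MeasurableSet.iUnion fun i => ?_
  refine (measurableSet_lt measurable_const (hu' _)).inter ?_
  refine (measurableSet_lt ((hp' _).sub measurable_snd).abs measurable_const).inter ?_
  exact (key i 1).inter (key i Complex.I)


/-- the sections of the approximate critical sets -/
theorem sec_AA (hu : Fam u)
    (hψ : ∀ L, 0 < L → ∀ z, IsLUB (range fun k : Ioi (0 : ℝ) => (u L z - u (L + k) z) / k) (ψ L z))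
    (hC : ∀ L, 0 < L → ContDiffOn ℝ 2 (ψ L) {z | 0 < u L z}) {L : ℝ} (hL : 0 < L)
    (hK : ∀ ε > 0, IsCompact (KK u L ε) ∧ KK u L ε ⊆ {z | 0 < u L z}) {ε : ℝ} (hε : 0 < ε)
    (hA : ∀ m, (L, ε) ∈ AA u ψ m) :
    ε ∈ ψ L '' {z | z ∈ {z | 0 < u L z} ∧ fderiv ℝ (ψ L) z = 0} := by
  have hO : IsOpen {z | 0 < u L z} := isOpen_lt continuous_const (hu.cont L hL)
  have hm : L ∈ Ioi (0 : ℝ) := hL
  choose i h1 h2 h3 h4 using hA
  simp only [indicator_of_mem hm] at h1 h2 h3 h4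
  set q : ℕ → ℂ := fun m => TopologicalSpace.denseSeq ℂ (i m) with hq
  have hdiff : ∀ z, 0 < u L z → DifferentiableAt ℝ (ψ L) z := fun z hz =>
    ((hC L hL).contDiffAt (hO.mem_nhds hz)).differentiableAt (by norm_num)
  have hder : ∀ (e : ℂ) (m : ℕ), (∃ N : ℕ, ∀ n ≥ N, |((n : ℝ) + 1) *
      (ψ L (q m + (((n : ℝ) + 1)⁻¹ : ℝ) • e) - ψ L (q m))| ≤ 1 / ((m : ℝ) + 1)) →
      |fderiv ℝ (ψ L) (q m) e| ≤ 1 / ((m : ℝ) + 1) := by
    rintro e m ⟨N, hN⟩
    have h5 := (hdiff (q m) (h1 m)).hasFDerivAt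
    have h6 : Tendsto (fun n : ℕ => ((n : ℝ) + 1)) atTop atTop :=
      tendsto_atTop_add_const_right _ _ tendsto_natCast_atTop_atTop
    have h8 : Tendsto (fun n : ℕ => ‖((n : ℝ) + 1)‖) atTop atTop := by
      refine h6.congr fun n => ?_
      rw [Real.norm_of_nonneg (by positivity)]
    have h7 := h5.lim e h8
    have h9 := h7.abs
    refine le_of_tendsto h9 ?_
    filter_upwards [eventually_ge_atTop N] with n hn
    exact hN n hn
  have h5 : ∃ᶠ m in atTop, q m ∈ KK u L (ε / 2) := by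
    refine Eventually.frequently ?_
    obtain ⟨M, hM⟩ := exists_nat_one_div_lt (half_pos hε)
    filter_upwards [eventually_ge_atTop M] with m hmM
    refine mem_KK hu (hψ L hL (q m)) ?_
    have h6 := (abs_lt.1 (h2 m)).1
    have h7 : 1 / ((m : ℝ) + 1) ≤ 1 / ((M : ℝ) + 1) :=
      one_div_le_one_div_of_le (by positivity) (by
        have : (M : ℝ) ≤ m := by exact_mod_cast hmM
        linarith)
    linarith
  obtain ⟨z, hz, φ, hφ, hlim⟩ := (hK (ε / 2) (half_pos hε)).1.tendsto_subseq' h5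
  have hzU : 0 < u L z := (hK (ε / 2) (half_pos hε)).2 hz
  have hinv : Tendsto (fun k => 1 / (((φ k : ℕ) : ℝ) + 1)) atTop (𝓝 0) :=
    tendsto_one_div_add_atTop_nhds_zero_nat.comp hφ.tendsto_atTop
  have hcz := (hC L hL).contDiffAt (hO.mem_nhds hzU)
  refine ⟨z, ⟨hzU, ?_⟩, ?_⟩
  · have hc1 : ContinuousAt (fderiv ℝ (ψ L)) z :=
      (hcz.fderiv_right (m := 1) (by norm_num)).continuousAt
    have key : ∀ e : ℂ, (∀ m, |fderiv ℝ (ψ L) (q m) e| ≤ 1 / ((m : ℝ) + 1)) →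
        fderiv ℝ (ψ L) z e = 0 := by
      intro e he
      have h6 : Tendsto (fun k => fderiv ℝ (ψ L) (q (φ k)) e) atTop
          (𝓝 (fderiv ℝ (ψ L) z e)) :=
        ((ContinuousLinearMap.apply ℝ ℝ e).continuous.tendsto _).comp (hc1.tendsto.comp hlim)
      have h7 : Tendsto (fun k => fderiv ℝ (ψ L) (q (φ k)) e) atTop (𝓝 0) :=
        squeeze_zero_norm (fun k => by simpa using he (φ k)) hinv
      exact tendsto_nhds_unique h6 h7
    have k1 := key 1 (fun m => hder 1 m (h3 m))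
    have k2 := key Complex.I (fun m => hder Complex.I m (h4 m))
    ext w
    have : w = w.re • (1 : ℂ) + w.im • Complex.I := by
      simp [Complex.re_add_im]
    rw [this, map_add, map_smul, map_smul, k1, k2]
    simp
  · have h6 : Tendsto (fun k => ψ L (q (φ k))) atTop (𝓝 (ψ L z)) :=
      hcz.continuousAt.tendsto.comp hlim
    have h7 : Tendsto (fun k => ψ L (q (φ k)) - ε) atTop (𝓝 0) :=
      squeeze_zero_norm (fun k => by simpa using (h2 (φ k)).le) hinv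
    have h8 : Tendsto (fun k => ψ L (q (φ k))) atTop (𝓝 ε) := by
      have := h7.add_const ε
      simpa using this
    exact tendsto_nhds_unique h6 h8

/-- For a.e. `ε > 0`, for a.e. level `L > 0`, the level set `{ψ L = ε}` is regular. -/
theorem ae_regular (hS : StmtSard2) (hu : Fam u)
    (hψ : ∀ L, 0 < L → ∀ z, IsLUB (range fun k : Ioi (0 : ℝ) => (u L z - u (L + k) z) / k) (ψ L z))
    (hC : ∀ L, 0 < L → ContDiffOn ℝ 2 (ψ L) {z | 0 < u L z}) :
    ∀ᵐ ε ∂(volume.restrict (Ioi (0 : ℝ))), ∀ᵐ L ∂(volume.restrict (Ioi (0 : ℝ))),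
      ∀ z, 0 < u L z → ψ L z = ε → fderiv ℝ (ψ L) z ≠ 0 := by
  have hmeas : MeasurableSet {x : ℝ × ℝ | ¬ ∀ m, (x.1, x.2) ∈ AA u ψ m} := by
    have : {x : ℝ × ℝ | ¬ ∀ m, (x.1, x.2) ∈ AA u ψ m} = (⋂ m, AA u ψ m)ᶜ := by
      ext x
      simp only [mem_ofPred_eq, mem_compl_iff, mem_iInter]
    rw [this]
    exact (MeasurableSet.iInter fun m => meas_AA hu hψ m).compl
  have h1 : ∀ᵐ L ∂(volume.restrict (Ioi (0 : ℝ))), ∀ᵐ ε ∂(volume.restrict (Ioi (0 : ℝ))),
      ¬ ∀ m, (L, ε) ∈ AA u ψ m := by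
    filter_upwards [ae_compact hS hu, ae_restrict_mem measurableSet_Ioi] with L hL hpos
    have hO : IsOpen {z | 0 < u L z} := isOpen_lt continuous_const (hu.cont L hpos)
    have h2 := sard_crit hS hO (hC L hpos)
    have h3 : ∀ᵐ ε ∂(volume : Measure ℝ),
        ε ∉ ψ L '' {z | z ∈ {z | 0 < u L z} ∧ fderiv ℝ (ψ L) z = 0} := by
      exact measure_eq_zero_iff_ae_notMem.1 h2
    filter_upwards [ae_restrict_of_ae h3, ae_restrict_mem measurableSet_Ioi] with ε hε hεp hA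
    exact hε (sec_AA hu hψ hC hpos hL hεp hA)
  have h4 := (Measure.ae_ae_comm (μ := volume.restrict (Ioi (0 : ℝ)))
    (ν := volume.restrict (Ioi (0 : ℝ))) (p := fun L ε => ¬ ∀ m, (L, ε) ∈ AA u ψ m) hmeas).1 h1
  filter_upwards [h4] with ε hε
  filter_upwards [hε, ae_restrict_mem measurableSet_Ioi] with L hL hpos z hz hzε h0
  apply hL
  intro m
  -- a point of the dense sequence near `z`
  have hO : IsOpen {z | 0 < u L z} := isOpen_lt continuous_const (hu.cont L hpos)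
  have hcz := (hC L hpos).contDiffAt (hO.mem_nhds hz)
  have hc1 : ContinuousAt (fderiv ℝ (ψ L)) z :=
    (hcz.fderiv_right (m := 1) (by norm_num)).continuousAt
  have hm : (0 : ℝ) < 1 / ((m : ℝ) + 1) := by positivity
  have e1 : ∀ᶠ y in 𝓝 z, |ψ L y - ε| < 1 / ((m : ℝ) + 1) := by
    have := hcz.continuousAt.eventually (Metric.ball_mem_nhds (ψ L z) hm)
    filter_upwards [this] with y hy
    rw [hzε, Real.dist_eq] at hy
    exact hy
  have e2 : ∀ᶠ y in 𝓝 z, ‖fderiv ℝ (ψ L) y‖ < 1 / ((m : ℝ) + 1) := by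
    have := hc1.eventually (Metric.ball_mem_nhds (fderiv ℝ (ψ L) z) hm)
    filter_upwards [this] with y hy
    rw [h0, dist_zero_right] at hy
    exact hy
  have e3 : ∀ᶠ y in 𝓝 z, 0 < u L y := hO.mem_nhds hz
  obtain ⟨s, hs, hso, hzs⟩ := eventually_nhds_iff.1 (e1.and (e2.and e3))
  obtain ⟨i, hi⟩ := (TopologicalSpace.denseRange_denseSeq ℂ).exists_mem_open hso ⟨z, hzs⟩
  obtain ⟨f1, f2, f3⟩ := hs _ hi
  have hmem : L ∈ Ioi (0 : ℝ) := hpos
  have hder : ∀ e : ℂ, ‖e‖ = 1 → ∃ N : ℕ, ∀ n ≥ N, |((n : ℝ) + 1) *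
      (ψ L (TopologicalSpace.denseSeq ℂ i + (((n : ℝ) + 1)⁻¹ : ℝ) • e) -
        ψ L (TopologicalSpace.denseSeq ℂ i))| ≤ 1 / ((m : ℝ) + 1) := by
    intro e he
    have h5 := (((hC L hpos).contDiffAt (hO.mem_nhds f3)).differentiableAt
      (by norm_num)).hasFDerivAt
    have h6 : Tendsto (fun n : ℕ => ((n : ℝ) + 1)) atTop atTop :=
      tendsto_atTop_add_const_right _ _ tendsto_natCast_atTop_atTop
    have h8 : Tendsto (fun n : ℕ => ‖((n : ℝ) + 1)‖) atTop atTop := by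
      refine h6.congr fun n => ?_
      rw [Real.norm_of_nonneg (by positivity)]
    have h7 := (h5.lim e h8).abs
    have h9 : |fderiv ℝ (ψ L) (TopologicalSpace.denseSeq ℂ i) e| < 1 / ((m : ℝ) + 1) := by
      refine lt_of_le_of_lt ?_ f2
      have := (fderiv ℝ (ψ L) (TopologicalSpace.denseSeq ℂ i)).le_opNorm e
      rwa [he, mul_one] at this
    obtain ⟨N, hN⟩ := eventually_atTop.1 (h7.eventually (gt_mem_nhds h9))
    exact ⟨N, fun n hn => (hN n hn).le⟩
  refine ⟨i, ?_, ?_, ?_, ?_⟩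
  · simpa only [indicator_of_mem hmem] using f3
  · simpa only [indicator_of_mem hmem] using f1
  · simpa only [indicator_of_mem hmem] using hder 1 (by simp)
  · simpa only [indicator_of_mem hmem] using hder Complex.I (by simp)

end Pool.Agent.Lib.QNL.Cpt20
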