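import Pool.Agent.Lib.QNL.Plug95
import Pool.Agent.Lib.QNL.PolyPos

/-!
Group N: the parameters and boxes of the regions I - IV (frozen table v3), the range of the
parameters and the positivity of the denominators up to the right end `Ymx`.
-/

set_option autoImplicit false
set_option linter.unusedSimpArgs false
set_option linter.unusedVariables false

namespace Pool.Agent.Lib.QNL.CG

open Pool.Agent.Lib.QNL.PolyPos

/-- cleared denominators -/
theorem hend_of {a w be mu : ℝ} (hw1 : w < 1)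
    (hB : 0 < (1 - w) - 1001 / 1000 * be * w)
    (hP : 0 < ((1 - a) * (1 - w) - 1001 / 1000 * a * w) * ((1 - w) - 1001 / 1000 * be * w) -
      1001 / 1000 * mu * (1 - a) * w * (1 - w)) :
    0 < 1 - be * Ymx w ∧ 0 < QQ a be mu (Ymx w) := by
  have h1 : 0 < 1 - w := by linarith
  have e1 : 1 - be * Ymx w = ((1 - w) - 1001 / 1000 * be * w) / (1 - w) := by
    unfold Ymx
    field_simp
  have e2 : QQ a be mu (Ymx w) =
      (((1 - a) * (1 - w) - 1001 / 1000 * a * w) * ((1 - w) - 1001 / 1000 * be * w) -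
      1001 / 1000 * mu * (1 - a) * w * (1 - w)) / (1 - w) ^ 2 := by
    unfold QQ Ymx
    field_simp
  rw [e1, e2]
  exact ⟨by positivity, by positivity⟩

/-- the polynomial of the denominator -/
def eEnd (W B M : Ex) : Ex :=
  ((1 - Ex.x) * (1 - W) - Ex.q 1001 1000 * Ex.x * W) * ((1 - W) - Ex.q 1001 1000 * B * W) -
    Ex.q 1001 1000 * M * (1 - Ex.x) * W * (1 - W) - Ex.q 1 2000

/-- the polynomial of the pole -/
def eEnd2 (W B : Ex) : Ex := (1 - W) - Ex.q 1001 1000 * B * W - Ex.q 1 100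


/-! ### region I : `a ∈ [1 / 2, 19 / 25]`, `c = 7 / 4` -/

/-- `w` -/
noncomputable def wI (a : ℝ) : ℝ := 4 / 5 * a * (1 - a)
/-- pole -/
noncomputable def beI (a : ℝ) : ℝ := 245 / 100 + 39 / 10 * (a - 1 / 2) - 72 / 10 * (a - 1 / 2) ^ 2
/-- lower bound of `F0` -/
noncomputable def FI (a : ℝ) : ℝ := 7832 / 10000 + 777 / 1000 * (a - 1 / 2) - 7711 / 10000 * (a - 1 / 2) ^ 2
/-- lower bound of `KN` -/
noncomputable def KI (a : ℝ) : ℝ := 1553 / 10000 - 6128 / 10000 * (a - 1 / 2) + 6871 / 10000 * (a - 1 / 2) ^ 2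
/-- upper bound of `eN` -/
noncomputable def eI (a : ℝ) : ℝ := 2196 / 100000 - 9896 / 100000 * (a - 1 / 2) + 11632 / 100000 * (a - 1 / 2) ^ 2
/-- lower bound of `muN` -/
noncomputable def mlI (a : ℝ) : ℝ := 609 / 1000 + 504 / 1000 * (a - 1 / 2) + 431 / 1000 * (a - 1 / 2) ^ 2
/-- upper bound of `muN` -/
noncomputable def muI (a : ℝ) : ℝ := 715 / 1000 + 662 / 1000 * (a - 1 / 2) + 567 / 1000 * (a - 1 / 2) ^ 2

/-- `w` as an expression -/
def xwI : Ex := Ex.q 4 5 * Ex.x * (1 - Ex.x)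
/-- pole as an expression -/
def xbI : Ex := Ex.q 245 100 + Ex.q 39 10 * (Ex.x - Ex.q 1 2) - Ex.q 72 10 * (Ex.x - Ex.q 1 2) ^ 2
/-- upper bound of `muN` as an expression -/
def xmI : Ex := Ex.q 715 1000 + Ex.q 662 1000 * (Ex.x - Ex.q 1 2) + Ex.q 567 1000 * (Ex.x - Ex.q 1 2) ^ 2

theorem ev_xwI (a y z : ℝ) : xwI.ev a y z = wI a := by
  simp only [xwI, wI, Ex.ev_add, Ex.ev_sub, Ex.ev_mul, Ex.ev_pow, Ex.ev_q, Ex.ev_x, Ex.ev_one]
  norm_num

theorem ev_xbI (a y z : ℝ) : xbI.ev a y z = beI a := by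
  simp only [xbI, beI, Ex.ev_add, Ex.ev_sub, Ex.ev_mul, Ex.ev_pow, Ex.ev_q, Ex.ev_x, Ex.ev_one]
  norm_num

theorem ev_xmI (a y z : ℝ) : xmI.ev a y z = muI a := by
  simp only [xmI, muI, Ex.ev_add, Ex.ev_sub, Ex.ev_mul, Ex.ev_pow, Ex.ev_q, Ex.ev_x, Ex.ev_one]
  norm_num

theorem chkI1 : check (eEnd xwI xbI xmI) (seg 25 13 50) one one ⟨16, 0, 0⟩ T.o = true := by
  decide +kernel

theorem chkI2 : check (eEnd2 xwI xbI) (seg 25 13 50) one one ⟨8, 0, 0⟩ T.o = true := by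
  decide +kernel

theorem hwI {a : ℝ} (h1 : 1 / 2 ≤ a) (h2 : a ≤ 19 / 25) : 0 < wI a ∧ a ≤ 1 - wI a := by
  have h3 : 0 < 1 - a := by linarith
  have h4 : 0 < a := by linarith
  unfold wI
  have h6 : 4 / 5 * a ≤ 1 := by linarith
  exact ⟨by positivity, by nlinarith [mul_le_mul_of_nonneg_right h6 h3.le]⟩

theorem beI_nonneg {a : ℝ} (h1 : 1 / 2 ≤ a) (h2 : a ≤ 19 / 25) : 0 ≤ beI a := by
  unfold beI
  nlinarith [mul_nonneg (sub_nonneg.2 h1) (sub_nonneg.2 h2)]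

theorem hendI {a : ℝ} (h1 : 1 / 2 ≤ a) (h2 : a ≤ 19 / 25) :
    0 ≤ beI a ∧ 0 < 1 - beI a * Ymx (wI a) ∧ 0 < QQ a (beI a) (muI a) (Ymx (wI a)) := by
  have hw := hwI h1 h2
  have hm : (seg 25 13 50).mem a := by
    constructor
    · simp only [seg]; push_cast; linarith
    · intro _; simp only [seg]; push_cast; linarith
  have hone : one.mem (0 : ℝ) := one_mem
  refine ⟨beI_nonneg h1 h2, hend_of (by linarith) ?_ ?_⟩
  · have h := check_spec _ _ chkI2 hm hone hone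
    simp only [eEnd2, Ex.ev_sub, Ex.ev_mul, Ex.ev_one, Ex.ev_q, ev_xwI, ev_xbI] at h
    norm_num at h
    linarith
  · have h := check_spec _ _ chkI1 hm hone hone
    simp only [eEnd, Ex.ev_sub, Ex.ev_mul, Ex.ev_one, Ex.ev_q, Ex.ev_x, ev_xwI, ev_xbI,
      ev_xmI] at h
    norm_num at h
    linarith


/-! ### region II : `a ∈ [19 / 25, 43 / 50]`, `c = 2` -/

/-- `w` -/
noncomputable def wII (a : ℝ) : ℝ := (6 / 25 + 3 / 4 * a) * a * (1 - a)
/-- pole -/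
noncomputable def beII (a : ℝ) : ℝ := 332 / 100 + 9 / 10 * (a - 19 / 25)
/-- lower bound of `F0` -/
noncomputable def FII (a : ℝ) : ℝ := 9463 / 10000 + 3269 / 10000 * (a - 19 / 25) - 4734 / 10000 * (a - 19 / 25) ^ 2
/-- lower bound of `KN` -/
noncomputable def KII (a : ℝ) : ℝ := 365 / 10000 - 2376 / 10000 * (a - 19 / 25) + 3962 / 10000 * (a - 19 / 25) ^ 2
/-- upper bound of `eN` -/
noncomputable def eII (a : ℝ) : ℝ := 307 / 100000 - 2802 / 100000 * (a - 19 / 25) + 6714 / 100000 * (a - 19 / 25) ^ 2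
/-- lower bound of `muN` -/
noncomputable def mlII (a : ℝ) : ℝ := 833 / 1000 + 748 / 1000 * (a - 19 / 25) + 625 / 1000 * (a - 19 / 25) ^ 2
/-- upper bound of `muN` -/
noncomputable def muII (a : ℝ) : ℝ := 1029 / 1000 + 1021 / 1000 * (a - 19 / 25) + 817 / 1000 * (a - 19 / 25) ^ 2

/-- `w` as an expression -/
def xwII : Ex := (Ex.q 6 25 + Ex.q 3 4 * Ex.x) * Ex.x * (1 - Ex.x)
/-- pole as an expression -/
def xbII : Ex := Ex.q 332 100 + Ex.q 9 10 * (Ex.x - Ex.q 19 25)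
/-- upper bound of `muN` as an expression -/
def xmII : Ex := Ex.q 1029 1000 + Ex.q 1021 1000 * (Ex.x - Ex.q 19 25) + Ex.q 817 1000 * (Ex.x - Ex.q 19 25) ^ 2

theorem ev_xwII (a y z : ℝ) : xwII.ev a y z = wII a := by
  simp only [xwII, wII, Ex.ev_add, Ex.ev_sub, Ex.ev_mul, Ex.ev_pow, Ex.ev_q, Ex.ev_x, Ex.ev_one]
  norm_num

theorem ev_xbII (a y z : ℝ) : xbII.ev a y z = beII a := by
  simp only [xbII, beII, Ex.ev_add, Ex.ev_sub, Ex.ev_mul, Ex.ev_pow, Ex.ev_q, Ex.ev_x, Ex.ev_one]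
  norm_num

theorem ev_xmII (a y z : ℝ) : xmII.ev a y z = muII a := by
  simp only [xmII, muII, Ex.ev_add, Ex.ev_sub, Ex.ev_mul, Ex.ev_pow, Ex.ev_q, Ex.ev_x, Ex.ev_one]
  norm_num

theorem chkII1 : check (eEnd xwII xbII xmII) (seg 38 5 50) one one ⟨16, 0, 0⟩ T.o = true := by
  decide +kernel

theorem chkII2 : check (eEnd2 xwII xbII) (seg 38 5 50) one one ⟨8, 0, 0⟩ T.o = true := by
  decide +kernel

theorem hwII {a : ℝ} (h1 : 19 / 25 ≤ a) (h2 : a ≤ 43 / 50) : 0 < wII a ∧ a ≤ 1 - wII a := by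
  have h3 : 0 < 1 - a := by linarith
  have h4 : 0 < a := by linarith
  unfold wII
  have h6 : (6 / 25 + 3 / 4 * a) * a ≤ 1 := by nlinarith
  exact ⟨by positivity, by nlinarith [mul_le_mul_of_nonneg_right h6 h3.le]⟩

theorem beII_nonneg {a : ℝ} (h1 : 19 / 25 ≤ a) (h2 : a ≤ 43 / 50) : 0 ≤ beII a := by
  unfold beII
  nlinarith [mul_nonneg (sub_nonneg.2 h1) (sub_nonneg.2 h2)]

theorem hendII {a : ℝ} (h1 : 19 / 25 ≤ a) (h2 : a ≤ 43 / 50) :
    0 ≤ beII a ∧ 0 < 1 - beII a * Ymx (wII a) ∧ 0 < QQ a (beII a) (muII a) (Ymx (wII a)) := by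
  have hw := hwII h1 h2
  have hm : (seg 38 5 50).mem a := by
    constructor
    · simp only [seg]; push_cast; linarith
    · intro _; simp only [seg]; push_cast; linarith
  have hone : one.mem (0 : ℝ) := one_mem
  refine ⟨beII_nonneg h1 h2, hend_of (by linarith) ?_ ?_⟩
  · have h := check_spec _ _ chkII2 hm hone hone
    simp only [eEnd2, Ex.ev_sub, Ex.ev_mul, Ex.ev_one, Ex.ev_q, ev_xwII, ev_xbII] at h
    norm_num at h
    linarith
  · have h := check_spec _ _ chkII1 hm hone hone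
    simp only [eEnd, Ex.ev_sub, Ex.ev_mul, Ex.ev_one, Ex.ev_q, Ex.ev_x, ev_xwII, ev_xbII,
      ev_xmII] at h
    norm_num at h
    linarith


/-! ### region III : `a ∈ [43 / 50, 93 / 100]`, `c = 5 / 2` -/

/-- `w` -/
noncomputable def wIII (a : ℝ) : ℝ := (a - 1 / 100) * a * (1 - a)
/-- pole -/
noncomputable def beIII (a : ℝ) : ℝ := 396 / 100
/-- lower bound of `F0` -/
noncomputable def FIII (a : ℝ) : ℝ := 9838 / 10000 + 1511 / 10000 * (a - 43 / 50) - 2754 / 10000 * (a - 43 / 50) ^ 2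
/-- lower bound of `KN` -/
noncomputable def KIII (a : ℝ) : ℝ := 1111 / 100000 - 10825 / 100000 * (a - 43 / 50) + 21943 / 100000 * (a - 43 / 50) ^ 2
/-- upper bound of `eN` -/
noncomputable def eIII (a : ℝ) : ℝ := 52 / 100000 - 802 / 100000 * (a - 43 / 50) + 3224 / 100000 * (a - 43 / 50) ^ 2
/-- lower bound of `muN` -/
noncomputable def mlIII (a : ℝ) : ℝ := 1017 / 1000 + 865 / 1000 * (a - 43 / 50) + 745 / 1000 * (a - 43 / 50) ^ 2
/-- upper bound of `muN` -/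
noncomputable def muIII (a : ℝ) : ℝ := 1332 / 1000 + 1257 / 1000 * (a - 43 / 50) + 975 / 1000 * (a - 43 / 50) ^ 2

/-- `w` as an expression -/
def xwIII : Ex := (Ex.x - Ex.q 1 100) * Ex.x * (1 - Ex.x)
/-- pole as an expression -/
def xbIII : Ex := Ex.q 396 100
/-- upper bound of `muN` as an expression -/
def xmIII : Ex := Ex.q 1332 1000 + Ex.q 1257 1000 * (Ex.x - Ex.q 43 50) + Ex.q 975 1000 * (Ex.x - Ex.q 43 50) ^ 2

theorem ev_xwIII (a y z : ℝ) : xwIII.ev a y z = wIII a := by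
  simp only [xwIII, wIII, Ex.ev_add, Ex.ev_sub, Ex.ev_mul, Ex.ev_pow, Ex.ev_q, Ex.ev_x, Ex.ev_one]
  norm_num

theorem ev_xbIII (a y z : ℝ) : xbIII.ev a y z = beIII a := by
  simp only [xbIII, beIII, Ex.ev_add, Ex.ev_sub, Ex.ev_mul, Ex.ev_pow, Ex.ev_q, Ex.ev_x, Ex.ev_one]
  norm_num

theorem ev_xmIII (a y z : ℝ) : xmIII.ev a y z = muIII a := by
  simp only [xmIII, muIII, Ex.ev_add, Ex.ev_sub, Ex.ev_mul, Ex.ev_pow, Ex.ev_q, Ex.ev_x, Ex.ev_one]
  norm_num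

theorem chkIII1 : check (eEnd xwIII xbIII xmIII) (seg 86 7 100) one one ⟨16, 0, 0⟩ T.o = true := by
  decide +kernel

theorem chkIII2 : check (eEnd2 xwIII xbIII) (seg 86 7 100) one one ⟨8, 0, 0⟩ T.o = true := by
  decide +kernel

theorem hwIII {a : ℝ} (h1 : 43 / 50 ≤ a) (h2 : a ≤ 93 / 100) : 0 < wIII a ∧ a ≤ 1 - wIII a := by
  have h3 : 0 < 1 - a := by linarith
  have h4 : 0 < a := by linarith
  unfold wIII
  have h5 : 0 < a - 1 / 100 := by linarith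
  have h6 : (a - 1 / 100) * a ≤ 1 := by nlinarith
  exact ⟨by positivity, by nlinarith [mul_le_mul_of_nonneg_right h6 h3.le]⟩

theorem beIII_nonneg {a : ℝ} (h1 : 43 / 50 ≤ a) (h2 : a ≤ 93 / 100) : 0 ≤ beIII a := by
  unfold beIII
  nlinarith [mul_nonneg (sub_nonneg.2 h1) (sub_nonneg.2 h2)]

theorem hendIII {a : ℝ} (h1 : 43 / 50 ≤ a) (h2 : a ≤ 93 / 100) :
    0 ≤ beIII a ∧ 0 < 1 - beIII a * Ymx (wIII a) ∧ 0 < QQ a (beIII a) (muIII a) (Ymx (wIII a)) := by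
  have hw := hwIII h1 h2
  have hm : (seg 86 7 100).mem a := by
    constructor
    · simp only [seg]; push_cast; linarith
    · intro _; simp only [seg]; push_cast; linarith
  have hone : one.mem (0 : ℝ) := one_mem
  refine ⟨beIII_nonneg h1 h2, hend_of (by linarith) ?_ ?_⟩
  · have h := check_spec _ _ chkIII2 hm hone hone
    simp only [eEnd2, Ex.ev_sub, Ex.ev_mul, Ex.ev_one, Ex.ev_q, ev_xwIII, ev_xbIII] at h
    norm_num at h
    linarith
  · have h := check_spec _ _ chkIII1 hm hone hone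
    simp only [eEnd, Ex.ev_sub, Ex.ev_mul, Ex.ev_one, Ex.ev_q, Ex.ev_x, ev_xwIII, ev_xbIII,
      ev_xmIII] at h
    norm_num at h
    linarith


/-! ### region IV : `a ∈ [93 / 100, 24 / 25]`, `c = 3` -/

/-- `w` -/
noncomputable def wIV (a : ℝ) : ℝ := (a - 3 / 100) * a * (1 - a)
/-- pole -/
noncomputable def beIV (a : ℝ) : ℝ := 448 / 100
/-- lower bound of `F0` -/
noncomputable def FIV (a : ℝ) : ℝ := 9957 / 10000 + 705 / 10000 * (a - 93 / 100) - 1589 / 10000 * (a - 93 / 100) ^ 2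
/-- lower bound of `KN` -/
noncomputable def KIV (a : ℝ) : ℝ := 296 / 100000 - 5068 / 100000 * (a - 93 / 100) + 12504 / 100000 * (a - 93 / 100) ^ 2
/-- upper bound of `eN` -/
noncomputable def eIV (a : ℝ) : ℝ := 66 / 1000000 - 2 / 1000 * (a - 93 / 100) + 1575 / 100000 * (a - 93 / 100) ^ 2
/-- lower bound of `muN` -/
noncomputable def mlIV (a : ℝ) : ℝ := 1159 / 1000 + 943 / 1000 * (a - 93 / 100) + 836 / 1000 * (a - 93 / 100) ^ 2
/-- upper bound of `muN` -/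
noncomputable def muIV (a : ℝ) : ℝ := 1595 / 1000 + 1436 / 1000 * (a - 93 / 100) + 1081 / 1000 * (a - 93 / 100) ^ 2

/-- `w` as an expression -/
def xwIV : Ex := (Ex.x - Ex.q 3 100) * Ex.x * (1 - Ex.x)
/-- pole as an expression -/
def xbIV : Ex := Ex.q 448 100
/-- upper bound of `muN` as an expression -/
def xmIV : Ex := Ex.q 1595 1000 + Ex.q 1436 1000 * (Ex.x - Ex.q 93 100) + Ex.q 1081 1000 * (Ex.x - Ex.q 93 100) ^ 2

theorem ev_xwIV (a y z : ℝ) : xwIV.ev a y z = wIV a := by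
  simp only [xwIV, wIV, Ex.ev_add, Ex.ev_sub, Ex.ev_mul, Ex.ev_pow, Ex.ev_q, Ex.ev_x, Ex.ev_one]
  norm_num

theorem ev_xbIV (a y z : ℝ) : xbIV.ev a y z = beIV a := by
  simp only [xbIV, beIV, Ex.ev_add, Ex.ev_sub, Ex.ev_mul, Ex.ev_pow, Ex.ev_q, Ex.ev_x, Ex.ev_one]
  norm_num

theorem ev_xmIV (a y z : ℝ) : xmIV.ev a y z = muIV a := by
  simp only [xmIV, muIV, Ex.ev_add, Ex.ev_sub, Ex.ev_mul, Ex.ev_pow, Ex.ev_q, Ex.ev_x, Ex.ev_one]
  norm_num

theorem chkIV1 : check (eEnd xwIV xbIV xmIV) (seg 93 3 100) one one ⟨16, 0, 0⟩ T.o = true := by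
  decide +kernel

theorem chkIV2 : check (eEnd2 xwIV xbIV) (seg 93 3 100) one one ⟨8, 0, 0⟩ T.o = true := by
  decide +kernel

theorem hwIV {a : ℝ} (h1 : 93 / 100 ≤ a) (h2 : a ≤ 24 / 25) : 0 < wIV a ∧ a ≤ 1 - wIV a := by
  have h3 : 0 < 1 - a := by linarith
  have h4 : 0 < a := by linarith
  unfold wIV
  have h5 : 0 < a - 3 / 100 := by linarith
  have h6 : (a - 3 / 100) * a ≤ 1 := by nlinarith
  exact ⟨by positivity, by nlinarith [mul_le_mul_of_nonneg_right h6 h3.le]⟩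

theorem beIV_nonneg {a : ℝ} (h1 : 93 / 100 ≤ a) (h2 : a ≤ 24 / 25) : 0 ≤ beIV a := by
  unfold beIV
  nlinarith [mul_nonneg (sub_nonneg.2 h1) (sub_nonneg.2 h2)]

theorem hendIV {a : ℝ} (h1 : 93 / 100 ≤ a) (h2 : a ≤ 24 / 25) :
    0 ≤ beIV a ∧ 0 < 1 - beIV a * Ymx (wIV a) ∧ 0 < QQ a (beIV a) (muIV a) (Ymx (wIV a)) := by
  have hw := hwIV h1 h2
  have hm : (seg 93 3 100).mem a := by
    constructor
    · simp only [seg]; push_cast; linarith
    · intro _; simp only [seg]; push_cast; linarith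
  have hone : one.mem (0 : ℝ) := one_mem
  refine ⟨beIV_nonneg h1 h2, hend_of (by linarith) ?_ ?_⟩
  · have h := check_spec _ _ chkIV2 hm hone hone
    simp only [eEnd2, Ex.ev_sub, Ex.ev_mul, Ex.ev_one, Ex.ev_q, ev_xwIV, ev_xbIV] at h
    norm_num at h
    linarith
  · have h := check_spec _ _ chkIV1 hm hone hone
    simp only [eEnd, Ex.ev_sub, Ex.ev_mul, Ex.ev_one, Ex.ev_q, Ex.ev_x, ev_xwIV, ev_xbIV,
      ev_xmIV] at h
    norm_num at h
    linarith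

end Pool.Agent.Lib.QNL.CG
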