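import Mathlib

/-!
# The derivative lemma for the final one-variable inequality (room QNL)

If `x G' - p G` has the sign of `1 - x`, then `G x ≤ γ x^p` follows from `G 1 ≤ γ`.
-/

namespace Pool.Agent.Lib.QNL.DerTrick

open Set

variable {p γ : ℝ} {G G' : ℝ → ℝ}

theorem hasDerivAt_phi {x g : ℝ} (hx : 0 < x) (hG : HasDerivAt G g x) :
    HasDerivAt (fun z => z ^ (-p) * G z) (x ^ (-p) / x * (x * g - p * G x)) x := by
  have h1 : HasDerivAt (fun z : ℝ => z ^ (-p)) (-p * (x ^ (-p) / x)) x := by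
    have := Real.hasDerivAt_rpow_const (x := x) (p := -p) (Or.inl hx.ne')
    refine this.congr_deriv ?_
    rw [Real.rpow_sub_one hx.ne']
  refine (h1.mul hG).congr_deriv ?_
  field_simp
  ring

/-- the side `x ≥ 1` -/
theorem right {X : ℝ} (hc : ContinuousOn G (Icc 1 X))
    (hd : ∀ x ∈ Ioo 1 X, HasDerivAt G (G' x) x)
    (hs : ∀ x ∈ Ioo 1 X, x * G' x - p * G x ≤ 0) (h1 : G 1 ≤ γ) :
    ∀ x ∈ Icc 1 X, G x ≤ γ * x ^ p := by
  intro x hx
  have hanti : AntitoneOn (fun z => z ^ (-p) * G z) (Icc 1 X) := by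
    apply antitoneOn_of_deriv_nonpos (convex_Icc 1 X)
    · apply ContinuousOn.mul _ hc
      intro z hz
      exact (Real.continuousAt_rpow_const z (-p) (Or.inl (by
        have := hz.1; linarith))).continuousWithinAt
    · intro z hz
      rw [interior_Icc] at hz
      exact (hasDerivAt_phi (by linarith [hz.1]) (hd z hz)).differentiableAt.differentiableWithinAt
    · intro z hz
      rw [interior_Icc] at hz
      have hz0 : 0 < z := by linarith [hz.1]
      rw [(hasDerivAt_phi hz0 (hd z hz)).deriv]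
      exact mul_nonpos_of_nonneg_of_nonpos (by positivity) (hs z hz)
  have hX : (1:ℝ) ≤ X := hx.1.trans hx.2
  have h := hanti (left_mem_Icc.2 hX) hx hx.1
  have hx0 : 0 < x := by linarith [hx.1]
  simp only [Real.one_rpow, one_mul] at h
  have h2 : x ^ (-p) * G x ≤ γ := h.trans h1
  have hE : x ^ p * x ^ (-p) = 1 := by rw [← Real.rpow_add hx0]; simp
  have h3 := mul_le_mul_of_nonneg_left h2 (Real.rpow_nonneg hx0.le p)
  calc G x = x ^ p * (x ^ (-p) * G x) := by rw [← mul_assoc, hE, one_mul]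
    _ ≤ x ^ p * γ := h3
    _ = γ * x ^ p := mul_comm _ _

/-- the side `0 < x ≤ 1` -/
theorem left {x₀ : ℝ} (hx₀ : 0 < x₀) (hc : ContinuousOn G (Icc x₀ 1))
    (hd : ∀ x ∈ Ioo x₀ 1, HasDerivAt G (G' x) x)
    (hs : ∀ x ∈ Ioo x₀ 1, 0 ≤ x * G' x - p * G x) (h1 : G 1 ≤ γ) :
    ∀ x ∈ Icc x₀ 1, G x ≤ γ * x ^ p := by
  intro x hx
  have hmono : MonotoneOn (fun z => z ^ (-p) * G z) (Icc x₀ 1) := by
    apply monotoneOn_of_deriv_nonneg (convex_Icc x₀ 1)
    · apply ContinuousOn.mul _ hc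
      intro z hz
      exact (Real.continuousAt_rpow_const z (-p) (Or.inl (by
        have := hz.1; linarith))).continuousWithinAt
    · intro z hz
      rw [interior_Icc] at hz
      exact (hasDerivAt_phi (by linarith [hz.1]) (hd z hz)).differentiableAt.differentiableWithinAt
    · intro z hz
      rw [interior_Icc] at hz
      have hz0 : 0 < z := by linarith [hz.1]
      rw [(hasDerivAt_phi hz0 (hd z hz)).deriv]
      exact mul_nonneg (by positivity) (hs z hz)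
  have hX : x₀ ≤ (1:ℝ) := hx.1.trans hx.2
  have h := hmono hx (right_mem_Icc.2 hX) hx.2
  have hx0 : 0 < x := by linarith [hx.1]
  simp only [Real.one_rpow, one_mul] at h
  have h2 : x ^ (-p) * G x ≤ γ := h.trans h1
  have hE : x ^ p * x ^ (-p) = 1 := by rw [← Real.rpow_add hx0]; simp
  have h3 := mul_le_mul_of_nonneg_left h2 (Real.rpow_nonneg hx0.le p)
  calc G x = x ^ p * (x ^ (-p) * G x) := by rw [← mul_assoc, hE, one_mul]
    _ ≤ x ^ p * γ := h3
    _ = γ * x ^ p := mul_comm _ _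

/-- The `s`-form: `G x = x² A(s) + B(s)`, `s = x^r`. -/
theorem hasDerivAt_G {A B : ℝ → ℝ} {A' B' r x : ℝ} (hx : 0 < x)
    (hA : HasDerivAt A A' (x ^ r)) (hB : HasDerivAt B B' (x ^ r)) :
    HasDerivAt (fun z => z ^ 2 * A (z ^ r) + B (z ^ r))
      (2 * x * A (x ^ r) + x ^ 2 * (A' * (r * (x ^ r / x))) + B' * (r * (x ^ r / x))) x := by
  have d1 : HasDerivAt (fun x : ℝ => x ^ r) (r * (x ^ r / x)) x := by
    have := Real.hasDerivAt_rpow_const (x := x) (p := r) (Or.inl hx.ne')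
    refine this.congr_deriv ?_
    rw [Real.rpow_sub_one hx.ne']
  have dA : HasDerivAt (fun z : ℝ => A (z ^ r)) (A' * (r * (x ^ r / x))) x :=
    HasDerivAt.comp (h₂ := A) (h := fun z : ℝ => z ^ r) x hA d1
  have dB : HasDerivAt (fun z : ℝ => B (z ^ r)) (B' * (r * (x ^ r / x))) x :=
    HasDerivAt.comp (h₂ := B) (h := fun z : ℝ => z ^ r) x hB d1
  have d2 : HasDerivAt (fun x : ℝ => x ^ 2) (2 * x) x := by
    simpa using hasDerivAt_pow 2 x
  exact ((d2.mul dA).add dB).congr_deriv (by ring)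

/-- **Right side, `s`-form** (`S = X^r`): it is enough that
`x² ((2-p) A + r s A') + (r s B' - p B) ≤ 0` for `1 < x < X`. -/
theorem right_s {A B A' B' : ℝ → ℝ} {r X : ℝ} (hr : 0 < r)
    (hcA : ContinuousOn A (Icc 1 (X ^ r))) (hcB : ContinuousOn B (Icc 1 (X ^ r)))
    (hA : ∀ s ∈ Ioo 1 (X ^ r), HasDerivAt A (A' s) s)
    (hB : ∀ s ∈ Ioo 1 (X ^ r), HasDerivAt B (B' s) s)
    (hs : ∀ x ∈ Ioo 1 X, x ^ 2 * ((2 - p) * A (x ^ r) + r * x ^ r * A' (x ^ r))
      + (r * x ^ r * B' (x ^ r) - p * B (x ^ r)) ≤ 0) (h1 : A 1 + B 1 ≤ γ) :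
    ∀ x ∈ Icc 1 X, x ^ 2 * A (x ^ r) + B (x ^ r) ≤ γ * x ^ p := by
  have hmap : MapsTo (fun x : ℝ => x ^ r) (Icc 1 X) (Icc 1 (X ^ r)) := by
    intro x hx
    exact ⟨Real.one_le_rpow hx.1 hr.le, Real.rpow_le_rpow (by linarith [hx.1]) hx.2 hr.le⟩
  have hmap' : ∀ x ∈ Ioo 1 X, x ^ r ∈ Ioo 1 (X ^ r) := by
    intro x hx
    exact ⟨Real.one_lt_rpow hx.1 hr, Real.rpow_lt_rpow (by linarith [hx.1]) hx.2 hr⟩
  have hcr : ContinuousOn (fun x : ℝ => x ^ r) (Icc 1 X) := by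
    intro z hz
    exact (Real.continuousAt_rpow_const z r (Or.inl (by
      have := hz.1; linarith))).continuousWithinAt
  apply right (G := fun x => x ^ 2 * A (x ^ r) + B (x ^ r))
    (G' := fun x => 2 * x * A (x ^ r) + x ^ 2 * (A' (x ^ r) * (r * (x ^ r / x)))
      + B' (x ^ r) * (r * (x ^ r / x)))
  · exact ((continuousOn_id.pow 2).mul (hcA.comp hcr hmap)).add (hcB.comp hcr hmap)
  · intro x hx
    exact hasDerivAt_G (by linarith [hx.1]) (hA _ (hmap' x hx)) (hB _ (hmap' x hx))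
  · intro x hx
    have hx0 : 0 < x := by linarith [hx.1]
    have e : x * (2 * x * A (x ^ r) + x ^ 2 * (A' (x ^ r) * (r * (x ^ r / x)))
      + B' (x ^ r) * (r * (x ^ r / x))) - p * (x ^ 2 * A (x ^ r) + B (x ^ r))
      = x ^ 2 * ((2 - p) * A (x ^ r) + r * x ^ r * A' (x ^ r))
      + (r * x ^ r * B' (x ^ r) - p * B (x ^ r)) := by
      field_simp
      ring
    rw [e]
    exact hs x hx
  · simpa using h1

/-- **Left side, `s`-form**: it is enough that
`x² ((2-p) A + r s A') + (r s B' - p B) ≥ 0` for `x₀ < x < 1`. -/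
theorem left_s {A B A' B' : ℝ → ℝ} {r x₀ : ℝ} (hr : 0 < r) (hx₀ : 0 < x₀)
    (hcA : ContinuousOn A (Icc (x₀ ^ r) 1)) (hcB : ContinuousOn B (Icc (x₀ ^ r) 1))
    (hA : ∀ s ∈ Ioo (x₀ ^ r) 1, HasDerivAt A (A' s) s)
    (hB : ∀ s ∈ Ioo (x₀ ^ r) 1, HasDerivAt B (B' s) s)
    (hs : ∀ x ∈ Ioo x₀ 1, 0 ≤ x ^ 2 * ((2 - p) * A (x ^ r) + r * x ^ r * A' (x ^ r))
      + (r * x ^ r * B' (x ^ r) - p * B (x ^ r))) (h1 : A 1 + B 1 ≤ γ) :
    ∀ x ∈ Icc x₀ 1, x ^ 2 * A (x ^ r) + B (x ^ r) ≤ γ * x ^ p := by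
  have hmap : MapsTo (fun x : ℝ => x ^ r) (Icc x₀ 1) (Icc (x₀ ^ r) 1) := by
    intro x hx
    exact ⟨Real.rpow_le_rpow hx₀.le hx.1 hr.le,
      Real.rpow_le_one (hx₀.le.trans hx.1) hx.2 hr.le⟩
  have hmap' : ∀ x ∈ Ioo x₀ 1, x ^ r ∈ Ioo (x₀ ^ r) 1 := by
    intro x hx
    exact ⟨Real.rpow_lt_rpow hx₀.le hx.1 hr,
      Real.rpow_lt_one (hx₀.le.trans hx.1.le) hx.2 hr⟩
  have hcr : ContinuousOn (fun x : ℝ => x ^ r) (Icc x₀ 1) := by
    intro z hz
    exact (Real.continuousAt_rpow_const z r (Or.inl (by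
      have := hz.1; linarith))).continuousWithinAt
  apply left (G := fun x => x ^ 2 * A (x ^ r) + B (x ^ r))
    (G' := fun x => 2 * x * A (x ^ r) + x ^ 2 * (A' (x ^ r) * (r * (x ^ r / x)))
      + B' (x ^ r) * (r * (x ^ r / x))) hx₀
  · exact ((continuousOn_id.pow 2).mul (hcA.comp hcr hmap)).add (hcB.comp hcr hmap)
  · intro x hx
    exact hasDerivAt_G (hx₀.trans hx.1) (hA _ (hmap' x hx)) (hB _ (hmap' x hx))
  · intro x hx
    have hx0 : 0 < x := hx₀.trans hx.1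
    have e : x * (2 * x * A (x ^ r) + x ^ 2 * (A' (x ^ r) * (r * (x ^ r / x)))
      + B' (x ^ r) * (r * (x ^ r / x))) - p * (x ^ 2 * A (x ^ r) + B (x ^ r))
      = x ^ 2 * ((2 - p) * A (x ^ r) + r * x ^ r * A' (x ^ r))
      + (r * x ^ r * B' (x ^ r) - p * B (x ^ r)) := by
      field_simp
      ring
    rw [e]
    exact hs x hx
  · simpa using h1

/-! ### Bernoulli brackets for `x² = s^(2/r)`, `1 ≤ r ≤ 2`, `s = x^r` -/

theorem sq_lower {r x : ℝ} (hr : 0 < r) (hr2 : r ≤ 2) (hx : 0 ≤ x) :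
    1 + 2 / r * (x ^ r - 1) ≤ x ^ 2 := by
  have h := one_add_mul_self_le_rpow_one_add (s := x ^ r - 1) (p := 2 / r)
    (by linarith [Real.rpow_nonneg hx r]) (by rw [le_div_iff₀ hr]; linarith)
  have e : (1 + (x ^ r - 1)) ^ (2 / r) = x ^ 2 := by
    rw [add_sub_cancel, ← Real.rpow_mul hx]
    have : r * (2 / r) = 2 := by field_simp
    rw [this, Real.rpow_two]
  rw [e] at h
  exact h

theorem sq_upper {r x : ℝ} (hr1 : 1 ≤ r) (hr2 : r ≤ 2) (hx : 0 ≤ x) :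
    x ^ 2 ≤ x ^ r * (1 + (2 / r - 1) * (x ^ r - 1)) := by
  have hr : 0 < r := by linarith
  rcases hx.eq_or_lt with h0 | h0
  · rw [← h0, Real.zero_rpow hr.ne']; norm_num
  · have hpos : 0 < x ^ r := Real.rpow_pos_of_pos h0 r
    have h := rpow_one_add_le_one_add_mul_self (s := x ^ r - 1) (p := 2 / r - 1)
      (by linarith) (by rw [sub_nonneg, le_div_iff₀ hr]; linarith)
      (by rw [sub_le_iff_le_add, div_le_iff₀ hr]; linarith)
    have e : x ^ r * (1 + (x ^ r - 1)) ^ (2 / r - 1) = x ^ 2 := by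
      rw [add_sub_cancel, ← Real.rpow_mul hx]
      have : x ^ r * x ^ (r * (2 / r - 1)) = x ^ (r + r * (2 / r - 1)) :=
        (Real.rpow_add h0 _ _).symm
      rw [this]
      have e2 : r + r * (2 / r - 1) = 2 := by field_simp; ring
      rw [e2, Real.rpow_two]
    rw [← e]
    exact mul_le_mul_of_nonneg_left h hpos.le

end Pool.Agent.Lib.QNL.DerTrick
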