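import Pool.Agent.Lib.QNL.Calc

/-!
Jets: families `Y a b` (`= ∂^a ∂̄^b Y`) on an open set of `ℂ`, with the product rule, conjugation and
integration by parts against compactly supported weights.
-/

set_option autoImplicit false

namespace Pool.Agent.Lib.QNL.Je

open MeasureTheory Filter Topology Set
open scoped ContDiff ComplexConjugate

/-- the real linear map `v ↦ p v + q v̄` -/
noncomputable abbrev lin (p q : ℂ) : ℂ →L[ℝ] ℂ := Calc.wl p q

theorem lin_apply (p q v : ℂ) : lin p q v = p * v + q * conj v := Calc.wl_apply p q v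

theorem lin_add (p q p' q' : ℂ) : lin p q + lin p' q' = lin (p + p') (q + q') := by
  ext v
  simp only [add_apply, lin_apply]
  ring

theorem lin_inj {p q p' q' : ℂ} (h : lin p q = lin p' q') : p = p' ∧ q = q' := Calc.wl_inj h

/-- `f` is differentiable in `D` with `∂ f = p` and `∂̄ f = q` -/
def JF (D : Set ℂ) (f p q : ℂ → ℂ) : Prop := ∀ z ∈ D, HasFDerivAt f (lin (p z) (q z)) z

/-- a jet: `Y a b = ∂^a ∂̄^b Y` -/
def Jt (D : Set ℂ) (Y : ℕ → ℕ → ℂ → ℂ) : Prop := ∀ a b, JF D (Y a b) (Y (a + 1) b) (Y a (b + 1))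

/-- `|D^k Y|²` for a jet -/
noncomputable def nJ (k : ℕ) (Y : ℕ → ℕ → ℂ → ℂ) (z : ℂ) : ℝ :=
  ∑ a ∈ Finset.range (k + 1), ‖Y a (k - a) z‖ ^ 2

namespace JF

variable {D : Set ℂ} {f p q f' p' q' : ℂ → ℂ}

theorem mono {D' : Set ℂ} (h : JF D f p q) (hD : D' ⊆ D) : JF D' f p q :=
  fun z hz => h z (hD hz)

theorem congr (h : JF D f p q) {p1 q1 : ℂ → ℂ} (hp : ∀ z ∈ D, p1 z = p z)
    (hq : ∀ z ∈ D, q1 z = q z) : JF D f p1 q1 := by
  intro z hz
  rw [hp z hz, hq z hz]
  exact h z hz

theorem add (h : JF D f p q) (h' : JF D f' p' q') :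
    JF D (fun z => f z + f' z) (fun z => p z + p' z) (fun z => q z + q' z) := by
  intro z hz
  have := (h z hz).add (h' z hz)
  rw [lin_add] at this
  exact this

theorem cmul (c : ℂ) (h : JF D f p q) :
    JF D (fun z => c * f z) (fun z => c * p z) (fun z => c * q z) := by
  intro z hz
  have := (h z hz).const_mul c
  have he : lin (c * p z) (c * q z) = c • lin (p z) (q z) := by
    ext v
    simp only [smul_apply, lin_apply, smul_eq_mul]
    ring
  rw [he]
  exact this

theorem neg (h : JF D f p q) : JF D (fun z => - f z) (fun z => - p z) (fun z => - q z) := by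
  have := h.cmul (-1)
  simpa using this

theorem sub (h : JF D f p q) (h' : JF D f' p' q') :
    JF D (fun z => f z - f' z) (fun z => p z - p' z) (fun z => q z - q' z) := by
  have := h.add h'.neg
  simpa [sub_eq_add_neg] using this

theorem mul (h : JF D f p q) (h' : JF D f' p' q') :
    JF D (fun z => f z * f' z) (fun z => p z * f' z + f z * p' z)
      (fun z => q z * f' z + f z * q' z) := by
  intro z hz
  have := (h z hz).mul (h' z hz)
  have he : lin (p z * f' z + f z * p' z) (q z * f' z + f z * q' z)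
      = f z • lin (p' z) (q' z) + f' z • lin (p z) (q z) := by
    ext v
    simp only [add_apply, smul_apply, lin_apply,
      smul_eq_mul]
    ring
  rw [he]
  exact this

theorem cnj (h : JF D f p q) :
    JF D (fun z => (starRingEnd ℂ) (f z)) (fun z => (starRingEnd ℂ) (q z))
      (fun z => (starRingEnd ℂ) (p z)) := by
  intro z hz
  have h1 := (Complex.conjCLE : ℂ →L[ℝ] ℂ).hasFDerivAt (x := f z)
  have h2 := h1.comp z (h z hz)
  have he : lin ((starRingEnd ℂ) (q z)) ((starRingEnd ℂ) (p z))
      = (Complex.conjCLE : ℂ →L[ℝ] ℂ).comp (lin (p z) (q z)) := by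
    ext v
    simp only [lin_apply, ContinuousLinearMap.comp_apply, ContinuousLinearEquiv.coe_coe,
      Complex.conjCLE_apply, map_add, map_mul, Complex.conj_conj]
    ring
  rw [he]
  exact h2

theorem const (c : ℂ) : JF D (fun _ => c) (fun _ => 0) (fun _ => 0) := by
  intro z _
  have he : lin 0 0 = (0 : ℂ →L[ℝ] ℂ) := by
    ext v
    simp
  simp only [he]
  exact hasFDerivAt_const c z

theorem contOn (h : JF D f p q) : ContinuousOn f D :=
  fun z hz => (h z hz).continuousAt.continuousWithinAt

theorem sum {ι : Type*} (s : Finset ι) {F P Q : ι → ℂ → ℂ} (h : ∀ i ∈ s, JF D (F i) (P i) (Q i)) :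
    JF D (fun z => ∑ i ∈ s, F i z) (fun z => ∑ i ∈ s, P i z) (fun z => ∑ i ∈ s, Q i z) := by
  classical
  induction s using Finset.induction_on with
  | empty => simpa using (JF.const (D := D) 0)
  | insert a s ha ih =>
    have h1 := h a (Finset.mem_insert_self a s)
    have h2 := ih fun i hi => h i (Finset.mem_insert_of_mem hi)
    have h3 := h1.add h2
    simpa [Finset.sum_insert ha] using h3

/-- a function which vanishes in `D` off a set that is closed in `D` has vanishing derivatives
there -/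
theorem zero_off (hD : IsOpen D) (h : JF D f p q) {K : Set ℂ} (hK : IsClosed K)
    (h0 : ∀ z ∈ D, z ∉ K → f z = 0) : ∀ z ∈ D, z ∉ K → p z = 0 ∧ q z = 0 := by
  intro z hz hzK
  have hev : f =ᶠ[𝓝 z] fun _ => (0 : ℂ) := by
    filter_upwards [hD.mem_nhds hz, hK.isOpen_compl.mem_nhds hzK] with w hw hw'
    exact h0 w hw hw'
  have h1 : HasFDerivAt f (0 : ℂ →L[ℝ] ℂ) z :=
    (hasFDerivAt_const (0 : ℂ) z).congr_of_eventuallyEq hev
  have h2 := (h z hz).unique h1
  have he : lin 0 0 = (0 : ℂ →L[ℝ] ℂ) := by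
    ext v
    simp
  rw [← he] at h2
  exact lin_inj h2

/-- a real valued function: `∂̄ f = conj ∂ f` -/
theorem real {g : ℂ → ℝ} (h : JF D (fun z => (g z : ℂ)) p q) :
    ∀ z ∈ D, q z = (starRingEnd ℂ) (p z) := by
  intro z hz
  have h1 := h.cnj z hz
  have h2 : HasFDerivAt (fun z => ((g z : ℝ) : ℂ))
      (lin ((starRingEnd ℂ) (q z)) ((starRingEnd ℂ) (p z))) z := by
    simpa using h1
  have h3 := (h z hz).unique h2
  exact (lin_inj h3).2

/-- chain rule for a real function of a real valued function -/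
theorem comp_real {g : ℂ → ℝ} (h : JF D (fun z => (g z : ℂ)) p q) {φ φ' : ℝ → ℝ}
    (hφ : ∀ z ∈ D, HasDerivAt φ (φ' (g z)) (g z)) :
    JF D (fun z => ((φ (g z) : ℝ) : ℂ)) (fun z => (φ' (g z) : ℂ) * p z)
      (fun z => (φ' (g z) : ℂ) * q z) := by
  intro z hz
  have h1 := h z hz
  have hre : HasFDerivAt g (Complex.reCLM.comp (lin (p z) (q z))) z := by
    have := Complex.reCLM.hasFDerivAt.comp z h1
    simpa [Function.comp_def] using this
  have h2 := (hφ z hz).comp_hasFDerivAt z hre
  have h3 := Complex.ofRealCLM.hasFDerivAt.comp z h2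
  have him : ∀ v, (lin (p z) (q z) v).im = 0 := by
    intro v
    have := Complex.imCLM.hasFDerivAt.comp z h1
    have h4 : HasFDerivAt (fun _ : ℂ => (0 : ℝ)) (Complex.imCLM.comp (lin (p z) (q z))) z := by
      simpa [Function.comp_def] using this
    have h5 := h4.unique (hasFDerivAt_const (0 : ℝ) z)
    have h6 := congrArg (fun L : ℂ →L[ℝ] ℝ => L v) h5
    simpa using h6
  have he : lin ((φ' (g z) : ℂ) * p z) ((φ' (g z) : ℂ) * q z)
      = Complex.ofRealCLM.comp ((φ' (g z)) • (Complex.reCLM.comp (lin (p z) (q z)))) := by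
    ext v
    simp only [lin_apply, ContinuousLinearMap.comp_apply, smul_apply,
      Complex.reCLM_apply, smul_eq_mul, Complex.ofRealCLM_apply, Complex.ofReal_mul]
    have h7 : ((lin (p z) (q z) v).re : ℂ) = lin (p z) (q z) v := by
      apply Complex.ext
      · exact Complex.ofReal_re _
      · rw [him v]
        exact Complex.ofReal_im _
    rw [lin_apply] at h7
    rw [h7]
    ring
  rw [he]
  exact h3

end JF

/-- **integration by parts**: a function with compact support in `D` -/
theorem JF.ibp0 {D : Set ℂ} {f p q : ℂ → ℂ} (hD : IsOpen D) (h : JF D f p q)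
    (hp : ContinuousOn p D) (hq : ContinuousOn q D) {K : Set ℂ} (hK : IsCompact K) (hKD : K ⊆ D)
    (h0 : ∀ z ∈ D, z ∉ K → f z = 0) :
    (IntegrableOn p D ∧ ∫ z in D, p z = 0) ∧ (IntegrableOn q D ∧ ∫ z in D, q z = 0) := by
  classical
  set f1 : ℂ → ℂ := D.indicator f with hf1
  set p1 : ℂ → ℂ := D.indicator p with hp1
  set q1 : ℂ → ℂ := D.indicator q with hq1
  have hz0 := h.zero_off hD hK.isClosed h0
  have hf10 : ∀ z, z ∉ K → f1 z = 0 := by
    intro z hz
    by_cases hzD : z ∈ D
    · rw [hf1, indicator_of_mem hzD, h0 z hzD hz]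
    · rw [hf1, indicator_of_notMem hzD]
  have hp10 : ∀ z, z ∉ K → p1 z = 0 := by
    intro z hz
    by_cases hzD : z ∈ D
    · rw [hp1, indicator_of_mem hzD, (hz0 z hzD hz).1]
    · rw [hp1, indicator_of_notMem hzD]
  have hq10 : ∀ z, z ∉ K → q1 z = 0 := by
    intro z hz
    by_cases hzD : z ∈ D
    · rw [hq1, indicator_of_mem hzD, (hz0 z hzD hz).2]
    · rw [hq1, indicator_of_notMem hzD]
  have hder : ∀ z, HasFDerivAt f1 (lin (p1 z) (q1 z)) z := by
    intro z
    by_cases hz : z ∈ K
    · have hzD := hKD hz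
      have hev : f1 =ᶠ[𝓝 z] f := by
        filter_upwards [hD.mem_nhds hzD] with w hw
        rw [hf1, indicator_of_mem hw]
      rw [hp1, hq1, indicator_of_mem hzD, indicator_of_mem hzD]
      exact (h z hzD).congr_of_eventuallyEq hev
    · have hev : f1 =ᶠ[𝓝 z] fun _ => (0 : ℂ) := by
        filter_upwards [hK.isClosed.isOpen_compl.mem_nhds hz] with w hw using hf10 w hw
      rw [hp10 z hz, hq10 z hz]
      have he : lin 0 0 = (0 : ℂ →L[ℝ] ℂ) := by
        ext v
        simp
      rw [he]
      exact (hasFDerivAt_const (0 : ℂ) z).congr_of_eventuallyEq hev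
  have cont : ∀ (r : ℂ → ℂ), ContinuousOn r D → (∀ z, z ∉ K → D.indicator r z = 0) →
      Integrable (D.indicator r) := by
    intro r hr h0r
    have hc : Continuous (D.indicator r) := by
      rw [continuous_iff_continuousAt]
      intro z
      by_cases hz : z ∈ K
      · have hzD := hKD hz
        have hev : D.indicator r =ᶠ[𝓝 z] r := by
          filter_upwards [hD.mem_nhds hzD] with w hw
          rw [indicator_of_mem hw]
        exact (hr.continuousAt (hD.mem_nhds hzD)).congr hev.symm
      · have hev : D.indicator r =ᶠ[𝓝 z] fun _ => (0 : ℂ) := by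
          filter_upwards [hK.isClosed.isOpen_compl.mem_nhds hz] with w hw using h0r w hw
        exact continuousAt_const.congr hev.symm
    exact hc.integrable_of_hasCompactSupport (HasCompactSupport.intro hK h0r)
  have hfi : Integrable f1 := cont f h.contOn hf10
  have hpi : Integrable p1 := cont p hp hp10
  have hqi : Integrable q1 := cont q hq hq10
  have key : ∀ v : ℂ, ∫ z, (p1 z * v + q1 z * (starRingEnd ℂ) v) = 0 := by
    intro v
    have hld : ∀ z ∈ tsupport (fun _ : ℂ => (1 : ℂ)),
        HasLineDerivAt ℝ f1 (p1 z * v + q1 z * (starRingEnd ℂ) v) z v := by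
      intro z _
      have := (hder z).hasLineDerivAt v
      simpa using this
    have hint : Integrable fun z => p1 z * v + q1 z * (starRingEnd ℂ) v :=
      (hpi.mul_const v).add (hqi.mul_const _)
    have h1 := integral_bilinear_hasLineDerivAt_right_eq_neg_left_of_integrable
      (μ := (volume : Measure ℂ)) (f := f1) (f' := fun z => p1 z * v + q1 z * (starRingEnd ℂ) v)
      (g := fun _ => (1 : ℂ)) (g' := fun _ => (0 : ℂ)) (v := v)
      (B := ContinuousLinearMap.mul ℝ ℂ) (by simpa using hint) (by simp) (by simpa using hfi)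
      hld (fun z _ => by
        have := (hasFDerivAt_const (𝕜 := ℝ) (1 : ℂ) z).hasLineDerivAt v
        simpa using this)
    simp only [ContinuousLinearMap.mul_apply', mul_zero, mul_one] at h1
    rw [MeasureTheory.integral_zero] at h1
    exact neg_eq_zero.mp h1.symm
  have k1 := key 1
  have k2 := key Complex.I
  simp only [map_one, mul_one, Complex.conj_I, mul_neg] at k1 k2
  rw [integral_add hpi hqi] at k1
  have k3 : ∫ z, (p1 z * Complex.I + -(q1 z * Complex.I)) = (∫ z, p1 z) * Complex.I
      - (∫ z, q1 z) * Complex.I := by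
    have e : (fun z => p1 z * Complex.I + -(q1 z * Complex.I))
        = fun z => p1 z * Complex.I - q1 z * Complex.I := by
      funext z
      ring
    rw [e, integral_sub (hpi.mul_const _) (hqi.mul_const _), integral_mul_const,
      integral_mul_const]
  rw [k3] at k2
  have k4 : (∫ z, p1 z) - (∫ z, q1 z) = 0 := by
    have : ((∫ z, p1 z) - (∫ z, q1 z)) * Complex.I = 0 := by linear_combination k2
    exact (mul_eq_zero.mp this).resolve_right Complex.I_ne_zero
  have k5 : ∫ z, p1 z = 0 := by linear_combination (k1 + k4) / 2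
  have k6 : ∫ z, q1 z = 0 := by linear_combination (k1 - k4) / 2
  refine ⟨⟨?_, ?_⟩, ⟨?_, ?_⟩⟩
  · exact (integrable_indicator_iff hD.measurableSet).mp hpi
  · rw [← integral_indicator hD.measurableSet]; exact k5
  · exact (integrable_indicator_iff hD.measurableSet).mp hqi
  · rw [← integral_indicator hD.measurableSet]; exact k6

/-- a continuous function which vanishes off a compact subset of `D` is integrable on `D` -/
theorem intOn_cpt {D : Set ℂ} (hD : IsOpen D) {K : Set ℂ} (hK : IsCompact K) (hKD : K ⊆ D)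
    {r : ℂ → ℂ} (hr : ContinuousOn r D) (h0 : ∀ z ∈ D, z ∉ K → r z = 0) : IntegrableOn r D := by
  have h1 : IntegrableOn r K := (hr.mono hKD).integrableOn_compact hK
  have h2 : IntegrableOn r (D \ K) := by
    have h3 : IntegrableOn (fun _ : ℂ => (0 : ℂ)) (D \ K) := integrableOn_zero
    exact h3.congr_fun (fun z hz => (h0 z hz.1 hz.2).symm)
      (hD.measurableSet.diff hK.measurableSet)
  exact (h1.union h2).mono_set (fun z hz => by
    by_cases hzK : z ∈ K
    · exact Or.inl hzK
    · exact Or.inr ⟨hz, hzK⟩)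

/-- integration by parts for a product of two functions, one of which has compact support -/
theorem JF.ibp {D : Set ℂ} {f p q f' p' q' : ℂ → ℂ} (hD : IsOpen D) (h : JF D f p q)
    (h' : JF D f' p' q') (hp : ContinuousOn p D) (hq : ContinuousOn q D)
    (hp' : ContinuousOn p' D) (hq' : ContinuousOn q' D) {K : Set ℂ} (hK : IsCompact K)
    (hKD : K ⊆ D) (h0 : ∀ z ∈ D, z ∉ K → f z = 0) :
    (IntegrableOn (fun z => p z * f' z) D ∧ IntegrableOn (fun z => f z * p' z) D ∧
      ∫ z in D, p z * f' z = - ∫ z in D, f z * p' z) ∧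
    (IntegrableOn (fun z => q z * f' z) D ∧ IntegrableOn (fun z => f z * q' z) D ∧
      ∫ z in D, q z * f' z = - ∫ z in D, f z * q' z) := by
  have hz0 := h.zero_off hD hK.isClosed h0
  have hf := h.contOn
  have hf' := h'.contOn
  obtain ⟨⟨_, k2⟩, ⟨_, k4⟩⟩ := (h.mul h').ibp0 hD ((hp.mul hf').add (hf.mul hp'))
    ((hq.mul hf').add (hf.mul hq')) hK hKD (fun z hz hzK => by rw [h0 z hz hzK, zero_mul])
  have i1 := intOn_cpt hD hK hKD (r := fun z => p z * f' z) (hp.mul hf')
    (fun z hz hzK => by rw [(hz0 z hz hzK).1, zero_mul])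
  have i2 := intOn_cpt hD hK hKD (r := fun z => f z * p' z) (hf.mul hp')
    (fun z hz hzK => by rw [h0 z hz hzK, zero_mul])
  have i3 := intOn_cpt hD hK hKD (r := fun z => q z * f' z) (hq.mul hf')
    (fun z hz hzK => by rw [(hz0 z hz hzK).2, zero_mul])
  have i4 := intOn_cpt hD hK hKD (r := fun z => f z * q' z) (hf.mul hq')
    (fun z hz hzK => by rw [h0 z hz hzK, zero_mul])
  rw [integral_add i1 i2] at k2
  rw [integral_add i3 i4] at k4
  exact ⟨⟨i1, i2, eq_neg_of_add_eq_zero_left k2⟩, ⟨i3, i4, eq_neg_of_add_eq_zero_left k4⟩⟩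

/-- the jet of a smooth function -/
theorem jt_of_smooth {D : Set ℂ} (hD : IsOpen D) {f : ℂ → ℂ} (hf : ContDiffOn ℝ ∞ f D) :
    Jt D (fun a b => Dab a b f) := fun a b z hz => Calc.hasFDerivAt_dab hf hD hz a b

end Pool.Agent.Lib.QNL.Je
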