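import Pool.Agent.Lib.QNL.Hardy
import Pool.Agent.Lib.QNL.Jet

/-!
Group E (3): the Hardy inequality for jets which are limits of test functions.
-/

set_option autoImplicit false

namespace Pool.Agent.Lib.QNL.Hardy

open MeasureTheory Set Filter Topology
open scoped ContDiff ComplexConjugate ENNReal
open Pool.Agent.Lib.QNL.Calc

/-- `L²` convergence with a bounded weight -/
theorem tendsto_weighted {μ : Measure ℂ} {f : ℕ → ℂ → ℂ} {F : ℂ → ℂ}
    (hf : ∀ k, AEStronglyMeasurable (f k) μ) (hF : AEStronglyMeasurable F μ)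
    (hlim : Tendsto (fun k => eLpNorm (fun z => f k z - F z) 2 μ) atTop (𝓝 0))
    {w : ℂ → ℝ≥0∞} (hw : Measurable w) {W : ℝ≥0∞} (hW : W ≠ ⊤) (hwW : ∀ z, w z ≤ W)
    (hFfin : eLpNorm F 2 μ ≠ ⊤) :
    Tendsto (fun k => ∫⁻ z, w z * ‖f k z‖ₑ ^ 2 ∂μ) atTop (𝓝 (∫⁻ z, w z * ‖F z‖ₑ ^ 2 ∂μ)) := by
  set ν : Measure ℂ := μ.withDensity w with hν
  have hle : ν ≤ W • μ := by
    rw [hν, ← withDensity_const]
    exact withDensity_mono (Eventually.of_forall hwW)
  have hνμ : ν ≪ μ := withDensity_absolutelyContinuous μ w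
  have hnorm : ∀ g : ℂ → ℂ, AEStronglyMeasurable g μ →
      eLpNorm g 2 ν = (∫⁻ z, w z * ‖g z‖ₑ ^ 2 ∂μ) ^ (1 / 2 : ℝ) := by
    intro g hg
    rw [eLpNorm_eq_lintegral_rpow_enorm_toReal (by norm_num) (by norm_num)]
    have h2 : (2 : ℝ≥0∞).toReal = 2 := by norm_num
    rw [h2]
    congr 1
    rw [hν, lintegral_withDensity_eq_lintegral_mul₀ hw.aemeasurable]
    · refine lintegral_congr fun z => ?_
      simp only [Pi.mul_apply]
      rw [show (2 : ℝ) = ((2 : ℕ) : ℝ) by norm_num, ENNReal.rpow_natCast]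
    · exact (hg.enorm).pow_const _
  have hsmall : ∀ g : ℂ → ℂ, eLpNorm g 2 ν ≤ W ^ (1 / 2 : ℝ) * eLpNorm g 2 μ := by
    intro g
    refine (eLpNorm_mono_measure g hle).trans ?_
    rw [eLpNorm_smul_measure_of_ne_top (by norm_num)]
    simp
  have hWfin : W ^ (1 / 2 : ℝ) ≠ ⊤ := ENNReal.rpow_ne_top_of_nonneg (by norm_num) hW
  have hlim' : Tendsto (fun k => eLpNorm (fun z => f k z - F z) 2 ν) atTop (𝓝 0) := by
    have h1 : Tendsto (fun k => W ^ (1 / 2 : ℝ) * eLpNorm (fun z => f k z - F z) 2 μ) atTop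
        (𝓝 (W ^ (1 / 2 : ℝ) * 0)) := ENNReal.Tendsto.const_mul hlim (Or.inr hWfin)
    rw [mul_zero] at h1
    exact tendsto_of_tendsto_of_tendsto_of_le_of_le tendsto_const_nhds h1
      (fun _ => bot_le) (fun k => hsmall _)
  have hFν : eLpNorm F 2 ν ≠ ⊤ :=
    ne_top_of_le_ne_top (ENNReal.mul_ne_top hWfin hFfin) (hsmall F)
  have hfν : ∀ k, AEStronglyMeasurable (f k) ν := fun k => (hf k).mono_ac hνμ
  have hFmν : AEStronglyMeasurable F ν := hF.mono_ac hνμ
  -- convergence of the norms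
  have hconv : Tendsto (fun k => eLpNorm (f k) 2 ν) atTop (𝓝 (eLpNorm F 2 ν)) := by
    have up : ∀ k, eLpNorm (f k) 2 ν ≤ eLpNorm F 2 ν + eLpNorm (fun z => f k z - F z) 2 ν := by
      intro k
      have : f k = F + (fun z => f k z - F z) := by
        funext z; simp
      calc eLpNorm (f k) 2 ν = eLpNorm (F + (fun z => f k z - F z)) 2 ν := by rw [← this]
        _ ≤ _ := eLpNorm_add_le hFmν ((hfν k).sub hFmν) (by norm_num)
    have lo : ∀ k, eLpNorm F 2 ν - eLpNorm (fun z => f k z - F z) 2 ν ≤ eLpNorm (f k) 2 ν := by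
      intro k
      rw [tsub_le_iff_right]
      have h1 : F = f k - (fun z => f k z - F z) := by
        funext z; simp
      calc eLpNorm F 2 ν = eLpNorm (f k - (fun z => f k z - F z)) 2 ν := by rw [← h1]
        _ ≤ _ := eLpNorm_sub_le (hfν k) ((hfν k).sub hFmν) (by norm_num)
    have tup : Tendsto (fun k => eLpNorm F 2 ν + eLpNorm (fun z => f k z - F z) 2 ν) atTop
        (𝓝 (eLpNorm F 2 ν)) := by
      have := (tendsto_const_nhds (x := eLpNorm F 2 ν)).add hlim'
      simpa using this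
    have tlo : Tendsto (fun k => eLpNorm F 2 ν - eLpNorm (fun z => f k z - F z) 2 ν) atTop
        (𝓝 (eLpNorm F 2 ν)) := by
      have := ENNReal.Tendsto.sub (tendsto_const_nhds (x := eLpNorm F 2 ν)) hlim' (Or.inl hFν)
      simpa using this
    exact tendsto_of_tendsto_of_tendsto_of_le_of_le tlo tup lo up
  have h3 : ∀ x : ℝ≥0∞, (x ^ (1 / 2 : ℝ)) ^ (2 : ℝ) = x := fun x => by
    rw [← ENNReal.rpow_mul]
    norm_num
  have h4 : Tendsto (fun k => (eLpNorm (f k) 2 ν) ^ (2 : ℝ)) atTop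
      (𝓝 ((eLpNorm F 2 ν) ^ (2 : ℝ))) := (ENNReal.continuous_rpow_const.tendsto _).comp hconv
  simp only [hnorm _ hF, h3] at h4
  have h5 : (fun k => (eLpNorm (f k) 2 ν) ^ (2 : ℝ)) = fun k => ∫⁻ z, w z * ‖f k z‖ₑ ^ 2 ∂μ := by
    funext k
    rw [hnorm _ (hf k), h3]
  rw [h5] at h4
  exact h4

variable {D : Set ℂ} {g : ℂ → ℝ}

/-- **Hardy inequality for jets**: cut off form -/
theorem hardy_jet (hD : IsOpen D) (hg : ContDiffOn ℝ ∞ g D) (hpos : ∀ z ∈ D, 0 < g z)
    (hlap : ∀ z ∈ D, lap g z = -1) {c : ℝ} (hc : 0 < c) (hreg : ∀ z ∈ D, c ≤ g z + gr g z)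
    {j : ℕ} {Y : ℕ → ℕ → ℂ → ℂ} (hY : Jet D j Y) {χ : ℝ → ℝ} (hχ : ContDiff ℝ 1 χ)
    (hχ0 : ∀ t, 0 ≤ χ t) (hχ1 : ∀ t, deriv χ t ≤ 0) {X : ℝ} (hX : ∀ t, 0 < t → χ t ≤ X)
    {m : ℕ} (hm : m ≤ 2 * j) :
    ∫⁻ z in D, ENNReal.ofReal (χ (g z) * (Je.nJ (2 * j - m) Y z / g z ^ (2 * m))) ≤
      ENNReal.ofReal ((16 / c) ^ m) *
        ∫⁻ z in D, ENNReal.ofReal (χ (g z) * Je.nJ (2 * j) Y z) := by
  obtain ⟨φ, hφ, hlim⟩ := hY.lim
  have hmD : MeasurableSet D := hD.measurableSet
  have hgc : ContinuousOn g D := hg.continuousOn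
  have hYc : ∀ a b, ContinuousOn (Y a b) D := fun a b => (hY.smooth a b).continuousOn
  have hYm : ∀ a b, AEStronglyMeasurable (Y a b) (volume.restrict D) := fun a b =>
    (hYc a b).aestronglyMeasurable hmD
  have hφm : ∀ k a b, AEStronglyMeasurable (Dab a b (φ k)) (volume.restrict D) := fun k a b =>
    (test_dab (hφ k) a b).1.continuous.aestronglyMeasurable
  have hφfin : ∀ k a b, eLpNorm (Dab a b (φ k)) 2 (volume.restrict D) ≠ ⊤ := fun k a b => by
    have h := test_dab (hφ k) a b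
    exact ((h.1.continuous.memLp_of_hasCompactSupport h.2.1).restrict D).2.ne
  have hYfin : ∀ a b, a + b ≤ 2 * j → eLpNorm (Y a b) 2 (volume.restrict D) ≠ ⊤ := by
    intro a b hab
    have h1 := hlim a b hab
    have h2 : ∀ᶠ k in atTop, eLpNorm (fun z => Dab a b (φ k) z - Y a b z) 2
        (volume.restrict D) < 1 := h1.eventually_lt_const (by norm_num)
    obtain ⟨k, hk⟩ := h2.exists
    have h3 : Y a b = Dab a b (φ k) - (fun z => Dab a b (φ k) z - Y a b z) := by
      funext z; simp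
    have h4 : eLpNorm (Y a b) 2 (volume.restrict D) ≤
        eLpNorm (Dab a b (φ k)) 2 (volume.restrict D) +
          eLpNorm (fun z => Dab a b (φ k) z - Y a b z) 2 (volume.restrict D) := by
      calc eLpNorm (Y a b) 2 (volume.restrict D) =
          eLpNorm (Dab a b (φ k) - (fun z => Dab a b (φ k) z - Y a b z)) 2
            (volume.restrict D) := by rw [← h3]
        _ ≤ _ := eLpNorm_sub_le (hφm k a b) ((hφm k a b).sub (hYm a b)) (by norm_num)
    exact ne_top_of_le_ne_top (ENNReal.add_ne_top.2 ⟨hφfin k a b, (hk.trans_le le_top).ne⟩) h4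
  -- a measurable version of `g` on all of `ℂ`
  set G : ℂ → ℝ := D.indicator g with hG
  have hGm : Measurable G := by
    have : Measurable (D.indicator g) := by
      refine measurable_of_isOpen fun U hU => ?_
      classical
      have h1 : (D.indicator g) ⁻¹' U = (D ∩ g ⁻¹' U) ∪ (Dᶜ ∩ {_z : ℂ | (0 : ℝ) ∈ U}) := by
        ext z
        by_cases hz : z ∈ D
        · simp [hz]
        · simp [hz]
      rw [h1]
      refine MeasurableSet.union ?_ ?_
      · exact (hgc.isOpen_inter_preimage hD hU).measurableSet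
      · exact hmD.compl.inter (MeasurableSet.const _)
    exact this
  have hGeq : ∀ z ∈ D, G z = g z := fun z hz => indicator_of_mem hz g
  have hχm : Measurable χ := hχ.continuous.measurable
  -- general convergence with a bounded weight
  have conv : ∀ (wt : ℝ → ℝ) (B : ℝ), Measurable wt → (∀ t, 0 ≤ wt t) → (∀ t, wt t ≤ B) → ∀ s ≤ 2 * j,
      Tendsto (fun k => ∫⁻ z in D, ENNReal.ofReal (wt (G z) * nn s (φ k) z)) atTop
        (𝓝 (∫⁻ z in D, ENNReal.ofReal (wt (G z) * Je.nJ s Y z))) := by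
    intro wt B hwt hwt0 hwtB s hs
    have hwtG : Measurable (fun z => ENNReal.ofReal (wt (G z))) :=
      ENNReal.measurable_ofReal.comp (hwt.comp hGm)
    have e1 : ∀ (F : ℕ → ℕ → ℂ → ℂ), (∀ a b, AEStronglyMeasurable (F a b) (volume.restrict D)) →
        ∫⁻ z in D, ENNReal.ofReal (wt (G z) * ∑ a ∈ Finset.range (s + 1), ‖F a (s - a) z‖ ^ 2) =
        ∑ a ∈ Finset.range (s + 1),
          ∫⁻ z in D, ENNReal.ofReal (wt (G z)) * ‖F a (s - a) z‖ₑ ^ 2 := by
      intro F hF
      have hsum := lintegral_finsetSum' (μ := volume.restrict D) (Finset.range (s + 1))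
        (f := fun a z => ENNReal.ofReal (wt (G z)) * ‖F a (s - a) z‖ₑ ^ 2) (fun a _ =>
        (hwtG.aemeasurable.mul ((hF a (s - a)).enorm.pow_const 2)))
      rw [← hsum]
      refine lintegral_congr fun z => ?_
      rw [ENNReal.ofReal_mul (hwt0 _), ENNReal.ofReal_sum_of_nonneg (fun _ _ => by positivity),
        Finset.mul_sum]
      refine Finset.sum_congr rfl fun a _ => ?_
      rw [ENNReal.ofReal_pow (norm_nonneg _), ofReal_norm]
    have e2 : ∀ k, ∫⁻ z in D, ENNReal.ofReal (wt (G z) * nn s (φ k) z) =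
        ∑ a ∈ Finset.range (s + 1),
          ∫⁻ z in D, ENNReal.ofReal (wt (G z)) * ‖Dab a (s - a) (φ k) z‖ₑ ^ 2 := fun k =>
      e1 (fun a b => Dab a b (φ k)) (fun a b => hφm k a b)
    have e3 : ∫⁻ z in D, ENNReal.ofReal (wt (G z) * Je.nJ s Y z) =
        ∑ a ∈ Finset.range (s + 1),
          ∫⁻ z in D, ENNReal.ofReal (wt (G z)) * ‖Y a (s - a) z‖ₑ ^ 2 := e1 Y hYm
    simp only [e2, e3]
    refine tendsto_finsetSum _ fun a ha => ?_
    have ha' : a ≤ s := by simpa [Nat.lt_succ_iff] using ha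
    exact tendsto_weighted (fun k => hφm k a (s - a)) (hYm a (s - a))
      (hlim a (s - a) (by omega)) hwtG (W := ENNReal.ofReal B) ENNReal.ofReal_ne_top
      (fun z => ENNReal.ofReal_le_ofReal (hwtB _)) (hYfin a (s - a) (by omega))
  -- bounded `χ`
  set χ' : ℝ → ℝ := fun t => if 0 < t then χ t else 0 with hχ'
  have hχ'm : Measurable χ' := Measurable.ite measurableSet_Ioi hχm measurable_const
  have hX0 : 0 ≤ X := (hχ0 1).trans (hX 1 one_pos)
  have hχ'0 : ∀ t, 0 ≤ χ' t := fun t => by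
    simp only [hχ']
    split_ifs
    · exact hχ0 t
    · exact le_rfl
  have hχ'X : ∀ t, χ' t ≤ X := fun t => by
    simp only [hχ']
    split_ifs with h
    · exact hX t h
    · exact hX0
  have hχ'eq : ∀ z ∈ D, χ' (G z) = χ (g z) := fun z hz => by
    simp only [hχ', hGeq z hz, if_pos (hpos z hz)]
  -- the inequality for test functions, as lintegrals
  have test : ∀ k, ∫⁻ z in D, ENNReal.ofReal (χ (g z) * (nn (2 * j - m) (φ k) z / g z ^ (2 * m)))
      ≤ ENNReal.ofReal ((16 / c) ^ m) *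
        ∫⁻ z in D, ENNReal.ofReal (χ (g z) * nn (2 * j) (φ k) z) := by
    intro k
    have h := hardy_iter hD hg hpos hlap hc hreg (hφ k) hχ hχ0 hχ1 m (2 * j - m)
    rw [show 2 * j - m + m = 2 * j by omega] at h
    have hK : IsCompact (tsupport (φ k)) := (hφ k).2.1
    have hg0 : ∀ z ∈ D, g z ≠ 0 := fun z hz => (hpos z hz).ne'
    have n0 : ∀ s z, z ∉ tsupport (φ k) → nn s (φ k) z = 0 := fun s z hz => by
      simp only [nn]
      exact Finset.sum_eq_zero fun a _ => by rw [dab_off hz]; simp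
    have i1 : Integrable (fun z => χ (g z) * (nn (2 * j - m) (φ k) z / g z ^ (2 * m))) := by
      refine integrable_of_cpt hD hK (hφ k).2.2 ?_ (fun z hz => by rw [n0 _ z hz]; simp)
      exact (hχ.continuous.comp_continuousOn hgc).mul
        ((nn_continuous (hφ k) _).continuousOn.div (hgc.pow _)
          (fun z hz => pow_ne_zero _ (hg0 z hz)))
    have i2 : Integrable (fun z => χ (g z) * nn (2 * j) (φ k) z) := by
      refine integrable_of_cpt hD hK (hφ k).2.2 ?_ (fun z hz => by rw [n0 _ z hz]; simp)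
      exact (hχ.continuous.comp_continuousOn hgc).mul (nn_continuous (hφ k) _).continuousOn
    have p1 : ∀ z, 0 ≤ χ (g z) * (nn (2 * j - m) (φ k) z / g z ^ (2 * m)) := fun z =>
      mul_nonneg (hχ0 _) (div_nonneg (nn_nonneg _ _ _) (by
        rw [pow_mul]; positivity))
    have p2 : ∀ z, 0 ≤ χ (g z) * nn (2 * j) (φ k) z := fun z =>
      mul_nonneg (hχ0 _) (nn_nonneg _ _ _)
    have e1 : ∫⁻ z in D, ENNReal.ofReal (χ (g z) * (nn (2 * j - m) (φ k) z / g z ^ (2 * m))) =
        ENNReal.ofReal (∫ z, χ (g z) * (nn (2 * j - m) (φ k) z / g z ^ (2 * m))) := by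
      rw [ofReal_integral_eq_lintegral_ofReal i1 (Eventually.of_forall p1)]
      rw [← lintegral_indicator hmD]
      refine lintegral_congr fun z => ?_
      by_cases hz : z ∈ D
      · simp [hz]
      · have : nn (2 * j - m) (φ k) z = 0 := n0 _ z (fun h => hz ((hφ k).2.2 h))
        simp [hz, this]
    have e2 : ∫⁻ z in D, ENNReal.ofReal (χ (g z) * nn (2 * j) (φ k) z) =
        ENNReal.ofReal (∫ z, χ (g z) * nn (2 * j) (φ k) z) := by
      rw [ofReal_integral_eq_lintegral_ofReal i2 (Eventually.of_forall p2)]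
      rw [← lintegral_indicator hmD]
      refine lintegral_congr fun z => ?_
      by_cases hz : z ∈ D
      · simp [hz]
      · have : nn (2 * j) (φ k) z = 0 := n0 _ z (fun h => hz ((hφ k).2.2 h))
        simp [hz, this]
    rw [e1, e2, ← ENNReal.ofReal_mul (by positivity)]
    exact ENNReal.ofReal_le_ofReal h
  -- limit of the right-hand side
  have hr : Tendsto (fun k => ∫⁻ z in D, ENNReal.ofReal (χ (g z) * nn (2 * j) (φ k) z)) atTop
      (𝓝 (∫⁻ z in D, ENNReal.ofReal (χ (g z) * Je.nJ (2 * j) Y z))) := by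
    have h := conv χ' X hχ'm hχ'0 hχ'X (2 * j) le_rfl
    have e1 : ∀ F : ℂ → ℝ, ∫⁻ z in D, ENNReal.ofReal (χ' (G z) * F z) =
        ∫⁻ z in D, ENNReal.ofReal (χ (g z) * F z) := fun F =>
      setLIntegral_congr_fun hmD (fun z hz => by simp only [hχ'eq z hz])
    simp only [e1] at h
    exact h
  have hr' := ENNReal.Tendsto.const_mul (a := ENNReal.ofReal ((16 / c) ^ m)) hr
    (Or.inr ENNReal.ofReal_ne_top)
  -- truncated left-hand side
  have trunc : ∀ i : ℕ, ∫⁻ z in D, ENNReal.ofReal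
      ((if (1 : ℝ) / (i + 1) ≤ G z then χ' (G z) / G z ^ (2 * m) else 0) *
        Je.nJ (2 * j - m) Y z) ≤ ENNReal.ofReal ((16 / c) ^ m) *
        ∫⁻ z in D, ENNReal.ofReal (χ (g z) * Je.nJ (2 * j) Y z) := by
    intro i
    set ι : ℝ := 1 / (i + 1) with hι
    have hι0 : 0 < ι := by positivity
    set wt : ℝ → ℝ := fun t => if ι ≤ t then χ' t / t ^ (2 * m) else 0 with hwt
    have hwtm : Measurable wt :=
      Measurable.ite measurableSet_Ici (hχ'm.div (measurable_id.pow_const _)) measurable_const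
    have hwt0 : ∀ t, 0 ≤ wt t := fun t => by
      simp only [hwt]
      split_ifs
      · exact div_nonneg (hχ'0 _) (by rw [pow_mul]; positivity)
      · exact le_rfl
    have hwtB : ∀ t, wt t ≤ X / ι ^ (2 * m) := fun t => by
      simp only [hwt]
      split_ifs with h
      · exact div_le_div₀ hX0 (hχ'X t) (by positivity) (pow_le_pow_left₀ hι0.le h _)
      · positivity
    have hc1 := conv wt _ hwtm hwt0 hwtB (2 * j - m) (by omega)
    refine le_of_tendsto_of_tendsto hc1 hr' (Eventually.of_forall fun k => ?_)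
    refine le_trans ?_ (test k)
    refine setLIntegral_mono' hmD fun z hz => ?_
    refine ENNReal.ofReal_le_ofReal ?_
    have hn : 0 ≤ nn (2 * j - m) (φ k) z := nn_nonneg _ _ _
    have hgp : 0 < g z ^ (2 * m) := pow_pos (hpos z hz) _
    simp only [hwt]
    split_ifs with h
    · rw [hχ'eq z hz, hGeq z hz]
      apply le_of_eq
      ring
    · rw [zero_mul]
      exact mul_nonneg (hχ0 _) (div_nonneg hn hgp.le)
  -- monotone convergence
  have hmono : ∫⁻ z in D, ENNReal.ofReal (χ (g z) * (Je.nJ (2 * j - m) Y z / g z ^ (2 * m))) =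
      ⨆ i : ℕ, ∫⁻ z in D, ENNReal.ofReal
      ((if (1 : ℝ) / (i + 1) ≤ G z then χ' (G z) / G z ^ (2 * m) else 0) *
        Je.nJ (2 * j - m) Y z) := by
    have hnJ0 : ∀ z, 0 ≤ Je.nJ (2 * j - m) Y z := fun z =>
      Finset.sum_nonneg fun _ _ => by positivity
    rw [← lintegral_iSup']
    · refine setLIntegral_congr_fun hmD fun z hz => ?_
      have hgz := hpos z hz
      refine le_antisymm ?_ ?_
      · obtain ⟨i, hi⟩ := exists_nat_one_div_lt hgz
        refine le_iSup_of_le i ?_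
        rw [if_pos (by rw [hGeq z hz]; exact hi.le), hχ'eq z hz, hGeq z hz]
        refine ENNReal.ofReal_le_ofReal (le_of_eq ?_)
        ring
      · refine iSup_le fun i => ENNReal.ofReal_le_ofReal ?_
        split_ifs with h
        · rw [hχ'eq z hz, hGeq z hz]
          apply le_of_eq
          ring
        · rw [zero_mul]
          exact mul_nonneg (hχ0 _) (div_nonneg (hnJ0 z) (by positivity))
    · intro i
      refine AEMeasurable.ennreal_ofReal ?_
      refine AEMeasurable.mul ?_ ?_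
      · refine Measurable.aemeasurable ?_
        exact Measurable.ite (measurableSet_le measurable_const hGm)
          ((hχ'm.comp hGm).div (hGm.pow_const _)) measurable_const
      · unfold Je.nJ
        exact Finset.aemeasurable_fun_sum _ fun a _ => ((hYm a _).norm.aemeasurable.pow_const 2)
    · refine Eventually.of_forall fun z => ?_
      intro i i' hii
      refine ENNReal.ofReal_le_ofReal ?_
      have hle : (1 : ℝ) / (i' + 1) ≤ 1 / (i + 1) := by
        apply one_div_le_one_div_of_le (by positivity)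
        have : (i : ℝ) ≤ i' := by exact_mod_cast hii
        linarith
      by_cases h : (1 : ℝ) / (i + 1) ≤ G z
      · rw [if_pos h, if_pos (hle.trans h)]
      · rw [if_neg h, zero_mul]
        split_ifs
        · exact mul_nonneg (div_nonneg (hχ'0 _) (by rw [pow_mul]; positivity)) (hnJ0 z)
        · simp
  rw [hmono]
  exact iSup_le trunc

end Pool.Agent.Lib.QNL.Hardy
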