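import Pool.Agent.Lib.QNL.EStmts
import Pool.Agent.Lib.QNL.HardyY

/-!
Group E: `StmtHY`.
-/

set_option autoImplicit false

namespace Pool.Agent.Lib.QNL.Hardy

open MeasureTheory Set Filter Topology
open scoped ContDiff ComplexConjugate ENNReal
open Pool.Agent.Lib.QNL.Calc Pool.Agent.Lib.QNL.ES Pool.Agent.Lib.QNL.Wt

/-- the derivatives of order `≤ 2j` of a jet are in `L²` -/
theorem jet_memLp {D : Set ℂ} (hD : IsOpen D) {j : ℕ} {Y : ℕ → ℕ → ℂ → ℂ} (hY : Jet D j Y)
    (a b : ℕ) (hab : a + b ≤ 2 * j) : MemLp (Y a b) 2 (volume.restrict D) := by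
  obtain ⟨φ, hφ, hlim⟩ := hY.lim
  have hYm : AEStronglyMeasurable (Y a b) (volume.restrict D) :=
    (hY.smooth a b).continuousOn.aestronglyMeasurable hD.measurableSet
  have h2 : ∀ᶠ k in atTop, eLpNorm (fun z => Dab a b (φ k) z - Y a b z) 2
      (volume.restrict D) < 1 := (hlim a b hab).eventually_lt_const (by norm_num)
  obtain ⟨k, hk⟩ := h2.exists
  have ht := test_dab (hφ k) a b
  have h4 : MemLp (Dab a b (φ k)) 2 (volume.restrict D) :=
    (ht.1.continuous.memLp_of_hasCompactSupport ht.2.1).restrict D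
  have h5 : MemLp (fun z => Dab a b (φ k) z - Y a b z) 2 (volume.restrict D) :=
    ⟨h4.1.sub hYm, hk.trans_le le_top⟩
  have h3 : Y a b = Dab a b (φ k) - (fun z => Dab a b (φ k) z - Y a b z) := by
    funext z; simp
  rw [h3]
  exact h4.sub h5

theorem nJ_nonneg (k : ℕ) (Y : ℕ → ℕ → ℂ → ℂ) (z : ℂ) : 0 ≤ Je.nJ k Y z :=
  Finset.sum_nonneg fun _ _ => by positivity

theorem le_nJ {k a b : ℕ} (h : a + b = k) (Y : ℕ → ℕ → ℂ → ℂ) (z : ℂ) :
    ‖Y a b z‖ ^ 2 ≤ Je.nJ k Y z := by
  have h1 : a ∈ Finset.range (k + 1) := by simp; omega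
  have h2 := Finset.single_le_sum (f := fun a => ‖Y a (k - a) z‖ ^ 2)
    (fun _ _ => by positivity) h1
  have h3 : k - a = b := by omega
  simp only [h3] at h2
  exact h2

theorem isOpen_DD {O : Set ℂ} {g θ : ℂ → ℝ} (A : Dat O g θ) : IsOpen (DD O g) := isOpen_D A

/-- the constant of the regular level -/
theorem exists_c {O : Set ℂ} {g θ : ℂ → ℝ} (A : Dat O g θ) :
    ∃ c : ℝ, 0 < c ∧ ∀ z ∈ DD O g, c ≤ g z + gr g z := by
  have hgc : ContinuousOn g O := A.g_sm.continuousOn
  have hgr : ContinuousOn (gr g) O := by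
    have h : ∀ v, ContinuousOn (dv v g) O := fun v =>
      (contDiffOn_dv (m := 0) A.open_ A.g_sm (by simp) v).continuousOn
    exact ((h 1).pow 2).add ((h Complex.I).pow 2)
  have hgr0 : ∀ z, 0 ≤ gr g z := fun z => by unfold gr; positivity
  have hcont : ContinuousOn (fun z => g z + gr g z) {z | z ∈ O ∧ 0 ≤ g z} :=
    (hgc.add hgr).mono fun z hz => hz.1
  rcases (Set.eq_empty_or_nonempty {z | z ∈ O ∧ 0 ≤ g z}) with he | hne
  · refine ⟨1, one_pos, fun z hz => ?_⟩
    have : z ∈ {z | z ∈ O ∧ 0 ≤ g z} := ⟨hz.1, hz.2.le⟩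
    rw [he] at this
    exact absurd this (Set.notMem_empty z)
  · obtain ⟨z₀, hz₀, hmin⟩ := A.cpt.exists_isMinOn hne hcont
    refine ⟨g z₀ + gr g z₀, ?_, fun z hz => hmin ⟨hz.1, hz.2.le⟩⟩
    rcases hz₀.2.lt_or_eq with h | h
    · have := hgr0 z₀
      linarith
    · have h1 := A.reg z₀ hz₀.1 h.symm
      have h2 := hgr0 z₀
      have h3 : 0 < gr g z₀ := lt_of_le_of_ne h2 (Ne.symm h1)
      rw [← h]
      linarith

theorem bounded_g {O : Set ℂ} {g θ : ℂ → ℝ} (A : Dat O g θ) :
    ∃ M : ℝ, 0 < M ∧ ∀ z ∈ DD O g, g z < M := by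
  have hgc : ContinuousOn g {z | z ∈ O ∧ 0 ≤ g z} := A.g_sm.continuousOn.mono fun z hz => hz.1
  obtain ⟨M, hM⟩ := (A.cpt.image_of_continuousOn hgc).bddAbove
  refine ⟨max M 0 + 1, by positivity, fun z hz => ?_⟩
  have := hM ⟨z, ⟨hz.1, hz.2.le⟩, rfl⟩
  have h1 := le_max_left M 0
  linarith

/-- the cutoff in `g` -/
noncomputable def chT (T t : ℝ) : ℝ := Real.smoothTransition (2 - t / T)

theorem chT_smooth (T : ℝ) : ContDiff ℝ 1 (chT T) :=
  Real.smoothTransition.contDiff.comp (contDiff_const.sub (contDiff_id.div_const T))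

theorem chT_anti {T : ℝ} (hT : 0 < T) : Antitone (chT T) := fun s t hst =>
  Real.smoothTransition.monotone (by
    have := div_le_div_of_nonneg_right hst hT.le
    linarith)

/-- **`StmtHY`** -/
theorem stmtHY : StmtHY := by
  intro O g θ j Y hY
  have A := hY.dat
  have hD : IsOpen (DD O g) := isOpen_DD A
  have hmD := hD.measurableSet
  have hg : ContDiffOn ℝ ∞ g (DD O g) := A.g_sm.mono fun z hz => hz.1
  have hgc : ContinuousOn g (DD O g) := hg.continuousOn
  have hpos : ∀ z ∈ DD O g, 0 < g z := fun z hz => hz.2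
  have hlap : ∀ z ∈ DD O g, lap g z = -1 := fun z hz => A.g_lap z hz.1
  obtain ⟨c, hc, hreg⟩ := exists_c A
  have hYc : ∀ a b, ContinuousOn (Y a b) (DD O g) := fun a b => (hY.jet.smooth a b).continuousOn
  -- integrability of the squares
  have hsq : ∀ a b, a + b ≤ 2 * j → IntegrableOn (fun z => ‖Y a b z‖ ^ 2) (DD O g) :=
    fun a b hab => (jet_memLp hD hY.jet a b hab).integrable_norm_pow (by norm_num)
  -- the total energy
  have hnJ : IntegrableOn (Je.nJ (2 * j) Y) (DD O g) := by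
    unfold Je.nJ
    exact integrable_finsetSum _ fun a ha => hsq a (2 * j - a) (by
      have : a ≤ 2 * j := by simpa [Nat.lt_succ_iff] using ha
      omega)
  set E₀ : ℝ := ∫ z in DD O g, Je.nJ (2 * j) Y z with hE₀
  have hE₀0 : 0 ≤ E₀ := integral_nonneg fun z => nJ_nonneg _ _ z
  have hE₀l : ∫⁻ z in DD O g, ENNReal.ofReal (Je.nJ (2 * j) Y z) = ENNReal.ofReal E₀ :=
    (ofReal_integral_eq_lintegral_ofReal hnJ (Eventually.of_forall fun z => nJ_nonneg _ _ z)).symm
  obtain ⟨C₀, t₀, ht₀, hhyp⟩ := hY.hyp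
  -- measurability of the weighted squares
  have hcon : ∀ a b m, ContinuousOn (fun z => ‖Y a b z‖ ^ 2 / g z ^ (2 * m)) (DD O g) :=
    fun a b m => ((hYc a b).norm.pow 2).div (hgc.pow _) fun z hz => pow_ne_zero _ (hpos z hz).ne'
  have hconJ : ∀ k m, ContinuousOn (fun z => Je.nJ k Y z / g z ^ (2 * m)) (DD O g) :=
    fun k m => ContinuousOn.div (continuousOn_finsetSum _ fun a _ => (hYc a (k - a)).norm.pow 2)
      (hgc.pow _) fun z hz => pow_ne_zero _ (hpos z hz).ne'
  -- global bound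
  have hglob : ∀ m, m ≤ 2 * j →
      ∫⁻ z in DD O g, ENNReal.ofReal (Je.nJ (2 * j - m) Y z / g z ^ (2 * m)) ≤
        ENNReal.ofReal ((16 / c) ^ m * E₀) := by
    intro m hm
    have h := hardy_jet hD hg hpos hlap hc hreg hY.jet (χ := fun _ => 1) contDiff_const
      (fun _ => zero_le_one) (fun t => by simp) (X := 1) (fun _ _ => le_rfl) hm
    simp only [one_mul] at h
    rw [hE₀l, ← ENNReal.ofReal_mul (by positivity)] at h
    exact h
  have hint : ∀ a b m, a + b + m = 2 * j →
      IntegrableOn (fun z => ‖Y a b z‖ ^ 2 / g z ^ (2 * m)) (DD O g) := by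
    intro a b m habm
    refine ⟨(hcon a b m).aestronglyMeasurable hmD, ?_⟩
    have h0 : ∀ z ∈ DD O g, 0 ≤ ‖Y a b z‖ ^ 2 / g z ^ (2 * m) := fun z hz =>
      div_nonneg (by positivity) (pow_pos (hpos z hz) _).le
    rw [hasFiniteIntegral_iff_norm]
    have h1 : ∫⁻ z in DD O g, ENNReal.ofReal ‖‖Y a b z‖ ^ 2 / g z ^ (2 * m)‖ ≤
        ∫⁻ z in DD O g, ENNReal.ofReal (Je.nJ (2 * j - m) Y z / g z ^ (2 * m)) := by
      refine setLIntegral_mono' hmD fun z hz => ENNReal.ofReal_le_ofReal ?_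
      rw [Real.norm_of_nonneg (h0 z hz)]
      exact div_le_div_of_nonneg_right (le_nJ (by omega) Y z) (pow_pos (hpos z hz) _).le
    exact h1.trans_lt ((hglob m (by omega)).trans_lt ENNReal.ofReal_lt_top)
  set Q : ℝ := (16 / c + 1) ^ (2 * j) with hQ
  have hQm : ∀ m, m ≤ 2 * j → (16 / c) ^ m ≤ Q := by
    intro m hm
    have h1 : (16 / c) ^ m ≤ (16 / c + 1) ^ m :=
      pow_le_pow_left₀ (by positivity) (by linarith) m
    have h2 : (16 / c + 1) ^ m ≤ (16 / c + 1) ^ (2 * j) :=
      pow_le_pow_right₀ (by have : 0 < 16 / c := by positivity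
                            linarith) hm
    exact h1.trans h2
  have hQ0 : 0 ≤ Q := by positivity
  set C₁ : ℝ := Q * ((2 * j + 1) * (2 * max C₀ 0)) with hC₁
  set C₂ : ℝ := Q * E₀ * (2 / t₀) with hC₂
  have hC₁0 : 0 ≤ C₁ := by positivity
  have hC₂0 : 0 ≤ C₂ := by positivity
  refine ⟨C₁ + C₂, by positivity, fun a b m habm => ⟨hint a b m habm, fun T hT => ?_⟩⟩
  have hm : m ≤ 2 * j := by omega
  have hLm : ∀ T, MeasurableSet (LL O g T) := fun T => by
    have : LL O g T = DD O g ∩ g ⁻¹' (Iio T) := by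
      ext z
      exact ⟨fun h => ⟨⟨h.1, h.2.1⟩, h.2.2⟩, fun h => ⟨h.1.1, h.1.2, h.2⟩⟩
    rw [this]
    exact (hgc.isOpen_inter_preimage hD isOpen_Iio).measurableSet
  have hLD : ∀ T, LL O g T ⊆ DD O g := fun T z hz => ⟨hz.1, hz.2.1⟩
  have hintL : IntegrableOn (fun z => ‖Y a b z‖ ^ 2 / g z ^ (2 * m)) (LL O g T) :=
    (hint a b m habm).mono_set (hLD T)
  have h0L : ∀ z ∈ LL O g T, 0 ≤ ‖Y a b z‖ ^ 2 / g z ^ (2 * m) := fun z hz =>
    div_nonneg (by positivity) (pow_pos hz.2.1 _).le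
  -- the integral as an lintegral
  have hval : ∀ B : ℝ, 0 ≤ B →
      ∫⁻ z in LL O g T, ENNReal.ofReal (Je.nJ (2 * j - m) Y z / g z ^ (2 * m)) ≤
        ENNReal.ofReal B → ∫ z in LL O g T, ‖Y a b z‖ ^ 2 / g z ^ (2 * m) ≤ B := by
    intro B hB hle
    rw [integral_eq_lintegral_of_nonneg_ae
      (by
        filter_upwards [ae_restrict_mem (hLm T)] with z hz using h0L z hz)
      hintL.aestronglyMeasurable]
    refine ENNReal.toReal_le_of_le_ofReal hB (le_trans ?_ hle)
    refine setLIntegral_mono' (hLm T) fun z hz => ENNReal.ofReal_le_ofReal ?_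
    exact div_le_div_of_nonneg_right (le_nJ (by omega) Y z) (pow_pos hz.2.1 _).le
  by_cases hTt : 2 * T < t₀
  · -- thin layers
    have h := hardy_jet hD hg hpos hlap hc hreg hY.jet (χ := chT T) (chT_smooth T)
      (fun t => Real.smoothTransition.nonneg _) (fun t => (chT_anti hT).deriv_nonpos) (X := 1)
      (fun t _ => Real.smoothTransition.le_one _) hm
    have h1 : ∫⁻ z in LL O g T, ENNReal.ofReal (Je.nJ (2 * j - m) Y z / g z ^ (2 * m)) ≤
        ∫⁻ z in DD O g, ENNReal.ofReal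
          (chT T (g z) * (Je.nJ (2 * j - m) Y z / g z ^ (2 * m))) := by
      refine (lintegral_mono_set (hLD T)).trans' ?_
      refine setLIntegral_mono' (hLm T) fun z hz => ENNReal.ofReal_le_ofReal ?_
      have : chT T (g z) = 1 := by
        refine Real.smoothTransition.one_of_one_le ?_
        have : g z / T < 1 := (div_lt_one hT).2 hz.2.2
        linarith
      rw [this, one_mul]
    have h2 : ∫⁻ z in DD O g, ENNReal.ofReal (chT T (g z) * Je.nJ (2 * j) Y z) ≤
        ∫⁻ z in LL O g (2 * T), ENNReal.ofReal (Je.nJ (2 * j) Y z) := by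
      rw [← lintegral_indicator hmD, ← lintegral_indicator (hLm (2 * T))]
      refine lintegral_mono fun z => ?_
      by_cases hz : z ∈ DD O g
      · rw [indicator_of_mem hz]
        by_cases hz2 : g z < 2 * T
        · rw [indicator_of_mem (show z ∈ LL O g (2 * T) from ⟨hz.1, hz.2, hz2⟩)]
          refine ENNReal.ofReal_le_ofReal ?_
          have := Real.smoothTransition.le_one (2 - g z / T)
          have h3 := nJ_nonneg (2 * j) Y z
          calc chT T (g z) * Je.nJ (2 * j) Y z ≤ 1 * Je.nJ (2 * j) Y z :=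
                mul_le_mul_of_nonneg_right this h3
            _ = _ := one_mul _
        · have : chT T (g z) = 0 := by
            refine Real.smoothTransition.zero_of_nonpos ?_
            have : 2 ≤ g z / T := (le_div_iff₀ hT).2 (not_lt.1 hz2)
            linarith
          rw [this, zero_mul, ENNReal.ofReal_zero]
          exact bot_le
      · rw [indicator_of_notMem hz]
        exact bot_le
    have hnJL : IntegrableOn (Je.nJ (2 * j) Y) (LL O g (2 * T)) := hnJ.mono_set (hLD _)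
    have h3 : ∫⁻ z in LL O g (2 * T), ENNReal.ofReal (Je.nJ (2 * j) Y z) =
        ENNReal.ofReal (∫ z in LL O g (2 * T), Je.nJ (2 * j) Y z) :=
      (ofReal_integral_eq_lintegral_ofReal hnJL
        (Eventually.of_forall fun z => nJ_nonneg _ _ z)).symm
    have h4 : ∫ z in LL O g (2 * T), Je.nJ (2 * j) Y z ≤
        (2 * j + 1) * (2 * max C₀ 0) * T := by
      unfold Je.nJ
      rw [integral_finsetSum _ fun a ha => ((hsq a (2 * j - a) (by
        have : a ≤ 2 * j := by simpa [Nat.lt_succ_iff] using ha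
        omega)).mono_set (hLD _))]
      have h5 : ∀ a ∈ Finset.range (2 * j + 1),
          ∫ z in LL O g (2 * T), ‖Y a (2 * j - a) z‖ ^ 2 ≤ 2 * max C₀ 0 * T := by
        intro a ha
        have ha' : a ≤ 2 * j := by simpa [Nat.lt_succ_iff] using ha
        have h6 := hhyp (2 * T) (by positivity) hTt a (2 * j - a) (by omega)
        have h7 : C₀ * (2 * T) ≤ max C₀ 0 * (2 * T) :=
          mul_le_mul_of_nonneg_right (le_max_left _ _) (by positivity)
        linarith
      refine (Finset.sum_le_sum h5).trans (le_of_eq ?_)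
      rw [Finset.sum_const, Finset.card_range, nsmul_eq_mul]
      push_cast
      ring
    refine (hval (C₁ * T) (by positivity) ?_).trans ?_
    · refine h1.trans (h.trans ?_)
      have h9 := h2.trans (h3.le.trans (ENNReal.ofReal_le_ofReal h4))
      have h10 : ENNReal.ofReal ((16 / c) ^ m) *
          ∫⁻ z in DD O g, ENNReal.ofReal (chT T (g z) * Je.nJ (2 * j) Y z) ≤
          ENNReal.ofReal ((16 / c) ^ m) *
            ENNReal.ofReal ((2 * j + 1) * (2 * max C₀ 0) * T) := by
        gcongr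
      refine h10.trans ?_
      rw [← ENNReal.ofReal_mul (by positivity)]
      refine ENNReal.ofReal_le_ofReal ?_
      have h8 : (16 / c) ^ m * ((2 * j + 1) * (2 * max C₀ 0) * T) ≤
          Q * ((2 * j + 1) * (2 * max C₀ 0) * T) :=
        mul_le_mul_of_nonneg_right (hQm m hm) (by positivity)
      refine h8.trans (le_of_eq ?_)
      rw [hC₁]
      ring
    · have : 0 ≤ C₂ * T := by positivity
      linarith
  · -- thick layers
    push Not at hTt
    refine (hval (Q * E₀) (by positivity) ?_).trans ?_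
    · refine (lintegral_mono_set (hLD T)).trans ((hglob m hm).trans ?_)
      exact ENNReal.ofReal_le_ofReal (mul_le_mul_of_nonneg_right (hQm m hm) hE₀0)
    · have h1 : 1 ≤ 2 / t₀ * T := by
        rw [div_mul_eq_mul_div, le_div_iff₀ ht₀]
        linarith
      have h2 : Q * E₀ * 1 ≤ Q * E₀ * (2 / t₀ * T) :=
        mul_le_mul_of_nonneg_left h1 (by positivity)
      have h3 : 0 ≤ C₁ * T := by positivity
      rw [hC₂]
      linarith

end Pool.Agent.Lib.QNL.Hardy
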