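import Pool.Agent.Lib.QNL.EStmts

/-!
QNL, group E: products of jets of total order `4 j - m` with weights `g^(-m)` (`StmtPair`).
-/

set_option autoImplicit false

namespace Pool.Agent.Lib.QNL.EPair

open MeasureTheory Filter Topology Set
open scoped ContDiff ComplexConjugate
open Pool.Agent.Lib.QNL.Wt Pool.Agent.Lib.QNL.ES

variable {O : Set ℂ} {g θ : ℂ → ℝ} {j : ℕ} {Y : ℕ → ℕ → ℂ → ℂ}

theorem isOpen_DD (A : Dat O g θ) : IsOpen (DD O g) :=
  A.g_sm.continuousOn.isOpen_inter_preimage A.open_ isOpen_Ioi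

theorem isOpen_LL (A : Dat O g θ) (T : ℝ) : IsOpen (LL O g T) := by
  have h1 := A.g_sm.continuousOn.isOpen_inter_preimage A.open_ (isOpen_Ioo (a := (0 : ℝ)) (b := T))
  exact h1

theorem LL_subset (T : ℝ) : LL O g T ⊆ DD O g := fun _ hz => ⟨hz.1, hz.2.1⟩

theorem LL_mono {S T : ℝ} (h : S ≤ T) : LL O g S ⊆ LL O g T :=
  fun _ hz => ⟨hz.1, hz.2.1, hz.2.2.trans_le h⟩

/-- `∫_{0 < g < T} f → 0` -/
theorem exists_small (A : Dat O g θ) {f : ℂ → ℝ} (hf : IntegrableOn f (DD O g))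
    (hf0 : ∀ z ∈ DD O g, 0 ≤ f z) {e : ℝ} (he : 0 < e) :
    ∃ T₀, 0 < T₀ ∧ ∀ T, T < T₀ → ∫ z in LL O g T, f z ≤ e := by
  have hmeas : ∀ n : ℕ, MeasurableSet (LL O g (1 / ((n : ℝ) + 1))) := fun n =>
    (isOpen_LL A _).measurableSet
  have hanti : Antitone fun n : ℕ => LL O g (1 / ((n : ℝ) + 1)) := by
    intro n m hnm
    refine LL_mono ?_
    have : (n : ℝ) ≤ m := by exact_mod_cast hnm
    exact one_div_le_one_div_of_le (by positivity) (by linarith)
  have hlim := tendsto_setIntegral_of_antitone hmeas hanti ⟨0, hf.mono_set (LL_subset _)⟩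
  have hemp : (⋂ n : ℕ, LL O g (1 / ((n : ℝ) + 1))) = ∅ := by
    rw [eq_empty_iff_forall_notMem]
    intro z hz
    rw [mem_iInter] at hz
    have h0 := (hz 0).2.1
    obtain ⟨n, hn⟩ := exists_nat_one_div_lt h0
    have h1 := (hz n).2.2
    linarith
  rw [hemp, Measure.restrict_empty, integral_zero_measure] at hlim
  obtain ⟨n, hn⟩ := (hlim.eventually (ge_mem_nhds he)).exists
  refine ⟨1 / ((n : ℝ) + 1), by positivity, fun T hT => ?_⟩
  refine le_trans (setIntegral_mono_set (hf.mono_set (LL_subset _)) ?_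
    (LE.le.eventuallyLE (LL_mono hT.le))) hn
  filter_upwards [ae_restrict_mem (isOpen_LL A _).measurableSet] with z hz
  exact hf0 z (LL_subset _ hz)

theorem aesm (A : Dat O g θ) (hY : Jet (DD O g) j Y) (α β γ δ m : ℕ) :
    AEStronglyMeasurable (fun z => ‖Y α β z‖ * ‖Y γ δ z‖ / g z ^ m)
      (volume.restrict (DD O g)) := by
  have hg : ContinuousOn g (DD O g) := A.g_sm.continuousOn.mono fun z hz => hz.1
  have h1 : ContinuousOn (fun z => ‖Y α β z‖ * ‖Y γ δ z‖ / g z ^ m) (DD O g) := by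
    refine ContinuousOn.div ((hY.smooth α β).continuousOn.norm.mul
      (hY.smooth γ δ).continuousOn.norm) (hg.pow m) fun z hz => ?_
    exact pow_ne_zero _ hz.2.ne'
  exact h1.aestronglyMeasurable (isOpen_DD A).measurableSet

/-- the inequality between the means, with a weight `s` -/
theorem amgm {a b c s : ℝ} {m k : ℕ} (hs : 0 < s) (hc : 0 < c) :
    a * b / c ^ m ≤ s / 2 * (a ^ 2 / c ^ (2 * (m + k))) + 1 / (2 * s) * (c ^ (2 * k) * b ^ 2) := by
  have h1 : a * b / c ^ m = (a / c ^ (m + k)) * (c ^ k * b) := by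
    rw [pow_add]
    field_simp
  have h2 : a ^ 2 / c ^ (2 * (m + k)) = (a / c ^ (m + k)) ^ 2 := by
    rw [div_pow, ← pow_mul, mul_comm 2 (m + k)]
  have h3 : c ^ (2 * k) * b ^ 2 = (c ^ k * b) ^ 2 := by
    rw [mul_pow, ← pow_mul, mul_comm 2 k]
  rw [h1, h2, h3]
  set u := a / c ^ (m + k)
  set v := c ^ k * b
  have h4 : 0 ≤ (s * u - v) ^ 2 / (2 * s) := by positivity
  have h5 : (s * u - v) ^ 2 / (2 * s) = s / 2 * u ^ 2 + 1 / (2 * s) * v ^ 2 - u * v := by
    field_simp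
    ring
  linarith

/-- part (i), from the Hardy inequality alone -/
theorem pair_i (hHY : StmtHY) (hH : Hy O g θ j Y) :
    ∃ C : ℝ, 0 ≤ C ∧ ∀ α β γ δ m, γ + δ = 2 * j → α + β + m = 2 * j →
      IntegrableOn (fun z => ‖Y α β z‖ * ‖Y γ δ z‖ / g z ^ m) (DD O g) ∧
      ∀ T, 0 < T → ∫ z in LL O g T, ‖Y α β z‖ * ‖Y γ δ z‖ / g z ^ m ≤ C * T := by
  have A := hH.dat
  have hDm := (isOpen_DD A).measurableSet
  obtain ⟨C, hC, hY⟩ := hHY O g θ j Y hH
  refine ⟨C, hC, ?_⟩
  · intro α β γ δ m hγ hα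
    obtain ⟨i1, b1⟩ := hY α β m hα
    obtain ⟨i2, b2⟩ := hY γ δ 0 (by omega)
    simp only [mul_zero, pow_zero, div_one] at i2 b2
    have hle : ∀ z ∈ DD O g, ‖Y α β z‖ * ‖Y γ δ z‖ / g z ^ m ≤
        1 / 2 * (‖Y α β z‖ ^ 2 / g z ^ (2 * m)) + 1 / 2 * ‖Y γ δ z‖ ^ 2 := by
      intro z hz
      have h := amgm (a := ‖Y α β z‖) (b := ‖Y γ δ z‖) (m := m) (k := 0) (s := 1) one_pos hz.2
      simpa using h
    have hint : IntegrableOn (fun z => ‖Y α β z‖ * ‖Y γ δ z‖ / g z ^ m) (DD O g) := by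
      refine Integrable.mono' ((i1.const_mul (1 / 2)).add (i2.const_mul (1 / 2)))
        (aesm A hH.jet α β γ δ m) ?_
      filter_upwards [ae_restrict_mem hDm] with z hz
      have hg := hz.2
      rw [Real.norm_eq_abs, abs_of_nonneg (by positivity)]
      exact hle z hz
    refine ⟨hint, fun T hT => ?_⟩
    have hLm := (isOpen_LL A T).measurableSet
    have i1' := i1.mono_set (LL_subset (g := g) (O := O) T)
    have i2' := i2.mono_set (LL_subset (g := g) (O := O) T)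
    calc ∫ z in LL O g T, ‖Y α β z‖ * ‖Y γ δ z‖ / g z ^ m
        ≤ ∫ z in LL O g T, (1 / 2 * (‖Y α β z‖ ^ 2 / g z ^ (2 * m)) + 1 / 2 * ‖Y γ δ z‖ ^ 2) :=
          setIntegral_mono_on (hint.mono_set (LL_subset T))
            (IntegrableOn.fun_add (i1'.const_mul (1 / 2)) (i2'.const_mul (1 / 2))) hLm
            fun z hz => hle z (LL_subset T hz)
      _ = 1 / 2 * (∫ z in LL O g T, ‖Y α β z‖ ^ 2 / g z ^ (2 * m)) +
          1 / 2 * ∫ z in LL O g T, ‖Y γ δ z‖ ^ 2 := by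
          rw [integral_add (i1'.const_mul _) (i2'.const_mul _), integral_const_mul,
            integral_const_mul]
      _ ≤ 1 / 2 * (C * T) + 1 / 2 * (C * T) := by
          have := b1 T hT
          have := b2 T hT
          linarith
      _ = C * T := by ring

/-- part (ii), from the Hardy inequality and `∫ g |D^(2j+1) Y|² < ∞` -/
theorem pair_ii (hHY : StmtHY) (hSec : StmtSec) (hH : Hy O g θ j Y) :
    ∀ α β γ δ m, γ + δ = 2 * j + 1 → α + β + m + 1 = 2 * j →
      IntegrableOn (fun z => ‖Y α β z‖ * ‖Y γ δ z‖ / g z ^ m) (DD O g) ∧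
      ∀ e, 0 < e → ∃ T₀, 0 < T₀ ∧ ∀ T, 0 < T → T < T₀ →
        ∫ z in LL O g T, ‖Y α β z‖ * ‖Y γ δ z‖ / g z ^ m ≤ e * T := by
  have A := hH.dat
  have hDm := (isOpen_DD A).measurableSet
  obtain ⟨C, hC, hY⟩ := hHY O g θ j Y hH
  · intro α β γ δ m hγ hα
    obtain ⟨i1, b1⟩ := hY α β (m + 1) (by omega)
    have i3 := hSec O g θ j Y hH γ δ hγ
    -- `g` is bounded
    have hg : ContinuousOn g {z | z ∈ O ∧ 0 ≤ g z} :=
      A.g_sm.continuousOn.mono fun z hz => hz.1
    obtain ⟨M, hM⟩ := A.cpt.bddAbove_image hg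
    have hgM : ∀ z ∈ DD O g, g z ≤ M := fun z hz => hM ⟨z, ⟨hz.1, hz.2.le⟩, rfl⟩
    have hle : ∀ s : ℝ, 0 < s → ∀ z ∈ DD O g, ‖Y α β z‖ * ‖Y γ δ z‖ / g z ^ m ≤
        s / 2 * (‖Y α β z‖ ^ 2 / g z ^ (2 * (m + 1))) +
          1 / (2 * s) * (g z ^ 2 * ‖Y γ δ z‖ ^ 2) := by
      intro s hs z hz
      have h := amgm (a := ‖Y α β z‖) (b := ‖Y γ δ z‖) (m := m) (k := 1) hs hz.2
      simpa using h
    have i2 : IntegrableOn (fun z => g z ^ 2 * ‖Y γ δ z‖ ^ 2) (DD O g) := by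
      have hgc : ContinuousOn g (DD O g) := A.g_sm.continuousOn.mono fun z hz => hz.1
      refine Integrable.mono' (i3.const_mul M) ?_ ?_
      · exact ((hgc.pow 2).mul ((hH.jet.smooth γ δ).continuousOn.norm.pow 2)).aestronglyMeasurable
          hDm
      · filter_upwards [ae_restrict_mem hDm] with z hz
        have h0 := hz.2
        have h1 := hgM z hz
        rw [Real.norm_eq_abs, abs_of_nonneg (by positivity)]
        have h2 : 0 ≤ g z * ‖Y γ δ z‖ ^ 2 := by positivity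
        nlinarith [mul_le_mul_of_nonneg_right h1 h2]
    have hint : IntegrableOn (fun z => ‖Y α β z‖ * ‖Y γ δ z‖ / g z ^ m) (DD O g) := by
      refine Integrable.mono' ((i1.const_mul (1 / 2)).add (i2.const_mul (1 / (2 * 1))))
        (aesm A hH.jet α β γ δ m) ?_
      filter_upwards [ae_restrict_mem hDm] with z hz
      have hg := hz.2
      rw [Real.norm_eq_abs, abs_of_nonneg (by positivity)]
      exact hle 1 one_pos z hz
    refine ⟨hint, fun e he => ?_⟩
    -- the choice of `s` and of `T₀`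
    have hs : 0 < e / (C + 1) := by positivity
    set s : ℝ := e / (C + 1) with hsdef
    have hsC : s * C ≤ e := by
      rw [hsdef, div_mul_eq_mul_div, div_le_iff₀ (by positivity)]
      nlinarith
    obtain ⟨T₀, hT₀, hsm⟩ := exists_small A i3
      (fun z hz => mul_nonneg hz.2.le (by positivity)) (e := e * s) (by positivity)
    refine ⟨T₀, hT₀, fun T hT hTT => ?_⟩
    have hLm := (isOpen_LL A T).measurableSet
    have i1' := i1.mono_set (LL_subset (g := g) (O := O) T)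
    have i2' := i2.mono_set (LL_subset (g := g) (O := O) T)
    have i3' := i3.mono_set (LL_subset (g := g) (O := O) T)
    have h3 : ∫ z in LL O g T, g z ^ 2 * ‖Y γ δ z‖ ^ 2 ≤ T * (e * s) := by
      calc ∫ z in LL O g T, g z ^ 2 * ‖Y γ δ z‖ ^ 2
          ≤ ∫ z in LL O g T, T * (g z * ‖Y γ δ z‖ ^ 2) := by
            refine setIntegral_mono_on i2' (i3'.const_mul T) hLm fun z hz => ?_
            have h0 := hz.2.1
            have h1 := hz.2.2.le
            have h2 : 0 ≤ g z * ‖Y γ δ z‖ ^ 2 := by positivity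
            nlinarith [mul_le_mul_of_nonneg_right h1 h2]
        _ = T * ∫ z in LL O g T, g z * ‖Y γ δ z‖ ^ 2 := integral_const_mul _ _
        _ ≤ T * (e * s) := mul_le_mul_of_nonneg_left (hsm T hTT) hT.le
    calc ∫ z in LL O g T, ‖Y α β z‖ * ‖Y γ δ z‖ / g z ^ m
        ≤ ∫ z in LL O g T, (s / 2 * (‖Y α β z‖ ^ 2 / g z ^ (2 * (m + 1))) +
            1 / (2 * s) * (g z ^ 2 * ‖Y γ δ z‖ ^ 2)) :=
          setIntegral_mono_on (hint.mono_set (LL_subset T))
            (IntegrableOn.fun_add (i1'.const_mul (s / 2)) (i2'.const_mul (1 / (2 * s)))) hLm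
            fun z hz => hle s hs z (LL_subset T hz)
      _ = s / 2 * (∫ z in LL O g T, ‖Y α β z‖ ^ 2 / g z ^ (2 * (m + 1))) +
          1 / (2 * s) * ∫ z in LL O g T, g z ^ 2 * ‖Y γ δ z‖ ^ 2 := by
          rw [integral_add (i1'.const_mul _) (i2'.const_mul _), integral_const_mul,
            integral_const_mul]
      _ ≤ s / 2 * (C * T) + 1 / (2 * s) * (T * (e * s)) := by
          have h4 := mul_le_mul_of_nonneg_left (b1 T hT) (by positivity : (0 : ℝ) ≤ s / 2)
          have h5 := mul_le_mul_of_nonneg_left h3 (by positivity : (0 : ℝ) ≤ 1 / (2 * s))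
          linarith
      _ ≤ e * T := by
          have h6 : 1 / (2 * s) * (T * (e * s)) = e * T / 2 := by field_simp
          rw [h6]
          nlinarith [mul_le_mul_of_nonneg_right hsC hT.le]

theorem stmtPair (hHY : StmtHY) (hSec : StmtSec) : StmtPair :=
  fun _ _ _ _ _ hH => ⟨pair_i hHY hH, pair_ii hHY hSec hH⟩

end Pool.Agent.Lib.QNL.EPair
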