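import Pool.Agent.Lib.QNL.Calc

/-!
Group E (5): second differences.  `A_a = ∫ w |Y_(a, M-a)|²` has second differences
`∫ w_(z z̄) (|f|² + |h|²) - 2 Re ∫ w_(z̄ z̄) f̄ h`, `f = Y_(a, 2j-a)`, `h = Y_(a+1, 2j-a-1)`.
-/

set_option autoImplicit false

namespace Pool.Agent.Lib.QNL.Sec40

open MeasureTheory Set Filter Topology
open scoped ContDiff ComplexConjugate
open Complex (I)
open Pool.Agent.Lib.QNL.Calc

/-! ### triple products -/

/-- `u v s̄` -/
noncomputable def T3 (u v s : ℂ → ℂ) (z : ℂ) : ℂ := u z * v z * conj (s z)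

section
variable {u v s : ℂ → ℂ} {z : ℂ} {D : Set ℂ}

theorem T3_diff (hu : DifferentiableAt ℝ u z) (hv : DifferentiableAt ℝ v z)
    (hs : DifferentiableAt ℝ s z) : DifferentiableAt ℝ (T3 u v s) z := by
  have hc : DifferentiableAt ℝ (fun z => conj (s z)) z :=
    Complex.conjCLE.toContinuousLinearMap.differentiableAt.comp z hs
  exact (hu.mul hv).mul hc

theorem dz_T3 (hu : DifferentiableAt ℝ u z) (hv : DifferentiableAt ℝ v z)
    (hs : DifferentiableAt ℝ s z) :
    dz (T3 u v s) z = dz u z * v z * conj (s z) + u z * dz v z * conj (s z) +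
      u z * v z * conj (dzb s z) := by
  have hc : DifferentiableAt ℝ (fun z => conj (s z)) z :=
    Complex.conjCLE.toContinuousLinearMap.differentiableAt.comp z hs
  have h1 : dz (fun z => (fun z => u z * v z) z * (fun z => conj (s z)) z) z =
      dz (fun z => u z * v z) z * conj (s z) + u z * v z * dz (fun z => conj (s z)) z :=
    dz_mul (hu.mul hv) hc
  rw [dz_mul hu hv, dz_conj hs] at h1
  refine Eq.trans (Eq.trans rfl h1) ?_
  ring

theorem dzb_T3 (hu : DifferentiableAt ℝ u z) (hv : DifferentiableAt ℝ v z)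
    (hs : DifferentiableAt ℝ s z) :
    dzb (T3 u v s) z = dzb u z * v z * conj (s z) + u z * dzb v z * conj (s z) +
      u z * v z * conj (dz s z) := by
  have hc : DifferentiableAt ℝ (fun z => conj (s z)) z :=
    Complex.conjCLE.toContinuousLinearMap.differentiableAt.comp z hs
  have h1 : dzb (fun z => (fun z => u z * v z) z * (fun z => conj (s z)) z) z =
      dzb (fun z => u z * v z) z * conj (s z) + u z * v z * dzb (fun z => conj (s z)) z :=
    dzb_mul (hu.mul hv) hc
  rw [dzb_mul hu hv, dzb_conj hs] at h1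
  refine Eq.trans (Eq.trans rfl h1) ?_
  ring

theorem T3_sm (hu : Sm D u) (hv : Sm D v) (hs : Sm D s) : Sm D (T3 u v s) :=
  (hu.mul hv).mul hs.conj

end

theorem dz_sub' {f g : ℂ → ℂ} {z : ℂ} (hf : DifferentiableAt ℝ f z)
    (hg : DifferentiableAt ℝ g z) : dz (fun z => f z - g z) z = dz f z - dz g z := by
  simp only [dz, dx_eq, dy_eq]
  rw [dd_sub hf hg, dd_sub hf hg]
  ring

theorem dzb_sub' {f g : ℂ → ℂ} {z : ℂ} (hf : DifferentiableAt ℝ f z)
    (hg : DifferentiableAt ℝ g z) : dzb (fun z => f z - g z) z = dzb f z - dzb g z := by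
  simp only [dzb, dx_eq, dy_eq]
  rw [dd_sub hf hg, dd_sub hf hg]
  ring

/-! ### the pointwise identity -/

/-- first field -/
noncomputable def VV (w f h k p : ℂ → ℂ) (z : ℂ) : ℂ :=
  (T3 (dz w) f h z - T3 (dzb w) h h z) - (T3 w k h z - T3 w p f z)

/-- second field -/
noncomputable def UU (w f h k q : ℂ → ℂ) (z : ℂ) : ℂ :=
  (T3 w q h z - T3 w k f z) - (T3 (dz w) f f z - T3 (dzb w) h f z)

theorem pointwise {D : Set ℂ} (hD : IsOpen D) {w f h k p q : ℂ → ℂ} (hw : Sm D w) (hf : Sm D f)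
    (hh : Sm D h) (hk : Sm D k) (hp : Sm D p) (hq : Sm D q)
    (hfz : ∀ z ∈ D, dz f z = k z) (hfb : ∀ z ∈ D, dzb f z = p z)
    (hhz : ∀ z ∈ D, dz h z = q z) (hhb : ∀ z ∈ D, dzb h z = k z)
    (h1 : ∀ z ∈ D, dz p z = dzb k z) (h2 : ∀ z ∈ D, dzb q z = dz k z) {z : ℂ} (hz : z ∈ D) :
    dz (VV w f h k p) z + dzb (UU w f h k q) z =
      w z * (p z * conj (p z) - 2 * (k z * conj (k z)) + q z * conj (q z))
      - dz (dzb w) z * (f z * conj (f z) + h z * conj (h z))
      + dz (dz w) z * (f z * conj (h z)) + dzb (dzb w) z * (h z * conj (f z)) := by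
  have dw := hw.differentiableAt hD hz
  have df := hf.differentiableAt hD hz
  have dh := hh.differentiableAt hD hz
  have dk := hk.differentiableAt hD hz
  have dp := hp.differentiableAt hD hz
  have dq := hq.differentiableAt hD hz
  have dwz := (hw.dz hD).differentiableAt hD hz
  have dwb := (hw.dzb hD).differentiableAt hD hz
  have e1 : dz (VV w f h k p) z = (dz (T3 (dz w) f h) z - dz (T3 (dzb w) h h) z) -
      (dz (T3 w k h) z - dz (T3 w p f) z) := by
    have a1 := T3_diff dwz df dh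
    have a2 := T3_diff dwb dh dh
    have a3 := T3_diff dw dk dh
    have a4 := T3_diff dw dp df
    have b1 := dz_sub' a1 a2
    have b2 := dz_sub' a3 a4
    have b3 := dz_sub' (f := fun z => T3 (dz w) f h z - T3 (dzb w) h h z)
      (g := fun z => T3 w k h z - T3 w p f z) (a1.sub a2) (a3.sub a4)
    rw [b1, b2] at b3
    exact b3
  have e2 : dzb (UU w f h k q) z = (dzb (T3 w q h) z - dzb (T3 w k f) z) -
      (dzb (T3 (dz w) f f) z - dzb (T3 (dzb w) h f) z) := by
    have a1 := T3_diff dw dq dh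
    have a2 := T3_diff dw dk df
    have a3 := T3_diff dwz df df
    have a4 := T3_diff dwb dh df
    have b1 := dzb_sub' a1 a2
    have b2 := dzb_sub' a3 a4
    have b3 := dzb_sub' (f := fun z => T3 w q h z - T3 w k f z)
      (g := fun z => T3 (dz w) f f z - T3 (dzb w) h f z) (a1.sub a2) (a3.sub a4)
    rw [b1, b2] at b3
    exact b3
  rw [e1, e2, dz_T3 dwz df dh, dz_T3 dwb dh dh, dz_T3 dw dk dh, dz_T3 dw dp df,
    dzb_T3 dw dq dh, dzb_T3 dw dk df, dzb_T3 dwz df df, dzb_T3 dwb dh df]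
  rw [hfz z hz, hfb z hz, hhz z hz, hhb z hz, h1 z hz, h2 z hz, ← dz_dzb hw hD hz]
  ring

/-! ### the integral identity -/

theorem integral_dz_zero {F : ℂ → ℂ} {U K : Set ℂ} (hU : IsOpen U) (hK : IsCompact K)
    (hKU : K ⊆ U) (hF : ContDiffOn ℝ 1 F U) (h0 : ∀ z, z ∉ K → F z = 0) :
    (Integrable (dz F) ∧ ∫ z, dz F z = 0) ∧ (Integrable (dzb F) ∧ ∫ z, dzb F z = 0) := by
  obtain ⟨i1, e1⟩ := integral_dv_zero hU hK hKU hF h0 1
  obtain ⟨i2, e2⟩ := integral_dv_zero hU hK hKU hF h0 I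
  have i2' : Integrable (fun z => I * dv I F z) := i2.const_mul I
  refine ⟨⟨(i1.sub i2').div_const 2, ?_⟩, ⟨(i1.add i2').div_const 2, ?_⟩⟩
  · have : ∫ z, dz F z = ∫ z, (dv 1 F z - I * dv I F z) / 2 := rfl
    rw [this, integral_div, integral_sub i1 i2', integral_const_mul, e1, e2]
    simp
  · have : ∫ z, dzb F z = ∫ z, (dv 1 F z + I * dv I F z) / 2 := rfl
    rw [this, integral_div, integral_add i1 i2', integral_const_mul, e1, e2]
    simp

theorem dz_zero_of_cpt {F : ℂ → ℂ} {K : Set ℂ} (hK : IsCompact K)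
    (h0 : ∀ z, z ∉ K → F z = 0) {z : ℂ} (hz : z ∉ K) : dz F z = 0 ∧ dzb F z = 0 := by
  have h1 := dv_zero_of_cpt hK h0 hz 1
  have h2 := dv_zero_of_cpt hK h0 hz I
  constructor
  · rw [dz_def, h1, h2]; simp
  · rw [dzb_def, h1, h2]; simp

/-- **second differences, exact form** -/
theorem integral_identity {D K : Set ℂ} (hD : IsOpen D) (hK : IsCompact K) (hKD : K ⊆ D)
    {w f h k p q : ℂ → ℂ} (hw : Sm D w) (hw0 : ∀ z, z ∉ K → w z = 0) (hf : Sm D f)
    (hh : Sm D h) (hk : Sm D k) (hp : Sm D p) (hq : Sm D q)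
    (hfz : ∀ z ∈ D, dz f z = k z) (hfb : ∀ z ∈ D, dzb f z = p z)
    (hhz : ∀ z ∈ D, dz h z = q z) (hhb : ∀ z ∈ D, dzb h z = k z)
    (h1 : ∀ z ∈ D, dz p z = dzb k z) (h2 : ∀ z ∈ D, dzb q z = dz k z) :
    ∫ z, w z * (p z * conj (p z) - 2 * (k z * conj (k z)) + q z * conj (q z)) =
      ∫ z, (dz (dzb w) z * (f z * conj (f z) + h z * conj (h z))
        - dz (dz w) z * (f z * conj (h z)) - dzb (dzb w) z * (h z * conj (f z))) := by
  have hwz := hw.dz hD
  have hwb := hw.dzb hD
  have wz0 : ∀ z, z ∉ K → dz w z = 0 := fun z hz => (dz_zero_of_cpt hK hw0 hz).1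
  have wb0 : ∀ z, z ∉ K → dzb w z = 0 := fun z hz => (dz_zero_of_cpt hK hw0 hz).2
  have wzz0 : ∀ z, z ∉ K → dz (dz w) z = 0 := fun z hz => (dz_zero_of_cpt hK wz0 hz).1
  have wzb0 : ∀ z, z ∉ K → dz (dzb w) z = 0 := fun z hz => (dz_zero_of_cpt hK wb0 hz).1
  have wbb0 : ∀ z, z ∉ K → dzb (dzb w) z = 0 := fun z hz => (dz_zero_of_cpt hK wb0 hz).2
  have sV : Sm D (VV w f h k p) :=
    ((T3_sm hwz hf hh).sub (T3_sm hwb hh hh)).sub ((T3_sm hw hk hh).sub (T3_sm hw hp hf))
  have sU : Sm D (UU w f h k q) :=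
    ((T3_sm hw hq hh).sub (T3_sm hw hk hf)).sub ((T3_sm hwz hf hf).sub (T3_sm hwb hh hf))
  have V0 : ∀ z, z ∉ K → VV w f h k p z = 0 := fun z hz => by
    simp only [VV, T3, hw0 z hz, wz0 z hz, wb0 z hz]
    ring
  have U0 : ∀ z, z ∉ K → UU w f h k q z = 0 := fun z hz => by
    simp only [UU, T3, hw0 z hz, wz0 z hz, wb0 z hz]
    ring
  obtain ⟨⟨iV, eV⟩, -⟩ := integral_dz_zero hD hK hKD (ContDiffOn.of_le sV (by simp)) V0
  obtain ⟨-, ⟨iU, eU⟩⟩ := integral_dz_zero hD hK hKD (ContDiffOn.of_le sU (by simp)) U0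
  have hsum : ∫ z, (dz (VV w f h k p) z + dzb (UU w f h k q) z) = 0 := by
    rw [integral_add iV iU, eV, eU, add_zero]
  have hpt : ∀ z, dz (VV w f h k p) z + dzb (UU w f h k q) z =
      w z * (p z * conj (p z) - 2 * (k z * conj (k z)) + q z * conj (q z)) -
      (dz (dzb w) z * (f z * conj (f z) + h z * conj (h z))
        - dz (dz w) z * (f z * conj (h z)) - dzb (dzb w) z * (h z * conj (f z))) := by
    intro z
    by_cases hz : z ∈ K
    · rw [pointwise hD hw hf hh hk hp hq hfz hfb hhz hhb h1 h2 (hKD hz)]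
      ring
    · rw [(dz_zero_of_cpt hK V0 hz).1, (dz_zero_of_cpt hK U0 hz).2, hw0 z hz, wzz0 z hz,
        wzb0 z hz, wbb0 z hz]
      ring
  have i1 : Integrable (fun z => w z * (p z * conj (p z) - 2 * (k z * conj (k z)) +
      q z * conj (q z))) := by
    refine integrable_of_cpt hD hK hKD ?_ (fun z hz => by rw [hw0 z hz, zero_mul])
    have := hw.continuousOn
    have := hp.continuousOn
    have := hk.continuousOn
    have := hq.continuousOn
    have c : Continuous (fun z : ℂ => conj z) := Complex.continuous_conj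
    have c1 := c.comp_continuousOn hp.continuousOn
    have c2 := c.comp_continuousOn hk.continuousOn
    have c3 := c.comp_continuousOn hq.continuousOn
    exact hw.continuousOn.mul (((hp.continuousOn.mul c1).sub
      (continuousOn_const.mul (hk.continuousOn.mul c2))).add (hq.continuousOn.mul c3))
  have i2 : Integrable (fun z => (dz (dzb w) z * (f z * conj (f z) + h z * conj (h z))
        - dz (dz w) z * (f z * conj (h z)) - dzb (dzb w) z * (h z * conj (f z)))) := by
    refine integrable_of_cpt hD hK hKD ?_ (fun z hz => by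
      rw [wzz0 z hz, wzb0 z hz, wbb0 z hz]; ring)
    have c : Continuous (fun z : ℂ => conj z) := Complex.continuous_conj
    have c1 := c.comp_continuousOn hf.continuousOn
    have c2 := c.comp_continuousOn hh.continuousOn
    exact (((hwb.dz hD).continuousOn.mul ((hf.continuousOn.mul c1).add
      (hh.continuousOn.mul c2))).sub ((hwz.dz hD).continuousOn.mul (hf.continuousOn.mul c2))).sub
      ((hwb.dzb hD).continuousOn.mul (hh.continuousOn.mul c1))
  simp only [hpt] at hsum
  rw [integral_sub i1 i2] at hsum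
  exact sub_eq_zero.1 hsum

/-! ### a convexity lemma -/

/-- Bounded second differences and bounded ends. -/
theorem bounded_of_secdiff (M : ℕ) (A : ℕ → ℝ) (K : ℝ) (hK : 0 ≤ K)
    (h2 : ∀ a, a + 2 ≤ M → |A a - 2 * A (a + 1) + A (a + 2)| ≤ K) (h0 : A 0 ≤ K)
    (hM : A M ≤ K) : ∀ a, a ≤ M → A a ≤ K + K / 2 * (M : ℝ) ^ 2 := by
  -- `c` is convex
  set c : ℕ → ℝ := fun a => A a + K / 2 * (a : ℝ) ^ 2 with hc
  have hconv : ∀ a, a + 2 ≤ M → c (a + 1) - c a ≤ c (a + 2) - c (a + 1) := by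
    intro a ha
    have := (abs_le.1 (h2 a ha)).1
    simp only [hc]
    push_cast
    nlinarith
  have hQ : ∀ a, a ≤ M → c a ≤ c 0 ∨ (1 ≤ a ∧ c (a - 1) ≤ c a) := by
    intro a
    induction a with
    | zero => intro _; exact Or.inl le_rfl
    | succ a ih =>
      intro ha
      by_cases hle : c a ≤ c (a + 1)
      · exact Or.inr ⟨by omega, by simpa using hle⟩
      · left
        push Not at hle
        rcases ih (by omega) with h | ⟨h1, h3⟩
        · exact hle.le.trans h
        · exfalso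
          obtain ⟨b, rfl⟩ : ∃ b, a = b + 1 := ⟨a - 1, by omega⟩
          have := hconv b (by omega)
          simp only [Nat.add_sub_cancel] at h3
          linarith
  have hinc : ∀ a, 1 ≤ a → c (a - 1) ≤ c a → ∀ b, a + b ≤ M → c a ≤ c (a + b) ∧
      c (a + b - 1) ≤ c (a + b) := by
    intro a ha hca b
    induction b with
    | zero => intro _; exact ⟨le_rfl, by simpa using hca⟩
    | succ b ih =>
      intro hb
      obtain ⟨h3, h4⟩ := ih (by omega)
      obtain ⟨e, he⟩ : ∃ e, a + b = e + 1 := ⟨a + b - 1, by omega⟩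
      have h5 := hconv e (by omega)
      have h6 : c e ≤ c (e + 1) := by
        have : a + b - 1 = e := by omega
        rw [this, he] at h4
        exact h4
      have h7 : a + (b + 1) = e + 2 := by omega
      have h8 : a + (b + 1) - 1 = e + 1 := by omega
      rw [h8, h7]
      rw [he] at h3
      constructor
      · linarith
      · linarith
  intro a ha
  have hca : A a ≤ c a := by
    simp only [hc]
    have : 0 ≤ K / 2 * (a : ℝ) ^ 2 := by positivity
    linarith
  have hc0 : c 0 ≤ K + K / 2 * (M : ℝ) ^ 2 := by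
    simp only [hc]
    have : 0 ≤ K / 2 * (M : ℝ) ^ 2 := by positivity
    push_cast
    nlinarith
  have hcM : c M ≤ K + K / 2 * (M : ℝ) ^ 2 := by
    simp only [hc]
    linarith
  rcases hQ a ha with h | ⟨h1, h3⟩
  · linarith
  · have := (hinc a h1 h3 (M - a) (by omega)).1
    rw [show a + (M - a) = M by omega] at this
    linarith

end Pool.Agent.Lib.QNL.Sec40
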