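import Pool.Agent.Lib.QNL.Wt

/-!
Bounds for the weight of the layer inequality, uniform in `0 < h ≤ 1`: `bounds` and `lap_layer`.
-/

set_option autoImplicit false

namespace Pool.Agent.Lib.QNL.WtBd

open MeasureTheory Filter Topology Set Pool.Agent.Lib.QNL.WProf Pool.Agent.Lib.QNL.Wt
open scoped ContDiff

section weight

variable {τ δ : ℝ} {Φ : ℝ → ℝ} {O : Set ℂ} {g θ : ℂ → ℝ} {h : ℝ} {z : ℂ}

/-! ### bounds -/

theorem dv_dv_eq {f : ℂ → ℝ} (hO : IsOpen O) (hf : ContDiffOn ℝ ∞ f O) (hz : z ∈ O) (u v : ℂ) :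
    dv u (dv v f) z = fderiv ℝ (fderiv ℝ f) z u v := by
  have h2 : ContDiffAt ℝ ∞ f z := hf.contDiffAt (hO.mem_nhds hz)
  have hd : DifferentiableAt ℝ (fderiv ℝ f) z :=
    (h2.fderiv_right (m := ∞) (by simp)).differentiableAt (by simp)
  unfold dv
  rw [fderiv_clm_apply hd (differentiableAt_const v)]
  simp

/-- derivatives of a smooth function are bounded on a compact set -/
theorem bd_fun {f : ℂ → ℝ} {K : Set ℂ} (hO : IsOpen O) (hK : IsCompact K) (hKO : K ⊆ O)
    (hf : ContDiffOn ℝ ∞ f O) : ∃ M : ℝ, 0 ≤ M ∧ ∀ z ∈ K, |f z| ≤ M ∧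
      (∀ u, |dv u f z| ≤ M * ‖u‖) ∧ ∀ u v, |dv u (dv v f) z| ≤ M * (‖u‖ * ‖v‖) := by
  have hf1 : ContDiffOn ℝ ∞ (fderiv ℝ f) O := hf.fderiv_of_isOpen hO (by simp)
  have hf2 : ContDiffOn ℝ ∞ (fderiv ℝ (fderiv ℝ f)) O := hf1.fderiv_of_isOpen hO (by simp)
  obtain ⟨M0, h0⟩ := hK.exists_bound_of_continuousOn (hf.continuousOn.mono hKO)
  obtain ⟨M1, h1⟩ := hK.exists_bound_of_continuousOn (hf1.continuousOn.mono hKO)
  obtain ⟨M2, h2⟩ := IsCompact.exists_bound_of_continuousOn (E := ℂ →L[ℝ] ℂ →L[ℝ] ℝ) hK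
    (hf2.continuousOn.mono hKO)
  refine ⟨max 0 (max M0 (max M1 M2)), le_max_left _ _, fun z hz => ⟨?_, fun u => ?_,
    fun u v => ?_⟩⟩
  · exact (h0 z hz).trans ((le_max_left _ _).trans (le_max_right _ _))
  · refine ((fderiv ℝ f z).le_opNorm u).trans (mul_le_mul_of_nonneg_right ?_ (norm_nonneg _))
    exact (h1 z hz).trans ((le_max_left _ _).trans ((le_max_right _ _).trans (le_max_right _ _)))
  · rw [dv_dv_eq hO hf (hKO hz)]
    refine (((fderiv ℝ (fderiv ℝ f) z) u).le_opNorm v).trans ?_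
    rw [← mul_assoc]
    refine mul_le_mul_of_nonneg_right ?_ (norm_nonneg _)
    refine ((fderiv ℝ (fderiv ℝ f) z).le_opNorm u).trans
      (mul_le_mul_of_nonneg_right ?_ (norm_nonneg _))
    exact (h2 z hz).trans ((le_max_right _ _).trans ((le_max_right _ _).trans
      (le_max_right _ _)))

/-- all the bounds for the data on `{z ∈ O | 0 ≤ g z}` -/
theorem exists_bd (A : Dat O g θ) : ∃ M : ℝ, 1 ≤ M ∧ ∀ z ∈ O, 0 ≤ g z →
    g z ≤ M ∧ θ z ≤ M ∧ 1 ≤ M * θ z ∧
      (∀ u, |dv u g z| ≤ M * ‖u‖) ∧ (∀ u v, |dv u (dv v g) z| ≤ M * (‖u‖ * ‖v‖)) ∧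
      (∀ u, |dv u θ z| ≤ M * ‖u‖) ∧ ∀ u v, |dv u (dv v θ) z| ≤ M * (‖u‖ * ‖v‖) := by
  have hKO : {z | z ∈ O ∧ 0 ≤ g z} ⊆ O := fun z hz => hz.1
  obtain ⟨M1, hM1, h1⟩ := bd_fun A.open_ A.cpt hKO A.g_sm
  obtain ⟨M2, hM2, h2⟩ := bd_fun A.open_ A.cpt hKO A.θ_sm
  obtain ⟨M3, hM3, h3⟩ := bd_fun A.open_ A.cpt hKO (f := fun z => (θ z)⁻¹)
    (A.θ_sm.inv fun z hz => (A.θ_pos z hz).ne')
  refine ⟨1 + M1 + M2 + M3, by linarith, fun z hz hg => ?_⟩
  obtain ⟨a1, a2, a3⟩ := h1 z ⟨hz, hg⟩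
  obtain ⟨b1, b2, b3⟩ := h2 z ⟨hz, hg⟩
  obtain ⟨c1, -, -⟩ := h3 z ⟨hz, hg⟩
  have hθ := A.θ_pos z hz
  have ha := le_abs_self (g z)
  have hb := le_abs_self (θ z)
  have hc := (le_abs_self ((θ z)⁻¹)).trans c1
  rw [inv_le_iff_one_le_mul₀ hθ] at hc
  refine ⟨by linarith, by linarith, ?_, fun u => ?_, fun u v => ?_, fun u => ?_, fun u v => ?_⟩
  · nlinarith
  · exact (a2 u).trans (mul_le_mul_of_nonneg_right (by linarith) (by positivity))
  · exact (a3 u v).trans (mul_le_mul_of_nonneg_right (by linarith) (by positivity))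
  · exact (b2 u).trans (mul_le_mul_of_nonneg_right (by linarith) (by positivity))
  · exact (b3 u v).trans (mul_le_mul_of_nonneg_right (by linarith) (by positivity))

/-- off the support the derivatives vanish -/
theorem dv_wt_zero (H : Prof τ δ Φ) (A : Dat O g θ) (hh : 0 < h)
    (hz : z ∉ {z | z ∈ O ∧ δ * (h * θ z) ≤ g z}) (v : ℂ) : dv v (wt Φ O g θ h) z = 0 :=
  dv_zero_of_cpt (cpt_supp H A hh) (fun _ hz => wt_zero' H A hh hz) hz v

theorem dv_dv_wt_zero (H : Prof τ δ Φ) (A : Dat O g θ) (hh : 0 < h)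
    (hz : z ∉ {z | z ∈ O ∧ δ * (h * θ z) ≤ g z}) (u v : ℂ) :
    dv u (dv v (wt Φ O g θ h)) z = 0 :=
  dv_zero_of_cpt (cpt_supp H A hh) (fun _ hz => dv_wt_zero H A hh hz v) hz u

theorem lap_wt_zero (H : Prof τ δ Φ) (A : Dat O g θ) (hh : 0 < h)
    (hz : z ∉ {z | z ∈ O ∧ δ * (h * θ z) ≤ g z}) : lap (wt Φ O g θ h) z = 0 := by
  unfold lap
  rw [dx_eq, dy_eq, dx_eq, dy_eq, dv_dv_wt_zero H A hh hz, dv_dv_wt_zero H A hh hz, add_zero]

/-- **bounds for the weight**, uniform in `0 < h ≤ 1` -/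
theorem bounds (H : Prof τ δ Φ) (hτ : 0 ≤ τ) (A : Dat O g θ) : ∃ C : ℝ, 0 < C ∧
    ∀ h, 0 < h → h ≤ 1 → ∀ z, (∀ u, |dv u (wt Φ O g θ h) z| ≤ C * ‖u‖) ∧
      (∀ u v, |dv u (dv v (wt Φ O g θ h)) z| ≤ C / h * (‖u‖ * ‖v‖)) ∧
      (C * h ≤ g z → ∀ u v, |dv u (dv v (wt Φ O g θ h)) z| ≤ C * (‖u‖ * ‖v‖)) ∧
      (h * θ z ≤ g z → ∀ u v, |dv u (dv v (wt Φ O g θ h)) z| ≤ C * (‖u‖ * ‖v‖)) := by
  obtain ⟨M, hM1, hM⟩ := exists_bd A
  have hM0 : 0 < M := by linarith
  set C : ℝ := (1 + τ) * (2 * M) * (2 * M) * M + 2 * M with hC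
  have hC0 : 0 ≤ (1 + τ) * (2 * M) * (2 * M) * M := by positivity
  have hCp : 0 < C := by positivity
  have hCM : 2 * M ≤ C := by linarith
  refine ⟨C, hCp, fun h hh hh1 z => ?_⟩
  have hCh : C ≤ C / h := by
    rw [le_div_iff₀ hh]; nlinarith
  by_cases hz : z ∈ {z | z ∈ O ∧ δ * (h * θ z) ≤ g z}
  · obtain ⟨hzO, hzg⟩ := hz
    have hθ := A.θ_pos z hzO
    have hp := mul_pos hh hθ
    have hg0 : 0 ≤ g z := by
      have := mul_pos H.δpos hp
      linarith
    obtain ⟨m1, m2, m3, m4, m5, m6, m7⟩ := hM z hzO hg0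
    set q := g z / (h * θ z) with hq
    have hq0 : 0 ≤ q := div_nonneg hg0 hp.le
    obtain ⟨g1, g2⟩ := H.gap hq0
    have gabs : |Φ q - q * deriv Φ q| ≤ 1 := by rw [abs_le]; constructor <;> linarith
    have d1abs : |deriv Φ q| ≤ 1 := by
      rw [abs_le]; constructor <;> linarith [H.d1nonneg q, H.d1le q]
    have far : 1 ≤ q → ∀ u v, |dv u (dv v (wt Φ O g θ h)) z| ≤ C * (‖u‖ * ‖v‖) := by
      intro hq1 u v
      rw [dv_dv_wt H A hh hzO, ← hq, H.d2zero' hq1]
      simp only [zero_mul, zero_div, zero_add]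
      have n0 : 0 ≤ ‖u‖ * ‖v‖ := by positivity
      calc |deriv Φ q * dv u (dv v g) z + h * dv u (dv v θ) z * (Φ q - q * deriv Φ q)|
          ≤ |deriv Φ q| * |dv u (dv v g) z| + h * |dv u (dv v θ) z| * |Φ q - q * deriv Φ q| := by
            refine (abs_add_le _ _).trans ?_
            rw [abs_mul, abs_mul, abs_mul, abs_of_pos hh]
        _ ≤ 1 * (M * (‖u‖ * ‖v‖)) + 1 * (M * (‖u‖ * ‖v‖)) * 1 := by
            apply add_le_add
            · exact mul_le_mul d1abs (m5 u v) (abs_nonneg _) zero_le_one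
            · apply mul_le_mul _ gabs (abs_nonneg _) (by positivity)
              exact mul_le_mul hh1 (m7 u v) (abs_nonneg _) zero_le_one
        _ = 2 * M * (‖u‖ * ‖v‖) := by ring
        _ ≤ C * (‖u‖ * ‖v‖) := mul_le_mul_of_nonneg_right hCM n0
    refine ⟨fun u => ?_, fun u v => ?_, fun hfar => far ?_, fun hfar => far ?_⟩
    · rw [dv_wt H A hh hzO, ← hq]
      calc |deriv Φ q * dv u g z + h * dv u θ z * (Φ q - q * deriv Φ q)|
          ≤ |deriv Φ q| * |dv u g z| + h * |dv u θ z| * |Φ q - q * deriv Φ q| := by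
            refine (abs_add_le _ _).trans ?_
            rw [abs_mul, abs_mul, abs_mul, abs_of_pos hh]
        _ ≤ 1 * (M * ‖u‖) + 1 * (M * ‖u‖) * 1 := by
            apply add_le_add
            · exact mul_le_mul d1abs (m4 u) (abs_nonneg _) zero_le_one
            · apply mul_le_mul _ gabs (abs_nonneg _) (by positivity)
              exact mul_le_mul hh1 (m6 u) (abs_nonneg _) zero_le_one
        _ = 2 * M * ‖u‖ := by ring
        _ ≤ C * ‖u‖ := mul_le_mul_of_nonneg_right hCM (norm_nonneg _)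
    · have n0 : 0 ≤ ‖u‖ * ‖v‖ := by positivity
      rcases le_total 1 q with hq1 | hq1
      · exact (far hq1 u v).trans (mul_le_mul_of_nonneg_right hCh n0)
      · rw [dv_dv_wt H A hh hzO, ← hq]
        have e1 : ∀ u, |dv u g z - q * (h * dv u θ z)| ≤ 2 * M * ‖u‖ := by
          intro u
          calc |dv u g z - q * (h * dv u θ z)| ≤ |dv u g z| + q * (h * |dv u θ z|) := by
                refine (abs_sub _ _).trans ?_
                rw [abs_mul, abs_mul, abs_of_pos hh, abs_of_nonneg hq0]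
            _ ≤ M * ‖u‖ + 1 * (1 * (M * ‖u‖)) := by
                apply add_le_add (m4 u)
                apply mul_le_mul hq1 _ (by positivity) zero_le_one
                exact mul_le_mul hh1 (m6 u) (abs_nonneg _) zero_le_one
            _ = 2 * M * ‖u‖ := by ring
        have e2 : |deriv (deriv Φ) q| ≤ 1 + τ := by
          rw [abs_of_nonneg (H.d2nonneg q)]; exact H.d2le q
        have e3 : 1 / (h * θ z) ≤ M / h := by
          rw [div_le_div_iff₀ hp hh]
          nlinarith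
        have hhM : h * (2 * M) ≤ 2 * M := by nlinarith
        calc |deriv (deriv Φ) q * (dv u g z - q * (h * dv u θ z)) *
              (dv v g z - q * (h * dv v θ z)) / (h * θ z) + deriv Φ q * dv u (dv v g) z +
              h * dv u (dv v θ) z * (Φ q - q * deriv Φ q)|
            ≤ |deriv (deriv Φ) q| * |dv u g z - q * (h * dv u θ z)| *
              |dv v g z - q * (h * dv v θ z)| * (1 / (h * θ z)) +
              |deriv Φ q| * |dv u (dv v g) z| +
              h * |dv u (dv v θ) z| * |Φ q - q * deriv Φ q| := by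
              refine (abs_add_le _ _).trans (add_le_add ((abs_add_le _ _).trans
                (add_le_add (le_of_eq ?_) (le_of_eq ?_))) (le_of_eq ?_))
              · rw [abs_div, abs_mul, abs_mul, abs_of_pos hp]; ring
              · rw [abs_mul]
              · rw [abs_mul, abs_mul, abs_of_pos hh]
          _ ≤ (1 + τ) * (2 * M * ‖u‖) * (2 * M * ‖v‖) * (M / h) + 1 * (M * (‖u‖ * ‖v‖)) +
              1 * (M * (‖u‖ * ‖v‖)) * 1 := by
              apply add_le_add
              · apply add_le_add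
                · apply mul_le_mul _ e3 (by positivity) (by positivity)
                  apply mul_le_mul _ (e1 v) (abs_nonneg _) (by positivity)
                  exact mul_le_mul e2 (e1 u) (abs_nonneg _) (by positivity)
                · exact mul_le_mul d1abs (m5 u v) (abs_nonneg _) zero_le_one
              · apply mul_le_mul _ gabs (abs_nonneg _) (by positivity)
                exact mul_le_mul hh1 (m7 u v) (abs_nonneg _) zero_le_one
          _ = ((1 + τ) * (2 * M) * (2 * M) * M + h * (2 * M)) / h * (‖u‖ * ‖v‖) := by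
              field_simp
              ring
          _ ≤ C / h * (‖u‖ * ‖v‖) := by
              apply mul_le_mul_of_nonneg_right _ n0
              apply div_le_div_of_nonneg_right _ hh.le
              rw [hC]; linarith
    · rw [hq, le_div_iff₀ hp, one_mul]
      refine le_trans ?_ hfar
      nlinarith
    · rwa [hq, le_div_iff₀ hp, one_mul]
  · refine ⟨fun u => ?_, fun u v => ?_, fun _ u v => ?_, fun _ u v => ?_⟩
    · rw [dv_wt_zero H A hh hz, abs_zero]; positivity
    · rw [dv_dv_wt_zero H A hh hz, abs_zero]; positivity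
    · rw [dv_dv_wt_zero H A hh hz, abs_zero]; positivity
    · rw [dv_dv_wt_zero H A hh hz, abs_zero]; positivity

/-- **the Laplacian of the weight, layer form**: an upper bound and a lower bound -/
theorem lap_layer (H : Prof τ δ Φ) (hτ : 0 ≤ τ) (A : Dat O g θ) : ∃ C : ℝ, 0 < C ∧
    ∀ h, 0 < h → h ≤ 1 → ∀ z ∈ O, 0 < g z →
      |lap (wt Φ O g θ h) z - (deriv (deriv Φ) (g z / (h * θ z)) * (gr g z / (h * θ z)) -
        deriv Φ (g z / (h * θ z)))| ≤ if g z < h * θ z then C else 0 := by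
  obtain ⟨M, hM1, hM⟩ := exists_bd A
  have hM0 : 0 < M := by linarith
  set C : ℝ := (1 + τ) * (6 * M * M) * M with hC
  have hCp : 0 < C := by positivity
  refine ⟨C, hCp, fun h hh hh1 z hz hg => ?_⟩
  have hθ := A.θ_pos z hz
  have hp := mul_pos hh hθ
  obtain ⟨m1, m2, m3, m4, m5, m6, m7⟩ := hM z hz hg.le
  rw [lap_wt H A hh hz]
  set q := g z / (h * θ z) with hq
  have hq0 : 0 ≤ q := div_nonneg hg.le hp.le
  split_ifs with hlt
  · have hq1 : q ≤ 1 := by rw [hq, div_le_one hp]; exact hlt.le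
    have g1 := m4 1
    have g2 := m4 Complex.I
    have t1 := m6 1
    have t2 := m6 Complex.I
    simp only [norm_one, Complex.norm_I, mul_one] at g1 g2 t1 t2
    rw [← dx_eq] at g1 t1
    rw [← dy_eq] at g2 t2
    have key : ∀ a b : ℝ, |a| ≤ M → |b| ≤ M → |(a - q * (h * b)) ^ 2 - a ^ 2| ≤ 3 * M * M * h := by
      intro a b ha hb
      have e : (a - q * (h * b)) ^ 2 - a ^ 2 = (q * h) * (b * (q * h * b - 2 * a)) := by ring
      rw [e, abs_mul, abs_of_nonneg (mul_nonneg hq0 hh.le), abs_mul]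
      have e1 : |q * h * b - 2 * a| ≤ 3 * M := by
        calc |q * h * b - 2 * a| ≤ |q * h * b| + |2 * a| := abs_sub _ _
          _ = (q * h) * |b| + 2 * |a| := by
              rw [abs_mul, abs_mul 2 a, abs_of_nonneg (mul_nonneg hq0 hh.le)]; norm_num
          _ ≤ 1 * M + 2 * M := by
              apply add_le_add
              · apply mul_le_mul _ hb (abs_nonneg _) zero_le_one
                exact mul_le_one₀ hq1 hh.le hh1
              · linarith
          _ = 3 * M := by ring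
      calc q * h * (|b| * |q * h * b - 2 * a|) ≤ (1 * h) * (M * (3 * M)) := by
            apply mul_le_mul _ _ (by positivity) (by positivity)
            · exact mul_le_mul_of_nonneg_right hq1 hh.le
            · exact mul_le_mul hb e1 (abs_nonneg _) hM0.le
        _ = 3 * M * M * h := by ring
    have k1 := key _ _ g1 t1
    have k2 := key _ _ g2 t2
    have e2 : |deriv (deriv Φ) q| ≤ 1 + τ := by
      rw [abs_of_nonneg (H.d2nonneg q)]; exact H.d2le q
    have e3 : 1 / (h * θ z) ≤ M / h := by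
      rw [div_le_div_iff₀ hp hh]
      nlinarith
    have e4 : deriv (deriv Φ) q * ((dx g z - q * (h * dx θ z)) ^ 2 +
        (dy g z - q * (h * dy θ z)) ^ 2) / (h * θ z) - deriv Φ q -
        (deriv (deriv Φ) q * (gr g z / (h * θ z)) - deriv Φ q) =
        deriv (deriv Φ) q * (((dx g z - q * (h * dx θ z)) ^ 2 - dx g z ^ 2) +
        ((dy g z - q * (h * dy θ z)) ^ 2 - dy g z ^ 2)) * (1 / (h * θ z)) := by
      unfold gr; ring
    rw [e4, abs_mul, abs_mul, abs_of_pos (by positivity : 0 < 1 / (h * θ z))]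
    calc |deriv (deriv Φ) q| * |((dx g z - q * (h * dx θ z)) ^ 2 - dx g z ^ 2) +
        ((dy g z - q * (h * dy θ z)) ^ 2 - dy g z ^ 2)| * (1 / (h * θ z))
        ≤ (1 + τ) * (3 * M * M * h + 3 * M * M * h) * (M / h) := by
          apply mul_le_mul _ e3 (by positivity) (by positivity)
          apply mul_le_mul e2 _ (abs_nonneg _) (by positivity)
          exact (abs_add_le _ _).trans (add_le_add k1 k2)
      _ = C := by rw [hC]; field_simp; ring
  · have hq1 : 1 ≤ q := by rw [hq, le_div_iff₀ hp, one_mul]; exact not_lt.1 hlt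
    rw [H.d2zero' hq1]
    simp

end weight

end Pool.Agent.Lib.QNL.WtBd
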