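import Pool.Agent.Lib.QNL.EHY
import Pool.Agent.Lib.QNL.Sec40
import Pool.Agent.Lib.QNL.WtBd

/-!
Group E (6): `∫_D g |D^(2j+1) Y|² < ∞` from the bounded ends and the second differences.
-/

set_option autoImplicit false

namespace Pool.Agent.Lib.QNL.Sec40

open MeasureTheory Set Filter Topology
open scoped ContDiff ComplexConjugate ENNReal
open Complex (I)
open Pool.Agent.Lib.QNL.Calc Pool.Agent.Lib.QNL.ES Pool.Agent.Lib.QNL.Wt
  Pool.Agent.Lib.QNL.WProf Pool.Agent.Lib.QNL.Hardy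

/-- bounded ends -/
def StmtEnds : Prop := ∀ (O : Set ℂ) (g θ : ℂ → ℝ) (j : ℕ) (Y : ℕ → ℕ → ℂ → ℂ) (τ δ : ℝ)
  (Φ : ℝ → ℝ), 0 ≤ τ → Hy O g θ j Y → Prof τ δ Φ → ∃ C : ℝ, ∀ h, 0 < h → h ≤ 1 →
    ∫ z in DD O g, wt Φ O g θ h z * (‖Y (2 * j + 1) 0 z‖ ^ 2 + ‖Y 0 (2 * j + 1) z‖ ^ 2) ≤ C

/-- the second Wirtinger derivatives of a real function -/
theorem norm_dd_le {w : ℂ → ℝ} (hw : ContDiff ℝ ∞ w) {z : ℂ} {B : ℝ}
    (hB : ∀ u v : ℂ, |dv u (dv v w) z| ≤ B * (‖u‖ * ‖v‖)) :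
    ‖dz (dzb (fun z => (w z : ℂ))) z‖ ≤ B ∧ ‖dz (dz (fun z => (w z : ℂ))) z‖ ≤ B ∧
      ‖dzb (dzb (fun z => (w z : ℂ))) z‖ ≤ B := by
  set f : ℂ → ℂ := fun z => (w z : ℂ) with hf
  have hws : Sm univ w := sm_univ.2 hw
  have hfs : Sm univ f := hws.ofReal
  have e1 : ∀ u, dv u f = fun z => ((dv u w z : ℝ) : ℂ) := fun u => by
    funext z
    exact dd_ofReal (hw.differentiable (by simp) z) u
  have e2 : ∀ u v, dv u (dv v f) z = ((dv u (dv v w) z : ℝ) : ℂ) := fun u v => by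
    rw [e1 v]
    exact dd_ofReal ((hws.dv isOpen_univ v).differentiableAt isOpen_univ (mem_univ z)) u
  have c11 := hB 1 1
  have c1I := hB 1 I
  have cI1 := hB I 1
  have cII := hB I I
  simp only [norm_one, Complex.norm_I, mul_one] at c11 c1I cI1 cII
  have n : ∀ x : ℝ, |x| ≤ B → ‖(x : ℂ)‖ ≤ B := fun x hx => by
    rw [Complex.norm_real]; exact hx
  have n11 := n _ c11
  have n1I := n _ c1I
  have nI1 := n _ cI1
  have nII := n _ cII
  have hz := mem_univ z
  have key : ∀ a b c d : ℂ, ‖a‖ ≤ B → ‖b‖ ≤ B → ‖c‖ ≤ B → ‖d‖ ≤ B → ∀ s t : ℂ, ‖s‖ = 1 →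
      ‖t‖ = 1 → ‖((a + s * b) / 2 + t * ((c + s * d) / 2)) / 2‖ ≤ B := by
    intro a b c d ha hb hc hd s t hs ht
    have h1 : ‖(a + s * b) / 2‖ ≤ B := by
      rw [norm_div, Complex.norm_ofNat]
      have : ‖a + s * b‖ ≤ ‖a‖ + ‖b‖ := (norm_add_le _ _).trans (by rw [norm_mul, hs, one_mul])
      linarith
    have h2 : ‖t * ((c + s * d) / 2)‖ ≤ B := by
      rw [norm_mul, ht, one_mul, norm_div, Complex.norm_ofNat]
      have : ‖c + s * d‖ ≤ ‖c‖ + ‖d‖ := (norm_add_le _ _).trans (by rw [norm_mul, hs, one_mul])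
      linarith
    rw [norm_div, Complex.norm_ofNat]
    have := norm_add_le ((a + s * b) / 2) (t * ((c + s * d) / 2))
    linarith
  have nI : ‖(-I : ℂ)‖ = 1 := by rw [norm_neg, Complex.norm_I]
  refine ⟨?_, ?_, ?_⟩
  · rw [dz_def, dd_dzb hfs isOpen_univ hz, dd_dzb hfs isOpen_univ hz]
    simp only [e2]
    have := key _ _ _ _ n11 n1I nI1 nII I (-I) Complex.norm_I nI
    refine le_of_eq_of_le ?_ this
    congr 1
    ring
  · rw [dz_def, dd_dz hfs isOpen_univ hz, dd_dz hfs isOpen_univ hz]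
    simp only [e2]
    have := key _ _ _ _ n11 n1I nI1 nII (-I) (-I) nI nI
    refine le_of_eq_of_le ?_ this
    congr 1
    ring
  · rw [dzb_def, dd_dzb hfs isOpen_univ hz, dd_dzb hfs isOpen_univ hz]
    simp only [e2]
    have := key _ _ _ _ n11 n1I nI1 nII I I Complex.norm_I Complex.norm_I
    refine le_of_eq_of_le ?_ this
    congr 1

/-- **`StmtSec`** from the bounded ends -/
theorem stmtSec_of_ends (hE : StmtEnds) : StmtSec := by
  intro O g θ j Y hY
  have A := hY.dat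
  have hD : IsOpen (DD O g) := isOpen_DD A
  have hmD := hD.measurableSet
  have hgc : ContinuousOn g (DD O g) := (A.g_sm.mono fun z hz => hz.1).continuousOn
  have hYs : ∀ a b, Sm (DD O g) (Y a b) := fun a b => hY.jet.smooth a b
  have hYc : ∀ a b, ContinuousOn (Y a b) (DD O g) := fun a b => (hYs a b).continuousOn
  obtain ⟨δ, Φ, hP⟩ := exists_prof (τ := 1) one_pos
  obtain ⟨Ce, hCe⟩ := hE O g θ j Y 1 δ Φ zero_le_one hY hP
  obtain ⟨C₁, hC₁, hHY⟩ := stmtHY O g θ j Y hY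
  obtain ⟨C₂, hC₂, hbd⟩ := WtBd.bounds hP zero_le_one A
  -- the weight
  have vs : ∀ h, 0 < h → ContDiff ℝ ∞ (wt Φ O g θ h) := fun h hh => wt_smooth hP A hh
  have vc : ∀ h, 0 < h → HasCompactSupport (wt Φ O g θ h) := fun h hh => wt_cpt hP A hh
  have vt : ∀ h, 0 < h → tsupport (wt Φ O g θ h) ⊆ DD O g := fun h hh => wt_tsupport hP A hh
  have v0 : ∀ h, 0 < h → ∀ z, 0 ≤ wt Φ O g θ h z := fun h hh => wt_nonneg hP A hh
  -- integrals against the weight
  have iv : ∀ h, 0 < h → ∀ F : ℂ → ℝ, ContinuousOn F (DD O g) →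
      Integrable (fun z => wt Φ O g θ h z * F z) := by
    intro h hh F hF
    refine integrable_of_cpt hD (vc h hh) (vt h hh) ?_ (fun z hz => by
      rw [image_eq_zero_of_notMem_tsupport hz, zero_mul])
    exact (vs h hh).continuous.continuousOn.mul hF
  have ivs : ∀ h, 0 < h → ∀ a b, Integrable (fun z => wt Φ O g θ h z * ‖Y a b z‖ ^ 2) :=
    fun h hh a b => iv h hh (fun z => ‖Y a b z‖ ^ 2) ((hYc a b).norm.pow 2)
  have ivD : ∀ h, 0 < h → ∀ F : ℂ → ℝ, ∫ z in DD O g, wt Φ O g θ h z * F z =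
      ∫ z, wt Φ O g θ h z * F z := by
    intro h hh F
    refine setIntegral_eq_integral_of_forall_compl_eq_zero fun z hz => ?_
    rw [image_eq_zero_of_notMem_tsupport (fun hz' => hz (vt h hh hz')), zero_mul]
  set M : ℕ := 2 * j + 1 with hM
  set Af : ℝ → ℕ → ℝ := fun h a => ∫ z, wt Φ O g θ h z * ‖Y a (M - a) z‖ ^ 2 with hAf
  have Af0 : ∀ h, 0 < h → ∀ a, 0 ≤ Af h a := fun h hh a =>
    integral_nonneg fun z => mul_nonneg (v0 h hh z) (by positivity)
  -- the energies of order `2j`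
  have hsq : ∀ a b, a + b = 2 * j → IntegrableOn (fun z => ‖Y a b z‖ ^ 2) (DD O g) ∧
      ∀ T, 0 < T → ∫ z in LL O g T, ‖Y a b z‖ ^ 2 ≤ C₁ * T := by
    intro a b hab
    have := hHY a b 0 (by omega)
    simpa using this
  set E₀ : ℝ := ∫ z in DD O g, Je.nJ (2 * j) Y z with hE₀
  have hnJ : IntegrableOn (Je.nJ (2 * j) Y) (DD O g) := by
    unfold Je.nJ
    exact integrable_finsetSum _ fun a ha => (hsq a (2 * j - a) (by
      have : a ≤ 2 * j := by simpa [Nat.lt_succ_iff] using ha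
      omega)).1
  have hE₀0 : 0 ≤ E₀ := integral_nonneg fun z => nJ_nonneg _ _ z
  set K : ℝ := max Ce 0 + 2 * C₂ * (2 * C₁ * C₂) + 2 * C₂ * (2 * E₀) with hK
  have hK0 : 0 ≤ K := by positivity
  -- second differences
  have hsec : ∀ h, 0 < h → h ≤ 1 → ∀ a, a + 2 ≤ M →
      |Af h a - 2 * Af h (a + 1) + Af h (a + 2)| ≤ K := by
    intro h hh hh1 a ha
    obtain ⟨b, hb⟩ : ∃ b, a + b + 2 = M := ⟨M - a - 2, by omega⟩
    set v := wt Φ O g θ h with hv
    set w : ℂ → ℂ := fun z => (v z : ℂ) with hw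
    have hvsm : Sm univ v := sm_univ.2 (vs h hh)
    have hwsm : Sm (DD O g) w := (hvsm.ofReal).mono (subset_univ _)
    have hKc : IsCompact (tsupport v) := vc h hh
    have hw0 : ∀ z, z ∉ tsupport v → w z = 0 := fun z hz => by
      simp only [hw, image_eq_zero_of_notMem_tsupport hz, Complex.ofReal_zero]
    have hid := integral_identity hD hKc (vt h hh) hwsm hw0 (hYs a (b + 1)) (hYs (a + 1) b)
      (hYs (a + 1) (b + 1)) (hYs a (b + 2)) (hYs (a + 2) b)
      (fun z hz => hY.jet.hdz a (b + 1) z hz) (fun z hz => hY.jet.hdzb a (b + 1) z hz)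
      (fun z hz => hY.jet.hdz (a + 1) b z hz) (fun z hz => hY.jet.hdzb (a + 1) b z hz)
      (fun z hz => by rw [hY.jet.hdz a (b + 2) z hz, hY.jet.hdzb (a + 1) (b + 1) z hz])
      (fun z hz => by rw [hY.jet.hdzb (a + 2) b z hz, hY.jet.hdz (a + 1) (b + 1) z hz])
    -- left-hand side
    have hL : (∫ z, w z * (Y a (b + 2) z * conj (Y a (b + 2) z) -
        2 * (Y (a + 1) (b + 1) z * conj (Y (a + 1) (b + 1) z)) +
          Y (a + 2) b z * conj (Y (a + 2) b z))) =
        ((Af h a - 2 * Af h (a + 1) + Af h (a + 2) : ℝ) : ℂ) := by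
      have e1 : ∀ z, w z * (Y a (b + 2) z * conj (Y a (b + 2) z) -
        2 * (Y (a + 1) (b + 1) z * conj (Y (a + 1) (b + 1) z)) +
          Y (a + 2) b z * conj (Y (a + 2) b z)) =
          ((v z * ‖Y a (b + 2) z‖ ^ 2 - 2 * (v z * ‖Y (a + 1) (b + 1) z‖ ^ 2) +
            v z * ‖Y (a + 2) b z‖ ^ 2 : ℝ) : ℂ) := fun z => by
        rw [Complex.mul_conj, Complex.mul_conj, Complex.mul_conj, Complex.normSq_eq_norm_sq,
          Complex.normSq_eq_norm_sq, Complex.normSq_eq_norm_sq]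
        simp only [hw]
        push_cast
        ring
      simp only [e1]
      rw [integral_complex_ofReal]
      congr 1
      have i1 := ivs h hh a (b + 2)
      have i2 := (ivs h hh (a + 1) (b + 1)).const_mul 2
      have i3 := ivs h hh (a + 2) b
      have hs1 : M - a = b + 2 := by omega
      have hs2 : M - (a + 1) = b + 1 := by omega
      have hs3 : M - (a + 2) = b := by omega
      simp only [hAf, hs1, hs2, hs3]
      have := integral_add (i1.sub i2) i3
      simp only [Pi.sub_apply] at this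
      rw [this, integral_sub i1 i2, integral_const_mul]
    -- right-hand side
    rw [hL] at hid
    have hn : |Af h a - 2 * Af h (a + 1) + Af h (a + 2)| = ‖((Af h a - 2 * Af h (a + 1) +
        Af h (a + 2) : ℝ) : ℂ)‖ := by rw [Complex.norm_real, Real.norm_eq_abs]
    rw [hn, hid]
    -- pointwise bound of the integrand
    set f := Y a (b + 1) with hf
    set k := Y (a + 1) b with hk
    have hfi := hsq a (b + 1) (by omega)
    have hki := hsq (a + 1) b (by omega)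
    have hLm : MeasurableSet (LL O g (C₂ * h)) := by
      have : LL O g (C₂ * h) = DD O g ∩ g ⁻¹' (Iio (C₂ * h)) := by
        ext z
        exact ⟨fun h => ⟨⟨h.1, h.2.1⟩, h.2.2⟩, fun h => ⟨h.1.1, h.1.2, h.2⟩⟩
      rw [this]
      exact (hgc.isOpen_inter_preimage hD isOpen_Iio).measurableSet
    have hLD : LL O g (C₂ * h) ⊆ DD O g := fun z hz => ⟨hz.1, hz.2.1⟩
    set G : ℂ → ℝ := fun z => (LL O g (C₂ * h)).indicator
      (fun z => 2 * (C₂ / h) * (‖f z‖ ^ 2 + ‖k z‖ ^ 2)) z +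
      (DD O g).indicator (fun z => 2 * C₂ * (‖f z‖ ^ 2 + ‖k z‖ ^ 2)) z with hG
    have hGi1 : Integrable ((LL O g (C₂ * h)).indicator
      (fun z => 2 * (C₂ / h) * (‖f z‖ ^ 2 + ‖k z‖ ^ 2))) := by
      rw [integrable_indicator_iff hLm]
      exact ((hfi.1.add hki.1).mono_set hLD).const_mul _
    have hGi2 : Integrable ((DD O g).indicator
      (fun z => 2 * C₂ * (‖f z‖ ^ 2 + ‖k z‖ ^ 2))) := by
      rw [integrable_indicator_iff hmD]
      exact (hfi.1.add hki.1).const_mul _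
    have hGi : Integrable G := hGi1.add hGi2
    have hpt : ∀ z, ‖dz (dzb w) z * (f z * conj (f z) + k z * conj (k z))
        - dz (dz w) z * (f z * conj (k z)) - dzb (dzb w) z * (k z * conj (f z))‖ ≤ G z := by
      intro z
      have hcauchy : ∀ B : ℝ, 0 ≤ B → (∀ u v' : ℂ, |dv u (dv v' v) z| ≤ B * (‖u‖ * ‖v'‖)) →
          ‖dz (dzb w) z * (f z * conj (f z) + k z * conj (k z))
        - dz (dz w) z * (f z * conj (k z)) - dzb (dzb w) z * (k z * conj (f z))‖ ≤
          2 * B * (‖f z‖ ^ 2 + ‖k z‖ ^ 2) := by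
        intro B hB0 hB
        obtain ⟨b1, b2, b3⟩ := norm_dd_le (vs h hh) hB
        have n1 : ‖f z * conj (f z) + k z * conj (k z)‖ ≤ ‖f z‖ ^ 2 + ‖k z‖ ^ 2 := by
          refine (norm_add_le _ _).trans (le_of_eq ?_)
          rw [norm_mul, norm_mul, RCLike.norm_conj, RCLike.norm_conj]
          ring
        have n2 : ‖f z * conj (k z)‖ = ‖f z‖ * ‖k z‖ := by
          rw [norm_mul, RCLike.norm_conj]
        have n3 : ‖k z * conj (f z)‖ = ‖f z‖ * ‖k z‖ := by
          rw [norm_mul, RCLike.norm_conj]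
          ring
        have m1 : ‖dz (dzb w) z * (f z * conj (f z) + k z * conj (k z))‖ ≤
            B * (‖f z‖ ^ 2 + ‖k z‖ ^ 2) := by
          rw [norm_mul]
          exact mul_le_mul b1 n1 (norm_nonneg _) hB0
        have m2 : ‖dz (dz w) z * (f z * conj (k z))‖ ≤ B * (‖f z‖ * ‖k z‖) := by
          rw [norm_mul, n2]
          exact mul_le_mul_of_nonneg_right b2 (by positivity)
        have m3 : ‖dzb (dzb w) z * (k z * conj (f z))‖ ≤ B * (‖f z‖ * ‖k z‖) := by
          rw [norm_mul, n3]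
          exact mul_le_mul_of_nonneg_right b3 (by positivity)
        have m4 := norm_sub_le (dz (dzb w) z * (f z * conj (f z) + k z * conj (k z))
          - dz (dz w) z * (f z * conj (k z))) (dzb (dzb w) z * (k z * conj (f z)))
        have m5 := norm_sub_le (dz (dzb w) z * (f z * conj (f z) + k z * conj (k z)))
          (dz (dz w) z * (f z * conj (k z)))
        have m6 : B * (2 * (‖f z‖ * ‖k z‖)) ≤ B * (‖f z‖ ^ 2 + ‖k z‖ ^ 2) := by
          refine mul_le_mul_of_nonneg_left ?_ hB0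
          nlinarith [sq_nonneg (‖f z‖ - ‖k z‖)]
        linarith
      have hbz := hbd h hh hh1 z
      by_cases hzD : z ∈ DD O g
      · have i2 : (DD O g).indicator (fun z => 2 * C₂ * (‖f z‖ ^ 2 + ‖k z‖ ^ 2)) z =
            2 * C₂ * (‖f z‖ ^ 2 + ‖k z‖ ^ 2) := indicator_of_mem hzD _
        by_cases hzL : z ∈ LL O g (C₂ * h)
        · have i1 : (LL O g (C₂ * h)).indicator
            (fun z => 2 * (C₂ / h) * (‖f z‖ ^ 2 + ‖k z‖ ^ 2)) z =
            2 * (C₂ / h) * (‖f z‖ ^ 2 + ‖k z‖ ^ 2) := indicator_of_mem hzL _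
          have := hcauchy (C₂ / h) (by positivity) hbz.2.1
          simp only [hG, i1, i2]
          have : 0 ≤ 2 * C₂ * (‖f z‖ ^ 2 + ‖k z‖ ^ 2) := by positivity
          linarith
        · have i1 : (LL O g (C₂ * h)).indicator
            (fun z => 2 * (C₂ / h) * (‖f z‖ ^ 2 + ‖k z‖ ^ 2)) z = 0 :=
            indicator_of_notMem hzL _
          have hfar : C₂ * h ≤ g z := by
            by_contra hcon
            exact hzL ⟨hzD.1, hzD.2, not_le.1 hcon⟩
          have := hcauchy C₂ hC₂.le (hbz.2.2.1 hfar)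
          simp only [hG, i1, i2]
          linarith
      · have hzt : z ∉ tsupport v := fun hz => hzD (vt h hh hz)
        have z1 : ∀ z, z ∉ tsupport v → dz w z = 0 := fun z hz =>
          (dz_zero_of_cpt hKc hw0 hz).1
        have z2 : ∀ z, z ∉ tsupport v → dzb w z = 0 := fun z hz =>
          (dz_zero_of_cpt hKc hw0 hz).2
        rw [(dz_zero_of_cpt hKc z1 hzt).1, (dz_zero_of_cpt hKc z2 hzt).1,
          (dz_zero_of_cpt hKc z2 hzt).2]
        simp only [zero_mul, sub_zero, norm_zero]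
        have i1 : (LL O g (C₂ * h)).indicator
            (fun z => 2 * (C₂ / h) * (‖f z‖ ^ 2 + ‖k z‖ ^ 2)) z = 0 :=
            indicator_of_notMem (fun h => hzD (hLD h)) _
        have i2 : (DD O g).indicator (fun z => 2 * C₂ * (‖f z‖ ^ 2 + ‖k z‖ ^ 2)) z = 0 :=
          indicator_of_notMem hzD _
        simp only [hG, i1, i2]
        norm_num
    refine (norm_integral_le_of_norm_le hGi (Eventually.of_forall hpt)).trans ?_
    have hGint : ∫ z, G z = 2 * (C₂ / h) * (∫ z in LL O g (C₂ * h), (‖f z‖ ^ 2 + ‖k z‖ ^ 2)) +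
        2 * C₂ * ∫ z in DD O g, (‖f z‖ ^ 2 + ‖k z‖ ^ 2) := by
      simp only [hG]
      rw [integral_add hGi1 hGi2, integral_indicator hLm, integral_indicator hmD,
        integral_const_mul, integral_const_mul]
    rw [hGint]
    have b1 : ∫ z in LL O g (C₂ * h), (‖f z‖ ^ 2 + ‖k z‖ ^ 2) ≤ 2 * C₁ * (C₂ * h) := by
      rw [integral_add (hfi.1.mono_set hLD) (hki.1.mono_set hLD)]
      have := hfi.2 (C₂ * h) (by positivity)
      have := hki.2 (C₂ * h) (by positivity)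
      linarith
    have b2 : ∫ z in DD O g, (‖f z‖ ^ 2 + ‖k z‖ ^ 2) ≤ 2 * E₀ := by
      rw [integral_add hfi.1 hki.1]
      have m1 : ∫ z in DD O g, ‖f z‖ ^ 2 ≤ E₀ :=
        integral_mono hfi.1 hnJ fun z => le_nJ (by omega) Y z
      have m2 : ∫ z in DD O g, ‖k z‖ ^ 2 ≤ E₀ :=
        integral_mono hki.1 hnJ fun z => le_nJ (by omega) Y z
      linarith
    have b3 : 2 * (C₂ / h) * (∫ z in LL O g (C₂ * h), (‖f z‖ ^ 2 + ‖k z‖ ^ 2)) ≤
        2 * C₂ * (2 * C₁ * C₂) := by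
      have := mul_le_mul_of_nonneg_left b1 (show 0 ≤ 2 * (C₂ / h) by positivity)
      refine this.trans (le_of_eq ?_)
      field_simp
    have b4 : 2 * C₂ * (∫ z in DD O g, (‖f z‖ ^ 2 + ‖k z‖ ^ 2)) ≤ 2 * C₂ * (2 * E₀) :=
      mul_le_mul_of_nonneg_left b2 (by positivity)
    have := le_max_right Ce 0
    rw [hK]
    linarith
  -- the ends
  have hend : ∀ h, 0 < h → h ≤ 1 → Af h 0 ≤ K ∧ Af h M ≤ K := by
    intro h hh hh1
    have h1 := hCe h hh hh1
    have e1 : ∫ z in DD O g, wt Φ O g θ h z * (‖Y (2 * j + 1) 0 z‖ ^ 2 +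
        ‖Y 0 (2 * j + 1) z‖ ^ 2) = Af h M + Af h 0 := by
      rw [ivD h hh (fun z => ‖Y (2 * j + 1) 0 z‖ ^ 2 + ‖Y 0 (2 * j + 1) z‖ ^ 2)]
      have i1 := ivs h hh (2 * j + 1) 0
      have i2 := ivs h hh 0 (2 * j + 1)
      simp only [hAf, hM, Nat.sub_self, Nat.sub_zero]
      rw [← integral_add i1 i2]
      refine integral_congr_ae (Eventually.of_forall fun z => ?_)
      simp only
      ring
    rw [e1] at h1
    have n0 := Af0 h hh 0
    have nM := Af0 h hh M
    have hle : Ce ≤ K := by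
      have := le_max_left Ce 0
      have h2 : 0 ≤ 2 * C₂ * (2 * C₁ * C₂) := by positivity
      have h3 : 0 ≤ 2 * C₂ * (2 * E₀) := by positivity
      rw [hK]
      linarith
    constructor <;> linarith
  -- all of them
  have hall : ∀ h, 0 < h → h ≤ 1 → ∀ a, a ≤ M → Af h a ≤ K + K / 2 * (M : ℝ) ^ 2 :=
    fun h hh hh1 => bounded_of_secdiff M (Af h) K hK0 (hsec h hh hh1) (hend h hh hh1).1
      (hend h hh hh1).2
  -- Fatou
  intro a b hab
  have hab' : M - a = b := by omega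
  have hcont : ContinuousOn (fun z => g z * ‖Y a b z‖ ^ 2) (DD O g) :=
    hgc.mul ((hYc a b).norm.pow 2)
  refine ⟨hcont.aestronglyMeasurable hmD, ?_⟩
  rw [hasFiniteIntegral_iff_norm]
  set hs : ℕ → ℝ := fun n => 1 / ((n : ℝ) + 1) with hhs
  have hs0 : ∀ n, 0 < hs n := fun n => by simp only [hhs]; positivity
  have hs1 : ∀ n, hs n ≤ 1 := fun n => by
    simp only [hhs]
    rw [div_le_one (by positivity)]
    have : (0 : ℝ) ≤ n := Nat.cast_nonneg n
    linarith
  have hst : Tendsto hs atTop (𝓝[>] 0) :=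
    tendsto_nhdsWithin_iff.2 ⟨tendsto_one_div_add_atTop_nhds_zero_nat,
      Eventually.of_forall fun n => hs0 n⟩
  have hmeas : ∀ n, AEMeasurable (fun z => ENNReal.ofReal (wt Φ O g θ (hs n) z * ‖Y a b z‖ ^ 2))
      (volume.restrict (DD O g)) := fun n =>
    (((vs (hs n) (hs0 n)).continuous.continuousOn.mul
      ((hYc a b).norm.pow 2)).aestronglyMeasurable hmD).aemeasurable.ennreal_ofReal
  have hF := lintegral_liminf_le' (μ := volume.restrict (DD O g)) (u := atTop) hmeas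
  have hlhs : ∫⁻ z in DD O g, ENNReal.ofReal ‖g z * ‖Y a b z‖ ^ 2‖ =
      ∫⁻ z in DD O g, liminf (fun n => ENNReal.ofReal (wt Φ O g θ (hs n) z * ‖Y a b z‖ ^ 2))
        atTop := by
    refine setLIntegral_congr_fun hmD fun z hz => ?_
    have ht : Tendsto (fun n => wt Φ O g θ (hs n) z * ‖Y a b z‖ ^ 2) atTop
        (𝓝 (g z * ‖Y a b z‖ ^ 2)) :=
      ((wt_tendsto hP A hz.1 hz.2.le).comp hst).mul_const _
    have := (ENNReal.tendsto_ofReal ht).liminf_eq
    simp only [this]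
    rw [Real.norm_of_nonneg (mul_nonneg hz.2.le (by positivity))]
  rw [hlhs]
  refine (hF.trans ?_).trans_lt (ENNReal.ofReal_lt_top (r := K + K / 2 * (M : ℝ) ^ 2))
  refine liminf_le_of_frequently_le' (Frequently.of_forall fun n => ?_)
  have i1 := ivs (hs n) (hs0 n) a b
  have p1 : ∀ z, 0 ≤ wt Φ O g θ (hs n) z * ‖Y a b z‖ ^ 2 := fun z =>
    mul_nonneg (v0 _ (hs0 n) z) (by positivity)
  have h2 : ∫⁻ z in DD O g, ENNReal.ofReal (wt Φ O g θ (hs n) z * ‖Y a b z‖ ^ 2) =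
      ENNReal.ofReal (∫ z in DD O g, wt Φ O g θ (hs n) z * ‖Y a b z‖ ^ 2) :=
    (ofReal_integral_eq_lintegral_ofReal i1.integrableOn (Eventually.of_forall p1)).symm
  rw [h2, ivD _ (hs0 n)]
  refine ENNReal.ofReal_le_ofReal ?_
  have h3 := hall (hs n) (hs0 n) (hs1 n) a (by omega)
  simp only [hAf, hab'] at h3
  exact h3

end Pool.Agent.Lib.QNL.Sec40
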