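import Pool.Agent.Lib.QNL.EStmts
import Pool.Agent.Lib.QNL.Jet

/-!
Group E: the weights `Wgt` and the lowering lemma `StmtLow`.
-/

set_option autoImplicit false

namespace Pool.Agent.Lib.QNL.Low

open MeasureTheory Filter Topology Set
open scoped ContDiff ComplexConjugate
open Pool.Agent.Lib.QNL.Je Pool.Agent.Lib.QNL.ES Pool.Agent.Lib.QNL.FId

/-- `∂ = L ∘ fderiv` -/
noncomputable def Lz : (ℂ →L[ℝ] ℂ) →L[ℝ] ℂ :=
  (1 / 2 : ℝ) • (ContinuousLinearMap.apply ℝ ℂ (1 : ℂ) -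
    (ContinuousLinearMap.mul ℝ ℂ Complex.I).comp (ContinuousLinearMap.apply ℝ ℂ Complex.I))

/-- `∂̄ = L ∘ fderiv` -/
noncomputable def Lzb : (ℂ →L[ℝ] ℂ) →L[ℝ] ℂ :=
  (1 / 2 : ℝ) • (ContinuousLinearMap.apply ℝ ℂ (1 : ℂ) +
    (ContinuousLinearMap.mul ℝ ℂ Complex.I).comp (ContinuousLinearMap.apply ℝ ℂ Complex.I))

theorem Lz_apply (A : ℂ →L[ℝ] ℂ) : Lz A = (A 1 - Complex.I * A Complex.I) / 2 := by
  simp [Lz]
  ring

theorem Lzb_apply (A : ℂ →L[ℝ] ℂ) : Lzb A = (A 1 + Complex.I * A Complex.I) / 2 := by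
  simp [Lzb]
  ring

theorem Lz_norm : ‖Lz‖ ≤ 1 := by
  refine ContinuousLinearMap.opNorm_le_bound _ zero_le_one fun A => ?_
  rw [Lz_apply, one_mul, norm_div]
  have h1 : ‖A 1‖ ≤ ‖A‖ := by simpa using A.le_opNorm 1
  have h2 : ‖A Complex.I‖ ≤ ‖A‖ := by simpa using A.le_opNorm Complex.I
  have h3 : ‖A 1 - Complex.I * A Complex.I‖ ≤ ‖A‖ + ‖A‖ := by
    refine (norm_sub_le _ _).trans (add_le_add h1 ?_)
    rw [norm_mul, Complex.norm_I, one_mul]
    exact h2
  have h4 : ‖(2 : ℂ)‖ = 2 := by simp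
  rw [h4]
  linarith

theorem Lzb_norm : ‖Lzb‖ ≤ 1 := by
  refine ContinuousLinearMap.opNorm_le_bound _ zero_le_one fun A => ?_
  rw [Lzb_apply, one_mul, norm_div]
  have h1 : ‖A 1‖ ≤ ‖A‖ := by simpa using A.le_opNorm 1
  have h2 : ‖A Complex.I‖ ≤ ‖A‖ := by simpa using A.le_opNorm Complex.I
  have h3 : ‖A 1 + Complex.I * A Complex.I‖ ≤ ‖A‖ + ‖A‖ := by
    refine (norm_add_le _ _).trans (add_le_add h1 ?_)
    rw [norm_mul, Complex.norm_I, one_mul]
    exact h2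
  have h4 : ‖(2 : ℂ)‖ = 2 := by simp
  rw [h4]
  linarith

theorem dz_eq_L (f : ℂ → ℂ) : dz f = Lz ∘ fderiv ℝ f := by
  funext z
  simp only [Function.comp_apply, Lz_apply]
  rfl

theorem dzb_eq_L (f : ℂ → ℂ) : dzb f = Lzb ∘ fderiv ℝ f := by
  funext z
  simp only [Function.comp_apply, Lzb_apply]
  rfl

theorem norm_iter_dz {f : ℂ → ℂ} {z : ℂ} (hf : ContDiffAt ℝ ∞ f z) (i : ℕ) :
    ‖iteratedFDeriv ℝ i (dz f) z‖ ≤ ‖iteratedFDeriv ℝ (i + 1) f z‖ := by
  have h1 : ContDiffAt ℝ i (fderiv ℝ f) z := by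
    refine hf.fderiv_right (m := (i : ℕ)) ?_
    exact_mod_cast le_top
  rw [dz_eq_L]
  calc ‖iteratedFDeriv ℝ i (Lz ∘ fderiv ℝ f) z‖ ≤ ‖Lz‖ * ‖iteratedFDeriv ℝ i (fderiv ℝ f) z‖ :=
        Lz.norm_iteratedFDeriv_comp_left h1 le_rfl
    _ ≤ 1 * ‖iteratedFDeriv ℝ i (fderiv ℝ f) z‖ := by
        gcongr
        exact Lz_norm
    _ = ‖iteratedFDeriv ℝ (i + 1) f z‖ := by rw [one_mul, norm_iteratedFDeriv_fderiv]

theorem norm_iter_dzb {f : ℂ → ℂ} {z : ℂ} (hf : ContDiffAt ℝ ∞ f z) (i : ℕ) :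
    ‖iteratedFDeriv ℝ i (dzb f) z‖ ≤ ‖iteratedFDeriv ℝ (i + 1) f z‖ := by
  have h1 : ContDiffAt ℝ i (fderiv ℝ f) z := by
    refine hf.fderiv_right (m := (i : ℕ)) ?_
    exact_mod_cast le_top
  rw [dzb_eq_L]
  calc ‖iteratedFDeriv ℝ i (Lzb ∘ fderiv ℝ f) z‖ ≤ ‖Lzb‖ * ‖iteratedFDeriv ℝ i (fderiv ℝ f) z‖ :=
        Lzb.norm_iteratedFDeriv_comp_left h1 le_rfl
    _ ≤ 1 * ‖iteratedFDeriv ℝ i (fderiv ℝ f) z‖ := by
        gcongr
        exact Lzb_norm
    _ = ‖iteratedFDeriv ℝ (i + 1) f z‖ := by rw [one_mul, norm_iteratedFDeriv_fderiv]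

theorem tsupport_dz (f : ℂ → ℂ) : tsupport (dz f) ⊆ tsupport f := by
  rw [dz_eq_L]
  refine (closure_mono (Function.support_comp_subset (map_zero _) _)).trans ?_
  exact tsupport_fderiv_subset ℝ

theorem tsupport_dzb (f : ℂ → ℂ) : tsupport (dzb f) ⊆ tsupport f := by
  rw [dzb_eq_L]
  refine (closure_mono (Function.support_comp_subset (map_zero _) _)).trans ?_
  exact tsupport_fderiv_subset ℝ

theorem contDiff_dz {f : ℂ → ℂ} (hf : ContDiff ℝ ∞ f) : ContDiff ℝ ∞ (dz f) := by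
  rw [dz_eq_L]
  exact Lz.contDiff.comp (hf.fderiv_right (by simp))

theorem contDiff_dzb {f : ℂ → ℂ} (hf : ContDiff ℝ ∞ f) : ContDiff ℝ ∞ (dzb f) := by
  rw [dzb_eq_L]
  exact Lzb.contDiff.comp (hf.fderiv_right (by simp))

section wgt
variable {D : Set ℂ} {g : ℂ → ℝ} {T : ℝ} {n : ℕ} {C : ℕ → ℝ} {K : ℂ → ℂ}

theorem wgt_dz (h : Wgt D g T n C K) : Wgt D g T (n + 1) (fun i => C (i + 1)) (dz K) where
  sm := contDiff_dz h.sm
  cpt := h.cpt.of_isClosed_subset (isClosed_tsupport _) (tsupport_dz K)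
  sub := (tsupport_dz K).trans h.sub
  bd := by
    intro i z hz
    refine (norm_iter_dz h.sm.contDiffAt i).trans ((h.bd (i + 1) z hz).trans (le_of_eq ?_))
    rw [show n + (i + 1) = n + 1 + i by ring]

theorem wgt_dzb (h : Wgt D g T n C K) : Wgt D g T (n + 1) (fun i => C (i + 1)) (dzb K) where
  sm := contDiff_dzb h.sm
  cpt := h.cpt.of_isClosed_subset (isClosed_tsupport _) (tsupport_dzb K)
  sub := (tsupport_dzb K).trans h.sub
  bd := by
    intro i z hz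
    refine (norm_iter_dzb h.sm.contDiffAt i).trans ((h.bd (i + 1) z hz).trans (le_of_eq ?_))
    rw [show n + (i + 1) = n + 1 + i by ring]

theorem wgt_conj (h : Wgt D g T n C K) : Wgt D g T n C (fun z => conj (K z)) where
  sm := Complex.conjCLE.contDiff.comp h.sm
  cpt := h.cpt.comp_left (g := fun w : ℂ => conj w) (map_zero _)
  sub := by
    refine Subset.trans (closure_mono ?_) h.sub
    exact Function.support_comp_subset (map_zero (starRingEnd ℂ)) K
  bd := by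
    intro i z hz
    refine le_trans (le_of_eq ?_) (h.bd i z hz)
    have := Complex.conjLIE.norm_iteratedFDeriv_comp_left (𝕜 := ℝ) K z i
    rw [← this]
    rfl

theorem wgt_zero (h : Wgt D g T n C K) {z : ℂ} (hz : z ∉ D) : K z = 0 :=
  image_eq_zero_of_notMem_tsupport fun h' => hz (h.sub h').1

theorem wgt_norm (h : Wgt D g T n C K) {z : ℂ} (hz : z ∈ D) : ‖K z‖ ≤ C 0 / g z ^ n := by
  have := h.bd 0 z hz
  rwa [norm_iteratedFDeriv_zero, add_zero] at this

/-- integral over the plane and over `D` -/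
theorem wgt_int (h : Wgt D g T n C K) (r : ℂ → ℂ) :
    ∫ z, K z * r z = ∫ z in {z | z ∈ D ∧ g z < T}, K z * r z := by
  refine (setIntegral_eq_integral_of_forall_compl_eq_zero fun z hz => ?_).symm
  have : K z = 0 := image_eq_zero_of_notMem_tsupport fun h' => hz (h.sub h')
  rw [this, zero_mul]

theorem wgt_intD (h : Wgt D g T n C K) (r : ℂ → ℂ) :
    ∫ z, K z * r z = ∫ z in D, K z * r z := by
  refine (setIntegral_eq_integral_of_forall_compl_eq_zero fun z hz => ?_).symm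
  rw [wgt_zero h hz, zero_mul]

end wgt

theorem int3 {μ : Measure ℂ} {a b c : ℂ → ℂ} (ha : Integrable a μ) (hb : Integrable b μ)
    (hc : Integrable c μ) :
    ∫ z, (a z + b z + c z) ∂μ = ∫ z, a z ∂μ + ∫ z, b z ∂μ + ∫ z, c z ∂μ := by
  have h1 : Integrable (fun z => a z + b z) μ := ha.add hb
  rw [integral_add h1 hc, integral_add ha hb]

section ibp
variable {D : Set ℂ} {g : ℂ → ℝ} {T : ℝ} {n : ℕ} {C : ℕ → ℝ} {K : ℂ → ℂ}
variable {Y : ℕ → ℕ → ℂ → ℂ}

/-- integration by parts against a weight -/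
theorem ibp_wgt (hD : IsOpen D) (hY : IsJet D Y) (h : Wgt D g T n C K) (α β γ δ : ℕ) :
    (∫ z, K z * (Y α β z * conj (Y γ (δ + 1) z)) =
      -(∫ z, dz K z * (Y α β z * conj (Y γ δ z))) -
        ∫ z, K z * (Y (α + 1) β z * conj (Y γ δ z))) ∧
    (∫ z, K z * (Y α β z * conj (Y (γ + 1) δ z)) =
      -(∫ z, dzb K z * (Y α β z * conj (Y γ δ z))) -
        ∫ z, K z * (Y α (β + 1) z * conj (Y γ δ z))) := by
  have hKJ : JF D K (dz K) (dzb K) := fun z _ =>
    Calc.hasFDerivAt_wl (h.sm.contDiffAt.differentiableAt (by simp))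
  have hA : JF D (Y α β) (Y (α + 1) β) (Y α (β + 1)) := hY α β
  have hB : JF D (Y γ δ) (Y (γ + 1) δ) (Y γ (δ + 1)) := hY γ δ
  have hP := hKJ.mul (hA.mul hB.cnj)
  have cY : ∀ a b, ContinuousOn (Y a b) D := fun a b => JF.contOn (hY a b)
  have cc : ∀ a b, ContinuousOn (fun z => (starRingEnd ℂ) (Y a b z)) D := fun a b =>
    Complex.continuous_conj.comp_continuousOn (cY a b)
  have cK : ContinuousOn K D := h.sm.continuous.continuousOn
  have cK1 : ContinuousOn (dz K) D := (contDiff_dz h.sm).continuous.continuousOn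
  have cK2 : ContinuousOn (dzb K) D := (contDiff_dzb h.sm).continuous.continuousOn
  have hcpt : IsCompact (tsupport K) := h.cpt
  have hsub : tsupport K ⊆ D := fun z hz => (h.sub hz).1
  have z0 : ∀ z ∈ D, z ∉ tsupport K → K z = 0 := fun z _ hz =>
    image_eq_zero_of_notMem_tsupport hz
  have z1 : ∀ z ∈ D, z ∉ tsupport K → dz K z = 0 := fun z _ hz =>
    image_eq_zero_of_notMem_tsupport fun h' => hz (tsupport_dz K h')
  have z2 : ∀ z ∈ D, z ∉ tsupport K → dzb K z = 0 := fun z _ hz =>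
    image_eq_zero_of_notMem_tsupport fun h' => hz (tsupport_dzb K h')
  have int : ∀ k r : ℂ → ℂ, ContinuousOn k D → ContinuousOn r D →
      (∀ z ∈ D, z ∉ tsupport K → k z = 0) → IntegrableOn (fun z => k z * r z) D := by
    intro k r hk hr h0
    refine intOn_cpt hD hcpt hsub (hk.mul hr) fun z hz hzK => ?_
    rw [h0 z hz hzK, zero_mul]
  obtain ⟨⟨_, e1⟩, ⟨_, e2⟩⟩ := hP.ibp0 hD
    ((cK1.mul ((cY _ _).mul (cc _ _))).add (cK.mul (((cY _ _).mul (cc _ _)).add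
      ((cY _ _).mul (cc _ _)))))
    ((cK2.mul ((cY _ _).mul (cc _ _))).add (cK.mul (((cY _ _).mul (cc _ _)).add
      ((cY _ _).mul (cc _ _))))) hcpt hsub
    (fun z hz hzK => by rw [z0 z hz hzK, zero_mul])
  have w1 := wgt_dz h
  have w2 := wgt_dzb h
  constructor
  · rw [wgt_intD h, wgt_intD w1, wgt_intD h]
    have i1 := int (dz K) (fun z => Y α β z * conj (Y γ δ z)) cK1 ((cY _ _).mul (cc _ _)) z1
    have i2 := int K (fun z => Y (α + 1) β z * conj (Y γ δ z)) cK ((cY _ _).mul (cc _ _)) z0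
    have i3 := int K (fun z => Y α β z * conj (Y γ (δ + 1) z)) cK ((cY _ _).mul (cc _ _)) z0
    have e : ∀ z, dz K z * (Y α β z * (starRingEnd ℂ) (Y γ δ z)) +
        K z * (Y (α + 1) β z * (starRingEnd ℂ) (Y γ δ z) +
          Y α β z * (starRingEnd ℂ) (Y γ (δ + 1) z)) =
        dz K z * (Y α β z * (starRingEnd ℂ) (Y γ δ z)) +
        K z * (Y (α + 1) β z * (starRingEnd ℂ) (Y γ δ z)) +
        K z * (Y α β z * (starRingEnd ℂ) (Y γ (δ + 1) z)) := fun z => by ring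
    simp only [e] at e1
    rw [int3 i1 i2 i3] at e1
    linear_combination e1
  · rw [wgt_intD h, wgt_intD w2, wgt_intD h]
    have i1 := int (dzb K) (fun z => Y α β z * conj (Y γ δ z)) cK2 ((cY _ _).mul (cc _ _)) z2
    have i2 := int K (fun z => Y α (β + 1) z * conj (Y γ δ z)) cK ((cY _ _).mul (cc _ _)) z0
    have i3 := int K (fun z => Y α β z * conj (Y (γ + 1) δ z)) cK ((cY _ _).mul (cc _ _)) z0
    have e : ∀ z, dzb K z * (Y α β z * (starRingEnd ℂ) (Y γ δ z)) +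
        K z * (Y α (β + 1) z * (starRingEnd ℂ) (Y γ δ z) +
          Y α β z * (starRingEnd ℂ) (Y (γ + 1) δ z)) =
        dzb K z * (Y α β z * (starRingEnd ℂ) (Y γ δ z)) +
        K z * (Y α (β + 1) z * (starRingEnd ℂ) (Y γ δ z)) +
        K z * (Y α β z * (starRingEnd ℂ) (Y (γ + 1) δ z)) := fun z => by ring
    simp only [e] at e2
    rw [int3 i1 i2 i3] at e2
    linear_combination e2

/-- the constant of the lowering lemma -/
noncomputable def Mc : ℕ → (ℕ → ℝ) → ℝ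
  | 0, C => |C 0|
  | k + 1, C => Mc k (fun i => C (i + 1)) + Mc k C

theorem Mc_nonneg (k : ℕ) : ∀ C, 0 ≤ Mc k C := by
  induction k with
  | zero => exact fun C => abs_nonneg _
  | succ k ih => exact fun C => add_nonneg (ih _) (ih _)

theorem Mc_mono (k : ℕ) (C : ℕ → ℝ) : Mc k C ≤ Mc (k + 1) C := by
  have := Mc_nonneg k (fun i => C (i + 1))
  change Mc k C ≤ Mc k (fun i => C (i + 1)) + Mc k C
  linarith

theorem low_aux (hD : IsOpen D) (hg : ∀ z ∈ D, 0 < g z) (hgc : ContinuousOn g D)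
    (hY : IsJet D Y) {j q₀ : ℕ} {E : ℝ}
    (hE : ∀ α β γ δ m, γ + δ = q₀ → α + β + m + q₀ = 4 * j →
      IntegrableOn (fun z => ‖Y α β z‖ * ‖Y γ δ z‖ / g z ^ m) {z | z ∈ D ∧ g z < T} ∧
      ∫ z in {z | z ∈ D ∧ g z < T}, ‖Y α β z‖ * ‖Y γ δ z‖ / g z ^ m ≤ E) (k : ℕ) :
    ∀ (C : ℕ → ℝ) (n : ℕ) (K : ℂ → ℂ), Wgt D g T n C K → ∀ α β γ δ, γ + δ = q₀ + k →
      α + β + n + (γ + δ) = 4 * j →
      ‖∫ z, K z * (Y α β z * conj (Y γ δ z))‖ ≤ Mc k C * E := by
  induction k with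
  | zero =>
    intro C n K h α β γ δ h1 h2
    obtain ⟨i1, i2⟩ := hE α β γ δ n (by omega) (by omega)
    rw [wgt_int h]
    have hmeas : MeasurableSet {z | z ∈ D ∧ g z < T} := by
      have : IsOpen {z | z ∈ D ∧ g z < T} := by
        have h3 := hgc.isOpen_inter_preimage hD (isOpen_Iio (a := T))
        exact h3
      exact this.measurableSet
    calc ‖∫ z in {z | z ∈ D ∧ g z < T}, K z * (Y α β z * conj (Y γ δ z))‖
        ≤ ∫ z in {z | z ∈ D ∧ g z < T}, |C 0| * (‖Y α β z‖ * ‖Y γ δ z‖ / g z ^ n) := by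
          refine norm_integral_le_of_norm_le (i1.const_mul _) ?_
          refine (ae_restrict_iff' hmeas).mpr (Eventually.of_forall fun z hz => ?_)
          rw [norm_mul, norm_mul, RCLike.norm_conj]
          have h3 := wgt_norm h hz.1
          have h4 : 0 < g z ^ n := pow_pos (hg z hz.1) n
          have h5 : ‖K z‖ ≤ |C 0| / g z ^ n :=
            h3.trans (div_le_div_of_nonneg_right (le_abs_self _) h4.le)
          calc ‖K z‖ * (‖Y α β z‖ * ‖Y γ δ z‖) ≤ |C 0| / g z ^ n * (‖Y α β z‖ * ‖Y γ δ z‖) := by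
                gcongr
            _ = |C 0| * (‖Y α β z‖ * ‖Y γ δ z‖ / g z ^ n) := by ring
      _ = |C 0| * ∫ z in {z | z ∈ D ∧ g z < T}, ‖Y α β z‖ * ‖Y γ δ z‖ / g z ^ n :=
          integral_const_mul _ _
      _ ≤ |C 0| * E := mul_le_mul_of_nonneg_left i2 (abs_nonneg _)
  | succ k ih =>
    intro C n K h α β γ δ h1 h2
    have w1 := wgt_dz h
    have w2 := wgt_dzb h
    by_cases hδ : 0 < δ
    · obtain ⟨δ', rfl⟩ : ∃ δ', δ = δ' + 1 := ⟨δ - 1, by omega⟩
      rw [(ibp_wgt hD hY h α β γ δ').1]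
      have a1 := ih _ _ _ w1 α β γ δ' (by omega) (by omega)
      have a2 := ih _ _ _ h (α + 1) β γ δ' (by omega) (by omega)
      calc _ ≤ ‖-∫ z, dz K z * (Y α β z * conj (Y γ δ' z))‖ +
            ‖∫ z, K z * (Y (α + 1) β z * conj (Y γ δ' z))‖ := norm_sub_le _ _
        _ ≤ Mc k (fun i => C (i + 1)) * E + Mc k C * E := by
            rw [norm_neg]
            exact add_le_add a1 a2
        _ = Mc (k + 1) C * E := by
            change _ = (Mc k (fun i => C (i + 1)) + Mc k C) * E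
            ring
    · obtain ⟨γ', rfl⟩ : ∃ γ', γ = γ' + 1 := ⟨γ - 1, by omega⟩
      rw [(ibp_wgt hD hY h α β γ' δ).2]
      have a1 := ih _ _ _ w2 α β γ' δ (by omega) (by omega)
      have a2 := ih _ _ _ h α (β + 1) γ' δ (by omega) (by omega)
      calc _ ≤ ‖-∫ z, dzb K z * (Y α β z * conj (Y γ' δ z))‖ +
            ‖∫ z, K z * (Y α (β + 1) z * conj (Y γ' δ z))‖ := norm_sub_le _ _
        _ ≤ Mc k (fun i => C (i + 1)) * E + Mc k C * E := by
            rw [norm_neg]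
            exact add_le_add a1 a2
        _ = Mc (k + 1) C * E := by
            change _ = (Mc k (fun i => C (i + 1)) + Mc k C) * E
            ring

end ibp

/-- **the lowering lemma** -/
theorem stmtLow : StmtLow := by
  intro j q₀ C
  have hmono : ∀ k, k ≤ 4 * j → Mc k C ≤ Mc (4 * j) C := by
    intro k hk
    obtain ⟨d, hd⟩ := Nat.exists_eq_add_of_le hk
    rw [hd]
    clear hd hk
    induction d with
    | zero => exact le_rfl
    | succ d ih => exact ih.trans (Mc_mono _ _)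
  refine ⟨Mc (4 * j) C, Mc_nonneg _ _, ?_⟩
  intro D g Y T E hD hg hgc hY hE n K hK α β γ δ h1 h2
  obtain ⟨k, hk⟩ := Nat.exists_eq_add_of_le h1
  have hE0 : 0 ≤ E := by
    obtain ⟨_, i2⟩ := hE (4 * j - q₀) 0 q₀ 0 0 (by omega) (by omega)
    refine le_trans (integral_nonneg fun z => ?_) i2
    positivity
  have key : ∀ K', Wgt D g T n C K' →
      ‖∫ z, K' z * (Y α β z * conj (Y γ δ z))‖ ≤ Mc (4 * j) C * E := by
    intro K' hK'
    refine (low_aux hD hg hgc hY hE k C n K' hK' α β γ δ hk h2).trans ?_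
    exact mul_le_mul_of_nonneg_right (hmono k (by omega)) hE0
  refine ⟨key K hK, ?_⟩
  have h3 := key _ (wgt_conj hK)
  have h4 : ∫ z, K z * (Y γ δ z * conj (Y α β z)) =
      conj (∫ z, conj (K z) * (Y α β z * conj (Y γ δ z))) := by
    rw [← integral_conj]
    refine integral_congr_ae (Eventually.of_forall fun z => ?_)
    simp only [map_mul, Complex.conj_conj]
    ring
  rw [h4, RCLike.norm_conj]
  exact h3

end Pool.Agent.Lib.QNL.Low
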