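import Pool.Agent.Lib.QNL.WtJet

/-!
Uniform bounds for `∂^a ∂̄^b` of the weights `ψ(g / (h θ)) B`, and the exact Laplacian of the weight
`wt Φ O g θ h` in terms of them.
-/

set_option autoImplicit false

namespace Pool.Agent.Lib.QNL.WtDab

open MeasureTheory Filter Topology Set Pool.Agent.Lib.QNL.WProf Pool.Agent.Lib.QNL.Wt
  Pool.Agent.Lib.QNL.WtBd Pool.Agent.Lib.QNL.Calc Pool.Agent.Lib.QNL.WtJet
open scoped ContDiff Nat

section weights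

variable {δ : ℝ} {ψ : ℝ → ℝ} {O : Set ℂ} {g θ : ℂ → ℝ} {B : ℂ → ℂ} {h : ℝ} {z : ℂ}

/-! ### from iterated derivatives to `∂^a ∂̄^b` -/

/-- `A ↦ (A 1 - i A i) / 2` -/
noncomputable def Lz : (ℂ →L[ℝ] ℂ) →L[ℝ] ℂ :=
  (1 / 2 : ℂ) • (ContinuousLinearMap.apply ℝ ℂ (1 : ℂ) -
    Complex.I • ContinuousLinearMap.apply ℝ ℂ Complex.I)

/-- `A ↦ (A 1 + i A i) / 2` -/
noncomputable def Lzb : (ℂ →L[ℝ] ℂ) →L[ℝ] ℂ :=
  (1 / 2 : ℂ) • (ContinuousLinearMap.apply ℝ ℂ (1 : ℂ) +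
    Complex.I • ContinuousLinearMap.apply ℝ ℂ Complex.I)

theorem Lz_apply (A : ℂ →L[ℝ] ℂ) : Lz A = (A 1 - Complex.I * A Complex.I) / 2 := by
  simp [Lz]
  ring

theorem Lzb_apply (A : ℂ →L[ℝ] ℂ) : Lzb A = (A 1 + Complex.I * A Complex.I) / 2 := by
  simp [Lzb]
  ring

theorem norm_Lz : ‖Lz‖ ≤ 1 := by
  refine ContinuousLinearMap.opNorm_le_bound _ zero_le_one fun A => ?_
  rw [Lz_apply, norm_div, one_mul]
  have h1 : ‖A 1‖ ≤ ‖A‖ := by simpa using A.le_opNorm 1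
  have h2 : ‖A Complex.I‖ ≤ ‖A‖ := by simpa using A.le_opNorm Complex.I
  have h3 : ‖A 1 - Complex.I * A Complex.I‖ ≤ ‖A‖ + ‖A‖ := by
    refine (norm_sub_le _ _).trans (add_le_add h1 ?_)
    rw [norm_mul, Complex.norm_I, one_mul]; exact h2
  rw [Complex.norm_ofNat]
  linarith

theorem norm_Lzb : ‖Lzb‖ ≤ 1 := by
  refine ContinuousLinearMap.opNorm_le_bound _ zero_le_one fun A => ?_
  rw [Lzb_apply, norm_div, one_mul]
  have h1 : ‖A 1‖ ≤ ‖A‖ := by simpa using A.le_opNorm 1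
  have h2 : ‖A Complex.I‖ ≤ ‖A‖ := by simpa using A.le_opNorm Complex.I
  have h3 : ‖A 1 + Complex.I * A Complex.I‖ ≤ ‖A‖ + ‖A‖ := by
    refine (norm_add_le _ _).trans (add_le_add h1 ?_)
    rw [norm_mul, Complex.norm_I, one_mul]; exact h2
  rw [Complex.norm_ofNat]
  linarith

theorem iter_op {L : (ℂ →L[ℝ] ℂ) →L[ℝ] ℂ} (hL : ‖L‖ ≤ 1) {F : ℂ → ℂ} (hO : IsOpen O)
    (hF : ContDiffOn ℝ ∞ F O) (hz : z ∈ O) (n : ℕ) :
    ‖iteratedFDerivWithin ℝ n (fun w => L (fderiv ℝ F w)) O z‖ ≤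
      ‖iteratedFDerivWithin ℝ (n + 1) F O z‖ := by
  have hU : UniqueDiffOn ℝ O := hO.uniqueDiffOn
  have h1 : iteratedFDerivWithin ℝ n (fun w => L (fderiv ℝ F w)) O z =
      iteratedFDerivWithin ℝ n (L ∘ fderivWithin ℝ F O) O z :=
    iteratedFDerivWithin_congr (fun w hw => by
      simp only [Function.comp]
      rw [fderivWithin_of_isOpen hO hw]) hz n
  have hd : ContDiffOn ℝ ∞ (fderivWithin ℝ F O) O := hF.fderivWithin hU (by simp)
  rw [h1, ← norm_iteratedFDerivWithin_fderivWithin hU hz]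
  refine (ContinuousLinearMap.norm_iteratedFDerivWithin_comp_left (N := ∞) L
    (hd.contDiffWithinAt hz) hU hz (by exact_mod_cast le_top)).trans ?_
  exact mul_le_of_le_one_left (norm_nonneg _) hL

theorem iter_dz {F : ℂ → ℂ} (hO : IsOpen O) (hF : ContDiffOn ℝ ∞ F O) (hz : z ∈ O) (n : ℕ) :
    ‖iteratedFDerivWithin ℝ n (dz F) O z‖ ≤ ‖iteratedFDerivWithin ℝ (n + 1) F O z‖ := by
  have : dz F = fun w => Lz (fderiv ℝ F w) := by
    funext w; rw [Lz_apply]; rfl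
  rw [this]
  exact iter_op norm_Lz hO hF hz n

theorem iter_dzb {F : ℂ → ℂ} (hO : IsOpen O) (hF : ContDiffOn ℝ ∞ F O) (hz : z ∈ O) (n : ℕ) :
    ‖iteratedFDerivWithin ℝ n (dzb F) O z‖ ≤ ‖iteratedFDerivWithin ℝ (n + 1) F O z‖ := by
  have : dzb F = fun w => Lzb (fderiv ℝ F w) := by
    funext w; rw [Lzb_apply]; rfl
  rw [this]
  exact iter_op norm_Lzb hO hF hz n

theorem iter_dz_iter (hO : IsOpen O) (hz : z ∈ O) (a : ℕ) :
    ∀ (n : ℕ) (F : ℂ → ℂ), ContDiffOn ℝ ∞ F O →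
      ‖iteratedFDerivWithin ℝ n (dz^[a] F) O z‖ ≤ ‖iteratedFDerivWithin ℝ (n + a) F O z‖ := by
  induction a with
  | zero => intro n F _; exact le_rfl
  | succ a ih =>
    intro n F hF
    rw [Function.iterate_succ, Function.comp_apply]
    refine (ih n (dz F) (Sm.dz hF hO)).trans ?_
    refine (iter_dz hO hF hz (n + a)).trans (le_of_eq ?_)
    rw [add_assoc]

theorem iter_dzb_iter (hO : IsOpen O) (hz : z ∈ O) (a : ℕ) :
    ∀ (n : ℕ) (F : ℂ → ℂ), ContDiffOn ℝ ∞ F O →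
      ‖iteratedFDerivWithin ℝ n (dzb^[a] F) O z‖ ≤ ‖iteratedFDerivWithin ℝ (n + a) F O z‖ := by
  induction a with
  | zero => intro n F _; exact le_rfl
  | succ a ih =>
    intro n F hF
    rw [Function.iterate_succ, Function.comp_apply]
    refine (ih n (dzb F) (Sm.dzb hF hO)).trans ?_
    refine (iter_dzb hO hF hz (n + a)).trans (le_of_eq ?_)
    rw [add_assoc]

theorem sm_dzb_iter (hO : IsOpen O) (a : ℕ) :
    ∀ F : ℂ → ℂ, ContDiffOn ℝ ∞ F O → ContDiffOn ℝ ∞ (dzb^[a] F) O := by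
  induction a with
  | zero => intro F hF; exact hF
  | succ a ih => intro F hF; exact ih (dzb F) (Sm.dzb hF hO)

theorem norm_dab_le {F : ℂ → ℂ} (hO : IsOpen O) (hF : ContDiffOn ℝ ∞ F O) (hz : z ∈ O)
    (a b : ℕ) : ‖Dab a b F z‖ ≤ ‖iteratedFDerivWithin ℝ (a + b) F O z‖ := by
  have h1 := iter_dz_iter hO hz a 0 (dzb^[b] F) (sm_dzb_iter hO b F hF)
  rw [norm_iteratedFDerivWithin_zero, zero_add] at h1
  exact h1.trans (iter_dzb_iter hO hz b a F hF)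

/-- **uniform bounds** `‖∂^a ∂̄^b (ψ(g / (h θ)) B)‖ ≤ C h ^ n / g ^ (n + a + b)` -/
theorem dab_bd (H : Cut δ ψ) (A : Dat O g θ) (hB : ContDiffOn ℝ ∞ B O) (n N : ℕ)
    (hn : n = 0 ∨ ψ 1 = 0) : ∃ C : ℝ, 0 ≤ C ∧
    ∀ a b, a + b ≤ N → ∀ h, 0 < h → h ≤ 1 → ∀ z ∈ O, 0 < g z →
      ‖Dab a b (wk ψ O g θ B h) z‖ ≤ C * h ^ n / (g z) ^ (n + (a + b)) := by
  obtain ⟨C, hC, hC'⟩ := wk_iter_bd H A hB n N hn
  exact ⟨C, hC, fun a b hab h hh hh1 z hz hg =>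
    (norm_dab_le A.open_ (wk_smooth_on H A hB hh) hz a b).trans (hC' _ hab h hh hh1 z hz hg)⟩

/-- the derivatives live in the layer `{g ≤ h θ}` -/
theorem dab_zero (H : Cut δ ψ) (A : Dat O g θ) (hB : ContDiffOn ℝ ∞ B O) (hh : 0 < h)
    (hz : z ∈ O) (hg : h * θ z < g z) {a b : ℕ}
    (hi : (a + b ≠ 0 ∧ ∃ c : ℂ, B = fun _ => c) ∨ ψ 1 = 0) :
    Dab a b (wk ψ O g θ B h) z = 0 := by
  rw [← norm_le_zero_iff]
  refine (norm_dab_le A.open_ (wk_smooth_on H A hB hh) hz a b).trans ?_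
  rw [wk_iter_zero H A hB hh hz hg hi, norm_zero]

/-! ### the Laplacian of the weight -/

/-- `R = |∇g - (g / θ) ∇θ|² / θ` -/
noncomputable def RR (g θ : ℂ → ℝ) (z : ℂ) : ℝ :=
  ((dx g z - g z / θ z * dx θ z) ^ 2 + (dy g z - g z / θ z * dy θ z) ^ 2) / θ z

theorem RR_nonneg (A : Dat O g θ) (hz : z ∈ O) : 0 ≤ RR g θ z := by
  have := A.θ_pos z hz
  unfold RR
  positivity

theorem RR_smooth (A : Dat O g θ) : ContDiffOn ℝ ∞ (RR g θ) O := by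
  have hp : ContDiffOn ℝ ∞ (fun z => g z / θ z) O :=
    A.g_sm.div A.θ_sm fun z hz => (A.θ_pos z hz).ne'
  have h1 : ∀ v, ContDiffOn ℝ ∞ (fun z => dv v g z - g z / θ z * dv v θ z) O := fun v =>
    (contDiffOn_dv A.open_ A.g_sm (m := ∞) (by simp) v).sub
      (hp.mul (contDiffOn_dv A.open_ A.θ_sm (m := ∞) (by simp) v))
  exact (((h1 1).pow 2).add ((h1 Complex.I).pow 2)).div A.θ_sm fun z hz => (A.θ_pos z hz).ne'

/-- **exact Laplacian**: `lap v_h = - Φ'(σ) + (1/h) Φ''(σ) R`, everywhere -/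
theorem lap_wt_eq {τ : ℝ} {Φ : ℝ → ℝ} (H : Prof τ δ Φ) (A : Dat O g θ) (hh : 0 < h) (z : ℂ) :
    ((lap (wt Φ O g θ h) z : ℝ) : ℂ) = - wk (deriv Φ) O g θ (fun _ => 1) h z +
      (1 / h) * wk (deriv (deriv Φ)) O g θ (fun w => (RR g θ w : ℂ)) h z := by
  by_cases hz : z ∈ O
  · rw [wk_of_mem hz, wk_of_mem hz, lap_wt H A hh hz]
    have e : deriv (deriv Φ) (g z / (h * θ z)) *
      ((dx g z - g z / (h * θ z) * (h * dx θ z)) ^ 2 +
        (dy g z - g z / (h * θ z) * (h * dy θ z)) ^ 2) / (h * θ z) -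
      deriv Φ (g z / (h * θ z)) = - (deriv Φ (g z / (h * θ z)) * 1) +
      (1 / h) * (deriv (deriv Φ) (g z / (h * θ z)) * RR g θ z) := by
      have h1 : ∀ t : ℝ, g z / (h * θ z) * (h * t) = g z / θ z * t := by
        intro t
        have := hh.ne'
        have := (A.θ_pos z hz).ne'
        field_simp
      rw [h1, h1, RR]
      have := hh.ne'
      have := (A.θ_pos z hz).ne'
      field_simp
      ring
    rw [e]
    push_cast
    ring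
  · rw [wk_of_notMem hz, wk_of_notMem hz, lap_wt_zero H A hh (fun h => hz h.1)]
    simp

end weights

end Pool.Agent.Lib.QNL.WtDab
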