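import Pool.Agent.Lib.QNL.EStmts
import Pool.Agent.Lib.QNL.WtDab

/-!
The weights `ψ(σ_h) B` satisfy `Wgt` with constants independent of `h`:
`stmtPs : ES.StmtPs` and `stmtPs1 : ES.StmtPs1`.
-/

set_option autoImplicit false

namespace Pool.Agent.Lib.QNL.Ps60

open MeasureTheory Filter Topology Set
open scoped ContDiff ComplexConjugate
open Pool.Agent.Lib.QNL.WProf Pool.Agent.Lib.QNL.Wt Pool.Agent.Lib.QNL.WtBd
  Pool.Agent.Lib.QNL.WtJet Pool.Agent.Lib.QNL.WtDab Pool.Agent.Lib.QNL.Calc Pool.Agent.Lib.QNL.ES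

variable {δ : ℝ} {ψ : ℝ → ℝ} {O : Set ℂ} {g θ : ℂ → ℝ} {B : ℂ → ℂ} {h : ℝ} {z : ℂ}

theorem ps_eq : ps ψ B O g θ h = wk ψ O g θ B h := rfl

theorem RR_eq : ES.RR g θ = WtDab.RR g θ := rfl

/-- in the open set `{h θ < g}` the weight `ψ(σ_h)` is constant -/
theorem ps_const_near (H : Cut δ ψ) (A : Dat O g θ) (hh : 0 < h) (hz : z ∈ O)
    (hg : h * θ z < g z) : ∀ᶠ w in 𝓝 z, w ∈ O ∧ h * θ w < g w ∧
      ps ψ B O g θ h w = (ψ 1 : ℂ) * B w := by
  have h1 : ContinuousAt (fun w => g w - h * θ w) z :=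
    (A.g_sm.continuousOn.continuousAt (A.open_.mem_nhds hz)).sub
      (continuousAt_const.mul (A.θ_sm.continuousOn.continuousAt (A.open_.mem_nhds hz)))
  have h2 : ∀ᶠ w in 𝓝 z, 0 < g w - h * θ w :=
    h1.tendsto.eventually (lt_mem_nhds (by linarith))
  filter_upwards [h2, A.open_.mem_nhds hz] with w hw hwO
  refine ⟨hwO, by linarith, ?_⟩
  rw [ps_eq, wk_of_mem hwO, H.const]
  rw [le_div_iff₀ (mul_pos hh (A.θ_pos w hwO)), one_mul]
  linarith

theorem iter_eq {E : Type*} [NormedAddCommGroup E] [NormedSpace ℝ E] {f : ℂ → E}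
    (hO : IsOpen O) (hz : z ∈ O) (i : ℕ) :
    iteratedFDeriv ℝ i f z = iteratedFDerivWithin ℝ i f O z :=
  (iteratedFDerivWithin_of_isOpen i hO hz).symm

/-- **the weights supported in the layer** -/
theorem stmtPs : StmtPs := by
  intro O g θ ψ B δ A hψ hδ h0 h1 hB
  have H : Cut δ ψ := ⟨hψ, hδ, h0, fun s hs => by rw [h1 s hs, h1 1 le_rfl]⟩
  have hψ1 : ψ 1 = 0 := h1 1 le_rfl
  obtain ⟨M, hM1, hM⟩ := exists_bd A
  choose C hC0 hC using fun i : ℕ => wk_iter_bd H A hB 0 i (Or.inl rfl)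
  refine ⟨C, M + 1, by linarith, fun h hh hh1 => ⟨wk_smooth H A hB hh, wk_cpt H A hh, ?_, ?_⟩⟩
  · intro z hz
    obtain ⟨hzO, hzg⟩ := wk_tsupport H A hh hz
    refine ⟨⟨hzO, hzg⟩, ?_⟩
    by_contra hcon
    have hθ := (hM z hzO hzg.le).2.1
    have hlt : h * θ z < g z := by
      have : h * θ z ≤ h * M := mul_le_mul_of_nonneg_left hθ hh.le
      nlinarith [not_lt.1 hcon]
    have hev := ps_const_near (B := B) H A hh hzO hlt
    refine (notMem_tsupport_iff_eventuallyEq.2 ?_) hz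
    filter_upwards [hev] with w hw
    rw [hw.2.2, hψ1]
    simp
  · intro i z hz
    have := hC i i le_rfl h hh hh1 z hz.1 hz.2
    rw [iter_eq A.open_ hz.1, ps_eq]
    simpa using this

theorem tsupport_op {L : (ℂ →L[ℝ] ℂ) →L[ℝ] ℂ} {F : ℂ → ℂ} :
    tsupport (fun w => L (fderiv ℝ F w)) ⊆ tsupport F := by
  refine (closure_mono ?_).trans (tsupport_fderiv_subset ℝ (f := F))
  intro w hw hw'
  apply hw
  simp only [hw', map_zero]

theorem wgt_op {L : (ℂ →L[ℝ] ℂ) →L[ℝ] ℂ} (hL : ‖L‖ ≤ 1) (H : Cut δ ψ) (A : Dat O g θ)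
    {M : ℝ} (hM : ∀ z ∈ O, 0 < g z → θ z ≤ M) (hh : 0 < h) {C C' : ℕ → ℝ}
    (hC : ∀ i : ℕ, ∀ z ∈ O, 0 < g z →
      ‖iteratedFDerivWithin ℝ i (ps ψ (fun _ => 1) O g θ h) O z‖ ≤ C i / g z ^ i)
    (hCC : ∀ i, C (i + 1) ≤ C' i) :
    Wgt (DD O g) g ((M + 1) * h) 1 C' (fun w => L (fderiv ℝ (ps ψ (fun _ => 1) O g θ h) w)) := by
  have hB : ContDiffOn ℝ ∞ (fun _ : ℂ => (1 : ℂ)) O := contDiffOn_const
  have hs := wk_smooth H A hB hh
  refine ⟨?_, ?_, ?_, ?_⟩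
  · exact L.contDiff.comp (hs.fderiv_right (m := ∞) (by simp))
  · exact (wk_cpt H A hh).mono' ((subset_tsupport _).trans tsupport_op)
  · intro z hz
    have hz' : z ∈ tsupport (ps ψ (fun _ => 1) O g θ h) := tsupport_op hz
    obtain ⟨hzO, hzg⟩ := wk_tsupport H A hh hz'
    refine ⟨⟨hzO, hzg⟩, ?_⟩
    by_contra hcon
    have hθ := hM z hzO hzg
    have hlt : h * θ z < g z := by
      have : h * θ z ≤ h * M := mul_le_mul_of_nonneg_left hθ hh.le
      nlinarith [not_lt.1 hcon]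
    have hev := (ps_const_near (B := fun _ => (1 : ℂ)) H A hh hzO hlt).eventually_nhds
    refine (notMem_tsupport_iff_eventuallyEq.2 ?_) hz
    filter_upwards [hev] with w hw
    have : ps ψ (fun _ => 1) O g θ h =ᶠ[𝓝 w] fun _ => (ψ 1 : ℂ) * 1 := by
      filter_upwards [hw] with u hu using hu.2.2
    rw [this.fderiv_eq]
    simp
  · intro i z hz
    rw [iter_eq A.open_ hz.1]
    refine (iter_op hL A.open_ hs.contDiffOn hz.1 i).trans ?_
    refine (hC (i + 1) z hz.1 hz.2).trans ?_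
    rw [add_comm 1 i]
    exact div_le_div_of_nonneg_right (hCC i) (pow_pos hz.2 _).le

/-- **the weights `ψ(σ_h)` and their first derivatives** -/
theorem stmtPs1 : StmtPs1 := by
  intro O g θ ψ δ p A hψ hδ h0 h1
  have H : Cut δ ψ := ⟨hψ, hδ, h0, fun s hs => by rw [h1 s hs, h1 1 le_rfl]⟩
  have hB : ContDiffOn ℝ ∞ (fun _ : ℂ => (1 : ℂ)) O := contDiffOn_const
  obtain ⟨M, hM1, hM⟩ := exists_bd A
  choose C hC0 hC using fun i : ℕ => wk_iter_bd H A hB 0 i (Or.inl rfl)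
  have hM' : ∀ z ∈ O, 0 < g z → θ z ≤ M := fun z hz hg => (hM z hz hg.le).2.1
  have hCb : ∀ h, 0 < h → h ≤ 1 → ∀ i : ℕ, ∀ z ∈ O, 0 < g z →
      ‖iteratedFDerivWithin ℝ i (ps ψ (fun _ => 1) O g θ h) O z‖ ≤ C i / g z ^ i := by
    intro h hh hh1 i z hz hg
    have := hC i i le_rfl h hh hh1 z hz hg
    rw [ps_eq]
    simpa using this
  refine ⟨fun i => C i + C (i + 1), M + 1, M + 1, by linarith, ?_, fun h hh hh1 => ⟨?_, ?_, ?_⟩⟩
  · intro z hz
    have := (hM z hz.1 hz.2.le).1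
    linarith
  · refine ⟨wk_smooth H A hB hh, wk_cpt H A hh, ?_, ?_⟩
    · intro z hz
      obtain ⟨hzO, hzg⟩ := wk_tsupport H A hh hz
      exact ⟨⟨hzO, hzg⟩, by linarith [(hM z hzO hzg.le).1]⟩
    · intro i z hz
      rw [iter_eq A.open_ hz.1, zero_add]
      refine (hCb h hh hh1 i z hz.1 hz.2).trans ?_
      exact div_le_div_of_nonneg_right (by linarith [hC0 (i + 1)]) (pow_pos hz.2 _).le
  · have := wgt_op (C' := fun i => C i + C (i + 1)) norm_Lz H A hM' hh (hCb h hh hh1)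
      (fun i => by linarith [hC0 i])
    have e : dz (ps ψ (fun _ => 1) O g θ h) =
        fun w => Lz (fderiv ℝ (ps ψ (fun _ => 1) O g θ h) w) := by
      funext w; rw [Lz_apply]; rfl
    rw [e]
    exact this
  · have := wgt_op (C' := fun i => C i + C (i + 1)) norm_Lzb H A hM' hh (hCb h hh hh1)
      (fun i => by linarith [hC0 i])
    have e : dzb (ps ψ (fun _ => 1) O g θ h) =
        fun w => Lzb (fderiv ℝ (ps ψ (fun _ => 1) O g θ h) w) := by
      funext w; rw [Lzb_apply]; rfl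
    rw [e]
    exact this

end Pool.Agent.Lib.QNL.Ps60
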