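import Pool.Agent.Lib.QNL.EEnds
import Pool.Agent.Lib.QNL.ESec
import Pool.Agent.Lib.QNL.EPair
import Pool.Agent.Lib.QNL.Ps60
import Pool.Agent.Lib.QNL.Low
import Pool.Agent.Lib.QNL.EHY

/-!
# Bounded ends, second order terms and pairs, without hypotheses (group E)
-/

set_option autoImplicit false

namespace Pool.Agent.Lib.QNL.EEnds

open Pool.Agent.Lib.QNL.ES

theorem ends : StmtEnds := stmtEnds Ps60.stmtPs Ps60.stmtPs1 Low.stmtLow Hardy.stmtHY

theorem ends40 : Sec40.StmtEnds := fun O g θ j Y τ δ Φ _ hY hP =>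
  let ⟨C, _, h⟩ := ends O g θ j Y τ δ Φ hY hP
  ⟨C, h⟩

theorem stmtSec : StmtSec := Sec40.stmtSec_of_ends ends40

theorem stmtPair : StmtPair := EPair.stmtPair Hardy.stmtHY stmtSec

end Pool.Agent.Lib.QNL.EEnds
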