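import Pool.Agent.Lib.QNL.EPair
import Pool.Agent.Lib.QNL.Low
import Pool.Agent.Lib.QNL.Ps60
import Pool.Agent.Lib.QNL.BI
import Pool.Agent.Lib.QNL.EEndsU

/-!
Group E: `StmtCross` from `StmtHY` and `StmtSec`.
-/

set_option autoImplicit false

namespace Pool.Agent.Lib.QNL.ECross

open MeasureTheory Filter Topology Set
open scoped ContDiff ComplexConjugate
open Pool.Agent.Lib.QNL.WProf Pool.Agent.Lib.QNL.Wt Pool.Agent.Lib.QNL.ES
open Pool.Agent.Lib.QNL.Je Pool.Agent.Lib.QNL.FId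

theorem dv_smooth {O : Set ℂ} (hO : IsOpen O) {f : ℂ → ℝ} (hf : ContDiffOn ℝ ∞ f O) (v : ℂ) :
    ContDiffOn ℝ ∞ (fun z => fderiv ℝ f z v) O :=
  (hf.fderiv_of_isOpen hO (by norm_num)).clm_apply contDiffOn_const

theorem RR_smooth {O : Set ℂ} {g θ : ℂ → ℝ} (A : Dat O g θ) :
    ContDiffOn ℝ ∞ (fun z => ((RR g θ z : ℝ) : ℂ)) O := by
  have h1 := dv_smooth A.open_ A.g_sm 1
  have h2 := dv_smooth A.open_ A.g_sm Complex.I
  have h3 := dv_smooth A.open_ A.θ_sm 1
  have h4 := dv_smooth A.open_ A.θ_sm Complex.I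
  have hθ : ∀ z ∈ O, θ z ≠ 0 := fun z hz => (A.θ_pos z hz).ne'
  have h5 : ContDiffOn ℝ ∞ (fun z => RR g θ z) O := by
    unfold RR
    exact (((h1.sub ((A.g_sm.div A.θ_sm hθ).mul h3)).pow 2).add
      ((h2.sub ((A.g_sm.div A.θ_sm hθ).mul h4)).pow 2)).div A.θ_sm hθ
  exact Complex.ofRealCLM.contDiff.comp_contDiffOn h5

theorem stmtCross (hHY : StmtHY) (hSec : StmtSec) : StmtCross := by
  intro O g θ j Y τ δ Φ hH hP α β γ κ h4 hlt
  have A := hH.dat
  have hY := hH.jet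
  have hg : ∀ z ∈ DD O g, 0 < g z := fun z hz => hz.2
  have hgc : ContinuousOn g (DD O g) := A.g_sm.continuousOn.mono fun z hz => hz.1
  -- the weights
  have hd1 : ContDiff ℝ ∞ (deriv Φ) := (contDiff_infty_iff_deriv.1 hP.smooth).2
  have hd2 : ContDiff ℝ ∞ (deriv (deriv Φ)) := (contDiff_infty_iff_deriv.1 hd1).2
  have hz0 : ∀ s, s ≤ δ → deriv (deriv Φ) s = 0 := by
    have e1 : ∀ s, s < δ → deriv Φ s = 0 := by
      intro s hs
      have : Φ =ᶠ[𝓝 s] fun _ => 0 := by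
        filter_upwards [Iio_mem_nhds hs] with t ht using hP.zero t (le_of_lt ht)
      rw [this.deriv_eq, deriv_const]
    have e2 : ∀ s, s < δ → deriv (deriv Φ) s = 0 := by
      intro s hs
      have : deriv Φ =ᶠ[𝓝 s] fun _ => 0 := by
        filter_upwards [Iio_mem_nhds hs] with t ht using e1 t ht
      rw [this.deriv_eq, deriv_const]
    intro s hs
    rcases hs.lt_or_eq with h | h
    · exact e2 s h
    · subst h
      have hc : Tendsto (deriv (deriv Φ)) (𝓝[<] s) (𝓝 (deriv (deriv Φ) s)) :=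
        (hd2.continuous.tendsto s).mono_left nhdsWithin_le_nhds
      have hc0 : Tendsto (deriv (deriv Φ)) (𝓝[<] s) (𝓝 0) :=
        tendsto_const_nhds.congr' (by
          filter_upwards [self_mem_nhdsWithin] with t ht using (e2 t ht).symm)
      exact tendsto_nhds_unique hc hc0
  have hz1 : ∀ s, 1 ≤ s → deriv (deriv Φ) s = 0 := by
    have e2 : ∀ s, 1 < s → deriv (deriv Φ) s = 0 := by
      intro s hs
      have : deriv Φ =ᶠ[𝓝 s] fun _ => 1 := by
        filter_upwards [Ioi_mem_nhds hs] with t ht using hP.one t (le_of_lt ht)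
      rw [this.deriv_eq, deriv_const]
    intro s hs
    rcases hs.lt_or_eq with h | h
    · exact e2 s h
    · subst h
      have hc : Tendsto (deriv (deriv Φ)) (𝓝[>] 1) (𝓝 (deriv (deriv Φ) 1)) :=
        (hd2.continuous.tendsto 1).mono_left nhdsWithin_le_nhds
      have hc0 : Tendsto (deriv (deriv Φ)) (𝓝[>] 1) (𝓝 0) :=
        tendsto_const_nhds.congr' (by
          filter_upwards [self_mem_nhdsWithin] with t ht using (e2 t ht).symm)
      exact tendsto_nhds_unique hc hc0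
  obtain ⟨C, T, hT, hW⟩ := Ps60.stmtPs O g θ (deriv (deriv Φ)) (fun z => ((RR g θ z : ℝ) : ℂ)) δ A
    hd2 hP.δpos hz0 hz1 (RR_smooth A)
  obtain ⟨C', hC', hL⟩ := Low.stmtLow j (2 * j + 1) C
  have hpair := EPair.pair_ii hHY hSec hH
  -- a uniform threshold for all the (finitely many) pairs
  have hun : ∀ e, 0 < e → ∃ T₀, 0 < T₀ ∧ ∀ T', 0 < T' → T' < T₀ → ∀ α β γ δ m,
      γ + δ = 2 * j + 1 → α + β + m + (2 * j + 1) = 4 * j →
      IntegrableOn (fun z => ‖Y α β z‖ * ‖Y γ δ z‖ / g z ^ m) (LL O g T') ∧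
      ∫ z in LL O g T', ‖Y α β z‖ * ‖Y γ δ z‖ / g z ^ m ≤ e * T' := by
    intro e he
    -- finite index set
    have hfin : ∀ α β γ δ : ℕ, ∃ T₀, 0 < T₀ ∧ ∀ T', 0 < T' → T' < T₀ → ∀ m,
        γ + δ = 2 * j + 1 → α + β + m + (2 * j + 1) = 4 * j →
        IntegrableOn (fun z => ‖Y α β z‖ * ‖Y γ δ z‖ / g z ^ m) (LL O g T') ∧
        ∫ z in LL O g T', ‖Y α β z‖ * ‖Y γ δ z‖ / g z ^ m ≤ e * T' := by
      intro α β γ δ
      by_cases hc : γ + δ = 2 * j + 1 ∧ α + β + 1 ≤ 2 * j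
      · have hm : α + β + (2 * j - 1 - α - β) + 1 = 2 * j := by omega
        obtain ⟨h1, h2⟩ := hpair α β γ δ (2 * j - 1 - α - β) hc.1 hm
        obtain ⟨T₀, hT₀, h3⟩ := h2 e he
        refine ⟨T₀, hT₀, fun T' h0 hlt m _ hm' => ?_⟩
        have : m = 2 * j - 1 - α - β := by omega
        subst this
        exact ⟨h1.mono_set (EPair.LL_subset T'), h3 T' h0 hlt⟩
      · refine ⟨1, one_pos, fun T' _ _ m h1 h2 => ?_⟩
        exfalso
        apply hc
        constructor <;> omega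
    choose f hf0 hf using hfin
    set N := 2 * j + 2 with hN
    set S : Finset (ℕ × ℕ × ℕ × ℕ) := Finset.range N ×ˢ Finset.range N ×ˢ Finset.range N ×ˢ
      Finset.range N with hS
    have hne : S.Nonempty := ⟨(0, 0, 0, 0), by simp [hS, hN]⟩
    refine ⟨S.inf' hne fun p => f p.1 p.2.1 p.2.2.1 p.2.2.2, ?_, ?_⟩
    · rw [Finset.lt_inf'_iff]
      exact fun p _ => hf0 _ _ _ _
    · intro T' h0 hlt α β γ δ m h1 h2
      have hmem : (α, β, γ, δ) ∈ S := by
        simp only [hS, hN, Finset.mem_product, Finset.mem_range]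
        omega
      have := (Finset.lt_inf'_iff hne).1 hlt _ hmem
      exact hf α β γ δ T' h0 this m h1 h2
  rw [Metric.tendsto_nhdsWithin_nhds]
  intro ε hε
  set e : ℝ := ε / (2 * (C' + 1) * T) with he
  have he0 : 0 < e := by positivity
  obtain ⟨T₀, hT₀, hU⟩ := hun e he0
  refine ⟨min 1 (T₀ / T), lt_min one_pos (by positivity), ?_⟩
  intro h hh hd
  have hh0 : 0 < h := hh
  rw [Real.dist_eq, sub_zero, abs_of_pos hh0] at hd
  have hh1 : h ≤ 1 := (hd.trans_le (min_le_left _ _)).le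
  have hTh : T * h < T₀ := by
    have := hd.trans_le (min_le_right _ _)
    rw [lt_div_iff₀ hT] at this
    linarith
  have hE := hL (DD O g) g Y (T * h) (e * (T * h)) (EPair.isOpen_DD A) hg hgc (BI.isJet (EPair.isOpen_DD A) hY)
    (fun α β γ δ m h1 h2 => by
      have := hU (T * h) (by positivity) hTh α β γ δ m h1 h2
      have e1 : {z | z ∈ DD O g ∧ g z < T * h} = LL O g (T * h) := by
        ext z
        simp only [DD, LL, Set.mem_ofPred_eq, and_assoc]
      rw [e1]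
      exact this) 0 _ (hW h hh0 hh1) α β γ κ (by omega) (by omega)
  rw [dist_zero_right, norm_mul, Complex.norm_real, Real.norm_of_nonneg (by positivity)]
  calc 1 / h * ‖∫ z, ps (deriv (deriv Φ)) (fun z => ((RR g θ z : ℝ) : ℂ)) O g θ h z *
        (Y α β z * conj (Y γ κ z))‖ ≤ 1 / h * (C' * (e * (T * h))) :=
        mul_le_mul_of_nonneg_left hE.1 (by positivity)
    _ = C' * (e * T) := by field_simp
    _ ≤ (C' + 1) * (e * T) := by nlinarith [mul_pos he0 hT]
    _ = ε / 2 := by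
        rw [he]
        field_simp
    _ < ε := by linarith

/-- `StmtCross`, without hypotheses -/
theorem cross : StmtCross := stmtCross Hardy.stmtHY EEnds.stmtSec

end Pool.Agent.Lib.QNL.ECross
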