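import Pool.Agent.Lib.QNL.BI

/-!
# Bounded ends (group E)

`∫_D v_h (|Y (2j+1) 0|² + |Y 0 (2j+1)|²) ≤ C` for `0 < h ≤ 1`.
-/

set_option autoImplicit false

namespace Pool.Agent.Lib.QNL.EEnds

open MeasureTheory Filter Topology Set
open scoped ENNReal ContDiff ComplexConjugate
open Pool.Agent.Lib.QNL.Calc Pool.Agent.Lib.QNL.FId Pool.Agent.Lib.QNL.ES
open Pool.Agent.Lib.QNL.WProf Pool.Agent.Lib.QNL.Wt Pool.Agent.Lib.QNL.BI

/-- bounded ends -/
def StmtEnds : Prop := ∀ (O : Set ℂ) (g θ : ℂ → ℝ) (j : ℕ) (Y : ℕ → ℕ → ℂ → ℂ) (τ δ : ℝ)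
  (Φ : ℝ → ℝ), Hy O g θ j Y → Prof τ δ Φ → ∃ C : ℝ, 0 ≤ C ∧ ∀ h, 0 < h → h ≤ 1 →
    ∫ z in DD O g, wt Φ O g θ h z * (‖Y (2 * j + 1) 0 z‖ ^ 2 + ‖Y 0 (2 * j + 1) z‖ ^ 2) ≤ C

/-- products of one jet of order `2j` and one of order `2j - m`, weight `g^(-m)` -/
theorem pair1 (hHY : StmtHY) (O : Set ℂ) (g θ : ℂ → ℝ) (j : ℕ) (Y : ℕ → ℕ → ℂ → ℂ)
    (H : Hy O g θ j Y) : ∃ C : ℝ, 0 ≤ C ∧ ∀ α β γ δ m, γ + δ = 2 * j → α + β + m = 2 * j →
      IntegrableOn (fun z => ‖Y α β z‖ * ‖Y γ δ z‖ / g z ^ m) (DD O g) ∧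
      ∀ T, ∫ z in LL O g T, ‖Y α β z‖ * ‖Y γ δ z‖ / g z ^ m ≤ C * max T 0 := by
  obtain ⟨C, hC, hb⟩ := hHY O g θ j Y H
  have hD : IsOpen (DD O g) := Dat_open H.dat
  have hg : ContinuousOn g (DD O g) := H.dat.g_sm.continuousOn.mono fun z hz => hz.1
  refine ⟨C, hC, fun α β γ δ m h1 h2 => ?_⟩
  obtain ⟨i1, b1⟩ := hb α β m h2
  obtain ⟨i2, b2⟩ := hb γ δ 0 (by omega)
  simp only [mul_zero, pow_zero, div_one] at i2 b2
  have hle : ∀ z ∈ DD O g, ‖Y α β z‖ * ‖Y γ δ z‖ / g z ^ m ≤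
      (‖Y α β z‖ ^ 2 / g z ^ (2 * m) + ‖Y γ δ z‖ ^ 2) / 2 := by
    intro z hz
    have hgz : 0 < g z := hz.2
    have e1 : ‖Y α β z‖ ^ 2 / g z ^ (2 * m) = (‖Y α β z‖ / g z ^ m) ^ 2 := by
      rw [div_pow, ← pow_mul, mul_comm m 2]
    have e2 : ‖Y α β z‖ * ‖Y γ δ z‖ / g z ^ m = (‖Y α β z‖ / g z ^ m) * ‖Y γ δ z‖ := by
      ring
    rw [e1, e2]
    nlinarith [sq_nonneg (‖Y α β z‖ / g z ^ m - ‖Y γ δ z‖)]
  have hnn : ∀ z ∈ DD O g, 0 ≤ ‖Y α β z‖ * ‖Y γ δ z‖ / g z ^ m := fun z hz =>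
    div_nonneg (by positivity) (pow_nonneg hz.2.le m)
  have hmeas : ContinuousOn (fun z => ‖Y α β z‖ * ‖Y γ δ z‖ / g z ^ m) (DD O g) :=
    (((H.jet.smooth α β).continuousOn.norm).mul (H.jet.smooth γ δ).continuousOn.norm).div
      (hg.pow m) fun z hz => pow_ne_zero m hz.2.ne'
  have i3 : IntegrableOn (fun z => (‖Y α β z‖ ^ 2 / g z ^ (2 * m) + ‖Y γ δ z‖ ^ 2) / 2)
      (DD O g) := (i1.add i2).div_const 2
  have i4 : IntegrableOn (fun z => ‖Y α β z‖ * ‖Y γ δ z‖ / g z ^ m) (DD O g) := by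
    refine Integrable.mono' i3 (hmeas.aestronglyMeasurable hD.measurableSet) ?_
    refine (ae_restrict_iff' hD.measurableSet).2 (ae_of_all _ fun z hz => ?_)
    rw [Real.norm_of_nonneg (hnn z hz)]
    exact hle z hz
  refine ⟨i4, fun T => ?_⟩
  have hLD : LL O g T ⊆ DD O g := fun z hz => ⟨hz.1, hz.2.1⟩
  rcases le_or_gt T 0 with hT | hT
  · have : LL O g T = ∅ := by
      ext z
      simp only [LL, mem_ofPred_eq, mem_empty_iff_false, iff_false]
      rintro ⟨_, h3, h4⟩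
      linarith
    rw [this, setIntegral_empty, max_eq_right hT, mul_zero]
  · rw [max_eq_left hT.le]
    have hLm : MeasurableSet (LL O g T) := by
      have h1 : LL O g T = DD O g ∩ g ⁻¹' (Iio T) := by
        ext z
        simp only [LL, DD, mem_ofPred_eq, mem_inter_iff, mem_preimage, mem_Iio]
        tauto
      rw [h1]
      exact (hg.isOpen_inter_preimage hD isOpen_Iio).measurableSet
    calc ∫ z in LL O g T, ‖Y α β z‖ * ‖Y γ δ z‖ / g z ^ m
        ≤ ∫ z in LL O g T, (‖Y α β z‖ ^ 2 / g z ^ (2 * m) + ‖Y γ δ z‖ ^ 2) / 2 :=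
          setIntegral_mono_on (i4.mono_set hLD) (i3.mono_set hLD) hLm fun z hz => hle z (hLD hz)
      _ = ((∫ z in LL O g T, ‖Y α β z‖ ^ 2 / g z ^ (2 * m)) +
            ∫ z in LL O g T, ‖Y γ δ z‖ ^ 2) / 2 := by
          rw [integral_div, integral_add (i1.mono_set hLD) (i2.mono_set hLD)]
      _ ≤ C * T := by
          have := b1 T hT
          have := b2 T hT
          linarith

theorem RR_sm {O : Set ℂ} {g θ : ℂ → ℝ} (H : Dat O g θ) : ContDiffOn ℝ ∞ (RR g θ) O := by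
  have h1 : Sm O g := H.g_sm
  have h2 : Sm O θ := H.θ_sm
  have hne : ∀ z ∈ O, θ z ≠ 0 := fun z hz => (H.θ_pos z hz).ne'
  have h3 : ContDiffOn ℝ ∞ (fun z => g z / θ z) O := ContDiffOn.div h1 h2 hne
  have a1 := h1.dv H.open_ 1
  have a2 := h1.dv H.open_ Complex.I
  have a3 := h2.dv H.open_ 1
  have a4 := h2.dv H.open_ Complex.I
  exact ContDiffOn.div (((ContDiffOn.sub a1 (h3.mul a3)).pow 2).add
    ((ContDiffOn.sub a2 (h3.mul a4)).pow 2)) h2 hne

section main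
variable {O : Set ℂ} {g θ : ℂ → ℝ} {τ δ₀ : ℝ} {Φ : ℝ → ℝ}

/-- the Laplacian of the weight, everywhere -/
theorem lap_wt_ps (hG : Dat O g θ) (hΦ : Prof τ δ₀ Φ) {h : ℝ} (hh : 0 < h) (z : ℂ) :
    ((lap (wt Φ O g θ h) z : ℝ) : ℂ) =
      ((1 / h : ℝ) : ℂ) * ps (deriv (deriv Φ)) (fun z => ((RR g θ z : ℝ) : ℂ)) O g θ h z -
        ps (deriv Φ) (fun _ => 1) O g θ h z := by
  by_cases hz : z ∈ O
  · have h1 := (hG.θ_pos z hz).ne'
    have h2 := hh.ne'
    rw [lap_wt hΦ hG hh hz]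
    simp only [ps, indicator_of_mem hz]
    unfold RR
    rw [show deriv (deriv Φ) (g z / (h * θ z)) *
      ((dx g z - g z / (h * θ z) * (h * dx θ z)) ^ 2 +
        (dy g z - g z / (h * θ z) * (h * dy θ z)) ^ 2) / (h * θ z) =
      1 / h * (deriv (deriv Φ) (g z / (h * θ z)) *
        (((dx g z - g z / θ z * dx θ z) ^ 2 + (dy g z - g z / θ z * dy θ z) ^ 2) / θ z)) by
      field_simp]
    push_cast
    ring
  · have h3 : lap (wt Φ O g θ h) z = 0 := by
      by_contra h4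
      exact hz (wt_tsupport hΦ hG hh (support_lap_subset _ (subset_tsupport _ h4))).1
    simp [ps, indicator_of_notMem hz, h3]

end main

theorem stmtEnds (hPs : StmtPs) (hPs1 : StmtPs1) (hLow : StmtLow) (hHY : StmtHY) : StmtEnds := by
  intro O g θ j Y τ δ Φ H hΦ
  have hG := H.dat
  have hD := Dat_open hG
  have hJ := isJet hD H.jet
  obtain ⟨CP, hCP, hP⟩ := pair1 hHY O g θ j Y H
  obtain ⟨C1, T, hT, hW1⟩ := hPs O g θ (deriv (deriv Φ)) (fun z => ((RR g θ z : ℝ) : ℂ)) δ hG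
    hΦ.smooth2 hΦ.δpos (fun s hs => hΦ.d2zero hs) (fun s hs => hΦ.d2zero' hs)
    (Complex.ofRealCLM.contDiff.comp_contDiffOn (RR_sm hG))
  obtain ⟨C2, _, T₁, _, _, hW2⟩ := hPs1 O g θ (deriv Φ) δ 1 hG hΦ.smooth1 hΦ.δpos
    (fun s hs => hΦ.d1zero hs) (fun s hs => hΦ.one s hs)
  obtain ⟨K1, hK1, hL1⟩ := hLow j (2 * j) C1
  obtain ⟨K2, hK2, hL2⟩ := hLow j (2 * j) C2
  have hg : ContinuousOn g (DD O g) := hG.g_sm.continuousOn.mono fun z hz => hz.1
  have hset : ∀ T, {z | z ∈ DD O g ∧ g z < T} = LL O g T := by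
    intro T
    ext z
    simp only [LL, DD, mem_ofPred_eq]
    tauto
  have hprod : ∀ T, ∀ α β γ κ m, γ + κ = 2 * j → α + β + m + 2 * j = 4 * j →
      IntegrableOn (fun z => ‖Y α β z‖ * ‖Y γ κ z‖ / g z ^ m) {z | z ∈ DD O g ∧ g z < T} ∧
      ∫ z in {z | z ∈ DD O g ∧ g z < T}, ‖Y α β z‖ * ‖Y γ κ z‖ / g z ^ m ≤ CP * max T 0 := by
    intro T α β γ κ m h1 h2
    obtain ⟨i1, b1⟩ := hP α β γ κ m h1 (by omega)
    rw [hset]
    exact ⟨i1.mono_set fun z hz => ⟨hz.1, hz.2.1⟩, b1 T⟩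
  -- the products `Y a b * conj (Y (2j - b) (2j - a))`
  have key : ∀ h, 0 < h → h ≤ 1 → ∀ a b, a ≤ 2 * j → b ≤ 2 * j →
      ‖∫ z, ((lap (wt Φ O g θ h) z : ℝ) : ℂ) *
        (Y a b z * conj (Y (2 * j - b) (2 * j - a) z))‖ ≤ K1 * (CP * T) + K2 * (CP * max T₁ 0) := by
    intro h hh hh1 a b ha hb
    have w1 := hW1 h hh hh1
    have w2 := (hW2 h hh hh1).1
    have hc : ContinuousOn (fun z => Y a b z * conj (Y (2 * j - b) (2 * j - a) z)) (DD O g) :=
      (hJ.sm hD a b).continuousOn.mul (hJ.sm hD _ _).conj.continuousOn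
    have i1 := integrable_mul_of hD hc w1.sm.continuous w1.cpt (w1.sub.trans fun z hz => hz.1)
    have i2 := integrable_mul_of hD hc w2.sm.continuous w2.cpt (w2.sub.trans fun z hz => hz.1)
    have e1 : ∫ z, ((lap (wt Φ O g θ h) z : ℝ) : ℂ) *
        (Y a b z * conj (Y (2 * j - b) (2 * j - a) z)) =
        ((1 / h : ℝ) : ℂ) * (∫ z, ps (deriv (deriv Φ)) (fun z => ((RR g θ z : ℝ) : ℂ)) O g θ h z *
          (Y a b z * conj (Y (2 * j - b) (2 * j - a) z))) -
        ∫ z, ps (deriv Φ) (fun _ => 1) O g θ h z *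
          (Y a b z * conj (Y (2 * j - b) (2 * j - a) z)) := by
      rw [← integral_const_mul, ← integral_sub]
      · refine integral_congr_ae (ae_of_all _ fun z => ?_)
        simp only
        rw [lap_wt_ps hG hΦ hh]
        ring
      · refine Integrable.const_mul ?_ _
        exact i1.congr (ae_of_all _ fun z => by simp only; ring)
      · exact i2.congr (ae_of_all _ fun z => by simp only; ring)
    have b1 : ‖∫ z, ps (deriv (deriv Φ)) (fun z => ((RR g θ z : ℝ) : ℂ)) O g θ h z *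
        (Y a b z * conj (Y (2 * j - b) (2 * j - a) z))‖ ≤ K1 * (CP * max (T * h) 0) := by
      rcases le_total (a + b) (2 * j) with hab | hab
      · exact (hL1 (DD O g) g Y (T * h) (CP * max (T * h) 0) hD (fun z hz => hz.2) hg hJ
          (hprod (T * h)) 0 _ w1 a b (2 * j - b) (2 * j - a) (by omega) (by omega)).1
      · exact (hL1 (DD O g) g Y (T * h) (CP * max (T * h) 0) hD (fun z hz => hz.2) hg hJ
          (hprod (T * h)) 0 _ w1 (2 * j - b) (2 * j - a) a b (by omega) (by omega)).2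
    have b2 : ‖∫ z, ps (deriv Φ) (fun _ => 1) O g θ h z *
        (Y a b z * conj (Y (2 * j - b) (2 * j - a) z))‖ ≤ K2 * (CP * max T₁ 0) := by
      rcases le_total (a + b) (2 * j) with hab | hab
      · exact (hL2 (DD O g) g Y T₁ (CP * max T₁ 0) hD (fun z hz => hz.2) hg hJ
          (hprod T₁) 0 _ w2 a b (2 * j - b) (2 * j - a) (by omega) (by omega)).1
      · exact (hL2 (DD O g) g Y T₁ (CP * max T₁ 0) hD (fun z hz => hz.2) hg hJ
          (hprod T₁) 0 _ w2 (2 * j - b) (2 * j - a) a b (by omega) (by omega)).2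
    rw [e1]
    refine (norm_sub_le _ _).trans (add_le_add ?_ b2)
    rw [norm_mul, Complex.norm_real, Real.norm_of_nonneg (by positivity)]
    calc 1 / h * ‖∫ z, ps (deriv (deriv Φ)) (fun z => ((RR g θ z : ℝ) : ℂ)) O g θ h z *
        (Y a b z * conj (Y (2 * j - b) (2 * j - a) z))‖ ≤ 1 / h * (K1 * (CP * max (T * h) 0)) :=
          mul_le_mul_of_nonneg_left b1 (by positivity)
      _ = K1 * (CP * T) := by
          rw [max_eq_left (by positivity)]
          field_simp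
  set M : ℝ := K1 * (CP * T) + K2 * (CP * max T₁ 0) with hM
  have hM0 : 0 ≤ M := by positivity
  refine ⟨((2 * (j : ℝ) + 1) ^ 2 * M) / 4, by positivity, fun h hh hh1 => ?_⟩
  have hF := sm_FF hJ hD (2 * j)
  have hFR := sm_FR hJ hD (2 * j)
  have hgr := green hD hFR (wt_smooth hΦ hG hh) (wt_cpt hΦ hG hh) (wt_tsupport hΦ hG hh)
  -- the left side
  have hl : 4 * ∫ z in DD O g, wt Φ O g θ h z * (‖Y (2 * j + 1) 0 z‖ ^ 2 +
      ‖Y 0 (2 * j + 1) z‖ ^ 2) = ∫ z, lap (FR (2 * j) Y) z * wt Φ O g θ h z := by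
    have h0 : ∫ z in DD O g, lap (FR (2 * j) Y) z * wt Φ O g θ h z =
        ∫ z, lap (FR (2 * j) Y) z * wt Φ O g θ h z := by
      refine setIntegral_eq_integral_of_forall_compl_eq_zero fun z hz => ?_
      have : wt Φ O g θ h z = 0 := by
        by_contra h4
        exact hz (wt_tsupport hΦ hG hh (subset_tsupport _ h4))
      rw [this, mul_zero]
    rw [← h0, ← integral_const_mul]
    refine setIntegral_congr_fun hD.measurableSet fun z hz => ?_
    rw [lap_FR' hJ hD (even_two_mul j) H.jet.pol hz]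
    ring
  -- the right side
  have hr : ((∫ z, FR (2 * j) Y z * lap (wt Φ O g θ h) z : ℝ) : ℂ) =
      ∑ a ∈ Finset.range (2 * j + 1), ∑ b ∈ Finset.range (2 * j + 1), (-1) ^ (a + b) *
        ∫ z, ((lap (wt Φ O g θ h) z : ℝ) : ℂ) *
          (Y a b z * conj (Y (2 * j - b) (2 * j - a) z)) := by
    rw [← integral_complex_ofReal]
    have e2 : ∀ z, ((FR (2 * j) Y z * lap (wt Φ O g θ h) z : ℝ) : ℂ) =
        ∑ a ∈ Finset.range (2 * j + 1), ∑ b ∈ Finset.range (2 * j + 1), (-1) ^ (a + b) *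
          (((lap (wt Φ O g θ h) z : ℝ) : ℂ) *
            (Y a b z * conj (Y (2 * j - b) (2 * j - a) z))) := by
      intro z
      rw [Complex.ofReal_mul, ofReal_FR]
      unfold FF
      rw [Finset.sum_mul]
      refine Finset.sum_congr rfl fun a _ => ?_
      rw [Finset.sum_mul]
      refine Finset.sum_congr rfl fun b _ => ?_
      ring
    have hv : ContDiff ℝ ∞ (fun z => ((wt Φ O g θ h z : ℝ) : ℂ)) :=
      Complex.ofRealCLM.contDiff.comp (wt_smooth hΦ hG hh)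
    have hlc : Continuous (fun z => ((lap (wt Φ O g θ h) z : ℝ) : ℂ)) := by
      have h1 : Sm univ (wt Φ O g θ h) := sm_univ.2 (wt_smooth hΦ hG hh)
      have h2 : Continuous (lap (wt Φ O g θ h)) :=
        continuousOn_univ.1 (h1.lap isOpen_univ).continuousOn
      exact Complex.continuous_ofReal.comp h2
    have hls : tsupport (fun z => ((lap (wt Φ O g θ h) z : ℝ) : ℂ)) ⊆ DD O g := by
      refine (closure_mono ?_).trans ((support_lap_subset _).trans (wt_tsupport hΦ hG hh))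
      intro z hz h0
      apply hz
      simp only
      rw [h0, Complex.ofReal_zero]
    have hlk : HasCompactSupport (fun z => ((lap (wt Φ O g θ h) z : ℝ) : ℂ)) :=
      (HasCompactSupport.lap (wt_cpt hΦ hG hh)).comp_left (g := fun x : ℝ => (x : ℂ)) (by simp)
    have hi : ∀ a b : ℕ, Integrable (fun z => ((lap (wt Φ O g θ h) z : ℝ) : ℂ) *
        (Y a b z * conj (Y (2 * j - b) (2 * j - a) z))) volume := by
      intro a b
      have hc : ContinuousOn (fun z => Y a b z * conj (Y (2 * j - b) (2 * j - a) z)) (DD O g) :=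
        (hJ.sm hD a b).continuousOn.mul (hJ.sm hD _ _).conj.continuousOn
      refine (integrable_mul_of hD hc hlc hlk hls).congr (ae_of_all _ fun z => ?_)
      simp only
      ring
    rw [integral_congr_ae (ae_of_all _ e2), integral_finsetSum]
    · refine Finset.sum_congr rfl fun a _ => ?_
      rw [integral_finsetSum]
      · refine Finset.sum_congr rfl fun b _ => ?_
        rw [integral_const_mul]
      · exact fun b _ => (hi a b).const_mul _
    · exact fun a _ => integrable_finsetSum _ fun b _ => (hi a b).const_mul _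
  have hb : ∫ z, FR (2 * j) Y z * lap (wt Φ O g θ h) z ≤ (2 * (j : ℝ) + 1) ^ 2 * M := by
    refine (Real.le_norm_self _).trans ?_
    rw [← Complex.norm_real, hr]
    refine (norm_sum_le _ _).trans ?_
    have h1 : ∀ a ∈ Finset.range (2 * j + 1), ‖∑ b ∈ Finset.range (2 * j + 1), (-1) ^ (a + b) *
        ∫ z, ((lap (wt Φ O g θ h) z : ℝ) : ℂ) *
          (Y a b z * conj (Y (2 * j - b) (2 * j - a) z))‖ ≤ (2 * (j : ℝ) + 1) * M := by
      intro a ha
      refine (norm_sum_le _ _).trans ?_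
      have h2 : ∀ b ∈ Finset.range (2 * j + 1), ‖(-1 : ℂ) ^ (a + b) *
          ∫ z, ((lap (wt Φ O g θ h) z : ℝ) : ℂ) *
            (Y a b z * conj (Y (2 * j - b) (2 * j - a) z))‖ ≤ M := by
        intro b hb
        rw [norm_mul, norm_pow, norm_neg, norm_one, one_pow, one_mul]
        exact key h hh hh1 a b (by have := Finset.mem_range.1 ha; omega)
          (by have := Finset.mem_range.1 hb; omega)
      refine (Finset.sum_le_sum h2).trans (le_of_eq ?_)
      rw [Finset.sum_const, Finset.card_range, nsmul_eq_mul]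
      push_cast
      ring
    refine (Finset.sum_le_sum h1).trans (le_of_eq ?_)
    rw [Finset.sum_const, Finset.card_range, nsmul_eq_mul]
    push_cast
    ring
  rw [hgr] at hb
  rw [← hl] at hb
  linarith

end Pool.Agent.Lib.QNL.EEnds
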