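import Pool.Agent.Lib.QNL.BI

/-!
# The leading part (group E): `StmtLead` from `StmtFlat` and `StmtCross`
-/

set_option autoImplicit false

namespace Pool.Agent.Lib.QNL.ELead

open MeasureTheory Filter Topology Set Finset
open scoped ENNReal ContDiff ComplexConjugate
open Pool.Agent.Lib.QNL.Calc Pool.Agent.Lib.QNL.FId Pool.Agent.Lib.QNL.ES
open Pool.Agent.Lib.QNL.WProf Pool.Agent.Lib.QNL.Wt Pool.Agent.Lib.QNL.BI

variable {O : Set ℂ} {g θ : ℂ → ℝ} {τ δ₀ : ℝ} {Φ : ℝ → ℝ} {j : ℕ} {Y : ℕ → ℕ → ℂ → ℂ}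

/-- continuous functions on the domain with vanishing layer average -/
structure Z (Φ : ℝ → ℝ) (O : Set ℂ) (g θ : ℂ → ℝ) (f : ℂ → ℝ) : Prop where
  cont : ContinuousOn f (DD O g)
  lim : Tendsto (fun h : ℝ => 1 / h * ∫ z in DD O g, deriv (deriv Φ) (g z / (h * θ z)) *
    RR g θ z * f z) (𝓝[>] 0) (𝓝 0)

theorem int_of_cont (hG : Dat O g θ) (hΦ : Prof τ δ₀ Φ) {f : ℂ → ℝ}
    (hf : ContinuousOn f (DD O g)) {h : ℝ} (hh : 0 < h) :
    IntegrableOn (fun z => deriv (deriv Φ) (g z / (h * θ z)) * RR g θ z * f z) (DD O g) := by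
  have h1 : IntegrableOn (fun z => deriv (deriv Φ) (g z / (h * θ z)) * (RR g θ z * f z))
      (DD O g) :=
    Dat_int_layer hG hh hΦ.δpos (Prof_cont2 hΦ) (fun s hs => hΦ.d2zero hs.le)
      ((Dat_RR_cont hG).mul hf)
  simpa only [mul_assoc] using h1

theorem Z.add (hG : Dat O g θ) (hΦ : Prof τ δ₀ Φ) {f₁ f₂ : ℂ → ℝ} (h₁ : Z Φ O g θ f₁)
    (h₂ : Z Φ O g θ f₂) : Z Φ O g θ (fun z => f₁ z + f₂ z) := by
  refine ⟨h₁.cont.add h₂.cont, ?_⟩
  have h3 := h₁.lim.add h₂.lim
  rw [add_zero] at h3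
  refine h3.congr' ?_
  filter_upwards [self_mem_nhdsWithin] with h hh
  rw [← mul_add, ← integral_add (int_of_cont hG hΦ h₁.cont hh) (int_of_cont hG hΦ h₂.cont hh)]
  congr 1
  refine integral_congr_ae (ae_of_all _ fun z => ?_)
  simp only
  ring

theorem Z.const_mul (c : ℝ) {f : ℂ → ℝ} (h₁ : Z Φ O g θ f) : Z Φ O g θ (fun z => c * f z) := by
  refine ⟨continuousOn_const.mul h₁.cont, ?_⟩
  have h3 := h₁.lim.const_mul c
  rw [mul_zero] at h3
  refine h3.congr fun h => ?_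
  have : ∀ z, deriv (deriv Φ) (g z / (h * θ z)) * RR g θ z * (c * f z) =
      c * (deriv (deriv Φ) (g z / (h * θ z)) * RR g θ z * f z) := fun z => by ring
  simp only [this]
  rw [integral_const_mul]
  ring

theorem Z.congr (hD : IsOpen (DD O g)) {f₁ f₂ : ℂ → ℝ} (h₁ : Z Φ O g θ f₁)
    (h : ∀ z ∈ DD O g, f₂ z = f₁ z) : Z Φ O g θ f₂ := by
  refine ⟨h₁.cont.congr h, h₁.lim.congr fun t => ?_⟩
  congr 1
  exact setIntegral_congr_fun hD.measurableSet fun z hz => by simp only [h z hz]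

theorem Z.sub (hG : Dat O g θ) (hΦ : Prof τ δ₀ Φ) {f₁ f₂ : ℂ → ℝ} (h₁ : Z Φ O g θ f₁)
    (h₂ : Z Φ O g θ f₂) : Z Φ O g θ (fun z => f₁ z - f₂ z) :=
  (h₁.add hG hΦ (h₂.const_mul (-1))).congr (Dat_open hG) fun z _ => by ring

theorem Z.zero : Z Φ O g θ (fun _ => 0) := by
  refine ⟨continuousOn_const, ?_⟩
  simp

theorem Z.sum (hG : Dat O g θ) (hΦ : Prof τ δ₀ Φ) {ι : Type*} (s : Finset ι) {f : ι → ℂ → ℝ}
    (h : ∀ i ∈ s, Z Φ O g θ (f i)) : Z Φ O g θ (fun z => ∑ i ∈ s, f i z) := by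
  classical
  induction s using Finset.induction_on with
  | empty => simpa using Z.zero
  | insert i s hi ih =>
    have h1 := (h i (Finset.mem_insert_self i s)).add hG hΦ
      (ih fun k hk => h k (Finset.mem_insert_of_mem hk))
    simpa only [Finset.sum_insert hi] using h1

/-- the real part of the layer average of a complex function -/
theorem re_layer (hG : Dat O g θ) (hΦ : Prof τ δ₀ Φ) {F : ℂ → ℂ}
    (hF : ContinuousOn F (DD O g)) {h : ℝ} (hh : 0 < h) :
    (((1 / h : ℝ) : ℂ) * ∫ z, ps (deriv (deriv Φ)) (fun z => ((RR g θ z : ℝ) : ℂ)) O g θ h z *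
      F z).re = 1 / h * ∫ z in DD O g, deriv (deriv Φ) (g z / (h * θ z)) * RR g θ z *
      (F z).re := by
  have hD := Dat_open hG
  have e1 : ∫ z, ps (deriv (deriv Φ)) (fun z => ((RR g θ z : ℝ) : ℂ)) O g θ h z * F z =
      ∫ z in DD O g, ((deriv (deriv Φ) (g z / (h * θ z)) * RR g θ z : ℝ) : ℂ) * F z := by
    rw [← setIntegral_eq_integral_of_forall_compl_eq_zero (s := DD O g)]
    · refine setIntegral_congr_fun hD.measurableSet fun z hz => ?_
      simp only [ps, indicator_of_mem hz.1]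
      push_cast
      rfl
    · intro z hz
      by_cases hzO : z ∈ O
      · have h1 : g z ≤ 0 := by
          by_contra h2
          exact hz ⟨hzO, not_le.1 h2⟩
        have h3 : g z / (h * θ z) ≤ δ₀ :=
          (div_nonpos_of_nonpos_of_nonneg h1 (mul_pos hh (hG.θ_pos z hzO)).le).trans hΦ.δpos.le
        simp only [ps, indicator_of_mem hzO, hΦ.d2zero h3]
        simp
      · simp [ps, hzO]
  rw [e1, Complex.re_ofReal_mul]
  congr 1
  have e2 : ∀ z, (((deriv (deriv Φ) (g z / (h * θ z)) * RR g θ z : ℝ) : ℂ) * F z).re =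
      deriv (deriv Φ) (g z / (h * θ z)) * RR g θ z * (F z).re := fun z =>
    Complex.re_ofReal_mul _ _
  have i1 : IntegrableOn (fun z => ((deriv (deriv Φ) (g z / (h * θ z)) * RR g θ z : ℝ) : ℂ) *
      F z) (DD O g) := by
    have j1 := (int_of_cont hG hΦ (Complex.continuous_re.comp_continuousOn hF) hh).ofReal (𝕜 := ℂ)
    have j2 := (int_of_cont hG hΦ (Complex.continuous_im.comp_continuousOn hF) hh).ofReal (𝕜 := ℂ)
    have j3 := j1.add (j2.mul_const Complex.I)
    refine j3.congr (ae_of_all _ fun z => ?_)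
    simp only [Pi.add_apply, Function.comp_apply]
    apply Complex.ext <;> simp
  have e3 := integral_re (𝕜 := ℂ) i1
  simp only [RCLike.re_eq_complex_re] at e3
  rw [← e3]
  exact integral_congr_ae (ae_of_all _ fun z => e2 z)

/-- cross terms -/
theorem Z_cross (hC : StmtCross) (hH : Hy O g θ j Y) (hΦ : Prof τ δ₀ Φ) {α β γ κ : ℕ}
    (h1 : α + β + (γ + κ) = 4 * j) (h2 : 2 * j ≠ γ + κ) :
    Z Φ O g θ (fun z => (Y α β z * conj (Y γ κ z)).re) := by
  have hc : ∀ α β γ κ : ℕ, ContinuousOn (fun z => Y α β z * conj (Y γ κ z)) (DD O g) :=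
    fun α β γ κ => (hH.jet.smooth α β).continuousOn.mul
      (Complex.continuous_conj.comp_continuousOn (hH.jet.smooth γ κ).continuousOn)
  have key : ∀ α β γ κ : ℕ, α + β + (γ + κ) = 4 * j → 2 * j < γ + κ →
      Z Φ O g θ (fun z => (Y α β z * conj (Y γ κ z)).re) := by
    intro α β γ κ h3 h4
    refine ⟨Complex.continuous_re.comp_continuousOn (hc α β γ κ), ?_⟩
    have h5 := hC O g θ j Y τ δ₀ Φ hH hΦ α β γ κ h3 h4
    have h6 := (Complex.continuous_re.tendsto 0).comp h5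
    rw [Complex.zero_re] at h6
    refine h6.congr' ?_
    filter_upwards [self_mem_nhdsWithin] with h hh
    exact re_layer hH.dat hΦ (hc α β γ κ) hh
  rcases lt_or_gt_of_ne h2 with h3 | h3
  · exact key α β γ κ h1 h3
  · refine (key γ κ α β (by omega) (by omega)).congr (Dat_open hH.dat) fun z _ => ?_
    simp only [Complex.mul_re, Complex.conj_re, Complex.conj_im]
    ring

/-- flatness, iterated -/
theorem Z_flat (hF : StmtFlat) (hH : Hy O g θ j Y) (hΦ : Prof τ δ₀ Φ) :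
    ∀ a, a ≤ 2 * j → Z Φ O g θ (fun z => ‖Y a (2 * j - a) z‖ ^ 2 - ‖Y 0 (2 * j) z‖ ^ 2) := by
  have hc : ∀ α β : ℕ, ContinuousOn (fun z => ‖Y α β z‖ ^ 2) (DD O g) :=
    fun α β => ((hH.jet.smooth α β).continuousOn.norm).pow 2
  intro a
  induction a with
  | zero =>
    intro _
    exact Z.zero.congr (Dat_open hH.dat) fun z _ => by simp
  | succ a ih =>
    intro ha
    have h1 : Z Φ O g θ (fun z => ‖Y (a + 1) (2 * j - (a + 1)) z‖ ^ 2 -
        ‖Y a (2 * j - (a + 1) + 1) z‖ ^ 2) :=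
      ⟨(hc _ _).sub (hc _ _), hF O g θ j Y τ δ₀ Φ hH hΦ a (2 * j - (a + 1)) (by omega)⟩
    rw [show 2 * j - (a + 1) + 1 = 2 * j - a by omega] at h1
    exact (h1.add hH.dat hΦ (ih (by omega))).congr (Dat_open hH.dat) fun z _ => by ring

/-- **(9)** the leading part -/
theorem stmtLead (hF : StmtFlat) (hC : StmtCross) : StmtLead := by
  intro O g θ j Y τ δ₀ Φ hH hΦ
  have hD := Dat_open hH.dat
  have hN : Even (2 * j) := even_two_mul j
  -- the part with the orders `s`, `4 j - s`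
  have h1 : Z Φ O g θ (fun z => ∑ s ∈ (range (2 * (2 * j) + 1)).erase (2 * j),
      (Fs (2 * j) s Y z).re) := by
    refine Z.sum hH.dat hΦ _ fun s hs => ?_
    have hs1 := Finset.ne_of_mem_erase hs
    have h2 : Z Φ O g θ (fun z => ∑ p ∈ pr (2 * j) s, (-1) ^ s *
        (Y p.1 p.2 z * conj (Y (2 * j - p.2) (2 * j - p.1) z)).re) := by
      refine Z.sum hH.dat hΦ _ fun p hp => ?_
      have hp1 := mem_pr.1 hp
      exact (Z_cross hC hH hΦ (by omega) (by omega)).const_mul _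
    refine h2.congr hD fun z _ => ?_
    simp only [Fs, Complex.re_sum]
    refine Finset.sum_congr rfl fun p _ => ?_
    rw [show ((-1 : ℂ) ^ s) = (((-1 : ℝ) ^ s : ℝ) : ℂ) by push_cast; rfl, Complex.re_ofReal_mul]
  -- the part with the orders `2 j`
  have h2 : Z Φ O g θ (fun z => nj (2 * j) Y z - (2 * (j : ℝ) + 1) * ‖Y j j z‖ ^ 2) := by
    have h3 := (Z.sum hH.dat hΦ (range (2 * j + 1)) (fun a ha => Z_flat hF hH hΦ a
      (by rw [Finset.mem_range] at ha; omega))).sub hH.dat hΦ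
      ((Z_flat hF hH hΦ j (by omega)).const_mul (2 * (j : ℝ) + 1))
    refine h3.congr hD fun z _ => ?_
    rw [Finset.sum_sub_distrib, Finset.sum_const, Finset.card_range, nsmul_eq_mul,
      show 2 * j - j = j by omega]
    unfold nj
    push_cast
    ring
  have h4 := (h1.add hH.dat hΦ h2).congr (f₂ := fun z => FR (2 * j) Y z -
    (2 * (j : ℝ) + 1) * ‖Y j j z‖ ^ 2) hD fun z _ => by
      have h5 : FR (2 * j) Y z = nj (2 * j) Y z + ∑ s ∈ (range (2 * (2 * j) + 1)).erase (2 * j),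
          (Fs (2 * j) s Y z).re := by
        unfold FR
        rw [FF_eq_sum, ← Finset.add_sum_erase _ _ (Finset.mem_range.2
          (by omega : 2 * j < 2 * (2 * j) + 1)), Fs_self hN, Complex.add_re, Complex.re_sum,
          Complex.ofReal_re]
      rw [h5]
      ring
  exact h4.lim

end Pool.Agent.Lib.QNL.ELead
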