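import Pool.Agent.Lib.QNL.HW5

/-!
Flatness near the boundary of `D = {g > 0}`: `|∂f|² - |∂̄f|²` is `o(1)` in the mean on the layers
`{g < c h}`, for functions `f` which vanish at `∂D` in the sense of Hardy's inequality, and the
low × high cross terms.
-/

set_option autoImplicit false

namespace Pool.Agent.Lib.QNL.Flat5

open MeasureTheory Filter Topology Set Complex
open scoped ComplexConjugate
open Pool.Agent.Lib.QNL.HW5

/-! ### The identity -/

/-- `∫ φ |Wf|² = ∫ φ (W W f) f̄` for the divergence free field `W = ∂̄g ∂ - ∂g ∂̄` and a cutoff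
`φ` which is a function of `g`. -/
theorem flat_id {D K : Set ℂ} (hD : IsOpen D) (hK : IsCompact K) (hKD : K ⊆ D)
    {φ c G G11 G12 f f1 f2 f11 f12 f22 : ℂ → ℂ}
    (hφ : ∀ z ∈ D, HW φ (c z * G z) (c z * conj (G z)) z)
    (hφ0 : ∀ z, z ∉ K → φ z = 0) (hc : ContinuousOn c D)
    (hG : ∀ z ∈ D, HW G (G11 z) (G12 z) z) (hG12 : ∀ z ∈ D, conj (G12 z) = G12 z)
    (cG11 : ContinuousOn G11 D) (cG12 : ContinuousOn G12 D)
    (hf : ∀ z ∈ D, HW f (f1 z) (f2 z) z) (hf1 : ∀ z ∈ D, HW f1 (f11 z) (f12 z) z)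
    (hf2 : ∀ z ∈ D, HW f2 (f12 z) (f22 z) z) (c11 : ContinuousOn f11 D)
    (c12 : ContinuousOn f12 D) (c22 : ContinuousOn f22 D) :
    ∫ z in D, (φ z * ((conj (G z) * f1 z - G z * f2 z) *
        conj (conj (G z) * f1 z - G z * f2 z))) =
      ∫ z in D, (φ z * ((conj (G z) * (G12 z * f1 z + conj (G z) * f11 z - G11 z * f2 z -
          G z * f12 z) -
        G z * (conj (G11 z) * f1 z + conj (G z) * f12 z - G12 z * f2 z - G z * f22 z)) *
          conj (f z))) := by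
  have cf : ContinuousOn f D := fun z hz => (hf z hz).continuousAt.continuousWithinAt
  have cf1 : ContinuousOn f1 D := fun z hz => (hf1 z hz).continuousAt.continuousWithinAt
  have cf2 : ContinuousOn f2 D := fun z hz => (hf2 z hz).continuousAt.continuousWithinAt
  have cG : ContinuousOn G D := fun z hz => (hG z hz).continuousAt.continuousWithinAt
  have cφ : ContinuousOn φ D := fun z hz => (hφ z hz).continuousAt.continuousWithinAt
  have cj : ∀ u : ℂ → ℂ, ContinuousOn u D → ContinuousOn (fun z => conj (u z)) D :=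
    fun u hu => Complex.continuous_conj.comp_continuousOn hu
  have hGc : ∀ z ∈ D, HW (fun w => conj (G w)) (G12 z) (conj (G11 z)) z := by
    intro z hz
    refine (hG z hz).conj.congr (hG12 z hz) rfl
  have hfc : ∀ z ∈ D, HW (fun w => conj (f w)) (conj (f2 z)) (conj (f1 z)) z :=
    fun z hz => (hf z hz).conj
  -- the function `Wf`
  have hW : ∀ z ∈ D, HW (fun w => conj (G w) * f1 w - G w * f2 w)
      (G12 z * f1 z + conj (G z) * f11 z - (G11 z * f2 z + G z * f12 z))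
      (conj (G11 z) * f1 z + conj (G z) * f12 z - (G12 z * f2 z + G z * f22 z)) z := by
    intro z hz
    exact ((hGc z hz).mul (hf1 z hz)).sub ((hG z hz).mul (hf2 z hz))
  -- the two fields
  have hQ1 := fun z (hz : z ∈ D) =>
    (hGc z hz).mul (((hφ z hz).mul (hW z hz)).mul (hfc z hz))
  have hQ2 := fun z (hz : z ∈ D) =>
    (hG z hz).mul (((hφ z hz).mul (hW z hz)).mul (hfc z hz))
  have cGc := cj G cG
  have cfc := cj f cf
  have cf1c := cj f1 cf1
  have cf2c := cj f2 cf2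
  have cG11c := cj G11 cG11
  have e1 := (int_zero_on hD hK hKD (fun z hz => hQ1 z hz)
    (by intro z hz; simp [hφ0 z hz]) (by fun_prop) (by fun_prop)).1
  have e2 := (int_zero_on hD hK hKD (fun z hz => hQ2 z hz)
    (by intro z hz; simp [hφ0 z hz]) (by fun_prop) (by fun_prop)).2
  have i : ∀ u : ℂ → ℂ, ContinuousOn u D → IntegrableOn (fun z => φ z * u z) D := by
    intro u hu
    have h1 : ContinuousOn (fun z => φ z * u z) K := (cφ.mul hu).mono hKD
    have h2 : IntegrableOn (fun z => φ z * u z) K := h1.integrableOn_compact hK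
    have h3 : Integrable (fun z => φ z * u z) := by
      rw [← integrableOn_iff_integrable_of_support_subset]
      · exact h2
      · intro z hz
        by_contra h
        exact hz (by simp [hφ0 z h])
    exact h3.integrableOn
  have e3 := sub_eq_zero.2 (e1.2.trans e2.2.symm)
  rw [← integral_sub e1.1 e2.1] at e3
  rw [← sub_eq_zero, ← integral_sub (i _ (by fun_prop)) (i _ (by fun_prop)), ← neg_eq_zero,
    ← integral_neg, ← e3]
  refine setIntegral_congr_fun hD.measurableSet fun z hz => ?_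
  simp only [map_sub, map_mul, Complex.conj_conj]
  ring

/-! ### Measure theory on the layers -/

/-- the layer `{z ∈ D | g z < t}` -/
def Lay (D : Set ℂ) (g : ℂ → ℝ) (t : ℝ) : Set ℂ := {z | z ∈ D ∧ g z < t}

theorem lay_sub (D : Set ℂ) (g : ℂ → ℝ) (t : ℝ) : Lay D g t ⊆ D := fun _ h => h.1

theorem isOpen_lay {D : Set ℂ} (hD : IsOpen D) {g : ℂ → ℝ} (cg : ContinuousOn g D) (t : ℝ) :
    IsOpen (Lay D g t) :=
  cg.isOpen_inter_preimage hD isOpen_Iio

/-- the integral of an integrable function over the layer tends to zero -/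
theorem tail {D : Set ℂ} (hD : IsOpen D) {g F : ℂ → ℝ} (cg : ContinuousOn g D)
    (hg : ∀ z ∈ D, 0 < g z) (hF : IntegrableOn F D) :
    Tendsto (fun t => ∫ z in Lay D g t, F z) (𝓝[>] 0) (𝓝 0) := by
  have h1 : ∀ t, ∫ z in Lay D g t, F z = ∫ z in D, (Lay D g t).indicator F z := by
    intro t
    rw [setIntegral_indicator (isOpen_lay hD cg t).measurableSet,
      Set.inter_eq_self_of_subset_right (lay_sub D g t)]
  simp_rw [h1]
  have h2 : Tendsto (fun t => ∫ z in D, (Lay D g t).indicator F z) (𝓝[>] 0)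
      (𝓝 (∫ z in D, (0 : ℝ))) := by
    refine tendsto_integral_filter_of_dominated_convergence (fun z => ‖F z‖) ?_ ?_ hF.norm ?_
    · exact Eventually.of_forall fun t =>
        hF.aestronglyMeasurable.indicator (isOpen_lay hD cg t).measurableSet
    · exact Eventually.of_forall fun t => Eventually.of_forall fun z =>
        norm_indicator_le_norm_self F z
    · refine (ae_restrict_iff' hD.measurableSet).2 (Eventually.of_forall fun z hz => ?_)
      refine tendsto_const_nhds.congr' ?_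
      have : Iio (g z) ∈ 𝓝 (0 : ℝ) := Iio_mem_nhds (hg z hz)
      filter_upwards [nhdsWithin_le_nhds this] with t ht
      rw [Set.indicator_of_notMem]
      exact fun h => absurd h.2 (not_lt.2 (le_of_lt ht))
  simpa using h2

/-- a product bound on layers: `(1/h) ∫_{g < c h} |u| |v| → 0` -/
theorem cross {D : Set ℂ} (hD : IsOpen D) {g : ℂ → ℝ} (cg : ContinuousOn g D)
    (hg : ∀ z ∈ D, 0 < g z) {u v : ℂ → ℝ} {i : ℕ} (hi : 1 ≤ i)
    (hu : IntegrableOn (fun z => u z ^ 2 / g z ^ (2 * i)) D) {C t₀ : ℝ} (ht₀ : 0 < t₀)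
    (huC : ∀ t, 0 < t → t < t₀ → ∫ z in Lay D g t, u z ^ 2 / g z ^ (2 * i) ≤ C * t)
    (hv : IntegrableOn (fun z => g z ^ (2 * i - 1) * v z ^ 2) D) {c : ℝ} (hc : 0 < c) :
    Tendsto (fun h => 1 / h * ∫ z in Lay D g (c * h), |u z| * |v z|) (𝓝[>] 0) (𝓝 0) := by
  have hτ : Tendsto (fun h => ∫ z in Lay D g (c * h), g z ^ (2 * i - 1) * v z ^ 2) (𝓝[>] 0)
      (𝓝 0) := by
    refine (tail hD cg hg hv).comp ?_
    rw [tendsto_nhdsWithin_iff]
    constructor
    · have : Tendsto (fun h : ℝ => c * h) (𝓝 0) (𝓝 (c * 0)) := (continuous_const_mul c).tendsto 0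
      rw [mul_zero] at this
      exact this.mono_left nhdsWithin_le_nhds
    · filter_upwards [self_mem_nhdsWithin] with h hh
      exact mul_pos hc hh
  rw [Metric.tendsto_nhds]
  intro ε hε
  -- choose the parameter of the arithmetic - geometric mean inequality
  obtain ⟨lam, hlam, hlamε⟩ : ∃ lam : ℝ, 0 < lam ∧ lam * c * (|C| * c) ≤ ε := by
    refine ⟨ε / (c * (|C| * c) + 1), by positivity, ?_⟩
    have h0 : 0 ≤ c * (|C| * c) := by positivity
    rw [mul_assoc, div_mul_eq_mul_div, div_le_iff₀ (by positivity)]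
    nlinarith
  have hev := (Metric.tendsto_nhds.1 hτ) (lam * ε) (by positivity)
  have hsm : ∀ᶠ h : ℝ in 𝓝[>] 0, c * h < t₀ := by
    have : Iio (t₀ / c) ∈ 𝓝 (0 : ℝ) := Iio_mem_nhds (by positivity)
    filter_upwards [nhdsWithin_le_nhds this] with h hh
    rw [mem_Iio, lt_div_iff₀ hc] at hh
    linarith
  filter_upwards [hev, hsm, self_mem_nhdsWithin] with h h1 h2 h3
  have hh : 0 < h := h3
  have hLm := (isOpen_lay hD cg (c * h)).measurableSet
  have iu := hu.mono_set (lay_sub D g (c * h))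
  have iv := hv.mono_set (lay_sub D g (c * h))
  have hpt : ∀ z ∈ Lay D g (c * h), |u z| * |v z| ≤
      lam * c / 2 * (u z ^ 2 / g z ^ (2 * i)) + h / (2 * lam) * (g z ^ (2 * i - 1) * v z ^ 2) := by
    intro z hz
    have hgz := hg z hz.1
    have hgc : g z ≤ c * h := le_of_lt hz.2
    obtain ⟨m, hm⟩ : ∃ m, 2 * i = m + 1 := ⟨2 * i - 1, by omega⟩
    have e1 : 2 * i - 1 = m := by omega
    rw [e1, hm]
    have hgm : 0 < g z ^ m := pow_pos hgz m
    -- first replace `c` by `g / h`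
    have k1 : lam / (2 * h) * (u z ^ 2 / g z ^ m) ≤
        lam * c / 2 * (u z ^ 2 / g z ^ (m + 1)) := by
      have : lam * c / 2 * (u z ^ 2 / g z ^ (m + 1)) - lam / (2 * h) * (u z ^ 2 / g z ^ m) =
          lam / (2 * h) * (u z ^ 2 / g z ^ (m + 1)) * (c * h - g z) := by
        field_simp
        ring
      have h5 : 0 ≤ lam / (2 * h) * (u z ^ 2 / g z ^ (m + 1)) * (c * h - g z) :=
        mul_nonneg (by positivity) (by linarith)
      linarith
    refine le_trans ?_ (add_le_add_left k1 _)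
    have k2 : |u z| * |v z| ≤ lam / (2 * h) * (|u z| ^ 2 / g z ^ m) +
        h / (2 * lam) * (g z ^ m * |v z| ^ 2) := by
      have h6 : 0 ≤ (lam * |u z| - h * g z ^ m * |v z|) ^ 2 / (2 * lam * h * g z ^ m) := by
        positivity
      have h7 : (lam * |u z| - h * g z ^ m * |v z|) ^ 2 / (2 * lam * h * g z ^ m) =
          lam / (2 * h) * (|u z| ^ 2 / g z ^ m) + h / (2 * lam) * (g z ^ m * |v z| ^ 2)
            - |u z| * |v z| := by
        field_simp
        ring
      linarith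
    simpa using k2
  have i1 : IntegrableOn (fun z => lam * c / 2 * (u z ^ 2 / g z ^ (2 * i)) +
      h / (2 * lam) * (g z ^ (2 * i - 1) * v z ^ 2)) (Lay D g (c * h)) :=
    (iu.const_mul _).add (iv.const_mul _)
  have hle : ∫ z in Lay D g (c * h), |u z| * |v z| ≤
      lam * c / 2 * (C * (c * h)) +
        h / (2 * lam) * ∫ z in Lay D g (c * h), g z ^ (2 * i - 1) * v z ^ 2 := by
    calc ∫ z in Lay D g (c * h), |u z| * |v z| ≤ ∫ z in Lay D g (c * h),
          (lam * c / 2 * (u z ^ 2 / g z ^ (2 * i)) +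
            h / (2 * lam) * (g z ^ (2 * i - 1) * v z ^ 2)) := by
          refine integral_mono_of_nonneg (Eventually.of_forall fun z => by positivity) i1 ?_
          exact (ae_restrict_iff' hLm).2 (Eventually.of_forall hpt)
      _ = lam * c / 2 * (∫ z in Lay D g (c * h), u z ^ 2 / g z ^ (2 * i)) +
            h / (2 * lam) * ∫ z in Lay D g (c * h), g z ^ (2 * i - 1) * v z ^ 2 := by
          rw [integral_add (iu.const_mul _) (iv.const_mul _), integral_const_mul,
            integral_const_mul]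
      _ ≤ _ := by
          have := huC (c * h) (by positivity) h2
          gcongr
  have h0 : 0 ≤ ∫ z in Lay D g (c * h), |u z| * |v z| :=
    integral_nonneg fun z => by positivity
  have hτ1 : ∫ z in Lay D g (c * h), g z ^ (2 * i - 1) * v z ^ 2 < lam * ε := by
    have := h1
    rw [Real.dist_eq, sub_zero] at this
    exact (abs_lt.1 this).2
  rw [Real.dist_eq, sub_zero, abs_of_nonneg (by positivity)]
  have hC : C ≤ |C| := le_abs_self C
  calc 1 / h * ∫ z in Lay D g (c * h), |u z| * |v z| ≤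
      1 / h * (lam * c / 2 * (|C| * (c * h)) + h / (2 * lam) *
        ∫ z in Lay D g (c * h), g z ^ (2 * i - 1) * v z ^ 2) := by
        refine mul_le_mul_of_nonneg_left (hle.trans ?_) (by positivity)
        gcongr
    _ < 1 / h * (lam * c / 2 * (|C| * (c * h)) + h / (2 * lam) * (lam * ε)) := by
        gcongr
    _ = (lam * c * (|C| * c)) / 2 + ε / 2 := by
        field_simp
    _ ≤ ε := by linarith

/-- second product bound: `(1/h) ∫_{g < c h} |u| |v| → 0` if `∫_{g<t} u²/g² ≤ C t` and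
`∫_{g<t} v² ≤ C t` -/
theorem cross0 {D : Set ℂ} (hD : IsOpen D) {g : ℂ → ℝ} (cg : ContinuousOn g D)
    (hg : ∀ z ∈ D, 0 < g z) {u v : ℂ → ℝ}
    (hu : IntegrableOn (fun z => u z ^ 2 / g z ^ 2) D) {C C' t₀ : ℝ} (ht₀ : 0 < t₀)
    (huC : ∀ t, 0 < t → t < t₀ → ∫ z in Lay D g t, u z ^ 2 / g z ^ 2 ≤ C * t)
    (hv : IntegrableOn (fun z => v z ^ 2) D)
    (hvC : ∀ t, 0 < t → t < t₀ → ∫ z in Lay D g t, v z ^ 2 ≤ C' * t) {c : ℝ} (hc : 0 < c) :
    Tendsto (fun h => 1 / h * ∫ z in Lay D g (c * h), |u z| * |v z|) (𝓝[>] 0) (𝓝 0) := by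
  have hlim : Tendsto (fun h : ℝ => c * h * (c * ((C + C') / 2))) (𝓝[>] 0) (𝓝 0) := by
    have : Tendsto (fun h : ℝ => c * h * (c * ((C + C') / 2))) (𝓝 0)
        (𝓝 (c * 0 * (c * ((C + C') / 2)))) := by
      apply Continuous.tendsto
      fun_prop
    rw [mul_zero, zero_mul] at this
    exact this.mono_left nhdsWithin_le_nhds
  refine squeeze_zero' ?_ ?_ hlim
  · filter_upwards [self_mem_nhdsWithin] with h hh
    have : (0 : ℝ) < h := hh
    exact mul_nonneg (by positivity) (integral_nonneg fun z => by positivity)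
  · have hsm : ∀ᶠ h : ℝ in 𝓝[>] 0, c * h < t₀ := by
      have : Iio (t₀ / c) ∈ 𝓝 (0 : ℝ) := Iio_mem_nhds (by positivity)
      filter_upwards [nhdsWithin_le_nhds this] with h hh
      rw [mem_Iio, lt_div_iff₀ hc] at hh
      linarith
    filter_upwards [hsm, self_mem_nhdsWithin] with h h2 h3
    have hh : 0 < h := h3
    have hLm := (isOpen_lay hD cg (c * h)).measurableSet
    have iu := hu.mono_set (lay_sub D g (c * h))
    have iv := hv.mono_set (lay_sub D g (c * h))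
    have hpt : ∀ z ∈ Lay D g (c * h), |u z| * |v z| ≤
        c * h / 2 * (u z ^ 2 / g z ^ 2) + c * h / 2 * v z ^ 2 := by
      intro z hz
      have hgz := hg z hz.1
      have hgc : g z ≤ c * h := le_of_lt hz.2
      have k1 : |u z| * |v z| ≤ g z * (1 / 2 * (|u z| ^ 2 / g z ^ 2) + 1 / 2 * |v z| ^ 2) := by
        have h6 : 0 ≤ (|u z| - g z * |v z|) ^ 2 / (2 * g z) := by positivity
        have h7 : (|u z| - g z * |v z|) ^ 2 / (2 * g z) =
            g z * (1 / 2 * (|u z| ^ 2 / g z ^ 2) + 1 / 2 * |v z| ^ 2) - |u z| * |v z| := by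
          field_simp
          ring
        linarith
      have k2 : g z * (1 / 2 * (|u z| ^ 2 / g z ^ 2) + 1 / 2 * |v z| ^ 2) ≤
          c * h * (1 / 2 * (|u z| ^ 2 / g z ^ 2) + 1 / 2 * |v z| ^ 2) :=
        mul_le_mul_of_nonneg_right hgc (by positivity)
      have k3 := k1.trans k2
      rw [sq_abs, sq_abs] at k3
      linarith
    have i1 : IntegrableOn (fun z => c * h / 2 * (u z ^ 2 / g z ^ 2) + c * h / 2 * v z ^ 2)
        (Lay D g (c * h)) := (iu.const_mul _).add (iv.const_mul _)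
    have hle : ∫ z in Lay D g (c * h), |u z| * |v z| ≤
        c * h / 2 * (C * (c * h)) + c * h / 2 * (C' * (c * h)) := by
      calc ∫ z in Lay D g (c * h), |u z| * |v z| ≤ ∫ z in Lay D g (c * h),
            (c * h / 2 * (u z ^ 2 / g z ^ 2) + c * h / 2 * v z ^ 2) := by
            refine integral_mono_of_nonneg (Eventually.of_forall fun z => by positivity) i1 ?_
            exact (ae_restrict_iff' hLm).2 (Eventually.of_forall hpt)
        _ = c * h / 2 * (∫ z in Lay D g (c * h), u z ^ 2 / g z ^ 2) +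
              c * h / 2 * ∫ z in Lay D g (c * h), v z ^ 2 := by
            rw [integral_add (iu.const_mul _) (iv.const_mul _), integral_const_mul,
              integral_const_mul]
        _ ≤ _ := by
            have k1 := huC (c * h) (by positivity) h2
            have k2 := hvC (c * h) (by positivity) h2
            gcongr
    calc 1 / h * ∫ z in Lay D g (c * h), |u z| * |v z| ≤
        1 / h * (c * h / 2 * (C * (c * h)) + c * h / 2 * (C' * (c * h))) :=
          mul_le_mul_of_nonneg_left hle (by positivity)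
      _ = c * h * (c * ((C + C') / 2)) := by
          field_simp

/-- products of functions with `u²/g²`, `g v²` in `L¹(D)` are integrable -/
theorem prod_int {D : Set ℂ} (hD : IsOpen D) {g : ℂ → ℝ} (hg : ∀ z ∈ D, 0 < g z) {A : ℝ}
    (hgA : ∀ z ∈ D, g z ≤ A) {u v : ℂ → ℝ} (cu : ContinuousOn u D) (cv : ContinuousOn v D)
    (hu : IntegrableOn (fun z => u z ^ 2 / g z ^ 2) D)
    (hv : IntegrableOn (fun z => g z * v z ^ 2) D) :
    IntegrableOn (fun z => |u z| * |v z|) D := by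
  have i1 : IntegrableOn (fun z => A / 2 * (u z ^ 2 / g z ^ 2) + 1 / 2 * (g z * v z ^ 2)) D :=
    (hu.const_mul _).add (hv.const_mul _)
  refine i1.mono' ((cu.abs.mul cv.abs).aestronglyMeasurable hD.measurableSet) ?_
  refine (ae_restrict_iff' hD.measurableSet).2 (Eventually.of_forall fun z hz => ?_)
  have hgz := hg z hz
  rw [Real.norm_eq_abs, abs_mul, abs_abs, abs_abs]
  have k1 : |u z| * |v z| ≤ g z * (1 / 2 * (|u z| ^ 2 / g z ^ 2)) + 1 / 2 * (g z * |v z| ^ 2) := by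
    have h6 : 0 ≤ (|u z| - g z * |v z|) ^ 2 / (2 * g z) := by positivity
    have h7 : (|u z| - g z * |v z|) ^ 2 / (2 * g z) =
        g z * (1 / 2 * (|u z| ^ 2 / g z ^ 2)) + 1 / 2 * (g z * |v z| ^ 2) - |u z| * |v z| := by
      field_simp
      ring
    linarith
  have k2 : g z * (1 / 2 * (|u z| ^ 2 / g z ^ 2)) ≤ A * (1 / 2 * (|u z| ^ 2 / g z ^ 2)) :=
    mul_le_mul_of_nonneg_right (hgA z hz) (by positivity)
  rw [sq_abs] at k1 k2
  rw [sq_abs] at k1
  linarith

/-! ### The flatness estimate -/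

/-- data for the flatness estimate: a domain `D = {g > 0}`, the derivatives `G = ∂g`, `G11 = ∂∂g`,
`G12 = ∂∂̄g`, and a function `f` with its derivatives up to order two. -/
structure FD (D : Set ℂ) (g : ℂ → ℝ) (G G11 G12 f f1 f2 f11 f12 f22 : ℂ → ℂ) (A : ℝ) : Prop where
  hD : IsOpen D
  hg : ∀ z ∈ D, 0 < g z
  hcpt : ∀ a, 0 < a → IsCompact {z | z ∈ D ∧ a ≤ g z}
  hgG : ∀ z ∈ D, HW (fun w => (g w : ℂ)) (G z) (conj (G z)) z
  hG : ∀ z ∈ D, HW G (G11 z) (G12 z) z
  hG12 : ∀ z ∈ D, conj (G12 z) = G12 z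
  cG11 : ContinuousOn G11 D
  cG12 : ContinuousOn G12 D
  hf : ∀ z ∈ D, HW f (f1 z) (f2 z) z
  hf1 : ∀ z ∈ D, HW f1 (f11 z) (f12 z) z
  hf2 : ∀ z ∈ D, HW f2 (f12 z) (f22 z) z
  c11 : ContinuousOn f11 D
  c12 : ContinuousOn f12 D
  c22 : ContinuousOn f22 D
  hA : 1 ≤ A
  bg : ∀ z ∈ D, g z ≤ A
  bG : ∀ z ∈ D, ‖G z‖ ≤ A
  bG11 : ∀ z ∈ D, ‖G11 z‖ ≤ A
  bG12 : ∀ z ∈ D, ‖G12 z‖ ≤ A

/-- integrability hypotheses: Hardy for `f`, the layer bound for the first derivatives, the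
weighted bound for the second derivatives -/
structure FH (D : Set ℂ) (g : ℂ → ℝ) (f f1 f2 f11 f12 f22 : ℂ → ℂ) : Prop where
  i0 : IntegrableOn (fun z => ‖f z‖ ^ 2 / g z ^ 2) D
  i1 : IntegrableOn (fun z => ‖f1 z‖ ^ 2) D
  i2 : IntegrableOn (fun z => ‖f2 z‖ ^ 2) D
  i11 : IntegrableOn (fun z => g z * ‖f11 z‖ ^ 2) D
  i12 : IntegrableOn (fun z => g z * ‖f12 z‖ ^ 2) D
  i22 : IntegrableOn (fun z => g z * ‖f22 z‖ ^ 2) D
  bd : ∃ C t₀ : ℝ, 0 < t₀ ∧ ∀ t, 0 < t → t < t₀ →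
    ∫ z in Lay D g t, ‖f z‖ ^ 2 / g z ^ 2 ≤ C * t ∧ ∫ z in Lay D g t, ‖f1 z‖ ^ 2 ≤ C * t ∧
      ∫ z in Lay D g t, ‖f2 z‖ ^ 2 ≤ C * t

section

variable {D : Set ℂ} {g : ℂ → ℝ} {G G11 G12 f f1 f2 f11 f12 f22 : ℂ → ℂ} {A : ℝ}

theorem FD.cg (H : FD D g G G11 G12 f f1 f2 f11 f12 f22 A) : ContinuousOn g D := by
  intro z hz
  have h1 : ContinuousAt (fun w => (g w : ℂ)) z := (H.hgG z hz).continuousAt
  have h2 : ContinuousAt (fun w => ((g w : ℂ)).re) z := Complex.continuous_re.continuousAt.comp h1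
  simpa using h2.continuousWithinAt

theorem FD.cf (H : FD D g G G11 G12 f f1 f2 f11 f12 f22 A) : ContinuousOn f D :=
  fun z hz => (H.hf z hz).continuousAt.continuousWithinAt

theorem FD.cf1 (H : FD D g G G11 G12 f f1 f2 f11 f12 f22 A) : ContinuousOn f1 D :=
  fun z hz => (H.hf1 z hz).continuousAt.continuousWithinAt

theorem FD.cf2 (H : FD D g G G11 G12 f f1 f2 f11 f12 f22 A) : ContinuousOn f2 D :=
  fun z hz => (H.hf2 z hz).continuousAt.continuousWithinAt

theorem FD.cG (H : FD D g G G11 G12 f f1 f2 f11 f12 f22 A) : ContinuousOn G D :=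
  fun z hz => (H.hG z hz).continuousAt.continuousWithinAt

/-- the sum of the products which control `W W f · f̄` -/
noncomputable def SS (f f1 f2 f11 f12 f22 : ℂ → ℂ) (z : ℂ) : ℝ :=
  |‖f z‖| * |‖f1 z‖| + |‖f z‖| * |‖f2 z‖| + |‖f z‖| * |‖f11 z‖| + |‖f z‖| * |‖f12 z‖| +
    |‖f z‖| * |‖f22 z‖|

theorem SS_nonneg (f f1 f2 f11 f12 f22 : ℂ → ℂ) (z : ℂ) : 0 ≤ SS f f1 f2 f11 f12 f22 z := by
  unfold SS; positivity

theorem SS_int (H : FD D g G G11 G12 f f1 f2 f11 f12 f22 A)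
    (I : FH D g f f1 f2 f11 f12 f22) : IntegrableOn (SS f f1 f2 f11 f12 f22) D := by
  have w1 : ∀ {u : ℂ → ℂ}, ContinuousOn u D → IntegrableOn (fun z => ‖u z‖ ^ 2) D →
      IntegrableOn (fun z => g z * ‖u z‖ ^ 2) D := by
    intro u cu hu
    refine (hu.const_mul A).mono' ((H.cg.mul (cu.norm.pow 2)).aestronglyMeasurable
      H.hD.measurableSet) ?_
    refine (ae_restrict_iff' H.hD.measurableSet).2 (Eventually.of_forall fun z hz => ?_)
    have := H.hg z hz
    have h2 := H.bg z hz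
    rw [Real.norm_eq_abs, abs_of_nonneg (by positivity)]
    gcongr
  exact ((((prod_int H.hD H.hg H.bg H.cf.norm H.cf1.norm I.i0 (w1 H.cf1 I.i1)).add
    (prod_int H.hD H.hg H.bg H.cf.norm H.cf2.norm I.i0 (w1 H.cf2 I.i2))).add
    (prod_int H.hD H.hg H.bg H.cf.norm H.c11.norm I.i0 I.i11)).add
    (prod_int H.hD H.hg H.bg H.cf.norm H.c12.norm I.i0 I.i12)).add
    (prod_int H.hD H.hg H.bg H.cf.norm H.c22.norm I.i0 I.i22)

theorem SS_tendsto (H : FD D g G G11 G12 f f1 f2 f11 f12 f22 A)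
    (I : FH D g f f1 f2 f11 f12 f22) {c : ℝ} (hc : 0 < c) :
    Tendsto (fun h => 1 / h * ∫ z in Lay D g (c * h), SS f f1 f2 f11 f12 f22 z) (𝓝[>] 0)
      (𝓝 0) := by
  obtain ⟨C, t₀, ht₀, hb⟩ := I.bd
  have hu : IntegrableOn (fun z => ‖f z‖ ^ 2 / g z ^ (2 * 1)) D := by simpa using I.i0
  have huC : ∀ t, 0 < t → t < t₀ → ∫ z in Lay D g t, ‖f z‖ ^ 2 / g z ^ (2 * 1) ≤ C * t := by
    intro t h1 h2
    simpa using (hb t h1 h2).1
  have v : ∀ u : ℂ → ℂ, IntegrableOn (fun z => g z * ‖u z‖ ^ 2) D →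
      IntegrableOn (fun z => g z ^ (2 * 1 - 1) * ‖u z‖ ^ 2) D := by
    intro u hu
    simpa using hu
  have t1 := cross0 H.hD H.cg H.hg (u := fun z => ‖f z‖) (v := fun z => ‖f1 z‖) I.i0 ht₀
    (fun t h1 h2 => (hb t h1 h2).1) I.i1 (fun t h1 h2 => (hb t h1 h2).2.1) hc
  have t2 := cross0 H.hD H.cg H.hg (u := fun z => ‖f z‖) (v := fun z => ‖f2 z‖) I.i0 ht₀
    (fun t h1 h2 => (hb t h1 h2).1) I.i2 (fun t h1 h2 => (hb t h1 h2).2.2) hc
  have t3 := cross H.hD H.cg H.hg (u := fun z => ‖f z‖) (v := fun z => ‖f11 z‖) le_rfl hu ht₀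
    huC (v f11 I.i11) hc
  have t4 := cross H.hD H.cg H.hg (u := fun z => ‖f z‖) (v := fun z => ‖f12 z‖) le_rfl hu ht₀
    huC (v f12 I.i12) hc
  have t5 := cross H.hD H.cg H.hg (u := fun z => ‖f z‖) (v := fun z => ‖f22 z‖) le_rfl hu ht₀
    huC (v f22 I.i22) hc
  have T := (((t1.add t2).add t3).add t4).add t5
  simp only [add_zero] at T
  refine T.congr fun h => ?_
  have w1 : ∀ {u : ℂ → ℂ}, ContinuousOn u D → IntegrableOn (fun z => ‖u z‖ ^ 2) D →
      IntegrableOn (fun z => g z * ‖u z‖ ^ 2) D := by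
    intro u cu hu
    refine (hu.const_mul A).mono' ((H.cg.mul (cu.norm.pow 2)).aestronglyMeasurable
      H.hD.measurableSet) ?_
    refine (ae_restrict_iff' H.hD.measurableSet).2 (Eventually.of_forall fun z hz => ?_)
    have := H.hg z hz
    have h2 := H.bg z hz
    rw [Real.norm_eq_abs, abs_of_nonneg (by positivity)]
    gcongr
  have hs := lay_sub D g (c * h)
  have p1 := (prod_int H.hD H.hg H.bg H.cf.norm H.cf1.norm I.i0 (w1 H.cf1 I.i1)).mono_set hs
  have p2 := (prod_int H.hD H.hg H.bg H.cf.norm H.cf2.norm I.i0 (w1 H.cf2 I.i2)).mono_set hs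
  have p3 := (prod_int H.hD H.hg H.bg H.cf.norm H.c11.norm I.i0 I.i11).mono_set hs
  have p4 := (prod_int H.hD H.hg H.bg H.cf.norm H.c12.norm I.i0 I.i12).mono_set hs
  have p5 := (prod_int H.hD H.hg H.bg H.cf.norm H.c22.norm I.i0 I.i22).mono_set hs
  have q2 : IntegrableOn (fun z => |‖f z‖| * |‖f1 z‖| + |‖f z‖| * |‖f2 z‖|)
    (Lay D g (c * h)) := p1.add p2
  have q3 : IntegrableOn (fun z => |‖f z‖| * |‖f1 z‖| + |‖f z‖| * |‖f2 z‖| +
    |‖f z‖| * |‖f11 z‖|) (Lay D g (c * h)) := q2.add p3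
  have q4 : IntegrableOn (fun z => |‖f z‖| * |‖f1 z‖| + |‖f z‖| * |‖f2 z‖| +
    |‖f z‖| * |‖f11 z‖| + |‖f z‖| * |‖f12 z‖|) (Lay D g (c * h)) := q3.add p4
  unfold SS
  rw [integral_add q4 p5, integral_add q3 p4, integral_add q2 p3, integral_add p1 p2]
  ring

/-- pointwise bound of `W W f · f̄` -/
theorem WW_bound (H : FD D g G G11 G12 f f1 f2 f11 f12 f22 A) {z : ℂ} (hz : z ∈ D) :
    ‖(conj (G z) * (G12 z * f1 z + conj (G z) * f11 z - G11 z * f2 z - G z * f12 z) -
        G z * (conj (G11 z) * f1 z + conj (G z) * f12 z - G12 z * f2 z - G z * f22 z)) *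
          conj (f z)‖ ≤ 2 * A ^ 2 * SS f f1 f2 f11 f12 f22 z := by
  have hA := H.hA
  have hA0 : 0 ≤ A := by linarith
  have bG := H.bG z hz
  have bG11 := H.bG11 z hz
  have bG12 := H.bG12 z hz
  have e1 : ‖conj (G z) * (G12 z * f1 z + conj (G z) * f11 z - G11 z * f2 z - G z * f12 z)‖ ≤
      A * (A * ‖f1 z‖ + A * ‖f11 z‖ + A * ‖f2 z‖ + A * ‖f12 z‖) := by
    rw [norm_mul, RCLike.norm_conj]
    refine mul_le_mul bG ?_ (norm_nonneg _) hA0
    refine (norm_sub_le _ _).trans (add_le_add ((norm_sub_le _ _).trans (add_le_add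
      ((norm_add_le _ _).trans (add_le_add ?_ ?_)) ?_)) ?_)
    all_goals
      rw [norm_mul]
      first
        | exact mul_le_mul_of_nonneg_right (by simpa using bG12) (norm_nonneg _)
        | exact mul_le_mul_of_nonneg_right (by simpa using bG) (norm_nonneg _)
        | exact mul_le_mul_of_nonneg_right (by simpa using bG11) (norm_nonneg _)
  have e2 : ‖G z * (conj (G11 z) * f1 z + conj (G z) * f12 z - G12 z * f2 z - G z * f22 z)‖ ≤
      A * (A * ‖f1 z‖ + A * ‖f12 z‖ + A * ‖f2 z‖ + A * ‖f22 z‖) := by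
    rw [norm_mul]
    refine mul_le_mul bG ?_ (norm_nonneg _) hA0
    refine (norm_sub_le _ _).trans (add_le_add ((norm_sub_le _ _).trans (add_le_add
      ((norm_add_le _ _).trans (add_le_add ?_ ?_)) ?_)) ?_)
    all_goals
      rw [norm_mul]
      first
        | exact mul_le_mul_of_nonneg_right (by simpa using bG11) (norm_nonneg _)
        | exact mul_le_mul_of_nonneg_right (by simpa using bG) (norm_nonneg _)
        | exact mul_le_mul_of_nonneg_right (by simpa using bG12) (norm_nonneg _)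
  rw [norm_mul, RCLike.norm_conj]
  have e3 := (norm_sub_le (conj (G z) * (G12 z * f1 z + conj (G z) * f11 z - G11 z * f2 z -
    G z * f12 z)) (G z * (conj (G11 z) * f1 z + conj (G z) * f12 z - G12 z * f2 z -
    G z * f22 z))).trans (add_le_add e1 e2)
  refine (mul_le_mul_of_nonneg_right e3 (norm_nonneg (f z))).trans ?_
  unfold SS
  simp only [abs_norm]
  have n0 := norm_nonneg (f z)
  have n11 := norm_nonneg (f11 z)
  have n22 := norm_nonneg (f22 z)
  have m1 : 0 ≤ A ^ 2 * (‖f z‖ * ‖f11 z‖) := by positivity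
  have m2 : 0 ≤ A ^ 2 * (‖f z‖ * ‖f22 z‖) := by positivity
  nlinarith [m1, m2]

/-- **Flatness, first form**: `(1/h) ∫ κ(g/h) |Wf|² → 0`. -/
theorem flat_W (H : FD D g G G11 G12 f f1 f2 f11 f12 f22 A)
    (I : FH D g f f1 f2 f11 f12 f22) {κ : ℝ → ℝ} (hκ : ContDiff ℝ 1 κ) {α β : ℝ} (hα : 0 < α)
    (hβ : 0 < β)
    (hκα : ∀ t, t < α → κ t = 0) (hκβ : ∀ t, β ≤ t → κ t = 0) (hκ0 : ∀ t, 0 ≤ κ t)
    (hκ1 : ∀ t, κ t ≤ 1) :
    Tendsto (fun h => 1 / h * ∫ z in D, κ (g z / h) *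
      ‖conj (G z) * f1 z - G z * f2 z‖ ^ 2) (𝓝[>] 0) (𝓝 0) := by
  have T := (SS_tendsto H I hβ).const_mul (2 * A ^ 2)
  rw [mul_zero] at T
  refine squeeze_zero' ?_ ?_ T
  · filter_upwards [self_mem_nhdsWithin] with h hh
    have : (0 : ℝ) < h := hh
    exact mul_nonneg (by positivity)
      (integral_nonneg fun z => mul_nonneg (hκ0 _) (by positivity))
  · filter_upwards [self_mem_nhdsWithin] with h hh
    have hh : (0 : ℝ) < h := hh
    -- the cutoff
    set φ : ℂ → ℂ := D.indicator (fun z => ((κ (g z / h) : ℝ) : ℂ)) with hφdef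
    set K : Set ℂ := {z | z ∈ D ∧ α * h ≤ g z} with hKdef
    have hK : IsCompact K := H.hcpt _ (by positivity)
    have hKD : K ⊆ D := fun z hz => hz.1
    have hφ0 : ∀ z, z ∉ K → φ z = 0 := by
      intro z hz
      by_cases hzD : z ∈ D
      · rw [hφdef, Set.indicator_of_mem hzD]
        have : g z / h < α := by
          rw [div_lt_iff₀ hh]
          by_contra hc
          exact hz ⟨hzD, not_lt.1 hc⟩
        rw [hκα _ this]
        simp
      · rw [hφdef, Set.indicator_of_notMem hzD]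
    have hφ : ∀ z ∈ D, HW φ (((deriv κ (g z / h) / h : ℝ) : ℂ) * G z)
        (((deriv κ (g z / h) / h : ℝ) : ℂ) * conj (G z)) z := by
      intro z hz
      have h1 : HasDerivAt (fun t => κ (t / h)) (deriv κ (g z / h) / h) (g z) := by
        have h2 : HasDerivAt κ (deriv κ (g z / h)) (g z / h) :=
          (hκ.differentiable (by norm_num) _).hasDerivAt
        have h3 : HasDerivAt (fun t : ℝ => t / h) (1 / h) (g z) := by
          simpa using (hasDerivAt_id (g z)).div_const h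
        have := h2.comp (g z) h3
        simpa [div_eq_mul_inv, Function.comp_def] using this
      have h4 := (H.hgG z hz).profile h1
      refine h4.congr_of_eventuallyEq ?_
      filter_upwards [H.hD.mem_nhds hz] with w hw
      rw [hφdef, Set.indicator_of_mem hw]
    have hc : ContinuousOn (fun z => ((deriv κ (g z / h) / h : ℝ) : ℂ)) D := by
      have h1 : Continuous (deriv κ) := hκ.continuous_deriv (by norm_num)
      have h2 : ContinuousOn (fun z => deriv κ (g z / h) / h) D :=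
        (h1.comp_continuousOn (H.cg.div_const h)).div_const h
      exact Complex.continuous_ofReal.comp_continuousOn h2
    have hid := flat_id H.hD hK hKD hφ hφ0 hc H.hG H.hG12 H.cG11 H.cG12 H.hf H.hf1 H.hf2
      H.c11 H.c12 H.c22
    have hl : ∫ z in D, (φ z * ((conj (G z) * f1 z - G z * f2 z) *
        conj (conj (G z) * f1 z - G z * f2 z))) =
        ((∫ z in D, κ (g z / h) * ‖conj (G z) * f1 z - G z * f2 z‖ ^ 2 : ℝ) : ℂ) := by
      rw [← integral_complex_ofReal]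
      refine setIntegral_congr_fun H.hD.measurableSet fun z hz => ?_
      simp only [hφdef, Set.indicator_of_mem hz]
      rw [Complex.mul_conj, Complex.normSq_eq_norm_sq]
      push_cast
      rfl
    rw [hl] at hid
    have hn := congrArg norm hid
    rw [Complex.norm_real, Real.norm_eq_abs, abs_of_nonneg
      (integral_nonneg fun z => mul_nonneg (hκ0 _) (by positivity))] at hn
    rw [hn]
    have hLm := (isOpen_lay H.hD H.cg (β * h)).measurableSet
    set F : ℂ → ℂ := fun z => (φ z * ((conj (G z) * (G12 z * f1 z + conj (G z) * f11 z -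
        G11 z * f2 z - G z * f12 z) - G z * (conj (G11 z) * f1 z + conj (G z) * f12 z -
        G12 z * f2 z - G z * f22 z)) * conj (f z))) with hF
    have hF0 : ∀ z ∈ D \ Lay D g (β * h), ‖F z‖ = 0 := by
      intro z hz
      have hzD : z ∈ D := hz.1
      have h1 : β ≤ g z / h := by
        rw [le_div_iff₀ hh]
        by_contra hc
        exact hz.2 ⟨hzD, not_le.1 hc⟩
      have : φ z = 0 := by
        rw [hφdef, Set.indicator_of_mem hzD, hκβ _ h1]
        simp
      simp [hF, this]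
    have hb : ‖∫ z in D, F z‖ ≤
        ∫ z in Lay D g (β * h), 2 * A ^ 2 * SS f f1 f2 f11 f12 f22 z := by
      refine (norm_integral_le_integral_norm _).trans ?_
      have h5 := setIntegral_eq_of_subset_of_forall_sdiff_eq_zero (μ := volume)
        (f := fun z => ‖F z‖) H.hD.measurableSet (lay_sub D g (β * h)) hF0
      rw [h5]
      refine integral_mono_of_nonneg (Eventually.of_forall fun z => norm_nonneg _)
        (((SS_int H I).mono_set (lay_sub D g _)).const_mul _) ?_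
      refine (ae_restrict_iff' hLm).2 (Eventually.of_forall fun z hz => ?_)
      have hzD : z ∈ D := hz.1
      have h1 := WW_bound H hzD
      simp only [hF]
      rw [norm_mul]
      have h2 : ‖φ z‖ ≤ 1 := by
        rw [hφdef, Set.indicator_of_mem hzD, Complex.norm_real, Real.norm_eq_abs,
          abs_of_nonneg (hκ0 _)]
        exact hκ1 _
      calc ‖φ z‖ * _ ≤ 1 * (2 * A ^ 2 * SS f f1 f2 f11 f12 f22 z) :=
            mul_le_mul h2 h1 (norm_nonneg _) (by norm_num)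
        _ = _ := one_mul _
    rw [integral_const_mul] at hb
    calc 1 / h * _ ≤ 1 / h * (2 * A ^ 2 * ∫ z in Lay D g (β * h), SS f f1 f2 f11 f12 f22 z) :=
          mul_le_mul_of_nonneg_left hb (by positivity)
      _ = _ := by ring

/-- a smooth cutoff: `1` on `[δ, c]`, `0` off `(δ/2, 2c)` -/
theorem exists_kappa {δ c : ℝ} (hδ : 0 < δ) (hc : δ < c) : ∃ κ : ℝ → ℝ, ContDiff ℝ 1 κ ∧
    (∀ t, t < δ / 2 → κ t = 0) ∧ (∀ t, 2 * c ≤ t → κ t = 0) ∧ (∀ t, 0 ≤ κ t) ∧
    (∀ t, κ t ≤ 1) ∧ ∀ t, δ ≤ t → t ≤ c → κ t = 1 := by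
  let b : ContDiffBump ((δ + c) / 2 : ℝ) :=
    ⟨(c - δ) / 2, (c - δ) / 2 + δ / 2, by linarith, by linarith⟩
  refine ⟨b, b.contDiff, ?_, ?_, fun t => b.nonneg, fun t => b.le_one, ?_⟩
  · intro t ht
    apply b.zero_of_le_dist
    rw [Real.dist_eq]
    have : (c - δ) / 2 + δ / 2 ≤ -(t - (δ + c) / 2) := by linarith
    exact this.trans (neg_le_abs _)
  · intro t ht
    apply b.zero_of_le_dist
    rw [Real.dist_eq]
    have : (c - δ) / 2 + δ / 2 ≤ t - (δ + c) / 2 := by linarith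
    exact this.trans (le_abs_self _)
  · intro t h1 h2
    apply b.one_of_mem_closedBall
    rw [Metric.mem_closedBall, Real.dist_eq, abs_le]
    constructor <;> (show _ ≤ _; simp only [b]; linarith)

/-- the pointwise inequality behind the flatness estimate -/
theorem pt_bound (x y w1 w2 : ℂ) {A lam : ℝ} (_hA : 0 ≤ A) (hx : ‖x‖ ≤ A) (hlam : 0 < lam)
    (hy : y = conj x) : ‖x‖ ^ 2 * |‖w1‖ ^ 2 - ‖w2‖ ^ 2| ≤
      1 / (2 * lam) * ‖y * w1 - x * w2‖ ^ 2 + lam * A ^ 2 * (‖w1‖ ^ 2 + ‖w2‖ ^ 2) := by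
  subst hy
  have hn : ‖conj x‖ = ‖x‖ := RCLike.norm_conj x
  have e1 : ‖x‖ ^ 2 * |‖w1‖ ^ 2 - ‖w2‖ ^ 2| = |‖conj x * w1‖ - ‖x * w2‖| *
      (‖conj x * w1‖ + ‖x * w2‖) := by
    rw [norm_mul, norm_mul, hn]
    have h1 : ‖w1‖ ^ 2 - ‖w2‖ ^ 2 = (‖w1‖ - ‖w2‖) * (‖w1‖ + ‖w2‖) := by ring
    have h2 : ‖x‖ * ‖w1‖ - ‖x‖ * ‖w2‖ = ‖x‖ * (‖w1‖ - ‖w2‖) := by ring
    rw [h1, h2, abs_mul, abs_mul, abs_of_nonneg (norm_nonneg x),
      abs_of_nonneg (add_nonneg (norm_nonneg w1) (norm_nonneg w2))]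
    ring
  rw [e1]
  set W := ‖conj x * w1 - x * w2‖ with hW
  have h3 : |‖conj x * w1‖ - ‖x * w2‖| ≤ W := abs_norm_sub_norm_le _ _
  have h4 : ‖conj x * w1‖ + ‖x * w2‖ ≤ A * (‖w1‖ + ‖w2‖) := by
    rw [norm_mul, norm_mul, hn]
    nlinarith [norm_nonneg w1, norm_nonneg w2]
  have h5 : |‖conj x * w1‖ - ‖x * w2‖| * (‖conj x * w1‖ + ‖x * w2‖) ≤
      W * (A * (‖w1‖ + ‖w2‖)) :=
    mul_le_mul h3 h4 (by positivity) (norm_nonneg _)
  refine h5.trans ?_
  have h6 : 0 ≤ (W - lam * (A * (‖w1‖ + ‖w2‖))) ^ 2 / (2 * lam) := by positivity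
  have h7 : (W - lam * (A * (‖w1‖ + ‖w2‖))) ^ 2 / (2 * lam) = 1 / (2 * lam) * W ^ 2 -
      W * (A * (‖w1‖ + ‖w2‖)) + lam / 2 * A ^ 2 * (‖w1‖ + ‖w2‖) ^ 2 := by
    field_simp
    ring
  have h8 : lam / 2 * A ^ 2 * (‖w1‖ + ‖w2‖) ^ 2 ≤ lam * A ^ 2 * (‖w1‖ ^ 2 + ‖w2‖ ^ 2) := by
    have : 0 ≤ lam / 2 * A ^ 2 * (‖w1‖ - ‖w2‖) ^ 2 := by positivity
    nlinarith
  linarith

/-- **Flatness**: `(1/h) ∫_{g < c h} |∂g|² | |∂f|² - |∂̄f|² | → 0`. -/
theorem flat (H : FD D g G G11 G12 f f1 f2 f11 f12 f22 A)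
    (I : FH D g f f1 f2 f11 f12 f22) {c : ℝ} (hc : 0 < c) :
    Tendsto (fun h => 1 / h * ∫ z in Lay D g (c * h), ‖G z‖ ^ 2 * |‖f1 z‖ ^ 2 - ‖f2 z‖ ^ 2|)
      (𝓝[>] 0) (𝓝 0) := by
  obtain ⟨C, t₀, ht₀, hb⟩ := I.bd
  have hA0 : 0 ≤ A := by linarith [H.hA]
  rw [Metric.tendsto_nhds]
  intro ε hε
  obtain ⟨δ, hδ, hδc, hδε⟩ : ∃ δ : ℝ, 0 < δ ∧ δ < c ∧ A ^ 2 * (2 * |C|) * δ ≤ ε / 4 := by
    have h0 : 0 ≤ A ^ 2 * (2 * |C|) := by positivity
    refine ⟨min (c / 2) (ε / 4 / (A ^ 2 * (2 * |C|) + 1)), by positivity,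
      (min_le_left _ _).trans_lt (by linarith), ?_⟩
    calc A ^ 2 * (2 * |C|) * min (c / 2) (ε / 4 / (A ^ 2 * (2 * |C|) + 1)) ≤
        A ^ 2 * (2 * |C|) * (ε / 4 / (A ^ 2 * (2 * |C|) + 1)) :=
          mul_le_mul_of_nonneg_left (min_le_right _ _) h0
      _ ≤ ε / 4 := by
          rw [← mul_div_assoc, div_le_iff₀ (by positivity)]
          nlinarith
  obtain ⟨lam, hlam, hlamε⟩ : ∃ lam : ℝ, 0 < lam ∧ lam * (A ^ 2 * (2 * |C|) * c) ≤ ε / 4 := by
    have h0 : 0 ≤ A ^ 2 * (2 * |C|) * c := by positivity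
    refine ⟨ε / 4 / (A ^ 2 * (2 * |C|) * c + 1), by positivity, ?_⟩
    rw [div_mul_eq_mul_div, div_le_iff₀ (by positivity)]
    nlinarith
  obtain ⟨κ, hκ, hκα, hκβ, hκ0, hκ1, hκe⟩ := exists_kappa hδ hδc
  have T := flat_W H I hκ (by positivity : (0 : ℝ) < δ / 2) (by positivity : (0 : ℝ) < 2 * c)
    hκα hκβ hκ0 hκ1
  have hev := (Metric.tendsto_nhds.1 T) (2 * lam * (ε / 4)) (by positivity)
  have hsm : ∀ᶠ h : ℝ in 𝓝[>] 0, c * h < t₀ := by
    have : Iio (t₀ / c) ∈ 𝓝 (0 : ℝ) := Iio_mem_nhds (by positivity)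
    filter_upwards [nhdsWithin_le_nhds this] with h hh
    rw [mem_Iio, lt_div_iff₀ hc] at hh
    linarith
  filter_upwards [hev, hsm, self_mem_nhdsWithin] with h h1 h2 h3
  have hh : 0 < h := h3
  have hcm := (isOpen_lay H.hD H.cg (c * h)).measurableSet
  have hdm := (isOpen_lay H.hD H.cg (δ * h)).measurableSet
  have hdc : Lay D g (δ * h) ⊆ Lay D g (c * h) := fun z hz =>
    ⟨hz.1, hz.2.trans (mul_lt_mul_of_pos_right hδc hh)⟩
  -- integrability
  have iS : IntegrableOn (fun z => ‖f1 z‖ ^ 2 + ‖f2 z‖ ^ 2) D := I.i1.add I.i2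
  have hS : ∀ t, 0 < t → t < t₀ → ∫ z in Lay D g t, (‖f1 z‖ ^ 2 + ‖f2 z‖ ^ 2) ≤
      2 * |C| * t := by
    intro t h4 h5
    rw [integral_add (I.i1.mono_set (lay_sub D g t)) (I.i2.mono_set (lay_sub D g t))]
    have h6 := (hb t h4 h5).2.1
    have h7 := (hb t h4 h5).2.2
    have h8 : C * t ≤ |C| * t := mul_le_mul_of_nonneg_right (le_abs_self C) h4.le
    linarith
  have iW : IntegrableOn (fun z => κ (g z / h) * ‖conj (G z) * f1 z - G z * f2 z‖ ^ 2) D := by
    refine (iS.const_mul (2 * A ^ 2)).mono' ?_ ?_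
    · have c1 : ContinuousOn (fun z => κ (g z / h)) D :=
        hκ.continuous.comp_continuousOn (H.cg.div_const h)
      have c2 : ContinuousOn (fun z => conj (G z)) D :=
        Complex.continuous_conj.comp_continuousOn H.cG
      exact (c1.mul (((c2.mul H.cf1).sub (H.cG.mul H.cf2)).norm.pow 2)).aestronglyMeasurable
        H.hD.measurableSet
    · refine (ae_restrict_iff' H.hD.measurableSet).2 (Eventually.of_forall fun z hz => ?_)
      rw [Real.norm_eq_abs, abs_of_nonneg (mul_nonneg (hκ0 _) (by positivity))]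
      have h4 : ‖conj (G z) * f1 z - G z * f2 z‖ ≤ A * ‖f1 z‖ + A * ‖f2 z‖ := by
        refine (norm_sub_le _ _).trans (add_le_add ?_ ?_)
        · rw [norm_mul, RCLike.norm_conj]
          exact mul_le_mul_of_nonneg_right (H.bG z hz) (norm_nonneg _)
        · rw [norm_mul]
          exact mul_le_mul_of_nonneg_right (H.bG z hz) (norm_nonneg _)
      have h5 : ‖conj (G z) * f1 z - G z * f2 z‖ ^ 2 ≤
          2 * A ^ 2 * (‖f1 z‖ ^ 2 + ‖f2 z‖ ^ 2) := by
        have h6 := pow_le_pow_left₀ (norm_nonneg _) h4 2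
        nlinarith [sq_nonneg (A * ‖f1 z‖ - A * ‖f2 z‖)]
      calc κ (g z / h) * ‖conj (G z) * f1 z - G z * f2 z‖ ^ 2 ≤
          1 * ‖conj (G z) * f1 z - G z * f2 z‖ ^ 2 :=
            mul_le_mul_of_nonneg_right (hκ1 _) (by positivity)
        _ ≤ _ := by rw [one_mul]; exact h5
  -- the pointwise bound
  set S1 : ℂ → ℝ := fun z => ‖f1 z‖ ^ 2 + ‖f2 z‖ ^ 2 with hS1
  have hpt : ∀ z ∈ Lay D g (c * h), ‖G z‖ ^ 2 * |‖f1 z‖ ^ 2 - ‖f2 z‖ ^ 2| ≤
      1 / (2 * lam) * (κ (g z / h) * ‖conj (G z) * f1 z - G z * f2 z‖ ^ 2) +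
        lam * A ^ 2 * S1 z + (Lay D g (δ * h)).indicator (fun z => A ^ 2 * S1 z) z := by
    intro z hz
    have hzD := hz.1
    have hS0 : 0 ≤ S1 z := by positivity
    by_cases hzd : z ∈ Lay D g (δ * h)
    · rw [Set.indicator_of_mem hzd]
      have h4 : ‖G z‖ ^ 2 * |‖f1 z‖ ^ 2 - ‖f2 z‖ ^ 2| ≤ A ^ 2 * S1 z := by
        refine mul_le_mul (pow_le_pow_left₀ (norm_nonneg _) (H.bG z hzD) 2) ?_
          (abs_nonneg _) (by positivity)
        rw [abs_le]
        constructor <;> nlinarith [sq_nonneg ‖f1 z‖, sq_nonneg ‖f2 z‖]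
      have h5 : 0 ≤ 1 / (2 * lam) * (κ (g z / h) * ‖conj (G z) * f1 z - G z * f2 z‖ ^ 2) :=
        mul_nonneg (by positivity) (mul_nonneg (hκ0 _) (by positivity))
      have h6 : 0 ≤ lam * A ^ 2 * S1 z := by positivity
      linarith
    · rw [Set.indicator_of_notMem hzd, add_zero]
      have h4 : δ ≤ g z / h := by
        rw [le_div_iff₀ hh]
        by_contra h5
        exact hzd ⟨hzD, not_le.1 h5⟩
      have h5 : g z / h ≤ c := by
        rw [div_le_iff₀ hh]
        exact hz.2.le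
      rw [hκe _ h4 h5, one_mul]
      exact pt_bound (G z) (conj (G z)) (f1 z) (f2 z) hA0 (H.bG z hzD) hlam rfl
  have ib1 : IntegrableOn (fun z => 1 / (2 * lam) * (κ (g z / h) *
      ‖conj (G z) * f1 z - G z * f2 z‖ ^ 2)) (Lay D g (c * h)) :=
    (iW.mono_set (lay_sub D g _)).const_mul _
  have ib2 : IntegrableOn (fun z => lam * A ^ 2 * S1 z) (Lay D g (c * h)) :=
    (iS.mono_set (lay_sub D g _)).const_mul _
  have ib3 : IntegrableOn ((Lay D g (δ * h)).indicator (fun z => A ^ 2 * S1 z))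
      (Lay D g (c * h)) :=
    ((iS.mono_set (lay_sub D g _)).const_mul _).indicator hdm
  have ib12 : IntegrableOn (fun z => 1 / (2 * lam) * (κ (g z / h) *
      ‖conj (G z) * f1 z - G z * f2 z‖ ^ 2) + lam * A ^ 2 * S1 z) (Lay D g (c * h)) :=
    ib1.add ib2
  have hle : ∫ z in Lay D g (c * h), ‖G z‖ ^ 2 * |‖f1 z‖ ^ 2 - ‖f2 z‖ ^ 2| ≤
      1 / (2 * lam) * (∫ z in D, κ (g z / h) * ‖conj (G z) * f1 z - G z * f2 z‖ ^ 2) +
        lam * A ^ 2 * (2 * |C| * (c * h)) + A ^ 2 * (2 * |C| * (δ * h)) := by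
    calc ∫ z in Lay D g (c * h), ‖G z‖ ^ 2 * |‖f1 z‖ ^ 2 - ‖f2 z‖ ^ 2| ≤
        ∫ z in Lay D g (c * h), (1 / (2 * lam) * (κ (g z / h) *
          ‖conj (G z) * f1 z - G z * f2 z‖ ^ 2) + lam * A ^ 2 * S1 z +
          (Lay D g (δ * h)).indicator (fun z => A ^ 2 * S1 z) z) := by
          refine integral_mono_of_nonneg (Eventually.of_forall fun z => by positivity)
            (ib12.add ib3) ?_
          exact (ae_restrict_iff' hcm).2 (Eventually.of_forall hpt)
      _ = 1 / (2 * lam) * (∫ z in Lay D g (c * h), κ (g z / h) *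
            ‖conj (G z) * f1 z - G z * f2 z‖ ^ 2) +
          lam * A ^ 2 * (∫ z in Lay D g (c * h), S1 z) +
            A ^ 2 * ∫ z in Lay D g (δ * h), S1 z := by
          rw [integral_add ib12 ib3, integral_add ib1 ib2, integral_const_mul,
            integral_const_mul, setIntegral_indicator hdm,
            Set.inter_eq_self_of_subset_right hdc, integral_const_mul]
      _ ≤ _ := by
          have k1 : ∫ z in Lay D g (c * h), κ (g z / h) *
              ‖conj (G z) * f1 z - G z * f2 z‖ ^ 2 ≤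
              ∫ z in D, κ (g z / h) * ‖conj (G z) * f1 z - G z * f2 z‖ ^ 2 :=
            setIntegral_mono_set iW (Eventually.of_forall fun z =>
              mul_nonneg (hκ0 _) (by positivity)) (lay_sub D g _).eventuallyLE
          have k2 := hS (c * h) (by positivity) h2
          have k3 := hS (δ * h) (by positivity)
            ((mul_lt_mul_of_pos_right hδc hh).trans h2)
          have hl0 : 0 ≤ 1 / (2 * lam) := by positivity
          have hl1 : 0 ≤ lam * A ^ 2 := by positivity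
          have hl2 : 0 ≤ A ^ 2 := by positivity
          exact add_le_add (add_le_add (mul_le_mul_of_nonneg_left k1 hl0)
            (mul_le_mul_of_nonneg_left k2 hl1)) (mul_le_mul_of_nonneg_left k3 hl2)
  have hint0 : 0 ≤ ∫ z in Lay D g (c * h), ‖G z‖ ^ 2 * |‖f1 z‖ ^ 2 - ‖f2 z‖ ^ 2| :=
    integral_nonneg fun z => by positivity
  have hW1 : 1 / h * ∫ z in D, κ (g z / h) * ‖conj (G z) * f1 z - G z * f2 z‖ ^ 2 <
      2 * lam * (ε / 4) := by
    have := h1
    rw [Real.dist_eq, sub_zero] at this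
    exact (abs_lt.1 this).2
  rw [Real.dist_eq, sub_zero, abs_of_nonneg (by positivity)]
  set J := ∫ z in D, κ (g z / h) * ‖conj (G z) * f1 z - G z * f2 z‖ ^ 2 with hJ
  calc 1 / h * ∫ z in Lay D g (c * h), ‖G z‖ ^ 2 * |‖f1 z‖ ^ 2 - ‖f2 z‖ ^ 2| ≤
      1 / h * (1 / (2 * lam) * J + lam * A ^ 2 * (2 * |C| * (c * h)) +
        A ^ 2 * (2 * |C| * (δ * h))) := mul_le_mul_of_nonneg_left hle (by positivity)
    _ = 1 / (2 * lam) * (1 / h * J) + lam * (A ^ 2 * (2 * |C|) * c) +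
        A ^ 2 * (2 * |C|) * δ := by
        field_simp
    _ < 1 / (2 * lam) * (2 * lam * (ε / 4)) + ε / 4 + ε / 4 := by
        have : 1 / (2 * lam) * (1 / h * J) < 1 / (2 * lam) * (2 * lam * (ε / 4)) :=
          mul_lt_mul_of_pos_left hW1 (by positivity)
        linarith
    _ = ε / 4 + ε / 4 + ε / 4 := by
        field_simp
    _ < ε := by linarith

end

end Pool.Agent.Lib.QNL.Flat5
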