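import Pool.Agent.Lib.QNL.EStmts
import Pool.Agent.Lib.QNL.Flat5

/-!
Group E, item (7): flatness, `stmtFlat : StmtHY → StmtSec → StmtFlat`.
-/

set_option autoImplicit false

namespace Pool.Agent.Lib.QNL.FlatE

open MeasureTheory Filter Topology Set
open scoped ContDiff ComplexConjugate
open Pool.Agent.Lib.QNL.WProf Pool.Agent.Lib.QNL.Wt Pool.Agent.Lib.QNL.FId
open Pool.Agent.Lib.QNL.ES Pool.Agent.Lib.QNL.HW5 Pool.Agent.Lib.QNL.Flat5
open Pool.Agent.Lib.QNL.Calc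

theorem hw_iff {f : ℂ → ℂ} {p q z : ℂ} : HW f p q z ↔ HasFDerivAt f (wl p q) z := Iff.rfl

theorem hw_of {f : ℂ → ℂ} {z : ℂ} (h : DifferentiableAt ℝ f z) : HW f (dz f z) (dzb f z) z :=
  hasFDerivAt_wl h

theorem lay_eq (O : Set ℂ) (g : ℂ → ℝ) (t : ℝ) : Lay (DD O g) g t = LL O g t := by
  ext z
  simp only [Lay, DD, LL, mem_ofPred_eq]
  tauto

section

variable {O : Set ℂ} {g θ : ℂ → ℝ} {j : ℕ} {Y : ℕ → ℕ → ℂ → ℂ}

/-- the complex derivatives of `g` -/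
noncomputable def gC (g : ℂ → ℝ) : ℂ → ℂ := fun z => (g z : ℂ)

theorem isOpen_DD (A : Dat O g θ) : IsOpen (DD O g) := isOpen_D A

theorem DD_sub (O : Set ℂ) (g : ℂ → ℝ) : DD O g ⊆ O := fun _ h => h.1

theorem cpt_ge (A : Dat O g θ) {a : ℝ} (ha : 0 < a) :
    IsCompact {z | z ∈ DD O g ∧ a ≤ g z} := by
  have h1 : {z | z ∈ DD O g ∧ a ≤ g z} = {z | z ∈ O ∧ 0 ≤ g z} ∩ g ⁻¹' (Ici a) := by
    ext z
    simp only [DD, mem_ofPred_eq, mem_inter_iff, mem_preimage, mem_Ici]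
    constructor
    · rintro ⟨⟨h1, h2⟩, h3⟩
      exact ⟨⟨h1, h2.le⟩, h3⟩
    · rintro ⟨⟨h1, h2⟩, h3⟩
      exact ⟨⟨h1, by linarith⟩, h3⟩
  rw [h1]
  have hc : ContinuousOn g {z | z ∈ O ∧ 0 ≤ g z} := A.g_sm.continuousOn.mono fun z hz => hz.1
  have hcl : IsClosed ({z | z ∈ O ∧ 0 ≤ g z} ∩ g ⁻¹' (Ici a)) :=
    hc.preimage_isClosed_of_isClosed A.cpt.isClosed isClosed_Ici
  exact A.cpt.of_isClosed_subset hcl inter_subset_left

/-- continuous functions on `O` are bounded on `D` -/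
theorem bdd_on {E : Type*} [NormedAddCommGroup E] (A : Dat O g θ) {u : ℂ → E}
    (hu : ContinuousOn u O) : ∃ B : ℝ, 0 ≤ B ∧ ∀ z ∈ DD O g, ‖u z‖ ≤ B := by
  obtain ⟨B, hB⟩ := A.cpt.exists_bound_of_continuousOn (hu.mono fun z hz => hz.1)
  refine ⟨|B|, abs_nonneg _, fun z hz => (hB z ⟨hz.1, hz.2.le⟩).trans (le_abs_self B)⟩

/-- positive continuous functions on `O` are bounded below on `D` -/
theorem bdd_below (A : Dat O g θ) {u : ℂ → ℝ} (hu : ContinuousOn u O) (hp : ∀ z ∈ O, 0 < u z) :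
    ∃ c : ℝ, 0 < c ∧ ∀ z ∈ DD O g, c ≤ u z := by
  by_cases hne : ({z | z ∈ O ∧ 0 ≤ g z} : Set ℂ).Nonempty
  · obtain ⟨z0, hz0, hmin⟩ := A.cpt.exists_isMinOn hne (hu.mono fun z hz => hz.1)
    exact ⟨u z0, hp z0 hz0.1, fun z hz => hmin ⟨hz.1, hz.2.le⟩⟩
  · refine ⟨1, one_pos, fun z hz => ?_⟩
    exact absurd ⟨z, hz.1, hz.2.le⟩ hne

theorem sm_gC (A : Dat O g θ) : Sm O (gC g) := Sm.ofReal (show Sm O g from A.g_sm)

/-- the data of `Flat5` for a jet -/
theorem exists_FD (H : Hy O g θ j Y) (a b : ℕ) : ∃ A : ℝ,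
    FD (DD O g) g (dz (gC g)) (dz (dz (gC g))) (dzb (dz (gC g))) (Y a b) (Y (a + 1) b)
      (Y a (b + 1)) (Y (a + 2) b) (Y (a + 1) (b + 1)) (Y a (b + 2)) A := by
  have A := H.dat
  have hO := A.open_
  have sg := sm_gC A
  have sG := sg.dz hO
  have sG1 := sG.dz hO
  have sG2 := sG.dzb hO
  have hD := isOpen_DD A
  obtain ⟨B0, hB0, hb0⟩ := bdd_on A A.g_sm.continuousOn
  obtain ⟨B1, hB1, hb1⟩ := bdd_on A sG.continuousOn
  obtain ⟨B2, hB2, hb2⟩ := bdd_on A sG1.continuousOn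
  obtain ⟨B3, hB3, hb3⟩ := bdd_on A sG2.continuousOn
  have hY : ∀ a b, ∀ z ∈ DD O g, HW (Y a b) (Y (a + 1) b z) (Y a (b + 1) z) z := by
    intro a b z hz
    have h1 : DifferentiableAt ℝ (Y a b) z :=
      ((H.jet.smooth a b z hz).contDiffAt (hD.mem_nhds hz)).differentiableAt (by simp)
    exact (hw_of h1).congr (H.jet.hdz a b z hz) (H.jet.hdzb a b z hz)
  have cY : ∀ a b, ContinuousOn (Y a b) (DD O g) := fun a b => (H.jet.smooth a b).continuousOn
  refine ⟨1 + B0 + B1 + B2 + B3, ?_⟩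
  refine
    { hD := hD
      hg := fun z hz => hz.2
      hcpt := fun t ht => cpt_ge A ht
      hgG := ?_
      hG := fun z hz => hw_of (sG.differentiableAt hO hz.1)
      hG12 := ?_
      cG11 := sG1.continuousOn.mono (DD_sub O g)
      cG12 := sG2.continuousOn.mono (DD_sub O g)
      hf := hY a b
      hf1 := hY (a + 1) b
      hf2 := hY a (b + 1)
      c11 := cY (a + 2) b
      c12 := cY (a + 1) (b + 1)
      c22 := cY a (b + 2)
      hA := by linarith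
      bg := fun z hz => by
        have := (le_abs_self (g z)).trans (hb0 z hz)
        linarith
      bG := fun z hz => by
        have := hb1 z hz
        linarith
      bG11 := fun z hz => by
        have := hb2 z hz
        linarith
      bG12 := fun z hz => by
        have := hb3 z hz
        linarith }
  · intro z hz
    have h1 : DifferentiableAt ℝ g z :=
      ((A.g_sm z hz.1).contDiffAt (hO.mem_nhds hz.1)).differentiableAt (by simp)
    exact (hw_of (sg.differentiableAt hO hz.1)).congr rfl (dzb_ofReal_eq h1)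
  · intro z hz
    have h1 : dzb (dz (gC g)) z = ((lap g z : ℝ) : ℂ) / 4 := by
      have h2 := lap_eq sg hO hz.1
      have h3 := lap_ofReal (u := g) A.g_sm hO hz.1
      have h4 := dz_dzb sg hO hz.1
      rw [← h4]
      have h5 : ((lap g z : ℝ) : ℂ) = 4 * dz (dzb (gC g)) z := h3.symm.trans h2
      rw [h5]
      ring
    rw [h1, map_div₀, Complex.conj_ofReal, map_ofNat]

theorem exists_FH (hHY : StmtHY) (hSec : StmtSec) (H : Hy O g θ j Y) {a b : ℕ}
    (hab : a + b + 1 = 2 * j) :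
    FH (DD O g) g (Y a b) (Y (a + 1) b) (Y a (b + 1)) (Y (a + 2) b) (Y (a + 1) (b + 1))
      (Y a (b + 2)) := by
  obtain ⟨C, hC, h⟩ := hHY O g θ j Y H
  have s := hSec O g θ j Y H
  have h0 := h a b 1 hab
  have h1 := h (a + 1) b 0 (by omega)
  have h2 := h a (b + 1) 0 (by omega)
  simp only [mul_one, mul_zero, pow_zero, div_one] at h0 h1 h2
  refine
    { i0 := h0.1
      i1 := h1.1
      i2 := h2.1
      i11 := s (a + 2) b (by omega)
      i12 := s (a + 1) (b + 1) (by omega)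
      i22 := s a (b + 2) (by omega)
      bd := ⟨C, 1, one_pos, fun t ht _ => ?_⟩ }
  rw [lay_eq]
  exact ⟨h0.2 t ht, h1.2 t ht, h2.2 t ht⟩

/-- flatness on full layers -/
theorem flat_lay (hHY : StmtHY) (hSec : StmtSec) (H : Hy O g θ j Y) {a b : ℕ}
    (hab : a + b + 1 = 2 * j) {c : ℝ} (hc : 0 < c) :
    Tendsto (fun h : ℝ => 1 / h * ∫ z in LL O g (c * h),
      gr g z * |‖Y (a + 1) b z‖ ^ 2 - ‖Y a (b + 1) z‖ ^ 2|) (𝓝[>] 0) (𝓝 0) := by
  obtain ⟨A, hA⟩ := exists_FD H a b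
  have T := (flat hA (exists_FH hHY hSec H hab) hc).const_mul 4
  rw [mul_zero] at T
  refine T.congr fun h => ?_
  rw [lay_eq, ← mul_assoc, mul_comm 4 (1 / h), mul_assoc, ← integral_const_mul]
  congr 1
  have hm : MeasurableSet (LL O g (c * h)) := by
    rw [← lay_eq]
    exact (isOpen_lay hA.hD hA.cg _).measurableSet
  refine setIntegral_congr_fun hm fun z hz => ?_
  have h1 : DifferentiableAt ℝ g z :=
    ((H.dat.g_sm z hz.1).contDiffAt (H.dat.open_.mem_nhds hz.1)).differentiableAt (by simp)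
  have h2 := norm_dz_ofReal_sq h1
  change 4 * (‖dz (fun z => (g z : ℂ)) z‖ ^ 2 * _) = _
  rw [h2]
  ring

/-- `R ≤ C (|∇g|² + g)` on `D` -/
theorem RR_le (A : Dat O g θ) : ∃ C : ℝ, 0 ≤ C ∧ ∀ z ∈ DD O g, RR g θ z ≤ C * (gr g z + g z) := by
  have hO := A.open_
  have cθx : ContinuousOn (fun z => dx θ z) O := by
    have := (Sm.dv (show Sm O θ from A.θ_sm) hO 1).continuousOn
    exact this
  have cθy : ContinuousOn (fun z => dy θ z) O := by
    have := (Sm.dv (show Sm O θ from A.θ_sm) hO Complex.I).continuousOn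
    exact this
  obtain ⟨Bx, hBx, hbx⟩ := bdd_on A cθx
  obtain ⟨By, hBy, hby⟩ := bdd_on A cθy
  obtain ⟨Bg, hBg, hbg⟩ := bdd_on A A.g_sm.continuousOn
  obtain ⟨c, hc, hcθ⟩ := bdd_below A A.θ_sm.continuousOn A.θ_pos
  refine ⟨2 / c + 2 * Bg * (Bx ^ 2 + By ^ 2) / c ^ 3, by positivity, fun z hz => ?_⟩
  have hθ := hcθ z hz
  have hθ0 : 0 < θ z := A.θ_pos z hz.1
  have hg0 : 0 < g z := hz.2
  have hgB : g z ≤ Bg := (le_abs_self _).trans (hbg z hz)
  have hx : dx θ z ^ 2 ≤ Bx ^ 2 := by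
    rw [← sq_abs]
    exact pow_le_pow_left₀ (abs_nonneg _) (hbx z hz) 2
  have hy : dy θ z ^ 2 ≤ By ^ 2 := by
    rw [← sq_abs]
    exact pow_le_pow_left₀ (abs_nonneg _) (hby z hz) 2
  have hgr : 0 ≤ gr g z := by unfold gr; positivity
  unfold RR
  set s := g z / θ z with hs
  have hs0 : 0 ≤ s := by positivity
  have e1 : (dx g z - s * dx θ z) ^ 2 + (dy g z - s * dy θ z) ^ 2 ≤
      2 * gr g z + 2 * s ^ 2 * (Bx ^ 2 + By ^ 2) := by
    have k1 : (dx g z - s * dx θ z) ^ 2 ≤ 2 * dx g z ^ 2 + 2 * (s * dx θ z) ^ 2 := by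
      nlinarith [sq_nonneg (dx g z + s * dx θ z)]
    have k2 : (dy g z - s * dy θ z) ^ 2 ≤ 2 * dy g z ^ 2 + 2 * (s * dy θ z) ^ 2 := by
      nlinarith [sq_nonneg (dy g z + s * dy θ z)]
    have k3 : (s * dx θ z) ^ 2 ≤ s ^ 2 * Bx ^ 2 := by
      rw [mul_pow]
      exact mul_le_mul_of_nonneg_left hx (by positivity)
    have k4 : (s * dy θ z) ^ 2 ≤ s ^ 2 * By ^ 2 := by
      rw [mul_pow]
      exact mul_le_mul_of_nonneg_left hy (by positivity)
    unfold gr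
    nlinarith
  have e2 : s ^ 2 ≤ g z * Bg / c ^ 2 := by
    rw [hs, div_pow, div_le_div_iff₀ (by positivity) (by positivity)]
    have k1 : c ^ 2 ≤ θ z ^ 2 := pow_le_pow_left₀ hc.le hθ 2
    have k2 : g z ^ 2 ≤ g z * Bg := by rw [sq]; exact mul_le_mul_of_nonneg_left hgB hg0.le
    exact mul_le_mul k2 k1 (by positivity) (by positivity)
  calc ((dx g z - s * dx θ z) ^ 2 + (dy g z - s * dy θ z) ^ 2) / θ z ≤
      (2 * gr g z + 2 * (g z * Bg / c ^ 2) * (Bx ^ 2 + By ^ 2)) / c := by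
        refine div_le_div₀ (by positivity) (e1.trans ?_) hc hθ
        have : 0 ≤ 2 * (Bx ^ 2 + By ^ 2) := by positivity
        nlinarith
    _ = 2 / c * gr g z + 2 * Bg * (Bx ^ 2 + By ^ 2) / c ^ 3 * g z := by
        field_simp
    _ ≤ _ := by
        have k1 : 0 ≤ 2 / c * g z := by positivity
        have k2 : 0 ≤ 2 * Bg * (Bx ^ 2 + By ^ 2) / c ^ 3 * gr g z := by positivity
        nlinarith

theorem RR_nonneg (A : Dat O g θ) {z : ℂ} (hz : z ∈ O) : 0 ≤ RR g θ z := by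
  unfold RR
  have := A.θ_pos z hz
  positivity

end

/-- **(7) flatness** -/
theorem stmtFlat (hHY : StmtHY) (hSec : StmtSec) : StmtFlat := by
  intro O g θ j Y τ δ Φ H P a b hab
  have A := H.dat
  have hD := isOpen_DD A
  obtain ⟨C₁, hC₁, hRR⟩ := RR_le A
  obtain ⟨Bθ, hBθ, hbθ⟩ := bdd_on A A.θ_sm.continuousOn
  set c : ℝ := Bθ + 1 with hc
  have hc0 : 0 < c := by linarith
  obtain ⟨C, hC, hy⟩ := hHY O g θ j Y H
  have h1 := hy (a + 1) b 0 (by omega)
  have h2 := hy a (b + 1) 0 (by omega)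
  simp only [mul_zero, pow_zero, div_one] at h1 h2
  have T1 := flat_lay hHY hSec H hab hc0
  have hτ : 0 ≤ 1 + τ := (P.d2nonneg 0).trans (P.d2le 0)
  -- the limit of the bound
  have T2 : Tendsto (fun h : ℝ => (1 + τ) * C₁ * (1 / h * (∫ z in LL O g (c * h),
      gr g z * |‖Y (a + 1) b z‖ ^ 2 - ‖Y a (b + 1) z‖ ^ 2|)) + (1 + τ) * C₁ * (2 * C * c ^ 2) * h)
      (𝓝[>] 0) (𝓝 0) := by
    have h3 : Tendsto (fun h : ℝ => (1 + τ) * C₁ * (2 * C * c ^ 2) * h) (𝓝[>] 0) (𝓝 0) := by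
      have : Tendsto (fun h : ℝ => (1 + τ) * C₁ * (2 * C * c ^ 2) * h) (𝓝 0)
          (𝓝 ((1 + τ) * C₁ * (2 * C * c ^ 2) * 0)) := (continuous_const_mul _).tendsto 0
      rw [mul_zero] at this
      exact this.mono_left nhdsWithin_le_nhds
    have h4 := (T1.const_mul ((1 + τ) * C₁)).add h3
    simpa using h4
  refine squeeze_zero_norm' ?_ T2
  filter_upwards [self_mem_nhdsWithin] with h hh
  have hh : (0 : ℝ) < h := hh
  have hcg : ContinuousOn g (DD O g) := A.g_sm.continuousOn.mono (DD_sub O g)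
  have hLm : MeasurableSet (LL O g (c * h)) := by
    rw [← lay_eq]
    exact (isOpen_lay hD hcg _).measurableSet
  have hLD : LL O g (c * h) ⊆ DD O g := fun z hz => ⟨hz.1, hz.2.1⟩
  set F : ℂ → ℝ := fun z => deriv (deriv Φ) (g z / (h * θ z)) * RR g θ z *
    (‖Y (a + 1) b z‖ ^ 2 - ‖Y a (b + 1) z‖ ^ 2) with hF
  have hF0 : ∀ z ∈ DD O g \ LL O g (c * h), ‖F z‖ = 0 := by
    intro z hz
    have hzD := hz.1
    have hθ0 : 0 < θ z := A.θ_pos z hzD.1
    have hθc : θ z ≤ c := by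
      have := (le_abs_self _).trans (hbθ z hzD)
      linarith
    have h5 : 1 ≤ g z / (h * θ z) := by
      rw [one_le_div (by positivity)]
      have h6 : c * h ≤ g z := by
        by_contra h7
        exact hz.2 ⟨hzD.1, hzD.2, not_le.1 h7⟩
      nlinarith
    simp [hF, P.d2zero' h5]
  have iS1 : IntegrableOn (fun z => ‖Y (a + 1) b z‖ ^ 2) (LL O g (c * h)) := h1.1.mono_set hLD
  have iS2 : IntegrableOn (fun z => ‖Y a (b + 1) z‖ ^ 2) (LL O g (c * h)) := h2.1.mono_set hLD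
  have cY : ∀ a b, ContinuousOn (Y a b) (DD O g) := fun a b => (H.jet.smooth a b).continuousOn
  have hgrc : ContinuousOn (gr g) O := by
    have e1 := (Sm.dv (show Sm O g from A.g_sm) A.open_ 1).continuousOn
    have e2 := (Sm.dv (show Sm O g from A.g_sm) A.open_ Complex.I).continuousOn
    exact (e1.pow 2).add (e2.pow 2)
  obtain ⟨Bgr, hBgr, hbgr⟩ := bdd_on A hgrc
  have iG : IntegrableOn (fun z => gr g z * |‖Y (a + 1) b z‖ ^ 2 - ‖Y a (b + 1) z‖ ^ 2|)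
      (LL O g (c * h)) := by
    refine ((iS1.add iS2).const_mul Bgr).mono' ?_ ?_
    · refine ContinuousOn.aestronglyMeasurable ?_ hLm
      exact (hgrc.mono fun z hz => hz.1).mul ((((cY (a + 1) b).mono hLD).norm.pow 2).sub
        (((cY a (b + 1)).mono hLD).norm.pow 2)).abs
    · refine (ae_restrict_iff' hLm).2 (Eventually.of_forall fun z hz => ?_)
      rw [norm_mul, Real.norm_eq_abs |_|, abs_abs]
      refine mul_le_mul (hbgr z (hLD hz)) ?_ (abs_nonneg _) hBgr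
      simp only [Pi.add_apply]
      rw [abs_le]
      constructor <;> nlinarith [sq_nonneg ‖Y (a + 1) b z‖, sq_nonneg ‖Y a (b + 1) z‖]
  have hpt : ∀ z ∈ LL O g (c * h), ‖F z‖ ≤
      (1 + τ) * C₁ * (gr g z * |‖Y (a + 1) b z‖ ^ 2 - ‖Y a (b + 1) z‖ ^ 2|) +
        (1 + τ) * C₁ * (c * h) * (‖Y (a + 1) b z‖ ^ 2 + ‖Y a (b + 1) z‖ ^ 2) := by
    intro z hz
    have hzD := hLD hz
    have hR := hRR z hzD
    have hR0 := RR_nonneg A hzD.1
    have hg0 : 0 < g z := hzD.2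
    have hgc : g z ≤ c * h := hz.2.2.le
    have hgr0 : 0 ≤ gr g z := by unfold gr; positivity
    set q := |‖Y (a + 1) b z‖ ^ 2 - ‖Y a (b + 1) z‖ ^ 2| with hq
    have hq0 : 0 ≤ q := abs_nonneg _
    have hq1 : q ≤ ‖Y (a + 1) b z‖ ^ 2 + ‖Y a (b + 1) z‖ ^ 2 := by
      rw [hq, abs_le]
      constructor <;> nlinarith [sq_nonneg ‖Y (a + 1) b z‖, sq_nonneg ‖Y a (b + 1) z‖]
    have e1 : ‖F z‖ = deriv (deriv Φ) (g z / (h * θ z)) * RR g θ z * q := by
      rw [hF]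
      simp only
      rw [norm_mul, norm_mul, Real.norm_eq_abs, Real.norm_eq_abs, Real.norm_eq_abs,
        abs_of_nonneg (P.d2nonneg _), abs_of_nonneg hR0]
    rw [e1]
    calc deriv (deriv Φ) (g z / (h * θ z)) * RR g θ z * q ≤
        (1 + τ) * (C₁ * (gr g z + g z)) * q :=
          mul_le_mul_of_nonneg_right (mul_le_mul (P.d2le _) hR hR0 hτ) hq0
      _ = (1 + τ) * C₁ * (gr g z * q) + (1 + τ) * C₁ * (g z * q) := by ring
      _ ≤ (1 + τ) * C₁ * (gr g z * q) + (1 + τ) * C₁ *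
            ((c * h) * (‖Y (a + 1) b z‖ ^ 2 + ‖Y a (b + 1) z‖ ^ 2)) := by
          have k1 : g z * q ≤ (c * h) * (‖Y (a + 1) b z‖ ^ 2 + ‖Y a (b + 1) z‖ ^ 2) :=
            mul_le_mul hgc hq1 hq0 (by positivity)
          have k2 : 0 ≤ (1 + τ) * C₁ := mul_nonneg hτ hC₁
          exact add_le_add_right (mul_le_mul_of_nonneg_left k1 k2) _
      _ = _ := by ring
  have ib1 : IntegrableOn (fun z => (1 + τ) * C₁ *
      (gr g z * |‖Y (a + 1) b z‖ ^ 2 - ‖Y a (b + 1) z‖ ^ 2|)) (LL O g (c * h)) := iG.const_mul _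
  have ib2 : IntegrableOn (fun z => (1 + τ) * C₁ * (c * h) *
      (‖Y (a + 1) b z‖ ^ 2 + ‖Y a (b + 1) z‖ ^ 2)) (LL O g (c * h)) :=
    (iS1.add iS2).const_mul _
  have hle : ‖∫ z in DD O g, F z‖ ≤
      (1 + τ) * C₁ * (∫ z in LL O g (c * h),
        gr g z * |‖Y (a + 1) b z‖ ^ 2 - ‖Y a (b + 1) z‖ ^ 2|) +
        (1 + τ) * C₁ * (c * h) * (2 * C * (c * h)) := by
    refine (norm_integral_le_integral_norm _).trans ?_
    have h5 := setIntegral_eq_of_subset_of_forall_sdiff_eq_zero (μ := volume)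
      (f := fun z => ‖F z‖) hD.measurableSet hLD hF0
    rw [h5]
    have h6 : ∫ z in LL O g (c * h), ‖F z‖ ≤ ∫ z in LL O g (c * h), ((1 + τ) * C₁ *
        (gr g z * |‖Y (a + 1) b z‖ ^ 2 - ‖Y a (b + 1) z‖ ^ 2|) +
        (1 + τ) * C₁ * (c * h) * (‖Y (a + 1) b z‖ ^ 2 + ‖Y a (b + 1) z‖ ^ 2)) := by
      refine integral_mono_of_nonneg (Eventually.of_forall fun z => norm_nonneg _)
        (ib1.add ib2) ?_
      exact (ae_restrict_iff' hLm).2 (Eventually.of_forall hpt)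
    refine h6.trans ?_
    rw [integral_add ib1 ib2, integral_const_mul, integral_const_mul, integral_add iS1 iS2]
    have k1 := h1.2 (c * h) (by positivity)
    have k2 := h2.2 (c * h) (by positivity)
    have k3 : 0 ≤ (1 + τ) * C₁ * (c * h) := mul_nonneg (mul_nonneg hτ hC₁) (by positivity)
    have k4 : (1 + τ) * C₁ * (c * h) * ((∫ z in LL O g (c * h), ‖Y (a + 1) b z‖ ^ 2) +
        ∫ z in LL O g (c * h), ‖Y a (b + 1) z‖ ^ 2) ≤
        (1 + τ) * C₁ * (c * h) * (2 * C * (c * h)) :=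
      mul_le_mul_of_nonneg_left (by linarith) k3
    linarith
  rw [norm_mul, Real.norm_eq_abs, abs_of_nonneg (by positivity)]
  calc 1 / h * ‖∫ z in DD O g, F z‖ ≤ 1 / h * ((1 + τ) * C₁ * (∫ z in LL O g (c * h),
        gr g z * |‖Y (a + 1) b z‖ ^ 2 - ‖Y a (b + 1) z‖ ^ 2|) +
        (1 + τ) * C₁ * (c * h) * (2 * C * (c * h))) :=
        mul_le_mul_of_nonneg_left hle (by positivity)
    _ = _ := by
        field_simp

end Pool.Agent.Lib.QNL.FlatE
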