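import Pool.Agent.Lib.QNL.ELimF
import Pool.Agent.Lib.QNL.FlatE
import Pool.Agent.Lib.QNL.ECross
import Pool.Agent.Lib.QNL.ELead
import Pool.Agent.Lib.QNL.EEndsU
import Pool.Agent.Lib.QNL.BI

/-!
Group E, final theorem: the layer inequality `StmtBI`, unconditional.
-/

set_option autoImplicit false

namespace Pool.Agent.Lib.QNL.EFin

/-- **the layer inequality (BI_j), for all `j`** -/
theorem stmtBI : StmtBI :=
  BI.stmtBI ELimF.stmtLimF
    (ELead.stmtLead (FlatE.stmtFlat Hardy.stmtHY EEnds.stmtSec) ECross.cross)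

end Pool.Agent.Lib.QNL.EFin
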