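import Pool.Agent.Lib.QNL.Low

/-!
Group E: the weights `ψ(σ_h) B`, `σ_h = g / (h θ)`: `StmtPs`, `StmtPs1`.
-/

set_option autoImplicit false

namespace Pool.Agent.Lib.QNL.EPs

open MeasureTheory Filter Topology Set
open scoped ContDiff ComplexConjugate Nat
open Pool.Agent.Lib.QNL.Je Pool.Agent.Lib.QNL.ES Pool.Agent.Lib.QNL.FId
open Pool.Agent.Lib.QNL.Wt Pool.Agent.Lib.QNL.Low

section gen
variable {E F : Type*} [NormedAddCommGroup E] [NormedSpace ℝ E]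
variable [NormedAddCommGroup F] [NormedSpace ℝ F]

/-- the derivatives of a smooth function are bounded on compact sets -/
theorem bd_iter {f : F → E} {O K : Set F} (hO : IsOpen O) (hK : IsCompact K) (hKO : K ⊆ O)
    (hf : ContDiffOn ℝ ∞ f O) (i : ℕ) :
    ∃ M : ℝ, 0 ≤ M ∧ ∀ z ∈ K, ‖iteratedFDeriv ℝ i f z‖ ≤ M := by
  have h1 : ContinuousOn (iteratedFDerivWithin ℝ i f O) O :=
    hf.continuousOn_iteratedFDerivWithin (by exact_mod_cast le_top) hO.uniqueDiffOn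
  have h2 : ContinuousOn (iteratedFDeriv ℝ i f) K :=
    (h1.congr (iteratedFDerivWithin_of_isOpen i hO).symm).mono hKO
  obtain ⟨M, hM⟩ := hK.exists_bound_of_continuousOn h2
  exact ⟨max M 0, le_max_right _ _, fun z hz => (hM z hz).trans (le_max_left _ _)⟩

/-- uniform version -/
theorem bd_iter_le {f : F → E} {O K : Set F} (hO : IsOpen O) (hK : IsCompact K) (hKO : K ⊆ O)
    (hf : ContDiffOn ℝ ∞ f O) (n : ℕ) :
    ∃ M : ℝ, 1 ≤ M ∧ ∀ i, i ≤ n → ∀ z ∈ K, ‖iteratedFDeriv ℝ i f z‖ ≤ M := by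
  choose M hM0 hM using bd_iter hO hK hKO hf
  refine ⟨1 + ∑ i ∈ Finset.range (n + 1), M i, ?_, fun i hi z hz => ?_⟩
  · have : 0 ≤ ∑ i ∈ Finset.range (n + 1), M i := Finset.sum_nonneg fun i _ => hM0 i
    linarith
  · have h1 : M i ≤ ∑ i ∈ Finset.range (n + 1), M i :=
      Finset.single_le_sum (f := M) (fun i _ => hM0 i) (Finset.mem_range.2 (by omega))
    linarith [hM i z hz]

end gen

/-- the derivatives of a profile which is constant near `±∞` are bounded -/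
theorem bd_prof {ψ : ℝ → ℂ} (hψ : ContDiff ℝ ∞ ψ) {δ : ℝ} {p : ℂ} (h0 : ∀ s, s ≤ δ → ψ s = 0)
    (h1 : ∀ s, 1 ≤ s → ψ s = p) (n : ℕ) :
    ∃ N : ℝ, 0 ≤ N ∧ ∀ i, i ≤ n → ∀ s, ‖iteratedFDeriv ℝ i ψ s‖ ≤ N := by
  obtain ⟨N, hN1, hN⟩ := bd_iter_le (O := univ) isOpen_univ (isCompact_Icc (a := δ) (b := 1))
    (subset_univ _) hψ.contDiffOn n
  have key : ∀ (c : ℂ) (i : ℕ) (s : ℝ), ψ =ᶠ[𝓝 s] (fun _ => c) →
      ‖iteratedFDeriv ℝ i ψ s‖ ≤ ‖c‖ := by
    intro c i s hs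
    rw [(hs.iteratedFDeriv (𝕜 := ℝ) i).eq_of_nhds]
    by_cases hi : i = 0
    · subst hi
      rw [norm_iteratedFDeriv_zero]
    · rw [iteratedFDeriv_const_of_ne hi]
      simp
  refine ⟨N + ‖p‖, by positivity, fun i hi s => ?_⟩
  rcases lt_or_ge s δ with hs | hs
  · have : ψ =ᶠ[𝓝 s] (fun _ => (0 : ℂ)) := by
      filter_upwards [Iio_mem_nhds hs] with t ht using h0 t (le_of_lt ht)
    have h2 := key 0 i s this
    rw [norm_zero] at h2
    have : 0 ≤ ‖p‖ := norm_nonneg _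
    linarith
  · rcases lt_or_ge 1 s with hs1 | hs1
    · have : ψ =ᶠ[𝓝 s] (fun _ => p) := by
        filter_upwards [Ioi_mem_nhds hs1] with t ht using h1 t (le_of_lt ht)
      have h2 := key p i s this
      linarith
    · have h2 := hN i hi s ⟨hs, hs1⟩
      have : 0 ≤ ‖p‖ := norm_nonneg _
      linarith

section main
variable {O : Set ℂ} {g θ : ℂ → ℝ} {ψ : ℝ → ℝ} {δ p h : ℝ} {B : ℂ → ℂ}

theorem Kbar_sub : {z | z ∈ O ∧ 0 ≤ g z} ⊆ O := fun _ hz => hz.1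

theorem DD_open (A : Dat O g θ) : IsOpen (DD O g) :=
  A.g_sm.continuousOn.isOpen_inter_preimage A.open_ isOpen_Ioi

theorem open_gt (A : Dat O g θ) (h : ℝ) : IsOpen {w | w ∈ O ∧ h * θ w < g w} := by
  have hc : ContinuousOn (fun w => g w - h * θ w) O :=
    A.g_sm.continuousOn.sub (continuousOn_const.mul A.θ_sm.continuousOn)
  have h1 := hc.isOpen_inter_preimage A.open_ (isOpen_Ioi (a := (0 : ℝ)))
  have h2 : {w | w ∈ O ∧ h * θ w < g w} = O ∩ (fun w => g w - h * θ w) ⁻¹' Ioi 0 := by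
    ext w
    simp only [mem_ofPred_eq, mem_inter_iff, mem_preimage, mem_Ioi, sub_pos]
  rw [h2]
  exact h1

/-- the closed layer -/
theorem cpt_ge (A : Dat O g θ) (hδ : 0 < δ) (hh : 0 < h) :
    IsCompact {z | z ∈ O ∧ δ * (h * θ z) ≤ g z} := by
  have h1 : {z | z ∈ O ∧ δ * (h * θ z) ≤ g z} =
      {z | z ∈ O ∧ 0 ≤ g z} ∩ (fun z => g z - δ * (h * θ z)) ⁻¹' (Ici 0) := by
    ext z
    simp only [mem_ofPred_eq, mem_inter_iff, mem_preimage, mem_Ici, sub_nonneg]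
    constructor
    · rintro ⟨hz, hz1⟩
      have := mul_pos hδ (mul_pos hh (A.θ_pos z hz))
      exact ⟨⟨hz, by linarith⟩, hz1⟩
    · rintro ⟨⟨hz, _⟩, hz1⟩
      exact ⟨hz, hz1⟩
  rw [h1]
  have hc : ContinuousOn (fun z => g z - δ * (h * θ z)) {z | z ∈ O ∧ 0 ≤ g z} :=
    (A.g_sm.continuousOn.sub (continuousOn_const.mul
      (continuousOn_const.mul A.θ_sm.continuousOn))).mono Kbar_sub
  exact A.cpt.of_isClosed_subset (hc.preimage_isClosed_of_isClosed A.cpt.isClosed isClosed_Ici)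
    inter_subset_left

theorem cpt_layer (A : Dat O g θ) (hδ : 0 < δ) (hh : 0 < h) :
    IsCompact {z | z ∈ O ∧ δ * (h * θ z) ≤ g z ∧ g z ≤ h * θ z} := by
  have h1 : {z | z ∈ O ∧ δ * (h * θ z) ≤ g z ∧ g z ≤ h * θ z} =
      {z | z ∈ O ∧ δ * (h * θ z) ≤ g z} ∩ (fun z => h * θ z - g z) ⁻¹' (Ici 0) := by
    ext z
    simp only [mem_ofPred_eq, mem_inter_iff, mem_preimage, mem_Ici, sub_nonneg]
    tauto
  rw [h1]
  have h2 := cpt_ge A hδ hh
  have hc : ContinuousOn (fun z => h * θ z - g z) {z | z ∈ O ∧ δ * (h * θ z) ≤ g z} :=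
    ((continuousOn_const.mul A.θ_sm.continuousOn).sub A.g_sm.continuousOn).mono
      fun z hz => hz.1
  exact h2.of_isClosed_subset (hc.preimage_isClosed_of_isClosed h2.isClosed isClosed_Ici)
    inter_subset_left

/-- the quotient `g / θ` -/
theorem q_smooth (A : Dat O g θ) : ContDiffOn ℝ ∞ (fun z => g z / θ z) O :=
  A.g_sm.div A.θ_sm fun z hz => (A.θ_pos z hz).ne'

theorem comp_smooth (A : Dat O g θ) (hψ : ContDiff ℝ ∞ ψ) (hh : 0 < h) :
    ContDiffOn ℝ ∞ (fun z => ((ψ (g z / (h * θ z)) : ℝ) : ℂ)) O := by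
  have h1 : ContDiffOn ℝ ∞ (fun z => g z / (h * θ z)) O :=
    A.g_sm.div (contDiffOn_const.mul A.θ_sm) fun z hz => (mul_pos hh (A.θ_pos z hz)).ne'
  exact Complex.ofRealCLM.contDiff.comp_contDiffOn (hψ.comp_contDiffOn h1)

/-- the derivatives of `ψ(σ_h)` -/
theorem comp_bd (A : Dat O g θ) (hψ : ContDiff ℝ ∞ ψ) (h0 : ∀ s, s ≤ δ → ψ s = 0)
    (h1 : ∀ s, 1 ≤ s → ψ s = p) (n : ℕ) :
    ∃ M : ℝ, 0 ≤ M ∧ ∀ h, 0 < h → h ≤ 1 → ∀ z ∈ O, 0 < g z →
      ‖iteratedFDeriv ℝ n (fun z => ((ψ (g z / (h * θ z)) : ℝ) : ℂ)) z‖ ≤ M / g z ^ n := by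
  have hψc : ContDiff ℝ ∞ (fun s => ((ψ s : ℝ) : ℂ)) := Complex.ofRealCLM.contDiff.comp hψ
  obtain ⟨N, hN0, hN⟩ := bd_prof hψc (δ := δ) (p := (p : ℂ))
    (fun s hs => by rw [h0 s hs]; simp) (fun s hs => by rw [h1 s hs]) n
  obtain ⟨M, hM1, hM⟩ := bd_iter_le A.open_ A.cpt Kbar_sub (q_smooth A) n
  obtain ⟨Θ, hΘ0, hΘ⟩ := bd_iter A.open_ A.cpt Kbar_sub A.θ_sm 0
  have hΘ' : ∀ z ∈ O, 0 < g z → θ z ≤ Θ := by
    intro z hz hg
    have := hΘ z ⟨hz, hg.le⟩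
    rw [norm_iteratedFDeriv_zero] at this
    exact (le_abs_self _).trans this
  refine ⟨n ! * N * (M * Θ) ^ n + N, by positivity, fun h hh hh1 z hz hg => ?_⟩
  have hgn : 0 < g z ^ n := pow_pos hg n
  have hθ := A.θ_pos z hz
  set σ : ℂ → ℝ := fun z => g z / (h * θ z) with hσ
  have hσs : ContDiffOn ℝ ∞ σ O :=
    A.g_sm.div (contDiffOn_const.mul A.θ_sm) fun z hz => (mul_pos hh (A.θ_pos z hz)).ne'
  by_cases hn : n = 0
  · subst hn
    rw [norm_iteratedFDeriv_zero]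
    have := hN 0 le_rfl (g z / (h * θ z))
    rw [norm_iteratedFDeriv_zero] at this
    refine this.trans ?_
    simp only [pow_zero, div_one, mul_one, Nat.factorial_zero, Nat.cast_one, one_mul]
    linarith
  rcases lt_or_ge (h * θ z) (g z) with hcase | hcase
  · -- locally constant
    have hopen := open_gt A h
    have hev : (fun z => ((ψ (g z / (h * θ z)) : ℝ) : ℂ)) =ᶠ[𝓝 z] fun _ => (p : ℂ) := by
      filter_upwards [hopen.mem_nhds ⟨hz, hcase⟩] with w hw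
      rw [h1]
      rw [le_div_iff₀ (mul_pos hh (A.θ_pos w hw.1)), one_mul]
      exact hw.2.le
    rw [(hev.iteratedFDeriv (𝕜 := ℝ) n).eq_of_nhds, iteratedFDeriv_const_of_ne hn]
    simp only [Pi.zero_apply, norm_zero]
    positivity
  · have hcomp := norm_iteratedFDerivWithin_comp_le (𝕜 := ℝ) (g := fun s => ((ψ s : ℝ) : ℂ))
      (f := σ) (n := n) (s := O) (t := univ) (x := z) (N := ∞) hψc.contDiffOn hσs
      (by exact_mod_cast le_top) uniqueDiffOn_univ A.open_.uniqueDiffOn (mapsTo_univ _ _) hz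
      (C := N) (D := M / h)
      (fun i hi => by rw [iteratedFDerivWithin_univ]; exact hN i hi _)
      (fun i hi1 hi => by
        rw [iteratedFDerivWithin_of_isOpen i A.open_ hz]
        have hL : ‖(h⁻¹ : ℝ) • ContinuousLinearMap.id ℝ ℝ‖ ≤ h⁻¹ := by
          rw [norm_smul, Real.norm_of_nonneg (by positivity)]
          exact mul_le_of_le_one_right (by positivity) ContinuousLinearMap.norm_id_le
        have e : σ = ((h⁻¹ : ℝ) • ContinuousLinearMap.id ℝ ℝ) ∘ fun z => g z / θ z := by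
          funext w
          simp only [hσ, Function.comp_apply, smul_apply,
            ContinuousLinearMap.coe_id', id_eq, smul_eq_mul]
          rw [div_mul_eq_div_div, div_right_comm, div_eq_inv_mul]
        rw [e]
        refine (((h⁻¹ : ℝ) • ContinuousLinearMap.id ℝ ℝ).norm_iteratedFDeriv_comp_left
          (((q_smooth A) z hz).contDiffAt (A.open_.mem_nhds hz)) (by exact_mod_cast le_top)).trans ?_
        have h3 := hM i hi z ⟨hz, hg.le⟩
        have h4 : (1 : ℝ) ≤ M / h := by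
          rw [le_div_iff₀ hh]
          linarith
        calc ‖(h⁻¹ : ℝ) • ContinuousLinearMap.id ℝ ℝ‖ *
              ‖iteratedFDeriv ℝ i (fun z => g z / θ z) z‖ ≤ h⁻¹ * M := by gcongr
          _ = (M / h) ^ 1 := by rw [pow_one]; ring
          _ ≤ (M / h) ^ i := pow_le_pow_right₀ h4 hi1)
    rw [iteratedFDerivWithin_of_isOpen n A.open_ hz] at hcomp
    have h5 : M / h ≤ M * Θ / g z := by
      rw [div_le_div_iff₀ hh hg]
      have h6 : g z ≤ Θ * h := by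
        calc g z ≤ h * θ z := hcase
          _ ≤ h * Θ := by gcongr; exact hΘ' z hz hg
          _ = Θ * h := mul_comm _ _
      calc M * g z ≤ M * (Θ * h) := by gcongr
        _ = M * Θ * h := by ring
    calc _ ≤ n ! * N * (M / h) ^ n := hcomp
      _ ≤ n ! * N * (M * Θ / g z) ^ n := by gcongr
      _ = n ! * N * (M * Θ) ^ n / g z ^ n := by rw [div_pow]; ring
      _ ≤ (n ! * N * (M * Θ) ^ n + N) / g z ^ n := by gcongr; linarith

/-- the derivatives of `ψ(σ_h) B` -/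
theorem prod_bd (A : Dat O g θ) (hψ : ContDiff ℝ ∞ ψ) (h0 : ∀ s, s ≤ δ → ψ s = 0)
    (h1 : ∀ s, 1 ≤ s → ψ s = p) (hB : ContDiffOn ℝ ∞ B O) (n : ℕ) :
    ∃ M : ℝ, 0 ≤ M ∧ ∀ h, 0 < h → h ≤ 1 → ∀ z ∈ O, 0 < g z →
      ‖iteratedFDeriv ℝ n (ps ψ B O g θ h) z‖ ≤ M / g z ^ n := by
  choose M hM0 hM using comp_bd A hψ h0 h1
  obtain ⟨Bb, hBb1, hBb⟩ := bd_iter_le A.open_ A.cpt Kbar_sub hB n
  obtain ⟨G, hG0, hG⟩ := bd_iter A.open_ A.cpt Kbar_sub A.g_sm 0
  have hG' : ∀ z ∈ O, 0 < g z → g z ≤ G := by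
    intro z hz hg
    have := hG z ⟨hz, hg.le⟩
    rw [norm_iteratedFDeriv_zero] at this
    exact (le_abs_self _).trans this
  refine ⟨∑ i ∈ Finset.range (n + 1), (n.choose i : ℝ) * (M i * G ^ (n - i)) * Bb,
    Finset.sum_nonneg fun i _ => by have := hM0 i; positivity, fun h hh hh1 z hz hg => ?_⟩
  have hev : ps ψ B O g θ h =ᶠ[𝓝 z] fun z => ((ψ (g z / (h * θ z)) : ℝ) : ℂ) * B z := by
    filter_upwards [A.open_.mem_nhds hz] with w hw
    exact indicator_of_mem hw _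
  rw [(hev.iteratedFDeriv (𝕜 := ℝ) n).eq_of_nhds, ← iteratedFDerivWithin_of_isOpen n A.open_ hz]
  refine (norm_iteratedFDerivWithin_mul_le (𝕜 := ℝ) (N := ∞) (comp_smooth A hψ hh) hB
    A.open_.uniqueDiffOn hz (by exact_mod_cast le_top)).trans ?_
  rw [Finset.sum_div]
  refine Finset.sum_le_sum fun i hi => ?_
  rw [iteratedFDerivWithin_of_isOpen i A.open_ hz, iteratedFDerivWithin_of_isOpen (n - i) A.open_ hz]
  have h3 := hM i h hh hh1 z hz hg
  have h4 := hBb (n - i) (by omega) z ⟨hz, hg.le⟩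
  have h5 : M i / g z ^ i ≤ M i * G ^ (n - i) / g z ^ n := by
    rw [Finset.mem_range] at hi
    rw [div_le_div_iff₀ (pow_pos hg i) (pow_pos hg n)]
    have h6 : g z ^ n = g z ^ (n - i) * g z ^ i := by rw [← pow_add]; congr 1; omega
    rw [h6]
    have h7 : g z ^ (n - i) ≤ G ^ (n - i) := pow_le_pow_left₀ hg.le (hG' z hz hg) _
    have h8 := hM0 i
    calc M i * (g z ^ (n - i) * g z ^ i) ≤ M i * (G ^ (n - i) * g z ^ i) := by gcongr
      _ = M i * G ^ (n - i) * g z ^ i := by ring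
  have h9 : 0 ≤ M i * G ^ (n - i) / g z ^ n := by have := hM0 i; positivity
  calc (n.choose i : ℝ) * ‖iteratedFDeriv ℝ i (fun z => ((ψ (g z / (h * θ z)) : ℝ) : ℂ)) z‖ *
        ‖iteratedFDeriv ℝ (n - i) B z‖
      ≤ (n.choose i : ℝ) * (M i * G ^ (n - i) / g z ^ n) * Bb := by
        gcongr
        exact h3.trans h5
    _ = (n.choose i : ℝ) * (M i * G ^ (n - i)) * Bb / g z ^ n := by ring

theorem ps_zero (A : Dat O g θ) (hh : 0 < h) (h0 : ∀ s, s ≤ δ → ψ s = 0) {z : ℂ}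
    (hz : z ∉ {z | z ∈ O ∧ δ * (h * θ z) ≤ g z}) : ps ψ B O g θ h z = 0 := by
  by_cases hzO : z ∈ O
  · have h1 : g z ≤ δ * (h * θ z) := by
      by_contra hcon
      exact hz ⟨hzO, (not_le.1 hcon).le⟩
    unfold ps
    rw [indicator_of_mem hzO, h0]
    · simp
    · rw [div_le_iff₀ (mul_pos hh (A.θ_pos z hzO))]
      exact h1
  · exact indicator_of_notMem hzO _

theorem ps_smooth (A : Dat O g θ) (hψ : ContDiff ℝ ∞ ψ) (hδ : 0 < δ) (hh : 0 < h)
    (h0 : ∀ s, s ≤ δ → ψ s = 0) (hB : ContDiffOn ℝ ∞ B O) :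
    ContDiff ℝ ∞ (ps ψ B O g θ h) := by
  have h1 : ContDiffOn ℝ ∞ (ps ψ B O g θ h) O := by
    refine ((comp_smooth A hψ hh).mul hB).congr fun z hz => ?_
    exact indicator_of_mem hz _
  exact contDiff_of_cpt A.open_ (cpt_ge A hδ hh) (fun z hz => hz.1) h1
    fun z hz => ps_zero A hh h0 hz

theorem ge_sub_DD (A : Dat O g θ) (hδ : 0 < δ) (hh : 0 < h) :
    {z | z ∈ O ∧ δ * (h * θ z) ≤ g z} ⊆ DD O g := fun z hz =>
  ⟨hz.1, lt_of_lt_of_le (mul_pos hδ (mul_pos hh (A.θ_pos z hz.1))) hz.2⟩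

/-- **`StmtPs`** -/
theorem stmtPs : StmtPs := by
  intro O g θ ψ B δ A hψ hδ h0 h1 hB
  choose M hM0 hM using prod_bd A hψ h0 h1 hB
  obtain ⟨Θ, hΘ0, hΘ⟩ := bd_iter A.open_ A.cpt Kbar_sub A.θ_sm 0
  refine ⟨M, Θ + 1, by linarith, fun h hh hh1 => ?_⟩
  have hcl : tsupport (ps ψ B O g θ h) ⊆
      {z | z ∈ O ∧ δ * (h * θ z) ≤ g z ∧ g z ≤ h * θ z} := by
    refine closure_minimal (fun z hz => ?_) (cpt_layer A hδ hh).isClosed
    by_contra hcon
    refine hz ?_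
    by_cases hz1 : z ∈ {z | z ∈ O ∧ δ * (h * θ z) ≤ g z}
    · have h2 : ¬ g z ≤ h * θ z := fun h3 => hcon ⟨hz1.1, hz1.2, h3⟩
      unfold ps
      rw [indicator_of_mem hz1.1, h1]
      · simp
      · rw [le_div_iff₀ (mul_pos hh (A.θ_pos z hz1.1)), one_mul]
        exact (not_le.1 h2).le
    · exact ps_zero A hh h0 hz1
  refine ⟨ps_smooth A hψ hδ hh h0 hB, (cpt_layer A hδ hh).of_isClosed_subset
    (isClosed_tsupport _) hcl, fun z hz => ?_, fun i z hz => ?_⟩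
  · obtain ⟨hz1, hz2, hz3⟩ := hcl hz
    have hzD : z ∈ DD O g := ge_sub_DD A hδ hh ⟨hz1, hz2⟩
    refine ⟨hzD, ?_⟩
    have h2 := hΘ z ⟨hz1, hzD.2.le⟩
    rw [norm_iteratedFDeriv_zero] at h2
    have h3 : θ z ≤ Θ := (le_abs_self _).trans h2
    calc g z ≤ h * θ z := hz3
      _ ≤ h * Θ := by gcongr
      _ < (Θ + 1) * h := by nlinarith
  · rw [zero_add]
    exact hM i h hh hh1 z hz.1 hz.2

/-- **`StmtPs1`** -/
theorem stmtPs1 : StmtPs1 := by
  intro O g θ ψ δ p A hψ hδ h0 h1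
  have hB : ContDiffOn ℝ ∞ (fun _ : ℂ => (1 : ℂ)) O := contDiffOn_const
  choose M hM0 hM using prod_bd A hψ h0 h1 hB
  obtain ⟨Θ, hΘ0, hΘ⟩ := bd_iter A.open_ A.cpt Kbar_sub A.θ_sm 0
  obtain ⟨G, hG0, hG⟩ := bd_iter A.open_ A.cpt Kbar_sub A.g_sm 0
  have hG' : ∀ z ∈ DD O g, g z < G + 1 := by
    intro z hz
    have := hG z ⟨hz.1, hz.2.le⟩
    rw [norm_iteratedFDeriv_zero] at this
    have h2 : g z ≤ G := (le_abs_self _).trans this
    linarith
  refine ⟨fun i => M i + M (i + 1), Θ + 1, G + 1, by linarith, hG', fun h hh hh1 => ?_⟩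
  set K : ℂ → ℂ := ps ψ (fun _ => 1) O g θ h with hK
  have hKs : ContDiff ℝ ∞ K := ps_smooth A hψ hδ hh h0 hB
  have hcl : tsupport K ⊆ {z | z ∈ O ∧ δ * (h * θ z) ≤ g z} := by
    refine closure_minimal (fun z hz => ?_) (cpt_ge A hδ hh).isClosed
    by_contra hcon
    exact hz (ps_zero A hh h0 hcon)
  have hKc : HasCompactSupport K :=
    (cpt_ge A hδ hh).of_isClosed_subset (isClosed_tsupport _) hcl
  have hW : Wgt (DD O g) g (G + 1) 0 M K := by
    refine ⟨hKs, hKc, fun z hz => ?_, fun i z hz => ?_⟩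
    · have hzD := ge_sub_DD A hδ hh (hcl hz)
      exact ⟨hzD, hG' z hzD⟩
    · rw [zero_add]
      exact hM i h hh hh1 z hz.1 hz.2
  -- the support of the derivatives
  have hloc : ∀ z, z ∉ {z | z ∈ O ∧ δ * (h * θ z) ≤ g z ∧ g z ≤ h * θ z} →
      ∃ c : ℂ, K =ᶠ[𝓝 z] fun _ => c := by
    intro z hz
    by_cases hz1 : z ∈ {z | z ∈ O ∧ δ * (h * θ z) ≤ g z}
    · refine ⟨(p : ℂ), ?_⟩
      have h2 : h * θ z < g z := by
        by_contra h3
        exact hz ⟨hz1.1, hz1.2, not_lt.1 h3⟩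
      have hopen := open_gt A h
      filter_upwards [hopen.mem_nhds ⟨hz1.1, h2⟩] with w hw
      rw [hK]
      unfold ps
      rw [indicator_of_mem hw.1, h1, mul_one]
      rw [le_div_iff₀ (mul_pos hh (A.θ_pos w hw.1)), one_mul]
      exact hw.2.le
    · refine ⟨0, ?_⟩
      filter_upwards [(cpt_ge A hδ hh).isClosed.isOpen_compl.mem_nhds hz1] with w hw
      exact ps_zero A hh h0 hw
  have hfd : ∀ z, z ∉ {z | z ∈ O ∧ δ * (h * θ z) ≤ g z ∧ g z ≤ h * θ z} →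
      fderiv ℝ K z = 0 := by
    intro z hz
    obtain ⟨c, hc⟩ := hloc z hz
    rw [hc.fderiv_eq]
    simp
  have hsubL : {z | z ∈ O ∧ δ * (h * θ z) ≤ g z ∧ g z ≤ h * θ z} ⊆
      {z | z ∈ DD O g ∧ g z < (Θ + 1) * h} := by
    rintro z ⟨hz1, hz2, hz3⟩
    have hzD : z ∈ DD O g := ge_sub_DD A hδ hh ⟨hz1, hz2⟩
    refine ⟨hzD, ?_⟩
    have h2 := hΘ z ⟨hz1, hzD.2.le⟩
    rw [norm_iteratedFDeriv_zero] at h2
    have h3 : θ z ≤ Θ := (le_abs_self _).trans h2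
    calc g z ≤ h * θ z := hz3
      _ ≤ h * Θ := by gcongr
      _ < (Θ + 1) * h := by nlinarith
  have hbd : ∀ (n i : ℕ) (z : ℂ), z ∈ DD O g → M i / g z ^ n ≤ (M i + M (i + 1)) / g z ^ n := by
    intro n i z hz
    have := hM0 (i + 1)
    have h3 := pow_pos hz.2 n
    gcongr
    linarith
  have hbd' : ∀ (n i : ℕ) (z : ℂ), z ∈ DD O g →
      M (i + 1) / g z ^ n ≤ (M i + M (i + 1)) / g z ^ n := by
    intro n i z hz
    have := hM0 i
    have h3 := pow_pos hz.2 n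
    gcongr
    linarith
  refine ⟨⟨hW.sm, hW.cpt, hW.sub, fun i z hz => (hW.bd i z hz).trans (hbd _ i z hz)⟩, ?_, ?_⟩
  · have w1 := wgt_dz hW
    refine ⟨w1.sm, w1.cpt, ?_, fun i z hz => ?_⟩
    · refine Subset.trans (closure_minimal (fun z hz => ?_) (cpt_layer A hδ hh).isClosed) hsubL
      by_contra hcon
      refine hz ?_
      rw [dz_eq_L, Function.comp_apply, hfd z hcon, map_zero]
    · exact (w1.bd i z hz).trans (hbd' _ i z hz)
  · have w1 := wgt_dzb hW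
    refine ⟨w1.sm, w1.cpt, ?_, fun i z hz => ?_⟩
    · refine Subset.trans (closure_minimal (fun z hz => ?_) (cpt_layer A hδ hh).isClosed) hsubL
      by_contra hcon
      refine hz ?_
      rw [dzb_eq_L, Function.comp_apply, hfd z hcon, map_zero]
    · exact (w1.bd i z hz).trans (hbd' _ i z hz)

end main

end Pool.Agent.Lib.QNL.EPs
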