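import Pool.Agent.Lib.QNL.LimF
import Pool.Agent.Lib.QNL.EPs
import Pool.Agent.Lib.QNL.EHY
import Pool.Agent.Lib.QNL.EPair
import Pool.Agent.Lib.QNL.BI

/-!
Group E: the limit of `∫ Φ'(σ_h) F` (`StmtLimF`).
-/

set_option autoImplicit false

namespace Pool.Agent.Lib.QNL.ELimF

open MeasureTheory Filter Topology Set
open scoped ContDiff ComplexConjugate
open Pool.Agent.Lib.QNL.ES Pool.Agent.Lib.QNL.FId Pool.Agent.Lib.QNL.LimF
open Pool.Agent.Lib.QNL.Wt Pool.Agent.Lib.QNL.WProf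

variable {O : Set ℂ} {g θ : ℂ → ℝ} {τ δ : ℝ} {Φ : ℝ → ℝ} {j : ℕ} {Y : ℕ → ℕ → ℂ → ℂ}

/-- the real weight `Φ'(σ_h)` -/
noncomputable def chi (Φ : ℝ → ℝ) (O : Set ℂ) (g θ : ℂ → ℝ) (h : ℝ) : ℂ → ℝ := by
  classical
  exact if 0 < h ∧ h ≤ 1 then O.indicator fun z => deriv Φ (g z / (h * θ z)) else fun _ => 0

theorem chi_pos {h : ℝ} (hh : 0 < h ∧ h ≤ 1) :
    chi Φ O g θ h = O.indicator fun z => deriv Φ (g z / (h * θ z)) := by
  unfold chi
  rw [if_pos hh]

theorem chi_neg {h : ℝ} (hh : ¬ (0 < h ∧ h ≤ 1)) : chi Φ O g θ h = fun _ => 0 := by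
  unfold chi
  rw [if_neg hh]

theorem chi_ps {h : ℝ} (hh : 0 < h ∧ h ≤ 1) :
    (fun z => ((chi Φ O g θ h z : ℝ) : ℂ)) = ps (deriv Φ) (fun _ => 1) O g θ h := by
  funext z
  rw [chi_pos hh]
  unfold ps
  by_cases hz : z ∈ O
  · rw [indicator_of_mem hz, indicator_of_mem hz, mul_one]
  · rw [indicator_of_notMem hz, indicator_of_notMem hz]
    simp

theorem chi_wt (H : Prof τ δ Φ) (A : Dat O g θ) (h : ℝ) : Wt1 (DD O g) (chi Φ O g θ h) := by
  by_cases hh : 0 < h ∧ h ≤ 1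
  · obtain ⟨C, T, T₁, _, _, hW⟩ := EPs.stmtPs1 O g θ (deriv Φ) δ 1 A H.smooth1 H.δpos
      (fun s hs => H.d1zero hs) (fun s hs => H.one s hs)
    have h1 := (hW h hh.1 hh.2).1
    rw [← chi_ps hh] at h1
    have h2 : (fun z => (((chi Φ O g θ h z : ℝ) : ℂ)).re) = chi Φ O g θ h := by
      funext z
      exact Complex.ofReal_re _
    have hts : tsupport (chi Φ O g θ h) ⊆ tsupport fun z => ((chi Φ O g θ h z : ℝ) : ℂ) := by
      refine closure_mono fun z hz hz' => hz ?_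
      exact Complex.ofReal_eq_zero.1 hz'
    refine ⟨?_, ?_, hts.trans fun z hz => (h1.sub hz).1⟩
    · rw [← h2]
      exact (Complex.reCLM.contDiff.comp h1.sm).of_le (by simp)
    · exact h1.cpt.of_isClosed_subset (isClosed_tsupport _) hts
  · rw [chi_neg hh]
    refine ⟨contDiff_const, HasCompactSupport.zero, ?_⟩
    have : tsupport (fun _ : ℂ => (0 : ℝ)) = ∅ := by
      rw [tsupport_eq_empty_iff]
      rfl
    rw [this]
    exact empty_subset _

theorem isJ1 (A : Dat O g θ) (hY : Jet (DD O g) j Y) : J1 (DD O g) Y where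
  isOpen := isOpen_D A
  smooth := fun a b => (hY.smooth a b).of_le (by simp)
  hdz := hY.hdz
  hdzb := hY.hdzb

theorem rz_eq (H : Prof τ δ Φ) (A : Dat O g θ) {h : ℝ} (hh : 0 < h ∧ h ≤ 1) (z : ℂ) :
    rz (chi Φ O g θ h) z = dz (ps (deriv Φ) (fun _ => 1) O g θ h) z ∧
    rzb (chi Φ O g θ h) z = dzb (ps (deriv Φ) (fun _ => 1) O g θ h) z := by
  have hd : DifferentiableAt ℝ (chi Φ O g θ h) z :=
    (chi_wt H A h).smooth.differentiable (by simp) z
  rw [← chi_ps hh]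
  exact ⟨(Calc.dz_ofReal hd).symm, (Calc.dzb_ofReal hd).symm⟩

/-- the error terms of the integrations by parts -/
theorem err (hY : Hy O g θ j Y) {C : ℕ → ℝ} {T : ℝ} (hT : 0 < T) {K : ℝ → ℂ → ℂ}
    (hK : ∀ h, 0 < h → h ≤ 1 → Wgt (DD O g) g (T * h) 1 C (K h)) (a b c d : ℕ)
    (habcd : a + b + c + d + 1 = 4 * j) :
    Tendsto (fun h => ∫ z, K h z * (Y a b z * conj (Y c d z))) (𝓝[>] 0) (𝓝 0) := by
  obtain ⟨C', hC', hlow⟩ := Low.stmtLow j (2 * j) C
  obtain ⟨Cp, hCp, hpair⟩ := EPair.pair_i Hardy.stmtHY hY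
  have A := hY.dat
  have hJ : IsJet (DD O g) Y := BI.isJet (isOpen_D A) hY.jet
  have hset : ∀ t, {z | z ∈ DD O g ∧ g z < t} = LL O g t := by
    intro t
    ext z
    simp only [DD, LL, mem_ofPred_eq]
    tauto
  have key : ∀ h, 0 < h → h ≤ 1 →
      ‖∫ z, K h z * (Y a b z * conj (Y c d z))‖ ≤ C' * (Cp * (T * h)) := by
    intro h hh hh1
    have hE : ∀ α β γ δ m, γ + δ = 2 * j → α + β + m + 2 * j = 4 * j →
        IntegrableOn (fun z => ‖Y α β z‖ * ‖Y γ δ z‖ / g z ^ m)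
          {z | z ∈ DD O g ∧ g z < T * h} ∧
        ∫ z in {z | z ∈ DD O g ∧ g z < T * h}, ‖Y α β z‖ * ‖Y γ δ z‖ / g z ^ m
          ≤ Cp * (T * h) := by
      intro α β γ δ m h1 h2
      obtain ⟨i1, i2⟩ := hpair α β γ δ m h1 (by omega)
      refine ⟨i1.mono_set fun z hz => hz.1, ?_⟩
      rw [hset]
      exact i2 _ (by positivity)
    have h3 := hlow (DD O g) g Y (T * h) (Cp * (T * h)) (isOpen_D A) (fun z hz => hz.2)
      (A.g_sm.continuousOn.mono fun z hz => hz.1) hJ hE 1 (K h) (hK h hh hh1)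
    by_cases hcd : 2 * j ≤ c + d
    · exact (h3 a b c d hcd (by omega)).1
    · exact (h3 c d a b (by omega) (by omega)).2
  have hlim : Tendsto (fun h : ℝ => C' * (Cp * (T * h))) (𝓝[>] 0) (𝓝 0) := by
    have : Tendsto (fun h : ℝ => C' * (Cp * (T * h))) (𝓝 0) (𝓝 (C' * (Cp * (T * 0)))) := by
      refine Continuous.tendsto ?_ 0
      fun_prop
    simp only [mul_zero] at this
    exact this.mono_left nhdsWithin_le_nhds
  refine squeeze_zero_norm' ?_ hlim
  filter_upwards [Ioo_mem_nhdsGT (zero_lt_one' ℝ)] with h hh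
  exact key h hh.1 hh.2.le

/-- off `D` the weight vanishes -/
theorem chi_off (H : Prof τ δ Φ) (A : Dat O g θ) (h : ℝ) {z : ℂ} (hz : z ∉ DD O g) :
    chi Φ O g θ h z = 0 :=
  image_eq_zero_of_notMem_tsupport fun h' => hz ((chi_wt H A h).sub h')

theorem chi_lim (H : Prof τ δ Φ) (A : Dat O g θ) {f : ℂ → ℝ} (hf : IntegrableOn f (DD O g)) :
    Tendsto (fun h => ∫ z, chi Φ O g θ h z * f z) (𝓝[>] 0) (𝓝 (∫ z in DD O g, f z)) := by
  have hD : MeasurableSet (DD O g) := (isOpen_D A).measurableSet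
  have e : ∀ h, ∫ z, chi Φ O g θ h z * f z = ∫ z in DD O g, chi Φ O g θ h z * f z := by
    intro h
    refine (setIntegral_eq_integral_of_forall_compl_eq_zero fun z hz => ?_).symm
    rw [chi_off H A h hz, zero_mul]
  simp only [e]
  refine tendsto_integral_filter_of_dominated_convergence (fun z => ‖f z‖) ?_ ?_ hf.norm ?_
  · refine Eventually.of_forall fun h => ?_
    exact ((chi_wt H A h).smooth.continuous.aestronglyMeasurable).mul hf.aestronglyMeasurable
  · refine Eventually.of_forall fun h => ?_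
    refine Eventually.of_forall fun z => ?_
    rw [norm_mul]
    refine mul_le_of_le_one_left (norm_nonneg _) ?_
    by_cases hh : 0 < h ∧ h ≤ 1
    · rw [chi_pos hh]
      by_cases hz : z ∈ O
      · rw [indicator_of_mem hz, Real.norm_of_nonneg (H.d1nonneg _)]
        exact H.d1le _
      · rw [indicator_of_notMem hz]
        simp
    · rw [chi_neg hh]
      simp
  · refine (ae_restrict_iff' hD).mpr (Eventually.of_forall fun z hz => ?_)
    have h1 : ∀ᶠ h in 𝓝[>] (0 : ℝ), chi Φ O g θ h z * f z = f z := by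
      have hθ := A.θ_pos z hz.1
      have hpos : 0 < min 1 (g z / θ z) := lt_min one_pos (div_pos hz.2 hθ)
      filter_upwards [Ioo_mem_nhdsGT hpos] with h hh
      have hh1 : 0 < h ∧ h ≤ 1 := ⟨hh.1, (hh.2.trans_le (min_le_left _ _)).le⟩
      rw [chi_pos hh1, indicator_of_mem hz.1, H.one, one_mul]
      rw [le_div_iff₀ (mul_pos hh.1 hθ), one_mul]
      have h2 := hh.2.trans_le (min_le_right _ _)
      rw [lt_div_iff₀ hθ] at h2
      exact h2.le
    exact tendsto_const_nhds.congr' (h1.mono fun h hh => hh.symm)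

/-- **`StmtLimF`** -/
theorem stmtLimF : StmtLimF := by
  intro O g θ j Y τ δ Φ hY H
  have A := hY.dat
  have hD : MeasurableSet (DD O g) := (isOpen_D A).measurableSet
  obtain ⟨C, T, T₁, hT, _, hW⟩ := EPs.stmtPs1 O g θ (deriv Φ) δ 1 A H.smooth1 H.δpos
      (fun s hs => H.d1zero hs) (fun s hs => H.one s hs)
  have hz : ∀ a b c d, a + b + c + d + 1 = 4 * j →
      Tendsto (fun h => ∫ z, rz (chi Φ O g θ h) z * (Y a b z * conj (Y c d z)))
        (𝓝[>] 0) (𝓝 0) := by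
    intro a b c d h1
    refine (err hY hT (fun h hh hh1 => (hW h hh hh1).2.1) a b c d h1).congr' ?_
    filter_upwards [Ioo_mem_nhdsGT (zero_lt_one' ℝ)] with h hh
    refine integral_congr_ae (Eventually.of_forall fun z => ?_)
    simp only
    rw [(rz_eq H A ⟨hh.1, hh.2.le⟩ z).1]
  have hzb : ∀ a b c d, a + b + c + d + 1 = 4 * j →
      Tendsto (fun h => ∫ z, rzb (chi Φ O g θ h) z * (Y a b z * conj (Y c d z)))
        (𝓝[>] 0) (𝓝 0) := by
    intro a b c d h1
    refine (err hY hT (fun h hh hh1 => (hW h hh hh1).2.2) a b c d h1).congr' ?_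
    filter_upwards [Ioo_mem_nhdsGT (zero_lt_one' ℝ)] with h hh
    refine integral_congr_ae (Eventually.of_forall fun z => ?_)
    simp only
    rw [(rz_eq H A ⟨hh.1, hh.2.le⟩ z).2]
  have hsq : IntegrableOn (fun z => ‖Y j j z‖ ^ 2) (DD O g) :=
    BI.sq_int (isOpen_D A) hY.jet (by omega)
  have hlim := lim_FF (isJ1 A hY.jet) (fun h => chi_wt H A h) hz hzb (chi_lim H A hsq)
  have hre := (Complex.continuous_re.tendsto _).comp hlim
  rw [Complex.ofReal_re] at hre
  refine hre.congr' ?_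
  filter_upwards [Ioo_mem_nhdsGT (zero_lt_one' ℝ)] with h hh
  have hh1 : 0 < h ∧ h ≤ 1 := ⟨hh.1, hh.2.le⟩
  simp only [Function.comp]
  have e1 : ∫ z, ((chi Φ O g θ h z : ℝ) : ℂ) * IntF.FF Y j z =
      ∫ z in DD O g, ((deriv Φ (g z / (h * θ z)) * FR (2 * j) Y z : ℝ) : ℂ) := by
    rw [← setIntegral_eq_integral_of_forall_compl_eq_zero (s := DD O g) fun z hz => by
      rw [chi_off H A h hz]; simp]
    refine setIntegral_congr_fun hD fun z hz => ?_
    rw [chi_pos hh1, indicator_of_mem hz.1, Complex.ofReal_mul, ofReal_FR]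
    rfl
  rw [e1, integral_complex_ofReal, Complex.ofReal_re]

end Pool.Agent.Lib.QNL.ELimF
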