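import Pool.Agent.Lib.QNL.Calc

/-!
# The function `F` of a jet

`Y a b` stands for `∂^a ∂̄^b Y`. For even `N` (later `N = 2 j`) put
`F = ∑_{a, b ≤ N} (-1)^(a+b) Y a b * conj (Y (N-b) (N-a))`. Then `F` is real and
`Δ F = 4 (|Y (N+1) 0|² + |Y 0 (N+1)|²) + 8 Re (Y (N+1) (N+1) conj (Y 0 0))`.
-/

set_option autoImplicit false

namespace Pool.Agent.Lib.QNL.FId

open MeasureTheory Set Filter Topology Finset
open scoped ContDiff ComplexConjugate
open Complex (I)
open Pool.Agent.Lib.QNL.Calc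

/-- `Y a b = ∂^a ∂̄^b Y` on `D`. -/
def IsJet (D : Set ℂ) (Y : ℕ → ℕ → ℂ → ℂ) : Prop :=
  ∀ a b, ∀ z ∈ D, HasFDerivAt (Y a b) (wl (Y (a + 1) b z) (Y a (b + 1) z)) z

variable {D : Set ℂ} {Y : ℕ → ℕ → ℂ → ℂ} {z : ℂ} {N : ℕ}

/-! ### Jets -/

theorem isJet_dab {f : ℂ → ℂ} (h : Sm D f) (hD : IsOpen D) : IsJet D (fun a b => Dab a b f) :=
  fun a b _ hz => hasFDerivAt_dab h hD hz a b

theorem IsJet.contDiffOn (h : IsJet D Y) (hD : IsOpen D) (n : ℕ) :
    ∀ a b, ContDiffOn ℝ n (Y a b) D := by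
  induction n with
  | zero =>
    intro a b
    exact contDiffOn_zero.2 fun z hz => (h a b z hz).continuousAt.continuousWithinAt
  | succ n ih =>
    intro a b
    rw [show ((n + 1 : ℕ) : ℕ∞ω) = (n : ℕ∞ω) + 1 by push_cast; rfl,
      contDiffOn_succ_iff_fderiv_of_isOpen hD]
    refine ⟨fun z hz => (h a b z hz).differentiableAt.differentiableWithinAt, by simp, ?_⟩
    have e : ∀ z ∈ D, fderiv ℝ (Y a b) z = wl (Y (a + 1) b z) (Y a (b + 1) z) :=
      fun z hz => (h a b z hz).fderiv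
    have h1 : ContDiffOn ℝ n (fun z => wl (Y (a + 1) b z) (Y a (b + 1) z)) D := by
      unfold wl
      exact ((ih (a + 1) b).smul contDiffOn_const).add ((ih a (b + 1)).smul contDiffOn_const)
    exact h1.congr e

theorem IsJet.sm (h : IsJet D Y) (hD : IsOpen D) (a b : ℕ) : Sm D (Y a b) :=
  contDiffOn_infty.2 fun n => h.contDiffOn hD n a b

theorem IsJet.dz (h : IsJet D Y) (hz : z ∈ D) (a b : ℕ) : dz (Y a b) z = Y (a + 1) b z :=
  dz_of_hasFDerivAt (h a b z hz)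

theorem IsJet.dzb (h : IsJet D Y) (hz : z ∈ D) (a b : ℕ) : dzb (Y a b) z = Y a (b + 1) z :=
  dzb_of_hasFDerivAt (h a b z hz)

theorem IsJet.lap (h : IsJet D Y) (hD : IsOpen D) (a b : ℕ) :
    EqOn (lap (Y a b)) (fun z => 4 * Y (a + 1) (b + 1) z) D := by
  intro z hz
  rw [lap_eq (h.sm hD a b) hD hz, dz_congr hD (fun y hy => h.dzb hy a b) hz, h.dz hz]

theorem IsJet.eqOn_dab (h : IsJet D Y) (hD : IsOpen D) (a b : ℕ) :
    EqOn (Y a b) (Dab a b (Y 0 0)) D := by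
  have h1 : ∀ b, EqOn (Y 0 b) (Dab 0 b (Y 0 0)) D := by
    intro b
    induction b with
    | zero => exact fun z _ => rfl
    | succ b ih =>
      intro z hz
      rw [← dzb_dab (h.sm hD 0 0) hD 0 b hz, ← dzb_congr hD ih hz, h.dzb hz]
  induction a with
  | zero => exact h1 b
  | succ a ih =>
    intro z hz
    rw [← dz_dab, ← dz_congr hD ih hz, h.dz hz]

/-- The jet of the conjugate. -/
theorem IsJet.conj (h : IsJet D Y) : IsJet D (fun a b z => conj (Y b a z)) := by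
  intro a b z hz
  have h1 := h b a z hz
  have h2 := Complex.conjCLE.toContinuousLinearMap.hasFDerivAt (x := Y b a z)
  have h3 := h2.comp z h1
  refine h3.congr_fderiv ?_
  ext v
  simp [wl_apply, add_comm]

/-- Shift of a jet. -/
theorem IsJet.shift (h : IsJet D Y) (c d : ℕ) : IsJet D (fun a b => Y (a + c) (b + d)) := by
  intro a b z hz
  have h1 := h (a + c) (b + d) z hz
  rwa [show a + c + 1 = a + 1 + c by ring, show b + d + 1 = b + 1 + d by ring] at h1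

/-- The product rule. -/
theorem hasFDerivAt_mul_wl {f g : ℂ → ℂ} {a b c d : ℂ} (hf : HasFDerivAt f (wl a b) z)
    (hg : HasFDerivAt g (wl c d) z) :
    HasFDerivAt (fun z => f z * g z) (wl (a * g z + f z * c) (b * g z + f z * d)) z := by
  refine (hf.mul hg).congr_fderiv ?_
  ext v
  change f z * wl c d v + g z * wl a b v = _
  simp only [wl_apply]
  ring

theorem hasFDerivAt_conj_wl {f : ℂ → ℂ} {a b : ℂ} (hf : HasFDerivAt f (wl a b) z) :
    HasFDerivAt (fun z => conj (f z)) (wl (conj b) (conj a)) z := by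
  have h2 := Complex.conjCLE.toContinuousLinearMap.hasFDerivAt (x := f z)
  refine (h2.comp z hf).congr_fderiv ?_
  ext v
  simp [wl_apply, add_comm]

/-- `∂` and `∂̄` of a product `Y a b * conj (Y c d)`. -/
theorem IsJet.mul_conj (h : IsJet D Y) (hz : z ∈ D) (a b c d : ℕ) :
    HasFDerivAt (fun z => Y a b z * conj (Y c d z))
      (wl (Y (a + 1) b z * conj (Y c d z) + Y a b z * conj (Y c (d + 1) z))
        (Y a (b + 1) z * conj (Y c d z) + Y a b z * conj (Y (c + 1) d z))) z :=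
  hasFDerivAt_mul_wl (h a b z hz) (hasFDerivAt_conj_wl (h c d z hz))

theorem wl_add (a b c d : ℂ) : wl a b + wl c d = wl (a + c) (b + d) := by
  ext v
  simp only [wl_apply, add_apply]
  ring

theorem wl_smul (r a b : ℂ) : r • wl a b = wl (r * a) (r * b) := by
  ext v
  simp only [wl_apply, smul_apply, smul_eq_mul]
  ring

theorem wl_sum {ι : Type*} (s : Finset ι) (a b : ι → ℂ) :
    ∑ i ∈ s, wl (a i) (b i) = wl (∑ i ∈ s, a i) (∑ i ∈ s, b i) := by
  classical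
  induction s using Finset.induction_on with
  | empty =>
    ext v
    simp
  | insert i s hi ih => rw [sum_insert hi, sum_insert hi, sum_insert hi, ih, wl_add]

/-! ### The function `F` -/

/-- `F`. -/
noncomputable def FF (N : ℕ) (Y : ℕ → ℕ → ℂ → ℂ) (z : ℂ) : ℂ :=
  ∑ a ∈ range (N + 1), ∑ b ∈ range (N + 1),
    (-1) ^ (a + b) * (Y a b z * conj (Y (N - b) (N - a) z))

/-- `∂̄ F`. -/
noncomputable def FB (N : ℕ) (Y : ℕ → ℕ → ℂ → ℂ) (z : ℂ) : ℂ :=
  ∑ a ∈ range (N + 1), ∑ b ∈ range (N + 1), (-1) ^ (a + b) *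
    (Y a (b + 1) z * conj (Y (N - b) (N - a) z) + Y a b z * conj (Y (N - b + 1) (N - a) z))

/-- `∂ F`. -/
noncomputable def FA (N : ℕ) (Y : ℕ → ℕ → ℂ → ℂ) (z : ℂ) : ℂ :=
  ∑ a ∈ range (N + 1), ∑ b ∈ range (N + 1), (-1) ^ (a + b) *
    (Y (a + 1) b z * conj (Y (N - b) (N - a) z) + Y a b z * conj (Y (N - b) (N - a + 1) z))

theorem hasFDerivAt_FF (h : IsJet D Y) (hz : z ∈ D) (N : ℕ) :
    HasFDerivAt (FF N Y) (wl (FA N Y z) (FB N Y z)) z := by
  unfold FF FA FB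
  simp only [← wl_sum, ← wl_smul]
  refine HasFDerivAt.fun_sum fun a _ => HasFDerivAt.fun_sum fun b _ => ?_
  exact (h.mul_conj hz a b (N - b) (N - a)).const_smul ((-1 : ℂ) ^ (a + b))

/-- one telescoping sum -/
theorem tele (N : ℕ) (hN : Even N) (a : ℕ → ℂ) :
    ∑ k ∈ range (N + 1), (-1) ^ k * (a (k + 1) + a k) = a 0 + a (N + 1) := by
  have key : ∀ n : ℕ, ∑ k ∈ range n, (-1 : ℂ) ^ k * (a (k + 1) + a k) =
      a 0 - (-1) ^ n * a n := by
    intro n
    induction n with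
    | zero => simp
    | succ n ih =>
      rw [sum_range_succ, ih]
      ring
  rw [key, hN.add_one.neg_one_pow]
  ring

/-- the double telescoping sum -/
theorem tele2 (N : ℕ) (hN : Even N) (A : ℕ → ℕ → ℂ) :
    ∑ a ∈ range (N + 1), ∑ b ∈ range (N + 1), (-1) ^ (a + b) *
      (A (a + 1) (b + 1) + A a (b + 1) + A (a + 1) b + A a b) =
      A 0 0 + A 0 (N + 1) + A (N + 1) 0 + A (N + 1) (N + 1) := by
  have e : ∀ a : ℕ, ∑ b ∈ range (N + 1), (-1 : ℂ) ^ (a + b) *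
      (A (a + 1) (b + 1) + A a (b + 1) + A (a + 1) b + A a b) =
      (-1) ^ a * ((A (a + 1) 0 + A (a + 1) (N + 1)) + (A a 0 + A a (N + 1))) := by
    intro a
    have h1 := tele N hN (fun b => A (a + 1) b)
    have h2 := tele N hN (fun b => A a b)
    rw [← h1, ← h2, ← sum_add_distrib, mul_sum]
    refine sum_congr rfl fun b _ => ?_
    ring
  rw [sum_congr rfl fun a _ => e a, tele N hN (fun a => A a 0 + A a (N + 1))]
  ring

/-- `∂∂̄ F`. -/
theorem dz_FB (h : IsJet D Y) (hz : z ∈ D) (hN : Even N) :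
    dz (FB N Y) z = Y 0 (N + 1) z * conj (Y 0 (N + 1) z) + Y (N + 1) 0 z * conj (Y (N + 1) 0 z) +
      (Y 0 0 z * conj (Y (N + 1) (N + 1) z) + Y (N + 1) (N + 1) z * conj (Y 0 0 z)) := by
  have h1 : HasFDerivAt (FB N Y)
      (∑ a ∈ range (N + 1), ∑ b ∈ range (N + 1), (-1 : ℂ) ^ (a + b) •
        (wl (Y (a + 1) (b + 1) z * conj (Y (N - b) (N - a) z) +
              Y a (b + 1) z * conj (Y (N - b) (N - a + 1) z))
            (Y a (b + 1 + 1) z * conj (Y (N - b) (N - a) z) +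
              Y a (b + 1) z * conj (Y (N - b + 1) (N - a) z)) +
          wl (Y (a + 1) b z * conj (Y (N - b + 1) (N - a) z) +
              Y a b z * conj (Y (N - b + 1) (N - a + 1) z))
            (Y a (b + 1) z * conj (Y (N - b + 1) (N - a) z) +
              Y a b z * conj (Y (N - b + 1 + 1) (N - a) z)))) z := by
    unfold FB
    refine HasFDerivAt.fun_sum fun a _ => HasFDerivAt.fun_sum fun b _ => ?_
    exact ((h.mul_conj hz a (b + 1) (N - b) (N - a)).add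
      (h.mul_conj hz a b (N - b + 1) (N - a))).const_smul ((-1 : ℂ) ^ (a + b))
  simp only [wl_add, wl_smul, wl_sum] at h1
  rw [dz_of_hasFDerivAt h1]
  have h2 := tele2 N hN (fun a b => Y a b z * conj (Y (N + 1 - b) (N + 1 - a) z))
  simp only [Nat.sub_zero, Nat.sub_self, Nat.add_sub_add_right] at h2
  rw [show Y 0 (N + 1) z * conj (Y 0 (N + 1) z) + Y (N + 1) 0 z * conj (Y (N + 1) 0 z) +
      (Y 0 0 z * conj (Y (N + 1) (N + 1) z) + Y (N + 1) (N + 1) z * conj (Y 0 0 z)) =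
      Y 0 0 z * conj (Y (N + 1) (N + 1) z) + Y 0 (N + 1) z * conj (Y 0 (N + 1) z) +
      Y (N + 1) 0 z * conj (Y (N + 1) 0 z) + Y (N + 1) (N + 1) z * conj (Y 0 0 z) by ring, ← h2]
  refine sum_congr rfl fun a ha => sum_congr rfl fun b hb => ?_
  have ha' : a ≤ N := Nat.lt_succ_iff.1 (mem_range.1 ha)
  have hb' : b ≤ N := Nat.lt_succ_iff.1 (mem_range.1 hb)
  rw [show N - b + 1 = N + 1 - b by omega, show N - a + 1 = N + 1 - a by omega]
  ring

/-- `F` is real. -/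
theorem conj_FF (N : ℕ) (Y : ℕ → ℕ → ℂ → ℂ) (z : ℂ) : conj (FF N Y z) = FF N Y z := by
  unfold FF
  rw [map_sum]
  simp only [map_sum, map_mul, map_pow, map_neg, map_one, Complex.conj_conj]
  rw [sum_comm]
  -- reflect both sums
  rw [← sum_range_reflect (fun b => ∑ a ∈ range (N + 1), (-1 : ℂ) ^ (a + b) *
    (conj (Y a b z) * Y (N - b) (N - a) z))]
  refine sum_congr rfl fun a ha => ?_
  rw [← sum_range_reflect (fun a' => (-1 : ℂ) ^ (a' + (N + 1 - 1 - a)) *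
    (conj (Y a' (N + 1 - 1 - a) z) * Y (N - (N + 1 - 1 - a)) (N - a') z))]
  refine sum_congr rfl fun b hb => ?_
  have ha' : a ≤ N := Nat.lt_succ_iff.1 (mem_range.1 ha)
  have hb' : b ≤ N := Nat.lt_succ_iff.1 (mem_range.1 hb)
  rw [show N + 1 - 1 - a = N - a by omega, show N + 1 - 1 - b = N - b by omega,
    show N - (N - a) = a by omega, show N - (N - b) = b by omega]
  have e : (-1 : ℂ) ^ (N - b + (N - a)) = (-1) ^ (a + b) := by
    have h1 : (-1 : ℂ) ^ (N - b + (N - a)) * (-1) ^ (a + b) = 1 := by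
      rw [← pow_add, show N - b + (N - a) + (a + b) = 2 * N by omega, pow_mul]
      simp
    have h2 : (-1 : ℂ) ^ (a + b) * (-1) ^ (a + b) = 1 := by
      rw [← pow_add, ← two_mul, pow_mul]
      simp
    have h3 : (-1 : ℂ) ^ (a + b) ≠ 0 := by
      intro h0
      rw [h0, mul_zero] at h2
      exact zero_ne_one h2
    exact mul_right_cancel₀ h3 (h1.trans h2.symm)
  rw [e]
  ring

/-- The real function `F`. -/
noncomputable def FR (N : ℕ) (Y : ℕ → ℕ → ℂ → ℂ) (z : ℂ) : ℝ := (FF N Y z).re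

theorem ofReal_FR (N : ℕ) (Y : ℕ → ℕ → ℂ → ℂ) (z : ℂ) : (FR N Y z : ℂ) = FF N Y z :=
  Complex.conj_eq_iff_re.1 (conj_FF N Y z)

theorem sm_FF (h : IsJet D Y) (hD : IsOpen D) (N : ℕ) : Sm D (FF N Y) := by
  unfold FF
  refine Sm.sum _ fun a _ => Sm.sum _ fun b _ => ?_
  exact ((h.sm hD a b).mul (h.sm hD _ _).conj).const_mul _

theorem sm_FR (h : IsJet D Y) (hD : IsOpen D) (N : ℕ) : Sm D (FR N Y) := (sm_FF h hD N).re

theorem dzb_FF (h : IsJet D Y) (N : ℕ) : EqOn (dzb (FF N Y)) (FB N Y) D :=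
  fun _ hz => dzb_of_hasFDerivAt (hasFDerivAt_FF h hz N)

theorem dz_FF (h : IsJet D Y) (N : ℕ) : EqOn (dz (FF N Y)) (FA N Y) D :=
  fun _ hz => dz_of_hasFDerivAt (hasFDerivAt_FF h hz N)

/-- **The Laplacian of `F`**, without any equation for `Y`. -/
theorem lap_FR (h : IsJet D Y) (hD : IsOpen D) (hN : Even N) (hz : z ∈ D) :
    lap (FR N Y) z = 4 * (‖Y (N + 1) 0 z‖ ^ 2 + ‖Y 0 (N + 1) z‖ ^ 2) +
      8 * (Y (N + 1) (N + 1) z * conj (Y 0 0 z)).re := by
  have h1 : lap (FR N Y) z = (lap (FF N Y) z).re := lap_re (sm_FF h hD N) hD hz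
  rw [h1, lap_eq (sm_FF h hD N) hD hz, dz_congr hD (dzb_FF h N) hz, dz_FB h hz hN]
  have e1 : ∀ w : ℂ, w * conj w = ((‖w‖ ^ 2 : ℝ) : ℂ) := fun w => by
    rw [Complex.mul_conj, Complex.normSq_eq_norm_sq]
  have e2 : Y 0 0 z * conj (Y (N + 1) (N + 1) z) + Y (N + 1) (N + 1) z * conj (Y 0 0 z) =
      ((2 * (Y (N + 1) (N + 1) z * conj (Y 0 0 z)).re : ℝ) : ℂ) := by
    have := Complex.add_conj (Y (N + 1) (N + 1) z * conj (Y 0 0 z))
    rw [map_mul, Complex.conj_conj] at this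
    rw [← this]
    ring
  rw [e1, e1, e2, ← Complex.ofReal_add, ← Complex.ofReal_add,
    show (4 : ℂ) = ((4 : ℝ) : ℂ) by norm_num, ← Complex.ofReal_mul, Complex.ofReal_re]
  ring

/-- **The Laplacian of `F`** for a jet of a `(N+1)`-harmonic function. -/
theorem lap_FR' (h : IsJet D Y) (hD : IsOpen D) (hN : Even N)
    (h0 : ∀ z ∈ D, Y (N + 1) (N + 1) z = 0) (hz : z ∈ D) :
    lap (FR N Y) z = 4 * (‖Y (N + 1) 0 z‖ ^ 2 + ‖Y 0 (N + 1) z‖ ^ 2) := by
  rw [lap_FR h hD hN hz, h0 z hz]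
  simp

/-! ### The leading part -/

/-- `|D^s Y|² = ∑_{a + b = s} |Y a b|²`. -/
noncomputable def nj (s : ℕ) (Y : ℕ → ℕ → ℂ → ℂ) (z : ℂ) : ℝ :=
  ∑ a ∈ range (s + 1), ‖Y a (s - a) z‖ ^ 2

theorem nj_nonneg (s : ℕ) (Y : ℕ → ℕ → ℂ → ℂ) (z : ℂ) : 0 ≤ nj s Y z :=
  sum_nonneg fun _ _ => by positivity

theorem le_nj {a b s : ℕ} (h : a + b = s) (Y : ℕ → ℕ → ℂ → ℂ) (z : ℂ) :
    ‖Y a b z‖ ^ 2 ≤ nj s Y z := by
  have h1 := single_le_sum (f := fun a => ‖Y a (s - a) z‖ ^ 2) (s := range (s + 1))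
    (fun i _ => by positivity) (Finset.mem_range.2 (by omega : a < s + 1))
  simpa [nj, show s - a = b by omega] using h1

/-- The pairs `(a, b)` with `a, b ≤ N` and `a + b = s`. -/
def pr (N s : ℕ) : Finset (ℕ × ℕ) :=
  (range (N + 1) ×ˢ range (N + 1)).filter fun p => p.1 + p.2 = s

theorem mem_pr {N s : ℕ} {p : ℕ × ℕ} : p ∈ pr N s ↔ p.1 ≤ N ∧ p.2 ≤ N ∧ p.1 + p.2 = s := by
  simp only [pr, Finset.mem_filter, Finset.mem_product, Finset.mem_range, Nat.lt_succ_iff]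
  tauto

/-- The part of `F` with the orders `s` and `2 N - s`. -/
noncomputable def Fs (N s : ℕ) (Y : ℕ → ℕ → ℂ → ℂ) (z : ℂ) : ℂ :=
  ∑ p ∈ pr N s, (-1) ^ s * (Y p.1 p.2 z * conj (Y (N - p.2) (N - p.1) z))

theorem FF_eq_sum (N : ℕ) (Y : ℕ → ℕ → ℂ → ℂ) (z : ℂ) :
    FF N Y z = ∑ s ∈ range (2 * N + 1), Fs N s Y z := by
  unfold FF Fs
  rw [← sum_product']
  rw [← sum_fiberwise_of_maps_to (s := range (N + 1) ×ˢ range (N + 1)) (t := range (2 * N + 1))
    (g := fun p => p.1 + p.2)]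
  · refine sum_congr rfl fun s _ => sum_congr rfl fun p hp => ?_
    rw [(Finset.mem_filter.1 hp).2]
  · intro p hp
    simp only [Finset.mem_product, Finset.mem_range] at hp ⊢
    omega

theorem Fs_self (hN : Even N) (Y : ℕ → ℕ → ℂ → ℂ) (z : ℂ) : Fs N N Y z = nj N Y z := by
  unfold Fs nj
  rw [hN.neg_one_pow]
  push_cast
  refine sum_bij' (fun p _ => p.1) (fun a _ => (a, N - a)) ?_ ?_ ?_ ?_ ?_
  · intro p hp
    rw [mem_pr] at hp
    exact Finset.mem_range.2 (by omega)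
  · intro a ha
    rw [Finset.mem_range] at ha
    exact mem_pr.2 ⟨by simp; omega, by simp, by simp; omega⟩
  · intro p hp
    rw [mem_pr] at hp
    exact Prod.ext rfl (by simp; omega)
  · intro a _
    rfl
  · intro p hp
    rw [mem_pr] at hp
    rw [show N - p.2 = p.1 by omega, show N - p.1 = p.2 by omega, one_mul, Complex.mul_conj,
      Complex.normSq_eq_norm_sq]
    push_cast
    rfl

theorem norm_Fs_le (N s : ℕ) (Y : ℕ → ℕ → ℂ → ℂ) (z : ℂ) :
    ‖Fs N s Y z‖ ≤ Real.sqrt (nj s Y z) * Real.sqrt (nj (2 * N - s) Y z) := by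
  have h1 : ‖Fs N s Y z‖ ≤ ∑ p ∈ pr N s, ‖Y p.1 p.2 z‖ * ‖Y (N - p.2) (N - p.1) z‖ := by
    refine (norm_sum_le _ _).trans (sum_le_sum fun p _ => ?_)
    rw [norm_mul, norm_pow, norm_neg, norm_one, one_pow, one_mul, norm_mul, RCLike.norm_conj]
  refine h1.trans ((Real.sum_mul_le_sqrt_mul_sqrt _ _ _).trans ?_)
  refine mul_le_mul (Real.sqrt_le_sqrt ?_) (Real.sqrt_le_sqrt ?_) (Real.sqrt_nonneg _)
    (Real.sqrt_nonneg _)
  · have e : ∑ p ∈ pr N s, ‖Y p.1 p.2 z‖ ^ 2 =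
        ∑ a ∈ (pr N s).image Prod.fst, ‖Y a (s - a) z‖ ^ 2 := by
      rw [sum_image]
      · refine sum_congr rfl fun p hp => ?_
        rw [mem_pr] at hp
        rw [show s - p.1 = p.2 by omega]
      · intro p hp q hq hpq
        have hp' := mem_pr.1 hp
        have hq' := mem_pr.1 hq
        exact Prod.ext hpq (by omega)
    rw [e]
    refine sum_le_sum_of_subset_of_nonneg ?_ fun _ _ _ => by positivity
    intro a ha
    obtain ⟨p, hp, rfl⟩ := Finset.mem_image.1 ha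
    rw [mem_pr] at hp
    exact Finset.mem_range.2 (by omega)
  · have e : ∑ p ∈ pr N s, ‖Y (N - p.2) (N - p.1) z‖ ^ 2 =
        ∑ a ∈ (pr N s).image fun p => N - p.2, ‖Y a (2 * N - s - a) z‖ ^ 2 := by
      rw [sum_image]
      · refine sum_congr rfl fun p hp => ?_
        rw [mem_pr] at hp
        rw [show 2 * N - s - (N - p.2) = N - p.1 by omega]
      · intro p hp q hq hpq
        have hp' := mem_pr.1 hp
        have hq' := mem_pr.1 hq
        have hpq' : N - p.2 = N - q.2 := hpq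
        exact Prod.ext (by omega) (by omega)
    rw [e]
    refine sum_le_sum_of_subset_of_nonneg ?_ fun _ _ _ => by positivity
    intro a ha
    obtain ⟨p, hp, rfl⟩ := Finset.mem_image.1 ha
    rw [mem_pr] at hp
    exact Finset.mem_range.2 (by omega)

/-- **The leading part of `F`** is `|D^N Y|²`; all other terms are products of a derivative of
order `s` and one of order `2 N - s`, `s ≠ N`. -/
theorem FR_sub_nj (hN : Even N) (Y : ℕ → ℕ → ℂ → ℂ) (z : ℂ) :
    |FR N Y z - nj N Y z| ≤ ∑ s ∈ (range (2 * N + 1)).erase N,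
      Real.sqrt (nj s Y z) * Real.sqrt (nj (2 * N - s) Y z) := by
  have h1 : FF N Y z - (nj N Y z : ℂ) = ∑ s ∈ (range (2 * N + 1)).erase N, Fs N s Y z := by
    rw [FF_eq_sum, ← add_sum_erase _ _ (Finset.mem_range.2 (by omega : N < 2 * N + 1)), Fs_self hN]
    ring
  have h2 : ((FR N Y z - nj N Y z : ℝ) : ℂ) = ∑ s ∈ (range (2 * N + 1)).erase N, Fs N s Y z := by
    rw [← h1]
    push_cast
    rw [ofReal_FR]
  rw [← Real.norm_eq_abs, ← Complex.norm_real, h2]
  exact (norm_sum_le _ _).trans (sum_le_sum fun s _ => norm_Fs_le N s Y z)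

/-- The same bound with the orders `N + m` and `N - m`. -/
theorem FR_sub_nj' (hN : Even N) (Y : ℕ → ℕ → ℂ → ℂ) (z : ℂ) :
    |FR N Y z - nj N Y z| ≤ 2 * ∑ m ∈ Finset.Icc 1 N,
      Real.sqrt (nj (N - m) Y z) * Real.sqrt (nj (N + m) Y z) := by
  refine (FR_sub_nj hN Y z).trans (le_of_eq ?_)
  have e : (range (2 * N + 1)).erase N =
      ((Finset.Icc 1 N).image fun m => N - m) ∪ ((Finset.Icc 1 N).image fun m => N + m) := by
    ext s
    simp only [Finset.mem_erase, Finset.mem_range, Finset.mem_union, Finset.mem_image,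
      Finset.mem_Icc]
    constructor
    · rintro ⟨h1, h2⟩
      rcases lt_or_gt_of_ne h1 with h | h
      · exact Or.inl ⟨N - s, by omega, by omega⟩
      · exact Or.inr ⟨s - N, by omega, by omega⟩
    · rintro (⟨m, hm, rfl⟩ | ⟨m, hm, rfl⟩) <;> omega
  rw [e, sum_union, sum_image, sum_image]
  · have e1 : ∑ m ∈ Finset.Icc 1 N, Real.sqrt (nj (N - m) Y z) *
        Real.sqrt (nj (2 * N - (N - m)) Y z) =
        ∑ m ∈ Finset.Icc 1 N, Real.sqrt (nj (N - m) Y z) * Real.sqrt (nj (N + m) Y z) := by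
      refine sum_congr rfl fun m hm => ?_
      rw [Finset.mem_Icc] at hm
      rw [show 2 * N - (N - m) = N + m by omega]
    have e2 : ∑ m ∈ Finset.Icc 1 N, Real.sqrt (nj (N + m) Y z) *
        Real.sqrt (nj (2 * N - (N + m)) Y z) =
        ∑ m ∈ Finset.Icc 1 N, Real.sqrt (nj (N - m) Y z) * Real.sqrt (nj (N + m) Y z) := by
      refine sum_congr rfl fun m hm => ?_
      rw [Finset.mem_Icc] at hm
      rw [show 2 * N - (N + m) = N - m by omega, mul_comm]
    rw [e1, e2, two_mul]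
  · intro m _ m' _ hmm
    have : N + m = N + m' := hmm
    omega
  · intro m hm m' hm' hmm
    have h1 := Finset.mem_Icc.1 (Finset.mem_coe.1 hm)
    have h2 := Finset.mem_Icc.1 (Finset.mem_coe.1 hm')
    have : N - m = N - m' := hmm
    omega
  · rw [Finset.disjoint_left]
    intro s hs hs'
    obtain ⟨m, hm, rfl⟩ := Finset.mem_image.1 hs
    obtain ⟨m', hm', h'⟩ := Finset.mem_image.1 hs'
    rw [Finset.mem_Icc] at hm hm'
    omega

end Pool.Agent.Lib.QNL.FId
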