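import Mathlib

/-!
The profile of the weight of the layer inequality:
`Prof τ δ Φ`: a smooth convex profile `Φ` with `Φ = 0` on `(-∞, δ]`, `Φ' = 1` on `[1, ∞)`,
`0 ≤ Φ'' ≤ 1 + τ` (`exists_prof`).
-/

set_option autoImplicit false

namespace Pool.Agent.Lib.QNL.WProf

open MeasureTheory Filter Topology Set
open scoped ContDiff

/-- a smooth convex profile -/
structure Prof (τ δ : ℝ) (Φ : ℝ → ℝ) : Prop where
  smooth : ContDiff ℝ ∞ Φ
  δpos : 0 < δ
  δlt : δ < 1
  zero : ∀ s, s ≤ δ → Φ s = 0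
  one : ∀ s, 1 ≤ s → deriv Φ s = 1
  d2nonneg : ∀ s, 0 ≤ deriv (deriv Φ) s
  d2le : ∀ s, deriv (deriv Φ) s ≤ 1 + τ

section profile

theorem exists_prof {τ : ℝ} (hτ : 0 < τ) : ∃ δ : ℝ, ∃ Φ : ℝ → ℝ, Prof τ δ Φ := by
  set δ : ℝ := min τ 1 / 12 with hδ
  have hδ0 : 0 < δ := by have := lt_min hτ one_pos; positivity
  have hδ1 : δ ≤ 1 / 12 := by have := min_le_right τ 1; linarith
  have hδτ : 12 * δ ≤ τ := by have := min_le_left τ 1; linarith
  set b0 : ℝ → ℝ := fun s => Real.smoothTransition ((s - δ) / δ) *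
    Real.smoothTransition ((1 - s) / δ) with hb0
  have hb0s : ContDiff ℝ ∞ b0 := by
    apply ContDiff.mul
    · exact Real.smoothTransition.contDiff.comp ((contDiff_id.sub contDiff_const).div_const _)
    · exact Real.smoothTransition.contDiff.comp ((contDiff_const.sub contDiff_id).div_const _)
  have hb0n : ∀ s, 0 ≤ b0 s := fun s =>
    mul_nonneg (Real.smoothTransition.nonneg _) (Real.smoothTransition.nonneg _)
  have hb01 : ∀ s, b0 s ≤ 1 := fun s =>
    mul_le_one₀ (Real.smoothTransition.le_one _) (Real.smoothTransition.nonneg _)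
      (Real.smoothTransition.le_one _)
  have hb0l : ∀ s, s ≤ δ → b0 s = 0 := fun s hs => by
    have : Real.smoothTransition ((s - δ) / δ) = 0 :=
      Real.smoothTransition.zero_of_nonpos (div_nonpos_of_nonpos_of_nonneg (by linarith) hδ0.le)
    simp [hb0, this]
  have hb0r : ∀ s, 1 ≤ s → b0 s = 0 := fun s hs => by
    have : Real.smoothTransition ((1 - s) / δ) = 0 :=
      Real.smoothTransition.zero_of_nonpos (div_nonpos_of_nonpos_of_nonneg (by linarith) hδ0.le)
    simp [hb0, this]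
  have hb0m : ∀ s, 2 * δ ≤ s → s ≤ 1 - δ → b0 s = 1 := fun s hs hs' => by
    have h1 : Real.smoothTransition ((s - δ) / δ) = 1 :=
      Real.smoothTransition.one_of_one_le (by rw [le_div_iff₀ hδ0]; linarith)
    have h2 : Real.smoothTransition ((1 - s) / δ) = 1 :=
      Real.smoothTransition.one_of_one_le (by rw [le_div_iff₀ hδ0]; linarith)
    simp [hb0, h1, h2]
  have hb0c : Continuous b0 := hb0s.continuous
  have hb0i : ∀ a b, IntervalIntegrable b0 volume a b := fun a b => hb0c.intervalIntegrable a b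
  set I0 : ℝ := ∫ s in (0:ℝ)..1, b0 s with hI0
  have hI0l : 1 - 3 * δ ≤ I0 := by
    have h1 : ∫ s in (2 * δ)..(1 - δ), b0 s = 1 - 3 * δ := by
      rw [intervalIntegral.integral_congr (g := fun _ => (1:ℝ))]
      · simp; ring
      · intro s hs
        rw [uIcc_of_le (by linarith)] at hs
        exact hb0m s hs.1 hs.2
    rw [← h1]
    exact intervalIntegral.integral_mono_interval (by linarith) (by linarith) (by linarith)
      (Filter.Eventually.of_forall hb0n) (hb0i _ _)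
  have hI0p : 0 < I0 := by linarith
  have hI0i : I0⁻¹ ≤ 1 + τ := by
    have h2 : I0⁻¹ ≤ (1 - 3 * δ)⁻¹ := inv_anti₀ (by linarith) hI0l
    refine h2.trans ?_
    rw [inv_le_iff_one_le_mul₀ (by linarith)]
    nlinarith
  set b : ℝ → ℝ := fun s => I0⁻¹ * b0 s with hb
  have hbs : ContDiff ℝ ∞ b := contDiff_const.mul hb0s
  have hbc : Continuous b := hbs.continuous
  set φ : ℝ → ℝ := fun s => ∫ t in (0:ℝ)..s, b t with hφ
  have hφd : ∀ s, HasDerivAt φ (b s) s := fun s =>
    intervalIntegral.integral_hasDerivAt_right (hbc.intervalIntegrable _ _)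
      (hbc.stronglyMeasurableAtFilter _ _) hbc.continuousAt
  have hφD : deriv φ = b := funext fun s => (hφd s).deriv
  have hφs : ContDiff ℝ ∞ φ := by
    rw [contDiff_infty_iff_deriv]
    exact ⟨fun s => (hφd s).differentiableAt, by rw [hφD]; exact hbs⟩
  have hφc : Continuous φ := hφs.continuous
  set Φ : ℝ → ℝ := fun s => ∫ t in (0:ℝ)..s, φ t with hΦ
  have hΦd : ∀ s, HasDerivAt Φ (φ s) s := fun s =>
    intervalIntegral.integral_hasDerivAt_right (hφc.intervalIntegrable _ _)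
      (hφc.stronglyMeasurableAtFilter _ _) hφc.continuousAt
  have hΦD : deriv Φ = φ := funext fun s => (hΦd s).deriv
  have hΦs : ContDiff ℝ ∞ Φ := by
    rw [contDiff_infty_iff_deriv]
    exact ⟨fun s => (hΦd s).differentiableAt, by rw [hΦD]; exact hφs⟩
  have hφ0 : ∀ s, s ≤ δ → φ s = 0 := by
    intro s hs
    have : ∀ t ∈ uIcc (0:ℝ) s, b t = 0 := by
      intro t ht
      have : t ≤ δ := ht.2.trans (max_le hδ0.le hs)
      simp [hb, hb0l t this]
    rw [hφ]
    simp only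
    rw [intervalIntegral.integral_congr (g := fun _ => (0:ℝ)) (fun t ht => this t ht)]
    simp
  refine ⟨δ, Φ, hΦs, hδ0, by linarith, ?_, ?_, ?_, ?_⟩
  · intro s hs
    have : ∀ t ∈ uIcc (0:ℝ) s, φ t = 0 := by
      intro t ht
      exact hφ0 t (ht.2.trans (max_le hδ0.le hs))
    rw [hΦ]
    simp only
    rw [intervalIntegral.integral_congr (g := fun _ => (0:ℝ)) (fun t ht => this t ht)]
    simp
  · intro s hs
    rw [hΦD, hφ]
    simp only
    rw [← intervalIntegral.integral_add_adjacent_intervals (hbc.intervalIntegrable 0 1)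
      (hbc.intervalIntegrable 1 s)]
    have h1 : ∫ t in (0:ℝ)..1, b t = 1 := by
      rw [hb]
      simp only
      rw [intervalIntegral.integral_const_mul, ← hI0]
      exact inv_mul_cancel₀ hI0p.ne'
    have h2 : ∫ t in (1:ℝ)..s, b t = 0 := by
      rw [intervalIntegral.integral_congr (g := fun _ => (0:ℝ))]
      · simp
      · intro t ht
        rw [uIcc_of_le hs] at ht
        simp [hb, hb0r t ht.1]
    rw [h1, h2, add_zero]
  · intro s
    rw [hΦD, hφD]
    exact mul_nonneg (inv_nonneg.2 hI0p.le) (hb0n s)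
  · intro s
    rw [hΦD, hφD]
    calc I0⁻¹ * b0 s ≤ I0⁻¹ * 1 := by
          apply mul_le_mul_of_nonneg_left (hb01 s) (inv_nonneg.2 hI0p.le)
      _ ≤ 1 + τ := by rw [mul_one]; exact hI0i

variable {τ δ : ℝ} {Φ : ℝ → ℝ}

theorem Prof.diff (H : Prof τ δ Φ) (s : ℝ) : DifferentiableAt ℝ Φ s :=
  H.smooth.differentiable (by simp) s

theorem Prof.smooth1 (H : Prof τ δ Φ) : ContDiff ℝ ∞ (deriv Φ) :=
  (contDiff_infty_iff_deriv.1 H.smooth).2

theorem Prof.smooth2 (H : Prof τ δ Φ) : ContDiff ℝ ∞ (deriv (deriv Φ)) :=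
  (contDiff_infty_iff_deriv.1 H.smooth1).2

theorem Prof.diff1 (H : Prof τ δ Φ) (s : ℝ) : DifferentiableAt ℝ (deriv Φ) s :=
  H.smooth1.differentiable (by simp) s

theorem Prof.d1zero (H : Prof τ δ Φ) {s : ℝ} (hs : s ≤ δ) : deriv Φ s = 0 := by
  have h1 : ∀ s, s < δ → deriv Φ s = 0 := by
    intro s hs
    have : Φ =ᶠ[𝓝 s] fun _ => (0:ℝ) := by
      filter_upwards [Iio_mem_nhds hs] with t ht using H.zero t (le_of_lt ht)
    rw [this.deriv_eq]; simp
  have h2 : Tendsto (deriv Φ) (𝓝[<] s) (𝓝 (deriv Φ s)) :=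
    H.smooth1.continuous.continuousAt.tendsto.mono_left nhdsWithin_le_nhds
  have h3 : Tendsto (deriv Φ) (𝓝[<] s) (𝓝 0) := by
    apply tendsto_const_nhds.congr'
    filter_upwards [self_mem_nhdsWithin] with t ht
    exact (h1 t (lt_of_lt_of_le ht hs)).symm
  exact tendsto_nhds_unique h2 h3

theorem Prof.d2zero (H : Prof τ δ Φ) {s : ℝ} (hs : s ≤ δ) : deriv (deriv Φ) s = 0 := by
  have h1 : ∀ s, s < δ → deriv (deriv Φ) s = 0 := by
    intro s hs
    have : deriv Φ =ᶠ[𝓝 s] fun _ => (0:ℝ) := by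
      filter_upwards [Iio_mem_nhds hs] with t ht using H.d1zero (le_of_lt ht)
    rw [this.deriv_eq]; simp
  have h2 : Tendsto (deriv (deriv Φ)) (𝓝[<] s) (𝓝 (deriv (deriv Φ) s)) :=
    H.smooth2.continuous.continuousAt.tendsto.mono_left nhdsWithin_le_nhds
  have h3 : Tendsto (deriv (deriv Φ)) (𝓝[<] s) (𝓝 0) := by
    apply tendsto_const_nhds.congr'
    filter_upwards [self_mem_nhdsWithin] with t ht
    exact (h1 t (lt_of_lt_of_le ht hs)).symm
  exact tendsto_nhds_unique h2 h3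

theorem Prof.d2zero' (H : Prof τ δ Φ) {s : ℝ} (hs : 1 ≤ s) : deriv (deriv Φ) s = 0 := by
  have h1 : ∀ s, 1 < s → deriv (deriv Φ) s = 0 := by
    intro s hs
    have : deriv Φ =ᶠ[𝓝 s] fun _ => (1:ℝ) := by
      filter_upwards [Ioi_mem_nhds hs] with t ht using H.one t (le_of_lt ht)
    rw [this.deriv_eq]; simp
  have h2 : Tendsto (deriv (deriv Φ)) (𝓝[>] s) (𝓝 (deriv (deriv Φ) s)) :=
    H.smooth2.continuous.continuousAt.tendsto.mono_left nhdsWithin_le_nhds
  have h3 : Tendsto (deriv (deriv Φ)) (𝓝[>] s) (𝓝 0) := by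
    apply tendsto_const_nhds.congr'
    filter_upwards [self_mem_nhdsWithin] with t ht
    exact (h1 t (lt_of_le_of_lt hs ht)).symm
  exact tendsto_nhds_unique h2 h3

theorem Prof.d1mono (H : Prof τ δ Φ) : Monotone (deriv Φ) :=
  monotone_of_deriv_nonneg (fun s => H.diff1 s) H.d2nonneg

theorem Prof.d1nonneg (H : Prof τ δ Φ) (s : ℝ) : 0 ≤ deriv Φ s := by
  rcases le_total s δ with h | h
  · rw [H.d1zero h]
  · rw [← H.d1zero (le_refl δ)]; exact H.d1mono h

theorem Prof.d1le (H : Prof τ δ Φ) (s : ℝ) : deriv Φ s ≤ 1 := by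
  rcases le_total s 1 with h | h
  · rw [← H.one 1 le_rfl]; exact H.d1mono h
  · rw [H.one s h]

theorem Prof.mono (H : Prof τ δ Φ) : Monotone Φ :=
  monotone_of_deriv_nonneg (fun s => H.diff s) H.d1nonneg

theorem Prof.nonneg (H : Prof τ δ Φ) (s : ℝ) : 0 ≤ Φ s := by
  rcases le_total s δ with h | h
  · exact (H.zero s h).ge
  · have := H.mono h
    rwa [H.zero δ le_rfl] at this

theorem Prof.zero_of_nonpos (H : Prof τ δ Φ) {s : ℝ} (hs : s ≤ 0) : Φ s = 0 :=
  H.zero s (hs.trans H.δpos.le)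

/-- `Φ s - s` is antitone -/
theorem Prof.sub_anti (H : Prof τ δ Φ) : Antitone (fun s => Φ s - s) := by
  apply antitone_of_deriv_nonpos
  · intro s; exact (H.diff s).sub differentiableAt_id
  · intro s
    have : deriv (fun s => Φ s - s) s = deriv Φ s - 1 :=
      ((H.diff s).hasDerivAt.sub (hasDerivAt_id s)).deriv
    rw [this]; linarith [H.d1le s]

theorem Prof.le_self (H : Prof τ δ Φ) {s : ℝ} (hs : 0 ≤ s) : Φ s ≤ s := by
  have h := H.sub_anti hs
  simp only [H.zero_of_nonpos le_rfl, sub_zero] at h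
  linarith

theorem Prof.eq_of_ge (H : Prof τ δ Φ) {s : ℝ} (hs : 1 ≤ s) : Φ s = s - (1 - Φ 1) := by
  have hc : ∀ t ∈ Icc 1 s, (fun t => Φ t - t) t = (fun t => Φ t - t) 1 := by
    apply constant_of_derivWithin_zero (f := fun t => Φ t - t)
    · intro t _; exact ((H.diff t).sub differentiableAt_id).differentiableWithinAt
    · intro t ht
      have : HasDerivAt (fun s => Φ s - s) (deriv Φ t - 1) t :=
        (H.diff t).hasDerivAt.sub (hasDerivAt_id t)
      rw [H.one t ht.1, sub_self] at this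
      exact this.hasDerivWithinAt.derivWithin (uniqueDiffOn_Icc (lt_of_le_of_lt ht.1 ht.2) t
        ⟨ht.1, ht.2.le⟩)
  have := hc s ⟨hs, le_rfl⟩
  simp only at this
  linarith

theorem Prof.one_pos (H : Prof τ δ Φ) : 0 < Φ 1 := by
  by_contra hcon
  push Not at hcon
  have h0 : ∀ s, s ≤ 1 → Φ s = 0 := fun s hs =>
    le_antisymm ((H.mono hs).trans hcon) (H.nonneg s)
  have h1 : ∀ s, s < 1 → deriv Φ s = 0 := by
    intro s hs
    have : Φ =ᶠ[𝓝 s] fun _ => (0:ℝ) := by
      filter_upwards [Iio_mem_nhds hs] with t ht using h0 t (le_of_lt ht)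
    rw [this.deriv_eq]; simp
  have h2 : Tendsto (deriv Φ) (𝓝[<] 1) (𝓝 (deriv Φ 1)) :=
    H.smooth1.continuous.continuousAt.tendsto.mono_left nhdsWithin_le_nhds
  have h3 : Tendsto (deriv Φ) (𝓝[<] 1) (𝓝 0) := by
    apply tendsto_const_nhds.congr'
    filter_upwards [self_mem_nhdsWithin] with t ht
    exact (h1 t ht).symm
  have := tendsto_nhds_unique h2 h3
  rw [H.one 1 le_rfl] at this
  norm_num at this

theorem Prof.one_le (H : Prof τ δ Φ) : Φ 1 ≤ 1 := H.le_self zero_le_one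

theorem Prof.lower (H : Prof τ δ Φ) {s : ℝ} (hs : 1 ≤ s) : Φ 1 * s ≤ Φ s := by
  rw [H.eq_of_ge hs]
  nlinarith [H.one_le, H.one_pos]

/-- `|Φ s - s| ≤ 1` for `s ≥ 0` -/
theorem Prof.near (H : Prof τ δ Φ) (s : ℝ) : s - 1 ≤ Φ s := by
  rcases le_total 1 s with h | h
  · rw [H.eq_of_ge h]; linarith [H.one_pos]
  · linarith [H.nonneg s]

/-- `0 ≤ s Φ'(s) - Φ(s) ≤ 1` -/
theorem Prof.gap (H : Prof τ δ Φ) {s : ℝ} (hs : 0 ≤ s) :
    0 ≤ s * deriv Φ s - Φ s ∧ s * deriv Φ s - Φ s ≤ 1 := by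
  have hd : ∀ s, HasDerivAt (fun s => s * deriv Φ s - Φ s) (s * deriv (deriv Φ) s) s := by
    intro s
    have h := ((hasDerivAt_id s).mul (H.diff1 s).hasDerivAt).sub (H.diff s).hasDerivAt
    have e : 1 * deriv Φ s + id s * deriv (deriv Φ) s - deriv Φ s = s * deriv (deriv Φ) s := by
      simp only [id]
      ring
    rw [e] at h
    exact h
  constructor
  · have hm : MonotoneOn (fun s => s * deriv Φ s - Φ s) (Ici 0) := by
      apply monotoneOn_of_deriv_nonneg (convex_Ici 0)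
      · exact fun s _ => (hd s).continuousAt.continuousWithinAt
      · exact fun s _ => (hd s).differentiableAt.differentiableWithinAt
      · intro s hs
        rw [interior_Ici] at hs
        rw [(hd s).deriv]
        exact mul_nonneg (le_of_lt hs) (H.d2nonneg s)
    have := hm (self_mem_Ici) hs hs
    simpa [H.zero_of_nonpos le_rfl] using this
  · rcases le_total 1 s with h | h
    · rw [H.one s h, H.eq_of_ge h]; linarith [H.one_pos]
    · have h1 := H.nonneg s
      have h2 := H.d1le s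
      have h3 := H.d1nonneg s
      nlinarith

end profile

end Pool.Agent.Lib.QNL.WProf
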