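import Pool.Agent.Lib.QNL.DV
import Pool.Agent.Lib.QNL.WProf

/-!
The weight of the layer inequality.

* `Dat O g θ`: the data (`lap g = -1`, `lap θ = 0`, `θ > 0` on `O`, `{z ∈ O | 0 ≤ g z}` compact,
  regular level).
* `wt Φ O g θ h = h θ Φ(g / (h θ))` on `O`, zero elsewhere: smooth with compact support in
  `D = {z ∈ O | 0 < g z}`, exact formulas for its derivatives and its Laplacian.
-/

set_option autoImplicit false

namespace Pool.Agent.Lib.QNL.Wt

open MeasureTheory Filter Topology Set Pool.Agent.Lib.QNL.WProf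
open scoped ContDiff

/-- the data of the layer inequality -/
structure Dat (O : Set ℂ) (g θ : ℂ → ℝ) : Prop where
  open_ : IsOpen O
  g_sm : ContDiffOn ℝ ∞ g O
  g_lap : ∀ z ∈ O, lap g z = -1
  cpt : IsCompact {z | z ∈ O ∧ 0 ≤ g z}
  reg : ∀ z ∈ O, g z = 0 → gr g z ≠ 0
  θ_sm : ContDiffOn ℝ ∞ θ O
  θ_pos : ∀ z ∈ O, 0 < θ z
  θ_lap : ∀ z ∈ O, lap θ z = 0

/-- the weight `h θ Φ(g / (h θ))` -/
noncomputable def wt (Φ : ℝ → ℝ) (O : Set ℂ) (g θ : ℂ → ℝ) (h : ℝ) : ℂ → ℝ :=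
  O.indicator fun z => h * θ z * Φ (g z / (h * θ z))

section weight

variable {τ δ : ℝ} {Φ : ℝ → ℝ} {O : Set ℂ} {g θ : ℂ → ℝ} {h : ℝ} {z : ℂ}

theorem wt_of_mem (hz : z ∈ O) : wt Φ O g θ h z = h * θ z * Φ (g z / (h * θ z)) :=
  indicator_of_mem hz _

theorem wt_of_notMem (hz : z ∉ O) : wt Φ O g θ h z = 0 := indicator_of_notMem hz _

theorem wt_zero (H : Prof τ δ Φ) (A : Dat O g θ) (hh : 0 < h) (hz : g z ≤ δ * (h * θ z)) :
    wt Φ O g θ h z = 0 := by
  by_cases hzO : z ∈ O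
  · rw [wt_of_mem hzO, H.zero, mul_zero]
    rw [div_le_iff₀ (mul_pos hh (A.θ_pos z hzO))]
    exact hz
  · exact wt_of_notMem hzO

theorem wt_zero' (H : Prof τ δ Φ) (A : Dat O g θ) (hh : 0 < h)
    (hz : z ∉ {z | z ∈ O ∧ δ * (h * θ z) ≤ g z}) : wt Φ O g θ h z = 0 := by
  by_cases hzO : z ∈ O
  · apply wt_zero H A hh
    by_contra hcon
    exact hz ⟨hzO, (not_le.1 hcon).le⟩
  · exact wt_of_notMem hzO

/-- the compact support of the weight -/
theorem cpt_supp (H : Prof τ δ Φ) (A : Dat O g θ) (hh : 0 < h) :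
    IsCompact {z | z ∈ O ∧ δ * (h * θ z) ≤ g z} := by
  have h1 : {z | z ∈ O ∧ δ * (h * θ z) ≤ g z} =
      {z | z ∈ O ∧ 0 ≤ g z} ∩ {z | 0 ≤ (fun z => g z - δ * (h * θ z)) z} := by
    ext z
    simp only [mem_ofPred_eq, mem_inter_iff]
    constructor
    · rintro ⟨h1, h2⟩
      have := mul_pos H.δpos (mul_pos hh (A.θ_pos z h1))
      exact ⟨⟨h1, by linarith⟩, by linarith⟩
    · rintro ⟨⟨h1, _⟩, h2⟩
      exact ⟨h1, by linarith⟩
  rw [h1]
  have hc : ContinuousOn (fun z => g z - δ * (h * θ z)) {z | z ∈ O ∧ 0 ≤ g z} :=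
    ((A.g_sm.continuousOn).sub (continuousOn_const.mul
      (continuousOn_const.mul A.θ_sm.continuousOn))).mono fun z hz => hz.1
  obtain ⟨V, hV, hV'⟩ := (continuousOn_iff_isClosed.1 hc) (Ici 0) isClosed_Ici
  have h2 : {z | z ∈ O ∧ 0 ≤ g z} ∩ {z | 0 ≤ (fun z => g z - δ * (h * θ z)) z} =
      {z | z ∈ O ∧ 0 ≤ g z} ∩ V := by
    rw [inter_comm _ V, ← hV']
    ext z
    simp only [mem_inter_iff, mem_ofPred_eq, mem_preimage, mem_Ici]
    tauto
  rw [h2]
  exact A.cpt.inter_right hV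

theorem supp_subset (H : Prof τ δ Φ) (A : Dat O g θ) (hh : 0 < h) :
    {z | z ∈ O ∧ δ * (h * θ z) ≤ g z} ⊆ {z | z ∈ O ∧ 0 < g z} := fun z hz =>
  ⟨hz.1, lt_of_lt_of_le (mul_pos H.δpos (mul_pos hh (A.θ_pos z hz.1))) hz.2⟩

theorem isOpen_D (A : Dat O g θ) : IsOpen {z | z ∈ O ∧ 0 < g z} := by
  have := A.g_sm.continuousOn.isOpen_inter_preimage A.open_ (isOpen_Ioi (a := (0:ℝ)))
  exact this

theorem ratio_smooth (A : Dat O g θ) (hh : 0 < h) :
    ContDiffOn ℝ ∞ (fun z => g z / (h * θ z)) O :=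
  A.g_sm.div (contDiffOn_const.mul A.θ_sm) fun _ hz => (mul_pos hh (A.θ_pos _ hz)).ne'

theorem smooth_on (H : Prof τ δ Φ) (A : Dat O g θ) (hh : 0 < h) :
    ContDiffOn ℝ ∞ (wt Φ O g θ h) O := by
  have h1 : ContDiffOn ℝ ∞ (fun z => h * θ z * Φ (g z / (h * θ z))) O := by
    apply (contDiffOn_const.mul A.θ_sm).mul
    exact H.smooth.comp_contDiffOn (ratio_smooth A hh)
  exact h1.congr fun z hz => wt_of_mem hz

theorem wt_smooth (H : Prof τ δ Φ) (A : Dat O g θ) (hh : 0 < h) :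
    ContDiff ℝ ∞ (wt Φ O g θ h) :=
  contDiff_of_cpt A.open_ (cpt_supp H A hh) (fun _ hz => hz.1) (smooth_on H A hh)
    fun _ hz => wt_zero' H A hh hz

theorem wt_cpt (H : Prof τ δ Φ) (A : Dat O g θ) (hh : 0 < h) :
    HasCompactSupport (wt Φ O g θ h) :=
  HasCompactSupport.intro (cpt_supp H A hh) fun _ hz => wt_zero' H A hh hz

theorem wt_tsupport (H : Prof τ δ Φ) (A : Dat O g θ) (hh : 0 < h) :
    tsupport (wt Φ O g θ h) ⊆ {z | z ∈ O ∧ 0 < g z} := by
  refine (closure_minimal ?_ (cpt_supp H A hh).isClosed).trans (supp_subset H A hh)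
  intro z hz
  by_contra hcon
  exact hz (wt_zero' H A hh hcon)

theorem wt_nonneg (H : Prof τ δ Φ) (A : Dat O g θ) (hh : 0 < h) (z : ℂ) :
    0 ≤ wt Φ O g θ h z := by
  by_cases hz : z ∈ O
  · rw [wt_of_mem hz]
    exact mul_nonneg (mul_pos hh (A.θ_pos z hz)).le (H.nonneg _)
  · rw [wt_of_notMem hz]

theorem wt_le (H : Prof τ δ Φ) (A : Dat O g θ) (hh : 0 < h) (hz : z ∈ O) (hg : 0 ≤ g z) :
    wt Φ O g θ h z ≤ g z := by
  have hp := mul_pos hh (A.θ_pos z hz)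
  rw [wt_of_mem hz]
  calc h * θ z * Φ (g z / (h * θ z)) ≤ h * θ z * (g z / (h * θ z)) :=
        mul_le_mul_of_nonneg_left (H.le_self (div_nonneg hg hp.le)) hp.le
    _ = g z := mul_div_cancel₀ _ hp.ne'

/-- the weight is comparable to `g` on `{g ≥ h θ}` -/
theorem wt_ge (H : Prof τ δ Φ) (A : Dat O g θ) (hh : 0 < h) (hz : z ∈ O)
    (hg : h * θ z ≤ g z) : Φ 1 * g z ≤ wt Φ O g θ h z := by
  have hp := mul_pos hh (A.θ_pos z hz)
  rw [wt_of_mem hz]
  have h1 : 1 ≤ g z / (h * θ z) := by rwa [le_div_iff₀ hp, one_mul]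
  calc Φ 1 * g z = h * θ z * (Φ 1 * (g z / (h * θ z))) := by
        rw [mul_left_comm, mul_div_cancel₀ _ hp.ne']
    _ ≤ h * θ z * Φ (g z / (h * θ z)) := mul_le_mul_of_nonneg_left (H.lower h1) hp.le

/-- `g - h θ ≤ v_h` -/
theorem wt_near (H : Prof τ δ Φ) (A : Dat O g θ) (hh : 0 < h) (hz : z ∈ O) :
    g z - h * θ z ≤ wt Φ O g θ h z := by
  have hp := mul_pos hh (A.θ_pos z hz)
  rw [wt_of_mem hz]
  calc g z - h * θ z = h * θ z * (g z / (h * θ z) - 1) := by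
        rw [mul_sub, mul_div_cancel₀ _ hp.ne', mul_one]
    _ ≤ h * θ z * Φ (g z / (h * θ z)) :=
        mul_le_mul_of_nonneg_left (H.near _) hp.le

/-- pointwise convergence on `D` -/
theorem wt_tendsto (H : Prof τ δ Φ) (A : Dat O g θ) (hz : z ∈ O) (hg : 0 ≤ g z) :
    Tendsto (fun h => wt Φ O g θ h z) (𝓝[>] 0) (𝓝 (g z)) := by
  have h1 : Tendsto (fun h : ℝ => g z - h * θ z) (𝓝[>] 0) (𝓝 (g z)) := by
    have : Tendsto (fun h : ℝ => g z - h * θ z) (𝓝 0) (𝓝 (g z - 0 * θ z)) :=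
      (continuous_const.sub (continuous_id.mul continuous_const)).tendsto 0
    rw [zero_mul, sub_zero] at this
    exact this.mono_left nhdsWithin_le_nhds
  refine tendsto_of_tendsto_of_tendsto_of_le_of_le' h1 tendsto_const_nhds ?_ ?_
  · filter_upwards [self_mem_nhdsWithin] with h hh using wt_near H A hh hz
  · filter_upwards [self_mem_nhdsWithin] with h hh using wt_le H A hh hz hg

/-! ### derivatives -/

theorem dv_ratio (A : Dat O g θ) (hh : 0 < h) (hz : z ∈ O) (v : ℂ) :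
    DifferentiableAt ℝ (fun w => g w / (h * θ w)) z ∧
    dv v (fun w => g w / (h * θ w)) z =
      (dv v g z - g z / (h * θ z) * (h * dv v θ z)) / (h * θ z) := by
  have hgd : DifferentiableAt ℝ g z :=
    (A.g_sm.contDiffAt (A.open_.mem_nhds hz)).differentiableAt (by simp)
  have hθd : DifferentiableAt ℝ θ z :=
    (A.θ_sm.contDiffAt (A.open_.mem_nhds hz)).differentiableAt (by simp)
  have hp := mul_pos hh (A.θ_pos z hz)
  have hhθ : DifferentiableAt ℝ (fun w => h * θ w) z := (differentiableAt_const h).mul hθd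
  have hQ : DifferentiableAt ℝ (fun w => g w / (h * θ w)) z :=
    ((ratio_smooth A hh).contDiffAt (A.open_.mem_nhds hz)).differentiableAt (by simp)
  refine ⟨hQ, ?_⟩
  have h1 : (fun w => g w / (h * θ w) * (h * θ w)) =ᶠ[𝓝 z] g := by
    filter_upwards [A.open_.mem_nhds hz] with w hw
    exact div_mul_cancel₀ _ (mul_pos hh (A.θ_pos w hw)).ne'
  have h2 := dv_congr (v := v) h1
  rw [dv_mul hQ hhθ, dv_cmul h hθd] at h2
  rw [eq_div_iff hp.ne']
  linarith

theorem dv_wt (H : Prof τ δ Φ) (A : Dat O g θ) (hh : 0 < h) (hz : z ∈ O) (v : ℂ) :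
    dv v (wt Φ O g θ h) z = deriv Φ (g z / (h * θ z)) * dv v g z +
      h * dv v θ z * (Φ (g z / (h * θ z)) - g z / (h * θ z) * deriv Φ (g z / (h * θ z))) := by
  obtain ⟨hQ, hQd⟩ := dv_ratio A hh hz v
  have hθd : DifferentiableAt ℝ θ z :=
    (A.θ_sm.contDiffAt (A.open_.mem_nhds hz)).differentiableAt (by simp)
  have hp := mul_pos hh (A.θ_pos z hz)
  have hhθ : DifferentiableAt ℝ (fun w => h * θ w) z := (differentiableAt_const h).mul hθd
  have h1 : wt Φ O g θ h =ᶠ[𝓝 z] fun w => (h * θ w) * Φ (g w / (h * θ w)) := by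
    filter_upwards [A.open_.mem_nhds hz] with w hw using wt_of_mem hw
  have hΦQ : DifferentiableAt ℝ (fun w => Φ (g w / (h * θ w))) z :=
    DifferentiableAt.comp z (H.diff _) hQ
  rw [dv_congr h1, dv_mul hhθ hΦQ, dv_cmul h hθd, dv_comp (g := fun w => g w / (h * θ w))
    (H.diff _) hQ, hQd]
  have hθ0 := (A.θ_pos z hz).ne'
  have hh0 := hh.ne'
  field_simp
  ring

/-- **second derivatives of the weight** -/
theorem dv_dv_wt (H : Prof τ δ Φ) (A : Dat O g θ) (hh : 0 < h) (hz : z ∈ O) (u v : ℂ) :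
    dv u (dv v (wt Φ O g θ h)) z =
      deriv (deriv Φ) (g z / (h * θ z)) * (dv u g z - g z / (h * θ z) * (h * dv u θ z)) *
        (dv v g z - g z / (h * θ z) * (h * dv v θ z)) / (h * θ z) +
      deriv Φ (g z / (h * θ z)) * dv u (dv v g) z +
      h * dv u (dv v θ) z *
        (Φ (g z / (h * θ z)) - g z / (h * θ z) * deriv Φ (g z / (h * θ z))) := by
  obtain ⟨hQ, hQd⟩ := dv_ratio A hh hz u
  have hp := mul_pos hh (A.θ_pos z hz)
  have h1 : dv v (wt Φ O g θ h) =ᶠ[𝓝 z] fun w => deriv Φ (g w / (h * θ w)) * dv v g w +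
      h * dv v θ w * (Φ (g w / (h * θ w)) - g w / (h * θ w) * deriv Φ (g w / (h * θ w))) := by
    filter_upwards [A.open_.mem_nhds hz] with w hw using dv_wt H A hh hw v
  have hgv : DifferentiableAt ℝ (dv v g) z :=
    ((contDiffOn_dv A.open_ A.g_sm (m := ∞) (by simp) v).contDiffAt
      (A.open_.mem_nhds hz)).differentiableAt (by simp)
  have hθv : DifferentiableAt ℝ (dv v θ) z :=
    ((contDiffOn_dv A.open_ A.θ_sm (m := ∞) (by simp) v).contDiffAt
      (A.open_.mem_nhds hz)).differentiableAt (by simp)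
  have hΦQ : DifferentiableAt ℝ (fun w => Φ (g w / (h * θ w))) z :=
    DifferentiableAt.comp z (H.diff _) hQ
  have hΦ1Q : DifferentiableAt ℝ (fun w => deriv Φ (g w / (h * θ w))) z :=
    DifferentiableAt.comp z (H.diff1 _) hQ
  have hhθv : DifferentiableAt ℝ (fun w => h * dv v θ w) z :=
    (differentiableAt_const h).mul hθv
  have hQΦ : DifferentiableAt ℝ (fun w => g w / (h * θ w) * deriv Φ (g w / (h * θ w))) z :=
    hQ.mul hΦ1Q
  have hR : DifferentiableAt ℝ (fun w => Φ (g w / (h * θ w)) -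
      g w / (h * θ w) * deriv Φ (g w / (h * θ w))) z := hΦQ.fun_sub hQΦ
  rw [dv_congr h1, dv_add (hΦ1Q.fun_mul hgv) (hhθv.fun_mul hR), dv_mul hΦ1Q hgv, dv_mul hhθv hR,
    dv_sub hΦQ hQΦ, dv_mul hQ hΦ1Q, dv_cmul h hθv,
    dv_comp (χ := Φ) (g := fun w => g w / (h * θ w)) (H.diff _) hQ,
    dv_comp (χ := deriv Φ) (g := fun w => g w / (h * θ w)) (H.diff1 _) hQ, hQd]
  have hθ0 := (A.θ_pos z hz).ne'
  have hh0 := hh.ne'
  field_simp
  ring

/-- **the Laplacian of the weight** -/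
theorem lap_wt (H : Prof τ δ Φ) (A : Dat O g θ) (hh : 0 < h) (hz : z ∈ O) :
    lap (wt Φ O g θ h) z = deriv (deriv Φ) (g z / (h * θ z)) *
      ((dx g z - g z / (h * θ z) * (h * dx θ z)) ^ 2 +
        (dy g z - g z / (h * θ z) * (h * dy θ z)) ^ 2) / (h * θ z) -
      deriv Φ (g z / (h * θ z)) := by
  have h1 := dv_dv_wt H A hh hz 1 1
  have h2 := dv_dv_wt H A hh hz Complex.I Complex.I
  have h3 := A.g_lap z hz
  have h4 := A.θ_lap z hz
  simp only [lap, dx_eq, dy_eq] at h3 h4 ⊢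
  rw [h1, h2]
  have h5 : dv 1 (dv 1 g) z = -1 - dv Complex.I (dv Complex.I g) z := by linarith
  have h6 : dv 1 (dv 1 θ) z = - dv Complex.I (dv Complex.I θ) z := by linarith
  rw [h5, h6]
  ring

end weight

end Pool.Agent.Lib.QNL.Wt
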