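import Pool.Agent.Lib.QNL.Stmts
import Pool.Agent.Lib.QNL.Wt
import Pool.Agent.Lib.QNL.FId

/-!
Group E (layer inequality): common definitions and the interface statements, as `Prop`s.
-/

set_option autoImplicit false

namespace Pool.Agent.Lib.QNL.ES

open MeasureTheory Filter Topology Set
open scoped ContDiff ComplexConjugate
open Pool.Agent.Lib.QNL.WProf Pool.Agent.Lib.QNL.Wt Pool.Agent.Lib.QNL.FId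

/-- the domain -/
def DD (O : Set ℂ) (g : ℂ → ℝ) : Set ℂ := {z | z ∈ O ∧ 0 < g z}

/-- the layer `{0 < g < t}` -/
def LL (O : Set ℂ) (g : ℂ → ℝ) (t : ℝ) : Set ℂ := {z | z ∈ O ∧ 0 < g z ∧ g z < t}

/-- all hypotheses of (BI_j) -/
structure Hy (O : Set ℂ) (g θ : ℂ → ℝ) (j : ℕ) (Y : ℕ → ℕ → ℂ → ℂ) : Prop where
  dat : Dat O g θ
  jet : Jet (DD O g) j Y
  hyp : ∃ C t₀ : ℝ, 0 < t₀ ∧ ∀ t, 0 < t → t < t₀ → ∀ a b, a + b = 2 * j →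
    ∫ z in LL O g t, ‖Y a b z‖ ^ 2 ≤ C * t

/-- (1) Hardy (helper40) -/
def StmtHY : Prop := ∀ (O : Set ℂ) (g θ : ℂ → ℝ) (j : ℕ) (Y : ℕ → ℕ → ℂ → ℂ),
  Hy O g θ j Y → ∃ C : ℝ, 0 ≤ C ∧ ∀ a b m, a + b + m = 2 * j →
    IntegrableOn (fun z => ‖Y a b z‖ ^ 2 / g z ^ (2 * m)) (DD O g) ∧
    ∀ T, 0 < T → ∫ z in LL O g T, ‖Y a b z‖ ^ 2 / g z ^ (2 * m) ≤ C * T

/-- weights: smooth with compact support in `D ∩ {g < T}`, `|D^i K| ≤ C_i g^(-n-i)` -/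
structure Wgt (D : Set ℂ) (g : ℂ → ℝ) (T : ℝ) (n : ℕ) (C : ℕ → ℝ) (K : ℂ → ℂ) : Prop where
  sm : ContDiff ℝ ∞ K
  cpt : HasCompactSupport K
  sub : tsupport K ⊆ {z | z ∈ D ∧ g z < T}
  bd : ∀ i : ℕ, ∀ z ∈ D, ‖iteratedFDeriv ℝ i K z‖ ≤ C i / g z ^ (n + i)

/-- (2) lowering (helper75) -/
def StmtLow : Prop := ∀ (j q₀ : ℕ) (C : ℕ → ℝ), ∃ C' : ℝ, 0 ≤ C' ∧
  ∀ (D : Set ℂ) (g : ℂ → ℝ) (Y : ℕ → ℕ → ℂ → ℂ) (T E : ℝ), IsOpen D → (∀ z ∈ D, 0 < g z) →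
    ContinuousOn g D → IsJet D Y →
    (∀ α β γ δ m, γ + δ = q₀ → α + β + m + q₀ = 4 * j →
      IntegrableOn (fun z => ‖Y α β z‖ * ‖Y γ δ z‖ / g z ^ m) {z | z ∈ D ∧ g z < T} ∧
      ∫ z in {z | z ∈ D ∧ g z < T}, ‖Y α β z‖ * ‖Y γ δ z‖ / g z ^ m ≤ E) →
    ∀ (n : ℕ) (K : ℂ → ℂ), Wgt D g T n C K → ∀ α β γ δ, q₀ ≤ γ + δ →
      α + β + n + (γ + δ) = 4 * j →
      ‖∫ z, K z * (Y α β z * conj (Y γ δ z))‖ ≤ C' * E ∧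
      ‖∫ z, K z * (Y γ δ z * conj (Y α β z))‖ ≤ C' * E

/-- `ψ(σ_h) B` on `O`, zero elsewhere, `σ_h = g / (h θ)` -/
noncomputable def ps (ψ : ℝ → ℝ) (B : ℂ → ℂ) (O : Set ℂ) (g θ : ℂ → ℝ) (h : ℝ) : ℂ → ℂ :=
  O.indicator fun z => ((ψ (g z / (h * θ z)) : ℝ) : ℂ) * B z

/-- (3a) the weights `ψ(σ_h) B`, `ψ` supported in `[δ, 1]` (helper75) -/
def StmtPs : Prop := ∀ (O : Set ℂ) (g θ : ℂ → ℝ) (ψ : ℝ → ℝ) (B : ℂ → ℂ) (δ : ℝ), Dat O g θ →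
  ContDiff ℝ ∞ ψ → 0 < δ → (∀ s, s ≤ δ → ψ s = 0) → (∀ s, 1 ≤ s → ψ s = 0) →
  ContDiffOn ℝ ∞ B O →
  ∃ (C : ℕ → ℝ) (T : ℝ), 0 < T ∧ ∀ h, 0 < h → h ≤ 1 →
    Wgt (DD O g) g (T * h) 0 C (ps ψ B O g θ h)

/-- (3b) the weights `ψ(σ_h)`, `ψ = 0` on `(-∞, δ]`, `ψ = p` on `[1, ∞)`, and their first
derivatives (helper75) -/
def StmtPs1 : Prop := ∀ (O : Set ℂ) (g θ : ℂ → ℝ) (ψ : ℝ → ℝ) (δ p : ℝ), Dat O g θ →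
  ContDiff ℝ ∞ ψ → 0 < δ → (∀ s, s ≤ δ → ψ s = 0) → (∀ s, 1 ≤ s → ψ s = p) →
  ∃ (C : ℕ → ℝ) (T T₁ : ℝ), 0 < T ∧ (∀ z ∈ DD O g, g z < T₁) ∧ ∀ h, 0 < h → h ≤ 1 →
    Wgt (DD O g) g T₁ 0 C (ps ψ (fun _ => 1) O g θ h) ∧
    Wgt (DD O g) g (T * h) 1 C (dz (ps ψ (fun _ => 1) O g θ h)) ∧
    Wgt (DD O g) g (T * h) 1 C (dzb (ps ψ (fun _ => 1) O g θ h))

/-- (4) products of jets of total order `4 j - m`, weights `g^(-m)`: `O(T)` (from (1)) and, with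
one factor of order `2 j + 1`, `o(T)` (from (1) and (6)) (helper5) -/
def StmtPair : Prop := ∀ (O : Set ℂ) (g θ : ℂ → ℝ) (j : ℕ) (Y : ℕ → ℕ → ℂ → ℂ),
  Hy O g θ j Y →
    (∃ C : ℝ, 0 ≤ C ∧ ∀ α β γ δ m, γ + δ = 2 * j → α + β + m = 2 * j →
      IntegrableOn (fun z => ‖Y α β z‖ * ‖Y γ δ z‖ / g z ^ m) (DD O g) ∧
      ∀ T, 0 < T → ∫ z in LL O g T, ‖Y α β z‖ * ‖Y γ δ z‖ / g z ^ m ≤ C * T) ∧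
    (∀ α β γ δ m, γ + δ = 2 * j + 1 → α + β + m + 1 = 2 * j →
      IntegrableOn (fun z => ‖Y α β z‖ * ‖Y γ δ z‖ / g z ^ m) (DD O g) ∧
      ∀ e, 0 < e → ∃ T₀, 0 < T₀ ∧ ∀ T, 0 < T → T < T₀ →
        ∫ z in LL O g T, ‖Y α β z‖ * ‖Y γ δ z‖ / g z ^ m ≤ e * T)

/-- (5) `lim ∫ Φ'(σ_h) F = (2j+1)² ∫_D |Y_jj|²` (helper96) -/
def StmtLimF : Prop := ∀ (O : Set ℂ) (g θ : ℂ → ℝ) (j : ℕ) (Y : ℕ → ℕ → ℂ → ℂ) (τ δ : ℝ)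
  (Φ : ℝ → ℝ), Hy O g θ j Y → Prof τ δ Φ →
  Tendsto (fun h : ℝ => ∫ z in DD O g, deriv Φ (g z / (h * θ z)) * FR (2 * j) Y z) (𝓝[>] 0)
    (𝓝 ((2 * (j : ℝ) + 1) ^ 2 * ∫ z in DD O g, ‖Y j j z‖ ^ 2))

/-- (6) bounded ends and second differences (helper40) -/
def StmtSec : Prop := ∀ (O : Set ℂ) (g θ : ℂ → ℝ) (j : ℕ) (Y : ℕ → ℕ → ℂ → ℂ),
  Hy O g θ j Y → ∀ a b, a + b = 2 * j + 1 →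
    IntegrableOn (fun z => g z * ‖Y a b z‖ ^ 2) (DD O g)

/-- `R = |∇g - (g/θ) ∇θ|² / θ`: on `O`, `Δ v_h = (1/h) Φ''(σ_h) R - Φ'(σ_h)` -/
noncomputable def RR (g θ : ℂ → ℝ) (z : ℂ) : ℝ :=
  ((dx g z - g z / θ z * dx θ z) ^ 2 + (dy g z - g z / θ z * dy θ z) ^ 2) / θ z

/-- (7) flatness (helper5) -/
def StmtFlat : Prop := ∀ (O : Set ℂ) (g θ : ℂ → ℝ) (j : ℕ) (Y : ℕ → ℕ → ℂ → ℂ) (τ δ : ℝ)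
  (Φ : ℝ → ℝ), Hy O g θ j Y → Prof τ δ Φ → ∀ a b, a + b + 1 = 2 * j →
  Tendsto (fun h : ℝ => 1 / h * ∫ z in DD O g, deriv (deriv Φ) (g z / (h * θ z)) * RR g θ z *
    (‖Y (a + 1) b z‖ ^ 2 - ‖Y a (b + 1) z‖ ^ 2)) (𝓝[>] 0) (𝓝 0)

/-- (8) cross terms (helper5) -/
def StmtCross : Prop := ∀ (O : Set ℂ) (g θ : ℂ → ℝ) (j : ℕ) (Y : ℕ → ℕ → ℂ → ℂ) (τ δ : ℝ)
  (Φ : ℝ → ℝ), Hy O g θ j Y → Prof τ δ Φ → ∀ α β γ κ,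
  α + β + (γ + κ) = 4 * j → 2 * j < γ + κ →
  Tendsto (fun h : ℝ => ((1 / h : ℝ) : ℂ) *
    ∫ z, ps (deriv (deriv Φ)) (fun z => ((RR g θ z : ℝ) : ℂ)) O g θ h z *
    (Y α β z * conj (Y γ κ z))) (𝓝[>] 0) (𝓝 0)

/-- (9) the leading part (helper5, from (7), (8)) -/
def StmtLead : Prop := ∀ (O : Set ℂ) (g θ : ℂ → ℝ) (j : ℕ) (Y : ℕ → ℕ → ℂ → ℂ) (τ δ : ℝ)
  (Φ : ℝ → ℝ), Hy O g θ j Y → Prof τ δ Φ →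
  Tendsto (fun h : ℝ => 1 / h * ∫ z in DD O g, deriv (deriv Φ) (g z / (h * θ z)) * RR g θ z *
    (FR (2 * j) Y z - (2 * j + 1) * ‖Y j j z‖ ^ 2)) (𝓝[>] 0) (𝓝 0)

end Pool.Agent.Lib.QNL.ES
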