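import Pool.Agent.Lib.QNL.Wts73

/-!
# Bounds of the shares
-/

set_option autoImplicit false

namespace Pool.Agent.Lib.QNL.Enc

open MeasureTheory Set Filter Topology Finset
open scoped Nat
open Pool.Agent.Lib.QNL.Wts73

/-! ## ratio bounds for all `j` -/

theorem JJ_ratio (α β : ℕ) (w : ℝ) : JJ (α + 1) (β + 1) w ≤ JJ α β w / 4 := by
  unfold JJ
  rw [← intervalIntegral.integral_div]
  refine intervalIntegral.integral_mono_on zero_le_one
    ((cont_JJ _ _ w).intervalIntegrable _ _)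
    (((cont_JJ _ _ w).div_const 4).intervalIntegrable _ _) ?_
  intro v hv
  have h1 : 0 ≤ v := hv.1
  have h2 : 0 ≤ 1 - v := sub_nonneg.2 hv.2
  have h3 : v * (1 - v) ≤ 1 / 4 := by nlinarith [sq_nonneg (2 * v - 1)]
  have h4 : 0 ≤ v ^ α * (1 - v) ^ β * Real.exp (-(w * v)) := by positivity
  calc v ^ (α + 1) * (1 - v) ^ (β + 1) * Real.exp (-(w * v))
      = (v * (1 - v)) * (v ^ α * (1 - v) ^ β * Real.exp (-(w * v))) := by ring
    _ ≤ 1 / 4 * (v ^ α * (1 - v) ^ β * Real.exp (-(w * v))) :=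
        mul_le_mul_of_nonneg_right h3 h4
    _ = _ := by ring

theorem psi_ratio (j : ℕ) {w : ℝ} (hw : 0 ≤ w) :
    psi (j + 2) w ≤ w / (4 * (j + 1)) * psi (j + 1) w := by
  have h1 := JJ_ratio (j + 2) j w
  have h2 : (0 : ℝ) < j + 1 := by positivity
  have h3 : (0 : ℝ) < j ! := by positivity
  have e1 : psi (j + 2) w = w ^ (j + 3) / ((j + 1) * j !) * JJ (j + 3) (j + 1) w := by
    simp only [psi]
    rw [Nat.factorial_succ]
    push_cast
    ring
  have e2 : w / (4 * (j + 1)) * psi (j + 1) w =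
      w ^ (j + 3) / ((j + 1) * j !) * (JJ (j + 2) j w / 4) := by
    simp only [psi]
    field_simp
    ring
  rw [e1, e2]
  exact mul_le_mul_of_nonneg_left h1 (by positivity)

theorem XX_ratio (j : ℕ) {w : ℝ} (hw : 0 ≤ w) :
    XX (j + 2) w ≤ w / (4 * (j + 1)) * XX (j + 1) w := by
  have h1 := JJ_ratio (j + 3) j w
  have h2 : (0 : ℝ) < j + 1 := by positivity
  have h3 : (0 : ℝ) < j ! := by positivity
  have e1 : XX (j + 2) w = w ^ (j + 4) / ((j + 1) * j !) * JJ (j + 4) (j + 1) w := by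
    rw [XX_succ, Nat.factorial_succ]
    push_cast
    ring
  have e2 : w / (4 * (j + 1)) * XX (j + 1) w =
      w ^ (j + 4) / ((j + 1) * j !) * (JJ (j + 3) j w / 4) := by
    rw [XX_succ]
    field_simp
    ring
  rw [e1, e2]
  exact mul_le_mul_of_nonneg_left h1 (by positivity)

/-- the ratio of consecutive remainders -/
theorem RR_ratio {a w : ℝ} (ha0 : 0 < a) (ha1 : a < 1) (hw : 0 < w) (j : ℕ) :
    RR a (j + 3) w ≤ w / (4 * (j + 1)) * ((j + 2 + a) / (j + 3 - a)) * RR a (j + 2) w := by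
  set κ : ℝ := w / (4 * (j + 1)) * ((j + 2 + a) / (j + 3 - a)) with hκ
  have hj : (0 : ℝ) ≤ j := Nat.cast_nonneg j
  have h3a : (0 : ℝ) < j + 3 - a := by linarith
  have hC : CC a (j + 3) = CC a (j + 2) * ((j + 2 + a) / (j + 3 - a)) := by
    rw [show CC a (j + 3) = CC a (j + 2) * (((j + 2 : ℕ) + a) / (((j + 2 : ℕ) : ℝ) + 1 - a)) from rfl]
    push_cast
    ring_nf
  have hCp := CC_pos ha0 ha1 (j + 2)
  set G : ℝ → ℝ := fun s => κ * RR a (j + 2) s - RR a (j + 3) s with hG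
  have hd : ∀ s, 0 < s → HasDerivAt G (κ * (s ^ (-a - 1) * (CC a (j + 2) * XX (j + 1) s)) -
      s ^ (-a - 1) * (CC a (j + 3) * XX (j + 2) s)) s := fun s hs =>
    ((hasDerivAt_RR ha1 hs (j + 1)).const_mul κ).fun_sub (hasDerivAt_RR ha1 hs (j + 2))
  have hmono : MonotoneOn G (Ioc 0 w) := by
    refine monotoneOn_of_deriv_nonneg (convex_Ioc 0 w) ?_ ?_ ?_
    · exact fun s hs => (hd s hs.1).continuousAt.continuousWithinAt
    · exact fun s hs => (hd s (interior_subset hs).1).differentiableAt.differentiableWithinAt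
    · intro s hs
      have hs0 : 0 < s := (interior_subset hs).1
      have hs1 : s ≤ w := (interior_subset hs).2
      rw [(hd s hs0).deriv]
      have h1 := XX_ratio j hs0.le
      have h2 := XX_pos (j + 1) hs0
      have h4 : 0 < s ^ (-a - 1) := Real.rpow_pos_of_pos hs0 _
      have h5 : XX (j + 2) s ≤ w / (4 * (j + 1)) * XX (j + 1) s := by
        refine h1.trans (mul_le_mul_of_nonneg_right ?_ h2.le)
        gcongr
      have h6 : CC a (j + 3) * XX (j + 2) s ≤ κ * (CC a (j + 2) * XX (j + 1) s) := by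
        rw [hC, hκ]
        have h7 : 0 ≤ CC a (j + 2) * ((j + 2 + a) / (j + 3 - a)) := by positivity
        calc CC a (j + 2) * ((j + 2 + a) / (j + 3 - a)) * XX (j + 2) s
            ≤ CC a (j + 2) * ((j + 2 + a) / (j + 3 - a)) * (w / (4 * (j + 1)) * XX (j + 1) s) :=
              mul_le_mul_of_nonneg_left h5 h7
          _ = _ := by ring
      have h8 := mul_le_mul_of_nonneg_left h6 h4.le
      linarith
  have hlim : Tendsto G (𝓝[>] 0) (𝓝 0) := by
    have h1 := ((tendsto_RR ha1 (j + 2)).const_mul κ).sub (tendsto_RR ha1 (j + 3))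
    simpa using h1
  have h0 : 0 ≤ G w := by
    refine le_of_tendsto hlim ?_
    filter_upwards [Ioc_mem_nhdsGT hw] with x hx
    exact hmono hx ⟨hw, le_rfl⟩ hx.2
  linarith

theorem zz_sub_sn {a w : ℝ} (hw : 0 < w) (n : ℕ) :
    zz a w - sn a n w = w ^ a * RR a n w := by
  unfold RR zz
  have h2 : w ^ a * (w ^ (-a) * sn a n w) = sn a n w := by
    rw [← mul_assoc, ← Real.rpow_add hw, add_neg_cancel, Real.rpow_zero, one_mul]
  rw [mul_sub, h2]

/-- **ratio of consecutive tails** -/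
theorem Tl_ratio {a w : ℝ} (ha0 : 0 < a) (ha1 : a < 1) (hw : 0 < w) (j : ℕ) :
    Tl a w (j + 2) ≤ w / (4 * (j + 1)) * ((j + 2 + a) / (j + 3 - a)) * Tl a w (j + 1) := by
  have hj : (0 : ℝ) ≤ j := Nat.cast_nonneg j
  have h3a : (0 : ℝ) < j + 3 - a := by linarith
  have hC : CC a (j + 3) = CC a (j + 2) * ((j + 2 + a) / (j + 3 - a)) := by
    rw [show CC a (j + 3) = CC a (j + 2) * (((j + 2 : ℕ) + a) / (((j + 2 : ℕ) : ℝ) + 1 - a)) from rfl]
    push_cast
    ring_nf
  have hCp := CC_pos ha0 ha1 (j + 2)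
  rw [Tl_eq, Tl_eq, zz_sub_sn hw, zz_sub_sn hw]
  have h1 := RR_ratio ha0 ha1 hw j
  have h2 := psi_ratio j hw.le
  have h3 : 0 < w ^ a := Real.rpow_pos_of_pos hw a
  have h4 := mul_le_mul_of_nonneg_left h1 h3.le
  have h5 : CC a (j + 3) * psi (j + 2) w ≤
      w / (4 * (j + 1)) * ((j + 2 + a) / (j + 3 - a)) * (CC a (j + 2) * psi (j + 1) w) := by
    rw [hC]
    have h7 : 0 ≤ CC a (j + 2) * ((j + 2 + a) / (j + 3 - a)) := by positivity
    calc CC a (j + 2) * ((j + 2 + a) / (j + 3 - a)) * psi (j + 2) w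
        ≤ CC a (j + 2) * ((j + 2 + a) / (j + 3 - a)) * (w / (4 * (j + 1)) * psi (j + 1) w) :=
          mul_le_mul_of_nonneg_left h2 h7
      _ = _ := by ring
  show w ^ a * RR a (j + 3) w + CC a (j + 3) * psi (j + 2) w ≤ _
  calc w ^ a * RR a (j + 3) w + CC a (j + 3) * psi (j + 2) w ≤ _ := add_le_add h4 h5
    _ = _ := by ring

/-! ## alternating bounds of the exponential -/

/-- `∑_(k ≤ N) (-1)^k s^k/k!` -/
noncomputable def EE (N : ℕ) (s : ℝ) : ℝ := ∑ k ∈ Finset.range (N + 1), (-1) ^ k * s ^ k / k !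

theorem hasDerivAt_EE (N : ℕ) (s : ℝ) : HasDerivAt (EE (N + 1)) (-EE N s) s := by
  unfold EE
  have h1 : ∀ k ∈ Finset.range (N + 1 + 1),
      HasDerivAt (fun s : ℝ => (-1) ^ k * s ^ k / k !) ((-1) ^ k * (k * s ^ (k - 1)) / k !) s := by
    intro k _
    have := ((hasDerivAt_pow k s).const_mul ((-1 : ℝ) ^ k)).div_const (k ! : ℝ)
    exact this
  refine (HasDerivAt.fun_sum h1).congr_deriv ?_
  rw [Finset.sum_range_succ', ← Finset.sum_neg_distrib]
  simp only [Nat.cast_zero, zero_mul, mul_zero, zero_div, add_zero]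
  refine Finset.sum_congr rfl fun k _ => ?_
  rw [Nat.factorial_succ, Nat.add_sub_cancel]
  push_cast
  have : ((k : ℝ) + 1) ≠ 0 := by positivity
  have h3 : (k ! : ℝ) ≠ 0 := by positivity
  field_simp
  ring

/-- `(-1)^N (e^(-s) - E_N(s)) ≤ 0` -/
theorem EE_alt (N : ℕ) : ∀ s : ℝ, 0 ≤ s → 0 ≤ (-1) ^ (N + 1) * (Real.exp (-s) - EE N s) := by
  induction N with
  | zero =>
    intro s hs
    simp only [EE, zero_add, Finset.sum_range_one, pow_zero, Nat.factorial_zero, Nat.cast_one,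
      pow_one]
    have : Real.exp (-s) ≤ 1 := Real.exp_le_one_iff.2 (by linarith)
    linarith
  | succ N ih =>
    intro s hs
    set G : ℝ → ℝ := fun s => (-1) ^ (N + 1 + 1) * (Real.exp (-s) - EE (N + 1) s) with hG
    have hexp : ∀ s : ℝ, HasDerivAt (fun s : ℝ => Real.exp (-s)) (-Real.exp (-s)) s := by
      intro s
      have h1 : HasDerivAt (fun s : ℝ => -s) (-1) s := by
        simpa using (hasDerivAt_id s).fun_neg
      have := h1.exp
      simpa using this
    have hd : ∀ s, HasDerivAt G ((-1) ^ (N + 1 + 1) * (-Real.exp (-s) - -EE N s)) s := fun s =>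
      ((hexp s).fun_sub (hasDerivAt_EE N s)).const_mul _
    have hmono : MonotoneOn G (Ici 0) := by
      refine monotoneOn_of_deriv_nonneg (convex_Ici 0) ?_ ?_ ?_
      · exact fun s _ => (hd s).continuousAt.continuousWithinAt
      · exact fun s _ => (hd s).differentiableAt.differentiableWithinAt
      · intro s hs
        have hs0 : 0 ≤ s := interior_subset hs
        rw [(hd s).deriv]
        have := ih s hs0
        calc (0 : ℝ) ≤ _ := this
          _ = _ := by ring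
    have h0 : G 0 = 0 := by
      have h1 : EE (N + 1) 0 = 1 := by
        unfold EE
        rw [Finset.sum_range_succ']
        simp
      simp only [hG]
      rw [h1]
      simp
    have := hmono (mem_Ici.2 le_rfl) (mem_Ici.2 hs) hs
    rw [h0] at this
    exact this

theorem exp_le_EE (M : ℕ) {s : ℝ} (hs : 0 ≤ s) : Real.exp (-s) ≤ EE (2 * M) s := by
  have h1 := EE_alt (2 * M) s hs
  rw [pow_succ, pow_mul] at h1
  simp at h1
  linarith

theorem EE_le_exp (M : ℕ) {s : ℝ} (hs : 0 ≤ s) : EE (2 * M + 1) s ≤ Real.exp (-s) := by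
  have h1 := EE_alt (2 * M + 1) s hs
  rw [show 2 * M + 1 + 1 = 2 * (M + 1) by ring, pow_mul] at h1
  simp at h1
  linarith

/-- `∑_(k ≤ N) (-1)^k (k+1) s^k/k!` -/
noncomputable def SS (N : ℕ) (s : ℝ) : ℝ :=
  ∑ k ∈ Finset.range (N + 1), (-1) ^ k * (k + 1) * s ^ k / k !

theorem SS_succ (N : ℕ) (s : ℝ) : SS (N + 1) s = EE (N + 1) s - s * EE N s := by
  unfold SS EE
  rw [Finset.sum_range_succ' (fun k => (-1 : ℝ) ^ k * (k + 1) * s ^ k / k !),
    Finset.sum_range_succ' (fun k => (-1 : ℝ) ^ k * s ^ k / k !), Finset.mul_sum]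
  have h1 : ∑ k ∈ Finset.range (N + 1), (-1 : ℝ) ^ (k + 1) * ((k + 1 : ℕ) + 1) * s ^ (k + 1) /
      (k + 1)! = ∑ k ∈ Finset.range (N + 1), (-1 : ℝ) ^ (k + 1) * s ^ (k + 1) / (k + 1)! -
        ∑ k ∈ Finset.range (N + 1), s * ((-1) ^ k * s ^ k / k !) := by
    rw [← Finset.sum_sub_distrib]
    refine Finset.sum_congr rfl fun k _ => ?_
    rw [Nat.factorial_succ]
    push_cast
    have : ((k : ℝ) + 1) ≠ 0 := by positivity
    have h3 : (k ! : ℝ) ≠ 0 := by positivity
    field_simp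
    ring
  rw [h1]
  simp
  ring

theorem SS_le (M : ℕ) {s : ℝ} (hs : 0 ≤ s) : SS (2 * M + 1) s ≤ (1 - s) * Real.exp (-s) := by
  rw [SS_succ]
  have h1 := EE_le_exp M hs
  have h2 := mul_le_mul_of_nonneg_left (exp_le_EE M hs) hs
  linarith

theorem le_SS (M : ℕ) {s : ℝ} (hs : 0 ≤ s) : (1 - s) * Real.exp (-s) ≤ SS (2 * M + 2) s := by
  rw [SS_succ]
  have h1 := exp_le_EE (M + 1) hs
  have h2 := mul_le_mul_of_nonneg_left (EE_le_exp M hs) hs
  rw [show 2 * (M + 1) = 2 * M + 1 + 1 by ring] at h1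
  linarith

theorem cont_SS (N : ℕ) : Continuous (SS N) := by
  unfold SS
  fun_prop

/-- `∑_(k ≤ N) (-1)^k (k+1) w^(k+1)/(k! (k+1-a))`, the finite sums of the mass `zz a w` -/
noncomputable def ZS (N : ℕ) (a w : ℝ) : ℝ :=
  ∑ k ∈ Finset.range (N + 1), (-1) ^ k * (k + 1) * w ^ (k + 1) / (k ! * (k + 1 - a))

theorem int_SS {a w : ℝ} (ha1 : a < 1) (hw : 0 < w) (N : ℕ) :
    w ^ a * ∫ s in (0 : ℝ)..w, s ^ (-a) * SS N s = ZS N a w := by
  have h0 : ∀ k : ℕ, (0 : ℝ) < k + 1 - a := fun k => by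
    have : (0 : ℝ) ≤ k := Nat.cast_nonneg k
    linarith
  have h1 : ∀ k : ℕ, ∫ s in (0 : ℝ)..w, s ^ (-a) * ((-1) ^ k * (k + 1) * s ^ k / k !) =
      (-1) ^ k * (k + 1) / k ! * (w ^ ((k : ℝ) + 1 - a) / (k + 1 - a)) := by
    intro k
    have e1 : ∫ s in (0 : ℝ)..w, s ^ (-a) * ((-1) ^ k * (k + 1) * s ^ k / k !) =
        ∫ s in (0 : ℝ)..w, (-1) ^ k * (k + 1) / k ! * s ^ ((k : ℝ) - a) := by
      refine intervalIntegral.integral_congr_ae (ae_of_all _ fun s hs => ?_)
      rw [uIoc_of_le hw.le] at hs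
      have hs0 : 0 < s := hs.1
      rw [sub_eq_add_neg, Real.rpow_add hs0, Real.rpow_natCast]
      ring
    rw [e1, intervalIntegral.integral_const_mul, integral_rpow (Or.inl (by linarith [h0 k]))]
    rw [show (k : ℝ) - a + 1 = k + 1 - a by ring, Real.zero_rpow (h0 k).ne', sub_zero]
  have h2 : ∫ s in (0 : ℝ)..w, s ^ (-a) * SS N s =
      ∑ k ∈ Finset.range (N + 1), (-1) ^ k * (k + 1) / k ! * (w ^ ((k : ℝ) + 1 - a) / (k + 1 - a)) := by
    have e2 : (fun s : ℝ => s ^ (-a) * SS N s) = fun s : ℝ => ∑ k ∈ Finset.range (N + 1),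
        s ^ (-a) * ((-1) ^ k * ((k : ℝ) + 1) * s ^ k / k !) := by
      ext s
      rw [SS, Finset.mul_sum]
    rw [e2, intervalIntegral.integral_finsetSum]
    · exact Finset.sum_congr rfl fun k _ => h1 k
    · intro k _
      refine (intervalIntegral.intervalIntegrable_rpow' (by linarith)).mul_continuousOn ?_
      fun_prop
  rw [h2, ZS, Finset.mul_sum]
  refine Finset.sum_congr rfl fun k _ => ?_
  have e3 : w ^ a * w ^ ((k : ℝ) + 1 - a) = w ^ (k + 1) := by
    rw [← Real.rpow_add hw, show a + ((k : ℝ) + 1 - a) = ((k + 1 : ℕ) : ℝ) by push_cast; ring,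
      Real.rpow_natCast]
  rw [← e3]
  have h3 : (k ! : ℝ) ≠ 0 := by positivity
  have h4 := (h0 k).ne'
  field_simp

theorem ZS_le {a w : ℝ} (ha1 : a < 1) (hw : 0 < w) (M : ℕ) : ZS (2 * M + 1) a w ≤ zz a w := by
  rw [← int_SS ha1 hw, zz, gam]
  refine mul_le_mul_of_nonneg_left ?_ (Real.rpow_pos_of_pos hw a).le
  refine intervalIntegral.integral_mono_on hw.le ?_ (gam_int ha1 0 w) ?_
  · exact (intervalIntegral.intervalIntegrable_rpow' (by linarith)).mul_continuousOn
      (cont_SS _).continuousOn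
  · intro s hs
    exact mul_le_mul_of_nonneg_left (SS_le M hs.1) (Real.rpow_nonneg hs.1 _)

theorem le_ZS {a w : ℝ} (ha1 : a < 1) (hw : 0 < w) (M : ℕ) : zz a w ≤ ZS (2 * M + 2) a w := by
  rw [← int_SS ha1 hw, zz, gam]
  refine mul_le_mul_of_nonneg_left ?_ (Real.rpow_pos_of_pos hw a).le
  refine intervalIntegral.integral_mono_on hw.le (gam_int ha1 0 w) ?_ ?_
  · exact (intervalIntegral.intervalIntegrable_rpow' (by linarith)).mul_continuousOn
      (cont_SS _).continuousOn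
  · intro s hs
    exact mul_le_mul_of_nonneg_left (le_SS M hs.1) (Real.rpow_nonneg hs.1 _)

/-! ## closed forms of `psi 1`, .., `psi 4` -/

theorem JJ_split (α β : ℕ) (w : ℝ) : JJ α (β + 1) w = JJ α β w - JJ (α + 1) β w := by
  have := JJ_add α β w
  linarith

theorem JJ_zz (w : ℝ) : w * JJ 0 0 w = 1 - Real.exp (-w) := by
  have h1 : ∀ v ∈ uIcc (0 : ℝ) 1, HasDerivAt (fun v : ℝ => -Real.exp (-(w * v)))
      (w * (v ^ 0 * (1 - v) ^ 0 * Real.exp (-(w * v)))) v := by
    intro v _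
    have h2 : HasDerivAt (fun v : ℝ => -(w * v)) (-(w * 1)) v :=
      ((hasDerivAt_id v).const_mul w).fun_neg
    have h3 := h2.exp.fun_neg
    refine h3.congr_deriv ?_
    ring
  have h4 := intervalIntegral.integral_eq_sub_of_hasDerivAt h1
    (((cont_JJ 0 0 w).const_mul w).intervalIntegrable _ _)
  unfold JJ
  rw [← intervalIntegral.integral_const_mul, h4]
  simp
  ring

/-- `k!(1 - e^(-w) ∑_(i ≤ k) w^i/i!)`, written through the recursion -/
noncomputable def AA (w : ℝ) : ℕ → ℝ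
  | 0 => 1 - Real.exp (-w)
  | k + 1 => (k + 1) * AA w k - w ^ (k + 1) * Real.exp (-w)

theorem JJ_AA (w : ℝ) (k : ℕ) : w ^ (k + 1) * JJ k 0 w = AA w k := by
  induction k with
  | zero => rw [zero_add, pow_one, JJ_zz]; rfl
  | succ k ih =>
    have h1 := JJ_parts_zero k w
    rw [AA, ← ih, pow_succ w (k + 1), mul_assoc, h1]
    ring

/-! ## the Kummer series of the total mass -/

/-- `(2-a)(3-a)..(k+1-a)` -/
noncomputable def po (a : ℝ) : ℕ → ℝ
  | 0 => 1
  | k + 1 => po a k * (k + 2 - a)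

theorem po_pos {a : ℝ} (ha1 : a < 1) (k : ℕ) : 0 < po a k := by
  induction k with
  | zero => exact one_pos
  | succ k ih =>
    have : (0 : ℝ) ≤ k := Nat.cast_nonneg k
    exact mul_pos ih (by linarith)

/-- the finite sums of `M(1, 2-a, w)` -/
noncomputable def KS (a w : ℝ) (m : ℕ) : ℝ := ∑ k ∈ Finset.range (m + 1), w ^ k / po a k

/-- `S = (zz/ψ_0 - 1)(1-a)/a = M(1, 2-a, w)` -/
noncomputable def Sa (a w : ℝ) : ℝ := (zz a w / psi 0 w - 1) * ((1 - a) / a)

/-- the elementary term -/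
theorem hasDerivAt_term {a w : ℝ} (hw : 0 < w) (k : ℕ) :
    HasDerivAt (fun w : ℝ => w ^ (1 - a) * Real.exp (-w) * w ^ k)
      (w ^ (-a) * Real.exp (-w) * (w ^ k * (k + 1 - a - w))) w := by
  have h1 : HasDerivAt (fun w : ℝ => w ^ (1 - a)) ((1 - a) * w ^ (-a)) w := by
    have := Real.hasDerivAt_rpow_const (p := 1 - a) (x := w) (Or.inl hw.ne')
    rwa [show 1 - a - 1 = -a by ring] at this
  have h2 : HasDerivAt (fun w : ℝ => Real.exp (-w)) (-Real.exp (-w)) w := by
    have h3 : HasDerivAt (fun w : ℝ => -w) (-1) w := by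
      simpa using (hasDerivAt_id w).fun_neg
    simpa using h3.exp
  have h3 := (h1.fun_mul h2).fun_mul (hasDerivAt_pow k w)
  refine h3.congr_deriv ?_
  have e1 : w ^ (1 - a) = w ^ (-a) * w := by
    rw [show (1 : ℝ) - a = -a + 1 by ring, Real.rpow_add hw, Real.rpow_one]
  rw [e1]
  cases k with
  | zero => simp; ring
  | succ k =>
    rw [Nat.add_sub_cancel]
    push_cast
    ring

/-- `w^(1-a) e^(-w) (1 + a/(1-a) K_m(w))` -/
noncomputable def GK (a : ℝ) (m : ℕ) (w : ℝ) : ℝ :=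
  w ^ (1 - a) * Real.exp (-w) * (1 + a / (1 - a) * KS a w m)

theorem hasDerivAt_GK {a w : ℝ} (ha1 : a < 1) (hw : 0 < w) (m : ℕ) :
    HasDerivAt (GK a m)
      (w ^ (-a) * Real.exp (-w) * (1 - w - a / (1 - a) * (w ^ (m + 1) / po a m))) w := by
  have h0 : (0 : ℝ) < 1 - a := sub_pos.2 ha1
  induction m with
  | zero =>
    have h1 := (hasDerivAt_term (a := a) hw 0).mul_const (1 + a / (1 - a))
    have e1 : GK a 0 = fun w : ℝ => w ^ (1 - a) * Real.exp (-w) * w ^ 0 * (1 + a / (1 - a)) := by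
      ext w
      simp [GK, KS, po]
    rw [e1]
    refine h1.congr_deriv ?_
    simp only [po, Nat.cast_zero, pow_zero]
    field_simp
    ring
  | succ m ih =>
    have h1 := (hasDerivAt_term (a := a) hw (m + 1)).mul_const (a / (1 - a) / po a (m + 1))
    have e1 : GK a (m + 1) = fun w : ℝ => GK a m w +
        w ^ (1 - a) * Real.exp (-w) * w ^ (m + 1) * (a / (1 - a) / po a (m + 1)) := by
      ext w
      simp only [GK, KS]
      rw [Finset.sum_range_succ _ (m + 1)]
      ring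
    rw [e1]
    refine (ih.fun_add h1).congr_deriv ?_
    have h2 := po_pos ha1 m
    have h3 : (0 : ℝ) < (m : ℝ) + 2 - a := by
      have : (0 : ℝ) ≤ m := Nat.cast_nonneg m
      linarith
    simp only [po]
    push_cast
    field_simp
    ring

theorem tendsto_GK {a : ℝ} (ha1 : a < 1) (m : ℕ) : Tendsto (GK a m) (𝓝[>] 0) (𝓝 0) := by
  have h1 : Tendsto (fun w : ℝ => w ^ (1 - a)) (𝓝[>] 0) (𝓝 0) := by
    have h2 : ContinuousAt (fun w : ℝ => w ^ (1 - a)) 0 :=
      Real.continuousAt_rpow_const 0 (1 - a) (Or.inr (by linarith))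
    have h3 := h2.tendsto
    rw [Real.zero_rpow (by linarith)] at h3
    exact h3.mono_left nhdsWithin_le_nhds
  have h2 : Continuous (fun w : ℝ => Real.exp (-w) * (1 + a / (1 - a) * KS a w m)) := by
    unfold KS
    fun_prop
  have h3 := h1.mul ((h2.tendsto 0).mono_left (nhdsWithin_le_nhds (s := Ioi (0 : ℝ))))
  rw [zero_mul] at h3
  refine h3.congr fun w => ?_
  unfold GK
  ring

theorem tendsto_gam {a : ℝ} (ha1 : a < 1) : Tendsto (gam a) (𝓝[>] 0) (𝓝 0) := by
  have := (cont_gam ha1).tendsto 0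
  rw [gam_zero] at this
  exact this.mono_left nhdsWithin_le_nhds

theorem zz_div {a w : ℝ} (hw : 0 < w) :
    zz a w / psi 0 w = gam a w / (w ^ (1 - a) * Real.exp (-w)) := by
  have e1 : psi 0 w = w ^ a * (w ^ (1 - a) * Real.exp (-w)) := by
    rw [← mul_assoc, ← Real.rpow_add hw, show a + (1 - a) = 1 by ring, Real.rpow_one]
    rfl
  rw [e1, zz, mul_div_mul_left _ _ (Real.rpow_pos_of_pos hw a).ne']

/-- lower bound of the mass -/
theorem KS_le {a w : ℝ} (ha0 : 0 < a) (ha1 : a < 1) (hw : 0 < w) (m : ℕ) :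
    KS a w m ≤ Sa a w := by
  have h0 : (0 : ℝ) < 1 - a := sub_pos.2 ha1
  set G : ℝ → ℝ := fun s => gam a s - GK a m s with hG
  have hd : ∀ s, 0 < s → HasDerivAt G (s ^ (-a) * ((1 - s) * Real.exp (-s)) -
      s ^ (-a) * Real.exp (-s) * (1 - s - a / (1 - a) * (s ^ (m + 1) / po a m))) s := fun s hs =>
    (hasDerivAt_gam ha1 hs).fun_sub (hasDerivAt_GK ha1 hs m)
  have hmono : MonotoneOn G (Ioi 0) := by
    refine monotoneOn_of_deriv_nonneg (convex_Ioi 0) ?_ ?_ ?_
    · exact fun s hs => (hd s hs).continuousAt.continuousWithinAt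
    · exact fun s hs => (hd s (interior_subset hs)).differentiableAt.differentiableWithinAt
    · intro s hs
      have hs0 : 0 < s := interior_subset hs
      rw [(hd s hs0).deriv]
      have h4 : 0 < s ^ (-a) := Real.rpow_pos_of_pos hs0 _
      have h5 := po_pos ha1 m
      have : s ^ (-a) * ((1 - s) * Real.exp (-s)) -
          s ^ (-a) * Real.exp (-s) * (1 - s - a / (1 - a) * (s ^ (m + 1) / po a m)) =
          s ^ (-a) * Real.exp (-s) * (a / (1 - a) * (s ^ (m + 1) / po a m)) := by ring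
      rw [this]
      positivity
  have hlim : Tendsto G (𝓝[>] 0) (𝓝 0) := by
    have h1 := (tendsto_gam ha1).sub (tendsto_GK ha1 m)
    simpa using h1
  have h1 : 0 ≤ G w := by
    refine le_of_tendsto hlim ?_
    filter_upwards [Ioc_mem_nhdsGT hw] with x hx
    exact hmono hx.1 hw hx.2
  have h2 : GK a m w ≤ gam a w := by
    have : 0 ≤ gam a w - GK a m w := h1
    linarith
  have h3 : 0 < w ^ (1 - a) * Real.exp (-w) := mul_pos (Real.rpow_pos_of_pos hw _) (Real.exp_pos _)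
  have h4 : 1 + a / (1 - a) * KS a w m ≤ gam a w / (w ^ (1 - a) * Real.exp (-w)) := by
    rw [le_div_iff₀ h3, mul_comm]
    exact h2
  rw [Sa, zz_div hw]
  have h5 : a / (1 - a) * KS a w m ≤ gam a w / (w ^ (1 - a) * Real.exp (-w)) - 1 := by linarith
  calc KS a w m = a / (1 - a) * KS a w m * ((1 - a) / a) := by field_simp
    _ ≤ _ := mul_le_mul_of_nonneg_right h5 (by positivity)

/-- upper bound of the mass -/
theorem le_KS {a w κ : ℝ} (ha0 : 0 < a) (ha1 : a < 1) (hw : 0 < w) (m : ℕ)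
    (hκ : m + 2 - a ≤ κ * (m + 2 - a - w)) (hmw : 0 < m + 2 - a - w) :
    Sa a w ≤ KS a w m + κ * (w ^ (m + 1) / po a (m + 1)) := by
  have h0 : (0 : ℝ) < 1 - a := sub_pos.2 ha1
  have hm2 : (0 : ℝ) < m + 2 - a := by
    have : (0 : ℝ) ≤ m := Nat.cast_nonneg m
    linarith
  have hκ0 : 0 < κ := by
    by_contra h
    have := mul_nonpos_of_nonpos_of_nonneg (not_lt.1 h) hmw.le
    linarith
  set c : ℝ := κ * (a / (1 - a)) / po a (m + 1) with hc
  set G : ℝ → ℝ := fun s => GK a m s + s ^ (1 - a) * Real.exp (-s) * s ^ (m + 1) * c - gam a s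
    with hG
  have hd : ∀ s, 0 < s → HasDerivAt G (s ^ (-a) * Real.exp (-s) *
      (1 - s - a / (1 - a) * (s ^ (m + 1) / po a m)) +
      s ^ (-a) * Real.exp (-s) * (s ^ (m + 1) * ((m + 1 : ℕ) + 1 - a - s)) * c -
      s ^ (-a) * ((1 - s) * Real.exp (-s))) s := fun s hs =>
    ((hasDerivAt_GK ha1 hs m).fun_add ((hasDerivAt_term hs (m + 1)).mul_const c)).fun_sub
      (hasDerivAt_gam ha1 hs)
  have hmono : MonotoneOn G (Ioc 0 w) := by
    refine monotoneOn_of_deriv_nonneg (convex_Ioc 0 w) ?_ ?_ ?_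
    · exact fun s hs => (hd s hs.1).continuousAt.continuousWithinAt
    · exact fun s hs => (hd s (interior_subset hs).1).differentiableAt.differentiableWithinAt
    · intro s hs
      have hs0 : 0 < s := (interior_subset hs).1
      have hs1 : s ≤ w := (interior_subset hs).2
      rw [(hd s hs0).deriv]
      have h4 : 0 < s ^ (-a) := Real.rpow_pos_of_pos hs0 _
      have h5 := po_pos ha1 m
      have h6 : (m : ℝ) + 2 - a ≤ κ * (m + 2 - a - s) :=
        hκ.trans (mul_le_mul_of_nonneg_left (by linarith) hκ0.le)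
      have e1 : s ^ (-a) * Real.exp (-s) * (1 - s - a / (1 - a) * (s ^ (m + 1) / po a m)) +
          s ^ (-a) * Real.exp (-s) * (s ^ (m + 1) * ((m + 1 : ℕ) + 1 - a - s)) * c -
          s ^ (-a) * ((1 - s) * Real.exp (-s)) =
          s ^ (-a) * Real.exp (-s) * (a / (1 - a)) * (s ^ (m + 1) / po a (m + 1)) *
            (κ * (m + 2 - a - s) - (m + 2 - a)) := by
        simp only [hc, po]
        push_cast
        field_simp
        ring
      rw [e1]
      have h7 := po_pos ha1 (m + 1)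
      have h8 : 0 ≤ κ * (m + 2 - a - s) - (m + 2 - a) := by linarith
      positivity
  have hlim : Tendsto G (𝓝[>] 0) (𝓝 0) := by
    have h1 : Tendsto (fun s : ℝ => s ^ (1 - a) * Real.exp (-s) * s ^ (m + 1) * c) (𝓝[>] 0)
        (𝓝 0) := by
      have h2 : Tendsto (fun w : ℝ => w ^ (1 - a)) (𝓝[>] 0) (𝓝 0) := by
        have h2 : ContinuousAt (fun w : ℝ => w ^ (1 - a)) 0 :=
          Real.continuousAt_rpow_const 0 (1 - a) (Or.inr (by linarith))
        have h3 := h2.tendsto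
        rw [Real.zero_rpow (by linarith)] at h3
        exact h3.mono_left nhdsWithin_le_nhds
      have h3 : Continuous (fun s : ℝ => Real.exp (-s) * s ^ (m + 1) * c) := by fun_prop
      have h4 := h2.mul ((h3.tendsto 0).mono_left (nhdsWithin_le_nhds (s := Ioi (0 : ℝ))))
      rw [zero_mul] at h4
      refine h4.congr fun w => ?_
      ring
    have h2 := ((tendsto_GK ha1 m).add h1).sub (tendsto_gam ha1)
    simpa using h2
  have h1 : 0 ≤ G w := by
    refine le_of_tendsto hlim ?_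
    filter_upwards [Ioc_mem_nhdsGT hw] with x hx
    exact hmono hx ⟨hw, le_rfl⟩ hx.2
  have h3 : 0 < w ^ (1 - a) * Real.exp (-w) := mul_pos (Real.rpow_pos_of_pos hw _) (Real.exp_pos _)
  have h2 : gam a w ≤ (1 + a / (1 - a) * (KS a w m + κ * (w ^ (m + 1) / po a (m + 1)))) *
      (w ^ (1 - a) * Real.exp (-w)) := by
    have h4 : 0 ≤ GK a m w + w ^ (1 - a) * Real.exp (-w) * w ^ (m + 1) * c - gam a w := h1
    have h5 : GK a m w + w ^ (1 - a) * Real.exp (-w) * w ^ (m + 1) * c =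
        (1 + a / (1 - a) * (KS a w m + κ * (w ^ (m + 1) / po a (m + 1)))) *
          (w ^ (1 - a) * Real.exp (-w)) := by
      simp only [GK, hc]
      ring
    linarith
  have h4 : gam a w / (w ^ (1 - a) * Real.exp (-w)) ≤
      1 + a / (1 - a) * (KS a w m + κ * (w ^ (m + 1) / po a (m + 1))) := (div_le_iff₀ h3).2 h2
  rw [Sa, zz_div hw]
  calc (gam a w / (w ^ (1 - a) * Real.exp (-w)) - 1) * ((1 - a) / a)
      ≤ (a / (1 - a) * (KS a w m + κ * (w ^ (m + 1) / po a (m + 1)))) * ((1 - a) / a) :=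
        mul_le_mul_of_nonneg_right (by linarith) (by positivity)
    _ = _ := by field_simp

end Pool.Agent.Lib.QNL.Enc
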