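import Pool.Agent.Lib.QNL.Enc73

/-!
# Closed forms of the shares
-/

set_option autoImplicit false

namespace Pool.Agent.Lib.QNL.Enc

open MeasureTheory Set Filter Topology Finset
open scoped Nat
open Pool.Agent.Lib.QNL.Wts73

/-- `ρ_j = ψ_j/ψ_0` -/
noncomputable def rh (j : ℕ) (w : ℝ) : ℝ := psi j w / psi 0 w

theorem psi_rh (j : ℕ) {w : ℝ} (hw : 0 < w) : psi j w = psi 0 w * rh j w := by
  have := (psi_pos 0 hw).ne'
  unfold rh
  field_simp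

theorem rh_zero {w : ℝ} (hw : 0 < w) : rh 0 w = 1 := div_self (psi_pos 0 hw).ne'

theorem rh_pos (j : ℕ) {w : ℝ} (hw : 0 < w) : 0 < rh j w := div_pos (psi_pos j hw) (psi_pos 0 hw)

/-- `D = 1 - a + a S` -/
noncomputable def DD (a w : ℝ) : ℝ := 1 - a + a * Sa a w

theorem Sa_pos {a w : ℝ} (ha0 : 0 < a) (ha1 : a < 1) (hw : 0 < w) : 1 ≤ Sa a w := by
  have h := KS_le ha0 ha1 hw 0
  simpa [KS, po] using h

theorem DD_pos {a w : ℝ} (ha0 : 0 < a) (ha1 : a < 1) (hw : 0 < w) : 0 < DD a w := by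
  have h1 := Sa_pos ha0 ha1 hw
  unfold DD
  nlinarith

theorem zz_eq_DD {a w : ℝ} (ha0 : 0 < a) (ha1 : a < 1) (hw : 0 < w) :
    zz a w = psi 0 w * DD a w / (1 - a) := by
  have h0 : (1 - a) ≠ 0 := (sub_pos.2 ha1).ne'
  have h1 := ha0.ne'
  have h2 := (psi_pos 0 hw).ne'
  unfold DD Sa
  field_simp
  ring

/-- the normalised tail -/
noncomputable def FF (a w : ℝ) (j : ℕ) : ℝ := Tl a w j / zz a w

theorem FF_pos {a w : ℝ} (ha0 : 0 < a) (ha1 : a < 1) (hw : 0 < w) (j : ℕ) : 0 < FF a w j :=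
  div_pos (Tl_pos ha0 ha1 hw j) (zz_pos ha0 ha1 hw)

theorem FF_zero {a w : ℝ} (ha0 : 0 < a) (ha1 : a < 1) (hw : 0 < w) :
    FF a w 0 = a * Sa a w / DD a w := by
  have h0 : (1 - a) ≠ 0 := (sub_pos.2 ha1).ne'
  have h2 := (psi_pos 0 hw).ne'
  have h3 := (DD_pos ha0 ha1 hw).ne'
  have e : psi 0 w = w * Real.exp (-w) := rfl
  rw [FF, Tl_zero, ← e, zz_eq_DD ha0 ha1 hw]
  rw [div_eq_div_iff (by positivity) h3]
  unfold DD
  field_simp
  ring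

theorem FF_succ {a w : ℝ} (ha0 : 0 < a) (ha1 : a < 1) (hw : 0 < w) (j : ℕ) :
    FF a w (j + 1) = FF a w j - (1 - a) * CC a (j + 1) * (rh (j + 1) w + rh j w) / DD a w := by
  have h0 : (1 - a) ≠ 0 := (sub_pos.2 ha1).ne'
  have h2 := (psi_pos 0 hw).ne'
  have h3 := (DD_pos ha0 ha1 hw).ne'
  rw [FF, FF, Tl_succ, sub_div]
  congr 1
  simp only [Bs]
  rw [psi_rh (j + 1) hw, psi_rh j hw, zz_eq_DD ha0 ha1 hw]
  field_simp

theorem CC_one (a : ℝ) : CC a 1 = a / (1 - a) := by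
  simp [CC]

theorem CC_two (a : ℝ) : CC a 2 = a / (1 - a) * ((1 + a) / (2 - a)) := by
  rw [show CC a 2 = CC a 1 * (((1 : ℕ) + a) / ((1 : ℕ) + 1 - a)) from rfl, CC_one]
  push_cast
  norm_num

theorem CC_three (a : ℝ) :
    CC a 3 = a / (1 - a) * ((1 + a) / (2 - a)) * ((2 + a) / (3 - a)) := by
  rw [show CC a 3 = CC a 2 * (((2 : ℕ) + a) / ((2 : ℕ) + 1 - a)) from rfl, CC_two]
  push_cast
  norm_num

theorem FF_one {a w : ℝ} (ha0 : 0 < a) (ha1 : a < 1) (hw : 0 < w) :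
    FF a w 1 = a * (Sa a w - 1 - rh 1 w) / DD a w := by
  have h0 : (1 - a) ≠ 0 := (sub_pos.2 ha1).ne'
  have h3 := (DD_pos ha0 ha1 hw).ne'
  rw [FF_succ ha0 ha1 hw 0, FF_zero ha0 ha1 hw, zero_add, rh_zero hw, CC_one]
  field_simp
  ring

theorem FF_two {a w : ℝ} (ha0 : 0 < a) (ha1 : a < 1) (hw : 0 < w) :
    FF a w 2 = a * (Sa a w - 1 - rh 1 w - (1 + a) / (2 - a) * (rh 1 w + rh 2 w)) / DD a w := by
  have h0 : (1 - a) ≠ 0 := (sub_pos.2 ha1).ne'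
  have h1 : (2 - a) ≠ 0 := by linarith
  have h3 := (DD_pos ha0 ha1 hw).ne'
  rw [FF_succ ha0 ha1 hw 1, FF_one ha0 ha1 hw, CC_two]
  field_simp
  ring

theorem FF_three {a w : ℝ} (ha0 : 0 < a) (ha1 : a < 1) (hw : 0 < w) :
    FF a w 3 = a * (Sa a w - 1 - rh 1 w - (1 + a) / (2 - a) * (rh 1 w + rh 2 w) -
      (1 + a) * (2 + a) / ((2 - a) * (3 - a)) * (rh 2 w + rh 3 w)) / DD a w := by
  have h0 : (1 - a) ≠ 0 := (sub_pos.2 ha1).ne'
  have h1 : (2 - a) ≠ 0 := by linarith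
  have h2 : (3 - a) ≠ 0 := by linarith
  have h3 := (DD_pos ha0 ha1 hw).ne'
  rw [FF_succ ha0 ha1 hw 2, FF_two ha0 ha1 hw, CC_three]
  field_simp
  ring

/-- ratio of the normalised tails -/
theorem FF_ratio {a w : ℝ} (ha0 : 0 < a) (ha1 : a < 1) (hw : 0 < w) (j : ℕ) :
    FF a w (j + 2) ≤ w / (4 * (j + 1)) * ((j + 2 + a) / (j + 3 - a)) * FF a w (j + 1) := by
  unfold FF
  rw [← mul_div_assoc]
  exact div_le_div_of_nonneg_right (Tl_ratio ha0 ha1 hw j) (zz_pos ha0 ha1 hw).le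

/-! ## closed forms of `ρ_1`, `ρ_2`, `ρ_3` -/

theorem rh_one {w : ℝ} (hw : 0 < w) : rh 1 w = (2 * Real.exp w - (w ^ 2 + 2 * w + 2)) / w ^ 2 := by
  have h1 := JJ_AA w 2
  have h2 : psi 1 w * w = AA w 2 := by
    rw [← h1]
    simp [psi]
    ring
  have h3 : AA w 2 = 2 - (w ^ 2 + 2 * w + 2) * Real.exp (-w) := by
    simp only [AA]
    push_cast
    ring
  have h4 : psi 1 w = (2 - (w ^ 2 + 2 * w + 2) * Real.exp (-w)) / w := by
    rw [eq_div_iff hw.ne', h2, h3]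
  have h5 : psi 0 w = w * Real.exp (-w) := rfl
  rw [rh, h4, h5, Real.exp_neg]
  have := (Real.exp_pos w).ne'
  field_simp

/-- `k! E_k(w)` -/
noncomputable def PP (w : ℝ) : ℕ → ℝ
  | 0 => 1
  | k + 1 => (k + 1) * PP w k + w ^ (k + 1)

theorem AA_PP (w : ℝ) (k : ℕ) : AA w k = (k ! : ℝ) - PP w k * Real.exp (-w) := by
  induction k with
  | zero => simp [AA, PP]
  | succ k ih =>
    rw [AA, ih, PP, Nat.factorial_succ]
    push_cast
    ring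

theorem rh_two {w : ℝ} (hw : 0 < w) :
    rh 2 w = ((6 * w - 24) * Real.exp w + (w ^ 3 + 6 * w ^ 2 + 18 * w + 24)) / w ^ 3 := by
  have h1 := JJ_AA w 3
  have h2 := JJ_AA w 4
  have h3 := JJ_split 3 0 w
  rw [AA_PP] at h1 h2
  simp only [PP, Nat.factorial] at h1 h2
  push_cast at h1 h2
  have h4 : psi 2 w * w ^ 2 = w * (w ^ (3 + 1) * JJ 3 0 w) - w ^ (4 + 1) * JJ 4 0 w := by
    rw [show psi 2 w = w ^ 3 / (1 ! : ℕ) * JJ 3 1 w from rfl, h3]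
    simp
    ring
  rw [h1, h2] at h4
  have h5 : psi 0 w = w * Real.exp (-w) := rfl
  have h6 : Real.exp (-w) * Real.exp w = 1 := by rw [← Real.exp_add]; simp
  have h7 := (Real.exp_pos (-w)).ne'
  have hw' := hw.ne'
  rw [rh, h5, div_eq_div_iff (by positivity) (by positivity)]
  have h8 : psi 2 w * w ^ 3 = (psi 2 w * w ^ 2) * w := by ring
  rw [h8, h4]
  linear_combination (-(w * (6 * w - 24))) * h6

theorem rh_three {w : ℝ} (hw : 0 < w) :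
    rh 3 w = ((12 * w ^ 2 - 120 * w + 360) * Real.exp w -
      (w ^ 4 + 12 * w ^ 3 + 72 * w ^ 2 + 240 * w + 360)) / w ^ 4 := by
  have h1 := JJ_AA w 4
  have h2 := JJ_AA w 5
  have h3 := JJ_AA w 6
  rw [AA_PP] at h1 h2 h3
  simp only [PP, Nat.factorial] at h1 h2 h3
  push_cast at h1 h2 h3
  have h4 : psi 3 w * (2 * w ^ 3) = w ^ 2 * (w ^ (4 + 1) * JJ 4 0 w) -
      2 * w * (w ^ (5 + 1) * JJ 5 0 w) + w ^ (6 + 1) * JJ 6 0 w := by
    rw [show psi 3 w = w ^ 4 / (2 ! : ℕ) * JJ 4 2 w from rfl, JJ_split 4 1, JJ_split 4 0,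
      JJ_split 5 0]
    simp
    ring
  rw [h1, h2, h3] at h4
  have h5 : psi 0 w = w * Real.exp (-w) := rfl
  have h6 : Real.exp (-w) * Real.exp w = 1 := by rw [← Real.exp_add]; simp
  have h7 := (Real.exp_pos (-w)).ne'
  have hw' := hw.ne'
  rw [rh, h5, div_eq_div_iff (by positivity) (by positivity)]
  have h8 : psi 3 w * w ^ 4 = (psi 3 w * (2 * w ^ 3)) * w / 2 := by ring
  rw [h8, h4]
  linear_combination (-(w * (12 * w ^ 2 - 120 * w + 360))) * h6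

end Pool.Agent.Lib.QNL.Enc
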