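import Pool.Agent.Lib.QNL.Enc73
import Pool.Agent.Lib.QNL.Lam20
import Pool.Agent.Lib.QNL.Pole95

/-!
# `mu ≤ log c + 3/5` for every `n`, every `a`, every `c ≥ 23/5`

`mu = (∑_(1 ≤ j < n) M_j T_j) / T_0 ≤ c ∫_0^1 log(1/v) e^(-cv) dv ≤ log c + 3/5`.
-/

set_option autoImplicit false

namespace Pool.Agent.Lib.QNL.MuLog22

open MeasureTheory Set Filter Topology Finset
open scoped Nat
open Pool.Agent.Lib.QNL.Wts73
open Pool.Agent.Lib.QNL.Lam20

/-- `∫_0^1 v^t e^(-wv) dv` -/
noncomputable def JI (t w : ℝ) : ℝ := ∫ v in (0 : ℝ)..1, v ^ t * Real.exp (-(w * v))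

/-- `∫_0^1 v^t log(1/v) e^(-wv) dv` -/
noncomputable def LI (t w : ℝ) : ℝ :=
  ∫ v in (0 : ℝ)..1, v ^ t * (-Real.log v) * Real.exp (-(w * v))

theorem ii_J {t : ℝ} (ht : 0 ≤ t) (w x y : ℝ) :
    IntervalIntegrable (fun v : ℝ => v ^ t * Real.exp (-(w * v))) volume x y :=
  ((Real.continuous_rpow_const ht).mul (by fun_prop)).intervalIntegrable _ _

theorem ii_L {t : ℝ} (ht : 0 ≤ t) (w x y : ℝ) :
    IntervalIntegrable (fun v : ℝ => v ^ t * (-Real.log v) * Real.exp (-(w * v))) volume x y := by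
  have h1 : IntervalIntegrable Real.log volume x y := intervalIntegral.intervalIntegrable_log'
  have h2 : Continuous fun v : ℝ => -(v ^ t * Real.exp (-(w * v))) :=
    ((Real.continuous_rpow_const ht).mul (by fun_prop)).neg
  have h3 := h1.mul_continuousOn h2.continuousOn
  refine h3.congr (fun v _ => ?_)
  ring

/-- `T_0 = (a/(1-a)) (w e^(-w) + w² J(1-a))` -/
theorem Tl_zero_eq {a : ℝ} (ha1 : a < 1) {w : ℝ} (hw : 0 < w) :
    Tl a w 0 = a / (1 - a) * (w * (Real.exp (-w) + w * JI (1 - a) w)) := by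
  have h1a : 0 < 1 - a := by linarith
  set J1 : ℝ := ∫ u in (0 : ℝ)..1, u ^ (-a) * Real.exp (-(w * u)) with hJ1
  have hi1 : IntervalIntegrable (fun u : ℝ => u ^ (-a) * Real.exp (-(w * u))) volume 0 1 :=
    rpow_II ha1 (by fun_prop)
  have hi2 := ii_J h1a.le w 0 1
  -- `z = w (J1 - w J2)`
  have hz : zz a w = w * (J1 - w * JI (1 - a) w) := by
    have hs : (∫ u in (0 : ℝ)..1, u ^ (-a) * ((1 - w * u) * Real.exp (-(w * u)))) =
        J1 - w * JI (1 - a) w := by
      have e1 : w * JI (1 - a) w =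
          ∫ u in (0 : ℝ)..1, w * (u ^ (1 - a) * Real.exp (-(w * u))) := by
        unfold JI
        rw [intervalIntegral.integral_const_mul]
      rw [e1, hJ1, ← intervalIntegral.integral_sub hi1 (hi2.const_mul w)]
      refine intervalIntegral.integral_congr_ae (Eventually.of_forall fun u hu => ?_)
      rw [Set.uIoc_of_le zero_le_one] at hu
      have e : u ^ (1 - a) = u ^ (-a) * u := by
        rw [show (1 - a) = -a + 1 by ring, Real.rpow_add hu.1, Real.rpow_one]
      show u ^ (-a) * ((1 - w * u) * Real.exp (-(w * u))) =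
        u ^ (-a) * Real.exp (-(w * u)) - w * (u ^ (1 - a) * Real.exp (-(w * u)))
      rw [e]
      ring
    rw [zz_eq a hw, hs]
  -- parts
  have hp : (1 - a) * J1 - w * JI (1 - a) w = Real.exp (-w) := by
    have hcont : ContinuousOn (fun u : ℝ => u ^ (1 - a) * Real.exp (-(w * u))) (Icc 0 1) :=
      ((Real.continuous_rpow_const h1a.le).mul (by fun_prop)).continuousOn
    have hder : ∀ u ∈ Ioo (0 : ℝ) 1, HasDerivAt (fun u : ℝ => u ^ (1 - a) * Real.exp (-(w * u)))
        ((1 - a) * (u ^ (-a) * Real.exp (-(w * u))) - w * (u ^ (1 - a) * Real.exp (-(w * u)))) u := by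
      intro u hu
      have d1 : HasDerivAt (fun u : ℝ => u ^ (1 - a)) ((1 - a) * u ^ (1 - a - 1)) u :=
        Real.hasDerivAt_rpow_const (Or.inl hu.1.ne')
      have d2 : HasDerivAt (fun u : ℝ => Real.exp (-(w * u))) (Real.exp (-(w * u)) * -(w * 1)) u :=
        (((hasDerivAt_id u).const_mul w).neg).exp
      refine (d1.mul d2).congr_deriv ?_
      rw [show 1 - a - 1 = -a by ring]
      ring
    have hint : IntervalIntegrable (fun u : ℝ => (1 - a) * (u ^ (-a) * Real.exp (-(w * u))) -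
        w * (u ^ (1 - a) * Real.exp (-(w * u)))) volume 0 1 :=
      (hi1.const_mul _).sub (hi2.const_mul _)
    have h := intervalIntegral.integral_eq_sub_of_hasDerivAt_of_le zero_le_one hcont hder hint
    rw [intervalIntegral.integral_sub (hi1.const_mul _) (hi2.const_mul _),
      intervalIntegral.integral_const_mul, intervalIntegral.integral_const_mul] at h
    rw [← hJ1] at h
    unfold JI
    rw [h, Real.zero_rpow h1a.ne', Real.one_rpow]
    simp
  rw [Tl_zero, hz]
  have hJ : J1 = (Real.exp (-w) + w * JI (1 - a) w) / (1 - a) := by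
    rw [eq_div_iff h1a.ne']
    linarith
  rw [hJ]
  field_simp
  ring

/-- `v^s - v^(s+δ) ≤ δ v^s log(1/v)` on `(0,1]` -/
theorem rpow_sub_le {s δ v : ℝ} (hv : 0 < v) :
    v ^ s - v ^ (s + δ) ≤ δ * (v ^ s * (-Real.log v)) := by
  rw [Real.rpow_add hv]
  have h1 : δ * Real.log v + 1 ≤ v ^ δ := by
    rw [Real.rpow_def_of_pos hv]
    have := Real.add_one_le_exp (Real.log v * δ)
    linarith
  have h2 : 0 ≤ v ^ s := Real.rpow_nonneg hv.le _
  nlinarith [mul_le_mul_of_nonneg_left h1 h2]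

/-- `v^t log(1/v) ≤ 1/t` on `(0,1]` -/
theorem rpow_log_le {t v : ℝ} (ht : 0 < t) (hv : 0 < v) : v ^ t * (-Real.log v) ≤ 1 / t := by
  have h1 : Real.log (v ^ (-t)) ≤ v ^ (-t) - 1 :=
    Real.log_le_sub_one_of_pos (Real.rpow_pos_of_pos hv _)
  rw [Real.log_rpow hv] at h1
  have h2 : 0 < v ^ t := Real.rpow_pos_of_pos hv _
  have h3 : v ^ t * v ^ (-t) = 1 := by
    rw [← Real.rpow_add hv]
    simp
  rw [le_div_iff₀ ht]
  have h4 := mul_le_mul_of_nonneg_left h1 h2.le
  have h5 : v ^ t * (v ^ (-t) - 1) = 1 - v ^ t := by rw [mul_sub, h3, mul_one]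
  rw [h5] at h4
  nlinarith

theorem JI_sub_le {t δ w : ℝ} (ht : 0 < t) (hδ : 0 ≤ δ) :
    JI t w - JI (t + δ) w ≤ δ * LI t w := by
  unfold JI LI
  rw [← intervalIntegral.integral_sub (ii_J ht.le w 0 1) (ii_J (by linarith) w 0 1),
    ← intervalIntegral.integral_const_mul]
  refine intervalIntegral.integral_mono_on_of_le_Ioo zero_le_one
    ((ii_J ht.le w 0 1).sub (ii_J (by linarith) w 0 1)) ((ii_L ht.le w 0 1).const_mul δ)
    fun v hv => ?_
  have h1 := rpow_sub_le (s := t) (δ := δ) hv.1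
  have h2 := (Real.exp_pos (-(w * v))).le
  have h3 := mul_le_mul_of_nonneg_right h1 h2
  calc v ^ t * Real.exp (-(w * v)) - v ^ (t + δ) * Real.exp (-(w * v))
      = (v ^ t - v ^ (t + δ)) * Real.exp (-(w * v)) := by ring
    _ ≤ _ := h3
    _ = _ := by ring

theorem LI_le {t w : ℝ} (ht : 0 < t) (hw : 0 ≤ w) : LI t w ≤ 1 / t := by
  unfold LI
  have h : ∫ v in (0 : ℝ)..1, v ^ t * (-Real.log v) * Real.exp (-(w * v)) ≤
      ∫ v in (0 : ℝ)..1, 1 / t := by
    refine intervalIntegral.integral_mono_on_of_le_Ioo zero_le_one (ii_L ht.le w 0 1)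
      intervalIntegrable_const fun v hv => ?_
    have h1 := rpow_log_le ht hv.1
    have h2 : Real.exp (-(w * v)) ≤ 1 :=
      Real.exp_le_one_iff.2 (by nlinarith [mul_nonneg hw hv.1.le])
    have h3 : 0 ≤ v ^ t * (-Real.log v) :=
      mul_nonneg (Real.rpow_nonneg hv.1.le _) (by linarith [Real.log_nonpos hv.1.le hv.2.le])
    calc v ^ t * (-Real.log v) * Real.exp (-(w * v)) ≤ v ^ t * (-Real.log v) * 1 :=
          mul_le_mul_of_nonneg_left h2 h3
      _ ≤ 1 / t := by linarith
  refine h.trans ?_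
  simp

theorem LI_nonneg {t w : ℝ} : 0 ≤ LI t w := by
  unfold LI
  refine intervalIntegral.integral_nonneg zero_le_one fun v hv => ?_
  exact mul_nonneg (mul_nonneg (Real.rpow_nonneg hv.1 _)
    (by linarith [Real.log_nonpos hv.1 hv.2])) (Real.exp_pos _).le

/-- `w ∫_0^1 e^(-wv) dv = 1 - e^(-w)` -/
theorem mass_eq {w : ℝ} (hw : 0 < w) :
    w * ∫ v in (0 : ℝ)..1, Real.exp (-(w * v)) = 1 - Real.exp (-w) := by
  have hd : ∀ v ∈ uIcc (0 : ℝ) 1, HasDerivAt (fun v : ℝ => -Real.exp (-(w * v)))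
      (w * Real.exp (-(w * v))) v := by
    intro v _
    have d2 : HasDerivAt (fun u : ℝ => Real.exp (-(w * u))) (Real.exp (-(w * v)) * -(w * 1)) v :=
      (((hasDerivAt_id v).const_mul w).neg).exp
    exact d2.neg.congr_deriv (by ring)
  have h := intervalIntegral.integral_eq_sub_of_hasDerivAt hd
    (by apply Continuous.intervalIntegrable; fun_prop)
  rw [intervalIntegral.integral_const_mul] at h
  rw [h]
  simp
  ring

/-- **Chebyshev**: `w L(t) ≤ (w L(0)) (e^(-w) + w J(t))` -/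
theorem cheb {t w : ℝ} (ht : 0 < t) (hw : 0 < w) :
    w * LI t w ≤ (w * LI 0 w) * (Real.exp (-w) + w * JI t w) := by
  set E := Real.exp (-w) with hE
  set m := E + w * JI t w with hm
  have hE0 : 0 < E := Real.exp_pos _
  have hJ0 : 0 ≤ JI t w := by
    unfold JI
    refine intervalIntegral.integral_nonneg zero_le_one fun v hv => ?_
    exact mul_nonneg (Real.rpow_nonneg hv.1 _) (Real.exp_pos _).le
  have hm0 : 0 < m := by
    rw [hm]; nlinarith [mul_nonneg hw.le hJ0]
  have hM := mass_eq hw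
  have hcexp : Continuous fun v : ℝ => Real.exp (-(w * v)) := by fun_prop
  have hiexp : IntervalIntegrable (fun v : ℝ => Real.exp (-(w * v))) volume 0 1 :=
    hcexp.intervalIntegrable _ _
  -- `m ≤ 1`
  have hJle : JI t w ≤ ∫ v in (0 : ℝ)..1, Real.exp (-(w * v)) := by
    unfold JI
    refine intervalIntegral.integral_mono_on zero_le_one (ii_J ht.le w 0 1) hiexp fun v hv => ?_
    have h1 : v ^ t ≤ 1 := Real.rpow_le_one hv.1 hv.2 ht.le
    have h2 := (Real.exp_pos (-(w * v))).le
    nlinarith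
  have hm1 : m ≤ 1 := by
    have := mul_le_mul_of_nonneg_left hJle hw.le
    rw [hM] at this
    rw [hm]
    linarith
  -- the pivot
  set L0 : ℝ := -Real.log m / t with hL0
  have hL00 : 0 ≤ L0 := div_nonneg (by linarith [Real.log_nonpos hm0.le hm1]) ht.le
  have hpt : ∀ v : ℝ, 0 < v → v ≤ 1 → (v ^ t - m) * (-Real.log v - L0) ≤ 0 := by
    intro v hv hv1
    have hvt : 0 < v ^ t := Real.rpow_pos_of_pos hv _
    have e1 : -Real.log v - L0 = (Real.log m - Real.log (v ^ t)) / t := by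
      rw [hL0, Real.log_rpow hv]
      field_simp
      ring
    rw [e1]
    rcases le_total m (v ^ t) with h | h
    · have h2 := Real.log_le_log hm0 h
      exact mul_nonpos_of_nonneg_of_nonpos (by linarith)
        (div_nonpos_of_nonpos_of_nonneg (by linarith) ht.le)
    · have h2 := Real.log_le_log hvt h
      exact mul_nonpos_of_nonpos_of_nonneg (by linarith)
        (div_nonneg (by linarith) ht.le)
  -- integrate
  have hiL0 : IntervalIntegrable (fun v : ℝ => v ^ (0 : ℝ) * (-Real.log v) * Real.exp (-(w * v)))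
      volume 0 1 := ii_L le_rfl w 0 1
  have hsum : ∫ v in (0 : ℝ)..1, (v ^ t * (-Real.log v) * Real.exp (-(w * v)) -
      m * (v ^ (0 : ℝ) * (-Real.log v) * Real.exp (-(w * v))) -
      L0 * (v ^ t * Real.exp (-(w * v))) + m * L0 * Real.exp (-(w * v))) ≤ 0 := by
    have h0 : ∫ v in (0 : ℝ)..1, (v ^ t * (-Real.log v) * Real.exp (-(w * v)) -
        m * (v ^ (0 : ℝ) * (-Real.log v) * Real.exp (-(w * v))) -
        L0 * (v ^ t * Real.exp (-(w * v))) + m * L0 * Real.exp (-(w * v))) ≤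
        ∫ v in (0 : ℝ)..1, (0 : ℝ) := by
      refine intervalIntegral.integral_mono_on_of_le_Ioo zero_le_one
        ((((ii_L ht.le w 0 1).sub (hiL0.const_mul m)).sub ((ii_J ht.le w 0 1).const_mul L0)).add
          (hiexp.const_mul (m * L0))) intervalIntegrable_const fun v hv => ?_
      have h1 := hpt v hv.1 hv.2.le
      have h2 := (Real.exp_pos (-(w * v))).le
      have h3 := mul_nonpos_of_nonpos_of_nonneg h1 h2
      rw [Real.rpow_zero]
      calc v ^ t * (-Real.log v) * Real.exp (-(w * v)) - m * (1 * (-Real.log v) *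
            Real.exp (-(w * v))) - L0 * (v ^ t * Real.exp (-(w * v))) +
            m * L0 * Real.exp (-(w * v))
          = (v ^ t - m) * (-Real.log v - L0) * Real.exp (-(w * v)) := by ring
        _ ≤ 0 := h3
    simpa using h0
  have hsplit : ∫ v in (0 : ℝ)..1, (v ^ t * (-Real.log v) * Real.exp (-(w * v)) -
      m * (v ^ (0 : ℝ) * (-Real.log v) * Real.exp (-(w * v))) -
      L0 * (v ^ t * Real.exp (-(w * v))) + m * L0 * Real.exp (-(w * v))) =
      LI t w - m * LI 0 w - L0 * JI t w + m * L0 * ∫ v in (0 : ℝ)..1, Real.exp (-(w * v)) := by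
    unfold LI JI
    rw [intervalIntegral.integral_add
      (((ii_L ht.le w 0 1).sub (hiL0.const_mul m)).sub ((ii_J ht.le w 0 1).const_mul L0))
      (hiexp.const_mul (m * L0)),
      intervalIntegral.integral_sub ((ii_L ht.le w 0 1).sub (hiL0.const_mul m))
      ((ii_J ht.le w 0 1).const_mul L0),
      intervalIntegral.integral_sub (ii_L ht.le w 0 1) (hiL0.const_mul m),
      intervalIntegral.integral_const_mul, intervalIntegral.integral_const_mul,
      intervalIntegral.integral_const_mul]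
  rw [hsplit] at hsum
  have h5 := mul_nonpos_of_nonneg_of_nonpos hw.le hsum
  have h6 : w * (LI t w - m * LI 0 w - L0 * JI t w + m * L0 *
      ∫ v in (0 : ℝ)..1, Real.exp (-(w * v))) =
      w * LI t w - m * (w * LI 0 w) - L0 * (w * JI t w) + m * L0 *
      (w * ∫ v in (0 : ℝ)..1, Real.exp (-(w * v))) := by ring
  rw [h6, hM] at h5
  have h7 : w * JI t w = m - E := by rw [hm]; ring
  rw [h7] at h5
  have h8 : w * LI t w - m * (w * LI 0 w) + L0 * E * (1 - m) ≤ 0 := by
    have : w * LI t w - m * (w * LI 0 w) + L0 * E * (1 - m) =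
      w * LI t w - m * (w * LI 0 w) - L0 * (m - E) + m * L0 * (1 - E) := by ring
    rw [this]; exact h5
  have h9 : 0 ≤ L0 * E * (1 - m) := mul_nonneg (mul_nonneg hL00 hE0.le) (by linarith)
  linarith

/-- the sum of all levels `k < n+1` -/
theorem sum_le {a : ℝ} (ha0 : 0 < a) (ha1 : a < 1) (n : ℕ) {w : ℝ} (hw : 0 < w) :
    ∑ k ∈ range (n + 1), Mk a k * Tl a w k ≤
      Tl a w 0 * (1 / (a * (1 - a)) + w * LI 0 w) := by
  have h1a : 0 < 1 - a := by linarith
  set EN := w * LI 0 w with hEN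
  have hEN0 : 0 ≤ EN := mul_nonneg hw.le LI_nonneg
  set H : ℝ → ℝ := fun a' => w * (Real.exp (-w) + w * JI (1 - a') w) with hH
  have hT : ∀ a' : ℝ, a' < 1 → Tl a' w 0 = a' / (1 - a') * H a' := fun a' h => Tl_zero_eq h hw
  -- the bound for `a' > a`
  have key : ∀ a', a < a' → a' < 1 → ∑ k ∈ range (n + 1), Mk a k * Tl a w k ≤
      (H a + (a' - a) * (w ^ 2 * (1 / (1 - a')))) *
        (1 / ((1 - a) * (1 - a')) + a / (1 - a) * EN) := by
    intro a' h h'
    have hδ : 0 < a' - a := sub_pos.2 h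
    have h1a' : 0 < 1 - a' := by linarith
    have h2 := sum_le_zz_sub ha0 h.le h' n hw
    have h3 : zz a' w - zz a w = Tl a' w 0 - Tl a w 0 := by rw [Tl_zero, Tl_zero]; ring
    rw [h3, hT a' h', hT a ha1] at h2
    -- `H(a') - H(a) ≤ (a'-a) w² L(1-a')`
    have e1 : (1 - a' : ℝ) + (a' - a) = 1 - a := by ring
    have h4 := JI_sub_le (t := 1 - a') (δ := a' - a) (w := w) h1a' hδ.le
    rw [e1] at h4
    have h5 : H a' - H a ≤ (a' - a) * (w ^ 2 * LI (1 - a') w) := by
      have := mul_le_mul_of_nonneg_left h4 (sq_nonneg w)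
      have e2 : H a' - H a = w ^ 2 * (JI (1 - a') w - JI (1 - a) w) := by
        simp only [hH]; ring
      rw [e2]
      linarith
    have h6 : w * LI (1 - a') w ≤ EN * (Real.exp (-w) + w * JI (1 - a') w) := cheb h1a' hw
    have h7 : w ^ 2 * LI (1 - a') w ≤ EN * H a' := by
      have := mul_le_mul_of_nonneg_left h6 hw.le
      simp only [hH]
      nlinarith [this]
    have h8 : LI (1 - a') w ≤ 1 / (1 - a') := LI_le h1a' hw.le
    have h9 : H a' ≤ H a + (a' - a) * (w ^ 2 * (1 / (1 - a'))) := by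
      have := mul_le_mul_of_nonneg_left (mul_le_mul_of_nonneg_left h8 (sq_nonneg w)) hδ.le
      linarith
    have hH0 : 0 ≤ H a' := by
      have hJ0 : 0 ≤ JI (1 - a') w := by
        unfold JI
        refine intervalIntegral.integral_nonneg zero_le_one fun v hv => ?_
        exact mul_nonneg (Real.rpow_nonneg hv.1 _) (Real.exp_pos _).le
      have := Real.exp_pos (-w)
      simp only [hH]
      positivity
    -- total
    have h10 : a' / (1 - a') * H a' - a / (1 - a) * H a =
        (a' - a) * (1 / ((1 - a) * (1 - a'))) * H a' + a / (1 - a) * (H a' - H a) := by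
      field_simp
      ring
    rw [h10] at h2
    have h11 : a / (1 - a) * (H a' - H a) ≤ (a' - a) * (a / (1 - a) * EN) * H a' := by
      have h12 : 0 ≤ a / (1 - a) := by positivity
      have h13 : H a' - H a ≤ (a' - a) * (EN * H a') :=
        h5.trans (mul_le_mul_of_nonneg_left h7 hδ.le)
      have := mul_le_mul_of_nonneg_left h13 h12
      linarith
    have h14 : (a' - a) * ∑ k ∈ range (n + 1), Mk a k * Tl a w k ≤
        (a' - a) * (H a' * (1 / ((1 - a) * (1 - a')) + a / (1 - a) * EN)) := by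
      linarith
    have h15 := le_of_mul_le_mul_left h14 hδ
    refine h15.trans (mul_le_mul_of_nonneg_right h9 ?_)
    positivity
  -- the limit `a' → a`
  set Q : ℝ → ℝ := fun a' => (H a + (a' - a) * (w ^ 2 * (1 / (1 - a')))) *
        (1 / ((1 - a) * (1 - a')) + a / (1 - a) * EN) with hQ
  have hcont : ContinuousAt Q a := by
    have n1 : (1 - a) ≠ 0 := h1a.ne'
    have c1 : ContinuousAt (fun a' : ℝ => 1 / (1 - a')) a :=
      continuousAt_const.div (continuousAt_const.sub continuousAt_id) n1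
    have c2 : ContinuousAt (fun a' : ℝ => 1 / ((1 - a) * (1 - a'))) a :=
      continuousAt_const.div (continuousAt_const.mul (continuousAt_const.sub continuousAt_id))
        (mul_ne_zero n1 n1)
    exact (continuousAt_const.add ((continuousAt_id.sub continuousAt_const).mul
      (continuousAt_const.mul c1))).mul (c2.add continuousAt_const)
  have hQa : Q a = Tl a w 0 * (1 / (a * (1 - a)) + EN) := by
    rw [hT a ha1]
    simp only [hQ, sub_self, zero_mul, add_zero]
    field_simp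
  have hlim : Tendsto Q (𝓝[>] a) (𝓝 (Tl a w 0 * (1 / (a * (1 - a)) + EN))) := by
    rw [← hQa]
    exact hcont.tendsto.mono_left nhdsWithin_le_nhds
  refine ge_of_tendsto hlim ?_
  filter_upwards [Ioo_mem_nhdsGT ha1] with x hx
  exact key x hx.1 hx.2

/-- `mu ≤ w ∫_0^1 log(1/v) e^(-wv) dv` for every `n` -/
theorem muN_le_EN {a : ℝ} (ha0 : 0 < a) (ha1 : a < 1) (n : ℕ) {w : ℝ} (hw : 0 < w) :
    CG.muN n a w ≤ w * LI 0 w := by
  have hT := Tl_pos ha0 ha1 hw 0
  have h1a : 0 < 1 - a := by linarith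
  unfold CG.muN
  rw [div_le_iff₀ hT]
  have h1 := sum_le ha0 ha1 n hw
  rw [Finset.range_eq_Ico, Finset.sum_eq_sum_Ico_succ_bot (Nat.succ_pos n)] at h1
  have h2 : Mk a 0 * Tl a w 0 = Tl a w 0 * (1 / (a * (1 - a))) := by
    unfold Mk
    simp only [Nat.cast_zero, mul_zero, zero_add]
    ring
  rw [h2] at h1
  have h4 : Finset.Ico 1 n ⊆ Finset.Ico (0 + 1) (n + 1) := by
    rw [zero_add]
    exact Finset.Ico_subset_Ico_right (Nat.le_succ n)
  have h3 : ∑ j ∈ Finset.Ico 1 n,
      Tl a w j * ((2 * (j : ℝ) + 1) / (((j : ℝ) + a) * ((j : ℝ) + 1 - a))) ≤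
      ∑ k ∈ Finset.Ico (0 + 1) (n + 1), Mk a k * Tl a w k := by
    have h5 : ∑ j ∈ Finset.Ico 1 n,
        Tl a w j * ((2 * (j : ℝ) + 1) / (((j : ℝ) + a) * ((j : ℝ) + 1 - a))) =
        ∑ k ∈ Finset.Ico 1 n, Mk a k * Tl a w k :=
      Finset.sum_congr rfl fun k _ => by rw [Mk, mul_comm]
    rw [h5]
    refine Finset.sum_le_sum_of_subset_of_nonneg h4 fun j _ _ => ?_
    exact mul_nonneg (Mk_pos ha0 ha1 j).le (Tl_pos ha0 ha1 hw j).le
  linarith

/-! ### `w L(0) ≤ log w + 3/5` -/

theorem ii_log (x y : ℝ) :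
    IntervalIntegrable (fun s : ℝ => Real.log s * Real.exp (-s)) volume x y :=
  (intervalIntegral.intervalIntegrable_log' (a := x) (b := y)).mul_continuousOn
    (by fun_prop : Continuous fun s : ℝ => Real.exp (-s)).continuousOn

theorem EN_eq {w : ℝ} (hw : 0 < w) : w * LI 0 w = Real.log w * (1 - Real.exp (-w)) -
    ∫ s in (0 : ℝ)..w, Real.log s * Real.exp (-s) := by
  have h1 : w * LI 0 w = ∫ s in (0 : ℝ)..w, (Real.log w * Real.exp (-s) -
      Real.log s * Real.exp (-s)) := by
    have h := intervalIntegral.mul_integral_comp_mul_left (a := 0) (b := 1)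
      (f := fun s : ℝ => Real.log w * Real.exp (-s) - Real.log s * Real.exp (-s)) w
    rw [mul_zero, mul_one] at h
    rw [← h]
    unfold LI
    congr 1
    refine intervalIntegral.integral_congr_ae (Eventually.of_forall fun u hu => ?_)
    rw [Set.uIoc_of_le zero_le_one] at hu
    show u ^ (0 : ℝ) * (-Real.log u) * Real.exp (-(w * u)) =
      Real.log w * Real.exp (-(w * u)) - Real.log (w * u) * Real.exp (-(w * u))
    rw [Real.rpow_zero, Real.log_mul hw.ne' hu.1.ne']
    ring
  have hc : Continuous fun s : ℝ => Real.log w * Real.exp (-s) := by fun_prop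
  rw [h1, intervalIntegral.integral_sub (hc.intervalIntegrable _ _) (ii_log 0 w),
    intervalIntegral.integral_const_mul]
  congr 2
  have hd : ∀ v ∈ uIcc (0 : ℝ) w, HasDerivAt (fun v : ℝ => -Real.exp (-v))
      (Real.exp (-v)) v := by
    intro v _
    have d2 : HasDerivAt (fun u : ℝ => Real.exp (-u)) (Real.exp (-v) * -1) v :=
      ((hasDerivAt_id v).neg).exp
    exact d2.neg.congr_deriv (by ring)
  rw [intervalIntegral.integral_eq_sub_of_hasDerivAt hd
    (by apply Continuous.intervalIntegrable; fun_prop)]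
  simp
  ring

theorem EN_mono {w₀ w : ℝ} (h0 : 0 < w₀) (h : w₀ ≤ w) :
    w * LI 0 w ≤ Real.log w + (w₀ * LI 0 w₀ - Real.log w₀) := by
  have hw : 0 < w := h0.trans_le h
  rw [EN_eq hw, EN_eq h0]
  have h1 := intervalIntegral.integral_add_adjacent_intervals (ii_log 0 w₀) (ii_log w₀ w)
  have hlog : Real.log w₀ ≤ Real.log w := Real.log_le_log h0 h
  have h2 : Real.log w₀ * (Real.exp (-w₀) - Real.exp (-w)) ≤
      ∫ s in w₀..w, Real.log s * Real.exp (-s) := by
    have hd : ∀ v ∈ uIcc w₀ w, HasDerivAt (fun v : ℝ => -(Real.log w₀ * Real.exp (-v)))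
        (Real.log w₀ * Real.exp (-v)) v := by
      intro v _
      have d2 : HasDerivAt (fun u : ℝ => Real.exp (-u)) (Real.exp (-v) * -1) v :=
        ((hasDerivAt_id v).neg).exp
      exact (d2.const_mul (Real.log w₀)).neg.congr_deriv (by ring)
    have hii : IntervalIntegrable (fun s : ℝ => Real.log w₀ * Real.exp (-s)) volume w₀ w := by
      apply Continuous.intervalIntegrable; fun_prop
    have h3 := intervalIntegral.integral_eq_sub_of_hasDerivAt hd hii
    have h4 : ∫ s in w₀..w, Real.log w₀ * Real.exp (-s) ≤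
        ∫ s in w₀..w, Real.log s * Real.exp (-s) := by
      refine intervalIntegral.integral_mono_on h hii (ii_log w₀ w) fun s hs => ?_
      exact mul_le_mul_of_nonneg_right (Real.log_le_log h0 hs.1) (Real.exp_pos _).le
    rw [h3] at h4
    linarith
  have h5 := Real.exp_pos (-w)
  nlinarith [mul_nonneg (sub_nonneg.2 hlog) h5.le]

/-- `∫_0^1 v^k log(1/v) dv = 1/(k+1)²` -/
theorem int_pow_log (k : ℕ) :
    ∫ v in (0 : ℝ)..1, v ^ k * (-Real.log v) = 1 / ((k : ℝ) + 1) ^ 2 := by
  have hk : (0 : ℝ) < (k : ℝ) + 1 := by positivity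
  have hcont : ContinuousOn (fun v : ℝ => v ^ (k + 1) / ((k : ℝ) + 1) ^ 2 -
      v ^ k * (v * Real.log v) / ((k : ℝ) + 1)) (Icc 0 1) := by
    refine Continuous.continuousOn ?_
    have := Real.continuous_mul_log
    fun_prop
  have hder : ∀ v ∈ Ioo (0 : ℝ) 1, HasDerivAt (fun v : ℝ => v ^ (k + 1) / ((k : ℝ) + 1) ^ 2 -
      v ^ k * (v * Real.log v) / ((k : ℝ) + 1)) (v ^ k * (-Real.log v)) v := by
    intro v hv
    have e : (fun v : ℝ => v ^ (k + 1) / ((k : ℝ) + 1) ^ 2 -
      v ^ k * (v * Real.log v) / ((k : ℝ) + 1)) = fun v : ℝ => v ^ (k + 1) / ((k : ℝ) + 1) ^ 2 -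
      v ^ (k + 1) * Real.log v / ((k : ℝ) + 1) := by
      funext v; ring
    rw [e]
    have d1 := hasDerivAt_pow (k + 1) v
    have d2 := Real.hasDerivAt_log hv.1.ne'
    refine ((d1.div_const (((k : ℝ) + 1) ^ 2)).sub ((d1.mul d2).div_const ((k : ℝ) + 1))).congr_deriv ?_
    have hv0 := hv.1.ne'
    rw [Nat.add_sub_cancel]
    push_cast
    field_simp
    ring
  have hint : IntervalIntegrable (fun v : ℝ => v ^ k * (-Real.log v)) volume 0 1 := by
    have h1 : IntervalIntegrable Real.log volume 0 1 := intervalIntegral.intervalIntegrable_log'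
    have h2 : Continuous fun v : ℝ => -(v ^ k) := by fun_prop
    refine (h1.mul_continuousOn h2.continuousOn).congr (fun v _ => ?_)
    ring
  rw [intervalIntegral.integral_eq_sub_of_hasDerivAt_of_le zero_le_one hcont hder hint]
  simp

theorem EN_series {w : ℝ} (hw : 0 < w) (M : ℕ) :
    w * LI 0 w ≤ w * ∑ k ∈ range (2 * M + 1), (-1) ^ k * w ^ k / k ! / ((k : ℝ) + 1) ^ 2 := by
  refine mul_le_mul_of_nonneg_left ?_ hw.le
  have hlogi : IntervalIntegrable Real.log volume 0 1 := intervalIntegral.intervalIntegrable_log'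
  have hi : ∀ k : ℕ, IntervalIntegrable (fun v : ℝ => v ^ k * (-Real.log v)) volume 0 1 := by
    intro k
    have h2 : Continuous fun v : ℝ => -(v ^ k) := by fun_prop
    refine (hlogi.mul_continuousOn h2.continuousOn).congr (fun v _ => ?_)
    ring
  have hsumi : IntervalIntegrable (fun v : ℝ => ∑ k ∈ range (2 * M + 1),
      ((-1) ^ k * w ^ k / k !) * (v ^ k * (-Real.log v))) volume 0 1 := by
    have h2 : Continuous fun v : ℝ => -∑ k ∈ range (2 * M + 1),
        ((-1) ^ k * w ^ k / k !) * v ^ k := by fun_prop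
    refine (hlogi.mul_continuousOn h2.continuousOn).congr (fun v _ => ?_)
    show Real.log v * (-∑ k ∈ range (2 * M + 1), ((-1) ^ k * w ^ k / k !) * v ^ k) =
      ∑ k ∈ range (2 * M + 1), ((-1) ^ k * w ^ k / k !) * (v ^ k * (-Real.log v))
    rw [mul_neg, Finset.mul_sum, ← Finset.sum_neg_distrib]
    refine Finset.sum_congr rfl fun k _ => ?_
    ring
  have h1 : LI 0 w ≤ ∫ v in (0 : ℝ)..1, ∑ k ∈ range (2 * M + 1),
      ((-1) ^ k * w ^ k / k !) * (v ^ k * (-Real.log v)) := by
    unfold LI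
    refine intervalIntegral.integral_mono_on_of_le_Ioo zero_le_one (ii_L le_rfl w 0 1)
      hsumi fun v hv => ?_
    have h2 := Enc.exp_le_EE M (s := w * v) (mul_nonneg hw.le hv.1.le)
    have h3 : 0 ≤ -Real.log v := by linarith [Real.log_nonpos hv.1.le hv.2.le]
    have h4 := mul_le_mul_of_nonneg_left h2 h3
    rw [Real.rpow_zero, one_mul]
    refine h4.trans (le_of_eq ?_)
    unfold Enc.EE
    rw [Finset.mul_sum]
    refine Finset.sum_congr rfl fun k _ => ?_
    rw [mul_pow]
    ring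
  refine h1.trans (le_of_eq ?_)
  rw [intervalIntegral.integral_finsetSum (fun k _ => (hi k).const_mul _)]
  refine Finset.sum_congr rfl fun k _ => ?_
  rw [intervalIntegral.integral_const_mul, int_pow_log]
  ring

theorem EN_46 : (23 / 5 : ℝ) * LI 0 (23 / 5) ≤ 2106 / 1000 := by
  refine (EN_series (by norm_num) 7).trans ?_
  norm_num [Finset.sum_range_succ, Nat.factorial]

theorem log_46 : (1507 / 1000 : ℝ) ≤ Real.log (23 / 5) := by
  have h1 : Real.log (23 / 5) = 2 * Real.log 2 + Real.log (23 / 20) := by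
    rw [show (23 / 5 : ℝ) = 2 ^ 2 * (23 / 20) by norm_num,
      Real.log_mul (by norm_num) (by norm_num), Real.log_pow]
    push_cast
    ring
  have h2 := Real.log_two_gt_d9
  have h3 := Real.one_sub_inv_le_log_of_pos (show (0 : ℝ) < 23 / 20 by norm_num)
  rw [h1]
  norm_num at h3
  linarith

/-- `w ∫_0^1 log(1/v) e^(-wv) dv ≤ log w + 3/5` for `w ≥ 23/5` -/
theorem EN_le_log {w : ℝ} (hw : 23 / 5 ≤ w) : w * LI 0 w ≤ Real.log w + 3 / 5 := by
  have h1 := EN_mono (by norm_num) hw
  have h2 := EN_46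
  have h3 := log_46
  linarith

/-- **`mu ≤ log c + 3/5`**, every `n`, every `a`, `c ≥ 23/5` -/
theorem muN_le_log {a c : ℝ} (ha0 : 0 < a) (ha1 : a < 1) (hc : 23 / 5 ≤ c) (n : ℕ) :
    CG.muN n a c ≤ Real.log c + 3 / 5 :=
  (muN_le_EN ha0 ha1 n (by linarith)).trans (EN_le_log hc)

end Pool.Agent.Lib.QNL.MuLog22
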