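import Pool.Agent.Lib.QNL.Num93
import Pool.Agent.Lib.QNL.CertOf95

/-!
From ratio bounds `RB` and pole values `h_1, …, h_K` to `Tail1`, for every `n`.
-/

set_option autoImplicit false

namespace Pool.Agent.Lib.QNL.Num93

open Set
open Pool.Agent.Lib.QNL
open Pool.Agent.Lib.QNL.Wts73
open Pool.Agent.Lib.QNL.CG (bs bs_nonneg wj_bs Tail1 Ft_bs)
open Pool.Agent.Lib.QNL.Ric (Ft wj thj Bj cj Cj cj_pos one_le_cj)
open Pool.Agent.Lib.QNL.Tail35

/-- condition for one step, with `c = c_j` -/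
def StepOK (h h' q c Ym : ℝ) : Prop :=
  c + (1 + c) ^ 2 / c * q ≤ h ∧ 0 ≤ h' ∧ h * Ym < 1 ∧ h' * Ym < 1 ∧
    (1 + c) ^ 2 / c * q * (1 + q) + q * (h' - 1 / c) * (1 - h * Ym) ≤
      (h - c) * (1 - h' * Ym) * (1 + q)

/-- the condition is monotone in `q` -/
theorem StepOK.mono {h h' q q' c Ym : ℝ} (hs : StepOK h h' q c Ym) (hc : 0 < c) (hq' : 0 ≤ q')
    (hqq : q' ≤ q) : StepOK h h' q' c Ym := by
  obtain ⟨h1, h2, h3, h4, h5⟩ := hs
  have hM : 0 ≤ (1 + c) ^ 2 / c := by positivity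
  have hMq : (1 + c) ^ 2 / c * q' ≤ (1 + c) ^ 2 / c * q := mul_le_mul_of_nonneg_left hqq hM
  refine ⟨by linarith, h2, h3, h4, ?_⟩
  set M : ℝ := (1 + c) ^ 2 / c with hMdef
  have hhc : 0 ≤ h - c := by
    have : 0 ≤ M * q := mul_nonneg hM (hq'.trans hqq)
    linarith
  set A : ℝ := (h - c) * (1 - h' * Ym) with hA
  have hA0 : 0 ≤ A := mul_nonneg hhc (by linarith)
  rcases eq_or_lt_of_le (hq'.trans hqq) with h0 | h0
  · have h6 : q' = 0 := by linarith
    rw [h6]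
    simp only [mul_zero, zero_mul, add_zero, mul_one]
    exact hA0
  · have h6 : 0 ≤ q' * (A * (1 + q) - (M * q * (1 + q) + q * (h' - 1 / c) * (1 - h * Ym))) :=
      mul_nonneg hq' (by linarith)
    have h7 : 0 ≤ A * (q - q') := mul_nonneg hA0 (by linarith)
    have h8 : 0 ≤ M * q' * q * (q - q') :=
      mul_nonneg (mul_nonneg (mul_nonneg hM hq') h0.le) (by linarith)
    have h9 : 0 ≤ q * (A * (1 + q') - (M * q' * (1 + q') + q' * (h' - 1 / c) * (1 - h * Ym))) := by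
      linarith
    have h10 := nonneg_of_mul_nonneg_right h9 h0
    linarith

variable {n : ℕ} {a p c : ℝ}

theorem lam_bs (h0 : 1 / 2 < a) (h1 : a < 1) {j : ℕ} (hj : j < n) :
    lam n p a (bs n a c) j = (2 - p) * (Tl a c j * Mk a j) := by
  unfold lam
  rw [wj_bs a c p hj]
  have hj0 : (0 : ℝ) ≤ j := Nat.cast_nonneg j
  have h2 : (0 : ℝ) < j + a := by linarith
  have h3 : (0 : ℝ) < j + 1 - a := by linarith
  have h4 : (0 : ℝ) < 2 * j + 1 := by linarith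
  unfold cj Mk
  field_simp
  ring

theorem Lam_le_of_RB (hp : p = 1 / a) (h0 : 1 / 2 < a) (h1 : a < 1) {j : ℕ} {q : ℝ}
    (h : RB a c j q) (hj : j < n) :
    Lam n p a (bs n a c) (j + 1) ≤ q * lam n p a (bs n a c) j := by
  have hp2 : 0 < 2 - p := by
    rw [hp, sub_pos, div_lt_iff₀ (by linarith)]; linarith
  have e : Lam n p a (bs n a c) (j + 1) =
      (2 - p) * ∑ i ∈ Finset.Ico (j + 1) n, Tl a c i * Mk a i := by
    unfold Lam
    rw [Finset.mul_sum]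
    exact Finset.sum_congr rfl fun i hi => lam_bs h0 h1 (Finset.mem_Ico.1 hi).2
  rw [e, lam_bs h0 h1 hj]
  have h2 := mul_le_mul_of_nonneg_left (h n) hp2.le
  linarith

/-- **`Tail1` from the data** `h_1, …, h_K` (then constant), `q_1, …, q_K` (then constant) -/
theorem tail1_of_data {Ym : ℝ} {K : ℕ} (hn : 1 ≤ n) (hp : p = 1 / a) (h0 : 1 / 2 < a)
    (h1 : a < 1) (hc : 0 < c) (hK : 1 ≤ K) (h q : ℕ → ℝ)
    (hrb : ∀ j, 1 ≤ j → j < K → RB a c j (q j))
    (hrbK : ∀ j, K ≤ j → RB a c j (q K))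
    (hst : ∀ j, 1 ≤ j → j < K → StepOK (h j) (h (j + 1)) (q j) (cj a j) Ym)
    (hYm : 0 ≤ Ym) (hhK : h K * Ym < 1) (hstar : Star (h K) (q K) (cj a K) Ym) :
    Tail1 n p a (bs n a c) Ym (fun Y => Lam n p a (bs n a c) 1 / (1 - h 1 * Y)) := by
  have ha : 0 < a := by linarith
  have hb : ∀ j, 0 ≤ bs n a c j := fun j => bs_nonneg ha h1 hc n j
  have hbn : 0 < bs n a c n := by
    unfold bs
    rw [if_neg (lt_irrefl n), if_pos rfl]
    exact Tl_pos ha h1 hc _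
  set k : ℕ := min K n with hk
  have hkK : k ≤ K := min_le_left _ _
  have hkn : k ≤ n := min_le_right _ _
  have hk1 : 1 ≤ k := le_min hK hn
  have hhk : h k * Ym < 1 := by
    rcases Nat.lt_or_ge k K with hlt | hge
    · exact (hst k hk1 hlt).2.2.1
    · rw [le_antisymm hkK hge]; exact hhK
  refine ⟨k, h k, q K, fun j Y => Lam n p a (bs n a c) j / (1 - h (min j k) * Y), hk1, hkn, hhk,
    ?_, ?_, ?_, ?_, ?_, ?_⟩
  · intro j hj hjn
    have hKj : K ≤ j := by omega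
    exact Lam_le_of_RB hp h0 h1 (hrbK j hKj) hjn
  · intro hlt
    have : k = K := by omega
    rw [this]; exact hstar
  · intro j hj Y
    show Lam n p a (bs n a c) j / (1 - h (min j k) * Y) = Lam n p a (bs n a c) j / (1 - h k * Y)
    rw [min_eq_right hj]
  · intro Y
    show Lam n p a (bs n a c) 1 / (1 - h (min 1 k) * Y) = Lam n p a (bs n a c) 1 / (1 - h 1 * Y)
    rw [min_eq_left hk1]
  all_goals
    intro j hj1 hjk Y hY
    have hjK : j < K := by omega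
    have hjn : j < n := by omega
    have hmj : min j k = j := by omega
    have hmj1 : min (j + 1) k = j + 1 := by omega
    have hc1 := one_le_cj h0.le h1 j
    have hl := lam_pos hp h0 h1 hb hbn hjn
    have hL := Lam_nonneg hp h0 h1 hb hbn (j + 1)
    have hw := wj_pos hp h0 hb hbn hjn
    have hle := Lam_le_of_RB (n := n) hp h0 h1 (hrb j hj1 hjK) hjn

    obtain ⟨qj, hqj⟩ : ∃ x, x = Lam n p a (bs n a c) (j + 1) / lam n p a (bs n a c) j :=
      ⟨_, rfl⟩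
    have hqj0 : 0 ≤ qj := by rw [hqj]; exact div_nonneg hL hl.le
    have hqjq : qj ≤ q j := by rw [hqj, div_le_iff₀ hl]; exact hle
    have hLq : Lam n p a (bs n a c) (j + 1) =
        qj * (wj n p (bs n a c) j * ((1 + cj a j) ^ 2 / cj a j)) := by
      rw [hqj]
      unfold lam at hl ⊢
      rw [div_mul_cancel₀ _ hl.ne']
    obtain ⟨s1, s2, s3, s4, s5⟩ := (hst j hj1 hjK).mono (by linarith) hqj0 hqjq
    have key : 0 < 1 - cj a j * Y - Y * (qj * (wj n p (bs n a c) j *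
          ((1 + cj a j) ^ 2 / cj a j)) / (1 - h (j + 1) * Y)) / wj n p (bs n a c) j ∧
        Y * kst (wj n p (bs n a c) j) (cj a j) Y (qj * (wj n p (bs n a c) j *
          ((1 + cj a j) ^ 2 / cj a j)) / (1 - h (j + 1) * Y)) ≤
          Y * ((1 + qj) * (wj n p (bs n a c) j * ((1 + cj a j) ^ 2 / cj a j)) /
            (1 - h j * Y)) := by

      exact tail_step hw hc1 hqj0 s1 s2 hYm s3 s4 s5 hY.1 hY.2

    simp only [hmj, hmj1]
    rw [hLq]
    first
      | exact key.1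
      | (refine key.2.trans_eq ?_
         rw [Lam_step hjn, hLq]
         unfold lam
         ring)


/-- the conditions of one level, denominators cleared; `Ym = P / R` -/
structure Row (a P R j r g g' q q' h h' : ℝ) : Prop where
  rG : 0 ≤ g * (j + 2 - a) - ((1 + r) * (j + 2 - a) + r * (j + 1 + a) * g')
  rq : 0 ≤ q
  rQ : 0 ≤ q * (2 * j + 1) * (j + 2 - a) * (r * (j + 1 + a) * g' + (1 + r) * (j + 2 - a)) -
    g' * (2 * j + 3) * (1 + q') * ((j + 1 - a) * (j + a)) * r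
  r1 : 0 ≤ h * ((j + 1 - a) * (j + a)) - ((j + a) ^ 2 + (2 * j + 1) ^ 2 * q)
  r3 : 0 ≤ R - h * P - 1
  r5 : 0 ≤ (h * (j + 1 - a) - (j + a)) * (j + a) * (R - h' * P) * (1 + q) -
    ((2 * j + 1) ^ 2 * q * (1 + q) * R +
      q * (j + 1 - a) * (h' * (j + a) - (j + 1 - a)) * (R - h * P))

/-- the conditions of the last level `K = 6` -/
structure Top6 (a c P R g q h : ℝ) : Prop where
  t1 : 0 ≤ g - 1
  tG : 0 ≤ g * (7 * (7 - a) - c * 4) - 7 * (7 - a)
  tq : 0 ≤ q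
  tQ : 0 ≤ 24 * q * (8 - a) - c * (7 + a) * (1 + q)
  th : 0 ≤ h
  t3 : 0 ≤ R - h * P - 1
  t5 : 0 ≤ (R - h * P) * (h * ((7 - a) * (6 + a)) - (6 + a) ^ 2 * (1 + q) + q * (7 - a) ^ 2) -
    169 * q * (1 + q) * R

theorem stepOK_of {a P R r g g' q q' h h' : ℝ} (j : ℕ) (ha0 : 0 < a) (ha1 : a < 1) (hR : 0 < R)
    (hrow : Row a P R j r g g' q q' h h') (h'0 : 0 ≤ h') (h3' : 0 ≤ R - h' * P - 1) :
    StepOK h h' q (cj a j) (P / R) := by
  obtain ⟨-, -, -, s1, s3, s5⟩ := hrow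
  have hj : (0 : ℝ) ≤ j := Nat.cast_nonneg j
  have hu : (0 : ℝ) < j + 1 - a := by linarith
  have hv : (0 : ℝ) < j + a := by linarith
  set u : ℝ := j + 1 - a with hu'
  set v : ℝ := j + a with hv'
  have h2 : (2 * (j : ℝ) + 1) = u + v := by rw [hu', hv']; ring
  rw [h2] at s1 s5
  unfold StepOK cj
  rw [← hu', ← hv']
  have eM : (1 + v / u) ^ 2 / (v / u) = (u + v) ^ 2 / (u * v) := by
    field_simp
  have hyp : ∀ x : ℝ, 0 ≤ R - x * P - 1 → x * (P / R) < 1 := by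
    intro x hx
    rw [mul_div_assoc', div_lt_one hR]; linarith
  refine ⟨?_, h'0, hyp h s3, hyp h' h3', ?_⟩
  · rw [eM]
    have : v / u + (u + v) ^ 2 / (u * v) * q = (v ^ 2 + (u + v) ^ 2 * q) / (u * v) := by
      field_simp
    rw [this, div_le_iff₀ (by positivity)]
    linarith
  · rw [eM]
    have e1 : (u + v) ^ 2 / (u * v) * q * (1 + q) + q * (h' - 1 / (v / u)) * (1 - h * (P / R)) =
        ((u + v) ^ 2 * q * (1 + q) * R + q * u * (h' * v - u) * (R - h * P)) / (u * v * R) := by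
      field_simp
    have e2 : (h - v / u) * (1 - h' * (P / R)) * (1 + q) =
        ((h * u - v) * v * (R - h' * P) * (1 + q)) / (u * v * R) := by
      field_simp
    rw [e1, e2]
    exact div_le_div_of_nonneg_right (by linarith) (by positivity)

theorem star_of {a c P R g q h : ℝ} (ha0 : 0 < a) (ha1 : a < 1) (hR : 0 < R)
    (ht : Top6 a c P R g q h) : Tail35.Star h q (cj a 6) (P / R) := by
  have s5 := ht.t5
  have hu : (0 : ℝ) < 7 - a := by linarith
  have hv : (0 : ℝ) < 6 + a := by linarith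
  unfold Tail35.Star cj
  have e0 : (((6 : ℕ) : ℝ) + a) / (((6 : ℕ) : ℝ) + 1 - a) = (6 + a) / (7 - a) := by
    norm_num
  rw [e0]
  set u : ℝ := 7 - a with hu'
  set v : ℝ := 6 + a with hv'
  have h13 : (169 : ℝ) = (u + v) ^ 2 := by rw [hu', hv']; ring
  rw [h13] at s5
  have e1 : (1 + v / u) ^ 2 / (v / u) * q * (1 + q) =
      ((u + v) ^ 2 * q * (1 + q) * R) / (u * v * R) := by
    field_simp
  have e2 : (1 - h * (P / R)) * (h - v / u * (1 + q) + q / (v / u)) =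
      ((R - h * P) * (h * (u * v) - v ^ 2 * (1 + q) + q * u ^ 2)) / (u * v * R) := by
    field_simp
  rw [e1, e2]
  exact div_le_div_of_nonneg_right (by linarith) (by positivity)

/-- **`Tail1` from five rows and the last level** -/
theorem tail1_six {P R : ℝ} (hn : 1 ≤ n) (hp : p = 1 / a) (h0 : 1 / 2 < a)
    (h1 : a < 1) (hc : 0 < c) (hP : 0 ≤ P) (hR : 0 < R)
    {r1 r2 r3 r4 r5 g1 g2 g3 g4 g5 g6 q1 q2 q3 q4 q5 q6 h1' h2 h3 h4 h5 h6 : ℝ}
    (p1 : psi 2 c ≤ r1 * psi 1 c) (p2 : psi 3 c ≤ r2 * psi 2 c) (p3 : psi 4 c ≤ r3 * psi 3 c)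
    (p4 : psi 5 c ≤ r4 * psi 4 c) (p5 : psi 6 c ≤ r5 * psi 5 c)
    (w1 : Row a P R 1 r1 g1 g2 q1 q2 h1' h2) (w2 : Row a P R 2 r2 g2 g3 q2 q3 h2 h3)
    (w3 : Row a P R 3 r3 g3 g4 q3 q4 h3 h4) (w4 : Row a P R 4 r4 g4 g5 q4 q5 h4 h5)
    (w5 : Row a P R 5 r5 g5 g6 q5 q6 h5 h6) (t : Top6 a c P R g6 q6 h6) :
    Tail1 n p a (bs n a c) (P / R)
      (fun Y => Lam n p a (bs n a c) 1 / (1 - h1' * Y)) := by
  have ha : 0 < a := by linarith
  have hrpos : ∀ (m : ℕ) (r : ℝ), psi (m + 2) c ≤ r * psi (m + 1) c → 0 < r := by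
    intro m r hr
    have e1 := psi_pos (m + 2) hc
    have e2 := psi_pos (m + 1) hc
    by_contra hcon
    push Not at hcon
    nlinarith
  have r1p := hrpos 0 r1 p1
  have r2p := hrpos 1 r2 p2
  have r3p := hrpos 2 r3 p3
  have r4p := hrpos 3 r4 p4
  have r5p := hrpos 4 r5 p5
  -- level 6
  have G6 : GB a c 5 g6 := by
    refine Tl_le ha h1 hc 5 (by linarith [t.t1]) ?_
    have := t.tG
    push_cast
    linarith
  have g6p : 0 < g6 := by linarith [t.t1]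
  have U6 : ∀ j, 6 ≤ j → RB a c j q6 := by
    have hu : (0 : ℝ) < 8 - a := by linarith
    refine RB.unif (ρ := c * (7 + a) / (24 * (8 - a))) h0.le h1 hc (by norm_num) ?_
      (by positivity) t.tq ?_
    · apply le_of_eq
      push_cast
      rw [show (4 * 6 : ℝ) = 24 by norm_num, show (6 + 1 + a : ℝ) = 7 + a by ring,
        show (6 + 2 - a : ℝ) = 8 - a by ring]
      field_simp
    · rw [div_mul_eq_mul_div, div_le_iff₀ (by positivity)]
      linarith [t.tQ]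
  have R6 : RB a c 6 q6 := U6 6 le_rfl
  -- the generic step
  have stepG : ∀ (m : ℕ) (r g g' q q' x x' : ℝ), psi (m + 2) c ≤ r * psi (m + 1) c → 0 < r →
      Row a P R (m + 1) r g g' q q' x x' → 0 < g' → GB a c (m + 1) g' →
      GB a c m g ∧ 0 < g := by
    intro m r g g' q q' x x' hr hr0 hrow hg' hG
    have hm : (0 : ℝ) ≤ m := Nat.cast_nonneg m
    have hG1 := hrow.rG
    have hu : (0 : ℝ) < m + 3 - a := by linarith
    constructor
    · refine GB.step ha h1 hc hG hr hg'.le ?_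
      linarith
    · have h3 : 0 < (1 + r) * ((m : ℝ) + 1 + 2 - a) + r * (m + 1 + 1 + a) * g' := by
        have : 0 < (m : ℝ) + 1 + 2 - a := by linarith
        positivity
      by_contra hcon
      push Not at hcon
      have h4 : g * ((m : ℝ) + 1 + 2 - a) ≤ 0 :=
        mul_nonpos_of_nonpos_of_nonneg hcon (by linarith)
      linarith
  have stepQ : ∀ (m : ℕ) (r g g' q q' x x' : ℝ), psi (m + 2) c ≤ r * psi (m + 1) c → 0 < r →
      Row a P R (m + 1) r g g' q q' x x' → 0 < g' → GB a c (m + 1) g' → 0 ≤ q' →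
      RB a c (m + 2) q' → RB a c (m + 1) q := by
    intro m r g g' q q' x x' hr hr0 hrow hg' hG hq' hR'
    refine RB.gstep ha h1 hc hR' hG hr hr0 hg' hq' hrow.rq ?_
    have := hrow.rQ
    have e : q * (2 * ((m : ℝ) + 1) + 1) * ((m : ℝ) + 1 + 2 - a) *
        (r * ((m : ℝ) + 1 + 1 + a) * g' + (1 + r) * ((m : ℝ) + 1 + 2 - a)) -
        g' * (2 * ((m : ℝ) + 1) + 3) * (1 + q') * (((m : ℝ) + 1 + 1 - a) * ((m : ℝ) + 1 + a)) * r
        = q * (2 * m + 3) * (m + 3 - a) * (r * (m + 2 + a) * g' + (1 + r) * (m + 3 - a)) -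
        g' * (2 * m + 5) * (1 + q') * ((m + 2 - a) * (m + 1 + a)) * r := by ring
    rw [e] at this
    linarith
  have w5' : Row a P R ((4 : ℕ) + 1) r5 g5 g6 q5 q6 h5 h6 := by norm_num; exact w5
  have w4' : Row a P R ((3 : ℕ) + 1) r4 g4 g5 q4 q5 h4 h5 := by norm_num; exact w4
  have w3' : Row a P R ((2 : ℕ) + 1) r3 g3 g4 q3 q4 h3 h4 := by norm_num; exact w3
  have w2' : Row a P R ((1 : ℕ) + 1) r2 g2 g3 q2 q3 h2 h3 := by norm_num; exact w2
  have w1' : Row a P R ((0 : ℕ) + 1) r1 g1 g2 q1 q2 h1' h2 := by norm_num; exact w1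
  obtain ⟨G5, g5p⟩ := stepG 4 _ _ _ _ _ _ _ p5 r5p w5' g6p G6
  obtain ⟨G4, g4p⟩ := stepG 3 _ _ _ _ _ _ _ p4 r4p w4' g5p G5
  obtain ⟨G3, g3p⟩ := stepG 2 _ _ _ _ _ _ _ p3 r3p w3' g4p G4
  obtain ⟨G2, g2p⟩ := stepG 1 _ _ _ _ _ _ _ p2 r2p w2' g3p G3
  have R5 : RB a c 5 q5 := stepQ 4 _ _ _ _ _ _ _ p5 r5p w5' g6p G6 t.tq R6
  have R4 : RB a c 4 q4 := stepQ 3 _ _ _ _ _ _ _ p4 r4p w4' g5p G5 w5.rq R5
  have R3 : RB a c 3 q3 := stepQ 2 _ _ _ _ _ _ _ p3 r3p w3' g4p G4 w4.rq R4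
  have R2 : RB a c 2 q2 := stepQ 1 _ _ _ _ _ _ _ p2 r2p w2' g3p G3 w3.rq R3
  have R1 : RB a c 1 q1 := stepQ 0 _ _ _ _ _ _ _ p1 r1p w1' g2p G2 w2.rq R2
  -- the poles are nonnegative
  have hnn : ∀ (j : ℕ) (r g g' q q' x x' : ℝ), Row a P R j r g g' q q' x x' → 0 ≤ x := by
    intro j r g g' q q' x x' hrow
    have hj : (0 : ℝ) ≤ j := Nat.cast_nonneg j
    have e1 := hrow.r1
    have e2 := hrow.rq
    have hu : (0 : ℝ) < j + 1 - a := by linarith
    have hv : (0 : ℝ) < j + a := by linarith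
    have h3 : 0 ≤ ((j : ℝ) + a) ^ 2 + (2 * j + 1) ^ 2 * q := by positivity
    by_contra hcon
    push Not at hcon
    have h4 : x * (((j : ℝ) + 1 - a) * (j + a)) < 0 := mul_neg_of_neg_of_pos hcon (by positivity)
    have h5 : 0 < ((j : ℝ) + a) ^ 2 := by positivity
    linarith
  have w1n : Row a P R ((1 : ℕ) : ℝ) r1 g1 g2 q1 q2 h1' h2 := by norm_num; exact w1
  have w2n : Row a P R ((2 : ℕ) : ℝ) r2 g2 g3 q2 q3 h2 h3 := by norm_num; exact w2
  have w3n : Row a P R ((3 : ℕ) : ℝ) r3 g3 g4 q3 q4 h3 h4 := by norm_num; exact w3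
  have w4n : Row a P R ((4 : ℕ) : ℝ) r4 g4 g5 q4 q5 h4 h5 := by norm_num; exact w4
  have w5n : Row a P R ((5 : ℕ) : ℝ) r5 g5 g6 q5 q6 h5 h6 := by norm_num; exact w5
  have n2 := hnn 2 _ _ _ _ _ _ _ w2n
  have n3 := hnn 3 _ _ _ _ _ _ _ w3n
  have n4 := hnn 4 _ _ _ _ _ _ _ w4n
  have n5 := hnn 5 _ _ _ _ _ _ _ w5n
  set hf : ℕ → ℝ := fun j => if j = 1 then h1' else if j = 2 then h2 else if j = 3 then h3
    else if j = 4 then h4 else if j = 5 then h5 else h6 with hhf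
  set qf : ℕ → ℝ := fun j => if j = 1 then q1 else if j = 2 then q2 else if j = 3 then q3
    else if j = 4 then q4 else if j = 5 then q5 else q6 with hqf
  have e1 : hf 1 = h1' := rfl
  have e2 : hf 2 = h2 := rfl
  have e3 : hf 3 = h3 := rfl
  have e4 : hf 4 = h4 := rfl
  have e5 : hf 5 = h5 := rfl
  have e6 : hf 6 = h6 := rfl
  have d1 : qf 1 = q1 := rfl
  have d2 : qf 2 = q2 := rfl
  have d3 : qf 3 = q3 := rfl
  have d4 : qf 4 = q4 := rfl
  have d5 : qf 5 = q5 := rfl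
  have d6 : qf 6 = q6 := rfl
  have key := tail1_of_data (n := n) (p := p) (a := a) (c := c) (Ym := P / R) (K := 6) hn hp h0
    h1 hc (by norm_num) hf qf ?_ ?_ ?_ (by positivity) ?_ ?_
  · rw [e1] at key
    exact key
  · intro j hj1 hj6
    interval_cases j
    · rw [d1]; exact R1
    · rw [d2]; exact R2
    · rw [d3]; exact R3
    · rw [d4]; exact R4
    · rw [d5]; exact R5
  · intro j hj
    rw [d6]
    exact U6 j hj
  · intro j hj1 hj6
    interval_cases j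
    · rw [e1, d1]; exact stepOK_of 1 ha h1 hR w1n n2 w2.r3
    · rw [e2, d2]; exact stepOK_of 2 ha h1 hR w2n n3 w3.r3
    · rw [e3, d3]; exact stepOK_of 3 ha h1 hR w3n n4 w4.r3
    · rw [e4, d4]; exact stepOK_of 4 ha h1 hR w4n n5 w5.r3
    · rw [e5, d5]; exact stepOK_of 5 ha h1 hR w5n t.th t.t3
  · rw [e6, mul_div_assoc', div_lt_one hR]
    linarith [t.t3]
  · rw [e6, d6]
    exact star_of ha h1 hR t

end Pool.Agent.Lib.QNL.Num93
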