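import Pool.Agent.Lib.QNL.Enc73

/-!
# The numbers of the exponential weights for every parameter `c`

* `hasDerivAt_GT`: `(w^(-a) T_j(w))' = (j+a) C_j w^(-a-1) ψ_j(w)`;
* `tail_le`: `(j+1-a) ∑_(j<i<n) T_i M_i ≤ (j+2)/(2(j+1)) (c/e) T_j`;
* `lam_le`: `∑_(1≤i<n) T_i M_i ≤ (K_9(3) + log (c/3)) T_0` for `c ≥ 3`;
* `le_Tl_zero`: `T_0 ≥ a/(1-a) c (1 - (1-a) (K_9(3) + log (c/3)))` for `c ≥ 3`.
-/

set_option autoImplicit false

namespace Pool.Agent.Lib.QNL.Nums14

open MeasureTheory Set Filter Topology Finset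
open scoped Nat
open Pool.Agent.Lib.QNL.Wts73 Pool.Agent.Lib.QNL.Enc

/-! ### comparison lemmas -/

theorem comp_at {f g f' g' : ℝ → ℝ} {x₀ x : ℝ} (hx : x₀ ≤ x)
    (hf : ∀ v, x₀ ≤ v → v ≤ x → HasDerivAt f (f' v) v)
    (hg : ∀ v, x₀ ≤ v → v ≤ x → HasDerivAt g (g' v) v)
    (hle : ∀ v, x₀ < v → v < x → f' v ≤ g' v) (h0 : f x₀ ≤ g x₀) : f x ≤ g x := by
  have hd : ∀ v, x₀ ≤ v → v ≤ x → HasDerivAt (fun v => g v - f v) (g' v - f' v) v :=
    fun v h1 h2 => (hg v h1 h2).fun_sub (hf v h1 h2)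
  have hmono : MonotoneOn (fun v => g v - f v) (Icc x₀ x) := by
    refine monotoneOn_of_deriv_nonneg (convex_Icc x₀ x) ?_ ?_ ?_
    · exact fun v hv => (hd v hv.1 hv.2).continuousAt.continuousWithinAt
    · exact fun v hv => (hd v (interior_subset hv).1
        (interior_subset hv).2).differentiableAt.differentiableWithinAt
    · intro v hv
      rw [interior_Icc] at hv
      rw [(hd v hv.1.le hv.2.le).deriv]
      linarith [hle v hv.1 hv.2]
  have h := hmono (left_mem_Icc.2 hx) (right_mem_Icc.2 hx) hx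
  simp only at h
  linarith

theorem comp0 {f g f' g' : ℝ → ℝ} {x : ℝ} (hx : 0 < x)
    (hf : ∀ v, 0 < v → v ≤ x → HasDerivAt f (f' v) v)
    (hg : ∀ v, 0 < v → v ≤ x → HasDerivAt g (g' v) v)
    (hle : ∀ v, 0 < v → v < x → f' v ≤ g' v)
    (hlim : Tendsto (fun v => g v - f v) (𝓝[>] 0) (𝓝 0)) : f x ≤ g x := by
  have hd : ∀ v, 0 < v → v ≤ x → HasDerivAt (fun v => g v - f v) (g' v - f' v) v :=
    fun v h1 h2 => (hg v h1 h2).fun_sub (hf v h1 h2)
  have hmono : MonotoneOn (fun v => g v - f v) (Ioc 0 x) := by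
    refine monotoneOn_of_deriv_nonneg (convex_Ioc 0 x) ?_ ?_ ?_
    · exact fun v hv => (hd v hv.1 hv.2).continuousAt.continuousWithinAt
    · exact fun v hv => (hd v (interior_subset hv).1
        (interior_subset hv).2).differentiableAt.differentiableWithinAt
    · intro v hv
      rw [interior_Ioc] at hv
      rw [(hd v hv.1 hv.2.le).deriv]
      linarith [hle v hv.1 hv.2]
  have h : 0 ≤ g x - f x := by
    refine le_of_tendsto hlim ?_
    filter_upwards [Ioc_mem_nhdsGT hx] with v hv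
    exact hmono hv ⟨hx, le_rfl⟩ hv.2
  linarith

/-! ### the mean of `v` -/

theorem JJ_zero_mean (α β : ℕ) :
    ((α : ℝ) + β + 2) * JJ (α + 1) β 0 = (α + 1) * JJ α β 0 := by
  have h1 := JJ_parts α β 0
  have h2 := JJ_add α β 0
  rw [zero_mul] at h1
  rw [h2]
  linear_combination h1

theorem JJ_mean (α β : ℕ) {w : ℝ} (hw : 0 ≤ w) :
    ((α : ℝ) + β + 2) * JJ (α + 1) β w ≤ (α + 1) * JJ α β w := by
  have hp : (0 : ℝ) < (α : ℝ) + β + 2 := by positivity
  set m : ℝ := (α + 1) / (α + β + 2) with hm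
  have hint : ∀ (α β : ℕ) (w : ℝ), IntervalIntegrable
      (fun v : ℝ => v ^ α * (1 - v) ^ β * Real.exp (-(w * v))) volume 0 1 := fun α β w =>
    (cont_JJ α β w).intervalIntegrable _ _
  have e : ∀ w : ℝ, m * JJ α β w - JJ (α + 1) β w =
      ∫ v in (0 : ℝ)..1, v ^ α * (1 - v) ^ β * Real.exp (-(w * v)) * (m - v) := by
    intro w
    unfold JJ
    rw [← intervalIntegral.integral_const_mul, ← intervalIntegral.integral_sub
      ((hint _ _ _).const_mul m) (hint _ _ _)]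
    refine intervalIntegral.integral_congr fun v _ => ?_
    ring
  have h0 : m * JJ α β 0 - JJ (α + 1) β 0 = 0 := by
    have := JJ_zero_mean α β
    rw [hm, sub_eq_zero, div_mul_eq_mul_div, div_eq_iff hp.ne']
    linarith
  have h1 : 0 ≤ m * JJ α β w - JJ (α + 1) β w := by
    have h2 : Real.exp (-(w * m)) * (m * JJ α β 0 - JJ (α + 1) β 0) ≤
        m * JJ α β w - JJ (α + 1) β w := by
      rw [e w, e 0, ← intervalIntegral.integral_const_mul]
      refine intervalIntegral.integral_mono_on zero_le_one ?_ ?_ ?_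
      · exact Continuous.intervalIntegrable (by fun_prop) _ _
      · exact Continuous.intervalIntegrable (by fun_prop) _ _
      · intro v hv
        have hv0 : 0 ≤ v := hv.1
        have hv1 : 0 ≤ 1 - v := sub_nonneg.2 hv.2
        have h3 : 0 ≤ (Real.exp (-(w * v)) - Real.exp (-(w * m))) * (m - v) := by
          rcases le_total v m with h | h
          · apply mul_nonneg
            · rw [sub_nonneg, Real.exp_le_exp]
              nlinarith
            · linarith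
          · apply mul_nonneg_of_nonpos_of_nonpos
            · rw [sub_nonpos, Real.exp_le_exp]
              nlinarith
            · linarith
        have h4 : 0 ≤ v ^ α * (1 - v) ^ β := by positivity
        have h5 := mul_nonneg h4 h3
        rw [zero_mul, neg_zero, Real.exp_zero]
        linarith
    rw [h0, mul_zero] at h2
    exact h2
  have h6 : JJ (α + 1) β w ≤ m * JJ α β w := by linarith
  rw [hm, div_mul_eq_mul_div, le_div_iff₀ hp] at h6
  linarith

/-- `X_j ≤ (j+2)/(2(j+1)) w ψ_j` -/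
theorem XX_le (j : ℕ) {w : ℝ} (hw : 0 ≤ w) :
    2 * ((j : ℝ) + 1) * XX j w ≤ (j + 2) * (w * psi j w) := by
  cases j with
  | zero =>
    rw [XX_zero]
    simp only [psi, Nat.cast_zero]
    exact le_of_eq (by ring)
  | succ k =>
    rw [XX_succ]
    simp only [psi]
    have h1 := JJ_mean (k + 2) k hw
    have h2 : (0 : ℝ) ≤ w ^ (k + 3) / k ! := by positivity
    have h3 := mul_le_mul_of_nonneg_left h1 h2
    push_cast at h3 ⊢
    have e1 : 2 * ((k : ℝ) + 1 + 1) * (w ^ (k + 3) / k ! * JJ (k + 3) k w) =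
        w ^ (k + 3) / k ! * ((k + 2 + k + 2) * JJ (k + 2 + 1) k w) := by
      rw [show k + 2 + 1 = k + 3 from rfl]; ring
    have e2 : ((k : ℝ) + 1 + 2) * (w * (w ^ (k + 2) / k ! * JJ (k + 2) k w)) =
        w ^ (k + 3) / k ! * ((k + 2 + 1) * JJ (k + 2) k w) := by ring
    rw [e1, e2]
    exact h3

/-! ### the tails -/

/-- `G_j(w) = w^(-a) T_j(w)` -/
noncomputable def GT (a : ℝ) (j : ℕ) (w : ℝ) : ℝ :=
  RR a (j + 1) w + CC a (j + 1) * (w ^ (-a) * psi j w)

theorem Tl_eq_GT {a w : ℝ} (hw : 0 < w) (j : ℕ) : Tl a w j = w ^ a * GT a j w := by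
  rw [Tl_eq, zz_sub_sn hw]
  unfold GT
  have h : w ^ a * w ^ (-a) = 1 := by rw [← Real.rpow_add hw, add_neg_cancel, Real.rpow_zero]
  linear_combination (-(CC a (j + 1) * psi j w)) * h

theorem CC_succ_mul {a : ℝ} (ha1 : a < 1) (j : ℕ) :
    CC a (j + 1) * ((j : ℝ) + 1 - a) = (j + a) * CC a j := by
  have h1 : ((j : ℝ) + 1 - a) ≠ 0 := by
    have : (0 : ℝ) ≤ j := Nat.cast_nonneg j
    have : 0 < (j : ℝ) + 1 - a := by linarith
    exact this.ne'
  simp only [CC]
  field_simp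

theorem rpow_neg_eq {a w : ℝ} (hw : 0 < w) : w ^ (-a) = w ^ (-a - 1) * w := by
  rw [show (-a : ℝ) = (-a - 1) + 1 by ring, Real.rpow_add hw, Real.rpow_one]
  ring_nf

theorem hasDerivAt_GT {a w : ℝ} (ha1 : a < 1) (hw : 0 < w) (j : ℕ) :
    HasDerivAt (GT a j) (((j : ℝ) + a) * CC a j * (w ^ (-a - 1) * psi j w)) w := by
  have h1 := hasDerivAt_RR ha1 hw j
  have h2 : HasDerivAt (fun w : ℝ => w ^ (-a)) (-a * w ^ (-a - 1)) w :=
    Real.hasDerivAt_rpow_const (Or.inl hw.ne')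
  have h3 := h1.add ((h2.mul (hasDerivAt_psi j w)).const_mul (CC a (j + 1)))
  refine h3.congr_deriv ?_
  rw [← CC_succ_mul ha1 j, rpow_neg_eq hw]
  unfold XX
  ring

theorem tendsto_GT {a : ℝ} (ha1 : a < 1) (j : ℕ) : Tendsto (GT a j) (𝓝[>] 0) (𝓝 0) := by
  have h := (tendsto_RR ha1 (j + 1)).add ((tendsto_psi ha1 j).const_mul (CC a (j + 1)))
  rw [mul_zero, add_zero] at h
  exact h

theorem GT_pos {a w : ℝ} (ha0 : 0 < a) (ha1 : a < 1) (hw : 0 < w) (j : ℕ) : 0 < GT a j w := by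
  have h1 := Tl_pos ha0 ha1 hw j
  rw [Tl_eq_GT hw] at h1
  exact (pos_iff_pos_of_mul_pos h1).1 (Real.rpow_pos_of_pos hw a)

/-- `M_j` -/
noncomputable def Mj (a : ℝ) (j : ℕ) : ℝ :=
  (2 * (j : ℝ) + 1) / (((j : ℝ) + a) * ((j : ℝ) + 1 - a))

theorem Mj_mul {a : ℝ} (ha0 : 0 < a) (ha1 : a < 1) (j : ℕ) :
    Mj a j * (((j : ℝ) + a) * CC a j) = CC a j + CC a (j + 1) := by
  have hj : (0 : ℝ) ≤ j := Nat.cast_nonneg j
  have h1 : (0 : ℝ) < j + a := by positivity
  have h2 : (0 : ℝ) < (j : ℝ) + 1 - a := by linarith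
  rw [CC_add ha1]
  unfold Mj
  field_simp

/-- `∑_(j<i<n) M_i G_i` -/
noncomputable def SL (a : ℝ) (n j : ℕ) (w : ℝ) : ℝ :=
  ∑ i ∈ Finset.Ico (j + 1) n, Mj a i * GT a i w

theorem hasDerivAt_SL {a w : ℝ} (ha0 : 0 < a) (ha1 : a < 1) (hw : 0 < w) {n j : ℕ}
    (hj : j < n) :
    HasDerivAt (SL a n j) (w ^ (-a - 1) * (sn a n w - sn a (j + 1) w)) w := by
  have h1 : ∀ i ∈ Finset.Ico (j + 1) n, HasDerivAt (fun w => Mj a i * GT a i w)
      (Mj a i * (((i : ℝ) + a) * CC a i * (w ^ (-a - 1) * psi i w))) w := fun i _ =>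
    (hasDerivAt_GT ha1 hw i).const_mul _
  refine (HasDerivAt.fun_sum h1).congr_deriv ?_
  have e : sn a n w - sn a (j + 1) w =
      ∑ i ∈ Finset.Ico (j + 1) n, (CC a i + CC a (i + 1)) * psi i w := by
    unfold sn
    rw [Finset.sum_Ico_eq_sub _ (by omega : j + 1 ≤ n)]
  rw [e, Finset.mul_sum]
  refine Finset.sum_congr rfl fun i _ => ?_
  rw [← Mj_mul ha0 ha1 i]
  ring

theorem sn_le {a w : ℝ} (ha0 : 0 < a) (ha1 : a < 1) (hw : 0 < w) {n j : ℕ} (hj : j < n) :
    w ^ (-a - 1) * (sn a n w - sn a (j + 1) w) ≤ RR a (j + 1) w / w := by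
  obtain ⟨k, rfl⟩ : ∃ k, n = k + 1 := ⟨n - 1, by omega⟩
  have h1 := sn_lt_zz ha0 ha1 hw k
  have h2 := zz_sub_sn (a := a) hw (j + 1)
  have h3 : 0 < w ^ (-a - 1) := Real.rpow_pos_of_pos hw _
  have h4 : w ^ (-a - 1) * (sn a (k + 1) w - sn a (j + 1) w) ≤
      w ^ (-a - 1) * (w ^ a * RR a (j + 1) w) :=
    mul_le_mul_of_nonneg_left (by linarith) h3.le
  have h5 : w ^ (-a - 1) * w ^ a = w⁻¹ := by
    rw [← Real.rpow_add hw, show -a - 1 + a = -1 by ring, Real.rpow_neg_one]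
  calc _ ≤ w ^ (-a - 1) * (w ^ a * RR a (j + 1) w) := h4
    _ = (w ^ (-a - 1) * w ^ a) * RR a (j + 1) w := by ring
    _ = _ := by rw [h5]; ring

theorem tendsto_SL {a : ℝ} (ha1 : a < 1) (n j : ℕ) : Tendsto (SL a n j) (𝓝[>] 0) (𝓝 0) := by
  have h : Tendsto (fun w => ∑ i ∈ Finset.Ico (j + 1) n, Mj a i * GT a i w) (𝓝[>] 0)
      (𝓝 (∑ i ∈ Finset.Ico (j + 1) n, Mj a i * 0)) :=
    tendsto_finsetSum _ fun i _ => (tendsto_GT ha1 i).const_mul _
  simp only [mul_zero, Finset.sum_const_zero] at h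
  exact h

/-! ### the remainder times a logarithm -/

theorem gam_le {a w : ℝ} (ha1 : a < 1) (hw : 0 < w) : gam a w ≤ w ^ (1 - a) / (1 - a) := by
  have h1 : ∫ s in (0 : ℝ)..w, s ^ (-a) = w ^ (1 - a) / (1 - a) := by
    rw [integral_rpow (Or.inl (by linarith))]
    rw [Real.zero_rpow (by linarith), sub_zero, show -a + 1 = 1 - a by ring]
  rw [← h1]
  unfold gam
  refine intervalIntegral.integral_mono_on hw.le (gam_int ha1 0 w)
    (intervalIntegral.intervalIntegrable_rpow' (by linarith)) ?_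
  intro s hs
  have hs0 : 0 ≤ s := hs.1
  have h2 : (1 - s) * Real.exp (-s) ≤ 1 := by
    rcases le_total s 1 with h | h
    · have h3 : Real.exp (-s) ≤ 1 := Real.exp_le_one_iff.2 (by linarith)
      have := mul_le_mul (show 1 - s ≤ 1 by linarith) h3 (Real.exp_pos _).le zero_le_one
      linarith
    · have := mul_nonpos_of_nonpos_of_nonneg (show 1 - s ≤ 0 by linarith)
        (Real.exp_pos (-s)).le
      linarith
  have h3 : 0 ≤ s ^ (-a) := Real.rpow_nonneg hs0 _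
  calc s ^ (-a) * ((1 - s) * Real.exp (-s)) ≤ s ^ (-a) * 1 := mul_le_mul_of_nonneg_left h2 h3
    _ = _ := mul_one _

theorem sn_nonneg {a w : ℝ} (ha0 : 0 < a) (ha1 : a < 1) (hw : 0 < w) (n : ℕ) :
    0 ≤ sn a n w := by
  unfold sn
  refine Finset.sum_nonneg fun i _ => ?_
  have h1 := CC_pos ha0 ha1 i
  have h2 := CC_pos ha0 ha1 (i + 1)
  have h3 := psi_pos i hw
  positivity

theorem tendsto_RR_log {a c : ℝ} (ha0 : 0 < a) (ha1 : a < 1) (hc : 0 < c) (j : ℕ) :
    Tendsto (fun v => RR a (j + 1) v * Real.log (c / v)) (𝓝[>] 0) (𝓝 0) := by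
  have h1a : 0 < 1 - a := by linarith
  have hl : Tendsto (fun v : ℝ => v ^ (1 - a) / (1 - a) * Real.log (c / v)) (𝓝[>] 0) (𝓝 0) := by
    have h1 : Tendsto (fun v : ℝ => Real.log v * v ^ (1 - a)) (𝓝[>] 0) (𝓝 0) :=
      tendsto_log_mul_rpow_nhdsGT_zero h1a
    have h2 : Tendsto (fun v : ℝ => v ^ (1 - a)) (𝓝[>] 0) (𝓝 0) := by
      have : ContinuousAt (fun v : ℝ => v ^ (1 - a)) 0 :=
        Real.continuousAt_rpow_const 0 _ (Or.inr h1a.le)
      have h3 := this.tendsto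
      rw [Real.zero_rpow h1a.ne'] at h3
      exact h3.mono_left nhdsWithin_le_nhds
    have h3 := ((h2.const_mul (Real.log c)).sub h1).div_const (1 - a)
    rw [mul_zero, sub_zero, zero_div] at h3
    refine h3.congr' ?_
    filter_upwards [self_mem_nhdsWithin] with v hv
    have hv0 : 0 < v := hv
    rw [Real.log_div hc.ne' hv0.ne']
    field_simp
  refine tendsto_of_tendsto_of_tendsto_of_le_of_le' tendsto_const_nhds hl ?_ ?_
  · filter_upwards [Ioc_mem_nhdsGT hc] with v hv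
    have h1 := RR_pos ha0 ha1 hv.1 j
    have h2 : 0 ≤ Real.log (c / v) := Real.log_nonneg (by
      rw [le_div_iff₀ hv.1]; linarith [hv.2])
    positivity
  · filter_upwards [Ioc_mem_nhdsGT hc] with v hv
    have h2 : 0 ≤ Real.log (c / v) := Real.log_nonneg (by
      rw [le_div_iff₀ hv.1]; linarith [hv.2])
    refine mul_le_mul_of_nonneg_right ?_ h2
    refine le_trans ?_ (gam_le ha1 hv.1)
    unfold RR
    have h3 := sn_nonneg ha0 ha1 hv.1 (j + 1)
    have h4 : 0 ≤ v ^ (-a) := Real.rpow_nonneg hv.1.le _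
    have := mul_nonneg h4 h3
    linarith

/-- `v log (c/v) ≤ c/e` -/
theorem mul_log_le {c v : ℝ} (hc : 0 < c) (hv : 0 < v) :
    v * Real.log (c / v) ≤ c / Real.exp 1 := by
  have he := Real.exp_pos 1
  have h1 : Real.log (c / v / Real.exp 1) ≤ c / v / Real.exp 1 - 1 :=
    Real.log_le_sub_one_of_pos (by positivity)
  rw [Real.log_div (by positivity) he.ne', Real.log_exp] at h1
  have h2 : Real.log (c / v) ≤ c / v / Real.exp 1 := by linarith
  calc v * Real.log (c / v) ≤ v * (c / v / Real.exp 1) := mul_le_mul_of_nonneg_left h2 hv.le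
    _ = _ := by field_simp

/-- **the tail ratio**, `G`-form -/
theorem SL_le {a c : ℝ} (ha0 : 0 < a) (ha1 : a < 1) (hc : 0 < c) {n j : ℕ} (hj : j < n) :
    ((j : ℝ) + 1 - a) * SL a n j c ≤
      (j + 2) / (2 * (j + 1)) * (c / Real.exp 1) * GT a j c := by
  have hj0 : (0 : ℝ) ≤ j := Nat.cast_nonneg j
  have h1a : 0 < (j : ℝ) + 1 - a := by linarith
  set κ : ℝ := (j + 2) / (2 * (j + 1)) * (c / Real.exp 1) with hκ
  have key := comp0 (x := c) hc
    (f := fun v => ((j : ℝ) + 1 - a) * (SL a n j v + RR a (j + 1) v * Real.log (c / v)))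
    (g := fun v => κ * GT a j v)
    (f' := fun v => ((j : ℝ) + 1 - a) * (v ^ (-a - 1) * (sn a n v - sn a (j + 1) v) +
      (v ^ (-a - 1) * (CC a (j + 1) * XX j v) * Real.log (c / v) +
        RR a (j + 1) v * (-(1 / v)))))
    (g' := fun v => κ * (((j : ℝ) + a) * CC a j * (v ^ (-a - 1) * psi j v))) ?_ ?_ ?_ ?_
  · simp only [div_self hc.ne', Real.log_one, mul_zero, add_zero] at key
    exact key
  · intro v hv _
    have hlog : HasDerivAt (fun v : ℝ => Real.log (c / v)) (-(1 / v)) v := by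
      have h1 : HasDerivAt (fun v : ℝ => Real.log c - Real.log v) (0 - v⁻¹) v :=
        (hasDerivAt_const v (Real.log c)).sub (Real.hasDerivAt_log hv.ne')
      refine (h1.congr_of_eventuallyEq ?_).congr_deriv (by ring)
      filter_upwards [lt_mem_nhds hv] with u hu
      exact Real.log_div hc.ne' (ne_of_gt hu)
    exact ((hasDerivAt_SL ha0 ha1 hv hj).add
      ((hasDerivAt_RR ha1 hv j).mul hlog)).const_mul _
  · intro v hv _
    exact (hasDerivAt_GT ha1 hv j).const_mul κ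
  · intro v hv hvc
    have h1 := sn_le ha0 ha1 hv hj
    have h2 := XX_le j hv.le
    have h3 := mul_log_le hc hv
    have h4 : 0 < v ^ (-a - 1) := Real.rpow_pos_of_pos hv _
    have h5 := CC_pos ha0 ha1 (j + 1)
    have h6 := psi_pos j hv
    have h7 : 0 ≤ Real.log (c / v) := Real.log_nonneg (by
      rw [le_div_iff₀ hv]; linarith)
    rw [← CC_succ_mul ha1 j]
    have h8 : v ^ (-a - 1) * (sn a n v - sn a (j + 1) v) + RR a (j + 1) v * (-(1 / v)) ≤ 0 := by
      have : RR a (j + 1) v * (-(1 / v)) = -(RR a (j + 1) v / v) := by ring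
      linarith
    have h9 : XX j v * Real.log (c / v) ≤ κ * psi j v := by
      have h10 : XX j v ≤ (j + 2) / (2 * (j + 1)) * (v * psi j v) := by
        rw [div_mul_eq_mul_div, le_div_iff₀ (by positivity)]
        linarith
      have h11 := mul_le_mul_of_nonneg_right h10 h7
      refine h11.trans ?_
      have h12 : 0 ≤ ((j : ℝ) + 2) / (2 * (j + 1)) * psi j v := by positivity
      have h13 := mul_le_mul_of_nonneg_left h3 h12
      rw [hκ]
      linarith
    have h14 : 0 ≤ v ^ (-a - 1) * CC a (j + 1) := by positivity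
    have h15 := mul_le_mul_of_nonneg_left h9 h14
    have h16 : v ^ (-a - 1) * (sn a n v - sn a (j + 1) v) +
      (v ^ (-a - 1) * (CC a (j + 1) * XX j v) * Real.log (c / v) +
        RR a (j + 1) v * (-(1 / v))) ≤ v ^ (-a - 1) * CC a (j + 1) * (κ * psi j v) := by
      linarith
    have h17 := mul_le_mul_of_nonneg_left h16 h1a.le
    linarith
  · have h1 := ((tendsto_GT ha1 j).const_mul κ).sub
      (((tendsto_SL ha1 n j).add (tendsto_RR_log ha0 ha1 hc j)).const_mul ((j : ℝ) + 1 - a))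
    simpa using h1

/-- **the tail ratio**: `(j+1-a) ∑_(j<i<n) T_i M_i ≤ (j+2)/(2(j+1)) (c/e) T_j` -/
theorem tail_le {a c : ℝ} (ha0 : 0 < a) (ha1 : a < 1) (hc : 0 < c) {n j : ℕ} (hj : j < n) :
    ((j : ℝ) + 1 - a) * ∑ i ∈ Finset.Ico (j + 1) n, Tl a c i * Mj a i ≤
      (j + 2) / (2 * (j + 1)) * (c / Real.exp 1) * Tl a c j := by
  have h1 := SL_le ha0 ha1 hc hj
  have h2 : 0 < c ^ a := Real.rpow_pos_of_pos hc a
  have h3 := mul_le_mul_of_nonneg_left h1 h2.le
  have e : ∑ i ∈ Finset.Ico (j + 1) n, Tl a c i * Mj a i = c ^ a * SL a n j c := by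
    unfold SL
    rw [Finset.mul_sum]
    refine Finset.sum_congr rfl fun i _ => ?_
    rw [Tl_eq_GT hc]
    ring
  rw [e, Tl_eq_GT hc]
  linarith

/-! ### level `0` -/

/-- `K_9(w) = ∑_(1 ≤ k ≤ 9) (-1)^(k+1) w^k/(k k!)` -/
noncomputable def K9 (w : ℝ) : ℝ :=
  w - w ^ 2 / 4 + w ^ 3 / 18 - w ^ 4 / 96 + w ^ 5 / 600 - w ^ 6 / 4320 + w ^ 7 / 35280 -
    w ^ 8 / 322560 + w ^ 9 / 3265920

/-- its derivative -/
noncomputable def K9' (w : ℝ) : ℝ :=
  1 - w / 2 + w ^ 2 / 6 - w ^ 3 / 24 + w ^ 4 / 120 - w ^ 5 / 720 + w ^ 6 / 5040 -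
    w ^ 7 / 40320 + w ^ 8 / 362880

theorem hasDerivAt_K9 (w : ℝ) : HasDerivAt K9 (K9' w) w := by
  have h : ∀ n : ℕ, HasDerivAt (fun w : ℝ => w ^ n) (n * w ^ (n - 1)) w := fun n =>
    hasDerivAt_pow n w
  have h1 := ((((((((hasDerivAt_id w).sub ((h 2).div_const 4)).add ((h 3).div_const 18)).sub
    ((h 4).div_const 96)).add ((h 5).div_const 600)).sub ((h 6).div_const 4320)).add
    ((h 7).div_const 35280)).sub ((h 8).div_const 322560)).add ((h 9).div_const 3265920)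
  refine h1.congr_deriv ?_
  unfold K9'
  norm_num
  ring

theorem K9'_ge {w : ℝ} (hw : 0 ≤ w) : 1 - w * K9' w ≤ Real.exp (-w) := by
  have h1 := EE_le_exp 4 hw
  have e : EE (2 * 4 + 1) w = 1 - w * K9' w := by
    unfold EE K9'
    simp only [Finset.sum_range_succ, Finset.sum_range_zero]
    norm_num [Nat.factorial]
    ring
  rw [e] at h1
  exact h1

theorem K9_nonneg {w : ℝ} (hw : 0 ≤ w) : 0 ≤ K9 w := by
  have h := comp_at (x₀ := 0) (x := w) hw (f := fun _ => (0 : ℝ)) (g := K9) (f' := fun _ => 0)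
    (g' := K9') (fun v _ _ => hasDerivAt_const v 0) (fun v _ _ => hasDerivAt_K9 v) ?_ ?_
  · exact h
  · intro v hv _
    have h1 := K9'_ge hv.le
    have h2 : Real.exp (-v) ≤ 1 := Real.exp_le_one_iff.2 (by linarith)
    by_contra hcon
    push Not at hcon
    nlinarith
  · simp [K9]

theorem tendsto_K9 : Tendsto K9 (𝓝[>] 0) (𝓝 0) := by
  have h : ContinuousAt K9 0 := (hasDerivAt_K9 0).continuousAt
  have h1 := h.tendsto
  rw [show K9 0 = 0 by simp [K9]] at h1
  exact h1.mono_left nhdsWithin_le_nhds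

theorem CC_zero_one {a : ℝ} : CC a 0 = 1 := rfl

theorem CC_one {a : ℝ} : CC a 1 = a / (1 - a) := by
  simp [CC]

theorem rpow_psi_zero {a w : ℝ} (hw : 0 < w) :
    w ^ (-a - 1) * psi 0 w = w ^ (-a) * Real.exp (-w) := by
  rw [rpow_neg_eq hw]
  simp only [psi]
  ring

theorem hasDerivAt_GT0 {a w : ℝ} (ha1 : a < 1) (hw : 0 < w) :
    HasDerivAt (GT a 0) (a * (w ^ (-a) * Real.exp (-w))) w := by
  refine (hasDerivAt_GT ha1 hw 0).congr_deriv ?_
  rw [rpow_psi_zero hw, CC_zero_one]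
  push_cast
  ring

theorem hasDerivAt_pw {a w : ℝ} (ha1 : a < 1) (hw : 0 < w) :
    HasDerivAt (fun w : ℝ => a / (1 - a) * w ^ (1 - a)) (a * w ^ (-a)) w := by
  have h2 : HasDerivAt (fun w : ℝ => w ^ (1 - a)) ((1 - a) * w ^ (1 - a - 1)) w :=
    Real.hasDerivAt_rpow_const (Or.inl hw.ne')
  refine (h2.const_mul (a / (1 - a))).congr_deriv ?_
  have : (1 - a) ≠ 0 := by
    have : 0 < 1 - a := by linarith
    exact this.ne'
  rw [show 1 - a - 1 = -a by ring]
  field_simp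

theorem tendsto_pw {a : ℝ} (ha1 : a < 1) :
    Tendsto (fun w : ℝ => w ^ (1 - a)) (𝓝[>] 0) (𝓝 0) := by
  have h1a : 0 < 1 - a := by linarith
  have : ContinuousAt (fun v : ℝ => v ^ (1 - a)) 0 :=
    Real.continuousAt_rpow_const 0 _ (Or.inr h1a.le)
  have h3 := this.tendsto
  rw [Real.zero_rpow h1a.ne'] at h3
  exact h3.mono_left nhdsWithin_le_nhds

/-- `G_0 ≤ a/(1-a) w^(1-a)` -/
theorem GT0_le {a w : ℝ} (ha0 : 0 < a) (ha1 : a < 1) (hw : 0 < w) :
    GT a 0 w ≤ a / (1 - a) * w ^ (1 - a) := by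
  refine comp0 hw (f' := fun v => a * (v ^ (-a) * Real.exp (-v))) (g' := fun v => a * v ^ (-a))
    (fun v hv _ => hasDerivAt_GT0 ha1 hv) (fun v hv _ => hasDerivAt_pw ha1 hv) ?_ ?_
  · intro v hv _
    have h1 : Real.exp (-v) ≤ 1 := Real.exp_le_one_iff.2 (by linarith)
    have h2 : 0 < v ^ (-a) := Real.rpow_pos_of_pos hv _
    have := mul_le_mul_of_nonneg_left h1 (mul_pos ha0 h2).le
    linarith
  · have h1 := ((tendsto_pw ha1).const_mul (a / (1 - a))).sub (tendsto_GT ha1 0)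
    simpa using h1

/-- the derivative of `SL a n 0`, bounded -/
theorem SL_deriv_le {a w : ℝ} (ha0 : 0 < a) (ha1 : a < 1) (hw : 0 < w) {n : ℕ} (hn : 0 < n) :
    w ^ (-a - 1) * (sn a n w - sn a (0 + 1) w) ≤
      GT a 0 w / w - a / (1 - a) * (w ^ (-a) * Real.exp (-w)) := by
  refine (sn_le ha0 ha1 hw hn).trans (le_of_eq ?_)
  have h1 : GT a 0 w = RR a (0 + 1) w + CC a (0 + 1) * (w ^ (-a) * psi 0 w) := rfl
  rw [h1, zero_add, CC_one]
  simp only [psi]
  field_simp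
  ring

/-- `∑_(1≤i<n) M_i G_i ≤ K_9 G_0` -/
theorem SL0_le {a w : ℝ} (ha0 : 0 < a) (ha1 : a < 1) (hw : 0 < w) {n : ℕ} (hn : 0 < n) :
    SL a n 0 w ≤ K9 w * GT a 0 w := by
  have h1a : 0 < 1 - a := by linarith
  refine comp0 hw (f' := fun v => v ^ (-a - 1) * (sn a n v - sn a (0 + 1) v))
    (g' := fun v => K9' v * GT a 0 v + K9 v * (a * (v ^ (-a) * Real.exp (-v))))
    (fun v hv _ => hasDerivAt_SL ha0 ha1 hv hn)
    (fun v hv _ => (hasDerivAt_K9 v).mul (hasDerivAt_GT0 ha1 hv)) ?_ ?_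
  · intro v hv _
    refine (SL_deriv_le ha0 ha1 hv hn).trans ?_
    have h1 := K9'_ge hv.le
    have h2 := GT0_le ha0 ha1 hv
    have h3 := GT_pos ha0 ha1 hv 0
    have h4 := K9_nonneg hv.le
    have h5 : 0 < v ^ (-a) := Real.rpow_pos_of_pos hv _
    have h6 := Real.exp_pos (-v)
    have h7 : GT a 0 v * (1 / v - K9' v) ≤ a / (1 - a) * (v ^ (-a) * Real.exp (-v)) := by
      have e1 : GT a 0 v * (1 / v - K9' v) = GT a 0 v / v * (1 - v * K9' v) := by
        field_simp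
      have h8 : GT a 0 v / v ≤ a / (1 - a) * v ^ (-a) := by
        rw [div_le_iff₀ hv]
        have e2 : v ^ (1 - a) = v ^ (-a) * v := by
          rw [show (1 - a : ℝ) = -a + 1 by ring, Real.rpow_add hv, Real.rpow_one]
        rw [e2] at h2
        linarith
      have h9 : 0 < GT a 0 v / v := by positivity
      rw [e1]
      calc GT a 0 v / v * (1 - v * K9' v) ≤ GT a 0 v / v * Real.exp (-v) :=
            mul_le_mul_of_nonneg_left h1 h9.le
        _ ≤ a / (1 - a) * v ^ (-a) * Real.exp (-v) := mul_le_mul_of_nonneg_right h8 h6.le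
        _ = _ := by ring
    have h10 : 0 ≤ K9 v * (a * (v ^ (-a) * Real.exp (-v))) := by positivity
    have e3 : GT a 0 v * (1 / v - K9' v) = GT a 0 v / v - K9' v * GT a 0 v := by ring
    linarith
  · have h1 := (tendsto_K9.mul (tendsto_GT ha1 0)).sub (tendsto_SL ha1 n 0)
    simpa using h1

/-- `∑_(1≤i<n) M_i G_i ≤ (K_9(3) + log (w/3)) G_0`, `w ≥ 3` -/
theorem SL0_le_log {a w : ℝ} (ha0 : 0 < a) (ha1 : a < 1) (hw : 3 ≤ w) {n : ℕ} (hn : 0 < n) :
    SL a n 0 w ≤ (K9 3 + Real.log (w / 3)) * GT a 0 w := by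
  have h1a : 0 < 1 - a := by linarith
  refine comp_at hw (f' := fun v => v ^ (-a - 1) * (sn a n v - sn a (0 + 1) v))
    (g := fun v => (K9 3 + Real.log (v / 3)) * GT a 0 v)
    (g' := fun v => (1 / v) * GT a 0 v + (K9 3 + Real.log (v / 3)) *
      (a * (v ^ (-a) * Real.exp (-v))))
    (fun v hv _ => hasDerivAt_SL ha0 ha1 (by linarith) hn) ?_ ?_ ?_
  · intro v hv _
    have hv0 : 0 < v := by linarith
    have hlog : HasDerivAt (fun v : ℝ => K9 3 + Real.log (v / 3)) (1 / v) v := by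
      have h1 : HasDerivAt (fun v : ℝ => v / 3) (1 / 3) v := (hasDerivAt_id v).div_const 3
      have h2 := (h1.log (by positivity)).const_add (K9 3)
      refine h2.congr_deriv ?_
      field_simp
    exact hlog.mul (hasDerivAt_GT0 ha1 hv0)
  · intro v hv _
    have hv0 : 0 < v := by linarith
    refine (SL_deriv_le ha0 ha1 hv0 hn).trans ?_
    have h4 : 0 ≤ K9 3 := K9_nonneg (by norm_num)
    have h5 : 0 < v ^ (-a) := Real.rpow_pos_of_pos hv0 _
    have h6 := Real.exp_pos (-v)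
    have h7 : 0 ≤ Real.log (v / 3) := Real.log_nonneg (by linarith)
    have h10 : 0 ≤ (K9 3 + Real.log (v / 3)) * (a * (v ^ (-a) * Real.exp (-v))) := by
      positivity
    have h11 : 0 ≤ a / (1 - a) * (v ^ (-a) * Real.exp (-v)) := by positivity
    have e3 : GT a 0 v / v = 1 / v * GT a 0 v := by ring
    linarith
  · have := SL0_le ha0 ha1 (by norm_num : (0 : ℝ) < 3) hn
    simpa using this

/-- **`lam_1 ≤ (K_9(3) + log (c/3)) F_0`** for every `n` -/
theorem lam_le {a c : ℝ} (ha0 : 0 < a) (ha1 : a < 1) (hc : 3 ≤ c) {n : ℕ} (hn : 0 < n) :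
    ∑ i ∈ Finset.Ico 1 n, Tl a c i * Mj a i ≤ (K9 3 + Real.log (c / 3)) * Tl a c 0 := by
  have hc0 : 0 < c := by linarith
  have h1 := SL0_le_log ha0 ha1 hc hn
  have h2 : 0 < c ^ a := Real.rpow_pos_of_pos hc0 a
  have h3 := mul_le_mul_of_nonneg_left h1 h2.le
  have e : ∑ i ∈ Finset.Ico 1 n, Tl a c i * Mj a i = c ^ a * SL a n 0 c := by
    unfold SL
    rw [Finset.mul_sum, zero_add]
    refine Finset.sum_congr rfl fun i _ => ?_
    rw [Tl_eq_GT hc0]
    ring
  rw [e, Tl_eq_GT hc0]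
  linarith

/-- `G_0 ≥ a/(1-a) w^(1-a) (1 - (1-a) K_9)` -/
theorem GT0_ge {a w : ℝ} (ha0 : 0 < a) (ha1 : a < 1) (hw : 0 < w) :
    a / (1 - a) * w ^ (1 - a) * (1 - (1 - a) * K9 w) ≤ GT a 0 w := by
  have h1a : 0 < 1 - a := by linarith
  refine comp0 hw (f := fun w => a / (1 - a) * w ^ (1 - a) * (1 - (1 - a) * K9 w))
    (f' := fun v => a * v ^ (-a) * (1 - (1 - a) * K9 v) +
      a / (1 - a) * v ^ (1 - a) * (-((1 - a) * K9' v)))
    (g' := fun v => a * (v ^ (-a) * Real.exp (-v))) ?_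
    (fun v hv _ => hasDerivAt_GT0 ha1 hv) ?_ ?_
  · intro v hv _
    have h1 : HasDerivAt (fun w => 1 - (1 - a) * K9 w) (-((1 - a) * K9' v)) v := by
      have := ((hasDerivAt_K9 v).const_mul (1 - a)).const_sub 1
      exact this
    exact (hasDerivAt_pw ha1 hv).mul h1
  · intro v hv _
    have h1 := K9'_ge hv.le
    have h4 := K9_nonneg hv.le
    have h5 : 0 < v ^ (-a) := Real.rpow_pos_of_pos hv _
    have e2 : v ^ (1 - a) = v ^ (-a) * v := by
      rw [show (1 - a : ℝ) = -a + 1 by ring, Real.rpow_add hv, Real.rpow_one]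
    have e : a * v ^ (-a) * (1 - (1 - a) * K9 v) +
      a / (1 - a) * v ^ (1 - a) * (-((1 - a) * K9' v)) =
        a * v ^ (-a) * (1 - v * K9' v - (1 - a) * K9 v) := by
      rw [e2]
      field_simp
      ring
    rw [e]
    have h6 : 1 - v * K9' v - (1 - a) * K9 v ≤ Real.exp (-v) := by
      have := mul_nonneg h1a.le h4
      linarith
    have h7 := mul_le_mul_of_nonneg_left h6 (mul_pos ha0 h5).le
    linarith
  · have h1 := (tendsto_GT ha1 0).sub (((tendsto_pw ha1).const_mul (a / (1 - a))).mul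
      ((tendsto_K9.const_mul (1 - a)).const_sub 1))
    simpa using h1

theorem GT0_ge_log {a w : ℝ} (ha0 : 0 < a) (ha1 : a < 1) (hw : 3 ≤ w) :
    a / (1 - a) * w ^ (1 - a) * (1 - (1 - a) * (K9 3 + Real.log (w / 3))) ≤ GT a 0 w := by
  have h1a : 0 < 1 - a := by linarith
  refine comp_at hw
    (f := fun w => a / (1 - a) * w ^ (1 - a) * (1 - (1 - a) * (K9 3 + Real.log (w / 3))))
    (f' := fun v => a * v ^ (-a) * (1 - (1 - a) * (K9 3 + Real.log (v / 3))) +
      a / (1 - a) * v ^ (1 - a) * (-((1 - a) * (1 / v))))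
    (g' := fun v => a * (v ^ (-a) * Real.exp (-v))) ?_
    (fun v hv _ => hasDerivAt_GT0 ha1 (by linarith)) ?_ ?_
  · intro v hv _
    have hv0 : 0 < v := by linarith
    have hlog : HasDerivAt (fun v : ℝ => K9 3 + Real.log (v / 3)) (1 / v) v := by
      have h1 : HasDerivAt (fun v : ℝ => v / 3) (1 / 3) v := (hasDerivAt_id v).div_const 3
      have h2 := (h1.log (by positivity)).const_add (K9 3)
      refine h2.congr_deriv ?_
      field_simp
    have h1 : HasDerivAt (fun w => 1 - (1 - a) * (K9 3 + Real.log (w / 3)))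
        (-((1 - a) * (1 / v))) v := (hlog.const_mul (1 - a)).const_sub 1
    exact (hasDerivAt_pw ha1 hv0).mul h1
  · intro v hv _
    have hv0 : 0 < v := by linarith
    have h4 : 0 ≤ K9 3 + Real.log (v / 3) :=
      add_nonneg (K9_nonneg (by norm_num)) (Real.log_nonneg (by linarith))
    have h5 : 0 < v ^ (-a) := Real.rpow_pos_of_pos hv0 _
    have e2 : v ^ (1 - a) = v ^ (-a) * v := by
      rw [show (1 - a : ℝ) = -a + 1 by ring, Real.rpow_add hv0, Real.rpow_one]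
    have e : a * v ^ (-a) * (1 - (1 - a) * (K9 3 + Real.log (v / 3))) +
      a / (1 - a) * v ^ (1 - a) * (-((1 - a) * (1 / v))) =
        a * v ^ (-a) * (-(1 - a) * (K9 3 + Real.log (v / 3))) := by
      rw [e2]
      field_simp
      ring
    rw [e]
    have h6 : -(1 - a) * (K9 3 + Real.log (v / 3)) ≤ Real.exp (-v) := by
      have := mul_nonneg h1a.le h4
      have := Real.exp_pos (-v)
      linarith
    have h7 := mul_le_mul_of_nonneg_left h6 (mul_pos ha0 h5).le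
    linarith
  · have := GT0_ge ha0 ha1 (by norm_num : (0 : ℝ) < 3)
    simpa using this

/-- **lower bound of `T_0`** -/
theorem le_Tl_zero {a c : ℝ} (ha0 : 0 < a) (ha1 : a < 1) (hc : 3 ≤ c) :
    a / (1 - a) * c * (1 - (1 - a) * (K9 3 + Real.log (c / 3))) ≤ Tl a c 0 := by
  have hc0 : 0 < c := by linarith
  have h1 := GT0_ge_log ha0 ha1 hc
  have h2 : 0 < c ^ a := Real.rpow_pos_of_pos hc0 a
  have h3 := mul_le_mul_of_nonneg_left h1 h2.le
  have e : c ^ a * c ^ (1 - a) = c := by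
    rw [← Real.rpow_add hc0, add_sub_cancel, Real.rpow_one]
  rw [Tl_eq_GT hc0]
  have e2 : c ^ a * (a / (1 - a) * c ^ (1 - a) * (1 - (1 - a) * (K9 3 + Real.log (c / 3)))) =
      a / (1 - a) * (c ^ a * c ^ (1 - a)) * (1 - (1 - a) * (K9 3 + Real.log (c / 3))) := by ring
  rw [e2, e] at h3
  exact h3

theorem K9_three : K9 3 ≤ 16902 / 10000 := by
  unfold K9
  norm_num

/-- **the share of level `0`**: `(z - T_0) a (1 - (1-a) k) ≤ (1-a) e^(-c) z`,
`k = K_9(3) + log (c/3)` -/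
theorem share_zero_le {a c : ℝ} (ha0 : 0 < a) (ha1 : a < 1) (hc : 3 ≤ c) :
    (1 - Tl a c 0 / zz a c) * (a * (1 - (1 - a) * (K9 3 + Real.log (c / 3)))) ≤
      (1 - a) * Real.exp (-c) := by
  have h1a : 0 < 1 - a := by linarith
  have hc0 : 0 < c := by linarith
  have hz := zz_pos ha0 ha1 hc0
  have hT := Tl_pos ha0 ha1 hc0 0
  have h1 := le_Tl_zero ha0 ha1 hc
  have e1 : zz a c = Tl a c 0 + c * Real.exp (-c) := by rw [Tl_zero]; ring
  have hE := Real.exp_pos (-c)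
  have h2 : 1 - Tl a c 0 / zz a c = c * Real.exp (-c) / zz a c := by
    rw [eq_div_iff hz.ne', sub_mul, div_mul_cancel₀ _ hz.ne']
    linarith
  rw [h2, div_mul_eq_mul_div, div_le_iff₀ hz]
  have h3 : a * c * (1 - (1 - a) * (K9 3 + Real.log (c / 3))) ≤ (1 - a) * Tl a c 0 := by
    have := mul_le_mul_of_nonneg_left h1 h1a.le
    have e2 : (1 - a) * (a / (1 - a) * c * (1 - (1 - a) * (K9 3 + Real.log (c / 3)))) =
        a * c * (1 - (1 - a) * (K9 3 + Real.log (c / 3))) := by field_simp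
    rw [e2] at this
    exact this
  have h4 : (1 - a) * Tl a c 0 ≤ (1 - a) * zz a c :=
    mul_le_mul_of_nonneg_left (by rw [e1]; nlinarith) h1a.le
  have h5 := mul_le_mul_of_nonneg_right (h3.trans h4) hE.le
  linarith

end Pool.Agent.Lib.QNL.Nums14
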