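import Pool.Agent.Lib.QNL.Reg95
import Pool.Agent.Lib.QNL.NumT93
import Pool.Agent.Lib.QNL.Nums14
import Pool.Agent.Lib.QNL.MuLog22

/-!
Group N, the end `99/100 ≤ a < 1`: everything around the one-variable inequality.  With
`d = 1 - a`, `c = log (1/d)` and the pole `be = 3 + 9/8 c + 81/512 c²`:

* `tail`: `Tail1` for every `n ≥ 1` and every `Ym ≤ d/a`;
* `F0_ge`: `1 - 11/10 d² ≤ F0 a c`;
* `mu_le`: `muN n a c ≤ log c + 3/5`;
* `cert_of`: `HasCert` from the data of the one-variable inequality.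
-/

set_option autoImplicit false

namespace Pool.Agent.Lib.QNL.End8

open Set
open Pool.Agent.Lib.QNL
open Pool.Agent.Lib.QNL.Wts73
open Pool.Agent.Lib.QNL.CG
open Pool.Agent.Lib.QNL.Num93
open Pool.Agent.Lib.QNL.Tail35

/-! ### logarithms -/

theorem exp_46 : Real.exp (23 / 5) ≤ 100 := by
  have h1 : Real.exp (23 / 5) ^ 5 = Real.exp 1 ^ 23 := by
    rw [← Real.exp_nat_mul, ← Real.exp_nat_mul]; norm_num
  have h2 := Real.exp_one_lt_d9
  have h3 : Real.exp 1 ^ 23 ≤ (2.7182818286 : ℝ) ^ 23 :=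
    pow_le_pow_left₀ (Real.exp_pos 1).le h2.le 23
  have h4 : Real.exp (23 / 5) ^ 5 ≤ 100 ^ 5 := by
    rw [h1]; exact h3.trans (by norm_num)
  exact le_of_pow_le_pow_left₀ (by norm_num) (by norm_num) h4

theorem exp_467 : 100 ≤ Real.exp (14 / 3) := by
  have h1 : Real.exp (14 / 3) ^ 3 = Real.exp 1 ^ 14 := by
    rw [← Real.exp_nat_mul, ← Real.exp_nat_mul]; norm_num
  have h2 := Real.exp_one_gt_d9
  have h3 : (2.7182818283 : ℝ) ^ 14 ≤ Real.exp 1 ^ 14 :=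
    pow_le_pow_left₀ (by norm_num) h2.le 14
  have h4 : (100 : ℝ) ^ 3 ≤ Real.exp (14 / 3) ^ 3 := by
    rw [h1]; exact le_trans (by norm_num) h3
  exact le_of_pow_le_pow_left₀ (by norm_num) (Real.exp_pos _).le h4

theorem inv_exp_one : 1 / Real.exp 1 ≤ 3 / 8 := by
  rw [div_le_div_iff₀ (Real.exp_pos 1) (by norm_num)]
  have := Real.exp_one_gt_d9
  linarith

theorem c_ge {d : ℝ} (h0 : 0 < d) (h1 : d ≤ 1 / 100) : 23 / 5 ≤ Real.log (1 / d) := by
  rw [Real.le_log_iff_exp_le (by positivity)]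
  refine exp_46.trans ?_
  rw [le_div_iff₀ h0]
  linarith

/-- the parameter `u`: `1/d = 100 (1+u)^4`, `c ≤ 14/3 + 4 u` -/
theorem exists_u {d : ℝ} (h0 : 0 < d) (h1 : d ≤ 1 / 100) :
    ∃ u : ℝ, 0 ≤ u ∧ 100 * (1 + u) ^ 4 * d = 1 ∧ Real.log (1 / d) ≤ 14 / 3 + 4 * u := by
  have h2 : 0 < 1 / (100 * d) := by positivity
  have h3 : 1 ≤ 1 / (100 * d) := by
    rw [le_div_iff₀ (by positivity)]; linarith
  obtain ⟨s, hs⟩ : ∃ s, s = (1 / (100 * d)) ^ ((1 : ℝ) / 4) := ⟨_, rfl⟩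
  have hs1 : 1 ≤ s := by
    rw [hs]; exact Real.one_le_rpow h3 (by norm_num)
  have hs4 : s ^ 4 = 1 / (100 * d) := by
    rw [hs, ← Real.rpow_natCast, ← Real.rpow_mul h2.le]
    norm_num
  refine ⟨s - 1, by linarith, ?_, ?_⟩
  · rw [show 1 + (s - 1) = s by ring, hs4]
    field_simp
  · have e : 1 / d = 100 * s ^ 4 := by
      rw [hs4]; field_simp
    rw [e, Real.log_mul (by norm_num) (by positivity), Real.log_pow]
    have h4 : Real.log 100 ≤ 14 / 3 := by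
      rw [Real.log_le_iff_le_exp (by norm_num)]; exact exp_467
    have h5 := Real.log_le_sub_one_of_pos (show 0 < s by linarith)
    push_cast
    linarith

/-! ### the tail -/

/-- the pole -/
noncomputable def bE (c : ℝ) : ℝ := 3 + 9 / 8 * c + 81 / 512 * c ^ 2

theorem bE_eq (c : ℝ) : bE c = 3 + 6 * (3 * c / 16) + 9 / 2 * (3 * c / 16) ^ 2 := by
  unfold bE; ring

theorem RB_end {a c : ℝ} (ha0 : 0 < a) (ha1 : a < 1) (hc : 0 < c) {j : ℕ} (hj : 1 ≤ j) :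
    RB a c j (3 * c / 16) := by
  intro n
  have hT := Tl_pos ha0 ha1 hc j
  have hM := Mk_pos ha0 ha1 j
  rcases le_or_gt n j with hn | hn
  · rw [Finset.Ico_eq_empty_of_le (by omega), Finset.sum_empty]
    positivity
  have h := Nums14.tail_le ha0 ha1 hc hn
  have hj' : (1 : ℝ) ≤ j := by exact_mod_cast hj
  have h1 : (0 : ℝ) < j + 1 - a := by linarith
  have h2 : (0 : ℝ) < j + a := by linarith
  have e : ∀ i, Nums14.Mj a i = Mk a i := fun i => rfl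
  simp only [e] at h
  obtain ⟨S, hS⟩ : ∃ x, x = ∑ i ∈ Finset.Ico (j + 1) n, Tl a c i * Mk a i := ⟨_, rfl⟩
  rw [← hS] at h ⊢
  have h3 : ((j : ℝ) + 2) / (2 * (j + 1)) * (c / Real.exp 1) * Tl a c j ≤
      ((j : ℝ) + 1 - a) * (3 * c / 16 * (Tl a c j * Mk a j)) := by
    have h4 : c / Real.exp 1 ≤ c * (3 / 8) := by
      rw [div_eq_mul_one_div]
      exact mul_le_mul_of_nonneg_left inv_exp_one hc.le
    have h5 : ((j : ℝ) + 2) / (2 * (j + 1)) ≤ (2 * j + 1) / (2 * (j + a)) := by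
      rw [div_le_div_iff₀ (by positivity) (by positivity)]
      nlinarith
    have h6 : 0 ≤ c / Real.exp 1 := by positivity
    have h7 : ((j : ℝ) + 2) / (2 * (j + 1)) * (c / Real.exp 1) ≤
        (2 * j + 1) / (2 * (j + a)) * (c * (3 / 8)) :=
      mul_le_mul h5 h4 h6 (by positivity)
    have h8 := mul_le_mul_of_nonneg_right h7 hT.le
    refine h8.trans (le_of_eq ?_)
    unfold Mk
    field_simp
    ring
  have h9 := h.trans h3
  exact le_of_mul_le_mul_left h9 h1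

theorem key_poly {u q : ℝ} (hu : 0 ≤ u) (hq0 : 0 ≤ q) (hq : q ≤ 7 / 8 + 3 / 4 * u) :
    (3 + 6 * q + 9 / 2 * q ^ 2) * (1 + 9 / 2 * q * (1 + q)) ≤ 99 * (1 + u) ^ 4 := by
  obtain ⟨Q, hQ⟩ : ∃ Q, Q = 7 / 8 + 3 / 4 * u := ⟨_, rfl⟩
  rw [← hQ] at hq
  have hQ0 : 0 ≤ Q := hq0.trans hq
  have h1 : 3 + 6 * q + 9 / 2 * q ^ 2 ≤ 3 + 6 * Q + 9 / 2 * Q ^ 2 := by nlinarith
  have h2 : 1 + 9 / 2 * q * (1 + q) ≤ 1 + 9 / 2 * Q * (1 + Q) := by nlinarith
  refine (mul_le_mul h1 h2 (by positivity) (by positivity)).trans ?_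
  rw [hQ]
  have h3 : 0 ≤ u ^ 2 := by positivity
  have h4 : 0 ≤ u ^ 3 := by positivity
  have h5 : 0 ≤ u ^ 4 := by positivity
  nlinarith

theorem bE_mul {d c Ym : ℝ} (h0 : 0 < d) (h1 : d ≤ 1 / 100) (hc : c = Real.log (1 / d))
    (hYm : Ym ≤ d / (1 - d)) (hYm0 : 0 ≤ Ym) :
    bE c * (1 + 9 / 2 * (3 * c / 16) * (1 + 3 * c / 16)) * Ym ≤ 1 := by
  obtain ⟨u, hu, hud, hcu⟩ := exists_u h0 h1
  have hc0 := c_ge h0 h1
  rw [← hc] at hcu hc0
  have hd : 0 < 1 - d := by linarith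
  have h2 := key_poly (u := u) (q := 3 * c / 16) hu (by linarith) (by linarith)
  rw [← bE_eq] at h2
  have h3 : 99 * (1 + u) ^ 4 * Ym ≤ 1 := by
    have h4 : 99 * (1 + u) ^ 4 * Ym ≤ 99 * (1 + u) ^ 4 * (d / (1 - d)) :=
      mul_le_mul_of_nonneg_left hYm (by positivity)
    refine h4.trans ?_
    rw [mul_div_assoc', div_le_one hd]
    nlinarith
  have h5 := mul_le_mul_of_nonneg_right h2 hYm0
  have e : 9 / 2 * (3 * c / 16) * (1 + 3 * c / 16) = 9 / 2 * (3 * c / 16) * (1 + (3 * c / 16)) := by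
    ring
  linarith

theorem bE_lt {d c Ym : ℝ} (h0 : 0 < d) (h1 : d ≤ 1 / 100) (hc : c = Real.log (1 / d))
    (hYm : Ym ≤ d / (1 - d)) (hYm0 : 0 ≤ Ym) : bE c * Ym < 1 := by
  have h := bE_mul h0 h1 hc hYm hYm0
  have hc0 := c_ge h0 h1
  rw [← hc] at hc0
  rcases eq_or_lt_of_le hYm0 with h2 | h2
  · rw [← h2]; norm_num
  have h3 : 0 < bE c := by unfold bE; positivity
  have h4 : 0 < bE c * Ym := mul_pos h3 h2
  have h5 : 0 < 9 / 2 * (3 * c / 16) * (1 + 3 * c / 16) := by positivity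
  nlinarith

theorem tail {n : ℕ} {d c Ym : ℝ} (hn : 1 ≤ n) (h0 : 0 < d) (h1 : d ≤ 1 / 100)
    (hc : c = Real.log (1 / d)) (hYm : Ym ≤ d / (1 - d)) (hYm0 : 0 ≤ Ym) :
    Tail1 n (1 / (1 - d)) (1 - d) (bs n (1 - d) c) Ym
      (fun Y => Lam n (1 / (1 - d)) (1 - d) (bs n (1 - d) c) 1 / (1 - bE c * Y)) := by
  have hc0 := c_ge h0 h1
  rw [← hc] at hc0
  have ha0 : 0 < 1 - d := by linarith
  have hlt := bE_lt h0 h1 hc hYm hYm0
  refine tail1_of_star hn hlt (q := 3 * c / 16) ?_ ?_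
  · intro j hj1 hjn
    exact Lam_le_of_RB rfl (by linarith) (by linarith)
      (RB_end ha0 (by linarith) (by linarith) hj1) hjn
  · have hs : Tail35.Star (bE c) (3 * c / 16) 2 Ym := by
      unfold Tail35.Star
      have h2 := bE_mul h0 h1 hc hYm hYm0
      rw [bE_eq] at h2 ⊢
      obtain ⟨q, hq⟩ : ∃ q, q = 3 * c / 16 := ⟨_, rfl⟩
      rw [← hq] at h2 ⊢
      nlinarith
    refine Tail35.Star.mono hs ?_ ?_ (by linarith) le_rfl hlt
    · unfold Ric.cj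
      rw [le_div_iff₀ (by push_cast; linarith)]
      push_cast
      linarith
    · unfold Ric.cj
      rw [div_le_iff₀ (by push_cast; linarith)]
      push_cast
      linarith

/-! ### the boxes -/

theorem F0_ge {d c : ℝ} (h0 : 0 < d) (h1 : d ≤ 1 / 100) (hc : c = Real.log (1 / d)) :
    1 - 11 / 10 * d ^ 2 ≤ F0 (1 - d) c := by
  obtain ⟨u, hu, hud, hcu⟩ := exists_u h0 h1
  have hc0 := c_ge h0 h1
  rw [← hc] at hcu hc0
  have h2 := Nums14.share_zero_le (a := 1 - d) (c := c) (by linarith) (by linarith) (by linarith)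
  have h3 := Nums14.K9_three
  have h4 : Real.log (c / 3) ≤ c / 3 - 1 := Real.log_le_sub_one_of_pos (by positivity)
  have h5 : Real.exp (-c) = d := by
    rw [hc, Real.exp_neg, Real.exp_log (by positivity)]
    field_simp
  have e1 : (1 : ℝ) - (1 - d) = d := by ring
  rw [h5, e1] at h2
  obtain ⟨k, hk⟩ : ∃ k, k = Nums14.K9 3 + Real.log (c / 3) := ⟨_, rfl⟩
  rw [← hk] at h2
  have h6 : k ≤ 225 / 100 + 4 / 3 * u := by linarith
  have h7 : d * k ≤ 225 / 10000 := by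
    have h8 : d * k ≤ d * (225 / 100 + 4 / 3 * u) := mul_le_mul_of_nonneg_left h6 h0.le
    refine h8.trans ?_
    have h9 : 225 / 100 + 4 / 3 * u ≤ 225 / 100 * (1 + u) ^ 4 := by
      have : 0 ≤ u ^ 2 := by positivity
      have : 0 ≤ u ^ 3 := by positivity
      have : 0 ≤ u ^ 4 := by positivity
      nlinarith
    have := mul_le_mul_of_nonneg_left h9 h0.le
    nlinarith
  have h10 : 10 / 11 ≤ (1 - d) * (1 - d * k) := by nlinarith
  have hF : F0 (1 - d) c < 1 := F0_lt_one (by linarith) (by linarith) (by linarith)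
  unfold F0 at hF ⊢
  obtain ⟨F, hF'⟩ : ∃ F, F = Tl (1 - d) c 0 / zz (1 - d) c := ⟨_, rfl⟩
  rw [← hF'] at hF h2 ⊢
  have h11 : (1 - F) * (10 / 11) ≤ (1 - F) * ((1 - d) * (1 - d * k)) :=
    mul_le_mul_of_nonneg_left h10 (by linarith)
  nlinarith

theorem mu_le {d c : ℝ} (h0 : 0 < d) (h1 : d ≤ 1 / 100) (hc : c = Real.log (1 / d)) (n : ℕ) :
    muN n (1 - d) c ≤ Real.log c + 3 / 5 := by
  have hc0 := c_ge h0 h1
  rw [← hc] at hc0
  exact MuLog22.muN_le_log (by linarith) (by linarith) hc0 n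

/-! ### the certificate -/

/-- **assembly at the end of the range** -/
theorem cert_of {n : ℕ} {d c w Ym : ℝ} (hn : 1 ≤ n) (h0 : 0 < d) (h1 : d ≤ 1 / 100)
    (hc : c = Real.log (1 / d)) (hw0 : 0 < w) (hr : 1 - d ≤ 1 - w) (hYm : w / (1 - w) < Ym)
    (hYm' : Ym ≤ d / (1 - d))
    (hQ : ∀ Y ∈ Icc (-1 : ℝ) Ym, 0 < QQ (1 - d) (bE c) (muN n (1 - d) c) Y)
    (top : ∀ x : ℝ, 0 ≤ x → w * x ^ ((1 - w) / (1 - d)) ≤ 1 →
      Glue87.TOP (1 - d) w 0 0 (lamN (F0 (1 - d) c) (1 - d) (muN n (1 - d) c))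
        ((2 * (1 - d) - 1) * UU (F0 (1 - d) c) (1 - d) (bE c) (muN n (1 - d) c)
          (w / (1 - w) * (1 - x ^ ((1 - w) / (1 - d))))) x ≤ 0) : HasCert n (1 - d) := by
  have hc0 := c_ge h0 h1
  rw [← hc] at hc0
  have hw1 : 0 < 1 - w := by linarith
  have hYm0 : 0 ≤ Ym := by
    have : 0 < w / (1 - w) := by positivity
    linarith
  have hlt := bE_lt h0 h1 hc hYm' hYm0
  have hb : 0 ≤ bE c := by unfold bE; positivity
  refine hasCert_end (c := c) (w := w) (be := bE c) (Ym := Ym) hn (by linarith) (by linarith)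
    (by linarith) hw0 hr hYm (tail hn h0 h1 hc hYm' hYm0) ?_ hQ top
  intro Y hY
  have := mul_le_mul_of_nonneg_left hY.2 hb
  linarith

end Pool.Agent.Lib.QNL.End8
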