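import Pool.Agent.Lib.QNL.End14B
import Pool.Agent.Lib.QNL.End8

/-!
**The end `99/100 ≤ a < 1` of the certificate**, all `n ≥ 1`: `RegionOK 1 (99/100) 1`.

With `e = 1 - a`, `c = log (1/e)`, `m = muN n a c`: `w = e/(1 + e(1+m))`, the pole `End8.bE c`,
right end `e/(1+em) (1+e/4)`.
-/

set_option autoImplicit false

namespace Pool.Agent.Lib.QNL.End14

open Set
open Pool.Agent.Lib.QNL
open Pool.Agent.Lib.QNL.CG

/-- the shifted variable `v = c - log 100` -/
theorem exists_v {e c : ℝ} (he0 : 0 < e) (he1 : e ≤ 1 / 100) (hc : c = Real.log (1 / e)) :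
    ∃ v : ℝ, 0 ≤ v ∧ e * (1 + v + v ^ 2 / 2 + v ^ 3 / 6) ≤ 1 / 100 ∧
      4604 / 1000 + v ≤ c ∧ c ≤ 46054 / 10000 + v := by
  have hL1 := EndS.log100_ge
  have hL2 := EndS.log100_le
  have hv : 0 ≤ c - Real.log 100 := by
    rw [hc, sub_nonneg]
    refine Real.log_le_log (by norm_num) ?_
    rw [le_div_iff₀ he0]; linarith
  refine ⟨c - Real.log 100, hv, ?_, by linarith, by linarith⟩
  have h1 := Real.sum_le_exp_of_nonneg hv 4
  simp only [Finset.sum_range_succ, Finset.sum_range_zero] at h1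
  norm_num [Nat.factorial] at h1
  have h2 : Real.exp (c - Real.log 100) = 1 / e / 100 := by
    rw [Real.exp_sub, Real.exp_log (by norm_num), hc, Real.exp_log (by positivity)]
  rw [h2] at h1
  have h3 := mul_le_mul_of_nonneg_left h1 he0.le
  have h4 : e * (1 / e / 100) = 1 / 100 := by field_simp
  rw [h4] at h3
  linarith

theorem mulT {e T P X : ℝ} (he : 0 ≤ e) (hT : e * T ≤ 1 / 100) (hP : 0 ≤ P)
    (hX : X ≤ P * T) : e * X ≤ P / 100 := by
  have h1 := mul_le_mul_of_nonneg_left hX he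
  have h2 := mul_le_mul_of_nonneg_left hT hP
  linarith

theorem log_1154 : Real.log (1154 / 100 : ℝ) ≤ 24479 / 10000 := by
  have h1 : Real.log (14425 / 10000 : ℝ) ≤ 36844 / 100000 :=
    EndS.log_le_of_sq (by norm_num) (by norm_num) (by norm_num)
  have h2 : Real.log (1154 / 100 : ℝ) = 3 * Real.log 2 + Real.log (14425 / 10000) := by
    rw [show (1154 / 100 : ℝ) = 2 ^ 3 * (14425 / 10000) by norm_num,
      Real.log_mul (by norm_num) (by norm_num), Real.log_pow]
    norm_num
  have h4 := Real.log_two_lt_d9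
  rw [h2]
  linarith

/-- all numbers -/
theorem nums {e c m : ℝ} (he0 : 0 < e) (he1 : e ≤ 1 / 100) (hc : c = Real.log (1 / e))
    (hm0 : 0 ≤ m) (hm : m ≤ Real.log c + 3 / 5) :
    e * m ≤ 213 / 10000 ∧ e * End8.bE c ≤ 1154 / 10000 ∧ e * (m * End8.bE c) ≤ 2456 / 10000 ∧
    e * (m * (End8.bE c + 2 + e)) ≤ 2885 / 10000 ∧ e * ((1 + m) * (2 + m)) ≤ 1291 / 10000 ∧
    e * (1 + m) ^ 2 ≤ 979 / 10000 ∧ 1153 / 100 ≤ End8.bE c ∧ 46 / 10 ≤ c ∧
    ∃ D : ℝ, 0 < D ∧ D ≤ c - Real.log (End8.bE c) + 1 - Real.log 2 ∧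
      m * (1 + 2 / End8.bE c) ≤ 1015 / 1000 * D := by
  obtain ⟨v, hv, hT, hc1, hc2⟩ := exists_v he0 he1 hc
  obtain ⟨T, hTe⟩ : ∃ T, T = 1 + v + v ^ 2 / 2 + v ^ 3 / 6 := ⟨_, rfl⟩
  rw [← hTe] at hT
  have hv2 : 0 ≤ v ^ 2 := sq_nonneg v
  have hv3 : 0 ≤ v ^ 3 := by positivity
  have hc0 : 0 < c := by linarith
  have hlogc : Real.log c ≤ 15263 / 10000 + (c / (46 / 10) - 1) := by
    have h1 : Real.log c = Real.log (46 / 10) + Real.log (c / (46 / 10)) := by
      rw [← Real.log_mul (by norm_num) (by positivity)]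
      congr 1
      field_simp
    have h2 := Real.log_le_sub_one_of_pos (x := c / (46 / 10)) (by positivity)
    have h3 := EndS.log_46_le
    linarith
  have hm1 : m ≤ 21275 / 10000 + 2174 / 10000 * v := by linarith
  have hh1 : End8.bE c ≤ 1154 / 100 + 25822 / 10000 * v + 1583 / 10000 * v ^ 2 := by
    unfold End8.bE
    have h1 : c ^ 2 ≤ (46054 / 10000 + v) ^ 2 := pow_le_pow_left₀ hc0.le hc2 2
    linarith
  have hh2 : 1153 / 100 ≤ End8.bE c := by
    unfold End8.bE
    have h1 : (4604 / 1000) ^ 2 ≤ c ^ 2 := pow_le_pow_left₀ (by norm_num) (by linarith) 2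
    linarith
  have hh0 : 0 < End8.bE c := by linarith
  obtain ⟨h, hh⟩ : ∃ h, h = End8.bE c := ⟨_, rfl⟩
  rw [← hh] at hh0 hh1 hh2 ⊢
  obtain ⟨M, hM⟩ : ∃ M, M = 21275 / 10000 + 2174 / 10000 * v := ⟨_, rfl⟩
  obtain ⟨H, hH⟩ : ∃ H, H = 1154 / 100 + 25822 / 10000 * v + 1583 / 10000 * v ^ 2 := ⟨_, rfl⟩
  rw [← hM] at hm1
  rw [← hH] at hh1
  have hM0 : 0 ≤ M := by rw [hM]; positivity
  have hH0 : 0 ≤ H := by rw [hH]; positivity
  have hmh : m * h ≤ M * H := mul_le_mul hm1 hh1 hh0.le hM0
  refine ⟨?_, ?_, ?_, ?_, ?_, ?_, hh2, by linarith, ?_⟩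
  · have := mulT (P := 213 / 100) (X := m) he0.le hT (by norm_num) (by
      rw [hTe]; linarith)
    linarith
  · have := mulT (P := 1154 / 100) (X := h) he0.le hT (by norm_num) (by
      rw [hTe]; linarith)
    linarith
  · have := mulT (P := 2456 / 100) (X := m * h) he0.le hT (by norm_num) (by
      refine hmh.trans ?_
      rw [hTe, hM, hH]; linarith)
    linarith
  · have h1 : m * (h + 2 + e) ≤ M * (H + 201 / 100) :=
      mul_le_mul hm1 (by linarith) (by linarith) hM0
    have := mulT (P := 2885 / 100) (X := m * (h + 2 + e)) he0.le hT (by norm_num) (by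
      refine h1.trans ?_
      rw [hTe, hM, hH]; linarith)
    linarith
  · have h1 : (1 + m) * (2 + m) ≤ (1 + M) * (2 + M) :=
      mul_le_mul (by linarith) (by linarith) (by linarith) (by linarith)
    have := mulT (P := 1291 / 100) (X := (1 + m) * (2 + m)) he0.le hT (by norm_num) (by
      refine h1.trans ?_
      rw [hTe, hM]; linarith)
    linarith
  · have h1 : (1 + m) ^ 2 ≤ (1 + M) ^ 2 := pow_le_pow_left₀ (by linarith) (by linarith) 2
    have := mulT (P := 979 / 100) (X := (1 + m) ^ 2) he0.le hT (by norm_num) (by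
      refine h1.trans ?_
      rw [hTe, hM]; linarith)
    linarith
  · -- the logarithm of `h`
    have hlog : Real.log h ≤ 24479 / 10000 + 2238 / 10000 * v := by
      have h1 : h ≤ 1154 / 100 * Real.exp (2238 / 10000 * v) := by
        have h2 := Real.quadratic_le_exp_of_nonneg (x := 2238 / 10000 * v) (by positivity)
        have h3 := mul_le_mul_of_nonneg_left h2 (by norm_num : (0 : ℝ) ≤ 1154 / 100)
        linarith
      have h3 := Real.log_le_log hh0 h1
      rw [Real.log_mul (by norm_num) (Real.exp_pos _).ne', Real.log_exp] at h3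
      have h4 := log_1154
      linarith
    have hl2 := Real.log_two_lt_d9
    refine ⟨24629 / 10000 + 7762 / 10000 * v, by positivity, by linarith, ?_⟩
    have h1 : 2 / h ≤ 17347 / 100000 := by
      rw [div_le_iff₀ hh0]; linarith
    have h2 : m * (1 + 2 / h) ≤ M * (117347 / 100000) :=
      mul_le_mul hm1 (by linarith) (by positivity) hM0
    refine h2.trans ?_
    rw [hM]
    linarith

/-- `Q > 0` up to the right end -/
theorem Q_pos {e m h Y : ℝ} (he0 : 0 < e) (he1 : e ≤ 1 / 100) (hm : 0 ≤ m)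
    (hem : e * m ≤ 213 / 10000) (hh : 0 < h) (heh : e * h ≤ 1154 / 10000)
    (hemh : e * (m * h) ≤ 2456 / 10000) (hY0 : -1 ≤ Y)
    (hY1 : Y ≤ e / (1 + e * m) * (1 + e / 4)) : 0 < QQ (1 - e) h m Y := by
  have hk : 0 < 1 + e * m := by positivity
  have ha : 0 < 1 - e := by linarith
  obtain ⟨K, hK⟩ : ∃ K, K = e / (1 + e * m) := ⟨_, rfl⟩
  have hK0 : 0 < K := by rw [hK]; positivity
  have hKe : K ≤ e := by rw [hK]; exact K_le_e he0.le hm
  have hKm : K * (1 + e * m) = e := by rw [hK]; field_simp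
  rw [← hK] at hY1
  obtain ⟨Z, hZ⟩ : ∃ Z, Z = K * (1 + e / 4) := ⟨_, rfl⟩
  rw [← hZ] at hY1
  have hZ0 : 0 < Z := by rw [hZ]; positivity
  have hZe : Z ≤ e * (401 / 400) := by
    rw [hZ]
    exact mul_le_mul hKe (by linarith) (by positivity) he0.le
  have hhZ : h * Z ≤ 116 / 1000 := by
    have := mul_le_mul_of_nonneg_left hZe hh.le
    linarith
  have hmhZ : m * (h * Z) ≤ 247 / 1000 := by
    have := mul_le_mul_of_nonneg_left hZe (by positivity : 0 ≤ m * h)
    linarith
  unfold QQ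
  rw [show 1 - (1 - e) = e by ring]
  rcases le_total Y 0 with h0 | h0
  · have h1 : 0 < 1 - h * Y := by
      have := mul_nonneg hh.le (neg_nonneg.2 h0)
      linarith
    have h2 : 0 < e - (1 - e) * Y := by
      have := mul_nonneg ha.le (neg_nonneg.2 h0)
      linarith
    have h3 : 0 ≤ m * e * (-Y) := by
      have : 0 ≤ -Y := by linarith
      positivity
    have h4 := mul_pos h2 h1
    linarith
  · have h1 : 1 - h * Z ≤ 1 - h * Y := by
      have := mul_le_mul_of_nonneg_left hY1 hh.le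
      linarith
    have h2 : e - (1 - e) * Z ≤ e - (1 - e) * Y := by
      have := mul_le_mul_of_nonneg_left hY1 ha.le
      linarith
    have h3 : K * e * (m + 3 / 4) ≤ e - (1 - e) * Z := by
      have e1 : e - (1 - e) * Z = K * (1 + e * m) - (1 - e) * (K * (1 + e / 4)) := by
        rw [hKm, hZ]
      rw [e1]
      linarith [mul_pos hK0 (mul_pos he0 he0)]
    have h4 : m * e * Y ≤ m * e * Z :=
      mul_le_mul_of_nonneg_left hY1 (by positivity)
    have h5 : K * e * (m + 3 / 4) * (1 - h * Z) ≤ (e - (1 - e) * Y) * (1 - h * Y) :=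
      mul_le_mul (h3.trans h2) h1 (by linarith) (by
        have : 0 ≤ K * e * (m + 3 / 4) := by positivity
        linarith)
    have h6 : m * e * Z < K * e * (m + 3 / 4) * (1 - h * Z) := by
      have h7 : m * (1 + e / 4) < (m + 3 / 4) * (1 - h * Z) := by linarith
      have h8 := mul_lt_mul_of_pos_left h7 (mul_pos hK0 he0)
      have e2 : m * e * Z = K * e * (m * (1 + e / 4)) := by rw [hZ]; ring
      rw [e2]
      linarith
    linarith

theorem cert {n : ℕ} {e : ℝ} (hn : 1 ≤ n) (he0 : 0 < e) (he1 : e ≤ 1 / 100) :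
    HasCert n (1 - e) := by
  obtain ⟨c, hc⟩ : ∃ c, c = Real.log (1 / e) := ⟨_, rfl⟩
  have hcg := End8.c_ge he0 he1
  rw [← hc] at hcg
  obtain ⟨m, hm⟩ : ∃ m, m = muN n (1 - e) c := ⟨_, rfl⟩
  have hm0 : 0 ≤ m := by
    rw [hm]; exact muN_nonneg (by linarith) (by linarith) (by linarith)
  have hm1 : m ≤ Real.log c + 3 / 5 := by rw [hm]; exact End8.mu_le he0 he1 hc n
  obtain ⟨hem, heh, hemh, hemh2, hem12, hem2, hh1, hc1, D, hD0, hD1, hD2⟩ :=
    nums he0 he1 hc hm0 hm1
  have hk : 0 < 1 + e * m := by positivity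
  have hk1 : 0 < 1 + e * (1 + m) := by positivity
  have hh0 : 0 < End8.bE c := by linarith
  obtain ⟨K, hK⟩ : ∃ K, K = e / (1 + e * m) := ⟨_, rfl⟩
  have hK0 : 0 < K := by rw [hK]; positivity
  have hKe : K ≤ e := by rw [hK]; exact K_le_e he0.le hm0
  obtain ⟨w, hw⟩ : ∃ w, w = e / (1 + e * (1 + m)) := ⟨_, rfl⟩
  have hw0 : 0 < w := by rw [hw]; positivity
  have hwe : w ≤ e := by rw [hw]; exact K_le_e he0.le (by linarith)
  have h1w : 1 - w = (1 + e * m) / (1 + e * (1 + m)) := by
    rw [hw]; field_simp; ring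
  have hwK : w / (1 - w) = K := by
    rw [h1w, hw, hK]; field_simp
  have hF := End8.F0_ge he0 he1 hc
  have hF1 := F0_lt_one (a := 1 - e) (c := c) (by linarith) (by linarith) (by linarith)
  have hF0 := F0_pos (a := 1 - e) (c := c) (by linarith) (by linarith) (by linarith)
  refine End8.cert_of (w := w) (Ym := K * (1 + e / 4)) hn he0 he1 hc hw0 (by linarith) ?_ ?_ ?_ ?_
  · rw [hwK]
    linarith [mul_pos hK0 he0]
  · rw [le_div_iff₀ (by linarith)]
    have h1 : K * (1 + e / 4) * (1 - e) ≤ K * 1 := by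
      rw [mul_assoc]
      exact mul_le_mul_of_nonneg_left (by linarith [mul_pos he0 he0]) hK0.le
    linarith
  · intro Y hY
    rw [← hm]
    rw [hK] at hY
    exact Q_pos he0 he1 hm0 hem hh0 heh hemh hY.1 hY.2
  · intro x hx hwx
    rw [← hm]
    have hKeh : End8.bE c * K ≤ 1154 / 10000 := by
      have := mul_le_mul_of_nonneg_left hKe hh0.le
      linarith
    refine top_of_crit (β := 23 / 20) he0 he1 hm0 (by linarith) hh0.le hF0 hF1.le hw ?_ hx hwx
      ?_ ?_ ?_
    · -- the share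
      rw [div_pow, mul_div_assoc', le_div_iff₀ (by positivity)]
      have h1 : (1 + e * m) ^ 2 ≤ (10213 / 10000) ^ 2 :=
        pow_le_pow_left₀ hk.le (by linarith) 2
      have h2 : 1 - F0 (1 - e) c ≤ 11 / 10 * e ^ 2 := by linarith
      have h3 : (1 - F0 (1 - e) c) * (1 + e * m) ^ 2 ≤ 11 / 10 * e ^ 2 * (10213 / 10000) ^ 2 :=
        mul_le_mul h2 h1 (by positivity) (by positivity)
      have h4 : 999 / 1000 ≤ F0 (1 - e) c := by
        have : e ^ 2 ≤ (1 / 100) ^ 2 := pow_le_pow_left₀ he0.le he1 2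
        linarith
      have h5 : 999 / 1000 * (23 / 20) * e ^ 2 ≤ F0 (1 - e) c * (23 / 20) * e ^ 2 :=
        mul_le_mul_of_nonneg_right (mul_le_mul_of_nonneg_right h4 (by norm_num)) (sq_nonneg e)
      linarith [sq_nonneg e]
    · intro Y hY
      rw [← hK] at hY
      have := mul_le_mul_of_nonneg_left hY.2 hh0.le
      linarith
    · intro Y hY
      refine Q_pos he0 he1 hm0 hem hh0 heh hemh hY.1 (hY.2.trans ?_)
      rw [← hK]
      linarith [mul_pos hK0 he0]
    · intro s hs hKs
      rw [← hK] at hKs ⊢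
      rcases le_total s 1 with h1 | h1
      · refine critA he0 he1 hm0 hh0.le hK (by norm_num) (by linarith) ?_ ?_ hs h1
        · have h2 := mul_le_mul_of_nonneg_left hKe (by positivity : 0 ≤ m * End8.bE c)
          linarith
        · have h2 : e * (1 + m) ^ 2 * e ≤ 979 / 10000 * (1 / 100) :=
            mul_le_mul hem2 he1 he0.le (by norm_num)
          have h3 : e * (e * (1 + m) ^ 2 * e) ≤ 1 / 100 * (979 / 10000 * (1 / 100)) :=
            mul_le_mul he1 h2 (by positivity) (by norm_num)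
          have h4 : e * (1 + 2 * e * (1 + m) * (2 + m)) ≤ 1 / 100 * (1 + 2582 / 10000) :=
            mul_le_mul he1 (by linarith) (by positivity) (by norm_num)
          have h5 : e * (1 + e) ^ 2 ≤ 1 / 100 * (101 / 100) ^ 2 :=
            mul_le_mul he1 (pow_le_pow_left₀ (by linarith) (by linarith) 2) (by positivity)
              (by norm_num)
          linarith
      · refine critB (c := c) (D := D) he0 he1 hm0 (by linarith) hh0 hK (by norm_num) ?_
          (by linarith) hD0 ?_ ?_ h1 hKs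
        · rw [hc, Real.exp_neg, Real.exp_log (by positivity)]
          field_simp
        · refine hD1.trans ?_
          have h2 : Real.log (End8.bE c * K) ≤ Real.log (End8.bE c) - c := by
            have h3 : Real.log K ≤ -c := by
              have h4 : Real.log K ≤ Real.log e := Real.log_le_log hK0 hKe
              have h5 : c = -Real.log e := by rw [hc, one_div, Real.log_inv]
              linarith
            rw [Real.log_mul hh0.ne' hK0.ne']
            linarith
          linarith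
        · have h2 : m * (1 + 2 / End8.bE c) / D ≤ 1015 / 1000 := by
            rw [div_le_iff₀ hD0]; exact hD2
          have h3 : (1 + 2 * e * (1 + m) * (2 + m) + 23 / 20) / (c - 1) ≤ 67 / 100 := by
            rw [div_le_iff₀ (by linarith)]
            linarith
          linarith

/-- **region VI** -/
theorem regVI : RegionOK 1 (99 / 100) 1 := by
  intro n hn a h0 h1 h2 _
  have h := cert (n := n) (e := 1 - a) hn (by linarith) (by linarith)
  rwa [sub_sub_cancel] at h

end Pool.Agent.Lib.QNL.End14
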