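import Mathlib

/-!
The zone `x > 1`, `1 - a = e^(-c) ≤ 1/100` of the final one variable inequality: everything that
is needed about the function `Φ(s) = (1 + 1/s) log(1+s) - 1` (so that `z log z - z + 1 = s Φ(s)`
with `z = 1 + s`), the two parameter inequality `(1 + B s) Φ(s) ≥ B s (log(1/B) + 1 - log 2)`, and
the inequality `endS` (helper47's claim, zone `s > 0`).
-/

set_option autoImplicit false

namespace Pool.Agent.Lib.QNL.EndS

open Real

/-- `Φ(s) = (1 + 1/s) log(1+s) - 1`. -/
noncomputable def Ph (s : ℝ) : ℝ := (1 + 1 / s) * log (1 + s) - 1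

theorem s_mul_Ph {s : ℝ} (hs : 0 < s) : s * Ph s = (1 + s) * log (1 + s) - s := by
  unfold Ph
  field_simp
  ring

/-- `z (log z)^2 ≤ (z-1)^2` for `z ≥ 1`. -/
theorem mul_log_sq_le {z : ℝ} (hz : 1 ≤ z) : z * log z ^ 2 ≤ (z - 1) ^ 2 := by
  have hz0 : 0 < z := by linarith
  have hl : 0 ≤ log z := log_nonneg hz
  have h1 : log z / 2 ≤ sinh (log z / 2) := self_le_sinh_iff.mpr (by linarith)
  have h2 : (log z / 2) ^ 2 ≤ sinh (log z / 2) ^ 2 :=
    pow_le_pow_left₀ (by linarith) h1 2
  have h3 : exp (log z / 2) * exp (log z / 2) = z := by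
    rw [← exp_add]; ring_nf; exact exp_log hz0
  have h4 : exp (-(log z / 2)) * exp (-(log z / 2)) = z⁻¹ := by
    rw [← exp_add]; ring_nf; rw [exp_neg, exp_log hz0]
  have h5 : exp (log z / 2) * exp (-(log z / 2)) = 1 := by
    rw [← exp_add]; ring_nf; exact exp_zero
  have h6 : sinh (log z / 2) ^ 2 = (z + z⁻¹ - 2) / 4 := by
    rw [sinh_eq]
    nlinarith [h3, h4, h5]
  rw [h6] at h2
  have h7 : z * ((log z / 2) ^ 2) ≤ z * ((z + z⁻¹ - 2) / 4) :=
    mul_le_mul_of_nonneg_left h2 hz0.le
  have h8 : z * z⁻¹ = 1 := mul_inv_cancel₀ hz0.ne'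
  nlinarith [h7, h8]

/-- an upper bound for `log z`, `z ≥ 1`, from a number `y ≥ 0` with `(z-1)^2 ≤ z y^2` -/
theorem log_le_of_sq {z y : ℝ} (hz : 1 ≤ z) (hy : 0 ≤ y) (h : (z - 1) ^ 2 ≤ z * y ^ 2) :
    log z ≤ y := by
  have hz0 : 0 < z := by linarith
  have h1 := mul_log_sq_le hz
  have h2 : log z ^ 2 ≤ y ^ 2 := by
    have h3 : z * log z ^ 2 ≤ z * y ^ 2 := h1.trans h
    exact le_of_mul_le_mul_left h3 hz0
  exact (abs_le_abs_of_nonneg_of_sq (log_nonneg hz) hy h2)
where
  abs_le_abs_of_nonneg_of_sq {u v : ℝ} (hu : 0 ≤ u) (hv : 0 ≤ v) (h : u ^ 2 ≤ v ^ 2) : u ≤ v := by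
    nlinarith [sq_nonneg (u - v), sq_nonneg (u + v)]

/-- `Φ(s) ≥ s/(2+s)`. -/
theorem Ph_ge {s : ℝ} (hs : 0 < s) : s / (2 + s) ≤ Ph s := by
  have h1 := Real.le_log_one_add_of_nonneg hs.le
  have h2 : (1 + 1 / s) * (2 * s / (s + 2)) ≤ (1 + 1 / s) * log (1 + s) :=
    mul_le_mul_of_nonneg_left h1 (by positivity)
  have h3 : (1 + 1 / s) * (2 * s / (s + 2)) - 1 = s / (2 + s) := by
    field_simp
    ring
  unfold Ph
  linarith

theorem Ph_pos {s : ℝ} (hs : 0 < s) : 0 < Ph s :=
  lt_of_lt_of_le (by positivity) (Ph_ge hs)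

theorem Ph_ge_log {s : ℝ} (hs : 0 < s) : log (1 + s) - 1 ≤ Ph s := by
  have h1 : 0 ≤ log (1 + s) := log_nonneg (by linarith)
  have h2 : 0 ≤ 1 / s * log (1 + s) := by positivity
  unfold Ph
  nlinarith

theorem hasDerivAt_Ph {s : ℝ} (hs : 0 < s) :
    HasDerivAt Ph ((s - log (1 + s)) / s ^ 2) s := by
  have hs1 : (0 : ℝ) < 1 + s := by linarith
  have h1 : HasDerivAt (fun s : ℝ => 1 + 1 / s) (-(1 / s ^ 2)) s := by
    have h := (hasDerivAt_inv hs.ne').const_add (1 : ℝ)
    have e : (fun s : ℝ => 1 + 1 / s) = fun s : ℝ => 1 + s⁻¹ := by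
      funext t; rw [one_div]
    rw [e]
    exact h.congr_deriv (by rw [one_div])
  have h2 : HasDerivAt (fun s : ℝ => log (1 + s)) (1 / (1 + s)) s := by
    have h := ((hasDerivAt_id s).const_add (1 : ℝ)).log hs1.ne'
    simpa using h
  have h3 := (h1.mul h2).sub_const (1 : ℝ)
  have e : Ph = fun y => (fun s : ℝ => 1 + 1 / s) y * (fun s : ℝ => log (1 + s)) y - 1 := by
    funext t; rfl
  rw [e]
  refine h3.congr_deriv ?_
  field_simp
  ring

/-- `log(Φ(s)) + Φ(s) - log s` is nondecreasing on `(0,∞)`. -/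
theorem psi_mono : MonotoneOn (fun s : ℝ => Ph s + log (Ph s) - log s) (Set.Ioi 0) := by
  have hd : ∀ t ∈ Set.Ioi (0 : ℝ), HasDerivAt (fun s : ℝ => Ph s + log (Ph s) - log s)
      ((t - log (1 + t)) / t ^ 2 + (t - log (1 + t)) / t ^ 2 / Ph t - 1 / t) t := by
    intro t ht
    have h1 := hasDerivAt_Ph ht
    have h2 := h1.log (Ph_pos ht).ne'
    have h3 := Real.hasDerivAt_log (ne_of_gt ht)
    have h4 := (h1.add h2).sub h3
    exact h4.congr_deriv (by rw [one_div])
  refine monotoneOn_of_deriv_nonneg (convex_Ioi 0)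
    (fun t ht => (hd t ht).continuousAt.continuousWithinAt) ?_ ?_
  · rw [interior_Ioi]
    exact fun t ht => (hd t ht).differentiableAt.differentiableWithinAt
  · rw [interior_Ioi]
    intro t ht
    have ht0 : (0 : ℝ) < t := ht
    rw [(hd t ht).deriv]
    have hP := Ph_pos ht0
    have hsP := s_mul_Ph ht0
    have hsq := mul_log_sq_le (z := 1 + t) (by linarith)
    have e1 : (t - log (1 + t)) / t ^ 2 + (t - log (1 + t)) / t ^ 2 / Ph t - 1 / t
        = ((t - log (1 + t)) * (t * Ph t + t) - t ^ 2 * Ph t) / (t ^ 3 * Ph t) := by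
      field_simp
    rw [e1]
    refine div_nonneg ?_ (by positivity)
    have e2 : (t - log (1 + t)) * (t * Ph t + t) - t ^ 2 * Ph t
        = (1 + t - 1) ^ 2 - (1 + t) * log (1 + t) ^ 2 := by
      have : t ^ 2 * Ph t = t * (t * Ph t) := by ring
      rw [this, hsP]
      ring
    rw [e2]
    linarith

/-- `log(Φ(s)) + Φ(s) ≥ log(s/2)`. -/
theorem psi_nonneg {s : ℝ} (hs : 0 < s) : log s - log 2 ≤ Ph s + log (Ph s) := by
  set ψ : ℝ → ℝ := fun s => Ph s + log (Ph s) - log s with hψ
  have hmono : MonotoneOn ψ (Set.Ioi 0) := psi_mono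
  have hlow : ∀ e : ℝ, 0 < e → e ≤ s → -(e / 2) - log 2 ≤ ψ s := by
    intro e he hes
    have h1 : ψ e ≤ ψ s := hmono he hs hes
    have hP := Ph_ge he
    have hP0 := Ph_pos he
    have h2 : log (e / (2 + e)) ≤ log (Ph e) := log_le_log (by positivity) hP
    have h3 : log (e / (2 + e)) = log e - log (2 + e) := log_div he.ne' (by positivity)
    have h4 : log (2 + e) = log 2 + log (1 + e / 2) := by
      rw [← log_mul (by norm_num) (by positivity)]
      congr 1
      ring
    have h5 : log (1 + e / 2) ≤ e / 2 := by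
      have := log_le_sub_one_of_pos (x := 1 + e / 2) (by positivity)
      linarith
    have h6 : ψ e = Ph e + log (Ph e) - log e := rfl
    linarith
  have hfin : -log 2 ≤ ψ s := by
    by_contra hcon
    push Not at hcon
    have h1 := hlow (min s (-log 2 - ψ s)) (lt_min hs (by linarith)) (min_le_left _ _)
    have h2 : min s (-log 2 - ψ s) ≤ -log 2 - ψ s := min_le_right _ _
    linarith
  have h7 : ψ s = Ph s + log (Ph s) - log s := rfl
  linarith

/-- the two parameter inequality with a constant: if `log s - κ ≤ Φ(s) + log Φ(s)` then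
`B s (log(1/B) + 1 - κ) ≤ (1 + B s) Φ(s)` -/
theorem lemmaK {B s κ : ℝ} (hB : 0 < B) (hs : 0 < s) (h1 : log s - κ ≤ Ph s + log (Ph s)) :
    B * s * (-log B + 1 - κ) ≤ (1 + B * s) * Ph s := by
  have hP := Ph_pos hs
  -- `e^(-u) s e^(-κ) ≤ u`
  have h2 : s * exp (-Ph s - κ) ≤ Ph s := by
    have h3 : log (s * exp (-Ph s - κ)) ≤ log (Ph s) := by
      rw [log_mul hs.ne' (exp_pos _).ne', log_exp]
      linarith
    exact (log_le_log_iff (by positivity) hP).mp h3
  -- `B (log B + u + κ) ≥ B - e^(-u-κ)`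
  have h6 : B - exp (-Ph s - κ) ≤ B * (log B + Ph s + κ) := by
    have h7 := Real.add_one_le_exp (-(log B + Ph s + κ))
    have h8 : exp (-(log B + Ph s + κ)) = exp (-Ph s - κ) / B := by
      have : -(log B + Ph s + κ) = (-Ph s - κ) - log B := by ring
      rw [this, exp_sub (-Ph s - κ), exp_log hB]
    rw [h8] at h7
    have h9 : B * (-(log B + Ph s + κ) + 1) ≤ B * (exp (-Ph s - κ) / B) :=
      mul_le_mul_of_nonneg_left h7 hB.le
    have h10 : B * (exp (-Ph s - κ) / B) = exp (-Ph s - κ) := by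
      field_simp
    rw [h10] at h9
    linarith
  have h11 : s * (B - exp (-Ph s - κ)) ≤ s * (B * (log B + Ph s + κ)) :=
    mul_le_mul_of_nonneg_left h6 hs.le
  nlinarith [h11, h2]

/-- the two parameter inequality: `B s (log(1/B) + 1 - log 2) ≤ (1 + B s) Φ(s)` -/
theorem lemmaA {B s : ℝ} (hB : 0 < B) (hs : 0 < s) :
    B * s * (-log B + 1 - log 2) ≤ (1 + B * s) * Ph s :=
  lemmaK hB hs (psi_nonneg hs)

/-- for `s ≥ 3/2` the constant is `47/100` -/
theorem psi_32 {s : ℝ} (hs : 3 / 2 ≤ s) : log s - 53 / 100 ≤ Ph s + log (Ph s) := by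
  have h1 : Ph (3 / 2) + log (Ph (3 / 2)) - log (3 / 2) ≤ Ph s + log (Ph s) - log s :=
    psi_mono (by norm_num : (3 / 2 : ℝ) ∈ Set.Ioi 0)
      (show (0 : ℝ) < s by linarith) hs
  have h2 : (5256 / 10000 : ℝ) ≤ Ph (3 / 2) := by
    have h3 := Real.le_log_one_add_of_nonneg (x := (1 / 4 : ℝ)) (by norm_num)
    have h4 : log (1 + 3 / 2 : ℝ) = log 2 + log (1 + 1 / 4) := by
      rw [← log_mul (by norm_num) (by norm_num)]
      norm_num
    have h5 := Real.log_two_gt_d9
    unfold Ph
    rw [h4]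
    norm_num at h3 ⊢
    linarith
  have h3 : -(6433 / 10000 : ℝ) ≤ log (Ph (3 / 2)) := by
    have h4 : log (5256 / 10000 : ℝ) ≤ log (Ph (3 / 2)) := log_le_log (by norm_num) h2
    have h5 := Real.le_log_one_add_of_nonneg (x := (512 / 10000 : ℝ)) (by norm_num)
    have h6 : log (5256 / 10000 : ℝ) = log (1 + 512 / 10000) - log 2 := by
      rw [← log_div (by norm_num) (by norm_num)]
      norm_num
    have h7 := Real.log_two_lt_d9
    rw [h6] at h4
    norm_num at h5 h4 ⊢
    linarith
  have h4 : log (3 / 2 : ℝ) ≤ 4083 / 10000 :=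
    log_le_of_sq (by norm_num) (by norm_num) (by norm_num)
  linarith

/-- for all `s > 0` and `B ≤ 12/100`: `B s (log(1/B) + 47/100) ≤ (1 + B s) Φ(s)` -/
theorem lemmaB {B s : ℝ} (hB : 0 < B) (hB1 : B ≤ 12 / 100) (hs : 0 < s) :
    B * s * (-log B + 47 / 100) ≤ (1 + B * s) * Ph s := by
  rcases le_total (3 / 2) s with h | h
  · have h1 := lemmaK hB hs (psi_32 h)
    have e : -log B + 47 / 100 = -log B + 1 - 53 / 100 := by ring
    rw [e]
    exact h1
  · have hP := Ph_ge hs
    -- `-B log B ≤ B log(25/3) + 12/100 - B`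
    have h1 : B * (-log B) ≤ B * (21205 / 10000) + 12 / 100 - B := by
      have h2 := log_le_sub_one_of_pos (x := (12 / 100) / B) (by positivity)
      have h3 : log ((12 / 100) / B) = -log (25 / 3) - log B := by
        rw [log_div (by norm_num) hB.ne', ← log_inv]
        norm_num
      have h4 : log (25 / 3 : ℝ) ≤ 21205 / 10000 := by
        have h5 : log (25 / 24 : ℝ) ≤ 409 / 10000 :=
          log_le_of_sq (by norm_num) (by norm_num) (by norm_num)
        have h6 : log (25 / 3 : ℝ) = 3 * log 2 + log (25 / 24) := by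
          rw [show (25 / 3 : ℝ) = 2 ^ 3 * (25 / 24) by norm_num,
            log_mul (by norm_num) (by norm_num), log_pow]
          norm_num
        have h7 := Real.log_two_lt_d9
        rw [h6]
        linarith
      have h5 : B * (-log (25 / 3) - log B) ≤ B * ((12 / 100) / B - 1) := by
        rw [← h3]
        exact mul_le_mul_of_nonneg_left h2 hB.le
      have h6 : B * ((12 / 100) / B - 1) = 12 / 100 - B := by
        field_simp
      rw [h6] at h5
      have h7 : B * log (25 / 3) ≤ B * (21205 / 10000) :=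
        mul_le_mul_of_nonneg_left h4 hB.le
      linarith
    have h2 : s * (B * (-log B) + B * (47 / 100))
        ≤ s * (B * (21205 / 10000) + 12 / 100 - B + B * (47 / 100)) := by
      apply mul_le_mul_of_nonneg_left _ hs.le
      linarith
    have h3 : (1 + B * s) * (s / (2 + s)) ≤ (1 + B * s) * Ph s :=
      mul_le_mul_of_nonneg_left hP (by positivity)
    have h4 : s * (B * (21205 / 10000) + 12 / 100 - B + B * (47 / 100))
        ≤ (1 + B * s) * (s / (2 + s)) := by
      have e : (1 + B * s) * (s / (2 + s)) = ((1 + B * s) * s) / (2 + s) := by ring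
      rw [e, le_div_iff₀ (by positivity)]
      have h5 : (B * (21205 / 10000) + 12 / 100 - B + B * (47 / 100)) * (2 + s) ≤ 1 + B * s := by
        nlinarith [mul_nonneg hB.le hs.le]
      calc s * (B * (21205 / 10000) + 12 / 100 - B + B * (47 / 100)) * (2 + s)
          = s * ((B * (21205 / 10000) + 12 / 100 - B + B * (47 / 100)) * (2 + s)) := by ring
        _ ≤ s * (1 + B * s) := mul_le_mul_of_nonneg_left h5 hs.le
        _ = (1 + B * s) * s := by ring
    linarith

/-! ### numbers -/

theorem log100_ge : (4604 / 1000 : ℝ) ≤ log 100 := by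
  have h1 : (2 : ℝ) ^ 93 ≤ 10 ^ 28 := by norm_num
  have h2 : 93 * log 2 ≤ 28 * log 10 := by
    have := log_le_log (by positivity) h1
    rwa [log_pow, log_pow] at this
  have h3 : log (100 : ℝ) = 2 * log 10 := by
    rw [show (100 : ℝ) = 10 ^ 2 by norm_num, log_pow]; norm_num
  have h4 := Real.log_two_gt_d9
  rw [h3]
  linarith

theorem log100_le : log 100 ≤ (46054 / 10000 : ℝ) := by
  have h1 : (10 : ℝ) ^ 59 ≤ 2 ^ 196 := by norm_num
  have h2 : 59 * log 10 ≤ 196 * log 2 := by
    have := log_le_log (by positivity) h1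
    rwa [log_pow, log_pow] at this
  have h3 : log (100 : ℝ) = 2 * log 10 := by
    rw [show (100 : ℝ) = 10 ^ 2 by norm_num, log_pow]; norm_num
  have h4 := Real.log_two_lt_d9
  rw [h3]
  linarith

theorem log_46_le : log (46 / 10 : ℝ) ≤ 15263 / 10000 := by
  have h1 : log (115 / 100 : ℝ) ≤ 14 / 100 :=
    log_le_of_sq (by norm_num) (by norm_num) (by norm_num)
  have h2 : log (46 / 10 : ℝ) = 2 * log 2 + log (115 / 100) := by
    rw [show (46 / 10 : ℝ) = 2 ^ 2 * (115 / 100) by norm_num, log_mul (by norm_num) (by norm_num),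
      log_pow]
    norm_num
  have h4 := Real.log_two_lt_d9
  rw [h2]
  linarith

theorem log_227_le : log (227 / 100 : ℝ) ≤ 81996 / 100000 := by
  have h1 : log (1135 / 1000 : ℝ) ≤ 1268 / 10000 :=
    log_le_of_sq (by norm_num) (by norm_num) (by norm_num)
  have h2 : log (227 / 100 : ℝ) = log 2 + log (1135 / 1000) := by
    rw [show (227 / 100 : ℝ) = 2 * (1135 / 1000) by norm_num, log_mul (by norm_num) (by norm_num)]
  have h4 := Real.log_two_lt_d9
  rw [h2]
  linarith

theorem log_202_le : log (202 / 100 : ℝ) ≤ 70315 / 100000 := by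
  have h1 : log (101 / 100 : ℝ) ≤ 1 / 100 := by
    have := log_le_sub_one_of_pos (x := (101 / 100 : ℝ)) (by norm_num)
    linarith
  have h2 : log (202 / 100 : ℝ) = log 2 + log (101 / 100) := by
    rw [show (202 / 100 : ℝ) = 2 * (101 / 100) by norm_num, log_mul (by norm_num) (by norm_num)]
  have h4 := Real.log_two_lt_d9
  rw [h2]
  linarith

theorem log_26_ge : (32 / 10 : ℝ) ≤ log 26 := by
  have h1 := Real.le_log_one_add_of_nonneg (x := (625 / 1000 : ℝ)) (by norm_num)
  have h2 : log (26 : ℝ) = 4 * log 2 + log (1 + 625 / 1000) := by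
    rw [show (26 : ℝ) = 2 ^ 4 * (1 + 625 / 1000) by norm_num, log_mul (by norm_num) (by norm_num),
      log_pow]
    norm_num
  have h4 := Real.log_two_gt_d9
  rw [h2]
  norm_num at h1 ⊢
  linarith

/-- second term: `3.5 δ s ≤ Φ(s)` for `0 < s ≤ 1.02/δ` -/
theorem term2 {c δ s : ℝ} (hδ : δ = exp (-c)) (hδ1 : δ ≤ 1 / 100) (hs : 0 < s)
    (hs1 : δ * s ≤ 102 / 100) : 35 / 10 * (δ * s) ≤ Ph s := by
  have hδ0 : 0 < δ := by rw [hδ]; exact exp_pos _
  rcases le_total s 26 with h26 | h26
  · have h1 := Ph_ge hs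
    have h2 : s / 28 ≤ s / (2 + s) := by
      apply div_le_div_of_nonneg_left hs.le (by positivity) (by linarith)
    nlinarith
  · have h1 := Ph_ge_log hs
    have h2 : log 26 ≤ log (1 + s) := log_le_log (by norm_num) (by linarith)
    have h3 := log_26_ge
    rcases le_total (δ * s) (628 / 1000) with h4 | h4
    · nlinarith
    · -- log s = log (δ s) + c
      have hc : log 100 ≤ c := by
        have h5 : log δ ≤ log (1 / 100) := log_le_log hδ0 hδ1
        rw [hδ, log_exp, one_div, log_inv] at h5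
        linarith
      have h5 := log100_ge
      have h6 : log (δ * s) + c ≤ log (1 + s) := by
        have h7 : log (δ * s) = -c + log s := by
          rw [log_mul hδ0.ne' hs.ne', hδ, log_exp]
        have h8 : log s ≤ log (1 + s) := log_le_log hs (by linarith)
        linarith
      have hy : 0 < δ * s := by positivity
      have h7 : 1 - (δ * s)⁻¹ ≤ log (δ * s) := one_sub_inv_le_log_of_pos hy
      have h8 : (δ * s) * (δ * s)⁻¹ = 1 := mul_inv_cancel₀ hy.ne'
      have h9 : (δ * s)⁻¹ ≤ 4604 / 1000 - 35 / 10 * (δ * s) := by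
        rw [inv_le_iff_one_le_mul₀ hy]
        nlinarith
      linarith

set_option maxHeartbeats 1000000 in
/-- **The zone `s > 0`, `δ = e^(-c) ≤ 1/100`.** -/
theorem endS {c δ k lam h vpi s : ℝ} (hδ : δ = exp (-c)) (hδ1 : δ ≤ 1 / 100)
    (hk : k = 202 / 100 * (1 + 276 / 1000 * c) ^ 2) (hlam0 : 0 ≤ lam)
    (hlam : lam ≤ log c + 6 / 10) (hh : h = lam + 6 / 10) (hv : vpi = 1 - h * δ)
    (hs : 0 < s) (hs1 : δ * s ≤ 102 / 100) :
    h ^ 2 * δ / (1 + s) + 21 / 10 * δ + lam * δ * (k + 21 / 10) / (1 + k * δ * vpi * s)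
      ≤ 95 / 100 * (2 * ((1 + s) * log (1 + s) - s) / s ^ 2) := by
  have hδ0 : 0 < δ := by rw [hδ]; exact exp_pos _
  have hc : log 100 ≤ c := by
    have h5 : log δ ≤ log (1 / 100) := log_le_log hδ0 hδ1
    rw [hδ, log_exp, one_div, log_inv] at h5
    linarith
  have hL1 := log100_ge
  have hL2 := log100_le
  have hc0 : 0 < c := by linarith
  -- t = c - log 100
  obtain ⟨t, ht⟩ : ∃ t, t = c - log 100 := ⟨_, rfl⟩
  have ht0 : 0 ≤ t := by linarith
  have hδt : δ = 1 / 100 * exp (-t) := by
    rw [hδ, ht]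
    have : -c = -(log 100) + -(c - log 100) := by ring
    rw [this, exp_add, exp_neg (log 100), exp_log (by norm_num)]
    norm_num
  have hexp : exp (-t) * (1 + t + t ^ 2 / 2) ≤ 1 := by
    have h1 := Real.quadratic_le_exp_of_nonneg ht0
    have h2 : exp (-t) * exp t = 1 := by rw [← exp_add]; simp
    have h3 : exp (-t) * (1 + t + t ^ 2 / 2) ≤ exp (-t) * exp t :=
      mul_le_mul_of_nonneg_left h1 (exp_pos _).le
    linarith
  have hE0 : 0 < exp (-t) := exp_pos _
  -- log c
  have hlogc : log c ≤ 15275 / 10000 + 2174 / 10000 * t := by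
    have h1 : log c = log (46 / 10) + log (c / (46 / 10)) := by
      rw [← log_mul (by norm_num) (by positivity)]
      congr 1
      field_simp
    have h2 := log_le_sub_one_of_pos (x := c / (46 / 10)) (by positivity)
    have h3 := log_46_le
    have h4 : c / (46 / 10) = (log 100 + t) * (10 / 46) := by rw [ht]; ring
    rw [h4] at h2 h1
    rw [h1]
    linarith
  have hlamt : lam ≤ 21275 / 10000 + 2174 / 10000 * t := by linarith
  have hht : h ≤ 27275 / 10000 + 2174 / 10000 * t := by linarith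
  have hh0 : 0 ≤ h := by linarith
  -- term 1
  have hT1 : h ^ 2 * δ ≤ 744 / 10000 := by
    have h1 : h ^ 2 ≤ (27275 / 10000 + 2174 / 10000 * t) ^ 2 := pow_le_pow_left₀ hh0 hht 2
    have h2 : (27275 / 10000 + 2174 / 10000 * t) ^ 2 ≤ 744 / 100 * (1 + t + t ^ 2 / 2) := by
      nlinarith [sq_nonneg t]
    have h3 : h ^ 2 * exp (-t) ≤ 744 / 100 := by
      calc h ^ 2 * exp (-t) ≤ (744 / 100 * (1 + t + t ^ 2 / 2)) * exp (-t) :=
            mul_le_mul_of_nonneg_right (h1.trans h2) hE0.le
        _ = 744 / 100 * (exp (-t) * (1 + t + t ^ 2 / 2)) := by ring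
        _ ≤ 744 / 100 * 1 := by gcongr
        _ = 744 / 100 := by ring
    rw [hδt]
    nlinarith
  -- vpi
  have hhδ : h * δ ≤ 27275 / 1000000 := by
    have h1 : h * exp (-t) ≤ 27275 / 10000 := by
      calc h * exp (-t) ≤ (27275 / 10000 * (1 + t + t ^ 2 / 2)) * exp (-t) := by
            apply mul_le_mul_of_nonneg_right _ hE0.le
            nlinarith [sq_nonneg t]
        _ = 27275 / 10000 * (exp (-t) * (1 + t + t ^ 2 / 2)) := by ring
        _ ≤ 27275 / 10000 * 1 := by gcongr
        _ = 27275 / 10000 := by ring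
    rw [hδt]
    nlinarith
  have hv1 : 9727 / 10000 ≤ vpi := by rw [hv]; linarith
  have hv2 : vpi ≤ 1 := by rw [hv]; nlinarith
  have hv0 : 0 < vpi := by linarith
  -- k
  have hK1 : 2270 / 1000 ≤ 1 + 276 / 1000 * c := by linarith
  have hk1 : 104 / 10 ≤ k := by rw [hk]; nlinarith
  have hk0 : 0 < k := by linarith
  have hlogk : log k ≤ 234404 / 100000 + 2432 / 10000 * t := by
    have hK0 : 0 < 1 + 276 / 1000 * c := by linarith
    have h1 : log k = log (202 / 100) + 2 * log (1 + 276 / 1000 * c) := by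
      rw [hk, log_mul (by norm_num) (by positivity), log_pow]
      norm_num
    have h2 : log (1 + 276 / 1000 * c)
        = log (227 / 100) + log ((1 + 276 / 1000 * c) / (227 / 100)) := by
      rw [← log_mul (by norm_num) (by positivity)]
      congr 1
      field_simp
    have h3 := log_le_sub_one_of_pos (x := (1 + 276 / 1000 * c) / (227 / 100)) (by positivity)
    have h4 := log_227_le
    have h5 := log_202_le
    have h6 : (1 + 276 / 1000 * c) / (227 / 100)
        = (1 + 276 / 1000 * (log 100 + t)) * (100 / 227) := by rw [ht]; ring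
    rw [h6] at h3 h2
    rw [h1, h2]
    linarith
  -- term 3
  have hP := Ph_pos hs
  set B : ℝ := k * δ * vpi with hB
  have hB0 : 0 < B := by positivity
  have hlogB : 25667 / 10000 + 7568 / 10000 * t ≤ -log B + 1 - log 2 := by
    have h1 : log B = log k + -c + log vpi := by
      rw [hB, log_mul (by positivity) hv0.ne', log_mul hk0.ne' hδ0.ne', hδ, log_exp]
    have h2 : log vpi ≤ 0 := log_nonpos hv0.le hv2
    have h3 := Real.log_two_lt_d9
    have h4 : c = log 100 + t := by rw [ht]; ring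
    rw [h1]
    linarith
  have hA := lemmaA hB0 hs
  have hBs : 0 < 1 + B * s := by positivity
  have hT3 : lam * δ * (k + 21 / 10) / (1 + B * s) ≤ 5756 / 10000 * (2 * Ph s / s) := by
    have h1 : lam * (k + 21 / 10)
        ≤ 5756 / 10000 * 2 * (k * vpi) * (25667 / 10000 + 7568 / 10000 * t) := by
      have h2 : k + 21 / 10 ≤ 12020 / 10000 * k := by linarith
      have h3 : lam * (k + 21 / 10)
          ≤ (21275 / 10000 + 2174 / 10000 * t) * (12020 / 10000 * k) := by
        apply mul_le_mul hlamt h2 (by linarith) (by positivity)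
      have h4 : k * (9727 / 10000) ≤ k * vpi := mul_le_mul_of_nonneg_left hv1 hk0.le
      have h5 : 5756 / 10000 * 2 * (k * (9727 / 10000)) * (25667 / 10000 + 7568 / 10000 * t)
          ≤ 5756 / 10000 * 2 * (k * vpi) * (25667 / 10000 + 7568 / 10000 * t) := by
        gcongr
      refine h3.trans (le_trans ?_ h5)
      have h6 : 0 ≤ k * t := by positivity
      linarith
    have h7 : 5756 / 10000 * 2 * (B * (-log B + 1 - log 2)) ≤
        5756 / 10000 * (2 * Ph s / s) * (1 + B * s) := by
      have h8 : B * (-log B + 1 - log 2) ≤ (1 + B * s) * Ph s / s := by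
        rw [le_div_iff₀ hs]
        calc B * (-log B + 1 - log 2) * s = B * s * (-log B + 1 - log 2) := by ring
          _ ≤ _ := hA
      calc 5756 / 10000 * 2 * (B * (-log B + 1 - log 2))
          ≤ 5756 / 10000 * 2 * ((1 + B * s) * Ph s / s) := by gcongr
        _ = _ := by ring
    rw [div_le_iff₀ hBs]
    refine le_trans ?_ h7
    calc lam * δ * (k + 21 / 10) = δ * (lam * (k + 21 / 10)) := by ring
      _ ≤ δ * (5756 / 10000 * 2 * (k * vpi) * (25667 / 10000 + 7568 / 10000 * t)) := by gcongr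
      _ = 5756 / 10000 * 2 * (B * (25667 / 10000 + 7568 / 10000 * t)) := by rw [hB]; ring
      _ ≤ 5756 / 10000 * 2 * (B * (-log B + 1 - log 2)) := by gcongr
  -- term 2
  have hT2 : 21 / 10 * δ ≤ 3 / 10 * (2 * Ph s / s) := by
    have h1 := term2 hδ hδ1 hs hs1
    have h2 : 3 / 10 * (2 * Ph s / s) = 6 / 10 * Ph s / s := by ring
    rw [h2, le_div_iff₀ hs]
    linarith
  -- term 1
  have hT1' : h ^ 2 * δ / (1 + s) ≤ 744 / 10000 * (2 * Ph s / s) := by
    have h1 := Ph_ge hs
    have h2 : 1 / (1 + s) ≤ 2 * Ph s / s := by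
      rw [div_le_div_iff₀ (by positivity) hs]
      have h3 : s / (2 + s) * (2 + s) = s := by field_simp
      have h4 : s / (2 + s) * (2 + s) ≤ Ph s * (2 + s) :=
        mul_le_mul_of_nonneg_right h1 (by positivity)
      rw [h3] at h4
      have h5 : 0 < s * Ph s := mul_pos hs hP
      linarith
    calc h ^ 2 * δ / (1 + s) = h ^ 2 * δ * (1 / (1 + s)) := by ring
      _ ≤ 744 / 10000 * (2 * Ph s / s) := by
          apply mul_le_mul hT1 h2 (by positivity) (by norm_num)
  have hfin : 2 * ((1 + s) * log (1 + s) - s) / s ^ 2 = 2 * Ph s / s := by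
    rw [← s_mul_Ph hs]
    field_simp
  rw [hfin]
  linarith


/-- second term, general constants: `K (d s) ≤ Φ(s)` with `K = 34375/10000` for `d s ≤ 103/100` -/
theorem term2' {c d s : ℝ} (hd : d = exp (-c)) (hd1 : d ≤ 1 / 100) (hs : 0 < s)
    (hs1 : d * s ≤ 103 / 100) : 34375 / 10000 * (d * s) ≤ Ph s := by
  have hd0 : 0 < d := by rw [hd]; exact exp_pos _
  rcases le_total s 26 with h26 | h26
  · have h1 := Ph_ge hs
    have h2 : s / 28 ≤ s / (2 + s) := by
      apply div_le_div_of_nonneg_left hs.le (by positivity) (by linarith)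
    nlinarith
  · have h1 := Ph_ge_log hs
    have h2 : log 26 ≤ log (1 + s) := log_le_log (by norm_num) (by linarith)
    have h3 := log_26_ge
    rcases le_total (d * s) (628 / 1000) with h4 | h4
    · nlinarith
    · have hc : log 100 ≤ c := by
        have h5 : log d ≤ log (1 / 100) := log_le_log hd0 hd1
        rw [hd, log_exp, one_div, log_inv] at h5
        linarith
      have h5 := log100_ge
      have h6 : log (d * s) + c ≤ log (1 + s) := by
        have h7 : log (d * s) = -c + log s := by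
          rw [log_mul hd0.ne' hs.ne', hd, log_exp]
        have h8 : log s ≤ log (1 + s) := log_le_log hs (by linarith)
        linarith
      have hy : 0 < d * s := by positivity
      have h7 : 1 - (d * s)⁻¹ ≤ log (d * s) := one_sub_inv_le_log_of_pos hy
      have h8 : (d * s) * (d * s)⁻¹ = 1 := mul_inv_cancel₀ hy.ne'
      have h9 : (d * s)⁻¹ ≤ 4604 / 1000 - 34375 / 10000 * (d * s) := by
        rw [inv_le_iff_one_le_mul₀ hy]
        nlinarith
      linarith

set_option maxHeartbeats 1000000 in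
/-- **The zone `s > 0` in the form used by helper47**: `d = e^(-c) ≤ 1/100`,
`L ≤ (log c + 3/5)/(99/100)`, `10 ≤ k ≤ (21/10)(1 + .276 c)²`, `97/100 ≤ vp ≤ 1`,
`H d ≤ 3/25`, `1 ≤ z`, `d z ≤ 103/100`. -/
theorem endZ {c d L k vp H z : ℝ} (hd : d = exp (-c)) (hd1 : d ≤ 1 / 100)
    (hL : L ≤ (log c + 3 / 5) / (99 / 100)) (hk10 : 10 ≤ k)
    (hk : k ≤ 21 / 10 * (1 + 276 / 1000 * c) ^ 2) (hv1 : 97 / 100 ≤ vp) (hv2 : vp ≤ 1)
    (hH : H * d ≤ 3 / 25) (hz : 1 ≤ z) (hz1 : d * z ≤ 103 / 100) :
    (z - 1) ^ 2 * (H * d / z + 11 / 5 * d + L * d * (k + 2) / (1 + k * d * vp * (z - 1)))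
      ≤ 19 / 10 * (z * log z - z + 1) := by
  rcases hz.eq_or_lt with rfl | hz'
  · simp
  obtain ⟨s, hs⟩ : ∃ s, s = z - 1 := ⟨_, rfl⟩
  have hs0 : 0 < s := by linarith
  have hzs : z = 1 + s := by linarith
  have hd0 : 0 < d := by rw [hd]; exact exp_pos _
  have hc : log 100 ≤ c := by
    have h5 : log d ≤ log (1 / 100) := log_le_log hd0 hd1
    rw [hd, log_exp, one_div, log_inv] at h5
    linarith
  have hL1 := log100_ge
  have hL2 := log100_le
  have hc0 : 0 < c := by linarith
  obtain ⟨t, ht⟩ : ∃ t, t = c - log 100 := ⟨_, rfl⟩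
  have ht0 : 0 ≤ t := by linarith
  have hdt : d = 1 / 100 * exp (-t) := by
    rw [hd, ht]
    have : -c = -(log 100) + -(c - log 100) := by ring
    rw [this, exp_add, exp_neg (log 100), exp_log (by norm_num)]
    norm_num
  have hexp : exp (-t) * (1 + t + t ^ 2 / 2) ≤ 1 := by
    have h1 := Real.quadratic_le_exp_of_nonneg ht0
    have h2 : exp (-t) * exp t = 1 := by rw [← exp_add]; simp
    have h3 : exp (-t) * (1 + t + t ^ 2 / 2) ≤ exp (-t) * exp t :=
      mul_le_mul_of_nonneg_left h1 (exp_pos _).le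
    linarith
  have hE0 : 0 < exp (-t) := exp_pos _
  have hlogc : log c ≤ 15275 / 10000 + 2174 / 10000 * t := by
    have h1 : log c = log (46 / 10) + log (c / (46 / 10)) := by
      rw [← log_mul (by norm_num) (by positivity)]
      congr 1
      field_simp
    have h2 := log_le_sub_one_of_pos (x := c / (46 / 10)) (by positivity)
    have h3 := log_46_le
    have h4 : c / (46 / 10) = (log 100 + t) * (10 / 46) := by rw [ht]; ring
    rw [h4] at h2 h1
    rw [h1]
    linarith
  have hLt : L ≤ 2149 / 1000 + 22 / 100 * t := by linarith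
  have hv0 : 0 < vp := by linarith
  have hk0 : 0 < k := by linarith
  -- k
  have hK0 : 0 < 1 + 276 / 1000 * c := by linarith
  have hlogk : log k ≤ 23829 / 10000 + 2432 / 10000 * t := by
    have h0 : log k ≤ log (21 / 10 * (1 + 276 / 1000 * c) ^ 2) := log_le_log hk0 hk
    have h1 : log (21 / 10 * (1 + 276 / 1000 * c) ^ 2)
        = log (21 / 10) + 2 * log (1 + 276 / 1000 * c) := by
      rw [log_mul (by norm_num) (by positivity), log_pow]
      norm_num
    have h2 : log (1 + 276 / 1000 * c)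
        = log (227 / 100) + log ((1 + 276 / 1000 * c) / (227 / 100)) := by
      rw [← log_mul (by norm_num) (by positivity)]
      congr 1
      field_simp
    have h3 := log_le_sub_one_of_pos (x := (1 + 276 / 1000 * c) / (227 / 100)) (by positivity)
    have h4 := log_227_le
    have h5 : log (21 / 10 : ℝ) ≤ 74196 / 100000 := by
      have h6 : log (105 / 100 : ℝ) ≤ 488 / 10000 :=
        log_le_of_sq (by norm_num) (by norm_num) (by norm_num)
      have h7 : log (21 / 10 : ℝ) = log 2 + log (105 / 100) := by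
        rw [← log_mul (by norm_num) (by norm_num)]
        norm_num
      have h8 := Real.log_two_lt_d9
      rw [h7]
      linarith
    have h6 : (1 + 276 / 1000 * c) / (227 / 100)
        = (1 + 276 / 1000 * (log 100 + t)) * (100 / 227) := by rw [ht]; ring
    rw [h6] at h3 h2
    rw [h1, h2] at h0
    linarith
  have hkd : k * d ≤ 11 / 100 := by
    have h1 : 1 + 276 / 1000 * c ≤ 22712 / 10000 + 276 / 1000 * t := by linarith
    have h2 : (1 + 276 / 1000 * c) ^ 2 ≤ (22712 / 10000 + 276 / 1000 * t) ^ 2 :=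
      pow_le_pow_left₀ hK0.le h1 2
    have h3 : k ≤ 11 * (1 + t + t ^ 2 / 2) := by nlinarith
    have h4 : k * exp (-t) ≤ 11 := by
      calc k * exp (-t) ≤ (11 * (1 + t + t ^ 2 / 2)) * exp (-t) :=
            mul_le_mul_of_nonneg_right h3 hE0.le
        _ = 11 * (exp (-t) * (1 + t + t ^ 2 / 2)) := by ring
        _ ≤ 11 * 1 := by gcongr
        _ = 11 := by ring
    rw [hdt]
    linarith
  have hP := Ph_pos hs0
  obtain ⟨B, hB⟩ : ∃ B, B = k * d * vp := ⟨_, rfl⟩
  have hB0 : 0 < B := by rw [hB]; positivity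
  have hB1 : B ≤ 11 / 100 := by
    rw [hB]
    calc k * d * vp ≤ k * d * 1 := by gcongr
      _ ≤ 11 / 100 := by linarith
  have hlogB : 22211 / 10000 + 7568 / 10000 * t ≤ -log B := by
    have h1 : log B = log k + -c + log vp := by
      rw [hB, log_mul (by positivity) hv0.ne', log_mul hk0.ne' hd0.ne', hd, log_exp]
    have h2 : log vp ≤ 0 := log_nonpos hv0.le hv2
    have h4 : c = log 100 + t := by rw [ht]; ring
    rw [h1]
    linarith
  have hA := lemmaB hB0 (hB1.trans (by norm_num)) hs0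
  have hBs : 0 < 1 + B * s := by positivity
  have hT3 : L * d * (k + 2) / (1 + B * s) ≤ 51 / 100 * (2 * Ph s / s) := by
    have h1 : L * (k + 2)
        ≤ 51 / 100 * 2 * (k * vp) * (26911 / 10000 + 7568 / 10000 * t) := by
      have h2 : k + 2 ≤ 12 / 10 * k := by linarith
      have h3 : L * (k + 2) ≤ (2149 / 1000 + 22 / 100 * t) * (12 / 10 * k) := by
        apply mul_le_mul hLt h2 (by linarith) (by positivity)
      have h4 : k * (97 / 100) ≤ k * vp := mul_le_mul_of_nonneg_left hv1 hk0.le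
      have h5 : 51 / 100 * 2 * (k * (97 / 100)) * (26911 / 10000 + 7568 / 10000 * t)
          ≤ 51 / 100 * 2 * (k * vp) * (26911 / 10000 + 7568 / 10000 * t) := by
        gcongr
      refine h3.trans (le_trans ?_ h5)
      have h6 : 0 ≤ k * t := by positivity
      linarith
    have h7 : 51 / 100 * 2 * (B * (-log B + 47 / 100)) ≤
        51 / 100 * (2 * Ph s / s) * (1 + B * s) := by
      have h8 : B * (-log B + 47 / 100) ≤ (1 + B * s) * Ph s / s := by
        rw [le_div_iff₀ hs0]
        calc B * (-log B + 47 / 100) * s = B * s * (-log B + 47 / 100) := by ring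
          _ ≤ _ := hA
      calc 51 / 100 * 2 * (B * (-log B + 47 / 100))
          ≤ 51 / 100 * 2 * ((1 + B * s) * Ph s / s) := by gcongr
        _ = _ := by ring
    rw [div_le_iff₀ hBs]
    refine le_trans ?_ h7
    calc L * d * (k + 2) = d * (L * (k + 2)) := by ring
      _ ≤ d * (51 / 100 * 2 * (k * vp) * (26911 / 10000 + 7568 / 10000 * t)) := by gcongr
      _ = 51 / 100 * 2 * (B * (26911 / 10000 + 7568 / 10000 * t)) := by rw [hB]; ring
      _ ≤ 51 / 100 * 2 * (B * (-log B + 47 / 100)) := by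
          apply mul_le_mul_of_nonneg_left _ (by norm_num)
          apply mul_le_mul_of_nonneg_left _ hB0.le
          linarith
  have hT2 : 11 / 5 * d ≤ 32 / 100 * (2 * Ph s / s) := by
    have hds : d * s ≤ 103 / 100 := by
      rw [hs]
      nlinarith
    have h1 := term2' hd hd1 hs0 hds
    have h2 : 32 / 100 * (2 * Ph s / s) = 64 / 100 * Ph s / s := by ring
    rw [h2, le_div_iff₀ hs0]
    linarith
  have hT1 : H * d / z ≤ 12 / 100 * (2 * Ph s / s) := by
    have h1 := Ph_ge hs0
    have h2 : 1 / (1 + s) ≤ 2 * Ph s / s := by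
      rw [div_le_div_iff₀ (by positivity) hs0]
      have h3 : s / (2 + s) * (2 + s) = s := by field_simp
      have h4 : s / (2 + s) * (2 + s) ≤ Ph s * (2 + s) :=
        mul_le_mul_of_nonneg_right h1 (by positivity)
      rw [h3] at h4
      have h5 : 0 < s * Ph s := mul_pos hs0 hP
      linarith
    have h3 : 0 < 1 / (1 + s) := by positivity
    rw [hzs]
    calc H * d / (1 + s) = H * d * (1 / (1 + s)) := by ring
      _ ≤ 3 / 25 * (1 / (1 + s)) := mul_le_mul_of_nonneg_right hH h3.le
      _ ≤ 3 / 25 * (2 * Ph s / s) := by gcongr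
      _ = 12 / 100 * (2 * Ph s / s) := by ring
  have hfin : 19 / 10 * (z * log z - z + 1) = (z - 1) ^ 2 * (95 / 100 * (2 * Ph s / s)) := by
    have h1 := s_mul_Ph hs0
    have h2 : z * log z - z + 1 = s * Ph s := by rw [h1, hzs]; ring
    rw [h2, ← hs]
    field_simp
    ring
  rw [hfin]
  apply mul_le_mul_of_nonneg_left _ (sq_nonneg _)
  rw [← hs, ← hB]
  linarith

set_option maxHeartbeats 1000000 in
/-- **The zone `s > 0` with the pole of the star condition**: `d = e^(-c) ≤ 1/100`,
`L ≤ (log c + 3/5)/(99/100)`, `11 ≤ k ≤ (100/99)(3 + (9/8) c + (81/512) c²)`,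
`97/100 ≤ vp ≤ 1`, `H d ≤ 3/25`, `1 ≤ z`, `d z ≤ 103/100`. -/
theorem endZ2 {c d L k vp H z : ℝ} (hd : d = exp (-c)) (hd1 : d ≤ 1 / 100)
    (hL : L ≤ (log c + 3 / 5) / (99 / 100)) (hk11 : 11 ≤ k)
    (hk : k ≤ (3 + 9 / 8 * c + 81 / 512 * c ^ 2) * (100 / 99)) (hv1 : 97 / 100 ≤ vp) (hv2 : vp ≤ 1)
    (hH : H * d ≤ 3 / 25) (hz : 1 ≤ z) (hz1 : d * z ≤ 103 / 100) :
    (z - 1) ^ 2 * (H * d / z + 11 / 5 * d + L * d * (k + 2) / (1 + k * d * vp * (z - 1)))
      ≤ 19 / 10 * (z * log z - z + 1) := by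
  rcases hz.eq_or_lt with rfl | hz'
  · simp
  obtain ⟨s, hs⟩ : ∃ s, s = z - 1 := ⟨_, rfl⟩
  have hs0 : 0 < s := by linarith
  have hzs : z = 1 + s := by linarith
  have hd0 : 0 < d := by rw [hd]; exact exp_pos _
  have hc : log 100 ≤ c := by
    have h5 : log d ≤ log (1 / 100) := log_le_log hd0 hd1
    rw [hd, log_exp, one_div, log_inv] at h5
    linarith
  have hL1 := log100_ge
  have hL2 := log100_le
  have hc0 : 0 < c := by linarith
  obtain ⟨t, ht⟩ : ∃ t, t = c - log 100 := ⟨_, rfl⟩
  have ht0 : 0 ≤ t := by linarith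
  have hdt : d = 1 / 100 * exp (-t) := by
    rw [hd, ht]
    have : -c = -(log 100) + -(c - log 100) := by ring
    rw [this, exp_add, exp_neg (log 100), exp_log (by norm_num)]
    norm_num
  have hexp : exp (-t) * (1 + t + t ^ 2 / 2) ≤ 1 := by
    have h1 := Real.quadratic_le_exp_of_nonneg ht0
    have h2 : exp (-t) * exp t = 1 := by rw [← exp_add]; simp
    have h3 : exp (-t) * (1 + t + t ^ 2 / 2) ≤ exp (-t) * exp t :=
      mul_le_mul_of_nonneg_left h1 (exp_pos _).le
    linarith
  have hE0 : 0 < exp (-t) := exp_pos _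
  have hlogc : log c ≤ 15275 / 10000 + 2174 / 10000 * t := by
    have h1 : log c = log (46 / 10) + log (c / (46 / 10)) := by
      rw [← log_mul (by norm_num) (by positivity)]
      congr 1
      field_simp
    have h2 := log_le_sub_one_of_pos (x := c / (46 / 10)) (by positivity)
    have h3 := log_46_le
    have h4 : c / (46 / 10) = (log 100 + t) * (10 / 46) := by rw [ht]; ring
    rw [h4] at h2 h1
    rw [h1]
    linarith
  have hLt : L ≤ 2149 / 1000 + 22 / 100 * t := by linarith
  have hv0 : 0 < vp := by linarith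
  have hk0 : 0 < k := by linarith
  -- k
  have hkt : k ≤ 116532 / 10000 * (1 + 1172 / 10000 * t) ^ 2 := by
    have hcu : c ≤ 46054 / 10000 + t := by linarith
    have h1 : c ^ 2 ≤ (46054 / 10000 + t) ^ 2 := pow_le_pow_left₀ hc0.le hcu 2
    nlinarith
  have hlogk : log k ≤ 24579 / 10000 + 2344 / 10000 * t := by
    have h0 : log k ≤ log (116532 / 10000 * (1 + 1172 / 10000 * t) ^ 2) := log_le_log hk0 hkt
    have h1 : log (116532 / 10000 * (1 + 1172 / 10000 * t) ^ 2)
        = log (116532 / 10000) + 2 * log (1 + 1172 / 10000 * t) := by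
      rw [log_mul (by norm_num) (by positivity), log_pow]
      norm_num
    have h2 := log_le_sub_one_of_pos (x := 1 + 1172 / 10000 * t) (by positivity)
    have h3 : log (116532 / 10000 : ℝ) ≤ 24579 / 10000 := by
      have h6 : log (29133 / 20000 : ℝ) ≤ 37842 / 100000 :=
        log_le_of_sq (by norm_num) (by norm_num) (by norm_num)
      have h7 : log (116532 / 10000 : ℝ) = 3 * log 2 + log (29133 / 20000) := by
        rw [show (116532 / 10000 : ℝ) = 2 ^ 3 * (29133 / 20000) by norm_num,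
          log_mul (by norm_num) (by norm_num), log_pow]
        norm_num
      have h8 := Real.log_two_lt_d9
      rw [h7]
      linarith
    linarith
  have hkd : k * d ≤ 12 / 100 := by
    have h3 : k ≤ 12 * (1 + t + t ^ 2 / 2) := by nlinarith
    have h4 : k * exp (-t) ≤ 12 := by
      calc k * exp (-t) ≤ (12 * (1 + t + t ^ 2 / 2)) * exp (-t) :=
            mul_le_mul_of_nonneg_right h3 hE0.le
        _ = 12 * (exp (-t) * (1 + t + t ^ 2 / 2)) := by ring
        _ ≤ 12 * 1 := by gcongr
        _ = 12 := by ring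
    rw [hdt]
    linarith
  have hP := Ph_pos hs0
  obtain ⟨B, hB⟩ : ∃ B, B = k * d * vp := ⟨_, rfl⟩
  have hB0 : 0 < B := by rw [hB]; positivity
  have hB1 : B ≤ 12 / 100 := by
    rw [hB]
    calc k * d * vp ≤ k * d * 1 := by gcongr
      _ ≤ 12 / 100 := by linarith
  have hlogB : 21461 / 10000 + 7656 / 10000 * t ≤ -log B := by
    have h1 : log B = log k + -c + log vp := by
      rw [hB, log_mul (by positivity) hv0.ne', log_mul hk0.ne' hd0.ne', hd, log_exp]
    have h2 : log vp ≤ 0 := log_nonpos hv0.le hv2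
    have h4 : c = log 100 + t := by rw [ht]; ring
    rw [h1]
    linarith
  have hA := lemmaB hB0 hB1 hs0
  have hBs : 0 < 1 + B * s := by positivity
  have hT3 : L * d * (k + 2) / (1 + B * s) ≤ 51 / 100 * (2 * Ph s / s) := by
    have h1 : L * (k + 2)
        ≤ 51 / 100 * 2 * (k * vp) * (26161 / 10000 + 7656 / 10000 * t) := by
      have h2 : k + 2 ≤ 13 / 11 * k := by linarith
      have h3 : L * (k + 2) ≤ (2149 / 1000 + 22 / 100 * t) * (13 / 11 * k) := by
        apply mul_le_mul hLt h2 (by linarith) (by positivity)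
      have h4 : k * (97 / 100) ≤ k * vp := mul_le_mul_of_nonneg_left hv1 hk0.le
      have h5 : 51 / 100 * 2 * (k * (97 / 100)) * (26161 / 10000 + 7656 / 10000 * t)
          ≤ 51 / 100 * 2 * (k * vp) * (26161 / 10000 + 7656 / 10000 * t) := by
        gcongr
      refine h3.trans (le_trans ?_ h5)
      have h6 : 0 ≤ k * t := by positivity
      linarith
    have h7 : 51 / 100 * 2 * (B * (-log B + 47 / 100)) ≤
        51 / 100 * (2 * Ph s / s) * (1 + B * s) := by
      have h8 : B * (-log B + 47 / 100) ≤ (1 + B * s) * Ph s / s := by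
        rw [le_div_iff₀ hs0]
        calc B * (-log B + 47 / 100) * s = B * s * (-log B + 47 / 100) := by ring
          _ ≤ _ := hA
      calc 51 / 100 * 2 * (B * (-log B + 47 / 100))
          ≤ 51 / 100 * 2 * ((1 + B * s) * Ph s / s) := by gcongr
        _ = _ := by ring
    rw [div_le_iff₀ hBs]
    refine le_trans ?_ h7
    calc L * d * (k + 2) = d * (L * (k + 2)) := by ring
      _ ≤ d * (51 / 100 * 2 * (k * vp) * (26161 / 10000 + 7656 / 10000 * t)) := by gcongr
      _ = 51 / 100 * 2 * (B * (26161 / 10000 + 7656 / 10000 * t)) := by rw [hB]; ring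
      _ ≤ 51 / 100 * 2 * (B * (-log B + 47 / 100)) := by
          apply mul_le_mul_of_nonneg_left _ (by norm_num)
          apply mul_le_mul_of_nonneg_left _ hB0.le
          linarith
  have hT2 : 11 / 5 * d ≤ 32 / 100 * (2 * Ph s / s) := by
    have hds : d * s ≤ 103 / 100 := by
      rw [hs]
      nlinarith
    have h1 := term2' hd hd1 hs0 hds
    have h2 : 32 / 100 * (2 * Ph s / s) = 64 / 100 * Ph s / s := by ring
    rw [h2, le_div_iff₀ hs0]
    linarith
  have hT1 : H * d / z ≤ 12 / 100 * (2 * Ph s / s) := by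
    have h1 := Ph_ge hs0
    have h2 : 1 / (1 + s) ≤ 2 * Ph s / s := by
      rw [div_le_div_iff₀ (by positivity) hs0]
      have h3 : s / (2 + s) * (2 + s) = s := by field_simp
      have h4 : s / (2 + s) * (2 + s) ≤ Ph s * (2 + s) :=
        mul_le_mul_of_nonneg_right h1 (by positivity)
      rw [h3] at h4
      have h5 : 0 < s * Ph s := mul_pos hs0 hP
      linarith
    have h3 : 0 < 1 / (1 + s) := by positivity
    rw [hzs]
    calc H * d / (1 + s) = H * d * (1 / (1 + s)) := by ring
      _ ≤ 3 / 25 * (1 / (1 + s)) := mul_le_mul_of_nonneg_right hH h3.le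
      _ ≤ 3 / 25 * (2 * Ph s / s) := by gcongr
      _ = 12 / 100 * (2 * Ph s / s) := by ring
  have hfin : 19 / 10 * (z * log z - z + 1) = (z - 1) ^ 2 * (95 / 100 * (2 * Ph s / s)) := by
    have h1 := s_mul_Ph hs0
    have h2 : z * log z - z + 1 = s * Ph s := by rw [h1, hzs]; ring
    rw [h2, ← hs]
    field_simp
    ring
  rw [hfin]
  apply mul_le_mul_of_nonneg_left _ (sq_nonneg _)
  rw [← hs, ← hB]
  linarith

end Pool.Agent.Lib.QNL.EndS
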