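import Pool.Agent.Lib.QNL.Reg95
import Pool.Agent.Lib.QNL.Brk38
import Pool.Agent.Lib.QNL.EndS74

/-!
The end `a → 1` of the certificate, algebra: reduction of `TOP ≤ 0` to one inequality
`K (s-1)² (E + β) ≤ 2a (s log s - s + 1)`.
-/

set_option autoImplicit false

namespace Pool.Agent.Lib.QNL.End14

open Set
open Pool.Agent.Lib.QNL.CG

/-- `σ` -/
noncomputable def sg (m h t : ℝ) : ℝ := 1 + m * h * t / (1 + h * t)

/-- `Q` -/
noncomputable def Qn (e m h t : ℝ) : ℝ := 1 + (1 - e) / e * t + m * t / (1 + h * t)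

/-- `E` -/
noncomputable def EE (e m h t : ℝ) : ℝ :=
  (1 - 2 * e) * m * (h + 2 - t) / (1 + h * t) +
    (1 + 2 * e * (1 + m) * (1 + (1 - 2 * e) * (1 + m))) -
    (1 - 2 * e) ^ 2 / (1 - e) * (e * (1 + m) ^ 2 * t) +
    (1 - 2 * e) * (1 - t) ^ 2 * (sg m h t * (sg m h t - 2 * e * (1 + m))) / Qn e m h t

theorem QQ_neg {e m h t : ℝ} (he : e ≠ 0) (hP : 1 + h * t ≠ 0) :
    QQ (1 - e) h m (-t) = e * (1 + h * t) * Qn e m h t := by
  have e1 : m * t / (1 + h * t) * (1 + h * t) = m * t := div_mul_cancel₀ _ hP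
  have e2 : (1 - e) / e * e = 1 - e := div_mul_cancel₀ _ he
  have e3 : e * (1 + h * t) * Qn e m h t = e * (1 + h * t) +
      ((1 - e) / e * e) * t * (1 + h * t) + e * (m * t / (1 + h * t) * (1 + h * t)) := by
    unfold Qn; ring
  rw [e3, e1, e2]
  unfold QQ
  ring

theorem s_eq {e m h t : ℝ} (he : e ≠ 0) (hP : 1 + h * t ≠ 0) :
    1 + t * ((1 + e * m) / e) = Qn e m h t + t * sg m h t := by
  have e1 : m * t / (1 + h * t) + t * (m * h * t / (1 + h * t)) = m * t := by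
    rw [← mul_div_assoc, ← add_div, div_eq_iff hP]
    ring
  have e2 : t * ((1 + e * m) / e) = (1 - e) / e * t + t + m * t := by
    rw [← mul_div_assoc, div_eq_iff he]
    have : (1 - e) / e * e = 1 - e := div_mul_cancel₀ _ he
    linear_combination (-t) * this
  have e3 : Qn e m h t + t * sg m h t = 1 + (1 - e) / e * t + t +
      (m * t / (1 + h * t) + t * (m * h * t / (1 + h * t))) := by
    unfold Qn sg; ring
  rw [e3, e1, e2]
  ring

/-- **the identity**, the version with atoms `P = 1 + ht`, `D = e P Q` -/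
theorem ident_aux {e m h t P D : ℝ} (he : e ≠ 0) (ha : 1 - e ≠ 0) (hP : P ≠ 0)
    (hD : D ≠ 0) (hPe : P = 1 + h * t)
    (hDe : D = (e + t * (1 + e * m)) * P - e * t * (P + m * h * t)) :
    (((e + t * (1 + e * m)) / e) ^ 2 - 2 * e * (1 + m) * t * ((e + t * (1 + e * m)) / e)) *
      (1 + (2 * (1 - e) - 1) * (1 / (1 - e) * (-t) * (P + m * e * ((1 - e) + e * t)) / D)) +
      (2 * (1 - e) - 1) - 2 * (1 - e) * ((e + t * (1 + e * m)) / e) -
      (2 * (1 - e) - 1) / (1 - e) * (1 * (1 + m * (1 - e) * e) / ((1 - e) * e)) *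
        ((1 - e) * (-t)) =
    2 * (1 - e) * t + t ^ 2 * ((1 - 2 * e) * m * (h + 2 - t) / P +
    (1 + 2 * e * (1 + m) * (1 + (1 - 2 * e) * (1 + m))) -
    (1 - 2 * e) ^ 2 / (1 - e) * (e * (1 + m) ^ 2 * t) +
    (1 - 2 * e) * (1 - t) ^ 2 * ((P + m * h * t) * ((P + m * h * t) - 2 * e * (1 + m) * P)) * e /
      (P * D)) := by
  field_simp
  subst hDe
  subst hPe
  ring

theorem NN_neg (e m h t : ℝ) :
    NN (1 - e) h m (-t) = 1 + h * t + m * e * ((1 - e) + e * t) := by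
  unfold NN; ring

/-- **the identity** -/
theorem ident {e m h t s : ℝ} (he : e ≠ 0) (ha : 1 - e ≠ 0) (hP : 1 + h * t ≠ 0)
    (hQ : Qn e m h t ≠ 0) (hs : s = 1 + t * ((1 + e * m) / e)) :
    (s ^ 2 - 2 * e * (1 + m) * t * s) * (1 + (2 * (1 - e) - 1) * UU 1 (1 - e) h m (-t)) +
      (2 * (1 - e) - 1) - 2 * (1 - e) * s -
      (2 * (1 - e) - 1) / (1 - e) * lamN 1 (1 - e) m * ((1 - e) * (-t)) =
    2 * (1 - e) * t + t ^ 2 * EE e m h t := by
  have hs' : s = (e + t * (1 + e * m)) / e := by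
    rw [hs, eq_div_iff he, add_mul, mul_assoc t, div_mul_cancel₀ _ he]
    ring
  have hsq := s_eq (m := m) he hP
  rw [← hs] at hsq
  obtain ⟨P, hPe⟩ : ∃ P, P = 1 + h * t := ⟨_, rfl⟩
  obtain ⟨q, hq⟩ : ∃ q, q = Qn e m h t := ⟨_, rfl⟩
  obtain ⟨g, hg⟩ : ∃ g, g = sg m h t := ⟨_, rfl⟩
  have hgP : g * P = P + m * h * t := by
    rw [hg, hPe]
    unfold sg
    rw [add_mul, div_mul_cancel₀ _ hP]
    ring
  have hes : e * s = e + t * (1 + e * m) := by
    rw [hs', mul_div_cancel₀ _ he]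
  have hD : e * P * q = (e + t * (1 + e * m)) * P - e * t * (P + m * h * t) := by
    rw [← hgP, ← hes, hsq, ← hq, ← hg]
    ring
  have hUU : UU 1 (1 - e) h m (-t) =
      1 / (1 - e) * (-t) * (P + m * e * ((1 - e) + e * t)) / (e * P * q) := by
    unfold UU
    rw [QQ_neg he hP, NN_neg, ← hPe, ← hq]
  have hl : lamN 1 (1 - e) m = 1 * (1 + m * (1 - e) * e) / ((1 - e) * e) := by
    unfold lamN
    rw [show 1 - (1 - e) = e by ring]
  have hE : EE e m h t = (1 - 2 * e) * m * (h + 2 - t) / P +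
      (1 + 2 * e * (1 + m) * (1 + (1 - 2 * e) * (1 + m))) -
      (1 - 2 * e) ^ 2 / (1 - e) * (e * (1 + m) ^ 2 * t) +
      (1 - 2 * e) * (1 - t) ^ 2 * ((P + m * h * t) * ((P + m * h * t) -
        2 * e * (1 + m) * P)) * e / (P * (e * P * q)) := by
    unfold EE
    rw [← hPe, ← hq, ← hg, ← hgP]
    have hP0 : P ≠ 0 := by rw [hPe]; exact hP
    have hq0 : q ≠ 0 := by rw [hq]; exact hQ
    have e4 : (1 - 2 * e) * (1 - t) ^ 2 * (g * (g - 2 * e * (1 + m))) / q =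
        (1 - 2 * e) * (1 - t) ^ 2 * (g * P * (g * P - 2 * e * (1 + m) * P)) * e /
          (P * (e * P * q)) := by
      field_simp
    rw [e4]
  rw [hUU, hl, hE, hs']
  refine ident_aux he ha (by rw [hPe]; exact hP) ?_ hPe hD
  have hP0 : P ≠ 0 := by rw [hPe]; exact hP
  have hq0 : q ≠ 0 := by rw [hq]; exact hQ
  exact mul_ne_zero (mul_ne_zero he hP0) hq0

theorem coef_nonneg {e m h t : ℝ} (he0 : 0 < e) (he1 : e ≤ 1 / 4) (hm : 0 ≤ m) (hh : 0 ≤ h)
    (ht0 : -1 ≤ t) (ht1 : t ≤ 1) (hP : 0 < 1 + h * t) (hQ : 0 < QQ (1 - e) h m (-t)) :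
    0 ≤ 1 + (2 * (1 - e) - 1) * UU 1 (1 - e) h m (-t) := by
  have ha : 0 < 1 - e := by linarith
  have hth : 0 < 1 - 2 * e := by linarith
  have hN : 0 < NN (1 - e) h m (-t) := by
    rw [NN_neg]
    have h1 : 0 < (1 - e) + e * t := by nlinarith
    positivity
  have e1 : 1 + (2 * (1 - e) - 1) * UU 1 (1 - e) h m (-t) =
      ((1 - e) * QQ (1 - e) h m (-t) - (1 - 2 * e) * t * NN (1 - e) h m (-t)) /
        ((1 - e) * QQ (1 - e) h m (-t)) := by
    unfold UU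
    generalize QQ (1 - e) h m (-t) = q at hQ
    generalize NN (1 - e) h m (-t) = N
    field_simp
    ring
  rw [e1]
  apply div_nonneg _ (by positivity)
  rcases le_total t 0 with h0 | h0
  · have h2 : 0 ≤ (1 - 2 * e) * (-t) * NN (1 - e) h m (-t) := by
      have : 0 ≤ -t := by linarith
      positivity
    have h3 : 0 < (1 - e) * QQ (1 - e) h m (-t) := by positivity
    linarith
  · have e2 : (1 - e) * QQ (1 - e) h m (-t) - (1 - 2 * e) * t * NN (1 - e) h m (-t) =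
        (1 + h * t) * ((1 - e) * e + t * e ^ 2) +
          m * e * t * ((1 - e) - (1 - 2 * e) * ((1 - e) + e * t)) := by
      rw [NN_neg]
      unfold QQ
      ring
    rw [e2]
    have h4 : 0 ≤ (1 - e) - (1 - 2 * e) * ((1 - e) + e * t) := by
      have : (1 - 2 * e) * ((1 - e) + e * t) ≤ (1 - 2 * e) * 1 :=
        mul_le_mul_of_nonneg_left (by nlinarith) hth.le
      linarith
    positivity

/-- the quadratic form of the share `0` -/
theorem top0_le {a x : ℝ} (ha0 : 0 < a) (ha1 : a < 1) (hx : 0 ≤ x) :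
    x ^ 2 + (2 * a - 1) - 2 * a * x ^ (1 / a) ≤ (x - 1) ^ 2 := by
  have h1 : 1 ≤ 1 / a := by rw [le_div_iff₀ ha0]; linarith
  have h2 := one_add_mul_self_le_rpow_one_add (s := x - 1) (by linarith) h1
  rw [add_sub_cancel] at h2
  have h3 := mul_le_mul_of_nonneg_left h2 ha0.le
  have e1 : a * (1 + 1 / a * (x - 1)) = a + (x - 1) := by field_simp
  rw [e1] at h3
  nlinarith

theorem sq_le_of_rpow {x r : ℝ} (hx : 0 ≤ x) (hr : 1 ≤ r) : (x - 1) ^ 2 ≤ (x ^ r - 1) ^ 2 := by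
  rcases le_total x 1 with h | h
  · have h1 : x ^ r ≤ x := by
      rcases hx.eq_or_lt with h0 | h0
      · rw [← h0, Real.zero_rpow (by linarith)]
      · have := Real.rpow_le_rpow_of_exponent_ge h0 h hr
        rwa [Real.rpow_one] at this
    have h2 : 0 ≤ x ^ r := Real.rpow_nonneg hx r
    nlinarith
  · have h1 : x ≤ x ^ r := by
      have := Real.rpow_le_rpow_of_exponent_le h hr
      rwa [Real.rpow_one] at this
    nlinarith

theorem rpow_ge_log {s K : ℝ} (hs : 0 ≤ s) (hK : 0 ≤ K) :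
    s * (1 + K * Real.log s) ≤ s ^ (1 + K) := by
  rcases hs.eq_or_lt with h | h
  · rw [← h, zero_mul, Real.zero_rpow (by linarith)]
  · rw [Real.rpow_add h, Real.rpow_one]
    refine mul_le_mul_of_nonneg_left ?_ h.le
    rw [Real.rpow_def_of_pos h]
    have := Real.add_one_le_exp (Real.log s * K)
    linarith

/-- **the reduction** -/
theorem top_of_crit {e m h F w β x : ℝ} (he0 : 0 < e) (he1 : e ≤ 1 / 100) (hm : 0 ≤ m)
    (hem : e * (1 + m) ≤ 1 / 2)
    (hh : 0 ≤ h) (hF0 : 0 < F) (hF1 : F ≤ 1) (hw : w = e / (1 + e * (1 + m)))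
    (hβ : 1 - F ≤ F * β * (e / (1 + e * m)) ^ 2) (hx : 0 ≤ x)
    (hwx : w * x ^ ((1 - w) / (1 - e)) ≤ 1)
    (hY : ∀ Y ∈ Icc (-1 : ℝ) (e / (1 + e * m)), 0 < 1 - h * Y)
    (hQ : ∀ Y ∈ Icc (-1 : ℝ) (e / (1 + e * m)), 0 < QQ (1 - e) h m Y)
    (crit : ∀ s : ℝ, 0 ≤ s → e / (1 + e * m) * (s - 1) ≤ 1 →
      e / (1 + e * m) * (s - 1) ^ 2 * (EE e m h (e / (1 + e * m) * (s - 1)) + β) ≤
        2 * (1 - e) * (s * Real.log s - s + 1)) :
    Glue87.TOP (1 - e) w 0 0 (lamN F (1 - e) m)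
      ((2 * (1 - e) - 1) * UU F (1 - e) h m (w / (1 - w) * (1 - x ^ ((1 - w) / (1 - e))))) x ≤
      0 := by
  have ha : 0 < 1 - e := by linarith
  have hk : 0 < 1 + e * m := by positivity
  have hk1 : 0 < 1 + e * (1 + m) := by positivity
  obtain ⟨K, hK⟩ : ∃ K, K = e / (1 + e * m) := ⟨_, rfl⟩
  have hK0 : 0 < K := by rw [hK]; positivity
  have h1w : 1 - w = (1 + e * m) / (1 + e * (1 + m)) := by
    rw [hw]; field_simp; ring
  have h1w0 : 0 < 1 - w := by rw [h1w]; positivity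
  have hwK : w / (1 - w) = K := by
    rw [h1w, hw, hK]; field_simp
  have hw0 : 0 < w := by rw [hw]; positivity
  have hr1 : 1 ≤ (1 - w) / (1 - e) := by
    rw [le_div_iff₀ ha, h1w, le_div_iff₀ hk1]
    nlinarith [mul_nonneg he0.le hm]
  obtain ⟨r, hr⟩ : ∃ r, r = (1 - w) / (1 - e) := ⟨_, rfl⟩
  obtain ⟨s, hs⟩ : ∃ s, s = x ^ r := ⟨_, rfl⟩
  have hs0 : 0 ≤ s := by rw [hs]; exact Real.rpow_nonneg hx _
  rw [← hr, ← hs] at hwx
  obtain ⟨t, ht⟩ : ∃ t, t = K * (s - 1) := ⟨_, rfl⟩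
  have ht1 : t ≤ 1 := by
    have h3 : t + 1 ≥ 0 ∨ True := Or.inr trivial
    have h4 : w * s ≤ 1 := hwx
    have h5 : t * (1 - w) = w * (s - 1) := by
      rw [ht, ← hwK]; field_simp
    by_contra hcon
    push Not at hcon
    have h6 : 1 * (1 - w) < t * (1 - w) := mul_lt_mul_of_pos_right hcon h1w0
    rw [h5] at h6
    linarith
  have htK : -K ≤ t := by rw [ht]; nlinarith
  have hK1 : K ≤ e := by
    rw [hK, div_le_iff₀ hk]; nlinarith [mul_nonneg he0.le (mul_nonneg he0.le hm)]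
  have ht0 : -1 ≤ t := by linarith
  have hmem : -t ∈ Icc (-1 : ℝ) (e / (1 + e * m)) := by
    rw [← hK]; exact ⟨by linarith, by linarith⟩
  have hP : 0 < 1 + h * t := by
    have := hY _ hmem
    linarith
  have hQt := hQ _ hmem
  have hQn : Qn e m h t ≠ 0 := by
    have h3 := QQ_neg (m := m) he0.ne' hP.ne'
    intro h4
    rw [h4, mul_zero] at h3
    linarith
  -- powers
  have hrK : r * (1 + K) = 1 / (1 - e) := by
    have h3 : 1 + K = 1 / (1 - w) := by rw [← hwK]; field_simp; ring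
    rw [h3, hr]; field_simp
  have hxp : x ^ (1 / (1 - e)) = s ^ (1 + K) := by
    rw [hs, ← Real.rpow_mul hx, hrK]
  have hq : r * (1 + (1 - 2 * e * (1 + m) * K)) = 2 := by
    rw [hr, h1w, hK]; field_simp; ring
  have hx2 : x ^ 2 = s ^ (1 + (1 - 2 * e * (1 + m) * K)) := by
    rw [hs, ← Real.rpow_mul hx, hq]
    norm_num
  have hb : x ^ 2 ≤ s ^ 2 - 2 * e * (1 + m) * t * s := by
    rw [hx2]
    have h3 : 0 ≤ 2 * e * (1 + m) * K := by positivity
    have h4 : 2 * e * (1 + m) * K ≤ 1 := by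
      have : 2 * (e * (1 + m)) * K ≤ 2 * (1 / 2) * 1 :=
        mul_le_mul (by linarith) (by linarith) hK0.le (by norm_num)
      linarith
    have h5 := Brk38.rpow_upper (q := 1 - 2 * e * (1 + m) * K) (by linarith) (by linarith) hs0
    refine h5.trans (le_of_eq ?_)
    rw [ht]; ring
  have hl := rpow_ge_log hs0 hK0.le
  have hst : s = 1 + t * ((1 + e * m) / e) := by
    rw [ht, hK]; field_simp; ring
  have hid := ident he0.ne' ha.ne' hP.ne' hQn hst
  have hco := coef_nonneg he0 (by linarith) hm hh ht0 ht1 hP hQt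
  have hcr := crit s hs0 (by rw [← hK, ← ht]; exact ht1)
  rw [← hK, ← ht] at hcr
  rw [← hK] at hβ
  have h0 := top0_le ha (by linarith : 1 - e < 1) hx
  have hsq : (x - 1) ^ 2 ≤ (s - 1) ^ 2 := by rw [hs, hr]; exact sq_le_of_rpow hx hr1
  -- the value
  have hYt : w / (1 - w) * (1 - x ^ ((1 - w) / (1 - e))) = -t := by
    rw [← hr, ← hs, hwK, ht]; ring
  unfold Glue87.TOP
  rw [hYt]
  have hYt2 : (w * (1 - e) / (1 - w)) * (1 - x ^ ((1 - w) / (1 - e))) = (1 - e) * (-t) := by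
    rw [← hYt]; field_simp
  rw [hYt2, hxp]
  rw [hxp] at h0
  have hUF : UU F (1 - e) h m (-t) = F * UU 1 (1 - e) h m (-t) := by
    unfold UU; ring
  have hlF : lamN F (1 - e) m = F * lamN 1 (1 - e) m := by
    unfold lamN; ring
  rw [hUF, hlF]
  obtain ⟨U, hU⟩ : ∃ U, U = UU 1 (1 - e) h m (-t) := ⟨_, rfl⟩
  obtain ⟨L, hL⟩ : ∃ L, L = lamN 1 (1 - e) m := ⟨_, rfl⟩
  rw [← hU] at hco hid ⊢
  rw [← hL] at hid ⊢
  -- share `F` and share `1 - F`
  have hT1 : x ^ 2 * (1 + (2 * (1 - e) - 1) * U) + (2 * (1 - e) - 1) -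
      2 * (1 - e) * s ^ (1 + K) - (2 * (1 - e) - 1) / (1 - e) * L * ((1 - e) * (-t)) ≤
      -(K ^ 2 * (s - 1) ^ 2 * β) := by
    have h3 := mul_le_mul_of_nonneg_right hb hco
    have h4 := mul_le_mul_of_nonneg_left hl (by linarith : 0 ≤ 2 * (1 - e))
    have h5 := mul_le_mul_of_nonneg_left hcr hK0.le
    have h6 : 2 * (1 - e) * t + t ^ 2 * EE e m h t =
        2 * (1 - e) * K * (s - 1) + K ^ 2 * (s - 1) ^ 2 * EE e m h t := by
      rw [ht]; ring
    clear hcr hb hl hq hrK hF0 hF1 hβ hwx hY hQ crit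
    linarith
  have hT0 : x ^ 2 + (2 * (1 - e) - 1) - 2 * (1 - e) * s ^ (1 + K) ≤ (s - 1) ^ 2 := by linarith
  have e1 : x ^ 2 * (1 - 0 + (2 * (1 - e) - 1) * 0 + (2 * (1 - e) - 1) * (F * U)) +
      (1 - 0) * (2 * (1 - e) - 1 - 2 * (1 - e) * s ^ (1 + K)) - (2 * (1 - e) - 1) * 0 -
      ((2 * (1 - e) - 1) * (F * L) / (1 - e) - 2 * ((2 * (1 - e) - 1) * 0) / w) *
        ((1 - e) * (-t)) =
      F * (x ^ 2 * (1 + (2 * (1 - e) - 1) * U) + (2 * (1 - e) - 1) -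
      2 * (1 - e) * s ^ (1 + K) - (2 * (1 - e) - 1) / (1 - e) * L * ((1 - e) * (-t))) +
      (1 - F) * (x ^ 2 + (2 * (1 - e) - 1) - 2 * (1 - e) * s ^ (1 + K)) := by
    ring
  rw [e1]
  have h7 := mul_le_mul_of_nonneg_left hT1 hF0.le
  have h8 := mul_le_mul_of_nonneg_left hT0 (by linarith : 0 ≤ 1 - F)
  have h9 := mul_le_mul_of_nonneg_right hβ (sq_nonneg (s - 1))
  linarith

end Pool.Agent.Lib.QNL.End14
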