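import Pool.Agent.Lib.QNL.End14A
import Pool.Agent.Lib.QNL.Nums14

/-!
The end `a → 1` of the certificate, the criterion `K (s-1)² (E + β) ≤ 2a (s log s - s + 1)` for
`s ≤ 1` and for `s ≥ 1`, from numerical bounds of the parameters.
-/

set_option autoImplicit false

namespace Pool.Agent.Lib.QNL.End14

open Set
open Pool.Agent.Lib.QNL.EndS

/-! ### logarithms -/

/-- `-log(1-z) ≥ z + z²/2 + z³/3` on `[0,1)` -/
theorem neg_log_ge {z : ℝ} (h0 : 0 ≤ z) (h1 : z < 1) :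
    z + z ^ 2 / 2 + z ^ 3 / 3 ≤ -Real.log (1 - z) := by
  have h := Real.hasSum_pow_div_log_of_abs_lt_one (x := z) (by rw [abs_of_nonneg h0]; exact h1)
  have h2 := sum_le_hasSum (Finset.range 3) (fun i _ => by positivity) h
  simp only [Finset.sum_range_succ, Finset.sum_range_zero] at h2
  norm_num at h2
  linarith

/-- `s log s - s + 1 ≥ ζ² (1/2 + ζ/6 + ζ²/12)`, `ζ = 1 - s ∈ [0,1]` -/
theorem ent_ge {s : ℝ} (h0 : 0 ≤ s) (h1 : s ≤ 1) :
    (1 - s) ^ 2 * (1 / 2 + (1 - s) / 6 + (1 - s) ^ 2 / 12) ≤ s * Real.log s - s + 1 := by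
  rcases h0.eq_or_lt with h | h
  · rw [← h]; norm_num
  · have key := Nums14.comp_at (x₀ := 0) (x := 1 - s) (by linarith)
      (f := fun z => z ^ 2 / 2 + z ^ 3 / 6 + z ^ 4 / 12)
      (g := fun z => (1 - z) * Real.log (1 - z) + z)
      (f' := fun z => z + z ^ 2 / 2 + z ^ 3 / 3) (g' := fun z => -Real.log (1 - z)) ?_ ?_ ?_ ?_
    · simp only [sub_sub_cancel] at key
      nlinarith
    · intro v _ _
      have h2 := (((hasDerivAt_pow 2 v).div_const 2).add ((hasDerivAt_pow 3 v).div_const 6)).add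
        ((hasDerivAt_pow 4 v).div_const 12)
      refine h2.congr_deriv ?_
      norm_num
      ring
    · intro v _ hv
      have hv1 : 0 < 1 - v := by linarith
      have h2 : HasDerivAt (fun z : ℝ => 1 - z) (-1) v := (hasDerivAt_id v).const_sub 1
      have h3 := (h2.mul (h2.log hv1.ne')).add (hasDerivAt_id v)
      refine h3.congr_deriv ?_
      field_simp
      ring
    · intro v hv hv1
      exact neg_log_ge hv.le (by linarith)
    · simp

/-- `Φ(z)/z` decreases -/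
theorem Ph_div_anti {z S : ℝ} (hz : 0 < z) (hzS : z ≤ S) : z * Ph S ≤ S * Ph z := by
  have hS : 0 < S := by linarith
  have hd : ∀ v : ℝ, 0 < v → HasDerivAt (fun v => Ph v / v)
      (((v - Real.log (1 + v)) / v ^ 2 * v - Ph v * 1) / v ^ 2) v := fun v hv =>
    (hasDerivAt_Ph hv).div (hasDerivAt_id v) hv.ne'
  have hanti : AntitoneOn (fun v => Ph v / v) (Ioi 0) := by
    refine antitoneOn_of_deriv_nonpos (convex_Ioi 0)
      (fun v hv => (hd v hv).continuousAt.continuousWithinAt) ?_ ?_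
    · rw [interior_Ioi]
      exact fun v hv => (hd v hv).differentiableAt.differentiableWithinAt
    · rw [interior_Ioi]
      intro v hv
      have hv0 : (0 : ℝ) < v := hv
      rw [(hd v hv0).deriv]
      apply div_nonpos_of_nonpos_of_nonneg _ (by positivity)
      have h1 := Real.le_log_one_add_of_nonneg hv0.le
      have h2 : (v - Real.log (1 + v)) / v ^ 2 * v = 1 - Real.log (1 + v) / v := by
        field_simp
      rw [h2]
      unfold Ph
      have h3 : 2 ≤ (1 + 2 / v) * Real.log (1 + v) := by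
        have h4 := mul_le_mul_of_nonneg_left h1 (by positivity : 0 ≤ 1 + 2 / v)
        have h5 : (1 + 2 / v) * (2 * v / (v + 2)) = 2 := by field_simp
        linarith
      have h6 : (1 + 2 / v) * Real.log (1 + v) = Real.log (1 + v) + 2 * (Real.log (1 + v) / v) := by
        ring
      have h7 : (1 + 1 / v) * Real.log (1 + v) = Real.log (1 + v) + Real.log (1 + v) / v := by
        ring
      linarith
  have h := hanti hz hS hzS
  simp only at h
  rw [div_le_div_iff₀ hS hz] at h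
  linarith

/-! ### small inequalities -/

theorem K_le_e {e m : ℝ} (he : 0 ≤ e) (hm : 0 ≤ m) : e / (1 + e * m) ≤ e :=
  div_le_self he (by have := mul_nonneg he hm; linarith)

theorem two_add_le {e m : ℝ} (he : 0 ≤ e) (hm : 0 ≤ m) :
    2 * e * (1 + m) * (1 + (1 - 2 * e) * (1 + m)) ≤ 2 * e * (1 + m) * (2 + m) := by
  have h1 : 0 ≤ 2 * e * (1 + m) := by positivity
  exact mul_le_mul_of_nonneg_left (by linarith) h1

theorem th_sq_le {e : ℝ} (he0 : 0 < e) (he1 : e ≤ 1 / 100) :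
    (1 - 2 * e) ^ 2 / (1 - e) ≤ 1 := by
  rw [div_le_one (by linarith)]
  nlinarith

theorem last_le {e K ζ : ℝ} (he1 : e ≤ 1 / 100) (hK0 : 0 ≤ K) (hKe : K ≤ e) (hζ0 : 0 ≤ ζ) :
    (1 - 2 * e) * (1 + K) ^ 2 * (K + ζ * (1 - K)) ≤ e * (1 + e) ^ 2 + ζ := by
  have hth : 0 ≤ 1 - 2 * e := by linarith
  have h1 : (1 - 2 * e) * (1 + K) ^ 2 * K ≤ e * (1 + e) ^ 2 := by
    have h3 : (1 + K) ^ 2 * K ≤ (1 + e) ^ 2 * e :=
      mul_le_mul (pow_le_pow_left₀ (by linarith) (by linarith) 2) hKe hK0 (by positivity)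
    have h4 : (1 - 2 * e) * ((1 + K) ^ 2 * K) ≤ 1 * ((1 + K) ^ 2 * K) :=
      mul_le_mul_of_nonneg_right (by linarith) (by positivity)
    linarith
  have h2 : (1 - 2 * e) * ((1 + K) ^ 2 * (1 - K)) ≤ 1 := by
    have h3 : (1 + K) ^ 2 * (1 - K) ≤ 1 + K := by nlinarith [sq_nonneg K]
    have h4 := mul_le_mul_of_nonneg_left h3 hth
    nlinarith
  have h5 := mul_le_mul_of_nonneg_right h2 hζ0
  linarith

theorem ent_room {e ζ : ℝ} (he0 : 0 ≤ e) (hζ0 : 0 ≤ ζ) (hζ1 : ζ ≤ 1) :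
    (1 - e) / 2 + ζ ≤ 2 * (1 - e) * (1 / 2 + ζ / 6 + ζ ^ 2 / 12) + e := by
  have h3 : 0 ≤ (1 - ζ) * (3 - ζ) := mul_nonneg (by linarith) (by linarith)
  have h4 : 0 ≤ e * ((1 - ζ) * (3 + ζ)) :=
    mul_nonneg he0 (mul_nonneg (by linarith) (by linarith))
  linarith

/-- `σ (σ - 2e(1+m))/(s + ησ) ≤ 1/(s+η)` -/
theorem sig_le {e m s η σ : ℝ} (he : 0 ≤ e) (hm : 0 ≤ m) (hs0 : 0 ≤ s) (hη : 0 < η)
    (hσ0 : 0 ≤ σ) (hσ1 : σ ≤ 1) :
    σ * (σ - 2 * e * (1 + m)) / (s + η * σ) ≤ 1 / (s + η) := by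
  rcases hσ0.eq_or_lt with h | h
  · rw [← h]
    have : 0 ≤ 1 / (s + η) := by positivity
    simpa using this
  · have hQ0 : 0 < s + η * σ := by positivity
    have hsη : 0 < s + η := by positivity
    rw [div_le_div_iff₀ hQ0 hsη]
    have h1 : 0 ≤ 2 * e * (1 + m) := by positivity
    have h2 : σ * (σ - 2 * e * (1 + m)) ≤ σ * σ :=
      mul_le_mul_of_nonneg_left (by linarith) h.le
    have h3 := mul_le_mul_of_nonneg_right h2 hsη.le
    have h5 : σ * σ ≤ σ := mul_le_of_le_one_right h.le hσ1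
    have h6 := mul_le_mul_of_nonneg_right (h5.trans hσ1) hs0
    have h7 := mul_le_mul_of_nonneg_right h5 hη.le
    linarith

/-! ### the side `s ≤ 1` -/

theorem chord {K y : ℝ} (hK : 0 < K) (hy0 : 0 ≤ y) (hy1 : y ≤ 1 - K) :
    K / (1 - y) ≤ K + y := by
  rw [div_le_iff₀ (by linarith)]
  nlinarith [mul_nonneg hy0 (by linarith : 0 ≤ 1 - K - y)]

/-- the bound of `E` for `t = -η ≤ 0` -/
theorem EE_neg_le {e m h K s ζ η : ℝ} (he0 : 0 < e) (he1 : e ≤ 1 / 100) (hm : 0 ≤ m)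
    (hh : 0 ≤ h) (hK : K = e / (1 + e * m)) (hhK : h * K ≤ 1 / 8) (hmh : m * (h * K) ≤ 3 / 4)
    (hs0 : 0 ≤ s) (hζ : ζ = 1 - s) (hη : η = K * ζ) (hζ0 : 0 < ζ) :
    EE e m h (-η) ≤ m * (h + 2 + e) * (8 / 7) + (1 + 2 * e * (1 + m) * (2 + m)) +
      e * (1 + m) ^ 2 * e + (1 - 2 * e) * (1 + K) ^ 2 / (s + η) := by
  have hk : 0 < 1 + e * m := by positivity
  have hK0 : 0 < K := by rw [hK]; positivity
  have hKe : K ≤ e := by rw [hK]; exact K_le_e he0.le hm
  have ha : 0 < 1 - e := by linarith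
  have hth : 0 < 1 - 2 * e := by linarith
  have hζ1 : ζ ≤ 1 := by linarith
  have hη0 : 0 < η := by rw [hη]; positivity
  have hηK : η ≤ K := by rw [hη]; exact mul_le_of_le_one_right hK0.le hζ1
  have hηe : η ≤ e := hηK.trans hKe
  have hhη : h * η ≤ h * K := mul_le_mul_of_nonneg_left hηK hh
  have hhη0 : 0 ≤ h * η := mul_nonneg hh hη0.le
  have hP : 7 / 8 ≤ 1 - h * η := by linarith
  have hP0 : 0 < 1 - h * η := by linarith
  -- `σ`
  have hsg1 : sg m h (-η) = 1 - m * h * η / (1 - h * η) := by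
    unfold sg
    rw [show 1 + h * -η = 1 - h * η by ring, show m * h * -η = -(m * h * η) by ring, neg_div]
    ring
  have hmhη : 0 ≤ m * h * η / (1 - h * η) := by positivity
  have hmhη1 : m * h * η / (1 - h * η) ≤ 1 := by
    rw [div_le_one hP0]
    have : m * h * η ≤ m * (h * K) := by
      rw [mul_assoc]; exact mul_le_mul_of_nonneg_left hhη hm
    linarith
  have hσ0 : 0 ≤ sg m h (-η) := by rw [hsg1]; linarith
  have hσ1 : sg m h (-η) ≤ 1 := by rw [hsg1]; linarith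
  obtain ⟨σ, hσ⟩ : ∃ σ, σ = sg m h (-η) := ⟨_, rfl⟩
  rw [← hσ] at hσ0 hσ1
  -- `Q = s + η σ`
  have hQ : Qn e m h (-η) = s + η * σ := by
    have h1 := s_eq (e := e) (m := m) (h := h) (t := -η) he0.ne' (by
      have : 1 + h * -η = 1 - h * η := by ring
      rw [this]; exact hP0.ne')
    have h2 : 1 + -η * ((1 + e * m) / e) = s := by
      have : η * ((1 + e * m) / e) = ζ := by
        rw [hη, hK]; field_simp
      have h3 : 1 + -η * ((1 + e * m) / e) = 1 - η * ((1 + e * m) / e) := by ring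
      rw [h3, this, hζ]; ring
    rw [h2, ← hσ] at h1
    linarith
  have hsη : 0 < s + η := by linarith
  -- the terms of `E`
  have hT1 : (1 - 2 * e) * m * (h + 2 - -η) / (1 + h * -η) ≤ m * (h + 2 + e) * (8 / 7) := by
    rw [show 1 + h * -η = 1 - h * η by ring, div_le_iff₀ hP0]
    have h2 : (1 - 2 * e) * (m * (h + 2 - -η)) ≤ 1 * (m * (h + 2 + e)) :=
      mul_le_mul (by linarith) (mul_le_mul_of_nonneg_left (by linarith) hm)
        (mul_nonneg hm (by linarith)) zero_le_one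
    have h3 : 0 ≤ m * (h + 2 + e) * (8 / 7) := by positivity
    have h4 := mul_le_mul_of_nonneg_left hP h3
    linarith
  have hT2 : 1 + 2 * e * (1 + m) * (1 + (1 - 2 * e) * (1 + m)) ≤
      1 + 2 * e * (1 + m) * (2 + m) := by
    have := two_add_le he0.le hm
    linarith
  have hT3 : -((1 - 2 * e) ^ 2 / (1 - e) * (e * (1 + m) ^ 2 * -η)) ≤ e * (1 + m) ^ 2 * e := by
    have h1 := th_sq_le he0 he1
    have h3 : e * (1 + m) ^ 2 * η ≤ e * (1 + m) ^ 2 * e :=
      mul_le_mul_of_nonneg_left hηe (by positivity)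
    have h4 : 0 ≤ e * (1 + m) ^ 2 * η := by positivity
    calc _ = (1 - 2 * e) ^ 2 / (1 - e) * (e * (1 + m) ^ 2 * η) := by ring
      _ ≤ 1 * (e * (1 + m) ^ 2 * η) := mul_le_mul_of_nonneg_right h1 h4
      _ = e * (1 + m) ^ 2 * η := one_mul _
      _ ≤ _ := h3
  have hT4 : (1 - 2 * e) * (1 - -η) ^ 2 * (σ * (σ - 2 * e * (1 + m))) / (s + η * σ) ≤
      (1 - 2 * e) * (1 + K) ^ 2 / (s + η) := by
    have h1 := sig_le he0.le hm hs0 hη0 hσ0 hσ1
    have h3 : (1 - -η) ^ 2 ≤ (1 + K) ^ 2 := by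
      rw [sub_neg_eq_add]
      exact pow_le_pow_left₀ (by linarith) (by linarith) 2
    have h4 : 0 ≤ 1 / (s + η) := by positivity
    calc _ = (1 - 2 * e) * ((1 - -η) ^ 2 * (σ * (σ - 2 * e * (1 + m)) / (s + η * σ))) := by
          ring
      _ ≤ (1 - 2 * e) * ((1 - -η) ^ 2 * (1 / (s + η))) :=
          mul_le_mul_of_nonneg_left (mul_le_mul_of_nonneg_left h1 (sq_nonneg _)) hth.le
      _ ≤ (1 - 2 * e) * ((1 + K) ^ 2 * (1 / (s + η))) :=
          mul_le_mul_of_nonneg_left (mul_le_mul_of_nonneg_right h3 h4) hth.le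
      _ = _ := by ring
  unfold EE
  rw [← hσ, hQ]
  linarith

theorem critA {e m h K β s : ℝ} (he0 : 0 < e) (he1 : e ≤ 1 / 100) (hm : 0 ≤ m) (hh : 0 ≤ h)
    (hK : K = e / (1 + e * m)) (hβ : 0 ≤ β) (hhK : h * K ≤ 1 / 8) (hmh : m * (h * K) ≤ 3 / 4)
    (hnum : e * (m * (h + 2 + e)) * (8 / 7) + e * (1 + 2 * e * (1 + m) * (2 + m)) +
      e * (e * (1 + m) ^ 2 * e) + e * β + e * (1 + e) ^ 2 ≤ (1 - e) / 2 - e)
    (hs0 : 0 ≤ s) (hs1 : s ≤ 1) :
    K * (s - 1) ^ 2 * (EE e m h (K * (s - 1)) + β) ≤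
      2 * (1 - e) * (s * Real.log s - s + 1) := by
  have hk : 0 < 1 + e * m := by positivity
  have hK0 : 0 < K := by rw [hK]; positivity
  have hKe : K ≤ e := by rw [hK]; exact K_le_e he0.le hm
  have ha : 0 < 1 - e := by linarith
  have hth : 0 < 1 - 2 * e := by linarith
  obtain ⟨ζ, hζ⟩ : ∃ ζ, ζ = 1 - s := ⟨_, rfl⟩
  have hζ0 : 0 ≤ ζ := by linarith
  have hζ1 : ζ ≤ 1 := by linarith
  obtain ⟨η, hη⟩ : ∃ η, η = K * ζ := ⟨_, rfl⟩
  have ht : K * (s - 1) = -η := by rw [hη, hζ]; ring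
  rcases hζ0.eq_or_lt with hz | hz
  · have : s = 1 := by linarith
    rw [this]; simp
  have hη1 : 0 < η := by rw [hη]; positivity
  have hsη : 0 < s + η := by linarith
  have hent := ent_ge hs0 hs1
  rw [← hζ] at hent
  have hE := EE_neg_le he0 he1 hm hh hK hhK hmh hs0 hζ hη hz
  have hch : K * ((1 - 2 * e) * (1 + K) ^ 2 / (s + η)) ≤
      (1 - 2 * e) * (1 + K) ^ 2 * (K + ζ * (1 - K)) := by
    have h1 := chord hK0 (y := ζ * (1 - K)) (mul_nonneg hζ0 (by linarith))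
      (mul_le_of_le_one_left (by linarith) hζ1)
    have h2 : 1 - ζ * (1 - K) = s + η := by rw [hη, hζ]; ring
    rw [h2] at h1
    calc _ = (1 - 2 * e) * (1 + K) ^ 2 * (K / (s + η)) := by ring
      _ ≤ _ := mul_le_mul_of_nonneg_left h1 (by positivity)
  obtain ⟨A, hA⟩ : ∃ A, A = m * (h + 2 + e) * (8 / 7) + (1 + 2 * e * (1 + m) * (2 + m)) +
      e * (1 + m) ^ 2 * e + β := ⟨_, rfl⟩
  have hA0 : 0 ≤ A := by rw [hA]; positivity
  obtain ⟨R, hR⟩ : ∃ R, R = (1 - 2 * e) * (1 + K) ^ 2 / (s + η) := ⟨_, rfl⟩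
  rw [← hR] at hE hch
  have hE' : EE e m h (-η) + β ≤ A + R := by rw [hA]; linarith
  have hKE : K * (EE e m h (-η) + β) ≤
      K * A + (1 - 2 * e) * (1 + K) ^ 2 * (K + ζ * (1 - K)) := by
    have h1 := mul_le_mul_of_nonneg_left hE' hK0.le
    rw [mul_add K A R] at h1
    linarith
  have hKA : K * A ≤ e * A := mul_le_mul_of_nonneg_right hKe hA0
  have hlast := last_le he1 hK0.le hKe hζ0
  have hroom := ent_room he0.le hζ0 hζ1
  have hnum' : e * A + e * (1 + e) ^ 2 ≤ (1 - e) / 2 - e := by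
    rw [hA]; linarith
  have hfin : K * (EE e m h (-η) + β) ≤ 2 * (1 - e) * (1 / 2 + ζ / 6 + ζ ^ 2 / 12) := by
    linarith
  rw [ht]
  calc K * (s - 1) ^ 2 * (EE e m h (-η) + β) = ζ ^ 2 * (K * (EE e m h (-η) + β)) := by
        rw [hζ]; ring
    _ ≤ ζ ^ 2 * (2 * (1 - e) * (1 / 2 + ζ / 6 + ζ ^ 2 / 12)) :=
        mul_le_mul_of_nonneg_left hfin (sq_nonneg ζ)
    _ = 2 * (1 - e) * (ζ ^ 2 * (1 / 2 + ζ / 6 + ζ ^ 2 / 12)) := by ring
    _ ≤ _ := mul_le_mul_of_nonneg_left hent (by linarith)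

/-! ### the side `s ≥ 1` -/

/-- `σ (σ - ..) (1-2e)(1-t)² ≤ (1+m)²` -/
theorem sig_sq_le {e m g t : ℝ} (he0 : 0 ≤ e) (he1 : e ≤ 1 / 100) (hm : 0 ≤ m) (hg0 : 0 ≤ g)
    (hg1 : g ≤ 1 + m) (ht0 : 0 ≤ t) (ht1 : t ≤ 1) :
    (1 - 2 * e) * (1 - t) ^ 2 * (g * (g - 2 * e * (1 + m))) ≤ (1 + m) ^ 2 := by
  have h0 : 0 ≤ 2 * e * (1 + m) := by positivity
  have h1 : g * (g - 2 * e * (1 + m)) ≤ (1 + m) ^ 2 := by
    have h5 : g * (g - 2 * e * (1 + m)) ≤ g * g := mul_le_mul_of_nonneg_left (by linarith) hg0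
    have h6 : g * g ≤ (1 + m) * (1 + m) := mul_le_mul hg1 hg1 hg0 (by linarith)
    rw [sq]
    exact h5.trans h6
  have h2 : (1 - t) ^ 2 ≤ 1 := pow_le_one₀ (by linarith) (by linarith)
  have h3 : (1 - 2 * e) * (1 - t) ^ 2 ≤ 1 * 1 :=
    mul_le_mul (by linarith) h2 (sq_nonneg _) zero_le_one
  have h4 : 0 ≤ (1 - 2 * e) * (1 - t) ^ 2 := mul_nonneg (by linarith) (sq_nonneg _)
  calc _ ≤ (1 - 2 * e) * (1 - t) ^ 2 * (1 + m) ^ 2 := mul_le_mul_of_nonneg_left h1 h4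
    _ ≤ 1 * 1 * (1 + m) ^ 2 := mul_le_mul_of_nonneg_right h3 (sq_nonneg _)
    _ = _ := by ring

/-- `t/(1 + (1-e)/e t) ≤ 2e z/(2+z)`, `t = K z` -/
theorem frac_le {e m K z t : ℝ} (he0 : 0 < e) (he1 : e ≤ 1 / 100) (hm : 0 ≤ m)
    (hem : e * m ≤ 3 / 100) (hK : K = e / (1 + e * m)) (hz : 0 < z) (ht : t = K * z) :
    t / (1 + (1 - e) / e * t) ≤ 2 * e * (z / (2 + z)) := by
  have hk : 0 < 1 + e * m := by positivity
  have hK0 : 0 < K := by rw [hK]; positivity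
  have hKe : K ≤ e := by rw [hK]; exact K_le_e he0.le hm
  have ha : 0 < 1 - e := by linarith
  have h7 : t / (1 + (1 - e) / e * t) = K * z / (1 + (1 - e) / (1 + e * m) * z) := by
    rw [ht, hK]; field_simp
  obtain ⟨ρ, hρ⟩ : ∃ ρ, ρ = (1 - e) / (1 + e * m) := ⟨_, rfl⟩
  have h8 : 0 < ρ := by rw [hρ]; positivity
  have h9 : 1 ≤ 2 * ρ := by
    rw [hρ, ← mul_div_assoc, le_div_iff₀ hk]; linarith
  rw [← hρ] at h7
  have h10 : 0 < 1 + ρ * z := by positivity
  rw [h7, ← mul_div_assoc, div_le_div_iff₀ h10 (by positivity)]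
  have h11 : 1 * z ≤ 2 * ρ * z := mul_le_mul_of_nonneg_right h9 hz.le
  have h12 : K * (z * (2 + z)) ≤ e * (z * (2 + z)) :=
    mul_le_mul_of_nonneg_right hKe (by positivity)
  have h13 : e * z * (2 + z) ≤ e * z * (2 * (1 + ρ * z)) :=
    mul_le_mul_of_nonneg_left (by linarith) (by positivity)
  linarith

/-- `t (c-1) ≤ Φ(z)` -/
theorem lin_le {e K c z t : ℝ} (he0 : 0 < e) (hK0 : 0 < K) (hKe : K ≤ e)
    (hce : e = Real.exp (-c)) (hz : 0 < z) (ht : t = K * z) (ht1 : t ≤ 1) :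
    t * (c - 1) ≤ Ph z := by
  have hzS : z ≤ 1 / K := by
    rw [le_div_iff₀ hK0]
    have : z * K = t := by rw [ht]; ring
    linarith
  have h3 := Ph_div_anti hz hzS
  have hS : 0 < 1 / K := by positivity
  have h4 := Ph_ge_log hS
  have h5 : c ≤ Real.log (1 + 1 / K) := by
    have h6 : Real.log (Real.exp c) ≤ Real.log (1 + 1 / K) := by
      apply Real.log_le_log (Real.exp_pos c)
      have h7 : Real.exp c = 1 / e := by
        rw [hce, Real.exp_neg, one_div, inv_inv]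
      rw [h7]
      have h8 : 1 / e ≤ 1 / K := one_div_le_one_div_of_le hK0 hKe
      linarith
    rwa [Real.log_exp] at h6
  have h6 : z * (c - 1) ≤ 1 / K * Ph z := by
    have : z * (c - 1) ≤ z * Ph (1 / K) := mul_le_mul_of_nonneg_left (by linarith) hz.le
    linarith
  have h7 := mul_le_mul_of_nonneg_left h6 hK0.le
  have e1 : K * (1 / K * Ph z) = Ph z := by field_simp
  have e2 : K * (z * (c - 1)) = t * (c - 1) := by rw [ht]; ring
  rw [e1, e2] at h7
  exact h7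

theorem critB {e m h K β c D s : ℝ} (he0 : 0 < e) (he1 : e ≤ 1 / 100) (hm : 0 ≤ m)
    (hem : e * m ≤ 3 / 100) (hh : 0 < h) (hK : K = e / (1 + e * m)) (hβ : 0 ≤ β)
    (hce : e = Real.exp (-c)) (hc1 : 1 < c) (hD0 : 0 < D)
    (hD : D ≤ -Real.log (h * K) + 1 - Real.log 2)
    (hnum : m * (1 + 2 / h) / D + (1 + 2 * e * (1 + m) * (2 + m) + β) / (c - 1) +
      2 * e * (1 + m) ^ 2 ≤ 2 * (1 - e))
    (hs1 : 1 ≤ s) (hKs : K * (s - 1) ≤ 1) :
    K * (s - 1) ^ 2 * (EE e m h (K * (s - 1)) + β) ≤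
      2 * (1 - e) * (s * Real.log s - s + 1) := by
  have hk : 0 < 1 + e * m := by positivity
  have hK0 : 0 < K := by rw [hK]; positivity
  have hKe : K ≤ e := by rw [hK]; exact K_le_e he0.le hm
  have ha : 0 < 1 - e := by linarith
  have hth : 0 < 1 - 2 * e := by linarith
  obtain ⟨z, hz⟩ : ∃ z, z = s - 1 := ⟨_, rfl⟩
  have hs : s = 1 + z := by linarith
  rw [← hz] at hKs ⊢
  have hz0 : 0 ≤ z := by linarith
  rcases hz0.eq_or_lt with h0 | h0
  · have : s = 1 := by linarith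
    rw [this, ← h0]; simp
  obtain ⟨t, ht⟩ : ∃ t, t = K * z := ⟨_, rfl⟩
  have ht0 : 0 < t := by rw [ht]; positivity
  rw [← ht] at hKs ⊢
  have hht : 0 < h * t := by positivity
  have hP : 0 < 1 + h * t := by linarith
  have hPh := Ph_pos h0
  -- `σ`, `Q`
  have hσ0 : 0 ≤ sg m h t := by unfold sg; positivity
  have hσ1 : sg m h t ≤ 1 + m := by
    unfold sg
    have : m * h * t / (1 + h * t) ≤ m := by
      rw [div_le_iff₀ hP]; linarith
    linarith
  have hQ1 : 1 + (1 - e) / e * t ≤ Qn e m h t := by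
    unfold Qn
    have : 0 ≤ m * t / (1 + h * t) := by positivity
    linarith
  have hQ00 : 0 < 1 + (1 - e) / e * t := by positivity
  have hQ0 : 0 < Qn e m h t := by linarith
  -- (1)
  have hA := lemmaA (B := h * K) (by positivity) h0
  have hBz : h * K * z = h * t := by rw [ht]; ring
  rw [hBz] at hA
  have h1 : h * t / (1 + h * t) ≤ Ph z / D := by
    rw [div_le_div_iff₀ hP hD0]
    have := mul_le_mul_of_nonneg_left hD hht.le
    linarith
  have hT1 : t * ((1 - 2 * e) * m * (h + 2 - t) / (1 + h * t)) ≤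
      m * (1 + 2 / h) / D * Ph z := by
    have h2 : t * ((1 - 2 * e) * m * (h + 2 - t) / (1 + h * t)) ≤
        m * (1 + 2 / h) * (h * t / (1 + h * t)) := by
      have e1 : m * (1 + 2 / h) * (h * t / (1 + h * t)) =
          t * (m * (h + 2) / (1 + h * t)) := by
        field_simp
      rw [e1]
      refine mul_le_mul_of_nonneg_left ?_ ht0.le
      refine div_le_div_of_nonneg_right ?_ hP.le
      have h3 : (1 - 2 * e) * (m * (h + 2 - t)) ≤ 1 * (m * (h + 2)) :=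
        mul_le_mul (by linarith) (mul_le_mul_of_nonneg_left (by linarith) hm)
          (mul_nonneg hm (by linarith)) zero_le_one
      linarith
    refine h2.trans ?_
    calc m * (1 + 2 / h) * (h * t / (1 + h * t)) ≤ m * (1 + 2 / h) * (Ph z / D) :=
          mul_le_mul_of_nonneg_left h1 (by positivity)
      _ = _ := by ring
  -- (2)
  have h2 := lin_le he0 hK0 hKe hce h0 ht hKs
  have hc0 : 0 < c - 1 := by linarith
  have hT2 : t * (1 + 2 * e * (1 + m) * (1 + (1 - 2 * e) * (1 + m)) + β) ≤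
      (1 + 2 * e * (1 + m) * (2 + m) + β) / (c - 1) * Ph z := by
    have h3 := two_add_le he0.le hm
    have h4 : t ≤ Ph z / (c - 1) := by
      rw [le_div_iff₀ hc0]; exact h2
    calc _ ≤ t * (1 + 2 * e * (1 + m) * (2 + m) + β) :=
          mul_le_mul_of_nonneg_left (by linarith) ht0.le
      _ ≤ Ph z / (c - 1) * (1 + 2 * e * (1 + m) * (2 + m) + β) :=
          mul_le_mul_of_nonneg_right h4 (by positivity)
      _ = _ := by ring
  -- (3)
  have hT3 : 0 ≤ t * ((1 - 2 * e) ^ 2 / (1 - e) * (e * (1 + m) ^ 2 * t)) := by positivity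
  -- (4)
  have hT4 : t * ((1 - 2 * e) * (1 - t) ^ 2 * (sg m h t * (sg m h t - 2 * e * (1 + m))) /
      Qn e m h t) ≤ 2 * e * (1 + m) ^ 2 * Ph z := by
    have h3 := sig_sq_le he0.le he1 hm hσ0 hσ1 ht0.le hKs
    have h4 : t / Qn e m h t ≤ 2 * e * Ph z := by
      have h5 : t / Qn e m h t ≤ t / (1 + (1 - e) / e * t) :=
        div_le_div_of_nonneg_left ht0.le hQ00 hQ1
      have h6 := frac_le he0 he1 hm hem hK h0 ht
      have h7 := mul_le_mul_of_nonneg_left (Ph_ge h0) (by positivity : 0 ≤ 2 * e)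
      linarith
    calc _ = (1 - 2 * e) * (1 - t) ^ 2 * (sg m h t * (sg m h t - 2 * e * (1 + m))) *
          (t / Qn e m h t) := by ring
      _ ≤ (1 + m) ^ 2 * (t / Qn e m h t) :=
          mul_le_mul_of_nonneg_right h3 (div_nonneg ht0.le hQ0.le)
      _ ≤ (1 + m) ^ 2 * (2 * e * Ph z) := mul_le_mul_of_nonneg_left h4 (by positivity)
      _ = _ := by ring
  -- sum
  have hsum : t * (EE e m h t + β) ≤ 2 * (1 - e) * Ph z := by
    have h3 := mul_le_mul_of_nonneg_right hnum hPh.le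
    rw [add_mul, add_mul] at h3
    have e1 : t * (EE e m h t + β) = t * ((1 - 2 * e) * m * (h + 2 - t) / (1 + h * t)) +
        t * (1 + 2 * e * (1 + m) * (1 + (1 - 2 * e) * (1 + m)) + β) -
        t * ((1 - 2 * e) ^ 2 / (1 - e) * (e * (1 + m) ^ 2 * t)) +
        t * ((1 - 2 * e) * (1 - t) ^ 2 * (sg m h t * (sg m h t - 2 * e * (1 + m))) /
          Qn e m h t) := by
      unfold EE; ring
    rw [e1]
    linarith
  have hlog : s * Real.log s - s + 1 = z * Ph z := by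
    rw [s_mul_Ph h0, hs]; ring
  rw [hlog]
  calc K * z ^ 2 * (EE e m h t + β) = z * (t * (EE e m h t + β)) := by rw [ht]; ring
    _ ≤ z * (2 * (1 - e) * Ph z) := mul_le_mul_of_nonneg_left hsum hz0
    _ = _ := by ring

end Pool.Agent.Lib.QNL.End14
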