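import Mathlib

/-!
QNL, group C: the weak speed law extended from test functions to `L²`.

`l0` is the level function of the base family, `lh h` the one of the expanded family,
`l0 ≤ lh h ≤ e^h l0`.  If
`h⁻¹ ∫ φ (Ω(lh h) - Ω(l0)) → ∫ φ ω(l0) (l0 - μ)`
for smooth compactly supported `φ` and smooth `ω = Ω'` with compact support in `(0, ∞)`, then
`h⁻¹ ∫ φ (lh h ^ q - l0 ^ q) → q ∫ φ l0 ^ q (1 - μ / l0)` for every `φ ∈ L²`, `q > 0`
(`l0 ^ q ∈ L²`).
-/

set_option autoImplicit false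

namespace Pool.Agent.Lib.QNL.Ext17

open MeasureTheory Filter Topology Set
open scoped ContDiff

/-- the weak speed law for test functions -/
def Speed (μ l0 : ℂ → ℝ) (lh : ℝ → ℂ → ℝ) : Prop :=
  ∀ φ : ℂ → ℝ, ContDiff ℝ ∞ φ → HasCompactSupport φ →
  ∀ om : ℝ → ℝ, ContDiff ℝ ∞ om → HasCompactSupport om → tsupport om ⊆ Ioi 0 →
    Tendsto (fun h : ℝ => h⁻¹ * ∫ z, φ z * ∫ s in (l0 z)..(lh h z), om s) (𝓝[>] 0)
      (𝓝 (∫ z, φ z * (om (l0 z) * (l0 z - μ z))))

/-- three epsilons -/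
theorem tendsto_of_approx {f : ℝ → ℝ} {f0 : ℝ} {l : Filter ℝ}
    (H : ∀ ε : ℝ, 0 < ε → ∃ (u : ℝ → ℝ) (u0 : ℝ), Tendsto u l (𝓝 u0) ∧
      (∀ᶠ h in l, |f h - u h| ≤ ε) ∧ |f0 - u0| ≤ ε) : Tendsto f l (𝓝 f0) := by
  rw [Metric.tendsto_nhds]
  intro ε hε
  obtain ⟨u, u0, h1, h2, h3⟩ := H (ε / 4) (by positivity)
  rw [Metric.tendsto_nhds] at h1
  filter_upwards [h1 (ε / 4) (by positivity), h2] with h h4 h5
  rw [Real.dist_eq] at h4 ⊢
  have e : f h - f0 = (f h - u h) + (u h - u0) - (f0 - u0) := by ring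
  rw [e]
  have := abs_sub ((f h - u h) + (u h - u0)) (f0 - u0)
  have := abs_add_le (f h - u h) (u h - u0)
  linarith

/-- Cauchy-Schwarz -/
theorem cs {a b : ℂ → ℝ} (ha : MemLp a 2 volume) (hb : MemLp b 2 volume) :
    Integrable (fun z => |a z| * |b z|) ∧
    ∫ z, |a z| * |b z| ≤ (eLpNorm a 2 volume).toReal * (eLpNorm b 2 volume).toReal := by
  have hi : Integrable (fun z => |a z| * |b z|) := by
    have := hb.abs.integrable_mul ha.abs
    refine this.congr (Eventually.of_forall fun z => ?_)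
    simp [mul_comm]
  refine ⟨hi, ?_⟩
  have h1 : eLpNorm (fun z => a z * b z) 1 volume ≤ eLpNorm a 2 volume * eLpNorm b 2 volume := by
    have := eLpNorm_smul_le_mul_eLpNorm (p := 2) (q := 2) (r := 1) (μ := (volume : Measure ℂ))
      hb.aestronglyMeasurable ha.aestronglyMeasurable
    exact this
  have h2 : ∫ z, |a z| * |b z| = (eLpNorm (fun z => a z * b z) 1 volume).toReal := by
    rw [eLpNorm_one_eq_lintegral_enorm]
    have := integral_norm_eq_lintegral_enorm (μ := (volume : Measure ℂ))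
      (ha.aestronglyMeasurable.mul hb.aestronglyMeasurable)
    simp only [Pi.mul_apply, Real.norm_eq_abs, abs_mul] at this
    exact this
  rw [h2, ← ENNReal.toReal_mul]
  exact ENNReal.toReal_mono (ENNReal.mul_ne_top ha.eLpNorm_ne_top hb.eLpNorm_ne_top) h1

/-- the exponential rate -/
theorem rate {q h : ℝ} (hq : 0 < q) (h0 : 0 < h) (h1 : h ≤ 1) :
    h⁻¹ * (Real.exp (q * h) - 1) ≤ q * Real.exp q := by
  have e1 : Real.exp (q * h) - 1 ≤ q * h * Real.exp (q * h) := by
    have := Real.add_one_le_exp (-(q * h))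
    have e2 : Real.exp (-(q * h)) * Real.exp (q * h) = 1 := by
      rw [← Real.exp_add]; simp
    nlinarith [Real.exp_pos (q * h)]
  have e3 : Real.exp (q * h) ≤ Real.exp q := Real.exp_le_exp.2 (by nlinarith)
  calc h⁻¹ * (Real.exp (q * h) - 1) ≤ h⁻¹ * (q * h * Real.exp (q * h)) :=
        mul_le_mul_of_nonneg_left e1 (inv_nonneg.2 h0.le)
    _ = q * Real.exp (q * h) := by field_simp
    _ ≤ q * Real.exp q := by gcongr

/-- bound of the difference of powers -/
theorem pow_sub_le {q h x y : ℝ} (hq : 0 < q) (h0 : 0 < h) (h1 : h ≤ 1) (hx : 0 ≤ x)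
    (hxy : x ≤ y) (hy : y ≤ Real.exp h * x) :
    0 ≤ h⁻¹ * (y ^ q - x ^ q) ∧ h⁻¹ * (y ^ q - x ^ q) ≤ q * Real.exp q * x ^ q := by
  have hinv : 0 ≤ h⁻¹ := inv_nonneg.2 h0.le
  have e1 : x ^ q ≤ y ^ q := Real.rpow_le_rpow hx hxy hq.le
  refine ⟨mul_nonneg hinv (by linarith), ?_⟩
  have e2 : y ^ q ≤ Real.exp (q * h) * x ^ q := by
    calc y ^ q ≤ (Real.exp h * x) ^ q := Real.rpow_le_rpow (hx.trans hxy) hy hq.le
      _ = Real.exp (q * h) * x ^ q := by
        rw [Real.mul_rpow (Real.exp_pos h).le hx, ← Real.exp_mul, mul_comm h q]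
  have hxq : 0 ≤ x ^ q := Real.rpow_nonneg hx q
  calc h⁻¹ * (y ^ q - x ^ q) ≤ h⁻¹ * ((Real.exp (q * h) - 1) * x ^ q) :=
        mul_le_mul_of_nonneg_left (by linarith) hinv
    _ = (h⁻¹ * (Real.exp (q * h) - 1)) * x ^ q := by ring
    _ ≤ q * Real.exp q * x ^ q := mul_le_mul_of_nonneg_right (rate hq h0 h1) hxq

/-- cutoffs of the level -/
theorem exists_cut (k : ℕ) : ∃ χ : ℝ → ℝ, ContDiff ℝ ∞ χ ∧ HasCompactSupport χ ∧
    tsupport χ ⊆ Ioi 0 ∧ (∀ s, 0 ≤ χ s) ∧ (∀ s, χ s ≤ 1) ∧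
    ∀ s, ((k : ℝ) + 2)⁻¹ ≤ s → s ≤ k + 2 → χ s = 1 := by
  set K : ℝ := (k : ℝ) + 2 with hK
  have hK0 : 0 < K := by positivity
  have hK2 : 2 ≤ K := by simp [hK]
  have hKi : K⁻¹ ≤ 1 / 2 := by
    rw [inv_le_comm₀ hK0 (by norm_num)]
    simpa using hK2
  have hKp : 0 < K⁻¹ := inv_pos.2 hK0
  let f : ContDiffBump ((K + K⁻¹) / 2 : ℝ) :=
    ⟨(K - K⁻¹) / 2, (K - K⁻¹) / 2 + K⁻¹ / 2, by linarith, by linarith⟩
  refine ⟨f, f.contDiff, f.hasCompactSupport, ?_, fun s => f.nonneg, fun s => f.le_one, ?_⟩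
  · intro s hs
    rw [f.tsupport_eq, Metric.mem_closedBall, Real.dist_eq, abs_le] at hs
    show 0 < s
    have : -((K - K⁻¹) / 2 + K⁻¹ / 2) ≤ s - (K + K⁻¹) / 2 := hs.1
    linarith
  · intro s h1 h2
    apply f.one_of_mem_closedBall
    rw [Metric.mem_closedBall, Real.dist_eq, abs_le]
    show -((K - K⁻¹) / 2) ≤ s - (K + K⁻¹) / 2 ∧ s - (K + K⁻¹) / 2 ≤ (K - K⁻¹) / 2
    constructor <;> linarith

/-- the weight `q s^(q-1) χ(s)` is a test weight -/
theorem weight_smooth {q : ℝ} {χ : ℝ → ℝ} (h1 : ContDiff ℝ ∞ χ) (h2 : HasCompactSupport χ)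
    (h3 : tsupport χ ⊆ Ioi 0) :
    ContDiff ℝ ∞ (fun s => q * s ^ (q - 1) * χ s) ∧
    HasCompactSupport (fun s => q * s ^ (q - 1) * χ s) ∧
    tsupport (fun s => q * s ^ (q - 1) * χ s) ⊆ Ioi 0 := by
  have hsub : tsupport (fun s => q * s ^ (q - 1) * χ s) ⊆ tsupport χ := by
    apply closure_mono
    intro s hs
    rw [Function.mem_support] at hs ⊢
    intro h
    exact hs (by simp [h])
  refine ⟨?_, h2.mono' (subset_trans subset_closure hsub), hsub.trans h3⟩
  rw [contDiff_iff_contDiffAt]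
  intro s
  by_cases hs : s ∈ tsupport χ
  · have hs0 : 0 < s := h3 hs
    exact (contDiffAt_const.mul (contDiffAt_id.rpow_const_of_ne hs0.ne')).mul h1.contDiffAt
  · have : (fun s => q * s ^ (q - 1) * χ s) =ᶠ[𝓝 s] fun _ => 0 := by
      have := (isClosed_tsupport χ).isOpen_compl.mem_nhds hs
      filter_upwards [this] with t ht
      have : χ t = 0 := image_eq_zero_of_notMem_tsupport ht
      simp [this]
    exact contDiffAt_const.congr_of_eventuallyEq this

/-- the primitive of `q s^(q-1)` -/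
theorem int_pow {q x y : ℝ} (hx : 0 < x) (hxy : x ≤ y) :
    IntervalIntegrable (fun s => q * s ^ (q - 1)) volume x y ∧
    ∫ s in x..y, q * s ^ (q - 1) = y ^ q - x ^ q := by
  have hc : ContinuousOn (fun s : ℝ => q * s ^ (q - 1)) (uIcc x y) := by
    intro s hs
    rw [uIcc_of_le hxy] at hs
    have : 0 < s := hx.trans_le hs.1
    exact (continuousAt_const.mul
      (Real.continuousAt_rpow_const s _ (Or.inl this.ne'))).continuousWithinAt
  refine ⟨hc.intervalIntegrable, ?_⟩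
  rw [intervalIntegral.integral_eq_sub_of_hasDerivAt (f := fun s => s ^ q) ?_
    hc.intervalIntegrable]
  intro s hs
  rw [uIcc_of_le hxy] at hs
  have : 0 < s := hx.trans_le hs.1
  exact Real.hasDerivAt_rpow_const (Or.inl this.ne')

/-- truncation error at one point -/
theorem trunc_err {q h x y : ℝ} {χ : ℝ → ℝ} (hq : 0 < q) (h0 : 0 < h) (h1 : h ≤ 1) (hx : 0 ≤ x)
    (hxy : x ≤ y) (hy : y ≤ Real.exp h * x) (hc : Continuous χ) (hχ0 : ∀ s, 0 ≤ χ s)
    (hχ1 : ∀ s, χ s ≤ 1) {K : ℝ} (hχK : ∀ s, K⁻¹ ≤ s → s ≤ K → χ s = 1) :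
    |h⁻¹ * (y ^ q - x ^ q) - h⁻¹ * ∫ s in x..y, q * s ^ (q - 1) * χ s| ≤
      if K⁻¹ ≤ x ∧ 3 * x ≤ K then 0 else q * Real.exp q * x ^ q := by
  rcases hx.eq_or_lt with hx0 | hx0
  · have hy0 : y = 0 := by
      have : y ≤ 0 := by rw [← hx0] at hy; simpa using hy
      exact le_antisymm this (by linarith)
    subst hx0
    rw [hy0]
    simp only [Real.zero_rpow hq.ne', sub_self, mul_zero, intervalIntegral.integral_same, abs_zero]
    split_ifs <;> simp
  obtain ⟨hi, hI⟩ := int_pow (q := q) hx0 hxy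
  have hcont : ContinuousOn (fun s : ℝ => q * s ^ (q - 1) * χ s) (uIcc x y) := by
    intro s hs
    rw [uIcc_of_le hxy] at hs
    have : 0 < s := hx0.trans_le hs.1
    exact ((continuousAt_const.mul
      (Real.continuousAt_rpow_const s _ (Or.inl this.ne'))).mul hc.continuousAt).continuousWithinAt
  have hiχ : IntervalIntegrable (fun s => q * s ^ (q - 1) * χ s) volume x y :=
    hcont.intervalIntegrable
  have hpos : ∀ s ∈ Icc x y, 0 ≤ q * s ^ (q - 1) := fun s hs =>
    mul_nonneg hq.le (Real.rpow_nonneg (hx.trans hs.1) _)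
  have hle : ∫ s in x..y, q * s ^ (q - 1) * χ s ≤ ∫ s in x..y, q * s ^ (q - 1) :=
    intervalIntegral.integral_mono_on hxy hiχ hi fun s hs => by
      have := hpos s hs
      nlinarith [hχ1 s]
  have hge : 0 ≤ ∫ s in x..y, q * s ^ (q - 1) * χ s :=
    intervalIntegral.integral_nonneg hxy fun s hs => mul_nonneg (hpos s hs) (hχ0 s)
  have hinv : 0 ≤ h⁻¹ := inv_nonneg.2 h0.le
  rw [← mul_sub, abs_of_nonneg (mul_nonneg hinv (by linarith))]
  split_ifs with hk
  · have : ∫ s in x..y, q * s ^ (q - 1) * χ s = ∫ s in x..y, q * s ^ (q - 1) := by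
      apply intervalIntegral.integral_congr
      intro s hs
      rw [uIcc_of_le hxy] at hs
      have e3 : Real.exp h ≤ 3 :=
        (Real.exp_le_exp.2 h1).trans (by linarith [Real.exp_one_lt_d9])
      have : s ≤ K := by
        have : s ≤ 3 * x := hs.2.trans (hy.trans (by gcongr))
        linarith [hk.2]
      simp [hχK s (hk.1.trans hs.1) this]
    rw [this, hI]
    simp
  · have := (pow_sub_le hq h0 h1 hx hxy hy).2
    refine le_trans ?_ this
    exact mul_le_mul_of_nonneg_left (by linarith) hinv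

/-- measurability of the truncated increments -/
theorem meas_int {l0 l1 : ℂ → ℝ} (h0 : Measurable l0) (h1 : Measurable l1) {om : ℝ → ℝ}
    (hc : Continuous om) : Measurable (fun z => ∫ s in (l0 z)..(l1 z), om s) := by
  have e : (fun z => ∫ s in (l0 z)..(l1 z), om s) =
      fun z => (∫ s in (0 : ℝ)..(l1 z), om s) - ∫ s in (0 : ℝ)..(l0 z), om s := by
    funext z
    rw [intervalIntegral.integral_interval_sub_left (hc.intervalIntegrable _ _)
      (hc.intervalIntegrable _ _)]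
  rw [e]
  have hP : Continuous (fun y : ℝ => ∫ s in (0 : ℝ)..y, om s) :=
    intervalIntegral.continuous_primitive (fun a b => hc.intervalIntegrable a b) 0
  exact (hP.measurable.comp h1).sub (hP.measurable.comp h0)

/-- the tails of `|φ| l0 ^ q` over the levels outside `[1/K, K/3]` -/
theorem tail_small {l0 φ : ℂ → ℝ} {q : ℝ} (hm0 : Measurable l0) (h0 : ∀ z, 0 ≤ l0 z) (hq : 0 < q)
    (hi : Integrable (fun z => |φ z| * |l0 z ^ q|)) {ε : ℝ} (hε : 0 < ε) :
    ∃ k : ℕ, ∫ z, |φ z| *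
      (if ((k : ℝ) + 2)⁻¹ ≤ l0 z ∧ 3 * l0 z ≤ (k : ℝ) + 2 then 0 else l0 z ^ q) < ε := by
  have hms : ∀ k : ℕ, MeasurableSet {z | ((k : ℝ) + 2)⁻¹ ≤ l0 z ∧ 3 * l0 z ≤ (k : ℝ) + 2} :=
    fun k => (measurableSet_le measurable_const hm0).inter
      (measurableSet_le (measurable_const.mul hm0) measurable_const)
  have hT : Tendsto (fun k : ℕ => ∫ z, |φ z| *
      (if ((k : ℝ) + 2)⁻¹ ≤ l0 z ∧ 3 * l0 z ≤ (k : ℝ) + 2 then 0 else l0 z ^ q)) atTop
      (𝓝 (∫ _z : ℂ, (0 : ℝ))) := by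
    refine tendsto_integral_of_dominated_convergence (fun z => |φ z| * |l0 z ^ q|) ?_ hi ?_ ?_
    · intro k
      have e : (fun z => |φ z| *
          (if ((k : ℝ) + 2)⁻¹ ≤ l0 z ∧ 3 * l0 z ≤ (k : ℝ) + 2 then 0 else l0 z ^ q)) =
          ({z | ((k : ℝ) + 2)⁻¹ ≤ l0 z ∧ 3 * l0 z ≤ (k : ℝ) + 2}ᶜ).indicator
            (fun z => |φ z| * |l0 z ^ q|) := by
        funext z
        by_cases hz : ((k : ℝ) + 2)⁻¹ ≤ l0 z ∧ 3 * l0 z ≤ (k : ℝ) + 2
        · rw [indicator_of_notMem (by simpa using hz), if_pos hz, mul_zero]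
        · rw [indicator_of_mem (by simpa using hz), if_neg hz,
            abs_of_nonneg (Real.rpow_nonneg (h0 z) q)]
      rw [e]
      exact hi.aestronglyMeasurable.indicator (hms k).compl
    · intro k
      refine Eventually.of_forall fun z => ?_
      rw [Real.norm_eq_abs, abs_mul, abs_abs]
      refine mul_le_mul_of_nonneg_left ?_ (abs_nonneg _)
      split_ifs
      · simp
      · exact le_rfl
    · refine Eventually.of_forall fun z => ?_
      rcases (h0 z).eq_or_lt with hz | hz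
      · rw [← hz]
        refine tendsto_const_nhds.congr' (Eventually.of_forall fun k => ?_)
        simp [Real.zero_rpow hq.ne']
      · refine tendsto_const_nhds.congr' ?_
        obtain ⟨n, hn⟩ := exists_nat_ge (max (l0 z)⁻¹ (3 * l0 z))
        filter_upwards [eventually_ge_atTop n] with k hk
        have hk' : (n : ℝ) ≤ k := by exact_mod_cast hk
        have h1 : (l0 z)⁻¹ ≤ (k : ℝ) + 2 := by
          have := le_max_left (l0 z)⁻¹ (3 * l0 z)
          linarith
        have h2 : 3 * l0 z ≤ (k : ℝ) + 2 := by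
          have := le_max_right (l0 z)⁻¹ (3 * l0 z)
          linarith
        have h3 : ((k : ℝ) + 2)⁻¹ ≤ l0 z := by
          rw [inv_le_comm₀ (by positivity) hz]
          exact h1
        rw [if_pos ⟨h3, h2⟩, mul_zero]
  simp only [integral_zero] at hT
  obtain ⟨k, hk⟩ := ((tendsto_order.1 hT).2 ε hε).exists
  exact ⟨k, hk⟩

section main

variable {μ l0 : ℂ → ℝ} {lh : ℝ → ℂ → ℝ}

/-- the standing assumptions on the level functions -/
structure Lv (μ l0 : ℂ → ℝ) (lh : ℝ → ℂ → ℝ) : Prop where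
  meas0 : Measurable l0
  meas : ∀ h, 0 < h → Measurable (lh h)
  measμ : Measurable μ
  nonneg : ∀ z, 0 ≤ μ z
  le : ∀ z, μ z ≤ l0 z
  lo : ∀ h, 0 < h → ∀ z, l0 z ≤ lh h z
  hi : ∀ h, 0 < h → ∀ z, lh h z ≤ Real.exp h * l0 z

theorem Lv.nn (hL : Lv μ l0 lh) (z : ℂ) : 0 ≤ l0 z := (hL.nonneg z).trans (hL.le z)

/-- **the velocity against all of `L²`** -/
theorem ext (hL : Lv μ l0 lh) {q : ℝ} (hq : 0 < q) (h2 : MemLp (fun z => l0 z ^ q) 2 volume)
    (hS : Speed μ l0 lh) {φ : ℂ → ℝ} (hφ : MemLp φ 2 volume) :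
    Tendsto (fun h : ℝ => h⁻¹ * ∫ z, φ z * (lh h z ^ q - l0 z ^ q)) (𝓝[>] 0)
      (𝓝 (∫ z, φ z * (q * l0 z ^ (q - 1) * (l0 z - μ z)))) := by
  have hnn := hL.nn
  set Cq : ℝ := q * Real.exp q with hCq
  have hCq0 : 0 < Cq := by positivity
  -- bound of the limit density
  have hlim : ∀ z, |q * l0 z ^ (q - 1) * (l0 z - μ z)| ≤ Cq * |l0 z ^ q| := by
    intro z
    rcases (hnn z).eq_or_lt with hz | hz
    · have : μ z = 0 := le_antisymm (by rw [hz]; exact hL.le z) (hL.nonneg z)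
      rw [← hz, this]
      simp only [sub_self, mul_zero, abs_zero]
      positivity
    · have e1 : 0 ≤ l0 z - μ z := sub_nonneg.2 (hL.le z)
      have e2 : l0 z ^ q = l0 z ^ (q - 1) * l0 z := by
        rw [← Real.rpow_add_one hz.ne']
        ring_nf
      have e3 : 0 ≤ l0 z ^ (q - 1) := Real.rpow_nonneg hz.le _
      rw [abs_of_nonneg (by positivity), abs_of_nonneg (Real.rpow_nonneg hz.le _), e2]
      have e4 : l0 z - μ z ≤ l0 z := by linarith [hL.nonneg z]
      have e5 : q ≤ Cq := by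
        have := Real.one_le_exp hq.le
        nlinarith
      calc q * l0 z ^ (q - 1) * (l0 z - μ z) ≤ q * l0 z ^ (q - 1) * l0 z := by gcongr
        _ = q * (l0 z ^ (q - 1) * l0 z) := by ring
        _ ≤ Cq * (l0 z ^ (q - 1) * l0 z) := by gcongr
  have hmlim : Measurable (fun z => q * l0 z ^ (q - 1) * (l0 z - μ z)) :=
    (measurable_const.mul (hL.meas0.pow_const _)).mul (hL.meas0.sub hL.measμ)
  -- integrability tool
  have hint : ∀ (g : ℂ → ℝ) (f : ℂ → ℝ) (A : ℝ), MemLp g 2 volume → AEStronglyMeasurable f volume →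
      (∀ z, |f z| ≤ A * |l0 z ^ q|) → Integrable (fun z => g z * f z) ∧
      |∫ z, g z * f z| ≤ A * ((eLpNorm g 2 volume).toReal *
        (eLpNorm (fun z => l0 z ^ q) 2 volume).toReal) := by
    intro g f A hg hf hb
    obtain ⟨c1, c2⟩ := cs hg h2
    have hb' : ∀ z, ‖g z * f z‖ ≤ A * (|g z| * |l0 z ^ q|) := fun z => by
      rw [Real.norm_eq_abs, abs_mul]
      calc |g z| * |f z| ≤ |g z| * (A * |l0 z ^ q|) :=
            mul_le_mul_of_nonneg_left (hb z) (abs_nonneg _)
        _ = _ := by ring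
    have hI : Integrable (fun z => g z * f z) :=
      (c1.const_mul A).mono' (hg.aestronglyMeasurable.mul hf) (Eventually.of_forall hb')
    refine ⟨hI, ?_⟩
    have hA : 0 ≤ A ∨ (∀ z, l0 z ^ q = 0) := by
      by_cases hA : 0 ≤ A
      · exact Or.inl hA
      · right
        intro z
        have := (abs_nonneg _).trans (hb z)
        have h3 : |l0 z ^ q| ≤ 0 := by nlinarith [abs_nonneg (l0 z ^ q)]
        exact abs_eq_zero.1 (le_antisymm h3 (abs_nonneg _))
    calc |∫ z, g z * f z| ≤ ∫ z, A * (|g z| * |l0 z ^ q|) :=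
          norm_integral_le_of_norm_le (c1.const_mul A) (Eventually.of_forall hb')
      _ = A * ∫ z, |g z| * |l0 z ^ q| := integral_const_mul _ _
      _ ≤ _ := by
        rcases hA with hA | hA
        · exact mul_le_mul_of_nonneg_left c2 hA
        · simp [hA]
  -- the increments
  have hinc : ∀ h, 0 < h → h ≤ 1 → ∀ z, |h⁻¹ * (lh h z ^ q - l0 z ^ q)| ≤ Cq * |l0 z ^ q| := by
    intro h hh hh1 z
    obtain ⟨a1, a2⟩ := pow_sub_le hq hh hh1 (hnn z) (hL.lo h hh z) (hL.hi h hh z)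
    rw [abs_of_nonneg a1, abs_of_nonneg (Real.rpow_nonneg (hnn z) q)]
    exact a2
  have hminc : ∀ h, 0 < h → AEStronglyMeasurable (fun z => h⁻¹ * (lh h z ^ q - l0 z ^ q)) volume :=
    fun h hh => (measurable_const.mul
      (((hL.meas h hh).pow_const _).sub (hL.meas0.pow_const _))).aestronglyMeasurable
  set N0 : ℝ := (eLpNorm (fun z => l0 z ^ q) 2 volume).toReal with hN0
  have hN00 : 0 ≤ N0 := ENNReal.toReal_nonneg
  refine tendsto_of_approx fun ε hε => ?_
  -- choice of the test function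
  obtain ⟨ψ, hψc, hψs, hψ⟩ := MemLp.exist_eLpNorm_sub_le (p := 2) (by norm_num) (by norm_num) hφ
    (show 0 < ε / (2 * Cq * (N0 + 1)) by positivity)
  have hψ2 : MemLp ψ 2 volume := hψs.continuous.memLp_of_hasCompactSupport hψc
  have hdiff : MemLp (fun z => φ z - ψ z) 2 volume := hφ.sub hψ2
  have hdn : (eLpNorm (fun z => φ z - ψ z) 2 volume).toReal ≤ ε / (2 * Cq * (N0 + 1)) :=
    ENNReal.toReal_le_of_le_ofReal (by positivity) hψ
  have hde : Cq * ((eLpNorm (fun z => φ z - ψ z) 2 volume).toReal * N0) ≤ ε / 2 := by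
    calc Cq * ((eLpNorm (fun z => φ z - ψ z) 2 volume).toReal * N0)
        ≤ Cq * (ε / (2 * Cq * (N0 + 1)) * (N0 + 1)) := by
          gcongr
          linarith
      _ = ε / 2 := by field_simp
  -- choice of the cutoff of the levels
  obtain ⟨k, hk⟩ := tail_small hL.meas0 hnn hq (cs hψ2 h2).1
    (show 0 < ε / (2 * Cq) by positivity)
  obtain ⟨χ, x1, x2, x3, x4, x5, x6⟩ := exists_cut k
  obtain ⟨w1, w2, w3⟩ := weight_smooth (q := q) x1 x2 x3
  set om : ℝ → ℝ := fun s => q * s ^ (q - 1) * χ s with hom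
  set b : ℂ → ℝ := fun z =>
    if ((k : ℝ) + 2)⁻¹ ≤ l0 z ∧ 3 * l0 z ≤ (k : ℝ) + 2 then 0 else l0 z ^ q with hb
  have hms : MeasurableSet {z | ((k : ℝ) + 2)⁻¹ ≤ l0 z ∧ 3 * l0 z ≤ (k : ℝ) + 2} :=
    (measurableSet_le measurable_const hL.meas0).inter
      (measurableSet_le (measurable_const.mul hL.meas0) measurable_const)
  have hbm : Measurable b := Measurable.ite hms measurable_const (hL.meas0.pow_const _)
  have hb0 : ∀ z, 0 ≤ b z := fun z => by
    simp only [hb]
    split_ifs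
    · exact le_rfl
    · exact Real.rpow_nonneg (hnn z) _
  have hble : ∀ z, b z ≤ |l0 z ^ q| := fun z => by
    simp only [hb]
    split_ifs
    · exact abs_nonneg _
    · exact le_abs_self _
  have hbI : Integrable (fun z => |ψ z| * b z) := by
    refine (cs hψ2 h2).1.mono' (hψ2.aestronglyMeasurable.norm.mul hbm.aestronglyMeasurable) ?_
    refine Eventually.of_forall fun z => ?_
    rw [Real.norm_eq_abs, abs_mul, abs_abs, abs_of_nonneg (hb0 z)]
    exact mul_le_mul_of_nonneg_left (hble z) (abs_nonneg _)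
  have hkey : ∀ f : ℂ → ℝ, AEStronglyMeasurable f volume → (∀ z, |f z| ≤ Cq * b z) →
      |∫ z, ψ z * f z| ≤ ε / 2 := by
    intro f hf hfb
    calc |∫ z, ψ z * f z| ≤ ∫ z, Cq * (|ψ z| * b z) := by
          refine norm_integral_le_of_norm_le (f := fun z => ψ z * f z) (hbI.const_mul Cq)
            (Eventually.of_forall fun z => ?_)
          rw [Real.norm_eq_abs, abs_mul]
          calc |ψ z| * |f z| ≤ |ψ z| * (Cq * b z) :=
                mul_le_mul_of_nonneg_left (hfb z) (abs_nonneg _)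
            _ = _ := by ring
      _ = Cq * ∫ z, |ψ z| * b z := integral_const_mul _ _
      _ ≤ Cq * (ε / (2 * Cq)) := mul_le_mul_of_nonneg_left hk.le hCq0.le
      _ = ε / 2 := by field_simp
  refine ⟨_, _, hS ψ hψs hψc om w1 w2 w3, ?_, ?_⟩
  · filter_upwards [Ioc_mem_nhdsGT (zero_lt_one' ℝ)] with h hh
    have hh0 : 0 < h := hh.1
    set D : ℂ → ℝ := fun z => h⁻¹ * (lh h z ^ q - l0 z ^ q) with hD
    set D' : ℂ → ℝ := fun z => h⁻¹ * ∫ s in (l0 z)..(lh h z), om s with hD'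
    have hD'm : Measurable D' :=
      measurable_const.mul (meas_int hL.meas0 (hL.meas h hh0) w1.continuous)
    have herr : ∀ z, |D z - D' z| ≤ Cq * b z := fun z => by
      have := trunc_err hq hh0 hh.2 (hnn z) (hL.lo h hh0 z) (hL.hi h hh0 z) x1.continuous x4 x5
        x6
      refine this.trans (le_of_eq ?_)
      simp only [hb]
      split_ifs <;> simp [hCq]
    have hDD' : AEStronglyMeasurable (fun z => D z - D' z) volume :=
      (hminc h hh0).sub hD'm.aestronglyMeasurable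
    obtain ⟨i1, b1⟩ := hint _ D Cq hdiff (hminc h hh0) (hinc h hh0 hh.2)
    obtain ⟨i2, -⟩ := hint ψ (fun z => D z - D' z) Cq hψ2 hDD'
      (fun z => (herr z).trans (mul_le_mul_of_nonneg_left (hble z) hCq0.le))
    obtain ⟨i3, -⟩ := hint ψ D Cq hψ2 (hminc h hh0) (hinc h hh0 hh.2)
    have i4 : Integrable (fun z => ψ z * D' z) := by
      refine (i3.sub i2).congr (Eventually.of_forall fun z => ?_)
      simp only [Pi.sub_apply]
      ring
    have e1 : h⁻¹ * ∫ z, φ z * (lh h z ^ q - l0 z ^ q) = ∫ z, φ z * D z := by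
      rw [← integral_const_mul]
      refine integral_congr_ae (Eventually.of_forall fun z => ?_)
      simp only [hD]
      ring
    have e2 : h⁻¹ * ∫ z, ψ z * ∫ s in (l0 z)..(lh h z), om s = ∫ z, ψ z * D' z := by
      rw [← integral_const_mul]
      refine integral_congr_ae (Eventually.of_forall fun z => ?_)
      simp only [hD']
      ring
    have e3 : (∫ z, φ z * D z) - ∫ z, ψ z * D' z =
        (∫ z, (φ z - ψ z) * D z) + ∫ z, ψ z * (D z - D' z) := by
      have f1 : ∫ z, φ z * D z = (∫ z, (φ z - ψ z) * D z) + ∫ z, ψ z * D z := by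
        rw [← integral_add i1 i3]
        refine integral_congr_ae (Eventually.of_forall fun z => ?_)
        simp only
        ring
      have f2 : ∫ z, ψ z * (D z - D' z) = (∫ z, ψ z * D z) - ∫ z, ψ z * D' z := by
        rw [← integral_sub i3 i4]
        refine integral_congr_ae (Eventually.of_forall fun z => ?_)
        simp only
        ring
      rw [f1, f2]
      ring
    show |(h⁻¹ * ∫ z, φ z * (lh h z ^ q - l0 z ^ q)) -
      (h⁻¹ * ∫ z, ψ z * ∫ s in (l0 z)..(lh h z), om s)| ≤ ε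
    rw [e1, e2, e3]
    have b2 := hkey _ hDD' herr
    calc |(∫ z, (φ z - ψ z) * D z) + ∫ z, ψ z * (D z - D' z)|
        ≤ |∫ z, (φ z - ψ z) * D z| + |∫ z, ψ z * (D z - D' z)| := abs_add_le _ _
      _ ≤ ε / 2 + ε / 2 := add_le_add (b1.trans hde) b2
      _ = ε := by ring
  · set F : ℂ → ℝ := fun z => q * l0 z ^ (q - 1) * (l0 z - μ z) with hF
    set F' : ℂ → ℝ := fun z => om (l0 z) * (l0 z - μ z) with hF'
    have hF'm : Measurable F' := (w1.continuous.measurable.comp hL.meas0).mul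
      (hL.meas0.sub hL.measμ)
    have herr : ∀ z, |F z - F' z| ≤ Cq * b z := fun z => by
      have e : F z - F' z = F z * (1 - χ (l0 z)) := by
        simp only [hF, hF', hom]
        ring
      rw [e, abs_mul]
      by_cases hz : ((k : ℝ) + 2)⁻¹ ≤ l0 z ∧ 3 * l0 z ≤ (k : ℝ) + 2
      · rw [x6 _ hz.1 (by linarith [hz.2, hnn z])]
        simp only [sub_self, abs_zero, mul_zero]
        exact mul_nonneg hCq0.le (hb0 z)
      · have e1 : |1 - χ (l0 z)| ≤ 1 := by
          rw [abs_le]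
          constructor <;> linarith [x4 (l0 z), x5 (l0 z)]
        have e2 : b z = |l0 z ^ q| := by
          simp only [hb]
          rw [if_neg hz, abs_of_nonneg (Real.rpow_nonneg (hnn z) _)]
        rw [e2]
        calc |F z| * |1 - χ (l0 z)| ≤ |F z| * 1 :=
              mul_le_mul_of_nonneg_left e1 (abs_nonneg _)
          _ = |F z| := mul_one _
          _ ≤ _ := hlim z
    have hFF' : AEStronglyMeasurable (fun z => F z - F' z) volume :=
      (hmlim.sub hF'm).aestronglyMeasurable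
    obtain ⟨i1, b1⟩ := hint _ F Cq hdiff hmlim.aestronglyMeasurable hlim
    obtain ⟨i2, -⟩ := hint ψ (fun z => F z - F' z) Cq hψ2 hFF'
      (fun z => (herr z).trans (mul_le_mul_of_nonneg_left (hble z) hCq0.le))
    obtain ⟨i3, -⟩ := hint ψ F Cq hψ2 hmlim.aestronglyMeasurable hlim
    have i4 : Integrable (fun z => ψ z * F' z) := by
      refine (i3.sub i2).congr (Eventually.of_forall fun z => ?_)
      simp only [Pi.sub_apply]
      ring
    have e3 : (∫ z, φ z * F z) - ∫ z, ψ z * F' z =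
        (∫ z, (φ z - ψ z) * F z) + ∫ z, ψ z * (F z - F' z) := by
      have f1 : ∫ z, φ z * F z = (∫ z, (φ z - ψ z) * F z) + ∫ z, ψ z * F z := by
        rw [← integral_add i1 i3]
        refine integral_congr_ae (Eventually.of_forall fun z => ?_)
        simp only
        ring
      have f2 : ∫ z, ψ z * (F z - F' z) = (∫ z, ψ z * F z) - ∫ z, ψ z * F' z := by
        rw [← integral_sub i3 i4]
        refine integral_congr_ae (Eventually.of_forall fun z => ?_)
        simp only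
        ring
      rw [f1, f2]
      ring
    show |(∫ z, φ z * F z) - ∫ z, ψ z * F' z| ≤ ε
    rw [e3]
    have b2 := hkey _ hFF' herr
    calc |(∫ z, (φ z - ψ z) * F z) + ∫ z, ψ z * (F z - F' z)|
        ≤ |∫ z, (φ z - ψ z) * F z| + |∫ z, ψ z * (F z - F' z)| := abs_add_le _ _
      _ ≤ ε / 2 + ε / 2 := add_le_add (b1.trans hde) b2
      _ = ε := by ring

/-- products of an `L²` function and a function bounded by `l0 ^ q` are integrable -/
theorem int_of_le {q A : ℝ} (h2 : MemLp (fun z => l0 z ^ q) 2 volume) {φ f : ℂ → ℝ}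
    (hφ : MemLp φ 2 volume) (hf : AEStronglyMeasurable f volume)
    (hb : ∀ z, |f z| ≤ A * |l0 z ^ q|) : Integrable (fun z => φ z * f z) := by
  refine ((cs hφ h2).1.const_mul A).mono' (hφ.aestronglyMeasurable.mul hf)
    (Eventually.of_forall fun z => ?_)
  rw [Real.norm_eq_abs, abs_mul]
  calc |φ z| * |f z| ≤ |φ z| * (A * |l0 z ^ q|) := mul_le_mul_of_nonneg_left (hb z) (abs_nonneg _)
    _ = _ := by ring

/-- the velocity of `g_h = e^(-h/2) lh ^ q`, `g_0 = l0 ^ q` -/
theorem ext_g (hL : Lv μ l0 lh) {q : ℝ} (hq : 0 < q) (h2 : MemLp (fun z => l0 z ^ q) 2 volume)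
    (hS : Speed μ l0 lh) {φ : ℂ → ℝ} (hφ : MemLp φ 2 volume) :
    Tendsto (fun h : ℝ => h⁻¹ * ∫ z, φ z * (Real.exp (-h / 2) * lh h z ^ q - l0 z ^ q)) (𝓝[>] 0)
      (𝓝 (∫ z, φ z * (q * l0 z ^ (q - 1) * (l0 z - μ z) - l0 z ^ q / 2))) := by
  have hnn := hL.nn
  have T1 := ext hL hq h2 hS hφ
  have hexp : Tendsto (fun h : ℝ => Real.exp (-h / 2)) (𝓝[>] 0) (𝓝 1) := by
    have : ContinuousAt (fun h : ℝ => Real.exp (-h / 2)) 0 := by fun_prop
    have h3 := this.tendsto
    simp only [neg_zero, zero_div, Real.exp_zero] at h3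
    exact h3.mono_left nhdsWithin_le_nhds
  have hder : Tendsto (fun h : ℝ => h⁻¹ * (Real.exp (-h / 2) - 1)) (𝓝[>] 0) (𝓝 (-1 / 2)) := by
    have h3 : HasDerivAt (fun h : ℝ => Real.exp (-h / 2)) (Real.exp (-0 / 2) * (-1 / 2)) 0 :=
      (((hasDerivAt_id (0 : ℝ)).neg).div_const 2).exp
    have h4 := h3.tendsto_slope_zero_right
    simp only [neg_zero, zero_div, Real.exp_zero, one_mul, zero_add, smul_eq_mul] at h4
    exact h4
  have hI0 : Integrable (fun z => φ z * l0 z ^ q) :=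
    int_of_le (A := 1) h2 hφ h2.aestronglyMeasurable fun z => by simp
  have T2 := (hexp.mul T1).add (hder.mul_const (∫ z, φ z * l0 z ^ q))
  have hlim : Integrable (fun z => φ z * (q * l0 z ^ (q - 1) * (l0 z - μ z))) := by
    refine int_of_le (A := q) h2 hφ ((measurable_const.mul (hL.meas0.pow_const _)).mul
      (hL.meas0.sub hL.measμ)).aestronglyMeasurable fun z => ?_
    rcases (hnn z).eq_or_lt with hz | hz
    · have : μ z = 0 := le_antisymm (by rw [hz]; exact hL.le z) (hL.nonneg z)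
      rw [← hz, this]
      simp only [sub_self, mul_zero, abs_zero]
      positivity
    · have e1 : 0 ≤ l0 z - μ z := sub_nonneg.2 (hL.le z)
      have e2 : l0 z ^ q = l0 z ^ (q - 1) * l0 z := by
        rw [← Real.rpow_add_one hz.ne']
        ring_nf
      have e3 : 0 ≤ l0 z ^ (q - 1) := Real.rpow_nonneg hz.le _
      rw [abs_of_nonneg (by positivity), abs_of_nonneg (Real.rpow_nonneg hz.le _), e2]
      have e4 : l0 z - μ z ≤ l0 z := by linarith [hL.nonneg z]
      calc q * l0 z ^ (q - 1) * (l0 z - μ z) ≤ q * l0 z ^ (q - 1) * l0 z := by gcongr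
        _ = q * (l0 z ^ (q - 1) * l0 z) := by ring
  have e : 1 * (∫ z, φ z * (q * l0 z ^ (q - 1) * (l0 z - μ z))) + -1 / 2 * ∫ z, φ z * l0 z ^ q =
      ∫ z, φ z * (q * l0 z ^ (q - 1) * (l0 z - μ z) - l0 z ^ q / 2) := by
    rw [one_mul, ← integral_const_mul, ← integral_add hlim (hI0.const_mul _)]
    refine integral_congr_ae (Eventually.of_forall fun z => ?_)
    simp only
    ring
  rw [e] at T2
  refine T2.congr' ?_
  filter_upwards [Ioc_mem_nhdsGT (zero_lt_one' ℝ)] with h hh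
  have hh0 : 0 < h := hh.1
  have hI1 : Integrable (fun z => φ z * (lh h z ^ q - l0 z ^ q)) := by
    refine int_of_le (A := Real.exp (q * h)) h2 hφ (((hL.meas h hh0).pow_const _).sub
      (hL.meas0.pow_const _)).aestronglyMeasurable fun z => ?_
    have b0 : 0 ≤ l0 z ^ q := Real.rpow_nonneg (hnn z) _
    have b1 : l0 z ^ q ≤ lh h z ^ q := Real.rpow_le_rpow (hnn z) (hL.lo h hh0 z) hq.le
    have b2 : lh h z ^ q ≤ Real.exp (q * h) * l0 z ^ q := by
      calc lh h z ^ q ≤ (Real.exp h * l0 z) ^ q :=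
            Real.rpow_le_rpow ((hnn z).trans (hL.lo h hh0 z)) (hL.hi h hh0 z) hq.le
        _ = Real.exp (q * h) * l0 z ^ q := by
          rw [Real.mul_rpow (Real.exp_pos h).le (hnn z), ← Real.exp_mul, mul_comm h q]
    rw [abs_of_nonneg (by linarith), abs_of_nonneg b0]
    linarith
  have e1 : Real.exp (-h / 2) * (h⁻¹ * ∫ z, φ z * (lh h z ^ q - l0 z ^ q)) +
      h⁻¹ * (Real.exp (-h / 2) - 1) * ∫ z, φ z * l0 z ^ q =
      h⁻¹ * ((∫ z, Real.exp (-h / 2) * (φ z * (lh h z ^ q - l0 z ^ q))) +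
        ∫ z, (Real.exp (-h / 2) - 1) * (φ z * l0 z ^ q)) := by
    rw [integral_const_mul, integral_const_mul]
    ring
  show Real.exp (-h / 2) * (h⁻¹ * ∫ z, φ z * (lh h z ^ q - l0 z ^ q)) +
      h⁻¹ * (Real.exp (-h / 2) - 1) * ∫ z, φ z * l0 z ^ q = _
  rw [e1, ← integral_add (hI1.const_mul _) (hI0.const_mul _)]
  congr 1
  refine integral_congr_ae (Eventually.of_forall fun z => ?_)
  simp only
  ring

/-- the same in the letters of the room: `q = p/(2r)`, `y = N - 1/p`, `N = (1 - μ / l0)/r` -/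
theorem ext_y (hL : Lv μ l0 lh) {p r : ℝ} (hp : 0 < p) (hr : 0 < r)
    (h2 : MemLp (fun z => l0 z ^ (p / (2 * r))) 2 volume)
    (hS : Speed μ l0 lh) {φ : ℂ → ℝ} (hφ : MemLp φ 2 volume) :
    Tendsto (fun h : ℝ => h⁻¹ *
      ∫ z, φ z * (Real.exp (-h / 2) * lh h z ^ (p / (2 * r)) - l0 z ^ (p / (2 * r)))) (𝓝[>] 0)
      (𝓝 (p / 2 * ∫ z, φ z * (((1 - μ z / l0 z) / r - 1 / p) * l0 z ^ (p / (2 * r))))) := by
  have hq : 0 < p / (2 * r) := by positivity
  have T := ext_g hL hq h2 hS hφ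
  convert T using 2
  rw [← integral_const_mul]
  refine integral_congr_ae (Eventually.of_forall fun z => ?_)
  simp only
  rcases (hL.nn z).eq_or_lt with hz | hz
  · rw [← hz, Real.zero_rpow hq.ne']
    have : μ z = 0 := le_antisymm (by rw [hz]; exact hL.le z) (hL.nonneg z)
    rw [this]
    simp
  · have e2 : l0 z ^ (p / (2 * r)) = l0 z ^ (p / (2 * r) - 1) * l0 z := by
      rw [← Real.rpow_add_one hz.ne']
      ring_nf
    rw [e2]
    field_simp

end main

end Pool.Agent.Lib.QNL.Ext17
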