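import Pool.Agent.Lib.QNL.FC31

/-!
Group F: the output `StmtF` (`ε → 0` and the cut-off `→ 0`).
-/

set_option autoImplicit false

namespace Pool.Agent.Lib.QNL.F31

open MeasureTheory Filter Topology Set
open scoped ENNReal

variable {p r : ℝ} {x : ℂ → ℂ} {X : H} {ψ : ℝ → ℂ → ℝ} {C : ℝ}

/-- the context at one good `ε` and one cut-off `a` -/
theorem ctx_of (hr : 1 ≤ r) (hx : Continuous x) (hX : (X : ℂ → ℂ) =ᵐ[volume] x)
    (hF : Fam (fun z => ‖x z‖ ^ r) ψ) (hC : 0 ≤ C) {M : ℝ} (hM : ∀ z, ‖x z‖ ^ r ≤ M)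
    {ε a smax : ℝ} (hε : 0 < ε) (ha : 0 < a) (hcut : (1 + C * ε / a) / r ≤ smax)
    (hsup : ∀ z, x z ≠ 0 → ε < ψ a z)
    (hlay : ∀ᵐ L : ℝ, 0 < L → ∀ j : ℕ, ∀ δ : ℝ, 0 < δ → ∃ h₀ : ℝ, 0 < h₀ ∧
    ∀ h, 0 < h → h < h₀ →
      (2 * j + 1) * ‖bb j {z | ε < ψ L z} X‖ ^ 2 ≤
        (1 / h) * (∫ z in {z | ε < ψ L z} \ {z | ε < ψ (L + h) z},
          (L - ‖x z‖ ^ r + C * ε) * ‖(bb j {z | ε < ψ L z} X : ℂ → ℂ) z‖ ^ 2) + δ) :
    Ctx X (fun z => ‖x z‖ ^ r) (C * ε) a r smax (fun L => {z | ε < ψ L z}) (lev ψ ε) where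
  r_pos := by linarith
  μ_meas := (hx.norm.measurable).pow_const r
  μ_nonneg := fun z => by positivity
  c_nonneg := by positivity
  a_pos := ha
  cut := hcut
  l_meas := lev_meas hF hM hε.le
  isOpen := fun L hL => dom_open hF hL
  eq := fun L hL => dom_eq hF hM hε.le hL
  supp := by
    filter_upwards [hX] with z hz h0
    rw [hz] at h0
    exact (lt_lev_iff hF hM hε.le ha z).1 (hsup z h0)
  layer := hlay

/-- the right side converges as `ε → 0` -/
theorem rhs_tendsto (hr : 1 ≤ r) (hrp : r < p) (hp : p < 2)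
    (hX : (X : ℂ → ℂ) =ᵐ[volume] x) (hx : Continuous x)
    (hF : Fam (fun z => ‖x z‖ ^ r) ψ) {M : ℝ} (hM : ∀ z, ‖x z‖ ^ r ≤ M)
    {n : ℕ} {smax : ℝ} {th B : ℕ → ℝ} {V : ℝ → ℝ} (hs : 1 / r < smax) (hQ : QForm n p smax th B V)
    {a₀ : ℝ} (ha₀ : 0 < a₀) {ε : ℕ → ℝ} (hε : ∀ k, 0 < ε k) (hε0 : Tendsto ε atTop (𝓝 0))
    (hsup : ∀ k z, x z ≠ 0 → ε k < ψ a₀ z) :
    Tendsto (fun k => ∫ z, V (clip smax ((lev ψ (ε k) z - ‖x z‖ ^ r + C * ε k) /
        (r * lev ψ (ε k) z))) * (lev ψ (ε k) z) ^ (-((2 - p) / r)) * ‖(X : ℂ → ℂ) z‖ ^ 2) atTop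
      (𝓝 (∫ z, V ((1 - ‖x z‖ ^ r / lev ψ 0 z) / r) *
        lev ψ 0 z ^ ((p - 2) / r) * ‖x z‖ ^ 2)) := by
  have hr0 : 0 < r := by linarith
  have hκ : 0 < (2 - p) / r := div_pos (by linarith) hr0
  have hS : 0 ≤ smax := le_trans (by positivity) hs.le
  obtain ⟨K, hK⟩ := isCompact_Icc.exists_bound_of_continuousOn hQ.cont
  have hK0 : 0 ≤ K := (norm_nonneg _).trans (hK 0 ⟨le_rfl, hS⟩)
  have hXm : Measurable fun z => (X : ℂ → ℂ) z := (Lp.stronglyMeasurable X).measurable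
  have hμm : Measurable fun z => ‖x z‖ ^ r := (hx.norm.measurable).pow_const r
  refine tendsto_integral_of_dominated_convergence
    (fun z => K * a₀ ^ (-((2 - p) / r)) * ‖(X : ℂ → ℂ) z‖ ^ 2) ?_ ?_ ?_ ?_
  · intro k
    have hlm := lev_meas hF hM (hε k).le
    exact ((((Vc_cont hQ hS).measurable.comp (((hlm.sub hμm).add_const _).div
      (hlm.const_mul r))).mul (hlm.pow_const _)).mul (hXm.norm.pow_const 2)).aestronglyMeasurable
  · exact (Hil.H_sq_int X).const_mul _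
  · intro k
    filter_upwards [hX] with z hz
    rcases eq_or_ne (x z) 0 with h0 | h0
    · rw [hz, h0]; simp
    · have hl : a₀ < lev ψ (ε k) z := (lt_lev_iff hF hM (hε k).le ha₀ z).1 (hsup k z h0)
      have hl0 := ha₀.trans hl
      rw [norm_mul, norm_mul, norm_pow, norm_norm]
      have h1 := hK _ (clip_mem hS ((lev ψ (ε k) z - ‖x z‖ ^ r + C * ε k) /
        (r * lev ψ (ε k) z)))
      have h2 : ‖lev ψ (ε k) z ^ (-((2 - p) / r))‖ ≤ a₀ ^ (-((2 - p) / r)) := by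
        rw [Real.norm_eq_abs, abs_of_nonneg (by positivity)]
        exact Real.rpow_le_rpow_of_nonpos ha₀ hl.le (neg_nonpos.2 hκ.le)
      exact mul_le_mul_of_nonneg_right (mul_le_mul h1 h2 (norm_nonneg _) hK0) (by positivity)
  · filter_upwards [hX] with z hz
    rcases eq_or_ne (x z) 0 with h0 | h0
    · simp [hz, h0]
    · have hl : ∀ k, a₀ < lev ψ (ε k) z := fun k =>
        (lt_lev_iff hF hM (hε k).le ha₀ z).1 (hsup k z h0)
      have ht := lev_tendsto hF hM (fun k => (hε k).le) hε0 z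
      have hl0 : 0 < lev ψ 0 z := ha₀.trans_le (ge_of_tendsto' ht fun k => (hl k).le)
      have hle := le_lev hF hM z
      rw [hz]
      refine Tendsto.mul_const _ (Tendsto.mul ?_ ?_)
      · have h1 : Tendsto (fun k => (lev ψ (ε k) z - ‖x z‖ ^ r + C * ε k) /
            (r * lev ψ (ε k) z)) atTop (𝓝 ((lev ψ 0 z - ‖x z‖ ^ r + C * 0) /
            (r * lev ψ 0 z))) :=
          ((ht.sub_const _).add (hε0.const_mul C)).div (ht.const_mul r) (by positivity)
        have h2 := (Vc_cont hQ hS).continuousAt.tendsto.comp h1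
        have h3 : (lev ψ 0 z - ‖x z‖ ^ r + C * 0) / (r * lev ψ 0 z) =
            (1 - ‖x z‖ ^ r / lev ψ 0 z) / r := by
          field_simp
          ring
        have h4 : 0 ≤ (1 - ‖x z‖ ^ r / lev ψ 0 z) / r := by
          refine div_nonneg (sub_nonneg.2 ?_) hr0.le
          exact (div_le_one hl0).2 hle
        have h5 : (1 - ‖x z‖ ^ r / lev ψ 0 z) / r ≤ smax := by
          refine le_trans ?_ hs.le
          gcongr
          have : 0 ≤ ‖x z‖ ^ r / lev ψ 0 z := by positivity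
          linarith
        rw [h3] at h2
        simpa only [Function.comp_def, clip_eq h4 h5] using h2
      · have h1 : (p - 2) / r = -((2 - p) / r) := by ring
        rw [h1]
        exact ht.rpow_const (Or.inl hl0.ne')

/-- a good `ε` below any positive bound -/
theorem exists_good {Q : ℝ → Prop} (h : ∀ᵐ ε : ℝ, 0 < ε → Q ε) {δ : ℝ} (hδ : 0 < δ) :
    ∃ ε, 0 < ε ∧ ε < δ ∧ Q ε := by
  have hne : (ae (volume.restrict (Ioo 0 δ))).NeBot := by
    rw [ae_restrict_neBot, Real.volume_Ioo]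
    simpa using hδ
  have h3 : ∀ᵐ ε ∂(volume.restrict (Ioo 0 δ)), (0 < ε → Q ε) ∧ ε ∈ Ioo 0 δ :=
    (ae_restrict_of_ae h).and (ae_restrict_mem measurableSet_Ioo)
  have := hne
  obtain ⟨ε, h1, h2⟩ := h3.exists
  exact ⟨ε, h2.1, h2.2, h1 h2.1⟩

/-- the left side at one good `ε` -/
theorem lhs_le (hr : 1 ≤ r) (hp : p < 2) {ε a smax : ℝ} (hε : 0 < ε) (ha : 0 < a)
    (hctx : Ctx X (fun z => ‖x z‖ ^ r) (C * ε) a r smax (fun L => {z | ε < ψ L z}) (lev ψ ε))
    {n : ℕ} {th B : ℕ → ℝ} {V : ℝ → ℝ} (hQ : QForm n p smax th B V) :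
    ∫⁻ L in Ioi a, ENNReal.ofReal ((2 - p) / r * L ^ ((p - 2) / r - 1) *
        ∑ j ∈ Finset.range (n + 1), B j * E j {z | 0 < ψ L z} X) ≤
      ENNReal.ofReal (∑ j ∈ Finset.range (n + 1),
        B j * AA X (fun L => {z | ε < ψ L z}) ((2 - p) / r) a j) := by
  have hr0 : 0 < r := by linarith
  have hκ : 0 < (2 - p) / r := div_pos (by linarith) hr0
  set κ := (2 - p) / r with hκd
  set D : ℝ → Set ℂ := fun L => {z | ε < ψ L z} with hD
  have hEi : ∀ j, IntegrableOn (fun L : ℝ => κ * L ^ (-κ - 1) * En X D j L) (Ioi a) := fun j =>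
    wE_int hκ ha (hctx.En_mono j).measurable (En_nonneg j) (En_le j)
  have e1 : ∑ j ∈ Finset.range (n + 1), B j * AA X D κ a j =
      ∫ L in Ioi a, ∑ j ∈ Finset.range (n + 1), B j * (κ * L ^ (-κ - 1) * En X D j L) := by
    rw [integral_finsetSum _ fun j _ => (hEi j).const_mul _]
    exact Finset.sum_congr rfl fun j _ => (integral_const_mul _ _).symm
  rw [e1, ofReal_integral_eq_lintegral_ofReal
    (integrable_finsetSum _ fun j _ => (hEi j).const_mul _)]
  · refine setLIntegral_mono' measurableSet_Ioi fun L hL => ENNReal.ofReal_le_ofReal ?_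
    have hL0 : 0 < L := ha.trans hL
    rw [Finset.mul_sum]
    refine Finset.sum_le_sum fun j _ => ?_
    have h1 : E j {z | 0 < ψ L z} X ≤ En X D j L := by
      rw [En_pos hL0]
      exact Hil.E_anti j (fun z hz => hε.trans hz) X
    have h2 : (p - 2) / r - 1 = -κ - 1 := by rw [hκd]; ring
    rw [h2]
    have h3 := hQ.B_nonneg j
    have h4 : 0 ≤ κ * L ^ (-κ - 1) := by positivity
    calc κ * L ^ (-κ - 1) * (B j * E j {z | 0 < ψ L z} X)
        = B j * (κ * L ^ (-κ - 1) * E j {z | 0 < ψ L z} X) := by ring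
      _ ≤ _ := by gcongr
  · refine (ae_restrict_iff' measurableSet_Ioi).2 (ae_of_all _ fun L hL => ?_)
    have hL0 : 0 < L := ha.trans hL
    refine Finset.sum_nonneg fun j _ => ?_
    have h3 := hQ.B_nonneg j
    have h4 := En_nonneg (X := X) (D := D) j L
    positivity

theorem stmtF_of (H0 : StmtH0) : StmtF := by
  intro p r hr hrp hp x X hx hxc hX ψ C hF hC hLay n smax th B V hs hQ
  have hr0 : 0 < r := by linarith
  have hS : 0 ≤ smax := le_trans (by positivity) hs.le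
  by_cases hx0 : ∀ z, x z = 0
  · -- the trivial case
    have hX0 : X = 0 := by
      rw [Lp.eq_zero_iff_ae_eq_zero]
      filter_upwards [hX] with z hz
      rw [hz, hx0 z]; rfl
    have hE : ∀ j (D : Set ℂ), E j D X = 0 := fun j D => by
      have h1 := Hil.E_le_norm j D X
      have h2 := Hil.E_nonneg j D X
      rw [hX0, norm_zero] at h1
      rw [hX0] at h2 ⊢
      exact le_antisymm (by simpa using h1) h2
    simp [hE]
  push Not at hx0
  obtain ⟨z₀, hz₀⟩ := hx0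
  obtain ⟨M, hM⟩ := hx.bounded_above_of_compact_support hxc
  have hM' : ∀ z, ‖x z‖ ^ r ≤ M ^ r := fun z =>
    Real.rpow_le_rpow (norm_nonneg _) (hM z) hr0.le
  obtain ⟨R, hR⟩ := hxc.isCompact.isBounded.subset_closedBall (0 : ℂ)
  have hRs : ∀ z, x z ≠ 0 → ‖z‖ ≤ R := fun z hz => by
    have := hR (subset_tsupport x hz)
    simpa using this
  obtain ⟨L₀, hL₀, hsm⟩ := hF.small ⟨z₀, by positivity⟩ R 1
  set a₀ := L₀ / 2 with ha₀d
  have ha₀ : 0 < a₀ := by positivity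
  have hgap : 0 < r * smax - 1 := by
    rw [div_lt_iff₀ hr0] at hs
    linarith
  set a : ℕ → ℝ := fun k => a₀ / ((k : ℝ) + 1) with had
  have ha : ∀ k, 0 < a k := fun k => by simp only [had]; positivity
  have haa₀ : ∀ k, a k ≤ a₀ := fun k => by
    simp only [had]
    refine div_le_self ha₀.le ?_
    have : (0 : ℝ) ≤ k := Nat.cast_nonneg k
    linarith
  have hamono : Antitone a := fun i k hik => by
    simp only [had]
    gcongr
  -- the choice of `ε`
  have hch : ∀ k : ℕ, ∃ ε : ℝ, 0 < ε ∧ ε < min (1 / ((k : ℝ) + 1)) ((r * smax - 1) * a k / (C + 1)) ∧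
      ∀ᵐ L : ℝ, 0 < L → ∀ j : ℕ, ∀ δ : ℝ, 0 < δ → ∃ h₀ : ℝ, 0 < h₀ ∧
    ∀ h, 0 < h → h < h₀ →
      (2 * j + 1) * ‖bb j {z | ε < ψ L z} X‖ ^ 2 ≤
        (1 / h) * (∫ z in {z | ε < ψ L z} \ {z | ε < ψ (L + h) z},
          (L - ‖x z‖ ^ r + C * ε) * ‖(bb j {z | ε < ψ L z} X : ℂ → ℂ) z‖ ^ 2) + δ := by
    intro k
    refine exists_good hLay (lt_min (by positivity) ?_)
    have := ha k
    positivity
  choose ε hε hεlt hlay using hch
  have hε0 : Tendsto ε atTop (𝓝 0) :=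
    squeeze_zero (fun k => (hε k).le) (fun k => ((hεlt k).trans_le (min_le_left _ _)).le)
      tendsto_one_div_add_atTop_nhds_zero_nat
  have hε1 : ∀ k, ε k < 1 := fun k => by
    refine ((hεlt k).trans_le (min_le_left _ _)).trans_le ?_
    rw [div_le_one (by positivity)]
    have : (0 : ℝ) ≤ k := Nat.cast_nonneg k
    linarith
  have hsup' : ∀ k (b : ℝ), 0 < b → b ≤ a₀ → ∀ z, x z ≠ 0 → ε k < ψ b z := fun k b hb hb' z hz =>
    (hε1 k).trans (hsm b hb (by rw [ha₀d] at hb'; linarith) z (hRs z hz))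
  have hcut : ∀ k, (1 + C * ε k / a k) / r ≤ smax := by
    intro k
    rw [div_le_iff₀ hr0]
    have h1 : ε k * (C + 1) ≤ (r * smax - 1) * a k := by
      have := (hεlt k).trans_le (min_le_right _ _)
      rw [lt_div_iff₀ (by linarith)] at this
      exact this.le
    have h2 : C * ε k / a k ≤ r * smax - 1 := by
      rw [div_le_iff₀ (ha k)]
      nlinarith [hε k]
    linarith
  have hctx : ∀ k, Ctx X (fun z => ‖x z‖ ^ r) (C * ε k) (a k) r smax
      (fun L => {z | ε k < ψ L z}) (lev ψ (ε k)) := fun k =>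
    ctx_of hr hx hX hF hC hM' (hε k) (ha k) (hcut k) (hsup' k (a k) (ha k) (haa₀ k)) (hlay k)
  have hrhs := rhs_tendsto (C := C) hr hrp hp hX hx hF hM' hs hQ ha₀ hε hε0
    (fun k z hz => hsup' k a₀ ha₀ le_rfl z hz)
  set f : ℝ → ℝ≥0∞ := fun L => ENNReal.ofReal ((2 - p) / r * L ^ ((p - 2) / r - 1) *
        ∑ j ∈ Finset.range (n + 1), B j * E j {z | 0 < ψ L z} X) with hf
  have hstep : ∀ m, ∫⁻ L in Ioi (a m), f L ≤ ENNReal.ofReal (∫ z, V ((1 - ‖x z‖ ^ r /
      lev ψ 0 z) / r) * lev ψ 0 z ^ ((p - 2) / r) * ‖x z‖ ^ 2) := by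
    intro m
    refine ge_of_tendsto (ENNReal.tendsto_ofReal hrhs) ?_
    filter_upwards [eventually_ge_atTop m] with k hk
    calc ∫⁻ L in Ioi (a m), f L ≤ ∫⁻ L in Ioi (a k), f L :=
          lintegral_mono_set (Ioi_subset_Ioi (hamono hk))
      _ ≤ _ := lhs_le hr hp (hε k) (ha k) (hctx k) hQ
      _ ≤ _ := ENNReal.ofReal_le_ofReal ((hctx k).core H0 hQ hp)
  have hU : (⋃ m, Ioi (a m)) = Ioi (0 : ℝ) := by
    ext L
    simp only [mem_iUnion, mem_Ioi]
    constructor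
    · rintro ⟨m, hm⟩
      exact (ha m).trans hm
    · intro hL
      obtain ⟨m, hm⟩ := exists_nat_one_div_lt (div_pos hL ha₀)
      refine ⟨m, ?_⟩
      simp only [had]
      rw [lt_div_iff₀ ha₀] at hm
      calc a₀ / ((m : ℝ) + 1) = 1 / ((m : ℝ) + 1) * a₀ := by ring
        _ < L := hm
  rw [← hU, setLIntegral_iUnion_of_directed]
  · exact iSup_le hstep
  · exact directed_of_isDirected_le fun i k hik => Ioi_subset_Ioi (hamono hik)

end Pool.Agent.Lib.QNL.F31
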