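import Pool.Agent.Lib.QNL.FStmt

/-!
Group F, part A: the level function and one-variable lemmas (monotone functions against the
weight `κ L ^ (-κ - 1)`).
-/

set_option autoImplicit false

namespace Pool.Agent.Lib.QNL.F31

open MeasureTheory Filter Topology Set
open scoped ENNReal

/-! ### The level function -/

section Lev

variable {μ : ℂ → ℝ} {ψ : ℝ → ℂ → ℝ}

theorem lev_nonneg (ψ : ℝ → ℂ → ℝ) (ε : ℝ) (z : ℂ) : 0 ≤ lev ψ ε z :=
  Real.sSup_nonneg fun _ h => h.1.le

theorem bddAbove (hF : Fam μ ψ) {M : ℝ} (hM : ∀ z, μ z ≤ M) {ε : ℝ} (hε : 0 ≤ ε) (z : ℂ) :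
    BddAbove {L : ℝ | 0 < L ∧ ε < ψ L z} := by
  refine ⟨M, fun L hL => ?_⟩
  by_contra h
  push Not at h
  have := hF.top L z (fun w => (hM w).trans h.le) hL.1
  linarith [hL.2]

/-- `z ∈ {ε < ψ L} ↔ L < lev z` -/
theorem lt_lev_iff (hF : Fam μ ψ) {M : ℝ} (hM : ∀ z, μ z ≤ M) {ε : ℝ} (hε : 0 ≤ ε) {L : ℝ}
    (hL : 0 < L) (z : ℂ) : ε < ψ L z ↔ L < lev ψ ε z := by
  constructor
  · intro h
    have h1 : ∀ᶠ L' in 𝓝[≥] L, ε < ψ L' z := (hF.right z L hL) (Ioi_mem_nhds h)
    have h2 : ∀ᶠ L' in 𝓝[>] L, ε < ψ L' z := h1.filter_mono (nhdsWithin_mono _ Ioi_subset_Ici_self)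
    obtain ⟨L', hL', hL''⟩ := (h2.and self_mem_nhdsWithin).exists
    exact lt_of_lt_of_le hL'' (le_csSup (bddAbove hF hM hε z) ⟨hL.trans hL'', hL'⟩)
  · intro h
    have hne : {L : ℝ | 0 < L ∧ ε < ψ L z}.Nonempty := by
      rw [Set.nonempty_iff_ne_empty]
      intro he
      rw [lev, he, Real.sSup_empty] at h
      exact absurd h (not_lt.2 hL.le)
    obtain ⟨L', hL', hlt⟩ := exists_lt_of_lt_csSup hne h
    exact hL'.2.trans_le (hF.anti z L L' hL hlt.le)

theorem dom_eq (hF : Fam μ ψ) {M : ℝ} (hM : ∀ z, μ z ≤ M) {ε : ℝ} (hε : 0 ≤ ε) {L : ℝ}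
    (hL : 0 < L) : {z | ε < ψ L z} = {z | L < lev ψ ε z} :=
  Set.ext fun z => lt_lev_iff hF hM hε hL z

theorem dom_open (hF : Fam μ ψ) {ε L : ℝ} (hL : 0 < L) : IsOpen {z | ε < ψ L z} :=
  (hF.lsc L hL).isOpen_preimage ε

theorem lev_meas (hF : Fam μ ψ) {M : ℝ} (hM : ∀ z, μ z ≤ M) {ε : ℝ} (hε : 0 ≤ ε) :
    Measurable (lev ψ ε) := by
  have h1 : ∀ a : ℝ, 0 < a → MeasurableSet {z | a < lev ψ ε z} := fun a ha => by
    rw [← dom_eq hF hM hε ha]
    exact (dom_open hF ha).measurableSet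
  refine measurable_of_Ioi fun a => ?_
  change MeasurableSet {z | a < lev ψ ε z}
  rcases lt_trichotomy a 0 with ha | ha | ha
  · have : {z | a < lev ψ ε z} = univ := by
      ext z
      simp only [mem_ofPred_eq, mem_univ, iff_true]
      exact ha.trans_le (lev_nonneg ψ ε z)
    rw [this]
    exact MeasurableSet.univ
  · subst ha
    have : {z | 0 < lev ψ ε z} = ⋃ k : ℕ, {z | 1 / ((k : ℝ) + 1) < lev ψ ε z} := by
      ext z
      simp only [mem_ofPred_eq, mem_iUnion]
      constructor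
      · intro h
        exact exists_nat_one_div_lt h
      · rintro ⟨k, hk⟩
        exact lt_trans (by positivity) hk
    rw [this]
    exact MeasurableSet.iUnion fun k => h1 _ (by positivity)
  · exact h1 a ha

theorem lev_anti (hF : Fam μ ψ) {M : ℝ} (hM : ∀ z, μ z ≤ M) {ε ε' : ℝ} (hε : 0 ≤ ε)
    (h : ε ≤ ε') (z : ℂ) : lev ψ ε' z ≤ lev ψ ε z := by
  by_contra h1
  push Not at h1
  obtain ⟨L, hL1, hL2⟩ := exists_between h1
  have hL : 0 < L := (lev_nonneg ψ ε z).trans_lt hL1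
  have h2 := (lt_lev_iff hF hM (hε.trans h) hL z).2 hL2
  have h3 := (lt_lev_iff hF hM hε hL z).1 (h.trans_lt h2)
  exact absurd h3 (not_lt.2 hL1.le)

/-- `l_ε → l_0` -/
theorem lev_tendsto (hF : Fam μ ψ) {M : ℝ} (hM : ∀ z, μ z ≤ M) {ε : ℕ → ℝ}
    (hε : ∀ k, 0 ≤ ε k) (hε0 : Tendsto ε atTop (𝓝 0)) (z : ℂ) :
    Tendsto (fun k => lev ψ (ε k) z) atTop (𝓝 (lev ψ 0 z)) := by
  rw [tendsto_order]
  constructor
  · intro a ha
    rcases lt_or_ge a 0 with h0 | h0
    · exact Eventually.of_forall fun k => h0.trans_le (lev_nonneg ψ _ z)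
    · obtain ⟨L, hL1, hL2⟩ := exists_between ha
      have hL : 0 < L := h0.trans_lt hL1
      have h2 := (lt_lev_iff hF hM le_rfl hL z).2 hL2
      filter_upwards [hε0.eventually_lt_const h2] with k hk
      exact hL1.trans ((lt_lev_iff hF hM (hε k) hL z).1 hk)
  · intro a ha
    exact Eventually.of_forall fun k => (lev_anti hF hM le_rfl (hε k) z).trans_lt ha

/-- `μ ≤ l_0` -/
theorem le_lev (hF : Fam μ ψ) {M : ℝ} (hM : ∀ z, μ z ≤ M) (z : ℂ) : μ z ≤ lev ψ 0 z := by
  refine le_of_forall_gt_imp_ge_of_dense fun L hL => ?_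
  have hL0 : 0 < L := (lev_nonneg ψ 0 z).trans_lt hL
  refine hF.out L hL0 z ?_
  have h1 : ¬ 0 < ψ L z := fun h => absurd ((lt_lev_iff hF hM le_rfl hL0 z).1 h)
    (not_lt.2 hL.le)
  exact le_antisymm (not_lt.1 h1) (hF.nonneg L z hL0)

end Lev

/-! ### One variable -/

section One

theorem w_int {κ a : ℝ} (hκ : 0 < κ) (ha : 0 < a) :
    IntegrableOn (fun L : ℝ => κ * L ^ (-κ - 1)) (Ioi a) :=
  (integrableOn_Ioi_rpow_of_lt (by linarith) ha).const_mul κ

theorem w_integral {κ a : ℝ} (hκ : 0 < κ) (ha : 0 < a) :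
    ∫ L in Ioi a, κ * L ^ (-κ - 1) = a ^ (-κ) := by
  rw [integral_const_mul, integral_Ioi_rpow_of_lt (by linarith) ha]
  rw [show -κ - 1 + 1 = -κ by ring]
  field_simp

theorem w_lintegral {κ a : ℝ} (hκ : 0 < κ) (ha : 0 < a) :
    ∫⁻ L in Ioi a, ENNReal.ofReal (κ * L ^ (-κ - 1)) = ENNReal.ofReal (a ^ (-κ)) := by
  rw [← w_integral hκ ha, ofReal_integral_eq_lintegral_ofReal (w_int hκ ha)]
  refine (ae_restrict_iff' measurableSet_Ioi).2 (ae_of_all _ fun L hL => ?_)
  have : 0 < L := ha.trans hL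
  positivity

theorem wE_int {κ a K : ℝ} (hκ : 0 < κ) (ha : 0 < a) {E : ℝ → ℝ} (hE : Measurable E)
    (h0 : ∀ L, 0 ≤ E L) (hK : ∀ L, E L ≤ K) :
    IntegrableOn (fun L : ℝ => κ * L ^ (-κ - 1) * E L) (Ioi a) := by
  refine (w_int hκ ha).mul_bdd (c := K) hE.aestronglyMeasurable (ae_of_all _ fun L => ?_)
  rw [Real.norm_eq_abs, abs_of_nonneg (h0 L)]
  exact hK L

/-- the increments of a monotone function against the primitive of the weight -/
theorem incr_le {κ a h : ℝ} (hκ : 0 < κ) (ha : 0 < a) (hh : 0 < h) {E : ℝ → ℝ}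
    (hE : Monotone E) (h0 : ∀ L, 0 ≤ E L) :
    ∫⁻ L in Ioi a, ENNReal.ofReal (L ^ (-κ) * (E (L + h) - E L)) ≤
      ∫⁻ L in Ioi a, ENNReal.ofReal (κ * L ^ (-κ - 1) * (h * E (L + h))) := by
  have hm : Measurable E := hE.measurable
  have hsub : ∀ L, 0 ≤ E (L + h) - E L := fun L => sub_nonneg.2 (hE (by linarith))
  have hwm : Measurable fun L : ℝ => ENNReal.ofReal (κ * L ^ (-κ - 1)) := by fun_prop
  have hdm : Measurable fun L : ℝ => ENNReal.ofReal (E (L + h) - E L) := by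
    have h1 : Measurable fun L => E (L + h) := hm.comp (measurable_id.add_const h)
    exact (h1.sub hm).ennreal_ofReal
  have e1 : ∫⁻ L in Ioi a, ENNReal.ofReal (L ^ (-κ) * (E (L + h) - E L)) =
      ∫⁻ L in Ioi a, ∫⁻ L' in Ioi a, (Ioi L).indicator
        (fun L' => ENNReal.ofReal (κ * L' ^ (-κ - 1))) L' * ENNReal.ofReal (E (L + h) - E L) := by
    refine setLIntegral_congr_fun measurableSet_Ioi fun L hL => ?_
    have hL0 : 0 < L := ha.trans hL
    rw [ENNReal.ofReal_mul (by positivity), ← w_lintegral hκ hL0,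
      lintegral_mul_const _ (hwm.indicator measurableSet_Ioi)]
    congr 1
    rw [setLIntegral_indicator measurableSet_Ioi, Set.Ioi_inter_Ioi, sup_eq_left.2 (le_of_lt hL)]
  have e2 : ∫⁻ L in Ioi a, ∫⁻ L' in Ioi a, (Ioi L).indicator
        (fun L' => ENNReal.ofReal (κ * L' ^ (-κ - 1))) L' * ENNReal.ofReal (E (L + h) - E L) =
      ∫⁻ L' in Ioi a, ∫⁻ L in Ioi a, (Ioi L).indicator
        (fun L' => ENNReal.ofReal (κ * L' ^ (-κ - 1))) L' * ENNReal.ofReal (E (L + h) - E L) := by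
    refine lintegral_lintegral_swap ?_
    refine Measurable.aemeasurable ?_
    have hS : MeasurableSet {q : ℝ × ℝ | q.1 < q.2} := measurableSet_lt measurable_fst measurable_snd
    have : (Function.uncurry fun L L' : ℝ => (Ioi L).indicator
        (fun L' => ENNReal.ofReal (κ * L' ^ (-κ - 1))) L' * ENNReal.ofReal (E (L + h) - E L)) =
        fun q : ℝ × ℝ => {q : ℝ × ℝ | q.1 < q.2}.indicator
          (fun q => ENNReal.ofReal (κ * q.2 ^ (-κ - 1))) q * ENNReal.ofReal (E (q.1 + h) - E q.1) := by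
      ext q
      rfl
    rw [this]
    exact ((hwm.comp measurable_snd).indicator hS).mul (hdm.comp measurable_fst)
  rw [e1, e2]
  refine setLIntegral_mono' measurableSet_Ioi fun L' hL' => ?_
  have hL0 : 0 < L' := ha.trans hL'
  have hw0 : 0 ≤ κ * L' ^ (-κ - 1) := by positivity
  have e3 : ∀ L, (Ioi L).indicator (fun L' => ENNReal.ofReal (κ * L' ^ (-κ - 1))) L' *
      ENNReal.ofReal (E (L + h) - E L) = ENNReal.ofReal (κ * L' ^ (-κ - 1)) *
        (Iio L').indicator (fun L => ENNReal.ofReal (E (L + h) - E L)) L := by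
    intro L
    by_cases hlt : L < L'
    · rw [indicator_of_mem (show L' ∈ Ioi L from hlt), indicator_of_mem (show L ∈ Iio L' from hlt)]
    · rw [indicator_of_notMem (show L' ∉ Ioi L from hlt),
        indicator_of_notMem (show L ∉ Iio L' from hlt), zero_mul, mul_zero]
  simp_rw [e3]
  rw [lintegral_const_mul _ (hdm.indicator measurableSet_Iio),
    setLIntegral_indicator measurableSet_Iio, ENNReal.ofReal_mul hw0]
  gcongr
  -- the inner integral
  have e4 : Iio L' ∩ Ioi a = Ioo a L' := by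
    ext L; simp only [mem_inter_iff, mem_Iio, mem_Ioi, mem_Ioo]; tauto
  rw [e4]
  have hii : ∀ a b : ℝ, IntervalIntegrable E volume a b := fun a b => hE.intervalIntegrable
  have hii2 : ∀ a b : ℝ, IntervalIntegrable (fun L => E (L + h)) volume a b := fun a b =>
    Monotone.intervalIntegrable (fun x y hxy => hE (by linarith))
  have e5 : ∫⁻ L in Ioo a L', ENNReal.ofReal (E (L + h) - E L) =
      ENNReal.ofReal (∫ L in a..L', (E (L + h) - E L)) := by
    rw [intervalIntegral.integral_of_le (le_of_lt hL'), integral_Ioc_eq_integral_Ioo,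
      ofReal_integral_eq_lintegral_ofReal]
    · exact (((hii2 a L').sub (hii a L')).1).mono_set Ioo_subset_Ioc_self
    · exact ae_of_all _ fun L => hsub L
  rw [e5]
  refine ENNReal.ofReal_le_ofReal ?_
  rw [intervalIntegral.integral_sub (hii2 _ _) (hii _ _),
    intervalIntegral.integral_comp_add_right (fun L => E L)]
  have e6 := intervalIntegral.integral_add_adjacent_intervals (hii a (a + h)) (hii (a + h) (L' + h))
  have e7 := intervalIntegral.integral_add_adjacent_intervals (hii a L') (hii L' (L' + h))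
  have e8 : 0 ≤ ∫ L in a..(a + h), E L :=
    intervalIntegral.integral_nonneg (by linarith) fun L _ => h0 L
  have e9 : ∫ L in L'..(L' + h), E L ≤ h * E (L' + h) := by
    have := intervalIntegral.integral_mono_on (by linarith : L' ≤ L' + h) (hii L' (L' + h))
      (intervalIntegrable_const (c := E (L' + h))) (fun x hx => hE hx.2)
    simpa using this
  linarith

/-- `∫ w(L) E(L + h) dL → ∫ w(L) E(L) dL` -/
theorem shift_tendsto {κ a K : ℝ} (hκ : 0 < κ) (ha : 0 < a) {E : ℝ → ℝ}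
    (hE : Monotone E) (h0 : ∀ L, 0 ≤ E L) (hK : ∀ L, E L ≤ K) {h : ℕ → ℝ}
    (hh : Tendsto h atTop (𝓝 0)) :
    Tendsto (fun k => ∫ L in Ioi a, κ * L ^ (-κ - 1) * E (L + h k)) atTop
      (𝓝 (∫ L in Ioi a, κ * L ^ (-κ - 1) * E L)) := by
  have hm : Measurable E := hE.measurable
  refine tendsto_integral_of_dominated_convergence (fun L => κ * L ^ (-κ - 1) * K) ?_ ?_ ?_ ?_
  · intro k
    exact (wE_int hκ ha (hm.comp (measurable_id.add_const (h k))) (fun L => h0 _)
      (fun L => hK _)).aestronglyMeasurable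
  · exact (w_int hκ ha).mul_const K
  · intro k
    refine (ae_restrict_iff' measurableSet_Ioi).2 (ae_of_all _ fun L hL => ?_)
    have hL0 : 0 < L := ha.trans hL
    have hw0 : 0 ≤ κ * L ^ (-κ - 1) := by positivity
    rw [Real.norm_eq_abs, abs_of_nonneg (mul_nonneg hw0 (h0 _))]
    exact mul_le_mul_of_nonneg_left (hK _) hw0
  · have h1 : ∀ᵐ L, ContinuousAt E L := by
      have := hE.countable_not_continuousAt.ae_notMem volume
      filter_upwards [this] with L hL
      simpa using hL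
    refine ae_restrict_of_ae ?_
    filter_upwards [h1] with L hL
    refine Tendsto.const_mul _ ?_
    have h2 : Tendsto (fun k => L + h k) atTop (𝓝 L) := by
      simpa using tendsto_const_nhds.add hh
    exact hL.tendsto.comp h2

/-- averages over `[l - h, l)` of a function that is continuous at `l` -/
theorem avg_tendsto {g : ℝ → ℝ} {l : ℝ} (hg : ContinuousAt g l) (hg0 : ∀ L, 0 ≤ g L)
    {h : ℕ → ℝ} (hh0 : ∀ k, 0 < h k) (hh : Tendsto h atTop (𝓝 0)) :
    Tendsto (fun k => (ENNReal.ofReal (h k))⁻¹ *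
      ∫⁻ L in Ico (l - h k) l, ENNReal.ofReal (g L)) atTop (𝓝 (ENNReal.ofReal (g l))) := by
  rw [ENNReal.tendsto_nhds ENNReal.ofReal_ne_top]
  intro ε hε
  -- a real radius
  obtain ⟨δ, hδ0, hδε⟩ : ∃ δ : ℝ, 0 < δ ∧ ENNReal.ofReal δ ≤ ε := by
    rcases eq_or_ne ε ⊤ with rfl | ht
    · exact ⟨1, one_pos, le_top⟩
    · exact ⟨ε.toReal, ENNReal.toReal_pos hε.ne' ht, (ENNReal.ofReal_toReal ht).le⟩
  obtain ⟨η, hη, hball⟩ := Metric.continuousAt_iff.1 hg δ hδ0
  have h1 : ∀ᶠ k in atTop, h k < η := hh.eventually_lt_const hη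
  filter_upwards [h1] with k hk
  have hvol : volume (Ico (l - h k) l) = ENNReal.ofReal (h k) := by
    rw [Real.volume_Ico]; congr 1; ring
  have hne : ENNReal.ofReal (h k) ≠ 0 := (ENNReal.ofReal_pos.2 (hh0 k)).ne'
  have hcanc : ∀ c : ℝ≥0∞, (ENNReal.ofReal (h k))⁻¹ * (c * ENNReal.ofReal (h k)) = c := fun c => by
    rw [mul_comm c, ← mul_assoc, ENNReal.inv_mul_cancel hne ENNReal.ofReal_ne_top, one_mul]
  have hb : ∀ L ∈ Ico (l - h k) l, g l - δ ≤ g L ∧ g L ≤ g l + δ := fun L hL => by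
    have h2 : dist L l < η := by
      rw [Real.dist_eq, abs_lt]
      constructor <;> linarith [hL.1, hL.2]
    have h3 := hball h2
    rw [Real.dist_eq, abs_lt] at h3
    constructor <;> linarith [h3.1, h3.2]
  constructor
  · calc ENNReal.ofReal (g l) - ε ≤ ENNReal.ofReal (g l) - ENNReal.ofReal δ :=
          tsub_le_tsub_left hδε _
      _ = ENNReal.ofReal (g l - δ) := (ENNReal.ofReal_sub _ hδ0.le).symm
      _ = (ENNReal.ofReal (h k))⁻¹ * ∫⁻ _ in Ico (l - h k) l, ENNReal.ofReal (g l - δ) := by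
          rw [setLIntegral_const, hvol, hcanc]
      _ ≤ _ := by
          refine mul_le_mul_right ?_ _
          exact setLIntegral_mono' measurableSet_Ico fun L hL =>
            ENNReal.ofReal_le_ofReal (hb L hL).1
  · calc (ENNReal.ofReal (h k))⁻¹ * ∫⁻ L in Ico (l - h k) l, ENNReal.ofReal (g L)
        ≤ (ENNReal.ofReal (h k))⁻¹ * ∫⁻ _ in Ico (l - h k) l, ENNReal.ofReal (g l + δ) := by
          refine mul_le_mul_right ?_ _
          exact setLIntegral_mono' measurableSet_Ico fun L hL =>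
            ENNReal.ofReal_le_ofReal (hb L hL).2
      _ = ENNReal.ofReal (g l + δ) := by rw [setLIntegral_const, hvol, hcanc]
      _ = ENNReal.ofReal (g l) + ENNReal.ofReal δ := ENNReal.ofReal_add (hg0 _) hδ0.le
      _ ≤ ENNReal.ofReal (g l) + ε := by gcongr

end One

end Pool.Agent.Lib.QNL.F31
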