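import Pool.Agent.Lib.QNL.FA31
import Pool.Agent.Lib.QNL.HilS

/-!
Group F, part B: the pointwise form inequality integrated over a layer.
-/

set_option autoImplicit false

namespace Pool.Agent.Lib.QNL.F31

open MeasureTheory Filter Topology Set
open scoped ENNReal

/-- `P_0` is the restriction to `D` (group H) -/
def StmtH0 : Prop := ∀ (D : Set ℂ) (X : H), IsOpen D →
  (P 0 D X : ℂ → ℂ) =ᵐ[volume] D.indicator (X : ℂ → ℂ)

/-- truncation to `[0, S]` -/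
noncomputable def clip (S s : ℝ) : ℝ := max 0 (min s S)

theorem clip_nonneg (S s : ℝ) : 0 ≤ clip S s := le_max_left _ _

theorem clip_le {S : ℝ} (hS : 0 ≤ S) (s : ℝ) : clip S s ≤ S := max_le hS (min_le_right _ _)

theorem clip_mem {S : ℝ} (hS : 0 ≤ S) (s : ℝ) : clip S s ∈ Icc 0 S :=
  ⟨clip_nonneg S s, clip_le hS s⟩

theorem le_clip {S s : ℝ} (h : s ≤ S) : s ≤ clip S s := by
  rw [clip, min_eq_left h]; exact le_max_right _ _

theorem clip_eq {S s : ℝ} (h0 : 0 ≤ s) (h : s ≤ S) : clip S s = s := by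
  rw [clip, min_eq_left h, max_eq_right h0]

theorem clip_cont (S : ℝ) : Continuous (clip S) := by unfold clip; fun_prop

section Form

variable {n : ℕ} {p smax : ℝ} {th B : ℕ → ℝ} {V : ℝ → ℝ}

theorem Vc_cont (hQ : QForm n p smax th B V) (hS : 0 ≤ smax) :
    Continuous fun s => V (clip smax s) :=
  hQ.cont.comp_continuous (clip_cont smax) (clip_mem hS)

/-- `V ≥ B 0 + th 0` -/
theorem V_ge (hQ : QForm n p smax th B V) (hp : p < 2) {s : ℝ} (hs : s ∈ Icc 0 smax) :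
    B 0 + th 0 ≤ V s := by
  have h1 := hQ.form s hs fun j => if j = 0 then 1 else 0
  simp only [if_true, Nat.add_eq_zero_iff, one_ne_zero, and_false, if_false, norm_zero, norm_one,
    ne_eq, OfNat.ofNat_ne_zero, not_false_eq_true, zero_pow, mul_zero, Finset.sum_const_zero,
    add_zero, one_pow, mul_one, sub_zero] at h1
  have h2 : 0 ≤ ∑ j ∈ Finset.range n, th j / (2 * (j : ℝ) + 1) * ((2 - p) * s) *
      ‖(if j = 0 then (1 : ℂ) else 0)‖ ^ 2 := by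
    refine Finset.sum_nonneg fun j _ => ?_
    have := hQ.th_nonneg j
    have h3 : 0 ≤ (2 - p) * s := mul_nonneg (by linarith) hs.1
    positivity
  linarith

theorem bb_coe (j : ℕ) (D : Set ℂ) (X : H) :
    (bb j D X : ℂ → ℂ) =ᵐ[volume] fun z => (P j D X : ℂ → ℂ) z - (P (j + 1) D X : ℂ → ℂ) z :=
  Lp.coeFn_sub _ _

theorem sq_int (f : H) {R : Set ℂ} : IntegrableOn (fun z => ‖(f : ℂ → ℂ) z‖ ^ 2) R :=
  (Hil.H_sq_int f).integrableOn

theorem s_sq_int (f : H) {R : Set ℂ} {s : ℂ → ℝ} (hs : Measurable s) {K : ℝ}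
    (h1 : ∀ z, |s z| ≤ K) : IntegrableOn (fun z => s z * ‖(f : ℂ → ℂ) z‖ ^ 2) R :=
  (sq_int f).bdd_mul (c := K) hs.aestronglyMeasurable (ae_of_all _ h1)

/-- the pointwise form inequality, integrated over `R ⊆ D` -/
theorem layer_form (hQ : QForm n p smax th B V) (hS : 0 ≤ smax) {D R : Set ℂ}
    (hR : MeasurableSet R) (hRD : R ⊆ D) (X : H)
    (H0 : (P 0 D X : ℂ → ℂ) =ᵐ[volume] D.indicator (X : ℂ → ℂ)) {s : ℂ → ℝ} (hs : Measurable s)
    (hs1 : ∀ z, s z ∈ Icc 0 smax) :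
    ∑ j ∈ Finset.range n, th j / (2 * j + 1) *
        ((2 - p) * ∫ z in R, s z * ‖(bb j D X : ℂ → ℂ) z‖ ^ 2) ≤
      ∑ j ∈ Finset.range n, (th j - B (j + 1) - th (j + 1)) *
        (∫ z in R, ‖(P (j + 1) D X : ℂ → ℂ) z‖ ^ 2) +
      ∫ z in R, (V (s z) - (B 0 + th 0)) * ‖(X : ℂ → ℂ) z‖ ^ 2 := by
  have hsK : ∀ z, |s z| ≤ smax := fun z => by rw [abs_of_nonneg (hs1 z).1]; exact (hs1 z).2
  obtain ⟨K, hK⟩ : ∃ K, ∀ z, |V (s z) - (B 0 + th 0)| ≤ K := by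
    obtain ⟨K, hK⟩ := isCompact_Icc.exists_bound_of_continuousOn
      (f := fun s => V s - (B 0 + th 0)) (hQ.cont.sub continuousOn_const)
    exact ⟨K, fun z => hK _ (hs1 z)⟩
  have hVm : Measurable fun z => V (s z) - (B 0 + th 0) := by
    have h1 : (fun z => V (s z) - (B 0 + th 0)) =
        fun z => (fun s => V (clip smax s)) (s z) - (B 0 + th 0) := by
      ext z; simp only [clip_eq (hs1 z).1 (hs1 z).2]
    rw [h1]
    exact ((Vc_cont hQ hS).measurable.comp hs).sub_const _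
  have i1 : ∀ j ∈ Finset.range n, IntegrableOn (fun z => th j / (2 * (j : ℝ) + 1) *
      ((2 - p) * (s z * ‖(bb j D X : ℂ → ℂ) z‖ ^ 2))) R := fun j _ =>
    ((s_sq_int _ hs hsK).const_mul _).const_mul _
  have i2 : ∀ j ∈ Finset.range n, IntegrableOn (fun z => (th j - B (j + 1) - th (j + 1)) *
      ‖(P (j + 1) D X : ℂ → ℂ) z‖ ^ 2) R := fun j _ => (sq_int _).const_mul _
  have i3 : IntegrableOn (fun z => (V (s z) - (B 0 + th 0)) * ‖(X : ℂ → ℂ) z‖ ^ 2) R :=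
    s_sq_int X hVm hK
  have e1 : ∑ j ∈ Finset.range n, th j / (2 * (j : ℝ) + 1) *
      ((2 - p) * ∫ z in R, s z * ‖(bb j D X : ℂ → ℂ) z‖ ^ 2) =
      ∫ z in R, ∑ j ∈ Finset.range n, th j / (2 * (j : ℝ) + 1) *
      ((2 - p) * (s z * ‖(bb j D X : ℂ → ℂ) z‖ ^ 2)) := by
    rw [integral_finsetSum _ i1]
    refine Finset.sum_congr rfl fun j _ => ?_
    rw [integral_const_mul, integral_const_mul]
  have e2 : ∑ j ∈ Finset.range n, (th j - B (j + 1) - th (j + 1)) *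
        (∫ z in R, ‖(P (j + 1) D X : ℂ → ℂ) z‖ ^ 2) =
      ∫ z in R, ∑ j ∈ Finset.range n, (th j - B (j + 1) - th (j + 1)) *
        ‖(P (j + 1) D X : ℂ → ℂ) z‖ ^ 2 := by
    rw [integral_finsetSum _ i2]
    refine Finset.sum_congr rfl fun j _ => ?_
    rw [integral_const_mul]
  rw [e1, e2, ← integral_add (integrable_finsetSum _ i2) i3]
  refine integral_mono_ae (integrable_finsetSum _ i1) ((integrable_finsetSum _ i2).add i3) ?_
  have hb : ∀ᵐ z, ∀ j, (bb j D X : ℂ → ℂ) z =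
      (P j D X : ℂ → ℂ) z - (P (j + 1) D X : ℂ → ℂ) z := ae_all_iff.2 fun j => bb_coe j D X
  refine (ae_restrict_iff' hR).2 ?_
  filter_upwards [hb, H0] with z hb h0 hz
  rw [indicator_of_mem (hRD hz)] at h0
  have h1 := hQ.form (s z) (hs1 z) fun j => (P j D X : ℂ → ℂ) z
  simp only [h0] at h1
  simp only [hb]
  have e3 : ∑ j ∈ Finset.range n, (B (j + 1) + th (j + 1) - th j) *
      ‖(P (j + 1) D X : ℂ → ℂ) z‖ ^ 2 = -∑ j ∈ Finset.range n, (th j - B (j + 1) - th (j + 1)) *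
        ‖(P (j + 1) D X : ℂ → ℂ) z‖ ^ 2 := by
    rw [← Finset.sum_neg_distrib]
    exact Finset.sum_congr rfl fun j _ => by ring
  have e4 : ∑ j ∈ Finset.range n, th j / (2 * (j : ℝ) + 1) * ((2 - p) * s z) *
      ‖(P j D X : ℂ → ℂ) z - (P (j + 1) D X : ℂ → ℂ) z‖ ^ 2 =
      ∑ j ∈ Finset.range n, th j / (2 * (j : ℝ) + 1) *
      ((2 - p) * (s z * ‖(P j D X : ℂ → ℂ) z - (P (j + 1) D X : ℂ → ℂ) z‖ ^ 2)) :=
    Finset.sum_congr rfl fun j _ => by ring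
  rw [e3, e4] at h1
  change ∑ j ∈ Finset.range n, th j / (2 * (j : ℝ) + 1) *
      ((2 - p) * (s z * ‖(P j D X : ℂ → ℂ) z - (P (j + 1) D X : ℂ → ℂ) z‖ ^ 2)) ≤
    (∑ j ∈ Finset.range n, (th j - B (j + 1) - th (j + 1)) * ‖(P (j + 1) D X : ℂ → ℂ) z‖ ^ 2) +
      (V (s z) - (B 0 + th 0)) * ‖(X : ℂ → ℂ) z‖ ^ 2
  linarith

/-- the integrals of `|P_j X|²` over a layer are at most the increments of `E_j` -/
theorem layer_le_incr (j : ℕ) {D D' : Set ℂ} (hD : IsOpen D) (hD' : IsOpen D') (h : D' ⊆ D)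
    (X : H) : ∫ z in D \ D', ‖(P j D X : ℂ → ℂ) z‖ ^ 2 ≤ E j D' X - E j D X := by
  have h1 := Hil.stmtHinc j D' D 0 X hD' hD h (by simp)
  rwa [Hil.TT_eq, Hil.TH_zero] at h1

/-- the layer form inequality in terms of increments -/
theorem layer_incr (hQ : QForm n p smax th B V) (hS : 0 ≤ smax) {D D' : Set ℂ}
    (hD : IsOpen D) (hD' : IsOpen D') (hDD : D' ⊆ D) (X : H)
    (H0 : (P 0 D X : ℂ → ℂ) =ᵐ[volume] D.indicator (X : ℂ → ℂ)) {s : ℂ → ℝ} (hs : Measurable s)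
    (hs1 : ∀ z, s z ∈ Icc 0 smax) :
    ∑ j ∈ Finset.range n, th j / (2 * j + 1) *
        ((2 - p) * ∫ z in D \ D', s z * ‖(bb j D X : ℂ → ℂ) z‖ ^ 2) ≤
      ∑ j ∈ Finset.range n, (th j - B (j + 1) - th (j + 1)) *
        (E (j + 1) D' X - E (j + 1) D X) +
      ∫ z in D \ D', (V (s z) - (B 0 + th 0)) * ‖(X : ℂ → ℂ) z‖ ^ 2 := by
  refine (layer_form hQ hS (hD.measurableSet.diff hD'.measurableSet) sdiff_subset X H0 hs hs1).trans
    ?_
  gcongr with j hj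
  · have := hQ.mono j (Finset.mem_range.1 hj)
    linarith
  · exact layer_le_incr (j + 1) hD hD' hDD X

/-- `E_0(D) = ∫_{D^c} |X|²` -/
theorem E_zero {D : Set ℂ} (hD : IsOpen D) (X : H)
    (H0 : (P 0 D X : ℂ → ℂ) =ᵐ[volume] D.indicator (X : ℂ → ℂ)) :
    E 0 D X = ∫ z in Dᶜ, ‖(X : ℂ → ℂ) z‖ ^ 2 := by
  rw [E, Hil.H_norm_sq', ← integral_indicator hD.measurableSet.compl]
  refine integral_congr_ae ?_
  filter_upwards [Lp.coeFn_sub X (P 0 D X), H0] with z h1 h2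
  rw [h1, Pi.sub_apply, h2]
  by_cases hz : z ∈ D
  · rw [indicator_of_mem hz, sub_self, norm_zero, indicator_of_notMem (by simpa using hz)]
    norm_num
  · rw [indicator_of_notMem hz, sub_zero, indicator_of_mem (by simpa using hz)]

end Form

end Pool.Agent.Lib.QNL.F31
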