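import Pool.Agent.Lib.QNL.FB31

/-!
Group F, part C: integration in the level at one `ε` and one lower cut-off `a`.
-/

set_option autoImplicit false

namespace Pool.Agent.Lib.QNL.F31

open MeasureTheory Filter Topology Set
open scoped ENNReal

/-- the data at one `ε`: a family of open sets `D L = {L < l}`, a source, a cut-off -/
structure Ctx (X : H) (μ : ℂ → ℝ) (c a r smax : ℝ) (D : ℝ → Set ℂ) (l : ℂ → ℝ) : Prop where
  r_pos : 0 < r
  μ_meas : Measurable μ
  μ_nonneg : ∀ z, 0 ≤ μ z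
  c_nonneg : 0 ≤ c
  a_pos : 0 < a
  cut : (1 + c / a) / r ≤ smax
  l_meas : Measurable l
  isOpen : ∀ L, 0 < L → IsOpen (D L)
  eq : ∀ L, 0 < L → D L = {z | L < l z}
  supp : ∀ᵐ z, (X : ℂ → ℂ) z ≠ 0 → a < l z
  layer : ∀ᵐ L : ℝ, 0 < L → ∀ j : ℕ, ∀ δ : ℝ, 0 < δ → ∃ h₀ : ℝ, 0 < h₀ ∧
    ∀ h, 0 < h → h < h₀ →
      (2 * j + 1) * ‖bb j (D L) X‖ ^ 2 ≤
        (1 / h) * (∫ z in D L \ D (L + h),
          (L - μ z + c) * ‖(bb j (D L) X : ℂ → ℂ) z‖ ^ 2) + δ

variable {X : H} {μ : ℂ → ℝ} {c a r smax : ℝ} {D : ℝ → Set ℂ} {l : ℂ → ℝ}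

theorem Ctx.smax_nonneg (hC : Ctx X μ c a r smax D l) : 0 ≤ smax := by
  refine le_trans ?_ hC.cut
  have := hC.r_pos; have := hC.c_nonneg; have := hC.a_pos
  positivity

theorem Ctx.sub (hC : Ctx X μ c a r smax D l) {L L' : ℝ} (hL : 0 < L) (h : L ≤ L') :
    D L' ⊆ D L := by
  rw [hC.eq L hL, hC.eq L' (hL.trans_le h)]
  exact fun z hz => h.trans_lt hz

theorem Ctx.diff (hC : Ctx X μ c a r smax D l) {L h : ℝ} (hL : 0 < L) (hh : 0 < h) :
    D L \ D (L + h) = {z | L < l z ∧ l z ≤ L + h} := by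
  rw [hC.eq L hL, hC.eq (L + h) (by linarith)]
  ext z
  simp only [Set.mem_sdiff, mem_ofPred_eq, not_lt]

/-- the energies as monotone functions on the line -/
noncomputable def En (X : H) (D : ℝ → Set ℂ) (j : ℕ) (L : ℝ) : ℝ :=
  if 0 < L then E j (D L) X else 0

theorem En_pos {j : ℕ} {L : ℝ} (h : 0 < L) : En X D j L = E j (D L) X := if_pos h

theorem En_nonneg (j : ℕ) (L : ℝ) : 0 ≤ En X D j L := by
  unfold En
  split_ifs
  · exact Hil.E_nonneg _ _ _
  · exact le_rfl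

theorem En_le (j : ℕ) (L : ℝ) : En X D j L ≤ ‖X‖ ^ 2 := by
  unfold En
  split_ifs
  · exact Hil.E_le_norm _ _ _
  · positivity

theorem Ctx.En_mono (hC : Ctx X μ c a r smax D l) (j : ℕ) : Monotone (En X D j) := by
  intro L L' h
  by_cases hL : 0 < L
  · rw [En_pos hL, En_pos (hL.trans_le h)]
    exact Hil.E_anti j (hC.sub hL h) X
  · rw [En, if_neg hL]
    exact En_nonneg _ _

theorem En_bb (j : ℕ) {L : ℝ} (h : 0 < L) :
    ‖bb j (D L) X‖ ^ 2 = En X D (j + 1) L - En X D j L := by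
  rw [En_pos h, En_pos h]
  exact Hil.stmtHq j (D L) X

/-- `s(z, L)` -/
noncomputable def sz (μ : ℂ → ℝ) (c r smax : ℝ) (z : ℂ) (L : ℝ) : ℝ :=
  clip smax ((L - μ z + c) / (r * L))

theorem sz_meas (hμ : Measurable μ) (L : ℝ) : Measurable fun z => sz μ c r smax z L := by
  refine (clip_cont smax).measurable.comp ?_
  exact (((hμ.const_sub L).add_const c).div_const (r * L))

theorem Ctx.le_sz (hC : Ctx X μ c a r smax D l) {L : ℝ} (hL : a < L) (z : ℂ) :
    L - μ z + c ≤ r * L * sz μ c r smax z L := by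
  have hr := hC.r_pos
  have ha := hC.a_pos
  have hL0 : 0 < L := ha.trans hL
  have h1 : (L - μ z + c) / (r * L) ≤ smax := by
    refine le_trans ?_ hC.cut
    rw [div_le_div_iff₀ (by positivity) hr]
    have h2 : c ≤ c / a * L := by
      rw [div_mul_eq_mul_div, le_div_iff₀ ha]
      exact mul_le_mul_of_nonneg_left hL.le hC.c_nonneg
    have := hC.μ_nonneg z
    nlinarith
  have h3 : (L - μ z + c) / (r * L) ≤ sz μ c r smax z L := le_clip h1
  rwa [div_le_iff₀ (by positivity), mul_comm] at h3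

variable {n : ℕ} {p : ℝ} {th B : ℕ → ℝ} {V : ℝ → ℝ}

/-- the integral over the layer of `(V(s) - c_0) |X|²` -/
noncomputable def ups (X : H) (μ : ℂ → ℝ) (c r smax c₀ : ℝ) (D : ℝ → Set ℂ) (V : ℝ → ℝ)
    (h L : ℝ) : ℝ :=
  ∫ z in D L \ D (L + h), (V (sz μ c r smax z L) - c₀) * ‖(X : ℂ → ℂ) z‖ ^ 2

/-- the majorant -/
noncomputable def Psi (X : H) (μ : ℂ → ℝ) (c r smax : ℝ) (D : ℝ → Set ℂ) (V : ℝ → ℝ)
    (n : ℕ) (p : ℝ) (th B : ℕ → ℝ) (h L : ℝ) : ℝ :=
  (1 / h) * (L ^ (-((2 - p) / r)) *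
    ((∑ j ∈ Finset.range n, (th j - B (j + 1) - th (j + 1)) *
      (En X D (j + 1) (L + h) - En X D (j + 1) L)) + ups X μ c r smax (B 0 + th 0) D V h L))

theorem Ctx.claim1 (hC : Ctx X μ c a r smax D l) (H0 : StmtH0) (hQ : QForm n p smax th B V)
    (hp : p < 2) : ∀ᵐ L : ℝ, a < L → ∀ δ : ℝ, 0 < δ → ∃ h₀ : ℝ, 0 < h₀ ∧ ∀ h, 0 < h → h < h₀ →
      ∑ j ∈ Finset.range n, th j * ((2 - p) / r * L ^ (-((2 - p) / r) - 1) *
        (En X D (j + 1) L - En X D j L)) ≤ Psi X μ c r smax D V n p th B h L + δ := by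
  filter_upwards [hC.layer] with L hlay haL δ hδ
  have ha := hC.a_pos
  have hr := hC.r_pos
  have hL : 0 < L := ha.trans haL
  have hκ : 0 < (2 - p) / r := div_pos (by linarith) hr
  set κ := (2 - p) / r with hκd
  set w := κ * L ^ (-κ - 1) with hw
  have hw0 : 0 ≤ w := by positivity
  have hthj : ∀ j, 0 ≤ th j / (2 * (j : ℝ) + 1) := fun j =>
    div_nonneg (hQ.th_nonneg j) (by positivity)
  set W := ∑ j ∈ Finset.range n, th j / (2 * (j : ℝ) + 1) * w with hW
  have hW0 : 0 ≤ W := Finset.sum_nonneg fun j _ => mul_nonneg (hthj j) hw0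
  have hδ' : 0 < δ / (W + 1) := by positivity
  choose h₀ hh₀ hb using fun j => hlay hL j (δ / (W + 1)) hδ'
  obtain ⟨m, hm, hm0⟩ : ∃ m, 0 < m ∧ ∀ j ∈ Finset.range n, m ≤ h₀ j := by
    rcases (Finset.range n).eq_empty_or_nonempty with he | he
    · exact ⟨1, one_pos, fun j hj => by rw [he] at hj; simp at hj⟩
    · obtain ⟨j, hj, hmin⟩ := Finset.exists_min_image (Finset.range n) h₀ he
      exact ⟨h₀ j, hh₀ j, hmin⟩
  refine ⟨m, hm, fun h hh hlt => ?_⟩
  have hh1 : 0 < 1 / h := by positivity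
  have hLk : L ^ (-κ - 1) * L = L ^ (-κ) := by
    rw [Real.rpow_sub_one hL.ne']; field_simp
  have hLpos : 0 < L ^ (-κ) := Real.rpow_pos_of_pos hL _
  have hwr : w * (r * L) = (2 - p) * L ^ (-κ) := by
    rw [hw]
    have : κ * r = 2 - p := by rw [hκd]; field_simp
    calc κ * L ^ (-κ - 1) * (r * L) = (κ * r) * (L ^ (-κ - 1) * L) := by ring
      _ = _ := by rw [this, hLk]
  have hR : MeasurableSet (D L \ D (L + h)) :=
    (hC.isOpen L hL).measurableSet.diff (hC.isOpen (L + h) (by linarith)).measurableSet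
  have hszm : Measurable fun z => sz μ c r smax z L := sz_meas hC.μ_meas L
  have hsz1 : ∀ z, sz μ c r smax z L ∈ Icc 0 smax := fun z => clip_mem hC.smax_nonneg _
  have key : ∀ j ∈ Finset.range n, th j * (w * (En X D (j + 1) L - En X D j L)) ≤
      (1 / h) * (L ^ (-κ) * (th j / (2 * (j : ℝ) + 1) * ((2 - p) *
        ∫ z in D L \ D (L + h), sz μ c r smax z L * ‖(bb j (D L) X : ℂ → ℂ) z‖ ^ 2))) +
      th j / (2 * (j : ℝ) + 1) * w * (δ / (W + 1)) := by
    intro j hj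
    have h1 := hb j h hh (hlt.trans_le (hm0 j hj))
    rw [← En_bb j hL]
    have h2 : ∫ z in D L \ D (L + h), (L - μ z + c) * ‖(bb j (D L) X : ℂ → ℂ) z‖ ^ 2 ≤
        r * L * ∫ z in D L \ D (L + h), sz μ c r smax z L * ‖(bb j (D L) X : ℂ → ℂ) z‖ ^ 2 := by
      rw [← integral_const_mul]
      have hi2 : IntegrableOn (fun z => sz μ c r smax z L * ‖(bb j (D L) X : ℂ → ℂ) z‖ ^ 2)
          (D L \ D (L + h)) := by
        refine s_sq_int _ hszm (K := smax) fun z => ?_
        rw [abs_of_nonneg (hsz1 z).1]; exact (hsz1 z).2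
      by_cases hi : IntegrableOn (fun z => (L - μ z + c) * ‖(bb j (D L) X : ℂ → ℂ) z‖ ^ 2)
          (D L \ D (L + h))
      · refine setIntegral_mono hi (hi2.const_mul _) fun z => ?_
        have := hC.le_sz haL z
        calc (L - μ z + c) * ‖(bb j (D L) X : ℂ → ℂ) z‖ ^ 2
            ≤ r * L * sz μ c r smax z L * ‖(bb j (D L) X : ℂ → ℂ) z‖ ^ 2 := by gcongr
          _ = _ := by ring
      · rw [integral_undef hi]
        refine integral_nonneg fun z => ?_
        have := (hsz1 z).1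
        positivity
    have h3 : (2 * (j : ℝ) + 1) * ‖bb j (D L) X‖ ^ 2 ≤ (1 / h) * (r * L *
        ∫ z in D L \ D (L + h), sz μ c r smax z L * ‖(bb j (D L) X : ℂ → ℂ) z‖ ^ 2) +
        δ / (W + 1) := by
      refine h1.trans ?_
      gcongr
    have h4 : th j * (w * ‖bb j (D L) X‖ ^ 2) =
        th j / (2 * (j : ℝ) + 1) * w * ((2 * (j : ℝ) + 1) * ‖bb j (D L) X‖ ^ 2) := by
      have : (2 * (j : ℝ) + 1) ≠ 0 := by positivity
      field_simp
    rw [h4]
    refine (mul_le_mul_of_nonneg_left h3 (mul_nonneg (hthj j) hw0)).trans (le_of_eq ?_)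
    calc th j / (2 * (j : ℝ) + 1) * w * ((1 / h) * (r * L *
        ∫ z in D L \ D (L + h), sz μ c r smax z L * ‖(bb j (D L) X : ℂ → ℂ) z‖ ^ 2) +
        δ / (W + 1)) = (1 / h) * ((w * (r * L)) * (th j / (2 * (j : ℝ) + 1) *
        ∫ z in D L \ D (L + h), sz μ c r smax z L * ‖(bb j (D L) X : ℂ → ℂ) z‖ ^ 2)) +
        th j / (2 * (j : ℝ) + 1) * w * (δ / (W + 1)) := by ring
      _ = _ := by rw [hwr]; ring
  refine (Finset.sum_le_sum key).trans ?_
  rw [Finset.sum_add_distrib, ← Finset.mul_sum, ← Finset.mul_sum, ← Finset.sum_mul, ← hW]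
  have h5 : W * (δ / (W + 1)) ≤ δ := by
    rw [mul_div_assoc', div_le_iff₀ (by positivity)]
    nlinarith
  refine add_le_add ?_ h5
  rw [Psi]
  gcongr
  have h6 := layer_incr hQ hC.smax_nonneg (hC.isOpen L hL) (hC.isOpen (L + h) (by linarith))
    (hC.sub hL (by linarith)) X (H0 (D L) X (hC.isOpen L hL)) hszm hsz1
  have h7 : 0 < L + h := by linarith
  simp only [En_pos hL, En_pos h7]
  exact h6

/-! ### The joint integrand -/

/-- the coefficient of `|X|²` as a function of the point and the level -/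
noncomputable def Phi (μ : ℂ → ℝ) (c r smax c₀ κ a : ℝ) (V : ℝ → ℝ) (z : ℂ) (L : ℝ) : ℝ :=
  (max L a) ^ (-κ) * (V (sz μ c r smax z (max L a)) - c₀)

theorem Ctx.Phi_nonneg (hC : Ctx X μ c a r smax D l) (hQ : QForm n p smax th B V) (hp : p < 2)
    (κ : ℝ) (z : ℂ) (L : ℝ) : 0 ≤ Phi μ c r smax (B 0 + th 0) κ a V z L := by
  have h1 : 0 < max L a := lt_max_of_lt_right hC.a_pos
  have h2 := V_ge hQ hp (clip_mem hC.smax_nonneg
    ((max L a - μ z + c) / (r * max L a)))
  unfold Phi sz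
  have := Real.rpow_pos_of_pos h1 (-κ)
  exact mul_nonneg this.le (by linarith)

theorem Ctx.Phi_bdd (hC : Ctx X μ c a r smax D l) (hQ : QForm n p smax th B V)
    {κ : ℝ} (hκ : 0 ≤ κ) : ∃ K : ℝ, 0 ≤ K ∧ ∀ z L,
      Phi μ c r smax (B 0 + th 0) κ a V z L ≤ K := by
  obtain ⟨K, hK⟩ := isCompact_Icc.exists_bound_of_continuousOn
      (f := fun s => V s - (B 0 + th 0)) (hQ.cont.sub continuousOn_const)
  have ha := hC.a_pos
  have hK0 : 0 ≤ K := (norm_nonneg _).trans (hK 0 ⟨le_rfl, hC.smax_nonneg⟩)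
  refine ⟨a ^ (-κ) * K, by positivity, fun z L => ?_⟩
  have h1 : 0 < max L a := lt_max_of_lt_right ha
  have h2 := hK _ (clip_mem hC.smax_nonneg ((max L a - μ z + c) / (r * max L a)))
  rw [Real.norm_eq_abs, abs_le] at h2
  have h3 : (max L a) ^ (-κ) ≤ a ^ (-κ) :=
    Real.rpow_le_rpow_of_nonpos ha (le_max_right _ _) (by linarith)
  have h4 : 0 < (max L a) ^ (-κ) := Real.rpow_pos_of_pos h1 _
  unfold Phi sz
  calc (max L a) ^ (-κ) * (V (clip smax ((max L a - μ z + c) / (r * max L a))) - (B 0 + th 0))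
      ≤ (max L a) ^ (-κ) * K := by gcongr; exact h2.2
    _ ≤ _ := by gcongr

theorem Ctx.Phi_cont (hC : Ctx X μ c a r smax D l) (hQ : QForm n p smax th B V)
    (κ c₀ : ℝ) (z : ℂ) : Continuous (Phi μ c r smax c₀ κ a V z) := by
  have ha := hC.a_pos
  have hr := hC.r_pos
  have h1 : ∀ L : ℝ, 0 < max L a := fun L => lt_max_of_lt_right ha
  have hm : Continuous fun L : ℝ => max L a := by fun_prop
  have h2 : Continuous fun L : ℝ => (max L a) ^ (-κ) :=
    hm.rpow_const fun L => Or.inl (h1 L).ne'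
  have h3 : Continuous fun L : ℝ => (max L a - μ z + c) / (r * max L a) := by
    refine Continuous.div (by fun_prop) (by fun_prop) fun L => ?_
    exact (mul_pos hr (h1 L)).ne'
  exact h2.mul (((Vc_cont hQ hC.smax_nonneg).comp h3).sub continuous_const)

theorem Ctx.Phi_meas (hC : Ctx X μ c a r smax D l) (hQ : QForm n p smax th B V)
    (κ c₀ : ℝ) : Measurable fun q : ℝ × ℂ => Phi μ c r smax c₀ κ a V q.2 q.1 := by
  have hm : Measurable fun q : ℝ × ℂ => max q.1 a := measurable_fst.max measurable_const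
  have h3 : Measurable fun q : ℝ × ℂ => (max q.1 a - μ q.2 + c) / (r * max q.1 a) :=
    ((hm.sub (hC.μ_meas.comp measurable_snd)).add_const c).div (hm.const_mul r)
  exact (hm.pow_const _).mul (((Vc_cont hQ hC.smax_nonneg).measurable.comp h3).sub_const _)

/-- the joint integrand -/
noncomputable def Jn (X : H) (μ : ℂ → ℝ) (c r smax c₀ κ a : ℝ) (l : ℂ → ℝ) (V : ℝ → ℝ) (h : ℝ)
    (q : ℝ × ℂ) : ℝ≥0∞ :=
  {q : ℝ × ℂ | q.1 < l q.2 ∧ l q.2 ≤ q.1 + h}.indicator
    (fun q => ENNReal.ofReal (Phi μ c r smax c₀ κ a V q.2 q.1 * ‖(X : ℂ → ℂ) q.2‖ ^ 2)) q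

theorem Ctx.Jn_meas (hC : Ctx X μ c a r smax D l) (hQ : QForm n p smax th B V)
    (κ c₀ h : ℝ) : Measurable (Jn X μ c r smax c₀ κ a l V h) := by
  have hX : Measurable fun z => (X : ℂ → ℂ) z := (Lp.stronglyMeasurable X).measurable
  refine Measurable.indicator ?_ ?_
  · exact ((hC.Phi_meas hQ κ c₀).mul ((hX.comp measurable_snd).norm.pow_const 2)).ennreal_ofReal
  · refine (measurableSet_lt measurable_fst (hC.l_meas.comp measurable_snd)).inter ?_
    exact measurableSet_le (hC.l_meas.comp measurable_snd) (measurable_fst.add_const h)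

theorem Ctx.ups_eq (hC : Ctx X μ c a r smax D l) (hQ : QForm n p smax th B V) (hp : p < 2)
    {κ h L : ℝ} (hh : 0 < h) (hL : a < L) :
    ENNReal.ofReal (L ^ (-κ) * ups X μ c r smax (B 0 + th 0) D V h L) =
      ∫⁻ z, Jn X μ c r smax (B 0 + th 0) κ a l V h (L, z) := by
  have ha := hC.a_pos
  have hL0 : 0 < L := ha.trans hL
  have hmax : max L a = L := max_eq_left hL.le
  have hR : MeasurableSet {z | L < l z ∧ l z ≤ L + h} :=
    (measurableSet_lt measurable_const hC.l_meas).inter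
      (measurableSet_le hC.l_meas measurable_const)
  have e1 : ∀ z, Jn X μ c r smax (B 0 + th 0) κ a l V h (L, z) =
      {z | L < l z ∧ l z ≤ L + h}.indicator (fun z => ENNReal.ofReal
        (Phi μ c r smax (B 0 + th 0) κ a V z L * ‖(X : ℂ → ℂ) z‖ ^ 2)) z := fun z => rfl
  simp_rw [e1]
  rw [lintegral_indicator hR, ups, hC.diff hL0 hh, ← integral_const_mul,
    ofReal_integral_eq_lintegral_ofReal]
  · refine lintegral_congr fun z => ?_
    rw [Phi, hmax]
    congr 1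
    ring
  · obtain ⟨K, hK⟩ := isCompact_Icc.exists_bound_of_continuousOn
      (f := fun s => V s - (B 0 + th 0)) (hQ.cont.sub continuousOn_const)
    refine Integrable.const_mul ?_ _
    have hVm : Measurable fun z => V (sz μ c r smax z L) - (B 0 + th 0) := by
      have h1 : (fun z => V (sz μ c r smax z L) - (B 0 + th 0)) =
          fun z => (fun s => V (clip smax s)) ((L - μ z + c) / (r * L)) - (B 0 + th 0) := rfl
      rw [h1]
      exact ((Vc_cont hQ hC.smax_nonneg).measurable.comp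
        (((hC.μ_meas.const_sub L).add_const c).div_const (r * L))).sub_const _
    exact s_sq_int X hVm fun z => hK _ (clip_mem hC.smax_nonneg _)
  · refine ae_of_all _ fun z => ?_
    have h2 := V_ge hQ hp (clip_mem hC.smax_nonneg ((L - μ z + c) / (r * L)))
    have h3 : 0 ≤ V (sz μ c r smax z L) - (B 0 + th 0) := by
      unfold sz; linarith
    have := Real.rpow_pos_of_pos hL0 (-κ)
    change (0 : ℝ) ≤ L ^ (-κ) * ((V (sz μ c r smax z L) - (B 0 + th 0)) * ‖(X : ℂ → ℂ) z‖ ^ 2)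
    positivity

/-- the `z`-density of the joint integral, divided by `h` -/
noncomputable def rho (X : H) (μ : ℂ → ℝ) (c r smax c₀ κ a : ℝ) (l : ℂ → ℝ) (V : ℝ → ℝ) (h : ℝ)
    (z : ℂ) : ℝ≥0∞ :=
  (ENNReal.ofReal h)⁻¹ * ∫⁻ L, Jn X μ c r smax c₀ κ a l V h (L, z)

theorem rho_eq (c₀ κ h : ℝ) (z : ℂ) : rho X μ c r smax c₀ κ a l V h z =
    (ENNReal.ofReal h)⁻¹ * ∫⁻ L in Ico (l z - h) (l z),
      ENNReal.ofReal (Phi μ c r smax c₀ κ a V z L * ‖(X : ℂ → ℂ) z‖ ^ 2) := by
  rw [rho, ← lintegral_indicator measurableSet_Ico]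
  congr 1
  refine lintegral_congr fun L => ?_
  have h1 : (L, z) ∈ {q : ℝ × ℂ | q.1 < l q.2 ∧ l q.2 ≤ q.1 + h} ↔ L ∈ Ico (l z - h) (l z) := by
    simp only [mem_ofPred_eq, mem_Ico, sub_le_iff_le_add]
    tauto
  by_cases h2 : L ∈ Ico (l z - h) (l z)
  · rw [Jn, indicator_of_mem (h1.2 h2), indicator_of_mem h2]
  · rw [Jn, indicator_of_notMem (fun h3 => h2 (h1.1 h3)), indicator_of_notMem h2]

theorem Ctx.rho_meas (hC : Ctx X μ c a r smax D l) (hQ : QForm n p smax th B V)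
    (κ c₀ h : ℝ) : Measurable (rho X μ c r smax c₀ κ a l V h) :=
  ((hC.Jn_meas hQ κ c₀ h).lintegral_prod_left').const_mul _

theorem Ctx.fubini (hC : Ctx X μ c a r smax D l) (hQ : QForm n p smax th B V)
    (κ c₀ h : ℝ) : (ENNReal.ofReal h)⁻¹ * ∫⁻ L in Ioi a, ∫⁻ z, Jn X μ c r smax c₀ κ a l V h (L, z) ≤
      ∫⁻ z, rho X μ c r smax c₀ κ a l V h z := by
  have h1 : ∫⁻ z, rho X μ c r smax c₀ κ a l V h z =
      (ENNReal.ofReal h)⁻¹ * ∫⁻ z, ∫⁻ L, Jn X μ c r smax c₀ κ a l V h (L, z) :=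
    lintegral_const_mul _ ((hC.Jn_meas hQ κ c₀ h).lintegral_prod_left')
  rw [h1]
  refine mul_le_mul_right ?_ _
  have h2 : ∫⁻ L, ∫⁻ z, Jn X μ c r smax c₀ κ a l V h (L, z) =
      ∫⁻ z, ∫⁻ L, Jn X μ c r smax c₀ κ a l V h (L, z) :=
    lintegral_lintegral_swap (f := fun L z => Jn X μ c r smax c₀ κ a l V h (L, z))
      (hC.Jn_meas hQ κ c₀ h).aemeasurable
  rw [← h2]
  exact setLIntegral_le_lintegral _ _

theorem Ctx.rho_tendsto (hC : Ctx X μ c a r smax D l) (hQ : QForm n p smax th B V) (hp : p < 2)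
    {κ : ℝ} (hκ : 0 ≤ κ) {h : ℕ → ℝ} (hh0 : ∀ k, 0 < h k) (hh : Tendsto h atTop (𝓝 0)) :
    Tendsto (fun k => ∫⁻ z, rho X μ c r smax (B 0 + th 0) κ a l V (h k) z) atTop
      (𝓝 (∫⁻ z, ENNReal.ofReal
        (Phi μ c r smax (B 0 + th 0) κ a V z (l z) * ‖(X : ℂ → ℂ) z‖ ^ 2))) := by
  obtain ⟨K, hK0, hK⟩ := hC.Phi_bdd hQ hκ
  refine tendsto_lintegral_of_dominated_convergence
    (fun z => ENNReal.ofReal (K * ‖(X : ℂ → ℂ) z‖ ^ 2)) (fun k => hC.rho_meas hQ κ _ (h k))
    ?_ ?_ ?_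
  · intro k
    refine ae_of_all _ fun z => ?_
    rw [rho_eq]
    have hne : ENNReal.ofReal (h k) ≠ 0 := (ENNReal.ofReal_pos.2 (hh0 k)).ne'
    calc (ENNReal.ofReal (h k))⁻¹ * ∫⁻ L in Ico (l z - h k) (l z),
          ENNReal.ofReal (Phi μ c r smax (B 0 + th 0) κ a V z L * ‖(X : ℂ → ℂ) z‖ ^ 2)
        ≤ (ENNReal.ofReal (h k))⁻¹ * ∫⁻ _ in Ico (l z - h k) (l z),
          ENNReal.ofReal (K * ‖(X : ℂ → ℂ) z‖ ^ 2) := by
          refine mul_le_mul_right (setLIntegral_mono' measurableSet_Ico fun L _ => ?_) _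
          refine ENNReal.ofReal_le_ofReal ?_
          have := hK z L
          gcongr
      _ = ENNReal.ofReal (K * ‖(X : ℂ → ℂ) z‖ ^ 2) := by
          rw [setLIntegral_const, Real.volume_Ico, show l z - (l z - h k) = h k by ring,
            mul_comm (ENNReal.ofReal (K * _)), ← mul_assoc,
            ENNReal.inv_mul_cancel hne ENNReal.ofReal_ne_top, one_mul]
  · rw [← ofReal_integral_eq_lintegral_ofReal ((Hil.H_sq_int X).const_mul K)
      (ae_of_all _ fun z => by positivity)]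
    exact ENNReal.ofReal_ne_top
  · refine ae_of_all _ fun z => ?_
    simp_rw [rho_eq]
    exact avg_tendsto (g := fun L => Phi μ c r smax (B 0 + th 0) κ a V z L *
        ‖(X : ℂ → ℂ) z‖ ^ 2)
      (((hC.Phi_cont hQ κ (B 0 + th 0) z).mul continuous_const).continuousAt)
      (fun L => mul_nonneg (hC.Phi_nonneg hQ hp κ z L) (by positivity)) hh0 hh

/-! ### Fatou and the conclusion -/

/-- the energies integrated against the weight -/
noncomputable def AA (X : H) (D : ℝ → Set ℂ) (κ a : ℝ) (j : ℕ) : ℝ :=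
  ∫ L in Ioi a, κ * L ^ (-κ - 1) * En X D j L

theorem Ctx.claim2 (hC : Ctx X μ c a r smax D l) (H0 : StmtH0) (hQ : QForm n p smax th B V)
    (hp : p < 2) :
    ∑ j ∈ Finset.range n, th j *
        (AA X D ((2 - p) / r) a (j + 1) - AA X D ((2 - p) / r) a j) ≤
      (∑ j ∈ Finset.range n, (th j - B (j + 1) - th (j + 1)) * AA X D ((2 - p) / r) a (j + 1)) +
      ∫ z, Phi μ c r smax (B 0 + th 0) ((2 - p) / r) a V z (l z) * ‖(X : ℂ → ℂ) z‖ ^ 2 := by
  have ha := hC.a_pos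
  have hr := hC.r_pos
  have hκ : 0 < (2 - p) / r := div_pos (by linarith) hr
  have hcl := hC.claim1 H0 hQ hp
  set κ := (2 - p) / r with hκd
  set c₀ := B 0 + th 0 with hc₀
  set cc : ℕ → ℝ := fun j => th j - B (j + 1) - th (j + 1) with hcc
  have hcc0 : ∀ j ∈ Finset.range n, 0 ≤ cc j := fun j hj => by
    have := hQ.mono j (Finset.mem_range.1 hj)
    simp only [hcc]; linarith
  have hEm : ∀ j, Measurable (En X D j) := fun j => (hC.En_mono j).measurable
  have hEi : ∀ j, IntegrableOn (fun L : ℝ => κ * L ^ (-κ - 1) * En X D j L) (Ioi a) := fun j =>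
    wE_int hκ ha (hEm j) (En_nonneg j) (En_le j)
  set h : ℕ → ℝ := fun k => 1 / ((k : ℝ) + 1) with hh
  have hh0 : ∀ k, 0 < h k := fun k => by simp only [hh]; positivity
  have hht : Tendsto h atTop (𝓝 0) := tendsto_one_div_add_atTop_nhds_zero_nat
  -- the left integrand
  set S : ℝ → ℝ := fun L => ∑ j ∈ Finset.range n, th j * (κ * L ^ (-κ - 1) *
        (En X D (j + 1) L - En X D j L)) with hS
  have hSi : IntegrableOn S (Ioi a) := by
    refine integrable_finsetSum _ fun j _ => Integrable.const_mul ?_ _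
    have := (hEi (j + 1)).sub (hEi j)
    refine this.congr (ae_of_all _ fun L => ?_)
    simp only [Pi.sub_apply]; ring
  have hSint : ∫ L in Ioi a, S L = ∑ j ∈ Finset.range n, th j *
        (AA X D κ a (j + 1) - AA X D κ a j) := by
    rw [hS, integral_finsetSum]
    · refine Finset.sum_congr rfl fun j _ => ?_
      rw [integral_const_mul, AA, AA, ← integral_sub (hEi (j + 1)) (hEi j)]
      congr 1
      refine integral_congr_ae (ae_of_all _ fun L => ?_)
      ring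
    · intro j _
      refine Integrable.const_mul ?_ _
      have := (hEi (j + 1)).sub (hEi j)
      refine this.congr (ae_of_all _ fun L => ?_)
      simp only [Pi.sub_apply]; ring
  have hS0 : ∀ L ∈ Ioi a, 0 ≤ S L := fun L hL => by
    have hL0 : 0 < L := ha.trans hL
    refine Finset.sum_nonneg fun j _ => ?_
    have h1 : 0 ≤ En X D (j + 1) L - En X D j L := by rw [← En_bb j hL0]; positivity
    have := hQ.th_nonneg j
    positivity
  -- the majorants
  set F : ℕ → ℝ → ℝ≥0∞ := fun k L => (ENNReal.ofReal (h k))⁻¹ *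
    ((∑ j ∈ Finset.range n, ENNReal.ofReal (cc j) *
        ENNReal.ofReal (L ^ (-κ) * (En X D (j + 1) (L + h k) - En X D (j + 1) L))) +
      ∫⁻ z, Jn X μ c r smax c₀ κ a l V (h k) (L, z)) with hF
  have hFm : ∀ k, Measurable (F k) := by
    intro k
    refine Measurable.const_mul (Measurable.add ?_ ?_) _
    · refine Finset.measurable_sum _ fun j _ => Measurable.const_mul ?_ _
      refine Measurable.ennreal_ofReal ?_
      refine (measurable_id.pow_const _).mul ?_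
      exact ((hEm (j + 1)).comp (measurable_id.add_const (h k))).sub (hEm (j + 1))
    · exact (hC.Jn_meas hQ κ c₀ (h k)).lintegral_prod_right'
  have hΔ : ∀ j k L, 0 ≤ En X D j (L + h k) - En X D j L := fun j k L =>
    sub_nonneg.2 (hC.En_mono j (by linarith [hh0 k]))
  have hFPsi : ∀ k, ∀ L ∈ Ioi a, F k L = ENNReal.ofReal (Psi X μ c r smax D V n p th B (h k) L) := by
    intro k L hL
    have hL0 : 0 < L := ha.trans hL
    have hLκ : 0 < L ^ (-κ) := Real.rpow_pos_of_pos hL0 _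
    have hups : 0 ≤ L ^ (-κ) * ups X μ c r smax c₀ D V (h k) L := by
      refine mul_nonneg hLκ.le (integral_nonneg fun z => ?_)
      have h2 := V_ge hQ hp (clip_mem hC.smax_nonneg ((L - μ z + c) / (r * L)))
      have h3 : 0 ≤ V (sz μ c r smax z L) - c₀ := by
        unfold sz; linarith
      change (0 : ℝ) ≤ (V (sz μ c r smax z L) - c₀) * ‖(X : ℂ → ℂ) z‖ ^ 2
      positivity
    have hsum : 0 ≤ L ^ (-κ) * ∑ j ∈ Finset.range n, (th j - B (j + 1) - th (j + 1)) *
        (En X D (j + 1) (L + h k) - En X D (j + 1) L) := by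
      refine mul_nonneg hLκ.le (Finset.sum_nonneg fun j hj => ?_)
      exact mul_nonneg (hcc0 j hj) (hΔ (j + 1) k L)
    have e0 : Psi X μ c r smax D V n p th B (h k) L = (h k)⁻¹ *
        (L ^ (-κ) * (∑ j ∈ Finset.range n, (th j - B (j + 1) - th (j + 1)) *
        (En X D (j + 1) (L + h k) - En X D (j + 1) L)) +
        L ^ (-κ) * ups X μ c r smax c₀ D V (h k) L) := by
      rw [Psi, one_div, ← mul_add]
    simp only [hF]
    rw [e0, ENNReal.ofReal_mul (inv_nonneg.2 (hh0 k).le), ENNReal.ofReal_inv_of_pos (hh0 k),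
      ENNReal.ofReal_add hsum hups, hC.ups_eq hQ hp (hh0 k) hL, Finset.mul_sum,
      ENNReal.ofReal_sum_of_nonneg]
    · congr 2
      refine Finset.sum_congr rfl fun j hj => ?_
      rw [← ENNReal.ofReal_mul (hcc0 j hj)]
      congr 1
      simp only [hcc]
      ring
    · intro j hj
      have h1 := hcc0 j hj
      have h2 := hΔ (j + 1) k L
      exact mul_nonneg hLκ.le (mul_nonneg h1 h2)
  -- Fatou
  have hfatou : ∫⁻ L in Ioi a, ENNReal.ofReal (S L) ≤
      liminf (fun k => ∫⁻ L in Ioi a, F k L) atTop := by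
    refine le_trans ?_ (lintegral_liminf_le hFm)
    refine lintegral_mono_ae ?_
    refine (ae_restrict_iff' measurableSet_Ioi).2 ?_
    filter_upwards [hcl] with L hcl hL
    have h1 : ∀ δ : ℝ, 0 < δ → ENNReal.ofReal (S L - δ) ≤ liminf (fun k => F k L) atTop := by
      intro δ hδ
      obtain ⟨h₀, hh₀, hb⟩ := hcl hL δ hδ
      refine le_liminf_of_le (by isBoundedDefault) ?_
      filter_upwards [hht.eventually_lt_const hh₀] with k hk
      rw [hFPsi k L hL]
      refine ENNReal.ofReal_le_ofReal ?_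
      have := hb (h k) (hh0 k) hk
      simp only [hS]
      linarith
    have h2 : Tendsto (fun k : ℕ => ENNReal.ofReal (S L - 1 / ((k : ℝ) + 1))) atTop
        (𝓝 (ENNReal.ofReal (S L))) := by
      refine ENNReal.tendsto_ofReal ?_
      have h3 := (tendsto_const_nhds (x := S L) (f := (atTop : Filter ℕ))).sub
        (tendsto_one_div_add_atTop_nhds_zero_nat (𝕜 := ℝ))
      rwa [sub_zero] at h3
    exact le_of_tendsto' h2 fun k => h1 _ (by positivity)
  -- the integrals of the majorants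
  set G : ℕ → ℝ≥0∞ := fun k => (∑ j ∈ Finset.range n, ENNReal.ofReal (cc j) *
      ENNReal.ofReal (∫ L in Ioi a, κ * L ^ (-κ - 1) * En X D (j + 1) (L + h k))) +
      ∫⁻ z, rho X μ c r smax c₀ κ a l V (h k) z with hG
  have hFG : ∀ k, ∫⁻ L in Ioi a, F k L ≤ G k := by
    intro k
    have hne : ENNReal.ofReal (h k) ≠ 0 := (ENNReal.ofReal_pos.2 (hh0 k)).ne'
    have hm1 : ∀ j, Measurable fun L : ℝ => ENNReal.ofReal (L ^ (-κ) *
        (En X D (j + 1) (L + h k) - En X D (j + 1) L)) := fun j =>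
      ((measurable_id.pow_const _).mul
        (((hEm (j + 1)).comp (measurable_id.add_const (h k))).sub (hEm (j + 1)))).ennreal_ofReal
    have hm2 : Measurable fun L : ℝ => ∫⁻ z, Jn X μ c r smax c₀ κ a l V (h k) (L, z) :=
      (hC.Jn_meas hQ κ c₀ (h k)).lintegral_prod_right'
    have hm3 : Measurable fun L : ℝ => ∑ j ∈ Finset.range n, ENNReal.ofReal (cc j) *
        ENNReal.ofReal (L ^ (-κ) * (En X D (j + 1) (L + h k) - En X D (j + 1) L)) :=
      Finset.measurable_sum _ fun j _ => (hm1 j).const_mul _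
    have e3 : ∫⁻ L in Ioi a, F k L = (ENNReal.ofReal (h k))⁻¹ *
        ((∫⁻ L in Ioi a, ∑ j ∈ Finset.range n, ENNReal.ofReal (cc j) *
        ENNReal.ofReal (L ^ (-κ) * (En X D (j + 1) (L + h k) - En X D (j + 1) L))) +
        ∫⁻ L in Ioi a, ∫⁻ z, Jn X μ c r smax c₀ κ a l V (h k) (L, z)) := by
      rw [← lintegral_add_left hm3]
      exact lintegral_const_mul _ (hm3.add hm2)
    rw [e3, mul_add]
    simp only [hG]
    refine add_le_add ?_ (hC.fubini hQ κ c₀ (h k))
    rw [lintegral_finsetSum _ fun j _ => (hm1 j).const_mul _, Finset.mul_sum]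
    refine Finset.sum_le_sum fun j _ => ?_
    rw [lintegral_const_mul _ (hm1 j), ← mul_assoc, mul_comm _ (ENNReal.ofReal (cc j)), mul_assoc]
    refine mul_le_mul_right ?_ _
    have h1 := incr_le hκ ha (hh0 k) (hC.En_mono (j + 1)) (En_nonneg (X := X) (D := D) (j + 1))
    have h2 : ∫⁻ L in Ioi a, ENNReal.ofReal (κ * L ^ (-κ - 1) *
        (h k * En X D (j + 1) (L + h k))) = ENNReal.ofReal (h k) *
          ENNReal.ofReal (∫ L in Ioi a, κ * L ^ (-κ - 1) * En X D (j + 1) (L + h k)) := by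
      rw [← ENNReal.ofReal_mul (hh0 k).le, ← integral_const_mul,
        ofReal_integral_eq_lintegral_ofReal]
      · refine lintegral_congr fun L => ?_
        congr 1
        ring
      · exact (wE_int hκ ha ((hEm (j + 1)).comp (measurable_id.add_const (h k)))
          (fun L => En_nonneg _ _) (fun L => En_le _ _)).const_mul _
      · refine (ae_restrict_iff' measurableSet_Ioi).2 (ae_of_all _ fun L hL => ?_)
        have hL0 : 0 < L := ha.trans hL
        have h3 := En_nonneg (X := X) (D := D) (j + 1) (L + h k)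
        have h4 := hh0 k
        change (0 : ℝ) ≤ h k * (κ * L ^ (-κ - 1) * En X D (j + 1) (L + h k))
        positivity
    calc (ENNReal.ofReal (h k))⁻¹ * ∫⁻ L in Ioi a, ENNReal.ofReal (L ^ (-κ) *
          (En X D (j + 1) (L + h k) - En X D (j + 1) L))
        ≤ (ENNReal.ofReal (h k))⁻¹ * (ENNReal.ofReal (h k) *
          ENNReal.ofReal (∫ L in Ioi a, κ * L ^ (-κ - 1) * En X D (j + 1) (L + h k))) := by
          rw [← h2]
          exact mul_le_mul_right h1 _
      _ = _ := by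
          rw [← mul_assoc, ENNReal.inv_mul_cancel hne ENNReal.ofReal_ne_top, one_mul]
  have hGt : Tendsto G atTop (𝓝 ((∑ j ∈ Finset.range n, ENNReal.ofReal (cc j) *
      ENNReal.ofReal (AA X D κ a (j + 1))) +
      ∫⁻ z, ENNReal.ofReal (Phi μ c r smax c₀ κ a V z (l z) * ‖(X : ℂ → ℂ) z‖ ^ 2))) := by
    refine Tendsto.add ?_ (hC.rho_tendsto hQ hp hκ.le hh0 hht)
    refine tendsto_finsetSum _ fun j _ => ?_
    refine ENNReal.Tendsto.const_mul ?_ (Or.inr ENNReal.ofReal_ne_top)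
    exact ENNReal.tendsto_ofReal (shift_tendsto hκ ha (hC.En_mono (j + 1)) (En_nonneg _)
      (En_le _) hht)
  have hAA0 : ∀ j, 0 ≤ AA X D κ a j := fun j => by
    refine setIntegral_nonneg measurableSet_Ioi fun L hL => ?_
    have hL0 : 0 < L := ha.trans hL
    have h3 := En_nonneg (X := X) (D := D) j L
    positivity
  have hPi : Integrable fun z => Phi μ c r smax c₀ κ a V z (l z) * ‖(X : ℂ → ℂ) z‖ ^ 2 := by
    obtain ⟨K, hK0, hK⟩ := hC.Phi_bdd (X := X) hQ hκ.le
    have hm : Measurable fun z => Phi μ c r smax c₀ κ a V z (l z) :=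
      (hC.Phi_meas hQ κ c₀).comp (hC.l_meas.prodMk measurable_id)
    refine (Hil.H_sq_int X).bdd_mul (c := K) hm.aestronglyMeasurable (ae_of_all _ fun z => ?_)
    rw [Real.norm_eq_abs, abs_of_nonneg (hC.Phi_nonneg hQ hp κ z (l z))]
    exact hK z (l z)
  have hP0 : ∀ z, 0 ≤ Phi μ c r smax c₀ κ a V z (l z) * ‖(X : ℂ → ℂ) z‖ ^ 2 := fun z =>
    mul_nonneg (hC.Phi_nonneg hQ hp κ z (l z)) (by positivity)
  have hfin := hfatou.trans ((liminf_le_liminf (Eventually.of_forall hFG)).trans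
    (le_of_eq hGt.liminf_eq))
  rw [← ofReal_integral_eq_lintegral_ofReal hSi ((ae_restrict_iff' measurableSet_Ioi).2
    (ae_of_all _ hS0)), hSint, ← ofReal_integral_eq_lintegral_ofReal hPi (ae_of_all _ hP0)] at hfin
  have e1 : ∑ j ∈ Finset.range n, ENNReal.ofReal (cc j) * ENNReal.ofReal (AA X D κ a (j + 1)) =
      ENNReal.ofReal (∑ j ∈ Finset.range n, cc j * AA X D κ a (j + 1)) := by
    rw [ENNReal.ofReal_sum_of_nonneg fun j hj => mul_nonneg (hcc0 j hj) (hAA0 _)]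
    exact Finset.sum_congr rfl fun j hj => (ENNReal.ofReal_mul (hcc0 j hj)).symm
  have hsum0 : 0 ≤ ∑ j ∈ Finset.range n, cc j * AA X D κ a (j + 1) :=
    Finset.sum_nonneg fun j hj => mul_nonneg (hcc0 j hj) (hAA0 _)
  have hint0 : 0 ≤ ∫ z, Phi μ c r smax c₀ κ a V z (l z) * ‖(X : ℂ → ℂ) z‖ ^ 2 :=
    integral_nonneg hP0
  rw [e1, ← ENNReal.ofReal_add hsum0 hint0,
    ENNReal.ofReal_le_ofReal_iff (add_nonneg hsum0 hint0)] at hfin
  exact hfin

/-- the level `0`: `∫ w E_0 = ∫ l^(-κ) |X|²` -/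
theorem Ctx.AA_zero (hC : Ctx X μ c a r smax D l) (H0 : StmtH0) {κ : ℝ} (hκ : 0 < κ) :
    AA X D κ a 0 = ∫ z, (l z) ^ (-κ) * ‖(X : ℂ → ℂ) z‖ ^ 2 := by
  have ha := hC.a_pos
  have hX : Measurable fun z => (X : ℂ → ℂ) z := (Lp.stronglyMeasurable X).measurable
  have hEm : Measurable (En X D 0) := (hC.En_mono 0).measurable
  have hwm : Measurable fun L : ℝ => ENNReal.ofReal (κ * L ^ (-κ - 1)) := by fun_prop
  have hXm : Measurable fun z => ENNReal.ofReal (‖(X : ℂ → ℂ) z‖ ^ 2) :=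
    (hX.norm.pow_const 2).ennreal_ofReal
  have hl0 : ∀ᵐ z, 0 ≤ (l z) ^ (-κ) * ‖(X : ℂ → ℂ) z‖ ^ 2 := by
    filter_upwards [hC.supp] with z hz
    rcases eq_or_ne ((X : ℂ → ℂ) z) 0 with h0 | h0
    · rw [h0]; simp
    · have := ha.trans (hz h0)
      positivity
  rw [AA, integral_eq_lintegral_of_nonneg_ae, integral_eq_lintegral_of_nonneg_ae hl0]
  rotate_left
  · exact ((hC.l_meas.pow_const _).mul (hX.norm.pow_const 2)).aestronglyMeasurable
  · refine (ae_restrict_iff' measurableSet_Ioi).2 (ae_of_all _ fun L hL => ?_)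
    have hL0 : 0 < L := ha.trans hL
    have h3 := En_nonneg (X := X) (D := D) 0 L
    change (0 : ℝ) ≤ κ * L ^ (-κ - 1) * En X D 0 L
    positivity
  · exact (wE_int hκ ha hEm (En_nonneg 0) (En_le 0)).aestronglyMeasurable
  congr 1
  have e1 : ∫⁻ L in Ioi a, ENNReal.ofReal (κ * L ^ (-κ - 1) * En X D 0 L) =
      ∫⁻ L in Ioi a, ∫⁻ z, {q : ℝ × ℂ | l q.2 ≤ q.1}.indicator
        (fun q => ENNReal.ofReal (κ * q.1 ^ (-κ - 1)) *
          ENNReal.ofReal (‖(X : ℂ → ℂ) q.2‖ ^ 2)) (L, z) := by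
    refine setLIntegral_congr_fun measurableSet_Ioi fun L hL => ?_
    have hL0 : 0 < L := ha.trans hL
    have hS : MeasurableSet {z | l z ≤ L} := measurableSet_le hC.l_meas measurable_const
    have h1 : ∀ z, {q : ℝ × ℂ | l q.2 ≤ q.1}.indicator
        (fun q => ENNReal.ofReal (κ * q.1 ^ (-κ - 1)) *
          ENNReal.ofReal (‖(X : ℂ → ℂ) q.2‖ ^ 2)) (L, z) = {z | l z ≤ L}.indicator
        (fun z => ENNReal.ofReal (κ * L ^ (-κ - 1)) * ENNReal.ofReal (‖(X : ℂ → ℂ) z‖ ^ 2)) z :=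
      fun z => rfl
    simp_rw [h1]
    have hDc : (D L)ᶜ = {z | l z ≤ L} := by
      rw [hC.eq L hL0]; ext z; simp
    rw [lintegral_indicator hS, lintegral_const_mul _ hXm, En_pos hL0,
      E_zero (hC.isOpen L hL0) X (H0 _ X (hC.isOpen L hL0)), hDc,
      ENNReal.ofReal_mul (by positivity), ofReal_integral_eq_lintegral_ofReal (sq_int X)
        (ae_of_all _ fun z => by positivity)]
  have hJm : Measurable ({q : ℝ × ℂ | l q.2 ≤ q.1}.indicator
        (fun q => ENNReal.ofReal (κ * q.1 ^ (-κ - 1)) *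
          ENNReal.ofReal (‖(X : ℂ → ℂ) q.2‖ ^ 2))) :=
    ((hwm.comp measurable_fst).mul (hXm.comp measurable_snd)).indicator
      (measurableSet_le (hC.l_meas.comp measurable_snd) measurable_fst)
  have e2 := lintegral_lintegral_swap (μ := volume.restrict (Ioi a)) (ν := (volume : Measure ℂ))
    (f := fun L z => {q : ℝ × ℂ | l q.2 ≤ q.1}.indicator
        (fun q => ENNReal.ofReal (κ * q.1 ^ (-κ - 1)) *
          ENNReal.ofReal (‖(X : ℂ → ℂ) q.2‖ ^ 2)) (L, z)) hJm.aemeasurable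
  rw [e1, e2]
  refine lintegral_congr_ae ?_
  filter_upwards [hC.supp] with z hz
  rcases eq_or_ne ((X : ℂ → ℂ) z) 0 with h0 | h0
  · have h1 : ∀ L, {q : ℝ × ℂ | l q.2 ≤ q.1}.indicator
        (fun q => ENNReal.ofReal (κ * q.1 ^ (-κ - 1)) *
          ENNReal.ofReal (‖(X : ℂ → ℂ) q.2‖ ^ 2)) (L, z) = 0 := fun L => by
      by_cases h2 : (L, z) ∈ {q : ℝ × ℂ | l q.2 ≤ q.1}
      · rw [indicator_of_mem h2]; simp [h0]
      · rw [indicator_of_notMem h2]
    simp only [h1, h0]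
    simp
  · have hlz := hz h0
    have hlz0 := ha.trans hlz
    have h1 : ∀ L, {q : ℝ × ℂ | l q.2 ≤ q.1}.indicator
        (fun q => ENNReal.ofReal (κ * q.1 ^ (-κ - 1)) *
          ENNReal.ofReal (‖(X : ℂ → ℂ) q.2‖ ^ 2)) (L, z) =
        (Ici (l z)).indicator (fun L => ENNReal.ofReal (κ * L ^ (-κ - 1)) *
          ENNReal.ofReal (‖(X : ℂ → ℂ) z‖ ^ 2)) L := fun L => rfl
    simp_rw [h1]
    have h2 : Ici (l z) ∩ Ioi a = Ici (l z) := by
      ext L
      simp only [mem_inter_iff, mem_Ici, mem_Ioi, and_iff_left_iff_imp]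
      exact fun h => hlz.trans_le h
    rw [setLIntegral_indicator measurableSet_Ici, h2, lintegral_mul_const _ hwm,
      setLIntegral_congr Ioi_ae_eq_Ici.symm, w_lintegral hκ hlz0,
      ← ENNReal.ofReal_mul (by positivity)]

/-- **(FGEN)** the conclusion at one `ε` and one cut-off `a` -/
theorem Ctx.core (hC : Ctx X μ c a r smax D l) (H0 : StmtH0) (hQ : QForm n p smax th B V)
    (hp : p < 2) :
    ∑ j ∈ Finset.range (n + 1), B j * AA X D ((2 - p) / r) a j ≤
      ∫ z, V (clip smax ((l z - μ z + c) / (r * l z))) * (l z) ^ (-((2 - p) / r)) *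
        ‖(X : ℂ → ℂ) z‖ ^ 2 := by
  have ha := hC.a_pos
  have hr := hC.r_pos
  have hκ : 0 < (2 - p) / r := div_pos (by linarith) hr
  have h1 := hC.claim2 H0 hQ hp
  have h2 := hC.AA_zero H0 hκ
  set κ := (2 - p) / r with hκd
  set c₀ := B 0 + th 0 with hc₀
  obtain ⟨K, hK⟩ := isCompact_Icc.exists_bound_of_continuousOn hQ.cont
  have hX : Measurable fun z => (X : ℂ → ℂ) z := (Lp.stronglyMeasurable X).measurable
  -- integrability
  have hli : Integrable fun z => (l z) ^ (-κ) * ‖(X : ℂ → ℂ) z‖ ^ 2 := by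
    refine ((Hil.H_sq_int X).const_mul (a ^ (-κ))).mono'
      ((hC.l_meas.pow_const _).mul (hX.norm.pow_const 2)).aestronglyMeasurable ?_
    filter_upwards [hC.supp] with z hz
    rcases eq_or_ne ((X : ℂ → ℂ) z) 0 with h0 | h0
    · rw [h0]; simp
    · have hlz := hz h0
      have hlz0 := ha.trans hlz
      rw [Real.norm_eq_abs, abs_of_nonneg (by positivity)]
      exact mul_le_mul_of_nonneg_right
        (Real.rpow_le_rpow_of_nonpos ha hlz.le (neg_nonpos.2 hκ.le)) (by positivity)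
  have hVm : Measurable fun z => V (clip smax ((l z - μ z + c) / (r * l z))) :=
    (Vc_cont hQ hC.smax_nonneg).measurable.comp
      (((hC.l_meas.sub hC.μ_meas).add_const c).div (hC.l_meas.const_mul r))
  have hVi : Integrable fun z => V (clip smax ((l z - μ z + c) / (r * l z))) * (l z) ^ (-κ) *
        ‖(X : ℂ → ℂ) z‖ ^ 2 := by
    have := hli.bdd_mul (c := K) hVm.aestronglyMeasurable
      (ae_of_all _ fun z => hK _ (clip_mem hC.smax_nonneg _))
    refine this.congr (ae_of_all _ fun z => ?_)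
    ring
  have e1 : ∫ z, Phi μ c r smax c₀ κ a V z (l z) * ‖(X : ℂ → ℂ) z‖ ^ 2 =
      (∫ z, V (clip smax ((l z - μ z + c) / (r * l z))) * (l z) ^ (-κ) *
        ‖(X : ℂ → ℂ) z‖ ^ 2) - c₀ * ∫ z, (l z) ^ (-κ) * ‖(X : ℂ → ℂ) z‖ ^ 2 := by
    rw [← integral_const_mul, ← integral_sub hVi (hli.const_mul _)]
    refine integral_congr_ae ?_
    filter_upwards [hC.supp] with z hz
    rcases eq_or_ne ((X : ℂ → ℂ) z) 0 with h0 | h0
    · rw [h0]; simp
    · have hlz := hz h0
      rw [Phi, max_eq_left hlz.le, sz]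
      ring
  rw [e1, ← h2] at h1
  have e2 : ∑ j ∈ Finset.range n, th j * (AA X D κ a (j + 1) - AA X D κ a j) -
      ∑ j ∈ Finset.range n, (th j - B (j + 1) - th (j + 1)) * AA X D κ a (j + 1) =
      (∑ j ∈ Finset.range n, B (j + 1) * AA X D κ a (j + 1)) +
      (∑ j ∈ Finset.range n, (th (j + 1) * AA X D κ a (j + 1) - th j * AA X D κ a j)) := by
    rw [← Finset.sum_sub_distrib, ← Finset.sum_add_distrib]
    exact Finset.sum_congr rfl fun j _ => by ring
  rw [Finset.sum_range_sub (fun j => th j * AA X D κ a j), hQ.th_end, zero_mul] at e2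
  rw [Finset.sum_range_succ']
  have : c₀ * AA X D κ a 0 = B 0 * AA X D κ a 0 + th 0 * AA X D κ a 0 := by rw [hc₀]; ring
  linarith

end Pool.Agent.Lib.QNL.F31
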