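import Pool.Agent.Lib.QNL.Stmts

/-!
Room QNL: the interface between group F (integration in the level `L`) and groups N, T.
Nothing is proved here.
-/

set_option autoImplicit false

namespace Pool.Agent.Lib.QNL

open MeasureTheory Filter Topology Set Finset
open scoped ENNReal

/-- the level function `l_ε(z) = sup {L > 0 | ε < ψ L z}` (`0` if there is no such `L`) -/
noncomputable def lev (ψ : ℝ → ℂ → ℝ) (ε : ℝ) (z : ℂ) : ℝ := sSup {L : ℝ | 0 < L ∧ ε < ψ L z}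

/-- The pointwise inequality at one point and one level, for the shares `B` and the
multipliers `th`: `V s |e_0|²` bounds the quadratic form, for every `s ∈ [0, smax]`. -/
structure QForm (n : ℕ) (p smax : ℝ) (th B : ℕ → ℝ) (V : ℝ → ℝ) : Prop where
  th_nonneg : ∀ j, 0 ≤ th j
  th_end : th n = 0
  B_nonneg : ∀ j, 0 ≤ B j
  mono : ∀ j, j < n → B (j + 1) + th (j + 1) ≤ th j
  cont : ContinuousOn V (Icc 0 smax)
  form : ∀ s ∈ Icc (0 : ℝ) smax, ∀ e : ℕ → ℂ,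
    ∑ j ∈ Finset.range n, th j / (2 * j + 1) * ((2 - p) * s) * ‖e j - e (j + 1)‖ ^ 2
      + ∑ j ∈ Finset.range n, (B (j + 1) + th (j + 1) - th j) * ‖e (j + 1)‖ ^ 2
      + (B 0 + th 0) * ‖e 0‖ ^ 2 ≤ V s * ‖e 0‖ ^ 2

/-- (F) **output of group F** for the open sets `U_L = {0 < ψ L}` (all limits taken):
`Σ_{j ≤ n} B_j ∫ w(L) E_j(U_L) dL ≤ ∫ V(s(z)) l(z)^((p-2)/r) |X(z)|² dz`,
`w(L) = ((2-p)/r) L^((p-2)/r - 1)`, `s = (1 - |X|^r / l)/r`. -/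
def StmtF : Prop := ∀ (p r : ℝ), 1 ≤ r → r < p → p < 2 →
  ∀ (x : ℂ → ℂ) (X : H), Continuous x → HasCompactSupport x → (X : ℂ → ℂ) =ᵐ[volume] x →
  ∀ (ψ : ℝ → ℂ → ℝ) (C : ℝ), Fam (fun z => ‖x z‖ ^ r) ψ → 0 ≤ C →
  Layer (fun z => ‖x z‖ ^ r) C ψ X →
  ∀ (n : ℕ) (smax : ℝ) (th B : ℕ → ℝ) (V : ℝ → ℝ), 1 / r < smax → QForm n p smax th B V →
    ∫⁻ L in Ioi (0 : ℝ), ENNReal.ofReal ((2 - p) / r * L ^ ((p - 2) / r - 1) *
        ∑ j ∈ Finset.range (n + 1), B j * E j {z | 0 < ψ L z} X) ≤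
      ENNReal.ofReal (∫ z, V ((1 - ‖x z‖ ^ r / lev ψ 0 z) / r) *
        lev ψ 0 z ^ ((p - 2) / r) * ‖x z‖ ^ 2)

end Pool.Agent.Lib.QNL
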