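import Pool.Agent.Lib.QNL.Stmts
import Pool.Agent.Lib.QNL.OStmts

/-!
QNL, groups O and L: the interface structure `QNL.Fam` from `O.Obst` (`fam_of_obst`), and three
facts on the obstacle family: `psi_lsc`, `stmtRight` (from `StmtConv`), `stmtOut` (from `StmtJ`).
-/

set_option autoImplicit false

namespace Pool.Agent.Lib.QNL.FamA

open MeasureTheory Filter Topology Set
open Pool.Agent.Lib.QNL

/-! ### The obstacle family -/

section obstacle

variable {μ : ℂ → ℝ} {C : ℝ} {u : ℝ → ℂ → ℝ}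

/-- difference quotients above a number below `ψ` -/
theorem exists_quot (hC : O.StmtConv) (hu : O.Fam μ C u) {L : ℝ} (hL : 0 < L) {z : ℂ} {y : ℝ}
    (hy : y < O.psi u L z) : ∃ L', L < L' ∧ y < (u L z - u L' z) / (L' - L) := by
  have h1 := (hC μ C u hu z).2.2.1 L hL
  have h2 : ∀ᶠ h : ℝ in 𝓝[>] 0, y < (u L z - u (L + h) z) / h := h1.eventually (lt_mem_nhds hy)
  obtain ⟨h, hh, hpos⟩ := (h2.and self_mem_nhdsWithin).exists
  have hpos' : 0 < h := hpos
  refine ⟨L + h, by linarith, ?_⟩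
  rw [add_sub_cancel_left]
  exact hh

/-- lower semicontinuous in the point -/
theorem psi_lsc (hC : O.StmtConv) (hu : O.Fam μ C u) {L : ℝ} (hL : 0 < L) :
    LowerSemicontinuous (O.psi u L) := by
  intro z y hy
  obtain ⟨L', hL', hq⟩ := exists_quot hC hu hL hy
  have hc : Continuous fun w => (u L w - u L' w) / (L' - L) :=
    ((hu.cont L hL).sub (hu.cont L' (hL.trans hL'))).div_const _
  have h1 : ∀ᶠ w in 𝓝 z, y < (u L w - u L' w) / (L' - L) :=
    hc.continuousAt.eventually (lt_mem_nhds hq)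
  filter_upwards [h1] with w hw
  exact hw.trans_le ((hC μ C u hu w).2.2.2.1 L L' hL hL')

/-- antitone and right continuous in the level -/
theorem stmtRight (hC : O.StmtConv) : O.StmtRight := by
  intro μ C u hu z
  have hanti : ∀ L L', 0 < L → L ≤ L' → O.psi u L' z ≤ O.psi u L z := by
    intro L L' hL hLL
    rcases eq_or_lt_of_le hLL with h | h
    · rw [h]
    · exact ((hC μ C u hu z).2.2.2.2.1 L L' hL h).trans ((hC μ C u hu z).2.2.2.1 L L' hL h)
  refine ⟨fun L hL => ?_, hanti⟩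
  show Tendsto (fun l => O.psi u l z) (𝓝[≥] L) (𝓝 (O.psi u L z))
  rw [tendsto_order]
  refine ⟨fun y hy => ?_, fun y hy => ?_⟩
  · obtain ⟨L', hL', hq⟩ := exists_quot hC hu hL hy
    have hcu : ContinuousWithinAt (fun l => u l z) (Ici L) L :=
      (((hC μ C u hu z).2.1 L hL).mono (fun l hl => lt_of_lt_of_le hL hl))
    have hc : ContinuousWithinAt (fun l => (u l z - u L' z) / (L' - l)) (Ici L) L := by
      refine (hcu.sub continuousWithinAt_const).div
        (continuousWithinAt_const.sub continuousWithinAt_id) ?_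
      show L' - L ≠ 0
      linarith
    have h1 : ∀ᶠ l in 𝓝[≥] L, y < (u l z - u L' z) / (L' - l) :=
      hc.tendsto.eventually (lt_mem_nhds hq)
    have h2 : ∀ᶠ l in 𝓝[≥] L, l < L' :=
      mem_nhdsWithin_of_mem_nhds (Iio_mem_nhds hL')
    filter_upwards [h1, h2, self_mem_nhdsWithin] with l hl1 hl2 hl3
    have hl0 : 0 < l := lt_of_lt_of_le hL hl3
    exact hl1.trans_le ((hC μ C u hu z).2.2.2.1 l L' hl0 hl2)
  · filter_upwards [self_mem_nhdsWithin] with l hl
    exact (hanti L l hL hl).trans_lt hy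

/-- off the domain `μ ≤ L`, at every point -/
theorem stmtOut (hJ : O.StmtJ) : O.StmtOut := by
  intro μ C u hu L hL z hz
  by_contra hcon
  rw [not_le] at hcon
  obtain ⟨δ, hδ, hδ'⟩ : ∃ δ : ℝ, 0 < δ ∧ μ z = L + 3 * δ :=
    ⟨(μ z - L) / 3, by linarith, by ring⟩
  have hL' : 0 < L + δ := by linarith
  have hu0 : u (L + δ) z = 0 := by
    by_contra h
    exact hz ⟨L + δ, by linarith, lt_of_le_of_ne (hu.nonneg _ hL' z) (Ne.symm h)⟩
  have hμ : Continuous μ := hu.src.cont
  have hopen : IsOpen {w | L + δ + δ < μ w} := isOpen_lt continuous_const hμ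
  have hmem : z ∈ {w | L + δ + δ < μ w} := by
    show L + δ + δ < μ z
    linarith
  obtain ⟨r, hr, hrsub⟩ := Metric.nhds_basis_closedBall.mem_iff.1 (hopen.mem_nhds hmem)
  have h1 := hu.sup _ hL' z r hr
  have h2 := (hJ μ hμ hu.src.cpt z r (L + δ + δ) hr).2 fun y hy => (hrsub hy).le
  have h3 : 0 ≤ Real.circleAverage (u (L + δ)) z r :=
    Real.circleAverage_nonneg_of_nonneg fun x _ => hu.nonneg _ hL' x
  have h4 : 0 < δ * r ^ 2 := mul_pos hδ (pow_pos hr 2)
  rw [hu0] at h1
  nlinarith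

end obstacle

/-! ### The interface structure -/

section interface

variable {μ : ℂ → ℝ} {C : ℝ} {U : ℝ → Set ℂ} {ψ : ℝ → ℂ → ℝ}

theorem pos_iff (h : O.Obst μ C U ψ) {L : ℝ} (hL : 0 < L) (z : ℂ) : 0 < ψ L z ↔ z ∈ U L := by
  refine ⟨fun hz => ?_, fun hz => h.pos L hL z hz⟩
  by_contra hcon
  rw [h.zero L hL z hcon] at hz
  exact lt_irrefl _ hz

theorem setOf_pos (h : O.Obst μ C U ψ) {L : ℝ} (hL : 0 < L) : {z | 0 < ψ L z} = U L := by
  ext z
  exact pos_iff h hL z

theorem psi_nonneg (h : O.Obst μ C U ψ) {L : ℝ} (hL : 0 < L) (z : ℂ) : 0 ≤ ψ L z := by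
  by_cases hz : z ∈ U L
  · exact (h.pos L hL z hz).le
  · rw [h.zero L hL z hz]

/-- The interface structure of the family. -/
theorem fam_of_obst (h : O.Obst μ C U ψ) : Fam μ ψ where
  lsc := fun L hL z y hy => by
    by_cases hz : z ∈ U L
    · have hc : ContinuousAt (ψ L) z :=
        (h.smooth L hL).continuousOn.continuousAt ((h.isOpen L hL).mem_nhds hz)
      exact hc.eventually (lt_mem_nhds hy)
    · have hy' : y < ψ L z := hy
      rw [h.zero L hL z hz] at hy'
      exact Eventually.of_forall fun w => hy'.trans_le (psi_nonneg h hL w)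
  nonneg := fun L z hL => psi_nonneg h hL z
  anti := fun z L L' hL hLL => h.anti L L' hL hLL z
  right := fun z L hL => h.right z L hL
  bdd := fun L hL => by
    rw [setOf_pos h hL]
    obtain ⟨R, hR⟩ := h.bdd L hL
    exact Metric.isBounded_ball.subset hR
  top := fun L z hμ hL => by
    refine h.zero L hL z ?_
    rw [h.top L hL hμ]
    exact notMem_empty z
  small := fun hpos R A => by
    obtain ⟨c, hc, L₀, hL₀, hb⟩ := h.small hpos
    have hD : 0 < 4 * |A| + R ^ 2 + 1 := by positivity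
    refine ⟨min L₀ (c ^ 2 / (4 * |A| + R ^ 2 + 1)),
      lt_min hL₀ (div_pos (pow_pos hc 2) hD), fun L hL hLlt z hz => ?_⟩
    have h1 : L < L₀ := hLlt.trans_le (min_le_left _ _)
    have h2 : L < c ^ 2 / (4 * |A| + R ^ 2 + 1) := hLlt.trans_le (min_le_right _ _)
    rw [lt_div_iff₀ hD] at h2
    have hball := hb L hL h1
    have hsq : (c / Real.sqrt L) ^ 2 = c ^ 2 / L := by
      rw [div_pow, Real.sq_sqrt hL.le]
    have h3 : 4 * |A| + R ^ 2 + 1 < c ^ 2 / L := by
      rw [lt_div_iff₀ hL]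
      linarith
    have hR0 : 0 ≤ R := (norm_nonneg z).trans hz
    have hz2 : ‖z‖ ^ 2 ≤ R ^ 2 := pow_le_pow_left₀ (norm_nonneg z) hz 2
    have hcL : 0 < c / Real.sqrt L := div_pos hc (Real.sqrt_pos.2 hL)
    have hzb : z ∈ Metric.ball (0 : ℂ) (c / Real.sqrt L) := by
      rw [mem_ball_zero_iff]
      refine lt_of_pow_lt_pow_left₀ 2 hcL.le ?_
      rw [hsq]
      nlinarith [abs_nonneg A]
    have h4 := h.tors L hL 0 (c / Real.sqrt L) hball z hzb
    rw [hsq, sub_zero] at h4
    nlinarith [le_abs_self A]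
  mass := fun L hL => by
    rw [setOf_pos h hL]
    exact h.mass L hL
  out := fun L hL z hz => by
    refine h.out L hL z fun hU => ?_
    have := h.pos L hL z hU
    linarith

end interface

end Pool.Agent.Lib.QNL.FamA
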