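import Pool.Agent.Lib.QNL.HilA

/-!
QNL, group H (Hilbert layer), part B: the spaces `K j D` = closure in `L²` of `Δ^j C_c^∞(D)`, their
projections, and the nested inequalities (H1), (H2), (H3), for all `j`.
-/

set_option autoImplicit false

namespace Pool.Agent.Lib.QNL.Hil

open MeasureTheory Filter Topology Set FourierTransform SchwartzMap LineDeriv
open scoped SchwartzMap ENNReal ContDiff ComplexInnerProductSpace
open Pool.Agent.Lib.IWC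
open Pool.Agent.Lib.MP_dd244f_an (dz dbar)

/-! ### Test functions -/

theorem ts_add (φ ψ : 𝓢(ℂ, ℂ)) : tsupport (φ + ψ : 𝓢(ℂ, ℂ)) ⊆ tsupport φ ∪ tsupport ψ :=
  tsupport_add (φ : ℂ → ℂ) ψ

theorem ts_smul (c : ℂ) (φ : 𝓢(ℂ, ℂ)) : tsupport (c • φ : 𝓢(ℂ, ℂ)) ⊆ tsupport φ := by
  refine closure_mono fun x hx => ?_
  rw [Function.mem_support] at hx ⊢
  intro h
  exact hx (by rw [smul_apply, h, smul_zero])

theorem cs_of_ts {φ ψ : 𝓢(ℂ, ℂ)} (hφ : HasCompactSupport φ) (h : tsupport ψ ⊆ tsupport φ) :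
    HasCompactSupport ψ := IsCompact.of_isClosed_subset hφ (isClosed_tsupport _) h

/-- The Schwartz functions with compact support inside `D`. -/
def CcS (D : Set ℂ) : Submodule ℂ 𝓢(ℂ, ℂ) where
  carrier := {φ : 𝓢(ℂ, ℂ) | HasCompactSupport φ ∧ tsupport φ ⊆ D}
  zero_mem' := by
    have h : tsupport (0 : 𝓢(ℂ, ℂ)) = ∅ := by
      have : ((0 : 𝓢(ℂ, ℂ)) : ℂ → ℂ) = 0 := rfl
      rw [this, tsupport_zero]
    refine ⟨?_, ?_⟩
    · change IsCompact (tsupport (0 : 𝓢(ℂ, ℂ)))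
      rw [h]
      exact isCompact_empty
    · rw [h]
      exact empty_subset _
  add_mem' := by
    rintro φ ψ ⟨h1, h2⟩ ⟨h3, h4⟩
    exact ⟨IsCompact.of_isClosed_subset (IsCompact.union h1 h3) (isClosed_tsupport _) (ts_add φ ψ),
      (ts_add φ ψ).trans (union_subset h2 h4)⟩
  smul_mem' := by
    rintro c φ ⟨h1, h2⟩
    exact ⟨cs_of_ts h1 (ts_smul c φ), (ts_smul c φ).trans h2⟩

theorem mem_CcS {D : Set ℂ} {φ : 𝓢(ℂ, ℂ)} : φ ∈ CcS D ↔ HasCompactSupport φ ∧ tsupport φ ⊆ D :=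
  Iff.rfl

theorem CcS_mono {D D' : Set ℂ} (h : D ⊆ D') : CcS D ≤ CcS D' := by
  intro φ hφ
  rw [mem_CcS] at hφ ⊢
  exact ⟨hφ.1, hφ.2.trans h⟩

/-- a Schwartz function with support inside that of `φ` -/
theorem mem_CcS_of_ts {D : Set ℂ} {φ ψ : 𝓢(ℂ, ℂ)} (hφ : φ ∈ CcS D)
    (h : tsupport ψ ⊆ tsupport φ) : ψ ∈ CcS D :=
  ⟨cs_of_ts hφ.1 h, h.trans hφ.2⟩

theorem ts_dz (φ : 𝓢(ℂ, ℂ)) : tsupport (dz φ) ⊆ tsupport φ := by
  rw [dz_eq]
  exact (ts_smul _ _).trans ((ts_add _ _).trans (union_subset (tsupport_lineDerivOp_subset _ _)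
    ((ts_smul _ _).trans (tsupport_lineDerivOp_subset _ _))))

theorem ts_dbar (φ : 𝓢(ℂ, ℂ)) : tsupport (dbar φ) ⊆ tsupport φ := by
  rw [dbar_eq]
  exact (ts_smul _ _).trans ((ts_add _ _).trans (union_subset (tsupport_lineDerivOp_subset _ _)
    ((ts_smul _ _).trans (tsupport_lineDerivOp_subset _ _))))

theorem ts_DD (a b : ℕ) (φ : 𝓢(ℂ, ℂ)) : tsupport (DD a b φ) ⊆ tsupport φ := by
  have h1 : ∀ (n : ℕ) (ψ : 𝓢(ℂ, ℂ)), tsupport (dbar^[n] ψ) ⊆ tsupport ψ := by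
    intro n
    induction n with
    | zero => intro ψ; exact subset_rfl
    | succ n ih => intro ψ; rw [Function.iterate_succ_apply]; exact (ih _).trans (ts_dbar ψ)
  have h2 : ∀ (n : ℕ) (ψ : 𝓢(ℂ, ℂ)), tsupport (dz^[n] ψ) ⊆ tsupport ψ := by
    intro n
    induction n with
    | zero => intro ψ; exact subset_rfl
    | succ n ih => intro ψ; rw [Function.iterate_succ_apply]; exact (ih _).trans (ts_dz ψ)
  rw [DD_apply]
  exact (ts_smul _ _).trans ((h2 a _).trans (h1 b φ))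

theorem DD_mem {D : Set ℂ} {φ : 𝓢(ℂ, ℂ)} (hφ : φ ∈ CcS D) (a b : ℕ) : DD a b φ ∈ CcS D :=
  mem_CcS_of_ts hφ (ts_DD a b φ)

/-! ### The functions which vanish off `D` -/

/-- The closed subspace of the functions vanishing almost everywhere off `D`. -/
noncomputable def V0 (D : Set ℂ) : Submodule ℂ H :=
  LinearMap.ker (LpToLpRestrictCLM ℂ ℂ ℂ (volume : Measure ℂ) 2 Dᶜ).toLinearMap

theorem mem_V0 {D : Set ℂ} (hD : MeasurableSet D) (f : H) :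
    f ∈ V0 D ↔ ∀ᵐ x, x ∉ D → (f : ℂ → ℂ) x = 0 := by
  have h1 : f ∈ V0 D ↔ LpToLpRestrictCLM ℂ ℂ ℂ (volume : Measure ℂ) 2 Dᶜ f = 0 := by
    rw [V0, LinearMap.mem_ker]
    rfl
  rw [h1]
  have h2 := LpToLpRestrictCLM_coeFn (μ := (volume : Measure ℂ)) (p := 2) ℂ Dᶜ f
  have h3 : (∀ᵐ x, x ∉ D → (f : ℂ → ℂ) x = 0) ↔
      ∀ᵐ x ∂((volume : Measure ℂ).restrict Dᶜ), (f : ℂ → ℂ) x = 0 :=
    (MeasureTheory.ae_restrict_iff' hD.compl).symm
  rw [h3, Lp.eq_zero_iff_ae_eq_zero]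
  constructor
  · intro h
    filter_upwards [h, h2] with x h3 h4
    rw [← h4, h3, Pi.zero_apply]
  · intro h
    filter_upwards [h, h2] with x h3 h4
    rw [h4, h3, Pi.zero_apply]

theorem isClosed_V0 (D : Set ℂ) : IsClosed (V0 D : Set H) :=
  (LpToLpRestrictCLM ℂ ℂ ℂ (volume : Measure ℂ) 2 Dᶜ).isClosed_ker

theorem toLp_mem_V0 {D : Set ℂ} (hD : MeasurableSet D) {φ : 𝓢(ℂ, ℂ)} (hφ : φ ∈ CcS D) :
    (φ.toLp 2 : H) ∈ V0 D := by
  rw [mem_V0 hD]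
  filter_upwards [SchwartzMap.coeFn_toLp φ 2 volume] with x h1 h2
  rw [h1]
  by_contra h3
  exact h2 (hφ.2 (subset_tsupport _ h3))

/-! ### The spaces -/

/-- `φ ↦ Δ^j φ` into `L²`. -/
noncomputable def Lj (j : ℕ) : 𝓢(ℂ, ℂ) →ₗ[ℂ] H :=
  (SchwartzMap.toLpCLM ℂ ℂ 2 (volume : Measure ℂ)).toLinearMap.comp (DD j j)

@[simp] theorem Lj_apply (j : ℕ) (φ : 𝓢(ℂ, ℂ)) : Lj j φ = (DD j j φ).toLp 2 := rfl

/-- `K j D` = closure in `L²(ℂ)` of `Δ^j C_c^∞(D)`. -/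
noncomputable def K (j : ℕ) (D : Set ℂ) : Submodule ℂ H :=
  ((CcS D).map (Lj j)).topologicalClosure

noncomputable instance (j : ℕ) (D : Set ℂ) : CompleteSpace (K j D) :=
  (Submodule.isClosed_topologicalClosure _).completeSpace_coe

theorem K_closed (j : ℕ) (D : Set ℂ) : IsClosed (K j D : Set H) :=
  Submodule.isClosed_topologicalClosure _

theorem Lap_mem_K {D : Set ℂ} {φ : 𝓢(ℂ, ℂ)} (hφ : φ ∈ CcS D) (j : ℕ) :
    ((DD j j φ).toLp 2 : H) ∈ K j D :=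
  Submodule.le_topologicalClosure _ (Submodule.mem_map_of_mem (f := Lj j) hφ)

/-- The induction principle: a closed subspace which contains `Δ^j φ` for `φ ∈ C_c^∞(D)`
contains `K j D`. -/
theorem K_le {j : ℕ} {D : Set ℂ} {V : Submodule ℂ H} (hV : IsClosed (V : Set H))
    (h : ∀ φ ∈ CcS D, ((DD j j φ).toLp 2 : H) ∈ V) : K j D ≤ V := by
  refine Submodule.topologicalClosure_minimal _ ?_ hV
  rintro _ ⟨φ, hφ, rfl⟩
  exact h φ hφ

/-- The induction principle for a closed predicate. -/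
theorem K_ind {j : ℕ} {D : Set ℂ} {P : H → Prop} (hP : IsClosed {f | P f})
    (h : ∀ φ ∈ CcS D, P ((DD j j φ).toLp 2)) {f : H} (hf : f ∈ K j D) : P f := by
  have h1 : closure (((CcS D).map (Lj j) : Submodule ℂ H) : Set H) ⊆ {f | P f} := by
    refine closure_minimal ?_ hP
    rintro _ ⟨φ, hφ, rfl⟩
    exact h φ hφ
  exact h1 hf

theorem K_mono (j : ℕ) {D D' : Set ℂ} (h : D ⊆ D') : K j D ≤ K j D' :=
  K_le (K_closed j D') fun _ hφ => Lap_mem_K (CcS_mono h hφ) j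

theorem K_succ_le (j : ℕ) (D : Set ℂ) : K (j + 1) D ≤ K j D := by
  refine K_le (K_closed j D) fun φ hφ => ?_
  have h : DD (j + 1) (j + 1) φ = DD j j (DD 1 1 φ) := by rw [DD_DD]
  rw [h]
  exact Lap_mem_K (DD_mem hφ 1 1) j

theorem K_anti {i j : ℕ} (h : i ≤ j) (D : Set ℂ) : K j D ≤ K i D := by
  induction j, h using Nat.le_induction with
  | base => exact le_rfl
  | succ j _ ih => exact (K_succ_le j D).trans ih

/-- The image of `K j D` under `T^k`, `|k| ≤ j`, is supported in `D`. -/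
theorem TH_mem_V0 {D : Set ℂ} (hD : MeasurableSet D) {j : ℕ} {k : ℤ} (hk : |k| ≤ j) {f : H}
    (hf : f ∈ K j D) : TH k f ∈ V0 D := by
  refine K_ind (P := fun g => TH k g ∈ V0 D) ?_ (fun φ hφ => ?_) hf
  · exact (isClosed_V0 D).preimage (TH_continuous k)
  · rw [abs_le] at hk
    rw [TH_DD k j j (j + k).toNat (j - k).toNat (by omega) (by omega)]
    exact toLp_mem_V0 hD (DD_mem hφ _ _)

/-- The same, pointwise. -/
theorem TH_eq_zero_off {D : Set ℂ} (hD : MeasurableSet D) {j : ℕ} {k : ℤ} (hk : |k| ≤ j) {f : H}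
    (hf : f ∈ K j D) : ∀ᵐ x, x ∉ D → (TH k f : ℂ → ℂ) x = 0 :=
  (mem_V0 hD _).1 (TH_mem_V0 hD hk hf)

theorem K_le_V0 {D : Set ℂ} (hD : MeasurableSet D) (j : ℕ) : K j D ≤ V0 D := by
  intro f hf
  have := TH_mem_V0 hD (k := 0) (j := j) (by simp) hf
  rwa [TH_zero] at this

end Pool.Agent.Lib.QNL.Hil
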