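import Pool.Agent.Lib.QNL.DV
import Pool.Agent.Lib.MP_dd244f_an.Op

/-!
The Poincaré inequality for Schwartz functions which vanish off a bounded set, and the bounds of
the derivatives `∂^a ∂bar^b φ`, `a + b ≤ 2 j`, by `Δ^j φ` in `L²`.
-/

set_option autoImplicit false

namespace Pool.Agent.Lib.QNL.Poi79

open MeasureTheory Filter Topology Set FourierTransform SchwartzMap LineDeriv
open scoped SchwartzMap ENNReal ContDiff
open Pool.Agent.Lib.MP_dd244f_an (fourier_dz fourier_dbar fourier_dz_iter fourier_dbar_iter)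

/-- `∂^a ∂bar^b φ` for Schwartz functions -/
noncomputable def Wz (a b : ℕ) (φ : 𝓢(ℂ, ℂ)) : 𝓢(ℂ, ℂ) := Pool.Agent.Lib.MP_dd244f_an.dz^[a] (Pool.Agent.Lib.MP_dd244f_an.dbar^[b] φ)

namespace Poi_

theorem dz_add (f g : 𝓢(ℂ, ℂ)) : Pool.Agent.Lib.MP_dd244f_an.dz (f + g) = Pool.Agent.Lib.MP_dd244f_an.dz f + Pool.Agent.Lib.MP_dd244f_an.dz g := by
  unfold Pool.Agent.Lib.MP_dd244f_an.dz
  rw [lineDerivOp_add, lineDerivOp_add]
  module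

theorem dz_smul (c : ℂ) (f : 𝓢(ℂ, ℂ)) : Pool.Agent.Lib.MP_dd244f_an.dz (c • f) = c • Pool.Agent.Lib.MP_dd244f_an.dz f := by
  unfold Pool.Agent.Lib.MP_dd244f_an.dz
  rw [lineDerivOp_smul, lineDerivOp_smul]
  module

theorem dbar_add (f g : 𝓢(ℂ, ℂ)) : Pool.Agent.Lib.MP_dd244f_an.dbar (f + g) = Pool.Agent.Lib.MP_dd244f_an.dbar f + Pool.Agent.Lib.MP_dd244f_an.dbar g := by
  unfold Pool.Agent.Lib.MP_dd244f_an.dbar
  rw [lineDerivOp_add, lineDerivOp_add]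
  module

theorem dbar_smul (c : ℂ) (f : 𝓢(ℂ, ℂ)) : Pool.Agent.Lib.MP_dd244f_an.dbar (c • f) = c • Pool.Agent.Lib.MP_dd244f_an.dbar f := by
  unfold Pool.Agent.Lib.MP_dd244f_an.dbar
  rw [lineDerivOp_smul, lineDerivOp_smul]
  module

end Poi_

open Poi_

theorem dz_add_dbar (f : 𝓢(ℂ, ℂ)) : Pool.Agent.Lib.MP_dd244f_an.dz f + Pool.Agent.Lib.MP_dd244f_an.dbar f = ∂_{(1 : ℂ)} f := by
  unfold Pool.Agent.Lib.MP_dd244f_an.dz Pool.Agent.Lib.MP_dd244f_an.dbar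
  module

theorem Wz_zero (φ : 𝓢(ℂ, ℂ)) : Wz 0 0 φ = φ := rfl

theorem Wz_succ_left (a b : ℕ) (φ : 𝓢(ℂ, ℂ)) : Wz (a + 1) b φ = Pool.Agent.Lib.MP_dd244f_an.dz (Wz a b φ) := by
  unfold Wz
  rw [Function.iterate_succ_apply']

theorem fourier_Wz (a b : ℕ) (φ : 𝓢(ℂ, ℂ)) (ξ : ℂ) :
    𝓕 (Wz a b φ) ξ = (Real.pi * Complex.I * starRingEnd ℂ ξ) ^ a *
      ((Real.pi * Complex.I * ξ) ^ b * 𝓕 φ ξ) := by
  unfold Wz
  rw [fourier_dz_iter, fourier_dbar_iter]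

theorem Wz_add (a b : ℕ) (f g : 𝓢(ℂ, ℂ)) : Wz a b (f + g) = Wz a b f + Wz a b g := by
  have h1 : ∀ (n : ℕ) (f g : 𝓢(ℂ, ℂ)), Pool.Agent.Lib.MP_dd244f_an.dbar^[n] (f + g) = Pool.Agent.Lib.MP_dd244f_an.dbar^[n] f + Pool.Agent.Lib.MP_dd244f_an.dbar^[n] g := by
    intro n
    induction n with
    | zero => intro f g; rfl
    | succ n ih => intro f g; rw [Function.iterate_succ_apply', Function.iterate_succ_apply',
        Function.iterate_succ_apply', ih, dbar_add]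
  have h2 : ∀ (n : ℕ) (f g : 𝓢(ℂ, ℂ)), Pool.Agent.Lib.MP_dd244f_an.dz^[n] (f + g) = Pool.Agent.Lib.MP_dd244f_an.dz^[n] f + Pool.Agent.Lib.MP_dd244f_an.dz^[n] g := by
    intro n
    induction n with
    | zero => intro f g; rfl
    | succ n ih => intro f g; rw [Function.iterate_succ_apply', Function.iterate_succ_apply',
        Function.iterate_succ_apply', ih, dz_add]
  unfold Wz
  rw [h1, h2]

theorem Wz_smul (a b : ℕ) (c : ℂ) (f : 𝓢(ℂ, ℂ)) : Wz a b (c • f) = c • Wz a b f := by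
  have h1 : ∀ (n : ℕ) (f : 𝓢(ℂ, ℂ)), Pool.Agent.Lib.MP_dd244f_an.dbar^[n] (c • f) = c • Pool.Agent.Lib.MP_dd244f_an.dbar^[n] f := by
    intro n
    induction n with
    | zero => intro f; rfl
    | succ n ih => intro f; rw [Function.iterate_succ_apply', Function.iterate_succ_apply',
        ih, dbar_smul]
  have h2 : ∀ (n : ℕ) (f : 𝓢(ℂ, ℂ)), Pool.Agent.Lib.MP_dd244f_an.dz^[n] (c • f) = c • Pool.Agent.Lib.MP_dd244f_an.dz^[n] f := by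
    intro n
    induction n with
    | zero => intro f; rfl
    | succ n ih => intro f; rw [Function.iterate_succ_apply', Function.iterate_succ_apply',
        ih, dz_smul]
  unfold Wz
  rw [h1, h2]

theorem Wz_sub (a b : ℕ) (f g : 𝓢(ℂ, ℂ)) : Wz a b (f - g) = Wz a b f - Wz a b g := by
  have h : f - g = f + (-1 : ℂ) • g := by module
  rw [h, Wz_add, Wz_smul]
  module

/-- the derivatives of the same order have the same norm in `L²` -/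
theorem Wz_norm {a b a' b' : ℕ} (h : a + b = a' + b') (φ : 𝓢(ℂ, ℂ)) :
    ‖(Wz a b φ).toLp 2‖ = ‖(Wz a' b' φ).toLp 2‖ := by
  rw [← norm_fourier_toL2_eq (Wz a b φ), ← norm_fourier_toL2_eq (Wz a' b' φ)]
  apply le_antisymm
  · refine Lp.norm_le_norm_of_ae_le ?_
    filter_upwards [SchwartzMap.coeFn_toLp (𝓕 (Wz a b φ)) 2 volume,
      SchwartzMap.coeFn_toLp (𝓕 (Wz a' b' φ)) 2 volume] with ξ h1 h2
    rw [h1, h2, fourier_Wz, fourier_Wz]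
    apply le_of_eq
    simp only [norm_mul, norm_pow, RCLike.norm_conj]
    rw [← mul_assoc, ← mul_assoc, ← pow_add, ← pow_add, h]
  · refine Lp.norm_le_norm_of_ae_le ?_
    filter_upwards [SchwartzMap.coeFn_toLp (𝓕 (Wz a b φ)) 2 volume,
      SchwartzMap.coeFn_toLp (𝓕 (Wz a' b' φ)) 2 volume] with ξ h1 h2
    rw [h1, h2, fourier_Wz, fourier_Wz]
    apply le_of_eq
    simp only [norm_mul, norm_pow, RCLike.norm_conj]
    rw [← mul_assoc, ← mul_assoc, ← pow_add, ← pow_add, h]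

/-! ### Poincaré -/

namespace Poi_

theorem sq_norm_toLp (f : 𝓢(ℂ, ℂ)) :
    Integrable (fun x => ‖f x‖ ^ 2) ∧ ∫ x, ‖f x‖ ^ 2 = ‖f.toLp 2‖ ^ 2 := by
  have hm : MemLp (f : ℂ → ℂ) 2 volume := f.memLp 2 volume
  refine ⟨hm.integrable_norm_pow (by norm_num), ?_⟩
  have h := L2.inner_def (𝕜 := ℂ) (f.toLp 2) (f.toLp 2)
  have h2 : (inner ℂ (f.toLp 2 : Lp ℂ 2 (volume : Measure ℂ)) (f.toLp 2) : ℂ) =
      ((‖f.toLp 2‖ ^ 2 : ℝ) : ℂ) := by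
    rw [inner_self_eq_norm_sq_to_K]; norm_cast
  rw [h2] at h
  have h3 : ∫ x, (inner ℂ ((f.toLp 2 : Lp ℂ 2 (volume : Measure ℂ)) x)
      ((f.toLp 2 : Lp ℂ 2 (volume : Measure ℂ)) x) : ℂ) =
      ∫ x, ((‖f x‖ ^ 2 : ℝ) : ℂ) := by
    apply integral_congr_ae
    filter_upwards [SchwartzMap.coeFn_toLp f 2 volume] with x hx
    rw [hx, inner_self_eq_norm_sq_to_K]; norm_cast
  have h4 : ∫ x, ((‖f x‖ ^ 2 : ℝ) : ℂ) = ((∫ x, ‖f x‖ ^ 2 : ℝ) : ℂ) := integral_complex_ofReal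
  rw [h3, h4] at h
  exact_mod_cast h.symm

theorem lineDeriv_eq (f : 𝓢(ℂ, ℂ)) (v z : ℂ) : (∂_{v} f : 𝓢(ℂ, ℂ)) z = fderiv ℝ f z v := by
  rw [SchwartzMap.lineDerivOp_apply_eq_fderiv]

theorem dv_sq (f : 𝓢(ℂ, ℂ)) (z : ℂ) :
    dv 1 (fun w => w.re * ‖f w‖ ^ 2) z =
      ‖f z‖ ^ 2 + z.re * (2 * (starRingEnd ℂ (f z) * (∂_{(1 : ℂ)} f : 𝓢(ℂ, ℂ)) z).re) := by
  have hf : DifferentiableAt ℝ f z := f.differentiableAt
  have h1 : HasFDerivAt (fun w : ℂ => w.re) Complex.reCLM z := Complex.reCLM.hasFDerivAt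
  have h2 := hf.hasFDerivAt.norm_sq
  have h3 := (h1.mul h2).fderiv
  unfold dv
  rw [show (fun w : ℂ => w.re * ‖f w‖ ^ 2) = (fun w : ℂ => w.re) * fun w => ‖f w‖ ^ 2 from rfl, h3]
  simp only [add_apply, smul_apply, smul_eq_mul, ContinuousLinearMap.comp_apply,
    Complex.reCLM_apply, Complex.one_re, innerSL_apply_apply, lineDeriv_eq]
  rw [Complex.inner]
  simp only [nsmul_eq_mul]
  push_cast
  rw [mul_comm (fderiv ℝ (⇑f) z 1) (starRingEnd ℂ (f z))]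
  ring

end Poi_

/-- the Poincaré inequality -/
theorem poincare {R : ℝ} (hR : 0 ≤ R) {f : 𝓢(ℂ, ℂ)} (h0 : ∀ z, R < ‖z‖ → f z = 0) :
    ‖f.toLp 2‖ ≤ 2 * R * ‖(∂_{(1 : ℂ)} f : 𝓢(ℂ, ℂ)).toLp 2‖ := by
  obtain ⟨i1, n1⟩ := sq_norm_toLp f
  obtain ⟨i2, n2⟩ := sq_norm_toLp (∂_{(1 : ℂ)} f)
  have hK : IsCompact (Metric.closedBall (0 : ℂ) R) := isCompact_closedBall 0 R
  have hC : ContDiff ℝ 1 (fun w : ℂ => w.re * ‖f w‖ ^ 2) := by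
    have h1 : ContDiff ℝ 1 (fun w : ℂ => w.re) := Complex.reCLM.contDiff
    have h2 : ContDiff ℝ 1 (fun w : ℂ => f w) := f.smooth 1
    exact h1.mul (h2.norm_sq ℝ)
  have hz : ∀ z, z ∉ Metric.closedBall (0 : ℂ) R → z.re * ‖f z‖ ^ 2 = 0 := by
    intro z hz
    rw [h0 z (by simpa [Metric.mem_closedBall] using hz)]
    simp
  obtain ⟨i3, n3⟩ := integral_dv_zero isOpen_univ hK (subset_univ _) hC.contDiffOn hz 1
  have key : ∀ z, ‖f z‖ ^ 2 ≤ dv 1 (fun w => w.re * ‖f w‖ ^ 2) z +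
      (1 / 2 * ‖f z‖ ^ 2 + 2 * R ^ 2 * ‖(∂_{(1 : ℂ)} f : 𝓢(ℂ, ℂ)) z‖ ^ 2) := by
    intro z
    rw [dv_sq]
    set a : ℂ := f z with ha
    set b : ℂ := (∂_{(1 : ℂ)} f : 𝓢(ℂ, ℂ)) z with hb
    by_cases h : R < ‖z‖
    · have ha0 : a = 0 := h0 z h
      rw [ha0]
      simp
      positivity
    · push Not at h
      have h1 : |z.re| ≤ R := (Complex.abs_re_le_norm z).trans h
      have h2 : |(starRingEnd ℂ a * b).re| ≤ ‖a‖ * ‖b‖ := by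
        refine (Complex.abs_re_le_norm _).trans ?_
        rw [norm_mul, RCLike.norm_conj]
      have h3 : |z.re * (starRingEnd ℂ a * b).re| ≤ R * (‖a‖ * ‖b‖) := by
        rw [abs_mul]
        exact mul_le_mul h1 h2 (abs_nonneg _) hR
      have h4 := (abs_le.1 h3).1
      nlinarith [sq_nonneg (‖a‖ - 2 * R * ‖b‖)]
  have i4 : Integrable (fun x => 1 / 2 * ‖f x‖ ^ 2 +
      2 * R ^ 2 * ‖(∂_{(1 : ℂ)} f : 𝓢(ℂ, ℂ)) x‖ ^ 2) := (i1.const_mul _).add (i2.const_mul _)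
  have h5 : ∫ x, ‖f x‖ ^ 2 ≤ ∫ x, (dv 1 (fun w => w.re * ‖f w‖ ^ 2) x +
      (1 / 2 * ‖f x‖ ^ 2 + 2 * R ^ 2 * ‖(∂_{(1 : ℂ)} f : 𝓢(ℂ, ℂ)) x‖ ^ 2)) :=
    integral_mono i1 (i3.add i4) key
  rw [integral_add i3 i4, n3,
    integral_add (i1.const_mul _) (i2.const_mul _), integral_const_mul, integral_const_mul,
    n1, n2] at h5
  have h6 : ‖f.toLp 2‖ ^ 2 ≤ (2 * R * ‖(∂_{(1 : ℂ)} f : 𝓢(ℂ, ℂ)).toLp 2‖) ^ 2 := by
    nlinarith
  exact le_of_sq_le_sq h6 (by positivity)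

namespace Poi_

theorem dz_vanish {R : ℝ} {f : 𝓢(ℂ, ℂ)} (h0 : ∀ z, R < ‖z‖ → f z = 0) :
    (∀ z, R < ‖z‖ → (Pool.Agent.Lib.MP_dd244f_an.dz f) z = 0) ∧ ∀ z, R < ‖z‖ → (Pool.Agent.Lib.MP_dd244f_an.dbar f) z = 0 := by
  have h : ∀ v z : ℂ, R < ‖z‖ → (∂_{v} f : 𝓢(ℂ, ℂ)) z = 0 := by
    intro v z hz
    rw [lineDeriv_eq]
    have h1 : (f : ℂ → ℂ) =ᶠ[𝓝 z] fun _ => (0 : ℂ) := by
      filter_upwards [(isOpen_lt continuous_const continuous_norm).mem_nhds hz] with w hw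
        using h0 w hw
    rw [h1.fderiv_eq]
    simp
  constructor
  · intro z hz
    unfold Pool.Agent.Lib.MP_dd244f_an.dz
    simp [h _ z hz]
  · intro z hz
    unfold Pool.Agent.Lib.MP_dd244f_an.dbar
    simp [h _ z hz]

end Poi_

theorem Wz_vanish {R : ℝ} {f : 𝓢(ℂ, ℂ)} (h0 : ∀ z, R < ‖z‖ → f z = 0) (a b : ℕ) :
    ∀ z, R < ‖z‖ → (Wz a b f) z = 0 := by
  have h1 : ∀ n : ℕ, ∀ z, R < ‖z‖ → (Pool.Agent.Lib.MP_dd244f_an.dbar^[n] f) z = 0 := by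
    intro n
    induction n with
    | zero => exact h0
    | succ n ih => rw [Function.iterate_succ_apply']; exact (dz_vanish ih).2
  have h2 : ∀ n : ℕ, ∀ z, R < ‖z‖ → (Pool.Agent.Lib.MP_dd244f_an.dz^[n] (Pool.Agent.Lib.MP_dd244f_an.dbar^[b] f)) z = 0 := by
    intro n
    induction n with
    | zero => exact h1 b
    | succ n ih => rw [Function.iterate_succ_apply']; exact (dz_vanish ih).1
  exact h2 a

/-- one step -/
theorem Wz_step {R : ℝ} (hR : 0 ≤ R) {f : 𝓢(ℂ, ℂ)} (h0 : ∀ z, R < ‖z‖ → f z = 0) (a b : ℕ) :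
    ‖(Wz a b f).toLp 2‖ ≤ 4 * R * ‖(Wz (a + 1) b f).toLp 2‖ := by
  have h1 := poincare hR (Wz_vanish h0 a b)
  have h2 : (∂_{(1 : ℂ)} (Wz a b f) : 𝓢(ℂ, ℂ)).toLp 2 (volume : Measure ℂ) =
      (Wz (a + 1) b f).toLp 2 volume + (Pool.Agent.Lib.MP_dd244f_an.dbar (Wz a b f)).toLp 2 volume := by
    rw [← dz_add_dbar, Wz_succ_left]
    rfl
  have h3 : ‖(Pool.Agent.Lib.MP_dd244f_an.dbar (Wz a b f)).toLp 2 (volume : Measure ℂ)‖ = ‖(Wz (a + 1) b f).toLp 2‖ := by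
    rw [Wz_succ_left]
    exact Wz_norm (a := 0) (b := 1) (a' := 1) (b' := 0) rfl (Wz a b f)
  rw [h2] at h1
  have h4 := norm_add_le ((Wz (a + 1) b f).toLp 2 (volume : Measure ℂ)) ((Pool.Agent.Lib.MP_dd244f_an.dbar (Wz a b f)).toLp 2)
  rw [h3] at h4
  nlinarith [mul_le_mul_of_nonneg_left h4 hR]

/-- the derivatives of order `a + b ≤ 2 j` are bounded by `(∂ ∂bar)^j f` in `L²` -/
theorem Wz_bound {R : ℝ} (hR : 0 ≤ R) {f : 𝓢(ℂ, ℂ)} (h0 : ∀ z, R < ‖z‖ → f z = 0)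
    {a b j : ℕ} (h : a + b ≤ 2 * j) :
    ‖(Wz a b f).toLp 2‖ ≤ (4 * R) ^ (2 * j - (a + b)) * ‖(Wz j j f).toLp 2‖ := by
  have h1 : ∀ k : ℕ, ‖(Wz a b f).toLp 2‖ ≤ (4 * R) ^ k * ‖(Wz (a + k) b f).toLp 2‖ := by
    intro k
    induction k with
    | zero => simp
    | succ k ih =>
      refine ih.trans ?_
      rw [pow_succ, mul_assoc]
      exact mul_le_mul_of_nonneg_left (Wz_step hR h0 (a + k) b) (by positivity)
  have h2 := h1 (2 * j - (a + b))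
  rwa [Wz_norm (a := a + (2 * j - (a + b))) (b := b) (a' := j) (b' := j) (by omega)] at h2

/-! ### Schwartz functions and functions on the plane -/

theorem fourier_inj {f g : 𝓢(ℂ, ℂ)} (h : ∀ ξ, 𝓕 f ξ = 𝓕 g ξ) : f = g := by
  have h1 : 𝓕 f = 𝓕 g := by ext ξ; exact h ξ
  have h2 := congrArg (fun u : 𝓢(ℂ, ℂ) => 𝓕⁻ u) h1
  simpa using h2
theorem lineDeriv_fun (v : ℂ) (f : 𝓢(ℂ, ℂ)) : dv v (f : ℂ → ℂ) = (∂_{v} f : 𝓢(ℂ, ℂ)) := by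
  ext z
  rw [SchwartzMap.lineDerivOp_apply_eq_fderiv]
  rfl
theorem sz_fun (f : 𝓢(ℂ, ℂ)) : ((Pool.Agent.Lib.MP_dd244f_an.dz f : 𝓢(ℂ, ℂ)) : ℂ → ℂ) = dz f := by
  ext z
  unfold Pool.Agent.Lib.MP_dd244f_an.dz dz
  rw [show dx (f : ℂ → ℂ) = dv 1 f from rfl, show dy (f : ℂ → ℂ) = dv Complex.I f from rfl,
    lineDeriv_fun, lineDeriv_fun]
  simp only [smul_apply, add_apply, smul_eq_mul]
  ring
theorem szb_fun (f : 𝓢(ℂ, ℂ)) : ((Pool.Agent.Lib.MP_dd244f_an.dbar f : 𝓢(ℂ, ℂ)) : ℂ → ℂ) = dzb f := by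
  ext z
  unfold Pool.Agent.Lib.MP_dd244f_an.dbar dzb
  rw [show dx (f : ℂ → ℂ) = dv 1 f from rfl, show dy (f : ℂ → ℂ) = dv Complex.I f from rfl,
    lineDeriv_fun, lineDeriv_fun]
  simp only [smul_apply, add_apply, smul_eq_mul]
  ring
theorem szb_iter_fun (b : ℕ) (f : 𝓢(ℂ, ℂ)) : ((Pool.Agent.Lib.MP_dd244f_an.dbar^[b] f : 𝓢(ℂ, ℂ)) : ℂ → ℂ) = dzb^[b] f := by
  induction b with
  | zero => rfl
  | succ n ih => rw [Function.iterate_succ_apply', Function.iterate_succ_apply', szb_fun, ih]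
theorem sz_iter_fun (a : ℕ) (f : 𝓢(ℂ, ℂ)) : ((Pool.Agent.Lib.MP_dd244f_an.dz^[a] f : 𝓢(ℂ, ℂ)) : ℂ → ℂ) = dz^[a] f := by
  induction a with
  | zero => rfl
  | succ n ih => rw [Function.iterate_succ_apply', Function.iterate_succ_apply', sz_fun, ih]
theorem fourier_line (v : ℂ) (f : 𝓢(ℂ, ℂ)) (ξ : ℂ) :
    𝓕 (∂_{v} f : 𝓢(ℂ, ℂ)) ξ = (2 * Real.pi * Complex.I) * (inner ℝ ξ v : ℝ) * 𝓕 f ξ := by
  rw [fourier_lineDerivOp_eq]
  simp only [smul_apply, smulLeftCLM_apply_apply (Pool.Agent.Lib.MP_dd244f_an.tg _),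
    smul_eq_mul, Complex.real_smul]
  ring

theorem lap_fun (f : 𝓢(ℂ, ℂ)) : lap (f : ℂ → ℂ) = ((4 : ℂ) • Pool.Agent.Lib.MP_dd244f_an.dz (Pool.Agent.Lib.MP_dd244f_an.dbar f) : 𝓢(ℂ, ℂ)) := by
  have h : (∂_{(1 : ℂ)} (∂_{(1 : ℂ)} f) + ∂_{Complex.I} (∂_{Complex.I} f) : 𝓢(ℂ, ℂ)) = (4 : ℂ) • Pool.Agent.Lib.MP_dd244f_an.dz (Pool.Agent.Lib.MP_dd244f_an.dbar f) := by
    apply fourier_inj
    intro ξ
    rw [FourierTransform.fourier_add, FourierTransform.fourier_smul]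
    simp only [add_apply, smul_apply, smul_eq_mul]
    rw [fourier_line, fourier_line, fourier_line, fourier_line, fourier_dz, fourier_dbar]
    have h1 : inner ℝ ξ (1 : ℂ) = ξ.re := by rw [Complex.inner]; simp
    have h2 : inner ℝ ξ Complex.I = ξ.im := by rw [Complex.inner]; simp
    rw [h1, h2]
    have h3 : starRingEnd ℂ ξ * ξ = (ξ.re : ℂ) ^ 2 + (ξ.im : ℂ) ^ 2 := by
      apply Complex.ext
      · simp [pow_two]
      · simp [pow_two]; ring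
    have h4 : Complex.I ^ 2 = -1 := Complex.I_sq
    linear_combination (-4 * Real.pi ^ 2 * Complex.I ^ 2 * 𝓕 f ξ) * h3
  rw [← h]
  ext z
  unfold lap
  rw [show dx (f : ℂ → ℂ) = dv 1 f from rfl, show dy (f : ℂ → ℂ) = dv Complex.I f from rfl,
    lineDeriv_fun, lineDeriv_fun, dx_eq, dy_eq, lineDeriv_fun, lineDeriv_fun]
  rfl

theorem Wz_fun (a b : ℕ) (f : 𝓢(ℂ, ℂ)) : ((Wz a b f : 𝓢(ℂ, ℂ)) : ℂ → ℂ) = Dab a b f := by
  unfold Wz Dab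
  rw [sz_iter_fun, szb_iter_fun]

theorem szb_Wz (a b : ℕ) (f : 𝓢(ℂ, ℂ)) : Pool.Agent.Lib.MP_dd244f_an.dbar (Wz a b f) = Wz a (b + 1) f := by
  apply fourier_inj
  intro ξ
  rw [fourier_dbar, fourier_Wz, fourier_Wz]
  ring

theorem lap_iter_fun (j : ℕ) (f : 𝓢(ℂ, ℂ)) :
    lap^[j] (f : ℂ → ℂ) = ((4 : ℂ) ^ j • Wz j j f : 𝓢(ℂ, ℂ)) := by
  induction j with
  | zero => simp [Wz_zero]
  | succ n ih =>
    rw [Function.iterate_succ_apply', ih, lap_fun]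
    congr 1
    have h : Pool.Agent.Lib.MP_dd244f_an.dbar ((4 : ℂ) ^ n • Wz n n f) = (4 : ℂ) ^ n • Wz n (n + 1) f := by
      rw [Poi_.dbar_smul, szb_Wz]
    rw [h, Poi_.dz_smul, ← Wz_succ_left, smul_smul]
    congr 1
    ring

/-- bound of the derivatives of a test function by `Δ^j` -/
theorem norm_Wz_lap {R : ℝ} (hR : 0 ≤ R) {f : 𝓢(ℂ, ℂ)} (h0 : ∀ z, R < ‖z‖ → f z = 0)
    {a b j : ℕ} (h : a + b ≤ 2 * j) :
    ‖(Wz a b f).toLp 2‖ ≤ (4 * R) ^ (2 * j - (a + b)) * ‖(Wz j j f).toLp 2‖ :=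
  Wz_bound hR h0 h

theorem toLp_sub (f g : 𝓢(ℂ, ℂ)) :
    (f - g).toLp 2 (volume : Measure ℂ) = f.toLp 2 volume - g.toLp 2 volume := rfl

theorem toLp_smul (c : ℂ) (f : 𝓢(ℂ, ℂ)) :
    (c • f).toLp 2 (volume : Measure ℂ) = c • f.toLp 2 volume := rfl

/-- Cauchy sequences -/
theorem cauchy_Wz {R : ℝ} (hR : 0 ≤ R) {s : ℕ → 𝓢(ℂ, ℂ)} (h0 : ∀ k z, R < ‖z‖ → s k z = 0)
    {j : ℕ} (hc : CauchySeq fun k => (Wz j j (s k)).toLp 2 (volume : Measure ℂ))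
    {a b : ℕ} (h : a + b ≤ 2 * j) :
    CauchySeq fun k => (Wz a b (s k)).toLp 2 (volume : Measure ℂ) := by
  rw [Metric.cauchySeq_iff] at hc ⊢
  intro ε hε
  set C : ℝ := (4 * R) ^ (2 * j - (a + b)) with hC
  have hC0 : 0 ≤ C := by positivity
  obtain ⟨N, hN⟩ := hc (ε / (C + 1)) (by positivity)
  refine ⟨N, fun m hm n hn => ?_⟩
  have h1 := hN m hm n hn
  rw [dist_eq_norm] at h1 ⊢
  rw [← toLp_sub, ← Wz_sub] at h1 ⊢
  have h2 := Wz_bound hR (f := s m - s n) (j := j) (a := a) (b := b) (by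
    intro z hz
    rw [sub_apply, h0 m z hz, h0 n z hz, sub_zero]) h
  have h3 : C * ‖(Wz j j (s m - s n)).toLp 2 (volume : Measure ℂ)‖ ≤ C * (ε / (C + 1)) :=
    mul_le_mul_of_nonneg_left h1.le hC0
  have h4 : C * (ε / (C + 1)) < ε := by
    rw [mul_div_assoc', div_lt_iff₀ (by positivity)]
    nlinarith
  exact (h2.trans h3).trans_lt h4

end Pool.Agent.Lib.QNL.Poi79
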