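import Pool.Agent.Lib.QNL.Stmts
import Pool.Agent.Lib.QNL.Calc
import Pool.Agent.Lib.QNL.Hil
import Pool.Agent.Lib.QNL.Poi79

/-!
QNL, group H: the jet of `b_j` (`StmtWeyl → StmtHjet`), and the bridge between the two
definitions of the spaces `K j D`.
-/

set_option autoImplicit false

namespace Pool.Agent.Lib.QNL.Jet79

open MeasureTheory Filter Topology Set FourierTransform SchwartzMap
open scoped SchwartzMap ENNReal ContDiff ComplexInnerProductSpace
open Pool.Agent.Lib.QNL.Calc Pool.Agent.Lib.QNL.Poi79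

/-! ### Test functions -/

/-- the Schwartz function of a test function -/
noncomputable def ts {D : Set ℂ} {φ : ℂ → ℂ} (h : Test D φ) : 𝓢(ℂ, ℂ) := h.2.1.toSchwartzMap h.1

@[simp] theorem ts_coe {D : Set ℂ} {φ : ℂ → ℂ} (h : Test D φ) : (ts h : ℂ → ℂ) = φ := rfl

theorem ts_mem {D : Set ℂ} {φ : ℂ → ℂ} (h : Test D φ) : ts h ∈ Hil.CcS D := ⟨h.2.1, h.2.2⟩

theorem test_of_mem {D : Set ℂ} {s : 𝓢(ℂ, ℂ)} (h : s ∈ Hil.CcS D) : Test D (s : ℂ → ℂ) :=
  ⟨s.smooth ⊤, h.1, h.2⟩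

theorem DD_eq (j : ℕ) (s : 𝓢(ℂ, ℂ)) : Hil.DD j j s = (4 : ℂ) ^ j • Wz j j s := by
  rw [Hil.DD_apply, Wz]
  congr 1
  rw [← two_mul, pow_mul]
  norm_num

theorem DD_eq' (a b : ℕ) (s : 𝓢(ℂ, ℂ)) : Hil.DD a b s = (2 : ℂ) ^ (a + b) • Wz a b s := by
  rw [Hil.DD_apply, Wz]

/-- the two definitions agree -/
theorem K_eq (j : ℕ) (D : Set ℂ) : K j D = Hil.K j D := by
  have h : Submodule.span ℂ {f : H | ∃ φ : ℂ → ℂ, Test D φ ∧
      (f : ℂ → ℂ) =ᵐ[volume] Dab j j φ} = (Hil.CcS D).map (Hil.Lj j) := by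
    apply le_antisymm
    · rw [Submodule.span_le]
      rintro f ⟨φ, hφ, hf⟩
      have e : f = Hil.Lj j (((4 : ℂ) ^ j)⁻¹ • ts hφ) := by
        rw [map_smul, Hil.Lj_apply, DD_eq]
        have : ((4 : ℂ) ^ j • Wz j j (ts hφ)).toLp 2 (volume : Measure ℂ) =
            (4 : ℂ) ^ j • (Wz j j (ts hφ)).toLp 2 volume := rfl
        rw [this, smul_smul, inv_mul_cancel₀ (pow_ne_zero _ (by norm_num)), one_smul]
        apply Lp.ext
        filter_upwards [hf, SchwartzMap.coeFn_toLp (Wz j j (ts hφ)) 2 volume] with z h1 h2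
        rw [h1, h2, Wz_fun, ts_coe]
      rw [e]
      exact Submodule.mem_map_of_mem (Submodule.smul_mem _ _ (ts_mem hφ))
    · rintro _ ⟨s, hs, rfl⟩
      rw [Hil.Lj_apply, DD_eq]
      have : ((4 : ℂ) ^ j • Wz j j s).toLp 2 (volume : Measure ℂ) =
          (4 : ℂ) ^ j • (Wz j j s).toLp 2 volume := rfl
      rw [this]
      refine Submodule.smul_mem _ _ (Submodule.subset_span ⟨s, test_of_mem hs, ?_⟩)
      filter_upwards [SchwartzMap.coeFn_toLp (Wz j j s) 2 volume] with z h2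
      rw [h2, Wz_fun]
  rw [K, Hil.K, h]

theorem TT_eq (k : ℤ) (f : H) : TT k f = TH k f := rfl

/-! ### Integration by parts with test functions -/

theorem Wz_mem {D : Set ℂ} {s : 𝓢(ℂ, ℂ)} (h : s ∈ Hil.CcS D) (a b : ℕ) :
    Wz a b s ∈ Hil.CcS D := by
  have h1 := Hil.DD_mem h a b
  have h2 : Wz a b s = ((2 : ℂ) ^ (a + b))⁻¹ • Hil.DD a b s := by
    rw [DD_eq', smul_smul, inv_mul_cancel₀ (pow_ne_zero _ (by norm_num)), one_smul]
  rw [h2]
  exact Submodule.smul_mem _ _ h1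

theorem test_dab {D : Set ℂ} {φ : ℂ → ℂ} (h : Test D φ) (a b : ℕ) : Test D (Dab a b φ) := by
  have h1 := test_of_mem (Wz_mem (ts_mem h) a b)
  rwa [Wz_fun, ts_coe] at h1

theorem test_dz {D : Set ℂ} {φ : ℂ → ℂ} (h : Test D φ) : Test D (dz φ) := test_dab h 1 0

theorem test_dzb {D : Set ℂ} {φ : ℂ → ℂ} (h : Test D φ) : Test D (dzb φ) := test_dab h 0 1

theorem test_conj {D : Set ℂ} {φ : ℂ → ℂ} (h : Test D φ) :
    Test D (fun z => starRingEnd ℂ (φ z)) := by
  have hs : tsupport (fun z => starRingEnd ℂ (φ z)) ⊆ tsupport φ := by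
    refine closure_mono fun x hx => ?_
    rw [Function.mem_support] at hx ⊢
    intro h0
    exact hx (by rw [h0, map_zero])
  refine ⟨Complex.conjCLE.contDiff.comp h.1, ?_, hs.trans h.2.2⟩
  exact IsCompact.of_isClosed_subset h.2.1 (isClosed_tsupport _) hs

variable {D : Set ℂ} {f φ : ℂ → ℂ}

theorem int_mul (hD : IsOpen D) (hf : Sm D f) (hφ : Test D φ) :
    Integrable (fun z => f z * φ z) volume :=
  integrable_mul_of hD hf.continuousOn hφ.1.continuous hφ.2.1 hφ.2.2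

theorem test_dv (hφ : Test D φ) (v : ℂ) : Test D (dv v φ) :=
  ⟨sm_univ.1 ((sm_univ.2 hφ.1).dv isOpen_univ v), HasCompactSupport.dv hφ.2.1 v,
    (support_dd_subset φ v).trans hφ.2.2⟩

theorem parts_dv (hD : IsOpen D) (hf : Sm D f) (hφ : Test D φ) (v : ℂ) :
    ∫ z, f z * dv v φ z = - ∫ z, dv v f z * φ z :=
  parts hD (ContDiffOn.of_le hf (by simp)) (hφ.1.of_le (by simp)) hφ.2.1 hφ.2.2 v

theorem parts_dz (hD : IsOpen D) (hf : Sm D f) (hφ : Test D φ) :
    ∫ z, f z * dz φ z = - ∫ z, dz f z * φ z := by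
  have e1 : ∀ z, f z * dz φ z =
      (1 / 2 : ℂ) * (f z * dv 1 φ z) + (-Complex.I / 2) * (f z * dv Complex.I φ z) := fun z => by
    rw [dz_def]; ring
  have e2 : ∀ z, dz f z * φ z =
      (1 / 2 : ℂ) * (dv 1 f z * φ z) + (-Complex.I / 2) * (dv Complex.I f z * φ z) := fun z => by
    rw [dz_def]; ring
  simp only [e1, e2]
  rw [integral_add ((int_mul hD hf (test_dv hφ 1)).const_mul _)
      ((int_mul hD hf (test_dv hφ Complex.I)).const_mul _),
    integral_add ((int_mul hD (hf.dv hD 1) hφ).const_mul _)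
      ((int_mul hD (hf.dv hD Complex.I) hφ).const_mul _),
    integral_const_mul, integral_const_mul, integral_const_mul, integral_const_mul,
    parts_dv hD hf hφ, parts_dv hD hf hφ]
  ring

theorem parts_dzb (hD : IsOpen D) (hf : Sm D f) (hφ : Test D φ) :
    ∫ z, f z * dzb φ z = - ∫ z, dzb f z * φ z := by
  have e1 : ∀ z, f z * dzb φ z =
      (1 / 2 : ℂ) * (f z * dv 1 φ z) + (Complex.I / 2) * (f z * dv Complex.I φ z) := fun z => by
    rw [dzb_def]; ring
  have e2 : ∀ z, dzb f z * φ z =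
      (1 / 2 : ℂ) * (dv 1 f z * φ z) + (Complex.I / 2) * (dv Complex.I f z * φ z) := fun z => by
    rw [dzb_def]; ring
  simp only [e1, e2]
  rw [integral_add ((int_mul hD hf (test_dv hφ 1)).const_mul _)
      ((int_mul hD hf (test_dv hφ Complex.I)).const_mul _),
    integral_add ((int_mul hD (hf.dv hD 1) hφ).const_mul _)
      ((int_mul hD (hf.dv hD Complex.I) hφ).const_mul _),
    integral_const_mul, integral_const_mul, integral_const_mul, integral_const_mul,
    parts_dv hD hf hφ, parts_dv hD hf hφ]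
  ring

theorem test_dz_iter (h : Test D φ) (a : ℕ) : Test D (dz^[a] φ) := test_dab h a 0

theorem test_dzb_iter (h : Test D φ) (b : ℕ) : Test D (dzb^[b] φ) := test_dab h 0 b

theorem parts_dz_iter (hD : IsOpen D) (a : ℕ) : ∀ {f φ : ℂ → ℂ}, Sm D f → Test D φ →
    ∫ z, f z * (dz^[a] φ) z = (-1) ^ a * ∫ z, (dz^[a] f) z * φ z := by
  induction a with
  | zero => intro f φ _ _; simp
  | succ a ih =>
    intro f φ hf hφ
    rw [Function.iterate_succ_apply', parts_dz hD hf (test_dz_iter hφ a), ih (hf.dz hD) hφ,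
      ← Function.iterate_succ_apply]
    ring

theorem parts_dzb_iter (hD : IsOpen D) (b : ℕ) : ∀ {f φ : ℂ → ℂ}, Sm D f → Test D φ →
    ∫ z, f z * (dzb^[b] φ) z = (-1) ^ b * ∫ z, (dzb^[b] f) z * φ z := by
  induction b with
  | zero => intro f φ _ _; simp
  | succ b ih =>
    intro f φ hf hφ
    rw [Function.iterate_succ_apply', parts_dzb hD hf (test_dzb_iter hφ b), ih (hf.dzb hD) hφ,
      ← Function.iterate_succ_apply]
    ring

theorem iter_comm (hD : IsOpen D) (hf : Sm D f) (a b : ℕ) :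
    EqOn (dzb^[b] (dz^[a] f)) (Dab a b f) D := by
  induction b with
  | zero => exact fun z _ => rfl
  | succ b ih =>
    intro z hz
    rw [Function.iterate_succ_apply', dzb_congr hD ih hz, dzb_dab hf hD a b hz]

/-- integration by parts -/
theorem parts_dab (hD : IsOpen D) (hf : Sm D f) (hφ : Test D φ) (a b : ℕ) :
    ∫ z, f z * Dab a b φ z = (-1) ^ (a + b) * ∫ z, Dab a b f z * φ z := by
  unfold Dab
  rw [parts_dz_iter hD a hf (test_dzb_iter hφ b), parts_dzb_iter hD b (hf.dz_iter hD a) hφ,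
    ← mul_assoc, ← pow_add]
  congr 1
  refine integral_congr_ae (ae_of_all _ fun z => ?_)
  by_cases hz : z ∈ D
  · have := iter_comm hD hf a b hz
    unfold Dab at this
    simp only [this]
  · have h0 : φ z = 0 := by
      by_contra h0
      exact hz (hφ.2.2 (subset_tsupport _ h0))
    simp [h0]

/-! ### Limits -/

/-- the pairing with an `L²` function is continuous -/
theorem tendsto_pair {x : ℕ → H} {F : H} (h : Tendsto x atTop (𝓝 F)) {ψ : ℂ → ℂ}
    (hψ : MemLp ψ 2 volume) :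
    Tendsto (fun k => ∫ z, (x k : ℂ → ℂ) z * ψ z) atTop (𝓝 (∫ z, (F : ℂ → ℂ) z * ψ z)) := by
  have hc : MemLp (fun z => starRingEnd ℂ (ψ z)) 2 volume := hψ.star
  have e : ∀ f : H, ⟪hc.toLp _, f⟫ = ∫ z, (f : ℂ → ℂ) z * ψ z := by
    intro f
    rw [L2.inner_def]
    apply integral_congr_ae
    filter_upwards [hc.coeFn_toLp] with z hz
    rw [hz, RCLike.inner_apply]
    simp
  simp only [← e]
  exact tendsto_const_nhds.inner h

theorem Wz_Wz (a b c d : ℕ) (s : 𝓢(ℂ, ℂ)) : Wz a b (Wz c d s) = Wz (a + c) (b + d) s := by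
  apply fourier_inj
  intro ξ
  rw [fourier_Wz, fourier_Wz, fourier_Wz]
  ring

theorem dab_dab (hφ : Test D φ) (a b c d : ℕ) :
    Dab a b (Dab c d φ) = Dab (a + c) (b + d) φ := by
  have h1 := Wz_Wz a b c d (ts hφ)
  have h2 : (Wz a b (Wz c d (ts hφ)) : ℂ → ℂ) = Dab a b (Dab c d φ) := by
    rw [Wz_fun, Wz_fun, ts_coe]
  have h3 : (Wz (a + c) (b + d) (ts hφ) : ℂ → ℂ) = Dab (a + c) (b + d) φ := by
    rw [Wz_fun, ts_coe]
  rw [← h2, h1, h3]

theorem test_memLp (hφ : Test D φ) : MemLp φ 2 volume := by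
  have := (ts hφ).memLp 2 (volume : Measure ℂ)
  rwa [ts_coe] at this

theorem test_zero (hφ : Test D φ) {z : ℂ} (hz : z ∉ D) : φ z = 0 := by
  by_contra h0
  exact hz (hφ.2.2 (subset_tsupport _ h0))

/-- The jet of an element of `K j D` orthogonal to `K (j+1) D`. -/
theorem jet_of_mem (hW : StmtWeyl) (hD : IsOpen D) (hbd : Bornology.IsBounded D) {j : ℕ} {b : H}
    (hb1 : b ∈ Hil.K j D)
    (hb2 : ∀ φ, Test D φ → ∫ z, (b : ℂ → ℂ) z * Dab (j + 1) (j + 1) φ z = 0) :
    ∃ Y : ℕ → ℕ → ℂ → ℂ, Jet D j Y ∧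
      (∀ᵐ z, z ∈ D → (b : ℂ → ℂ) z = 4 ^ j * Y j j z) ∧
      ∀ a c : ℕ, a + c = 2 * j →
        ∀ᵐ z, z ∈ D → (TT ((a : ℤ) - j) b : ℂ → ℂ) z = 4 ^ j * Y a c z := by
  have h1 : b ∈ closure (((Hil.CcS D).map (Hil.Lj j) : Submodule ℂ H) : Set H) := hb1
  obtain ⟨x, hx, hxb⟩ := mem_closure_iff_seq_limit.1 h1
  have h2 : ∀ n, ∃ s : 𝓢(ℂ, ℂ), s ∈ Hil.CcS D ∧ Hil.Lj j s = x n := by
    intro n
    obtain ⟨s, hs, e⟩ := hx n
    exact ⟨s, hs, e⟩
  choose s hs hsx using h2
  have hc0 : ((4 : ℂ) ^ j) ≠ 0 := pow_ne_zero _ (by norm_num)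
  have hWs : ∀ n, (Wz j j (s n)).toLp 2 (volume : Measure ℂ) = ((4 : ℂ) ^ j)⁻¹ • x n := by
    intro n
    rw [← hsx n, Hil.Lj_apply, DD_eq]
    have : ((4 : ℂ) ^ j • Wz j j (s n)).toLp 2 (volume : Measure ℂ) =
        (4 : ℂ) ^ j • (Wz j j (s n)).toLp 2 volume := rfl
    rw [this, smul_smul, inv_mul_cancel₀ hc0, one_smul]
  have hlimj : Tendsto (fun n => (Wz j j (s n)).toLp 2 (volume : Measure ℂ)) atTop
      (𝓝 (((4 : ℂ) ^ j)⁻¹ • b)) := by
    simp only [hWs]
    exact hxb.const_smul _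
  -- the support
  obtain ⟨R0, hR0⟩ := hbd.subset_closedBall (0 : ℂ)
  set R : ℝ := max R0 0 with hR
  have hRn : 0 ≤ R := le_max_right _ _
  have hvan : ∀ n z, R < ‖z‖ → s n z = 0 := by
    intro n z hz
    by_contra h0
    have h3 := hR0 ((hs n).2 (subset_tsupport _ h0))
    rw [mem_closedBall_zero_iff] at h3
    exact absurd (h3.trans (le_max_left _ _)) (not_le.2 hz)
  -- the limits
  have hF : ∀ a c : ℕ, ∃ F : H, a + c ≤ 2 * j →
      Tendsto (fun n => (Wz a c (s n)).toLp 2 (volume : Measure ℂ)) atTop (𝓝 F) := by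
    intro a c
    by_cases h : a + c ≤ 2 * j
    · obtain ⟨F, hF⟩ := cauchySeq_tendsto_of_complete (cauchy_Wz hRn hvan hlimj.cauchySeq h)
      exact ⟨F, fun _ => hF⟩
    · exact ⟨0, fun h' => absurd h' h⟩
  choose F hF using hF
  have hFj : F j j = ((4 : ℂ) ^ j)⁻¹ • b :=
    tendsto_nhds_unique (hF j j (by omega)) hlimj
  -- the integrals
  have hint : ∀ (u : 𝓢(ℂ, ℂ)) (ψ : ℂ → ℂ),
      ∫ z, (u.toLp 2 (volume : Measure ℂ) : ℂ → ℂ) z * ψ z = ∫ z, u z * ψ z := by
    intro u ψ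
    apply integral_congr_ae
    filter_upwards [SchwartzMap.coeFn_toLp u 2 volume] with z hz
    rw [hz]
  have hsm : ∀ n, Sm D (s n : ℂ → ℂ) := fun n => ((s n).smooth ⊤).contDiffOn
  -- the pairing of `F a c` with a test function
  have hpair : ∀ a c : ℕ, a + c ≤ 2 * j → ∀ φ, Test D φ →
      ∫ z, (F a c : ℂ → ℂ) z * φ z = (-1) ^ (a + c) * ∫ z, (F 0 0 : ℂ → ℂ) z * Dab a c φ z := by
    intro a c hac φ hφ
    have t1 := tendsto_pair (hF a c hac) (test_memLp hφ)
    have t2 := (tendsto_pair (hF 0 0 (by omega)) (test_memLp (test_dab hφ a c))).const_mul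
      ((-1 : ℂ) ^ (a + c))
    refine tendsto_nhds_unique t1 (t2.congr fun n => ?_)
    rw [hint, hint, Wz_zero, parts_dab hD (hsm n) hφ a c, ← mul_assoc, ← pow_add, ← two_mul,
      pow_mul, neg_one_sq, one_pow, one_mul, Wz_fun]
  -- the weak equation
  have hweak : ∀ φ : ℂ → ℂ, Test D φ →
      ∫ z in D, (F 0 0 : ℂ → ℂ) z * Dab (2 * j + 1) (2 * j + 1) φ z = 0 := by
    intro φ hφ
    rw [setIntegral_eq_integral_of_forall_compl_eq_zero]
    · have e := dab_dab hφ j j (j + 1) (j + 1)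
      have e2 : j + (j + 1) = 2 * j + 1 := by ring
      rw [e2] at e
      have h3 := hpair j j (by omega) _ (test_dab hφ (j + 1) (j + 1))
      rw [e, ← two_mul, pow_mul, neg_one_sq, one_pow, one_mul] at h3
      rw [← h3, hFj]
      have h4 : ∫ z, (((((4 : ℂ) ^ j)⁻¹ • b : H)) : ℂ → ℂ) z * Dab (j + 1) (j + 1) φ z =
          ((4 : ℂ) ^ j)⁻¹ * ∫ z, (b : ℂ → ℂ) z * Dab (j + 1) (j + 1) φ z := by
        rw [← integral_const_mul]
        apply integral_congr_ae
        filter_upwards [Lp.coeFn_smul (((4 : ℂ) ^ j)⁻¹) b] with z hz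
        rw [hz, Pi.smul_apply, smul_eq_mul, mul_assoc]
      rw [h4, hb2 φ hφ, mul_zero]
    · intro z hz
      rw [test_zero (test_dab hφ _ _) hz, mul_zero]
  obtain ⟨Y0, hY1, hY2, hY3⟩ := hW (2 * j + 1) D (F 0 0 : ℂ → ℂ) hD
    ((Lp.memLp (F 0 0)).restrict D) hweak
  have hY1' : Sm D Y0 := hY1
  -- the limits are the derivatives of `Y0`
  have hder : ∀ a c : ℕ, a + c ≤ 2 * j → ∀ᵐ z, z ∈ D → (F a c : ℂ → ℂ) z = Dab a c Y0 z := by
    intro a c hac
    have hli : LocallyIntegrableOn (fun z => (F a c : ℂ → ℂ) z - Dab a c Y0 z) D volume := by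
      refine LocallyIntegrableOn.sub ?_ ?_
      · exact ((Lp.memLp (F a c)).locallyIntegrable (by norm_num)).locallyIntegrableOn D
      · exact (hY1'.dab hD a c).continuousOn.locallyIntegrableOn hD.measurableSet
    have h3 := hD.ae_eq_zero_of_integral_contDiff_smul_eq_zero hli (by
      intro g hg1 hg2 hg3
      have hφ : Test D (fun z => (g z : ℂ)) := by
        refine ⟨Complex.ofRealCLM.contDiff.comp hg1, ?_, ?_⟩
        · exact hg2.comp_left (g := fun r : ℝ => (r : ℂ)) (by simp)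
        · refine (closure_mono fun x hx => ?_).trans hg3
          rw [Function.mem_support] at hx ⊢
          intro h0
          exact hx (by rw [h0, Complex.ofReal_zero])
      have i1 : Integrable (fun z => (F a c : ℂ → ℂ) z * (g z : ℂ)) volume :=
        (Lp.memLp (F a c)).integrable_mul (test_memLp hφ)
      have i2 : Integrable (fun z => Dab a c Y0 z * (g z : ℂ)) volume :=
        int_mul hD (hY1'.dab hD a c) hφ
      have e1 : ∀ z, g z • ((F a c : ℂ → ℂ) z - Dab a c Y0 z) =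
          (F a c : ℂ → ℂ) z * (g z : ℂ) - Dab a c Y0 z * (g z : ℂ) := fun z => by
        rw [Complex.real_smul]; ring
      simp only [e1]
      rw [integral_sub i1 i2, hpair a c hac _ hφ]
      have e2 : ∫ z, (F 0 0 : ℂ → ℂ) z * Dab a c (fun z => (g z : ℂ)) z =
          ∫ z, Y0 z * Dab a c (fun z => (g z : ℂ)) z := by
        apply integral_congr_ae
        filter_upwards [hY2] with z hz
        by_cases hzD : z ∈ D
        · rw [hz hzD]
        · rw [test_zero (test_dab hφ _ _) hzD, mul_zero, mul_zero]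
      rw [e2, parts_dab hD hY1' hφ a c, ← mul_assoc, ← pow_add, ← two_mul, pow_mul, neg_one_sq,
        one_pow, one_mul, sub_self])
    filter_upwards [h3] with z hz hzD
    exact sub_eq_zero.1 (hz hzD)
  refine ⟨fun a c => Dab a c Y0, ⟨fun a c => hY1'.dab hD a c, fun a c z _ => by rw [dz_dab],
    fun a c z hz => dzb_dab hY1' hD a c hz, hY3, fun n => (s n : ℂ → ℂ),
    fun n => test_of_mem (hs n), ?_⟩, ?_, ?_⟩
  · intro a c hac
    have h3 := hF a c hac
    rw [Lp.tendsto_Lp_iff_tendsto_eLpNorm'] at h3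
    refine tendsto_of_tendsto_of_tendsto_of_le_of_le tendsto_const_nhds h3 (fun _ => zero_le)
      fun n => ?_
    have e1 : eLpNorm (fun z => Dab a c (s n : ℂ → ℂ) z - Dab a c Y0 z) 2 (volume.restrict D) =
        eLpNorm (((Wz a c (s n)).toLp 2 (volume : Measure ℂ) : ℂ → ℂ) - (F a c : ℂ → ℂ)) 2
          (volume.restrict D) := by
      apply eLpNorm_congr_ae
      rw [Filter.EventuallyEq, ae_restrict_iff' hD.measurableSet]
      filter_upwards [hder a c hac, SchwartzMap.coeFn_toLp (Wz a c (s n)) 2 volume] with z h4 h5 h6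
      rw [Pi.sub_apply, h5, h4 h6, Wz_fun]
    rw [e1]
    exact eLpNorm_mono_measure _ Measure.restrict_le_self
  · filter_upwards [hder j j (by omega), Lp.coeFn_smul (((4 : ℂ) ^ j)⁻¹) b] with z h3 h4 h5
    have h6 := h3 h5
    rw [hFj, h4, Pi.smul_apply, smul_eq_mul] at h6
    rw [← h6, ← mul_assoc, mul_inv_cancel₀ hc0, one_mul]
  · intro a c hac
    have h3 : TT ((a : ℤ) - j) b = (4 : ℂ) ^ j • F a c := by
      have t1 : Tendsto (fun n => TH ((a : ℤ) - j) (x n)) atTop (𝓝 (TH ((a : ℤ) - j) b)) :=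
        ((Hil.TH_continuous _).tendsto b).comp hxb
      have t2 := (hF a c hac.le).const_smul ((4 : ℂ) ^ j)
      refine tendsto_nhds_unique t1 (t2.congr fun n => ?_)
      rw [← hsx n, Hil.Lj_apply, Hil.TH_DD _ j j a c (by omega) (by omega), DD_eq', hac, pow_mul]
      have : ((2 : ℂ) ^ 2) ^ j = 4 ^ j := by norm_num
      rw [this]
      rfl
    filter_upwards [hder a c hac.le, Lp.coeFn_smul ((4 : ℂ) ^ j) (F a c)] with z h4 h5 h6
    rw [h3, h5, Pi.smul_apply, smul_eq_mul, h4 h6]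

theorem dzb_iter_conj (hφ : Test D φ) (b : ℕ) :
    dzb^[b] (fun z => starRingEnd ℂ (φ z)) = fun z => starRingEnd ℂ ((dz^[b] φ) z) := by
  induction b with
  | zero => rfl
  | succ b ih =>
    rw [Function.iterate_succ_apply', ih, Function.iterate_succ_apply']
    ext z
    exact dzb_conj ((test_dz_iter hφ b).1.differentiable (by simp) z)

theorem dz_iter_conj (hφ : Test D φ) (a : ℕ) :
    dz^[a] (fun z => starRingEnd ℂ (φ z)) = fun z => starRingEnd ℂ ((dzb^[a] φ) z) := by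
  induction a with
  | zero => rfl
  | succ a ih =>
    rw [Function.iterate_succ_apply', ih, Function.iterate_succ_apply']
    ext z
    exact dz_conj ((test_dzb_iter hφ a).1.differentiable (by simp) z)

theorem dab_conj (hφ : Test D φ) (a b : ℕ) :
    Dab a b (fun z => starRingEnd ℂ (φ z)) = fun z => starRingEnd ℂ (Dab b a φ z) := by
  have h1 : Dab a b (fun z => starRingEnd ℂ (φ z)) =
      dz^[a] (fun z => starRingEnd ℂ ((dz^[b] φ) z)) := by
    unfold Dab
    rw [dzb_iter_conj hφ]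
  rw [h1, dz_iter_conj (test_dz_iter hφ b)]
  ext z
  have := iter_comm isOpen_univ (sm_univ.2 hφ.1) b a (mem_univ z)
  rw [this]

/-- an element orthogonal to `K m D` -/
theorem int_of_orth {m : ℕ} {b : H} (h : ∀ g ∈ K m D, ⟪b, g⟫ = 0) (hφ : Test D φ) :
    ∫ z, (b : ℂ → ℂ) z * Dab m m φ z = 0 := by
  have hφ' := test_conj hφ
  have hg : (Wz m m (ts hφ')).toLp 2 (volume : Measure ℂ) ∈ K m D := by
    refine Submodule.le_topologicalClosure _ (Submodule.subset_span ⟨_, hφ', ?_⟩)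
    filter_upwards [SchwartzMap.coeFn_toLp (Wz m m (ts hφ')) 2 volume] with z h2
    rw [h2, Wz_fun, ts_coe]
  have h0 := h _ hg
  rw [← inner_conj_symm, map_eq_zero, L2.inner_def] at h0
  rw [← h0]
  apply integral_congr_ae
  filter_upwards [SchwartzMap.coeFn_toLp (Wz m m (ts hφ')) 2 volume] with z h2
  rw [h2, Wz_fun, ts_coe, dab_conj hφ, RCLike.inner_apply]
  simp

/-- **(H7)** -/
theorem hjet (hW : StmtWeyl) : StmtHjet := by
  intro j D X hD hbd
  have hKK : K (j + 1) D ≤ K j D := by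
    rw [K_eq, K_eq]
    exact Hil.K_succ_le j D
  have hmem : bb j D X ∈ Hil.K j D := by
    rw [← K_eq]
    exact Submodule.sub_mem _ ((K j D).starProjection_apply_mem X)
      (hKK ((K (j + 1) D).starProjection_apply_mem X))
  refine ⟨?_, ?_⟩
  · exact (Hil.mem_V0 hD.measurableSet _).1 (Hil.K_le_V0 hD.measurableSet j hmem)
  · refine jet_of_mem hW hD hbd hmem fun φ hφ => int_of_orth (fun g hg => ?_) hφ
    have h1 : ⟪X - P (j + 1) D X, g⟫ = 0 := (K (j + 1) D).starProjection_inner_eq_zero X g hg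
    have h2 : ⟪X - P j D X, g⟫ = 0 := (K j D).starProjection_inner_eq_zero X g (hKK hg)
    have h3 : bb j D X = (X - P (j + 1) D X) - (X - P j D X) := by
      rw [bb]; abel
    rw [h3, inner_sub_left, h1, h2, sub_zero]

end Pool.Agent.Lib.QNL.Jet79
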