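import Mathlib

/-!
# Almost every level: slopes of monotone functions and the layer hypothesis
-/

open MeasureTheory Filter Topology Set

namespace Pool.Agent.Lib.QNL.MonDiff

/-- A monotone function on `(0, ∞)` is differentiable at almost every point. -/
theorem ae_differentiableAt {F : ℝ → ℝ} (hF : MonotoneOn F (Ioi 0)) :
    ∀ᵐ L : ℝ, 0 < L → DifferentiableAt ℝ F L := by
  filter_upwards [hF.ae_differentiableWithinAt_of_mem] with L h hL
  exact (h hL).differentiableAt (Ioi_mem_nhds hL)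

/-- Upper slopes of a function that is differentiable at `L`. -/
theorem slope_le {F : ℝ → ℝ} {L : ℝ} (hd : DifferentiableAt ℝ F L) :
    ∃ C, 0 < C ∧ ∃ h₀, 0 < h₀ ∧ ∀ h, 0 ≤ h → h < h₀ → F (L + h) - F L ≤ C * h := by
  have h1 := hd.hasDerivAt
  rw [hasDerivAt_iff_isLittleO_nhds_zero] at h1
  have h2 := h1.def (zero_lt_one)
  rw [Metric.eventually_nhds_iff] at h2
  obtain ⟨h₀, hh₀, h2⟩ := h2
  refine ⟨|deriv F L| + 1, by positivity, h₀, hh₀, fun h hh hlt => ?_⟩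
  have h3 := h2 (y := h) (by rw [Real.dist_eq, sub_zero, abs_of_nonneg hh]; exact hlt)
  rw [Real.norm_eq_abs, Real.norm_eq_abs, one_mul, abs_of_nonneg hh, smul_eq_mul] at h3
  have h4 := (abs_le.1 h3).2
  have h5 : h * deriv F L ≤ h * |deriv F L| := mul_le_mul_of_nonneg_left (le_abs_self _) hh
  nlinarith

/-- Almost every level: the slopes of finitely many monotone functions are bounded. -/
theorem ae_slope_le {ι : Type*} [Finite ι] {F : ι → ℝ → ℝ}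
    (hF : ∀ i, MonotoneOn (F i) (Ioi 0)) :
    ∀ᵐ L : ℝ, 0 < L → ∃ C, 0 < C ∧ ∃ h₀, 0 < h₀ ∧ ∀ i, ∀ h, 0 ≤ h → h < h₀ →
      F i (L + h) - F i L ≤ C * h := by
  have := Fintype.ofFinite ι
  have h1 : ∀ᵐ L : ℝ, ∀ i, 0 < L → DifferentiableAt ℝ (F i) L :=
    ae_all_iff.2 fun i => ae_differentiableAt (hF i)
  filter_upwards [h1] with L h1 hL
  choose C hC h₀ hh₀ hb using fun i => slope_le (h1 i hL)
  obtain ⟨r, hr, hr0⟩ : ∃ r, 0 < r ∧ ∀ i, r ≤ h₀ i := by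
    rcases isEmpty_or_nonempty ι with he | he
    · exact ⟨1, one_pos, fun i => (he.false i).elim⟩
    · obtain ⟨i₀, hi₀⟩ := Finite.exists_min h₀
      exact ⟨h₀ i₀, hh₀ i₀, hi₀⟩
  refine ⟨∑ i, C i + 1, ?_, r, hr, fun i h hh hlt => ?_⟩
  · have := Finset.sum_nonneg (s := Finset.univ) fun i _ => (hC i).le
    linarith
  · refine (hb i h hh (lt_of_lt_of_le hlt (hr0 i))).trans ?_
    have h2 : C i ≤ ∑ i, C i :=
      Finset.single_le_sum (f := C) (fun i _ => (hC i).le) (Finset.mem_univ i)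
    nlinarith

/-- Increments of a monotone function dominate the layer integrals of `f L i`, `i : ι`: then for
almost every level these layer integrals are at most linear in the thickness. -/
theorem ae_layer_le {E ι : Type*} [Finite ι] [MeasurableSpace E] {μ : Measure E}
    {A : ι → ℝ → ℝ} {D : ℝ → Set E} {f : ℝ → ι → E → ℝ} (hA : ∀ i, MonotoneOn (A i) (Ioi 0))
    (hf : ∀ L, 0 < L → ∀ i, ∀ h, 0 < h →
      ∫ z in D L \ D (L + h), f L i z ∂μ ≤ A i (L + h) - A i L) :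
    ∀ᵐ L : ℝ, 0 < L → ∃ C, 0 < C ∧ ∃ h₀, 0 < h₀ ∧ ∀ i, ∀ h, 0 < h → h < h₀ →
      ∫ z in D L \ D (L + h), f L i z ∂μ ≤ C * h := by
  filter_upwards [ae_slope_le hA] with L h1 hL
  obtain ⟨C, hC, h₀, hh₀, hb⟩ := h1 hL
  exact ⟨C, hC, h₀, hh₀, fun i h hh hlt => (hf L hL i h hh).trans (hb i h hh.le hlt)⟩

/-- Extended nonnegative form of `ae_layer_le`. -/
theorem ae_layer_lintegral_le {E ι : Type*} [Finite ι] [MeasurableSpace E] {μ : Measure E}
    {A : ι → ℝ → ℝ} {D : ℝ → Set E} {f : ℝ → ι → E → ENNReal}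
    (hA : ∀ i, MonotoneOn (A i) (Ioi 0))
    (hf : ∀ L, 0 < L → ∀ i, ∀ h, 0 < h →
      ∫⁻ z in D L \ D (L + h), f L i z ∂μ ≤ ENNReal.ofReal (A i (L + h) - A i L)) :
    ∀ᵐ L : ℝ, 0 < L → ∃ C, 0 < C ∧ ∃ h₀, 0 < h₀ ∧ ∀ i, ∀ h, 0 < h → h < h₀ →
      ∫⁻ z in D L \ D (L + h), f L i z ∂μ ≤ ENNReal.ofReal (C * h) := by
  filter_upwards [ae_slope_le hA] with L h1 hL
  obtain ⟨C, hC, h₀, hh₀, hb⟩ := h1 hL
  exact ⟨C, hC, h₀, hh₀, fun i h hh hlt =>
    (hf L hL i h hh).trans (ENNReal.ofReal_le_ofReal (hb i h hh.le hlt))⟩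

/-- From layers between levels to layers `S t` (such as `{0 < g < t}`) inside them: if
`S (c * h) ⊆ R h` for small `h` and the integral over `R h` is at most `C * h`, then the integral
over `S t` is at most `C' * t` for small `t`. -/
theorem hyp_of_layer {E : Type*} [MeasurableSpace E] {μ : Measure E} {R S : ℝ → Set E}
    {f : E → ℝ} {C c h₀ h₁ : ℝ} (hc : 0 < c) (hh₀ : 0 < h₀) (hh₁ : 0 < h₁)
    (hf0 : ∀ z, 0 ≤ f z) (hf : ∀ h, 0 < h → h < h₀ → IntegrableOn f (R h) μ)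
    (hR : ∀ h, 0 < h → h < h₀ → ∫ z in R h, f z ∂μ ≤ C * h)
    (hS : ∀ h, 0 < h → h < h₁ → S (c * h) ⊆ R h) :
    ∃ t₀, 0 < t₀ ∧ ∀ t, 0 < t → t < t₀ → ∫ z in S t, f z ∂μ ≤ C / c * t := by
  refine ⟨c * min h₀ h₁, mul_pos hc (lt_min hh₀ hh₁), fun t ht hlt => ?_⟩
  have h1 : t / c < min h₀ h₁ := by rw [div_lt_iff₀ hc, mul_comm]; exact hlt
  have h2 : 0 < t / c := div_pos ht hc
  have h3 := hS (t / c) h2 (h1.trans_le (min_le_right _ _))
  have h4 : c * (t / c) = t := by field_simp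
  rw [h4] at h3
  calc ∫ z in S t, f z ∂μ ≤ ∫ z in R (t / c), f z ∂μ :=
        setIntegral_mono_set (hf _ h2 (h1.trans_le (min_le_left _ _)))
          (Eventually.of_forall fun z => hf0 z) (Eventually.of_forall h3)
    _ ≤ C * (t / c) := hR _ h2 (h1.trans_le (min_le_left _ _))
    _ = C / c * t := by ring

/-- Extended nonnegative form of `hyp_of_layer`. -/
theorem hyp_of_layer_lintegral {E : Type*} [MeasurableSpace E] {μ : Measure E} {R S : ℝ → Set E}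
    {f : E → ENNReal} {C c h₀ h₁ : ℝ} (hc : 0 < c) (hh₀ : 0 < h₀) (hh₁ : 0 < h₁)
    (hR : ∀ h, 0 < h → h < h₀ → ∫⁻ z in R h, f z ∂μ ≤ ENNReal.ofReal (C * h))
    (hS : ∀ h, 0 < h → h < h₁ → S (c * h) ⊆ R h) :
    ∃ t₀, 0 < t₀ ∧ ∀ t, 0 < t → t < t₀ → ∫⁻ z in S t, f z ∂μ ≤ ENNReal.ofReal (C / c * t) := by
  refine ⟨c * min h₀ h₁, mul_pos hc (lt_min hh₀ hh₁), fun t ht hlt => ?_⟩
  have h1 : t / c < min h₀ h₁ := by rw [div_lt_iff₀ hc, mul_comm]; exact hlt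
  have h2 : 0 < t / c := div_pos ht hc
  have h3 := hS (t / c) h2 (h1.trans_le (min_le_right _ _))
  have h4 : c * (t / c) = t := by field_simp
  rw [h4] at h3
  calc ∫⁻ z in S t, f z ∂μ ≤ ∫⁻ z in R (t / c), f z ∂μ := lintegral_mono_set h3
    _ ≤ ENNReal.ofReal (C * (t / c)) := hR _ h2 (h1.trans_le (min_le_left _ _))
    _ = ENNReal.ofReal (C / c * t) := by congr 1; ring

end Pool.Agent.Lib.QNL.MonDiff
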