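import Pool.Agent.Lib.QNL.Stmts
import Pool.Agent.Lib.QNL.OStmts
import Pool.Agent.Lib.QNL.MonDiff
import Pool.Agent.Lib.QNL.Calc
import Pool.Agent.Lib.IWC.Mul

/-!
QNL, group L: the layer inequality at one good pair `(ε, L)` from the obstacle family (group O),
the inequality (BI) (group E), the jet of `b_j` and the bound of the increments (group H).
-/

set_option autoImplicit false

namespace Pool.Agent.Lib.QNL.L85

open MeasureTheory Filter Topology Set
open scoped ENNReal ContDiff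

/-- the gradient of `ψ - ε` -/
theorem gr_sub_const (f : ℂ → ℝ) (c : ℝ) (z : ℂ) : gr (fun w => f w - c) z = gr f z := by
  unfold gr dx dy
  simp [fderiv_sub_const]

theorem lap_sub_const (f : ℂ → ℝ) (c : ℝ) (z : ℂ) : lap (fun w => f w - c) z = lap f z := by
  unfold lap dx dy
  simp [fderiv_sub_const]

theorem lap_const_mul {U : Set ℂ} (hU : IsOpen U) {f : ℂ → ℝ} (hf : ContDiffOn ℝ ∞ f U) (c : ℝ)
    {z : ℂ} (hz : z ∈ U) : lap (fun w => c * f w) z = c * lap f z := by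
  have h1 := Calc.lap_mul (f := fun _ : ℂ => c) (g := f) (contDiffOn_const (c := c)) hf hU hz
  have h2 : ∀ v : ℂ, dv v (fun _ : ℂ => c) z = 0 := fun _ => dv_const c
  have h3 : lap (fun _ : ℂ => c) z = 0 := by
    unfold lap dx dy
    simp
  rw [h1, h2, h2, h3]
  ring

/-- The geometry of the layers `D_L \ D_(L+h)`, `D_L = {ε < ψ_L}`, at a good level. -/
structure Geo (D : Set ℂ) (R : ℝ → Set ℂ) (U : Set ℂ) (ψ χ : ℂ → ℝ) (ε c M : ℝ) : Prop where
  cpos : 0 < c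
  chi : ∀ z ∈ D, c ≤ χ z ∧ χ z ≤ M
  /-- `{ε < ψ < ε + t} ⊆ R h` for `t ≤ c h / 2` -/
  inn : ∃ h₀ : ℝ, 0 < h₀ ∧ ∀ h, 0 < h → h < h₀ → ∀ z ∈ U, ε < ψ z → ψ z < ε + c / 2 * h → z ∈ R h
  /-- `{ε < ψ < ε + h (1 - τ) χ} ⊆ R h` -/
  inn' : ∀ τ : ℝ, 0 < τ → ∃ h₀ : ℝ, 0 < h₀ ∧ ∀ h, 0 < h → h < h₀ → ∀ z ∈ U, ε < ψ z →
    ψ z < ε + h * ((1 - τ) * χ z) → z ∈ R h
  /-- `ψ ≤ ε + 2 M h` on `R h` -/
  out : ∃ h₀ : ℝ, 0 < h₀ ∧ ∀ h, 0 < h → h < h₀ → ∀ z ∈ R h, ψ z ≤ ε + 2 * M * h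

theorem exists_geo {μ : ℂ → ℝ} {C : ℝ} {U : ℝ → Set ℂ} {ψ : ℝ → ℂ → ℝ} (hO : O.Obst μ C U ψ)
    {L ε : ℝ} (hL : 0 < L) (hε : 0 < ε) (hcpt : IsCompact {x | ε ≤ ψ L x}) {χ : ℂ → ℝ}
    (hχc : ContinuousOn χ (U L)) (hχp : ∀ x ∈ U L, 0 < χ x)
    (hχ : TendstoLocallyUniformlyOn (fun h x => (ψ L x - ψ (L + h) x) / h) χ (𝓝[>] (0 : ℝ)) (U L)) :
    ∃ c M, Geo {z | ε < ψ L z} (fun h => {z | ε < ψ L z} \ {z | ε < ψ (L + h) z}) (U L) (ψ L) χ
      ε c M := by
  have hKU : {x | ε ≤ ψ L x} ⊆ U L := by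
    intro x hx
    by_contra hxU
    have := hO.zero L hL x hxU
    simp only [mem_ofPred_eq, this] at hx
    linarith
  have hDK : {z | ε < ψ L z} ⊆ {x | ε ≤ ψ L x} := fun z (hz : ε < ψ L z) => hz.le
  -- uniform convergence on `K`
  have hunif : TendstoUniformlyOn (fun h x => (ψ L x - ψ (L + h) x) / h) χ (𝓝[>] (0 : ℝ))
      {x | ε ≤ ψ L x} :=
    (tendstoLocallyUniformlyOn_iff_forall_isCompact (hO.isOpen L hL)).1 hχ _ hKU hcpt
  rcases ({x | ε ≤ ψ L x} : Set ℂ).eq_empty_or_nonempty with hem | hne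
  · refine ⟨1, 1, one_pos, ?_, ⟨1, one_pos, ?_⟩, fun τ _ => ⟨1, one_pos, ?_⟩, ⟨1, one_pos, ?_⟩⟩
    · intro z hz
      have := hDK hz
      rw [hem] at this
      exact this.elim
    · intro h _ _ z _ hz _
      have : z ∈ ({x | ε ≤ ψ L x} : Set ℂ) := le_of_lt hz
      rw [hem] at this
      exact this.elim
    · intro h _ _ z _ hz _
      have : z ∈ ({x | ε ≤ ψ L x} : Set ℂ) := le_of_lt hz
      rw [hem] at this
      exact this.elim
    · intro h _ _ z hz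
      have : z ∈ ({x | ε ≤ ψ L x} : Set ℂ) := hDK hz.1
      rw [hem] at this
      exact this.elim
  obtain ⟨x₀, hx₀, hmin⟩ := hcpt.exists_isMinOn hne (hχc.mono hKU)
  obtain ⟨x₁, hx₁, hmax⟩ := hcpt.exists_isMaxOn hne (hχc.mono hKU)
  set c := χ x₀ with hc
  set M := χ x₁ with hM
  have hcp : 0 < c := hχp _ (hKU hx₀)
  have hcχ : ∀ z, ε ≤ ψ L z → c ≤ χ z ∧ χ z ≤ M := fun z hz => ⟨hmin hz, hmax hz⟩
  have hev : ∀ η : ℝ, 0 < η → ∃ h₀ : ℝ, 0 < h₀ ∧ ∀ h, 0 < h → h < h₀ → ∀ z, ε ≤ ψ L z →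
      |(ψ L z - ψ (L + h) z) / h - χ z| < η := by
    intro η hη
    have h1 := Metric.tendstoUniformlyOn_iff.1 hunif η hη
    rw [eventually_nhdsWithin_iff, Metric.eventually_nhds_iff] at h1
    obtain ⟨h₀, hh₀, h1⟩ := h1
    refine ⟨h₀, hh₀, fun h hh hlt z hz => ?_⟩
    have h2 := h1 (y := h) (by rw [Real.dist_eq, sub_zero, abs_of_pos hh]; exact hlt) hh z hz
    rwa [Real.dist_eq, abs_sub_comm] at h2
  refine ⟨c, M, hcp, fun z hz => hcχ z (hDK hz), ?_, ?_, ?_⟩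
  · obtain ⟨h₀, hh₀, h1⟩ := hev (c / 2) (by linarith)
    refine ⟨h₀, hh₀, fun h hh hlt z _ hz hz2 => ⟨hz, ?_⟩⟩
    have h2 := (abs_lt.1 (h1 h hh hlt z hz.le)).1
    have h3 := (hcχ z hz.le).1
    have h4 : c / 2 < (ψ L z - ψ (L + h) z) / h := by linarith
    rw [lt_div_iff₀ hh] at h4
    simp only [mem_ofPred_eq, not_lt]
    linarith
  · intro τ hτ
    obtain ⟨h₀, hh₀, h1⟩ := hev (τ * c) (by positivity)
    refine ⟨h₀, hh₀, fun h hh hlt z _ hz hz2 => ⟨hz, ?_⟩⟩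
    have h2 := (abs_lt.1 (h1 h hh hlt z hz.le)).1
    have h3 := (hcχ z hz.le).1
    have h4 : (1 - τ) * χ z ≤ (ψ L z - ψ (L + h) z) / h := by
      nlinarith [mul_le_mul_of_nonneg_left h3 hτ.le]
    rw [le_div_iff₀ hh] at h4
    simp only [mem_ofPred_eq, not_lt]
    nlinarith
  · obtain ⟨h₀, hh₀, h1⟩ := hev c hcp
    refine ⟨h₀, hh₀, fun h hh hlt z hz => ?_⟩
    have hz1 : ε < ψ L z := hz.1
    have hz2 : ψ (L + h) z ≤ ε := not_lt.1 hz.2
    have h2 := (abs_lt.1 (h1 h hh hlt z hz1.le)).2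
    have h3 := hcχ z hz1.le
    have h4 : (ψ L z - ψ (L + h) z) / h ≤ 2 * M := by linarith
    rw [div_le_iff₀ hh] at h4
    show ψ L z ≤ ε + 2 * M * h
    linarith

/-- **The layer inequality at a good pair** `(ε, L)`. -/
theorem layer_at {μ : ℂ → ℝ} {C : ℝ} {U : ℝ → Set ℂ} {ψ : ℝ → ℂ → ℝ} (hO : O.Obst μ C U ψ)
    (hC : 0 ≤ C) (hμ : Continuous μ) (hμ0 : ∀ z, 0 ≤ μ z) (hBI : StmtBI) (hjet : StmtHjet)
    {L ε : ℝ} (hL : 0 < L) (hε : 0 < ε) (hG : O.Gen μ C U ψ L)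
    (hreg : ∀ x ∈ U L, ψ L x = ε → 0 < gr (ψ L) x) (j : ℕ) (X : H)
    (hyp : ∃ A, 0 < A ∧ ∃ h₁, 0 < h₁ ∧ ∀ k : ℤ, |k| ≤ (j : ℤ) → ∀ h, 0 < h → h < h₁ →
      ∫ z in {z | ε < ψ L z} \ {z | ε < ψ (L + h) z},
        ‖(TT k (bb j {z | ε < ψ L z} X) : ℂ → ℂ) z‖ ^ 2 ≤ A * h) :
    ∀ δ : ℝ, 0 < δ → ∃ h₀ : ℝ, 0 < h₀ ∧ ∀ h, 0 < h → h < h₀ →
      (2 * j + 1) * ‖bb j {z | ε < ψ L z} X‖ ^ 2 ≤
        (1 / h) * (∫ z in {z | ε < ψ L z} \ {z | ε < ψ (L + h) z},
          (L - μ z + 4 * C * ε) * ‖(bb j {z | ε < ψ L z} X : ℂ → ℂ) z‖ ^ 2) + δ := by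
  intro δ hδ
  obtain ⟨χ, hχs, hχl, hχp, hχt, hV⟩ := hG.chi
  obtain ⟨c, M, hgeo⟩ := exists_geo hO hL hε (hG.cpt ε hε) hχs.continuousOn hχp hχt
  obtain ⟨A, hA, h₁, hh₁, hyp⟩ := hyp
  set D : Set ℂ := {z | ε < ψ L z} with hDdef
  set R : ℝ → Set ℂ := fun h => D \ {z | ε < ψ (L + h) z} with hRdef
  set b : H := bb j D X with hb
  -- the set `D`
  have hDU : D ⊆ U L := by
    intro x hx
    by_contra hxU
    have h1 := hO.zero L hL x hxU
    have h2 : ε < ψ L x := hx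
    linarith
  have hUo := hO.isOpen L hL
  have hDo : IsOpen D := by
    have h1 := (hO.smooth L hL).continuousOn.isOpen_inter_preimage hUo (isOpen_Ioi (a := ε))
    have h2 : D = U L ∩ ψ L ⁻¹' Ioi ε := by
      ext z
      exact ⟨fun hz => ⟨hDU hz, hz⟩, fun hz => hz.2⟩
    rw [h2]
    exact h1
  have hDm : MeasurableSet D := hDo.measurableSet
  have hDb : Bornology.IsBounded D :=
    (hG.cpt ε hε).isBounded.subset (fun z (hz : ε < ψ L z) => hz.le)
  -- layers are measurable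
  have hRm : ∀ h, 0 < h → MeasurableSet (R h) := by
    intro h hh
    have hLh : 0 < L + h := by linarith
    have h1 := (hO.smooth (L + h) hLh).continuousOn.isOpen_inter_preimage
      (hO.isOpen (L + h) hLh) (isOpen_Ioi (a := ε))
    have h2 : {z | ε < ψ (L + h) z} = U (L + h) ∩ ψ (L + h) ⁻¹' Ioi ε := by
      ext z
      refine ⟨fun hz => ⟨?_, hz⟩, fun hz => hz.2⟩
      by_contra hzU
      have h3 := hO.zero (L + h) hLh z hzU
      have h4 : ε < ψ (L + h) z := hz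
      linarith
    have h3 : MeasurableSet {z | ε < ψ (L + h) z} := by
      rw [h2]
      exact h1.measurableSet
    exact hDm.diff h3
  have hRD : ∀ h, R h ⊆ D := fun h => sdiff_subset
  -- the jet
  obtain ⟨hb0, Y, hY, hYb, hYT⟩ := hjet j D X hDo hDb
  have hbint : Integrable (fun z => ‖(b : ℂ → ℂ) z‖ ^ 2) := (Lp.memLp b).integrable_norm_pow two_ne_zero
  have hTint : ∀ k : ℤ, Integrable (fun z => ‖(TT k b : ℂ → ℂ) z‖ ^ 2) :=
    fun k => (Lp.memLp (TT k b)).integrable_norm_pow two_ne_zero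
  have h4j : (0 : ℝ) < 4 ^ j := by positivity
  have h16 : (0 : ℝ) < 16 ^ j := by positivity
  have h416 : ∀ w : ℂ, ‖(4 : ℂ) ^ j * w‖ ^ 2 = 16 ^ j * ‖w‖ ^ 2 := by
    intro w
    rw [norm_mul, norm_pow, mul_pow, ← pow_mul, mul_comm j 2, pow_mul]
    norm_num
  have hYbn : ∀ᵐ z, z ∈ D → 16 ^ j * ‖Y j j z‖ ^ 2 = ‖(b : ℂ → ℂ) z‖ ^ 2 := by
    filter_upwards [hYb] with z hz hzD
    rw [← h416, ← hz hzD]
  have hYTn : ∀ a a' : ℕ, a + a' = 2 * j → ∀ᵐ z, z ∈ D →
      16 ^ j * ‖Y a a' z‖ ^ 2 = ‖(TT ((a : ℤ) - j) b : ℂ → ℂ) z‖ ^ 2 := by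
    intro a a' haa
    filter_upwards [hYT a a' haa] with z hz hzD
    rw [← h416, ← hz hzD]
  -- integrals on subsets of `D`
  have hsub : ∀ a a' : ℕ, a + a' = 2 * j → ∀ S : Set ℂ, MeasurableSet S → S ⊆ D →
      16 ^ j * ∫ z in S, ‖Y a a' z‖ ^ 2 = ∫ z in S, ‖(TT ((a : ℤ) - j) b : ℂ → ℂ) z‖ ^ 2 := by
    intro a a' haa S hS hSD
    rw [← integral_const_mul]
    refine setIntegral_congr_ae hS ?_
    filter_upwards [hYTn a a' haa] with z hz hzS using hz (hSD hzS)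
  have hintY : ∀ a a' : ℕ, a + a' = 2 * j → IntegrableOn (fun z => ‖Y a a' z‖ ^ 2) D := by
    intro a a' haa
    have h1 : IntegrableOn (fun z => 16 ^ j * ‖Y a a' z‖ ^ 2) D := by
      refine (hTint ((a : ℤ) - j)).integrableOn.congr ?_
      filter_upwards [ae_restrict_of_ae (hYTn a a' haa), ae_restrict_mem hDm] with z h1 h2
      exact (h1 h2).symm
    have h2 := h1.const_mul ((16 : ℝ) ^ j)⁻¹
    refine h2.congr (Eventually.of_forall fun z => ?_)
    simp only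
    rw [← mul_assoc, inv_mul_cancel₀ h16.ne', one_mul]
  -- constants
  have hjk : ∀ a a' : ℕ, a + a' = 2 * j → |((a : ℤ) - j)| ≤ (j : ℤ) := by
    intro a a' haa
    rw [abs_le]
    omega
  have hBpos : 0 < L + 4 * C * ε + 1 := by positivity
  set B : ℝ := L + 4 * C * ε + 1 with hB
  set τ : ℝ := min (1 / 2) (δ / (8 * B * A)) with hτ
  have hτ0 : 0 < τ := lt_min (by norm_num) (by positivity)
  have hτ2 : τ ≤ 1 / 2 := min_le_left _ _
  have hτB : 2 * τ * B * A ≤ δ / 4 := by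
    have h1 : τ ≤ δ / (8 * B * A) := min_le_right _ _
    rw [le_div_iff₀ (by positivity)] at h1
    nlinarith
  have hset : {z | z ∈ U L ∧ 0 < ψ L z - ε} = D := by
    ext z
    refine ⟨fun hz => ?_, fun hz => ⟨hDU hz, ?_⟩⟩
    · have := hz.2
      show ε < ψ L z
      linarith
    · have h2 : ε < ψ L z := hz
      linarith
  -- the hypothesis of (BI)
  have hHyp : ∃ C t₀ : ℝ, 0 < t₀ ∧ ∀ t, 0 < t → t < t₀ → ∀ a a', a + a' = 2 * j →
      ∫ z in {z | z ∈ U L ∧ 0 < ψ L z - ε ∧ ψ L z - ε < t}, ‖Y a a' z‖ ^ 2 ≤ C * t := by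
    obtain ⟨h₂, hh₂, hin⟩ := hgeo.inn
    have hc := hgeo.cpos
    refine ⟨2 * A / (16 ^ j * c), c / 2 * min h₁ h₂, by positivity, ?_⟩
    intro t ht htlt a a' haa
    have h1 : t / (c / 2) < min h₁ h₂ := by
      rw [div_lt_iff₀ (by positivity), mul_comm]
      exact htlt
    have h2 : 0 < t / (c / 2) := by positivity
    have h3 : {z | z ∈ U L ∧ 0 < ψ L z - ε ∧ ψ L z - ε < t} ⊆ R (t / (c / 2)) := by
      intro z hz
      refine hin _ h2 (h1.trans_le (min_le_right _ _)) z hz.1 (by linarith [hz.2.1]) ?_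
      have h5 : c / 2 * (t / (c / 2)) = t := by field_simp
      rw [h5]
      linarith [hz.2.2]
    have h4 := hyp ((a : ℤ) - j) (hjk a a' haa) _ h2 (h1.trans_le (min_le_left _ _))
    have h5 := hsub a a' haa (R (t / (c / 2))) (hRm _ h2) (hRD _)
    have h6 : ∫ z in {z | z ∈ U L ∧ 0 < ψ L z - ε ∧ ψ L z - ε < t}, ‖Y a a' z‖ ^ 2 ≤
        ∫ z in R (t / (c / 2)), ‖Y a a' z‖ ^ 2 :=
      setIntegral_mono_set ((hintY a a' haa).mono_set (hRD _))
        (Eventually.of_forall fun z => by positivity) (LE.le.eventuallyLE h3)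
    have h7 : 16 ^ j * ∫ z in R (t / (c / 2)), ‖Y a a' z‖ ^ 2 ≤ A * (t / (c / 2)) := by
      rw [h5]
      exact h4
    have h8 : 2 * A / (16 ^ j * c) * t = (A * (t / (c / 2))) / 16 ^ j := by
      field_simp
    rw [h8, le_div_iff₀ h16]
    nlinarith
  have hgs : ContDiffOn ℝ ∞ (fun z => ψ L z - ε) (U L) := (hO.smooth L hL).sub contDiffOn_const
  have hlg : ∀ z ∈ U L, lap (fun z => ψ L z - ε) z = -1 := by
    intro z hz
    rw [lap_sub_const]
    exact hO.lap L hL z hz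
  have hcp : IsCompact {z | z ∈ U L ∧ 0 ≤ ψ L z - ε} := by
    have h1 : {z | z ∈ U L ∧ 0 ≤ ψ L z - ε} = {x | ε ≤ ψ L x} := by
      ext z
      refine ⟨fun hz => ?_, fun hz => ⟨?_, ?_⟩⟩
      · have := hz.2
        show ε ≤ ψ L z
        linarith
      · by_contra hzU
        have h1 := hO.zero L hL z hzU
        have h2 : ε ≤ ψ L z := hz
        linarith
      · have h2 : ε ≤ ψ L z := hz
        linarith
    rw [h1]
    exact hG.cpt ε hε
  have hgr : ∀ z ∈ U L, ψ L z - ε = 0 → gr (fun z => ψ L z - ε) z ≠ 0 := by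
    intro z hz h0
    rw [gr_sub_const]
    exact (hreg z hz (by linarith)).ne'
  have hτ1 : 0 < 1 - τ := by linarith
  have hθs : ContDiffOn ℝ ∞ (fun z => (1 - τ) * χ z) (U L) := contDiffOn_const.mul hχs
  have hθl : ∀ z ∈ U L, 0 < (1 - τ) * χ z ∧ lap (fun z => (1 - τ) * χ z) z = 0 := by
    intro z hz
    refine ⟨mul_pos hτ1 (hχp z hz), ?_⟩
    rw [lap_const_mul hUo hχs _ hz, hχl z hz, mul_zero]
  have hYj : Jet {z | z ∈ U L ∧ 0 < ψ L z - ε} j Y := by
    rw [hset]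
    exact hY
  obtain ⟨h₂, hh₂, hmain⟩ := hBI j (U L) (fun z => ψ L z - ε) (fun z => (1 - τ) * χ z) Y hUo hgs
    hlg hcp hgr hθs hθl hYj hHyp (δ / (4 * 16 ^ j)) (by positivity)
  rw [hset] at hmain
  obtain ⟨h₃, hh₃, hin⟩ := hgeo.inn' τ hτ0
  obtain ⟨h₄, hh₄, hout⟩ := hgeo.out
  -- `M` may be replaced by `|M|`
  set M' : ℝ := |M| + 1 with hM'
  have hM'0 : 0 < M' := by positivity
  have hMM' : M ≤ M' := by
    have := le_abs_self M
    linarith
  -- the choice of `h₀`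
  set h₅ : ℝ := min 1 (δ / (4 * A)) / (8 * C * M' + 1) with hh₅
  have hh₅0 : 0 < h₅ := by positivity
  refine ⟨min (min h₁ h₂) (min (min h₃ h₄) h₅), by positivity, fun h hh hlt => ?_⟩
  have hl1 : h < h₁ := hlt.trans_le ((min_le_left _ _).trans (min_le_left _ _))
  have hl2 : h < h₂ := hlt.trans_le ((min_le_left _ _).trans (min_le_right _ _))
  have hl3 : h < h₃ := hlt.trans_le ((min_le_right _ _).trans
    ((min_le_left _ _).trans (min_le_left _ _)))
  have hl4 : h < h₄ := hlt.trans_le ((min_le_right _ _).trans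
    ((min_le_left _ _).trans (min_le_right _ _)))
  have hl5 : h < h₅ := hlt.trans_le ((min_le_right _ _).trans (min_le_right _ _))
  set η : ℝ := 8 * C * M' * h with hη
  have hη0 : 0 ≤ η := by positivity
  have hη5 : η < min 1 (δ / (4 * A)) := by
    have h1 := hl5
    rw [hh₅, lt_div_iff₀ (by positivity)] at h1
    nlinarith
  have hη1 : η ≤ 1 := hη5.le.trans (min_le_left _ _)
  have hηA : η * A ≤ δ / 4 := by
    have h1 : η ≤ δ / (4 * A) := hη5.le.trans (min_le_right _ _)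
    rw [le_div_iff₀ (by positivity)] at h1
    linarith
  -- pointwise facts on the layer
  have hw0 : ∀ z ∈ D, 0 ≤ L - μ z + 4 * C * ψ L z := by
    intro z hz
    have h1 := hV z (hDU hz)
    have h2 := hχp z (hDU hz)
    have h3 : 0 ≤ gr (ψ L) z := by unfold gr; positivity
    by_contra hcon
    push Not at hcon
    nlinarith
  have hwR : ∀ z ∈ R h, 0 ≤ L - μ z + 4 * C * ε + η := by
    intro z hz
    have h1 := hw0 z (hRD h hz)
    have h2 := hout h hh hl4 z hz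
    have h3 : 4 * C * ψ L z ≤ 4 * C * (ε + 2 * M' * h) := by
      refine mul_le_mul_of_nonneg_left (h2.trans ?_) (by positivity)
      nlinarith
    rw [hη]
    nlinarith
  have hwB : ∀ z, L - μ z + 4 * C * ε + η ≤ B := by
    intro z
    rw [hB]
    linarith [hμ0 z]
  -- the function `F = |b|²`
  set F : ℂ → ℝ := fun z => ‖(b : ℂ → ℂ) z‖ ^ 2 with hF
  have hF0 : ∀ z, 0 ≤ F z := fun z => by positivity
  have hFint : Integrable F := hbint
  have hFR : ∫ z in R h, F z ≤ A * h := by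
    have h1 := hyp ((j : ℤ) - j) (by simp) h hh hl1
    refine le_trans (le_of_eq ?_) h1
    refine setIntegral_congr_ae (hRm h hh) ?_
    filter_upwards [hYbn, hYTn j j (by ring)] with z h1 h2 hzR
    rw [hF]
    simp only
    rw [← h1 (hRD h hzR), ← h2 (hRD h hzR)]
  have hFR0 : 0 ≤ ∫ z in R h, F z := setIntegral_nonneg (hRm h hh) fun z _ => hF0 z
  -- the norm of `b`
  have hnorm : ‖b‖ ^ 2 = 16 ^ j * ∫ z in D, ‖Y j j z‖ ^ 2 := by
    have h1 : ‖b‖ ^ 2 = ∫ z, F z := Pool.Agent.Lib.IWC.H_norm_sq b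
    have h2 : ∫ z, F z = ∫ z in D, F z := by
      rw [← integral_indicator hDm]
      refine integral_congr_ae ?_
      filter_upwards [hb0] with z hz
      by_cases hzD : z ∈ D
      · rw [indicator_of_mem hzD]
      · rw [indicator_of_notMem hzD, hF]
        simp only
        rw [hz hzD]
        simp
    rw [h1, h2, ← integral_const_mul]
    refine setIntegral_congr_ae hDm ?_
    filter_upwards [hYbn] with z hz hzD using (hz hzD).symm
  -- weights
  have hcw : Continuous fun z => L - μ z + 4 * C * ε + η :=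
    ((continuous_const.sub hμ).add continuous_const).add continuous_const
  have hwint : IntegrableOn (fun z => (L - μ z + 4 * C * ε + η) * F z) (R h) := by
    refine Integrable.bdd_mul (c := B) hFint.integrableOn hcw.aestronglyMeasurable ?_
    filter_upwards [ae_restrict_mem (hRm h hh)] with z hz
    rw [Real.norm_eq_abs, abs_of_nonneg (hwR z hz)]
    exact hwB z
  have hwint0 : IntegrableOn (fun z => (L - μ z + 4 * C * ε) * F z) (R h) := by
    have h1 := hwint.sub (hFint.integrableOn.const_mul η)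
    refine h1.congr (Eventually.of_forall fun z => ?_)
    simp only [Pi.sub_apply]
    ring
  -- the main inequality
  have hS : {z | z ∈ U L ∧ 0 < ψ L z - ε ∧ ψ L z - ε < h * ((1 - τ) * χ z)} ⊆ R h := by
    intro z hz
    exact hin h hh hl3 z hz.1 (by linarith [hz.2.1]) (by linarith [hz.2.2])
  have hSm : MeasurableSet
      {z | z ∈ U L ∧ 0 < ψ L z - ε ∧ ψ L z - ε < h * ((1 - τ) * χ z)} := by
    have e1 : ContinuousOn (fun z => h * ((1 - τ) * χ z) - (ψ L z - ε)) (U L) :=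
      (continuousOn_const.mul hθs.continuousOn).sub hgs.continuousOn
    have e2 := e1.isOpen_inter_preimage hUo (isOpen_Ioi (a := (0 : ℝ)))
    have e3 := hgs.continuousOn.isOpen_inter_preimage hUo (isOpen_Ioi (a := (0 : ℝ)))
    have e4 : {z | z ∈ U L ∧ 0 < ψ L z - ε ∧ ψ L z - ε < h * ((1 - τ) * χ z)} =
        (U L ∩ (fun z => h * ((1 - τ) * χ z) - (ψ L z - ε)) ⁻¹' Ioi 0) ∩
          (U L ∩ (fun z => ψ L z - ε) ⁻¹' Ioi 0) := by
      ext z
      simp only [mem_inter_iff, mem_preimage, mem_Ioi, mem_ofPred_eq, sub_pos]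
      tauto
    rw [e4]
    exact (e2.inter e3).measurableSet
  have h1 := hmain h hh hl2
  have h2 : 16 ^ j * ∫ z in {z | z ∈ U L ∧ 0 < ψ L z - ε ∧ ψ L z - ε < h * ((1 - τ) * χ z)},
      gr (fun z => ψ L z - ε) z / ((1 - τ) * χ z) * ‖Y j j z‖ ^ 2 ≤
      (1 + 2 * τ) * ∫ z in R h, (L - μ z + 4 * C * ε + η) * F z := by
    rw [← integral_const_mul, ← integral_const_mul]
    refine le_trans (integral_mono_of_nonneg ?_
      (IntegrableOn.mono_set (hwint.const_mul (1 + 2 * τ)) hS) ?_)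
      (setIntegral_mono_set (hwint.const_mul (1 + 2 * τ)) ?_ (LE.le.eventuallyLE hS))
    · filter_upwards [ae_restrict_mem hSm] with z hz
      have e1 := hχp z hz.1
      have e2 : 0 ≤ gr (fun z => ψ L z - ε) z := by unfold gr; positivity
      show 0 ≤ 16 ^ j * (gr (fun z => ψ L z - ε) z / ((1 - τ) * χ z) * ‖Y j j z‖ ^ 2)
      positivity
    · filter_upwards [ae_restrict_mem hSm, ae_restrict_of_ae hYbn] with z hz hYz
      have hzR := hS hz
      have e1 := hχp z hz.1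
      have e2 := hV z hz.1
      have e3 := hw0 z (hRD h hzR)
      have e4 := hout h hh hl4 z hzR
      have e5 : 4 * C * ψ L z ≤ 4 * C * ε + η := by
        have : 4 * C * ψ L z ≤ 4 * C * (ε + 2 * M' * h) := by
          refine mul_le_mul_of_nonneg_left (e4.trans ?_) (by positivity)
          nlinarith
        rw [hη]
        nlinarith
      have e6 : gr (fun z => ψ L z - ε) z / ((1 - τ) * χ z) ≤
          (1 + 2 * τ) * (L - μ z + 4 * C * ε + η) := by
        rw [gr_sub_const, div_le_iff₀ (by positivity)]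
        have f1 : (L - μ z + 4 * C * ψ L z) * χ z ≤ (L - μ z + 4 * C * ε + η) * χ z :=
          mul_le_mul_of_nonneg_right (by linarith) e1.le
        have f2 : 0 ≤ (L - μ z + 4 * C * ε + η) * χ z := mul_nonneg (hwR z hzR) e1.le
        have f3 : 1 ≤ (1 + 2 * τ) * (1 - τ) := by nlinarith
        have f4 := mul_le_mul_of_nonneg_right f3 f2
        calc gr (ψ L) z ≤ (L - μ z + 4 * C * ε + η) * χ z := e2.trans f1
          _ ≤ (1 + 2 * τ) * (1 - τ) * ((L - μ z + 4 * C * ε + η) * χ z) := by linarith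
          _ = _ := by ring
      have e7 := hYz (hRD h hzR)
      calc 16 ^ j * (gr (fun z => ψ L z - ε) z / ((1 - τ) * χ z) * ‖Y j j z‖ ^ 2)
          = gr (fun z => ψ L z - ε) z / ((1 - τ) * χ z) * (16 ^ j * ‖Y j j z‖ ^ 2) := by ring
        _ = gr (fun z => ψ L z - ε) z / ((1 - τ) * χ z) * F z := by rw [e7]
        _ ≤ (1 + 2 * τ) * (L - μ z + 4 * C * ε + η) * F z :=
          mul_le_mul_of_nonneg_right e6 (hF0 z)
        _ = _ := by ring
    · filter_upwards [ae_restrict_mem (hRm h hh)] with z hz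
      have e1 := hwR z hz
      have e2 := hF0 z
      show 0 ≤ (1 + 2 * τ) * ((L - μ z + 4 * C * ε + η) * F z)
      positivity
  have h3 : ∫ z in R h, (L - μ z + 4 * C * ε + η) * F z =
      (∫ z in R h, (L - μ z + 4 * C * ε) * F z) + η * ∫ z in R h, F z := by
    rw [← integral_const_mul, ← integral_add hwint0 (hFint.integrableOn.const_mul η)]
    refine integral_congr_ae (Eventually.of_forall fun z => ?_)
    simp only
    ring
  have h4 : ∫ z in R h, (L - μ z + 4 * C * ε + η) * F z ≤ B * ∫ z in R h, F z := by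
    rw [← integral_const_mul]
    refine integral_mono hwint (hFint.integrableOn.const_mul B) fun z => ?_
    exact mul_le_mul_of_nonneg_right (hwB z) (hF0 z)
  have h5 : (1 + 2 * τ) * ∫ z in R h, (L - μ z + 4 * C * ε + η) * F z ≤
      (∫ z in R h, (L - μ z + 4 * C * ε) * F z) + (δ / 4 + δ / 4) * h := by
    have e1 : η * ∫ z in R h, F z ≤ η * (A * h) := mul_le_mul_of_nonneg_left hFR hη0
    have e2 : 2 * τ * ∫ z in R h, (L - μ z + 4 * C * ε + η) * F z ≤ 2 * τ * (B * (A * h)) :=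
      mul_le_mul_of_nonneg_left (h4.trans (mul_le_mul_of_nonneg_left hFR hBpos.le))
        (by positivity)
    have e3 : η * (A * h) ≤ δ / 4 * h := by
      rw [← mul_assoc]
      exact mul_le_mul_of_nonneg_right hηA hh.le
    have e4 : 2 * τ * (B * (A * h)) ≤ δ / 4 * h := by
      rw [show 2 * τ * (B * (A * h)) = 2 * τ * B * A * h by ring]
      exact mul_le_mul_of_nonneg_right hτB hh.le
    rw [add_mul, one_mul]
    nlinarith [h3]
  have h6 : (2 * (j : ℝ) + 1) * ‖b‖ ^ 2 ≤ 1 / h * (16 ^ j *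
      ∫ z in {z | z ∈ U L ∧ 0 < ψ L z - ε ∧ ψ L z - ε < h * ((1 - τ) * χ z)},
        gr (fun z => ψ L z - ε) z / ((1 - τ) * χ z) * ‖Y j j z‖ ^ 2) + δ / 4 := by
    rw [hnorm]
    have e1 := mul_le_mul_of_nonneg_left h1 h16.le
    have e2 : 16 ^ j * (δ / (4 * 16 ^ j)) = δ / 4 := by field_simp
    calc (2 * (j : ℝ) + 1) * (16 ^ j * ∫ z in D, ‖Y j j z‖ ^ 2)
        = 16 ^ j * ((2 * (j : ℝ) + 1) * ∫ z in D, ‖Y j j z‖ ^ 2) := by ring
      _ ≤ _ := e1
      _ = _ := by rw [mul_add, e2]; ring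
  have h7 : 1 / h * (16 ^ j *
      ∫ z in {z | z ∈ U L ∧ 0 < ψ L z - ε ∧ ψ L z - ε < h * ((1 - τ) * χ z)},
        gr (fun z => ψ L z - ε) z / ((1 - τ) * χ z) * ‖Y j j z‖ ^ 2) ≤
      1 / h * (∫ z in R h, (L - μ z + 4 * C * ε) * F z) + (δ / 4 + δ / 4) := by
    have e1 : (0 : ℝ) ≤ 1 / h := by positivity
    have e2 := mul_le_mul_of_nonneg_left (h2.trans h5) e1
    rw [mul_add] at e2
    have e3 : 1 / h * ((δ / 4 + δ / 4) * h) = δ / 4 + δ / 4 := by field_simp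
    rw [e3] at e2
    exact e2
  linarith

end Pool.Agent.Lib.QNL.L85
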