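import Mathlib
import Pool.Agent.Lib.QNL.DV

/-!
Room QNL, module W (Pizzetti, Weyl), part a: radial kernels and the mean value
property of harmonic functions for them.
-/

set_option autoImplicit false

namespace Pool.Agent.Lib.QNL.W48

open MeasureTheory Filter Topology Set Metric
open scoped ContDiff Convolution

/-- the radial kernel of radius `t` -/
noncomputable def rk0 (t : ℝ) (z : ℂ) : ℝ := Real.smoothTransition (1 - ‖z‖ ^ 2 / t ^ 2)

noncomputable def rkI (t : ℝ) : ℝ := ∫ z : ℂ, rk0 t z

noncomputable def rk (t : ℝ) (z : ℂ) : ℝ := rk0 t z / rkI t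

lemma contDiff_rk0 (t : ℝ) : ContDiff ℝ ∞ (rk0 t) := by
  unfold rk0
  apply Real.smoothTransition.contDiff.comp
  exact contDiff_const.sub ((contDiff_norm_sq ℝ).div_const _)

lemma rk0_zero {t : ℝ} (ht : 0 < t) {z : ℂ} (hz : t ≤ ‖z‖) : rk0 t z = 0 := by
  unfold rk0
  apply Real.smoothTransition.zero_of_nonpos
  have : 1 ≤ ‖z‖ ^ 2 / t ^ 2 := by
    rw [le_div_iff₀ (by positivity)]
    nlinarith
  linarith

lemma rk0_nonneg (t : ℝ) (z : ℂ) : 0 ≤ rk0 t z := Real.smoothTransition.nonneg _

lemma rk0_pos {t : ℝ} (ht : 0 < t) {z : ℂ} (hz : ‖z‖ < t) : 0 < rk0 t z := by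
  unfold rk0
  apply Real.smoothTransition.pos_of_pos
  have : ‖z‖ ^ 2 / t ^ 2 < 1 := by
    rw [div_lt_one (by positivity)]
    have := norm_nonneg z
    nlinarith
  linarith

lemma supp_rk0 {t : ℝ} (ht : 0 < t) : Function.support (rk0 t) = ball 0 t := by
  ext z
  simp only [Function.mem_support, mem_ball_zero_iff]
  constructor
  · intro h
    by_contra h'
    exact h (rk0_zero ht (not_lt.1 h'))
  · intro h
    exact (rk0_pos ht h).ne'

lemma tsupp_rk0 {t : ℝ} (ht : 0 < t) : tsupport (rk0 t) = closedBall 0 t := by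
  rw [tsupport, supp_rk0 ht, closure_ball _ ht.ne']

lemma hcs_rk0 {t : ℝ} (ht : 0 < t) : HasCompactSupport (rk0 t) := by
  rw [HasCompactSupport, tsupp_rk0 ht]
  exact isCompact_closedBall _ _

lemma rkI_pos {t : ℝ} (ht : 0 < t) : 0 < rkI t := by
  unfold rkI
  rw [integral_pos_iff_support_of_nonneg (rk0_nonneg t)
    ((contDiff_rk0 t).continuous.integrable_of_hasCompactSupport (hcs_rk0 ht)), supp_rk0 ht]
  exact measure_ball_pos _ _ ht

lemma contDiff_rk (t : ℝ) : ContDiff ℝ ∞ (rk t) := (contDiff_rk0 t).div_const _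

lemma rk_zero {t : ℝ} (ht : 0 < t) {z : ℂ} (hz : t ≤ ‖z‖) : rk t z = 0 := by
  rw [rk, rk0_zero ht hz, zero_div]

lemma rk_nonneg {t : ℝ} (ht : 0 < t) (z : ℂ) : 0 ≤ rk t z := div_nonneg (rk0_nonneg t z) (rkI_pos ht).le

lemma hcs_rk {t : ℝ} (ht : 0 < t) : HasCompactSupport (rk t) :=
  HasCompactSupport.of_support_subset_isCompact (isCompact_closedBall 0 t) (by
    intro z hz
    rw [Function.mem_support] at hz
    by_contra h
    rw [mem_closedBall_zero_iff, not_le] at h
    exact hz (rk_zero ht h.le))

lemma tsupp_rk {t : ℝ} (ht : 0 < t) : tsupport (rk t) ⊆ closedBall 0 t := by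
  rw [tsupport]
  apply closure_minimal _ isClosed_closedBall
  intro z hz
  rw [Function.mem_support] at hz
  by_contra h
  rw [mem_closedBall_zero_iff, not_le] at h
  exact hz (rk_zero ht h.le)

lemma int_rk {t : ℝ} (ht : 0 < t) : ∫ z : ℂ, rk t z = 1 := by
  unfold rk
  rw [integral_div]
  exact div_self (rkI_pos ht).ne'

lemma rk_radial (t : ℝ) {z w : ℂ} (h : ‖z‖ = ‖w‖) : rk t z = rk t w := by
  unfold rk rk0
  rw [h]

variable {E : Type*} [NormedAddCommGroup E] [NormedSpace ℝ E]

/-- the integral over the plane of a radial kernel times a function whose circle integrals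
vanish -/
lemma radial_zero {t : ℝ} (ht : 0 < t) {h : ℂ → E} (hh : Continuous h)
    (hc : ∀ r : ℝ, 0 < r → r < t → ∫ θ in Ioo (-Real.pi) Real.pi,
      h (r * (Real.cos θ + Real.sin θ * Complex.I)) = 0) :
    ∫ z : ℂ, rk t z • h z = 0 := by
  rw [← Complex.integral_comp_polarCoord_symm (fun z : ℂ => rk t z • h z)]
  rw [show polarCoord.target = Ioi (0 : ℝ) ×ˢ Ioo (-Real.pi) Real.pi from rfl]
  have hcont : Continuous (fun p : ℝ × ℝ => p.1 • (rk t (Complex.polarCoord.symm p) •
      h (Complex.polarCoord.symm p))) := by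
    have h1 : Continuous (fun p : ℝ × ℝ => Complex.polarCoord.symm p) := by
      have : (fun p : ℝ × ℝ => Complex.polarCoord.symm p) =
          fun p => (p.1 : ℂ) * (Real.cos p.2 + Real.sin p.2 * Complex.I) := by
        funext p; exact Complex.polarCoord_symm_apply p
      rw [this]
      fun_prop
    exact continuous_fst.smul (((contDiff_rk t).continuous.comp h1).smul (hh.comp h1))
  have hint : IntegrableOn (fun p : ℝ × ℝ => p.1 • (rk t (Complex.polarCoord.symm p) •
      h (Complex.polarCoord.symm p))) (Ioi 0 ×ˢ Ioo (-Real.pi) Real.pi)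
      ((volume : Measure ℝ).prod (volume : Measure ℝ)) := by
    have h1 : IntegrableOn (fun p : ℝ × ℝ => p.1 • (rk t (Complex.polarCoord.symm p) •
      h (Complex.polarCoord.symm p))) (Icc 0 t ×ˢ Icc (-Real.pi) Real.pi)
      ((volume : Measure ℝ).prod (volume : Measure ℝ)) :=
      hcont.continuousOn.integrableOn_compact (isCompact_Icc.prod isCompact_Icc)
    have h2 : IntegrableOn (fun p : ℝ × ℝ => p.1 • (rk t (Complex.polarCoord.symm p) •
      h (Complex.polarCoord.symm p))) (Ici t ×ˢ Ioo (-Real.pi) Real.pi)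
      ((volume : Measure ℝ).prod (volume : Measure ℝ)) := by
      apply IntegrableOn.congr_fun (f := fun _ => (0 : E))
      · exact integrableOn_zero
      · rintro p ⟨hp, -⟩
        rw [mem_Ici] at hp
        simp only
        rw [rk_zero ht (by
          rw [Complex.norm_polarCoord_symm]
          exact hp.trans (le_abs_self _)), zero_smul, smul_zero]
      · exact measurableSet_Ici.prod measurableSet_Ioo
    refine (h1.union h2).mono_set ?_
    rintro p ⟨hp1, hp2⟩
    by_cases h : p.1 < t
    · exact Or.inl ⟨⟨le_of_lt hp1, h.le⟩, Ioo_subset_Icc_self hp2⟩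
    · exact Or.inr ⟨not_lt.1 h, hp2⟩
  rw [Measure.volume_eq_prod]
  rw [setIntegral_prod _ hint]
  apply setIntegral_eq_zero_of_forall_eq_zero
  intro r hr
  rw [mem_Ioi] at hr
  by_cases hrt : r < t
  · have h3 : ∀ θ : ℝ, (r, θ).1 • (rk t (Complex.polarCoord.symm (r, θ)) •
        h (Complex.polarCoord.symm (r, θ))) =
        (r * rk t (r : ℂ)) • h (r * (Real.cos θ + Real.sin θ * Complex.I)) := by
      intro θ
      rw [rk_radial t (z := Complex.polarCoord.symm (r, θ)) (w := (r : ℂ)) (by
        rw [Complex.norm_polarCoord_symm]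
        simp), Complex.polarCoord_symm_apply, smul_smul]
    simp_rw [h3]
    rw [integral_smul, hc r hr hrt, smul_zero]
  · have h3 : ∀ θ : ℝ, (r, θ).1 • (rk t (Complex.polarCoord.symm (r, θ)) •
        h (Complex.polarCoord.symm (r, θ))) = 0 := by
      intro θ
      rw [rk_zero ht (by
        rw [Complex.norm_polarCoord_symm]
        exact (not_lt.1 hrt).trans (le_abs_self _)), zero_smul, smul_zero]
    simp_rw [h3]
    simp

/-- the operator `lap` is the Laplacian of the library -/
lemma lap_eq {f : ℂ → E} {z : ℂ} (hf : ContDiffAt ℝ 2 f z) : lap f z = Laplacian.laplacian f z := by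
  rw [InnerProductSpace.laplacian_eq_iteratedFDeriv_complexPlane]
  have hd : DifferentiableAt ℝ (fderiv ℝ f) z :=
    (hf.fderiv_right (m := 1) (by norm_num)).differentiableAt (by norm_num)
  have h1 : ∀ v w : ℂ, dv v (dv w f) z = fderiv ℝ (fderiv ℝ f) z v w := by
    intro v w
    unfold dv
    have := fderiv_clm_apply hd (differentiableAt_const w)
    rw [this]
    simp
  unfold lap
  rw [dx_eq, dx_eq, dy_eq, dy_eq, h1, h1]
  simp [iteratedFDeriv_two_apply]

/-- **mean value property** for a radial kernel -/
lemma mean_rk [CompleteSpace E] {t : ℝ} (ht : 0 < t) {f : ℂ → E} (hf : ContDiff ℝ 2 f) {x : ℂ}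
    {r : ℝ} (htr : t ≤ r) (h0 : ∀ y ∈ ball x r, lap f y = 0) :
    ∫ y : ℂ, rk t y • f (x - y) = f x := by
  have h1 : ∫ y : ℂ, rk t y • (f (x - y) - f x) = 0 := by
    apply radial_zero ht
    · exact (hf.continuous.comp (continuous_const.sub continuous_id)).sub continuous_const
    · intro s hs hst
      have hharm : InnerProductSpace.HarmonicOnNhd f (closedBall x |s|) := by
        intro y hy
        have hy' : y ∈ ball x r := by
          rw [abs_of_pos hs] at hy
          exact lt_of_le_of_lt (mem_closedBall.1 hy) (hst.trans_le htr)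
        refine ⟨hf.contDiffAt, ?_⟩
        filter_upwards [isOpen_ball.mem_nhds hy'] with w hw
        rw [← lap_eq hf.contDiffAt, h0 w hw]
        rfl
      have hca := hharm.circleAverage_eq
      rw [Real.circleAverage_def] at hca
      have hcm : ∀ θ : ℝ, x - (s : ℂ) * (Real.cos θ + Real.sin θ * Complex.I) =
          circleMap x s (θ + Real.pi) := by
        intro θ
        rw [circleMap]
        push_cast
        rw [add_mul, Complex.exp_add, Complex.exp_pi_mul_I, Complex.exp_mul_I]
        ring
      have hcont : Continuous fun θ : ℝ => f (circleMap x s θ) :=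
        hf.continuous.comp (continuous_circleMap x s)
      have h3 : ∫ θ in Ioo (-Real.pi) Real.pi, f (x - s * (Real.cos θ + Real.sin θ * Complex.I)) =
          ∫ θ in (0 : ℝ)..2 * Real.pi, f (circleMap x s θ) := by
        rw [← integral_Ioc_eq_integral_Ioo,
          ← intervalIntegral.integral_of_le (by linarith [Real.pi_pos])]
        simp_rw [hcm]
        rw [intervalIntegral.integral_comp_add_right (fun θ => f (circleMap x s θ))]
        congr 1 <;> ring
      have hint : Integrable (fun θ : ℝ => f (x - s * (Real.cos θ + Real.sin θ * Complex.I)))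
          (volume.restrict (Ioo (-Real.pi) Real.pi)) := by
        have hc2 : Continuous fun θ : ℝ => f (x - s * (Real.cos θ + Real.sin θ * Complex.I)) := by
          simp_rw [hcm]
          exact hcont.comp (continuous_id.add continuous_const)
        exact (hc2.continuousOn.integrableOn_compact isCompact_Icc).mono_set Ioo_subset_Icc_self
      rw [integral_sub hint (integrable_const _), h3]
      have h4 : ∫ θ in (0 : ℝ)..2 * Real.pi, f (circleMap x s θ) = (2 * Real.pi) • f x := by
        rw [← hca, smul_smul, mul_inv_cancel₀ (by positivity), one_smul]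
      rw [h4]
      simp only [integral_const, measureReal_restrict_apply MeasurableSet.univ, univ_inter,
        Real.volume_real_Ioo_of_le (by linarith [Real.pi_pos] : -Real.pi ≤ Real.pi)]
      rw [sub_eq_zero]
      congr 1
      ring
  have h2 : Integrable (fun y : ℂ => rk t y • f (x - y)) := by
    apply Continuous.integrable_of_hasCompactSupport
    · exact (contDiff_rk t).continuous.smul
        (hf.continuous.comp (continuous_const.sub continuous_id))
    · exact (hcs_rk ht).smul_right
  have h3 : Integrable (fun y : ℂ => rk t y • f x) := by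
    apply Continuous.integrable_of_hasCompactSupport
    · exact (contDiff_rk t).continuous.smul continuous_const
    · exact (hcs_rk ht).smul_right
  simp_rw [smul_sub] at h1
  rw [integral_sub h2 h3, integral_smul_const, int_rk ht, one_smul, sub_eq_zero] at h1
  exact h1

end Pool.Agent.Lib.QNL.W48
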