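import Mathlib
import Pool.Agent.Lib.QNL.W48a

/-!
Room QNL, module W (Pizzetti, Weyl), part b: convolution of a real kernel with a vector valued
function; derivatives, associativity.
-/

set_option autoImplicit false

namespace Pool.Agent.Lib.QNL.W48

open MeasureTheory Filter Topology Set Metric ContinuousLinearMap
open scoped ContDiff Convolution

variable {E : Type*} [NormedAddCommGroup E] [NormedSpace ℝ E]

/-- convolution of a real kernel with a vector-valued function -/
noncomputable def cv (β : ℂ → ℝ) (f : ℂ → E) : ℂ → E := fun x => ∫ y : ℂ, β y • f (x - y)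

lemma cv_eq (β : ℂ → ℝ) (f : ℂ → E) : cv β f = β ⋆[lsmul ℝ ℝ, volume] f := rfl

lemma cv_swap (β : ℂ → ℝ) (f : ℂ → E) (x : ℂ) : cv β f x = ∫ y : ℂ, β (x - y) • f y := by
  rw [cv_eq, convolution_eq_swap]
  rfl

lemma cv_comm (β γ : ℂ → ℝ) : cv β γ = cv γ β := by
  funext x
  rw [cv_swap]
  unfold cv
  apply integral_congr_ae
  filter_upwards with y
  simp only [smul_eq_mul]
  ring

lemma contDiff_cv {β : ℂ → ℝ} (hβ : ContDiff ℝ ∞ β) (hc : HasCompactSupport β) {f : ℂ → E}
    (hf : LocallyIntegrable f volume) : ContDiff ℝ ∞ (cv β f) := by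
  rw [cv_eq]
  exact hc.contDiff_convolution_left (lsmul ℝ ℝ) hβ hf

lemma hcs_cv {β : ℂ → ℝ} (hc : HasCompactSupport β) {f : ℂ → E}
    (hf : HasCompactSupport f) : HasCompactSupport (cv β f) := by
  rw [cv_eq]
  exact hc.convolution (lsmul ℝ ℝ) hf

lemma dv_cv_right {β : ℂ → ℝ} (hβ : LocallyIntegrable β volume) {F : ℂ → E}
    (hF : ContDiff ℝ 1 F) (hc : HasCompactSupport F) (v : ℂ) :
    dv v (cv β F) = cv β (dv v F) := by
  funext x
  unfold dv
  rw [cv_eq, (hc.hasFDerivAt_convolution_right (lsmul ℝ ℝ) hβ hF x).fderiv]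
  rw [convolution_precompR_apply (lsmul ℝ ℝ) hβ (hc.fderiv (𝕜 := ℝ))
    (hF.continuous_fderiv (by norm_num))]
  rfl

lemma dv_cv_left {β : ℂ → ℝ} (hβ : ContDiff ℝ 1 β) (hc : HasCompactSupport β) {f : ℂ → E}
    (hf : LocallyIntegrable f volume) (v : ℂ) : dv v (cv β f) = cv (dv v β) f := by
  funext x
  unfold dv
  rw [cv_eq, ← convolution_flip (lsmul ℝ ℝ)]
  rw [(hc.hasFDerivAt_convolution_right (lsmul ℝ ℝ).flip hf hβ x).fderiv]
  rw [convolution_precompR_apply (lsmul ℝ ℝ).flip hf (hc.fderiv (𝕜 := ℝ))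
    (hβ.continuous_fderiv (by norm_num)), convolution_flip (lsmul ℝ ℝ)]
  rfl

section smoothness

lemma contDiff_dv {f : ℂ → E} (hf : ContDiff ℝ ∞ f) (v : ℂ) : ContDiff ℝ ∞ (dv v f) :=
  (hf.fderiv_right (m := ∞) (by simp)).clm_apply contDiff_const

lemma hcs_dv {f : ℂ → E} (hf : HasCompactSupport f) (v : ℂ) : HasCompactSupport (dv v f) := by
  have := hf.fderiv (𝕜 := ℝ)
  exact this.comp_left (g := fun L : ℂ →L[ℝ] E => L v) (by simp)

lemma tsupp_dv (f : ℂ → E) (v : ℂ) : tsupport (dv v f) ⊆ tsupport f := by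
  refine (closure_mono ?_).trans (tsupport_fderiv_subset ℝ (f := f))
  intro z hz
  rw [Function.mem_support] at hz ⊢
  intro h
  apply hz
  unfold dv
  rw [h]
  rfl

lemma contDiff_lap {f : ℂ → E} (hf : ContDiff ℝ ∞ f) : ContDiff ℝ ∞ (lap f) := by
  have h1 := contDiff_dv (contDiff_dv hf 1) 1
  have h2 := contDiff_dv (contDiff_dv hf Complex.I) Complex.I
  exact h1.add h2

lemma lap_eq_add (f : ℂ → E) : lap f = dv 1 (dv 1 f) + dv Complex.I (dv Complex.I f) := rfl

lemma hcs_lap {f : ℂ → E} (hf : HasCompactSupport f) : HasCompactSupport (lap f) := by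
  rw [lap_eq_add]
  exact (hcs_dv (hcs_dv hf 1) 1).add (hcs_dv (hcs_dv hf Complex.I) Complex.I)

lemma tsupp_lap (f : ℂ → E) : tsupport (lap f) ⊆ tsupport f := by
  rw [lap_eq_add]
  refine (tsupport_add _ _).trans (union_subset ?_ ?_)
  · exact (tsupp_dv _ _).trans (tsupp_dv _ _)
  · exact (tsupp_dv _ _).trans (tsupp_dv _ _)

lemma contDiff_lapn {f : ℂ → E} (hf : ContDiff ℝ ∞ f) (m : ℕ) : ContDiff ℝ ∞ (lap^[m] f) := by
  induction m with
  | zero => exact hf
  | succ m ih => rw [Function.iterate_succ_apply']; exact contDiff_lap ih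

lemma hcs_lapn {f : ℂ → E} (hf : HasCompactSupport f) (m : ℕ) : HasCompactSupport (lap^[m] f) := by
  induction m with
  | zero => exact hf
  | succ m ih => rw [Function.iterate_succ_apply']; exact hcs_lap ih

lemma tsupp_lapn (f : ℂ → E) (m : ℕ) : tsupport (lap^[m] f) ⊆ tsupport f := by
  induction m with
  | zero => exact subset_rfl
  | succ m ih => rw [Function.iterate_succ_apply']; exact (tsupp_lap _).trans ih

end smoothness

lemma cv_add_left {β γ : ℂ → ℝ} (hβ : ContDiff ℝ ∞ β) (hβc : HasCompactSupport β)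
    (hγ : ContDiff ℝ ∞ γ) (hγc : HasCompactSupport γ) {f : ℂ → E}
    (hf : LocallyIntegrable f volume) : cv (β + γ) f = cv β f + cv γ f := by
  funext x
  have h1 := hβc.convolutionExists_left (lsmul ℝ ℝ) hβ.continuous hf x
  have h2 := hγc.convolutionExists_left (lsmul ℝ ℝ) hγ.continuous hf x
  exact h1.add_distrib h2

lemma cv_sub_left {β γ : ℂ → ℝ} (hβ : ContDiff ℝ ∞ β) (hβc : HasCompactSupport β)
    (hγ : ContDiff ℝ ∞ γ) (hγc : HasCompactSupport γ) {f : ℂ → E}
    (hf : LocallyIntegrable f volume) : cv (β - γ) f = cv β f - cv γ f := by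
  funext x
  have h1 : Integrable (fun y => β y • f (x - y)) :=
    hβc.convolutionExists_left (lsmul ℝ ℝ) hβ.continuous hf x
  have h2 : Integrable (fun y => γ y • f (x - y)) :=
    hγc.convolutionExists_left (lsmul ℝ ℝ) hγ.continuous hf x
  unfold cv
  simp only [Pi.sub_apply, sub_smul]
  rw [integral_sub h1 h2]

lemma cv_add_right {β : ℂ → ℝ} (hβ : ContDiff ℝ ∞ β) (hβc : HasCompactSupport β)
    {f g : ℂ → E} (hf : LocallyIntegrable f volume) (hg : LocallyIntegrable g volume) :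
    cv β (f + g) = cv β f + cv β g := by
  funext x
  have h1 : Integrable (fun y => β y • f (x - y)) :=
    hβc.convolutionExists_left (lsmul ℝ ℝ) hβ.continuous hf x
  have h2 : Integrable (fun y => β y • g (x - y)) :=
    hβc.convolutionExists_left (lsmul ℝ ℝ) hβ.continuous hg x
  unfold cv
  simp only [Pi.add_apply, smul_add]
  rw [integral_add h1 h2]

lemma cv_sub_right {β : ℂ → ℝ} (hβ : ContDiff ℝ ∞ β) (hβc : HasCompactSupport β)
    {f g : ℂ → E} (hf : LocallyIntegrable f volume) (hg : LocallyIntegrable g volume) :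
    cv β (f - g) = cv β f - cv β g := by
  funext x
  have h1 : Integrable (fun y => β y • f (x - y)) :=
    hβc.convolutionExists_left (lsmul ℝ ℝ) hβ.continuous hf x
  have h2 : Integrable (fun y => β y • g (x - y)) :=
    hβc.convolutionExists_left (lsmul ℝ ℝ) hβ.continuous hg x
  unfold cv
  simp only [Pi.sub_apply, smul_sub]
  rw [integral_sub h1 h2]

lemma lap_cv_right {β : ℂ → ℝ} (hβ : ContDiff ℝ ∞ β) (hβc : HasCompactSupport β) {F : ℂ → E}
    (hF : ContDiff ℝ ∞ F) (hc : HasCompactSupport F) : lap (cv β F) = cv β (lap F) := by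
  have hl := hβ.continuous.locallyIntegrable (μ := volume)
  have h1 : ∀ v : ℂ, dv v (dv v (cv β F)) = cv β (dv v (dv v F)) := by
    intro v
    rw [dv_cv_right hl (hF.of_le (by simp)) hc, dv_cv_right hl ((contDiff_dv hF v).of_le (by simp))
      (hcs_dv hc v)]
  rw [lap_eq_add, lap_eq_add, h1, h1, cv_add_right hβ hβc]
  · exact (contDiff_dv (contDiff_dv hF 1) 1).continuous.locallyIntegrable
  · exact (contDiff_dv (contDiff_dv hF Complex.I) Complex.I).continuous.locallyIntegrable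

lemma lapn_cv_right {β : ℂ → ℝ} (hβ : ContDiff ℝ ∞ β) (hβc : HasCompactSupport β) {F : ℂ → E}
    (hF : ContDiff ℝ ∞ F) (hc : HasCompactSupport F) (m : ℕ) :
    lap^[m] (cv β F) = cv β (lap^[m] F) := by
  induction m with
  | zero => rfl
  | succ m ih =>
    rw [Function.iterate_succ_apply', Function.iterate_succ_apply', ih,
      lap_cv_right hβ hβc (contDiff_lapn hF m) (hcs_lapn hc m)]

lemma lap_cv_left {β : ℂ → ℝ} (hβ : ContDiff ℝ ∞ β) (hβc : HasCompactSupport β) {f : ℂ → E}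
    (hf : LocallyIntegrable f volume) : lap (cv β f) = cv (lap β) f := by
  have h1 : ∀ v : ℂ, dv v (dv v (cv β f)) = cv (dv v (dv v β)) f := by
    intro v
    rw [dv_cv_left (hβ.of_le (by simp)) hβc hf, dv_cv_left ((contDiff_dv hβ v).of_le (by simp))
      (hcs_dv hβc v) hf]
  rw [lap_eq_add, lap_eq_add, h1, h1, cv_add_left (contDiff_dv (contDiff_dv hβ 1) 1)
    (hcs_dv (hcs_dv hβc 1) 1) (contDiff_dv (contDiff_dv hβ Complex.I) Complex.I)
    (hcs_dv (hcs_dv hβc Complex.I) Complex.I) hf]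

lemma lapn_cv_left {β : ℂ → ℝ} (hβ : ContDiff ℝ ∞ β) (hβc : HasCompactSupport β) {f : ℂ → E}
    (hf : LocallyIntegrable f volume) (m : ℕ) : lap^[m] (cv β f) = cv (lap^[m] β) f := by
  induction m with
  | zero => rfl
  | succ m ih =>
    rw [Function.iterate_succ_apply', Function.iterate_succ_apply', ih,
      lap_cv_left (contDiff_lapn hβ m) (hcs_lapn hβc m) hf]

omit [NormedSpace ℝ E] in
lemma locInt_norm {f : ℂ → E} (hf : LocallyIntegrable f volume) :
    LocallyIntegrable (fun x => ‖f x‖) volume := by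
  intro x
  obtain ⟨s, hs, h⟩ := hf x
  exact ⟨s, hs, h.norm⟩

lemma cv_assoc [CompleteSpace E] {β γ : ℂ → ℝ} (hβ : ContDiff ℝ ∞ β) (hβc : HasCompactSupport β)
    (hγ : ContDiff ℝ ∞ γ) (hγc : HasCompactSupport γ) {f : ℂ → E}
    (hf : LocallyIntegrable f volume) : cv β (cv γ f) = cv (cv β γ) f := by
  funext x
  have := convolution_assoc (μ := (volume : Measure ℂ)) (ν := (volume : Measure ℂ))
    (lsmul ℝ ℝ : ℝ →L[ℝ] ℝ →L[ℝ] ℝ) (lsmul ℝ ℝ : ℝ →L[ℝ] E →L[ℝ] E)
    (lsmul ℝ ℝ : ℝ →L[ℝ] E →L[ℝ] E) (lsmul ℝ ℝ : ℝ →L[ℝ] E →L[ℝ] E) (f := β) (g := γ) (k := f)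
    (by intro a b c; simp [smul_smul, mul_comm]) (x₀ := x) hβ.continuous.aestronglyMeasurable
    hγ.continuous.aestronglyMeasurable hf.aestronglyMeasurable
    (Eventually.of_forall fun y => hβc.convolutionExists_left (lsmul ℝ ℝ) hβ.continuous
      (hγ.continuous.locallyIntegrable) y)
    (Eventually.of_forall fun y => hγc.norm.convolutionExists_left (mul ℝ ℝ) hγ.continuous.norm
      (locInt_norm hf) y)
    (hβc.norm.convolutionExists_left (mul ℝ ℝ) hβ.continuous.norm
      (HasCompactSupport.continuous_convolution_left (mul ℝ ℝ) hγc.norm hγ.continuous.norm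
        (locInt_norm hf)).locallyIntegrable x)
  exact this.symm

end Pool.Agent.Lib.QNL.W48
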