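import Mathlib
import Pool.Agent.Lib.QNL.W48b

/-!
Room QNL, module W (Pizzetti, Weyl), part c: a kernel which reproduces `m`-harmonic functions;
Weyl's lemma for `lap^[m]` in a small disc.
-/

set_option autoImplicit false

namespace Pool.Agent.Lib.QNL.W48

open MeasureTheory Filter Topology Set Metric ContinuousLinearMap
open scoped ContDiff Convolution

variable {E : Type*} [NormedAddCommGroup E] [NormedSpace ℝ E]

/-- a kernel which reproduces `m`-harmonic functions -/
noncomputable def ker : ℕ → ℝ → ℂ → ℝ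
  | 0, _ => 0
  | m + 1, t => rk (t / 2) + ker m (t / 2) - cv (ker m (t / 2)) (rk (t / 2))

lemma supp_ball_of_tsupp {β : ℂ → ℝ} {s : ℝ} (h : tsupport β ⊆ closedBall 0 s) {z : ℂ}
    (hz : β z ≠ 0) : ‖z‖ ≤ s := by
  have := h (subset_tsupport β hz)
  rwa [mem_closedBall_zero_iff] at this

omit [NormedSpace ℝ E] in
lemma hcs_of_tsupp {β : ℂ → E} {s : ℝ} {x : ℂ} (h : tsupport β ⊆ closedBall x s) :
    HasCompactSupport β :=
  (isCompact_closedBall x s).of_isClosed_subset (isClosed_tsupport β) h

lemma ker_prop (m : ℕ) : ∀ {t : ℝ}, 0 < t →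
    ContDiff ℝ ∞ (ker m t) ∧ tsupport (ker m t) ⊆ closedBall 0 t := by
  induction m with
  | zero =>
    intro t ht
    refine ⟨contDiff_const, ?_⟩
    have : tsupport (ker 0 t) = ∅ := by
      rw [tsupport_eq_empty_iff]; rfl
    rw [this]
    exact empty_subset _
  | succ m ih =>
    intro t ht
    obtain ⟨h1, h2⟩ := ih (half_pos ht)
    have h3 := hcs_of_tsupp h2
    have h4 := contDiff_rk (t / 2)
    have h5 := hcs_rk (half_pos ht)
    have h6 := tsupp_rk (half_pos ht)
    have h7 : ContDiff ℝ ∞ (cv (ker m (t / 2)) (rk (t / 2))) :=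
      contDiff_cv h1 h3 h4.continuous.locallyIntegrable
    refine ⟨(h4.add h1).sub h7, ?_⟩
    apply closure_minimal _ isClosed_closedBall
    intro z hz
    rw [Function.mem_support] at hz
    rw [mem_closedBall_zero_iff]
    by_contra hz'
    rw [not_le] at hz'
    apply hz
    have e1 : rk (t / 2) z = 0 := rk_zero (half_pos ht) (by linarith)
    have e2 : ker m (t / 2) z = 0 := by
      by_contra hne
      have := supp_ball_of_tsupp h2 hne
      linarith
    have e3 : cv (ker m (t / 2)) (rk (t / 2)) z = 0 := by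
      unfold cv
      apply integral_eq_zero_of_ae
      filter_upwards with y
      by_cases hy : ker m (t / 2) y = 0
      · simp [hy]
      · have h8 := supp_ball_of_tsupp h2 hy
        have h9 : t / 2 ≤ ‖z - y‖ := by
          have := norm_sub_norm_le z y
          linarith
        simp [rk_zero (half_pos ht) h9]
    change rk (t / 2) z + ker m (t / 2) z - cv (ker m (t / 2)) (rk (t / 2)) z = 0
    rw [e1, e2, e3]
    ring

lemma lap_sub {f g : ℂ → E} (hf : ContDiff ℝ ∞ f) (hg : ContDiff ℝ ∞ g) :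
    lap (f - g) = lap f - lap g := by
  have h1 : ∀ v : ℂ, ∀ {f g : ℂ → E}, ContDiff ℝ ∞ f → ContDiff ℝ ∞ g →
      dv v (f - g) = dv v f - dv v g := by
    intro v f g hf hg
    funext z
    unfold dv
    rw [fderiv_sub (hf.differentiable (by simp) z) (hg.differentiable (by simp) z)]
    rfl
  rw [lap_eq_add, lap_eq_add, lap_eq_add, h1 1 hf hg, h1 _ hf hg,
    h1 1 (contDiff_dv hf 1) (contDiff_dv hg 1),
    h1 _ (contDiff_dv hf Complex.I) (contDiff_dv hg Complex.I)]
  abel

lemma lapn_sub {f g : ℂ → E} (hf : ContDiff ℝ ∞ f) (hg : ContDiff ℝ ∞ g) (m : ℕ) :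
    lap^[m] (f - g) = lap^[m] f - lap^[m] g := by
  induction m with
  | zero => rfl
  | succ m ih =>
    rw [Function.iterate_succ_apply', Function.iterate_succ_apply', Function.iterate_succ_apply',
      ih, lap_sub (contDiff_lapn hf m) (contDiff_lapn hg m)]

/-- **(W1)** the kernel `ker m t` reproduces functions which are `m`-harmonic near the disc -/
theorem ker_rep [CompleteSpace E] (m : ℕ) : ∀ {t : ℝ}, 0 < t → ∀ {F : ℂ → E},
    ContDiff ℝ ∞ F → HasCompactSupport F → ∀ {x : ℂ} {r : ℝ}, t < r →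
    (∀ y ∈ ball x r, lap^[m] F y = 0) → cv (ker m t) F x = F x := by
  induction m with
  | zero =>
    intro t ht F hF hc x r htr h0
    have h1 : F x = 0 := h0 x (mem_ball_self (ht.trans htr))
    rw [h1]
    unfold cv ker
    simp
  | succ m ih =>
    intro t ht F hF hc x r htr h0
    obtain ⟨h1, h2⟩ := ker_prop m (half_pos ht)
    have h3 := hcs_of_tsupp h2
    have h4 := contDiff_rk (t / 2)
    have h5 := hcs_rk (half_pos ht)
    have hFl : LocallyIntegrable F volume := hF.continuous.locallyIntegrable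
    have hb : ContDiff ℝ ∞ (cv (rk (t / 2)) F) := contDiff_cv h4 h5 hFl
    have hbc : HasCompactSupport (cv (rk (t / 2)) F) := hcs_cv h5 hc
    have h6 : cv (ker m (t / 2)) (F - cv (rk (t / 2)) F) x = (F - cv (rk (t / 2)) F) x := by
      apply ih (half_pos ht) (hF.sub hb) (hc.sub hbc) (r := r - t / 2) (by linarith)
      intro y hy
      change lap^[m] (F - cv (rk (t / 2)) F) y = 0
      rw [lapn_sub hF hb, lapn_cv_right h4 h5 hF hc, Pi.sub_apply, sub_eq_zero]
      symm
      apply mean_rk (half_pos ht) (contDiff_infty.1 (contDiff_lapn hF m) 2) (le_refl (t / 2))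
      intro w hw
      have := h0 w (by
        rw [mem_ball] at hw hy ⊢
        linarith [dist_triangle w y x])
      rwa [Function.iterate_succ_apply'] at this
    have h7 : cv (ker (m + 1) t) F = cv (rk (t / 2)) F + cv (ker m (t / 2)) F
        - cv (cv (ker m (t / 2)) (rk (t / 2))) F := by
      have h8 := contDiff_cv h1 h3 (h4.continuous.locallyIntegrable (μ := volume))
      have h9 : HasCompactSupport (cv (ker m (t / 2)) (rk (t / 2))) := hcs_cv h3 h5
      change cv (rk (t / 2) + ker m (t / 2) - cv (ker m (t / 2)) (rk (t / 2))) F = _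
      have h10 : ContDiff ℝ ∞ (rk (t / 2) + ker m (t / 2)) := h4.add h1
      rw [cv_sub_left h10 (h5.add h3) h8 h9 hFl, cv_add_left h4 h5 h1 h3 hFl]
    rw [h7, ← cv_assoc h1 h3 h4 h5 hFl]
    rw [cv_sub_right h1 h3 hFl hb.continuous.locallyIntegrable] at h6
    simp only [Pi.sub_apply, Pi.add_apply] at h6 ⊢
    rw [add_sub_assoc, h6]
    abel

lemma dv_refl {f : ℂ → E} (hf : ContDiff ℝ ∞ f) (x v : ℂ) :
    dv v (fun y => f (x - y)) = fun y => - dv v f (x - y) := by
  funext y
  unfold dv
  have h1 : HasFDerivAt (fun y : ℂ => x - y) (-(ContinuousLinearMap.id ℝ ℂ)) y := by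
    have := (hasFDerivAt_const (𝕜 := ℝ) x y).sub (hasFDerivAt_id (𝕜 := ℝ) y)
    simpa using! this
  have h2 := ((hf.differentiable (by simp) (x - y)).hasFDerivAt).comp y h1
  have h3 : fderiv ℝ (fun y => f (x - y)) y = _ := h2.fderiv
  rw [h3]
  simp

lemma lap_refl {f : ℂ → E} (hf : ContDiff ℝ ∞ f) (x : ℂ) :
    lap (fun y => f (x - y)) = fun y => lap f (x - y) := by
  have h1 : ∀ v : ℂ, dv v (dv v (fun y => f (x - y))) = fun y => dv v (dv v f) (x - y) := by
    intro v
    rw [dv_refl hf]
    have h2 : dv v (fun y => - dv v f (x - y)) = fun y => - dv v (fun y => dv v f (x - y)) y := by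
      funext y
      unfold dv
      rw [show (fun y => - (fderiv ℝ f (x - y)) v) = - (fun y => (fderiv ℝ f (x - y)) v) from rfl,
        fderiv_neg]
      rfl
    rw [h2, dv_refl (contDiff_dv hf v)]
    funext y
    simp
  rw [lap_eq_add, h1, h1]
  rfl

lemma lapn_refl {f : ℂ → E} (hf : ContDiff ℝ ∞ f) (x : ℂ) (m : ℕ) :
    lap^[m] (fun y => f (x - y)) = fun y => lap^[m] f (x - y) := by
  induction m with
  | zero => rfl
  | succ m ih =>
    rw [Function.iterate_succ_apply', ih, lap_refl (contDiff_lapn hf m), Function.iterate_succ_apply']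

/-- the hypothesis of Weyl's lemma: `f` is weakly `m`-harmonic in `D` -/
def WeakH (m : ℕ) (D : Set ℂ) (f : ℂ → E) : Prop :=
  ∀ φ : ℂ → ℝ, ContDiff ℝ ∞ φ → HasCompactSupport φ → tsupport φ ⊆ D →
    ∫ z, (lap^[m] φ z) • f z = 0

lemma lapn_cv_zero {m : ℕ} {x0 : ℂ} {R : ℝ} {f : ℂ → E}
    (hf : IntegrableOn f (closedBall x0 R)) (h : WeakH m (ball x0 R) f) {β : ℂ → ℝ}
    (hβ : ContDiff ℝ ∞ β) {s : ℝ} (hs : tsupport β ⊆ closedBall 0 s) {x : ℂ}
    (hx : closedBall x s ⊆ ball x0 R) :
    lap^[m] (cv β ((closedBall x0 R).indicator f)) x = 0 := by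
  have hi : Integrable ((closedBall x0 R).indicator f) :=
    hf.integrable_indicator isClosed_closedBall.measurableSet
  rw [lapn_cv_left hβ (hcs_of_tsupp hs) hi.locallyIntegrable, cv_swap]
  have hψ : ContDiff ℝ ∞ (fun y => β (x - y)) := hβ.comp (contDiff_const.sub contDiff_id)
  have hts : tsupport (fun y => β (x - y)) ⊆ closedBall x s := by
    apply closure_minimal _ isClosed_closedBall
    intro y hy
    rw [Function.mem_support] at hy
    have := supp_ball_of_tsupp hs hy
    rw [mem_closedBall, dist_comm, dist_eq_norm]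
    exact this
  have h1 := h _ hψ (hcs_of_tsupp hts) (hts.trans hx)
  rw [← h1]
  apply integral_congr_ae
  filter_upwards with y
  have e : lap^[m] (fun y => β (x - y)) y = lap^[m] β (x - y) := congrFun (lapn_refl hβ x m) y
  rw [e]
  by_cases hy : y ∈ closedBall x0 R
  · rw [indicator_of_mem hy]
  · rw [indicator_of_notMem hy]
    have h2 : lap^[m] β (x - y) = 0 := by
      rw [← e]
      by_contra hne
      have h3 := tsupp_lapn _ m (subset_tsupport _ hne)
      exact hy (ball_subset_closedBall (hx (hts h3)))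
    rw [h2, zero_smul, zero_smul]

end Pool.Agent.Lib.QNL.W48
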