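import Mathlib
import Pool.Agent.Lib.QNL.W48c

/-!
Room QNL, module W: **Weyl's lemma** for `lap^[m]`, general `m`: a locally integrable function
which is weakly `m`-harmonic in an open set of the plane is a.e. equal to a smooth function `g`
with `lap^[m] g = 0`.
-/

set_option autoImplicit false

namespace Pool.Agent.Lib.QNL.W48

open MeasureTheory Filter Topology Set Metric ContinuousLinearMap
open scoped ContDiff Convolution

variable {E : Type*} [NormedAddCommGroup E] [NormedSpace ℝ E]

/-- the standard sequence of bumps -/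
noncomputable def bmp (t : ℝ) (ht : 0 < t) (i : ℕ) : ContDiffBump (0 : ℂ) where
  rIn := t / (2 * (i + 1))
  rOut := t / (i + 1)
  rIn_pos := by positivity
  rIn_lt_rOut := by
    apply div_lt_div_of_pos_left ht (by positivity)
    have : (0 : ℝ) < i + 1 := by positivity
    linarith

lemma bmp_tendsto (t : ℝ) (ht : 0 < t) :
    Tendsto (fun i => (bmp t ht i).rOut) atTop (𝓝 0) := by
  change Tendsto (fun i : ℕ => t / ((i : ℝ) + 1)) atTop (𝓝 0)
  exact (tendsto_const_div_atTop_nhds_zero_nat t).comp (tendsto_add_atTop_nat 1) |>.congr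
    (by intro i; simp)

lemma bmp_ratio (t : ℝ) (ht : 0 < t) (i : ℕ) :
    (bmp t ht i).rOut ≤ 2 * (bmp t ht i).rIn := by
  change t / ((i : ℝ) + 1) ≤ 2 * (t / (2 * (i + 1)))
  apply le_of_eq
  field_simp

lemma bmp_le (t : ℝ) (ht : 0 < t) (i : ℕ) : (bmp t ht i).rOut ≤ t := by
  change t / ((i : ℝ) + 1) ≤ t
  apply div_le_self ht.le
  have : (0 : ℝ) ≤ i := by positivity
  linarith

lemma bmp_tsupp (t : ℝ) (ht : 0 < t) (i : ℕ) :
    tsupport ((bmp t ht i).normed volume) ⊆ closedBall 0 t := by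
  rw [ContDiffBump.tsupport_normed_eq]
  exact closedBall_subset_closedBall (bmp_le t ht i)

/-- Weyl's lemma in a disc -/
theorem weyl_ball [CompleteSpace E] {m : ℕ} {x0 : ℂ} {R : ℝ} (hR : 0 < R) {f : ℂ → E}
    (hf : IntegrableOn f (closedBall x0 R)) (h : WeakH m (ball x0 R) f) :
    ∃ g : ℂ → E, ContDiff ℝ ∞ g ∧ (∀ z ∈ ball x0 (R / 2), lap^[m] g z = 0) ∧
      ∀ᵐ z, z ∈ ball x0 (R / 2) → f z = g z := by
  have hi : Integrable ((closedBall x0 R).indicator f) :=
    hf.integrable_indicator isClosed_closedBall.measurableSet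
  have hil := hi.locallyIntegrable
  have hic : HasCompactSupport ((closedBall x0 R).indicator f) := by
    apply HasCompactSupport.of_support_subset_isCompact (isCompact_closedBall x0 R)
    exact support_indicator_subset
  set t := R / 8 with htdef
  have ht : 0 < t := by positivity
  obtain ⟨hk1, hk2⟩ := ker_prop m ht
  have hkc := hcs_of_tsupp hk2
  refine ⟨cv (ker m t) ((closedBall x0 R).indicator f), contDiff_cv hk1 hkc hil, ?_, ?_⟩
  · intro z hz
    apply lapn_cv_zero hf h hk1 hk2
    intro w hw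
    rw [mem_ball] at hz ⊢
    rw [mem_closedBall] at hw
    linarith [dist_triangle w z x0]
  · have h1 := ContDiffBump.ae_convolution_tendsto_right_of_locallyIntegrable
      (φ := bmp t ht) (l := atTop) (K := 2) (bmp_tendsto t ht)
      (Eventually.of_forall (bmp_ratio t ht)) hil
    filter_upwards [h1] with z hz1 hz
    have hzR : z ∈ closedBall x0 R := by
      rw [mem_ball] at hz
      rw [mem_closedBall]
      linarith
    have h2 := ContDiffBump.convolution_tendsto_right_of_continuous (μ := (volume : Measure ℂ))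
      (φ := bmp t ht) (l := atTop) (bmp_tendsto t ht) (contDiff_cv hk1 hkc hil).continuous z
    rw [indicator_of_mem hzR] at hz1
    refine tendsto_nhds_unique hz1 (h2.congr fun i => ?_)
    set N := (bmp t ht i).normed volume with hN
    have hN1 : ContDiff ℝ ∞ N := (bmp t ht i).contDiff_normed
    have hN2 : tsupport N ⊆ closedBall 0 t := bmp_tsupp t ht i
    have hN3 := hcs_of_tsupp hN2
    change cv N (cv (ker m t) _) z = cv N _ z
    rw [cv_assoc hN1 hN3 hk1 hkc hil, cv_comm, ← cv_assoc hk1 hkc hN1 hN3 hil]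
    apply ker_rep m ht (contDiff_cv hN1 hN3 hil) (hcs_cv hN3 hic) (r := R / 4) (by linarith)
    intro y hy
    apply lapn_cv_zero hf h hN1 hN2
    intro w hw
    rw [mem_ball] at hz hy ⊢
    rw [mem_closedBall] at hw
    linarith [dist_triangle w y x0, dist_triangle y z x0]

/-- `lap^[m]` is local -/
lemma lapn_congr {f g : ℂ → E} {U : Set ℂ} (hU : IsOpen U) (h : EqOn f g U) (m : ℕ) :
    EqOn (lap^[m] f) (lap^[m] g) U := by
  have hd : ∀ v : ℂ, ∀ {f g : ℂ → E}, EqOn f g U → EqOn (dv v f) (dv v g) U := by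
    intro v f g h z hz
    unfold dv
    rw [(h.eventuallyEq_of_mem (hU.mem_nhds hz)).fderiv_eq]
  induction m with
  | zero => exact h
  | succ m ih =>
    rw [Function.iterate_succ_apply', Function.iterate_succ_apply']
    intro z hz
    have h1 := hd 1 (hd 1 ih) hz
    have h2 := hd Complex.I (hd Complex.I ih) hz
    rw [lap_eq_add, lap_eq_add, Pi.add_apply, Pi.add_apply, h1, h2]

/-- **Weyl's lemma** for `lap^[m]` -/
theorem weyl [CompleteSpace E] {D : Set ℂ} (hD : IsOpen D) (m : ℕ) {f : ℂ → E}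
    (hf : LocallyIntegrableOn f D volume) (h : WeakH m D f) :
    ∃ g : ℂ → E, ContDiffOn ℝ ∞ g D ∧ (∀ z ∈ D, lap^[m] g z = 0) ∧
      ∀ᵐ z, z ∈ D → f z = g z := by
  classical
  have hloc : ∀ x : ℂ, ∃ r : ℝ, ∃ g : ℂ → E, x ∈ D → (0 < r ∧ ball x r ⊆ D ∧ ContDiff ℝ ∞ g ∧
      (∀ z ∈ ball x r, lap^[m] g z = 0) ∧ ∀ᵐ z, z ∈ ball x r → f z = g z) := by
    intro x
    by_cases hx : x ∈ D
    · obtain ⟨R, hR, hRD⟩ := Metric.nhds_basis_closedBall.mem_iff.1 (hD.mem_nhds hx)
      obtain ⟨g, hg1, hg2, hg3⟩ := weyl_ball (m := m) (x0 := x) hR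
        (hf.integrableOn_compact_subset hRD (isCompact_closedBall _ _))
        (fun φ h1 h2 h3 => h φ h1 h2 (h3.trans (ball_subset_closedBall.trans hRD)))
      refine ⟨R / 2, g, fun _ => ⟨by positivity, ?_, hg1, hg2, hg3⟩⟩
      exact (ball_subset_closedBall.trans (closedBall_subset_closedBall (by linarith))).trans hRD
    · exact ⟨0, f, fun h => absurd h hx⟩
  choose r G hG using hloc
  -- two local representatives agree where both are defined
  have hagree : ∀ x ∈ D, ∀ y ∈ D, ∀ z, z ∈ ball x (r x) → z ∈ ball y (r y) → G x z = G y z := by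
    intro x hx y hy z hz1 hz2
    obtain ⟨-, -, hx1, -, hx2⟩ := hG x hx
    obtain ⟨-, -, hy1, -, hy2⟩ := hG y hy
    have hO : IsOpen (ball x (r x) ∩ ball y (r y)) := isOpen_ball.inter isOpen_ball
    have hae : G x =ᵐ[volume.restrict (ball x (r x) ∩ ball y (r y))] G y := by
      rw [EventuallyEq, ae_restrict_iff' hO.measurableSet]
      filter_upwards [hx2, hy2] with w h1 h2 hw
      rw [← h1 hw.1, ← h2 hw.2]
    exact Measure.eqOn_open_of_ae_eq hae hO hx1.continuous.continuousOn
      hy1.continuous.continuousOn ⟨hz1, hz2⟩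
  refine ⟨fun x => G x x, ?_, ?_, ?_⟩
  · intro x hx
    obtain ⟨h1, h2, h3, -, -⟩ := hG x hx
    apply ContDiffAt.contDiffWithinAt
    apply h3.contDiffAt.congr_of_eventuallyEq
    filter_upwards [isOpen_ball.mem_nhds (mem_ball_self h1)] with y hy
    exact hagree y (h2 hy) x hx y (mem_ball_self (hG y (h2 hy)).1) hy
  · intro x hx
    obtain ⟨h1, h2, h3, h4, -⟩ := hG x hx
    rw [lapn_congr (g := G x) isOpen_ball (fun y hy =>
      hagree y (h2 hy) x hx y (mem_ball_self (hG y (h2 hy)).1) hy) m (mem_ball_self h1)]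
    exact h4 x (mem_ball_self h1)
  · have hnull : volume {z | z ∈ D ∧ f z ≠ G z z} = 0 := by
      apply measure_null_of_locally_null
      rintro x ⟨hx, -⟩
      obtain ⟨h1, h2, h3, -, h5⟩ := hG x hx
      refine ⟨{z | z ∈ ball x (r x) ∧ f z ≠ G z z}, ?_, ?_⟩
      · rw [mem_nhdsWithin]
        exact ⟨ball x (r x), isOpen_ball, mem_ball_self h1, fun z hz => ⟨hz.1, hz.2.2⟩⟩
      · rw [← nonpos_iff_eq_zero, ← (ae_iff.1 h5)]
        apply measure_mono
        rintro z ⟨hz1, hz2⟩
        simp only [Set.mem_ofPred_eq]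
        intro hcon
        apply hz2
        rw [hcon hz1]
        exact (hagree z (h2 hz1) x hx z (mem_ball_self (hG z (h2 hz1)).1) hz1).symm
    rw [ae_iff]
    convert hnull using 2
    ext z
    simp only [Set.mem_ofPred_eq, Classical.not_imp]

end Pool.Agent.Lib.QNL.W48
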