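import Mathlib
import Pool.Agent.Lib.QNL.Weyl48
import Pool.Agent.Lib.QNL.Stmts
import Pool.Agent.Lib.QNL.OStmts
import Pool.Agent.Lib.QNL.Calc

/-!
Room QNL, module W: proofs of the interface statements `StmtWeyl` (general `m`) and `O.StmtWeyl`.
-/

set_option autoImplicit false

namespace Pool.Agent.Lib.QNL.W48

open MeasureTheory Filter Topology Set Metric
open scoped ContDiff ENNReal

lemma lapn_ofReal {φ : ℂ → ℝ} (hφ : ContDiff ℝ ∞ φ) (m : ℕ) :
    lap^[m] (fun z => (φ z : ℂ)) = fun z => ((lap^[m] φ z : ℝ) : ℂ) := by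
  induction m with
  | zero => rfl
  | succ m ih =>
    rw [Function.iterate_succ_apply', ih]
    funext z
    rw [Calc.lap_ofReal (D := univ) (contDiff_lapn hφ m).contDiffOn isOpen_univ (mem_univ z),
      Function.iterate_succ_apply']

lemma lapn_dab {φ : ℂ → ℂ} (hφ : ContDiff ℝ ∞ φ) (m : ℕ) (z : ℂ) :
    lap^[m] φ z = 4 ^ m * Dab m m φ z :=
  Calc.lap_iter (D := univ) hφ.contDiffOn isOpen_univ m (mem_univ z)

/-- **(W)** Weyl's lemma, the interface form -/
theorem stmtWeyl : QNL.StmtWeyl := by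
  intro m D f hD hf h
  have hloc : LocallyIntegrableOn f D volume := by
    apply locallyIntegrableOn_of_locallyIntegrable_restrict
    exact hf.locallyIntegrable (by norm_num)
  have hw : WeakH m D f := by
    intro φ h1 h2 h3
    have hT : Test D (fun z => (φ z : ℂ)) := by
      refine ⟨Complex.ofRealCLM.contDiff.comp h1, h2.comp_left (g := fun x : ℝ => (x : ℂ)) rfl, ?_⟩
      refine (closure_mono ?_).trans h3
      intro z hz
      rw [Function.mem_support] at hz ⊢
      intro h0
      exact hz (by simp [h0])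
    have h4 := h _ hT
    have e : ∀ z, (lap^[m] φ z) • f z = 4 ^ m * (f z * Dab m m (fun z => (φ z : ℂ)) z) := by
      intro z
      have e1 : lap^[m] (fun z => (φ z : ℂ)) z = ((lap^[m] φ z : ℝ) : ℂ) :=
        congrFun (lapn_ofReal h1 m) z
      have e2 := lapn_dab hT.1 m z
      rw [Complex.real_smul, ← e1, e2]
      ring
    simp_rw [e]
    rw [integral_const_mul, ← setIntegral_eq_integral_of_forall_compl_eq_zero (s := D), h4,
      mul_zero]
    intro z hz
    have e3 := e z
    have e4 : lap^[m] φ z = 0 := by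
      by_contra hne
      exact hz (h3 (tsupp_lapn φ m (subset_tsupport _ hne)))
    rw [e4, zero_smul] at e3
    have h4m : (4 : ℂ) ^ m ≠ 0 := pow_ne_zero m (by norm_num)
    exact (mul_eq_zero.1 e3.symm).resolve_left h4m
  obtain ⟨g, hg1, hg2, hg3⟩ := weyl hD m hloc hw
  refine ⟨g, hg1, hg3, fun z hz => ?_⟩
  have e := Calc.lap_iter (D := D) hg1 hD m hz
  rw [hg2 z hz] at e
  have h4m : (4 : ℂ) ^ m ≠ 0 := pow_ne_zero m (by norm_num)
  exact (mul_eq_zero.1 e.symm).resolve_left h4m

/-- (O-C2) Weyl's lemma for continuous functions -/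
theorem o_stmtWeyl : ∀ (O : Set ℂ) (f : ℂ → ℝ), IsOpen O → Continuous f →
    (∀ φ : ℂ → ℝ, (ContDiff ℝ ∞ φ ∧ HasCompactSupport φ) → tsupport φ ⊆ O →
      ∫ x, f x * lap φ x = 0) → ContDiffOn ℝ ∞ f O ∧ ∀ x ∈ O, lap f x = 0 := by
  intro U f hU hf h
  have hw : WeakH 1 U f := by
    intro φ h1 h2 h3
    rw [← h φ ⟨h1, h2⟩ h3]
    apply integral_congr_ae
    filter_upwards with z
    rw [smul_eq_mul, mul_comm]
    rfl
  obtain ⟨g, hg1, hg2, hg3⟩ := weyl hU 1 (hf.locallyIntegrable.locallyIntegrableOn U) hw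
  have hae : f =ᵐ[volume.restrict U] g := by
    rw [EventuallyEq, ae_restrict_iff' hU.measurableSet]
    exact hg3
  have heq : EqOn f g U := Measure.eqOn_open_of_ae_eq hae hU hf.continuousOn hg1.continuousOn
  refine ⟨hg1.congr heq, fun x hx => ?_⟩
  have := lapn_congr hU heq 1 hx
  rw [Function.iterate_one] at this
  rw [this]
  exact hg2 x hx

end Pool.Agent.Lib.QNL.W48
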