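import Pool.Agent.Lib.QNL.HilS
import Pool.Agent.Lib.QNL.FamA
import Pool.Agent.Lib.QNL.L85
import Pool.Agent.Lib.QNL.Jet79
import Pool.Agent.Lib.QNL.Src19
import Pool.Agent.Lib.QNL.WeylS48

/-!
Room QNL, group L: the family and its layer inequality, from the obstacle problem (group O), the
inequality (BI) (group E) and the Hilbert space part (group H).
-/

set_option autoImplicit false

namespace Pool.Agent.Lib.QNL.Fam19

open MeasureTheory Filter Topology Set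
open scoped ContDiff
open Pool.Agent.Lib.QNL

variable {μ : ℂ → ℝ} {C : ℝ} {U : ℝ → Set ℂ} {ψ : ℝ → ℂ → ℝ}

/-- for every `ε` and almost every level, the layers carry at most a linear amount of
`TT k (b_j)`, `|k| ≤ j` -/
theorem hyp_ae (h : Fam μ ψ) (X : H) {ε : ℝ} :
    ∀ᵐ L : ℝ, 0 < L → ∀ j : ℕ, ∃ A, 0 < A ∧ ∃ h₁, 0 < h₁ ∧ ∀ k : ℤ, |k| ≤ (j : ℤ) →
      ∀ t, 0 < t → t < h₁ →
        ∫ z in {z | ε < ψ L z} \ {z | ε < ψ (L + t) z},
          ‖(TT k (bb j {z | ε < ψ L z} X) : ℂ → ℂ) z‖ ^ 2 ≤ A * t := by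
  have hmono : ∀ j : ℕ, MonotoneOn (fun L => E j {z | ε < ψ L z} X) (Ioi 0) := by
    intro j L hL L' _ hLL
    refine Hil.E_anti j ?_ X
    intro z hz
    exact lt_of_lt_of_le hz (h.anti z L L' hL hLL)
  have h1 : ∀ᵐ L : ℝ, ∀ j : ℕ, 0 < L → DifferentiableAt ℝ (fun L => E j {z | ε < ψ L z} X) L :=
    ae_all_iff.2 fun j => MonDiff.ae_differentiableAt (hmono j)
  filter_upwards [h1] with L h1 hL j
  obtain ⟨A, hA, a, ha, hb⟩ := MonDiff.slope_le (h1 j hL)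
  obtain ⟨A', hA', a', ha', hb'⟩ := MonDiff.slope_le (h1 (j + 1) hL)
  refine ⟨2 * A + 2 * A', by positivity, min a a', lt_min ha ha', ?_⟩
  intro k hk t ht hlt
  have hsub : {z | ε < ψ (L + t) z} ⊆ {z | ε < ψ L z} := by
    intro z hz
    exact lt_of_lt_of_le hz (h.anti z L (L + t) hL (by linarith))
  have ho : ∀ L, 0 < L → IsOpen {z | ε < ψ L z} := fun L hL =>
    (lowerSemicontinuous_iff_isOpen_preimage.1 (h.lsc L hL)) ε
  have h2 := Hil.stmtHincb j {z | ε < ψ (L + t) z} {z | ε < ψ L z} k X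
    (ho _ (by linarith)) (ho _ hL) hsub hk
  have h3 := hb t ht.le (hlt.trans_le (min_le_left _ _))
  have h4 := hb' t ht.le (hlt.trans_le (min_le_right _ _))
  linarith

/-- (LAYER) for the obstacle family -/
theorem layer_of (hBI : StmtBI) (hjet : StmtHjet) (h : O.Obst μ C U ψ) (hμ : O.Src μ C)
    (X : H) : Layer μ (4 * C) ψ X := by
  unfold Layer
  filter_upwards [h.reg] with ε h1 hε
  filter_upwards [h1 hε, h.gen, hyp_ae (FamA.fam_of_obst h) X (ε := ε)] with L h2 h3 h4 hL j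
  exact L85.layer_at h hμ.pos hμ.cont hμ.nonneg hBI hjet hL hε (h3 hL) (h2 hL) j X (h4 hL j)

/-- (MAIN 1) for sources with the two-point semiconvexity -/
def StmtFamO : Prop := ∀ (μ : ℂ → ℝ) (C : ℝ), O.Src μ C → ∃ ψ : ℝ → ℂ → ℝ, Fam μ ψ ∧
  ∃ C' : ℝ, 0 ≤ C' ∧ ∀ X : H, Layer μ C' ψ X

/-- what is left: the obstacle problem and (BI) -/
theorem famO (hO : O.StmtObst) (hBI : StmtBI) : StmtFamO := by
  intro μ C hμ
  obtain ⟨U, ψ, h⟩ := hO μ C hμ
  exact ⟨ψ, FamA.fam_of_obst h, 4 * C, by have := hμ.pos; positivity,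
    fun X => layer_of hBI (Jet79.hjet W48.stmtWeyl) h hμ X⟩

end Pool.Agent.Lib.QNL.Fam19
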