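import Pool.Agent.Lib.QNL.End

/-!
Room QNL, the end: the frozen inequality for `n = 0`, and for all `n` from `StmtLowH`.
-/

set_option autoImplicit false

namespace Pool.Agent.Lib.QNL.Fin

open MeasureTheory Filter Topology Set SchwartzMap
open scoped ENNReal SchwartzMap
open Pool.Agent.Lib.MP_dd244f_an

/-- the frozen inequality for the power `n` -/
def Frz (n : ℕ) : Prop := ∀ p : ℝ, 2 ≤ p → ∀ f : SchwartzMap ℂ ℂ,
      MeasureTheory.eLpNorm
        (fun z : ℂ => ∫ ξ : ℂ,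
          Complex.exp (2 * (Real.pi : ℂ) * Complex.I * (((z.re * ξ.re + z.im * ξ.im : ℝ)) : ℂ)) *
            ((starRingEnd ℂ ξ / ξ) ^ n *
              ∫ x : ℂ, Complex.exp (-(2 * (Real.pi : ℂ) * Complex.I *
                (((x.re * ξ.re + x.im * ξ.im : ℝ)) : ℂ))) * f x))
        (ENNReal.ofReal p) MeasureTheory.volume
      ≤ ENNReal.ofReal ((ascPochhammer ℝ n).eval (1 - 1 / p) / (ascPochhammer ℝ n).eval (1 / p))
        * MeasureTheory.eLpNorm (⇑f) (ENNReal.ofReal p) MeasureTheory.volume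

theorem Tn_zero (f : 𝓢(ℂ, ℂ)) : Tn 0 f = f := by
  ext z
  simpa using Tn_dbar 0 f z

theorem frz_zero : Frz 0 := by
  intro p hp f
  change eLpNorm (Tn 0 f) (ENNReal.ofReal p) volume ≤ _
  rw [Tn_zero]
  simp

theorem frz_of_low (h : ∀ n, 1 ≤ n → StmtLowH n) (n : ℕ) : Frz n := by
  rcases Nat.eq_zero_or_pos n with rfl | h2
  · exact frz_zero
  · exact frozen_of_lowN (lowN_of_lowH (h n h2))

end Pool.Agent.Lib.QNL.Fin
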