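import Pool.Agent.Lib.QNL.F31
import Pool.Agent.Lib.QNL.Jet79

/-!
`P_0` is the restriction to `D`; hence the output of group F without hypotheses.
-/

set_option autoImplicit false

namespace Pool.Agent.Lib.QNL.F31

open MeasureTheory Filter Topology Set
open scoped ENNReal ContDiff ComplexInnerProductSpace

theorem stmtH0 : StmtH0 := by
  intro D X hD
  have h1 : ∀ᵐ z, z ∉ D → (P 0 D X : ℂ → ℂ) z = 0 := by
    have := Hil.off_zero (k := 0) hD (by simp) (Hil.P_mem 0 D X)
    rwa [Hil.TT_eq, Hil.TH_zero] at this
  set g : H := X - P 0 D X with hg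
  have horth : ∀ f ∈ K 0 D, ⟪g, f⟫ = 0 := fun f hf =>
    Submodule.starProjection_inner_eq_zero (K := K 0 D) X f hf
  have h2 : ∀ᵐ z, z ∈ D → (g : ℂ → ℂ) z = 0 := by
    refine hD.ae_eq_zero_of_integral_contDiff_smul_eq_zero ?_ ?_
    · exact ((Lp.memLp g).locallyIntegrable (by norm_num)).locallyIntegrableOn D
    · intro φ hφ hφc hφs
      have hT : Test D (fun z => (φ z : ℂ)) := by
        refine ⟨Complex.ofRealCLM.contDiff.comp hφ, hφc.comp_left (g := fun r : ℝ => (r : ℂ))
          (by simp), ?_⟩
        refine (closure_mono ?_).trans hφs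
        intro z hz
        simpa [Function.mem_support] using hz
      have := Jet79.int_of_orth horth hT
      rw [← this]
      refine integral_congr_ae (ae_of_all _ fun z => ?_)
      simp only [Dab, Function.iterate_zero, id_eq]
      rw [Complex.real_smul, mul_comm]
  filter_upwards [h1, h2, Lp.coeFn_sub X (P 0 D X)] with z h1 h2 h3
  by_cases hz : z ∈ D
  · rw [indicator_of_mem hz]
    have h4 := h2 hz
    rw [hg, h3, Pi.sub_apply, sub_eq_zero] at h4
    exact h4.symm
  · rw [indicator_of_notMem hz]
    exact h1 hz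

/-- **(F)** the output of group F -/
theorem stmtF : StmtF := stmtF_of stmtH0

end Pool.Agent.Lib.QNL.F31
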