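import Pool.Agent.Lib.QNL.Top46
import Pool.Agent.Lib.QNL.HilS
import Pool.Agent.Lib.QNL.Contr32

/-!
Room QNL: hypothesis `(hR)` of `Top46` from the retention inequality (on the kernel `k1`) and
Young's inequality (on the rest), for an expanding family `A l t` of open sets with
`A 0 t = {0 < ψ (t^r / w)}`.
-/

set_option autoImplicit false

namespace Pool.Agent.Lib.QNL.HR46

open MeasureTheory Filter Topology Set
open scoped ENNReal
open Pool.Agent.Lib.QNL.FinN Pool.Agent.Lib.QNL.Lev32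

variable {ψ : ℝ → ℂ → ℝ} {p r : ℝ} {x : ℂ → ℂ} {A : ℝ → ℝ → Set ℂ}

/-- what is used of the expanding family -/
structure Flow (A : ℝ → ℝ → Set ℂ) : Prop where
  nest : ∀ l, 0 ≤ l → Nest (A l)
  opn : ∀ l t, 0 ≤ l → 0 < t → IsOpen (A l t)
  mono : ∀ l l' t, 0 ≤ l → l ≤ l' → 0 < t → A l t ⊆ A l' t

theorem Flow.lv_mono (h : Flow A) {l l' : ℝ} (hl : 0 ≤ l) (hll : l ≤ l') (z : ℂ) :
    lv (A l) z ≤ lv (A l') z :=
  Lev32.lv_mono (h.nest l' (hl.trans hll)) (fun t ht => h.mono l l' t hl hll ht) z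

/-- the measurable minorant of `1_{z ∉ A l t}` -/
def Hset (A : ℝ → ℝ → Set ℂ) : Set ((ℝ × ℝ) × ℂ) :=
  ⋃ q : ℚ, {s : (ℝ × ℝ) × ℂ | 0 ≤ (q : ℝ) ∧ s.1.2 < (q : ℝ) ∧ lv (A q) s.2 < s.1.1}

theorem Flow.meas_Hset (h : Flow A) : MeasurableSet (Hset A) := by
  refine MeasurableSet.iUnion fun q => ?_
  by_cases hq : 0 ≤ (q : ℝ)
  · have h1 : Measurable (lv (A q)) := (h.nest q hq).measurable
    have e : {s : (ℝ × ℝ) × ℂ | 0 ≤ (q : ℝ) ∧ s.1.2 < (q : ℝ) ∧ lv (A q) s.2 < s.1.1} =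
        {s : (ℝ × ℝ) × ℂ | s.1.2 < (q : ℝ)} ∩ {s : (ℝ × ℝ) × ℂ | lv (A q) s.2 < s.1.1} := by
      ext s; simp [hq]
    rw [e]
    exact (measurableSet_lt (by fun_prop) measurable_const).inter
      (measurableSet_lt (h1.comp measurable_snd) (by fun_prop))
  · have e : {s : (ℝ × ℝ) × ℂ | 0 ≤ (q : ℝ) ∧ s.1.2 < (q : ℝ) ∧ lv (A q) s.2 < s.1.1} = ∅ := by
      ext s; simp [hq]
    rw [e]; exact MeasurableSet.empty

theorem Flow.Hset_sub (h : Flow A) {t l : ℝ} (ht : 0 < t) (hl : 0 ≤ l) {z : ℂ}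
    (hz : ((t, l), z) ∈ Hset A) : z ∉ A l t := by
  obtain ⟨q, hq0, hlq, hlt⟩ := mem_iUnion.1 hz
  intro hzA
  have h1 := h.mono l q t hl (le_of_lt hlq) ht hzA
  exact (h.nest q hq0).not_mem_of_lv_lt ht hlt h1

/-- `F l = ∫ |x|² lv(A l)^{p-2}` -/
noncomputable def FF (p : ℝ) (x : ℂ → ℂ) (A : ℝ → ℝ → Set ℂ) (l : ℝ) : ℝ≥0∞ :=
  ∫⁻ z, ENNReal.ofReal (‖x z‖ ^ 2 * lv (A l) z ^ (p - 2))

/-- the tail integral -/
theorem lint_tail (hp2 : p < 2) {b : ℝ} (hb : 0 < b) :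
    ∫⁻ t in Ioi b, ENNReal.ofReal ((2 - p) * t ^ (p - 3)) = ENNReal.ofReal (b ^ (p - 2)) := by
  have h2p : 0 < 2 - p := by linarith
  rw [← ofReal_integral_eq_lintegral_ofReal]
  · rw [integral_const_mul, integral_Ioi_rpow_of_lt (by linarith) hb]
    congr 1
    have h3 : p - 3 + 1 = -(2 - p) := by ring
    have h4 : p - 2 = -(2 - p) := by ring
    rw [h3, h4]
    field_simp
  · exact (integrableOn_Ioi_rpow_of_lt (by linarith) hb).const_mul _
  · exact (ae_restrict_iff' measurableSet_Ioi).2 (Eventually.of_forall fun t ht =>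
      mul_nonneg h2p.le (Real.rpow_nonneg (hb.le.trans (le_of_lt ht)) _))

/-- `F` is antitone on `[0, ∞)` if the levels are positive on the support of `x` -/
theorem Flow.FF_anti (h : Flow A) (hp2 : p < 2) (hpos : ∀ z, x z ≠ 0 → 0 < lv (A 0) z)
    {l l' : ℝ} (hl : 0 ≤ l) (hll : l ≤ l') : FF p x A l' ≤ FF p x A l := by
  refine lintegral_mono fun z => ENNReal.ofReal_le_ofReal ?_
  by_cases hx : x z = 0
  · rw [hx]; simp
  · have h1 : 0 < lv (A l) z := (hpos z hx).trans_le (h.lv_mono le_rfl hl z)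
    apply mul_le_mul_of_nonneg_left _ (sq_nonneg _)
    exact Real.rpow_le_rpow_of_nonpos h1 (h.lv_mono hl hll z) (by linarith)

/-- **Tonelli**: the extraction part at all levels, bounded below. -/
theorem Flow.tonelli (h : Flow A) (hx : Measurable x) (hp2 : p < 2)
    (hpos : ∀ z, x z ≠ 0 → 0 < lv (A 0) z) {kap : ℝ → ℝ} (hk : Measurable kap) :
    ∫⁻ l in Ioi (0 : ℝ), ENNReal.ofReal (kap l) * FF p x A l ≤
      ∫⁻ t in Ioi (0 : ℝ), ENNReal.ofReal ((2 - p) * t ^ (p - 3)) *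
        ∫⁻ l in Ioi (0 : ℝ), ENNReal.ofReal (kap l) *
          ∫⁻ z in (A l t)ᶜ, ENNReal.ofReal (‖x z‖ ^ 2) := by
  set g : ℂ → ℝ≥0∞ := fun z => ENNReal.ofReal (‖x z‖ ^ 2) with hg
  have hgm : Measurable g := (hx.norm.pow_const 2).ennreal_ofReal
  set W : ℝ → ℝ≥0∞ := fun t => ENNReal.ofReal ((2 - p) * t ^ (p - 3)) with hW
  have hWm : Measurable W := ((measurable_id.pow_const _).const_mul _).ennreal_ofReal
  set I : (ℝ × ℝ) × ℂ → ℝ≥0∞ := (Hset A).indicator 1 with hI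
  have hIm : Measurable I := measurable_one.indicator h.meas_Hset
  -- Step 1: replace the complement by the measurable minorant
  have s1 : ∫⁻ t in Ioi (0 : ℝ), W t * ∫⁻ l in Ioi (0 : ℝ), ENNReal.ofReal (kap l) *
        ∫⁻ z, I ((t, l), z) * g z ≤
      ∫⁻ t in Ioi (0 : ℝ), W t * ∫⁻ l in Ioi (0 : ℝ), ENNReal.ofReal (kap l) *
          ∫⁻ z in (A l t)ᶜ, g z := by
    refine setLIntegral_mono' measurableSet_Ioi fun t ht => ?_
    refine mul_le_mul_right (setLIntegral_mono' measurableSet_Ioi fun l hl => ?_) _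
    refine mul_le_mul_right ?_ _
    have hAm : MeasurableSet (A l t)ᶜ := (h.opn l t (le_of_lt hl) ht).measurableSet.compl
    rw [← lintegral_indicator hAm]
    refine lintegral_mono fun z => ?_
    by_cases hz : ((t, l), z) ∈ Hset A
    · have h1 := h.Hset_sub ht (le_of_lt hl) hz
      rw [hI, indicator_of_mem hz, indicator_of_mem (by exact h1)]
      simp
    · rw [hI, indicator_of_notMem hz, zero_mul]
      exact zero_le
  refine le_trans ?_ s1
  -- Step 2: exchange the order of integration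
  have hm1 : Measurable fun q : (ℝ × ℝ) × ℂ => I q * g q.2 := hIm.mul (hgm.comp measurable_snd)
  have hm2 : Measurable fun q : ℝ × ℝ => ∫⁻ z, I (q, z) * g z := hm1.lintegral_prod_right'
  have s2 : ∫⁻ t in Ioi (0 : ℝ), W t * ∫⁻ l in Ioi (0 : ℝ), ENNReal.ofReal (kap l) *
        ∫⁻ z, I ((t, l), z) * g z =
      ∫⁻ l in Ioi (0 : ℝ), ENNReal.ofReal (kap l) * ∫⁻ t in Ioi (0 : ℝ), W t *
        ∫⁻ z, I ((t, l), z) * g z := by
    have e1 : ∀ t : ℝ, W t * ∫⁻ l in Ioi (0 : ℝ), ENNReal.ofReal (kap l) *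
        ∫⁻ z, I ((t, l), z) * g z = ∫⁻ l in Ioi (0 : ℝ), W t * (ENNReal.ofReal (kap l) *
        ∫⁻ z, I ((t, l), z) * g z) := fun t => by
      rw [lintegral_const_mul' _ _ (by simp [hW])]
    have e2 : ∀ l : ℝ, ENNReal.ofReal (kap l) * ∫⁻ t in Ioi (0 : ℝ), W t *
        ∫⁻ z, I ((t, l), z) * g z = ∫⁻ t in Ioi (0 : ℝ), ENNReal.ofReal (kap l) * (W t *
        ∫⁻ z, I ((t, l), z) * g z) := fun l => by
      rw [lintegral_const_mul' _ _ (by simp)]
    simp only [e1, e2]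
    rw [lintegral_lintegral_swap]
    · refine lintegral_congr fun l => lintegral_congr fun t => ?_
      ring
    · have m1 : Measurable fun q : ℝ × ℝ => W q.1 := hWm.comp measurable_fst
      have m2 : Measurable fun q : ℝ × ℝ => ENNReal.ofReal (kap q.2) :=
        (hk.comp measurable_snd).ennreal_ofReal
      exact (m1.mul (m2.mul hm2)).aemeasurable
  rw [s2]
  -- Step 3: for almost every `l`
  have key : ∀ l q : ℝ, 0 < l → l < q → FF p x A q ≤
      ∫⁻ t in Ioi (0 : ℝ), W t * ∫⁻ z, I ((t, l), z) * g z := by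
    intro l q hl hlq
    obtain ⟨q', hq1, hq2⟩ := exists_rat_btwn hlq
    have hq'0 : (0 : ℝ) ≤ (q' : ℝ) := (hl.trans hq1).le
    have h1 : FF p x A q ≤ FF p x A q' := h.FF_anti hp2 hpos hq'0 hq2.le
    refine h1.trans ?_
    have e3 : ∫⁻ t in Ioi (0 : ℝ), W t * ∫⁻ z, I ((t, l), z) * g z =
        ∫⁻ z, ∫⁻ t in Ioi (0 : ℝ), W t * (I ((t, l), z) * g z) := by
      have e4 : ∀ t : ℝ, W t * ∫⁻ z, I ((t, l), z) * g z = ∫⁻ z, W t * (I ((t, l), z) * g z) :=
        fun t => by rw [lintegral_const_mul' _ _ (by simp [hW])]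
      simp only [e4]
      rw [lintegral_lintegral_swap]
      have m1 : Measurable fun q : ℝ × ℂ => W q.1 := hWm.comp measurable_fst
      have m2 : Measurable fun q : ℝ × ℂ => I ((q.1, l), q.2) :=
        hIm.comp (by fun_prop)
      have m3 : Measurable fun q : ℝ × ℂ => g q.2 := hgm.comp measurable_snd
      exact (m1.mul (m2.mul m3)).aemeasurable
    rw [e3]
    refine lintegral_mono fun z => ?_
    by_cases hx0 : x z = 0
    · rw [hx0]; simp
    · have hb : 0 < lv (A (q' : ℝ)) z := (hpos z hx0).trans_le (h.lv_mono le_rfl hq'0 z)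
      have h2 : ENNReal.ofReal (‖x z‖ ^ 2 * lv (A (q' : ℝ)) z ^ (p - 2)) =
          ∫⁻ t in Ioi (lv (A (q' : ℝ)) z), W t * g z := by
        rw [lintegral_mul_const _ hWm, lint_tail hp2 hb, ENNReal.ofReal_mul (sq_nonneg _), mul_comm]
      rw [h2]
      have h3 : Ioi (lv (A (q' : ℝ)) z) ⊆ Ioi (0 : ℝ) := Ioi_subset_Ioi hb.le
      refine le_trans ?_ (lintegral_mono_set h3)
      refine setLIntegral_mono' measurableSet_Ioi fun t ht => ?_
      have h4 : ((t, l), z) ∈ Hset A := mem_iUnion.2 ⟨q', hq'0, hq1, ht⟩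
      rw [hI, indicator_of_mem h4]
      simp
  -- countable many discontinuities
  set F1 : ℝ → ℝ≥0∞ := fun l => FF p x A (max l 0) with hF1
  have hF1a : Antitone F1 := fun l l' hll => by
    exact h.FF_anti hp2 hpos (le_max_right _ _) (max_le_max hll le_rfl)
  have hc : ∀ᵐ l : ℝ, ContinuousAt F1 l :=
    (hF1a.countable_not_continuousAt).ae_notMem volume |>.mono fun l hl => not_not.1 hl
  refine lintegral_mono_ae ?_
  filter_upwards [ae_restrict_of_ae hc, ae_restrict_mem measurableSet_Ioi] with l hl hl0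
  have hl0' : (0 : ℝ) < l := hl0
  refine mul_le_mul_right ?_ _
  have e5 : FF p x A l = F1 l := by rw [hF1]; simp [max_eq_left hl0'.le]
  rw [e5]
  have h5 : Tendsto F1 (𝓝[>] l) (𝓝 (F1 l)) := hl.tendsto.mono_left nhdsWithin_le_nhds
  refine le_of_tendsto h5 ?_
  filter_upwards [self_mem_nhdsWithin] with q hq
  have hq' : l < q := hq
  have e6 : F1 q = FF p x A q := by rw [hF1]; simp [max_eq_left (hl0'.trans hq').le]
  rw [e6]
  exact key l q hl0' hq'

/-- pointwise Young -/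
theorem young_pt (hp1 : 1 < p) (hp2 : p < 2) {X τ l : ℝ} (hX : 0 ≤ X) (hτ : 0 < τ) :
    2 / p * X ^ p ≤ Real.exp ((2 / p - 1) * l) * (X ^ 2 * τ ^ (p - 2)) +
      (2 / p - 1) * (Real.exp (-l) * τ ^ p) := by
  have hp0 : 0 < p := by linarith
  set s : ℝ := Real.exp (-(l / p)) * τ with hs
  have hs0 : 0 < s := by positivity
  have e1 : s ^ (p - 2) = Real.exp ((2 / p - 1) * l) * τ ^ (p - 2) := by
    rw [hs, Real.mul_rpow (Real.exp_pos _).le hτ.le, ← Real.exp_mul]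
    congr 2
    field_simp
    ring
  have e2 : s ^ p = Real.exp (-l) * τ ^ p := by
    rw [hs, Real.mul_rpow (Real.exp_pos _).le hτ.le, ← Real.exp_mul]
    congr 2
    field_simp
  have h1 : 0 ≤ p / 2 := by positivity
  have h2 : 0 ≤ 1 - p / 2 := by linarith
  have hy := Real.geom_mean_le_arith_mean2_weighted h1 h2
    (p₁ := X ^ 2 * s ^ (p - 2)) (p₂ := s ^ p) (by positivity) (by positivity) (by ring)
  have e3 : (X ^ 2 * s ^ (p - 2)) ^ (p / 2) * (s ^ p) ^ (1 - p / 2) = X ^ p := by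
    rw [Real.mul_rpow (by positivity) (by positivity), ← Real.rpow_natCast X 2,
      ← Real.rpow_mul hX, ← Real.rpow_mul hs0.le, ← Real.rpow_mul hs0.le, mul_assoc,
      ← Real.rpow_add hs0]
    have e4 : (p - 2) * (p / 2) + p * (1 - p / 2) = 0 := by ring
    have e5 : ((2 : ℕ) : ℝ) * (p / 2) = p := by push_cast; ring
    rw [e4, Real.rpow_zero, mul_one, e5]
  rw [e3] at hy
  have h3 := mul_le_mul_of_nonneg_left hy (by positivity : 0 ≤ 2 / p)
  rw [e1, e2] at h3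
  calc 2 / p * X ^ p ≤ 2 / p * (p / 2 * (X ^ 2 * (Real.exp ((2 / p - 1) * l) * τ ^ (p - 2))) +
      (1 - p / 2) * (Real.exp (-l) * τ ^ p)) := h3
    _ = _ := by field_simp

/-- **Young** for the delayed term -/
theorem Flow.young (h : Flow A) (hx : Continuous x) (hxc : HasCompactSupport x) (hp1 : 1 < p)
    (hp2 : p < 2) (hpos : ∀ z, x z ≠ 0 → 0 < lv (A 0) z) {l T : ℝ} (hl : 0 ≤ l) (hT : 0 ≤ T)
    (hvol : ∫⁻ z, ENNReal.ofReal (lv (A l) z ^ p) ≤ ENNReal.ofReal (Real.exp l * T)) :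
    ENNReal.ofReal (2 / p * (∫ z, ‖x z‖ ^ p) - (2 / p - 1) * T) ≤
      ENNReal.ofReal (Real.exp ((2 / p - 1) * l)) * FF p x A l := by
  have hp0 : 0 < p := by linarith
  have hθ : 0 ≤ 2 / p - 1 := by
    rw [sub_nonneg, le_div_iff₀ hp0]; linarith
  have i4 : Integrable (fun z => ‖x z‖ ^ p) := by
    have hc : Continuous fun z => ‖x z‖ ^ p := hx.norm.rpow_const fun z => Or.inr hp0.le
    apply hc.integrable_of_hasCompactSupport
    exact hxc.comp_left (g := fun y : ℂ => ‖y‖ ^ p) (by simp [Real.zero_rpow hp0.ne'])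
  have hlm : Measurable (lv (A l)) := (h.nest l hl).measurable
  rw [ENNReal.ofReal_sub _ (mul_nonneg hθ hT)]
  apply tsub_le_iff_right.2
  rw [← integral_const_mul, ofReal_integral_eq_lintegral_ofReal (i4.const_mul _)
    (Eventually.of_forall fun z => by positivity)]
  calc ∫⁻ z, ENNReal.ofReal (2 / p * ‖x z‖ ^ p)
      ≤ ∫⁻ z, (ENNReal.ofReal (Real.exp ((2 / p - 1) * l)) *
          ENNReal.ofReal (‖x z‖ ^ 2 * lv (A l) z ^ (p - 2)) +
          ENNReal.ofReal ((2 / p - 1) * Real.exp (-l)) * ENNReal.ofReal (lv (A l) z ^ p)) := by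
        refine lintegral_mono fun z => ?_
        have hln : 0 ≤ lv (A l) z := lv_nonneg _ _
        by_cases hx0 : x z = 0
        · rw [hx0, norm_zero, Real.zero_rpow hp0.ne', mul_zero, ENNReal.ofReal_zero]
          exact zero_le
        · have hb : 0 < lv (A l) z := (hpos z hx0).trans_le (h.lv_mono le_rfl hl z)
          rw [← ENNReal.ofReal_mul (Real.exp_pos _).le, ← ENNReal.ofReal_mul (by positivity),
            ← ENNReal.ofReal_add (by positivity) (by positivity)]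
          apply ENNReal.ofReal_le_ofReal
          have := young_pt (l := l) hp1 hp2 (norm_nonneg (x z)) hb
          rw [mul_assoc (2 / p - 1)]
          exact this
    _ = ENNReal.ofReal (Real.exp ((2 / p - 1) * l)) * FF p x A l +
          ENNReal.ofReal ((2 / p - 1) * Real.exp (-l)) *
            ∫⁻ z, ENNReal.ofReal (lv (A l) z ^ p) := by
        rw [lintegral_add_right, lintegral_const_mul' _ _ (by simp),
          lintegral_const_mul' _ _ (by simp)]
        · rfl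
        · exact (hlm.pow_const _).ennreal_ofReal.const_mul _
    _ ≤ ENNReal.ofReal (Real.exp ((2 / p - 1) * l)) * FF p x A l +
          ENNReal.ofReal ((2 / p - 1) * Real.exp (-l)) * ENNReal.ofReal (Real.exp l * T) := by
        gcongr
    _ = _ := by
        congr 1
        rw [← ENNReal.ofReal_mul (by positivity)]
        congr 1
        have : Real.exp (-l) * Real.exp l = 1 := by rw [← Real.exp_add]; simp
        calc (2 / p - 1) * Real.exp (-l) * (Real.exp l * T) =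
            (2 / p - 1) * T * (Real.exp (-l) * Real.exp l) := by ring
          _ = _ := by rw [this, mul_one]

/-- the refund function of the frozen scheme -/
noncomputable def Rf (p r K1 eps K2 y : ℝ) : ℝ :=
  K1 * y ^ 2 - 2 * (2 / p - 1) * eps * (y ^ 2 - 1 - 2 / r * (y ^ r - 1)) +
    K2 * (2 / p * y ^ p - (2 / p - 1))

/-- the retention inequality (output of group C) for the kernel `k1` -/
def Ret (p r : ℝ) (x : ℂ → ℂ) (ψ : ℝ → ℂ → ℝ) (A : ℝ → ℝ → Set ℂ) (k1 : ℝ → ℝ)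
    (K1 eps : ℝ) : Prop :=
  ENNReal.ofReal (∫ z, tt p r ψ z ^ p * (K1 * (‖x z‖ / tt p r ψ z) ^ 2 -
    2 * (2 / p - 1) * eps * ((‖x z‖ / tt p r ψ z) ^ 2 - 1 -
      2 / r * ((‖x z‖ / tt p r ψ z) ^ r - 1)))) ≤
  ∫⁻ l in Ioi (0 : ℝ), ENNReal.ofReal (k1 l) *
    (ENNReal.ofReal (Real.exp ((2 / p - 1) * l)) * FF p x A l)

/-! ### The level function of `A 0` and the integrable pieces -/

theorem lv_eq_tt (hr : 1 ≤ r) (hrp : r < p) (hx : Continuous x)
    (hxc : HasCompactSupport x) (hF : Fam (fun z => ‖x z‖ ^ r) ψ)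
    (hA0 : ∀ t, 0 < t → A 0 t = {z | 0 < ψ (t ^ r / (1 - r / p)) z}) (z : ℂ) :
    lv (A 0) z = tt p r ψ z := by
  have hr0 : 0 < r := by linarith
  obtain ⟨M, hM0, hM⟩ := exists_bound hx hxc hr0
  have e : {s : ℝ | 0 < s ∧ z ∈ A 0 s} = Ioo 0 (tt p r ψ z) := by
    ext s
    constructor
    · rintro ⟨hs, hz⟩
      rw [hA0 s hs] at hz
      exact ⟨hs, (lt_tt hF hM hr hrp hs z).2 hz⟩
    · rintro ⟨hs, hz⟩
      refine ⟨hs, ?_⟩
      rw [hA0 s hs]
      exact (lt_tt hF hM hr hrp hs z).1 hz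
  unfold lv
  rw [e]
  rcases (tt_nonneg (ψ := ψ) hr hrp z).eq_or_lt with h0 | h0
  · rw [← h0, Ioo_self, Real.sSup_empty]
  · exact csSup_Ioo h0

theorem tt_pos (hr : 1 ≤ r) (hrp : r < p) (hx : Continuous x)
    (hxc : HasCompactSupport x) (hF : Fam (fun z => ‖x z‖ ^ r) ψ) {z : ℂ} (hz : x z ≠ 0) :
    0 < tt p r ψ z := by
  have hr0 : 0 < r := by linarith
  obtain ⟨M, hM0, hM⟩ := exists_bound hx hxc hr0
  have hw := w_pos hr hrp
  have h1 := mu_le_lev hF hM z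
  have h2 : 0 < ‖x z‖ ^ r := Real.rpow_pos_of_pos (norm_pos_iff.2 hz) _
  have h3 : 0 < lev ψ 0 z := h2.trans_le h1
  unfold tt
  positivity

theorem tt_sq (hr : 1 ≤ r) (hrp : r < p) (hx : Continuous x)
    (hxc : HasCompactSupport x) (hF : Fam (fun z => ‖x z‖ ^ r) ψ) {q : ℝ} (hq : q ≠ 0) (z : ℂ) :
    tt p r ψ z ^ p * (‖x z‖ / tt p r ψ z) ^ q = ‖x z‖ ^ q * tt p r ψ z ^ (p - q) := by
  by_cases hz : x z = 0
  · rw [hz, norm_zero, zero_div, Real.zero_rpow hq]
    simp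
  · have ht := tt_pos (p := p) hr hrp hx hxc hF hz
    rw [Real.div_rpow (norm_nonneg _) ht.le, Real.rpow_sub ht]
    field_simp

theorem integrable_sq (hr : 1 ≤ r) (hrp : r < p) (hx : Continuous x)
    (hxc : HasCompactSupport x) (hF : Fam (fun z => ‖x z‖ ^ r) ψ) :
    Integrable (fun z => ‖x z‖ ^ 2 * tt p r ψ z ^ (p - 2)) := by
  have hw := w_pos hr hrp
  have hr0 : 0 < r := by linarith
  have h := integrable_V (V := fun _ => 1) hr hx hxc hF continuousOn_const ((p - 2) / r)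
  refine (h.const_mul ((1 - r / p) ^ ((p - 2) / r))).congr (Eventually.of_forall fun z => ?_)
  have hl0 := lev_nonneg ψ 0 z
  have e : tt p r ψ z ^ (p - 2) = (1 - r / p) ^ ((p - 2) / r) * lev ψ 0 z ^ ((p - 2) / r) := by
    unfold tt
    rw [← Real.rpow_mul (mul_nonneg hw.le hl0), Real.mul_rpow hw.le hl0]
    congr 2 <;> ring
  simp only
  rw [e]; ring

theorem integrable_pieces (hr : 1 ≤ r) (hrp : r < p) (hx : Continuous x)
    (hxc : HasCompactSupport x) (hF : Fam (fun z => ‖x z‖ ^ r) ψ) (K1 eps : ℝ) :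
    Integrable (fun z => tt p r ψ z ^ p * (K1 * (‖x z‖ / tt p r ψ z) ^ 2 -
    2 * (2 / p - 1) * eps * ((‖x z‖ / tt p r ψ z) ^ 2 - 1 -
      2 / r * ((‖x z‖ / tt p r ψ z) ^ r - 1)))) := by
  have hr0 : 0 < r := by linarith
  have i1 := integrable_sq (p := p) hr hrp hx hxc hF
  have i2 := integrable_mu_tt (p := p) hr hrp hx hxc hF
  obtain ⟨i3, -⟩ := mass_real (p := p) hr hrp hx hxc hF
  refine (((i1.const_mul (K1 - 2 * (2 / p - 1) * eps)).add
    (i2.const_mul (2 * (2 / p - 1) * eps * (2 / r)))).add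
    (i3.const_mul (2 * (2 / p - 1) * eps * (1 - 2 / r)))).congr (Eventually.of_forall fun z => ?_)
  have e1 := tt_sq (p := p) hr hrp hx hxc hF (q := 2) two_ne_zero z
  have e2 := tt_sq (p := p) hr hrp hx hxc hF (q := r) hr0.ne' z
  rw [Real.rpow_two, Real.rpow_two] at e1
  simp only [Pi.add_apply]
  rw [← e1, ← e2]
  ring

theorem integrable_rest (hr : 1 ≤ r) (hrp : r < p) (hx : Continuous x)
    (hxc : HasCompactSupport x) (hF : Fam (fun z => ‖x z‖ ^ r) ψ) :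
    Integrable (fun z => 2 / p * ‖x z‖ ^ p - (2 / p - 1) * tt p r ψ z ^ p) := by
  have hp0 : 0 < p := by linarith
  have i4 : Integrable (fun z => ‖x z‖ ^ p) := by
    have hc : Continuous fun z => ‖x z‖ ^ p := hx.norm.rpow_const fun z => Or.inr hp0.le
    apply hc.integrable_of_hasCompactSupport
    exact hxc.comp_left (g := fun y : ℂ => ‖y‖ ^ p) (by simp [Real.zero_rpow hp0.ne'])
  obtain ⟨i3, -⟩ := mass_real (p := p) hr hrp hx hxc hF
  exact (i4.const_mul _).sub (i3.const_mul _)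

theorem rf_eq (hr : 1 ≤ r) (hrp : r < p) (hx : Continuous x)
    (hxc : HasCompactSupport x) (hF : Fam (fun z => ‖x z‖ ^ r) ψ) (K1 eps K2 : ℝ) (z : ℂ) :
    tt p r ψ z ^ p * Rf p r K1 eps K2 (‖x z‖ / tt p r ψ z) =
      tt p r ψ z ^ p * (K1 * (‖x z‖ / tt p r ψ z) ^ 2 -
    2 * (2 / p - 1) * eps * ((‖x z‖ / tt p r ψ z) ^ 2 - 1 -
      2 / r * ((‖x z‖ / tt p r ψ z) ^ r - 1))) +
      K2 * (2 / p * ‖x z‖ ^ p - (2 / p - 1) * tt p r ψ z ^ p) := by
  have hp0 : 0 < p := by linarith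
  have e3 := tt_sq (p := p) hr hrp hx hxc hF (q := p) hp0.ne' z
  rw [sub_self, Real.rpow_zero, mul_one] at e3
  unfold Rf
  rw [← e3]
  ring

theorem integrable_Rf (hr : 1 ≤ r) (hrp : r < p) (hx : Continuous x)
    (hxc : HasCompactSupport x) (hF : Fam (fun z => ‖x z‖ ^ r) ψ) (K1 eps K2 : ℝ) :
    Integrable (fun z => tt p r ψ z ^ p * Rf p r K1 eps K2 (‖x z‖ / tt p r ψ z)) := by
  simp only [rf_eq hr hrp hx hxc hF]
  exact (integrable_pieces hr hrp hx hxc hF K1 eps).add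
    ((integrable_rest hr hrp hx hxc hF).const_mul K2)

/-- **(hR)** the refund inequality, literally the hypothesis of `Top46`. -/
theorem hR (h : Flow A) (hr : 1 ≤ r) (hrp : r < p) (hp2 : p < 2) (hx : Continuous x)
    (hxc : HasCompactSupport x) (hF : Fam (fun z => ‖x z‖ ^ r) ψ)
    (hA0 : ∀ t, 0 < t → A 0 t = {z | 0 < ψ (t ^ r / (1 - r / p)) z})
    (hvol : ∀ l, 0 < l → ∫⁻ z, ENNReal.ofReal (lv (A l) z ^ p) ≤
      ENNReal.ofReal (Real.exp l * ∫ z, tt p r ψ z ^ p))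
    {X : H} (hX : (X : ℂ → ℂ) =ᵐ[volume] x) {kap k1 : ℝ → ℝ} (hkm : Measurable kap)
    (hk1 : ∀ l, 0 < l → 0 ≤ k1 l ∧ k1 l ≤ kap l * Real.exp (-((2 / p - 1) * l)))
    {K1 eps K2 : ℝ} (hK2 : 0 ≤ K2)
    (hk2 : ENNReal.ofReal K2 ≤
      ∫⁻ l in Ioi (0 : ℝ), ENNReal.ofReal (kap l * Real.exp (-((2 / p - 1) * l)) - k1 l))
    (hret : Ret p r x ψ A k1 K1 eps) :
    ENNReal.ofReal (∫ z, tt p r ψ z ^ p * Rf p r K1 eps K2 (‖x z‖ / tt p r ψ z)) ≤
      ∫⁻ t in Ioi (0 : ℝ), ENNReal.ofReal ((2 - p) * t ^ (p - 3)) *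
        ∫⁻ l in Ioi (0 : ℝ), ENNReal.ofReal (kap l * E 0 (A l t) X) := by
  have hr0 : 0 < r := by linarith
  have hp0 : 0 < p := by linarith
  have hp1 : 1 < p := by linarith
  have hθ : 0 ≤ 2 / p - 1 := by
    rw [sub_nonneg, le_div_iff₀ hp0]; linarith
  have hpos : ∀ z, x z ≠ 0 → 0 < lv (A 0) z := fun z hz => by
    rw [lv_eq_tt hr hrp hx hxc hF hA0]
    exact tt_pos hr hrp hx hxc hF hz
  have hkap : ∀ l, 0 < l → 0 ≤ kap l := fun l hl => by
    obtain ⟨h1, h2⟩ := hk1 l hl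
    have h3 := h1.trans h2
    by_contra hcon
    have := mul_neg_of_neg_of_pos (not_le.1 hcon) (Real.exp_pos (-((2 / p - 1) * l)))
    linarith
  have i4 : Integrable (fun z => ‖x z‖ ^ p) := by
    have hc : Continuous fun z => ‖x z‖ ^ p := hx.norm.rpow_const fun z => Or.inr hp0.le
    apply hc.integrable_of_hasCompactSupport
    exact hxc.comp_left (g := fun y : ℂ => ‖y‖ ^ p) (by simp [Real.zero_rpow hp0.ne'])
  obtain ⟨i3, -⟩ := mass_real (p := p) hr hrp hx hxc hF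
  -- (b) the extraction part dominates
  have hb : ∫⁻ t in Ioi (0 : ℝ), ENNReal.ofReal ((2 - p) * t ^ (p - 3)) *
        ∫⁻ l in Ioi (0 : ℝ), ENNReal.ofReal (kap l) *
          ∫⁻ z in (A l t)ᶜ, ENNReal.ofReal (‖x z‖ ^ 2) ≤
      ∫⁻ t in Ioi (0 : ℝ), ENNReal.ofReal ((2 - p) * t ^ (p - 3)) *
        ∫⁻ l in Ioi (0 : ℝ), ENNReal.ofReal (kap l * E 0 (A l t) X) := by
    refine setLIntegral_mono' measurableSet_Ioi fun t ht => ?_
    refine mul_le_mul_right (setLIntegral_mono' measurableSet_Ioi fun l hl => ?_) _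
    have hl' : (0 : ℝ) < l := hl
    rw [ENNReal.ofReal_mul (hkap l hl')]
    refine mul_le_mul_right ?_ _
    have hoff := Hil.stmtHoff 0 (A l t) X (h.opn l t hl'.le ht)
    have e0 : TT ((0 : ℕ) : ℤ) X = X := by
      rw [Nat.cast_zero]
      exact Hil.TH_zero X
    rw [e0] at hoff
    have hXi : Integrable (fun z => ‖(X : ℂ → ℂ) z‖ ^ 2) :=
      (memLp_two_iff_integrable_sq_norm (Lp.aestronglyMeasurable X)).1 (Lp.memLp X)
    have e1 : ∫⁻ z in (A l t)ᶜ, ENNReal.ofReal (‖x z‖ ^ 2) =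
        ∫⁻ z in (A l t)ᶜ, ENNReal.ofReal (‖(X : ℂ → ℂ) z‖ ^ 2) := by
      refine lintegral_congr_ae (ae_restrict_of_ae ?_)
      filter_upwards [hX] with z hz
      rw [hz]
    rw [e1, ← ofReal_integral_eq_lintegral_ofReal hXi.restrict
      (Eventually.of_forall fun z => sq_nonneg _)]
    exact ENNReal.ofReal_le_ofReal hoff
  refine le_trans ?_ ((h.tonelli hx.measurable hp2 hpos hkm).trans hb)
  -- the split of the kernel
  set Φ : ℝ → ℝ≥0∞ := fun l => ENNReal.ofReal (Real.exp ((2 / p - 1) * l)) * FF p x A l with hΦ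
  have hsplit : ∫⁻ l in Ioi (0 : ℝ), ENNReal.ofReal (kap l) * FF p x A l =
      ∫⁻ l in Ioi (0 : ℝ), (ENNReal.ofReal (k1 l) * Φ l +
        ENNReal.ofReal (kap l * Real.exp (-((2 / p - 1) * l)) - k1 l) * Φ l) := by
    refine setLIntegral_congr_fun measurableSet_Ioi fun l hl => ?_
    obtain ⟨h1, h2⟩ := hk1 l hl
    simp only [hΦ]
    rw [← add_mul, ← ENNReal.ofReal_add h1 (sub_nonneg.2 h2), add_sub_cancel, ← mul_assoc,
      ← ENNReal.ofReal_mul (h1.trans h2), mul_assoc, ← Real.exp_add]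
    simp
  rw [hsplit]
  refine le_trans ?_ (le_lintegral_add _ _)
  have hY : ENNReal.ofReal (K2 * (2 / p * (∫ z, ‖x z‖ ^ p) -
      (2 / p - 1) * ∫ z, tt p r ψ z ^ p)) ≤
      ∫⁻ l in Ioi (0 : ℝ),
        ENNReal.ofReal (kap l * Real.exp (-((2 / p - 1) * l)) - k1 l) * Φ l := by
    rw [ENNReal.ofReal_mul hK2]
    refine (mul_le_mul_left hk2 _).trans ?_
    rw [← lintegral_mul_const' _ _ (by simp)]
    refine setLIntegral_mono' measurableSet_Ioi fun l hl => ?_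
    have hl' : (0 : ℝ) < l := hl
    refine mul_le_mul_right ?_ _
    exact h.young hx hxc hp1 hp2 hpos hl'.le
      (integral_nonneg fun z => Real.rpow_nonneg (tt_nonneg hr hrp z) _) (hvol l hl')
  have hsum : ∫ z, tt p r ψ z ^ p * Rf p r K1 eps K2 (‖x z‖ / tt p r ψ z) =
      (∫ z, tt p r ψ z ^ p * (K1 * (‖x z‖ / tt p r ψ z) ^ 2 -
    2 * (2 / p - 1) * eps * ((‖x z‖ / tt p r ψ z) ^ 2 - 1 -
      2 / r * ((‖x z‖ / tt p r ψ z) ^ r - 1)))) +
      K2 * (2 / p * (∫ z, ‖x z‖ ^ p) - (2 / p - 1) * ∫ z, tt p r ψ z ^ p) := by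
    simp only [rf_eq hr hrp hx hxc hF]
    rw [integral_add (integrable_pieces hr hrp hx hxc hF K1 eps)
      ((integrable_rest hr hrp hx hxc hF).const_mul K2), integral_const_mul,
      integral_sub (i4.const_mul _) (i3.const_mul _), integral_const_mul, integral_const_mul]
  rw [hsum]
  exact ENNReal.ofReal_add_le.trans (add_le_add hret hY)

end Pool.Agent.Lib.QNL.HR46
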