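import Pool.Agent.Lib.QNL.FinN
import Pool.Agent.Lib.QNL.FamU77
import Pool.Agent.Lib.QNL.HilS
import Pool.Agent.Lib.QNL.Src19

/-!
Room QNL: `StmtLowH n` from the one-variable data `One n` (no transport), for the families of
`FamU77`.
-/

set_option autoImplicit false

namespace Pool.Agent.Lib.QNL.Asm

open MeasureTheory Filter Topology Set
open scoped ENNReal ContDiff
open Pool.Agent.Lib.QNL.FinN

/-- `One n` gives the theorem for `T^n` -/
theorem lowH_of_one {n : ℕ} (hFam : StmtFamU) (hF : StmtF) (hoff : StmtHoff) (hone : One n) :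
    StmtLowH n := by
  intro p hp1 hp2 f hfc
  obtain ⟨r, smax, th, B, W, hr, hrp, hsm, hB, hQ, hineq⟩ := hone p hp1 hp2
  have hr0 : 0 < r := by linarith
  have hp0 : 0 < p := by linarith
  have hC := Cn_pos n hp1
  obtain ⟨C, hsrc⟩ := Src19.src_pow (X := f) (f.smooth 2) hfc hr
  obtain ⟨u, hu⟩ := hFam _ C hsrc
  have hfcont : Continuous f := f.continuous
  set X : H := f.toLp 2 with hX
  have hXf : (X : ℂ → ℂ) =ᵐ[volume] f := f.coeFn_toLp 2 volume
  have hfe := hF p r hr hrp hp2 f X hfcont hfc hXf (O.psi u) (4 * C) hu.fam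
    (by have := hsrc.pos; positivity) (hu.layer X) n smax th B W hsm hQ
  have hsum : ∀ L : ℝ, ∑ j ∈ Finset.range (n + 1), B j * E j {z | 0 < O.psi u L z} X =
      E n {z | 0 < O.psi u L z} X := by
    intro L
    rw [Finset.sum_eq_single n]
    · rw [hB n, if_pos rfl, one_mul]
    · intro j _ hj; rw [hB j, if_neg hj, zero_mul]
    · intro h; exact absurd (Finset.mem_range.2 (Nat.lt_succ_self n)) h
  simp only [hsum] at hfe
  have hY : Measurable (TT n X : ℂ → ℂ) := (Lp.stronglyMeasurable (TT n X)).measurable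
  have hYi : Integrable (fun z => ‖(TT n X : ℂ → ℂ) z‖ ^ 2) :=
    (memLp_two_iff_integrable_sq_norm (Lp.aestronglyMeasurable (TT n X))).1 (Lp.memLp (TT n X))
  have hE : ∀ L, 0 < L → ∫⁻ z in {z | 0 < O.psi u L z}ᶜ,
      ENNReal.ofReal (‖(TT n X : ℂ → ℂ) z‖ ^ 2) ≤
      ENNReal.ofReal (E n {z | 0 < O.psi u L z} X) := by
    intro L hL
    rw [← ofReal_integral_eq_lintegral_ofReal hYi.restrict
      (Eventually.of_forall fun z => sq_nonneg _)]
    exact ENNReal.ofReal_le_ofReal (hoff n _ X (isOpen_U hu.fam hL))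
  have hcore := core hr hrp hp2 hfcont hfc hu.fam hY hE
    (hQ.cont.mono (Icc_subset_Icc_right hsm.le)) hC
    (fun s hs => QForm.nonneg hp2 hQ ⟨hs.1, hs.2.trans hsm.le⟩) hfe hineq
  have e1 : ∀ z, ‖(TH n X : ℂ → ℂ) z‖ₑ ^ p = ENNReal.ofReal (‖(TT n X : ℂ → ℂ) z‖ ^ p) := by
    intro z
    rw [← ENNReal.ofReal_rpow_of_nonneg (norm_nonneg _) hp0.le, ofReal_norm]
    rfl
  have i4 : Integrable (fun z => ‖f z‖ ^ p) := by
    have hc : Continuous fun z => ‖f z‖ ^ p := hfcont.norm.rpow_const fun z => Or.inr hp0.le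
    apply hc.integrable_of_hasCompactSupport
    exact hfc.comp_left (g := fun y : ℂ => ‖y‖ ^ p) (by simp [Real.zero_rpow hp0.ne'])
  have e2 : ENNReal.ofReal (Cn n p ^ p) * ∫⁻ w, ‖f w‖ₑ ^ p =
      ENNReal.ofReal (Cn n p ^ p * ∫ z, ‖f z‖ ^ p) := by
    rw [ENNReal.ofReal_mul (by positivity), ofReal_integral_eq_lintegral_ofReal i4
      (Eventually.of_forall fun z => by positivity)]
    congr 1
    refine lintegral_congr fun z => ?_
    rw [← ENNReal.ofReal_rpow_of_nonneg (norm_nonneg _) hp0.le, ofReal_norm]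
  rw [e2]
  simp only [e1]
  exact hcore

end Pool.Agent.Lib.QNL.Asm
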