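import Pool.Agent.Lib.QNL.OFin19
import Pool.Agent.Lib.QNL.FamU77
import Pool.Agent.Lib.QNL.WeylS48
import Pool.Agent.Lib.QNL.EFin

/-!
Room QNL: (MAIN 1), from the inequality (BI), and without hypotheses.
-/

set_option autoImplicit false

namespace Pool.Agent.Lib.QNL.Main19

open Pool.Agent.Lib.QNL

theorem stmtHjet : StmtHjet := Jet79.hjet W48.stmtWeyl

theorem stmtOb : StmtOb := fun _ _ _ hu => OFin19.obst_of_fam hu

/-- the family of a given `u` -/
theorem famU_of (hBI : StmtBI) {μ : ℂ → ℝ} {C : ℝ} {u : ℝ → ℂ → ℝ} (hu : O.Fam μ C u) :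
    FamU μ C u :=
  FamU77.famU_of O.stmtConv stmtOb hBI stmtHjet hu

/-- (MAIN 1), strongest form -/
theorem stmtFamU (hBI : StmtBI) : StmtFamU :=
  FamU77.famU Per.stmtExist O.stmtConv stmtOb hBI stmtHjet

/-- the form used by the transport -/
theorem stmtFamS (hBI : StmtBI) : StmtFamS Link := FamU77.famS (stmtFamU hBI)

/-- (MAIN 1), two-point sources -/
theorem stmtFamO (hBI : StmtBI) : Fam19.StmtFamO := FamU77.famO (stmtFamU hBI)

/-! ### without hypotheses -/

/-- (MAIN 1), strongest form -/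
theorem famU : StmtFamU := stmtFamU EFin.stmtBI

/-- every obstacle family has all properties, with its layer inequality -/
theorem famU_all {μ : ℂ → ℝ} {C : ℝ} {u : ℝ → ℂ → ℝ} (hu : O.Fam μ C u) : FamU μ C u :=
  famU_of EFin.stmtBI hu

/-- the form used by the transport -/
theorem famS : StmtFamS Link := stmtFamS EFin.stmtBI

/-- (MAIN 1), two-point sources -/
theorem famO : Fam19.StmtFamO := stmtFamO EFin.stmtBI

/-- (MAIN 1) for `|X|^r` -/
theorem fam_pow {X : ℂ → ℂ} (hX : ContDiff ℝ 2 X) (hs : HasCompactSupport X) {r : ℝ}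
    (hr : 1 ≤ r) : ∃ (C : ℝ) (u : ℝ → ℂ → ℝ), FamU (fun z => ‖X z‖ ^ r) C u := by
  obtain ⟨C, hC⟩ := Src19.src_pow hX hs hr
  obtain ⟨u, hu⟩ := famU _ C hC
  exact ⟨C, u, hu⟩

end Pool.Agent.Lib.QNL.Main19
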