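import Pool.Agent.Lib.QNL.DerTrick
import Pool.Agent.Lib.QNL.FinN

/-!
Room QNL, group N: the one-variable data for `n = 1` (Iwaniec's conjecture by the same scheme).
-/

set_option autoImplicit false

namespace Pool.Agent.Lib.QNL.One1

open MeasureTheory Filter Topology Set
open Pool.Agent.Lib.QNL.FinN

/-- `w = a(1-a)` -/
noncomputable def ww (a : ℝ) : ℝ := a * (1 - a)

/-- `r = (1-w)/a` -/
noncomputable def rr (a : ℝ) : ℝ := (1 - ww a) / a

noncomputable def AA (a s : ℝ) : ℝ := (a + (1 - a) ^ 2 * s) / ((1 - a) + a ^ 2 * s)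

noncomputable def AA' (a s : ℝ) : ℝ :=
  -((2 * a - 1) * (1 - ww a)) / ((1 - a) + a ^ 2 * s) ^ 2

noncomputable def BB (a s : ℝ) : ℝ := (2 * a - 1) * (s - ww a) / (1 - ww a)

variable {a : ℝ}

theorem ww_pos (h0 : 1 / 2 < a) (h1 : a < 1) : 0 < ww a :=
  mul_pos (by linarith) (by linarith)

theorem ww_lt (h0 : 1 / 2 < a) (h1 : a < 1) : ww a < 1 - a := by
  unfold ww
  nlinarith

theorem ww_lt' (h0 : 1 / 2 < a) (h1 : a < 1) : ww a < 1 / 2 := by
  have := ww_lt h0 h1
  linarith

theorem den_pos (h0 : 1 / 2 < a) (h1 : a < 1) {s : ℝ} (hs : 0 ≤ s) :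
    0 < (1 - a) + a ^ 2 * s := by
  have : 0 ≤ a ^ 2 * s := mul_nonneg (sq_nonneg a) hs
  linarith

theorem hasDerivAt_AA (h0 : 1 / 2 < a) (h1 : a < 1) {s : ℝ} (hs : 0 ≤ s) :
    HasDerivAt (AA a) (AA' a s) s := by
  have hd := den_pos h0 h1 hs
  have d1 : HasDerivAt (fun s : ℝ => a + (1 - a) ^ 2 * s) ((1 - a) ^ 2) s := by
    simpa using ((hasDerivAt_id s).const_mul ((1 - a) ^ 2)).const_add a
  have d2 : HasDerivAt (fun s : ℝ => (1 - a) + a ^ 2 * s) (a ^ 2) s := by
    simpa using ((hasDerivAt_id s).const_mul (a ^ 2)).const_add (1 - a)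
  refine (d1.div d2 hd.ne').congr_deriv ?_
  unfold AA' ww
  congr 1
  ring

theorem hasDerivAt_BB (s : ℝ) : HasDerivAt (BB a) ((2 * a - 1) / (1 - ww a)) s := by
  have d1 : HasDerivAt (fun s : ℝ => (2 * a - 1) * (s - ww a)) (2 * a - 1) s := by
    simpa using ((hasDerivAt_id s).sub_const (ww a)).const_mul (2 * a - 1)
  exact d1.div_const _

/-- the sign of the derivative -/
theorem key (h0 : 1 / 2 < a) (h1 : a < 1) {s X : ℝ} (hs : 0 ≤ s) :
    X * ((2 - 1 / a) * AA a s + rr a * s * AA' a s) +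
      (rr a * s * ((2 * a - 1) / (1 - ww a)) - 1 / a * BB a s) =
      (1 - s) * ((2 * a - 1) * ww a / a *
        (X * ((1 - ww a * s) / ((1 - a) + a ^ 2 * s) ^ 2) + 1 / (1 - ww a))) := by
  have hd := den_pos h0 h1 hs
  have ha : 0 < a := by linarith
  have hw : 0 < 1 - ww a := by linarith [ww_lt' h0 h1]
  unfold AA AA' BB rr
  have hw' : 1 - a * (1 - a) ≠ 0 := by unfold ww at hw; exact hw.ne'
  unfold ww
  field_simp
  ring

theorem ineq (h0 : 1 / 2 < a) (h1 : a < 1) {y : ℝ} (hy : 0 ≤ y)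
    (hle : ww a * y ^ rr a ≤ 1) :
    y ^ 2 * AA a (y ^ rr a) + BB a (y ^ rr a) ≤ 2 * a * y ^ (1 / a) := by
  have ha : 0 < a := by linarith
  have hww := ww_pos h0 h1
  have hw1 := ww_lt' h0 h1
  have hw : 0 < 1 - ww a := by linarith
  have hr : 0 < rr a := div_pos hw ha
  have hpos : ∀ s : ℝ, 0 ≤ s → 0 < (2 * a - 1) * ww a / a := fun s _ => by
    have : 0 < 2 * a - 1 := by linarith
    positivity
  have hcA : ∀ u v : ℝ, 0 ≤ u → ContinuousOn (AA a) (Icc u v) := fun u v hu s hs =>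
    (hasDerivAt_AA h0 h1 (hu.trans hs.1)).continuousAt.continuousWithinAt
  have hcB : ∀ u v : ℝ, ContinuousOn (BB a) (Icc u v) := fun u v s _ =>
    (hasDerivAt_BB s).continuousAt.continuousWithinAt
  have hone : AA a 1 + BB a 1 ≤ 2 * a := by
    unfold AA BB
    have e1 : (a + (1 - a) ^ 2 * 1) / ((1 - a) + a ^ 2 * 1) = 1 := by
      rw [div_eq_one_iff_eq]
      · ring
      · nlinarith
    rw [e1, mul_div_assoc, div_self hw.ne']
    linarith
  have hsgn : ∀ x : ℝ, 0 < x → ww a * x ^ rr a ≤ 1 →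
      0 ≤ (2 * a - 1) * ww a / a * (x ^ 2 * ((1 - ww a * x ^ rr a) /
        ((1 - a) + a ^ 2 * x ^ rr a) ^ 2) + 1 / (1 - ww a)) := by
    intro x hx hx1
    have hs : 0 ≤ x ^ rr a := (Real.rpow_pos_of_pos hx _).le
    have h2 := hpos _ hs
    have h3 : 0 ≤ (1 - ww a * x ^ rr a) / ((1 - a) + a ^ 2 * x ^ rr a) ^ 2 :=
      div_nonneg (by linarith) (sq_nonneg _)
    have h4 : 0 ≤ 1 / (1 - ww a) := by positivity
    positivity
  rcases hy.eq_or_lt with hy0 | hy0
  · subst hy0
    rw [Real.zero_rpow hr.ne', Real.zero_rpow (by positivity)]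
    unfold BB
    have : 0 ≤ (2 * a - 1) * ww a / (1 - ww a) := by
      have : 0 < 2 * a - 1 := by linarith
      positivity
    have e : (2 * a - 1) * (0 - ww a) / (1 - ww a) = -((2 * a - 1) * ww a / (1 - ww a)) := by ring
    rw [e]
    norm_num
    exact this
  · rcases le_total y 1 with hy1 | hy1
    · refine DerTrick.left_s (p := 1 / a) (A' := AA' a)
        (B' := fun _ => (2 * a - 1) / (1 - ww a)) hr hy0
        (hcA _ _ (Real.rpow_pos_of_pos hy0 _).le) (hcB _ _)
        (fun s hs => hasDerivAt_AA h0 h1 ((Real.rpow_pos_of_pos hy0 _).le.trans hs.1.le))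
        (fun s _ => hasDerivAt_BB s) (fun x hx => ?_) hone y ⟨le_rfl, hy1⟩
      have hx0 : 0 < x := hy0.trans hx.1
      rw [key h0 h1 (Real.rpow_pos_of_pos hx0 _).le]
      have hxs : x ^ rr a ≤ 1 := Real.rpow_le_one hx0.le hx.2.le hr.le
      have h5 : ww a * x ^ rr a ≤ 1 := by nlinarith
      exact mul_nonneg (by linarith) (hsgn x hx0 h5)
    · refine DerTrick.right_s (p := 1 / a) (A' := AA' a)
        (B' := fun _ => (2 * a - 1) / (1 - ww a)) hr
        (hcA _ _ zero_le_one) (hcB _ _)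
        (fun s hs => hasDerivAt_AA h0 h1 (zero_le_one.trans hs.1.le))
        (fun s _ => hasDerivAt_BB s) (fun x hx => ?_) hone y ⟨hy1, le_rfl⟩
      have hx0 : 0 < x := zero_lt_one.trans hx.1
      rw [key h0 h1 (Real.rpow_pos_of_pos hx0 _).le]
      have hxs : 1 ≤ x ^ rr a := Real.one_le_rpow hx.1.le hr.le
      have h5 : ww a * x ^ rr a ≤ 1 := by
        have h6 : x ^ rr a ≤ y ^ rr a := Real.rpow_le_rpow hx0.le hx.2.le hr.le
        exact (mul_le_mul_of_nonneg_left h6 hww.le).trans hle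
      exact mul_nonpos_of_nonpos_of_nonneg (by linarith) (hsgn x hx0 h5)

/-! ### The quadratic form -/

/-- the multipliers -/
noncomputable def th (a : ℝ) (j : ℕ) : ℝ := if j = 0 then a / (1 - a) else 0

/-- the shares -/
noncomputable def Bs (j : ℕ) : ℝ := if j = 1 then 1 else 0

/-- the value -/
noncomputable def WW (a s : ℝ) : ℝ :=
  (a / (1 - a)) ^ 2 * ((1 - a) / a ^ 2 * ((a - (1 - a) * s) / (1 - s)))

theorem quad (h0 : 1 / 2 < a) (h1 : a < 1) {s : ℝ} (hs : s < 1) (u v : ℝ) :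
    a / (1 - a) * ((2 - 1 / a) * s) * (u - v) ^ 2 + (1 - a / (1 - a)) * v ^ 2 +
      a / (1 - a) * u ^ 2 ≤ WW a s * u ^ 2 := by
  have ha : 0 < a := by linarith
  have hd : 0 < 1 - a := by linarith
  have hs1 : 0 < 1 - s := by linarith
  have hθ : 0 < 2 * a - 1 := by linarith
  have e : WW a s * u ^ 2 - (a / (1 - a) * ((2 - 1 / a) * s) * (u - v) ^ 2 +
      (1 - a / (1 - a)) * v ^ 2 + a / (1 - a) * u ^ 2) =
      (2 * a - 1) / ((1 - a) * (1 - s)) * ((1 - s) * v + s * u) ^ 2 := by
    unfold WW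
    field_simp
    ring
  have h2 : 0 ≤ (2 * a - 1) / ((1 - a) * (1 - s)) * ((1 - s) * v + s * u) ^ 2 := by positivity
  linarith

theorem one_one : One 1 := by
  intro p hp1 hp2
  have hp0 : 0 < p := by linarith
  obtain ⟨a, ha⟩ : ∃ a, a = 1 / p := ⟨_, rfl⟩
  have hpa : p = 1 / a := by rw [ha]; simp
  have h0 : 1 / 2 < a := by
    rw [ha]; exact one_div_lt_one_div_of_lt hp0 hp2
  have h1 : a < 1 := by
    rw [ha, div_lt_one hp0]; exact hp1
  have ha0 : 0 < a := by linarith
  have hd : 0 < 1 - a := by linarith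
  have hww := ww_pos h0 h1
  have hw1 := ww_lt' h0 h1
  have hw : 0 < 1 - ww a := by linarith
  have hr : 0 < rr a := div_pos hw ha0
  have hrp : rr a / p = 1 - ww a := by
    rw [hpa]; unfold rr; field_simp
  have hw2 : 1 - rr a / p = ww a := by rw [hrp]; ring
  have h1r : 1 / rr a < 1 := by
    unfold rr
    rw [one_div_div, div_lt_one hw]
    linarith [ww_lt h0 h1]
  have hC : Cn 1 p = a / (1 - a) := by
    unfold Cn
    rw [ascPochhammer_one]
    simp only [Polynomial.eval_X]
    rw [ha]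
  refine ⟨rr a, (1 / rr a + 1) / 2, th a, Bs, WW a, ?_, ?_, by linarith, fun j => rfl, ?_, ?_⟩
  · rw [div_lt_one hr] at h1r
    exact h1r.le
  · have h3 : rr a = (1 - ww a) * p := by
      rw [← hrp]; field_simp
    rw [h3]
    nlinarith
  · constructor
    · intro j
      unfold th
      split_ifs
      · positivity
      · exact le_rfl
    · simp [th]
    · intro j; unfold Bs; split_ifs <;> norm_num
    · intro j hj
      interval_cases j
      simp only [Bs, th]
      norm_num
      rw [le_div_iff₀ hd]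
      linarith
    · unfold WW
      refine continuousOn_const.mul (continuousOn_const.mul (ContinuousOn.div (by fun_prop)
        (by fun_prop) fun s hs => ?_))
      have := hs.2
      have : s < 1 := by linarith
      linarith
    · intro s hs e
      have hs1 : s < 1 := by have := hs.2; linarith
      have hre := quad h0 h1 hs1 (e 0).re (e 1).re
      have him := quad h0 h1 hs1 (e 0).im (e 1).im
      have n (z : ℂ) : ‖z‖ ^ 2 = z.re ^ 2 + z.im ^ 2 := by
        rw [Complex.sq_norm, Complex.normSq_apply]; ring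
      simp only [Finset.sum_range_succ, Finset.sum_range_zero, th, Bs]
      norm_num
      rw [n, n, n, Complex.sub_re, Complex.sub_im]
      rw [hpa]
      norm_num at hre him ⊢
      nlinarith [hre, him]
  · intro y hy hle
    rw [hw2] at hle ⊢
    have hH := ineq h0 h1 hy hle
    rw [hC]
    have hX : 0 ≤ y ^ rr a := Real.rpow_nonneg hy _
    have hden := den_pos h0 h1 hX
    have e1 : WW a ((1 - ww a * y ^ rr a) / rr a) = (a / (1 - a)) ^ 2 * AA a (y ^ rr a) := by
      unfold WW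
      congr 1
      generalize y ^ rr a = X at hX hden
      have e2 : 1 - (1 - ww a * X) / rr a = (1 - a) * ((1 - a) + a ^ 2 * X) / (1 - ww a) := by
        unfold rr ww
        have hw' : 1 - a * (1 - a) ≠ 0 := by unfold ww at hw; exact hw.ne'
        field_simp
        ring
      have e3 : a - (1 - a) * ((1 - ww a * X) / rr a) =
          a ^ 2 * (a + (1 - a) ^ 2 * X) / (1 - ww a) := by
        unfold rr ww
        have hw' : 1 - a * (1 - a) ≠ 0 := by unfold ww at hw; exact hw.ne'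
        field_simp
        ring
      rw [e2, e3]
      unfold AA
      field_simp
    rw [e1, hrp]
    have e4 : (2 / p - 1) * (a / (1 - a)) ^ 2 * ((y ^ rr a - ww a) / (1 - ww a)) =
        (a / (1 - a)) ^ 2 * BB a (y ^ rr a) := by
      unfold BB
      rw [show 2 / p = 2 * a by rw [ha]; ring]
      ring
    rw [e4, show 2 / p = 2 * a by rw [ha]; ring]
    have e5 : y ^ (1 / a) = y ^ p := by rw [← hpa]
    rw [e5] at hH
    have := mul_le_mul_of_nonneg_left hH (sq_nonneg (a / (1 - a)))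
    nlinarith [this]

end Pool.Agent.Lib.QNL.One1
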