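import Pool.Agent.Lib.QNL.FinN

/-!
Room QNL, group N: the one-variable data for `n = 2`, from `OneVar`.
-/

set_option autoImplicit false

namespace Pool.Agent.Lib.QNL.FinN

open MeasureTheory Filter Topology Set
open Pool.Agent.Lib.QNL.OneVar

/-- the value function for `n = 2` -/
noncomputable def W2 (a s : ℝ) : ℝ := CC a ^ 2 * vv a (s / a)

/-- the multipliers for `n = 2` -/
noncomputable def th2 (a : ℝ) (j : ℕ) : ℝ :=
  if j = 0 then CC a ^ 2 * ((1 - a) / a)
  else if j = 1 then CC a ^ 2 * ((1 - a) ^ 2 * (2 - a) / (a ^ 2 * (1 + a))) else 0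

variable {a : ℝ}

/-- the shares for `n = 2` -/
noncomputable def B2 (j : ℕ) : ℝ := if j = 2 then 1 else 0

theorem CC_pos (h1 : 1 / 2 < a) (h2 : a < 1) : 0 < CC a := by
  unfold CC
  have : 0 < 1 - a := by linarith
  have : 0 < 2 - a := by linarith
  positivity

theorem good_le (h1 : 1 / 2 < a) (h2 : a < 1) {y : ℝ} (hy : y ≤ 1 / (1 - ww a)) :
    0 < 3 - (1 + a) * y ∧ 0 < QQ a y := by
  have hw := ww_pos h1 h2
  have hw' := ww_lt h1 h2
  have h1w : 0 < 1 - ww a := by linarith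
  set u := (1 - (1 - ww a) * y) / ww a with hu
  have hy' : y * (1 - ww a) ≤ 1 := (le_div_iff₀ h1w).1 hy
  have hu0 : 0 ≤ u := by
    rw [hu]; apply div_nonneg _ hw.le; linarith
  have hyu : yy a u = y := by
    unfold yy
    rw [hu, mul_div_cancel₀ _ hw.ne', sub_sub_cancel, mul_div_cancel_left₀ _ h1w.ne']
  have e1 := three_sub_pos h1 h2 hu0
  have e2 := QQ_pos h1 h2 hu0
  rw [hyu] at e1 e2
  exact ⟨e1, e2⟩

theorem continuous_QQ : Continuous (QQ a) := by
  unfold QQ; fun_prop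

theorem exists_smax (h1 : 1 / 2 < a) (h2 : a < 1) : ∃ y₀ : ℝ, 1 / (1 - ww a) < y₀ ∧
    ∀ y, y ≤ y₀ → 0 < 3 - (1 + a) * y ∧ 0 < QQ a y := by
  have hg := good_le h1 h2 (le_refl (1 / (1 - ww a)))
  have ho : IsOpen ({y : ℝ | 0 < 3 - (1 + a) * y} ∩ {y : ℝ | 0 < QQ a y}) := by
    apply IsOpen.inter
    · exact isOpen_lt continuous_const (by fun_prop)
    · exact isOpen_lt continuous_const continuous_QQ
  obtain ⟨ε, hε, hball⟩ := Metric.isOpen_iff.1 ho _ hg
  refine ⟨1 / (1 - ww a) + ε / 2, by linarith, fun y hy => ?_⟩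
  rcases le_total y (1 / (1 - ww a)) with h | h
  · exact good_le h1 h2 h
  · apply hball
    rw [Metric.mem_ball, Real.dist_eq, abs_of_nonneg (by linarith)]
    linarith

theorem form_le (h1 : 1 / 2 < a) (h2 : a < 1) {y : ℝ} (h3 : 0 < 3 - (1 + a) * y)
    (h4 : 0 < QQ a y) (e0 e1 e2 : ℂ) : FF a y e0 e1 e2 ≤ vv a y * ‖e0‖ ^ 2 := by
  have hre := quad h1 h2 h3 h4 e0.re e1.re e2.re
  have him := quad h1 h2 h3 h4 e0.im e1.im e2.im
  unfold FF CC
  have n (z : ℂ) : ‖z‖ ^ 2 = z.re ^ 2 + z.im ^ 2 := by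
    rw [Complex.sq_norm, Complex.normSq_apply]; ring
  rw [n, n, n, n, n, Complex.sub_re, Complex.sub_im, Complex.sub_re, Complex.sub_im, add_div]
  nlinarith [hre, him]

theorem qform2 (h1 : 1 / 2 < a) (h2 : a < 1) {y₀ : ℝ}
    (hy₀ : ∀ y, y ≤ y₀ → 0 < 3 - (1 + a) * y ∧ 0 < QQ a y) :
    QForm 2 (1 / a) (a * y₀) (th2 a) B2 (W2 a) := by
  have ha : 0 < a := by linarith
  have e1 : 0 < 1 - a := by linarith
  have e2 : 0 < 2 - a := by linarith
  have hC := CC_pos h1 h2
  have z0 : B2 0 = 0 := by simp [B2]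
  have z1 : B2 1 = 0 := by simp [B2]
  have z2 : B2 2 = 1 := by simp [B2]
  have t0 : th2 a 0 = CC a ^ 2 * ((1 - a) / a) := by simp [th2]
  have t1 : th2 a 1 = CC a ^ 2 * ((1 - a) ^ 2 * (2 - a) / (a ^ 2 * (1 + a))) := by simp [th2]
  have t2 : th2 a 2 = 0 := by simp [th2]
  have hsy : ∀ s, s ≤ a * y₀ → s / a ≤ y₀ := by
    intro s hs
    rw [div_le_iff₀ ha, mul_comm]; exact hs
  constructor
  · intro j
    unfold th2
    split_ifs <;> positivity
  · exact t2
  · intro j; unfold B2; split_ifs <;> norm_num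
  · intro j hj
    interval_cases j
    · change B2 1 + th2 a 1 ≤ th2 a 0
      rw [t0, t1, z1, zero_add]
      apply mul_le_mul_of_nonneg_left _ (by positivity)
      rw [div_le_div_iff₀ (by positivity) ha]
      have : 0 ≤ (1 - a) * a * (4 * a - 2) := by
        have : 0 ≤ 4 * a - 2 := by linarith
        positivity
      nlinarith
    · change B2 2 + th2 a 2 ≤ th2 a 1
      rw [t1, t2, z2, add_zero]
      unfold CC
      have : (a * (1 + a) / ((1 - a) * (2 - a))) ^ 2 *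
          ((1 - a) ^ 2 * (2 - a) / (a ^ 2 * (1 + a))) = (1 + a) / (2 - a) := by
        field_simp
      rw [this, le_div_iff₀ e2]
      linarith
  · have hc : ContinuousOn (fun s => vv a (s / a)) (Icc 0 (a * y₀)) := by
      unfold vv
      have hq : Continuous fun s : ℝ => QQ a (s / a) :=
        continuous_QQ.comp (continuous_id.div_const a)
      apply ContinuousOn.mul continuousOn_const
      apply ContinuousOn.add continuousOn_const
      apply ContinuousOn.div
      · fun_prop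
      · exact hq.continuousOn
      · intro s hs
        exact (hy₀ _ (hsy s hs.2)).2.ne'
    exact continuousOn_const.mul hc
  · intro s hs e
    obtain ⟨g3, g4⟩ := hy₀ _ (hsy s hs.2)
    have hf := form_le h1 h2 g3 g4 (e 0) (e 1) (e 2)
    have hf2 := mul_le_mul_of_nonneg_left hf (sq_nonneg (CC a))
    have e5 : (2 - 1 / a) * s = (2 * a - 1) * (s / a) := by field_simp
    rw [e5]
    unfold W2
    have e6 : CC a ^ 2 * (vv a (s / a) * ‖e 0‖ ^ 2) = CC a ^ 2 * vv a (s / a) * ‖e 0‖ ^ 2 := by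
      ring
    rw [e6] at hf2
    refine le_trans (le_of_eq ?_) hf2
    simp only [Finset.sum_range_succ, Finset.sum_range_zero]
    change 0 + th2 a 0 / (2 * ((0 : ℕ) : ℝ) + 1) * ((2 * a - 1) * (s / a)) * ‖e 0 - e 1‖ ^ 2 +
      th2 a 1 / (2 * ((1 : ℕ) : ℝ) + 1) * ((2 * a - 1) * (s / a)) * ‖e 1 - e 2‖ ^ 2 +
      (0 + (B2 1 + th2 a 1 - th2 a 0) * ‖e 1‖ ^ 2 + (B2 2 + th2 a 2 - th2 a 1) * ‖e 2‖ ^ 2) +
      (B2 0 + th2 a 0) * ‖e 0‖ ^ 2 = _
    rw [t0, t1, t2, z0, z1, z2]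
    unfold FF
    have hC' := hC.ne'
    generalize CC a = c at hC'
    generalize ‖e 0 - e 1‖ ^ 2 = n01
    generalize ‖e 1 - e 2‖ ^ 2 = n12
    generalize ‖e 0‖ ^ 2 = n0
    generalize ‖e 1‖ ^ 2 = n1
    generalize ‖e 2‖ ^ 2 = n2
    push_cast
    field_simp
    ring

theorem Cn_two (p : ℝ) : Cn 2 p = CC (1 / p) := by
  unfold Cn CC
  have h : ∀ x : ℝ, (ascPochhammer ℝ 2).eval x = x * (x + 1) := by
    intro x
    rw [show (2 : ℕ) = 1 + 1 from rfl, ascPochhammer_succ_right, ascPochhammer_one]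
    simp
  rw [h, h]
  congr 1 <;> ring

/-- **the one-variable data for `n = 2`** -/
theorem one_two : One 2 := by
  intro p hp1 hp2
  have hp0 : 0 < p := by linarith
  set a := 1 / p with ha
  have hpa : p = 1 / a := by rw [ha]; simp
  have h1 : 1 / 2 < a := by
    rw [ha]; exact one_div_lt_one_div_of_lt hp0 hp2
  have h2 : a < 1 := by
    rw [ha, div_lt_one hp0]; exact hp1
  have ha0 : 0 < a := by linarith
  obtain ⟨y₀, hy₀, hy₁⟩ := exists_smax h1 h2
  have hw := ww_pos h1 h2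
  have hw' := ww_lt h1 h2
  have h1w : 0 < 1 - ww a := by linarith
  have hrr := one_le_rr h1 h2
  have hrp : rr a / p = 1 - ww a := by
    rw [hpa]; unfold rr; field_simp
  have hw2 : 1 - rr a / p = ww a := by rw [hrp]; ring
  refine ⟨rr a, a * y₀, th2 a, B2, W2 a, hrr, ?_, ?_, fun j => rfl,
    ?_, ?_⟩
  · have h3 : rr a = (1 - ww a) * p := by
      rw [← hrp]; field_simp
    rw [h3]
    nlinarith
  · unfold rr
    rw [one_div_div]
    calc a / (1 - ww a) = a * (1 / (1 - ww a)) := by ring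
      _ < a * y₀ := mul_lt_mul_of_pos_left hy₀ ha0
  · rw [hpa]
    exact qform2 h1 h2 hy₁
  · intro y hy hle
    rw [hw2] at hle ⊢
    have hH := HH_nonpos h1 h2 hy hle
    unfold HH at hH
    rw [Cn_two, ← ha]
    have e1 : W2 a ((1 - ww a * y ^ rr a) / rr a) = CC a ^ 2 * vv a (yy a (y ^ rr a)) := by
      unfold W2 yy rr
      congr 2
      field_simp
    rw [e1, hrp]
    have e2 : (y ^ rr a - ww a) / (1 - ww a) = 1 - (1 - y ^ rr a) / (1 - ww a) := by
      field_simp; ring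
    have e3 : 2 / p = 2 * a := by rw [ha]; ring
    rw [e2, e3]
    have e4 : y ^ (1 / a) = y ^ p := by rw [← hpa]
    rw [e4] at hH
    have := mul_le_mul_of_nonneg_left hH (sq_nonneg (CC a))
    rw [mul_zero] at this
    nlinarith [this]

/-- **`(A_2)` from the interface statements** -/
theorem lowH_two (hFam : StmtFam) (hF : StmtF) (hoff : StmtHoff) (hSrc : StmtSrc) :
    StmtLowH 2 := lowH_of hFam hF hoff hSrc one_two

end Pool.Agent.Lib.QNL.FinN
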