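import Pool.Agent.Lib.QNL.Asm58
import Pool.Agent.Lib.QNL.Fin58
import Pool.Agent.Lib.QNL.Bal77
import Pool.Agent.Lib.QNL.HR46
import Pool.Agent.Lib.QNL.Main19
import Pool.Agent.Lib.QNL.EFin
import Pool.Agent.Lib.QNL.H031
import Pool.Agent.Lib.QNL.Low58
import Pool.Agent.Lib.QNL.One1
import Pool.Agent.Lib.QNL.One2

/-!
Room QNL, final assembly: everything from the refund inequality (group C) and the numeric
certificates (group N).
-/

set_option autoImplicit false

namespace Pool.Agent.Lib.QNL.Asm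

open MeasureTheory Filter Topology Set
open scoped ENNReal ContDiff
open Pool.Agent.Lib.QNL.FinN
open Pool.Agent.Lib.QNL.Wts73
open Pool.Agent.Lib.QNL.CG

theorem stmtFamU : StmtFamU := Main19.stmtFamU EFin.stmtBI

theorem stmtF : StmtF := F31.stmtF

/-- **the output of group C**: the refund inequality for the extraction density of the explicit
weights and an antitone minorant `k1` -/
def StmtRefundG : Prop := ∀ (p c r : ℝ) (k1 : ℝ → ℝ), 1 < p → p < 2 → 1 ≤ c → 1 ≤ r → r < p →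
  (∀ l, 0 < l → 0 ≤ k1 l) → (∀ l, 0 < l → k1 l ≤ kh (1 / p) c l) → AntitoneOn k1 (Ioi 0) →
  Refund p r (kap (1 / p) c) (HR46.Rf p r (∫ l in Ioi (0 : ℝ), k1 l)
    (∫ l in Ioi (0 : ℝ), k1 l * (Real.exp ((p / r - 1) * l / 2) - 1))
    ((∫ l in Ioi (0 : ℝ), kh (1 / p) c l) - ∫ l in Ioi (0 : ℝ), k1 l))

/-- **the output of group N**: the numeric certificates -/
def StmtCertG : Prop := ∀ (n : ℕ), 2 ≤ n → ∀ p : ℝ, 1 < p → p < 2 →
  ∃ (c r smax Lam : ℝ) (V k1 : ℝ → ℝ), CertG n p c r smax Lam V k1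

/-- the same for `n ≥ 3` only (enough: `n = 1, 2` are proved without transport) -/
def StmtCertG3 : Prop := ∀ (n : ℕ), 3 ≤ n → ∀ p : ℝ, 1 < p → p < 2 →
  ∃ (c r smax Lam : ℝ) (V k1 : ℝ → ℝ), CertG n p c r smax Lam V k1

theorem certG3_of (h : StmtCertG) : StmtCertG3 := fun n hn => h n (by omega)

/-- a numeric certificate and the refund inequality give a `Cert` -/
theorem cert_of (hRef : StmtRefundG) {n : ℕ} (hn : 1 ≤ n) {p c r smax Lam : ℝ} {V k1 : ℝ → ℝ}
    (hp1 : 1 < p) (hp2 : p < 2) (h : CertG n p c r smax Lam V k1) : Nonempty (Cert n p) := by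
  have hp0 : 0 < p := by linarith
  have ha0 : 0 < 1 / p := by positivity
  have ha1 : 1 / p < 1 := by rw [div_lt_one hp0]; exact hp1
  have hC : CC (1 / p) n = Cn n p := CC_eq_Cn hp1 n
  have e1 : ∀ l : ℝ, (2 * (1 / p) - 1) * l = (2 / p - 1) * l := fun l => by ring
  have hZ := Bal77.exit_mass ha0 ha1 h.one_le_c hn
  simp only [e1] at hZ
  have hbal := Bal77.balance ha0 ha1 h.one_le_c hn
  rw [hC] at hbal
  have hext : extrD (Bal77.wt (1 / p) c) (Bal77.wt' (1 / p) c) (pj (1 / p)) = kap (1 / p) c :=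
    funext fun l => Bal77.extrD_wt ha1 l
  refine ⟨{
    r := r
    smax := smax
    c₀ := Bal77.c0 n (1 / p) c
    Zn := Bal77.Zn n (1 / p) c
    Lam := Lam
    th := Ric.thj n (1 / p) (bs n (1 / p) c)
    B := Ric.Bj n (1 / p) (bs n (1 / p) c)
    V := V
    pj := pj (1 / p)
    rj := rj (1 / p)
    w := Bal77.wt (1 / p) c
    w' := Bal77.wt' (1 / p) c
    Rf := HR46.Rf p r (∫ l in Ioi (0 : ℝ), k1 l)
      (∫ l in Ioi (0 : ℝ), k1 l * (Real.exp ((p / r - 1) * l / 2) - 1))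
      ((∫ l in Ioi (0 : ℝ), kh (1 / p) c l) - ∫ l in Ioi (0 : ℝ), k1 l)
    hr := h.one_le_r
    hrp := h.r_lt
    hsm := h.lt_smax
    hQ := h.form
    hchain := fun ℓ hℓ => Bal77.chain_wt ha0 ha1 h.one_le_c hn ℓ hℓ
    hc₀ := (Bal77.c0_pos ha0 ha1 (by linarith [h.one_le_c]) hn).le
    hshare := ?_
    hZn := Bal77.Zn_pos ha0 ha1 h.one_le_c hn
    hLam := h.Lam_nonneg
    hZ := hZ
    hRef := ?_
    hTOP := ?_ }⟩
  · intro e _
    rw [HU_.shr_sum]
    refine le_of_eq (Finset.sum_congr rfl fun j hj => ?_)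
    rw [Bal77.shr_eq ha0 ha1 hn (Nat.lt_succ_iff.1 (Finset.mem_range.1 hj))]
  · rw [hext]
    exact hRef p c r k1 hp1 hp2 h.one_le_c h.one_le_r h.r_lt h.k1_nonneg h.k1_le h.k1_anti
  · intro y hy hwy
    have ht := h.top y hy hwy
    rw [hbal]
    unfold HR46.Rf
    set K1 := ∫ l in Ioi (0 : ℝ), k1 l
    set ep := ∫ l in Ioi (0 : ℝ), k1 l * (Real.exp ((p / r - 1) * l / 2) - 1)
    set Hh := ∫ l in Ioi (0 : ℝ), kh (1 / p) c l
    refine le_trans (le_of_eq ?_) ht
    ring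

/-- `n = 1` (Iwaniec's conjecture), unconditional -/
theorem lowH_one : StmtLowH 1 := lowH_of_one stmtFamU stmtF Hil.stmtHoff One1.one_one

/-- `n = 2`, unconditional -/
theorem lowH_two : StmtLowH 2 := lowH_of_one stmtFamU stmtF Hil.stmtHoff FinN.one_two

/-- **all powers, all exponents**, certificates for `n ≥ 3` -/
theorem frz_all3 (hRef : StmtRefundG) (hN : StmtCertG3) (n : ℕ) : Fin.Frz n :=
  Fin.frz_of_low (fun n hn => by
    rcases hn.eq_or_lt with rfl | hn
    · exact lowH_one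
    · rcases (Nat.succ_le_of_lt hn).eq_or_lt with rfl | hn
      · exact lowH_two
      · exact lowH_of_cert stmtFamU stmtF fun p hp1 hp2 => by
          obtain ⟨c, r, smax, Lam, V, k1, h⟩ := hN n hn p hp1 hp2
          exact cert_of hRef (by omega) hp1 hp2 h) n

/-- **all powers, all exponents** -/
theorem frz_all (hRef : StmtRefundG) (hN : StmtCertG) (n : ℕ) : Fin.Frz n :=
  frz_all3 hRef (certG3_of hN) n

end Pool.Agent.Lib.QNL.Asm
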