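import Mathlib
import Pool.Agent.Lib.QNL.DerTrick
import Pool.Agent.Lib.QNL.Brk38

/-!
# From the polynomial inequality to the one-variable inequality (room QNL)

`a = 1/p`, `m = 2 - p`, `th = 2a - 1`, `w = 1 - a r`, `kk = w/(1-w)`, `de = w/a = p - r`,
`eta = kk (1 - x^r)`.
-/

namespace Pool.Agent.Lib.QNL.Glue87

open Set

/-- second lower bracket for `x² = s^(2/r)` -/
theorem sq_lower2 {r x : ℝ} (hr1 : 1 ≤ r) (hr2 : r ≤ 2) (hx : 0 ≤ x) :
    (x ^ r) ^ 2 * (1 - (2 - 2 / r) * (x ^ r - 1)) ≤ x ^ 2 := by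
  have hr : 0 < r := by linarith
  rcases hx.eq_or_lt with h0 | h0
  · rw [← h0, Real.zero_rpow hr.ne']; norm_num
  · set s := x ^ r with hs
    have hpos : 0 < s := Real.rpow_pos_of_pos h0 r
    have hb0 : 0 ≤ 2 - 2 / r := by rw [sub_nonneg, div_le_iff₀ hr]; linarith
    have hb1 : 2 - 2 / r ≤ 1 := by
      rw [sub_le_comm, le_div_iff₀ hr]; linarith
    have hB := rpow_one_add_le_one_add_mul_self (s := s - 1) (p := 2 - 2 / r)
      (by linarith) hb0 hb1
    rw [add_sub_cancel] at hB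
    have e : x ^ 2 * s ^ (2 - 2 / r) = s ^ 2 := by
      rw [hs, ← Real.rpow_mul hx, ← Real.rpow_two x, ← Real.rpow_add h0, ← Real.rpow_two,
        ← Real.rpow_mul hx]
      congr 1
      field_simp
      ring
    set t := (2 - 2 / r) * (s - 1) with ht
    have h1 : s ^ 2 ≤ x ^ 2 * (1 + t) := by
      rw [← e]; exact mul_le_mul_of_nonneg_left hB (sq_nonneg x)
    rcases le_or_gt (1 - t) 0 with h2 | h2
    · nlinarith [sq_nonneg s, sq_nonneg x, mul_nonneg (sq_nonneg s) (neg_nonneg.2 h2)]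
    · calc s ^ 2 * (1 - t) ≤ x ^ 2 * (1 + t) * (1 - t) := mul_le_mul_of_nonneg_right h1 h2.le
        _ = x ^ 2 - (x * t) ^ 2 := by ring
        _ ≤ x ^ 2 := by linarith [sq_nonneg (x * t)]

section glue

variable {a w K e lam : ℝ} {U U' : ℝ → ℝ}

/-- upper bracket of `x²` as a function of `eta` -/
noncomputable def qU (a w η : ℝ) : ℝ :=
  (1 - η * (1 - w) / w) * (1 - (2 * a / (1 - w) - 1) * (η * (1 - w) / w))

/-- lower bracket of `x²` as a function of `eta` -/
noncomputable def qL (a w η : ℝ) : ℝ :=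
  (1 - η * (1 - w) / w) ^ 2 * (1 + (2 - 2 * a / (1 - w)) * (η * (1 - w) / w))

/-- the coefficient of `x²` in the derivative form -/
noncomputable def MM (a w K e : ℝ) (u u' η : ℝ) : ℝ :=
  (1 - K) / a + e * (2 - 1 / a) + (2 - 1 / a) * u - (w / a) * (1 - η * (1 - w) / w) * u'

/-- the rest of the derivative form -/
noncomputable def WW (a w K e lam η : ℝ) : ℝ :=
  -((1 - K) / a + e * (2 - 1 / a)) + (w / a) * lam * (1 + η) - 2 * e * η

/-- left side of the one-variable inequality -/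
noncomputable def TOP (a w K e lam : ℝ) (v x : ℝ) : ℝ :=
  x ^ 2 * (1 - K + (2 * a - 1) * e + v)
    + (1 - K) * ((2 * a - 1) - 2 * a * x ^ (1 / a)) - (2 * a - 1) * e
    - ((2 * a - 1) * lam / a - 2 * ((2 * a - 1) * e) / w)
      * ((w * a / (1 - w)) * (1 - x ^ ((1 - w) / a)))

theorem affine_nonpos {M W q1 q2 q : ℝ} (h1 : q1 * M + W ≤ 0) (h2 : q2 * M + W ≤ 0)
    (hq1 : q1 ≤ q) (hq2 : q ≤ q2) : q * M + W ≤ 0 := by
  rcases le_total 0 M with h | h
  · have := mul_le_mul_of_nonneg_right hq2 h; linarith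
  · have := mul_le_mul_of_nonpos_right hq1 h; linarith

theorem affine_nonneg {M W q1 q2 q : ℝ} (h1 : 0 ≤ q1 * M + W) (h2 : 0 ≤ q2 * M + W)
    (hq1 : q1 ≤ q) (hq2 : q ≤ q2) : 0 ≤ q * M + W := by
  rcases le_total 0 M with h | h
  · have := mul_le_mul_of_nonneg_right hq1 h; linarith
  · have := mul_le_mul_of_nonpos_right hq2 h; linarith

/-- **The core.**  If `eta (x² M + W) ≥ 0` for `0 < x`, `x^r < 1/w`, `eta = kk (1 - x^r)`, then
the one-variable inequality holds on the whole range `0 ≤ x`, `w x^r ≤ 1`. -/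
theorem glue_core (ha : 1 / 2 ≤ a) (ha1 : a < 1) (hw0 : 0 < w) (hw1 : w < 1) (hr : a ≤ 1 - w)
    (hUc : ContinuousOn U (Icc (-1) (w / (1 - w))))
    (hUd : ∀ η ∈ Ioo (-1) (w / (1 - w)), HasDerivAt U (U' η) η) (hU0 : U 0 = 0)
    (H : ∀ x η : ℝ, 0 < x → x ^ ((1 - w) / a) < 1 / w →
      η = (w / (1 - w)) * (1 - x ^ ((1 - w) / a)) →
      0 ≤ η * (x ^ 2 * MM a w K e (U η) (U' η) η + WW a w K e lam η)) :
    ∀ x : ℝ, 0 ≤ x → w * x ^ ((1 - w) / a) ≤ 1 →
      ∀ v ≤ (2 * a - 1) * U ((w / (1 - w)) * (1 - x ^ ((1 - w) / a))),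
      TOP a w K e lam v x ≤ 0 := by
  have ha0 : 0 < a := by linarith
  have h1w : 0 < 1 - w := by linarith
  have hth : 0 ≤ 2 * a - 1 := by linarith
  set r : ℝ := (1 - w) / a with hrdef
  set kk : ℝ := w / (1 - w) with hkk
  set p : ℝ := 1 / a with hp
  have hr0 : 0 < r := by positivity
  have hr1 : 1 ≤ r := by rw [hrdef, le_div_iff₀ ha0]; linarith
  have hr2 : r ≤ 2 := by rw [hrdef, div_le_iff₀ ha0]; linarith
  have hkk0 : 0 < kk := by positivity
  have hkks : ∀ s : ℝ, 1 - kk * (1 - s) * (1 - w) / w = s := by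
    intro s; rw [hkk]; field_simp; ring
  -- the functions of `s`
  let A : ℝ → ℝ := fun s => 1 - K + (2 * a - 1) * e + (2 * a - 1) * U (kk * (1 - s))
  let A' : ℝ → ℝ := fun s => (2 * a - 1) * (U' (kk * (1 - s)) * (-kk))
  let B : ℝ → ℝ := fun s => (1 - K) * (2 * a - 1) - (2 * a - 1) * e
    - ((2 * a - 1) * lam / a - 2 * ((2 * a - 1) * e) / w) * ((w * a / (1 - w)) * (1 - s))
  let B' : ℝ → ℝ := fun _ => ((2 * a - 1) * lam / a - 2 * ((2 * a - 1) * e) / w)
    * (w * a / (1 - w))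
  have key : ∀ x s η : ℝ, η = kk * (1 - s) →
      x ^ 2 * ((2 - p) * A s + r * s * A' s) + (r * s * B' s - p * B s)
      = (2 * a - 1) * (x ^ 2 * MM a w K e (U η) (U' η) η + WW a w K e lam η) := by
    intro x s η hη
    subst hη
    simp only [A, A', B, B', MM, WW, hkks]
    rw [hp, hrdef, hkk]
    generalize U (w / (1 - w) * (1 - s)) = u
    generalize U' (w / (1 - w) * (1 - s)) = u'
    have h1w' : (1 - w) ≠ 0 := h1w.ne'
    field_simp
    ring
  have hin : ∀ s : ℝ, 0 ≤ s → s ≤ 1 / w → kk * (1 - s) ∈ Icc (-1) kk := by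
    intro s h0 h1
    constructor
    · have : kk * (1 - 1 / w) ≤ kk * (1 - s) :=
        mul_le_mul_of_nonneg_left (by linarith) hkk0.le
      have e1 : kk * (1 - 1 / w) = -1 := by rw [hkk]; field_simp; ring
      linarith
    · nlinarith [mul_nonneg hkk0.le h0]
  have hin' : ∀ s : ℝ, 0 < s → s < 1 / w → kk * (1 - s) ∈ Ioo (-1) kk := by
    intro s h0 h1
    constructor
    · have : kk * (1 - 1 / w) < kk * (1 - s) := mul_lt_mul_of_pos_left (by linarith) hkk0
      have e1 : kk * (1 - 1 / w) = -1 := by rw [hkk]; field_simp; ring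
      linarith
    · nlinarith [mul_pos hkk0 h0]
  have hAd : ∀ s : ℝ, 0 < s → s < 1 / w → HasDerivAt A (A' s) s := by
    intro s h0 h1
    have d0 : HasDerivAt (fun s : ℝ => kk * (1 - s)) (-kk) s := by
      have := ((hasDerivAt_id s).const_sub 1).const_mul kk
      exact this.congr_deriv (by ring)
    have d1 := HasDerivAt.comp (h₂ := U) (h := fun s : ℝ => kk * (1 - s)) s
      (hUd _ (hin' s h0 h1)) d0
    exact (d1.const_mul (2 * a - 1)).const_add _
  have hBd : ∀ s : ℝ, HasDerivAt B (B' s) s := by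
    intro s
    have d0 : HasDerivAt (fun s : ℝ => (w * a / (1 - w)) * (1 - s)) (-(w * a / (1 - w))) s := by
      have := ((hasDerivAt_id s).const_sub 1).const_mul (w * a / (1 - w))
      exact this.congr_deriv (by ring)
    have d1 := (d0.const_mul ((2 * a - 1) * lam / a - 2 * ((2 * a - 1) * e) / w)).const_sub
      ((1 - K) * (2 * a - 1) - (2 * a - 1) * e)
    exact d1.congr_deriv (by simp only [B']; ring)
  have hAc : ContinuousOn A (Icc 0 (1 / w)) := by
    have : ContinuousOn (fun s : ℝ => U (kk * (1 - s))) (Icc 0 (1 / w)) := by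
      apply hUc.comp (by fun_prop)
      intro s hs
      exact hin s hs.1 hs.2
    exact continuousOn_const.add (continuousOn_const.mul this)
  have hBc : Continuous B := by fun_prop
  have hA1 : A 1 + B 1 ≤ (1 - K) * (2 * a) := by
    simp only [A, B, sub_self, mul_zero, hU0]
    linarith
  have h1w1 : 1 ≤ 1 / w := by rw [le_div_iff₀ hw0]; linarith
  -- right side
  set X : ℝ := (1 / w) ^ (1 / r) with hX
  have hXr : X ^ r = 1 / w := by
    rw [hX, ← Real.rpow_mul (by positivity), one_div_mul_cancel hr0.ne', Real.rpow_one]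
  have hright : ∀ x ∈ Icc 1 X, x ^ 2 * A (x ^ r) + B (x ^ r) ≤ (1 - K) * (2 * a) * x ^ p := by
    apply DerTrick.right_s (A' := A') (B' := B') hr0
    · rw [hXr]; exact hAc.mono (Icc_subset_Icc_left zero_le_one)
    · exact hBc.continuousOn
    · rw [hXr]; intro s hs; exact hAd s (by linarith [hs.1]) hs.2
    · intro s _; exact hBd s
    · intro x hx
      have hx0 : 0 < x := by linarith [hx.1]
      have hs1 : 1 < x ^ r := Real.one_lt_rpow hx.1 hr0
      have hs2 : x ^ r < 1 / w := by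
        rw [← hXr]; exact Real.rpow_lt_rpow hx0.le hx.2 hr0
      set η := kk * (1 - x ^ r) with hη
      have hηI : η ∈ Ioo (-1) kk := hin' _ (by linarith) hs2
      have hη0 : η < 0 := by
        rw [hη]; exact mul_neg_of_pos_of_neg hkk0 (by linarith)
      rw [key x (x ^ r) η hη]
      apply mul_nonpos_of_nonneg_of_nonpos hth
      by_contra h; push Not at h
      have := H x η hx0 hs2 hη
      nlinarith [mul_neg_of_neg_of_pos hη0 h]
    · exact hA1
  -- left side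
  have hleft : ∀ x₀ : ℝ, 0 < x₀ → x₀ ≤ 1 →
      ∀ x ∈ Icc x₀ 1, x ^ 2 * A (x ^ r) + B (x ^ r) ≤ (1 - K) * (2 * a) * x ^ p := by
    intro x₀ hx₀ hx₀1
    have hs0 : 0 < x₀ ^ r := Real.rpow_pos_of_pos hx₀ r
    apply DerTrick.left_s (A' := A') (B' := B') hr0 hx₀
    · exact hAc.mono (Icc_subset_Icc hs0.le h1w1)
    · exact hBc.continuousOn
    · intro s hs; exact hAd s (hs0.trans hs.1) (hs.2.trans_le h1w1)
    · intro s _; exact hBd s
    · intro x hx
      have hx0 : 0 < x := hx₀.trans hx.1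
      have hs1 : x ^ r < 1 := Real.rpow_lt_one hx0.le hx.2 hr0
      have hs3 : 0 < x ^ r := Real.rpow_pos_of_pos hx0 r
      have hs2 : x ^ r < 1 / w := by linarith
      set η := kk * (1 - x ^ r) with hη
      have hηI : η ∈ Ioo (-1) kk := hin' _ hs3 hs2
      have hη0 : 0 < η := by
        rw [hη]; exact mul_pos hkk0 (by linarith)
      rw [key x (x ^ r) η hη]
      apply mul_nonneg hth
      by_contra h; push Not at h
      have := H x η hx0 hs2 hη
      nlinarith [mul_neg_of_pos_of_neg hη0 h]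
    · exact hA1
  -- together
  have hpos : ∀ x : ℝ, 0 < x → w * x ^ r ≤ 1 →
      x ^ 2 * A (x ^ r) + B (x ^ r) ≤ (1 - K) * (2 * a) * x ^ p := by
    intro x hx hwx
    rcases le_total x 1 with h | h
    · exact hleft x hx h x ⟨le_rfl, h⟩
    · refine hright x ⟨h, ?_⟩
      have hxr : x ^ r ≤ 1 / w := by rw [le_div_iff₀ hw0]; linarith
      calc x = (x ^ r) ^ (1 / r) := by
            rw [← Real.rpow_mul hx.le, mul_one_div_cancel hr0.ne', Real.rpow_one]
        _ ≤ X := Real.rpow_le_rpow (by positivity) hxr (by positivity)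
  have hp0 : 0 < p := by positivity
  have hzero : (0:ℝ) ^ 2 * A ((0:ℝ) ^ r) + B ((0:ℝ) ^ r) ≤ (1 - K) * (2 * a) * (0:ℝ) ^ p := by
    have c1 : ContinuousWithinAt (fun x : ℝ => x ^ 2 * A (x ^ r) + B (x ^ r)) (Icc 0 1) 0 := by
      have cr : ContinuousOn (fun x : ℝ => x ^ r) (Icc 0 1) :=
        (Real.continuous_rpow_const hr0.le).continuousOn
      have cA : ContinuousOn (fun x : ℝ => A (x ^ r)) (Icc 0 1) := by
        apply hAc.comp cr
        intro x hx
        exact ⟨Real.rpow_nonneg hx.1 r, (Real.rpow_le_one hx.1 hx.2 hr0.le).trans h1w1⟩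
      have cB : ContinuousOn (fun x : ℝ => B (x ^ r)) (Icc 0 1) :=
        hBc.comp_continuousOn cr
      have := (((continuousOn_id (s := Icc (0:ℝ) 1)).pow 2).mul cA).add cB
      exact this 0 ⟨le_rfl, zero_le_one⟩
    have c2 : ContinuousWithinAt (fun x : ℝ => (1 - K) * (2 * a) * x ^ p) (Icc 0 1) 0 := by
      exact ((Real.continuous_rpow_const hp0.le).const_smul ((1 - K) * (2 * a))).continuousWithinAt
    have c1' := c1.mono_left (nhdsWithin_mono 0 (Ioc_subset_Icc_self (a := (0:ℝ)) (b := 1)))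
    have c2' := c2.mono_left (nhdsWithin_mono 0 (Ioc_subset_Icc_self (a := (0:ℝ)) (b := 1)))
    haveI : (nhdsWithin (0:ℝ) (Ioc 0 1)).NeBot := by
      rw [← mem_closure_iff_nhdsWithin_neBot, closure_Ioc zero_ne_one]
      exact ⟨le_rfl, zero_le_one⟩
    refine le_of_tendsto_of_tendsto c1' c2' ?_
    filter_upwards [self_mem_nhdsWithin] with x hx
    have hxr : x ^ r ≤ 1 := Real.rpow_le_one hx.1.le hx.2 hr0.le
    exact hpos x hx.1 (by nlinarith [Real.rpow_nonneg hx.1.le r])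
  intro x hx hwx v hv
  have h : x ^ 2 * A (x ^ r) + B (x ^ r) ≤ (1 - K) * (2 * a) * x ^ p := by
    rcases hx.eq_or_lt with h0 | h0
    · rw [← h0]; exact hzero
    · exact hpos x h0 hwx
  have hvx : x ^ 2 * v ≤ x ^ 2 * ((2 * a - 1) * U (kk * (1 - x ^ r))) :=
    mul_le_mul_of_nonneg_left hv (sq_nonneg x)
  simp only [A, B] at h
  simp only [TOP]
  linarith

/-- **The glue.**  If `eta (q M + W) ≥ 0` on `(-1, kk)` for both brackets `q` of `x²`, then
the one-variable inequality holds on the whole range `0 ≤ x`, `w x^r ≤ 1`. -/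
theorem glue (ha : 1 / 2 ≤ a) (ha1 : a < 1) (hw0 : 0 < w) (hw1 : w < 1) (hr : a ≤ 1 - w)
    (hUc : ContinuousOn U (Icc (-1) (w / (1 - w))))
    (hUd : ∀ η ∈ Ioo (-1) (w / (1 - w)), HasDerivAt U (U' η) η) (hU0 : U 0 = 0)
    (HU : ∀ η ∈ Ioo (-1) (w / (1 - w)),
      0 ≤ η * (qU a w η * MM a w K e (U η) (U' η) η + WW a w K e lam η))
    (HL : ∀ η ∈ Ioo (-1) (w / (1 - w)),
      0 ≤ η * (qL a w η * MM a w K e (U η) (U' η) η + WW a w K e lam η)) :
    ∀ x : ℝ, 0 ≤ x → w * x ^ ((1 - w) / a) ≤ 1 →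
      ∀ v ≤ (2 * a - 1) * U ((w / (1 - w)) * (1 - x ^ ((1 - w) / a))),
      TOP a w K e lam v x ≤ 0 := by
  have ha0 : 0 < a := by linarith
  have h1w : 0 < 1 - w := by linarith
  have hr1 : 1 ≤ (1 - w) / a := by rw [le_div_iff₀ ha0]; linarith
  have hr2 : (1 - w) / a ≤ 2 := by rw [div_le_iff₀ ha0]; linarith
  have hr0 : 0 < (1 - w) / a := by linarith
  apply glue_core ha ha1 hw0 hw1 hr hUc hUd hU0
  intro x η hx0 hs2 hη
  have hs3 : 0 < x ^ ((1 - w) / a) := Real.rpow_pos_of_pos hx0 _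
  have e0 : η * (1 - w) / w = 1 - x ^ ((1 - w) / a) := by
    rw [hη]; field_simp
  have e4 : 2 / ((1 - w) / a) = 2 * a / (1 - w) := by field_simp
  have eU : qU a w η = x ^ ((1 - w) / a) * (1 + (2 / ((1 - w) / a) - 1)
      * (x ^ ((1 - w) / a) - 1)) := by
    simp only [qU]; rw [e0, e4]; ring
  have eL : qL a w η = (x ^ ((1 - w) / a)) ^ 2 * (1 - (2 - 2 / ((1 - w) / a))
      * (x ^ ((1 - w) / a) - 1)) := by
    simp only [qL]; rw [e0, e4]; ring
  have hηI : η ∈ Ioo (-1) (w / (1 - w)) := by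
    have hkk : 0 < w / (1 - w) := by positivity
    constructor
    · have h1 : (w / (1 - w)) * (1 - 1 / w) < (w / (1 - w)) * (1 - x ^ ((1 - w) / a)) :=
        mul_lt_mul_of_pos_left (by linarith) hkk
      have e1 : (w / (1 - w)) * (1 - 1 / w) = -1 := by field_simp; ring
      rw [hη]; linarith
    · rw [hη]; nlinarith [mul_pos hkk hs3]
  have hqU := DerTrick.sq_upper hr1 hr2 hx0.le
  have hqL := sq_lower2 hr1 hr2 hx0.le
  rw [← eU] at hqU
  rw [← eL] at hqL
  have h1 := HU η hηI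
  have h2 := HL η hηI
  have e5 : ∀ q : ℝ, η * (q * MM a w K e (U η) (U' η) η + WW a w K e lam η)
      = q * (η * MM a w K e (U η) (U' η) η) + η * WW a w K e lam η := fun q => by ring
  rw [e5] at h1 h2 ⊢
  exact affine_nonneg h2 h1 hqL hqU

/-- **The glue, brackets as inequalities** (`q = 2/r - 1`, `X` stands for `x²`). -/
theorem glueX (ha : 1 / 2 ≤ a) (ha1 : a < 1) (hw0 : 0 < w) (hw1 : w < 1) (hr : a ≤ 1 - w)
    (hUc : ContinuousOn U (Icc (-1) (w / (1 - w))))
    (hUd : ∀ η ∈ Ioo (-1) (w / (1 - w)), HasDerivAt U (U' η) η) (hU0 : U 0 = 0)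
    (H : ∀ s q η X : ℝ, 0 < s → s < 1 / w → q = (2 * a - 1 + w) / (1 - w) →
      η = (w / (1 - w)) * (1 - s) → 0 ≤ X →
      s ^ 2 ≤ X * (q + (1 - q) * s) → X ≤ s * (1 + q * (s - 1)) →
      (s ≤ 1 → X * ((1 + q) + (1 - q) * s) ≤ s * ((1 - q) + (1 + q) * s)) →
      (s ≤ 1 → s ^ 2 * ((2 - q) + q * s) ≤ X * (q + (2 - q) * s)) →
      (1 ≤ s → s * ((1 - q) + (1 + q) * s) ≤ X * ((1 + q) + (1 - q) * s)) →
      (1 ≤ s → X * (q + (2 - q) * s) ≤ s ^ 2 * ((2 - q) + q * s)) →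
      0 ≤ η * (X * ((1 - K + (2 * a - 1) * e) + (2 * a - 1) * U η - w * s * U' η)
        - (1 - K + (2 * a - 1) * e) + w * lam * (1 + η) - 2 * a * e * η)) :
    ∀ x : ℝ, 0 ≤ x → w * x ^ ((1 - w) / a) ≤ 1 →
      ∀ v ≤ (2 * a - 1) * U ((w / (1 - w)) * (1 - x ^ ((1 - w) / a))),
      TOP a w K e lam v x ≤ 0 := by
  have ha0 : 0 < a := by linarith
  have h1w : 0 < 1 - w := by linarith
  have hr0 : 0 < (1 - w) / a := by positivity
  apply glue_core ha ha1 hw0 hw1 hr hUc hUd hU0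
  intro x η hx0 hs2 hη
  have hs3 : 0 < x ^ ((1 - w) / a) := Real.rpow_pos_of_pos hx0 _
  have hq0 : 0 ≤ (2 * a - 1 + w) / (1 - w) := div_nonneg (by linarith) h1w.le
  have hq1 : (2 * a - 1 + w) / (1 - w) ≤ 1 := by rw [div_le_one h1w]; linarith
  have hrq : (1 - w) / a * (1 + (2 * a - 1 + w) / (1 - w)) = 2 := by
    have : (1 - w) ≠ 0 := h1w.ne'
    field_simp; ring
  have h := H (x ^ ((1 - w) / a)) _ η (x ^ 2) hs3 hs2 rfl hη (sq_nonneg x)
    (Brk38.sq_lower hx0.le hrq hq0 hq1) (Brk38.sq_upper hx0.le hrq hq0 hq1)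
    (fun h => Brk38.sq_pade_upper_le hx0.le hrq hq0 hq1 h)
    (fun h => Brk38.sq_pade_lower_le hx0.le hrq hq0 hq1 h)
    (fun h => Brk38.sq_pade_lower_ge hx0.le hrq hq0 hq1 h)
    (fun h => Brk38.sq_pade_upper_ge hx0.le hrq hq0 hq1 h)
  have e0 : x ^ ((1 - w) / a) = 1 - η * (1 - w) / w := by
    rw [hη]; field_simp; ring
  have e1 : η * (x ^ 2 * ((1 - K + (2 * a - 1) * e) + (2 * a - 1) * U η
        - w * x ^ ((1 - w) / a) * U' η)
        - (1 - K + (2 * a - 1) * e) + w * lam * (1 + η) - 2 * a * e * η)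
      = a * (η * (x ^ 2 * MM a w K e (U η) (U' η) η + WW a w K e lam η)) := by
    simp only [MM, WW]
    rw [e0]
    generalize U η = u
    generalize U' η = u'
    have : (1 - w) ≠ 0 := h1w.ne'
    field_simp
    ring
  rw [e1] at h
  exact nonneg_of_mul_nonneg_right h ha0

/-- **`TOP` in the form of `CertG`.** -/
theorem top_CG {p r T K1 eps Vv y : ℝ} (ha0 : 0 < a) (hw1 : w < 1) (hw0 : 0 < w)
    (hp : p = 1 / a) (hr : r = (1 - w) / a) (hT : 0 < T)
    (h : TOP a w (K1 / T) (2 * eps / T) lam (Vv / T - 1) y ≤ 0) :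
    (Vv - K1) * y ^ 2 + 2 * (2 / p - 1) * eps * (y ^ 2 - 1 - 2 / r * (y ^ r - 1)) +
      (T - K1) * ((2 / p - 1) - 2 / p * y ^ p) ≤
      (T * (2 * a - 1) * lam / a) * ((1 - (1 - r / p) * y ^ r) / r - 1 / p) := by
  subst hp hr
  have h1w : (1 - w) ≠ 0 := by linarith
  simp only [TOP] at h
  have h2 := mul_nonpos_of_nonneg_of_nonpos hT.le h
  generalize y ^ (1 / a) = yp at h2 ⊢
  generalize y ^ ((1 - w) / a) = yr at h2 ⊢
  have e : (Vv - K1) * y ^ 2 + 2 * (2 / (1 / a) - 1) * eps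
        * (y ^ 2 - 1 - 2 / ((1 - w) / a) * (yr - 1)) +
      (T - K1) * ((2 / (1 / a) - 1) - 2 / (1 / a) * yp)
      - (T * (2 * a - 1) * lam / a) * ((1 - (1 - (1 - w) / a / (1 / a)) * yr) / ((1 - w) / a)
        - 1 / (1 / a))
      = T * (y ^ 2 * (1 - K1 / T + (2 * a - 1) * (2 * eps / T) + (Vv / T - 1))
    + (1 - K1 / T) * ((2 * a - 1) - 2 * a * yp) - (2 * a - 1) * (2 * eps / T)
    - ((2 * a - 1) * lam / a - 2 * ((2 * a - 1) * (2 * eps / T)) / w)
      * ((w * a / (1 - w)) * (1 - yr))) := by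
    field_simp
    ring
  linarith

end glue

/-! ### One exact step over a one-pole tail -/

section pole

/-- `U = eta n / Q` -/
noncomputable def nn (a F0 mu be η : ℝ) : ℝ :=
  F0 / a * (1 - be * η + mu * (1 - a) * (a - (1 - a) * η))

/-- the slope of `nn` -/
noncomputable def nn1 (a F0 mu be : ℝ) : ℝ := F0 / a * (-be - mu * (1 - a) ^ 2)

/-- the denominator -/
def QQ (a mu be η : ℝ) : ℝ := (1 - a - a * η) * (1 - be * η) - mu * (1 - a) * η

/-- the derivative of `QQ` -/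
def QQ1 (a mu be η : ℝ) : ℝ := -a - be * (1 - a) - mu * (1 - a) + 2 * (a * be) * η

/-- the slope of `U` at `0` -/
noncomputable def la (a F0 mu : ℝ) : ℝ := F0 * (1 + mu * a * (1 - a)) / (a * (1 - a))

/-- `MM` times `Q²` -/
noncomputable def M2 (a w K e F0 mu be η : ℝ) : ℝ :=
  ((1 - K) / a + e * (2 - 1 / a)) * QQ a mu be η ^ 2
    + (2 - 1 / a) * (η * nn a F0 mu be η) * QQ a mu be η
    - (w / a) * (1 - η * (1 - w) / w) * ((nn a F0 mu be η + η * nn1 a F0 mu be) * QQ a mu be η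
      - η * nn a F0 mu be η * QQ1 a mu be η)

/-- the polynomial `PP`, for the bracket `q = 1 + eta q1` of `x²` -/
noncomputable def PP (a w K e F0 mu be q1 η : ℝ) : ℝ :=
  (2 - 1 / a) * nn a F0 mu be η * QQ a mu be η
    + (w / a) * QQ a mu be η * (la a F0 mu * (-a - be * (1 - a) - mu * (1 - a) + η * (a * be))
      - nn1 a F0 mu be)
    + (w / a) * (la a F0 mu * QQ a mu be η ^ 2 + nn a F0 mu be η * QQ a mu be η * (1 - w) / w
      - (1 - η * (1 - w) / w) * (nn1 a F0 mu be * QQ a mu be η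
        - nn a F0 mu be η * QQ1 a mu be η))
    - 2 * e * QQ a mu be η ^ 2 + q1 * M2 a w K e F0 mu be η

/-- `qU = 1 + eta q1U` -/
noncomputable def q1U (a w η : ℝ) : ℝ :=
  -(2 * a / w) + (2 * a / (1 - w) - 1) * η * ((1 - w) / w) ^ 2

/-- `qL = 1 + eta q1L` -/
noncomputable def q1L (a w η : ℝ) : ℝ :=
  -(2 * a / w) + (4 * a / (1 - w) - 3) * η * ((1 - w) / w) ^ 2
    + (2 - 2 * a / (1 - w)) * η ^ 2 * ((1 - w) / w) ^ 3

variable {a w K e F0 mu be : ℝ}

theorem qU_eq (hw0 : 0 < w) (hw1 : w < 1) (η : ℝ) : qU a w η = 1 + η * q1U a w η := by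
  have h1w : (1 - w) ≠ 0 := by linarith
  simp only [qU, q1U]
  field_simp
  ring

theorem qL_eq (hw0 : 0 < w) (hw1 : w < 1) (η : ℝ) : qL a w η = 1 + η * q1L a w η := by
  have h1w : (1 - w) ≠ 0 := by linarith
  simp only [qL, q1L]
  field_simp
  ring

theorem PP_eq (ha : 1 / 2 ≤ a) (ha1 : a < 1) (hw0 : 0 < w) (hw1 : w < 1) (q1 η : ℝ)
    (hQ : QQ a mu be η ≠ 0) :
    η * PP a w K e F0 mu be q1 η = QQ a mu be η ^ 2 * ((1 + η * q1)
      * MM a w K e (η * nn a F0 mu be η / QQ a mu be η)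
        (((nn a F0 mu be η + η * nn1 a F0 mu be) * QQ a mu be η
          - η * nn a F0 mu be η * QQ1 a mu be η) / QQ a mu be η ^ 2) η
      + WW a w K e (la a F0 mu) η) := by
  have ha0 : a ≠ 0 := by linarith
  have h1a : (1 - a) ≠ 0 := by linarith
  have hM : QQ a mu be η ^ 2 * MM a w K e (η * nn a F0 mu be η / QQ a mu be η)
        (((nn a F0 mu be η + η * nn1 a F0 mu be) * QQ a mu be η
          - η * nn a F0 mu be η * QQ1 a mu be η) / QQ a mu be η ^ 2) η
      = M2 a w K e F0 mu be η := by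
    simp only [MM, M2]
    field_simp
  have e1 : QQ a mu be η ^ 2 * ((1 + η * q1)
      * MM a w K e (η * nn a F0 mu be η / QQ a mu be η)
        (((nn a F0 mu be η + η * nn1 a F0 mu be) * QQ a mu be η
          - η * nn a F0 mu be η * QQ1 a mu be η) / QQ a mu be η ^ 2) η
      + WW a w K e (la a F0 mu) η)
      = (1 + η * q1) * M2 a w K e F0 mu be η
        + QQ a mu be η ^ 2 * WW a w K e (la a F0 mu) η := by
    rw [← hM]; ring
  rw [e1]
  simp only [PP, M2, WW, la, nn, nn1, QQ, QQ1]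
  field_simp
  ring

theorem hasDerivAt_QQ (η : ℝ) : HasDerivAt (QQ a mu be) (QQ1 a mu be η) η := by
  have h1 : HasDerivAt (fun η : ℝ => 1 - a - a * η) (-a) η := by
    have := ((hasDerivAt_id η).const_mul a).const_sub (1 - a)
    exact this.congr_deriv (by ring)
  have h2 : HasDerivAt (fun η : ℝ => 1 - be * η) (-be) η := by
    have := ((hasDerivAt_id η).const_mul be).const_sub 1
    exact this.congr_deriv (by ring)
  have h3 : HasDerivAt (fun η : ℝ => mu * (1 - a) * η) (mu * (1 - a)) η := by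
    have := (hasDerivAt_id η).const_mul (mu * (1 - a))
    exact this.congr_deriv (by ring)
  exact ((h1.mul h2).sub h3).congr_deriv (by simp only [QQ1]; ring)

theorem hasDerivAt_nn (η : ℝ) : HasDerivAt (nn a F0 mu be) (nn1 a F0 mu be) η := by
  have h1 : HasDerivAt (fun η : ℝ => (1 + mu * (1 - a) * a) - (be + mu * (1 - a) ^ 2) * η)
      (-(be + mu * (1 - a) ^ 2)) η := by
    have := ((hasDerivAt_id η).const_mul (be + mu * (1 - a) ^ 2)).const_sub
      (1 + mu * (1 - a) * a)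
    exact this.congr_deriv (by ring)
  have h2 := h1.const_mul (F0 / a)
  have e : (fun η : ℝ => F0 / a * ((1 + mu * (1 - a) * a) - (be + mu * (1 - a) ^ 2) * η))
      = nn a F0 mu be := by
    funext z; simp only [nn]; ring
  rw [← e]
  exact h2.congr_deriv (by simp only [nn1]; ring)

theorem hasDerivAt_U {η : ℝ} (hQ : QQ a mu be η ≠ 0) :
    HasDerivAt (fun η => η * nn a F0 mu be η / QQ a mu be η)
      (((nn a F0 mu be η + η * nn1 a F0 mu be) * QQ a mu be η
          - η * nn a F0 mu be η * QQ1 a mu be η) / QQ a mu be η ^ 2) η := by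
  have h := ((hasDerivAt_id η).mul (hasDerivAt_nn (a := a) (F0 := F0) (mu := mu) (be := be) η)).div
    (hasDerivAt_QQ (a := a) (mu := mu) (be := be) η) hQ
  refine h.congr_deriv ?_
  simp only [Pi.mul_apply, id_eq, one_mul]

/-- **The glue, one-pole form.** -/
theorem glue_pole (ha : 1 / 2 ≤ a) (ha1 : a < 1) (hw0 : 0 < w) (hw1 : w < 1) (hr : a ≤ 1 - w)
    (hQ : ∀ η ∈ Icc (-1) (w / (1 - w)), 0 < QQ a mu be η)
    (HU : ∀ η ∈ Ioo (-1) (w / (1 - w)), 0 ≤ PP a w K e F0 mu be (q1U a w η) η)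
    (HL : ∀ η ∈ Ioo (-1) (w / (1 - w)), 0 ≤ PP a w K e F0 mu be (q1L a w η) η) :
    ∀ x : ℝ, 0 ≤ x → w * x ^ ((1 - w) / a) ≤ 1 →
      ∀ v ≤ (2 * a - 1) * (((w / (1 - w)) * (1 - x ^ ((1 - w) / a)))
          * nn a F0 mu be ((w / (1 - w)) * (1 - x ^ ((1 - w) / a)))
          / QQ a mu be ((w / (1 - w)) * (1 - x ^ ((1 - w) / a)))),
      TOP a w K e (la a F0 mu) v x ≤ 0 := by
  have hfin : ∀ q1 η : ℝ, η ∈ Ioo (-1) (w / (1 - w)) → 0 ≤ PP a w K e F0 mu be q1 η →
      0 ≤ η * ((1 + η * q1) * MM a w K e (η * nn a F0 mu be η / QQ a mu be η)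
        (((nn a F0 mu be η + η * nn1 a F0 mu be) * QQ a mu be η
          - η * nn a F0 mu be η * QQ1 a mu be η) / QQ a mu be η ^ 2) η
      + WW a w K e (la a F0 mu) η) := by
    intro q1 η hη hP
    have hq : 0 < QQ a mu be η := hQ η (Ioo_subset_Icc_self hη)
    have h := PP_eq (K := K) (e := e) (F0 := F0) ha ha1 hw0 hw1 q1 η hq.ne'
    have h2 : 0 ≤ QQ a mu be η ^ 2 * (η * ((1 + η * q1)
        * MM a w K e (η * nn a F0 mu be η / QQ a mu be η)
        (((nn a F0 mu be η + η * nn1 a F0 mu be) * QQ a mu be η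
          - η * nn a F0 mu be η * QQ1 a mu be η) / QQ a mu be η ^ 2) η
      + WW a w K e (la a F0 mu) η)) := by
      have e2 : QQ a mu be η ^ 2 * (η * ((1 + η * q1)
        * MM a w K e (η * nn a F0 mu be η / QQ a mu be η)
        (((nn a F0 mu be η + η * nn1 a F0 mu be) * QQ a mu be η
          - η * nn a F0 mu be η * QQ1 a mu be η) / QQ a mu be η ^ 2) η
      + WW a w K e (la a F0 mu) η)) = η ^ 2 * PP a w K e F0 mu be q1 η := by
        calc _ = η * (QQ a mu be η ^ 2 * ((1 + η * q1)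
              * MM a w K e (η * nn a F0 mu be η / QQ a mu be η)
              (((nn a F0 mu be η + η * nn1 a F0 mu be) * QQ a mu be η
                - η * nn a F0 mu be η * QQ1 a mu be η) / QQ a mu be η ^ 2) η
              + WW a w K e (la a F0 mu) η)) := by ring
          _ = _ := by rw [← h]; ring
      rw [e2]; exact mul_nonneg (sq_nonneg η) hP
    exact nonneg_of_mul_nonneg_right h2 (by positivity)
  apply glue (U' := fun η => ((nn a F0 mu be η + η * nn1 a F0 mu be) * QQ a mu be η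
          - η * nn a F0 mu be η * QQ1 a mu be η) / QQ a mu be η ^ 2)
    (U := fun η => η * nn a F0 mu be η / QQ a mu be η) ha ha1 hw0 hw1 hr
  · intro η hη
    exact (hasDerivAt_U (hQ η hη).ne').continuousAt.continuousWithinAt
  · intro η hη
    exact hasDerivAt_U (hQ η (Ioo_subset_Icc_self hη)).ne'
  · simp
  · intro η hη
    rw [qU_eq hw0 hw1]
    exact hfin _ η hη (HU η hη)
  · intro η hη
    rw [qL_eq hw0 hw1]
    exact hfin _ η hη (HL η hη)

/-- **The glue, one-pole form, in the shape of the region certificates**: `Q > 0` and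
`0 ≤ eta (X (Bp + th U - w s U') - Bp + w lam (1 + eta) - 2 a e eta)` for every `X` in the
brackets of `x² = s^(1+q)`. -/
theorem glue_region (ha : 1 / 2 ≤ a) (ha1 : a < 1) (hw0 : 0 < w) (hw1 : w < 1) (hr : a ≤ 1 - w)
    (hQ : ∀ η ∈ Icc (-1) (w / (1 - w)), 0 < QQ a mu be η)
    (H : ∀ s q η X : ℝ, 0 < s → s < 1 / w → q = (2 * a - 1 + w) / (1 - w) →
      η = (w / (1 - w)) * (1 - s) → 0 ≤ X →
      s ^ 2 ≤ X * (q + (1 - q) * s) → X ≤ s * (1 + q * (s - 1)) →
      (s ≤ 1 → X * ((1 + q) + (1 - q) * s) ≤ s * ((1 - q) + (1 + q) * s)) →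
      (s ≤ 1 → s ^ 2 * ((2 - q) + q * s) ≤ X * (q + (2 - q) * s)) →
      (1 ≤ s → s * ((1 - q) + (1 + q) * s) ≤ X * ((1 + q) + (1 - q) * s)) →
      (1 ≤ s → X * (q + (2 - q) * s) ≤ s ^ 2 * ((2 - q) + q * s)) →
      0 ≤ η * (X * ((1 - K + (2 * a - 1) * e)
          + (2 * a - 1) * (η * nn a F0 mu be η / QQ a mu be η)
          - w * s * (((nn a F0 mu be η + η * nn1 a F0 mu be) * QQ a mu be η
          - η * nn a F0 mu be η * QQ1 a mu be η) / QQ a mu be η ^ 2))
        - (1 - K + (2 * a - 1) * e) + w * la a F0 mu * (1 + η) - 2 * a * e * η)) :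
    ∀ x : ℝ, 0 ≤ x → w * x ^ ((1 - w) / a) ≤ 1 →
      ∀ v ≤ (2 * a - 1) * (((w / (1 - w)) * (1 - x ^ ((1 - w) / a)))
          * nn a F0 mu be ((w / (1 - w)) * (1 - x ^ ((1 - w) / a)))
          / QQ a mu be ((w / (1 - w)) * (1 - x ^ ((1 - w) / a)))),
      TOP a w K e (la a F0 mu) v x ≤ 0 := by
  apply glueX (U' := fun η => ((nn a F0 mu be η + η * nn1 a F0 mu be) * QQ a mu be η
          - η * nn a F0 mu be η * QQ1 a mu be η) / QQ a mu be η ^ 2)
    (U := fun η => η * nn a F0 mu be η / QQ a mu be η) ha ha1 hw0 hw1 hr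
  · intro η hη
    exact (hasDerivAt_U (hQ η hη).ne').continuousAt.continuousWithinAt
  · intro η hη
    exact hasDerivAt_U (hQ η (Ioo_subset_Icc_self hη)).ne'
  · simp
  · exact H

end pole

end Pool.Agent.Lib.QNL.Glue87
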