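import Pool.Agent.Lib.QNL.Pole95
import Pool.Agent.Lib.QNL.Glue87

/-!
Group N: what one region of the certificate has to deliver, and the case split over the regions.
-/

set_option autoImplicit false

namespace Pool.Agent.Lib.QNL.CG

open MeasureTheory Set Filter Topology Finset
open Pool.Agent.Lib.QNL
open Pool.Agent.Lib.QNL.Wts73
open Pool.Agent.Lib.QNL.Tail35

/-- the right end of the range of `Y` -/
noncomputable def Ymx (w : ℝ) : ℝ := 1001 / 1000 * (w / (1 - w))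

theorem lt_Ymx {w : ℝ} (hw0 : 0 < w) (hw1 : w < 1) : w / (1 - w) < Ymx w := by
  have h1 : 0 < 1 - w := by linarith
  have h2 : 0 < w / (1 - w) := by positivity
  unfold Ymx
  linarith

/-- the certificate exists at `(n, a)` -/
def HasCert (n : ℕ) (a : ℝ) : Prop :=
  ∃ (c r smax Lam : ℝ) (V k1 : ℝ → ℝ), CertG n (1 / a) c r smax Lam V k1

/-- **one region**: everything that is needed at one `(n, a)`; `c`, `w`, `be` are the parameters
of the region, `K`, `e` the data of the retained kernel `k1`. -/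
structure RegAt (n : ℕ) (a c w be K e : ℝ) (k1 : ℝ → ℝ) : Prop where
  hc : 1 ≤ c
  hw0 : 0 < w
  hr : a ≤ 1 - w
  tail : Tail1 n (1 / a) a (bs n a c) (Ymx w)
    (fun Y => Lam n (1 / a) a (bs n a c) 1 / (1 - be * Y))
  hbe : ∀ Y ∈ Icc (-1 : ℝ) (Ymx w), 0 < 1 - be * Y
  hQ : ∀ Y ∈ Icc (-1 : ℝ) (Ymx w), 0 < QQ a be (muN n a c) Y
  k1_nonneg : ∀ l, 0 < l → 0 ≤ k1 l
  k1_le : ∀ l, 0 < l → k1 l ≤ kh a c l
  k1_anti : AntitoneOn k1 (Ioi 0)
  hK : ∫ l in Ioi (0 : ℝ), k1 l = K * zz a c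
  he : 2 * ∫ l in Ioi (0 : ℝ), k1 l * (Real.exp (w / (1 - w) * l / 2) - 1) = e * zz a c
  top : ∀ x : ℝ, 0 ≤ x → w * x ^ ((1 - w) / a) ≤ 1 →
    Glue87.TOP a w K e (lamN (F0 a c) a (muN n a c))
      ((2 * a - 1) * UU (F0 a c) a be (muN n a c)
        (w / (1 - w) * (1 - x ^ ((1 - w) / a)))) x ≤ 0

/-- general form: any right end `Ym > w/(1-w)`, `top` in the form of `Glue87` -/
theorem hasCert_Y {n : ℕ} {a c w Ym be K e : ℝ} {k1 : ℝ → ℝ} (hn : 1 ≤ n) (h0 : 1 / 2 < a)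
    (h1 : a < 1) (hc : 1 ≤ c) (hw0 : 0 < w) (hr : a ≤ 1 - w) (hYm : w / (1 - w) < Ym)
    (tail : Tail1 n (1 / a) a (bs n a c) Ym (fun Y => Lam n (1 / a) a (bs n a c) 1 / (1 - be * Y)))
    (hbe : ∀ Y ∈ Icc (-1 : ℝ) Ym, 0 < 1 - be * Y)
    (hQ : ∀ Y ∈ Icc (-1 : ℝ) Ym, 0 < QQ a be (muN n a c) Y)
    (k1_nonneg : ∀ l, 0 < l → 0 ≤ k1 l) (k1_le : ∀ l, 0 < l → k1 l ≤ kh a c l)
    (k1_anti : AntitoneOn k1 (Ioi 0)) (hK : ∫ l in Ioi (0 : ℝ), k1 l = K * zz a c)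
    (he : 2 * ∫ l in Ioi (0 : ℝ), k1 l * (Real.exp (w / (1 - w) * l / 2) - 1) = e * zz a c)
    (top : ∀ x : ℝ, 0 ≤ x → w * x ^ ((1 - w) / a) ≤ 1 →
      Glue87.TOP a w K e (lamN (F0 a c) a (muN n a c))
        ((2 * a - 1) * UU (F0 a c) a be (muN n a c)
          (w / (1 - w) * (1 - x ^ ((1 - w) / a)))) x ≤ 0) : HasCert n a := by
  have ha : 0 < a := by linarith
  have hw1 : w < 1 := by linarith
  have h1w : 0 < 1 - w := by linarith
  obtain ⟨Lam, V, hC⟩ := certG_pole (p := 1 / a) hn rfl h0 h1 hc hw0 hr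
    hYm tail hbe hQ k1_nonneg k1_le k1_anti hK he (by
      intro x Y hx hwx hY
      have h := top x hx hwx
      rw [← hY] at h
      unfold Glue87.TOP at h
      have e1 : w * a / (1 - w) * (1 - x ^ ((1 - w) / a)) = a * Y := by
        rw [hY]; field_simp
      rw [e1] at h
      have e2 : (2 * a - 1) * lamN (F0 a c) a (muN n a c) / a =
          (2 * a - 1) / a * lamN (F0 a c) a (muN n a c) := by ring
      rw [e2] at h
      exact h)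
  exact ⟨c, _, _, Lam, V, k1, hC⟩

theorem RegAt.hasCert {n : ℕ} {a c w be K e : ℝ} {k1 : ℝ → ℝ} (hn : 1 ≤ n) (h0 : 1 / 2 < a)
    (h1 : a < 1) (H : RegAt n a c w be K e k1) : HasCert n a :=
  hasCert_Y hn h0 h1 H.hc H.hw0 H.hr (lt_Ymx H.hw0 (by have := H.hr; linarith)) H.tail H.hbe H.hQ
    H.k1_nonneg H.k1_le H.k1_anti H.hK H.he H.top

/-- the end of the range (no gain): `k1 = 0`, any `Ym > w/(1-w)` -/
theorem hasCert_end {n : ℕ} {a c w Ym be : ℝ} (hn : 1 ≤ n) (h0 : 1 / 2 < a)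
    (h1 : a < 1) (hc : 1 ≤ c) (hw0 : 0 < w) (hr : a ≤ 1 - w) (hYm : w / (1 - w) < Ym)
    (tail : Tail1 n (1 / a) a (bs n a c) Ym (fun Y => Lam n (1 / a) a (bs n a c) 1 / (1 - be * Y)))
    (hbe : ∀ Y ∈ Icc (-1 : ℝ) Ym, 0 < 1 - be * Y)
    (hQ : ∀ Y ∈ Icc (-1 : ℝ) Ym, 0 < QQ a be (muN n a c) Y)
    (top : ∀ x : ℝ, 0 ≤ x → w * x ^ ((1 - w) / a) ≤ 1 →
      Glue87.TOP a w 0 0 (lamN (F0 a c) a (muN n a c))
        ((2 * a - 1) * UU (F0 a c) a be (muN n a c)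
          (w / (1 - w) * (1 - x ^ ((1 - w) / a)))) x ≤ 0) : HasCert n a := by
  refine hasCert_Y (K := 0) (e := 0) (k1 := fun _ => 0) hn h0 h1 hc hw0 hr hYm tail hbe hQ
    (fun _ _ => le_rfl) (fun l hl => ?_) (fun _ _ _ _ _ => le_rfl) (by simp) (by simp) top
  unfold kh kap
  have h1 : 1 ≤ Real.exp l := Real.one_le_exp hl.le
  have h2 : 0 ≤ c * Real.exp l - 1 := by nlinarith
  positivity

theorem QQ_eq (a mu be Y : ℝ) : Glue87.QQ a mu be Y = QQ a be mu Y := rfl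

theorem UU_eq (f a be mu Y : ℝ) :
    UU f a be mu Y = Y * Glue87.nn a f mu be Y / Glue87.QQ a mu be Y := by
  unfold UU NN Glue87.nn
  rw [QQ_eq]
  ring

/-- the field `top` from the two polynomial inequalities of `Glue87.glue_pole` -/
theorem top_of_PP {n : ℕ} {a c w be K e : ℝ} (h0 : 1 / 2 ≤ a) (h1 : a < 1) (hw0 : 0 < w)
    (hr : a ≤ 1 - w)
    (hQ : ∀ Y ∈ Icc (-1 : ℝ) (Ymx w), 0 < QQ a be (muN n a c) Y)
    (HU : ∀ η ∈ Ioo (-1) (w / (1 - w)), 0 ≤ Glue87.PP a w K e (F0 a c) (muN n a c) be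
      (Glue87.q1U a w η) η)
    (HL : ∀ η ∈ Ioo (-1) (w / (1 - w)), 0 ≤ Glue87.PP a w K e (F0 a c) (muN n a c) be
      (Glue87.q1L a w η) η) :
    ∀ x : ℝ, 0 ≤ x → w * x ^ ((1 - w) / a) ≤ 1 →
      Glue87.TOP a w K e (lamN (F0 a c) a (muN n a c))
        ((2 * a - 1) * UU (F0 a c) a be (muN n a c)
          (w / (1 - w) * (1 - x ^ ((1 - w) / a)))) x ≤ 0 := by
  intro x hx hwx
  have hw1 : w < 1 := by linarith
  refine Glue87.glue_pole h0 h1 hw0 hw1 hr (fun η hη => ?_) HU HL x hx hwx _ ?_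
  · rw [QQ_eq]
    exact hQ η ⟨hη.1, hη.2.trans (lt_Ymx hw0 hw1).le⟩
  · rw [UU_eq]

/-- the field `top` from the form of `Glue87.glue_region` -/
theorem top_of_region {n : ℕ} {a c w be K e : ℝ}
    (h : ∀ x : ℝ, 0 ≤ x → w * x ^ ((1 - w) / a) ≤ 1 →
      ∀ v ≤ (2 * a - 1) * (((w / (1 - w)) * (1 - x ^ ((1 - w) / a)))
          * Glue87.nn a (F0 a c) (muN n a c) be ((w / (1 - w)) * (1 - x ^ ((1 - w) / a)))
          / Glue87.QQ a (muN n a c) be ((w / (1 - w)) * (1 - x ^ ((1 - w) / a)))),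
      Glue87.TOP a w K e (Glue87.la a (F0 a c) (muN n a c)) v x ≤ 0) :
    ∀ x : ℝ, 0 ≤ x → w * x ^ ((1 - w) / a) ≤ 1 →
      Glue87.TOP a w K e (lamN (F0 a c) a (muN n a c))
        ((2 * a - 1) * UU (F0 a c) a be (muN n a c)
          (w / (1 - w) * (1 - x ^ ((1 - w) / a)))) x ≤ 0 := by
  intro x hx hwx
  refine h x hx hwx _ ?_
  rw [UU_eq]

/-- the kernel `0` (no gain) -/
theorem kernel_zero (a c : ℝ) (hc : 1 ≤ c) :
    (∀ l : ℝ, 0 < l → 0 ≤ (fun _ : ℝ => (0 : ℝ)) l) ∧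
    (∀ l : ℝ, 0 < l → (fun _ : ℝ => (0 : ℝ)) l ≤ kh a c l) ∧
    AntitoneOn (fun _ : ℝ => (0 : ℝ)) (Ioi 0) ∧
    (∫ l in Ioi (0 : ℝ), (fun _ : ℝ => (0 : ℝ)) l = 0 * zz a c) := by
  refine ⟨fun _ _ => le_rfl, fun l hl => ?_, fun _ _ _ _ _ => le_rfl, by simp⟩
  unfold kh kap
  have h1 : 1 ≤ Real.exp l := Real.one_le_exp hl.le
  have h2 : 0 ≤ c * Real.exp l - 1 := by nlinarith
  positivity

/-- the certificate for all `n ≥ n0` and all `a` in `(1/2, 1)` -/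
def CertAll (n0 : ℕ) : Prop := ∀ n : ℕ, n0 ≤ n → ∀ a : ℝ, 1 / 2 < a → a < 1 → HasCert n a

/-- one region: `[lo, hi]` (with `1/2 < a < 1`) -/
def RegionOK (n0 : ℕ) (lo hi : ℝ) : Prop :=
  ∀ n : ℕ, n0 ≤ n → ∀ a : ℝ, 1 / 2 < a → a < 1 → lo ≤ a → a ≤ hi → HasCert n a

theorem RegionOK.mono {n0 m0 : ℕ} {lo hi lo' hi' : ℝ} (h : RegionOK n0 lo hi) (hn : n0 ≤ m0)
    (hl : lo ≤ lo') (hh : hi' ≤ hi) : RegionOK m0 lo' hi' :=
  fun n hn' a h0 h1 h2 h3 => h n (hn.trans hn') a h0 h1 (hl.trans h2) (h3.trans hh)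

theorem RegionOK.union {n0 : ℕ} {lo mid hi : ℝ} (h1 : RegionOK n0 lo mid)
    (h2 : RegionOK n0 mid hi) : RegionOK n0 lo hi := by
  intro n hn a ha0 ha1 hlo hhi
  rcases le_total a mid with h | h
  · exact h1 n hn a ha0 ha1 hlo h
  · exact h2 n hn a ha0 ha1 h hhi

theorem certAll_iff {n0 : ℕ} : CertAll n0 ↔ RegionOK n0 (1 / 2) 1 :=
  ⟨fun h n hn a h0 h1 _ _ => h n hn a h0 h1, fun h n hn a h0 h1 => h n hn a h0 h1 h0.le h1.le⟩

/-- in the variable `p` -/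
theorem CertAll.at_p {n0 : ℕ} (h : CertAll n0) {n : ℕ} (hn : n0 ≤ n) {p : ℝ} (hp1 : 1 < p)
    (hp2 : p < 2) : ∃ (c r smax Lam : ℝ) (V k1 : ℝ → ℝ), CertG n p c r smax Lam V k1 := by
  have hp0 : 0 < p := by linarith
  obtain ⟨c, r, smax, Lam, V, k1, hC⟩ := h n hn (1 / p)
    (by rw [div_lt_div_iff₀ (by norm_num) hp0]; linarith)
    (by rw [div_lt_one hp0]; exact hp1)
  rw [one_div_one_div] at hC
  exact ⟨c, r, smax, Lam, V, k1, hC⟩

/-- **the case split** of the frozen table -/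
theorem certAll_of {n0 : ℕ} (h1 : RegionOK n0 (1 / 2) (77 / 100))
    (h2 : RegionOK n0 (77 / 100) (43 / 50)) (h3 : RegionOK n0 (43 / 50) (23 / 25))
    (h4 : RegionOK n0 (23 / 25) (24 / 25)) (h5 : RegionOK n0 (24 / 25) 1) : CertAll n0 := by
  intro n hn a ha0 ha1
  rcases le_total a (77 / 100) with h | h
  · exact h1 n hn a ha0 ha1 (by linarith) h
  rcases le_total a (43 / 50) with h' | h'
  · exact h2 n hn a ha0 ha1 h h'
  rcases le_total a (23 / 25) with h'' | h''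
  · exact h3 n hn a ha0 ha1 h' h''
  rcases le_total a (24 / 25) with h''' | h'''
  · exact h4 n hn a ha0 ha1 h'' h'''
  · exact h5 n hn a ha0 ha1 h''' ha1.le

end Pool.Agent.Lib.QNL.CG
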