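import Pool.Agent.Lib.QNL.Main19
import Pool.Agent.Lib.QNL.H031
import Pool.Agent.Lib.QNL.Src19
import Pool.Agent.Lib.QNL.One2
import Pool.Agent.Lib.QNL.EFin

/-!
Room QNL: the exact bound for the second power.
-/

set_option autoImplicit false

namespace Pool.Agent.Lib.QNL.Two31

open MeasureTheory Filter Topology Set
open scoped ENNReal SchwartzMap
open Pool.Agent.Lib.QNL Pool.Agent.Lib.QNL.FinN

/-- **(N)** with the families of two-point sources -/
theorem lowH_of {n : ℕ} (hFam : Fam19.StmtFamO) (hone : One n) : StmtLowH n := by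
  intro p hp1 hp2 f hfc
  obtain ⟨r, smax, th, B, W, hr, hrp, hsm, hB, hQ, hineq⟩ := hone p hp1 hp2
  have hr0 : 0 < r := by linarith
  have hp0 : 0 < p := by linarith
  have hC := Cn_pos n hp1
  obtain ⟨C, hsrc⟩ := Src19.src_pow (f.smooth 2) hfc hr
  obtain ⟨ψ, hψ, C', hC', hlay⟩ := hFam _ C hsrc
  have hfcont : Continuous f := f.continuous
  set X : H := f.toLp 2 with hX
  have hXf : (X : ℂ → ℂ) =ᵐ[volume] f := f.coeFn_toLp 2 volume
  have hfe := F31.stmtF p r hr hrp hp2 f X hfcont hfc hXf ψ C' hψ hC' (hlay X) n smax th B W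
    hsm hQ
  have hsum : ∀ L : ℝ, ∑ j ∈ Finset.range (n + 1), B j * E j {z | 0 < ψ L z} X =
      E n {z | 0 < ψ L z} X := by
    intro L
    rw [Finset.sum_eq_single n]
    · rw [hB n, if_pos rfl, one_mul]
    · intro j _ hj; rw [hB j, if_neg hj, zero_mul]
    · intro h; exact absurd (Finset.mem_range.2 (Nat.lt_succ_self n)) h
  simp only [hsum] at hfe
  have hY : Measurable (TT n X : ℂ → ℂ) := (Lp.stronglyMeasurable (TT n X)).measurable
  have hYi : Integrable (fun z => ‖(TT n X : ℂ → ℂ) z‖ ^ 2) :=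
    (memLp_two_iff_integrable_sq_norm (Lp.aestronglyMeasurable (TT n X))).1 (Lp.memLp (TT n X))
  have hE : ∀ L, 0 < L → ∫⁻ z in {z | 0 < ψ L z}ᶜ, ENNReal.ofReal (‖(TT n X : ℂ → ℂ) z‖ ^ 2) ≤
      ENNReal.ofReal (E n {z | 0 < ψ L z} X) := by
    intro L hL
    rw [← ofReal_integral_eq_lintegral_ofReal hYi.restrict
      (Eventually.of_forall fun z => sq_nonneg _)]
    exact ENNReal.ofReal_le_ofReal (Hil.stmtHoff n _ X (isOpen_U hψ hL))
  have hcore := core hr hrp hp2 hfcont hfc hψ hY hE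
    (hQ.cont.mono (Icc_subset_Icc_right hsm.le)) hC
    (fun s hs => QForm.nonneg hp2 hQ ⟨hs.1, hs.2.trans hsm.le⟩) hfe hineq
  have e1 : ∀ z, ‖(TH n X : ℂ → ℂ) z‖ₑ ^ p = ENNReal.ofReal (‖(TT n X : ℂ → ℂ) z‖ ^ p) := by
    intro z
    rw [← ENNReal.ofReal_rpow_of_nonneg (norm_nonneg _) hp0.le, ofReal_norm]
    rfl
  have i4 : Integrable (fun z => ‖f z‖ ^ p) := by
    have hc : Continuous fun z => ‖f z‖ ^ p := hfcont.norm.rpow_const fun z => Or.inr hp0.le
    apply hc.integrable_of_hasCompactSupport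
    exact hfc.comp_left (g := fun y : ℂ => ‖y‖ ^ p) (by simp [Real.zero_rpow hp0.ne'])
  have e2 : ENNReal.ofReal (Cn n p ^ p) * ∫⁻ w, ‖f w‖ₑ ^ p =
      ENNReal.ofReal (Cn n p ^ p * ∫ z, ‖f z‖ ^ p) := by
    rw [ENNReal.ofReal_mul (by positivity), ofReal_integral_eq_lintegral_ofReal i4
      (Eventually.of_forall fun z => by positivity)]
    congr 1
    refine lintegral_congr fun z => ?_
    rw [← ENNReal.ofReal_rpow_of_nonneg (norm_nonneg _) hp0.le, ofReal_norm]
  rw [e2]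
  simp only [e1]
  exact hcore

/-- `(A_2)` -/
theorem lowH_two : StmtLowH 2 := lowH_of (Main19.stmtFamO EFin.stmtBI) one_two

/-- the inequality of the problem for the second power -/
theorem frozen_two : ∀ p : ℝ, 2 ≤ p → ∀ f : SchwartzMap ℂ ℂ,
      MeasureTheory.eLpNorm
        (fun z : ℂ => ∫ ξ : ℂ,
          Complex.exp (2 * (Real.pi : ℂ) * Complex.I * (((z.re * ξ.re + z.im * ξ.im : ℝ)) : ℂ)) *
            ((starRingEnd ℂ ξ / ξ) ^ 2 *
              ∫ x : ℂ, Complex.exp (-(2 * (Real.pi : ℂ) * Complex.I *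
                (((x.re * ξ.re + x.im * ξ.im : ℝ)) : ℂ))) * f x))
        (ENNReal.ofReal p) MeasureTheory.volume
      ≤ ENNReal.ofReal ((ascPochhammer ℝ 2).eval (1 - 1 / p) / (ascPochhammer ℝ 2).eval (1 / p))
        * MeasureTheory.eLpNorm (⇑f) (ENNReal.ofReal p) MeasureTheory.volume :=
  frozen_of_lowN (lowN_of_lowH lowH_two)

end Pool.Agent.Lib.QNL.Two31
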