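import Pool.Agent.Lib.QNL.RefG77
import Pool.Agent.Lib.QNL.Two31
import Pool.Agent.Lib.QNL.Reg95
import Pool.Agent.Lib.QNL.Last58

/-!
The end of the assembly with certificates for `n ≥ 3` only (`n = 1` is `Asm.lowH_one`, `n = 2`
is `Two31`).
-/

set_option autoImplicit false

namespace Pool.Agent.Lib.QNL.Low77

open Pool.Agent.Lib.QNL

theorem lowH_of_certAll (h : CG.CertAll 3) (n : ℕ) (hn : 1 ≤ n) : StmtLowH n := by
  rcases Nat.lt_or_ge n 3 with h3 | h3
  · rcases hn.eq_or_lt with rfl | hn2
    · exact Asm.lowH_one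
    · have e : n = 2 := by omega
      subst e
      exact Two31.lowH_two
  · exact lowH_of_certG Main19.famU F31.stmtF GeoFin46.stmtGeo GeoFin46.stmtRet (by omega)
      fun p hp1 hp2 => h.at_p h3 hp1 hp2

/-- **the frozen inequality from the certificates for `n ≥ 3`** -/
theorem frz_of_certAll (h : CG.CertAll 3) (n : ℕ) : Fin.Frz n :=
  Fin.frz_of_low (lowH_of_certAll h) n

end Pool.Agent.Lib.QNL.Low77
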