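import Pool.Agent.Lib.QNL.PolyPos
import Pool.Agent.Lib.QNL.Glue87

/-!
Group N, window V of the end `p → 1`: `24/25 ≤ a ≤ 99/100`, no gain (`K = e = 0`),
`w = (1-a)(3a-2)`, one pole `be = 7`, `mu ∈ [9/5, 9/4]`, `1 - (39/5000)(1-a) ≤ F0 ≤ 1`:
the polynomial inequalities `PP ≥ 0` for both brackets of `x²`.
-/

set_option autoImplicit false

namespace Pool.Agent.Lib.QNL.Poly8V

open Set
open Pool.Agent.Lib.QNL.PolyPos
open Pool.Agent.Lib.QNL.Glue87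

/-! ### real polynomials; `a = 1 - d`, `w = d v` -/

/-- `a nn` -/
def nA (F mu be d η : ℝ) : ℝ := F * (1 - be * η + mu * d * ((1 - d) - d * η))
/-- `a nn1` -/
def nB (F mu be d : ℝ) : ℝ := F * (-(mu * d * d) - be)
/-- `Q` -/
def qA (mu be d η : ℝ) : ℝ := (d - (1 - d) * η) * (1 - be * η) - mu * d * η
/-- `Q'` -/
def qB (mu be d η : ℝ) : ℝ := -(1 - d) - be * d - mu * d + 2 * be * (1 - d) * η
/-- `a w la` -/
def wl (F mu d v : ℝ) : ℝ := F * (1 + mu * (1 - d) * d) * v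

/-- `a² M2` -/
def mA (F mu be d v η : ℝ) : ℝ :=
  (1 - d) * qA mu be d η * qA mu be d η + (2 * (1 - d) - 1) * (η * nA F mu be d η) * qA mu be d η
    - (d * v - η * (1 - d * v)) * ((nA F mu be d η + η * nB F mu be d) * qA mu be d η
      - η * nA F mu be d η * qB mu be d η)

/-- `a² PP` without the term `q1 M2` -/
def pA (F mu be d v η : ℝ) : ℝ :=
  (2 * (1 - d) - 1) * nA F mu be d η * qA mu be d η
    + qA mu be d η * (wl F mu d v * (-(1 - d) - be * d - mu * d + η * (1 - d) * be)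
      - d * v * nB F mu be d)
    + (wl F mu d v * qA mu be d η * qA mu be d η + nA F mu be d η * qA mu be d η * (1 - d * v)
      - (d * v - η * (1 - d * v)) * (nB F mu be d * qA mu be d η - nA F mu be d η * qB mu be d η))

theorem nn_eq {F mu be d η : ℝ} : nn (1 - d) F mu be η = nA F mu be d η / (1 - d) := by
  simp only [nn, nA]; ring

theorem nn1_eq {F mu be d : ℝ} : nn1 (1 - d) F mu be = nB F mu be d / (1 - d) := by
  simp only [nn1, nB]; ring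

theorem QQ_eq {mu be d η : ℝ} : QQ (1 - d) mu be η = qA mu be d η := by
  simp only [QQ, qA]; ring

theorem QQ1_eq {mu be d η : ℝ} : QQ1 (1 - d) mu be η = qB mu be d η := by
  simp only [QQ1, qB]; ring

theorem la_eq {F mu d v : ℝ} (hd : d ≠ 0) (hv : v ≠ 0) (ha : 1 - d ≠ 0) :
    la (1 - d) F mu = wl F mu d v / ((1 - d) * (d * v)) := by
  simp only [la, wl]
  have e : (1 : ℝ) - (1 - d) = d := by ring
  rw [e]
  field_simp

theorem core {n n1 Q Q1 l a w be mu d η q1 : ℝ} (ha : a ≠ 0) (hw : w ≠ 0) :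
    a ^ 2 * ((2 - 1 / a) * (n / a) * Q
      + (w / a) * Q * (l / (a * w) * (-a - be * d - mu * d + η * (a * be)) - n1 / a)
      + (w / a) * (l / (a * w) * Q ^ 2 + n / a * Q * (1 - w) / w
        - (1 - η * (1 - w) / w) * (n1 / a * Q - n / a * Q1))
      - 2 * 0 * Q ^ 2 + q1 * (((1 - 0) / a + 0 * (2 - 1 / a)) * Q ^ 2
        + (2 - 1 / a) * (η * (n / a)) * Q
        - (w / a) * (1 - η * (1 - w) / w) * ((n / a + η * (n1 / a)) * Q - η * (n / a) * Q1))) =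
    ((2 * a - 1) * n * Q + Q * (l * (-a - be * d - mu * d + η * a * be) - w * n1)
      + (l * Q * Q + n * Q * (1 - w) - (w - η * (1 - w)) * (n1 * Q - n * Q1)))
    + q1 * (a * Q * Q + (2 * a - 1) * (η * n) * Q
      - (w - η * (1 - w)) * ((n + η * n1) * Q - η * n * Q1)) := by
  field_simp
  ring

theorem pp_core {F mu be d v η q1 : ℝ} (hd : d ≠ 0) (hv : v ≠ 0) (ha : 1 - d ≠ 0) :
    (1 - d) ^ 2 * PP (1 - d) (d * v) 0 0 F mu be q1 η =
      pA F mu be d v η + q1 * mA F mu be d v η := by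
  have h := core (n := nA F mu be d η) (n1 := nB F mu be d) (Q := qA mu be d η)
    (Q1 := qB mu be d η) (l := wl F mu d v) (be := be) (mu := mu) (d := d) (η := η) (q1 := q1)
    ha (mul_ne_zero hd hv)
  have e : (1 : ℝ) - (1 - d) = d := by ring
  simp only [PP, M2, nn_eq, nn1_eq, QQ_eq, QQ1_eq, la_eq hd hv ha, e]
  simp only [pA, mA]
  exact h

theorem ppU {F mu be d v η : ℝ} (hd : d ≠ 0) (hv : v ≠ 0) (ha : 1 - d ≠ 0)
    (hw : 1 - d * v ≠ 0) :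
    (1 - d) ^ 2 * (d * v) ^ 2 *
      PP (1 - d) (d * v) 0 0 F mu be (q1U (1 - d) (d * v) η) η =
      (d * v) ^ 2 * pA F mu be d v η +
        (-2 * (1 - d) * (d * v) + (2 * (1 - d) - 1 + d * v) * (1 - d * v) * η) *
          mA F mu be d v η := by
  have e : (d * v) ^ 2 * q1U (1 - d) (d * v) η =
      -2 * (1 - d) * (d * v) + (2 * (1 - d) - 1 + d * v) * (1 - d * v) * η := by
    simp only [q1U]
    field_simp
    ring
  rw [← e]
  have h := pp_core (F := F) (mu := mu) (be := be) (η := η) (q1 := q1U (1 - d) (d * v) η) hd hv ha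
  linear_combination (d * v) ^ 2 * h

theorem ppL {F mu be d v η : ℝ} (hd : d ≠ 0) (hv : v ≠ 0) (ha : 1 - d ≠ 0)
    (hw : 1 - d * v ≠ 0) :
    (1 - d) ^ 2 * (d * v) ^ 3 *
      PP (1 - d) (d * v) 0 0 F mu be (q1L (1 - d) (d * v) η) η =
      (d * v) ^ 3 * pA F mu be d v η +
        (-2 * (1 - d) * (d * v) ^ 2 + (4 * (1 - d) - 3 * (1 - d * v)) * (1 - d * v) * (d * v) * η
          + 2 * ((1 - d * v) - (1 - d)) * (1 - d * v) ^ 2 * η ^ 2) *
          mA F mu be d v η := by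
  have e : (d * v) ^ 3 * q1L (1 - d) (d * v) η =
      -2 * (1 - d) * (d * v) ^ 2 + (4 * (1 - d) - 3 * (1 - d * v)) * (1 - d * v) * (d * v) * η
          + 2 * ((1 - d * v) - (1 - d)) * (1 - d * v) ^ 2 * η ^ 2 := by
    simp only [q1L]
    field_simp
  rw [← e]
  have h := pp_core (F := F) (mu := mu) (be := be) (η := η) (q1 := q1L (1 - d) (d * v) η) hd hv ha
  linear_combination (d * v) ^ 3 * h

/-! ### expressions, `X = mu`, `Y = d`, `v = 1 - 3 d`, `be = 7` -/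

/-- `a` -/
def eA : Ex := 1 - Ex.y
/-- `v` -/
def eV : Ex := 1 - 3 * Ex.y
/-- `w` -/
def eW : Ex := Ex.y * eV
/-- `1 - w` -/
def eO : Ex := 1 - eW
/-- `nA` -/
def enA (F η : Ex) : Ex := F * (1 - 7 * η + Ex.x * Ex.y * (eA - Ex.y * η))
/-- `nB` -/
def enB (F : Ex) : Ex := F * (-(Ex.x * Ex.y * Ex.y) - 7)
/-- `qA` -/
def eqA (η : Ex) : Ex := (Ex.y - eA * η) * (1 - 7 * η) - Ex.x * Ex.y * η
/-- `qB` -/
def eqB (η : Ex) : Ex := -eA - 7 * Ex.y - Ex.x * Ex.y + 2 * 7 * eA * η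
/-- `wl` -/
def ewl (F : Ex) : Ex := F * (1 + Ex.x * eA * Ex.y) * eV
/-- `mA` -/
def emA (F η : Ex) : Ex :=
  eA * eqA η * eqA η + (2 * eA - 1) * (η * enA F η) * eqA η
    - (eW - η * eO) * ((enA F η + η * enB F) * eqA η - η * enA F η * eqB η)
/-- `pA` -/
def epA (F η : Ex) : Ex :=
  (2 * eA - 1) * enA F η * eqA η
    + eqA η * (ewl F * (-eA - 7 * Ex.y - Ex.x * Ex.y + η * eA * 7) - eW * enB F)
    + (ewl F * eqA η * eqA η + enA F η * eqA η * eO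
      - (eW - η * eO) * (enB F * eqA η - enA F η * eqB η))
/-- the upper bracket -/
def eU (F η : Ex) : Ex :=
  eW ^ 2 * epA F η + (-(2 * eA * eW) + (2 * eA - 1 + eW) * eO * η) * emA F η
/-- the lower bracket -/
def eL (F η : Ex) : Ex :=
  eW ^ 3 * epA F η + (-(2 * eA * eW ^ 2) + (4 * eA - 3 * eO) * eO * eW * η
    + 2 * (eO - eA) * eO ^ 2 * η ^ 2) * emA F η

/-- the lower value of `F0` -/
def eF : Ex := 1 - Ex.q 39 5000 * Ex.y

/-- the box for `mu` -/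
def bX : Side := seg 36 9 20
/-- the box for `d` -/
def bY : Side := seg 1 3 100
/-- the box for `-η` -/
def bZ : Side := seg 0 1 1

theorem negU1 : check (eU 1 (-Ex.z)) bX bY bZ ⟨3, 9, 5⟩ T.o = true := by decide +kernel
theorem negU2 : check (eU eF (-Ex.z)) bX bY bZ ⟨3, 10, 5⟩ T.o = true := by decide +kernel
theorem negL1 : check (eL 1 (-Ex.z)) bX bY bZ ⟨3, 11, 6⟩ T.o = true := by decide +kernel
theorem negL2 : check (eL eF (-Ex.z)) bX bY bZ ⟨3, 12, 6⟩ T.o = true := by decide +kernel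

/-! ### positive side, `η = τ w/(1-w)`, everything times `(1-w)^4` -/

/-- `a nn (1-w)` -/
def nS (F mu be d v τ : ℝ) : ℝ :=
  F * ((1 - d * v) - be * τ * (d * v) + mu * d * ((1 - d) * (1 - d * v) - d * τ * (d * v)))
/-- `Q (1-w)²` -/
def qS (mu be d v τ : ℝ) : ℝ :=
  (d * (1 - d * v) - (1 - d) * τ * (d * v)) * ((1 - d * v) - be * τ * (d * v))
    - mu * d * τ * (d * v) * (1 - d * v)
/-- `Q' (1-w)` -/
def rS (mu be d v τ : ℝ) : ℝ :=
  (-(1 - d) - be * d - mu * d) * (1 - d * v) + 2 * be * (1 - d) * τ * (d * v)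

/-- `a² M2 (1-w)⁴` -/
def mS (F mu be d v τ : ℝ) : ℝ :=
  (1 - d) * qS mu be d v τ * qS mu be d v τ
    + (2 * (1 - d) - 1) * (τ * (d * v) * nS F mu be d v τ) * qS mu be d v τ
    - (d * v) * (1 - τ) * (1 - d * v) * ((nS F mu be d v τ + τ * (d * v) * nB F mu be d)
      * qS mu be d v τ - τ * (d * v) * nS F mu be d v τ * rS mu be d v τ)

/-- `pA (1-w)⁴` -/
def pS (F mu be d v τ : ℝ) : ℝ :=
  (2 * (1 - d) - 1) * nS F mu be d v τ * qS mu be d v τ * (1 - d * v)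
    + qS mu be d v τ * (1 - d * v) * (wl F mu d v * ((-(1 - d) - be * d - mu * d) * (1 - d * v)
      + τ * (d * v) * (1 - d) * be) - d * v * nB F mu be d * (1 - d * v))
    + (wl F mu d v * qS mu be d v τ * qS mu be d v τ
      + nS F mu be d v τ * qS mu be d v τ * (1 - d * v) * (1 - d * v)
      - (d * v) * (1 - τ) * (1 - d * v) * (1 - d * v) * (nB F mu be d * qS mu be d v τ
        - nS F mu be d v τ * rS mu be d v τ))

theorem nS_eq {F mu be d v τ : ℝ} (hw : 1 - d * v ≠ 0) :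
    nA F mu be d (τ * (d * v) / (1 - d * v)) = nS F mu be d v τ / (1 - d * v) := by
  simp only [nA, nS]; field_simp

theorem qS_eq {mu be d v τ : ℝ} (hw : 1 - d * v ≠ 0) :
    qA mu be d (τ * (d * v) / (1 - d * v)) = qS mu be d v τ / (1 - d * v) ^ 2 := by
  simp only [qA, qS]; field_simp

theorem rS_eq {mu be d v τ : ℝ} (hw : 1 - d * v ≠ 0) :
    qB mu be d (τ * (d * v) / (1 - d * v)) = rS mu be d v τ / (1 - d * v) := by
  simp only [qB, rS]; field_simp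

theorem mS_eq {F mu be d v τ : ℝ} (hw : 1 - d * v ≠ 0) :
    (1 - d * v) ^ 4 * mA F mu be d v (τ * (d * v) / (1 - d * v)) = mS F mu be d v τ := by
  simp only [mA, mS, nS_eq hw, qS_eq hw, rS_eq hw]
  field_simp

theorem pS_eq {F mu be d v τ : ℝ} (hw : 1 - d * v ≠ 0) :
    (1 - d * v) ^ 4 * pA F mu be d v (τ * (d * v) / (1 - d * v)) = pS F mu be d v τ := by
  simp only [pA, pS, nS_eq hw, qS_eq hw, rS_eq hw]
  field_simp

theorem ppU_pos {F mu be d v τ : ℝ} (hd : d ≠ 0) (hv : v ≠ 0) (ha : 1 - d ≠ 0)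
    (hw : 1 - d * v ≠ 0) :
    (1 - d) ^ 2 * (d * v) * (1 - d * v) ^ 4 *
      PP (1 - d) (d * v) 0 0 F mu be (q1U (1 - d) (d * v) (τ * (d * v) / (1 - d * v)))
        (τ * (d * v) / (1 - d * v)) =
      (d * v) * pS F mu be d v τ +
        (-2 * (1 - d) + (2 * (1 - d) - 1 + d * v) * τ) * mS F mu be d v τ := by
  have h := ppU (F := F) (mu := mu) (be := be) (η := τ * (d * v) / (1 - d * v)) hd hv ha hw
  have hx : d * v ≠ 0 := mul_ne_zero hd hv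
  have e : (1 - d * v) * (τ * (d * v) / (1 - d * v)) = τ * (d * v) := by field_simp
  rw [← mS_eq hw, ← pS_eq hw]
  apply mul_left_cancel₀ hx
  linear_combination (1 - d * v) ^ 4 * h + (1 - d * v) ^ 4 * (2 * (1 - d) - 1 + d * v) *
    mA F mu be d v (τ * (d * v) / (1 - d * v)) * e

theorem ppL_pos {F mu be d v τ : ℝ} (hd : d ≠ 0) (hv : v ≠ 0) (ha : 1 - d ≠ 0)
    (hw : 1 - d * v ≠ 0) :
    (1 - d) ^ 2 * (d * v) * (1 - d * v) ^ 4 *
      PP (1 - d) (d * v) 0 0 F mu be (q1L (1 - d) (d * v) (τ * (d * v) / (1 - d * v)))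
        (τ * (d * v) / (1 - d * v)) =
      (d * v) * pS F mu be d v τ +
        (-2 * (1 - d) + (4 * (1 - d) - 3 * (1 - d * v)) * τ
          + 2 * ((1 - d * v) - (1 - d)) * τ ^ 2) * mS F mu be d v τ := by
  have h := ppL (F := F) (mu := mu) (be := be) (η := τ * (d * v) / (1 - d * v)) hd hv ha hw
  have hx : (d * v) ^ 2 ≠ 0 := pow_ne_zero 2 (mul_ne_zero hd hv)
  obtain ⟨η, hη⟩ : ∃ η, η = τ * (d * v) / (1 - d * v) := ⟨_, rfl⟩
  have e : (1 - d * v) * η = τ * (d * v) := by rw [hη]; field_simp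
  rw [← mS_eq hw, ← pS_eq hw]
  rw [← hη] at h ⊢
  apply mul_left_cancel₀ hx
  linear_combination (1 - d * v) ^ 4 * h + (1 - d * v) ^ 4 * mA F mu be d v η *
    ((4 * (1 - d) - 3 * (1 - d * v)) * (d * v) + 2 * ((1 - d * v) - (1 - d)) *
      ((1 - d * v) * η + τ * (d * v))) * e

/-! ### affine in `F` -/

/-- the four left sides -/
def lU (F mu be d v η : ℝ) : ℝ := (d * v) ^ 2 * pA F mu be d v η +
  (-2 * (1 - d) * (d * v) + (2 * (1 - d) - 1 + d * v) * (1 - d * v) * η) * mA F mu be d v η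
/-- lower bracket -/
def lL (F mu be d v η : ℝ) : ℝ := (d * v) ^ 3 * pA F mu be d v η +
  (-2 * (1 - d) * (d * v) ^ 2 + (4 * (1 - d) - 3 * (1 - d * v)) * (1 - d * v) * (d * v) * η
    + 2 * ((1 - d * v) - (1 - d)) * (1 - d * v) ^ 2 * η ^ 2) * mA F mu be d v η
/-- upper bracket, positive side -/
def sU (F mu be d v τ : ℝ) : ℝ := (d * v) * pS F mu be d v τ +
  (-2 * (1 - d) + (2 * (1 - d) - 1 + d * v) * τ) * mS F mu be d v τ
/-- lower bracket, positive side -/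
def sL (F mu be d v τ : ℝ) : ℝ := (d * v) * pS F mu be d v τ +
  (-2 * (1 - d) + (4 * (1 - d) - 3 * (1 - d * v)) * τ
    + 2 * ((1 - d * v) - (1 - d)) * τ ^ 2) * mS F mu be d v τ

theorem affine {G : ℝ → ℝ} {f F : ℝ} (hG : ∀ x, G x * (1 - f) = G 1 * (x - f) + G f * (1 - x))
    (h1 : 0 ≤ G 1) (h2 : 0 ≤ G f) (hf : f < 1) (hF : f ≤ F) (hF1 : F ≤ 1) : 0 ≤ G F := by
  have h := hG F
  have h3 : 0 ≤ G F * (1 - f) := by
    rw [h]
    have := mul_nonneg h1 (sub_nonneg.2 hF)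
    have := mul_nonneg h2 (sub_nonneg.2 hF1)
    linarith
  exact nonneg_of_mul_nonneg_left h3 (by linarith)

theorem pA_aff {mu be d v η f x : ℝ} : pA x mu be d v η * (1 - f) =
    pA 1 mu be d v η * (x - f) + pA f mu be d v η * (1 - x) := by
  simp only [pA, nA, nB, wl]; ring
theorem mA_aff {mu be d v η f x : ℝ} : mA x mu be d v η * (1 - f) =
    mA 1 mu be d v η * (x - f) + mA f mu be d v η * (1 - x) := by
  simp only [mA, nA, nB]; ring
theorem pS_aff {mu be d v η f x : ℝ} : pS x mu be d v η * (1 - f) =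
    pS 1 mu be d v η * (x - f) + pS f mu be d v η * (1 - x) := by
  simp only [pS, nS, nB, wl]; ring
theorem mS_aff {mu be d v η f x : ℝ} : mS x mu be d v η * (1 - f) =
    mS 1 mu be d v η * (x - f) + mS f mu be d v η * (1 - x) := by
  simp only [mS, nS, nB]; ring

/-! ### expressions of the positive side -/

/-- `nS` -/
def enS (F : Ex) : Ex :=
  F * (eO - 7 * Ex.z * eW + Ex.x * Ex.y * (eA * eO - Ex.y * Ex.z * eW))
/-- `qS` -/
def eqS : Ex := (Ex.y * eO - eA * Ex.z * eW) * (eO - 7 * Ex.z * eW) -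
  Ex.x * Ex.y * Ex.z * eW * eO
/-- `rS` -/
def erS : Ex := (-eA - 7 * Ex.y - Ex.x * Ex.y) * eO + 2 * 7 * eA * Ex.z * eW
/-- `mS` -/
def emS (F : Ex) : Ex :=
  eA * eqS * eqS + (2 * eA - 1) * (Ex.z * eW * enS F) * eqS
    - eW * (1 - Ex.z) * eO * ((enS F + Ex.z * eW * enB F) * eqS - Ex.z * eW * enS F * erS)
/-- `pS` -/
def epS (F : Ex) : Ex :=
  (2 * eA - 1) * enS F * eqS * eO
    + eqS * eO * (ewl F * ((-eA - 7 * Ex.y - Ex.x * Ex.y) * eO + Ex.z * eW * eA * 7)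
      - eW * enB F * eO)
    + (ewl F * eqS * eqS + enS F * eqS * eO * eO
      - eW * (1 - Ex.z) * eO * eO * (enB F * eqS - enS F * erS))
/-- upper bracket -/
def eSU (F : Ex) : Ex := eW * epS F + (-(2 * eA) + (2 * eA - 1 + eW) * Ex.z) * emS F
/-- lower bracket -/
def eSL (F : Ex) : Ex :=
  eW * epS F + (-(2 * eA) + (4 * eA - 3 * eO) * Ex.z + 2 * (eO - eA) * Ex.z ^ 2) * emS F

theorem posU1 : check (eSU 1) bX bY bZ ⟨3, 15, 5⟩ T.o = true := by decide +kernel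
theorem posU2 : check (eSU eF) bX bY bZ ⟨3, 16, 5⟩ T.o = true := by decide +kernel
theorem posL1 : check (eSL 1) bX bY bZ ⟨3, 15, 6⟩ T.o = true := by decide +kernel
theorem posL2 : check (eSL eF) bX bY bZ ⟨3, 16, 6⟩ T.o = true := by decide +kernel
/-- the denominator, `τ ≤ 1001/1000` -/
theorem posQ : check (eqS - Ex.y ^ 2 * Ex.q 1 10) bX bY (seg 0 1001 1000) ⟨1, 7, 2⟩ T.o = true := by
  decide +kernel

/-! ### evaluation -/

variable {X Y Z : ℝ}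

theorem ev_two : Ex.ev X Y Z (2 : Ex) = 2 := Ex.ev_ofNat X Y Z 2
theorem ev_three : Ex.ev X Y Z (3 : Ex) = 3 := Ex.ev_ofNat X Y Z 3
theorem ev_four : Ex.ev X Y Z (4 : Ex) = 4 := Ex.ev_ofNat X Y Z 4
theorem ev_seven : Ex.ev X Y Z (7 : Ex) = 7 := Ex.ev_ofNat X Y Z 7

theorem ev_eA : Ex.ev X Y Z eA = 1 - Y := by
  simp only [eA, Ex.ev_sub, Ex.ev_one, Ex.ev_y]
theorem ev_eV : Ex.ev X Y Z eV = 1 - 3 * Y := by
  simp only [eV, Ex.ev_sub, Ex.ev_one, Ex.ev_mul, ev_three, Ex.ev_y]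
theorem ev_eW : Ex.ev X Y Z eW = Y * (1 - 3 * Y) := by
  simp only [eW, Ex.ev_mul, Ex.ev_y, ev_eV]
theorem ev_eO : Ex.ev X Y Z eO = 1 - Y * (1 - 3 * Y) := by
  simp only [eO, Ex.ev_sub, Ex.ev_one, ev_eW]
theorem ev_enA (F η : Ex) : (enA F η).ev X Y Z = nA (F.ev X Y Z) X 7 Y (η.ev X Y Z) := by
  simp only [enA, Ex.ev_add, Ex.ev_sub, Ex.ev_mul, Ex.ev_x, Ex.ev_y, Ex.ev_one, ev_seven, ev_eA,
    nA]
theorem ev_enB (F : Ex) : (enB F).ev X Y Z = nB (F.ev X Y Z) X 7 Y := by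
  simp only [enB, Ex.ev_sub, Ex.ev_mul, Ex.ev_neg, Ex.ev_x, Ex.ev_y, ev_seven, nB]
theorem ev_eqA (η : Ex) : (eqA η).ev X Y Z = qA X 7 Y (η.ev X Y Z) := by
  simp only [eqA, Ex.ev_sub, Ex.ev_mul, Ex.ev_x, Ex.ev_y, Ex.ev_one, ev_seven, ev_eA, qA]
theorem ev_eqB (η : Ex) : (eqB η).ev X Y Z = qB X 7 Y (η.ev X Y Z) := by
  simp only [eqB, Ex.ev_add, Ex.ev_sub, Ex.ev_neg, Ex.ev_mul, Ex.ev_x, Ex.ev_y, ev_two, ev_seven,
    ev_eA, qB]
theorem ev_ewl (F : Ex) : (ewl F).ev X Y Z = wl (F.ev X Y Z) X Y (1 - 3 * Y) := by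
  simp only [ewl, Ex.ev_add, Ex.ev_mul, Ex.ev_x, Ex.ev_y, Ex.ev_one, ev_eA, ev_eV, wl]
theorem ev_emA (F η : Ex) : (emA F η).ev X Y Z =
    mA (F.ev X Y Z) X 7 Y (1 - 3 * Y) (η.ev X Y Z) := by
  simp only [emA, Ex.ev_add, Ex.ev_sub, Ex.ev_mul, Ex.ev_one, ev_two, ev_eA, ev_eW, ev_eO,
    ev_enA, ev_enB, ev_eqA, ev_eqB, mA]
theorem ev_epA (F η : Ex) : (epA F η).ev X Y Z =
    pA (F.ev X Y Z) X 7 Y (1 - 3 * Y) (η.ev X Y Z) := by
  simp only [epA, Ex.ev_add, Ex.ev_sub, Ex.ev_mul, Ex.ev_neg, Ex.ev_one, Ex.ev_x, Ex.ev_y,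
    ev_two, ev_seven, ev_eA, ev_eW, ev_eO, ev_enA, ev_enB, ev_eqA, ev_eqB, ev_ewl, pA]

theorem ev_negU (F : Ex) : (eU F (-Ex.z)).ev X Y Z =
    lU (F.ev X Y Z) X 7 Y (1 - 3 * Y) (-Z) := by
  simp only [eU, Ex.ev_add, Ex.ev_sub, Ex.ev_mul, Ex.ev_pow, Ex.ev_neg, Ex.ev_one, Ex.ev_z,
    ev_two, ev_eA, ev_eW, ev_eO, ev_epA, ev_emA]
  unfold lU
  ring

theorem ev_negL (F : Ex) : (eL F (-Ex.z)).ev X Y Z =
    lL (F.ev X Y Z) X 7 Y (1 - 3 * Y) (-Z) := by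
  simp only [eL, Ex.ev_add, Ex.ev_sub, Ex.ev_mul, Ex.ev_pow, Ex.ev_neg, Ex.ev_z,
    ev_two, ev_three, ev_four, ev_eA, ev_eW, ev_eO, ev_epA, ev_emA]
  unfold lL
  ring

theorem ev_enS (F : Ex) : (enS F).ev X Y Z = nS (F.ev X Y Z) X 7 Y (1 - 3 * Y) Z := by
  simp only [enS, Ex.ev_add, Ex.ev_sub, Ex.ev_mul, Ex.ev_x, Ex.ev_y, Ex.ev_z, ev_seven, ev_eA,
    ev_eO, ev_eW, nS]
theorem ev_eqS : (eqS).ev X Y Z = qS X 7 Y (1 - 3 * Y) Z := by
  simp only [eqS, Ex.ev_sub, Ex.ev_mul, Ex.ev_x, Ex.ev_y, Ex.ev_z, ev_seven, ev_eA,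
    ev_eO, ev_eW, qS]
theorem ev_erS : (erS).ev X Y Z = rS X 7 Y (1 - 3 * Y) Z := by
  simp only [erS, Ex.ev_add, Ex.ev_sub, Ex.ev_neg, Ex.ev_mul, Ex.ev_x, Ex.ev_y, Ex.ev_z, ev_two,
    ev_seven, ev_eA, ev_eO, ev_eW, rS]
theorem ev_emS (F : Ex) : (emS F).ev X Y Z = mS (F.ev X Y Z) X 7 Y (1 - 3 * Y) Z := by
  simp only [emS, Ex.ev_add, Ex.ev_sub, Ex.ev_mul, Ex.ev_one, Ex.ev_z, ev_two, ev_eA, ev_eW,
    ev_eO, ev_enS, ev_enB, ev_eqS, ev_erS, mS]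
theorem ev_epS (F : Ex) : (epS F).ev X Y Z = pS (F.ev X Y Z) X 7 Y (1 - 3 * Y) Z := by
  simp only [epS, Ex.ev_add, Ex.ev_sub, Ex.ev_mul, Ex.ev_neg, Ex.ev_one, Ex.ev_x, Ex.ev_y,
    Ex.ev_z, ev_two, ev_seven, ev_eA, ev_eW, ev_eO, ev_enS, ev_enB, ev_eqS, ev_erS, ev_ewl, pS]

theorem ev_posU (F : Ex) : (eSU F).ev X Y Z = sU (F.ev X Y Z) X 7 Y (1 - 3 * Y) Z := by
  simp only [eSU, Ex.ev_add, Ex.ev_sub, Ex.ev_mul, Ex.ev_neg, Ex.ev_one, Ex.ev_z,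
    ev_two, ev_eA, ev_eW, ev_epS, ev_emS]
  unfold sU
  ring

theorem ev_posL (F : Ex) : (eSL F).ev X Y Z = sL (F.ev X Y Z) X 7 Y (1 - 3 * Y) Z := by
  simp only [eSL, Ex.ev_add, Ex.ev_sub, Ex.ev_mul, Ex.ev_pow, Ex.ev_neg, Ex.ev_z,
    ev_two, ev_three, ev_four, ev_eA, ev_eW, ev_eO, ev_epS, ev_emS]
  unfold sL
  ring

theorem ev_one' : Ex.ev X Y Z (1 : Ex) = 1 := Ex.ev_one X Y Z

theorem ev_F : Ex.ev X Y Z eF = 1 - 39 / 5000 * Y := by
  simp only [eF, Ex.ev_sub, Ex.ev_one, Ex.ev_mul, Ex.ev_q, Ex.ev_y]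
  norm_num

theorem mem_bX {mu : ℝ} (h0 : 9 / 5 ≤ mu) (h1 : mu ≤ 9 / 4) : bX.mem mu := by
  simp only [bX, seg, Side.mem]
  constructor
  · push_cast; linarith
  · intro _; push_cast; linarith

theorem mem_bY {d : ℝ} (h0 : 1 / 100 ≤ d) (h1 : d ≤ 1 / 25) : bY.mem d := by
  simp only [bY, seg, Side.mem]
  constructor
  · push_cast; linarith
  · intro _; push_cast; linarith

theorem mem_bZ {z : ℝ} (h0 : 0 ≤ z) (h1 : z ≤ 1) : bZ.mem z := by
  simp only [bZ, seg, Side.mem]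
  constructor
  · push_cast; linarith
  · intro _; push_cast; linarith

section final

variable {d mu F : ℝ}

theorem l_neg (hd0 : 1 / 100 ≤ d) (hd1 : d ≤ 1 / 25) (hm0 : 9 / 5 ≤ mu) (hm1 : mu ≤ 9 / 4)
    (hF0 : 1 - 39 / 5000 * d ≤ F) (hF1 : F ≤ 1) {z : ℝ} (hz0 : 0 ≤ z) (hz1 : z ≤ 1) :
    0 ≤ lU F mu 7 d (1 - 3 * d) (-z) ∧ 0 ≤ lL F mu 7 d (1 - 3 * d) (-z) := by
  have hX := mem_bX hm0 hm1
  have hY := mem_bY hd0 hd1
  have hZ := mem_bZ hz0 hz1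
  have u1 := check_spec _ _ negU1 hX hY hZ
  have u2 := check_spec _ _ negU2 hX hY hZ
  have l1 := check_spec _ _ negL1 hX hY hZ
  have l2 := check_spec _ _ negL2 hX hY hZ
  rw [ev_negU, ev_one'] at u1
  rw [ev_negU, ev_F] at u2
  rw [ev_negL, ev_one'] at l1
  rw [ev_negL, ev_F] at l2
  constructor
  · refine affine (G := fun F => lU F mu 7 d (1 - 3 * d) (-z)) (fun x => ?_) u1 u2
      (by linarith) hF0 hF1
    have h1 := pA_aff (mu := mu) (be := 7) (d := d) (v := 1 - 3 * d) (η := -z)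
      (f := 1 - 39 / 5000 * d) (x := x)
    have h2 := mA_aff (mu := mu) (be := 7) (d := d) (v := 1 - 3 * d) (η := -z)
      (f := 1 - 39 / 5000 * d) (x := x)
    simp only [lU]
    linear_combination (d * (1 - 3 * d)) ^ 2 * h1 + (-2 * (1 - d) * (d * (1 - 3 * d)) +
      (2 * (1 - d) - 1 + d * (1 - 3 * d)) * (1 - d * (1 - 3 * d)) * (-z)) * h2
  · refine affine (G := fun F => lL F mu 7 d (1 - 3 * d) (-z)) (fun x => ?_) l1 l2
      (by linarith) hF0 hF1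
    have h1 := pA_aff (mu := mu) (be := 7) (d := d) (v := 1 - 3 * d) (η := -z)
      (f := 1 - 39 / 5000 * d) (x := x)
    have h2 := mA_aff (mu := mu) (be := 7) (d := d) (v := 1 - 3 * d) (η := -z)
      (f := 1 - 39 / 5000 * d) (x := x)
    simp only [lL]
    linear_combination (d * (1 - 3 * d)) ^ 3 * h1 + (-2 * (1 - d) * (d * (1 - 3 * d)) ^ 2 +
      (4 * (1 - d) - 3 * (1 - d * (1 - 3 * d))) * (1 - d * (1 - 3 * d)) * (d * (1 - 3 * d)) * (-z)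
      + 2 * ((1 - d * (1 - 3 * d)) - (1 - d)) * (1 - d * (1 - 3 * d)) ^ 2 * (-z) ^ 2) * h2

theorem l_pos (hd0 : 1 / 100 ≤ d) (hd1 : d ≤ 1 / 25) (hm0 : 9 / 5 ≤ mu) (hm1 : mu ≤ 9 / 4)
    (hF0 : 1 - 39 / 5000 * d ≤ F) (hF1 : F ≤ 1) {z : ℝ} (hz0 : 0 ≤ z) (hz1 : z ≤ 1) :
    0 ≤ sU F mu 7 d (1 - 3 * d) z ∧ 0 ≤ sL F mu 7 d (1 - 3 * d) z := by
  have hX := mem_bX hm0 hm1
  have hY := mem_bY hd0 hd1
  have hZ := mem_bZ hz0 hz1
  have u1 := check_spec _ _ posU1 hX hY hZ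
  have u2 := check_spec _ _ posU2 hX hY hZ
  have l1 := check_spec _ _ posL1 hX hY hZ
  have l2 := check_spec _ _ posL2 hX hY hZ
  rw [ev_posU, ev_one'] at u1
  rw [ev_posU, ev_F] at u2
  rw [ev_posL, ev_one'] at l1
  rw [ev_posL, ev_F] at l2
  constructor
  · refine affine (G := fun F => sU F mu 7 d (1 - 3 * d) z) (fun x => ?_) u1 u2
      (by linarith) hF0 hF1
    have h1 := pS_aff (mu := mu) (be := 7) (d := d) (v := 1 - 3 * d) (η := z)
      (f := 1 - 39 / 5000 * d) (x := x)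
    have h2 := mS_aff (mu := mu) (be := 7) (d := d) (v := 1 - 3 * d) (η := z)
      (f := 1 - 39 / 5000 * d) (x := x)
    simp only [sU]
    linear_combination (d * (1 - 3 * d)) * h1 + (-2 * (1 - d) +
      (2 * (1 - d) - 1 + d * (1 - 3 * d)) * z) * h2
  · refine affine (G := fun F => sL F mu 7 d (1 - 3 * d) z) (fun x => ?_) l1 l2
      (by linarith) hF0 hF1
    have h1 := pS_aff (mu := mu) (be := 7) (d := d) (v := 1 - 3 * d) (η := z)
      (f := 1 - 39 / 5000 * d) (x := x)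
    have h2 := mS_aff (mu := mu) (be := 7) (d := d) (v := 1 - 3 * d) (η := z)
      (f := 1 - 39 / 5000 * d) (x := x)
    simp only [sL]
    linear_combination (d * (1 - 3 * d)) * h1 + (-2 * (1 - d) +
      (4 * (1 - d) - 3 * (1 - d * (1 - 3 * d))) * z
      + 2 * ((1 - d * (1 - 3 * d)) - (1 - d)) * z ^ 2) * h2

/-- **the polynomial inequalities of window V** -/
theorem pp_nonneg (hd0 : 1 / 100 ≤ d) (hd1 : d ≤ 1 / 25) (hm0 : 9 / 5 ≤ mu) (hm1 : mu ≤ 9 / 4)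
    (hF0 : 1 - 39 / 5000 * d ≤ F) (hF1 : F ≤ 1) {η : ℝ} (h1 : -1 ≤ η)
    (h2 : η ≤ d * (1 - 3 * d) / (1 - d * (1 - 3 * d))) :
    0 ≤ PP (1 - d) (d * (1 - 3 * d)) 0 0 F mu 7 (q1U (1 - d) (d * (1 - 3 * d)) η) η ∧
    0 ≤ PP (1 - d) (d * (1 - 3 * d)) 0 0 F mu 7 (q1L (1 - d) (d * (1 - 3 * d)) η) η := by
  have hd : 0 < d := by linarith
  have hv : 0 < 1 - 3 * d := by linarith
  have ha : 0 < 1 - d := by linarith
  have hw0 : 0 < d * (1 - 3 * d) := mul_pos hd hv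
  have hw : 0 < 1 - d * (1 - 3 * d) := by nlinarith
  rcases le_total η 0 with hη | hη
  · obtain ⟨k1, k2⟩ := l_neg hd0 hd1 hm0 hm1 hF0 hF1 (z := -η) (by linarith) (by linarith)
    rw [neg_neg] at k1 k2
    constructor
    · have h := ppU (F := F) (mu := mu) (be := 7) (η := η) hd.ne' hv.ne' ha.ne' hw.ne'
      rw [lU, ← h] at k1
      exact nonneg_of_mul_nonneg_right k1 (by positivity)
    · have h := ppL (F := F) (mu := mu) (be := 7) (η := η) hd.ne' hv.ne' ha.ne' hw.ne'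
      rw [lL, ← h] at k2
      exact nonneg_of_mul_nonneg_right k2 (by positivity)
  · have hz1 : η * (1 - d * (1 - 3 * d)) / (d * (1 - 3 * d)) ≤ 1 := by
      rw [div_le_one hw0]
      rwa [le_div_iff₀ hw] at h2
    have hz0 : 0 ≤ η * (1 - d * (1 - 3 * d)) / (d * (1 - 3 * d)) := by positivity
    obtain ⟨k1, k2⟩ := l_pos hd0 hd1 hm0 hm1 hF0 hF1 hz0 hz1
    obtain ⟨z, hz⟩ : ∃ z, z = η * (1 - d * (1 - 3 * d)) / (d * (1 - 3 * d)) := ⟨_, rfl⟩
    have hηz : η = z * (d * (1 - 3 * d)) / (1 - d * (1 - 3 * d)) := by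
      rw [hz, div_mul_cancel₀ _ hw0.ne', mul_div_cancel_right₀ _ hw.ne']
    rw [← hz] at k1 k2
    rw [hηz]
    constructor
    · have h := ppU_pos (F := F) (mu := mu) (be := 7) (τ := z) hd.ne' hv.ne' ha.ne' hw.ne'
      rw [sU, ← h] at k1
      exact nonneg_of_mul_nonneg_right k1 (by positivity)
    · have h := ppL_pos (F := F) (mu := mu) (be := 7) (τ := z) hd.ne' hv.ne' ha.ne' hw.ne'
      rw [sL, ← h] at k2
      exact nonneg_of_mul_nonneg_right k2 (by positivity)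

/-- the denominator is positive on `[-1, Ym]`, `Ym = (1001/1000) w/(1-w)` -/
theorem QQ_pos (hd0 : 1 / 100 ≤ d) (hd1 : d ≤ 1 / 25) (hm0 : 9 / 5 ≤ mu) (hm1 : mu ≤ 9 / 4)
    {η : ℝ} (h1 : -1 ≤ η)
    (h2 : η ≤ 1001 / 1000 * (d * (1 - 3 * d) / (1 - d * (1 - 3 * d)))) :
    0 < QQ (1 - d) mu 7 η := by
  have hd : 0 < d := by linarith
  have hv : 0 < 1 - 3 * d := by linarith
  have ha : 0 < 1 - d := by linarith
  have hw0 : 0 < d * (1 - 3 * d) := mul_pos hd hv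
  have hw : 0 < 1 - d * (1 - 3 * d) := by nlinarith
  rw [QQ_eq]
  rcases le_total η 0 with hη | hη
  · unfold qA
    have e1 : 0 ≤ (1 - d) * (-η) := mul_nonneg ha.le (by linarith)
    have e2 : 0 ≤ mu * d * (-η) := mul_nonneg (mul_nonneg (by linarith) hd.le) (by linarith)
    have e3 : 0 < (d - (1 - d) * η) * (1 - 7 * η) := mul_pos (by linarith) (by linarith)
    linarith
  · have hz1 : η * (1 - d * (1 - 3 * d)) / (d * (1 - 3 * d)) ≤ 1001 / 1000 := by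
      rw [div_le_iff₀ hw0]
      rw [← mul_div_assoc, le_div_iff₀ hw] at h2
      exact h2
    have hz0 : 0 ≤ η * (1 - d * (1 - 3 * d)) / (d * (1 - 3 * d)) := by positivity
    obtain ⟨z, hz⟩ : ∃ z, z = η * (1 - d * (1 - 3 * d)) / (d * (1 - 3 * d)) := ⟨_, rfl⟩
    have hηz : η = z * (d * (1 - 3 * d)) / (1 - d * (1 - 3 * d)) := by
      rw [hz, div_mul_cancel₀ _ hw0.ne', mul_div_cancel_right₀ _ hw.ne']
    rw [← hz] at hz0 hz1
    have hZ : (seg 0 1001 1000).mem z := by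
      simp only [seg, Side.mem]
      constructor
      · push_cast; linarith
      · intro _; push_cast; linarith
    have k := check_spec _ _ posQ (mem_bX hm0 hm1) (mem_bY hd0 hd1) hZ
    have e : (eqS - Ex.y ^ 2 * Ex.q 1 10).ev mu d z = qS mu 7 d (1 - 3 * d) z - d ^ 2 * (1 / 10) := by
      simp only [Ex.ev_sub, Ex.ev_mul, Ex.ev_pow, Ex.ev_y, Ex.ev_q, ev_eqS]
      norm_num
    rw [e] at k
    rw [hηz, qS_eq hw.ne']
    have : 0 < d ^ 2 := by positivity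
    exact div_pos (by linarith) (by positivity)

end final

/-- **TOP in window V**, in the shape of the glue. -/
theorem top {a mu F : ℝ} (ha0 : 24 / 25 ≤ a) (ha1 : a ≤ 99 / 100) (hm0 : 9 / 5 ≤ mu)
    (hm1 : mu ≤ 9 / 4) (hF0 : 1 - 39 / 5000 * (1 - a) ≤ F) (hF1 : F ≤ 1) :
    ∀ x : ℝ, 0 ≤ x → ((1 - a) * (3 * a - 2)) * x ^ ((1 - (1 - a) * (3 * a - 2)) / a) ≤ 1 →
      ∀ v ≤ (2 * a - 1) * ((((1 - a) * (3 * a - 2) / (1 - (1 - a) * (3 * a - 2))) *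
          (1 - x ^ ((1 - (1 - a) * (3 * a - 2)) / a)))
          * nn a F mu 7 (((1 - a) * (3 * a - 2) / (1 - (1 - a) * (3 * a - 2))) *
            (1 - x ^ ((1 - (1 - a) * (3 * a - 2)) / a)))
          / QQ a mu 7 (((1 - a) * (3 * a - 2) / (1 - (1 - a) * (3 * a - 2))) *
            (1 - x ^ ((1 - (1 - a) * (3 * a - 2)) / a)))),
      TOP a ((1 - a) * (3 * a - 2)) 0 0 (la a F mu) v x ≤ 0 := by
  obtain ⟨d, rfl⟩ : ∃ d, a = 1 - d := ⟨1 - a, by ring⟩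
  have e1 : (1 - (1 - d)) * (3 * (1 - d) - 2) = d * (1 - 3 * d) := by ring
  have e2 : (1 : ℝ) - (1 - d) = d := by ring
  rw [e1]
  rw [e2] at hF0
  have hd0 : 1 / 100 ≤ d := by linarith
  have hd1 : d ≤ 1 / 25 := by linarith
  have hw0 : 0 < d * (1 - 3 * d) := mul_pos (by linarith) (by linarith)
  have hw : d * (1 - 3 * d) ≤ d := by nlinarith
  refine glue_pole (by linarith) (by linarith) hw0 (by linarith) (by linarith) ?_ ?_ ?_
  · intro η hη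
    refine QQ_pos hd0 hd1 hm0 hm1 hη.1 (hη.2.trans ?_)
    have : 0 < d * (1 - 3 * d) / (1 - d * (1 - 3 * d)) := div_pos hw0 (by linarith)
    linarith
  · intro η hη
    exact (pp_nonneg hd0 hd1 hm0 hm1 hF0 hF1 hη.1.le hη.2.le).1
  · intro η hη
    exact (pp_nonneg hd0 hd1 hm0 hm1 hF0 hF1 hη.1.le hη.2.le).2

end Pool.Agent.Lib.QNL.Poly8V
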