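import Pool.Agent.Lib.QNL.Reg95
import Pool.Agent.Lib.QNL.NumT93
import Pool.Agent.Lib.QNL.Box73
import Pool.Agent.Lib.QNL.Poly8V

/-!
Group N, window `24/25 ≤ a ≤ 99/100` (`c = 5`, `w = (1-a)(3a-2)`, no gain, pole `7`): the
certificate exists for every `n ≥ 3`.
-/

set_option autoImplicit false

namespace Pool.Agent.Lib.QNL.RegV8

open Set
open Pool.Agent.Lib.QNL
open Pool.Agent.Lib.QNL.Wts73
open Pool.Agent.Lib.QNL.CG
open Pool.Agent.Lib.QNL.Num93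
open Pool.Agent.Lib.QNL.Tail35

/-! ### the ratios of `ψ` at `5` -/

theorem u7 : psi 8 (5 : ℝ) ≤ 172 / 1000 * psi 7 5 :=
  psi_ub (l := 0) 6 (by norm_num) (by
    have := psi_pos 9 (show (0 : ℝ) < 5 by norm_num)
    simpa using this.le) (by norm_num) (by norm_num)

theorem l6 : 1942 / 10000 * psi 6 (5 : ℝ) ≤ psi 7 5 :=
  psi_lb 5 (by norm_num) u7 (by norm_num) (by norm_num)

theorem u5 : psi 6 (5 : ℝ) ≤ 2308 / 10000 * psi 5 5 :=
  psi_ub 4 (by norm_num) l6 (by norm_num) (by norm_num)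

theorem l4 : 2839 / 10000 * psi 4 (5 : ℝ) ≤ psi 5 5 :=
  psi_lb 3 (by norm_num) u5 (by norm_num) (by norm_num)

theorem u3 : psi 4 (5 : ℝ) ≤ 3702 / 10000 * psi 3 5 :=
  psi_ub 2 (by norm_num) l4 (by norm_num) (by norm_num)

theorem l2 : 5345 / 10000 * psi 2 (5 : ℝ) ≤ psi 3 5 :=
  psi_lb 1 (by norm_num) u3 (by norm_num) (by norm_num)

theorem u1 : psi 2 (5 : ℝ) ≤ 9849 / 10000 * psi 1 5 :=
  psi_ub 0 (by norm_num) l2 (by norm_num) (by norm_num)

theorem u8 : psi 9 (5 : ℝ) ≤ 151 / 1000 * psi 8 5 :=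
  psi_ub (l := 0) 7 (by norm_num) (by
    have := psi_pos 10 (show (0 : ℝ) < 5 by norm_num)
    simpa using this.le) (by norm_num) (by norm_num)

theorem l7 : 1678 / 10000 * psi 7 (5 : ℝ) ≤ psi 8 5 :=
  psi_lb 6 (by norm_num) u8 (by norm_num) (by norm_num)

theorem u6 : psi 7 (5 : ℝ) ≤ 1945 / 10000 * psi 6 5 :=
  psi_ub 5 (by norm_num) l7 (by norm_num) (by norm_num)

theorem l5 : 2306 / 10000 * psi 5 (5 : ℝ) ≤ psi 6 5 :=
  psi_lb 4 (by norm_num) u6 (by norm_num) (by norm_num)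

theorem u4 : psi 5 (5 : ℝ) ≤ 2840 / 10000 * psi 4 5 :=
  psi_ub 3 (by norm_num) l5 (by norm_num) (by norm_num)

theorem l3 : 3701 / 10000 * psi 3 (5 : ℝ) ≤ psi 4 5 :=
  psi_lb 2 (by norm_num) u4 (by norm_num) (by norm_num)

theorem u2 : psi 3 (5 : ℝ) ≤ 5346 / 10000 * psi 2 5 :=
  psi_ub 1 (by norm_num) l3 (by norm_num) (by norm_num)

/-! ### the tail -/

theorem tail {n : ℕ} {a : ℝ} (hn : 1 ≤ n) (ha0 : 24 / 25 ≤ a) (ha1 : a ≤ 99 / 100) :
    Tail1 n (1 / a) a (bs n a 5) (Ymx ((1 - a) * (3 * a - 2)))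
      (fun Y => Lam n (1 / a) a (bs n a 5) 1 / (1 - 7 * Y)) := by
  have h1 : 0 < 1 - a := by linarith
  have h2 : 0 < 3 * a - 2 := by linarith
  have hw0 : 0 < (1 - a) * (3 * a - 2) := mul_pos h1 h2
  obtain ⟨t, ht⟩ : ∃ t, t = a - 24 / 25 := ⟨_, rfl⟩
  have ea : a = 24 / 25 + t := by linarith
  have t0 : 0 ≤ t := by linarith
  have t1 : t ≤ 3 / 100 := by linarith
  have t2 : 0 ≤ t ^ 2 := by positivity
  have t3 : 0 ≤ t ^ 3 := by positivity
  have t4 : 0 ≤ t ^ 4 := by positivity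
  have s2 : t ^ 2 ≤ 3 / 100 * t := by nlinarith
  have s3 : t ^ 3 ≤ 3 / 100 * t ^ 2 := by nlinarith
  have s4 : t ^ 4 ≤ 3 / 100 * t ^ 3 := by nlinarith
  have hw1 : (1 - a) * (3 * a - 2) < 1 := by nlinarith
  have e : Ymx ((1 - a) * (3 * a - 2)) =
      (1001 * ((1 - a) * (3 * a - 2))) / (1000 * (1 - (1 - a) * (3 * a - 2))) := by
    unfold Ymx
    have : 1 - (1 - a) * (3 * a - 2) ≠ 0 := by linarith
    field_simp
  rw [e]
  refine tail1_six (P := 1001 * ((1 - a) * (3 * a - 2)))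
    (R := 1000 * (1 - (1 - a) * (3 * a - 2))) hn rfl (by linarith) (by linarith) (by norm_num)
    (by linarith) (by linarith) (g1 := 67 / 10) (g2 := 316 / 100) (g3 := 226 / 100)
    (g4 := 19 / 10) (g5 := 176 / 100) (g6 := 192 / 100) (q1 := 60 / 100) (q2 := 51 / 100)
    (q3 := 41 / 100) (q4 := 35 / 100) (q5 := 33 / 100) (q6 := 32 / 100) (h1' := 7)
    (h2 := 52 / 10) (h3 := 42 / 10) (h4 := 37 / 10) (h5 := 34 / 10) (h6 := 33 / 10)
    u1 u2 u3 u4 u5 ?_ ?_ ?_ ?_ ?_ ?_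
  all_goals subst ea
  · constructor <;> linarith
  · constructor <;> linarith
  · constructor <;> linarith
  · constructor <;> linarith
  · constructor <;> linarith
  · constructor <;> linarith

/-! ### the box of `F0` -/

theorem KS_five : 134 ≤ Enc.KS (24 / 25) 5 18 := by
  unfold Enc.KS
  norm_num [Finset.sum_range_succ, Enc.po]

theorem F0_five {a : ℝ} (h0 : 24 / 25 ≤ a) (h1 : a < 1) :
    1 - 39 / 5000 * (1 - a) ≤ CG.F0 a 5 := by
  have ha0 : 0 < a := by linarith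
  have hS : 134 ≤ Enc.Sa a 5 := KS_five.trans ((Enc.KS_mono h0 h1 (by norm_num) 18).trans
    (Enc.KS_le (by linarith) h1 (by norm_num) 18))
  have hD := Enc.DD_pos ha0 h1 (show (0 : ℝ) < 5 by norm_num)
  have h3 : CG.F0 a 5 = a * Enc.Sa a 5 / Enc.DD a 5 := Enc.FF_zero ha0 h1 (by norm_num)
  rw [h3, le_div_iff₀ hD]
  have h4 : 5000 / 39 ≤ Enc.DD a 5 := by
    unfold Enc.DD
    nlinarith
  have h5 : a * Enc.Sa a 5 = Enc.DD a 5 - (1 - a) := by
    unfold Enc.DD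
    ring
  rw [h5]
  have h6 : 0 ≤ (1 - a) * (Enc.DD a 5 - 5000 / 39) := mul_nonneg (by linarith) (by linarith)
  linarith

/-! ### the window -/

/-- **the window `24/25 ≤ a ≤ 99/100`, all `n ≥ 3`** -/
theorem regV : RegionOK 3 (24 / 25) (99 / 100) := by
  intro n hn a h0 h1 h2 h3
  have hd : 0 < 1 - a := by linarith
  have hw0 : 0 < (1 - a) * (3 * a - 2) := mul_pos hd (by linarith)
  have hr : a ≤ 1 - (1 - a) * (3 * a - 2) := by nlinarith
  have hw1 : (1 - a) * (3 * a - 2) < 1 := by linarith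
  have hm0 : 9 / 5 ≤ muN n a 5 := le_trans (by norm_num) (Enc.le_muN_five h2 h3 hn)
  have hm1 := Enc.muN_five_le h2 h3 n
  have hF1 : F0 a 5 ≤ 1 := (F0_lt_one (by linarith) h1 (by norm_num)).le
  have hYm := lt_Ymx hw0 hw1
  refine hasCert_end (c := 5) (w := (1 - a) * (3 * a - 2)) (be := 7)
    (Ym := Ymx ((1 - a) * (3 * a - 2))) (by omega) h0 h1 (by norm_num) hw0 hr hYm
    (tail (by omega) h2 h3) ?_ ?_ ?_
  · intro Y hY
    have h4 : 0 < 1 - (1 - a) * (3 * a - 2) := by linarith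
    have h5 : 7 * Ymx ((1 - a) * (3 * a - 2)) < 1 := by
      unfold Ymx
      rw [← mul_div_assoc, ← mul_div_assoc, div_lt_one h4]
      nlinarith
    linarith [hY.2]
  · intro Y hY
    have e1 : (1 - a) * (1 - 3 * (1 - a)) = (1 - a) * (3 * a - 2) := by ring
    have e2 : 1 - (1 - a) = a := by ring
    have h4 := Poly8V.QQ_pos (d := 1 - a) (mu := muN n a 5) (η := Y) (by linarith) (by linarith)
      hm0 hm1 hY.1 (by rw [e1]; exact hY.2)
    rw [e2] at h4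
    rw [← QQ_eq]
    exact h4
  · exact top_of_region (Poly8V.top h2 h3 hm0 hm1 (F0_five h2 h1) hF1)

end Pool.Agent.Lib.QNL.RegV8
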