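import Pool.Agent.Lib.QNL.RegC95
import Pool.Agent.Lib.QNL.RegV8

/-!
Group N: the union of the regions.
-/

set_option autoImplicit false

namespace Pool.Agent.Lib.QNL.CG

open Pool.Agent.Lib.QNL

/-- the certificates for all `n ≥ 3` and all `a` from the regions III, IV and VI -/
theorem certAll3_of (h3 : RegionOK 3 (43 / 50) (93 / 100)) (h4 : RegionOK 3 (93 / 100) (24 / 25))
    (h6 : RegionOK 3 (99 / 100) 1) : CertAll 3 := by
  rw [certAll_iff]
  exact ((((okI.mono (by norm_num) le_rfl le_rfl).union
    (okII.mono (by norm_num) le_rfl le_rfl)).union h3).union h4).union (RegV8.regV.union h6)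

end Pool.Agent.Lib.QNL.CG
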