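import Pool.Agent.Lib.QNL.STStmt

/-!
Group T: the torsion flow from the general obstacle family.

`Flow_.core` : for a source `μ` with `μ ≥ 1` on the open set `D0`, the domains
`G x = {ε < ψ_λ(x)}`, `λ(x) = exp (-(l₀ + (1 + η) x))`, satisfy the inequality which is
transported (`TL_.transport`).
-/

set_option autoImplicit false

namespace Pool.Agent.Lib.QNL
namespace Flow_

open MeasureTheory Filter Topology Set
open scoped ENNReal ContDiff Interval

theorem intSq (f : H) : Integrable (fun z => ‖(f : ℂ → ℂ) z‖ ^ 2) volume :=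
  (memLp_two_iff_integrable_sq_norm (Lp.aestronglyMeasurable f)).1 (Lp.memLp f)

/-- `T^0 = id` -/
theorem TT_zero (hs : StmtHsup) (f : H) : TT 0 f = f := by
  have h1 := hs.2.1 0 0 f
  have h2 := hs.2.2.1 0 (TT 0 f) f
  have h3 : TT 0 (TT 0 f - f) = 0 := by
    rw [h2, ← h1]; simp
  have h4 := hs.1 0 (TT 0 f - f)
  rw [h3, norm_zero] at h4
  exact sub_eq_zero.1 (norm_eq_zero.1 h4.symm)

/-- increments, `k = 0` -/
theorem inc0 (hs : StmtHsup) (hinc : StmtHinc) (j : ℕ) {D D' : Set ℂ} (X : H) (hD : IsOpen D)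
    (hD' : IsOpen D') (hDD : D ⊆ D') :
    ∫ z in D' \ D, ‖(P j D' X : ℂ → ℂ) z‖ ^ 2 ≤ E j D X - E j D' X := by
  have h := hinc j D D' 0 X hD hD' hDD (by simp)
  rwa [TT_zero hs] at h

theorem E_anti (hs : StmtHsup) (hinc : StmtHinc) (j : ℕ) {D D' : Set ℂ} (X : H) (hD : IsOpen D)
    (hD' : IsOpen D') (hDD : D ⊆ D') : E j D' X ≤ E j D X := by
  have h := inc0 hs hinc j X hD hD' hDD
  have h2 : 0 ≤ ∫ z in D' \ D, ‖(P j D' X : ℂ → ℂ) z‖ ^ 2 :=
    integral_nonneg fun z => by positivity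
  linarith

theorem E_nonneg (j : ℕ) (D : Set ℂ) (X : H) : 0 ≤ E j D X := by
  unfold E; positivity

/-- the triangle inequality with the sharp ratio -/
theorem bb_le (hs : StmtHsup) (hinc : StmtHinc) (j : ℕ) {D D' : Set ℂ} (X : H) (hD : IsOpen D)
    (hD' : IsOpen D') (hDD : D ⊆ D') {p r : ℝ} (hp : 0 < p) (hr : 0 < r) :
    ∫ z in D' \ D, ‖(bb j D' X : ℂ → ℂ) z‖ ^ 2 ≤
      (p + r) / p * (E j D X - E j D' X) + (p + r) / r * (E (j + 1) D X - E (j + 1) D' X) := by
  have h1 := inc0 hs hinc j X hD hD' hDD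
  have h2 := inc0 hs hinc (j + 1) X hD hD' hDD
  have hae : ∀ᵐ z, (bb j D' X : ℂ → ℂ) z =
      (P j D' X : ℂ → ℂ) z - (P (j + 1) D' X : ℂ → ℂ) z := by
    have := Lp.coeFn_sub (P j D' X) (P (j + 1) D' X)
    filter_upwards [this] with z hz
    simpa [bb] using hz
  have h3 : ∫ z in D' \ D, ‖(bb j D' X : ℂ → ℂ) z‖ ^ 2 ≤
      ∫ z in D' \ D, ((p + r) / p * ‖(P j D' X : ℂ → ℂ) z‖ ^ 2 +
        (p + r) / r * ‖(P (j + 1) D' X : ℂ → ℂ) z‖ ^ 2) := by
    refine integral_mono_ae ((intSq _).integrableOn)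
      ((((intSq _).const_mul _).add ((intSq _).const_mul _)).integrableOn) ?_
    refine ae_restrict_of_ae ?_
    filter_upwards [hae] with z hz
    show ‖(bb j D' X : ℂ → ℂ) z‖ ^ 2 ≤ _
    rw [hz]
    set x := (P j D' X : ℂ → ℂ) z
    set y := (P (j + 1) D' X : ℂ → ℂ) z
    have hn : ‖x - y‖ ≤ ‖x‖ + ‖y‖ := norm_sub_le x y
    have hx := norm_nonneg x
    have hy := norm_nonneg y
    have h4 : ‖x - y‖ ^ 2 ≤ (‖x‖ + ‖y‖) ^ 2 := pow_le_pow_left₀ (norm_nonneg _) hn 2
    have h5 : (p + r) / p * ‖x‖ ^ 2 + (p + r) / r * ‖y‖ ^ 2 - (‖x‖ + ‖y‖) ^ 2 =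
        (r * ‖x‖ - p * ‖y‖) ^ 2 / (p * r) := by
      field_simp; ring
    have h6 : 0 ≤ (r * ‖x‖ - p * ‖y‖) ^ 2 / (p * r) := by positivity
    linarith
  rw [integral_add ((intSq _).const_mul _).integrableOn ((intSq _).const_mul _).integrableOn,
    integral_const_mul, integral_const_mul] at h3
  have h4 := mul_le_mul_of_nonneg_left h1 (by positivity : 0 ≤ (p + r) / p)
  have h5 := mul_le_mul_of_nonneg_left h2 (by positivity : 0 ≤ (p + r) / r)
  linarith

/-- the level at time `x` -/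
noncomputable def lam (l₀ η x : ℝ) : ℝ := Real.exp (-(l₀ + (1 + η) * x))

theorem lam_pos (l₀ η x : ℝ) : 0 < lam l₀ η x := Real.exp_pos _

/-- the inverse of `lam` -/
noncomputable def ti (l₀ η L : ℝ) : ℝ := -(Real.log L + l₀) / (1 + η)

theorem ti_lam {l₀ η : ℝ} (hη : 0 < η) (x : ℝ) : ti l₀ η (lam l₀ η x) = x := by
  unfold ti lam
  rw [Real.log_exp]
  have : (1 + η) ≠ 0 := by positivity
  field_simp
  ring

theorem lam_ti {l₀ η L : ℝ} (hη : 0 < η) (hL : 0 < L) : lam l₀ η (ti l₀ η L) = L := by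
  unfold ti lam
  have : (1 + η) ≠ 0 := by positivity
  rw [show -(l₀ + (1 + η) * (-(Real.log L + l₀) / (1 + η))) = Real.log L by field_simp; ring,
    Real.exp_log hL]

theorem lam_anti {l₀ η : ℝ} (hη : 0 < η) {x y : ℝ} (h : x ≤ y) : lam l₀ η y ≤ lam l₀ η x := by
  unfold lam
  apply Real.exp_le_exp.2
  nlinarith

theorem ti_hasDerivAt {l₀ η L : ℝ} (hL : 0 < L) :
    HasDerivAt (ti l₀ η) (-(L⁻¹) / (1 + η)) L := by
  unfold ti
  exact (((Real.hasDerivAt_log hL.ne').add_const l₀).neg).div_const _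

/-- a.e. statements transported through `lam` -/
theorem ae_lam {l₀ η : ℝ} (hη : 0 < η) {Q : ℝ → Prop} (h : ∀ᵐ L : ℝ, 0 < L → Q L) :
    ∀ᵐ x : ℝ, Q (lam l₀ η x) := by
  set N : Set ℝ := {L | 0 < L ∧ ¬ Q L} with hN
  have hN0 : volume N = 0 := by
    have := (ae_iff.1 h)
    have he : {a : ℝ | ¬ (0 < a → Q a)} = N := by
      ext a; simp [hN]
    rwa [he] at this
  have himg : volume (ti l₀ η '' N) = 0 := by
    refine addHaar_image_eq_zero_of_differentiableOn_of_addHaar_eq_zero volume ?_ hN0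
    intro L hL
    exact (ti_hasDerivAt hL.1).differentiableAt.differentiableWithinAt
  rw [ae_iff]
  refine measure_mono_null ?_ himg
  intro x hx
  exact ⟨lam l₀ η x, ⟨lam_pos _ _ _, hx⟩, ti_lam hη x⟩

/-- the domains -/
def Dom (ψ : ℝ → ℂ → ℝ) (ε : ℝ) (L : ℝ) : Set ℂ := {z | ε < ψ L z}

theorem dom_open {μ : ℂ → ℝ} {ψ : ℝ → ℂ → ℝ} (fam : Fam μ ψ) {ε L : ℝ} (hL : 0 < L) :
    IsOpen (Dom ψ ε L) := (fam.lsc L hL).isOpen_preimage ε

theorem dom_anti {μ : ℂ → ℝ} {ψ : ℝ → ℂ → ℝ} (fam : Fam μ ψ) {ε L L' : ℝ} (hL : 0 < L)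
    (h : L ≤ L') : Dom ψ ε L' ⊆ Dom ψ ε L := fun z hz =>
  lt_of_lt_of_le (show ε < ψ L' z from hz) (fam.anti z L L' hL h)

/-- **the differential inequality** at a good time -/
theorem step {μ : ℂ → ℝ} {ψ : ℝ → ℂ → ℝ} {C' ε l₀ η x p r : ℝ} {j : ℕ} (X : H)
    (hμc : Continuous μ) (hμs : HasCompactSupport μ) (hμ0 : ∀ z, 0 ≤ μ z) (fam : Fam μ ψ)
    (hs : StmtHsup) (hinc : StmtHinc) (hq : StmtHq) (hη : 0 < η)
    (hε : 0 < ε) (hC' : 0 ≤ C') (hCε : C' * ε ≤ η * lam l₀ η x)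
    (hp : 0 < p) (hr : 0 < r) (hpr : p + r = 2 * j + 1)
    (hlay : ∀ δ : ℝ, 0 < δ → ∃ h₀ : ℝ, 0 < h₀ ∧ ∀ h, 0 < h → h < h₀ →
      (2 * j + 1) * ‖bb j {z | ε < ψ (lam l₀ η x) z} X‖ ^ 2 ≤
        (1 / h) * (∫ z in {z | ε < ψ (lam l₀ η x) z} \ {z | ε < ψ (lam l₀ η x + h) z},
          (lam l₀ η x - μ z + C' * ε) *
            ‖(bb j {z | ε < ψ (lam l₀ η x) z} X : ℂ → ℂ) z‖ ^ 2) + δ)
    (hd1 : DifferentiableAt ℝ (fun x => E j (Dom ψ ε (lam l₀ η x)) X) x)
    (hd2 : DifferentiableAt ℝ (fun x => E (j + 1) (Dom ψ ε (lam l₀ η x)) X) x) :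
    E (j + 1) (Dom ψ ε (lam l₀ η x)) X - E j (Dom ψ ε (lam l₀ η x)) X ≤
      -deriv (fun x => E j (Dom ψ ε (lam l₀ η x)) X) x / p -
        deriv (fun x => E (j + 1) (Dom ψ ε (lam l₀ η x)) X) x / r := by
  set L : ℝ := lam l₀ η x with hL
  have hL0 : 0 < L := lam_pos _ _ _
  set e : ℕ → ℝ → ℝ := fun i x => E i (Dom ψ ε (lam l₀ η x)) X with he
  set D' : Set ℂ := Dom ψ ε L with hD'
  have hJ : (0 : ℝ) < 2 * j + 1 := by positivity
  obtain ⟨B, hB⟩ : ∃ B : ℝ, ∀ z, ‖μ z‖ ≤ B := hμs.exists_bound_of_continuous hμc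
  -- the quotient
  set q : ℕ → ℝ → ℝ := fun i h => -slope (e i) x (ti l₀ η (L + h)) with hq'
  -- bound for one h
  have hone : ∀ h, 0 < h → (1 / h) * (∫ z in D' \ Dom ψ ε (L + h),
      (L - μ z + C' * ε) * ‖(bb j D' X : ℂ → ℂ) z‖ ^ 2) ≤
      (2 * j + 1) / p * q j h + (2 * j + 1) / r * q (j + 1) h := by
    intro h hh
    have hLh : 0 < L + h := by linarith
    have hsub : Dom ψ ε (L + h) ⊆ D' := dom_anti fam hL0 (by linarith)
    have h1 : ∫ z in D' \ Dom ψ ε (L + h), (L - μ z + C' * ε) * ‖(bb j D' X : ℂ → ℂ) z‖ ^ 2 ≤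
        ∫ z in D' \ Dom ψ ε (L + h), (L + C' * ε) * ‖(bb j D' X : ℂ → ℂ) z‖ ^ 2 := by
      refine integral_mono ?_ ((intSq _).const_mul _).integrableOn ?_
      · have : Integrable (fun z => (L - μ z + C' * ε) * ‖(bb j D' X : ℂ → ℂ) z‖ ^ 2) := by
          refine (intSq _).bdd_mul (c := |L| + B + |C' * ε|) ?_ ?_
          · exact ((continuous_const.sub hμc).add continuous_const).aestronglyMeasurable
          · refine Eventually.of_forall fun z => ?_
            have := hB z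
            rw [Real.norm_eq_abs] at this ⊢
            calc |L - μ z + C' * ε| ≤ |L - μ z| + |C' * ε| := abs_add_le _ _
              _ ≤ |L| + |μ z| + |C' * ε| := by gcongr; exact abs_sub _ _
              _ ≤ _ := by gcongr
        exact this.integrableOn
      · intro z
        have := hμ0 z
        have h2 : 0 ≤ ‖(bb j D' X : ℂ → ℂ) z‖ ^ 2 := by positivity
        show (L - μ z + C' * ε) * ‖(bb j D' X : ℂ → ℂ) z‖ ^ 2 ≤
          (L + C' * ε) * ‖(bb j D' X : ℂ → ℂ) z‖ ^ 2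
        nlinarith
    rw [integral_const_mul] at h1
    have h2 := bb_le hs hinc j X (dom_open fam hLh) (dom_open fam hL0) hsub hp hr
    rw [hpr] at h2
    -- increments in terms of the time
    set y : ℝ := ti l₀ η (L + h) with hy
    have hlamy : lam l₀ η y = L + h := lam_ti hη hLh
    have hlt : y < x := by
      by_contra hcon
      have := lam_anti (l₀ := l₀) hη (not_lt.1 hcon)
      rw [hlamy] at this
      linarith
    have hxy : x - y ≤ h / (L * (1 + η)) := by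
      have e1 : x = ti l₀ η L := by rw [hL, ti_lam hη]
      rw [hy, e1]
      unfold ti
      have h3 : Real.log (L + h) - Real.log L ≤ h / L := by
        rw [← Real.log_div hLh.ne' hL0.ne']
        have := Real.log_le_sub_one_of_pos (div_pos hLh hL0)
        have e2 : (L + h) / L - 1 = h / L := by field_simp; ring
        linarith
      have e3 : -(Real.log L + l₀) / (1 + η) - -(Real.log (L + h) + l₀) / (1 + η) =
          (Real.log (L + h) - Real.log L) / (1 + η) := by ring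
      rw [e3]
      have e4 : h / (L * (1 + η)) = h / L / (1 + η) := by field_simp
      rw [e4]
      exact div_le_div_of_nonneg_right h3 (by positivity)
    have hqi : ∀ i, e i y - e i x = q i h * (x - y) := by
      intro i
      simp only [hq', slope_def_field]
      rw [← hy]
      have : y - x ≠ 0 := by intro hc; linarith
      field_simp
      ring
    have hq0 : ∀ i, 0 ≤ q i h := by
      intro i
      have h5 : 0 ≤ e i y - e i x := by
        simp only [he]
        rw [hlamy]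
        have := E_anti hs hinc i X (dom_open fam hLh) (dom_open fam hL0) hsub
        simpa [hL] using sub_nonneg.2 this
      rw [hqi i] at h5
      have h6 : 0 < x - y := by linarith
      exact nonneg_of_mul_nonneg_left h5 h6
    have hei : ∀ i, E i (Dom ψ ε (L + h)) X - E i D' X ≤ q i h * (h / (L * (1 + η))) := by
      intro i
      have h5 : E i (Dom ψ ε (L + h)) X - E i D' X = e i y - e i x := by
        simp only [he]; rw [hlamy]
      rw [h5, hqi i]
      exact mul_le_mul_of_nonneg_left hxy (hq0 i)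
    have h7 : ∫ z in D' \ Dom ψ ε (L + h), ‖(bb j D' X : ℂ → ℂ) z‖ ^ 2 ≤
        ((2 * j + 1) / p * q j h + (2 * j + 1) / r * q (j + 1) h) * (h / (L * (1 + η))) := by
      have h8 := mul_le_mul_of_nonneg_left (hei j) (by positivity : (0 : ℝ) ≤ (2 * j + 1) / p)
      have h9 := mul_le_mul_of_nonneg_left (hei (j + 1))
        (by positivity : (0 : ℝ) ≤ (2 * j + 1) / r)
      nlinarith
    set Q : ℝ := (2 * j + 1) / p * q j h + (2 * j + 1) / r * q (j + 1) h with hQ
    have hQ0 : 0 ≤ Q := by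
      have := hq0 j; have := hq0 (j + 1); positivity
    have h10 : (L + C' * ε) * ∫ z in D' \ Dom ψ ε (L + h), ‖(bb j D' X : ℂ → ℂ) z‖ ^ 2 ≤
        (L * (1 + η)) * (Q * (h / (L * (1 + η)))) := by
      refine mul_le_mul ?_ h7 (integral_nonneg fun z => by positivity) (by positivity)
      nlinarith
    have h11 : (L * (1 + η)) * (Q * (h / (L * (1 + η)))) = Q * h := by field_simp
    calc (1 / h) * _ ≤ (1 / h) * (Q * h) :=
          mul_le_mul_of_nonneg_left (by linarith) (by positivity)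
      _ = Q := by field_simp
  -- limits
  have hti : Tendsto (fun h : ℝ => ti l₀ η (L + h)) (𝓝[>] 0) (𝓝[≠] x) := by
    refine tendsto_nhdsWithin_iff.2 ⟨?_, ?_⟩
    · have hc : ContinuousAt (ti l₀ η) L := (ti_hasDerivAt hL0).continuousAt
      have h1 : Tendsto (fun h : ℝ => L + h) (𝓝[>] 0) (𝓝 L) := by
        have : Tendsto (fun h : ℝ => L + h) (𝓝 0) (𝓝 (L + 0)) :=
          (continuous_const.add continuous_id).tendsto 0
        rw [add_zero] at this
        exact this.mono_left nhdsWithin_le_nhds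
      have h2 := hc.tendsto.comp h1
      have h3 : ti l₀ η L = x := by rw [hL, ti_lam hη]
      rw [h3] at h2
      exact h2
    · filter_upwards [self_mem_nhdsWithin] with h hh
      have hh' : (0 : ℝ) < h := hh
      intro hc
      have h1 : lam l₀ η (ti l₀ η (L + h)) = lam l₀ η x := by rw [hc]
      rw [lam_ti hη (by linarith), ← hL] at h1
      linarith
  have hlim : ∀ i, DifferentiableAt ℝ (e i) x → Tendsto (q i) (𝓝[>] 0) (𝓝 (-deriv (e i) x)) := by
    intro i hi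
    exact ((hi.hasDerivAt.tendsto_slope).comp hti).neg
  have hlim2 : Tendsto (fun h => (2 * j + 1) / p * q j h + (2 * j + 1) / r * q (j + 1) h)
      (𝓝[>] 0) (𝓝 ((2 * j + 1) / p * (-deriv (e j) x) + (2 * j + 1) / r *
        (-deriv (e (j + 1)) x))) :=
    ((hlim j hd1).const_mul _).add ((hlim (j + 1) hd2).const_mul _)
  have hmain : (2 * j + 1) * ‖bb j D' X‖ ^ 2 ≤ (2 * j + 1) / p * (-deriv (e j) x) +
      (2 * j + 1) / r * (-deriv (e (j + 1)) x) := by
    refine le_of_forall_pos_le_add fun δ hδ => ?_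
    obtain ⟨h₀, hh₀, hb⟩ := hlay δ hδ
    have hev : ∀ᶠ h in 𝓝[>] (0 : ℝ), (2 * j + 1) * ‖bb j D' X‖ ^ 2 ≤
        ((2 * j + 1) / p * q j h + (2 * j + 1) / r * q (j + 1) h) + δ := by
      filter_upwards [Ioo_mem_nhdsGT hh₀] with h hh
      have h1 := hb h hh.1 hh.2
      have h2 := hone h hh.1
      have h3 : (1 / h) * (∫ z in {z | ε < ψ L z} \ {z | ε < ψ (L + h) z},
          (L - μ z + C' * ε) * ‖(bb j {z | ε < ψ L z} X : ℂ → ℂ) z‖ ^ 2) ≤
          (2 * j + 1) / p * q j h + (2 * j + 1) / r * q (j + 1) h := h2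
      exact le_trans h1 (by linarith)
    exact ge_of_tendsto (hlim2.add_const δ) hev
  have hqq := hq j D' X
  have h1 : ‖bb j D' X‖ ^ 2 ≤ -deriv (e j) x / p - deriv (e (j + 1)) x / r := by
    have h2 : (2 * (j : ℝ) + 1) / p * (-deriv (e j) x) + (2 * j + 1) / r *
        (-deriv (e (j + 1)) x) =
        (2 * j + 1) * (-deriv (e j) x / p - deriv (e (j + 1)) x / r) := by
      field_simp
      ring
    rw [h2] at hmain
    exact le_of_mul_le_mul_left hmain hJ
  rw [← hqq]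
  exact h1

end Flow_
end Pool.Agent.Lib.QNL
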