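import Pool.Agent.Lib.QNL.C2_36

/-!
QNL, group C: the level functions `lam u l` of the expanded obstacle family
`L ↦ U l {0 < u L}`: joint openness, joint measurability in `(l, z)`, monotonicity, clamps.
-/

set_option autoImplicit false

namespace Pool.Agent.Lib.QNL.Joint

open MeasureTheory Filter Topology Set Metric
open scoped ENNReal

/-- the expanded family -/
def AA (u : ℝ → ℂ → ℝ) (l L : ℝ) : Set ℂ := Ctr.U l {x | 0 < u L x}

/-- the level functions (in the variable `L`) -/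
noncomputable def lam (u : ℝ → ℂ → ℝ) (l : ℝ) (z : ℂ) : ℝ := Lev32.lv (AA u l) z

theorem U_nonpos {l : ℝ} (hl : l ≤ 0) (D : Set ℂ) : Ctr.U l D = D := by
  refine Subset.antisymm ?_ (Ctr.subset_U l D)
  have := Ctr.U_mono_left hl D
  rwa [Ctr.U_zero] at this

variable {μ : ℂ → ℝ} {C : ℝ} {u : ℝ → ℂ → ℝ}

theorem exists_gt (hu : O.Fam μ C u) {L : ℝ} (hL : 0 < L) {z : ℂ} (hz : 0 < u L z) :
    ∃ L', L < L' ∧ 0 < u L' z := by
  have h1 : ContinuousAt (fun l => u l z) L :=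
    (O.Conv91_.contOn hu z).continuousAt (Ioi_mem_nhds hL)
  have h2 : ∀ᶠ l in 𝓝 L, 0 < u l z := h1.eventually (lt_mem_nhds hz)
  obtain ⟨l, hl, hl2⟩ := ((h2.filter_mono nhdsWithin_le_nhds).and
    (self_mem_nhdsWithin : Ioi L ∈ 𝓝[>] L)).exists
  exact ⟨l, hl2, hl⟩

/-- continuity from below of the expansion -/
theorem U_left {l : ℝ} (hl : 0 < l) {D : Set ℂ} (hD : IsOpen D) {z : ℂ} (hz : z ∈ Ctr.U l D) :
    ∃ l', 0 < l' ∧ l' < l ∧ z ∈ Ctr.U l' D := by
  obtain ⟨ν, hν, hz⟩ := (Ctr.mem_U_iff hl hD).1 hz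
  obtain ⟨C', hC'⟩ := hν.src
  obtain ⟨v, hv⟩ := Ctr.exist ν C' hC'
  rw [Ctr.Vs_eq hv] at hz
  have h1 : ContinuousAt (fun l : ℝ => v (Real.exp (-l)) z) l := by
    have h2 : ContinuousAt (fun L => v L z) (Real.exp (-l)) :=
      (O.Conv91_.contOn hv z).continuousAt (Ioi_mem_nhds (Real.exp_pos _))
    exact ContinuousAt.comp (f := fun l : ℝ => Real.exp (-l)) h2 (by fun_prop)
  have h2 : ∀ᶠ l' in 𝓝 l, 0 < v (Real.exp (-l')) z := h1.eventually (lt_mem_nhds hz)
  obtain ⟨l', ⟨h3, h4⟩, h5⟩ := (((h2.and (lt_mem_nhds hl)).filter_mono nhdsWithin_le_nhds).and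
    (self_mem_nhdsWithin : Iio l ∈ 𝓝[<] l)).exists
  refine ⟨l', h4, h5, (Ctr.mem_U_iff h4 hD).2 ⟨ν, hν, ?_⟩⟩
  rw [Ctr.Vs_eq hv]
  exact h3

theorem isOpen_AA (hu : O.Fam μ C u) (l : ℝ) {L : ℝ} (hL : 0 < L) : IsOpen (AA u l L) :=
  Ctr.isOpen_U Ctr.exist l (Ctr.isOpen_pos hu hL)

theorem AA_zero (u : ℝ → ℂ → ℝ) {l : ℝ} (hl : l ≤ 0) (L : ℝ) : AA u l L = {x | 0 < u L x} :=
  U_nonpos hl _

theorem AA_mono (u : ℝ → ℂ → ℝ) {l l' : ℝ} (h : l ≤ l') (L : ℝ) : AA u l L ⊆ AA u l' L :=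
  Ctr.U_mono_left h _

theorem AA_anti (hu : O.Fam μ C u) (l : ℝ) {L L' : ℝ} (hL : 0 < L) (h : L ≤ L') :
    AA u l L' ⊆ AA u l L :=
  Ctr.U_mono fun z hz => lt_of_lt_of_le hz (hu.anti L L' hL h z)

/-- `{0 < u L}` and its expansions are unions over the larger levels -/
theorem AA_gt (hu : O.Fam μ C u) {l L : ℝ} (hL : 0 < L) {z : ℂ} (hz : z ∈ AA u l L) :
    ∃ L', L < L' ∧ z ∈ AA u l L' := by
  rcases le_or_gt l 0 with hl | hl
  · rw [AA_zero u hl] at hz
    obtain ⟨L', h1, h2⟩ := exists_gt hu hL hz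
    refine ⟨L', h1, ?_⟩
    rw [AA_zero u hl]
    exact h2
  · have e : {x | 0 < u L x} = ⋃ i : {L' : ℝ // L < L'}, {x | 0 < u i.1 x} := by
      ext x
      simp only [mem_ofPred_eq, mem_iUnion, Subtype.exists, exists_prop]
      constructor
      · intro hx
        exact exists_gt hu hL hx
      · rintro ⟨L', h1, h2⟩
        exact lt_of_lt_of_le h2 (hu.anti L L' hL h1.le x)
    have hne : Nonempty {L' : ℝ // L < L'} := ⟨⟨L + 1, by linarith⟩⟩
    have h1 := Ctr.U_iUnion hl (D := fun i : {L' : ℝ // L < L'} => {x | 0 < u i.1 x})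
      (fun i => Ctr.isOpen_pos hu (hL.trans i.2)) (fun i j => by
        refine ⟨⟨min i.1 j.1, lt_min i.2 j.2⟩, fun x hx => ?_, fun x hx => ?_⟩
        · exact lt_of_lt_of_le hx (hu.anti _ _ (hL.trans (lt_min i.2 j.2)) (min_le_left _ _) x)
        · exact lt_of_lt_of_le hx (hu.anti _ _ (hL.trans (lt_min i.2 j.2)) (min_le_right _ _) x))
    rw [AA, e, h1, mem_iUnion] at hz
    obtain ⟨i, hi⟩ := hz
    exact ⟨i.1, i.2, hi⟩

/-- **joint openness** -/
theorem isOpen_joint (hu : O.Fam μ C u) :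
    IsOpen {q : ℝ × ℝ × ℂ | 0 < q.1 ∧ 0 < q.2.1 ∧ q.2.2 ∈ AA u q.1 q.2.1} := by
  rw [isOpen_iff_mem_nhds]
  rintro ⟨l, L, z⟩ ⟨hl, hL, hz⟩
  obtain ⟨L', h1, h2⟩ := AA_gt hu hL hz
  have hL' : 0 < L' := hL.trans h1
  obtain ⟨l', h3, h4, h5⟩ := U_left hl (Ctr.isOpen_pos hu hL') h2
  have hO : (Ioi l' ×ˢ (Ioo 0 L' ×ˢ AA u l' L')) ∈ 𝓝 (l, L, z) :=
    prod_mem_nhds (Ioi_mem_nhds h4) (prod_mem_nhds (Ioo_mem_nhds hL h1)
      ((isOpen_AA hu l' hL').mem_nhds h5))
  filter_upwards [hO]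
  rintro ⟨k, K, w⟩ ⟨hk, hK, hw⟩
  have hk' : l' < k := hk
  exact ⟨h3.trans hk', hK.1, AA_mono u hk'.le K (AA_anti hu l' hK.1 hK.2.le hw)⟩

/-- the nest at a fixed `l` -/
theorem nest (hu : O.Fam μ C u) (l : ℝ) : Lev32.Nest (AA u l) := by
  refine ⟨fun s hs => (isOpen_AA hu l hs).measurableSet, fun s s' hs h => AA_anti hu l hs h, ?_⟩
  obtain ⟨M, hM⟩ := hu.src.cont.bounded_above_of_compact_support hu.src.cpt
  refine ⟨|M|, abs_nonneg M, fun s hs => ?_⟩
  have hs0 : 0 < s := (abs_nonneg M).trans_lt hs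
  have e : {x | 0 < u s x} = ∅ := by
    ext x
    simp only [mem_ofPred_eq, mem_empty_iff_false, iff_false, not_lt]
    exact (hu.top s hs0 (fun y => (le_abs_self _).trans ((hM y).trans
      ((le_abs_self M).trans hs.le))) x).le
  rw [AA, e]
  rcases le_or_gt 0 l with hl | hl
  · exact Ctr.U_empty l hl
  · exact U_nonpos hl.le ∅

theorem lam_nonneg (u : ℝ → ℂ → ℝ) (l : ℝ) (z : ℂ) : 0 ≤ lam u l z := Lev32.lv_nonneg _ _

/-- membership in terms of the level function -/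
theorem mem_iff (hu : O.Fam μ C u) (l : ℝ) {L : ℝ} (hL : 0 < L) (z : ℂ) :
    z ∈ Ctr.U l {x | 0 < u L x} ↔ L < lam u l z := by
  constructor
  · intro hz
    obtain ⟨L', h1, h2⟩ := AA_gt hu hL hz
    exact h1.trans_le ((nest hu l).le_lv (hL.trans h1) h2)
  · intro h
    exact (nest hu l).mem_of_lt_lv hL h

theorem mem_iff_zero (hu : O.Fam μ C u) {L : ℝ} (hL : 0 < L) (z : ℂ) :
    0 < u L z ↔ L < lam u 0 z := by
  rw [← mem_iff hu 0 hL, Ctr.U_zero]
  rfl

theorem lam_mono (hu : O.Fam μ C u) {l l' : ℝ} (h : l ≤ l') (z : ℂ) : lam u l z ≤ lam u l' z :=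
  Lev32.lv_mono (nest hu l') (fun s _ => AA_mono u h s) z

theorem lam_nonpos (u : ℝ → ℂ → ℝ) {l : ℝ} (hl : l ≤ 0) (z : ℂ) : lam u l z = lam u 0 z := by
  have : AA u l = AA u 0 := by
    funext L
    rw [AA_zero u hl, AA_zero u le_rfl]
  rw [lam, this, lam]

/-- **joint measurability** -/
theorem measurable_lam (hu : O.Fam μ C u) : Measurable fun q : ℝ × ℂ => lam u q.1 q.2 := by
  have h0 : Measurable (lam u 0) := (nest hu 0).measurable
  have e : (fun q : ℝ × ℂ => lam u q.1 q.2) = fun q : ℝ × ℂ =>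
      if 0 < q.1 then (if 0 < q.1 then lam u q.1 q.2 else 0) else lam u 0 q.2 := by
    funext q
    by_cases hq : 0 < q.1
    · simp [hq]
    · simp only [hq, if_false]
      exact lam_nonpos u (not_lt.1 hq) q.2
  rw [e]
  refine Measurable.ite (measurableSet_lt measurable_const measurable_fst) ?_
    (h0.comp measurable_snd)
  refine measurable_of_Ioi fun a => ?_
  rcases lt_or_ge a 0 with ha | ha
  · have : (fun q : ℝ × ℂ => if 0 < q.1 then lam u q.1 q.2 else 0) ⁻¹' Ioi a = univ := by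
      ext q
      simp only [mem_preimage, mem_Ioi, mem_univ, iff_true]
      split_ifs
      · exact ha.trans_le (lam_nonneg u _ _)
      · exact ha
    rw [this]
    exact MeasurableSet.univ
  · have : (fun q : ℝ × ℂ => if 0 < q.1 then lam u q.1 q.2 else 0) ⁻¹' Ioi a =
        ⋃ c : {c : ℚ // a < c}, {q : ℝ × ℂ | 0 < q.1 ∧ q.2 ∈ AA u q.1 (c.1 : ℝ)} := by
      ext q
      simp only [mem_preimage, mem_Ioi, mem_iUnion, mem_ofPred_eq, Subtype.exists, exists_prop]
      by_cases hq : 0 < q.1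
      · simp only [hq, if_true, true_and]
        constructor
        · intro h
          obtain ⟨c, hc1, hc2⟩ := exists_rat_btwn h
          exact ⟨c, hc1, (mem_iff hu q.1 (ha.trans_lt hc1) q.2).2 hc2⟩
        · rintro ⟨c, hc1, hc2⟩
          exact hc1.trans ((mem_iff hu q.1 (ha.trans_lt hc1) q.2).1 hc2)
      · simp only [hq, if_false, false_and, and_false, exists_false, iff_false, not_lt]
        exact ha
    rw [this]
    refine MeasurableSet.iUnion fun c => ?_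
    have hc : (0 : ℝ) < c.1 := ha.trans_lt c.2
    have h1 : IsOpen {q : ℝ × ℂ | 0 < q.1 ∧ q.2 ∈ AA u q.1 (c.1 : ℝ)} := by
      have h2 := (isOpen_joint hu).preimage
        (show Continuous (fun q : ℝ × ℂ => (q.1, (c.1 : ℝ), q.2)) by fun_prop)
      convert h2 using 1
      ext q
      simp [hc]
    exact h1.measurableSet

/-! ### The clamps -/

/-- `μ ≤ lam 0` -/
theorem mu_le (hu : O.Fam μ C u) (z : ℂ) : μ z ≤ lam u 0 z := by
  by_contra hcon
  push Not at hcon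
  obtain ⟨L, h1, h2⟩ := exists_between hcon
  have hL : 0 < L := lt_of_le_of_lt (lam_nonneg u 0 z) h1
  have h3 : 0 < u L z := (Ctr.sup_fam hu hL).pos hu.src.cont hu.src.cpt h2
  exact lt_asymm h1 ((mem_iff_zero hu hL z).1 h3)

/-- upper clamp -/
theorem lam_le (hu : O.Fam μ C u) {l : ℝ} (hl : 0 ≤ l) (z : ℂ) :
    lam u l z ≤ Real.exp l * lam u 0 z := by
  by_contra hcon
  push Not at hcon
  obtain ⟨L, h1, h2⟩ := exists_between hcon
  have hL : 0 < L := lt_of_le_of_lt (mul_nonneg (Real.exp_pos l).le (lam_nonneg u 0 z)) h1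
  have h3 := (mem_iff hu l hL z).2 h2
  have h4 := Ctr.U_fam_subset hu hL hl h3
  have h5 : 0 < L * Real.exp (-l) := mul_pos hL (Real.exp_pos _)
  have h6 := (mem_iff_zero hu h5 z).1 h4
  have h7 : L < Real.exp l * lam u 0 z := by
    calc L = Real.exp l * (L * Real.exp (-l)) := by
          rw [mul_comm L, ← mul_assoc, ← Real.exp_add, add_neg_cancel, Real.exp_zero, one_mul]
      _ < Real.exp l * lam u 0 z := mul_lt_mul_of_pos_left h6 (Real.exp_pos l)
  exact lt_asymm h1 h7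

/-- the level function of the base family is bounded -/
theorem exists_lam_le (hu : O.Fam μ C u) : ∃ M : ℝ, 0 ≤ M ∧ ∀ z, lam u 0 z ≤ M :=
  (nest hu 0).exists_lv_le

/-- the level function in terms of the torsion functions -/
theorem lam_zero_eq {ψ : ℝ → ℂ → ℝ}
    (hψ : ∀ L, 0 < L → {x | 0 < ψ L x} = {x | 0 < u L x}) (z : ℂ) :
    lam u 0 z = sSup {L : ℝ | 0 < L ∧ 0 < ψ L z} := by
  unfold lam Lev32.lv
  congr 1
  ext L
  simp only [mem_ofPred_eq]
  refine and_congr_right fun hL => ?_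
  rw [AA_zero u le_rfl, ← hψ L hL]
  rfl

/-- the hypotheses of `Contr32` -/
theorem expand (hu : O.Fam μ C u) : Contr32.Expand volume (AA u) := by
  have h := Ctr.expand (G := fun L => {x | 0 < u L x})
    (by
      have := nest hu 0
      have e : AA u 0 = fun L => {x | 0 < u L x} := by
        funext L
        exact AA_zero u le_rfl L
      rwa [e] at this) (fun s hs => Ctr.isOpen_pos hu hs)
  exact h

/-! ### The level in the variable `t`: `t^r = (1 - r/p) L` -/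

/-- the level functions in the variable `t` -/
noncomputable def tau (p r : ℝ) (u : ℝ → ℂ → ℝ) (l : ℝ) (z : ℂ) : ℝ :=
  ((1 - r / p) * lam u l z) ^ (1 / r)

variable {p r : ℝ}

theorem w_pos (hr : 1 ≤ r) (hrp : r < p) : 0 < 1 - r / p := by
  have : 0 < p := by linarith
  rw [sub_pos, div_lt_one this]; exact hrp

theorem tau_nonneg (hr : 1 ≤ r) (hrp : r < p) (u : ℝ → ℂ → ℝ) (l : ℝ) (z : ℂ) :
    0 ≤ tau p r u l z :=
  Real.rpow_nonneg (mul_nonneg (w_pos hr hrp).le (lam_nonneg u l z)) _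

theorem tau_rpow (hr : 1 ≤ r) (hrp : r < p) (u : ℝ → ℂ → ℝ) (l : ℝ) (z : ℂ) :
    tau p r u l z ^ r = (1 - r / p) * lam u l z := by
  unfold tau
  rw [← Real.rpow_mul (mul_nonneg (w_pos hr hrp).le (lam_nonneg u l z)),
    one_div_mul_cancel (by linarith : r ≠ 0), Real.rpow_one]

theorem lt_tau (hu : O.Fam μ C u) (hr : 1 ≤ r) (hrp : r < p) (l : ℝ) {t : ℝ} (ht : 0 < t) (z : ℂ) :
    t < tau p r u l z ↔ z ∈ Ctr.U l {y | 0 < u (t ^ r / (1 - r / p)) y} := by
  have hw := w_pos hr hrp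
  have hr0 : 0 < r := by linarith
  rw [mem_iff hu l (by positivity), div_lt_iff₀ hw, mul_comm (lam u l z), ← tau_rpow hr hrp]
  exact (Real.rpow_lt_rpow_iff ht.le (tau_nonneg hr hrp u l z) hr0).symm

theorem measurable_tau (hu : O.Fam μ C u) : Measurable fun q : ℝ × ℂ => tau p r u q.1 q.2 :=
  ((measurable_lam hu).const_mul _).pow_const _

theorem tau_mono (hu : O.Fam μ C u) (hr : 1 ≤ r) (hrp : r < p) {l l' : ℝ} (h : l ≤ l') (z : ℂ) :
    tau p r u l z ≤ tau p r u l' z := by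
  refine Real.rpow_le_rpow (mul_nonneg (w_pos hr hrp).le (lam_nonneg u l z)) ?_ (by positivity)
  exact mul_le_mul_of_nonneg_left (lam_mono hu h z) (w_pos hr hrp).le

/-- upper clamp -/
theorem tau_le (hu : O.Fam μ C u) (hr : 1 ≤ r) (hrp : r < p) {l : ℝ} (hl : 0 ≤ l) (z : ℂ) :
    tau p r u l z ≤ Real.exp (l / r) * tau p r u 0 z := by
  have hw := w_pos hr hrp
  have e : Real.exp (l / r) * tau p r u 0 z = ((1 - r / p) * (Real.exp l * lam u 0 z)) ^ (1 / r) := by
    unfold tau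
    rw [mul_left_comm, Real.mul_rpow (Real.exp_pos l).le (mul_nonneg hw.le (lam_nonneg u 0 z)),
      ← Real.exp_mul, mul_one_div]
  rw [e]
  refine Real.rpow_le_rpow (mul_nonneg hw.le (lam_nonneg u l z)) ?_ (by positivity)
  exact mul_le_mul_of_nonneg_left (lam_le hu hl z) hw.le

theorem tail_rpow (hp2 : p < 2) {b : ℝ} (hb : 0 < b) :
    ∫⁻ t in Ioi (0 : ℝ), (Ici b).indicator (fun t => ENNReal.ofReal ((2 - p) * t ^ (p - 3))) t =
      ENNReal.ofReal (b ^ (p - 2)) := by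
  rw [lintegral_indicator measurableSet_Ici, Measure.restrict_restrict measurableSet_Ici]
  have e1 : Ici b ∩ Ioi 0 = Ici b := inter_eq_left.2 fun t ht => hb.trans_le ht
  rw [e1, setLIntegral_congr (Ioi_ae_eq_Ici (a := b) (μ := volume)).symm,
    ← ofReal_integral_eq_lintegral_ofReal]
  · congr 1
    rw [integral_const_mul, integral_Ioi_rpow_of_lt (by linarith) hb]
    have : p - 3 + 1 = p - 2 := by ring
    rw [this]
    have h2 : p - 2 ≠ 0 := by linarith
    field_simp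
    ring
  · exact (integrableOn_Ioi_rpow_of_lt (by linarith) hb).const_mul _
  · refine (ae_restrict_iff' measurableSet_Ioi).2 (Eventually.of_forall fun t ht => ?_)
    have h0 : 0 < t := hb.trans ht
    have h1 : 0 ≤ 2 - p := by linarith
    positivity

/-- Tonelli for the sets `{τ_l ≤ t}` -/
theorem tonelli_abs (hp2 : p < 2) {τ : ℝ × ℂ → ℝ} (hτm : Measurable τ) {f : ℂ → ℝ≥0∞}
    (hf : Measurable f) (hpos : ∀ l, 0 < l → ∀ z, f z ≠ 0 → 0 < τ (l, z)) {k : ℝ → ℝ≥0∞}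
    (hk : Measurable k) :
    ∫⁻ t in Ioi (0 : ℝ), ENNReal.ofReal ((2 - p) * t ^ (p - 3)) *
        ∫⁻ l in Ioi (0 : ℝ), k l * ∫⁻ z in {z | τ (l, z) ≤ t}, f z =
      ∫⁻ l in Ioi (0 : ℝ), k l * ∫⁻ z, f z * ENNReal.ofReal (τ (l, z) ^ (p - 2)) := by
  set c : ℝ → ℝ≥0∞ := fun t => ENNReal.ofReal ((2 - p) * t ^ (p - 3)) with hc
  have hcm : Measurable c := ((measurable_id.pow_const (p - 3)).const_mul (2 - p)).ennreal_ofReal
  set S : Set (ℝ × ℝ × ℂ) := {q | τ q.2 ≤ q.1} with hS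
  have hSm : MeasurableSet S :=
    measurableSet_le (hτm.comp measurable_snd) measurable_fst
  set F : ℝ × ℝ × ℂ → ℝ≥0∞ := S.indicator fun q => c q.1 * (k q.2.1 * f q.2.2) with hF
  have hFm : Measurable F := ((hcm.comp measurable_fst).mul
    ((hk.comp (measurable_fst.comp measurable_snd)).mul
      (hf.comp (measurable_snd.comp measurable_snd)))).indicator hSm
  have hτl : ∀ l, Measurable fun z => τ (l, z) := fun l => hτm.comp measurable_prodMk_left
  -- left side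
  have hL : ∀ t l, c t * (k l * ∫⁻ z in {z | τ (l, z) ≤ t}, f z) = ∫⁻ z, F (t, l, z) := by
    intro t l
    have hm : MeasurableSet {z | τ (l, z) ≤ t} := measurableSet_le (hτl l) measurable_const
    rw [← lintegral_indicator hm, ← lintegral_const_mul _ (hf.indicator hm),
      ← lintegral_const_mul _ ((hf.indicator hm).const_mul _)]
    refine lintegral_congr fun z => ?_
    by_cases hz : τ (l, z) ≤ t
    · rw [hF, indicator_of_mem (show (t, l, z) ∈ S from hz),
        indicator_of_mem (show z ∈ {z | τ (l, z) ≤ t} from hz)]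
    · rw [hF, indicator_of_notMem (show (t, l, z) ∉ S from hz),
        indicator_of_notMem (show z ∉ {z | τ (l, z) ≤ t} from hz), mul_zero, mul_zero]
  -- right side
  have hR : ∀ l, 0 < l → ∫⁻ z, ∫⁻ t in Ioi (0 : ℝ), F (t, l, z) =
      k l * ∫⁻ z, f z * ENNReal.ofReal (τ (l, z) ^ (p - 2)) := by
    intro l hl
    have hm2 : Measurable fun z => f z * ENNReal.ofReal (τ (l, z) ^ (p - 2)) :=
      hf.mul ((hτl l).pow_const _).ennreal_ofReal
    rw [← lintegral_const_mul _ hm2]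
    refine lintegral_congr fun z => ?_
    by_cases hz : f z = 0
    · have : ∀ t, F (t, l, z) = 0 := by
        intro t
        rw [hF]
        by_cases h : (t, l, z) ∈ S
        · rw [indicator_of_mem h]
          simp [hz]
        · rw [indicator_of_notMem h]
      simp [this, hz]
    · have hτ : 0 < τ (l, z) := hpos l hl z hz
      have e2 : ∀ t, F (t, l, z) = (Ici (τ (l, z))).indicator c t * (k l * f z) := by
        intro t
        by_cases h : τ (l, z) ≤ t
        · rw [hF, indicator_of_mem (show (t, l, z) ∈ S from h),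
            indicator_of_mem (show t ∈ Ici (τ (l, z)) from h)]
        · rw [hF, indicator_of_notMem (show (t, l, z) ∉ S from h),
            indicator_of_notMem (show t ∉ Ici (τ (l, z)) from h), zero_mul]
      simp only [e2]
      rw [lintegral_mul_const _ (hcm.indicator measurableSet_Ici), tail_rpow hp2 hτ]
      ring
  have hL2 : ∀ t, c t * ∫⁻ l in Ioi (0 : ℝ), k l * ∫⁻ z in {z | τ (l, z) ≤ t}, f z =
      ∫⁻ l in Ioi (0 : ℝ), ∫⁻ z, F (t, l, z) := by
    intro t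
    rw [← lintegral_const_mul' _ _ (by simp [hc])]
    exact lintegral_congr fun l => hL t l
  refine (lintegral_congr fun t => hL2 t).trans ?_
  have hF2 : Measurable fun q : ℝ × ℝ => ∫⁻ z, F (q.1, q.2, z) := by
    have h1 : Measurable fun q : (ℝ × ℝ) × ℂ => F (q.1.1, q.1.2, q.2) :=
      hFm.comp ((measurable_fst.comp measurable_fst).prodMk
        ((measurable_snd.comp measurable_fst).prodMk measurable_snd))
    exact h1.lintegral_prod_right'
  rw [lintegral_lintegral_swap hF2.aemeasurable]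
  refine setLIntegral_congr_fun measurableSet_Ioi fun l hl => ?_
  have hFl : Measurable fun q : ℝ × ℂ => F (q.1, l, q.2) :=
    hFm.comp (measurable_fst.prodMk (measurable_const.prodMk measurable_snd))
  have h3 := lintegral_lintegral_swap (μ := (volume : Measure ℝ).restrict (Ioi 0))
    (ν := (volume : Measure ℂ)) (f := fun t z => F (t, l, z)) hFl.aemeasurable
  rw [← hR l hl]
  exact h3

/-- **Tonelli**: `∫ (2-p) t^(p-3) ∫_l k(l) ∫_{(U l G_t)ᶜ} f = ∫_l k(l) ∫ f τ_l^(p-2)` -/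
theorem tonelli (hu : O.Fam μ C u) (hr : 1 ≤ r) (hrp : r < p) (hp2 : p < 2) {f : ℂ → ℝ≥0∞}
    (hf : Measurable f) (hfμ : ∀ z, f z ≠ 0 → 0 < μ z) {k : ℝ → ℝ≥0∞} (hk : Measurable k) :
    ∫⁻ t in Ioi (0 : ℝ), ENNReal.ofReal ((2 - p) * t ^ (p - 3)) *
        ∫⁻ l in Ioi (0 : ℝ), k l *
          ∫⁻ z in (Ctr.U l {y | 0 < u (t ^ r / (1 - r / p)) y})ᶜ, f z =
      ∫⁻ l in Ioi (0 : ℝ), k l *
        ∫⁻ z, f z * ENNReal.ofReal (tau p r u l z ^ (p - 2)) := by
  have hw := w_pos hr hrp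
  have h1 := tonelli_abs (f := f) (k := k) hp2 (measurable_tau (p := p) (r := r) hu) hf
    (fun l hl z hz => Real.rpow_pos_of_pos (mul_pos hw
      (((hfμ z hz).trans_le (mu_le hu z)).trans_le (lam_mono hu hl.le z))) _) hk
  rw [← h1]
  refine setLIntegral_congr_fun measurableSet_Ioi fun t ht => ?_
  have ht0 : (0 : ℝ) < t := ht
  have e : ∀ l, (Ctr.U l {y | 0 < u (t ^ r / (1 - r / p)) y})ᶜ = {z | tau p r u l z ≤ t} := by
    intro l
    ext z
    rw [mem_compl_iff, ← lt_tau hu hr hrp l ht0 z, not_lt]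
    rfl
  simp only [e]

end Pool.Agent.Lib.QNL.Joint
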