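import Pool.Agent.Lib.QNL.Bal77
import Pool.Agent.Lib.QNL.Asm58
import Pool.Agent.Lib.QNL.HR46

/-!
Group T / N: from `CG.CertG` (numeric side) and the retention inequality (group C) to
`Asm.Cert` (final assembly).
-/

set_option autoImplicit false

namespace Pool.Agent.Lib.QNL.Low77

open MeasureTheory Set Filter Topology
open scoped ENNReal Nat
open Pool.Agent.Lib.QNL Pool.Agent.Lib.QNL.Wts73 Pool.Agent.Lib.QNL.CG Pool.Agent.Lib.QNL.Bal77
open Pool.Agent.Lib.QNL.Ric (Bj thj Cj)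
open Pool.Agent.Lib.QNL.FinN Pool.Agent.Lib.QNL.Lev32

/-- the expansions of the base sets -/
def AA (p r : ℝ) (u : ℝ → ℂ → ℝ) (l t : ℝ) : Set ℂ :=
  Ctr.U l {z | 0 < O.psi u (t ^ r / (1 - r / p)) z}

/-- the geometry of the expansions -/
def StmtGeo : Prop := ∀ (p r : ℝ), 1 ≤ r → r < p → p < 2 →
  ∀ (x : ℂ → ℂ), Continuous x → HasCompactSupport x →
  ∀ (C : ℝ) (u : ℝ → ℂ → ℝ), FamU (fun z => ‖x z‖ ^ r) C u →
    HR46.Flow (AA p r u) ∧
    ∀ l, 0 < l → ∫⁻ z, ENNReal.ofReal (lv (AA p r u l) z ^ p) ≤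
      ENNReal.ofReal (Real.exp l * ∫ z, tt p r (O.psi u) z ^ p)

/-- (C) the retention inequality for the expansions of the base sets and antitone kernels -/
def StmtRet : Prop := ∀ (p r : ℝ), 1 ≤ r → r < p → p < 2 →
  ∀ (x : ℂ → ℂ), Continuous x → HasCompactSupport x →
  ∀ (C : ℝ) (u : ℝ → ℂ → ℝ), FamU (fun z => ‖x z‖ ^ r) C u →
  ∀ k1 : ℝ → ℝ, (∀ l, 0 ≤ k1 l) → Measurable k1 → AntitoneOn k1 (Ioi 0) →
    (∀ b : ℝ, IntegrableOn (fun l => Real.exp (b * l) * k1 l) (Ioi 0)) →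
    HR46.Ret p r x (O.psi u) (AA p r u) k1 (∫ l in Ioi (0 : ℝ), k1 l)
      (∫ l in Ioi (0 : ℝ), k1 l * (Real.exp ((p / r - 1) * l / 2) - 1))

variable {a c : ℝ}

/-! ### Kernels -/

theorem cont_kap (a c : ℝ) : Continuous (kap a c) := by
  unfold kap; fun_prop

theorem cont_kh (a c : ℝ) : Continuous (kh a c) := by
  have := cont_kap a c
  unfold kh; fun_prop

/-- all exponential moments of `kh` -/
theorem kh_mom (hc : 1 ≤ c) (b : ℝ) : ∃ K : ℝ, ∀ l, 0 < l →
    Real.exp (b * l) * kh a c l ≤ K * Real.exp (-l) := by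
  obtain ⟨N, hN⟩ := exists_nat_ge (b - a + 3)
  refine ⟨c ^ 2 * N !, fun l hl => ?_⟩
  have hc0 : 0 < c := by linarith
  set w := c * Real.exp l with hw
  have hw0 : 0 < w := by positivity
  have h1 : w ^ N / N ! ≤ Real.exp w := Real.pow_div_factorial_le_exp w hw0.le N
  have hf : (0 : ℝ) < N ! := by positivity
  have h2 : Real.exp (-w) ≤ N ! / w ^ N := by
    rw [Real.exp_neg, le_div_iff₀ (by positivity), inv_mul_le_iff₀ (Real.exp_pos _)]
    rwa [div_le_iff₀ hf] at h1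
  have h3 : w ^ N = c ^ N * Real.exp (N * l) := by
    rw [hw, mul_pow, ← Real.exp_nat_mul]
  have h4 : (1 : ℝ) ≤ c ^ N := one_le_pow₀ hc
  have h5 : Real.exp (-w) ≤ N ! * Real.exp (-(N * l)) := by
    refine h2.trans ?_
    rw [h3, Real.exp_neg, div_le_iff₀ (by positivity)]
    have e : (N ! : ℝ) * (Real.exp (N * l))⁻¹ * (c ^ N * Real.exp (N * l)) = N ! * c ^ N := by
      have := (Real.exp_pos (N * l)).ne'
      field_simp
    rw [e]
    nlinarith
  have h6 : w * (w - 1) ≤ c ^ 2 * Real.exp (2 * l) := by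
    have e : Real.exp (2 * l) = Real.exp l ^ 2 := by
      rw [← Real.exp_nat_mul]; push_cast; rfl
    rw [e, ← mul_pow, ← hw]
    nlinarith
  rw [kh_eq, ← hw]
  calc Real.exp (b * l) * (Real.exp (-(a * l)) * (w * (w - 1) * Real.exp (-w)))
      = (Real.exp (b * l) * Real.exp (-(a * l))) * Real.exp (-w) * (w * (w - 1)) := by ring
    _ ≤ (Real.exp (b * l) * Real.exp (-(a * l))) * Real.exp (-w) *
        (c ^ 2 * Real.exp (2 * l)) := mul_le_mul_of_nonneg_left h6 (by positivity)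
    _ ≤ (Real.exp (b * l) * Real.exp (-(a * l))) * (N ! * Real.exp (-(N * l))) *
        (c ^ 2 * Real.exp (2 * l)) := by gcongr
    _ = c ^ 2 * N ! * (Real.exp (b * l) * Real.exp (-(a * l)) * Real.exp (-(N * l)) *
        Real.exp (2 * l)) := by ring
    _ ≤ c ^ 2 * N ! * Real.exp (-l) := by
        rw [← Real.exp_add, ← Real.exp_add, ← Real.exp_add]
        refine mul_le_mul_of_nonneg_left (Real.exp_le_exp.2 ?_) (by positivity)
        nlinarith

/-- a function on `(0, ∞)`, nonnegative and antitone, extended by zero, is measurable -/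
theorem measurable_ind {k : ℝ → ℝ} (h0 : ∀ l, 0 < l → 0 ≤ k l) (ha : AntitoneOn k (Ioi 0)) :
    Measurable ((Ioi (0 : ℝ)).indicator k) := by
  refine measurable_of_Ioi fun s => ?_
  rcases lt_or_ge s 0 with hs | hs
  · have : (Ioi (0 : ℝ)).indicator k ⁻¹' Ioi s = univ := by
      ext l
      simp only [mem_preimage, mem_Ioi, mem_univ, iff_true]
      by_cases hl : 0 < l
      · rw [indicator_of_mem (by exact hl)]; exact hs.trans_le (h0 l hl)
      · rw [indicator_of_notMem (by exact hl)]; exact hs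
    rw [this]; exact MeasurableSet.univ
  · have : OrdConnected ((Ioi (0 : ℝ)).indicator k ⁻¹' Ioi s) := by
      refine ⟨fun x hx y hy z hz => ?_⟩
      have hx0 : 0 < x := by
        by_contra h
        simp only [mem_preimage, mem_Ioi] at hx
        rw [indicator_of_notMem (by exact h)] at hx
        linarith
      have hz0 : 0 < z := hx0.trans_le hz.1
      have hy0 : 0 < y := hz0.trans_le hz.2
      simp only [mem_preimage, mem_Ioi] at hy ⊢
      rw [indicator_of_mem (by exact hy0)] at hy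
      rw [indicator_of_mem (by exact hz0)]
      exact hy.trans_le (ha hz0 hy0 hz.2)
    exact this.measurableSet

/-- **the refund inequality** for the explicit weights and an antitone minorant `k1` -/
theorem refund (hGeo : StmtGeo) (hRet : StmtRet) {p r : ℝ} (hr : 1 ≤ r) (hrp : r < p)
    (hp2 : p < 2) (hc : 1 ≤ c) {k1 : ℝ → ℝ} (hk0 : ∀ l, 0 < l → 0 ≤ k1 l)
    (hkle : ∀ l, 0 < l → k1 l ≤ kh (1 / p) c l) (hka : AntitoneOn k1 (Ioi 0)) :
    Asm.Refund p r (kap (1 / p) c) (HR46.Rf p r (∫ l in Ioi (0 : ℝ), k1 l)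
      (∫ l in Ioi (0 : ℝ), k1 l * (Real.exp ((p / r - 1) * l / 2) - 1))
      ((∫ l in Ioi (0 : ℝ), kh (1 / p) c l) - ∫ l in Ioi (0 : ℝ), k1 l)) := by
  intro x X hx hxc hXx C u hu
  have hp1 : 1 < p := by linarith
  have ha1 : 1 / p < 1 := (div_lt_one (by linarith)).2 hp1
  have hF := hu.fam
  refine ⟨HR46.integrable_Rf hr hrp hx hxc hF _ _ _, ?_⟩
  -- the extension by zero
  set k2 : ℝ → ℝ := (Ioi (0 : ℝ)).indicator k1 with hk2
  have e12 : ∀ l ∈ Ioi (0 : ℝ), k2 l = k1 l := fun l hl => indicator_of_mem hl _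
  have hk2m : Measurable k2 := measurable_ind hk0 hka
  have hk20 : ∀ l, 0 ≤ k2 l := fun l => indicator_nonneg (fun l hl => hk0 l hl) l
  have hk2a : AntitoneOn k2 (Ioi 0) := fun l hl l' hl' h => by
    rw [e12 l hl, e12 l' hl']; exact hka hl hl' h
  have hk2mom : ∀ b : ℝ, IntegrableOn (fun l => Real.exp (b * l) * k2 l) (Ioi 0) := by
    intro b
    obtain ⟨K, hK⟩ := kh_mom (a := 1 / p) hc b
    have h1 : IntegrableOn (fun l : ℝ => K * Real.exp (-l)) (Ioi 0) :=
      (integrableOn_exp_neg_Ioi 0).const_mul K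
    have h2 : AEStronglyMeasurable (fun l => Real.exp (b * l) * k2 l)
        (volume.restrict (Ioi (0 : ℝ))) := by
      have : Measurable fun l => Real.exp (b * l) * k2 l :=
        (by fun_prop : Measurable fun l : ℝ => Real.exp (b * l)).mul hk2m
      exact this.aestronglyMeasurable
    refine Integrable.mono' h1 h2 ?_
    filter_upwards [ae_restrict_mem measurableSet_Ioi] with l hl
    have hl' : (0 : ℝ) < l := hl
    rw [Real.norm_of_nonneg (mul_nonneg (Real.exp_pos _).le (hk20 l)), e12 l hl]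
    exact (mul_le_mul_of_nonneg_left (hkle l hl') (Real.exp_pos _).le).trans (hK l hl')
  have hk2i : IntegrableOn k2 (Ioi 0) := by simpa using hk2mom 0
  have i1 : ∫ l in Ioi (0 : ℝ), k1 l = ∫ l in Ioi (0 : ℝ), k2 l :=
    setIntegral_congr_fun measurableSet_Ioi fun l hl => (e12 l hl).symm
  have i2 : ∫ l in Ioi (0 : ℝ), k1 l * (Real.exp ((p / r - 1) * l / 2) - 1) =
      ∫ l in Ioi (0 : ℝ), k2 l * (Real.exp ((p / r - 1) * l / 2) - 1) :=
    setIntegral_congr_fun measurableSet_Ioi fun l hl => by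
      show k1 l * _ = k2 l * _
      rw [e12 l hl]
  rw [i1, i2]
  obtain ⟨hFl, hvol⟩ := hGeo p r hr hrp hp2 x hx hxc C u hu
  have hret := hRet p r hr hrp hp2 x hx hxc C u hu k2 hk20 hk2m hk2a hk2mom
  have hkhi : IntegrableOn (kh (1 / p) c) (Ioi 0) := integrableOn_kh ha1 hc
  have hle : ∀ l ∈ Ioi (0 : ℝ), k2 l ≤ kh (1 / p) c l := fun l hl => by
    rw [e12 l hl]; exact hkle l hl
  have ekh : ∀ l : ℝ, kap (1 / p) c l * Real.exp (-((2 / p - 1) * l)) = kh (1 / p) c l := by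
    intro l
    unfold kh
    rw [mul_comm]
    congr 3
    ring
  have hsub : (∫ l in Ioi (0 : ℝ), kh (1 / p) c l) - ∫ l in Ioi (0 : ℝ), k2 l =
      ∫ l in Ioi (0 : ℝ), (kh (1 / p) c l - k2 l) := (integral_sub hkhi hk2i).symm
  have hnn : 0 ≤ᵐ[volume.restrict (Ioi (0 : ℝ))] fun l => kh (1 / p) c l - k2 l :=
    (ae_restrict_iff' measurableSet_Ioi).2 (Eventually.of_forall fun l hl =>
      sub_nonneg.2 (hle l hl))
  have hA0 : ∀ t, 0 < t → AA p r u 0 t = {z | 0 < O.psi u (t ^ r / (1 - r / p)) z} :=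
    fun t _ => Ctr.U_zero _
  refine HR46.hR hFl hr hrp hp2 hx hxc hF hA0 hvol hXx (cont_kap _ _).measurable
    (fun l hl => ⟨hk20 l, by rw [ekh]; exact hle l hl⟩) ?_ ?_ hret
  · rw [hsub]; exact integral_nonneg_of_ae hnn
  · simp only [ekh]
    rw [hsub]
    exact (ofReal_integral_eq_lintegral_ofReal (hkhi.sub hk2i) hnn).le

/-- **from the numeric certificate to the data of the final assembly** -/
theorem cert_of_certG (hGeo : StmtGeo) (hRet : StmtRet) {n : ℕ} {p c r smax Lam : ℝ}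
    {V k1 : ℝ → ℝ} (hp1 : 1 < p) (hp2 : p < 2) (hn : 1 ≤ n) (h : CertG n p c r smax Lam V k1) :
    Nonempty (Asm.Cert n p) := by
  have hp0 : 0 < p := by linarith
  have ha0 : 0 < 1 / p := by positivity
  have ha1 : 1 / p < 1 := (div_lt_one hp0).2 hp1
  have hc := h.one_le_c
  have hc0 : 0 < c := by linarith
  have eext : extrD (wt (1 / p) c) (wt' (1 / p) c) (pj (1 / p)) = kap (1 / p) c :=
    funext fun l => extrD_wt ha1 l
  refine ⟨{
    r := r
    smax := smax
    c₀ := c0 n (1 / p) c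
    Zn := Zn n (1 / p) c
    Lam := Lam
    th := thj n (1 / p) (bs n (1 / p) c)
    B := Bj n (1 / p) (bs n (1 / p) c)
    V := V
    pj := pj (1 / p)
    rj := rj (1 / p)
    w := wt (1 / p) c
    w' := wt' (1 / p) c
    Rf := HR46.Rf p r (∫ l in Ioi (0 : ℝ), k1 l)
      (∫ l in Ioi (0 : ℝ), k1 l * (Real.exp ((p / r - 1) * l / 2) - 1))
      ((∫ l in Ioi (0 : ℝ), kh (1 / p) c l) - ∫ l in Ioi (0 : ℝ), k1 l)
    hr := h.one_le_r
    hrp := h.r_lt
    hsm := h.lt_smax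
    hQ := h.form
    hchain := fun ℓ hℓ => chain_wt ha0 ha1 hc hn ℓ hℓ
    hc₀ := (c0_pos ha0 ha1 hc0 hn).le
    hshare := fun e _ => ?_
    hZn := Zn_pos ha0 ha1 hc hn
    hLam := h.Lam_nonneg
    hZ := ?_
    hRef := ?_
    hTOP := fun y hy hwy => ?_ }⟩
  · rw [HU_.shr_sum]
    refine le_of_eq (Finset.sum_congr rfl fun j hj => ?_)
    rw [shr_eq ha0 ha1 hn (by have := Finset.mem_range.1 hj; omega)]
  · have h1 := exit_mass ha0 ha1 hc hn
    have e : ∀ l : ℝ, (2 * (1 / p) - 1) * l = (2 / p - 1) * l := fun l => by ring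
    simp only [e] at h1
    exact h1
  · rw [eext]
    exact refund hGeo hRet h.one_le_r h.r_lt hp2 hc h.k1_nonneg h.k1_le h.k1_anti
  · have h1 := h.top y hy hwy
    rw [← CC_eq_Cn hp1 n, balance ha0 ha1 hc hn]
    unfold HR46.Rf
    refine le_trans (le_of_eq ?_) h1
    ring

/-- **numeric certificates for all `1 < p < 2` give the theorem for `T^n`** -/
theorem lowH_of_certG (hFam : StmtFamU) (hF : StmtF) (hGeo : StmtGeo) (hRet : StmtRet) {n : ℕ}
    (hn : 1 ≤ n) (h : ∀ p : ℝ, 1 < p → p < 2 → ∃ (c r smax Lam : ℝ) (V k1 : ℝ → ℝ),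
      CertG n p c r smax Lam V k1) : StmtLowH n :=
  Asm.lowH_of_cert hFam hF fun p hp1 hp2 => by
    obtain ⟨c, r, smax, Lam, V, k1, hG⟩ := h p hp1 hp2
    exact cert_of_certG hGeo hRet hp1 hp2 hn hG

end Pool.Agent.Lib.QNL.Low77
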