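import Pool.Agent.Lib.QNL.C3_36
import Pool.Agent.Lib.QNL.Ext17

/-!
QNL, group C, C3: the weak speed law at `h = 0` (helper39, helper89, helper27, helper16):
for the obstacle family `u` (source `μ`), `G_L = {u_L > 0}`, `l0` the level function of `(G_L)`,
`lh h` the level function of `(U h G_L)_L`:
`h⁻¹ ∫ φ (Ω(lh h) - Ω(l0)) → ∫ φ Ω'(l0) (l0 - μ)` for all test functions.
-/

set_option autoImplicit false

namespace Pool.Agent.Lib.QNL.Weak16

open MeasureTheory Filter Topology Set Metric
open scoped ContDiff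
open Pool.Agent.Lib.QNL

/-! ### one real variable -/

theorem exists_T {f : ℝ → ℝ} (hf : Continuous f) (hc : HasCompactSupport f) :
    ∃ T M : ℝ, 0 < T ∧ 0 ≤ M ∧ (∀ x, T < |x| → f x = 0) ∧ ∀ x, |f x| ≤ M := by
  obtain ⟨M, hM⟩ := hc.exists_bound_of_continuous hf
  obtain ⟨T, hT⟩ := hc.isCompact.isBounded.subset_closedBall 0
  refine ⟨max T 1, M, by positivity, (norm_nonneg _).trans (hM 0), fun x hx => ?_, hM⟩
  by_contra h
  have h1 := hT (subset_tsupport _ h)
  rw [mem_closedBall, dist_zero_right, Real.norm_eq_abs] at h1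
  exact absurd hx (not_lt.2 (h1.trans (le_max_left _ _)))

theorem int_bdd {f U : ℝ → ℝ} (hf : Continuous f) (hc : HasCompactSupport f)
    (hU : Measurable U) {B : ℝ} (hB : ∀ x, |U x| ≤ B) : Integrable fun K => f K * U K := by
  have := (hf.integrable_of_hasCompactSupport hc (μ := volume)).bdd_mul (f := U) (c := B)
    hU.aestronglyMeasurable (Eventually.of_forall hB)
  refine this.congr (Eventually.of_forall fun x => ?_)
  simp [mul_comm]

/-- derivative of the scaled pairing -/
theorem scale_deriv {om : ℝ → ℝ} (hom : ContDiff ℝ ∞ om) (hc : HasCompactSupport om)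
    (hs : tsupport om ⊆ Ioi 0) {U : ℝ → ℝ} (hU : Measurable U) {B : ℝ} (hB : ∀ x, |U x| ≤ B) :
    HasDerivAt (fun h => ∫ K, K⁻¹ * om (Real.exp h * K) * U K) (∫ K, deriv om K * U K) 0 := by
  have hd : Differentiable ℝ om := hom.differentiable (by norm_num)
  have hdc : Continuous (deriv om) := hom.continuous_deriv (by norm_num)
  obtain ⟨T, M, hT0, hM0, hT, hM⟩ := exists_T hdc hc.deriv
  have hB0 : 0 ≤ B := (abs_nonneg _).trans (hB 0)
  have hom0 : om 0 = 0 := image_eq_zero_of_notMem_tsupport fun h => lt_irrefl (0 : ℝ) (hs h)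
  have hd0 : deriv om 0 = 0 := image_eq_zero_of_notMem_tsupport fun h =>
    lt_irrefl (0 : ℝ) (hs ((isClosed_tsupport om).closure_subset_iff.2 support_deriv_subset h))
  set F' : ℝ → ℝ → ℝ := fun h K => K⁻¹ * (deriv om (Real.exp h * K) * (Real.exp h * K)) * U K with hF'
  have hF'e : ∀ h K, F' h K = Real.exp h * deriv om (Real.exp h * K) * U K := by
    intro h K
    rcases eq_or_ne K 0 with rfl | hK
    · simp [hF', hd0]
    · simp only [hF']
      field_simp
  have key := hasDerivAt_integral_of_dominated_loc_of_deriv_le (μ := (volume : Measure ℝ))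
    (F := fun h K => K⁻¹ * om (Real.exp h * K) * U K) (F' := F') (x₀ := 0) (s := Ioo (-1) 1)
    (bound := (Icc (-(Real.exp 1 * T)) (Real.exp 1 * T)).indicator fun _ => Real.exp 1 * M * B)
    (Ioo_mem_nhds (by norm_num) (by norm_num)) ?_ ?_ ?_ ?_ ?_ ?_
  · have e : ∫ K, F' 0 K = ∫ K, deriv om K * U K := by
      refine integral_congr_ae (Eventually.of_forall fun K => ?_)
      simp only [hF'e]
      simp
    rw [← e]
    exact key.2
  · refine Eventually.of_forall fun h => ?_
    exact ((measurable_inv.mul ((hd.continuous.comp (continuous_const.mul continuous_id)).measurable)).mul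
      hU).aestronglyMeasurable
  · simp only [Real.exp_zero, one_mul]
    -- `om K / K` is continuous with compact support
    obtain ⟨T', M', hT0', hM0', hT', hM'⟩ := exists_T hd.continuous hc
    have hδ : ∃ δ > 0, ∀ x, |x| < δ → om x = 0 := by
      have h0 : (0 : ℝ) ∈ (tsupport om)ᶜ := fun h => lt_irrefl (0 : ℝ) (hs h)
      obtain ⟨δ, hδ, hb⟩ := Metric.isOpen_iff.1 (isClosed_tsupport om).isOpen_compl 0 h0
      refine ⟨δ, hδ, fun x hx => image_eq_zero_of_notMem_tsupport (hb ?_)⟩
      rw [mem_ball, dist_zero_right]; exact hx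
    obtain ⟨δ, hδ0, hδ⟩ := hδ
    have hi : Integrable ((Icc (-T') T').indicator fun _ : ℝ => δ⁻¹ * M' * B) :=
      (integrable_indicator_iff measurableSet_Icc).2 (integrableOn_const (by simp))
    refine hi.mono' ((measurable_inv.mul hd.continuous.measurable).mul hU).aestronglyMeasurable
      (Eventually.of_forall fun K => ?_)
    rw [Real.norm_eq_abs, abs_mul, abs_mul, abs_inv]
    by_cases hK : T' < |K|
    · rw [hT' K hK]
      simp only [abs_zero, mul_zero, zero_mul]
      exact indicator_nonneg (fun _ _ => by positivity) _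
    · by_cases hK2 : |K| < δ
      · rw [hδ K hK2]
        simp only [abs_zero, mul_zero, zero_mul]
        exact indicator_nonneg (fun _ _ => by positivity) _
      · push Not at hK hK2
        rw [indicator_of_mem (mem_Icc.2 (abs_le.1 hK))]
        have h1 : |K|⁻¹ ≤ δ⁻¹ := inv_anti₀ hδ0 hK2
        gcongr
        · exact hM' K
        · exact hB K
  · exact ((measurable_inv.mul ((hdc.comp (continuous_const.mul continuous_id)).measurable.mul
      (measurable_const.mul measurable_id))).mul hU).aestronglyMeasurable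
  · refine Eventually.of_forall fun K h hh => ?_
    rw [hF'e, Real.norm_eq_abs, abs_mul, abs_mul, abs_of_pos (Real.exp_pos h)]
    have he : Real.exp h ≤ Real.exp 1 := Real.exp_le_exp.2 hh.2.le
    by_cases hK : |K| ≤ Real.exp 1 * T
    · rw [indicator_of_mem (mem_Icc.2 (abs_le.1 hK))]
      gcongr
      · exact hM _
      · exact hB K
    · push Not at hK
      rw [hT (Real.exp h * K), abs_zero, mul_zero, zero_mul]
      · exact indicator_nonneg (fun _ _ => by positivity) _
      · rw [abs_mul, abs_of_pos (Real.exp_pos h)]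
        have h2 : Real.exp (-1) ≤ Real.exp h := Real.exp_le_exp.2 hh.1.le
        calc T = Real.exp (-1) * (Real.exp 1 * T) := by
              rw [← mul_assoc, ← Real.exp_add]; simp
          _ < Real.exp (-1) * |K| := mul_lt_mul_of_pos_left hK (Real.exp_pos _)
          _ ≤ Real.exp h * |K| := mul_le_mul_of_nonneg_right h2 (abs_nonneg _)
  · exact (integrable_indicator_iff measurableSet_Icc).2 (integrableOn_const (by simp))
  · refine Eventually.of_forall fun K h _ => ?_
    have h1 : HasDerivAt (fun h => Real.exp h * K) (Real.exp h * K) h :=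
      (Real.hasDerivAt_exp h).mul_const K
    have h2 : HasDerivAt (fun h => om (Real.exp h * K))
        (deriv om (Real.exp h * K) * (Real.exp h * K)) h :=
      (hd (Real.exp h * K)).hasDerivAt.comp h h1
    exact (h2.const_mul K⁻¹).mul_const (U K)

/-- derivative of the shifted pairing -/
theorem shift_deriv {om : ℝ → ℝ} (hom : ContDiff ℝ ∞ om) (hc : HasCompactSupport om)
    {U : ℝ → ℝ} (hU : Measurable U) {B : ℝ} (hB : ∀ x, |U x| ≤ B) :
    HasDerivAt (fun d => ∫ K, om (K - d) * U K) (-∫ K, deriv om K * U K) 0 := by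
  have hd : Differentiable ℝ om := hom.differentiable (by norm_num)
  have hdc : Continuous (deriv om) := hom.continuous_deriv (by norm_num)
  obtain ⟨T, M, hT0, hM0, hT, hM⟩ := exists_T hdc hc.deriv
  have hB0 : 0 ≤ B := (abs_nonneg _).trans (hB 0)
  have key := hasDerivAt_integral_of_dominated_loc_of_deriv_le (μ := (volume : Measure ℝ))
    (F := fun d K => om (K - d) * U K) (F' := fun d K => -deriv om (K - d) * U K) (x₀ := 0)
    (s := Ioo (-1) 1)
    (bound := (Icc (-(T + 1)) (T + 1)).indicator fun _ => M * B)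
    (Ioo_mem_nhds (by norm_num) (by norm_num)) ?_ ?_ ?_ ?_ ?_ ?_
  · have e : ∫ K, -deriv om (K - 0) * U K = -∫ K, deriv om K * U K := by
      rw [← integral_neg]
      refine integral_congr_ae (Eventually.of_forall fun K => ?_)
      simp
    rw [← e]
    exact key.2
  · refine Eventually.of_forall fun h => ?_
    exact ((hd.continuous.comp (continuous_id.sub continuous_const)).measurable.mul
      hU).aestronglyMeasurable
  · simpa using int_bdd hd.continuous hc hU hB
  · exact (((hdc.comp (continuous_id.sub continuous_const)).neg).measurable.mul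
      hU).aestronglyMeasurable
  · refine Eventually.of_forall fun K h hh => ?_
    rw [Real.norm_eq_abs, abs_mul, abs_neg]
    by_cases hK : |K| ≤ T + 1
    · rw [indicator_of_mem (mem_Icc.2 (abs_le.1 hK))]
      gcongr
      · exact hM _
      · exact hB K
    · push Not at hK
      rw [hT (K - h), abs_zero, zero_mul]
      · exact indicator_nonneg (fun _ _ => by positivity) _
      · have h1 : |h| < 1 := abs_lt.2 hh
        have h2 : |K| ≤ |K - h| + |h| := by
          have := abs_add_le (K - h) h
          simpa using this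
        linarith
  · exact (integrable_indicator_iff measurableSet_Icc).2 (integrableOn_const (by simp))
  · refine Eventually.of_forall fun K h _ => ?_
    have h1 : HasDerivAt (fun h => K - h) (-1) h := by
      simpa using (hasDerivAt_id h).const_sub K
    have h2 : HasDerivAt (fun h => om (K - h)) (deriv om (K - h) * (-1)) h :=
      (hd (K - h)).hasDerivAt.comp h h1
    have h3 := h2.mul_const (U K)
    simpa using h3

/-! ### layers -/

/-- the layer function -/
noncomputable def ly (φ l : ℂ → ℝ) (L : ℝ) : ℝ := ∫ z in {z | L < l z}, φ z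

theorem ly_fub {φ l : ℂ → ℝ} (hφ : Integrable φ) (hl : Measurable l) {om : ℝ → ℝ}
    (hom : Integrable om) : Integrable (fun L => om L * ly φ l L) ∧
      Integrable (fun z => φ z * ∫ s in Iic (l z), om s) ∧
      ∫ L, om L * ly φ l L = ∫ z, φ z * ∫ s in Iic (l z), om s := by
  set S : Set (ℂ × ℝ) := {p | p.2 < l p.1} with hS
  have hSm : MeasurableSet S := measurableSet_lt measurable_snd (hl.comp measurable_fst)
  have hi : Integrable (S.indicator fun p : ℂ × ℝ => φ p.1 * om p.2)
      ((volume : Measure ℂ).prod (volume : Measure ℝ)) := (hφ.mul_prod hom).indicator hSm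
  have e1 : ∀ L, ∫ z, S.indicator (fun p : ℂ × ℝ => φ p.1 * om p.2) (z, L) = om L * ly φ l L := by
    intro L
    have hm : MeasurableSet {z | L < l z} := measurableSet_lt measurable_const hl
    rw [ly, ← integral_const_mul, ← integral_indicator hm]
    refine integral_congr_ae (Eventually.of_forall fun z => ?_)
    by_cases hz : L < l z
    · simp only
      rw [indicator_of_mem (show (z, L) ∈ S from hz), indicator_of_mem (show z ∈ {z | L < l z} from hz)]
      ring
    · simp only
      rw [indicator_of_notMem (show (z, L) ∉ S from hz),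
        indicator_of_notMem (show z ∉ {z | L < l z} from hz)]
  have e2 : ∀ z, ∫ L, S.indicator (fun p : ℂ × ℝ => φ p.1 * om p.2) (z, L) =
      φ z * ∫ s in Iic (l z), om s := by
    intro z
    rw [← integral_const_mul, ← setIntegral_congr_set (Iio_ae_eq_Iic (a := l z)),
      ← integral_indicator measurableSet_Iio]
    refine integral_congr_ae (Eventually.of_forall fun L => ?_)
    by_cases hz : L < l z
    · simp only
      rw [indicator_of_mem (show (z, L) ∈ S from hz), indicator_of_mem (show L ∈ Iio (l z) from hz)]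
    · simp only
      rw [indicator_of_notMem (show (z, L) ∉ S from hz),
        indicator_of_notMem (show L ∉ Iio (l z) from hz)]
  refine ⟨?_, ?_, ?_⟩
  · have := hi.integral_prod_right
    simpa only [e1] using this
  · have := hi.integral_prod_left
    simpa only [e2] using this
  · simp_rw [← e1, ← e2]
    exact (integral_integral_swap (f := fun z L =>
      S.indicator (fun p : ℂ × ℝ => φ p.1 * om p.2) (z, L)) hi).symm

theorem int_Iic {om : ℝ → ℝ} (hom : ContDiff ℝ ∞ om) (hc : HasCompactSupport om) (b : ℝ) :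
    ∫ s in Iic b, deriv om s = om b :=
  HasCompactSupport.integral_Iic_deriv_eq (hom.of_le (by norm_cast)) hc b

theorem near_zero {om : ℝ → ℝ} (hs : tsupport om ⊆ Ioi 0) :
    ∃ a : ℝ, 0 < a ∧ ∀ x, x < 2 * a → om x = 0 := by
  have h0 : (0 : ℝ) ∈ (tsupport om)ᶜ := fun h => lt_irrefl (0 : ℝ) (hs h)
  obtain ⟨δ, hδ, hb⟩ := Metric.isOpen_iff.1 (isClosed_tsupport om).isOpen_compl 0 h0
  refine ⟨δ / 2, by positivity, fun x hx => ?_⟩
  rcases le_or_gt x 0 with h | h
  · exact image_eq_zero_of_notMem_tsupport fun hx' => absurd (hs hx') (not_lt.2 h)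
  · refine image_eq_zero_of_notMem_tsupport (hb ?_)
    rw [mem_ball, dist_zero_right, Real.norm_eq_abs, abs_of_pos h]
    linarith

theorem w_cont {om : ℝ → ℝ} (hom : Continuous om)
    (hs : tsupport om ⊆ Ioi 0) : Continuous (fun L => L⁻¹ * om L) := by
  obtain ⟨a, ha, h0⟩ := near_zero hs
  rw [continuous_iff_continuousAt]
  intro x
  rcases lt_or_ge x (2 * a) with h | h
  · have : (fun L => L⁻¹ * om L) =ᶠ[𝓝 x] fun _ => 0 := by
      filter_upwards [Iio_mem_nhds h] with y hy
      rw [h0 y hy, mul_zero]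
    exact continuousAt_const.congr this.symm
  · have : x ≠ 0 := by intro h'; subst h'; linarith
    exact (continuousAt_inv₀ this).mul hom.continuousAt

theorem w_cpt {om : ℝ → ℝ} (hc : HasCompactSupport om) :
    HasCompactSupport (fun L => L⁻¹ * om L) := hc.mul_left

/-! ### the family -/

/-- truncated pairing `∫ u_{max L a} b` -/
noncomputable def UU (u : ℝ → ℂ → ℝ) (a : ℝ) (b : ℂ → ℝ) (L : ℝ) : ℝ :=
  ∫ z, u (max L a) z * b z

section fam

variable {μ : ℂ → ℝ} {C : ℝ} {u : ℝ → ℂ → ℝ} (hF : O.Fam μ C u)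
include hF

theorem int_ub {b : ℂ → ℝ} (hb : Continuous b) {L : ℝ} (hL : 0 < L) :
    Integrable fun z => u L z * b z :=
  ((hF.cont L hL).mul hb).integrable_of_hasCompactSupport ((hF.cpt L hL).mul_right)

theorem UU_anti {a : ℝ} (ha : 0 < a) {b : ℂ → ℝ} (hb : Continuous b) (hb0 : ∀ z, 0 ≤ b z) :
    Antitone (UU u a b) := by
  intro L L' h
  have h1 : 0 < max L a := lt_max_of_lt_right ha
  have h2 : 0 < max L' a := lt_max_of_lt_right ha
  refine integral_mono (int_ub hF hb h2) (int_ub hF hb h1) fun z => ?_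
  exact mul_le_mul_of_nonneg_right (hF.anti _ _ h1 (max_le_max_right a h) z) (hb0 z)

theorem UU_bd {a : ℝ} (ha : 0 < a) {b : ℂ → ℝ} (hb : Continuous b) (hb0 : ∀ z, 0 ≤ b z) (L : ℝ) :
    |UU u a b L| ≤ UU u a b a := by
  have h1 : 0 < max L a := lt_max_of_lt_right ha
  unfold UU
  rw [abs_of_nonneg (integral_nonneg fun z => mul_nonneg (hF.nonneg _ h1 z) (hb0 z))]
  rw [max_self]
  refine integral_mono (int_ub hF hb h1) (int_ub hF hb ha) fun z => ?_
  exact mul_le_mul_of_nonneg_right (hF.anti _ _ ha (le_max_right _ _) z) (hb0 z)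

theorem step {φ : ℂ → ℝ} (hφ : ContDiff ℝ 2 φ) (hc : HasCompactSupport φ) {L h d a : ℝ}
    (ha : 0 < a) (hh : 0 < h) (hd : 0 < d) (hL : a ≤ L * Real.exp (-h)) :
    (∫ z in Ctr.U h {x | 0 < u L x}, φ z) - ∫ z in {x | 0 < u L x}, φ z ≤
      Real.exp h * (L⁻¹ * (UU u a (fun z => max (lap φ z) 0) (L * Real.exp (-h)) -
        UU u a (fun z => max (lap φ z) 0) L)) -
      (Real.exp h - 1) * (d⁻¹ * (UU u a (fun z => max (-lap φ z) 0) L -
        UU u a (fun z => max (-lap φ z) 0) (L + d))) +
      (Real.exp h - 1) * ∫ z in {x | 0 < u L x}, φ z := by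
  have he := Real.exp_pos (-h)
  have he1 : Real.exp (-h) ≤ 1 := Real.exp_le_one_iff.2 (by linarith)
  have hL0 : 0 < L := by
    by_contra hcon
    push Not at hcon
    nlinarith
  have haL : a ≤ L := by nlinarith
  have hLe : 0 < L * Real.exp (-h) := ha.trans_le hL
  have hlc := Weak.continuous_lap hφ
  have hbp : Continuous fun z => max (lap φ z) 0 := hlc.max continuous_const
  have hbm : Continuous fun z => max (-lap φ z) 0 := hlc.neg.max continuous_const
  obtain ⟨V, V1, V2, V3, V4, V5, V6⟩ := Ctr.fam_odo hF hL0 hh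
  have e6 := V6 φ hφ hc
  -- integrability
  have hm : Integrable fun z => Real.exp h / L * (u (L * Real.exp (-h)) z - u L z) *
      max (lap φ z) 0 := by
    have := ((int_ub hF hbp hLe).sub (int_ub hF hbp hL0)).const_mul (Real.exp h / L)
    refine this.congr (Eventually.of_forall fun z => ?_)
    simp only [Pi.sub_apply]
    ring
  have hm' : Integrable fun z => Real.exp h / L * (u (L * Real.exp (-h)) z - u L z) *
      max (-lap φ z) 0 := by
    have := ((int_ub hF hbm hLe).sub (int_ub hF hbm hL0)).const_mul (Real.exp h / L)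
    refine this.congr (Eventually.of_forall fun z => ?_)
    simp only [Pi.sub_apply]
    ring
  have hLd : 0 < L + d := by linarith
  have hmd : Integrable fun z => (Real.exp h - 1) / d * (u L z - u (L + d) z) *
      max (-lap φ z) 0 := by
    have := ((int_ub hF hbm hL0).sub (int_ub hF hbm hLd)).const_mul ((Real.exp h - 1) / d)
    refine this.congr (Eventually.of_forall fun z => ?_)
    simp only [Pi.sub_apply]
    ring
  have hVp : Integrable fun z => V z * max (lap φ z) 0 := by
    refine hm.mono' (V1.mul hbp.measurable).aestronglyMeasurable (Eventually.of_forall fun z => ?_)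
    rw [Real.norm_eq_abs, abs_of_nonneg (mul_nonneg (V2 z) (le_max_right _ _))]
    exact mul_le_mul_of_nonneg_right (V5 z) (le_max_right _ _)
  have hVm : Integrable fun z => V z * max (-lap φ z) 0 := by
    refine hm'.mono' (V1.mul hbm.measurable).aestronglyMeasurable (Eventually.of_forall fun z => ?_)
    rw [Real.norm_eq_abs, abs_of_nonneg (mul_nonneg (V2 z) (le_max_right _ _))]
    exact mul_le_mul_of_nonneg_right (V5 z) (le_max_right _ _)
  have e7 : ∫ z, V z * lap φ z =
      (∫ z, V z * max (lap φ z) 0) - ∫ z, V z * max (-lap φ z) 0 := by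
    rw [← integral_sub hVp hVm]
    refine integral_congr_ae (Eventually.of_forall fun z => ?_)
    simp only
    rcases le_total 0 (lap φ z) with h1 | h1
    · rw [max_eq_left h1, max_eq_right (by linarith)]; ring
    · rw [max_eq_right h1, max_eq_left (by linarith)]; ring
  have i1 : ∫ z, V z * max (lap φ z) 0 ≤ Real.exp h * (L⁻¹ * (UU u a (fun z => max (lap φ z) 0)
      (L * Real.exp (-h)) - UU u a (fun z => max (lap φ z) 0) L)) := by
    have h1 : ∫ z, V z * max (lap φ z) 0 ≤
        ∫ z, Real.exp h / L * (u (L * Real.exp (-h)) z - u L z) * max (lap φ z) 0 :=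
      integral_mono hVp hm fun z => mul_le_mul_of_nonneg_right (V5 z) (le_max_right _ _)
    refine h1.trans (le_of_eq ?_)
    unfold UU
    rw [max_eq_left hL, max_eq_left haL, ← integral_sub (int_ub hF hbp hLe) (int_ub hF hbp hL0),
      ← integral_const_mul, ← integral_const_mul]
    refine integral_congr_ae (Eventually.of_forall fun z => ?_)
    simp only
    ring
  have i2 : (Real.exp h - 1) * (d⁻¹ * (UU u a (fun z => max (-lap φ z) 0) L -
      UU u a (fun z => max (-lap φ z) 0) (L + d))) ≤ ∫ z, V z * max (-lap φ z) 0 := by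
    have h1 : ∫ z, (Real.exp h - 1) / d * (u L z - u (L + d) z) * max (-lap φ z) 0 ≤
        ∫ z, V z * max (-lap φ z) 0 :=
      integral_mono hmd hVm fun z => mul_le_mul_of_nonneg_right (V4 d hd z) (le_max_right _ _)
    refine (le_of_eq ?_).trans h1
    unfold UU
    rw [max_eq_left haL, max_eq_left (by linarith : a ≤ L + d),
      ← integral_sub (int_ub hF hbm hL0) (int_ub hF hbm hLd),
      ← integral_const_mul, ← integral_const_mul]
    refine integral_congr_ae (Eventually.of_forall fun z => ?_)
    simp only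
    ring
  linarith

/-- the limit value -/
theorem ident {φ : ℂ → ℝ} (hφ : ContDiff ℝ 2 φ) (hc : HasCompactSupport φ) {l0 : ℂ → ℝ}
    (hl0 : Measurable l0) (h0 : ∀ L, 0 < L → ∀ z, 0 < u L z ↔ L < l0 z)
    {om : ℝ → ℝ} (hom : ContDiff ℝ ∞ om) (hoc : HasCompactSupport om)
    {a : ℝ} (ha : 0 < a) (hz : ∀ x, x < 2 * a → om x = 0) :
    (∫ L, deriv om L * UU u a (fun z => max (lap φ z) 0) L) -
      (∫ L, deriv om L * UU u a (fun z => max (-lap φ z) 0) L) + ∫ L, om L * ly φ l0 L =
      ∫ z, φ z * (om (l0 z) * (l0 z - μ z)) := by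
  have hlc := Weak.continuous_lap hφ
  have hbp : Continuous fun z => max (lap φ z) 0 := hlc.max continuous_const
  have hbm : Continuous fun z => max (-lap φ z) 0 := hlc.neg.max continuous_const
  have hd : Differentiable ℝ om := hom.differentiable (by norm_num)
  have hdc : Continuous (deriv om) := hom.continuous_deriv (by norm_num)
  have iφ : Integrable φ := hφ.continuous.integrable_of_hasCompactSupport hc
  have iμφ : Integrable (fun z => μ z * φ z) :=
    (hF.src.cont.mul hφ.continuous).integrable_of_hasCompactSupport hc.mul_left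
  have hd0 : ∀ x, x < 2 * a → deriv om x = 0 := by
    intro x hx
    have : om =ᶠ[𝓝 x] fun _ => 0 := by
      filter_upwards [Iio_mem_nhds hx] with y hy
      exact hz y hy
    rw [this.deriv_eq]
    simp
  have ip := int_bdd hdc hoc.deriv (UU_anti hF ha hbp fun z => le_max_right _ _).measurable
    (UU_bd hF ha hbp fun z => le_max_right _ _)
  have im := int_bdd hdc hoc.deriv (UU_anti hF ha hbm fun z => le_max_right _ _).measurable
    (UU_bd hF ha hbm fun z => le_max_right _ _)
  -- weak equation
  have wk : ∀ L, deriv om L * UU u a (fun z => max (lap φ z) 0) L -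
      deriv om L * UU u a (fun z => max (-lap φ z) 0) L =
      (deriv om L * L) * ly φ l0 L - deriv om L * ly (fun z => μ z * φ z) l0 L := by
    intro L
    rcases lt_or_ge L (2 * a) with h | h
    · rw [hd0 L h]; ring
    have hL : 0 < L := by linarith
    have e1 : UU u a (fun z => max (lap φ z) 0) L - UU u a (fun z => max (-lap φ z) 0) L =
        ∫ z, u L z * lap φ z := by
      unfold UU
      rw [max_eq_left (by linarith : a ≤ L), ← integral_sub (int_ub hF hbp hL) (int_ub hF hbm hL)]
      refine integral_congr_ae (Eventually.of_forall fun z => ?_)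
      simp only
      rcases le_total 0 (lap φ z) with h1 | h1
      · rw [max_eq_left h1, max_eq_right (by linarith)]; ring
      · rw [max_eq_right h1, max_eq_left (by linarith)]; ring
    have e2 := (Ctr.rate hF hL).weak hφ hc
    have hset : {z | L < l0 z} = {x | 0 < u L x} := by
      ext z; exact (h0 L hL z).symm
    have hm : MeasurableSet {x | 0 < u L x} := (Ctr.isOpen_pos hF hL).measurableSet
    have e3 : ∫ z, ({x | 0 < u L x}.indicator fun x => L - μ x) z * φ z =
        L * ly φ l0 L - ly (fun z => μ z * φ z) l0 L := by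
      unfold ly
      rw [hset, ← integral_const_mul, ← integral_sub (iφ.integrableOn.const_mul L) iμφ.integrableOn,
        ← integral_indicator hm]
      refine integral_congr_ae (Eventually.of_forall fun z => ?_)
      by_cases hz : z ∈ {x | 0 < u L x}
      · simp only [indicator_of_mem hz]; ring
      · simp only [indicator_of_notMem hz, zero_mul]
    rw [← mul_sub, e1, e2, e3]
    ring
  have hLd : ContDiff ℝ ∞ (fun L => L * om L) := contDiff_id.mul hom
  have hLc : HasCompactSupport (fun L => L * om L) := hoc.mul_left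
  have j1 := ly_fub iφ hl0 (om := fun L => deriv om L * L)
    ((hdc.mul continuous_id).integrable_of_hasCompactSupport hoc.deriv.mul_right)
  have j2 := ly_fub iμφ hl0 (om := deriv om) (hdc.integrable_of_hasCompactSupport hoc.deriv)
  have j3 := ly_fub iφ hl0 (om := om) (hom.continuous.integrable_of_hasCompactSupport hoc)
  have j12 : Integrable fun z => φ z * (∫ s in Iic (l0 z), deriv om s * s) -
      μ z * φ z * ∫ s in Iic (l0 z), deriv om s := j1.2.1.sub j2.2.1
  rw [← integral_sub ip im]
  simp_rw [wk]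
  rw [integral_sub j1.1 j2.1, j1.2.2, j2.2.2, j3.2.2, ← integral_sub j1.2.1 j2.2.1,
    ← integral_add j12 j3.2.1]
  refine integral_congr_ae (Eventually.of_forall fun z => ?_)
  simp only
  have k1 : ∫ s in Iic (l0 z), deriv om s = om (l0 z) := int_Iic hom hoc _
  have k2 : (∫ s in Iic (l0 z), deriv om s * s) + ∫ s in Iic (l0 z), om s = l0 z * om (l0 z) := by
    have q1 : Integrable (fun s => deriv om s * s) (volume.restrict (Iic (l0 z))) :=
      ((hdc.mul continuous_id).integrable_of_hasCompactSupport hoc.deriv.mul_right).integrableOn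
    have q2 : Integrable om (volume.restrict (Iic (l0 z))) :=
      (hom.continuous.integrable_of_hasCompactSupport hoc).integrableOn
    rw [← int_Iic hLd hLc (l0 z), ← integral_add q1 q2]
    refine integral_congr_ae (Eventually.of_forall fun s => ?_)
    have : HasDerivAt (fun L => L * om L) (1 * om s + s * deriv om s) s :=
      (hasDerivAt_id s).mul (hd s).hasDerivAt
    simp only
    rw [this.deriv]
    ring
  rw [k1]
  have : φ z * (∫ s in Iic (l0 z), deriv om s * s) - μ z * φ z * om (l0 z) +
      φ z * (∫ s in Iic (l0 z), om s) =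
      φ z * ((∫ s in Iic (l0 z), deriv om s * s) + ∫ s in Iic (l0 z), om s) -
        μ z * φ z * om (l0 z) := by ring
  rw [this, k2]
  ring

/-- the upper bound -/
theorem upper {φ : ℂ → ℝ} (hφ : ContDiff ℝ 2 φ) (hc : HasCompactSupport φ) {l0 : ℂ → ℝ}
    {lh : ℝ → ℂ → ℝ}
    (hl0 : Measurable l0) (h0 : ∀ L, 0 < L → ∀ z, 0 < u L z ↔ L < l0 z)
    (hlh : ∀ h, 0 < h → Measurable (lh h))
    (h1 : ∀ h, 0 < h → ∀ L, 0 < L → ∀ z, z ∈ Ctr.U h {x | 0 < u L x} ↔ L < lh h z)
    {om : ℝ → ℝ} (hom : ContDiff ℝ ∞ om) (hoc : HasCompactSupport om)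
    (hos : tsupport om ⊆ Ioi 0) (hom0 : ∀ x, 0 ≤ om x) {ε : ℝ} (hε : 0 < ε) :
    ∀ᶠ h : ℝ in 𝓝[>] 0, h⁻¹ * ((∫ L, om L * ly φ (lh h) L) - ∫ L, om L * ly φ l0 L) ≤
      (∫ z, φ z * (om (l0 z) * (l0 z - μ z))) + ε := by
  obtain ⟨a, ha, hz⟩ := near_zero hos
  have hlc := Weak.continuous_lap hφ
  have hbp : Continuous fun z => max (lap φ z) 0 := hlc.max continuous_const
  have hbm : Continuous fun z => max (-lap φ z) 0 := hlc.neg.max continuous_const
  have hd : Differentiable ℝ om := hom.differentiable (by norm_num)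
  have iφ : Integrable φ := hφ.continuous.integrable_of_hasCompactSupport hc
  have iom : Integrable om := hom.continuous.integrable_of_hasCompactSupport hoc
  set Up := UU u a (fun z => max (lap φ z) 0) with hUp
  set Um := UU u a (fun z => max (-lap φ z) 0) with hUm
  have hUpm : Measurable Up := (UU_anti hF ha hbp fun z => le_max_right _ _).measurable
  have hUmm : Measurable Um := (UU_anti hF ha hbm fun z => le_max_right _ _).measurable
  have hUpb : ∀ L, |Up L| ≤ Up a := UU_bd hF ha hbp fun z => le_max_right _ _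
  have hUmb : ∀ L, |Um L| ≤ Um a := UU_bd hF ha hbm fun z => le_max_right _ _
  set F0 := ∫ L, om L * ly φ l0 L with hF0
  have hid := ident hF hφ hc hl0 h0 hom hoc ha hz
  rw [← hUp, ← hUm, ← hF0] at hid
  -- the two derivatives
  set P : ℝ → ℝ := fun h => ∫ K, K⁻¹ * om (Real.exp h * K) * Up K with hP
  set Q : ℝ → ℝ := fun d => ∫ K, om (K - d) * Um K with hQ
  have dP : HasDerivAt P (∫ K, deriv om K * Up K) 0 := scale_deriv hom hoc hos hUpm hUpb
  have dQ : HasDerivAt Q (-∫ K, deriv om K * Um K) 0 := shift_deriv hom hoc hUmm hUmb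
  have tP := dP.tendsto_slope_zero_right
  have tQ := dQ.tendsto_slope_zero_right
  simp only [zero_add, smul_eq_mul] at tP tQ
  -- choose d
  obtain ⟨d, hd0, hdQ⟩ : ∃ d : ℝ, 0 < d ∧ (∫ K, deriv om K * Um K) - ε / 2 <
      d⁻¹ * (Q 0 - Q d) := by
    have e1 : ∀ᶠ d : ℝ in 𝓝[>] 0, d⁻¹ * (Q d - Q 0) < (-∫ K, deriv om K * Um K) + ε / 2 :=
      tQ.eventually (gt_mem_nhds (by linarith))
    obtain ⟨d, h2, h3⟩ := (e1.and self_mem_nhdsWithin).exists
    exact ⟨d, h3, by nlinarith [h2]⟩
  have texp : Tendsto (fun h : ℝ => Real.exp h) (𝓝[>] 0) (𝓝 1) := by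
    have := Real.continuous_exp.tendsto 0
    rw [Real.exp_zero] at this
    exact this.mono_left nhdsWithin_le_nhds
  have texp1 : Tendsto (fun h : ℝ => h⁻¹ * (Real.exp h - 1)) (𝓝[>] 0) (𝓝 1) := by
    have := (Real.hasDerivAt_exp 0).tendsto_slope_zero_right
    simpa using this
  have tR : Tendsto (fun h : ℝ => Real.exp h * (h⁻¹ * (P h - P 0)) -
      (h⁻¹ * (Real.exp h - 1)) * (d⁻¹ * (Q 0 - Q d)) + (h⁻¹ * (Real.exp h - 1)) * F0) (𝓝[>] 0)
      (𝓝 (1 * (∫ K, deriv om K * Up K) - 1 * (d⁻¹ * (Q 0 - Q d)) + 1 * F0)) :=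
    ((texp.mul tP).sub (texp1.mul_const _)).add (texp1.mul_const _)
  have hlt : 1 * (∫ K, deriv om K * Up K) - 1 * (d⁻¹ * (Q 0 - Q d)) + 1 * F0 <
      (∫ z, φ z * (om (l0 z) * (l0 z - μ z))) + ε := by
    linarith
  filter_upwards [tR.eventually (gt_mem_nhds hlt), Ioo_mem_nhdsGT (Real.log_pos one_lt_two)]
    with h hR hh
  refine le_trans ?_ hR.le
  have hh0 : 0 < h := hh.1
  have he : (1 : ℝ) / 2 ≤ Real.exp (-h) := by
    rw [Real.exp_neg, one_div]
    refine inv_anti₀ (Real.exp_pos _) ?_
    rw [← Real.exp_log (by norm_num : (0 : ℝ) < 2)]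
    exact Real.exp_le_exp.2 hh.2.le
  have eP : P h = ∫ L, L⁻¹ * om L * Up (L * Real.exp (-h)) := by
    have h2 := Measure.integral_comp_mul_left
      (fun L => L⁻¹ * om L * Up (L * Real.exp (-h))) (Real.exp h)
    have e3 : ∀ K : ℝ, (Real.exp h * K)⁻¹ * om (Real.exp h * K) *
        Up (Real.exp h * K * Real.exp (-h)) =
        Real.exp (-h) * (K⁻¹ * om (Real.exp h * K) * Up K) := by
      intro K
      have : Real.exp h * K * Real.exp (-h) = K := by
        rw [mul_comm (Real.exp h) K, mul_assoc, ← Real.exp_add]; simp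
      rw [this, mul_inv, ← Real.exp_neg]
      ring
    simp_rw [e3] at h2
    rw [integral_const_mul, abs_of_pos (inv_pos.2 (Real.exp_pos h)), ← Real.exp_neg,
      smul_eq_mul] at h2
    exact mul_left_cancel₀ (Real.exp_pos (-h)).ne' h2
  have eP0 : P 0 = ∫ L, L⁻¹ * om L * Up L := by
    simp only [hP, Real.exp_zero, one_mul]
  have eQ : Q d = ∫ L, om L * Um (L + d) := by
    have := integral_sub_right_eq_self (μ := (volume : Measure ℝ)) (fun L => om L * Um (L + d)) d
    rw [← this]
    simp only [hQ, sub_add_cancel]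
  have eQ0 : Q 0 = ∫ L, om L * Um L := by
    simp only [hQ, sub_zero]
  have hwc := w_cont hom.continuous hos
  have hwk := w_cpt hoc
  have g1 : Integrable fun L => L⁻¹ * om L * Up (L * Real.exp (-h)) :=
    int_bdd hwc hwk (hUpm.comp (measurable_id.mul_const _)) fun x => hUpb _
  have g0 : Integrable fun L => L⁻¹ * om L * Up L := int_bdd hwc hwk hUpm hUpb
  have k1 : Integrable fun L => om L * Um (L + d) :=
    int_bdd hom.continuous hoc (hUmm.comp (measurable_id.add_const _)) fun x => hUmb _
  have k0 : Integrable fun L => om L * Um L := int_bdd hom.continuous hoc hUmm hUmb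
  have m1 := (ly_fub iφ (hlh h hh0) iom).1
  have m0 := (ly_fub iφ hl0 iom).1
  have main : (∫ L, om L * ly φ (lh h) L) - ∫ L, om L * ly φ l0 L ≤
      Real.exp h * (P h - P 0) - (Real.exp h - 1) * (d⁻¹ * (Q 0 - Q d)) +
        (Real.exp h - 1) * F0 := by
    have n1 : Integrable fun L => Real.exp h * (L⁻¹ * om L * Up (L * Real.exp (-h)) -
        L⁻¹ * om L * Up L) := (g1.sub g0).const_mul _
    have n2 : Integrable fun L => (Real.exp h - 1) * (d⁻¹ * (om L * Um L - om L * Um (L + d))) :=
      ((k0.sub k1).const_mul _).const_mul _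
    have n3 : Integrable fun L => (Real.exp h - 1) * (om L * ly φ l0 L) := m0.const_mul _
    have n12 : Integrable fun L => Real.exp h * (L⁻¹ * om L * Up (L * Real.exp (-h)) -
        L⁻¹ * om L * Up L) - (Real.exp h - 1) * (d⁻¹ * (om L * Um L - om L * Um (L + d))) :=
      n1.sub n2
    rw [← integral_sub m1 m0, eP, eP0, eQ, eQ0, hF0, ← integral_sub g1 g0, ← integral_sub k0 k1,
      ← integral_const_mul, ← integral_const_mul, ← integral_const_mul, ← integral_const_mul,
      ← integral_sub n1 n2, ← integral_add n12 n3]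
    refine integral_mono (m1.sub m0) (n12.add n3) fun L => ?_
    simp only
    rcases lt_or_ge L (2 * a) with hL | hL
    · rw [hz L hL]
      simp
    · have hL0 : 0 < L := by linarith
      have hLa : a ≤ L * Real.exp (-h) := by nlinarith
      have h2 := step hF hφ hc ha hh0 hd0 hLa
      have s1 : {z | L < lh h z} = Ctr.U h {x | 0 < u L x} := by
        ext z; exact (h1 h hh0 L hL0 z).symm
      have s0 : {z | L < l0 z} = {x | 0 < u L x} := by
        ext z; exact (h0 L hL0 z).symm
      have h3 := mul_le_mul_of_nonneg_left h2 (hom0 L)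
      rw [← hUp, ← hUm, ← s1, ← s0] at h3
      have e1 : (∫ z in {z | L < lh h z}, φ z) = ly φ (lh h) L := rfl
      have e2 : (∫ z in {z | L < l0 z}, φ z) = ly φ l0 L := rfl
      rw [e1, e2] at h3
      calc om L * ly φ (lh h) L - om L * ly φ l0 L = om L * (ly φ (lh h) L - ly φ l0 L) := by ring
        _ ≤ _ := h3
        _ = _ := by ring
  have hi : 0 < h⁻¹ := inv_pos.2 hh0
  calc h⁻¹ * ((∫ L, om L * ly φ (lh h) L) - F0)
      ≤ h⁻¹ * (Real.exp h * (P h - P 0) - (Real.exp h - 1) * (d⁻¹ * (Q 0 - Q d)) +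
        (Real.exp h - 1) * F0) := mul_le_mul_of_nonneg_left main hi.le
    _ = _ := by ring

end fam

/-- the pairing with the increments of the levels -/
theorem pair_eq {φ : ℂ → ℝ} (hφ : Integrable φ) {l0 l1 : ℂ → ℝ} (h0 : Measurable l0)
    (h1 : Measurable l1) {om : ℝ → ℝ} (hom : Integrable om) :
    Integrable (fun z => φ z * ∫ s in (l0 z)..(l1 z), om s) ∧
    ∫ z, φ z * ∫ s in (l0 z)..(l1 z), om s =
      (∫ L, om L * ly φ l1 L) - ∫ L, om L * ly φ l0 L := by
  have j0 := ly_fub hφ h0 hom
  have j1 := ly_fub hφ h1 hom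
  have e : ∀ z, φ z * ∫ s in (l0 z)..(l1 z), om s =
      φ z * (∫ s in Iic (l1 z), om s) - φ z * ∫ s in Iic (l0 z), om s := by
    intro z
    rw [← intervalIntegral.integral_Iic_sub_Iic hom.integrableOn hom.integrableOn]
    ring
  constructor
  · simp_rw [e]
    exact j1.2.1.sub j0.2.1
  · simp_rw [e]
    rw [j0.2.2, j1.2.2, integral_sub j1.2.1 j0.2.1]

theorem int_rhs {φ μ l0 : ℂ → ℝ} (hφ : Integrable φ) (hμ : Continuous μ) (hμc : HasCompactSupport μ)
    (hl0 : Measurable l0) {om : ℝ → ℝ} (hom : Continuous om) (hoc : HasCompactSupport om) :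
    Integrable fun z => φ z * (om (l0 z) * (l0 z - μ z)) := by
  obtain ⟨T, M, hT0, hM0, hT, hM⟩ := exists_T hom hoc
  obtain ⟨A, hA⟩ := hμc.exists_bound_of_continuous hμ
  have hA0 : 0 ≤ A := (norm_nonneg _).trans (hA 0)
  have hb : ∀ z, ‖om (l0 z) * (l0 z - μ z)‖ ≤ M * (T + A) := by
    intro z
    rw [Real.norm_eq_abs, abs_mul]
    by_cases h : T < |l0 z|
    · rw [hT _ h, abs_zero, zero_mul]; positivity
    · push Not at h
      have h2 : |l0 z - μ z| ≤ |l0 z| + |μ z| := abs_sub _ _
      have h3 : |μ z| ≤ A := hA z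
      exact mul_le_mul (hM _) (by linarith) (abs_nonneg _) hM0
  have := hφ.bdd_mul (f := fun z => om (l0 z) * (l0 z - μ z)) (c := M * (T + A))
    (((hom.measurable.comp hl0).mul (hl0.sub hμ.measurable)).aestronglyMeasurable)
    (Eventually.of_forall hb)
  refine this.congr (Eventually.of_forall fun z => ?_)
  simp only
  ring

/-- **THE WEAK SPEED LAW** -/
theorem speed {μ : ℂ → ℝ} {C : ℝ} {u : ℝ → ℂ → ℝ} (hF : O.Fam μ C u) {l0 : ℂ → ℝ}
    {lh : ℝ → ℂ → ℝ} (hl0 : Measurable l0) (h0 : ∀ L, 0 < L → ∀ z, 0 < u L z ↔ L < l0 z)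
    (hlh : ∀ h, 0 < h → Measurable (lh h))
    (h1 : ∀ h, 0 < h → ∀ L, 0 < L → ∀ z, z ∈ Ctr.U h {x | 0 < u L x} ↔ L < lh h z) :
    Ext17.Speed μ l0 lh := by
  intro φ hφ hc
  -- nonnegative weights
  have pos : ∀ om : ℝ → ℝ, ContDiff ℝ ∞ om → HasCompactSupport om → tsupport om ⊆ Ioi 0 →
      (∀ x, 0 ≤ om x) →
      Tendsto (fun h : ℝ => h⁻¹ * ∫ z, φ z * ∫ s in (l0 z)..(lh h z), om s) (𝓝[>] 0)
        (𝓝 (∫ z, φ z * (om (l0 z) * (l0 z - μ z)))) := by
    intro om hom hoc hos hom0
    have iom : Integrable om := hom.continuous.integrable_of_hasCompactSupport hoc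
    have iφ : Integrable φ := hφ.continuous.integrable_of_hasCompactSupport hc
    have hφ2 : ContDiff ℝ 2 φ := by exact_mod_cast contDiff_infty.1 hφ 2
    have hn2 : ContDiff ℝ 2 (fun z => -φ z) := hφ2.neg
    have hnc : HasCompactSupport (fun z => -φ z) := hc.neg
    rw [Metric.tendsto_nhds]
    intro ε hε
    have a1 := upper hF hφ2 hc hl0 h0 hlh h1 hom hoc hos hom0 (half_pos hε)
    have a2 := upper hF hn2 hnc hl0 h0 hlh h1 hom hoc hos hom0 (half_pos hε)
    filter_upwards [a1, a2, self_mem_nhdsWithin] with h b1 b2 b3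
    have hh : 0 < h := b3
    rw [← (pair_eq iφ hl0 (hlh h hh) iom).2] at b1
    have inφ : Integrable (fun z => -φ z) := iφ.neg
    rw [← (pair_eq inφ hl0 (hlh h hh) iom).2] at b2
    have c1 : ∫ z, -φ z * ∫ s in (l0 z)..(lh h z), om s =
        -∫ z, φ z * ∫ s in (l0 z)..(lh h z), om s := by
      rw [← integral_neg]
      exact integral_congr_ae (Eventually.of_forall fun z => by simp only; ring)
    have c2 : ∫ z, -φ z * (om (l0 z) * (l0 z - μ z)) =
        -∫ z, φ z * (om (l0 z) * (l0 z - μ z)) := by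
      rw [← integral_neg]
      exact integral_congr_ae (Eventually.of_forall fun z => by simp only; ring)
    rw [c2] at b2
    rw [Real.dist_eq, abs_lt]
    constructor
    · have : h⁻¹ * -(∫ z, φ z * ∫ s in (l0 z)..(lh h z), om s) ≤
          -(∫ z, φ z * (om (l0 z) * (l0 z - μ z))) + ε / 2 := by
        rw [← c1]; exact b2
      linarith
    · linarith
  intro om hom hoc hos
  obtain ⟨T, M, hT0, hM0, hT, hM⟩ := exists_T hom.continuous hoc
  obtain ⟨a, ha, hz⟩ := near_zero hos
  obtain ⟨k, hk⟩ := exists_nat_ge (max T a⁻¹)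
  obtain ⟨χ, c1, c2, c3, c4, c5, c6⟩ := Ext17.exists_cut k
  have hge : ∀ x, 0 ≤ om x + M * χ x := by
    intro x
    by_cases hx : om x = 0
    · rw [hx, zero_add]; exact mul_nonneg hM0 (c4 x)
    · have h2 : 2 * a ≤ x := by
        by_contra hcon
        exact hx (hz x (not_le.1 hcon))
      have h3 : |x| ≤ T := by
        by_contra hcon
        exact hx (hT x (not_le.1 hcon))
      have h4 : χ x = 1 := by
        refine c6 x ?_ ?_
        · have h5 : a⁻¹ ≤ (k : ℝ) + 2 := ((le_max_right _ _).trans hk).trans (by linarith)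
          have h6 : ((k : ℝ) + 2)⁻¹ ≤ a := inv_le_of_inv_le₀ ha h5
          linarith
        · have := (le_abs_self x).trans h3
          have h7 := (le_max_left T a⁻¹).trans hk
          linarith
      rw [h4, mul_one]
      linarith [neg_le_of_abs_le (hM x)]
  have iom : Integrable om := hom.continuous.integrable_of_hasCompactSupport hoc
  have iχ : Integrable (fun x => M * χ x) :=
    (c1.continuous.integrable_of_hasCompactSupport c2).const_mul M
  have iφ : Integrable φ := hφ.continuous.integrable_of_hasCompactSupport hc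
  have t1 := pos (fun x => om x + M * χ x) (hom.add (contDiff_const.mul c1))
    (hoc.add c2.mul_left) ((tsupport_add _ _).trans (union_subset hos
      ((tsupport_mul_subset_right).trans c3))) hge
  have t2 := pos (fun x => M * χ x) (contDiff_const.mul c1) c2.mul_left
    ((tsupport_mul_subset_right).trans c3) (fun x => mul_nonneg hM0 (c4 x))
  have t3 := t1.sub t2
  have e1 : ∀ᶠ h : ℝ in 𝓝[>] 0, (h⁻¹ * ∫ z, φ z * ∫ s in (l0 z)..(lh h z), (om s + M * χ s)) -
      (h⁻¹ * ∫ z, φ z * ∫ s in (l0 z)..(lh h z), M * χ s) =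
      h⁻¹ * ∫ z, φ z * ∫ s in (l0 z)..(lh h z), om s := by
    filter_upwards [self_mem_nhdsWithin] with h hh
    have hh' : (0 : ℝ) < h := hh
    have isum : Integrable (fun s => om s + M * χ s) := iom.add iχ
    rw [← mul_sub, ← integral_sub (pair_eq iφ hl0 (hlh h hh') isum).1
      (pair_eq iφ hl0 (hlh h hh') iχ).1]
    congr 1
    refine integral_congr_ae (Eventually.of_forall fun z => ?_)
    simp only
    rw [intervalIntegral.integral_add iom.intervalIntegrable iχ.intervalIntegrable]
    ring
  have hμ := hF.src.cont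
  have hμc := hF.src.cpt
  have r1 : Integrable fun z => φ z * ((om (l0 z) + M * χ (l0 z)) * (l0 z - μ z)) :=
    int_rhs iφ hμ hμc hl0 (om := fun x => om x + M * χ x)
      (hom.add (contDiff_const.mul c1)).continuous (hoc.add c2.mul_left)
  have r2 : Integrable fun z => φ z * (M * χ (l0 z) * (l0 z - μ z)) :=
    int_rhs iφ hμ hμc hl0 (om := fun x => M * χ x) (contDiff_const.mul c1).continuous c2.mul_left
  have e2 : (∫ z, φ z * ((om (l0 z) + M * χ (l0 z)) * (l0 z - μ z))) -
      ∫ z, φ z * (M * χ (l0 z) * (l0 z - μ z)) = ∫ z, φ z * (om (l0 z) * (l0 z - μ z)) := by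
    rw [← integral_sub r1 r2]
    refine integral_congr_ae (Eventually.of_forall fun z => ?_)
    simp only
    ring
  rw [← e2]
  exact t3.congr' e1

end Pool.Agent.Lib.QNL.Weak16
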