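import Pool.Agent.Lib.QNL.Geo46
import Pool.Agent.Lib.QNL.Low77
import Pool.Agent.Lib.QNL.Weak16
import Pool.Agent.Lib.QNL.Joint17

/-!
Room QNL: the two geometric hypotheses of `Low77` (`StmtGeo`, `StmtRet`), without hypotheses.
-/

set_option autoImplicit false

namespace Pool.Agent.Lib.QNL.GeoFin46

open MeasureTheory Filter Topology Set
open scoped ENNReal
open Pool.Agent.Lib.QNL.FinN Pool.Agent.Lib.QNL.Lev32

/-- the geometry of the expansions -/
theorem stmtGeo : Low77.StmtGeo := by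
  intro p r hr hrp hp2 x hx hxc C u hu
  obtain ⟨M, hM0, hM⟩ := exists_bound hx hxc (by linarith : 0 < r)
  exact ⟨Geo46.flow hu.fam hr hrp hM0 hM, Geo46.hvol hr hrp hx hxc hu.fam⟩

/-- the two level functions agree -/
theorem lL_eq {μ : ℂ → ℝ} {C : ℝ} {u : ℝ → ℂ → ℝ} (hu : FamU μ C u) (l : ℝ) (z : ℂ) :
    Geo46.lL (O.psi u) l z = lv (fun L => Ctr.U l {z | 0 < u L z}) z := by
  unfold Geo46.lL lv
  congr 1
  ext L
  constructor
  · rintro ⟨h1, h2⟩
    have h3 : z ∈ Ctr.U l {z | 0 < O.psi u L z} := h2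
    rw [hu.pos L h1] at h3
    exact ⟨h1, h3⟩
  · rintro ⟨h1, h2⟩
    have h3 : z ∈ Ctr.U l {z | 0 < u L z} := h2
    rw [← hu.pos L h1] at h3
    exact ⟨h1, h3⟩

/-- the weak speed law for the levels of the expansions -/
theorem speed {μ : ℂ → ℝ} {C : ℝ} {u : ℝ → ℂ → ℝ} (hu : FamU μ C u) {M : ℝ} (hM0 : 0 ≤ M)
    (hM : ∀ z, μ z ≤ M) : Ext17.Speed μ (lev (O.psi u) 0) (Geo46.lL (O.psi u)) := by
  refine Weak16.speed hu.ofam (measurable_lev hu.fam hM) (fun L hL z => ?_)
    (fun h hh => ((Geo46.expandL hu.fam hM0 hM).nest h hh.le).measurable) fun h _ L hL z => ?_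
  · rw [← mem_iff hu.fam hM hL]
    have := hu.pos L hL
    constructor
    · intro h1
      have h2 : z ∈ {z | 0 < u L z} := h1
      rw [← this] at h2
      exact h2
    · intro h1
      have h2 : z ∈ {z | 0 < O.psi u L z} := h1
      rw [this] at h2
      exact h2
  · rw [lL_eq hu]
    exact Joint.mem_iff hu.ofam h hL z

/-- (C) the retention inequality -/
theorem stmtRet : Low77.StmtRet := by
  intro p r hr hrp hp2 x hx hxc C u hu k1 hk0 hkm hka hkmom
  obtain ⟨M, hM0, hM⟩ := exists_bound hx hxc (by linarith : 0 < r)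
  have hw := w_pos hr hrp
  refine Geo46.ret hr hrp hp2 hx hxc hu.fam hu.ofam ⟨hu.pos⟩ (speed hu hM0 hM)
    ⟨hk0, hkm, hkmom, fun l h hl hh => ?_⟩
  have h1 : k1 (l + h) ≤ k1 l := hka hl (by show 0 < l + h; linarith) (by linarith)
  have h2 : 1 ≤ Real.exp ((1 - r / p) * p / 4 * h) := by
    apply Real.one_le_exp
    have : 0 < p := by linarith
    positivity
  have := hk0 l
  nlinarith

end Pool.Agent.Lib.QNL.GeoFin46
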