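import Pool.Agent.Lib.QNL.Last58
import Pool.Agent.Lib.QNL.Low77
import Pool.Agent.Lib.QNL.GeoFin46

/-!
`StmtRefundG` of the final assembly, unconditional.
-/

set_option autoImplicit false

namespace Pool.Agent.Lib.QNL.Low77

theorem stmtRefundG : Asm.StmtRefundG := by
  intro p c r k1 _ hp2 hc hr hrp h0 hle ha
  exact refund GeoFin46.stmtGeo GeoFin46.stmtRet hr hrp hp2 hc h0 hle ha

/-- the frozen inequality from the numeric certificates alone -/
theorem frz_of_certG (hN : Asm.StmtCertG) (n : ℕ) : Fin.Frz n :=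
  Asm.frz_all stmtRefundG hN n

end Pool.Agent.Lib.QNL.Low77
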