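import Pool.Agent.Lib.QNL.LpOp31
import Pool.Agent.Lib.QNL.RefG77
import Pool.Agent.Lib.QNL.Reg95
import Pool.Agent.Lib.QNL.Last58

/-!
The full statement for all powers and all exponents from the certificates for `n ≥ 3`.
-/

set_option autoImplicit false

namespace Pool.Agent.Lib.QNL.Full31

open MeasureTheory SchwartzMap
open scoped SchwartzMap ENNReal
open Pool.Agent.Lib.QNL

/-- the bound for every power from the certificates for `n ≥ 3` -/
theorem lowH_all (h : CG.CertAll 3) (n : ℕ) : StmtLowH n := by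
  rcases n with _ | _ | _ | n
  · exact LpOp31.lowH_zero
  · exact Asm.lowH_one
  · exact Asm.lowH_two
  · exact Low77.lowH_of_certG Main19.famU F31.stmtF GeoFin46.stmtGeo GeoFin46.stmtRet (by omega)
      fun p hp1 hp2 => h.at_p (by omega) hp1 hp2

/-- the frozen inequality for every power -/
theorem frz (h : CG.CertAll 3) (n : ℕ) : Fin.Frz n :=
  frozen_of_lowN (lowN_of_lowH (lowH_all h n))

/-- the statement with the operators on `L^p`, written out -/
theorem full (h : CG.CertAll 3) (p : ℝ) (hp : 1 < p) [Fact (1 ≤ ENNReal.ofReal p)] :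
    (∃! T : Lp ℂ (ENNReal.ofReal p) (volume : Measure ℂ) →L[ℂ]
        Lp ℂ (ENNReal.ofReal p) (volume : Measure ℂ), ∀ f : SchwartzMap ℂ ℂ,
      (T (f.toLp (ENNReal.ofReal p) volume) : ℂ → ℂ) =ᵐ[volume]
        fun z : ℂ => ∫ ξ : ℂ,
          Complex.exp (2 * (Real.pi : ℂ) * Complex.I * (((z.re * ξ.re + z.im * ξ.im : ℝ)) : ℂ)) *
            (starRingEnd ℂ ξ / ξ *
              ∫ x : ℂ, Complex.exp (-(2 * (Real.pi : ℂ) * Complex.I *
                (((x.re * ξ.re + x.im * ξ.im : ℝ)) : ℂ))) * f x)) ∧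
    ∀ T : Lp ℂ (ENNReal.ofReal p) (volume : Measure ℂ) →L[ℂ]
        Lp ℂ (ENNReal.ofReal p) (volume : Measure ℂ), (∀ f : SchwartzMap ℂ ℂ,
      (T (f.toLp (ENNReal.ofReal p) volume) : ℂ → ℂ) =ᵐ[volume]
        fun z : ℂ => ∫ ξ : ℂ,
          Complex.exp (2 * (Real.pi : ℂ) * Complex.I * (((z.re * ξ.re + z.im * ξ.im : ℝ)) : ℂ)) *
            (starRingEnd ℂ ξ / ξ *
              ∫ x : ℂ, Complex.exp (-(2 * (Real.pi : ℂ) * Complex.I *
                (((x.re * ξ.re + x.im * ξ.im : ℝ)) : ℂ))) * f x)) →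
    ∀ n : ℕ, (∀ f : SchwartzMap ℂ ℂ,
      ((T ^ n) (f.toLp (ENNReal.ofReal p) volume) : ℂ → ℂ) =ᵐ[volume]
        fun z : ℂ => ∫ ξ : ℂ,
          Complex.exp (2 * (Real.pi : ℂ) * Complex.I * (((z.re * ξ.re + z.im * ξ.im : ℝ)) : ℂ)) *
            ((starRingEnd ℂ ξ / ξ) ^ n *
              ∫ x : ℂ, Complex.exp (-(2 * (Real.pi : ℂ) * Complex.I *
                (((x.re * ξ.re + x.im * ξ.im : ℝ)) : ℂ))) * f x)) ∧
      ‖T ^ n‖ ≤ max ((ascPochhammer ℝ n).eval (1 - 1 / p) / (ascPochhammer ℝ n).eval (1 / p))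
        ((ascPochhammer ℝ n).eval (1 / p) / (ascPochhammer ℝ n).eval (1 - 1 / p)) := by
  have h2 := LpOp31.full (fun n => lowH_all h n) p hp
  have e : ∀ T : Lp ℂ (ENNReal.ofReal p) (volume : Measure ℂ) →L[ℂ]
        Lp ℂ (ENNReal.ofReal p) (volume : Measure ℂ), (∀ f : SchwartzMap ℂ ℂ,
      (T (f.toLp (ENNReal.ofReal p) volume) : ℂ → ℂ) =ᵐ[volume]
        fun z : ℂ => ∫ ξ : ℂ,
          Complex.exp (2 * (Real.pi : ℂ) * Complex.I * (((z.re * ξ.re + z.im * ξ.im : ℝ)) : ℂ)) *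
            (starRingEnd ℂ ξ / ξ *
              ∫ x : ℂ, Complex.exp (-(2 * (Real.pi : ℂ) * Complex.I *
                (((x.re * ξ.re + x.im * ξ.im : ℝ)) : ℂ))) * f x)) ↔ LpOp31.IsExt 1 T := by
    intro T
    unfold LpOp31.IsExt Pool.Agent.Lib.MP_dd244f_an.Tn
    simp only [pow_one]
  simp only [e]
  exact h2

theorem asc_mono (n : ℕ) {x y : ℝ} (hx : 0 < x) (h : x ≤ y) :
    (ascPochhammer ℝ n).eval x ≤ (ascPochhammer ℝ n).eval y := by
  induction n with
  | zero => simp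
  | succ n ih =>
    rw [ascPochhammer_succ_eval, ascPochhammer_succ_eval]
    exact mul_le_mul ih (by linarith) (by positivity)
      (ascPochhammer_pos n y (hx.trans_le h)).le

theorem max_eq {p : ℝ} (hp : 2 ≤ p) (n : ℕ) :
    max ((ascPochhammer ℝ n).eval (1 - 1 / p) / (ascPochhammer ℝ n).eval (1 / p))
      ((ascPochhammer ℝ n).eval (1 / p) / (ascPochhammer ℝ n).eval (1 - 1 / p)) =
    (ascPochhammer ℝ n).eval (1 - 1 / p) / (ascPochhammer ℝ n).eval (1 / p) := by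
  have h0 : 0 < 1 / p := by positivity
  have h1 : 1 / p ≤ 1 / 2 := one_div_le_one_div_of_le (by norm_num) hp
  have h2 := asc_mono n h0 (by linarith : 1 / p ≤ 1 - 1 / p)
  have h3 := ascPochhammer_pos n (1 / p) h0
  have h4 := ascPochhammer_pos n (1 - 1 / p) (by linarith : 0 < 1 - 1 / p)
  refine max_eq_left ?_
  exact ((div_le_one h4).2 h2).trans ((one_le_div h3).2 h2)

theorem max_eq' {p : ℝ} (h1 : 1 < p) (hp : p ≤ 2) (n : ℕ) :
    max ((ascPochhammer ℝ n).eval (1 - 1 / p) / (ascPochhammer ℝ n).eval (1 / p))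
      ((ascPochhammer ℝ n).eval (1 / p) / (ascPochhammer ℝ n).eval (1 - 1 / p)) =
    (ascPochhammer ℝ n).eval (1 / p) / (ascPochhammer ℝ n).eval (1 - 1 / p) := by
  have h0 : 0 < 1 / p := by positivity
  have h5 : 1 / p < 1 := by rw [div_lt_one (by linarith)]; exact h1
  have h6 : 1 / 2 ≤ 1 / p := one_div_le_one_div_of_le (by linarith) hp
  have h2 := asc_mono n (by linarith : 0 < 1 - 1 / p) (by linarith : 1 - 1 / p ≤ 1 / p)
  have h3 := ascPochhammer_pos n (1 / p) h0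
  have h4 := ascPochhammer_pos n (1 - 1 / p) (by linarith : 0 < 1 - 1 / p)
  refine max_eq_right ?_
  exact ((div_le_one h3).2 h2).trans ((one_le_div h4).2 h2)

/-- the two ranges separately -/
theorem norm_two {p x : ℝ} (hp : 1 < p) (n : ℕ)
    (h : x ≤ max ((ascPochhammer ℝ n).eval (1 - 1 / p) / (ascPochhammer ℝ n).eval (1 / p))
      ((ascPochhammer ℝ n).eval (1 / p) / (ascPochhammer ℝ n).eval (1 - 1 / p))) :
    (2 ≤ p → x ≤ (ascPochhammer ℝ n).eval (1 - 1 / p) / (ascPochhammer ℝ n).eval (1 / p)) ∧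
    (p ≤ 2 → x ≤ (ascPochhammer ℝ n).eval (1 / p) / (ascPochhammer ℝ n).eval (1 - 1 / p)) :=
  ⟨fun h2 => (max_eq h2 n) ▸ h, fun h2 => (max_eq' hp h2 n) ▸ h⟩

end Pool.Agent.Lib.QNL.Full31
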