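import Pool.Agent.Lib.QNL.ST

/-!
Group T / C, item (G7): transport for the canonical expansion of `D`.

`B` is any monotone family of open sets which contains, at time `s`, the domains
`{0 < ψ (exp (-s))}` of all smooth sources `0 ≤ μ ≤ 1` with support in `D`
(so `B s = U_s D`).
-/

set_option autoImplicit false

namespace Pool.Agent.Lib.QNL
namespace G7_

open MeasureTheory Filter Topology Set
open scoped ENNReal ContDiff Interval

/-- an antitone function is a.e. continuous from the right along `x + ρ`, `ρ → 0+` -/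
theorem tendsto_shift {e : ℝ → ℝ} (he : Antitone e) :
    ∀ᵐ x : ℝ, Tendsto (fun ρ : ℝ => e (x + ρ)) (𝓝[>] 0) (𝓝 (e x)) := by
  have h1 : {x : ℝ | ¬ ContinuousAt e x}.Countable := he.countable_not_continuousAt
  have h2 : ∀ᵐ x : ℝ, ContinuousAt e x := by
    rw [ae_iff]
    exact h1.measure_zero volume
  filter_upwards [h2] with x hx
  have h3 : Tendsto (fun ρ : ℝ => x + ρ) (𝓝[>] 0) (𝓝 x) := by
    have h4 : Tendsto (fun ρ : ℝ => x + ρ) (𝓝 0) (𝓝 (x + 0)) :=
      (continuous_const.add continuous_id).tendsto 0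
    rw [add_zero] at h4
    exact h4.mono_left nhdsWithin_le_nhds
  exact hx.tendsto.comp h3

/-- integrals of shifted antitone functions -/
theorem tendsto_int {e g : ℝ → ℝ} (he : Antitone e) (hg : Continuous g) {M : ℝ}
    (hM : ∀ x, ‖e x‖ ≤ M) (ℓ : ℝ) :
    Tendsto (fun ρ : ℝ => ∫ x in (0 : ℝ)..ℓ, g x * e (x + ρ)) (𝓝[>] 0)
      (𝓝 (∫ x in (0 : ℝ)..ℓ, g x * e x)) := by
  refine intervalIntegral.tendsto_integral_filter_of_dominated_convergence
    (fun x => ‖g x‖ * M) ?_ ?_ ?_ ?_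
  · refine Eventually.of_forall fun ρ => ?_
    have h1 : Measurable (fun x => e (x + ρ)) := he.measurable.comp (measurable_id.add_const ρ)
    exact (hg.measurable.mul h1).aestronglyMeasurable
  · refine Eventually.of_forall fun ρ => ae_of_all _ fun x _ => ?_
    rw [norm_mul]
    exact mul_le_mul_of_nonneg_left (hM _) (norm_nonneg _)
  · exact (hg.norm.mul continuous_const).intervalIntegrable _ _
  · filter_upwards [tendsto_shift he] with x hx _
    exact hx.const_mul _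

/-- **(G7)** -/
theorem transport_exp (Q : (ℂ → ℝ) → (ℝ → ℂ → ℝ) → Prop)
    (hfam : StmtFamS Q)
    {n : ℕ} {ℓ : ℝ} {p r : ℕ → ℝ} {w w' : ℕ → ℝ → ℝ} (hc : Chain n ℓ p r w w') (X : H)
    {D : Set ℂ} (hD : IsOpen D) (hb : Bornology.IsBounded D) {B : ℝ → Set ℂ} (hB : Monotone B)
    (hQB : ∀ (μ : ℂ → ℝ) (ψ : ℝ → ℂ → ℝ), ContDiff ℝ ∞ μ → HasCompactSupport μ →
      tsupport μ ⊆ D → (∀ z, 0 ≤ μ z) → (∀ z, μ z ≤ 1) → Fam μ ψ → Q μ ψ →
      ∀ s, 0 < s → {z | 0 < ψ (Real.exp (-s)) z} ⊆ B s) :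
    (∫ x in (0 : ℝ)..ℓ, exitD w w' r n x * E n (B x) X) +
      (∫ x in (0 : ℝ)..ℓ, extrD w w' p x * E 0 (B x) X) ≤
      ∑ j ∈ Finset.range n, w j 0 * (E j D X / p j + E (j + 1) D X / r j) := by
  have hℓ := hc.ell
  have hn1 : n - 1 < n := by have := hc.pos; omega
  have hn0 : 0 < n := hc.pos
  have hwc : ∀ j, j < n → Continuous (w j) := fun j hj =>
    continuous_iff_continuousAt.2 fun x => (hc.deriv j hj x).continuousAt
  have hexc : Continuous (exitD w w' r n) :=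
    (hwc _ hn1).sub ((hc.cont _ hn1).div_const _)
  have hxtc : Continuous (extrD w w' p) :=
    ((hwc _ hn0).add ((hc.cont _ hn0).div_const _)).neg
  set S : ℝ := ∑ j ∈ Finset.range n, w j 0 * (E j D X / p j + E (j + 1) D X / r j) with hS
  set K : ℝ := ∑ j ∈ Finset.range n, w j 0 * (1 / p j + 1 / r j) with hK
  have hanti : ∀ j, Antitone (fun x => E j (B x) X) := fun j x y hxy => Hil.E_anti j (hB hxy) X
  have hbd : ∀ j x, ‖E j (B x) X‖ ≤ ‖X‖ ^ 2 := fun j x => by
    rw [Real.norm_eq_abs, abs_of_nonneg (Hil.E_nonneg j _ X)]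
    exact Hil.E_le_norm j _ X
  have key : ∀ ρ : ℝ, 0 < ρ →
      (∫ x in (0 : ℝ)..ℓ, exitD w w' r n x * E n (B (x + ρ)) X) +
      (∫ x in (0 : ℝ)..ℓ, extrD w w' p x * E 0 (B (x + ρ)) X) ≤ S + ρ * K := by
    intro ρ hρ
    obtain ⟨μ, ψ, ε, l₀, η, V, hμs, hμc, hμD, hμ0, hμ1, -, fam, hQ, hε, hl₀, hη, hlη, hG⟩ :=
      Flow_.exists_flow Q hfam hD hb X n hℓ hρ
    set G : ℝ → Set ℂ := fun x => Flow_.Dom ψ ε (Flow_.lam l₀ η x) with hGd
    have htr := ST_.transport_flow hc hG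
    have h4 : ∑ j ∈ Finset.range n, w j 0 *
        ((E j D X + ρ) / p j + (E (j + 1) D X + ρ) / r j) = S + ρ * K := by
      rw [hS, hK, Finset.mul_sum, ← Finset.sum_add_distrib]
      refine Finset.sum_congr rfl fun j _ => ?_
      ring
    rw [h4] at htr
    have hsub : ∀ x ∈ Icc 0 ℓ, G x ⊆ B (x + ρ) := by
      intro x hx z hz
      have h1 : z ∈ {z | 0 < ψ (Real.exp (-(l₀ + (1 + η) * x))) z} := lt_trans hε hz
      have hpos : 0 < l₀ + (1 + η) * x := by
        have := hx.1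
        positivity
      have h2 := hQB μ ψ hμs hμc hμD hμ0 hμ1 fam hQ (l₀ + (1 + η) * x) hpos h1
      refine hB ?_ h2
      have : η * x ≤ η * ℓ := mul_le_mul_of_nonneg_left hx.2 hη.le
      linarith
    have hEI : ∀ j, IntervalIntegrable (fun x => E j (G x) X) volume 0 ℓ := fun j => by
      have h : AntitoneOn (fun x => E j (G x) X) (uIcc 0 ℓ) := fun x _ y _ hxy =>
        Hil.E_anti j (hG.mono hxy) X
      exact AntitoneOn.intervalIntegrable h
    have hBI : ∀ j, IntervalIntegrable (fun x => E j (B (x + ρ)) X) volume 0 ℓ := fun j => by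
      have h : AntitoneOn (fun x => E j (B (x + ρ)) X) (uIcc 0 ℓ) := fun x _ y _ hxy =>
        hanti j (add_le_add hxy le_rfl)
      exact AntitoneOn.intervalIntegrable h
    have hpt : ∀ (k : ℕ) (g : ℝ → ℝ), Continuous g → (∀ x ∈ Icc 0 ℓ, 0 ≤ g x) →
        ∫ x in (0 : ℝ)..ℓ, g x * E k (B (x + ρ)) X ≤ ∫ x in (0 : ℝ)..ℓ, g x * E k (G x) X := by
      intro k g hg hg0
      refine intervalIntegral.integral_mono_on hℓ ((hBI k).continuousOn_mul hg.continuousOn)
        ((hEI k).continuousOn_mul hg.continuousOn) ?_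
      intro x hx
      exact mul_le_mul_of_nonneg_left (Hil.E_anti k (hsub x hx) X) (hg0 x hx)
    have h5 := hpt n _ hexc hc.exit
    have h6 := hpt 0 _ hxtc hc.extr
    linarith
  have hlim1 := tendsto_int (hanti n) hexc (hbd n) ℓ
  have hlim2 := tendsto_int (hanti 0) hxtc (hbd 0) ℓ
  have hlim3 : Tendsto (fun ρ : ℝ => S + ρ * K) (𝓝[>] 0) (𝓝 (S + 0 * K)) := by
    have : Continuous (fun ρ : ℝ => S + ρ * K) := by fun_prop
    exact (this.tendsto 0).mono_left nhdsWithin_le_nhds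
  rw [zero_mul, add_zero] at hlim3
  refine le_of_tendsto_of_tendsto (hlim1.add hlim2) hlim3 ?_
  filter_upwards [self_mem_nhdsWithin] with ρ hρ
  exact key ρ hρ

end G7_
end Pool.Agent.Lib.QNL
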