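import Mathlib

/-!
Room QNL, group C (helper16): the abstract contraction estimate (helper94, helper39, helper47) and
the retention lemma (helper43), from the weak velocity law at `l = 0`.

Data: a measure space, `τ l : α → ℝ` (`l ≥ 0`), `t = τ 0 > 0`, `q = |X|`, `x = q / t`,
`g_l = e^(-l/2) τ_l^(p/2)`, `y = (w/r)(1 - x^r)`, `w = 1 - r/p`.
-/

set_option autoImplicit false

namespace Pool.Agent.Lib.QNL.Ret16

open MeasureTheory Filter Topology Set Real

variable {α : Type*} [MeasurableSpace α]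

/-- `g_l = e^(-l/2) τ_l^(p/2)` -/
noncomputable def g (p : ℝ) (τ : ℝ → α → ℝ) (l : ℝ) (z : α) : ℝ :=
  exp (-(l / 2)) * τ l z ^ (p / 2)

/-- `y(x) = (w/r)(1 - x^r)`, `w = 1 - r/p` -/
noncomputable def yy (p r x : ℝ) : ℝ := (1 - r / p) / r * (1 - x ^ r)

/-- `e(x) = x^2 - 1 - (2/r)(x^r - 1)` -/
noncomputable def ee (r x : ℝ) : ℝ := x ^ 2 - 1 - 2 / r * (x ^ r - 1)

structure Dat (μ : Measure α) (p r : ℝ) (q : α → ℝ) (τ : ℝ → α → ℝ) : Prop where
  hp1 : 1 < p
  hp2 : p < 2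
  hr1 : 1 ≤ r
  hrp : r < p
  pos : ∀ z, 0 < τ 0 z
  mono : ∀ l l' z, 0 ≤ l → l ≤ l' → τ l z ≤ τ l' z
  up : ∀ l z, 0 ≤ l → τ l z ≤ exp (l / r) * τ 0 z
  meas : ∀ l, 0 ≤ l → Measurable (τ l)
  int0 : Integrable (fun z => τ 0 z ^ p) μ
  vol : ∀ l, 0 ≤ l → ∫ z, τ l z ^ p ∂μ = exp l * ∫ z, τ 0 z ^ p ∂μ
  qm : Measurable q
  q0 : ∀ z, 0 ≤ q z
  qB : ∃ B, ∀ z, q z ≤ B * τ 0 z
  mass : ∫ z, yy p r (q z / τ 0 z) * τ 0 z ^ p ∂μ ≤ 0
  ovl : ∀ l h, 0 ≤ h → h ≤ l →
    ∫ z, g p τ 0 z * g p τ (l - h) z ∂μ ≤ ∫ z, g p τ h z * g p τ l z ∂μ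
  vel : ∀ l, 0 ≤ l → Tendsto
    (fun h => (1 / h) * ∫ z, (g p τ h z - g p τ 0 z) * g p τ l z ∂μ) (𝓝[>] 0)
    (𝓝 (p / 2 * ∫ z, yy p r (q z / τ 0 z) * (g p τ 0 z * g p τ l z) ∂μ))

namespace Dat

variable {μ : Measure α} {p r : ℝ} {q : α → ℝ} {τ : ℝ → α → ℝ}

section basic

variable (H : Dat μ p r q τ)
include H

lemma p0 : 0 < p := by have := H.hp1; linarith
lemma r0 : 0 < r := by have := H.hr1; linarith
lemma w0 : 0 < 1 - r / p := by
  have h1 := H.p0
  have h2 := H.hrp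
  rw [sub_pos, div_lt_one h1]; exact h2

lemma tpos (l : ℝ) (z : α) (hl : 0 ≤ l) : 0 < τ l z :=
  lt_of_lt_of_le (H.pos z) (H.mono 0 l z le_rfl hl)

lemma gpos (l : ℝ) (z : α) (hl : 0 ≤ l) : 0 < g p τ l z :=
  mul_pos (exp_pos _) (rpow_pos_of_pos (H.tpos l z hl) _)

lemma gmeas (l : ℝ) (hl : 0 ≤ l) : Measurable (g p τ l) :=
  ((H.meas l hl).pow_const _).const_mul _

/-- `g_l^2 = e^{-l} τ_l^p` -/
lemma g_sq (l : ℝ) (z : α) (hl : 0 ≤ l) : g p τ l z ^ 2 = exp (-l) * τ l z ^ p := by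
  unfold g
  rw [mul_pow, ← exp_nat_mul, ← rpow_natCast, ← rpow_mul (H.tpos l z hl).le]
  congr 2
  · push_cast; ring
  · push_cast; ring

lemma g0_sq (z : α) : g p τ 0 z ^ 2 = τ 0 z ^ p := by
  rw [H.g_sq 0 z le_rfl]; simp

/-- upper clamp, `β = (p/2)(1/r - 1/p) = p w / (2 r)` -/
lemma g_le (l : ℝ) (z : α) (hl : 0 ≤ l) :
    g p τ l z ≤ exp ((p / (2 * r) - 1 / 2) * l) * g p τ 0 z := by
  unfold g
  have h1 : τ l z ^ (p / 2) ≤ (exp (l / r) * τ 0 z) ^ (p / 2) :=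
    rpow_le_rpow (H.tpos l z hl).le (H.up l z hl) (by have := H.p0; positivity)
  have h2 : (exp (l / r) * τ 0 z) ^ (p / 2) = exp (l / r * (p / 2)) * τ 0 z ^ (p / 2) := by
    rw [mul_rpow (exp_pos _).le (H.pos z).le, ← exp_mul]
  rw [h2] at h1
  calc exp (-(l / 2)) * τ l z ^ (p / 2)
      ≤ exp (-(l / 2)) * (exp (l / r * (p / 2)) * τ 0 z ^ (p / 2)) :=
        mul_le_mul_of_nonneg_left h1 (exp_pos _).le
    _ = exp ((p / (2 * r) - 1 / 2) * l) * (exp (-(0 / 2)) * τ 0 z ^ (p / 2)) := by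
        have h3 : (p / (2 * r) - 1 / 2) * l = -(l / 2) + l / r * (p / 2) := by
          have := H.r0; field_simp; ring
        rw [h3, exp_add]; simp; ring

/-- lower clamp -/
lemma g_ge (l : ℝ) (z : α) (hl : 0 ≤ l) : exp (-(l / 2)) * g p τ 0 z ≤ g p τ l z := by
  unfold g
  have h1 : τ 0 z ^ (p / 2) ≤ τ l z ^ (p / 2) :=
    rpow_le_rpow (H.pos z).le (H.mono 0 l z le_rfl hl) (by have := H.p0; positivity)
  simpa using mul_le_mul_of_nonneg_left h1 (exp_pos (-(l / 2))).le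

lemma beta_pos : 0 < p / (2 * r) - 1 / 2 := by
  have h1 := H.r0
  have h2 := H.hrp
  rw [sub_pos, div_lt_div_iff₀ (by norm_num) (by positivity)]
  linarith

lemma int_g0sq : Integrable (fun z => g p τ 0 z ^ 2) μ := by
  have : (fun z => g p τ 0 z ^ 2) = fun z => τ 0 z ^ p := by
    funext z; exact H.g0_sq z
  rw [this]; exact H.int0

/-- domination lemma -/
lemma int_dom (F : α → ℝ) (hF : Measurable F) (C : ℝ) (hC : ∀ z, |F z| ≤ C * g p τ 0 z ^ 2) :
    Integrable F μ := by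
  refine (H.int_g0sq.const_mul C).mono' hF.aestronglyMeasurable (Eventually.of_forall fun z => ?_)
  rw [norm_eq_abs]; exact hC z

lemma int_gg (l l' : ℝ) (hl : 0 ≤ l) (hl' : 0 ≤ l') :
    Integrable (fun z => g p τ l z * g p τ l' z) μ := by
  refine H.int_dom _ ((H.gmeas l hl).mul (H.gmeas l' hl'))
    (exp ((p / (2 * r) - 1 / 2) * l) * exp ((p / (2 * r) - 1 / 2) * l')) fun z => ?_
  rw [abs_of_pos (mul_pos (H.gpos l z hl) (H.gpos l' z hl'))]
  calc g p τ l z * g p τ l' z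
      ≤ (exp ((p / (2 * r) - 1 / 2) * l) * g p τ 0 z) *
        (exp ((p / (2 * r) - 1 / 2) * l') * g p τ 0 z) :=
        mul_le_mul (H.g_le l z hl) (H.g_le l' z hl') (H.gpos l' z hl').le
          (mul_pos (exp_pos _) (H.gpos 0 z le_rfl)).le
    _ = _ := by ring

end basic

/-- `M = ∫ t^p` -/
noncomputable def M (μ : Measure α) (p : ℝ) (τ : ℝ → α → ℝ) : ℝ := ∫ z, g p τ 0 z ^ 2 ∂μ

/-- `c(l) = ⟨g_0, g_l⟩` -/
noncomputable def c (μ : Measure α) (p : ℝ) (τ : ℝ → α → ℝ) (l : ℝ) : ℝ :=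
  ∫ z, g p τ 0 z * g p τ l z ∂μ

/-- `D(l)^2 = ‖g_l - g_0‖^2` -/
noncomputable def D2 (μ : Measure α) (p : ℝ) (τ : ℝ → α → ℝ) (l : ℝ) : ℝ :=
  ∫ z, (g p τ l z - g p τ 0 z) ^ 2 ∂μ

section two

variable (H : Dat μ p r q τ)
include H

omit H in
lemma M_nonneg : 0 ≤ M μ p τ := integral_nonneg fun _ => sq_nonneg _

lemma norm_eq (l : ℝ) (hl : 0 ≤ l) : ∫ z, g p τ l z ^ 2 ∂μ = M μ p τ := by
  unfold M
  have h1 : (fun z => g p τ l z ^ 2) = fun z => exp (-l) * τ l z ^ p := by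
    funext z; exact H.g_sq l z hl
  have h2 : (fun z => g p τ 0 z ^ 2) = fun z => τ 0 z ^ p := by
    funext z; exact H.g0_sq z
  rw [h1, h2, integral_const_mul, H.vol l hl, ← mul_assoc, ← exp_add]
  simp

lemma D2_eq (l : ℝ) (hl : 0 ≤ l) : D2 μ p τ l = 2 * (M μ p τ - c μ p τ l) := by
  unfold D2 c
  have h1 : (fun z => (g p τ l z - g p τ 0 z) ^ 2) =
      fun z => (g p τ l z ^ 2 + g p τ 0 z ^ 2) - 2 * (g p τ 0 z * g p τ l z) := by
    funext z; ring
  have i1 : Integrable (fun z => g p τ l z ^ 2) μ := by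
    have := H.int_gg l l hl hl
    simpa [sq] using this
  have i2 := H.int_g0sq
  have i3 := H.int_gg 0 l le_rfl hl
  have e1 : ∫ z, ((g p τ l z ^ 2 + g p τ 0 z ^ 2) - 2 * (g p τ 0 z * g p τ l z)) ∂μ =
      (∫ z, (g p τ l z ^ 2 + g p τ 0 z ^ 2) ∂μ) - ∫ z, 2 * (g p τ 0 z * g p τ l z) ∂μ :=
    integral_sub (i1.add i2) (i3.const_mul 2)
  have e2 : ∫ z, (g p τ l z ^ 2 + g p τ 0 z ^ 2) ∂μ =
      (∫ z, g p τ l z ^ 2 ∂μ) + ∫ z, g p τ 0 z ^ 2 ∂μ := integral_add i1 i2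
  rw [h1, e1, e2, integral_const_mul, H.norm_eq l hl]
  unfold M
  ring

omit H in
lemma D2_nonneg (l : ℝ) : 0 ≤ D2 μ p τ l := integral_nonneg fun _ => sq_nonneg _

lemma c_eq (l : ℝ) (hl : 0 ≤ l) : c μ p τ l = M μ p τ - D2 μ p τ l / 2 := by
  rw [H.D2_eq l hl]; ring

lemma c_le (l : ℝ) (hl : 0 ≤ l) : c μ p τ l ≤ M μ p τ := by
  rw [H.c_eq l hl]; have := D2_nonneg (μ := μ) (p := p) (τ := τ) l; linarith

lemma c_nonneg (l : ℝ) (hl : 0 ≤ l) : 0 ≤ c μ p τ l :=
  integral_nonneg fun z => (mul_pos (H.gpos 0 z le_rfl) (H.gpos l z hl)).le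

/-- `D(l)² ≤ 2 M (e^{βl} - 1)` -/
lemma D2_le (l : ℝ) (hl : 0 ≤ l) :
    D2 μ p τ l ≤ 2 * M μ p τ * ((p / (2 * r) - 1 / 2) * l) := by
  set β := p / (2 * r) - 1 / 2 with hβ
  have h1 : exp (-(β * l)) * M μ p τ ≤ c μ p τ l := by
    rw [← H.norm_eq l hl, ← integral_const_mul]
    unfold c
    refine integral_mono_ae ?_ (H.int_gg 0 l le_rfl hl) (Eventually.of_forall fun z => ?_)
    · have := (H.int_gg l l hl hl).const_mul (exp (-(β * l)))
      simpa [sq] using this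
    · have h2 := H.g_le l z hl
      have h3 := H.gpos l z hl
      have h4 : exp (-(β * l)) * g p τ l z ≤ g p τ 0 z := by
        calc exp (-(β * l)) * g p τ l z
            ≤ exp (-(β * l)) * (exp (β * l) * g p τ 0 z) :=
              mul_le_mul_of_nonneg_left h2 (exp_pos _).le
          _ = g p τ 0 z := by rw [← mul_assoc, ← exp_add]; simp
      calc exp (-(β * l)) * g p τ l z ^ 2 = (exp (-(β * l)) * g p τ l z) * g p τ l z := by ring
        _ ≤ g p τ 0 z * g p τ l z := mul_le_mul_of_nonneg_right h4 h3.le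
  rw [H.D2_eq l hl]
  have h5 : 1 - β * l ≤ exp (-(β * l)) := by
    have := add_one_le_exp (-(β * l)); linarith
  have h6 := M_nonneg (μ := μ) (p := p) (τ := τ)
  nlinarith [mul_le_mul_of_nonneg_right h5 h6]

/-- `D(l)² ≤ 2 M` -/
lemma D2_le' (l : ℝ) (hl : 0 ≤ l) : D2 μ p τ l ≤ 2 * M μ p τ := by
  rw [H.D2_eq l hl]; have := H.c_nonneg l hl; linarith

end two

/-! ### linear functionals of `g_l` -/

section func

variable (H : Dat μ p r q τ)
include H

/-- `N(F, l) = ∫ F g_l` is measurable in `l` -/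
lemma N_meas (F : α → ℝ) (hF : Measurable F) (hF0 : ∀ z, 0 ≤ F z) (C : ℝ)
    (hC : ∀ z, F z ≤ C * g p τ 0 z) :
    AEMeasurable (fun l => ∫ z, F z * g p τ l z ∂μ) (volume.restrict (Ioi 0)) := by
  have h1 : MonotoneOn (fun l => ∫ z, F z * τ l z ^ (p / 2) ∂μ) (Ioi 0) := by
    intro l hl l' hl' hll
    have hl0 : (0 : ℝ) ≤ l := le_of_lt hl
    have hl0' : (0 : ℝ) ≤ l' := le_of_lt hl'
    have I : ∀ s : ℝ, 0 ≤ s → Integrable (fun z => F z * τ s z ^ (p / 2)) μ := by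
      intro s hs
      refine H.int_dom _ (hF.mul ((H.meas s hs).pow_const _))
        (C * exp (s / 2) * exp ((p / (2 * r) - 1 / 2) * s)) fun z => ?_
      have e1 : τ s z ^ (p / 2) = exp (s / 2) * g p τ s z := by
        unfold g; rw [← mul_assoc, ← exp_add]; simp
      rw [abs_of_nonneg (mul_nonneg (hF0 z) (rpow_nonneg (H.tpos s z hs).le _)), e1]
      have h2 := H.g_le s z hs
      have h3 := H.gpos s z hs
      have h4 := H.gpos 0 z le_rfl
      have hCg : 0 ≤ C * g p τ 0 z := le_trans (hF0 z) (hC z)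
      calc F z * (exp (s / 2) * g p τ s z)
          ≤ (C * g p τ 0 z) * (exp (s / 2) * (exp ((p / (2 * r) - 1 / 2) * s) * g p τ 0 z)) := by
            refine mul_le_mul (hC z) (mul_le_mul_of_nonneg_left h2 (exp_pos _).le) ?_ hCg
            exact (mul_pos (exp_pos _) h3).le
        _ = _ := by ring
    refine integral_mono (I l hl0) (I l' hl0') fun z => ?_
    exact mul_le_mul_of_nonneg_left (rpow_le_rpow (H.tpos l z hl0).le (H.mono l l' z hl0 hll)
      (by have := H.p0; positivity)) (hF0 z)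
  have h2 : AEMeasurable (fun l => ∫ z, F z * τ l z ^ (p / 2) ∂μ) (volume.restrict (Ioi (0:ℝ))) :=
    aemeasurable_restrict_of_monotoneOn measurableSet_Ioi h1
  have h3 : (fun l => ∫ z, F z * g p τ l z ∂μ) =
      fun l => exp (-(l / 2)) * ∫ z, F z * τ l z ^ (p / 2) ∂μ := by
    funext l
    rw [← integral_const_mul]
    congr 1; funext z; unfold g; ring
  rw [h3]
  exact (by fun_prop : Measurable fun l : ℝ => exp (-(l / 2))).aemeasurable.mul h2

lemma N_int (F : α → ℝ) (hF : Measurable F) (C : ℝ)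
    (hC : ∀ z, |F z| ≤ C * g p τ 0 z) (l : ℝ) (hl : 0 ≤ l) :
    Integrable (fun z => F z * g p τ l z) μ := by
  refine H.int_dom _ (hF.mul (H.gmeas l hl)) (C * exp ((p / (2 * r) - 1 / 2) * l)) fun z => ?_
  rw [abs_mul, abs_of_pos (H.gpos l z hl)]
  calc |F z| * g p τ l z ≤ (C * g p τ 0 z) * (exp ((p / (2 * r) - 1 / 2) * l) * g p τ 0 z) :=
        mul_le_mul (hC z) (H.g_le l z hl) (H.gpos l z hl).le (le_trans (abs_nonneg _) (hC z))
    _ = _ := by ring

lemma N_bd (F : α → ℝ) (hF : Measurable F) (C : ℝ) (hC0 : 0 ≤ C)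
    (hC : ∀ z, |F z| ≤ C * g p τ 0 z) (l : ℝ) (hl : 0 ≤ l) :
    |∫ z, F z * g p τ l z ∂μ| ≤ C * M μ p τ := by
  calc |∫ z, F z * g p τ l z ∂μ| ≤ ∫ z, |F z * g p τ l z| ∂μ := abs_integral_le_integral_abs
    _ ≤ ∫ z, C * (g p τ 0 z * g p τ l z) ∂μ := by
        refine integral_mono (H.N_int F hF C hC l hl).abs ((H.int_gg 0 l le_rfl hl).const_mul C)
          fun z => ?_
        show |F z * g p τ l z| ≤ C * (g p τ 0 z * g p τ l z)
        rw [abs_mul, abs_of_pos (H.gpos l z hl), ← mul_assoc]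
        exact mul_le_mul_of_nonneg_right (hC z) (H.gpos l z hl).le
    _ = C * c μ p τ l := by rw [integral_const_mul]; rfl
    _ ≤ C * M μ p τ := mul_le_mul_of_nonneg_left (H.c_le l hl) hC0

/-- rate bound `|g_h - g_0| ≤ C₁ h g_0`, `0 ≤ h ≤ 1` -/
lemma rate (h : ℝ) (h0 : 0 ≤ h) (h1 : h ≤ 1) (z : α) :
    |g p τ h z - g p τ 0 z| ≤
      (((p / (2 * r) - 1 / 2) * exp (p / (2 * r) - 1 / 2) + 1 / 2) * h) * g p τ 0 z := by
  set β := p / (2 * r) - 1 / 2 with hβ
  have hb := H.beta_pos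
  have g0 := H.gpos 0 z le_rfl
  have u1 := H.g_le h z h0
  have u2 := H.g_ge h z h0
  have e1 : exp (β * h) - 1 ≤ β * exp β * h := by
    have k1 : 1 - exp (-(β * h)) ≤ β * h := by
      have := add_one_le_exp (-(β * h)); linarith
    have k2 : exp (β * h) - 1 = exp (β * h) * (1 - exp (-(β * h))) := by
      rw [mul_sub, ← exp_add]; simp
    have k3 : exp (β * h) ≤ exp β := exp_le_exp.mpr (by nlinarith)
    have k4 : 0 ≤ β * h := mul_nonneg hb.le h0
    calc exp (β * h) - 1 = exp (β * h) * (1 - exp (-(β * h))) := k2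
      _ ≤ exp (β * h) * (β * h) := mul_le_mul_of_nonneg_left k1 (exp_pos _).le
      _ ≤ exp β * (β * h) := mul_le_mul_of_nonneg_right k3 k4
      _ = β * exp β * h := by ring
  have e2 : 1 - exp (-(h / 2)) ≤ 1 / 2 * h := by
    have := add_one_le_exp (-(h / 2)); linarith
  have e3 : 0 ≤ β * exp β * h := mul_nonneg (mul_nonneg hb.le (exp_pos _).le) h0
  rw [abs_le]
  constructor
  · nlinarith [mul_le_mul_of_nonneg_right e2 g0.le, mul_nonneg e3 g0.le]
  · nlinarith [mul_le_mul_of_nonneg_right e1 g0.le, mul_nonneg h0 g0.le]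

end func

end Dat

/-! ### the base functions -/

lemma ee_nonneg {r x : ℝ} (hr1 : 1 ≤ r) (hr2 : r ≤ 2) (hx : 0 ≤ x) : 0 ≤ ee r x := by
  have hr : 0 < r := by linarith
  have h1 : (1 : ℝ) ≤ 2 / r := by rw [le_div_iff₀ hr]; linarith
  have h2 : -1 ≤ x ^ r - 1 := by have := rpow_nonneg hx r; linarith
  have h3 := one_add_mul_self_le_rpow_one_add h2 h1
  have h4 : (1 + (x ^ r - 1)) ^ (2 / r) = x ^ (2 : ℝ) := by
    rw [add_sub_cancel, ← rpow_mul hx]; congr 1; field_simp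
  rw [h4, rpow_two] at h3
  unfold ee; linarith

/-- `Φ(l) = e^{θ l} ∫ |X|² τ_l^{p-2}`, `θ = 2/p - 1` -/
noncomputable def Phi (μ : Measure α) (p : ℝ) (q : α → ℝ) (τ : ℝ → α → ℝ) (l : ℝ) : ℝ :=
  ∫ z, exp ((2 / p - 1) * l) * (q z ^ 2 * τ l z ^ (p - 2)) ∂μ

/-- `b(l) = ∫ y g_0 g_l` -/
noncomputable def b (μ : Measure α) (p r : ℝ) (q : α → ℝ) (τ : ℝ → α → ℝ) (l : ℝ) : ℝ :=
  ∫ z, yy p r (q z / τ 0 z) * (g p τ 0 z * g p τ l z) ∂μ

/-- `∫ t^p e(x)` -/
noncomputable def EE (μ : Measure α) (p r : ℝ) (q : α → ℝ) (τ : ℝ → α → ℝ) : ℝ :=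
  ∫ z, ee r (q z / τ 0 z) * τ 0 z ^ p ∂μ

namespace Dat

variable {μ : Measure α} {p r : ℝ} {q : α → ℝ} {τ : ℝ → α → ℝ}

section base

variable (H : Dat μ p r q τ)
include H

lemma exB : ∃ B : ℝ, 0 ≤ B ∧ ∀ z, q z / τ 0 z ≤ B := by
  obtain ⟨B, hB⟩ := H.qB
  refine ⟨max B 0, le_max_right _ _, fun z => ?_⟩
  rw [div_le_iff₀ (H.pos z)]
  exact (hB z).trans (mul_le_mul_of_nonneg_right (le_max_left _ _) (H.pos z).le)

lemma x0 (z : α) : 0 ≤ q z / τ 0 z := div_nonneg (H.q0 z) (H.pos z).le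

lemma xmeas : Measurable fun z => q z / τ 0 z := H.qm.div (H.meas 0 le_rfl)

lemma ymeas : Measurable fun z => yy p r (q z / τ 0 z) := by
  unfold yy
  exact ((H.xmeas.pow_const r).const_sub 1).const_mul _

lemma emeas : Measurable fun z => ee r (q z / τ 0 z) := by
  unfold ee
  exact ((H.xmeas.pow_const 2).sub_const 1).sub (((H.xmeas.pow_const r).sub_const 1).const_mul _)

lemma exY : ∃ C : ℝ, 0 ≤ C ∧ ∀ z, |yy p r (q z / τ 0 z)| ≤ C := by
  obtain ⟨B, hB0, hB⟩ := H.exB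
  have hw := H.w0
  have hr := H.r0
  refine ⟨(1 - r / p) / r * (1 + B ^ r), by positivity, fun z => ?_⟩
  unfold yy
  rw [abs_mul, abs_of_pos (by positivity : 0 < (1 - r / p) / r)]
  refine mul_le_mul_of_nonneg_left ?_ (by positivity)
  have h1 : (q z / τ 0 z) ^ r ≤ B ^ r := rpow_le_rpow (H.x0 z) (hB z) hr.le
  have h2 : 0 ≤ (q z / τ 0 z) ^ r := rpow_nonneg (H.x0 z) r
  have h3 : 0 ≤ B ^ r := rpow_nonneg hB0 r
  rw [abs_le]; constructor <;> linarith

lemma exE : ∃ C : ℝ, 0 ≤ C ∧ ∀ z, |ee r (q z / τ 0 z)| ≤ C := by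
  obtain ⟨B, hB0, hB⟩ := H.exB
  have hr := H.r0
  refine ⟨B ^ 2 + 1 + 2 / r * (B ^ r + 1), by positivity, fun z => ?_⟩
  unfold ee
  have h0 := H.x0 z
  have h1 : (q z / τ 0 z) ^ r ≤ B ^ r := rpow_le_rpow h0 (hB z) hr.le
  have h2 : 0 ≤ (q z / τ 0 z) ^ r := rpow_nonneg h0 r
  have h3 : 0 ≤ B ^ r := rpow_nonneg hB0 r
  have h4 : (q z / τ 0 z) ^ 2 ≤ B ^ 2 := pow_le_pow_left₀ h0 (hB z) 2
  have h5 : 0 ≤ (q z / τ 0 z) ^ 2 := sq_nonneg _
  have h6 : 0 < 2 / r := by positivity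
  rw [abs_le]
  constructor
  · nlinarith [mul_le_mul_of_nonneg_left h1 h6.le, mul_nonneg h6.le h3]
  · nlinarith [mul_nonneg h6.le h2, mul_nonneg h6.le h3]

lemma b0 : b μ p r q τ 0 ≤ 0 := by
  have h : b μ p r q τ 0 = ∫ z, yy p r (q z / τ 0 z) * τ 0 z ^ p ∂μ := by
    unfold b
    congr 1; funext z
    rw [← sq, H.g0_sq z]
  rw [h]; exact H.mass

lemma EE_nonneg : 0 ≤ EE μ p r q τ :=
  integral_nonneg fun z => mul_nonneg
    (ee_nonneg H.hr1 (by have := H.hrp; have := H.hp2; linarith) (H.x0 z))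
    (rpow_nonneg (H.pos z).le _)

lemma theta_pos : 0 < 2 / p - 1 := by
  have h1 := H.p0
  have h2 := H.hp2
  rw [sub_pos, lt_div_iff₀ h1]; linarith

/-- `q² τ_0^{p-2} = x² g_0²` -/
lemma q_eq (z : α) : q z ^ 2 * τ 0 z ^ (p - 2) = (q z / τ 0 z) ^ 2 * g p τ 0 z ^ 2 := by
  have ht := H.pos z
  rw [H.g0_sq z, div_pow, rpow_sub ht, rpow_two]
  field_simp

/-- pointwise Bernoulli -/
lemma pt (l : ℝ) (hl : 0 ≤ l) (z : α) :
    (q z / τ 0 z) ^ 2 * g p τ 0 z ^ 2
      - 2 * (2 / p - 1) * ((q z / τ 0 z) ^ 2 * (g p τ 0 z * (g p τ l z - g p τ 0 z))) ≤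
    exp ((2 / p - 1) * l) * (q z ^ 2 * τ l z ^ (p - 2)) := by
  have ht := H.pos z
  have htl := H.tpos l z hl
  have hp := H.p0
  have g0 := H.gpos 0 z le_rfl
  have gl := H.gpos l z hl
  have hth := H.theta_pos
  set θ := 2 / p - 1 with hθ
  -- s = g_l / g_0
  have hs : g p τ l z / g p τ 0 z = exp (-(l / 2)) * (τ l z / τ 0 z) ^ (p / 2) := by
    unfold g
    rw [div_rpow htl.le ht.le]
    simp only [zero_div, neg_zero, exp_zero, one_mul]
    rw [mul_div_assoc]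
  have h1 : exp (θ * l) * τ l z ^ (p - 2) =
      τ 0 z ^ (p - 2) * (g p τ l z / g p τ 0 z) ^ (-(2 * θ)) := by
    rw [hs, mul_rpow (exp_pos _).le (rpow_nonneg (div_pos htl ht).le _), ← exp_mul,
      ← rpow_mul (div_pos htl ht).le]
    have e1 : -(l / 2) * -(2 * θ) = θ * l := by ring
    have e2 : p / 2 * -(2 * θ) = p - 2 := by rw [hθ]; field_simp; ring
    rw [e1, e2, div_rpow htl.le ht.le]
    have := (rpow_pos_of_pos ht (p - 2)).ne'
    field_simp
  have h2 : 1 - 2 * θ * (g p τ l z / g p τ 0 z - 1) ≤ (g p τ l z / g p τ 0 z) ^ (-(2 * θ)) := by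
    have hpos : 0 < g p τ l z / g p τ 0 z := div_pos gl g0
    rw [rpow_def_of_pos hpos]
    have k1 := add_one_le_exp (log (g p τ l z / g p τ 0 z) * -(2 * θ))
    have k2 := log_le_sub_one_of_pos hpos
    nlinarith
  have h3 : exp (θ * l) * (q z ^ 2 * τ l z ^ (p - 2)) =
      (q z ^ 2 * τ 0 z ^ (p - 2)) * (g p τ l z / g p τ 0 z) ^ (-(2 * θ)) := by
    calc exp (θ * l) * (q z ^ 2 * τ l z ^ (p - 2))
        = q z ^ 2 * (exp (θ * l) * τ l z ^ (p - 2)) := by ring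
      _ = _ := by rw [h1]; ring
  rw [h3, H.q_eq z]
  have h4 : 0 ≤ (q z / τ 0 z) ^ 2 * g p τ 0 z ^ 2 := by positivity
  have h5 := mul_le_mul_of_nonneg_left h2 h4
  refine le_trans (le_of_eq ?_) h5
  field_simp

lemma Phi_int (l : ℝ) (hl : 0 ≤ l) :
    Integrable (fun z => exp ((2 / p - 1) * l) * (q z ^ 2 * τ l z ^ (p - 2))) μ := by
  obtain ⟨B, hB0, hB⟩ := H.exB
  refine H.int_dom _ (((H.qm.pow_const 2).mul ((H.meas l hl).pow_const _)).const_mul _)
    (exp ((2 / p - 1) * l) * B ^ 2) fun z => ?_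
  have htl := H.tpos l z hl
  rw [abs_of_nonneg (by have := H.q0 z; positivity)]
  have h1 : τ l z ^ (p - 2) ≤ τ 0 z ^ (p - 2) :=
    rpow_le_rpow_of_nonpos (H.pos z) (H.mono 0 l z le_rfl hl) (by have := H.hp2; linarith)
  have h2 : q z ^ 2 * τ l z ^ (p - 2) ≤ B ^ 2 * g p τ 0 z ^ 2 := by
    calc q z ^ 2 * τ l z ^ (p - 2) ≤ q z ^ 2 * τ 0 z ^ (p - 2) :=
          mul_le_mul_of_nonneg_left h1 (sq_nonneg _)
      _ = (q z / τ 0 z) ^ 2 * g p τ 0 z ^ 2 := H.q_eq z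
      _ ≤ B ^ 2 * g p τ 0 z ^ 2 := mul_le_mul_of_nonneg_right
          (pow_le_pow_left₀ (H.x0 z) (hB z) 2) (sq_nonneg _)
  calc exp ((2 / p - 1) * l) * (q z ^ 2 * τ l z ^ (p - 2))
      ≤ exp ((2 / p - 1) * l) * (B ^ 2 * g p τ 0 z ^ 2) :=
        mul_le_mul_of_nonneg_left h2 (exp_pos _).le
    _ = _ := by ring

lemma Phi_nonneg (l : ℝ) (hl : 0 ≤ l) : 0 ≤ Phi μ p q τ l :=
  integral_nonneg fun z => by
    have := H.q0 z
    have := (rpow_pos_of_pos (H.tpos l z hl) (p - 2)).le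
    positivity

/-- the pointwise-in-`l` inequality -/
lemma Phi_ge (l : ℝ) (hl : 0 ≤ l) :
    Phi μ p q τ 0 + 4 * (2 / p - 1) / (1 - r / p) * b μ p r q τ l
      + (2 / p - 1) * D2 μ p τ l
      - 2 * (2 / p - 1) * (exp ((p / (2 * r) - 1 / 2) * l) - 1) * EE μ p r q τ
      ≤ Phi μ p q τ l := by
  have hth := H.theta_pos
  have hw := H.w0
  have hr := H.r0
  set θ := 2 / p - 1 with hθ
  set w := 1 - r / p with hwd
  set β := p / (2 * r) - 1 / 2 with hβ
  obtain ⟨CY, hCY0, hCY⟩ := H.exY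
  obtain ⟨CE, hCE0, hCE⟩ := H.exE
  obtain ⟨B, hB0, hB⟩ := H.exB
  have I0 : Integrable (fun z => (q z / τ 0 z) ^ 2 * g p τ 0 z ^ 2) μ := by
    refine H.int_dom _ ((H.xmeas.pow_const 2).mul ((H.gmeas 0 le_rfl).pow_const 2)) (B ^ 2)
      fun z => ?_
    rw [abs_of_nonneg (by positivity)]
    exact mul_le_mul_of_nonneg_right (pow_le_pow_left₀ (H.x0 z) (hB z) 2) (sq_nonneg _)
  have I1 := H.int_gg 0 l le_rfl hl
  have I2 := H.int_g0sq
  have I3 : Integrable (fun z => yy p r (q z / τ 0 z) * (g p τ 0 z * g p τ l z)) μ := by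
    have := H.N_int (fun z => yy p r (q z / τ 0 z) * g p τ 0 z)
      (H.ymeas.mul (H.gmeas 0 le_rfl)) CY
      (fun z => by
        rw [abs_mul, abs_of_pos (H.gpos 0 z le_rfl)]
        exact mul_le_mul_of_nonneg_right (hCY z) (H.gpos 0 z le_rfl).le) l hl
    refine this.congr (Eventually.of_forall fun z => ?_)
    show _ * _ * _ = _
    ring
  have I4 : Integrable (fun z => yy p r (q z / τ 0 z) * (g p τ 0 z * g p τ 0 z)) μ := by
    have := H.N_int (fun z => yy p r (q z / τ 0 z) * g p τ 0 z)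
      (H.ymeas.mul (H.gmeas 0 le_rfl)) CY
      (fun z => by
        rw [abs_mul, abs_of_pos (H.gpos 0 z le_rfl)]
        exact mul_le_mul_of_nonneg_right (hCY z) (H.gpos 0 z le_rfl).le) 0 le_rfl
    refine this.congr (Eventually.of_forall fun z => ?_)
    show _ * _ * _ = _
    ring
  have I5 : Integrable (fun z => ee r (q z / τ 0 z) * τ 0 z ^ p) μ := by
    refine H.int_dom _ (H.emeas.mul ((H.meas 0 le_rfl).pow_const p)) CE fun z => ?_
    rw [abs_mul, ← H.g0_sq z, abs_of_nonneg (sq_nonneg (g p τ 0 z))]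
    exact mul_le_mul_of_nonneg_right (hCE z) (sq_nonneg _)
  -- pointwise lower bound
  have key : ∀ z, ((q z / τ 0 z) ^ 2 * g p τ 0 z ^ 2 - 2 * θ * (g p τ 0 z * g p τ l z))
      + 2 * θ * g p τ 0 z ^ 2
      + (4 * θ / w * (yy p r (q z / τ 0 z) * (g p τ 0 z * g p τ l z))
      - 4 * θ / w * (yy p r (q z / τ 0 z) * (g p τ 0 z * g p τ 0 z)))
      - 2 * θ * (exp (β * l) - 1) * (ee r (q z / τ 0 z) * τ 0 z ^ p)
      ≤ exp (θ * l) * (q z ^ 2 * τ l z ^ (p - 2)) := by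
    intro z
    refine le_trans ?_ (H.pt l hl z)
    have hx2 : (q z / τ 0 z) ^ 2 = 1 - 2 / w * yy p r (q z / τ 0 z) + ee r (q z / τ 0 z) := by
      unfold yy ee
      rw [← hwd]
      field_simp
      ring
    have he : 0 ≤ ee r (q z / τ 0 z) :=
      ee_nonneg H.hr1 (by have := H.hrp; have := H.hp2; linarith) (H.x0 z)
    have hg0 := H.gpos 0 z le_rfl
    have hup : g p τ l z - g p τ 0 z ≤ (exp (β * l) - 1) * g p τ 0 z := by
      have := H.g_le l z hl; linarith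
    have hmul : ee r (q z / τ 0 z) * (g p τ 0 z * (g p τ l z - g p τ 0 z)) ≤
        (exp (β * l) - 1) * (ee r (q z / τ 0 z) * τ 0 z ^ p) := by
      rw [← H.g0_sq z]
      calc ee r (q z / τ 0 z) * (g p τ 0 z * (g p τ l z - g p τ 0 z))
          ≤ ee r (q z / τ 0 z) * (g p τ 0 z * ((exp (β * l) - 1) * g p τ 0 z)) :=
            mul_le_mul_of_nonneg_left (mul_le_mul_of_nonneg_left hup hg0.le) he
        _ = _ := by ring
    have h2θ : 0 ≤ 2 * θ := by positivity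
    have hmul' := mul_le_mul_of_nonneg_left hmul h2θ
    have expand : 2 * θ * ((q z / τ 0 z) ^ 2 * (g p τ 0 z * (g p τ l z - g p τ 0 z))) =
        2 * θ * (g p τ 0 z * g p τ l z) - 2 * θ * g p τ 0 z ^ 2
        - (4 * θ / w * (yy p r (q z / τ 0 z) * (g p τ 0 z * g p τ l z))
        - 4 * θ / w * (yy p r (q z / τ 0 z) * (g p τ 0 z * g p τ 0 z)))
        + 2 * θ * (ee r (q z / τ 0 z) * (g p τ 0 z * (g p τ l z - g p τ 0 z))) := by
      rw [hx2]; field_simp; ring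
    rw [expand]
    linarith
  have hint := integral_mono (f := fun z => ((q z / τ 0 z) ^ 2 * g p τ 0 z ^ 2
      - 2 * θ * (g p τ 0 z * g p τ l z))
      + 2 * θ * g p τ 0 z ^ 2
      + (4 * θ / w * (yy p r (q z / τ 0 z) * (g p τ 0 z * g p τ l z))
      - 4 * θ / w * (yy p r (q z / τ 0 z) * (g p τ 0 z * g p τ 0 z)))
      - 2 * θ * (exp (β * l) - 1) * (ee r (q z / τ 0 z) * τ 0 z ^ p))
    ((((I0.sub (I1.const_mul (2 * θ))).add (I2.const_mul (2 * θ))).add
      ((I3.const_mul (4 * θ / w)).sub (I4.const_mul (4 * θ / w)))).sub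
      (I5.const_mul (2 * θ * (exp (β * l) - 1)))) (H.Phi_int l hl) key
  have e1 : ∫ z, (((q z / τ 0 z) ^ 2 * g p τ 0 z ^ 2
      - 2 * θ * (g p τ 0 z * g p τ l z))
      + 2 * θ * g p τ 0 z ^ 2
      + (4 * θ / w * (yy p r (q z / τ 0 z) * (g p τ 0 z * g p τ l z))
      - 4 * θ / w * (yy p r (q z / τ 0 z) * (g p τ 0 z * g p τ 0 z)))
      - 2 * θ * (exp (β * l) - 1) * (ee r (q z / τ 0 z) * τ 0 z ^ p)) ∂μ =
      ((∫ z, (q z / τ 0 z) ^ 2 * g p τ 0 z ^ 2 ∂μ) - 2 * θ * c μ p τ l)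
      + 2 * θ * M μ p τ + (4 * θ / w * b μ p r q τ l - 4 * θ / w * b μ p r q τ 0)
      - 2 * θ * (exp (β * l) - 1) * EE μ p r q τ := by
    have s1 := integral_sub ((((I0.sub (I1.const_mul (2 * θ))).add (I2.const_mul (2 * θ))).add
      ((I3.const_mul (4 * θ / w)).sub (I4.const_mul (4 * θ / w)))))
      (I5.const_mul (2 * θ * (exp (β * l) - 1)))
    have s2 := integral_add ((I0.sub (I1.const_mul (2 * θ))).add (I2.const_mul (2 * θ)))
      ((I3.const_mul (4 * θ / w)).sub (I4.const_mul (4 * θ / w)))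
    have s3 := integral_add (I0.sub (I1.const_mul (2 * θ))) (I2.const_mul (2 * θ))
    have s4 := integral_sub I0 (I1.const_mul (2 * θ))
    have s5 := integral_sub (I3.const_mul (4 * θ / w)) (I4.const_mul (4 * θ / w))
    simp only [Pi.add_apply, Pi.sub_apply] at s1 s2 s3 s4 s5
    rw [s1, s2, s3, s4, s5]
    simp only [integral_const_mul]
    rfl
  have e2 : Phi μ p q τ 0 = ∫ z, (q z / τ 0 z) ^ 2 * g p τ 0 z ^ 2 ∂μ := by
    unfold Phi
    congr 1; funext z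
    rw [← H.q_eq z]; simp
  have e3 := H.c_eq l hl
  have e4 := H.b0
  have e5 : 0 ≤ 4 * θ / w := by positivity
  have e6 : 4 * θ / w * b μ p r q τ 0 ≤ 0 := mul_nonpos_of_nonneg_of_nonpos e5 e4
  rw [e1] at hint
  have e7 : (∫ z, exp (θ * l) * (q z ^ 2 * τ l z ^ (p - 2)) ∂μ) = Phi μ p q τ l := rfl
  rw [e7, ← e2, e3] at hint
  linarith

end base

section ret

variable (H : Dat μ p r q τ)
include H

lemma b_meas : AEMeasurable (fun l => b μ p r q τ l) (volume.restrict (Ioi 0)) := by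
  obtain ⟨B, hB0, hB⟩ := H.exB
  have hr := H.r0
  have m1 := H.N_meas (fun z => g p τ 0 z) (H.gmeas 0 le_rfl) (fun z => (H.gpos 0 z le_rfl).le) 1
    (fun z => by simp)
  have m2 := H.N_meas (fun z => (q z / τ 0 z) ^ r * g p τ 0 z)
    ((H.xmeas.pow_const r).mul (H.gmeas 0 le_rfl))
    (fun z => mul_nonneg (rpow_nonneg (H.x0 z) r) (H.gpos 0 z le_rfl).le) (B ^ r)
    (fun z => mul_le_mul_of_nonneg_right (rpow_le_rpow (H.x0 z) (hB z) hr.le)
      (H.gpos 0 z le_rfl).le)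
  have m3 : AEMeasurable (fun l => (1 - r / p) / r * ((∫ z, g p τ 0 z * g p τ l z ∂μ)
      - ∫ z, (q z / τ 0 z) ^ r * g p τ 0 z * g p τ l z ∂μ)) (volume.restrict (Ioi 0)) :=
    (m1.sub m2).const_mul _
  refine m3.congr ?_
  filter_upwards [ae_restrict_mem measurableSet_Ioi] with l hl
  have hl0 : (0 : ℝ) ≤ l := le_of_lt hl
  have I1 := H.int_gg 0 l le_rfl hl0
  have I2 := H.N_int (fun z => (q z / τ 0 z) ^ r * g p τ 0 z)
    ((H.xmeas.pow_const r).mul (H.gmeas 0 le_rfl)) (B ^ r)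
    (fun z => by
      rw [abs_of_nonneg (mul_nonneg (rpow_nonneg (H.x0 z) r) (H.gpos 0 z le_rfl).le)]
      exact mul_le_mul_of_nonneg_right (rpow_le_rpow (H.x0 z) (hB z) hr.le)
        (H.gpos 0 z le_rfl).le) l hl0
  rw [← integral_sub I1 I2, ← integral_const_mul]
  unfold b yy
  congr 1; funext z; ring

lemma b_bd : ∃ C : ℝ, 0 ≤ C ∧ ∀ l, 0 ≤ l → |b μ p r q τ l| ≤ C := by
  obtain ⟨CY, hCY0, hCY⟩ := H.exY
  refine ⟨CY * M μ p τ, mul_nonneg hCY0 M_nonneg, fun l hl => ?_⟩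
  have := H.N_bd (fun z => yy p r (q z / τ 0 z) * g p τ 0 z)
      (H.ymeas.mul (H.gmeas 0 le_rfl)) CY hCY0
      (fun z => by
        rw [abs_mul, abs_of_pos (H.gpos 0 z le_rfl)]
        exact mul_le_mul_of_nonneg_right (hCY z) (H.gpos 0 z le_rfl).le) l hl
  have e : b μ p r q τ l = ∫ z, yy p r (q z / τ 0 z) * g p τ 0 z * g p τ l z ∂μ := by
    unfold b; congr 1; funext z; ring
  rw [e]; exact this

lemma c_meas : AEMeasurable (fun l => c μ p τ l) (volume.restrict (Ioi 0)) :=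
  H.N_meas (fun z => g p τ 0 z) (H.gmeas 0 le_rfl) (fun z => (H.gpos 0 z le_rfl).le) 1
    (fun z => by simp)

lemma D2_meas : AEMeasurable (fun l => D2 μ p τ l) (volume.restrict (Ioi 0)) := by
  have m : AEMeasurable (fun l => 2 * (M μ p τ - c μ p τ l)) (volume.restrict (Ioi 0)) :=
    (H.c_meas.const_sub _).const_mul 2
  refine m.congr ?_
  filter_upwards [ae_restrict_mem measurableSet_Ioi] with l hl
  exact (H.D2_eq l (le_of_lt hl)).symm

/-- the difference quotient -/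
noncomputable def qh (μ : Measure α) (p : ℝ) (τ : ℝ → α → ℝ) (h l : ℝ) : ℝ :=
  (1 / h) * ∫ z, (g p τ h z - g p τ 0 z) * g p τ l z ∂μ

lemma qh_meas (h : ℝ) (h0 : 0 ≤ h) :
    AEMeasurable (fun l => qh μ p τ h l) (volume.restrict (Ioi 0)) := by
  have m1 := H.N_meas (fun z => g p τ h z) (H.gmeas h h0) (fun z => (H.gpos h z h0).le) _
    (fun z => H.g_le h z h0)
  have m2 := H.c_meas
  have m3 : AEMeasurable (fun l => (1 / h) * ((∫ z, g p τ h z * g p τ l z ∂μ) - c μ p τ l))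
      (volume.restrict (Ioi 0)) := (m1.sub m2).const_mul _
  refine m3.congr ?_
  filter_upwards [ae_restrict_mem measurableSet_Ioi] with l hl
  have hl0 : (0 : ℝ) ≤ l := le_of_lt hl
  unfold qh c
  rw [← integral_sub (H.int_gg h l h0 hl0) (H.int_gg 0 l le_rfl hl0)]
  congr 2; funext z; ring

/-- the constant of `rate` -/
noncomputable def C1 (p r : ℝ) : ℝ :=
  (p / (2 * r) - 1 / 2) * exp (p / (2 * r) - 1 / 2) + 1 / 2

lemma C1_pos : 0 < C1 p r := by
  have := H.beta_pos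
  unfold C1; positivity

lemma qh_bd (h l : ℝ) (h0 : 0 < h) (h1 : h ≤ 1) (hl : 0 ≤ l) :
    |qh μ p τ h l| ≤ C1 p r * M μ p τ := by
  have hC := H.C1_pos
  have := H.N_bd (fun z => g p τ h z - g p τ 0 z) ((H.gmeas h h0.le).sub (H.gmeas 0 le_rfl))
    (C1 p r * h) (by positivity) (fun z => H.rate h h0.le h1 z) l hl
  unfold qh
  rw [abs_mul, abs_of_pos (by positivity : 0 < 1 / h)]
  calc 1 / h * |∫ z, (g p τ h z - g p τ 0 z) * g p τ l z ∂μ|
      ≤ 1 / h * (C1 p r * h * M μ p τ) := mul_le_mul_of_nonneg_left this (by positivity)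
    _ = C1 p r * M μ p τ := by field_simp

/-- overlap: `D2(l) - D2(l-h) ≤ 2 h qh(l)` -/
lemma D2_step (h l : ℝ) (h0 : 0 < h) (hl : h ≤ l) :
    D2 μ p τ l - D2 μ p τ (l - h) ≤ 2 * h * qh μ p τ h l := by
  have hl0 : 0 ≤ l := h0.le.trans hl
  have h1 := H.ovl l h h0.le hl
  have e1 : c μ p τ (l - h) ≤ ∫ z, g p τ h z * g p τ l z ∂μ := h1
  have e2 : h * qh μ p τ h l = (∫ z, g p τ h z * g p τ l z ∂μ) - c μ p τ l := by
    unfold qh c
    rw [← integral_sub (H.int_gg h l h0.le hl0) (H.int_gg 0 l le_rfl hl0), ← mul_assoc,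
      mul_one_div_cancel h0.ne', one_mul]
    congr 1; funext z; ring
  rw [H.D2_eq l hl0, H.D2_eq (l - h) (by linarith)]
  nlinarith

end ret

end Dat

/-- admissible densities: `k ≥ 0`, all exponential moments, `k(l) e^{-κ l}` nonincreasing -/
structure Ker (κ : ℝ) (k : ℝ → ℝ) : Prop where
  nonneg : ∀ l, 0 ≤ k l
  meas : Measurable k
  mom : ∀ C : ℝ, IntegrableOn (fun l => exp (C * l) * k l) (Ioi 0)
  dec : ∀ l h, 0 < l → 0 ≤ h → k (l + h) ≤ exp (κ * h) * k l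

namespace Ker

variable {κ : ℝ} {k : ℝ → ℝ}

lemma int (K : Ker κ k) : IntegrableOn k (Ioi 0) := by
  have := K.mom 0
  simpa using this

lemma int_mul (K : Ker κ k) {f : ℝ → ℝ} (hf : AEMeasurable f (volume.restrict (Ioi 0)))
    (C : ℝ) (hC : ∀ l, 0 < l → |f l| ≤ C) : IntegrableOn (fun l => k l * f l) (Ioi 0) := by
  refine (K.int.mul_const C).mono' (K.meas.aemeasurable.mul hf).aestronglyMeasurable ?_
  filter_upwards [ae_restrict_mem measurableSet_Ioi] with l hl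
  rw [norm_eq_abs, abs_mul, abs_of_nonneg (K.nonneg l)]
  exact mul_le_mul_of_nonneg_left (hC l hl) (K.nonneg l)

/-- `∫_{(0,h]} k → 0` -/
lemma small (K : Ker κ k) : Tendsto (fun h => ∫ l in Ioi (0 : ℝ), (Iic h).indicator k l)
    (𝓝[>] 0) (𝓝 0) := by
  have h0 : (0 : ℝ) = ∫ _ in Ioi (0 : ℝ), (0 : ℝ) := by simp
  conv_rhs => rw [h0]
  refine tendsto_integral_filter_of_dominated_convergence (fun l => k l) ?_ ?_ K.int ?_
  · exact Eventually.of_forall fun h =>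
      (K.meas.indicator measurableSet_Iic).aestronglyMeasurable
  · refine Eventually.of_forall fun h => ?_
    refine Eventually.of_forall fun l => ?_
    rw [norm_eq_abs]
    by_cases hl : l ∈ Iic h
    · rw [indicator_of_mem hl, abs_of_nonneg (K.nonneg l)]
    · rw [indicator_of_notMem hl, abs_zero]; exact K.nonneg l
  · filter_upwards [ae_restrict_mem measurableSet_Ioi] with l hl
    refine tendsto_const_nhds.congr' ?_
    have : Ioo (0 : ℝ) l ∈ 𝓝[>] (0 : ℝ) := Ioo_mem_nhdsGT hl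
    filter_upwards [this] with h hh
    rw [indicator_of_notMem]
    simp only [mem_Iic, not_le]; exact hh.2

end Ker

lemma mp (h : ℝ) : MeasurePreserving (fun l : ℝ => l + h) (volume.restrict (Ioi 0))
    (volume.restrict (Ioi h)) := by
  have h1 := (measurePreserving_add_right volume h).restrict_preimage (s := Ioi h)
    measurableSet_Ioi
  have e : (fun l : ℝ => l + h) ⁻¹' Ioi h = Ioi 0 := by ext; simp
  rwa [e] at h1

lemma shift_int (f : ℝ → ℝ) (h : ℝ) :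
    ∫ l in Ioi (0 : ℝ), f (l + h) = ∫ l in Ioi h, f l :=
  (mp h).integral_comp (measurableEmbedding_addRight h) f

lemma shift_on {f : ℝ → ℝ} {h : ℝ} (hf : IntegrableOn f (Ioi h)) :
    IntegrableOn (fun l => f (l + h)) (Ioi 0) :=
  (mp h).integrable_comp_of_integrable hf

namespace Dat

variable {μ : Measure α} {p r : ℝ} {q : α → ℝ} {τ : ℝ → α → ℝ}

section ret2

variable (H : Dat μ p r q τ)
include H

/-- the key inequality `(p/2) ∫ k b ≥ - (κ/2) ∫ k D²` -/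
lemma key_b {κ : ℝ} {k : ℝ → ℝ} (K : Ker κ k) :
    -(κ / 2) * ∫ l in Ioi (0 : ℝ), k l * D2 μ p τ l ≤
      p / 2 * ∫ l in Ioi (0 : ℝ), k l * b μ p r q τ l := by
  obtain ⟨Cb, hCb0, hCb⟩ := H.b_bd
  set β := p / (2 * r) - 1 / 2 with hβ
  have hβ0 : 0 < β := H.beta_pos
  have hM := M_nonneg (μ := μ) (p := p) (τ := τ)
  have hC1 := H.C1_pos
  have hD2bd : ∀ l, 0 < l → |D2 μ p τ l| ≤ 2 * M μ p τ := fun l hl => by
    rw [abs_of_nonneg (D2_nonneg l)]; exact H.D2_le' l hl.le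
  have ID := K.int_mul H.D2_meas (2 * M μ p τ) hD2bd
  -- limit of `∫ k q_h`
  have lim1 : Tendsto (fun h => ∫ l in Ioi (0 : ℝ), k l * qh μ p τ h l) (𝓝[>] 0)
      (𝓝 (∫ l in Ioi (0 : ℝ), k l * (p / 2 * b μ p r q τ l))) := by
    refine tendsto_integral_filter_of_dominated_convergence
      (fun l => k l * (C1 p r * M μ p τ)) ?_ ?_ (K.int.mul_const _) ?_
    · have : Ioo (0 : ℝ) 1 ∈ 𝓝[>] (0 : ℝ) := Ioo_mem_nhdsGT one_pos
      filter_upwards [this] with h hh
      exact (K.meas.aemeasurable.mul (H.qh_meas h hh.1.le)).aestronglyMeasurable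
    · have : Ioo (0 : ℝ) 1 ∈ 𝓝[>] (0 : ℝ) := Ioo_mem_nhdsGT one_pos
      filter_upwards [this] with h hh
      filter_upwards [ae_restrict_mem measurableSet_Ioi] with l hl
      rw [norm_eq_abs, abs_mul, abs_of_nonneg (K.nonneg l)]
      exact mul_le_mul_of_nonneg_left (H.qh_bd h l hh.1 hh.2.le (le_of_lt hl)) (K.nonneg l)
    · filter_upwards [ae_restrict_mem measurableSet_Ioi] with l hl
      exact (H.vel l (le_of_lt hl)).const_mul (k l)
  -- lower bound
  have low : ∀ h, 0 < h → h ≤ 1 →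
      -(C1 p r * M μ p τ + M μ p τ * β) * (∫ l in Ioi (0 : ℝ), (Iic h).indicator k l)
        - (exp (κ * h) - 1) / (2 * h) * (∫ l in Ioi (0 : ℝ), k l * D2 μ p τ l)
      ≤ ∫ l in Ioi (0 : ℝ), k l * qh μ p τ h l := by
    intro h h0 h1
    have Iq : IntegrableOn (fun l => k l * qh μ p τ h l) (Ioi 0) :=
      K.int_mul (H.qh_meas h h0.le) (C1 p r * M μ p τ) fun l hl => H.qh_bd h l h0 h1 hl.le
    have Iqh : IntegrableOn (fun l => k l * qh μ p τ h l) (Ioi h) :=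
      Iq.mono_set (Ioi_subset_Ioi h0.le)
    have IDh : IntegrableOn (fun l => k l * D2 μ p τ l) (Ioi h) :=
      ID.mono_set (Ioi_subset_Ioi h0.le)
    -- `k(l+h) D2(l)` is integrable
    have Ikd : IntegrableOn (fun l => k (l + h) * D2 μ p τ l) (Ioi 0) := by
      refine ((K.int.const_mul (exp (κ * h))).mul_const (2 * M μ p τ)).mono'
        (((K.meas.comp (measurable_add_const h)).aemeasurable.mul H.D2_meas).aestronglyMeasurable)
        ?_
      filter_upwards [ae_restrict_mem measurableSet_Ioi] with l hl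
      rw [norm_eq_abs, abs_mul, abs_of_nonneg (K.nonneg _)]
      exact mul_le_mul (K.dec l h hl h0.le) (hD2bd l hl) (abs_nonneg _)
        (mul_nonneg (exp_pos _).le (K.nonneg l))
    -- the part `l > h`
    have P2 : (1 / (2 * h)) * ((∫ l in Ioi h, k l * D2 μ p τ l)
        - ∫ l in Ioi (0 : ℝ), k (l + h) * D2 μ p τ l) ≤ ∫ l in Ioi h, k l * qh μ p τ h l := by
      rw [← shift_int (fun l => k l * D2 μ p τ l) h, ← shift_int (fun l => k l * qh μ p τ h l) h,
        ← integral_sub (shift_on IDh) Ikd, ← integral_const_mul]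
      refine setIntegral_mono_on (((shift_on IDh).sub Ikd).const_mul _) (shift_on Iqh)
        measurableSet_Ioi fun l hl => ?_
      have hs := H.D2_step h (l + h) h0 (by have : (0:ℝ) < l := hl; linarith)
      rw [add_sub_cancel_right] at hs
      have hk := K.nonneg (l + h)
      have h2 := mul_le_mul_of_nonneg_left hs hk
      have h3 : 0 < 1 / (2 * h) := by positivity
      have h4 := mul_le_mul_of_nonneg_left h2 h3.le
      calc 1 / (2 * h) * (k (l + h) * D2 μ p τ (l + h) - k (l + h) * D2 μ p τ l)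
          = 1 / (2 * h) * (k (l + h) * (D2 μ p τ (l + h) - D2 μ p τ l)) := by ring
        _ ≤ 1 / (2 * h) * (k (l + h) * (2 * h * qh μ p τ h (l + h))) := h4
        _ = k (l + h) * qh μ p τ h (l + h) := by field_simp
    have P3 : ∫ l in Ioi (0 : ℝ), k (l + h) * D2 μ p τ l ≤
        exp (κ * h) * ∫ l in Ioi (0 : ℝ), k l * D2 μ p τ l := by
      rw [← integral_const_mul]
      refine setIntegral_mono_on Ikd (ID.const_mul _) measurableSet_Ioi fun l hl => ?_
      calc k (l + h) * D2 μ p τ l ≤ (exp (κ * h) * k l) * D2 μ p τ l :=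
            mul_le_mul_of_nonneg_right (K.dec l h hl h0.le) (D2_nonneg l)
        _ = _ := by ring
    -- splitting
    have hsplit : ∀ F : ℝ → ℝ, IntegrableOn F (Ioi 0) →
        ∫ l in Ioi (0 : ℝ), F l = (∫ l in Ioc 0 h, F l) + ∫ l in Ioi h, F l := by
      intro F hF
      rw [← Ioc_union_Ioi_eq_Ioi h0.le, setIntegral_union (Ioc_disjoint_Ioi le_rfl)
        measurableSet_Ioi (hF.mono_set Ioc_subset_Ioi_self)
        (hF.mono_set (Ioi_subset_Ioi h0.le))]
    have hind : ∫ l in Ioi (0 : ℝ), (Iic h).indicator k l = ∫ l in Ioc 0 h, k l := by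
      rw [setIntegral_indicator measurableSet_Iic, Ioi_inter_Iic]
    have hk0 : 0 ≤ ∫ l in Ioc 0 h, k l := integral_nonneg fun l => K.nonneg l
    have Ik : IntegrableOn k (Ioc 0 h) := K.int.mono_set Ioc_subset_Ioi_self
    -- the part `l ≤ h`
    have P1 : -(C1 p r * M μ p τ) * ∫ l in Ioc 0 h, k l ≤
        ∫ l in Ioc 0 h, k l * qh μ p τ h l := by
      rw [← integral_const_mul]
      refine setIntegral_mono_on (Ik.const_mul _) (Iq.mono_set Ioc_subset_Ioi_self)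
        measurableSet_Ioc fun l hl => ?_
      have hq := (abs_le.mp (H.qh_bd h l h0 h1 hl.1.le)).1
      have hk := K.nonneg l
      nlinarith [mul_le_mul_of_nonneg_left hq hk]
    have P4 : ∫ l in Ioc 0 h, k l * D2 μ p τ l ≤
        (2 * M μ p τ * (β * h)) * ∫ l in Ioc 0 h, k l := by
      rw [← integral_const_mul]
      refine setIntegral_mono_on (ID.mono_set Ioc_subset_Ioi_self) (Ik.const_mul _)
        measurableSet_Ioc fun l hl => ?_
      have hq := H.D2_le l hl.1.le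
      have hk := K.nonneg l
      have h5 : 2 * M μ p τ * (β * l) ≤ 2 * M μ p τ * (β * h) :=
        mul_le_mul_of_nonneg_left (mul_le_mul_of_nonneg_left hl.2 hβ0.le) (by positivity)
      calc k l * D2 μ p τ l ≤ k l * (2 * M μ p τ * (β * h)) :=
            mul_le_mul_of_nonneg_left (hq.trans h5) hk
        _ = _ := by ring
    rw [hind, hsplit _ Iq]
    have hs2 := hsplit _ ID
    have h6 : 0 < 1 / (2 * h) := by positivity
    have h7 : (1 / (2 * h)) * ((∫ l in Ioi h, k l * D2 μ p τ l)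
        - ∫ l in Ioi (0 : ℝ), k (l + h) * D2 μ p τ l) ≥
        (1 / (2 * h)) * (-(2 * M μ p τ * (β * h)) * (∫ l in Ioc 0 h, k l)
          - (exp (κ * h) - 1) * ∫ l in Ioi (0 : ℝ), k l * D2 μ p τ l) := by
      refine mul_le_mul_of_nonneg_left ?_ h6.le
      nlinarith
    have h8 : (1 / (2 * h)) * (-(2 * M μ p τ * (β * h)) * (∫ l in Ioc 0 h, k l)
          - (exp (κ * h) - 1) * ∫ l in Ioi (0 : ℝ), k l * D2 μ p τ l) =
        -(M μ p τ * β) * (∫ l in Ioc 0 h, k l)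
        - (exp (κ * h) - 1) / (2 * h) * ∫ l in Ioi (0 : ℝ), k l * D2 μ p τ l := by
      field_simp
    nlinarith
  -- the limit
  have lim2 : Tendsto (fun h : ℝ => -(C1 p r * M μ p τ + M μ p τ * β) *
      (∫ l in Ioi (0 : ℝ), (Iic h).indicator k l)
        - (exp (κ * h) - 1) / (2 * h) * (∫ l in Ioi (0 : ℝ), k l * D2 μ p τ l)) (𝓝[>] 0)
      (𝓝 (-(C1 p r * M μ p τ + M μ p τ * β) * 0
        - κ / 2 * (∫ l in Ioi (0 : ℝ), k l * D2 μ p τ l))) := by
    refine (K.small.const_mul _).sub (Tendsto.mul_const _ ?_)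
    have hd : HasDerivAt (fun h : ℝ => exp (κ * h)) κ 0 := by
      have h1 : HasDerivAt (fun h : ℝ => κ * h) κ 0 := by
        simpa using (hasDerivAt_id (0:ℝ)).const_mul κ
      simpa using h1.exp
    have h2 := hd.tendsto_slope_zero_right
    simp only [zero_add, mul_zero, exp_zero, smul_eq_mul] at h2
    have h3 := h2.const_mul (1 / 2)
    refine (h3.congr' ?_).trans_eq ?_
    · filter_upwards [self_mem_nhdsWithin] with h hh
      have : (h : ℝ) ≠ 0 := ne_of_gt hh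
      field_simp
    · congr 1; ring
  have hev : ∀ᶠ h in 𝓝[>] (0 : ℝ), -(C1 p r * M μ p τ + M μ p τ * β) *
      (∫ l in Ioi (0 : ℝ), (Iic h).indicator k l)
        - (exp (κ * h) - 1) / (2 * h) * (∫ l in Ioi (0 : ℝ), k l * D2 μ p τ l) ≤
      ∫ l in Ioi (0 : ℝ), k l * qh μ p τ h l := by
    have : Ioo (0 : ℝ) 1 ∈ 𝓝[>] (0 : ℝ) := Ioo_mem_nhdsGT one_pos
    filter_upwards [this] with h hh
    exact low h hh.1 hh.2.le
  have hfin := le_of_tendsto_of_tendsto lim2 lim1 hev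
  have e1 : (∫ l in Ioi (0 : ℝ), k l * (p / 2 * b μ p r q τ l)) =
      p / 2 * ∫ l in Ioi (0 : ℝ), k l * b μ p r q τ l := by
    rw [← integral_const_mul]; congr 1; funext l; ring
  rw [e1] at hfin
  linarith

lemma Phi_meas : AEMeasurable (fun l => Phi μ p q τ l) (volume.restrict (Ioi 0)) := by
  have h1 : AntitoneOn (fun l => ∫ z, q z ^ 2 * τ l z ^ (p - 2) ∂μ) (Ioi 0) := by
    intro l hl l' hl' hll
    have hl0 : (0 : ℝ) ≤ l := le_of_lt hl
    have hl0' : (0 : ℝ) ≤ l' := le_of_lt hl'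
    have I : ∀ s : ℝ, 0 ≤ s → Integrable (fun z => q z ^ 2 * τ s z ^ (p - 2)) μ := by
      intro s hs
      have := (H.Phi_int s hs).const_mul (exp (-((2 / p - 1) * s)))
      refine this.congr (Eventually.of_forall fun z => ?_)
      show exp (-((2 / p - 1) * s)) * (exp ((2 / p - 1) * s) * (q z ^ 2 * τ s z ^ (p - 2))) = _
      rw [← mul_assoc, ← exp_add]; simp
    refine integral_mono (I l' hl0') (I l hl0) fun z => ?_
    exact mul_le_mul_of_nonneg_left (rpow_le_rpow_of_nonpos (H.tpos l z hl0)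
      (H.mono l l' z hl0 hll) (by have := H.hp2; linarith)) (sq_nonneg _)
  have h2 := aemeasurable_restrict_of_antitoneOn measurableSet_Ioi h1 (μ := volume)
  have h3 : (fun l => Phi μ p q τ l) =
      fun l => exp ((2 / p - 1) * l) * ∫ z, q z ^ 2 * τ l z ^ (p - 2) ∂μ := by
    funext l; unfold Phi; rw [integral_const_mul]
  rw [h3]
  exact (by fun_prop : Measurable fun l : ℝ => exp ((2 / p - 1) * l)).aemeasurable.mul h2

lemma Phi_le (l : ℝ) (hl : 0 ≤ l) :
    Phi μ p q τ l ≤ exp ((2 / p - 1) * l) * Phi μ p q τ 0 := by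
  unfold Phi
  rw [← integral_const_mul]
  refine integral_mono (H.Phi_int l hl) ((H.Phi_int 0 le_rfl).const_mul _) fun z => ?_
  have h1 : τ l z ^ (p - 2) ≤ τ 0 z ^ (p - 2) :=
    rpow_le_rpow_of_nonpos (H.pos z) (H.mono 0 l z le_rfl hl) (by have := H.hp2; linarith)
  have h2 : q z ^ 2 * τ l z ^ (p - 2) ≤ q z ^ 2 * τ 0 z ^ (p - 2) :=
    mul_le_mul_of_nonneg_left h1 (sq_nonneg _)
  have h3 := mul_le_mul_of_nonneg_left h2 (exp_pos ((2 / p - 1) * l)).le
  simpa using h3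

/-- **RETENTION LEMMA** (helper43): the delayed `|X|²` term gives back its `l = 0` value. -/
theorem retention {k : ℝ → ℝ} (K : Ker ((1 - r / p) * p / 4) k) :
    IntegrableOn (fun l => k l * Phi μ p q τ l) (Ioi 0) ∧
    (∫ l in Ioi (0 : ℝ), k l) * Phi μ p q τ 0
      - 2 * (2 / p - 1) * (∫ l in Ioi (0 : ℝ), k l * (exp ((p / (2 * r) - 1 / 2) * l) - 1))
        * EE μ p r q τ
      ≤ ∫ l in Ioi (0 : ℝ), k l * Phi μ p q τ l := by
  have hth := H.theta_pos
  have hw := H.w0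
  have hp := H.p0
  set θ := 2 / p - 1 with hθ
  set w := 1 - r / p with hwd
  set β := p / (2 * r) - 1 / 2 with hβ
  obtain ⟨Cb, hCb0, hCb⟩ := H.b_bd
  have hD2bd : ∀ l, 0 < l → |D2 μ p τ l| ≤ 2 * M μ p τ := fun l hl => by
    rw [abs_of_nonneg (D2_nonneg l)]; exact H.D2_le' l hl.le
  have IΦ : IntegrableOn (fun l => k l * Phi μ p q τ l) (Ioi 0) := by
    refine ((K.mom θ).mul_const (Phi μ p q τ 0)).mono'
      (K.meas.aemeasurable.mul H.Phi_meas).aestronglyMeasurable ?_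
    filter_upwards [ae_restrict_mem measurableSet_Ioi] with l hl
    have hl0 : (0 : ℝ) ≤ l := le_of_lt hl
    rw [norm_eq_abs, abs_of_nonneg (mul_nonneg (K.nonneg l) (H.Phi_nonneg l hl0))]
    calc k l * Phi μ p q τ l ≤ k l * (exp (θ * l) * Phi μ p q τ 0) :=
          mul_le_mul_of_nonneg_left (H.Phi_le l hl0) (K.nonneg l)
      _ = _ := by ring
  refine ⟨IΦ, ?_⟩
  have Ib := K.int_mul H.b_meas Cb fun l hl => hCb l hl.le
  have ID := K.int_mul H.D2_meas (2 * M μ p τ) hD2bd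
  have Ie : IntegrableOn (fun l => k l * (exp (β * l) - 1)) (Ioi 0) := by
    have := (K.mom β).sub K.int
    refine this.congr (Eventually.of_forall fun l => ?_)
    show exp (β * l) * k l - k l = _
    ring
  have hint : ∫ l in Ioi (0 : ℝ), ((k l * Phi μ p q τ 0 + 4 * θ / w * (k l * b μ p r q τ l)
      + θ * (k l * D2 μ p τ l)) - (2 * θ * EE μ p r q τ) * (k l * (exp (β * l) - 1))) ≤
      ∫ l in Ioi (0 : ℝ), k l * Phi μ p q τ l := by
    refine setIntegral_mono_on ((((K.int.mul_const _).add (Ib.const_mul _)).add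
      (ID.const_mul _)).sub (Ie.const_mul _)) IΦ measurableSet_Ioi fun l hl => ?_
    have h1 := mul_le_mul_of_nonneg_left (H.Phi_ge l (le_of_lt hl)) (K.nonneg l)
    refine le_trans (le_of_eq ?_) h1
    ring
  have s1 := integral_sub (((K.int.mul_const (Phi μ p q τ 0)).add (Ib.const_mul (4 * θ / w))).add
      (ID.const_mul θ)) (Ie.const_mul (2 * θ * EE μ p r q τ))
  have s2 := integral_add ((K.int.mul_const (Phi μ p q τ 0)).add (Ib.const_mul (4 * θ / w)))
      (ID.const_mul θ)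
  have s3 := integral_add (K.int.mul_const (Phi μ p q τ 0)) (Ib.const_mul (4 * θ / w))
  simp only [Pi.add_apply] at s1 s2 s3
  rw [s1, s2, s3] at hint
  simp only [integral_const_mul, integral_mul_const] at hint
  have hk := H.key_b K
  have h9 : 4 * θ / w * ∫ l in Ioi (0 : ℝ), k l * b μ p r q τ l ≥
      -(θ * ∫ l in Ioi (0 : ℝ), k l * D2 μ p τ l) := by
    have e : 4 * θ / w * ∫ l in Ioi (0 : ℝ), k l * b μ p r q τ l =
        (8 * θ / (w * p)) * (p / 2 * ∫ l in Ioi (0 : ℝ), k l * b μ p r q τ l) := by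
      field_simp; ring
    have e2 : -(θ * ∫ l in Ioi (0 : ℝ), k l * D2 μ p τ l) =
        (8 * θ / (w * p)) * (-(w * p / 4 / 2) * ∫ l in Ioi (0 : ℝ), k l * D2 μ p τ l) := by
      field_simp; ring
    rw [e, e2]
    exact mul_le_mul_of_nonneg_left hk (by positivity)
  nlinarith

/-! ### contraction -/

/-- `∫ y² t^p` -/
noncomputable def Y2 (μ : Measure α) (p r : ℝ) (q : α → ℝ) (τ : ℝ → α → ℝ) : ℝ :=
  ∫ z, (yy p r (q z / τ 0 z) * g p τ 0 z) ^ 2 ∂μ

omit H in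
lemma Y2_nonneg : 0 ≤ Y2 μ p r q τ := integral_nonneg fun _ => sq_nonneg _

/-- `b(l) ≤ √(Y2) √(D2 l)` -/
lemma b_le (l : ℝ) (hl : 0 ≤ l) :
    b μ p r q τ l ≤ √(Y2 μ p r q τ) * √(D2 μ p τ l) := by
  obtain ⟨CY, hCY0, hCY⟩ := H.exY
  set u : α → ℝ := fun z => yy p r (q z / τ 0 z) * g p τ 0 z with hu
  have um : Measurable u := H.ymeas.mul (H.gmeas 0 le_rfl)
  have ub : ∀ z, |u z| ≤ CY * g p τ 0 z := fun z => by
    rw [hu, abs_mul, abs_of_pos (H.gpos 0 z le_rfl)]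
    exact mul_le_mul_of_nonneg_right (hCY z) (H.gpos 0 z le_rfl).le
  have Iu : Integrable (fun z => u z ^ 2) μ := by
    refine H.int_dom _ (um.pow_const 2) (CY ^ 2) fun z => ?_
    rw [abs_of_nonneg (sq_nonneg _), ← sq_abs (u z), ← mul_pow]
    exact pow_le_pow_left₀ (abs_nonneg _) (ub z) 2
  have I1 := H.N_int u um CY ub l hl
  have I0 := H.N_int u um CY ub 0 le_rfl
  have Id : Integrable (fun z => (g p τ l z - g p τ 0 z) ^ 2) μ := by
    have i1 := H.int_gg l l hl hl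
    have i2 := H.int_gg 0 l le_rfl hl
    have i3 := H.int_gg 0 0 le_rfl le_rfl
    refine ((i1.sub (i2.const_mul 2)).add i3).congr (Eventually.of_forall fun z => ?_)
    show g p τ l z * g p τ l z - 2 * (g p τ 0 z * g p τ l z) + g p τ 0 z * g p τ 0 z = _
    ring
  have Iud : Integrable (fun z => u z * (g p τ l z - g p τ 0 z)) μ := by
    refine (I1.sub I0).congr (Eventually.of_forall fun z => ?_)
    show u z * g p τ l z - u z * g p τ 0 z = _
    ring
  set A := ∫ z, u z * (g p τ l z - g p τ 0 z) ∂μ with hA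
  have hb : b μ p r q τ l ≤ A := by
    have e1 : A = (∫ z, u z * g p τ l z ∂μ) - ∫ z, u z * g p τ 0 z ∂μ := by
      rw [hA, ← integral_sub I1 I0]; congr 1; funext z; ring
    have e2 : b μ p r q τ l = ∫ z, u z * g p τ l z ∂μ := by
      unfold b; congr 1; funext z; rw [hu]; ring
    have e3 : b μ p r q τ 0 = ∫ z, u z * g p τ 0 z ∂μ := by
      unfold b; congr 1; funext z; rw [hu]; ring
    have := H.b0
    rw [e1, ← e2, ← e3]; linarith
  have hdisc : ∀ s : ℝ, 0 ≤ D2 μ p τ l * (s * s) + (-2 * A) * s + Y2 μ p r q τ := by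
    intro s
    have h0 : 0 ≤ ∫ z, (u z - s * (g p τ l z - g p τ 0 z)) ^ 2 ∂μ :=
      integral_nonneg fun _ => sq_nonneg _
    have e : ∫ z, (u z - s * (g p τ l z - g p τ 0 z)) ^ 2 ∂μ =
        D2 μ p τ l * (s * s) + (-2 * A) * s + Y2 μ p r q τ := by
      have e1 : (fun z => (u z - s * (g p τ l z - g p τ 0 z)) ^ 2) = fun z =>
          (s * s) * (g p τ l z - g p τ 0 z) ^ 2 + (-2 * s) * (u z * (g p τ l z - g p τ 0 z))
            + u z ^ 2 := by funext z; ring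
      have s1 := integral_add ((Id.const_mul (s * s)).add (Iud.const_mul (-2 * s))) Iu
      have s2 := integral_add (Id.const_mul (s * s)) (Iud.const_mul (-2 * s))
      simp only [Pi.add_apply] at s1 s2
      rw [e1, s1, s2, integral_const_mul, integral_const_mul]
      unfold D2 Y2
      rw [← hA]; ring
    rwa [e] at h0
  have hd := discrim_le_zero hdisc
  unfold discrim at hd
  have h4 : A ^ 2 ≤ Y2 μ p r q τ * D2 μ p τ l := by nlinarith
  have h5 : A ≤ √(Y2 μ p r q τ * D2 μ p τ l) := Real.le_sqrt_of_sq_le h4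
  rw [Real.sqrt_mul Y2_nonneg] at h5
  exact hb.trans h5

end ret2

end Dat

/-- growth from left Dini derivatives -/
lemma dini (f : ℝ → ℝ) (κ : ℝ)
    (hinc : ∀ ε : ℝ, 0 < ε → ∃ δ : ℝ, 0 < δ ∧ ∀ l' l, 0 ≤ l' → l' ≤ l → l - l' < δ →
      f l - f l' ≤ ε)
    (hd : ∀ l, 0 < l → ∀ ε : ℝ, 0 < ε → ∀ᶠ h in 𝓝[>] (0 : ℝ), f l - f (l - h) ≤ (κ + ε) * h) :
    ∀ l, 0 ≤ l → f l - f 0 ≤ κ * l := by
  intro l hl
  have main : ∀ ε : ℝ, 0 < ε → f l - f 0 ≤ (κ + ε) * l := by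
    intro ε hε
    set A : Set ℝ := {s | 0 ≤ s ∧ s ≤ l ∧ f l - f s ≤ (κ + ε) * (l - s)} with hA
    have hlA : l ∈ A := ⟨hl, le_rfl, by simp⟩
    have hbd : BddBelow A := ⟨0, fun s hs => hs.1⟩
    set s₀ := sInf A with hs₀
    have h0 : 0 ≤ s₀ := le_csInf ⟨l, hlA⟩ fun s hs => hs.1
    have h1 : s₀ ≤ l := csInf_le hbd hlA
    have hs₀A : s₀ ∈ A := by
      refine ⟨h0, h1, ?_⟩
      refine le_of_forall_pos_le_add fun η hη => ?_
      obtain ⟨δ, hδ, hδ'⟩ := hinc (η / 2) (by positivity)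
      have hδ2 : 0 < min δ (η / 2 / (|κ + ε| + 1)) := by positivity
      obtain ⟨s, hsA, hs⟩ := exists_lt_of_csInf_lt ⟨l, hlA⟩
        (show sInf A < s₀ + min δ (η / 2 / (|κ + ε| + 1)) by rw [← hs₀]; linarith)
      have hs2 : s₀ ≤ s := csInf_le hbd hsA
      have h3 := hδ' s₀ s h0 hs2 (by have := min_le_left δ (η / 2 / (|κ + ε| + 1)); linarith)
      have h4 := hsA.2.2
      have h5 : s - s₀ ≤ η / 2 / (|κ + ε| + 1) := by
        have := min_le_right δ (η / 2 / (|κ + ε| + 1)); linarith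
      have h6 : -(κ + ε) * (s - s₀) ≤ η / 2 := by
        have h7 : -(κ + ε) ≤ |κ + ε| + 1 := by have := neg_abs_le (κ + ε); linarith
        calc -(κ + ε) * (s - s₀) ≤ (|κ + ε| + 1) * (s - s₀) :=
              mul_le_mul_of_nonneg_right h7 (by linarith)
          _ ≤ (|κ + ε| + 1) * (η / 2 / (|κ + ε| + 1)) :=
              mul_le_mul_of_nonneg_left h5 (by positivity)
          _ = η / 2 := by field_simp
      nlinarith
    by_contra hcon
    have hpos : 0 < s₀ := by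
      rcases h0.eq_or_lt with h | h
      · exfalso; apply hcon; rw [← h] at hs₀A; simpa using hs₀A.2.2
      · exact h
    have hev := (hd s₀ hpos ε hε).and (Ioo_mem_nhdsGT hpos)
    obtain ⟨h, hh1, hh2⟩ := hev.exists
    have hmem : s₀ - h ∈ A := by
      refine ⟨by linarith [hh2.2], by linarith [hh2.1], ?_⟩
      have := hs₀A.2.2
      nlinarith
    have := csInf_le hbd hmem
    linarith [hh2.1]
  refine le_of_forall_pos_le_add fun η hη => ?_
  have h1 := main (η / (l + 1)) (by positivity)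
  have h2 : η / (l + 1) * l ≤ η := by
    rw [div_mul_eq_mul_div, div_le_iff₀ (by positivity)]; nlinarith
  nlinarith

namespace Dat

variable {μ : Measure α} {p r : ℝ} {q : α → ℝ} {τ : ℝ → α → ℝ}

/-- **CONTRACTION ESTIMATE** (helper94, helper39, helper47) -/
theorem contraction (H : Dat μ p r q τ) (l : ℝ) (hl : 0 ≤ l) :
    √(D2 μ p τ l) ≤ p / 2 * √(Y2 μ p r q τ) * l := by
  set κ := p / 2 * √(Y2 μ p r q τ) with hκ
  have hκ0 : 0 ≤ κ := by have := H.p0; positivity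
  have hM := M_nonneg (μ := μ) (p := p) (τ := τ)
  have hC1 := H.C1_pos
  have hstep : ∀ h l, 0 < h → h ≤ 1 → h ≤ l →
      D2 μ p τ l - D2 μ p τ (l - h) ≤ 2 * h * (C1 p r * M μ p τ) := by
    intro h l h0 h1 hl
    have e1 := H.D2_step h l h0 hl
    have e2 := (abs_le.mp (H.qh_bd h l h0 h1 (h0.le.trans hl))).2
    nlinarith [mul_le_mul_of_nonneg_left e2 h0.le]
  have main := dini (fun l => √(D2 μ p τ l)) κ ?_ ?_ l hl
  · have h0 : D2 μ p τ 0 = 0 := by
      unfold D2; simp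
    simp only [h0, Real.sqrt_zero, sub_zero] at main
    exact main
  · intro ε hε
    refine ⟨min 1 (ε ^ 2 / (2 * (C1 p r * M μ p τ) + 1)), by positivity, ?_⟩
    intro l' l hl' hll hlt
    rcases hll.eq_or_lt with h | h
    · rw [h]; simp; exact hε.le
    have h1 := hstep (l - l') l (by linarith)
      (by have := min_le_left 1 (ε ^ 2 / (2 * (C1 p r * M μ p τ) + 1)); linarith) (by linarith)
    rw [sub_sub_cancel] at h1
    have h2 : l - l' ≤ ε ^ 2 / (2 * (C1 p r * M μ p τ) + 1) := by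
      have := min_le_right 1 (ε ^ 2 / (2 * (C1 p r * M μ p τ) + 1)); linarith
    have h3 : 2 * (l - l') * (C1 p r * M μ p τ) ≤ ε ^ 2 := by
      have hA : 0 ≤ C1 p r * M μ p τ := by positivity
      rw [le_div_iff₀ (by positivity)] at h2
      nlinarith
    have h4 : D2 μ p τ l ≤ D2 μ p τ l' + ε ^ 2 := by linarith
    have h5 : √(D2 μ p τ l) ≤ √(D2 μ p τ l') + ε := by
      rw [Real.sqrt_le_left (by positivity)]
      have := Real.sq_sqrt (D2_nonneg (μ := μ) (p := p) (τ := τ) l')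
      have h6 := Real.sqrt_nonneg (D2 μ p τ l')
      nlinarith
    show √(D2 μ p τ l) - √(D2 μ p τ l') ≤ ε
    linarith
  · intro l hl ε hε
    show ∀ᶠ h in 𝓝[>] (0 : ℝ), √(D2 μ p τ l) - √(D2 μ p τ (l - h)) ≤ (κ + ε) * h
    set u := √(D2 μ p τ l) with hu
    have hu0 : 0 ≤ u := Real.sqrt_nonneg _
    rcases hu0.eq_or_lt with hz | hpos
    · filter_upwards [self_mem_nhdsWithin] with h hh
      have : (0 : ℝ) < h := hh
      rw [← hz]
      have := Real.sqrt_nonneg (D2 μ p τ (l - h))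
      nlinarith [mul_nonneg (by linarith : 0 ≤ κ + ε) (le_of_lt hh)]
    · have hb := H.b_le l hl.le
      have hv := H.vel l hl.le
      have hlim : p / 2 * b μ p r q τ l ≤ κ * u := by
        have hp := H.p0
        calc p / 2 * b μ p r q τ l ≤ p / 2 * (√(Y2 μ p r q τ) * u) :=
              mul_le_mul_of_nonneg_left hb (by positivity)
          _ = κ * u := by rw [hκ]; ring
      have hlt : p / 2 * b μ p r q τ l < κ * u + ε * u / 2 := by
        have : 0 < ε * u / 2 := by positivity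
        linarith
      have hev1 : ∀ᶠ h in 𝓝[>] (0 : ℝ), qh μ p τ h l < κ * u + ε * u / 2 :=
        hv.eventually (gt_mem_nhds hlt)
      have hsmall : ∀ᶠ h in 𝓝[>] (0 : ℝ), h < ε * u / (2 * (κ + ε) * (κ + ε / 2) + 1) :=
        by
          filter_upwards [Ioo_mem_nhdsGT
            (by positivity : 0 < ε * u / (2 * (κ + ε) * (κ + ε / 2) + 1))] with h hh
          exact hh.2
      filter_upwards [hev1, hsmall, Ioo_mem_nhdsGT hl] with h h1 h2 h3
      have hs := H.D2_step h l h3.1 h3.2.le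
      set v := √(D2 μ p τ (l - h)) with hv'
      have hv0 : 0 ≤ v := Real.sqrt_nonneg _
      have eu : u ^ 2 = D2 μ p τ l := Real.sq_sqrt (D2_nonneg l)
      have ev : v ^ 2 = D2 μ p τ (l - h) := Real.sq_sqrt (D2_nonneg _)
      rw [← eu, ← ev] at hs
      have hs2 : u ^ 2 - v ^ 2 ≤ 2 * h * (κ * u + ε * u / 2) :=
        hs.trans (mul_le_mul_of_nonneg_left h1.le (by linarith [h3.1]))
      by_contra hcon
      push Not at hcon
      -- u - v > (κ+ε) h ; first v ≥ u - 2 h (κ + ε/2)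
      have k1 : u - v ≤ 2 * h * (κ + ε / 2) := by
        by_contra hc
        push Not at hc
        have : 2 * h * (κ + ε / 2) * u < (u - v) * (u + v) := by
          have huv : 0 < u - v := lt_of_le_of_lt (by have := h3.1; positivity) hc
          nlinarith [mul_nonneg huv.le hv0]
        nlinarith
      have k2 : (κ + ε) * h * (2 * u - 2 * h * (κ + ε / 2)) ≤ (u - v) * (u + v) := by
        have a1 : 2 * u - 2 * h * (κ + ε / 2) ≤ u + v := by linarith
        have a2 : 0 ≤ u - v := le_trans (by have := h3.1; positivity) hcon.le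
        have a3 : 0 ≤ (κ + ε) * h := by have := h3.1; positivity
        calc (κ + ε) * h * (2 * u - 2 * h * (κ + ε / 2)) ≤ (κ + ε) * h * (u + v) :=
              mul_le_mul_of_nonneg_left a1 a3
          _ ≤ (u - v) * (u + v) := mul_le_mul_of_nonneg_right hcon.le (by linarith)
      -- (κ+ε)(2u - 2h(κ+ε/2)) > 2 (κ u + ε u/2)
      have k3 : h * (2 * (κ + ε) * (κ + ε / 2) + 1) < ε * u := by
        rwa [lt_div_iff₀ (by positivity)] at h2
      have k4 : 2 * (κ * u + ε * u / 2) < (κ + ε) * (2 * u - 2 * h * (κ + ε / 2)) := by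
        nlinarith [h3.1]
      have k5 : 2 * h * (κ * u + ε * u / 2) < (κ + ε) * h * (2 * u - 2 * h * (κ + ε / 2)) := by
        nlinarith [mul_lt_mul_of_pos_left k4 h3.1]
      nlinarith

end Dat

end Pool.Agent.Lib.QNL.Ret16
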