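import Pool.Agent.Lib.QNL.HR46
import Pool.Agent.Lib.QNL.Ret16
import Pool.Agent.Lib.QNL.Ext17
import Pool.Agent.Lib.QNL.C2_36

/-!
Room QNL, group C: the concrete expanding family `A l t = U l {0 < ψ (t^r / w)}`, its level
functions, and the retention inequality `HR46.Ret` from the weak speed law.
-/

set_option autoImplicit false

namespace Pool.Agent.Lib.QNL.Geo46

open MeasureTheory Filter Topology Set
open scoped ENNReal
open Pool.Agent.Lib.QNL.FinN Pool.Agent.Lib.QNL.Lev32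

variable {ψ : ℝ → ℂ → ℝ} {p r : ℝ} {x : ℂ → ℂ}

/-- the sets of the base family in the variable `t`, `L = t^r / w` -/
def GG (ψ : ℝ → ℂ → ℝ) (p r t : ℝ) : Set ℂ := {z | 0 < ψ (t ^ r / (1 - r / p)) z}

/-- the expanding family -/
def AA (ψ : ℝ → ℂ → ℝ) (p r l t : ℝ) : Set ℂ := Ctr.U l (GG ψ p r t)

/-- the levels of the expanded family in the variable `L` -/
noncomputable def lL (ψ : ℝ → ℂ → ℝ) (l : ℝ) (z : ℂ) : ℝ :=
  lv (fun L => Ctr.U l {z | 0 < ψ L z}) z

/-- nest in the variable `L` -/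
theorem nestL {μ : ℂ → ℝ} (hF : Fam μ ψ) {M : ℝ} (hM0 : 0 ≤ M) (hM : ∀ z, μ z ≤ M) :
    Nest (fun L => {z | 0 < ψ L z}) := by
  refine ⟨fun L hL => (isOpen_U hF hL).measurableSet, fun L L' hL hLL z hz => ?_,
    ⟨M, hM0, fun L hL => ?_⟩⟩
  · exact lt_of_lt_of_le hz (hF.anti z L L' hL hLL)
  · ext z
    simp only [mem_ofPred_eq, mem_empty_iff_false, iff_false]
    intro hz
    exact lt_asymm hL (lt_of_mem hF hM (hM0.trans_lt hL) hz)

theorem expandL {μ : ℂ → ℝ} (hF : Fam μ ψ) {M : ℝ} (hM0 : 0 ≤ M) (hM : ∀ z, μ z ≤ M) :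
    Contr32.Expand volume (fun l L => Ctr.U l {z | 0 < ψ L z}) :=
  Ctr.expand (nestL hF hM0 hM) fun _ hL => isOpen_U hF hL

theorem level_pos (hr : 1 ≤ r) (hrp : r < p) {t : ℝ} (ht : 0 < t) : 0 < t ^ r / (1 - r / p) := by
  have := w_pos hr hrp
  positivity

theorem nestG {μ : ℂ → ℝ} (hF : Fam μ ψ) (hr : 1 ≤ r) (hrp : r < p) {M : ℝ} (hM0 : 0 ≤ M)
    (hM : ∀ z, μ z ≤ M) : Nest (GG ψ p r) := by
  have hw := w_pos hr hrp
  have hr0 : 0 < r := by linarith
  refine ⟨fun t ht => (isOpen_U hF (level_pos hr hrp ht)).measurableSet,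
    fun t t' ht htt z hz => ?_, ⟨((1 - r / p) * M) ^ (1 / r), by positivity, fun t ht => ?_⟩⟩
  · have h1 : t ^ r / (1 - r / p) ≤ t' ^ r / (1 - r / p) :=
      div_le_div_of_nonneg_right (Real.rpow_le_rpow ht.le htt hr0.le) hw.le
    exact lt_of_lt_of_le hz (hF.anti z _ _ (level_pos hr hrp ht) h1)
  · ext z
    simp only [GG, mem_ofPred_eq, mem_empty_iff_false, iff_false]
    intro hz
    have ht0 : 0 < t := lt_of_le_of_lt (by positivity) ht
    have h1 := lt_of_mem hF hM (level_pos hr hrp ht0) hz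
    rw [div_lt_iff₀ hw] at h1
    have h2 : (((1 - r / p) * M) ^ (1 / r)) ^ r < t ^ r :=
      Real.rpow_lt_rpow (by positivity) ht hr0
    rw [← Real.rpow_mul (by positivity), one_div_mul_cancel hr0.ne', Real.rpow_one] at h2
    linarith

theorem expandA {μ : ℂ → ℝ} (hF : Fam μ ψ) (hr : 1 ≤ r) (hrp : r < p) {M : ℝ} (hM0 : 0 ≤ M)
    (hM : ∀ z, μ z ≤ M) : Contr32.Expand volume (AA ψ p r) :=
  Ctr.expand (nestG hF hr hrp hM0 hM) fun _ ht => isOpen_U hF (level_pos hr hrp ht)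

theorem flow {μ : ℂ → ℝ} (hF : Fam μ ψ) (hr : 1 ≤ r) (hrp : r < p) {M : ℝ} (hM0 : 0 ≤ M)
    (hM : ∀ z, μ z ≤ M) : HR46.Flow (AA ψ p r) :=
  ⟨(expandA hF hr hrp hM0 hM).nest,
    fun l _ _ ht => Ctr.isOpen_U Ctr.exist l (isOpen_U hF (level_pos hr hrp ht)),
    fun _ _ _ _ hll _ => Ctr.U_mono_left hll _⟩

theorem AA_zero (t : ℝ) : AA ψ p r 0 t = {z | 0 < ψ (t ^ r / (1 - r / p)) z} := Ctr.U_zero _

/-- the levels in the two variables -/
theorem lv_AA {μ : ℂ → ℝ} (hF : Fam μ ψ) (hr : 1 ≤ r) (hrp : r < p) {M : ℝ} (hM0 : 0 ≤ M)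
    (hM : ∀ z, μ z ≤ M) {l : ℝ} (hl : 0 ≤ l) (z : ℂ) :
    lv (AA ψ p r l) z = ((1 - r / p) * lL ψ l z) ^ (1 / r) := by
  have hw := w_pos hr hrp
  have hr0 : 0 < r := by linarith
  have nA := (expandA hF hr hrp hM0 hM).nest l hl
  have nL := (expandL hF hM0 hM).nest l hl
  have hL0 : 0 ≤ lL ψ l z := lv_nonneg _ _
  have hA0 : 0 ≤ lv (AA ψ p r l) z := lv_nonneg _ _
  refine le_antisymm ?_ ?_
  · by_contra hcon
    push Not at hcon
    obtain ⟨t, h1, h2⟩ := exists_between hcon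
    have ht : 0 < t := lt_of_le_of_lt (by positivity) h1
    have h3 : z ∈ AA ψ p r l t := nA.mem_of_lt_lv ht h2
    have h4 : t ^ r / (1 - r / p) ≤ lL ψ l z := nL.le_lv (level_pos hr hrp ht) h3
    rw [div_le_iff₀ hw] at h4
    have h5 : (((1 - r / p) * lL ψ l z) ^ (1 / r)) ^ r < t ^ r :=
      Real.rpow_lt_rpow (by positivity) h1 hr0
    rw [← Real.rpow_mul (by positivity), one_div_mul_cancel hr0.ne', Real.rpow_one] at h5
    linarith
  · by_contra hcon
    push Not at hcon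
    have h1 : lv (AA ψ p r l) z ^ r < (((1 - r / p) * lL ψ l z) ^ (1 / r)) ^ r :=
      Real.rpow_lt_rpow hA0 hcon hr0
    rw [← Real.rpow_mul (by positivity), one_div_mul_cancel hr0.ne', Real.rpow_one] at h1
    have h2 : lv (AA ψ p r l) z ^ r / (1 - r / p) < lL ψ l z := by
      rw [div_lt_iff₀ hw]; linarith
    obtain ⟨L, h3, h4⟩ := exists_between h2
    have hL : 0 < L := lt_of_le_of_lt (by positivity) h3
    have h5 : z ∈ Ctr.U l {z | 0 < ψ L z} := nL.mem_of_lt_lv hL h4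
    have ht : 0 < ((1 - r / p) * L) ^ (1 / r) := by positivity
    have hk : (((1 - r / p) * L) ^ (1 / r)) ^ r = (1 - r / p) * L := by
      rw [← Real.rpow_mul (by positivity), one_div_mul_cancel hr0.ne', Real.rpow_one]
    have h6 : z ∈ AA ψ p r l (((1 - r / p) * L) ^ (1 / r)) := by
      unfold AA GG
      rw [hk, mul_div_cancel_left₀ _ hw.ne']
      exact h5
    have h7 := nA.le_lv ht h6
    have h8 := Real.rpow_le_rpow ht.le h7 hr0.le
    rw [hk] at h8
    rw [div_lt_iff₀ hw] at h3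
    linarith

theorem lL_zero (z : ℂ) : lL ψ 0 z = lev ψ 0 z := by
  unfold lL lev lv
  simp only [Ctr.U_zero]
  rfl

/-- the link with the functions `u` -/
structure PosEq (ψ u : ℝ → ℂ → ℝ) : Prop where
  pos : ∀ L, 0 < L → {z | 0 < ψ L z} = {z | 0 < u L z}

theorem lL_mono {μ : ℂ → ℝ} (hF : Fam μ ψ) {M : ℝ} (hM0 : 0 ≤ M) (hM : ∀ z, μ z ≤ M)
    {l l' : ℝ} (hl : 0 ≤ l) (hll : l ≤ l') (z : ℂ) : lL ψ l z ≤ lL ψ l' z :=
  Lev32.lv_mono ((expandL hF hM0 hM).nest l' (hl.trans hll))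
    (fun _ _ => Ctr.U_mono_left hll _) z

/-- the clamp -/
theorem lL_le {μ ν : ℂ → ℝ} {C : ℝ} {u : ℝ → ℂ → ℝ} (hF : Fam μ ψ) (hu : O.Fam ν C u)
    (he : PosEq ψ u) {M : ℝ} (hM0 : 0 ≤ M) (hM : ∀ z, μ z ≤ M) {l : ℝ} (hl : 0 ≤ l) (z : ℂ) :
    lL ψ l z ≤ Real.exp l * lL ψ 0 z := by
  have n0 := (expandL hF hM0 hM).nest 0 le_rfl
  have nl := (expandL hF hM0 hM).nest l hl
  by_contra hcon
  push Not at hcon
  obtain ⟨L, h1, h2⟩ := exists_between hcon
  have hL0 : 0 ≤ lL ψ 0 z := lv_nonneg _ _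
  have hL : 0 < L := lt_of_le_of_lt (mul_nonneg (Real.exp_pos l).le hL0) h1
  have h3 : z ∈ Ctr.U l {z | 0 < ψ L z} := nl.mem_of_lt_lv hL h2
  rw [he.pos L hL] at h3
  have h4 := Ctr.U_fam_subset hu hL hl h3
  have hL' : 0 < L * Real.exp (-l) := mul_pos hL (Real.exp_pos _)
  rw [← he.pos _ hL'] at h4
  have h5 : z ∈ Ctr.U 0 {z | 0 < ψ (L * Real.exp (-l)) z} := by rw [Ctr.U_zero]; exact h4
  have h6 : L * Real.exp (-l) ≤ lL ψ 0 z := n0.le_lv hL' h5
  have h7 : Real.exp l * (L * Real.exp (-l)) = L := by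
    have : Real.exp l * Real.exp (-l) = 1 := by rw [← Real.exp_add]; simp
    calc Real.exp l * (L * Real.exp (-l)) = L * (Real.exp l * Real.exp (-l)) := by ring
      _ = L := by rw [this, mul_one]
  have h8 := mul_le_mul_of_nonneg_left h6 (Real.exp_pos l).le
  rw [h7] at h8
  linarith

/-- the same for the amplitudes -/
theorem lv_AA_le {μ ν : ℂ → ℝ} {C : ℝ} {u : ℝ → ℂ → ℝ} (hF : Fam μ ψ) (hu : O.Fam ν C u)
    (he : PosEq ψ u) (hr : 1 ≤ r) (hrp : r < p) {M : ℝ} (hM0 : 0 ≤ M) (hM : ∀ z, μ z ≤ M)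
    {l : ℝ} (hl : 0 ≤ l) (z : ℂ) :
    lv (AA ψ p r l) z ≤ Real.exp (l / r) * lv (AA ψ p r 0) z := by
  have hw := w_pos hr hrp
  have hr0 : 0 < r := by linarith
  rw [lv_AA hF hr hrp hM0 hM hl, lv_AA hF hr hrp hM0 hM le_rfl]
  have hL0 : 0 ≤ lL ψ 0 z := lv_nonneg _ _
  have hLl : 0 ≤ lL ψ l z := lv_nonneg _ _
  have h1 := lL_le hF hu he hM0 hM hl z
  calc ((1 - r / p) * lL ψ l z) ^ (1 / r) ≤ (Real.exp l * ((1 - r / p) * lL ψ 0 z)) ^ (1 / r) := by
        apply Real.rpow_le_rpow (by positivity) _ (by positivity)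
        calc (1 - r / p) * lL ψ l z ≤ (1 - r / p) * (Real.exp l * lL ψ 0 z) :=
              mul_le_mul_of_nonneg_left h1 hw.le
          _ = _ := by ring
    _ = _ := by
        rw [Real.mul_rpow (Real.exp_pos l).le (by positivity), ← Real.exp_mul]
        congr 2
        ring

/-! ### The data of the retention lemma -/

section dat

variable {ν : ℂ → ℝ} {C : ℝ} {u : ℝ → ℂ → ℝ}

theorem lv_zero (hr : 1 ≤ r) (hrp : r < p) (hx : Continuous x) (hxc : HasCompactSupport x)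
    (hF : Fam (fun z => ‖x z‖ ^ r) ψ) (z : ℂ) : lv (AA ψ p r 0) z = tt p r ψ z :=
  HR46.lv_eq_tt hr hrp hx hxc hF (fun t _ => AA_zero t) z

/-- everything is positive if `x` is not zero -/
theorem tt_pos' (hr : 1 ≤ r) (hrp : r < p) (hx : Continuous x) (hxc : HasCompactSupport x)
    (hF : Fam (fun z => ‖x z‖ ^ r) ψ) (hne : ∃ z, x z ≠ 0) (z : ℂ) : 0 < tt p r ψ z := by
  have hw := w_pos hr hrp
  have hr0 : 0 < r := by linarith
  obtain ⟨M, hM0, hM⟩ := exists_bound hx hxc hr0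
  obtain ⟨z0, hz0⟩ := hne
  obtain ⟨l0, h1, h2⟩ := exists_le_lev hF hM
    ⟨z0, Real.rpow_pos_of_pos (norm_pos_iff.2 hz0) _⟩ ‖z‖
  have h3 : 0 < lev ψ 0 z := h1.trans_le (h2 z le_rfl)
  unfold tt
  positivity

theorem lint_fin (hr : 1 ≤ r) (hrp : r < p) (hx : Continuous x) (hxc : HasCompactSupport x)
    (hF : Fam (fun z => ‖x z‖ ^ r) ψ) :
    ∫⁻ z, ENNReal.ofReal (lv (AA ψ p r 0) z ^ p) = ENNReal.ofReal (∫ z, tt p r ψ z ^ p) := by
  rw [ofReal_integral_eq_lintegral_ofReal (mass_real (p := p) hr hrp hx hxc hF).1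
    (Eventually.of_forall fun z => Real.rpow_nonneg (tt_nonneg hr hrp z) _)]
  refine lintegral_congr fun z => ?_
  rw [lv_zero hr hrp hx hxc hF]

/-- the volume hypothesis of `HR46.hR` -/
theorem hvol (hr : 1 ≤ r) (hrp : r < p) (hx : Continuous x) (hxc : HasCompactSupport x)
    (hF : Fam (fun z => ‖x z‖ ^ r) ψ) (l : ℝ) (hl : 0 < l) :
    ∫⁻ z, ENNReal.ofReal (lv (AA ψ p r l) z ^ p) ≤
      ENNReal.ofReal (Real.exp l * ∫ z, tt p r ψ z ^ p) := by
  have hr0 : 0 < r := by linarith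
  obtain ⟨M, hM0, hM⟩ := exists_bound hx hxc hr0
  rw [(expandA hF hr hrp hM0 hM).lint_pow (by linarith) hl.le, lint_fin hr hrp hx hxc hF,
    ENNReal.ofReal_mul (Real.exp_pos l).le]

theorem g_eq_mm (A : ℝ → ℝ → Set ℂ) (l : ℝ) (z : ℂ) :
    Ret16.g p (fun l z => lv (A l) z) l z = Contr32.mm p A l z := by
  unfold Ret16.g Contr32.mm
  rw [neg_div]

theorem g_eq_lL {μ : ℂ → ℝ} (hF : Fam μ ψ) (hr : 1 ≤ r) (hrp : r < p) {M : ℝ} (hM0 : 0 ≤ M)
    (hM : ∀ z, μ z ≤ M) {l : ℝ} (hl : 0 ≤ l) (z : ℂ) :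
    Ret16.g p (fun l z => lv (AA ψ p r l) z) l z =
      (1 - r / p) ^ (p / (2 * r)) * (Real.exp (-l / 2) * lL ψ l z ^ (p / (2 * r))) := by
  have hw := w_pos hr hrp
  have hL0 : 0 ≤ lL ψ l z := lv_nonneg _ _
  unfold Ret16.g
  simp only
  rw [lv_AA hF hr hrp hM0 hM hl, ← Real.rpow_mul (by positivity), Real.mul_rpow hw.le hL0]
  have e : 1 / r * (p / 2) = p / (2 * r) := by
    rw [div_mul_div_comm, one_mul, mul_comm r 2]
  rw [e, neg_div]
  ring

/-- **the data of the retention lemma** -/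
theorem dat (hr : 1 ≤ r) (hrp : r < p) (hp2 : p < 2) (hx : Continuous x)
    (hxc : HasCompactSupport x) (hF : Fam (fun z => ‖x z‖ ^ r) ψ) (hu : O.Fam ν C u)
    (he : PosEq ψ u) (hne : ∃ z, x z ≠ 0)
    (hS : Ext17.Speed (fun z => ‖x z‖ ^ r) (lev ψ 0) (lL ψ)) :
    Ret16.Dat volume p r (fun z => ‖x z‖) (fun l z => lv (AA ψ p r l) z) := by
  have hw := w_pos hr hrp
  have hr0 : 0 < r := by linarith
  have hp0 : 0 < p := by linarith
  obtain ⟨M, hM0, hM⟩ := exists_bound hx hxc hr0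
  have hex := expandA hF hr hrp hM0 hM
  have htt : ∀ z, lv (AA ψ p r 0) z = tt p r ψ z := lv_zero hr hrp hx hxc hF
  have hpos : ∀ z, 0 < tt p r ψ z := tt_pos' hr hrp hx hxc hF hne
  have hmass := mass_real (p := p) hr hrp hx hxc hF
  have hfin : ∫⁻ z, ENNReal.ofReal (lv (AA ψ p r 0) z ^ p) ≠ ⊤ := by
    rw [lint_fin hr hrp hx hxc hF]; exact ENNReal.ofReal_ne_top
  refine ⟨by linarith, hp2, hr, hrp, fun z => ?_, fun l l' z hl hll => ?_, fun l z hl => ?_,
    fun l hl => (hex.nest l hl).measurable, ?_, fun l hl => ?_, hx.norm.measurable,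
    fun z => norm_nonneg _, ?_, ?_, fun l h hh hhl => ?_, fun l hl => ?_⟩
  · simp only [htt]; exact hpos z
  · exact (flow hF hr hrp hM0 hM).lv_mono hl hll z
  · exact lv_AA_le hF hu he hr hrp hM0 hM hl z
  · simp only [htt]; exact hmass.1
  · rw [integral_eq_lintegral_of_nonneg_ae
      (Eventually.of_forall fun z => Real.rpow_nonneg (lv_nonneg _ _) _)
      ((hex.nest l hl).measurable.pow_const p).aestronglyMeasurable,
      integral_eq_lintegral_of_nonneg_ae
      (Eventually.of_forall fun z => Real.rpow_nonneg (lv_nonneg _ _) _)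
      ((hex.nest 0 le_rfl).measurable.pow_const p).aestronglyMeasurable,
      hex.lint_pow hp0 hl, ENNReal.toReal_mul, ENNReal.toReal_ofReal (Real.exp_pos l).le]
  · refine ⟨(1 / (1 - r / p)) ^ (1 / r), fun z => ?_⟩
    simp only [htt]
    have h1 := mu_le_lev hF hM z
    have h2 : lev ψ 0 z = 1 / (1 - r / p) * tt p r ψ z ^ r := by
      rw [tt_rpow hr hrp, ← mul_assoc, one_div_mul_cancel hw.ne', one_mul]
    rw [h2] at h1
    have h3 := Real.rpow_le_rpow (by positivity) h1 (by positivity : 0 ≤ 1 / r)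
    rw [← Real.rpow_mul (norm_nonneg _), mul_one_div_cancel hr0.ne', Real.rpow_one,
      Real.mul_rpow (by positivity) (by have := hpos z; positivity),
      ← Real.rpow_mul (hpos z).le, mul_one_div_cancel hr0.ne', Real.rpow_one] at h3
    exact h3
  · simp only [htt]
    have e : (fun z => Ret16.yy p r (‖x z‖ / tt p r ψ z) * tt p r ψ z ^ p) =
        fun z => (1 - r / p) / r * (tt p r ψ z ^ p - ‖x z‖ ^ r * tt p r ψ z ^ (p - r)) := by
      funext z
      rw [← HR46.tt_sq hr hrp hx hxc hF hr0.ne' z]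
      unfold Ret16.yy
      ring
    rw [e, integral_const_mul, integral_sub hmass.1 (integrable_mu_tt hr hrp hx hxc hF)]
    have := hmass.2
    have h1 : 0 ≤ (1 - r / p) / r := by positivity
    nlinarith
  · simp only [g_eq_mm]
    have h1 := hex.inner_le hp0 hfin (l := 0) (l' := l - h) (k := h) le_rfl (by linarith) hh
    rw [zero_add, sub_add_cancel] at h1
    exact h1
  · -- the velocity
    set φ : ℂ → ℝ := Ret16.g p (fun l z => lv (AA ψ p r l) z) l with hφ
    have hφ2 : MemLp φ 2 volume := by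
      have h1 := hex.memLp hp0 hfin hl
      have h2 : φ = Contr32.mm p (AA ψ p r) l := by funext z; exact g_eq_mm _ _ _
      rw [h2]; exact h1
    have hLv : Ext17.Lv (fun z => ‖x z‖ ^ r) (lev ψ 0) (lL ψ) :=
      ⟨measurable_lev hF hM, fun h hh => ((expandL hF hM0 hM).nest h hh.le).measurable,
        hx.norm.measurable.pow_const r, fun z => by positivity, mu_le_lev hF hM,
        fun h hh z => by rw [← lL_zero]; exact lL_mono hF hM0 hM le_rfl hh.le z,
        fun h hh z => by rw [← lL_zero]; exact lL_le hF hu he hM0 hM hh.le z⟩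
    have hl2 : MemLp (fun z => lev ψ 0 z ^ (p / (2 * r))) 2 volume := by
      have h1 := hex.memLp hp0 hfin le_rfl
      have h2 := h1.const_mul (((1 - r / p) ^ (p / (2 * r)))⁻¹)
      refine (memLp_congr_ae (Eventually.of_forall fun z => ?_)).1 h2
      show ((1 - r / p) ^ (p / (2 * r)))⁻¹ * Contr32.mm p (AA ψ p r) 0 z = _
      rw [← g_eq_mm, g_eq_lL hF hr hrp hM0 hM le_rfl, lL_zero, ← mul_assoc,
        inv_mul_cancel₀ (by positivity), one_mul, neg_zero, zero_div, Real.exp_zero, one_mul]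
    have T := (Ext17.ext_y hLv hp0 hr0 hl2 hS hφ2).const_mul ((1 - r / p) ^ (p / (2 * r)))
    have e2 : (1 - r / p) ^ (p / (2 * r)) * (p / 2 * ∫ z, φ z * (((1 - ‖x z‖ ^ r / lev ψ 0 z) / r -
        1 / p) * lev ψ 0 z ^ (p / (2 * r)))) =
        p / 2 * ∫ z, Ret16.yy p r (‖x z‖ / lv (AA ψ p r 0) z) *
          (Ret16.g p (fun l z => lv (AA ψ p r l) z) 0 z * φ z) := by
      rw [mul_left_comm, ← integral_const_mul]
      congr 1
      refine integral_congr_ae (Eventually.of_forall fun z => ?_)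
      simp only
      rw [g_eq_lL hF hr hrp hM0 hM le_rfl, lL_zero, htt z]
      have ht := hpos z
      have hlev : 0 < lev ψ 0 z := by
        have h1 := tt_rpow (ψ := ψ) hr hrp z
        have h2 : 0 < tt p r ψ z ^ r := Real.rpow_pos_of_pos ht r
        rw [h1] at h2
        exact (mul_pos_iff_of_pos_left hw).1 h2
      have e3 : Ret16.yy p r (‖x z‖ / tt p r ψ z) = (1 - ‖x z‖ ^ r / lev ψ 0 z) / r - 1 / p := by
        unfold Ret16.yy
        rw [Real.div_rpow (norm_nonneg _) ht.le, tt_rpow hr hrp]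
        have k1 : (1 - r / p) / r = 1 / r - 1 / p := by field_simp
        have k2 : (1 - r / p) / r * (‖x z‖ ^ r / ((1 - r / p) * lev ψ 0 z)) =
            ‖x z‖ ^ r / lev ψ 0 z / r := by
          generalize 1 - r / p = w at hw
          field_simp
        rw [mul_sub, mul_one, k2, k1]
        ring
      rw [e3, neg_zero, zero_div, Real.exp_zero, one_mul]
      ring
    rw [e2] at T
    refine T.congr' ?_
    filter_upwards [self_mem_nhdsWithin] with h hh
    have hh0 : (0 : ℝ) < h := hh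
    rw [← mul_assoc, mul_comm _ h⁻¹, mul_assoc, ← integral_const_mul, one_div]
    congr 1
    refine integral_congr_ae (Eventually.of_forall fun z => ?_)
    simp only
    rw [g_eq_lL hF hr hrp hM0 hM hh0.le, g_eq_lL hF hr hrp hM0 hM le_rfl, lL_zero]
    rw [neg_zero, zero_div, Real.exp_zero, one_mul]
    ring

/-- **the retention inequality for the concrete family**, from the weak speed law -/
theorem ret (hr : 1 ≤ r) (hrp : r < p) (hp2 : p < 2) (hx : Continuous x)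
    (hxc : HasCompactSupport x) (hF : Fam (fun z => ‖x z‖ ^ r) ψ) (hu : O.Fam ν C u)
    (he : PosEq ψ u) (hS : Ext17.Speed (fun z => ‖x z‖ ^ r) (lev ψ 0) (lL ψ)) {k1 : ℝ → ℝ}
    (K : Ret16.Ker ((1 - r / p) * p / 4) k1) :
    HR46.Ret p r x ψ (AA ψ p r) k1 (∫ l in Ioi (0 : ℝ), k1 l)
      (∫ l in Ioi (0 : ℝ), k1 l * (Real.exp ((p / r - 1) * l / 2) - 1)) := by
  have hr0 : 0 < r := by linarith
  have hp0 : 0 < p := by linarith
  obtain ⟨M, hM0, hM⟩ := exists_bound hx hxc hr0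
  unfold HR46.Ret
  set K1 := ∫ l in Ioi (0 : ℝ), k1 l with hK1
  set eps := ∫ l in Ioi (0 : ℝ), k1 l * (Real.exp ((p / r - 1) * l / 2) - 1) with heps
  by_cases hne : ∃ z, x z ≠ 0
  swap
  · have h0 : ∀ z, x z = 0 := by
      intro z
      by_contra h
      exact hne ⟨z, h⟩
    have ht : ∀ z, tt p r ψ z = 0 := by
      intro z
      have h1 : lev ψ 0 z ≤ 0 := lev_le hF (fun w => by
        rw [h0 w, norm_zero, Real.zero_rpow hr0.ne']) le_rfl z
      have h2 : lev ψ 0 z = 0 := le_antisymm h1 (lev_nonneg ψ 0 z)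
      unfold tt
      rw [h2, mul_zero, Real.zero_rpow (by positivity)]
    have e : ∫ z, tt p r ψ z ^ p * (K1 * (‖x z‖ / tt p r ψ z) ^ 2 -
        2 * (2 / p - 1) * eps * ((‖x z‖ / tt p r ψ z) ^ 2 - 1 -
          2 / r * ((‖x z‖ / tt p r ψ z) ^ r - 1))) = 0 := by
      rw [← integral_zero ℂ ℝ]
      refine integral_congr_ae (Eventually.of_forall fun z => ?_)
      simp only
      rw [ht z, Real.zero_rpow hp0.ne', zero_mul]
    rw [e, ENNReal.ofReal_zero]
    exact zero_le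
  · have D := dat hr hrp hp2 hx hxc hF hu he hne hS
    have htt : ∀ z, lv (AA ψ p r 0) z = tt p r ψ z := lv_zero hr hrp hx hxc hF
    obtain ⟨hI, hret⟩ := D.retention K
    have heps' : ∫ l in Ioi (0 : ℝ), k1 l * (Real.exp ((p / (2 * r) - 1 / 2) * l) - 1) = eps := by
      rw [heps]
      congr 1
      funext l
      have : (p / (2 * r) - 1 / 2) * l = (p / r - 1) * l / 2 := by
        field_simp
      rw [this]
    rw [heps'] at hret
    -- the left side
    have hL : ∫ z, tt p r ψ z ^ p * (K1 * (‖x z‖ / tt p r ψ z) ^ 2 -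
        2 * (2 / p - 1) * eps * ((‖x z‖ / tt p r ψ z) ^ 2 - 1 -
          2 / r * ((‖x z‖ / tt p r ψ z) ^ r - 1))) =
        K1 * Ret16.Phi volume p (fun z => ‖x z‖) (fun l z => lv (AA ψ p r l) z) 0 -
        2 * (2 / p - 1) * eps *
          Ret16.EE volume p r (fun z => ‖x z‖) (fun l z => lv (AA ψ p r l) z) := by
      clear_value K1 eps
      unfold Ret16.Phi Ret16.EE
      simp only [htt, mul_zero, Real.exp_zero, one_mul]
      have i1 := HR46.integrable_sq (p := p) hr hrp hx hxc hF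
      have i2 := integrable_mu_tt (p := p) hr hrp hx hxc hF
      obtain ⟨i3, -⟩ := mass_real (p := p) hr hrp hx hxc hF
      have i4 : Integrable (fun z => Ret16.ee r (‖x z‖ / tt p r ψ z) * tt p r ψ z ^ p) := by
        refine ((i1.sub (i2.const_mul (2 / r))).add (i3.const_mul (2 / r - 1))).congr
          (Eventually.of_forall fun z => ?_)
        have e1 := HR46.tt_sq (p := p) hr hrp hx hxc hF (q := 2) two_ne_zero z
        have e2 := HR46.tt_sq (p := p) hr hrp hx hxc hF (q := r) hr0.ne' z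
        rw [Real.rpow_two, Real.rpow_two] at e1
        simp only [Pi.add_apply, Pi.sub_apply]
        rw [← e1, ← e2]
        unfold Ret16.ee
        ring
      rw [← integral_const_mul K1, ← integral_const_mul (2 * (2 / p - 1) * eps),
        ← integral_sub (i1.const_mul _) (i4.const_mul _)]
      refine integral_congr_ae (Eventually.of_forall fun z => ?_)
      simp only
      have e1 := HR46.tt_sq (p := p) hr hrp hx hxc hF (q := 2) two_ne_zero z
      rw [Real.rpow_two, Real.rpow_two] at e1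
      rw [← e1]
      unfold Ret16.ee
      ring
    rw [hL]
    refine (ENNReal.ofReal_le_ofReal hret).trans ?_
    rw [ofReal_integral_eq_lintegral_ofReal hI ((ae_restrict_iff' measurableSet_Ioi).2
      (Eventually.of_forall fun l hl => mul_nonneg (K.nonneg l) (D.Phi_nonneg l (le_of_lt hl))))]
    refine le_of_eq (setLIntegral_congr_fun measurableSet_Ioi fun l hl => ?_)
    have hl0 : (0 : ℝ) ≤ l := le_of_lt hl
    rw [ENNReal.ofReal_mul (K.nonneg l)]
    congr 1
    unfold Ret16.Phi HR46.FF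
    rw [ofReal_integral_eq_lintegral_ofReal (D.Phi_int l hl0) (Eventually.of_forall fun z =>
      mul_nonneg (Real.exp_pos _).le (mul_nonneg (sq_nonneg _)
        (Real.rpow_nonneg (lv_nonneg _ _) _))), ← lintegral_const_mul' _ _ (by simp)]
    refine lintegral_congr fun z => ?_
    rw [ENNReal.ofReal_mul (Real.exp_pos _).le]

end dat

end Pool.Agent.Lib.QNL.Geo46
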