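import Mathlib

/-!
Calculus with `∂` and `∂̄` for functions `ℂ → ℂ` in predicate form:
`HW f p q z` says that `f` is real differentiable at `z` with `∂ f z = p` and `∂̄ f z = q`.
Product rule, conjugation, composition with a real profile, and the vanishing of the integrals
of `∂ Q`, `∂̄ Q` for `Q` with compact support.
-/

set_option autoImplicit false

namespace Pool.Agent.Lib.QNL.HW5

open MeasureTheory Filter Topology Set Complex
open scoped ComplexConjugate

/-- `f` is real differentiable at `z`, with `∂ f z = p` and `∂̄ f z = q`. -/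
def HW (f : ℂ → ℂ) (p q z : ℂ) : Prop :=
  HasFDerivAt f (p • (ContinuousLinearMap.id ℝ ℂ) + q • (Complex.conjCLE : ℂ →L[ℝ] ℂ)) z

theorem HW.congr {f : ℂ → ℂ} {p q p' q' z : ℂ} (h : HW f p q z) (hp : p = p') (hq : q = q') :
    HW f p' q' z := by
  subst hp; subst hq; exact h

theorem HW.congr_of_eventuallyEq {f f' : ℂ → ℂ} {p q z : ℂ} (h : HW f p q z)
    (h' : f' =ᶠ[𝓝 z] f) : HW f' p q z :=
  HasFDerivAt.congr_of_eventuallyEq h h'

theorem HW.continuousAt {f : ℂ → ℂ} {p q z : ℂ} (h : HW f p q z) : ContinuousAt f z :=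
  HasFDerivAt.continuousAt h

theorem HW.const (c z : ℂ) : HW (fun _ => c) 0 0 z := by
  unfold HW
  refine (hasFDerivAt_const (𝕜 := ℝ) c z).congr_fderiv (ContinuousLinearMap.ext fun v => ?_)
  simp

theorem HW.add {f g : ℂ → ℂ} {p q p' q' z : ℂ} (h : HW f p q z) (h' : HW g p' q' z) :
    HW (fun w => f w + g w) (p + p') (q + q') z := by
  unfold HW at *
  refine (h.add h').congr_fderiv (ContinuousLinearMap.ext fun v => ?_)
  simp
  ring

theorem HW.neg {f : ℂ → ℂ} {p q z : ℂ} (h : HW f p q z) :
    HW (fun w => - f w) (-p) (-q) z := by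
  unfold HW at *
  refine h.neg.congr_fderiv (ContinuousLinearMap.ext fun v => ?_)
  simp
  ring

theorem HW.sub {f g : ℂ → ℂ} {p q p' q' z : ℂ} (h : HW f p q z) (h' : HW g p' q' z) :
    HW (fun w => f w - g w) (p - p') (q - q') z := by
  simpa [sub_eq_add_neg] using h.add h'.neg

theorem HW.mul {f g : ℂ → ℂ} {p q p' q' z : ℂ} (h : HW f p q z) (h' : HW g p' q' z) :
    HW (fun w => f w * g w) (p * g z + f z * p') (q * g z + f z * q') z := by
  unfold HW at *
  refine (HasFDerivAt.mul h h').congr_fderiv (ContinuousLinearMap.ext fun v => ?_)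
  simp
  ring

theorem HW.conj {f : ℂ → ℂ} {p q z : ℂ} (h : HW f p q z) :
    HW (fun w => conj (f w)) (conj q) (conj p) z := by
  unfold HW at *
  refine ((Complex.conjCLE : ℂ →L[ℝ] ℂ).hasFDerivAt.comp z h).congr_fderiv
    (ContinuousLinearMap.ext fun v => ?_)
  simp
  ring

/-- composition of a real profile with a real function given by its `∂` derivative -/
theorem HW.profile {g : ℂ → ℝ} {G z : ℂ} {κ : ℝ → ℝ} {κ' : ℝ}
    (h : HW (fun w => (g w : ℂ)) G (conj G) z) (hκ : HasDerivAt κ κ' (g z)) :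
    HW (fun w => ((κ (g w) : ℝ) : ℂ)) ((κ' : ℂ) * G) ((κ' : ℂ) * conj G) z := by
  unfold HW at *
  have h1 : HasFDerivAt g (Complex.reCLM ∘L (G • (ContinuousLinearMap.id ℝ ℂ)
      + (conj G) • (Complex.conjCLE : ℂ →L[ℝ] ℂ))) z := by
    have := (Complex.reCLM).hasFDerivAt.comp z h
    exact this
  have h2 := hκ.comp_hasFDerivAt z h1
  refine ((Complex.ofRealCLM).hasFDerivAt.comp z h2).congr_fderiv
    (ContinuousLinearMap.ext fun v => ?_)
  apply Complex.ext
  · simp
    ring
  · simp
    ring

/-- uniqueness: a function vanishing near `z` has vanishing `∂`, `∂̄` -/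
theorem HW.zero_of_eventually {f : ℂ → ℂ} {p q z : ℂ} (h : HW f p q z)
    (h0 : f =ᶠ[𝓝 z] fun _ => 0) : p = 0 ∧ q = 0 := by
  have h1 : HasFDerivAt f (0 : ℂ →L[ℝ] ℂ) z :=
    (hasFDerivAt_const (0 : ℂ) z).congr_of_eventuallyEq h0
  have h2 := HasFDerivAt.unique h h1
  have e1 : p + q = 0 := by
    have := congrArg (fun L : ℂ →L[ℝ] ℂ => L 1) h2
    simpa using this
  have e2 : p * I - q * I = 0 := by
    have := congrArg (fun L : ℂ →L[ℝ] ℂ => L I) h2
    simpa [sub_eq_add_neg] using this
  have e3 : p - q = 0 := by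
    have : (p - q) * I = 0 := by rw [sub_mul]; exact e2
    rcases mul_eq_zero.1 this with h | h
    · exact h
    · exact absurd h Complex.I_ne_zero
  have hp : p = 0 := by
    have : 2 * p = 0 := by linear_combination e1 + e3
    simpa using this
  refine ⟨hp, ?_⟩
  rw [hp, zero_add] at e1
  exact e1

/-- the integrals of `∂ Q` and `∂̄ Q` vanish (`Q` of class `C¹` with compact support) -/
theorem int_zero {Q q1 q2 : ℂ → ℂ} {K : Set ℂ} (hK : IsCompact K)
    (hQ : ∀ z, HW Q (q1 z) (q2 z) z) (h0 : ∀ z, z ∉ K → Q z = 0)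
    (c1 : Continuous q1) (c2 : Continuous q2) :
    (Integrable q1 ∧ ∫ z, q1 z = 0) ∧ (Integrable q2 ∧ ∫ z, q2 z = 0) := by
  have hv : ∀ z, z ∉ K → q1 z = 0 ∧ q2 z = 0 := by
    intro z hz
    refine (hQ z).zero_of_eventually ?_
    filter_upwards [hK.isClosed.isOpen_compl.mem_nhds hz] with w hw using h0 w hw
  have i1 : Integrable q1 :=
    c1.integrable_of_hasCompactSupport (HasCompactSupport.intro hK fun z hz => (hv z hz).1)
  have i2 : Integrable q2 :=
    c2.integrable_of_hasCompactSupport (HasCompactSupport.intro hK fun z hz => (hv z hz).2)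
  have hQd : Differentiable ℝ Q := fun z => HasFDerivAt.differentiableAt (hQ z)
  have iQ : Integrable Q :=
    hQd.continuous.integrable_of_hasCompactSupport (HasCompactSupport.intro hK h0)
  have key : ∀ v : ℂ, ∫ z, (q1 z * v + q2 z * conj v) = 0 := by
    intro v
    have hf : ∀ z, fderiv ℝ Q z v = q1 z * v + q2 z * conj v := by
      intro z
      rw [HasFDerivAt.fderiv (hQ z)]
      simp
    have hi : Integrable (fun z => fderiv ℝ Q z v) := by
      have : (fun z => fderiv ℝ Q z v) = fun z => q1 z * v + q2 z * conj v := funext hf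
      rw [this]
      exact (i1.mul_const v).add (i2.mul_const _)
    have h := integral_mul_fderiv_eq_neg_fderiv_mul_of_integrable (μ := (volume : Measure ℂ))
      (f := fun _ : ℂ => (1 : ℂ)) (g := Q) (v := v) (by simp) (by simpa using hi)
      (by simpa using iQ) (fun x _ => differentiableAt_const _) (fun x _ => hQd x)
    simp only [one_mul, fderiv_fun_const, Pi.zero_apply, zero_apply,
      zero_mul, integral_zero, neg_zero] at h
    rw [← h]
    exact integral_congr_ae (Eventually.of_forall fun z => (hf z).symm)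
  have k1 := key 1
  have k2 := key I
  simp only [mul_one, map_one] at k1
  rw [integral_add i1 i2] at k1
  simp only [Complex.conj_I] at k2
  rw [integral_add (i1.mul_const _) (i2.mul_const _), integral_mul_const, integral_mul_const]
    at k2
  have k3 : (∫ z, q1 z) - ∫ z, q2 z = 0 := by
    have : ((∫ z, q1 z) - ∫ z, q2 z) * I = 0 := by linear_combination k2
    rcases mul_eq_zero.1 this with h | h
    · exact h
    · exact absurd h Complex.I_ne_zero
  have hp : (∫ z, q1 z) = 0 := by
    have : 2 * (∫ z, q1 z) = 0 := by linear_combination k1 + k3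
    simpa using this
  refine ⟨⟨i1, hp⟩, i2, ?_⟩
  rw [hp, zero_add] at k1
  exact k1

/-- local version: `Q` is `C¹` on the open set `D` and vanishes off a compact `K ⊆ D` -/
theorem int_zero_on {Q q1 q2 : ℂ → ℂ} {D K : Set ℂ} (hD : IsOpen D) (hK : IsCompact K)
    (hKD : K ⊆ D) (hQ : ∀ z ∈ D, HW Q (q1 z) (q2 z) z) (h0 : ∀ z, z ∉ K → Q z = 0)
    (c1 : ContinuousOn q1 D) (c2 : ContinuousOn q2 D) :
    (IntegrableOn q1 D ∧ ∫ z in D, q1 z = 0) ∧ (IntegrableOn q2 D ∧ ∫ z in D, q2 z = 0) := by
  have hv : ∀ z ∈ D, z ∉ K → q1 z = 0 ∧ q2 z = 0 := by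
    intro z hzD hz
    refine (hQ z hzD).zero_of_eventually ?_
    filter_upwards [hK.isClosed.isOpen_compl.mem_nhds hz] with w hw using h0 w hw
  have hcont : ∀ q : ℂ → ℂ, ContinuousOn q D → (∀ z ∈ D, z ∉ K → q z = 0) →
      Continuous (D.indicator q) := by
    intro q hq hq0
    rw [continuous_iff_continuousAt]
    intro z
    by_cases hz : z ∈ K
    · have : D.indicator q =ᶠ[𝓝 z] q := by
        filter_upwards [hD.mem_nhds (hKD hz)] with w hw
        rw [Set.indicator_of_mem hw]
      exact (hq.continuousAt (hD.mem_nhds (hKD hz))).congr this.symm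
    · have : D.indicator q =ᶠ[𝓝 z] fun _ => (0 : ℂ) := by
        filter_upwards [hK.isClosed.isOpen_compl.mem_nhds hz] with w hw
        by_cases hwD : w ∈ D
        · rw [Set.indicator_of_mem hwD, hq0 w hwD hw]
        · rw [Set.indicator_of_notMem hwD]
      exact continuousAt_const.congr this.symm
  have hQ' : ∀ z, HW Q (D.indicator q1 z) (D.indicator q2 z) z := by
    intro z
    by_cases hz : z ∈ D
    · rw [Set.indicator_of_mem hz, Set.indicator_of_mem hz]
      exact hQ z hz
    · rw [Set.indicator_of_notMem hz, Set.indicator_of_notMem hz]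
      have hzK : z ∉ K := fun h => hz (hKD h)
      refine (HW.const 0 z).congr_of_eventuallyEq ?_
      filter_upwards [hK.isClosed.isOpen_compl.mem_nhds hzK] with w hw using h0 w hw
  obtain ⟨⟨i1, e1⟩, i2, e2⟩ := int_zero hK hQ' h0
    (hcont q1 c1 fun z hz hz' => (hv z hz hz').1) (hcont q2 c2 fun z hz hz' => (hv z hz hz').2)
  refine ⟨⟨?_, ?_⟩, ?_, ?_⟩
  · rwa [integrable_indicator_iff hD.measurableSet] at i1
  · rwa [integral_indicator hD.measurableSet] at e1
  · rwa [integrable_indicator_iff hD.measurableSet] at i2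
  · rwa [integral_indicator hD.measurableSet] at e2

end Pool.Agent.Lib.QNL.HW5
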