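import Pool.Agent.Lib.QNL.Stmts
import Pool.Agent.Lib.QNL.Calc

/-!
Group E (3): Hardy inequalities in powers of `g` (`g > 0` on `D`, `Δ g = -1`, `c ≤ g + |∇ g|²`).
-/

set_option autoImplicit false

namespace Pool.Agent.Lib.QNL.Hardy

open MeasureTheory Set Filter Topology
open scoped ContDiff ComplexConjugate ENNReal
open Complex (I)
open Pool.Agent.Lib.QNL.Calc

section real
variable {D : Set ℂ} {g f : ℂ → ℝ}

/-- the divergence identity behind the Hardy inequality -/
theorem hardy_id (hD : IsOpen D) (hg : ContDiffOn ℝ ∞ g D) (hpos : ∀ z ∈ D, 0 < g z)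
    (hlap : ∀ z ∈ D, lap g z = -1) (hf : ContDiff ℝ 1 f) (hfc : HasCompactSupport f)
    (hfs : tsupport f ⊆ D) {ρ : ℝ → ℝ} (hρ : ContDiffOn ℝ 1 ρ (Ioi 0)) :
    Integrable (fun z => deriv ρ (g z) * gr g z * f z ^ 2 +
      2 * ρ (g z) * f z * (dx f z * dx g z + dy f z * dy g z) - ρ (g z) * f z ^ 2) ∧
    ∫ z, (deriv ρ (g z) * gr g z * f z ^ 2 +
      2 * ρ (g z) * f z * (dx f z * dx g z + dy f z * dy g z) - ρ (g z) * f z ^ 2) = 0 := by
  have hK : IsCompact (tsupport f) := hfc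
  have hρg : ContDiffOn ℝ 1 (fun z => ρ (g z)) D :=
    hρ.comp (hg.of_le (by simp)) (fun z hz => hpos z hz)
  have hgv : ∀ v, ContDiffOn ℝ 1 (dv v g) D := fun v => contDiffOn_dv hD hg (by norm_cast) v
  have hV : ∀ v, ContDiffOn ℝ 1 (fun z => ρ (g z) * f z ^ 2 * dv v g z) D := fun v =>
    (hρg.mul (hf.contDiffOn.pow 2)).mul (hgv v)
  have hV0 : ∀ v, ∀ z, z ∉ tsupport f → ρ (g z) * f z ^ 2 * dv v g z = 0 := fun v z hz => by
    rw [image_eq_zero_of_notMem_tsupport hz]
    ring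
  obtain ⟨hi, he⟩ := integral_div_zero hD hK hfs (hV 1) (hV I) (hV0 1) (hV0 I)
  have hpt : ∀ z, dx (fun z => ρ (g z) * f z ^ 2 * dv 1 g z) z +
      dy (fun z => ρ (g z) * f z ^ 2 * dv I g z) z =
      deriv ρ (g z) * gr g z * f z ^ 2 +
      2 * ρ (g z) * f z * (dx f z * dx g z + dy f z * dy g z) - ρ (g z) * f z ^ 2 := by
    intro z
    by_cases hz : z ∈ tsupport f
    · have hzD := hfs hz
      have dg : DifferentiableAt ℝ g z :=
        (hg.contDiffAt (hD.mem_nhds hzD)).differentiableAt (by simp)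
      have df : DifferentiableAt ℝ f z := hf.differentiable (by norm_num) z
      have dρ : DifferentiableAt ℝ ρ (g z) :=
        (hρ.contDiffAt (Ioi_mem_nhds (hpos z hzD))).differentiableAt (by norm_num)
      have dρg : DifferentiableAt ℝ (fun z => ρ (g z)) z := dρ.comp z dg
      have df2 : DifferentiableAt ℝ (fun z => f z ^ 2) z := df.pow 2
      have h2 : DifferentiableAt ℝ (fun z => ρ (g z) * f z ^ 2) z := dρg.mul df2
      have dgv : ∀ v, DifferentiableAt ℝ (dv v g) z := fun v =>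
        ((hgv v).contDiffAt (hD.mem_nhds hzD)).differentiableAt (by norm_num)
      have key : ∀ v, dv v (fun z => ρ (g z) * f z ^ 2 * dv v g z) z =
          (deriv ρ (g z) * dv v g z * f z ^ 2 + ρ (g z) * (2 * f z * dv v f z)) * dv v g z +
            ρ (g z) * f z ^ 2 * dv v (dv v g) z := by
        intro v
        have e1 : dv v (fun z => (fun z => ρ (g z) * f z ^ 2) z * dv v g z) z =
            dv v (fun z => ρ (g z) * f z ^ 2) z * dv v g z +
              (ρ (g z) * f z ^ 2) * dv v (dv v g) z := dv_mul h2 (dgv v)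
        have e2 : dv v (fun z => ρ (g z) * f z ^ 2) z =
            dv v (fun z => ρ (g z)) z * f z ^ 2 + ρ (g z) * dv v (fun z => f z ^ 2) z :=
          dv_mul dρg df2
        have e3 : dv v (fun z => ρ (g z)) z = deriv ρ (g z) * dv v g z := dv_comp dρ dg
        have e4 : dv v (fun z => f z ^ 2) z = 2 * f z * dv v f z := by
          have : (fun z => f z ^ 2) = fun z => f z * f z := by
            funext w; ring
          rw [this, dv_mul df df]
          ring
        rw [e2, e3, e4] at e1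
        exact e1
      have k1 := key 1
      have kI := key I
      have hl : dv 1 (dv 1 g) z + dv I (dv I g) z = -1 := hlap z hzD
      rw [dx_eq, dy_eq, k1, kI]
      simp only [gr, dx_eq, dy_eq]
      linear_combination (ρ (g z) * f z ^ 2) * hl
    · have h1 : dx (fun z => ρ (g z) * f z ^ 2 * dv 1 g z) z = 0 :=
        dv_zero_of_cpt hK (hV0 1) hz 1
      have h2 : dy (fun z => ρ (g z) * f z ^ 2 * dv I g z) z = 0 :=
        dv_zero_of_cpt hK (hV0 I) hz I
      rw [h1, h2, image_eq_zero_of_notMem_tsupport hz]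
      ring
  simp only [hpt] at hi he
  exact ⟨hi, he⟩

/-- **Hardy inequality**, one step, real functions -/
theorem hardy_real (hD : IsOpen D) (hg : ContDiffOn ℝ ∞ g D) (hpos : ∀ z ∈ D, 0 < g z)
    (hlap : ∀ z ∈ D, lap g z = -1) {c : ℝ} (hc : 0 < c) (hreg : ∀ z ∈ D, c ≤ g z + gr g z)
    (hf : ContDiff ℝ 1 f) (hfc : HasCompactSupport f) (hfs : tsupport f ⊆ D) {χ : ℝ → ℝ}
    (hχ : ContDiff ℝ 1 χ) (hχ0 : ∀ t, 0 ≤ χ t) (hχ1 : ∀ t, deriv χ t ≤ 0) (s : ℕ) :
    ∫ z, χ (g z) * (f z ^ 2 / g z ^ (s + 2)) ≤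
      4 / c * ∫ z, χ (g z) * (gr f z / g z ^ s) := by
  have hK : IsCompact (tsupport f) := hfc
  have hgc : ContinuousOn g D := hg.continuousOn
  have hg0 : ∀ z ∈ D, g z ≠ 0 := fun z hz => (hpos z hz).ne'
  -- integrability of the two sides
  have i1 : Integrable (fun z => χ (g z) * (f z ^ 2 / g z ^ (s + 2))) := by
    refine integrable_of_cpt hD hK hfs ?_ (fun z hz => by
      rw [image_eq_zero_of_notMem_tsupport hz]; simp)
    exact (hχ.continuous.comp_continuousOn hgc).mul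
      ((hf.continuous.continuousOn.pow 2).div (hgc.pow _) (fun z hz => pow_ne_zero _ (hg0 z hz)))
  have hgrf : Continuous (gr f) := by
    have h : ∀ v, Continuous (dv v f) := fun v =>
      (hf.continuous_fderiv (by norm_num)).clm_apply continuous_const
    exact ((h 1).pow 2).add ((h I).pow 2)
  have hgrf0 : ∀ z, z ∉ tsupport f → gr f z = 0 := fun z hz => by
    have h1 : dx f z = 0 := dd_of_notMem hz 1
    have h2 : dy f z = 0 := dd_of_notMem hz I
    simp [gr, h1, h2]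
  have i2 : Integrable (fun z => χ (g z) * (gr f z / g z ^ s)) := by
    refine integrable_of_cpt hD hK hfs ?_ (fun z hz => by rw [hgrf0 z hz]; simp)
    exact (hχ.continuous.comp_continuousOn hgc).mul
      (hgrf.continuousOn.div (hgc.pow _) (fun z hz => pow_ne_zero _ (hg0 z hz)))
  -- the identity with `ρ t = χ t / t ^ (s + 1)`
  have hρ : ContDiffOn ℝ 1 (fun t : ℝ => χ t / t ^ (s + 1)) (Ioi 0) :=
    hχ.contDiffOn.div (contDiffOn_id.pow _) (fun t ht => pow_ne_zero _ (ne_of_gt ht))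
  obtain ⟨ii, ie⟩ := hardy_id hD hg hpos hlap hf hfc hfs hρ
  have hmain : ∀ z, deriv (fun t : ℝ => χ t / t ^ (s + 1)) (g z) * gr g z * f z ^ 2 +
      2 * (χ (g z) / g z ^ (s + 1)) * f z * (dx f z * dx g z + dy f z * dy g z) -
        χ (g z) / g z ^ (s + 1) * f z ^ 2 ≤
      2 * (χ (g z) * (gr f z / g z ^ s)) - c / 2 * (χ (g z) * (f z ^ 2 / g z ^ (s + 2))) := by
    intro z
    by_cases hz : z ∈ tsupport f
    · have hzD := hfs hz
      have ht : 0 < g z := hpos z hzD
      set t := g z with htd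
      have hder : deriv (fun t : ℝ => χ t / t ^ (s + 1)) t =
          deriv χ t / t ^ (s + 1) - (s + 1) * χ t / t ^ (s + 2) := by
        have h1 : HasDerivAt χ (deriv χ t) t := (hχ.differentiable (by norm_num) t).hasDerivAt
        have h2 : HasDerivAt (fun t : ℝ => t ^ (s + 1)) (((s + 1 : ℕ) : ℝ) * t ^ s) t := by
          simpa using hasDerivAt_pow (s + 1) t
        have h3 := h1.div h2 (pow_ne_zero _ ht.ne')
        rw [show (fun t : ℝ => χ t / t ^ (s + 1)) = χ / fun t : ℝ => t ^ (s + 1) from rfl,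
          h3.deriv]
        field_simp
        push_cast
        ring
      rw [hder]
      have hχt := hχ0 t
      have hχ't := hχ1 t
      have hG : 0 ≤ gr g z := by unfold gr; positivity
      have hcs : (dx f z * dx g z + dy f z * dy g z) ^ 2 ≤ gr f z * gr g z := by
        unfold gr
        nlinarith [sq_nonneg (dx f z * dy g z - dy f z * dx g z)]
      have hr := hreg z hzD
      rw [← htd] at hr
      set G := gr g z
      set Q := gr f z
      set P := dx f z * dx g z + dy f z * dy g z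
      have hts : 0 < t ^ s := pow_pos ht s
      -- multiply by `t ^ (s + 2)`
      have e1 : deriv χ t / t ^ (s + 1) * G * f z ^ 2 ≤ 0 := by
        have : 0 ≤ -deriv χ t / t ^ (s + 1) * G * f z ^ 2 := by
          have : 0 ≤ -deriv χ t := by linarith
          positivity
        have h : deriv χ t / t ^ (s + 1) * G * f z ^ 2 = -(-deriv χ t / t ^ (s + 1) * G * f z ^ 2) := by
          ring
        rw [h]
        linarith
      have e2 : 2 * P * f z * t ≤ 1 / 2 * G * f z ^ 2 + 2 * Q * t ^ 2 := by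
        by_cases hG0 : G = 0
        · have hP : P = 0 := by
            have : P ^ 2 ≤ 0 := by simpa [hG0] using hcs
            nlinarith [sq_nonneg P]
          have hQ : 0 ≤ Q := by simp only [Q, gr]; positivity
          rw [hP, hG0]
          have : 0 ≤ 2 * Q * t ^ 2 := by positivity
          linarith
        · have hGp : 0 < G := lt_of_le_of_ne hG (Ne.symm hG0)
          have hs : 0 ≤ (G * f z - 2 * P * t) ^ 2 := sq_nonneg _
          have h3 : 2 * P * f z * t * G ≤ (1 / 2 * G * f z ^ 2 + 2 * Q * t ^ 2) * G := by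
            have h4 : P ^ 2 * t ^ 2 ≤ Q * G * t ^ 2 :=
              mul_le_mul_of_nonneg_right hcs (by positivity)
            nlinarith
          exact le_of_mul_le_mul_right h3 hGp
      have hsp : (0 : ℝ) ≤ s := Nat.cast_nonneg s
      have e3 : (- (s + 1) * G * f z ^ 2 + 2 * P * f z * t - t * f z ^ 2) ≤
          2 * Q * t ^ 2 - c / 2 * f z ^ 2 := by
        have h1 : 0 ≤ (s : ℝ) * G * f z ^ 2 := by positivity
        have h2 : 0 ≤ (t + G - c) * f z ^ 2 := mul_nonneg (by linarith) (sq_nonneg _)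
        have h3 : 0 ≤ t * f z ^ 2 := by positivity
        nlinarith
      have e4 : χ t / t ^ (s + 2) * (- (s + 1) * G * f z ^ 2 + 2 * P * f z * t - t * f z ^ 2) ≤
          χ t / t ^ (s + 2) * (2 * Q * t ^ 2 - c / 2 * f z ^ 2) :=
        mul_le_mul_of_nonneg_left e3 (by positivity)
      have e5 : χ t / t ^ (s + 2) * (- (s + 1) * G * f z ^ 2 + 2 * P * f z * t - t * f z ^ 2) =
          - ((s + 1) * χ t / t ^ (s + 2)) * G * f z ^ 2 + 2 * (χ t / t ^ (s + 1)) * f z * P -
            χ t / t ^ (s + 1) * f z ^ 2 := by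
        field_simp
        ring
      have e6 : χ t / t ^ (s + 2) * (2 * Q * t ^ 2 - c / 2 * f z ^ 2) =
          2 * (χ t * (Q / t ^ s)) - c / 2 * (χ t * (f z ^ 2 / t ^ (s + 2))) := by
        field_simp
        ring
      rw [e5, e6] at e4
      linarith
    · rw [image_eq_zero_of_notMem_tsupport hz, hgrf0 z hz]
      simp
  have hint := integral_mono ii ((i2.const_mul 2).sub (i1.const_mul (c / 2))) hmain
  rw [ie] at hint
  simp only [Pi.sub_apply] at hint
  rw [integral_sub (i2.const_mul 2) (i1.const_mul (c / 2)), integral_const_mul,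
    integral_const_mul] at hint
  have h5 : ∫ z, χ (g z) * (f z ^ 2 / g z ^ (s + 2)) = 2 / c * (c / 2 *
      ∫ z, χ (g z) * (f z ^ 2 / g z ^ (s + 2))) := by
    field_simp
  rw [h5]
  have h6 : 2 / c * (c / 2 * ∫ z, χ (g z) * (f z ^ 2 / g z ^ (s + 2))) ≤
      2 / c * (2 * ∫ z, χ (g z) * (gr f z / g z ^ s)) :=
    mul_le_mul_of_nonneg_left (by linarith) (by positivity)
  refine h6.trans (le_of_eq ?_)
  ring

end real

section cpx
variable {D : Set ℂ} {g : ℂ → ℝ}

/-- `|∂φ|² + |∂̄φ|²` is half of `|∇ Re φ|² + |∇ Im φ|²` -/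
theorem gr_re_im {φ : ℂ → ℂ} {z : ℂ} (h : DifferentiableAt ℝ φ z) :
    gr (fun w => (φ w).re) z + gr (fun w => (φ w).im) z = 2 * (‖dz φ z‖ ^ 2 + ‖dzb φ z‖ ^ 2) := by
  have h1 := dd_re h 1
  have h2 := dd_re h I
  have h3 := dd_im h 1
  have h4 := dd_im h I
  unfold gr
  simp only [dx_eq, dy_eq]
  rw [h1, h2, h3, h4]
  rw [← Complex.normSq_eq_norm_sq, ← Complex.normSq_eq_norm_sq, dz_def, dzb_def]
  set a := dv 1 φ z
  set b := dv I φ z
  simp only [Complex.normSq_apply, Complex.div_re, Complex.div_im, Complex.sub_re, Complex.sub_im,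
    Complex.add_re, Complex.add_im, Complex.mul_re, Complex.mul_im, Complex.I_re, Complex.I_im]
  norm_num
  ring

/-- **Hardy inequality**, one step, complex test functions -/
theorem hardy_cpx (hD : IsOpen D) (hg : ContDiffOn ℝ ∞ g D) (hpos : ∀ z ∈ D, 0 < g z)
    (hlap : ∀ z ∈ D, lap g z = -1) {c : ℝ} (hc : 0 < c) (hreg : ∀ z ∈ D, c ≤ g z + gr g z)
    {φ : ℂ → ℂ} (hφ : Test D φ) {χ : ℝ → ℝ}
    (hχ : ContDiff ℝ 1 χ) (hχ0 : ∀ t, 0 ≤ χ t) (hχ1 : ∀ t, deriv χ t ≤ 0) (s : ℕ) :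
    ∫ z, χ (g z) * (‖φ z‖ ^ 2 / g z ^ (s + 2)) ≤
      8 / c * ∫ z, χ (g z) * ((‖dz φ z‖ ^ 2 + ‖dzb φ z‖ ^ 2) / g z ^ s) := by
  obtain ⟨h1, h2, h3⟩ := hφ
  have hgc : ContinuousOn g D := hg.continuousOn
  have hg0 : ∀ z ∈ D, g z ≠ 0 := fun z hz => (hpos z hz).ne'
  have hK : IsCompact (tsupport φ) := h2
  have hre : ContDiff ℝ 1 (fun w => (φ w).re) :=
    (Complex.reCLM.contDiff.comp h1).of_le (by simp)
  have him : ContDiff ℝ 1 (fun w => (φ w).im) :=
    (Complex.imCLM.contDiff.comp h1).of_le (by simp)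
  have sre : tsupport (fun w => (φ w).re) ⊆ tsupport φ :=
    closure_mono (fun z hz => fun h => hz (by simp [h]))
  have sim : tsupport (fun w => (φ w).im) ⊆ tsupport φ :=
    closure_mono (fun z hz => fun h => hz (by simp [h]))
  have cre : HasCompactSupport (fun w => (φ w).re) :=
    h2.of_isClosed_subset (isClosed_tsupport _) sre
  have cim : HasCompactSupport (fun w => (φ w).im) :=
    h2.of_isClosed_subset (isClosed_tsupport _) sim
  have a1 := hardy_real hD hg hpos hlap hc hreg hre cre (sre.trans h3) hχ hχ0 hχ1 s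
  have a2 := hardy_real hD hg hpos hlap hc hreg him cim (sim.trans h3) hχ hχ0 hχ1 s
  -- integrability
  have ci : ∀ {f : ℂ → ℝ}, Continuous f → (∀ z, z ∉ tsupport φ → f z = 0) → ∀ k : ℕ,
      Integrable (fun z => χ (g z) * (f z / g z ^ k)) := by
    intro f hf hf0 k
    refine integrable_of_cpt hD hK h3 ?_ (fun z hz => by rw [hf0 z hz]; simp)
    exact (hχ.continuous.comp_continuousOn hgc).mul
      (hf.continuousOn.div (hgc.pow _) (fun z hz => pow_ne_zero _ (hg0 z hz)))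
  have hgr : ∀ {f : ℂ → ℝ}, ContDiff ℝ 1 f → Continuous (gr f) := fun {f} hf => by
    have h : ∀ v, Continuous (dv v f) := fun v =>
      (hf.continuous_fderiv (by norm_num)).clm_apply continuous_const
    exact ((h 1).pow 2).add ((h I).pow 2)
  have hgr0 : ∀ {f : ℂ → ℝ}, tsupport f ⊆ tsupport φ → ∀ z, z ∉ tsupport φ → gr f z = 0 :=
    fun {f} hf z hz => by
      have h1 : dx f z = 0 := dd_of_notMem (fun h => hz (hf h)) 1
      have h2 : dy f z = 0 := dd_of_notMem (fun h => hz (hf h)) I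
      simp [gr, h1, h2]
  have z1 : ∀ z, z ∉ tsupport φ → (φ z).re ^ 2 = 0 := fun z hz => by
    rw [image_eq_zero_of_notMem_tsupport hz]; simp
  have z2 : ∀ z, z ∉ tsupport φ → (φ z).im ^ 2 = 0 := fun z hz => by
    rw [image_eq_zero_of_notMem_tsupport hz]; simp
  have i1 := ci (f := fun z => (φ z).re ^ 2) (hre.continuous.pow 2) z1 (s + 2)
  have i2 := ci (f := fun z => (φ z).im ^ 2) (him.continuous.pow 2) z2 (s + 2)
  have i3 := ci (hgr hre) (hgr0 sre) s
  have i4 := ci (hgr him) (hgr0 sim) s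
  have e1 : ∫ z, χ (g z) * (‖φ z‖ ^ 2 / g z ^ (s + 2)) =
      (∫ z, χ (g z) * ((φ z).re ^ 2 / g z ^ (s + 2))) +
        ∫ z, χ (g z) * ((φ z).im ^ 2 / g z ^ (s + 2)) := by
    rw [← integral_add i1 i2]
    refine integral_congr_ae (Eventually.of_forall fun z => ?_)
    simp only
    rw [← Complex.normSq_eq_norm_sq, Complex.normSq_apply]
    ring
  have e2 : ∫ z, χ (g z) * ((‖dz φ z‖ ^ 2 + ‖dzb φ z‖ ^ 2) / g z ^ s) =
      1 / 2 * ((∫ z, χ (g z) * (gr (fun w => (φ w).re) z / g z ^ s)) +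
        ∫ z, χ (g z) * (gr (fun w => (φ w).im) z / g z ^ s)) := by
    rw [← integral_add i3 i4, ← integral_const_mul]
    refine integral_congr_ae (Eventually.of_forall fun z => ?_)
    simp only
    have hd : DifferentiableAt ℝ φ z := h1.differentiable (by simp) z
    have := gr_re_im hd
    have h5 : ‖dz φ z‖ ^ 2 + ‖dzb φ z‖ ^ 2 =
        (gr (fun w => (φ w).re) z + gr (fun w => (φ w).im) z) / 2 := by
      linarith
    rw [h5]
    ring
  rw [e1, e2]
  have h6 : 8 / c * (1 / 2 * ((∫ z, χ (g z) * (gr (fun w => (φ w).re) z / g z ^ s)) +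
        ∫ z, χ (g z) * (gr (fun w => (φ w).im) z / g z ^ s))) =
      4 / c * (∫ z, χ (g z) * (gr (fun w => (φ w).re) z / g z ^ s)) +
        4 / c * ∫ z, χ (g z) * (gr (fun w => (φ w).im) z / g z ^ s) := by
    ring
  rw [h6]
  exact add_le_add a1 a2

theorem test_dab {φ : ℂ → ℂ} (hφ : Test D φ) (a b : ℕ) : Test D (Dab a b φ) := by
  obtain ⟨h1, h2, h3⟩ := hφ
  have hsub : ∀ {f : ℂ → ℂ}, tsupport (dz f) ⊆ tsupport f := fun {f} => by
    refine closure_minimal (fun z hz => ?_) (isClosed_tsupport _)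
    by_contra h
    refine hz ?_
    rw [dz_def, dd_of_notMem h, dd_of_notMem h]
    simp
  have hsubb : ∀ {f : ℂ → ℂ}, tsupport (dzb f) ⊆ tsupport f := fun {f} => by
    refine closure_minimal (fun z hz => ?_) (isClosed_tsupport _)
    by_contra h
    refine hz ?_
    rw [dzb_def, dd_of_notMem h, dd_of_notMem h]
    simp
  have hs : tsupport (Dab a b φ) ⊆ tsupport φ := by
    have hb : ∀ b : ℕ, tsupport (dzb^[b] φ) ⊆ tsupport φ := by
      intro b
      induction b with
      | zero => exact subset_rfl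
      | succ b ih =>
        rw [Function.iterate_succ_apply']
        exact hsubb.trans ih
    have ha : ∀ a : ℕ, tsupport (dz^[a] (dzb^[b] φ)) ⊆ tsupport (dzb^[b] φ) := by
      intro a
      induction a with
      | zero => exact subset_rfl
      | succ a ih =>
        rw [Function.iterate_succ_apply']
        exact hsub.trans ih
    exact (ha a).trans (hb b)
  exact ⟨sm_univ.1 ((sm_univ.2 h1).dab isOpen_univ a b),
    h2.of_isClosed_subset (isClosed_tsupport _) hs, hs.trans h3⟩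

theorem nn_nonneg (k : ℕ) (φ : ℂ → ℂ) (z : ℂ) : 0 ≤ nn k φ z :=
  Finset.sum_nonneg fun _ _ => by positivity

theorem nn_continuous {φ : ℂ → ℂ} (hφ : Test D φ) (k : ℕ) : Continuous (nn k φ) := by
  refine continuous_finsetSum _ fun a _ => ?_
  exact ((test_dab hφ a (k - a)).1.continuous.norm).pow 2

theorem dab_off {φ : ℂ → ℂ} {z : ℂ} (hz : z ∉ tsupport φ) (a b : ℕ) : Dab a b φ z = 0 := by
  have : Test (univ : Set ℂ) (fun _ : ℂ => (0 : ℂ)) := ⟨contDiff_const, by
    exact HasCompactSupport.zero, subset_univ _⟩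
  -- `φ = 0` near `z`
  have hev : EqOn φ (fun _ => 0) (tsupport φ)ᶜ := fun w hw => image_eq_zero_of_notMem_tsupport hw
  have hO : IsOpen (tsupport φ)ᶜ := (isClosed_tsupport φ).isOpen_compl
  have hb : ∀ b : ℕ, EqOn (dzb^[b] φ) (fun _ => 0) (tsupport φ)ᶜ := by
    intro b
    induction b with
    | zero => exact hev
    | succ b ih =>
      intro w hw
      rw [Function.iterate_succ_apply', dzb_congr hO ih hw, dzb_def, dd_const, dd_const]
      simp
  have ha : ∀ a : ℕ, EqOn (dz^[a] (dzb^[b] φ)) (fun _ => 0) (tsupport φ)ᶜ := by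
    intro a
    induction a with
    | zero => exact hb b
    | succ a ih =>
      intro w hw
      rw [Function.iterate_succ_apply', dz_congr hO ih hw, dz_def, dd_const, dd_const]
      simp
  exact ha a hz

/-- one step for `nn` -/
theorem hardy_nn (hD : IsOpen D) (hg : ContDiffOn ℝ ∞ g D) (hpos : ∀ z ∈ D, 0 < g z)
    (hlap : ∀ z ∈ D, lap g z = -1) {c : ℝ} (hc : 0 < c) (hreg : ∀ z ∈ D, c ≤ g z + gr g z)
    {φ : ℂ → ℂ} (hφ : Test D φ) {χ : ℝ → ℝ}
    (hχ : ContDiff ℝ 1 χ) (hχ0 : ∀ t, 0 ≤ χ t) (hχ1 : ∀ t, deriv χ t ≤ 0) (s k : ℕ) :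
    ∫ z, χ (g z) * (nn k φ z / g z ^ (s + 2)) ≤
      16 / c * ∫ z, χ (g z) * (nn (k + 1) φ z / g z ^ s) := by
  have hgc : ContinuousOn g D := hg.continuousOn
  have hg0 : ∀ z ∈ D, g z ≠ 0 := fun z hz => (hpos z hz).ne'
  have hK : IsCompact (tsupport φ) := hφ.2.1
  have ci : ∀ {f : ℂ → ℝ}, Continuous f → (∀ z, z ∉ tsupport φ → f z = 0) → ∀ k : ℕ,
      Integrable (fun z => χ (g z) * (f z / g z ^ k)) := by
    intro f hf hf0 k
    refine integrable_of_cpt hD hK hφ.2.2 ?_ (fun z hz => by rw [hf0 z hz]; simp)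
    exact (hχ.continuous.comp_continuousOn hgc).mul
      (hf.continuousOn.div (hgc.pow _) (fun z hz => pow_ne_zero _ (hg0 z hz)))
  have c1 : ∀ a b, Continuous (fun z => ‖Dab a b φ z‖ ^ 2) := fun a b =>
    ((test_dab hφ a b).1.continuous.norm).pow 2
  have z1 : ∀ a b z, z ∉ tsupport φ → ‖Dab a b φ z‖ ^ 2 = 0 := fun a b z hz => by
    rw [dab_off hz]; simp
  have hstep : ∀ a ∈ Finset.range (k + 1),
      ∫ z, χ (g z) * (‖Dab a (k - a) φ z‖ ^ 2 / g z ^ (s + 2)) ≤
        8 / c * ∫ z, χ (g z) * ((‖Dab (a + 1) (k - a) φ z‖ ^ 2 +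
          ‖Dab a (k + 1 - a) φ z‖ ^ 2) / g z ^ s) := by
    intro a ha
    have ha' : a ≤ k := by simpa [Nat.lt_succ_iff] using ha
    have h := hardy_cpx hD hg hpos hlap hc hreg (test_dab hφ a (k - a)) hχ hχ0 hχ1 s
    have e1 : dz (Dab a (k - a) φ) = Dab (a + 1) (k - a) φ := dz_dab a (k - a) φ
    have e2 : ∀ z, dzb (Dab a (k - a) φ) z = Dab a (k + 1 - a) φ z := fun z => by
      have := dzb_dab (sm_univ.2 hφ.1) isOpen_univ a (k - a) (mem_univ z)
      rw [this, show k - a + 1 = k + 1 - a by omega]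
    simp only [e1, e2] at h
    exact h
  have i1 : ∀ a ∈ Finset.range (k + 1),
      Integrable (fun z => χ (g z) * (‖Dab a (k - a) φ z‖ ^ 2 / g z ^ (s + 2))) := fun a _ =>
    ci (c1 a (k - a)) (z1 a (k - a)) _
  have i2 : ∀ a ∈ Finset.range (k + 1),
      Integrable (fun z => χ (g z) * ((‖Dab (a + 1) (k - a) φ z‖ ^ 2 +
          ‖Dab a (k + 1 - a) φ z‖ ^ 2) / g z ^ s)) := fun a _ =>
    ci (f := fun z => ‖Dab (a + 1) (k - a) φ z‖ ^ 2 + ‖Dab a (k + 1 - a) φ z‖ ^ 2)
      ((c1 (a + 1) (k - a)).add (c1 a (k + 1 - a))) (fun z hz => by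
      rw [z1 _ _ z hz, z1 _ _ z hz, add_zero]) _
  have e1 : ∫ z, χ (g z) * (nn k φ z / g z ^ (s + 2)) =
      ∑ a ∈ Finset.range (k + 1), ∫ z, χ (g z) * (‖Dab a (k - a) φ z‖ ^ 2 / g z ^ (s + 2)) := by
    rw [← integral_finsetSum _ i1]
    refine integral_congr_ae (Eventually.of_forall fun z => ?_)
    simp only [nn]
    rw [Finset.sum_div, Finset.mul_sum]
  rw [e1]
  refine (Finset.sum_le_sum hstep).trans ?_
  rw [← Finset.mul_sum, ← integral_finsetSum _ i2]
  have h16 : 16 / c * ∫ z, χ (g z) * (nn (k + 1) φ z / g z ^ s) =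
      8 / c * ∫ z, 2 * (χ (g z) * (nn (k + 1) φ z / g z ^ s)) := by
    rw [integral_const_mul]
    ring
  rw [h16]
  refine mul_le_mul_of_nonneg_left ?_ (by positivity)
  have in2 : Integrable (fun z => χ (g z) * (nn (k + 1) φ z / g z ^ s)) :=
    ci (nn_continuous hφ (k + 1)) (fun z hz => by
      simp only [nn]
      exact Finset.sum_eq_zero fun a _ => z1 _ _ z hz) _
  refine integral_mono (integrable_finsetSum _ i2) (in2.const_mul 2) fun z => ?_
  simp only
  by_cases hz : z ∈ tsupport φ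
  · have hgz : 0 < g z ^ s := pow_pos (hpos z (hφ.2.2 hz)) s
    rw [← Finset.mul_sum, ← Finset.sum_div, Finset.sum_add_distrib]
    have hA : ∑ a ∈ Finset.range (k + 1), ‖Dab (a + 1) (k - a) φ z‖ ^ 2 ≤ nn (k + 1) φ z := by
      simp only [nn]
      rw [Finset.sum_range_succ' (fun a => ‖Dab a (k + 1 - a) φ z‖ ^ 2)]
      have : ∀ a ∈ Finset.range (k + 1), ‖Dab (a + 1) (k - a) φ z‖ ^ 2 =
          ‖Dab (a + 1) (k + 1 - (a + 1)) φ z‖ ^ 2 := fun a _ => by
        rw [show k + 1 - (a + 1) = k - a by omega]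
      rw [Finset.sum_congr rfl this]
      have := sq_nonneg ‖Dab 0 (k + 1 - 0) φ z‖
      linarith
    have hB : ∑ a ∈ Finset.range (k + 1), ‖Dab a (k + 1 - a) φ z‖ ^ 2 ≤ nn (k + 1) φ z := by
      simp only [nn]
      rw [Finset.sum_range_succ (fun a => ‖Dab a (k + 1 - a) φ z‖ ^ 2) (k + 1)]
      have := sq_nonneg ‖Dab (k + 1) (k + 1 - (k + 1)) φ z‖
      linarith
    have h1 : χ (g z) * ((∑ a ∈ Finset.range (k + 1), ‖Dab (a + 1) (k - a) φ z‖ ^ 2 +
        ∑ a ∈ Finset.range (k + 1), ‖Dab a (k + 1 - a) φ z‖ ^ 2) / g z ^ s) ≤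
        χ (g z) * ((2 * nn (k + 1) φ z) / g z ^ s) := by
      refine mul_le_mul_of_nonneg_left ?_ (hχ0 _)
      gcongr
      linarith
    refine h1.trans (le_of_eq ?_)
    ring
  · have h1 : ∀ a ∈ Finset.range (k + 1), χ (g z) * ((‖Dab (a + 1) (k - a) φ z‖ ^ 2 +
        ‖Dab a (k + 1 - a) φ z‖ ^ 2) / g z ^ s) = 0 := fun a _ => by
      rw [z1 _ _ z hz, z1 _ _ z hz]
      simp
    rw [Finset.sum_eq_zero h1]
    have h2 : nn (k + 1) φ z = 0 := by
      simp only [nn]
      exact Finset.sum_eq_zero fun a _ => z1 _ _ z hz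
    rw [h2]
    simp

/-- **Hardy inequality, iterated, test functions** -/
theorem hardy_iter (hD : IsOpen D) (hg : ContDiffOn ℝ ∞ g D) (hpos : ∀ z ∈ D, 0 < g z)
    (hlap : ∀ z ∈ D, lap g z = -1) {c : ℝ} (hc : 0 < c) (hreg : ∀ z ∈ D, c ≤ g z + gr g z)
    {φ : ℂ → ℂ} (hφ : Test D φ) {χ : ℝ → ℝ}
    (hχ : ContDiff ℝ 1 χ) (hχ0 : ∀ t, 0 ≤ χ t) (hχ1 : ∀ t, deriv χ t ≤ 0) (m : ℕ) :
    ∀ k : ℕ, ∫ z, χ (g z) * (nn k φ z / g z ^ (2 * m)) ≤
      (16 / c) ^ m * ∫ z, χ (g z) * nn (k + m) φ z := by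
  induction m with
  | zero =>
    intro k
    simp
  | succ m ih =>
    intro k
    have h1 := hardy_nn hD hg hpos hlap hc hreg hφ hχ hχ0 hχ1 (2 * m) k
    have h2 := ih (k + 1)
    rw [show 2 * (m + 1) = 2 * m + 2 by ring]
    refine h1.trans ?_
    have h3 : 16 / c * ∫ z, χ (g z) * (nn (k + 1) φ z / g z ^ (2 * m)) ≤
        16 / c * ((16 / c) ^ m * ∫ z, χ (g z) * nn (k + 1 + m) φ z) :=
      mul_le_mul_of_nonneg_left h2 (by positivity)
    refine h3.trans (le_of_eq ?_)
    rw [show k + 1 + m = k + (m + 1) by ring]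
    ring

end cpx

end Pool.Agent.Lib.QNL.Hardy
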