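import Pool.Agent.Lib.QNL.DV

/-!
Harmonic functions of the plane: Harnack, limits, gradient estimate, parameters.
-/

set_option autoImplicit false

namespace Pool.Agent.Lib.QNL

open MeasureTheory Filter Topology Set Metric Complex InnerProductSpace
open scoped ContDiff Laplacian

/-! ### The Laplacian -/

theorem laplacian_eq_lap {f : ℂ → ℝ} {z : ℂ} (hf : ContDiffAt ℝ 2 f z) : (Δ f) z = lap f z := by
  rw [InnerProductSpace.laplacian_eq_iteratedFDeriv_complexPlane]
  have h1 : DifferentiableAt ℝ (fderiv ℝ f) z :=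
    (hf.fderiv_right (m := 1) le_rfl).differentiableAt (by norm_num)
  have h2 : ∀ v : ℂ, fderiv ℝ (fun w => fderiv ℝ f w v) z v = fderiv ℝ (fderiv ℝ f) z v v := by
    intro v
    rw [fderiv_clm_apply h1 (differentiableAt_const v)]
    simp
  have h3 : lap f z = fderiv ℝ (fderiv ℝ f) z 1 1 + fderiv ℝ (fderiv ℝ f) z I I := by
    rw [← h2 1, ← h2 I]
    rfl
  rw [h3]
  simp [iteratedFDeriv_two_apply]

theorem harmonicAt_iff_lap {f : ℂ → ℝ} {z : ℂ} :
    HarmonicAt f z ↔ ContDiffAt ℝ 2 f z ∧ ∀ᶠ w in 𝓝 z, lap f w = 0 := by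
  constructor
  · rintro ⟨h1, h2⟩
    refine ⟨h1, ?_⟩
    filter_upwards [h1.eventually (by simp), h2] with w h3 h4
    rw [← laplacian_eq_lap h3, h4]
    rfl
  · rintro ⟨h1, h2⟩
    refine ⟨h1, ?_⟩
    filter_upwards [h1.eventually (by simp), h2] with w h3 h4
    rw [laplacian_eq_lap h3, h4]
    rfl

/-! ### The Poisson formula -/

theorem circleMap_add_center (c : ℂ) (R θ : ℝ) : circleMap 0 R θ + c = circleMap c R θ := by
  simp [circleMap, add_comm]

theorem circleIntegrable_shift {f : ℂ → ℝ} {c : ℂ} {R : ℝ} (hi : CircleIntegrable f c R) :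
    CircleIntegrable (fun z => f (z + c)) 0 R := by
  unfold CircleIntegrable at hi ⊢
  simpa only [circleMap_add_center] using hi

/-- The holomorphic function with a given real part on a circle. -/
noncomputable def herg (f : ℂ → ℝ) (c : ℂ) (R : ℝ) (w : ℂ) : ℂ :=
  Real.circleAverage (fun ζ => herglotzRieszKernel 0 (w - c) ζ • ((f (ζ + c) : ℝ) : ℂ)) 0 R

theorem circleIntegrable_ofReal {f : ℂ → ℝ} {c : ℂ} {R : ℝ} (hi : CircleIntegrable f c R) :
    CircleIntegrable (fun z => (f z : ℂ)) c R := by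
  simp only [CircleIntegrable, intervalIntegrable_iff] at hi ⊢
  exact Complex.ofRealCLM.integrable_comp hi

theorem herg_analytic {f : ℂ → ℝ} {c : ℂ} {R : ℝ} (hi : CircleIntegrable f c R) :
    AnalyticOnNhd ℂ (herg f c R) (ball c R) := by
  have h1 := analyticOnNhd_circleAverage_herglotzRieszKernel_smul
    (circleIntegrable_ofReal (circleIntegrable_shift hi))
  intro w hw
  have hw' : w - c ∈ ball (0 : ℂ) R := by
    rwa [mem_ball_zero_iff, ← mem_ball_iff_norm]
  have h2 : AnalyticAt ℂ (fun w : ℂ => w - c) w := by fun_prop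
  have h3 : AnalyticAt ℂ (fun w => Real.circleAverage
      (fun ζ => herglotzRieszKernel 0 w ζ • ((f (ζ + c) : ℝ) : ℂ)) 0 R)
      (w - c) := h1 (w - c) hw'
  exact AnalyticAt.comp (g := fun w => Real.circleAverage
      (fun ζ => herglotzRieszKernel 0 w ζ • ((f (ζ + c) : ℝ) : ℂ)) 0 R)
      (f := fun w : ℂ => w - c) (x := w) h3 h2

theorem herg_re {f : ℂ → ℝ} {c : ℂ} {R : ℝ} (hi : CircleIntegrable f c R) {w : ℂ}
    (hw : w ∈ ball c R) :
    (herg f c R w).re = Real.circleAverage ((re ∘ herglotzRieszKernel c w) • f) c R := by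
  have hw' : w - c ∈ ball (0 : ℂ) R := by
    rwa [mem_ball_zero_iff, ← mem_ball_iff_norm]
  unfold herg
  rw [re_circleAverage_herglotzRieszKernel_smul (circleIntegrable_shift hi) hw']
  unfold Real.circleAverage
  congr 2
  funext θ
  simp only [Pi.smul_apply', Function.comp_apply, herglotzRieszKernel_def, circleMap_add_center,
    sub_zero, circleMap_sub_center]

/-- A function which is the Poisson integral of its values on a circle is harmonic inside. -/
theorem harmonicOn_of_poisson {f : ℂ → ℝ} {c : ℂ} {R : ℝ} (hi : CircleIntegrable f c R)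
    (hP : ∀ w ∈ ball c R,
      Real.circleAverage ((re ∘ herglotzRieszKernel c w) • f) c R = f w) :
    HarmonicOnNhd f (ball c R) := by
  intro w hw
  have h1 : HarmonicAt (fun z => (herg f c R z).re) w := (herg_analytic hi w hw).harmonicAt_re
  refine (harmonicAt_congr_nhds ?_).1 h1
  filter_upwards [isOpen_ball.mem_nhds hw] with z hz
  rw [herg_re hi hz, hP z hz]

theorem HarmonicOnNhd.circleIntegrable {f : ℂ → ℝ} {c : ℂ} {R : ℝ} (hR : 0 ≤ R)
    (hf : HarmonicOnNhd f (closedBall c R)) : CircleIntegrable f c R := by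
  refine (hf.continuousOn.mono ?_).circleIntegrable'
  rw [abs_of_nonneg hR]
  exact sphere_subset_closedBall

theorem herg_re_eq {f : ℂ → ℝ} {c : ℂ} {R : ℝ} (hf : HarmonicOnNhd f (closedBall c R)) {w : ℂ}
    (hw : w ∈ ball c R) : (herg f c R w).re = f w := by
  have hR : 0 < R := pos_of_mem_ball hw
  rw [herg_re (HarmonicOnNhd.circleIntegrable hR.le hf) hw,
    hf.circleAverage_re_herglotzRieszKernel_smul hw]

/-! ### Harnack -/

theorem harnack_le {f : ℂ → ℝ} {c w : ℂ} {R : ℝ} (hf : HarmonicOnNhd f (closedBall c R))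
    (h0 : ∀ z ∈ closedBall c R, 0 ≤ f z) (hw : w ∈ ball c R) :
    f w ≤ (R + ‖w - c‖) / (R - ‖w - c‖) * f c := by
  have hR : 0 < R := pos_of_mem_ball hw
  have hi := HarmonicOnNhd.circleIntegrable hR.le hf
  have h1 := hf.circleAverage_re_herglotzRieszKernel_smul hw
  have h2 : Real.circleAverage f c R = f c := by
    refine InnerProductSpace.HarmonicOnNhd.circleAverage_eq ?_
    rwa [abs_of_pos hR]
  have hc : ContinuousOn (re ∘ herglotzRieszKernel c w) (sphere c |R|) :=
    Complex.continuous_re.comp_continuousOn (continuousOn_herglotzRieszKernel_sphere hw)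
  rw [← h1, ← h2, ← smul_eq_mul, ← Real.circleAverage_smul]
  refine Real.circleAverage_mono ?_ ?_ ?_
  · exact hi.continuousOn_smul hc
  · exact hi.const_smul
  · intro z hz
    rw [abs_of_pos hR] at hz
    have h3 := re_herglotzRieszKernel_le hz hw
    simp only [Pi.smul_apply', Function.comp_apply, herglotzRieszKernel_def, Pi.smul_apply,
      smul_eq_mul]
    exact mul_le_mul_of_nonneg_right h3 (h0 z (sphere_subset_closedBall hz))

theorem le_harnack {f : ℂ → ℝ} {c w : ℂ} {R : ℝ} (hf : HarmonicOnNhd f (closedBall c R))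
    (h0 : ∀ z ∈ closedBall c R, 0 ≤ f z) (hw : w ∈ ball c R) :
    (R - ‖w - c‖) / (R + ‖w - c‖) * f c ≤ f w := by
  have hR : 0 < R := pos_of_mem_ball hw
  have hi := HarmonicOnNhd.circleIntegrable hR.le hf
  have h1 := hf.circleAverage_re_herglotzRieszKernel_smul hw
  have h2 : Real.circleAverage f c R = f c := by
    refine InnerProductSpace.HarmonicOnNhd.circleAverage_eq ?_
    rwa [abs_of_pos hR]
  have hc : ContinuousOn (re ∘ herglotzRieszKernel c w) (sphere c |R|) :=
    Complex.continuous_re.comp_continuousOn (continuousOn_herglotzRieszKernel_sphere hw)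
  rw [← h1, ← h2, ← smul_eq_mul, ← Real.circleAverage_smul]
  refine Real.circleAverage_mono ?_ ?_ ?_
  · exact hi.const_smul
  · exact hi.continuousOn_smul hc
  · intro z hz
    rw [abs_of_pos hR] at hz
    have h3 := le_re_herglotzRieszKernel hz hw
    simp only [Pi.smul_apply', Function.comp_apply, herglotzRieszKernel_def, Pi.smul_apply,
      smul_eq_mul]
    exact mul_le_mul_of_nonneg_right h3 (h0 z (sphere_subset_closedBall hz))

/-! ### Limits -/

/-- A bounded pointwise limit of harmonic functions is harmonic. -/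
theorem harmonicOn_of_tendsto {ι : Type*} {l : Filter ι} [l.IsCountablyGenerated] [NeBot l]
    {f : ι → ℂ → ℝ} {g : ℂ → ℝ} {c : ℂ} {R M : ℝ}
    (hf : ∀ᶠ k in l, HarmonicOnNhd (f k) (closedBall c R))
    (hb : ∀ᶠ k in l, ∀ z ∈ closedBall c R, |f k z| ≤ M)
    (hl : ∀ z ∈ closedBall c R, Tendsto (fun k => f k z) l (𝓝 (g z))) :
    HarmonicOnNhd g (ball c R) := by
  rcases le_or_gt R 0 with hR | hR
  · rw [ball_eq_empty.2 hR]
    intro z hz
    exact absurd hz (notMem_empty z)
  have hmem : ∀ θ : ℝ, circleMap c R θ ∈ closedBall c R := fun θ =>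
    circleMap_mem_closedBall c hR.le θ
  have hmem' : ∀ θ : ℝ, circleMap c R θ ∈ sphere c R := fun θ =>
    circleMap_mem_sphere c hR.le θ
  obtain ⟨k0, hk1, hk2⟩ := (hf.and hb).exists
  have hM : 0 ≤ M := (abs_nonneg _).trans (hk2 c (mem_closedBall_self hR.le))
  have hcont : ∀ᶠ k in l, Continuous fun θ : ℝ => f k (circleMap c R θ) := by
    filter_upwards [hf] with k hk
    exact hk.continuousOn.comp_continuous (continuous_circleMap c R) hmem
  -- the limit is integrable on the circle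
  classical
  have hgm : AEStronglyMeasurable (fun θ : ℝ => g (circleMap c R θ)) volume := by
    refine aestronglyMeasurable_of_tendsto_ae l (f := fun k θ => if (Continuous fun θ : ℝ =>
      f k (circleMap c R θ)) then f k (circleMap c R θ) else 0) ?_ ?_
    · intro k
      by_cases hk : Continuous fun θ : ℝ => f k (circleMap c R θ)
      · simp only [hk, if_true]
        exact hk.aestronglyMeasurable
      · simp only [hk, if_false]
        exact aestronglyMeasurable_const
    · refine Eventually.of_forall fun θ => ?_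
      refine (hl _ (hmem θ)).congr' ?_
      filter_upwards [hcont] with k hk
      simp only [hk, if_true]
  have hgb : ∀ z ∈ closedBall c R, |g z| ≤ M := by
    intro z hz
    refine le_of_tendsto (hl z hz).abs ?_
    filter_upwards [hb] with k hk
    exact hk z hz
  have hgi : CircleIntegrable g c R := by
    unfold CircleIntegrable
    rw [intervalIntegrable_iff]
    refine Measure.integrableOn_of_bounded (M := M) ?_ hgm ?_
    · rw [uIoc, Real.volume_Ioc]
      exact ENNReal.ofReal_ne_top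
    · exact Eventually.of_forall fun θ => hgb _ (hmem θ)
  refine harmonicOn_of_poisson hgi fun w hw => ?_
  have hw' : w ∈ closedBall c R := ball_subset_closedBall hw
  refine tendsto_nhds_unique ?_ (hl w hw')
  have h1 : Tendsto (fun k => Real.circleAverage ((re ∘ herglotzRieszKernel c w) • f k) c R) l
      (𝓝 (Real.circleAverage ((re ∘ herglotzRieszKernel c w) • g) c R)) := by
    unfold Real.circleAverage
    refine Tendsto.const_smul ?_ _
    refine intervalIntegral.tendsto_integral_filter_of_dominated_convergence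
      (fun _ => (R + ‖w - c‖) / (R - ‖w - c‖) * M) ?_ ?_ ?_ ?_
    · have hc : ContinuousOn (re ∘ herglotzRieszKernel c w) (sphere c |R|) :=
        Complex.continuous_re.comp_continuousOn (continuousOn_herglotzRieszKernel_sphere hw)
      have hc2 : Continuous fun θ : ℝ => (re ∘ herglotzRieszKernel c w) (circleMap c R θ) := by
        refine hc.comp_continuous (continuous_circleMap c R) fun θ => ?_
        rw [abs_of_pos hR]
        exact hmem' θ
      filter_upwards [hcont] with k hk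
      exact (hc2.smul hk).aestronglyMeasurable
    · filter_upwards [hb] with k hk
      refine Eventually.of_forall fun θ _ => ?_
      have h3 := re_herglotzRieszKernel_le (hmem' θ) hw
      have h4 := le_re_herglotzRieszKernel (hmem' θ) hw
      have hwR : ‖w - c‖ < R := mem_ball_iff_norm.1 hw
      have h5 : 0 ≤ (R - ‖w - c‖) / (R + ‖w - c‖) :=
        div_nonneg (by linarith) (by linarith [norm_nonneg (w - c)])
      simp only [Pi.smul_apply', Function.comp_apply, herglotzRieszKernel_def, norm_smul]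
      refine mul_le_mul ?_ (hk _ (hmem θ)) (norm_nonneg _) (h5.trans (h4.trans h3))
      rw [Real.norm_eq_abs, abs_of_nonneg (h5.trans h4)]
      exact h3
    · exact intervalIntegrable_const
    · refine Eventually.of_forall fun θ _ => ?_
      simp only [Pi.smul_apply']
      exact (hl _ (hmem θ)).const_smul _
  refine h1.congr' ?_
  filter_upwards [hf] with k hk
  exact hk.circleAverage_re_herglotzRieszKernel_smul hw

/-! ### Derivatives -/

theorem HarmonicAt.eventually_differentiableAt {f : ℂ → ℝ} {z : ℂ} (hf : HarmonicAt f z) :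
    ∀ᶠ w in 𝓝 z, DifferentiableAt ℝ f w := by
  filter_upwards [hf.eventually] with w hw
  exact hw.1.differentiableAt (by norm_num)

theorem dv_eq_re (f : ℂ → ℝ) (v z : ℂ) :
    dv v f z = ((((fderiv ℝ f z 1 : ℝ) : ℂ) - I * ((fderiv ℝ f z I : ℝ) : ℂ)) * v).re := by
  have h : fderiv ℝ f z v = v.re * fderiv ℝ f z 1 + v.im * fderiv ℝ f z I := by
    conv_lhs => rw [show v = v.re • (1 : ℂ) + v.im • I by
      apply Complex.ext <;> simp]
    rw [map_add, map_smul, map_smul]
    rfl
  unfold dv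
  rw [h]
  simp
  ring

/-- The derivatives of a harmonic function are harmonic. -/
theorem harmonicAt_dv {f : ℂ → ℝ} {z : ℂ} (hf : HarmonicAt f z) (v : ℂ) :
    HarmonicAt (dv v f) z := by
  have h1 : AnalyticAt ℂ (fun w => (((fderiv ℝ f w 1 : ℝ) : ℂ) - I * ((fderiv ℝ f w I : ℝ) : ℂ)) * v)
      z := (HarmonicAt.analyticAt_complex_partial hf).mul analyticAt_const
  have h2 := h1.harmonicAt_re
  rw [show dv v f = fun w => ((((fderiv ℝ f w 1 : ℝ) : ℂ) - I * ((fderiv ℝ f w I : ℝ) : ℂ)) * v).re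
    from funext fun w => dv_eq_re f v w]
  exact h2

theorem harmonicOn_dv {f : ℂ → ℝ} {s : Set ℂ} (hf : HarmonicOnNhd f s) (v : ℂ) :
    HarmonicOnNhd (dv v f) s := fun z hz => harmonicAt_dv (hf z hz) v

theorem harmonicAt_contDiffAt {f : ℂ → ℝ} {z : ℂ} (hf : HarmonicAt f z) {n : WithTop ℕ∞} :
    ContDiffAt ℝ n f z := (HarmonicAt.analyticAt hf).contDiffAt

theorem harmonicOn_contDiffOn {f : ℂ → ℝ} {s : Set ℂ} (hf : HarmonicOnNhd f s)
    {n : WithTop ℕ∞} : ContDiffOn ℝ n f s :=
  fun z hz => (harmonicAt_contDiffAt (hf z hz)).contDiffWithinAt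

theorem norm_circleAverage_le {g : ℂ → ℂ} {c : ℂ} {R C : ℝ} (hR : 0 ≤ R)
    (hb : ∀ z ∈ sphere c R, ‖g z‖ ≤ C) : ‖Real.circleAverage g c R‖ ≤ C := by
  have h1 : ‖∫ θ in (0 : ℝ)..2 * Real.pi, g (circleMap c R θ)‖ ≤ C * |2 * Real.pi - 0| :=
    intervalIntegral.norm_integral_le_of_norm_le_const fun θ _ => hb _ (circleMap_mem_sphere c hR θ)
  have hpi := Real.pi_pos
  rw [Real.circleAverage_def, norm_smul, Real.norm_of_nonneg (by positivity)]
  rw [sub_zero, abs_of_pos (by positivity)] at h1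
  calc (2 * Real.pi)⁻¹ * ‖∫ θ in (0 : ℝ)..2 * Real.pi, g (circleMap c R θ)‖
      ≤ (2 * Real.pi)⁻¹ * (C * (2 * Real.pi)) := by gcongr
    _ = C := by field_simp

/-- **The gradient estimate**. -/
theorem abs_dv_le {f : ℂ → ℝ} {c : ℂ} {R M : ℝ} (hR : 0 < R)
    (hf : HarmonicOnNhd f (closedBall c R)) (hb : ∀ z ∈ sphere c R, |f z| ≤ M) (v : ℂ) :
    |dv v f c| ≤ 2 / R * M * ‖v‖ := by
  have hi := HarmonicOnNhd.circleIntegrable hR.le hf
  have h1 := hasDerivAt_circleAverage_herglotzRieszKernel_smul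
    (f := fun ζ => ((f (ζ + c) : ℝ) : ℂ)) (R := R) (w := c - c)
    (circleIntegrable_ofReal (circleIntegrable_shift hi)) (by simpa using hR)
  have h2 : HasDerivAt (fun w : ℂ => w - c) 1 c := (hasDerivAt_id c).sub_const c
  have h3 : HasDerivAt (herg f c R) _ c := HasDerivAt.comp (h₂ := fun w => Real.circleAverage
      (fun ζ => herglotzRieszKernel 0 w ζ • ((f (ζ + c) : ℝ) : ℂ)) 0 R) c h1 h2
  set D : ℂ := Real.circleAverage (fun ζ => (2 * ζ / (ζ - (c - c)) ^ 2) •
    ((f (ζ + c) : ℝ) : ℂ)) 0 R with hD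
  have h4 : HasFDerivAt (fun z => (herg f c R z).re)
      (Complex.reCLM.comp (((ContinuousLinearMap.toSpanSingleton ℂ (D * 1) : ℂ →L[ℂ] ℂ)).restrictScalars
        ℝ)) c :=
    (Complex.reCLM.hasFDerivAt (x := herg f c R c)).comp c (h3.hasFDerivAt.restrictScalars ℝ)
  have h5 : dv v f c = (D * v).re := by
    have h6 : dv v (fun z => (herg f c R z).re) c = (D * v).re := by
      unfold dv
      rw [h4.fderiv]
      simp [mul_comm]
    rw [← h6]
    refine dv_congr ?_
    filter_upwards [isOpen_ball.mem_nhds (mem_ball_self hR)] with z hz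
    rw [herg_re_eq hf hz]
  rw [h5]
  refine (Complex.abs_re_le_norm _).trans ?_
  rw [norm_mul]
  refine mul_le_mul_of_nonneg_right ?_ (norm_nonneg _)
  rw [hD]
  refine norm_circleAverage_le hR.le fun z hz => ?_
  have hz' : ‖z‖ = R := by simpa using hz
  have hz2 : ‖((f (z + c) : ℝ) : ℂ)‖ ≤ M := by
    rw [Complex.norm_real]
    refine hb _ ?_
    rw [mem_sphere_iff_norm, add_sub_cancel_right]
    exact hz'
  rw [sub_self, sub_zero, norm_smul, norm_div, norm_mul, norm_pow, hz']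
  have h7 : ‖(2 : ℂ)‖ = 2 := by norm_num
  rw [h7, show 2 * R / R ^ 2 = 2 / R by field_simp]
  exact mul_le_mul_of_nonneg_left hz2 (by positivity)

theorem norm_fderiv_le {f : ℂ → ℝ} {c : ℂ} {R M : ℝ} (hR : 0 < R)
    (hf : HarmonicOnNhd f (closedBall c R)) (hb : ∀ z ∈ sphere c R, |f z| ≤ M) :
    ‖fderiv ℝ f c‖ ≤ 2 / R * M := by
  have hM : 0 ≤ M := (abs_nonneg _).trans (hb (c + R) (by
    rw [mem_sphere_iff_norm]
    simp [abs_of_pos hR]))
  refine ContinuousLinearMap.opNorm_le_bound _ (by positivity) fun v => ?_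
  exact abs_dv_le hR hf hb v

/-- Lipschitz estimate. -/
theorem harmonic_lipschitz {f : ℂ → ℝ} {c : ℂ} {r M : ℝ} (hr : 0 < r)
    (hf : HarmonicOnNhd f (closedBall c (2 * r))) (hb : ∀ z ∈ closedBall c (2 * r), |f z| ≤ M)
    {w z : ℂ} (hw : w ∈ closedBall c r) (hz : z ∈ closedBall c r) :
    |f w - f z| ≤ 2 / r * M * ‖w - z‖ := by
  have hsub : ∀ x ∈ closedBall c r, closedBall x r ⊆ closedBall c (2 * r) := by
    intro x hx
    refine closedBall_subset_closedBall' ?_
    rw [mem_closedBall] at hx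
    linarith
  rw [← Real.norm_eq_abs]
  refine Convex.norm_image_sub_le_of_norm_fderiv_le (𝕜 := ℝ) (f := f) (s := closedBall c r) ?_ ?_
    (convex_closedBall c r) hz hw
  · intro x hx
    exact (hf x (closedBall_subset_closedBall (by linarith) hx)).1.differentiableAt (by norm_num)
  · intro x hx
    exact norm_fderiv_le hr (hf.mono (hsub x hx)) fun y hy =>
      hb y (hsub x hx (sphere_subset_closedBall hy))

/-! ### Convergence -/

/-- Near every point of `O` the functions `f k` are eventually harmonic. -/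
def LocHarm {ι : Type*} (f : ι → ℂ → ℝ) (l : Filter ι) (O : Set ℂ) : Prop :=
  ∀ x ∈ O, ∃ r > 0, ∀ᶠ k in l, HarmonicOnNhd (f k) (closedBall x r)

/-- Near every point of `O` the functions `f k` are eventually harmonic and nonnegative. -/
def LocHarmPos {ι : Type*} (f : ι → ℂ → ℝ) (l : Filter ι) (O : Set ℂ) : Prop :=
  ∀ x ∈ O, ∃ r > 0, ∀ᶠ k in l, HarmonicOnNhd (f k) (closedBall x r) ∧
    ∀ z ∈ closedBall x r, 0 ≤ f k z

theorem LocHarmPos.locHarm {ι : Type*} {f : ι → ℂ → ℝ} {l : Filter ι} {O : Set ℂ}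
    (h : LocHarmPos f l O) : LocHarm f l O := by
  intro x hx
  obtain ⟨r, hr, h1⟩ := h x hx
  exact ⟨r, hr, h1.mono fun k hk => hk.1⟩

/-- a radius which works is bounded by anything -/
theorem LocHarm.small {ι : Type*} {f : ι → ℂ → ℝ} {l : Filter ι} {O : Set ℂ} (hO : IsOpen O)
    (h : LocHarm f l O) {x : ℂ} (hx : x ∈ O) :
    ∃ r > 0, closedBall x r ⊆ O ∧ ∀ᶠ k in l, HarmonicOnNhd (f k) (closedBall x r) := by
  obtain ⟨r, hr, h1⟩ := h x hx
  obtain ⟨s, hs, h2⟩ := Metric.nhds_basis_closedBall.mem_iff.1 (hO.mem_nhds hx)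
  refine ⟨min r s, lt_min hr hs, (closedBall_subset_closedBall (min_le_right _ _)).trans h2, ?_⟩
  filter_upwards [h1] with k hk
  exact hk.mono (closedBall_subset_closedBall (min_le_left _ _))

theorem LocHarmPos.small {ι : Type*} {f : ι → ℂ → ℝ} {l : Filter ι} {O : Set ℂ} (hO : IsOpen O)
    (h : LocHarmPos f l O) {x : ℂ} (hx : x ∈ O) :
    ∃ r > 0, closedBall x r ⊆ O ∧ ∀ᶠ k in l, HarmonicOnNhd (f k) (closedBall x r) ∧
      ∀ z ∈ closedBall x r, 0 ≤ f k z := by
  obtain ⟨r, hr, h1⟩ := h x hx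
  obtain ⟨s, hs, h2⟩ := Metric.nhds_basis_closedBall.mem_iff.1 (hO.mem_nhds hx)
  refine ⟨min r s, lt_min hr hs, (closedBall_subset_closedBall (min_le_right _ _)).trans h2, ?_⟩
  filter_upwards [h1] with k hk
  exact ⟨hk.1.mono (closedBall_subset_closedBall (min_le_left _ _)), fun z hz =>
    hk.2 z (closedBall_subset_closedBall (min_le_left _ _) hz)⟩

/-- A locally uniform limit of harmonic functions is harmonic. -/
theorem harmonicOn_of_tendstoLocallyUniformlyOn {ι : Type*} {l : Filter ι}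
    [l.IsCountablyGenerated] [NeBot l] {f : ι → ℂ → ℝ} {g : ℂ → ℝ} {O : Set ℂ} (hO : IsOpen O)
    (hf : LocHarm f l O) (h : TendstoLocallyUniformlyOn f g l O) : HarmonicOnNhd g O := by
  intro x hx
  obtain ⟨r, hr, h1, h2⟩ := hf.small hO hx
  have h3 : TendstoUniformlyOn f g l (closedBall x r) :=
    (tendstoLocallyUniformlyOn_iff_forall_isCompact hO).1 h _ h1 (isCompact_closedBall x r)
  -- the limit is bounded on the ball
  have hev : ∀ᶠ k in l, ∀ z ∈ closedBall x r, dist (g z) (f k z) < 1 :=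
    Metric.tendstoUniformlyOn_iff.1 h3 1 one_pos
  obtain ⟨k0, hk1, hk2⟩ := (h2.and hev).exists
  obtain ⟨M, hM⟩ := (isCompact_closedBall x r).exists_bound_of_continuousOn hk1.continuousOn
  have hb : ∀ᶠ k in l, ∀ z ∈ closedBall x r, |f k z| ≤ M + 2 := by
    filter_upwards [hev] with k hk z hz
    have h4 := hk z hz
    have h5 := hk2 z hz
    have h6 := hM z hz
    rw [Real.dist_eq] at h4 h5
    rw [Real.norm_eq_abs] at h6
    rw [abs_lt] at h4 h5
    rw [abs_le] at h6 ⊢
    constructor <;> linarith [h4.1, h4.2, h5.1, h5.2, h6.1, h6.2]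
  exact harmonicOn_of_tendsto h2 hb (fun z hz => h3.tendsto_at hz) x (mem_ball_self hr)

/-- Locally uniform convergence of harmonic functions implies the convergence of derivatives. -/
theorem tendstoLocallyUniformlyOn_dv {ι : Type*} {l : Filter ι}
    [l.IsCountablyGenerated] [NeBot l] {f : ι → ℂ → ℝ} {g : ℂ → ℝ} {O : Set ℂ} (hO : IsOpen O)
    (hf : LocHarm f l O) (h : TendstoLocallyUniformlyOn f g l O) (v : ℂ) :
    TendstoLocallyUniformlyOn (fun k => dv v (f k)) (dv v g) l O := by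
  have hg := harmonicOn_of_tendstoLocallyUniformlyOn hO hf h
  rw [Metric.tendstoLocallyUniformlyOn_iff]
  intro ε hε x hx
  obtain ⟨r, hr, h1, h2⟩ := hf.small hO hx
  have h3 : TendstoUniformlyOn f g l (closedBall x r) :=
    (tendstoLocallyUniformlyOn_iff_forall_isCompact hO).1 h _ h1 (isCompact_closedBall x r)
  set δ : ℝ := ε * r / (8 * (‖v‖ + 1)) with hδ
  have hv : 0 < ‖v‖ + 1 := by positivity
  have hδ0 : 0 < δ := by positivity
  have hev := Metric.tendstoUniformlyOn_iff.1 h3 δ hδ0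
  refine ⟨closedBall x (r / 2), mem_nhdsWithin_of_mem_nhds (closedBall_mem_nhds x (by linarith)),
    ?_⟩
  filter_upwards [hev, h2] with k hk hk2 y hy
  have hsub : closedBall y (r / 2) ⊆ closedBall x r := by
    refine closedBall_subset_closedBall' ?_
    rw [mem_closedBall] at hy
    linarith
  have hyx : y ∈ closedBall x r := hsub (mem_closedBall_self (by linarith))
  have h4 : HarmonicOnNhd (g - f k) (closedBall y (r / 2)) :=
    (hg.mono (hsub.trans h1)).sub (hk2.mono hsub)
  have h5 := abs_dv_le (M := δ) (by linarith : 0 < r / 2) h4 (fun z hz => by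
    have := hk z (hsub (sphere_subset_closedBall hz))
    rw [Real.dist_eq] at this
    exact this.le) v
  have h6 : dv v (g - f k) y = dv v g y - dv v (f k) y :=
    dv_sub ((hg y (h1 hyx)).1.differentiableAt (by norm_num))
      ((hk2 y hyx).1.differentiableAt (by norm_num))
  rw [h6] at h5
  rw [Real.dist_eq]
  refine h5.trans_lt ?_
  have h7 : 2 / (r / 2) * δ * ‖v‖ = ε / 2 * (‖v‖ / (‖v‖ + 1)) := by
    rw [hδ]
    field_simp
    ring
  rw [h7]
  have h8 : ‖v‖ / (‖v‖ + 1) ≤ 1 := by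
    rw [div_le_one hv]
    linarith
  nlinarith

theorem locHarm_dv {ι : Type*} {l : Filter ι} {f : ι → ℂ → ℝ} {O : Set ℂ}
    (hf : LocHarm f l O) (v : ℂ) : LocHarm (fun k => dv v (f k)) l O := by
  intro x hx
  obtain ⟨r, hr, h⟩ := hf x hx
  exact ⟨r, hr, h.mono fun k hk => harmonicOn_dv hk v⟩

/-- **Harnack's principle**: nonnegative harmonic functions which converge on a dense set
converge locally uniformly. -/
theorem harnack_principle {ι : Type*} {l : Filter ι} [l.IsCountablyGenerated] [NeBot l]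
    {f : ι → ℂ → ℝ} {O S : Set ℂ} (hO : IsOpen O) (hS : Dense S)
    (hf : LocHarmPos f l O)
    (hc : ∀ z ∈ S ∩ O, ∃ a : ℝ, Tendsto (fun k => f k z) l (𝓝 a)) :
    ∃ χ : ℂ → ℝ, HarmonicOnNhd χ O ∧ (∀ z ∈ O, 0 ≤ χ z) ∧
      TendstoLocallyUniformlyOn f χ l O := by
  -- uniform Lipschitz bounds
  have key : ∀ x ∈ O, ∃ r > 0, ∃ M > 0, closedBall x r ⊆ O ∧ ∀ᶠ k in l, ∀ w ∈ closedBall x r,
      ∀ z ∈ closedBall x r, |f k w - f k z| ≤ M * ‖w - z‖ := by
    intro x hx
    obtain ⟨ρ, hρ, h1, h2⟩ := hf.small hO hx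
    set r := ρ / 6 with hr
    have hr0 : 0 < r := by positivity
    have hρr : ρ = 6 * r := by rw [hr]; ring
    obtain ⟨s, hs1, hs2⟩ := hS.exists_mem_open isOpen_ball ⟨x, mem_ball_self hr0⟩
    have hsO : s ∈ O := h1 (ball_subset_closedBall (ball_subset_ball (by linarith) hs2))
    obtain ⟨a, ha⟩ := hc s ⟨hs1, hsO⟩
    have ha2 : ∀ᶠ k in l, f k s < |a| + 1 := by
      refine ha.eventually_lt_const ?_
      linarith [le_abs_self a]
    have hsx : ‖s - x‖ < r := mem_ball_iff_norm.1 hs2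
    refine ⟨r, hr0, 2 / r * (4 * (|a| + 1)), by positivity,
      (closedBall_subset_closedBall (by linarith)).trans h1, ?_⟩
    filter_upwards [h2, ha2] with k hk1 hk2 w hw z hz
    have hsub : closedBall s (5 * r) ⊆ closedBall x ρ := by
      refine closedBall_subset_closedBall' ?_
      rw [dist_eq_norm]
      linarith
    have hbound : ∀ y ∈ closedBall x (2 * r), |f k y| ≤ 4 * (|a| + 1) := by
      intro y hy
      have hy2 : ‖y - s‖ ≤ 3 * r := by
        have h3 : ‖y - x‖ ≤ 2 * r := mem_closedBall_iff_norm.1 hy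
        have h4 : ‖y - s‖ ≤ ‖y - x‖ + ‖s - x‖ := by
          have := norm_sub_le (y - x) (s - x)
          rwa [sub_sub_sub_cancel_right] at this
        linarith
      have h5 := harnack_le (hk1.1.mono hsub) (fun z hz => hk1.2 z (hsub hz))
        (w := y) (by rw [mem_ball_iff_norm]; linarith)
      have h6 : 0 ≤ f k y := hk1.2 y (closedBall_subset_closedBall (by linarith) hy)
      have h7 : 0 ≤ f k s := hk1.2 s (hsub (mem_closedBall_self (by linarith)))
      rw [abs_of_nonneg h6]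
      have h8 : (5 * r + ‖y - s‖) / (5 * r - ‖y - s‖) ≤ 4 := by
        rw [div_le_iff₀ (by linarith)]
        linarith
      calc f k y ≤ _ := h5
        _ ≤ 4 * f k s := mul_le_mul_of_nonneg_right h8 h7
        _ ≤ _ := by linarith
    exact harmonic_lipschitz hr0 (hk1.1.mono (closedBall_subset_closedBall (by linarith)))
      hbound hw hz
  -- pointwise convergence
  have hpt : ∀ x ∈ O, ∃ a : ℝ, Tendsto (fun k => f k x) l (𝓝 a) := by
    intro x hx
    obtain ⟨r, hr, M, hM, h1, h2⟩ := key x hx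
    refine cauchy_map_iff_exists_tendsto.1 ?_
    rw [Metric.cauchy_iff]
    refine ⟨inferInstance, fun ε hε => ?_⟩
    set δ : ℝ := min r (ε / (4 * M)) with hδ
    have hδ0 : 0 < δ := lt_min hr (by positivity)
    obtain ⟨s, hs1, hs2⟩ := hS.exists_mem_open isOpen_ball ⟨x, mem_ball_self hδ0⟩
    have hsx : ‖s - x‖ < δ := mem_ball_iff_norm.1 hs2
    have hsr : s ∈ closedBall x r := by
      rw [mem_closedBall_iff_norm]
      exact hsx.le.trans (min_le_left _ _)
    obtain ⟨a, ha⟩ := hc s ⟨hs1, h1 hsr⟩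
    have ha2 : ∀ᶠ k in l, |f k s - a| < ε / 4 := by
      have := Metric.tendsto_nhds.1 ha (ε / 4) (by positivity)
      simpa [Real.dist_eq] using this
    have hev : ∀ᶠ k in l, |f k x - a| < ε / 2 := by
      filter_upwards [h2, ha2] with k hk1 hk2
      have h3 := hk1 x (mem_closedBall_self hr.le) s hsr
      have h4 : M * ‖x - s‖ ≤ ε / 4 := by
        rw [norm_sub_rev]
        calc M * ‖s - x‖ ≤ M * (ε / (4 * M)) := by
              refine mul_le_mul_of_nonneg_left ?_ hM.le
              exact hsx.le.trans (min_le_right _ _)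
          _ = ε / 4 := by field_simp
      calc |f k x - a| = |(f k x - f k s) + (f k s - a)| := by ring_nf
        _ ≤ |f k x - f k s| + |f k s - a| := abs_add_le _ _
        _ < ε / 2 := by linarith
    refine ⟨(fun k => f k x) '' {k | |f k x - a| < ε / 2}, image_mem_map hev, ?_⟩
    rintro _ ⟨k, hk, rfl⟩ _ ⟨j, hj, rfl⟩
    rw [Real.dist_eq]
    calc |f k x - f j x| = |(f k x - a) - (f j x - a)| := by ring_nf
      _ ≤ |f k x - a| + |f j x - a| := abs_sub _ _
      _ < ε := by
        have h5 : |f k x - a| < ε / 2 := hk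
        have h6 : |f j x - a| < ε / 2 := hj
        linarith
  classical
  choose! χ hχ using hpt
  have hloc : TendstoLocallyUniformlyOn f χ l O := by
    rw [Metric.tendstoLocallyUniformlyOn_iff]
    intro ε hε x hx
    obtain ⟨r, hr, M, hM, h1, h2⟩ := key x hx
    have hlip : ∀ w ∈ closedBall x r, ∀ z ∈ closedBall x r, |χ w - χ z| ≤ M * ‖w - z‖ := by
      intro w hw z hz
      refine le_of_tendsto (((hχ w (h1 hw)).sub (hχ z (h1 hz))).abs) ?_
      filter_upwards [h2] with k hk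
      exact hk w hw z hz
    set δ : ℝ := min r (ε / (4 * M)) with hδ
    have hδ0 : 0 < δ := lt_min hr (by positivity)
    refine ⟨closedBall x δ, mem_nhdsWithin_of_mem_nhds (closedBall_mem_nhds x hδ0), ?_⟩
    have ha2 : ∀ᶠ k in l, |f k x - χ x| < ε / 4 := by
      have := Metric.tendsto_nhds.1 (hχ x hx) (ε / 4) (by positivity)
      simpa [Real.dist_eq] using this
    filter_upwards [h2, ha2] with k hk1 hk2 y hy
    have hyδ : ‖y - x‖ ≤ δ := mem_closedBall_iff_norm.1 hy
    have hyr : y ∈ closedBall x r := closedBall_subset_closedBall (min_le_left _ _) hy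
    have hxr : x ∈ closedBall x r := mem_closedBall_self hr.le
    have h4 : M * ‖y - x‖ ≤ ε / 4 := by
      calc M * ‖y - x‖ ≤ M * (ε / (4 * M)) := by
            refine mul_le_mul_of_nonneg_left ?_ hM.le
            exact hyδ.trans (min_le_right _ _)
        _ = ε / 4 := by field_simp
    have h5 := hk1 y hyr x hxr
    have h6 := hlip y hyr x hxr
    rw [Real.dist_eq]
    calc |χ y - f k y| = |(χ y - χ x) - (f k y - f k x) - (f k x - χ x)| := by ring_nf
      _ ≤ |(χ y - χ x) - (f k y - f k x)| + |f k x - χ x| := abs_sub _ _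
      _ ≤ (|χ y - χ x| + |f k y - f k x|) + |f k x - χ x| := by
          gcongr
          exact abs_sub _ _
      _ < ε := by linarith
  refine ⟨χ, harmonicOn_of_tendstoLocallyUniformlyOn hO hf.locHarm hloc, ?_, hloc⟩
  intro z hz
  obtain ⟨r, hr, h1, h2⟩ := hf.small hO hz
  refine ge_of_tendsto (hχ z hz) ?_
  filter_upwards [h2] with k hk
  exact hk.2 z (mem_closedBall_self hr.le)

/-- Harmonic functions which converge pointwise and have locally a common harmonic lower bound
converge locally uniformly. -/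
theorem tendstoLocallyUniformlyOn_of_lower {ι : Type*} {l : Filter ι} [l.IsCountablyGenerated]
    [NeBot l] {f : ι → ℂ → ℝ} {g : ℂ → ℝ} {O : Set ℂ} (hO : IsOpen O)
    (hf : ∀ x ∈ O, ∃ r > 0, ∃ f0 : ℂ → ℝ, HarmonicOnNhd f0 (closedBall x r) ∧
      ∀ᶠ k in l, HarmonicOnNhd (f k) (closedBall x r) ∧ ∀ z ∈ closedBall x r, f0 z ≤ f k z)
    (h : ∀ z ∈ O, Tendsto (fun k => f k z) l (𝓝 (g z))) :
    TendstoLocallyUniformlyOn f g l O ∧ HarmonicOnNhd g O := by
  have key : ∀ x ∈ O, ∃ r > 0, TendstoLocallyUniformlyOn f g l (ball x r) ∧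
      HarmonicOnNhd g (ball x r) := by
    intro x hx
    obtain ⟨r, hr, f0, h1, h2⟩ := hf x hx
    obtain ⟨s, hs, h3'⟩ := Metric.isOpen_iff.1 hO x hx
    have h3 : ∀ z ∈ ball x s, Tendsto (fun k => f k z) l (𝓝 (g z)) := fun z hz => h z (h3' hz)
    have hr' : 0 < min r s := lt_min hr hs
    set t := min r s with ht
    have hsub : ball x t ⊆ ball x r := ball_subset_ball (min_le_left _ _)
    have hpos : LocHarmPos (fun k z => f k z - f0 z) l (ball x t) := by
      intro y hy
      obtain ⟨ρ, hρ, h4⟩ := Metric.nhds_basis_closedBall.mem_iff.1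
        (isOpen_ball.mem_nhds (hsub hy))
      refine ⟨ρ, hρ, ?_⟩
      filter_upwards [h2] with k hk
      refine ⟨(hk.1.mono (h4.trans ball_subset_closedBall)).sub
        (h1.mono (h4.trans ball_subset_closedBall)), fun z hz => ?_⟩
      have := hk.2 z (ball_subset_closedBall (h4 hz))
      linarith
    obtain ⟨χ, hχ1, -, hχ3⟩ := harnack_principle (S := univ) isOpen_ball dense_univ hpos
      (fun z hz => ⟨g z - f0 z, (h3 z (ball_subset_ball (min_le_right _ _) hz.2)).sub_const _⟩)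
    have hχ4 : ∀ z ∈ ball x t, χ z = g z - f0 z := fun z hz =>
      tendsto_nhds_unique (hχ3.tendsto_at hz)
        ((h3 z (ball_subset_ball (min_le_right _ _) hz)).sub_const _)
    refine ⟨t, hr', ?_, ?_⟩
    · rw [Metric.tendstoLocallyUniformlyOn_iff] at hχ3 ⊢
      intro ε hε y hy
      obtain ⟨T, hT1, hT2⟩ := hχ3 ε hε y hy
      refine ⟨T ∩ ball x t, inter_mem hT1 self_mem_nhdsWithin, ?_⟩
      filter_upwards [hT2] with k hk z hz
      have h5 := hk z hz.1
      rw [hχ4 z hz.2, Real.dist_eq] at h5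
      rw [Real.dist_eq]
      rwa [show g z - f0 z - (f k z - f0 z) = g z - f k z by ring] at h5
    · intro y hy
      have h6 : HarmonicAt (fun z => χ z + f0 z) y :=
        (hχ1 y hy).add (h1 y (ball_subset_closedBall (hsub hy)))
      refine (harmonicAt_congr_nhds ?_).1 h6
      filter_upwards [isOpen_ball.mem_nhds hy] with z hz
      rw [hχ4 z hz]
      ring
  refine ⟨?_, fun x hx => ?_⟩
  · rw [Metric.tendstoLocallyUniformlyOn_iff]
    intro ε hε x hx
    obtain ⟨r, hr, h1, -⟩ := key x hx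
    obtain ⟨T, hT1, hT2⟩ := Metric.tendstoLocallyUniformlyOn_iff.1 h1 ε hε x (mem_ball_self hr)
    refine ⟨T, ?_, hT2⟩
    rw [isOpen_ball.nhdsWithin_eq (mem_ball_self hr)] at hT1
    exact mem_nhdsWithin_of_mem_nhds hT1
  · obtain ⟨r, hr, -, h2⟩ := key x hx
    exact h2 x (mem_ball_self hr)

/-- Harmonic functions which converge pointwise and are locally bounded converge locally
uniformly. -/
theorem tendstoLocallyUniformlyOn_of_bounded {ι : Type*} {l : Filter ι} [l.IsCountablyGenerated]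
    [NeBot l] {f : ι → ℂ → ℝ} {g : ℂ → ℝ} {O : Set ℂ} (hO : IsOpen O)
    (hf : ∀ x ∈ O, ∃ r > 0, ∃ M : ℝ,
      ∀ᶠ k in l, HarmonicOnNhd (f k) (closedBall x r) ∧ ∀ z ∈ closedBall x r, |f k z| ≤ M)
    (h : ∀ z ∈ O, Tendsto (fun k => f k z) l (𝓝 (g z))) :
    TendstoLocallyUniformlyOn f g l O ∧ HarmonicOnNhd g O := by
  refine tendstoLocallyUniformlyOn_of_lower hO (fun x hx => ?_) h
  obtain ⟨r, hr, M, h1⟩ := hf x hx
  refine ⟨r, hr, fun _ => -M, fun z _ => harmonicAt_const _, ?_⟩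
  filter_upwards [h1] with k hk
  exact ⟨hk.1, fun z hz => (abs_le.1 (hk.2 z hz)).1⟩

/-! ### The parameter -/

section parameter

variable {ψ : ℝ → ℂ → ℝ} {V : ℝ → Set ℂ} {a : ℝ} {q : ℂ → ℝ}

/-- The difference quotients in the parameter. -/
noncomputable def quot (ψ : ℝ → ℂ → ℝ) (L h : ℝ) (z : ℂ) : ℝ := (ψ L z - ψ (L + h) z) / h

theorem locHarmPos_quot (hV : ∀ L, a < L → IsOpen (V L))
    (hanti : ∀ L L', a < L → L ≤ L' → V L' ⊆ V L)
    (hright : ∀ L, a < L → ∀ x ∈ V L, ∃ L' > L, x ∈ V L')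
    (hψ : ∀ L, a < L → HarmonicOnNhd (fun z => ψ L z + q z) (V L))
    (hmono : ∀ L L', a < L → L ≤ L' → ∀ z ∈ V L', ψ L' z ≤ ψ L z) {L : ℝ} (hL : a < L) :
    LocHarmPos (quot ψ L) (𝓝[≠] 0) (V L) := by
  intro x hx
  obtain ⟨L1, hL1, hx1⟩ := hright L hL x hx
  obtain ⟨r, hr, h1⟩ := Metric.nhds_basis_closedBall.mem_iff.1
    ((hV L1 (hL.trans hL1)).mem_nhds hx1)
  refine ⟨r, hr, ?_⟩
  have hev : ∀ᶠ h : ℝ in 𝓝[≠] 0, h ∈ Ioo (a - L) (L1 - L) :=
    mem_nhdsWithin_of_mem_nhds (Ioo_mem_nhds (by linarith) (by linarith))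
  filter_upwards [hev, self_mem_nhdsWithin] with h hh hh0
  have hh0' : h ≠ 0 := hh0
  have ha : a < L + h := by linarith [hh.1]
  have hb : L + h ≤ L1 := by linarith [hh.2]
  have hsub1 : closedBall x r ⊆ V (L + h) := h1.trans (hanti _ _ ha hb)
  have hsub2 : closedBall x r ⊆ V L := h1.trans (hanti _ _ hL hL1.le)
  constructor
  · have h2 : HarmonicOnNhd ((h⁻¹ : ℝ) • ((fun z => ψ L z + q z) - fun z => ψ (L + h) z + q z))
        (closedBall x r) :=
      (((hψ L hL).mono hsub2).sub ((hψ _ ha).mono hsub1)).const_smul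
    have h3 : ((h⁻¹ : ℝ) • ((fun z => ψ L z + q z) - fun z => ψ (L + h) z + q z)) =
        quot ψ L h := by
      funext z
      simp only [Pi.smul_apply, Pi.sub_apply, smul_eq_mul, quot]
      field_simp
      ring
    rwa [h3] at h2
  · intro z hz
    unfold quot
    rcases lt_or_gt_of_ne hh0' with hneg | hpos
    · have h4 := hmono (L + h) L ha (by linarith) z (hsub2 hz)
      exact div_nonneg_of_nonpos (by linarith) hneg.le
    · have h4 := hmono L (L + h) hL (by linarith) z (hsub1 hz)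
      exact div_nonneg (by linarith) hpos.le

/-- **The derivative in the parameter**: for almost every `L` the difference quotients converge
locally uniformly in `V L` to a nonnegative harmonic function. -/
theorem ae_parameter (hV : ∀ L, a < L → IsOpen (V L))
    (hanti : ∀ L L', a < L → L ≤ L' → V L' ⊆ V L)
    (hright : ∀ L, a < L → ∀ x ∈ V L, ∃ L' > L, x ∈ V L')
    (hψ : ∀ L, a < L → HarmonicOnNhd (fun z => ψ L z + q z) (V L))
    (hmono : ∀ L L', a < L → L ≤ L' → ∀ z ∈ V L', ψ L' z ≤ ψ L z) :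
    ∀ᵐ L : ℝ, a < L → ∃ χ : ℂ → ℝ, HarmonicOnNhd χ (V L) ∧ (∀ z ∈ V L, 0 ≤ χ z) ∧
      TendstoLocallyUniformlyOn (quot ψ L) χ (𝓝[≠] 0) (V L) := by
  obtain ⟨S, hSc, hSd⟩ := TopologicalSpace.exists_countable_dense ℂ
  have h1 : ∀ᵐ L : ℝ, ∀ z ∈ S, a < L ∧ z ∈ V L → DifferentiableAt ℝ (fun L => ψ L z) L := by
    rw [ae_ball_iff hSc]
    intro z _
    set J : Set ℝ := {L | a < L ∧ z ∈ V L} with hJ
    have hJm : MonotoneOn (fun L => - ψ L z) J := by
      intro L hL L' hL' hle
      exact neg_le_neg (hmono L L' hL.1 hle z hL'.2)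
    filter_upwards [hJm.ae_differentiableWithinAt_of_mem] with L hL hLJ
    obtain ⟨L1, hL1, hz1⟩ := hright L hLJ.1 z hLJ.2
    have hnhds : J ∈ 𝓝 L := by
      filter_upwards [Ioo_mem_nhds hLJ.1 hL1] with L' hL'
      exact ⟨hL'.1, hanti L' L1 hL'.1 hL'.2.le hz1⟩
    have h2 := (hL hLJ).differentiableAt hnhds
    have h3 := h2.neg
    simpa using h3
  filter_upwards [h1] with L hL haL
  refine harnack_principle (hV L haL) hSd (locHarmPos_quot hV hanti hright hψ hmono haL) ?_
  rintro z ⟨hz1, hz2⟩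
  have h2 := (hL z hz1 ⟨haL, hz2⟩).hasDerivAt
  rw [hasDerivAt_iff_tendsto_slope_zero] at h2
  refine ⟨_, (h2.neg).congr' ?_⟩
  filter_upwards with h
  simp only [quot, smul_eq_mul]
  ring

end parameter

/-! ### The maximum principle -/

theorem eq_zero_of_nonneg {χ : ℂ → ℝ} {c : ℂ} {R : ℝ} (hf : HarmonicOnNhd χ (closedBall c R))
    (h0 : ∀ z ∈ closedBall c R, 0 ≤ χ z) (hc : χ c = 0) {w : ℂ} (hw : w ∈ ball c R) :
    χ w = 0 := by
  have h1 := harnack_le hf h0 hw
  rw [hc, mul_zero] at h1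
  exact le_antisymm h1 (h0 w (ball_subset_closedBall hw))

theorem eventually_eq_zero_of_nonneg {χ : ℂ → ℝ} {O : Set ℂ} (hO : IsOpen O)
    (hf : HarmonicOnNhd χ O) (h0 : ∀ z ∈ O, 0 ≤ χ z) {x : ℂ} (hx : x ∈ O) (hx0 : χ x = 0) :
    ∀ᶠ z in 𝓝 x, χ z = 0 := by
  obtain ⟨r, hr, h1⟩ := Metric.nhds_basis_closedBall.mem_iff.1 (hO.mem_nhds hx)
  filter_upwards [ball_mem_nhds x hr] with z hz
  exact eq_zero_of_nonneg (hf.mono h1) (fun z hz => h0 z (h1 hz)) hx0 hz

/-- **The strong maximum principle**. -/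
theorem eqOn_zero_of_preconnected {χ : ℂ → ℝ} {O : Set ℂ} (hO : IsOpen O)
    (hc : IsPreconnected O) (hf : HarmonicOnNhd χ O) (h0 : ∀ z ∈ O, 0 ≤ χ z) {x : ℂ}
    (hx : x ∈ O) (hx0 : χ x = 0) : ∀ z ∈ O, χ z = 0 := by
  have hu : IsOpen {z | z ∈ O ∧ χ z = 0} := by
    rw [isOpen_iff_mem_nhds]
    rintro z ⟨hz1, hz2⟩
    filter_upwards [hO.mem_nhds hz1, eventually_eq_zero_of_nonneg hO hf h0 hz1 hz2] with w h1 h2
    exact ⟨h1, h2⟩
  have hv : IsOpen {z | z ∈ O ∧ 0 < χ z} := by
    rw [isOpen_iff_mem_nhds]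
    rintro z ⟨hz1, hz2⟩
    have h1 : ContinuousAt χ z := hf.continuousOn.continuousAt (hO.mem_nhds hz1)
    filter_upwards [hO.mem_nhds hz1, h1.eventually_const_lt hz2] with w h1 h2
    exact ⟨h1, h2⟩
  have hdisj : Disjoint {z | z ∈ O ∧ χ z = 0} {z | z ∈ O ∧ 0 < χ z} := by
    rw [Set.disjoint_left]
    rintro z ⟨_, h1⟩ ⟨_, h2⟩
    exact absurd h1 h2.ne'
  have hsub : O ⊆ {z | z ∈ O ∧ χ z = 0} ∪ {z | z ∈ O ∧ 0 < χ z} := by
    intro z hz
    rcases (h0 z hz).eq_or_lt with h | h
    · exact Or.inl ⟨hz, h.symm⟩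
    · exact Or.inr ⟨hz, h⟩
  have := hc.subset_left_of_subset_union hu hv hdisj hsub ⟨x, hx, hx, hx0⟩
  exact fun z hz => (this hz).2

theorem dv_re (v z : ℂ) : dv v (fun z => z.re) z = v.re := by
  unfold dv
  rw [show (fun z : ℂ => z.re) = Complex.reCLM from rfl, ContinuousLinearMap.fderiv]
  rfl

theorem dv_im (v z : ℂ) : dv v (fun z => z.im) z = v.im := by
  unfold dv
  rw [show (fun z : ℂ => z.im) = Complex.imCLM from rfl, ContinuousLinearMap.fderiv]
  rfl

theorem norm_sq_eq (z : ℂ) : ‖z‖ ^ 2 = z.re * z.re + z.im * z.im := by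
  rw [← Complex.normSq_eq_norm_sq, Complex.normSq_apply]

theorem dv_normsq (v z : ℂ) :
    dv v (fun z => ‖z‖ ^ 2 / 4) z = (z.re * v.re + z.im * v.im) / 2 := by
  have hre : DifferentiableAt ℝ (fun z : ℂ => z.re) z := Complex.reCLM.differentiableAt
  have him : DifferentiableAt ℝ (fun z : ℂ => z.im) z := Complex.imCLM.differentiableAt
  rw [show (fun z : ℂ => ‖z‖ ^ 2 / 4) = fun z => (1 / 4 : ℝ) * (z.re * z.re + z.im * z.im) by
    funext w
    rw [norm_sq_eq]
    ring]
  rw [dv_cmul (1 / 4) (f := fun z => z.re * z.re + z.im * z.im)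
    ((hre.mul hre).add (him.mul him)),
    dv_add (f := fun z => z.re * z.re) (g := fun z => z.im * z.im) (hre.mul hre) (him.mul him),
    dv_mul hre hre, dv_mul him him, dv_re, dv_im]
  ring

theorem lap_normsq (z : ℂ) : lap (fun z => ‖z‖ ^ 2 / 4) z = 1 := by
  unfold lap
  have h1 : dx (fun z : ℂ => ‖z‖ ^ 2 / 4) = fun z => (1 / 2 : ℝ) * z.re := by
    funext w
    rw [dx_eq, dv_normsq]
    simp
    ring
  have h2 : dy (fun z : ℂ => ‖z‖ ^ 2 / 4) = fun z => (1 / 2 : ℝ) * z.im := by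
    funext w
    rw [dy_eq, dv_normsq]
    simp
    ring
  rw [h1, h2, dx_eq, dy_eq, dv_cmul (f := fun z => z.re) _
    Complex.reCLM.differentiableAt,
    dv_cmul (f := fun z => z.im) _ Complex.imCLM.differentiableAt, dv_re, dv_im]
  simp
  norm_num

theorem contDiff_normsq {n : WithTop ℕ∞} : ContDiff ℝ n (fun z : ℂ => ‖z‖ ^ 2 / 4) :=
  (contDiff_norm_sq ℝ).div_const 4

theorem lap_congr {f g : ℂ → ℝ} {z : ℂ} (h : f =ᶠ[𝓝 z] g) : lap f z = lap g z := by
  unfold lap
  have h1 : dx f =ᶠ[𝓝 z] dx g := by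
    filter_upwards [h.eventuallyEq_nhds] with w hw
    exact dv_congr hw
  have h2 : dy f =ᶠ[𝓝 z] dy g := by
    filter_upwards [h.eventuallyEq_nhds] with w hw
    exact dv_congr hw
  rw [dx_eq (dx f), dx_eq (dx g), dy_eq (dy f), dy_eq (dy g), dv_congr h1, dv_congr h2]

theorem lap_sub' {f g : ℂ → ℝ} {z : ℂ} (hf : ContDiffAt ℝ 2 f z) (hg : ContDiffAt ℝ 2 g z) :
    lap (fun w => f w - g w) z = lap f z - lap g z := by
  rw [← laplacian_eq_lap hf, ← laplacian_eq_lap hg, ← laplacian_eq_lap (hf.sub hg)]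
  exact hf.laplacian_sub hg

/-- The torsion function has Laplacian `-1`. -/
theorem lap_torsion {ψ : ℂ → ℝ} {z : ℂ} (h : HarmonicAt (fun z => ψ z + ‖z‖ ^ 2 / 4) z) :
    lap ψ z = -1 := by
  have h1 : ψ = fun w => (ψ w + ‖w‖ ^ 2 / 4) - ‖w‖ ^ 2 / 4 := by
    funext w
    ring
  rw [h1, lap_sub' h.1 contDiff_normsq.contDiffAt, lap_normsq,
    (harmonicAt_iff_lap.1 h).2.self_of_nhds]
  ring

/-- If the gradient of a torsion function is controlled by a nonnegative harmonic function,
then this function is positive. -/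
theorem pos_of_grad_le {ψ χ : ℂ → ℝ} {O : Set ℂ} (hO : IsOpen O) (hχ : HarmonicOnNhd χ O)
    (h0 : ∀ z ∈ O, 0 ≤ χ z) (hψ : HarmonicOnNhd (fun z => ψ z + ‖z‖ ^ 2 / 4) O)
    (hg : ∀ z ∈ O, χ z = 0 → dx ψ z = 0 ∧ dy ψ z = 0) : ∀ z ∈ O, 0 < χ z := by
  intro z hz
  rcases (h0 z hz).eq_or_lt with h | h
  · exfalso
    have h1 := eventually_eq_zero_of_nonneg hO hχ h0 hz h.symm
    have h2 : dx ψ =ᶠ[𝓝 z] fun _ => 0 := by
      filter_upwards [h1, hO.mem_nhds hz] with w hw1 hw2
      exact (hg w hw2 hw1).1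
    have h3 : dy ψ =ᶠ[𝓝 z] fun _ => 0 := by
      filter_upwards [h1, hO.mem_nhds hz] with w hw1 hw2
      exact (hg w hw2 hw1).2
    have h4 : lap ψ z = 0 := by
      unfold lap
      rw [dx_eq (dx ψ), dy_eq (dy ψ), dv_congr h2, dv_congr h3, dv_const, dv_const, add_zero]
    rw [lap_torsion (hψ z hz)] at h4
    norm_num at h4
  · exact h

end Pool.Agent.Lib.QNL
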