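import Pool.Agent.Lib.QNL.End

/-!
QNL, group H (Hilbert layer), part A: the powers of the Beurling operator on `L²(ℂ)` as unitary
operators `TH k`, `k ∈ ℤ`, and their action on the derivatives of Schwartz functions.
-/

set_option autoImplicit false

namespace Pool.Agent.Lib.QNL.Hil

open MeasureTheory Filter Topology Set FourierTransform SchwartzMap LineDeriv
open scoped SchwartzMap ENNReal ContDiff ComplexInnerProductSpace
open Pool.Agent.Lib.IWC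
open Pool.Agent.Lib.MP_dd244f_an (dz dbar)

/-! ### The symbol -/

/-- The unimodular symbol `conj ξ / ξ` (with the value `1` at `0`). -/
noncomputable def uS (ξ : ℂ) : ℂ := if ξ = 0 then 1 else starRingEnd ℂ ξ / ξ

theorem uS_ne (ξ : ℂ) : uS ξ ≠ 0 := by
  unfold uS
  split_ifs with h
  · exact one_ne_zero
  · exact div_ne_zero (by simpa using h) h

theorem uS_norm (ξ : ℂ) : ‖uS ξ‖ = 1 := by
  unfold uS
  split_ifs with h
  · exact norm_one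
  · rw [norm_div]
    have h1 : ‖starRingEnd ℂ ξ‖ = ‖ξ‖ := RCLike.norm_conj _
    rw [h1, div_self (norm_ne_zero_iff.2 h)]

theorem uS_mul (ξ : ℂ) : uS ξ * ξ = starRingEnd ℂ ξ := by
  unfold uS
  split_ifs with h
  · simp [h]
  · rw [div_mul_cancel₀ _ h]

theorem uS_meas : Measurable uS := by
  unfold uS
  refine Measurable.ite (measurableSet_singleton 0) measurable_const ?_
  exact Complex.continuous_conj.measurable.div measurable_id

theorem bd_uS (k : ℤ) : Bd (fun ξ => uS ξ ^ k) 1 := by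
  refine ⟨uS_meas.pow_const k, fun ξ => ?_⟩
  rw [norm_zpow, uS_norm, one_zpow]

theorem uS_zpow_norm (k : ℤ) (ξ : ℂ) : ‖uS ξ ^ k‖ = 1 := by
  rw [norm_zpow, uS_norm, one_zpow]

/-- Two bounded symbols which agree off the origin give the same operator. -/
theorem Mu_congr {m n : ℂ → ℂ} {C D : ℝ} (hm : Bd m C) (hn : Bd n D)
    (h : ∀ ξ, ξ ≠ 0 → m ξ = n ξ) (f : H) : Mu m f = Mu n f := by
  rw [Mu, Mu]
  congr 1
  apply Lp.ext
  have h0 : ∀ᵐ ξ : ℂ, ξ ≠ 0 := by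
    have : (volume : Measure ℂ) {0} = 0 := measure_singleton 0
    exact (measure_eq_zero_iff_ae_notMem.1 this).mono fun x hx h' => hx (by simpa using h')
  filter_upwards [mulH_coe hm (𝓕 f), mulH_coe hn (𝓕 f), h0] with ξ h1 h2 h3
  rw [h1, h2, h ξ h3]

/-- The operator `TH k` is given by the unimodular symbol `uS ^ k`. -/
theorem TH_eq (k : ℤ) (f : H) : TH k f = Mu (fun ξ => uS ξ ^ k) f := by
  refine Mu_congr (bd_tS k) (bd_uS k) (fun ξ hξ => ?_) f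
  rw [tS, uS, if_neg hξ]

/-! ### The operators -/

theorem TH_add (k : ℤ) (f g : H) : TH k (f + g) = TH k f + TH k g :=
  (stmtMu _ 1 zero_le_one (bd_tS k) f g).1

theorem TH_sub (k : ℤ) (f g : H) : TH k (f - g) = TH k f - TH k g :=
  (stmtMu _ 1 zero_le_one (bd_tS k) f g).2.1

theorem TH_smul (k : ℤ) (c : ℂ) (f : H) : TH k (c • f) = c • TH k f :=
  (stmtMu _ 1 zero_le_one (bd_tS k) f f).2.2.1 c

theorem TH_zero (f : H) : TH 0 f = f := by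
  rw [TH_eq]
  simp only [zpow_zero]
  exact (stmtMuAlg _ _ 1 1 zero_le_one zero_le_one Bd.one Bd.one f).2.2.2.2

theorem TH_TH (k l : ℤ) (f : H) : TH k (TH l f) = TH (k + l) f := by
  rw [TH_eq, TH_eq, TH_eq]
  rw [← (stmtMuAlg _ _ 1 1 zero_le_one zero_le_one (bd_uS k) (bd_uS l) f).2.2.1]
  congr 1
  funext ξ
  rw [zpow_add₀ (uS_ne ξ)]

theorem TH_norm (k : ℤ) (f : H) : ‖TH k f‖ = ‖f‖ := by
  apply le_antisymm
  · have h := (stmtMu _ 1 zero_le_one (bd_tS k) f f).2.2.2.1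
    rw [one_mul] at h
    exact h
  · have h := (stmtMu _ 1 zero_le_one (bd_tS (-k)) (TH k f) f).2.2.2.1
    have h2 : Mu (tS (-k)) (TH k f) = f := by
      change TH (-k) (TH k f) = f
      rw [TH_TH, neg_add_cancel, TH_zero]
    rw [h2, one_mul] at h
    exact h

/-- `T^k` as a linear isometry. -/
noncomputable def THi (k : ℤ) : H →ₗᵢ[ℂ] H where
  toFun := TH k
  map_add' := TH_add k
  map_smul' := TH_smul k
  norm_map' := TH_norm k

@[simp] theorem THi_apply (k : ℤ) (f : H) : THi k f = TH k f := rfl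

theorem TH_continuous (k : ℤ) : Continuous (TH k) := (THi k).continuous

theorem TH_inner (k : ℤ) (f g : H) : ⟪TH k f, TH k g⟫ = ⟪f, g⟫ := (THi k).inner_map_map f g

theorem TH_zero_apply (k : ℤ) : TH k 0 = 0 := (THi k).map_zero

/-! ### Derivatives -/

theorem dz_eq (φ : 𝓢(ℂ, ℂ)) :
    dz φ = (1 / 2 : ℂ) • (∂_{(1 : ℂ)} φ + (-Complex.I) • ∂_{Complex.I} φ) := rfl

theorem dbar_eq (φ : 𝓢(ℂ, ℂ)) :
    dbar φ = (1 / 2 : ℂ) • (∂_{(1 : ℂ)} φ + Complex.I • ∂_{Complex.I} φ) := rfl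

theorem dz_add (φ ψ : 𝓢(ℂ, ℂ)) : dz (φ + ψ) = dz φ + dz ψ := by
  rw [dz_eq, dz_eq, dz_eq, lineDerivOp_add, lineDerivOp_add]
  module

theorem dz_smul (c : ℂ) (φ : 𝓢(ℂ, ℂ)) : dz (c • φ) = c • dz φ := by
  rw [dz_eq, dz_eq, lineDerivOp_smul, lineDerivOp_smul]
  module

theorem dbar_add (φ ψ : 𝓢(ℂ, ℂ)) : dbar (φ + ψ) = dbar φ + dbar ψ := by
  rw [dbar_eq, dbar_eq, dbar_eq, lineDerivOp_add, lineDerivOp_add]
  module

theorem dbar_smul (c : ℂ) (φ : 𝓢(ℂ, ℂ)) : dbar (c • φ) = c • dbar φ := by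
  rw [dbar_eq, dbar_eq, lineDerivOp_smul, lineDerivOp_smul]
  module

/-- `∂` as a linear map -/
noncomputable def dzL : 𝓢(ℂ, ℂ) →ₗ[ℂ] 𝓢(ℂ, ℂ) where
  toFun := dz
  map_add' := dz_add
  map_smul' := dz_smul

/-- `∂bar` as a linear map -/
noncomputable def dbL : 𝓢(ℂ, ℂ) →ₗ[ℂ] 𝓢(ℂ, ℂ) where
  toFun := dbar
  map_add' := dbar_add
  map_smul' := dbar_smul

@[simp] theorem dzL_apply (φ : 𝓢(ℂ, ℂ)) : dzL φ = dz φ := rfl
@[simp] theorem dbL_apply (φ : 𝓢(ℂ, ℂ)) : dbL φ = dbar φ := rfl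

/-- `2^(a+b) ∂^a ∂bar^b`; in particular `DD j j = Δ^j`. -/
noncomputable def DD (a b : ℕ) : 𝓢(ℂ, ℂ) →ₗ[ℂ] 𝓢(ℂ, ℂ) := (2 : ℂ) ^ (a + b) • (dzL ^ a * dbL ^ b)

theorem DD_apply (a b : ℕ) (φ : 𝓢(ℂ, ℂ)) :
    DD a b φ = (2 : ℂ) ^ (a + b) • (dz^[a] (dbar^[b] φ)) := by
  rw [DD, LinearMap.smul_apply, Module.End.mul_apply]
  congr 1
  have h1 : ∀ (n : ℕ) (ψ : 𝓢(ℂ, ℂ)), (dbL ^ n) ψ = dbar^[n] ψ := by
    intro n
    induction n with
    | zero => intro ψ; simp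
    | succ n ih => intro ψ; rw [pow_succ, Module.End.mul_apply, ih, Function.iterate_succ_apply]; rfl
  have h2 : ∀ (n : ℕ) (ψ : 𝓢(ℂ, ℂ)), (dzL ^ n) ψ = dz^[n] ψ := by
    intro n
    induction n with
    | zero => intro ψ; simp
    | succ n ih => intro ψ; rw [pow_succ, Module.End.mul_apply, ih, Function.iterate_succ_apply]; rfl
  rw [h1, h2]

/-- the Fourier transform of `DD a b φ` -/
theorem fourier_DD (a b : ℕ) (φ : 𝓢(ℂ, ℂ)) (ξ : ℂ) :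
    𝓕 (DD a b φ) ξ = (2 * Real.pi * Complex.I) ^ (a + b) * (starRingEnd ℂ ξ ^ a * ξ ^ b) *
      𝓕 φ ξ := by
  rw [DD_apply, FourierTransform.fourier_smul, smul_apply,
    Pool.Agent.Lib.MP_dd244f_an.fourier_dz_iter, Pool.Agent.Lib.MP_dd244f_an.fourier_dbar_iter,
    smul_eq_mul]
  ring

theorem schwartz_ext_fourier {φ ψ : 𝓢(ℂ, ℂ)} (h : ∀ ξ, 𝓕 φ ξ = 𝓕 ψ ξ) : φ = ψ := by
  have h1 : (𝓕 φ : 𝓢(ℂ, ℂ)) = 𝓕 ψ := by ext ξ; exact h ξ
  have h2 := congrArg (fun u : 𝓢(ℂ, ℂ) => (𝓕⁻ u : 𝓢(ℂ, ℂ))) h1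
  simpa using h2

theorem DD_DD (a b c d : ℕ) (φ : 𝓢(ℂ, ℂ)) : DD a b (DD c d φ) = DD (a + c) (b + d) φ := by
  apply schwartz_ext_fourier
  intro ξ
  rw [fourier_DD, fourier_DD, fourier_DD]
  ring

theorem DD_zero (φ : 𝓢(ℂ, ℂ)) : DD 0 0 φ = φ := by
  rw [DD_apply]
  simp

/-- `T^k` on the derivatives of a Schwartz function. -/
theorem TH_DD (k : ℤ) (a b c d : ℕ) (hac : (c : ℤ) = a + k) (hbd : (d : ℤ) = b - k)
    (φ : 𝓢(ℂ, ℂ)) : TH k ((DD a b φ).toLp 2) = (DD c d φ).toLp 2 := by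
  have h1 : mulH (fun ξ => uS ξ ^ k) (𝓕 ((DD a b φ).toLp 2 : H)) = 𝓕 ((DD c d φ).toLp 2 : H) := by
    rw [SchwartzMap.toLp_fourier_eq, SchwartzMap.toLp_fourier_eq]
    apply Lp.ext
    have h0 : ∀ᵐ ξ : ℂ, ξ ≠ 0 := by
      have : (volume : Measure ℂ) {0} = 0 := measure_singleton 0
      exact (measure_eq_zero_iff_ae_notMem.1 this).mono fun x hx h' => hx (by simpa using h')
    filter_upwards [mulH_coe (bd_uS k) ((𝓕 (DD a b φ)).toLp 2),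
      SchwartzMap.coeFn_toLp (𝓕 (DD a b φ)) 2 volume,
      SchwartzMap.coeFn_toLp (𝓕 (DD c d φ)) 2 volume, h0] with ξ h1 h2 h3 h4
    rw [h1, h2, h3, fourier_DD, fourier_DD]
    have hsum : c + d = a + b := by omega
    rw [hsum]
    have hu : uS ξ ^ k * (starRingEnd ℂ ξ ^ a * ξ ^ b) = starRingEnd ℂ ξ ^ c * ξ ^ d := by
      have h5 : starRingEnd ℂ ξ = uS ξ * ξ := (uS_mul ξ).symm
      rw [h5, mul_pow, mul_pow]
      have h6 : uS ξ ^ k * uS ξ ^ a = uS ξ ^ c := by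
        rw [← zpow_natCast (uS ξ) a, ← zpow_natCast (uS ξ) c, ← zpow_add₀ (uS_ne ξ), hac, add_comm]
      have h7 : ξ ^ a * ξ ^ b = ξ ^ c * ξ ^ d := by
        rw [← pow_add, ← pow_add, hsum]
      linear_combination (ξ ^ a * ξ ^ b) * h6 + uS ξ ^ c * h7
    linear_combination ((2 * Real.pi * Complex.I) ^ (a + b) * (𝓕 φ) ξ) * hu
  rw [TH_eq, Mu, h1, Fi_Fo]

end Pool.Agent.Lib.QNL.Hil
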