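import Pool.Agent.Lib.QNL.DV

/-!
Integration by parts for jets `Y a b = ∂^a ∂̄^b Y` on an open set `D = {g > 0}`, with the weights
`g^(2(a+b)-4j)`, and the identity `∫_D F = (2j+1)² ∫_D |Y j j|²` for
`F = ∑_{α,β ≤ 2j} (-1)^(α+β) Y α β conj (Y (2j-β) (2j-α))`.
-/

set_option autoImplicit false

namespace Pool.Agent.Lib.QNL.IntF

open MeasureTheory Filter Topology Set
open scoped ContDiff ComplexConjugate

/-! ### The cutoff profile -/

/-- smooth profile: `0` on `(-∞, 1]`, `1` on `[2, ∞)` -/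
noncomputable def kap (x : ℝ) : ℝ := Real.smoothTransition (x - 1)

theorem kap_contDiff : ContDiff ℝ ∞ kap :=
  Real.smoothTransition.contDiff.comp (contDiff_id.sub contDiff_const)

theorem kap_nonneg (x : ℝ) : 0 ≤ kap x := Real.smoothTransition.nonneg _

theorem kap_le_one (x : ℝ) : kap x ≤ 1 := Real.smoothTransition.le_one _

theorem kap_zero {x : ℝ} (hx : x ≤ 1) : kap x = 0 :=
  Real.smoothTransition.zero_of_nonpos (by linarith)

theorem kap_one {x : ℝ} (hx : 2 ≤ x) : kap x = 1 :=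
  Real.smoothTransition.one_of_one_le (by linarith)

theorem deriv_kap_zero {x : ℝ} (hx : x < 1 ∨ 2 < x) : deriv kap x = 0 := by
  rcases hx with hx | hx
  · have : kap =ᶠ[𝓝 x] fun _ => (0 : ℝ) := by
      filter_upwards [Iio_mem_nhds hx] with y hy using kap_zero (le_of_lt hy)
    rw [this.deriv_eq]
    simp
  · have : kap =ᶠ[𝓝 x] fun _ => (1 : ℝ) := by
      filter_upwards [Ioi_mem_nhds hx] with y hy using kap_one (le_of_lt hy)
    rw [this.deriv_eq]
    simp

theorem deriv_kap_bdd : ∃ C : ℝ, 0 ≤ C ∧ ∀ x, |deriv kap x| ≤ C := by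
  have hc : Continuous (deriv kap) := kap_contDiff.continuous_deriv (by norm_num)
  obtain ⟨C, hC⟩ := (isCompact_Icc (a := (1 : ℝ)) (b := 2)).exists_bound_of_continuousOn
    hc.continuousOn
  refine ⟨max C 0, le_max_right _ _, fun x => ?_⟩
  by_cases hx : x ∈ Icc (1 : ℝ) 2
  · exact le_trans (by simpa using hC x hx) (le_max_left _ _)
  · rw [deriv_kap_zero]
    · simp
    · by_contra hcon
      push Not at hcon
      exact hx ⟨hcon.1, hcon.2⟩

/-! ### Compactly supported functions -/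

section cpt
variable {E : Type*} [NormedAddCommGroup E] [NormedSpace ℝ E]

theorem contDiff_of_cpt {F : ℂ → E} {U K : Set ℂ} {n : WithTop ℕ∞} (hU : IsOpen U)
    (hK : IsCompact K) (hKU : K ⊆ U) (hF : ContDiffOn ℝ n F U) (h0 : ∀ z, z ∉ K → F z = 0) :
    ContDiff ℝ n F := by
  rw [contDiff_iff_contDiffAt]
  intro z
  by_cases hz : z ∈ K
  · exact hF.contDiffAt (hU.mem_nhds (hKU hz))
  · have : F =ᶠ[𝓝 z] fun _ => (0 : E) := by
      filter_upwards [hK.isClosed.isOpen_compl.mem_nhds hz] with w hw using h0 w hw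
    exact contDiffAt_const.congr_of_eventuallyEq this

theorem integral_dv_zero [CompleteSpace E] {F : ℂ → E} {K : Set ℂ}
    (hK : IsCompact K) (hF : ContDiff ℝ 1 F) (h0 : ∀ z, z ∉ K → F z = 0)
    (v : ℂ) : Integrable (fun z => fderiv ℝ F z v) ∧ ∫ z, fderiv ℝ F z v = 0 := by
  have hcs : HasCompactSupport F := HasCompactSupport.intro hK h0
  have hcd : Continuous (fderiv ℝ F) := hF.continuous_fderiv (by norm_num)
  have hcv : Continuous (fun z => fderiv ℝ F z v) := hcd.clm_apply continuous_const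
  have hcsv : HasCompactSupport (fun z => fderiv ℝ F z v) := by
    have := hcs.fderiv (𝕜 := ℝ)
    exact this.comp_left (g := fun L : ℂ →L[ℝ] E => L v) (by simp)
  have hint : Integrable (fun z => fderiv ℝ F z v) := hcv.integrable_of_hasCompactSupport hcsv
  refine ⟨hint, ?_⟩
  have h := integral_smul_fderiv_eq_neg_fderiv_smul_of_integrable (μ := (volume : Measure ℂ))
    (f := fun _ : ℂ => (1 : ℝ)) (g := F) (v := v) (by simp) (by
      simpa using hint)
    (by simpa using hF.continuous.integrable_of_hasCompactSupport hcs)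
    (fun x _ => differentiableAt_const _) (fun x _ => hF.differentiable (by norm_num) x)
  simpa using h

end cpt

/-! ### The cutoff argument -/

/-- the cutoff function `κ(g/ε)` -/
noncomputable def eta (g : ℂ → ℝ) (ε : ℝ) (z : ℂ) : ℝ := kap (g z / ε)

section key
variable {D : Set ℂ} {g : ℂ → ℝ} {u : ℂ → ℂ}

theorem eta_contDiffOn (hg : ContDiffOn ℝ 1 g D) (ε : ℝ) : ContDiffOn ℝ 1 (eta g ε) D :=
  (kap_contDiff.of_le (by norm_num)).comp_contDiffOn (hg.div_const ε)

theorem eta_fderiv (hD : IsOpen D) (hg : ContDiffOn ℝ 1 g D) (ε : ℝ) {z : ℂ} (hz : z ∈ D)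
    (v : ℂ) : fderiv ℝ (eta g ε) z v = deriv kap (g z / ε) * (fderiv ℝ g z v / ε) := by
  have hgd : DifferentiableAt ℝ g z :=
    (hg.contDiffAt (hD.mem_nhds hz)).differentiableAt (by norm_num)
  have h1 : HasFDerivAt (fun w => g w / ε) ((1 / ε) • fderiv ℝ g z) z := by
    have := hgd.hasFDerivAt.const_smul (1 / ε)
    refine this.congr_of_eventuallyEq (Eventually.of_forall fun w => ?_)
    simp only [Pi.smul_apply, smul_eq_mul]
    ring
  have h2 : HasDerivAt kap (deriv kap (g z / ε)) (g z / ε) :=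
    ((kap_contDiff.differentiable (by norm_num)) _).hasDerivAt
  have h3 := (h2.comp_hasFDerivAt z h1).fderiv
  have h4 : eta g ε = kap ∘ fun w => g w / ε := rfl
  rw [h4, h3]
  simp only [smul_apply, smul_eq_mul]
  ring

/-- the localised function -/
noncomputable def loc (D : Set ℂ) (g : ℂ → ℝ) (u : ℂ → ℂ) (ε : ℝ) (z : ℂ) : ℂ := by
  classical
  exact if z ∈ D then (eta g ε z : ℂ) * u z else 0

theorem loc_of_mem {ε : ℝ} {z : ℂ} (hz : z ∈ D) : loc D g u ε z = (eta g ε z : ℂ) * u z := by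
  simp [loc, hz]

theorem loc_zero {ε : ℝ} (hε : 0 < ε) {z : ℂ} (hz : z ∉ {z | z ∈ D ∧ ε ≤ g z}) :
    loc D g u ε z = 0 := by
  by_cases h : z ∈ D
  · rw [loc_of_mem h]
    have h1 : g z < ε := by
      by_contra hcon
      exact hz ⟨h, not_lt.mp hcon⟩
    have : eta g ε z = 0 := kap_zero (by
      rw [div_le_one hε]
      exact h1.le)
    rw [this]
    simp
  · simp [loc, h]

theorem loc_contDiff (hD : IsOpen D) (hg : ContDiffOn ℝ 1 g D) (hu : ContDiffOn ℝ 1 u D)
    {ε : ℝ} (hε : 0 < ε) (hK : IsCompact {z | z ∈ D ∧ ε ≤ g z}) :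
    ContDiff ℝ 1 (loc D g u ε) := by
  refine contDiff_of_cpt hD hK (fun z hz => hz.1) ?_ (fun z hz => loc_zero hε hz)
  have h1 : ContDiffOn ℝ 1 (fun z => ((eta g ε z : ℝ) : ℂ)) D :=
    Complex.ofRealCLM.contDiff.comp_contDiffOn (eta_contDiffOn hg ε)
  exact (h1.mul hu).congr (fun z hz => loc_of_mem hz)

theorem loc_fderiv (hD : IsOpen D) (hg : ContDiffOn ℝ 1 g D) (hu : ContDiffOn ℝ 1 u D)
    (ε : ℝ) {z : ℂ} (hz : z ∈ D) (v : ℂ) :
    fderiv ℝ (loc D g u ε) z v =
      ((deriv kap (g z / ε) * (fderiv ℝ g z v / ε) : ℝ) : ℂ) * u z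
        + (eta g ε z : ℂ) * fderiv ℝ u z v := by
  have hev : loc D g u ε =ᶠ[𝓝 z] fun z => (eta g ε z : ℂ) * u z := by
    filter_upwards [hD.mem_nhds hz] with w hw using loc_of_mem hw
  rw [hev.fderiv_eq]
  have h1 : DifferentiableAt ℝ (eta g ε) z :=
    ((eta_contDiffOn hg ε).contDiffAt (hD.mem_nhds hz)).differentiableAt (by norm_num)
  have h2 : DifferentiableAt ℝ u z :=
    (hu.contDiffAt (hD.mem_nhds hz)).differentiableAt (by norm_num)
  have h3 : HasFDerivAt (fun z => ((eta g ε z : ℝ) : ℂ))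
      (Complex.ofRealCLM.comp (fderiv ℝ (eta g ε) z)) z :=
    Complex.ofRealCLM.hasFDerivAt.comp z h1.hasFDerivAt
  have h4 := (h3.mul' h2.hasFDerivAt).fderiv
  have h5 : (fun z => (eta g ε z : ℂ) * u z) = (fun z => ((eta g ε z : ℝ) : ℂ)) * u := rfl
  rw [h5, h4]
  simp only [add_apply, smul_apply, ContinuousLinearMap.coe_comp, Function.comp_apply,
    Complex.ofRealCLM_apply, smul_eq_mul, eta_fderiv hD hg ε hz v]
  simp
  ring

/-- **Integration by parts with the cutoff `κ(g/ε)`, `ε → 0`.** -/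
theorem key (hD : IsOpen D) (hg : ContDiffOn ℝ 1 g D) (hpos : ∀ z ∈ D, 0 < g z)
    (hK : ∀ ε > 0, IsCompact {z | z ∈ D ∧ ε ≤ g z})
    {A : ℝ} (hA : ∀ z ∈ D, ‖fderiv ℝ g z‖ ≤ A)
    (hu : ContDiffOn ℝ 1 u D)
    (hint : IntegrableOn (fun z => (g z)⁻¹ * ‖u z‖) D)
    (c : ℂ) (hint' : IntegrableOn (fun z => fderiv ℝ u z 1 + c * fderiv ℝ u z Complex.I) D) :
    ∫ z in D, (fderiv ℝ u z 1 + c * fderiv ℝ u z Complex.I) = 0 := by
  obtain ⟨C, hC0, hC⟩ := deriv_kap_bdd
  have hA0 : 0 ≤ |A| := abs_nonneg _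
  set e : ℕ → ℝ := fun n => 1 / ((n : ℝ) + 1) with he
  have hepos : ∀ n, 0 < e n := fun n => by
    rw [he]
    positivity
  have helim : Tendsto e atTop (𝓝 0) := tendsto_one_div_add_atTop_nhds_zero_nat
  set Fn : ℕ → ℂ → ℂ := fun n z =>
    fderiv ℝ (loc D g u (e n)) z 1 + c * fderiv ℝ (loc D g u (e n)) z Complex.I with hFn
  have hK' : ∀ n, IsCompact {z | z ∈ D ∧ e n ≤ g z} := fun n => hK _ (hepos n)
  have hloc : ∀ n, ContDiff ℝ 1 (loc D g u (e n)) := fun n =>
    loc_contDiff hD hg hu (hepos n) (hK' n)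
  have h1 : ∀ n, Integrable (Fn n) ∧ ∫ z, Fn n z = 0 := by
    intro n
    obtain ⟨i1, i2⟩ := integral_dv_zero (hK' n) (hloc n) (fun z hz => loc_zero (hepos n) hz) 1
    obtain ⟨i3, i4⟩ := integral_dv_zero (hK' n) (hloc n) (fun z hz => loc_zero (hepos n) hz)
      Complex.I
    refine ⟨i1.add (i3.const_mul c), ?_⟩
    rw [hFn]
    simp only
    rw [integral_add i1 (i3.const_mul c), i2, integral_const_mul, i4]
    simp
  have h2 : ∀ n, ∫ z in D, Fn n z = 0 := by
    intro n
    rw [← (h1 n).2]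
    refine setIntegral_eq_integral_of_forall_compl_eq_zero ?_
    intro z hz
    have hzK : z ∉ {z | z ∈ D ∧ e n ≤ g z} := fun h => hz h.1
    have hev : loc D g u (e n) =ᶠ[𝓝 z] fun _ => (0 : ℂ) := by
      filter_upwards [(hK' n).isClosed.isOpen_compl.mem_nhds hzK] with w hw
        using loc_zero (hepos n) hw
    rw [hFn]
    simp only
    rw [hev.fderiv_eq]
    simp
  have h3 : Tendsto (fun n => ∫ z in D, Fn n z) atTop
      (𝓝 (∫ z in D, (fderiv ℝ u z 1 + c * fderiv ℝ u z Complex.I))) := by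
    refine tendsto_integral_of_dominated_convergence
      (fun z => 2 * C * (1 + ‖c‖) * |A| * ((g z)⁻¹ * ‖u z‖)
        + ‖fderiv ℝ u z 1 + c * fderiv ℝ u z Complex.I‖) ?_ ?_ ?_ ?_
    · intro n
      exact (h1 n).1.aestronglyMeasurable.restrict
    · exact (hint.const_mul _).add hint'.norm
    · intro n
      rw [ae_restrict_iff' hD.measurableSet]
      refine Eventually.of_forall fun z hz => ?_
      have hgz := hpos z hz
      rw [hFn]
      simp only
      rw [loc_fderiv hD hg hu _ hz, loc_fderiv hD hg hu _ hz]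
      have e1 : (((deriv kap (g z / e n) * (fderiv ℝ g z 1 / e n) : ℝ) : ℂ) * u z
          + (eta g (e n) z : ℂ) * fderiv ℝ u z 1)
          + c * (((deriv kap (g z / e n) * (fderiv ℝ g z Complex.I / e n) : ℝ) : ℂ) * u z
          + (eta g (e n) z : ℂ) * fderiv ℝ u z Complex.I)
          = (((deriv kap (g z / e n) / e n : ℝ) : ℂ)
              * (((fderiv ℝ g z 1 : ℝ) : ℂ) + c * ((fderiv ℝ g z Complex.I : ℝ) : ℂ))) * u z
            + (eta g (e n) z : ℂ) * (fderiv ℝ u z 1 + c * fderiv ℝ u z Complex.I) := by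
        push_cast
        ring
      rw [e1]
      refine (norm_add_le _ _).trans (add_le_add ?_ ?_)
      · rw [norm_mul, norm_mul]
        have b1 : ‖((deriv kap (g z / e n) / e n : ℝ) : ℂ)‖ ≤ 2 * C * (g z)⁻¹ := by
          rw [Complex.norm_real, Real.norm_eq_abs, abs_div, abs_of_pos (hepos n)]
          by_cases hd : deriv kap (g z / e n) = 0
          · rw [hd]
            simp only [abs_zero, zero_div]
            positivity
          · have hle : g z / e n ≤ 2 := by
              by_contra hcon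
              exact hd (deriv_kap_zero (Or.inr (not_le.mp hcon)))
            rw [div_le_iff₀ (hepos n)] at hle
            rw [div_le_iff₀ (hepos n)]
            refine (hC _).trans ?_
            have : 1 ≤ 2 * (g z)⁻¹ * e n := by
              rw [mul_assoc, mul_comm (g z)⁻¹, ← mul_assoc, ← div_eq_mul_inv, le_div_iff₀ hgz]
              linarith
            nlinarith
        have b2 : ‖(((fderiv ℝ g z 1 : ℝ) : ℂ) + c * ((fderiv ℝ g z Complex.I : ℝ) : ℂ))‖
            ≤ (1 + ‖c‖) * |A| := by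
          have n1 : ‖((fderiv ℝ g z 1 : ℝ) : ℂ)‖ ≤ |A| := by
            rw [Complex.norm_real]
            refine ((fderiv ℝ g z).le_opNorm 1).trans ?_
            rw [norm_one, mul_one]
            exact (hA z hz).trans (le_abs_self A)
          have n2 : ‖((fderiv ℝ g z Complex.I : ℝ) : ℂ)‖ ≤ |A| := by
            rw [Complex.norm_real]
            refine ((fderiv ℝ g z).le_opNorm Complex.I).trans ?_
            rw [Complex.norm_I, mul_one]
            exact (hA z hz).trans (le_abs_self A)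
          refine (norm_add_le _ _).trans ?_
          rw [norm_mul]
          nlinarith [norm_nonneg c, mul_le_mul_of_nonneg_left n2 (norm_nonneg c)]
        have := mul_le_mul b1 b2 (norm_nonneg _) (by positivity)
        have h4 := mul_le_mul_of_nonneg_right this (norm_nonneg (u z))
        refine h4.trans (le_of_eq ?_)
        ring
      · rw [norm_mul]
        have : ‖((eta g (e n) z : ℝ) : ℂ)‖ ≤ 1 := by
          rw [Complex.norm_real, Real.norm_eq_abs]
          unfold eta
          rw [abs_of_nonneg (kap_nonneg _)]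
          exact kap_le_one _
        exact (mul_le_mul_of_nonneg_right this (norm_nonneg _)).trans (le_of_eq (one_mul _))
    · rw [ae_restrict_iff' hD.measurableSet]
      refine Eventually.of_forall fun z hz => ?_
      have hgz := hpos z hz
      have hev : ∀ᶠ n in atTop, e n < g z / 2 := by
        have := (tendsto_order.1 helim).2 (g z / 2) (by positivity)
        exact this
      refine tendsto_const_nhds.congr' ?_
      filter_upwards [hev] with n hn
      have h5 : 2 < g z / e n := by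
        rw [lt_div_iff₀ (hepos n)]
        linarith
      rw [hFn]
      simp only
      rw [loc_fderiv hD hg hu _ hz, loc_fderiv hD hg hu _ hz, deriv_kap_zero (Or.inr h5)]
      have h6 : eta g (e n) z = 1 := kap_one h5.le
      rw [h6]
      simp
  have h4 : Tendsto (fun n => ∫ z in D, Fn n z) atTop (𝓝 0) := by
    simp only [h2]
    exact tendsto_const_nhds
  exact tendsto_nhds_unique h3 h4

end key

/-! ### Jets -/

/-- The data: a jet `Y` on `D = {g > 0}`, all weighted `L²` norms finite. -/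
structure Data (D : Set ℂ) (g : ℂ → ℝ) (j : ℕ) (Y : ℕ → ℕ → ℂ → ℂ) : Prop where
  isOpen : IsOpen D
  reg : ContDiffOn ℝ 1 g D
  pos : ∀ z ∈ D, 0 < g z
  cpt : ∀ ε : ℝ, 0 < ε → IsCompact {z | z ∈ D ∧ ε ≤ g z}
  grad : ∃ A : ℝ, ∀ z ∈ D, ‖fderiv ℝ g z‖ ≤ A
  smooth : ∀ a b, ContDiffOn ℝ 1 (Y a b) D
  hdz : ∀ a b, ∀ z ∈ D, dz (Y a b) z = Y (a + 1) b z
  hdzb : ∀ a b, ∀ z ∈ D, dzb (Y a b) z = Y a (b + 1) z
  hc : ∀ a b : ℕ, IntegrableOn (fun z => g z ^ (2 * ((a : ℤ) + b) - 4 * j) * ‖Y a b z‖ ^ 2) D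

section jets
variable {D : Set ℂ} {g : ℂ → ℝ} {Y : ℕ → ℕ → ℂ → ℂ} {j : ℕ}

/-- weighted products are integrable -/
theorem prod_int (h : Data D g j Y) (a b c d : ℕ) (k : ℤ)
    (hk : ((a : ℤ) + b - 2 * j) + ((c : ℤ) + d - 2 * j) = k) :
    IntegrableOn (fun z => g z ^ k * (‖Y a b z‖ * ‖Y c d z‖)) D := by
  have h1 := h.hc a b
  have h2 := h.hc c d
  have hmeas : AEStronglyMeasurable (fun z => g z ^ k * (‖Y a b z‖ * ‖Y c d z‖))
      (volume.restrict D) := by
    refine ContinuousOn.aestronglyMeasurable ?_ h.isOpen.measurableSet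
    refine ContinuousOn.mul ?_ (((h.smooth a b).continuousOn.norm).mul
      ((h.smooth c d).continuousOn.norm))
    exact h.reg.continuousOn.zpow₀ k (fun z hz => Or.inl (h.pos z hz).ne')
  refine Integrable.mono' ((h1.add h2)) hmeas ?_
  rw [ae_restrict_iff' h.isOpen.measurableSet]
  refine Eventually.of_forall fun z hz => ?_
  have hg := h.pos z hz
  have e1 : g z ^ (2 * ((a : ℤ) + b) - 4 * j) * ‖Y a b z‖ ^ 2
      = (g z ^ ((a : ℤ) + b - 2 * j) * ‖Y a b z‖) ^ 2 := by
    rw [mul_pow, ← zpow_natCast (g z ^ ((a : ℤ) + b - 2 * j)) 2, ← zpow_mul]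
    congr 2
    push_cast
    ring
  have e2 : g z ^ (2 * ((c : ℤ) + d) - 4 * j) * ‖Y c d z‖ ^ 2
      = (g z ^ ((c : ℤ) + d - 2 * j) * ‖Y c d z‖) ^ 2 := by
    rw [mul_pow, ← zpow_natCast (g z ^ ((c : ℤ) + d - 2 * j)) 2, ← zpow_mul]
    congr 2
    push_cast
    ring
  have e3 : g z ^ k * (‖Y a b z‖ * ‖Y c d z‖)
      = (g z ^ ((a : ℤ) + b - 2 * j) * ‖Y a b z‖) * (g z ^ ((c : ℤ) + d - 2 * j) * ‖Y c d z‖) := by
    rw [← hk, zpow_add₀ hg.ne']
    ring
  simp only [Pi.add_apply]
  rw [e1, e2, e3, Real.norm_eq_abs]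
  set p := g z ^ ((a : ℤ) + b - 2 * j) * ‖Y a b z‖
  set q := g z ^ ((c : ℤ) + d - 2 * j) * ‖Y c d z‖
  rw [abs_le]
  constructor
  · nlinarith [sq_nonneg (p + q), sq_nonneg p, sq_nonneg q]
  · nlinarith [sq_nonneg (p - q), sq_nonneg p, sq_nonneg q]

/-- products of total order `4j` are integrable -/
theorem prod_integrable (h : Data D g j Y) (a b c d : ℕ) (hk : a + b + c + d = 4 * j) :
    IntegrableOn (fun z => Y a b z * conj (Y c d z)) D := by
  have h1 := prod_int h a b c d 0 (by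
    have : ((a + b + c + d : ℕ) : ℤ) = ((4 * j : ℕ) : ℤ) := by rw [hk]
    push_cast at this
    linarith)
  refine Integrable.mono' h1 ?_ ?_
  · refine ContinuousOn.aestronglyMeasurable ?_ h.isOpen.measurableSet
    exact ((h.smooth a b).continuousOn).mul
      (Complex.continuous_conj.comp_continuousOn (h.smooth c d).continuousOn)
  · refine Eventually.of_forall fun z => ?_
    simp

theorem jet_dx (h : Data D g j Y) (a b : ℕ) {z : ℂ} (hz : z ∈ D) :
    fderiv ℝ (Y a b) z 1 = Y (a + 1) b z + Y a (b + 1) z := by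
  rw [← h.hdz a b z hz, ← h.hdzb a b z hz]
  simp only [dz, dzb, dx, dy]
  ring

theorem jet_dy (h : Data D g j Y) (a b : ℕ) {z : ℂ} (hz : z ∈ D) :
    fderiv ℝ (Y a b) z Complex.I = Complex.I * (Y (a + 1) b z - Y a (b + 1) z) := by
  rw [← h.hdz a b z hz, ← h.hdzb a b z hz]
  simp only [dz, dzb, dx, dy]
  linear_combination ((fderiv ℝ (Y a b) z) Complex.I) * Complex.I_sq

theorem prod_contDiffOn (h : Data D g j Y) (a b c d : ℕ) :
    ContDiffOn ℝ 1 (fun z => Y a b z * conj (Y c d z)) D :=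
  (h.smooth a b).mul (Complex.conjCLE.contDiff.comp_contDiffOn (h.smooth c d))

theorem prod_fderiv (h : Data D g j Y) (a b c d : ℕ) {z : ℂ} (hz : z ∈ D) (v : ℂ) :
    fderiv ℝ (fun z => Y a b z * conj (Y c d z)) z v =
      fderiv ℝ (Y a b) z v * conj (Y c d z) + Y a b z * conj (fderiv ℝ (Y c d) z v) := by
  have h1 : DifferentiableAt ℝ (Y a b) z :=
    ((h.smooth a b).contDiffAt (h.isOpen.mem_nhds hz)).differentiableAt (by norm_num)
  have h2 : DifferentiableAt ℝ (Y c d) z :=
    ((h.smooth c d).contDiffAt (h.isOpen.mem_nhds hz)).differentiableAt (by norm_num)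
  have h3 : HasFDerivAt (fun z => conj (Y c d z))
      ((Complex.conjCLE : ℂ →L[ℝ] ℂ).comp (fderiv ℝ (Y c d) z)) z :=
    (Complex.conjCLE : ℂ →L[ℝ] ℂ).hasFDerivAt.comp z h2.hasFDerivAt
  have h4 := (h1.hasFDerivAt.mul' h3).fderiv
  rw [show (fun z => Y a b z * conj (Y c d z)) = (Y a b) * (fun z => conj (Y c d z)) from rfl, h4]
  simp
  ring

/-- **Integration by parts, `∂`.** -/
theorem ibp_dz (h : Data D g j Y) (a b c d : ℕ) (hk : a + b + c + d + 1 = 4 * j) :
    ∫ z in D, Y (a + 1) b z * conj (Y c d z) = - ∫ z in D, Y a b z * conj (Y c (d + 1) z) := by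
  have i1 := prod_integrable h (a + 1) b c d (by omega)
  have i2 := prod_integrable h a b c (d + 1) (by omega)
  have i3 : IntegrableOn (fun z => (g z)⁻¹ * ‖Y a b z * conj (Y c d z)‖) D := by
    have := prod_int h a b c d (-1) (by
      have : ((a + b + c + d + 1 : ℕ) : ℤ) = ((4 * j : ℕ) : ℤ) := by rw [hk]
      push_cast at this
      linarith)
    simpa using this
  obtain ⟨A, hA⟩ := h.grad
  have heq : ∀ z ∈ D, fderiv ℝ (fun z => Y a b z * conj (Y c d z)) z 1
      + (-Complex.I) * fderiv ℝ (fun z => Y a b z * conj (Y c d z)) z Complex.I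
      = 2 * (Y (a + 1) b z * conj (Y c d z) + Y a b z * conj (Y c (d + 1) z)) := by
    intro z hz
    rw [prod_fderiv h a b c d hz, prod_fderiv h a b c d hz, jet_dx h a b hz, jet_dx h c d hz,
      jet_dy h a b hz, jet_dy h c d hz]
    simp only [map_add, map_mul, map_sub, Complex.conj_I]
    linear_combination (- (Y (a + 1) b z - Y a (b + 1) z) * conj (Y c d z)
      + Y a b z * (conj (Y (c + 1) d z) - conj (Y c (d + 1) z))) * Complex.I_sq
  have i4 : IntegrableOn (fun z => fderiv ℝ (fun z => Y a b z * conj (Y c d z)) z 1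
      + (-Complex.I) * fderiv ℝ (fun z => Y a b z * conj (Y c d z)) z Complex.I) D := by
    have i5 : IntegrableOn (fun z => 2 * (Y (a + 1) b z * conj (Y c d z)
        + Y a b z * conj (Y c (d + 1) z))) D := (i1.add i2).const_mul 2
    exact i5.congr_fun (fun z hz => (heq z hz).symm) h.isOpen.measurableSet
  have hk0 := key h.isOpen h.reg h.pos (fun ε hε => h.cpt ε hε) hA (prod_contDiffOn h a b c d) i3
    (-Complex.I) i4
  rw [setIntegral_congr_fun h.isOpen.measurableSet heq, integral_const_mul, integral_add i1 i2]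
    at hk0
  have h2 : (∫ z in D, Y (a + 1) b z * conj (Y c d z))
      + ∫ z in D, Y a b z * conj (Y c (d + 1) z) = 0 := by
    rcases mul_eq_zero.mp hk0 with h0 | h0
    · norm_num at h0
    · exact h0
  exact eq_neg_of_add_eq_zero_left h2

/-- **Integration by parts, `∂̄`.** -/
theorem ibp_dzb (h : Data D g j Y) (a b c d : ℕ) (hk : a + b + c + d + 1 = 4 * j) :
    ∫ z in D, Y a (b + 1) z * conj (Y c d z) = - ∫ z in D, Y a b z * conj (Y (c + 1) d z) := by
  have i1 := prod_integrable h a (b + 1) c d (by omega)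
  have i2 := prod_integrable h a b (c + 1) d (by omega)
  have i3 : IntegrableOn (fun z => (g z)⁻¹ * ‖Y a b z * conj (Y c d z)‖) D := by
    have := prod_int h a b c d (-1) (by
      have : ((a + b + c + d + 1 : ℕ) : ℤ) = ((4 * j : ℕ) : ℤ) := by rw [hk]
      push_cast at this
      linarith)
    simpa using this
  obtain ⟨A, hA⟩ := h.grad
  have heq : ∀ z ∈ D, fderiv ℝ (fun z => Y a b z * conj (Y c d z)) z 1
      + Complex.I * fderiv ℝ (fun z => Y a b z * conj (Y c d z)) z Complex.I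
      = 2 * (Y a (b + 1) z * conj (Y c d z) + Y a b z * conj (Y (c + 1) d z)) := by
    intro z hz
    rw [prod_fderiv h a b c d hz, prod_fderiv h a b c d hz, jet_dx h a b hz, jet_dx h c d hz,
      jet_dy h a b hz, jet_dy h c d hz]
    simp only [map_add, map_mul, map_sub, Complex.conj_I]
    linear_combination ((Y (a + 1) b z - Y a (b + 1) z) * conj (Y c d z)
      - Y a b z * (conj (Y (c + 1) d z) - conj (Y c (d + 1) z))) * Complex.I_sq
  have i4 : IntegrableOn (fun z => fderiv ℝ (fun z => Y a b z * conj (Y c d z)) z 1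
      + Complex.I * fderiv ℝ (fun z => Y a b z * conj (Y c d z)) z Complex.I) D := by
    have i5 : IntegrableOn (fun z => 2 * (Y a (b + 1) z * conj (Y c d z)
        + Y a b z * conj (Y (c + 1) d z))) D := (i1.add i2).const_mul 2
    exact i5.congr_fun (fun z hz => (heq z hz).symm) h.isOpen.measurableSet
  have hk0 := key h.isOpen h.reg h.pos (fun ε hε => h.cpt ε hε) hA (prod_contDiffOn h a b c d) i3
    Complex.I i4
  rw [setIntegral_congr_fun h.isOpen.measurableSet heq, integral_const_mul, integral_add i1 i2]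
    at hk0
  have h2 : (∫ z in D, Y a (b + 1) z * conj (Y c d z))
      + ∫ z in D, Y a b z * conj (Y (c + 1) d z) = 0 := by
    rcases mul_eq_zero.mp hk0 with h0 | h0
    · norm_num at h0
    · exact h0
  exact eq_neg_of_add_eq_zero_left h2

/-- moving all derivatives: every term has the same integral up to sign -/
theorem term_zero (h : Data D g j Y) (a b : ℕ) (ha : a ≤ 2 * j) (hb : b ≤ 2 * j) :
    ∫ z in D, Y a b z * conj (Y (2 * j - b) (2 * j - a) z) =
      (-1) ^ (a + b) * ∫ z in D, Y 0 0 z * conj (Y (2 * j) (2 * j) z) := by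
  have hA : ∀ a : ℕ, a ≤ 2 * j → ∫ z in D, Y a b z * conj (Y (2 * j - b) (2 * j - a) z) =
      (-1) ^ a * ∫ z in D, Y 0 b z * conj (Y (2 * j - b) (2 * j) z) := by
    intro a
    induction a with
    | zero => intro _; simp
    | succ a ih =>
      intro ha
      have h1 := ibp_dz h a b (2 * j - b) (2 * j - (a + 1)) (by omega)
      rw [h1, show 2 * j - (a + 1) + 1 = 2 * j - a by omega, ih (by omega)]
      ring
  have hB : ∀ b : ℕ, b ≤ 2 * j → ∫ z in D, Y 0 b z * conj (Y (2 * j - b) (2 * j) z) =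
      (-1) ^ b * ∫ z in D, Y 0 0 z * conj (Y (2 * j) (2 * j) z) := by
    intro b
    induction b with
    | zero => intro _; simp
    | succ b ih =>
      intro hb
      have h1 := ibp_dzb h 0 b (2 * j - (b + 1)) (2 * j) (by omega)
      rw [h1, show 2 * j - (b + 1) + 1 = 2 * j - b by omega, ih (by omega)]
      ring
  rw [hA a ha, hB b hb]
  ring

theorem term_eq (h : Data D g j Y) (a b : ℕ) (ha : a ≤ 2 * j) (hb : b ≤ 2 * j) :
    ∫ z in D, Y a b z * conj (Y (2 * j - b) (2 * j - a) z) =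
      (-1) ^ (a + b) * ((∫ z in D, ‖Y j j z‖ ^ 2 : ℝ) : ℂ) := by
  have h1 := term_zero h j j (by omega) (by omega)
  rw [show 2 * j - j = j by omega, show j + j = 2 * j by ring, pow_mul] at h1
  rw [term_zero h a b ha hb]
  have h2 : ∫ z in D, Y j j z * conj (Y j j z) = ((∫ z in D, ‖Y j j z‖ ^ 2 : ℝ) : ℂ) := by
    rw [← integral_complex_ofReal]
    refine integral_congr_ae (Eventually.of_forall fun z => ?_)
    simp only
    rw [Complex.mul_conj, Complex.normSq_eq_norm_sq]
  rw [← h2, h1]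
  norm_num

/-- `F = ∑_{α,β ≤ 2j} (-1)^(α+β) Y α β conj (Y (2j-β) (2j-α))` -/
noncomputable def FF (Y : ℕ → ℕ → ℂ → ℂ) (j : ℕ) (z : ℂ) : ℂ :=
  ∑ a ∈ Finset.range (2 * j + 1), ∑ b ∈ Finset.range (2 * j + 1),
    (-1) ^ (a + b) * (Y a b z * conj (Y (2 * j - b) (2 * j - a) z))

theorem FF_integrable (h : Data D g j Y) : IntegrableOn (FF Y j) D := by
  refine integrable_finsetSum _ fun a ha => integrable_finsetSum _ fun b hb => ?_
  rw [Finset.mem_range] at ha hb
  exact (prod_integrable h a b (2 * j - b) (2 * j - a) (by omega)).const_mul _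

/-- **`∫_D F = (2j+1)² ∫_D |Y j j|²`** -/
theorem integral_FF (h : Data D g j Y) :
    ∫ z in D, FF Y j z = (((2 * (j : ℝ) + 1) ^ 2 * ∫ z in D, ‖Y j j z‖ ^ 2 : ℝ) : ℂ) := by
  have h1 : ∫ z in D, FF Y j z = ∑ a ∈ Finset.range (2 * j + 1),
      ∑ b ∈ Finset.range (2 * j + 1), ((∫ z in D, ‖Y j j z‖ ^ 2 : ℝ) : ℂ) := by
    unfold FF
    rw [integral_finsetSum]
    · refine Finset.sum_congr rfl fun a ha => ?_
      rw [Finset.mem_range] at ha
      rw [integral_finsetSum]
      · refine Finset.sum_congr rfl fun b hb => ?_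
        rw [Finset.mem_range] at hb
        rw [integral_const_mul, term_eq h a b (by omega) (by omega), ← mul_assoc, ← pow_add,
          Even.neg_one_pow ⟨a + b, rfl⟩, one_mul]
      · intro b hb
        rw [Finset.mem_range] at hb
        exact (prod_integrable h a b (2 * j - b) (2 * j - a) (by omega)).const_mul _
    · intro a ha
      rw [Finset.mem_range] at ha
      refine integrable_finsetSum _ fun b hb => ?_
      rw [Finset.mem_range] at hb
      exact (prod_integrable h a b (2 * j - b) (2 * j - a) (by omega)).const_mul _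
  rw [h1]
  simp only [Finset.sum_const, Finset.card_range, nsmul_eq_mul]
  push_cast
  ring

/-- `F` is real -/
theorem FF_conj (z : ℂ) : conj (FF Y j z) = FF Y j z := by
  unfold FF
  rw [map_sum]
  simp only [map_sum, map_mul, map_pow, map_neg, map_one, Complex.conj_conj]
  rw [← Finset.sum_range_reflect]
  simp only [Nat.add_sub_cancel]
  have : ∀ a ∈ Finset.range (2 * j + 1),
      ∑ b ∈ Finset.range (2 * j + 1), (-1 : ℂ) ^ (2 * j - a + b) *
        (conj (Y (2 * j - a) b z) * Y (2 * j - b) (2 * j - (2 * j - a)) z)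
      = ∑ b ∈ Finset.range (2 * j + 1), (-1 : ℂ) ^ (a + b) *
        (Y b a z * conj (Y (2 * j - a) (2 * j - b) z)) := by
    intro a ha
    rw [Finset.mem_range] at ha
    rw [← Finset.sum_range_reflect]
    simp only [Nat.add_sub_cancel]
    refine Finset.sum_congr rfl fun b hb => ?_
    rw [Finset.mem_range] at hb
    rw [show 2 * j - (2 * j - a) = a by omega, show 2 * j - (2 * j - b) = b by omega]
    have hs : (-1 : ℂ) ^ (2 * j - a + (2 * j - b)) = (-1) ^ (a + b) := by
      have e : 2 * j - a + (2 * j - b) + (a + b) = 2 * (2 * j) := by omega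
      have e1 : (-1 : ℂ) ^ (2 * j - a + (2 * j - b)) * (-1) ^ (a + b) = 1 := by
        rw [← pow_add, e, pow_mul]
        norm_num
      have e2 : ((-1 : ℂ) ^ (a + b)) * (-1) ^ (a + b) = 1 := by
        rw [← pow_add, Even.neg_one_pow ⟨a + b, rfl⟩]
      have e3 : ((-1 : ℂ) ^ (a + b)) ≠ 0 := by
        intro h0
        rw [h0] at e2
        norm_num at e2
      exact mul_right_cancel₀ e3 (e1.trans e2.symm)
    rw [hs]
    ring
  rw [Finset.sum_congr rfl this, Finset.sum_comm]
  refine Finset.sum_congr rfl fun a _ => Finset.sum_congr rfl fun b _ => ?_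
  rw [add_comm b a]

theorem integral_FF_re (h : Data D g j Y) :
    ∫ z in D, (FF Y j z).re = (2 * (j : ℝ) + 1) ^ 2 * ∫ z in D, ‖Y j j z‖ ^ 2 := by
  have h1 := integral_FF h
  have h2 : ∫ z in D, (FF Y j z).re = (∫ z in D, FF Y j z).re :=
    integral_re (𝕜 := ℂ) (FF_integrable h)
  rw [h2, h1, Complex.ofReal_re]

end jets

end Pool.Agent.Lib.QNL.IntF
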