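import Mathlib

/-!
# The retained kernel

`WW w = w (w-1) e^(-w)`, `kh a c l = e^(-a l) WW (c e^l)` and `k1 a c l = min (kh a c 0) (kh a c l)`.
-/

set_option autoImplicit false

namespace Pool.Agent.Lib.QNL.Ker43

open MeasureTheory Set Filter Topology

/-- `W(w) = w (w-1) e^(-w)` -/
noncomputable def WW (w : ℝ) : ℝ := w * (w - 1) * Real.exp (-w)

/-- `kh(l) = e^(-a l) W(c e^l)` -/
noncomputable def kh (a c l : ℝ) : ℝ := Real.exp (-(a * l)) * WW (c * Real.exp l)

/-- the antitone minorant -/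
noncomputable def k1 (a c l : ℝ) : ℝ := min (kh a c 0) (kh a c l)

/-- `K = ∫ k1` -/
noncomputable def KK (a c : ℝ) : ℝ := ∫ l in Ioi (0 : ℝ), k1 a c l

/-- `ε = ∫ k1 (e^(e l) - 1)` -/
noncomputable def ep (a c e : ℝ) : ℝ := ∫ l in Ioi (0 : ℝ), k1 a c l * (Real.exp (e * l) - 1)

theorem cont_WW : Continuous WW := by
  unfold WW
  fun_prop

theorem cont_kh (a c : ℝ) : Continuous (kh a c) := by
  have h := cont_WW
  unfold kh
  fun_prop

theorem cont_k1 (a c : ℝ) : Continuous (k1 a c) := by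
  have h := cont_kh a c
  unfold k1
  fun_prop

theorem one_le_w {c l : ℝ} (hc : 1 ≤ c) (hl : 0 ≤ l) : 1 ≤ c * Real.exp l := by
  have h1 : 1 ≤ Real.exp l := Real.one_le_exp hl
  nlinarith

theorem WW_nonneg {w : ℝ} (hw : 1 ≤ w) : 0 ≤ WW w := by
  have h1 : (0 : ℝ) ≤ w - 1 := by linarith
  have h2 : (0 : ℝ) ≤ w := by linarith
  unfold WW
  positivity

theorem kh_nonneg {a c l : ℝ} (hc : 1 ≤ c) (hl : 0 ≤ l) : 0 ≤ kh a c l :=
  mul_nonneg (Real.exp_pos _).le (WW_nonneg (one_le_w hc hl))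

theorem kh_zero (a c : ℝ) : kh a c 0 = WW c := by
  simp [kh]

theorem k1_nonneg {a c l : ℝ} (hc : 1 ≤ c) (hl : 0 ≤ l) : 0 ≤ k1 a c l :=
  le_min (kh_nonneg hc le_rfl) (kh_nonneg hc hl)

theorem k1_le (a c l : ℝ) : k1 a c l ≤ kh a c l := min_le_right _ _

theorem k1_le_zero (a c l : ℝ) : k1 a c l ≤ WW c := (min_le_left _ _).trans (kh_zero a c).le

theorem WW_deriv (w : ℝ) : HasDerivAt WW ((3 * w - 1 - w ^ 2) * Real.exp (-w)) w := by
  have h1 : HasDerivAt (fun w : ℝ => Real.exp (-w)) (Real.exp (-w) * (-1)) w :=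
    ((hasDerivAt_id w).neg).exp
  have h2 : HasDerivAt (fun w : ℝ => w * (w - 1)) (1 * (w - 1) + w * 1) w :=
    (hasDerivAt_id w).mul ((hasDerivAt_id w).sub_const 1)
  refine (h2.mul h1).congr_deriv ?_
  ring

theorem hasDerivAt_w (c l : ℝ) : HasDerivAt (fun l : ℝ => c * Real.exp l) (c * Real.exp l) l :=
  (Real.hasDerivAt_exp l).const_mul c

/-- the derivative of `kh` -/
theorem kh_deriv (a c l : ℝ) : HasDerivAt (kh a c)
    (Real.exp (-(a * l)) * Real.exp (-(c * Real.exp l)) * (c * Real.exp l) *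
      (-(c * Real.exp l) ^ 2 + (3 - a) * (c * Real.exp l) - (1 - a))) l := by
  have h1 : HasDerivAt (fun l : ℝ => Real.exp (-(a * l))) (Real.exp (-(a * l)) * (-a)) l := by
    have : HasDerivAt (fun l : ℝ => -(a * l)) (-a) l := by
      simpa using ((hasDerivAt_id l).const_mul a).fun_neg
    exact this.exp
  have h2 : HasDerivAt (fun l : ℝ => WW (c * Real.exp l))
      ((3 * (c * Real.exp l) - 1 - (c * Real.exp l) ^ 2) * Real.exp (-(c * Real.exp l)) *
        (c * Real.exp l)) l :=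
    HasDerivAt.comp (h₂ := WW) l (WW_deriv (c * Real.exp l)) (hasDerivAt_w c l)
  refine (h1.mul h2).congr_deriv ?_
  unfold WW
  ring

/-- before the mode -/
theorem q_nonneg {a w w' : ℝ} (h1 : 1 ≤ w') (h2 : w' ≤ w)
    (h : 0 ≤ -w ^ 2 + (3 - a) * w - (1 - a)) : 0 ≤ -w' ^ 2 + (3 - a) * w' - (1 - a) := by
  rcases h1.eq_or_lt with h3 | h3
  · rw [← h3]
    linarith
  · by_contra h4
    push Not at h4
    nlinarith [mul_nonneg (sub_nonneg.2 h1) (sub_nonneg.2 h2), mul_pos (sub_pos.2 h3) (neg_pos.2 h4)]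

/-- after the mode -/
theorem q_nonpos {a w w' : ℝ} (h1 : 1 ≤ w) (h2 : w ≤ w')
    (h : -w ^ 2 + (3 - a) * w - (1 - a) ≤ 0) : -w' ^ 2 + (3 - a) * w' - (1 - a) ≤ 0 := by
  by_contra h4
  push Not at h4
  have := q_nonneg h1 h2 h4.le
  have h5 : -w ^ 2 + (3 - a) * w - (1 - a) = 0 := le_antisymm h this
  rcases h2.eq_or_lt with h3 | h3
  · rw [← h3] at h4
    linarith
  · rcases h1.eq_or_lt with h6 | h6
    · rw [← h6] at h5
      linarith
    · nlinarith [mul_pos (sub_pos.2 h6) (sub_pos.2 h3)]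

theorem kh_monotone {a c l₂ : ℝ} (hc : 1 ≤ c)
    (h : 0 ≤ -(c * Real.exp l₂) ^ 2 + (3 - a) * (c * Real.exp l₂) - (1 - a)) :
    MonotoneOn (kh a c) (Icc 0 l₂) := by
  refine monotoneOn_of_deriv_nonneg (convex_Icc _ _) (cont_kh a c).continuousOn ?_ ?_
  · exact fun x _ => (kh_deriv a c x).differentiableAt.differentiableWithinAt
  · intro x hx
    rw [interior_Icc] at hx
    rw [(kh_deriv a c x).deriv]
    have h1 := one_le_w hc hx.1.le
    have h2 : c * Real.exp x ≤ c * Real.exp l₂ := by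
      have := Real.exp_le_exp.2 hx.2.le
      nlinarith
    have h3 := q_nonneg h1 h2 h
    have h4 : 0 ≤ c * Real.exp x := by linarith
    positivity

theorem kh_antitone {a c l₁ : ℝ} (hc : 1 ≤ c) (hl : 0 ≤ l₁)
    (h : -(c * Real.exp l₁) ^ 2 + (3 - a) * (c * Real.exp l₁) - (1 - a) ≤ 0) :
    AntitoneOn (kh a c) (Ici l₁) := by
  refine antitoneOn_of_deriv_nonpos (convex_Ici _) (cont_kh a c).continuousOn ?_ ?_
  · exact fun x _ => (kh_deriv a c x).differentiableAt.differentiableWithinAt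
  · intro x hx
    rw [interior_Ici] at hx
    have hx' : l₁ < x := hx
    rw [(kh_deriv a c x).deriv]
    have h1 := one_le_w hc hl
    have h2 : c * Real.exp l₁ ≤ c * Real.exp x := by
      have := Real.exp_le_exp.2 hx'.le
      nlinarith
    have h3 := q_nonpos h1 h2 h
    have h4 : 0 ≤ c * Real.exp x := by linarith
    exact mul_nonpos_of_nonneg_of_nonpos (by positivity) h3

/-- quasi-concavity -/
theorem kh_quasi {a c x y z : ℝ} (hc : 1 ≤ c) (hx : 0 ≤ x) (hxy : x ≤ y) (hyz : y ≤ z) :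
    min (kh a c x) (kh a c z) ≤ kh a c y := by
  rcases le_total 0 (-(c * Real.exp y) ^ 2 + (3 - a) * (c * Real.exp y) - (1 - a)) with h | h
  · exact (min_le_left _ _).trans
      (kh_monotone hc h ⟨hx, hxy⟩ ⟨hx.trans hxy, le_rfl⟩ hxy)
  · exact (min_le_right _ _).trans
      (kh_antitone hc (hx.trans hxy) h (mem_Ici.2 le_rfl) (mem_Ici.2 hyz) hyz)

/-- **the minorant is antitone** -/
theorem k1_antitone {a c : ℝ} (hc : 1 ≤ c) : AntitoneOn (k1 a c) (Ici 0) := by
  intro x hx y _ hxy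
  have hx' : (0 : ℝ) ≤ x := hx
  have h := kh_quasi (a := a) hc le_rfl hx' hxy
  exact le_min (min_le_left _ _) h

/-! ### integrability -/

/-- `∫_(l₁)^∞ w (w-1) e^(-βw) dl` -/
theorem tail_int {c β l₁ : ℝ} (hc : 1 ≤ c) (hβ : 0 < β) (hl : 0 ≤ l₁) :
    IntegrableOn (fun l : ℝ => c * Real.exp l * (c * Real.exp l - 1) *
      Real.exp (-(β * (c * Real.exp l)))) (Ioi l₁) ∧
    ∫ l in Ioi l₁, c * Real.exp l * (c * Real.exp l - 1) * Real.exp (-(β * (c * Real.exp l))) =
      Real.exp (-(β * (c * Real.exp l₁))) * ((c * Real.exp l₁ - 1) / β + 1 / β ^ 2) := by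
  have hd : ∀ l ∈ Ici l₁, HasDerivAt
      (fun l : ℝ => -(Real.exp (-(β * (c * Real.exp l))) *
        ((c * Real.exp l - 1) / β + 1 / β ^ 2)))
      (c * Real.exp l * (c * Real.exp l - 1) * Real.exp (-(β * (c * Real.exp l)))) l := by
    intro l _
    have h1 := hasDerivAt_w c l
    have h2 : HasDerivAt (fun l : ℝ => Real.exp (-(β * (c * Real.exp l))))
        (Real.exp (-(β * (c * Real.exp l))) * (-(β * (c * Real.exp l)))) l :=
      (h1.const_mul β).fun_neg.exp
    have h3 : HasDerivAt (fun l : ℝ => (c * Real.exp l - 1) / β + 1 / β ^ 2)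
        (c * Real.exp l / β) l := ((h1.sub_const 1).div_const β).add_const _
    refine ((h2.mul h3).neg).congr_deriv ?_
    field_simp
    ring
  have hpos : ∀ l ∈ Ioi l₁, 0 ≤ c * Real.exp l * (c * Real.exp l - 1) *
      Real.exp (-(β * (c * Real.exp l))) := by
    intro l hl'
    have h1 := one_le_w hc (hl.trans (le_of_lt hl'))
    have h2 : (0 : ℝ) ≤ c * Real.exp l - 1 := by linarith
    have h3 : (0 : ℝ) ≤ c * Real.exp l := by linarith
    positivity
  have hlim : Tendsto (fun l : ℝ => -(Real.exp (-(β * (c * Real.exp l))) *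
        ((c * Real.exp l - 1) / β + 1 / β ^ 2))) atTop (𝓝 0) := by
    have h1 : Tendsto (fun l : ℝ => β * (c * Real.exp l)) atTop atTop :=
      (Real.tendsto_exp_atTop.const_mul_atTop (by linarith)).const_mul_atTop hβ
    have h2 : Tendsto (fun x : ℝ => x * Real.exp (-x)) atTop (𝓝 0) := by
      have := Real.tendsto_pow_mul_exp_neg_atTop_nhds_zero 1
      simpa using this
    have h3 : Tendsto (fun x : ℝ => Real.exp (-x)) atTop (𝓝 0) := Real.tendsto_exp_neg_atTop_nhds_zero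
    have h4 : Tendsto (fun x : ℝ => -(1 / β ^ 2 * (x * Real.exp (-x)) +
        (-1 / β + 1 / β ^ 2) * Real.exp (-x))) atTop (𝓝 (-(1 / β ^ 2 * 0 + (-1 / β + 1 / β ^ 2) * 0))) :=
      ((h2.const_mul _).add (h3.const_mul _)).neg
    have h5 := h4.comp h1
    simp only [mul_zero, add_zero, neg_zero] at h5
    refine h5.congr fun l => ?_
    simp only [Function.comp]
    field_simp
    ring
  refine ⟨integrableOn_Ioi_deriv_of_nonneg' hd hpos hlim, ?_⟩
  rw [integral_Ioi_of_hasDerivAt_of_nonneg' hd hpos hlim]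
  ring

theorem kh_le {a c l : ℝ} (ha : 0 ≤ a) (hc : 1 ≤ c) (hl : 0 ≤ l) :
    kh a c l ≤ WW (c * Real.exp l) := by
  have h1 : Real.exp (-(a * l)) ≤ 1 := by
    rw [Real.exp_le_one_iff]
    have := mul_nonneg ha hl
    linarith
  have h2 := WW_nonneg (one_le_w hc hl)
  unfold kh
  nlinarith

theorem kh_integrable {a c : ℝ} (ha : 0 ≤ a) (hc : 1 ≤ c) : IntegrableOn (kh a c) (Ioi 0) := by
  have h1 := (tail_int hc one_pos (le_refl (0 : ℝ))).1
  refine h1.mono' (cont_kh a c).aestronglyMeasurable ?_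
  refine (ae_restrict_iff' measurableSet_Ioi).2 (Eventually.of_forall fun l hl => ?_)
  have hl' : (0 : ℝ) ≤ l := le_of_lt hl
  rw [Real.norm_of_nonneg (kh_nonneg hc hl')]
  refine (kh_le ha hc hl').trans (le_of_eq ?_)
  unfold WW
  rw [one_mul]

theorem k1_integrable {a c : ℝ} (ha : 0 ≤ a) (hc : 1 ≤ c) : IntegrableOn (k1 a c) (Ioi 0) := by
  refine (kh_integrable ha hc).mono' (cont_k1 a c).aestronglyMeasurable ?_
  refine (ae_restrict_iff' measurableSet_Ioi).2 (Eventually.of_forall fun l hl => ?_)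
  have hl' : (0 : ℝ) ≤ l := le_of_lt hl
  rw [Real.norm_of_nonneg (k1_nonneg hc hl')]
  exact k1_le a c l

theorem k1_exp_integrable {a c e : ℝ} (hc : 1 ≤ c) (he : 0 ≤ e) (hea : e ≤ a) :
    IntegrableOn (fun l => k1 a c l * (Real.exp (e * l) - 1)) (Ioi 0) := by
  have hc1 := cont_k1 a c
  refine (kh_integrable (sub_nonneg.2 hea) hc).mono' (by fun_prop) ?_
  refine (ae_restrict_iff' measurableSet_Ioi).2 (Eventually.of_forall fun l hl => ?_)
  have hl' : (0 : ℝ) ≤ l := le_of_lt hl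
  have h1 : (0 : ℝ) ≤ Real.exp (e * l) - 1 := by
    have := Real.one_le_exp (mul_nonneg he hl')
    linarith
  rw [Real.norm_of_nonneg (mul_nonneg (k1_nonneg hc hl') h1)]
  have h2 : k1 a c l * (Real.exp (e * l) - 1) ≤ kh a c l * Real.exp (e * l) :=
    mul_le_mul (k1_le a c l) (by linarith) h1 (kh_nonneg hc hl')
  refine h2.trans (le_of_eq ?_)
  unfold kh
  rw [mul_right_comm, ← Real.exp_add]
  ring_nf

/-- `H = ∫ kh` dominates `K` -/
theorem KK_le {a c : ℝ} (ha : 0 ≤ a) (hc : 1 ≤ c) : KK a c ≤ ∫ l in Ioi (0 : ℝ), kh a c l :=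
  setIntegral_mono_on (k1_integrable ha hc) (kh_integrable ha hc) measurableSet_Ioi
    fun l _ => k1_le a c l

theorem KK_nonneg {a c : ℝ} (hc : 1 ≤ c) : 0 ≤ KK a c :=
  setIntegral_nonneg measurableSet_Ioi fun _ hl => k1_nonneg hc (le_of_lt hl)

theorem ep_nonneg {a c e : ℝ} (hc : 1 ≤ c) (he : 0 ≤ e) : 0 ≤ ep a c e := by
  refine setIntegral_nonneg measurableSet_Ioi fun l hl => ?_
  have hl' : (0 : ℝ) ≤ l := le_of_lt hl
  have h1 : (0 : ℝ) ≤ Real.exp (e * l) - 1 := by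
    have := Real.one_le_exp (mul_nonneg he hl')
    linarith
  exact mul_nonneg (k1_nonneg hc hl') h1

/-! ### comparison with an explicit primitive -/

theorem lim_zero {c C : ℝ} (hc : 1 ≤ c) {Φ : ℝ → ℝ}
    (h : ∀ l : ℝ, 0 ≤ l → |Φ l| ≤ C * ((c * Real.exp l) ^ 2 * Real.exp (-(c * Real.exp l)))) :
    Tendsto Φ atTop (𝓝 0) := by
  have h1 : Tendsto (fun l : ℝ => c * Real.exp l) atTop atTop :=
    Real.tendsto_exp_atTop.const_mul_atTop (by linarith)
  have h2 : Tendsto (fun x : ℝ => x ^ 2 * Real.exp (-x)) atTop (𝓝 0) :=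
    Real.tendsto_pow_mul_exp_neg_atTop_nhds_zero 2
  have h3 := (h2.comp h1).const_mul C
  rw [mul_zero] at h3
  refine squeeze_zero_norm' ?_ h3
  filter_upwards [eventually_ge_atTop 0] with l hl
  exact h l hl

theorem int_ge {f Φ Φ' : ℝ → ℝ} {l₁ : ℝ} (hf : IntegrableOn f (Ioi l₁)) (hfc : Continuous f)
    (hd : ∀ l, HasDerivAt Φ (Φ' l) l) (hle : ∀ l, l₁ ≤ l → Φ' l ≤ f l)
    (hlim : Tendsto Φ atTop (𝓝 0)) : -Φ l₁ ≤ ∫ l in Ioi l₁, f l := by
  have h1 := intervalIntegral_tendsto_integral_Ioi l₁ hf tendsto_id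
  have h2 : Tendsto (fun R => Φ R - Φ l₁) atTop (𝓝 (0 - Φ l₁)) := hlim.sub_const _
  rw [zero_sub] at h2
  refine le_of_tendsto_of_tendsto h2 h1 ?_
  filter_upwards [eventually_ge_atTop l₁] with R hR
  exact intervalIntegral.sub_le_integral_of_hasDeriv_right_of_le hR
    (fun x _ => (hd x).continuousAt.continuousWithinAt)
    (fun x _ => (hd x).hasDerivWithinAt) hfc.integrableOn_Icc (fun x hx => hle x hx.1.le)

theorem int_le {f Φ Φ' : ℝ → ℝ} {l₁ : ℝ} (hf : IntegrableOn f (Ioi l₁)) (hfc : Continuous f)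
    (hd : ∀ l, HasDerivAt Φ (Φ' l) l) (hle : ∀ l, l₁ ≤ l → f l ≤ Φ' l)
    (hlim : Tendsto Φ atTop (𝓝 0)) : ∫ l in Ioi l₁, f l ≤ -Φ l₁ := by
  have h1 := intervalIntegral_tendsto_integral_Ioi l₁ hf tendsto_id
  have h2 : Tendsto (fun R => Φ R - Φ l₁) atTop (𝓝 (0 - Φ l₁)) := hlim.sub_const _
  rw [zero_sub] at h2
  refine le_of_tendsto_of_tendsto h1 h2 ?_
  filter_upwards [eventually_ge_atTop l₁] with R hR
  exact intervalIntegral.integral_le_sub_of_hasDeriv_right_of_le hR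
    (fun x _ => (hd x).continuousAt.continuousWithinAt)
    (fun x _ => (hd x).hasDerivWithinAt) hfc.integrableOn_Icc (fun x hx => hle x hx.1.le)

/-- second convergent of the incomplete Gamma function (lower bound) -/
noncomputable def LL (a w : ℝ) : ℝ := (w + 3 + a) / (w ^ 2 + (4 + 2 * a) * w + (1 + a) * (2 + a))

theorem den_pos {a w : ℝ} (ha : 0 ≤ a) (hw : 0 ≤ w) :
    0 < w ^ 2 + (4 + 2 * a) * w + (1 + a) * (2 + a) := by positivity

theorem LL_pos {a w : ℝ} (ha : 0 ≤ a) (hw : 0 ≤ w) : 0 < LL a w := by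
  have := den_pos ha hw
  unfold LL
  positivity

theorem LL_le_one {a w : ℝ} (ha : 0 ≤ a) (hw : 1 ≤ w) : LL a w ≤ 1 := by
  unfold LL
  rw [div_le_one (den_pos ha (by linarith))]
  nlinarith [mul_nonneg ha (by linarith : (0 : ℝ) ≤ w), mul_nonneg ha ha]

/-- the derivative of `LL` -/
noncomputable def LL' (a w : ℝ) : ℝ :=
  (1 * (w ^ 2 + (4 + 2 * a) * w + (1 + a) * (2 + a)) - (w + 3 + a) * (2 * w + (4 + 2 * a))) /
      (w ^ 2 + (4 + 2 * a) * w + (1 + a) * (2 + a)) ^ 2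

theorem LL_deriv {a w : ℝ} (ha : 0 ≤ a) (hw : 0 ≤ w) : HasDerivAt (LL a) (LL' a w) w := by
  have h1 : HasDerivAt (fun w : ℝ => w + 3 + a) 1 w :=
    ((hasDerivAt_id w).add_const 3).add_const a
  have h2 : HasDerivAt (fun w : ℝ => w ^ 2 + (4 + 2 * a) * w + (1 + a) * (2 + a))
      (2 * w + (4 + 2 * a)) w := by
    have := ((hasDerivAt_pow 2 w).add ((hasDerivAt_id w).const_mul (4 + 2 * a))).add_const
      ((1 + a) * (2 + a))
    simpa using this
  exact h1.div h2 (den_pos ha hw).ne'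

/-- `(a + w) L - w L' ≤ 1` -/
theorem LL_ineq {a w : ℝ} (ha : 0 ≤ a) (hw : 0 ≤ w) :
    (a + w) * LL a w - w * LL' a w ≤ 1 := by
  have hD := den_pos ha hw
  have e : 1 - ((a + w) * LL a w - w * LL' a w) =
      2 * (1 + a) * (2 + a) / (w ^ 2 + (4 + 2 * a) * w + (1 + a) * (2 + a)) ^ 2 := by
    unfold LL LL'
    field_simp
    ring
  have h2 : 0 ≤ 2 * (1 + a) * (2 + a) / (w ^ 2 + (4 + 2 * a) * w + (1 + a) * (2 + a)) ^ 2 := by
    positivity
  linarith

theorem exp_aw_deriv (a c l : ℝ) :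
    HasDerivAt (fun l : ℝ => Real.exp (-(a * l) - c * Real.exp l))
      (Real.exp (-(a * l) - c * Real.exp l) * (-a - c * Real.exp l)) l := by
  have h1 : HasDerivAt (fun l : ℝ => -(a * l) - c * Real.exp l) (-a - c * Real.exp l) l := by
    have h2 : HasDerivAt (fun l : ℝ => -(a * l)) (-a) l := by
      simpa using ((hasDerivAt_id l).const_mul a).fun_neg
    exact h2.sub (hasDerivAt_w c l)
  exact h1.exp

theorem exp_aw_le {a c l : ℝ} (ha : 0 ≤ a) (hl : 0 ≤ l) :
    Real.exp (-(a * l) - c * Real.exp l) ≤ Real.exp (-(c * Real.exp l)) := by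
  apply Real.exp_le_exp.2
  have := mul_nonneg ha hl
  linarith

theorem kh_eq (a c l : ℝ) : kh a c l =
    Real.exp (-(a * l) - c * Real.exp l) * (c * Real.exp l * (c * Real.exp l - 1)) := by
  unfold kh WW
  rw [show -(a * l) - c * Real.exp l = -(a * l) + -(c * Real.exp l) by ring, Real.exp_add]
  ring

/-- **lower bound of the tail** -/
theorem tail_lower {a c l₁ : ℝ} (ha : 0 ≤ a) (ha1 : a ≤ 1) (hc : 1 ≤ c) (hl : 0 ≤ l₁) :
    Real.exp (-(a * l₁) - c * Real.exp l₁) *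
      (c * Real.exp l₁ - a + a ^ 2 * LL a (c * Real.exp l₁)) ≤ ∫ l in Ioi l₁, kh a c l := by
  have hw0 : ∀ l : ℝ, 0 ≤ c * Real.exp l := fun l => by positivity
  have hd : ∀ l : ℝ, HasDerivAt (fun l : ℝ => -(Real.exp (-(a * l) - c * Real.exp l) *
      (c * Real.exp l - a + a ^ 2 * LL a (c * Real.exp l))))
      (Real.exp (-(a * l) - c * Real.exp l) *
        ((c * Real.exp l) ^ 2 - c * Real.exp l - a ^ 2 + a ^ 2 * ((a + c * Real.exp l) *
          LL a (c * Real.exp l) - c * Real.exp l * LL' a (c * Real.exp l)))) l := by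
    intro l
    have h1 := exp_aw_deriv a c l
    have h2 : HasDerivAt (fun l : ℝ => LL a (c * Real.exp l))
        (LL' a (c * Real.exp l) * (c * Real.exp l)) l :=
      HasDerivAt.comp (h₂ := LL a) l (LL_deriv ha (hw0 l)) (hasDerivAt_w c l)
    have h3 : HasDerivAt (fun l : ℝ => c * Real.exp l - a + a ^ 2 * LL a (c * Real.exp l))
        (c * Real.exp l + a ^ 2 * (LL' a (c * Real.exp l) * (c * Real.exp l))) l :=
      ((hasDerivAt_w c l).sub_const a).add (h2.const_mul (a ^ 2))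
    refine ((h1.mul h3).neg).congr_deriv ?_
    ring
  have hle : ∀ l, l₁ ≤ l → Real.exp (-(a * l) - c * Real.exp l) *
        ((c * Real.exp l) ^ 2 - c * Real.exp l - a ^ 2 + a ^ 2 * ((a + c * Real.exp l) *
          LL a (c * Real.exp l) - c * Real.exp l * LL' a (c * Real.exp l))) ≤ kh a c l := by
    intro l hl'
    have hw1 := one_le_w hc (hl.trans hl')
    have h1 := LL_ineq ha (hw0 l)
    have hE : 0 < Real.exp (-(a * l) - c * Real.exp l) := Real.exp_pos _
    rw [kh_eq]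
    apply mul_le_mul_of_nonneg_left _ hE.le
    nlinarith [mul_le_mul_of_nonneg_left h1 (sq_nonneg a)]
  have hlim : Tendsto (fun l : ℝ => -(Real.exp (-(a * l) - c * Real.exp l) *
      (c * Real.exp l - a + a ^ 2 * LL a (c * Real.exp l)))) atTop (𝓝 0) := by
    refine lim_zero (C := 2) hc fun l hl' => ?_
    have hw1 := one_le_w hc hl'
    have h1 := LL_le_one ha hw1
    have h2 := LL_pos ha (hw0 l)
    have h3 := exp_aw_le (c := c) ha hl'
    have hE : 0 < Real.exp (-(a * l) - c * Real.exp l) := Real.exp_pos _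
    have ha2 : a ^ 2 ≤ 1 := by nlinarith
    have h4 : a ^ 2 * LL a (c * Real.exp l) ≤ 1 := mul_le_one₀ ha2 h2.le h1
    have h5 : 0 ≤ a ^ 2 * LL a (c * Real.exp l) := by positivity
    rw [abs_neg, abs_of_nonneg (mul_nonneg hE.le (by linarith))]
    have h6 : c * Real.exp l - a + a ^ 2 * LL a (c * Real.exp l) ≤ 2 * (c * Real.exp l) ^ 2 := by
      nlinarith
    calc Real.exp (-(a * l) - c * Real.exp l) *
          (c * Real.exp l - a + a ^ 2 * LL a (c * Real.exp l))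
        ≤ Real.exp (-(c * Real.exp l)) * (2 * (c * Real.exp l) ^ 2) :=
          mul_le_mul h3 h6 (by linarith) (Real.exp_pos _).le
      _ = _ := by ring
  have h := int_ge ((kh_integrable ha hc).mono_set (Ioi_subset_Ioi hl)) (cont_kh a c) hd hle hlim
  rwa [neg_neg] at h

/-- **lower bound of `K`**, general form -/
theorem KK_lower {a c la lb : ℝ} (ha : 0 ≤ a) (ha1 : a ≤ 1) (hc : 1 ≤ c) (h0 : 0 ≤ la)
    (hab : la ≤ lb) (hA : WW c ≤ kh a c la) (hB : kh a c lb ≤ WW c)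
    (hq : -(c * Real.exp lb) ^ 2 + (3 - a) * (c * Real.exp lb) - (1 - a) ≤ 0) :
    WW c * la + kh a c lb * (lb - la) + Real.exp (-(a * lb) - c * Real.exp lb) *
      (c * Real.exp lb - a + a ^ 2 * LL a (c * Real.exp lb)) ≤ KK a c := by
  have h0b : 0 ≤ lb := h0.trans hab
  have hi := k1_integrable ha hc
  have i1 : IntegrableOn (k1 a c) (Ioc 0 la) := hi.mono_set Ioc_subset_Ioi_self
  have i2 : IntegrableOn (k1 a c) (Ioc la lb) :=
    hi.mono_set (Ioc_subset_Ioi_self.trans (Ioi_subset_Ioi h0))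
  have i3 : IntegrableOn (k1 a c) (Ioi la) := hi.mono_set (Ioi_subset_Ioi h0)
  have i4 : IntegrableOn (k1 a c) (Ioi lb) := hi.mono_set (Ioi_subset_Ioi h0b)
  have e1 : KK a c = (∫ l in Ioc 0 la, k1 a c l) + ∫ l in Ioi la, k1 a c l := by
    unfold KK
    rw [← Ioc_union_Ioi_eq_Ioi h0]
    exact setIntegral_union (Ioc_disjoint_Ioi le_rfl) measurableSet_Ioi i1 i3
  have e2 : ∫ l in Ioi la, k1 a c l = (∫ l in Ioc la lb, k1 a c l) + ∫ l in Ioi lb, k1 a c l := by
    rw [← Ioc_union_Ioi_eq_Ioi hab]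
    exact setIntegral_union (Ioc_disjoint_Ioi le_rfl) measurableSet_Ioi i2 i4
  have hk0 : kh a c 0 = WW c := kh_zero a c
  have b1 : WW c * la ≤ ∫ l in Ioc 0 la, k1 a c l := by
    have : ∫ _ in Ioc 0 la, WW c = WW c * la := by
      rw [setIntegral_const, Real.volume_real_Ioc_of_le h0, smul_eq_mul, sub_zero, mul_comm]
    rw [← this]
    refine setIntegral_mono_on (integrableOn_const measure_Ioc_lt_top.ne) i1 measurableSet_Ioc ?_
    intro l hl
    have h := kh_quasi (a := a) hc le_rfl hl.1.le hl.2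
    rw [hk0, min_eq_left hA] at h
    exact le_min hk0.ge h
  have b2 : kh a c lb * (lb - la) ≤ ∫ l in Ioc la lb, k1 a c l := by
    have : ∫ _ in Ioc la lb, kh a c lb = kh a c lb * (lb - la) := by
      rw [setIntegral_const, Real.volume_real_Ioc_of_le hab, smul_eq_mul, mul_comm]
    rw [← this]
    refine setIntegral_mono_on (integrableOn_const measure_Ioc_lt_top.ne) i2 measurableSet_Ioc ?_
    intro l hl
    have h := kh_quasi (a := a) hc le_rfl (h0.trans hl.1.le) hl.2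
    rw [hk0, min_eq_right hB] at h
    exact le_min (hk0.symm ▸ hB) h
  have b3 : ∫ l in Ioi lb, kh a c l ≤ ∫ l in Ioi lb, k1 a c l := by
    refine setIntegral_mono_on ((kh_integrable ha hc).mono_set (Ioi_subset_Ioi h0b)) i4
      measurableSet_Ioi ?_
    intro l hl
    have h := kh_antitone hc h0b hq (mem_Ici.2 le_rfl) (mem_Ici.2 (le_of_lt hl)) (le_of_lt hl)
    exact le_min (h.trans (hk0.symm ▸ hB)) le_rfl
  have b4 := tail_lower ha ha1 hc h0b
  rw [e1, e2]
  linarith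

end Pool.Agent.Lib.QNL.Ker43
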