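import Pool.Agent.Lib.QNL.Ker43

/-!
# Upper bound of the exponential moment of the retained kernel
-/

set_option autoImplicit false

namespace Pool.Agent.Lib.QNL.Ker43

open MeasureTheory Set Filter Topology

/-- `e^y - 1 ≤ y (1 + e^y) / 2` -/
theorem trapez {y : ℝ} (hy : 0 ≤ y) : Real.exp y - 1 ≤ y * (1 + Real.exp y) / 2 := by
  have hd : ∀ x : ℝ, HasDerivAt (fun y : ℝ => y * (1 + Real.exp y) / 2 - Real.exp y)
      ((1 * (1 + Real.exp x) + x * Real.exp x) / 2 - Real.exp x) x := by
    intro x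
    exact ((((hasDerivAt_id x).mul ((Real.hasDerivAt_exp x).const_add 1)).div_const 2).sub
      (Real.hasDerivAt_exp x))
  have hm : MonotoneOn (fun y : ℝ => y * (1 + Real.exp y) / 2 - Real.exp y) (Ici 0) := by
    refine monotoneOn_of_deriv_nonneg (convex_Ici 0) (by fun_prop) ?_ ?_
    · exact fun x _ => (hd x).differentiableAt.differentiableWithinAt
    · intro x hx
      rw [interior_Ici] at hx
      have hx' : 0 < x := hx
      rw [(hd x).deriv]
      have h1 : 1 - x ≤ Real.exp (-x) := by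
        have := Real.add_one_le_exp (-x)
        linarith
      have h2 : (1 - x) * Real.exp x ≤ 1 := by
        have h3 := mul_le_mul_of_nonneg_right h1 (Real.exp_pos x).le
        rwa [← Real.exp_add, neg_add_cancel, Real.exp_zero] at h3
      linarith
  have h := hm (mem_Ici.2 le_rfl) (mem_Ici.2 hy) hy
  simp only [zero_mul, zero_div, Real.exp_zero, zero_sub] at h
  linarith

/-- an integrable majorant -/
theorem dom_int {c l₁ : ℝ} (hc : 1 ≤ c) (hl : 0 ≤ l₁) :
    IntegrableOn (fun l : ℝ => (c * Real.exp l) ^ 2 * (c * Real.exp l - 1) *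
      Real.exp (-(c * Real.exp l))) (Ioi l₁) := by
  have hd : ∀ l ∈ Ici l₁, HasDerivAt
      (fun l : ℝ => -(Real.exp (-(c * Real.exp l)) *
        ((c * Real.exp l) ^ 2 + c * Real.exp l + 1)))
      ((c * Real.exp l) ^ 2 * (c * Real.exp l - 1) * Real.exp (-(c * Real.exp l))) l := by
    intro l _
    have h1 := hasDerivAt_w c l
    have h2 : HasDerivAt (fun l : ℝ => Real.exp (-(c * Real.exp l)))
        (Real.exp (-(c * Real.exp l)) * (-(c * Real.exp l))) l := h1.fun_neg.exp
    have h3 : HasDerivAt (fun l : ℝ => (c * Real.exp l) ^ 2 + c * Real.exp l + 1)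
        (2 * (c * Real.exp l) * (c * Real.exp l) + c * Real.exp l) l := by
      have := ((h1.fun_pow 2).add h1).add_const 1
      simpa using this
    refine ((h2.mul h3).neg).congr_deriv ?_
    ring
  have hpos : ∀ l ∈ Ioi l₁, 0 ≤ (c * Real.exp l) ^ 2 * (c * Real.exp l - 1) *
      Real.exp (-(c * Real.exp l)) := by
    intro l hl'
    have h1 := one_le_w hc (hl.trans (le_of_lt hl'))
    have h2 : (0 : ℝ) ≤ c * Real.exp l - 1 := by linarith
    positivity
  refine integrableOn_Ioi_deriv_of_nonneg' hd hpos (lim_zero (C := 3) hc fun l hl' => ?_)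
  have hw1 := one_le_w hc hl'
  rw [abs_neg, abs_of_nonneg (by positivity)]
  have h1 : (c * Real.exp l) ^ 2 + c * Real.exp l + 1 ≤ 3 * (c * Real.exp l) ^ 2 := by nlinarith
  have := mul_le_mul_of_nonneg_left h1 (Real.exp_pos (-(c * Real.exp l))).le
  linarith

theorem l_le_w {c l : ℝ} (hc : 1 ≤ c) : l ≤ c * Real.exp l := by
  have h1 := Real.add_one_le_exp l
  have h2 := Real.exp_pos l
  nlinarith

theorem lkh_integrable {α c l₁ : ℝ} (hα : 0 ≤ α) (hc : 1 ≤ c) (hl : 0 ≤ l₁) :
    IntegrableOn (fun l => l * kh α c l) (Ioi l₁) := by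
  have hcont := cont_kh α c
  refine (dom_int hc hl).mono' (by fun_prop) ?_
  refine (ae_restrict_iff' measurableSet_Ioi).2 (Eventually.of_forall fun l hl' => ?_)
  have h0 : 0 ≤ l := hl.trans (le_of_lt hl')
  have hw1 := one_le_w hc h0
  have h1 := kh_le hα hc h0
  have h2 := kh_nonneg (a := α) hc h0
  have h3 := l_le_w (l := l) hc
  rw [Real.norm_of_nonneg (mul_nonneg h0 h2)]
  calc l * kh α c l ≤ (c * Real.exp l) * WW (c * Real.exp l) :=
        mul_le_mul h3 h1 h2 (by linarith)
    _ = _ := by unfold WW; ring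

/-- the constant `A` -/
noncomputable def AA (α l s : ℝ) : ℝ := 2 + α - α * l + α ^ 2 / s

/-- the bound of the first moment of the tail -/
noncomputable def Mb (α l s : ℝ) : ℝ :=
  Real.exp (-(α * l) - s) * (l * s + 1 - α * l + α ^ 2 / s - α * AA α l s * LL α s)

/-- **first moment of the tail** -/
theorem moment_upper {α c l₁ : ℝ} (hα : 0 ≤ α) (hα1 : α ≤ 1) (hc : 1 ≤ c) (hl : 0 ≤ l₁)
    (hl1 : l₁ ≤ 2) : ∫ l in Ioi l₁, l * kh α c l ≤ Mb α l₁ (c * Real.exp l₁) := by
  have hw0 : ∀ l : ℝ, 0 ≤ c * Real.exp l := fun l => by positivity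
  set s := c * Real.exp l₁ with hs
  have hs1 : 1 ≤ s := one_le_w hc hl
  have hs0 : 0 < s := by linarith
  have hA : 0 ≤ AA α l₁ s := by
    have h1 : α * l₁ ≤ 2 := by nlinarith
    have h2 : 0 ≤ α ^ 2 / s := by positivity
    unfold AA
    linarith
  set A := AA α l₁ s with hAdef
  have hd : ∀ l : ℝ, HasDerivAt (fun l : ℝ => -(Real.exp (-(α * l) - c * Real.exp l) *
      (l * (c * Real.exp l) + 1 - α * l + α ^ 2 / s - α * A * LL α (c * Real.exp l))))
      (Real.exp (-(α * l) - c * Real.exp l) *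
        (l * (c * Real.exp l * (c * Real.exp l - 1)) + 2 * α - α ^ 2 * l + α ^ 3 / s +
          α ^ 2 * (c * Real.exp l) / s - α * A * ((α + c * Real.exp l) * LL α (c * Real.exp l) -
          c * Real.exp l * LL' α (c * Real.exp l)))) l := by
    intro l
    have h1 := exp_aw_deriv α c l
    have h2 : HasDerivAt (fun l : ℝ => LL α (c * Real.exp l))
        (LL' α (c * Real.exp l) * (c * Real.exp l)) l :=
      HasDerivAt.comp (h₂ := LL α) l (LL_deriv hα (hw0 l)) (hasDerivAt_w c l)
    have h3 : HasDerivAt (fun l : ℝ => l * (c * Real.exp l) + 1 - α * l + α ^ 2 / s -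
        α * A * LL α (c * Real.exp l))
        (1 * (c * Real.exp l) + l * (c * Real.exp l) - α * 1 -
          α * A * (LL' α (c * Real.exp l) * (c * Real.exp l))) l :=
      ((((((hasDerivAt_id l).mul (hasDerivAt_w c l)).add_const 1).sub
        ((hasDerivAt_id l).const_mul α)).add_const (α ^ 2 / s)).sub (h2.const_mul (α * A)))
    refine ((h1.mul h3).neg).congr_deriv ?_
    field_simp
    ring
  have hle : ∀ l, l₁ ≤ l → l * kh α c l ≤ Real.exp (-(α * l) - c * Real.exp l) *
        (l * (c * Real.exp l * (c * Real.exp l - 1)) + 2 * α - α ^ 2 * l + α ^ 3 / s +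
          α ^ 2 * (c * Real.exp l) / s - α * A * ((α + c * Real.exp l) * LL α (c * Real.exp l) -
          c * Real.exp l * LL' α (c * Real.exp l))) := by
    intro l hl'
    have h1 := LL_ineq hα (hw0 l)
    have hE : 0 < Real.exp (-(α * l) - c * Real.exp l) := Real.exp_pos _
    have h2 : l ≤ l₁ + c * Real.exp l / s - 1 := by
      have h3 := Real.add_one_le_exp (l - l₁)
      have h4 : Real.exp (l - l₁) = c * Real.exp l / s := by
        rw [Real.exp_sub, hs]
        have : c ≠ 0 := by linarith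
        field_simp
      linarith
    rw [kh_eq, show l * (Real.exp (-(α * l) - c * Real.exp l) *
      (c * Real.exp l * (c * Real.exp l - 1))) = Real.exp (-(α * l) - c * Real.exp l) *
      (l * (c * Real.exp l * (c * Real.exp l - 1))) by ring]
    apply mul_le_mul_of_nonneg_left _ hE.le
    have h5 : α * A * ((α + c * Real.exp l) * LL α (c * Real.exp l) -
          c * Real.exp l * LL' α (c * Real.exp l)) ≤ α * A * 1 :=
      mul_le_mul_of_nonneg_left h1 (mul_nonneg hα hA)
    have h6 : α ^ 2 * l ≤ α ^ 2 * (l₁ + c * Real.exp l / s - 1) :=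
      mul_le_mul_of_nonneg_left h2 (sq_nonneg α)
    have h7 : α * A * 1 = 2 * α + α ^ 2 - α ^ 2 * l₁ + α ^ 3 / s := by
      rw [hAdef]
      unfold AA
      ring
    have h8 : α ^ 2 * (l₁ + c * Real.exp l / s - 1) =
        α ^ 2 * l₁ + α ^ 2 * (c * Real.exp l) / s - α ^ 2 := by ring
    linarith
  have hlim : Tendsto (fun l : ℝ => -(Real.exp (-(α * l) - c * Real.exp l) *
      (l * (c * Real.exp l) + 1 - α * l + α ^ 2 / s - α * A * LL α (c * Real.exp l))))
      atTop (𝓝 0) := by
    refine lim_zero (C := 4 + A) hc fun l hl' => ?_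
    have hw1 := one_le_w hc hl'
    have h1 := LL_le_one hα hw1
    have h2 := LL_pos hα (hw0 l)
    have h3 := exp_aw_le (c := c) hα hl'
    have hE : 0 < Real.exp (-(α * l) - c * Real.exp l) := Real.exp_pos _
    have h4 := l_le_w (l := l) hc
    have hww : 1 ≤ (c * Real.exp l) ^ 2 := by nlinarith
    have hw2 : c * Real.exp l ≤ (c * Real.exp l) ^ 2 := by nlinarith
    have e1 : |l * (c * Real.exp l)| ≤ (c * Real.exp l) ^ 2 := by
      rw [abs_of_nonneg (by positivity), sq]
      exact mul_le_mul_of_nonneg_right h4 (by linarith)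
    have e2 : |α * l| ≤ (c * Real.exp l) ^ 2 := by
      rw [abs_of_nonneg (by positivity)]
      nlinarith
    have e3 : |α ^ 2 / s| ≤ (c * Real.exp l) ^ 2 := by
      rw [abs_of_nonneg (by positivity)]
      refine (div_le_one_of_le₀ ?_ hs0.le).trans hww
      nlinarith
    have e4 : |α * A * LL α (c * Real.exp l)| ≤ A * (c * Real.exp l) ^ 2 := by
      rw [abs_of_nonneg (by positivity)]
      have e5 : α * A ≤ A := by nlinarith
      calc α * A * LL α (c * Real.exp l) ≤ A * 1 := mul_le_mul e5 h1 h2.le hA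
        _ ≤ A * (c * Real.exp l) ^ 2 := mul_le_mul_of_nonneg_left hww hA
    rw [abs_neg, abs_mul, abs_of_pos hE]
    have h5 : |l * (c * Real.exp l) + 1 - α * l + α ^ 2 / s - α * A * LL α (c * Real.exp l)| ≤
        (4 + A) * (c * Real.exp l) ^ 2 := by
      rw [abs_le] at e1 e2 e3 e4 ⊢
      constructor <;> nlinarith
    calc Real.exp (-(α * l) - c * Real.exp l) *
          |l * (c * Real.exp l) + 1 - α * l + α ^ 2 / s - α * A * LL α (c * Real.exp l)|
        ≤ Real.exp (-(c * Real.exp l)) * ((4 + A) * (c * Real.exp l) ^ 2) :=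
          mul_le_mul h3 h5 (abs_nonneg _) (Real.exp_pos _).le
      _ = _ := by ring
  have hcont := cont_kh α c
  have h := int_le (lkh_integrable hα hc hl) (by fun_prop) hd hle hlim
  rw [neg_neg] at h
  exact h

/-- **upper bound of `ε`**, general form -/
theorem ep_upper {a c e l₁ : ℝ} (he : 0 ≤ e) (hea : e ≤ a) (ha1 : a ≤ 1) (hc : 1 ≤ c)
    (hl : 0 ≤ l₁) (hl1 : l₁ ≤ 2) :
    ep a c e ≤ e * (WW c * (l₁ ^ 2 / 2) * ((1 + Real.exp (e * l₁)) / 2) +
      (Mb a l₁ (c * Real.exp l₁) + Mb (a - e) l₁ (c * Real.exp l₁)) / 2) := by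
  have ha : 0 ≤ a := he.trans hea
  have hi := k1_exp_integrable (a := a) hc he hea
  have i1 : IntegrableOn (fun l => k1 a c l * (Real.exp (e * l) - 1)) (Ioc 0 l₁) :=
    hi.mono_set Ioc_subset_Ioi_self
  have i2 : IntegrableOn (fun l => k1 a c l * (Real.exp (e * l) - 1)) (Ioi l₁) :=
    hi.mono_set (Ioi_subset_Ioi hl)
  have e1 : ep a c e = (∫ l in Ioc 0 l₁, k1 a c l * (Real.exp (e * l) - 1)) +
      ∫ l in Ioi l₁, k1 a c l * (Real.exp (e * l) - 1) := by
    unfold ep
    rw [← Ioc_union_Ioi_eq_Ioi hl]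
    exact setIntegral_union (Ioc_disjoint_Ioi le_rfl) measurableSet_Ioi i1 i2
  have hW : 0 ≤ WW c := WW_nonneg hc
  have b1 : ∫ l in Ioc 0 l₁, k1 a c l * (Real.exp (e * l) - 1) ≤
      e * (WW c * (l₁ ^ 2 / 2) * ((1 + Real.exp (e * l₁)) / 2)) := by
    have h1 : ∫ l in Ioc 0 l₁, WW c * ((1 + Real.exp (e * l₁)) / 2) * e * l =
        e * (WW c * (l₁ ^ 2 / 2) * ((1 + Real.exp (e * l₁)) / 2)) := by
      rw [← intervalIntegral.integral_of_le hl, intervalIntegral.integral_const_mul,
        integral_id]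
      ring
    rw [← h1]
    refine setIntegral_mono_on i1 ?_ measurableSet_Ioc ?_
    · exact (by fun_prop : Continuous fun l : ℝ =>
        WW c * ((1 + Real.exp (e * l₁)) / 2) * e * l).integrableOn_Ioc
    · intro l hl'
      have h0 : 0 ≤ l := hl'.1.le
      have h2 := trapez (mul_nonneg he h0)
      have h3 : Real.exp (e * l) ≤ Real.exp (e * l₁) :=
        Real.exp_le_exp.2 (mul_le_mul_of_nonneg_left hl'.2 he)
      have h4 : Real.exp (e * l) - 1 ≤ e * l * ((1 + Real.exp (e * l₁)) / 2) := by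
        have := mul_le_mul_of_nonneg_left h3 (mul_nonneg he h0)
        linarith
      have h5 : 0 ≤ Real.exp (e * l) - 1 := by
        have := Real.one_le_exp (mul_nonneg he h0)
        linarith
      calc k1 a c l * (Real.exp (e * l) - 1)
          ≤ WW c * (e * l * ((1 + Real.exp (e * l₁)) / 2)) :=
            mul_le_mul (k1_le_zero a c l) h4 h5 hW
        _ = _ := by ring
  have hα : 0 ≤ a - e := sub_nonneg.2 hea
  have j1 := lkh_integrable ha hc hl
  have j2 := lkh_integrable hα hc hl
  have b2 : ∫ l in Ioi l₁, k1 a c l * (Real.exp (e * l) - 1) ≤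
      e * ((Mb a l₁ (c * Real.exp l₁) + Mb (a - e) l₁ (c * Real.exp l₁)) / 2) := by
    have h1 : ∫ l in Ioi l₁, e / 2 * (l * kh a c l + l * kh (a - e) c l) =
        e / 2 * ((∫ l in Ioi l₁, l * kh a c l) + ∫ l in Ioi l₁, l * kh (a - e) c l) := by
      rw [integral_const_mul, integral_add j1 j2]
    have h2 := moment_upper ha ha1 hc hl hl1
    have h3 := moment_upper hα (by linarith) hc hl hl1
    have h4 : ∫ l in Ioi l₁, k1 a c l * (Real.exp (e * l) - 1) ≤
        ∫ l in Ioi l₁, e / 2 * (l * kh a c l + l * kh (a - e) c l) := by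
      refine setIntegral_mono_on i2 ((j1.add j2).const_mul _) measurableSet_Ioi ?_
      intro l hl'
      have h0 : 0 ≤ l := hl.trans (le_of_lt hl')
      have h5 := trapez (mul_nonneg he h0)
      have h6 : 0 ≤ Real.exp (e * l) - 1 := by
        have := Real.one_le_exp (mul_nonneg he h0)
        linarith
      have h7 : kh (a - e) c l = kh a c l * Real.exp (e * l) := by
        unfold kh
        rw [mul_right_comm, ← Real.exp_add]
        ring_nf
      have h8 := kh_nonneg (a := a) hc h0
      rw [h7]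
      calc k1 a c l * (Real.exp (e * l) - 1)
          ≤ kh a c l * (e * l * (1 + Real.exp (e * l)) / 2) := mul_le_mul (k1_le a c l) h5 h6 h8
        _ = _ := by ring
    rw [h1] at h4
    have h9 := mul_le_mul_of_nonneg_left (add_le_add h2 h3) (by linarith : (0 : ℝ) ≤ e / 2)
    linarith
  rw [e1]
  linarith

end Pool.Agent.Lib.QNL.Ker43
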