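import Pool.Agent.Lib.QNL.Ker43B
import Pool.Agent.Lib.QNL.Enc73b

/-!
# Numerical forms of the bounds of the retained kernel
-/

set_option autoImplicit false

namespace Pool.Agent.Lib.QNL.Ker43

open MeasureTheory Set Filter Topology
open Pool.Agent.Lib.QNL.Wts73 (zz psi)
open Pool.Agent.Lib.QNL.Enc (Sa DD zz_eq_DD DD_pos KS KS_le le_KS po EE exp_le_EE EE_le_exp)

theorem log_facts {c s : ℝ} (hc : 0 < c) (hs : 0 < s) :
    c * Real.exp (Real.log (s / c)) = s ∧ Real.exp (-Real.log (s / c)) = c / s := by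
  have h : 0 < s / c := by positivity
  rw [Real.exp_neg, Real.exp_log h]
  constructor
  · field_simp
  · field_simp

theorem log_lower {c s l : ℝ} (hc : 0 < c) (hs : 0 < s) (h : c / s ≤ Real.exp (-l)) :
    l ≤ Real.log (s / c) := by
  rw [← (log_facts hc hs).2] at h
  have := Real.exp_le_exp.1 h
  linarith

theorem log_upper {c s l : ℝ} (hc : 0 < c) (hs : 0 < s) (h : Real.exp (-l) ≤ c / s) :
    Real.log (s / c) ≤ l := by
  rw [← (log_facts hc hs).2] at h
  have := Real.exp_le_exp.1 h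
  linarith

/-- **`K` from below, numerical form** -/
theorem KK_num {a a0 a1 c sa sb lam lap lbm lbp q r L : ℝ} (h00 : 0 ≤ a0) (h0 : a0 ≤ a)
    (h1 : a ≤ a1) (ha1 : a1 ≤ 1) (hc : 1 < c) (hca : c ≤ sa) (hab : sa ≤ sb)
    (A1 : c / sa ≤ Real.exp (-lam)) (A2 : Real.exp (-lap) ≤ c / sa)
    (B1 : c / sb ≤ Real.exp (-lbm)) (B2 : Real.exp (-lbp) ≤ c / sb)
    (hA : c * (c - 1) ≤ sa * (sa - 1) * Real.exp (-(a1 * lap + sa - c)))
    (hB : sb * (sb - 1) * Real.exp (-(a0 * lbm + sb - c)) ≤ c * (c - 1))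
    (hq : -sb ^ 2 + (3 - a) * sb - (1 - a) ≤ 0)
    (hQ : q ≤ Real.exp (-(sb - c))) (hr : r ≤ Real.exp (-(a0 * lbp))) (hr0 : 0 ≤ r)
    (hL : L ≤ LL a sb) (hL0 : 0 ≤ L) (hd : lap ≤ lbm) (hpos : (a - a0) * lbp ≤ 1) :
    c * Real.exp (-c) * ((c - 1) * lam + q * r / c * ((1 - (a - a0) * lbp) *
      ((lbm - lap) * (sb * (sb - 1)) + sb - a + a ^ 2 * L))) ≤ KK a c := by
  have hc0 : 0 < c := by linarith
  have hsa0 : 0 < sa := by linarith
  have hsb0 : 0 < sb := by linarith
  have ha : 0 ≤ a := h00.trans h0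
  have ha1' : a ≤ 1 := h1.trans ha1
  set la := Real.log (sa / c) with hla
  set lb := Real.log (sb / c) with hlb
  have ea := (log_facts hc0 hsa0).1
  have eb := (log_facts hc0 hsb0).1
  rw [← hla] at ea
  rw [← hlb] at eb
  have la1 : lam ≤ la := log_lower hc0 hsa0 A1
  have la2 : la ≤ lap := log_upper hc0 hsa0 A2
  have lb1 : lbm ≤ lb := log_lower hc0 hsb0 B1
  have lb2 : lb ≤ lbp := log_upper hc0 hsb0 B2
  have hla0 : 0 ≤ la := Real.log_nonneg ((one_le_div hc0).2 hca)
  have hlb0 : 0 ≤ lb := Real.log_nonneg ((one_le_div hc0).2 (hca.trans hab))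
  have hlab : la ≤ lb := by linarith
  have hWc : WW c = c * (c - 1) * Real.exp (-c) := rfl
  have hEc : 0 < Real.exp (-c) := Real.exp_pos _
  -- the two conditions
  have cA : WW c ≤ kh a c la := by
    rw [kh_eq, ea, hWc]
    have h2 : Real.exp (-(a1 * lap + sa - c)) ≤ Real.exp (-(a * la) - sa + c) := by
      apply Real.exp_le_exp.2
      have : a * la ≤ a1 * lap := mul_le_mul h1 la2 hla0 (ha.trans h1)
      linarith
    have h3 : 0 ≤ sa * (sa - 1) := mul_nonneg hsa0.le (by linarith)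
    have h4 := hA.trans (mul_le_mul_of_nonneg_left h2 h3)
    have h5 : Real.exp (-(a * la) - sa + c) = Real.exp (-(a * la) - sa) * Real.exp c :=
      Real.exp_add _ _
    have h6 : Real.exp c * Real.exp (-c) = 1 := by
      rw [← Real.exp_add, add_neg_cancel, Real.exp_zero]
    calc c * (c - 1) * Real.exp (-c)
        ≤ sa * (sa - 1) * Real.exp (-(a * la) - sa + c) * Real.exp (-c) :=
          mul_le_mul_of_nonneg_right h4 hEc.le
      _ = sa * (sa - 1) * Real.exp (-(a * la) - sa) * (Real.exp c * Real.exp (-c)) := by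
          rw [h5]; ring
      _ = _ := by rw [h6]; ring
  have cB : kh a c lb ≤ WW c := by
    rw [kh_eq, eb, hWc]
    have h2 : Real.exp (-(a * lb) - sb + c) ≤ Real.exp (-(a0 * lbm + sb - c)) := by
      apply Real.exp_le_exp.2
      have h7 : a0 * lbm ≤ a0 * lb := mul_le_mul_of_nonneg_left lb1 h00
      have h8 : a0 * lb ≤ a * lb := mul_le_mul_of_nonneg_right h0 hlb0
      linarith
    have h3 : 0 ≤ sb * (sb - 1) := mul_nonneg hsb0.le (by linarith)
    have h4 := (mul_le_mul_of_nonneg_left h2 h3).trans hB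
    have h5 : Real.exp (-(a * lb) - sb + c) = Real.exp (-(a * lb) - sb) * Real.exp c :=
      Real.exp_add _ _
    have h6 : Real.exp c * Real.exp (-c) = 1 := by
      rw [← Real.exp_add, add_neg_cancel, Real.exp_zero]
    calc Real.exp (-(a * lb) - sb) * (sb * (sb - 1))
        = sb * (sb - 1) * Real.exp (-(a * lb) - sb) * (Real.exp c * Real.exp (-c)) := by
          rw [h6]; ring
      _ = sb * (sb - 1) * Real.exp (-(a * lb) - sb + c) * Real.exp (-c) := by
          rw [h5]; ring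
      _ ≤ c * (c - 1) * Real.exp (-c) := mul_le_mul_of_nonneg_right h4 hEc.le
  have hq' : -(c * Real.exp lb) ^ 2 + (3 - a) * (c * Real.exp lb) - (1 - a) ≤ 0 := by
    rw [eb]; exact hq
  have h := KK_lower ha ha1' hc.le hla0 hlab cA cB hq'
  rw [kh_eq, eb] at h
  -- the exponential
  have hE : Real.exp (-c) * (q * (r * (1 - (a - a0) * lbp))) ≤ Real.exp (-(a * lb) - sb) := by
    have e1 : Real.exp (-(a * lb) - sb) =
        Real.exp (-c) * (Real.exp (-(sb - c)) * Real.exp (-(a * lb))) := by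
      rw [← Real.exp_add, ← Real.exp_add]
      congr 1
      ring
    have e2 : r * (1 - (a - a0) * lbp) ≤ Real.exp (-(a * lb)) := by
      have e3 : Real.exp (-(a * lbp)) = Real.exp (-(a0 * lbp)) * Real.exp (-((a - a0) * lbp)) := by
        rw [← Real.exp_add]
        congr 1
        ring
      have e4 : 1 - (a - a0) * lbp ≤ Real.exp (-((a - a0) * lbp)) := by
        have := Real.add_one_le_exp (-((a - a0) * lbp))
        linarith
      have e5 : Real.exp (-(a * lbp)) ≤ Real.exp (-(a * lb)) := by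
        apply Real.exp_le_exp.2
        have := mul_le_mul_of_nonneg_left lb2 ha
        linarith
      rw [e3] at e5
      exact (mul_le_mul hr e4 (by linarith) (Real.exp_pos _).le).trans e5
    rw [e1]
    apply mul_le_mul_of_nonneg_left _ hEc.le
    exact mul_le_mul hQ e2 (mul_nonneg hr0 (by linarith)) (Real.exp_pos _).le
  have hsbb : 0 ≤ sb * (sb - 1) := mul_nonneg hsb0.le (by linarith)
  have hR1 : (lbm - lap) * (sb * (sb - 1)) + sb - a + a ^ 2 * L ≤
      (lb - la) * (sb * (sb - 1)) + sb - a + a ^ 2 * LL a sb := by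
    have h2 : (lbm - lap) * (sb * (sb - 1)) ≤ (lb - la) * (sb * (sb - 1)) :=
      mul_le_mul_of_nonneg_right (by linarith) hsbb
    have h3 : a ^ 2 * L ≤ a ^ 2 * LL a sb := mul_le_mul_of_nonneg_left hL (sq_nonneg a)
    linarith
  have hR0 : 0 ≤ (lbm - lap) * (sb * (sb - 1)) + sb - a + a ^ 2 * L := by
    have h2 : 0 ≤ (lbm - lap) * (sb * (sb - 1)) := mul_nonneg (by linarith) hsbb
    have h3 : 0 ≤ a ^ 2 * L := by positivity
    linarith
  have h2 : Real.exp (-c) * (q * (r * (1 - (a - a0) * lbp))) *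
      ((lbm - lap) * (sb * (sb - 1)) + sb - a + a ^ 2 * L) ≤ Real.exp (-(a * lb) - sb) *
      ((lb - la) * (sb * (sb - 1)) + sb - a + a ^ 2 * LL a sb) :=
    mul_le_mul hE hR1 hR0 (Real.exp_pos _).le
  have h3 : WW c * lam ≤ WW c * la := mul_le_mul_of_nonneg_left la1 (WW_nonneg hc.le)
  have e6 : c * Real.exp (-c) * ((c - 1) * lam + q * r / c * ((1 - (a - a0) * lbp) *
      ((lbm - lap) * (sb * (sb - 1)) + sb - a + a ^ 2 * L))) =
      WW c * lam + Real.exp (-c) * (q * (r * (1 - (a - a0) * lbp))) *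
      ((lbm - lap) * (sb * (sb - 1)) + sb - a + a ^ 2 * L) := by
    rw [hWc]
    field_simp
  rw [e6]
  linarith

/-- **`ε` from above, numerical form** -/
theorem ep_num {a a0 a1 c s e em lm lp q r g L M0 M1 : ℝ} (h00 : 0 ≤ a0) (h0 : a0 ≤ a)
    (h1 : a ≤ a1) (ha1 : a1 ≤ 1) (hc : 1 < c) (hcs : c ≤ s) (he : 0 ≤ e) (hem : e ≤ em)
    (hema : em ≤ a0) (A1 : c / s ≤ Real.exp (-lm)) (A2 : Real.exp (-lp) ≤ c / s) (hlp : lp ≤ 2)
    (hlm : 0 ≤ lm) (hq : Real.exp (-(s - c)) ≤ q) (hr : Real.exp (-(a0 * lm)) ≤ r)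
    (hg : Real.exp (em * lp) ≤ g) (hL0 : 0 ≤ L)
    (hL : ∀ α, a0 - em ≤ α → α ≤ a1 → L ≤ LL α s)
    (hM : ∀ α, a0 - em ≤ α → α ≤ a1 →
      lp * s + 1 - α * lp + α ^ 2 / s - α * (2 + α - α * lp + α ^ 2 / s) * L ≤ M0 - M1 * α)
    (hM1 : 0 ≤ M1) (hMp : 0 ≤ M0 - M1 * a1) :
    ep a c e ≤ e * (c * Real.exp (-c)) * ((c - 1) * (lp ^ 2 / 2) * ((1 + g) / 2) +
      q * r / (2 * c) * ((1 - (a - a0) * lm + ((a - a0) * lm) ^ 2 / 2) *
        ((M0 - M1 * a) + g * (M0 - M1 * a + M1 * em)))) := by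
  have hc0 : 0 < c := by linarith
  have hs0 : 0 < s := by linarith
  have ha : 0 ≤ a := h00.trans h0
  have ha1' : a ≤ 1 := h1.trans ha1
  set l := Real.log (s / c) with hl
  have es := (log_facts hc0 hs0).1
  rw [← hl] at es
  have l1 : lm ≤ l := log_lower hc0 hs0 A1
  have l2 : l ≤ lp := log_upper hc0 hs0 A2
  have hl0 : 0 ≤ l := hlm.trans l1
  have hlp0 : 0 ≤ lp := hl0.trans l2
  have hea : e ≤ a := hem.trans (hema.trans h0)
  have h := ep_upper he hea ha1' hc.le hl0 (l2.trans hlp)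
  rw [es] at h
  have hEc : 0 < Real.exp (-c) := Real.exp_pos _
  have hWc : WW c = c * (c - 1) * Real.exp (-c) := rfl
  have hW0 : 0 ≤ WW c := WW_nonneg hc.le
  have hem0 : 0 ≤ em := he.trans hem
  have hgl : Real.exp (e * l) ≤ g := by
    refine le_trans ?_ hg
    exact Real.exp_le_exp.2 (mul_le_mul hem l2 hl0 hem0)
  have hg0 : 0 ≤ g := (Real.exp_pos _).le.trans hgl
  have b1 : WW c * (l ^ 2 / 2) * ((1 + Real.exp (e * l)) / 2) ≤
      WW c * (lp ^ 2 / 2) * ((1 + g) / 2) := by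
    apply mul_le_mul _ (by linarith) (by positivity) (by positivity)
    apply mul_le_mul_of_nonneg_left _ hW0
    have := pow_le_pow_left₀ hl0 l2 2
    linarith
  -- the exponentials of the tail
  have hq0 : 0 ≤ q := (Real.exp_pos _).le.trans hq
  have hr0 : 0 ≤ r := (Real.exp_pos _).le.trans hr
  set x := (a - a0) * lm with hx
  have hx0 : 0 ≤ x := mul_nonneg (by linarith) hlm
  have hX : Real.exp (-x) ≤ 1 - x + x ^ 2 / 2 := by
    have := exp_le_EE 1 hx0
    norm_num [EE, Finset.sum_range_succ, Nat.factorial] at this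
    linarith
  have hX0 : 0 ≤ 1 - x + x ^ 2 / 2 := (Real.exp_pos _).le.trans hX
  have hal : Real.exp (-(a * l)) ≤ r * (1 - x + x ^ 2 / 2) := by
    have e1 : Real.exp (-(a * lm)) = Real.exp (-(a0 * lm)) * Real.exp (-x) := by
      rw [← Real.exp_add, hx]
      congr 1
      ring
    have e2 : Real.exp (-(a * l)) ≤ Real.exp (-(a * lm)) := by
      apply Real.exp_le_exp.2
      have := mul_le_mul_of_nonneg_left l1 ha
      linarith
    rw [e1] at e2
    exact e2.trans (mul_le_mul hr hX (Real.exp_pos _).le hr0)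
  have hE1 : Real.exp (-(a * l) - s) ≤ Real.exp (-c) * (q * (r * (1 - x + x ^ 2 / 2))) := by
    have e1 : Real.exp (-(a * l) - s) =
        Real.exp (-c) * (Real.exp (-(s - c)) * Real.exp (-(a * l))) := by
      rw [← Real.exp_add, ← Real.exp_add]
      congr 1
      ring
    rw [e1]
    apply mul_le_mul_of_nonneg_left _ hEc.le
    exact mul_le_mul hq hal (Real.exp_pos _).le hq0
  have hE2 : Real.exp (-((a - e) * l) - s) ≤
      Real.exp (-c) * (q * (r * (1 - x + x ^ 2 / 2))) * g := by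
    have e1 : Real.exp (-((a - e) * l) - s) = Real.exp (-(a * l) - s) * Real.exp (e * l) := by
      rw [← Real.exp_add]
      congr 1
      ring
    rw [e1]
    exact mul_le_mul hE1 hgl (Real.exp_pos _).le (by positivity)
  -- the brackets
  have hm : ∀ α, a0 - em ≤ α → α ≤ a1 → 0 ≤ α →
      l * s + 1 - α * l + α ^ 2 / s - α * AA α l s * LL α s ≤ M0 - M1 * α := by
    intro α h2 h3 h4
    refine le_trans ?_ (hM α h2 h3)
    have hα1 : α ≤ 1 := h3.trans ha1
    have hA0 : 0 ≤ AA α l s := by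
      have h5 : α * l ≤ 1 * 2 := mul_le_mul hα1 (l2.trans hlp) hl0 zero_le_one
      have h6 : 0 ≤ α ^ 2 / s := by positivity
      unfold AA
      linarith
    have h5 : α * AA α l s * L ≤ α * AA α l s * LL α s :=
      mul_le_mul_of_nonneg_left (hL α h2 h3) (mul_nonneg h4 hA0)
    have h6 : α * AA α l s * L = α * (2 + α + α ^ 2 / s) * L - α ^ 2 * l * L := by
      unfold AA
      ring
    have h7 : α * (2 + α - α * lp + α ^ 2 / s) * L =
        α * (2 + α + α ^ 2 / s) * L - α ^ 2 * lp * L := by ring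
    have h8 : 0 ≤ (lp - l) * (s - α + α ^ 2 * L) :=
      mul_nonneg (by linarith) (by
        have : 0 ≤ α ^ 2 * L := by positivity
        linarith)
    have h9 : (lp - l) * (s - α + α ^ 2 * L) =
        (lp * s - α * lp + α ^ 2 * lp * L) - (l * s - α * l + α ^ 2 * l * L) := by ring
    linarith
  have m1 := hm a (by linarith) h1 ha
  have m2 := hm (a - e) (by linarith) (by linarith) (by linarith)
  have p1 : 0 ≤ M0 - M1 * a := by
    have := mul_le_mul_of_nonneg_left h1 hM1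
    linarith
  have p2 : M0 - M1 * (a - e) ≤ M0 - M1 * a + M1 * em := by
    have := mul_le_mul_of_nonneg_left hem hM1
    linarith
  have p3 : 0 ≤ M0 - M1 * a + M1 * em := by
    have : 0 ≤ M1 * em := mul_nonneg hM1 hem0
    linarith
  have c1 : Mb a l s ≤ Real.exp (-c) * (q * (r * (1 - x + x ^ 2 / 2))) * (M0 - M1 * a) := by
    unfold Mb
    calc _ ≤ Real.exp (-(a * l) - s) * (M0 - M1 * a) :=
          mul_le_mul_of_nonneg_left m1 (Real.exp_pos _).le
      _ ≤ _ := mul_le_mul_of_nonneg_right hE1 p1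
  have c2 : Mb (a - e) l s ≤ Real.exp (-c) * (q * (r * (1 - x + x ^ 2 / 2))) * g *
      (M0 - M1 * a + M1 * em) := by
    unfold Mb
    calc _ ≤ Real.exp (-((a - e) * l) - s) * (M0 - M1 * a + M1 * em) :=
          mul_le_mul_of_nonneg_left (m2.trans p2) (Real.exp_pos _).le
      _ ≤ _ := mul_le_mul_of_nonneg_right hE2 p3
  have b2 : WW c * (l ^ 2 / 2) * ((1 + Real.exp (e * l)) / 2) +
      (Mb a l s + Mb (a - e) l s) / 2 ≤ (c * Real.exp (-c)) *
      ((c - 1) * (lp ^ 2 / 2) * ((1 + g) / 2) +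
      q * r / (2 * c) * ((1 - x + x ^ 2 / 2) *
        ((M0 - M1 * a) + g * (M0 - M1 * a + M1 * em)))) := by
    have e1 : (c * Real.exp (-c)) *
      ((c - 1) * (lp ^ 2 / 2) * ((1 + g) / 2) +
      q * r / (2 * c) * ((1 - x + x ^ 2 / 2) *
        ((M0 - M1 * a) + g * (M0 - M1 * a + M1 * em)))) =
      WW c * (lp ^ 2 / 2) * ((1 + g) / 2) +
      (Real.exp (-c) * (q * (r * (1 - x + x ^ 2 / 2))) * (M0 - M1 * a) +
      Real.exp (-c) * (q * (r * (1 - x + x ^ 2 / 2))) * g * (M0 - M1 * a + M1 * em)) / 2 := by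
      rw [hWc]
      field_simp
    rw [e1]
    linarith
  refine (h.trans (mul_le_mul_of_nonneg_left b2 he)).trans (le_of_eq ?_)
  ring

/-- the box for `K` -/
theorem Kbox_of {a c B P box : ℝ} (ha0 : 0 < a) (ha1 : a < 1) (hc : 1 < c)
    (hK : c * Real.exp (-c) * B ≤ KK a c) (hS : Sa a c ≤ P) (hbox : 0 ≤ box)
    (h : box * (1 - a + a * P) ≤ (1 - a) * B) : box ≤ KK a c / zz a c := by
  have hc0 : 0 < c := by linarith
  have h1a : 0 < 1 - a := by linarith
  have hz := Wts73.zz_pos ha0 ha1 hc0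
  rw [le_div_iff₀ hz, zz_eq_DD ha0 ha1 hc0]
  refine le_trans ?_ hK
  have hD : DD a c ≤ 1 - a + a * P := by
    unfold DD
    nlinarith
  have e1 : psi 0 c = c * Real.exp (-c) := rfl
  have h2 : box * DD a c / (1 - a) ≤ B := by
    rw [div_le_iff₀ h1a]
    have := mul_le_mul_of_nonneg_left hD hbox
    linarith
  have h3 := mul_le_mul_of_nonneg_left h2 (by positivity : 0 ≤ c * Real.exp (-c))
  rw [e1]
  calc box * (c * Real.exp (-c) * DD a c / (1 - a)) =
        c * Real.exp (-c) * (box * DD a c / (1 - a)) := by ring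
    _ ≤ _ := h3

/-- the box for `e` -/
theorem ebox_of {a c e w U P box : ℝ} (ha0 : 0 < a) (ha1 : a < 1) (hc : 1 < c) (hw1 : w < 1)
    (he : e = w / (1 - w) / 2) (hE : ep a c e ≤ e * (c * Real.exp (-c)) * U) (hS : P ≤ Sa a c)
    (hbox : 0 ≤ box)
    (h : w * (1 - a) * U ≤ box * (1 - w) * (1 - a + a * P)) : 2 * ep a c e / zz a c ≤ box := by
  have hc0 : 0 < c := by linarith
  have h1a : 0 < 1 - a := by linarith
  have h1w : 0 < 1 - w := by linarith
  have hz := Wts73.zz_pos ha0 ha1 hc0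
  rw [div_le_iff₀ hz, zz_eq_DD ha0 ha1 hc0]
  have hD : 1 - a + a * P ≤ DD a c := by
    unfold DD
    nlinarith
  have e1 : psi 0 c = c * Real.exp (-c) := rfl
  have h2 : 2 * e * U ≤ box * DD a c / (1 - a) := by
    rw [le_div_iff₀ h1a, he]
    have h3 : 2 * (w / (1 - w) / 2) * U * (1 - a) = w * (1 - a) * U / (1 - w) := by
      field_simp
    rw [h3, div_le_iff₀ h1w]
    have h4 := mul_le_mul_of_nonneg_left hD (mul_nonneg hbox h1w.le)
    linarith
  have h3 := mul_le_mul_of_nonneg_left h2 (by positivity : 0 ≤ c * Real.exp (-c))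
  rw [e1]
  calc 2 * ep a c e ≤ 2 * (e * (c * Real.exp (-c)) * U) := by linarith
    _ = c * Real.exp (-c) * (2 * e * U) := by ring
    _ ≤ _ := h3
    _ = _ := by ring

end Pool.Agent.Lib.QNL.Ker43
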