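import Pool.Agent.Lib.QNL.Ker43C

/-!
# Horner form of the Kummer sums, and helpers for polynomial inequalities on an interval
-/

set_option autoImplicit false

namespace Pool.Agent.Lib.QNL.Ker43

open Pool.Agent.Lib.QNL.Wts73 (zz psi)
open Pool.Agent.Lib.QNL.Enc (Sa KS KS_le le_KS po po_pos EE exp_le_EE EE_le_exp)

/-- Horner recursion -/
noncomputable def Hr (a w κ : ℝ) : ℕ → ℝ → ℝ
  | 0, _ => κ
  | k + 1, j => 1 + w / (j - a) * Hr a w κ k (j + 1)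

theorem Hr_sum {a w κ : ℝ} (ha : a < 1) (k : ℕ) : ∀ n : ℕ,
    (∑ i ∈ Finset.range n, w ^ i / po a i) + w ^ n / po a n * Hr a w κ k (n + 2) =
      (∑ i ∈ Finset.range (n + k), w ^ i / po a i) + w ^ (n + k) / po a (n + k) * κ := by
  induction k with
  | zero => intro n; rfl
  | succ k ih =>
    intro n
    have h1 := ih (n + 1)
    have h2 := (po_pos ha n).ne'
    have h3 : (n : ℝ) + 2 - a ≠ 0 := by
      have : (0 : ℝ) ≤ n := Nat.cast_nonneg n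
      have : (0 : ℝ) < n + 2 - a := by linarith
      exact this.ne'
    have e1 : n + (k + 1) = n + 1 + k := by omega
    rw [e1, ← h1, Finset.sum_range_succ]
    have e2 : po a (n + 1) = po a n * (n + 2 - a) := rfl
    have e3 : Hr a w κ (k + 1) (n + 2) = 1 + w / (n + 2 - a) * Hr a w κ k (n + 2 + 1) := rfl
    have e4 : ((n + 1 : ℕ) : ℝ) + 2 = n + 2 + 1 := by push_cast; ring
    rw [e2, e3, e4, pow_succ]
    field_simp
    ring

theorem KS_Hr {a w κ : ℝ} (ha : a < 1) (m : ℕ) :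
    KS a w m + κ * (w ^ (m + 1) / po a (m + 1)) = Hr a w κ (m + 1) 2 := by
  have h := Hr_sum (w := w) (κ := κ) ha (m + 1) 0
  rw [Nat.zero_add (m + 1)] at h
  have e0 : po a 0 = 1 := rfl
  rw [Finset.range_zero, Finset.sum_empty, e0, Nat.cast_zero, zero_add, zero_add, pow_zero,
    div_one, one_mul] at h
  rw [h]
  unfold KS
  ring

theorem Hr_up {a w κ j Q P : ℝ} {k : ℕ} (hw : 0 ≤ w) (hj : 0 < j - a)
    (h : Hr a w κ k (j + 1) ≤ Q) (h2 : w * Q ≤ (P - 1) * (j - a)) : Hr a w κ (k + 1) j ≤ P := by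
  have h3 : w / (j - a) * Hr a w κ k (j + 1) ≤ P - 1 := by
    rw [div_mul_eq_mul_div, div_le_iff₀ hj]
    exact (mul_le_mul_of_nonneg_left h hw).trans h2
  have e : Hr a w κ (k + 1) j = 1 + w / (j - a) * Hr a w κ k (j + 1) := rfl
  rw [e]
  linarith

theorem Hr_lo {a w κ j Q P : ℝ} {k : ℕ} (hw : 0 ≤ w) (hj : 0 < j - a)
    (h : Q ≤ Hr a w κ k (j + 1)) (h2 : (P - 1) * (j - a) ≤ w * Q) : P ≤ Hr a w κ (k + 1) j := by
  have h3 : P - 1 ≤ w / (j - a) * Hr a w κ k (j + 1) := by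
    rw [div_mul_eq_mul_div, le_div_iff₀ hj]
    exact h2.trans (mul_le_mul_of_nonneg_left h hw)
  have e : Hr a w κ (k + 1) j = 1 + w / (j - a) * Hr a w κ k (j + 1) := rfl
  rw [e]
  linarith

theorem Hr_up' {a w κ j j' Q P : ℝ} {k : ℕ} (e : j + 1 = j') (hw : 0 ≤ w) (hj : 0 < j - a)
    (h : Hr a w κ k j' ≤ Q) (h2 : w * Q ≤ (P - 1) * (j - a)) : Hr a w κ (k + 1) j ≤ P := by
  subst e
  exact Hr_up hw hj h h2

theorem Hr_lo' {a w κ j j' Q P : ℝ} {k : ℕ} (e : j + 1 = j') (hw : 0 ≤ w) (hj : 0 < j - a)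
    (h : Q ≤ Hr a w κ k j') (h2 : (P - 1) * (j - a) ≤ w * Q) : P ≤ Hr a w κ (k + 1) j := by
  subst e
  exact Hr_lo hw hj h h2

theorem bp {u v : ℝ} (hu : 0 ≤ u) (hv : 0 ≤ v) (i j : ℕ) : 0 ≤ u ^ i * v ^ j := by positivity

theorem exp_le_of {x g : ℝ} (hg : 0 < g) (h : 1 / g ≤ Real.exp (-x)) : Real.exp x ≤ g := by
  have h1 : Real.exp x = 1 / Real.exp (-x) := by
    rw [Real.exp_neg, one_div, inv_inv]
  rw [h1, div_le_iff₀ (Real.exp_pos _)]
  rw [div_le_iff₀ hg] at h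
  linarith

/-- `LL` is decreasing: lower bound from the right end -/
theorem LL_ge {a a1 s L : ℝ} (ha : 0 ≤ a) (h1 : a ≤ a1) (hs : 1 ≤ s) (hL0 : 0 ≤ L)
    (hL : L * (s ^ 2 + (4 + 2 * a1) * s + (1 + a1) * (2 + a1)) ≤ s + 3 + a1)
    (hL2 : L * (2 * s + 3) ≥ 1) : L ≤ LL a s := by
  have hD := den_pos ha (by linarith : (0 : ℝ) ≤ s)
  unfold LL
  rw [le_div_iff₀ hD]
  nlinarith [mul_nonneg hL0 (mul_nonneg (sub_nonneg.2 h1) (by linarith : 0 ≤ a + a1)),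
    mul_nonneg (sub_nonneg.2 h1) (by linarith : 0 ≤ L * (2 * s + 3) - 1)]

end Pool.Agent.Lib.QNL.Ker43
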