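import Pool.Agent.Lib.QNL.Ker43H

/-!
# Boxes of the retained kernel: region II
-/

set_option autoImplicit false

namespace Pool.Agent.Lib.QNL.Ker43

open Pool.Agent.Lib.QNL.Wts73 (zz psi)
open Pool.Agent.Lib.QNL.Enc (Sa KS KS_le le_KS po po_pos EE exp_le_EE EE_le_exp)

theorem Sa_up_II {a : ℝ} (h0 : (19 / 25) ≤ a) (h1 : a ≤ (43 / 50)) :
    Sa a 2 ≤ ((2561333 / 500000) + (-556007 / 125000) * a + (6666367 / 1000000) * a ^ 2) := by
  have hu : 0 ≤ a - (19 / 25) := sub_nonneg.2 h0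
  have hv : 0 ≤ (43 / 50) - a := sub_nonneg.2 h1
  have ha0 : 0 < a := by linarith
  have ha : a < 1 := by linarith
  have k := le_KS (a := a) (w := 2) (κ := (4 / 3)) ha0 ha (by norm_num) 7
    (by push_cast; linarith) (by push_cast; linarith)
  rw [KS_Hr ha] at k
  refine k.trans ?_
  have s9 : Hr a 2 (4 / 3) 1 9 ≤ ((1296583 / 1000000) + (31893 / 1000000) * a + (2427 / 500000) * a ^ 2) :=
    Hr_up' (Q := (4 / 3)) (show (9 : ℝ) + 1 = 10 by norm_num) (by norm_num) (by linarith) le_rfl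
      (by linarith [bp hu hv 0 3, bp hu hv 1 2, bp hu hv 2 1, bp hu hv 3 0])
  have s8 : Hr a 2 (4 / 3) 2 8 ≤ ((1324811 / 1000000) + (46111 / 1000000) * a + (10021 / 1000000) * a ^ 2) :=
    Hr_up' (Q := ((1296583 / 1000000) + (31893 / 1000000) * a + (2427 / 500000) * a ^ 2)) (show (8 : ℝ) + 1 = 9 by norm_num) (by norm_num) (by linarith) s9
      (by linarith [bp hu hv 0 3, bp hu hv 1 2, bp hu hv 2 1, bp hu hv 3 0])
  have s7 : Hr a 2 (4 / 3) 3 7 ≤ ((344971 / 250000) + (62377 / 1000000) * a + (3607 / 200000) * a ^ 2) :=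
    Hr_up' (Q := ((1324811 / 1000000) + (46111 / 1000000) * a + (10021 / 1000000) * a ^ 2)) (show (7 : ℝ) + 1 = 8 by norm_num) (by norm_num) (by linarith) s8
      (by linarith [bp hu hv 0 3, bp hu hv 1 2, bp hu hv 2 1, bp hu hv 3 0])
  have s6 : Hr a 2 (4 / 3) 4 6 ≤ ((1463 / 1000) + (86689 / 1000000) * a + (17193 / 500000) * a ^ 2) :=
    Hr_up' (Q := ((344971 / 250000) + (62377 / 1000000) * a + (3607 / 200000) * a ^ 2)) (show (6 : ℝ) + 1 = 7 by norm_num) (by norm_num) (by linarith) s7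
      (by linarith [bp hu hv 0 3, bp hu hv 1 2, bp hu hv 2 1, bp hu hv 3 0])
  have s5 : Hr a 2 (4 / 3) 5 5 ≤ ((796573 / 500000) + (12383 / 100000) * a + (74943 / 1000000) * a ^ 2) :=
    Hr_up' (Q := ((1463 / 1000) + (86689 / 1000000) * a + (17193 / 500000) * a ^ 2)) (show (5 : ℝ) + 1 = 6 by norm_num) (by norm_num) (by linarith) s6
      (by linarith [bp hu hv 0 3, bp hu hv 1 2, bp hu hv 2 1, bp hu hv 3 0])
  have s4 : Hr a 2 (4 / 3) 6 4 ≤ ((1823423 / 1000000) + (6727 / 40000) * a + (202587 / 1000000) * a ^ 2) :=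
    Hr_up' (Q := ((796573 / 500000) + (12383 / 100000) * a + (74943 / 1000000) * a ^ 2)) (show (4 : ℝ) + 1 = 5 by norm_num) (by norm_num) (by linarith) s5
      (by linarith [bp hu hv 0 3, bp hu hv 1 2, bp hu hv 2 1, bp hu hv 3 0])
  have s3 : Hr a 2 (4 / 3) 7 3 ≤ ((2355353 / 1000000) + (45559 / 1000000) * a + (790759 / 1000000) * a ^ 2) :=
    Hr_up' (Q := ((1823423 / 1000000) + (6727 / 40000) * a + (202587 / 1000000) * a ^ 2)) (show (3 : ℝ) + 1 = 4 by norm_num) (by norm_num) (by linarith) s4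
      (by linarith [bp hu hv 0 3, bp hu hv 1 2, bp hu hv 2 1, bp hu hv 3 0])
  have s2 : Hr a 2 (4 / 3) 8 2 ≤ ((2561333 / 500000) + (-556007 / 125000) * a + (6666367 / 1000000) * a ^ 2) :=
    Hr_up' (Q := ((2355353 / 1000000) + (45559 / 1000000) * a + (790759 / 1000000) * a ^ 2)) (show (2 : ℝ) + 1 = 3 by norm_num) (by norm_num) (by linarith) s3
      (by linarith [bp hu hv 0 3, bp hu hv 1 2, bp hu hv 2 1, bp hu hv 3 0])
  exact s2

theorem Sa_lo_II {a : ℝ} (h0 : (19 / 25) ≤ a) (h1 : a ≤ (43 / 50)) :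
    ((511337 / 100000) + (-2215157 / 500000) * a + (6647373 / 1000000) * a ^ 2) ≤ Sa a 2 := by
  have hu : 0 ≤ a - (19 / 25) := sub_nonneg.2 h0
  have hv : 0 ≤ (43 / 50) - a := sub_nonneg.2 h1
  have ha0 : 0 < a := by linarith
  have ha : a < 1 := by linarith
  have k := KS_le (a := a) (w := 2) ha0 ha (by norm_num) 7
  have k2 := KS_Hr (w := 2) (κ := 0) ha 7
  rw [zero_mul, add_zero] at k2
  rw [k2] at k
  refine le_trans ?_ k
  have s9 : 1 ≤ Hr a 2 0 1 9 :=
    Hr_lo' (Q := 0) (show (9 : ℝ) + 1 = 10 by norm_num) (by norm_num) (by linarith) le_rfl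
      (by linarith)
  have s8 : ((250071 / 200000) + (7493 / 250000) * a + (5381 / 1000000) * a ^ 2) ≤ Hr a 2 0 2 8 :=
    Hr_lo' (Q := 1) (show (8 : ℝ) + 1 = 9 by norm_num) (by norm_num) (by linarith) s9
      (by linarith [bp hu hv 0 3, bp hu hv 1 2, bp hu hv 2 1, bp hu hv 3 0])
  have s7 : ((169793 / 125000) + (6959 / 125000) * a + (14537 / 1000000) * a ^ 2) ≤ Hr a 2 0 3 7 :=
    Hr_lo' (Q := ((250071 / 200000) + (7493 / 250000) * a + (5381 / 1000000) * a ^ 2)) (show (7 : ℝ) + 1 = 8 by norm_num) (by norm_num) (by linarith) s8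
      (by linarith [bp hu hv 0 3, bp hu hv 1 2, bp hu hv 2 1, bp hu hv 3 0])
  have s6 : ((72779 / 50000) + (42049 / 500000) * a + (31701 / 1000000) * a ^ 2) ≤ Hr a 2 0 4 6 :=
    Hr_lo' (Q := ((169793 / 125000) + (6959 / 125000) * a + (14537 / 1000000) * a ^ 2)) (show (6 : ℝ) + 1 = 7 by norm_num) (by norm_num) (by linarith) s7
      (by linarith [bp hu hv 0 3, bp hu hv 1 2, bp hu hv 2 1, bp hu hv 3 0])
  have s5 : ((1589919 / 1000000) + (61543 / 500000) * a + (72563 / 1000000) * a ^ 2) ≤ Hr a 2 0 5 5 :=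
    Hr_lo' (Q := ((72779 / 50000) + (42049 / 500000) * a + (31701 / 1000000) * a ^ 2)) (show (5 : ℝ) + 1 = 6 by norm_num) (by norm_num) (by linarith) s6
      (by linarith [bp hu hv 0 3, bp hu hv 1 2, bp hu hv 2 1, bp hu hv 3 0])
  have s4 : ((72857 / 40000) + (168651 / 1000000) * a + (99929 / 500000) * a ^ 2) ≤ Hr a 2 0 6 4 :=
    Hr_lo' (Q := ((1589919 / 1000000) + (61543 / 500000) * a + (72563 / 1000000) * a ^ 2)) (show (4 : ℝ) + 1 = 5 by norm_num) (by norm_num) (by linarith) s5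
      (by linarith [bp hu hv 0 3, bp hu hv 1 2, bp hu hv 2 1, bp hu hv 3 0])
  have s3 : ((117653 / 50000) + (1509 / 31250) * a + (196493 / 250000) * a ^ 2) ≤ Hr a 2 0 7 3 :=
    Hr_lo' (Q := ((72857 / 40000) + (168651 / 1000000) * a + (99929 / 500000) * a ^ 2)) (show (3 : ℝ) + 1 = 4 by norm_num) (by norm_num) (by linarith) s4
      (by linarith [bp hu hv 0 3, bp hu hv 1 2, bp hu hv 2 1, bp hu hv 3 0])
  have s2 : ((511337 / 100000) + (-2215157 / 500000) * a + (6647373 / 1000000) * a ^ 2) ≤ Hr a 2 0 8 2 :=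
    Hr_lo' (Q := ((117653 / 50000) + (1509 / 31250) * a + (196493 / 250000) * a ^ 2)) (show (2 : ℝ) + 1 = 3 by norm_num) (by norm_num) (by linarith) s3
      (by linarith [bp hu hv 0 3, bp hu hv 1 2, bp hu hv 2 1, bp hu hv 3 0])
  exact s2

/-- box of `K` -/
theorem K_II {a : ℝ} (h0 : (19 / 25) ≤ a) (h1 : a ≤ (43 / 50)) :
    (73 / 2000) + (-297 / 1250) * (a - (19 / 25)) + (1981 / 5000) * (a - (19 / 25)) ^ 2 ≤ KK a 2 / zz a 2 := by
  have hu : 0 ≤ a - (19 / 25) := sub_nonneg.2 h0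
  have hv : 0 ≤ (43 / 50) - a := sub_nonneg.2 h1
  have ha0 : 0 < a := by linarith
  have ha : a < 1 := by linarith
  have hK := KK_num (a := a) (a0 := (19 / 25)) (a1 := (43 / 50)) (c := 2) (sa := (107 / 50)) (sb := (227 / 100))
    (lam := (1353 / 20000)) (lap := (3383 / 50000)) (lbm := (12663 / 100000)) (lbp := (1583 / 12500))
    (q := (763379 / 1000000)) (r := (11353 / 12500)) (L := (2613 / 10000))
    (by norm_num) h0 h1 (by norm_num) (by norm_num) (by norm_num) (by norm_num)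
    (le_trans (by norm_num [EE, Finset.sum_range_succ, Nat.factorial]) (EE_le_exp 6 (by norm_num))) ((exp_le_EE 6 (by norm_num)).trans (by norm_num [EE, Finset.sum_range_succ, Nat.factorial]))
    (le_trans (by norm_num [EE, Finset.sum_range_succ, Nat.factorial]) (EE_le_exp 6 (by norm_num))) ((exp_le_EE 6 (by norm_num)).trans (by norm_num [EE, Finset.sum_range_succ, Nat.factorial]))
    (le_trans (by norm_num [EE, Finset.sum_range_succ, Nat.factorial]) (mul_le_mul_of_nonneg_left (EE_le_exp 6 (by norm_num)) (by norm_num)))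
    ((mul_le_mul_of_nonneg_left (exp_le_EE 6 (by norm_num)) (by norm_num)).trans (by norm_num [EE, Finset.sum_range_succ, Nat.factorial]))
    (by linarith) (le_trans (by norm_num [EE, Finset.sum_range_succ, Nat.factorial]) (EE_le_exp 6 (by norm_num))) (le_trans (by norm_num [EE, Finset.sum_range_succ, Nat.factorial]) (EE_le_exp 6 (by norm_num))) (by norm_num)
    (LL_ge ha0.le h1 (by norm_num) (by norm_num) (by norm_num) (by norm_num)) (by norm_num)
    (by norm_num) (by linarith)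
  refine Kbox_of ha0 ha (by norm_num) hK (Sa_up_II h0 h1) (by nlinarith [bp hu hv 0 2, bp hu hv 1 1, bp hu hv 2 0]) ?_
  linarith [bp hu hv 0 5, bp hu hv 1 4, bp hu hv 2 3, bp hu hv 3 2, bp hu hv 4 1, bp hu hv 5 0]

/-- box of `e` -/
theorem e_II {a w : ℝ} (h0 : (19 / 25) ≤ a) (h1 : a ≤ (43 / 50)) (hw : w = (6 / 25 + 3 / 4 * a) * a * (1 - a)) :
    2 * ep a 2 (w / (1 - w) / 2) / zz a 2 ≤ (307 / 100000) + (-1401 / 50000) * (a - (19 / 25)) + (3357 / 50000) * (a - (19 / 25)) ^ 2 := by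
  have hu : 0 ≤ a - (19 / 25) := sub_nonneg.2 h0
  have hv : 0 ≤ (43 / 50) - a := sub_nonneg.2 h1
  have ha0 : 0 < a := by linarith
  have ha : a < 1 := by linarith
  have hw0 : 0 ≤ w := by rw [hw]; nlinarith [bp hu hv 0 3, bp hu hv 1 2, bp hu hv 2 1, bp hu hv 3 0]
  have hw2 : w ≤ 2 * (217 / 2500) * (1 - w) := by rw [hw]; nlinarith [bp hu hv 0 3, bp hu hv 1 2, bp hu hv 2 1, bp hu hv 3 0]
  have hw1 : w < 1 := by
    by_contra h
    linarith
  have h1w : 0 < 1 - w := by linarith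
  have he0 : 0 ≤ w / (1 - w) / 2 := by positivity
  have hem : w / (1 - w) / 2 ≤ (217 / 2500) := by
    rw [div_div, div_le_iff₀ (by positivity)]
    linarith
  have hE := ep_num (a := a) (a0 := (19 / 25)) (a1 := (43 / 50)) (c := 2) (s := (11 / 5)) (e := w / (1 - w) / 2)
    (em := (217 / 2500)) (lm := (9531 / 100000)) (lp := (2383 / 25000)) (q := (818731 / 1000000)) (r := (465063 / 500000))
    (g := (100831 / 100000)) (L := (333 / 1250)) (M0 := (2389 / 2000)) (M1 := (5153 / 10000))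
    (by norm_num) h0 h1 (by norm_num) (by norm_num) (by norm_num) he0 hem (by norm_num)
    (le_trans (by norm_num [EE, Finset.sum_range_succ, Nat.factorial]) (EE_le_exp 6 (by norm_num))) ((exp_le_EE 6 (by norm_num)).trans (by norm_num [EE, Finset.sum_range_succ, Nat.factorial]))
    (by norm_num) (by norm_num) ((exp_le_EE 6 (by norm_num)).trans (by norm_num [EE, Finset.sum_range_succ, Nat.factorial])) ((exp_le_EE 6 (by norm_num)).trans (by norm_num [EE, Finset.sum_range_succ, Nat.factorial]))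
    (exp_le_of (by norm_num) (le_trans (by norm_num [EE, Finset.sum_range_succ, Nat.factorial]) (EE_le_exp 6 (by norm_num)))) (by norm_num)
    (fun α h2 h3 => LL_ge (by linarith) h3 (by norm_num) (by norm_num) (by norm_num) (by norm_num))
    (fun α h2 h3 => by
      have hu' : 0 ≤ α - (1683 / 2500) := by linarith
      have hv' : 0 ≤ (43 / 50) - α := by linarith
      linarith [bp hu' hv' 0 3, bp hu' hv' 1 2, bp hu' hv' 2 1, bp hu' hv' 3 0])
    (by norm_num) (by norm_num)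
  refine ebox_of ha0 ha (by norm_num) hw1 rfl hE (Sa_lo_II h0 h1) (by nlinarith [bp hu hv 0 2, bp hu hv 1 1, bp hu hv 2 0]) ?_
  rw [hw]
  linarith [bp hu hv 0 8, bp hu hv 1 7, bp hu hv 2 6, bp hu hv 3 5, bp hu hv 4 4, bp hu hv 5 3, bp hu hv 6 2, bp hu hv 7 1, bp hu hv 8 0]

end Pool.Agent.Lib.QNL.Ker43
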