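import Pool.Agent.Lib.QNL.Ker43H

/-!
# Boxes of the retained kernel: region III
-/

set_option autoImplicit false

namespace Pool.Agent.Lib.QNL.Ker43

open Pool.Agent.Lib.QNL.Wts73 (zz psi)
open Pool.Agent.Lib.QNL.Enc (Sa KS KS_le le_KS po po_pos EE exp_le_EE EE_le_exp)

theorem Sa_up_III {a : ℝ} (h0 : (43 / 50) ≤ a) (h1 : a ≤ (93 / 100)) :
    Sa a (5 / 2) ≤ ((11059497 / 1000000) + (-15648237 / 1000000) * a + (8378443 / 500000) * a ^ 2) := by
  have hu : 0 ≤ a - (43 / 50) := sub_nonneg.2 h0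
  have hv : 0 ≤ (93 / 100) - a := sub_nonneg.2 h1
  have ha0 : 0 < a := by linarith
  have ha : a < 1 := by linarith
  have k := le_KS (a := a) (w := (5 / 2)) (κ := (3 / 2)) ha0 ha (by norm_num) 7
    (by push_cast; linarith) (by push_cast; linarith)
  rw [KS_Hr ha] at k
  refine k.trans ?_
  have s9 : Hr a (5 / 2) (3 / 2) 1 9 ≤ ((354307 / 250000) + (44479 / 1000000) * a + (7043 / 1000000) * a ^ 2) :=
    Hr_up' (Q := (3 / 2)) (show (9 : ℝ) + 1 = 10 by norm_num) (by norm_num) (by linarith) le_rfl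
      (by linarith [bp hu hv 0 3, bp hu hv 1 2, bp hu hv 2 1, bp hu hv 3 0])
  have s8 : Hr a (5 / 2) (3 / 2) 2 8 ≤ ((90267 / 62500) + (64779 / 1000000) * a + (15501 / 1000000) * a ^ 2) :=
    Hr_up' (Q := ((354307 / 250000) + (44479 / 1000000) * a + (7043 / 1000000) * a ^ 2)) (show (8 : ℝ) + 1 = 9 by norm_num) (by norm_num) (by linarith) s9
      (by linarith [bp hu hv 0 3, bp hu hv 1 2, bp hu hv 2 1, bp hu hv 3 0])
  have s7 : Hr a (5 / 2) (3 / 2) 3 7 ≤ ((1518799 / 1000000) + (8723 / 100000) * a + (7299 / 250000) * a ^ 2) :=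
    Hr_up' (Q := ((90267 / 62500) + (64779 / 1000000) * a + (15501 / 1000000) * a ^ 2)) (show (7 : ℝ) + 1 = 8 by norm_num) (by norm_num) (by linarith) s8
      (by linarith [bp hu hv 0 3, bp hu hv 1 2, bp hu hv 2 1, bp hu hv 3 0])
  have s6 : Hr a (5 / 2) (3 / 2) 4 6 ≤ ((409943 / 250000) + (59851 / 500000) * a + (58127 / 1000000) * a ^ 2) :=
    Hr_up' (Q := ((1518799 / 1000000) + (8723 / 100000) * a + (7299 / 250000) * a ^ 2)) (show (6 : ℝ) + 1 = 7 by norm_num) (by norm_num) (by linarith) s7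
      (by linarith [bp hu hv 0 3, bp hu hv 1 2, bp hu hv 2 1, bp hu hv 3 0])
  have s5 : Hr a (5 / 2) (3 / 2) 5 5 ≤ ((459749 / 250000) + (163551 / 1000000) * a + (6671 / 50000) * a ^ 2) :=
    Hr_up' (Q := ((409943 / 250000) + (59851 / 500000) * a + (58127 / 1000000) * a ^ 2)) (show (5 : ℝ) + 1 = 6 by norm_num) (by norm_num) (by linarith) s6
      (by linarith [bp hu hv 0 3, bp hu hv 1 2, bp hu hv 2 1, bp hu hv 3 0])
  have s4 : Hr a (5 / 2) (3 / 2) 6 4 ≤ ((1109289 / 500000) + (10921 / 62500) * a + (386529 / 1000000) * a ^ 2) :=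
    Hr_up' (Q := ((459749 / 250000) + (163551 / 1000000) * a + (6671 / 50000) * a ^ 2)) (show (4 : ℝ) + 1 = 5 by norm_num) (by norm_num) (by linarith) s5
      (by linarith [bp hu hv 0 3, bp hu hv 1 2, bp hu hv 2 1, bp hu hv 3 0])
  have s3 : Hr a (5 / 2) (3 / 2) 7 3 ≤ ((3247 / 1000) + (-440931 / 1000000) * a + (416977 / 250000) * a ^ 2) :=
    Hr_up' (Q := ((1109289 / 500000) + (10921 / 62500) * a + (386529 / 1000000) * a ^ 2)) (show (3 : ℝ) + 1 = 4 by norm_num) (by norm_num) (by linarith) s4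
      (by linarith [bp hu hv 0 3, bp hu hv 1 2, bp hu hv 2 1, bp hu hv 3 0])
  have s2 : Hr a (5 / 2) (3 / 2) 8 2 ≤ ((11059497 / 1000000) + (-15648237 / 1000000) * a + (8378443 / 500000) * a ^ 2) :=
    Hr_up' (Q := ((3247 / 1000) + (-440931 / 1000000) * a + (416977 / 250000) * a ^ 2)) (show (2 : ℝ) + 1 = 3 by norm_num) (by norm_num) (by linarith) s3
      (by linarith [bp hu hv 0 3, bp hu hv 1 2, bp hu hv 2 1, bp hu hv 3 0])
  exact s2

theorem Sa_lo_III {a : ℝ} (h0 : (43 / 50) ≤ a) (h1 : a ≤ (93 / 100)) :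
    ((10976893 / 1000000) + (-1931731 / 125000) * a + (2073283 / 125000) * a ^ 2) ≤ Sa a (5 / 2) := by
  have hu : 0 ≤ a - (43 / 50) := sub_nonneg.2 h0
  have hv : 0 ≤ (93 / 100) - a := sub_nonneg.2 h1
  have ha0 : 0 < a := by linarith
  have ha : a < 1 := by linarith
  have k := KS_le (a := a) (w := (5 / 2)) ha0 ha (by norm_num) 7
  have k2 := KS_Hr (w := (5 / 2)) (κ := 0) ha 7
  rw [zero_mul, add_zero] at k2
  rw [k2] at k
  refine le_trans ?_ k
  have s9 : 1 ≤ Hr a (5 / 2) 0 1 9 :=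
    Hr_lo' (Q := 0) (show (9 : ℝ) + 1 = 10 by norm_num) (by norm_num) (by linarith) le_rfl
      (by linarith)
  have s8 : ((1313123 / 1000000) + (4631 / 125000) * a + (697 / 100000) * a ^ 2) ≤ Hr a (5 / 2) 0 2 8 :=
    Hr_lo' (Q := 1) (show (8 : ℝ) + 1 = 9 by norm_num) (by norm_num) (by linarith) s9
      (by linarith [bp hu hv 0 3, bp hu hv 1 2, bp hu hv 2 1, bp hu hv 3 0])
  have s7 : ((1471123 / 1000000) + (36659 / 500000) * a + (2103 / 100000) * a ^ 2) ≤ Hr a (5 / 2) 0 3 7 :=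
    Hr_lo' (Q := ((1313123 / 1000000) + (4631 / 125000) * a + (697 / 100000) * a ^ 2)) (show (7 : ℝ) + 1 = 8 by norm_num) (by norm_num) (by linarith) s8
      (by linarith [bp hu hv 0 3, bp hu hv 1 2, bp hu hv 2 1, bp hu hv 3 0])
  have s6 : ((1618951 / 1000000) + (56817 / 500000) * a + (50139 / 1000000) * a ^ 2) ≤ Hr a (5 / 2) 0 4 6 :=
    Hr_lo' (Q := ((1471123 / 1000000) + (36659 / 500000) * a + (2103 / 100000) * a ^ 2)) (show (6 : ℝ) + 1 = 7 by norm_num) (by norm_num) (by linarith) s7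
      (by linarith [bp hu hv 0 3, bp hu hv 1 2, bp hu hv 2 1, bp hu hv 3 0])
  have s5 : ((1827283 / 1000000) + (162531 / 1000000) * a + (124353 / 1000000) * a ^ 2) ≤ Hr a (5 / 2) 0 5 5 :=
    Hr_lo' (Q := ((1618951 / 1000000) + (56817 / 500000) * a + (50139 / 1000000) * a ^ 2)) (show (5 : ℝ) + 1 = 6 by norm_num) (by norm_num) (by linarith) s6
      (by linarith [bp hu hv 0 3, bp hu hv 1 2, bp hu hv 2 1, bp hu hv 3 0])
  have s4 : ((2208837 / 1000000) + (22467 / 125000) * a + (186547 / 500000) * a ^ 2) ≤ Hr a (5 / 2) 0 6 4 :=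
    Hr_lo' (Q := ((1827283 / 1000000) + (162531 / 1000000) * a + (124353 / 1000000) * a ^ 2)) (show (4 : ℝ) + 1 = 5 by norm_num) (by norm_num) (by linarith) s5
      (by linarith [bp hu hv 0 3, bp hu hv 1 2, bp hu hv 2 1, bp hu hv 3 0])
  have s3 : ((1615683 / 500000) + (-417111 / 1000000) * a + (1636903 / 1000000) * a ^ 2) ≤ Hr a (5 / 2) 0 7 3 :=
    Hr_lo' (Q := ((2208837 / 1000000) + (22467 / 125000) * a + (186547 / 500000) * a ^ 2)) (show (3 : ℝ) + 1 = 4 by norm_num) (by norm_num) (by linarith) s4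
      (by linarith [bp hu hv 0 3, bp hu hv 1 2, bp hu hv 2 1, bp hu hv 3 0])
  have s2 : ((10976893 / 1000000) + (-1931731 / 125000) * a + (2073283 / 125000) * a ^ 2) ≤ Hr a (5 / 2) 0 8 2 :=
    Hr_lo' (Q := ((1615683 / 500000) + (-417111 / 1000000) * a + (1636903 / 1000000) * a ^ 2)) (show (2 : ℝ) + 1 = 3 by norm_num) (by norm_num) (by linarith) s3
      (by linarith [bp hu hv 0 3, bp hu hv 1 2, bp hu hv 2 1, bp hu hv 3 0])
  exact s2

/-- box of `K` -/
theorem K_III {a : ℝ} (h0 : (43 / 50) ≤ a) (h1 : a ≤ (93 / 100)) :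
    (1111 / 100000) + (-433 / 4000) * (a - (43 / 50)) + (21943 / 100000) * (a - (43 / 50)) ^ 2 ≤ KK a (5 / 2) / zz a (5 / 2) := by
  have hu : 0 ≤ a - (43 / 50) := sub_nonneg.2 h0
  have hv : 0 ≤ (93 / 100) - a := sub_nonneg.2 h1
  have ha0 : 0 < a := by linarith
  have ha : a < 1 := by linarith
  have hK := KK_num (a := a) (a0 := (43 / 50)) (a1 := (93 / 100)) (c := (5 / 2)) (sa := (5 / 2)) (sb := (5 / 2))
    (lam := 0) (lap := 0) (lbm := 0) (lbp := 0)
    (q := 1) (r := 1) (L := (2421 / 10000))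
    (by norm_num) h0 h1 (by norm_num) (by norm_num) (by norm_num) (by norm_num)
    (le_trans (by norm_num [EE, Finset.sum_range_succ, Nat.factorial]) (EE_le_exp 6 (by norm_num))) ((exp_le_EE 6 (by norm_num)).trans (by norm_num [EE, Finset.sum_range_succ, Nat.factorial]))
    (le_trans (by norm_num [EE, Finset.sum_range_succ, Nat.factorial]) (EE_le_exp 6 (by norm_num))) ((exp_le_EE 6 (by norm_num)).trans (by norm_num [EE, Finset.sum_range_succ, Nat.factorial]))
    (le_trans (by norm_num [EE, Finset.sum_range_succ, Nat.factorial]) (mul_le_mul_of_nonneg_left (EE_le_exp 6 (by norm_num)) (by norm_num)))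
    ((mul_le_mul_of_nonneg_left (exp_le_EE 6 (by norm_num)) (by norm_num)).trans (by norm_num [EE, Finset.sum_range_succ, Nat.factorial]))
    (by linarith) (le_trans (by norm_num [EE, Finset.sum_range_succ, Nat.factorial]) (EE_le_exp 6 (by norm_num))) (le_trans (by norm_num [EE, Finset.sum_range_succ, Nat.factorial]) (EE_le_exp 6 (by norm_num))) (by norm_num)
    (LL_ge ha0.le h1 (by norm_num) (by norm_num) (by norm_num) (by norm_num)) (by norm_num)
    (by norm_num) (by linarith)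
  refine Kbox_of ha0 ha (by norm_num) hK (Sa_up_III h0 h1) (by nlinarith [bp hu hv 0 2, bp hu hv 1 1, bp hu hv 2 0]) ?_
  linarith [bp hu hv 0 5, bp hu hv 1 4, bp hu hv 2 3, bp hu hv 3 2, bp hu hv 4 1, bp hu hv 5 0]

/-- box of `e` -/
theorem e_III {a w : ℝ} (h0 : (43 / 50) ≤ a) (h1 : a ≤ (93 / 100)) (hw : w = (a - 1 / 100) * a * (1 - a)) :
    2 * ep a (5 / 2) (w / (1 - w) / 2) / zz a (5 / 2) ≤ (13 / 25000) + (-401 / 50000) * (a - (43 / 50)) + (403 / 12500) * (a - (43 / 50)) ^ 2 := by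
  have hu : 0 ≤ a - (43 / 50) := sub_nonneg.2 h0
  have hv : 0 ≤ (93 / 100) - a := sub_nonneg.2 h1
  have ha0 : 0 < a := by linarith
  have ha : a < 1 := by linarith
  have hw0 : 0 ≤ w := by rw [hw]; nlinarith [bp hu hv 0 3, bp hu hv 1 2, bp hu hv 2 1, bp hu hv 3 0]
  have hw2 : w ≤ 2 * (597 / 10000) * (1 - w) := by rw [hw]; nlinarith [bp hu hv 0 3, bp hu hv 1 2, bp hu hv 2 1, bp hu hv 3 0]
  have hw1 : w < 1 := by
    by_contra h
    linarith
  have h1w : 0 < 1 - w := by linarith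
  have he0 : 0 ≤ w / (1 - w) / 2 := by positivity
  have hem : w / (1 - w) / 2 ≤ (597 / 10000) := by
    rw [div_div, div_le_iff₀ (by positivity)]
    linarith
  have hE := ep_num (a := a) (a0 := (43 / 50)) (a1 := (93 / 100)) (c := (5 / 2)) (s := (5 / 2)) (e := w / (1 - w) / 2)
    (em := (597 / 10000)) (lm := 0) (lp := 0) (q := (1000001 / 1000000)) (r := (1000001 / 1000000))
    (g := 1) (L := (2421 / 10000)) (M0 := (5039 / 5000)) (M1 := (268 / 625))
    (by norm_num) h0 h1 (by norm_num) (by norm_num) (by norm_num) he0 hem (by norm_num)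
    (le_trans (by norm_num [EE, Finset.sum_range_succ, Nat.factorial]) (EE_le_exp 6 (by norm_num))) ((exp_le_EE 6 (by norm_num)).trans (by norm_num [EE, Finset.sum_range_succ, Nat.factorial]))
    (by norm_num) (by norm_num) ((exp_le_EE 6 (by norm_num)).trans (by norm_num [EE, Finset.sum_range_succ, Nat.factorial])) ((exp_le_EE 6 (by norm_num)).trans (by norm_num [EE, Finset.sum_range_succ, Nat.factorial]))
    (exp_le_of (by norm_num) (le_trans (by norm_num [EE, Finset.sum_range_succ, Nat.factorial]) (EE_le_exp 6 (by norm_num)))) (by norm_num)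
    (fun α h2 h3 => LL_ge (by linarith) h3 (by norm_num) (by norm_num) (by norm_num) (by norm_num))
    (fun α h2 h3 => by
      have hu' : 0 ≤ α - (8003 / 10000) := by linarith
      have hv' : 0 ≤ (93 / 100) - α := by linarith
      linarith [bp hu' hv' 0 3, bp hu' hv' 1 2, bp hu' hv' 2 1, bp hu' hv' 3 0])
    (by norm_num) (by norm_num)
  refine ebox_of ha0 ha (by norm_num) hw1 rfl hE (Sa_lo_III h0 h1) (by nlinarith [bp hu hv 0 2, bp hu hv 1 1, bp hu hv 2 0]) ?_
  rw [hw]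
  linarith [bp hu hv 0 8, bp hu hv 1 7, bp hu hv 2 6, bp hu hv 3 5, bp hu hv 4 4, bp hu hv 5 3, bp hu hv 6 2, bp hu hv 7 1, bp hu hv 8 0]

end Pool.Agent.Lib.QNL.Ker43
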