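import Pool.Agent.Lib.QNL.Ker43H

/-!
# Boxes of the retained kernel: region IV
-/

set_option autoImplicit false

namespace Pool.Agent.Lib.QNL.Ker43

open Pool.Agent.Lib.QNL.Wts73 (zz psi)
open Pool.Agent.Lib.QNL.Enc (Sa KS KS_le le_KS po po_pos EE exp_le_EE EE_le_exp)

theorem Sa_up_IV {a : ℝ} (h0 : (93 / 100) ≤ a) (h1 : a ≤ (24 / 25)) :
    Sa a 3 ≤ ((11836119 / 500000) + (-40718889 / 1000000) * a + (7429371 / 200000) * a ^ 2) := by
  have hu : 0 ≤ a - (93 / 100) := sub_nonneg.2 h0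
  have hv : 0 ≤ (24 / 25) - a := sub_nonneg.2 h1
  have ha0 : 0 < a := by linarith
  have ha : a < 1 := by linarith
  have k := le_KS (a := a) (w := 3) (κ := (8 / 5)) ha0 ha (by norm_num) 7
    (by push_cast; linarith) (by push_cast; linarith)
  rw [KS_Hr ha] at k
  refine k.trans ?_
  have s9 : Hr a 3 (8 / 5) 1 9 ≤ ((306839 / 200000) + (56621 / 1000000) * a + (287 / 31250) * a ^ 2) :=
    Hr_up' (Q := (8 / 5)) (show (9 : ℝ) + 1 = 10 by norm_num) (by norm_num) (by linarith) le_rfl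
      (by linarith [bp hu hv 0 3, bp hu hv 1 2, bp hu hv 2 1, bp hu hv 3 0])
  have s8 : Hr a 3 (8 / 5) 2 8 ≤ ((394411 / 250000) + (10759 / 125000) * a + (21999 / 1000000) * a ^ 2) :=
    Hr_up' (Q := ((306839 / 200000) + (56621 / 1000000) * a + (287 / 31250) * a ^ 2)) (show (8 : ℝ) + 1 = 9 by norm_num) (by norm_num) (by linarith) s9
      (by linarith [bp hu hv 0 3, bp hu hv 1 2, bp hu hv 2 1, bp hu hv 3 0])
  have s7 : Hr a 3 (8 / 5) 3 7 ≤ ((1681441 / 1000000) + (58693 / 500000) * a + (4403 / 100000) * a ^ 2) :=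
    Hr_up' (Q := ((394411 / 250000) + (10759 / 125000) * a + (21999 / 1000000) * a ^ 2)) (show (7 : ℝ) + 1 = 8 by norm_num) (by norm_num) (by linarith) s8
      (by linarith [bp hu hv 0 3, bp hu hv 1 2, bp hu hv 2 1, bp hu hv 3 0])
  have s6 : Hr a 3 (8 / 5) 4 6 ≤ ((185369 / 100000) + (79899 / 500000) * a + (1441 / 15625) * a ^ 2) :=
    Hr_up' (Q := ((1681441 / 1000000) + (58693 / 500000) * a + (4403 / 100000) * a ^ 2)) (show (6 : ℝ) + 1 = 7 by norm_num) (by norm_num) (by linarith) s7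
      (by linarith [bp hu hv 0 3, bp hu hv 1 2, bp hu hv 2 1, bp hu hv 3 0])
  have s5 : Hr a 3 (8 / 5) 5 5 ≤ ((1074931 / 500000) + (103161 / 500000) * a + (55773 / 250000) * a ^ 2) :=
    Hr_up' (Q := ((185369 / 100000) + (79899 / 500000) * a + (1441 / 15625) * a ^ 2)) (show (5 : ℝ) + 1 = 6 by norm_num) (by norm_num) (by linarith) s6
      (by linarith [bp hu hv 0 3, bp hu hv 1 2, bp hu hv 2 1, bp hu hv 3 0])
  have s4 : Hr a 3 (8 / 5) 6 4 ≤ ((2757653 / 1000000) + (132967 / 1000000) * a + (688621 / 1000000) * a ^ 2) :=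
    Hr_up' (Q := ((1074931 / 500000) + (103161 / 500000) * a + (55773 / 250000) * a ^ 2)) (show (4 : ℝ) + 1 = 5 by norm_num) (by norm_num) (by linarith) s5
      (by linarith [bp hu hv 0 3, bp hu hv 1 2, bp hu hv 2 1, bp hu hv 3 0])
  have s3 : Hr a 3 (8 / 5) 7 3 ≤ ((4667153 / 1000000) + (-1532293 / 1000000) * a + (646751 / 200000) * a ^ 2) :=
    Hr_up' (Q := ((2757653 / 1000000) + (132967 / 1000000) * a + (688621 / 1000000) * a ^ 2)) (show (3 : ℝ) + 1 = 4 by norm_num) (by norm_num) (by linarith) s4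
      (by linarith [bp hu hv 0 3, bp hu hv 1 2, bp hu hv 2 1, bp hu hv 3 0])
  have s2 : Hr a 3 (8 / 5) 8 2 ≤ ((11836119 / 500000) + (-40718889 / 1000000) * a + (7429371 / 200000) * a ^ 2) :=
    Hr_up' (Q := ((4667153 / 1000000) + (-1532293 / 1000000) * a + (646751 / 200000) * a ^ 2)) (show (2 : ℝ) + 1 = 3 by norm_num) (by norm_num) (by linarith) s3
      (by linarith [bp hu hv 0 3, bp hu hv 1 2, bp hu hv 2 1, bp hu hv 3 0])
  exact s2

theorem Sa_lo_IV {a : ℝ} (h0 : (93 / 100) ≤ a) (h1 : a ≤ (24 / 25)) :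
    ((926729 / 40000) + (-2470989 / 62500) * a + (1810359 / 50000) * a ^ 2) ≤ Sa a 3 := by
  have hu : 0 ≤ a - (93 / 100) := sub_nonneg.2 h0
  have hv : 0 ≤ (24 / 25) - a := sub_nonneg.2 h1
  have ha0 : 0 < a := by linarith
  have ha : a < 1 := by linarith
  have k := KS_le (a := a) (w := 3) ha0 ha (by norm_num) 7
  have k2 := KS_Hr (w := 3) (κ := 0) ha 7
  rw [zero_mul, add_zero] at k2
  rw [k2] at k
  refine le_trans ?_ k
  have s9 : 1 ≤ Hr a 3 0 1 9 :=
    Hr_lo' (Q := 0) (show (9 : ℝ) + 1 = 10 by norm_num) (by norm_num) (by linarith) le_rfl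
      (by linarith)
  have s8 : ((13759 / 10000) + (44127 / 1000000) * a + (8543 / 1000000) * a ^ 2) ≤ Hr a 3 0 2 8 :=
    Hr_lo' (Q := 1) (show (8 : ℝ) + 1 = 9 by norm_num) (by norm_num) (by linarith) s9
      (by linarith [bp hu hv 0 3, bp hu hv 1 2, bp hu hv 2 1, bp hu hv 3 0])
  have s7 : ((1593097 / 1000000) + (46381 / 500000) * a + (1137 / 40000) * a ^ 2) ≤ Hr a 3 0 3 7 :=
    Hr_lo' (Q := ((13759 / 10000) + (44127 / 1000000) * a + (8543 / 1000000) * a ^ 2)) (show (7 : ℝ) + 1 = 8 by norm_num) (by norm_num) (by linarith) s8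
      (by linarith [bp hu hv 0 3, bp hu hv 1 2, bp hu hv 2 1, bp hu hv 3 0])
  have s6 : ((1806911 / 1000000) + (147963 / 1000000) * a + (73693 / 1000000) * a ^ 2) ≤ Hr a 3 0 4 6 :=
    Hr_lo' (Q := ((1593097 / 1000000) + (46381 / 500000) * a + (1137 / 40000) * a ^ 2)) (show (6 : ℝ) + 1 = 7 by norm_num) (by norm_num) (by linarith) s7
      (by linarith [bp hu hv 0 3, bp hu hv 1 2, bp hu hv 2 1, bp hu hv 3 0])
  have s5 : ((211747 / 100000) + (103233 / 500000) * a + (4937 / 25000) * a ^ 2) ≤ Hr a 3 0 5 5 :=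
    Hr_lo' (Q := ((1806911 / 1000000) + (147963 / 1000000) * a + (73693 / 1000000) * a ^ 2)) (show (5 : ℝ) + 1 = 6 by norm_num) (by norm_num) (by linarith) s6
      (by linarith [bp hu hv 0 3, bp hu hv 1 2, bp hu hv 2 1, bp hu hv 3 0])
  have s4 : ((544711 / 200000) + (155671 / 1000000) * a + (128431 / 200000) * a ^ 2) ≤ Hr a 3 0 6 4 :=
    Hr_lo' (Q := ((211747 / 100000) + (103233 / 500000) * a + (4937 / 25000) * a ^ 2)) (show (4 : ℝ) + 1 = 5 by norm_num) (by norm_num) (by linarith) s5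
      (by linarith [bp hu hv 0 3, bp hu hv 1 2, bp hu hv 2 1, bp hu hv 3 0])
  have s3 : ((4595687 / 1000000) + (-1414809 / 1000000) * a + (3100943 / 1000000) * a ^ 2) ≤ Hr a 3 0 7 3 :=
    Hr_lo' (Q := ((544711 / 200000) + (155671 / 1000000) * a + (128431 / 200000) * a ^ 2)) (show (3 : ℝ) + 1 = 4 by norm_num) (by norm_num) (by linarith) s4
      (by linarith [bp hu hv 0 3, bp hu hv 1 2, bp hu hv 2 1, bp hu hv 3 0])
  have s2 : ((926729 / 40000) + (-2470989 / 62500) * a + (1810359 / 50000) * a ^ 2) ≤ Hr a 3 0 8 2 :=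
    Hr_lo' (Q := ((4595687 / 1000000) + (-1414809 / 1000000) * a + (3100943 / 1000000) * a ^ 2)) (show (2 : ℝ) + 1 = 3 by norm_num) (by norm_num) (by linarith) s3
      (by linarith [bp hu hv 0 3, bp hu hv 1 2, bp hu hv 2 1, bp hu hv 3 0])
  exact s2

/-- box of `K` -/
theorem K_IV {a : ℝ} (h0 : (93 / 100) ≤ a) (h1 : a ≤ (24 / 25)) :
    (37 / 12500) + (-1267 / 25000) * (a - (93 / 100)) + (1563 / 12500) * (a - (93 / 100)) ^ 2 ≤ KK a 3 / zz a 3 := by
  have hu : 0 ≤ a - (93 / 100) := sub_nonneg.2 h0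
  have hv : 0 ≤ (24 / 25) - a := sub_nonneg.2 h1
  have ha0 : 0 < a := by linarith
  have ha : a < 1 := by linarith
  have hK := KK_num (a := a) (a0 := (93 / 100)) (a1 := (24 / 25)) (c := 3) (sa := 3) (sb := 3)
    (lam := 0) (lap := 0) (lbm := 0) (lbp := 0)
    (q := 1) (r := 1) (L := (2137 / 10000))
    (by norm_num) h0 h1 (by norm_num) (by norm_num) (by norm_num) (by norm_num)
    (le_trans (by norm_num [EE, Finset.sum_range_succ, Nat.factorial]) (EE_le_exp 6 (by norm_num))) ((exp_le_EE 6 (by norm_num)).trans (by norm_num [EE, Finset.sum_range_succ, Nat.factorial]))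
    (le_trans (by norm_num [EE, Finset.sum_range_succ, Nat.factorial]) (EE_le_exp 6 (by norm_num))) ((exp_le_EE 6 (by norm_num)).trans (by norm_num [EE, Finset.sum_range_succ, Nat.factorial]))
    (le_trans (by norm_num [EE, Finset.sum_range_succ, Nat.factorial]) (mul_le_mul_of_nonneg_left (EE_le_exp 6 (by norm_num)) (by norm_num)))
    ((mul_le_mul_of_nonneg_left (exp_le_EE 6 (by norm_num)) (by norm_num)).trans (by norm_num [EE, Finset.sum_range_succ, Nat.factorial]))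
    (by linarith) (le_trans (by norm_num [EE, Finset.sum_range_succ, Nat.factorial]) (EE_le_exp 6 (by norm_num))) (le_trans (by norm_num [EE, Finset.sum_range_succ, Nat.factorial]) (EE_le_exp 6 (by norm_num))) (by norm_num)
    (LL_ge ha0.le h1 (by norm_num) (by norm_num) (by norm_num) (by norm_num)) (by norm_num)
    (by norm_num) (by linarith)
  refine Kbox_of ha0 ha (by norm_num) hK (Sa_up_IV h0 h1) (by nlinarith [bp hu hv 0 2, bp hu hv 1 1, bp hu hv 2 0]) ?_
  linarith [bp hu hv 0 5, bp hu hv 1 4, bp hu hv 2 3, bp hu hv 3 2, bp hu hv 4 1, bp hu hv 5 0]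

/-- box of `e` -/
theorem e_IV {a w : ℝ} (h0 : (93 / 100) ≤ a) (h1 : a ≤ (24 / 25)) (hw : w = (a - 3 / 100) * a * (1 - a)) :
    2 * ep a 3 (w / (1 - w) / 2) / zz a 3 ≤ (33 / 500000) + (-1 / 500) * (a - (93 / 100)) + (63 / 4000) * (a - (93 / 100)) ^ 2 := by
  have hu : 0 ≤ a - (93 / 100) := sub_nonneg.2 h0
  have hv : 0 ≤ (24 / 25) - a := sub_nonneg.2 h1
  have ha0 : 0 < a := by linarith
  have ha : a < 1 := by linarith
  have hw0 : 0 ≤ w := by rw [hw]; nlinarith [bp hu hv 0 3, bp hu hv 1 2, bp hu hv 2 1, bp hu hv 3 0]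
  have hw2 : w ≤ 2 * (4 / 125) * (1 - w) := by rw [hw]; nlinarith [bp hu hv 0 3, bp hu hv 1 2, bp hu hv 2 1, bp hu hv 3 0]
  have hw1 : w < 1 := by
    by_contra h
    linarith
  have h1w : 0 < 1 - w := by linarith
  have he0 : 0 ≤ w / (1 - w) / 2 := by positivity
  have hem : w / (1 - w) / 2 ≤ (4 / 125) := by
    rw [div_div, div_le_iff₀ (by positivity)]
    linarith
  have hE := ep_num (a := a) (a0 := (93 / 100)) (a1 := (24 / 25)) (c := 3) (s := 3) (e := w / (1 - w) / 2)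
    (em := (4 / 125)) (lm := 0) (lp := 0) (q := (1000001 / 1000000)) (r := (1000001 / 1000000))
    (g := 1) (L := (2137 / 10000)) (M0 := (10111 / 10000)) (M1 := (487 / 1250))
    (by norm_num) h0 h1 (by norm_num) (by norm_num) (by norm_num) he0 hem (by norm_num)
    (le_trans (by norm_num [EE, Finset.sum_range_succ, Nat.factorial]) (EE_le_exp 6 (by norm_num))) ((exp_le_EE 6 (by norm_num)).trans (by norm_num [EE, Finset.sum_range_succ, Nat.factorial]))
    (by norm_num) (by norm_num) ((exp_le_EE 6 (by norm_num)).trans (by norm_num [EE, Finset.sum_range_succ, Nat.factorial])) ((exp_le_EE 6 (by norm_num)).trans (by norm_num [EE, Finset.sum_range_succ, Nat.factorial]))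
    (exp_le_of (by norm_num) (le_trans (by norm_num [EE, Finset.sum_range_succ, Nat.factorial]) (EE_le_exp 6 (by norm_num)))) (by norm_num)
    (fun α h2 h3 => LL_ge (by linarith) h3 (by norm_num) (by norm_num) (by norm_num) (by norm_num))
    (fun α h2 h3 => by
      have hu' : 0 ≤ α - (449 / 500) := by linarith
      have hv' : 0 ≤ (24 / 25) - α := by linarith
      linarith [bp hu' hv' 0 3, bp hu' hv' 1 2, bp hu' hv' 2 1, bp hu' hv' 3 0])
    (by norm_num) (by norm_num)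
  refine ebox_of ha0 ha (by norm_num) hw1 rfl hE (Sa_lo_IV h0 h1) (by nlinarith [bp hu hv 0 2, bp hu hv 1 1, bp hu hv 2 0]) ?_
  rw [hw]
  linarith [bp hu hv 0 8, bp hu hv 1 7, bp hu hv 2 6, bp hu hv 3 5, bp hu hv 4 4, bp hu hv 5 3, bp hu hv 6 2, bp hu hv 7 1, bp hu hv 8 0]

end Pool.Agent.Lib.QNL.Ker43
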