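import Pool.Agent.Lib.QNL.Ker43H

/-!
# Boxes of the retained kernel: region I, left half
-/

set_option autoImplicit false

namespace Pool.Agent.Lib.QNL.Ker43

open Pool.Agent.Lib.QNL.Wts73 (zz psi)
open Pool.Agent.Lib.QNL.Enc (Sa KS KS_le le_KS po po_pos EE exp_le_EE EE_le_exp)

theorem Sa_up_Ia {a : ℝ} (h0 : (1 / 2) ≤ a) (h1 : a ≤ (63 / 100)) :
    Sa a (7 / 4) ≤ ((59273 / 20000) + (66807 / 1000000) * a + (622427 / 250000) * a ^ 2) := by
  have hu : 0 ≤ a - (1 / 2) := sub_nonneg.2 h0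
  have hv : 0 ≤ (63 / 100) - a := sub_nonneg.2 h1
  have ha0 : 0 < a := by linarith
  have ha : a < 1 := by linarith
  have k := le_KS (a := a) (w := (7 / 4)) (κ := (13 / 10)) ha0 ha (by norm_num) 7
    (by push_cast; linarith) (by push_cast; linarith)
  rw [KS_Hr ha] at k
  refine k.trans ?_
  have s9 : Hr a (7 / 4) (13 / 10) 1 9 ≤ ((626427 / 500000) + (27693 / 1000000) * a + (3791 / 1000000) * a ^ 2) :=
    Hr_up' (Q := (13 / 10)) (show (9 : ℝ) + 1 = 10 by norm_num) (by norm_num) (by linarith) le_rfl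
      (by linarith [bp hu hv 0 3, bp hu hv 1 2, bp hu hv 2 1, bp hu hv 3 0])
  have s8 : Hr a (7 / 4) (13 / 10) 2 8 ≤ ((637113 / 500000) + (4933 / 125000) * a + (7311 / 1000000) * a ^ 2) :=
    Hr_up' (Q := ((626427 / 500000) + (27693 / 1000000) * a + (3791 / 1000000) * a ^ 2)) (show (8 : ℝ) + 1 = 9 by norm_num) (by norm_num) (by linarith) s9
      (by linarith [bp hu hv 0 3, bp hu hv 1 2, bp hu hv 2 1, bp hu hv 3 0])
  have s7 : Hr a (7 / 4) (13 / 10) 3 7 ≤ ((659439 / 500000) + (5371 / 100000) * a + (1567 / 125000) * a ^ 2) :=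
    Hr_up' (Q := ((637113 / 500000) + (4933 / 125000) * a + (7311 / 1000000) * a ^ 2)) (show (7 : ℝ) + 1 = 8 by norm_num) (by norm_num) (by linarith) s8
      (by linarith [bp hu hv 0 3, bp hu hv 1 2, bp hu hv 2 1, bp hu hv 3 0])
  have s6 : Hr a (7 / 4) (13 / 10) 4 6 ≤ ((1385353 / 1000000) + (38131 / 500000) * a + (22811 / 1000000) * a ^ 2) :=
    Hr_up' (Q := ((659439 / 500000) + (5371 / 100000) * a + (1567 / 125000) * a ^ 2)) (show (6 : ℝ) + 1 = 7 by norm_num) (by norm_num) (by linarith) s7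
      (by linarith [bp hu hv 0 3, bp hu hv 1 2, bp hu hv 2 1, bp hu hv 3 0])
  have s5 : Hr a (7 / 4) (13 / 10) 5 5 ≤ ((185819 / 125000) + (2301 / 20000) * a + (46889 / 1000000) * a ^ 2) :=
    Hr_up' (Q := ((1385353 / 1000000) + (38131 / 500000) * a + (22811 / 1000000) * a ^ 2)) (show (5 : ℝ) + 1 = 6 by norm_num) (by norm_num) (by linarith) s6
      (by linarith [bp hu hv 0 3, bp hu hv 1 2, bp hu hv 2 1, bp hu hv 3 0])
  have s4 : Hr a (7 / 4) (13 / 10) 6 4 ≤ ((827789 / 500000) + (186431 / 1000000) * a + (364 / 3125) * a ^ 2) :=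
    Hr_up' (Q := ((185819 / 125000) + (2301 / 20000) * a + (46889 / 1000000) * a ^ 2)) (show (4 : ℝ) + 1 = 5 by norm_num) (by norm_num) (by linarith) s5
      (by linarith [bp hu hv 0 3, bp hu hv 1 2, bp hu hv 2 1, bp hu hv 3 0])
  have s3 : Hr a (7 / 4) (13 / 10) 7 3 ≤ ((248671 / 125000) + (9769 / 31250) * a + (79149 / 200000) * a ^ 2) :=
    Hr_up' (Q := ((827789 / 500000) + (186431 / 1000000) * a + (364 / 3125) * a ^ 2)) (show (3 : ℝ) + 1 = 4 by norm_num) (by norm_num) (by linarith) s4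
      (by linarith [bp hu hv 0 3, bp hu hv 1 2, bp hu hv 2 1, bp hu hv 3 0])
  have s2 : Hr a (7 / 4) (13 / 10) 8 2 ≤ ((59273 / 20000) + (66807 / 1000000) * a + (622427 / 250000) * a ^ 2) :=
    Hr_up' (Q := ((248671 / 125000) + (9769 / 31250) * a + (79149 / 200000) * a ^ 2)) (show (2 : ℝ) + 1 = 3 by norm_num) (by norm_num) (by linarith) s3
      (by linarith [bp hu hv 0 3, bp hu hv 1 2, bp hu hv 2 1, bp hu hv 3 0])
  exact s2

theorem Sa_lo_Ia {a : ℝ} (h0 : (1 / 2) ≤ a) (h1 : a ≤ (63 / 100)) :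
    ((1480777 / 500000) + (3391 / 50000) * a + (155423 / 62500) * a ^ 2) ≤ Sa a (7 / 4) := by
  have hu : 0 ≤ a - (1 / 2) := sub_nonneg.2 h0
  have hv : 0 ≤ (63 / 100) - a := sub_nonneg.2 h1
  have ha0 : 0 < a := by linarith
  have ha : a < 1 := by linarith
  have k := KS_le (a := a) (w := (7 / 4)) ha0 ha (by norm_num) 7
  have k2 := KS_Hr (w := (7 / 4)) (κ := 0) ha 7
  rw [zero_mul, add_zero] at k2
  rw [k2] at k
  refine le_trans ?_ k
  have s9 : 1 ≤ Hr a (7 / 4) 0 1 9 :=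
    Hr_lo' (Q := 0) (show (9 : ℝ) + 1 = 10 by norm_num) (by norm_num) (by linarith) le_rfl
      (by linarith)
  have s8 : ((304711 / 250000) + (839 / 31250) * a + (2129 / 500000) * a ^ 2) ≤ Hr a (7 / 4) 0 2 8 :=
    Hr_lo' (Q := 1) (show (8 : ℝ) + 1 = 9 by norm_num) (by norm_num) (by linarith) s9
      (by linarith [bp hu hv 0 3, bp hu hv 1 2, bp hu hv 2 1, bp hu hv 3 0])
  have s7 : ((1304981 / 1000000) + (24417 / 500000) * a + (1061 / 100000) * a ^ 2) ≤ Hr a (7 / 4) 0 3 7 :=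
    Hr_lo' (Q := ((304711 / 250000) + (839 / 31250) * a + (2129 / 500000) * a ^ 2)) (show (7 : ℝ) + 1 = 8 by norm_num) (by norm_num) (by linarith) s8
      (by linarith [bp hu hv 0 3, bp hu hv 1 2, bp hu hv 2 1, bp hu hv 3 0])
  have s6 : ((69063 / 50000) + (74353 / 1000000) * a + (1349 / 62500) * a ^ 2) ≤ Hr a (7 / 4) 0 4 6 :=
    Hr_lo' (Q := ((1304981 / 1000000) + (24417 / 500000) * a + (1061 / 100000) * a ^ 2)) (show (6 : ℝ) + 1 = 7 by norm_num) (by norm_num) (by linarith) s7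
      (by linarith [bp hu hv 0 3, bp hu hv 1 2, bp hu hv 2 1, bp hu hv 3 0])
  have s5 : ((37127 / 25000) + (114259 / 1000000) * a + (23 / 500) * a ^ 2) ≤ Hr a (7 / 4) 0 5 5 :=
    Hr_lo' (Q := ((69063 / 50000) + (74353 / 1000000) * a + (1349 / 62500) * a ^ 2)) (show (5 : ℝ) + 1 = 6 by norm_num) (by norm_num) (by linarith) s6
      (by linarith [bp hu hv 0 3, bp hu hv 1 2, bp hu hv 2 1, bp hu hv 3 0])
  have s4 : ((1654869 / 1000000) + (186109 / 1000000) * a + (57833 / 500000) * a ^ 2) ≤ Hr a (7 / 4) 0 6 4 :=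
    Hr_lo' (Q := ((37127 / 25000) + (114259 / 1000000) * a + (23 / 500) * a ^ 2)) (show (4 : ℝ) + 1 = 5 by norm_num) (by norm_num) (by linarith) s5
      (by linarith [bp hu hv 0 3, bp hu hv 1 2, bp hu hv 2 1, bp hu hv 3 0])
  have s3 : ((994387 / 500000) + (9769 / 31250) * a + (197327 / 500000) * a ^ 2) ≤ Hr a (7 / 4) 0 7 3 :=
    Hr_lo' (Q := ((1654869 / 1000000) + (186109 / 1000000) * a + (57833 / 500000) * a ^ 2)) (show (3 : ℝ) + 1 = 4 by norm_num) (by norm_num) (by linarith) s4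
      (by linarith [bp hu hv 0 3, bp hu hv 1 2, bp hu hv 2 1, bp hu hv 3 0])
  have s2 : ((1480777 / 500000) + (3391 / 50000) * a + (155423 / 62500) * a ^ 2) ≤ Hr a (7 / 4) 0 8 2 :=
    Hr_lo' (Q := ((994387 / 500000) + (9769 / 31250) * a + (197327 / 500000) * a ^ 2)) (show (2 : ℝ) + 1 = 3 by norm_num) (by norm_num) (by linarith) s3
      (by linarith [bp hu hv 0 3, bp hu hv 1 2, bp hu hv 2 1, bp hu hv 3 0])
  exact s2

/-- box of `K` -/
theorem K_Ia {a : ℝ} (h0 : (1 / 2) ≤ a) (h1 : a ≤ (63 / 100)) :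
    (1553 / 10000) + (-383 / 625) * (a - (1 / 2)) + (6871 / 10000) * (a - (1 / 2)) ^ 2 ≤ KK a (7 / 4) / zz a (7 / 4) := by
  have hu : 0 ≤ a - (1 / 2) := sub_nonneg.2 h0
  have hv : 0 ≤ (63 / 100) - a := sub_nonneg.2 h1
  have ha0 : 0 < a := by linarith
  have ha : a < 1 := by linarith
  have hK := KK_num (a := a) (a0 := (1 / 2)) (a1 := (63 / 100)) (c := (7 / 4)) (sa := (279 / 100)) (sb := (301 / 100))
    (lam := (23321 / 50000)) (lap := (46643 / 100000)) (lbm := (6779 / 12500)) (lbp := (54233 / 100000))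
    (q := (141827 / 500000)) (r := (76249 / 100000)) (L := (91 / 400))
    (by norm_num) h0 h1 (by norm_num) (by norm_num) (by norm_num) (by norm_num)
    (le_trans (by norm_num [EE, Finset.sum_range_succ, Nat.factorial]) (EE_le_exp 6 (by norm_num))) ((exp_le_EE 6 (by norm_num)).trans (by norm_num [EE, Finset.sum_range_succ, Nat.factorial]))
    (le_trans (by norm_num [EE, Finset.sum_range_succ, Nat.factorial]) (EE_le_exp 6 (by norm_num))) ((exp_le_EE 6 (by norm_num)).trans (by norm_num [EE, Finset.sum_range_succ, Nat.factorial]))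
    (le_trans (by norm_num [EE, Finset.sum_range_succ, Nat.factorial]) (mul_le_mul_of_nonneg_left (EE_le_exp 6 (by norm_num)) (by norm_num)))
    ((mul_le_mul_of_nonneg_left (exp_le_EE 6 (by norm_num)) (by norm_num)).trans (by norm_num [EE, Finset.sum_range_succ, Nat.factorial]))
    (by linarith) (le_trans (by norm_num [EE, Finset.sum_range_succ, Nat.factorial]) (EE_le_exp 6 (by norm_num))) (le_trans (by norm_num [EE, Finset.sum_range_succ, Nat.factorial]) (EE_le_exp 6 (by norm_num))) (by norm_num)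
    (LL_ge ha0.le h1 (by norm_num) (by norm_num) (by norm_num) (by norm_num)) (by norm_num)
    (by norm_num) (by linarith)
  refine Kbox_of ha0 ha (by norm_num) hK (Sa_up_Ia h0 h1) (by nlinarith [bp hu hv 0 2, bp hu hv 1 1, bp hu hv 2 0]) ?_
  linarith [bp hu hv 0 5, bp hu hv 1 4, bp hu hv 2 3, bp hu hv 3 2, bp hu hv 4 1, bp hu hv 5 0]

/-- box of `e` -/
theorem e_Ia {a w : ℝ} (h0 : (1 / 2) ≤ a) (h1 : a ≤ (63 / 100)) (hw : w = 4 / 5 * a * (1 - a)) :
    2 * ep a (7 / 4) (w / (1 - w) / 2) / zz a (7 / 4) ≤ (549 / 25000) + (-1237 / 12500) * (a - (1 / 2)) + (727 / 6250) * (a - (1 / 2)) ^ 2 := by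
  have hu : 0 ≤ a - (1 / 2) := sub_nonneg.2 h0
  have hv : 0 ≤ (63 / 100) - a := sub_nonneg.2 h1
  have ha0 : 0 < a := by linarith
  have ha : a < 1 := by linarith
  have hw0 : 0 ≤ w := by rw [hw]; nlinarith [bp hu hv 0 2, bp hu hv 1 1, bp hu hv 2 0]
  have hw2 : w ≤ 2 * (1 / 8) * (1 - w) := by rw [hw]; nlinarith [bp hu hv 0 2, bp hu hv 1 1, bp hu hv 2 0]
  have hw1 : w < 1 := by
    by_contra h
    linarith
  have h1w : 0 < 1 - w := by linarith
  have he0 : 0 ≤ w / (1 - w) / 2 := by positivity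
  have hem : w / (1 - w) / 2 ≤ (1 / 8) := by
    rw [div_div, div_le_iff₀ (by positivity)]
    linarith
  have hE := ep_num (a := a) (a0 := (1 / 2)) (a1 := (63 / 100)) (c := (7 / 4)) (s := (29 / 10)) (e := w / (1 - w) / 2)
    (em := (1 / 8)) (lm := (50509 / 100000)) (lp := (5051 / 10000)) (q := (316637 / 1000000)) (r := (388411 / 500000))
    (g := (53259 / 50000)) (L := (146 / 625)) (M0 := (12149 / 5000)) (M1 := (8043 / 10000))
    (by norm_num) h0 h1 (by norm_num) (by norm_num) (by norm_num) he0 hem (by norm_num)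
    (le_trans (by norm_num [EE, Finset.sum_range_succ, Nat.factorial]) (EE_le_exp 6 (by norm_num))) ((exp_le_EE 6 (by norm_num)).trans (by norm_num [EE, Finset.sum_range_succ, Nat.factorial]))
    (by norm_num) (by norm_num) ((exp_le_EE 6 (by norm_num)).trans (by norm_num [EE, Finset.sum_range_succ, Nat.factorial])) ((exp_le_EE 6 (by norm_num)).trans (by norm_num [EE, Finset.sum_range_succ, Nat.factorial]))
    (exp_le_of (by norm_num) (le_trans (by norm_num [EE, Finset.sum_range_succ, Nat.factorial]) (EE_le_exp 6 (by norm_num)))) (by norm_num)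
    (fun α h2 h3 => LL_ge (by linarith) h3 (by norm_num) (by norm_num) (by norm_num) (by norm_num))
    (fun α h2 h3 => by
      have hu' : 0 ≤ α - (3 / 8) := by linarith
      have hv' : 0 ≤ (63 / 100) - α := by linarith
      linarith [bp hu' hv' 0 3, bp hu' hv' 1 2, bp hu' hv' 2 1, bp hu' hv' 3 0])
    (by norm_num) (by norm_num)
  refine ebox_of ha0 ha (by norm_num) hw1 rfl hE (Sa_lo_Ia h0 h1) (by nlinarith [bp hu hv 0 2, bp hu hv 1 1, bp hu hv 2 0]) ?_
  rw [hw]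
  linarith [bp hu hv 0 7, bp hu hv 1 6, bp hu hv 2 5, bp hu hv 3 4, bp hu hv 4 3, bp hu hv 5 2, bp hu hv 6 1, bp hu hv 7 0]

end Pool.Agent.Lib.QNL.Ker43
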