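import Pool.Agent.Lib.QNL.Ker43Ia
import Pool.Agent.Lib.QNL.Ker43Ib
import Pool.Agent.Lib.QNL.Ker43II

/-!
# The boxes of the retained kernel in regions I and II (frozen table)
-/

set_option autoImplicit false

namespace Pool.Agent.Lib.QNL.Ker43

open Pool.Agent.Lib.QNL.Wts73 (zz)

/-- region I, `K` -/
theorem K_I {a : ℝ} (h0 : 1 / 2 ≤ a) (h1 : a ≤ 19 / 25) :
    1553 / 10000 - 383 / 625 * (a - 1 / 2) + 6871 / 10000 * ((a - 1 / 2) * (a - 1 / 2)) ≤
      KK a (7 / 4) / zz a (7 / 4) := by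
  rcases le_total a (63 / 100) with h | h
  · refine le_trans (le_of_eq ?_) (K_Ia (by linarith) (by linarith))
    ring
  · refine le_trans (le_of_eq ?_) (K_Ib (by linarith) (by linarith))
    ring

/-- region I, `e` -/
theorem e_I {a : ℝ} (h0 : 1 / 2 ≤ a) (h1 : a ≤ 19 / 25) :
    2 * ep a (7 / 4) (4 / 5 * a * (1 - a) / (2 * (1 - 4 / 5 * a * (1 - a)))) / zz a (7 / 4) ≤
      549 / 25000 - 1237 / 12500 * (a - 1 / 2) + 727 / 6250 * ((a - 1 / 2) * (a - 1 / 2)) := by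
  have e1 : 4 / 5 * a * (1 - a) / (2 * (1 - 4 / 5 * a * (1 - a))) =
      4 / 5 * a * (1 - a) / (1 - 4 / 5 * a * (1 - a)) / 2 := by
    rw [div_div, mul_comm (1 - 4 / 5 * a * (1 - a)) 2]
  rw [e1]
  rcases le_total a (63 / 100) with h | h
  · refine (e_Ia (by linarith) (by linarith) rfl).trans (le_of_eq ?_)
    ring
  · refine (e_Ib (by linarith) (by linarith) rfl).trans (le_of_eq ?_)
    ring

/-- region II, `K` -/
theorem K_II' {a : ℝ} (h0 : 19 / 25 ≤ a) (h1 : a ≤ 43 / 50) :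
    73 / 2000 - 297 / 1250 * (a - 19 / 25) + 1981 / 5000 * ((a - 19 / 25) * (a - 19 / 25)) ≤
      KK a 2 / zz a 2 := by
  refine le_trans (le_of_eq ?_) (K_II (by linarith) (by linarith))
  ring

/-- region II, `e` -/
theorem e_II' {a : ℝ} (h0 : 19 / 25 ≤ a) (h1 : a ≤ 43 / 50) :
    2 * ep a 2 ((6 / 25 + 3 / 4 * a) * a * (1 - a) / (2 * (1 - (6 / 25 + 3 / 4 * a) * a * (1 - a)))) /
      zz a 2 ≤
      307 / 100000 - 1401 / 50000 * (a - 19 / 25) + 3357 / 50000 * ((a - 19 / 25) * (a - 19 / 25)) := by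
  have e1 : (6 / 25 + 3 / 4 * a) * a * (1 - a) / (2 * (1 - (6 / 25 + 3 / 4 * a) * a * (1 - a))) =
      (6 / 25 + 3 / 4 * a) * a * (1 - a) / (1 - (6 / 25 + 3 / 4 * a) * a * (1 - a)) / 2 := by
    rw [div_div, mul_comm (1 - (6 / 25 + 3 / 4 * a) * a * (1 - a)) 2]
  rw [e1]
  refine (e_II (by linarith) (by linarith) rfl).trans (le_of_eq ?_)
  ring

end Pool.Agent.Lib.QNL.Ker43
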