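import Pool.Agent.Lib.QNL.Poly66K

/-!
# Region I of the final certificate
-/

set_option autoImplicit false

namespace Pool.Agent.Lib.QNL.Poly66.RI

open Pool.Agent.Lib.QNL.PolyPos Pool.Agent.Lib.QNL.Poly66 Pool.Agent.Lib.QNL.PolyKron

theorem c1 : PosOn (gRL g.A g.W g.BE g.MU g.FE g.KE g.EE Ex.z) ⟨0, 13, 50⟩ :=
  posOn_of_split 3 26 5 264 (by decide) (by decide +kernel) (by decide +kernel)

theorem c2 : PosOn (gRU g.A g.W g.BE g.MU g.FE g.KE g.EE Ex.z) ⟨0, 13, 50⟩ :=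
  posOn_of 3 26 5 260 (by decide) (by decide +kernel)

theorem c3 : PosOn (gLL g.A g.W g.BE g.MU g.FE g.KE g.EE Ex.z) ⟨0, 13, 50⟩ :=
  posOn_of 3 20 5 210 (by decide) (by decide +kernel)

theorem c4 : PosOn (gLP g.A g.W g.BE g.MU g.FE g.KE g.EE Ex.z) ⟨0, 13, 50⟩ :=
  posOn_of 3 22 6 228 (by decide) (by decide +kernel)

theorem c5 : PosOn (qE g.A g.W g.BE g.MU Ex.z) ⟨0, 13, 50⟩ :=
  posOn_of 1 7 2 72 (by decide) (by decide +kernel)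

/-- **region I** -/
theorem key {a mu F K e : ℝ} (ha0 : 1 / 2 ≤ a) (ha1 : a ≤ 19 / 25)
    (hmu0 : 609 / 1000 + 63 / 125 * (a - 1 / 2) + 431 / 1000 * ((a - 1 / 2) * (a - 1 / 2)) ≤ mu)
    (hmu1 : mu ≤ 143 / 200 + 331 / 500 * (a - 1 / 2) + 567 / 1000 * ((a - 1 / 2) * (a - 1 / 2)))
    (hF : 979 / 1250 + 777 / 1000 * (a - 1 / 2) - 7711 / 10000 * ((a - 1 / 2) * (a - 1 / 2)) ≤ F)
    (hK : 1553 / 10000 - 383 / 625 * (a - 1 / 2) + 6871 / 10000 * ((a - 1 / 2) * (a - 1 / 2)) ≤ K) (hK1 : K ≤ 1)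
    (he0 : 0 ≤ e) (he : e ≤ 549 / 25000 - 1237 / 12500 * (a - 1 / 2) + 727 / 6250 * ((a - 1 / 2) * (a - 1 / 2))) :
    Key a (4 / 5 * a * (1 - a)) (49 / 20 + 39 / 10 * (a - 1 / 2) - 36 / 5 * ((a - 1 / 2) * (a - 1 / 2))) mu F K e := by
  obtain ⟨t, rfl⟩ : ∃ t : ℝ, a = t + 1 / 2 := ⟨a - 1 / 2, by ring⟩
  have e0 : t + 1 / 2 - 1 / 2 = t := by ring
  rw [e0] at hmu0 hmu1 hF hK he
  have ht0 : 0 ≤ t := by linarith
  have ht1 : t ≤ 13 / 50 := by linarith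
  have ht2 : t * t ≤ 13 / 50 * t := mul_le_mul_of_nonneg_right ht1 ht0
  have ht3 : 0 ≤ t * t := mul_nonneg ht0 ht0
  have hS : KS.mem ⟨0, 13, 50⟩ t := by
    constructor
    · push_cast; linarith
    · push_cast; linarith
  have h := regionK g (val t) hS c1 c2 c3 c4 c5 (mu := mu) (F := F) (K := K) (e := e)
    (by nlinarith) hmu0 hmu1 (by linarith) (by linarith) (by nlinarith) (by nlinarith)
    (by nlinarith) (by nlinarith) (by nlinarith) hF hK hK1 he0 he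
  simpa only [e0] using h

end Pool.Agent.Lib.QNL.Poly66.RI
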