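import Pool.Agent.Lib.QNL.Poly66K

/-!
# Region III of the final certificate
-/

set_option autoImplicit false

namespace Pool.Agent.Lib.QNL.Poly66.RIII

open Pool.Agent.Lib.QNL.PolyPos Pool.Agent.Lib.QNL.Poly66 Pool.Agent.Lib.QNL.PolyKron

theorem c1 : PosOn (gRL g.A g.W g.BE g.MU g.FE g.KE g.EE Ex.z) ⟨0, 7, 100⟩ :=
  posOn_of 3 33 5 322 (by decide) (by decide +kernel)

theorem c2 : PosOn (gRU g.A g.W g.BE g.MU g.FE g.KE g.EE Ex.z) ⟨0, 7, 100⟩ :=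
  posOn_of 3 33 5 322 (by decide) (by decide +kernel)

theorem c3 : PosOn (gLL g.A g.W g.BE g.MU g.FE g.KE g.EE Ex.z) ⟨0, 7, 100⟩ :=
  posOn_of 3 24 5 248 (by decide) (by decide +kernel)

theorem c4 : PosOn (gLP g.A g.W g.BE g.MU g.FE g.KE g.EE Ex.z) ⟨0, 7, 100⟩ :=
  posOn_of 3 27 6 272 (by decide) (by decide +kernel)

theorem c5 : PosOn (qE g.A g.W g.BE g.MU Ex.z) ⟨0, 7, 100⟩ :=
  posOn_of 1 9 2 90 (by decide) (by decide +kernel)

/-- **region III** -/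
theorem key {a mu F K e : ℝ} (ha0 : 43 / 50 ≤ a) (ha1 : a ≤ 93 / 100)
    (hmu0 : 1017 / 1000 + 173 / 200 * (a - 43 / 50) + 149 / 200 * ((a - 43 / 50) * (a - 43 / 50)) ≤ mu)
    (hmu1 : mu ≤ 333 / 250 + 1257 / 1000 * (a - 43 / 50) + 39 / 40 * ((a - 43 / 50) * (a - 43 / 50)))
    (hF : 4919 / 5000 + 1511 / 10000 * (a - 43 / 50) - 1377 / 5000 * ((a - 43 / 50) * (a - 43 / 50)) ≤ F)
    (hK : 1111 / 100000 - 433 / 4000 * (a - 43 / 50) + 21943 / 100000 * ((a - 43 / 50) * (a - 43 / 50)) ≤ K) (hK1 : K ≤ 1)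
    (he0 : 0 ≤ e) (he : e ≤ 13 / 25000 - 401 / 50000 * (a - 43 / 50) + 403 / 12500 * ((a - 43 / 50) * (a - 43 / 50))) :
    Key a ((a - 1 / 100) * a * (1 - a)) (99 / 25) mu F K e := by
  obtain ⟨t, rfl⟩ : ∃ t : ℝ, a = t + 43 / 50 := ⟨a - 43 / 50, by ring⟩
  have e0 : t + 43 / 50 - 43 / 50 = t := by ring
  rw [e0] at hmu0 hmu1 hF hK he
  have ht0 : 0 ≤ t := by linarith
  have ht1 : t ≤ 7 / 100 := by linarith
  have ht2 : t * t ≤ 7 / 100 * t := mul_le_mul_of_nonneg_right ht1 ht0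
  have ht3 : 0 ≤ t * t := mul_nonneg ht0 ht0
  have hS : KS.mem ⟨0, 7, 100⟩ t := by
    constructor
    · push_cast; linarith
    · push_cast; linarith
  have h := regionK g (val t) hS c1 c2 c3 c4 c5 (mu := mu) (F := F) (K := K) (e := e)
    (by nlinarith) hmu0 hmu1 (by linarith) (by linarith) (by nlinarith) (by nlinarith)
    (by nlinarith) (by nlinarith) (by nlinarith) hF hK hK1 he0 he
  simpa only [e0] using h

end Pool.Agent.Lib.QNL.Poly66.RIII
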