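import Pool.Agent.Lib.QNL.Dat95
import Pool.Agent.Lib.QNL.Box20v3
import Pool.Agent.Lib.QNL.Poly66I
import Pool.Agent.Lib.QNL.Poly66II
import Pool.Agent.Lib.QNL.Poly66III
import Pool.Agent.Lib.QNL.Poly66IV

/-!
Group N: the regions I - IV from the bounds of the retained kernel (`KN`, `eN`) and of the levels
`≥ 1` (`Tail1`).
-/

set_option autoImplicit false

namespace Pool.Agent.Lib.QNL.CG

open Pool.Agent.Lib.QNL
open Pool.Agent.Lib.QNL.Wts73
open Pool.Agent.Lib.QNL.Tail35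

theorem regionI
    (hK : ∀ a : ℝ, 1 / 2 ≤ a → a ≤ 19 / 25 → KI a ≤ KN a (7 / 4))
    (he : ∀ a : ℝ, 1 / 2 ≤ a → a ≤ 19 / 25 → eN a (7 / 4) (wI a) ≤ eI a)
    (htail : ∀ n : ℕ, 2 ≤ n → ∀ a : ℝ, 1 / 2 < a → a < 1 → 1 / 2 ≤ a → a ≤ 19 / 25 →
      Tail1 n (1 / a) a (bs n a (7 / 4)) (Ymx (wI a))
        (fun Y => Lam n (1 / a) a (bs n a (7 / 4)) 1 / (1 - beI a * Y))) :
    RegionOK 2 (1 / 2) (19 / 25) := by
  refine regionOK_of (F' := FI) (K' := KI) (e' := eI) (m1 := mlI) (m2 := muI) (by norm_num)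
    (by norm_num) (fun a _ _ h1 h2 => hwI h1 h2) (fun a _ _ h1 h2 => hendI h1 h2) ?_ ?_
    (fun a _ _ h1 h2 => hK a h1 h2) (fun a _ _ h1 h2 => he a h1 h2) htail ?_
  · intro a _ _ h1 h2
    have h := Box20v3.F0_I h1 h2
    unfold FI
    linarith
  · intro n hn a _ _ h1 h2
    have h := Box20v3.le_muN_I h1 h2 hn
    have h' := Box20v3.muN_le_I h1 h2 n
    unfold mlI muI
    constructor <;> linarith
  · intro a _ _ h1 h2 mu F K e hm1 hm2 hF hK hK1 he0 he1
    unfold mlI at hm1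
    unfold muI at hm2
    unfold FI at hF
    unfold KI at hK
    unfold eI at he1
    have h := Poly66.RI.key h1 h2 (mu := mu) (F := F) (K := K) (e := e) (by linarith)
      (by linarith) (by linarith) (by linarith) hK1 he0 (by linarith)
    have e1 : beI a = 49 / 20 + 39 / 10 * (a - 1 / 2) - 36 / 5 * ((a - 1 / 2) * (a - 1 / 2)) := by
      unfold beI
      ring
    rw [e1]
    exact h

theorem regionII
    (hK : ∀ a : ℝ, 19 / 25 ≤ a → a ≤ 43 / 50 → KII a ≤ KN a 2)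
    (he : ∀ a : ℝ, 19 / 25 ≤ a → a ≤ 43 / 50 → eN a 2 (wII a) ≤ eII a)
    (htail : ∀ n : ℕ, 2 ≤ n → ∀ a : ℝ, 1 / 2 < a → a < 1 → 19 / 25 ≤ a → a ≤ 43 / 50 →
      Tail1 n (1 / a) a (bs n a 2) (Ymx (wII a))
        (fun Y => Lam n (1 / a) a (bs n a 2) 1 / (1 - beII a * Y))) :
    RegionOK 2 (19 / 25) (43 / 50) := by
  refine regionOK_of (F' := FII) (K' := KII) (e' := eII) (m1 := mlII) (m2 := muII) (by norm_num)
    (by norm_num) (fun a _ _ h1 h2 => hwII h1 h2) (fun a _ _ h1 h2 => hendII h1 h2) ?_ ?_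
    (fun a _ _ h1 h2 => hK a h1 h2) (fun a _ _ h1 h2 => he a h1 h2) htail ?_
  · intro a _ _ h1 h2
    have h := Box20v3.F0_II h1 h2
    unfold FII
    linarith
  · intro n hn a _ _ h1 h2
    have h := Box20v3.le_muN_II h1 h2 hn
    have h' := Box20v3.muN_le_II h1 h2 n
    unfold mlII muII
    constructor <;> linarith
  · intro a _ _ h1 h2 mu F K e hm1 hm2 hF hK hK1 he0 he1
    unfold mlII at hm1
    unfold muII at hm2
    unfold FII at hF
    unfold KII at hK
    unfold eII at he1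
    have h := Poly66.RII.key h1 h2 (mu := mu) (F := F) (K := K) (e := e) (by linarith)
      (by linarith) (by linarith) (by linarith) hK1 he0 (by linarith)
    have e1 : beII a = 83 / 25 + 9 / 10 * (a - 19 / 25) := by
      unfold beII
      ring
    rw [e1]
    exact h

theorem regionIII
    (hK : ∀ a : ℝ, 43 / 50 ≤ a → a ≤ 93 / 100 → KIII a ≤ KN a (5 / 2))
    (he : ∀ a : ℝ, 43 / 50 ≤ a → a ≤ 93 / 100 → eN a (5 / 2) (wIII a) ≤ eIII a)
    (htail : ∀ n : ℕ, 2 ≤ n → ∀ a : ℝ, 1 / 2 < a → a < 1 → 43 / 50 ≤ a → a ≤ 93 / 100 →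
      Tail1 n (1 / a) a (bs n a (5 / 2)) (Ymx (wIII a))
        (fun Y => Lam n (1 / a) a (bs n a (5 / 2)) 1 / (1 - beIII a * Y))) :
    RegionOK 2 (43 / 50) (93 / 100) := by
  refine regionOK_of (F' := FIII) (K' := KIII) (e' := eIII) (m1 := mlIII) (m2 := muIII)
    (by norm_num) (by norm_num) (fun a _ _ h1 h2 => hwIII h1 h2)
    (fun a _ _ h1 h2 => hendIII h1 h2) ?_ ?_
    (fun a _ _ h1 h2 => hK a h1 h2) (fun a _ _ h1 h2 => he a h1 h2) htail ?_
  · intro a _ _ h1 h2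
    have h := Box20v3.F0_III h1 h2
    unfold FIII
    linarith
  · intro n hn a _ _ h1 h2
    have h := Box20v3.le_muN_III h1 h2 hn
    have h' := Box20v3.muN_le_III h1 h2 n
    unfold mlIII muIII
    constructor <;> linarith
  · intro a _ _ h1 h2 mu F K e hm1 hm2 hF hK hK1 he0 he1
    unfold mlIII at hm1
    unfold muIII at hm2
    unfold FIII at hF
    unfold KIII at hK
    unfold eIII at he1
    have h := Poly66.RIII.key h1 h2 (mu := mu) (F := F) (K := K) (e := e) (by linarith)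
      (by linarith) (by linarith) (by linarith) hK1 he0 (by linarith)
    have e1 : beIII a = 99 / 25 := by
      unfold beIII
      norm_num
    rw [e1]
    exact h

theorem regionIV
    (hK : ∀ a : ℝ, 93 / 100 ≤ a → a ≤ 24 / 25 → KIV a ≤ KN a 3)
    (he : ∀ a : ℝ, 93 / 100 ≤ a → a ≤ 24 / 25 → eN a 3 (wIV a) ≤ eIV a)
    (htail : ∀ n : ℕ, 2 ≤ n → ∀ a : ℝ, 1 / 2 < a → a < 1 → 93 / 100 ≤ a → a ≤ 24 / 25 →
      Tail1 n (1 / a) a (bs n a 3) (Ymx (wIV a))
        (fun Y => Lam n (1 / a) a (bs n a 3) 1 / (1 - beIV a * Y))) :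
    RegionOK 2 (93 / 100) (24 / 25) := by
  refine regionOK_of (F' := FIV) (K' := KIV) (e' := eIV) (m1 := mlIV) (m2 := muIV)
    (by norm_num) (by norm_num) (fun a _ _ h1 h2 => hwIV h1 h2)
    (fun a _ _ h1 h2 => hendIV h1 h2) ?_ ?_
    (fun a _ _ h1 h2 => hK a h1 h2) (fun a _ _ h1 h2 => he a h1 h2) htail ?_
  · intro a _ _ h1 h2
    have h := Box20v3.F0_IV h1 h2
    unfold FIV
    linarith
  · intro n hn a _ _ h1 h2
    have h := Box20v3.le_muN_IV h1 h2 hn
    have h' := Box20v3.muN_le_IV h1 h2 n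
    unfold mlIV muIV
    constructor <;> linarith
  · intro a _ _ h1 h2 mu F K e hm1 hm2 hF hK hK1 he0 he1
    unfold mlIV at hm1
    unfold muIV at hm2
    unfold FIV at hF
    unfold KIV at hK
    unfold eIV at he1
    have h := Poly66.RIV.key h1 h2 (mu := mu) (F := F) (K := K) (e := e) (by linarith)
      (by linarith) (by linarith) (by linarith) hK1 he0 (by linarith)
    have e1 : beIV a = 112 / 25 := by
      unfold beIV
      norm_num
    rw [e1]
    exact h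

end Pool.Agent.Lib.QNL.CG
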