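import Pool.Agent.Lib.QNL.Ker43N
import Pool.Agent.Lib.QNL.Ker43III
import Pool.Agent.Lib.QNL.Ker43IV
import Pool.Agent.Lib.QNL.RegB95

/-!
# The boxes of the retained kernel in the literal shape of `RegB95`, all four regions
-/

set_option autoImplicit false

namespace Pool.Agent.Lib.QNL.Ker43

open Pool.Agent.Lib.QNL.Wts73 (zz)
open Pool.Agent.Lib.QNL.CG

theorem eN_eq (a c w : ℝ) : eN a c w = 2 * ep a c (w / (1 - w) / 2) / zz a c := by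
  unfold eN
  rw [div_div, mul_comm (1 - w) 2]

theorem hKI : ∀ a : ℝ, 1 / 2 ≤ a → a ≤ 19 / 25 → KI a ≤ KN a (7 / 4) := fun a h0 h1 =>
  (le_of_eq (by unfold KI; ring)).trans (K_I h0 h1)

theorem heI : ∀ a : ℝ, 1 / 2 ≤ a → a ≤ 19 / 25 → eN a (7 / 4) (wI a) ≤ eI a := fun a h0 h1 =>
  (e_I h0 h1).trans (le_of_eq (by unfold eI; ring))

theorem hKII : ∀ a : ℝ, 19 / 25 ≤ a → a ≤ 43 / 50 → KII a ≤ KN a 2 := fun a h0 h1 =>
  (le_of_eq (by unfold KII; ring)).trans (K_II' h0 h1)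

theorem heII : ∀ a : ℝ, 19 / 25 ≤ a → a ≤ 43 / 50 → eN a 2 (wII a) ≤ eII a := fun a h0 h1 =>
  (e_II' h0 h1).trans (le_of_eq (by unfold eII; ring))

theorem hKIII : ∀ a : ℝ, 43 / 50 ≤ a → a ≤ 93 / 100 → KIII a ≤ KN a (5 / 2) := fun a h0 h1 =>
  (le_of_eq (by unfold KIII; ring)).trans (K_III h0 h1)

theorem heIII : ∀ a : ℝ, 43 / 50 ≤ a → a ≤ 93 / 100 → eN a (5 / 2) (wIII a) ≤ eIII a :=
  fun a h0 h1 => by
    rw [eN_eq]
    exact (e_III h0 h1 rfl).trans (le_of_eq (by unfold eIII; ring))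

theorem hKIV : ∀ a : ℝ, 93 / 100 ≤ a → a ≤ 24 / 25 → KIV a ≤ KN a 3 := fun a h0 h1 =>
  (le_of_eq (by unfold KIV; ring)).trans (K_IV h0 h1)

theorem heIV : ∀ a : ℝ, 93 / 100 ≤ a → a ≤ 24 / 25 → eN a 3 (wIV a) ≤ eIV a :=
  fun a h0 h1 => by
    rw [eN_eq]
    exact (e_IV h0 h1 rfl).trans (le_of_eq (by unfold eIV; ring))

end Pool.Agent.Lib.QNL.Ker43
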