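import Mathlib

/-!
QNL, group C: level functions of nested families, the layer cake formulas for one and two families,
and the abstract `L²` contraction.
-/

set_option autoImplicit false

namespace Pool.Agent.Lib.QNL.Lev32

open MeasureTheory Filter Topology Set
open scoped ENNReal

variable {α : Type*}

/-- The level function of a nested family. -/
noncomputable def lv (A : ℝ → Set α) (z : α) : ℝ := sSup {s : ℝ | 0 < s ∧ z ∈ A s}

/-- Nested families of measurable sets, empty for large levels. -/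
structure Nest [MeasurableSpace α] (A : ℝ → Set α) : Prop where
  meas : ∀ s, 0 < s → MeasurableSet (A s)
  anti : ∀ s s', 0 < s → s ≤ s' → A s' ⊆ A s
  top : ∃ M : ℝ, 0 ≤ M ∧ ∀ s, M < s → A s = ∅

section basic
variable [MeasurableSpace α] {A : ℝ → Set α}

omit [MeasurableSpace α] in
theorem lv_nonneg (A : ℝ → Set α) (z : α) : 0 ≤ lv A z :=
  Real.sSup_nonneg fun _ hs => hs.1.le

theorem Nest.bddAbove (h : Nest A) (z : α) : BddAbove {s : ℝ | 0 < s ∧ z ∈ A s} := by
  obtain ⟨M, -, hM⟩ := h.top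
  refine ⟨M, fun s hs => ?_⟩
  by_contra h1
  push Not at h1
  have := hs.2
  rw [hM s h1] at this
  exact this

theorem Nest.le_lv (h : Nest A) {z : α} {s : ℝ} (hs : 0 < s) (hz : z ∈ A s) : s ≤ lv A z :=
  le_csSup (h.bddAbove z) ⟨hs, hz⟩

/-- `s < lv A z` iff `z ∈ A s'` for some `s' > s`. -/
theorem Nest.lt_lv (_h : Nest A) {z : α} {s : ℝ} (hs : 0 ≤ s) (hlt : s < lv A z) :
    ∃ s', s < s' ∧ z ∈ A s' := by
  have hne : {s : ℝ | 0 < s ∧ z ∈ A s}.Nonempty := by
    by_contra h1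
    rw [not_nonempty_iff_eq_empty] at h1
    rw [lv, h1, Real.sSup_empty] at hlt
    linarith
  obtain ⟨s', hs', h2⟩ := exists_lt_of_lt_csSup hne hlt
  exact ⟨s', h2, hs'.2⟩

theorem Nest.mem_of_lt_lv (h : Nest A) {z : α} {s : ℝ} (hs : 0 < s) (hlt : s < lv A z) :
    z ∈ A s := by
  obtain ⟨s', h1, h2⟩ := h.lt_lv hs.le hlt
  exact h.anti s s' hs h1.le h2

theorem Nest.not_mem_of_lv_lt (h : Nest A) {z : α} {s : ℝ} (hs : 0 < s) (hlt : lv A z < s) :
    z ∉ A s := fun hz => absurd (h.le_lv hs hz) (not_le.2 hlt)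

theorem Nest.lv_le_of_not_mem (h : Nest A) {z : α} {s : ℝ} (hs : 0 < s) (hz : z ∉ A s) :
    lv A z ≤ s := by
  by_contra h1
  push Not at h1
  exact hz (h.mem_of_lt_lv hs h1)

theorem Nest.exists_lv_le (h : Nest A) : ∃ M : ℝ, 0 ≤ M ∧ ∀ z, lv A z ≤ M := by
  obtain ⟨M, hM0, hM⟩ := h.top
  refine ⟨M, hM0, fun z => ?_⟩
  by_contra h1
  push Not at h1
  obtain ⟨s', h2, h3⟩ := h.lt_lv hM0 h1
  rw [hM s' h2] at h3
  exact h3

theorem Nest.measurable (h : Nest A) : Measurable (lv A) := by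
  refine measurable_of_Ioi fun a => ?_
  rcases lt_or_ge a 0 with ha | ha
  · have : lv A ⁻¹' Ioi a = univ := by
      ext z
      simp only [mem_preimage, mem_Ioi, mem_univ, iff_true]
      exact ha.trans_le (lv_nonneg A z)
    rw [this]
    exact MeasurableSet.univ
  · have : lv A ⁻¹' Ioi a = ⋃ q : {q : ℚ // a < q}, A (q.1 : ℝ) := by
      ext z
      simp only [mem_preimage, mem_Ioi, mem_iUnion]
      constructor
      · intro h1
        obtain ⟨s', h2, h3⟩ := h.lt_lv ha h1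
        obtain ⟨q, hq1, hq2⟩ := exists_rat_btwn h2
        exact ⟨⟨q, hq1⟩, h.anti _ s' (ha.trans_lt hq1) hq2.le h3⟩
      · rintro ⟨q, hq⟩
        exact q.2.trans_le (h.le_lv (ha.trans_lt q.2) hq)
    rw [this]
    exact MeasurableSet.iUnion fun q => h.meas _ (ha.trans_lt q.2)

theorem lv_mono {A B : ℝ → Set α} (hB : Nest B) (h : ∀ s, 0 < s → A s ⊆ B s) (z : α) :
    lv A z ≤ lv B z := by
  by_cases hne : {s : ℝ | 0 < s ∧ z ∈ A s}.Nonempty
  · exact csSup_le hne fun s hs => hB.le_lv hs.1 (h s hs.1 hs.2)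
  · rw [not_nonempty_iff_eq_empty] at hne
    rw [lv, hne, Real.sSup_empty]
    exact lv_nonneg B z

end basic

/-! ### The layer cake with one parameter -/

section cake
variable [MeasurableSpace α] {μ : Measure α} [SFinite μ]

/-- Tonelli for sets which are sandwiched between `{u < s < v}` and `{u ≤ s ≤ v}`. -/
theorem sandwich {f : ℝ → ℝ≥0∞} (hf : Measurable f) {S : ℝ → Set α} {u v : α → ℝ}
    (hu : Measurable u) (hv : Measurable v)
    (h1 : ∀ s, 0 < s → {z | u z < s ∧ s < v z} ⊆ S s)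
    (h2 : ∀ s, 0 < s → S s ⊆ {z | u z ≤ s ∧ s ≤ v z}) :
    ∫⁻ s in Ioi (0 : ℝ), f s * μ (S s) =
      ∫⁻ z, (∫⁻ s in Ioi (0 : ℝ), (Ioo (u z) (v z)).indicator f s) ∂μ := by
  have hm1 : MeasurableSet {q : ℝ × α | u q.2 < q.1 ∧ q.1 < v q.2} :=
    (measurableSet_lt (hu.comp measurable_snd) measurable_fst).inter
      (measurableSet_lt measurable_fst (hv.comp measurable_snd))
  have hm2 : MeasurableSet {q : ℝ × α | u q.2 ≤ q.1 ∧ q.1 ≤ v q.2} :=
    (measurableSet_le (hu.comp measurable_snd) measurable_fst).inter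
      (measurableSet_le measurable_fst (hv.comp measurable_snd))
  have key : ∀ E : Set (ℝ × α), MeasurableSet E →
      ∫⁻ s in Ioi (0 : ℝ), f s * μ {z | (s, z) ∈ E} =
        ∫⁻ z, (∫⁻ s in Ioi (0 : ℝ), {s | (s, z) ∈ E}.indicator f s) ∂μ := by
    intro E hE
    have e1 : ∀ s, f s * μ {z | (s, z) ∈ E} = ∫⁻ z, E.indicator (fun q => f q.1) (s, z) ∂μ := by
      intro s
      have hs : MeasurableSet {z | (s, z) ∈ E} := measurable_prodMk_left hE
      rw [← lintegral_indicator_const hs]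
      refine lintegral_congr fun z => ?_
      by_cases hz : (s, z) ∈ E
      · rw [indicator_of_mem hz, indicator_of_mem (by exact hz)]
      · rw [indicator_of_notMem hz, indicator_of_notMem (by exact hz)]
    simp only [e1]
    rw [lintegral_lintegral_swap]
    · refine lintegral_congr fun z => lintegral_congr fun s => ?_
      by_cases hz : (s, z) ∈ E
      · rw [indicator_of_mem hz, indicator_of_mem (by exact hz)]
      · rw [indicator_of_notMem hz, indicator_of_notMem (by exact hz)]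
    · exact ((hf.comp measurable_fst).indicator hE).aemeasurable
  apply le_antisymm
  · calc ∫⁻ s in Ioi (0 : ℝ), f s * μ (S s)
        ≤ ∫⁻ s in Ioi (0 : ℝ), f s * μ {z | (s, z) ∈ {q : ℝ × α | u q.2 ≤ q.1 ∧ q.1 ≤ v q.2}} := by
          refine setLIntegral_mono' measurableSet_Ioi fun s hs => ?_
          exact mul_le_mul_right (measure_mono (h2 s hs)) _
      _ = ∫⁻ z, (∫⁻ s in Ioi (0 : ℝ), {s | u z ≤ s ∧ s ≤ v z}.indicator f s) ∂μ := key _ hm2
      _ = _ := by
          refine lintegral_congr fun z => ?_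
          refine lintegral_congr_ae (ae_restrict_of_ae ?_)
          have h3 : ∀ᵐ s : ℝ, s ∉ ({u z, v z} : Set ℝ) :=
            measure_eq_zero_iff_ae_notMem.1 (Set.Finite.measure_zero (by simp) _)
          filter_upwards [h3] with s hs
          simp only [mem_insert_iff, mem_singleton_iff, not_or] at hs
          by_cases h4 : u z ≤ s ∧ s ≤ v z
          · rw [indicator_of_mem (by exact h4), indicator_of_mem]
            exact ⟨lt_of_le_of_ne h4.1 (Ne.symm hs.1), lt_of_le_of_ne h4.2 hs.2⟩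
          · rw [indicator_of_notMem (by exact h4), indicator_of_notMem]
            exact fun h5 => h4 ⟨h5.1.le, h5.2.le⟩
  · calc ∫⁻ z, (∫⁻ s in Ioi (0 : ℝ), (Ioo (u z) (v z)).indicator f s) ∂μ
        = ∫⁻ s in Ioi (0 : ℝ), f s * μ {z | (s, z) ∈ {q : ℝ × α | u q.2 < q.1 ∧ q.1 < v q.2}} :=
          (key _ hm1).symm
      _ ≤ _ := by
          refine setLIntegral_mono' measurableSet_Ioi fun s hs => ?_
          exact mul_le_mul_right (measure_mono (h1 s hs)) _

/-- the layer cake formula for one family -/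
theorem cake {f : ℝ → ℝ≥0∞} (hf : Measurable f) {A : ℝ → Set α} (hA : Nest A) :
    ∫⁻ s in Ioi (0 : ℝ), f s * μ (A s) =
      ∫⁻ z, (∫⁻ s in Ioi (0 : ℝ), (Ioo 0 (lv A z)).indicator f s) ∂μ := by
  refine sandwich hf (u := fun _ => 0) measurable_const hA.measurable ?_ ?_
  · intro s hs z hz
    exact hA.mem_of_lt_lv hs hz.2
  · intro s hs z hz
    exact ⟨hs.le, hA.le_lv hs hz⟩

/-- the layer cake formula for the difference of two families, `A` taken at the level `s / c` -/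
theorem cake_diff {f : ℝ → ℝ≥0∞} (hf : Measurable f) {A B : ℝ → Set α} (hA : Nest A)
    (hB : Nest B) {c : ℝ} (hc : 0 < c) :
    ∫⁻ s in Ioi (0 : ℝ), f s * μ (B s \ A (s / c)) =
      ∫⁻ z, (∫⁻ s in Ioi (0 : ℝ), (Ioo (c * lv A z) (lv B z)).indicator f s) ∂μ := by
  refine sandwich hf (hA.measurable.const_mul c) hB.measurable ?_ ?_
  · intro s hs z hz
    refine ⟨hB.mem_of_lt_lv hs hz.2, hA.not_mem_of_lv_lt (div_pos hs hc) ?_⟩
    rw [lt_div_iff₀ hc, mul_comm]
    exact hz.1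
  · intro s hs z hz
    refine ⟨?_, hB.le_lv hs hz.1⟩
    have := hA.lv_le_of_not_mem (div_pos hs hc) hz.2
    rw [le_div_iff₀ hc, mul_comm] at this
    exact this

theorem measurable_Phi {f : ℝ → ℝ≥0∞} (hf : Measurable f) {u v : α → ℝ}
    (hu : Measurable u) (hv : Measurable v) :
    Measurable fun z => ∫⁻ s in Ioi (0 : ℝ), (Ioo (u z) (v z)).indicator f s := by
  have hm1 : MeasurableSet {q : α × ℝ | u q.1 < q.2 ∧ q.2 < v q.1} :=
    (measurableSet_lt (hu.comp measurable_fst) measurable_snd).inter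
      (measurableSet_lt measurable_snd (hv.comp measurable_fst))
  have h1 : Measurable (fun q : α × ℝ => {q : α × ℝ | u q.1 < q.2 ∧ q.2 < v q.1}.indicator
      (fun q => f q.2) q) := (hf.comp measurable_snd).indicator hm1
  have h2 := h1.lintegral_prod_right' (ν := (volume : Measure ℝ).restrict (Ioi 0))
  convert h2 using 1
  funext z
  refine lintegral_congr fun s => ?_
  by_cases hz : u z < s ∧ s < v z
  · rw [indicator_of_mem (by exact hz), indicator_of_mem (by exact hz)]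
  · rw [indicator_of_notMem (by exact hz), indicator_of_notMem (by exact hz)]

/-- the layer cake formula for two families -/
theorem cake2 {f g : ℝ → ℝ≥0∞} (hf : Measurable f) (hg : Measurable g) {A B : ℝ → Set α}
    (hA : Nest A) (hB : Nest B) :
    ∫⁻ t in Ioi (0 : ℝ), g t * ∫⁻ s in Ioi (0 : ℝ), f s * μ (A s ∩ B t) =
      ∫⁻ z, (∫⁻ s in Ioi (0 : ℝ), (Ioo 0 (lv A z)).indicator f s) *
        (∫⁻ t in Ioi (0 : ℝ), (Ioo 0 (lv B z)).indicator g t) ∂μ := by
  have hΦ : Measurable fun z => ∫⁻ s in Ioi (0 : ℝ), (Ioo 0 (lv A z)).indicator f s :=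
    measurable_Phi hf measurable_const hA.measurable
  set ν : Measure α := μ.withDensity fun z => ∫⁻ s in Ioi (0 : ℝ), (Ioo 0 (lv A z)).indicator f s
    with hν
  have h1 : ∀ t, 0 < t → ∫⁻ s in Ioi (0 : ℝ), f s * μ (A s ∩ B t) = ν (B t) := by
    intro t ht
    rw [hν, withDensity_apply _ (hB.meas t ht), ← cake hf hA]
    refine setLIntegral_congr_fun measurableSet_Ioi fun s hs => ?_
    rw [Measure.restrict_apply (hA.meas s hs)]
  have h2 : ∫⁻ t in Ioi (0 : ℝ), g t * ∫⁻ s in Ioi (0 : ℝ), f s * μ (A s ∩ B t) =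
      ∫⁻ t in Ioi (0 : ℝ), g t * ν (B t) := by
    refine setLIntegral_congr_fun measurableSet_Ioi fun t ht => ?_
    rw [h1 t ht]
  rw [h2, cake hg hB, hν, lintegral_withDensity_eq_lintegral_mul _ hΦ
    (measurable_Phi hg measurable_const hB.measurable)]
  rfl

end cake

/-! ### Powers -/

/-- the weight `p s^(p-1)` -/
noncomputable def pw (p : ℝ) (s : ℝ) : ℝ≥0∞ := ENNReal.ofReal (p * s ^ (p - 1))

theorem measurable_pw (p : ℝ) : Measurable (pw p) := by
  unfold pw
  exact ((measurable_id.pow_const (p - 1)).const_mul p).ennreal_ofReal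

theorem Phi_pw {p u v : ℝ} (hp : 0 < p) (hu : 0 ≤ u) (hv : 0 ≤ v) :
    ∫⁻ s in Ioi (0 : ℝ), (Ioo u v).indicator (pw p) s = ENNReal.ofReal (v ^ p - u ^ p) := by
  rcases le_or_gt v u with h | h
  · have h1 : Ioo u v = ∅ := Ioo_eq_empty (not_lt.2 h)
    rw [h1]
    simp only [indicator_empty, lintegral_zero]
    rw [ENNReal.ofReal_of_nonpos]
    have := Real.rpow_le_rpow hv h hp.le
    linarith
  · rw [lintegral_indicator measurableSet_Ioo, Measure.restrict_restrict measurableSet_Ioo]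
    have h1 : Ioo u v ∩ Ioi 0 = Ioo u v := by
      ext s
      simp only [mem_inter_iff, mem_Ioo, mem_Ioi, and_iff_left_iff_imp]
      intro hs
      linarith [hs.1]
    rw [h1]
    have hint : IntegrableOn (fun s : ℝ => p * s ^ (p - 1)) (Ioo u v) := by
      have h3 : IntervalIntegrable (fun s : ℝ => s ^ (p - 1)) volume u v :=
        intervalIntegral.intervalIntegrable_rpow' (by linarith)
      have h4 := (intervalIntegrable_iff_integrableOn_Ioo_of_le h.le).1 h3
      exact h4.const_mul p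
    have h2 : ∫ s in Ioo u v, p * s ^ (p - 1) = v ^ p - u ^ p := by
      rw [← integral_Ioc_eq_integral_Ioo, ← intervalIntegral.integral_of_le h.le,
        intervalIntegral.integral_const_mul, integral_rpow (Or.inl (by linarith))]
      have : p - 1 + 1 = p := by ring
      rw [this]
      field_simp
    rw [← h2, ofReal_integral_eq_lintegral_ofReal hint]
    · rfl
    · refine (ae_restrict_iff' measurableSet_Ioo).2 (Eventually.of_forall fun s hs => ?_)
      have : 0 < s := lt_of_le_of_lt hu hs.1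
      positivity

section powers
variable [MeasurableSpace α] {μ : Measure α} [SFinite μ]

/-- `∫ lv^p = ∫ p s^(p-1) |A s| ds` -/
theorem cake_pow {p : ℝ} (hp : 0 < p) {A : ℝ → Set α} (hA : Nest A) :
    ∫⁻ z, ENNReal.ofReal (lv A z ^ p) ∂μ = ∫⁻ s in Ioi (0 : ℝ), pw p s * μ (A s) := by
  rw [cake (measurable_pw p) hA]
  refine lintegral_congr fun z => ?_
  rw [Phi_pw hp le_rfl (lv_nonneg A z), Real.zero_rpow hp.ne', sub_zero]

/-- `∫ (lv B^p - c^p lv A^p)_+ = ∫ p s^(p-1) |B s \ A (s/c)| ds` -/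
theorem cake_pow_diff {p : ℝ} (hp : 0 < p) {A B : ℝ → Set α} (hA : Nest A) (hB : Nest B) {c : ℝ}
    (hc : 0 < c) :
    ∫⁻ z, ENNReal.ofReal (lv B z ^ p - (c * lv A z) ^ p) ∂μ =
      ∫⁻ s in Ioi (0 : ℝ), pw p s * μ (B s \ A (s / c)) := by
  rw [cake_diff (measurable_pw p) hA hB hc]
  refine lintegral_congr fun z => ?_
  rw [Phi_pw hp (mul_nonneg hc.le (lv_nonneg A z)) (lv_nonneg B z)]

/-- `∫ lv A^q lv B^q = ∫ ∫ q^2 (s t)^(q-1) |A s ∩ B t|` -/
theorem cake_pow2 {q : ℝ} (hq : 0 < q) {A B : ℝ → Set α} (hA : Nest A) (hB : Nest B) :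
    ∫⁻ z, ENNReal.ofReal (lv A z ^ q * lv B z ^ q) ∂μ =
      ∫⁻ t in Ioi (0 : ℝ), pw q t * ∫⁻ s in Ioi (0 : ℝ), pw q s * μ (A s ∩ B t) := by
  rw [cake2 (measurable_pw q) (measurable_pw q) hA hB]
  refine lintegral_congr fun z => ?_
  rw [Phi_pw hq le_rfl (lv_nonneg A z), Phi_pw hq le_rfl (lv_nonneg B z),
    Real.zero_rpow hq.ne', sub_zero, sub_zero,
    ENNReal.ofReal_mul (Real.rpow_nonneg (lv_nonneg A z) q)]

theorem pow_scale {p : ℝ} (hp : 0 < p) {A B : ℝ → Set α} (hA : Nest A) (hB : Nest B) {c : ℝ≥0∞}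
    (hc : c ≠ ⊤) (h : ∀ s, 0 < s → μ (B s) = c * μ (A s)) :
    ∫⁻ z, ENNReal.ofReal (lv B z ^ p) ∂μ = c * ∫⁻ z, ENNReal.ofReal (lv A z ^ p) ∂μ := by
  rw [cake_pow hp hA, cake_pow hp hB, ← lintegral_const_mul' _ _ hc]
  refine setLIntegral_congr_fun measurableSet_Ioi fun s hs => ?_
  rw [h s hs]
  ring

theorem pow2_le {q : ℝ} (hq : 0 < q) {A B A' B' : ℝ → Set α} (hA : Nest A) (hB : Nest B)
    (hA' : Nest A') (hB' : Nest B') {c : ℝ≥0∞} (hc : c ≠ ⊤)
    (h : ∀ s t, 0 < s → 0 < t → c * μ (A s ∩ B t) ≤ μ (A' s ∩ B' t)) :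
    c * ∫⁻ z, ENNReal.ofReal (lv A z ^ q * lv B z ^ q) ∂μ ≤
      ∫⁻ z, ENNReal.ofReal (lv A' z ^ q * lv B' z ^ q) ∂μ := by
  rw [cake_pow2 hq hA hB, cake_pow2 hq hA' hB', ← lintegral_const_mul' _ _ hc]
  refine setLIntegral_mono' measurableSet_Ioi fun t ht => ?_
  rw [mul_left_comm, ← lintegral_const_mul' _ _ hc]
  refine mul_le_mul_right (setLIntegral_mono' measurableSet_Ioi fun s hs => ?_) _
  rw [mul_left_comm]
  exact mul_le_mul_right (h s t hs ht) _

end powers

end Pool.Agent.Lib.QNL.Lev32
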