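import Pool.Agent.Lib.QNL.IntF

/-!
Integration by parts on jets against a compactly supported weight `χ`, and the limit
`∫ χ_h F → (2j+1)² ∫_D |Y j j|²` for weights `χ_h → 1` whose error terms tend to zero.
-/

set_option autoImplicit false

namespace Pool.Agent.Lib.QNL.LimF

open MeasureTheory Filter Topology Set
open scoped ContDiff ComplexConjugate
open Pool.Agent.Lib.QNL.IntF

/-- jets of class `C¹` on an open set -/
structure J1 (D : Set ℂ) (Y : ℕ → ℕ → ℂ → ℂ) : Prop where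
  isOpen : IsOpen D
  smooth : ∀ a b, ContDiffOn ℝ 1 (Y a b) D
  hdz : ∀ a b, ∀ z ∈ D, dz (Y a b) z = Y (a + 1) b z
  hdzb : ∀ a b, ∀ z ∈ D, dzb (Y a b) z = Y a (b + 1) z

/-- weights: `C¹` with compact support in `D` -/
structure Wt1 (D : Set ℂ) (χ : ℂ → ℝ) : Prop where
  smooth : ContDiff ℝ 1 χ
  cpt : HasCompactSupport χ
  sub : tsupport χ ⊆ D

/-- `∂χ` of a real function -/
noncomputable def rz (χ : ℂ → ℝ) (z : ℂ) : ℂ :=
  (((fderiv ℝ χ z 1 : ℝ) : ℂ) - Complex.I * ((fderiv ℝ χ z Complex.I : ℝ) : ℂ)) / 2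

/-- `∂̄χ` of a real function -/
noncomputable def rzb (χ : ℂ → ℝ) (z : ℂ) : ℂ :=
  (((fderiv ℝ χ z 1 : ℝ) : ℂ) + Complex.I * ((fderiv ℝ χ z Complex.I : ℝ) : ℂ)) / 2

section general
variable {D : Set ℂ} {u : ℂ → ℂ} {χ : ℂ → ℝ}

theorem mul_continuous {E : Type*} [NormedAddCommGroup E] [NormedSpace ℝ E] {w : ℂ → ℝ}
    {f : ℂ → E} (hD : IsOpen D) (hw : Continuous w) (hs : tsupport w ⊆ D)
    (hf : ContinuousOn f D) : Continuous (fun z => w z • f z) := by
  rw [continuous_iff_continuousAt]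
  intro z
  by_cases hz : z ∈ D
  · exact (hw.continuousAt).smul (hf.continuousAt (hD.mem_nhds hz))
  · have hz' : z ∉ tsupport w := fun h => hz (hs h)
    have : (fun z => w z • f z) =ᶠ[𝓝 z] fun _ => (0 : E) := by
      filter_upwards [(isClosed_tsupport w).isOpen_compl.mem_nhds hz'] with y hy
      rw [image_eq_zero_of_notMem_tsupport hy, zero_smul]
    exact continuousAt_const.congr this.symm

theorem integrable_mul {E : Type*} [NormedAddCommGroup E] [NormedSpace ℝ E] {w : ℂ → ℝ}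
    {f : ℂ → E} (hD : IsOpen D) (hw : Continuous w) (hc : HasCompactSupport w)
    (hs : tsupport w ⊆ D) (hf : ContinuousOn f D) : Integrable (fun z => w z • f z) :=
  (mul_continuous hD hw hs hf).integrable_of_hasCompactSupport hc.smul_right

/-- integration by parts in a complex direction -/
theorem parts_c (hD : IsOpen D) (hχ : Wt1 D χ) (hu : ContDiffOn ℝ 1 u D) (c : ℂ) :
    ∫ z, (χ z : ℂ) * (fderiv ℝ u z 1 + c * fderiv ℝ u z Complex.I) =
      - ∫ z, (((fderiv ℝ χ z 1 : ℝ) : ℂ) + c * ((fderiv ℝ χ z Complex.I : ℝ) : ℂ)) * u z := by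
  set V : ℂ → ℂ := fun z => χ z • u z with hV
  have hVc : ContDiff ℝ 1 V := by
    refine IntF.contDiff_of_cpt (K := tsupport χ) hD hχ.cpt hχ.sub
      (hχ.smooth.contDiffOn.smul hu) ?_
    intro z hz
    rw [hV]
    simp only
    rw [image_eq_zero_of_notMem_tsupport hz, zero_smul]
  have hV0 : ∀ z, z ∉ tsupport χ → V z = 0 := by
    intro z hz
    rw [hV]
    simp only
    rw [image_eq_zero_of_notMem_tsupport hz, zero_smul]
  have hfd : ∀ v z, fderiv ℝ V z v = ((fderiv ℝ χ z v : ℝ) : ℂ) * u z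
      + (χ z : ℂ) * fderiv ℝ u z v := by
    intro v z
    by_cases hz : z ∈ D
    · have h1 : DifferentiableAt ℝ χ z := hχ.smooth.differentiable (by norm_num) z
      have h2 : DifferentiableAt ℝ u z :=
        (hu.contDiffAt (hD.mem_nhds hz)).differentiableAt (by norm_num)
      rw [hV, fderiv_fun_smul h1 h2]
      simp only [add_apply, smul_apply, ContinuousLinearMap.smulRight_apply,
        Complex.real_smul]
      ring
    · have hz' : z ∉ tsupport χ := fun h => hz (hχ.sub h)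
      have e1 : V =ᶠ[𝓝 z] fun _ => (0 : ℂ) := by
        filter_upwards [(isClosed_tsupport χ).isOpen_compl.mem_nhds hz'] with y hy
          using hV0 y hy
      have e2 : χ =ᶠ[𝓝 z] fun _ => (0 : ℝ) := by
        filter_upwards [(isClosed_tsupport χ).isOpen_compl.mem_nhds hz'] with y hy
          using image_eq_zero_of_notMem_tsupport hy
      rw [e1.fderiv_eq, e2.fderiv_eq, image_eq_zero_of_notMem_tsupport hz']
      simp
  obtain ⟨i1, i2⟩ := IntF.integral_dv_zero (F := V) (K := tsupport χ) hχ.cpt hVc hV0 1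
  obtain ⟨i3, i4⟩ := IntF.integral_dv_zero (F := V) (K := tsupport χ) hχ.cpt hVc hV0 Complex.I
  have h0 : ∫ z, (fderiv ℝ V z 1 + c * fderiv ℝ V z Complex.I) = 0 := by
    rw [integral_add i1 (i3.const_mul c), i2, integral_const_mul, i4]
    simp
  have hd : ∀ v : ℂ, Continuous (fun z => fderiv ℝ χ z v) := fun v =>
    (hχ.smooth.continuous_fderiv (by norm_num)).clm_apply continuous_const
  have hdc : ∀ v : ℂ, HasCompactSupport (fun z => fderiv ℝ χ z v) := fun v => by
    have := hχ.cpt.fderiv (𝕜 := ℝ)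
    exact this.comp_left (g := fun L : ℂ →L[ℝ] ℝ => L v) (by simp)
  have hds : ∀ v : ℂ, tsupport (fun z => fderiv ℝ χ z v) ⊆ D := fun v => by
    refine subset_trans ?_ hχ.sub
    refine closure_minimal ?_ (isClosed_tsupport χ)
    intro z hz
    by_contra hcon
    have e2 : χ =ᶠ[𝓝 z] fun _ => (0 : ℝ) := by
      filter_upwards [(isClosed_tsupport χ).isOpen_compl.mem_nhds hcon] with y hy
        using image_eq_zero_of_notMem_tsupport hy
    apply hz
    simp only
    rw [e2.fderiv_eq]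
    simp
  have huv : ∀ v : ℂ, ContinuousOn (fun z => fderiv ℝ u z v) D := fun v =>
    (hu.continuousOn_fderiv_of_isOpen hD (by norm_num)).clm_apply continuousOn_const
  have j1 : Integrable (fun z => (((fderiv ℝ χ z 1 : ℝ) : ℂ)
      + c * ((fderiv ℝ χ z Complex.I : ℝ) : ℂ)) * u z) := by
    have a1 := integrable_mul hD (hd 1) (hdc 1) (hds 1) hu.continuousOn
    have a2 := (integrable_mul hD (hd Complex.I) (hdc Complex.I) (hds Complex.I)
      hu.continuousOn).const_mul c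
    refine (a1.add a2).congr (Eventually.of_forall fun z => ?_)
    simp only [Pi.add_apply, Complex.real_smul]
    ring
  have j2 : Integrable (fun z => (χ z : ℂ) * (fderiv ℝ u z 1 + c * fderiv ℝ u z Complex.I)) := by
    have a1 := integrable_mul hD hχ.smooth.continuous hχ.cpt hχ.sub
      ((huv 1).add ((continuousOn_const (c := c)).mul (huv Complex.I)))
    refine a1.congr (Eventually.of_forall fun z => ?_)
    simp only [Complex.real_smul, Pi.add_apply, Pi.mul_apply]
  have h1 : ∫ z, (fderiv ℝ V z 1 + c * fderiv ℝ V z Complex.I)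
      = (∫ z, (χ z : ℂ) * (fderiv ℝ u z 1 + c * fderiv ℝ u z Complex.I))
        + ∫ z, (((fderiv ℝ χ z 1 : ℝ) : ℂ) + c * ((fderiv ℝ χ z Complex.I : ℝ) : ℂ)) * u z := by
    rw [← integral_add j2 j1]
    refine integral_congr_ae (Eventually.of_forall fun z => ?_)
    simp only
    rw [hfd 1 z, hfd Complex.I z]
    ring
  rw [h1] at h0
  exact eq_neg_of_add_eq_zero_left h0

end general

section jets
variable {D : Set ℂ} {Y : ℕ → ℕ → ℂ → ℂ} {χ : ℂ → ℝ}

theorem J1.dx (h : J1 D Y) (a b : ℕ) {z : ℂ} (hz : z ∈ D) :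
    fderiv ℝ (Y a b) z 1 = Y (a + 1) b z + Y a (b + 1) z := by
  rw [← h.hdz a b z hz, ← h.hdzb a b z hz]
  simp only [dz, dzb, QNL.dx, QNL.dy]
  ring

theorem J1.dy (h : J1 D Y) (a b : ℕ) {z : ℂ} (hz : z ∈ D) :
    fderiv ℝ (Y a b) z Complex.I = Complex.I * (Y (a + 1) b z - Y a (b + 1) z) := by
  rw [← h.hdz a b z hz, ← h.hdzb a b z hz]
  simp only [dz, dzb, QNL.dx, QNL.dy]
  linear_combination ((fderiv ℝ (Y a b) z) Complex.I) * Complex.I_sq

theorem J1.prod_contDiffOn (h : J1 D Y) (a b c d : ℕ) :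
    ContDiffOn ℝ 1 (fun z => Y a b z * conj (Y c d z)) D :=
  (h.smooth a b).mul (Complex.conjCLE.contDiff.comp_contDiffOn (h.smooth c d))

theorem J1.prod_fderiv (h : J1 D Y) (a b c d : ℕ) {z : ℂ} (hz : z ∈ D) (v : ℂ) :
    fderiv ℝ (fun z => Y a b z * conj (Y c d z)) z v =
      fderiv ℝ (Y a b) z v * conj (Y c d z) + Y a b z * conj (fderiv ℝ (Y c d) z v) := by
  have h1 : DifferentiableAt ℝ (Y a b) z :=
    ((h.smooth a b).contDiffAt (h.isOpen.mem_nhds hz)).differentiableAt (by norm_num)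
  have h2 : DifferentiableAt ℝ (Y c d) z :=
    ((h.smooth c d).contDiffAt (h.isOpen.mem_nhds hz)).differentiableAt (by norm_num)
  have h3 : HasFDerivAt (fun z => conj (Y c d z))
      ((Complex.conjCLE : ℂ →L[ℝ] ℂ).comp (fderiv ℝ (Y c d) z)) z :=
    (Complex.conjCLE : ℂ →L[ℝ] ℂ).hasFDerivAt.comp z h2.hasFDerivAt
  have h4 := (h1.hasFDerivAt.mul' h3).fderiv
  rw [show (fun z => Y a b z * conj (Y c d z)) = (Y a b) * (fun z => conj (Y c d z)) from rfl, h4]
  simp
  ring

theorem J1.prod_dz (h : J1 D Y) (a b c d : ℕ) {z : ℂ} (hz : z ∈ D) :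
    fderiv ℝ (fun z => Y a b z * conj (Y c d z)) z 1
      + (-Complex.I) * fderiv ℝ (fun z => Y a b z * conj (Y c d z)) z Complex.I
      = 2 * (Y (a + 1) b z * conj (Y c d z) + Y a b z * conj (Y c (d + 1) z)) := by
  rw [h.prod_fderiv a b c d hz, h.prod_fderiv a b c d hz, h.dx a b hz, h.dx c d hz,
    h.dy a b hz, h.dy c d hz]
  simp only [map_add, map_mul, map_sub, Complex.conj_I]
  linear_combination (- (Y (a + 1) b z - Y a (b + 1) z) * conj (Y c d z)
    + Y a b z * (conj (Y (c + 1) d z) - conj (Y c (d + 1) z))) * Complex.I_sq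

theorem J1.prod_dzb (h : J1 D Y) (a b c d : ℕ) {z : ℂ} (hz : z ∈ D) :
    fderiv ℝ (fun z => Y a b z * conj (Y c d z)) z 1
      + Complex.I * fderiv ℝ (fun z => Y a b z * conj (Y c d z)) z Complex.I
      = 2 * (Y a (b + 1) z * conj (Y c d z) + Y a b z * conj (Y (c + 1) d z)) := by
  rw [h.prod_fderiv a b c d hz, h.prod_fderiv a b c d hz, h.dx a b hz, h.dx c d hz,
    h.dy a b hz, h.dy c d hz]
  simp only [map_add, map_mul, map_sub, Complex.conj_I]
  linear_combination ((Y (a + 1) b z - Y a (b + 1) z) * conj (Y c d z)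
    - Y a b z * (conj (Y (c + 1) d z) - conj (Y c (d + 1) z))) * Complex.I_sq

theorem J1.prod_int (h : J1 D Y) (hχ : Wt1 D χ) (a b c d : ℕ) :
    Integrable (fun z => (χ z : ℂ) * (Y a b z * conj (Y c d z))) := by
  have := integrable_mul h.isOpen hχ.smooth.continuous hχ.cpt hχ.sub
    (h.prod_contDiffOn a b c d).continuousOn
  refine this.congr (Eventually.of_forall fun z => ?_)
  simp only [Complex.real_smul]

/-- **Integration by parts with a weight, `∂`.** -/
theorem J1.ibp_dz (h : J1 D Y) (hχ : Wt1 D χ) (a b c d : ℕ) :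
    ∫ z, (χ z : ℂ) * (Y (a + 1) b z * conj (Y c d z)) =
      - (∫ z, (χ z : ℂ) * (Y a b z * conj (Y c (d + 1) z)))
        - ∫ z, rz χ z * (Y a b z * conj (Y c d z)) := by
  have h1 := parts_c h.isOpen hχ (h.prod_contDiffOn a b c d) (-Complex.I)
  have h2 : ∫ z, (χ z : ℂ) * (fderiv ℝ (fun z => Y a b z * conj (Y c d z)) z 1
      + (-Complex.I) * fderiv ℝ (fun z => Y a b z * conj (Y c d z)) z Complex.I)
      = 2 * ((∫ z, (χ z : ℂ) * (Y (a + 1) b z * conj (Y c d z)))
        + ∫ z, (χ z : ℂ) * (Y a b z * conj (Y c (d + 1) z))) := by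
    rw [← integral_add (h.prod_int hχ _ _ _ _) (h.prod_int hχ _ _ _ _), ← integral_const_mul]
    refine integral_congr_ae (Eventually.of_forall fun z => ?_)
    simp only
    by_cases hz : z ∈ D
    · rw [h.prod_dz a b c d hz]
      ring
    · rw [image_eq_zero_of_notMem_tsupport (fun h' => hz (hχ.sub h'))]
      simp
  have h3 : ∫ z, (((fderiv ℝ χ z 1 : ℝ) : ℂ)
      + (-Complex.I) * ((fderiv ℝ χ z Complex.I : ℝ) : ℂ)) * (Y a b z * conj (Y c d z))
      = 2 * ∫ z, rz χ z * (Y a b z * conj (Y c d z)) := by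
    rw [← integral_const_mul]
    refine integral_congr_ae (Eventually.of_forall fun z => ?_)
    simp only [rz]
    ring
  rw [h2, h3] at h1
  linear_combination h1 / 2

/-- **Integration by parts with a weight, `∂̄`.** -/
theorem J1.ibp_dzb (h : J1 D Y) (hχ : Wt1 D χ) (a b c d : ℕ) :
    ∫ z, (χ z : ℂ) * (Y a (b + 1) z * conj (Y c d z)) =
      - (∫ z, (χ z : ℂ) * (Y a b z * conj (Y (c + 1) d z)))
        - ∫ z, rzb χ z * (Y a b z * conj (Y c d z)) := by
  have h1 := parts_c h.isOpen hχ (h.prod_contDiffOn a b c d) Complex.I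
  have h2 : ∫ z, (χ z : ℂ) * (fderiv ℝ (fun z => Y a b z * conj (Y c d z)) z 1
      + Complex.I * fderiv ℝ (fun z => Y a b z * conj (Y c d z)) z Complex.I)
      = 2 * ((∫ z, (χ z : ℂ) * (Y a (b + 1) z * conj (Y c d z)))
        + ∫ z, (χ z : ℂ) * (Y a b z * conj (Y (c + 1) d z))) := by
    rw [← integral_add (h.prod_int hχ _ _ _ _) (h.prod_int hχ _ _ _ _), ← integral_const_mul]
    refine integral_congr_ae (Eventually.of_forall fun z => ?_)
    simp only
    by_cases hz : z ∈ D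
    · rw [h.prod_dzb a b c d hz]
      ring
    · rw [image_eq_zero_of_notMem_tsupport (fun h' => hz (hχ.sub h'))]
      simp
  have h3 : ∫ z, (((fderiv ℝ χ z 1 : ℝ) : ℂ)
      + Complex.I * ((fderiv ℝ χ z Complex.I : ℝ) : ℂ)) * (Y a b z * conj (Y c d z))
      = 2 * ∫ z, rzb χ z * (Y a b z * conj (Y c d z)) := by
    rw [← integral_const_mul]
    refine integral_congr_ae (Eventually.of_forall fun z => ?_)
    simp only [rzb]
    ring
  rw [h2, h3] at h1
  linear_combination h1 / 2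

/-! ### The limit -/

variable {ι : Type*} {l : Filter ι} {χs : ι → ℂ → ℝ} {j : ℕ}

/-- moving all derivatives, up to `o(1)` -/
theorem term_zero_lim (h : J1 D Y) (hχ : ∀ i, Wt1 D (χs i))
    (hz : ∀ a b c d, a + b + c + d + 1 = 4 * j →
      Tendsto (fun i => ∫ z, rz (χs i) z * (Y a b z * conj (Y c d z))) l (𝓝 0))
    (hzb : ∀ a b c d, a + b + c + d + 1 = 4 * j →
      Tendsto (fun i => ∫ z, rzb (χs i) z * (Y a b z * conj (Y c d z))) l (𝓝 0))
    (a b : ℕ) (ha : a ≤ 2 * j) (hb : b ≤ 2 * j) :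
    Tendsto (fun i => (∫ z, (χs i z : ℂ) * (Y a b z * conj (Y (2 * j - b) (2 * j - a) z)))
      - (-1) ^ (a + b) * ∫ z, (χs i z : ℂ) * (Y 0 0 z * conj (Y (2 * j) (2 * j) z))) l (𝓝 0) := by
  have hA : ∀ a : ℕ, a ≤ 2 * j →
      Tendsto (fun i => (∫ z, (χs i z : ℂ) * (Y a b z * conj (Y (2 * j - b) (2 * j - a) z)))
        - (-1) ^ a * ∫ z, (χs i z : ℂ) * (Y 0 b z * conj (Y (2 * j - b) (2 * j) z))) l (𝓝 0) := by
    intro a
    induction a with
    | zero =>
      intro _
      simpa using tendsto_const_nhds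
    | succ a ih =>
      intro ha
      have e1 : ∀ i, (∫ z, (χs i z : ℂ) * (Y (a + 1) b z * conj (Y (2 * j - b)
            (2 * j - (a + 1)) z)))
          - (-1) ^ (a + 1) * (∫ z, (χs i z : ℂ) * (Y 0 b z * conj (Y (2 * j - b) (2 * j) z)))
          = - ((∫ z, (χs i z : ℂ) * (Y a b z * conj (Y (2 * j - b) (2 * j - a) z)))
              - (-1) ^ a * ∫ z, (χs i z : ℂ) * (Y 0 b z * conj (Y (2 * j - b) (2 * j) z)))
            - ∫ z, rz (χs i) z * (Y a b z * conj (Y (2 * j - b) (2 * j - (a + 1)) z)) := by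
        intro i
        rw [h.ibp_dz (hχ i) a b (2 * j - b) (2 * j - (a + 1)),
          show 2 * j - (a + 1) + 1 = 2 * j - a by omega]
        ring
      simp only [e1]
      have h1 := (ih (by omega)).neg.sub (hz a b (2 * j - b) (2 * j - (a + 1)) (by omega))
      simpa using h1
  have hB : ∀ b : ℕ, b ≤ 2 * j →
      Tendsto (fun i => (∫ z, (χs i z : ℂ) * (Y 0 b z * conj (Y (2 * j - b) (2 * j) z)))
        - (-1) ^ b * ∫ z, (χs i z : ℂ) * (Y 0 0 z * conj (Y (2 * j) (2 * j) z))) l (𝓝 0) := by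
    intro b
    induction b with
    | zero =>
      intro _
      simpa using tendsto_const_nhds
    | succ b ih =>
      intro hb
      have e1 : ∀ i, (∫ z, (χs i z : ℂ) * (Y 0 (b + 1) z * conj (Y (2 * j - (b + 1)) (2 * j) z)))
          - (-1) ^ (b + 1) * (∫ z, (χs i z : ℂ) * (Y 0 0 z * conj (Y (2 * j) (2 * j) z)))
          = - ((∫ z, (χs i z : ℂ) * (Y 0 b z * conj (Y (2 * j - b) (2 * j) z)))
              - (-1) ^ b * ∫ z, (χs i z : ℂ) * (Y 0 0 z * conj (Y (2 * j) (2 * j) z)))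
            - ∫ z, rzb (χs i) z * (Y 0 b z * conj (Y (2 * j - (b + 1)) (2 * j) z)) := by
        intro i
        rw [h.ibp_dzb (hχ i) 0 b (2 * j - (b + 1)) (2 * j),
          show 2 * j - (b + 1) + 1 = 2 * j - b by omega]
        ring
      simp only [e1]
      have h1 := (ih (by omega)).neg.sub (hzb 0 b (2 * j - (b + 1)) (2 * j) (by omega))
      simpa using h1
  have h1 := (hA a ha).add ((hB b hb).const_mul ((-1) ^ a))
  simp only [mul_zero, add_zero] at h1
  refine h1.congr fun i => ?_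
  rw [pow_add]
  ring

theorem term_lim (h : J1 D Y) (hχ : ∀ i, Wt1 D (χs i))
    (hz : ∀ a b c d, a + b + c + d + 1 = 4 * j →
      Tendsto (fun i => ∫ z, rz (χs i) z * (Y a b z * conj (Y c d z))) l (𝓝 0))
    (hzb : ∀ a b c d, a + b + c + d + 1 = 4 * j →
      Tendsto (fun i => ∫ z, rzb (χs i) z * (Y a b z * conj (Y c d z))) l (𝓝 0))
    {A : ℝ} (hlim : Tendsto (fun i => ∫ z, χs i z * ‖Y j j z‖ ^ 2) l (𝓝 A))
    (a b : ℕ) (ha : a ≤ 2 * j) (hb : b ≤ 2 * j) :
    Tendsto (fun i => ∫ z, (χs i z : ℂ) * (Y a b z * conj (Y (2 * j - b) (2 * j - a) z))) l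
      (𝓝 ((-1) ^ (a + b) * (A : ℂ))) := by
  have h0 := term_zero_lim h hχ hz hzb j j (by omega) (by omega)
  rw [show 2 * j - j = j by omega, show j + j = 2 * j by ring] at h0
  have h1 : Tendsto (fun i => ∫ z, (χs i z : ℂ) * (Y j j z * conj (Y j j z))) l
      (𝓝 (A : ℂ)) := by
    have h2 := (Complex.continuous_ofReal.tendsto A).comp hlim
    refine h2.congr fun i => ?_
    simp only [Function.comp]
    rw [← integral_complex_ofReal]
    refine integral_congr_ae (Eventually.of_forall fun z => ?_)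
    simp only
    rw [Complex.mul_conj, Complex.normSq_eq_norm_sq]
    push_cast
    ring
  have h2 : Tendsto (fun i => ∫ z, (χs i z : ℂ) * (Y 0 0 z * conj (Y (2 * j) (2 * j) z))) l
      (𝓝 (A : ℂ)) := by
    have h3 := h1.sub h0
    rw [sub_zero] at h3
    refine h3.congr fun i => ?_
    rw [pow_mul]
    norm_num
  have h4 := (term_zero_lim h hχ hz hzb a b ha hb).add (h2.const_mul ((-1) ^ (a + b)))
  rw [zero_add] at h4
  refine h4.congr fun i => ?_
  ring

/-- **`∫ χ_h F → (2j+1)² lim ∫ χ_h |Y j j|²`** -/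
theorem lim_FF (h : J1 D Y) (hχ : ∀ i, Wt1 D (χs i))
    (hz : ∀ a b c d, a + b + c + d + 1 = 4 * j →
      Tendsto (fun i => ∫ z, rz (χs i) z * (Y a b z * conj (Y c d z))) l (𝓝 0))
    (hzb : ∀ a b c d, a + b + c + d + 1 = 4 * j →
      Tendsto (fun i => ∫ z, rzb (χs i) z * (Y a b z * conj (Y c d z))) l (𝓝 0))
    {A : ℝ} (hlim : Tendsto (fun i => ∫ z, χs i z * ‖Y j j z‖ ^ 2) l (𝓝 A)) :
    Tendsto (fun i => ∫ z, (χs i z : ℂ) * FF Y j z) l (𝓝 (((2 * (j : ℝ) + 1) ^ 2 * A : ℝ) : ℂ)) := by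
  have h1 : ∀ i, ∫ z, (χs i z : ℂ) * FF Y j z =
      ∑ a ∈ Finset.range (2 * j + 1), ∑ b ∈ Finset.range (2 * j + 1),
        (-1) ^ (a + b) * ∫ z, (χs i z : ℂ) * (Y a b z * conj (Y (2 * j - b) (2 * j - a) z)) := by
    intro i
    have e : ∀ z, (χs i z : ℂ) * FF Y j z =
        ∑ a ∈ Finset.range (2 * j + 1), ∑ b ∈ Finset.range (2 * j + 1),
          (-1) ^ (a + b) * ((χs i z : ℂ) * (Y a b z * conj (Y (2 * j - b) (2 * j - a) z))) := by
      intro z
      unfold FF
      rw [Finset.mul_sum]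
      refine Finset.sum_congr rfl fun a _ => ?_
      rw [Finset.mul_sum]
      refine Finset.sum_congr rfl fun b _ => ?_
      ring
    simp only [e]
    rw [integral_finsetSum]
    · refine Finset.sum_congr rfl fun a _ => ?_
      rw [integral_finsetSum]
      · refine Finset.sum_congr rfl fun b _ => ?_
        rw [integral_const_mul]
      · intro b _
        exact (h.prod_int (hχ i) _ _ _ _).const_mul _
    · intro a _
      exact integrable_finsetSum _ fun b _ => (h.prod_int (hχ i) _ _ _ _).const_mul _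
  simp only [h1]
  have h2 : Tendsto (fun i => ∑ a ∈ Finset.range (2 * j + 1), ∑ b ∈ Finset.range (2 * j + 1),
        (-1) ^ (a + b) * ∫ z, (χs i z : ℂ) * (Y a b z * conj (Y (2 * j - b) (2 * j - a) z))) l
      (𝓝 (∑ a ∈ Finset.range (2 * j + 1), ∑ b ∈ Finset.range (2 * j + 1),
        (-1) ^ (a + b) * ((-1) ^ (a + b) * (A : ℂ)))) := by
    refine tendsto_finsetSum _ fun a ha => tendsto_finsetSum _ fun b hb => ?_
    rw [Finset.mem_range] at ha hb
    exact (term_lim h hχ hz hzb hlim a b (by omega) (by omega)).const_mul _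
  have h3 : ∀ a b : ℕ, (-1 : ℂ) ^ (a + b) * ((-1) ^ (a + b) * (A : ℂ)) = A := by
    intro a b
    rw [← mul_assoc, ← pow_add, Even.neg_one_pow ⟨a + b, rfl⟩, one_mul]
  have h4 : (∑ a ∈ Finset.range (2 * j + 1), ∑ b ∈ Finset.range (2 * j + 1),
        (-1 : ℂ) ^ (a + b) * ((-1) ^ (a + b) * (A : ℂ)))
      = (((2 * (j : ℝ) + 1) ^ 2 * A : ℝ) : ℂ) := by
    simp only [h3, Finset.sum_const, Finset.card_range, nsmul_eq_mul]
    push_cast
    ring
  rw [h4] at h2
  exact h2

end jets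

end Pool.Agent.Lib.QNL.LimF
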