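import Pool.Agent.Lib.QNL.End
import Pool.Agent.Lib.QNL.HilS

/-!
From compactly supported Schwartz functions to all Schwartz functions in the range `1 < q < 2`,
and both ranges in one formula.
-/

set_option autoImplicit false

namespace Pool.Agent.Lib.QNL.LowAll31

open MeasureTheory Filter Topology Set FourierTransform SchwartzMap
open scoped SchwartzMap ENNReal ContDiff
open Pool.Agent.Lib.MP_dd244f_an Pool.Agent.Lib.MP_dd244f_an.Joint Pool.Agent.Lib.IWC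
open Pool.Agent.Lib.QNL

/-- smooth cut-offs -/
noncomputable def bump (k : ℕ) : ContDiffBump (0 : ℂ) where
  rIn := (k : ℝ) + 1
  rOut := (k : ℝ) + 2
  rIn_pos := by positivity
  rIn_lt_rOut := by linarith

theorem cut_smooth (k : ℕ) (f : 𝓢(ℂ, ℂ)) :
    ContDiff ℝ ∞ fun z => ((bump k z : ℝ) : ℂ) * f z :=
  (Complex.ofRealCLM.contDiff.comp (bump k).contDiff).mul (f.smooth ⊤)

theorem cut_cpt (k : ℕ) (f : 𝓢(ℂ, ℂ)) :
    HasCompactSupport fun z => ((bump k z : ℝ) : ℂ) * f z := by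
  have h1 : HasCompactSupport fun z => ((bump k z : ℝ) : ℂ) :=
    (bump k).hasCompactSupport.comp_left (g := fun r : ℝ => (r : ℂ)) (by simp)
  exact h1.mul_right

/-- the function cut off -/
noncomputable def cut (k : ℕ) (f : 𝓢(ℂ, ℂ)) : 𝓢(ℂ, ℂ) :=
  (cut_cpt k f).toSchwartzMap (cut_smooth k f)

theorem cut_apply (k : ℕ) (f : 𝓢(ℂ, ℂ)) (z : ℂ) : cut k f z = ((bump k z : ℝ) : ℂ) * f z := rfl

theorem norm_cut_le (k : ℕ) (f : 𝓢(ℂ, ℂ)) (z : ℂ) : ‖cut k f z‖ ≤ ‖f z‖ := by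
  rw [cut_apply, norm_mul, Complex.norm_real, Real.norm_eq_abs, abs_of_nonneg (bump k).nonneg]
  exact mul_le_of_le_one_left (norm_nonneg _) (bump k).le_one

theorem cut_tendsto (f : 𝓢(ℂ, ℂ)) (z : ℂ) : Tendsto (fun k => cut k f z) atTop (𝓝 (f z)) := by
  refine tendsto_const_nhds.congr' ?_
  obtain ⟨N, hN⟩ := exists_nat_ge ‖z‖
  filter_upwards [eventually_ge_atTop N] with k hk
  have h1 : z ∈ Metric.closedBall (0 : ℂ) ((k : ℝ) + 1) := by
    rw [mem_closedBall_zero_iff]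
    have : (N : ℝ) ≤ k := by exact_mod_cast hk
    linarith
  rw [cut_apply, (bump k).one_of_mem_closedBall h1]
  simp

theorem toLp_tendsto (f : 𝓢(ℂ, ℂ)) :
    Tendsto (fun k => (SchwartzMap.toLp (cut k f) 2 volume : H)) atTop
      (𝓝 (SchwartzMap.toLp f 2 volume)) := by
  rw [tendsto_iff_norm_sub_tendsto_zero]
  have h1 : Tendsto (fun k => ‖(SchwartzMap.toLp (cut k f) 2 volume : H) - SchwartzMap.toLp f 2 volume‖ ^ 2) atTop (𝓝 0) := by
    have e : ∀ k, ‖(SchwartzMap.toLp (cut k f) 2 volume : H) - SchwartzMap.toLp f 2 volume‖ ^ 2 = ∫ z, ‖cut k f z - f z‖ ^ 2 := by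
      intro k
      rw [Hil.H_norm_sq']
      refine integral_congr_ae ?_
      filter_upwards [Lp.coeFn_sub (SchwartzMap.toLp (cut k f) 2 volume)
        (SchwartzMap.toLp f 2 volume), SchwartzMap.coeFn_toLp (cut k f) 2 volume,
        SchwartzMap.coeFn_toLp f 2 volume] with z h2 h3 h4
      rw [h2, Pi.sub_apply, h3, h4]
    simp_rw [e]
    have h0 : ∫ z : ℂ, (0 : ℝ) = 0 := by simp
    rw [← h0]
    have hi : Integrable (fun z => ‖f z‖ ^ 2) :=
      (memLp_two_iff_integrable_sq_norm f.continuous.aestronglyMeasurable).1 (f.memLp 2 volume)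
    refine tendsto_integral_of_dominated_convergence (fun z => 4 * ‖f z‖ ^ 2) ?_
      (hi.const_mul 4) ?_ ?_
    · intro k
      exact (((cut k f).continuous.sub f.continuous).norm.pow 2).aestronglyMeasurable
    · intro k
      refine ae_of_all _ fun z => ?_
      rw [Real.norm_eq_abs, abs_of_nonneg (by positivity)]
      have h2 := norm_sub_le (cut k f z) (f z)
      have h3 := norm_cut_le k f z
      have h4 : ‖cut k f z - f z‖ ≤ 2 * ‖f z‖ := by linarith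
      calc ‖cut k f z - f z‖ ^ 2 ≤ (2 * ‖f z‖) ^ 2 := by gcongr
        _ = 4 * ‖f z‖ ^ 2 := by ring
    · refine ae_of_all _ fun z => ?_
      have h2 := ((cut_tendsto f z).sub_const (f z)).norm.pow 2
      simpa using h2
  have h2 := h1.sqrt
  simpa [Real.sqrt_sq (norm_nonneg _)] using h2

/-- Fatou along a sequence that converges in `L²` -/
theorem fatou {g : ℕ → H} {g₀ : H} (ht : Tendsto g atTop (𝓝 g₀)) {q : ℝ} {B : ℝ≥0∞}
    (hB : ∀ k, ∫⁻ w, ‖(g k : ℂ → ℂ) w‖ₑ ^ q ≤ B) : ∫⁻ w, ‖(g₀ : ℂ → ℂ) w‖ₑ ^ q ≤ B := by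
  obtain ⟨ns, hns, hae⟩ := (tendstoInMeasure_of_tendsto_Lp ht).exists_seq_tendsto_ae
  have hmeas : ∀ g : H, Measurable (fun w => ‖(g : ℂ → ℂ) w‖ₑ ^ q) := fun g =>
    ((Lp.stronglyMeasurable g).measurable.enorm).pow_const q
  calc ∫⁻ w, ‖(g₀ : ℂ → ℂ) w‖ₑ ^ q
      ≤ ∫⁻ w, liminf (fun k => ‖(g (ns k) : ℂ → ℂ) w‖ₑ ^ q) atTop := by
        refine lintegral_mono_ae ?_
        filter_upwards [hae] with w hw
        have h3 : Tendsto (fun k => ‖(g (ns k) : ℂ → ℂ) w‖ₑ ^ q) atTop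
            (𝓝 (‖(g₀ : ℂ → ℂ) w‖ₑ ^ q)) :=
          (ENNReal.continuous_rpow_const.tendsto _).comp hw.enorm
        rw [h3.liminf_eq]
    _ ≤ liminf (fun k => ∫⁻ w, ‖(g (ns k) : ℂ → ℂ) w‖ₑ ^ q) atTop :=
        lintegral_liminf_le fun k => hmeas _
    _ ≤ B := by
        refine liminf_le_of_le (by isBoundedDefault) ?_
        intro b hb
        obtain ⟨k, hk⟩ := hb.exists
        exact hk.trans (hB _)

/-- all Schwartz functions -/
theorem low_all {n : ℕ} (h : StmtLowH n) {q : ℝ} (h1 : 1 < q) (h2 : q < 2) (f : 𝓢(ℂ, ℂ)) :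
    ∫⁻ w, ‖Tn n f w‖ₑ ^ q ≤ ENNReal.ofReal (Cn n q ^ q) * ∫⁻ w, ‖f w‖ₑ ^ q := by
  have hq : 0 ≤ q := by linarith
  have e0 : ∫⁻ w, ‖Tn n f w‖ₑ ^ q = ∫⁻ w, ‖(TH n (f.toLp 2) : ℂ → ℂ) w‖ₑ ^ q := by
    refine lintegral_congr_ae ?_
    filter_upwards [TH_toLp n f] with x hx
    rw [hx]
  rw [e0]
  have ht : Tendsto (fun k => TH n ((cut k f).toLp 2)) atTop (𝓝 (TH n (f.toLp 2))) :=
    (Hil.TH_continuous n).continuousAt.tendsto.comp (toLp_tendsto f)
  refine fatou ht fun k => (h q h1 h2 (cut k f) (cut_cpt k f)).trans ?_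
  refine mul_le_mul_right (lintegral_mono fun w => ?_) _
  refine ENNReal.rpow_le_rpow ?_ hq
  exact enorm_le_iff_norm_le.2 (norm_cut_le _ f w)

/-- the range `1 < q < 2` with norms -/
theorem low_norm {n : ℕ} (h : StmtLowH n) {q : ℝ} (h1 : 1 < q) (h2 : q < 2) (f : 𝓢(ℂ, ℂ)) :
    eLpNorm (Tn n f) (ENNReal.ofReal q) volume ≤
      ENNReal.ofReal (Cn n q) * eLpNorm (⇑f) (ENNReal.ofReal q) volume := by
  have hq : 0 < q := by linarith
  have hne : ENNReal.ofReal q ≠ 0 := by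
    rw [Ne, ENNReal.ofReal_eq_zero, not_le]; exact hq
  have hC := Cn_pos n h1
  rw [eLpNorm_eq_lintegral_rpow_enorm_toReal hne ENNReal.ofReal_ne_top,
    eLpNorm_eq_lintegral_rpow_enorm_toReal hne ENNReal.ofReal_ne_top,
    ENNReal.toReal_ofReal hq.le]
  calc (∫⁻ w, ‖Tn n f w‖ₑ ^ q) ^ (1 / q)
      ≤ (ENNReal.ofReal (Cn n q ^ q) * ∫⁻ w, ‖f w‖ₑ ^ q) ^ (1 / q) :=
        ENNReal.rpow_le_rpow (low_all h h1 h2 f) (by positivity)
    _ = ENNReal.ofReal (Cn n q) * (∫⁻ w, ‖f w‖ₑ ^ q) ^ (1 / q) := by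
        rw [ENNReal.mul_rpow_of_nonneg _ _ (by positivity),
          ENNReal.ofReal_rpow_of_nonneg (by positivity) (by positivity), ← Real.rpow_mul hC.le,
          mul_one_div_cancel hq.ne', Real.rpow_one]

/-- both ranges in one formula, in the expression of the frozen statement -/
theorem both {n : ℕ} (h : StmtLowH n) {p : ℝ} (hp : 1 < p) {A : ℝ}
    (hAe : A = (ascPochhammer ℝ n).eval (1 - 1 / p) / (ascPochhammer ℝ n).eval (1 / p))
    (f : SchwartzMap ℂ ℂ) :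
    MeasureTheory.eLpNorm
        (fun z : ℂ => ∫ ξ : ℂ,
          Complex.exp (2 * (Real.pi : ℂ) * Complex.I * (((z.re * ξ.re + z.im * ξ.im : ℝ)) : ℂ)) *
            ((starRingEnd ℂ ξ / ξ) ^ n *
              ∫ x : ℂ, Complex.exp (-(2 * (Real.pi : ℂ) * Complex.I *
                (((x.re * ξ.re + x.im * ξ.im : ℝ)) : ℂ))) * f x))
        (ENNReal.ofReal p) MeasureTheory.volume
      ≤ ENNReal.ofReal (max A (1 / A))
        * MeasureTheory.eLpNorm (⇑f) (ENNReal.ofReal p) MeasureTheory.volume := by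
  rcases lt_or_ge p 2 with h2 | h2
  · have e : Cn n p = 1 / A := by
      rw [Cn, hAe, one_div_div]
    have h3 := low_norm h hp h2 f
    rw [e] at h3
    exact h3.trans (mul_le_mul_left (ENNReal.ofReal_le_ofReal (le_max_right _ _)) _)
  · have h3 := frozen_of_lowN (lowN_of_lowH h) p h2 f
    rw [← hAe] at h3
    exact h3.trans (mul_le_mul_left (ENNReal.ofReal_le_ofReal (le_max_left _ _)) _)

end Pool.Agent.Lib.QNL.LowAll31
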