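import Pool.Agent.Lib.QNL.LowAll31
import Pool.Agent.Lib.QNL.HilA

/-!
The powers of the Beurling operator as bounded operators on the whole of `L^p(ℂ)`, `1 < p < ∞`.
-/

set_option autoImplicit false

namespace Pool.Agent.Lib.QNL.LpOp31

open MeasureTheory Filter Topology Set FourierTransform SchwartzMap
open scoped SchwartzMap ENNReal ContDiff
open Pool.Agent.Lib.MP_dd244f_an Pool.Agent.Lib.MP_dd244f_an.Joint Pool.Agent.Lib.IWC
open Pool.Agent.Lib.MP_dd244f_an.Joint.DualAux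
open Pool.Agent.Lib.QNL

/-- the bound of the multiplier on Schwartz functions -/
def BdS (n : ℕ) (p C : ℝ) : Prop := ∀ f : 𝓢(ℂ, ℂ),
  eLpNorm (Tn n f) (ENNReal.ofReal p) volume ≤
    ENNReal.ofReal C * eLpNorm (⇑f) (ENNReal.ofReal p) volume

theorem memLp_Tn {n : ℕ} {p C : ℝ} (h : BdS n p C) (f : 𝓢(ℂ, ℂ)) :
    MemLp (Tn n f) (ENNReal.ofReal p) volume :=
  ⟨(Tn_continuous n f).aestronglyMeasurable,
    (h f).trans_lt (ENNReal.mul_lt_top ENNReal.ofReal_lt_top (f.eLpNorm_lt_top _ _))⟩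

theorem Tn_add (n : ℕ) (f g : 𝓢(ℂ, ℂ)) (z : ℂ) :
    Tn n (⇑(f + g)) z = Tn n f z + Tn n g z := by
  have h := Tn_sub n (f + g) g z
  rw [add_sub_cancel_right] at h
  rw [← h]
  ring

theorem Tn_smul (n : ℕ) (c : ℂ) (f : 𝓢(ℂ, ℂ)) (z : ℂ) :
    Tn n (⇑(c • f)) z = c * Tn n f z := by
  unfold Tn
  rw [← integral_const_mul]
  refine integral_congr_ae (ae_of_all _ fun ξ => ?_)
  have e : ∫ x : ℂ, Complex.exp (-(2 * (Real.pi : ℂ) * Complex.I *
          (((x.re * ξ.re + x.im * ξ.im : ℝ)) : ℂ))) * (c • f) x =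
      c * ∫ x : ℂ, Complex.exp (-(2 * (Real.pi : ℂ) * Complex.I *
          (((x.re * ξ.re + x.im * ξ.im : ℝ)) : ℂ))) * f x := by
    rw [← integral_const_mul]
    refine integral_congr_ae (ae_of_all _ fun x => ?_)
    simp only [smul_apply, smul_eq_mul]
    ring
  simp only [e]
  ring

/-- the multiplier as a linear map into `L^p` -/
noncomputable def Ls {n : ℕ} {p C : ℝ} (h : BdS n p C) :
    𝓢(ℂ, ℂ) →ₗ[ℂ] Lp ℂ (ENNReal.ofReal p) (volume : Measure ℂ) where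
  toFun f := (memLp_Tn h f).toLp (Tn n f)
  map_add' f g := by
    rw [← MemLp.toLp_add]
    exact MemLp.toLp_congr _ _ (ae_of_all _ fun z => Tn_add n f g z)
  map_smul' c f := by
    rw [RingHom.id_apply, ← MemLp.toLp_const_smul]
    exact MemLp.toLp_congr _ _ (ae_of_all _ fun z => Tn_smul n c f z)

theorem Ls_apply {n : ℕ} {p C : ℝ} (h : BdS n p C) (f : 𝓢(ℂ, ℂ)) :
    Ls h f = (memLp_Tn h f).toLp (Tn n f) := rfl

theorem norm_Ls {n : ℕ} {p C : ℝ} (hC : 0 ≤ C) (h : BdS n p C) (f : 𝓢(ℂ, ℂ)) :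
    ‖Ls h f‖ ≤ C * ‖(f.toLp (ENNReal.ofReal p) volume : Lp ℂ (ENNReal.ofReal p) volume)‖ := by
  rw [Ls_apply, Lp.norm_toLp, SchwartzMap.norm_toLp]
  calc (eLpNorm (Tn n f) (ENNReal.ofReal p) volume).toReal
      ≤ (ENNReal.ofReal C * eLpNorm (⇑f) (ENNReal.ofReal p) volume).toReal :=
        ENNReal.toReal_mono
          (ENNReal.mul_lt_top ENNReal.ofReal_lt_top (f.eLpNorm_lt_top _ _)).ne (h f)
    _ = C * (eLpNorm (⇑f) (ENNReal.ofReal p) volume).toReal := by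
        rw [ENNReal.toReal_mul, ENNReal.toReal_ofReal hC]

section

variable {p : ℝ} [Fact (1 ≤ ENNReal.ofReal p)]

theorem dense_toLp : DenseRange fun f : 𝓢(ℂ, ℂ) =>
    (f.toLp (ENNReal.ofReal p) volume : Lp ℂ (ENNReal.ofReal p) (volume : Measure ℂ)) :=
  SchwartzMap.denseRange_toLpCLM (E := ℂ) (F := ℂ) ENNReal.ofReal_ne_top

/-- the bounded extension -/
theorem exists_ext {n : ℕ} {C : ℝ} (hC : 0 ≤ C) (h : BdS n p C) :
    ∃ T : Lp ℂ (ENNReal.ofReal p) (volume : Measure ℂ) →L[ℂ]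
      Lp ℂ (ENNReal.ofReal p) (volume : Measure ℂ),
      ∀ f : 𝓢(ℂ, ℂ), T (f.toLp (ENNReal.ofReal p) volume) = Ls h f := by
  have hd : DenseRange (toLpCLM ℂ ℂ (ENNReal.ofReal p) (volume : Measure ℂ)).toLinearMap :=
    dense_toLp
  refine ⟨(Ls h).extendOfNorm
    (toLpCLM ℂ ℂ (ENNReal.ofReal p) (volume : Measure ℂ)).toLinearMap, fun f => ?_⟩
  exact LinearMap.extendOfNorm_eq hd ⟨C, fun x => norm_Ls hC h x⟩ f

/-- an operator is the extension of the multiplier -/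
def IsExt (n : ℕ) (T : Lp ℂ (ENNReal.ofReal p) (volume : Measure ℂ) →L[ℂ]
      Lp ℂ (ENNReal.ofReal p) (volume : Measure ℂ)) : Prop :=
  ∀ f : 𝓢(ℂ, ℂ), (T (f.toLp (ENNReal.ofReal p) volume) : ℂ → ℂ) =ᵐ[volume] Tn n f

theorem IsExt.eq_Ls {n : ℕ} {C : ℝ} (h : BdS n p C)
    {T : Lp ℂ (ENNReal.ofReal p) (volume : Measure ℂ) →L[ℂ]
      Lp ℂ (ENNReal.ofReal p) (volume : Measure ℂ)} (hT : IsExt n T) (f : 𝓢(ℂ, ℂ)) :
    T (f.toLp (ENNReal.ofReal p) volume) = Ls h f := by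
  apply Lp.ext
  filter_upwards [hT f, (memLp_Tn h f).coeFn_toLp] with z h1 h2
  rw [h1, Ls_apply, h2]

theorem IsExt.unique {n : ℕ}
    {S T : Lp ℂ (ENNReal.ofReal p) (volume : Measure ℂ) →L[ℂ]
      Lp ℂ (ENNReal.ofReal p) (volume : Measure ℂ)} (hS : IsExt n S) (hT : IsExt n T) :
    S = T := by
  apply ContinuousLinearMap.coeFn_injective
  refine dense_toLp.equalizer S.continuous T.continuous ?_
  funext f
  apply Lp.ext
  exact (hS f).trans (hT f).symm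

theorem norm_le_of_ext {n : ℕ} {C : ℝ} (hC : 0 ≤ C) (h : BdS n p C)
    {T : Lp ℂ (ENNReal.ofReal p) (volume : Measure ℂ) →L[ℂ]
      Lp ℂ (ENNReal.ofReal p) (volume : Measure ℂ)} (hT : IsExt n T) : ‖T‖ ≤ C := by
  refine T.opNorm_le_bound hC fun g => ?_
  refine dense_toLp.induction_on (p := fun g => ‖T g‖ ≤ C * ‖g‖) g ?_ ?_
  · exact isClosed_le (by fun_prop) (by fun_prop)
  · intro f
    rw [hT.eq_Ls h]
    exact norm_Ls hC h f

end

/-! ### pairings -/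

/-- the pairing in `L²` -/
theorem pair_H (k : ℕ) (g h : H) :
    ∫ z, (TH k g : ℂ → ℂ) z * (h : ℂ → ℂ) z = ∫ z, (g : ℂ → ℂ) z * (TH k h : ℂ → ℂ) z := by
  set B := (ContinuousLinearMap.mul ℂ ℂ).lpPairing (volume : Measure ℂ) 2 2 with hB
  have hc := Hil.TH_continuous (k : ℤ)
  have key : (fun x : H × H => B (TH k x.1) x.2) = fun x : H × H => B x.1 (TH k x.2) := by
    have hd : DenseRange fun f : 𝓢(ℂ, ℂ) => (f.toLp 2 volume : H) :=
      SchwartzMap.denseRange_toLpCLM (E := ℂ) (F := ℂ) ENNReal.ofNat_ne_top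
    refine (hd.prodMap hd).equalizer ?_ ?_ ?_
    · fun_prop
    · fun_prop
    · funext x
      obtain ⟨f, g⟩ := x
      simp only [Function.comp_apply, Prod.map_apply]
      rw [hB, ContinuousLinearMap.lpPairing_eq_integral,
        ContinuousLinearMap.lpPairing_eq_integral]
      have e1 : ∫ z, (ContinuousLinearMap.mul ℂ ℂ) ((TH k (f.toLp 2) : H) z) ((g.toLp 2 : H) z) =
          ∫ z, Tn k f z * g z := by
        refine integral_congr_ae ?_
        filter_upwards [TH_toLp k f, SchwartzMap.coeFn_toLp g 2 volume] with z h1 h2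
        rw [h1, h2, ContinuousLinearMap.mul_apply']
      have e2 : ∫ z, (ContinuousLinearMap.mul ℂ ℂ) ((f.toLp 2 : H) z) ((TH k (g.toLp 2) : H) z) =
          ∫ z, f z * Tn k g z := by
        refine integral_congr_ae ?_
        filter_upwards [TH_toLp k g, SchwartzMap.coeFn_toLp f 2 volume] with z h1 h2
        rw [h1, h2, ContinuousLinearMap.mul_apply']
      rw [e1, e2]
      exact Tn_symm k f g
  have h2 := congrFun key (g, h)
  simp only [hB, ContinuousLinearMap.lpPairing_eq_integral,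
    ContinuousLinearMap.mul_apply'] at h2
  exact h2

/-- the `L²` pairing of two images of Schwartz functions -/
theorem pair_SS (n : ℕ) (f g : 𝓢(ℂ, ℂ)) :
    ∫ z, Tn n f z * Tn 1 g z = ∫ z, Tn (n + 1) f z * g z := by
  have h := pair_H 1 (TH n (f.toLp 2)) (g.toLp 2)
  rw [Hil.TH_TH] at h
  have e1 : ∫ z, (TH ((1 : ℕ) + (n : ℤ)) (f.toLp 2) : ℂ → ℂ) z * ((g.toLp 2 : H) : ℂ → ℂ) z =
      ∫ z, Tn (n + 1) f z * g z := by
    refine integral_congr_ae ?_
    have e : ((1 : ℕ) + (n : ℤ)) = ((n + 1 : ℕ) : ℤ) := by push_cast; ring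
    rw [e]
    filter_upwards [TH_toLp (n + 1) f, SchwartzMap.coeFn_toLp g 2 volume] with z h1 h2
    rw [h1, h2]
  have e2 : ∫ z, (TH (n : ℤ) (f.toLp 2) : ℂ → ℂ) z * (TH ((1 : ℕ) : ℤ) (g.toLp 2) : ℂ → ℂ) z =
      ∫ z, Tn n f z * Tn 1 g z := by
    refine integral_congr_ae ?_
    filter_upwards [TH_toLp n f, TH_toLp 1 g] with z h1 h2
    rw [h1, h2]
  rw [e1, e2] at h
  exact h.symm

section

variable {p q : ℝ} [Fact (1 ≤ ENNReal.ofReal p)] [Fact (1 ≤ ENNReal.ofReal q)]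

/-- the pairing of `L^p` and `L^q` -/
theorem pair_T (hpq : p.HolderConjugate q) {C : ℝ} (hq : BdS 1 q C)
    {T : Lp ℂ (ENNReal.ofReal p) (volume : Measure ℂ) →L[ℂ]
      Lp ℂ (ENNReal.ofReal p) (volume : Measure ℂ)} (hT : IsExt 1 T)
    (g : Lp ℂ (ENNReal.ofReal p) (volume : Measure ℂ)) (ψ : 𝓢(ℂ, ℂ)) :
    ∫ z, (T g : ℂ → ℂ) z * ψ z = ∫ z, (g : ℂ → ℂ) z * Tn 1 ψ z := by
  have : ENNReal.HolderConjugate (ENNReal.ofReal p) (ENNReal.ofReal q) := hpq.ennrealOfReal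
  set B := (ContinuousLinearMap.mul ℂ ℂ).lpPairing (volume : Measure ℂ) (ENNReal.ofReal p)
    (ENNReal.ofReal q) with hB
  have key : (fun g => B (T g) (ψ.toLp (ENNReal.ofReal q) volume)) =
      fun g => B g ((memLp_Tn hq ψ).toLp (Tn 1 ψ)) := by
    refine dense_toLp.equalizer ?_ ?_ ?_
    · fun_prop
    · fun_prop
    · funext f
      simp only [Function.comp_apply]
      rw [hB, ContinuousLinearMap.lpPairing_eq_integral,
        ContinuousLinearMap.lpPairing_eq_integral]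
      have e1 : ∫ z, (ContinuousLinearMap.mul ℂ ℂ)
          ((T (f.toLp (ENNReal.ofReal p) volume) : ℂ → ℂ) z)
          ((ψ.toLp (ENNReal.ofReal q) volume : ℂ → ℂ) z) = ∫ z, Tn 1 f z * ψ z := by
        refine integral_congr_ae ?_
        filter_upwards [hT f, SchwartzMap.coeFn_toLp ψ (ENNReal.ofReal q) volume] with z h1 h2
        rw [h1, h2, ContinuousLinearMap.mul_apply']
      have e2 : ∫ z, (ContinuousLinearMap.mul ℂ ℂ)
          ((f.toLp (ENNReal.ofReal p) volume : ℂ → ℂ) z)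
          (((memLp_Tn hq ψ).toLp (Tn 1 ψ) : ℂ → ℂ) z) = ∫ z, f z * Tn 1 ψ z := by
        refine integral_congr_ae ?_
        filter_upwards [(memLp_Tn hq ψ).coeFn_toLp,
          SchwartzMap.coeFn_toLp f (ENNReal.ofReal p) volume] with z h1 h2
        rw [h1, h2, ContinuousLinearMap.mul_apply']
      rw [e1, e2]
      exact Tn_symm 1 f ψ
  have h2 := congrFun key g
  simp only [hB, ContinuousLinearMap.lpPairing_eq_integral,
    ContinuousLinearMap.mul_apply'] at h2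
  have e1 : ∫ z, (T g : ℂ → ℂ) z * (ψ.toLp (ENNReal.ofReal q) volume : ℂ → ℂ) z =
      ∫ z, (T g : ℂ → ℂ) z * ψ z := by
    refine integral_congr_ae ?_
    filter_upwards [SchwartzMap.coeFn_toLp ψ (ENNReal.ofReal q) volume] with z h1
    rw [h1]
  have e2 : ∫ z, (g : ℂ → ℂ) z * ((memLp_Tn hq ψ).toLp (Tn 1 ψ) : ℂ → ℂ) z =
      ∫ z, (g : ℂ → ℂ) z * Tn 1 ψ z := by
    refine integral_congr_ae ?_
    filter_upwards [(memLp_Tn hq ψ).coeFn_toLp] with z h1
    rw [h1]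
  rw [← e1, ← e2]
  exact h2

omit [Fact (1 ≤ ENNReal.ofReal q)] in
/-- two elements of `L^p` with the same pairings are equal -/
theorem eq_of_pair {u v : Lp ℂ (ENNReal.ofReal p) (volume : Measure ℂ)}
    (h : ∀ ψ : 𝓢(ℂ, ℂ), ∫ z, (u : ℂ → ℂ) z * ψ z = ∫ z, (v : ℂ → ℂ) z * ψ z) : u = v := by
  have hk := Lp.ker_toTemperedDistributionCLM_eq_bot (F := ℂ) (E := ℂ) (μ := volume)
    (p := ENNReal.ofReal p)
  have hinj := LinearMap.ker_eq_bot.1 hk
  apply hinj
  ext ψ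
  simp only [ContinuousLinearMap.coe_coe, Lp.toTemperedDistributionCLM_apply,
    Lp.toTemperedDistribution_apply, smul_eq_mul]
  simp_rw [mul_comm (ψ _)]
  exact h ψ

/-- the powers of the extension are the extensions of the powers -/
theorem pow_ext (hpq : p.HolderConjugate q) {C : ℝ} (hq : BdS 1 q C)
    (hp : ∀ n : ℕ, ∃ D : ℝ, BdS n p D)
    {T : Lp ℂ (ENNReal.ofReal p) (volume : Measure ℂ) →L[ℂ]
      Lp ℂ (ENNReal.ofReal p) (volume : Measure ℂ)} (hT : IsExt 1 T) (n : ℕ) :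
    IsExt n (T ^ n) := by
  induction n with
  | zero =>
    intro f
    have e : Tn 0 f = f := by
      ext z
      simpa using Tn_dbar 0 f z
    rw [e, pow_zero]
    exact SchwartzMap.coeFn_toLp f (ENNReal.ofReal p) volume
  | succ n ih =>
    intro f
    obtain ⟨D, hD⟩ := hp n
    obtain ⟨E, hE⟩ := hp (n + 1)
    have e0 : (T ^ (n + 1)) (f.toLp (ENNReal.ofReal p) volume) = T (Ls hD f) := by
      rw [pow_succ', mul_apply_eq_comp, ih.eq_Ls hD]
    have e1 : T (Ls hD f) = Ls hE f := by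
      apply eq_of_pair
      intro ψ
      rw [pair_T hpq hq hT]
      have e2 : ∫ z, (Ls hD f : ℂ → ℂ) z * Tn 1 ψ z = ∫ z, Tn n f z * Tn 1 ψ z := by
        refine integral_congr_ae ?_
        filter_upwards [(memLp_Tn hD f).coeFn_toLp] with z h1
        rw [Ls_apply, h1]
      have e3 : ∫ z, (Ls hE f : ℂ → ℂ) z * ψ z = ∫ z, Tn (n + 1) f z * ψ z := by
        refine integral_congr_ae ?_
        filter_upwards [(memLp_Tn hE f).coeFn_toLp] with z h1
        rw [Ls_apply, h1]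
      rw [e2, e3]
      exact pair_SS n f ψ
    rw [e0, e1, Ls_apply]
    exact (memLp_Tn hE f).coeFn_toLp

end

/-! ### the full statement from the bounds for `1 < q < 2` -/

theorem lowH_zero : StmtLowH 0 := by
  intro q h1 _ f _
  have e1 : TH ((0 : ℕ) : ℤ) (f.toLp 2) = f.toLp 2 := Hil.TH_zero _
  rw [e1]
  have e2 : Cn 0 q = 1 := by simp [Cn]
  rw [e2, Real.one_rpow, ENNReal.ofReal_one, one_mul]
  refine le_of_eq (lintegral_congr_ae ?_)
  filter_upwards [SchwartzMap.coeFn_toLp f 2 volume] with z hz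
  rw [hz]

/-- the exact bound on Schwartz functions for every exponent -/
theorem bdS_of {n : ℕ} (h : StmtLowH n) {p : ℝ} (hp : 1 < p) :
    BdS n p (max ((ascPochhammer ℝ n).eval (1 - 1 / p) / (ascPochhammer ℝ n).eval (1 / p))
      ((ascPochhammer ℝ n).eval (1 / p) / (ascPochhammer ℝ n).eval (1 - 1 / p))) := by
  intro f
  have h2 := LowAll31.both h hp rfl f
  rw [one_div_div] at h2
  exact h2

theorem max_nonneg' {n : ℕ} {p : ℝ} (hp : 1 < p) :
    0 ≤ max ((ascPochhammer ℝ n).eval (1 - 1 / p) / (ascPochhammer ℝ n).eval (1 / p))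
      ((ascPochhammer ℝ n).eval (1 / p) / (ascPochhammer ℝ n).eval (1 - 1 / p)) :=
  le_max_of_le_right (Cn_pos n hp).le

/-- **the operator on `L^p`**: existence, uniqueness, powers, norms -/
theorem full (h : ∀ n, StmtLowH n) (p : ℝ) (hp : 1 < p) [Fact (1 ≤ ENNReal.ofReal p)] :
    (∃! T : Lp ℂ (ENNReal.ofReal p) (volume : Measure ℂ) →L[ℂ]
        Lp ℂ (ENNReal.ofReal p) (volume : Measure ℂ), IsExt 1 T) ∧
    ∀ T : Lp ℂ (ENNReal.ofReal p) (volume : Measure ℂ) →L[ℂ]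
        Lp ℂ (ENNReal.ofReal p) (volume : Measure ℂ), IsExt 1 T → ∀ n : ℕ,
      IsExt n (T ^ n) ∧
      ‖T ^ n‖ ≤ max ((ascPochhammer ℝ n).eval (1 - 1 / p) / (ascPochhammer ℝ n).eval (1 / p))
        ((ascPochhammer ℝ n).eval (1 / p) / (ascPochhammer ℝ n).eval (1 - 1 / p)) := by
  constructor
  · obtain ⟨T, hT⟩ := exists_ext (p := p) (max_nonneg' (n := 1) hp) (bdS_of (h 1) hp)
    have hE : IsExt 1 T := fun f => by
      rw [hT f]
      exact (memLp_Tn (bdS_of (h 1) hp) f).coeFn_toLp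
    exact ⟨T, hE, fun S hS => hS.unique hE⟩
  · intro T hT n
    obtain ⟨q, hpq⟩ : ∃ q : ℝ, p.HolderConjugate q := ⟨_, Real.HolderConjugate.conjExponent hp⟩
    have hq : 1 < q := hpq.symm.lt
    have : Fact (1 ≤ ENNReal.ofReal q) := ⟨by
      rw [← ENNReal.ofReal_one]
      exact ENNReal.ofReal_le_ofReal hq.le⟩
    have h3 : IsExt n (T ^ n) := pow_ext hpq (bdS_of (h 1) hq) (fun m => ⟨_, bdS_of (h m) hp⟩) hT n
    exact ⟨h3, norm_le_of_ext (max_nonneg' hp) (bdS_of (h n) hp) h3⟩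

end Pool.Agent.Lib.QNL.LpOp31
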