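import Pool.Agent.Lib.QNL.Enc73

/-!
Ratios of the functions `ψ_j` and of the tails `T_j`.

* `psi_rec`: the three-term recurrence
  `w (j+2)² ψ_j = (2j+3)(2(j+1)(j+2) - w) ψ_(j+1) + w (j+1)² ψ_(j+2)`, `j ≥ 1`.
* `Tl_le`: `T_j ≤ g C_(j+1) ψ_j` as soon as `g (j+1-a - w(j+2)/(2j+2)) ≥ j+1-a`.
* `step_g`, `step_q`: recursion for `g_j` and for the ratios of the tail sums.
-/

set_option autoImplicit false

namespace Pool.Agent.Lib.QNL.Num93

open MeasureTheory Set Filter Topology Finset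
open scoped Nat
open Pool.Agent.Lib.QNL.Wts73

/-- three-term recurrence, on the level of `JJ` -/
theorem JJ_rec (m : ℕ) (w : ℝ) :
    (m + 1 : ℝ) * (m + 3) ^ 2 * JJ (m + 2) m w =
      (2 * m + 5) * (2 * (m + 2) * (m + 3) - w) * JJ (m + 3) (m + 1) w +
        w ^ 2 * (m + 2) * JJ (m + 4) (m + 2) w := by
  have p1 : w * JJ (m + 3) (m + 1) w =
      (m + 3 : ℝ) * JJ (m + 2) (m + 1) w - (m + 1) * JJ (m + 3) m w := by
    have := JJ_parts (m + 2) m w
    push_cast at this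
    linear_combination this
  have p2 : w * JJ (m + 4) (m + 1) w =
      (m + 4 : ℝ) * JJ (m + 3) (m + 1) w - (m + 1) * JJ (m + 4) m w := by
    have := JJ_parts (m + 3) m w
    push_cast at this
    linear_combination this
  have p3 : w * JJ (m + 4) (m + 2) w =
      (m + 4 : ℝ) * JJ (m + 3) (m + 2) w - (m + 2) * JJ (m + 4) (m + 1) w := by
    have := JJ_parts (m + 3) (m + 1) w
    push_cast at this
    linear_combination this
  have a1 : JJ (m + 2) m w = JJ (m + 3) m w + JJ (m + 2) (m + 1) w := JJ_add (m + 2) m w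
  have a2 : JJ (m + 3) m w = JJ (m + 4) m w + JJ (m + 3) (m + 1) w := JJ_add (m + 3) m w
  have a4 : JJ (m + 3) (m + 1) w = JJ (m + 4) (m + 1) w + JJ (m + 3) (m + 2) w :=
    JJ_add (m + 3) (m + 1) w
  generalize JJ (m + 2) m w = A at *
  generalize JJ (m + 3) m w = B at *
  generalize JJ (m + 2) (m + 1) w = C at *
  generalize JJ (m + 3) (m + 1) w = D at *
  generalize JJ (m + 4) m w = E at *
  generalize JJ (m + 4) (m + 1) w = G at *
  generalize JJ (m + 3) (m + 2) w = H at *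
  generalize JJ (m + 4) (m + 2) w = K at *
  have hC : C = A - B := by linarith
  have hE : E = B - D := by linarith
  have hH : H = D - G := by linarith
  subst hC hE hH
  -- p1 : w D = (m+3)(A-B) - (m+1) B ; p2 : w G = (m+4) D - (m+1)(B-D) ; p3 : w K = ..
  linear_combination (-(m + 1 : ℝ) * (m + 3)) * p1 + (2 * (m + 2) * (m + 3) : ℝ) * p2 -
    (w * (m + 2)) * p3

theorem psi_rec (m : ℕ) (w : ℝ) :
    w * (m + 3) ^ 2 * psi (m + 1) w =
      (2 * m + 5) * (2 * (m + 2) * (m + 3) - w) * psi (m + 2) w +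
        w * (m + 2) ^ 2 * psi (m + 3) w := by
  have h := JJ_rec m w
  have hf0 : (0 : ℝ) < m ! := by positivity
  have hf1 : ((m + 1)! : ℝ) = (m + 1) * m ! := by
    rw [Nat.factorial_succ]; push_cast; ring
  have hf2 : ((m + 2)! : ℝ) = (m + 2) * ((m + 1) * m !) := by
    rw [show m + 2 = (m + 1) + 1 from rfl, Nat.factorial_succ, Nat.cast_mul, hf1]; push_cast; ring
  have e1 : psi (m + 1) w = w ^ (m + 2) / m ! * JJ (m + 2) m w := rfl
  have e2 : psi (m + 2) w = w ^ (m + 3) / (m + 1)! * JJ (m + 3) (m + 1) w := rfl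
  have e3 : psi (m + 3) w = w ^ (m + 4) / (m + 2)! * JJ (m + 4) (m + 2) w := rfl
  rw [e1, e2, e3, hf1, hf2]
  have h1 : (0 : ℝ) < m + 1 := by positivity
  have h2 : (0 : ℝ) < m + 2 := by positivity
  generalize JJ (m + 2) m w = A at *
  generalize JJ (m + 3) (m + 1) w = D at *
  generalize JJ (m + 4) (m + 2) w = K at *
  have h3 : A = ((2 * m + 5) * (2 * (m + 2) * (m + 3) - w) * D + w ^ 2 * (m + 2) * K) /
      ((m + 1 : ℝ) * (m + 3) ^ 2) := by
    rw [eq_div_iff (by positivity)]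
    linear_combination h
  rw [h3]
  field_simp
  ring


/-- `X_(m+1) ≤ w (m+3)/(2m+4) ψ_(m+1)` -/
theorem XX_le (m : ℕ) {w : ℝ} (hw : 0 < w) :
    XX (m + 1) w ≤ w * ((m + 3) / (2 * m + 4)) * psi (m + 1) w := by
  have p1 : w * JJ (m + 3) (m + 1) w =
      (m + 3 : ℝ) * JJ (m + 2) (m + 1) w - (m + 1) * JJ (m + 3) m w := by
    have := JJ_parts (m + 2) m w
    push_cast at this
    linear_combination this
  have a1 : JJ (m + 2) m w = JJ (m + 3) m w + JJ (m + 2) (m + 1) w := JJ_add (m + 2) m w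
  have hD := JJ_pos (m + 3) (m + 1) w
  have h1 : JJ (m + 3) m w ≤ (m + 3) / (2 * m + 4) * JJ (m + 2) m w := by
    rw [div_mul_eq_mul_div, le_div_iff₀ (by positivity)]
    have : 0 < w * JJ (m + 3) (m + 1) w := mul_pos hw hD
    nlinarith
  rw [XX_succ]
  have e1 : psi (m + 1) w = w ^ (m + 2) / m ! * JJ (m + 2) m w := rfl
  rw [e1]
  have h2 : 0 ≤ w ^ (m + 3) / (m ! : ℝ) := by positivity
  calc w ^ (m + 3) / (m ! : ℝ) * JJ (m + 3) m w
      ≤ w ^ (m + 3) / (m ! : ℝ) * ((m + 3) / (2 * m + 4) * JJ (m + 2) m w) :=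
        mul_le_mul_of_nonneg_left h1 h2
    _ = w * ((m + 3) / (2 * m + 4)) * (w ^ (m + 2) / m ! * JJ (m + 2) m w) := by ring

/-- **upper bound of the tails** -/
theorem Tl_le {a w g : ℝ} (ha0 : 0 < a) (ha1 : a < 1) (hw : 0 < w) (m : ℕ) (hg : 1 ≤ g)
    (h : (m : ℝ) + 2 - a ≤ g * ((m : ℝ) + 2 - a - w * ((m + 3) / (2 * m + 4)))) :
    Tl a w (m + 1) ≤ g * (CC a (m + 2) * psi (m + 1) w) := by
  have hC := CC_pos ha0 ha1 (m + 2)
  -- the difference
  set S : ℝ → ℝ := fun x => (g - 1) * CC a (m + 2) * (x ^ (-a) * psi (m + 1) x) -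
    RR a (m + 2) x with hS
  have hlim : Tendsto S (𝓝[>] 0) (𝓝 0) := by
    have h1 := (tendsto_psi ha1 (m + 1)).const_mul ((g - 1) * CC a (m + 2))
    have h2 := h1.sub (tendsto_RR ha1 (m + 2))
    simpa using h2
  have hder : ∀ x : ℝ, 0 < x → HasDerivAt S ((g - 1) * CC a (m + 2) *
      (-a * x ^ (-a - 1) * psi (m + 1) x + x ^ (-a) * psi' (m + 1) x) -
      x ^ (-a - 1) * (CC a (m + 2) * XX (m + 1) x)) x := by
    intro x hx
    have h2 : HasDerivAt (fun w : ℝ => w ^ (-a)) (-a * x ^ (-a - 1)) x :=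
      Real.hasDerivAt_rpow_const (Or.inl hx.ne')
    exact ((h2.mul (hasDerivAt_psi (m + 1) x)).const_mul _).sub (hasDerivAt_RR ha1 hx (m + 1))
  have hnn : ∀ x : ℝ, 0 < x → x ≤ w → 0 ≤ (g - 1) * CC a (m + 2) *
      (-a * x ^ (-a - 1) * psi (m + 1) x + x ^ (-a) * psi' (m + 1) x) -
      x ^ (-a - 1) * (CC a (m + 2) * XX (m + 1) x) := by
    intro x hx hxw
    have e : x ^ (-a) = x ^ (-a - 1) * x := by
      rw [show (-a : ℝ) = (-a - 1) + 1 by ring, Real.rpow_add hx, Real.rpow_one]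
      ring_nf
    have hX : XX (m + 1) x = ((m : ℝ) + 2) * psi (m + 1) x - x * psi' (m + 1) x := by
      unfold XX; push_cast; ring
    have e2 : (g - 1) * CC a (m + 2) *
      (-a * x ^ (-a - 1) * psi (m + 1) x + x ^ (-a) * psi' (m + 1) x) -
      x ^ (-a - 1) * (CC a (m + 2) * XX (m + 1) x) = CC a (m + 2) * x ^ (-a - 1) *
        ((g - 1) * ((m : ℝ) + 2 - a) * psi (m + 1) x - g * XX (m + 1) x) := by
      rw [e]
      linear_combination ((g - 1) * CC a (m + 2) * x ^ (-a - 1)) * hX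
    rw [e2]
    have h1 := XX_le m hx
    have h2 := psi_pos (m + 1) hx
    have h3 : 0 < x ^ (-a - 1) := Real.rpow_pos_of_pos hx _
    have h4 : 0 ≤ (g - 1) * ((m : ℝ) + 2 - a) * psi (m + 1) x - g * XX (m + 1) x := by
      have h5 : g * XX (m + 1) x ≤ g * (x * ((m + 3) / (2 * m + 4)) * psi (m + 1) x) :=
        mul_le_mul_of_nonneg_left h1 (by linarith)
      have hpos : (0 : ℝ) ≤ (m + 3) / (2 * m + 4) := by positivity
      have h6 : g * (x * ((m + 3) / (2 * m + 4))) ≤ g * (w * ((m + 3) / (2 * m + 4))) :=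
        mul_le_mul_of_nonneg_left (mul_le_mul_of_nonneg_right hxw hpos) (by linarith)
      have h7 : 0 ≤ ((g - 1) * ((m : ℝ) + 2 - a) - g * (x * ((m + 3) / (2 * m + 4)))) *
          psi (m + 1) x := mul_nonneg (by linarith) h2.le
      nlinarith
    positivity
  have hmono : MonotoneOn S (Ioc 0 w) := by
    refine monotoneOn_of_deriv_nonneg (convex_Ioc 0 w) ?_ ?_ ?_
    · exact fun x hx => (hder x hx.1).continuousAt.continuousWithinAt
    · intro x hx
      rw [interior_Ioc] at hx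
      exact (hder x hx.1).differentiableAt.differentiableWithinAt
    · intro x hx
      rw [interior_Ioc] at hx
      rw [(hder x hx.1).deriv]
      exact hnn x hx.1 hx.2.le
  have hSw : 0 ≤ S w := by
    refine le_of_tendsto hlim ?_
    filter_upwards [Ioo_mem_nhdsGT hw] with x hx
    exact hmono ⟨hx.1, hx.2.le⟩ ⟨hw, le_rfl⟩ hx.2.le
  rw [Tl_eq]
  have h1 : zz a w - sn a (m + 2) w = w ^ a * RR a (m + 2) w := by
    unfold RR
    have h2 : w ^ a * (w ^ (-a) * sn a (m + 2) w) = sn a (m + 2) w := by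
      rw [← mul_assoc, ← Real.rpow_add hw, add_neg_cancel, Real.rpow_zero, one_mul]
    rw [mul_sub, h2]
    rfl
  have h2 : w ^ a * RR a (m + 2) w ≤ (g - 1) * (CC a (m + 2) * psi (m + 1) w) := by
    have h3 : 0 < w ^ a := Real.rpow_pos_of_pos hw a
    have h4 : 0 ≤ w ^ a * S w := mul_nonneg h3.le hSw
    have h5 : w ^ a * (w ^ (-a) * psi (m + 1) w) = psi (m + 1) w := by
      rw [← mul_assoc, ← Real.rpow_add hw, add_neg_cancel, Real.rpow_zero, one_mul]
    have h6 : w ^ a * S w = (g - 1) * CC a (m + 2) * (w ^ a * (w ^ (-a) * psi (m + 1) w)) -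
        w ^ a * RR a (m + 2) w := by
      rw [hS]; ring
    rw [h6, h5] at h4
    linarith
  have h3 : zz a w - sn a (m + 1 + 1) w ≤ (g - 1) * (CC a (m + 2) * psi (m + 1) w) := by
    rw [show m + 1 + 1 = m + 2 from rfl, h1]; exact h2
  have h4 : CC a (m + 1 + 1) * psi (m + 1) w = CC a (m + 2) * psi (m + 1) w := rfl
  linarith


/-! ### Rational bounds of the ratios of `ψ` -/

/-- upper bound of `ψ_(m+2)/ψ_(m+1)` from a lower bound `l` of the next ratio -/
theorem psi_ub {w l u : ℝ} (m : ℕ) (hw : 0 < w) (hl : l * psi (m + 2) w ≤ psi (m + 3) w)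
    (hD : 0 < (2 * m + 5) * (2 * (m + 2) * (m + 3) - w) + w * (m + 2) ^ 2 * l)
    (hu : w * (m + 3) ^ 2 ≤ u * ((2 * m + 5) * (2 * (m + 2) * (m + 3) - w) +
      w * (m + 2) ^ 2 * l)) :
    psi (m + 2) w ≤ u * psi (m + 1) w := by
  have h := psi_rec m w
  have h1 := psi_pos (m + 1) hw
  have hk : (0 : ℝ) ≤ w * (m + 2) ^ 2 := by positivity
  have h2 : ((2 * m + 5) * (2 * (m + 2) * (m + 3) - w) + w * (m + 2) ^ 2 * l) *
      psi (m + 2) w ≤ w * (m + 3) ^ 2 * psi (m + 1) w := by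
    have h3 := mul_le_mul_of_nonneg_left hl hk
    linarith
  have h4 := mul_le_mul_of_nonneg_right hu h1.le
  have h5 : ((2 * m + 5) * (2 * (m + 2) * (m + 3) - w) + w * (m + 2) ^ 2 * l) *
      psi (m + 2) w ≤ ((2 * m + 5) * (2 * (m + 2) * (m + 3) - w) + w * (m + 2) ^ 2 * l) *
      (u * psi (m + 1) w) := by linarith
  exact le_of_mul_le_mul_left h5 hD

/-- lower bound of `ψ_(m+2)/ψ_(m+1)` from an upper bound `u` of the next ratio -/
theorem psi_lb {w l u : ℝ} (m : ℕ) (hw : 0 < w) (hu : psi (m + 3) w ≤ u * psi (m + 2) w)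
    (hD : 0 < (2 * m + 5) * (2 * (m + 2) * (m + 3) - w) + w * (m + 2) ^ 2 * u)
    (hl : l * ((2 * m + 5) * (2 * (m + 2) * (m + 3) - w) + w * (m + 2) ^ 2 * u) ≤
      w * (m + 3) ^ 2) :
    l * psi (m + 1) w ≤ psi (m + 2) w := by
  have h := psi_rec m w
  have h1 := psi_pos (m + 1) hw
  have hk : (0 : ℝ) ≤ w * (m + 2) ^ 2 := by positivity
  have h2 : w * (m + 3) ^ 2 * psi (m + 1) w ≤
      ((2 * m + 5) * (2 * (m + 2) * (m + 3) - w) + w * (m + 2) ^ 2 * u) * psi (m + 2) w := by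
    have h3 := mul_le_mul_of_nonneg_left hu hk
    linarith
  have h4 := mul_le_mul_of_nonneg_right hl h1.le
  have h5 : ((2 * m + 5) * (2 * (m + 2) * (m + 3) - w) + w * (m + 2) ^ 2 * u) *
      (l * psi (m + 1) w) ≤ ((2 * m + 5) * (2 * (m + 2) * (m + 3) - w) +
      w * (m + 2) ^ 2 * u) * psi (m + 2) w := by linarith
  exact le_of_mul_le_mul_left h5 hD

/-! ### The recursions -/

/-- `M_j = (2j+1)/((j+a)(j+1-a))` -/
noncomputable def Mk (a : ℝ) (j : ℕ) : ℝ := (2 * j + 1) / ((j + a) * (j + 1 - a))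

theorem Mk_pos {a : ℝ} (ha0 : 0 < a) (ha1 : a < 1) (j : ℕ) : 0 < Mk a j := by
  have hj : (0 : ℝ) ≤ j := Nat.cast_nonneg j
  have h1 : (0 : ℝ) < j + 1 - a := by linarith
  unfold Mk
  positivity

theorem Mk_anti {a : ℝ} (ha0 : 0 < a) (ha1 : a < 1) (j : ℕ) : Mk a (j + 1) ≤ Mk a j := by
  have hj : (0 : ℝ) ≤ j := Nat.cast_nonneg j
  have h1 : (0 : ℝ) < j + 1 - a := by linarith
  have h2 : (0 : ℝ) < j + a := by linarith
  have e : ∀ x : ℝ, 0 < x + 1 - a → 0 < x + a →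
      (2 * x + 1) / ((x + a) * (x + 1 - a)) = 1 / (x + a) + 1 / (x + 1 - a) := by
    intro x hx hx'
    field_simp
    ring
  unfold Mk
  push_cast
  rw [e j h1 h2, e (j + 1) (by linarith) (by linarith)]
  have h3 : 1 / ((j : ℝ) + 1 + a) ≤ 1 / (j + a) := one_div_le_one_div_of_le h2 (by linarith)
  have h4 : 1 / ((j : ℝ) + 1 + 1 - a) ≤ 1 / (j + 1 - a) :=
    one_div_le_one_div_of_le h1 (by linarith)
  linarith

/-- the statement `Λ_(j+1) ≤ q λ_j` for all `n` -/
def RB (a c : ℝ) (j : ℕ) (q : ℝ) : Prop :=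
  ∀ n : ℕ, ∑ i ∈ Finset.Ico (j + 1) n, Tl a c i * Mk a i ≤ q * (Tl a c j * Mk a j)

theorem RB.mono {a c : ℝ} (ha0 : 0 < a) (ha1 : a < 1) (hc : 0 < c) {j : ℕ} {q q' : ℝ}
    (h : RB a c j q) (hq : q ≤ q') : RB a c j q' := by
  intro n
  have h1 := Tl_pos ha0 ha1 hc j
  have h2 := Mk_pos ha0 ha1 j
  exact (h n).trans (mul_le_mul_of_nonneg_right hq (by positivity))

/-- one step of the ratio bounds -/
theorem RB.step {a c : ℝ} (ha0 : 0 < a) (ha1 : a < 1) (hc : 0 < c) {j : ℕ} {q q' ρ : ℝ}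
    (h : RB a c (j + 1) q') (hq' : 0 ≤ q') (hq : 0 ≤ q) (hρ : Tl a c (j + 1) ≤ ρ * Tl a c j)
    (hs : ρ * Mk a (j + 1) * (1 + q') ≤ q * Mk a j) : RB a c j q := by
  intro n
  have h1 := Tl_pos ha0 ha1 hc j
  have h2 := Mk_pos ha0 ha1 j
  have h3 := Mk_pos ha0 ha1 (j + 1)
  rcases le_or_gt n (j + 1) with hn | hn
  · rw [Finset.Ico_eq_empty_of_le hn, Finset.sum_empty]
    positivity
  · rw [Finset.sum_eq_sum_Ico_succ_bot hn]
    have h4 := h n
    calc Tl a c (j + 1) * Mk a (j + 1) + ∑ i ∈ Finset.Ico (j + 1 + 1) n, Tl a c i * Mk a i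
        ≤ Tl a c (j + 1) * Mk a (j + 1) + q' * (Tl a c (j + 1) * Mk a (j + 1)) := by linarith
      _ = Tl a c (j + 1) * (Mk a (j + 1) * (1 + q')) := by ring
      _ ≤ ρ * Tl a c j * (Mk a (j + 1) * (1 + q')) :=
        mul_le_mul_of_nonneg_right hρ (by positivity)
      _ = Tl a c j * (ρ * Mk a (j + 1) * (1 + q')) := by ring
      _ ≤ Tl a c j * (q * Mk a j) := mul_le_mul_of_nonneg_left hs h1.le
      _ = q * (Tl a c j * Mk a j) := by ring

/-- uniform ratio bounds from level `J` on -/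
theorem RB.unif {a c : ℝ} (ha0 : 1 / 2 ≤ a) (ha1 : a < 1) (hc : 0 < c) {J : ℕ} {q ρ : ℝ}
    (hJ : 1 ≤ J) (hρ : c / (4 * J) * ((J + 1 + a) / (J + 2 - a)) ≤ ρ) (hρ0 : 0 ≤ ρ)
    (hqn : 0 ≤ q) (hs : ρ * (1 + q) ≤ q) : ∀ j, J ≤ j → RB a c j q := by
  have ha : 0 < a := by linarith
  have hq0 : 0 ≤ q ∨ q < 0 := le_or_gt 0 q
  have hρj : ∀ j, J ≤ j → Tl a c (j + 1) ≤ ρ * Tl a c j := by
    intro j hj
    obtain ⟨i, rfl⟩ : ∃ i, j = i + 1 := ⟨j - 1, by omega⟩
    have h1 := Enc.Tl_ratio ha ha1 hc i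
    have h2 := Tl_pos ha ha1 hc (i + 1)
    refine h1.trans (mul_le_mul_of_nonneg_right (le_trans ?_ hρ) h2.le)
    have hJ' : (1 : ℝ) ≤ J := by exact_mod_cast hJ
    have hij : (J : ℝ) ≤ i + 1 := by exact_mod_cast hj
    have h3 : c / (4 * ((i : ℝ) + 1)) ≤ c / (4 * J) :=
      div_le_div_of_nonneg_left hc.le (by linarith) (by linarith)
    have h4 : ((i : ℝ) + 2 + a) / (i + 3 - a) ≤ (J + 1 + a) / (J + 2 - a) := by
      rw [div_le_div_iff₀ (by linarith) (by linarith)]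
      nlinarith
    have h5 : 0 ≤ ((i : ℝ) + 2 + a) / (i + 3 - a) :=
      div_nonneg (by positivity) (by linarith)
    exact mul_le_mul h3 h4 h5 (by positivity)
  have key : ∀ m j : ℕ, J ≤ j →
      ∑ i ∈ Finset.Ico (j + 1) (j + 1 + m), Tl a c i * Mk a i ≤ max q 0 * (Tl a c j * Mk a j) := by
    intro m
    induction m with
    | zero =>
      intro j hj
      have h1 := Tl_pos ha ha1 hc j
      have h2 := Mk_pos ha ha1 j
      simp only [Nat.add_zero, Finset.Ico_self, Finset.sum_empty]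
      positivity
    | succ m ih =>
      intro j hj
      have h1 := Tl_pos ha ha1 hc j
      have h2 := Mk_pos ha ha1 j
      have h3 := Mk_pos ha ha1 (j + 1)
      rw [Finset.sum_eq_sum_Ico_succ_bot (by omega)]
      have h4 := ih (j + 1) (by omega)
      rw [show j + 1 + 1 + m = j + 1 + (m + 1) by omega] at h4
      have hm : 0 ≤ max q 0 := le_max_right _ _
      have h5 : ρ * (1 + max q 0) ≤ max q 0 := by
        rcases hq0 with h | h
        · rw [max_eq_left h]; exact hs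
        · exfalso
          linarith
      calc Tl a c (j + 1) * Mk a (j + 1) +
            ∑ i ∈ Finset.Ico (j + 1 + 1) (j + 1 + (m + 1)), Tl a c i * Mk a i
          ≤ Tl a c (j + 1) * Mk a (j + 1) + max q 0 * (Tl a c (j + 1) * Mk a (j + 1)) := by
            linarith
        _ = Tl a c (j + 1) * (Mk a (j + 1) * (1 + max q 0)) := by ring
        _ ≤ ρ * Tl a c j * (Mk a (j + 1) * (1 + max q 0)) :=
          mul_le_mul_of_nonneg_right (hρj j hj) (by positivity)
        _ ≤ ρ * Tl a c j * (Mk a j * (1 + max q 0)) := by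
          apply mul_le_mul_of_nonneg_left _ (by positivity)
          exact mul_le_mul_of_nonneg_right (Mk_anti ha ha1 j) (by positivity)
        _ = (ρ * (1 + max q 0)) * (Tl a c j * Mk a j) := by ring
        _ ≤ max q 0 * (Tl a c j * Mk a j) := mul_le_mul_of_nonneg_right h5 (by positivity)
  intro j hj n
  have hqq : 0 ≤ q := by
    rcases hq0 with h | h
    · exact h
    · exfalso
      linarith
  rcases le_or_gt n (j + 1) with hn | hn
  · have h1 := Tl_pos ha ha1 hc j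
    have h2 := Mk_pos ha ha1 j
    rw [Finset.Ico_eq_empty_of_le hn, Finset.sum_empty]
    positivity
  · obtain ⟨m, rfl⟩ : ∃ m, n = j + 1 + m := ⟨n - (j + 1), by omega⟩
    have h := key m j hj
    rw [max_eq_left hqq] at h
    exact h

/-- `T_j ≤ g C_(j+1) ψ_j`, `j = m + 1` -/
def GB (a c : ℝ) (m : ℕ) (g : ℝ) : Prop :=
  Tl a c (m + 1) ≤ g * (CC a (m + 2) * psi (m + 1) c)

theorem CC_succ' (a : ℝ) (m : ℕ) :
    CC a (m + 3) = CC a (m + 2) * ((m + 2 + a) / (m + 3 - a)) := by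
  have : CC a (m + 3) = CC a (m + 2) * (((m + 2 : ℕ) + a) / (((m + 2 : ℕ) : ℝ) + 1 - a)) := rfl
  rw [this]
  push_cast
  ring_nf

/-- step of the `g` recursion: `j = m + 1`, cleared denominators -/
theorem GB.step {a c : ℝ} (ha0 : 0 < a) (ha1 : a < 1) (hc : 0 < c) {m : ℕ} {g g' r : ℝ}
    (h : GB a c (m + 1) g') (hr : psi (m + 2) c ≤ r * psi (m + 1) c) (hg' : 0 ≤ g')
    (hs : (1 + r) * (m + 3 - a) + r * (m + 2 + a) * g' ≤ g * (m + 3 - a)) :
    GB a c m g := by
  unfold GB at *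
  have hC := CC_pos ha0 ha1 (m + 2)
  have hC3 := CC_pos ha0 ha1 (m + 3)
  have hp := psi_pos (m + 1) hc
  have hm : (0 : ℝ) ≤ m := Nat.cast_nonneg m
  have hu : (0 : ℝ) < m + 3 - a := by linarith
  have h1 : Tl a c (m + 1) = Tl a c (m + 2) + CC a (m + 2) * (psi (m + 2) c + psi (m + 1) c) := by
    have := Tl_succ a c (m + 1)
    simp only [Bs] at this
    linarith
  have h2 : Tl a c (m + 2) ≤ g' * (CC a (m + 3) * psi (m + 2) c) := h
  have h3 : CC a (m + 3) * (m + 3 - a) = CC a (m + 2) * (m + 2 + a) := by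
    rw [CC_succ']; field_simp
  have h4 : g' * (CC a (m + 3) * psi (m + 2) c) ≤ g' * (CC a (m + 3) * (r * psi (m + 1) c)) :=
    mul_le_mul_of_nonneg_left (mul_le_mul_of_nonneg_left hr hC3.le) hg'
  have h5 : CC a (m + 2) * psi (m + 2) c ≤ CC a (m + 2) * (r * psi (m + 1) c) :=
    mul_le_mul_of_nonneg_left hr hC.le
  have h6 : Tl a c (m + 1) ≤ g' * (CC a (m + 3) * (r * psi (m + 1) c)) +
      CC a (m + 2) * psi (m + 1) c * (1 + r) := by
    rw [h1]; linarith
  have h7 : (g' * (CC a (m + 3) * (r * psi (m + 1) c)) +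
      CC a (m + 2) * psi (m + 1) c * (1 + r)) * (m + 3 - a) ≤
      g * (CC a (m + 2) * psi (m + 1) c) * (m + 3 - a) := by
    have h8 : (g' * (CC a (m + 3) * (r * psi (m + 1) c)) +
        CC a (m + 2) * psi (m + 1) c * (1 + r)) * (m + 3 - a) =
        CC a (m + 2) * psi (m + 1) c * ((1 + r) * (m + 3 - a) + r * (m + 2 + a) * g') := by
      linear_combination (g' * r * psi (m + 1) c) * h3
    rw [h8]
    have h9 := mul_le_mul_of_nonneg_left hs (mul_pos hC hp).le
    linarith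
  exact h6.trans (le_of_mul_le_mul_right h7 hu)

/-- step of the `q` recursion: `j = m + 1`, cleared denominators -/
theorem RB.gstep {a c : ℝ} (ha0 : 0 < a) (ha1 : a < 1) (hc : 0 < c) {m : ℕ} {g' q q' r : ℝ}
    (h : RB a c (m + 2) q') (hg : GB a c (m + 1) g')
    (hr : psi (m + 2) c ≤ r * psi (m + 1) c) (hr0 : 0 < r) (hg' : 0 < g') (hq' : 0 ≤ q')
    (hq : 0 ≤ q)
    (hs : g' * (2 * m + 5) * (1 + q') * ((m + 2 - a) * (m + 1 + a)) * r ≤
      q * (2 * m + 3) * (m + 3 - a) * (r * (m + 2 + a) * g' + (1 + r) * (m + 3 - a))) :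
    RB a c (m + 1) q := by
  have hm : (0 : ℝ) ≤ m := Nat.cast_nonneg m
  have hu : (0 : ℝ) < m + 3 - a := by linarith
  have hu0 : (0 : ℝ) < m + 2 - a := by linarith
  have hC := CC_pos ha0 ha1 (m + 2)
  have hp := psi_pos (m + 2) hc
  have hT2 := Tl_pos ha0 ha1 hc (m + 2)
  set D : ℝ := r * (m + 2 + a) * g' + (1 + r) * (m + 3 - a) with hD
  have hDp : 0 < D := by positivity
  have hρ : Tl a c (m + 1 + 1) ≤ (r * (m + 2 + a) * g' / D) * Tl a c (m + 1) := by
    have h1 : Tl a c (m + 1) = Tl a c (m + 2) +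
        CC a (m + 2) * (psi (m + 2) c + psi (m + 1) c) := by
      have := Tl_succ a c (m + 1)
      simp only [Bs] at this
      linarith
    have h2 : Tl a c (m + 2) ≤ g' * (CC a (m + 3) * psi (m + 2) c) := hg
    have h3 : CC a (m + 3) * (m + 3 - a) = CC a (m + 2) * (m + 2 + a) := by
      rw [CC_succ']; field_simp
    rw [div_mul_eq_mul_div, le_div_iff₀ hDp]
    have h4 : Tl a c (m + 2) * (m + 3 - a) ≤ g' * (m + 2 + a) * (CC a (m + 2) * psi (m + 2) c) := by
      have := mul_le_mul_of_nonneg_right h2 hu.le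
      have e : g' * (CC a (m + 3) * psi (m + 2) c) * (m + 3 - a) =
          g' * (m + 2 + a) * (CC a (m + 2) * psi (m + 2) c) := by
        linear_combination (g' * psi (m + 2) c) * h3
      linarith
    have h5 : (1 + r) * (CC a (m + 2) * psi (m + 2) c) ≤
        r * (CC a (m + 2) * (psi (m + 2) c + psi (m + 1) c)) := by
      have := mul_le_mul_of_nonneg_left hr hC.le
      linarith
    have h6 : (1 + r) * (Tl a c (m + 2) * (m + 3 - a)) ≤
        g' * (m + 2 + a) * (r * (CC a (m + 2) * (psi (m + 2) c + psi (m + 1) c))) := by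
      calc (1 + r) * (Tl a c (m + 2) * (m + 3 - a))
          ≤ (1 + r) * (g' * (m + 2 + a) * (CC a (m + 2) * psi (m + 2) c)) :=
            mul_le_mul_of_nonneg_left h4 (by linarith)
        _ = g' * (m + 2 + a) * ((1 + r) * (CC a (m + 2) * psi (m + 2) c)) := by ring
        _ ≤ _ := mul_le_mul_of_nonneg_left h5 (by positivity)
    rw [show m + 1 + 1 = m + 2 from rfl, h1, hD]
    linarith
  refine RB.step ha0 ha1 hc h hq' hq hρ ?_
  have e1 : Mk a (m + 1 + 1) = (2 * m + 5) / ((m + 2 + a) * (m + 3 - a)) := by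
    unfold Mk; push_cast; ring_nf
  have e2 : Mk a (m + 1) = (2 * m + 3) / ((m + 1 + a) * (m + 2 - a)) := by
    unfold Mk; push_cast; ring_nf
  rw [e1, e2]
  have e3 : r * (m + 2 + a) * g' / D * ((2 * m + 5) / ((m + 2 + a) * (m + 3 - a))) * (1 + q') =
      r * g' * (2 * m + 5) * (1 + q') / (D * (m + 3 - a)) := by
    field_simp
  rw [e3, mul_div_assoc', div_le_div_iff₀ (by positivity) (by positivity)]
  linarith

end Pool.Agent.Lib.QNL.Num93
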