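import Pool.Agent.Lib.QNL.PolyPos

/-!
Evaluation of numerals in `PolyPos.Ex`.
-/

set_option autoImplicit false

namespace Pool.Agent.Lib.QNL.Num93

open Pool.Agent.Lib.QNL.PolyPos

variable (a : ℝ)

theorem ev_2 : Ex.ev 0 0 a (2 : Ex) = 2 := Ex.ev_ofNat 0 0 a 2
theorem ev_3 : Ex.ev 0 0 a (3 : Ex) = 3 := Ex.ev_ofNat 0 0 a 3
theorem ev_4 : Ex.ev 0 0 a (4 : Ex) = 4 := Ex.ev_ofNat 0 0 a 4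
theorem ev_5 : Ex.ev 0 0 a (5 : Ex) = 5 := Ex.ev_ofNat 0 0 a 5
theorem ev_6 : Ex.ev 0 0 a (6 : Ex) = 6 := Ex.ev_ofNat 0 0 a 6
theorem ev_7 : Ex.ev 0 0 a (7 : Ex) = 7 := Ex.ev_ofNat 0 0 a 7
theorem ev_8 : Ex.ev 0 0 a (8 : Ex) = 8 := Ex.ev_ofNat 0 0 a 8
theorem ev_24 : Ex.ev 0 0 a (24 : Ex) = 24 := Ex.ev_ofNat 0 0 a 24
theorem ev_169 : Ex.ev 0 0 a (169 : Ex) = 169 := Ex.ev_ofNat 0 0 a 169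
theorem ev_1000 : Ex.ev 0 0 a (1000 : Ex) = 1000 := Ex.ev_ofNat 0 0 a 1000
theorem ev_1001 : Ex.ev 0 0 a (1001 : Ex) = 1001 := Ex.ev_ofNat 0 0 a 1001

end Pool.Agent.Lib.QNL.Num93
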