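import Pool.Agent.Lib.QNL.Num93

/-!
Rational upper bounds of `ψ_(j+1)/ψ_j`, `j = 1, …, 5`, at `c = 7/4, 2, 5/2, 3`.
-/

set_option autoImplicit false

namespace Pool.Agent.Lib.QNL.Num93

open Pool.Agent.Lib.QNL.Wts73

/-- ratios of `ψ` at `c = 7 / 4` -/
theorem psi_r74 :
    psi 2 (7 / 4 : ℝ) ≤ (300043 / 1000000) * psi 1 (7 / 4 : ℝ) ∧
    psi 3 (7 / 4 : ℝ) ≤ (22189 / 125000) * psi 2 (7 / 4 : ℝ) ∧
    psi 4 (7 / 4 : ℝ) ≤ (63043 / 500000) * psi 3 (7 / 4 : ℝ) ∧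
    psi 5 (7 / 4 : ℝ) ≤ (97789 / 1000000) * psi 4 (7 / 4 : ℝ) ∧
    psi 6 (7 / 4 : ℝ) ≤ (79879 / 1000000) * psi 5 (7 / 4 : ℝ) := by
  have hw : (0 : ℝ) < 7 / 4 := by norm_num
  have z9 := psi_pos 9 hw
  have z8 := psi_pos 8 hw
  have u7 : psi 8 (7 / 4 : ℝ) ≤ (58617 / 1000000) * psi 7 (7 / 4 : ℝ) :=
    psi_ub (l := 0) 6 hw (by simpa using z9.le) (by norm_num) (by norm_num)
  have l6 : (67519 / 1000000) * psi 6 (7 / 4 : ℝ) ≤ psi 7 (7 / 4 : ℝ) :=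
    psi_lb (u := 58617 / 1000000) 5 hw u7 (by norm_num) (by norm_num)
  have u6 : psi 7 (7 / 4 : ℝ) ≤ (2709 / 40000) * psi 6 (7 / 4 : ℝ) :=
    psi_ub (l := 0) 5 hw (by simpa using z8.le) (by norm_num) (by norm_num)
  have u5 : psi 6 (7 / 4 : ℝ) ≤ (79879 / 1000000) * psi 5 (7 / 4 : ℝ) :=
    psi_ub (l := 67519 / 1000000) 4 hw l6 (by norm_num) (by norm_num)
  have l5 : (79877 / 1000000) * psi 5 (7 / 4 : ℝ) ≤ psi 6 (7 / 4 : ℝ) :=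
    psi_lb (u := 2709 / 40000) 4 hw u6 (by norm_num) (by norm_num)
  have u4 : psi 5 (7 / 4 : ℝ) ≤ (97789 / 1000000) * psi 4 (7 / 4 : ℝ) :=
    psi_ub (l := 79877 / 1000000) 3 hw l5 (by norm_num) (by norm_num)
  have l4 : (24447 / 250000) * psi 4 (7 / 4 : ℝ) ≤ psi 5 (7 / 4 : ℝ) :=
    psi_lb (u := 79879 / 1000000) 3 hw u5 (by norm_num) (by norm_num)
  have u3 : psi 4 (7 / 4 : ℝ) ≤ (63043 / 500000) * psi 3 (7 / 4 : ℝ) :=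
    psi_ub (l := 24447 / 250000) 2 hw l4 (by norm_num) (by norm_num)
  have l3 : (25217 / 200000) * psi 3 (7 / 4 : ℝ) ≤ psi 4 (7 / 4 : ℝ) :=
    psi_lb (u := 97789 / 1000000) 2 hw u4 (by norm_num) (by norm_num)
  have u2 : psi 3 (7 / 4 : ℝ) ≤ (22189 / 125000) * psi 2 (7 / 4 : ℝ) :=
    psi_ub (l := 25217 / 200000) 1 hw l3 (by norm_num) (by norm_num)
  have l2 : (177511 / 1000000) * psi 2 (7 / 4 : ℝ) ≤ psi 3 (7 / 4 : ℝ) :=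
    psi_lb (u := 63043 / 500000) 1 hw u3 (by norm_num) (by norm_num)
  have u1 : psi 2 (7 / 4 : ℝ) ≤ (300043 / 1000000) * psi 1 (7 / 4 : ℝ) :=
    psi_ub (l := 177511 / 1000000) 0 hw l2 (by norm_num) (by norm_num)
  exact ⟨u1, u2, u3, u4, u5⟩

/-- ratios of `ψ` at `c = 2` -/
theorem psi_r2 :
    psi 2 (2 : ℝ) ≤ (348603 / 1000000) * psi 1 (2 : ℝ) ∧
    psi 3 (2 : ℝ) ≤ (204337 / 1000000) * psi 2 (2 : ℝ) ∧
    psi 4 (2 : ℝ) ≤ (72341 / 500000) * psi 3 (2 : ℝ) ∧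
    psi 5 (2 : ℝ) ≤ (2241 / 20000) * psi 4 (2 : ℝ) ∧
    psi 6 (2 : ℝ) ≤ (1429 / 15625) * psi 5 (2 : ℝ) := by
  have hw : (0 : ℝ) < 2 := by norm_num
  have z9 := psi_pos 9 hw
  have z8 := psi_pos 8 hw
  have u7 : psi 8 (2 : ℝ) ≤ (67109 / 1000000) * psi 7 (2 : ℝ) :=
    psi_ub (l := 0) 6 hw (by simpa using z9.le) (by norm_num) (by norm_num)
  have l6 : (77267 / 1000000) * psi 6 (2 : ℝ) ≤ psi 7 (2 : ℝ) :=
    psi_lb (u := 67109 / 1000000) 5 hw u7 (by norm_num) (by norm_num)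
  have u6 : psi 7 (2 : ℝ) ≤ (9697 / 125000) * psi 6 (2 : ℝ) :=
    psi_ub (l := 0) 5 hw (by simpa using z8.le) (by norm_num) (by norm_num)
  have u5 : psi 6 (2 : ℝ) ≤ (1429 / 15625) * psi 5 (2 : ℝ) :=
    psi_ub (l := 77267 / 1000000) 4 hw l6 (by norm_num) (by norm_num)
  have l5 : (91453 / 1000000) * psi 5 (2 : ℝ) ≤ psi 6 (2 : ℝ) :=
    psi_lb (u := 9697 / 125000) 4 hw u6 (by norm_num) (by norm_num)
  have u4 : psi 5 (2 : ℝ) ≤ (2241 / 20000) * psi 4 (2 : ℝ) :=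
    psi_ub (l := 91453 / 1000000) 3 hw l5 (by norm_num) (by norm_num)
  have l4 : (112049 / 1000000) * psi 4 (2 : ℝ) ≤ psi 5 (2 : ℝ) :=
    psi_lb (u := 1429 / 15625) 3 hw u5 (by norm_num) (by norm_num)
  have u3 : psi 4 (2 : ℝ) ≤ (72341 / 500000) * psi 3 (2 : ℝ) :=
    psi_ub (l := 112049 / 1000000) 2 hw l4 (by norm_num) (by norm_num)
  have l3 : (144681 / 1000000) * psi 3 (2 : ℝ) ≤ psi 4 (2 : ℝ) :=
    psi_lb (u := 2241 / 20000) 2 hw u4 (by norm_num) (by norm_num)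
  have u2 : psi 3 (2 : ℝ) ≤ (204337 / 1000000) * psi 2 (2 : ℝ) :=
    psi_ub (l := 144681 / 1000000) 1 hw l3 (by norm_num) (by norm_num)
  have l2 : (12771 / 62500) * psi 2 (2 : ℝ) ≤ psi 3 (2 : ℝ) :=
    psi_lb (u := 72341 / 500000) 1 hw u3 (by norm_num) (by norm_num)
  have u1 : psi 2 (2 : ℝ) ≤ (348603 / 1000000) * psi 1 (2 : ℝ) :=
    psi_ub (l := 12771 / 62500) 0 hw l2 (by norm_num) (by norm_num)
  exact ⟨u1, u2, u3, u4, u5⟩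

/-- ratios of `ψ` at `c = 5 / 2` -/
theorem psi_r52 :
    psi 2 (5 / 2 : ℝ) ≤ (7019 / 15625) * psi 1 (5 / 2 : ℝ) ∧
    psi 3 (5 / 2 : ℝ) ≤ (16171 / 62500) * psi 2 (5 / 2 : ℝ) ∧
    psi 4 (5 / 2 : ℝ) ≤ (45537 / 250000) * psi 3 (5 / 2 : ℝ) ∧
    psi 5 (5 / 2 : ℝ) ≤ (140699 / 1000000) * psi 4 (5 / 2 : ℝ) ∧
    psi 6 (5 / 2 : ℝ) ≤ (57339 / 500000) * psi 5 (5 / 2 : ℝ) := by
  have hw : (0 : ℝ) < 5 / 2 := by norm_num
  have z9 := psi_pos 9 hw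
  have z8 := psi_pos 8 hw
  have u7 : psi 8 (5 / 2 : ℝ) ≤ (84183 / 1000000) * psi 7 (5 / 2 : ℝ) :=
    psi_ub (l := 0) 6 hw (by simpa using z9.le) (by norm_num) (by norm_num)
  have l6 : (24201 / 250000) * psi 6 (5 / 2 : ℝ) ≤ psi 7 (5 / 2 : ℝ) :=
    psi_lb (u := 84183 / 1000000) 5 hw u7 (by norm_num) (by norm_num)
  have u6 : psi 7 (5 / 2 : ℝ) ≤ (97413 / 1000000) * psi 6 (5 / 2 : ℝ) :=
    psi_ub (l := 0) 5 hw (by simpa using z8.le) (by norm_num) (by norm_num)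
  have u5 : psi 6 (5 / 2 : ℝ) ≤ (57339 / 500000) * psi 5 (5 / 2 : ℝ) :=
    psi_ub (l := 24201 / 250000) 4 hw l6 (by norm_num) (by norm_num)
  have l5 : (114671 / 1000000) * psi 5 (5 / 2 : ℝ) ≤ psi 6 (5 / 2 : ℝ) :=
    psi_lb (u := 97413 / 1000000) 4 hw u6 (by norm_num) (by norm_num)
  have u4 : psi 5 (5 / 2 : ℝ) ≤ (140699 / 1000000) * psi 4 (5 / 2 : ℝ) :=
    psi_ub (l := 114671 / 1000000) 3 hw l5 (by norm_num) (by norm_num)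
  have l4 : (70349 / 500000) * psi 4 (5 / 2 : ℝ) ≤ psi 5 (5 / 2 : ℝ) :=
    psi_lb (u := 57339 / 500000) 3 hw u5 (by norm_num) (by norm_num)
  have u3 : psi 4 (5 / 2 : ℝ) ≤ (45537 / 250000) * psi 3 (5 / 2 : ℝ) :=
    psi_ub (l := 70349 / 500000) 2 hw l4 (by norm_num) (by norm_num)
  have l3 : (182147 / 1000000) * psi 3 (5 / 2 : ℝ) ≤ psi 4 (5 / 2 : ℝ) :=
    psi_lb (u := 140699 / 1000000) 2 hw u4 (by norm_num) (by norm_num)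
  have u2 : psi 3 (5 / 2 : ℝ) ≤ (16171 / 62500) * psi 2 (5 / 2 : ℝ) :=
    psi_ub (l := 182147 / 1000000) 1 hw l3 (by norm_num) (by norm_num)
  have l2 : (51747 / 200000) * psi 2 (5 / 2 : ℝ) ≤ psi 3 (5 / 2 : ℝ) :=
    psi_lb (u := 45537 / 250000) 1 hw u3 (by norm_num) (by norm_num)
  have u1 : psi 2 (5 / 2 : ℝ) ≤ (7019 / 15625) * psi 1 (5 / 2 : ℝ) :=
    psi_ub (l := 51747 / 200000) 0 hw l2 (by norm_num) (by norm_num)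
  exact ⟨u1, u2, u3, u4, u5⟩

/-- ratios of `ψ` at `c = 3` -/
theorem psi_r3 :
    psi 2 (3 : ℝ) ≤ (276831 / 500000) * psi 1 (3 : ℝ) ∧
    psi 3 (3 : ℝ) ≤ (313857 / 1000000) * psi 2 (3 : ℝ) ∧
    psi 4 (3 : ℝ) ≤ (13741 / 62500) * psi 3 (3 : ℝ) ∧
    psi 5 (3 : ℝ) ≤ (169453 / 1000000) * psi 4 (3 : ℝ) ∧
    psi 6 (3 : ℝ) ≤ (27591 / 200000) * psi 5 (3 : ℝ) := by
  have hw : (0 : ℝ) < 3 := by norm_num
  have z9 := psi_pos 9 hw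
  have z8 := psi_pos 8 hw
  have u7 : psi 8 (3 : ℝ) ≤ (101377 / 1000000) * psi 7 (3 : ℝ) :=
    psi_ub (l := 0) 6 hw (by simpa using z9.le) (by norm_num) (by norm_num)
  have l6 : (11637 / 100000) * psi 6 (3 : ℝ) ≤ psi 7 (3 : ℝ) :=
    psi_lb (u := 101377 / 1000000) 5 hw u7 (by norm_num) (by norm_num)
  have u6 : psi 7 (3 : ℝ) ≤ (14679 / 125000) * psi 6 (3 : ℝ) :=
    psi_ub (l := 0) 5 hw (by simpa using z8.le) (by norm_num) (by norm_num)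
  have u5 : psi 6 (3 : ℝ) ≤ (27591 / 200000) * psi 5 (3 : ℝ) :=
    psi_ub (l := 11637 / 100000) 4 hw l6 (by norm_num) (by norm_num)
  have l5 : (137939 / 1000000) * psi 5 (3 : ℝ) ≤ psi 6 (3 : ℝ) :=
    psi_lb (u := 14679 / 125000) 4 hw u6 (by norm_num) (by norm_num)
  have u4 : psi 5 (3 : ℝ) ≤ (169453 / 1000000) * psi 4 (3 : ℝ) :=
    psi_ub (l := 137939 / 1000000) 3 hw l5 (by norm_num) (by norm_num)
  have l4 : (42363 / 250000) * psi 4 (3 : ℝ) ≤ psi 5 (3 : ℝ) :=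
    psi_lb (u := 27591 / 200000) 3 hw u5 (by norm_num) (by norm_num)
  have u3 : psi 4 (3 : ℝ) ≤ (13741 / 62500) * psi 3 (3 : ℝ) :=
    psi_ub (l := 42363 / 250000) 2 hw l4 (by norm_num) (by norm_num)
  have l3 : (43971 / 200000) * psi 3 (3 : ℝ) ≤ psi 4 (3 : ℝ) :=
    psi_lb (u := 169453 / 1000000) 2 hw u4 (by norm_num) (by norm_num)
  have u2 : psi 3 (3 : ℝ) ≤ (313857 / 1000000) * psi 2 (3 : ℝ) :=
    psi_ub (l := 43971 / 200000) 1 hw l3 (by norm_num) (by norm_num)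
  have l2 : (4904 / 15625) * psi 2 (3 : ℝ) ≤ psi 3 (3 : ℝ) :=
    psi_lb (u := 13741 / 62500) 1 hw u3 (by norm_num) (by norm_num)
  have u1 : psi 2 (3 : ℝ) ≤ (276831 / 500000) * psi 1 (3 : ℝ) :=
    psi_ub (l := 4904 / 15625) 0 hw l2 (by norm_num) (by norm_num)
  exact ⟨u1, u2, u3, u4, u5⟩

end Pool.Agent.Lib.QNL.Num93
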