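import Pool.Agent.Lib.QNL.NumT93
import Pool.Agent.Lib.QNL.NumPsi93
import Pool.Agent.Lib.QNL.NumEv93

/-!
Group N, `Tail1` in region I (v3 data) (generated by a script; every inequality is a one-variable
polynomial inequality checked by `PolyPos`).
-/

set_option autoImplicit false
set_option linter.unusedSimpArgs false

namespace Pool.Agent.Lib.QNL.Num93

open Pool.Agent.Lib.QNL
open Pool.Agent.Lib.QNL.PolyPos
open Pool.Agent.Lib.QNL.CG (bs Tail1)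
open Pool.Agent.Lib.QNL.Tail35 (Lam)

/-- `J1w` -/
def J1w : Ex := (((Ex.q (4) 5) * Ex.z) * (1 - Ex.z))

/-- `J1P` -/
def J1P : Ex := (1001 * J1w)

/-- `J1R` -/
def J1R : Ex := (1000 * (1 - J1w))

/-- `J1c` -/
def J1c : Ex := (Ex.q (7) 4)

/-- `J1r1` -/
def J1r1 : Ex := (Ex.q (300043) 1000000)

/-- `J1r2` -/
def J1r2 : Ex := (Ex.q (22189) 125000)

/-- `J1r3` -/
def J1r3 : Ex := (Ex.q (63043) 500000)

/-- `J1r4` -/
def J1r4 : Ex := (Ex.q (97789) 1000000)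

/-- `J1r5` -/
def J1r5 : Ex := (Ex.q (79879) 1000000)

/-- `J1g1` -/
def J1g1 : Ex := (((Ex.q (172173) 100000) + ((Ex.q (37619) 100000) * (Ex.z - (Ex.q (1) 2)))) + ((Ex.q (22111) 100000) * ((Ex.z - (Ex.q (1) 2)) ^ 2)))

/-- `J1q1` -/
def J1q1 : Ex := (((Ex.q (207) 1250) + ((Ex.q (6233) 50000) * (Ex.z - (Ex.q (1) 2)))) + ((Ex.q (-537) 25000) * ((Ex.z - (Ex.q (1) 2)) ^ 2)))

/-- `J1h1` -/
def J1h1 : Ex := (((Ex.q (49) 20) + ((Ex.q (39) 10) * (Ex.z - (Ex.q (1) 2)))) - ((Ex.q (36) 5) * ((Ex.z - (Ex.q (1) 2)) * (Ex.z - (Ex.q (1) 2)))))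

/-- `J1g2` -/
def J1g2 : Ex := (((Ex.q (140469) 100000) + ((Ex.q (7107) 50000) * (Ex.z - (Ex.q (1) 2)))) + ((Ex.q (5453) 100000) * ((Ex.z - (Ex.q (1) 2)) ^ 2)))

/-- `J1q2` -/
def J1q2 : Ex := (((Ex.q (12713) 100000) + ((Ex.q (1809) 25000) * (Ex.z - (Ex.q (1) 2)))) + ((Ex.q (431) 50000) * ((Ex.z - (Ex.q (1) 2)) ^ 2)))

/-- `J1h2` -/
def J1h2 : Ex := (((Ex.q (49259) 25000) + ((Ex.q (188491) 100000) * (Ex.z - (Ex.q (1) 2)))) + ((Ex.q (-170419) 50000) * ((Ex.z - (Ex.q (1) 2)) ^ 2)))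

/-- `J1g3` -/
def J1g3 : Ex := (((Ex.q (127911) 100000) + ((Ex.q (3671) 50000) * (Ex.z - (Ex.q (1) 2)))) + ((Ex.q (83) 4000) * ((Ex.z - (Ex.q (1) 2)) ^ 2)))

/-- `J1q3` -/
def J1q3 : Ex := (((Ex.q (403) 4000) + ((Ex.q (2279) 50000) * (Ex.z - (Ex.q (1) 2)))) + ((Ex.q (707) 100000) * ((Ex.z - (Ex.q (1) 2)) ^ 2)))

/-- `J1h3` -/
def J1h3 : Ex := (((Ex.q (85993) 50000) + ((Ex.q (117071) 100000) * (Ex.z - (Ex.q (1) 2)))) + ((Ex.q (-106933) 50000) * ((Ex.z - (Ex.q (1) 2)) ^ 2)))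

/-- `J1g4` -/
def J1g4 : Ex := (((Ex.q (60637) 50000) + ((Ex.q (2239) 50000) * (Ex.z - (Ex.q (1) 2)))) + ((Ex.q (1007) 100000) * ((Ex.z - (Ex.q (1) 2)) ^ 2)))

/-- `J1q4` -/
def J1q4 : Ex := (((Ex.q (52) 625) + ((Ex.q (3127) 100000) * (Ex.z - (Ex.q (1) 2)))) + ((Ex.q (3) 625) * ((Ex.z - (Ex.q (1) 2)) ^ 2)))

/-- `J1h4` -/
def J1h4 : Ex := (((Ex.q (157983) 100000) + ((Ex.q (8261) 10000) * (Ex.z - (Ex.q (1) 2)))) + ((Ex.q (-32113) 20000) * ((Ex.z - (Ex.q (1) 2)) ^ 2)))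

/-- `J1g5` -/
def J1g5 : Ex := (((Ex.q (734) 625) + ((Ex.q (633) 20000) * (Ex.z - (Ex.q (1) 2)))) + ((Ex.q (619) 100000) * ((Ex.z - (Ex.q (1) 2)) ^ 2)))

/-- `J1q5` -/
def J1q5 : Ex := (((Ex.q (7341) 100000) + ((Ex.q (2417) 100000) * (Ex.z - (Ex.q (1) 2)))) + ((Ex.q (373) 100000) * ((Ex.z - (Ex.q (1) 2)) ^ 2)))

/-- `J1h5` -/
def J1h5 : Ex := (((Ex.q (152333) 100000) + ((Ex.q (32713) 50000) * (Ex.z - (Ex.q (1) 2)))) + ((Ex.q (-148791) 100000) * ((Ex.z - (Ex.q (1) 2)) ^ 2)))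

/-- `J1g6` -/
def J1g6 : Ex := (((Ex.q (118193) 100000) + ((Ex.q (3301) 100000) * (Ex.z - (Ex.q (1) 2)))) + ((Ex.q (323) 50000) * ((Ex.z - (Ex.q (1) 2)) ^ 2)))

/-- `J1q6` -/
def J1q6 : Ex := (((Ex.q (1967) 25000) + ((Ex.q (113) 5000) * (Ex.z - (Ex.q (1) 2)))) + ((Ex.q (371) 100000) * ((Ex.z - (Ex.q (1) 2)) ^ 2)))

/-- `J1h6` -/
def J1h6 : Ex := (((Ex.q (9749) 6250) + ((Ex.q (29541) 50000) * (Ex.z - (Ex.q (1) 2)))) + ((Ex.q (-160203) 100000) * ((Ex.z - (Ex.q (1) 2)) ^ 2)))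

theorem J11G : check (((J1g1 * ((1 + 2) - Ex.z)) - (((1 + J1r1) * ((1 + 2) - Ex.z)) + ((J1r1 * ((1 + 1) + Ex.z)) * J1g2)))) one one (seg (25) 13 50) ⟨0, 0, 3⟩
    (T.c T.o T.o) = true := by
  decide +kernel

theorem J11q : check (J1q1) one one (seg (25) 13 50) ⟨0, 0, 2⟩
    (T.o) = true := by
  decide +kernel

theorem J11Q : check (((((J1q1 * ((2 * 1) + 1)) * ((1 + 2) - Ex.z)) * (((J1r1 * ((1 + 1) + Ex.z)) * J1g2) + ((1 + J1r1) * ((1 + 2) - Ex.z)))) - ((((J1g2 * ((2 * 1) + 3)) * (1 + J1q2)) * (((1 + 1) - Ex.z) * (1 + Ex.z))) * J1r1))) one one (seg (25) 13 50) ⟨0, 0, 6⟩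
    (T.o) = true := by
  decide +kernel

theorem J11a : check (((J1h1 * (((1 + 1) - Ex.z) * (1 + Ex.z))) - (((1 + Ex.z) ^ 2) + ((((2 * 1) + 1) ^ 2) * J1q1)))) one one (seg (25) 13 50) ⟨0, 0, 4⟩
    (T.o) = true := by
  decide +kernel

theorem J11b : check (((J1R - (J1h1 * J1P)) - 1)) one one (seg (25) 13 50) ⟨0, 0, 4⟩
    (T.o) = true := by
  decide +kernel

theorem J11d : check (((((((J1h1 * ((1 + 1) - Ex.z)) - (1 + Ex.z)) * (1 + Ex.z)) * (J1R - (J1h2 * J1P))) * (1 + J1q1)) - (((((((2 * 1) + 1) ^ 2) * J1q1) * (1 + J1q1)) * J1R) + (((J1q1 * ((1 + 1) - Ex.z)) * ((J1h2 * (1 + Ex.z)) - ((1 + 1) - Ex.z))) * (J1R - (J1h1 * J1P)))))) one one (seg (25) 13 50) ⟨0, 0, 10⟩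
    (T.o) = true := by
  decide +kernel

theorem J12G : check (((J1g2 * ((2 + 2) - Ex.z)) - (((1 + J1r2) * ((2 + 2) - Ex.z)) + ((J1r2 * ((2 + 1) + Ex.z)) * J1g3)))) one one (seg (25) 13 50) ⟨0, 0, 3⟩
    (T.o) = true := by
  decide +kernel

theorem J12q : check (J1q2) one one (seg (25) 13 50) ⟨0, 0, 2⟩
    (T.o) = true := by
  decide +kernel

theorem J12Q : check (((((J1q2 * ((2 * 2) + 1)) * ((2 + 2) - Ex.z)) * (((J1r2 * ((2 + 1) + Ex.z)) * J1g3) + ((1 + J1r2) * ((2 + 2) - Ex.z)))) - ((((J1g3 * ((2 * 2) + 3)) * (1 + J1q3)) * (((2 + 1) - Ex.z) * (2 + Ex.z))) * J1r2))) one one (seg (25) 13 50) ⟨0, 0, 6⟩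
    (T.o) = true := by
  decide +kernel

theorem J12a : check (((J1h2 * (((2 + 1) - Ex.z) * (2 + Ex.z))) - (((2 + Ex.z) ^ 2) + ((((2 * 2) + 1) ^ 2) * J1q2)))) one one (seg (25) 13 50) ⟨0, 0, 4⟩
    (T.o) = true := by
  decide +kernel

theorem J12b : check (((J1R - (J1h2 * J1P)) - 1)) one one (seg (25) 13 50) ⟨0, 0, 4⟩
    (T.o) = true := by
  decide +kernel

theorem J12d : check (((((((J1h2 * ((2 + 1) - Ex.z)) - (2 + Ex.z)) * (2 + Ex.z)) * (J1R - (J1h3 * J1P))) * (1 + J1q2)) - (((((((2 * 2) + 1) ^ 2) * J1q2) * (1 + J1q2)) * J1R) + (((J1q2 * ((2 + 1) - Ex.z)) * ((J1h3 * (2 + Ex.z)) - ((2 + 1) - Ex.z))) * (J1R - (J1h2 * J1P)))))) one one (seg (25) 13 50) ⟨0, 0, 10⟩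
    (T.c T.o T.o) = true := by
  decide +kernel

theorem J13G : check (((J1g3 * ((3 + 2) - Ex.z)) - (((1 + J1r3) * ((3 + 2) - Ex.z)) + ((J1r3 * ((3 + 1) + Ex.z)) * J1g4)))) one one (seg (25) 13 50) ⟨0, 0, 3⟩
    (T.o) = true := by
  decide +kernel

theorem J13q : check (J1q3) one one (seg (25) 13 50) ⟨0, 0, 2⟩
    (T.o) = true := by
  decide +kernel

theorem J13Q : check (((((J1q3 * ((2 * 3) + 1)) * ((3 + 2) - Ex.z)) * (((J1r3 * ((3 + 1) + Ex.z)) * J1g4) + ((1 + J1r3) * ((3 + 2) - Ex.z)))) - ((((J1g4 * ((2 * 3) + 3)) * (1 + J1q4)) * (((3 + 1) - Ex.z) * (3 + Ex.z))) * J1r3))) one one (seg (25) 13 50) ⟨0, 0, 6⟩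
    (T.o) = true := by
  decide +kernel

theorem J13a : check (((J1h3 * (((3 + 1) - Ex.z) * (3 + Ex.z))) - (((3 + Ex.z) ^ 2) + ((((2 * 3) + 1) ^ 2) * J1q3)))) one one (seg (25) 13 50) ⟨0, 0, 4⟩
    (T.o) = true := by
  decide +kernel

theorem J13b : check (((J1R - (J1h3 * J1P)) - 1)) one one (seg (25) 13 50) ⟨0, 0, 4⟩
    (T.o) = true := by
  decide +kernel

theorem J13d : check (((((((J1h3 * ((3 + 1) - Ex.z)) - (3 + Ex.z)) * (3 + Ex.z)) * (J1R - (J1h4 * J1P))) * (1 + J1q3)) - (((((((2 * 3) + 1) ^ 2) * J1q3) * (1 + J1q3)) * J1R) + (((J1q3 * ((3 + 1) - Ex.z)) * ((J1h4 * (3 + Ex.z)) - ((3 + 1) - Ex.z))) * (J1R - (J1h3 * J1P)))))) one one (seg (25) 13 50) ⟨0, 0, 10⟩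
    (T.c T.o T.o) = true := by
  decide +kernel

theorem J14G : check (((J1g4 * ((4 + 2) - Ex.z)) - (((1 + J1r4) * ((4 + 2) - Ex.z)) + ((J1r4 * ((4 + 1) + Ex.z)) * J1g5)))) one one (seg (25) 13 50) ⟨0, 0, 3⟩
    (T.o) = true := by
  decide +kernel

theorem J14q : check (J1q4) one one (seg (25) 13 50) ⟨0, 0, 2⟩
    (T.o) = true := by
  decide +kernel

theorem J14Q : check (((((J1q4 * ((2 * 4) + 1)) * ((4 + 2) - Ex.z)) * (((J1r4 * ((4 + 1) + Ex.z)) * J1g5) + ((1 + J1r4) * ((4 + 2) - Ex.z)))) - ((((J1g5 * ((2 * 4) + 3)) * (1 + J1q5)) * (((4 + 1) - Ex.z) * (4 + Ex.z))) * J1r4))) one one (seg (25) 13 50) ⟨0, 0, 6⟩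
    (T.o) = true := by
  decide +kernel

theorem J14a : check (((J1h4 * (((4 + 1) - Ex.z) * (4 + Ex.z))) - (((4 + Ex.z) ^ 2) + ((((2 * 4) + 1) ^ 2) * J1q4)))) one one (seg (25) 13 50) ⟨0, 0, 4⟩
    (T.o) = true := by
  decide +kernel

theorem J14b : check (((J1R - (J1h4 * J1P)) - 1)) one one (seg (25) 13 50) ⟨0, 0, 4⟩
    (T.o) = true := by
  decide +kernel

theorem J14d : check (((((((J1h4 * ((4 + 1) - Ex.z)) - (4 + Ex.z)) * (4 + Ex.z)) * (J1R - (J1h5 * J1P))) * (1 + J1q4)) - (((((((2 * 4) + 1) ^ 2) * J1q4) * (1 + J1q4)) * J1R) + (((J1q4 * ((4 + 1) - Ex.z)) * ((J1h5 * (4 + Ex.z)) - ((4 + 1) - Ex.z))) * (J1R - (J1h4 * J1P)))))) one one (seg (25) 13 50) ⟨0, 0, 10⟩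
    (T.c T.o T.o) = true := by
  decide +kernel

theorem J15G : check (((J1g5 * ((5 + 2) - Ex.z)) - (((1 + J1r5) * ((5 + 2) - Ex.z)) + ((J1r5 * ((5 + 1) + Ex.z)) * J1g6)))) one one (seg (25) 13 50) ⟨0, 0, 3⟩
    (T.o) = true := by
  decide +kernel

theorem J15q : check (J1q5) one one (seg (25) 13 50) ⟨0, 0, 2⟩
    (T.o) = true := by
  decide +kernel

theorem J15Q : check (((((J1q5 * ((2 * 5) + 1)) * ((5 + 2) - Ex.z)) * (((J1r5 * ((5 + 1) + Ex.z)) * J1g6) + ((1 + J1r5) * ((5 + 2) - Ex.z)))) - ((((J1g6 * ((2 * 5) + 3)) * (1 + J1q6)) * (((5 + 1) - Ex.z) * (5 + Ex.z))) * J1r5))) one one (seg (25) 13 50) ⟨0, 0, 6⟩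
    (T.o) = true := by
  decide +kernel

theorem J15a : check (((J1h5 * (((5 + 1) - Ex.z) * (5 + Ex.z))) - (((5 + Ex.z) ^ 2) + ((((2 * 5) + 1) ^ 2) * J1q5)))) one one (seg (25) 13 50) ⟨0, 0, 4⟩
    (T.o) = true := by
  decide +kernel

theorem J15b : check (((J1R - (J1h5 * J1P)) - 1)) one one (seg (25) 13 50) ⟨0, 0, 4⟩
    (T.o) = true := by
  decide +kernel

theorem J15d : check (((((((J1h5 * ((5 + 1) - Ex.z)) - (5 + Ex.z)) * (5 + Ex.z)) * (J1R - (J1h6 * J1P))) * (1 + J1q5)) - (((((((2 * 5) + 1) ^ 2) * J1q5) * (1 + J1q5)) * J1R) + (((J1q5 * ((5 + 1) - Ex.z)) * ((J1h6 * (5 + Ex.z)) - ((5 + 1) - Ex.z))) * (J1R - (J1h5 * J1P)))))) one one (seg (25) 13 50) ⟨0, 0, 10⟩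
    (T.c T.o T.o) = true := by
  decide +kernel

theorem J1t1 : check ((J1g6 - 1)) one one (seg (25) 13 50) ⟨0, 0, 2⟩
    (T.o) = true := by
  decide +kernel

theorem J1tG : check (((J1g6 * ((7 * (7 - Ex.z)) - (J1c * 4))) - (7 * (7 - Ex.z)))) one one (seg (25) 13 50) ⟨0, 0, 3⟩
    (T.o) = true := by
  decide +kernel

theorem J1tq : check (J1q6) one one (seg (25) 13 50) ⟨0, 0, 2⟩
    (T.o) = true := by
  decide +kernel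

theorem J1tQ : check ((((24 * J1q6) * (8 - Ex.z)) - ((J1c * (7 + Ex.z)) * (1 + J1q6)))) one one (seg (25) 13 50) ⟨0, 0, 3⟩
    (T.o) = true := by
  decide +kernel

theorem J1th : check (J1h6) one one (seg (25) 13 50) ⟨0, 0, 2⟩
    (T.o) = true := by
  decide +kernel

theorem J1t3 : check (((J1R - (J1h6 * J1P)) - 1)) one one (seg (25) 13 50) ⟨0, 0, 4⟩
    (T.o) = true := by
  decide +kernel

theorem J1t5 : check ((((J1R - (J1h6 * J1P)) * (((J1h6 * ((7 - Ex.z) * (6 + Ex.z))) - (((6 + Ex.z) ^ 2) * (1 + J1q6))) + (J1q6 * ((7 - Ex.z) ^ 2)))) - (((169 * J1q6) * (1 + J1q6)) * J1R))) one one (seg (25) 13 50) ⟨0, 0, 8⟩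
    (T.c T.o (T.c T.o T.o)) = true := by
  decide +kernel

theorem J1_mem {a : ℝ} (h0 : 1 / 2 ≤ a) (h1 : a ≤ 19 / 25) : Side.mem (seg (25) 13 50) a := by
  constructor
  · show (((25 : ℤ) : ℝ)) ≤ ((50 : ℕ) : ℝ) * a
    norm_num
    linarith
  · intro _
    show ((50 : ℕ) : ℝ) * a ≤ (((25 : ℤ) : ℝ)) + ((13 : ℕ) : ℝ)
    norm_num
    linarith

theorem J1row1 {a : ℝ} (hz : Side.mem (seg (25) 13 50) a) :
    Row a (Ex.ev 0 0 a J1P) (Ex.ev 0 0 a J1R) 1 (Ex.ev 0 0 a J1r1) (Ex.ev 0 0 a J1g1) (Ex.ev 0 0 a J1g2) (Ex.ev 0 0 a J1q1) (Ex.ev 0 0 a J1q2) (Ex.ev 0 0 a J1h1) (Ex.ev 0 0 a J1h2) :=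
  ⟨by simpa only [Ex.ev_add, Ex.ev_sub, Ex.ev_mul, Ex.ev_pow, Ex.ev_one, ev_2, ev_3, ev_4, ev_5, ev_6, ev_7, ev_8,
      ev_24, ev_169, Ex.ev_z] using check_spec _ _ J11G one_mem one_mem hz,
    by simpa only [Ex.ev_add, Ex.ev_sub, Ex.ev_mul, Ex.ev_pow, Ex.ev_one, ev_2, ev_3, ev_4, ev_5, ev_6, ev_7, ev_8,
      ev_24, ev_169, Ex.ev_z] using check_spec _ _ J11q one_mem one_mem hz,
    by simpa only [Ex.ev_add, Ex.ev_sub, Ex.ev_mul, Ex.ev_pow, Ex.ev_one, ev_2, ev_3, ev_4, ev_5, ev_6, ev_7, ev_8,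
      ev_24, ev_169, Ex.ev_z] using check_spec _ _ J11Q one_mem one_mem hz,
    by simpa only [Ex.ev_add, Ex.ev_sub, Ex.ev_mul, Ex.ev_pow, Ex.ev_one, ev_2, ev_3, ev_4, ev_5, ev_6, ev_7, ev_8,
      ev_24, ev_169, Ex.ev_z] using check_spec _ _ J11a one_mem one_mem hz,
    by simpa only [Ex.ev_add, Ex.ev_sub, Ex.ev_mul, Ex.ev_pow, Ex.ev_one, ev_2, ev_3, ev_4, ev_5, ev_6, ev_7, ev_8,
      ev_24, ev_169, Ex.ev_z] using check_spec _ _ J11b one_mem one_mem hz,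
    by simpa only [Ex.ev_add, Ex.ev_sub, Ex.ev_mul, Ex.ev_pow, Ex.ev_one, ev_2, ev_3, ev_4, ev_5, ev_6, ev_7, ev_8,
      ev_24, ev_169, Ex.ev_z] using check_spec _ _ J11d one_mem one_mem hz⟩

theorem J1row2 {a : ℝ} (hz : Side.mem (seg (25) 13 50) a) :
    Row a (Ex.ev 0 0 a J1P) (Ex.ev 0 0 a J1R) 2 (Ex.ev 0 0 a J1r2) (Ex.ev 0 0 a J1g2) (Ex.ev 0 0 a J1g3) (Ex.ev 0 0 a J1q2) (Ex.ev 0 0 a J1q3) (Ex.ev 0 0 a J1h2) (Ex.ev 0 0 a J1h3) :=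
  ⟨by simpa only [Ex.ev_add, Ex.ev_sub, Ex.ev_mul, Ex.ev_pow, Ex.ev_one, ev_2, ev_3, ev_4, ev_5, ev_6, ev_7, ev_8,
      ev_24, ev_169, Ex.ev_z] using check_spec _ _ J12G one_mem one_mem hz,
    by simpa only [Ex.ev_add, Ex.ev_sub, Ex.ev_mul, Ex.ev_pow, Ex.ev_one, ev_2, ev_3, ev_4, ev_5, ev_6, ev_7, ev_8,
      ev_24, ev_169, Ex.ev_z] using check_spec _ _ J12q one_mem one_mem hz,
    by simpa only [Ex.ev_add, Ex.ev_sub, Ex.ev_mul, Ex.ev_pow, Ex.ev_one, ev_2, ev_3, ev_4, ev_5, ev_6, ev_7, ev_8,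
      ev_24, ev_169, Ex.ev_z] using check_spec _ _ J12Q one_mem one_mem hz,
    by simpa only [Ex.ev_add, Ex.ev_sub, Ex.ev_mul, Ex.ev_pow, Ex.ev_one, ev_2, ev_3, ev_4, ev_5, ev_6, ev_7, ev_8,
      ev_24, ev_169, Ex.ev_z] using check_spec _ _ J12a one_mem one_mem hz,
    by simpa only [Ex.ev_add, Ex.ev_sub, Ex.ev_mul, Ex.ev_pow, Ex.ev_one, ev_2, ev_3, ev_4, ev_5, ev_6, ev_7, ev_8,
      ev_24, ev_169, Ex.ev_z] using check_spec _ _ J12b one_mem one_mem hz,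
    by simpa only [Ex.ev_add, Ex.ev_sub, Ex.ev_mul, Ex.ev_pow, Ex.ev_one, ev_2, ev_3, ev_4, ev_5, ev_6, ev_7, ev_8,
      ev_24, ev_169, Ex.ev_z] using check_spec _ _ J12d one_mem one_mem hz⟩

theorem J1row3 {a : ℝ} (hz : Side.mem (seg (25) 13 50) a) :
    Row a (Ex.ev 0 0 a J1P) (Ex.ev 0 0 a J1R) 3 (Ex.ev 0 0 a J1r3) (Ex.ev 0 0 a J1g3) (Ex.ev 0 0 a J1g4) (Ex.ev 0 0 a J1q3) (Ex.ev 0 0 a J1q4) (Ex.ev 0 0 a J1h3) (Ex.ev 0 0 a J1h4) :=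
  ⟨by simpa only [Ex.ev_add, Ex.ev_sub, Ex.ev_mul, Ex.ev_pow, Ex.ev_one, ev_2, ev_3, ev_4, ev_5, ev_6, ev_7, ev_8,
      ev_24, ev_169, Ex.ev_z] using check_spec _ _ J13G one_mem one_mem hz,
    by simpa only [Ex.ev_add, Ex.ev_sub, Ex.ev_mul, Ex.ev_pow, Ex.ev_one, ev_2, ev_3, ev_4, ev_5, ev_6, ev_7, ev_8,
      ev_24, ev_169, Ex.ev_z] using check_spec _ _ J13q one_mem one_mem hz,
    by simpa only [Ex.ev_add, Ex.ev_sub, Ex.ev_mul, Ex.ev_pow, Ex.ev_one, ev_2, ev_3, ev_4, ev_5, ev_6, ev_7, ev_8,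
      ev_24, ev_169, Ex.ev_z] using check_spec _ _ J13Q one_mem one_mem hz,
    by simpa only [Ex.ev_add, Ex.ev_sub, Ex.ev_mul, Ex.ev_pow, Ex.ev_one, ev_2, ev_3, ev_4, ev_5, ev_6, ev_7, ev_8,
      ev_24, ev_169, Ex.ev_z] using check_spec _ _ J13a one_mem one_mem hz,
    by simpa only [Ex.ev_add, Ex.ev_sub, Ex.ev_mul, Ex.ev_pow, Ex.ev_one, ev_2, ev_3, ev_4, ev_5, ev_6, ev_7, ev_8,
      ev_24, ev_169, Ex.ev_z] using check_spec _ _ J13b one_mem one_mem hz,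
    by simpa only [Ex.ev_add, Ex.ev_sub, Ex.ev_mul, Ex.ev_pow, Ex.ev_one, ev_2, ev_3, ev_4, ev_5, ev_6, ev_7, ev_8,
      ev_24, ev_169, Ex.ev_z] using check_spec _ _ J13d one_mem one_mem hz⟩

theorem J1row4 {a : ℝ} (hz : Side.mem (seg (25) 13 50) a) :
    Row a (Ex.ev 0 0 a J1P) (Ex.ev 0 0 a J1R) 4 (Ex.ev 0 0 a J1r4) (Ex.ev 0 0 a J1g4) (Ex.ev 0 0 a J1g5) (Ex.ev 0 0 a J1q4) (Ex.ev 0 0 a J1q5) (Ex.ev 0 0 a J1h4) (Ex.ev 0 0 a J1h5) :=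
  ⟨by simpa only [Ex.ev_add, Ex.ev_sub, Ex.ev_mul, Ex.ev_pow, Ex.ev_one, ev_2, ev_3, ev_4, ev_5, ev_6, ev_7, ev_8,
      ev_24, ev_169, Ex.ev_z] using check_spec _ _ J14G one_mem one_mem hz,
    by simpa only [Ex.ev_add, Ex.ev_sub, Ex.ev_mul, Ex.ev_pow, Ex.ev_one, ev_2, ev_3, ev_4, ev_5, ev_6, ev_7, ev_8,
      ev_24, ev_169, Ex.ev_z] using check_spec _ _ J14q one_mem one_mem hz,
    by simpa only [Ex.ev_add, Ex.ev_sub, Ex.ev_mul, Ex.ev_pow, Ex.ev_one, ev_2, ev_3, ev_4, ev_5, ev_6, ev_7, ev_8,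
      ev_24, ev_169, Ex.ev_z] using check_spec _ _ J14Q one_mem one_mem hz,
    by simpa only [Ex.ev_add, Ex.ev_sub, Ex.ev_mul, Ex.ev_pow, Ex.ev_one, ev_2, ev_3, ev_4, ev_5, ev_6, ev_7, ev_8,
      ev_24, ev_169, Ex.ev_z] using check_spec _ _ J14a one_mem one_mem hz,
    by simpa only [Ex.ev_add, Ex.ev_sub, Ex.ev_mul, Ex.ev_pow, Ex.ev_one, ev_2, ev_3, ev_4, ev_5, ev_6, ev_7, ev_8,
      ev_24, ev_169, Ex.ev_z] using check_spec _ _ J14b one_mem one_mem hz,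
    by simpa only [Ex.ev_add, Ex.ev_sub, Ex.ev_mul, Ex.ev_pow, Ex.ev_one, ev_2, ev_3, ev_4, ev_5, ev_6, ev_7, ev_8,
      ev_24, ev_169, Ex.ev_z] using check_spec _ _ J14d one_mem one_mem hz⟩

theorem J1row5 {a : ℝ} (hz : Side.mem (seg (25) 13 50) a) :
    Row a (Ex.ev 0 0 a J1P) (Ex.ev 0 0 a J1R) 5 (Ex.ev 0 0 a J1r5) (Ex.ev 0 0 a J1g5) (Ex.ev 0 0 a J1g6) (Ex.ev 0 0 a J1q5) (Ex.ev 0 0 a J1q6) (Ex.ev 0 0 a J1h5) (Ex.ev 0 0 a J1h6) :=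
  ⟨by simpa only [Ex.ev_add, Ex.ev_sub, Ex.ev_mul, Ex.ev_pow, Ex.ev_one, ev_2, ev_3, ev_4, ev_5, ev_6, ev_7, ev_8,
      ev_24, ev_169, Ex.ev_z] using check_spec _ _ J15G one_mem one_mem hz,
    by simpa only [Ex.ev_add, Ex.ev_sub, Ex.ev_mul, Ex.ev_pow, Ex.ev_one, ev_2, ev_3, ev_4, ev_5, ev_6, ev_7, ev_8,
      ev_24, ev_169, Ex.ev_z] using check_spec _ _ J15q one_mem one_mem hz,
    by simpa only [Ex.ev_add, Ex.ev_sub, Ex.ev_mul, Ex.ev_pow, Ex.ev_one, ev_2, ev_3, ev_4, ev_5, ev_6, ev_7, ev_8,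
      ev_24, ev_169, Ex.ev_z] using check_spec _ _ J15Q one_mem one_mem hz,
    by simpa only [Ex.ev_add, Ex.ev_sub, Ex.ev_mul, Ex.ev_pow, Ex.ev_one, ev_2, ev_3, ev_4, ev_5, ev_6, ev_7, ev_8,
      ev_24, ev_169, Ex.ev_z] using check_spec _ _ J15a one_mem one_mem hz,
    by simpa only [Ex.ev_add, Ex.ev_sub, Ex.ev_mul, Ex.ev_pow, Ex.ev_one, ev_2, ev_3, ev_4, ev_5, ev_6, ev_7, ev_8,
      ev_24, ev_169, Ex.ev_z] using check_spec _ _ J15b one_mem one_mem hz,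
    by simpa only [Ex.ev_add, Ex.ev_sub, Ex.ev_mul, Ex.ev_pow, Ex.ev_one, ev_2, ev_3, ev_4, ev_5, ev_6, ev_7, ev_8,
      ev_24, ev_169, Ex.ev_z] using check_spec _ _ J15d one_mem one_mem hz⟩

theorem J1top {a : ℝ} (hz : Side.mem (seg (25) 13 50) a) :
    Top6 a (Ex.ev 0 0 a J1c) (Ex.ev 0 0 a J1P) (Ex.ev 0 0 a J1R) (Ex.ev 0 0 a J1g6) (Ex.ev 0 0 a J1q6) (Ex.ev 0 0 a J1h6) :=
  ⟨by simpa only [Ex.ev_add, Ex.ev_sub, Ex.ev_mul, Ex.ev_pow, Ex.ev_one, ev_2, ev_3, ev_4, ev_5, ev_6, ev_7, ev_8,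
      ev_24, ev_169, Ex.ev_z] using check_spec _ _ J1t1 one_mem one_mem hz,
    by simpa only [Ex.ev_add, Ex.ev_sub, Ex.ev_mul, Ex.ev_pow, Ex.ev_one, ev_2, ev_3, ev_4, ev_5, ev_6, ev_7, ev_8,
      ev_24, ev_169, Ex.ev_z] using check_spec _ _ J1tG one_mem one_mem hz,
    by simpa only [Ex.ev_add, Ex.ev_sub, Ex.ev_mul, Ex.ev_pow, Ex.ev_one, ev_2, ev_3, ev_4, ev_5, ev_6, ev_7, ev_8,
      ev_24, ev_169, Ex.ev_z] using check_spec _ _ J1tq one_mem one_mem hz,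
    by simpa only [Ex.ev_add, Ex.ev_sub, Ex.ev_mul, Ex.ev_pow, Ex.ev_one, ev_2, ev_3, ev_4, ev_5, ev_6, ev_7, ev_8,
      ev_24, ev_169, Ex.ev_z] using check_spec _ _ J1tQ one_mem one_mem hz,
    by simpa only [Ex.ev_add, Ex.ev_sub, Ex.ev_mul, Ex.ev_pow, Ex.ev_one, ev_2, ev_3, ev_4, ev_5, ev_6, ev_7, ev_8,
      ev_24, ev_169, Ex.ev_z] using check_spec _ _ J1th one_mem one_mem hz,
    by simpa only [Ex.ev_add, Ex.ev_sub, Ex.ev_mul, Ex.ev_pow, Ex.ev_one, ev_2, ev_3, ev_4, ev_5, ev_6, ev_7, ev_8,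
      ev_24, ev_169, Ex.ev_z] using check_spec _ _ J1t3 one_mem one_mem hz,
    by simpa only [Ex.ev_add, Ex.ev_sub, Ex.ev_mul, Ex.ev_pow, Ex.ev_one, ev_2, ev_3, ev_4, ev_5, ev_6, ev_7, ev_8,
      ev_24, ev_169, Ex.ev_z] using check_spec _ _ J1t5 one_mem one_mem hz⟩

/-- **region I (v3 data)** -/
theorem tail3_I {n : ℕ} {p a w be : ℝ} (hn : 1 ≤ n) (hp : p = 1 / a) (h0 : 1 / 2 < a)
    (h1 : a ≤ 19 / 25) (hw : w = 4 / 5 * a * (1 - a)) (hbe : be = 49 / 20 + 39 / 10 * (a - 1 / 2) - 36 / 5 * ((a - 1 / 2) * (a - 1 / 2))) :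
    Tail1 n p a (bs n a (7 / 4)) (1001 / 1000 * (w / (1 - w)))
      (fun Y => Lam n p a (bs n a (7 / 4)) 1 / (1 - be * Y)) := by
  have hz : Side.mem (seg (25) 13 50) a := J1_mem (by linarith) h1
  have ec : Ex.ev 0 0 a J1c = (7 / 4) := by
    simp only [J1c, Ex.ev_q, ev_2, ev_3]; norm_num
  have ew : Ex.ev 0 0 a J1w = w := by
    rw [hw]
    simp only [J1w, Ex.ev_add, Ex.ev_sub, Ex.ev_mul, Ex.ev_pow, Ex.ev_one, ev_2, ev_3, ev_4, ev_6, ev_1000, ev_1001, Ex.ev_z, Ex.ev_q]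
    norm_num
    try ring
  have eP : Ex.ev 0 0 a J1P = 1001 * w := by
    rw [← ew]
    simp only [J1P, Ex.ev_mul, ev_1001]
  have eR : Ex.ev 0 0 a J1R = 1000 * (1 - w) := by
    rw [← ew]
    simp only [J1R, Ex.ev_mul, Ex.ev_sub, Ex.ev_one, ev_2, ev_3, ev_4, ev_6, ev_1000, ev_1001]
  have eb : Ex.ev 0 0 a J1h1 = be := by
    rw [hbe]
    simp only [J1h1, Ex.ev_add, Ex.ev_sub, Ex.ev_mul, Ex.ev_pow, Ex.ev_one, ev_2, ev_3, ev_4, ev_6, ev_1000, ev_1001, Ex.ev_z, Ex.ev_q]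
    try norm_num
    try ring
  have er1 : Ex.ev 0 0 a J1r1 = 300043 / 1000000 := by simp only [J1r1, Ex.ev_q]; norm_num
  have er2 : Ex.ev 0 0 a J1r2 = 22189 / 125000 := by simp only [J1r2, Ex.ev_q]; norm_num
  have er3 : Ex.ev 0 0 a J1r3 = 63043 / 500000 := by simp only [J1r3, Ex.ev_q]; norm_num
  have er4 : Ex.ev 0 0 a J1r4 = 97789 / 1000000 := by simp only [J1r4, Ex.ev_q]; norm_num
  have er5 : Ex.ev 0 0 a J1r5 = 79879 / 1000000 := by simp only [J1r5, Ex.ev_q]; norm_num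
  obtain ⟨p1, p2, p3, p4, p5⟩ := psi_r74
  have t := J1top hz
  have w1 := J1row1 hz
  have w2 := J1row2 hz
  have w3 := J1row3 hz
  have w4 := J1row4 hz
  have w5 := J1row5 hz
  rw [er1, eb] at w1
  rw [er2] at w2
  rw [er3] at w3
  rw [er4] at w4
  rw [er5] at w5
  rw [ec] at t
  have hw01 : 0 < w ∧ w < 1 := by
    have u0 : 0 < a := by linarith
    have u1 : a < 1 := by linarith
    have u2 : 0 < 1 - a := by linarith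
    have u3 : 0 < a * (1 - a) := mul_pos u0 u2
    constructor
    · rw [hw]
      linarith [mul_pos (show (0:ℝ) < 4 / 5 by norm_num) u3]
    · rw [hw]
      nlinarith [mul_pos u0 u2]
  have key := tail1_six (n := n) (p := p) (a := a) (c := (7 / 4)) hn hp (by linarith) (by linarith)
    (by norm_num) (P := Ex.ev 0 0 a J1P) (R := Ex.ev 0 0 a J1R)
    (by rw [eP]; linarith [hw01.1]) (by rw [eR]; linarith [hw01.2])
    p1 p2 p3 p4 p5 w1 w2 w3 w4 w5 t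
  rw [eP, eR, ← div_mul_div_comm] at key
  exact key

end Pool.Agent.Lib.QNL.Num93
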