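import Pool.Agent.Lib.QNL.NumT93
import Pool.Agent.Lib.QNL.NumPsi93
import Pool.Agent.Lib.QNL.NumEv93

/-!
Group N, `Tail1` in region II (v3 data) (generated by a script; every inequality is a one-variable
polynomial inequality checked by `PolyPos`).
-/

set_option autoImplicit false
set_option linter.unusedSimpArgs false

namespace Pool.Agent.Lib.QNL.Num93

open Pool.Agent.Lib.QNL
open Pool.Agent.Lib.QNL.PolyPos
open Pool.Agent.Lib.QNL.CG (bs Tail1)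
open Pool.Agent.Lib.QNL.Tail35 (Lam)

/-- `J2w` -/
def J2w : Ex := ((((Ex.q (6) 25) + ((Ex.q (3) 4) * Ex.z)) * Ex.z) * (1 - Ex.z))

/-- `J2P` -/
def J2P : Ex := (1001 * J2w)

/-- `J2R` -/
def J2R : Ex := (1000 * (1 - J2w))

/-- `J2c` -/
def J2c : Ex := 2

/-- `J2r1` -/
def J2r1 : Ex := (Ex.q (348603) 1000000)

/-- `J2r2` -/
def J2r2 : Ex := (Ex.q (204337) 1000000)

/-- `J2r3` -/
def J2r3 : Ex := (Ex.q (72341) 500000)

/-- `J2r4` -/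
def J2r4 : Ex := (Ex.q (2241) 20000)

/-- `J2r5` -/
def J2r5 : Ex := (Ex.q (1429) 15625)

/-- `J2g1` -/
def J2g1 : Ex := (((Ex.q (100177) 50000) + ((Ex.q (61779) 100000) * (Ex.z - (Ex.q (19) 25)))) + ((Ex.q (36983) 100000) * ((Ex.z - (Ex.q (19) 25)) ^ 2)))

/-- `J2q1` -/
def J2q1 : Ex := (((Ex.q (899) 4000) + ((Ex.q (6281) 50000) * (Ex.z - (Ex.q (19) 25)))) + ((Ex.q (-5667) 100000) * ((Ex.z - (Ex.q (19) 25)) ^ 2)))

/-- `J2h1` -/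
def J2h1 : Ex := ((Ex.q (83) 25) + ((Ex.q (9) 10) * (Ex.z - (Ex.q (19) 25))))

/-- `J2g2` -/
def J2g2 : Ex := (((Ex.q (3049) 2000) + ((Ex.q (2077) 10000) * (Ex.z - (Ex.q (19) 25)))) + ((Ex.q (1629) 20000) * ((Ex.z - (Ex.q (19) 25)) ^ 2)))

/-- `J2q2` -/
def J2q2 : Ex := (((Ex.q (16863) 100000) + ((Ex.q (1761) 20000) * (Ex.z - (Ex.q (19) 25)))) + ((Ex.q (761) 100000) * ((Ex.z - (Ex.q (19) 25)) ^ 2)))

/-- `J2h2` -/
def J2h2 : Ex := (((Ex.q (244031) 100000) + ((Ex.q (65283) 100000) * (Ex.z - (Ex.q (19) 25)))) + ((Ex.q (-135287) 50000) * ((Ex.z - (Ex.q (19) 25)) ^ 2)))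

/-- `J2g3` -/
def J2g3 : Ex := (((Ex.q (134969) 100000) + ((Ex.q (10101) 100000) * (Ex.z - (Ex.q (19) 25)))) + ((Ex.q (2919) 100000) * ((Ex.z - (Ex.q (19) 25)) ^ 2)))

/-- `J2q3` -/
def J2q3 : Ex := (((Ex.q (1629) 12500) + ((Ex.q (1423) 25000) * (Ex.z - (Ex.q (19) 25)))) + ((Ex.q (211) 25000) * ((Ex.z - (Ex.q (19) 25)) ^ 2)))

/-- `J2h3` -/
def J2h3 : Ex := (((Ex.q (101279) 50000) + ((Ex.q (1973) 5000) * (Ex.z - (Ex.q (19) 25)))) + ((Ex.q (-184781) 100000) * ((Ex.z - (Ex.q (19) 25)) ^ 2)))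

/-- `J2g4` -/
def J2g4 : Ex := (((Ex.q (63077) 50000) + ((Ex.q (5957) 100000) * (Ex.z - (Ex.q (19) 25)))) + ((Ex.q (343) 25000) * ((Ex.z - (Ex.q (19) 25)) ^ 2)))

/-- `J2q4` -/
def J2q4 : Ex := (((Ex.q (529) 5000) + ((Ex.q (1963) 50000) * (Ex.z - (Ex.q (19) 25)))) + ((Ex.q (121) 20000) * ((Ex.z - (Ex.q (19) 25)) ^ 2)))

/-- `J2h4` -/
def J2h4 : Ex := (((Ex.q (180053) 100000) + ((Ex.q (23571) 100000) * (Ex.z - (Ex.q (19) 25)))) + ((Ex.q (-136551) 100000) * ((Ex.z - (Ex.q (19) 25)) ^ 2)))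

/-- `J2g5` -/
def J2g5 : Ex := (((Ex.q (60643) 50000) + ((Ex.q (4173) 100000) * (Ex.z - (Ex.q (19) 25)))) + ((Ex.q (211) 25000) * ((Ex.z - (Ex.q (19) 25)) ^ 2)))

/-- `J2q5` -/
def J2q5 : Ex := (((Ex.q (929) 10000) + ((Ex.q (1537) 50000) * (Ex.z - (Ex.q (19) 25)))) + ((Ex.q (61) 12500) * ((Ex.z - (Ex.q (19) 25)) ^ 2)))

/-- `J2h5` -/
def J2h5 : Ex := (((Ex.q (2123) 1250) + ((Ex.q (4899) 50000) * (Ex.z - (Ex.q (19) 25)))) + ((Ex.q (-59251) 50000) * ((Ex.z - (Ex.q (19) 25)) ^ 2)))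

/-- `J2g6` -/
def J2g6 : Ex := (((Ex.q (3826) 3125) + ((Ex.q (2199) 50000) * (Ex.z - (Ex.q (19) 25)))) + ((Ex.q (889) 100000) * ((Ex.z - (Ex.q (19) 25)) ^ 2)))

/-- `J2q6` -/
def J2q6 : Ex := (((Ex.q (981) 10000) + ((Ex.q (23) 800) * (Ex.z - (Ex.q (19) 25)))) + ((Ex.q (121) 25000) * ((Ex.z - (Ex.q (19) 25)) ^ 2)))

/-- `J2h6` -/
def J2h6 : Ex := (((Ex.q (8569) 5000) + ((Ex.q (-683) 50000) * (Ex.z - (Ex.q (19) 25)))) + ((Ex.q (-5049) 4000) * ((Ex.z - (Ex.q (19) 25)) ^ 2)))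

theorem J21G : check (((J2g1 * ((1 + 2) - Ex.z)) - (((1 + J2r1) * ((1 + 2) - Ex.z)) + ((J2r1 * ((1 + 1) + Ex.z)) * J2g2)))) one one (seg (38) 5 50) ⟨0, 0, 3⟩
    (T.o) = true := by
  decide +kernel

theorem J21q : check (J2q1) one one (seg (38) 5 50) ⟨0, 0, 2⟩
    (T.o) = true := by
  decide +kernel

theorem J21Q : check (((((J2q1 * ((2 * 1) + 1)) * ((1 + 2) - Ex.z)) * (((J2r1 * ((1 + 1) + Ex.z)) * J2g2) + ((1 + J2r1) * ((1 + 2) - Ex.z)))) - ((((J2g2 * ((2 * 1) + 3)) * (1 + J2q2)) * (((1 + 1) - Ex.z) * (1 + Ex.z))) * J2r1))) one one (seg (38) 5 50) ⟨0, 0, 6⟩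
    (T.o) = true := by
  decide +kernel

theorem J21a : check (((J2h1 * (((1 + 1) - Ex.z) * (1 + Ex.z))) - (((1 + Ex.z) ^ 2) + ((((2 * 1) + 1) ^ 2) * J2q1)))) one one (seg (38) 5 50) ⟨0, 0, 3⟩
    (T.o) = true := by
  decide +kernel

theorem J21b : check (((J2R - (J2h1 * J2P)) - 1)) one one (seg (38) 5 50) ⟨0, 0, 4⟩
    (T.o) = true := by
  decide +kernel

theorem J21d : check (((((((J2h1 * ((1 + 1) - Ex.z)) - (1 + Ex.z)) * (1 + Ex.z)) * (J2R - (J2h2 * J2P))) * (1 + J2q1)) - (((((((2 * 1) + 1) ^ 2) * J2q1) * (1 + J2q1)) * J2R) + (((J2q1 * ((1 + 1) - Ex.z)) * ((J2h2 * (1 + Ex.z)) - ((1 + 1) - Ex.z))) * (J2R - (J2h1 * J2P)))))) one one (seg (38) 5 50) ⟨0, 0, 10⟩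
    (T.o) = true := by
  decide +kernel

theorem J22G : check (((J2g2 * ((2 + 2) - Ex.z)) - (((1 + J2r2) * ((2 + 2) - Ex.z)) + ((J2r2 * ((2 + 1) + Ex.z)) * J2g3)))) one one (seg (38) 5 50) ⟨0, 0, 3⟩
    (T.o) = true := by
  decide +kernel

theorem J22q : check (J2q2) one one (seg (38) 5 50) ⟨0, 0, 2⟩
    (T.o) = true := by
  decide +kernel

theorem J22Q : check (((((J2q2 * ((2 * 2) + 1)) * ((2 + 2) - Ex.z)) * (((J2r2 * ((2 + 1) + Ex.z)) * J2g3) + ((1 + J2r2) * ((2 + 2) - Ex.z)))) - ((((J2g3 * ((2 * 2) + 3)) * (1 + J2q3)) * (((2 + 1) - Ex.z) * (2 + Ex.z))) * J2r2))) one one (seg (38) 5 50) ⟨0, 0, 6⟩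
    (T.o) = true := by
  decide +kernel

theorem J22a : check (((J2h2 * (((2 + 1) - Ex.z) * (2 + Ex.z))) - (((2 + Ex.z) ^ 2) + ((((2 * 2) + 1) ^ 2) * J2q2)))) one one (seg (38) 5 50) ⟨0, 0, 4⟩
    (T.o) = true := by
  decide +kernel

theorem J22b : check (((J2R - (J2h2 * J2P)) - 1)) one one (seg (38) 5 50) ⟨0, 0, 5⟩
    (T.o) = true := by
  decide +kernel

theorem J22d : check (((((((J2h2 * ((2 + 1) - Ex.z)) - (2 + Ex.z)) * (2 + Ex.z)) * (J2R - (J2h3 * J2P))) * (1 + J2q2)) - (((((((2 * 2) + 1) ^ 2) * J2q2) * (1 + J2q2)) * J2R) + (((J2q2 * ((2 + 1) - Ex.z)) * ((J2h3 * (2 + Ex.z)) - ((2 + 1) - Ex.z))) * (J2R - (J2h2 * J2P)))))) one one (seg (38) 5 50) ⟨0, 0, 11⟩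
    (T.o) = true := by
  decide +kernel

theorem J23G : check (((J2g3 * ((3 + 2) - Ex.z)) - (((1 + J2r3) * ((3 + 2) - Ex.z)) + ((J2r3 * ((3 + 1) + Ex.z)) * J2g4)))) one one (seg (38) 5 50) ⟨0, 0, 3⟩
    (T.o) = true := by
  decide +kernel

theorem J23q : check (J2q3) one one (seg (38) 5 50) ⟨0, 0, 2⟩
    (T.o) = true := by
  decide +kernel

theorem J23Q : check (((((J2q3 * ((2 * 3) + 1)) * ((3 + 2) - Ex.z)) * (((J2r3 * ((3 + 1) + Ex.z)) * J2g4) + ((1 + J2r3) * ((3 + 2) - Ex.z)))) - ((((J2g4 * ((2 * 3) + 3)) * (1 + J2q4)) * (((3 + 1) - Ex.z) * (3 + Ex.z))) * J2r3))) one one (seg (38) 5 50) ⟨0, 0, 6⟩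
    (T.o) = true := by
  decide +kernel

theorem J23a : check (((J2h3 * (((3 + 1) - Ex.z) * (3 + Ex.z))) - (((3 + Ex.z) ^ 2) + ((((2 * 3) + 1) ^ 2) * J2q3)))) one one (seg (38) 5 50) ⟨0, 0, 4⟩
    (T.o) = true := by
  decide +kernel

theorem J23b : check (((J2R - (J2h3 * J2P)) - 1)) one one (seg (38) 5 50) ⟨0, 0, 5⟩
    (T.o) = true := by
  decide +kernel

theorem J23d : check (((((((J2h3 * ((3 + 1) - Ex.z)) - (3 + Ex.z)) * (3 + Ex.z)) * (J2R - (J2h4 * J2P))) * (1 + J2q3)) - (((((((2 * 3) + 1) ^ 2) * J2q3) * (1 + J2q3)) * J2R) + (((J2q3 * ((3 + 1) - Ex.z)) * ((J2h4 * (3 + Ex.z)) - ((3 + 1) - Ex.z))) * (J2R - (J2h3 * J2P)))))) one one (seg (38) 5 50) ⟨0, 0, 11⟩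
    (T.o) = true := by
  decide +kernel

theorem J24G : check (((J2g4 * ((4 + 2) - Ex.z)) - (((1 + J2r4) * ((4 + 2) - Ex.z)) + ((J2r4 * ((4 + 1) + Ex.z)) * J2g5)))) one one (seg (38) 5 50) ⟨0, 0, 3⟩
    (T.o) = true := by
  decide +kernel

theorem J24q : check (J2q4) one one (seg (38) 5 50) ⟨0, 0, 2⟩
    (T.o) = true := by
  decide +kernel

theorem J24Q : check (((((J2q4 * ((2 * 4) + 1)) * ((4 + 2) - Ex.z)) * (((J2r4 * ((4 + 1) + Ex.z)) * J2g5) + ((1 + J2r4) * ((4 + 2) - Ex.z)))) - ((((J2g5 * ((2 * 4) + 3)) * (1 + J2q5)) * (((4 + 1) - Ex.z) * (4 + Ex.z))) * J2r4))) one one (seg (38) 5 50) ⟨0, 0, 6⟩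
    (T.o) = true := by
  decide +kernel

theorem J24a : check (((J2h4 * (((4 + 1) - Ex.z) * (4 + Ex.z))) - (((4 + Ex.z) ^ 2) + ((((2 * 4) + 1) ^ 2) * J2q4)))) one one (seg (38) 5 50) ⟨0, 0, 4⟩
    (T.o) = true := by
  decide +kernel

theorem J24b : check (((J2R - (J2h4 * J2P)) - 1)) one one (seg (38) 5 50) ⟨0, 0, 5⟩
    (T.o) = true := by
  decide +kernel

theorem J24d : check (((((((J2h4 * ((4 + 1) - Ex.z)) - (4 + Ex.z)) * (4 + Ex.z)) * (J2R - (J2h5 * J2P))) * (1 + J2q4)) - (((((((2 * 4) + 1) ^ 2) * J2q4) * (1 + J2q4)) * J2R) + (((J2q4 * ((4 + 1) - Ex.z)) * ((J2h5 * (4 + Ex.z)) - ((4 + 1) - Ex.z))) * (J2R - (J2h4 * J2P)))))) one one (seg (38) 5 50) ⟨0, 0, 11⟩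
    (T.o) = true := by
  decide +kernel

theorem J25G : check (((J2g5 * ((5 + 2) - Ex.z)) - (((1 + J2r5) * ((5 + 2) - Ex.z)) + ((J2r5 * ((5 + 1) + Ex.z)) * J2g6)))) one one (seg (38) 5 50) ⟨0, 0, 3⟩
    (T.o) = true := by
  decide +kernel

theorem J25q : check (J2q5) one one (seg (38) 5 50) ⟨0, 0, 2⟩
    (T.o) = true := by
  decide +kernel

theorem J25Q : check (((((J2q5 * ((2 * 5) + 1)) * ((5 + 2) - Ex.z)) * (((J2r5 * ((5 + 1) + Ex.z)) * J2g6) + ((1 + J2r5) * ((5 + 2) - Ex.z)))) - ((((J2g6 * ((2 * 5) + 3)) * (1 + J2q6)) * (((5 + 1) - Ex.z) * (5 + Ex.z))) * J2r5))) one one (seg (38) 5 50) ⟨0, 0, 6⟩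
    (T.o) = true := by
  decide +kernel

theorem J25a : check (((J2h5 * (((5 + 1) - Ex.z) * (5 + Ex.z))) - (((5 + Ex.z) ^ 2) + ((((2 * 5) + 1) ^ 2) * J2q5)))) one one (seg (38) 5 50) ⟨0, 0, 4⟩
    (T.o) = true := by
  decide +kernel

theorem J25b : check (((J2R - (J2h5 * J2P)) - 1)) one one (seg (38) 5 50) ⟨0, 0, 5⟩
    (T.o) = true := by
  decide +kernel

theorem J25d : check (((((((J2h5 * ((5 + 1) - Ex.z)) - (5 + Ex.z)) * (5 + Ex.z)) * (J2R - (J2h6 * J2P))) * (1 + J2q5)) - (((((((2 * 5) + 1) ^ 2) * J2q5) * (1 + J2q5)) * J2R) + (((J2q5 * ((5 + 1) - Ex.z)) * ((J2h6 * (5 + Ex.z)) - ((5 + 1) - Ex.z))) * (J2R - (J2h5 * J2P)))))) one one (seg (38) 5 50) ⟨0, 0, 11⟩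
    (T.o) = true := by
  decide +kernel

theorem J2t1 : check ((J2g6 - 1)) one one (seg (38) 5 50) ⟨0, 0, 2⟩
    (T.o) = true := by
  decide +kernel

theorem J2tG : check (((J2g6 * ((7 * (7 - Ex.z)) - (J2c * 4))) - (7 * (7 - Ex.z)))) one one (seg (38) 5 50) ⟨0, 0, 3⟩
    (T.o) = true := by
  decide +kernel

theorem J2tq : check (J2q6) one one (seg (38) 5 50) ⟨0, 0, 2⟩
    (T.o) = true := by
  decide +kernel

theorem J2tQ : check ((((24 * J2q6) * (8 - Ex.z)) - ((J2c * (7 + Ex.z)) * (1 + J2q6)))) one one (seg (38) 5 50) ⟨0, 0, 3⟩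
    (T.o) = true := by
  decide +kernel

theorem J2th : check (J2h6) one one (seg (38) 5 50) ⟨0, 0, 2⟩
    (T.o) = true := by
  decide +kernel

theorem J2t3 : check (((J2R - (J2h6 * J2P)) - 1)) one one (seg (38) 5 50) ⟨0, 0, 5⟩
    (T.o) = true := by
  decide +kernel

theorem J2t5 : check ((((J2R - (J2h6 * J2P)) * (((J2h6 * ((7 - Ex.z) * (6 + Ex.z))) - (((6 + Ex.z) ^ 2) * (1 + J2q6))) + (J2q6 * ((7 - Ex.z) ^ 2)))) - (((169 * J2q6) * (1 + J2q6)) * J2R))) one one (seg (38) 5 50) ⟨0, 0, 9⟩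
    (T.o) = true := by
  decide +kernel

theorem J2_mem {a : ℝ} (h0 : 19 / 25 ≤ a) (h1 : a ≤ 43 / 50) : Side.mem (seg (38) 5 50) a := by
  constructor
  · show (((38 : ℤ) : ℝ)) ≤ ((50 : ℕ) : ℝ) * a
    norm_num
    linarith
  · intro _
    show ((50 : ℕ) : ℝ) * a ≤ (((38 : ℤ) : ℝ)) + ((5 : ℕ) : ℝ)
    norm_num
    linarith

theorem J2row1 {a : ℝ} (hz : Side.mem (seg (38) 5 50) a) :
    Row a (Ex.ev 0 0 a J2P) (Ex.ev 0 0 a J2R) 1 (Ex.ev 0 0 a J2r1) (Ex.ev 0 0 a J2g1) (Ex.ev 0 0 a J2g2) (Ex.ev 0 0 a J2q1) (Ex.ev 0 0 a J2q2) (Ex.ev 0 0 a J2h1) (Ex.ev 0 0 a J2h2) :=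
  ⟨by simpa only [Ex.ev_add, Ex.ev_sub, Ex.ev_mul, Ex.ev_pow, Ex.ev_one, ev_2, ev_3, ev_4, ev_5, ev_6, ev_7, ev_8,
      ev_24, ev_169, Ex.ev_z] using check_spec _ _ J21G one_mem one_mem hz,
    by simpa only [Ex.ev_add, Ex.ev_sub, Ex.ev_mul, Ex.ev_pow, Ex.ev_one, ev_2, ev_3, ev_4, ev_5, ev_6, ev_7, ev_8,
      ev_24, ev_169, Ex.ev_z] using check_spec _ _ J21q one_mem one_mem hz,
    by simpa only [Ex.ev_add, Ex.ev_sub, Ex.ev_mul, Ex.ev_pow, Ex.ev_one, ev_2, ev_3, ev_4, ev_5, ev_6, ev_7, ev_8,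
      ev_24, ev_169, Ex.ev_z] using check_spec _ _ J21Q one_mem one_mem hz,
    by simpa only [Ex.ev_add, Ex.ev_sub, Ex.ev_mul, Ex.ev_pow, Ex.ev_one, ev_2, ev_3, ev_4, ev_5, ev_6, ev_7, ev_8,
      ev_24, ev_169, Ex.ev_z] using check_spec _ _ J21a one_mem one_mem hz,
    by simpa only [Ex.ev_add, Ex.ev_sub, Ex.ev_mul, Ex.ev_pow, Ex.ev_one, ev_2, ev_3, ev_4, ev_5, ev_6, ev_7, ev_8,
      ev_24, ev_169, Ex.ev_z] using check_spec _ _ J21b one_mem one_mem hz,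
    by simpa only [Ex.ev_add, Ex.ev_sub, Ex.ev_mul, Ex.ev_pow, Ex.ev_one, ev_2, ev_3, ev_4, ev_5, ev_6, ev_7, ev_8,
      ev_24, ev_169, Ex.ev_z] using check_spec _ _ J21d one_mem one_mem hz⟩

theorem J2row2 {a : ℝ} (hz : Side.mem (seg (38) 5 50) a) :
    Row a (Ex.ev 0 0 a J2P) (Ex.ev 0 0 a J2R) 2 (Ex.ev 0 0 a J2r2) (Ex.ev 0 0 a J2g2) (Ex.ev 0 0 a J2g3) (Ex.ev 0 0 a J2q2) (Ex.ev 0 0 a J2q3) (Ex.ev 0 0 a J2h2) (Ex.ev 0 0 a J2h3) :=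
  ⟨by simpa only [Ex.ev_add, Ex.ev_sub, Ex.ev_mul, Ex.ev_pow, Ex.ev_one, ev_2, ev_3, ev_4, ev_5, ev_6, ev_7, ev_8,
      ev_24, ev_169, Ex.ev_z] using check_spec _ _ J22G one_mem one_mem hz,
    by simpa only [Ex.ev_add, Ex.ev_sub, Ex.ev_mul, Ex.ev_pow, Ex.ev_one, ev_2, ev_3, ev_4, ev_5, ev_6, ev_7, ev_8,
      ev_24, ev_169, Ex.ev_z] using check_spec _ _ J22q one_mem one_mem hz,
    by simpa only [Ex.ev_add, Ex.ev_sub, Ex.ev_mul, Ex.ev_pow, Ex.ev_one, ev_2, ev_3, ev_4, ev_5, ev_6, ev_7, ev_8,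
      ev_24, ev_169, Ex.ev_z] using check_spec _ _ J22Q one_mem one_mem hz,
    by simpa only [Ex.ev_add, Ex.ev_sub, Ex.ev_mul, Ex.ev_pow, Ex.ev_one, ev_2, ev_3, ev_4, ev_5, ev_6, ev_7, ev_8,
      ev_24, ev_169, Ex.ev_z] using check_spec _ _ J22a one_mem one_mem hz,
    by simpa only [Ex.ev_add, Ex.ev_sub, Ex.ev_mul, Ex.ev_pow, Ex.ev_one, ev_2, ev_3, ev_4, ev_5, ev_6, ev_7, ev_8,
      ev_24, ev_169, Ex.ev_z] using check_spec _ _ J22b one_mem one_mem hz,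
    by simpa only [Ex.ev_add, Ex.ev_sub, Ex.ev_mul, Ex.ev_pow, Ex.ev_one, ev_2, ev_3, ev_4, ev_5, ev_6, ev_7, ev_8,
      ev_24, ev_169, Ex.ev_z] using check_spec _ _ J22d one_mem one_mem hz⟩

theorem J2row3 {a : ℝ} (hz : Side.mem (seg (38) 5 50) a) :
    Row a (Ex.ev 0 0 a J2P) (Ex.ev 0 0 a J2R) 3 (Ex.ev 0 0 a J2r3) (Ex.ev 0 0 a J2g3) (Ex.ev 0 0 a J2g4) (Ex.ev 0 0 a J2q3) (Ex.ev 0 0 a J2q4) (Ex.ev 0 0 a J2h3) (Ex.ev 0 0 a J2h4) :=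
  ⟨by simpa only [Ex.ev_add, Ex.ev_sub, Ex.ev_mul, Ex.ev_pow, Ex.ev_one, ev_2, ev_3, ev_4, ev_5, ev_6, ev_7, ev_8,
      ev_24, ev_169, Ex.ev_z] using check_spec _ _ J23G one_mem one_mem hz,
    by simpa only [Ex.ev_add, Ex.ev_sub, Ex.ev_mul, Ex.ev_pow, Ex.ev_one, ev_2, ev_3, ev_4, ev_5, ev_6, ev_7, ev_8,
      ev_24, ev_169, Ex.ev_z] using check_spec _ _ J23q one_mem one_mem hz,
    by simpa only [Ex.ev_add, Ex.ev_sub, Ex.ev_mul, Ex.ev_pow, Ex.ev_one, ev_2, ev_3, ev_4, ev_5, ev_6, ev_7, ev_8,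
      ev_24, ev_169, Ex.ev_z] using check_spec _ _ J23Q one_mem one_mem hz,
    by simpa only [Ex.ev_add, Ex.ev_sub, Ex.ev_mul, Ex.ev_pow, Ex.ev_one, ev_2, ev_3, ev_4, ev_5, ev_6, ev_7, ev_8,
      ev_24, ev_169, Ex.ev_z] using check_spec _ _ J23a one_mem one_mem hz,
    by simpa only [Ex.ev_add, Ex.ev_sub, Ex.ev_mul, Ex.ev_pow, Ex.ev_one, ev_2, ev_3, ev_4, ev_5, ev_6, ev_7, ev_8,
      ev_24, ev_169, Ex.ev_z] using check_spec _ _ J23b one_mem one_mem hz,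
    by simpa only [Ex.ev_add, Ex.ev_sub, Ex.ev_mul, Ex.ev_pow, Ex.ev_one, ev_2, ev_3, ev_4, ev_5, ev_6, ev_7, ev_8,
      ev_24, ev_169, Ex.ev_z] using check_spec _ _ J23d one_mem one_mem hz⟩

theorem J2row4 {a : ℝ} (hz : Side.mem (seg (38) 5 50) a) :
    Row a (Ex.ev 0 0 a J2P) (Ex.ev 0 0 a J2R) 4 (Ex.ev 0 0 a J2r4) (Ex.ev 0 0 a J2g4) (Ex.ev 0 0 a J2g5) (Ex.ev 0 0 a J2q4) (Ex.ev 0 0 a J2q5) (Ex.ev 0 0 a J2h4) (Ex.ev 0 0 a J2h5) :=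
  ⟨by simpa only [Ex.ev_add, Ex.ev_sub, Ex.ev_mul, Ex.ev_pow, Ex.ev_one, ev_2, ev_3, ev_4, ev_5, ev_6, ev_7, ev_8,
      ev_24, ev_169, Ex.ev_z] using check_spec _ _ J24G one_mem one_mem hz,
    by simpa only [Ex.ev_add, Ex.ev_sub, Ex.ev_mul, Ex.ev_pow, Ex.ev_one, ev_2, ev_3, ev_4, ev_5, ev_6, ev_7, ev_8,
      ev_24, ev_169, Ex.ev_z] using check_spec _ _ J24q one_mem one_mem hz,
    by simpa only [Ex.ev_add, Ex.ev_sub, Ex.ev_mul, Ex.ev_pow, Ex.ev_one, ev_2, ev_3, ev_4, ev_5, ev_6, ev_7, ev_8,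
      ev_24, ev_169, Ex.ev_z] using check_spec _ _ J24Q one_mem one_mem hz,
    by simpa only [Ex.ev_add, Ex.ev_sub, Ex.ev_mul, Ex.ev_pow, Ex.ev_one, ev_2, ev_3, ev_4, ev_5, ev_6, ev_7, ev_8,
      ev_24, ev_169, Ex.ev_z] using check_spec _ _ J24a one_mem one_mem hz,
    by simpa only [Ex.ev_add, Ex.ev_sub, Ex.ev_mul, Ex.ev_pow, Ex.ev_one, ev_2, ev_3, ev_4, ev_5, ev_6, ev_7, ev_8,
      ev_24, ev_169, Ex.ev_z] using check_spec _ _ J24b one_mem one_mem hz,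
    by simpa only [Ex.ev_add, Ex.ev_sub, Ex.ev_mul, Ex.ev_pow, Ex.ev_one, ev_2, ev_3, ev_4, ev_5, ev_6, ev_7, ev_8,
      ev_24, ev_169, Ex.ev_z] using check_spec _ _ J24d one_mem one_mem hz⟩

theorem J2row5 {a : ℝ} (hz : Side.mem (seg (38) 5 50) a) :
    Row a (Ex.ev 0 0 a J2P) (Ex.ev 0 0 a J2R) 5 (Ex.ev 0 0 a J2r5) (Ex.ev 0 0 a J2g5) (Ex.ev 0 0 a J2g6) (Ex.ev 0 0 a J2q5) (Ex.ev 0 0 a J2q6) (Ex.ev 0 0 a J2h5) (Ex.ev 0 0 a J2h6) :=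
  ⟨by simpa only [Ex.ev_add, Ex.ev_sub, Ex.ev_mul, Ex.ev_pow, Ex.ev_one, ev_2, ev_3, ev_4, ev_5, ev_6, ev_7, ev_8,
      ev_24, ev_169, Ex.ev_z] using check_spec _ _ J25G one_mem one_mem hz,
    by simpa only [Ex.ev_add, Ex.ev_sub, Ex.ev_mul, Ex.ev_pow, Ex.ev_one, ev_2, ev_3, ev_4, ev_5, ev_6, ev_7, ev_8,
      ev_24, ev_169, Ex.ev_z] using check_spec _ _ J25q one_mem one_mem hz,
    by simpa only [Ex.ev_add, Ex.ev_sub, Ex.ev_mul, Ex.ev_pow, Ex.ev_one, ev_2, ev_3, ev_4, ev_5, ev_6, ev_7, ev_8,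
      ev_24, ev_169, Ex.ev_z] using check_spec _ _ J25Q one_mem one_mem hz,
    by simpa only [Ex.ev_add, Ex.ev_sub, Ex.ev_mul, Ex.ev_pow, Ex.ev_one, ev_2, ev_3, ev_4, ev_5, ev_6, ev_7, ev_8,
      ev_24, ev_169, Ex.ev_z] using check_spec _ _ J25a one_mem one_mem hz,
    by simpa only [Ex.ev_add, Ex.ev_sub, Ex.ev_mul, Ex.ev_pow, Ex.ev_one, ev_2, ev_3, ev_4, ev_5, ev_6, ev_7, ev_8,
      ev_24, ev_169, Ex.ev_z] using check_spec _ _ J25b one_mem one_mem hz,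
    by simpa only [Ex.ev_add, Ex.ev_sub, Ex.ev_mul, Ex.ev_pow, Ex.ev_one, ev_2, ev_3, ev_4, ev_5, ev_6, ev_7, ev_8,
      ev_24, ev_169, Ex.ev_z] using check_spec _ _ J25d one_mem one_mem hz⟩

theorem J2top {a : ℝ} (hz : Side.mem (seg (38) 5 50) a) :
    Top6 a (Ex.ev 0 0 a J2c) (Ex.ev 0 0 a J2P) (Ex.ev 0 0 a J2R) (Ex.ev 0 0 a J2g6) (Ex.ev 0 0 a J2q6) (Ex.ev 0 0 a J2h6) :=
  ⟨by simpa only [Ex.ev_add, Ex.ev_sub, Ex.ev_mul, Ex.ev_pow, Ex.ev_one, ev_2, ev_3, ev_4, ev_5, ev_6, ev_7, ev_8,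
      ev_24, ev_169, Ex.ev_z] using check_spec _ _ J2t1 one_mem one_mem hz,
    by simpa only [Ex.ev_add, Ex.ev_sub, Ex.ev_mul, Ex.ev_pow, Ex.ev_one, ev_2, ev_3, ev_4, ev_5, ev_6, ev_7, ev_8,
      ev_24, ev_169, Ex.ev_z] using check_spec _ _ J2tG one_mem one_mem hz,
    by simpa only [Ex.ev_add, Ex.ev_sub, Ex.ev_mul, Ex.ev_pow, Ex.ev_one, ev_2, ev_3, ev_4, ev_5, ev_6, ev_7, ev_8,
      ev_24, ev_169, Ex.ev_z] using check_spec _ _ J2tq one_mem one_mem hz,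
    by simpa only [Ex.ev_add, Ex.ev_sub, Ex.ev_mul, Ex.ev_pow, Ex.ev_one, ev_2, ev_3, ev_4, ev_5, ev_6, ev_7, ev_8,
      ev_24, ev_169, Ex.ev_z] using check_spec _ _ J2tQ one_mem one_mem hz,
    by simpa only [Ex.ev_add, Ex.ev_sub, Ex.ev_mul, Ex.ev_pow, Ex.ev_one, ev_2, ev_3, ev_4, ev_5, ev_6, ev_7, ev_8,
      ev_24, ev_169, Ex.ev_z] using check_spec _ _ J2th one_mem one_mem hz,
    by simpa only [Ex.ev_add, Ex.ev_sub, Ex.ev_mul, Ex.ev_pow, Ex.ev_one, ev_2, ev_3, ev_4, ev_5, ev_6, ev_7, ev_8,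
      ev_24, ev_169, Ex.ev_z] using check_spec _ _ J2t3 one_mem one_mem hz,
    by simpa only [Ex.ev_add, Ex.ev_sub, Ex.ev_mul, Ex.ev_pow, Ex.ev_one, ev_2, ev_3, ev_4, ev_5, ev_6, ev_7, ev_8,
      ev_24, ev_169, Ex.ev_z] using check_spec _ _ J2t5 one_mem one_mem hz⟩

/-- **region II (v3 data)** -/
theorem tail3_II {n : ℕ} {p a w be : ℝ} (hn : 1 ≤ n) (hp : p = 1 / a) (h0 : 19 / 25 ≤ a)
    (h1 : a ≤ 43 / 50) (hw : w = (6 / 25 + 3 / 4 * a) * a * (1 - a)) (hbe : be = 83 / 25 + 9 / 10 * (a - 19 / 25)) :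
    Tail1 n p a (bs n a 2) (1001 / 1000 * (w / (1 - w)))
      (fun Y => Lam n p a (bs n a 2) 1 / (1 - be * Y)) := by
  have hz : Side.mem (seg (38) 5 50) a := J2_mem (by linarith) h1
  have ec : Ex.ev 0 0 a J2c = 2 := by
    simp only [J2c, Ex.ev_q, ev_2, ev_3]
  have ew : Ex.ev 0 0 a J2w = w := by
    rw [hw]
    simp only [J2w, Ex.ev_add, Ex.ev_sub, Ex.ev_mul, Ex.ev_pow, Ex.ev_one, ev_2, ev_3, ev_4, ev_6, ev_1000, ev_1001, Ex.ev_z, Ex.ev_q]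
    norm_num
    try ring
  have eP : Ex.ev 0 0 a J2P = 1001 * w := by
    rw [← ew]
    simp only [J2P, Ex.ev_mul, ev_1001]
  have eR : Ex.ev 0 0 a J2R = 1000 * (1 - w) := by
    rw [← ew]
    simp only [J2R, Ex.ev_mul, Ex.ev_sub, Ex.ev_one, ev_2, ev_3, ev_4, ev_6, ev_1000, ev_1001]
  have eb : Ex.ev 0 0 a J2h1 = be := by
    rw [hbe]
    simp only [J2h1, Ex.ev_add, Ex.ev_sub, Ex.ev_mul, Ex.ev_pow, Ex.ev_one, ev_2, ev_3, ev_4, ev_6, ev_1000, ev_1001, Ex.ev_z, Ex.ev_q]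
    try norm_num
    try ring
  have er1 : Ex.ev 0 0 a J2r1 = 348603 / 1000000 := by simp only [J2r1, Ex.ev_q]; norm_num
  have er2 : Ex.ev 0 0 a J2r2 = 204337 / 1000000 := by simp only [J2r2, Ex.ev_q]; norm_num
  have er3 : Ex.ev 0 0 a J2r3 = 72341 / 500000 := by simp only [J2r3, Ex.ev_q]; norm_num
  have er4 : Ex.ev 0 0 a J2r4 = 2241 / 20000 := by simp only [J2r4, Ex.ev_q]; norm_num
  have er5 : Ex.ev 0 0 a J2r5 = 1429 / 15625 := by simp only [J2r5, Ex.ev_q]; norm_num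
  obtain ⟨p1, p2, p3, p4, p5⟩ := psi_r2
  have t := J2top hz
  have w1 := J2row1 hz
  have w2 := J2row2 hz
  have w3 := J2row3 hz
  have w4 := J2row4 hz
  have w5 := J2row5 hz
  rw [er1, eb] at w1
  rw [er2] at w2
  rw [er3] at w3
  rw [er4] at w4
  rw [er5] at w5
  rw [ec] at t
  have hw01 : 0 < w ∧ w < 1 := by
    have u0 : 0 < a := by linarith
    have u1 : a < 1 := by linarith
    have u2 : 0 < 1 - a := by linarith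
    have u3 : 0 < a * (1 - a) := mul_pos u0 u2
    constructor
    · rw [hw]
      have u4 : 0 < 6 / 25 + 3 / 4 * a := by linarith
      have := mul_pos u4 u3
      linarith
    · rw [hw]
      nlinarith [mul_pos u0 u2, mul_nonneg u3.le u2.le, mul_pos u3 u0]
  have key := tail1_six (n := n) (p := p) (a := a) (c := 2) hn hp (by linarith) (by linarith)
    (by norm_num) (P := Ex.ev 0 0 a J2P) (R := Ex.ev 0 0 a J2R)
    (by rw [eP]; linarith [hw01.1]) (by rw [eR]; linarith [hw01.2])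
    p1 p2 p3 p4 p5 w1 w2 w3 w4 w5 t
  rw [eP, eR, ← div_mul_div_comm] at key
  exact key

end Pool.Agent.Lib.QNL.Num93
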