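import Pool.Agent.Lib.QNL.NumT93
import Pool.Agent.Lib.QNL.NumPsi93
import Pool.Agent.Lib.QNL.NumEv93

/-!
Group N, `Tail1` in region III (v3 data) (generated by a script; every inequality is a one-variable
polynomial inequality checked by `PolyPos`).
-/

set_option autoImplicit false
set_option linter.unusedSimpArgs false

namespace Pool.Agent.Lib.QNL.Num93

open Pool.Agent.Lib.QNL
open Pool.Agent.Lib.QNL.PolyPos
open Pool.Agent.Lib.QNL.CG (bs Tail1)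
open Pool.Agent.Lib.QNL.Tail35 (Lam)

/-- `J3w` -/
def J3w : Ex := (((Ex.z - (Ex.q (1) 100)) * Ex.z) * (1 - Ex.z))

/-- `J3P` -/
def J3P : Ex := (1001 * J3w)

/-- `J3R` -/
def J3R : Ex := (1000 * (1 - J3w))

/-- `J3c` -/
def J3c : Ex := (Ex.q (5) 2)

/-- `J3r1` -/
def J3r1 : Ex := (Ex.q (7019) 15625)

/-- `J3r2` -/
def J3r2 : Ex := (Ex.q (16171) 62500)

/-- `J3r3` -/
def J3r3 : Ex := (Ex.q (45537) 250000)

/-- `J3r4` -/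
def J3r4 : Ex := (Ex.q (140699) 1000000)

/-- `J3r5` -/
def J3r5 : Ex := (Ex.q (57339) 500000)

/-- `J3g1` -/
def J3g1 : Ex := (((Ex.q (12429) 5000) + ((Ex.q (10359) 10000) * (Ex.z - (Ex.q (43) 50)))) + ((Ex.q (66539) 100000) * ((Ex.z - (Ex.q (43) 50)) ^ 2)))

/-- `J3q1` -/
def J3q1 : Ex := (((Ex.q (1843) 6250) + ((Ex.q (1673) 12500) * (Ex.z - (Ex.q (43) 50)))) + ((Ex.q (-10369) 100000) * ((Ex.z - (Ex.q (43) 50)) ^ 2)))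

/-- `J3h1` -/
def J3h1 : Ex := (Ex.q (99) 25)

/-- `J3g2` -/
def J3g2 : Ex := (((Ex.q (43161) 25000) + ((Ex.q (1979) 6250) * (Ex.z - (Ex.q (43) 50)))) + ((Ex.q (13201) 100000) * ((Ex.z - (Ex.q (43) 50)) ^ 2)))

/-- `J3q2` -/
def J3q2 : Ex := (((Ex.q (22463) 100000) + ((Ex.q (5611) 50000) * (Ex.z - (Ex.q (43) 50)))) + ((Ex.q (609) 100000) * ((Ex.z - (Ex.q (43) 50)) ^ 2)))

/-- `J3h2` -/
def J3h2 : Ex := (((Ex.q (56903) 20000) + ((Ex.q (-507) 2000) * (Ex.z - (Ex.q (43) 50)))) + ((Ex.q (-2453) 5000) * ((Ex.z - (Ex.q (43) 50)) ^ 2)))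

/-- `J3g3` -/
def J3g3 : Ex := (((Ex.q (29403) 20000) + ((Ex.q (2937) 20000) * (Ex.z - (Ex.q (43) 50)))) + ((Ex.q (1121) 25000) * ((Ex.z - (Ex.q (43) 50)) ^ 2)))

/-- `J3q3` -/
def J3q3 : Ex := (((Ex.q (17297) 100000) + ((Ex.q (1871) 25000) * (Ex.z - (Ex.q (43) 50)))) + ((Ex.q (27) 2500) * ((Ex.z - (Ex.q (43) 50)) ^ 2)))

/-- `J3h3` -/
def J3h3 : Ex := (((Ex.q (230861) 100000) + ((Ex.q (-20619) 100000) * (Ex.z - (Ex.q (43) 50)))) + ((Ex.q (-4379) 6250) * ((Ex.z - (Ex.q (43) 50)) ^ 2)))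

/-- `J3g4` -/
def J3g4 : Ex := (((Ex.q (134641) 100000) + ((Ex.q (4233) 50000) * (Ex.z - (Ex.q (43) 50)))) + ((Ex.q (413) 20000) * ((Ex.z - (Ex.q (43) 50)) ^ 2)))

/-- `J3q4` -/
def J3q4 : Ex := (((Ex.q (7011) 50000) + ((Ex.q (5251) 100000) * (Ex.z - (Ex.q (43) 50)))) + ((Ex.q (839) 100000) * ((Ex.z - (Ex.q (43) 50)) ^ 2)))

/-- `J3h4` -/
def J3h4 : Ex := (((Ex.q (100973) 50000) + ((Ex.q (-5809) 25000) * (Ex.z - (Ex.q (43) 50)))) + ((Ex.q (-54733) 100000) * ((Ex.z - (Ex.q (43) 50)) ^ 2)))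

/-- `J3g5` -/
def J3g5 : Ex := (((Ex.q (128177) 100000) + ((Ex.q (2989) 50000) * (Ex.z - (Ex.q (43) 50)))) + ((Ex.q (649) 50000) * ((Ex.z - (Ex.q (43) 50)) ^ 2)))

/-- `J3q5` -/
def J3q5 : Ex := (((Ex.q (311) 2500) + ((Ex.q (2109) 50000) * (Ex.z - (Ex.q (43) 50)))) + ((Ex.q (357) 50000) * ((Ex.z - (Ex.q (43) 50)) ^ 2)))

/-- `J3h5` -/
def J3h5 : Ex := (((Ex.q (37817) 20000) + ((Ex.q (-34073) 100000) * (Ex.z - (Ex.q (43) 50)))) + ((Ex.q (-10031) 25000) * ((Ex.z - (Ex.q (43) 50)) ^ 2)))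

/-- `J3g6` -/
def J3g6 : Ex := (((Ex.q (32583) 25000) + ((Ex.q (1287) 20000) * (Ex.z - (Ex.q (43) 50)))) + ((Ex.q (1397) 100000) * ((Ex.z - (Ex.q (43) 50)) ^ 2)))

/-- `J3q6` -/
def J3q6 : Ex := (((Ex.q (2591) 20000) + ((Ex.q (391) 10000) * (Ex.z - (Ex.q (43) 50)))) + ((Ex.q (87) 12500) * ((Ex.z - (Ex.q (43) 50)) ^ 2)))

/-- `J3h6` -/
def J3h6 : Ex := (((Ex.q (94779) 50000) + ((Ex.q (-47827) 100000) * (Ex.z - (Ex.q (43) 50)))) + ((Ex.q (-2133) 5000) * ((Ex.z - (Ex.q (43) 50)) ^ 2)))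

theorem J31G : check (((J3g1 * ((1 + 2) - Ex.z)) - (((1 + J3r1) * ((1 + 2) - Ex.z)) + ((J3r1 * ((1 + 1) + Ex.z)) * J3g2)))) one one (seg (86) 7 100) ⟨0, 0, 3⟩
    (T.o) = true := by
  decide +kernel

theorem J31q : check (J3q1) one one (seg (86) 7 100) ⟨0, 0, 2⟩
    (T.o) = true := by
  decide +kernel

theorem J31Q : check (((((J3q1 * ((2 * 1) + 1)) * ((1 + 2) - Ex.z)) * (((J3r1 * ((1 + 1) + Ex.z)) * J3g2) + ((1 + J3r1) * ((1 + 2) - Ex.z)))) - ((((J3g2 * ((2 * 1) + 3)) * (1 + J3q2)) * (((1 + 1) - Ex.z) * (1 + Ex.z))) * J3r1))) one one (seg (86) 7 100) ⟨0, 0, 6⟩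
    (T.o) = true := by
  decide +kernel

theorem J31a : check (((J3h1 * (((1 + 1) - Ex.z) * (1 + Ex.z))) - (((1 + Ex.z) ^ 2) + ((((2 * 1) + 1) ^ 2) * J3q1)))) one one (seg (86) 7 100) ⟨0, 0, 2⟩
    (T.o) = true := by
  decide +kernel

theorem J31b : check (((J3R - (J3h1 * J3P)) - 1)) one one (seg (86) 7 100) ⟨0, 0, 3⟩
    (T.o) = true := by
  decide +kernel

theorem J31d : check (((((((J3h1 * ((1 + 1) - Ex.z)) - (1 + Ex.z)) * (1 + Ex.z)) * (J3R - (J3h2 * J3P))) * (1 + J3q1)) - (((((((2 * 1) + 1) ^ 2) * J3q1) * (1 + J3q1)) * J3R) + (((J3q1 * ((1 + 1) - Ex.z)) * ((J3h2 * (1 + Ex.z)) - ((1 + 1) - Ex.z))) * (J3R - (J3h1 * J3P)))))) one one (seg (86) 7 100) ⟨0, 0, 9⟩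
    (T.o) = true := by
  decide +kernel

theorem J32G : check (((J3g2 * ((2 + 2) - Ex.z)) - (((1 + J3r2) * ((2 + 2) - Ex.z)) + ((J3r2 * ((2 + 1) + Ex.z)) * J3g3)))) one one (seg (86) 7 100) ⟨0, 0, 3⟩
    (T.o) = true := by
  decide +kernel

theorem J32q : check (J3q2) one one (seg (86) 7 100) ⟨0, 0, 2⟩
    (T.o) = true := by
  decide +kernel

theorem J32Q : check (((((J3q2 * ((2 * 2) + 1)) * ((2 + 2) - Ex.z)) * (((J3r2 * ((2 + 1) + Ex.z)) * J3g3) + ((1 + J3r2) * ((2 + 2) - Ex.z)))) - ((((J3g3 * ((2 * 2) + 3)) * (1 + J3q3)) * (((2 + 1) - Ex.z) * (2 + Ex.z))) * J3r2))) one one (seg (86) 7 100) ⟨0, 0, 6⟩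
    (T.o) = true := by
  decide +kernel

theorem J32a : check (((J3h2 * (((2 + 1) - Ex.z) * (2 + Ex.z))) - (((2 + Ex.z) ^ 2) + ((((2 * 2) + 1) ^ 2) * J3q2)))) one one (seg (86) 7 100) ⟨0, 0, 4⟩
    (T.o) = true := by
  decide +kernel

theorem J32b : check (((J3R - (J3h2 * J3P)) - 1)) one one (seg (86) 7 100) ⟨0, 0, 5⟩
    (T.o) = true := by
  decide +kernel

theorem J32d : check (((((((J3h2 * ((2 + 1) - Ex.z)) - (2 + Ex.z)) * (2 + Ex.z)) * (J3R - (J3h3 * J3P))) * (1 + J3q2)) - (((((((2 * 2) + 1) ^ 2) * J3q2) * (1 + J3q2)) * J3R) + (((J3q2 * ((2 + 1) - Ex.z)) * ((J3h3 * (2 + Ex.z)) - ((2 + 1) - Ex.z))) * (J3R - (J3h2 * J3P)))))) one one (seg (86) 7 100) ⟨0, 0, 11⟩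
    (T.o) = true := by
  decide +kernel

theorem J33G : check (((J3g3 * ((3 + 2) - Ex.z)) - (((1 + J3r3) * ((3 + 2) - Ex.z)) + ((J3r3 * ((3 + 1) + Ex.z)) * J3g4)))) one one (seg (86) 7 100) ⟨0, 0, 3⟩
    (T.o) = true := by
  decide +kernel

theorem J33q : check (J3q3) one one (seg (86) 7 100) ⟨0, 0, 2⟩
    (T.o) = true := by
  decide +kernel

theorem J33Q : check (((((J3q3 * ((2 * 3) + 1)) * ((3 + 2) - Ex.z)) * (((J3r3 * ((3 + 1) + Ex.z)) * J3g4) + ((1 + J3r3) * ((3 + 2) - Ex.z)))) - ((((J3g4 * ((2 * 3) + 3)) * (1 + J3q4)) * (((3 + 1) - Ex.z) * (3 + Ex.z))) * J3r3))) one one (seg (86) 7 100) ⟨0, 0, 6⟩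
    (T.o) = true := by
  decide +kernel

theorem J33a : check (((J3h3 * (((3 + 1) - Ex.z) * (3 + Ex.z))) - (((3 + Ex.z) ^ 2) + ((((2 * 3) + 1) ^ 2) * J3q3)))) one one (seg (86) 7 100) ⟨0, 0, 4⟩
    (T.o) = true := by
  decide +kernel

theorem J33b : check (((J3R - (J3h3 * J3P)) - 1)) one one (seg (86) 7 100) ⟨0, 0, 5⟩
    (T.o) = true := by
  decide +kernel

theorem J33d : check (((((((J3h3 * ((3 + 1) - Ex.z)) - (3 + Ex.z)) * (3 + Ex.z)) * (J3R - (J3h4 * J3P))) * (1 + J3q3)) - (((((((2 * 3) + 1) ^ 2) * J3q3) * (1 + J3q3)) * J3R) + (((J3q3 * ((3 + 1) - Ex.z)) * ((J3h4 * (3 + Ex.z)) - ((3 + 1) - Ex.z))) * (J3R - (J3h3 * J3P)))))) one one (seg (86) 7 100) ⟨0, 0, 11⟩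
    (T.o) = true := by
  decide +kernel

theorem J34G : check (((J3g4 * ((4 + 2) - Ex.z)) - (((1 + J3r4) * ((4 + 2) - Ex.z)) + ((J3r4 * ((4 + 1) + Ex.z)) * J3g5)))) one one (seg (86) 7 100) ⟨0, 0, 3⟩
    (T.o) = true := by
  decide +kernel

theorem J34q : check (J3q4) one one (seg (86) 7 100) ⟨0, 0, 2⟩
    (T.o) = true := by
  decide +kernel

theorem J34Q : check (((((J3q4 * ((2 * 4) + 1)) * ((4 + 2) - Ex.z)) * (((J3r4 * ((4 + 1) + Ex.z)) * J3g5) + ((1 + J3r4) * ((4 + 2) - Ex.z)))) - ((((J3g5 * ((2 * 4) + 3)) * (1 + J3q5)) * (((4 + 1) - Ex.z) * (4 + Ex.z))) * J3r4))) one one (seg (86) 7 100) ⟨0, 0, 6⟩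
    (T.o) = true := by
  decide +kernel

theorem J34a : check (((J3h4 * (((4 + 1) - Ex.z) * (4 + Ex.z))) - (((4 + Ex.z) ^ 2) + ((((2 * 4) + 1) ^ 2) * J3q4)))) one one (seg (86) 7 100) ⟨0, 0, 4⟩
    (T.o) = true := by
  decide +kernel

theorem J34b : check (((J3R - (J3h4 * J3P)) - 1)) one one (seg (86) 7 100) ⟨0, 0, 5⟩
    (T.o) = true := by
  decide +kernel

theorem J34d : check (((((((J3h4 * ((4 + 1) - Ex.z)) - (4 + Ex.z)) * (4 + Ex.z)) * (J3R - (J3h5 * J3P))) * (1 + J3q4)) - (((((((2 * 4) + 1) ^ 2) * J3q4) * (1 + J3q4)) * J3R) + (((J3q4 * ((4 + 1) - Ex.z)) * ((J3h5 * (4 + Ex.z)) - ((4 + 1) - Ex.z))) * (J3R - (J3h4 * J3P)))))) one one (seg (86) 7 100) ⟨0, 0, 11⟩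
    (T.o) = true := by
  decide +kernel

theorem J35G : check (((J3g5 * ((5 + 2) - Ex.z)) - (((1 + J3r5) * ((5 + 2) - Ex.z)) + ((J3r5 * ((5 + 1) + Ex.z)) * J3g6)))) one one (seg (86) 7 100) ⟨0, 0, 3⟩
    (T.o) = true := by
  decide +kernel

theorem J35q : check (J3q5) one one (seg (86) 7 100) ⟨0, 0, 2⟩
    (T.o) = true := by
  decide +kernel

theorem J35Q : check (((((J3q5 * ((2 * 5) + 1)) * ((5 + 2) - Ex.z)) * (((J3r5 * ((5 + 1) + Ex.z)) * J3g6) + ((1 + J3r5) * ((5 + 2) - Ex.z)))) - ((((J3g6 * ((2 * 5) + 3)) * (1 + J3q6)) * (((5 + 1) - Ex.z) * (5 + Ex.z))) * J3r5))) one one (seg (86) 7 100) ⟨0, 0, 6⟩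
    (T.o) = true := by
  decide +kernel

theorem J35a : check (((J3h5 * (((5 + 1) - Ex.z) * (5 + Ex.z))) - (((5 + Ex.z) ^ 2) + ((((2 * 5) + 1) ^ 2) * J3q5)))) one one (seg (86) 7 100) ⟨0, 0, 4⟩
    (T.o) = true := by
  decide +kernel

theorem J35b : check (((J3R - (J3h5 * J3P)) - 1)) one one (seg (86) 7 100) ⟨0, 0, 5⟩
    (T.o) = true := by
  decide +kernel

theorem J35d : check (((((((J3h5 * ((5 + 1) - Ex.z)) - (5 + Ex.z)) * (5 + Ex.z)) * (J3R - (J3h6 * J3P))) * (1 + J3q5)) - (((((((2 * 5) + 1) ^ 2) * J3q5) * (1 + J3q5)) * J3R) + (((J3q5 * ((5 + 1) - Ex.z)) * ((J3h6 * (5 + Ex.z)) - ((5 + 1) - Ex.z))) * (J3R - (J3h5 * J3P)))))) one one (seg (86) 7 100) ⟨0, 0, 11⟩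
    (T.o) = true := by
  decide +kernel

theorem J3t1 : check ((J3g6 - 1)) one one (seg (86) 7 100) ⟨0, 0, 2⟩
    (T.o) = true := by
  decide +kernel

theorem J3tG : check (((J3g6 * ((7 * (7 - Ex.z)) - (J3c * 4))) - (7 * (7 - Ex.z)))) one one (seg (86) 7 100) ⟨0, 0, 3⟩
    (T.o) = true := by
  decide +kernel

theorem J3tq : check (J3q6) one one (seg (86) 7 100) ⟨0, 0, 2⟩
    (T.o) = true := by
  decide +kernel

theorem J3tQ : check ((((24 * J3q6) * (8 - Ex.z)) - ((J3c * (7 + Ex.z)) * (1 + J3q6)))) one one (seg (86) 7 100) ⟨0, 0, 3⟩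
    (T.o) = true := by
  decide +kernel

theorem J3th : check (J3h6) one one (seg (86) 7 100) ⟨0, 0, 2⟩
    (T.o) = true := by
  decide +kernel

theorem J3t3 : check (((J3R - (J3h6 * J3P)) - 1)) one one (seg (86) 7 100) ⟨0, 0, 5⟩
    (T.o) = true := by
  decide +kernel

theorem J3t5 : check ((((J3R - (J3h6 * J3P)) * (((J3h6 * ((7 - Ex.z) * (6 + Ex.z))) - (((6 + Ex.z) ^ 2) * (1 + J3q6))) + (J3q6 * ((7 - Ex.z) ^ 2)))) - (((169 * J3q6) * (1 + J3q6)) * J3R))) one one (seg (86) 7 100) ⟨0, 0, 9⟩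
    (T.o) = true := by
  decide +kernel

theorem J3_mem {a : ℝ} (h0 : 43 / 50 ≤ a) (h1 : a ≤ 93 / 100) : Side.mem (seg (86) 7 100) a := by
  constructor
  · show (((86 : ℤ) : ℝ)) ≤ ((100 : ℕ) : ℝ) * a
    norm_num
    linarith
  · intro _
    show ((100 : ℕ) : ℝ) * a ≤ (((86 : ℤ) : ℝ)) + ((7 : ℕ) : ℝ)
    norm_num
    linarith

theorem J3row1 {a : ℝ} (hz : Side.mem (seg (86) 7 100) a) :
    Row a (Ex.ev 0 0 a J3P) (Ex.ev 0 0 a J3R) 1 (Ex.ev 0 0 a J3r1) (Ex.ev 0 0 a J3g1) (Ex.ev 0 0 a J3g2) (Ex.ev 0 0 a J3q1) (Ex.ev 0 0 a J3q2) (Ex.ev 0 0 a J3h1) (Ex.ev 0 0 a J3h2) :=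
  ⟨by simpa only [Ex.ev_add, Ex.ev_sub, Ex.ev_mul, Ex.ev_pow, Ex.ev_one, ev_2, ev_3, ev_4, ev_5, ev_6, ev_7, ev_8,
      ev_24, ev_169, Ex.ev_z] using check_spec _ _ J31G one_mem one_mem hz,
    by simpa only [Ex.ev_add, Ex.ev_sub, Ex.ev_mul, Ex.ev_pow, Ex.ev_one, ev_2, ev_3, ev_4, ev_5, ev_6, ev_7, ev_8,
      ev_24, ev_169, Ex.ev_z] using check_spec _ _ J31q one_mem one_mem hz,
    by simpa only [Ex.ev_add, Ex.ev_sub, Ex.ev_mul, Ex.ev_pow, Ex.ev_one, ev_2, ev_3, ev_4, ev_5, ev_6, ev_7, ev_8,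
      ev_24, ev_169, Ex.ev_z] using check_spec _ _ J31Q one_mem one_mem hz,
    by simpa only [Ex.ev_add, Ex.ev_sub, Ex.ev_mul, Ex.ev_pow, Ex.ev_one, ev_2, ev_3, ev_4, ev_5, ev_6, ev_7, ev_8,
      ev_24, ev_169, Ex.ev_z] using check_spec _ _ J31a one_mem one_mem hz,
    by simpa only [Ex.ev_add, Ex.ev_sub, Ex.ev_mul, Ex.ev_pow, Ex.ev_one, ev_2, ev_3, ev_4, ev_5, ev_6, ev_7, ev_8,
      ev_24, ev_169, Ex.ev_z] using check_spec _ _ J31b one_mem one_mem hz,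
    by simpa only [Ex.ev_add, Ex.ev_sub, Ex.ev_mul, Ex.ev_pow, Ex.ev_one, ev_2, ev_3, ev_4, ev_5, ev_6, ev_7, ev_8,
      ev_24, ev_169, Ex.ev_z] using check_spec _ _ J31d one_mem one_mem hz⟩

theorem J3row2 {a : ℝ} (hz : Side.mem (seg (86) 7 100) a) :
    Row a (Ex.ev 0 0 a J3P) (Ex.ev 0 0 a J3R) 2 (Ex.ev 0 0 a J3r2) (Ex.ev 0 0 a J3g2) (Ex.ev 0 0 a J3g3) (Ex.ev 0 0 a J3q2) (Ex.ev 0 0 a J3q3) (Ex.ev 0 0 a J3h2) (Ex.ev 0 0 a J3h3) :=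
  ⟨by simpa only [Ex.ev_add, Ex.ev_sub, Ex.ev_mul, Ex.ev_pow, Ex.ev_one, ev_2, ev_3, ev_4, ev_5, ev_6, ev_7, ev_8,
      ev_24, ev_169, Ex.ev_z] using check_spec _ _ J32G one_mem one_mem hz,
    by simpa only [Ex.ev_add, Ex.ev_sub, Ex.ev_mul, Ex.ev_pow, Ex.ev_one, ev_2, ev_3, ev_4, ev_5, ev_6, ev_7, ev_8,
      ev_24, ev_169, Ex.ev_z] using check_spec _ _ J32q one_mem one_mem hz,
    by simpa only [Ex.ev_add, Ex.ev_sub, Ex.ev_mul, Ex.ev_pow, Ex.ev_one, ev_2, ev_3, ev_4, ev_5, ev_6, ev_7, ev_8,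
      ev_24, ev_169, Ex.ev_z] using check_spec _ _ J32Q one_mem one_mem hz,
    by simpa only [Ex.ev_add, Ex.ev_sub, Ex.ev_mul, Ex.ev_pow, Ex.ev_one, ev_2, ev_3, ev_4, ev_5, ev_6, ev_7, ev_8,
      ev_24, ev_169, Ex.ev_z] using check_spec _ _ J32a one_mem one_mem hz,
    by simpa only [Ex.ev_add, Ex.ev_sub, Ex.ev_mul, Ex.ev_pow, Ex.ev_one, ev_2, ev_3, ev_4, ev_5, ev_6, ev_7, ev_8,
      ev_24, ev_169, Ex.ev_z] using check_spec _ _ J32b one_mem one_mem hz,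
    by simpa only [Ex.ev_add, Ex.ev_sub, Ex.ev_mul, Ex.ev_pow, Ex.ev_one, ev_2, ev_3, ev_4, ev_5, ev_6, ev_7, ev_8,
      ev_24, ev_169, Ex.ev_z] using check_spec _ _ J32d one_mem one_mem hz⟩

theorem J3row3 {a : ℝ} (hz : Side.mem (seg (86) 7 100) a) :
    Row a (Ex.ev 0 0 a J3P) (Ex.ev 0 0 a J3R) 3 (Ex.ev 0 0 a J3r3) (Ex.ev 0 0 a J3g3) (Ex.ev 0 0 a J3g4) (Ex.ev 0 0 a J3q3) (Ex.ev 0 0 a J3q4) (Ex.ev 0 0 a J3h3) (Ex.ev 0 0 a J3h4) :=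
  ⟨by simpa only [Ex.ev_add, Ex.ev_sub, Ex.ev_mul, Ex.ev_pow, Ex.ev_one, ev_2, ev_3, ev_4, ev_5, ev_6, ev_7, ev_8,
      ev_24, ev_169, Ex.ev_z] using check_spec _ _ J33G one_mem one_mem hz,
    by simpa only [Ex.ev_add, Ex.ev_sub, Ex.ev_mul, Ex.ev_pow, Ex.ev_one, ev_2, ev_3, ev_4, ev_5, ev_6, ev_7, ev_8,
      ev_24, ev_169, Ex.ev_z] using check_spec _ _ J33q one_mem one_mem hz,
    by simpa only [Ex.ev_add, Ex.ev_sub, Ex.ev_mul, Ex.ev_pow, Ex.ev_one, ev_2, ev_3, ev_4, ev_5, ev_6, ev_7, ev_8,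
      ev_24, ev_169, Ex.ev_z] using check_spec _ _ J33Q one_mem one_mem hz,
    by simpa only [Ex.ev_add, Ex.ev_sub, Ex.ev_mul, Ex.ev_pow, Ex.ev_one, ev_2, ev_3, ev_4, ev_5, ev_6, ev_7, ev_8,
      ev_24, ev_169, Ex.ev_z] using check_spec _ _ J33a one_mem one_mem hz,
    by simpa only [Ex.ev_add, Ex.ev_sub, Ex.ev_mul, Ex.ev_pow, Ex.ev_one, ev_2, ev_3, ev_4, ev_5, ev_6, ev_7, ev_8,
      ev_24, ev_169, Ex.ev_z] using check_spec _ _ J33b one_mem one_mem hz,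
    by simpa only [Ex.ev_add, Ex.ev_sub, Ex.ev_mul, Ex.ev_pow, Ex.ev_one, ev_2, ev_3, ev_4, ev_5, ev_6, ev_7, ev_8,
      ev_24, ev_169, Ex.ev_z] using check_spec _ _ J33d one_mem one_mem hz⟩

theorem J3row4 {a : ℝ} (hz : Side.mem (seg (86) 7 100) a) :
    Row a (Ex.ev 0 0 a J3P) (Ex.ev 0 0 a J3R) 4 (Ex.ev 0 0 a J3r4) (Ex.ev 0 0 a J3g4) (Ex.ev 0 0 a J3g5) (Ex.ev 0 0 a J3q4) (Ex.ev 0 0 a J3q5) (Ex.ev 0 0 a J3h4) (Ex.ev 0 0 a J3h5) :=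
  ⟨by simpa only [Ex.ev_add, Ex.ev_sub, Ex.ev_mul, Ex.ev_pow, Ex.ev_one, ev_2, ev_3, ev_4, ev_5, ev_6, ev_7, ev_8,
      ev_24, ev_169, Ex.ev_z] using check_spec _ _ J34G one_mem one_mem hz,
    by simpa only [Ex.ev_add, Ex.ev_sub, Ex.ev_mul, Ex.ev_pow, Ex.ev_one, ev_2, ev_3, ev_4, ev_5, ev_6, ev_7, ev_8,
      ev_24, ev_169, Ex.ev_z] using check_spec _ _ J34q one_mem one_mem hz,
    by simpa only [Ex.ev_add, Ex.ev_sub, Ex.ev_mul, Ex.ev_pow, Ex.ev_one, ev_2, ev_3, ev_4, ev_5, ev_6, ev_7, ev_8,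
      ev_24, ev_169, Ex.ev_z] using check_spec _ _ J34Q one_mem one_mem hz,
    by simpa only [Ex.ev_add, Ex.ev_sub, Ex.ev_mul, Ex.ev_pow, Ex.ev_one, ev_2, ev_3, ev_4, ev_5, ev_6, ev_7, ev_8,
      ev_24, ev_169, Ex.ev_z] using check_spec _ _ J34a one_mem one_mem hz,
    by simpa only [Ex.ev_add, Ex.ev_sub, Ex.ev_mul, Ex.ev_pow, Ex.ev_one, ev_2, ev_3, ev_4, ev_5, ev_6, ev_7, ev_8,
      ev_24, ev_169, Ex.ev_z] using check_spec _ _ J34b one_mem one_mem hz,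
    by simpa only [Ex.ev_add, Ex.ev_sub, Ex.ev_mul, Ex.ev_pow, Ex.ev_one, ev_2, ev_3, ev_4, ev_5, ev_6, ev_7, ev_8,
      ev_24, ev_169, Ex.ev_z] using check_spec _ _ J34d one_mem one_mem hz⟩

theorem J3row5 {a : ℝ} (hz : Side.mem (seg (86) 7 100) a) :
    Row a (Ex.ev 0 0 a J3P) (Ex.ev 0 0 a J3R) 5 (Ex.ev 0 0 a J3r5) (Ex.ev 0 0 a J3g5) (Ex.ev 0 0 a J3g6) (Ex.ev 0 0 a J3q5) (Ex.ev 0 0 a J3q6) (Ex.ev 0 0 a J3h5) (Ex.ev 0 0 a J3h6) :=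
  ⟨by simpa only [Ex.ev_add, Ex.ev_sub, Ex.ev_mul, Ex.ev_pow, Ex.ev_one, ev_2, ev_3, ev_4, ev_5, ev_6, ev_7, ev_8,
      ev_24, ev_169, Ex.ev_z] using check_spec _ _ J35G one_mem one_mem hz,
    by simpa only [Ex.ev_add, Ex.ev_sub, Ex.ev_mul, Ex.ev_pow, Ex.ev_one, ev_2, ev_3, ev_4, ev_5, ev_6, ev_7, ev_8,
      ev_24, ev_169, Ex.ev_z] using check_spec _ _ J35q one_mem one_mem hz,
    by simpa only [Ex.ev_add, Ex.ev_sub, Ex.ev_mul, Ex.ev_pow, Ex.ev_one, ev_2, ev_3, ev_4, ev_5, ev_6, ev_7, ev_8,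
      ev_24, ev_169, Ex.ev_z] using check_spec _ _ J35Q one_mem one_mem hz,
    by simpa only [Ex.ev_add, Ex.ev_sub, Ex.ev_mul, Ex.ev_pow, Ex.ev_one, ev_2, ev_3, ev_4, ev_5, ev_6, ev_7, ev_8,
      ev_24, ev_169, Ex.ev_z] using check_spec _ _ J35a one_mem one_mem hz,
    by simpa only [Ex.ev_add, Ex.ev_sub, Ex.ev_mul, Ex.ev_pow, Ex.ev_one, ev_2, ev_3, ev_4, ev_5, ev_6, ev_7, ev_8,
      ev_24, ev_169, Ex.ev_z] using check_spec _ _ J35b one_mem one_mem hz,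
    by simpa only [Ex.ev_add, Ex.ev_sub, Ex.ev_mul, Ex.ev_pow, Ex.ev_one, ev_2, ev_3, ev_4, ev_5, ev_6, ev_7, ev_8,
      ev_24, ev_169, Ex.ev_z] using check_spec _ _ J35d one_mem one_mem hz⟩

theorem J3top {a : ℝ} (hz : Side.mem (seg (86) 7 100) a) :
    Top6 a (Ex.ev 0 0 a J3c) (Ex.ev 0 0 a J3P) (Ex.ev 0 0 a J3R) (Ex.ev 0 0 a J3g6) (Ex.ev 0 0 a J3q6) (Ex.ev 0 0 a J3h6) :=
  ⟨by simpa only [Ex.ev_add, Ex.ev_sub, Ex.ev_mul, Ex.ev_pow, Ex.ev_one, ev_2, ev_3, ev_4, ev_5, ev_6, ev_7, ev_8,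
      ev_24, ev_169, Ex.ev_z] using check_spec _ _ J3t1 one_mem one_mem hz,
    by simpa only [Ex.ev_add, Ex.ev_sub, Ex.ev_mul, Ex.ev_pow, Ex.ev_one, ev_2, ev_3, ev_4, ev_5, ev_6, ev_7, ev_8,
      ev_24, ev_169, Ex.ev_z] using check_spec _ _ J3tG one_mem one_mem hz,
    by simpa only [Ex.ev_add, Ex.ev_sub, Ex.ev_mul, Ex.ev_pow, Ex.ev_one, ev_2, ev_3, ev_4, ev_5, ev_6, ev_7, ev_8,
      ev_24, ev_169, Ex.ev_z] using check_spec _ _ J3tq one_mem one_mem hz,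
    by simpa only [Ex.ev_add, Ex.ev_sub, Ex.ev_mul, Ex.ev_pow, Ex.ev_one, ev_2, ev_3, ev_4, ev_5, ev_6, ev_7, ev_8,
      ev_24, ev_169, Ex.ev_z] using check_spec _ _ J3tQ one_mem one_mem hz,
    by simpa only [Ex.ev_add, Ex.ev_sub, Ex.ev_mul, Ex.ev_pow, Ex.ev_one, ev_2, ev_3, ev_4, ev_5, ev_6, ev_7, ev_8,
      ev_24, ev_169, Ex.ev_z] using check_spec _ _ J3th one_mem one_mem hz,
    by simpa only [Ex.ev_add, Ex.ev_sub, Ex.ev_mul, Ex.ev_pow, Ex.ev_one, ev_2, ev_3, ev_4, ev_5, ev_6, ev_7, ev_8,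
      ev_24, ev_169, Ex.ev_z] using check_spec _ _ J3t3 one_mem one_mem hz,
    by simpa only [Ex.ev_add, Ex.ev_sub, Ex.ev_mul, Ex.ev_pow, Ex.ev_one, ev_2, ev_3, ev_4, ev_5, ev_6, ev_7, ev_8,
      ev_24, ev_169, Ex.ev_z] using check_spec _ _ J3t5 one_mem one_mem hz⟩

/-- **region III (v3 data)** -/
theorem tail3_III {n : ℕ} {p a w be : ℝ} (hn : 1 ≤ n) (hp : p = 1 / a) (h0 : 43 / 50 ≤ a)
    (h1 : a ≤ 93 / 100) (hw : w = (a - 1 / 100) * a * (1 - a)) (hbe : be = 99 / 25) :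
    Tail1 n p a (bs n a (5 / 2)) (1001 / 1000 * (w / (1 - w)))
      (fun Y => Lam n p a (bs n a (5 / 2)) 1 / (1 - be * Y)) := by
  have hz : Side.mem (seg (86) 7 100) a := J3_mem (by linarith) h1
  have ec : Ex.ev 0 0 a J3c = (5 / 2) := by
    simp only [J3c, Ex.ev_q, ev_2, ev_3]; norm_num
  have ew : Ex.ev 0 0 a J3w = w := by
    rw [hw]
    simp only [J3w, Ex.ev_add, Ex.ev_sub, Ex.ev_mul, Ex.ev_pow, Ex.ev_one, ev_2, ev_3, ev_4, ev_6, ev_1000, ev_1001, Ex.ev_z, Ex.ev_q]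
    norm_num
    try ring
  have eP : Ex.ev 0 0 a J3P = 1001 * w := by
    rw [← ew]
    simp only [J3P, Ex.ev_mul, ev_1001]
  have eR : Ex.ev 0 0 a J3R = 1000 * (1 - w) := by
    rw [← ew]
    simp only [J3R, Ex.ev_mul, Ex.ev_sub, Ex.ev_one, ev_2, ev_3, ev_4, ev_6, ev_1000, ev_1001]
  have eb : Ex.ev 0 0 a J3h1 = be := by
    rw [hbe]
    simp only [J3h1, Ex.ev_add, Ex.ev_sub, Ex.ev_mul, Ex.ev_pow, Ex.ev_one, ev_2, ev_3, ev_4, ev_6, ev_1000, ev_1001, Ex.ev_z, Ex.ev_q]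
    try norm_num
    try ring
  have er1 : Ex.ev 0 0 a J3r1 = 7019 / 15625 := by simp only [J3r1, Ex.ev_q]; norm_num
  have er2 : Ex.ev 0 0 a J3r2 = 16171 / 62500 := by simp only [J3r2, Ex.ev_q]; norm_num
  have er3 : Ex.ev 0 0 a J3r3 = 45537 / 250000 := by simp only [J3r3, Ex.ev_q]; norm_num
  have er4 : Ex.ev 0 0 a J3r4 = 140699 / 1000000 := by simp only [J3r4, Ex.ev_q]; norm_num
  have er5 : Ex.ev 0 0 a J3r5 = 57339 / 500000 := by simp only [J3r5, Ex.ev_q]; norm_num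
  obtain ⟨p1, p2, p3, p4, p5⟩ := psi_r52
  have t := J3top hz
  have w1 := J3row1 hz
  have w2 := J3row2 hz
  have w3 := J3row3 hz
  have w4 := J3row4 hz
  have w5 := J3row5 hz
  rw [er1, eb] at w1
  rw [er2] at w2
  rw [er3] at w3
  rw [er4] at w4
  rw [er5] at w5
  rw [ec] at t
  have hw01 : 0 < w ∧ w < 1 := by
    have u0 : 0 < a := by linarith
    have u1 : a < 1 := by linarith
    have u2 : 0 < 1 - a := by linarith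
    have u3 : 0 < a * (1 - a) := mul_pos u0 u2
    constructor
    · rw [hw]
      have u4 : 0 < a - 1 / 100 := by linarith
      have := mul_pos u4 u3
      linarith
    · rw [hw]
      nlinarith [mul_pos u0 u2, mul_nonneg u3.le u2.le, mul_pos u3 u0]
  have key := tail1_six (n := n) (p := p) (a := a) (c := (5 / 2)) hn hp (by linarith) (by linarith)
    (by norm_num) (P := Ex.ev 0 0 a J3P) (R := Ex.ev 0 0 a J3R)
    (by rw [eP]; linarith [hw01.1]) (by rw [eR]; linarith [hw01.2])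
    p1 p2 p3 p4 p5 w1 w2 w3 w4 w5 t
  rw [eP, eR, ← div_mul_div_comm] at key
  exact key

end Pool.Agent.Lib.QNL.Num93
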