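import Pool.Agent.Lib.QNL.NumT93
import Pool.Agent.Lib.QNL.NumPsi93
import Pool.Agent.Lib.QNL.NumEv93

/-!
Group N, `Tail1` in region IV (v3 data) (generated by a script; every inequality is a one-variable
polynomial inequality checked by `PolyPos`).
-/

set_option autoImplicit false
set_option linter.unusedSimpArgs false

namespace Pool.Agent.Lib.QNL.Num93

open Pool.Agent.Lib.QNL
open Pool.Agent.Lib.QNL.PolyPos
open Pool.Agent.Lib.QNL.CG (bs Tail1)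
open Pool.Agent.Lib.QNL.Tail35 (Lam)

/-- `J4w` -/
def J4w : Ex := (((Ex.z - (Ex.q (3) 100)) * Ex.z) * (1 - Ex.z))

/-- `J4P` -/
def J4P : Ex := (1001 * J4w)

/-- `J4R` -/
def J4R : Ex := (1000 * (1 - J4w))

/-- `J4c` -/
def J4c : Ex := 3

/-- `J4r1` -/
def J4r1 : Ex := (Ex.q (276831) 500000)

/-- `J4r2` -/
def J4r2 : Ex := (Ex.q (313857) 1000000)

/-- `J4r3` -/
def J4r3 : Ex := (Ex.q (13741) 62500)

/-- `J4r4` -/
def J4r4 : Ex := (Ex.q (169453) 1000000)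

/-- `J4r5` -/
def J4r5 : Ex := (Ex.q (27591) 200000)

/-- `J4g1` -/
def J4g1 : Ex := (((Ex.q (154413) 50000) + ((Ex.q (10133) 6250) * (Ex.z - (Ex.q (93) 100)))) + ((Ex.q (108611) 100000) * ((Ex.z - (Ex.q (93) 100)) ^ 2)))

/-- `J4q1` -/
def J4q1 : Ex := (((Ex.q (36149) 100000) + ((Ex.q (3279) 25000) * (Ex.z - (Ex.q (93) 100)))) + ((Ex.q (-3063) 20000) * ((Ex.z - (Ex.q (93) 100)) ^ 2)))

/-- `J4h1` -/
def J4h1 : Ex := (Ex.q (112) 25)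

/-- `J4g2` -/
def J4g2 : Ex := (((Ex.q (48951) 25000) + ((Ex.q (45497) 100000) * (Ex.z - (Ex.q (93) 100)))) + ((Ex.q (9901) 50000) * ((Ex.z - (Ex.q (93) 100)) ^ 2)))

/-- `J4q2` -/
def J4q2 : Ex := (((Ex.q (28189) 100000) + ((Ex.q (13543) 100000) * (Ex.z - (Ex.q (93) 100)))) + ((Ex.q (167) 50000) * ((Ex.z - (Ex.q (93) 100)) ^ 2)))

/-- `J4h2` -/
def J4h2 : Ex := (((Ex.q (318511) 100000) + ((Ex.q (-101193) 100000) * (Ex.z - (Ex.q (93) 100)))) + ((Ex.q (74321) 25000) * ((Ex.z - (Ex.q (93) 100)) ^ 2)))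

/-- `J4g3` -/
def J4g3 : Ex := (((Ex.q (40077) 25000) + ((Ex.q (20239) 100000) * (Ex.z - (Ex.q (93) 100)))) + ((Ex.q (1291) 20000) * ((Ex.z - (Ex.q (93) 100)) ^ 2)))

/-- `J4q3` -/
def J4q3 : Ex := (((Ex.q (5437) 25000) + ((Ex.q (4683) 50000) * (Ex.z - (Ex.q (93) 100)))) + ((Ex.q (661) 50000) * ((Ex.z - (Ex.q (93) 100)) ^ 2)))

/-- `J4h3` -/
def J4h3 : Ex := (((Ex.q (15969) 6250) + ((Ex.q (-76289) 100000) * (Ex.z - (Ex.q (93) 100)))) + ((Ex.q (5417) 4000) * ((Ex.z - (Ex.q (93) 100)) ^ 2)))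

/-- `J4g4` -/
def J4g4 : Ex := (((Ex.q (71931) 50000) + ((Ex.q (11471) 100000) * (Ex.z - (Ex.q (93) 100)))) + ((Ex.q (2943) 100000) * ((Ex.z - (Ex.q (93) 100)) ^ 2)))

/-- `J4q4` -/
def J4q4 : Ex := (((Ex.q (4421) 25000) + ((Ex.q (3361) 50000) * (Ex.z - (Ex.q (93) 100)))) + ((Ex.q (1117) 100000) * ((Ex.z - (Ex.q (93) 100)) ^ 2)))

/-- `J4h4` -/
def J4h4 : Ex := (((Ex.q (11079) 5000) + ((Ex.q (-429) 625) * (Ex.z - (Ex.q (93) 100)))) + ((Ex.q (49391) 50000) * ((Ex.z - (Ex.q (93) 100)) ^ 2)))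

/-- `J4g5` -/
def J4g5 : Ex := (((Ex.q (135757) 100000) + ((Ex.q (8207) 100000) * (Ex.z - (Ex.q (93) 100)))) + ((Ex.q (119) 6250) * ((Ex.z - (Ex.q (93) 100)) ^ 2)))

/-- `J4q5` -/
def J4q5 : Ex := (((Ex.q (15889) 100000) + ((Ex.q (2771) 50000) * (Ex.z - (Ex.q (93) 100)))) + ((Ex.q (249) 25000) * ((Ex.z - (Ex.q (93) 100)) ^ 2)))

/-- `J4h5` -/
def J4h5 : Ex := (((Ex.q (206847) 100000) + ((Ex.q (-38317) 50000) * (Ex.z - (Ex.q (93) 100)))) + ((Ex.q (12819) 12500) * ((Ex.z - (Ex.q (93) 100)) ^ 2)))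

/-- `J4g6` -/
def J4g6 : Ex := (((Ex.q (17421) 12500) + ((Ex.q (2259) 25000) * (Ex.z - (Ex.q (93) 100)))) + ((Ex.q (131) 6250) * ((Ex.z - (Ex.q (93) 100)) ^ 2)))

/-- `J4q6` -/
def J4q6 : Ex := (((Ex.q (16309) 100000) + ((Ex.q (2537) 50000) * (Ex.z - (Ex.q (93) 100)))) + ((Ex.q (947) 100000) * ((Ex.z - (Ex.q (93) 100)) ^ 2)))

/-- `J4h6` -/
def J4h6 : Ex := (((Ex.q (51487) 25000) + ((Ex.q (-91719) 100000) * (Ex.z - (Ex.q (93) 100)))) + ((Ex.q (21009) 20000) * ((Ex.z - (Ex.q (93) 100)) ^ 2)))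

theorem J41G : check (((J4g1 * ((1 + 2) - Ex.z)) - (((1 + J4r1) * ((1 + 2) - Ex.z)) + ((J4r1 * ((1 + 1) + Ex.z)) * J4g2)))) one one (seg (93) 3 100) ⟨0, 0, 3⟩
    (T.o) = true := by
  decide +kernel

theorem J41q : check (J4q1) one one (seg (93) 3 100) ⟨0, 0, 2⟩
    (T.o) = true := by
  decide +kernel

theorem J41Q : check (((((J4q1 * ((2 * 1) + 1)) * ((1 + 2) - Ex.z)) * (((J4r1 * ((1 + 1) + Ex.z)) * J4g2) + ((1 + J4r1) * ((1 + 2) - Ex.z)))) - ((((J4g2 * ((2 * 1) + 3)) * (1 + J4q2)) * (((1 + 1) - Ex.z) * (1 + Ex.z))) * J4r1))) one one (seg (93) 3 100) ⟨0, 0, 6⟩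
    (T.o) = true := by
  decide +kernel

theorem J41a : check (((J4h1 * (((1 + 1) - Ex.z) * (1 + Ex.z))) - (((1 + Ex.z) ^ 2) + ((((2 * 1) + 1) ^ 2) * J4q1)))) one one (seg (93) 3 100) ⟨0, 0, 2⟩
    (T.o) = true := by
  decide +kernel

theorem J41b : check (((J4R - (J4h1 * J4P)) - 1)) one one (seg (93) 3 100) ⟨0, 0, 3⟩
    (T.o) = true := by
  decide +kernel

theorem J41d : check (((((((J4h1 * ((1 + 1) - Ex.z)) - (1 + Ex.z)) * (1 + Ex.z)) * (J4R - (J4h2 * J4P))) * (1 + J4q1)) - (((((((2 * 1) + 1) ^ 2) * J4q1) * (1 + J4q1)) * J4R) + (((J4q1 * ((1 + 1) - Ex.z)) * ((J4h2 * (1 + Ex.z)) - ((1 + 1) - Ex.z))) * (J4R - (J4h1 * J4P)))))) one one (seg (93) 3 100) ⟨0, 0, 9⟩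
    (T.o) = true := by
  decide +kernel

theorem J42G : check (((J4g2 * ((2 + 2) - Ex.z)) - (((1 + J4r2) * ((2 + 2) - Ex.z)) + ((J4r2 * ((2 + 1) + Ex.z)) * J4g3)))) one one (seg (93) 3 100) ⟨0, 0, 3⟩
    (T.o) = true := by
  decide +kernel

theorem J42q : check (J4q2) one one (seg (93) 3 100) ⟨0, 0, 2⟩
    (T.o) = true := by
  decide +kernel

theorem J42Q : check (((((J4q2 * ((2 * 2) + 1)) * ((2 + 2) - Ex.z)) * (((J4r2 * ((2 + 1) + Ex.z)) * J4g3) + ((1 + J4r2) * ((2 + 2) - Ex.z)))) - ((((J4g3 * ((2 * 2) + 3)) * (1 + J4q3)) * (((2 + 1) - Ex.z) * (2 + Ex.z))) * J4r2))) one one (seg (93) 3 100) ⟨0, 0, 6⟩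
    (T.o) = true := by
  decide +kernel

theorem J42a : check (((J4h2 * (((2 + 1) - Ex.z) * (2 + Ex.z))) - (((2 + Ex.z) ^ 2) + ((((2 * 2) + 1) ^ 2) * J4q2)))) one one (seg (93) 3 100) ⟨0, 0, 4⟩
    (T.o) = true := by
  decide +kernel

theorem J42b : check (((J4R - (J4h2 * J4P)) - 1)) one one (seg (93) 3 100) ⟨0, 0, 5⟩
    (T.o) = true := by
  decide +kernel

theorem J42d : check (((((((J4h2 * ((2 + 1) - Ex.z)) - (2 + Ex.z)) * (2 + Ex.z)) * (J4R - (J4h3 * J4P))) * (1 + J4q2)) - (((((((2 * 2) + 1) ^ 2) * J4q2) * (1 + J4q2)) * J4R) + (((J4q2 * ((2 + 1) - Ex.z)) * ((J4h3 * (2 + Ex.z)) - ((2 + 1) - Ex.z))) * (J4R - (J4h2 * J4P)))))) one one (seg (93) 3 100) ⟨0, 0, 11⟩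
    (T.o) = true := by
  decide +kernel

theorem J43G : check (((J4g3 * ((3 + 2) - Ex.z)) - (((1 + J4r3) * ((3 + 2) - Ex.z)) + ((J4r3 * ((3 + 1) + Ex.z)) * J4g4)))) one one (seg (93) 3 100) ⟨0, 0, 3⟩
    (T.o) = true := by
  decide +kernel

theorem J43q : check (J4q3) one one (seg (93) 3 100) ⟨0, 0, 2⟩
    (T.o) = true := by
  decide +kernel

theorem J43Q : check (((((J4q3 * ((2 * 3) + 1)) * ((3 + 2) - Ex.z)) * (((J4r3 * ((3 + 1) + Ex.z)) * J4g4) + ((1 + J4r3) * ((3 + 2) - Ex.z)))) - ((((J4g4 * ((2 * 3) + 3)) * (1 + J4q4)) * (((3 + 1) - Ex.z) * (3 + Ex.z))) * J4r3))) one one (seg (93) 3 100) ⟨0, 0, 6⟩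
    (T.o) = true := by
  decide +kernel

theorem J43a : check (((J4h3 * (((3 + 1) - Ex.z) * (3 + Ex.z))) - (((3 + Ex.z) ^ 2) + ((((2 * 3) + 1) ^ 2) * J4q3)))) one one (seg (93) 3 100) ⟨0, 0, 4⟩
    (T.o) = true := by
  decide +kernel

theorem J43b : check (((J4R - (J4h3 * J4P)) - 1)) one one (seg (93) 3 100) ⟨0, 0, 5⟩
    (T.o) = true := by
  decide +kernel

theorem J43d : check (((((((J4h3 * ((3 + 1) - Ex.z)) - (3 + Ex.z)) * (3 + Ex.z)) * (J4R - (J4h4 * J4P))) * (1 + J4q3)) - (((((((2 * 3) + 1) ^ 2) * J4q3) * (1 + J4q3)) * J4R) + (((J4q3 * ((3 + 1) - Ex.z)) * ((J4h4 * (3 + Ex.z)) - ((3 + 1) - Ex.z))) * (J4R - (J4h3 * J4P)))))) one one (seg (93) 3 100) ⟨0, 0, 11⟩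
    (T.o) = true := by
  decide +kernel

theorem J44G : check (((J4g4 * ((4 + 2) - Ex.z)) - (((1 + J4r4) * ((4 + 2) - Ex.z)) + ((J4r4 * ((4 + 1) + Ex.z)) * J4g5)))) one one (seg (93) 3 100) ⟨0, 0, 3⟩
    (T.o) = true := by
  decide +kernel

theorem J44q : check (J4q4) one one (seg (93) 3 100) ⟨0, 0, 2⟩
    (T.o) = true := by
  decide +kernel

theorem J44Q : check (((((J4q4 * ((2 * 4) + 1)) * ((4 + 2) - Ex.z)) * (((J4r4 * ((4 + 1) + Ex.z)) * J4g5) + ((1 + J4r4) * ((4 + 2) - Ex.z)))) - ((((J4g5 * ((2 * 4) + 3)) * (1 + J4q5)) * (((4 + 1) - Ex.z) * (4 + Ex.z))) * J4r4))) one one (seg (93) 3 100) ⟨0, 0, 6⟩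
    (T.o) = true := by
  decide +kernel

theorem J44a : check (((J4h4 * (((4 + 1) - Ex.z) * (4 + Ex.z))) - (((4 + Ex.z) ^ 2) + ((((2 * 4) + 1) ^ 2) * J4q4)))) one one (seg (93) 3 100) ⟨0, 0, 4⟩
    (T.o) = true := by
  decide +kernel

theorem J44b : check (((J4R - (J4h4 * J4P)) - 1)) one one (seg (93) 3 100) ⟨0, 0, 5⟩
    (T.o) = true := by
  decide +kernel

theorem J44d : check (((((((J4h4 * ((4 + 1) - Ex.z)) - (4 + Ex.z)) * (4 + Ex.z)) * (J4R - (J4h5 * J4P))) * (1 + J4q4)) - (((((((2 * 4) + 1) ^ 2) * J4q4) * (1 + J4q4)) * J4R) + (((J4q4 * ((4 + 1) - Ex.z)) * ((J4h5 * (4 + Ex.z)) - ((4 + 1) - Ex.z))) * (J4R - (J4h4 * J4P)))))) one one (seg (93) 3 100) ⟨0, 0, 11⟩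
    (T.o) = true := by
  decide +kernel

theorem J45G : check (((J4g5 * ((5 + 2) - Ex.z)) - (((1 + J4r5) * ((5 + 2) - Ex.z)) + ((J4r5 * ((5 + 1) + Ex.z)) * J4g6)))) one one (seg (93) 3 100) ⟨0, 0, 3⟩
    (T.o) = true := by
  decide +kernel

theorem J45q : check (J4q5) one one (seg (93) 3 100) ⟨0, 0, 2⟩
    (T.o) = true := by
  decide +kernel

theorem J45Q : check (((((J4q5 * ((2 * 5) + 1)) * ((5 + 2) - Ex.z)) * (((J4r5 * ((5 + 1) + Ex.z)) * J4g6) + ((1 + J4r5) * ((5 + 2) - Ex.z)))) - ((((J4g6 * ((2 * 5) + 3)) * (1 + J4q6)) * (((5 + 1) - Ex.z) * (5 + Ex.z))) * J4r5))) one one (seg (93) 3 100) ⟨0, 0, 6⟩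
    (T.o) = true := by
  decide +kernel

theorem J45a : check (((J4h5 * (((5 + 1) - Ex.z) * (5 + Ex.z))) - (((5 + Ex.z) ^ 2) + ((((2 * 5) + 1) ^ 2) * J4q5)))) one one (seg (93) 3 100) ⟨0, 0, 4⟩
    (T.o) = true := by
  decide +kernel

theorem J45b : check (((J4R - (J4h5 * J4P)) - 1)) one one (seg (93) 3 100) ⟨0, 0, 5⟩
    (T.o) = true := by
  decide +kernel

theorem J45d : check (((((((J4h5 * ((5 + 1) - Ex.z)) - (5 + Ex.z)) * (5 + Ex.z)) * (J4R - (J4h6 * J4P))) * (1 + J4q5)) - (((((((2 * 5) + 1) ^ 2) * J4q5) * (1 + J4q5)) * J4R) + (((J4q5 * ((5 + 1) - Ex.z)) * ((J4h6 * (5 + Ex.z)) - ((5 + 1) - Ex.z))) * (J4R - (J4h5 * J4P)))))) one one (seg (93) 3 100) ⟨0, 0, 11⟩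
    (T.o) = true := by
  decide +kernel

theorem J4t1 : check ((J4g6 - 1)) one one (seg (93) 3 100) ⟨0, 0, 2⟩
    (T.o) = true := by
  decide +kernel

theorem J4tG : check (((J4g6 * ((7 * (7 - Ex.z)) - (J4c * 4))) - (7 * (7 - Ex.z)))) one one (seg (93) 3 100) ⟨0, 0, 3⟩
    (T.o) = true := by
  decide +kernel

theorem J4tq : check (J4q6) one one (seg (93) 3 100) ⟨0, 0, 2⟩
    (T.o) = true := by
  decide +kernel

theorem J4tQ : check ((((24 * J4q6) * (8 - Ex.z)) - ((J4c * (7 + Ex.z)) * (1 + J4q6)))) one one (seg (93) 3 100) ⟨0, 0, 3⟩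
    (T.o) = true := by
  decide +kernel

theorem J4th : check (J4h6) one one (seg (93) 3 100) ⟨0, 0, 2⟩
    (T.o) = true := by
  decide +kernel

theorem J4t3 : check (((J4R - (J4h6 * J4P)) - 1)) one one (seg (93) 3 100) ⟨0, 0, 5⟩
    (T.o) = true := by
  decide +kernel

theorem J4t5 : check ((((J4R - (J4h6 * J4P)) * (((J4h6 * ((7 - Ex.z) * (6 + Ex.z))) - (((6 + Ex.z) ^ 2) * (1 + J4q6))) + (J4q6 * ((7 - Ex.z) ^ 2)))) - (((169 * J4q6) * (1 + J4q6)) * J4R))) one one (seg (93) 3 100) ⟨0, 0, 9⟩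
    (T.o) = true := by
  decide +kernel

theorem J4_mem {a : ℝ} (h0 : 93 / 100 ≤ a) (h1 : a ≤ 24 / 25) : Side.mem (seg (93) 3 100) a := by
  constructor
  · show (((93 : ℤ) : ℝ)) ≤ ((100 : ℕ) : ℝ) * a
    norm_num
    linarith
  · intro _
    show ((100 : ℕ) : ℝ) * a ≤ (((93 : ℤ) : ℝ)) + ((3 : ℕ) : ℝ)
    norm_num
    linarith

theorem J4row1 {a : ℝ} (hz : Side.mem (seg (93) 3 100) a) :
    Row a (Ex.ev 0 0 a J4P) (Ex.ev 0 0 a J4R) 1 (Ex.ev 0 0 a J4r1) (Ex.ev 0 0 a J4g1) (Ex.ev 0 0 a J4g2) (Ex.ev 0 0 a J4q1) (Ex.ev 0 0 a J4q2) (Ex.ev 0 0 a J4h1) (Ex.ev 0 0 a J4h2) :=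
  ⟨by simpa only [Ex.ev_add, Ex.ev_sub, Ex.ev_mul, Ex.ev_pow, Ex.ev_one, ev_2, ev_3, ev_4, ev_5, ev_6, ev_7, ev_8,
      ev_24, ev_169, Ex.ev_z] using check_spec _ _ J41G one_mem one_mem hz,
    by simpa only [Ex.ev_add, Ex.ev_sub, Ex.ev_mul, Ex.ev_pow, Ex.ev_one, ev_2, ev_3, ev_4, ev_5, ev_6, ev_7, ev_8,
      ev_24, ev_169, Ex.ev_z] using check_spec _ _ J41q one_mem one_mem hz,
    by simpa only [Ex.ev_add, Ex.ev_sub, Ex.ev_mul, Ex.ev_pow, Ex.ev_one, ev_2, ev_3, ev_4, ev_5, ev_6, ev_7, ev_8,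
      ev_24, ev_169, Ex.ev_z] using check_spec _ _ J41Q one_mem one_mem hz,
    by simpa only [Ex.ev_add, Ex.ev_sub, Ex.ev_mul, Ex.ev_pow, Ex.ev_one, ev_2, ev_3, ev_4, ev_5, ev_6, ev_7, ev_8,
      ev_24, ev_169, Ex.ev_z] using check_spec _ _ J41a one_mem one_mem hz,
    by simpa only [Ex.ev_add, Ex.ev_sub, Ex.ev_mul, Ex.ev_pow, Ex.ev_one, ev_2, ev_3, ev_4, ev_5, ev_6, ev_7, ev_8,
      ev_24, ev_169, Ex.ev_z] using check_spec _ _ J41b one_mem one_mem hz,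
    by simpa only [Ex.ev_add, Ex.ev_sub, Ex.ev_mul, Ex.ev_pow, Ex.ev_one, ev_2, ev_3, ev_4, ev_5, ev_6, ev_7, ev_8,
      ev_24, ev_169, Ex.ev_z] using check_spec _ _ J41d one_mem one_mem hz⟩

theorem J4row2 {a : ℝ} (hz : Side.mem (seg (93) 3 100) a) :
    Row a (Ex.ev 0 0 a J4P) (Ex.ev 0 0 a J4R) 2 (Ex.ev 0 0 a J4r2) (Ex.ev 0 0 a J4g2) (Ex.ev 0 0 a J4g3) (Ex.ev 0 0 a J4q2) (Ex.ev 0 0 a J4q3) (Ex.ev 0 0 a J4h2) (Ex.ev 0 0 a J4h3) :=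
  ⟨by simpa only [Ex.ev_add, Ex.ev_sub, Ex.ev_mul, Ex.ev_pow, Ex.ev_one, ev_2, ev_3, ev_4, ev_5, ev_6, ev_7, ev_8,
      ev_24, ev_169, Ex.ev_z] using check_spec _ _ J42G one_mem one_mem hz,
    by simpa only [Ex.ev_add, Ex.ev_sub, Ex.ev_mul, Ex.ev_pow, Ex.ev_one, ev_2, ev_3, ev_4, ev_5, ev_6, ev_7, ev_8,
      ev_24, ev_169, Ex.ev_z] using check_spec _ _ J42q one_mem one_mem hz,
    by simpa only [Ex.ev_add, Ex.ev_sub, Ex.ev_mul, Ex.ev_pow, Ex.ev_one, ev_2, ev_3, ev_4, ev_5, ev_6, ev_7, ev_8,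
      ev_24, ev_169, Ex.ev_z] using check_spec _ _ J42Q one_mem one_mem hz,
    by simpa only [Ex.ev_add, Ex.ev_sub, Ex.ev_mul, Ex.ev_pow, Ex.ev_one, ev_2, ev_3, ev_4, ev_5, ev_6, ev_7, ev_8,
      ev_24, ev_169, Ex.ev_z] using check_spec _ _ J42a one_mem one_mem hz,
    by simpa only [Ex.ev_add, Ex.ev_sub, Ex.ev_mul, Ex.ev_pow, Ex.ev_one, ev_2, ev_3, ev_4, ev_5, ev_6, ev_7, ev_8,
      ev_24, ev_169, Ex.ev_z] using check_spec _ _ J42b one_mem one_mem hz,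
    by simpa only [Ex.ev_add, Ex.ev_sub, Ex.ev_mul, Ex.ev_pow, Ex.ev_one, ev_2, ev_3, ev_4, ev_5, ev_6, ev_7, ev_8,
      ev_24, ev_169, Ex.ev_z] using check_spec _ _ J42d one_mem one_mem hz⟩

theorem J4row3 {a : ℝ} (hz : Side.mem (seg (93) 3 100) a) :
    Row a (Ex.ev 0 0 a J4P) (Ex.ev 0 0 a J4R) 3 (Ex.ev 0 0 a J4r3) (Ex.ev 0 0 a J4g3) (Ex.ev 0 0 a J4g4) (Ex.ev 0 0 a J4q3) (Ex.ev 0 0 a J4q4) (Ex.ev 0 0 a J4h3) (Ex.ev 0 0 a J4h4) :=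
  ⟨by simpa only [Ex.ev_add, Ex.ev_sub, Ex.ev_mul, Ex.ev_pow, Ex.ev_one, ev_2, ev_3, ev_4, ev_5, ev_6, ev_7, ev_8,
      ev_24, ev_169, Ex.ev_z] using check_spec _ _ J43G one_mem one_mem hz,
    by simpa only [Ex.ev_add, Ex.ev_sub, Ex.ev_mul, Ex.ev_pow, Ex.ev_one, ev_2, ev_3, ev_4, ev_5, ev_6, ev_7, ev_8,
      ev_24, ev_169, Ex.ev_z] using check_spec _ _ J43q one_mem one_mem hz,
    by simpa only [Ex.ev_add, Ex.ev_sub, Ex.ev_mul, Ex.ev_pow, Ex.ev_one, ev_2, ev_3, ev_4, ev_5, ev_6, ev_7, ev_8,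
      ev_24, ev_169, Ex.ev_z] using check_spec _ _ J43Q one_mem one_mem hz,
    by simpa only [Ex.ev_add, Ex.ev_sub, Ex.ev_mul, Ex.ev_pow, Ex.ev_one, ev_2, ev_3, ev_4, ev_5, ev_6, ev_7, ev_8,
      ev_24, ev_169, Ex.ev_z] using check_spec _ _ J43a one_mem one_mem hz,
    by simpa only [Ex.ev_add, Ex.ev_sub, Ex.ev_mul, Ex.ev_pow, Ex.ev_one, ev_2, ev_3, ev_4, ev_5, ev_6, ev_7, ev_8,
      ev_24, ev_169, Ex.ev_z] using check_spec _ _ J43b one_mem one_mem hz,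
    by simpa only [Ex.ev_add, Ex.ev_sub, Ex.ev_mul, Ex.ev_pow, Ex.ev_one, ev_2, ev_3, ev_4, ev_5, ev_6, ev_7, ev_8,
      ev_24, ev_169, Ex.ev_z] using check_spec _ _ J43d one_mem one_mem hz⟩

theorem J4row4 {a : ℝ} (hz : Side.mem (seg (93) 3 100) a) :
    Row a (Ex.ev 0 0 a J4P) (Ex.ev 0 0 a J4R) 4 (Ex.ev 0 0 a J4r4) (Ex.ev 0 0 a J4g4) (Ex.ev 0 0 a J4g5) (Ex.ev 0 0 a J4q4) (Ex.ev 0 0 a J4q5) (Ex.ev 0 0 a J4h4) (Ex.ev 0 0 a J4h5) :=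
  ⟨by simpa only [Ex.ev_add, Ex.ev_sub, Ex.ev_mul, Ex.ev_pow, Ex.ev_one, ev_2, ev_3, ev_4, ev_5, ev_6, ev_7, ev_8,
      ev_24, ev_169, Ex.ev_z] using check_spec _ _ J44G one_mem one_mem hz,
    by simpa only [Ex.ev_add, Ex.ev_sub, Ex.ev_mul, Ex.ev_pow, Ex.ev_one, ev_2, ev_3, ev_4, ev_5, ev_6, ev_7, ev_8,
      ev_24, ev_169, Ex.ev_z] using check_spec _ _ J44q one_mem one_mem hz,
    by simpa only [Ex.ev_add, Ex.ev_sub, Ex.ev_mul, Ex.ev_pow, Ex.ev_one, ev_2, ev_3, ev_4, ev_5, ev_6, ev_7, ev_8,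
      ev_24, ev_169, Ex.ev_z] using check_spec _ _ J44Q one_mem one_mem hz,
    by simpa only [Ex.ev_add, Ex.ev_sub, Ex.ev_mul, Ex.ev_pow, Ex.ev_one, ev_2, ev_3, ev_4, ev_5, ev_6, ev_7, ev_8,
      ev_24, ev_169, Ex.ev_z] using check_spec _ _ J44a one_mem one_mem hz,
    by simpa only [Ex.ev_add, Ex.ev_sub, Ex.ev_mul, Ex.ev_pow, Ex.ev_one, ev_2, ev_3, ev_4, ev_5, ev_6, ev_7, ev_8,
      ev_24, ev_169, Ex.ev_z] using check_spec _ _ J44b one_mem one_mem hz,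
    by simpa only [Ex.ev_add, Ex.ev_sub, Ex.ev_mul, Ex.ev_pow, Ex.ev_one, ev_2, ev_3, ev_4, ev_5, ev_6, ev_7, ev_8,
      ev_24, ev_169, Ex.ev_z] using check_spec _ _ J44d one_mem one_mem hz⟩

theorem J4row5 {a : ℝ} (hz : Side.mem (seg (93) 3 100) a) :
    Row a (Ex.ev 0 0 a J4P) (Ex.ev 0 0 a J4R) 5 (Ex.ev 0 0 a J4r5) (Ex.ev 0 0 a J4g5) (Ex.ev 0 0 a J4g6) (Ex.ev 0 0 a J4q5) (Ex.ev 0 0 a J4q6) (Ex.ev 0 0 a J4h5) (Ex.ev 0 0 a J4h6) :=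
  ⟨by simpa only [Ex.ev_add, Ex.ev_sub, Ex.ev_mul, Ex.ev_pow, Ex.ev_one, ev_2, ev_3, ev_4, ev_5, ev_6, ev_7, ev_8,
      ev_24, ev_169, Ex.ev_z] using check_spec _ _ J45G one_mem one_mem hz,
    by simpa only [Ex.ev_add, Ex.ev_sub, Ex.ev_mul, Ex.ev_pow, Ex.ev_one, ev_2, ev_3, ev_4, ev_5, ev_6, ev_7, ev_8,
      ev_24, ev_169, Ex.ev_z] using check_spec _ _ J45q one_mem one_mem hz,
    by simpa only [Ex.ev_add, Ex.ev_sub, Ex.ev_mul, Ex.ev_pow, Ex.ev_one, ev_2, ev_3, ev_4, ev_5, ev_6, ev_7, ev_8,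
      ev_24, ev_169, Ex.ev_z] using check_spec _ _ J45Q one_mem one_mem hz,
    by simpa only [Ex.ev_add, Ex.ev_sub, Ex.ev_mul, Ex.ev_pow, Ex.ev_one, ev_2, ev_3, ev_4, ev_5, ev_6, ev_7, ev_8,
      ev_24, ev_169, Ex.ev_z] using check_spec _ _ J45a one_mem one_mem hz,
    by simpa only [Ex.ev_add, Ex.ev_sub, Ex.ev_mul, Ex.ev_pow, Ex.ev_one, ev_2, ev_3, ev_4, ev_5, ev_6, ev_7, ev_8,
      ev_24, ev_169, Ex.ev_z] using check_spec _ _ J45b one_mem one_mem hz,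
    by simpa only [Ex.ev_add, Ex.ev_sub, Ex.ev_mul, Ex.ev_pow, Ex.ev_one, ev_2, ev_3, ev_4, ev_5, ev_6, ev_7, ev_8,
      ev_24, ev_169, Ex.ev_z] using check_spec _ _ J45d one_mem one_mem hz⟩

theorem J4top {a : ℝ} (hz : Side.mem (seg (93) 3 100) a) :
    Top6 a (Ex.ev 0 0 a J4c) (Ex.ev 0 0 a J4P) (Ex.ev 0 0 a J4R) (Ex.ev 0 0 a J4g6) (Ex.ev 0 0 a J4q6) (Ex.ev 0 0 a J4h6) :=
  ⟨by simpa only [Ex.ev_add, Ex.ev_sub, Ex.ev_mul, Ex.ev_pow, Ex.ev_one, ev_2, ev_3, ev_4, ev_5, ev_6, ev_7, ev_8,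
      ev_24, ev_169, Ex.ev_z] using check_spec _ _ J4t1 one_mem one_mem hz,
    by simpa only [Ex.ev_add, Ex.ev_sub, Ex.ev_mul, Ex.ev_pow, Ex.ev_one, ev_2, ev_3, ev_4, ev_5, ev_6, ev_7, ev_8,
      ev_24, ev_169, Ex.ev_z] using check_spec _ _ J4tG one_mem one_mem hz,
    by simpa only [Ex.ev_add, Ex.ev_sub, Ex.ev_mul, Ex.ev_pow, Ex.ev_one, ev_2, ev_3, ev_4, ev_5, ev_6, ev_7, ev_8,
      ev_24, ev_169, Ex.ev_z] using check_spec _ _ J4tq one_mem one_mem hz,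
    by simpa only [Ex.ev_add, Ex.ev_sub, Ex.ev_mul, Ex.ev_pow, Ex.ev_one, ev_2, ev_3, ev_4, ev_5, ev_6, ev_7, ev_8,
      ev_24, ev_169, Ex.ev_z] using check_spec _ _ J4tQ one_mem one_mem hz,
    by simpa only [Ex.ev_add, Ex.ev_sub, Ex.ev_mul, Ex.ev_pow, Ex.ev_one, ev_2, ev_3, ev_4, ev_5, ev_6, ev_7, ev_8,
      ev_24, ev_169, Ex.ev_z] using check_spec _ _ J4th one_mem one_mem hz,
    by simpa only [Ex.ev_add, Ex.ev_sub, Ex.ev_mul, Ex.ev_pow, Ex.ev_one, ev_2, ev_3, ev_4, ev_5, ev_6, ev_7, ev_8,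
      ev_24, ev_169, Ex.ev_z] using check_spec _ _ J4t3 one_mem one_mem hz,
    by simpa only [Ex.ev_add, Ex.ev_sub, Ex.ev_mul, Ex.ev_pow, Ex.ev_one, ev_2, ev_3, ev_4, ev_5, ev_6, ev_7, ev_8,
      ev_24, ev_169, Ex.ev_z] using check_spec _ _ J4t5 one_mem one_mem hz⟩

/-- **region IV (v3 data)** -/
theorem tail3_IV {n : ℕ} {p a w be : ℝ} (hn : 1 ≤ n) (hp : p = 1 / a) (h0 : 93 / 100 ≤ a)
    (h1 : a ≤ 24 / 25) (hw : w = (a - 3 / 100) * a * (1 - a)) (hbe : be = 112 / 25) :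
    Tail1 n p a (bs n a 3) (1001 / 1000 * (w / (1 - w)))
      (fun Y => Lam n p a (bs n a 3) 1 / (1 - be * Y)) := by
  have hz : Side.mem (seg (93) 3 100) a := J4_mem (by linarith) h1
  have ec : Ex.ev 0 0 a J4c = 3 := by
    simp only [J4c, Ex.ev_q, ev_2, ev_3]
  have ew : Ex.ev 0 0 a J4w = w := by
    rw [hw]
    simp only [J4w, Ex.ev_add, Ex.ev_sub, Ex.ev_mul, Ex.ev_pow, Ex.ev_one, ev_2, ev_3, ev_4, ev_6, ev_1000, ev_1001, Ex.ev_z, Ex.ev_q]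
    norm_num
    try ring
  have eP : Ex.ev 0 0 a J4P = 1001 * w := by
    rw [← ew]
    simp only [J4P, Ex.ev_mul, ev_1001]
  have eR : Ex.ev 0 0 a J4R = 1000 * (1 - w) := by
    rw [← ew]
    simp only [J4R, Ex.ev_mul, Ex.ev_sub, Ex.ev_one, ev_2, ev_3, ev_4, ev_6, ev_1000, ev_1001]
  have eb : Ex.ev 0 0 a J4h1 = be := by
    rw [hbe]
    simp only [J4h1, Ex.ev_add, Ex.ev_sub, Ex.ev_mul, Ex.ev_pow, Ex.ev_one, ev_2, ev_3, ev_4, ev_6, ev_1000, ev_1001, Ex.ev_z, Ex.ev_q]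
    try norm_num
    try ring
  have er1 : Ex.ev 0 0 a J4r1 = 276831 / 500000 := by simp only [J4r1, Ex.ev_q]; norm_num
  have er2 : Ex.ev 0 0 a J4r2 = 313857 / 1000000 := by simp only [J4r2, Ex.ev_q]; norm_num
  have er3 : Ex.ev 0 0 a J4r3 = 13741 / 62500 := by simp only [J4r3, Ex.ev_q]; norm_num
  have er4 : Ex.ev 0 0 a J4r4 = 169453 / 1000000 := by simp only [J4r4, Ex.ev_q]; norm_num
  have er5 : Ex.ev 0 0 a J4r5 = 27591 / 200000 := by simp only [J4r5, Ex.ev_q]; norm_num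
  obtain ⟨p1, p2, p3, p4, p5⟩ := psi_r3
  have t := J4top hz
  have w1 := J4row1 hz
  have w2 := J4row2 hz
  have w3 := J4row3 hz
  have w4 := J4row4 hz
  have w5 := J4row5 hz
  rw [er1, eb] at w1
  rw [er2] at w2
  rw [er3] at w3
  rw [er4] at w4
  rw [er5] at w5
  rw [ec] at t
  have hw01 : 0 < w ∧ w < 1 := by
    have u0 : 0 < a := by linarith
    have u1 : a < 1 := by linarith
    have u2 : 0 < 1 - a := by linarith
    have u3 : 0 < a * (1 - a) := mul_pos u0 u2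
    constructor
    · rw [hw]
      have u4 : 0 < a - 3 / 100 := by linarith
      have := mul_pos u4 u3
      linarith
    · rw [hw]
      nlinarith [mul_pos u0 u2, mul_nonneg u3.le u2.le, mul_pos u3 u0]
  have key := tail1_six (n := n) (p := p) (a := a) (c := 3) hn hp (by linarith) (by linarith)
    (by norm_num) (P := Ex.ev 0 0 a J4P) (R := Ex.ev 0 0 a J4R)
    (by rw [eP]; linarith [hw01.1]) (by rw [eR]; linarith [hw01.2])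
    p1 p2 p3 p4 p5 w1 w2 w3 w4 w5 t
  rw [eP, eR, ← div_mul_div_comm] at key
  exact key

end Pool.Agent.Lib.QNL.Num93
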