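import Pool.Agent.Lib.QNL.OStmts
import Pool.Agent.Lib.QNL.Cpt20

/-!
# QNL, group O: compactness and regular values (`StmtCpt`, `StmtReg`)
-/

set_option autoImplicit false

namespace Pool.Agent.Lib.QNL.O

open MeasureTheory Filter Topology Set
open scoped ContDiff
open Pool.Agent.Lib.QNL

namespace OCpt20_

theorem exists_bound {μ : ℂ → ℝ} {C : ℝ} (h : Src μ C) : ∃ M, 0 < M ∧ ∀ x, μ x ≤ M := by
  obtain ⟨M, hM⟩ := h.cont.bounded_above_of_compact_support h.cpt
  refine ⟨max M 1, lt_max_of_lt_right one_pos, fun x => ?_⟩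
  exact (le_abs_self _).trans ((hM x).trans (le_max_left _ _))

/-- The obstacle family has the properties of `Cpt20.Fam`. -/
theorem fam (hConv : StmtConv) (hQuad : StmtQuad) {μ : ℂ → ℝ} {C : ℝ} {u : ℝ → ℂ → ℝ}
    (h : Fam μ C u) : Cpt20.Fam u where
  nonneg := fun L z hL => h.nonneg L hL z
  cont := fun L hL => h.cont L hL
  conv := fun z => (hConv μ C u h z).1
  anti := fun z L hL L' _ hLL => h.anti L L' hL hLL z
  bdd := fun L hL => (h.cpt L hL).isCompact.isBounded.subset fun z hz =>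
    subset_tsupport _ (ne_of_gt hz)
  grow := by
    intro L0 _
    obtain ⟨M, hM, hμ⟩ := exists_bound h.src
    refine ⟨3 * M, fun L z w hL hw => ?_⟩
    have hLp : 0 < L := by linarith
    rcases le_or_gt L M with h1 | h1
    · have h2 := hQuad μ C u h M hμ L hLp w z hw
      refine h2.trans (mul_le_mul_of_nonneg_right (by linarith) (by positivity))
    · rw [h.top L hLp (fun x => (hμ x).trans h1.le) z]
      positivity

/-- `{u_L > 0} = U_L` -/
theorem us_eq (hConv : StmtConv) (hUs : StmtUs) {μ : ℂ → ℝ} {C : ℝ} {u : ℝ → ℂ → ℝ}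
    (h : Fam μ C u) {L : ℝ} (hL : 0 < L) : {x | 0 < u L x} = Us u L := by
  refine Subset.antisymm (fun x hx => ?_) (hUs μ C u h L hL).2.2.2
  have h1 : ContinuousAt (fun l => u l x) L :=
    (hConv μ C u h x).2.1.continuousAt (Ioi_mem_nhds hL)
  have h2 : ∀ᶠ l in 𝓝 L, 0 < u l x := h1.eventually (lt_mem_nhds hx)
  obtain ⟨l, hl, hl2⟩ := ((h2.filter_mono nhdsWithin_le_nhds).and
    (self_mem_nhdsWithin (a := L) (s := Ioi L))).exists
  exact ⟨l, hl2, hl⟩

theorem lub (hConv : StmtConv) {μ : ℂ → ℝ} {C : ℝ} {u : ℝ → ℂ → ℝ}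
    (h : Fam μ C u) {L : ℝ} (hL : 0 < L) (z : ℂ) :
    IsLUB (range fun k : Ioi (0 : ℝ) => (u L z - u (L + k) z) / k) (psi u L z) := by
  obtain ⟨_, _, h3, h4, _⟩ := hConv μ C u h z
  constructor
  · rintro _ ⟨⟨k, hk⟩, rfl⟩
    have := h4 L (L + k) hL (by linarith [mem_Ioi.1 hk])
    rwa [add_sub_cancel_left] at this
  · intro b hb
    refine le_of_tendsto (h3 L hL) ?_
    filter_upwards [self_mem_nhdsWithin] with k hk
    exact hb ⟨⟨k, hk⟩, rfl⟩

theorem gr_pos {g : ℂ → ℝ} {z : ℂ} (h : fderiv ℝ g z ≠ 0) : 0 < gr g z := by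
  unfold gr dx dy
  by_contra hle
  push Not at hle
  have h1 : fderiv ℝ g z 1 = 0 := by nlinarith [sq_nonneg (fderiv ℝ g z Complex.I)]
  have h2 : fderiv ℝ g z Complex.I = 0 := by nlinarith [sq_nonneg (fderiv ℝ g z 1)]
  apply h
  ext w
  have : w = w.re • (1 : ℂ) + w.im • Complex.I := by
    simp [Complex.re_add_im]
  rw [this, map_add, map_smul, map_smul, h1, h2]
  simp

end OCpt20_

open OCpt20_

theorem stmtCpt (hS : StmtSard2) (hConv : StmtConv) (hQuad : StmtQuad) (hUs : StmtUs)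
    (hPsi : StmtPsi) : StmtCpt := by
  intro μ C u h
  have h1 := Cpt20.ae_compact hS (fam hConv hQuad h)
  rw [ae_restrict_iff' measurableSet_Ioi] at h1
  filter_upwards [h1] with L hL hpos ε hε
  obtain ⟨hK, hsub⟩ := hL hpos ε hε
  have hcont : ContinuousOn (psi u L) (Cpt20.KK u L ε) :=
    (hPsi μ C u h L hpos).1.continuousOn.mono
      (hsub.trans (us_eq hConv hUs h hpos).subset)
  have h2 : {x | ε ≤ psi u L x} = Cpt20.KK u L ε ∩ psi u L ⁻¹' Ici ε := by
    ext x
    constructor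
    · intro hx
      exact ⟨Cpt20.mem_KK (fam hConv hQuad h) (lub hConv h hpos x) hx, hx⟩
    · exact fun hx => hx.2
  rw [h2]
  exact hK.of_isClosed_subset (hcont.preimage_isClosed_of_isClosed hK.isClosed isClosed_Ici)
    inter_subset_left

theorem stmtReg (hS : StmtSard2) (hConv : StmtConv) (hQuad : StmtQuad) (hUs : StmtUs)
    (hPsi : StmtPsi) : StmtReg := by
  intro μ C u h
  have h1 := Cpt20.ae_regular hS (fam hConv hQuad h) (fun L hL z => lub hConv h hL z)
    (fun L hL => by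
      rw [us_eq hConv hUs h hL]
      exact (hPsi μ C u h L hL).1.of_le (by norm_cast))
  rw [ae_restrict_iff' measurableSet_Ioi] at h1
  filter_upwards [h1] with ε hε hεp
  have h2 := hε hεp
  rw [ae_restrict_iff' measurableSet_Ioi] at h2
  filter_upwards [h2] with L hL hpos x hx hxε
  exact gr_pos (hL hpos x ((hUs μ C u h L hpos).2.2.2 hx) hxε)

end Pool.Agent.Lib.QNL.O
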