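import Pool.Agent.Lib.QNL.O_All58

/-!
Room QNL, group O: the obstacle problem, all statements proved (names used by `Main19`).
-/

set_option autoImplicit false

namespace Pool.Agent.Lib.QNL.OFin19

open Pool.Agent.Lib.QNL

/-- every obstacle family has the interface properties -/
theorem obst_of_fam {μ : ℂ → ℝ} {C : ℝ} {u : ℝ → ℂ → ℝ} (hu : O.Fam μ C u) :
    O.Obst μ C (O.Us u) (O.psi u) := O.obst_all hu

/-- **(OBST)** -/
theorem stmtObst : O.StmtObst := O.stmtObst_all

end Pool.Agent.Lib.QNL.OFin19
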