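import Pool.Agent.Lib.QNL.OStmts
import Pool.Agent.Lib.QNL.Harm

/-!
QNL, group O: the torsion function `ψ_L` is smooth with Laplacian `-1`; for almost every level
the difference quotients in the level converge locally uniformly to a positive harmonic function.
-/

set_option autoImplicit false

namespace Pool.Agent.Lib.QNL.O

open MeasureTheory Filter Topology Set Metric InnerProductSpace
open scoped ContDiff
open Pool.Agent.Lib.QNL

theorem us_anti (u : ℝ → ℂ → ℝ) {L L' : ℝ} (h : L ≤ L') : Us u L' ⊆ Us u L := by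
  rintro x ⟨l, h1, h2⟩
  exact ⟨l, h.trans_lt h1, h2⟩

theorem us_right (u : ℝ → ℂ → ℝ) {L : ℝ} {x : ℂ} (hx : x ∈ Us u L) :
    ∃ L' > L, x ∈ Us u L' := by
  obtain ⟨l, h1, h2⟩ := hx
  exact ⟨(L + l) / 2, by linarith, l, by linarith, h2⟩

theorem two_le_infty : (2 : WithTop ℕ∞) ≤ ∞ :=
  show ((2 : ℕ∞) : WithTop ℕ∞) ≤ ((⊤ : ℕ∞) : WithTop ℕ∞) from WithTop.coe_le_coe.2 le_top

/-- A smooth function with Laplacian `-1` differs from a harmonic function by `|z|² / 4`. -/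
theorem harmonicOn_add {ψ : ℂ → ℝ} {O : Set ℂ} (hO : IsOpen O) (h1 : ContDiffOn ℝ 2 ψ O)
    (h2 : ∀ x ∈ O, lap ψ x = -1) : HarmonicOnNhd (fun z => ψ z + ‖z‖ ^ 2 / 4) O := by
  intro x hx
  rw [harmonicAt_iff_lap]
  have h3 : ∀ y ∈ O, ContDiffAt ℝ 2 ψ y := fun y hy => h1.contDiffAt (hO.mem_nhds hy)
  refine ⟨(h3 x hx).add contDiff_normsq.contDiffAt, ?_⟩
  filter_upwards [hO.mem_nhds hx] with y hy
  have h4 := lap_sub' ((h3 y hy).add (contDiff_normsq (n := 2)).contDiffAt)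
    (contDiff_normsq (n := 2)).contDiffAt
  have h5 : (fun w => (ψ w + ‖w‖ ^ 2 / 4) - ‖w‖ ^ 2 / 4) = ψ := by
    funext w
    ring
  rw [h5, h2 y hy, lap_normsq] at h4
  linarith

theorem harmonicOn_of_lap {χ : ℂ → ℝ} {O : Set ℂ} (hO : IsOpen O) (h1 : ContDiffOn ℝ 2 χ O)
    (h2 : ∀ x ∈ O, lap χ x = 0) : HarmonicOnNhd χ O := by
  intro x hx
  rw [harmonicAt_iff_lap]
  refine ⟨h1.contDiffAt (hO.mem_nhds hx), ?_⟩
  filter_upwards [hO.mem_nhds hx] with y hy using h2 y hy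

theorem lap_of_harmonicOn {χ : ℂ → ℝ} {O : Set ℂ} (h : HarmonicOnNhd χ O) :
    ∀ x ∈ O, lap χ x = 0 := fun x hx => (harmonicAt_iff_lap.1 (h x hx)).2.self_of_nhds

theorem contDiffOn_of_torsion {ψ : ℂ → ℝ} {O : Set ℂ} {n : WithTop ℕ∞}
    (h : HarmonicOnNhd (fun z => ψ z + ‖z‖ ^ 2 / 4) O) : ContDiffOn ℝ n ψ O := by
  have h1 : ContDiffOn ℝ n (fun z => (ψ z + ‖z‖ ^ 2 / 4) - ‖z‖ ^ 2 / 4) O :=
    (harmonicOn_contDiffOn h).sub contDiff_normsq.contDiffOn
  refine h1.congr fun z _ => ?_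
  ring

/-- the torsion function plus `|z|² / 4` is harmonic -/
theorem psi_harmonic (hC : StmtConv) (hD : StmtDiff) {μ : ℂ → ℝ} {C : ℝ} {u : ℝ → ℂ → ℝ}
    (hu : Fam μ C u) {L : ℝ} (hL : 0 < L) :
    HarmonicOnNhd (fun z => psi u L z + ‖z‖ ^ 2 / 4) (Us u L) := by
  have key : ∀ L1, L < L1 → HarmonicOnNhd (fun z => psi u L z + ‖z‖ ^ 2 / 4)
      {x | 0 < u L1 x} := by
    intro L1 hL1
    have hO : IsOpen {x | 0 < u L1 x} := isOpen_lt continuous_const (hu.cont L1 (hL.trans hL1))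
    have hev : ∀ᶠ h : ℝ in 𝓝[>] 0, h ∈ Ioo 0 (L1 - L) := Ioo_mem_nhdsGT (by linarith)
    refine (tendstoLocallyUniformlyOn_of_lower (l := 𝓝[>] (0 : ℝ))
      (f := fun h z => (u L z - u (L + h) z) / h + ‖z‖ ^ 2 / 4) hO (fun x hx => ?_) ?_).2
    · obtain ⟨r, hr, h1⟩ := Metric.nhds_basis_closedBall.mem_iff.1 (hO.mem_nhds hx)
      refine ⟨r, hr, fun _ => 0, fun z _ => harmonicAt_const _, ?_⟩
      filter_upwards [hev] with h hh
      constructor
      · have h2 := hD μ C u hu L (L + h) hL (by linarith [hh.1])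
        have hO2 : IsOpen {x | 0 < u (L + h) x} :=
          isOpen_lt continuous_const (hu.cont _ (by linarith [hh.1]))
        have hsub : closedBall x r ⊆ {x | 0 < u (L + h) x} := fun z hz =>
          (h1 hz).trans_le (hu.anti (L + h) L1 (by linarith [hh.1]) (by linarith [hh.2]) z)
        have h3 : ContDiffOn ℝ 2 (fun x => h⁻¹ * (u L x - u (L + h) x)) {x | 0 < u (L + h) x} :=
          contDiffOn_const.mul (h2.1.of_le two_le_infty)
        have h4 : ∀ z ∈ {x | 0 < u (L + h) x},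
            lap (fun x => h⁻¹ * (u L x - u (L + h) x)) z = -1 := by
          intro z hz
          have h5 : ContDiffAt ℝ 2 (fun x => u L x - u (L + h) x) z :=
            (h2.1.contDiffAt (hO2.mem_nhds hz)).of_le two_le_infty
          have h6 : lap (fun x => h⁻¹ * (u L x - u (L + h) x)) z =
              h⁻¹ * lap (fun x => u L x - u (L + h) x) z := by
            rw [← laplacian_eq_lap h5, ← laplacian_eq_lap (contDiffAt_const.mul h5)]
            exact InnerProductSpace.laplacian_smul h⁻¹ h5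
          rw [h6, h2.2 z hz]
          have hh0 : h ≠ 0 := hh.1.ne'
          field_simp
          ring
        have h7 := (harmonicOn_add hO2 h3 h4).mono hsub
        refine (show (fun z => (u L z - u (L + h) z) / h + ‖z‖ ^ 2 / 4) =
          fun z => h⁻¹ * (u L z - u (L + h) z) + ‖z‖ ^ 2 / 4 from ?_) ▸ h7
        funext z
        ring
      · intro z _
        have h8 := hu.anti L (L + h) hL (by linarith [hh.1]) z
        have h9 : 0 ≤ (u L z - u (L + h) z) / h := div_nonneg (by linarith) hh.1.le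
        positivity
    · intro z _
      exact ((hC μ C u hu z).2.2.1 L hL).add_const _
  intro x hx
  obtain ⟨L1, hL1, h1⟩ := hx
  exact key L1 hL1 x h1

/-- (O-E1) -/
theorem stmtPsi (hC : StmtConv) (hD : StmtDiff) : StmtPsi := by
  intro μ C u hu L hL
  have h := psi_harmonic hC hD hu hL
  exact ⟨contDiffOn_of_torsion h, fun x hx => lap_torsion (h x hx)⟩

theorem psi_anti (hC : StmtConv) {μ : ℂ → ℝ} {C : ℝ} {u : ℝ → ℂ → ℝ}
    (hu : Fam μ C u) {L L' : ℝ} (hL : 0 < L) (h : L ≤ L') (x : ℂ) : psi u L' x ≤ psi u L x := by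
  rcases h.eq_or_lt with rfl | h
  · exact le_rfl
  · exact ((hC μ C u hu x).2.2.2.2.1 L L' hL h).trans ((hC μ C u hu x).2.2.2.1 L L' hL h)

/-- (O-E2) -/
theorem stmtChi (hC : StmtConv) (hU : StmtUs) (hP : StmtPsi) : StmtChi := by
  intro μ C u hu
  have h := ae_parameter (ψ := psi u) (V := Us u) (a := 0) (q := fun z => ‖z‖ ^ 2 / 4)
    (fun L hL => (hU μ C u hu L hL).1) (fun L L' _ h => us_anti u h)
    (fun L _ x hx => us_right u hx)
    (fun L hL => harmonicOn_add (hU μ C u hu L hL).1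
      ((hP μ C u hu L hL).1.of_le two_le_infty) (hP μ C u hu L hL).2)
    (fun L L' hL h z _ => psi_anti hC hu hL h z)
  filter_upwards [h] with L h1 hL
  obtain ⟨χ, h2, h3, h4⟩ := h1 hL
  exact ⟨χ, harmonicOn_contDiffOn h2, lap_of_harmonicOn h2, h3, h4⟩

/-- (O-F2) -/
theorem stmtChiPos (hU : StmtUs) (hP : StmtPsi) (hV : StmtV) : StmtChiPos := by
  intro μ C u hu L hL χ hχ
  have hO := (hU μ C u hu L hL).1
  refine pos_of_grad_le (ψ := psi u L) hO (harmonicOn_of_lap hO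
    (hχ.1.of_le two_le_infty) hχ.2.1) hχ.2.2.1
    (harmonicOn_add hO ((hP μ C u hu L hL).1.of_le two_le_infty)
      (hP μ C u hu L hL).2) fun x hx h0 => ?_
  have h1 := hV μ C u hu L hL χ hχ x hx
  rw [h0, mul_zero] at h1
  unfold gr at h1
  have h2 : dx (psi u L) x ^ 2 = 0 := by
    nlinarith [sq_nonneg (dx (psi u L) x), sq_nonneg (dy (psi u L) x)]
  have h3 : dy (psi u L) x ^ 2 = 0 := by
    nlinarith [sq_nonneg (dx (psi u L) x), sq_nonneg (dy (psi u L) x)]
  exact ⟨pow_eq_zero_iff (by norm_num) |>.1 h2, pow_eq_zero_iff (by norm_num) |>.1 h3⟩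

end Pool.Agent.Lib.QNL.O
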