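import Mathlib

/-!
Tools for the Perron approach to the obstacle problem in the plane (circle means of continuous
functions): the maximum principle, the Dirichlet problem on a disc, mean value implies harmonic.
-/

set_option autoImplicit false

namespace Pool.Agent.Lib.QNL.Per

open MeasureTheory Filter Topology Set Metric Complex InnerProductSpace
open scoped Real

/-- local sub-mean value property at `x` -/
def SubAt (f : ℂ → ℝ) (x : ℂ) : Prop := ∀ᶠ r in 𝓝[>] (0 : ℝ), f x ≤ Real.circleAverage f x r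

/-- a strict inequality for circle averages -/
theorem circleAverage_lt_of_le {g : ℂ → ℝ} {x : ℂ} {r m : ℝ} (hr : 0 < r)
    (hg : ContinuousOn g (sphere x r)) (hle : ∀ z ∈ sphere x r, g z ≤ m)
    (hlt : ∃ z ∈ sphere x r, g z < m) : Real.circleAverage g x r < m := by
  have hcm : ∀ θ : ℝ, circleMap x r θ ∈ sphere x r := fun θ => circleMap_mem_sphere x hr.le θ
  have hcont : Continuous fun θ : ℝ => g (circleMap x r θ) :=
    hg.comp_continuous (continuous_circleMap x r) hcm
  obtain ⟨z, hz, hzm⟩ := hlt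
  have hz' : z ∈ circleMap x r '' Ioc 0 (2 * π) := by
    rw [image_circleMap_Ioc, abs_of_pos hr]
    exact hz
  obtain ⟨θ, hθ, rfl⟩ := hz'
  have hpos : 0 < ∫ t in (0 : ℝ)..(2 * π), (m - g (circleMap x r t)) := by
    refine intervalIntegral.integral_pos Real.two_pi_pos
      ((continuous_const.sub hcont).continuousOn) (fun t _ => sub_nonneg.2 (hle _ (hcm t)))
      ⟨θ, Ioc_subset_Icc_self hθ, sub_pos.2 hzm⟩
  rw [intervalIntegral.integral_sub (intervalIntegrable_const)
    (hcont.intervalIntegrable _ _), intervalIntegral.integral_const, sub_zero, smul_eq_mul] at hpos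
  rw [Real.circleAverage_def, smul_eq_mul, inv_mul_lt_iff₀ Real.two_pi_pos]
  linarith

/-- the maximum principle -/
theorem max_principle {U : Set ℂ} (hU : IsOpen U) (hb : Bornology.IsBounded U) {f : ℂ → ℝ}
    (hf : ContinuousOn f (closure U)) (hs : ∀ x ∈ U, SubAt f x)
    (hfr : ∀ x ∈ frontier U, f x ≤ 0) : ∀ x ∈ U, f x ≤ 0 := by
  intro x₀ hx₀
  by_contra hcon
  rw [not_le] at hcon
  have hK : IsCompact (closure U) := hb.isCompact_closure
  obtain ⟨x₁, hx₁, hmax⟩ := hK.exists_isMaxOn ⟨x₀, subset_closure hx₀⟩ hf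
  set m := f x₁ with hm
  have hm0 : 0 < m := hcon.trans_le (hmax (subset_closure hx₀))
  set S : Set ℂ := closure U ∩ f ⁻¹' {m} with hS
  have hSc : IsClosed S := hf.preimage_isClosed_of_isClosed isClosed_closure isClosed_singleton
  have hScomp : IsCompact S := hK.of_isClosed_subset hSc inter_subset_left
  obtain ⟨x₂, hx₂, hre⟩ := hScomp.exists_isMaxOn ⟨x₁, hx₁, rfl⟩ Complex.continuous_re.continuousOn
  have hx₂U : x₂ ∈ U := by
    by_contra h
    have hx : x₂ ∈ frontier U := ⟨hx₂.1, by rwa [hU.interior_eq]⟩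
    have h1 := hfr x₂ hx
    have h2 : f x₂ = m := hx₂.2
    linarith
  obtain ⟨ε, hε, hball⟩ := Metric.isOpen_iff.1 hU x₂ hx₂U
  have hev : ∀ᶠ r in 𝓝[>] (0 : ℝ), 0 < r ∧ r < ε ∧ f x₂ ≤ Real.circleAverage f x₂ r := by
    filter_upwards [hs x₂ hx₂U, self_mem_nhdsWithin,
      mem_nhdsWithin_of_mem_nhds (Iio_mem_nhds hε)] with r h1 h2 h3
    exact ⟨h2, h3, h1⟩
  obtain ⟨r, hr0, hrε, hr⟩ := hev.exists
  have hsub : sphere x₂ r ⊆ U := fun z hz => hball (by
    rw [mem_ball, mem_sphere.1 hz]; exact hrε)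
  have hlt := circleAverage_lt_of_le (m := m) hr0 (hf.mono (hsub.trans subset_closure))
    (fun z hz => hmax (subset_closure (hsub hz))) ⟨x₂ + r, by simp [abs_of_pos hr0], ?_⟩
  · have h2 : f x₂ = m := hx₂.2
    linarith
  · have hz : x₂ + (r : ℂ) ∈ sphere x₂ r := by simp [abs_of_pos hr0]
    refine lt_of_le_of_ne (hmax (subset_closure (hsub hz))) fun h => ?_
    have h3 : x₂ + (r : ℂ) ∈ S := ⟨subset_closure (hsub hz), h⟩
    have h4 := hre h3
    simp only [mem_ofPred_eq, Complex.add_re, Complex.ofReal_re] at h4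
    linarith

/-- comparison -/
theorem comparison {U : Set ℂ} (hU : IsOpen U) (hb : Bornology.IsBounded U) {f g : ℂ → ℝ}
    (hf : ContinuousOn f (closure U)) (hg : ContinuousOn g (closure U))
    (hs : ∀ x ∈ U, SubAt (fun z => f z - g z) x)
    (hfr : ∀ x ∈ frontier U, f x ≤ g x) : ∀ x ∈ U, f x ≤ g x := by
  intro x hx
  have := max_principle hU hb (hf.sub hg) hs (fun z hz => sub_nonpos.2 (hfr z hz)) x hx
  exact sub_nonpos.1 this

/-! ### The Dirichlet problem on a disc -/

/-- the Poisson modification of `g` on the disc -/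
noncomputable def pois (c : ℂ) (R : ℝ) (g : ℂ → ℝ) (w : ℂ) : ℝ :=
  open Classical in
  if w ∈ ball c R then Real.circleAverage (fun z => poissonKernel c w z * g z) c R else g w

theorem continuousOn_poissonKernel {c w : ℂ} {R : ℝ} (hw : w ∈ ball c R) :
    ContinuousOn (poissonKernel c w) (sphere c R) := by
  have hR : 0 < R := pos_of_mem_ball hw
  rw [poissonKernel_eq_re_herglotzRieszKernel]
  have := continuousOn_herglotzRieszKernel_sphere (c := c) (w := w) (R := R) hw
  rw [abs_of_pos hR] at this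
  exact Complex.continuous_re.comp_continuousOn this

theorem poissonKernel_nonneg {c w z : ℂ} {R : ℝ} (hw : w ∈ ball c R) (hz : z ∈ sphere c R) :
    0 ≤ poissonKernel c w z := by
  rw [poissonKernel_def]
  have h1 : ‖z - c‖ = R := mem_sphere_iff_norm.1 hz
  have h2 : ‖w - c‖ < R := mem_ball_iff_norm.1 hw
  refine div_nonneg ?_ (sq_nonneg _)
  rw [h1]
  nlinarith [norm_nonneg (w - c)]

theorem average_poissonKernel {c w : ℂ} {R : ℝ} (hw : w ∈ ball c R) :
    Real.circleAverage (poissonKernel c w) c R = 1 := by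
  have h := HarmonicOnNhd.circleAverage_poissonKernel_smul (f := fun _ : ℂ => (1 : ℝ)) (c := c)
    (R := R) (harmonicOnNhd_const 1) hw
  have e : (poissonKernel c w • fun _ : ℂ => (1 : ℝ)) = poissonKernel c w := by
    ext z
    simp
  rwa [e] at h

theorem harmonicOnNhd_pois (c : ℂ) (R : ℝ) {g : ℂ → ℝ} (hg : ContinuousOn g (sphere c R)) :
    HarmonicOnNhd (pois c R g) (ball c R) := by
  intro w hw
  have hR : 0 < R := pos_of_mem_ball hw
  set G : ℂ → ℝ := fun z => g (z + c) with hG
  have hGc : ContinuousOn G (sphere 0 R) := by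
    refine hg.comp (by fun_prop) fun z hz => ?_
    simpa using hz
  have hGi : CircleIntegrable G 0 R := by
    refine ContinuousOn.circleIntegrable hR.le hGc
  have hGi' : CircleIntegrable (fun z => (G z : ℂ)) 0 R := by
    refine ContinuousOn.circleIntegrable hR.le (Complex.continuous_ofReal.comp_continuousOn hGc)
  have hA := analyticOnNhd_circleAverage_herglotzRieszKernel_smul hGi'
  set F : ℂ → ℂ := fun w ↦ Real.circleAverage
    (fun ζ ↦ herglotzRieszKernel 0 w ζ • (G ζ : ℂ)) 0 R with hF
  have hFw : ∀ v ∈ ball c R, pois c R g v = (F (v - c)).re := by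
    intro v hv
    have hv' : v - c ∈ ball (0 : ℂ) R := by simpa [dist_eq_norm] using hv
    rw [hF]
    simp only
    rw [re_circleAverage_herglotzRieszKernel_smul hGi hv', pois, if_pos hv]
    rw [← Real.circleAverage_map_add_const (c := c)]
    congr 1
    ext z
    simp only [Pi.smul_apply', Function.comp_apply, smul_eq_mul, hG]
    rw [poissonKernel_eq_re_herglotzRieszKernel, Function.comp_apply,
      herglotzRieszKernel_add_const]
  have hw' : w - c ∈ ball (0 : ℂ) R := by simpa [dist_eq_norm] using hw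
  have hcomp : AnalyticAt ℂ (fun v => F (v - c)) w :=
    (hA (w - c) hw').comp_of_eq (by fun_prop) rfl
  have hre := hcomp.harmonicAt_re
  refine (harmonicAt_congr_nhds ?_).2 hre
  filter_upwards [isOpen_ball.mem_nhds hw] with v hv
  exact hFw v hv

theorem circleIntegrable_pois {c w : ℂ} {R : ℝ} {g : ℂ → ℝ} (hg : ContinuousOn g (sphere c R))
    (hw : w ∈ ball c R) : CircleIntegrable (fun z => poissonKernel c w z * g z) c R :=
  ContinuousOn.circleIntegrable (pos_of_mem_ball hw).le ((continuousOn_poissonKernel hw).mul hg)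

/-- the boundary estimate -/
theorem pois_sub_le {c w ζ : ℂ} {R δ ε M : ℝ} {g : ℂ → ℝ} (hg : ContinuousOn g (sphere c R))
    (hw : w ∈ ball c R) (hζ : ζ ∈ sphere c R) (hδ : 0 < δ) (hwζ : ‖w - ζ‖ ≤ δ / 2)
    (hε : ∀ z ∈ sphere c R, ‖z - ζ‖ < δ → |g z - g ζ| ≤ ε) (hM : ∀ z ∈ sphere c R, |g z| ≤ M) :
    |pois c R g w - g ζ| ≤ ε + 2 * M * ((R ^ 2 - ‖w - c‖ ^ 2) / (δ / 2) ^ 2) := by
  have hR : 0 < R := pos_of_mem_ball hw
  have hwR : ‖w - c‖ < R := mem_ball_iff_norm.1 hw
  have hM0 : 0 ≤ M := (abs_nonneg _).trans (hM ζ hζ)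
  have hε0 : 0 ≤ ε := (abs_nonneg _).trans (hε ζ hζ (by simpa using hδ))
  set q : ℝ := (R ^ 2 - ‖w - c‖ ^ 2) / (δ / 2) ^ 2 with hq
  have hq0 : 0 ≤ R ^ 2 - ‖w - c‖ ^ 2 := by nlinarith [norm_nonneg (w - c)]
  have hPc := continuousOn_poissonKernel hw
  have hPi : CircleIntegrable (poissonKernel c w) c R :=
    ContinuousOn.circleIntegrable hR.le hPc
  have e1 : pois c R g w - g ζ =
      Real.circleAverage (fun z => poissonKernel c w z * (g z - g ζ)) c R := by
    rw [pois, if_pos hw]
    have h1 : (fun z => poissonKernel c w z * (g z - g ζ)) =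
        (fun z => poissonKernel c w z * g z) - (fun z => g ζ * poissonKernel c w z) := by
      ext z
      simp only [Pi.sub_apply]
      ring
    have h2 : Real.circleAverage (fun z => g ζ * poissonKernel c w z) c R = g ζ := by
      have := Real.circleAverage_fun_smul (a := g ζ) (f := poissonKernel c w) (c := c) (R := R)
      simp only [smul_eq_mul] at this
      rw [this, average_poissonKernel hw, mul_one]
    have h4 : CircleIntegrable (fun z => g ζ * poissonKernel c w z) c R :=
      ContinuousOn.circleIntegrable hR.le (continuousOn_const.mul hPc)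
    rw [h1, Real.circleAverage_sub (circleIntegrable_pois hg hw) h4, h2]
  rw [e1]
  have hcI : CircleIntegrable (fun z => poissonKernel c w z * (g z - g ζ)) c R :=
    ContinuousOn.circleIntegrable hR.le (hPc.mul (hg.sub continuousOn_const))
  refine (Real.abs_circleAverage_le_circleAverage_abs).trans ?_
  have h3 : ∀ z ∈ sphere c |R|, |poissonKernel c w z * (g z - g ζ)| ≤
      ε * poissonKernel c w z + 2 * M * q := by
    intro z hz
    rw [abs_of_pos hR] at hz
    have hP := poissonKernel_nonneg hw hz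
    rw [abs_mul, abs_of_nonneg hP]
    rcases lt_or_ge ‖z - ζ‖ δ with h | h
    · have h4 := hε z hz h
      have h5 : 0 ≤ 2 * M * q := by positivity
      nlinarith [mul_le_mul_of_nonneg_left h4 hP]
    · have h4 : δ / 2 ≤ ‖z - w‖ := by
        have : ‖z - ζ‖ ≤ ‖z - w‖ + ‖w - ζ‖ := norm_sub_le_norm_sub_add_norm_sub _ _ _
        linarith
      have h5 : poissonKernel c w z ≤ q := by
        rw [poissonKernel_def, mem_sphere_iff_norm.1 hz, sub_sub_sub_cancel_right, hq]
        gcongr
      have h6 : |g z - g ζ| ≤ 2 * M := by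
        have := abs_sub (g z) (g ζ)
        linarith [hM z hz, hM ζ hζ]
      have h7 : poissonKernel c w z * |g z - g ζ| ≤ q * (2 * M) :=
        mul_le_mul h5 h6 (abs_nonneg _) (hP.trans h5)
      have h8 : 0 ≤ ε * poissonKernel c w z := mul_nonneg hε0 hP
      linarith
  have hI2 : CircleIntegrable (fun z => ε * poissonKernel c w z + 2 * M * q) c R :=
    ContinuousOn.circleIntegrable hR.le ((continuousOn_const.mul hPc).add continuousOn_const)
  refine (Real.circleAverage_mono (ContinuousOn.circleIntegrable hR.le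
    (hPc.mul (hg.sub continuousOn_const)).abs) hI2 h3).trans (le_of_eq ?_)
  have h9 : (fun z => ε * poissonKernel c w z + 2 * M * q) =
      (fun z => ε * poissonKernel c w z) + (fun _ => 2 * M * q) := rfl
  have h10 : CircleIntegrable (fun z => ε * poissonKernel c w z) c R :=
    ContinuousOn.circleIntegrable hR.le (continuousOn_const.mul hPc)
  rw [h9, Real.circleAverage_add h10 (circleIntegrable_const _ _ _),
    Real.circleAverage_const]
  have h2 := Real.circleAverage_fun_smul (a := ε) (f := poissonKernel c w) (c := c) (R := R)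
  simp only [smul_eq_mul] at h2
  rw [h2, average_poissonKernel hw, mul_one]

theorem continuous_pois {c : ℂ} {R : ℝ} {g : ℂ → ℝ} (hg : Continuous g) :
    Continuous (pois c R g) := by
  rw [continuous_iff_continuousAt]
  intro ζ
  rcases lt_trichotomy ‖ζ - c‖ R with h | h | h
  · have hζ : ζ ∈ ball c R := mem_ball_iff_norm.2 h
    exact (harmonicOnNhd_pois c R hg.continuousOn).continuousOn.continuousAt
      (isOpen_ball.mem_nhds hζ)
  · have hζ : ζ ∈ sphere c R := mem_sphere_iff_norm.2 h
    have hζb : ζ ∉ ball c R := by rw [mem_ball_iff_norm, h]; exact lt_irrefl _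
    obtain ⟨M, hM⟩ := (isCompact_sphere c R).exists_bound_of_continuousOn hg.continuousOn
    have hM' : ∀ z ∈ sphere c R, |g z| ≤ M := hM
    have hM0 : 0 ≤ M := (abs_nonneg _).trans (hM' ζ hζ)
    rw [Metric.continuousAt_iff]
    intro e he
    obtain ⟨δ, hδ, hgδ⟩ := Metric.continuousAt_iff.1 hg.continuousAt (e / 2) (half_pos he)
    have e0 : pois c R g ζ = g ζ := by rw [pois, if_neg hζb]
    -- smallness of the second term
    have hcont : Tendsto (fun w : ℂ => 2 * M * ((R ^ 2 - ‖w - c‖ ^ 2) / (δ / 2) ^ 2)) (𝓝 ζ)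
        (𝓝 0) := by
      have : Continuous fun w : ℂ => 2 * M * ((R ^ 2 - ‖w - c‖ ^ 2) / (δ / 2) ^ 2) := by fun_prop
      have h1 := this.tendsto ζ
      rwa [h, sub_self, zero_div, mul_zero] at h1
    have hev := hcont.eventually (gt_mem_nhds (half_pos he))
    obtain ⟨η, hη, hηb⟩ := Metric.eventually_nhds_iff.1 hev
    refine ⟨min η (δ / 2), lt_min hη (half_pos hδ), fun {w} hw => ?_⟩
    have hw1 : dist w ζ < η := hw.trans_le (min_le_left _ _)
    have hw2 : dist w ζ < δ / 2 := hw.trans_le (min_le_right _ _)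
    rw [e0, Real.dist_eq]
    by_cases hwb : w ∈ ball c R
    · have h1 := pois_sub_le (ε := e / 2) hg.continuousOn hwb hζ hδ
        (by rw [← dist_eq_norm]; exact hw2.le)
        (fun z _ hz => (by
          have := hgδ (x := z) (by rw [dist_eq_norm]; exact hz)
          rw [Real.dist_eq] at this
          exact this.le)) hM'
      have h2 := hηb hw1
      linarith
    · rw [pois, if_neg hwb, ← Real.dist_eq]
      exact (hgδ (hw2.trans (half_lt_self hδ))).trans (half_lt_self he)
  · have : (closedBall c R)ᶜ ∈ 𝓝 ζ :=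
      isClosed_closedBall.isOpen_compl.mem_nhds (by
        rw [mem_compl_iff, mem_closedBall_iff_norm, not_le]; exact h)
    refine hg.continuousAt.congr ?_
    filter_upwards [this] with w hw
    rw [pois, if_neg]
    exact fun h' => hw (ball_subset_closedBall h')

/-- the Dirichlet problem on a disc -/
theorem dirichlet (c : ℂ) (R : ℝ) {g : ℂ → ℝ} (hg : Continuous g) :
    ∃ h : ℂ → ℝ, Continuous h ∧ HarmonicOnNhd h (ball c R) ∧ ∀ z, z ∉ ball c R → h z = g z :=
  ⟨pois c R g, continuous_pois hg, harmonicOnNhd_pois c R hg.continuousOn,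
    fun z hz => by rw [pois, if_neg hz]⟩

/-- the mean value property at all small radii -/
def MeanAt (f : ℂ → ℝ) (x : ℂ) : Prop := ∀ᶠ r in 𝓝[>] (0 : ℝ), Real.circleAverage f x r = f x

theorem meanAt_of_harmonic {f : ℂ → ℝ} {U : Set ℂ} (hU : IsOpen U) (hf : HarmonicOnNhd f U)
    {x : ℂ} (hx : x ∈ U) : MeanAt f x := by
  obtain ⟨ε, hε, hball⟩ := Metric.isOpen_iff.1 hU x hx
  filter_upwards [self_mem_nhdsWithin, mem_nhdsWithin_of_mem_nhds (Iio_mem_nhds hε)] with r h1 h2
  refine InnerProductSpace.HarmonicOnNhd.circleAverage_eq (hf.mono ?_)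
  rw [abs_of_pos h1]
  exact (closedBall_subset_ball h2).trans hball

theorem circleIntegrable_of_continuousOn_ball {f : ℂ → ℝ} {x : ℂ} {ρ r : ℝ}
    (hf : ContinuousOn f (ball x ρ)) (h0 : 0 < r) (hr : r < ρ) : CircleIntegrable f x r :=
  ContinuousOn.circleIntegrable h0.le (hf.mono fun z hz => by
    rw [mem_ball, mem_sphere.1 hz]; exact hr)

/-- sums of the mean value properties -/
theorem MeanAt.sub {f g : ℂ → ℝ} {x : ℂ} {U : Set ℂ} (hU : U ∈ 𝓝 x) (hfc : ContinuousOn f U)
    (hgc : ContinuousOn g U) (hf : MeanAt f x) (hg : MeanAt g x) :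
    MeanAt (fun z => f z - g z) x := by
  obtain ⟨ρ, hρ, hb⟩ := Metric.mem_nhds_iff.1 hU
  filter_upwards [hf, hg, self_mem_nhdsWithin, mem_nhdsWithin_of_mem_nhds (Iio_mem_nhds hρ)]
    with r h1 h2 h3 h4
  have e : (fun z => f z - g z) = f - g := rfl
  rw [e, Real.circleAverage_sub (circleIntegrable_of_continuousOn_ball (hfc.mono hb) h3 h4)
    (circleIntegrable_of_continuousOn_ball (hgc.mono hb) h3 h4), h1, h2]

theorem MeanAt.subAt {f : ℂ → ℝ} {x : ℂ} (hf : MeanAt f x) : SubAt f x :=
  hf.mono fun _ h => h.ge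

theorem MeanAt.neg {f : ℂ → ℝ} {x : ℂ} (hf : MeanAt f x) : MeanAt (fun z => - f z) x := by
  filter_upwards [hf] with r h
  have e : (fun z => - f z) = fun z => (-1 : ℝ) • f z := by ext z; simp
  rw [e, Real.circleAverage_fun_smul, h]
  simp

/-- continuous functions with the local mean value property are harmonic -/
theorem harmonic_of_mean {f : ℂ → ℝ} {U : Set ℂ} (hU : IsOpen U) (hf : ContinuousOn f U)
    (hm : ∀ x ∈ U, MeanAt f x) : HarmonicOnNhd f U := by
  intro x hx
  obtain ⟨ρ, hρ, hb⟩ := Metric.isOpen_iff.1 hU x hx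
  set R := ρ / 2 with hRdef
  have hR : 0 < R := half_pos hρ
  have hRρ : R < ρ := half_lt_self hρ
  have hcb : closedBall x R ⊆ U := (closedBall_subset_ball hRρ).trans hb
  -- a continuous extension of `f`
  obtain ⟨g, hg⟩ := ContinuousMap.exists_restrict_eq (isClosed_closedBall (x := x) (ε := R))
    (⟨_, (continuousOn_iff_continuous_domRestrict.1 (hf.mono hcb))⟩ : C(closedBall x R, ℝ))
  have hgf : ∀ z ∈ closedBall x R, g z = f z := by
    intro z hz
    have := DFunLike.congr_fun hg ⟨z, hz⟩
    simpa using this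
  obtain ⟨h, hhc, hhh, hhg⟩ := dirichlet x R g.continuous
  have hfb : ContinuousOn f (closure (ball x R)) := by
    rw [closure_ball x hR.ne']
    exact hf.mono hcb
  have hfr : ∀ z ∈ frontier (ball x R), f z = h z := by
    intro z hz
    rw [frontier_ball x hR.ne'] at hz
    rw [hhg z (fun hz' => by
      rw [mem_ball, mem_sphere.1 hz] at hz'; exact lt_irrefl _ hz'),
      hgf z (sphere_subset_closedBall hz)]
  have hmf : ∀ z ∈ ball x R, MeanAt (fun w => f w - h w) z := fun z hz =>
    MeanAt.sub (isOpen_ball.mem_nhds hz) (hf.mono (ball_subset_closedBall.trans hcb))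
      hhc.continuousOn (hm z (hcb (ball_subset_closedBall hz)))
      (meanAt_of_harmonic isOpen_ball hhh hz)
  have h1 : ∀ z ∈ ball x R, f z = h z := by
    intro z hz
    refine le_antisymm ?_ ?_
    · exact comparison isOpen_ball isBounded_ball hfb hhc.continuousOn
        (fun w hw => (hmf w hw).subAt) (fun w hw => (hfr w hw).le) z hz
    · refine comparison isOpen_ball isBounded_ball hhc.continuousOn hfb
        (fun w hw => ?_) (fun w hw => (hfr w hw).ge) z hz
      have := (hmf w hw).neg
      simp only [neg_sub] at this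
      exact this.subAt
  refine (harmonicAt_congr_nhds ?_).2 (hhh x (mem_ball_self hR))
  filter_upwards [isOpen_ball.mem_nhds (mem_ball_self hR)] with z hz
  exact h1 z hz

end Pool.Agent.Lib.QNL.Per
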