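import Pool.Agent.Lib.QNL.OStmts
import Pool.Agent.Lib.QNL.PerA
import Pool.Agent.Lib.QNL.O_Psi

/-!
QNL, group O: the differences `u_L - u_L'` on `{u_L' > 0}`, from the mean value equalities.
-/

set_option autoImplicit false

namespace Pool.Agent.Lib.QNL.O

open MeasureTheory Filter Topology Set Metric InnerProductSpace
open scoped ContDiff
open Pool.Agent.Lib.QNL

/-- the circle means of `|z|²` -/
theorem average_normsq (x : ℂ) {r : ℝ} (hr : 0 < r) :
    Real.circleAverage (fun z : ℂ => ‖z‖ ^ 2 / 4) x r = ‖x‖ ^ 2 / 4 + r ^ 2 / 4 := by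
  have h1 : Set.EqOn (fun z : ℂ => ‖z‖ ^ 2 / 4)
      (fun z : ℂ => ((starRingEnd ℂ x * z / 2 + (((r ^ 2 - ‖x‖ ^ 2) / 4 : ℝ) : ℂ)) : ℂ).re)
      (sphere x |r|) := by
    intro z hz
    rw [abs_of_pos hr, mem_sphere, dist_eq_norm] at hz
    have h2 : ‖z - x‖ ^ 2 = r ^ 2 := by rw [hz]
    rw [Complex.sq_norm, Complex.normSq_apply] at h2
    simp only [Complex.sub_re, Complex.sub_im] at h2
    simp only [Complex.sq_norm, Complex.normSq_apply, Complex.add_re, Complex.ofReal_re,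
      Complex.div_ofNat_re, Complex.mul_re, Complex.conj_re, Complex.conj_im]
    nlinarith
  rw [Real.circleAverage_congr_sphere h1]
  have h3 : HarmonicOnNhd (fun z : ℂ => ((starRingEnd ℂ x * z / 2 +
      (((r ^ 2 - ‖x‖ ^ 2) / 4 : ℝ) : ℂ)) : ℂ).re) (closedBall x |r|) := by
    intro z _
    have h4 : AnalyticAt ℂ (fun z : ℂ => starRingEnd ℂ x * z / 2 +
      (((r ^ 2 - ‖x‖ ^ 2) / 4 : ℝ) : ℂ)) z := by fun_prop
    exact h4.harmonicAt_re
  rw [h3.circleAverage_eq]
  simp only [Complex.sq_norm, Complex.normSq_apply, Complex.add_re, Complex.ofReal_re,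
      Complex.div_ofNat_re, Complex.mul_re, Complex.conj_re, Complex.conj_im]
  ring

theorem isOpen_pos {μ : ℂ → ℝ} {C : ℝ} {u : ℝ → ℂ → ℝ} (hu : Fam μ C u) {L : ℝ} (hL : 0 < L) :
    IsOpen {x | 0 < u L x} := isOpen_lt continuous_const (hu.cont L hL)

/-- `u_L - u_L' + (L' - L)|z|²/4` is harmonic on `{u_L' > 0}` -/
theorem harmonic_diff {μ : ℂ → ℝ} {C : ℝ} {u : ℝ → ℂ → ℝ} (hu : Fam μ C u) {L L' : ℝ}
    (hL : 0 < L) (hLL' : L < L') :
    HarmonicOnNhd (fun z => u L z - u L' z + (L' - L) * (‖z‖ ^ 2 / 4)) {x | 0 < u L' x} := by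
  have hL' : 0 < L' := hL.trans hLL'
  have c1 := hu.cont L hL
  have c2 := hu.cont L' hL'
  have c3 : Continuous fun z : ℂ => (L' - L) * (‖z‖ ^ 2 / 4) := by fun_prop
  refine Per.harmonic_of_mean (isOpen_pos hu hL') ((c1.sub c2).add c3).continuousOn
    fun x hx => ?_
  obtain ⟨ε, hε, hball⟩ := Metric.isOpen_iff.1 (isOpen_pos hu hL') x hx
  filter_upwards [self_mem_nhdsWithin, mem_nhdsWithin_of_mem_nhds (Iio_mem_nhds hε)] with r h1 h2
  have hs : closedBall x r ⊆ {y | 0 < u L' y} := (closedBall_subset_ball h2).trans hball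
  have hs' : closedBall x r ⊆ {y | 0 < u L y} := fun y hy =>
    (show 0 < u L' y from hs hy).trans_le (hu.anti L L' hL hLL'.le y)
  have e1 := hu.har L hL x r h1 hs'
  have e2 := hu.har L' hL' x r h1 hs
  have i1 : CircleIntegrable (u L) x r := c1.continuousOn.circleIntegrable'
  have i2 : CircleIntegrable (u L') x r := c2.continuousOn.circleIntegrable'
  have i3 : CircleIntegrable (fun z : ℂ => (L' - L) * (‖z‖ ^ 2 / 4)) x r :=
    c3.continuousOn.circleIntegrable'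
  have e : (fun z => u L z - u L' z + (L' - L) * (‖z‖ ^ 2 / 4)) =
      (u L - u L') + fun z : ℂ => (L' - L) * (‖z‖ ^ 2 / 4) := rfl
  have e3 : Real.circleAverage (fun z : ℂ => (L' - L) * (‖z‖ ^ 2 / 4)) x r
      = (L' - L) * (‖x‖ ^ 2 / 4 + r ^ 2 / 4) := by
    rw [← average_normsq x h1]
    exact Real.circleAverage_fun_smul (a := L' - L) (f := fun z : ℂ => ‖z‖ ^ 2 / 4)
  rw [e, Real.circleAverage_add (i1.sub i2) i3, Real.circleAverage_sub i1 i2, e1, e2, e3]
  ring

/-- (O-C4) -/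
theorem stmtDiff : StmtDiff := by
  intro μ C u hu L L' hL hLL'
  have hL' : 0 < L' := hL.trans hLL'
  have hh := harmonic_diff hu hL hLL'
  have hO := isOpen_pos hu hL'
  have hcd : ContDiffOn ℝ ∞ (fun x => u L x - u L' x) {x | 0 < u L' x} := by
    have h1 : ContDiffOn ℝ ∞ (fun x => (u L x - u L' x + (L' - L) * (‖x‖ ^ 2 / 4)) -
        (L' - L) * (‖x‖ ^ 2 / 4)) {x | 0 < u L' x} :=
      (harmonicOn_contDiffOn hh).sub (contDiff_const.mul contDiff_normsq).contDiffOn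
    refine h1.congr fun x _ => ?_
    ring
  refine ⟨hcd, fun x hx => ?_⟩
  have hpos : 0 < L' - L := by linarith
  have hψ : HarmonicAt (fun z => (L' - L)⁻¹ * (u L z - u L' z) + ‖z‖ ^ 2 / 4) x := by
    have h2 : HarmonicAt ((L' - L)⁻¹ • fun z => u L z - u L' z + (L' - L) * (‖z‖ ^ 2 / 4)) x :=
      (hh x hx).const_smul
    convert h2 using 1
    funext z
    simp only [Pi.smul_apply, smul_eq_mul]
    field_simp
  have h3 := lap_torsion hψ
  have h4 : ContDiffAt ℝ 2 (fun x => u L x - u L' x) x :=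
    (hcd.contDiffAt (hO.mem_nhds hx)).of_le two_le_infty
  have h5 : lap (fun z => (L' - L)⁻¹ * (u L z - u L' z)) x
      = (L' - L)⁻¹ * lap (fun x => u L x - u L' x) x := by
    have h6 : ContDiffAt ℝ 2 (fun z => (L' - L)⁻¹ * (u L z - u L' z)) x := contDiffAt_const.mul h4
    rw [← laplacian_eq_lap h4, ← laplacian_eq_lap h6]
    exact InnerProductSpace.laplacian_smul (L' - L)⁻¹ h4
  rw [h5] at h3
  field_simp at h3
  linarith

end Pool.Agent.Lib.QNL.O
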