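import Pool.Agent.Lib.QNL.OStmts

/-!
QNL, group O: the mass inequality (O-H1), `μ ≤ L` off the domain (O-H2), small levels (O-I2).
-/

set_option autoImplicit false

namespace Pool.Agent.Lib.QNL.O.Mass4

open MeasureTheory Filter Topology Set
open scoped ContDiff
open Pool.Agent.Lib.QNL

theorem circleAverage_nonneg {f : ℂ → ℝ} (hf : ∀ x, 0 ≤ f x) (x : ℂ) (r : ℝ) :
    0 ≤ Real.circleAverage f x r := by
  rw [Real.circleAverage_def, smul_eq_mul]
  refine mul_nonneg (inv_nonneg.2 Real.two_pi_pos.le) ?_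
  exact intervalIntegral.integral_nonneg Real.two_pi_pos.le fun _ _ => hf _

/-! ### Off the domain -/

theorem stmtOut (hJ : StmtJ) : StmtOut := by
  intro μ C u hu L hL x hx
  by_contra hlt
  rw [not_le] at hlt
  set L' := (L + μ x) / 2 with hL'
  have h1 : L < L' := by rw [hL']; linarith
  have h2 : L' < μ x := by rw [hL']; linarith
  have hL'0 : 0 < L' := hL.trans h1
  have hux : u L' x = 0 := le_antisymm (not_lt.1 fun h => hx ⟨L', h1, h⟩) (hu.nonneg L' hL'0 x)
  set b := (L' + μ x) / 2 with hb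
  have hb1 : L' < b := by rw [hb]; linarith
  have hb2 : b < μ x := by rw [hb]; linarith
  obtain ⟨ρ, hρ, hρ'⟩ := Metric.eventually_nhds_iff.1
    (hu.src.cont.continuousAt.eventually (lt_mem_nhds hb2) : ∀ᶠ y in 𝓝 x, b < μ y)
  have hr : 0 < ρ / 2 := by positivity
  have h3 := (hJ μ hu.src.cont hu.src.cpt x (ρ / 2) b hr).2 fun y hy =>
    (hρ' (lt_of_le_of_lt (Metric.mem_closedBall.1 hy) (by linarith))).le
  have h4 := hu.sup L' hL'0 x (ρ / 2) hr
  have h5 := circleAverage_nonneg (hu.nonneg L' hL'0) x (ρ / 2)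
  have h6 : 0 < (ρ / 2) ^ 2 := by positivity
  have h7 : L' * (ρ / 2) ^ 2 < b * (ρ / 2) ^ 2 := mul_lt_mul_of_pos_right hb1 h6
  rw [hux] at h4
  linarith

/-! ### Small levels -/

theorem integrable_posLog {r : ℝ} (hr : 0 < r) :
    Integrable (fun y : ℂ => Real.posLog (r / ‖y‖)) volume := by
  refine (integrable_fun_norm_addHaar (E := ℂ) (volume : Measure ℂ)
    (f := fun s : ℝ => Real.posLog (r / s))).2 ?_
  have hm : AEStronglyMeasurable
      (fun y : ℝ => y ^ (Module.finrank ℝ ℂ - 1) • Real.posLog (r / y)) (volume.restrict (Ioi 0)) := by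
    refine Measurable.aestronglyMeasurable ?_
    have h1 : Measurable fun y : ℝ => Real.posLog (r / y) :=
      Real.continuous_posLog.measurable.comp (measurable_const.div measurable_id)
    exact (measurable_id.pow_const _).smul h1
  have hg : IntegrableOn (indicator (Ioc 0 r) fun _ : ℝ => r) (Ioi 0) volume := by
    refine Integrable.integrableOn ?_
    exact (integrable_indicator_iff measurableSet_Ioc).2 (integrableOn_const (by simp))
  refine Integrable.mono' hg hm ?_
  refine (ae_restrict_iff' measurableSet_Ioi).2 (Eventually.of_forall fun y hy => ?_)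
  have hy0 : 0 < y := hy
  rw [Complex.finrank_real_complex]
  simp only [Nat.add_one_sub_one, pow_one, smul_eq_mul]
  rw [Real.norm_of_nonneg (mul_nonneg hy0.le Real.posLog_nonneg)]
  by_cases h : y ≤ r
  · rw [indicator_of_mem (show y ∈ Ioc 0 r from ⟨hy0, h⟩)]
    have h1 : 1 ≤ r / y := (one_le_div hy0).2 h
    rw [Real.posLog_eq_log (by rw [abs_of_pos (by positivity)]; exact h1)]
    have h2 : Real.log (r / y) ≤ r / y - 1 := Real.log_le_sub_one_of_pos (by positivity)
    calc y * Real.log (r / y) ≤ y * (r / y - 1) := mul_le_mul_of_nonneg_left h2 hy0.le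
      _ = r - y := by field_simp
      _ ≤ r := by linarith
  · rw [indicator_of_notMem (fun hh => h hh.2)]
    rw [not_le] at h
    have h1 : Real.posLog (r / y) = 0 := by
      rw [Real.posLog_eq_zero_iff, abs_of_pos (by positivity), div_le_one hy0]
      exact h.le
    rw [h1, mul_zero]

theorem integrable_posLog_mul {r : ℝ} (hr : 0 < r) {μ : ℂ → ℝ} (hc : Continuous μ)
    (hs : HasCompactSupport μ) (x : ℂ) :
    Integrable (fun y : ℂ => Real.posLog (r / ‖y‖) * μ (x - y)) volume := by
  obtain ⟨M, hM⟩ := hs.exists_bound_of_continuous hc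
  refine Integrable.mul_bdd (c := M) (integrable_posLog hr) ?_ (Eventually.of_forall fun y => hM _)
  exact (hc.comp (continuous_const.sub continuous_id)).aestronglyMeasurable

/-- `J_r μ(x)` is at least `(2π)⁻¹ ∫ μ` for large `r` -/
theorem le_J {μ : ℂ → ℝ} (hc : Continuous μ) (hs : HasCompactSupport μ) (h0 : ∀ x, 0 ≤ μ x)
    {ρ : ℝ} (hρ : ∀ x, μ x ≠ 0 → ‖x‖ ≤ ρ) (x : ℂ) {r : ℝ}
    (hr : Real.exp 1 * (‖x‖ + ρ) ≤ r) (hr0 : 0 < r) :
    (2 * Real.pi)⁻¹ * ∫ y, μ y ≤ J r μ x := by
  unfold J
  refine mul_le_mul_of_nonneg_left ?_ (inv_nonneg.2 Real.two_pi_pos.le)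
  rw [← integral_sub_left_eq_self μ volume x]
  refine integral_mono_ae ?_ (integrable_posLog_mul hr0 hc hs x) ?_
  · exact (hc.comp (continuous_const.sub continuous_id)).integrable_of_hasCompactSupport
      (hs.comp_homeomorph (Homeomorph.subLeft x))
  · have hne : ∀ᵐ y : ℂ, y ≠ 0 := by
      have : (volume : Measure ℂ) {(0 : ℂ)} = 0 := measure_singleton 0
      exact compl_mem_ae_iff.2 this
    filter_upwards [hne] with y hy
    by_cases hm : μ (x - y) = 0
    · simp [hm]
    · have h1 : ‖x - y‖ ≤ ρ := hρ _ hm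
      have h2 : ‖y‖ ≤ ‖x‖ + ρ := by
        calc ‖y‖ = ‖x - (x - y)‖ := by ring_nf
          _ ≤ ‖x‖ + ‖x - y‖ := norm_sub_le _ _
          _ ≤ ‖x‖ + ρ := by linarith
      have hy0 : 0 < ‖y‖ := norm_pos_iff.2 hy
      have h3 : Real.exp 1 ≤ r / ‖y‖ := by
        rw [le_div_iff₀ hy0]
        exact (mul_le_mul_of_nonneg_left h2 (Real.exp_pos _).le).trans hr
      have h4 : 1 ≤ r / ‖y‖ := (Real.one_le_exp zero_le_one).trans h3
      have h5 : 1 ≤ Real.posLog (r / ‖y‖) := by
        rw [Real.posLog_eq_log (h4.trans (le_abs_self _))]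
        exact (Real.le_log_iff_exp_le (by linarith)).2 h3
      exact le_mul_of_one_le_left (h0 _) h5

theorem stmtSmall : StmtSmall := by
  intro μ C u hu hpos
  obtain ⟨z₀, hz₀⟩ := hpos
  obtain ⟨ρ', hρ'⟩ := hu.src.cpt.isCompact.isBounded.subset_closedBall (0 : ℂ)
  set ρ := max ρ' 1 with hρd
  have hρ0 : 0 < ρ := lt_max_of_lt_right one_pos
  have hρ : ∀ x, μ x ≠ 0 → ‖x‖ ≤ ρ := fun x hx => by
    have := hρ' (subset_tsupport _ (Function.mem_support.2 hx))
    rw [mem_closedBall_zero_iff] at this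
    exact this.trans (le_max_left _ _)
  set I := ∫ y, μ y with hI
  have hI0 : 0 < I := by
    rw [hI, integral_pos_iff_support_of_nonneg hu.src.nonneg
      (hu.src.cont.integrable_of_hasCompactSupport hu.src.cpt)]
    refine IsOpen.measure_pos volume (hu.src.cont.isOpen_support) ⟨z₀, ?_⟩
    exact Function.mem_support.2 hz₀.ne'
  -- the constant
  set k := 2 * I / (Real.pi * Real.exp 1 ^ 2) with hk
  have hk0 : 0 < k := by positivity
  have key : ∀ L, 0 < L → ∀ x, (‖x‖ + ρ) ^ 2 * L < k → x ∈ Us u L := by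
    intro L hL x hx
    by_contra hn
    have h0 : ∀ L', L < L' → u L' x = 0 := fun L' h =>
      le_antisymm (not_lt.1 fun h' => hn ⟨L', h, h'⟩) (hu.nonneg L' (hL.trans h) x)
    set r := Real.exp 1 * (‖x‖ + ρ) with hr
    have hr0 : 0 < r := mul_pos (Real.exp_pos _) (by positivity)
    have h1 := le_J hu.src.cont hu.src.cpt hu.src.nonneg hρ x (r := r) le_rfl hr0
    have h2 : ∀ L', L < L' → (2 * Real.pi)⁻¹ * I ≤ L' * r ^ 2 / 4 := by
      intro L' hL'
      have h3 := hu.sup L' (hL.trans hL') x r hr0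
      rw [h0 L' hL'] at h3
      have h4 := circleAverage_nonneg (hu.nonneg L' (hL.trans hL')) x r
      linarith
    have h5 : (2 * Real.pi)⁻¹ * I ≤ L * r ^ 2 / 4 := by
      refine le_of_forall_gt_imp_ge_of_dense fun c hc => ?_
      have h6 : L < c * 4 / r ^ 2 := by
        rw [lt_div_iff₀ (by positivity)]
        linarith
      have h7 := h2 _ h6
      have h8 : c * 4 / r ^ 2 * r ^ 2 / 4 = c := by field_simp
      rwa [h8] at h7
    have h9 : k ≤ (‖x‖ + ρ) ^ 2 * L := by
      rw [hk, div_le_iff₀ (by positivity)]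
      rw [hr, mul_pow, inv_mul_le_iff₀ Real.two_pi_pos] at h5
      calc 2 * I ≤ 2 * (2 * Real.pi * (L * (Real.exp 1 ^ 2 * (‖x‖ + ρ) ^ 2) / 4)) := by linarith
        _ = (‖x‖ + ρ) ^ 2 * L * (Real.pi * Real.exp 1 ^ 2) := by ring
    linarith
  refine ⟨Real.sqrt k / 2, by positivity, k / (4 * ρ ^ 2), by positivity, fun L hL hLL x hx => ?_⟩
  refine key L hL x ?_
  rw [mem_ball_zero_iff] at hx
  have hsL : 0 < Real.sqrt L := Real.sqrt_pos.2 hL
  have h1 : ρ < Real.sqrt k / 2 / Real.sqrt L := by
    rw [lt_div_iff₀ hsL, lt_div_iff₀ two_pos]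
    rw [lt_div_iff₀ (by positivity)] at hLL
    refine lt_of_pow_lt_pow_left₀ 2 (Real.sqrt_nonneg _) ?_
    rw [Real.sq_sqrt hk0.le, mul_pow, mul_pow, Real.sq_sqrt hL.le]
    linarith
  have h2 : (‖x‖ + ρ) < Real.sqrt k / Real.sqrt L := by
    have : Real.sqrt k / Real.sqrt L = Real.sqrt k / 2 / Real.sqrt L +
      Real.sqrt k / 2 / Real.sqrt L := by ring
    rw [this]
    exact add_lt_add hx h1
  have h3 : (‖x‖ + ρ) ^ 2 < (Real.sqrt k / Real.sqrt L) ^ 2 :=
    pow_lt_pow_left₀ h2 (by positivity) two_ne_zero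
  rw [div_pow, Real.sq_sqrt hk0.le, Real.sq_sqrt hL.le] at h3
  rwa [lt_div_iff₀ hL] at h3

/-! ### Mass -/

theorem circleAverage_integral {f : ℂ → ℝ} (hf : Continuous f) (hs : HasCompactSupport f)
    (r : ℝ) : Integrable (fun x => Real.circleAverage f x r) volume ∧
      ∫ x, Real.circleAverage f x r = ∫ x, f x := by
  have hfi : Integrable f volume := hf.integrable_of_hasCompactSupport hs
  have hcont : Continuous fun p : ℝ × ℂ => f (circleMap p.2 r p.1) := by
    refine hf.comp ?_
    unfold circleMap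
    fun_prop
  set ν : Measure ℝ := volume.restrict (Ioc 0 (2 * Real.pi)) with hν
  have hshift : ∀ θ : ℝ, (fun x => f (circleMap x r θ)) = fun x => f (x + circleMap 0 r θ) := by
    intro θ
    ext x
    unfold circleMap
    rw [zero_add]
  have h1 : Integrable (fun p : ℝ × ℂ => f (circleMap p.2 r p.1)) (ν.prod volume) := by
    refine (integrable_prod_iff hcont.aestronglyMeasurable).2 ⟨Eventually.of_forall fun θ => ?_, ?_⟩
    · rw [hshift θ]
      exact hfi.comp_add_right _
    · have : (fun θ : ℝ => ∫ x, ‖f (circleMap x r θ)‖) = fun _ => ∫ x, ‖f x‖ := by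
        ext θ
        have := congrFun (hshift θ)
        simp only [this]
        exact integral_add_right_eq_self (fun x => ‖f x‖) _
      rw [this]
      exact integrable_const _
  have h2 : Integrable (fun p : ℂ × ℝ => f (circleMap p.1 r p.2)) (volume.prod ν) := h1.swap
  have h3 := h2.integral_prod_left
  have e : ∀ x, Real.circleAverage f x r = (2 * Real.pi)⁻¹ * ∫ θ, f (circleMap x r θ) ∂ν := by
    intro x
    rw [Real.circleAverage_def, smul_eq_mul,
      intervalIntegral.integral_of_le Real.two_pi_pos.le]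
  refine ⟨?_, ?_⟩
  · simp only [e]
    exact h3.const_mul _
  · simp only [e]
    rw [integral_const_mul, integral_integral_swap h2]
    have : ∀ θ : ℝ, ∫ x, f (circleMap x r θ) = ∫ x, f x := by
      intro θ
      have := congrFun (hshift θ)
      simp only [this]
      exact integral_add_right_eq_self f _
    simp only [this]
    rw [integral_const, smul_eq_mul, hν, measureReal_restrict_apply_univ, Real.volume_real_Ioc_of_le
      Real.two_pi_pos.le, sub_zero, ← mul_assoc, inv_mul_cancel₀ Real.two_pi_pos.ne', one_mul]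

/-- the mass inequality on `{u_L > 0}`, with a loss `ε` -/
theorem mass_eps (hJ : StmtJ) {μ : ℂ → ℝ} {C : ℝ} {u : ℝ → ℂ → ℝ} (hu : Fam μ C u) {L : ℝ}
    (hL : 0 < L) {ε : ℝ} (hε : 0 < ε) : ∫ x in {x | 0 < u L x}, (L - μ x - ε) ≤ 0 := by
  set P := {x | 0 < u L x} with hP
  have hPo : IsOpen P := isOpen_lt continuous_const (hu.cont L hL)
  have hPsub : P ⊆ tsupport (u L) := fun x hx => subset_tsupport _ (ne_of_gt hx)
  have hPb : Bornology.IsBounded P := (hu.cpt L hL).isCompact.isBounded.subset hPsub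
  have hPc : Pᶜ.Nonempty := by
    rw [nonempty_compl]
    intro h
    rw [h] at hPb
    exact NormedSpace.unbounded_univ ℝ ℂ hPb
  have hPm : MeasurableSet P := hPo.measurableSet
  have hPf : volume P ≠ ⊤ := hPb.measure_lt_top.ne
  obtain ⟨M, hM⟩ := hu.src.cpt.exists_bound_of_continuous hu.src.cont
  have hM' : ∀ x, μ x ≤ M := fun x => (le_abs_self _).trans (hM x)
  -- uniform continuity
  obtain ⟨δ, hδ, hδ'⟩ := Metric.uniformContinuous_iff.1
    (hu.src.cont.uniformContinuous_of_tendsto_cocompact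
      (hu.src.cpt.is_zero_at_infty)) ε hε
  set A : ℝ → Set ℂ := fun r => {x | r < Metric.infDist x Pᶜ} with hA
  have hAm : ∀ r, MeasurableSet (A r) := fun r =>
    measurableSet_lt measurable_const (Metric.continuous_infDist_pt _).measurable
  have hAP : ∀ r, 0 < r → A r ⊆ P := by
    intro r hr x hx
    by_contra h
    have : Metric.infDist x Pᶜ = 0 := Metric.infDist_zero_of_mem h
    have h2 : r < Metric.infDist x Pᶜ := hx
    linarith
  have hball : ∀ r, ∀ x ∈ A r, Metric.closedBall x r ⊆ P := by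
    intro r x hx y hy
    by_contra h
    have h1 : Metric.infDist x Pᶜ ≤ dist x y := Metric.infDist_le_dist_of_mem h
    have h2 : r < Metric.infDist x Pᶜ := hx
    rw [Metric.mem_closedBall, dist_comm] at hy
    linarith
  have hint : ∀ S : Set ℂ, MeasurableSet S → S ⊆ P → IntegrableOn (fun x => L - μ x - ε) S := by
    intro S _ hS
    refine IntegrableOn.mono_set ?_ (hS.trans hPsub)
    exact ((continuous_const.sub hu.src.cont).sub continuous_const).continuousOn.integrableOn_compact
      (hu.cpt L hL).isCompact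
  -- the inequality for one radius
  have step : ∀ r, 0 < r → r < δ →
      ∫ x in A r, (L - μ x - ε) ≤ M * (volume.real P - volume.real (A r)) := by
    intro r hr hrδ
    obtain ⟨hi, he⟩ := circleAverage_integral (hu.cont L hL) (hu.cpt L hL) r
    have hui : Integrable (u L) volume :=
      (hu.cont L hL).integrable_of_hasCompactSupport (hu.cpt L hL)
    have h0 : ∫ x, (Real.circleAverage (u L) x r - u L x) = 0 := by
      rw [integral_sub hi hui, he, sub_self]
    have hlow : ∀ x, (r ^ 2 / 4) * ((A r).indicator (fun x => L - μ x - ε) x -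
        (P \ A r).indicator (fun _ => M) x) ≤ Real.circleAverage (u L) x r - u L x := by
      intro x
      have hr2 : 0 < r ^ 2 / 4 := by positivity
      by_cases hx : x ∈ A r
      · rw [indicator_of_mem hx, indicator_of_notMem (fun h => h.2 hx), sub_zero,
          hu.har L hL x r hr (hball r x hx)]
        have h1 := (hJ μ hu.src.cont hu.src.cpt x r (μ x + ε) hr).1 fun y hy => by
          have := hδ' (a := y) (b := x) (lt_of_le_of_lt (Metric.mem_closedBall.1 hy) hrδ)
          rw [Real.dist_eq] at this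
          linarith [(abs_lt.1 this).2]
        linarith
      · rw [indicator_of_notMem hx]
        by_cases hxP : x ∈ P
        · rw [indicator_of_mem (show x ∈ P \ A r from ⟨hxP, hx⟩)]
          have h1 := (hJ μ hu.src.cont hu.src.cpt x r M hr).1 fun y _ => hM' y
          have h2 := hu.sub L hL x r hr
          linarith
        · rw [indicator_of_notMem (fun h => hxP h.1)]
          have h1 : u L x = 0 := le_antisymm (not_lt.1 hxP) (hu.nonneg L hL x)
          have h2 := circleAverage_nonneg (hu.nonneg L hL) x r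
          rw [h1]
          linarith
    have hS1 : Integrable ((A r).indicator fun x => L - μ x - ε) volume :=
      (integrable_indicator_iff (hAm r)).2 (hint _ (hAm r) (hAP r hr))
    have hS2 : Integrable ((P \ A r).indicator fun _ => M) volume :=
      (integrable_indicator_iff (hPm.diff (hAm r))).2
        (integrableOn_const (measure_ne_top_of_subset sdiff_subset hPf))
    have h3 := integral_mono ((hS1.sub hS2).const_mul (r ^ 2 / 4)) (hi.sub hui) hlow
    simp only [Pi.sub_apply] at h3
    rw [h0, integral_const_mul, integral_sub hS1 hS2, integral_indicator (hAm r),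
      integral_indicator (hPm.diff (hAm r)), setIntegral_const, smul_eq_mul,
      measureReal_sdiff (hAP r hr) (hAm r) hPf] at h3
    have hr2 : 0 < r ^ 2 / 4 := by positivity
    have h4 := nonpos_of_mul_nonpos_right h3 hr2
    linarith
  -- the limit
  set s : ℕ → Set ℂ := fun k => A (δ / (k + 2)) with hs
  have hsm : ∀ k, MeasurableSet (s k) := fun k => hAm _
  have hmono : Monotone s := by
    intro k l hkl x hx
    have h1 : δ / ((l : ℝ) + 2) ≤ δ / ((k : ℝ) + 2) := by
      have : (k : ℝ) ≤ l := by exact_mod_cast hkl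
      exact div_le_div_of_nonneg_left hδ.le (by positivity) (by linarith)
    exact lt_of_le_of_lt h1 hx
  have hpos : ∀ k : ℕ, 0 < δ / ((k : ℝ) + 2) := fun k => by positivity
  have hlt : ∀ k : ℕ, δ / ((k : ℝ) + 2) < δ := fun k => by
    rw [div_lt_iff₀ (by positivity)]
    nlinarith [(Nat.cast_nonneg k : (0 : ℝ) ≤ k)]
  have hU : ⋃ k, s k = P := by
    refine Subset.antisymm (iUnion_subset fun k => hAP _ (hpos k)) fun x hx => ?_
    have h1 : 0 < Metric.infDist x Pᶜ :=
      (hPo.isClosed_compl.notMem_iff_infDist_pos hPc).1 (fun h => h hx)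
    obtain ⟨k, hk⟩ := exists_nat_gt (δ / Metric.infDist x Pᶜ)
    refine mem_iUnion.2 ⟨k, ?_⟩
    change δ / ((k : ℝ) + 2) < Metric.infDist x Pᶜ
    rw [div_lt_iff₀ (by positivity)]
    rw [div_lt_iff₀ h1] at hk
    nlinarith
  have hIP : IntegrableOn (fun x => L - μ x - ε) (⋃ k, s k) := by
    rw [hU]
    exact hint P hPm Subset.rfl
  have hOP : IntegrableOn (fun _ : ℂ => (1 : ℝ)) (⋃ k, s k) := by
    rw [hU]
    exact integrableOn_const hPf
  have t1 := tendsto_setIntegral_of_monotone hsm hmono hIP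
  have t2 := tendsto_setIntegral_of_monotone hsm hmono hOP
  rw [hU] at t1 t2
  simp only [setIntegral_const, smul_eq_mul, mul_one] at t2
  have t3 : Tendsto (fun k => M * (volume.real P - volume.real (s k))) atTop (𝓝 (M * (0 : ℝ))) := by
    have := (t2.const_sub (volume.real P)).const_mul M
    rwa [sub_self] at this
  rw [mul_zero] at t3
  exact le_of_tendsto_of_tendsto' t1 t3 fun k => step _ (hpos k) (hlt k)

/-- the mass inequality on `{u_L > 0}` -/
theorem mass_pos (hJ : StmtJ) {μ : ℂ → ℝ} {C : ℝ} {u : ℝ → ℂ → ℝ} (hu : Fam μ C u) {L : ℝ}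
    (hL : 0 < L) : ∫ x in {x | 0 < u L x}, (L - μ x) ≤ 0 := by
  set P := {x | 0 < u L x} with hP
  have hPsub : P ⊆ tsupport (u L) := fun x hx => subset_tsupport _ (ne_of_gt hx)
  have hPf : volume P ≠ ⊤ := measure_ne_top_of_subset hPsub (hu.cpt L hL).isCompact.measure_ne_top
  have hi : IntegrableOn (fun x => L - μ x) P := by
    refine IntegrableOn.mono_set ?_ hPsub
    exact (continuous_const.sub hu.src.cont).continuousOn.integrableOn_compact
      (hu.cpt L hL).isCompact
  refine le_of_forall_pos_le_add fun ε hε => ?_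
  have hc : 0 < ε / (volume.real P + 1) := by positivity
  have h1 := mass_eps hJ hu hL hc
  rw [← hP] at h1
  rw [integral_sub hi (integrableOn_const hPf), setIntegral_const, smul_eq_mul] at h1
  have h2 : volume.real P * (ε / (volume.real P + 1)) ≤ ε := by
    rw [← mul_div_assoc, div_le_iff₀ (by positivity)]
    nlinarith [measureReal_nonneg (μ := (volume : Measure ℂ)) (s := P)]
  linarith

theorem Us_eq (hC : StmtConv) {μ : ℂ → ℝ} {C : ℝ} {u : ℝ → ℂ → ℝ} (hu : Fam μ C u) {L : ℝ}
    (hL : 0 < L) : Us u L = {x | 0 < u L x} := by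
  ext x
  refine ⟨fun ⟨L', h, hx⟩ => hx.trans_le (hu.anti L L' hL h.le x), fun hx => ?_⟩
  have hc := (hC μ C u hu x).2.1
  have h1 : ContinuousAt (fun l => u l x) L := hc.continuousAt (Ioi_mem_nhds hL)
  have h2 : ∀ᶠ l in 𝓝 L, 0 < u l x := h1.eventually (lt_mem_nhds hx)
  have h3 : ∀ᶠ l in 𝓝[>] L, 0 < u l x := h2.filter_mono nhdsWithin_le_nhds
  obtain ⟨l, hl, hl'⟩ := (h3.and self_mem_nhdsWithin).exists
  exact ⟨l, hl', hl⟩

theorem stmtMass (hJ : StmtJ) (hC : StmtConv) : StmtMass := by
  intro μ C u hu L hL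
  rw [Us_eq hC hu hL]
  exact mass_pos hJ hu hL

end Pool.Agent.Lib.QNL.O.Mass4
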