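import Pool.Agent.Lib.QNL.OStmts
import Pool.Agent.Lib.QNL.Harm
import Pool.Agent.Lib.QNL.PerA

/-!
QNL, group O: the torsion function is at least the torsion function of every disc.
-/

set_option autoImplicit false

namespace Pool.Agent.Lib.QNL.O

open MeasureTheory Filter Topology Set Metric InnerProductSpace
open scoped ContDiff
open Pool.Agent.Lib.QNL

namespace Tors

theorem dv_comp_sub (f : ℂ → ℝ) (c v : ℂ) :
    dv v (fun z => f (z - c)) = fun z => dv v f (z - c) := by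
  funext z
  unfold dv
  rw [fderiv_comp_sub]

theorem lap_comp_sub (f : ℂ → ℝ) (c z : ℂ) : lap (fun z => f (z - c)) z = lap f (z - c) := by
  unfold lap
  rw [dx_eq, dy_eq, dx_eq, dy_eq, dv_comp_sub, dv_comp_sub, dx_eq, dy_eq, dx_eq, dy_eq,
    dv_comp_sub, dv_comp_sub]

theorem lap_disc (c z : ℂ) (R : ℝ) : lap (fun z => (R ^ 2 - ‖z - c‖ ^ 2) / 4) z = -1 := by
  have h2 : ContDiffAt ℝ 2 (fun z : ℂ => ‖z - c‖ ^ 2 / 4) z :=
    ((contDiff_norm_sq ℝ).comp (contDiff_id.sub contDiff_const)).contDiffAt.div_const 4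
  rw [show (fun z : ℂ => (R ^ 2 - ‖z - c‖ ^ 2) / 4) = fun z : ℂ => R ^ 2 / 4 - ‖z - c‖ ^ 2 / 4 by
    funext w
    ring, lap_sub' contDiffAt_const h2, lap_comp_sub (fun z => ‖z‖ ^ 2 / 4), lap_normsq]
  have h0 : lap (fun _ : ℂ => R ^ 2 / 4) z = 0 := by
    have h1 : ∀ v : ℂ, dv v (fun _ : ℂ => R ^ 2 / 4) = fun _ => 0 := fun v => by
      funext z
      simp [dv]
    unfold lap
    rw [dx_eq, dy_eq, dx_eq, dy_eq, h1, h1]
    simp [dv]
  rw [h0]
  ring

theorem contDiff_disc (c : ℂ) (R : ℝ) {n : WithTop ℕ∞} :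
    ContDiff ℝ n (fun z : ℂ => (R ^ 2 - ‖z - c‖ ^ 2) / 4) :=
  (contDiff_const.sub ((contDiff_norm_sq ℝ).comp (contDiff_id.sub contDiff_const))).div_const 4

/-- A nonnegative function with Laplacian `-1` near a closed disc is at least the torsion function
of the disc. -/
theorem disc_le {w : ℂ → ℝ} {V : Set ℂ} {c : ℂ} {R : ℝ} (hV : IsOpen V)
    (hw : ContDiffOn ℝ ∞ w V) (hl : ∀ z ∈ V, lap w z = -1) (h0 : ∀ z, 0 ≤ w z) (hR : 0 < R)
    (hb : closedBall c R ⊆ V) : ∀ z ∈ ball c R, (R ^ 2 - ‖z - c‖ ^ 2) / 4 ≤ w z := by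
  have hh : HarmonicOnNhd (fun z => (R ^ 2 - ‖z - c‖ ^ 2) / 4 - w z) V := by
    intro z hz
    have hwz : ∀ y ∈ V, ContDiffAt ℝ 2 w y := fun y hy =>
      ((hw y hy).contDiffAt (hV.mem_nhds hy)).of_le (by norm_cast)
    refine harmonicAt_iff_lap.2 ⟨(contDiff_disc c R).contDiffAt.sub (hwz z hz), ?_⟩
    filter_upwards [hV.mem_nhds hz] with y hy
    rw [lap_sub' (contDiff_disc c R).contDiffAt (hwz y hy), lap_disc, hl y hy]
    ring
  have hcl : closure (ball c R) = closedBall c R := closure_ball c hR.ne'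
  have key := Per.comparison (U := ball c R) isOpen_ball isBounded_ball
    (f := fun z => (R ^ 2 - ‖z - c‖ ^ 2) / 4) (g := w)
    (contDiff_disc c R (n := 0)).continuous.continuousOn
    (by rw [hcl]; exact hw.continuousOn.mono hb)
    (fun x hx => (Per.meanAt_of_harmonic hV hh (hb (ball_subset_closedBall hx))).subAt)
    (fun x hx => by
      rw [frontier_ball c hR.ne', mem_sphere_iff_norm] at hx
      have : (R ^ 2 - ‖x - c‖ ^ 2) / 4 = 0 := by rw [hx]; ring
      rw [this]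
      exact h0 x)
  exact key

end Tors

theorem stmtTors (hD : StmtDiff) (hC : StmtConv) : StmtTors := by
  intro μ C u hu L hL c r hb x hx
  have hr : 0 < r := pos_of_mem_ball hx
  have hxr : ‖x - c‖ < r := mem_ball_iff_norm.1 hx
  -- every smaller closed disc
  have key : ∀ R, ‖x - c‖ < R → R < r → (R ^ 2 - ‖x - c‖ ^ 2) / 4 ≤ psi u L x := by
    intro R h1 h2
    have hR : 0 < R := (norm_nonneg _).trans_lt h1
    have hK : IsCompact (closedBall c R) := isCompact_closedBall c R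
    obtain ⟨⟨L', hL'⟩, hsub⟩ := hK.elim_directed_cover
      (fun i : {L' : ℝ // L < L'} => {z | 0 < u i.1 z})
      (fun i => isOpen_lt continuous_const (hu.cont i.1 (hL.trans i.2)))
      (fun z hz => by
        obtain ⟨L', h3, h4⟩ := hb (closedBall_subset_ball h2 hz)
        exact mem_iUnion.2 ⟨⟨L', h3⟩, h4⟩)
      (fun i j => ⟨⟨min i.1 j.1, lt_min i.2 j.2⟩,
        fun z hz => lt_of_lt_of_le hz (hu.anti _ _ (hL.trans (lt_min i.2 j.2)) (min_le_left _ _) z),
        fun z hz => lt_of_lt_of_le hz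
          (hu.anti _ _ (hL.trans (lt_min i.2 j.2)) (min_le_right _ _) z)⟩)
    have hL0 : 0 < L' - L := sub_pos.2 hL'
    have hV : IsOpen {z | 0 < u L' z} := isOpen_lt continuous_const (hu.cont L' (hL.trans hL'))
    obtain ⟨hs, hl⟩ := hD μ C u hu L L' hL hL'
    have hs2 : ContDiffOn ℝ ∞ (fun z => (L' - L)⁻¹ * (u L z - u L' z)) {z | 0 < u L' z} :=
      contDiffOn_const.mul hs
    have hl2 : ∀ z ∈ {z | 0 < u L' z}, lap (fun z => (L' - L)⁻¹ * (u L z - u L' z)) z = -1 := by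
      intro z hz
      have hc : ContDiffAt ℝ 2 (fun z => u L z - u L' z) z :=
        ((hs z hz).contDiffAt (hV.mem_nhds hz)).of_le (by norm_cast)
      have h5 : ContDiffAt ℝ 2 ((L' - L)⁻¹ • fun z => u L z - u L' z) z :=
        ContDiffAt.const_smul (L' - L)⁻¹ hc
      have h6 := laplacian_smul (L' - L)⁻¹ hc
      rw [laplacian_eq_lap h5, laplacian_eq_lap hc, hl z hz] at h6
      have h7 : (fun z => (L' - L)⁻¹ * (u L z - u L' z)) =
          (L' - L)⁻¹ • fun z => u L z - u L' z := by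
        funext z
        simp
      rw [h7, h6, smul_eq_mul]
      field_simp
    have h0 : ∀ z, 0 ≤ (L' - L)⁻¹ * (u L z - u L' z) := fun z =>
      mul_nonneg (inv_nonneg.2 hL0.le) (sub_nonneg.2 (hu.anti _ _ hL hL'.le z))
    have h8 := Tors.disc_le hV hs2 hl2 h0 hR hsub x (mem_ball_iff_norm.2 h1)
    have h9 := (hC μ C u hu x).2.2.2.1 L L' hL hL'
    calc (R ^ 2 - ‖x - c‖ ^ 2) / 4 ≤ (L' - L)⁻¹ * (u L x - u L' x) := h8
      _ = (u L x - u L' x) / (L' - L) := by rw [div_eq_inv_mul]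
      _ ≤ psi u L x := h9
  have ht : Tendsto (fun R : ℝ => (R ^ 2 - ‖x - c‖ ^ 2) / 4) (𝓝[<] r)
      (𝓝 ((r ^ 2 - ‖x - c‖ ^ 2) / 4)) := by
    have : Continuous fun R : ℝ => (R ^ 2 - ‖x - c‖ ^ 2) / 4 := by fun_prop
    exact (this.tendsto r).mono_left nhdsWithin_le_nhds
  refine le_of_tendsto ht ?_
  filter_upwards [Ioo_mem_nhdsLT hxr] with R hR
  exact key R hR.1 hR.2

end Pool.Agent.Lib.QNL.O
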