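import Pool.Agent.Lib.QNL.OStmts

/-!
The velocity inequality `|∇ψ|² ≤ (L - μ + 4 C ψ) χ`, at one point and one level, from the
averaged comparison with variable levels.
-/

set_option autoImplicit false

namespace Pool.Agent.Lib.QNL.Vel

open MeasureTheory Filter Topology Set

/-- circle average of a quadratic polynomial -/
theorem cavg_quad (c₀ c₁ c₂ a b d : ℝ) (z : ℂ) (h : ℝ) :
    Real.circleAverage (fun w : ℂ => c₀ + c₁ * (w - z).re + c₂ * (w - z).im +
      a * (w - z).re ^ 2 + b * ((w - z).re * (w - z).im) + d * (w - z).im ^ 2) z h =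
      c₀ + (a + d) * h ^ 2 / 2 := by
  have e : ∀ θ : ℝ, c₀ + c₁ * (circleMap z h θ - z).re + c₂ * (circleMap z h θ - z).im +
      a * (circleMap z h θ - z).re ^ 2 +
      b * ((circleMap z h θ - z).re * (circleMap z h θ - z).im) +
      d * (circleMap z h θ - z).im ^ 2 =
      c₀ + (c₁ * h) * Real.cos θ + (c₂ * h) * Real.sin θ + (a * h ^ 2) * Real.cos θ ^ 2 +
      (b * h ^ 2) * (Real.sin θ * Real.cos θ) + (d * h ^ 2) * Real.sin θ ^ 2 := by
    intro θ
    have h1 : (circleMap z h θ - z).re = h * Real.cos θ := by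
      simp [circleMap, Complex.exp_ofReal_mul_I_re]
    have h2 : (circleMap z h θ - z).im = h * Real.sin θ := by
      simp [circleMap, Complex.exp_ofReal_mul_I_im]
    rw [h1, h2]
    ring
  rw [Real.circleAverage_def]
  have e2 : (fun θ : ℝ => (fun w : ℂ => c₀ + c₁ * (w - z).re + c₂ * (w - z).im +
      a * (w - z).re ^ 2 + b * ((w - z).re * (w - z).im) + d * (w - z).im ^ 2)
        (circleMap z h θ)) = fun θ : ℝ => c₀ + (c₁ * h) * Real.cos θ + (c₂ * h) * Real.sin θ +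
      (a * h ^ 2) * Real.cos θ ^ 2 +
      (b * h ^ 2) * (Real.sin θ * Real.cos θ) + (d * h ^ 2) * Real.sin θ ^ 2 := by
    funext θ
    exact e θ
  rw [e2]
  have ic : ∀ f : ℝ → ℝ, Continuous f → IntervalIntegrable f volume 0 (2 * Real.pi) :=
    fun f hf => hf.intervalIntegrable _ _
  rw [intervalIntegral.integral_add (ic _ (by fun_prop)) (ic _ (by fun_prop)),
    intervalIntegral.integral_add (ic _ (by fun_prop)) (ic _ (by fun_prop)),
    intervalIntegral.integral_add (ic _ (by fun_prop)) (ic _ (by fun_prop)),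
    intervalIntegral.integral_add (ic _ (by fun_prop)) (ic _ (by fun_prop)),
    intervalIntegral.integral_add (ic _ (by fun_prop)) (ic _ (by fun_prop)),
    intervalIntegral.integral_const_mul, intervalIntegral.integral_const_mul,
    intervalIntegral.integral_const_mul, intervalIntegral.integral_const_mul,
    intervalIntegral.integral_const_mul, integral_cos, integral_sin, integral_cos_sq,
    integral_sin_sq, integral_sin_mul_cos₁]
  simp
  field_simp
  ring

/-- the real scalar product -/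
noncomputable def dt (b v : ℂ) : ℝ := b.re * v.re + b.im * v.im

theorem dt_abs (b v : ℂ) : |dt b v| ≤ ‖b‖ * ‖v‖ := by
  have h1 : dt b v = (starRingEnd ℂ b * v).re := by
    simp [dt, Complex.mul_re]
  rw [h1]
  refine (Complex.abs_re_le_norm _).trans ?_
  rw [norm_mul, RCLike.norm_conj]

theorem dt_cont (b z : ℂ) : Continuous fun w : ℂ => dt b (w - z) := by
  unfold dt
  fun_prop

/-- a real linear form on `ℂ` -/
theorem clm_eq (f : ℂ →L[ℝ] ℝ) (v : ℂ) : f v = f 1 * v.re + f Complex.I * v.im := by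
  have h1 : v = v.re • (1 : ℂ) + v.im • Complex.I := by
    apply Complex.ext <;> simp
  conv_lhs => rw [h1]
  rw [map_add, map_smul, map_smul]
  simp only [smul_eq_mul]
  ring

theorem norm_sq_eq (b : ℂ) : ‖b‖ ^ 2 = b.re ^ 2 + b.im ^ 2 := by
  rw [← Complex.normSq_eq_norm_sq, Complex.normSq_apply]
  ring

/-- the inequality for one direction -/
theorem dir {u : ℝ → ℂ → ℝ} {ψ χ : ℂ → ℝ} {L C m : ℝ} {z : ℂ} (hC : 0 ≤ C) (hL : 0 < L)
    (hcont : ContinuousOn (fun p : ℝ × ℂ => u p.1 p.2) (Ioi 0 ×ˢ univ))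
    (hcmp : ∀ b : ℂ, ∀ᶠ h in 𝓝[>] (0 : ℝ), u (L + ‖b‖ * h + C * h ^ 2) z ≤
      Real.circleAverage (fun w => u (L + ‖b‖ * h + dt b (w - z)) w) z h)
    (hmean : ∀ ε : ℝ, 0 < ε → ∀ᶠ h in 𝓝[>] (0 : ℝ), Real.circleAverage (u L) z h ≤
      u L z + h ^ 2 / 4 * (L - m) + ε * h ^ 2)
    (hexp : ∀ ε : ℝ, 0 < ε → ∃ δ : ℝ, 0 < δ ∧ ∀ s, 0 ≤ s → s < δ → ∀ w, ‖w - z‖ < δ →
      |u (L + s) w - (u L w - s * ψ w + s ^ 2 / 2 * χ w)| ≤ ε * s ^ 2)
    (hψ : DifferentiableAt ℝ ψ z) (hχ : ContinuousAt χ z) (b : ℂ) :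
    0 ≤ (L - m) / 4 + C * ψ z - (b.re * dx ψ z + b.im * dy ψ z) / 2 + ‖b‖ ^ 2 * χ z / 4 := by
  set N : ℝ := ‖b‖ with hN
  have hN0 : 0 ≤ N := norm_nonneg b
  set K : ℝ := 2 + (N + C) ^ 2 + 2 * N + 6 * N ^ 2 with hK
  have hK0 : 0 < K := by positivity
  refine le_of_forall_pos_le_add fun η hη => ?_
  set ε : ℝ := η / K with hε
  have hε0 : 0 < ε := div_pos hη hK0
  obtain ⟨δ, hδ, hex⟩ := hexp ε hε0
  have hd : ∀ᶠ w in 𝓝 z, ‖ψ w - ψ z - fderiv ℝ ψ z (w - z)‖ ≤ ε * ‖w - z‖ :=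
    hψ.hasFDerivAt.isLittleO.def hε0
  obtain ⟨δ₂, hδ₂, hd⟩ := Metric.eventually_nhds_iff.1 hd
  have hc : ∀ᶠ w in 𝓝 z, dist (χ w) (χ z) < ε := Metric.tendsto_nhds.1 hχ ε hε0
  obtain ⟨δ₃, hδ₃, hc⟩ := Metric.eventually_nhds_iff.1 hc
  -- small radii
  have t0 : Tendsto (fun h : ℝ => h) (𝓝[>] (0 : ℝ)) (𝓝 0) := tendsto_nhdsWithin_of_tendsto_nhds
    tendsto_id
  have t1 : Tendsto (fun h : ℝ => 2 * N * h) (𝓝[>] (0 : ℝ)) (𝓝 0) := by
    simpa using t0.const_mul (2 * N)
  have t2 : Tendsto (fun h : ℝ => N * h + C * h ^ 2) (𝓝[>] (0 : ℝ)) (𝓝 0) := by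
    simpa using (t0.const_mul N).add ((t0.pow 2).const_mul C)
  have t3 : Tendsto (fun h : ℝ => (2 * N * C * h + C ^ 2 * h ^ 2) * |χ z| / 2)
      (𝓝[>] (0 : ℝ)) (𝓝 0) := by
    simpa using ((((t0.const_mul (2 * N * C)).add ((t0.pow 2).const_mul (C ^ 2))).mul_const
      (|χ z|)).div_const 2)
  have ev : ∀ᶠ h in 𝓝[>] (0 : ℝ), 0 < h ∧ h < 1 ∧ h < δ ∧ h < δ₂ ∧ h < δ₃ ∧ 2 * N * h < δ ∧
      N * h + C * h ^ 2 < δ ∧ (2 * N * C * h + C ^ 2 * h ^ 2) * |χ z| / 2 < ε := by
    filter_upwards [self_mem_nhdsWithin, t0.eventually_lt_const one_pos,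
      t0.eventually_lt_const hδ, t0.eventually_lt_const hδ₂, t0.eventually_lt_const hδ₃,
      t1.eventually_lt_const hδ, t2.eventually_lt_const hδ, t3.eventually_lt_const hε0]
      with h a1 a2 a3 a4 a5 a6 a7 a8
    exact ⟨a1, a2, a3, a4, a5, a6, a7, a8⟩
  obtain ⟨h, ⟨⟨h0, h1, hδh, hδ₂h, hδ₃h, h2N, hσ, hcub⟩, hcm⟩, hmn⟩ :=
    ((ev.and (hcmp b)).and (hmean ε hε0)).exists
  set P : ℝ := ψ z with hP
  set X : ℝ := χ z with hX
  set g₁ : ℝ := dx ψ z with hg₁
  set g₂ : ℝ := dy ψ z with hg₂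
  -- the lower bound
  have low := hex (N * h + C * h ^ 2) (by positivity) hσ z (by simpa using hδ)
  rw [abs_le] at low
  have low1 := low.1
  rw [show L + (N * h + C * h ^ 2) = L + N * h + C * h ^ 2 by ring] at low1
  -- the upper bound
  have up : ∀ w ∈ Metric.sphere z |h|, u (L + N * h + dt b (w - z)) w ≤ u L w +
      ((-(N * h) * P + X * (N * h) ^ 2 / 2 + ε * h ^ 2 * (2 * N + 6 * N ^ 2)) +
        (-(b.re * P + N * h * g₁) + X * (N * h) * b.re) * (w - z).re +
        (-(b.im * P + N * h * g₂) + X * (N * h) * b.im) * (w - z).im +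
        (-(b.re * g₁) + X * b.re ^ 2 / 2) * (w - z).re ^ 2 +
        (-(b.re * g₂ + b.im * g₁) + X * (b.re * b.im)) * ((w - z).re * (w - z).im) +
        (-(b.im * g₂) + X * b.im ^ 2 / 2) * (w - z).im ^ 2) := by
    intro w hw
    have hw1 : ‖w - z‖ = h := by
      rw [mem_sphere_iff_norm] at hw
      rw [hw, abs_of_pos h0]
    have hs := dt_abs b (w - z)
    rw [hw1, ← hN, abs_le] at hs
    set s : ℝ := N * h + dt b (w - z) with hsd
    have hs0 : 0 ≤ s := by rw [hsd]; linarith [hs.1]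
    have hs2 : s ≤ 2 * N * h := by rw [hsd]; linarith [hs.2]
    have e1 := hex s hs0 (lt_of_le_of_lt hs2 h2N) w (by rw [hw1]; exact hδh)
    rw [abs_le] at e1
    have e2 := hd (y := w) (by rw [dist_eq_norm, hw1]; exact hδ₂h)
    rw [hw1, Real.norm_eq_abs, abs_le] at e2
    have e3 := hc (y := w) (by rw [dist_eq_norm, hw1]; exact hδ₃h)
    rw [Real.dist_eq, abs_lt] at e3
    have e4 : fderiv ℝ ψ z (w - z) = g₁ * (w - z).re + g₂ * (w - z).im := clm_eq _ _
    rw [e4] at e2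
    have f1 : s * (ψ w) ≥ s * (P + (g₁ * (w - z).re + g₂ * (w - z).im) - ε * h) :=
      mul_le_mul_of_nonneg_left (by linarith [e2.1]) hs0
    have f2 : s ^ 2 / 2 * χ w ≤ s ^ 2 / 2 * (X + ε) :=
      mul_le_mul_of_nonneg_left (by linarith [e3.2]) (by positivity)
    have f3 : s ^ 2 ≤ (2 * N * h) ^ 2 := pow_le_pow_left₀ hs0 hs2 2
    have f4 : s * (ε * h) ≤ 2 * N * h * (ε * h) :=
      mul_le_mul_of_nonneg_right hs2 (by positivity)
    have f5 : (3 / 2 * ε) * s ^ 2 ≤ (3 / 2 * ε) * (2 * N * h) ^ 2 :=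
      mul_le_mul_of_nonneg_left f3 (by positivity)
    have e5 : L + N * h + dt b (w - z) = L + s := by rw [hsd]; ring
    rw [e5]
    have e6 : u (L + s) w ≤ u L w - s * (P + (g₁ * (w - z).re + g₂ * (w - z).im)) +
        s ^ 2 / 2 * X + ε * h ^ 2 * (2 * N + 6 * N ^ 2) := by
      linarith [e1.2, f1, f2, f4, f5]
    refine e6.trans (le_of_eq ?_)
    rw [hsd]
    unfold dt
    ring
  -- continuity
  have hline : Continuous fun w : ℂ => L + N * h + dt b (w - z) :=
    continuous_const.add (dt_cont b z)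
  have cL : Continuous (u L) := by
    have : Continuous fun w : ℂ => ((L, w) : ℝ × ℂ) := by fun_prop
    have h2 := hcont.comp_continuous this (fun w => ⟨hL, mem_univ _⟩)
    exact h2
  have ci1 : CircleIntegrable (fun w => u (L + N * h + dt b (w - z)) w) z h := by
    unfold CircleIntegrable
    refine ContinuousOn.intervalIntegrable ?_
    have c1 : Continuous fun θ : ℝ =>
        ((L + N * h + dt b (circleMap z h θ - z), circleMap z h θ) : ℝ × ℂ) := by
      have := continuous_circleMap z h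
      exact (hline.comp this).prodMk this
    refine (hcont.comp_continuous c1 fun θ => ⟨?_, mem_univ _⟩).continuousOn
    have := dt_abs b (circleMap z h θ - z)
    have hcm : ‖circleMap z h θ - z‖ = h := by
      rw [circleMap_sub_center, norm_circleMap_zero, abs_of_pos h0]
    rw [hcm, ← hN, abs_le] at this
    show 0 < L + N * h + dt b (circleMap z h θ - z)
    linarith [this.1]
  have cq : Continuous fun w : ℂ =>
      ((-(N * h) * P + X * (N * h) ^ 2 / 2 + ε * h ^ 2 * (2 * N + 6 * N ^ 2)) +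
        (-(b.re * P + N * h * g₁) + X * (N * h) * b.re) * (w - z).re +
        (-(b.im * P + N * h * g₂) + X * (N * h) * b.im) * (w - z).im +
        (-(b.re * g₁) + X * b.re ^ 2 / 2) * (w - z).re ^ 2 +
        (-(b.re * g₂ + b.im * g₁) + X * (b.re * b.im)) * ((w - z).re * (w - z).im) +
        (-(b.im * g₂) + X * b.im ^ 2 / 2) * (w - z).im ^ 2) := by fun_prop
  have ci2 := cL.continuousOn.circleIntegrable' (c := z) (R := h)
  have ci3 := cq.continuousOn.circleIntegrable' (c := z) (R := h)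
  have av := Real.circleAverage_mono ci1 (ci2.add ci3) (fun w hw => by simpa using up w hw)
  rw [Real.circleAverage_add ci2 ci3, cavg_quad] at av
  have hb2 : N ^ 2 = b.re ^ 2 + b.im ^ 2 := norm_sq_eq b
  have hsig : (N * h + C * h ^ 2) ^ 2 / 2 * X ≥ N ^ 2 * h ^ 2 / 2 * X - ε * h ^ 2 := by
    have a1 : -(|X|) ≤ X := neg_abs_le X
    have a2 : (2 * N * C * h + C ^ 2 * h ^ 2) * h ^ 2 / 2 * X ≥
        (2 * N * C * h + C ^ 2 * h ^ 2) * h ^ 2 / 2 * (-(|X|)) :=
      mul_le_mul_of_nonneg_left a1 (by positivity)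
    have a3 : (2 * N * C * h + C ^ 2 * h ^ 2) * |X| / 2 * h ^ 2 ≤ ε * h ^ 2 :=
      mul_le_mul_of_nonneg_right hcub.le (by positivity)
    linarith [a2, a3]
  have hsig2 : ε * (N * h + C * h ^ 2) ^ 2 ≤ ε * ((N + C) ^ 2 * h ^ 2) := by
    refine mul_le_mul_of_nonneg_left ?_ hε0.le
    rw [← mul_pow]
    refine pow_le_pow_left₀ (by positivity) ?_ 2
    linarith [mul_nonneg hC h0.le, mul_nonneg (mul_nonneg hC h0.le) (sub_nonneg.2 h1.le)]
  have e8 : (-(b.re * g₁) + X * b.re ^ 2 / 2 + (-(b.im * g₂) + X * b.im ^ 2 / 2)) * h ^ 2 / 2 =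
      (-(b.re * g₁ + b.im * g₂) + X * N ^ 2 / 2) * h ^ 2 / 2 := by rw [hb2]; ring
  rw [e8] at av
  have av' := hcm.trans av
  have fin : 0 ≤ h ^ 2 * ((L - m) / 4 + C * P - (b.re * g₁ + b.im * g₂) / 2 + N ^ 2 * X / 4 +
      ε * K) := by
    rw [hK]
    linarith [low1, av', hmn, hsig, hsig2]
  have fin2 := nonneg_of_mul_nonneg_right fin (by positivity : (0 : ℝ) < h ^ 2)
  have e7 : ε * K = η := by rw [hε]; field_simp
  rw [e7] at fin2
  exact fin2

/-- the velocity inequality at one point -/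
theorem vel {u : ℝ → ℂ → ℝ} {ψ χ : ℂ → ℝ} {L C m : ℝ} {z : ℂ} (hC : 0 ≤ C) (hL : 0 < L)
    (hcont : ContinuousOn (fun p : ℝ × ℂ => u p.1 p.2) (Ioi 0 ×ˢ univ))
    (hcmp : ∀ b : ℂ, ∀ᶠ h in 𝓝[>] (0 : ℝ), u (L + ‖b‖ * h + C * h ^ 2) z ≤
      Real.circleAverage (fun w => u (L + ‖b‖ * h + dt b (w - z)) w) z h)
    (hmean : ∀ ε : ℝ, 0 < ε → ∀ᶠ h in 𝓝[>] (0 : ℝ), Real.circleAverage (u L) z h ≤
      u L z + h ^ 2 / 4 * (L - m) + ε * h ^ 2)
    (hexp : ∀ ε : ℝ, 0 < ε → ∃ δ : ℝ, 0 < δ ∧ ∀ s, 0 ≤ s → s < δ → ∀ w, ‖w - z‖ < δ →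
      |u (L + s) w - (u L w - s * ψ w + s ^ 2 / 2 * χ w)| ≤ ε * s ^ 2)
    (hψ : DifferentiableAt ℝ ψ z) (hχ : ContinuousAt χ z) (hχ0 : 0 ≤ χ z) :
    gr ψ z ≤ (L - m + 4 * C * ψ z) * χ z := by
  set g₁ : ℝ := dx ψ z with hg₁
  set g₂ : ℝ := dy ψ z with hg₂
  have key : ∀ t : ℝ, 0 ≤ (L - m) / 4 + C * ψ z - t * gr ψ z / 2 +
      t ^ 2 * gr ψ z * χ z / 4 := by
    intro t
    have h1 := dir hC hL hcont hcmp hmean hexp hψ hχ ((t * g₁ : ℝ) + (t * g₂ : ℝ) * Complex.I)
    rw [norm_sq_eq] at h1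
    have e1 : ((t * g₁ : ℝ) + (t * g₂ : ℝ) * Complex.I : ℂ).re = t * g₁ := by simp
    have e2 : ((t * g₁ : ℝ) + (t * g₂ : ℝ) * Complex.I : ℂ).im = t * g₂ := by simp
    rw [e1, e2] at h1
    unfold gr
    rw [← hg₁, ← hg₂] at *
    linarith
  have hgr : 0 ≤ gr ψ z := by unfold gr; positivity
  rcases hχ0.eq_or_lt with h0 | h0
  · -- `χ z = 0`
    have h2 : gr ψ z = 0 := by
      by_contra hne
      have hpos : 0 < gr ψ z := lt_of_le_of_ne hgr (Ne.symm hne)
      have h3 := key ((2 * |(L - m) / 4 + C * ψ z| + 2) / gr ψ z)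
      rw [← h0] at h3
      have e3 : (2 * |(L - m) / 4 + C * ψ z| + 2) / gr ψ z * gr ψ z =
          2 * |(L - m) / 4 + C * ψ z| + 2 := by field_simp
      rw [e3] at h3
      linarith [le_abs_self ((L - m) / 4 + C * ψ z)]
    rw [h2, ← h0, mul_zero]
  · have h3 := key (1 / χ z)
    have e3 : (1 / χ z) ^ 2 * gr ψ z * χ z / 4 = gr ψ z / χ z / 4 := by field_simp
    have e4 : 1 / χ z * gr ψ z / 2 = gr ψ z / χ z / 2 := by ring
    rw [e3, e4] at h3
    have h4 : gr ψ z / χ z ≤ L - m + 4 * C * ψ z := by linarith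
    rwa [div_le_iff₀ h0] at h4

/-- antitone in the first variable and separately continuous implies continuous -/
theorem joint {u : ℝ → ℂ → ℝ} (h1 : ∀ L, 0 < L → Continuous (u L))
    (h2 : ∀ L L', 0 < L → L ≤ L' → ∀ x, u L' x ≤ u L x)
    (h3 : ∀ x, ContinuousOn (fun l => u l x) (Ioi 0)) :
    ContinuousOn (fun p : ℝ × ℂ => u p.1 p.2) (Ioi 0 ×ˢ univ) := by
  rintro ⟨L, x⟩ ⟨hL, -⟩
  have hL : 0 < L := hL
  apply ContinuousAt.continuousWithinAt
  rw [Metric.continuousAt_iff']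
  intro ε hε
  have c3 : ContinuousAt (fun l => u l x) L := (h3 x).continuousAt (Ioi_mem_nhds hL)
  have c4 := (Metric.continuousAt_iff'.1 c3) (ε / 2) (by linarith)
  obtain ⟨δ, hδ, c5⟩ := Metric.eventually_nhds_iff.1 c4
  set η : ℝ := min (δ / 2) (L / 2) with hη
  have hη0 : 0 < η := lt_min (by linarith) (by linarith)
  have hη1 : η ≤ δ / 2 := min_le_left _ _
  have hη2 : η ≤ L / 2 := min_le_right _ _
  have a1 := c5 (y := L - η) (by rw [Real.dist_eq]; rw [abs_lt]; constructor <;> linarith)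
  have a2 := c5 (y := L + η) (by rw [Real.dist_eq]; rw [abs_lt]; constructor <;> linarith)
  have d1 : ContinuousAt (u (L - η)) x := (h1 (L - η) (by linarith)).continuousAt
  have d2 : ContinuousAt (u (L + η)) x := (h1 (L + η) (by linarith)).continuousAt
  have b1 := (Metric.continuousAt_iff'.1 d1) (ε / 2) (by linarith)
  have b2 := (Metric.continuousAt_iff'.1 d2) (ε / 2) (by linarith)
  have b3 : ∀ᶠ l in 𝓝 L, L - η < l ∧ l < L + η := Ioo_mem_nhds (by linarith) (by linarith)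
  have b4 : ∀ᶠ p : ℝ × ℂ in 𝓝 (L, x), (L - η < p.1 ∧ p.1 < L + η) ∧
      (dist (u (L - η) p.2) (u (L - η) x) < ε / 2 ∧
        dist (u (L + η) p.2) (u (L + η) x) < ε / 2) := by
    rw [nhds_prod_eq]
    exact b3.prod_mk (b1.and b2)
  filter_upwards [b4] with p hp
  obtain ⟨⟨p1, p2⟩, p3, p4⟩ := hp
  simp only [Real.dist_eq, abs_lt] at a1 a2 p3 p4 ⊢
  have q1 := h2 (L - η) p.1 (by linarith) p1.le p.2
  have q2 := h2 p.1 (L + η) (by linarith) p2.le p.2
  constructor <;> linarith [a1.1, a1.2, a2.1, a2.2, p3.1, p3.2, p4.1, p4.2]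

/-- the second order expansion from the right derivative -/
theorem expand {u : ℝ → ℂ → ℝ} {ψ : ℝ → ℂ → ℝ} {χ : ℂ → ℝ} {L : ℝ} {z : ℂ} (hL : 0 < L)
    (h3 : ∀ x, ContinuousOn (fun l => u l x) (Ioi 0))
    (hd : ∀ l, 0 < l → ∀ x, HasDerivWithinAt (fun l => u l x) (-ψ l x) (Ici l) l)
    (hq : ∀ ε : ℝ, 0 < ε → ∃ δ : ℝ, 0 < δ ∧ ∀ s, 0 < s → s < δ → ∀ w, ‖w - z‖ < δ →
      |ψ L w - ψ (L + s) w - s * χ w| ≤ ε * s) :
    ∀ ε : ℝ, 0 < ε → ∃ δ : ℝ, 0 < δ ∧ ∀ s, 0 ≤ s → s < δ → ∀ w, ‖w - z‖ < δ →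
      |u (L + s) w - (u L w - s * ψ L w + s ^ 2 / 2 * χ w)| ≤ ε * s ^ 2 := by
  intro ε hε
  obtain ⟨δ, hδ, hq⟩ := hq ε hε
  refine ⟨δ, hδ, fun s hs0 hsδ w hw => ?_⟩
  have cf : ContinuousOn (fun t : ℝ => u (L + t) w) (Icc 0 s) := by
    have : ContinuousOn (fun t : ℝ => L + t) (Icc 0 s) := by fun_prop
    exact (h3 w).comp this fun t ht => by
      show 0 < L + t
      linarith [ht.1]
  have df : ∀ t ∈ Ico 0 s, HasDerivWithinAt (fun t : ℝ => u (L + t) w) (-ψ (L + t) w)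
      (Ici t) t := by
    intro t ht
    have h1 := hd (L + t) (by linarith [ht.1]) w
    have h2 : HasDerivWithinAt (fun t : ℝ => L + t) 1 (Ici t) t :=
      ((hasDerivAt_id t).const_add L).hasDerivWithinAt
    have h4 := h1.scomp t h2 (fun x hx => by
      show L + t ≤ L + x
      have : t ≤ x := hx
      linarith)
    have e4 : (1 : ℝ) • (-ψ (L + t) w) = -ψ (L + t) w := one_smul _ _
    rw [e4] at h4
    exact h4
  have hb : ∀ t ∈ Ico 0 s, |ψ L w - ψ (L + t) w - t * χ w| ≤ ε * t := by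
    intro t ht
    rcases ht.1.eq_or_lt with h0 | h0
    · rw [← h0]
      simp
    · exact hq t h0 (ht.2.trans hsδ) w hw
  have B1 : ∀ c t : ℝ, HasDerivAt (fun t : ℝ => u L w - t * ψ L w + t ^ 2 / 2 * c)
      (-ψ L w + t * c) t := by
    intro c t
    have a1 : HasDerivAt (fun t : ℝ => t * ψ L w) (1 * ψ L w) t :=
      (hasDerivAt_id t).mul_const _
    have a2 : HasDerivAt (fun t : ℝ => t ^ 2 / 2 * c) ((2 * t) / 2 * c) t := by
      have := ((hasDerivAt_pow 2 t).div_const 2).mul_const c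
      simpa using this
    have a3 := ((a1.const_sub (u L w)).add a2)
    have e4 : -(1 * ψ L w) + (2 * t) / 2 * c = -ψ L w + t * c := by ring
    rw [e4] at a3
    exact a3
  rw [abs_le]
  constructor
  · -- lower bound
    have cf2 : ContinuousOn (fun t : ℝ => -(u (L + t) w)) (Icc 0 s) := cf.neg
    have df2 : ∀ t ∈ Ico 0 s, HasDerivWithinAt (fun t : ℝ => -(u (L + t) w))
        (-(-ψ (L + t) w)) (Ici t) t := fun t ht => (df t ht).neg
    have := image_le_of_deriv_right_le_deriv_boundary (f := fun t : ℝ => -(u (L + t) w))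
      (B := fun t : ℝ => -(u L w - t * ψ L w + t ^ 2 / 2 * (χ w - ε)))
      (B' := fun t => -(-ψ L w + t * (χ w - ε))) cf2 df2 (by simp)
      (fun t _ => (B1 (χ w - ε) t).neg.continuousAt.continuousWithinAt)
      (fun t _ => (B1 (χ w - ε) t).neg.hasDerivWithinAt)
      (by
        intro t ht
        have := hb t ht
        rw [abs_le] at this
        linarith [this.1, this.2])
      (x := s) ⟨hs0, le_rfl⟩
    nlinarith [sq_nonneg s, this]
  · have := image_le_of_deriv_right_le_deriv_boundary (f := fun t : ℝ => u (L + t) w)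
      (B := fun t : ℝ => u L w - t * ψ L w + t ^ 2 / 2 * (χ w + ε))
      (B' := fun t => -ψ L w + t * (χ w + ε)) cf df (by simp)
      (fun t _ => (B1 (χ w + ε) t).continuousAt.continuousWithinAt)
      (fun t _ => (B1 (χ w + ε) t).hasDerivWithinAt)
      (by
        intro t ht
        have := hb t ht
        rw [abs_le] at this
        linarith [this.1, this.2])
      (x := s) ⟨hs0, le_rfl⟩
    nlinarith [sq_nonneg s, this]

theorem circle_ci {u : ℝ → ℂ → ℝ} {l h : ℝ} {b z : ℂ} (hh : 0 < h) (hl : ‖b‖ * h < l)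
    (hcont : ContinuousOn (fun p : ℝ × ℂ => u p.1 p.2) (Ioi 0 ×ˢ univ)) :
    CircleIntegrable (fun w => u (l + dt b (w - z)) w) z h := by
  unfold CircleIntegrable
  refine ContinuousOn.intervalIntegrable ?_
  have hline : Continuous fun w : ℂ => l + dt b (w - z) := continuous_const.add (dt_cont b z)
  have c1 : Continuous fun θ : ℝ =>
      ((l + dt b (circleMap z h θ - z), circleMap z h θ) : ℝ × ℂ) := by
    have := continuous_circleMap z h
    exact (hline.comp this).prodMk this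
  refine (hcont.comp_continuous c1 fun θ => ⟨?_, mem_univ _⟩).continuousOn
  have := dt_abs b (circleMap z h θ - z)
  have hcm : ‖circleMap z h θ - z‖ = h := by
    rw [circleMap_sub_center, norm_circleMap_zero, abs_of_pos hh]
  rw [hcm, abs_le] at this
  show 0 < l + dt b (circleMap z h θ - z)
  linarith [this.1]

/-- the two-point comparison gives the averaged comparison -/
theorem cmp_avg {u : ℝ → ℂ → ℝ} {C l h : ℝ} {b z : ℂ} (hh : 0 < h) (hl : ‖b‖ * h < l)
    (hcont : ContinuousOn (fun p : ℝ × ℂ => u p.1 p.2) (Ioi 0 ×ˢ univ))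
    (hcmp : ∀ L L' : ℝ, 0 < L → 0 < L' → ∀ x a,
      2 * u ((L + L') / 2 + C * ‖a‖ ^ 2) x ≤ u L (x + a) + u L' (x - a)) :
    u (l + C * h ^ 2) z ≤ Real.circleAverage (fun w => u (l + dt b (w - z)) w) z h := by
  set g : ℂ → ℝ := fun w => u (l + dt b (w - z)) w with hg
  have ci : CircleIntegrable g z h := circle_ci hh hl hcont
  have hpt : ∀ θ : ℝ, 2 * u (l + C * h ^ 2) z ≤
      g (circleMap z h θ) + g (circleMap z h (θ + Real.pi)) := by
    intro θ
    set a : ℂ := circleMap z h θ - z with ha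
    have e1 : circleMap z h θ = z + a := by rw [ha]; ring
    have e2 : circleMap z h (θ + Real.pi) = z - a := by
      rw [ha]
      simp only [circleMap]
      push_cast
      rw [add_mul, Complex.exp_add, Complex.exp_pi_mul_I]
      ring
    have na : ‖a‖ = h := by
      rw [ha, circleMap_sub_center, norm_circleMap_zero, abs_of_pos hh]
    have hda := dt_abs b a
    rw [na, abs_le] at hda
    have := hcmp (l + dt b a) (l - dt b a) (by linarith [hda.1]) (by linarith [hda.2]) z a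
    rw [na] at this
    have e3 : (l + dt b a + (l - dt b a)) / 2 + C * h ^ 2 = l + C * h ^ 2 := by ring
    rw [e3] at this
    rw [e1, e2, hg]
    have e4 : l + dt b (z + a - z) = l + dt b a := by congr 2; ring
    have e5 : l + dt b (z - a - z) = l - dt b a := by
      have : z - a - z = -a := by ring
      rw [this]
      unfold dt
      simp
      ring
    show 2 * u (l + C * h ^ 2) z ≤ u (l + dt b (z + a - z)) (z + a) +
      u (l + dt b (z - a - z)) (z - a)
    rw [e4, e5]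
    exact this
  have i1 : IntervalIntegrable (fun θ : ℝ => g (circleMap z h θ)) volume 0 (2 * Real.pi) := ci
  have per : Function.Periodic (fun θ : ℝ => g (circleMap z h θ)) (2 * Real.pi) :=
    fun x => by simp [periodic_circleMap z h x]
  have A1 : ∫ θ in (0 : ℝ)..2 * Real.pi, g (circleMap z h θ) =
      2 * Real.pi * Real.circleAverage g z h := by
    rw [Real.circleAverage_def, smul_eq_mul]
    field_simp
  have A2 : ∫ θ in (0 : ℝ)..2 * Real.pi, g (circleMap z h (θ + Real.pi)) =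
      2 * Real.pi * Real.circleAverage g z h := by
    rw [Real.circleAverage_eq_integral_add Real.pi, smul_eq_mul]
    field_simp
  have i2 : IntervalIntegrable (fun θ : ℝ => g (circleMap z h (θ + Real.pi))) volume 0
      (2 * Real.pi) := by
    have h1 : IntervalIntegrable (fun θ : ℝ => g (circleMap z h θ)) volume (0 + Real.pi)
        (2 * Real.pi + Real.pi) :=
      per.intervalIntegrable Real.two_pi_pos.ne' (t := 0) (by simpa using i1) _ _
    simpa using h1.comp_add_right Real.pi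
  have mono := intervalIntegral.integral_mono_on (μ := volume) (a := 0) (b := 2 * Real.pi)
    (f := fun _ => 2 * u (l + C * h ^ 2) z)
    (g := fun θ => g (circleMap z h θ) + g (circleMap z h (θ + Real.pi)))
    Real.two_pi_pos.le intervalIntegrable_const (i1.add i2) (fun θ _ => hpt θ)
  rw [intervalIntegral.integral_add i1 i2, A1, A2, intervalIntegral.integral_const] at mono
  have hpi := Real.pi_pos
  simp only [sub_zero, smul_eq_mul] at mono
  have : 0 ≤ (4 * Real.pi) * (Real.circleAverage g z h - u (l + C * h ^ 2) z) := by linarith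
  have := nonneg_of_mul_nonneg_right this (by positivity)
  linarith

/-- (O-F1) from the mean value property of `u_L` in the form `circleAverage (u L) x h ≤
u L x + (L - μ x) h² / 4 + ε h²` -/
theorem velFam {μ : ℂ → ℝ} {C : ℝ} {u : ℝ → ℂ → ℝ} (hC : 0 ≤ C)
    (cont : ∀ L, 0 < L → Continuous (u L))
    (anti : ∀ L L', 0 < L → L ≤ L' → ∀ x, u L' x ≤ u L x)
    (cmp : ∀ L L', 0 < L → 0 < L' → ∀ x a,
      2 * u ((L + L') / 2 + C * ‖a‖ ^ 2) x ≤ u L (x + a) + u L' (x - a))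
    (contL : ∀ x, ContinuousOn (fun l => u l x) (Ioi 0))
    (hpsi : ∀ L, 0 < L → ∀ x,
      Tendsto (fun h => (u L x - u (L + h) x) / h) (𝓝[>] 0) (𝓝 (O.psi u L x)))
    {L : ℝ} (hL : 0 < L) {x : ℂ}
    (hmean : ∀ ε : ℝ, 0 < ε → ∀ᶠ h in 𝓝[>] (0 : ℝ), Real.circleAverage (u L) x h ≤
      u L x + h ^ 2 / 4 * (L - μ x) + ε * h ^ 2)
    {χ : ℂ → ℝ} (hψ : DifferentiableAt ℝ (O.psi u L) x) (hχ : ContinuousAt χ x)
    (hχ0 : 0 ≤ χ x)
    (hq : ∀ ε : ℝ, 0 < ε → ∃ t ∈ 𝓝 x, ∀ᶠ h in 𝓝[>] (0 : ℝ), ∀ y ∈ t,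
      dist (χ y) ((O.psi u L y - O.psi u (L + h) y) / h) < ε) :
    gr (O.psi u L) x ≤ (L - μ x + 4 * C * O.psi u L x) * χ x := by
  have jc := joint cont anti contL
  have hd : ∀ l, 0 < l → ∀ x, HasDerivWithinAt (fun l => u l x) (-O.psi u l x) (Ici l) l := by
    intro l hl y
    rw [← hasDerivWithinAt_Ioi_iff_Ici, hasDerivWithinAt_iff_tendsto_slope'
      (by simp)]
    have h1 := (hpsi l hl y).neg
    have h2 : Tendsto (fun l' : ℝ => l' - l) (𝓝[>] l) (𝓝[>] 0) := by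
      have : Tendsto (fun l' : ℝ => l' - l) (𝓝[>] l) (𝓝[>] (l - l)) := by
        apply tendsto_nhdsWithin_of_tendsto_nhds_of_eventually_within
        · exact ((continuous_id.sub continuous_const).tendsto l).mono_left nhdsWithin_le_nhds
        · filter_upwards [self_mem_nhdsWithin] with y hy
          have hy : l < y := hy
          show l - l < y - l
          linarith
      simpa using this
    have h3 := h1.comp h2
    refine h3.congr' ?_
    filter_upwards [self_mem_nhdsWithin] with y' hy'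
    simp only [Function.comp_apply, slope_def_field]
    rw [show l + (y' - l) = y' by ring]
    have : y' - l ≠ 0 := sub_ne_zero.2 (ne_of_gt hy')
    field_simp
    ring
  refine vel hC hL jc ?_ hmean (expand (ψ := fun l => O.psi u l) hL contL hd ?_) hψ hχ hχ0
  · intro b
    filter_upwards [self_mem_nhdsWithin] with h hh
    exact cmp_avg hh (by linarith) jc cmp
  · intro ε hε
    obtain ⟨t, ht, hev⟩ := hq ε hε
    obtain ⟨δ₁, hδ₁, hb⟩ := Metric.mem_nhds_iff.1 ht
    obtain ⟨δ₂, hδ₂, hc⟩ := Metric.mem_nhdsWithin_iff.1 hev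
    refine ⟨min δ₁ δ₂, lt_min hδ₁ hδ₂, fun s hs hsδ w hw => ?_⟩
    have h1 : w ∈ t := hb (by
      rw [Metric.mem_ball, dist_eq_norm]
      exact lt_of_lt_of_le hw (min_le_left _ _))
    have h2 := hc (⟨by
      rw [Metric.mem_ball, dist_eq_norm, sub_zero, Real.norm_eq_abs, abs_of_pos hs]
      exact lt_of_lt_of_le hsδ (min_le_right _ _), hs⟩ : s ∈ Metric.ball 0 δ₂ ∩ Ioi 0)
    have h3 := h2 w h1
    rw [Real.dist_eq] at h3
    have e1 : O.psi u L w - O.psi u (L + s) w - s * χ w =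
        -(s * (χ w - (O.psi u L w - O.psi u (L + s) w) / s)) := by
      field_simp
      ring
    rw [e1, abs_neg, abs_mul, abs_of_pos hs, mul_comm]
    exact mul_le_mul_of_nonneg_right h3.le hs.le

/-- (O-F1) -/
theorem stmtV (hJ : O.StmtJ) (hConv : O.StmtConv) (hUs : O.StmtUs) (hPsi : O.StmtPsi) :
    O.StmtV := by
  intro μ C u hF L hL χ hχ x hx
  obtain ⟨χs, -, χ0, χl⟩ := hχ
  have hO := (hUs μ C u hF L hL).1
  have hnx : O.Us u L ∈ 𝓝 x := hO.mem_nhds hx
  refine velFam hF.src.pos hF.cont hF.anti hF.cmp (fun y => (hConv μ C u hF y).2.1)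
    (fun l hl y => (hConv μ C u hF y).2.2.1 l hl) hL ?_ ?_ ?_ (χ0 x hx) ?_
  · intro ε hε
    have c1 : ∀ᶠ y in 𝓝 x, dist (μ y) (μ x) < 4 * ε :=
      Metric.continuousAt_iff'.1 hF.src.cont.continuousAt (4 * ε) (by linarith)
    obtain ⟨ρ, hρ, hb⟩ := Metric.eventually_nhds_iff.1 c1
    filter_upwards [Ioo_mem_nhdsGT hρ] with h hh
    have h1 := hF.sup L hL x h hh.1
    have h2 := (hJ μ hF.src.cont hF.src.cpt x h (μ x - 4 * ε) hh.1).2 (fun y hy => by
      have := hb (y := y) (lt_of_le_of_lt (Metric.mem_closedBall.1 hy) hh.2)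
      rw [Real.dist_eq, abs_lt] at this
      linarith [this.1])
    linarith [h1, h2]
  · exact ((hPsi μ C u hF L hL).1.contDiffAt hnx).differentiableAt (by simp)
  · exact (χs.contDiffAt hnx).continuousAt
  · intro ε hε
    have h1 := Metric.tendstoLocallyUniformlyOn_iff.1 χl ε hε x hx
    obtain ⟨t, ht, hev⟩ := h1
    rw [hO.nhdsWithin_eq hx] at ht
    exact ⟨t, ht, hev.filter_mono (nhdsWithin_mono _ fun y (hy : 0 < y) => ne_of_gt hy)⟩

end Pool.Agent.Lib.QNL.Vel
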