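import Pool.Agent.Lib.QNL.O_Exist58
import Pool.Agent.Lib.QNL.O_Conv91
import Pool.Agent.Lib.QNL.O_Diff53
import Pool.Agent.Lib.QNL.O_Quad53
import Pool.Agent.Lib.QNL.O_Sard2
import Pool.Agent.Lib.QNL.Vel89
import Pool.Agent.Lib.QNL.OCpt20
import Pool.Agent.Lib.QNL.O_Mass4
import Pool.Agent.Lib.QNL.O_Tors
import Pool.Agent.Lib.QNL.O_Obst

/-!
QNL, group O: the result.
-/

set_option autoImplicit false

namespace Pool.Agent.Lib.QNL.O

theorem psi_all : StmtPsi := stmtPsi stmtConv stmtDiff

theorem chi_all : StmtChi := stmtChi stmtConv stmtUs psi_all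

theorem v_all : StmtV := Vel.stmtV Per.stmtJ stmtConv stmtUs psi_all

theorem chiPos_all : StmtChiPos := stmtChiPos stmtUs psi_all v_all

theorem quad_all : StmtQuad := stmtQuad Per.stmtJ

theorem cpt_all : StmtCpt := stmtCpt stmtSard2 stmtConv quad_all stmtUs psi_all

theorem reg_all : StmtReg := stmtReg stmtSard2 stmtConv quad_all stmtUs psi_all

theorem mass_all : StmtMass := Mass4.stmtMass Per.stmtJ stmtConv

theorem out_all : StmtOut := Mass4.stmtOut Per.stmtJ

theorem tors_all : StmtTors := stmtTors stmtDiff stmtConv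

/-- every family of solutions has all the properties of `Obst` -/
theorem obst_all {μ : ℂ → ℝ} {C : ℝ} {u : ℝ → ℂ → ℝ} (hu : Fam μ C u) :
    Obst μ C (Us u) (psi u) :=
  obst_of_fam stmtConv stmtRight stmtUs psi_all chi_all v_all chiPos_all cpt_all reg_all mass_all
    out_all tors_all Mass4.stmtSmall hu

/-- the result of group O -/
theorem stmtObst_all : StmtObst :=
  stmtObst Per.stmtExist stmtConv stmtRight stmtUs psi_all chi_all v_all chiPos_all cpt_all
    reg_all mass_all out_all tors_all Mass4.stmtSmall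

end Pool.Agent.Lib.QNL.O
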