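import Pool.Agent.Lib.QNL.PerN

/-!
The class of supersolutions of the obstacle problem and its infimum: continuity, two-point
comparison, compact support.
-/

set_option autoImplicit false

namespace Pool.Agent.Lib.QNL.Per

open MeasureTheory Filter Topology Set Metric Complex InnerProductSpace
open scoped Real

/-- the supersolutions: `w ≥ 0`, `Δ w ≤ L - μ` in the mean value sense -/
def SS (μ : ℂ → ℝ) (L : ℝ) : Set (ℂ → ℝ) :=
  {w | Continuous w ∧ (∀ x, 0 ≤ w x) ∧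
    ∀ x r, 0 < r → Real.circleAverage w x r ≤ w x + L * r ^ 2 / 4 - J r μ x}

/-- the least supersolution -/
noncomputable def obsU (μ : ℂ → ℝ) (L : ℝ) (x : ℂ) : ℝ :=
  sInf ((fun w : ℂ → ℝ => w x) '' SS μ L)

theorem obsU_le {μ : ℂ → ℝ} {L : ℝ} {w : ℂ → ℝ} (hw : w ∈ SS μ L) (x : ℂ) : obsU μ L x ≤ w x :=
  csInf_le ⟨0, by rintro _ ⟨v, hv, rfl⟩; exact hv.2.1 x⟩ ⟨w, hw, rfl⟩

theorem le_obsU {μ : ℂ → ℝ} {L : ℝ} (hne : (SS μ L).Nonempty) {x : ℂ} {c : ℝ}
    (h : ∀ w ∈ SS μ L, c ≤ w x) : c ≤ obsU μ L x :=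
  le_csInf (hne.image _) (by rintro _ ⟨w, hw, rfl⟩; exact h w hw)

theorem obsU_nonneg (μ : ℂ → ℝ) (L : ℝ) (x : ℂ) : 0 ≤ obsU μ L x :=
  Real.sInf_nonneg (by rintro _ ⟨v, hv, rfl⟩; exact hv.2.1 x)

theorem obsU_least {μ : ℂ → ℝ} {L : ℝ} (w : ℂ → ℝ) (h1 : Continuous w) (h2 : ∀ x, 0 ≤ w x)
    (h3 : ∀ x r, 0 < r → Real.circleAverage w x r ≤ w x + L * r ^ 2 / 4 - J r μ x) (x : ℂ) :
    obsU μ L x ≤ w x := obsU_le ⟨h1, h2, h3⟩ x

theorem SS.mono {μ : ℂ → ℝ} {L L' : ℝ} (h : L ≤ L') : SS μ L ⊆ SS μ L' := by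
  rintro w ⟨h1, h2, h3⟩
  refine ⟨h1, h2, fun x r hr => (h3 x r hr).trans ?_⟩
  have : L * r ^ 2 / 4 ≤ L' * r ^ 2 / 4 := by
    have := mul_le_mul_of_nonneg_right h (sq_nonneg r)
    linarith
  linarith

/-- antitone in the level -/
theorem obsU_anti {μ : ℂ → ℝ} {L L' : ℝ} (hne : (SS μ L).Nonempty) (h : L ≤ L') (x : ℂ) :
    obsU μ L' x ≤ obsU μ L x :=
  le_obsU hne fun _ hw => obsU_le (SS.mono h hw) x

theorem circInt {w : ℂ → ℝ} (hw : Continuous w) (x : ℂ) {r : ℝ} (hr : 0 < r) :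
    CircleIntegrable w x r := ContinuousOn.circleIntegrable hr.le hw.continuousOn

/-- circle means of a translate -/
theorem circleAverage_translate (w : ℂ → ℝ) (a x : ℂ) (r : ℝ) :
    Real.circleAverage (fun y => w (y + a)) x r = Real.circleAverage w (x + a) r := by
  rw [← Real.circleAverage_map_add_const (f := fun y => w (y + a)),
    ← Real.circleAverage_map_add_const (f := w)]
  congr 1
  ext z
  rw [add_assoc]

theorem SS.translate {μ : ℂ → ℝ} (hμ : Continuous μ) {M : ℝ} (hM : ∀ x, |μ x| ≤ M) {L ε : ℝ}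
    {a : ℂ} (h : ∀ y, μ y ≤ μ (y + a) + ε) {w : ℂ → ℝ} (hw : w ∈ SS μ L) :
    (fun y => w (y + a)) ∈ SS μ (L + ε) := by
  obtain ⟨h1, h2, h3⟩ := hw
  refine ⟨by fun_prop, fun x => h2 _, fun x r hr => ?_⟩
  rw [circleAverage_translate]
  have h4 := h3 (x + a) r hr
  have h5 := J_le_J hr hμ hμ hM hM (x := x) (x' := x + a) (c := ε) (fun y _ => by
    have := h (x - y)
    rwa [show x - y + a = x + a - y by ring] at this)
  have e : (L + ε) * r ^ 2 / 4 = L * r ^ 2 / 4 + ε * (r ^ 2 / 4) := by ring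
  rw [e]
  linarith

theorem SS.convex {μ : ℂ → ℝ} {L₁ L₂ s t : ℝ} (hs : 0 ≤ s) (ht : 0 ≤ t) (hst : s + t = 1)
    {w₁ w₂ : ℂ → ℝ} (h₁ : w₁ ∈ SS μ L₁) (h₂ : w₂ ∈ SS μ L₂) :
    (fun y => s * w₁ y + t * w₂ y) ∈ SS μ (s * L₁ + t * L₂) := by
  obtain ⟨a1, a2, a3⟩ := h₁
  obtain ⟨b1, b2, b3⟩ := h₂
  refine ⟨by fun_prop, fun x => add_nonneg (mul_nonneg hs (a2 x)) (mul_nonneg ht (b2 x)),
    fun x r hr => ?_⟩
  have e : Real.circleAverage (fun y => s * w₁ y + t * w₂ y) x r =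
      s * Real.circleAverage w₁ x r + t * Real.circleAverage w₂ x r := by
    rw [Real.circleAverage_fun_add (circInt (by fun_prop) x hr) (circInt (by fun_prop) x hr)]
    have e1 := Real.circleAverage_fun_smul (𝕜 := ℝ) (a := s) (f := w₁) (c := x) (R := r)
    have e2 := Real.circleAverage_fun_smul (𝕜 := ℝ) (a := t) (f := w₂) (c := x) (R := r)
    simp only [smul_eq_mul] at e1 e2
    rw [e1, e2]
  rw [e]
  have h4 := mul_le_mul_of_nonneg_left (a3 x r hr) hs
  have h5 := mul_le_mul_of_nonneg_left (b3 x r hr) ht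
  have e3 : J r μ x = s * J r μ x + t * J r μ x := by rw [← add_mul, hst, one_mul]
  rw [e3]
  linarith

theorem SS.pair {μ : ℂ → ℝ} (hμ : Continuous μ) {M : ℝ} (hM : ∀ x, |μ x| ≤ M) {C : ℝ} {a : ℂ}
    (h : ∀ x, 2 * μ x - 2 * C * ‖a‖ ^ 2 ≤ μ (x + a) + μ (x - a)) {L L' : ℝ}
    {w w' : ℂ → ℝ} (hw : w ∈ SS μ L) (hw' : w' ∈ SS μ L') :
    (fun y => (w (y + a) + w' (y - a)) / 2) ∈ SS μ ((L + L') / 2 + C * ‖a‖ ^ 2) := by
  obtain ⟨a1, a2, a3⟩ := hw
  obtain ⟨b1, b2, b3⟩ := hw'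
  refine ⟨by fun_prop, fun x => div_nonneg (add_nonneg (a2 _) (b2 _)) two_pos.le,
    fun x r hr => ?_⟩
  have e : Real.circleAverage (fun y => (w (y + a) + w' (y - a)) / 2) x r =
      (Real.circleAverage w (x + a) r + Real.circleAverage w' (x - a) r) / 2 := by
    have e1 : (fun y => (w (y + a) + w' (y - a)) / 2) =
        fun y => (1 / 2 : ℝ) • (w (y + a) + w' (y + -a)) := by
      ext y
      rw [smul_eq_mul, sub_eq_add_neg]
      ring
    rw [e1, Real.circleAverage_fun_smul, Real.circleAverage_fun_add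
      (circInt (w := fun y => w (y + a)) (by fun_prop) x hr)
      (circInt (w := fun y => w' (y + -a)) (by fun_prop) x hr),
      circleAverage_translate, circleAverage_translate, smul_eq_mul, ← sub_eq_add_neg]
    ring
  rw [e]
  have h4 := a3 (x + a) r hr
  have h5 := b3 (x - a) r hr
  have h6 := J_semi hr hμ hM h x
  have e3 : ((L + L') / 2 + C * ‖a‖ ^ 2) * r ^ 2 / 4 =
      (L * r ^ 2 / 4 + L' * r ^ 2 / 4) / 2 + C * ‖a‖ ^ 2 * (r ^ 2 / 4) := by ring
  rw [e3]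
  linarith

/-- the two-point comparison -/
theorem obsU_cmp {μ : ℂ → ℝ} (hμ : Continuous μ) {M : ℝ} (hM : ∀ x, |μ x| ≤ M) {C : ℝ} {a : ℂ}
    (h : ∀ x, 2 * μ x - 2 * C * ‖a‖ ^ 2 ≤ μ (x + a) + μ (x - a)) {L L' : ℝ}
    (hne : (SS μ L).Nonempty) (hne' : (SS μ L').Nonempty) (x : ℂ) :
    2 * obsU μ ((L + L') / 2 + C * ‖a‖ ^ 2) x ≤ obsU μ L (x + a) + obsU μ L' (x - a) := by
  have key : ∀ w' ∈ SS μ L', 2 * obsU μ ((L + L') / 2 + C * ‖a‖ ^ 2) x - obsU μ L (x + a) ≤
      w' (x - a) := by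
    intro w' hw'
    have key2 : ∀ w ∈ SS μ L, 2 * obsU μ ((L + L') / 2 + C * ‖a‖ ^ 2) x - w' (x - a) ≤
        w (x + a) := by
      intro w hw
      have := obsU_le (SS.pair hμ hM h hw hw') x
      linarith
    have := le_obsU hne key2
    linarith
  have := le_obsU hne' key
  linarith

/-- the competitor `0` -/
theorem obsU_top {μ : ℂ → ℝ} (hμ : Continuous μ) {M : ℝ} (hM : ∀ x, |μ x| ≤ M) {L : ℝ}
    (h : ∀ x, μ x ≤ L) (x : ℂ) : obsU μ L x = 0 := by
  refine le_antisymm ?_ (obsU_nonneg μ L x)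
  refine obsU_least (fun _ => 0) continuous_const (fun _ => le_rfl) (fun x r hr => ?_) x
  rw [Real.circleAverage_const]
  have := J_le hr hμ hM (x := x) (c := L) (fun z _ => h z)
  linarith

/-- modulus of continuity in the level -/
theorem obsU_level {μ : ℂ → ℝ} {L d : ℝ} (hL : 0 < L) (hd : 0 ≤ d)
    (hne : (SS μ (L / 2)).Nonempty) (x : ℂ) :
    obsU μ L x ≤ obsU μ (L + d) x + 2 * d / L * obsU μ (L / 2) x := by
  have hne' : (SS μ (L + d)).Nonempty := hne.mono (SS.mono (by linarith))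
  set t : ℝ := d / (L / 2 + d) with ht
  have hpos : 0 < L / 2 + d := by positivity
  have ht0 : 0 ≤ t := div_nonneg hd hpos.le
  have ht1 : t ≤ 1 := (div_le_one hpos).2 (by linarith)
  have htd : t ≤ 2 * d / L := by
    rw [ht, div_le_div_iff₀ hpos hL]
    nlinarith
  have htL : (1 - t) * (L + d) + t * (L / 2) = L := by
    have : t * (L / 2 + d) = d := div_mul_cancel₀ d hpos.ne'
    linarith
  have key : ∀ w₁ ∈ SS μ (L + d), ∀ w₂ ∈ SS μ (L / 2),
      obsU μ L x ≤ w₁ x + 2 * d / L * w₂ x := by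
    intro w₁ h₁ w₂ h₂
    have h := SS.convex (sub_nonneg.2 ht1) ht0 (by ring) h₁ h₂
    rw [htL] at h
    have h3 := obsU_le h x
    have h4 : (1 - t) * w₁ x ≤ w₁ x := by
      have := mul_nonneg ht0 (h₁.2.1 x)
      linarith
    have h5 : t * w₂ x ≤ 2 * d / L * w₂ x := mul_le_mul_of_nonneg_right htd (h₂.2.1 x)
    linarith
  have hq : 0 ≤ 2 * d / L := by positivity
  have key2 : ∀ w₂ ∈ SS μ (L / 2), obsU μ L x ≤ obsU μ (L + d) x + 2 * d / L * w₂ x := by
    intro w₂ h₂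
    rw [← sub_le_iff_le_add]
    refine le_obsU hne' fun w₁ h₁ => ?_
    have := key w₁ h₁ w₂ h₂
    linarith
  rcases hq.eq_or_lt with h0 | h0
  · obtain ⟨w₂, h₂⟩ := hne
    have := key2 w₂ h₂
    rw [← h0] at this ⊢
    simpa using this
  · have : (obsU μ L x - obsU μ (L + d) x) / (2 * d / L) ≤ obsU μ (L / 2) x := by
      refine le_obsU hne fun w₂ h₂ => ?_
      rw [div_le_iff₀ h0]
      have := key2 w₂ h₂
      linarith
    rw [div_le_iff₀ h0] at this
    linarith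

/-- translation -/
theorem obsU_translate {μ : ℂ → ℝ} (hμ : Continuous μ) {M : ℝ} (hM : ∀ x, |μ x| ≤ M) {L ε : ℝ}
    {a : ℂ} (hne : (SS μ L).Nonempty) (h : ∀ y, μ y ≤ μ (y + a) + ε) (x : ℂ) :
    obsU μ (L + ε) x ≤ obsU μ L (x + a) :=
  le_obsU hne fun _ hw => obsU_le (SS.translate hμ hM h hw) x

/-- continuity -/
theorem continuous_obsU {μ : ℂ → ℝ} (hμ : Continuous μ) (hs : HasCompactSupport μ) {L : ℝ}
    (hL : 0 < L) (hne : (SS μ (L / 2)).Nonempty) : Continuous (obsU μ L) := by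
  obtain ⟨M, hM⟩ := exists_bound hμ hs
  have hneL : (SS μ L).Nonempty := hne.mono (SS.mono (by linarith))
  obtain ⟨w, hw⟩ := hne
  have hne : (SS μ (L / 2)).Nonempty := ⟨w, hw⟩
  -- the basic inequality
  have basic : ∀ ε : ℝ, 0 ≤ ε → ∀ a : ℂ, (∀ y, μ y ≤ μ (y + a) + ε) → ∀ x,
      obsU μ L x ≤ obsU μ L (x + a) + 2 * ε / L * w x := by
    intro ε hε a h x
    have h1 := obsU_level hL hε hne x
    have h2 := obsU_translate hμ hM hneL h x
    have h3 : 2 * ε / L * obsU μ (L / 2) x ≤ 2 * ε / L * w x :=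
      mul_le_mul_of_nonneg_left (obsU_le hw x) (by positivity)
    linarith
  have huc : UniformContinuous μ := hs.uniformContinuous_of_continuous hμ
  rw [Metric.uniformContinuous_iff] at huc
  refine continuous_iff_continuousAt.2 fun x => ?_
  rw [Metric.continuousAt_iff]
  intro η hη
  -- a bound for `w` near `x`
  have hwx : ∀ᶠ z in 𝓝 x, w z < w x + 1 :=
    hw.1.continuousAt.eventually (gt_mem_nhds (by linarith))
  obtain ⟨δ₁, hδ₁, hw1⟩ := Metric.eventually_nhds_iff.1 hwx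
  have hB : 0 < w x + 1 := by
    have := hw.2.1 x
    linarith
  set ε : ℝ := η * L / (4 * (w x + 1)) with hε
  have hε0 : 0 < ε := by positivity
  obtain ⟨δ₂, hδ₂, hμ2⟩ := huc ε hε0
  have hfin : 2 * ε / L * (w x + 1) = η / 2 := by
    rw [hε]
    field_simp
    norm_num
  refine ⟨min δ₁ δ₂, lt_min hδ₁ hδ₂, fun {z} hz => ?_⟩
  have hz1 : dist z x < δ₁ := hz.trans_le (min_le_left _ _)
  have hz2 : dist z x < δ₂ := hz.trans_le (min_le_right _ _)
  have hA : ∀ y, μ y ≤ μ (y + (z - x)) + ε := by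
    intro y
    have h1 : dist y (y + (z - x)) < δ₂ := by
      rw [dist_eq_norm, show y - (y + (z - x)) = -(z - x) by ring, norm_neg, ← dist_eq_norm]
      exact hz2
    have h2 := hμ2 h1
    rw [Real.dist_eq] at h2
    linarith [(abs_lt.1 h2).2]
  have hB' : ∀ y, μ y ≤ μ (y + (x - z)) + ε := by
    intro y
    have h1 : dist y (y + (x - z)) < δ₂ := by
      rw [dist_eq_norm, show y - (y + (x - z)) = z - x by ring, ← dist_eq_norm]
      exact hz2
    have h2 := hμ2 h1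
    rw [Real.dist_eq] at h2
    linarith [(abs_lt.1 h2).2]
  have hA' := basic ε hε0.le _ hA x
  have hB'' := basic ε hε0.le _ hB' z
  rw [show x + (z - x) = z by ring] at hA'
  rw [show z + (x - z) = x by ring] at hB''
  have hq : 0 ≤ 2 * ε / L := by positivity
  have h5 : 2 * ε / L * w x ≤ η / 2 := by
    rw [← hfin]
    exact mul_le_mul_of_nonneg_left (by linarith) hq
  have h6 : 2 * ε / L * w z ≤ η / 2 := by
    rw [← hfin]
    exact mul_le_mul_of_nonneg_left (hw1 hz1).le hq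
  rw [Real.dist_eq, abs_lt]
  constructor <;> linarith

/-- the infimum is a supersolution -/
theorem obsU_mem {μ : ℂ → ℝ} (hμ : Continuous μ) (hs : HasCompactSupport μ) {L : ℝ}
    (hL : 0 < L) (hne : (SS μ (L / 2)).Nonempty) : obsU μ L ∈ SS μ L := by
  have hc := continuous_obsU hμ hs hL hne
  have hneL : (SS μ L).Nonempty := hne.mono (SS.mono (by linarith))
  refine ⟨hc, obsU_nonneg μ L, fun x r hr => ?_⟩
  have key : ∀ w ∈ SS μ L,
      Real.circleAverage (obsU μ L) x r - L * r ^ 2 / 4 + J r μ x ≤ w x := by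
    intro w hw
    have h1 : Real.circleAverage (obsU μ L) x r ≤ Real.circleAverage w x r :=
      Real.circleAverage_mono (circInt hc x hr) (circInt hw.1 x hr) fun z _ => obsU_le hw z
    have h2 := hw.2.2 x r hr
    linarith
  have := le_obsU hneL key
  linarith

/-! ### Compact support -/

/-- circle means of `‖z - c‖²` -/
theorem circleAverage_sqd (c x : ℂ) (r : ℝ) :
    Real.circleAverage (fun z => ‖z - c‖ ^ 2) x r = ‖x - c‖ ^ 2 + r ^ 2 := by
  have h1 : HarmonicOnNhd (fun z : ℂ => (2 * (starRingEnd ℂ (x - c) * z)).re) univ := by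
    intro z _
    have h2 : AnalyticAt ℂ (fun z : ℂ => 2 * (starRingEnd ℂ (x - c) * z)) z := by fun_prop
    exact h2.harmonicAt_re
  have h4 : ∀ z ∈ sphere x |r|, ‖z - c‖ ^ 2 = (2 * (starRingEnd ℂ (x - c) * z)).re +
      (‖x - c‖ ^ 2 + r ^ 2 - (2 * (starRingEnd ℂ (x - c) * x)).re) := by
    intro z hz
    have h5 : ‖z - x‖ = |r| := by simpa [mem_sphere_iff_norm] using hz
    have h6 : ‖z - x‖ ^ 2 = r ^ 2 := by rw [h5, sq_abs]
    rw [← Complex.normSq_eq_norm_sq, Complex.normSq_apply] at h6 ⊢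
    rw [← Complex.normSq_eq_norm_sq, Complex.normSq_apply]
    simp only [Complex.sub_re, Complex.sub_im, Complex.mul_re, Complex.mul_im, Complex.conj_re,
      Complex.conj_im, Complex.re_ofNat, Complex.im_ofNat] at h6 ⊢
    linarith
  have hint : CircleIntegrable (fun z : ℂ => (2 * (starRingEnd ℂ (x - c) * z)).re) x r :=
    (h1.continuousOn.mono (subset_univ _)).circleIntegrable'
  rw [Real.circleAverage_congr_sphere h4,
    Real.circleAverage_fun_add hint (circleIntegrable_const _ _ _), Real.circleAverage_const,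
    InnerProductSpace.HarmonicOnNhd.circleAverage_eq (h1.mono (subset_univ _))]
  ring

/-- a function which solves the equation where it is positive and which grows less than
`L |x|²/4` has compact support -/
theorem hasCompactSupport_of_growth {μ u : ℂ → ℝ} {L R K : ℝ} (hL : 0 < L)
    (hR : ∀ x, R < ‖x‖ → μ x = 0) (hc : Continuous u) (h0 : ∀ x, 0 ≤ u x)
    (hhar : ∀ x r, 0 < r → closedBall x r ⊆ {y | 0 < u y} →
      Real.circleAverage u x r = u x + L * r ^ 2 / 4 - J r μ x)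
    (hgr : ∀ x, u x ≤ L * ‖x‖ ^ 2 / 32 + K) : HasCompactSupport u := by
  set R' : ℝ := max R 0 with hR'
  have hR0 : 0 ≤ R' := le_max_right _ _
  set T : ℝ := 4 * R' + 8 + 8 * |K| / L with hT
  have hK0 : 0 ≤ 8 * |K| / L := by positivity
  refine HasCompactSupport.intro (isCompact_closedBall (0 : ℂ) T) fun x₀ hx₀ => ?_
  rw [mem_closedBall, dist_zero_right, not_le] at hx₀
  by_contra hne
  have hpos : 0 < u x₀ := lt_of_le_of_ne (h0 x₀) (Ne.symm hne)
  set t : ℝ := ‖x₀‖ with ht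
  set ρ : ℝ := t - R' with hρ
  have hρ0 : 0 < ρ := by linarith
  set V : Set ℂ := {y | 0 < u y} ∩ ball x₀ ρ with hV
  have hVo : IsOpen V := (isOpen_lt continuous_const hc).inter isOpen_ball
  have hVb : Bornology.IsBounded V := isBounded_ball.subset inter_subset_right
  have hfc : Continuous fun y => u y - (L / 4 * ‖y - x₀‖ ^ 2 + u x₀ / 2) := by fun_prop
  -- `μ` vanishes on the disc
  have hμ0 : ∀ z ∈ ball x₀ ρ, μ z = 0 := by
    intro z hz
    refine hR z ?_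
    rw [mem_ball_iff_norm] at hz
    have h1 : ‖x₀‖ ≤ ‖z‖ + ‖z - x₀‖ := by
      have := norm_sub_le z (z - x₀)
      rwa [sub_sub_cancel] at this
    have h2 : R ≤ R' := le_max_left _ _
    linarith
  have hsub : ∀ y ∈ V, SubAt (fun y => u y - (L / 4 * ‖y - x₀‖ ^ 2 + u x₀ / 2)) y := by
    intro y hy
    obtain ⟨ε, hε, hb⟩ := Metric.isOpen_iff.1 hVo y hy
    filter_upwards [self_mem_nhdsWithin, mem_nhdsWithin_of_mem_nhds (Iio_mem_nhds hε)]
      with r h1 h2
    have h1' : 0 < r := h1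
    have hcb : closedBall y r ⊆ V := (closedBall_subset_ball h2).trans hb
    have hJ : J r μ y = 0 := by
      rw [J]
      have : ∀ z : ℂ, Real.posLog (r / ‖z‖) * μ (y - z) = 0 := by
        intro z
        rcases lt_or_ge ‖z‖ r with hz | hz
        · rw [hμ0 (y - z) (hcb ?_).2, mul_zero]
          rw [mem_closedBall_iff_norm]
          simpa using hz.le
        · rw [posLog_div_eq_zero h1' hz, zero_mul]
      simp [this]
    have h3 := hhar y r h1' (hcb.trans inter_subset_left)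
    have h4 : Real.circleAverage (fun y => u y - (L / 4 * ‖y - x₀‖ ^ 2 + u x₀ / 2)) y r =
        Real.circleAverage u y r - (L / 4 * (‖y - x₀‖ ^ 2 + r ^ 2) + u x₀ / 2) := by
      rw [Real.circleAverage_fun_sub (circInt hc y h1')
        (circInt (w := fun y => L / 4 * ‖y - x₀‖ ^ 2 + u x₀ / 2) (by fun_prop) y h1'),
        Real.circleAverage_fun_add
        (circInt (w := fun y => L / 4 * ‖y - x₀‖ ^ 2) (by fun_prop) y h1')
        (circleIntegrable_const _ _ _), Real.circleAverage_const]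
      have e1 := Real.circleAverage_fun_smul (𝕜 := ℝ) (a := L / 4)
        (f := fun y : ℂ => ‖y - x₀‖ ^ 2) (c := y) (R := r)
      simp only [smul_eq_mul] at e1
      rw [e1, circleAverage_sqd x₀ y r]
    rw [h4, h3, hJ]
    linarith
  have hex : ∃ x₁ ∈ frontier V, 0 < u x₁ - (L / 4 * ‖x₁ - x₀‖ ^ 2 + u x₀ / 2) := by
    by_contra hcon
    push Not at hcon
    have := max_principle hVo hVb hfc.continuousOn hsub hcon x₀ ⟨hpos, mem_ball_self hρ0⟩
    simp only [sub_self, norm_zero] at this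
    linarith
  obtain ⟨x₁, hx₁, h₁⟩ := hex
  have hcl : x₁ ∈ closedBall x₀ ρ :=
    closure_ball_subset_closedBall (closure_mono inter_subset_right hx₁.1)
  have hnot : x₁ ∉ V := by
    have := hx₁.2
    rwa [hVo.interior_eq] at this
  have hsq : 0 ≤ L / 4 * ‖x₁ - x₀‖ ^ 2 := by positivity
  have hu1 : 0 < u x₁ := by linarith
  have hge : ρ ≤ ‖x₁ - x₀‖ := by
    by_contra hcon
    rw [not_le] at hcon
    exact hnot ⟨hu1, by rwa [mem_ball_iff_norm]⟩
  have hle : ‖x₁ - x₀‖ ≤ ρ := by rwa [← mem_closedBall_iff_norm]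
  have hn1 : ‖x₁‖ ≤ 2 * t := by
    have h1 : ‖x₁‖ ≤ ‖x₁ - x₀‖ + ‖x₀‖ := by
      have := norm_add_le (x₁ - x₀) x₀
      rwa [sub_add_cancel] at this
    linarith
  have hb1 := hgr x₁
  have hsq1 : ‖x₁‖ ^ 2 ≤ 4 * t ^ 2 := by nlinarith [norm_nonneg x₁]
  have hsq2 : ρ ^ 2 ≤ ‖x₁ - x₀‖ ^ 2 := by nlinarith
  have h5 : L / 4 * ρ ^ 2 < L * (4 * t ^ 2) / 32 + K := by
    have h6 : L / 4 * ρ ^ 2 ≤ L / 4 * ‖x₁ - x₀‖ ^ 2 := mul_le_mul_of_nonneg_left hsq2 (by linarith)
    have h7 : L * ‖x₁‖ ^ 2 / 32 ≤ L * (4 * t ^ 2) / 32 := by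
      have := mul_le_mul_of_nonneg_left hsq1 hL.le
      linarith
    linarith
  have h8 : |K| / L * L = |K| := div_mul_cancel₀ _ hL.ne'
  have h9 : K ≤ |K| := le_abs_self K
  have h10 : 0 ≤ |K| / L := by positivity
  have h11 : 8 * |K| / L = 8 * (|K| / L) := by ring
  -- `ρ² / 4 < t² / 8 + |K| / L`
  have h12 : ρ ^ 2 / 4 < t ^ 2 / 8 + |K| / L := by
    by_contra hcon
    rw [not_lt] at hcon
    have := mul_le_mul_of_nonneg_left hcon hL.le
    nlinarith
  have h13 : 4 * R' + 8 + 8 * (|K| / L) < t := by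
    rw [← h11]
    exact hx₀
  have h14 : t ^ 2 / 8 - t * R' / 2 < |K| / L := by
    rw [hρ] at h12
    nlinarith [sq_nonneg R']
  have h15 : 0 < t := by linarith
  nlinarith [mul_pos h15 (by linarith : 0 < t - 4 * R' - 8 - 8 * (|K| / L)),
    mul_nonneg h10 (by linarith : (0 : ℝ) ≤ t - 1)]

end Pool.Agent.Lib.QNL.Per
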