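import Pool.Agent.Lib.QNL.PerB
import Pool.Agent.Lib.QNL.O_PerC58

/-!
The obstacle family exists: `StmtExist`.
-/

set_option autoImplicit false

namespace Pool.Agent.Lib.QNL.Per

open MeasureTheory Filter Topology Set Metric
open scoped Real

theorem ss_nonempty {μ : ℂ → ℝ} (hμ : Continuous μ) (hs : HasCompactSupport μ)
    (h0 : ∀ x, 0 ≤ μ x) {L : ℝ} (hL : 0 < L) : (SS μ L).Nonempty := by
  obtain ⟨w, K, h1, h2, h3, -⟩ := ss_exists hμ hs h0 hL
  exact ⟨w, h1, h2, fun x r hr => (h3 x r hr).le⟩

theorem stmtExist : O.StmtExist := by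
  intro μ C hsrc
  have hμ := hsrc.cont
  have hs := hsrc.cpt
  have h0 := hsrc.nonneg
  obtain ⟨M, hM⟩ := exists_bound hμ hs
  have hne : ∀ {L : ℝ}, 0 < L → (SS μ L).Nonempty := fun hL => ss_nonempty hμ hs h0 hL
  have hcont : ∀ L, 0 < L → Continuous (obsU μ L) := fun L hL =>
    continuous_obsU hμ hs hL (hne (half_pos hL))
  have hmem : ∀ L, 0 < L → obsU μ L ∈ SS μ L := fun L hL => obsU_mem hμ hs hL (hne (half_pos hL))
  have hleast : ∀ L, 0 < L → ∀ w : ℂ → ℝ, Continuous w → (∀ x, 0 ≤ w x) →
      (∀ x r, 0 < r → Real.circleAverage w x r ≤ w x + L * r ^ 2 / 4 - J r μ x) →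
      ∀ x, obsU μ L x ≤ w x := fun L _ w h1 h2 h3 x => obsU_least w h1 h2 h3 x
  have hhar : ∀ L, 0 < L → ∀ x r, 0 < r → closedBall x r ⊆ {y | 0 < obsU μ L y} →
      Real.circleAverage (obsU μ L) x r = obsU μ L x + L * r ^ 2 / 4 - J r μ x :=
    fun L hL x r hr hsub => har_of hμ hs (hcont L hL) (hmem L hL).2.1 (hmem L hL).2.2
      (hleast L hL) hr hsub
  refine ⟨obsU μ, ?_⟩
  exact
    { src := hsrc
      cont := hcont
      cpt := by
        intro L hL
        obtain ⟨R, hR⟩ := hs.isCompact.isBounded.subset_closedBall (0 : ℂ)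
        have hR' : ∀ x, R < ‖x‖ → μ x = 0 := by
          intro x hx
          by_contra h
          have := hR (subset_tsupport μ h)
          rw [mem_closedBall_zero_iff] at this
          linarith
        obtain ⟨w, K, h1, h2, h3, h4⟩ := ss_exists hμ hs h0 (L := L / 8) (by positivity)
        have hw : w ∈ SS μ L :=
          SS.mono (by linarith : L / 8 ≤ L) ⟨h1, h2, fun x r hr => (h3 x r hr).le⟩
        refine hasCompactSupport_of_growth (K := K) hL hR' (hcont L hL) (hmem L hL).2.1
          (hhar L hL) fun x => ?_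
        have h5 := obsU_le hw x
        have h6 := h4 x
        linarith
      nonneg := fun L _ => obsU_nonneg μ L
      sup := fun L hL => (hmem L hL).2.2
      har := hhar
      sub := fun L hL x r hr => sub_of hμ hs h0 hL.le (hcont L hL) (hmem L hL).2.1
        (hhar L hL) x hr
      least := hleast
      anti := fun L L' hL h x => obsU_anti (hne hL) h x
      cmp := fun L L' hL hL' x a => obsU_cmp hμ hM (fun y => hsrc.semi y a) (hne hL) (hne hL') x
      top := fun L _ h x => obsU_top hμ hM h x }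

end Pool.Agent.Lib.QNL.Per
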