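import Pool.Agent.Lib.QNL.PerN
import Pool.Agent.Lib.QNL.OStmts

/-!
The Perron approach to the obstacle problem, part 2: from local to global mean value inequalities,
the class of supersolutions is not empty, the least supersolution solves `Δ u = L - μ` on
`{u > 0}` and satisfies `Δ u ≥ - μ`, all in the sense of circle means.
-/

set_option autoImplicit false

namespace Pool.Agent.Lib.QNL.Per

open MeasureTheory Filter Topology Set Metric Complex InnerProductSpace
open scoped Real

/-! ### Circle means of continuous functions -/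

theorem ci {f : ℂ → ℝ} (hf : Continuous f) (x : ℂ) (r : ℝ) : CircleIntegrable f x r :=
  hf.continuousOn.circleIntegrable'

theorem cav_add {f g : ℂ → ℝ} (hf : Continuous f) (hg : Continuous g) (x : ℂ) (r : ℝ) :
    Real.circleAverage (fun z => f z + g z) x r =
      Real.circleAverage f x r + Real.circleAverage g x r :=
  Real.circleAverage_fun_add (ci hf x r) (ci hg x r)

theorem cav_sub {f g : ℂ → ℝ} (hf : Continuous f) (hg : Continuous g) (x : ℂ) (r : ℝ) :
    Real.circleAverage (fun z => f z - g z) x r =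
      Real.circleAverage f x r - Real.circleAverage g x r :=
  Real.circleAverage_fun_sub (ci hf x r) (ci hg x r)

theorem cav_smul (c : ℝ) (f : ℂ → ℝ) (x : ℂ) (r : ℝ) :
    Real.circleAverage (fun z => c * f z) x r = c * Real.circleAverage f x r := by
  have := Real.circleAverage_fun_smul (a := c) (f := f) (c := x) (R := r)
  simpa only [smul_eq_mul] using this

theorem cav_neg (f : ℂ → ℝ) (x : ℂ) (r : ℝ) :
    Real.circleAverage (fun z => - f z) x r = - Real.circleAverage f x r := by
  have := cav_smul (-1) f x r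
  simpa using this

theorem cav_mono {f g : ℂ → ℝ} (hf : Continuous f) (hg : Continuous g) (h : ∀ z, f z ≤ g z)
    (x : ℂ) (r : ℝ) : Real.circleAverage f x r ≤ Real.circleAverage g x r :=
  Real.circleAverage_mono (ci hf x r) (ci hg x r) fun z _ => h z

theorem cav_nonneg {f : ℂ → ℝ} (hf : Continuous f) (h : ∀ z, 0 ≤ f z) (x : ℂ) (r : ℝ) :
    0 ≤ Real.circleAverage f x r := by
  have := cav_mono continuous_const hf h x r
  rwa [Real.circleAverage_const] at this

/-! ### From local to global -/

theorem pois_center {c : ℂ} {R : ℝ} (hR : 0 < R) (g : ℂ → ℝ) :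
    pois c R g c = Real.circleAverage g c R := by
  rw [pois, if_pos (mem_ball_self hR)]
  refine Real.circleAverage_congr_sphere fun z hz => ?_
  rw [abs_of_pos hR] at hz
  have h1 : ‖z - c‖ = R := mem_sphere_iff_norm.1 hz
  rw [poissonKernel_def, sub_self, norm_zero, sub_zero, h1]
  have : (R : ℝ) ≠ 0 := hR.ne'
  field_simp
  ring

theorem SubAt.sub_mean {f g : ℂ → ℝ} {x : ℂ} {U : Set ℂ} (hU : U ∈ 𝓝 x)
    (hfc : ContinuousOn f U) (hgc : ContinuousOn g U) (hf : SubAt f x) (hg : MeanAt g x) :
    SubAt (fun z => f z - g z) x := by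
  obtain ⟨ρ, hρ, hb⟩ := Metric.mem_nhds_iff.1 hU
  filter_upwards [hf, hg, self_mem_nhdsWithin, mem_nhdsWithin_of_mem_nhds (Iio_mem_nhds hρ)]
    with r h1 h2 h3 h4
  rw [Real.circleAverage_fun_sub (circleIntegrable_of_continuousOn_ball (hfc.mono hb) h3 h4)
    (circleIntegrable_of_continuousOn_ball (hgc.mono hb) h3 h4), h2]
  linarith

/-- from local to global: the sub-mean value property -/
theorem sub_of_local {f : ℂ → ℝ} {x : ℂ} {r : ℝ} (hr : 0 < r)
    (hf : ContinuousOn f (closedBall x r)) (hs : ∀ y ∈ ball x r, SubAt f y) :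
    f x ≤ Real.circleAverage f x r := by
  obtain ⟨g, hg⟩ := ContinuousMap.exists_restrict_eq (isClosed_closedBall (x := x) (ε := r))
    (⟨_, (continuousOn_iff_continuous_domRestrict.1 hf)⟩ : C(closedBall x r, ℝ))
  have hgf : ∀ z ∈ closedBall x r, g z = f z := by
    intro z hz
    have := DFunLike.congr_fun hg ⟨z, hz⟩
    simpa using this
  have hgm : ∀ y ∈ ball x r, SubAt g y := by
    intro y hy
    obtain ⟨ρ, hρ, hb⟩ := Metric.isOpen_iff.1 isOpen_ball y hy
    filter_upwards [hs y hy, self_mem_nhdsWithin, mem_nhdsWithin_of_mem_nhds (Iio_mem_nhds hρ)]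
      with s h1 h2 h3
    rw [hgf y (ball_subset_closedBall hy)]
    refine h1.trans (le_of_eq (Real.circleAverage_congr_sphere fun z hz => ?_))
    rw [abs_of_pos h2] at hz
    refine (hgf z (ball_subset_closedBall (hb ?_))).symm
    rw [mem_ball, mem_sphere.1 hz]
    exact h3
  have hgc : Continuous g := g.continuous
  have hpc := continuous_pois (c := x) (R := r) hgc
  have hcmp := comparison isOpen_ball isBounded_ball (U := ball x r) hgc.continuousOn
    hpc.continuousOn (fun y hy => SubAt.sub_mean univ_mem hgc.continuousOn hpc.continuousOn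
      (hgm y hy) (meanAt_of_harmonic isOpen_ball (harmonicOnNhd_pois x r hgc.continuousOn) hy))
    (fun y hy => by
      rw [frontier_ball x hr.ne'] at hy
      rw [pois, if_neg]
      intro h
      rw [mem_ball, mem_sphere.1 hy] at h
      exact lt_irrefl _ h) x (mem_ball_self hr)
  rw [pois_center hr, hgf x (mem_closedBall_self hr.le)] at hcmp
  refine hcmp.trans (le_of_eq (Real.circleAverage_congr_sphere fun z hz => ?_))
  rw [abs_of_pos hr] at hz
  exact hgf z (sphere_subset_closedBall hz)

/-- from local to global: the super-mean value property -/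
theorem sup_of_local {f : ℂ → ℝ} {x : ℂ} {r : ℝ} (hr : 0 < r)
    (hf : ContinuousOn f (closedBall x r)) (hs : ∀ y ∈ ball x r, SubAt (fun z => - f z) y) :
    Real.circleAverage f x r ≤ f x := by
  have := sub_of_local hr hf.neg hs
  have e := cav_neg f x r
  have e2 : (-f) = fun z => - f z := rfl
  rw [e2, e] at this
  linarith

/-- from local to global: the mean value property -/
theorem mean_of_local {f : ℂ → ℝ} {x : ℂ} {r : ℝ} (hr : 0 < r)
    (hf : ContinuousOn f (closedBall x r)) (hs : ∀ y ∈ ball x r, MeanAt f y) :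
    Real.circleAverage f x r = f x :=
  le_antisymm (sup_of_local hr hf fun y hy => (hs y hy).neg.subAt)
    (sub_of_local hr hf fun y hy => (hs y hy).subAt)

/-! ### The particular solution -/

theorem circleAverage_sq (x : ℂ) {r : ℝ} (hr : 0 < r) :
    Real.circleAverage (fun z : ℂ => ‖z‖ ^ 2) x r = ‖x‖ ^ 2 + r ^ 2 := by
  have hh : HarmonicOnNhd (fun z : ℂ => (2 * (starRingEnd ℂ x) * z).re) (closedBall x |r|) := by
    intro z _
    have : AnalyticAt ℂ (fun z : ℂ => 2 * (starRingEnd ℂ x) * z) z := by fun_prop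
    exact this.harmonicAt_re
  have h1 := InnerProductSpace.HarmonicOnNhd.circleAverage_eq hh
  have h2 : Real.circleAverage (fun z : ℂ => ‖z‖ ^ 2) x r =
      Real.circleAverage (fun z : ℂ => (2 * (starRingEnd ℂ x) * z).re + (r ^ 2 - ‖x‖ ^ 2)) x r := by
    refine Real.circleAverage_congr_sphere fun z hz => ?_
    rw [abs_of_pos hr] at hz
    have h3 : ‖z - x‖ = r := mem_sphere_iff_norm.1 hz
    rw [← h3, ← Complex.normSq_eq_norm_sq, ← Complex.normSq_eq_norm_sq, ← Complex.normSq_eq_norm_sq,
      Complex.normSq_apply, Complex.normSq_apply, Complex.normSq_apply]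
    simp only [Complex.mul_re, Complex.mul_im, Complex.conj_re, Complex.conj_im, Complex.sub_re,
      Complex.sub_im, Complex.re_ofNat, Complex.im_ofNat]
    ring
  rw [h2, cav_add (by fun_prop) continuous_const, h1, Real.circleAverage_const]
  have h4 : (2 * (starRingEnd ℂ x) * x).re = 2 * ‖x‖ ^ 2 := by
    rw [← Complex.normSq_eq_norm_sq, Complex.normSq_apply]
    simp only [Complex.mul_re, Complex.mul_im, Complex.conj_re, Complex.conj_im,
      Complex.re_ofNat, Complex.im_ofNat]
    ring
  rw [h4]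
  ring

/-- the particular solution of `Δ p = L - μ` -/
noncomputable def part (μ : ℂ → ℝ) (L : ℝ) (x : ℂ) : ℝ := L / 4 * ‖x‖ ^ 2 - N μ x

theorem continuous_part {μ : ℂ → ℝ} (hμ : Continuous μ) (hs : HasCompactSupport μ) (L : ℝ) :
    Continuous (part μ L) :=
  (by fun_prop : Continuous fun x : ℂ => L / 4 * ‖x‖ ^ 2).sub (continuous_N hμ hs)

theorem J_eq_O (r : ℝ) (μ : ℂ → ℝ) (x : ℂ) : O.J r μ x = J r μ x := rfl

theorem circleAverage_part {μ : ℂ → ℝ} (hμ : Continuous μ) (hs : HasCompactSupport μ) (L : ℝ)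
    (x : ℂ) {r : ℝ} (hr : 0 < r) :
    Real.circleAverage (part μ L) x r = part μ L x + L * r ^ 2 / 4 - J r μ x := by
  have e : part μ L = fun x => L / 4 * ‖x‖ ^ 2 - N μ x := rfl
  rw [e, cav_sub (by fun_prop) (continuous_N hμ hs), cav_smul, circleAverage_sq x hr,
    circleAverage_N hμ hs x hr]
  ring

/-- the class of supersolutions is not empty, with quadratic growth with a small constant -/
theorem ss_exists {μ : ℂ → ℝ} (hμ : Continuous μ) (hs : HasCompactSupport μ)
    (h0 : ∀ x, 0 ≤ μ x) {L : ℝ} (hL : 0 < L) : ∃ (w : ℂ → ℝ) (K : ℝ), Continuous w ∧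
      (∀ x, 0 ≤ w x) ∧
      (∀ x r, 0 < r → Real.circleAverage w x r = w x + L * r ^ 2 / 4 - J r μ x) ∧
      ∀ x, w x ≤ L / 4 * ‖x‖ ^ 2 + K := by
  obtain ⟨M, hM⟩ := exists_bound hμ hs
  have hM' : ∀ x, μ x ≤ M := fun x => (le_abs_self _).trans (hM x)
  obtain ⟨R, hR⟩ := hs.isCompact.isBounded.subset_closedBall (0 : ℂ)
  have hR' : ∀ x, R < ‖x‖ → μ x = 0 := by
    intro x hx
    by_contra h
    have := hR (subset_tsupport μ h)
    rw [mem_closedBall_zero_iff] at this
    linarith
  set m : ℝ := (2 * π)⁻¹ * ∫ y, μ y with hm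
  set K₀ : ℝ := m ^ 2 / L + m * R with hK₀
  refine ⟨fun x => part μ L x + K₀, M / 4 + K₀, (continuous_part hμ hs L).add continuous_const,
    fun x => ?_, fun x r hr => ?_, fun x => ?_⟩
  · have h1 := N_le hμ hs h0 hR' x
    have h2 : N μ x ≤ m * (‖x‖ + R) := by
      rw [hm]
      linarith
    have h3 : m * ‖x‖ ≤ L / 4 * ‖x‖ ^ 2 + m ^ 2 / L := by
      have : 0 ≤ (L * ‖x‖ / 2 - m) ^ 2 / L := div_nonneg (sq_nonneg _) hL.le
      have e : (L * ‖x‖ / 2 - m) ^ 2 / L = L / 4 * ‖x‖ ^ 2 + m ^ 2 / L - m * ‖x‖ := by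
        field_simp
        ring
      linarith
    simp only [part]
    linarith
  · rw [cav_add (continuous_part hμ hs L) continuous_const, circleAverage_part hμ hs L x hr,
      Real.circleAverage_const]
    ring
  · have := le_N hμ hs h0 hM' x
    simp only [part]
    linarith

/-! ### The least supersolution -/

/-- the least supersolution solves the equation on `{u > 0}` -/
theorem har_of {μ : ℂ → ℝ} (hμ : Continuous μ) (hs : HasCompactSupport μ) {L : ℝ}
    {u : ℂ → ℝ} (hu : Continuous u) (h0 : ∀ x, 0 ≤ u x)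
    (hsup : ∀ x r, 0 < r → Real.circleAverage u x r ≤ u x + L * r ^ 2 / 4 - J r μ x)
    (hleast : ∀ w : ℂ → ℝ, Continuous w → (∀ x, 0 ≤ w x) →
      (∀ x r, 0 < r → Real.circleAverage w x r ≤ w x + L * r ^ 2 / 4 - J r μ x) →
        ∀ x, u x ≤ w x)
    {x₀ : ℂ} {R : ℝ} (hR : 0 < R) (hsub : closedBall x₀ R ⊆ {y | 0 < u y}) :
    Real.circleAverage u x₀ R = u x₀ + L * R ^ 2 / 4 - J R μ x₀ := by
  have hp := continuous_part hμ hs L
  set p := part μ L with hpdef
  have hpm : ∀ y s, 0 < s → Real.circleAverage p y s = p y + L * s ^ 2 / 4 - J s μ y :=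
    fun y s h => circleAverage_part hμ hs L y h
  set g : ℂ → ℝ := fun z => u z - p z with hg
  have hgc : Continuous g := hu.sub hp
  have hgm : ∀ y s, 0 < s → Real.circleAverage g y s ≤ g y := by
    intro y s h
    rw [hg, cav_sub hu hp, hpm y s h]
    linarith [hsup y s h]
  set h : ℂ → ℝ := pois x₀ R g with hh
  have hhc : Continuous h := continuous_pois hgc
  have hoff : ∀ z, z ∉ ball x₀ R → h z = g z := fun z hz => by rw [hh, pois, if_neg hz]
  have hmean : ∀ y ∈ ball x₀ R, MeanAt h y := fun y hy =>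
    meanAt_of_harmonic isOpen_ball (harmonicOnNhd_pois x₀ R hgc.continuousOn) hy
  have hle : ∀ z, h z ≤ g z := by
    intro z
    by_cases hz : z ∈ ball x₀ R
    · refine comparison isOpen_ball isBounded_ball hhc.continuousOn hgc.continuousOn
        (fun y hy => ?_) (fun y hy => ?_) z hz
      · filter_upwards [hmean y hy, self_mem_nhdsWithin] with s h1 h2
        rw [cav_sub hhc hgc, h1]
        linarith [hgm y s h2]
      · rw [frontier_ball x₀ hR.ne'] at hy
        refine (hoff y fun h' => ?_).le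
        rw [mem_ball, mem_sphere.1 hy] at h'
        exact lt_irrefl _ h'
    · exact (hoff z hz).le
  have hsuper : ∀ y, SubAt (fun z => - h z) y := by
    intro y
    by_cases hy : y ∈ ball x₀ R
    · exact (hmean y hy).neg.subAt
    · filter_upwards [self_mem_nhdsWithin] with s h2
      rw [cav_neg, hoff y hy]
      have h1 := cav_mono hhc hgc hle y s
      have h3 := hgm y s h2
      linarith
  have hhm : ∀ y s, 0 < s → Real.circleAverage h y s ≤ h y := fun y s h' =>
    sup_of_local h' hhc.continuousOn fun z _ => hsuper z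
  set w : ℂ → ℝ := fun z => h z + p z with hw
  have hwc : Continuous w := hhc.add hp
  have hwm : ∀ y s, 0 < s → Real.circleAverage w y s ≤ w y + L * s ^ 2 / 4 - J s μ y := by
    intro y s h'
    rw [hw, cav_add hhc hp, hpm y s h']
    linarith [hhm y s h']
  have hwoff : ∀ z, z ∉ ball x₀ R → w z = u z := by
    intro z hz
    rw [hw]
    simp only
    rw [hoff z hz, hg]
    ring
  -- bounds on the closed disc
  obtain ⟨z₁, hz₁, hmin⟩ := (isCompact_closedBall x₀ R).exists_isMinOn
    ⟨x₀, mem_closedBall_self hR.le⟩ hu.continuousOn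
  have hδ : 0 < u z₁ := hsub hz₁
  obtain ⟨B, hB⟩ := (isCompact_closedBall x₀ R).exists_bound_of_continuousOn hwc.continuousOn
  have hB' : ∀ z ∈ closedBall x₀ R, |w z| ≤ B := hB
  have hB0 : 0 ≤ B := (abs_nonneg _).trans (hB' z₁ hz₁)
  set δ := u z₁
  set t : ℝ := δ / (δ + B) with ht
  have ht0 : 0 < t := by positivity
  have ht1 : t ≤ 1 := (div_le_one (by positivity)).2 (by linarith)
  have htB : (1 - t) * δ = t * B := by
    rw [ht]
    field_simp
    ring
  have hkey := hleast (fun z => (1 - t) * u z + t * w z)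
    ((continuous_const.mul hu).add (continuous_const.mul hwc)) (fun z => ?_) (fun y s h' => ?_)
  · have h1 := hkey x₀
    have h2 : u x₀ ≤ w x₀ := by
      by_contra hcon
      rw [not_le] at hcon
      nlinarith
    have h3 : w x₀ = h x₀ + p x₀ := rfl
    have h4 : h x₀ = Real.circleAverage g x₀ R := pois_center hR g
    have h5 : Real.circleAverage g x₀ R = Real.circleAverage u x₀ R - (p x₀ + L * R ^ 2 / 4 -
        J R μ x₀) := by
      rw [hg, cav_sub hu hp, hpm x₀ R hR]
    have h6 := hsup x₀ R hR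
    linarith
  · by_cases hz : z ∈ ball x₀ R
    · have h1 : δ ≤ u z := hmin (ball_subset_closedBall hz)
      have h2 := abs_le.1 (hB' z (ball_subset_closedBall hz))
      have h3 : (1 - t) * δ ≤ (1 - t) * u z := mul_le_mul_of_nonneg_left h1 (by linarith)
      have h4 : t * (-B) ≤ t * w z := mul_le_mul_of_nonneg_left h2.1 ht0.le
      linarith
    · rw [hwoff z hz]
      linarith [h0 z]
  · have c1 : Continuous fun z => (1 - t) * u z := continuous_const.mul hu
    have c2 : Continuous fun z => t * w z := continuous_const.mul hwc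
    rw [cav_add c1 c2, cav_smul, cav_smul]
    have h1 := mul_le_mul_of_nonneg_left (hsup y s h') (by linarith : 0 ≤ 1 - t)
    have h2 := mul_le_mul_of_nonneg_left (hwm y s h') ht0.le
    linarith

/-- the least supersolution: `Δ u ≥ - μ` -/
theorem sub_of {μ : ℂ → ℝ} (hμ : Continuous μ) (hs : HasCompactSupport μ)
    (hμ0 : ∀ x, 0 ≤ μ x) {L : ℝ} (hL : 0 ≤ L)
    {u : ℂ → ℝ} (hu : Continuous u) (h0 : ∀ x, 0 ≤ u x)
    (hhar : ∀ x r, 0 < r → closedBall x r ⊆ {y | 0 < u y} →
      Real.circleAverage u x r = u x + L * r ^ 2 / 4 - J r μ x)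
    (x : ℂ) {r : ℝ} (hr : 0 < r) : u x - J r μ x ≤ Real.circleAverage u x r := by
  have hN := continuous_N hμ hs
  have hsub : ∀ y, SubAt (fun z => u z + N μ z) y := by
    intro y
    rcases (h0 y).eq_or_lt with hy | hy
    · filter_upwards [self_mem_nhdsWithin] with s h2
      rw [cav_add hu hN, circleAverage_N hμ hs y h2]
      have h1 := cav_nonneg hu h0 y s
      have h3 := J_nonneg (r := s) hμ0 y
      linarith
    · obtain ⟨ρ, hρ, hb⟩ := Metric.isOpen_iff.1 (isOpen_lt continuous_const hu) y hy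
      filter_upwards [self_mem_nhdsWithin, mem_nhdsWithin_of_mem_nhds (Iio_mem_nhds hρ)]
        with s h2 h3
      have h2' : 0 < s := h2
      rw [cav_add hu hN, circleAverage_N hμ hs y h2,
        hhar y s h2 ((closedBall_subset_ball h3).trans hb)]
      have : 0 ≤ L * s ^ 2 / 4 := by positivity
      linarith
  have hc : Continuous fun z => u z + N μ z := hu.add hN
  have := sub_of_local (x := x) hr hc.continuousOn fun y _ => hsub y
  rw [cav_add hu hN, circleAverage_N hμ hs x hr] at this
  linarith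

/-- (O-A0) -/
theorem stmtJ : O.StmtJ := by
  intro μ hμ hs x r b hr
  obtain ⟨M, hM⟩ := exists_bound hμ hs
  refine ⟨fun h => ?_, fun h => ?_⟩
  · have := J_le hr hμ hM (x := x) (c := b) fun z hz => h z (ball_subset_closedBall hz)
    rw [J_eq_O]
    linarith
  · have := le_J hr hμ hM (x := x) (c := b) fun z hz => h z (ball_subset_closedBall hz)
    rw [J_eq_O]
    linarith

end Pool.Agent.Lib.QNL.Per
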