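import Pool.Agent.Lib.QNL.PerB

/-!
The Perron approach to the obstacle problem, part 3: the least supersolution has compact support.
-/

set_option autoImplicit false

namespace Pool.Agent.Lib.QNL.Per

open MeasureTheory Filter Topology Set Metric Complex InnerProductSpace
open scoped Real

theorem circleAverage_sq_sub (c x : ℂ) {r : ℝ} (hr : 0 < r) :
    Real.circleAverage (fun z : ℂ => ‖z - c‖ ^ 2) x r = ‖x - c‖ ^ 2 + r ^ 2 := by
  have hh : HarmonicOnNhd (fun z : ℂ => (-2 * (starRingEnd ℂ c) * z).re) (closedBall x |r|) := by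
    intro z _
    have : AnalyticAt ℂ (fun z : ℂ => -2 * (starRingEnd ℂ c) * z) z := by fun_prop
    exact this.harmonicAt_re
  have h1 := InnerProductSpace.HarmonicOnNhd.circleAverage_eq hh
  have key : ∀ z : ℂ, ‖z - c‖ ^ 2 =
      ‖z‖ ^ 2 + ((-2 * (starRingEnd ℂ c) * z).re + ‖c‖ ^ 2) := by
    intro z
    rw [← Complex.normSq_eq_norm_sq, ← Complex.normSq_eq_norm_sq, ← Complex.normSq_eq_norm_sq,
      Complex.normSq_apply, Complex.normSq_apply, Complex.normSq_apply]
    simp only [Complex.mul_re, Complex.mul_im, Complex.conj_re, Complex.conj_im, Complex.sub_re,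
      Complex.sub_im, Complex.re_ofNat, Complex.im_ofNat, Complex.neg_re, Complex.neg_im]
    ring
  have h2 : (fun z : ℂ => ‖z - c‖ ^ 2) =
      fun z => ‖z‖ ^ 2 + ((-2 * (starRingEnd ℂ c) * z).re + ‖c‖ ^ 2) := funext key
  have c1 : Continuous fun z : ℂ => ‖z‖ ^ 2 := by fun_prop
  have c2 : Continuous fun z : ℂ => (-2 * (starRingEnd ℂ c) * z).re := by fun_prop
  have c3 : Continuous fun z : ℂ => (-2 * (starRingEnd ℂ c) * z).re + ‖c‖ ^ 2 := by fun_prop
  rw [h2, cav_add c1 c3, circleAverage_sq x hr,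
    cav_add c2 continuous_const, h1, Real.circleAverage_const]
  have := key x
  linarith

/-- a solution with slow quadratic growth has compact support -/
theorem cpt_of {μ : ℂ → ℝ} (hμ : Continuous μ) (hs : HasCompactSupport μ) {L K : ℝ} (hL : 0 < L)
    {u : ℂ → ℝ} (hu : Continuous u) (h0 : ∀ x, 0 ≤ u x)
    (hhar : ∀ x r, 0 < r → closedBall x r ⊆ {y | 0 < u y} →
      Real.circleAverage u x r = u x + L * r ^ 2 / 4 - J r μ x)
    (hK : ∀ x, u x ≤ L / 32 * ‖x‖ ^ 2 + K) : HasCompactSupport u := by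
  obtain ⟨M, hM⟩ := exists_bound hμ hs
  obtain ⟨R₀, hR₀⟩ := hs.isCompact.isBounded.subset_closedBall (0 : ℂ)
  set R : ℝ := max R₀ 0 with hR
  have hRR : R₀ ≤ R := le_max_left _ _
  have hR0 : 0 ≤ R := le_max_right _ _
  have hR' : ∀ x, R < ‖x‖ → μ x = 0 := by
    intro x hx
    by_contra h
    have := hR₀ (subset_tsupport μ h)
    rw [mem_closedBall_zero_iff] at this
    linarith
  set T : ℝ := 8 * R + 16 * |K| / L + 1 with hT
  refine HasCompactSupport.intro (isCompact_closedBall (0 : ℂ) T) fun x₀ hx₀ => ?_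
  rw [mem_closedBall_zero_iff, not_le] at hx₀
  by_contra hne
  have hpos : 0 < u x₀ := lt_of_le_of_ne (h0 x₀) (Ne.symm hne)
  have hKL : 0 ≤ 16 * |K| / L := by positivity
  set t := ‖x₀‖ with ht
  set ρ : ℝ := t - R with hρ
  have ht1 : 1 < t := by linarith
  have ht8 : 8 * R < t := by linarith
  have htK : 16 * |K| / L < t := by linarith
  have hρ0 : 0 < ρ := by linarith
  have htK' : 16 * |K| < t * L := (div_lt_iff₀ hL).1 htK
  have hbig : L / 8 * t ^ 2 + K < L / 4 * ρ ^ 2 := by
    have h1 : 7 / 8 * t ≤ ρ := by linarith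
    have h2 : (7 / 8 * t) ^ 2 ≤ ρ ^ 2 := by gcongr
    have h3 : K ≤ |K| := le_abs_self K
    have h4 : t * L ≤ t ^ 2 * L := mul_le_mul_of_nonneg_right (by nlinarith) hL.le
    have h5 : L / 4 * (7 / 8 * t) ^ 2 ≤ L / 4 * ρ ^ 2 := by gcongr
    nlinarith
  -- the domain
  set V : Set ℂ := {y | 0 < u y} ∩ ball x₀ ρ with hV
  have hVo : IsOpen V := (isOpen_lt continuous_const hu).inter isOpen_ball
  have hVb : Bornology.IsBounded V := isBounded_ball.subset inter_subset_right
  have cq : Continuous fun z : ℂ => L / 4 * ‖z - x₀‖ ^ 2 := by fun_prop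
  have hmax := max_principle hVo hVb (f := fun z => u z - L / 4 * ‖z - x₀‖ ^ 2)
    (hu.sub cq).continuousOn (fun x hx => ?_) (fun x hx => ?_) x₀ ⟨hpos, mem_ball_self hρ0⟩
  · simp only [sub_self, norm_zero] at hmax
    linarith
  · obtain ⟨ε, hε, hb⟩ := Metric.isOpen_iff.1 hVo x hx
    filter_upwards [self_mem_nhdsWithin, mem_nhdsWithin_of_mem_nhds (Iio_mem_nhds hε)]
      with s h2 h3
    have h2' : 0 < s := h2
    have hcb : closedBall x s ⊆ V := (closedBall_subset_ball h3).trans hb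
    rw [cav_sub hu cq, hhar x s h2' (fun z hz => (hcb hz).1), cav_smul,
      circleAverage_sq_sub x₀ x h2']
    have hJ : J s μ x ≤ 0 * (s ^ 2 / 4) := by
      refine J_le h2' hμ hM fun z hz => (hR' z ?_).le
      have h4 : z ∈ ball x₀ ρ := (hcb (ball_subset_closedBall hz)).2
      rw [mem_ball_iff_norm] at h4
      have h5 : ‖x₀‖ ≤ ‖z‖ + ‖z - x₀‖ := by
        have := norm_sub_le z (z - x₀)
        rwa [sub_sub_cancel] at this
      linarith
    linarith
  · have hcl : x ∈ closedBall x₀ ρ :=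
      (closure_mono (inter_subset_right (s := {y | 0 < u y}) (t := ball x₀ ρ))).trans
        closure_ball_subset_closedBall hx.1
    have hnot : x ∉ V := by
      have := hx.2
      rwa [hVo.interior_eq] at this
    have hnorm : ‖x - x₀‖ ≤ ρ := mem_closedBall_iff_norm.1 hcl
    rcases hnorm.lt_or_eq with h | h
    · have h1 : ¬ 0 < u x := fun h' => hnot ⟨h', mem_ball_iff_norm.2 h⟩
      have h2 : 0 ≤ L / 4 * ‖x - x₀‖ ^ 2 := by positivity
      linarith
    · rw [h]
      have h1 := hK x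
      have h2 : ‖x‖ ≤ 2 * t := by
        have := norm_add_le x₀ (x - x₀)
        rw [add_sub_cancel] at this
        linarith
      have h3 : ‖x‖ ^ 2 ≤ (2 * t) ^ 2 := by gcongr
      nlinarith

end Pool.Agent.Lib.QNL.Per
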