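import Pool.Agent.Lib.QNL.PolyPos

/-!
# The polynomial inequality of the final certificate

Notation: `η = (w/(1-w))(1-s)`, `s = x^r`, `N`, `Q` the numerator and denominator of the one-pole
majorant `U = (F/a) η N/Q` of the quadratic form, `U'` its derivative,
`q = 2/r - 1 = (2a-1+w)/(1-w)`.

`Key a w be mu F K e` : for every `X` between the two elementary bounds of `x^2 = s^(1+q)`
`0 ≤ η (X (B + th U - w s U') - B + w lam (1+η) - 2 a e η)`.
-/

set_option autoImplicit false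

namespace Pool.Agent.Lib.QNL.Poly66

open Pool.Agent.Lib.QNL.PolyPos

section generic

variable {R : Type} [Add R] [Sub R] [Mul R] [Neg R] [OfNat R 1] [OfNat R 2]

/-- `n0 = 1 + mu a (1-a)` -/
def gn0 (a mu : R) : R := 1 + mu * a * (1 - a)
/-- `n1 = -be - mu (1-a)^2` -/
def gn1 (a be mu : R) : R := -be - mu * (1 - a) * (1 - a)
/-- `d1 = -a - be (1-a) - mu (1-a)` -/
def gd1 (a be mu : R) : R := -a - be * (1 - a) - mu * (1 - a)
/-- `d2 = a be` -/
def gd2 (a be : R) : R := a * be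

/-- `c N` at `η = u / c` -/
def gN (n0 n1 c u : R) : R := n0 * c + n1 * u
/-- `c² Q` -/
def gQ (d0 d1 d2 c u : R) : R := d0 * c * c + d1 * u * c + d2 * u * u
/-- `c² R'` -/
def gR1 (n0 n1 d0 d1 d2 c u : R) : R :=
  n0 * d0 * c * c + n1 * d0 * u * c * 2 + (n1 * d1 - n0 * d2) * u * u
/-- `c³ R''` -/
def gR2 (n0 n1 d0 d1 d2 c u : R) : R :=
  n1 * d0 * d0 * c * c * c * 2 + (n1 * d1 - n0 * d2) * d0 * u * c * c -
    n0 * (d1 * c + d2 * u) * (d0 * c * c * 2 + u * (d1 * c + d2 * u))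

/-- the polynomial -/
def gP (a w F K e n0 n1 d0 d1 d2 c u sw Gn M : R) : R :=
  M * w * d0 * ((2 * a - 1) * F * gN n0 n1 c u * gQ d0 d1 d2 c u * c +
      (1 - w) * F * gR1 n0 n1 d0 d1 d2 c u * c * c)
    - M * w * w * F * gR2 n0 n1 d0 d1 d2 c u * c
    + M * w * w * F * n0 * gQ d0 d1 d2 c u * gQ d0 d1 d2 c u
    - M * 2 * a * a * e * d0 * w * gQ d0 d1 d2 c u * gQ d0 d1 d2 c u
    - (1 - w) * Gn * d0 * ((1 - K + (2 * a - 1) * e) * a * gQ d0 d1 d2 c u * gQ d0 d1 d2 c u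
      + (2 * a - 1) * u * F * gN n0 n1 c u * gQ d0 d1 d2 c u
      - sw * F * gR1 n0 n1 d0 d1 d2 c u * c * c)

/-- right side (`s ≤ 1`), lower bound of `x²` -/
def gRL (a w be mu F K e s : R) : R :=
  gP a w F K e (gn0 a mu) (gn1 a be mu) (1 - a) (gd1 a be mu) (gd2 a be) (1 - w) (w * (1 - s))
    (w * s) (s * (1 - w) + (2 * a - 1 + w)) (2 * a - 1 + w + ((1 - w) - (2 * a - 1 + w)) * s)

/-- right side (`s ≤ 1`), upper bound of `x²` -/
def gRU (a w be mu F K e s : R) : R :=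
  gP a w F K e (gn0 a mu) (gn1 a be mu) (1 - a) (gd1 a be mu) (gd2 a be) (1 - w) (w * (1 - s))
    (w * s) ((1 - w) + (2 * a - 1 + w) * s) (1 - w)

/-- left side (`s ≥ 1`, `h = -η`), lower bound of `x²` -/
def gLL (a w be mu F K e h : R) : R :=
  gP a w F K e (gn0 a mu) (gn1 a be mu) (1 - a) (gd1 a be mu) (gd2 a be) 1 (-h)
    (w + (1 - w) * h) ((1 - w) * (w + (1 - w) * h) + (2 * a - 1 + w) * w)
    ((2 * a - 1 + w) * w + ((1 - w) - (2 * a - 1 + w)) * (w + (1 - w) * h))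

/-- left side (`s ≥ 1`, `h = -η`), upper bound of `x²` -/
def gLP (a w be mu F K e h : R) : R :=
  gP a w F K e (gn0 a mu) (gn1 a be mu) (1 - a) (gd1 a be mu) (gd2 a be) 1 (-h)
    (w + (1 - w) * h)
    ((1 - w) * w * (w + (1 - w) * h) * 2 +
      (2 * a - 1 + w) * (w * w + (w + (1 - w) * h) * (w + (1 - w) * h)))
    ((1 - w) * w * (w * 2 + ((1 - w) * 2 - (2 * a - 1 + w)) * h))

end generic

/-! ### the real inequality -/

/-- `N = 1 - be η + mu (1-a)(a - (1-a) η)` -/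
noncomputable def Nf (a be mu η : ℝ) : ℝ := 1 - be * η + mu * (1 - a) * (a - (1 - a) * η)
/-- its derivative -/
noncomputable def Nf' (a be mu : ℝ) : ℝ := -be - mu * (1 - a) * (1 - a)
/-- `Q = (1 - a - a η)(1 - be η) - mu (1-a) η` -/
noncomputable def Qf (a be mu η : ℝ) : ℝ :=
  (1 - a - a * η) * (1 - be * η) - mu * (1 - a) * η
/-- its derivative -/
noncomputable def Qf' (a be mu η : ℝ) : ℝ :=
  -a * (1 - be * η) - be * (1 - a - a * η) - mu * (1 - a)
/-- `U = (F/a) η N/Q` -/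
noncomputable def Uf (a be mu F η : ℝ) : ℝ := F / a * η * Nf a be mu η / Qf a be mu η
/-- `U' = dU/dη` -/
noncomputable def Uf' (a be mu F η : ℝ) : ℝ :=
  F / a * (Nf a be mu η * Qf a be mu η +
    η * (Nf' a be mu * Qf a be mu η - Nf a be mu η * Qf' a be mu η)) / Qf a be mu η ^ 2
/-- `lam = F (1 + mu a (1-a))/(a (1-a))` -/
noncomputable def lamf (a mu F : ℝ) : ℝ := F * (1 + mu * a * (1 - a)) / (a * (1 - a))

/-- `a Υ` with `x² = X` -/
noncomputable def Ups (a w be mu F K e s X : ℝ) : ℝ :=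
  let η := w / (1 - w) * (1 - s)
  X * (1 - K + (2 * a - 1) * e + (2 * a - 1) * Uf a be mu F η - w * s * Uf' a be mu F η) -
    (1 - K + (2 * a - 1) * e) + w * lamf a mu F * (1 + η) - 2 * a * e * η

/-- the final statement: positivity of `Q` and the sign of `Υ` for every `X` between the bounds -/
def Key (a w be mu F K e : ℝ) : Prop :=
  ∀ s X : ℝ, 0 < s → w * s ≤ 1 →
    s ^ 2 ≤ X * ((2 * a - 1 + w) / (1 - w) + (1 - (2 * a - 1 + w) / (1 - w)) * s) →
    X ≤ s * (1 + (2 * a - 1 + w) / (1 - w) * (s - 1)) →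
    (1 ≤ s → X * (1 + (1 - (2 * a - 1 + w) / (1 - w) / 2) * (s - 1)) ≤
      s ^ 2 * (1 + (2 * a - 1 + w) / (1 - w) / 2 * (s - 1))) →
    0 < Qf a be mu (w / (1 - w) * (1 - s)) ∧
      0 ≤ w / (1 - w) * (1 - s) * Ups a w be mu F K e s X

theorem Nf_eq (a be mu η : ℝ) : Nf a be mu η = gn0 a mu + gn1 a be mu * η := by
  simp only [Nf, gn0, gn1]; ring

theorem Qf_eq (a be mu η : ℝ) :
    Qf a be mu η = (1 - a) + gd1 a be mu * η + gd2 a be * η ^ 2 := by
  simp only [Qf, gd1, gd2]; ring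

/-- algebra: the identity with abstract coefficients -/
theorem alg0 {a w F B th e n n0 r1 r2 q d0 Gn M η : ℝ} (ha : a ≠ 0) (hw : w ≠ 0)
    (hd : d0 ≠ 0) (hM : M ≠ 0) (hq : q ≠ 0) (hr : d0 * r1 - n0 * q ^ 2 = η * r2) :
    ((1 - (1 - w) * η / w * (Gn / M)) * (B + th * (F / a * η * n / q) -
        (w - (1 - w) * η) * (F / a * r1 / q ^ 2)) -
      B + w * (F * n0 / (a * d0)) * (1 + η) - 2 * a * e * η) *
      (a * d0 * w * q ^ 2 * M) =
    η * (M * w * d0 * (th * F * n * q + (1 - w) * F * r1)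
      - M * w * w * F * r2 + M * w * w * F * n0 * q * q - M * 2 * a * a * e * d0 * w * q * q
      - (1 - w) * Gn * d0 * (B * a * q * q + th * η * F * n * q
        - (w - (1 - w) * η) * F * r1)) := by
  have e1 : F / a * η * n / q = F * η * n / (a * q) := by field_simp
  have e2 : F / a * r1 / q ^ 2 = F * r1 / (a * q ^ 2) := by field_simp
  rw [e1, e2]
  have e3 : ((1 - (1 - w) * η / w * (Gn / M)) * (B + th * (F * η * n / (a * q)) -
        (w - (1 - w) * η) * (F * r1 / (a * q ^ 2)))) * (a * d0 * w * q ^ 2 * M) =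
      d0 * (w * M - (1 - w) * η * Gn) * (B * a * q ^ 2 + th * F * η * n * q -
        (w - (1 - w) * η) * (F * r1)) := by
    field_simp
  have e4 : w * (F * n0 / (a * d0)) * (1 + η) * (a * d0 * w * q ^ 2 * M) =
      w * F * n0 * (1 + η) * (w * q ^ 2 * M) := by
    field_simp
  have e5 : ∀ x y z t k : ℝ, (x - y + z - t) * k = x * k - y * k + z * k - t * k := by
    intros; ring
  rw [e5, e3, e4]
  linear_combination (-(w ^ 2 * F * M)) * hr

theorem gP_eq {a w F K e n0 n1 d0 d1 d2 c Gn M η n q r1 r2 : ℝ} (hn : n = n0 + n1 * η)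
    (hq : q = d0 + d1 * η + d2 * η ^ 2)
    (h1 : r1 = n0 * d0 + 2 * n1 * d0 * η + (n1 * d1 - n0 * d2) * η ^ 2)
    (h2 : r2 = 2 * n1 * d0 ^ 2 + (n1 * d1 - n0 * d2) * d0 * η -
      n0 * (d1 + d2 * η) * (2 * d0 + η * (d1 + d2 * η))) :
    gP a w F K e n0 n1 d0 d1 d2 c (η * c) (w - (1 - w) * η) Gn M =
    c ^ 4 * (M * w * d0 * ((2 * a - 1) * F * n * q + (1 - w) * F * r1)
      - M * w * w * F * r2 + M * w * w * F * n0 * q * q - M * 2 * a * a * e * d0 * w * q * q
      - (1 - w) * Gn * d0 * ((1 - K + (2 * a - 1) * e) * a * q * q +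
        (2 * a - 1) * η * F * n * q - (w - (1 - w) * η) * F * r1)) := by
  have e1 : gN n0 n1 c (η * c) = c * n := by rw [hn]; simp only [gN]; ring
  have e2 : gQ d0 d1 d2 c (η * c) = c ^ 2 * q := by rw [hq]; simp only [gQ]; ring
  have e3 : gR1 n0 n1 d0 d1 d2 c (η * c) = c ^ 2 * r1 := by rw [h1]; simp only [gR1]; ring
  have e4 : gR2 n0 n1 d0 d1 d2 c (η * c) = c ^ 3 * r2 := by rw [h2]; simp only [gR2]; ring
  simp only [gP]
  rw [e1, e2, e3, e4]
  ring

/-- `Υ` at the bound `X = 1 + (s-1) G`, `G = Gn/M` -/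
theorem Ups_eq {a w be mu F K e c u s Gn M η : ℝ} (ha : a ≠ 0) (ha1 : 1 - a ≠ 0) (hw : w ≠ 0)
    (hw1 : 1 - w ≠ 0) (hM : M ≠ 0) (hη : η = w / (1 - w) * (1 - s)) (hu : u = η * c)
    (hQ : Qf a be mu η ≠ 0) :
    Ups a w be mu F K e s (1 + (s - 1) * (Gn / M)) *
      (a * (1 - a) * w * (c ^ 4 * Qf a be mu η ^ 2) * M) =
    η * gP a w F K e (gn0 a mu) (gn1 a be mu) (1 - a) (gd1 a be mu) (gd2 a be) c u (w * s)
      Gn M := by
  have hs : w * s = w - (1 - w) * η := by rw [hη]; field_simp; ring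
  have hs1 : s - 1 = - ((1 - w) * η / w) := by
    rw [hη]; field_simp; ring
  subst hu
  rw [hs]
  have hrel : (1 - a) * (gn0 a mu * (1 - a) + 2 * gn1 a be mu * (1 - a) * η +
      (gn1 a be mu * gd1 a be mu - gn0 a mu * gd2 a be) * η ^ 2) -
      gn0 a mu * Qf a be mu η ^ 2 =
      η * (2 * gn1 a be mu * (1 - a) ^ 2 +
        (gn1 a be mu * gd1 a be mu - gn0 a mu * gd2 a be) * (1 - a) * η -
        gn0 a mu * (gd1 a be mu + gd2 a be * η) *
          (2 * (1 - a) + η * (gd1 a be mu + gd2 a be * η))) := by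
    rw [Qf_eq]; ring
  rw [gP_eq (Nf_eq a be mu η) (Qf_eq a be mu η) rfl rfl]
  have h0 := alg0 (a := a) (w := w) (F := F) (B := 1 - K + (2 * a - 1) * e) (th := 2 * a - 1)
    (e := e) (n := Nf a be mu η) (n0 := gn0 a mu) (Gn := Gn) (M := M) ha hw ha1 hM hQ hrel
  rw [mul_left_comm η (c ^ 4), ← h0]
  have hU' : Uf' a be mu F η = F / a * (gn0 a mu * (1 - a) + 2 * gn1 a be mu * (1 - a) * η +
      (gn1 a be mu * gd1 a be mu - gn0 a mu * gd2 a be) * η ^ 2) / Qf a be mu η ^ 2 := by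
    unfold Uf'
    congr 2
    rw [Nf_eq, Qf_eq]
    simp only [Nf', Qf', gd1, gd2, gn0, gn1]
    ring
  have hl : lamf a mu F = F * gn0 a mu / (a * (1 - a)) := by
    simp only [lamf, gn0]
  simp only [Ups]
  rw [← hη, hU', hl, hs, hs1]
  simp only [Uf]
  ring

/-! ### From the polynomials to `Key` -/

theorem gQ_eq (a be mu η c : ℝ) :
    gQ (1 - a) (gd1 a be mu) (gd2 a be) c (η * c) = c ^ 2 * Qf a be mu η := by
  rw [Qf_eq]; simp only [gQ]; ring

theorem Uf_lin (a be mu F η : ℝ) : Uf a be mu F η = F * Uf a be mu 1 η := by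
  simp only [Uf]; ring

theorem Uf'_lin (a be mu F η : ℝ) : Uf' a be mu F η = F * Uf' a be mu 1 η := by
  simp only [Uf']; ring

theorem lamf_lin (a mu F : ℝ) : lamf a mu F = F * lamf a mu 1 := by
  simp only [lamf]; ring

/-- `Υ` is affine in `X` -/
theorem conv {a w be mu F K e s X X1 X2 η : ℝ} (h1 : X1 ≤ X) (h2 : X ≤ X2)
    (e1 : 0 ≤ η * Ups a w be mu F K e s X1) (e2 : 0 ≤ η * Ups a w be mu F K e s X2) :
    0 ≤ η * Ups a w be mu F K e s X := by
  rcases eq_or_lt_of_le (h1.trans h2) with h | h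
  · have : X = X1 := le_antisymm (h2.trans h.ge) h1
    rw [this]; exact e1
  · have hid : (X2 - X1) * (η * Ups a w be mu F K e s X) =
        (X2 - X) * (η * Ups a w be mu F K e s X1) + (X - X1) * (η * Ups a w be mu F K e s X2) := by
      simp only [Ups]; ring
    have h3 : 0 ≤ (X2 - X1) * (η * Ups a w be mu F K e s X) := by
      rw [hid]
      exact add_nonneg (mul_nonneg (by linarith) e1) (mul_nonneg (by linarith) e2)
    exact nonneg_of_mul_nonneg_right h3 (by linarith)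

/-- monotonicity in the parameters -/
theorem param {a w be mu F Fm K Km e em s X η : ℝ} (ha : 1 / 2 ≤ a) (hFm : 0 < Fm) (hF : Fm ≤ F)
    (hK : Km ≤ K) (hK1 : K ≤ 1) (he0 : 0 ≤ e) (he : e ≤ em) (hη : η = w / (1 - w) * (1 - s))
    (hX : (X - 1) * η ≤ 0) (h : 0 ≤ η * Ups a w be mu Fm Km em s X) :
    0 ≤ η * Ups a w be mu F K e s X := by
  have key : ∀ F K e : ℝ, η * Ups a w be mu F K e s X =
      (X - 1) * η * (1 - K + (2 * a - 1) * e) - 2 * a * e * η ^ 2 +
      F * (η * (X * ((2 * a - 1) * Uf a be mu 1 η - w * s * Uf' a be mu 1 η) +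
        w * lamf a mu 1 * (1 + η))) := by
    intro F K e
    simp only [Ups]
    rw [← hη, Uf_lin a be mu F η, Uf'_lin a be mu F η, lamf_lin a mu F]
    ring
  rw [key] at h ⊢
  set G := η * (X * ((2 * a - 1) * Uf a be mu 1 η - w * s * Uf' a be mu 1 η) +
        w * lamf a mu 1 * (1 + η)) with hG
  have h1 : 0 ≤ (2 * a - 1) * e := mul_nonneg (by linarith) he0
  have h2 : (2 * a - 1) * e ≤ (2 * a - 1) * em := mul_le_mul_of_nonneg_left he (by linarith)
  have h3 : (X - 1) * η * (1 - Km + (2 * a - 1) * em) ≤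
      (X - 1) * η * (1 - K + (2 * a - 1) * e) :=
    mul_le_mul_of_nonpos_left (by linarith) hX
  have h4 : 2 * a * e * η ^ 2 ≤ 2 * a * em * η ^ 2 := by
    have : 2 * a * e ≤ 2 * a * em := mul_le_mul_of_nonneg_left he (by linarith)
    exact mul_le_mul_of_nonneg_right this (sq_nonneg η)
  have h5 : (X - 1) * η * (1 - Km + (2 * a - 1) * em) ≤ 0 :=
    mul_nonpos_of_nonpos_of_nonneg hX (by linarith)
  have h6 : 0 ≤ 2 * a * em * η ^ 2 :=
    mul_nonneg (mul_nonneg (by linarith) (he0.trans he)) (sq_nonneg η)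
  have h7 : 0 ≤ Fm * G := by linarith
  have h8 : 0 ≤ G := nonneg_of_mul_nonneg_right h7 hFm
  have h9 : Fm * G ≤ F * G := mul_le_mul_of_nonneg_right hF h8
  linarith

/-- sign at one bound -/
theorem at_bound {a w be mu F Fm K Km e em s c u Gn M X η : ℝ} (ha : 1 / 2 ≤ a) (ha1 : a < 1)
    (hw : 0 < w) (hw1 : w < 1) (hFm : 0 < Fm) (hF : Fm ≤ F)
    (hK : Km ≤ K) (hK1 : K ≤ 1) (he0 : 0 ≤ e) (he : e ≤ em) (hη : η = w / (1 - w) * (1 - s))
    (hc : 0 < c) (hu : u = η * c) (hGn : 0 ≤ Gn) (hM : 0 < M)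
    (hQ : 0 < Qf a be mu η) (hXe : X = 1 + (s - 1) * (Gn / M))
    (hP : 0 ≤ gP a w Fm Km em (gn0 a mu) (gn1 a be mu) (1 - a) (gd1 a be mu) (gd2 a be) c u (w * s)
      Gn M) : 0 ≤ η * Ups a w be mu F K e s X := by
  have hs1 : s - 1 = - ((1 - w) * η / w) := by
    have : (1 - w) ≠ 0 := by linarith
    rw [hη]; field_simp; ring
  have hX : (X - 1) * η ≤ 0 := by
    have : (X - 1) * η = - ((1 - w) / w * (Gn / M) * η ^ 2) := by
      rw [hXe, hs1]; ring
    rw [this]
    have h2 : 0 ≤ (1 - w) / w * (Gn / M) * η ^ 2 :=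
      mul_nonneg (mul_nonneg (div_nonneg (by linarith) hw.le) (div_nonneg hGn hM.le)) (sq_nonneg _)
    linarith
  refine param ha hFm hF hK hK1 he0 he hη hX ?_
  have h := Ups_eq (F := Fm) (K := Km) (e := em) (c := c) (u := u) (Gn := Gn) (M := M)
    (by linarith : a ≠ 0) (by linarith : 1 - a ≠ 0) hw.ne' (by linarith : 1 - w ≠ 0) hM.ne' hη hu
    hQ.ne'
  rw [← hXe] at h
  have hpos : 0 < a * (1 - a) * w * (c ^ 4 * Qf a be mu η ^ 2) * M := by
    have : 0 < 1 - a := by linarith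
    positivity
  have h2 : 0 ≤ (η * Ups a w be mu Fm Km em s X) *
      (a * (1 - a) * w * (c ^ 4 * Qf a be mu η ^ 2) * M) := by
    rw [mul_assoc, h, ← mul_assoc]
    exact mul_nonneg (mul_self_nonneg η) hP
  exact nonneg_of_mul_nonneg_left h2 hpos

/-- **the key inequality from the four polynomials** -/
theorem key_of {a w be mu F Fm K Km e em : ℝ} (ha : 1 / 2 ≤ a) (ha1 : a < 1)
    (hw : 0 < w) (hwa : w ≤ 1 - a) (hbe : 0 ≤ be) (hmu : 0 ≤ mu) (hFm : 0 < Fm) (hF : Fm ≤ F)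
    (hK : Km ≤ K) (hK1 : K ≤ 1) (he0 : 0 ≤ e) (he : e ≤ em)
    (hQ : ∀ s : ℝ, 0 ≤ s → s ≤ 1 →
      0 < gQ (1 - a) (gd1 a be mu) (gd2 a be) (1 - w) (w * (1 - s)))
    (hRL : ∀ s : ℝ, 0 ≤ s → s ≤ 1 → 0 ≤ gRL a w be mu Fm Km em s)
    (hRU : ∀ s : ℝ, 0 ≤ s → s ≤ 1 → 0 ≤ gRU a w be mu Fm Km em s)
    (hLL : ∀ h : ℝ, 0 ≤ h → h ≤ 1 → 0 ≤ gLL a w be mu Fm Km em h)
    (hLP : ∀ h : ℝ, 0 ≤ h → h ≤ 1 → 0 ≤ gLP a w be mu Fm Km em h) :
    Key a w be mu F K e := by
  intro s X hs hws h1 h2 h3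
  have hw1 : w < 1 := by linarith
  have hv : 0 < 1 - w := by linarith
  set η := w / (1 - w) * (1 - s) with hη
  have hk : 0 < w / (1 - w) := div_pos hw hv
  have hq0 : 0 < 2 * a - 1 + w := by linarith
  have hq1 : 2 * a - 1 + w ≤ 1 - w := by linarith
  set q := (2 * a - 1 + w) / (1 - w) with hqd
  have hqp : 0 < q := div_pos hq0 hv
  have hqle : q ≤ 1 := (div_le_one hv).2 hq1
  have hqv : q * (1 - w) = 2 * a - 1 + w := div_mul_cancel₀ _ hv.ne'
  have hden : 0 < q + (1 - q) * s := by nlinarith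
  rcases le_total s 1 with hs1 | hs1
  · -- right side
    have hη0 : 0 ≤ η := mul_nonneg hk.le (by linarith)
    have hu : w * (1 - s) = η * (1 - w) := by rw [hη]; field_simp
    have hQ0 : 0 < Qf a be mu η := by
      have h := hQ s hs.le hs1
      rw [hu, gQ_eq] at h
      exact (mul_pos_iff_of_pos_left (by positivity)).1 h
    refine ⟨hQ0, ?_⟩
    have hML : 0 < (2 * a - 1 + w) + ((1 - w) - (2 * a - 1 + w)) * s := by
      have : (2 * a - 1 + w) + ((1 - w) - (2 * a - 1 + w)) * s = (1 - w) * (q + (1 - q) * s) := by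
        rw [← hqv]; ring
      rw [this]; positivity
    have eL := at_bound (X := 1 + (s - 1) * ((s * (1 - w) + (2 * a - 1 + w)) /
        ((2 * a - 1 + w) + ((1 - w) - (2 * a - 1 + w)) * s))) (be := be) (mu := mu)
      (F := F) (K := K) (e := e) ha ha1 hw hw1 hFm hF hK hK1 he0 he hη hv hu
      (by nlinarith) hML hQ0 rfl (hRL s hs.le hs1)
    have eU := at_bound (X := 1 + (s - 1) * (((1 - w) + (2 * a - 1 + w) * s) / (1 - w)))
      (be := be) (mu := mu)
      (F := F) (K := K) (e := e) ha ha1 hw hw1 hFm hF hK hK1 he0 he hη hv hu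
      (by nlinarith) hv hQ0 rfl (hRU s hs.le hs1)
    refine conv ?_ ?_ eL eU
    · have hXL : (1 + (s - 1) * ((s * (1 - w) + (2 * a - 1 + w)) /
          ((2 * a - 1 + w) + ((1 - w) - (2 * a - 1 + w)) * s))) * (q + (1 - q) * s) = s ^ 2 := by
        have e1 : (2 * a - 1 + w) + ((1 - w) - (2 * a - 1 + w)) * s =
            (1 - w) * (q + (1 - q) * s) := by rw [← hqv]; ring
        have e2 : s * (1 - w) + (2 * a - 1 + w) = (1 - w) * (s + q) := by rw [← hqv]; ring
        rw [e1, e2, mul_div_mul_left _ _ hv.ne', add_mul, mul_assoc,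
          div_mul_cancel₀ _ hden.ne']
        ring
      rw [← hXL] at h1
      exact le_of_mul_le_mul_right h1 hden
    · have hXU : 1 + (s - 1) * (((1 - w) + (2 * a - 1 + w) * s) / (1 - w)) =
          s * (1 + q * (s - 1)) := by
        have e2 : (1 - w) + (2 * a - 1 + w) * s = (1 - w) * (1 + q * s) := by rw [← hqv]; ring
        rw [e2, mul_div_cancel_left₀ _ hv.ne']
        ring
      rw [hXU]; exact h2
  · -- left side
    have hη0 : η ≤ 0 := mul_nonpos_of_nonneg_of_nonpos hk.le (by linarith)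
    have hh0 : 0 ≤ -η := by linarith
    have hh1 : -η ≤ 1 := by
      have : -η = (w * s - w) / (1 - w) := by rw [hη]; field_simp; ring
      rw [this, div_le_one hv]; linarith
    have hsw : w + (1 - w) * (-η) = w * s := by rw [hη]; field_simp; ring
    have hQ0 : 0 < Qf a be mu η := by
      unfold Qf
      have h4 : 0 < 1 - a - a * η := by nlinarith
      have h5 : 0 < 1 - be * η := by nlinarith
      have h6 : 0 ≤ - (mu * (1 - a) * η) := by
        have : 0 ≤ mu * (1 - a) * (-η) := mul_nonneg (mul_nonneg hmu (by linarith)) hh0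
        linarith
      have := mul_pos h4 h5
      linarith
    refine ⟨hQ0, ?_⟩
    have hws0 : 0 < w * s := mul_pos hw hs
    have hLLv := hLL (-η) hh0 hh1
    have hLPv := hLP (-η) hh0 hh1
    simp only [gLL, gLP, hsw, neg_neg] at hLLv hLPv
    have hML : 0 < (2 * a - 1 + w) * w + ((1 - w) - (2 * a - 1 + w)) * (w * s) := by
      have : (2 * a - 1 + w) * w + ((1 - w) - (2 * a - 1 + w)) * (w * s) =
          (1 - w) * w * (q + (1 - q) * s) := by
        rw [← hqv]; ring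
      rw [this]; positivity
    have hMP : 0 < (1 - w) * w * (w * 2 + ((1 - w) * 2 - (2 * a - 1 + w)) * (-η)) := by
      have : 0 ≤ ((1 - w) * 2 - (2 * a - 1 + w)) * (-η) := mul_nonneg (by linarith) hh0
      have : 0 < w * 2 + ((1 - w) * 2 - (2 * a - 1 + w)) * (-η) := by linarith
      positivity
    have eL := at_bound (X := 1 + (s - 1) * (((1 - w) * (w * s) + (2 * a - 1 + w) * w) /
        ((2 * a - 1 + w) * w + ((1 - w) - (2 * a - 1 + w)) * (w * s)))) (be := be) (mu := mu)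
      (F := F) (K := K) (e := e) ha ha1 hw hw1 hFm hF hK hK1 he0 he hη one_pos
      (by ring : η = η * 1) (by positivity) hML hQ0 rfl hLLv
    have eP := at_bound (X := 1 + (s - 1) * (((1 - w) * w * (w * s) * 2 +
        (2 * a - 1 + w) * (w * w + (w * s) * (w * s))) /
        ((1 - w) * w * (w * 2 + ((1 - w) * 2 - (2 * a - 1 + w)) * (-η))))) (be := be) (mu := mu)
      (F := F) (K := K) (e := e) ha ha1 hw hw1 hFm hF hK hK1 he0 he hη one_pos
      (by ring : η = η * 1) (by positivity) hMP hQ0 rfl hLPv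
    refine conv ?_ ?_ eL eP
    · have hXL : (1 + (s - 1) * (((1 - w) * (w * s) + (2 * a - 1 + w) * w) /
          ((2 * a - 1 + w) * w + ((1 - w) - (2 * a - 1 + w)) * (w * s)))) *
          (q + (1 - q) * s) = s ^ 2 := by
        have e1 : (2 * a - 1 + w) * w + ((1 - w) - (2 * a - 1 + w)) * (w * s) =
            ((1 - w) * w) * (q + (1 - q) * s) := by rw [← hqv]; ring
        have e2 : (1 - w) * (w * s) + (2 * a - 1 + w) * w = ((1 - w) * w) * (s + q) := by
          rw [← hqv]; ring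
        rw [e1, e2, mul_div_mul_left _ _ (by positivity), add_mul, mul_assoc,
          div_mul_cancel₀ _ hden.ne']
        ring
      rw [← hXL] at h1
      exact le_of_mul_le_mul_right h1 hden
    · have hd2 : 0 < 1 + (1 - q / 2) * (s - 1) := by
        have : 0 ≤ (1 - q / 2) * (s - 1) := mul_nonneg (by linarith) (by linarith)
        linarith
      have hXP : (1 + (s - 1) * (((1 - w) * w * (w * s) * 2 +
        (2 * a - 1 + w) * (w * w + (w * s) * (w * s))) /
        ((1 - w) * w * (w * 2 + ((1 - w) * 2 - (2 * a - 1 + w)) * (-η))))) *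
          (1 + (1 - q / 2) * (s - 1)) = s ^ 2 * (1 + q / 2 * (s - 1)) := by
        have e1 : (1 - w) * w * (w * 2 + ((1 - w) * 2 - (2 * a - 1 + w)) * (-η)) =
            (2 * (1 - w) * w ^ 2) * (1 + (1 - q / 2) * (s - 1)) := by
          rw [← hqv, hη]; field_simp; ring
        have e2 : (1 - w) * w * (w * s) * 2 + (2 * a - 1 + w) * (w * w + (w * s) * (w * s)) =
            (2 * (1 - w) * w ^ 2) * (s + q / 2 * (1 + s ^ 2)) := by
          rw [← hqv]; ring
        rw [e1, e2, mul_div_mul_left _ _ (by positivity), add_mul, mul_assoc,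
          div_mul_cancel₀ _ hd2.ne']
        ring
      have h3' := h3 hs1
      rw [← hXP] at h3'
      exact le_of_mul_le_mul_right h3' hd2

end Pool.Agent.Lib.QNL.Poly66
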