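import Pool.Agent.Lib.QNL.Reg95
import Pool.Agent.Lib.QNL.Ker43
import Pool.Agent.Lib.QNL.Poly66

/-!
Group N, glue: the plug-in theorem for one region of the certificate (retained kernel of `Ker43`,
one pole over the levels `≥ 1`, polynomial inequality `Poly66.Key`).
-/

set_option autoImplicit false

namespace Pool.Agent.Lib.QNL.CG

open MeasureTheory Set Filter Topology Finset
open Pool.Agent.Lib.QNL
open Pool.Agent.Lib.QNL.Wts73
open Pool.Agent.Lib.QNL.Tail35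

/-! ### the kernel -/

/-- the two definitions of the kernel agree -/
theorem kh_eq_ker (a c l : ℝ) : kh a c l = Ker43.kh a c l := by
  unfold kh kap Ker43.kh Ker43.WW
  rw [← mul_assoc, ← Real.exp_add]
  have e : -((2 * a - 1) * l) + -((1 - a) * l) = -(a * l) := by ring
  rw [e]

/-- the retained mass, normalised -/
noncomputable def KN (a c : ℝ) : ℝ := Ker43.KK a c / zz a c

/-- twice the loss of the retention, normalised -/
noncomputable def eN (a c w : ℝ) : ℝ := 2 * Ker43.ep a c (w / (2 * (1 - w))) / zz a c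

theorem KK_le_mass {a c : ℝ} (ha : 0 ≤ a) (hc : 1 ≤ c) :
    Ker43.KK a c ≤ c * Real.exp (-c) := by
  have h := Ker43.tail_int hc one_pos (le_refl (0 : ℝ))
  have h2 : Ker43.KK a c ≤ ∫ l in Ioi (0 : ℝ), c * Real.exp l * (c * Real.exp l - 1) *
      Real.exp (-(1 * (c * Real.exp l))) := by
    refine (Ker43.KK_le ha hc).trans ?_
    refine setIntegral_mono_on (Ker43.kh_integrable ha hc) h.1 measurableSet_Ioi fun l hl => ?_
    refine (Ker43.kh_le ha hc (le_of_lt hl)).trans (le_of_eq ?_)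
    unfold Ker43.WW
    rw [one_mul]
  rw [h.2] at h2
  refine h2.trans (le_of_eq ?_)
  simp
  ring

theorem mass_lt_zz {a c : ℝ} (h0 : 0 < a) (h1 : a < 1) (hc : 0 < c) :
    c * Real.exp (-c) < zz a c := by
  have h := Tl_pos h0 h1 hc 0
  rw [Tl_zero] at h
  linarith

theorem KN_lt_one {a c : ℝ} (h0 : 0 < a) (h1 : a < 1) (hc : 1 ≤ c) : KN a c < 1 := by
  unfold KN
  rw [div_lt_one (zz_pos h0 h1 (by linarith))]
  exact (KK_le_mass h0.le hc).trans_lt (mass_lt_zz h0 h1 (by linarith))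

theorem KN_nonneg {a c : ℝ} (h0 : 0 < a) (h1 : a < 1) (hc : 1 ≤ c) : 0 ≤ KN a c :=
  div_nonneg (Ker43.KK_nonneg hc) (zz_pos h0 h1 (by linarith)).le

theorem eN_nonneg {a c w : ℝ} (h0 : 0 < a) (h1 : a < 1) (hc : 1 ≤ c) (hw0 : 0 ≤ w)
    (hw1 : w < 1) : 0 ≤ eN a c w := by
  have h2 : 0 < 1 - w := by linarith
  have h3 : 0 ≤ w / (2 * (1 - w)) := by positivity
  exact div_nonneg (mul_nonneg (by norm_num) (Ker43.ep_nonneg hc h3))
    (zz_pos h0 h1 (by linarith)).le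

/-! ### positivity of the denominator from its right end -/

theorem QQ_pos_of_end {a be mu Ym : ℝ} (h0 : 0 < a) (h1 : a < 1) (hbe : 0 ≤ be) (hmu : 0 ≤ mu)
    (hYm : 0 ≤ Ym) (h2 : 0 < 1 - be * Ym) (h3 : 0 < QQ a be mu Ym) :
    ∀ Y ∈ Icc (-1 : ℝ) Ym, 0 < QQ a be mu Y := by
  intro Y hY
  have h4 : 0 < 1 - a := by linarith
  have h5 : 0 ≤ mu * (1 - a) := mul_nonneg hmu h4.le
  have h6 : 0 < 1 - a - a * Ym := by
    unfold QQ at h3
    have h7 : 0 ≤ mu * (1 - a) * Ym := mul_nonneg h5 hYm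
    exact (mul_pos_iff_of_pos_right h2).1 (by linarith)
  have h8 : be * Y ≤ be * Ym := mul_le_mul_of_nonneg_left hY.2 hbe
  have h9 : a * Y ≤ a * Ym := mul_le_mul_of_nonneg_left hY.2 h0.le
  have h10 : mu * (1 - a) * Y ≤ mu * (1 - a) * Ym := mul_le_mul_of_nonneg_left hY.2 h5
  have h11 : (1 - a - a * Ym) * (1 - be * Ym) ≤ (1 - a - a * Y) * (1 - be * Y) :=
    mul_le_mul (by linarith) (by linarith) h2.le (by linarith)
  unfold QQ at h3 ⊢
  linarith

theorem QQ_anti_mu {a be mu mu' Y : ℝ} (h1 : a < 1) (hY : 0 ≤ Y) (h : mu ≤ mu') :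
    QQ a be mu' Y ≤ QQ a be mu Y := by
  unfold QQ
  have h2 : 0 ≤ (1 - a) * Y := mul_nonneg (by linarith) hY
  have h3 := mul_le_mul_of_nonneg_right h h2
  linarith

/-! ### from `Key` to `top` -/

theorem Uf'_eq (f a be mu Y : ℝ) : Poly66.Uf' a be mu f Y =
    ((Glue87.nn a f mu be Y + Y * Glue87.nn1 a f mu be) * Glue87.QQ a mu be Y
      - Y * Glue87.nn a f mu be Y * Glue87.QQ1 a mu be Y) / Glue87.QQ a mu be Y ^ 2 := by
  have eQ : Poly66.Qf a be mu Y = Glue87.QQ a mu be Y := rfl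
  have eQ' : Poly66.Qf' a be mu Y = Glue87.QQ1 a mu be Y := by
    unfold Poly66.Qf' Glue87.QQ1
    ring
  have eN : Glue87.nn a f mu be Y = f / a * Poly66.Nf a be mu Y := rfl
  have eN' : Glue87.nn1 a f mu be = f / a * Poly66.Nf' a be mu := by
    unfold Glue87.nn1 Poly66.Nf'
    ring
  unfold Poly66.Uf'
  rw [eQ, eQ', eN, eN']
  congr 1
  ring

theorem Uf_eq (f a be mu Y : ℝ) : Poly66.Uf a be mu f Y =
    Y * Glue87.nn a f mu be Y / Glue87.QQ a mu be Y := by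
  have eQ : Poly66.Qf a be mu Y = Glue87.QQ a mu be Y := rfl
  have eN : Glue87.nn a f mu be Y = f / a * Poly66.Nf a be mu Y := rfl
  unfold Poly66.Uf
  rw [eQ, eN]
  congr 1
  ring

/-- the field `top` from `Poly66.Key` -/
theorem top_of_key {n : ℕ} {a c w be K e : ℝ} (h0 : 1 / 2 ≤ a) (h1 : a < 1) (hw0 : 0 < w)
    (hr : a ≤ 1 - w)
    (hQ : ∀ Y ∈ Icc (-1 : ℝ) (w / (1 - w)), 0 < QQ a be (muN n a c) Y)
    (hk : Poly66.Key a w be (muN n a c) (F0 a c) K e) :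
    ∀ x : ℝ, 0 ≤ x → w * x ^ ((1 - w) / a) ≤ 1 →
      Glue87.TOP a w K e (lamN (F0 a c) a (muN n a c))
        ((2 * a - 1) * UU (F0 a c) a be (muN n a c)
          (w / (1 - w) * (1 - x ^ ((1 - w) / a)))) x ≤ 0 := by
  have hw1 : w < 1 := by linarith
  apply top_of_region
  apply Glue87.glue_region h0 h1 hw0 hw1 hr
  · intro η hη
    rw [QQ_eq]
    exact hQ η hη
  · intro s q η X hs hsw hq hη hX b1 b2 _ _ _ b6
    subst hq
    have hws : w * s ≤ 1 := by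
      rw [lt_div_iff₀ hw0] at hsw
      linarith
    have h := (hk s X hs hws b1 b2 (fun h1s => by
      have h6 := b6 h1s
      linarith)).2
    rw [← hη] at h
    have e1 : Poly66.Ups a w be (muN n a c) (F0 a c) K e s X =
        X * ((1 - K + (2 * a - 1) * e)
          + (2 * a - 1) * (η * Glue87.nn a (F0 a c) (muN n a c) be η /
            Glue87.QQ a (muN n a c) be η)
          - w * s * (((Glue87.nn a (F0 a c) (muN n a c) be η +
            η * Glue87.nn1 a (F0 a c) (muN n a c) be) * Glue87.QQ a (muN n a c) be η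
          - η * Glue87.nn a (F0 a c) (muN n a c) be η * Glue87.QQ1 a (muN n a c) be η) /
            Glue87.QQ a (muN n a c) be η ^ 2))
        - (1 - K + (2 * a - 1) * e) + w * Glue87.la a (F0 a c) (muN n a c) * (1 + η)
        - 2 * a * e * η := by
      unfold Poly66.Ups
      rw [← hη]
      simp only [Uf_eq, Uf'_eq]
      rfl
    rw [← e1]
    exact h

/-! ### one region -/

/-- `HasCert` with the retained kernel of `Ker43` and any right end `Ym` -/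
theorem hasCert_ker {n : ℕ} {a c w Ym be : ℝ} (hn : 1 ≤ n) (h0 : 1 / 2 < a)
    (h1 : a < 1) (hc : 1 ≤ c) (hw0 : 0 < w) (hr : a ≤ 1 - w) (hYm : w / (1 - w) < Ym)
    (hbe0 : 0 ≤ be) (hbe : 0 < 1 - be * Ym) (hQ : 0 < QQ a be (muN n a c) Ym)
    (tail : Tail1 n (1 / a) a (bs n a c) Ym (fun Y => Lam n (1 / a) a (bs n a c) 1 / (1 - be * Y)))
    (hk : Poly66.Key a w be (muN n a c) (F0 a c) (KN a c) (eN a c w)) : HasCert n a := by
  have ha : 0 < a := by linarith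
  have hw1 : 0 < 1 - w := by linarith
  have hz := zz_pos ha h1 (by linarith : 0 < c)
  have hkk : 0 < w / (1 - w) := by positivity
  have hYm0 : 0 ≤ Ym := by linarith
  have hQ' := QQ_pos_of_end ha h1 hbe0 (muN_nonneg (n := n) ha h1 (by linarith : 0 < c)) hYm0
    hbe hQ
  refine hasCert_Y (K := KN a c) (e := eN a c w) (k1 := Ker43.k1 a c) hn h0 h1 hc hw0 hr hYm
    tail ?_ hQ' (fun l hl => Ker43.k1_nonneg hc hl.le) (fun l hl => ?_) ?_ ?_ ?_ ?_
  · intro Y hY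
    have := mul_le_mul_of_nonneg_left hY.2 hbe0
    linarith
  · rw [kh_eq_ker]
    exact Ker43.k1_le a c l
  · exact (Ker43.k1_antitone hc).mono Ioi_subset_Ici_self
  · unfold KN Ker43.KK
    field_simp
  · unfold eN Ker43.ep
    have e2 : ∀ l : ℝ, w / (2 * (1 - w)) * l = w / (1 - w) * l / 2 := by
      intro l
      field_simp
    simp only [e2]
    field_simp
  · exact top_of_key h0.le h1 hw0 hr (fun Y hY => hQ' Y ⟨hY.1, hY.2.trans hYm.le⟩) hk

/-- **one region from its boxes**: `c` and the functions `w`, `be` are the parameters, `F'`, `K'`,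
`e'`, `m1`, `m2` the boxes. -/
theorem regionOK_of {n0 : ℕ} {lo hi c : ℝ} {w be F' K' e' m1 m2 : ℝ → ℝ} (hn0 : 1 ≤ n0)
    (hc : 1 ≤ c)
    (hw : ∀ a : ℝ, 1 / 2 < a → a < 1 → lo ≤ a → a ≤ hi → 0 < w a ∧ a ≤ 1 - w a)
    (hend : ∀ a : ℝ, 1 / 2 < a → a < 1 → lo ≤ a → a ≤ hi →
      0 ≤ be a ∧ 0 < 1 - be a * Ymx (w a) ∧ 0 < QQ a (be a) (m2 a) (Ymx (w a)))
    (hF : ∀ a : ℝ, 1 / 2 < a → a < 1 → lo ≤ a → a ≤ hi → F' a ≤ F0 a c)
    (hmu : ∀ n : ℕ, n0 ≤ n → ∀ a : ℝ, 1 / 2 < a → a < 1 → lo ≤ a → a ≤ hi →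
      m1 a ≤ muN n a c ∧ muN n a c ≤ m2 a)
    (hK : ∀ a : ℝ, 1 / 2 < a → a < 1 → lo ≤ a → a ≤ hi → K' a ≤ KN a c)
    (he : ∀ a : ℝ, 1 / 2 < a → a < 1 → lo ≤ a → a ≤ hi → eN a c (w a) ≤ e' a)
    (htail : ∀ n : ℕ, n0 ≤ n → ∀ a : ℝ, 1 / 2 < a → a < 1 → lo ≤ a → a ≤ hi →
      Tail1 n (1 / a) a (bs n a c) (Ymx (w a))
        (fun Y => Lam n (1 / a) a (bs n a c) 1 / (1 - be a * Y)))
    (hkey : ∀ a : ℝ, 1 / 2 < a → a < 1 → lo ≤ a → a ≤ hi → ∀ mu F K e : ℝ,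
      m1 a ≤ mu → mu ≤ m2 a → F' a ≤ F → K' a ≤ K → K ≤ 1 → 0 ≤ e → e ≤ e' a →
      Poly66.Key a (w a) (be a) mu F K e) : RegionOK n0 lo hi := by
  intro n hn a h0 h1 h2 h3
  have ha : 0 < a := by linarith
  obtain ⟨hw0, hr⟩ := hw a h0 h1 h2 h3
  obtain ⟨hbe0, hbe1, hQ⟩ := hend a h0 h1 h2 h3
  obtain ⟨hm1, hm2⟩ := hmu n hn a h0 h1 h2 h3
  have hw1 : w a < 1 := by linarith
  have hYm := lt_Ymx hw0 hw1
  have hw2 : 0 < 1 - w a := by linarith
  have hkk : 0 < w a / (1 - w a) := by positivity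
  exact hasCert_ker (hn0.trans hn) h0 h1 hc hw0 hr hYm hbe0 hbe1
    (hQ.trans_le (QQ_anti_mu h1 (by linarith) hm2)) (htail n hn a h0 h1 h2 h3)
    (hkey a h0 h1 h2 h3 _ _ _ _ hm1 hm2 (hF a h0 h1 h2 h3) (hK a h0 h1 h2 h3)
      (KN_lt_one ha h1 hc).le (eN_nonneg ha h1 hc hw0.le hw1) (he a h0 h1 h2 h3))

end Pool.Agent.Lib.QNL.CG
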