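import Pool.Agent.Lib.QNL.Poly66R

/-!
# The data of the four regions of the final certificate
-/

set_option autoImplicit false

namespace Pool.Agent.Lib.QNL.Poly66

open Pool.Agent.Lib.QNL.PolyPos

namespace RI

/-- `a` -/
def A : Ex := Ex.y + Ex.q 1 2
/-- the data -/
def g : Reg where
  A := A
  W := Ex.q 4 5 * A * (1 - A)
  BE := Ex.q 49 20 + Ex.q 39 10 * Ex.y - Ex.q 36 5 * (Ex.y * Ex.y)
  FE := Ex.q (979) 1250 + Ex.q 777 1000 * Ex.y - Ex.q 7711 10000 * (Ex.y * Ex.y)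
  KE := Ex.q (1553) 10000 - Ex.q 383 625 * Ex.y + Ex.q 6871 10000 * (Ex.y * Ex.y)
  EE := Ex.q (549) 25000 - Ex.q 1237 12500 * Ex.y + Ex.q 727 6250 * (Ex.y * Ex.y)
  M0 := Ex.q (609) 1000 + Ex.q 63 125 * Ex.y + Ex.q 431 1000 * (Ex.y * Ex.y)
  M1 := Ex.q (143) 200 + Ex.q 331 500 * Ex.y + Ex.q 567 1000 * (Ex.y * Ex.y)

theorem val (t : ℝ) : g.Val t (t + 1 / 2)
    (4 / 5 * (t + 1 / 2) * (1 - (t + 1 / 2)))
    (49 / 20 + 39 / 10 * t - 36 / 5 * (t * t))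
    (979 / 1250 + 777 / 1000 * t - 7711 / 10000 * (t * t))
    (1553 / 10000 - 383 / 625 * t + 6871 / 10000 * (t * t))
    (549 / 25000 - 1237 / 12500 * t + 727 / 6250 * (t * t))
    (609 / 1000 + 63 / 125 * t + 431 / 1000 * (t * t))
    (143 / 200 + 331 / 500 * t + 567 / 1000 * (t * t)) := by
  constructor <;> intro X Z <;>
    simp only [g, A, Ex.ev_add, Ex.ev_sub, Ex.ev_mul, Ex.ev_one, Ex.ev_q, Ex.ev_y] <;> norm_num

end RI

namespace RII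

/-- `a` -/
def A : Ex := Ex.y + Ex.q 19 25
/-- the data -/
def g : Reg where
  A := A
  W := (Ex.q 6 25 + Ex.q 3 4 * A) * A * (1 - A)
  BE := Ex.q 83 25 + Ex.q 9 10 * Ex.y
  FE := Ex.q (9463) 10000 + Ex.q 3269 10000 * Ex.y - Ex.q 2367 5000 * (Ex.y * Ex.y)
  KE := Ex.q (73) 2000 - Ex.q 297 1250 * Ex.y + Ex.q 1981 5000 * (Ex.y * Ex.y)
  EE := Ex.q (307) 100000 - Ex.q 1401 50000 * Ex.y + Ex.q 3357 50000 * (Ex.y * Ex.y)
  M0 := Ex.q (833) 1000 + Ex.q 187 250 * Ex.y + Ex.q 5 8 * (Ex.y * Ex.y)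
  M1 := Ex.q (1029) 1000 + Ex.q 1021 1000 * Ex.y + Ex.q 817 1000 * (Ex.y * Ex.y)

theorem val (t : ℝ) : g.Val t (t + 19 / 25)
    ((6 / 25 + 3 / 4 * (t + 19 / 25)) * (t + 19 / 25) * (1 - (t + 19 / 25)))
    (83 / 25 + 9 / 10 * t)
    (9463 / 10000 + 3269 / 10000 * t - 2367 / 5000 * (t * t))
    (73 / 2000 - 297 / 1250 * t + 1981 / 5000 * (t * t))
    (307 / 100000 - 1401 / 50000 * t + 3357 / 50000 * (t * t))
    (833 / 1000 + 187 / 250 * t + 5 / 8 * (t * t))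
    (1029 / 1000 + 1021 / 1000 * t + 817 / 1000 * (t * t)) := by
  constructor <;> intro X Z <;>
    simp only [g, A, Ex.ev_add, Ex.ev_sub, Ex.ev_mul, Ex.ev_one, Ex.ev_q, Ex.ev_y] <;> norm_num

end RII

namespace RIII

/-- `a` -/
def A : Ex := Ex.y + Ex.q 43 50
/-- the data -/
def g : Reg where
  A := A
  W := (A - Ex.q 1 100) * A * (1 - A)
  BE := Ex.q 99 25
  FE := Ex.q (4919) 5000 + Ex.q 1511 10000 * Ex.y - Ex.q 1377 5000 * (Ex.y * Ex.y)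
  KE := Ex.q (1111) 100000 - Ex.q 433 4000 * Ex.y + Ex.q 21943 100000 * (Ex.y * Ex.y)
  EE := Ex.q (13) 25000 - Ex.q 401 50000 * Ex.y + Ex.q 403 12500 * (Ex.y * Ex.y)
  M0 := Ex.q (1017) 1000 + Ex.q 173 200 * Ex.y + Ex.q 149 200 * (Ex.y * Ex.y)
  M1 := Ex.q (333) 250 + Ex.q 1257 1000 * Ex.y + Ex.q 39 40 * (Ex.y * Ex.y)

theorem val (t : ℝ) : g.Val t (t + 43 / 50)
    (((t + 43 / 50) - 1 / 100) * (t + 43 / 50) * (1 - (t + 43 / 50)))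
    (99 / 25)
    (4919 / 5000 + 1511 / 10000 * t - 1377 / 5000 * (t * t))
    (1111 / 100000 - 433 / 4000 * t + 21943 / 100000 * (t * t))
    (13 / 25000 - 401 / 50000 * t + 403 / 12500 * (t * t))
    (1017 / 1000 + 173 / 200 * t + 149 / 200 * (t * t))
    (333 / 250 + 1257 / 1000 * t + 39 / 40 * (t * t)) := by
  constructor <;> intro X Z <;>
    simp only [g, A, Ex.ev_add, Ex.ev_sub, Ex.ev_mul, Ex.ev_one, Ex.ev_q, Ex.ev_y] <;> norm_num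

end RIII

namespace RIV

/-- `a` -/
def A : Ex := Ex.y + Ex.q 93 100
/-- the data -/
def g : Reg where
  A := A
  W := (A - Ex.q 3 100) * A * (1 - A)
  BE := Ex.q 112 25
  FE := Ex.q (9957) 10000 + Ex.q 141 2000 * Ex.y - Ex.q 1589 10000 * (Ex.y * Ex.y)
  KE := Ex.q (37) 12500 - Ex.q 1267 25000 * Ex.y + Ex.q 1563 12500 * (Ex.y * Ex.y)
  EE := Ex.q (33) 500000 - Ex.q 1 500 * Ex.y + Ex.q 63 4000 * (Ex.y * Ex.y)
  M0 := Ex.q (1159) 1000 + Ex.q 943 1000 * Ex.y + Ex.q 209 250 * (Ex.y * Ex.y)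
  M1 := Ex.q (319) 200 + Ex.q 359 250 * Ex.y + Ex.q 1081 1000 * (Ex.y * Ex.y)

theorem val (t : ℝ) : g.Val t (t + 93 / 100)
    (((t + 93 / 100) - 3 / 100) * (t + 93 / 100) * (1 - (t + 93 / 100)))
    (112 / 25)
    (9957 / 10000 + 141 / 2000 * t - 1589 / 10000 * (t * t))
    (37 / 12500 - 1267 / 25000 * t + 1563 / 12500 * (t * t))
    (33 / 500000 - 1 / 500 * t + 63 / 4000 * (t * t))
    (1159 / 1000 + 943 / 1000 * t + 209 / 250 * (t * t))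
    (319 / 200 + 359 / 250 * t + 1081 / 1000 * (t * t)) := by
  constructor <;> intro X Z <;>
    simp only [g, A, Ex.ev_add, Ex.ev_sub, Ex.ev_mul, Ex.ev_one, Ex.ev_q, Ex.ev_y] <;> norm_num

end RIV

end Pool.Agent.Lib.QNL.Poly66
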