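import Pool.Agent.Lib.QNL.PolyPos

/-!
# A light positivity check by Kronecker substitution

`checkKr e a b c i j l w = true` implies `0 ≤ e` on the box `a × b × c`.
The variables are substituted by `(L + W/(1+s))/D` with `s = S`, a power of two, so that the
numerator of `e` is ONE integer whose base `2^w` digits are the coefficients of a polynomial in
`s, t, r`.  A majorant computed by the same recursion bounds the coefficients by `2^(w-1)`, hence
if all digits are `< 2^(w-1)` then all coefficients are nonnegative.  All arithmetic is done with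
natural numbers, which the kernel treats as big numbers.
-/

set_option autoImplicit false

namespace Pool.Agent.Lib.QNL.PolyKron

open Pool.Agent.Lib.QNL.PolyPos

/-! ### the program -/

/-- a continuation: degrees `i j l`, denominator, positive and negative part, majorant -/
abbrev Ct : Type := ℕ → ℕ → ℕ → ℕ → ℕ → ℕ → ℕ → Bool

/-- evaluate a natural number before passing it on -/
def st (n : ℕ) (f : ℕ → Bool) : Bool :=
  @Nat.rec (fun _ => Bool) (f 0) (fun k _ => f (Nat.succ k)) n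

theorem st_eq (n : ℕ) (f : ℕ → Bool) : st n f = f n := by cases n <;> rfl

/-- the factor needed to raise the degrees -/
def fac (hs ht hr i j l c : ℕ) : ℕ :=
  Nat.mul (Nat.pow hs i) (Nat.mul (Nat.pow ht j) (Nat.mul (Nat.pow hr l) c))

/-- addition -/
def addK (hs ht hr i j l d P N M i' j' l' d' P' N' M' : ℕ) (k : Ct) : Bool :=
  st (Nat.gcd d d') fun g =>
  st (Nat.div d' g) fun c =>
  st (Nat.div d g) fun c' =>
  st (fac hs ht hr (Nat.sub i' i) (Nat.sub j' j) (Nat.sub l' l) c) fun f =>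
  st (fac hs ht hr (Nat.sub i i') (Nat.sub j j') (Nat.sub l l') c') fun f' =>
  st (Nat.add (Nat.mul f P) (Nat.mul f' P')) fun A =>
  st (Nat.add (Nat.mul f N) (Nat.mul f' N')) fun B =>
  st (Nat.sub A B) fun A' =>
  st (Nat.sub B A) fun B' =>
  st (Nat.add (Nat.mul (fac 2 2 2 (Nat.sub i' i) (Nat.sub j' j) (Nat.sub l' l) c) M)
    (Nat.mul (fac 2 2 2 (Nat.sub i i') (Nat.sub j j') (Nat.sub l l') c') M')) fun M'' =>
  st (Nat.add (Nat.sub i' i) i) fun i'' =>
  st (Nat.add (Nat.sub j' j) j) fun j'' =>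
  st (Nat.add (Nat.sub l' l) l) fun l'' =>
  st (Nat.mul c d) fun d'' =>
  k i'' j'' l'' d'' A' B' M''

/-- multiplication -/
def mulK (i j l d P N M i' j' l' d' P' N' M' : ℕ) (k : Ct) : Bool :=
  st (Nat.add (Nat.mul P P') (Nat.mul N N')) fun A =>
  st (Nat.add (Nat.mul P N') (Nat.mul N P')) fun B =>
  st (Nat.mul M M') fun M'' =>
  st (Nat.add i i') fun i'' =>
  st (Nat.add j j') fun j'' =>
  st (Nat.add l l') fun l'' =>
  st (Nat.mul d d') fun d'' =>
  k i'' j'' l'' d'' A B M''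

/-- a side `[L / D, (L + W) / D]` -/
structure KS where
  /-- left end times `D` -/
  L : ℕ
  /-- length times `D` -/
  W : ℕ
  /-- denominator -/
  D : ℕ

/-- packed evaluation -/
noncomputable def evK (hs ht hr xd xn xm yd yn ym zd zn zm : ℕ) : Ex → Ct → Bool :=
  @Ex.rec (fun _ => Ct → Bool)
    (fun n d k => andR (Nat.blt 0 d) (k 0 0 0 d (Int.toNat n) (Int.toNat (Int.neg n))
      (Nat.add (Int.toNat n) (Int.toNat (Int.neg n)))))
    (fun k => k 1 0 0 xd xn 0 xm)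
    (fun k => k 0 1 0 yd yn 0 ym)
    (fun k => k 0 0 1 zd zn 0 zm)
    (fun _ _ ia ib k => ia fun i j l d P N M => ib fun i' j' l' d' P' N' M' =>
      addK hs ht hr i j l d P N M i' j' l' d' P' N' M' k)
    (fun _ _ ia ib k => ia fun i j l d P N M => ib fun i' j' l' d' P' N' M' =>
      addK hs ht hr i j l d P N M i' j' l' d' N' P' M' k)
    (fun _ _ ia ib k => ia fun i j l d P N M => ib fun i' j' l' d' P' N' M' =>
      mulK i j l d P N M i' j' l' d' P' N' M' k)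
    (fun _ _ _ _ => false)

/-- digit test -/
def dg (ok : ℕ → Bool) (B n Q : ℕ) : Bool :=
  @Nat.rec (fun _ => ℕ → Bool) (fun _ => true)
    (fun _ ih Q => st (Nat.mod Q B) fun m => andR (ok m) (st (Nat.div Q B) ih)) n Q

/-- innermost test -/
def ok1 (R m : ℕ) : Bool := Nat.blt (Nat.mul 2 m) R
/-- middle test -/
def ok2 (R l m : ℕ) : Bool := dg (ok1 R) R (Nat.succ l) m
/-- outer test -/
def ok3 (R T l j m : ℕ) : Bool := dg (ok2 R l) T (Nat.succ j) m

/-- the final test -/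
def fin (i j l R T S : ℕ) : Ct := fun i' j' l' d P N M =>
  andR (Nat.ble i' i) (andR (Nat.ble j' j) (andR (Nat.ble l' l) (andR (Nat.blt (Nat.mul 2 M) R)
    (andR (Nat.beq N 0) (andR (Nat.blt 0 d) (dg (ok3 R T l j) S (Nat.succ i) P))))))

/-- numerator of a side -/
def xN (a : KS) (S : ℕ) : ℕ := Nat.add (Nat.add a.L a.W) (Nat.mul a.L S)

/-- **the check** -/
noncomputable def checkKr (e : Ex) (a b c : KS) (i j l w : ℕ) : Bool :=
  st (Nat.pow 2 w) fun R =>
  st (Nat.pow R (Nat.succ l)) fun T =>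
  st (Nat.pow T (Nat.succ j)) fun S =>
  st (xN a S) fun xn => st (xN b T) fun yn => st (xN c R) fun zn =>
  st (xN a 1) fun xm => st (xN b 1) fun ym => st (xN c 1) fun zm =>
  st a.D fun xd => st b.D fun yd => st c.D fun zd =>
  andR (Nat.blt 0 xd) (andR (Nat.blt 0 yd) (andR (Nat.blt 0 zd)
    (evK (Nat.succ S) (Nat.succ T) (Nat.succ R) xd xn xm yd yn ym zd zn zm e
      (fin i j l R T S))))

/-! ### lists: integer evaluation, norm, degrees -/

section lists

variable {α β : Type} {add mul : α → α → α} {zero : α}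

/-- integer evaluation -/
def vL (v : α → ℤ) (B : ℤ) : List α → ℤ
  | [] => 0
  | a :: l => v a + B * vL v B l

theorem vL_cast (v : α → ℤ) (ev : α → ℝ) (B : ℤ) (h : ∀ a, (v a : ℝ) = ev a) (l : List α) :
    (vL v B l : ℝ) = evL ev (B : ℝ) l := by
  induction l with
  | nil => simp [vL, evL]
  | cons a l ih => simp only [vL, evL]; push_cast; rw [h, ih]

/-- sum of the norms -/
def nL (N : α → ℕ) : List α → ℕ
  | [] => 0
  | a :: l => N a + nL N l

variable {N : α → ℕ}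

theorem nL_addL (h : ∀ a b, N (add a b) ≤ N a + N b) (l m : List α) :
    nL N (addL add l m) ≤ nL N l + nL N m := by
  induction l generalizing m with
  | nil => simp [addL_nil, nL]
  | cons a l ih =>
    cases m with
    | nil => simp [addL_cons_nil, nL]
    | cons b m =>
      rw [addL_cons_cons]
      simp only [nL]
      have h1 := h a b
      have h2 := ih m
      omega

theorem nL_mapR (f : α → α) (c : ℕ) (h : ∀ a, N (f a) ≤ c * N a) (l : List α) :
    nL N (mapR f l) ≤ c * nL N l := by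
  induction l with
  | nil => simp [mapR_nil, nL]
  | cons a l ih =>
    rw [mapR_cons]
    simp only [nL]
    rw [Nat.mul_add]
    exact Nat.add_le_add (h a) ih

theorem nL_mulL (h : ∀ a b, N (add a b) ≤ N a + N b) (hm : ∀ a b, N (mul a b) ≤ N a * N b)
    (hz : N zero = 0) (l m : List α) : nL N (mulL add mul zero l m) ≤ nL N l * nL N m := by
  induction l with
  | nil => simp [mulL_nil, nL]
  | cons a l ih =>
    rw [mulL_cons]
    refine (nL_addL h _ _).trans ?_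
    simp only [nL, hz, Nat.zero_add]
    rw [Nat.add_mul]
    exact Nat.add_le_add (nL_mapR (mul a) (N a) (fun b => hm a b) m) ih

theorem le_nL {a : α} {l : List α} (h : a ∈ l) : N a ≤ nL N l := by
  induction l with
  | nil => simp at h
  | cons b l ih =>
    simp only [nL]
    rcases List.mem_cons.mp h with rfl | h
    · omega
    · have := ih h; omega

/-- degree bound -/
def okL (ok : α → Prop) (n : ℕ) (l : List α) : Prop := l.length ≤ n + 1 ∧ ∀ a ∈ l, ok a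

theorem okL_addL {ok : α → Prop} (ha : ∀ a b, ok a → ok b → ok (add a b)) {n : ℕ} {l m : List α}
    (hl : okL ok n l) (hm : okL ok n m) : okL ok n (addL add l m) :=
  ⟨by rw [length_addL]; exact max_le hl.1 hm.1, mem_addL ha l m hl.2 hm.2⟩

theorem okL_mulL {o1 o2 o3 : α → Prop} (ha : ∀ a b, o3 a → o3 b → o3 (add a b))
    (hm : ∀ a b, o1 a → o2 b → o3 (mul a b)) (hz : o3 zero) {m : ℕ} {k : List α}
    (hk : okL o2 m k) (l : List α) {n : ℕ} (hl : okL o1 n l) :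
    okL o3 (n + m) (mulL add mul zero l k) := by
  induction l generalizing n with
  | nil => exact ⟨by simp [mulL_nil], by simp [mulL_nil]⟩
  | cons a l ih =>
    have hl1 : l.length ≤ n := by simpa using hl.1
    have hl2 : ∀ b ∈ l, o1 b := fun b hb => hl.2 b (by simp [hb])
    rw [mulL_cons]
    refine ⟨?_, mem_addL ha _ _ (mem_mapR _ _ (fun b hb => hm a b (hl.2 a (by simp))
      (hk.2 b hb))) ?_⟩
    · rw [length_addL, length_mapR, List.length_cons]
      have hk1 := hk.1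
      cases l with
      | nil => simp only [mulL_nil, List.length_nil]; omega
      | cons b l =>
        have h0 : (b :: l).length = l.length + 1 := List.length_cons
        have h1 := (ih (n := n - 1) ⟨by omega, hl2⟩).1
        omega
    · intro b hb
      rcases List.mem_cons.mp hb with hb | hb
      · rw [hb]; exact hz
      · exact (ih (n := n) ⟨by omega, hl2⟩).2 b hb

theorem okL.mono {ok ok' : α → Prop} (h : ∀ a, ok a → ok' a) {n n' : ℕ} (hn : n ≤ n')
    {l : List α} (hl : okL ok n l) : okL ok' n' l :=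
  ⟨by have := hl.1; omega, fun a ha => h a (hl.2 a ha)⟩

theorem abs_vL_le {v : α → ℤ} {K B : ℤ} (hB : 1 ≤ B) (hK : 0 ≤ K) (n : ℕ) (l : List α)
    (hl : l.length ≤ n + 1) (h : ∀ a ∈ l, |v a| ≤ N a * K) :
    |vL v B l| ≤ nL N l * (K * B ^ n) := by
  induction l generalizing n with
  | nil => simp [vL, nL]
  | cons a l ih =>
    simp only [vL, nL]
    have h1 := h a (by simp)
    have hp : (1 : ℤ) ≤ B ^ n := one_le_pow₀ hB
    have h3 : (N a : ℤ) * K ≤ N a * (K * B ^ n) := by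
      have : (0 : ℤ) ≤ N a * K := by positivity
      nlinarith
    cases l with
    | nil => simp only [vL, nL, mul_zero, add_zero]; exact h1.trans h3
    | cons b l =>
      obtain ⟨m, rfl⟩ : ∃ m, n = m + 1 := ⟨n - 1, by simp at hl; omega⟩
      have h2 := ih m (by simpa using hl) (fun c hc => h c (by simp [hc]))
      have h4 : |B * vL v B (b :: l)| ≤ nL N (b :: l) * (K * B ^ (m + 1)) := by
        rw [abs_mul, abs_of_nonneg (by omega : (0 : ℤ) ≤ B)]
        calc B * |vL v B (b :: l)| ≤ B * (nL N (b :: l) * (K * B ^ m)) :=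
              mul_le_mul_of_nonneg_left h2 (by omega)
          _ = _ := by ring
      refine (abs_add_le _ _).trans ?_
      push_cast
      rw [add_mul]
      exact add_le_add (h1.trans h3) h4

theorem evL_nonneg {ev : α → ℝ} {x : ℝ} (hx : 0 ≤ x) (l : List α) (h : ∀ a ∈ l, 0 ≤ ev a) :
    0 ≤ evL ev x l := by
  induction l with
  | nil => simp [evL]
  | cons a l ih =>
    rw [evL]
    exact add_nonneg (h a (by simp)) (mul_nonneg hx (ih (fun b hb => h b (by simp [hb]))))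

end lists

/-! ### digits -/

section digits

variable {α : Type} {ok : ℕ → Bool} {B : ℕ}

theorem dg_zero (Q : ℕ) : dg ok B 0 Q = true := rfl

theorem dg_succ (n Q : ℕ) : dg ok B (n + 1) Q = andR (ok (Q % B)) (dg ok B n (Q / B)) := by
  show st (Nat.mod Q B) (fun m => andR (ok m) (st (Nat.div Q B) (dg ok B n))) = _
  rw [st_eq, st_eq]
  rfl

theorem dg_bound (hB : 0 < B) (hok : ∀ m, m < B → ok m = true → 2 * m + 1 ≤ B) (n Q : ℕ)
    (h : dg ok B n Q = true) (hQ : Q < B ^ n) : 2 * Q + 1 ≤ B ^ n := by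
  induction n generalizing Q with
  | zero => simp at hQ; simp [hQ]
  | succ n ih =>
    rw [dg_succ] at h
    obtain ⟨h1, h2⟩ := andR_eq h
    have h3 := hok _ (Nat.mod_lt _ hB) h1
    have h4 : Q / B < B ^ n := by
      rw [Nat.div_lt_iff_lt_mul hB, ← pow_succ]; exact hQ
    have h5 := ih _ h2 h4
    have h6 := Nat.mod_add_div Q B
    have h7 : B * (2 * (Q / B) + 1) ≤ B * B ^ n := Nat.mul_le_mul_left _ h5
    calc 2 * Q + 1 = 2 * (Q % B + B * (Q / B)) + 1 := by rw [h6]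
      _ = 2 * (Q % B) + 1 + B * (2 * (Q / B)) := by ring
      _ ≤ B + B * (2 * (Q / B)) := by omega
      _ = B * (2 * (Q / B) + 1) := by ring
      _ ≤ B * B ^ n := h7
      _ = B ^ (n + 1) := by rw [pow_succ]; ring

theorem dg_list {v : α → ℤ} {good : α → Prop} (hB : 0 < B)
    (hok : ∀ m, m < B → ok m = true → 2 * m + 1 ≤ B) (l : List α)
    (hb : ∀ a ∈ l, 2 * |v a| < B)
    (hg : ∀ a ∈ l, ∀ m : ℕ, v a = m → ok m = true → good a) (n Q : ℕ) (hl : l.length ≤ n)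
    (hQ : (Q : ℤ) = vL v B l) (h : dg ok B n Q = true) : ∀ a ∈ l, good a := by
  induction l generalizing n Q with
  | nil => simp
  | cons a l ih =>
    obtain ⟨n, rfl⟩ : ∃ m, n = m + 1 := ⟨n - 1, by simp at hl; omega⟩
    rw [dg_succ] at h
    obtain ⟨h1, h2⟩ := andR_eq h
    have h3 := hok _ (Nat.mod_lt _ hB) h1
    have h6 : ((Q % B : ℕ) : ℤ) + B * ((Q / B : ℕ) : ℤ) = Q := by
      exact_mod_cast Nat.mod_add_div Q B
    have h7 := hb a (by simp)
    simp only [vL] at hQ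
    have h8 : v a - ((Q % B : ℕ) : ℤ) = 0 := by
      refine Int.eq_zero_of_abs_lt_dvd (m := (B : ℤ)) ⟨((Q / B : ℕ) : ℤ) - vL v B l, ?_⟩ ?_
      · rw [mul_sub]; linarith
      · have h9 : |v a - ((Q % B : ℕ) : ℤ)| ≤ |v a| + ((Q % B : ℕ) : ℤ) := by
          refine (abs_sub _ _).trans ?_
          rw [abs_of_nonneg (Int.natCast_nonneg (Q % B))]
        have h10 : 2 * ((Q % B : ℕ) : ℤ) + 1 ≤ B := by exact_mod_cast h3
        linarith
    have h11 : v a = ((Q % B : ℕ) : ℤ) := by linarith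
    have h12 : (B : ℤ) * vL v B l = B * ((Q / B : ℕ) : ℤ) := by linarith
    have h13 : ((Q / B : ℕ) : ℤ) = vL v B l := by
      have hB' : (B : ℤ) ≠ 0 := by exact_mod_cast hB.ne'
      exact (mul_left_cancel₀ hB' h12).symm
    intro b hb'
    rcases List.mem_cons.mp hb' with rfl | hb'
    · exact hg _ (by simp) _ h11 h1
    · exact ih (fun c hc => hb c (by simp [hc])) (fun c hc => hg c (by simp [hc])) n (Q / B)
        (by simpa using hl) h13 h2 b hb'

end digits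

/-! ### polynomials in three variables -/

section three

/-- degrees in the last variable -/
def d1 (l : ℕ) : I1 → Prop := okL (fun _ : ℤ => True) l
/-- degrees in the last two variables -/
def d2 (j l : ℕ) : I2 → Prop := okL (d1 l) j
/-- degrees -/
def d3 (i j l : ℕ) : I3 → Prop := okL (d2 j l) i

theorem d1_add {l : ℕ} (p q : I1) (hp : d1 l p) (hq : d1 l q) : d1 l (add1 p q) :=
  okL_addL (fun _ _ _ _ => trivial) hp hq
theorem d2_add {j l : ℕ} (p q : I2) (hp : d2 j l p) (hq : d2 j l q) : d2 j l (add2 p q) :=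
  okL_addL d1_add hp hq
theorem d3_add {i j l : ℕ} (p q : I3) (hp : d3 i j l p) (hq : d3 i j l q) :
    d3 i j l (add3 p q) := okL_addL d2_add hp hq

theorem d1_mul {l l' : ℕ} (p q : I1) (hp : d1 l p) (hq : d1 l' q) : d1 (l + l') (mul1 p q) :=
  okL_mulL (fun _ _ _ _ => trivial) (fun _ _ _ _ => trivial) trivial hq p hp
theorem d2_mul {j j' l l' : ℕ} (p q : I2) (hp : d2 j l p) (hq : d2 j' l' q) :
    d2 (j + j') (l + l') (mul2 p q) :=
  okL_mulL d1_add d1_mul ⟨by simp, by simp⟩ hq p hp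
theorem d3_mul {i i' j j' l l' : ℕ} (p q : I3) (hp : d3 i j l p) (hq : d3 i' j' l' q) :
    d3 (i + i') (j + j') (l + l') (mul3 p q) :=
  okL_mulL d2_add d2_mul ⟨by simp, by simp⟩ hq p hp

/-- norm -/
def n1 : I1 → ℕ := nL Int.natAbs
/-- norm -/
def n2 : I2 → ℕ := nL n1
/-- norm -/
def n3 : I3 → ℕ := nL n2

theorem n1_add (p q : I1) : n1 (add1 p q) ≤ n1 p + n1 q := nL_addL Int.natAbs_add_le p q
theorem n2_add (p q : I2) : n2 (add2 p q) ≤ n2 p + n2 q := nL_addL n1_add p q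
theorem n3_add (p q : I3) : n3 (add3 p q) ≤ n3 p + n3 q := nL_addL n2_add p q
theorem n1_mul (p q : I1) : n1 (mul1 p q) ≤ n1 p * n1 q :=
  nL_mulL Int.natAbs_add_le (fun a b => (Int.natAbs_mul a b).le) rfl p q
theorem n2_mul (p q : I2) : n2 (mul2 p q) ≤ n2 p * n2 q := nL_mulL n1_add n1_mul rfl p q
theorem n3_mul (p q : I3) : n3 (mul3 p q) ≤ n3 p * n3 q := nL_mulL n2_add n2_mul rfl p q

/-- packed value -/
def v1 (R : ℤ) : I1 → ℤ := vL (fun n : ℤ => n) R
/-- packed value -/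
def v2 (R T : ℤ) : I2 → ℤ := vL (v1 R) T
/-- packed value -/
def v3 (R T S : ℤ) : I3 → ℤ := vL (v2 R T) S

theorem v3_cast (R T S : ℤ) (p : I3) : (v3 R T S p : ℝ) = evI (S : ℝ) (T : ℝ) (R : ℝ) p :=
  vL_cast _ _ _ (vL_cast _ _ _ (vL_cast _ _ _ (fun _ => rfl))) p

theorem v3_add (R T S : ℤ) (p q : I3) : v3 R T S (add3 p q) = v3 R T S p + v3 R T S q := by
  have h := evI_add (x := (S : ℝ)) (y := (T : ℝ)) (z := (R : ℝ)) p q
  rw [← v3_cast, ← v3_cast, ← v3_cast] at h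
  exact_mod_cast h

theorem v3_mul (R T S : ℤ) (p q : I3) : v3 R T S (mul3 p q) = v3 R T S p * v3 R T S q := by
  have h := evI_mul (x := (S : ℝ)) (y := (T : ℝ)) (z := (R : ℝ)) p q
  rw [← v3_cast, ← v3_cast, ← v3_cast] at h
  exact_mod_cast h

/-- a packed polynomial: degrees, packed value, majorant of the norm, values -/
def P3 (R T S : ℤ) (i j l : ℕ) (n : ℤ) (M : ℕ) (φ : ℝ → ℝ → ℝ → ℝ) : Prop :=
  ∃ p : I3, d3 i j l p ∧ v3 R T S p = n ∧ n3 p ≤ M ∧ ∀ s t r : ℝ, evI s t r p = φ s t r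

variable {R T S : ℤ} {i j l i' j' l' : ℕ} {n n' : ℤ} {M M' : ℕ} {φ ψ : ℝ → ℝ → ℝ → ℝ}

theorem P3.add (h : P3 R T S i j l n M φ) (h' : P3 R T S i j l n' M' ψ) :
    P3 R T S i j l (n + n') (M + M') (fun s t r => φ s t r + ψ s t r) := by
  obtain ⟨p, a1, a2, a3, a4⟩ := h
  obtain ⟨q, b1, b2, b3, b4⟩ := h'
  refine ⟨add3 p q, d3_add p q a1 b1, by rw [v3_add, a2, b2],
    (n3_add p q).trans (Nat.add_le_add a3 b3), fun s t r => ?_⟩
  rw [evI_add, a4, b4]

theorem P3.mul (h : P3 R T S i j l n M φ) (h' : P3 R T S i' j' l' n' M' ψ) :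
    P3 R T S (i + i') (j + j') (l + l') (n * n') (M * M')
      (fun s t r => φ s t r * ψ s t r) := by
  obtain ⟨p, a1, a2, a3, a4⟩ := h
  obtain ⟨q, b1, b2, b3, b4⟩ := h'
  refine ⟨mul3 p q, d3_mul p q a1 b1, by rw [v3_mul, a2, b2],
    (n3_mul p q).trans (Nat.mul_le_mul a3 b3), fun s t r => ?_⟩
  rw [evI_mul, a4, b4]

theorem P3.const (R T S n : ℤ) (M : ℕ) (hM : n.natAbs ≤ M) :
    P3 R T S 0 0 0 n M (fun _ _ _ => n) := by
  refine ⟨[[[n]]], ?_, by simp [v3, v2, v1, vL], by simpa [n3, n2, n1, nL] using hM,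
    fun s t r => by simp [evI, evL]⟩
  simp [d3, d2, d1, okL]

theorem P3.varx (R T S : ℤ) (a b : ℕ) :
    P3 R T S 1 0 0 (a + b * S) (a + b) (fun s _ _ => a + b * s) := by
  refine ⟨[[[(a : ℤ)]], [[(b : ℤ)]]], ?_, by simp [v3, v2, v1, vL]; ring,
    by simp [n3, n2, n1, nL], fun s t r => by simp [evI, evL]; ring⟩
  simp [d3, d2, d1, okL]

theorem P3.vary (R T S : ℤ) (a b : ℕ) :
    P3 R T S 0 1 0 (a + b * T) (a + b) (fun _ t _ => a + b * t) := by
  refine ⟨[[[(a : ℤ)], [(b : ℤ)]]], ?_, by simp [v3, v2, v1, vL]; ring,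
    by simp [n3, n2, n1, nL], fun s t r => by simp [evI, evL]; ring⟩
  simp [d3, d2, d1, okL]

theorem P3.varz (R T S : ℤ) (a b : ℕ) :
    P3 R T S 0 0 1 (a + b * R) (a + b) (fun _ _ r => a + b * r) := by
  refine ⟨[[[(a : ℤ), (b : ℤ)]]], ?_, by simp [v3, v2, v1, vL]; ring,
    by simp [n3, n2, n1, nL], fun s t r => by simp [evI, evL]; ring⟩
  simp [d3, d2, d1, okL]

theorem P3.congr (h : P3 R T S i j l n M φ) (hi : i = i') (hj : j = j') (hl : l = l')
    (hn : n = n') (hM : M = M') : P3 R T S i' j' l' n' M' φ := by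
  subst hi hj hl hn hM
  exact h

theorem P3.pow (h : P3 R T S i j l n M φ) (k : ℕ) :
    P3 R T S (k * i) (k * j) (k * l) (n ^ k) (M ^ k) (fun s t r => φ s t r ^ k) := by
  induction k with
  | zero =>
    obtain ⟨p, a1, a2, a3, a4⟩ := P3.const R T S 1 1 (by simp)
    refine P3.congr ⟨p, a1, a2, a3, fun s t r => ?_⟩ (by simp) (by simp) (by simp) (by simp)
      (by simp)
    rw [a4]; simp
  | succ k ih =>
    obtain ⟨p, a1, a2, a3, a4⟩ := ih.mul h
    refine P3.congr ⟨p, a1, a2, a3, fun s t r => ?_⟩ (by ring) (by ring) (by ring) (by ring)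
      (by ring)
    rw [a4]; ring

/-- the factor -/
theorem P3.fac (R T S : ℕ) (i j l c : ℕ) :
    P3 R T S i j l (fac (S + 1) (T + 1) (R + 1) i j l c : ℕ) (fac 2 2 2 i j l c)
      (fun s t r => (1 + s) ^ i * ((1 + t) ^ j * ((1 + r) ^ l * c))) := by
  have hx := (P3.varx R T S 1 1).pow i
  have hy := (P3.vary R T S 1 1).pow j
  have hz := (P3.varz R T S 1 1).pow l
  have hc := P3.const R T S c c (by simp)
  obtain ⟨p, a1, a2, a3, a4⟩ := hx.mul (hy.mul (hz.mul hc))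
  refine P3.congr ⟨p, a1, a2, a3, fun s t r => ?_⟩ (by simp) (by simp) (by simp) ?_ ?_
  · rw [a4]; simp
  · show _ = (((S + 1) ^ i * ((T + 1) ^ j * ((R + 1) ^ l * c)) : ℕ) : ℤ)
    push_cast; ring
  · show _ = 2 ^ i * (2 ^ j * (2 ^ l * c))
    norm_num

end three

/-! ### soundness -/

section sound

/-- the point of a side with parameter `s` -/
noncomputable def xv (a : KS) (s : ℝ) : ℝ := (a.L + a.W / (1 + s)) / a.D

/-- meaning of the arguments of a continuation -/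
def Sp (a b c : KS) (R T S : ℕ) (e : Ex) (i j l d P N M : ℕ) : Prop :=
  0 < d ∧ ∃ φ : ℝ → ℝ → ℝ → ℝ, P3 R T S i j l ((P : ℤ) - N) M φ ∧
    ∀ s t r : ℝ, 0 ≤ s → 0 ≤ t → 0 ≤ r →
      φ s t r = e.ev (xv a s) (xv b t) (xv c r) *
        (d * ((1 + s) ^ i * ((1 + t) ^ j * (1 + r) ^ l)))

variable {a b c : KS} {R T S : ℕ}

theorem Sp.neg {e : Ex} {i j l d P N M : ℕ} (h : Sp a b c R T S e i j l d P N M) :
    Sp a b c R T S (-e) i j l d N P M := by
  obtain ⟨hd, φ, h1, h2⟩ := h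
  obtain ⟨p, a1, a2, a3, a4⟩ := (P3.const R T S (-1) 1 (by simp)).mul h1
  refine ⟨hd, fun s t r => - φ s t r, ?_, fun s t r hs ht hr => ?_⟩
  · refine P3.congr ⟨p, a1, a2, a3, fun s t r => ?_⟩ (by simp) (by simp) (by simp) (by ring)
      (by simp)
    rw [a4]; simp
  · show - φ s t r = _
    rw [h2 s t r hs ht hr, Ex.ev_neg]; ring

theorem gcd_aux (d d' : ℕ) (hd : 0 < d) : ∃ g u v : ℕ, Nat.gcd d d' = g ∧ d = g * u ∧
    d' = g * v ∧ Nat.div d g = u ∧ Nat.div d' g = v := by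
  obtain ⟨g, hg⟩ : ∃ g, Nat.gcd d d' = g := ⟨_, rfl⟩
  obtain ⟨u, hu⟩ : g ∣ d := hg ▸ Nat.gcd_dvd_left _ _
  obtain ⟨v, hv⟩ : g ∣ d' := hg ▸ Nat.gcd_dvd_right _ _
  have hg0 : 0 < g := hg ▸ Nat.gcd_pos_of_pos_left _ hd
  refine ⟨g, u, v, hg, hu, hv, ?_, ?_⟩
  · show d / g = u
    rw [hu]; exact Nat.mul_div_cancel_left _ hg0
  · show d' / g = v
    rw [hv]; exact Nat.mul_div_cancel_left _ hg0

theorem Sp.add {e f : Ex} {i j l P N M i' j' l' P' N' M' g u v i1 j1 l1 i2 j2 l2 : ℕ}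
    (he : Sp a b c R T S e i j l (g * u) P N M) (hf : Sp a b c R T S f i' j' l' (g * v) P' N' M')
    (hv : 0 < v) (hi : i1 + i = i2 + i') (hj : j1 + j = j2 + j') (hl : l1 + l = l2 + l')
    {F1 F2 m1 m2 A B : ℕ} (hF1 : fac (S + 1) (T + 1) (R + 1) i1 j1 l1 v = F1)
    (hF2 : fac (S + 1) (T + 1) (R + 1) i2 j2 l2 u = F2)
    (hm1 : fac 2 2 2 i1 j1 l1 v = m1) (hm2 : fac 2 2 2 i2 j2 l2 u = m2)
    (hA : F1 * P + F2 * P' = A) (hB : F1 * N + F2 * N' = B) :
    Sp a b c R T S (e + f) (i1 + i) (j1 + j) (l1 + l) (v * (g * u)) (A - B) (B - A)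
      (m1 * M + m2 * M') := by
  obtain ⟨hd, φ, h1, h2⟩ := he
  obtain ⟨hd', ψ, h3, h4⟩ := hf
  have k1 := (P3.fac R T S i1 j1 l1 v).mul h1
  have k2 := (P3.fac R T S i2 j2 l2 u).mul h3
  rw [hF1, hm1] at k1
  rw [hF2, hm2, ← hi, ← hj, ← hl] at k2
  refine ⟨Nat.mul_pos hv hd, _, (k1.add k2).congr rfl rfl rfl ?_ rfl,
    fun s t r hs ht hr => ?_⟩
  · have hA' : (F1 : ℤ) * P + F2 * P' = A := by exact_mod_cast hA
    have hB' : (F1 : ℤ) * N + F2 * N' = B := by exact_mod_cast hB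
    have : (F1 : ℤ) * (P - N) + F2 * (P' - N') = A - B := by rw [← hA', ← hB']; ring
    rw [this]; omega
  · rw [h2 s t r hs ht hr, h4 s t r hs ht hr, Ex.ev_add]
    have e1 : (1 + s) ^ (i1 + i) = (1 + s) ^ (i2 + i') := by rw [hi]
    have e2 : (1 + t) ^ (j1 + j) = (1 + t) ^ (j2 + j') := by rw [hj]
    have e3 : (1 + r) ^ (l1 + l) = (1 + r) ^ (l2 + l') := by rw [hl]
    rw [add_mul]
    congr 1
    · push_cast; ring
    · rw [e1, e2, e3]; push_cast; ring

theorem addK_spec {e f : Ex} {i j l d P N M i' j' l' d' P' N' M' : ℕ} {k : Ct}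
    (h : addK (S + 1) (T + 1) (R + 1) i j l d P N M i' j' l' d' P' N' M' k = true)
    (he : Sp a b c R T S e i j l d P N M) (hf : Sp a b c R T S f i' j' l' d' P' N' M') :
    ∃ i'' j'' l'' d'' P'' N'' M'' : ℕ, Sp a b c R T S (e + f) i'' j'' l'' d'' P'' N'' M'' ∧
      k i'' j'' l'' d'' P'' N'' M'' = true := by
  simp only [addK, st_eq] at h
  refine ⟨_, _, _, _, _, _, _, ?_, h⟩
  obtain ⟨g, u, v, hg, hu, hv, hu', hv'⟩ := gcd_aux d d' he.1
  rw [hg, hu', hv']
  have hd' := hf.1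
  rw [hu] at he
  rw [hv] at hf
  have hv0 : 0 < v := by
    rcases Nat.eq_zero_or_pos v with h0 | h0
    · rw [h0, Nat.mul_zero] at hv; omega
    · exact h0
  rw [hu]
  have hi : (i' - i) + i = (i - i') + i' := by omega
  have hj : (j' - j) + j = (j - j') + j' := by omega
  have hl : (l' - l) + l = (l - l') + l' := by omega
  exact he.add hf hv0 hi hj hl rfl rfl rfl rfl rfl rfl

theorem mulK_spec {e f : Ex} {i j l d P N M i' j' l' d' P' N' M' : ℕ} {k : Ct}
    (h : mulK i j l d P N M i' j' l' d' P' N' M' k = true)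
    (he : Sp a b c R T S e i j l d P N M) (hf : Sp a b c R T S f i' j' l' d' P' N' M') :
    ∃ i'' j'' l'' d'' P'' N'' M'' : ℕ, Sp a b c R T S (e * f) i'' j'' l'' d'' P'' N'' M'' ∧
      k i'' j'' l'' d'' P'' N'' M'' = true := by
  simp only [mulK, st_eq] at h
  refine ⟨_, _, _, _, _, _, _, ?_, h⟩
  obtain ⟨hd, φ, h1, h2⟩ := he
  obtain ⟨hd', ψ, h3, h4⟩ := hf
  refine ⟨Nat.mul_pos hd hd', _, (h1.mul h3).congr rfl rfl rfl ?_ rfl,
    fun s t r hs ht hr => ?_⟩
  · show ((P : ℤ) - N) * (P' - N') = ((P * P' + N * N' : ℕ) : ℤ) - ((P * N' + N * P' : ℕ) : ℤ)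
    push_cast; ring
  · rw [h2 s t r hs ht hr, h4 s t r hs ht hr, Ex.ev_mul]
    have e0 : ((Nat.mul d d' : ℕ) : ℝ) = d * d' := by
      show ((d * d' : ℕ) : ℝ) = _
      push_cast; ring
    have e1 : (1 + s) ^ (Nat.add i i') = (1 + s) ^ i * (1 + s) ^ i' := pow_add _ _ _
    have e2 : (1 + t) ^ (Nat.add j j') = (1 + t) ^ j * (1 + t) ^ j' := pow_add _ _ _
    have e3 : (1 + r) ^ (Nat.add l l') = (1 + r) ^ l * (1 + r) ^ l' := pow_add _ _ _
    rw [e0, e1, e2, e3]; ring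

theorem side_aux (a : KS) (s : ℝ) (hs : 0 ≤ s) (hD : 0 < a.D) :
    ((a.L + a.W : ℕ) : ℝ) + a.L * s = xv a s * (a.D * (1 + s)) := by
  have h1 : (a.D : ℝ) ≠ 0 := by exact_mod_cast hD.ne'
  have h2 : 1 + s ≠ 0 := by positivity
  rw [xv]
  push_cast
  field_simp
  ring

theorem evK_spec (ha : 0 < a.D) (hb : 0 < b.D) (hc : 0 < c.D) (e : Ex) (k : Ct)
    (h : evK (S + 1) (T + 1) (R + 1) a.D (xN a S) (xN a 1) b.D (xN b T) (xN b 1) c.D (xN c R)
      (xN c 1) e k = true) :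
    ∃ i j l d P N M : ℕ, Sp a b c R T S e i j l d P N M ∧ k i j l d P N M = true := by
  induction e generalizing k with
  | q n d =>
    obtain ⟨h1, h2⟩ := andR_eq h
    refine ⟨_, _, _, _, _, _, _, ⟨by simpa using h1, fun _ _ _ => (n : ℝ), ?_, ?_⟩, h2⟩
    · refine (P3.const R T S n (Int.toNat n + Int.toNat (-n)) (by omega)).congr rfl rfl rfl ?_ rfl
      have : Int.neg n = -n := rfl
      rw [this]; omega
    · intro s t r _ _ _
      have hd : (d : ℝ) ≠ 0 := by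
        have : 0 < d := by simpa using h1
        exact_mod_cast this.ne'
      simp only [pow_zero, mul_one]
      show (n : ℝ) = (n : ℝ) / d * d
      field_simp
  | x =>
    refine ⟨_, _, _, _, _, _, _,
      ⟨ha, fun s _ _ => ((a.L + a.W : ℕ) : ℝ) + a.L * s, ?_, ?_⟩, h⟩
    · refine (P3.varx R T S (a.L + a.W) a.L).congr rfl rfl rfl ?_ ?_
      · show _ = ((a.L + a.W + a.L * S : ℕ) : ℤ) - ((0 : ℕ) : ℤ)
        push_cast; ring
      · show _ = a.L + a.W + a.L * 1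
        ring
    · intro s t r hs _ _
      simp only [pow_one, pow_zero, mul_one]
      exact side_aux a s hs ha
  | y =>
    refine ⟨_, _, _, _, _, _, _,
      ⟨hb, fun _ t _ => ((b.L + b.W : ℕ) : ℝ) + b.L * t, ?_, ?_⟩, h⟩
    · refine (P3.vary R T S (b.L + b.W) b.L).congr rfl rfl rfl ?_ ?_
      · show _ = ((b.L + b.W + b.L * T : ℕ) : ℤ) - ((0 : ℕ) : ℤ)
        push_cast; ring
      · show _ = b.L + b.W + b.L * 1
        ring
    · intro s t r _ ht _
      simp only [pow_one, pow_zero, mul_one, one_mul]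
      exact side_aux b t ht hb
  | z =>
    refine ⟨_, _, _, _, _, _, _,
      ⟨hc, fun _ _ r => ((c.L + c.W : ℕ) : ℝ) + c.L * r, ?_, ?_⟩, h⟩
    · refine (P3.varz R T S (c.L + c.W) c.L).congr rfl rfl rfl ?_ ?_
      · show _ = ((c.L + c.W + c.L * R : ℕ) : ℤ) - ((0 : ℕ) : ℤ)
        push_cast; ring
      · show _ = c.L + c.W + c.L * 1
        ring
    · intro s t r _ _ hr
      simp only [pow_one, pow_zero, one_mul]
      exact side_aux c r hr hc
  | add e f ihe ihf =>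
    obtain ⟨i, j, l, d, P, N, M, h1, h2⟩ := ihe _ h
    obtain ⟨i', j', l', d', P', N', M', h3, h4⟩ := ihf _ h2
    exact addK_spec h4 h1 h3
  | sub e f ihe ihf =>
    obtain ⟨i, j, l, d, P, N, M, h1, h2⟩ := ihe _ h
    obtain ⟨i', j', l', d', P', N', M', h3, h4⟩ := ihf _ h2
    obtain ⟨i'', j'', l'', d'', P'', N'', M'', ⟨h5, φ, h6, h7⟩, h8⟩ := addK_spec h4 h1 h3.neg
    refine ⟨i'', j'', l'', d'', P'', N'', M'', ⟨h5, φ, h6, fun s t r hs ht hr => ?_⟩, h8⟩
    rw [h7 s t r hs ht hr, Ex.ev_add, Ex.ev_neg, ← sub_eq_add_neg]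
    rfl
  | mul e f ihe ihf =>
    obtain ⟨i, j, l, d, P, N, M, h1, h2⟩ := ihe _ h
    obtain ⟨i', j', l', d', P', N', M', h3, h4⟩ := ihf _ h2
    exact mulK_spec h4 h1 h3
  | pow e n ih => exact absurd h (by simp [evK])

end sound

/-! ### the digits give the sign -/

section final

theorem ok1_spec {R m : ℕ} (h : ok1 R m = true) : 2 * m + 1 ≤ R := by
  have h1 : Nat.ble (Nat.succ (2 * m)) R = true := h
  exact Nat.le_of_ble_eq_true h1

theorem ok2_spec {R l m : ℕ} (hR : 0 < R) (hm : m < R ^ (l + 1)) (h : ok2 R l m = true) :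
    2 * m + 1 ≤ R ^ (l + 1) :=
  dg_bound hR (fun _ _ h => ok1_spec h) (l + 1) m h hm

theorem ok3_spec {R T l j m : ℕ} (hR : 0 < R) (hT : T = R ^ (l + 1)) (hm : m < T ^ (j + 1))
    (h : ok3 R T l j m = true) : 2 * m + 1 ≤ T ^ (j + 1) :=
  dg_bound (by rw [hT]; positivity) (fun _ hm h => by
    rw [hT] at hm ⊢; exact ok2_spec hR hm h) (j + 1) m h hm

theorem v1_bound {R l : ℕ} {q : I1} (hR : 0 < R) (hd : d1 l q) (hM : 2 * n1 q < R) :
    2 * |v1 R q| < ((R ^ (l + 1) : ℕ) : ℤ) := by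
  have hR' : (1 : ℤ) ≤ R := by exact_mod_cast hR
  have h := abs_vL_le (N := Int.natAbs) (v := fun n : ℤ => n) (K := 1) hR' (by norm_num) l q hd.1
    (fun c _ => by rw [mul_one]; exact (Int.natCast_natAbs c).ge)
  have h1 : |v1 R q| ≤ n1 q * (1 * (R : ℤ) ^ l) := h
  have h2 : (2 : ℤ) * n1 q < R := by exact_mod_cast hM
  have h3 : (0 : ℤ) < (R : ℤ) ^ l := by positivity
  push_cast
  rw [pow_succ]
  nlinarith [mul_lt_mul_of_pos_right h2 h3]

theorem v2_bound {R T j l : ℕ} {q : I2} (hR : 0 < R) (hT : T = R ^ (l + 1)) (hd : d2 j l q)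
    (hM : 2 * n2 q < R) : 2 * |v2 R T q| < ((T ^ (j + 1) : ℕ) : ℤ) := by
  have hR' : (1 : ℤ) ≤ R := by exact_mod_cast hR
  have hT0 : 0 < T := by rw [hT]; positivity
  have hT' : (1 : ℤ) ≤ T := by exact_mod_cast hT0
  have h := abs_vL_le (N := n1) (v := v1 (R : ℤ)) (K := 1 * (R : ℤ) ^ l) hT' (by positivity) j q
    hd.1 (fun c hc => abs_vL_le (N := Int.natAbs) (v := fun n : ℤ => n) (K := 1) hR'
      (by norm_num) l c (hd.2 c hc).1
      (fun c _ => by rw [mul_one]; exact (Int.natCast_natAbs c).ge))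
  have h1 : |v2 R T q| ≤ n2 q * (1 * (R : ℤ) ^ l * (T : ℤ) ^ j) := h
  have h2 : (2 : ℤ) * n2 q < R := by exact_mod_cast hM
  have h3 : (0 : ℤ) < (R : ℤ) ^ l * (T : ℤ) ^ j := by positivity
  have h4 : ((T ^ (j + 1) : ℕ) : ℤ) = R * ((R : ℤ) ^ l * (T : ℤ) ^ j) := by
    push_cast
    rw [pow_succ]
    have : (T : ℤ) = (R : ℤ) ^ (l + 1) := by rw [hT]; push_cast; ring
    calc (T : ℤ) ^ j * T = (T : ℤ) ^ j * (R : ℤ) ^ (l + 1) := by rw [← this]
      _ = _ := by rw [pow_succ]; ring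
  rw [h4]
  nlinarith [mul_lt_mul_of_pos_right h2 h3]

theorem good1 {R l m : ℕ} {q : I1} (hR : 0 < R) (hd : d1 l q) (hM : 2 * n1 q < R)
    (hv : v1 R q = m) (h : ok2 R l m = true) : ∀ c ∈ q, (0 : ℤ) ≤ c := by
  refine dg_list (v := fun n : ℤ => n) (good := fun c : ℤ => 0 ≤ c) hR
    (fun _ _ h => ok1_spec h) q (fun c hc => ?_) (fun c _ m hm _ => ?_) (l + 1) m hd.1 hv.symm h
  · have h1 : Int.natAbs c ≤ n1 q := le_nL (N := Int.natAbs) hc
    have h2 : (|c| : ℤ) = Int.natAbs c := (Int.natCast_natAbs c).symm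
    show 2 * |c| < (R : ℤ)
    rw [h2]
    have h3 : 2 * Int.natAbs c < R := by omega
    exact_mod_cast h3
  · show (0 : ℤ) ≤ c
    have : c = (m : ℤ) := hm
    omega

theorem good2 {R T j l m : ℕ} {q : I2} (hR : 0 < R) (hT : T = R ^ (l + 1)) (hd : d2 j l q)
    (hM : 2 * n2 q < R) (hv : v2 R T q = m) (h : ok3 R T l j m = true) :
    ∀ r ∈ q, ∀ c ∈ r, (0 : ℤ) ≤ c := by
  refine dg_list (v := v1 (R : ℤ)) (good := fun r : I1 => ∀ c ∈ r, (0 : ℤ) ≤ c)
    (B := T) (by rw [hT]; positivity) (fun m hm h => ?_) q (fun r hr => ?_)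
    (fun r hr m hm h => ?_) (j + 1) m hd.1 hv.symm h
  · rw [hT] at hm ⊢; exact ok2_spec hR hm h
  · have h1 : n1 r ≤ n2 q := le_nL (N := n1) hr
    rw [hT]
    exact v1_bound hR (hd.2 r hr) (by omega)
  · have h1 : n1 r ≤ n2 q := le_nL (N := n1) hr
    exact good1 hR (hd.2 r hr) (by omega) hm h

theorem good3 {R T S i j l m : ℕ} {q : I3} (hR : 0 < R) (hT : T = R ^ (l + 1))
    (hS : S = T ^ (j + 1)) (hd : d3 i j l q)
    (hM : 2 * n3 q < R) (hv : v3 R T S q = m) (h : dg (ok3 R T l j) S (i + 1) m = true) :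
    ∀ p ∈ q, ∀ r ∈ p, ∀ c ∈ r, (0 : ℤ) ≤ c := by
  have hT0 : 0 < T := by rw [hT]; positivity
  refine dg_list (v := v2 (R : ℤ) T) (good := fun p : I2 => ∀ r ∈ p, ∀ c ∈ r, (0 : ℤ) ≤ c)
    (B := S) (by rw [hS]; positivity) (fun m hm h => ?_) q (fun r hr => ?_)
    (fun r hr m hm h => ?_) (i + 1) m hd.1 hv.symm h
  · rw [hS] at hm ⊢; exact ok3_spec hR hT hm h
  · have h1 : n2 r ≤ n3 q := le_nL (N := n2) hr
    rw [hS]
    exact v2_bound hR hT (hd.2 r hr) (by omega)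
  · have h1 : n2 r ≤ n3 q := le_nL (N := n2) hr
    exact good2 hR hT (hd.2 r hr) (by omega) hm h

theorem fin_spec {a b c : KS} {R T S i j l : ℕ} {e : Ex} {i' j' l' d P N M : ℕ} (hR : 0 < R)
    (hT : T = R ^ (l + 1)) (hS : S = T ^ (j + 1))
    (h : fin i j l R T S i' j' l' d P N M = true)
    (hs : Sp a b c R T S e i' j' l' d P N M) {s t r : ℝ} (s0 : 0 ≤ s) (t0 : 0 ≤ t)
    (r0 : 0 ≤ r) : 0 ≤ e.ev (xv a s) (xv b t) (xv c r) := by
  obtain ⟨c1, g1⟩ := andR_eq h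
  obtain ⟨c2, g2⟩ := andR_eq g1
  obtain ⟨c3, g3⟩ := andR_eq g2
  obtain ⟨c4, g4⟩ := andR_eq g3
  obtain ⟨c5, g5⟩ := andR_eq g4
  obtain ⟨c6, g6⟩ := andR_eq g5
  obtain ⟨hd, φ, ⟨p, p1, p2, p3, p4⟩, h2⟩ := hs
  have k1 : i' ≤ i := Nat.le_of_ble_eq_true c1
  have k2 : j' ≤ j := Nat.le_of_ble_eq_true c2
  have k3 : l' ≤ l := Nat.le_of_ble_eq_true c3
  have k4 : 2 * M < R := Nat.le_of_ble_eq_true c4
  have k5 : N = 0 := Nat.eq_of_beq_eq_true c5
  subst k5
  have q1 : d3 i j l p := okL.mono (fun _ h => okL.mono (fun _ h => okL.mono (fun _ h => h) k3 h)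
    k2 h) k1 p1
  have h3 : ∀ p' ∈ p, ∀ r ∈ p', ∀ c ∈ r, (0 : ℤ) ≤ c :=
    good3 hR hT hS q1 (by omega) (by rw [p2]; simp) g6
  have h4 : 0 ≤ φ s t r := by
    rw [← p4]
    refine evL_nonneg s0 p (fun q hq => evL_nonneg t0 q (fun u hu => evL_nonneg r0 u
      (fun v hv => ?_)))
    exact_mod_cast h3 q hq u hu v hv
  rw [h2 s t r s0 t0 r0] at h4
  have h5 : 0 < (d : ℝ) * ((1 + s) ^ i' * ((1 + t) ^ j' * (1 + r) ^ l')) := by
    have : (0 : ℝ) < d := by exact_mod_cast hd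
    positivity
  exact nonneg_of_mul_nonneg_left h4 h5

theorem ev_continuous (e : Ex) {X Y Z : ℝ → ℝ} (hX : Continuous X) (hY : Continuous Y)
    (hZ : Continuous Z) : Continuous (fun u => e.ev (X u) (Y u) (Z u)) := by
  induction e with
  | q n d => exact continuous_const
  | x => exact hX
  | y => exact hY
  | z => exact hZ
  | add e f ihe ihf => exact ihe.add ihf
  | sub e f ihe ihf => exact ihe.sub ihf
  | mul e f ihe ihf => exact ihe.mul ihf
  | pow e n ih => exact ih.pow n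

theorem xv_of {a : KS} {τ : ℝ} (h0 : 0 < τ) :
    xv a ((1 - τ) / τ) = (a.L + a.W * τ) / a.D := by
  rw [xv]
  have : 1 + (1 - τ) / τ = 1 / τ := by field_simp; ring
  rw [this]
  simp

/-- membership in a side -/
def KS.mem (a : KS) (x : ℝ) : Prop := (a.L : ℝ) ≤ a.D * x ∧ (a.D : ℝ) * x ≤ a.L + a.W

theorem KS.param {a : KS} (hD : 0 < a.D) (hW : 0 < a.W) {x : ℝ} (hx : a.mem x) :
    ∃ τ : ℝ, 0 ≤ τ ∧ τ ≤ 1 ∧ x = (a.L + a.W * τ) / a.D := by
  have hD' : (0 : ℝ) < a.D := by exact_mod_cast hD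
  have hW' : (0 : ℝ) < a.W := by exact_mod_cast hW
  refine ⟨(a.D * x - a.L) / a.W, div_nonneg (by linarith [hx.1]) hW'.le, ?_, ?_⟩
  · rw [div_le_one hW']; linarith [hx.2]
  · field_simp; ring

theorem nonneg_of_open {e : Ex} {a b c : KS}
    (h : ∀ s t r : ℝ, 0 ≤ s → 0 ≤ t → 0 ≤ r → 0 ≤ e.ev (xv a s) (xv b t) (xv c r))
    {x y z : ℝ} (hx : 0 ≤ x) (hx1 : x ≤ 1) (hy : 0 ≤ y) (hy1 : y ≤ 1) (hz : 0 ≤ z)
    (hz1 : z ≤ 1) :
    0 ≤ e.ev ((a.L + a.W * x) / a.D) ((b.L + b.W * y) / b.D) ((c.L + c.W * z) / c.D) := by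
  have hc : Continuous (fun u : ℝ => e.ev ((a.L + a.W * (u + (1 - u) * x)) / a.D)
      ((b.L + b.W * (u + (1 - u) * y)) / b.D) ((c.L + c.W * (u + (1 - u) * z)) / c.D)) :=
    ev_continuous e (by fun_prop) (by fun_prop) (by fun_prop)
  have hcl : IsClosed {u : ℝ | 0 ≤ e.ev ((a.L + a.W * (u + (1 - u) * x)) / a.D)
      ((b.L + b.W * (u + (1 - u) * y)) / b.D) ((c.L + c.W * (u + (1 - u) * z)) / c.D)} :=
    isClosed_le continuous_const hc
  have hsub : Set.Ioc (0 : ℝ) 1 ⊆ {u : ℝ | 0 ≤ e.ev ((a.L + a.W * (u + (1 - u) * x)) / a.D)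
      ((b.L + b.W * (u + (1 - u) * y)) / b.D) ((c.L + c.W * (u + (1 - u) * z)) / c.D)} := by
    intro u hu
    have key : ∀ v : ℝ, 0 ≤ v → v ≤ 1 → 0 < u + (1 - u) * v ∧ u + (1 - u) * v ≤ 1 := by
      intro v hv hv1
      have h1 := hu.1
      have h2 := hu.2
      constructor
      · nlinarith [mul_nonneg (sub_nonneg.mpr h2) hv]
      · nlinarith [mul_nonneg (sub_nonneg.mpr h2) (sub_nonneg.mpr hv1)]
    have hpos : ∀ v : ℝ, 0 < v → v ≤ 1 → 0 ≤ (1 - v) / v := fun v h0 h1 =>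
      div_nonneg (sub_nonneg.mpr h1) h0.le
    have hh := h _ _ _ (hpos _ (key x hx hx1).1 (key x hx hx1).2)
      (hpos _ (key y hy hy1).1 (key y hy hy1).2) (hpos _ (key z hz hz1).1 (key z hz hz1).2)
    rw [xv_of (key x hx hx1).1, xv_of (key y hy hy1).1, xv_of (key z hz hz1).1] at hh
    exact hh
  have h0 : (0 : ℝ) ∈ closure (Set.Ioc (0 : ℝ) 1) := by
    rw [closure_Ioc (by norm_num)]; simp
  have := hcl.closure_subset_iff.mpr hsub h0
  simpa using this

/-- **Soundness of the check.** -/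
theorem checkKr_spec {e : Ex} {a b c : KS} {i j l w : ℕ} (h : checkKr e a b c i j l w = true)
    (ha : 0 < a.W) (hb : 0 < b.W) (hc : 0 < c.W)
    {x y z : ℝ} (hx : a.mem x) (hy : b.mem y) (hz : c.mem z) : 0 ≤ e.ev x y z := by
  simp only [checkKr, st_eq] at h
  obtain ⟨h1, h⟩ := andR_eq h
  obtain ⟨h2, h⟩ := andR_eq h
  obtain ⟨h3, h⟩ := andR_eq h
  have a1 : 0 < a.D := by simpa using h1
  have b1 : 0 < b.D := by simpa using h2
  have c1 : 0 < c.D := by simpa using h3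
  obtain ⟨i', j', l', d, P, N, M, k1, k2⟩ := evK_spec a1 b1 c1 e _ h
  obtain ⟨x', hx0, hx1, rfl⟩ := KS.param a1 ha hx
  obtain ⟨y', hy0, hy1, rfl⟩ := KS.param b1 hb hy
  obtain ⟨z', hz0, hz1, rfl⟩ := KS.param c1 hc hz
  have hR : 0 < 2 ^ w := by positivity
  exact nonneg_of_open (fun s t r s0 t0 r0 => fin_spec hR rfl rfl k2 k1 s0 t0 r0)
    hx0 hx1 hy0 hy1 hz0 hz1

end final

end Pool.Agent.Lib.QNL.PolyKron
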