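import Pool.Agent.Lib.QNL.Poly66D
import Pool.Agent.Lib.QNL.PolyKron

/-!
# The region theorem with the light checks of `PolyKron`
-/

set_option autoImplicit false

namespace Pool.Agent.Lib.QNL.Poly66

open Pool.Agent.Lib.QNL.PolyPos Pool.Agent.Lib.QNL.PolyKron

/-- `0 ≤ e` for `x, z ∈ [0, 1]` and `y` in the side `b` -/
def PosOn (e : Ex) (b : KS) : Prop :=
  ∀ X Y Z : ℝ, 0 ≤ X → X ≤ 1 → b.mem Y → 0 ≤ Z → Z ≤ 1 → 0 ≤ e.ev X Y Z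

theorem unit_mem {x : ℝ} (h0 : 0 ≤ x) (h1 : x ≤ 1) : KS.mem ⟨0, 1, 1⟩ x := by
  constructor
  · simpa using h0
  · simpa using h1

theorem posOn_of {e : Ex} {b : KS} (i j l w : ℕ) (hb : 0 < b.W)
    (h : checkKr e ⟨0, 1, 1⟩ b ⟨0, 1, 1⟩ i j l w = true) : PosOn e b :=
  fun _ _ _ hX hX1 hY hZ hZ1 =>
    checkKr_spec h Nat.one_pos hb Nat.one_pos (unit_mem hX hX1) hY (unit_mem hZ hZ1)

theorem posOn_of_split {e : Ex} {b : KS} (i j l w : ℕ) (hb : 0 < b.W)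
    (h : checkKr e ⟨0, 1, 1⟩ b ⟨0, 1, 2⟩ i j l w = true)
    (h' : checkKr e ⟨0, 1, 1⟩ b ⟨1, 1, 2⟩ i j l w = true) : PosOn e b := by
  intro X Y Z hX hX1 hY hZ hZ1
  rcases le_total Z (1 / 2) with hz | hz
  · refine checkKr_spec h Nat.one_pos hb Nat.one_pos (unit_mem hX hX1) hY ⟨?_, ?_⟩
    · push_cast; linarith
    · push_cast; linarith
  · refine checkKr_spec h' Nat.one_pos hb Nat.one_pos (unit_mem hX hX1) hY ⟨?_, ?_⟩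
    · push_cast; linarith
    · push_cast; linarith

/-- **a region from five light checks** -/
theorem regionK (g : Reg) {t a w be Fm Km em m0 m1 mu F K e : ℝ}
    (hv : g.Val t a w be Fm Km em m0 m1) {S : KS} (hS : S.mem t)
    (c1 : PosOn (gRL g.A g.W g.BE g.MU g.FE g.KE g.EE Ex.z) S)
    (c2 : PosOn (gRU g.A g.W g.BE g.MU g.FE g.KE g.EE Ex.z) S)
    (c3 : PosOn (gLL g.A g.W g.BE g.MU g.FE g.KE g.EE Ex.z) S)
    (c4 : PosOn (gLP g.A g.W g.BE g.MU g.FE g.KE g.EE Ex.z) S)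
    (c5 : PosOn (qE g.A g.W g.BE g.MU Ex.z) S)
    (hm : m0 < m1) (hmu0 : m0 ≤ mu) (hmu1 : mu ≤ m1)
    (ha : 1 / 2 ≤ a) (ha1 : a < 1) (hw : 0 < w) (hwa : w ≤ 1 - a) (hbe : 0 ≤ be)
    (hm0 : 0 ≤ m0) (hFm : 0 < Fm) (hF : Fm ≤ F) (hK : Km ≤ K) (hK1 : K ≤ 1) (he0 : 0 ≤ e)
    (he : e ≤ em) : Key a w be mu F K e := by
  obtain ⟨τ, hτ0, hτ1, hτ⟩ : ∃ τ : ℝ, 0 ≤ τ ∧ τ ≤ 1 ∧ m0 + τ * (m1 - m0) = mu := by
    refine ⟨(mu - m0) / (m1 - m0), div_nonneg (by linarith) (by linarith), ?_, ?_⟩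
    · rw [div_le_one (by linarith)]; linarith
    · rw [div_mul_cancel₀ _ (by linarith : m1 - m0 ≠ 0)]; ring
  have hMU : ∀ Z, g.MU.ev τ t Z = mu := by
    intro Z
    simp only [Reg.MU, Ex.ev_add, Ex.ev_mul, Ex.ev_sub, Ex.ev_x, hv.M0, hv.M1]
    exact hτ
  refine key_of ha ha1 hw hwa hbe (hm0.trans hmu0) hFm hF hK hK1 he0 he ?_ ?_ ?_ ?_ ?_
  · intro s hs0 hs1
    have h := c5 τ t s hτ0 hτ1 hS hs0 hs1
    rw [ev_qE, hv.A, hv.W, hv.BE, hMU, Ex.ev_z] at h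
    linarith
  · intro s hs0 hs1
    have h := c1 τ t s hτ0 hτ1 hS hs0 hs1
    rwa [ev_gRL, hv.A, hv.W, hv.BE, hMU, hv.FE, hv.KE, hv.EE, Ex.ev_z] at h
  · intro s hs0 hs1
    have h := c2 τ t s hτ0 hτ1 hS hs0 hs1
    rwa [ev_gRU, hv.A, hv.W, hv.BE, hMU, hv.FE, hv.KE, hv.EE, Ex.ev_z] at h
  · intro s hs0 hs1
    have h := c3 τ t s hτ0 hτ1 hS hs0 hs1
    rwa [ev_gLL, hv.A, hv.W, hv.BE, hMU, hv.FE, hv.KE, hv.EE, Ex.ev_z] at h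
  · intro s hs0 hs1
    have h := c4 τ t s hτ0 hτ1 hS hs0 hs1
    rwa [ev_gLP, hv.A, hv.W, hv.BE, hMU, hv.FE, hv.KE, hv.EE, Ex.ev_z] at h

end Pool.Agent.Lib.QNL.Poly66
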