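import Pool.Agent.Lib.QNL.Poly66

/-!
Evaluation of the generic polynomials of `Poly66` on expressions of `PolyPos`, and the general
region theorem.
-/

set_option autoImplicit false

namespace Pool.Agent.Lib.QNL.Poly66

open Pool.Agent.Lib.QNL.PolyPos

theorem ev_two (X Y Z : ℝ) : (2 : Ex).ev X Y Z = 2 := by
  show (((2 : ℤ) : ℝ) / ((1 : ℕ) : ℝ)) = _
  norm_num

section ev

variable (X Y Z : ℝ) (a w be mu F K e s : Ex)

theorem ev_gRL : (gRL a w be mu F K e s).ev X Y Z =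
    gRL (a.ev X Y Z) (w.ev X Y Z) (be.ev X Y Z) (mu.ev X Y Z) (F.ev X Y Z) (K.ev X Y Z)
      (e.ev X Y Z) (s.ev X Y Z) := by
  simp only [gRL, gP, gN, gQ, gR1, gR2, gn0, gn1, gd1, gd2, Ex.ev_add, Ex.ev_sub, Ex.ev_mul,
    Ex.ev_neg, Ex.ev_one, ev_two]

theorem ev_gRU : (gRU a w be mu F K e s).ev X Y Z =
    gRU (a.ev X Y Z) (w.ev X Y Z) (be.ev X Y Z) (mu.ev X Y Z) (F.ev X Y Z) (K.ev X Y Z)
      (e.ev X Y Z) (s.ev X Y Z) := by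
  simp only [gRU, gP, gN, gQ, gR1, gR2, gn0, gn1, gd1, gd2, Ex.ev_add, Ex.ev_sub, Ex.ev_mul,
    Ex.ev_neg, Ex.ev_one, ev_two]

theorem ev_gLL : (gLL a w be mu F K e s).ev X Y Z =
    gLL (a.ev X Y Z) (w.ev X Y Z) (be.ev X Y Z) (mu.ev X Y Z) (F.ev X Y Z) (K.ev X Y Z)
      (e.ev X Y Z) (s.ev X Y Z) := by
  simp only [gLL, gP, gN, gQ, gR1, gR2, gn0, gn1, gd1, gd2, Ex.ev_add, Ex.ev_sub, Ex.ev_mul,
    Ex.ev_neg, Ex.ev_one, ev_two]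

theorem ev_gLP : (gLP a w be mu F K e s).ev X Y Z =
    gLP (a.ev X Y Z) (w.ev X Y Z) (be.ev X Y Z) (mu.ev X Y Z) (F.ev X Y Z) (K.ev X Y Z)
      (e.ev X Y Z) (s.ev X Y Z) := by
  simp only [gLP, gP, gN, gQ, gR1, gR2, gn0, gn1, gd1, gd2, Ex.ev_add, Ex.ev_sub, Ex.ev_mul,
    Ex.ev_neg, Ex.ev_one, ev_two]

end ev

/-- the expression for the positivity of `Q` -/
def qE (a w be mu s : Ex) : Ex :=
  gQ (1 - a) (gd1 a be mu) (gd2 a be) (1 - w) (w * (1 - s)) - Ex.q 1 10000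

theorem ev_qE (X Y Z : ℝ) (a w be mu s : Ex) : (qE a w be mu s).ev X Y Z =
    gQ (1 - a.ev X Y Z) (gd1 (a.ev X Y Z) (be.ev X Y Z) (mu.ev X Y Z))
      (gd2 (a.ev X Y Z) (be.ev X Y Z)) (1 - w.ev X Y Z) (w.ev X Y Z * (1 - s.ev X Y Z)) -
      1 / 10000 := by
  simp only [qE, gQ, gd1, gd2, Ex.ev_add, Ex.ev_sub, Ex.ev_mul, Ex.ev_neg, Ex.ev_one, Ex.ev_q]
  norm_num

/-- the data of a region, as expressions in `t = a - a0` (`Ex.y`), and as functions -/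
structure Reg where
  /-- `a` -/
  A : Ex
  /-- `w` -/
  W : Ex
  /-- `be` -/
  BE : Ex
  /-- lower bound of `F` -/
  FE : Ex
  /-- lower bound of `K` -/
  KE : Ex
  /-- upper bound of `e` -/
  EE : Ex
  /-- lower bound of `mu` -/
  M0 : Ex
  /-- upper bound of `mu` -/
  M1 : Ex

/-- `mu = M0 + X (M1 - M0)` -/
def Reg.MU (g : Reg) : Ex := g.M0 + Ex.x * (g.M1 - g.M0)

/-- the expressions depend on `y` only, with the given values -/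
structure Reg.Val (g : Reg) (t a w be Fm Km em m0 m1 : ℝ) : Prop where
  A : ∀ X Z, g.A.ev X t Z = a
  W : ∀ X Z, g.W.ev X t Z = w
  BE : ∀ X Z, g.BE.ev X t Z = be
  FE : ∀ X Z, g.FE.ev X t Z = Fm
  KE : ∀ X Z, g.KE.ev X t Z = Km
  EE : ∀ X Z, g.EE.ev X t Z = em
  M0 : ∀ X Z, g.M0.ev X t Z = m0
  M1 : ∀ X Z, g.M1.ev X t Z = m1

theorem seg_mem {x : ℝ} (h0 : 0 ≤ x) (h1 : x ≤ 1) : (seg 0 1 1).mem x := by
  constructor
  · simpa [seg] using h0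
  · intro _; simpa [seg] using h1

/-- **a region from five checks** -/
theorem region (g : Reg) {t a w be Fm Km em m0 m1 mu F K e : ℝ}
    (hv : g.Val t a w be Fm Km em m0 m1) {S : Side} (hS : S.mem t)
    {d1 d2 d3 d4 d5 : Dg} {t1 t2 t3 t4 t5 : T}
    (c1 : check (gRL g.A g.W g.BE g.MU g.FE g.KE g.EE Ex.z) (seg 0 1 1) S (seg 0 1 1) d1 t1 = true)
    (c2 : check (gRU g.A g.W g.BE g.MU g.FE g.KE g.EE Ex.z) (seg 0 1 1) S (seg 0 1 1) d2 t2 = true)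
    (c3 : check (gLL g.A g.W g.BE g.MU g.FE g.KE g.EE Ex.z) (seg 0 1 1) S (seg 0 1 1) d3 t3 = true)
    (c4 : check (gLP g.A g.W g.BE g.MU g.FE g.KE g.EE Ex.z) (seg 0 1 1) S (seg 0 1 1) d4 t4 = true)
    (c5 : check (qE g.A g.W g.BE g.MU Ex.z) (seg 0 1 1) S (seg 0 1 1) d5 t5 = true)
    (hm : m0 < m1) (hmu0 : m0 ≤ mu) (hmu1 : mu ≤ m1)
    (ha : 1 / 2 ≤ a) (ha1 : a < 1) (hw : 0 < w) (hwa : w ≤ 1 - a) (hbe : 0 ≤ be)
    (hm0 : 0 ≤ m0) (hFm : 0 < Fm) (hF : Fm ≤ F) (hK : Km ≤ K) (hK1 : K ≤ 1) (he0 : 0 ≤ e)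
    (he : e ≤ em) : Key a w be mu F K e := by
  obtain ⟨τ, hτ0, hτ1, hτ⟩ : ∃ τ : ℝ, 0 ≤ τ ∧ τ ≤ 1 ∧ m0 + τ * (m1 - m0) = mu := by
    refine ⟨(mu - m0) / (m1 - m0), div_nonneg (by linarith) (by linarith), ?_, ?_⟩
    · rw [div_le_one (by linarith)]; linarith
    · rw [div_mul_cancel₀ _ (by linarith : m1 - m0 ≠ 0)]; ring
  have hMU : ∀ Z, g.MU.ev τ t Z = mu := by
    intro Z
    simp only [Reg.MU, Ex.ev_add, Ex.ev_mul, Ex.ev_sub, Ex.ev_x, hv.M0, hv.M1]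
    exact hτ
  have hx := seg_mem hτ0 hτ1
  refine key_of ha ha1 hw hwa hbe (hm0.trans hmu0) hFm hF hK hK1 he0 he ?_ ?_ ?_ ?_ ?_
  · intro s hs0 hs1
    have h := check_spec _ _ c5 hx hS (seg_mem hs0 hs1)
    rw [ev_qE, hv.A, hv.W, hv.BE, hMU, Ex.ev_z] at h
    linarith
  · intro s hs0 hs1
    have h := check_spec _ _ c1 hx hS (seg_mem hs0 hs1)
    rwa [ev_gRL, hv.A, hv.W, hv.BE, hMU, hv.FE, hv.KE, hv.EE, Ex.ev_z] at h
  · intro s hs0 hs1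
    have h := check_spec _ _ c2 hx hS (seg_mem hs0 hs1)
    rwa [ev_gRU, hv.A, hv.W, hv.BE, hMU, hv.FE, hv.KE, hv.EE, Ex.ev_z] at h
  · intro s hs0 hs1
    have h := check_spec _ _ c3 hx hS (seg_mem hs0 hs1)
    rwa [ev_gLL, hv.A, hv.W, hv.BE, hMU, hv.FE, hv.KE, hv.EE, Ex.ev_z] at h
  · intro s hs0 hs1
    have h := check_spec _ _ c4 hx hS (seg_mem hs0 hs1)
    rwa [ev_gLP, hv.A, hv.W, hv.BE, hMU, hv.FE, hv.KE, hv.EE, Ex.ev_z] at h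

end Pool.Agent.Lib.QNL.Poly66
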