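import Pool.Agent.Lib.QNL.RegB95
import Pool.Agent.Lib.QNL.Ker43N
import Pool.Agent.Lib.QNL.Num93J1
import Pool.Agent.Lib.QNL.Num93J2

/-!
Group N: the regions I and II, `a ∈ [1/2, 43/50]`, all `n ≥ 2`.
-/

set_option autoImplicit false

namespace Pool.Agent.Lib.QNL.CG

open Pool.Agent.Lib.QNL

/-- **region I** -/
theorem okI : RegionOK 2 (1 / 2) (19 / 25) := by
  refine regionI (fun a h1 h2 => ?_) (fun a h1 h2 => ?_) (fun n hn a h0 _ _ h2 => ?_)
  · have h := Ker43.K_I h1 h2
    unfold KI KN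
    linarith
  · have h := Ker43.e_I h1 h2
    unfold eI eN wI
    linarith
  · have e : beI a = 49 / 20 + 39 / 10 * (a - 1 / 2) - 36 / 5 * ((a - 1 / 2) * (a - 1 / 2)) := by
      unfold beI
      ring
    exact Num93.tail3_I (by omega) rfl h0 h2 rfl e

/-- **region II** -/
theorem okII : RegionOK 2 (19 / 25) (43 / 50) := by
  refine regionII (fun a h1 h2 => ?_) (fun a h1 h2 => ?_) (fun n hn a _ _ h1 h2 => ?_)
  · have h := Ker43.K_II' h1 h2
    unfold KII KN
    linarith
  · have h := Ker43.e_II' h1 h2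
    unfold eII eN wII
    linarith
  · have e : beII a = 83 / 25 + 9 / 10 * (a - 19 / 25) := by
      unfold beII
      ring
    exact Num93.tail3_II (by omega) rfl h1 h2 rfl e

end Pool.Agent.Lib.QNL.CG
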