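import Pool.Agent.Lib.QNL.Num93J1
import Pool.Agent.Lib.QNL.Num93J2
import Pool.Agent.Lib.QNL.Num93J3
import Pool.Agent.Lib.QNL.Num93J4
import Pool.Agent.Lib.QNL.Dat95

/-!
Group N: the tail hypotheses of `RegB95.regionI, …, regionIV`, literally.
-/

set_option autoImplicit false

namespace Pool.Agent.Lib.QNL.Num93

open Pool.Agent.Lib.QNL
open Pool.Agent.Lib.QNL.CG
open Pool.Agent.Lib.QNL.Tail35

theorem htailI : ∀ n : ℕ, 2 ≤ n → ∀ a : ℝ, 1 / 2 < a → a < 1 → 1 / 2 ≤ a → a ≤ 19 / 25 →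
    Tail1 n (1 / a) a (bs n a (7 / 4)) (Ymx (wI a))
      (fun Y => Lam n (1 / a) a (bs n a (7 / 4)) 1 / (1 - beI a * Y)) := by
  intro n hn a h0 _ _ h2
  exact tail3_I (by omega) rfl h0 h2 (by unfold wI; ring) (by unfold beI; ring)

theorem htailII : ∀ n : ℕ, 2 ≤ n → ∀ a : ℝ, 1 / 2 < a → a < 1 → 19 / 25 ≤ a → a ≤ 43 / 50 →
    Tail1 n (1 / a) a (bs n a 2) (Ymx (wII a))
      (fun Y => Lam n (1 / a) a (bs n a 2) 1 / (1 - beII a * Y)) := by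
  intro n hn a _ _ h1 h2
  exact tail3_II (by omega) rfl h1 h2 (by unfold wII; ring) (by unfold beII; ring)

theorem htailIII : ∀ n : ℕ, 2 ≤ n → ∀ a : ℝ, 1 / 2 < a → a < 1 → 43 / 50 ≤ a → a ≤ 93 / 100 →
    Tail1 n (1 / a) a (bs n a (5 / 2)) (Ymx (wIII a))
      (fun Y => Lam n (1 / a) a (bs n a (5 / 2)) 1 / (1 - beIII a * Y)) := by
  intro n hn a _ _ h1 h2
  exact tail3_III (by omega) rfl h1 h2 (by unfold wIII; ring) (by unfold beIII; norm_num)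

theorem htailIV : ∀ n : ℕ, 2 ≤ n → ∀ a : ℝ, 1 / 2 < a → a < 1 → 93 / 100 ≤ a → a ≤ 24 / 25 →
    Tail1 n (1 / a) a (bs n a 3) (Ymx (wIV a))
      (fun Y => Lam n (1 / a) a (bs n a 3) 1 / (1 - beIV a * Y)) := by
  intro n hn a _ _ h1 h2
  exact tail3_IV (by omega) rfl h1 h2 (by unfold wIV; ring) (by unfold beIV; norm_num)

end Pool.Agent.Lib.QNL.Num93
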