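import Pool.Agent.Lib.QNL.Ker43P
import Pool.Agent.Lib.QNL.TailB93

/-!
# Regions III and IV
-/

set_option autoImplicit false

namespace Pool.Agent.Lib.QNL.CG

/-- region III -/
theorem okIII : RegionOK 2 (43 / 50) (93 / 100) :=
  regionIII Ker43.hKIII Ker43.heIII Num93.htailIII

/-- region IV -/
theorem okIV : RegionOK 2 (93 / 100) (24 / 25) :=
  regionIV Ker43.hKIV Ker43.heIV Num93.htailIV

end Pool.Agent.Lib.QNL.CG
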