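import Pool.Agent.Lib.QNL.FStmt

/-!
Group N: the quadratic form of group F for arbitrary shares `b_0, .., b_n ≥ 0`, the forced
multipliers, and a Riccati supersolution.  Everything is algebra.

With `a = 1/p`, `c_j = (j+a)/(j+1-a)`, `C_j = Π_{i<j} c_i`, `F_j = Σ_{i>j} b_i`,
`B_j = b_j / C_j²`, `th_j = F_j / (C_j C_{j+1})`, `w_j = (2-p) F_j / (2j+1)`, `y = s - a`:

`Σ .. = (Σ b) |ρ_0|² + Σ_j w_j [ (y/c_j) |ρ_j + c_j ρ_{j+1}|² - a |ρ_j - ρ_{j+1}|² ]`,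
`e_j = (-1)^j C_j ρ_j`.
-/

set_option autoImplicit false

namespace Pool.Agent.Lib.QNL.Ric

open Finset Set
open Pool.Agent.Lib.QNL

/-- `c_j = (j + a)/(j + 1 - a)` -/
noncomputable def cj (a : ℝ) (j : ℕ) : ℝ := ((j : ℝ) + a) / ((j : ℝ) + 1 - a)

/-- `C_j = Π_{i<j} c_i` -/
noncomputable def Cj (a : ℝ) (j : ℕ) : ℝ := ∏ i ∈ Finset.range j, cj a i

/-- the tails `F_j = Σ_{j < i ≤ n} b_i` -/
noncomputable def Ft (n : ℕ) (b : ℕ → ℝ) (j : ℕ) : ℝ := ∑ i ∈ Finset.Ioc j n, b i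

/-- the weights `w_j = (2-p) F_j/(2j+1)` -/
noncomputable def wj (n : ℕ) (p : ℝ) (b : ℕ → ℝ) (j : ℕ) : ℝ := (2 - p) * Ft n b j / (2 * j + 1)

/-- the multipliers `th_j = F_j/(C_j C_{j+1})` -/
noncomputable def thj (n : ℕ) (a : ℝ) (b : ℕ → ℝ) (j : ℕ) : ℝ :=
  Ft n b j / (Cj a j * Cj a (j + 1))

/-- the unnormalised shares `B_j = b_j / C_j²` -/
noncomputable def Bj (n : ℕ) (a : ℝ) (b : ℕ → ℝ) (j : ℕ) : ℝ :=
  if j ≤ n then b j / Cj a j ^ 2 else 0

variable {n : ℕ} {a p : ℝ} {b : ℕ → ℝ}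

theorem cj_pos (h0 : 0 < a) (h1 : a < 1) (j : ℕ) : 0 < cj a j := by
  unfold cj
  have : (0 : ℝ) ≤ j := Nat.cast_nonneg j
  apply div_pos <;> linarith

theorem one_le_cj (h0 : 1 / 2 ≤ a) (h1 : a < 1) (j : ℕ) : 1 ≤ cj a j := by
  unfold cj
  have : (0 : ℝ) ≤ j := Nat.cast_nonneg j
  rw [le_div_iff₀ (by linarith)]
  linarith

theorem Cj_pos (h0 : 0 < a) (h1 : a < 1) (j : ℕ) : 0 < Cj a j :=
  Finset.prod_pos fun i _ => cj_pos h0 h1 i

@[simp] theorem Cj_zero : Cj a 0 = 1 := by simp [Cj]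

theorem Cj_succ (j : ℕ) : Cj a (j + 1) = Cj a j * cj a j := by
  simp [Cj, Finset.prod_range_succ]

theorem Ft_nonneg (hb : ∀ j, 0 ≤ b j) (j : ℕ) : 0 ≤ Ft n b j :=
  Finset.sum_nonneg fun i _ => hb i

theorem Ft_self : Ft n b n = 0 := by simp [Ft]

theorem Ft_succ {j : ℕ} (hj : j < n) : Ft n b j = b (j + 1) + Ft n b (j + 1) := by
  unfold Ft
  have h : Finset.Ioc j n = insert (j + 1) (Finset.Ioc (j + 1) n) := by
    ext i
    simp only [Finset.mem_Ioc, Finset.mem_insert]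
    omega
  rw [h, Finset.sum_insert (by simp)]

/-- one step: completing the square -/
theorem step {w y c W W' : ℝ} (hα : W' < w * (a - y * c))
    (hW : w * (y / c - a) + (w * (y + a)) ^ 2 / (w * (a - y * c) - W') ≤ W)
    (hc : 0 < c) (u v : ℂ) :
    w * (y / c * ‖u + c * v‖ ^ 2 - a * ‖u - v‖ ^ 2) + W' * ‖v‖ ^ 2 ≤ W * ‖u‖ ^ 2 := by
  set R : ℝ := u.re * v.re + u.im * v.im with hR
  have e1 : ‖u + c * v‖ ^ 2 = ‖u‖ ^ 2 + c ^ 2 * ‖v‖ ^ 2 + 2 * c * R := by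
    rw [← Complex.normSq_eq_norm_sq, ← Complex.normSq_eq_norm_sq, ← Complex.normSq_eq_norm_sq,
      Complex.normSq_apply, Complex.normSq_apply, Complex.normSq_apply]
    simp only [Complex.add_re, Complex.add_im, Complex.mul_re, Complex.mul_im, Complex.ofReal_re,
      Complex.ofReal_im, hR]
    ring
  have e2 : ‖u - v‖ ^ 2 = ‖u‖ ^ 2 + ‖v‖ ^ 2 - 2 * R := by
    rw [← Complex.normSq_eq_norm_sq, ← Complex.normSq_eq_norm_sq, ← Complex.normSq_eq_norm_sq,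
      Complex.normSq_apply, Complex.normSq_apply, Complex.normSq_apply]
    simp only [Complex.sub_re, Complex.sub_im, hR]
    ring
  have hRle : R ^ 2 ≤ ‖u‖ ^ 2 * ‖v‖ ^ 2 := by
    rw [← Complex.normSq_eq_norm_sq, ← Complex.normSq_eq_norm_sq, Complex.normSq_apply,
      Complex.normSq_apply, hR]
    nlinarith [sq_nonneg (u.re * v.im - u.im * v.re)]
  set α : ℝ := w * (a - y * c) - W' with hαd
  have hαp : 0 < α := by rw [hαd]; linarith
  set β : ℝ := w * (y + a) with hβ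
  have key : 2 * β * R - α * ‖v‖ ^ 2 ≤ β ^ 2 / α * ‖u‖ ^ 2 := by
    rw [div_mul_eq_mul_div, le_div_iff₀ hαp]
    have h3 : 2 * (β * R) * α ≤ β ^ 2 * ‖u‖ ^ 2 + α ^ 2 * ‖v‖ ^ 2 := by
      have h4 : (2 * (β * R) * α) ^ 2 ≤ (β ^ 2 * ‖u‖ ^ 2 + α ^ 2 * ‖v‖ ^ 2) ^ 2 := by
        have h5 : β ^ 2 * α ^ 2 * R ^ 2 ≤ β ^ 2 * α ^ 2 * (‖u‖ ^ 2 * ‖v‖ ^ 2) :=
          mul_le_mul_of_nonneg_left hRle (by positivity)
        nlinarith [sq_nonneg (β ^ 2 * ‖u‖ ^ 2 - α ^ 2 * ‖v‖ ^ 2)]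
      exact le_of_sq_le_sq h4 (by positivity)
    nlinarith
  have h6 : (w * (y / c - a) + β ^ 2 / α) * ‖u‖ ^ 2 ≤ W * ‖u‖ ^ 2 :=
    mul_le_mul_of_nonneg_right hW (by positivity)
  have e3 : w * (y / c * ‖u + c * v‖ ^ 2 - a * ‖u - v‖ ^ 2) + W' * ‖v‖ ^ 2 =
      w * (y / c - a) * ‖u‖ ^ 2 + (2 * β * R - α * ‖v‖ ^ 2) := by
    rw [e1, e2, hβ, hαd]
    field_simp
    ring
  rw [e3]
  nlinarith [key, h6]

/-- the chain: sum of the steps -/
theorem chain {w c W : ℕ → ℝ} {y : ℝ} (n : ℕ) (hc : ∀ j, j < n → 0 < c j)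
    (hα : ∀ j, j < n → W (j + 1) < w j * (a - y * c j))
    (hW : ∀ j, j < n → w j * (y / c j - a) +
      (w j * (y + a)) ^ 2 / (w j * (a - y * c j) - W (j + 1)) ≤ W j) (ρ : ℕ → ℂ) :
    ∑ j ∈ Finset.range n, w j * (y / c j * ‖ρ j + c j * ρ (j + 1)‖ ^ 2
      - a * ‖ρ j - ρ (j + 1)‖ ^ 2) + W n * ‖ρ n‖ ^ 2 ≤ W 0 * ‖ρ 0‖ ^ 2 := by
  induction n with
  | zero => simp
  | succ k ih =>
    have ih' := ih (fun j hj => hc j (by omega)) (fun j hj => hα j (by omega))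
      (fun j hj => hW j (by omega))
    have hs := step (a := a) (hα k (by omega)) (hW k (by omega)) (hc k (by omega)) (ρ k)
      (ρ (k + 1))
    rw [Finset.sum_range_succ]
    linarith

/-- Abel summation -/
theorem abel (n : ℕ) (b A : ℕ → ℝ) :
    ∑ j ∈ Finset.range (n + 1), b j * A j = (∑ j ∈ Finset.range (n + 1), b j) * A 0 +
      ∑ j ∈ Finset.range n, Ft n b j * (A (j + 1) - A j) := by
  have h1 : ∀ k, k ≤ n → ∑ j ∈ Finset.range k, Ft n b j * (A (j + 1) - A j) =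
      ∑ j ∈ Finset.Ioc 0 k, b j * (A j - A 0) + Ft n b k * (A k - A 0) := by
    intro k
    induction k with
    | zero => simp
    | succ m ih =>
      intro hm
      rw [Finset.sum_range_succ, ih (by omega), Ft_succ (by omega : m < n)]
      have h2 : Finset.Ioc 0 (m + 1) = insert (m + 1) (Finset.Ioc 0 m) := by
        ext i
        simp only [Finset.mem_Ioc, Finset.mem_insert]
        omega
      rw [h2, Finset.sum_insert (by simp)]
      ring
  rw [h1 n le_rfl, Ft_self, zero_mul, add_zero]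
  have h3 : Finset.range (n + 1) = insert 0 (Finset.Ioc 0 n) := by
    ext i
    simp only [Finset.mem_Ioc, Finset.mem_insert, Finset.mem_range]
    omega
  rw [h3, Finset.sum_insert (by simp), Finset.sum_insert (by simp)]
  simp only [mul_sub, Finset.sum_sub_distrib, ← Finset.sum_mul]
  ring

/-- the algebraic identity in the variables `ρ` -/
theorem identity (hp : p = 1 / a) (h0 : 0 < a) (h1 : a < 1) (s : ℝ) (ρ : ℕ → ℂ) (e : ℕ → ℂ)
    (he : ∀ j, e j = ((-1 : ℝ) ^ j * Cj a j : ℝ) * ρ j) :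
    ∑ j ∈ Finset.range n, thj n a b j / (2 * j + 1) * ((2 - p) * s) * ‖e j - e (j + 1)‖ ^ 2
      + ∑ j ∈ Finset.range n, (Bj n a b (j + 1) + thj n a b (j + 1) - thj n a b j) *
          ‖e (j + 1)‖ ^ 2
      + (Bj n a b 0 + thj n a b 0) * ‖e 0‖ ^ 2 =
    (∑ j ∈ Finset.range (n + 1), b j) * ‖ρ 0‖ ^ 2 +
      ∑ j ∈ Finset.range n, wj n p b j * ((s - a) / cj a j * ‖ρ j + cj a j * ρ (j + 1)‖ ^ 2
        - a * ‖ρ j - ρ (j + 1)‖ ^ 2) := by
  have hC : ∀ j, 0 < Cj a j := Cj_pos h0 h1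
  have hc : ∀ j, 0 < cj a j := cj_pos h0 h1
  have hne : ∀ j, ‖e j‖ ^ 2 = Cj a j ^ 2 * ‖ρ j‖ ^ 2 := by
    intro j
    rw [he j, norm_mul, Complex.norm_real, Real.norm_eq_abs, abs_mul, abs_pow, abs_neg, abs_one,
      one_pow, one_mul, abs_of_pos (hC j), mul_pow]
  have hd : ∀ j, ‖e j - e (j + 1)‖ ^ 2 = Cj a j ^ 2 * ‖ρ j + cj a j * ρ (j + 1)‖ ^ 2 := by
    intro j
    have : e j - e (j + 1) = ((-1 : ℝ) ^ j * Cj a j : ℝ) * (ρ j + cj a j * ρ (j + 1)) := by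
      rw [he j, he (j + 1), Cj_succ]
      push_cast
      ring
    rw [this, norm_mul, Complex.norm_real, Real.norm_eq_abs, abs_mul, abs_pow, abs_neg, abs_one,
      one_pow, one_mul, abs_of_pos (hC j), mul_pow]
  -- the telescoping part
  have tele : ∑ j ∈ Finset.range n, (Bj n a b (j + 1) + thj n a b (j + 1) - thj n a b j) *
      ‖e (j + 1)‖ ^ 2 + (Bj n a b 0 + thj n a b 0) * ‖e 0‖ ^ 2 =
      ∑ j ∈ Finset.range (n + 1), b j * ‖ρ j‖ ^ 2 +
      ∑ j ∈ Finset.range n, (thj n a b j * ‖e j‖ ^ 2 - thj n a b j * ‖e (j + 1)‖ ^ 2) := by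
    have t1 : ∑ j ∈ Finset.range (n + 1), Bj n a b j * ‖e j‖ ^ 2 =
        ∑ j ∈ Finset.range (n + 1), b j * ‖ρ j‖ ^ 2 := by
      apply Finset.sum_congr rfl
      intro j hj
      rw [Finset.mem_range] at hj
      rw [hne j]
      unfold Bj
      rw [if_pos (by omega)]
      have := (hC j).ne'
      field_simp
    have t2 : ∑ j ∈ Finset.range (n + 1), thj n a b j * ‖e j‖ ^ 2 =
        ∑ j ∈ Finset.range n, thj n a b j * ‖e j‖ ^ 2 := by
      rw [Finset.sum_range_succ]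
      simp [thj, Ft_self]
    rw [← t1, Finset.sum_sub_distrib, ← t2, Finset.sum_range_succ' (fun j => Bj n a b j * ‖e j‖ ^ 2),
      Finset.sum_range_succ' (fun j => thj n a b j * ‖e j‖ ^ 2)]
    simp only [add_mul, sub_mul, Finset.sum_add_distrib, Finset.sum_sub_distrib]
    ring
  rw [add_assoc, tele, abel n b (fun j => ‖ρ j‖ ^ 2)]
  rw [add_comm (∑ j ∈ Finset.range n, thj n a b j / (2 * j + 1) * ((2 - p) * s) *
    ‖e j - e (j + 1)‖ ^ 2), add_assoc, add_assoc, ← Finset.sum_add_distrib,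
    ← Finset.sum_add_distrib]
  congr 1
  apply Finset.sum_congr rfl
  intro j hj
  rw [Finset.mem_range] at hj
  rw [hd j, hne j, hne (j + 1)]
  have e1 : ‖ρ j + cj a j * ρ (j + 1)‖ ^ 2 = ‖ρ j‖ ^ 2 + cj a j ^ 2 * ‖ρ (j + 1)‖ ^ 2 +
      2 * cj a j * ((ρ j).re * (ρ (j + 1)).re + (ρ j).im * (ρ (j + 1)).im) := by
    rw [← Complex.normSq_eq_norm_sq, ← Complex.normSq_eq_norm_sq, ← Complex.normSq_eq_norm_sq,
      Complex.normSq_apply, Complex.normSq_apply, Complex.normSq_apply]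
    simp only [Complex.add_re, Complex.add_im, Complex.mul_re, Complex.mul_im, Complex.ofReal_re,
      Complex.ofReal_im]
    ring
  have e2 : ‖ρ j - ρ (j + 1)‖ ^ 2 = ‖ρ j‖ ^ 2 + ‖ρ (j + 1)‖ ^ 2 -
      2 * ((ρ j).re * (ρ (j + 1)).re + (ρ j).im * (ρ (j + 1)).im) := by
    rw [← Complex.normSq_eq_norm_sq, ← Complex.normSq_eq_norm_sq, ← Complex.normSq_eq_norm_sq,
      Complex.normSq_apply, Complex.normSq_apply, Complex.normSq_apply]
    simp only [Complex.sub_re, Complex.sub_im]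
    ring
  rw [e1, e2]
  unfold thj wj
  rw [Cj_succ]
  have hCj := (hC j).ne'
  have hcj := (hc j).ne'
  generalize ‖ρ j‖ ^ 2 = A
  generalize ‖ρ (j + 1)‖ ^ 2 = B
  generalize (ρ j).re * (ρ (j + 1)).re + (ρ j).im * (ρ (j + 1)).im = R
  generalize Ft n b j = F
  generalize Cj a j = C at *
  have hj0 : (0 : ℝ) ≤ j := Nat.cast_nonneg j
  have h2j : (2 * (j : ℝ) + 1) ≠ 0 := by positivity
  have hpa : p * a = 1 := by rw [hp]; field_simp
  have hcd : cj a j * ((j : ℝ) + 1 - a) = (j : ℝ) + a := by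
    unfold cj
    rw [div_mul_cancel₀]
    have : (0 : ℝ) < (j : ℝ) + 1 - a := by linarith
    exact this.ne'
  generalize cj a j = c at *
  have hs : ((2 - p) * s) = (2 - p) * (s - a) + (2 * a - 1) := by
    have : (2 - p) * a = 2 * a - 1 := by rw [sub_mul, hpa]
    linarith
  have hma : (2 - p) * F / (2 * (j : ℝ) + 1) * a = (2 * a - 1) * F / (2 * (j : ℝ) + 1) := by
    have : (2 - p) * a = 2 * a - 1 := by rw [sub_mul, hpa]
    rw [div_mul_eq_mul_div]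
    congr 1
    rw [← this]; ring
  have key : ∀ Z : ℝ, (2 - p) * F / (2 * (j : ℝ) + 1) * (Z - a * (A + B - 2 * R)) =
      (2 - p) * F / (2 * (j : ℝ) + 1) * Z - (2 * a - 1) * F / (2 * (j : ℝ) + 1) *
        (A + B - 2 * R) := by
    intro Z
    rw [mul_sub, ← mul_assoc, hma]
  rw [key, hs]
  have hj1 : (2 * (j : ℝ) + 1) = ((j : ℝ) + 1 - a) * (1 + c) := by
    rw [mul_add, mul_comm _ c, hcd]; ring
  have h2a : 2 * a - 1 = ((j : ℝ) + 1 - a) * (c - 1) := by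
    rw [mul_sub, mul_comm _ c, hcd]; ring
  have hpos : ((j : ℝ) + 1 - a) ≠ 0 := by
    have : (0 : ℝ) < (j : ℝ) + 1 - a := by linarith
    exact this.ne'
  have h1c : (1 + c) ≠ 0 := by
    intro h
    rw [h, mul_zero] at hj1
    exact h2j hj1
  rw [hj1, h2a]
  generalize ((j : ℝ) + 1 - a) = q at *
  field_simp
  ring

/-- **the quadratic form of group F from a Riccati supersolution** -/
theorem qform {smax : ℝ} (hp : p = 1 / a) (h0 : 1 / 2 < a) (h1 : a < 1) (hb : ∀ j, 0 ≤ b j)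
    (W : ℕ → ℝ → ℝ) (hWc : ContinuousOn (W 0) (Icc 0 smax))
    (hWn : ∀ s ∈ Icc (0 : ℝ) smax, 0 ≤ W n s)
    (hα : ∀ s ∈ Icc (0 : ℝ) smax, ∀ j, j < n →
      W (j + 1) s < wj n p b j * (a - (s - a) * cj a j))
    (hW : ∀ s ∈ Icc (0 : ℝ) smax, ∀ j, j < n → wj n p b j * ((s - a) / cj a j - a) +
      (wj n p b j * (s - a + a)) ^ 2 / (wj n p b j * (a - (s - a) * cj a j) - W (j + 1) s) ≤
        W j s) :
    QForm n p smax (thj n a b) (Bj n a b)
      (fun s => ∑ j ∈ Finset.range (n + 1), b j + W 0 s) := by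
  have ha : 0 < a := by linarith
  have hC : ∀ j, 0 < Cj a j := Cj_pos ha h1
  refine ⟨fun j => ?_, ?_, fun j => ?_, fun j hj => ?_, ?_, fun s hs e => ?_⟩
  · exact div_nonneg (Ft_nonneg hb j) (mul_nonneg (hC _).le (hC _).le)
  · simp [thj, Ft_self]
  · unfold Bj
    split_ifs
    · exact div_nonneg (hb j) (sq_nonneg _)
    · exact le_rfl
  · unfold Bj thj
    rw [if_pos (by omega), Ft_succ hj, Cj_succ (j + 1), Cj_succ j]
    have hc := cj_pos ha h1 j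
    have hc' := cj_pos ha h1 (j + 1)
    have hc1 := one_le_cj h0.le h1 j
    have hc1' := one_le_cj h0.le h1 (j + 1)
    have hCj := hC j
    have hbj := hb (j + 1)
    have hF := Ft_nonneg (n := n) hb (j + 1)
    generalize Ft n b (j + 1) = F at *
    generalize b (j + 1) = β at *
    generalize Cj a j = C at *
    generalize cj a j = c at *
    generalize cj a (j + 1) = c' at *
    have h2 : (β + F) / (C * (C * c)) - (β / (C * c) ^ 2 + F / (C * c * (C * c * c'))) =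
        (β * (c - 1) * c' + F * (c * c' - 1)) / ((C * c) ^ 2 * c') := by
      field_simp
      ring
    have h3 : 0 ≤ (β * (c - 1) * c' + F * (c * c' - 1)) / ((C * c) ^ 2 * c') := by
      apply div_nonneg _ (by positivity)
      have h4 : 0 ≤ β * (c - 1) * c' := mul_nonneg (mul_nonneg hbj (by linarith)) hc'.le
      have h5 : 0 ≤ F * (c * c' - 1) := mul_nonneg hF (by nlinarith)
      linarith
    linarith
  · exact continuousOn_const.add hWc
  · set ρ : ℕ → ℂ := fun j => (((-1 : ℝ) ^ j * (Cj a j)⁻¹ : ℝ) : ℂ) * e j with hρ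
    have he : ∀ j, e j = ((-1 : ℝ) ^ j * Cj a j : ℝ) * ρ j := by
      intro j
      rw [hρ]
      simp only
      rw [← mul_assoc, ← Complex.ofReal_mul]
      have : (-1 : ℝ) ^ j * Cj a j * ((-1 : ℝ) ^ j * (Cj a j)⁻¹) = 1 := by
        have h2 : (-1 : ℝ) ^ j * (-1 : ℝ) ^ j = 1 := by
          rw [← mul_pow]; norm_num
        calc (-1 : ℝ) ^ j * Cj a j * ((-1 : ℝ) ^ j * (Cj a j)⁻¹)
            = ((-1 : ℝ) ^ j * (-1 : ℝ) ^ j) * (Cj a j * (Cj a j)⁻¹) := by ring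
          _ = 1 := by rw [h2, mul_inv_cancel₀ (hC j).ne', one_mul]
      rw [this]
      simp
    rw [identity hp ha h1 s ρ e he]
    have hch := chain (a := a) (w := fun j => wj n p b j) (c := fun j => cj a j)
      (W := fun j => W j s) (y := s - a) n (fun j _ => cj_pos ha h1 j) (hα s hs) (hW s hs) ρ
    have h00 : ‖ρ 0‖ ^ 2 = ‖e 0‖ ^ 2 := by
      rw [hρ]; simp
    have hn : 0 ≤ W n s * ‖ρ n‖ ^ 2 := mul_nonneg (hWn s hs) (by positivity)
    rw [add_mul, ← h00]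
    linarith

end Pool.Agent.Lib.QNL.Ric
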