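import Pool.Agent.Lib.QNL.TL9

/-! Truncated energies, layer cake, and the end of the static transport. -/

open MeasureTheory Set Filter Topology
open scoped ENNReal

noncomputable section

namespace Pool.Agent.Lib.QNL

/-- truncated energy `∫ min (|f|², s²)` (with `s` replaced by its positive part) -/
def trunc (f : ℂ → ℂ) (s : ℝ) : ℝ := ∫ z, min (‖f z‖ ^ 2) ((max s 0) ^ 2)

theorem integrable_trunc {f : ℂ → ℂ} (hf : MemLp f 2 volume) (s : ℝ) :
    Integrable (fun z => min (‖f z‖ ^ 2) ((max s 0) ^ 2)) volume := by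
  have h2 : Integrable (fun z => ‖f z‖ ^ 2) volume := hf.integrable_norm_pow (by norm_num)
  refine h2.mono' ?_ ?_
  · exact (h2.aestronglyMeasurable.inf aestronglyMeasurable_const)
  · filter_upwards with z
    rw [Real.norm_eq_abs, abs_of_nonneg (le_min (by positivity) (by positivity))]
    exact min_le_left _ _

theorem trunc_nonneg (f : ℂ → ℂ) (s : ℝ) : 0 ≤ trunc f s :=
  integral_nonneg fun z => le_min (by positivity) (by positivity)

theorem trunc_mono {f : ℂ → ℂ} (hf : MemLp f 2 volume) : Monotone (trunc f) := by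
  intro s t hst
  apply integral_mono (integrable_trunc hf s) (integrable_trunc hf t)
  intro z
  apply min_le_min le_rfl
  have : max s 0 ≤ max t 0 := max_le_max hst le_rfl
  exact pow_le_pow_left₀ (le_max_right _ _) this 2

theorem trunc_le {f : ℂ → ℂ} (hf : MemLp f 2 volume) {G : Set ℂ} (hG : MeasurableSet G)
    (hGf : volume G ≠ ⊤) {s : ℝ} (hs : 0 < s) :
    trunc f s ≤ (∫ z in Gᶜ, ‖f z‖ ^ 2) + s ^ 2 * (volume G).toReal := by
  have h2 : Integrable (fun z => ‖f z‖ ^ 2) volume := hf.integrable_norm_pow (by norm_num)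
  have hms : max s 0 = s := max_eq_left hs.le
  unfold trunc
  rw [← integral_add_compl hG (integrable_trunc hf s), add_comm]
  apply add_le_add
  · apply setIntegral_mono_on (integrable_trunc hf s).integrableOn h2.integrableOn hG.compl
    intro z _
    exact min_le_left _ _
  · have h3 : ∫ z in G, min (‖f z‖ ^ 2) ((max s 0) ^ 2) ≤ ∫ z in G, s ^ 2 := by
      apply setIntegral_mono_on (integrable_trunc hf s).integrableOn _ hG
      · intro z _
        rw [hms]
        exact min_le_right _ _
      · exact integrableOn_const hGf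
    refine h3.trans (le_of_eq ?_)
    rw [setIntegral_const, smul_eq_mul, mul_comm]
    rfl

/-- layer cake for one number -/
theorem lintegral_min_rpow {p y : ℝ} (hp1 : 1 < p) (hp2 : p < 2) (hy : 0 ≤ y) :
    ∫⁻ t in Ioi (0 : ℝ), ENNReal.ofReal (t ^ (p - 3) * min (y ^ 2) (t ^ 2)) =
      ENNReal.ofReal (2 / (p * (2 - p)) * y ^ p) := by
  rcases hy.eq_or_lt with hy0 | hy0
  · rw [← hy0]
    have : ∀ t ∈ Ioi (0:ℝ), ENNReal.ofReal (t ^ (p - 3) * min ((0:ℝ) ^ 2) (t ^ 2)) = 0 := by
      intro t ht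
      have : min ((0:ℝ) ^ 2) (t ^ 2) = 0 := by
        rw [min_eq_left]
        · norm_num
        · have := sq_nonneg t; simpa using this
      rw [this]; simp
    rw [setLIntegral_congr_fun measurableSet_Ioi this]
    rw [Real.zero_rpow (by linarith : p ≠ 0)]
    simp
  · have hun : Ioi (0:ℝ) = Ioc 0 y ∪ Ioi y := by
      rw [Ioc_union_Ioi_eq_Ioi hy0.le]
    rw [hun, lintegral_union measurableSet_Ioi (Ioc_disjoint_Ioi le_rfl)]
    have h1 : ∫⁻ t in Ioc 0 y, ENNReal.ofReal (t ^ (p - 3) * min (y ^ 2) (t ^ 2)) =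
        ENNReal.ofReal (y ^ p / p) := by
      have e1 : ∀ t ∈ Ioc 0 y, ENNReal.ofReal (t ^ (p - 3) * min (y ^ 2) (t ^ 2)) =
          ENNReal.ofReal (t ^ (p - 1)) := by
        intro t ht
        have : t ^ 2 ≤ y ^ 2 := pow_le_pow_left₀ ht.1.le ht.2 2
        rw [min_eq_right this]
        congr 1
        rw [← Real.rpow_natCast t 2, ← Real.rpow_add ht.1]
        congr 1
        push_cast
        ring
      rw [setLIntegral_congr_fun measurableSet_Ioc e1]
      rw [← ofReal_integral_eq_lintegral_ofReal]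
      · congr 1
        rw [← intervalIntegral.integral_of_le hy0.le, integral_rpow (Or.inl (by linarith))]
        rw [Real.zero_rpow (by linarith), show p - 1 + 1 = p by ring]
        ring
      · have := (intervalIntegral.intervalIntegrable_rpow' (a := 0) (b := y)
          (by linarith : -1 < p - 1))
        exact (intervalIntegrable_iff_integrableOn_Ioc_of_le hy0.le).mp this
      · rw [EventuallyLE, ae_restrict_iff' measurableSet_Ioc]
        filter_upwards with t ht
        exact Real.rpow_nonneg ht.1.le _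
    have h2 : ∫⁻ t in Ioi y, ENNReal.ofReal (t ^ (p - 3) * min (y ^ 2) (t ^ 2)) =
        ENNReal.ofReal (y ^ p / (2 - p)) := by
      have e1 : ∀ t ∈ Ioi y, ENNReal.ofReal (t ^ (p - 3) * min (y ^ 2) (t ^ 2)) =
          ENNReal.ofReal (y ^ 2 * t ^ (p - 3)) := by
        intro t ht
        have : y ^ 2 ≤ t ^ 2 := pow_le_pow_left₀ hy (le_of_lt ht) 2
        rw [min_eq_left this, mul_comm]
      rw [setLIntegral_congr_fun measurableSet_Ioi e1]
      rw [← ofReal_integral_eq_lintegral_ofReal]
      · congr 1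
        rw [integral_const_mul, integral_Ioi_rpow_of_lt (by linarith) hy0]
        have e2 : y ^ (p - 3 + 1) = y ^ p / y ^ 2 := by
          rw [← Real.rpow_natCast y 2, ← Real.rpow_sub hy0]
          congr 1
          push_cast
          ring
        rw [e2]
        have h3 : p - 3 + 1 ≠ 0 := by linarith
        have h4 : 2 - p ≠ 0 := by linarith
        have h5 : p - 3 + 1 = -(2 - p) := by ring
        rw [h5]
        field_simp
      · exact (integrableOn_Ioi_rpow_of_lt (by linarith) hy0).const_mul _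
      · rw [EventuallyLE, ae_restrict_iff' measurableSet_Ioi]
        filter_upwards with t ht
        have : 0 < t := lt_trans hy0 ht
        positivity
    rw [h1, h2, ← ENNReal.ofReal_add]
    · congr 1
      have h4 : 2 - p ≠ 0 := by linarith
      have h5 : p ≠ 0 := by linarith
      field_simp
      ring
    · have := Real.rpow_nonneg hy p
      have h5 : 0 < p := by linarith
      positivity
    · have := Real.rpow_nonneg hy p
      have h5 : 0 < 2 - p := by linarith
      positivity

/-- the same with a factor `c` in the truncation -/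
theorem lintegral_min_rpow_mul {p y c : ℝ} (hp1 : 1 < p) (hp2 : p < 2) (hy : 0 ≤ y) (hc : 0 < c) :
    ∫⁻ t in Ioi (0 : ℝ), ENNReal.ofReal (t ^ (p - 3) * min (y ^ 2) ((max (c * t) 0) ^ 2)) =
      ENNReal.ofReal (c ^ (2 - p) * (2 / (p * (2 - p))) * y ^ p) := by
  have e1 : ∀ t ∈ Ioi (0:ℝ), ENNReal.ofReal (t ^ (p - 3) * min (y ^ 2) ((max (c * t) 0) ^ 2)) =
      ENNReal.ofReal (c ^ 2) * ENNReal.ofReal (t ^ (p - 3) * min ((y / c) ^ 2) (t ^ 2)) := by
    intro t ht
    have ht' : 0 < t := ht
    rw [← ENNReal.ofReal_mul (by positivity)]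
    congr 1
    have h1 : max (c * t) 0 = c * t := max_eq_left (by positivity)
    rw [h1]
    have h2 : min (y ^ 2) ((c * t) ^ 2) = c ^ 2 * min ((y / c) ^ 2) (t ^ 2) := by
      rw [mul_min_of_nonneg _ _ (by positivity : (0:ℝ) ≤ c ^ 2)]
      congr 1
      · field_simp
      · ring
    rw [h2]
    ring
  rw [setLIntegral_congr_fun measurableSet_Ioi e1, lintegral_const_mul' _ _ ENNReal.ofReal_ne_top,
    lintegral_min_rpow hp1 hp2 (by positivity), ← ENNReal.ofReal_mul (by positivity)]
  congr 1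
  have e2 : (y / c) ^ p = y ^ p / c ^ p := Real.div_rpow hy hc.le p
  have e3 : c ^ (2 - p) = c ^ 2 / c ^ p := by
    rw [Real.rpow_sub hc]
    norm_num
  rw [e2, e3]
  ring

/-- layer cake for the truncated energy -/
theorem lintegral_trunc {f : ℂ → ℂ} (hf : MemLp f 2 volume) {p c : ℝ} (hp1 : 1 < p) (hp2 : p < 2)
    (hc : 0 < c) :
    ∫⁻ t in Ioi (0 : ℝ), ENNReal.ofReal (t ^ (p - 3) * trunc f (c * t)) =
      ENNReal.ofReal (c ^ (2 - p) * (2 / (p * (2 - p)))) * ∫⁻ z, ENNReal.ofReal (‖f z‖ ^ p) := by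
  have hfm : AEMeasurable (fun z => ‖f z‖) volume := hf.aestronglyMeasurable.norm.aemeasurable
  have e1 : ∀ t ∈ Ioi (0:ℝ), ENNReal.ofReal (t ^ (p - 3) * trunc f (c * t)) =
      ∫⁻ z, ENNReal.ofReal (t ^ (p - 3) * min (‖f z‖ ^ 2) ((max (c * t) 0) ^ 2)) := by
    intro t ht
    have ht' : 0 < t := ht
    have hi := (integrable_trunc hf (c * t)).const_mul (t ^ (p - 3))
    rw [← ofReal_integral_eq_lintegral_ofReal hi]
    · rw [integral_const_mul]; rfl
    · filter_upwards with z
      have : 0 ≤ min (‖f z‖ ^ 2) ((max (c * t) 0) ^ 2) := le_min (by positivity) (by positivity)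
      positivity
  rw [setLIntegral_congr_fun measurableSet_Ioi e1]
  rw [lintegral_lintegral_swap]
  · have e2 : ∀ z, ∫⁻ t in Ioi (0:ℝ),
        ENNReal.ofReal (t ^ (p - 3) * min (‖f z‖ ^ 2) ((max (c * t) 0) ^ 2)) =
        ENNReal.ofReal (c ^ (2 - p) * (2 / (p * (2 - p)))) * ENNReal.ofReal (‖f z‖ ^ p) := by
      intro z
      rw [lintegral_min_rpow_mul hp1 hp2 (norm_nonneg _) hc, ENNReal.ofReal_mul]
      have : 0 < 2 - p := by linarith
      have : 0 < p := by linarith
      positivity
    simp_rw [e2]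
    rw [lintegral_const_mul' _ _ ENNReal.ofReal_ne_top]
  · apply AEMeasurable.ennreal_ofReal
    apply AEMeasurable.mul
    · have : Measurable fun q : ℝ × ℂ => q.1 ^ (p - 3) := by fun_prop
      exact this.aemeasurable
    · apply AEMeasurable.min
      · have : AEMeasurable (fun q : ℝ × ℂ => ‖f q.2‖)
            ((volume.restrict (Ioi (0:ℝ))).prod volume) :=
          hfm.comp_quasiMeasurePreserving Measure.quasiMeasurePreserving_snd
        exact this.pow_const 2
      · have : Measurable fun q : ℝ × ℂ => (max (c * q.1) 0) ^ 2 := by fun_prop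
        exact this.aemeasurable

/-- superposition over the delay `l ∈ (0, L]` -/
theorem lintegral_delay {f : ℂ → ℂ} (hf : MemLp f 2 volume) {p a C L : ℝ} (hp1 : 1 < p)
    (hp2 : p < 2) (hap : a * p = 1) (hC : 0 < C) (hL : 0 ≤ L)
    {nu : ℝ → ℝ} (hnu : ContinuousOn nu (Icc 0 L)) (hnu0 : ∀ x ∈ Icc 0 L, 0 ≤ nu x) :
    ∫⁻ t in Ioi (0 : ℝ), ENNReal.ofReal
        (t ^ (p - 3) * ∫ l in (0:ℝ)..L, nu l * trunc f (C * Real.exp (-(a * l)) * t)) =
      ENNReal.ofReal (C ^ (2 - p) * (2 / (p * (2 - p)))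
        * ∫ l in (0:ℝ)..L, nu l * Real.exp (-((2 * a - 1) * l))) *
        ∫⁻ z, ENNReal.ofReal (‖f z‖ ^ p) := by
  have hu : uIcc 0 L = Icc 0 L := uIcc_of_le hL
  have hp0 : 0 < p := by linarith
  have h2p : 0 < 2 - p := by linarith
  have ha0 : 0 < a := by
    rcases lt_trichotomy a 0 with h | h | h
    · nlinarith
    · rw [h] at hap; simp at hap
    · exact h
  have hmeasM : Measurable (trunc f) := (trunc_mono hf).measurable
  -- integrability in `l`
  have hint : ∀ t : ℝ, 0 < t → IntegrableOn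
      (fun l => nu l * trunc f (C * Real.exp (-(a * l)) * t)) (Ioc 0 L) volume := by
    intro t ht
    have h1 : IntervalIntegrable (fun l => trunc f (C * Real.exp (-(a * l)) * t)) volume 0 L := by
      apply AntitoneOn.intervalIntegrable
      intro x _ y _ hxy
      apply trunc_mono hf
      have : Real.exp (-(a * y)) ≤ Real.exp (-(a * x)) :=
        Real.exp_le_exp.mpr (by nlinarith)
      have h2 : C * Real.exp (-(a * y)) ≤ C * Real.exp (-(a * x)) :=
        mul_le_mul_of_nonneg_left this hC.le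
      exact mul_le_mul_of_nonneg_right h2 ht.le
    have h3 := h1.continuousOn_mul (by rwa [hu])
    exact (intervalIntegrable_iff_integrableOn_Ioc_of_le hL).mp h3
  have e1 : ∀ t ∈ Ioi (0:ℝ), ENNReal.ofReal
        (t ^ (p - 3) * ∫ l in (0:ℝ)..L, nu l * trunc f (C * Real.exp (-(a * l)) * t)) =
      ∫⁻ l in Ioc 0 L, ENNReal.ofReal (nu l) *
        ENNReal.ofReal (t ^ (p - 3) * trunc f (C * Real.exp (-(a * l)) * t)) := by
    intro t ht
    have ht' : 0 < t := ht
    rw [intervalIntegral.integral_of_le hL, ← integral_const_mul,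
      ofReal_integral_eq_lintegral_ofReal ((hint t ht').const_mul _)]
    · apply setLIntegral_congr_fun measurableSet_Ioc
      intro l hl
      simp only
      rw [← ENNReal.ofReal_mul (hnu0 l ⟨hl.1.le, hl.2⟩)]
      congr 1
      ring
    · rw [EventuallyLE, ae_restrict_iff' measurableSet_Ioc]
      filter_upwards with l hl
      have h4 := hnu0 l ⟨hl.1.le, hl.2⟩
      have h5 := trunc_nonneg f (C * Real.exp (-(a * l)) * t)
      have h6 : 0 ≤ t ^ (p - 3) := Real.rpow_nonneg ht'.le _
      positivity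
  rw [setLIntegral_congr_fun measurableSet_Ioi e1, lintegral_lintegral_swap]
  · have e2 : ∀ l ∈ Ioc 0 L, ∫⁻ t in Ioi (0:ℝ), ENNReal.ofReal (nu l) *
        ENNReal.ofReal (t ^ (p - 3) * trunc f (C * Real.exp (-(a * l)) * t)) =
        ENNReal.ofReal (C ^ (2 - p) * (2 / (p * (2 - p))) *
          (nu l * Real.exp (-((2 * a - 1) * l)))) * ∫⁻ z, ENNReal.ofReal (‖f z‖ ^ p) := by
      intro l hl
      have h4 := hnu0 l ⟨hl.1.le, hl.2⟩
      rw [lintegral_const_mul' _ _ ENNReal.ofReal_ne_top,
        lintegral_trunc hf hp1 hp2 (by positivity : 0 < C * Real.exp (-(a * l))), ← mul_assoc,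
        ← ENNReal.ofReal_mul h4]
      congr 2
      rw [Real.mul_rpow hC.le (Real.exp_pos _).le, ← Real.exp_mul]
      have e3 : -(a * l) * (2 - p) = -((2 * a - 1) * l) := by
        have : a * l * p = l := by rw [mul_assoc, mul_comm l p, ← mul_assoc, hap, one_mul]
        linarith
      rw [e3]
      ring
    rw [setLIntegral_congr_fun measurableSet_Ioc e2]
    rw [lintegral_mul_const'' _ ?_]
    · congr 1
      rw [intervalIntegral.integral_of_le hL, ← integral_const_mul,
        ofReal_integral_eq_lintegral_ofReal]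
      · apply Integrable.const_mul
        have h5 : ContinuousOn (fun l => nu l * Real.exp (-((2 * a - 1) * l))) (Icc 0 L) := by
          apply hnu.mul
          fun_prop
        exact (h5.integrableOn_Icc).mono_set Ioc_subset_Icc_self
      · rw [EventuallyLE, ae_restrict_iff' measurableSet_Ioc]
        filter_upwards with l hl
        have h4 := hnu0 l ⟨hl.1.le, hl.2⟩
        have h6 : 0 ≤ C ^ (2 - p) := Real.rpow_nonneg hC.le _
        positivity
    · apply AEMeasurable.ennreal_ofReal
      apply AEMeasurable.const_mul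
      have h5 : ContinuousOn (fun l => nu l * Real.exp (-((2 * a - 1) * l))) (Ioc 0 L) := by
        apply (hnu.mono Ioc_subset_Icc_self).mul
        fun_prop
      exact h5.aemeasurable measurableSet_Ioc
  · have h6 : AEMeasurable nu (volume.restrict (Ioc 0 L)) :=
      (hnu.mono Ioc_subset_Icc_self).aemeasurable measurableSet_Ioc
    have h7 : AEMeasurable (fun q : ℝ × ℝ => ENNReal.ofReal (nu q.2))
        ((volume.restrict (Ioi (0:ℝ))).prod (volume.restrict (Ioc 0 L))) :=
      (h6.comp_quasiMeasurePreserving Measure.quasiMeasurePreserving_snd).ennreal_ofReal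
    have h8 : Measurable (fun q : ℝ × ℝ =>
        ENNReal.ofReal (q.1 ^ (p - 3) * trunc f (C * Real.exp (-(a * q.2)) * q.1))) := by
      apply Measurable.ennreal_ofReal
      have h9 : Measurable (fun q : ℝ × ℝ => trunc f (C * Real.exp (-(a * q.2)) * q.1)) :=
        hmeasM.comp (by fun_prop)
      have h10 : Measurable (fun q : ℝ × ℝ => q.1 ^ (p - 3)) := by fun_prop
      exact h10.mul h9
    exact h7.mul h8.aemeasurable

/-- END OF THE STATIC TRANSPORT: `(ST)` for a family (depending on `ρ > 0`) of open sets with energies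
`S t` and volumes `V t`, together with the family inequality `(FAM)` with loss `ρ`, gives the sharp
`Lᵖ` inequality. -/
theorem static_end {fn f0 : ℂ → ℂ} (hfn : MemLp fn 2 volume) (hf0 : MemLp f0 2 volume)
    {p a C : ℝ} (hp1 : 1 < p) (hp2 : p < 2) (hap : a * p = 1) (hC : 0 < C)
    (hfin : ∫⁻ z, ENNReal.ofReal (‖f0 z‖ ^ p) ≠ ⊤)
    {nu kap : ℝ → ℝ} (hnu : ContinuousOn nu (Ici 0)) (hkap : ContinuousOn kap (Ici 0))
    (hnu0 : ∀ x, 0 ≤ x → 0 ≤ nu x) (hkap0 : ∀ x, 0 ≤ x → 0 ≤ kap x)
    {Znu Zkap : ℝ} (hZ : 0 < Znu)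
    (hZnu : Tendsto (fun L => ∫ l in (0:ℝ)..L, nu l * Real.exp (-((2 * a - 1) * l))) atTop
      (𝓝 Znu))
    (hZkap : Tendsto (fun L => ∫ l in (0:ℝ)..L, kap l * Real.exp (-((2 * a - 1) * l))) atTop
      (𝓝 Zkap))
    (H : ∀ ρ > (0:ℝ), ∃ t₀, 0 < t₀ ∧ t₀ < ρ ∧ ∃ S V : ℝ → ℝ, (∀ t, t₀ < t → 0 ≤ V t) ∧
      (∀ t, t₀ < t → ∀ L, 0 ≤ L →
        ∫ l in (0:ℝ)..L, (nu l * trunc fn (C * Real.exp (-(a * l)) * t)
          + kap l * trunc f0 (Real.exp (-(a * l)) * t)) ≤
        S t + t ^ 2 * V t * ∫ l in (0:ℝ)..L, (C ^ 2 * nu l + kap l)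
          * Real.exp (-((2 * a - 1) * l))) ∧
      ∫⁻ t in Ioi t₀, ENNReal.ofReal (t ^ (p - 3) * (S t + t ^ 2 * V t * (C ^ 2 * Znu + Zkap))) ≤
        ENNReal.ofReal ρ + ENNReal.ofReal (2 / (p * (2 - p)) * (C ^ 2 * Znu + Zkap)) *
          ∫⁻ z, ENNReal.ofReal (‖f0 z‖ ^ p)) :
    ∫⁻ z, ENNReal.ofReal (‖fn z‖ ^ p) ≤ ENNReal.ofReal (C ^ p) *
      ∫⁻ z, ENNReal.ofReal (‖f0 z‖ ^ p) := by
  have hp0 : 0 < p := by linarith
  have h2p : 0 < 2 - p := by linarith
  set In := ∫⁻ z, ENNReal.ofReal (‖fn z‖ ^ p) with hIn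
  set I0 := ∫⁻ z, ENNReal.ofReal (‖f0 z‖ ^ p) with hI0
  set q := 2 / (p * (2 - p)) with hq
  have hq0 : 0 < q := by positivity
  set W : ℝ → ℝ := fun L => ∫ l in (0:ℝ)..L, nu l * Real.exp (-((2 * a - 1) * l)) with hW
  set Wk : ℝ → ℝ := fun L => ∫ l in (0:ℝ)..L, kap l * Real.exp (-((2 * a - 1) * l)) with hWk
  -- monotonicity of `W`, `Wk`, hence `W L ≤ Znu`
  have hmonoW : ∀ {f : ℝ → ℝ}, ContinuousOn f (Ici 0) → (∀ x, 0 ≤ x → 0 ≤ f x) →
      ∀ L M : ℝ, 0 ≤ L → L ≤ M → ∫ l in (0:ℝ)..L, f l * Real.exp (-((2 * a - 1) * l)) ≤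
        ∫ l in (0:ℝ)..M, f l * Real.exp (-((2 * a - 1) * l)) := by
    intro f hf hf0 L M hL hLM
    have hM : 0 ≤ M := hL.trans hLM
    have hcont : ContinuousOn (fun l => f l * Real.exp (-((2 * a - 1) * l))) (Ici 0) := by
      apply hf.mul; fun_prop
    have i1 : ∀ x y : ℝ, 0 ≤ x → 0 ≤ y →
        IntervalIntegrable (fun l => f l * Real.exp (-((2 * a - 1) * l))) volume x y := by
      intro x y hx hy
      apply ContinuousOn.intervalIntegrable
      apply hcont.mono
      intro u hu
      exact le_trans (le_min hx hy) hu.1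
    rw [← intervalIntegral.integral_add_adjacent_intervals (i1 0 L le_rfl hL) (i1 L M hL hM)]
    have : 0 ≤ ∫ l in L..M, f l * Real.exp (-((2 * a - 1) * l)) := by
      apply intervalIntegral.integral_nonneg hLM
      intro u hu
      have := hf0 u (hL.trans hu.1)
      positivity
    linarith
  have hWle : ∀ L, 0 ≤ L → W L ≤ Znu := fun L hL => by
    apply ge_of_tendsto hZnu
    filter_upwards [eventually_ge_atTop L] with M hM
    exact hmonoW hnu hnu0 L M hL hM
  have hWkle : ∀ L, 0 ≤ L → Wk L ≤ Zkap := fun L hL => by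
    apply ge_of_tendsto hZkap
    filter_upwards [eventually_ge_atTop L] with M hM
    exact hmonoW hkap hkap0 L M hL hM
  have hW0 : ∀ L, 0 ≤ L → 0 ≤ W L := fun L hL => by
    have := hmonoW hnu hnu0 0 L le_rfl hL
    simpa [hW] using this
  have hWk0 : ∀ L, 0 ≤ L → 0 ≤ Wk L := fun L hL => by
    have := hmonoW hkap hkap0 0 L le_rfl hL
    simpa [hWk] using this
  have hZk0 : 0 ≤ Zkap := le_trans (hWk0 0 le_rfl) (hWkle 0 le_rfl)
  -- step 1: for each `L`, the bound
  have step1 : ∀ L, 0 ≤ L →
      ENNReal.ofReal (C ^ (2 - p) * q * W L) * In + ENNReal.ofReal (q * Wk L) * I0 ≤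
        ENNReal.ofReal (q * (C ^ 2 * Znu + Zkap)) * I0 := by
    intro L hL
    set F : ℝ → ℝ := fun t => ∫ l in (0:ℝ)..L, (nu l * trunc fn (C * Real.exp (-(a * l)) * t)
          + kap l * trunc f0 (Real.exp (-(a * l)) * t)) with hF
    have ha0 : 0 < a := by
      rcases lt_trichotomy a 0 with h | h | h
      · nlinarith
      · rw [h] at hap; simp at hap
      · exact h
    have hcn : ContinuousOn nu (Icc 0 L) := hnu.mono Icc_subset_Ici_self
    have hck : ContinuousOn kap (Icc 0 L) := hkap.mono Icc_subset_Ici_self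
    have hint : ∀ {f : ℂ → ℂ} {c : ℝ} {g : ℝ → ℝ}, MemLp f 2 volume → 0 < c →
        ContinuousOn g (Icc 0 L) → ∀ t : ℝ, 0 < t → IntervalIntegrable
          (fun l => g l * trunc f (c * Real.exp (-(a * l)) * t)) volume 0 L := by
      intro f c g hf hc hg t ht
      have h1 : IntervalIntegrable (fun l => trunc f (c * Real.exp (-(a * l)) * t)) volume 0 L := by
        apply AntitoneOn.intervalIntegrable
        intro x _ y _ hxy
        apply trunc_mono hf
        have : Real.exp (-(a * y)) ≤ Real.exp (-(a * x)) :=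
          Real.exp_le_exp.mpr (by nlinarith)
        have h2 : c * Real.exp (-(a * y)) ≤ c * Real.exp (-(a * x)) :=
          mul_le_mul_of_nonneg_left this hc.le
        exact mul_le_mul_of_nonneg_right h2 ht.le
      exact h1.continuousOn_mul (by rwa [uIcc_of_le hL])
    have hFsplit : ∀ t : ℝ, 0 < t → F t =
        (∫ l in (0:ℝ)..L, nu l * trunc fn (C * Real.exp (-(a * l)) * t)) +
        ∫ l in (0:ℝ)..L, kap l * trunc f0 (1 * Real.exp (-(a * l)) * t) := by
      intro t ht
      rw [← intervalIntegral.integral_add (hint hfn hC hcn t ht) (hint hf0 one_pos hck t ht)]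
      simp only [hF, one_mul]
    have hFn0 : ∀ t : ℝ, 0 ≤ ∫ l in (0:ℝ)..L, nu l * trunc fn (C * Real.exp (-(a * l)) * t) := by
      intro t
      apply intervalIntegral.integral_nonneg hL
      intro u hu
      exact mul_nonneg (hnu0 u hu.1) (trunc_nonneg _ _)
    have hFk0 : ∀ t : ℝ, 0 ≤ ∫ l in (0:ℝ)..L, kap l * trunc f0 (1 * Real.exp (-(a * l)) * t) := by
      intro t
      apply intervalIntegral.integral_nonneg hL
      intro u hu
      exact mul_nonneg (hkap0 u hu.1) (trunc_nonneg _ _)
    -- the left side as an integral over `t`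
    have hLHS : ENNReal.ofReal (C ^ (2 - p) * q * W L) * In + ENNReal.ofReal (q * Wk L) * I0 ≤
        ∫⁻ t in Ioi (0:ℝ), ENNReal.ofReal (t ^ (p - 3) * F t) := by
      rw [hIn, ← lintegral_delay hfn hp1 hp2 hap hC hL hcn (fun x hx => hnu0 x hx.1)]
      have h2 := lintegral_delay hf0 hp1 hp2 hap one_pos hL hck (fun x hx => hkap0 x hx.1)
      rw [Real.one_rpow, one_mul] at h2
      rw [← h2]
      refine (le_lintegral_add _ _).trans (le_of_eq ?_)
      apply setLIntegral_congr_fun measurableSet_Ioi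
      intro t ht
      have ht' : 0 < t := ht
      have h6 : 0 ≤ t ^ (p - 3) := Real.rpow_nonneg ht'.le _
      simp only
      rw [← ENNReal.ofReal_add (mul_nonneg h6 (hFn0 t)) (mul_nonneg h6 (hFk0 t)), ← mul_add,
        hFsplit t ht']
    refine hLHS.trans ?_
    -- bound for each `ρ`
    have hbd : ∀ τ > (0:ℝ), ∫⁻ t in Ioi τ, ENNReal.ofReal (t ^ (p - 3) * F t) ≤
        ENNReal.ofReal (q * (C ^ 2 * Znu + Zkap)) * I0 := by
      intro τ hτ
      apply ENNReal.le_of_forall_pos_le_add
      intro ε hε _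
      obtain ⟨t₀, ht0, ht1, S, V, hV, hST, hFAM⟩ := H (min τ ε) (lt_min hτ (by exact_mod_cast hε))
      have ht0τ : t₀ < τ := lt_of_lt_of_le ht1 (min_le_left _ _)
      calc ∫⁻ t in Ioi τ, ENNReal.ofReal (t ^ (p - 3) * F t)
          ≤ ∫⁻ t in Ioi t₀, ENNReal.ofReal (t ^ (p - 3) * F t) :=
            lintegral_mono_set (Ioi_subset_Ioi ht0τ.le)
        _ ≤ ∫⁻ t in Ioi t₀, ENNReal.ofReal
              (t ^ (p - 3) * (S t + t ^ 2 * V t * (C ^ 2 * Znu + Zkap))) := by
            apply lintegral_mono_ae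
            rw [ae_restrict_iff' measurableSet_Ioi]
            filter_upwards with t ht
            have ht' : 0 < t := lt_trans ht0 ht
            apply ENNReal.ofReal_le_ofReal
            apply mul_le_mul_of_nonneg_left _ (Real.rpow_nonneg ht'.le _)
            refine (hST t ht L hL).trans ?_
            have h7 : ∫ l in (0:ℝ)..L, (C ^ 2 * nu l + kap l) * Real.exp (-((2 * a - 1) * l))
                = C ^ 2 * W L + Wk L := by
              simp only [hW, hWk]
              rw [← intervalIntegral.integral_const_mul, ← intervalIntegral.integral_add]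
              · apply intervalIntegral.integral_congr
                intro x _
                simp only
                ring
              · apply IntervalIntegrable.const_mul
                apply ContinuousOn.intervalIntegrable
                rw [uIcc_of_le hL]
                apply hcn.mul; fun_prop
              · apply ContinuousOn.intervalIntegrable
                rw [uIcc_of_le hL]
                apply hck.mul; fun_prop
            rw [h7]
            have h8 : C ^ 2 * W L + Wk L ≤ C ^ 2 * Znu + Zkap := by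
              have := mul_le_mul_of_nonneg_left (hWle L hL) (by positivity : 0 ≤ C ^ 2)
              linarith [hWkle L hL]
            have h9 : 0 ≤ t ^ 2 * V t := mul_nonneg (by positivity) (hV t ht)
            have := mul_le_mul_of_nonneg_left h8 h9
            linarith
        _ ≤ ENNReal.ofReal (min τ ε) + ENNReal.ofReal (q * (C ^ 2 * Znu + Zkap)) * I0 := hFAM
        _ ≤ ENNReal.ofReal (q * (C ^ 2 * Znu + Zkap)) * I0 + ε := by
            rw [add_comm]
            gcongr
            calc ENNReal.ofReal (min τ ε) ≤ ENNReal.ofReal (ε : ℝ) :=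
                  ENNReal.ofReal_le_ofReal (min_le_right _ _)
              _ = ε := ENNReal.ofReal_coe_nnreal
    -- monotone convergence `τ → 0`
    have hU : Ioi (0:ℝ) = ⋃ k : ℕ, Ioi (1 / ((k : ℝ) + 1)) := by
      ext x
      simp only [mem_Ioi, mem_iUnion]
      constructor
      · intro hx
        obtain ⟨k, hk⟩ := exists_nat_one_div_lt hx
        exact ⟨k, hk⟩
      · rintro ⟨k, hk⟩
        have : (0:ℝ) < 1 / ((k : ℝ) + 1) := by positivity
        linarith
    have hdir : Directed (· ⊆ ·) (fun k : ℕ => Ioi (1 / ((k : ℝ) + 1))) := by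
      apply Monotone.directed_le
      intro i j hij
      apply Ioi_subset_Ioi
      have : (i : ℝ) ≤ j := by exact_mod_cast hij
      apply one_div_le_one_div_of_le <;> [positivity; linarith]
    rw [hU, setLIntegral_iUnion_of_directed _ hdir]
    apply iSup_le
    intro k
    exact hbd _ (by positivity)
  -- step 2: `L → ∞`
  have hCp : 0 < C ^ (2 - p) := Real.rpow_pos_of_pos hC _
  have lim1 : Tendsto (fun L => ENNReal.ofReal (C ^ (2 - p) * q * W L) * In
      + ENNReal.ofReal (q * Wk L) * I0) atTop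
      (𝓝 (ENNReal.ofReal (C ^ (2 - p) * q * Znu) * In + ENNReal.ofReal (q * Zkap) * I0)) := by
    apply Tendsto.add
    · apply ENNReal.Tendsto.mul_const
      · exact (ENNReal.continuous_ofReal.tendsto _).comp (hZnu.const_mul _)
      · left
        have : 0 < C ^ (2 - p) * q * Znu := by positivity
        simpa using this
    · apply ENNReal.Tendsto.mul_const
      · exact (ENNReal.continuous_ofReal.tendsto _).comp (hZkap.const_mul _)
      · right; exact hfin
  have step2 : ENNReal.ofReal (C ^ (2 - p) * q * Znu) * In + ENNReal.ofReal (q * Zkap) * I0 ≤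
      ENNReal.ofReal (q * (C ^ 2 * Znu + Zkap)) * I0 := by
    apply le_of_tendsto lim1
    filter_upwards [eventually_ge_atTop 0] with L hL
    exact step1 L hL
  have h10 : ENNReal.ofReal (q * (C ^ 2 * Znu + Zkap)) * I0 =
      ENNReal.ofReal (q * (C ^ 2 * Znu)) * I0 + ENNReal.ofReal (q * Zkap) * I0 := by
    rw [← add_mul, ← ENNReal.ofReal_add (by positivity) (by positivity)]
    congr 2
    ring
  rw [h10] at step2
  have h11 : ENNReal.ofReal (q * Zkap) * I0 ≠ ⊤ := ENNReal.mul_ne_top ENNReal.ofReal_ne_top hfin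
  have step3 : ENNReal.ofReal (C ^ (2 - p) * q * Znu) * In ≤
      ENNReal.ofReal (q * (C ^ 2 * Znu)) * I0 := (ENNReal.add_le_add_iff_right h11).mp step2
  have hc0 : 0 < C ^ (2 - p) * q * Znu := by positivity
  have h12 : ENNReal.ofReal (q * (C ^ 2 * Znu)) =
      ENNReal.ofReal (C ^ (2 - p) * q * Znu) * ENNReal.ofReal (C ^ p) := by
    rw [← ENNReal.ofReal_mul hc0.le]
    congr 1
    have : C ^ (2 - p) * C ^ p = C ^ 2 := by
      rw [← Real.rpow_add hC]
      norm_num
    calc q * (C ^ 2 * Znu) = q * ((C ^ (2 - p) * C ^ p) * Znu) := by rw [this]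
      _ = C ^ (2 - p) * q * Znu * C ^ p := by ring
  rw [h12, mul_assoc (ENNReal.ofReal (C ^ (2 - p) * q * Znu))] at step3
  exact (ENNReal.mul_le_mul_iff_right (by simpa using hc0) ENNReal.ofReal_ne_top).mp step3

end Pool.Agent.Lib.QNL
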