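import Mathlib

/-! Group T, part 1: the abstract transport lemma (pure real analysis).

`TL.mul_deriv_le` : for an antitone function `E ≥ 0` on `[0, ℓ]` and a `C¹` weight `w ≥ 0`,
`∫ w (-E') ≤ w(0) E(0) - w(ℓ) E(ℓ) + ∫ w' E` (a.e. derivative, no continuity of `E` is needed).

`TL.transport` : the transport lemma of the torsion flow. -/

open MeasureTheory Set Filter
open scoped Topology Interval

namespace QNL
namespace TL_

variable {l : ℝ}

/-- the main one function inequality -/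
theorem mul_deriv_le {E w w' : ℝ → ℝ} {ℓ : ℝ} (hℓ : 0 ≤ ℓ) (hE : AntitoneOn E (Icc 0 ℓ))
    (hE0 : ∀ x ∈ Icc 0 ℓ, 0 ≤ E x) (hw : ∀ x, HasDerivAt w (w' x) x) (hw' : Continuous w')
    (hw0 : ∀ x ∈ Icc 0 ℓ, 0 ≤ w x) :
    ∫ x in (0 : ℝ)..ℓ, w x * (-deriv E x) ≤
      w 0 * E 0 - w ℓ * E ℓ + ∫ x in (0 : ℝ)..ℓ, w' x * E x := by
  have hwc : Continuous w := continuous_iff_continuousAt.2 fun x => (hw x).continuousAt
  have h0 : (0 : ℝ) ∈ Icc 0 ℓ := ⟨le_refl _, hℓ⟩
  obtain ⟨C, hC⟩ : ∃ C : ℝ, ∀ x ∈ Icc 0 ℓ, |w' x| ≤ C := by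
    obtain ⟨C, hC⟩ := (isCompact_Icc (a := (0 : ℝ)) (b := ℓ)).exists_bound_of_continuousOn
      hw'.continuousOn
    exact ⟨C, fun x hx => by simpa using hC x hx⟩
  have hC0 : 0 ≤ C := le_trans (abs_nonneg _) (hC 0 h0)
  set M : ℝ := E 0 with hM
  have hM0 : 0 ≤ M := hE0 0 h0
  have hEM : ∀ x ∈ Icc 0 ℓ, E x ≤ M := fun x hx => hE h0 hx hx.1
  set K : ℝ := C * M with hK
  -- the monotone function
  set G : ℝ → ℝ := fun x => K * x - w x * E x with hG
  have hlip : ∀ x ∈ Icc 0 ℓ, ∀ y ∈ Icc 0 ℓ, x ≤ y → w y - w x ≤ C * (y - x) := by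
    intro x hx y hy hxy
    have := Convex.norm_image_sub_le_of_norm_hasDerivWithin_le (f := w) (f' := w')
      (s := Icc 0 ℓ) (C := C) (fun z hz => (hw z).hasDerivWithinAt)
      (fun z hz => by simpa using hC z hz) (convex_Icc 0 ℓ) hx hy
    have h2 : |w y - w x| ≤ C * |y - x| := by simpa [Real.norm_eq_abs] using this
    rw [abs_of_nonneg (sub_nonneg.2 hxy)] at h2
    exact le_trans (le_abs_self _) h2
  have hGm : MonotoneOn G (Icc 0 ℓ) := by
    intro x hx y hy hxy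
    have h1 : E y ≤ E x := hE hx hy hxy
    have h2 := hlip x hx y hy hxy
    have h3 : w y * E y ≤ w y * E x := mul_le_mul_of_nonneg_left h1 (hw0 y hy)
    have h4 : (w y - w x) * E x ≤ C * (y - x) * E x := mul_le_mul_of_nonneg_right h2 (hE0 x hx)
    have h5 : C * (y - x) * E x ≤ C * (y - x) * M :=
      mul_le_mul_of_nonneg_left (hEM x hx) (mul_nonneg hC0 (sub_nonneg.2 hxy))
    simp only [hG]
    nlinarith
  -- negated version of E
  have hEm : MonotoneOn (fun x => -E x) (Icc 0 ℓ) := fun x hx y hy hxy => neg_le_neg (hE hx hy hxy)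
  have hIcc : uIcc 0 ℓ = Icc 0 ℓ := uIcc_of_le hℓ
  have hmem := MonotoneOn.intervalIntegral_deriv_mem_uIcc (f := G) (a := 0) (b := ℓ)
    (by rwa [hIcc])
  have hGint := MonotoneOn.intervalIntegrable_deriv (f := G) (a := 0) (b := ℓ) (by rwa [hIcc])
  have hEint := MonotoneOn.intervalIntegrable_deriv (f := fun x => -E x) (a := 0) (b := ℓ)
    (by rwa [hIcc])
  have hG0 : 0 ≤ G ℓ - G 0 := sub_nonneg.2 (hGm h0 ⟨hℓ, le_refl _⟩ hℓ)
  rw [uIcc_of_le hG0] at hmem
  have hle : ∫ x in (0 : ℝ)..ℓ, deriv G x ≤ G ℓ - G 0 := hmem.2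
  -- a.e. differentiability
  have hdiff : ∀ᵐ x, x ∈ Ioo 0 ℓ → DifferentiableAt ℝ E x := by
    have := hEm.ae_differentiableWithinAt_of_mem
    filter_upwards [this] with x hx hxm
    have h1 : DifferentiableWithinAt ℝ (fun x => -E x) (Icc 0 ℓ) x := hx (Ioo_subset_Icc_self hxm)
    have h2 : DifferentiableAt ℝ (fun x => -E x) x :=
      h1.differentiableAt (Icc_mem_nhds (a := (0 : ℝ)) (b := ℓ) hxm.1 hxm.2)
    simpa using h2.neg
  have hae : ∀ᵐ x, x ∈ Ioc 0 ℓ → deriv G x = K - (w' x * E x + w x * deriv E x) := by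
    have hne : ∀ᵐ x : ℝ, x ≠ ℓ := by simp [ae_iff, measure_singleton]
    filter_upwards [hdiff, hne] with x hx hne hxm
    have hx' := hx ⟨hxm.1, lt_of_le_of_ne hxm.2 hne⟩
    have h1 : HasDerivAt (fun x => w x * E x) (w' x * E x + w x * deriv E x) x :=
      (hw x).mul hx'.hasDerivAt
    have h2 : HasDerivAt G (K * 1 - (w' x * E x + w x * deriv E x)) x :=
      ((hasDerivAt_id x).const_mul K).sub h1
    rw [h2.deriv]; ring
  have hEI : IntervalIntegrable E volume 0 ℓ := by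
    have h : AntitoneOn E (uIcc 0 ℓ) := by rwa [hIcc]
    exact AntitoneOn.intervalIntegrable h
  have hdE : IntervalIntegrable (fun x => deriv E x) volume 0 ℓ := by
    have h := hEint.neg
    refine h.congr ?_
    intro x _
    have : deriv (fun y => -E y) x = -deriv E x := deriv.fun_neg
    simp
  have hwE : IntervalIntegrable (fun x => w' x * E x) volume 0 ℓ :=
    hEI.continuousOn_mul hw'.continuousOn
  have hwdE : IntervalIntegrable (fun x => w x * deriv E x) volume 0 ℓ :=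
    hdE.continuousOn_mul hwc.continuousOn
  have hcalc : ∫ x in (0 : ℝ)..ℓ, deriv G x =
      K * ℓ - (∫ x in (0 : ℝ)..ℓ, w' x * E x) - ∫ x in (0 : ℝ)..ℓ, w x * deriv E x := by
    have h1 : ∫ x in (0 : ℝ)..ℓ, deriv G x =
        ∫ x in (0 : ℝ)..ℓ, (K - (w' x * E x + w x * deriv E x)) := by
      refine intervalIntegral.integral_congr_ae ?_
      rw [uIoc_of_le hℓ]
      exact hae
    rw [h1, intervalIntegral.integral_sub intervalIntegrable_const (hwE.add hwdE),
      intervalIntegral.integral_add hwE hwdE, intervalIntegral.integral_const]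
    simp only [smul_eq_mul]; ring
  have hfin : ∫ x in (0 : ℝ)..ℓ, w x * (-deriv E x) = -∫ x in (0 : ℝ)..ℓ, w x * deriv E x := by
    rw [← intervalIntegral.integral_neg]
    refine intervalIntegral.integral_congr fun x _ => by ring
  rw [hfin]
  have : G ℓ - G 0 = K * ℓ - w ℓ * E ℓ + w 0 * E 0 := by simp only [hG]; ring
  rw [hcalc, this] at hle
  linarith

/-- the **transport lemma**.  `E 0, …, E n` are antitone and nonnegative on `[0, ℓ]`, and a.e.
`E (j+1) - E j ≤ -(E j)'/p j - (E (j+1))'/r j`.  The weights `w j ≥ 0` satisfy the chain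
`w j + w' j / p j ≤ w (j-1) - w' (j-1) / r (j-1)`. -/
theorem transport {n : ℕ} {E w w' : ℕ → ℝ → ℝ} {p r : ℕ → ℝ} {ℓ : ℝ} (hℓ : 0 ≤ ℓ)
    (hp : ∀ j, j < n → 0 < p j) (hr : ∀ j, j < n → 0 < r j)
    (hE : ∀ j, j ≤ n → AntitoneOn (E j) (Icc 0 ℓ))
    (hE0 : ∀ j, j ≤ n → ∀ x ∈ Icc 0 ℓ, 0 ≤ E j x)
    (hw : ∀ j, j < n → ∀ x, HasDerivAt (w j) (w' j x) x) (hw' : ∀ j, j < n → Continuous (w' j))
    (hw0 : ∀ j, j < n → ∀ x ∈ Icc 0 ℓ, 0 ≤ w j x)
    (hae : ∀ j, j < n → ∀ᵐ x, x ∈ Ioc 0 ℓ →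
      E (j + 1) x - E j x ≤ -deriv (E j) x / p j - deriv (E (j + 1)) x / r j)
    (hch : ∀ j, j + 1 < n → ∀ x ∈ Icc 0 ℓ,
      w (j + 1) x + w' (j + 1) x / p (j + 1) ≤ w j x - w' j x / r j) (hn : 1 ≤ n) :
    (∫ x in (0 : ℝ)..ℓ, (w (n - 1) x - w' (n - 1) x / r (n - 1)) * E n x) +
      (∫ x in (0 : ℝ)..ℓ, (-(w 0 x + w' 0 x / p 0)) * E 0 x) ≤
      ∑ j ∈ Finset.range n, w j 0 * (E j 0 / p j + E (j + 1) 0 / r j) := by
  have hIcc : uIcc 0 ℓ = Icc 0 ℓ := uIcc_of_le hℓ
  have hwc : ∀ j, j < n → Continuous (w j) := fun j hj =>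
    continuous_iff_continuousAt.2 fun x => (hw j hj x).continuousAt
  have hEI : ∀ j, j ≤ n → IntervalIntegrable (E j) volume 0 ℓ := fun j hj => by
    have h : AntitoneOn (E j) (uIcc 0 ℓ) := by rw [hIcc]; exact hE j hj
    exact AntitoneOn.intervalIntegrable h
  have hdE : ∀ j, j ≤ n → IntervalIntegrable (fun x => deriv (E j) x) volume 0 ℓ := fun j hj => by
    have hEm : MonotoneOn (fun x => -E j x) (Icc 0 ℓ) :=
      fun x hx y hy hxy => neg_le_neg (hE j hj hx hy hxy)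
    have h := (MonotoneOn.intervalIntegrable_deriv (f := fun x => -E j x) (a := 0) (b := ℓ)
      (by rwa [hIcc])).neg
    refine h.congr ?_
    intro x _
    have : deriv (fun y => -E j y) x = -deriv (E j) x := deriv.fun_neg
    simp
  have hUI : ∀ j, j < n → IntervalIntegrable (fun x => (w j x - w' j x / r j) * E (j + 1) x)
      volume 0 ℓ := fun j hj =>
    (hEI (j + 1) hj).continuousOn_mul
      (((hwc j hj).sub ((hw' j hj).div_const _)).continuousOn)
  have hVI : ∀ j, j < n → IntervalIntegrable (fun x => (w j x + w' j x / p j) * E j x)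
      volume 0 ℓ := fun j hj =>
    (hEI j hj.le).continuousOn_mul
      (((hwc j hj).add ((hw' j hj).div_const _)).continuousOn)
  set U : ℕ → ℝ := fun j => ∫ x in (0 : ℝ)..ℓ, (w j x - w' j x / r j) * E (j + 1) x with hU
  set V : ℕ → ℝ := fun j => ∫ x in (0 : ℝ)..ℓ, (w j x + w' j x / p j) * E j x with hV
  -- one step
  have hstep : ∀ j, j < n → U j - V j ≤ w j 0 * (E j 0 / p j + E (j + 1) 0 / r j) := by
    intro j hj
    have hc := hwc j hj
    have hpj := hp j hj
    have hrj := hr j hj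
    have hI1 : IntervalIntegrable (fun x => w j x * (E (j + 1) x - E j x)) volume 0 ℓ :=
      ((hEI (j + 1) hj).sub (hEI j hj.le)).continuousOn_mul hc.continuousOn
    have hI2 : IntervalIntegrable (fun x => w j x * (-deriv (E j) x)) volume 0 ℓ :=
      ((hdE j hj.le).neg).continuousOn_mul hc.continuousOn
    have hI3 : IntervalIntegrable (fun x => w j x * (-deriv (E (j + 1)) x)) volume 0 ℓ :=
      ((hdE (j + 1) hj).neg).continuousOn_mul hc.continuousOn
    have hI4 : IntervalIntegrable (fun x => w' j x * E j x) volume 0 ℓ :=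
      (hEI j hj.le).continuousOn_mul (hw' j hj).continuousOn
    have hI5 : IntervalIntegrable (fun x => w' j x * E (j + 1) x) volume 0 ℓ :=
      (hEI (j + 1) hj).continuousOn_mul (hw' j hj).continuousOn
    have h1 : ∫ x in (0 : ℝ)..ℓ, w j x * (E (j + 1) x - E j x) ≤
        ∫ x in (0 : ℝ)..ℓ, (w j x * (-deriv (E j) x) * (1 / p j) +
          w j x * (-deriv (E (j + 1)) x) * (1 / r j)) := by
      refine intervalIntegral.integral_mono_ae_restrict hℓ hI1
        ((hI2.mul_const _).add (hI3.mul_const _)) ?_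
      refine (ae_restrict_iff' measurableSet_Icc).2 ?_
      have hne : ∀ᵐ x : ℝ, x ≠ 0 := by simp [ae_iff, measure_singleton]
      filter_upwards [hae j hj, hne] with x hx hx0 hxm
      have h2 := hx ⟨lt_of_le_of_ne hxm.1 (Ne.symm hx0), hxm.2⟩
      have h3 := mul_le_mul_of_nonneg_left h2 (hw0 j hj x hxm)
      have h4 : w j x * (-deriv (E j) x / p j - deriv (E (j + 1)) x / r j) =
          w j x * (-deriv (E j) x) * (1 / p j) + w j x * (-deriv (E (j + 1)) x) * (1 / r j) := by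
        ring
      show w j x * (E (j + 1) x - E j x) ≤ _
      rw [← h4]; exact h3
    rw [intervalIntegral.integral_add (hI2.mul_const _) (hI3.mul_const _),
      intervalIntegral.integral_mul_const, intervalIntegral.integral_mul_const] at h1
    have hmem0 : (0 : ℝ) ∈ Icc 0 ℓ := ⟨le_refl _, hℓ⟩
    have hmeml : ℓ ∈ Icc 0 ℓ := ⟨hℓ, le_refl _⟩
    have hm1 := mul_deriv_le hℓ (hE j hj.le) (hE0 j hj.le) (hw j hj) (hw' j hj) (hw0 j hj)
    have hm2 := mul_deriv_le hℓ (hE (j + 1) hj) (hE0 (j + 1) hj) (hw j hj) (hw' j hj) (hw0 j hj)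
    have hn1 : 0 ≤ w j ℓ * E j ℓ := mul_nonneg (hw0 j hj ℓ hmeml) (hE0 j hj.le ℓ hmeml)
    have hn2 : 0 ≤ w j ℓ * E (j + 1) ℓ := mul_nonneg (hw0 j hj ℓ hmeml) (hE0 (j + 1) hj ℓ hmeml)
    have hq1 : (∫ x in (0 : ℝ)..ℓ, w j x * (-deriv (E j) x)) * (1 / p j) ≤
        (w j 0 * E j 0 + ∫ x in (0 : ℝ)..ℓ, w' j x * E j x) * (1 / p j) :=
      mul_le_mul_of_nonneg_right (by linarith) (by positivity)
    have hq2 : (∫ x in (0 : ℝ)..ℓ, w j x * (-deriv (E (j + 1)) x)) * (1 / r j) ≤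
        (w j 0 * E (j + 1) 0 + ∫ x in (0 : ℝ)..ℓ, w' j x * E (j + 1) x) * (1 / r j) :=
      mul_le_mul_of_nonneg_right (by linarith) (by positivity)
    have hUV : U j - V j = (∫ x in (0 : ℝ)..ℓ, w j x * (E (j + 1) x - E j x)) -
        (∫ x in (0 : ℝ)..ℓ, w' j x * E j x) * (1 / p j) -
        (∫ x in (0 : ℝ)..ℓ, w' j x * E (j + 1) x) * (1 / r j) := by
      simp only [hU, hV]
      rw [← intervalIntegral.integral_sub (hUI j hj) (hVI j hj),
        ← intervalIntegral.integral_mul_const, ← intervalIntegral.integral_mul_const,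
        ← intervalIntegral.integral_sub hI1 (hI4.mul_const _),
        ← intervalIntegral.integral_sub (hI1.sub (hI4.mul_const _)) (hI5.mul_const _)]
      refine intervalIntegral.integral_congr fun x _ => ?_
      ring
    rw [hUV]
    have : w j 0 * (E j 0 / p j + E (j + 1) 0 / r j) =
        (w j 0 * E j 0) * (1 / p j) + (w j 0 * E (j + 1) 0) * (1 / r j) := by ring
    rw [this]
    nlinarith [hq1, hq2, h1]
  -- telescoping
  have hVU : ∀ j, j + 1 < n → V (j + 1) ≤ U j := by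
    intro j hj
    refine intervalIntegral.integral_mono_on hℓ (hVI (j + 1) hj) (hUI j (by omega)) ?_
    intro x hx
    exact mul_le_mul_of_nonneg_right (hch j hj x hx) (hE0 (j + 1) hj.le x hx)
  have htel : ∀ m, m + 1 ≤ n → U m - V 0 ≤ ∑ j ∈ Finset.range (m + 1), (U j - V j) := by
    intro m
    induction m with
    | zero => intro _; simp
    | succ m ih =>
      intro hm
      rw [Finset.sum_range_succ]
      have h1 := ih (by omega)
      have h2 := hVU m (by omega)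
      linarith
  have hfin := htel (n - 1) (by omega)
  have hn1 : n - 1 + 1 = n := by omega
  rw [hn1] at hfin
  have hsum : ∑ j ∈ Finset.range n, (U j - V j) ≤
      ∑ j ∈ Finset.range n, w j 0 * (E j 0 / p j + E (j + 1) 0 / r j) :=
    Finset.sum_le_sum fun j hj => hstep j (Finset.mem_range.1 hj)
  have hU1 : U (n - 1) = ∫ x in (0 : ℝ)..ℓ, (w (n - 1) x - w' (n - 1) x / r (n - 1)) * E n x := by
    simp only [hU, hn1]
  have hV0 : ∫ x in (0 : ℝ)..ℓ, (-(w 0 x + w' 0 x / p 0)) * E 0 x = -V 0 := by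
    simp only [hV]
    rw [← intervalIntegral.integral_neg]
    refine intervalIntegral.integral_congr fun x _ => ?_
    ring
  rw [hV0, ← hU1]
  linarith

end TL_
end QNL
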