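import Pool.Agent.Lib.QNL.FlowB
import Pool.Agent.Lib.QNL.TL
import Pool.Agent.Lib.QNL.TI9

/-!
Group T: the static transport inequality `StmtST` from `StmtFam`.
-/

set_option autoImplicit false

namespace Pool.Agent.Lib.QNL
namespace ST_

open MeasureTheory Filter Topology Set
open scoped ENNReal ContDiff Interval

theorem Mk_cont (k : ℕ) (X : H) : Continuous (Mk k X) := by
  unfold Mk
  refine continuous_of_dominated (bound := fun z => ‖(TT k X : ℂ → ℂ) z‖ ^ 2) ?_ ?_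
    (Flow_.intSq _) ?_
  · intro s
    exact (Flow_.intSq _).aestronglyMeasurable.inf aestronglyMeasurable_const
  · intro s
    refine ae_of_all _ fun z => ?_
    rw [Real.norm_eq_abs, abs_of_nonneg (le_min (by positivity) (by positivity))]
    exact min_le_left _ _
  · refine ae_of_all _ fun z => ?_
    exact continuous_const.min (continuous_id.pow 2)

theorem Mk_le (k : ℕ) (X : H) {G : Set ℂ} (hG : IsOpen G) (hb : Bornology.IsBounded G) (s : ℝ) :
    Mk k X s ≤ E k G X + s ^ 2 * (volume G).toReal := by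
  have hGf : volume G ≠ ⊤ := hb.measure_lt_top.ne
  have hi : Integrable (fun z => min (‖(TT k X : ℂ → ℂ) z‖ ^ 2) (s ^ 2)) volume := by
    refine (Flow_.intSq (TT k X)).mono'
      ((Flow_.intSq _).aestronglyMeasurable.inf aestronglyMeasurable_const) ?_
    refine ae_of_all _ fun z => ?_
    rw [Real.norm_eq_abs, abs_of_nonneg (le_min (by positivity) (by positivity))]
    exact min_le_left _ _
  unfold Mk
  rw [← integral_add_compl hG.measurableSet hi, add_comm]
  refine add_le_add ?_ ?_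
  · refine le_trans ?_ (Hil.stmtHoff k G X hG)
    exact setIntegral_mono hi.integrableOn (Flow_.intSq _).integrableOn fun z => min_le_left _ _
  · calc ∫ z in G, min (‖(TT k X : ℂ → ℂ) z‖ ^ 2) (s ^ 2) ≤ ∫ z in G, s ^ 2 :=
          setIntegral_mono hi.integrableOn (integrableOn_const (C := s ^ 2) hGf (by simp))
            fun z => min_le_right _ _
      _ = s ^ 2 * (volume G).toReal := by
          rw [setIntegral_const, smul_eq_mul, mul_comm]; rfl

/-- everything in `TFlow` transported -/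
theorem transport_flow {n : ℕ} {ℓ : ℝ} {p r : ℕ → ℝ} {w w' : ℕ → ℝ → ℝ}
    (hc : Chain n ℓ p r w w') {X : H} {D V : Set ℂ} {ρ : ℝ} {G : ℝ → Set ℂ}
    (hG : TFlow D V X n ℓ ρ G) :
    (∫ x in (0 : ℝ)..ℓ, exitD w w' r n x * E n (G x) X) +
      (∫ x in (0 : ℝ)..ℓ, extrD w w' p x * E 0 (G x) X) ≤
      ∑ j ∈ Finset.range n, w j 0 * ((E j D X + ρ) / p j + (E (j + 1) D X + ρ) / r j) := by
  have h1 := _root_.QNL.TL_.transport (n := n) (E := fun j x => E j (G x) X) (w := w) (w' := w') (p := p)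
    (r := r) hc.ell hc.hp hc.hr (fun j _ x _ y _ hxy => Hil.E_anti j (hG.mono hxy) X)
    (fun j _ x _ => Hil.E_nonneg j _ X) hc.deriv hc.cont hc.nonneg (fun j hj => ?_) hc.chain
    hc.pos
  · refine h1.trans (Finset.sum_le_sum fun j hj => ?_)
    have hj' := Finset.mem_range.1 hj
    have h0 := hc.nonneg j hj' 0 ⟨le_refl _, hc.ell⟩
    have hp := hc.hp j hj'
    have hr := hc.hr j hj'
    have h2 : E j (G 0) X ≤ E j D X + ρ := (Hil.E_anti j hG.VG X).trans (hG.init j hj'.le)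
    have h3 : E (j + 1) (G 0) X ≤ E (j + 1) D X + ρ :=
      (Hil.E_anti (j + 1) hG.VG X).trans (hG.init (j + 1) hj')
    refine mul_le_mul_of_nonneg_left (add_le_add ?_ ?_) h0
    · exact div_le_div_of_nonneg_right h2 hp.le
    · exact div_le_div_of_nonneg_right h3 hr.le
  · have hne : ∀ᵐ x : ℝ, x ≠ ℓ := by simp [ae_iff, measure_singleton]
    filter_upwards [hG.ineq j (p j) (r j) (hc.hp j hj) (hc.hr j hj) (hc.hpr j hj), hne]
      with x hx hxn hxm
    exact hx ⟨hxm.1, lt_of_le_of_ne hxm.2 hxn⟩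

/-- **(ST)** -/
theorem stmtST_of_smooth {Q : (ℂ → ℝ) → (ℝ → ℂ → ℝ) → Prop} (hfam : StmtFamS Q) : StmtST := by
  intro n ℓ p r w w' hc a C t hC ht X D hD hb
  have hℓ := hc.ell
  have hI : uIcc 0 ℓ = Icc 0 ℓ := uIcc_of_le hℓ
  have hn1 : n - 1 < n := by have := hc.pos; omega
  have hn0 : 0 < n := hc.pos
  have hwc : ∀ j, j < n → Continuous (w j) := fun j hj =>
    continuous_iff_continuousAt.2 fun x => (hc.deriv j hj x).continuousAt
  have hexc : Continuous (exitD w w' r n) :=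
    (hwc _ hn1).sub ((hc.cont _ hn1).div_const _)
  have hxtc : Continuous (extrD w w' p) :=
    ((hwc _ hn0).add ((hc.cont _ hn0).div_const _)).neg
  set v : ℝ := (volume D).toReal with hv
  set S : ℝ := ∑ j ∈ Finset.range n, w j 0 * (E j D X / p j + E (j + 1) D X / r j) with hS
  set K : ℝ := ∑ j ∈ Finset.range n, w j 0 * (1 / p j + 1 / r j) with hK
  set Z : ℝ := ∫ x in (0 : ℝ)..ℓ, (C ^ 2 * exitD w w' r n x + extrD w w' p x) *
    Real.exp ((1 - 2 * a) * x) with hZ
  have hMc : ∀ (k : ℕ) (c : ℝ), Continuous (fun x : ℝ => Mk k X (c * Real.exp (-(a * x)) * t)) :=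
    fun k c => (Mk_cont k X).comp (by fun_prop)
  set A : ℝ := (∫ x in (0 : ℝ)..ℓ, exitD w w' r n x * Mk n X (C * Real.exp (-(a * x)) * t)) +
      (∫ x in (0 : ℝ)..ℓ, extrD w w' p x * Mk 0 X (Real.exp (-(a * x)) * t)) with hA
  have key : ∀ ρ : ℝ, 0 < ρ → A ≤ S + t ^ 2 * v * Z + ρ * (K + t ^ 2 * Z) := by
    intro ρ hρ
    obtain ⟨μ, ψ, ε, l₀, η, V, -, -, -, -, -, -, -, -, -, -, -, -, hG⟩ :=
      Flow_.exists_flow Q hfam hD hb X n hℓ hρ
    set G : ℝ → Set ℂ := fun x => Flow_.Dom ψ ε (Flow_.lam l₀ η x) with hGd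
    have htr := transport_flow hc hG
    have hEI : ∀ j, IntervalIntegrable (fun x => E j (G x) X) volume 0 ℓ := fun j => by
      have h : AntitoneOn (fun x => E j (G x) X) (uIcc 0 ℓ) := fun x _ y _ hxy =>
        Hil.E_anti j (hG.mono hxy) X
      exact AntitoneOn.intervalIntegrable h
    -- the two pieces
    have hpt : ∀ (k : ℕ) (c : ℝ) (g : ℝ → ℝ), Continuous g → (∀ x ∈ Icc 0 ℓ, 0 ≤ g x) →
        ∫ x in (0 : ℝ)..ℓ, g x * Mk k X (c * Real.exp (-(a * x)) * t) ≤
        (∫ x in (0 : ℝ)..ℓ, g x * E k (G x) X) +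
          t ^ 2 * (v + ρ) * ∫ x in (0 : ℝ)..ℓ, c ^ 2 * g x * Real.exp ((1 - 2 * a) * x) := by
      intro k c g hg hg0
      have hgE : IntervalIntegrable (fun x => g x * E k (G x) X) volume 0 ℓ :=
        (hEI k).continuousOn_mul hg.continuousOn
      have hgx : Continuous (fun x => c ^ 2 * g x * Real.exp ((1 - 2 * a) * x)) := by fun_prop
      rw [← intervalIntegral.integral_const_mul, ← intervalIntegral.integral_add hgE
        (hgx.const_mul (t ^ 2 * (v + ρ)) |>.intervalIntegrable _ _)]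
      refine intervalIntegral.integral_mono_on hℓ ((hg.mul (hMc k c)).intervalIntegrable _ _)
        (hgE.add ((continuous_const.mul hgx).intervalIntegrable _ _)) ?_
      intro x hx
      have h1 := Mk_le k X (hG.opn x) (hG.bdd x) (c * Real.exp (-(a * x)) * t)
      have h2 := hG.vol x hx
      have h3 : Mk k X (c * Real.exp (-(a * x)) * t) ≤ E k (G x) X +
          (c * Real.exp (-(a * x)) * t) ^ 2 * (Real.exp x * (v + ρ)) :=
        h1.trans (add_le_add le_rfl (mul_le_mul_of_nonneg_left h2 (by positivity)))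
      have h4 := mul_le_mul_of_nonneg_left h3 (hg0 x hx)
      refine h4.trans (le_of_eq ?_)
      have h5 : Real.exp (-(a * x)) ^ 2 * Real.exp x = Real.exp ((1 - 2 * a) * x) := by
        rw [← Real.exp_nat_mul, ← Real.exp_add]
        congr 1
        push_cast
        ring
      rw [← h5]
      ring
    have h1 := hpt n C (exitD w w' r n) hexc hc.exit
    have h2 := hpt 0 1 (extrD w w' p) hxtc hc.extr
    simp only [one_pow, one_mul] at h2
    have h3 : Z = (∫ x in (0 : ℝ)..ℓ, C ^ 2 * exitD w w' r n x * Real.exp ((1 - 2 * a) * x)) +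
        ∫ x in (0 : ℝ)..ℓ, extrD w w' p x * Real.exp ((1 - 2 * a) * x) := by
      rw [hZ, ← intervalIntegral.integral_add]
      · refine intervalIntegral.integral_congr fun x _ => ?_
        ring
      · exact Continuous.intervalIntegrable (by fun_prop) _ _
      · exact Continuous.intervalIntegrable (by fun_prop) _ _
    have h4 : ∑ j ∈ Finset.range n, w j 0 * ((E j D X + ρ) / p j + (E (j + 1) D X + ρ) / r j) =
        S + ρ * K := by
      rw [hS, hK, Finset.mul_sum, ← Finset.sum_add_distrib]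
      refine Finset.sum_congr rfl fun j _ => ?_
      ring
    rw [h4] at htr
    have h5 : A ≤ ((∫ x in (0 : ℝ)..ℓ, exitD w w' r n x * E n (G x) X) +
        ∫ x in (0 : ℝ)..ℓ, extrD w w' p x * E 0 (G x) X) + t ^ 2 * (v + ρ) * Z := by
      rw [h3]
      have := add_le_add h1 h2
      rw [hA]
      refine this.trans (le_of_eq ?_)
      ring
    calc A ≤ _ := h5
      _ ≤ (S + ρ * K) + t ^ 2 * (v + ρ) * Z := by linarith
      _ = _ := by ring
  -- `ρ → 0`
  have hlim : Tendsto (fun ρ : ℝ => S + t ^ 2 * v * Z + ρ * (K + t ^ 2 * Z)) (𝓝[>] 0)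
      (𝓝 (S + t ^ 2 * v * Z + 0 * (K + t ^ 2 * Z))) := by
    have : Continuous (fun ρ : ℝ => S + t ^ 2 * v * Z + ρ * (K + t ^ 2 * Z)) := by fun_prop
    exact (this.tendsto 0).mono_left nhdsWithin_le_nhds
  rw [zero_mul, add_zero] at hlim
  refine ge_of_tendsto hlim ?_
  filter_upwards [self_mem_nhdsWithin] with ρ hρ
  exact key ρ hρ

theorem stmtST (hfam : StmtFam) : StmtST := stmtST_of_smooth hfam.smooth

/-- the flow in the form of `static_transport` (helper9) -/
theorem hflow {Q : (ℂ → ℝ) → (ℝ → ℂ → ℝ) → Prop} (hfam : StmtFamS Q) {m : ℕ} {a L : ℝ} (ha0 : 0 < a) (ha1 : a < 1) (hL : 0 ≤ L)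
    (X : H) {D : Set ℂ} (hD : IsOpen D) (hb : Bornology.IsBounded D) :
    ∀ ρ > (0 : ℝ), ∃ e : ℕ → ℝ → ℝ,
      (∀ j ≤ m + 1, AntitoneOn (e j) (Icc 0 L)) ∧ (∀ j ≤ m + 1, 0 ≤ e j L) ∧
      (∀ j ≤ m, ∀ᵐ l ∂(volume : Measure ℝ), l ∈ Ioo 0 L →
        e (j + 1) l - e j l ≤
          - deriv (e j) l / ((j : ℝ) + 1 - a) - deriv (e (j + 1)) l / ((j : ℝ) + a) + ρ) ∧
      (∀ j ≤ m + 1, e j 0 ≤ E j D X + ρ) ∧
      (∀ l ∈ Icc 0 L, ∀ s > 0, trunc (TT ((m + 1 : ℕ) : ℤ) X : ℂ → ℂ) s ≤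
        e (m + 1) l + s ^ 2 * (Real.exp l * ((volume D).toReal + ρ))) ∧
      (∀ l ∈ Icc 0 L, ∀ s > 0, trunc (X : ℂ → ℂ) s ≤
        e 0 l + s ^ 2 * (Real.exp l * ((volume D).toReal + ρ))) := by
  intro ρ hρ
  obtain ⟨μ, ψ, ε, l₀, η, V, -, -, -, -, -, -, -, -, -, -, -, -, hG⟩ :=
    Flow_.exists_flow Q hfam hD hb X (m + 1) hL hρ
  set G : ℝ → Set ℂ := fun x => Flow_.Dom ψ ε (Flow_.lam l₀ η x) with hGd
  have htrunc : ∀ (k : ℕ) (s : ℝ), 0 < s → trunc (TT (k : ℤ) X : ℂ → ℂ) s = Mk k X s := by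
    intro k s hs
    unfold trunc Mk
    rw [max_eq_left hs.le]
  have hM : ∀ (k : ℕ), ∀ l ∈ Icc 0 L, ∀ s > 0, trunc (TT (k : ℤ) X : ℂ → ℂ) s ≤
      E k (G l) X + s ^ 2 * (Real.exp l * ((volume D).toReal + ρ)) := by
    intro k l hl s hs
    rw [htrunc k s hs]
    exact (Mk_le k X (hG.opn l) (hG.bdd l) s).trans
      (add_le_add le_rfl (mul_le_mul_of_nonneg_left (hG.vol l hl) (by positivity)))
  refine ⟨fun j l => E j (G l) X, fun j _ x _ y _ hxy => Hil.E_anti j (hG.mono hxy) X,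
    fun j _ => Hil.E_nonneg j _ X, fun j _ => ?_, fun j hj => ?_, hM (m + 1), ?_⟩
  · have hj0 : (0 : ℝ) ≤ j := Nat.cast_nonneg j
    filter_upwards [hG.ineq j ((j : ℝ) + 1 - a) ((j : ℝ) + a) (by linarith) (by linarith)
      (by ring)] with l hl hlm
    have := hl hlm
    linarith
  · exact (Hil.E_anti j hG.VG X).trans (hG.init j hj)
  · intro l hl s hs
    have h := hM 0 l hl s hs
    rw [Nat.cast_zero, Flow_.TT_zero Hil.stmtHsup] at h
    exact h

end ST_
end Pool.Agent.Lib.QNL
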