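import Mathlib

/-! Abstract transport lemma: integration by parts inequality for antitone functions, telescoping of the
level inequalities along one flow. -/

open MeasureTheory Set Filter Topology

noncomputable section

namespace Pool.Agent.Lib.QNL

/-- A function whose increments are bounded by a product of two increments is antitone. -/
theorem antitoneOn_of_quad {F E : ℝ → ℝ} {a b M : ℝ}
    (h : ∀ x ∈ Icc a b, ∀ y ∈ Icc a b, x ≤ y → F y - F x ≤ M * (y - x) * (E x - E y)) :
    AntitoneOn F (Icc a b) := by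
  intro x hx y hy hxy
  have key : ∀ N : ℕ, 0 < N → F y - F x ≤ (M * (y - x) * (E x - E y)) / N := by
    intro N hN
    have hN' : (0 : ℝ) < N := by exact_mod_cast hN
    set u : ℕ → ℝ := fun i => x + i * ((y - x) / N) with hu
    have hu0 : u 0 = x := by simp [hu]
    have huN : u N = y := by
      simp only [hu]; field_simp; ring
    have hmono : ∀ i j : ℕ, i ≤ j → u i ≤ u j := by
      intro i j hij
      have : (i : ℝ) ≤ j := by exact_mod_cast hij
      have h2 : 0 ≤ (y - x) / N := div_nonneg (by linarith) hN'.le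
      simp only [hu]
      nlinarith [mul_le_mul_of_nonneg_right this h2]
    have hmem : ∀ i : ℕ, i ≤ N → u i ∈ Icc a b := by
      intro i hi
      constructor
      · have := hmono 0 i (Nat.zero_le _); rw [hu0] at this; exact le_trans hx.1 this
      · have := hmono i N hi; rw [huN] at this; exact le_trans this hy.2
    have h1 : F y - F x = ∑ i ∈ Finset.range N, (F (u (i + 1)) - F (u i)) := by
      rw [Finset.sum_range_sub (fun i => F (u i)), huN, hu0]
    have h2 : E x - E y = ∑ i ∈ Finset.range N, (E (u i) - E (u (i + 1))) := by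
      rw [Finset.sum_range_sub' (fun i => E (u i)), huN, hu0]
    rw [h1, h2]
    calc ∑ i ∈ Finset.range N, (F (u (i + 1)) - F (u i))
        ≤ ∑ i ∈ Finset.range N, (M * ((y - x) / N)) * (E (u i) - E (u (i + 1))) := by
          apply Finset.sum_le_sum
          intro i hi
          have hi' : i < N := Finset.mem_range.mp hi
          have := h (u i) (hmem i hi'.le) (u (i + 1)) (hmem (i + 1) hi') (hmono i (i + 1) (Nat.le_succ i))
          have hd : u (i + 1) - u i = (y - x) / N := by
            simp only [hu]; push_cast; ring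
          rw [hd] at this
          exact this
      _ = (M * (y - x) * ∑ i ∈ Finset.range N, (E (u i) - E (u (i + 1)))) / N := by
          rw [← Finset.mul_sum]; ring
  by_contra hcon
  push Not at hcon
  set c := F y - F x with hc
  have hcpos : 0 < c := by simp only [hc]; linarith
  set K := M * (y - x) * (E x - E y) with hK
  obtain ⟨N, hN⟩ := exists_nat_gt (K / c)
  have hN1 : K / c < (N + 1 : ℕ) := by push_cast; linarith
  have := key (N + 1) (Nat.succ_pos N)
  have hpos : (0 : ℝ) < (N + 1 : ℕ) := by positivity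
  rw [le_div_iff₀ hpos] at this
  rw [div_lt_iff₀ hcpos] at hN1
  linarith

/-- Integration by parts inequality: `E` antitone, `g ≥ 0` continuously differentiable. -/
theorem ibp_antitone {E g g' : ℝ → ℝ} {a b : ℝ} (hab : a ≤ b)
    (hE : AntitoneOn E (Icc a b)) (hg : ∀ x ∈ Icc a b, HasDerivAt g (g' x) x)
    (hg' : ContinuousOn g' (Icc a b)) (hg0 : ∀ x ∈ Icc a b, 0 ≤ g x) :
    IntervalIntegrable (fun x => g x * deriv E x) volume a b ∧
      - ∫ x in a..b, g x * deriv E x ≤ g a * E a - g b * E b + ∫ x in a..b, g' x * E x := by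
  have hu : uIcc a b = Icc a b := uIcc_of_le hab
  have hgc : ContinuousOn g (Icc a b) := fun x hx => (hg x hx).continuousAt.continuousWithinAt
  -- integrability of `E` and of the products
  have hEi : IntervalIntegrable E volume a b := by
    apply AntitoneOn.intervalIntegrable; rwa [hu]
  have hgEi : IntervalIntegrable (fun x => g' x * E x) volume a b :=
    hEi.continuousOn_mul (by rwa [hu])
  have hg'i : IntervalIntegrable g' volume a b := by
    apply ContinuousOn.intervalIntegrable; rwa [hu]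
  -- bound of `g'`
  obtain ⟨M, hM⟩ : ∃ M, ∀ x ∈ Icc a b, ‖g' x‖ ≤ M :=
    isCompact_Icc.exists_bound_of_continuousOn hg'
  set F : ℝ → ℝ := fun x => g x * E x - ∫ s in a..x, g' s * E s with hF
  have sub : ∀ x ∈ Icc a b, ∀ y ∈ Icc a b, x ≤ y → uIcc x y ⊆ uIcc a b := by
    intro x hx y hy hxy
    rw [uIcc_of_le hxy, hu]
    exact Icc_subset_Icc hx.1 hy.2
  have hFanti : AntitoneOn F (Icc a b) := by
    apply antitoneOn_of_quad (E := E) (M := M)
    intro x hx y hy hxy
    have hs := sub x hx y hy hxy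
    have i1 : IntervalIntegrable (fun x => g' x * E x) volume x y := hgEi.mono_set hs
    have i2 : IntervalIntegrable g' volume x y := hg'i.mono_set hs
    have e1 : (∫ s in a..y, g' s * E s) - ∫ s in a..x, g' s * E s = ∫ s in x..y, g' s * E s := by
      rw [← intervalIntegral.integral_add_adjacent_intervals (a := a) (b := x) (c := y)]
      · ring
      · exact hgEi.mono_set (sub a ⟨le_rfl, hab⟩ x hx hx.1)
      · exact i1
    have e2 : ∫ s in x..y, g' s = g y - g x := by
      apply intervalIntegral.integral_eq_sub_of_hasDerivAt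
      · intro s hs'
        apply hg
        rw [uIcc_of_le hxy] at hs'
        exact ⟨le_trans hx.1 hs'.1, le_trans hs'.2 hy.2⟩
      · exact i2
    have e3 : F y - F x = (∫ s in x..y, g' s * (E y - E s)) + g x * (E y - E x) := by
      have : (∫ s in x..y, g' s * (E y - E s)) = (g y - g x) * E y - ∫ s in x..y, g' s * E s := by
        rw [← e2, ← intervalIntegral.integral_mul_const, ← intervalIntegral.integral_sub]
        · apply intervalIntegral.integral_congr
          intro s _
          simp only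
          ring
        · exact i2.mul_const _
        · exact i1
      rw [this]
      simp only [hF]
      linarith [e1]
    rw [e3]
    have h4 : g x * (E y - E x) ≤ 0 :=
      mul_nonpos_of_nonneg_of_nonpos (hg0 x hx) (sub_nonpos.mpr (hE hx hy hxy))
    have h5 : (∫ s in x..y, g' s * (E y - E s)) ≤ M * (y - x) * (E x - E y) := by
      have : ‖∫ s in x..y, g' s * (E y - E s)‖ ≤ (M * (E x - E y)) * |y - x| := by
        apply intervalIntegral.norm_integral_le_of_norm_le_const
        intro s hs'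
        rw [uIoc_of_le hxy] at hs'
        have hs2 : s ∈ Icc a b := ⟨le_trans hx.1 hs'.1.le, le_trans hs'.2 hy.2⟩
        rw [norm_mul]
        have h6 : ‖E y - E s‖ ≤ E x - E y := by
          rw [Real.norm_eq_abs, abs_le]
          have h7 := hE hs2 hy hs'.2
          have h8 := hE hx hs2 hs'.1.le
          constructor <;> linarith
        have h9 : 0 ≤ E x - E y := sub_nonneg.mpr (hE hx hy hxy)
        exact mul_le_mul (hM s hs2) h6 (norm_nonneg _) (le_trans (norm_nonneg _) (hM s hs2))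
      rw [abs_of_nonneg (sub_nonneg.mpr hxy)] at this
      have h10 := le_trans (Real.le_norm_self _) this
      linarith [h10]
    linarith
  -- derivative of `F`
  have hder : ∀ᵐ x ∂(volume.restrict (uIoc a b)), deriv F x = g x * deriv E x := by
    have hd : ∀ᵐ x, x ∈ Icc a b → DifferentiableWithinAt ℝ E (Icc a b) x := by
      have := (hE.neg : MonotoneOn (fun x => - E x) (Icc a b)).ae_differentiableWithinAt_of_mem
      filter_upwards [this] with x hx hxm
      have := (hx hxm).neg
      simpa using this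
    rw [ae_restrict_iff' measurableSet_uIoc]
    have hb : ∀ᵐ x : ℝ, x ≠ b := by
      simp [ae_iff]
    filter_upwards [hd, hb] with x hx hxb hxm
    rw [uIoc_of_le hab] at hxm
    have hxI : x ∈ Icc a b := ⟨hxm.1.le, hxm.2⟩
    have hnb : Icc a b ∈ 𝓝 x := Icc_mem_nhds hxm.1 (lt_of_le_of_ne hxm.2 hxb)
    have hEd : DifferentiableAt ℝ E x := (hx hxI).differentiableAt hnb
    have h1 : HasDerivAt (fun y => ∫ s in a..y, g' s * E s) (g' x * E x) x := by
      apply intervalIntegral.integral_hasDerivAt_right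
      · exact hgEi.mono_set (sub a ⟨le_rfl, hab⟩ x hxI hxI.1)
      · refine ⟨Icc a b, hnb, ?_⟩
        have := (intervalIntegrable_iff_integrableOn_Icc_of_le hab).mp hgEi
        exact this.aestronglyMeasurable
      · exact ((hg' x hxI).continuousAt hnb).mul hEd.continuousAt
    have h2 : HasDerivAt F (g' x * E x + g x * deriv E x - g' x * E x) x :=
      ((hg x hxI).mul hEd.hasDerivAt).sub h1
    rw [h2.deriv]
    ring
  have hmon : MonotoneOn (fun x => - F x) (uIcc a b) := by
    rw [hu]; exact hFanti.neg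
  have hi1 := hmon.intervalIntegrable_deriv
  have hi2 := hmon.intervalIntegral_deriv_mem_uIcc
  have hdn : ∀ x, deriv (fun x => - F x) x = - deriv F x := fun x => by
    simp [deriv.fun_neg]
  have hi1' : IntervalIntegrable (deriv F) volume a b := by
    have := hi1.neg
    refine this.congr_ae ?_
    filter_upwards with x
    simp
  have hi3 : IntervalIntegrable (fun x => g x * deriv E x) volume a b :=
    hi1'.congr_ae hder
  refine ⟨hi3, ?_⟩
  have h11 : ∫ x in a..b, g x * deriv E x = ∫ x in a..b, deriv F x :=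
    intervalIntegral.integral_congr_ae_restrict (by filter_upwards [hder] with x hx using hx.symm)
  rw [h11]
  have h12 : ∫ x in a..b, deriv (fun x => - F x) x = - ∫ x in a..b, deriv F x := by
    rw [← intervalIntegral.integral_neg]
    apply intervalIntegral.integral_congr
    intro x _
    exact hdn x
  rw [h12] at hi2
  have hFab : F b ≤ F a := hFanti ⟨le_rfl, hab⟩ ⟨hab, le_rfl⟩ hab
  rw [uIcc_of_le (by linarith)] at hi2
  have := hi2.2
  have hFa : F a = g a * E a := by simp [hF]
  have hFb : F b = g b * E b - ∫ s in a..b, g' s * E s := rfl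
  rw [hFa, hFb] at this
  linarith

/-- One level: the level inequality multiplied by `g / 2` and integrated. -/
theorem transport_one {p r L η : ℝ} (hp : 0 < p) (hr : 0 < r) (hL : 0 ≤ L)
    {E₀ E₁ g g' : ℝ → ℝ}
    (hE₀ : AntitoneOn E₀ (Icc 0 L)) (hE₁ : AntitoneOn E₁ (Icc 0 L))
    (hE₀L : 0 ≤ E₀ L) (hE₁L : 0 ≤ E₁ L)
    (hg : ∀ x ∈ Icc 0 L, HasDerivAt g (g' x) x)
    (hg' : ContinuousOn g' (Icc 0 L)) (hg0 : ∀ x ∈ Icc 0 L, 0 ≤ g x)
    (hd : ∀ᵐ l ∂(volume : Measure ℝ), l ∈ Ioo 0 L →
      E₁ l - E₀ l ≤ - deriv E₀ l / p - deriv E₁ l / r + η) :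
    ∫ l in (0:ℝ)..L, ((g l / 2 - g' l / (2 * r)) * E₁ l - (g l / 2 + g' l / (2 * p)) * E₀ l)
      ≤ g 0 * (E₀ 0 / (2 * p) + E₁ 0 / (2 * r)) + η * ∫ l in (0:ℝ)..L, g l / 2 := by
  have hu : uIcc 0 L = Icc 0 L := uIcc_of_le hL
  have hgc : ContinuousOn g (Icc 0 L) := fun x hx => (hg x hx).continuousAt.continuousWithinAt
  obtain ⟨i0, b0⟩ := ibp_antitone hL hE₀ hg hg' hg0
  obtain ⟨i1, b1⟩ := ibp_antitone hL hE₁ hg hg' hg0
  have iE0 : IntervalIntegrable E₀ volume 0 L := by
    apply AntitoneOn.intervalIntegrable; rwa [hu]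
  have iE1 : IntervalIntegrable E₁ volume 0 L := by
    apply AntitoneOn.intervalIntegrable; rwa [hu]
  have ig : IntervalIntegrable g volume 0 L := by
    apply ContinuousOn.intervalIntegrable; rwa [hu]
  have igE0 : IntervalIntegrable (fun x => g x * E₀ x) volume 0 L :=
    iE0.continuousOn_mul (by rwa [hu])
  have igE1 : IntervalIntegrable (fun x => g x * E₁ x) volume 0 L :=
    iE1.continuousOn_mul (by rwa [hu])
  have ig'E0 : IntervalIntegrable (fun x => g' x * E₀ x) volume 0 L :=
    iE0.continuousOn_mul (by rwa [hu])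
  have ig'E1 : IntervalIntegrable (fun x => g' x * E₁ x) volume 0 L :=
    iE1.continuousOn_mul (by rwa [hu])
  -- multiply the inequality
  have h1 : ∫ l in (0:ℝ)..L, (1 / 2) * (g l * E₁ l - g l * E₀ l) ≤
      ∫ l in (0:ℝ)..L, (-(1 / (2 * p)) * (g l * deriv E₀ l) + -(1 / (2 * r)) * (g l * deriv E₁ l)
        + η * (g l / 2)) := by
    apply intervalIntegral.integral_mono_ae_restrict hL
    · exact (igE1.sub igE0).const_mul _
    · exact ((i0.const_mul _).add (i1.const_mul _)).add ((ig.div_const _).const_mul _)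
    · rw [Filter.EventuallyLE, ← restrict_Ioo_eq_restrict_Icc, ae_restrict_iff' measurableSet_Ioo]
      filter_upwards [hd] with l hl hlm
      have h2 := hl hlm
      have h3 := hg0 l ⟨hlm.1.le, hlm.2.le⟩
      have h4 := mul_le_mul_of_nonneg_left h2 (by linarith : 0 ≤ g l / 2)
      have e1 : -(1 / (2 * p)) * (g l * deriv E₀ l) + -(1 / (2 * r)) * (g l * deriv E₁ l)
        + η * (g l / 2) = g l / 2 * (- deriv E₀ l / p - deriv E₁ l / r + η) := by
        field_simp
        ring
      rw [e1]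
      linarith
  have h5 : ∫ l in (0:ℝ)..L, (-(1 / (2 * p)) * (g l * deriv E₀ l) + -(1 / (2 * r)) * (g l * deriv E₁ l)
        + η * (g l / 2)) = (1 / (2 * p)) * (- ∫ l in (0:ℝ)..L, g l * deriv E₀ l)
        + (1 / (2 * r)) * (- ∫ l in (0:ℝ)..L, g l * deriv E₁ l) + η * ∫ l in (0:ℝ)..L, g l / 2 := by
    rw [intervalIntegral.integral_add, intervalIntegral.integral_add,
      intervalIntegral.integral_const_mul, intervalIntegral.integral_const_mul,
      intervalIntegral.integral_const_mul]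
    · ring
    · exact i0.const_mul _
    · exact i1.const_mul _
    · exact (i0.const_mul _).add (i1.const_mul _)
    · exact (ig.div_const _).const_mul _
  rw [h5] at h1
  have h6 : ∫ l in (0:ℝ)..L, (1 / 2) * (g l * E₁ l - g l * E₀ l) =
      (1 / 2) * (∫ l in (0:ℝ)..L, g l * E₁ l) - (1 / 2) * ∫ l in (0:ℝ)..L, g l * E₀ l := by
    rw [intervalIntegral.integral_const_mul, intervalIntegral.integral_sub igE1 igE0]
    ring
  rw [h6] at h1
  have h7 : ∫ l in (0:ℝ)..L, ((g l / 2 - g' l / (2 * r)) * E₁ l - (g l / 2 + g' l / (2 * p)) * E₀ l)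
      = (1 / 2) * (∫ l in (0:ℝ)..L, g l * E₁ l) - (1 / (2 * r)) * (∫ l in (0:ℝ)..L, g' l * E₁ l)
        - ((1 / 2) * (∫ l in (0:ℝ)..L, g l * E₀ l)
          + (1 / (2 * p)) * ∫ l in (0:ℝ)..L, g' l * E₀ l) := by
    rw [← intervalIntegral.integral_const_mul, ← intervalIntegral.integral_const_mul,
      ← intervalIntegral.integral_const_mul, ← intervalIntegral.integral_const_mul,
      ← intervalIntegral.integral_sub, ← intervalIntegral.integral_add,
      ← intervalIntegral.integral_sub]
    · apply intervalIntegral.integral_congr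
      intro x _
      simp only
      field_simp
    · exact (igE1.const_mul _).sub (ig'E1.const_mul _)
    · exact (igE0.const_mul _).add (ig'E0.const_mul _)
    · exact igE0.const_mul _
    · exact ig'E0.const_mul _
    · exact igE1.const_mul _
    · exact ig'E1.const_mul _
  rw [h7]
  have hgL := hg0 L ⟨hL, le_rfl⟩
  have h8 : (1 / (2 * p)) * (- ∫ l in (0:ℝ)..L, g l * deriv E₀ l) ≤
      (1 / (2 * p)) * (g 0 * E₀ 0 + ∫ l in (0:ℝ)..L, g' l * E₀ l) := by
    apply mul_le_mul_of_nonneg_left _ (by positivity)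
    have := mul_nonneg hgL hE₀L
    linarith
  have h9 : (1 / (2 * r)) * (- ∫ l in (0:ℝ)..L, g l * deriv E₁ l) ≤
      (1 / (2 * r)) * (g 0 * E₁ 0 + ∫ l in (0:ℝ)..L, g' l * E₁ l) := by
    apply mul_le_mul_of_nonneg_left _ (by positivity)
    have := mul_nonneg hgL hE₁L
    linarith
  have e2 : g 0 * (E₀ 0 / (2 * p) + E₁ 0 / (2 * r)) =
      (1 / (2 * p)) * (g 0 * E₀ 0) + (1 / (2 * r)) * (g 0 * E₁ 0) := by
    field_simp
  rw [e2]
  linarith

/-- TRANSPORT along one flow: levels `0, …, m+1`, `n = m+1`.  `(chain)` cancels the interior levels. -/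
theorem transport_chain {m : ℕ} {a L η : ℝ} (ha0 : 0 < a) (ha1 : a < 1) (hL : 0 ≤ L)
    {E g g' : ℕ → ℝ → ℝ}
    (hE : ∀ j ≤ m + 1, AntitoneOn (E j) (Icc 0 L)) (hE0 : ∀ j ≤ m + 1, 0 ≤ E j L)
    (hg : ∀ j ≤ m, ∀ x ∈ Icc 0 L, HasDerivAt (g j) (g' j x) x)
    (hg' : ∀ j ≤ m, ContinuousOn (g' j) (Icc 0 L))
    (hg0 : ∀ j ≤ m, ∀ x ∈ Icc 0 L, 0 ≤ g j x)
    (hch : ∀ j < m, ∀ x ∈ Icc 0 L,
      g (j + 1) x + g' (j + 1) x / ((j : ℝ) + 2 - a) = g j x - g' j x / ((j : ℝ) + a))
    (hd : ∀ j ≤ m, ∀ᵐ l ∂(volume : Measure ℝ), l ∈ Ioo 0 L →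
      E (j + 1) l - E j l ≤
        - deriv (E j) l / ((j : ℝ) + 1 - a) - deriv (E (j + 1)) l / ((j : ℝ) + a) + η) :
    ∫ l in (0:ℝ)..L, ((g m l - g' m l / ((m : ℝ) + a)) / 2 * E (m + 1) l
        - (g 0 l + g' 0 l / (1 - a)) / 2 * E 0 l)
      ≤ ∑ j ∈ Finset.range (m + 1), (g j 0 * (E j 0 / (2 * ((j : ℝ) + 1 - a))
          + E (j + 1) 0 / (2 * ((j : ℝ) + a))) + η * ∫ l in (0:ℝ)..L, g j l / 2) := by
  have hu : uIcc 0 L = Icc 0 L := uIcc_of_le hL
  have hp : ∀ j : ℕ, 0 < (j : ℝ) + 1 - a := fun j => by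
    have : (0 : ℝ) ≤ j := Nat.cast_nonneg j
    linarith
  have hr : ∀ j : ℕ, 0 < (j : ℝ) + a := fun j => by
    have : (0 : ℝ) ≤ j := Nat.cast_nonneg j
    linarith
  have key : ∀ j ∈ Finset.range (m + 1), _ := fun j hj =>
    transport_one (hp j) (hr j) hL (hE j (by have := Finset.mem_range.mp hj; omega))
      (hE (j + 1) (by have := Finset.mem_range.mp hj; omega))
      (hE0 j (by have := Finset.mem_range.mp hj; omega))
      (hE0 (j + 1) (by have := Finset.mem_range.mp hj; omega))
      (hg j (by have := Finset.mem_range.mp hj; omega))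
      (hg' j (by have := Finset.mem_range.mp hj; omega))
      (hg0 j (by have := Finset.mem_range.mp hj; omega))
      (hd j (by have := Finset.mem_range.mp hj; omega))
  refine le_trans (le_of_eq ?_) (Finset.sum_le_sum key)
  have iE : ∀ j ≤ m + 1, IntervalIntegrable (E j) volume 0 L := fun j hj => by
    apply AntitoneOn.intervalIntegrable; rw [hu]; exact hE j hj
  have cg : ∀ j ≤ m, ContinuousOn (g j) (uIcc 0 L) := fun j hj x hx => by
    rw [hu] at hx
    exact (hg j hj x hx).continuousAt.continuousWithinAt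
  have cg' : ∀ j ≤ m, ContinuousOn (g' j) (uIcc 0 L) := fun j hj => by
    rw [hu]; exact hg' j hj
  rw [← intervalIntegral.integral_finsetSum]
  · apply intervalIntegral.integral_congr
    intro x hx
    rw [hu] at hx
    -- telescoping
    have tel : ∀ k ≤ m, ∑ j ∈ Finset.range (k + 1),
        ((g j x / 2 - g' j x / (2 * ((j : ℝ) + a))) * E (j + 1) x
          - (g j x / 2 + g' j x / (2 * ((j : ℝ) + 1 - a))) * E j x) =
        (g k x - g' k x / ((k : ℝ) + a)) / 2 * E (k + 1) x
          - (g 0 x + g' 0 x / (1 - a)) / 2 * E 0 x := by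
      intro k
      induction k with
      | zero =>
        intro _
        have h0 := hr 0
        have h1 := hp 0
        simp only [Nat.cast_zero, zero_add] at h0 h1
        simp only [zero_add, Finset.range_one, Finset.sum_singleton, Nat.cast_zero]
        have h1' : (1 : ℝ) - a ≠ 0 := ne_of_gt h1
        have h0' : a ≠ 0 := ne_of_gt h0
        field_simp
      | succ k ih =>
        intro hk
        rw [Finset.sum_range_succ, ih (by omega)]
        have hc := hch k (by omega) x hx
        have h0 := hr (k + 1)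
        have h1 := hp (k + 1)
        push_cast at h0 h1 ⊢
        have e3 : g (k + 1) x / 2 + g' (k + 1) x / (2 * ((k : ℝ) + 1 + 1 - a))
            = (g k x - g' k x / ((k : ℝ) + a)) / 2 := by
          rw [← hc]
          have : (k : ℝ) + 2 - a ≠ 0 := by
            have := hp (k + 1); push_cast at this; linarith
          have h2 : (k : ℝ) + 1 + 1 - a ≠ 0 := by linarith
          rw [show (k : ℝ) + 1 + 1 - a = (k : ℝ) + 2 - a by ring]
          field_simp
        rw [e3]
        have e4 : g (k + 1) x / 2 - g' (k + 1) x / (2 * ((k : ℝ) + 1 + a))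
            = (g (k + 1) x - g' (k + 1) x / ((k : ℝ) + 1 + a)) / 2 := by
          have : (k : ℝ) + 1 + a ≠ 0 := ne_of_gt h0
          field_simp
        rw [e4]
        ring
    exact (tel m le_rfl).symm
  · intro j hj
    have hj' : j ≤ m := by have := Finset.mem_range.mp hj; omega
    apply IntervalIntegrable.sub
    · apply (iE (j + 1) (by omega)).continuousOn_mul
      exact ((cg j hj').div_const _).sub ((cg' j hj').div_const _)
    · apply (iE j (by omega)).continuousOn_mul
      exact ((cg j hj').div_const _).add ((cg' j hj').div_const _)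

/-- STATIC TRANSPORT, abstract form: `Mn`, `M0` are the truncated energies of `Tⁿ X` and of `X`,
`V` the volume of the open set, `e j` its energies.  For every `ρ > 0` there is a flow with loss `ρ`. -/
theorem static_transport {m : ℕ} {a L t C V : ℝ} (ha0 : 0 < a) (ha1 : a < 1) (hL : 0 ≤ L)
    (ht : 0 < t) (hC : 0 < C)
    {g g' : ℕ → ℝ → ℝ} {M0 Mn : ℝ → ℝ} {e : ℕ → ℝ}
    (hM0 : Monotone M0) (hMn : Monotone Mn)
    (hg : ∀ j ≤ m, ∀ x ∈ Icc 0 L, HasDerivAt (g j) (g' j x) x)
    (hg' : ∀ j ≤ m, ContinuousOn (g' j) (Icc 0 L))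
    (hg0 : ∀ j ≤ m, ∀ x ∈ Icc 0 L, 0 ≤ g j x)
    (hch : ∀ j < m, ∀ x ∈ Icc 0 L,
      g (j + 1) x + g' (j + 1) x / ((j : ℝ) + 2 - a) = g j x - g' j x / ((j : ℝ) + a))
    (hnu : ∀ x ∈ Icc 0 L, 0 ≤ g m x - g' m x / ((m : ℝ) + a))
    (hkap : ∀ x ∈ Icc 0 L, g 0 x + g' 0 x / (1 - a) ≤ 0)
    (hflow : ∀ ρ > (0 : ℝ), ∃ E : ℕ → ℝ → ℝ,
      (∀ j ≤ m + 1, AntitoneOn (E j) (Icc 0 L)) ∧ (∀ j ≤ m + 1, 0 ≤ E j L) ∧
      (∀ j ≤ m, ∀ᵐ l ∂(volume : Measure ℝ), l ∈ Ioo 0 L →
        E (j + 1) l - E j l ≤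
          - deriv (E j) l / ((j : ℝ) + 1 - a) - deriv (E (j + 1)) l / ((j : ℝ) + a) + ρ) ∧
      (∀ j ≤ m + 1, E j 0 ≤ e j + ρ) ∧
      (∀ l ∈ Icc 0 L, ∀ s > 0, Mn s ≤ E (m + 1) l + s ^ 2 * (Real.exp l * (V + ρ))) ∧
      (∀ l ∈ Icc 0 L, ∀ s > 0, M0 s ≤ E 0 l + s ^ 2 * (Real.exp l * (V + ρ)))) :
    ∫ l in (0:ℝ)..L, ((g m l - g' m l / ((m : ℝ) + a)) / 2 * Mn (C * Real.exp (-(a * l)) * t)
        + (-(g 0 l + g' 0 l / (1 - a)) / 2) * M0 (Real.exp (-(a * l)) * t))
      ≤ ∑ j ∈ Finset.range (m + 1), g j 0 * (e j / (2 * ((j : ℝ) + 1 - a))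
          + e (j + 1) / (2 * ((j : ℝ) + a)))
        + t ^ 2 * V * ∫ l in (0:ℝ)..L, (C ^ 2 * ((g m l - g' m l / ((m : ℝ) + a)) / 2)
          + (-(g 0 l + g' 0 l / (1 - a)) / 2)) * Real.exp (-((2 * a - 1) * l)) := by
  have hu : uIcc 0 L = Icc 0 L := uIcc_of_le hL
  have hp : ∀ j : ℕ, 0 < (j : ℝ) + 1 - a := fun j => by
    have : (0 : ℝ) ≤ j := Nat.cast_nonneg j
    linarith
  have hr : ∀ j : ℕ, 0 < (j : ℝ) + a := fun j => by
    have : (0 : ℝ) ≤ j := Nat.cast_nonneg j
    linarith
  have cg : ∀ j ≤ m, ContinuousOn (g j) (uIcc 0 L) := fun j hj x hx => by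
    rw [hu] at hx
    exact (hg j hj x hx).continuousAt.continuousWithinAt
  have cg' : ∀ j ≤ m, ContinuousOn (g' j) (uIcc 0 L) := fun j hj => by
    rw [hu]; exact hg' j hj
  set nu : ℝ → ℝ := fun l => (g m l - g' m l / ((m : ℝ) + a)) / 2 with hnudef
  set kap : ℝ → ℝ := fun l => -(g 0 l + g' 0 l / (1 - a)) / 2 with hkapdef
  have cnu : ContinuousOn nu (uIcc 0 L) :=
    ((cg m le_rfl).sub ((cg' m le_rfl).div_const _)).div_const _
  have ckap : ContinuousOn kap (uIcc 0 L) :=
    (((cg 0 (Nat.zero_le _)).add ((cg' 0 (Nat.zero_le _)).div_const _)).neg).div_const _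
  have nu0 : ∀ x ∈ Icc 0 L, 0 ≤ nu x := fun x hx => by
    simp only [hnudef]; linarith [hnu x hx]
  have kap0 : ∀ x ∈ Icc 0 L, 0 ≤ kap x := fun x hx => by
    simp only [hkapdef]; linarith [hkap x hx]
  set w : ℝ → ℝ := fun l => (C ^ 2 * nu l + kap l) * Real.exp (-((2 * a - 1) * l)) with hw
  have cw : ContinuousOn w (uIcc 0 L) := by
    apply ContinuousOn.mul
    · exact (cnu.const_smul (C ^ 2)).add ckap
    · fun_prop
  -- integrability of the left side
  have iMn : IntervalIntegrable (fun l => Mn (C * Real.exp (-(a * l)) * t)) volume 0 L := by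
    apply AntitoneOn.intervalIntegrable
    intro x _ y _ hxy
    apply hMn
    have : Real.exp (-(a * y)) ≤ Real.exp (-(a * x)) :=
      Real.exp_le_exp.mpr (by nlinarith)
    have h2 : C * Real.exp (-(a * y)) ≤ C * Real.exp (-(a * x)) :=
      mul_le_mul_of_nonneg_left this hC.le
    exact mul_le_mul_of_nonneg_right h2 ht.le
  have iM0 : IntervalIntegrable (fun l => M0 (Real.exp (-(a * l)) * t)) volume 0 L := by
    apply AntitoneOn.intervalIntegrable
    intro x _ y _ hxy
    apply hM0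
    have : Real.exp (-(a * y)) ≤ Real.exp (-(a * x)) :=
      Real.exp_le_exp.mpr (by nlinarith)
    exact mul_le_mul_of_nonneg_right this ht.le
  have iL : IntervalIntegrable (fun l => nu l * Mn (C * Real.exp (-(a * l)) * t)
      + kap l * M0 (Real.exp (-(a * l)) * t)) volume 0 L :=
    (iMn.continuousOn_mul cnu).add (iM0.continuousOn_mul ckap)
  -- the constant in front of `ρ`
  set K : ℝ := ∑ j ∈ Finset.range (m + 1), (g j 0 * (1 / (2 * ((j : ℝ) + 1 - a))
      + 1 / (2 * ((j : ℝ) + a))) + ∫ l in (0:ℝ)..L, g j l / 2)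
      + t ^ 2 * ∫ l in (0:ℝ)..L, w l with hK
  have main : ∀ ρ > (0 : ℝ),
      ∫ l in (0:ℝ)..L, (nu l * Mn (C * Real.exp (-(a * l)) * t)
        + kap l * M0 (Real.exp (-(a * l)) * t))
      ≤ (∑ j ∈ Finset.range (m + 1), g j 0 * (e j / (2 * ((j : ℝ) + 1 - a))
          + e (j + 1) / (2 * ((j : ℝ) + a)))
        + t ^ 2 * V * ∫ l in (0:ℝ)..L, w l) + ρ * K := by
    intro ρ hρ
    obtain ⟨E, hE, hEL, hd, hE0, hMnE, hM0E⟩ := hflow ρ hρ
    have tr := transport_chain ha0 ha1 hL hE hEL hg hg' hg0 hch hd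
    have iE : ∀ j ≤ m + 1, IntervalIntegrable (E j) volume 0 L := fun j hj => by
      apply AntitoneOn.intervalIntegrable; rw [hu]; exact hE j hj
    have iR : IntervalIntegrable (fun l => (nu l * E (m + 1) l + kap l * E 0 l)
        + (t ^ 2 * (V + ρ)) * w l) volume 0 L :=
      (((iE (m + 1) le_rfl).continuousOn_mul cnu).add
        ((iE 0 (Nat.zero_le _)).continuousOn_mul ckap)).add
        ((cw.intervalIntegrable).const_mul _)
    have step1 : ∫ l in (0:ℝ)..L, (nu l * Mn (C * Real.exp (-(a * l)) * t)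
        + kap l * M0 (Real.exp (-(a * l)) * t)) ≤
        ∫ l in (0:ℝ)..L, ((nu l * E (m + 1) l + kap l * E 0 l) + (t ^ 2 * (V + ρ)) * w l) := by
      apply intervalIntegral.integral_mono_on hL iL iR
      intro l hl
      have h1 := hMnE l hl (C * Real.exp (-(a * l)) * t) (by positivity)
      have h2 := hM0E l hl (Real.exp (-(a * l)) * t) (by positivity)
      have h3 := mul_le_mul_of_nonneg_left h1 (nu0 l hl)
      have h4 := mul_le_mul_of_nonneg_left h2 (kap0 l hl)
      have e1 : Real.exp (-(a * l)) ^ 2 * Real.exp l = Real.exp (-((2 * a - 1) * l)) := by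
        rw [← Real.exp_nat_mul, ← Real.exp_add]
        congr 1
        push_cast
        ring
      have e2 : (nu l * E (m + 1) l + kap l * E 0 l) + (t ^ 2 * (V + ρ)) * w l =
          nu l * (E (m + 1) l + (C * Real.exp (-(a * l)) * t) ^ 2 * (Real.exp l * (V + ρ)))
          + kap l * (E 0 l + (Real.exp (-(a * l)) * t) ^ 2 * (Real.exp l * (V + ρ))) := by
        simp only [hw]
        rw [← e1]
        ring
      rw [e2]
      linarith
    have step2 : ∫ l in (0:ℝ)..L, ((nu l * E (m + 1) l + kap l * E 0 l)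
        + (t ^ 2 * (V + ρ)) * w l) =
        (∫ l in (0:ℝ)..L, (nu l * E (m + 1) l + kap l * E 0 l))
          + (t ^ 2 * (V + ρ)) * ∫ l in (0:ℝ)..L, w l := by
      rw [intervalIntegral.integral_add, intervalIntegral.integral_const_mul]
      · exact ((iE (m + 1) le_rfl).continuousOn_mul cnu).add
          ((iE 0 (Nat.zero_le _)).continuousOn_mul ckap)
      · exact (cw.intervalIntegrable).const_mul _
    have step3 : ∫ l in (0:ℝ)..L, (nu l * E (m + 1) l + kap l * E 0 l) =
        ∫ l in (0:ℝ)..L, ((g m l - g' m l / ((m : ℝ) + a)) / 2 * E (m + 1) l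
        - (g 0 l + g' 0 l / (1 - a)) / 2 * E 0 l) := by
      apply intervalIntegral.integral_congr
      intro x _
      simp only [hnudef, hkapdef]
      ring
    have step4 : ∑ j ∈ Finset.range (m + 1), (g j 0 * (E j 0 / (2 * ((j : ℝ) + 1 - a))
          + E (j + 1) 0 / (2 * ((j : ℝ) + a))) + ρ * ∫ l in (0:ℝ)..L, g j l / 2) ≤
        ∑ j ∈ Finset.range (m + 1), g j 0 * (e j / (2 * ((j : ℝ) + 1 - a))
          + e (j + 1) / (2 * ((j : ℝ) + a))) +
        ρ * ∑ j ∈ Finset.range (m + 1), (g j 0 * (1 / (2 * ((j : ℝ) + 1 - a))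
          + 1 / (2 * ((j : ℝ) + a))) + ∫ l in (0:ℝ)..L, g j l / 2) := by
      rw [Finset.mul_sum, ← Finset.sum_add_distrib]
      apply Finset.sum_le_sum
      intro j hj
      have hj' : j ≤ m := by have := Finset.mem_range.mp hj; omega
      have h5 := hE0 j (by omega)
      have h6 := hE0 (j + 1) (by omega)
      have h7 := hg0 j hj' 0 ⟨le_rfl, hL⟩
      have h8 : E j 0 / (2 * ((j : ℝ) + 1 - a)) ≤ (e j + ρ) / (2 * ((j : ℝ) + 1 - a)) := by
        have := hp j
        gcongr
      have h9 : E (j + 1) 0 / (2 * ((j : ℝ) + a)) ≤ (e (j + 1) + ρ) / (2 * ((j : ℝ) + a)) := by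
        have := hr j
        gcongr
      have h10 := mul_le_mul_of_nonneg_left (add_le_add h8 h9) h7
      have e3 : g j 0 * ((e j + ρ) / (2 * ((j : ℝ) + 1 - a)) + (e (j + 1) + ρ) / (2 * ((j : ℝ) + a)))
          = g j 0 * (e j / (2 * ((j : ℝ) + 1 - a)) + e (j + 1) / (2 * ((j : ℝ) + a)))
            + ρ * (g j 0 * (1 / (2 * ((j : ℝ) + 1 - a)) + 1 / (2 * ((j : ℝ) + a)))) := by
        ring
      rw [e3] at h10
      linarith
    rw [step2, step3] at step1
    have := le_trans tr step4
    rw [hK]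
    have e4 : t ^ 2 * (V + ρ) * ∫ l in (0:ℝ)..L, w l =
        t ^ 2 * V * (∫ l in (0:ℝ)..L, w l) + ρ * (t ^ 2 * ∫ l in (0:ℝ)..L, w l) := by ring
    rw [e4] at step1
    linarith
  -- let `ρ → 0`
  have hfin : ∫ l in (0:ℝ)..L, (nu l * Mn (C * Real.exp (-(a * l)) * t)
        + kap l * M0 (Real.exp (-(a * l)) * t))
      ≤ (∑ j ∈ Finset.range (m + 1), g j 0 * (e j / (2 * ((j : ℝ) + 1 - a))
          + e (j + 1) / (2 * ((j : ℝ) + a)))
        + t ^ 2 * V * ∫ l in (0:ℝ)..L, w l) := by
    by_contra hcon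
    push Not at hcon
    set A := ∫ l in (0:ℝ)..L, (nu l * Mn (C * Real.exp (-(a * l)) * t)
        + kap l * M0 (Real.exp (-(a * l)) * t)) with hA
    set B := (∑ j ∈ Finset.range (m + 1), g j 0 * (e j / (2 * ((j : ℝ) + 1 - a))
          + e (j + 1) / (2 * ((j : ℝ) + a)))
        + t ^ 2 * V * ∫ l in (0:ℝ)..L, w l) with hB
    have hpos : 0 < (A - B) / (2 * (|K| + 1)) := by
      have : 0 < A - B := by linarith
      positivity
    have h1 := main _ hpos
    have h2 : (A - B) / (2 * (|K| + 1)) * K ≤ (A - B) / 2 := by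
      have h3 : K ≤ |K| + 1 := by linarith [le_abs_self K]
      calc (A - B) / (2 * (|K| + 1)) * K ≤ (A - B) / (2 * (|K| + 1)) * (|K| + 1) :=
            mul_le_mul_of_nonneg_left h3 hpos.le
        _ = (A - B) / 2 := by
            have : |K| + 1 ≠ 0 := by positivity
            field_simp
    linarith
  exact hfin

end Pool.Agent.Lib.QNL
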