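import Pool.Agent.Lib.QNL.FinN
import Pool.Agent.Lib.QNL.TI9

/-!
Room QNL: the top-level deduction for general `n`, with an abstract extraction part `Kt` and an
abstract refund function `Rf` (static form in the level `t`).
-/

set_option autoImplicit false

namespace Pool.Agent.Lib.QNL.Top46

open MeasureTheory Filter Topology Set
open scoped ENNReal
open Pool.Agent.Lib.QNL.FinN

variable {ψ : ℝ → ℂ → ℝ} {p r : ℝ} {x : ℂ → ℂ}

/-- the pointwise inequality `(TOP)` at the point `z` -/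
theorem pointwise_top (hr : 1 ≤ r) (hrp : r < p) (hx : Continuous x)
    (hxc : HasCompactSupport x) (hF : Fam (fun z => ‖x z‖ ^ r) ψ) {V Rf : ℝ → ℝ} {Z Lam : ℝ}
    (hTOP : ∀ y : ℝ, 0 ≤ y → (1 - r / p) * y ^ r ≤ 1 →
      V ((1 - (1 - r / p) * y ^ r) / r) * y ^ 2 - Rf y + Z * ((2 / p - 1) - 2 / p * y ^ p) ≤
        Lam * ((1 - (1 - r / p) * y ^ r) / r - 1 / p)) (z : ℂ) :
    (1 - r / p) ^ ((p - 2) / r) * (V ((1 - ‖x z‖ ^ r / lev ψ 0 z) / r) *
        lev ψ 0 z ^ ((p - 2) / r) * ‖x z‖ ^ 2) -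
      tt p r ψ z ^ p * Rf (‖x z‖ / tt p r ψ z) +
      Z * ((2 / p - 1) * tt p r ψ z ^ p - 2 / p * ‖x z‖ ^ p) ≤
      Lam * ((1 - r / p) / r) * (tt p r ψ z ^ p - ‖x z‖ ^ r * tt p r ψ z ^ (p - r)) := by
  have hr0 : 0 < r := by linarith
  have hp0 : 0 < p := by linarith
  obtain ⟨M, hM0, hM⟩ := exists_bound hx hxc hr0
  have hw := w_pos hr hrp
  have hl0 := lev_nonneg ψ 0 z
  rcases hl0.eq_or_lt with h0 | h0
  · have h1 := mu_le_lev hF hM z
    rw [← h0] at h1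
    have hx0 : x z = 0 := by
      by_contra h
      exact absurd h1 (not_le.2 (Real.rpow_pos_of_pos (norm_pos_iff.2 h) _))
    have ht : tt p r ψ z = 0 := by
      unfold tt
      rw [← h0, mul_zero, Real.zero_rpow (by positivity)]
    rw [hx0, ht, norm_zero, Real.zero_rpow hr0.ne', Real.zero_rpow hp0.ne']
    simp
  · set T := tt p r ψ z with hT
    have hT0 : 0 < T := by
      rw [hT]; unfold tt; positivity
    have hTr : T ^ r = (1 - r / p) * lev ψ 0 z := tt_rpow hr hrp z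
    have hmul := mu_le_lev hF hM z
    set y := ‖x z‖ / T with hy
    have hy0 : 0 ≤ y := by positivity
    have hyr : y ^ r = ‖x z‖ ^ r / T ^ r := Real.div_rpow (norm_nonneg _) hT0.le _
    have hwy : (1 - r / p) * y ^ r = ‖x z‖ ^ r / lev ψ 0 z := by
      rw [hyr, hTr, ← mul_div_assoc, mul_div_mul_left _ _ hw.ne']
    have hle : (1 - r / p) * y ^ r ≤ 1 := by
      rw [hwy]; exact div_le_one_of_le₀ hmul hl0
    have h := hTOP y hy0 hle
    have hs : (1 - (1 - r / p) * y ^ r) / r - 1 / p = (1 - r / p) / r * (1 - y ^ r) := by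
      field_simp; ring
    rw [hs, hwy] at h
    have hTp : 0 < T ^ p := by positivity
    have h2 := mul_le_mul_of_nonneg_left h hTp.le
    have e1 : T ^ p * y ^ p = ‖x z‖ ^ p := by
      rw [hy, Real.div_rpow (norm_nonneg _) hT0.le]; field_simp
    have e2 : T ^ p * y ^ r = ‖x z‖ ^ r * T ^ (p - r) := by
      rw [hyr, Real.rpow_sub hT0]; ring
    have e3 : T ^ p * y ^ 2 = ((1 - r / p) ^ ((p - 2) / r) * lev ψ 0 z ^ ((p - 2) / r)) *
        ‖x z‖ ^ 2 := by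
      rw [← Real.mul_rpow hw.le hl0, ← hTr, ← Real.rpow_mul hT0.le,
        mul_div_cancel₀ _ hr0.ne', Real.rpow_sub hT0, Real.rpow_two, hy]
      field_simp
    calc (1 - r / p) ^ ((p - 2) / r) * (V ((1 - ‖x z‖ ^ r / lev ψ 0 z) / r) *
        lev ψ 0 z ^ ((p - 2) / r) * ‖x z‖ ^ 2) -
      T ^ p * Rf y + Z * ((2 / p - 1) * T ^ p - 2 / p * ‖x z‖ ^ p)
        = V ((1 - ‖x z‖ ^ r / lev ψ 0 z) / r) * (((1 - r / p) ^ ((p - 2) / r) *
          lev ψ 0 z ^ ((p - 2) / r)) * ‖x z‖ ^ 2) -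
          T ^ p * Rf y + Z * ((2 / p - 1) * T ^ p - 2 / p * (T ^ p * y ^ p)) := by
          rw [e1]; ring
      _ = T ^ p * (V ((1 - ‖x z‖ ^ r / lev ψ 0 z) / r) * y ^ 2 - Rf y +
        Z * ((2 / p - 1) - 2 / p * y ^ p)) := by
          rw [← e3]; ring
      _ ≤ T ^ p * (Lam * ((1 - r / p) / r * (1 - y ^ r))) := h2
      _ = Lam * ((1 - r / p) / r) * (T ^ p - T ^ p * y ^ r) := by ring
      _ = _ := by rw [e2]

/-- the real inequality between the integrals -/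
theorem real_top (hr : 1 ≤ r) (hrp : r < p) (hx : Continuous x)
    (hxc : HasCompactSupport x) (hF : Fam (fun z => ‖x z‖ ^ r) ψ) {V Rf : ℝ → ℝ} {Z Lam : ℝ}
    (hVc : ContinuousOn V (Icc 0 (1 / r))) (hLam : 0 ≤ Lam)
    (hRi : Integrable (fun z => tt p r ψ z ^ p * Rf (‖x z‖ / tt p r ψ z)))
    (hTOP : ∀ y : ℝ, 0 ≤ y → (1 - r / p) * y ^ r ≤ 1 →
      V ((1 - (1 - r / p) * y ^ r) / r) * y ^ 2 - Rf y + Z * ((2 / p - 1) - 2 / p * y ^ p) ≤
        Lam * ((1 - (1 - r / p) * y ^ r) / r - 1 / p)) :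
    (1 - r / p) ^ ((p - 2) / r) * (∫ z, V ((1 - ‖x z‖ ^ r / lev ψ 0 z) / r) *
        lev ψ 0 z ^ ((p - 2) / r) * ‖x z‖ ^ 2) -
      (∫ z, tt p r ψ z ^ p * Rf (‖x z‖ / tt p r ψ z)) +
      Z * ((2 / p - 1) * (∫ z, tt p r ψ z ^ p) - 2 / p * ∫ z, ‖x z‖ ^ p) ≤ 0 := by
  have hr0 : 0 < r := by linarith
  have hp0 : 0 < p := by linarith
  have hw := w_pos hr hrp
  have i1 := integrable_V hr hx hxc hF hVc ((p - 2) / r)
  have i2 := integrable_mu_tt (p := p) hr hrp hx hxc hF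
  obtain ⟨i3, hmass⟩ := mass_real (p := p) hr hrp hx hxc hF
  have i4 : Integrable (fun z => ‖x z‖ ^ p) := by
    have hc : Continuous fun z => ‖x z‖ ^ p := hx.norm.rpow_const fun z => Or.inr hp0.le
    apply hc.integrable_of_hasCompactSupport
    exact hxc.comp_left (g := fun y : ℂ => ‖y‖ ^ p) (by simp [Real.zero_rpow hp0.ne'])
  have i5 : Integrable (fun z => (2 / p - 1) * tt p r ψ z ^ p - 2 / p * ‖x z‖ ^ p) :=
    (i3.const_mul _).sub (i4.const_mul _)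
  have i6 : Integrable (fun z => (1 - r / p) ^ ((p - 2) / r) *
      (V ((1 - ‖x z‖ ^ r / lev ψ 0 z) / r) * lev ψ 0 z ^ ((p - 2) / r) * ‖x z‖ ^ 2) -
      tt p r ψ z ^ p * Rf (‖x z‖ / tt p r ψ z)) := (i1.const_mul _).sub hRi
  have i7 : Integrable (fun z => tt p r ψ z ^ p - ‖x z‖ ^ r * tt p r ψ z ^ (p - r)) := i3.sub i2
  have h := integral_mono (i6.add (i5.const_mul Z)) (i7.const_mul (Lam * ((1 - r / p) / r)))
    (fun z => pointwise_top hr hrp hx hxc hF hTOP z)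
  simp only [Pi.add_apply] at h
  rw [integral_add i6 (i5.const_mul _),
    integral_sub (i1.const_mul _) hRi, integral_const_mul, integral_const_mul,
    integral_const_mul, integral_sub (i3.const_mul _) (i4.const_mul _), integral_const_mul,
    integral_const_mul, integral_sub i3 i2] at h
  have h6 : 0 ≤ Lam * ((1 - r / p) / r) := mul_nonneg hLam (div_nonneg hw.le hr0.le)
  have h7 := mul_nonneg h6 (sub_nonneg.2 hmass)
  nlinarith [h, h7]

/-- Tonelli for the delayed truncations. -/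
theorem lint_delayM {f : ℂ → ℂ} (hf : MemLp f 2 volume) {C : ℝ} (hp1 : 1 < p) (hp2 : p < 2)
    (hC : 0 < C) (ν : Measure ℝ) [SFinite ν] :
    ∫⁻ t in Ioi (0 : ℝ), ENNReal.ofReal (t ^ (p - 3)) *
        (∫⁻ l, ENNReal.ofReal (trunc f (C * Real.exp (-(1 / p * l)) * t)) ∂ν) =
      ENNReal.ofReal (C ^ (2 - p) * (2 / (p * (2 - p)))) *
        (∫⁻ l, ENNReal.ofReal (Real.exp (-((2 / p - 1) * l))) ∂ν) *
        ∫⁻ z, ENNReal.ofReal (‖f z‖ ^ p) := by
  have hp0 : 0 < p := by linarith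
  have h2p : 0 < 2 - p := by linarith
  have htm : Measurable (trunc f) := (trunc_mono hf).measurable
  have hm : Measurable (Function.uncurry fun (t : ℝ) (l : ℝ) =>
      ENNReal.ofReal (t ^ (p - 3)) * ENNReal.ofReal (
        trunc f (C * Real.exp (-(1 / p * l)) * t))) := by
    have m1 : Measurable fun q : ℝ × ℝ => ENNReal.ofReal (q.1 ^ (p - 3)) :=
      (measurable_fst.pow_const _).ennreal_ofReal
    have m3 : Measurable fun q : ℝ × ℝ => trunc f (C * Real.exp (-(1 / p * q.2)) * q.1) :=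
      htm.comp (by fun_prop)
    exact m1.mul m3.ennreal_ofReal
  have e0 : ∀ t ∈ Ioi (0 : ℝ), ENNReal.ofReal (t ^ (p - 3)) *
        (∫⁻ l, ENNReal.ofReal (trunc f (C * Real.exp (-(1 / p * l)) * t)) ∂ν) =
      ∫⁻ l, ENNReal.ofReal (t ^ (p - 3)) * ENNReal.ofReal (
        trunc f (C * Real.exp (-(1 / p * l)) * t)) ∂ν := by
    intro t _
    rw [lintegral_const_mul' _ _ (by simp)]
  rw [setLIntegral_congr_fun measurableSet_Ioi e0,
    lintegral_lintegral_swap hm.aemeasurable]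
  have e1 : ∀ l : ℝ, ∫⁻ t in Ioi (0 : ℝ), ENNReal.ofReal (t ^ (p - 3)) *
      ENNReal.ofReal (trunc f (C * Real.exp (-(1 / p * l)) * t)) =
      (ENNReal.ofReal (Real.exp (-((2 / p - 1) * l)))) *
        (ENNReal.ofReal (C ^ (2 - p) * (2 / (p * (2 - p)))) *
          ∫⁻ z, ENNReal.ofReal (‖f z‖ ^ p)) := by
    intro l
    have hc : 0 < C * Real.exp (-(1 / p * l)) := by positivity
    have e2 : ∀ t ∈ Ioi (0 : ℝ), ENNReal.ofReal (t ^ (p - 3)) *
        ENNReal.ofReal (trunc f (C * Real.exp (-(1 / p * l)) * t)) =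
        ENNReal.ofReal (t ^ (p - 3) *
          trunc f ((C * Real.exp (-(1 / p * l))) * t)) := by
      intro t ht
      have ht' : (0 : ℝ) < t := ht
      rw [← ENNReal.ofReal_mul (by positivity)]
    rw [setLIntegral_congr_fun measurableSet_Ioi e2,
      lintegral_trunc hf hp1 hp2 hc, ← mul_assoc,
      ← ENNReal.ofReal_mul (Real.exp_pos _).le]
    congr 2
    rw [Real.mul_rpow hC.le (Real.exp_pos _).le, ← Real.exp_mul]
    have : -(1 / p * l) * (2 - p) = -((2 / p - 1) * l) := by field_simp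
    rw [this]; ring
  rw [lintegral_congr e1, lintegral_mul_const'' _ (by fun_prop)]
  ring

/-- **(TOP)** the general deduction; the exit is an arbitrary measure `ν` in the delay. -/
theorem topM (hr : 1 ≤ r) (hrp : r < p) (hp2 : p < 2) (hx : Continuous x)
    (hxc : HasCompactSupport x) (hF : Fam (fun z => ‖x z‖ ^ r) ψ) {f : ℂ → ℂ}
    (hf : MemLp f 2 volume) {V Rf : ℝ → ℝ} {Zn Lam C : ℝ}
    (hVc : ContinuousOn V (Icc 0 (1 / r))) (hV0 : ∀ s ∈ Icc (0 : ℝ) (1 / r), 0 ≤ V s)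
    (hC : 0 < C) (hZn : 0 < Zn) (hLam : 0 ≤ Lam)
    {E : ℝ → ℝ} {Kt : ℝ → ℝ≥0∞}
    (hFE : ∫⁻ L in Ioi (0 : ℝ), ENNReal.ofReal ((2 - p) / r * L ^ ((p - 2) / r - 1) * E L) ≤
      ENNReal.ofReal (∫ z, V ((1 - ‖x z‖ ^ r / lev ψ 0 z) / r) *
        lev ψ 0 z ^ ((p - 2) / r) * ‖x z‖ ^ 2))
    {ν : Measure ℝ} [SFinite ν]
    (hZ : ∫⁻ l, ENNReal.ofReal (Real.exp (-((2 / p - 1) * l))) ∂ν = ENNReal.ofReal Zn)
    (hT : ∀ t, 0 < t → (∫⁻ l, ENNReal.ofReal (
          trunc f (C * Real.exp (-(1 / p * l)) * t)) ∂ν) + Kt t ≤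
        ENNReal.ofReal (E (t ^ r / (1 - r / p))) + ENNReal.ofReal (C ^ 2 * Zn * t ^ 2) *
          volume {z | 0 < ψ (t ^ r / (1 - r / p)) z})
    (hRi : Integrable (fun z => tt p r ψ z ^ p * Rf (‖x z‖ / tt p r ψ z)))
    (hR : ENNReal.ofReal (∫ z, tt p r ψ z ^ p * Rf (‖x z‖ / tt p r ψ z)) ≤
      ∫⁻ t in Ioi (0 : ℝ), ENNReal.ofReal ((2 - p) * t ^ (p - 3)) * Kt t)
    (hTOP : ∀ y : ℝ, 0 ≤ y → (1 - r / p) * y ^ r ≤ 1 →
      V ((1 - (1 - r / p) * y ^ r) / r) * y ^ 2 - Rf y +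
        Zn * C ^ 2 * ((2 / p - 1) - 2 / p * y ^ p) ≤
        Lam * ((1 - (1 - r / p) * y ^ r) / r - 1 / p)) :
    ∫⁻ z, ENNReal.ofReal (‖f z‖ ^ p) ≤ ENNReal.ofReal (C ^ p * ∫ z, ‖x z‖ ^ p) := by
  have hr0 : 0 < r := by linarith
  have hp0 : 0 < p := by linarith
  have hp1 : 1 < p := by linarith
  have h2p : 0 < 2 - p := by linarith
  have hw := w_pos hr hrp
  obtain ⟨M, hM0, hM⟩ := exists_bound hx hxc hr0
  have hri := real_top hr hrp hx hxc hF hVc hLam hRi hTOP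
  set J := ∫ z, V ((1 - ‖x z‖ ^ r / lev ψ 0 z) / r) *
        lev ψ 0 z ^ ((p - 2) / r) * ‖x z‖ ^ 2 with hJ
  set N := ∫ z, ‖x z‖ ^ p with hN
  set R := ∫ z, tt p r ψ z ^ p * Rf (‖x z‖ / tt p r ψ z) with hRd
  obtain ⟨i3, -⟩ := mass_real (p := p) hr hrp hx hxc hF
  set T := ∫ z, tt p r ψ z ^ p with hTd
  have hT0 : 0 ≤ T := integral_nonneg fun z => Real.rpow_nonneg (tt_nonneg hr hrp z) _
  have hN0 : 0 ≤ N := integral_nonneg fun z => by positivity
  have hJ0 : 0 ≤ J := integral_nonneg fun z => by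
    have h1 := hV0 _ (s_mem (r := r) hF hM (fun z => by positivity) hr z)
    have h2 : 0 ≤ lev ψ 0 z ^ ((p - 2) / r) := Real.rpow_nonneg (lev_nonneg ψ 0 z) _
    exact mul_nonneg (mul_nonneg h1 h2) (sq_nonneg _)
  -- the two integrals on the right
  rw [lint_change hr hrp hp2] at hFE
  have hk : 0 < (2 - p) * (1 - r / p) ^ ((2 - p) / r) := by positivity
  set I1 := ∫⁻ t in Ioi (0 : ℝ), ENNReal.ofReal (t ^ (p - 3)) *
          ENNReal.ofReal (E (t ^ r / (1 - r / p))) with hI1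
  have hI1le : I1 ≤ ENNReal.ofReal (J / ((2 - p) * (1 - r / p) ^ ((2 - p) / r))) := by
    rw [ENNReal.ofReal_div_of_pos hk, ENNReal.le_div_iff_mul_le
      (Or.inl (by simpa using hk)) (Or.inl ENNReal.ofReal_ne_top), mul_comm]
    exact hFE
  have hI2 := lint_tt (p := p) (r := r) hF hM hr hrp
  rw [← ofReal_integral_eq_lintegral_ofReal i3 (Eventually.of_forall fun z =>
    Real.rpow_nonneg (tt_nonneg hr hrp z) _), ← ENNReal.ofReal_mul (by positivity)] at hI2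
  -- integrate `hT`
  set A := ∫⁻ z, ENNReal.ofReal (‖f z‖ ^ p) with hA
  set K' := ∫⁻ t in Ioi (0 : ℝ), ENNReal.ofReal (t ^ (p - 3)) * Kt t with hK'
  have htm : Measurable (trunc f) := (trunc_mono hf).measurable
  have hmeas1 : Measurable (fun t : ℝ => ENNReal.ofReal (t ^ (p - 3)) *
      (∫⁻ l, ENNReal.ofReal (
          trunc f (C * Real.exp (-(1 / p * l)) * t)) ∂ν)) := by
    apply Measurable.mul
    · exact (measurable_id.pow_const _).ennreal_ofReal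
    · apply Measurable.lintegral_prod_right' (f := fun q : ℝ × ℝ => ENNReal.ofReal (
          trunc f (C * Real.exp (-(1 / p * q.2)) * q.1)))
      apply Measurable.ennreal_ofReal
      apply htm.comp
      fun_prop
  have hint : ∫⁻ t in Ioi (0 : ℝ), (ENNReal.ofReal (t ^ (p - 3)) *
      (∫⁻ l, ENNReal.ofReal (
          trunc f (C * Real.exp (-(1 / p * l)) * t)) ∂ν) + ENNReal.ofReal (t ^ (p - 3)) * Kt t) ≤
      ∫⁻ t in Ioi (0 : ℝ), (ENNReal.ofReal (t ^ (p - 3)) *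
          ENNReal.ofReal (E (t ^ r / (1 - r / p))) + ENNReal.ofReal (C ^ 2 * Zn) *
          (ENNReal.ofReal (t ^ (p - 3)) * (ENNReal.ofReal (t ^ 2) *
            volume {z | 0 < ψ (t ^ r / (1 - r / p)) z}))) := by
    refine setLIntegral_mono' measurableSet_Ioi fun t ht => ?_
    have ht' : (0 : ℝ) < t := ht
    rw [← mul_add]
    refine le_trans (mul_le_mul_right (hT t ht') _) (le_of_eq ?_)
    rw [mul_add, ENNReal.ofReal_mul (by positivity : (0 : ℝ) ≤ C ^ 2 * Zn)]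
    ring
  rw [lintegral_add_left hmeas1, lint_delayM hf hp1 hp2 hC ν, hZ, ← hA, ← hK'] at hint
  have hmeas2 : AEMeasurable (fun t : ℝ => ENNReal.ofReal (C ^ 2 * Zn) *
          (ENNReal.ofReal (t ^ (p - 3)) * (ENNReal.ofReal (t ^ 2) *
            volume {z | 0 < ψ (t ^ r / (1 - r / p)) z}))) (volume.restrict (Ioi 0)) := by
    have hm : AEMeasurable (fun t : ℝ => ENNReal.ofReal (C ^ 2 * Zn) *
        (ENNReal.ofReal (t ^ (p - 3)) *
          (ENNReal.ofReal (t ^ 2) * volume {z | t < tt p r ψ z}))) (volume.restrict (Ioi 0)) := by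
      have ha : Antitone fun t : ℝ => (volume : Measure ℂ) {z | t < tt p r ψ z} := by
        intro t t' htt'
        exact measure_mono fun z hz => lt_of_le_of_lt htt' hz
      apply Measurable.aemeasurable
      exact ((measurable_id.pow_const _).ennreal_ofReal.mul
        ((measurable_id.pow_const 2).ennreal_ofReal.mul ha.measurable)).const_mul _
    refine hm.congr ?_
    filter_upwards [ae_restrict_mem measurableSet_Ioi] with t ht
    rw [U_eq_tt hF hM hr hrp ht]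
  rw [lintegral_add_right' _ hmeas2, lintegral_const_mul' _ _ (by simp), hI2, ← hI1] at hint
  have hR' : ENNReal.ofReal R ≤ ENNReal.ofReal (2 - p) * K' := by
    refine hR.trans (le_of_eq ?_)
    rw [hK', ← lintegral_const_mul' _ _ (by simp)]
    refine lintegral_congr fun t => ?_
    rw [ENNReal.ofReal_mul h2p.le, mul_assoc]
  -- multiply by `2 - p`
  have hfin : ENNReal.ofReal (2 - p) * (ENNReal.ofReal (C ^ (2 - p) * (2 / (p * (2 - p)))) *
      ENNReal.ofReal Zn * A + K') ≤ ENNReal.ofReal (2 - p) *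
      (ENNReal.ofReal (J / ((2 - p) * (1 - r / p) ^ ((2 - p) / r))) +
        ENNReal.ofReal (C ^ 2 * Zn) * ENNReal.ofReal (1 / p * T)) := by
    refine mul_le_mul_right (hint.trans ?_) _
    gcongr
  set c1 := C ^ (2 - p) * (2 / (p * (2 - p))) with hc1
  have hc10 : 0 < c1 := by positivity
  set rhs := (2 - p) * (J / ((2 - p) * (1 - r / p) ^ ((2 - p) / r)) + C ^ 2 * Zn * (1 / p * T))
    with hrhs
  have hrhs0 : 0 ≤ rhs := by positivity
  have e1 : ENNReal.ofReal (2 - p) *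
      (ENNReal.ofReal (J / ((2 - p) * (1 - r / p) ^ ((2 - p) / r))) +
        ENNReal.ofReal (C ^ 2 * Zn) * ENNReal.ofReal (1 / p * T)) = ENNReal.ofReal rhs := by
    rw [← ENNReal.ofReal_mul (by positivity), ← ENNReal.ofReal_add (by positivity) (by positivity),
      ← ENNReal.ofReal_mul h2p.le]
  have e2 : ENNReal.ofReal (2 - p) * (ENNReal.ofReal c1 * ENNReal.ofReal Zn * A + K') =
      ENNReal.ofReal ((2 - p) * c1 * Zn) * A + ENNReal.ofReal (2 - p) * K' := by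
    rw [ENNReal.ofReal_mul (by positivity : (0 : ℝ) ≤ (2 - p) * c1), ENNReal.ofReal_mul h2p.le]
    ring
  rw [e1, e2] at hfin
  have hfin2 : ENNReal.ofReal ((2 - p) * c1 * Zn) * A + ENNReal.ofReal R ≤
      ENNReal.ofReal rhs := le_trans (by gcongr) hfin
  have hcoef : 0 < (2 - p) * c1 * Zn := by positivity
  have hAfin : A ≠ ∞ := by
    intro hA'
    rw [hA', ENNReal.mul_top (by simpa using hcoef)] at hfin2
    simp at hfin2
  set A' := A.toReal with hA'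
  have hAA : A = ENNReal.ofReal A' := (ENNReal.ofReal_toReal hAfin).symm
  have hA'0 : 0 ≤ A' := ENNReal.toReal_nonneg
  have hreal : (2 - p) * c1 * Zn * A' + R ≤ rhs := by
    rw [hAA, ← ENNReal.ofReal_mul hcoef.le] at hfin2
    rcases le_total 0 R with hR0 | hR0
    · rw [← ENNReal.ofReal_add (by positivity) hR0] at hfin2
      exact (ENNReal.ofReal_le_ofReal_iff hrhs0).1 hfin2
    · have h1 : ENNReal.ofReal ((2 - p) * c1 * Zn * A') ≤ ENNReal.ofReal rhs :=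
        le_trans le_self_add hfin2
      have h2 := (ENNReal.ofReal_le_ofReal_iff hrhs0).1 h1
      linarith
  rw [hAA]
  apply ENNReal.ofReal_le_ofReal
  have hwβ : (1 - r / p) ^ ((p - 2) / r) * (1 - r / p) ^ ((2 - p) / r) = 1 := by
    rw [← Real.rpow_add hw]
    have : (p - 2) / r + (2 - p) / r = 0 := by ring
    rw [this, Real.rpow_zero]
  have e3 : J / ((2 - p) * (1 - r / p) ^ ((2 - p) / r)) =
      (1 - r / p) ^ ((p - 2) / r) * J / (2 - p) := by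
    rw [div_eq_div_iff hk.ne' h2p.ne']
    calc J * (2 - p) = (1 - r / p) ^ ((p - 2) / r) * (1 - r / p) ^ ((2 - p) / r) *
        (J * (2 - p)) := by rw [hwβ, one_mul]
      _ = _ := by ring
  have e4 : rhs = (1 - r / p) ^ ((p - 2) / r) * J + (2 / p - 1) * (C ^ 2 * Zn) * T := by
    rw [hrhs, e3]; field_simp
  have e5 : (2 - p) * c1 * Zn * A' = 2 / p * Zn * (C ^ (2 - p) * A') := by
    rw [hc1]; field_simp
  rw [e4, e5] at hreal
  have h6 : 2 / p * Zn * (C ^ (2 - p) * A') ≤ 2 / p * Zn * (C ^ 2 * N) := by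
    nlinarith [hreal, hri]
  have h7 : C ^ (2 - p) * A' ≤ C ^ 2 * N :=
    le_of_mul_le_mul_left h6 (by positivity)
  have h8 : C ^ 2 = C ^ (2 - p) * C ^ p := by
    rw [← Real.rpow_add hC, ← Real.rpow_natCast C 2]
    congr 1; push_cast; ring
  rw [h8, mul_assoc] at h7
  exact le_of_mul_le_mul_left h7 (by positivity)

/-- **(TOP)** with exit `nu l dl + nu0 δ_0`. -/
theorem top_atom (hr : 1 ≤ r) (hrp : r < p) (hp2 : p < 2) (hx : Continuous x)
    (hxc : HasCompactSupport x) (hF : Fam (fun z => ‖x z‖ ^ r) ψ) {f : ℂ → ℂ}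
    (hf : MemLp f 2 volume) {V Rf : ℝ → ℝ} {Zn Lam C : ℝ}
    (hVc : ContinuousOn V (Icc 0 (1 / r))) (hV0 : ∀ s ∈ Icc (0 : ℝ) (1 / r), 0 ≤ V s)
    (hC : 0 < C) (hZn : 0 < Zn) (hLam : 0 ≤ Lam)
    {E : ℝ → ℝ} {Kt : ℝ → ℝ≥0∞}
    (hFE : ∫⁻ L in Ioi (0 : ℝ), ENNReal.ofReal ((2 - p) / r * L ^ ((p - 2) / r - 1) * E L) ≤
      ENNReal.ofReal (∫ z, V ((1 - ‖x z‖ ^ r / lev ψ 0 z) / r) *
        lev ψ 0 z ^ ((p - 2) / r) * ‖x z‖ ^ 2))
    {nu : ℝ → ℝ} {nu0 : ℝ} (hnu : Measurable nu) (hnup : ∀ l, 0 < l → 0 ≤ nu l)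
    (hnu0 : 0 ≤ nu0)
    (hZ : ENNReal.ofReal nu0 +
      ∫⁻ l in Ioi (0 : ℝ), ENNReal.ofReal (nu l * Real.exp (-((2 / p - 1) * l))) =
      ENNReal.ofReal Zn)
    (hT : ∀ t, 0 < t → ENNReal.ofReal (nu0 * trunc f (C * t)) +
        (∫⁻ l in Ioi (0 : ℝ), ENNReal.ofReal (nu l *
          trunc f (C * Real.exp (-(1 / p * l)) * t))) + Kt t ≤
        ENNReal.ofReal (E (t ^ r / (1 - r / p))) + ENNReal.ofReal (C ^ 2 * Zn * t ^ 2) *
          volume {z | 0 < ψ (t ^ r / (1 - r / p)) z})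
    (hRi : Integrable (fun z => tt p r ψ z ^ p * Rf (‖x z‖ / tt p r ψ z)))
    (hR : ENNReal.ofReal (∫ z, tt p r ψ z ^ p * Rf (‖x z‖ / tt p r ψ z)) ≤
      ∫⁻ t in Ioi (0 : ℝ), ENNReal.ofReal ((2 - p) * t ^ (p - 3)) * Kt t)
    (hTOP : ∀ y : ℝ, 0 ≤ y → (1 - r / p) * y ^ r ≤ 1 →
      V ((1 - (1 - r / p) * y ^ r) / r) * y ^ 2 - Rf y +
        Zn * C ^ 2 * ((2 / p - 1) - 2 / p * y ^ p) ≤
        Lam * ((1 - (1 - r / p) * y ^ r) / r - 1 / p)) :
    ∫⁻ z, ENNReal.ofReal (‖f z‖ ^ p) ≤ ENNReal.ofReal (C ^ p * ∫ z, ‖x z‖ ^ p) := by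
  have hmn : Measurable fun l => ENNReal.ofReal (nu l) := hnu.ennreal_ofReal
  set ν : Measure ℝ := ENNReal.ofReal nu0 • Measure.dirac 0 +
    (volume.restrict (Ioi (0 : ℝ))).withDensity (fun l => ENNReal.ofReal (nu l)) with hν
  have key : ∀ g : ℝ → ℝ, Measurable g → (∀ l, 0 ≤ g l) →
      ∫⁻ l, ENNReal.ofReal (g l) ∂ν = ENNReal.ofReal (nu0 * g 0) +
        ∫⁻ l in Ioi (0 : ℝ), ENNReal.ofReal (nu l * g l) := by
    intro g hg hg0
    rw [hν, lintegral_add_measure, lintegral_smul_measure, lintegral_dirac' _ hg.ennreal_ofReal,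
      lintegral_withDensity_eq_lintegral_mul _ hmn hg.ennreal_ofReal, smul_eq_mul,
      ← ENNReal.ofReal_mul hnu0]
    congr 1
    refine setLIntegral_congr_fun measurableSet_Ioi fun l hl => ?_
    simp only [Pi.mul_apply]
    rw [← ENNReal.ofReal_mul (hnup l hl)]
  have htm : Measurable (trunc f) := (trunc_mono hf).measurable
  refine topM (ν := ν) hr hrp hp2 hx hxc hF hf hVc hV0 hC hZn hLam hFE ?_ ?_ hRi hR hTOP
  · rw [key _ (by fun_prop) fun l => (Real.exp_pos _).le]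
    simpa using hZ
  · intro t ht
    have hmm : Measurable fun l : ℝ => trunc f (C * Real.exp (-(1 / p * l)) * t) :=
      htm.comp (by fun_prop)
    rw [key _ hmm fun l => trunc_nonneg _ _]
    simpa using hT t ht

/-- **(TOP)** with exit `nu l dl`. -/
theorem top (hr : 1 ≤ r) (hrp : r < p) (hp2 : p < 2) (hx : Continuous x)
    (hxc : HasCompactSupport x) (hF : Fam (fun z => ‖x z‖ ^ r) ψ) {f : ℂ → ℂ}
    (hf : MemLp f 2 volume) {V Rf : ℝ → ℝ} {Zn Lam C : ℝ}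
    (hVc : ContinuousOn V (Icc 0 (1 / r))) (hV0 : ∀ s ∈ Icc (0 : ℝ) (1 / r), 0 ≤ V s)
    (hC : 0 < C) (hZn : 0 < Zn) (hLam : 0 ≤ Lam)
    {E : ℝ → ℝ} {Kt : ℝ → ℝ≥0∞}
    (hFE : ∫⁻ L in Ioi (0 : ℝ), ENNReal.ofReal ((2 - p) / r * L ^ ((p - 2) / r - 1) * E L) ≤
      ENNReal.ofReal (∫ z, V ((1 - ‖x z‖ ^ r / lev ψ 0 z) / r) *
        lev ψ 0 z ^ ((p - 2) / r) * ‖x z‖ ^ 2))
    {nu : ℝ → ℝ} (hnu : Measurable nu) (hnu0 : ∀ l, 0 < l → 0 ≤ nu l)
    (hZ : ∫⁻ l in Ioi (0 : ℝ), ENNReal.ofReal (nu l * Real.exp (-((2 / p - 1) * l))) =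
      ENNReal.ofReal Zn)
    (hT : ∀ t, 0 < t → (∫⁻ l in Ioi (0 : ℝ), ENNReal.ofReal (nu l *
          trunc f (C * Real.exp (-(1 / p * l)) * t))) + Kt t ≤
        ENNReal.ofReal (E (t ^ r / (1 - r / p))) + ENNReal.ofReal (C ^ 2 * Zn * t ^ 2) *
          volume {z | 0 < ψ (t ^ r / (1 - r / p)) z})
    (hRi : Integrable (fun z => tt p r ψ z ^ p * Rf (‖x z‖ / tt p r ψ z)))
    (hR : ENNReal.ofReal (∫ z, tt p r ψ z ^ p * Rf (‖x z‖ / tt p r ψ z)) ≤
      ∫⁻ t in Ioi (0 : ℝ), ENNReal.ofReal ((2 - p) * t ^ (p - 3)) * Kt t)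
    (hTOP : ∀ y : ℝ, 0 ≤ y → (1 - r / p) * y ^ r ≤ 1 →
      V ((1 - (1 - r / p) * y ^ r) / r) * y ^ 2 - Rf y +
        Zn * C ^ 2 * ((2 / p - 1) - 2 / p * y ^ p) ≤
        Lam * ((1 - (1 - r / p) * y ^ r) / r - 1 / p)) :
    ∫⁻ z, ENNReal.ofReal (‖f z‖ ^ p) ≤ ENNReal.ofReal (C ^ p * ∫ z, ‖x z‖ ^ p) :=
  top_atom hr hrp hp2 hx hxc hF hf hVc hV0 hC hZn hLam hFE hnu hnu0 le_rfl
    (by simpa using hZ) (by simpa using hT) hRi hR hTOP

end Pool.Agent.Lib.QNL.Top46
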