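import Pool.Agent.Lib.QNL.WtBd
import Pool.Agent.Lib.QNL.Calc

/-!
Uniform bounds for all the derivatives of the weights `ψ(g / (h θ)) B` (`wk ψ O g θ B h`), where
`ψ` is a cut-off profile (`Cut δ ψ`: zero on `(-∞, δ]`, constant on `[1, ∞)`) and `B` is smooth:
the `i`-th derivative is bounded by `C h ^ n / (g z) ^ (n + i)` with `C` independent of
`0 < h ≤ 1`.
-/

set_option autoImplicit false

namespace Pool.Agent.Lib.QNL.WtJet

open MeasureTheory Filter Topology Set Pool.Agent.Lib.QNL.WProf Pool.Agent.Lib.QNL.Wt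
  Pool.Agent.Lib.QNL.WtBd Pool.Agent.Lib.QNL.Calc
open scoped ContDiff Nat

/-- a cut-off profile: zero on `(-∞, δ]`, constant on `[1, ∞)` -/
structure Cut (δ : ℝ) (ψ : ℝ → ℝ) : Prop where
  smooth : ContDiff ℝ ∞ ψ
  δpos : 0 < δ
  zero : ∀ s, s ≤ δ → ψ s = 0
  const : ∀ s, 1 ≤ s → ψ s = ψ 1

theorem cut_d1 {τ δ : ℝ} {Φ : ℝ → ℝ} (H : Prof τ δ Φ) : Cut δ (deriv Φ) where
  smooth := H.smooth1
  δpos := H.δpos
  zero := fun _ hs => H.d1zero hs
  const := fun s hs => by rw [H.one s hs, H.one 1 le_rfl]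

theorem cut_d2 {τ δ : ℝ} {Φ : ℝ → ℝ} (H : Prof τ δ Φ) : Cut δ (deriv (deriv Φ)) where
  smooth := H.smooth2
  δpos := H.δpos
  zero := fun _ hs => H.d2zero hs
  const := fun s hs => by rw [H.d2zero' hs, H.d2zero' le_rfl]

/-- the weight `ψ(g / (h θ)) B` -/
noncomputable def wk (ψ : ℝ → ℝ) (O : Set ℂ) (g θ : ℂ → ℝ) (B : ℂ → ℂ) (h : ℝ) : ℂ → ℂ :=
  O.indicator fun z => ((ψ (g z / (h * θ z)) : ℝ) : ℂ) * B z

section weights

variable {δ : ℝ} {ψ : ℝ → ℝ} {O : Set ℂ} {g θ : ℂ → ℝ} {B : ℂ → ℂ} {h : ℝ} {z : ℂ}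

theorem wk_of_mem (hz : z ∈ O) :
    wk ψ O g θ B h z = ((ψ (g z / (h * θ z)) : ℝ) : ℂ) * B z := indicator_of_mem hz _

theorem wk_of_notMem (hz : z ∉ O) : wk ψ O g θ B h z = 0 := indicator_of_notMem hz _

theorem wk_zero (H : Cut δ ψ) (A : Dat O g θ) (hh : 0 < h)
    (hz : z ∉ {z | z ∈ O ∧ δ * (h * θ z) ≤ g z}) : wk ψ O g θ B h z = 0 := by
  by_cases hzO : z ∈ O
  · rw [wk_of_mem hzO, H.zero, Complex.ofReal_zero, zero_mul]
    rw [div_le_iff₀ (mul_pos hh (A.θ_pos z hzO))]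
    by_contra hcon
    exact hz ⟨hzO, (not_le.1 hcon).le⟩
  · exact wk_of_notMem hzO

/-- if `ψ 1 = 0` then the weight lives in the layer `{g < h θ}` -/
theorem wk_zero' (H : Cut δ ψ) (A : Dat O g θ) (h1 : ψ 1 = 0) (hh : 0 < h) (hz : h * θ z ≤ g z) :
    wk ψ O g θ B h z = 0 := by
  by_cases hzO : z ∈ O
  · rw [wk_of_mem hzO, H.const, h1, Complex.ofReal_zero, zero_mul]
    rw [le_div_iff₀ (mul_pos hh (A.θ_pos z hzO)), one_mul]
    exact hz
  · exact wk_of_notMem hzO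

theorem cpt_supp' (hδ : 0 < δ) (A : Dat O g θ) (hh : 0 < h) :
    IsCompact {z | z ∈ O ∧ δ * (h * θ z) ≤ g z} := by
  have h1 : {z | z ∈ O ∧ δ * (h * θ z) ≤ g z} =
      {z | z ∈ O ∧ 0 ≤ g z} ∩ {z | 0 ≤ (fun z => g z - δ * (h * θ z)) z} := by
    ext z
    simp only [mem_ofPred_eq, mem_inter_iff]
    constructor
    · rintro ⟨h1, h2⟩
      have := mul_pos hδ (mul_pos hh (A.θ_pos z h1))
      exact ⟨⟨h1, by linarith⟩, by linarith⟩
    · rintro ⟨⟨h1, _⟩, h2⟩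
      exact ⟨h1, by linarith⟩
  rw [h1]
  have hc : ContinuousOn (fun z => g z - δ * (h * θ z)) {z | z ∈ O ∧ 0 ≤ g z} :=
    ((A.g_sm.continuousOn).sub (continuousOn_const.mul
      (continuousOn_const.mul A.θ_sm.continuousOn))).mono fun z hz => hz.1
  obtain ⟨V, hV, hV'⟩ := (continuousOn_iff_isClosed.1 hc) (Ici 0) isClosed_Ici
  have h2 : {z | z ∈ O ∧ 0 ≤ g z} ∩ {z | 0 ≤ (fun z => g z - δ * (h * θ z)) z} =
      {z | z ∈ O ∧ 0 ≤ g z} ∩ V := by
    rw [inter_comm _ V, ← hV']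
    ext z
    simp only [mem_inter_iff, mem_ofPred_eq, mem_preimage, mem_Ici]
    tauto
  rw [h2]
  exact A.cpt.inter_right hV

theorem supp_subset' (hδ : 0 < δ) (A : Dat O g θ) (hh : 0 < h) :
    {z | z ∈ O ∧ δ * (h * θ z) ≤ g z} ⊆ {z | z ∈ O ∧ 0 < g z} := fun z hz =>
  ⟨hz.1, lt_of_lt_of_le (mul_pos hδ (mul_pos hh (A.θ_pos z hz.1))) hz.2⟩

theorem wk_smooth_on (H : Cut δ ψ) (A : Dat O g θ) (hB : ContDiffOn ℝ ∞ B O) (hh : 0 < h) :
    ContDiffOn ℝ ∞ (wk ψ O g θ B h) O := by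
  have h1 : ContDiffOn ℝ ∞ (fun z => ψ (g z / (h * θ z))) O :=
    H.smooth.comp_contDiffOn (ratio_smooth A hh)
  have h2 : ContDiffOn ℝ ∞ (fun z => ((ψ (g z / (h * θ z)) : ℝ) : ℂ) * B z) O :=
    (Complex.ofRealCLM.contDiff.comp_contDiffOn h1).mul hB
  exact h2.congr fun z hz => wk_of_mem hz

theorem wk_smooth (H : Cut δ ψ) (A : Dat O g θ) (hB : ContDiffOn ℝ ∞ B O) (hh : 0 < h) :
    ContDiff ℝ ∞ (wk ψ O g θ B h) := by
  rw [contDiff_iff_contDiffAt]
  intro z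
  by_cases hz : z ∈ O
  · exact (wk_smooth_on H A hB hh).contDiffAt (A.open_.mem_nhds hz)
  · have : wk ψ O g θ B h =ᶠ[𝓝 z] fun _ => (0 : ℂ) := by
      filter_upwards [(cpt_supp' H.δpos A hh).isClosed.isOpen_compl.mem_nhds
        (fun hh => hz hh.1)] with w hw using wk_zero H A hh hw
    exact contDiffAt_const.congr_of_eventuallyEq this

theorem wk_cpt (H : Cut δ ψ) (A : Dat O g θ) (hh : 0 < h) :
    HasCompactSupport (wk ψ O g θ B h) :=
  HasCompactSupport.intro (cpt_supp' H.δpos A hh) fun _ hz => wk_zero H A hh hz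

theorem wk_tsupport (H : Cut δ ψ) (A : Dat O g θ) (hh : 0 < h) :
    tsupport (wk ψ O g θ B h) ⊆ {z | z ∈ O ∧ 0 < g z} := by
  refine (closure_minimal ?_ (cpt_supp' H.δpos A hh).isClosed).trans (supp_subset' H.δpos A hh)
  intro z hz
  by_contra hcon
  exact hz (wk_zero H A hh hcon)

/-! ### iterated derivatives -/

/-- iterated derivatives of a smooth function are bounded on a compact set -/
theorem iter_bd {E : Type*} [NormedAddCommGroup E] [NormedSpace ℝ E] {f : ℂ → E} {K : Set ℂ}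
    (hO : IsOpen O) (hK : IsCompact K) (hKO : K ⊆ O) (hf : ContDiffOn ℝ ∞ f O) (n : ℕ) :
    ∃ M : ℝ, 0 ≤ M ∧ ∀ i ≤ n, ∀ z ∈ K, ‖iteratedFDerivWithin ℝ i f O z‖ ≤ M := by
  have h1 : ∀ i, ∃ M : ℝ, 0 ≤ M ∧ ∀ z ∈ K, ‖iteratedFDerivWithin ℝ i f O z‖ ≤ M := by
    intro i
    obtain ⟨M, hM⟩ := hK.exists_bound_of_continuousOn
      ((hf.continuousOn_iteratedFDerivWithin (m := i) (by exact_mod_cast le_top)
        hO.uniqueDiffOn).mono hKO)
    exact ⟨max 0 M, le_max_left _ _, fun z hz => (hM z hz).trans (le_max_right _ _)⟩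
  choose M hM0 hM using h1
  refine ⟨∑ i ∈ Finset.range (n + 1), M i, Finset.sum_nonneg fun i _ => hM0 i,
    fun i hi z hz => (hM i z hz).trans ?_⟩
  exact Finset.single_le_sum (f := M) (fun i _ => hM0 i) (Finset.mem_range.2 (by omega))

/-- the derivatives of `ψ(g / (h θ))` vanish on `{h θ < g}` -/
theorem cut_zero (H : Cut δ ψ) (A : Dat O g θ) (hh : 0 < h) (hz : z ∈ O) (hg : h * θ z < g z)
    {i : ℕ} (hi : i ≠ 0 ∨ ψ 1 = 0) :
    iteratedFDerivWithin ℝ i (fun w => ψ (g w / (h * θ w))) O z = 0 := by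
  have hev : (fun w => ψ (g w / (h * θ w))) =ᶠ[𝓝[O] z] fun _ => ψ 1 := by
    have h1 : ContinuousOn (fun w => g w - h * θ w) O :=
      A.g_sm.continuousOn.sub (continuousOn_const.mul A.θ_sm.continuousOn)
    have h2 : ∀ᶠ w in 𝓝[O] z, 0 < g w - h * θ w :=
      (h1 z hz).tendsto.eventually (lt_mem_nhds (by linarith))
    filter_upwards [h2, self_mem_nhdsWithin] with w hw hwO
    apply H.const
    rw [le_div_iff₀ (mul_pos hh (A.θ_pos w hwO)), one_mul]
    linarith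
  have h3 := hev.iteratedFDerivWithin_eq (𝕜 := ℝ) (by
    have := hev.self_of_nhdsWithin hz
    exact this) i
  rw [h3]
  rcases hi with hi | hi
  · rw [iteratedFDerivWithin_const_of_ne hi]
    rfl
  · rw [hi, iteratedFDerivWithin_fun_zero]
    rfl

/-- **uniform bounds** for the derivatives of `ψ(g / (h θ))` -/
theorem cut_bd (H : Cut δ ψ) (A : Dat O g θ) (n : ℕ) : ∃ C : ℝ, 0 ≤ C ∧
    ∀ i ≤ n, ∀ h, 0 < h → h ≤ 1 → ∀ z ∈ O, 0 < g z →
      ‖iteratedFDerivWithin ℝ i (fun w => ψ (g w / (h * θ w))) O z‖ ≤ C / (g z) ^ i := by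
  have hKO : {z | z ∈ O ∧ 0 ≤ g z} ⊆ O := fun z hz => hz.1
  have hU : UniqueDiffOn ℝ O := A.open_.uniqueDiffOn
  have hp : ContDiffOn ℝ ∞ (fun z => g z / θ z) O :=
    A.g_sm.div A.θ_sm fun z hz => (A.θ_pos z hz).ne'
  obtain ⟨M1, hM10, hM1⟩ := iter_bd A.open_ A.cpt hKO hp n
  obtain ⟨M2, hM2, hB⟩ := exists_bd A
  -- bounds of the profile on `[0, 1]`
  have h1 : ∃ M : ℝ, 0 ≤ M ∧ ∀ i ≤ n, ∀ s ∈ Icc (0:ℝ) 1, ‖iteratedFDeriv ℝ i ψ s‖ ≤ M := by
    have h1 : ∀ i, ∃ M : ℝ, 0 ≤ M ∧ ∀ s ∈ Icc (0:ℝ) 1, ‖iteratedFDeriv ℝ i ψ s‖ ≤ M := by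
      intro i
      obtain ⟨M, hM⟩ := (isCompact_Icc (a := (0:ℝ)) (b := 1)).exists_bound_of_continuousOn
        (H.smooth.continuous_iteratedFDeriv (m := i) (by exact_mod_cast le_top)).continuousOn
      exact ⟨max 0 M, le_max_left _ _, fun z hz => (hM z hz).trans (le_max_right _ _)⟩
    choose M hM0 hM using h1
    refine ⟨∑ i ∈ Finset.range (n + 1), M i, Finset.sum_nonneg fun i _ => hM0 i,
      fun i hi z hz => (hM i z hz).trans ?_⟩
    exact Finset.single_le_sum (f := M) (fun i _ => hM0 i) (Finset.mem_range.2 (by omega))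
  obtain ⟨M3, hM30, hM3⟩ := h1
  set M := 1 + M1 with hM
  have hMp : 1 ≤ M := by linarith
  have hMM : 1 ≤ M * M2 := by nlinarith
  refine ⟨(n ! : ℝ) * M3 * (M * M2) ^ n + |ψ 1|, by positivity, ?_⟩
  intro i hi h hh hh1 z hz hg
  have hθ := A.θ_pos z hz
  have hhθ := mul_pos hh hθ
  rcases lt_or_ge (h * θ z) (g z) with hlt | hge
  · rcases Nat.eq_zero_or_pos i with hi0 | hi0
    · subst hi0
      rw [norm_iteratedFDerivWithin_zero, pow_zero, div_one,
        H.const _ (by rw [le_div_iff₀ hhθ, one_mul]; exact hlt.le), Real.norm_eq_abs]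
      have : 0 ≤ (n ! : ℝ) * M3 * (M * M2) ^ n := by positivity
      linarith
    · rw [cut_zero H A hh hz hlt (Or.inl hi0.ne'), norm_zero]
      positivity
  · have hs0 : 0 ≤ g z / (h * θ z) := by positivity
    have hs1 : g z / (h * θ z) ≤ 1 := by rw [div_le_one hhθ]; exact hge
    have hσ : ∀ k, 1 ≤ k → k ≤ i →
        ‖iteratedFDerivWithin ℝ k (fun w => g w / (h * θ w)) O z‖ ≤ (M / h) ^ k := by
      intro k hk1 hk
      have e : (fun w => g w / (h * θ w)) = h⁻¹ • fun w => g w / θ w := by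
        funext w
        simp only [Pi.smul_apply, smul_eq_mul]
        rw [mul_comm h, ← div_div, div_eq_mul_inv (g w / θ w), mul_comm]
      rw [e, iteratedFDerivWithin_const_smul_apply
        ((hp.of_le (by exact_mod_cast le_top)).contDiffWithinAt hz) hU hz, norm_smul, norm_inv,
        Real.norm_of_nonneg hh.le]
      have hMh : 1 ≤ M / h := by rw [le_div_iff₀ hh]; linarith
      calc h⁻¹ * ‖iteratedFDerivWithin ℝ k (fun w => g w / θ w) O z‖ ≤ h⁻¹ * M :=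
            mul_le_mul_of_nonneg_left (by
              have := hM1 k (hk.trans hi) z ⟨hz, hg.le⟩
              linarith) (inv_nonneg.2 hh.le)
        _ = M / h := by rw [div_eq_inv_mul]
        _ ≤ (M / h) ^ k := by
            calc M / h = (M / h) ^ 1 := (pow_one _).symm
              _ ≤ (M / h) ^ k := pow_le_pow_right₀ hMh hk1
    have hmain := norm_iteratedFDerivWithin_comp_le (𝕜 := ℝ) (g := ψ)
      (f := fun w => g w / (h * θ w)) (n := i) (s := O) (t := univ) (x := z) (N := ∞)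
      H.smooth.contDiffOn (ratio_smooth A hh) (by exact_mod_cast le_top) uniqueDiffOn_univ hU
      (mapsTo_univ _ _) hz (C := M3) (D := M / h) (by
        intro k hk
        rw [iteratedFDerivWithin_univ]
        exact hM3 k (hk.trans hi) _ ⟨hs0, hs1⟩) hσ
    refine hmain.trans ?_
    obtain ⟨m1, m2, m3, -, -, -, -⟩ := hB z hz hg.le
    have hgi : 0 < g z ^ i := pow_pos hg i
    rw [le_div_iff₀ hgi]
    have e1 : (i ! : ℝ) ≤ n ! := by exact_mod_cast Nat.factorial_le hi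
    have e2 : (M / h) ^ i * g z ^ i ≤ (M * M2) ^ n := by
      rw [← mul_pow]
      have : M / h * g z ≤ M * M2 := by
        rw [div_mul_eq_mul_div, div_le_iff₀ hh]
        have : g z ≤ h * M2 := hge.trans (mul_le_mul_of_nonneg_left m2 hh.le)
        nlinarith
      calc (M / h * g z) ^ i ≤ (M * M2) ^ i :=
            pow_le_pow_left₀ (by positivity) this i
        _ ≤ (M * M2) ^ n := pow_le_pow_right₀ hMM hi
    calc (i ! : ℝ) * M3 * (M / h) ^ i * g z ^ i = ((i ! : ℝ) * M3) * ((M / h) ^ i * g z ^ i) := by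
          ring
      _ ≤ ((n ! : ℝ) * M3) * (M * M2) ^ n := by
          apply mul_le_mul _ e2 (by positivity) (by positivity)
          exact mul_le_mul_of_nonneg_right e1 hM30
      _ ≤ (n ! : ℝ) * M3 * (M * M2) ^ n + |ψ 1| := by
          have := abs_nonneg (ψ 1)
          linarith

/-- the derivatives of the weights vanish on `{h θ < g}` -/
theorem wk_iter_zero (H : Cut δ ψ) (A : Dat O g θ) (hB : ContDiffOn ℝ ∞ B O) (hh : 0 < h)
    (hz : z ∈ O) (hg : h * θ z < g z) {i : ℕ}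
    (hi : (i ≠ 0 ∧ ∃ c : ℂ, B = fun _ => c) ∨ ψ 1 = 0) :
    iteratedFDerivWithin ℝ i (wk ψ O g θ B h) O z = 0 := by
  have hU : UniqueDiffOn ℝ O := A.open_.uniqueDiffOn
  have h1 : ContDiffOn ℝ ∞ (fun z => ψ (g z / (h * θ z))) O :=
    H.smooth.comp_contDiffOn (ratio_smooth A hh)
  have h2 : ContDiffOn ℝ ∞ (fun z => ((ψ (g z / (h * θ z)) : ℝ) : ℂ)) O :=
    Complex.ofRealCLM.contDiff.comp_contDiffOn h1
  have h3 := norm_iteratedFDerivWithin_mul_le (𝕜 := ℝ) h2 hB hU hz (n := i)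
    (by exact_mod_cast le_top)
  have hcg : iteratedFDerivWithin ℝ i (wk ψ O g θ B h) O z = iteratedFDerivWithin ℝ i
      (fun z => ((ψ (g z / (h * θ z)) : ℝ) : ℂ) * B z) O z :=
    iteratedFDerivWithin_congr (fun w hw => wk_of_mem hw) hz i
  rw [hcg, ← norm_le_zero_iff]
  refine h3.trans (le_of_eq (Finset.sum_eq_zero fun k hk => ?_))
  have hk' : k ≤ i := by have := Finset.mem_range.1 hk; omega
  have e : ‖iteratedFDerivWithin ℝ k (fun z => ((ψ (g z / (h * θ z)) : ℝ) : ℂ)) O z‖ =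
      ‖iteratedFDerivWithin ℝ k (fun z => ψ (g z / (h * θ z))) O z‖ :=
    LinearIsometry.norm_iteratedFDerivWithin_comp_left (𝕜 := ℝ) Complex.ofRealLI
      (h1.contDiffWithinAt hz) hU hz (by exact_mod_cast le_top)
  rw [e]
  rcases hi with ⟨hi, c, hc⟩ | hi
  · rcases Nat.eq_zero_or_pos k with hk0 | hk0
    · rw [hc, iteratedFDerivWithin_const_of_ne (by omega : i - k ≠ 0)]
      simp
    · rw [cut_zero H A hh hz hg (Or.inl hk0.ne')]
      simp
  · rw [cut_zero H A hh hz hg (Or.inr hi)]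
    simp

/-- **uniform bounds** for the iterated derivatives of the weights -/
theorem wk_iter_bd (H : Cut δ ψ) (A : Dat O g θ) (hB : ContDiffOn ℝ ∞ B O) (n N : ℕ)
    (hn : n = 0 ∨ ψ 1 = 0) : ∃ C : ℝ, 0 ≤ C ∧
    ∀ i ≤ N, ∀ h, 0 < h → h ≤ 1 → ∀ z ∈ O, 0 < g z →
      ‖iteratedFDerivWithin ℝ i (wk ψ O g θ B h) O z‖ ≤ C * h ^ n / (g z) ^ (n + i) := by
  have hU : UniqueDiffOn ℝ O := A.open_.uniqueDiffOn
  have hKO : {z | z ∈ O ∧ 0 ≤ g z} ⊆ O := fun z hz => hz.1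
  obtain ⟨C1, hC1, hC1'⟩ := cut_bd H A N
  obtain ⟨C2, hC2, hC2'⟩ := iter_bd A.open_ A.cpt hKO hB N
  obtain ⟨M, hM1, hM⟩ := exists_bd A
  refine ⟨2 ^ N * C1 * C2 * M ^ N * M ^ n, by positivity, ?_⟩
  intro i hi h hh hh1 z hz hg
  have hgi : 0 < g z ^ (n + i) := pow_pos hg _
  by_cases hcase : ψ 1 = 0 ∧ h * θ z < g z
  · rw [wk_iter_zero H A hB hh hz hcase.2 (Or.inr hcase.1), norm_zero]
    positivity
  have h1 : ContDiffOn ℝ ∞ (fun z => ψ (g z / (h * θ z))) O :=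
    H.smooth.comp_contDiffOn (ratio_smooth A hh)
  have h2 : ContDiffOn ℝ ∞ (fun z => ((ψ (g z / (h * θ z)) : ℝ) : ℂ)) O :=
    Complex.ofRealCLM.contDiff.comp_contDiffOn h1
  have h3 := norm_iteratedFDerivWithin_mul_le (𝕜 := ℝ) h2 hB hU hz (n := i)
    (by exact_mod_cast le_top)
  have hcg : iteratedFDerivWithin ℝ i (wk ψ O g θ B h) O z = iteratedFDerivWithin ℝ i
      (fun z => ((ψ (g z / (h * θ z)) : ℝ) : ℂ) * B z) O z :=
    iteratedFDerivWithin_congr (fun w hw => wk_of_mem hw) hz i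
  rw [hcg]
  obtain ⟨m1, m2, m3, -, -, -, -⟩ := hM z hz hg.le
  have hstep : ∀ k ∈ Finset.range (i + 1), (i.choose k : ℝ) *
      ‖iteratedFDerivWithin ℝ k (fun z => ((ψ (g z / (h * θ z)) : ℝ) : ℂ)) O z‖ *
      ‖iteratedFDerivWithin ℝ (i - k) B O z‖ ≤ (i.choose k : ℝ) *
      (C1 * C2 * M ^ N / g z ^ i) := by
    intro k hk
    have hk' : k ≤ i := by have := Finset.mem_range.1 hk; omega
    have e : ‖iteratedFDerivWithin ℝ k (fun z => ((ψ (g z / (h * θ z)) : ℝ) : ℂ)) O z‖ =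
        ‖iteratedFDerivWithin ℝ k (fun z => ψ (g z / (h * θ z))) O z‖ :=
      LinearIsometry.norm_iteratedFDerivWithin_comp_left (𝕜 := ℝ) Complex.ofRealLI
        (h1.contDiffWithinAt hz) hU hz (by exact_mod_cast le_top)
    rw [e, mul_assoc]
    apply mul_le_mul_of_nonneg_left _ (Nat.cast_nonneg _)
    calc ‖iteratedFDerivWithin ℝ k (fun z => ψ (g z / (h * θ z))) O z‖ *
        ‖iteratedFDerivWithin ℝ (i - k) B O z‖ ≤ (C1 / g z ^ k) * C2 := by
          apply mul_le_mul (hC1' k (hk'.trans hi) h hh hh1 z hz hg)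
            (hC2' _ ((Nat.sub_le _ _).trans hi) z ⟨hz, hg.le⟩) (norm_nonneg _) (by positivity)
      _ = (C1 * C2) * g z ^ (i - k) / g z ^ i := by
          rw [div_mul_eq_mul_div, div_eq_div_iff (pow_pos hg k).ne' (pow_pos hg i).ne',
            mul_assoc (C1 * C2), ← pow_add, Nat.sub_add_cancel hk']
      _ ≤ C1 * C2 * M ^ N / g z ^ i := by
          apply div_le_div_of_nonneg_right _ (pow_pos hg i).le
          apply mul_le_mul_of_nonneg_left _ (by positivity)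
          calc g z ^ (i - k) ≤ M ^ (i - k) := pow_le_pow_left₀ hg.le m1 _
            _ ≤ M ^ N := pow_le_pow_right₀ hM1 ((Nat.sub_le _ _).trans hi)
  have hn' : g z ^ n ≤ M ^ n * h ^ n := by
    rcases hn with hn | hn
    · subst hn; simp
    · have hge : g z ≤ h * θ z := by
        by_contra hcon
        exact hcase ⟨hn, not_le.1 hcon⟩
      rw [← mul_pow]
      apply pow_le_pow_left₀ hg.le
      nlinarith
  calc ‖iteratedFDerivWithin ℝ i (fun z => ((ψ (g z / (h * θ z)) : ℝ) : ℂ) * B z) O z‖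
      ≤ ∑ k ∈ Finset.range (i + 1), (i.choose k : ℝ) * (C1 * C2 * M ^ N / g z ^ i) :=
        h3.trans (Finset.sum_le_sum hstep)
    _ = 2 ^ i * (C1 * C2 * M ^ N / g z ^ i) := by
        rw [← Finset.sum_mul]
        congr 1
        exact_mod_cast Nat.sum_range_choose i
    _ ≤ 2 ^ N * (C1 * C2 * M ^ N / g z ^ i) := by
        apply mul_le_mul_of_nonneg_right _ (by positivity)
        exact pow_le_pow_right₀ (by norm_num) hi
    _ ≤ 2 ^ N * C1 * C2 * M ^ N * M ^ n * h ^ n / g z ^ (n + i) := by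
        rw [pow_add, le_div_iff₀ (by positivity)]
        have e : 2 ^ N * (C1 * C2 * M ^ N / g z ^ i) * (g z ^ n * g z ^ i) =
            2 ^ N * C1 * C2 * M ^ N * g z ^ n := by
          have := (pow_pos hg i).ne'
          field_simp
        rw [e]
        calc 2 ^ N * C1 * C2 * M ^ N * g z ^ n ≤ 2 ^ N * C1 * C2 * M ^ N * (M ^ n * h ^ n) :=
              mul_le_mul_of_nonneg_left hn' (by positivity)
          _ = _ := by ring

end weights

end Pool.Agent.Lib.QNL.WtJet
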